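import Mathlib

set_option linter.all false

/- Helper53.KN.Helper16.KS.Defs -/
section
/-!
# Project KS (MP_768c9c_nt, S17468), construction D5: definitions

Blocks `[2^k, 2^(k+1))`, cells of length `2^(e k)`, `e k = ⌊k (1/2 - d)⌋`.  A control system `Sys`:
good cells contain many primes; every bad cell `(k, j)` of class `i` (at most `2^(u i k)` of them) has
many candidates `(q, m)`: `q` prime, `q m` squarefree, `q m` in the cell, all prime factors `p`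
satisfy `2^((u i + c) k) ≤ p^(1/2 - δ)`, and `m^(1/2 + δ) ≤ 2^((1/2 - u i - c) k)`.

`R` is a (random) set of primes.  The function at primes is
`f_t(p) = 1_R(p) p^(-1/2-δ) + ∑_i t_i w_i(p)`, `i` running over all cells (and the initial block);
all the `w_i` are nonnegative: a good cell uses its own primes, a bad cell the control primes `q` of
its candidates `(q, m)` with `m` composed of elements of `R`.
-/

set_option autoImplicit false
open scoped Classical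

namespace Pool.Agent.M20.Helper16.KS

/-- completely multiplicative extension of a function given at the primes -/
noncomputable def CM (g : ℕ → ℝ) (n : ℕ) : ℝ := (n.primeFactorsList.map g).prod

/-- radical -/
def rad (n : ℕ) : ℕ := ∏ p ∈ n.primeFactors, p

/-- Numbers with a large `k / rad k` in short windows.  (Follows from helper18's lemma POW for every
`δ > 0`, from helper14's power lemma for `δ > 1/18`.) -/
def PowC (δ η : ℝ) : Prop := ∃ C : ℝ, ∀ x y : ℕ, ∀ B : ℝ, 1 ≤ x → (x : ℝ) ^ (1 / 2 - η) ≤ y →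
  y ≤ x → 1 ≤ B →
  ∑ k ∈ (Finset.Ico x (x + y)).filter (fun k : ℕ => B ≤ (k : ℝ) / (rad k : ℝ)),
    ((k : ℝ) / (rad k : ℝ)) ^ (1 / 2 - δ) ≤ C * y * B ^ (-η)

/-- cells of block `k` have length `2^(ec d k)` -/
noncomputable def ec (d : ℝ) (k : ℕ) : ℕ := ⌊(k : ℝ) * (1/2 - d)⌋₊

noncomputable def cell (d : ℝ) (k j : ℕ) : Finset ℕ :=
  Finset.Ico (2 ^ k + j * 2 ^ ec d k) (2 ^ k + (j + 1) * 2 ^ ec d k)

/-- number of cells of block `k` -/
noncomputable def nc (d : ℝ) (k : ℕ) : ℕ := 2 ^ (k - ec d k)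

/-- number of primes in a cell -/
noncomputable def npr (d : ℝ) (k j : ℕ) : ℕ := ((cell d k j).filter Nat.Prime).card

/-- A control system. -/
structure Sys where
  d : ℝ
  c : ℝ
  eta : ℝ
  del : ℝ
  c1 : ℝ
  C1 : ℝ
  K : ℕ
  u : Fin 3 → ℝ
  bad : ℕ → ℕ → Prop
  cls : ℕ → ℕ → Fin 3
  Cand : ℕ → ℕ → Finset (ℕ × ℕ)
  d_pos : 0 < d
  d_le : d ≤ c / 10 ^ 5
  c_le : c ≤ eta / 10
  eta_le : eta ≤ del
  del_le : del ≤ 3 / 50
  c1_pos : 0 < c1
  c1_le : c1 ≤ 1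
  C1_ge : 1 ≤ C1
  K_pos : 1 ≤ K
  u_ge : ∀ i, 1/10 ≤ u i
  u_le : ∀ i, u i ≤ 0.22
  pow : PowC del eta
  /-- few bad cells of each class -/
  few : ∀ k, K ≤ k → ∀ i, (((Finset.range (nc d k)).filter
    (fun j => bad k j ∧ cls k j = i)).card : ℝ) ≤ (2 : ℝ) ^ (u i * k)
  /-- good cells contain many primes -/
  good : ∀ k, K ≤ k → ∀ j < nc d k, ¬ bad k j → c1 * 2 ^ ec d k / k ≤ (npr d k j : ℝ)
  /-- candidates -/
  cand : ∀ k, K ≤ k → ∀ j < nc d k, bad k j → ∀ x ∈ Cand k j,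
    x.1.Prime ∧ (2 : ℝ) ^ ((k : ℝ) / 3) ≤ x.1 ∧
    Squarefree (x.1 * x.2) ∧ 1 < x.2 ∧ x.1 * x.2 ∈ cell d k j ∧
    (∀ p : ℕ, p.Prime → p ∣ x.1 * x.2 →
      (2 : ℝ) ^ ((u (cls k j) + c) * k) ≤ (p : ℝ) ^ (1/2 - del)) ∧
    (x.2 : ℝ) ^ (1/2 + del) ≤ (2 : ℝ) ^ ((1/2 - u (cls k j) - c) * k)
  /-- an integer comes from at most one candidate -/
  inj : ∀ k, K ≤ k → ∀ j < nc d k, bad k j → ∀ x ∈ Cand k j, ∀ y ∈ Cand k j,
    x.1 * x.2 = y.1 * y.2 → x = y
  many : ∀ k, K ≤ k → ∀ j < nc d k, bad k j → c1 * 2 ^ ec d k / k ^ 2 ≤ ((Cand k j).card : ℝ)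
  /-- long windows contain the right proportion of candidates (up to a constant) -/
  win1 : ∀ k, K ≤ k → ∀ j < nc d k, bad k j → ∀ x h : ℕ, (2 : ℝ) ^ (0.498 * (k : ℝ)) ≤ h →
    (((Cand k j).filter (fun y => x ≤ y.1 * y.2 ∧ y.1 * y.2 < x + h)).card : ℝ) ≤
      C1 * (h / 2 ^ ec d k) * (Cand k j).card
  /-- shorter windows: one logarithm may be lost -/
  win2 : ∀ k, K ≤ k → ∀ j < nc d k, bad k j → ∀ x h : ℕ, (2 : ℝ) ^ (0.38 * (k : ℝ)) ≤ h →
    (((Cand k j).filter (fun y => x ≤ y.1 * y.2 ∧ y.1 * y.2 < x + h)).card : ℝ) ≤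
      C1 * k * (h / 2 ^ ec d k) * (Cand k j).card

namespace Sys

variable (S : Sys)

/-! ### parameters -/

noncomputable def s : ℝ := S.d / 2
/-- savings are of the form `2^(-(ep/100) k)` -/
noncomputable def ep : ℝ := S.c * S.eta * S.d
noncomputable def tau : ℝ := S.ep / 10 ^ 4
/-- `P(r ∈ R) = r^(-hh)`, `hh = 1/2 - s - δ + τ` -/
noncomputable def hh : ℝ := 1/2 - S.s - S.del + S.tau
/-- control primes of cells of block `k'` are heavy for block `k` if `κ₁ k ≤ k'` -/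
noncomputable def kap : ℝ := S.d / 10

/-- probability that all prime factors of the squarefree number `m` are in `R` -/
noncomputable def pr (m : ℕ) : ℝ := (m : ℝ) ^ (-S.hh)

/-- value at (products of) elements of `R`; `pr m * base m = m^(s-1-τ)` -/
noncomputable def base (m : ℕ) : ℝ := (m : ℝ) ^ (-(1/2 + S.del))

/-- scale of the cells of block `k` -/
noncomputable def G (k : ℕ) : ℝ := 2 ^ ec S.d k * (2 : ℝ) ^ ((S.s - 1) * k) / k ^ 4

/-- index of the cell of `n` in its block -/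
noncomputable def idx (n : ℕ) : ℕ := (n - 2 ^ Nat.log 2 n) / 2 ^ ec S.d (Nat.log 2 n)

/-- weight of the primes of the initial block `[2^(k0-1), 2^k0)` -/
noncomputable def phi0 (k0 : ℕ) : ℝ := (2 : ℝ) ^ ((S.s - 1) * k0) / k0 ^ 3

/-- scale of the initial cell -/
noncomputable def G0 (k0 : ℕ) : ℝ :=
  S.phi0 k0 * (((Finset.Ico (2 ^ (k0 - 1)) (2 ^ k0)).filter Nat.Prime).card : ℝ)

/-- ordinary weight of a prime -/
noncomputable def ordw (k0 p : ℕ) : ℝ :=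
  if p < 2 ^ (k0 - 1) then 0
  else if p < 2 ^ k0 then S.phi0 k0
  else if S.bad (Nat.log 2 p) (S.idx p) then 0
  else S.G (Nat.log 2 p) / npr S.d (Nat.log 2 p) (S.idx p)

/-- the cell of a prime; everything below `2^k0` belongs to the initial cell `(0, 0)` -/
noncomputable def cix (k0 n : ℕ) : ℕ × ℕ := if n < 2 ^ k0 then (0, 0) else (Nat.log 2 n, S.idx n)

end Sys

/-! ### control weights (depending on the set `R`) -/

/-- all prime factors of `m` are in `R` -/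
def inR (R : Set ℕ) (m : ℕ) : Prop := ∀ p : ℕ, p.Prime → p ∣ m → p ∈ R

/-- a control prime `q` of block `k` satisfies `k < top q` -/
def top (q : ℕ) : ℕ := 3 * (Nat.log 2 q + 1)

namespace Sys

variable (S : Sys)

/-- bad cells of block `k` -/
noncomputable def badc (k : ℕ) : Finset ℕ := (Finset.range (nc S.d k)).filter (fun j => S.bad k j)

/-- active candidates of a cell -/
noncomputable def act (R : Set ℕ) (k j : ℕ) : Finset (ℕ × ℕ) :=
  (S.Cand k j).filter (fun x => inR R x.2)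

/-- normalised number of active candidates of a cell; its expectation is `(S.Cand k j).card` -/
noncomputable def NN (R : Set ℕ) (k j : ℕ) : ℝ := ∑ x ∈ S.act R k j, 1 / S.pr x.2

/-- weight of an active candidate `(q, m)` -/
noncomputable def wo (R : Set ℕ) (k j m : ℕ) : ℝ := S.G k / (S.NN R k j * S.pr m * S.base m)

/-- deterministic majorant (up to the factor `(2/c1) k^(-2)`) of `wo`:
`2^((s-1)k) / (pr m * base m) = 2^((s-1)k) m^(1-s+τ)` -/
noncomputable def wd (k m : ℕ) : ℝ := (2 : ℝ) ^ ((S.s - 1) * k) * (m : ℝ) ^ (1 - S.s + S.tau)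

/-- control weight of the prime `q` coming from the bad cell `(k, j)` -/
noncomputable def cw (R : Set ℕ) (k j q : ℕ) : ℝ :=
  ∑ x ∈ (S.act R k j).filter (fun x => x.1 = q), S.wo R k j x.2

/-- control weight of the prime `q` coming from the blocks `k0 ≤ k < k1` -/
noncomputable def ctl (k0 k1 : ℕ) (R : Set ℕ) (q : ℕ) : ℝ :=
  ∑ k ∈ Finset.Ico k0 k1, ∑ j ∈ S.badc k, S.cw R k j q

/-- contribution of `R` at the prime `p` -/
noncomputable def bR (R : Set ℕ) (p : ℕ) : ℝ := if p ∈ R then S.base p else 0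

/-- the majorant at primes -/
noncomputable def Wp (k0 : ℕ) (R : Set ℕ) (p : ℕ) : ℝ :=
  S.bR R p + 2 * S.ordw k0 p + 2 * S.ctl k0 (top p) R p

/-- the completely multiplicative majorant -/
noncomputable def W (k0 : ℕ) (R : Set ℕ) (n : ℕ) : ℝ := CM (S.Wp k0 R) n

/-- the function at primes, with parameters `t` -/
noncomputable def fp (k0 : ℕ) (R : Set ℕ) (t : ℕ × ℕ → ℝ) (p : ℕ) : ℝ :=
  S.bR R p + t (S.cix k0 p) * S.ordw k0 p +
    ∑ k ∈ Finset.Ico k0 (top p), ∑ j ∈ S.badc k, t (k, j) * S.cw R k j p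

/-- the completely multiplicative function -/
noncomputable def ft (k0 : ℕ) (R : Set ℕ) (t : ℕ × ℕ → ℝ) (n : ℕ) : ℝ := CM (S.fp k0 R t) n

/-- the main inequality: the majorant is at most `9/4` times the own part in every cell -/
def Star (k0 : ℕ) (R : Set ℕ) : Prop :=
  ∑ n ∈ Finset.Ico 1 (2 ^ k0), S.W k0 R n ≤ (2 + 1/4) * S.G0 k0 ∧
  ∀ k, k0 ≤ k → ∀ j < nc S.d k, ∑ n ∈ cell S.d k j, S.W k0 R n ≤ (2 + 1/4) * S.G k

/-! ### crude majorants -/

/-- `p^(s-1+6τ)`: majorant of the ordinary and control weights -/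
noncomputable def gam (p : ℕ) : ℝ := (p : ℝ) ^ (S.s - 1 + 6 * S.tau)

/-- crude majorant at primes: every prime `≥ 2^(k0/5)` is a control prime of maximal size -/
noncomputable def Fh (k0 : ℕ) (R : Set ℕ) (p : ℕ) : ℝ :=
  if (p : ℝ) < (2 : ℝ) ^ ((k0 : ℝ) / 5) then 0 else S.bR R p + S.gam p

/-- majorant at primes with the heavy control part (blocks `≥ κ₁ k`) removed -/
noncomputable def Wl (k0 : ℕ) (R : Set ℕ) (k p : ℕ) : ℝ :=
  S.bR R p + 2 * S.ordw k0 p + 2 * S.ctl k0 (min (top p) ⌈S.kap * k⌉₊) R p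

/-- heavy blocks for block `k` (those which can have control primes dividing elements of it) -/
noncomputable def hvy (k0 k : ℕ) : Finset ℕ := Finset.Ico (max k0 ⌈S.kap * k⌉₊) (3 * (k + 1))

/-- the expanded heavy part of a cell: sum over `n` in the cell, heavy active candidates `x = (q, m)`
with `q ∣ n` satisfying `Q (k', j') n x`, `(k', j')` the cell of the candidate `x` -/
noncomputable def HT (k0 : ℕ) (R : Set ℕ) (k j : ℕ) (Q : ℕ × ℕ → ℕ → ℕ × ℕ → Prop) : ℝ :=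
  ∑ n ∈ cell S.d k j, ∑ k' ∈ S.hvy k0 k, ∑ j' ∈ S.badc k',
    ∑ x ∈ (S.act R k' j').filter (fun x => x.1 ∣ n ∧ Q (k', j') n x),
      (n.factorization x.1 : ℝ) * (2 * S.wo R k' j' x.2 * S.W k0 R (n / x.1))

/-- the same with deterministic weights and the crude majorant -/
noncomputable def HP (k0 : ℕ) (R : Set ℕ) (k j : ℕ) (Q : ℕ × ℕ → ℕ → ℕ × ℕ → Prop) : ℝ :=
  ∑ n ∈ cell S.d k j, ∑ k' ∈ S.hvy k0 k, ∑ j' ∈ S.badc k',
    ∑ x ∈ (S.act R k' j').filter (fun x => x.1 ∣ n ∧ Q (k', j') n x),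
      S.wd k' x.2 * CM (S.Fh k0 R) (n / x.1)

/-- non-direct terms -/
def Q1 (_ : ℕ × ℕ) (n : ℕ) (x : ℕ × ℕ) : Prop := ¬ x.2 ∣ n / x.1

/-- direct terms with a large cofactor -/
def Q2 (i : ℕ × ℕ) (n : ℕ) (x : ℕ × ℕ) : Prop :=
  x.2 ∣ n / x.1 ∧ (2 : ℝ) ^ ((S.u (S.cls i.1 i.2) + S.c) * i.1) ≤ ((n / x.1 / x.2 : ℕ) : ℝ)

/-- direct terms with a small cofactor -/
def Q3 (i : ℕ × ℕ) (n : ℕ) (x : ℕ × ℕ) : Prop :=
  x.2 ∣ n / x.1 ∧ 1 < n / x.1 / x.2 ∧
    ((n / x.1 / x.2 : ℕ) : ℝ) < (2 : ℝ) ^ ((S.u (S.cls i.1 i.2) + S.c) * i.1)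

/-- own terms -/
def Q4 (_ : ℕ × ℕ) (n : ℕ) (x : ℕ × ℕ) : Prop := n = x.1 * x.2

/-! ### conditional expectations of the crude majorants -/

/-- all the prime factors of `n` are at least `2^(k0/5)` -/
def rough (k0 n : ℕ) : Prop := ∀ p : ℕ, p.Prime → p ∣ n → (2 : ℝ) ^ ((k0 : ℝ) / 5) ≤ p

/-- `CM (Fh k0 R) n ≤ ∑_{D ⊆ primeFactors n, D ⊆ R} Fe D n` for rough `n` -/
noncomputable def Fe (D : Finset ℕ) (n : ℕ) : ℝ :=
  ∏ p ∈ n.primeFactors,
    if p ∈ D then (S.base p + S.gam p) ^ n.factorization p else S.gam p ^ n.factorization p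

/-- `P(D ⊆ R | A ⊆ R)` -/
noncomputable def pc (A D : Finset ℕ) : ℝ := ∏ p ∈ D \ A, S.pr p

/-- conditional expectation of `HP`, given `A ⊆ R` (only the terms whose support contains `A`) -/
noncomputable def LP (k0 k j : ℕ) (Q : ℕ × ℕ → ℕ → ℕ × ℕ → Prop) (A : Finset ℕ) : ℝ :=
  ∑ n ∈ (cell S.d k j).filter (rough k0), ∑ k' ∈ S.hvy k0 k, ∑ j' ∈ S.badc k',
    ∑ x ∈ (S.Cand k' j').filter (fun x => x.1 ∣ n ∧ Q (k', j') n x),
      ∑ D ∈ (n / x.1).primeFactors.powerset.filter (fun D => A ⊆ x.2.primeFactors ∪ D),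
        S.wd k' x.2 * S.Fe D (n / x.1) * S.pc A (x.2.primeFactors ∪ D)

/-- conditional expectation of the crude mass of a window -/
noncomputable def CP (k0 x h : ℕ) (A : Finset ℕ) : ℝ :=
  ∑ n ∈ (Finset.Ico x (x + h)).filter (rough k0),
    ∑ D ∈ n.primeFactors.powerset.filter (fun D => A ⊆ D), S.Fe D n * S.pc A D

end Sys

end Pool.Agent.M20.Helper16.KS
end

/- Helper53.KN.Helper16.KS.Basic -/
section
/-!
# Project KS: common lemmas
-/

set_option autoImplicit false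
open scoped Classical

namespace Pool.Agent.M20.Helper16.KS

/-! ### completely multiplicative extensions -/

theorem CM_one (g : ℕ → ℝ) : CM g 1 = 1 := by simp [CM]

theorem CM_prime (g : ℕ → ℝ) {p : ℕ} (hp : p.Prime) : CM g p = g p := by
  simp [CM, Nat.primeFactorsList_prime hp]

theorem CM_mul (g : ℕ → ℝ) {m n : ℕ} (hm : m ≠ 0) (hn : n ≠ 0) :
    CM g (m * n) = CM g m * CM g n := by
  unfold CM
  rw [((Nat.perm_primeFactorsList_mul hm hn).map g).prod_eq, List.map_append, List.prod_append]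

theorem CM_eq_prod (g : ℕ → ℝ) (n : ℕ) :
    CM g n = ∏ p ∈ n.primeFactors, g p ^ n.factorization p := by
  unfold CM
  rw [Finset.prod_list_map_count]
  refine Finset.prod_congr rfl fun p _ => ?_
  rw [Nat.primeFactorsList_count_eq]

theorem CM_nonneg {g : ℕ → ℝ} {n : ℕ} (h : ∀ p : ℕ, p.Prime → p ∣ n → 0 ≤ g p) : 0 ≤ CM g n := by
  rw [CM_eq_prod]
  exact Finset.prod_nonneg fun p hp => pow_nonneg
    (h p (Nat.prime_of_mem_primeFactors hp) (Nat.dvd_of_mem_primeFactors hp)) _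

theorem CM_mono {g h : ℕ → ℝ} {n : ℕ} (h0 : ∀ p : ℕ, p.Prime → p ∣ n → 0 ≤ g p)
    (h1 : ∀ p : ℕ, p.Prime → p ∣ n → g p ≤ h p) : CM g n ≤ CM h n := by
  rw [CM_eq_prod, CM_eq_prod]
  refine Finset.prod_le_prod (fun p hp => pow_nonneg
    (h0 p (Nat.prime_of_mem_primeFactors hp) (Nat.dvd_of_mem_primeFactors hp)) _) fun p hp => ?_
  exact pow_le_pow_left₀ (h0 p (Nat.prime_of_mem_primeFactors hp) (Nat.dvd_of_mem_primeFactors hp))
    (h1 p (Nat.prime_of_mem_primeFactors hp) (Nat.dvd_of_mem_primeFactors hp)) _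

theorem CM_congr {g h : ℕ → ℝ} {n : ℕ} (h1 : ∀ p : ℕ, p.Prime → p ∣ n → g p = h p) :
    CM g n = CM h n := by
  rw [CM_eq_prod, CM_eq_prod]
  refine Finset.prod_congr rfl fun p hp => ?_
  rw [h1 p (Nat.prime_of_mem_primeFactors hp) (Nat.dvd_of_mem_primeFactors hp)]

theorem CM_mul_fun (g h : ℕ → ℝ) (n : ℕ) : CM (fun p => g p * h p) n = CM g n * CM h n := by
  simp only [CM_eq_prod, mul_pow, Finset.prod_mul_distrib]

theorem abs_CM (g : ℕ → ℝ) (n : ℕ) : |CM g n| = CM (fun p => |g p|) n := by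
  simp only [CM_eq_prod, Finset.abs_prod, abs_pow]

theorem CM_const (c : ℝ) (n : ℕ) : CM (fun _ => c) n = c ^ n.primeFactorsList.length := by
  simp [CM]

theorem CM_rpow (a : ℝ) {n : ℕ} (hn : n ≠ 0) : CM (fun p => (p : ℝ) ^ a) n = (n : ℝ) ^ a := by
  induction n using Nat.recOnMul with
  | zero => exact absurd rfl hn
  | one => simp [CM_one]
  | prime p hp => exact CM_prime _ hp
  | mul m k hm hk =>
    have hm0 : m ≠ 0 := left_ne_zero_of_mul hn
    have hk0 : k ≠ 0 := right_ne_zero_of_mul hn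
    rw [CM_mul _ hm0 hk0, hm hm0, hk hk0, Nat.cast_mul,
      Real.mul_rpow (Nat.cast_nonneg _) (Nat.cast_nonneg _)]

theorem CM_eq_zero {g : ℕ → ℝ} {n p : ℕ} (hn : n ≠ 0) (hp : p.Prime) (hpn : p ∣ n)
    (h : g p = 0) : CM g n = 0 := by
  rw [CM_eq_prod]
  refine Finset.prod_eq_zero (Nat.mem_primeFactors.mpr ⟨hp, hpn, hn⟩) ?_
  rw [h, zero_pow]
  exact (hp.factorization_pos_of_dvd hn hpn).ne'

/-! ### cells -/

theorem ec_le (d : ℝ) (hd : 0 < d) (k : ℕ) : ec d k ≤ k := by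
  unfold ec
  refine Nat.floor_le_of_le ?_
  have : (0 : ℝ) ≤ k := Nat.cast_nonneg k
  (clear * - hd; nlinarith)

theorem mem_cell {d : ℝ} {k j n : ℕ} :
    n ∈ cell d k j ↔ 2 ^ k + j * 2 ^ ec d k ≤ n ∧ n < 2 ^ k + (j + 1) * 2 ^ ec d k := by
  simp [cell]

theorem cell_lt {d : ℝ} (hd : 0 < d) {k j n : ℕ} (hj : j < nc d k) (hn : n ∈ cell d k j) :
    n < 2 ^ (k + 1) := by
  rw [mem_cell] at hn
  have h1 : (j + 1) * 2 ^ ec d k ≤ 2 ^ (k - ec d k) * 2 ^ ec d k :=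
    Nat.mul_le_mul_right _ hj
  rw [← pow_add, Nat.sub_add_cancel (ec_le d hd k)] at h1
  have h2 : 2 ^ (k + 1) = 2 ^ k + 2 ^ k := by ring
  omega

theorem cell_ge {d : ℝ} {k j n : ℕ} (hn : n ∈ cell d k j) : 2 ^ k ≤ n := by
  rw [mem_cell] at hn
  omega

theorem cell_log {d : ℝ} (hd : 0 < d) {k j n : ℕ} (hj : j < nc d k) (hn : n ∈ cell d k j) :
    Nat.log 2 n = k :=
  Nat.log_eq_of_pow_le_of_lt_pow (cell_ge hn) (cell_lt hd hj hn)

namespace Sys

variable (S : Sys)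

theorem cell_idx {k j n : ℕ} (hj : j < nc S.d k) (hn : n ∈ cell S.d k j) : S.idx n = j := by
  unfold idx
  rw [cell_log S.d_pos hj hn]
  rw [mem_cell] at hn
  have h2 : 0 < 2 ^ ec S.d k := by positivity
  refine Nat.div_eq_of_lt_le ?_ ?_
  · omega
  · omega

theorem mem_cell_idx {n : ℕ} (hn : n ≠ 0) : n ∈ cell S.d (Nat.log 2 n) (S.idx n) := by
  rw [mem_cell]
  unfold idx
  have h1 : 2 ^ Nat.log 2 n ≤ n := Nat.pow_log_le_self 2 hn
  have h2 : 0 < 2 ^ ec S.d (Nat.log 2 n) := by positivity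
  have h3 := Nat.div_mul_le_self (n - 2 ^ Nat.log 2 n) (2 ^ ec S.d (Nat.log 2 n))
  have h4 := Nat.lt_div_mul_add h2 (a := n - 2 ^ Nat.log 2 n)
  constructor
  · omega
  · rw [add_mul, one_mul]
    omega

theorem idx_lt (n : ℕ) : S.idx n < nc S.d (Nat.log 2 n) := by
  unfold idx nc
  have h2 : 0 < 2 ^ ec S.d (Nat.log 2 n) := by positivity
  rw [Nat.div_lt_iff_lt_mul h2, ← pow_add, Nat.sub_add_cancel (ec_le S.d S.d_pos _)]
  have h1 : n < 2 ^ (Nat.log 2 n + 1) := Nat.lt_pow_succ_log_self (by norm_num) n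
  have h3 : 2 ^ (Nat.log 2 n + 1) = 2 ^ Nat.log 2 n + 2 ^ Nat.log 2 n := by ring
  have h4 : 0 < 2 ^ Nat.log 2 n := by positivity
  omega

theorem mem_badc {k j : ℕ} : j ∈ S.badc k ↔ j < nc S.d k ∧ S.bad k j := by
  unfold badc
  rw [Finset.mem_filter, Finset.mem_range]

theorem mem_act {R : Set ℕ} {k j : ℕ} {x : ℕ × ℕ} :
    x ∈ S.act R k j ↔ x ∈ S.Cand k j ∧ inR R x.2 := by
  unfold act
  rw [Finset.mem_filter]

/-- basic facts about candidates -/
theorem cand_facts {k j : ℕ} (hk : S.K ≤ k) (hj : j ∈ S.badc k) {x : ℕ × ℕ}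
    (hx : x ∈ S.Cand k j) :
    x.1.Prime ∧ Squarefree x.2 ∧ x.1.Coprime x.2 ∧ 1 < x.2 ∧ x.1 * x.2 ∈ cell S.d k j ∧
      2 ^ k ≤ x.1 * x.2 ∧ x.1 * x.2 < 2 ^ (k + 1) ∧ (2 : ℝ) ^ ((k : ℝ) / 3) ≤ x.1 ∧ k < top x.1 := by
  rw [S.mem_badc] at hj
  obtain ⟨h1, h2, h3, h4, h5, -, -⟩ := S.cand k hk j hj.1 hj.2 x hx
  refine ⟨h1, h3.squarefree_of_dvd (Dvd.intro_left _ rfl), Nat.coprime_of_squarefree_mul h3, h4, h5,
    cell_ge h5, cell_lt S.d_pos hj.1 h5, h2, ?_⟩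
  unfold top
  have h6 : x.1 < 2 ^ (Nat.log 2 x.1 + 1) := Nat.lt_pow_succ_log_self (by norm_num) _
  have h7 : (x.1 : ℝ) < (2 : ℝ) ^ ((Nat.log 2 x.1 + 1 : ℕ) : ℝ) := by
    rw [Real.rpow_natCast]
    exact_mod_cast h6
  have h8 := (Real.rpow_lt_rpow_left_iff (by norm_num : (1 : ℝ) < 2)).mp (h2.trans_lt h7)
  have h9 : (k : ℝ) < (3 * (Nat.log 2 x.1 + 1) : ℕ) := by
    push_cast at h8 ⊢
    (clear * - h8; linarith)
  exact_mod_cast h9

theorem cell_disj {k j k' j' n : ℕ} (hj : j < nc S.d k) (hj' : j' < nc S.d k')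
    (hn : n ∈ cell S.d k j) (hn' : n ∈ cell S.d k' j') : k' = k ∧ j' = j := by
  have h1 := cell_log S.d_pos hj hn
  have h2 := cell_log S.d_pos hj' hn'
  exact ⟨h2.symm.trans h1, (S.cell_idx hj' hn').symm.trans (S.cell_idx hj hn)⟩

/-! ### parameters -/

theorem c_pos : 0 < S.c := by
  have h1 := S.d_pos
  have h2 := S.d_le
  have h3 : S.d * 10 ^ 5 ≤ S.c := by
    rw [le_div_iff₀ (by positivity)] at h2
    exact h2
  (clear * - h1 h2; nlinarith)

theorem eta_pos : 0 < S.eta := by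
  have := S.c_pos
  have := S.c_le
  linarith

theorem del_pos : 0 < S.del := lt_of_lt_of_le S.eta_pos S.eta_le

theorem c_le' : S.c ≤ 3 / 500 := by
  have := S.c_le
  have := S.eta_le
  have := S.del_le
  linarith

theorem eta_le' : S.eta ≤ 3 / 50 := S.eta_le.trans S.del_le

theorem d_le' : S.d ≤ 3 / 5 / 10 ^ 7 := by
  have h := S.d_le
  have h1 := S.c_le'
  have : S.c / 10 ^ 5 ≤ (3 / 500) / 10 ^ 5 := div_le_div_of_nonneg_right h1 (by positivity)
  norm_num at this ⊢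
  (clear * - h h1; linarith)

theorem d_le_c : S.d ≤ S.c / 10 ^ 5 := S.d_le

theorem s_pos : 0 < S.s := by
  have := S.d_pos
  unfold s
  linarith

theorem s_eq : S.s = S.d / 2 := rfl

theorem s_lt : S.s < 1 / 10 ^ 6 := by
  have := S.d_le'
  rw [S.s_eq]
  norm_num at this ⊢
  linarith

theorem ep_pos : 0 < S.ep := mul_pos (mul_pos S.c_pos S.eta_pos) S.d_pos

theorem tau_pos : 0 < S.tau := by
  have := S.ep_pos
  unfold tau
  positivity

theorem ep_eq : S.ep = S.c * S.eta * S.d := rfl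

theorem tau_eq : S.tau = S.ep / 10 ^ 4 := rfl

/-- `τ ≤ c d / 10^5` -/
theorem tau_le : S.tau ≤ S.c * S.d / 10 ^ 5 := by
  rw [S.tau_eq, S.ep_eq]
  have h1 : S.eta ≤ 1 / 10 := by
    have := S.eta_le'
    linarith
  have h2 := mul_pos S.c_pos S.d_pos
  have h3 : S.c * S.eta * S.d ≤ S.c * S.d * (1 / 10) := by (clear * - h1 h2; nlinarith)
  calc S.c * S.eta * S.d / 10 ^ 4 ≤ S.c * S.d * (1 / 10) / 10 ^ 4 :=
        div_le_div_of_nonneg_right h3 (by positivity)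
    _ = S.c * S.d / 10 ^ 5 := by ring

/-- `τ ≤ s / 10^6` -/
theorem tau_le_s : S.tau ≤ S.s / 10 ^ 6 := by
  have h1 := S.tau_le
  have h2 := S.c_le'
  have h3 := S.d_pos
  rw [S.s_eq]
  have h4 : S.c * S.d ≤ (3 / 500) * S.d := mul_le_mul_of_nonneg_right h2 h3.le
  have h5 : S.c * S.d / 10 ^ 5 ≤ (3 / 500) * S.d / 10 ^ 5 :=
    div_le_div_of_nonneg_right h4 (by positivity)
  norm_num at h5 h1 ⊢
  linarith

theorem hh_eq : S.hh = 1/2 - S.s - S.del + S.tau := rfl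

theorem hh_le : S.hh ≤ 1/2 - S.del := by
  have h1 := S.tau_le_s
  have h2 := S.s_pos
  rw [S.hh_eq]
  have : S.s / 10 ^ 6 ≤ S.s := by
    rw [div_le_iff₀ (by positivity)]
    (clear * - h2; nlinarith)
  linarith

theorem hh_ge : 2/5 ≤ S.hh := by
  have h1 := S.tau_pos
  have h2 := S.s_lt
  have h3 := S.del_le
  rw [S.hh_eq]
  norm_num at h2
  linarith

/-! ### `pr`, `base`, `G` -/

theorem pr_pos {m : ℕ} (hm : m ≠ 0) : 0 < S.pr m :=
  Real.rpow_pos_of_pos (by exact_mod_cast Nat.pos_of_ne_zero hm) _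

theorem base_pos {m : ℕ} (hm : m ≠ 0) : 0 < S.base m :=
  Real.rpow_pos_of_pos (by exact_mod_cast Nat.pos_of_ne_zero hm) _

theorem pr_nonneg (m : ℕ) : 0 ≤ S.pr m := Real.rpow_nonneg (Nat.cast_nonneg _) _

theorem base_nonneg (m : ℕ) : 0 ≤ S.base m := Real.rpow_nonneg (Nat.cast_nonneg _) _

theorem gam_nonneg (m : ℕ) : 0 ≤ S.gam m := Real.rpow_nonneg (Nat.cast_nonneg _) _

theorem pr_le_one {m : ℕ} (hm : m ≠ 0) : S.pr m ≤ 1 := by
  unfold pr
  refine Real.rpow_le_one_of_one_le_of_nonpos ?_ ?_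
  · exact_mod_cast Nat.one_le_iff_ne_zero.mpr hm
  · have := S.hh_ge
    (clear * - this; linarith)

theorem pr_mul_base {m : ℕ} (hm : m ≠ 0) : S.pr m * S.base m = (m : ℝ) ^ (S.s - 1 - S.tau) := by
  unfold pr base
  rw [← Real.rpow_add (by exact_mod_cast Nat.pos_of_ne_zero hm), S.hh_eq]
  congr 1
  ring

theorem CM_base {n : ℕ} (hn : n ≠ 0) : CM S.base n = S.base n := CM_rpow _ hn

theorem G_pos {k : ℕ} (hk : 1 ≤ k) : 0 < S.G k := by
  have : (0 : ℝ) < k := by exact_mod_cast hk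
  unfold G
  (clear * - hk; positivity)

theorem G_nonneg (k : ℕ) : 0 ≤ S.G k := by
  unfold G
  (clear * -; positivity)

/-! ### weights -/

theorem bR_nonneg (R : Set ℕ) (p : ℕ) : 0 ≤ S.bR R p := by
  unfold bR
  split_ifs
  · exact S.base_nonneg p
  · exact le_rfl

theorem ordw_nonneg (k0 p : ℕ) : 0 ≤ S.ordw k0 p := by
  unfold ordw
  split_ifs
  · exact le_rfl
  · unfold phi0
    (clear * -; positivity)
  · exact le_rfl
  · exact div_nonneg (S.G_nonneg _) (Nat.cast_nonneg _)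

theorem NN_nonneg (R : Set ℕ) (k j : ℕ) : 0 ≤ S.NN R k j :=
  Finset.sum_nonneg fun x _ => div_nonneg zero_le_one (S.pr_nonneg _)

theorem wo_nonneg (R : Set ℕ) (k j m : ℕ) : 0 ≤ S.wo R k j m :=
  div_nonneg (S.G_nonneg _) (mul_nonneg (mul_nonneg (S.NN_nonneg _ _ _) (S.pr_nonneg _))
    (S.base_nonneg _))

theorem cw_nonneg (R : Set ℕ) (k j q : ℕ) : 0 ≤ S.cw R k j q :=
  Finset.sum_nonneg fun x _ => S.wo_nonneg _ _ _ _

theorem ctl_nonneg (k0 k1 : ℕ) (R : Set ℕ) (q : ℕ) : 0 ≤ S.ctl k0 k1 R q :=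
  Finset.sum_nonneg fun k _ => Finset.sum_nonneg fun j _ => S.cw_nonneg _ _ _ _

theorem ctl_mono {k0 k1 k2 : ℕ} (h : k1 ≤ k2) (R : Set ℕ) (q : ℕ) :
    S.ctl k0 k1 R q ≤ S.ctl k0 k2 R q :=
  Finset.sum_le_sum_of_subset_of_nonneg (Finset.Ico_subset_Ico_right h)
    fun k _ _ => Finset.sum_nonneg fun j _ => S.cw_nonneg _ _ _ _

theorem Wp_nonneg (k0 : ℕ) (R : Set ℕ) (p : ℕ) : 0 ≤ S.Wp k0 R p := by
  have h1 := S.bR_nonneg R p
  have h2 := S.ordw_nonneg k0 p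
  have h3 := S.ctl_nonneg k0 (top p) R p
  unfold Wp
  (clear * - h1 h2 h3; positivity)

theorem Wl_le_Wp (k0 : ℕ) (R : Set ℕ) (k p : ℕ) : S.Wl k0 R k p ≤ S.Wp k0 R p := by
  have h3 := S.ctl_mono (k0 := k0) (min_le_left (top p) ⌈S.kap * k⌉₊) R p
  unfold Wl Wp
  linarith

theorem W_nonneg (k0 : ℕ) (R : Set ℕ) (n : ℕ) : 0 ≤ S.W k0 R n :=
  CM_nonneg fun p _ _ => S.Wp_nonneg k0 R p

theorem W_mul (k0 : ℕ) (R : Set ℕ) {m n : ℕ} (hm : m ≠ 0) (hn : n ≠ 0) :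
    S.W k0 R (m * n) = S.W k0 R m * S.W k0 R n := CM_mul _ hm hn

theorem W_one (k0 : ℕ) (R : Set ℕ) : S.W k0 R 1 = 1 := CM_one _

theorem Fh_nonneg (k0 : ℕ) (R : Set ℕ) (p : ℕ) : 0 ≤ S.Fh k0 R p := by
  unfold Fh
  split_ifs
  · exact le_rfl
  · exact add_nonneg (S.bR_nonneg _ _) (S.gam_nonneg _)

theorem wd_nonneg (k m : ℕ) : 0 ≤ S.wd k m := by
  unfold wd
  positivity

theorem Fe_nonneg (D : Finset ℕ) (n : ℕ) : 0 ≤ S.Fe D n := by
  unfold Fe
  refine Finset.prod_nonneg fun p _ => ?_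
  split_ifs
  · exact pow_nonneg (add_nonneg (S.base_nonneg _) (S.gam_nonneg _)) _
  · exact pow_nonneg (S.gam_nonneg _) _

/-- expansion of the crude majorant -/
theorem CM_Fh_le (k0 : ℕ) (R : Set ℕ) {n : ℕ} (hn : rough k0 n) :
    CM (S.Fh k0 R) n ≤ ∑ D ∈ n.primeFactors.powerset.filter (fun D => ∀ p ∈ D, p ∈ R), S.Fe D n := by
  set D0 : Finset ℕ := n.primeFactors.filter (fun p => p ∈ R) with hD0
  have h1 : CM (S.Fh k0 R) n ≤ S.Fe D0 n := by
    rw [CM_eq_prod]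
    unfold Fe
    refine Finset.prod_le_prod (fun p _ => pow_nonneg (S.Fh_nonneg _ _ _) _) fun p hp => ?_
    have hp' := Nat.mem_primeFactors.mp hp
    have h2 : ¬ ((p : ℝ) < (2 : ℝ) ^ ((k0 : ℝ) / 5)) := not_lt.mpr (hn p hp'.1 hp'.2.1)
    have h3 : S.Fh k0 R p = S.bR R p + S.gam p := by
      unfold Fh
      rw [if_neg h2]
    rw [h3]
    by_cases hR : p ∈ R
    · rw [if_pos (by rw [hD0, Finset.mem_filter]; exact ⟨hp, hR⟩)]
      unfold bR
      rw [if_pos hR]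
    · rw [if_neg (by rw [hD0, Finset.mem_filter]; exact fun h => hR h.2)]
      unfold bR
      rw [if_neg hR, zero_add]
  refine h1.trans ?_
  refine Finset.single_le_sum (f := fun D => S.Fe D n) (fun D _ => S.Fe_nonneg D n) ?_
  rw [Finset.mem_filter, Finset.mem_powerset]
  exact ⟨Finset.filter_subset _ _, fun p hp => (Finset.mem_filter.mp hp).2⟩

theorem CM_Fh_eq_zero (k0 : ℕ) (R : Set ℕ) {n : ℕ} (hn0 : n ≠ 0) (hn : ¬ rough k0 n) :
    CM (S.Fh k0 R) n = 0 := by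
  unfold rough at hn
  push Not at hn
  obtain ⟨p, hp, hpn, hlt⟩ := hn
  refine CM_eq_zero hn0 hp hpn ?_
  unfold Fh
  rw [if_pos hlt]

/-- number of prime factors of rough numbers -/
theorem rough_omega {k0 n : ℕ} (hn0 : n ≠ 0) (hn : rough k0 n) :
    (2 : ℝ) ^ ((k0 : ℝ) / 5 * n.primeFactorsList.length) ≤ n := by
  induction n using Nat.recOnMul with
  | zero => exact absurd rfl hn0
  | one => simp
  | prime p hp =>
    rw [Nat.primeFactorsList_prime hp]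
    simpa using hn p hp dvd_rfl
  | mul m k hm hk =>
    have hm0 : m ≠ 0 := left_ne_zero_of_mul hn0
    have hk0 : k ≠ 0 := right_ne_zero_of_mul hn0
    have h1 := hm hm0 fun p hp hpm => hn p hp (hpm.mul_right _)
    have h2 := hk hk0 fun p hp hpm => hn p hp (hpm.mul_left _)
    rw [(Nat.perm_primeFactorsList_mul hm0 hk0).length_eq, List.length_append, Nat.cast_add,
      mul_add, Real.rpow_add (by norm_num), Nat.cast_mul]
    exact mul_le_mul h1 h2 (by positivity) (Nat.cast_nonneg _)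

theorem rough_omega_le {k0 k n : ℕ} (hk0 : 1 ≤ k0) (hn0 : n ≠ 0) (hn : rough k0 n)
    (hnk : n < 2 ^ (k + 1)) : (n.primeFactorsList.length : ℝ) ≤ 5 * (k + 1) / k0 := by
  have h1 := rough_omega hn0 hn
  have h2 : (n : ℝ) ≤ (2 : ℝ) ^ ((k + 1 : ℕ) : ℝ) := by
    rw [Real.rpow_natCast]
    exact_mod_cast hnk.le
  have h3 := (Real.rpow_le_rpow_left_iff (by norm_num : (1 : ℝ) < 2)).mp (h1.trans h2)
  have h4 : (0 : ℝ) < k0 := by exact_mod_cast hk0
  push_cast at h3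
  rw [le_div_iff₀ h4]
  (clear * - h3; linarith)

end Sys

end Pool.Agent.M20.Helper16.KS
end

/- Helper53.KN.Helper18.KL.Defs -/
section
/-!
# Project KS: load theorem (Load1, Load2), common definitions and statements

`x = (q, m)` a candidate of a bad cell of block `k'`, `q ∣ n`, `n` in the cell `(k, j)`, `l = n / q`,
`A` the conditioning set.

* (Red) `LP ≤ 2^(20 τ k) 2^((s-1) k) LS`, `LS` the sum of the relative weights
  `((m_A / m) * sig (A ∪ pf m) l)^hh`.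
* (KF) terms such that some prime of `m` is neither in `A` nor a divisor of `l`: `n` first.
* (JF) terms such that `A` contains a prime of `m` and all the primes of `m` outside `A` divide `l`:
  candidates first.
* (LL) terms with `m ∣ l`, no prime of `m` in `A`, large cofactor.
-/

set_option autoImplicit false
open scoped Classical

namespace Pool.Agent.M20.Helper18.KL

open Pool.Agent.M20.Helper16.KS

/-- `∏ p^v` over the primes of `O`, `∏ p^(v-1)` over the other primes, `v` the exponent in `n` -/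
noncomputable def sig (O : Finset ℕ) (n : ℕ) : ℕ :=
  ∏ p ∈ n.primeFactors, if p ∈ O then p ^ n.factorization p else p ^ (n.factorization p - 1)

/-- the part of the squarefree number `m` composed of primes of `A` -/
def mA (A : Finset ℕ) (m : ℕ) : ℕ := ∏ p ∈ m.primeFactors ∩ A, p

/-- relative weight of a term -/
noncomputable def tw (S : Sys) (A : Finset ℕ) (m l : ℕ) : ℝ :=
  ((mA A m : ℝ) / m * (sig (A ∪ m.primeFactors) l : ℝ)) ^ S.hh

/-- sum of the relative weights -/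
noncomputable def LS (S : Sys) (k0 k j : ℕ) (Q : ℕ × ℕ → ℕ → ℕ × ℕ → Prop) (A : Finset ℕ) : ℝ :=
  ∑ n ∈ (cell S.d k j).filter (Sys.rough k0), ∑ k' ∈ S.hvy k0 k, ∑ j' ∈ S.badc k',
    ∑ x ∈ (S.Cand k' j').filter (fun x => x.1 ∣ n ∧ Q (k', j') n x ∧
      A ⊆ x.2.primeFactors ∪ (n / x.1).primeFactors), tw S A x.2 (n / x.1)

/-- (RED) -/
def Red : Prop := ∀ S : Sys, ∃ K0 : ℕ, ∀ k0 : ℕ, K0 ≤ k0 → ∀ k, k0 ≤ k → ∀ j < nc S.d k,
  ∀ (Q : ℕ × ℕ → ℕ → ℕ × ℕ → Prop) (A : Finset ℕ),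
  S.LP k0 k j Q A ≤ (2 : ℝ) ^ (20 * S.tau * k) * (2 : ℝ) ^ ((S.s - 1) * k) * LS S k0 k j Q A

/-- (POWA) weighted count of the multiples of `a` in a window, all primes of `a` in `O` -/
def PowA : Prop := ∀ S : Sys, ∀ e : ℝ, 0 < e → e ≤ S.eta → ∃ C : ℝ, 0 < C ∧
  ∀ (x y P0 : ℕ) (O : Finset ℕ) (a : ℕ), 1 ≤ x → y ≤ x → 2 ≤ P0 → (∀ p ∈ O, p.Prime ∧ P0 ≤ p) → 1 ≤ a →
  a.primeFactors ⊆ O →
  ∑ n ∈ (Finset.Ico x (x + y)).filter (fun n => a ∣ n), (sig O n : ℝ) ^ S.hh ≤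
    C * 2 ^ (O.card + Nat.log P0 (2 * x)) *
      (y * (a : ℝ) ^ (S.hh - 1) + (x : ℝ) ^ (1 / 2 - e) * (a : ℝ) ^ (S.hh - 1 / 2 + e))

/-- (POWB) weighted count of the numbers with large `sig` -/
def PowB : Prop := ∀ S : Sys, ∀ e : ℝ, 0 < e → e ≤ S.eta → ∃ C : ℝ, 0 < C ∧
  ∀ (x y P0 : ℕ) (O : Finset ℕ) (B : ℝ), 1 ≤ x → y ≤ x → 2 ≤ P0 → (∀ p ∈ O, p.Prime ∧ P0 ≤ p) → 1 ≤ B →
  ∑ n ∈ (Finset.Ico x (x + y)).filter (fun n => B ≤ (sig O n : ℝ)), (sig O n : ℝ) ^ S.hh ≤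
    C * 2 ^ (O.card + Nat.log P0 (2 * x)) * (y * B ^ (-e) + (x : ℝ) ^ (1 / 2 - e))

/-- `n` first: some prime of `m` is neither in `A` nor a divisor of `n / q` -/
def QK (A : Finset ℕ) (_ : ℕ × ℕ) (n : ℕ) (x : ℕ × ℕ) : Prop :=
  ∃ p : ℕ, p.Prime ∧ p ∣ x.2 ∧ p ∉ A ∧ ¬ p ∣ n / x.1

/-- candidates first: a prime of `m` is in `A`, the primes of `m` outside `A` divide `n / q` -/
def QJ (A : Finset ℕ) (_ : ℕ × ℕ) (n : ℕ) (x : ℕ × ℕ) : Prop :=
  (∃ p : ℕ, p.Prime ∧ p ∣ x.2 ∧ p ∈ A) ∧ ∀ p : ℕ, p.Prime → p ∣ x.2 → p ∉ A → p ∣ n / x.1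

/-- direct terms with a large cofactor, no prime of `m` in `A` -/
def QL (S : Sys) (A : Finset ℕ) (i : ℕ × ℕ) (n : ℕ) (x : ℕ × ℕ) : Prop :=
  S.Q2 i n x ∧ ∀ p : ℕ, p.Prime → p ∣ x.2 → p ∉ A

/-- the bound which is needed (the three classes and the blocks are added up) -/
def SmallLS (Q : Sys → Finset ℕ → ℕ × ℕ → ℕ → ℕ × ℕ → Prop) : Prop :=
  ∀ S : Sys, ∃ K0 : ℕ, ∀ k0 : ℕ, K0 ≤ k0 → ∀ k, k0 ≤ k → ∀ j < nc S.d k, ∀ A : Finset ℕ,
    LS S k0 k j (Q S A) A ≤ (2 : ℝ) ^ (-(S.ep / 40) * k) * 2 ^ ec S.d k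

def KF : Prop := SmallLS (fun _ A => QK A)
def JF : Prop := SmallLS (fun _ A => QJ A)
def LL : Prop := SmallLS (fun S A => QL S A)

end Pool.Agent.M20.Helper18.KL
end

/- Helper53.KN.Helper48.KS.PowGiven -/
section
/-!
# Powerful parts with a given set of primes (project KS, MP_768c9c_nt)

Consumer forms of `PowHalf` (helper18's POW): sums of `(k / rad_g k) ^ (1/2 - δ)` over `k` in an
interval, where `rad_g k` is the product of the primes `p ∣ k`, `p ∉ g`.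
-/

set_option autoImplicit false

namespace Pool.Agent.M20.Helper48.KS

open Finset

/-- product of the primes dividing `k` which are not in `g` -/
def radg (g : Finset ℕ) (k : ℕ) : ℕ := ∏ p ∈ k.primeFactors \ g, p

/-- the part of `k` composed of primes of `g` -/
def gpart (g : Finset ℕ) (k : ℕ) : ℕ := ∏ p ∈ k.primeFactors ∩ g, p ^ k.factorization p

/-- the part of `k` composed of primes outside `g` -/
def cpart (g : Finset ℕ) (k : ℕ) : ℕ := ∏ p ∈ k.primeFactors \ g, p ^ k.factorization p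

/-- number of `1 ≤ a ≤ z` composed of primes of `g` -/
def Ng (g : Finset ℕ) (z : ℕ) : ℕ := ((Finset.Icc 1 z).filter (fun a => a.primeFactors ⊆ g)).card

theorem gpart_mul_cpart (g : Finset ℕ) {k : ℕ} (hk : k ≠ 0) : gpart g k * cpart g k = k := by
  classical
  unfold gpart cpart
  conv_rhs => rw [← Nat.prod_factorization_pow_eq_self hk]
  rw [Nat.prod_factorization_eq_prod_primeFactors, ← Finset.prod_union]
  · rw [Finset.union_comm, Finset.sdiff_union_inter]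
  · exact Finset.disjoint_of_subset_left Finset.inter_subset_right Finset.disjoint_sdiff

theorem primeFactors_prod_pow {s : Finset ℕ} (hs : ∀ p ∈ s, p.Prime) (v : ℕ → ℕ)
    (hv : ∀ p ∈ s, v p ≠ 0) : (∏ p ∈ s, p ^ v p).primeFactors = s := by
  classical
  ext q
  rw [Nat.mem_primeFactors]
  constructor
  · rintro ⟨hq, hd, _⟩
    obtain ⟨p, hp, hqp⟩ := (Prime.dvd_finsetProd_iff hq.prime _).mp hd
    have := hq.dvd_of_dvd_pow hqp
    rw [(Nat.prime_dvd_prime_iff_eq hq (hs p hp)).mp this]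
    exact hp
  · intro hq
    refine ⟨hs q hq, ?_, ?_⟩
    · exact (dvd_pow_self q (hv q hq)).trans (Finset.dvd_prod_of_mem (fun p => p ^ v p) hq)
    · exact Finset.prod_ne_zero_iff.mpr fun p hp => pow_ne_zero _ (hs p hp).ne_zero

theorem primeFactors_cpart (g : Finset ℕ) (k : ℕ) :
    (cpart g k).primeFactors = k.primeFactors \ g := by
  classical
  refine primeFactors_prod_pow (fun p hp => Nat.prime_of_mem_primeFactors (Finset.sdiff_subset hp))
    _ fun p hp => ?_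
  have := Finset.sdiff_subset hp
  rw [← Nat.support_factorization] at this
  exact Finsupp.mem_support_iff.mp this

theorem primeFactors_gpart (g : Finset ℕ) (k : ℕ) :
    (gpart g k).primeFactors = k.primeFactors ∩ g := by
  classical
  refine primeFactors_prod_pow
    (fun p hp => Nat.prime_of_mem_primeFactors (Finset.inter_subset_left hp)) _ fun p hp => ?_
  have := Finset.inter_subset_left hp
  rw [← Nat.support_factorization] at this
  exact Finsupp.mem_support_iff.mp this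

theorem gpart_pos (g : Finset ℕ) (k : ℕ) : 0 < gpart g k :=
  Finset.prod_pos fun p hp =>
    pow_pos (Nat.prime_of_mem_primeFactors (Finset.inter_subset_left hp)).pos _

theorem cpart_pos (g : Finset ℕ) (k : ℕ) : 0 < cpart g k :=
  Finset.prod_pos fun p hp =>
    pow_pos (Nat.prime_of_mem_primeFactors (Finset.sdiff_subset hp)).pos _

theorem radg_pos (g : Finset ℕ) (k : ℕ) : 0 < radg g k :=
  Finset.prod_pos fun _ hp => (Nat.prime_of_mem_primeFactors (Finset.sdiff_subset hp)).pos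

theorem radg_eq (g : Finset ℕ) (k : ℕ) : radg g k = ∏ p ∈ (cpart g k).primeFactors, p := by
  rw [primeFactors_cpart]; rfl

theorem radg_eq' (g : Finset ℕ) (k : ℕ) :
    (radg g k : ℝ) = ∏ p ∈ (cpart g k).primeFactors, (p : ℝ) := by
  rw [radg_eq]; push_cast; rfl

theorem ratio_eq (g : Finset ℕ) {k : ℕ} (hk : k ≠ 0) :
    (k : ℝ) / radg g k =
      gpart g k * ((cpart g k : ℝ) / ∏ p ∈ (cpart g k).primeFactors, (p : ℝ)) := by
  have h := gpart_mul_cpart g hk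
  have h1 : (k : ℝ) = gpart g k * cpart g k := by exact_mod_cast h.symm
  rw [← radg_eq', h1, mul_div_assoc]

/-! ### The number of integers composed of given primes -/

theorem Ng_empty (z : ℕ) : Ng ∅ z ≤ 1 := by
  unfold Ng
  rw [Finset.card_le_one]
  have key : ∀ a ∈ (Finset.Icc 1 z).filter (fun a => a.primeFactors ⊆ (∅ : Finset ℕ)), a = 1 := by
    intro a ha
    rw [Finset.mem_filter, Finset.mem_Icc, Finset.subset_empty, Nat.primeFactors_eq_empty] at ha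
    omega
  intro a ha b hb
  rw [key a ha, key b hb]

theorem Ng_insert (g : Finset ℕ) (p z : ℕ) (hp : p.Prime) :
    Ng (insert p g) z ≤ ∑ j ∈ Finset.range (Nat.log p z + 1), Ng g (z / p ^ j) := by
  classical
  unfold Ng
  rw [← Finset.card_sigma]
  refine Finset.card_le_card_of_injOn
    (fun a => (⟨a.factorization p, a / p ^ a.factorization p⟩ : Σ _ : ℕ, ℕ)) ?_ ?_
  · intro a ha
    rw [Finset.mem_coe, Finset.mem_filter, Finset.mem_Icc] at ha
    obtain ⟨⟨ha1, haz⟩, hag⟩ := ha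
    have ha0 : a ≠ 0 := by omega
    rw [Finset.mem_coe, Finset.mem_sigma]
    constructor
    · rw [Finset.mem_range, Nat.lt_succ_iff]
      have h1 : p ^ a.factorization p ≤ z := (Nat.ordProj_le p ha0).trans haz
      exact Nat.le_log_of_pow_le hp.one_lt h1
    · dsimp only
      rw [Finset.mem_filter, Finset.mem_Icc]
      refine ⟨⟨Nat.div_pos (Nat.ordProj_le p ha0) (Nat.ordProj_pos a p),
        Nat.div_le_div_right haz⟩, ?_⟩
      intro q hq
      rw [Nat.mem_primeFactors] at hq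
      have hqa : q ∣ a := hq.2.1.trans (Nat.ordCompl_dvd a p)
      have hmem : q ∈ insert p g := hag (Nat.mem_primeFactors.mpr ⟨hq.1, hqa, ha0⟩)
      rcases Finset.mem_insert.mp hmem with h | h
      · exfalso
        subst h
        exact Nat.not_dvd_ordCompl hq.1 ha0 hq.2.1
      · exact h
  · intro a ha b hb hab
    simp only [Sigma.mk.injEq, heq_eq_eq] at hab
    obtain ⟨h1, h2⟩ := hab
    rw [← Nat.ordProj_mul_ordCompl_eq_self a p, ← Nat.ordProj_mul_ordCompl_eq_self b p, h2, h1]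

/-- (G2) -/
theorem Ng_le (P0 : ℕ) (hP0 : 2 ≤ P0) (g : Finset ℕ) (hg : ∀ p ∈ g, p.Prime ∧ P0 ≤ p) :
    ∀ z : ℕ, Ng g z ≤ 2 ^ (g.card + Nat.log P0 z) := by
  classical
  induction g using Finset.induction_on with
  | empty =>
    intro z
    exact (Ng_empty z).trans Nat.one_le_two_pow
  | insert p g hpg ih =>
    intro z
    have hp := hg p (Finset.mem_insert_self p g)
    have ih' := ih fun q hq => hg q (Finset.mem_insert_of_mem hq)
    refine (Ng_insert g p z hp.1).trans ?_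
    have hlog : ∀ j ∈ Finset.range (Nat.log p z + 1), Ng g (z / p ^ j) ≤
        2 ^ (g.card + (Nat.log P0 z - j)) := by
      intro j _
      refine (ih' (z / p ^ j)).trans ?_
      apply Nat.pow_le_pow_right (by norm_num)
      apply Nat.add_le_add_left
      calc Nat.log P0 (z / p ^ j) ≤ Nat.log P0 (z / P0 ^ j) := by
            apply Nat.log_mono_right
            apply Nat.div_le_div_left (Nat.pow_le_pow_left hp.2 j)
            exact pow_pos (by omega) j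
        _ = Nat.log P0 z - j := Nat.log_div_base_pow P0 z j
    refine (Finset.sum_le_sum hlog).trans ?_
    have hle : Nat.log p z ≤ Nat.log P0 z := by
      apply Nat.log_anti_left (by omega) hp.2
    calc ∑ j ∈ Finset.range (Nat.log p z + 1), 2 ^ (g.card + (Nat.log P0 z - j))
        ≤ ∑ j ∈ Finset.range (Nat.log P0 z + 1), 2 ^ (g.card + (Nat.log P0 z - j)) := by
          apply Finset.sum_le_sum_of_subset
          apply Finset.range_mono
          omega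
      _ = 2 ^ g.card * ∑ j ∈ Finset.range (Nat.log P0 z + 1), 2 ^ (Nat.log P0 z - j) := by
          rw [Finset.mul_sum]
          refine Finset.sum_congr rfl fun j _ => ?_
          rw [pow_add]
      _ = 2 ^ g.card * ∑ j ∈ Finset.range (Nat.log P0 z + 1), 2 ^ j := by
          congr 1
          rw [← Finset.sum_range_reflect]
          refine Finset.sum_congr rfl fun j hj => ?_
          rw [Finset.mem_range] at hj
          congr 1
          omega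
      _ ≤ 2 ^ g.card * 2 ^ (Nat.log P0 z + 1) := by
          apply Nat.mul_le_mul_left
          have := Nat.geomSum_eq (m := 2) le_rfl (Nat.log P0 z + 1)
          rw [this]
          simp
      _ = 2 ^ ((insert p g).card + Nat.log P0 z) := by
          rw [Finset.card_insert_of_notMem hpg, ← pow_add]
          congr 1
          omega

end Pool.Agent.M20.Helper48.KS
end

/- Helper53.KN.Helper18.KL.PowA -/
section
/-! Project KS: weighted counts in windows with a given set of primes. -/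

set_option autoImplicit false
set_option linter.all false
open scoped Classical
open Finset

namespace Pool.Agent.M20.Helper18.KL

open Pool.Agent.M20.Helper16.KS Pool.Agent.M20.Helper48.KS

theorem sig_mul_radg (O : Finset ℕ) {n : ℕ} (hn : n ≠ 0) : sig O n * radg O n = n := by
  have h1 : radg O n = ∏ p ∈ n.primeFactors, if p ∈ O then 1 else p := by
    unfold radg
    rw [Finset.prod_ite, Finset.prod_const_one, one_mul]
    refine Finset.prod_congr ?_ fun _ _ => rfl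
    ext p
    simp [Finset.mem_sdiff]
  rw [h1]
  unfold sig
  rw [← Finset.prod_mul_distrib]
  conv_rhs => rw [← Nat.prod_factorization_pow_eq_self hn]
  rw [Nat.prod_factorization_eq_prod_primeFactors]
  refine Finset.prod_congr rfl fun p hp => ?_
  have hv : 1 ≤ n.factorization p :=
    (Nat.prime_of_mem_primeFactors hp).factorization_pos_of_dvd hn (Nat.dvd_of_mem_primeFactors hp)
  split_ifs with h
  · rw [mul_one]
  · rw [← pow_succ]
    congr 1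
    omega

theorem sig_pos (O : Finset ℕ) {n : ℕ} (hn : n ≠ 0) : 1 ≤ sig O n := by
  have h := sig_mul_radg O hn
  rcases Nat.eq_zero_or_pos (sig O n) with h0 | h0
  · rw [h0, zero_mul] at h; omega
  · exact h0

theorem sig_eq (O : Finset ℕ) {n : ℕ} (hn : n ≠ 0) : (sig O n : ℝ) = (n : ℝ) / radg O n := by
  have h := sig_mul_radg O hn
  have h0 : (radg O n : ℝ) ≠ 0 := by exact_mod_cast (radg_pos O n).ne'
  rw [eq_div_iff h0]
  exact_mod_cast h

theorem sig_eq2 (O : Finset ℕ) {n : ℕ} (hn : n ≠ 0) :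
    (sig O n : ℝ) = gpart O n * ((cpart O n : ℝ) / (rad (cpart O n) : ℝ)) := by
  rw [sig_eq O hn, ratio_eq O hn]
  congr 2
  unfold rad
  push_cast
  rfl

theorem hh_le (S : Sys) : S.hh ≤ 1 / 2 - S.del ∧ 0 < S.hh ∧ S.hh - 1 + S.eta ≤ 0 ∧ S.hh - 1 / 2 + S.eta ≤ 0 := by
  have h1 := S.d_pos
  have h2 := S.d_le
  have h3 := S.c_le
  have h4 := S.eta_le
  have h5 := S.del_le
  have hc : 0 < S.c := by (clear * - h1 h2; nlinarith)
  have heta : 0 < S.eta := by (clear * - h1 h2 h3; nlinarith)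
  have hep : S.ep ≤ S.d := by
    unfold Sys.ep
    have : S.c * S.eta ≤ 1 := by (clear * - h2 h3 h4 h5 h1; nlinarith)
    (clear * - h1 this; nlinarith)
  have hep0 : 0 < S.ep := by unfold Sys.ep; positivity
  have htau : S.tau ≤ S.s := by
    unfold Sys.tau Sys.s
    (clear * - h1 hep; linarith)
  have htau0 : 0 < S.tau := by unfold Sys.tau; positivity
  have hs : 0 < S.s := by unfold Sys.s; positivity
  have hs1 : S.s ≤ 1 / 100 := by unfold Sys.s; linarith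
  unfold Sys.hh
  refine ⟨by (clear * - htau; linarith), by (clear * - htau0 hs1 h5; linarith),
    by (clear * - h4 htau; linarith), by (clear * - h4 htau; linarith)⟩

theorem eta_pos (S : Sys) : 0 < S.eta := by
  have h1 := S.d_pos
  have h2 := S.d_le
  have h3 := S.c_le
  (clear * - h1 h2 h3; nlinarith)

theorem one_le_ratio' {k : ℕ} (hk : k ≠ 0) : 1 ≤ (k : ℝ) / (rad k : ℝ) := by
  have h0 : 0 < rad k := Finset.prod_pos fun p hp => (Nat.prime_of_mem_primeFactors hp).pos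
  rw [one_le_div (by exact_mod_cast h0)]
  exact_mod_cast Nat.le_of_dvd (Nat.pos_of_ne_zero hk) (Nat.prod_primeFactors_dvd k)

/-- windows of any length -/
theorem winC (S : Sys) (e : ℝ) (he0 : 0 < e) (he : e ≤ S.eta) : ∃ C : ℝ, 0 < C ∧ ∀ (x y : ℕ) (B : ℝ),
    1 ≤ x → y ≤ x → 1 ≤ B →
    ∑ k ∈ (Ico x (x + y)).filter (fun k : ℕ => B ≤ (k : ℝ) / (rad k : ℝ)), ((k : ℝ) / (rad k : ℝ)) ^ S.hh ≤
      C * (y + (x : ℝ) ^ (1 / 2 - e)) * B ^ (-e) := by
  obtain ⟨C, h⟩ := S.pow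
  refine ⟨2 * (|C| + 1), by (clear * -; positivity), ?_⟩
  intro x y B hx hy hB
  have hx1 : (1 : ℝ) ≤ x := by exact_mod_cast hx
  have hx0 : (0 : ℝ) < x := by (clear * - hx1; linarith)
  set y' : ℕ := max y ⌈(x : ℝ) ^ (1 / 2 - e)⌉₊ with hy'
  have heta := eta_pos S
  have hdel : S.del ≤ 3 / 50 := S.del_le
  have heta2 : S.eta ≤ 3 / 50 := S.eta_le.trans hdel
  have hxe : (1 : ℝ) ≤ (x : ℝ) ^ (1 / 2 - e) := Real.one_le_rpow hx1 (by (clear * - he0 he heta2; linarith))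
  have hxe2 : (x : ℝ) ^ (1 / 2 - e) ≤ x := by
    calc (x : ℝ) ^ (1 / 2 - e) ≤ (x : ℝ) ^ (1 : ℝ) := Real.rpow_le_rpow_of_exponent_le hx1 (by (clear * - he0 he heta2; linarith))
      _ = x := Real.rpow_one _
  have h1 : (x : ℝ) ^ (1 / 2 - S.eta) ≤ y' := by
    calc (x : ℝ) ^ (1 / 2 - S.eta) ≤ (x : ℝ) ^ (1 / 2 - e) := Real.rpow_le_rpow_of_exponent_le hx1 (by (clear * - he; linarith))
      _ ≤ (⌈(x : ℝ) ^ (1 / 2 - e)⌉₊ : ℝ) := Nat.le_ceil _
      _ ≤ y' := by exact_mod_cast le_max_right _ _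
  have h2 : y' ≤ x := by
    refine max_le hy ?_
    exact Nat.ceil_le.2 hxe2
  have h3 := h x y' B hx h1 h2 hB
  have hyy : y ≤ y' := le_max_left _ _
  have h4 : ∑ k ∈ (Ico x (x + y)).filter (fun k : ℕ => B ≤ (k : ℝ) / (rad k : ℝ)), ((k : ℝ) / (rad k : ℝ)) ^ S.hh ≤
      ∑ k ∈ (Ico x (x + y')).filter (fun k : ℕ => B ≤ (k : ℝ) / (rad k : ℝ)), ((k : ℝ) / (rad k : ℝ)) ^ (1 / 2 - S.del) := by
    refine (Finset.sum_le_sum_of_subset_of_nonneg ?_ fun k _ _ => by (clear * -; positivity)).trans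
      (Finset.sum_le_sum fun k hk => ?_)
    · intro k hk
      rw [Finset.mem_filter, Finset.mem_Ico] at hk ⊢
      exact ⟨⟨hk.1.1, by omega⟩, hk.2⟩
    · rw [Finset.mem_filter, Finset.mem_Ico] at hk
      exact Real.rpow_le_rpow_of_exponent_le (one_le_ratio' (by omega)) (hh_le S).1
  refine h4.trans (h3.trans ?_)
  have h5 : (y' : ℝ) ≤ 2 * (y + (x : ℝ) ^ (1 / 2 - e)) := by
    have h6 : (y' : ℝ) ≤ y + ⌈(x : ℝ) ^ (1 / 2 - e)⌉₊ := by
      have : y' ≤ y + ⌈(x : ℝ) ^ (1 / 2 - e)⌉₊ := by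
        rw [hy']; omega
      exact_mod_cast this
    have h7 : (⌈(x : ℝ) ^ (1 / 2 - e)⌉₊ : ℝ) ≤ (x : ℝ) ^ (1 / 2 - e) + 1 := (Nat.ceil_lt_add_one (by positivity)).le
    have i0 : (0 : ℝ) ≤ y := Nat.cast_nonneg y
    generalize (x : ℝ) ^ (1 / 2 - e) = X at hxe h6 h7 ⊢
    (clear * - hxe h6 h7 i0; linarith)
  have h8 : B ^ (-S.eta) ≤ B ^ (-e) := Real.rpow_le_rpow_of_exponent_le hB (by (clear * - he; linarith))
  have hBe : 0 < B ^ (-S.eta) := by positivity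
  have hy0 : (0 : ℝ) ≤ y' := Nat.cast_nonneg _
  calc C * y' * B ^ (-S.eta) ≤ (|C| + 1) * y' * B ^ (-S.eta) := by
        refine mul_le_mul_of_nonneg_right (mul_le_mul_of_nonneg_right ?_ hy0) hBe.le
        (clear * - he0 he heta2; linarith [le_abs_self C])
    _ ≤ (|C| + 1) * (2 * (y + (x : ℝ) ^ (1 / 2 - e))) * B ^ (-e) := by
        refine mul_le_mul (mul_le_mul_of_nonneg_left h5 (by (clear * -; positivity))) h8 hBe.le (by (clear * - hx; positivity))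
    _ = 2 * (|C| + 1) * (y + (x : ℝ) ^ (1 / 2 - e)) * B ^ (-e) := by ring

/-- multiples of `b` in a window -/
theorem ceil_div_facts (x y b : ℕ) (hb : 1 ≤ b) (hx : 1 ≤ x) (hy : y ≤ x) :
    1 ≤ (x + b - 1) / b ∧ (x + y + b - 1) / b - (x + b - 1) / b ≤ (x + b - 1) / b ∧
    (((x + y + b - 1) / b - (x + b - 1) / b : ℕ) : ℝ) ≤ (y : ℝ) / b + 1 ∧
    (((x + b - 1) / b : ℕ) : ℝ) ≤ (x : ℝ) / b + 1 ∧
    ∀ k : ℕ, (x ≤ b * k ∧ b * k < x + y) ↔ k ∈ Ico ((x + b - 1) / b) ((x + b - 1) / b +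
      ((x + y + b - 1) / b - (x + b - 1) / b)) := by
  have hb0 : (0 : ℝ) < b := by exact_mod_cast hb
  set u := (x + b - 1) / b with hu
  set v := (x + y + b - 1) / b with hv
  have hu1 : b * u ≤ x + b - 1 := Nat.mul_div_le _ _
  have hu2 : x + b - 1 < b * u + b := by
    have := Nat.lt_mul_div_succ (x + b - 1) (show 0 < b by omega)
    rwa [← hu, Nat.mul_succ] at this
  have hv1 : b * v ≤ x + y + b - 1 := Nat.mul_div_le _ _
  have hv2 : x + y + b - 1 < b * v + b := by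
    have := Nat.lt_mul_div_succ (x + y + b - 1) (show 0 < b by omega)
    rwa [← hv, Nat.mul_succ] at this
  have huv : u ≤ v := Nat.div_le_div_right (by omega)
  have h1 : 1 ≤ u := by
    rw [hu]
    exact (Nat.one_le_div_iff (by omega)).2 (by (clear * - hb hx hy hu1 hu2; omega))
  refine ⟨h1, ?_, ?_, ?_, ?_⟩
  · -- v ≤ 2 u
    have h2 : x ≤ b * u := by omega
    have h3 : b * v < b * (2 * u + 1) := by
      have e1 : b * (2 * u + 1) = 2 * (b * u) + b := by ring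
      rw [e1]
      omega
    have h4 : v < 2 * u + 1 := lt_of_mul_lt_mul_left h3 (Nat.zero_le b)
    omega
  · rw [Nat.cast_sub huv]
    have e1 : (b : ℝ) * v ≤ x + y + b - 1 := by
      have : ((b * v : ℕ) : ℝ) ≤ ((x + y + b - 1 : ℕ) : ℝ) := by exact_mod_cast hv1
      rw [Nat.cast_sub (by omega)] at this
      push_cast at this
      exact this
    have e2 : (x : ℝ) ≤ b * u := by
      have : x ≤ b * u := by omega
      exact_mod_cast this
    have e3 : (v : ℝ) ≤ (x + y + b - 1) / b := by rw [le_div_iff₀ hb0]; (clear * - e1; linarith)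
    have e4 : (x : ℝ) / b ≤ u := by rw [div_le_iff₀ hb0]; (clear * - e2; linarith)
    have e5 : ((x : ℝ) + y + b - 1) / b = x / b + y / b + 1 - 1 / b := by field_simp
    have e6 : (0 : ℝ) < 1 / b := by (clear * - hb; positivity)
    (clear * - e3 e4 e5 e6; linarith)
  · have e1 : (b : ℝ) * u ≤ x + b - 1 := by
      have : ((b * u : ℕ) : ℝ) ≤ ((x + b - 1 : ℕ) : ℝ) := by exact_mod_cast hu1
      rw [Nat.cast_sub (by omega)] at this
      push_cast at this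
      exact this
    have e3 : (u : ℝ) ≤ (x + b - 1) / b := by rw [le_div_iff₀ hb0]; (clear * - e1; linarith)
    have e5 : ((x : ℝ) + b - 1) / b = x / b + 1 - 1 / b := by (clear * - hb; field_simp)
    have e6 : (0 : ℝ) < 1 / b := by positivity
    (clear * - e3 e5 e6; linarith)
  · intro k
    rw [Finset.mem_Ico]
    have e7 : u + (v - u) = v := by omega
    rw [e7]
    constructor
    · rintro ⟨h2, h3⟩
      constructor
      · -- u ≤ k
        by_contra hlt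
        push Not at hlt
        have h4 : b * (k + 1) ≤ b * u := Nat.mul_le_mul_left b hlt
        rw [Nat.mul_add, mul_one] at h4
        omega
      · by_contra hge
        push Not at hge
        have h4 : b * v ≤ b * k := Nat.mul_le_mul_left b hge
        omega
    · rintro ⟨h2, h3⟩
      constructor
      · have h4 : b * u ≤ b * k := Nat.mul_le_mul_left b h2
        omega
      · have h4 : b * (k + 1) ≤ b * v := Nat.mul_le_mul_left b h3
        rw [Nat.mul_add, mul_one] at h4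
        omega

theorem dvd_gpart {O : Finset ℕ} {a n : ℕ} (hn : n ≠ 0) (ha : a.primeFactors ⊆ O) (han : a ∣ n) :
    a ∣ gpart O n := by
  have h0 : a ≠ 0 := by rintro rfl; exact hn (Nat.eq_zero_of_zero_dvd han)
  have h1 : a ∣ gpart O n * cpart O n := by rw [gpart_mul_cpart O hn]; exact han
  refine Nat.Coprime.dvd_of_dvd_mul_right ?_ h1
  rw [Nat.coprime_iff_gcd_eq_one, ← Nat.coprime_iff_gcd_eq_one]
  refine Nat.Coprime.symm ?_
  rw [Nat.Coprime.eq_1]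
  by_contra hne
  obtain ⟨p, hp, hpd⟩ := Nat.exists_prime_and_dvd hne
  have hp1 : p ∣ cpart O n := hpd.trans (Nat.gcd_dvd_left _ _)
  have hp2 : p ∣ a := hpd.trans (Nat.gcd_dvd_right _ _)
  have hm1 : p ∈ (cpart O n).primeFactors := Nat.mem_primeFactors.2 ⟨hp, hp1, (cpart_pos O n).ne'⟩
  rw [primeFactors_cpart, Finset.mem_sdiff] at hm1
  exact hm1.2 (ha (Nat.mem_primeFactors.2 ⟨hp, hp2, h0⟩))

/-- general form -/
theorem powG (S : Sys) (e : ℝ) (he0 : 0 < e) (he : e ≤ S.eta) : ∃ C : ℝ, 0 < C ∧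
    ∀ (x y : ℕ) (O : Finset ℕ) (a : ℕ) (B : ℝ), 1 ≤ x → y ≤ x → 1 ≤ a → a.primeFactors ⊆ O → 1 ≤ B →
    ∑ n ∈ (Ico x (x + y)).filter (fun n => a ∣ n ∧ B ≤ (sig O n : ℝ)), (sig O n : ℝ) ^ S.hh ≤
      ∑ b ∈ (Icc 1 (2 * x)).filter (fun b => b.primeFactors ⊆ O ∧ a ∣ b),
        C * ((y * (b : ℝ) ^ (S.hh - 1) + (x : ℝ) ^ (1 / 2 - e) * (b : ℝ) ^ (S.hh - 1 / 2 + e)) *
          (max 1 (B / b)) ^ (-e)) := by
  obtain ⟨C, hC, h⟩ := winC S e he0 he
  refine ⟨8 * C, by positivity, ?_⟩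
  intro x y O a B hx hy ha haO hB
  have hxr : (1 : ℝ) ≤ x := by exact_mod_cast hx
  have hx0 : (0 : ℝ) < x := by (clear * - hxr; linarith)
  have hhh := hh_le S
  have heta2 : S.eta ≤ 3 / 50 := S.eta_le.trans S.del_le
  rw [← Finset.sum_fiberwise_of_maps_to (s := (Ico x (x + y)).filter (fun n => a ∣ n ∧ B ≤ (sig O n : ℝ)))
    (t := (Icc 1 (2 * x)).filter (fun b => b.primeFactors ⊆ O ∧ a ∣ b)) (g := fun n => gpart O n)]
  · refine Finset.sum_le_sum fun b hb => ?_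
    rw [Finset.mem_filter, Finset.mem_Icc] at hb
    have hb1 : 1 ≤ b := hb.1.1
    have hbr : (1 : ℝ) ≤ b := by exact_mod_cast hb1
    have hb0 : (0 : ℝ) < b := by (clear * - he0 he heta2 hbr; linarith)
    have hb2x : (b : ℝ) ≤ 2 * x := by exact_mod_cast hb.1.2
    obtain ⟨f1, f2, f3, f4, f5⟩ := ceil_div_facts x y b hb1 hx hy
    set x' := (x + b - 1) / b with hx'
    set y' := (x + y + b - 1) / b - (x + b - 1) / b with hy'
    set B' : ℝ := max 1 (B / b) with hB'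
    have hB'1 : 1 ≤ B' := le_max_left _ _
    have hw := h x' y' B' f1 f2 hB'1
    -- the fibre
    have hfib : ∑ n ∈ ((Ico x (x + y)).filter (fun n => a ∣ n ∧ B ≤ (sig O n : ℝ))).filter
        (fun n => gpart O n = b), (sig O n : ℝ) ^ S.hh ≤
        (b : ℝ) ^ S.hh * ∑ k ∈ (Ico x' (x' + y')).filter (fun k : ℕ => B' ≤ (k : ℝ) / (rad k : ℝ)),
          ((k : ℝ) / (rad k : ℝ)) ^ S.hh := by
      rw [Finset.mul_sum]
      set F := ((Ico x (x + y)).filter (fun n => a ∣ n ∧ B ≤ (sig O n : ℝ))).filter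
        (fun n => gpart O n = b) with hF
      have hFm : ∀ n ∈ F, n ≠ 0 ∧ b * cpart O n = n ∧ x ≤ n ∧ n < x + y ∧ B ≤ (sig O n : ℝ) ∧ gpart O n = b := by
        intro n hn
        rw [hF, Finset.mem_filter, Finset.mem_filter, Finset.mem_Ico] at hn
        have hn0 : n ≠ 0 := by omega
        refine ⟨hn0, ?_, hn.1.1.1, hn.1.1.2, hn.1.2.2, hn.2⟩
        rw [← hn.2]; exact gpart_mul_cpart O hn0
      have h1 : ∑ n ∈ F, (sig O n : ℝ) ^ S.hh = ∑ n ∈ F, (b : ℝ) ^ S.hh * ((cpart O n : ℝ) / (rad (cpart O n) : ℝ)) ^ S.hh := by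
        refine Finset.sum_congr rfl fun n hn => ?_
        have := hFm n hn
        rw [sig_eq2 O this.1, this.2.2.2.2.2, Real.mul_rpow hb0.le (by (clear * -; positivity))]
      have hinj : Set.InjOn (fun n => cpart O n) (F : Set ℕ) := by
        intro n hn n' hn' hnn
        have e1 := hFm n hn
        have e2 := hFm n' hn'
        simp only at hnn
        rw [← e1.2.1, ← e2.2.1, hnn]
      have h2 : ∑ n ∈ F, (b : ℝ) ^ S.hh * ((cpart O n : ℝ) / (rad (cpart O n) : ℝ)) ^ S.hh =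
          ∑ k ∈ F.image (fun n => cpart O n), (b : ℝ) ^ S.hh * ((k : ℝ) / (rad k : ℝ)) ^ S.hh := by
        rw [Finset.sum_image hinj]
      rw [h1, h2]
      refine Finset.sum_le_sum_of_subset_of_nonneg ?_ fun k _ _ => by (clear * - hb1; positivity)
      intro k hk
      rw [Finset.mem_image] at hk
      obtain ⟨n, hn, rfl⟩ := hk
      have e1 := hFm n hn
      rw [Finset.mem_filter]
      constructor
      · rw [← f5, e1.2.1]
        exact ⟨e1.2.2.1, e1.2.2.2.1⟩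
      · have h3 := e1.2.2.2.2.1
        rw [sig_eq2 O e1.1, e1.2.2.2.2.2] at h3
        refine max_le (one_le_ratio' (cpart_pos O n).ne') ?_
        rw [div_le_iff₀ hb0]
        (clear * - h3; linarith)
    refine hfib.trans ((mul_le_mul_of_nonneg_left hw (by (clear * - hb1; positivity))).trans ?_)
    have hBe : 0 < B' ^ (-e) := by positivity
    -- sizes
    have hxb : (1 : ℝ) / 2 ≤ (x : ℝ) / b := by rw [le_div_iff₀ hb0]; (clear * - hb2x; linarith)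
    have hxb0 : (0 : ℝ) < (x : ℝ) / b := by positivity
    have h3 : (x' : ℝ) ≤ 3 * ((x : ℝ) / b) := by (clear * - f4 hxb; linarith)
    have h4 : (x' : ℝ) ^ (1 / 2 - e) ≤ 3 * ((x : ℝ) / b) ^ (1 / 2 - e) := by
      calc (x' : ℝ) ^ (1 / 2 - e) ≤ (3 * ((x : ℝ) / b)) ^ (1 / 2 - e) :=
            Real.rpow_le_rpow (Nat.cast_nonneg _) h3 (by (clear * - he0 he heta2; linarith))
        _ = 3 ^ (1 / 2 - e) * ((x : ℝ) / b) ^ (1 / 2 - e) := Real.mul_rpow (by norm_num) hxb0.le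
        _ ≤ 3 * ((x : ℝ) / b) ^ (1 / 2 - e) := by
          refine mul_le_mul_of_nonneg_right ?_ (by positivity)
          calc (3 : ℝ) ^ (1 / 2 - e) ≤ 3 ^ (1 : ℝ) := Real.rpow_le_rpow_of_exponent_le (by norm_num) (by (clear * - he0 he heta2; linarith))
            _ = 3 := Real.rpow_one _
    have h5 : (1 : ℝ) ≤ 2 * ((x : ℝ) / b) ^ (1 / 2 - e) := by
      have h6 : (1 / 2 : ℝ) ^ (1 / 2 - e) ≤ ((x : ℝ) / b) ^ (1 / 2 - e) :=
        Real.rpow_le_rpow (by norm_num) hxb (by (clear * - he0 he heta2; linarith))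
      have h7 : (1 / 2 : ℝ) ≤ (1 / 2 : ℝ) ^ (1 / 2 - e) := by
        calc (1 / 2 : ℝ) = (1 / 2 : ℝ) ^ (1 : ℝ) := (Real.rpow_one _).symm
          _ ≤ (1 / 2 : ℝ) ^ (1 / 2 - e) :=
            Real.rpow_le_rpow_of_exponent_ge (by norm_num) (by norm_num) (by (clear * - he0 he heta2; linarith))
      (clear * - h6 h7; linarith)
    have h8 : (y' : ℝ) + (x' : ℝ) ^ (1 / 2 - e) ≤ 8 * ((y : ℝ) / b + ((x : ℝ) / b) ^ (1 / 2 - e)) := by
      have i1 : 0 ≤ (y : ℝ) / b := by (clear * - hb1; positivity)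
      have i2 : 0 ≤ ((x : ℝ) / b) ^ (1 / 2 - e) := Real.rpow_nonneg hxb0.le _
      generalize ((x : ℝ) / b) ^ (1 / 2 - e) = X at h4 h5 i2 ⊢
      generalize (x' : ℝ) ^ (1 / 2 - e) = X' at h4 ⊢
      generalize (y : ℝ) / b = Y at f3 i1 ⊢
      (clear * - h4 h5 f3 i1 i2; linarith)
    have h9 : (b : ℝ) ^ S.hh * ((y : ℝ) / b + ((x : ℝ) / b) ^ (1 / 2 - e)) =
        y * (b : ℝ) ^ (S.hh - 1) + (x : ℝ) ^ (1 / 2 - e) * (b : ℝ) ^ (S.hh - 1 / 2 + e) := by
      rw [Real.div_rpow hx0.le hb0.le, Real.rpow_sub hb0 S.hh 1, Real.rpow_one]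
      have e1 : (b : ℝ) ^ (S.hh - 1 / 2 + e) = (b : ℝ) ^ S.hh / (b : ℝ) ^ (1 / 2 - e) := by
        rw [← Real.rpow_sub hb0]; congr 1; ring
      rw [e1]
      ring
    calc (b : ℝ) ^ S.hh * (C * ((y' : ℝ) + (x' : ℝ) ^ (1 / 2 - e)) * B' ^ (-e))
        ≤ (b : ℝ) ^ S.hh * (C * (8 * ((y : ℝ) / b + ((x : ℝ) / b) ^ (1 / 2 - e))) * B' ^ (-e)) := by
          refine mul_le_mul_of_nonneg_left ?_ (by positivity)
          exact mul_le_mul_of_nonneg_right (mul_le_mul_of_nonneg_left h8 hC.le) hBe.le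
      _ = 8 * C * (((b : ℝ) ^ S.hh * ((y : ℝ) / b + ((x : ℝ) / b) ^ (1 / 2 - e))) * B' ^ (-e)) := by ring
      _ = 8 * C * ((y * (b : ℝ) ^ (S.hh - 1) + (x : ℝ) ^ (1 / 2 - e) * (b : ℝ) ^ (S.hh - 1 / 2 + e)) *
          B' ^ (-e)) := by rw [h9]
  · intro n hn
    rw [Finset.mem_filter, Finset.mem_Ico] at hn
    have hn0 : n ≠ 0 := by (clear * - hy hn; omega)
    rw [Finset.mem_filter, Finset.mem_Icc]
    have h1 := gpart_pos O n
    have h2 : gpart O n ≤ n := by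
      conv_rhs => rw [← gpart_mul_cpart O hn0]
      exact Nat.le_mul_of_pos_right _ (cpart_pos O n)
    refine ⟨⟨h1, by omega⟩, ?_, dvd_gpart hn0 haO hn.2.1⟩
    rw [primeFactors_gpart]
    exact Finset.inter_subset_right

theorem card_le_Ng (O : Finset ℕ) (a x : ℕ) :
    ((Icc 1 (2 * x)).filter (fun b => b.primeFactors ⊆ O ∧ a ∣ b)).card ≤ Ng O (2 * x) := by
  unfold Ng
  refine Finset.card_le_card ?_
  intro b hb
  rw [Finset.mem_filter] at hb ⊢
  exact ⟨hb.1, hb.2.1⟩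

theorem powA : PowA := by
  intro S e he0 he
  obtain ⟨C, hC, h⟩ := powG S e he0 he
  refine ⟨C, hC, ?_⟩
  intro x y P0 O a hx hy hP0 hO ha haO
  have hhh := hh_le S
  have hx0 : (0 : ℝ) < x := by exact_mod_cast hx
  have ha0 : (0 : ℝ) < a := by exact_mod_cast ha
  have h1 := h x y O a 1 hx hy ha haO le_rfl
  have h2 : (Ico x (x + y)).filter (fun n => a ∣ n) = (Ico x (x + y)).filter (fun n => a ∣ n ∧ (1 : ℝ) ≤ (sig O n : ℝ)) := by
    refine Finset.filter_congr fun n hn => ?_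
    rw [Finset.mem_Ico] at hn
    have : (1 : ℝ) ≤ (sig O n : ℝ) := by exact_mod_cast sig_pos O (by omega : n ≠ 0)
    simp [this]
  rw [h2]
  refine h1.trans ?_
  set E : ℝ := y * (a : ℝ) ^ (S.hh - 1) + (x : ℝ) ^ (1 / 2 - e) * (a : ℝ) ^ (S.hh - 1 / 2 + e) with hE
  have hE0 : 0 ≤ E := by (clear * - ha hx; positivity)
  have h3 : ∀ b ∈ (Icc 1 (2 * x)).filter (fun b => b.primeFactors ⊆ O ∧ a ∣ b),
      C * ((y * (b : ℝ) ^ (S.hh - 1) + (x : ℝ) ^ (1 / 2 - e) * (b : ℝ) ^ (S.hh - 1 / 2 + e)) *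
          (max 1 (1 / (b : ℝ))) ^ (-e)) ≤ C * E := by
    intro b hb
    rw [Finset.mem_filter, Finset.mem_Icc] at hb
    have hb1 : (1 : ℝ) ≤ b := by exact_mod_cast hb.1.1
    have hab : (a : ℝ) ≤ b := by exact_mod_cast Nat.le_of_dvd (by omega) hb.2.2
    have h4 : max 1 (1 / (b : ℝ)) = 1 := by
      rw [max_eq_left]
      rw [div_le_one (by (clear * - he0 he hhh hb1; linarith))]; exact hb1
    rw [h4, Real.one_rpow, mul_one]
    refine mul_le_mul_of_nonneg_left ?_ hC.le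
    rw [hE]
    refine add_le_add ?_ ?_
    · refine mul_le_mul_of_nonneg_left ?_ (Nat.cast_nonneg _)
      exact Real.rpow_le_rpow_of_nonpos ha0 hab (by (clear * - he0 he hhh; linarith [hhh.2.2.1, eta_pos S]))
    · refine mul_le_mul_of_nonneg_left ?_ (by positivity)
      exact Real.rpow_le_rpow_of_nonpos ha0 hab ((add_le_add_right he _).trans hhh.2.2.2)
  refine (Finset.sum_le_sum h3).trans ?_
  rw [Finset.sum_const, nsmul_eq_mul]
  have h5 : ((((Icc 1 (2 * x)).filter (fun b => b.primeFactors ⊆ O ∧ a ∣ b)).card : ℕ) : ℝ) ≤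
      2 ^ (O.card + Nat.log P0 (2 * x)) := by
    have := (card_le_Ng O a x).trans (Ng_le P0 hP0 O hO (2 * x))
    exact_mod_cast this
  calc ((((Icc 1 (2 * x)).filter (fun b => b.primeFactors ⊆ O ∧ a ∣ b)).card : ℕ) : ℝ) * (C * E)
      ≤ 2 ^ (O.card + Nat.log P0 (2 * x)) * (C * E) := mul_le_mul_of_nonneg_right h5 (by (clear * - hC ha hx; positivity))
    _ = C * 2 ^ (O.card + Nat.log P0 (2 * x)) * E := by ring

theorem powB : PowB := by
  intro S e he0 he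
  obtain ⟨C, hC, h⟩ := powG S e he0 he
  refine ⟨C, hC, ?_⟩
  intro x y P0 O B hx hy hP0 hO hB
  have hhh := hh_le S
  have hx0 : (0 : ℝ) < x := by exact_mod_cast hx
  have hB0 : 0 < B := by (clear * - he0 he hB hhh; linarith)
  have h1 := h x y O 1 B hx hy le_rfl (by simp) hB
  have h2 : (Ico x (x + y)).filter (fun n => B ≤ (sig O n : ℝ)) =
      (Ico x (x + y)).filter (fun n => 1 ∣ n ∧ B ≤ (sig O n : ℝ)) := by
    refine Finset.filter_congr fun n _ => ?_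
    simp
  rw [h2]
  refine h1.trans ?_
  set E : ℝ := y * B ^ (-e) + (x : ℝ) ^ (1 / 2 - e) with hE
  have hE0 : 0 ≤ E := by (clear * - hB hx; positivity)
  have h3 : ∀ b ∈ (Icc 1 (2 * x)).filter (fun b => b.primeFactors ⊆ O ∧ 1 ∣ b),
      C * ((y * (b : ℝ) ^ (S.hh - 1) + (x : ℝ) ^ (1 / 2 - e) * (b : ℝ) ^ (S.hh - 1 / 2 + e)) *
          (max 1 (B / (b : ℝ))) ^ (-e)) ≤ C * E := by
    intro b hb
    rw [Finset.mem_filter, Finset.mem_Icc] at hb
    have hb1 : (1 : ℝ) ≤ b := by exact_mod_cast hb.1.1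
    have hb0 : (0 : ℝ) < b := by (clear * - he0 he hhh hb1; linarith)
    refine mul_le_mul_of_nonneg_left ?_ hC.le
    have hM1 : (1 : ℝ) ≤ max 1 (B / (b : ℝ)) := le_max_left _ _
    have hMe : (max 1 (B / (b : ℝ))) ^ (-e) ≤ 1 := Real.rpow_le_one_of_one_le_of_nonpos hM1 (by (clear * - he0; linarith))
    rw [hE, add_mul]
    refine add_le_add ?_ ?_
    · rw [mul_assoc]
      refine mul_le_mul_of_nonneg_left ?_ (Nat.cast_nonneg _)
      rcases le_or_gt B b with hBb | hBb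
      · calc (b : ℝ) ^ (S.hh - 1) * (max 1 (B / (b : ℝ))) ^ (-e) ≤ (b : ℝ) ^ (S.hh - 1) * 1 :=
              mul_le_mul_of_nonneg_left hMe (by (clear * - hb1; positivity))
          _ = (b : ℝ) ^ (S.hh - 1) := mul_one _
          _ ≤ B ^ (S.hh - 1) := Real.rpow_le_rpow_of_nonpos hB0 hBb (by (clear * - he0 he hhh; linarith [hhh.2.2.1, eta_pos S]))
          _ ≤ B ^ (-e) := Real.rpow_le_rpow_of_exponent_le hB (by (clear * - he0 he hhh; linarith [hhh.2.2.1]))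
      · have h4 : (max 1 (B / (b : ℝ))) ^ (-e) ≤ (B / b) ^ (-e) :=
          Real.rpow_le_rpow_of_nonpos (by (clear * - hB hb1; positivity)) (le_max_right _ _) (by (clear * - he0; linarith))
        calc (b : ℝ) ^ (S.hh - 1) * (max 1 (B / (b : ℝ))) ^ (-e) ≤ (b : ℝ) ^ (S.hh - 1) * (B / b) ^ (-e) :=
              mul_le_mul_of_nonneg_left h4 (by (clear * - hb1; positivity))
          _ = B ^ (-e) * (b : ℝ) ^ (S.hh - 1 + e) := by
            rw [Real.div_rpow hB0.le hb0.le, Real.rpow_add hb0, Real.rpow_neg hb0.le]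
            (clear * - hb1 hB; field_simp)
          _ ≤ B ^ (-e) * 1 := by
            refine mul_le_mul_of_nonneg_left ?_ (by positivity)
            exact Real.rpow_le_one_of_one_le_of_nonpos hb1 (by (clear * - he0 he hhh; linarith [hhh.2.2.1]))
          _ = B ^ (-e) := mul_one _
    · rw [mul_assoc]
      calc (x : ℝ) ^ (1 / 2 - e) * ((b : ℝ) ^ (S.hh - 1 / 2 + e) * (max 1 (B / (b : ℝ))) ^ (-e))
          ≤ (x : ℝ) ^ (1 / 2 - e) * (1 * 1) := by
            refine mul_le_mul_of_nonneg_left ?_ (by positivity)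
            refine mul_le_mul ?_ hMe (by positivity) (by norm_num)
            exact Real.rpow_le_one_of_one_le_of_nonpos hb1 (by (clear * - he hhh; linarith [hhh.2.2.2]))
        _ = (x : ℝ) ^ (1 / 2 - e) := by ring
  refine (Finset.sum_le_sum h3).trans ?_
  rw [Finset.sum_const, nsmul_eq_mul]
  have h5 : ((((Icc 1 (2 * x)).filter (fun b => b.primeFactors ⊆ O ∧ 1 ∣ b)).card : ℕ) : ℝ) ≤
      2 ^ (O.card + Nat.log P0 (2 * x)) := by
    have := (card_le_Ng O 1 x).trans (Ng_le P0 hP0 O hO (2 * x))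
    exact_mod_cast this
  calc ((((Icc 1 (2 * x)).filter (fun b => b.primeFactors ⊆ O ∧ 1 ∣ b)).card : ℕ) : ℝ) * (C * E)
      ≤ 2 ^ (O.card + Nat.log P0 (2 * x)) * (C * E) := mul_le_mul_of_nonneg_right h5 (by (clear * - hC hB hx; positivity))
    _ = C * 2 ^ (O.card + Nat.log P0 (2 * x)) * E := by ring

end Pool.Agent.M20.Helper18.KL
end

/- Helper53.KN.Helper16.KS.St -/
section
/-!
# Project KS (MP_768c9c_nt, S17468), construction D5: statements of the modules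

Everything is stated for an arbitrary system `S : Sys`.  Sufficiently large constants may depend
on `S`.
-/

set_option autoImplicit false
open scoped Classical
open Filter Topology

namespace Pool.Agent.M20.Helper16.KS

namespace Sys

variable (S : Sys)

/-! ## The events -/

/-- number of owners (active candidates) of the control prime `q` -/
noncomputable def own (k0 : ℕ) (R : Set ℕ) (q : ℕ) : ℕ :=
  ∑ k ∈ Finset.Ico k0 (top q), ∑ j ∈ S.badc k, ((S.act R k j).filter (fun x => x.1 = q)).card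

/-- what we need to know about the set `R` -/
structure Good (k0 : ℕ) (R : Set ℕ) : Prop where
  prime : ∀ r ∈ R, r.Prime ∧ (2 : ℝ) ^ ((k0 : ℝ) / 5) ≤ r
  lower : ∀ k, k0 ≤ k → ∀ j ∈ S.badc k, ((S.Cand k j).card : ℝ) / 2 ≤ S.NN R k j
  win1 : ∀ k, k0 ≤ k → ∀ j ∈ S.badc k, ∀ x h : ℕ, (2 : ℝ) ^ (0.498 * (k : ℝ)) ≤ h →
    h ≤ 2 ^ ec S.d k →
    ∑ y ∈ (S.act R k j).filter (fun y => x ≤ y.1 * y.2 ∧ y.1 * y.2 < x + h), 1 / S.pr y.2 ≤
      2 * (S.C1 * (h / 2 ^ ec S.d k) * (S.Cand k j).card)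
  win2 : ∀ k, k0 ≤ k → ∀ j ∈ S.badc k, ∀ x h : ℕ, (2 : ℝ) ^ (0.38 * (k : ℝ)) ≤ h →
    h ≤ 2 ^ ec S.d k →
    ∑ y ∈ (S.act R k j).filter (fun y => x ≤ y.1 * y.2 ∧ y.1 * y.2 < x + h), 1 / S.pr y.2 ≤
      2 * (S.C1 * k * (h / 2 ^ ec S.d k) * (S.Cand k j).card)
  mult : ∀ q : ℕ, (S.own k0 R q : ℝ) ≤ (q : ℝ) ^ S.tau
  massR : ∀ T : Finset ℕ, (∀ r ∈ T, r ∈ R) →
    ∑ r ∈ T, S.base r * (r : ℝ) ^ (-S.s) * (1 + Real.log r) ^ 2 ≤
      (2 : ℝ) ^ (-(S.tau / 10) * (k0 : ℝ))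
  massC : ∀ k, k0 ≤ k → ∑ j ∈ S.badc k, ∑ x ∈ S.act R k j, S.wd k x.2 * (x.1 : ℝ) ^ (-S.s) ≤
    (2 : ℝ) ^ (-(S.c / 4) * (k : ℝ))
  crude : ∀ k x h : ℕ, (k0 : ℝ) / 2 ≤ k → 2 ^ k ≤ x → x < 2 ^ (k + 1) →
    (2 : ℝ) ^ ((1/2 - 3 * S.d) * k) ≤ h → h ≤ x →
    ∑ n ∈ Finset.Ico x (x + h), CM (S.Fh k0 R) n ≤ h * (2 : ℝ) ^ ((S.s - 1 + 7 * S.tau) * k)
  rpart : ∀ k x h : ℕ, (k0 : ℝ) / 2 ≤ k → 2 ^ k ≤ x → x < 2 ^ (k + 1) →
    (2 : ℝ) ^ ((1/2 - 3 * S.d) * k) ≤ h → h ≤ x →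
    ∑ n ∈ (Finset.Ico x (x + h)).filter (rough k0),
      ∑ e ∈ n.divisors.filter (fun e : ℕ => (2 : ℝ) ^ ((k : ℝ) / 8) ≤ (e : ℝ) ∧ inR R e),
        S.base e * ((n / e : ℕ) : ℝ) ^ (S.s - 1) ≤
      h * (2 : ℝ) ^ ((S.s - 1 - S.tau / 20) * k)
  heavy1 : ∀ k, k0 ≤ k → ∀ j < nc S.d k, S.HP k0 R k j Q1 ≤ (2 : ℝ) ^ (-(S.ep / 100) * k) * S.G k
  heavy2 : ∀ k, k0 ≤ k → ∀ j < nc S.d k,
    S.HP k0 R k j S.Q2 ≤ (2 : ℝ) ^ (-(S.ep / 100) * k) * S.G k

end Sys

/-! ## The main chain -/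

/-- (SYS) a control system exists [number theory: Theorem C (Helper60 / KS), CountE2, F2, RoughAvail3,
power lemma] -/
def ExistsSys : Prop := Nonempty Sys

/-- (E) a good set `R` exists [probability: helper62, from the first moment inequalities below] -/
def ExistsGood : Prop := ∀ S : Sys, ∃ K0 : ℕ, ∀ k0 : ℕ, K0 ≤ k0 → ∃ R : Set ℕ, S.Good k0 R

/-- (STAR) the main inequality -/
def GoodStar : Prop := ∀ S : Sys, ∃ K0 : ℕ, ∀ k0 : ℕ, K0 ≤ k0 → ∀ R : Set ℕ, S.Good k0 R →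
  S.Star k0 R

/-- (FP) fixed point: all cell sums vanish.  (`3 ≤ k0`, `S.K ≤ k0`; the normalisers `NN` of the bad
cells are positive.)  The proof: the sum of `ft` over the cell `i` is `t i * G i + P i t`, `P i` a
polynomial with nonnegative coefficients and `P i 2 ≤ G i / 4` by `Star`. -/
def FP : Prop := ∀ S : Sys, ∀ k0 : ℕ, 3 ≤ k0 → S.K ≤ k0 → ∀ R : Set ℕ,
  (∀ r ∈ R, r.Prime) → (∀ k, k0 ≤ k → ∀ j ∈ S.badc k, 0 < S.NN R k j) → S.Star k0 R →
  ∃ t : ℕ × ℕ → ℝ, (∀ i, |t i| ≤ 1) ∧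
    ∑ n ∈ Finset.Ico 1 (2 ^ k0), S.ft k0 R t n = 0 ∧
    ∀ k, k0 ≤ k → ∀ j < nc S.d k, ∑ n ∈ cell S.d k j, S.ft k0 R t n = 0

/-- (Last) from vanishing cell sums to the decay of the partial sums -/
def Last : Prop := ∀ S : Sys, ∀ k0 : ℕ, 3 ≤ k0 → ∀ R : Set ℕ,
  (∀ r ∈ R, r.Prime) → (∀ k, k0 ≤ k → ∀ j ∈ S.badc k, 0 < S.NN R k j) → S.Star k0 R →
  ∀ t : ℕ × ℕ → ℝ, (∀ i, |t i| ≤ 1) →
    ∑ n ∈ Finset.Ico 1 (2 ^ k0), S.ft k0 R t n = 0 →
    (∀ k, k0 ≤ k → ∀ j < nc S.d k, ∑ n ∈ cell S.d k j, S.ft k0 R t n = 0) →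
    ∃ C : ℝ, ∀ N : ℕ, 1 ≤ N →
      |∑ n ∈ Finset.Icc 1 N, S.ft k0 R t n| ≤ C * (N : ℝ) ^ (-(1/2 + S.d / 2))

/-! ## First moment inequalities (deterministic), the input of `ExistsGood` -/

/-- (LOAD1) non-direct loads, conditional on any finite set `A`
[helper18 / helper35: load theorem] -/
def Load1 : Prop := ∀ S : Sys, ∃ K0 : ℕ, ∀ k0 : ℕ, K0 ≤ k0 → ∀ k, k0 ≤ k → ∀ j < nc S.d k,
  ∀ A : Finset ℕ, S.LP k0 k j Sys.Q1 A ≤ (2 : ℝ) ^ (-(S.ep / 50) * k) * S.G k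

/-- (LOAD2) direct loads with a large cofactor, conditional on any finite set `A` -/
def Load2 : Prop := ∀ S : Sys, ∃ K0 : ℕ, ∀ k0 : ℕ, K0 ≤ k0 → ∀ k, k0 ≤ k → ∀ j < nc S.d k,
  ∀ A : Finset ℕ, S.LP k0 k j S.Q2 A ≤ (2 : ℝ) ^ (-(S.ep / 50) * k) * S.G k

/-- (CRUDE1) crude mass of windows -/
def Crude1 : Prop := ∀ S : Sys, ∃ K0 : ℕ, ∀ k0 : ℕ, K0 ≤ k0 → ∀ k x h : ℕ, (k0 : ℝ) / 2 ≤ k →
  2 ^ k ≤ x → x < 2 ^ (k + 1) → (2 : ℝ) ^ ((1/2 - 3 * S.d) * k) ≤ h → h ≤ x → ∀ A : Finset ℕ,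
  S.CP k0 x h A ≤ h * (2 : ℝ) ^ ((S.s - 1 + 6.5 * S.tau) * k)

/-- (RPART1) numbers with a large divisor composed of elements of `R` -/
def RPart1 : Prop := ∀ S : Sys, ∃ K0 : ℕ, ∀ k0 : ℕ, K0 ≤ k0 → ∀ k x h : ℕ, (k0 : ℝ) / 2 ≤ k →
  2 ^ k ≤ x → x < 2 ^ (k + 1) → (2 : ℝ) ^ ((1/2 - 3 * S.d) * k) ≤ h → h ≤ x → ∀ A : Finset ℕ,
  ∑ n ∈ (Finset.Ico x (x + h)).filter (Sys.rough k0),
    ∑ e ∈ n.divisors.filter (fun e : ℕ => (2 : ℝ) ^ ((k : ℝ) / 8) ≤ (e : ℝ) ∧ A ⊆ e.primeFactors),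
      S.base e * ((n / e : ℕ) : ℝ) ^ (S.s - 1) * S.pc A e.primeFactors ≤
    h * (2 : ℝ) ^ ((S.s - 1 - S.tau / 10) * k)

/-- (MULT1) number of owners of a prime, all proper conditionings (`A` a strict subset of the
support) -/
def Mult1 : Prop := ∀ S : Sys, ∃ K0 : ℕ, ∀ k : ℕ, K0 ≤ k → ∀ q : ℕ, ∀ A : Finset ℕ,
  ∑ j ∈ S.badc k, ∑ x ∈ (S.Cand k j).filter (fun x => x.1 = q ∧ A ⊂ x.2.primeFactors),
    S.pc A x.2.primeFactors ≤ (2 : ℝ) ^ (-(S.c / 2) * (k : ℝ))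

/-- (MASSC1) mass of the control primes -/
def MassC1 : Prop := ∀ S : Sys, ∃ K0 : ℕ, ∀ k : ℕ, K0 ≤ k → ∀ A : Finset ℕ,
  ∑ j ∈ S.badc k, ∑ x ∈ (S.Cand k j).filter (fun x => A ⊆ x.2.primeFactors),
    S.wd k x.2 * (x.1 : ℝ) ^ (-S.s) * S.pc A x.2.primeFactors ≤ (2 : ℝ) ^ (-(S.c / 2) * (k : ℝ))

/-- (MASSR1) mass of `R` -/
def MassR1 : Prop := ∀ S : Sys, ∃ K0 : ℕ, ∀ k0 : ℕ, K0 ≤ k0 → ∀ T : Finset ℕ,
  (∀ r ∈ T, (2 : ℝ) ^ ((k0 : ℝ) / 5) ≤ r) →
  ∑ r ∈ T, S.pr r * (S.base r * (r : ℝ) ^ (-S.s) * (1 + Real.log r) ^ 2) ≤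
    (2 : ℝ) ^ (-(S.tau / 6) * (k0 : ℝ))

/-- (CAND1) proper conditionings of the candidates of a bad cell in a window (in particular of all
the candidates): the conditional normalised number is smaller by a power than the window, also after
multiplication with the number of bad cells of the class if the window is the whole cell. -/
def Cand1 : Prop := ∀ S : Sys, ∃ K0 : ℕ, ∀ k : ℕ, K0 ≤ k → ∀ j ∈ S.badc k,
  ∀ A : Finset ℕ, A.Nonempty →
  (∑ x ∈ (S.Cand k j).filter (fun x => A ⊆ x.2.primeFactors),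
      S.pc A x.2.primeFactors / S.pr x.2 ≤
    (2 : ℝ) ^ (-(S.u (S.cls k j) + S.c / 2) * k) * 2 ^ ec S.d k) ∧
  ∀ x h : ℕ, (2 : ℝ) ^ (0.38 * (k : ℝ)) ≤ h →
    ∑ y ∈ (S.Cand k j).filter (fun y => A ⊆ y.2.primeFactors ∧ x ≤ y.1 * y.2 ∧ y.1 * y.2 < x + h),
      S.pc A y.2.primeFactors / S.pr y.2 ≤ (2 : ℝ) ^ (-(0.01 : ℝ) * k) * h

/-! ## Consequences of `Good`, the parts of `GoodStar` -/

/-- (WOLE) `NN ≥ card / 2` and `many` -/
def WoLe : Prop := ∀ S : Sys, ∃ K0 : ℕ, ∀ k0 : ℕ, K0 ≤ k0 → ∀ R : Set ℕ, S.Good k0 R →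
  ∀ k, k0 ≤ k → ∀ j ∈ S.badc k, ∀ m : ℕ, 1 ≤ m →
    0 ≤ S.wo R k j m ∧ S.wo R k j m ≤ (2 / S.c1) / (k : ℝ) ^ 2 * S.wd k m

/-- (ORDLE) ordinary weights -/
def OrdLe : Prop := ∀ S : Sys, ∃ C : ℝ, ∃ K0 : ℕ, ∀ k0 : ℕ, K0 ≤ k0 → ∀ p : ℕ, p.Prime →
  0 ≤ S.ordw k0 p ∧ S.ordw k0 p ≤ C * ((p : ℝ) ^ (S.s - 1) / Real.log p ^ 3)

/-- (CTLLE) control weights -/
def CtlLe : Prop := ∀ S : Sys, ∃ K0 : ℕ, ∀ k0 : ℕ, K0 ≤ k0 → ∀ R : Set ℕ, S.Good k0 R →
  ∀ q : ℕ, ∀ k1 ≤ top q, 0 ≤ S.ctl k0 k1 R q ∧ 2 * S.ctl k0 k1 R q ≤ (q : ℝ) ^ (S.s - 1 + 5 * S.tau)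
    ∧ ((q : ℝ) < (2 : ℝ) ^ ((k0 : ℝ) / 3) → S.ctl k0 k1 R q = 0)

/-- (WPLE) `Wp ≤ Fh` -/
def WpLe : Prop := ∀ S : Sys, ∃ K0 : ℕ, ∀ k0 : ℕ, K0 ≤ k0 → ∀ R : Set ℕ, S.Good k0 R →
  ∀ p : ℕ, p.Prime → 0 ≤ S.Wp k0 R p ∧ S.Wp k0 R p ≤ S.Fh k0 R p

/-- (SUMW) the cofactors -/
def SumW : Prop := ∀ S : Sys, ∃ C : ℝ, ∃ K0 : ℕ, ∀ k0 : ℕ, K0 ≤ k0 → ∀ R : Set ℕ, S.Good k0 R →
  ∀ T : Finset ℕ, (∀ n ∈ T, 2 ≤ n) →
    ∑ n ∈ T, S.W k0 R n * (n : ℝ) ^ (-S.s) * (1 + Real.log n) ^ 2 ≤ C / k0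

/-- (RANK) light control part: numbers composed of control primes with owners in blocks `< κ` -/
def Rank : Prop := ∀ S : Sys, ∃ K0 : ℕ, ∀ k0 : ℕ, K0 ≤ k0 → ∀ R : Set ℕ, S.Good k0 R →
  ∀ T : Finset ℕ, (∀ n ∈ T, 2 ≤ n) → ∀ κ : ℕ,
    ∑ n ∈ T, CM (fun p => 6 * S.ctl k0 (min (top p) κ) R p) n * (n : ℝ) ^ (-S.s + S.c / 10) ≤
      (2 : ℝ) ^ (-(S.c / 20) * (k0 : ℝ))

/-- (ORDWIN) ordinary numbers in windows `[x, x + h)`, `h ≥ x^(1/3)` -/
def OrdWin : Prop := ∀ S : Sys, ∃ C : ℝ, ∃ K0 : ℕ, ∀ k0 : ℕ, K0 ≤ k0 → ∀ x h : ℕ,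
  (x : ℝ) ^ (1 / 3 : ℝ) ≤ h → h ≤ x → 2 ≤ x →
  ∑ n ∈ Finset.Ico x (x + h), CM (fun p => 6 * S.ordw k0 p) n ≤
    C * (h * (x : ℝ) ^ (S.s - 1) / Real.log x ^ 4) ∧
  ∑ n ∈ (Finset.Ico x (x + h)).filter (fun n => ¬ n.Prime), CM (fun p => 6 * S.ordw k0 p) n ≤
    C / k0 * (h * (x : ℝ) ^ (S.s - 1) / Real.log x ^ 4)

/-- (LIGHT) cells, heavy control part removed -/
def Light : Prop := ∀ S : Sys, ∃ K0 : ℕ, ∀ k0 : ℕ, K0 ≤ k0 → ∀ R : Set ℕ, S.Good k0 R →
  ∀ k, k0 ≤ k → ∀ j < nc S.d k,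
    ∑ n ∈ cell S.d k j, CM (S.Wl k0 R k) n ≤ (if S.bad k j then 0 else 2) * S.G k + S.G k / 20

/-- (EXPAND) expansion with respect to one heavy control prime -/
def Expand : Prop := ∀ S : Sys, ∃ K0 : ℕ, ∀ k0 : ℕ, K0 ≤ k0 → ∀ R : Set ℕ, S.Good k0 R →
  ∀ k, k0 ≤ k → ∀ j < nc S.d k,
    ∑ n ∈ cell S.d k j, S.W k0 R n ≤ ∑ n ∈ cell S.d k j, CM (S.Wl k0 R k) n +
      (S.HT k0 R k j Sys.Q1 + S.HT k0 R k j S.Q2 + S.HT k0 R k j S.Q3 + S.HT k0 R k j Sys.Q4)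

/-- (H12) non-direct terms and direct terms with large cofactor -/
def H12 : Prop := ∀ S : Sys, ∃ K0 : ℕ, ∀ k0 : ℕ, K0 ≤ k0 → ∀ R : Set ℕ, S.Good k0 R →
  ∀ k, k0 ≤ k → ∀ j < nc S.d k, S.HT k0 R k j Sys.Q1 + S.HT k0 R k j S.Q2 ≤ S.G k / 20

/-- (H3) direct terms with small cofactor -/
def H3 : Prop := ∀ S : Sys, ∃ K0 : ℕ, ∀ k0 : ℕ, K0 ≤ k0 → ∀ R : Set ℕ, S.Good k0 R →
  ∀ k, k0 ≤ k → ∀ j < nc S.d k, S.HT k0 R k j S.Q3 ≤ S.G k / 20

/-- (H4) own terms -/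
def H4 : Prop := ∀ S : Sys, ∃ K0 : ℕ, ∀ k0 : ℕ, K0 ≤ k0 → ∀ R : Set ℕ, S.Good k0 R →
  ∀ k, k0 ≤ k → ∀ j < nc S.d k,
    S.HT k0 R k j Sys.Q4 ≤ (if S.bad k j then 2 else 0) * S.G k + S.G k / 20

/-- (INIT) the initial cell -/
def Init : Prop := ∀ S : Sys, ∃ K0 : ℕ, ∀ k0 : ℕ, K0 ≤ k0 → ∀ R : Set ℕ, S.Good k0 R →
  ∑ n ∈ Finset.Ico 1 (2 ^ k0), S.W k0 R n ≤ (2 + 1/4) * S.G0 k0

end Pool.Agent.M20.Helper16.KS
end

/- Helper53.KN.Helper15.KS.H3b -/
section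
/-!
# Project KS (MP_768c9c_nt): Prop `H3`, bounds for the weights
-/

set_option autoImplicit false
open scoped Classical

namespace Pool.Agent.M20.Helper15.KS.H3

open Pool.Agent.M20.Helper16.KS

variable (S : Sys)

/-- prime factors of candidates are large -/
theorem cand_prime_ge {k' j' : ℕ} (hk : S.K ≤ k') (hj : j' ∈ S.badc k') {x : ℕ × ℕ}
    (hx : x ∈ S.Cand k' j') {p : ℕ} (hp : p.Prime) (hpx : p ∣ x.1 * x.2) :
    (2 : ℝ) ^ ((S.u (S.cls k' j') + S.c) * k') ≤ p ∧ (2 : ℝ) ^ ((k' : ℝ) / 5) ≤ p := by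
  rw [S.mem_badc] at hj
  obtain ⟨-, -, -, -, -, h6, -⟩ := S.cand k' hk j' hj.1 hj.2 x hx
  have h := h6 p hp hpx
  have hp0 : (0 : ℝ) ≤ p := Nat.cast_nonneg p
  have hp1 : (1 : ℝ) ≤ p := by exact_mod_cast hp.one_lt.le
  have hdel := S.del_pos
  have hc := S.c_pos
  have hu := S.u_ge (S.cls k' j')
  have h1 : (p : ℝ) ^ (1/2 - S.del) ≤ (p : ℝ) ^ (1/2 : ℝ) :=
    Real.rpow_le_rpow_of_exponent_le hp1 (by (clear * - hdel; linarith))
  have h2 : (p : ℝ) ^ (1/2 : ℝ) ≤ p := by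
    calc (p : ℝ) ^ (1/2 : ℝ) ≤ (p : ℝ) ^ (1 : ℝ) :=
          Real.rpow_le_rpow_of_exponent_le hp1 (by norm_num)
      _ = p := Real.rpow_one _
  refine ⟨h.trans (h1.trans h2), ?_⟩
  have h3 : (2 : ℝ) ^ ((k' : ℝ) / 10) ≤ (p : ℝ) ^ (1/2 : ℝ) := by
    refine le_trans (Real.rpow_le_rpow_of_exponent_le (by norm_num) ?_) (h.trans h1)
    have : (0 : ℝ) ≤ k' := Nat.cast_nonneg _
    (clear * - hc hu; nlinarith)
  calc (2 : ℝ) ^ ((k' : ℝ) / 5) = ((2 : ℝ) ^ ((k' : ℝ) / 10)) ^ (2 : ℝ) := by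
        rw [← Real.rpow_mul (by norm_num)]
        congr 1
        ring
    _ ≤ ((p : ℝ) ^ (1/2 : ℝ)) ^ (2 : ℝ) := Real.rpow_le_rpow (by positivity) h3 (by norm_num)
    _ = p := by
        rw [← Real.rpow_mul hp0]
        norm_num

theorem gam_le {p : ℕ} (hp : 2 ^ 20 ≤ p) : S.gam p ≤ S.base p * (1 / 20) := by
  have hp0 : (0 : ℝ) < p := by
    have : 0 < p := lt_of_lt_of_le (by positivity) hp
    exact_mod_cast this
  have hp1 : (1 : ℝ) ≤ p := by
    have : 1 ≤ p := le_trans (by norm_num) hp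
    exact_mod_cast this
  have hp2 : (2 : ℝ) ^ (20 : ℝ) ≤ p := by
    rw [show (20 : ℝ) = ((20 : ℕ) : ℝ) by norm_num, Real.rpow_natCast]
    exact_mod_cast hp
  unfold Sys.gam Sys.base
  have h1 := S.s_lt
  have h2 := S.tau_le_s
  have h3 := S.del_le
  have h4 := S.tau_pos
  norm_num at h1
  have h5 : S.tau ≤ 1 / 1000000 := by
    have : S.s / 10 ^ 6 ≤ S.s := by
      rw [div_le_iff₀ (by positivity)]
      (clear * - h2 h4; nlinarith [S.s_pos])
    (clear * - h2 h4 h1; linarith)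
  have h6 : (p : ℝ) ^ (S.s - 1 + 6 * S.tau) =
      (p : ℝ) ^ (-(1/2 + S.del)) * (p : ℝ) ^ (S.s - 1 + 6 * S.tau + (1/2 + S.del)) := by
    rw [← Real.rpow_add hp0]
    congr 1
    ring
  rw [h6]
  apply mul_le_mul_of_nonneg_left _ (by positivity)
  calc (p : ℝ) ^ (S.s - 1 + 6 * S.tau + (1/2 + S.del)) ≤ (p : ℝ) ^ (-(2/5) : ℝ) :=
        Real.rpow_le_rpow_of_exponent_le hp1 (by (clear * - h2 h3 h4 h1; linarith))
    _ ≤ ((2 : ℝ) ^ (20 : ℝ)) ^ (-(2/5) : ℝ) :=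
        Real.rpow_le_rpow_of_nonpos (by positivity) hp2 (by norm_num)
    _ = (2 : ℝ) ^ (-(8 : ℝ)) := by
        rw [← Real.rpow_mul (by norm_num)]
        norm_num
    _ ≤ 1 / 20 := by
        rw [Real.rpow_neg (by norm_num), show (8 : ℝ) = ((8 : ℕ) : ℝ) by norm_num,
          Real.rpow_natCast]
        norm_num

theorem W_m_le {k0 : ℕ} {R : Set ℕ} (hR : S.Good k0 R)
    (hW : ∀ p : ℕ, p.Prime → 0 ≤ S.Wp k0 R p ∧ S.Wp k0 R p ≤ S.Fh k0 R p)
    {k' j' : ℕ} (hk : S.K ≤ k') (hk' : 100 ≤ k') (hj : j' ∈ S.badc k') {x : ℕ × ℕ}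
    (hx : x ∈ S.act R k' j') : S.W k0 R x.2 ≤ 2 * S.base x.2 := by
  rw [S.mem_act] at hx
  obtain ⟨hx, hxR⟩ := hx
  obtain ⟨h1, h2, h3, h4, h5, h6, h7, -, -⟩ := S.cand_facts hk hj hx
  have hm0 : x.2 ≠ 0 := by omega
  have hge : ∀ p : ℕ, p.Prime → p ∣ x.2 → (2 : ℝ) ^ ((k' : ℝ) / 5) ≤ p := fun p hp hpm =>
    (cand_prime_ge S hk hj hx hp (hpm.mul_left _)).2
  have hge2 : ∀ p : ℕ, p.Prime → p ∣ x.2 → 2 ^ 20 ≤ p := by
    intro p hp hpm
    have h8 := hge p hp hpm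
    have h9 : (2 : ℝ) ^ (20 : ℝ) ≤ p := by
      refine le_trans (Real.rpow_le_rpow_of_exponent_le (by norm_num) ?_) h8
      have : (100 : ℝ) ≤ k' := by exact_mod_cast hk'
      (clear * - this; linarith)
    rw [show (20 : ℝ) = ((20 : ℕ) : ℝ) by norm_num, Real.rpow_natCast] at h9
    exact_mod_cast h9
  have hlen : (x.2.primeFactorsList.length : ℝ) ≤ 5 * (k' + 1) / k' := by
    refine Sys.rough_omega_le (k0 := k') (k := k') (by omega) hm0 hge ?_
    refine lt_of_le_of_lt ?_ h7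
    exact Nat.le_mul_of_pos_left _ h1.pos
  have hlen2 : x.2.primeFactorsList.length ≤ 10 := by
    have hk'R : (100 : ℝ) ≤ k' := by exact_mod_cast hk'
    have h8 : (5 : ℝ) * (k' + 1) / k' ≤ 10 := by
      rw [div_le_iff₀ (by (clear * - hk'R; linarith))]
      (clear * - hk'R; linarith)
    exact_mod_cast hlen.trans h8
  have hFh : ∀ p : ℕ, p.Prime → p ∣ x.2 → S.Wp k0 R p ≤ S.base p * (21 / 20) := by
    intro p hp hpm
    have hpR : p ∈ R := hxR p hp hpm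
    refine (hW p hp).2.trans ?_
    have h8 : ¬ ((p : ℝ) < (2 : ℝ) ^ ((k0 : ℝ) / 5)) := not_lt.mpr (hR.prime p hpR).2
    unfold Sys.Fh Sys.bR
    rw [if_neg h8, if_pos hpR]
    have := gam_le S (hge2 p hp hpm)
    (clear * - this; linarith)
  unfold Sys.W
  have hmono : CM (S.Wp k0 R) x.2 ≤ CM (fun p => S.base p * (21 / 20)) x.2 :=
    CM_mono (fun p hp _ => (hW p hp).1) hFh
  refine hmono.trans ?_
  rw [CM_mul_fun S.base (fun _ => 21 / 20), S.CM_base hm0, CM_const]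
  have h9 : ((21 : ℝ) / 20) ^ x.2.primeFactorsList.length ≤ (21 / 20) ^ 10 :=
    pow_le_pow_right₀ (by norm_num) hlen2
  have h10 : ((21 : ℝ) / 20) ^ 10 ≤ 2 := by norm_num
  have h11 := S.base_nonneg x.2
  (clear * - h11 h9; nlinarith)

theorem W_zero {k0 : ℕ} {R : Set ℕ}
    (hW : ∀ p : ℕ, p.Prime → 0 ≤ S.Wp k0 R p ∧ S.Wp k0 R p ≤ S.Fh k0 R p) {l : ℕ} (hl : 2 ≤ l)
    (hlt : (l : ℝ) < (2 : ℝ) ^ ((k0 : ℝ) / 5)) : S.W k0 R l = 0 := by
  obtain ⟨p, hp, hpl⟩ := Nat.exists_prime_and_dvd (show l ≠ 1 by omega)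
  have hple : p ≤ l := Nat.le_of_dvd (by omega) hpl
  have h1 : S.Fh k0 R p = 0 := by
    unfold Sys.Fh
    rw [if_pos]
    refine lt_of_le_of_lt ?_ hlt
    exact_mod_cast hple
  have h2 : S.Wp k0 R p = 0 := le_antisymm (h1 ▸ (hW p hp).2) (hW p hp).1
  exact CM_eq_zero (by omega) hp hpl h2

end Pool.Agent.M20.Helper15.KS.H3
end

/- Helper53.KN.Helper15.KS.H3a -/
section
/-!
# Project KS (MP_768c9c_nt): Prop `H3`, numerical part
-/

set_option autoImplicit false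
open scoped Classical

namespace Pool.Agent.M20.Helper15.KS.H3

open Pool.Agent.M20.Helper16.KS

/-- left end of a window: `wl l a ≤ y ↔ a ≤ y * l` -/
def wl (l a : ℕ) : ℕ := (a + l - 1) / l

theorem wl_le_iff {l a y : ℕ} (hl : 0 < l) : wl l a ≤ y ↔ a ≤ y * l := by
  unfold wl
  have h1 : (a + l - 1) / l ≤ y ↔ (a + l - 1) / l < y + 1 := Nat.lt_succ_iff.symm
  rw [h1, Nat.div_lt_iff_lt_mul hl, add_mul, one_mul]
  omega

theorem lt_wl_iff {l a y : ℕ} (hl : 0 < l) : y < wl l a ↔ y * l < a := by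
  rw [← not_le, wl_le_iff hl, not_le]

theorem wl_ge {l a : ℕ} (hl : 0 < l) : (a : ℝ) / l ≤ wl l a := by
  have h : a ≤ wl l a * l := (wl_le_iff hl).1 le_rfl
  have hl' : (0 : ℝ) < l := by exact_mod_cast hl
  rw [div_le_iff₀ hl']
  exact_mod_cast h

theorem wl_lt {l a : ℕ} (hl : 0 < l) : (wl l a : ℝ) < a / l + 1 := by
  have h : wl l a * l ≤ a + l - 1 := Nat.div_mul_le_self _ _
  have h2 : wl l a * l < a + l := by omega
  have hl' : (0 : ℝ) < l := by exact_mod_cast hl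
  have h3 : (wl l a : ℝ) * l < a + l := by exact_mod_cast h2
  rw [← sub_lt_iff_lt_add, lt_div_iff₀ hl', sub_mul, one_mul]
  (clear * - h3; linarith)

theorem wl_mono {l a b : ℕ} (hab : a ≤ b) : wl l a ≤ wl l b := by
  unfold wl
  exact Nat.div_le_div_right (by omega)

theorem log_facts {l : ℕ} (hl : 32 ≤ l) :
    (2 : ℝ) ^ ((Nat.log 2 l : ℕ) : ℝ) ≤ l ∧ (l : ℝ) < (2 : ℝ) ^ (((Nat.log 2 l : ℕ) : ℝ) + 1) ∧
      5 ≤ Nat.log 2 l := by
  refine ⟨?_, ?_, ?_⟩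
  · rw [Real.rpow_natCast]
    exact_mod_cast Nat.pow_log_le_self 2 (by omega)
  · have h : l < 2 ^ (Nat.log 2 l + 1) := Nat.lt_pow_succ_log_self (by norm_num) l
    have h2 : (((Nat.log 2 l : ℕ) : ℝ) + 1) = ((Nat.log 2 l + 1 : ℕ) : ℝ) := by push_cast; rfl
    rw [h2, Real.rpow_natCast]
    exact_mod_cast h
  · exact Nat.le_log_of_pow_le (by norm_num) (by norm_num; exact hl)

theorem numeric (S : Sys) {k k' l : ℕ} (hk' : 6010 ≤ k') (hl : 32 ≤ l)
    (hlt : (l : ℝ) < (2 : ℝ) ^ (0.226 * (k' : ℝ)))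
    (hk : k' + Nat.log 2 l = k ∨ k' + Nat.log 2 l + 1 = k) :
    (2 : ℝ) ^ (0.38 * (k' : ℝ) + 1) ≤ (2 : ℝ) ^ ec S.d k / l ∧
    (2 : ℝ) ^ ec S.d k / l + 1 ≤ 2 ^ ec S.d k' ∧
    ((2 : ℝ) ^ (0.498 * (k' : ℝ) + 1) ≤ (2 : ℝ) ^ ec S.d k / l ∨ (k' : ℝ) ≤ 500 * Real.log l) ∧
    k ≤ 2 * k' ∧
    (2 : ℝ) ^ ((S.s - 1) * k') ≤ 2 * ((2 : ℝ) ^ ((S.s - 1) * k) * (l : ℝ) ^ (1 - S.s)) := by
  obtain ⟨g1, g2, g3⟩ := log_facts hl
  set lam : ℕ := Nat.log 2 l with hlam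
  have hl0 : (0 : ℝ) < l := by exact_mod_cast (by omega : 0 < l)
  have hd0 := S.d_pos
  have hd := S.d_le'
  have hd' : S.d ≤ 1 / 10 ^ 7 := by
    refine hd.trans ?_
    norm_num
  have hk'R : (6010 : ℝ) ≤ k' := by exact_mod_cast hk'
  have hlamR : (5 : ℝ) ≤ lam := by exact_mod_cast g3
  have hlam2 : (lam : ℝ) < 0.226 * k' :=
    (Real.rpow_lt_rpow_left_iff (by norm_num : (1 : ℝ) < 2)).mp (g1.trans_lt hlt)
  have hkle : (k : ℝ) ≤ k' + lam + 1 := by
    rcases hk with h | h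
    · rw [← h]; push_cast; (clear * - hd0 hd; linarith)
    · rw [← h]; push_cast; (clear * -; linarith)
  have hkge : (k' : ℝ) + lam ≤ k := by
    rcases hk with h | h
    · rw [← h]; push_cast; (clear * -; linarith)
    · rw [← h]; push_cast; (clear * - hd0 hd; linarith)
  -- the exponents
  have e1 : (k : ℝ) * (1/2 - S.d) - 1 < ec S.d k := Nat.sub_one_lt_floor _
  have e2 : (ec S.d k : ℝ) ≤ (k : ℝ) * (1/2 - S.d) := by
    apply Nat.floor_le
    apply mul_nonneg (Nat.cast_nonneg _)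
    norm_num at hd'
    (clear * - hd0 hd; linarith)
  have e3 : (k' : ℝ) * (1/2 - S.d) - 1 < ec S.d k' := Nat.sub_one_lt_floor _
  norm_num at hd'
  have f1 : (k' : ℝ) * S.d ≤ k' * (1 / 10000000) := mul_le_mul_of_nonneg_left hd' (by (clear * - hd0 hd hk'R; linarith))
  have f2 : (lam : ℝ) * S.d ≤ lam * (1 / 10000000) := mul_le_mul_of_nonneg_left hd' (by (clear * - hd0 hd hlamR; linarith))
  have f3 : 0 ≤ (lam : ℝ) * S.d := by positivity
  have f4 : ((k' : ℝ) + lam) * (1/2 - S.d) ≤ (k : ℝ) * (1/2 - S.d) :=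
    mul_le_mul_of_nonneg_right hkge (by (clear * - hd0 hd; linarith))
  have f5 : (k : ℝ) * (1/2 - S.d) ≤ ((k' : ℝ) + lam + 1) * (1/2 - S.d) :=
    mul_le_mul_of_nonneg_right hkle (by (clear * - hd0 hd; linarith))
  have hlow : (2 : ℝ) ^ ((k' : ℝ) * (1/2 - S.d) - lam * (1/2 + S.d) - 2) ≤
      (2 : ℝ) ^ ec S.d k / l := by
    rw [le_div_iff₀ hl0, ← Real.rpow_natCast 2 (ec S.d k)]
    calc (2 : ℝ) ^ ((k' : ℝ) * (1/2 - S.d) - lam * (1/2 + S.d) - 2) * l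
        ≤ (2 : ℝ) ^ ((k' : ℝ) * (1/2 - S.d) - lam * (1/2 + S.d) - 2) *
            (2 : ℝ) ^ ((lam : ℝ) + 1) := mul_le_mul_of_nonneg_left g2.le (by positivity)
      _ = (2 : ℝ) ^ (((k' : ℝ) * (1/2 - S.d) - lam * (1/2 + S.d) - 2) + ((lam : ℝ) + 1)) :=
          (Real.rpow_add (by norm_num) _ _).symm
      _ ≤ (2 : ℝ) ^ (ec S.d k : ℝ) := by
          apply Real.rpow_le_rpow_of_exponent_le (by norm_num)
          (clear * - e1 f4; nlinarith)
  refine ⟨?_, ?_, ?_, ?_, ?_⟩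
  · refine le_trans (Real.rpow_le_rpow_of_exponent_le (by norm_num) ?_) hlow
    (clear * - hd0 hd hk'R hlam2 f1 f2; nlinarith)
  · have hE : (1 : ℝ) ≤ ec S.d k' := by (clear * - hd0 hd hk'R e3 f1; nlinarith)
    have h1 : (2 : ℝ) ^ ec S.d k / l ≤ (2 : ℝ) ^ ((ec S.d k' : ℝ) - 1) := by
      rw [div_le_iff₀ hl0, ← Real.rpow_natCast 2 (ec S.d k)]
      calc (2 : ℝ) ^ (ec S.d k : ℝ) ≤ (2 : ℝ) ^ (((ec S.d k' : ℝ) - 1) + lam) := by
            apply Real.rpow_le_rpow_of_exponent_le (by norm_num)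
            (clear * - hd0 hlamR e2 e3 f3 f5; nlinarith)
        _ = (2 : ℝ) ^ ((ec S.d k' : ℝ) - 1) * (2 : ℝ) ^ (lam : ℝ) :=
            Real.rpow_add (by norm_num) _ _
        _ ≤ (2 : ℝ) ^ ((ec S.d k' : ℝ) - 1) * l := mul_le_mul_of_nonneg_left g1 (by positivity)
    have h2 : (1 : ℝ) ≤ (2 : ℝ) ^ ((ec S.d k' : ℝ) - 1) :=
      Real.one_le_rpow (by norm_num) (by (clear * - hd0 hd hk'R e3 f1; linarith))
    have h3 : (2 : ℝ) ^ ec S.d k' = 2 * (2 : ℝ) ^ ((ec S.d k' : ℝ) - 1) := by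
      rw [← Real.rpow_natCast 2 (ec S.d k')]
      rw [show ((ec S.d k' : ℕ) : ℝ) = 1 + ((ec S.d k' : ℝ) - 1) by ring,
        Real.rpow_add (by norm_num), Real.rpow_one]
      ring_nf
    rw [h3]
    (clear * - h1 h2; linarith)
  · by_cases hc : (k' : ℝ) ≤ 500 * Real.log l
    · exact Or.inr hc
    · left
      rw [not_le] at hc
      have h1 : (lam : ℝ) * Real.log 2 ≤ Real.log l := by
        have h2 := Real.log_le_log (by positivity) g1
        rwa [Real.log_rpow (by norm_num)] at h2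
      have h3 := Real.log_two_gt_d9
      have h4 : (lam : ℝ) * 0.6931 ≤ Real.log l := by
        refine le_trans ?_ h1
        apply mul_le_mul_of_nonneg_left _ (by (clear * - hd0 hd hlamR; linarith))
        (clear * - hd0 hd h3; linarith)
      have h5 : (lam : ℝ) * 346.55 < k' := by (clear * - hc h4; linarith)
      refine le_trans (Real.rpow_le_rpow_of_exponent_le (by norm_num) ?_) hlow
      (clear * - hd0 hd hk'R f1 f2 hc h4; nlinarith)
  · have h1 : (k : ℝ) ≤ 2 * k' := by (clear * - hd0 hd hk'R hlam2 hkle; linarith)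
    exact_mod_cast h1
  · have hs0 := S.s_pos
    have hs1 := S.s_lt
    have hs2 : S.s < 1 := hs1.trans (by norm_num)
    calc (2 : ℝ) ^ ((S.s - 1) * k') ≤
          (2 : ℝ) ^ ((S.s - 1) * k + ((lam : ℝ) * (1 - S.s) + (1 - S.s))) := by
          apply Real.rpow_le_rpow_of_exponent_le (by norm_num)
          (clear * - hkle hd0 hd hs1; nlinarith)
      _ = (2 : ℝ) ^ ((S.s - 1) * k) * (((2 : ℝ) ^ (lam : ℝ)) ^ (1 - S.s) * (2 : ℝ) ^ (1 - S.s)) := by
          rw [Real.rpow_add (by norm_num), Real.rpow_add (by norm_num), ← Real.rpow_mul (by norm_num)]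
      _ ≤ (2 : ℝ) ^ ((S.s - 1) * k) * ((l : ℝ) ^ (1 - S.s) * 2) := by
          apply mul_le_mul_of_nonneg_left _ (by positivity)
          apply mul_le_mul _ _ (by positivity) (by positivity)
          · exact Real.rpow_le_rpow (by positivity) g1 (by (clear * - hd0 hd hs1; linarith))
          · calc (2 : ℝ) ^ (1 - S.s) ≤ (2 : ℝ) ^ (1 : ℝ) :=
                  Real.rpow_le_rpow_of_exponent_le (by norm_num) (by (clear * - hs0; linarith))
              _ = 2 := Real.rpow_one _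
      _ = _ := by ring

end Pool.Agent.M20.Helper15.KS.H3
end

/- Helper53.KN.Helper18.KL.Red -/
section
/-! Project KS: reduction of the conditional expectations to the relative weights. -/

set_option autoImplicit false
open scoped Classical
open Finset

namespace Pool.Agent.M20.Helper18.KL

open Pool.Agent.M20.Helper16.KS

theorem gam_le_base (S : Sys) {p : ℕ} (hp : 1 ≤ p) : S.gam p ≤ S.base p := by
  unfold Sys.gam Sys.base
  refine Real.rpow_le_rpow_of_exponent_le (by exact_mod_cast hp) ?_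
  have h1 := S.del_le
  have h2 := S.s_lt
  have h3 := S.tau_le_s
  have h4 := S.s_pos
  have h5 : S.s / 10 ^ 6 ≤ S.s := by rw [div_le_iff₀ (by positivity)]; (clear * - h4; nlinarith)
  norm_num at h2
  (clear * - h1 h3 h4 h2; linarith)

theorem base_le (S : Sys) {p : ℕ} (hp : 1 ≤ p) : S.base p ≤ S.gam p * (p : ℝ) ^ S.hh := by
  unfold Sys.gam Sys.base
  have hp0 : (0 : ℝ) < p := by exact_mod_cast hp
  rw [← Real.rpow_add hp0]
  refine Real.rpow_le_rpow_of_exponent_le (by exact_mod_cast hp) ?_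
  have h3 := S.tau_pos
  rw [S.hh_eq]
  (clear * - h3; linarith)

/-- one prime -/
theorem prime_term (S : Sys) (D O : Finset ℕ) {p v : ℕ} (hp : 1 ≤ p) (hv : 1 ≤ v) :
    (if p ∈ D then (S.base p + S.gam p) ^ v else S.gam p ^ v) * (if p ∈ D ∧ p ∉ O then S.pr p else 1) ≤
      2 ^ v * S.gam p ^ v * ((if p ∈ O then p ^ v else p ^ (v - 1) : ℕ) : ℝ) ^ S.hh := by
  have hp0 : (0 : ℝ) < p := by exact_mod_cast hp
  have hp1 : (1 : ℝ) ≤ p := by exact_mod_cast hp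
  have hg := S.gam_nonneg p
  have hb := S.base_nonneg p
  have h2v : (1 : ℝ) ≤ 2 ^ v := one_le_pow₀ (by norm_num)
  have hhh := (hh_le S).2.1
  by_cases hD : p ∈ D
  · rw [if_pos hD]
    have h1 : (S.base p + S.gam p) ^ v ≤ 2 ^ v * S.gam p ^ v * ((p : ℝ) ^ S.hh) ^ v := by
      have h2 : S.base p + S.gam p ≤ 2 * S.gam p * (p : ℝ) ^ S.hh := by
        have := gam_le_base S hp
        have := base_le S hp
        linarith
      calc (S.base p + S.gam p) ^ v ≤ (2 * S.gam p * (p : ℝ) ^ S.hh) ^ v := pow_le_pow_left₀ (by positivity) h2 v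
        _ = _ := by rw [mul_pow, mul_pow]
    have h3 : ((p : ℝ) ^ S.hh) ^ v = ((p : ℝ) ^ v) ^ S.hh := by
      rw [← Real.rpow_natCast, ← Real.rpow_natCast, ← Real.rpow_mul hp0.le, ← Real.rpow_mul hp0.le, mul_comm]
    by_cases hO : p ∈ O
    · rw [if_neg (by tauto), if_pos hO, mul_one]
      push_cast
      rw [← h3]
      exact h1
    · rw [if_pos ⟨hD, hO⟩, if_neg hO]
      push_cast
      have h4 : ((p : ℝ) ^ v) ^ S.hh * S.pr p = ((p : ℝ) ^ (v - 1)) ^ S.hh := by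
        unfold Sys.pr
        have e1 : (p : ℝ) ^ v = (p : ℝ) ^ (v - 1) * p := by
          rw [← pow_succ]; congr 1; omega
        rw [e1, Real.mul_rpow (by positivity) hp0.le, mul_assoc, ← Real.rpow_add hp0]
        rw [add_neg_cancel, Real.rpow_zero, mul_one]
      calc (S.base p + S.gam p) ^ v * S.pr p ≤ (2 ^ v * S.gam p ^ v * ((p : ℝ) ^ S.hh) ^ v) * S.pr p :=
            mul_le_mul_of_nonneg_right h1 (S.pr_nonneg p)
        _ = 2 ^ v * S.gam p ^ v * (((p : ℝ) ^ v) ^ S.hh * S.pr p) := by rw [h3]; ring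
        _ = _ := by rw [h4]
  · rw [if_neg hD, if_neg (by tauto), mul_one]
    have h1 : (1 : ℝ) ≤ ((if p ∈ O then p ^ v else p ^ (v - 1) : ℕ) : ℝ) ^ S.hh := by
      refine Real.one_le_rpow ?_ hhh.le
      split_ifs <;> exact_mod_cast Nat.one_le_pow _ _ hp
    have h2 : 0 ≤ S.gam p ^ v := by positivity
    calc S.gam p ^ v ≤ 2 ^ v * S.gam p ^ v := le_mul_of_one_le_left h2 h2v
      _ ≤ 2 ^ v * S.gam p ^ v * ((if p ∈ O then p ^ v else p ^ (v - 1) : ℕ) : ℝ) ^ S.hh := by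
        have : 0 ≤ 2 ^ v * S.gam p ^ v := by (clear * - hg; positivity)
        exact le_mul_of_one_le_right this h1

/-- product over the primes of `l` -/
theorem Fe_bound (S : Sys) (D O : Finset ℕ) {l : ℕ} (hl : l ≠ 0) (hD : D ⊆ l.primeFactors) :
    S.Fe D l * ∏ p ∈ D \ O, S.pr p ≤
      2 ^ l.primeFactorsList.length * (l : ℝ) ^ (S.s - 1 + 6 * S.tau) * (sig O l : ℝ) ^ S.hh := by
  have h1 : ∏ p ∈ D \ O, S.pr p = ∏ p ∈ l.primeFactors, if p ∈ D ∧ p ∉ O then S.pr p else 1 := by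
    rw [← Finset.prod_filter]
    refine Finset.prod_congr ?_ fun _ _ => rfl
    ext p
    simp only [Finset.mem_sdiff, Finset.mem_filter]
    constructor
    · rintro ⟨h1, h2⟩; exact ⟨hD h1, h1, h2⟩
    · rintro ⟨_, h1, h2⟩; exact ⟨h1, h2⟩
  have h2 : (2 : ℝ) ^ l.primeFactorsList.length = ∏ p ∈ l.primeFactors, (2 : ℝ) ^ l.factorization p := by
    rw [← CM_const, CM_eq_prod]
  have h3 : (l : ℝ) ^ (S.s - 1 + 6 * S.tau) = ∏ p ∈ l.primeFactors, S.gam p ^ l.factorization p := by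
    rw [← CM_rpow _ hl, CM_eq_prod]
    rfl
  have h4 : (sig O l : ℝ) ^ S.hh = ∏ p ∈ l.primeFactors,
      ((if p ∈ O then p ^ l.factorization p else p ^ (l.factorization p - 1) : ℕ) : ℝ) ^ S.hh := by
    unfold sig
    rw [Nat.cast_prod, Real.finsetProd_rpow _ _ (fun i _ => Nat.cast_nonneg _)]
  rw [h1, h2, h3, h4]
  unfold Sys.Fe
  rw [← Finset.prod_mul_distrib, ← Finset.prod_mul_distrib, ← Finset.prod_mul_distrib]
  refine Finset.prod_le_prod (fun p _ => ?_) fun p hp => ?_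
  · refine mul_nonneg ?_ ?_
    · split_ifs
      · exact pow_nonneg (add_nonneg (S.base_nonneg _) (S.gam_nonneg _)) _
      · exact pow_nonneg (S.gam_nonneg _) _
    · split_ifs
      · exact S.pr_nonneg _
      · norm_num
  · have hpp := Nat.prime_of_mem_primeFactors hp
    exact prime_term S D O hpp.one_le (hpp.factorization_pos_of_dvd hl (Nat.dvd_of_mem_primeFactors hp))

theorem mA_pos (A : Finset ℕ) (m : ℕ) : 1 ≤ mA A m := by
  refine Nat.one_le_iff_ne_zero.2 (Finset.prod_ne_zero_iff.2 fun p hp => ?_)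
  rw [Finset.mem_inter] at hp
  exact (Nat.prime_of_mem_primeFactors hp.1).ne_zero

theorem mA_mul {A : Finset ℕ} {m : ℕ} (hm : Squarefree m) :
    mA A m * ∏ p ∈ m.primeFactors \ A, p = m := by
  unfold mA
  rw [← Finset.prod_union]
  · rw [Finset.union_comm, Finset.sdiff_union_inter]
    exact Nat.prod_primeFactors_of_squarefree hm
  · exact Finset.disjoint_of_subset_left Finset.inter_subset_right Finset.disjoint_sdiff

theorem prod_pr_sdiff (S : Sys) {A : Finset ℕ} {m : ℕ} (hm : Squarefree m) :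
    ∏ p ∈ m.primeFactors \ A, S.pr p = ((mA A m : ℝ) / m) ^ S.hh := by
  have h1 : ∏ p ∈ m.primeFactors \ A, S.pr p = (((∏ p ∈ m.primeFactors \ A, p : ℕ)) : ℝ) ^ (-S.hh) := by
    rw [Nat.cast_prod, ← Real.finsetProd_rpow _ _ (fun i _ => Nat.cast_nonneg _)]
    rfl
  have h2 := mA_mul (A := A) hm
  have h3 : ((∏ p ∈ m.primeFactors \ A, p : ℕ) : ℝ) ≠ 0 := by
    have : (∏ p ∈ m.primeFactors \ A, p) ≠ 0 := Finset.prod_ne_zero_iff.2 fun p hp =>
      (Nat.prime_of_mem_primeFactors (Finset.sdiff_subset hp)).ne_zero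
    exact_mod_cast this
  have h4 : (mA A m : ℝ) ≠ 0 := by
    have := mA_pos A m
    exact_mod_cast (by omega : mA A m ≠ 0)
  have h5 : (mA A m : ℝ) / m = (((∏ p ∈ m.primeFactors \ A, p : ℕ)) : ℝ)⁻¹ := by
    have h6 : (m : ℝ) = (mA A m : ℝ) * ((∏ p ∈ m.primeFactors \ A, p : ℕ) : ℝ) := by exact_mod_cast h2.symm
    rw [h6]
    field_simp
  rw [h1, h5, Real.inv_rpow (Nat.cast_nonneg _), Real.rpow_neg (Nat.cast_nonneg _)]

theorem pc_eq (S : Sys) {A D : Finset ℕ} {m : ℕ} (hm : Squarefree m) :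
    S.pc A (m.primeFactors ∪ D) = ((mA A m : ℝ) / m) ^ S.hh * ∏ p ∈ D \ (A ∪ m.primeFactors), S.pr p := by
  unfold Sys.pc
  have h1 : (m.primeFactors ∪ D) \ A = (m.primeFactors \ A) ∪ (D \ (A ∪ m.primeFactors)) := by
    ext p
    simp only [Finset.mem_sdiff, Finset.mem_union]
    tauto
  rw [h1, Finset.prod_union, prod_pr_sdiff S hm]
  rw [Finset.disjoint_left]
  intro p hp hp2
  rw [Finset.mem_sdiff] at hp hp2
  exact hp2.2 (Finset.mem_union_right _ hp.1)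

/-- the power of `2^k` in one term -/
theorem level_bound (S : Sys) {k k' q m l : ℕ} (hq : 1 ≤ q) (hm : 1 ≤ m) (hl : 1 ≤ l)
    (h1 : q * m < 2 ^ (k' + 1)) (h2 : 2 ^ k ≤ q * l) (h3 : q * l < 2 ^ (k + 1)) (hk' : k' < 3 * (k + 1)) :
    S.wd k' m * (l : ℝ) ^ (S.s - 1 + 6 * S.tau) ≤
      2 * (2 : ℝ) ^ (9 * S.tau * (k + 1)) * (2 : ℝ) ^ ((S.s - 1) * k) := by
  have hq0 : (0 : ℝ) < q := by exact_mod_cast hq
  have hm0 : (0 : ℝ) < m := by exact_mod_cast hm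
  have hl0 : (0 : ℝ) < l := by exact_mod_cast hl
  have hq1 : (1 : ℝ) ≤ q := by exact_mod_cast hq
  have hs := S.s_pos
  have hs1 : S.s ≤ 1 := by have := S.s_lt; norm_num at this; (clear * - hs this; linarith)
  have ht := S.tau_pos
  have e1 : (q : ℝ) * m ≤ (2 : ℝ) ^ ((k' : ℝ) + 1) := by
    have : ((q * m : ℕ) : ℝ) ≤ ((2 ^ (k' + 1) : ℕ) : ℝ) := by exact_mod_cast h1.le
    push_cast at this
    rwa [← Real.rpow_natCast, Nat.cast_add, Nat.cast_one] at this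
  have e2 : (2 : ℝ) ^ (k : ℝ) ≤ (q : ℝ) * l := by
    have : ((2 ^ k : ℕ) : ℝ) ≤ ((q * l : ℕ) : ℝ) := by exact_mod_cast h2
    push_cast at this
    rwa [Real.rpow_natCast]
  have e3 : (q : ℝ) * l ≤ (2 : ℝ) ^ ((k : ℝ) + 1) := by
    have : ((q * l : ℕ) : ℝ) ≤ ((2 ^ (k + 1) : ℕ) : ℝ) := by exact_mod_cast h3.le
    push_cast at this
    rwa [← Real.rpow_natCast, Nat.cast_add, Nat.cast_one] at this
  -- m^(1-s) l^(s-1)
  have e4 : (m : ℝ) ^ (1 - S.s) * (l : ℝ) ^ (S.s - 1) ≤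
      (2 : ℝ) ^ (((k' : ℝ) + 1) * (1 - S.s)) * (2 : ℝ) ^ ((S.s - 1) * k) := by
    have e5 : (m : ℝ) ^ (1 - S.s) ≤ ((2 : ℝ) ^ ((k' : ℝ) + 1) / q) ^ (1 - S.s) := by
      refine Real.rpow_le_rpow hm0.le ?_ (by (clear * - hs1; linarith))
      rw [le_div_iff₀ hq0]; (clear * - e1; linarith)
    have e6 : (l : ℝ) ^ (S.s - 1) ≤ ((2 : ℝ) ^ (k : ℝ) / q) ^ (S.s - 1) := by
      refine Real.rpow_le_rpow_of_nonpos (by (clear * - hq; positivity)) ?_ (by (clear * - hs1; linarith))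
      rw [div_le_iff₀ hq0]; (clear * - e2; linarith)
    refine (mul_le_mul e5 e6 (by positivity) (by positivity)).trans (le_of_eq ?_)
    rw [Real.div_rpow (by positivity) hq0.le, Real.div_rpow (by positivity) hq0.le, ← Real.rpow_mul (by norm_num),
      ← Real.rpow_mul (by norm_num)]
    have e7 : (q : ℝ) ^ (S.s - 1) = ((q : ℝ) ^ (1 - S.s))⁻¹ := by
      rw [← Real.rpow_neg hq0.le]; congr 1; ring
    rw [e7]
    have e8 : (q : ℝ) ^ (1 - S.s) ≠ 0 := by positivity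
    field_simp
  have e9 : (m : ℝ) ^ S.tau ≤ (2 : ℝ) ^ (((k' : ℝ) + 1) * S.tau) := by
    rw [Real.rpow_mul (by norm_num)]
    refine Real.rpow_le_rpow hm0.le ?_ ht.le
    (clear * - e1 hq1; nlinarith)
  have e10 : (l : ℝ) ^ (6 * S.tau) ≤ (2 : ℝ) ^ (((k : ℝ) + 1) * (6 * S.tau)) := by
    rw [Real.rpow_mul (x := 2) (by norm_num) ((k : ℝ) + 1) (6 * S.tau)]
    refine Real.rpow_le_rpow hl0.le ?_ (by (clear * - ht; linarith))
    (clear * - e3 hq1; nlinarith)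
  have e11 : S.wd k' m * (l : ℝ) ^ (S.s - 1 + 6 * S.tau) =
      (2 : ℝ) ^ ((S.s - 1) * k') * ((m : ℝ) ^ (1 - S.s) * (l : ℝ) ^ (S.s - 1)) * (m : ℝ) ^ S.tau *
        (l : ℝ) ^ (6 * S.tau) := by
    unfold Sys.wd
    rw [Real.rpow_add hm0, Real.rpow_add hl0]
    ring
  rw [e11]
  have e12 : (2 : ℝ) ^ ((S.s - 1) * k') * ((m : ℝ) ^ (1 - S.s) * (l : ℝ) ^ (S.s - 1)) * (m : ℝ) ^ S.tau *
        (l : ℝ) ^ (6 * S.tau) ≤ (2 : ℝ) ^ ((S.s - 1) * k') *
        ((2 : ℝ) ^ (((k' : ℝ) + 1) * (1 - S.s)) * (2 : ℝ) ^ ((S.s - 1) * k)) * (2 : ℝ) ^ (((k' : ℝ) + 1) * S.tau) *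
        (2 : ℝ) ^ (((k : ℝ) + 1) * (6 * S.tau)) := by
    refine mul_le_mul ?_ e10 (by positivity) (by positivity)
    refine mul_le_mul ?_ e9 (by positivity) (by positivity)
    exact mul_le_mul_of_nonneg_left e4 (by positivity)
  refine e12.trans ?_
  have e13 : (2 : ℝ) ^ ((S.s - 1) * k') * ((2 : ℝ) ^ (((k' : ℝ) + 1) * (1 - S.s)) * (2 : ℝ) ^ ((S.s - 1) * k)) *
        (2 : ℝ) ^ (((k' : ℝ) + 1) * S.tau) * (2 : ℝ) ^ (((k : ℝ) + 1) * (6 * S.tau)) =
      (2 : ℝ) ^ (1 - S.s) * (2 : ℝ) ^ (((k' : ℝ) + 1) * S.tau + ((k : ℝ) + 1) * (6 * S.tau)) *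
        (2 : ℝ) ^ ((S.s - 1) * k) := by
    rw [← Real.rpow_add (by norm_num), ← Real.rpow_add (by norm_num), ← Real.rpow_add (by norm_num),
      ← Real.rpow_add (by norm_num), ← Real.rpow_add (by norm_num), ← Real.rpow_add (by norm_num)]
    congr 1
    ring
  rw [e13]
  refine mul_le_mul_of_nonneg_right ?_ (by positivity)
  have e14 : (2 : ℝ) ^ (1 - S.s) ≤ 2 := by
    calc (2 : ℝ) ^ (1 - S.s) ≤ 2 ^ (1 : ℝ) := Real.rpow_le_rpow_of_exponent_le (by norm_num) (by (clear * - hs; linarith))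
      _ = 2 := Real.rpow_one _
  refine mul_le_mul e14 ?_ (by positivity) (by norm_num)
  refine Real.rpow_le_rpow_of_exponent_le (by norm_num) ?_
  have : (k' : ℝ) + 1 ≤ 3 * (k + 1) := by exact_mod_cast hk'
  have h9 := mul_le_mul_of_nonneg_left this ht.le
  (clear * - h9; linarith)

theorem red : Red := by
  intro S
  set K0 : ℕ := max (S.K + 1) ⌈4 / S.tau⌉₊ with hK0
  refine ⟨K0, ?_⟩
  intro k0 hk0 k hk j hj Q A
  have ht := S.tau_pos
  have hk01 : 1 ≤ k0 := by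
    have : S.K + 1 ≤ K0 := le_max_left _ _
    omega
  have hk0K : S.K ≤ k0 := by
    have : S.K + 1 ≤ K0 := le_max_left _ _
    omega
  have hk0t : 4 / S.tau ≤ k0 := by
    calc 4 / S.tau ≤ (⌈4 / S.tau⌉₊ : ℝ) := Nat.le_ceil _
      _ ≤ K0 := by exact_mod_cast le_max_right _ _
      _ ≤ k0 := by exact_mod_cast hk0
  have hk0r : (0 : ℝ) < k0 := by exact_mod_cast hk01
  have hkr : (k0 : ℝ) ≤ k := by exact_mod_cast hk
  have hk0t' : 4 ≤ S.tau * k0 := by rw [div_le_iff₀ ht] at hk0t; (clear * - hk0t; linarith)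
  unfold Sys.LP LS
  rw [Finset.mul_sum]
  refine Finset.sum_le_sum fun n hn => ?_
  rw [Finset.mul_sum]
  refine Finset.sum_le_sum fun k' hk' => ?_
  rw [Finset.mul_sum]
  refine Finset.sum_le_sum fun j' hj' => ?_
  rw [Finset.mem_filter] at hn
  obtain ⟨hncell, hrough⟩ := hn
  have hnge := cell_ge hncell
  have hnlt := cell_lt S.d_pos hj hncell
  have hn0 : n ≠ 0 := by
    have : 0 < 2 ^ k := by positivity
    omega
  unfold Sys.hvy at hk'
  rw [Finset.mem_Ico] at hk'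
  have hk'K : S.K ≤ k' := by
    have := (le_max_left k0 ⌈S.kap * k⌉₊).trans hk'.1
    omega
  -- compare termwise
  have hinner : ∀ x ∈ (S.Cand k' j').filter (fun x => x.1 ∣ n ∧ Q (k', j') n x),
      ∑ D ∈ (n / x.1).primeFactors.powerset.filter (fun D => A ⊆ x.2.primeFactors ∪ D),
        S.wd k' x.2 * S.Fe D (n / x.1) * S.pc A (x.2.primeFactors ∪ D) ≤
      if A ⊆ x.2.primeFactors ∪ (n / x.1).primeFactors then
        (2 : ℝ) ^ (20 * S.tau * k) * (2 : ℝ) ^ ((S.s - 1) * k) * tw S A x.2 (n / x.1) else 0 := by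
    intro x hx
    rw [Finset.mem_filter] at hx
    obtain ⟨hxC, hxn, _⟩ := hx
    obtain ⟨hq, hsq, hcop, hm1, hxcell, hge, hlt, _, _⟩ := S.cand_facts hk'K hj' hxC
    set l := n / x.1 with hl
    have hql : x.1 * l = n := Nat.mul_div_cancel' hxn
    have hl0 : l ≠ 0 := by
      rintro h0
      rw [h0, mul_zero] at hql
      exact hn0 hql.symm
    split_ifs with hA
    · -- each D
      have hterm : ∀ D ∈ l.primeFactors.powerset.filter (fun D => A ⊆ x.2.primeFactors ∪ D),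
          S.wd k' x.2 * S.Fe D l * S.pc A (x.2.primeFactors ∪ D) ≤
          2 * (2 : ℝ) ^ (9 * S.tau * (k + 1)) * (2 : ℝ) ^ ((S.s - 1) * k) * 2 ^ l.primeFactorsList.length *
            tw S A x.2 l := by
        intro D hD
        rw [Finset.mem_filter, Finset.mem_powerset] at hD
        have h1 := Fe_bound S D (A ∪ x.2.primeFactors) hl0 hD.1
        rw [pc_eq S hsq]
        have h2 := level_bound S (k := k) (k' := k') (q := x.1) (m := x.2) (l := l) hq.one_le hm1.le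
          (Nat.one_le_iff_ne_zero.2 hl0) hlt (by rw [hql]; exact hnge) (by rw [hql]; exact hnlt) hk'.2
        have h3 : tw S A x.2 l = ((mA A x.2 : ℝ) / x.2) ^ S.hh * (sig (A ∪ x.2.primeFactors) l : ℝ) ^ S.hh := by
          unfold tw
          rw [Real.mul_rpow (by (clear * - hm1; positivity)) (Nat.cast_nonneg _)]
        rw [h3]
        have hwd := S.wd_nonneg k' x.2
        calc S.wd k' x.2 * S.Fe D l * (((mA A x.2 : ℝ) / x.2) ^ S.hh *
                ∏ p ∈ D \ (A ∪ x.2.primeFactors), S.pr p)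
            = S.wd k' x.2 * (S.Fe D l * ∏ p ∈ D \ (A ∪ x.2.primeFactors), S.pr p) *
                ((mA A x.2 : ℝ) / x.2) ^ S.hh := by ring
          _ ≤ S.wd k' x.2 * (2 ^ l.primeFactorsList.length * (l : ℝ) ^ (S.s - 1 + 6 * S.tau) *
                (sig (A ∪ x.2.primeFactors) l : ℝ) ^ S.hh) * ((mA A x.2 : ℝ) / x.2) ^ S.hh :=
              mul_le_mul_of_nonneg_right (mul_le_mul_of_nonneg_left h1 hwd) (by (clear * - hm1; positivity))
          _ = (S.wd k' x.2 * (l : ℝ) ^ (S.s - 1 + 6 * S.tau)) * (2 ^ l.primeFactorsList.length *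
                (((mA A x.2 : ℝ) / x.2) ^ S.hh * (sig (A ∪ x.2.primeFactors) l : ℝ) ^ S.hh)) := by ring
          _ ≤ (2 * (2 : ℝ) ^ (9 * S.tau * (k + 1)) * (2 : ℝ) ^ ((S.s - 1) * k)) *
                (2 ^ l.primeFactorsList.length *
                (((mA A x.2 : ℝ) / x.2) ^ S.hh * (sig (A ∪ x.2.primeFactors) l : ℝ) ^ S.hh)) :=
              mul_le_mul_of_nonneg_right h2 (by (clear * - hm1; positivity))
          _ = _ := by ring
      have htw0 : 0 ≤ tw S A x.2 l := by unfold tw; (clear * - hm1; positivity)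
      refine (Finset.sum_le_card_nsmul _ _ _ hterm).trans ?_
      rw [nsmul_eq_mul]
      have hcard : (((l.primeFactors.powerset.filter (fun D => A ⊆ x.2.primeFactors ∪ D)).card : ℕ) : ℝ) ≤
          2 ^ l.primeFactorsList.length := by
        have h1 : (l.primeFactors.powerset.filter (fun D => A ⊆ x.2.primeFactors ∪ D)).card ≤
            2 ^ l.primeFactorsList.length := by
          refine (Finset.card_filter_le _ _).trans ?_
          rw [Finset.card_powerset]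
          exact Nat.pow_le_pow_right (by norm_num) (List.toFinset_card_le _)
        exact_mod_cast h1
      have hlrough : Sys.rough k0 l := fun p hp hpl => hrough p hp (hpl.trans (Nat.div_dvd_of_dvd hxn))
      have hll : l < 2 ^ (k + 1) := (Nat.div_le_self _ _).trans_lt hnlt
      have hom := Sys.rough_omega_le hk01 hl0 hlrough hll
      have hom2 : (l.primeFactorsList.length : ℝ) ≤ 5 / 2 * S.tau * k := by
        refine hom.trans ?_
        rw [div_le_iff₀ hk0r]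
        have h1 : (k : ℝ) + 1 ≤ 2 * k := by
          have : (1 : ℝ) ≤ k := by
            have : (1 : ℝ) ≤ k0 := by exact_mod_cast hk01
            (clear * - hkr this; linarith)
          (clear * - this; linarith)
        have hk1 : (0 : ℝ) ≤ k := Nat.cast_nonneg k
        calc 5 * ((k : ℝ) + 1) ≤ 10 * k := by (clear * - h1; linarith)
          _ = 5 / 2 * 4 * k := by ring
          _ ≤ 5 / 2 * (S.tau * k0) * k := mul_le_mul_of_nonneg_right (by (clear * - hk0t'; linarith)) hk1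
          _ = 5 / 2 * S.tau * k * k0 := by ring
      have hpow : (2 : ℝ) ^ l.primeFactorsList.length ≤ (2 : ℝ) ^ (5 / 2 * S.tau * k) := by
        rw [← Real.rpow_natCast]
        exact Real.rpow_le_rpow_of_exponent_le (by norm_num) hom2
      have hfin : (2 : ℝ) ^ l.primeFactorsList.length * (2 * (2 : ℝ) ^ (9 * S.tau * (k + 1)) *
          2 ^ l.primeFactorsList.length) ≤ (2 : ℝ) ^ (20 * S.tau * k) := by
        calc (2 : ℝ) ^ l.primeFactorsList.length * (2 * (2 : ℝ) ^ (9 * S.tau * (k + 1)) *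
              2 ^ l.primeFactorsList.length)
            ≤ (2 : ℝ) ^ (5 / 2 * S.tau * k) * (2 * (2 : ℝ) ^ (9 * S.tau * (k + 1)) *
              (2 : ℝ) ^ (5 / 2 * S.tau * k)) := by
              refine mul_le_mul hpow ?_ (by positivity) (by positivity)
              exact mul_le_mul_of_nonneg_left hpow (by positivity)
          _ = (2 : ℝ) ^ (5 / 2 * S.tau * k + (1 + 9 * S.tau * (k + 1) + 5 / 2 * S.tau * k)) := by
              rw [Real.rpow_add (by norm_num), Real.rpow_add (by norm_num) (1 + 9 * S.tau * (k + 1)),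
                Real.rpow_add (by norm_num) (1 : ℝ), Real.rpow_one]
          _ ≤ (2 : ℝ) ^ (20 * S.tau * k) := by
              clear * - hk0t' ht hkr; refine Real.rpow_le_rpow_of_exponent_le (by norm_num) ?_
              have h1 : 4 ≤ S.tau * k := hk0t'.trans (mul_le_mul_of_nonneg_left hkr ht.le)
              have h2 : S.tau ≤ 1 / 100 := by
                have := S.tau_le_s
                have := S.s_lt
                norm_num at *
                linarith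
              (clear * - ht h1 h2; linarith)
      calc (((l.primeFactors.powerset.filter (fun D => A ⊆ x.2.primeFactors ∪ D)).card : ℕ) : ℝ) *
            (2 * (2 : ℝ) ^ (9 * S.tau * (k + 1)) * (2 : ℝ) ^ ((S.s - 1) * k) * 2 ^ l.primeFactorsList.length *
            tw S A x.2 l)
          ≤ 2 ^ l.primeFactorsList.length *
            (2 * (2 : ℝ) ^ (9 * S.tau * (k + 1)) * (2 : ℝ) ^ ((S.s - 1) * k) * 2 ^ l.primeFactorsList.length *
            tw S A x.2 l) := mul_le_mul_of_nonneg_right hcard (by clear * - htw0; positivity)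
        _ = ((2 : ℝ) ^ l.primeFactorsList.length * (2 * (2 : ℝ) ^ (9 * S.tau * (k + 1)) *
              2 ^ l.primeFactorsList.length)) * ((2 : ℝ) ^ ((S.s - 1) * k) * tw S A x.2 l) := by ring
        _ ≤ (2 : ℝ) ^ (20 * S.tau * k) * ((2 : ℝ) ^ ((S.s - 1) * k) * tw S A x.2 l) :=
            mul_le_mul_of_nonneg_right hfin (by (clear * - htw0; positivity))
        _ = _ := by ring
    · -- no D
      rw [Finset.sum_eq_zero]
      intro D hD
      rw [Finset.mem_filter, Finset.mem_powerset] at hD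
      exact absurd (hD.2.trans (Finset.union_subset_union_right hD.1)) hA
  refine (Finset.sum_le_sum hinner).trans ?_
  rw [← Finset.sum_filter, Finset.filter_filter, Finset.mul_sum]
  refine le_of_eq (Finset.sum_congr ?_ fun _ _ => rfl)
  refine Finset.filter_congr fun x _ => ?_
  simp only [and_assoc]

end Pool.Agent.M20.Helper18.KL
end

/- Helper53.KN.Helper30.QRH.BadCells -/
section
/-! Project QRH (MP_768c9c_nt), Part A6: few cells without primes. -/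

set_option autoImplicit false
open Filter Topology MeasureTheory Finset
open scoped ArithmeticFunction.vonMangoldt

namespace Pool.Agent.M20.Helper30.QRH


lemma card_diam {l : ℕ} (X : Finset ℕ) (hd : ∀ x ∈ X, ∀ y ∈ X, x ≤ y + l) : X.card ≤ l + 1 := by
  rcases X.eq_empty_or_nonempty with h | h
  · simp [h]
  · set a := X.min' h with ha
    have hamem : a ∈ X := X.min'_mem h
    have hsub : X ⊆ Icc a (a + l) := by
      intro x hx
      rw [mem_Icc]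
      exact ⟨X.min'_le x hx, hd x hx a hamem⟩
    calc X.card ≤ (Icc a (a + l)).card := card_le_card hsub
      _ = l + 1 := by rw [Nat.card_Icc]; omega

/-- `a`-th powers in a short interval -/
lemma pow_count (y H D a : ℕ) (ha : 2 ≤ a) (hD : 0 < D) (hDy : D * D ≤ y) (T : Finset ℕ)
    (hT : ∀ m ∈ T, y ≤ m ^ a ∧ m ^ a < y + H) : T.card ≤ H / D + 1 := by
  apply card_diam
  intro x hx z hz
  by_contra hc
  push Not at hc
  have hzx : z < x := lt_of_le_of_lt (Nat.le_add_right _ _) hc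
  have h1 := hT x hx
  have h2 := hT z hz
  obtain ⟨b, rfl⟩ : ∃ b, a = b + 1 := ⟨a - 1, by omega⟩
  have hx0 : 0 < x := by omega
  have h3 : D ≤ x ^ b := by
    by_contra hlt
    push Not at hlt
    have h4 : x ^ (b + 1) ≤ x ^ b * x ^ b := by
      rw [pow_succ]
      exact Nat.mul_le_mul_left _ (Nat.le_self_pow (by omega) x)
    have h5 : x ^ b * x ^ b < D * D := Nat.mul_lt_mul_of_lt_of_le hlt hlt.le hD
    omega
  have h6 : z ^ (b + 1) + (x - z) * x ^ b ≤ x ^ (b + 1) := by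
    have h7 : z ^ (b + 1) ≤ z * x ^ b := by
      rw [pow_succ, mul_comm]
      exact Nat.mul_le_mul_left _ (Nat.pow_le_pow_left hzx.le b)
    have h8 : z * x ^ b + (x - z) * x ^ b = x ^ (b + 1) := by
      rw [← add_mul, pow_succ, mul_comm]
      congr 1
      omega
    omega
  have h9 : (x - z) * D ≤ (x - z) * x ^ b := Nat.mul_le_mul_left _ h3
  have h10 : (x - z) * D ≤ H := by omega
  have h11 : x - z ≤ H / D := (Nat.le_div_iff_mul_le hD).2 h10
  omega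

/-- proper prime powers in a short interval -/
lemma ppow_count (k y H D : ℕ) (hD : 0 < D) (hDy : D * D ≤ y)
    (hy2 : y + H ≤ 2 ^ (k + 1)) :
    ((Ico y (y + H)).filter (fun n => IsPrimePow n ∧ ¬ n.Prime)).card ≤ k * (H / D + 1) := by
  classical
  have hsub : (Ico y (y + H)).filter (fun n => IsPrimePow n ∧ ¬ n.Prime) ⊆
      (Icc 2 k).biUnion (fun a => ((range (2 ^ (k + 1))).filter
        (fun m => y ≤ m ^ a ∧ m ^ a < y + H)).image (fun m => m ^ a)) := by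
    intro n hn
    rw [mem_filter, mem_Ico] at hn
    obtain ⟨⟨hn1, hn2⟩, hpp, hnp⟩ := hn
    rw [isPrimePow_nat_iff] at hpp
    obtain ⟨p, a, hp, ha, rfl⟩ := hpp
    have ha2 : 2 ≤ a := by
      by_contra hc
      have : a = 1 := by omega
      subst this
      rw [pow_one] at hnp
      exact hnp hp
    have h1 : 2 ^ a ≤ p ^ a := Nat.pow_le_pow_left hp.two_le a
    have h2 : 2 ^ a < 2 ^ (k + 1) := by omega
    have h3 : a < k + 1 := (Nat.pow_lt_pow_iff_right (by norm_num)).1 h2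
    have h4 : p ≤ p ^ a := Nat.le_self_pow (by omega) p
    simp only [mem_biUnion, mem_Icc, mem_image, mem_filter, mem_range]
    exact ⟨a, ⟨ha2, by omega⟩, p, ⟨by omega, hn1, hn2⟩, rfl⟩
  refine (card_le_card hsub).trans (card_biUnion_le.trans ?_)
  have hb : ∀ a ∈ Icc 2 k, (((range (2 ^ (k + 1))).filter
        (fun m => y ≤ m ^ a ∧ m ^ a < y + H)).image (fun m => m ^ a)).card ≤ H / D + 1 := by
    intro a ha
    rw [mem_Icc] at ha
    refine card_image_le.trans (pow_count y H D a ha.1 hD hDy _ ?_)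
    intro m hm
    exact (mem_filter.1 hm).2
  refine (sum_le_sum hb).trans ?_
  rw [sum_const, Nat.card_Icc, smul_eq_mul]
  exact Nat.mul_le_mul_right _ (by omega)

/-- the sum of `Λ` over a bad cell -/
lemma cell_sum (k y H D : ℕ) (hD : 0 < D) (hDy : D * D ≤ y)
    (hy2 : y + H ≤ 2 ^ (k + 1)) (π : ℝ)
    (hπ : ((((Ico y (y + H)).filter Nat.Prime).card : ℕ) : ℝ) ≤ π) :
    ∑ n ∈ Ico y (y + H), Λ n ≤ ((k + 1) * Real.log 2) * (π + k * (H / D + 1)) := by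
  classical
  have h1 : ∀ n ∈ Ico y (y + H), Λ n ≤ if IsPrimePow n then ((k : ℝ) + 1) * Real.log 2 else 0 := by
    intro n hn
    rw [mem_Ico] at hn
    split_ifs with h
    · refine ArithmeticFunction.vonMangoldt_le_log.trans ?_
      have h2 : (n : ℝ) ≤ 2 ^ (k + 1) := by exact_mod_cast (by omega : n ≤ 2 ^ (k + 1))
      have hn0 : (0 : ℝ) < n := by exact_mod_cast h.pos
      refine (Real.log_le_log hn0 h2).trans (le_of_eq ?_)
      rw [Real.log_pow]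
      push_cast
      ring
    · exact (ArithmeticFunction.vonMangoldt_eq_zero_iff.2 h).le
  refine (sum_le_sum h1).trans ?_
  rw [← sum_filter, sum_const, nsmul_eq_mul, mul_comm]
  have hlog : 0 ≤ ((k : ℝ) + 1) * Real.log 2 := by positivity
  apply mul_le_mul_of_nonneg_left _ hlog
  have h3 : ((Ico y (y + H)).filter IsPrimePow).card ≤ ((Ico y (y + H)).filter Nat.Prime).card +
      ((Ico y (y + H)).filter (fun n => IsPrimePow n ∧ ¬ n.Prime)).card := by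
    have : (Ico y (y + H)).filter IsPrimePow ⊆ (Ico y (y + H)).filter Nat.Prime ∪
        (Ico y (y + H)).filter (fun n => IsPrimePow n ∧ ¬ n.Prime) := by
      intro n hn
      rw [mem_filter] at hn
      rw [mem_union, mem_filter, mem_filter]
      by_cases hp : n.Prime
      · exact Or.inl ⟨hn.1, hp⟩
      · exact Or.inr ⟨hn.1, hn.2, hp⟩
    exact (card_le_card this).trans (card_union_le _ _)
  have h4 := ppow_count k y H D hD hDy hy2
  have h5 : (((Ico y (y + H)).filter IsPrimePow).card : ℝ) ≤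
      ((((Ico y (y + H)).filter Nat.Prime).card : ℕ) : ℝ) + ((k * (H / D + 1) : ℕ) : ℝ) := by
    exact_mod_cast h3.trans (Nat.add_le_add_left h4 _)
  have h6 : ((k * (H / D + 1) : ℕ) : ℝ) ≤ k * ((H : ℝ) / D + 1) := by
    push_cast
    apply mul_le_mul_of_nonneg_left _ (Nat.cast_nonneg k)
    have : ((H / D : ℕ) : ℝ) ≤ (H : ℝ) / D := Nat.cast_div_le
    linarith
  linarith

lemma log_gap {a b : ℝ} (ha : 0 < a) (hab : a ≤ b) : (b - a) / b ≤ Real.log b - Real.log a := by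
  have hb : 0 < b := lt_of_lt_of_le ha hab
  have h1 := Real.one_sub_inv_le_log_of_pos (x := b / a) (by positivity)
  rw [Real.log_div hb.ne' ha.ne', inv_div] at h1
  refine le_trans (le_of_eq ?_) h1
  field_simp

end Pool.Agent.M20.Helper30.QRH
end

/- Helper53.KN.Helper61.KS.Pt -/
section
/-!
# Project KS: pointwise bounds (`WoLe`, `OrdLe`, `CtlLe`, `WpLe`)
-/

set_option autoImplicit false
set_option linter.all false
open scoped Classical
open Filter Topology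

namespace Pool.Agent.M20.Helper61.KS

open Pool.Agent.M20.Helper16.KS Pool.Agent.M20.Helper16.KS.Sys

variable (S : Sys)

theorem c_pos : 0 < S.c := by
  have h1 := S.d_pos
  have h2 := S.d_le
  have h3 : 0 < S.c / 10 ^ 5 := lt_of_lt_of_le h1 h2
  by_contra h
  have : S.c / 10 ^ 5 ≤ 0 := div_nonpos_of_nonpos_of_nonneg (not_lt.1 h) (by positivity)
  (clear * - h1 h2 h; linarith)

theorem eta_pos : 0 < S.eta := by
  have h1 := c_pos S
  have h2 := S.c_le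
  (clear * - h1 h2; linarith)

theorem c_le' : S.c ≤ 0.006 := by
  have h1 := S.c_le
  have h2 := S.eta_le
  have h3 := S.del_le
  have h4 : S.eta ≤ 3/50 := h2.trans h3
  (clear * - h1 h2 h3; linarith)

theorem d_le' : S.d ≤ 0.006 / 10 ^ 5 := by
  have h1 := S.d_le
  have h2 := c_le' S
  calc S.d ≤ S.c / 10 ^ 5 := h1
    _ ≤ 0.006 / 10 ^ 5 := div_le_div_of_nonneg_right h2 (by norm_num)

theorem s_pos : 0 < S.s := by
  have := S.d_pos
  unfold Sys.s
  linarith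

theorem s_lt : S.s < 1/100 := by
  have h := d_le' S
  unfold Sys.s
  norm_num at h ⊢
  linarith

theorem ep_pos : 0 < S.ep := by
  unfold Sys.ep
  exact mul_pos (mul_pos (c_pos S) (eta_pos S)) S.d_pos

theorem tau_pos : 0 < S.tau := by
  unfold Sys.tau
  exact div_pos (ep_pos S) (by positivity)

theorem tau_lt : S.tau < 1/1000 := by
  have h1 := c_le' S
  have h2 := d_le' S
  have h3 : S.eta ≤ 3/50 := S.eta_le.trans S.del_le
  have h4 := S.d_pos
  have h5 := c_pos S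
  have h6 := eta_pos S
  unfold Sys.tau Sys.ep
  have h7 : S.c * S.eta * S.d ≤ 0.006 * (3/50) * (0.006 / 10 ^ 5) :=
    mul_le_mul (mul_le_mul h1 h3 h6.le (by norm_num)) h2 h4.le (by norm_num)
  have h8 : S.c * S.eta * S.d / 10 ^ 4 ≤ 0.006 * (3/50) * (0.006 / 10 ^ 5) / 10 ^ 4 :=
    div_le_div_of_nonneg_right h7 (by norm_num)
  refine lt_of_le_of_lt h8 ?_
  norm_num

theorem ec_le (k : ℕ) : ec S.d k ≤ k := by
  unfold ec
  refine Nat.floor_le_of_le ?_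
  have h := S.d_pos
  have hk : (0 : ℝ) ≤ k := Nat.cast_nonneg k
  exact mul_le_of_le_one_right hk (by linarith)

theorem pr_mul_base (m : ℕ) (hm : 1 ≤ m) : S.pr m * S.base m = (m : ℝ) ^ (-(1 - S.s + S.tau)) := by
  have hm' : (0 : ℝ) < m := by exact_mod_cast hm
  unfold Sys.pr Sys.base
  rw [← Real.rpow_add hm']
  congr 1
  unfold Sys.hh
  ring

theorem pr_pos {m : ℕ} (hm : 1 ≤ m) : 0 < S.pr m := by
  have hm' : (0 : ℝ) < m := by exact_mod_cast hm
  exact Real.rpow_pos_of_pos hm' _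

theorem base_pos {m : ℕ} (hm : 1 ≤ m) : 0 < S.base m := by
  have hm' : (0 : ℝ) < m := by exact_mod_cast hm
  exact Real.rpow_pos_of_pos hm' _

theorem base_nonneg (m : ℕ) : 0 ≤ S.base m := Real.rpow_nonneg (Nat.cast_nonneg m) _

theorem wd_eq (k m : ℕ) (hm : 1 ≤ m) :
    S.wd k m = (2 : ℝ) ^ ((S.s - 1) * k) / (S.pr m * S.base m) := by
  have hm' : (0 : ℝ) < m := by exact_mod_cast hm
  rw [pr_mul_base S m hm, Real.rpow_neg hm'.le, div_inv_eq_mul]
  rfl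

theorem mem_badc {k j : ℕ} : j ∈ S.badc k ↔ j < nc S.d k ∧ S.bad k j := by
  simp [Sys.badc]

theorem card_ge {k j : ℕ} (hk : S.K ≤ k) (hj : j ∈ S.badc k) :
    S.c1 * 2 ^ ec S.d k / k ^ 2 ≤ ((S.Cand k j).card : ℝ) :=
  S.many k hk j ((mem_badc S).1 hj).1 ((mem_badc S).1 hj).2

theorem card_pos {k j : ℕ} (hk : S.K ≤ k) (hj : j ∈ S.badc k) :
    (0 : ℝ) < ((S.Cand k j).card : ℝ) := by
  refine lt_of_lt_of_le ?_ (card_ge S hk hj)
  have h1 : 0 < S.c1 := S.c1_pos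
  have h2 : (0 : ℝ) < k := by
    have := S.K_pos
    exact_mod_cast lt_of_lt_of_le this hk
  (clear * - h1 h2; positivity)

theorem NN_pos {k0 : ℕ} {R : Set ℕ} (hG : S.Good k0 R) {k j : ℕ} (hk0 : k0 ≤ k) (hk : S.K ≤ k)
    (hj : j ∈ S.badc k) : 0 < S.NN R k j := by
  have h1 := hG.lower k hk0 j hj
  have h2 := card_pos S hk hj
  (clear * - h1 h2; linarith)

/-- pointwise bound of `wo` -/
theorem wo_le' {k0 : ℕ} {R : Set ℕ} (hG : S.Good k0 R) {k j : ℕ} (hk0 : k0 ≤ k) (hk : S.K ≤ k)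
    (hj : j ∈ S.badc k) {m : ℕ} (hm : 1 ≤ m) :
    0 ≤ S.wo R k j m ∧ S.wo R k j m ≤ (2 / S.c1) / (k : ℝ) ^ 2 * S.wd k m := by
  have hk1 : (0 : ℝ) < k := by
    have := S.K_pos
    exact_mod_cast lt_of_lt_of_le this hk
  have h1 := hG.lower k hk0 j hj
  have h2 := card_ge S hk hj
  have h3 : S.c1 * 2 ^ ec S.d k / (2 * (k : ℝ) ^ 2) ≤ S.NN R k j := by
    have : S.c1 * 2 ^ ec S.d k / (2 * (k : ℝ) ^ 2) = S.c1 * 2 ^ ec S.d k / k ^ 2 / 2 := by
      (clear * - hk1; field_simp)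
    rw [this]
    (clear * - h1 h2; linarith)
  have hN : 0 < S.NN R k j := NN_pos S hG hk0 hk hj
  have hp := pr_pos S hm
  have hb := base_pos S hm
  have hc1 := S.c1_pos
  have hG0 : 0 ≤ S.G k := by
    unfold Sys.G
    (clear * - hk1; positivity)
  refine ⟨?_, ?_⟩
  · unfold Sys.wo
    exact div_nonneg hG0 (by (clear * - hN hp hb; positivity))
  · rw [wd_eq S k m hm]
    unfold Sys.wo
    have h4 : S.NN R k j * S.pr m * S.base m = S.NN R k j * (S.pr m * S.base m) := by ring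
    rw [h4]
    have h5 : S.G k / (S.NN R k j * (S.pr m * S.base m)) ≤
        S.G k / (S.c1 * 2 ^ ec S.d k / (2 * (k : ℝ) ^ 2) * (S.pr m * S.base m)) := by
      apply div_le_div_of_nonneg_left hG0
      · positivity
      · exact mul_le_mul_of_nonneg_right h3 (by positivity)
    refine h5.trans (le_of_eq ?_)
    unfold Sys.G
    field_simp

theorem woLe : WoLe := by
  intro S
  refine ⟨S.K, fun k0 hk0 R hG k hk j hj m hm => ?_⟩
  exact wo_le' S hG hk (hk0.trans hk) hj hm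

theorem rpow_s_le {k : ℕ} {n : ℕ} (hn : 1 ≤ n) (h : n < 2 ^ (k + 1)) :
    (2 : ℝ) ^ ((S.s - 1) * k) ≤ 2 * (n : ℝ) ^ (S.s - 1) := by
  have hs := s_pos S
  have hs1 := s_lt S
  have hn' : (0 : ℝ) < n := by exact_mod_cast hn
  have h1 : (n : ℝ) ≤ (2 : ℝ) ^ (k + 1) := by exact_mod_cast h.le
  have h2 : ((2 : ℝ) ^ (k + 1)) ^ (S.s - 1) ≤ (n : ℝ) ^ (S.s - 1) :=
    Real.rpow_le_rpow_of_nonpos hn' h1 (by (clear * - hs hs1; linarith))
  have h3 : ((2 : ℝ) ^ (k + 1)) ^ (S.s - 1) = (2 : ℝ) ^ ((S.s - 1) * k) * 2 ^ (S.s - 1) := by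
    rw [← Real.rpow_natCast, ← Real.rpow_mul (by norm_num), ← Real.rpow_add (by norm_num)]
    congr 1
    push_cast
    ring
  have h4 : (1/2 : ℝ) ≤ 2 ^ (S.s - 1) := by
    have : (2 : ℝ) ^ (-1 : ℝ) ≤ 2 ^ (S.s - 1) :=
      Real.rpow_le_rpow_of_exponent_le (by norm_num) (by (clear * - hs; linarith))
    rw [Real.rpow_neg_one] at this
    norm_num at this ⊢
    (clear * - this; linarith)
  have h5 : (0 : ℝ) < (2 : ℝ) ^ ((S.s - 1) * k) := Real.rpow_pos_of_pos (by norm_num) _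
  rw [h3] at h2
  have h6 := mul_le_mul_of_nonneg_left h4 h5.le
  (clear * - h2 h6; linarith)

/-! ### ordinary weights -/

theorem log2_le (p : ℕ) (hp : 2 ≤ p) : Real.log p ≤ 2 * (Nat.log 2 p : ℝ) := by
  have h1 : p < 2 ^ (Nat.log 2 p + 1) := Nat.lt_pow_succ_log_self (by norm_num) p
  have h2 : (p : ℝ) ≤ (2 : ℝ) ^ (Nat.log 2 p + 1) := by exact_mod_cast h1.le
  have h3 : Real.log p ≤ (Nat.log 2 p + 1 : ℕ) * Real.log 2 := by
    rw [← Real.log_pow]
    exact Real.log_le_log (by positivity) h2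
  have h4 : Real.log 2 < 1 := by
    have := Real.log_two_lt_d9
    (clear * - this; linarith)
  have h5 : 1 ≤ Nat.log 2 p := Nat.log_pos (by norm_num) hp
  have h6 : (1 : ℝ) ≤ Nat.log 2 p := by exact_mod_cast h5
  have h7 : (0 : ℝ) < Real.log 2 := Real.log_pos (by norm_num)
  push_cast at h3
  have h8 := mul_le_of_le_one_right (add_nonneg (zero_le_one.trans h6) zero_le_one) h4.le
  (clear * - h8 h6 h3; linarith)

theorem idx_lt {n k : ℕ} (h1 : 2 ^ k ≤ n) (h2 : n < 2 ^ (k + 1)) :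
    S.idx n < nc S.d k := by
  have hlog : Nat.log 2 n = k := Nat.log_eq_of_pow_le_of_lt_pow h1 h2
  unfold Sys.idx nc
  rw [hlog]
  have h3 : n - 2 ^ k < 2 ^ k := by
    have : 2 ^ (k + 1) = 2 ^ k + 2 ^ k := by ring
    omega
  rw [Nat.div_lt_iff_lt_mul (by positivity), ← pow_add]
  have h4 : k - ec S.d k + ec S.d k = k := Nat.sub_add_cancel (ec_le S k)
  rw [h4]
  exact h3

theorem ordLe : OrdLe := by
  intro S
  refine ⟨16 / S.c1, max S.K 2, fun k0 hk0 p hp => ?_⟩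
  have hK : S.K ≤ k0 := (le_max_left _ _).trans hk0
  have h2k : 2 ≤ k0 := (le_max_right _ _).trans hk0
  have hc1 := S.c1_pos
  have hc1' := S.c1_le
  have hs := s_pos S
  have hs1 := s_lt S
  have hp2 : 2 ≤ p := hp.two_le
  have hp0 : (0 : ℝ) < p := by exact_mod_cast hp.pos
  have hlogp : 0 < Real.log p := Real.log_pos (by exact_mod_cast hp.one_lt)
  have hC : (16 : ℝ) ≤ 16 / S.c1 := by
    rw [le_div_iff₀ hc1]
    (clear * - hc1'; linarith)
  have hrhs : 0 ≤ 16 / S.c1 * ((p : ℝ) ^ (S.s - 1) / Real.log p ^ 3) := by (clear * - hc1 hp2 hlogp; positivity)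
  unfold Sys.ordw
  split_ifs with h1 h2 h3
  · exact ⟨le_rfl, hrhs⟩
  · -- initial block
    have hk0' : (0 : ℝ) < k0 := by
      have : 0 < k0 := by omega
      exact_mod_cast this
    have h4 : Real.log p ≤ k0 := by
      have h5 : (p : ℝ) ≤ (2 : ℝ) ^ k0 := by exact_mod_cast h2.le
      have h6 : Real.log p ≤ (k0 : ℝ) * Real.log 2 := by
        rw [← Real.log_pow]
        exact Real.log_le_log hp0 h5
      have h7 : Real.log 2 < 1 := by
        have := Real.log_two_lt_d9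
        (clear * - hs hs1 this; linarith)
      exact h6.trans (mul_le_of_le_one_right hk0'.le h7.le)
    have h5 : (2 : ℝ) ^ ((S.s - 1) * k0) ≤ (p : ℝ) ^ (S.s - 1) := by
      have h6 : (p : ℝ) ≤ (2 : ℝ) ^ k0 := by exact_mod_cast h2.le
      have h7 : ((2 : ℝ) ^ k0) ^ (S.s - 1) ≤ (p : ℝ) ^ (S.s - 1) :=
        Real.rpow_le_rpow_of_nonpos hp0 h6 (by (clear * - hs hs1; linarith))
      rw [← Real.rpow_natCast, ← Real.rpow_mul (by norm_num)] at h7
      rw [mul_comm]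
      exact h7
    unfold Sys.phi0
    refine ⟨by (clear * - h2k; positivity), ?_⟩
    calc (2 : ℝ) ^ ((S.s - 1) * k0) / k0 ^ 3 ≤ (p : ℝ) ^ (S.s - 1) / Real.log p ^ 3 :=
          div_le_div₀ (Real.rpow_nonneg hp0.le _) h5 (pow_pos hlogp 3)
            (pow_le_pow_left₀ hlogp.le h4 3)
      _ ≤ 16 / S.c1 * ((p : ℝ) ^ (S.s - 1) / Real.log p ^ 3) := by
          refine le_mul_of_one_le_left (by (clear * - hp2 hlogp; positivity)) ?_
          (clear * - hs hs1 hC; linarith)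
  · exact ⟨le_rfl, hrhs⟩
  · set k := Nat.log 2 p with hk
    have hkp : 2 ^ k ≤ p := Nat.pow_log_le_self 2 (by omega)
    have hkp2 : p < 2 ^ (k + 1) := Nat.lt_pow_succ_log_self (by norm_num) p
    have hk0k : k0 ≤ k := by
      have : 2 ^ k0 ≤ p := not_lt.1 h2
      exact (Nat.le_log_iff_pow_le (by norm_num) (by omega)).2 this
    have hkpos : (0 : ℝ) < k := by
      have : 0 < k := by omega
      exact_mod_cast this
    have hj := idx_lt S hkp hkp2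
    have hgood := S.good k (hK.trans hk0k) _ hj h3
    have hn : 0 < S.c1 * 2 ^ ec S.d k / k := by (clear * - hc1 hkpos; positivity)
    have hG0 : 0 ≤ S.G k := by
      unfold Sys.G
      (clear * - hkpos; positivity)
    refine ⟨div_nonneg hG0 (hn.le.trans hgood), ?_⟩
    have h5 : S.G k / npr S.d k (S.idx p) ≤ S.G k / (S.c1 * 2 ^ ec S.d k / k) :=
      div_le_div_of_nonneg_left hG0 hn hgood
    have h6 : S.G k / (S.c1 * 2 ^ ec S.d k / k) = (2 : ℝ) ^ ((S.s - 1) * k) / (S.c1 * k ^ 3) := by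
      unfold Sys.G
      field_simp
    have h7 := rpow_s_le S (by omega : 1 ≤ p) hkp2
    have h8 : Real.log p ≤ 2 * k := log2_le p hp2
    have h9 : Real.log p ^ 3 ≤ 8 * (k : ℝ) ^ 3 := by
      calc Real.log p ^ 3 ≤ (2 * k : ℝ) ^ 3 := pow_le_pow_left₀ hlogp.le h8 3
        _ = 8 * (k : ℝ) ^ 3 := by ring
    refine h5.trans ?_
    rw [h6]
    calc (2 : ℝ) ^ ((S.s - 1) * k) / (S.c1 * k ^ 3) ≤
        2 * (p : ℝ) ^ (S.s - 1) / (S.c1 * k ^ 3) :=
          div_le_div_of_nonneg_right h7 (mul_pos hc1 (pow_pos hkpos 3)).le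
      _ = 16 / S.c1 * ((p : ℝ) ^ (S.s - 1) / (8 * (k : ℝ) ^ 3)) := by
          field_simp
          ring
      _ ≤ 16 / S.c1 * ((p : ℝ) ^ (S.s - 1) / Real.log p ^ 3) :=
          mul_le_mul_of_nonneg_left (div_le_div_of_nonneg_left (Real.rpow_nonneg hp0.le _)
            (pow_pos hlogp 3) h9) (div_nonneg (by norm_num) hc1.le)

/-! ### control weights -/

theorem cell_bounds {k j n : ℕ} (hj : j < nc S.d k) (hn : n ∈ cell S.d k j) :
    2 ^ k ≤ n ∧ n < 2 ^ (k + 1) := by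
  unfold cell at hn
  rw [Finset.mem_Ico] at hn
  have hec := ec_le S k
  have h1 : (j + 1) * 2 ^ ec S.d k ≤ 2 ^ k := by
    have h2 : (j + 1) ≤ 2 ^ (k - ec S.d k) := by
      unfold nc at hj
      omega
    calc (j + 1) * 2 ^ ec S.d k ≤ 2 ^ (k - ec S.d k) * 2 ^ ec S.d k := Nat.mul_le_mul_right _ h2
      _ = 2 ^ k := by
        rw [← pow_add, Nat.sub_add_cancel hec]
  have h3 : 2 ^ (k + 1) = 2 ^ k + 2 ^ k := by ring
  constructor
  · have : 0 ≤ j * 2 ^ ec S.d k := Nat.zero_le _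
    omega
  · omega

theorem act_facts {k j : ℕ} (hk : S.K ≤ k) (hj : j ∈ S.badc k) {R : Set ℕ} {x : ℕ × ℕ}
    (hx : x ∈ S.act R k j) : x.1.Prime ∧ (2 : ℝ) ^ ((k : ℝ) / 3) ≤ x.1 ∧ 1 < x.2 ∧
      2 ^ k ≤ x.1 * x.2 ∧ x.1 * x.2 < 2 ^ (k + 1) := by
  have hj' := (mem_badc S).1 hj
  unfold Sys.act at hx
  rw [Finset.mem_filter] at hx
  obtain ⟨h1, h2, h3, h4, h5, h6, h7⟩ := S.cand k hk j hj'.1 hj'.2 x hx.1
  exact ⟨h1, h2, h4, cell_bounds S hj'.1 h5⟩

theorem two_pow_le_cube {k q : ℕ} (h : (2 : ℝ) ^ ((k : ℝ) / 3) ≤ q) : (2 : ℝ) ^ k ≤ (q : ℝ) ^ 3 := by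
  have h1 : ((2 : ℝ) ^ ((k : ℝ) / 3)) ^ 3 ≤ (q : ℝ) ^ 3 := by gcongr
  have h2 : ((2 : ℝ) ^ ((k : ℝ) / 3)) ^ 3 = (2 : ℝ) ^ k := by
    rw [← Real.rpow_natCast ((2 : ℝ) ^ ((k : ℝ) / 3)) 3, ← Real.rpow_mul (by norm_num),
      ← Real.rpow_natCast (2 : ℝ) k]
    congr 1
    push_cast
    ring
  rw [h2] at h1
  exact h1

/-- one control weight -/
theorem wo_le_q {k0 : ℕ} {R : Set ℕ} (hG : S.Good k0 R) {k j : ℕ} (hk0 : k0 ≤ k) (hk : S.K ≤ k)
    (hj : j ∈ S.badc k) {x : ℕ × ℕ} (hx : x ∈ S.act R k j) :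
    S.wo R k j x.2 ≤ (8 / S.c1) / (k : ℝ) ^ 2 * (x.1 : ℝ) ^ (S.s - 1 + 2 * S.tau) := by
  obtain ⟨h1, h2, h3, h4, h5⟩ := act_facts S hk hj hx
  have hs := s_pos S
  have hs1 := s_lt S
  have ht := tau_pos S
  have ht1 := tau_lt S
  have hc1 := S.c1_pos
  have hkpos : (0 : ℝ) < k := by
    have := S.K_pos
    exact_mod_cast lt_of_lt_of_le this hk
  have hq : (0 : ℝ) < x.1 := by exact_mod_cast h1.pos
  have hm : (0 : ℝ) < x.2 := by
    have : 0 < x.2 := by omega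
    exact_mod_cast this
  have h6 := (wo_le' S hG hk0 hk hj h3.le).2
  have h7 := rpow_s_le S (n := x.1 * x.2) (Nat.mul_pos h1.pos (by omega)) h5
  have h8 : ((x.1 * x.2 : ℕ) : ℝ) ^ (S.s - 1) = (x.1 : ℝ) ^ (S.s - 1) * (x.2 : ℝ) ^ (S.s - 1) := by
    push_cast
    exact Real.mul_rpow hq.le hm.le
  have h9 : (x.2 : ℝ) ^ (S.s - 1) * (x.2 : ℝ) ^ (1 - S.s + S.tau) = (x.2 : ℝ) ^ S.tau := by
    rw [← Real.rpow_add hm]
    congr 1
    ring
  -- bound of `m`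
  have h10 : (x.2 : ℝ) ≤ 2 * (x.1 : ℝ) ^ 2 := by
    have h11 := two_pow_le_cube h2
    have h12 : (x.1 : ℝ) * x.2 ≤ (2 : ℝ) ^ (k + 1) := by exact_mod_cast h5.le
    have h13 : (x.1 : ℝ) * x.2 ≤ x.1 * (2 * (x.1 : ℝ) ^ 2) := by
      calc (x.1 : ℝ) * x.2 ≤ (2 : ℝ) ^ (k + 1) := h12
        _ = 2 * (2 : ℝ) ^ k := by ring
        _ ≤ 2 * (x.1 : ℝ) ^ 3 := mul_le_mul_of_nonneg_left h11 zero_le_two
        _ = x.1 * (2 * (x.1 : ℝ) ^ 2) := by ring
    exact le_of_mul_le_mul_left h13 hq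
  have h14 : (x.2 : ℝ) ^ S.tau ≤ 2 * (x.1 : ℝ) ^ (2 * S.tau) := by
    calc (x.2 : ℝ) ^ S.tau ≤ (2 * (x.1 : ℝ) ^ 2) ^ S.tau :=
          Real.rpow_le_rpow hm.le h10 ht.le
      _ = 2 ^ S.tau * (x.1 : ℝ) ^ (2 * S.tau) := by
          rw [Real.mul_rpow (by norm_num) (by (clear * - hq; positivity)), ← Real.rpow_natCast (x.1 : ℝ) 2,
            ← Real.rpow_mul hq.le]
          norm_num
      _ ≤ 2 * (x.1 : ℝ) ^ (2 * S.tau) := by
          have : (2 : ℝ) ^ S.tau ≤ 2 ^ (1 : ℝ) :=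
            Real.rpow_le_rpow_of_exponent_le (by norm_num) (by (clear * - ht ht1; linarith))
          rw [Real.rpow_one] at this
          exact mul_le_mul_of_nonneg_right this (Real.rpow_nonneg hq.le _)
  have hA : 0 ≤ (2 / S.c1) / (k : ℝ) ^ 2 := div_nonneg (div_nonneg zero_le_two hc1.le) (sq_nonneg _)
  have hB : 0 ≤ (4 / S.c1) / (k : ℝ) ^ 2 := div_nonneg (div_nonneg (by norm_num) hc1.le) (sq_nonneg _)
  calc S.wo R k j x.2 ≤ (2 / S.c1) / (k : ℝ) ^ 2 * S.wd k x.2 := h6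
    _ = (2 / S.c1) / (k : ℝ) ^ 2 * ((2 : ℝ) ^ ((S.s - 1) * k) * (x.2 : ℝ) ^ (1 - S.s + S.tau)) := rfl
    _ ≤ (2 / S.c1) / (k : ℝ) ^ 2 * ((2 * ((x.1 * x.2 : ℕ) : ℝ) ^ (S.s - 1)) *
        (x.2 : ℝ) ^ (1 - S.s + S.tau)) :=
        mul_le_mul_of_nonneg_left (mul_le_mul_of_nonneg_right h7 (Real.rpow_nonneg hm.le _)) hA
    _ = (4 / S.c1) / (k : ℝ) ^ 2 * ((x.1 : ℝ) ^ (S.s - 1) * (x.2 : ℝ) ^ S.tau) := by
        rw [h8, ← h9]
        ring
    _ ≤ (4 / S.c1) / (k : ℝ) ^ 2 * ((x.1 : ℝ) ^ (S.s - 1) * (2 * (x.1 : ℝ) ^ (2 * S.tau))) := by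
        exact mul_le_mul_of_nonneg_left
          (mul_le_mul_of_nonneg_left h14 (Real.rpow_nonneg hq.le _)) hB
    _ = (8 / S.c1) / (k : ℝ) ^ 2 * (x.1 : ℝ) ^ (S.s - 1 + 2 * S.tau) := by
        rw [Real.rpow_add hq]
        ring

theorem cw_nonneg {k0 : ℕ} {R : Set ℕ} (hG : S.Good k0 R) {k j : ℕ} (hk0 : k0 ≤ k) (hk : S.K ≤ k)
    (hj : j ∈ S.badc k) (q : ℕ) : 0 ≤ S.cw R k j q := by
  unfold Sys.cw
  refine Finset.sum_nonneg fun x hx => ?_
  rw [Finset.mem_filter] at hx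
  exact (wo_le' S hG hk0 hk hj (act_facts S hk hj hx.1).2.2.1.le).1

theorem ctl_nonneg {k0 : ℕ} {R : Set ℕ} (hG : S.Good k0 R) (hK : S.K ≤ k0) (k1 q : ℕ) :
    0 ≤ S.ctl k0 k1 R q := by
  unfold Sys.ctl
  refine Finset.sum_nonneg fun k hk => Finset.sum_nonneg fun j hj => ?_
  rw [Finset.mem_Ico] at hk
  exact cw_nonneg S hG hk.1 (hK.trans hk.1) hj q

theorem ctl_mono {k0 : ℕ} {R : Set ℕ} (hG : S.Good k0 R) (hK : S.K ≤ k0) {k1 k2 : ℕ} (h : k1 ≤ k2)
    (q : ℕ) : S.ctl k0 k1 R q ≤ S.ctl k0 k2 R q := by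
  unfold Sys.ctl
  refine Finset.sum_le_sum_of_subset_of_nonneg (Finset.Ico_subset_Ico_right h) fun k hk _ => ?_
  rw [Finset.mem_Ico] at hk
  exact Finset.sum_nonneg fun j hj => cw_nonneg S hG hk.1 (hK.trans hk.1) hj q

theorem ctl_zero {k0 : ℕ} {R : Set ℕ} (hK : S.K ≤ k0) (k1 q : ℕ)
    (h : (q : ℝ) < (2 : ℝ) ^ ((k0 : ℝ) / 3)) : S.ctl k0 k1 R q = 0 := by
  unfold Sys.ctl
  refine Finset.sum_eq_zero fun k hk => Finset.sum_eq_zero fun j hj => ?_
  rw [Finset.mem_Ico] at hk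
  unfold Sys.cw
  refine Finset.sum_eq_zero fun x hx => ?_
  rw [Finset.mem_filter] at hx
  exfalso
  have h1 := (act_facts S (hK.trans hk.1) hj hx.1).2.1
  rw [hx.2] at h1
  have h2 : (2 : ℝ) ^ ((k0 : ℝ) / 3) ≤ (2 : ℝ) ^ ((k : ℝ) / 3) := by
    apply Real.rpow_le_rpow_of_exponent_le (by norm_num)
    have : (k0 : ℝ) ≤ k := by exact_mod_cast hk.1
    (clear * - this; linarith)
  (clear * - h h1 h2; linarith)

/-- a prime which is not a candidate has no control weight -/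
theorem ctl_zero_of_not_prime {k0 : ℕ} {R : Set ℕ} (hK : S.K ≤ k0) (k1 q : ℕ)
    (h : ¬ q.Prime) : S.ctl k0 k1 R q = 0 := by
  unfold Sys.ctl
  refine Finset.sum_eq_zero fun k hk => Finset.sum_eq_zero fun j hj => ?_
  rw [Finset.mem_Ico] at hk
  unfold Sys.cw
  refine Finset.sum_eq_zero fun x hx => ?_
  rw [Finset.mem_filter] at hx
  exact absurd (hx.2 ▸ (act_facts S (hK.trans hk.1) hj hx.1).1) h

theorem ctl_le_own {k0 : ℕ} {R : Set ℕ} (hG : S.Good k0 R) (hK : S.K ≤ k0) {k1 q : ℕ}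
    (hk1 : k1 ≤ top q) : S.ctl k0 k1 R q ≤
      (S.own k0 R q : ℝ) * ((8 / S.c1) / (k0 : ℝ) ^ 2 * (q : ℝ) ^ (S.s - 1 + 2 * S.tau)) := by
  have hc1 := S.c1_pos
  have hk0pos : (0 : ℝ) < k0 := by
    have := S.K_pos
    exact_mod_cast lt_of_lt_of_le this hK
  refine (ctl_mono S hG hK hk1 q).trans ?_
  unfold Sys.ctl Sys.own
  push_cast
  rw [Finset.sum_mul]
  refine Finset.sum_le_sum fun k hk => ?_
  rw [Finset.sum_mul]
  refine Finset.sum_le_sum fun j hj => ?_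
  rw [Finset.mem_Ico] at hk
  unfold Sys.cw
  rw [← nsmul_eq_mul]
  refine Finset.sum_le_card_nsmul _ _ _ fun x hx => ?_
  rw [Finset.mem_filter] at hx
  have h1 := wo_le_q S hG hk.1 (hK.trans hk.1) hj hx.1
  rw [hx.2] at h1
  refine h1.trans ?_
  have h2 : (k0 : ℝ) ≤ k := by exact_mod_cast hk.1
  exact mul_le_mul_of_nonneg_right (div_le_div_of_nonneg_left (div_nonneg (by norm_num) hc1.le)
    (pow_pos hk0pos 2) (pow_le_pow_left₀ hk0pos.le h2 2)) (Real.rpow_nonneg (Nat.cast_nonneg _) _)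

theorem ctl_le_pow {k0 : ℕ} {R : Set ℕ} (hG : S.Good k0 R) (hK : S.K ≤ k0) {k1 q : ℕ}
    (hk1 : k1 ≤ top q) : S.ctl k0 k1 R q ≤
      (8 / S.c1) / (k0 : ℝ) ^ 2 * (q : ℝ) ^ (S.s - 1 + 3 * S.tau) := by
  have hc1 := S.c1_pos
  have ht := tau_pos S
  have h1 := ctl_le_own S hG hK hk1
  have h2 := hG.mult q
  have hB : (0 : ℝ) ≤ (8 / S.c1) / (k0 : ℝ) ^ 2 * (q : ℝ) ^ (S.s - 1 + 2 * S.tau) := by (clear * - hc1; positivity)
  rcases Nat.eq_zero_or_pos q with h0 | h0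
  · rw [ctl_zero_of_not_prime S hK k1 q (by rw [h0]; exact Nat.not_prime_zero)]
    (clear * - hc1; positivity)
  · have hq : (0 : ℝ) < q := by exact_mod_cast h0
    calc S.ctl k0 k1 R q ≤
        (S.own k0 R q : ℝ) * ((8 / S.c1) / (k0 : ℝ) ^ 2 * (q : ℝ) ^ (S.s - 1 + 2 * S.tau)) := h1
      _ ≤ (q : ℝ) ^ S.tau * ((8 / S.c1) / (k0 : ℝ) ^ 2 * (q : ℝ) ^ (S.s - 1 + 2 * S.tau)) :=
          mul_le_mul_of_nonneg_right h2 hB
      _ = (8 / S.c1) / (k0 : ℝ) ^ 2 * (q : ℝ) ^ (S.s - 1 + 3 * S.tau) := by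
          have : (q : ℝ) ^ (S.s - 1 + 3 * S.tau) =
              (q : ℝ) ^ S.tau * (q : ℝ) ^ (S.s - 1 + 2 * S.tau) := by
            rw [← Real.rpow_add hq]
            congr 1
            ring
          rw [this]
          ring

theorem ctlLe : CtlLe := by
  intro S
  have hc1 := S.c1_pos
  refine ⟨max S.K ⌈16 / S.c1⌉₊, fun k0 hk0 R hG q k1 hk1 => ?_⟩
  have hK : S.K ≤ k0 := (le_max_left _ _).trans hk0
  have hk0' : 16 / S.c1 ≤ k0 := (Nat.le_ceil _).trans (by exact_mod_cast (le_max_right _ _).trans hk0)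
  have hk0pos : (1 : ℝ) ≤ k0 := by
    have := S.K_pos
    exact_mod_cast this.trans hK
  have ht := tau_pos S
  refine ⟨ctl_nonneg S hG hK k1 q, ?_, fun h => ctl_zero S hK k1 q h⟩
  rcases Nat.eq_zero_or_pos q with h0 | h0
  · rw [ctl_zero_of_not_prime S hK k1 q (by rw [h0]; exact Nat.not_prime_zero)]
    simp only [mul_zero]
    (clear * -; positivity)
  · have hq : (1 : ℝ) ≤ q := by exact_mod_cast h0
    have h1 := ctl_le_pow S hG hK hk1
    have h2 : 2 * ((8 / S.c1) / (k0 : ℝ) ^ 2) ≤ 1 := by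
      have h3 : 16 / S.c1 ≤ (k0 : ℝ) ^ 2 := by
        rw [sq]; exact hk0'.trans (le_mul_of_one_le_left (zero_le_one.trans hk0pos) hk0pos)
      have h4 : 2 * ((8 / S.c1) / (k0 : ℝ) ^ 2) = (16 / S.c1) / (k0 : ℝ) ^ 2 := by ring
      rw [h4, div_le_one (by positivity)]
      exact h3
    calc 2 * S.ctl k0 k1 R q ≤ 2 * ((8 / S.c1) / (k0 : ℝ) ^ 2 * (q : ℝ) ^ (S.s - 1 + 3 * S.tau)) := by
          (clear * - h1; linarith)
      _ = 2 * ((8 / S.c1) / (k0 : ℝ) ^ 2) * (q : ℝ) ^ (S.s - 1 + 3 * S.tau) := by ring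
      _ ≤ 1 * (q : ℝ) ^ (S.s - 1 + 3 * S.tau) :=
          mul_le_mul_of_nonneg_right h2 (Real.rpow_nonneg (Nat.cast_nonneg _) _)
      _ ≤ (q : ℝ) ^ (S.s - 1 + 5 * S.tau) := by
          rw [one_mul]
          exact Real.rpow_le_rpow_of_exponent_le hq (by (clear * - ht; linarith))

theorem one_le_ordC_aux {C : ℝ} (hC : 0 ≤ C) {t : ℝ} (ht : 0 < t) :
    ∃ K0 : ℕ, ∀ k0 : ℕ, K0 ≤ k0 → ∀ p : ℝ, (2 : ℝ) ^ ((k0 : ℝ) / 5) ≤ p → C ≤ p ^ t := by
  refine ⟨⌈5 / t * Real.logb 2 (C + 1)⌉₊, fun k0 hk0 p hp => ?_⟩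
  have h1 : 5 / t * Real.logb 2 (C + 1) ≤ k0 := (Nat.le_ceil _).trans (by exact_mod_cast hk0)
  have h2 : (0 : ℝ) < (2 : ℝ) ^ ((k0 : ℝ) / 5) := Real.rpow_pos_of_pos (by norm_num) _
  have h3 : ((2 : ℝ) ^ ((k0 : ℝ) / 5)) ^ t ≤ p ^ t := Real.rpow_le_rpow h2.le hp ht.le
  refine le_trans ?_ h3
  rw [← Real.rpow_mul (by norm_num)]
  have h4 : Real.logb 2 (C + 1) ≤ (k0 : ℝ) / 5 * t := by
    have h5 : Real.logb 2 (C + 1) = 5 / t * Real.logb 2 (C + 1) * (t / 5) := by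
      have e : t / 5 * (5 / t) = 1 := by rw [div_mul_div_cancel₀ (by norm_num), div_self ht.ne']
      calc Real.logb 2 (C + 1) = t / 5 * (5 / t) * Real.logb 2 (C + 1) := by rw [e, one_mul]
        _ = _ := by ring
    rw [h5]
    calc 5 / t * Real.logb 2 (C + 1) * (t / 5) ≤ (k0 : ℝ) * (t / 5) :=
          mul_le_mul_of_nonneg_right h1 (div_pos ht (by norm_num)).le
      _ = (k0 : ℝ) / 5 * t := by ring
  calc C ≤ C + 1 := by (clear * -; linarith)
    _ = (2 : ℝ) ^ Real.logb 2 (C + 1) := by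
        rw [Real.rpow_logb (by norm_num) (by norm_num) (by (clear * - hC; linarith))]
    _ ≤ (2 : ℝ) ^ ((k0 : ℝ) / 5 * t) := Real.rpow_le_rpow_of_exponent_le (by norm_num) h4

theorem bR_nonneg (R : Set ℕ) (p : ℕ) : 0 ≤ S.bR R p := by
  unfold Sys.bR
  split_ifs
  · exact base_nonneg S p
  · exact le_rfl

theorem wpLe : WpLe := by
  intro S
  obtain ⟨C, K1, hord⟩ := ordLe S
  obtain ⟨K2, hctl⟩ := ctlLe S
  have ht := tau_pos S
  obtain ⟨K3, hlarge⟩ := one_le_ordC_aux (C := 8 * |C| + 1) (by (clear * -; positivity)) ht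
  refine ⟨max (max K1 K2) (max K3 2), fun k0 hk0 R hG p hp => ?_⟩
  have hK1 : K1 ≤ k0 := (le_max_left _ _).trans ((le_max_left _ _).trans hk0)
  have hK2 : K2 ≤ k0 := (le_max_right _ _).trans ((le_max_left _ _).trans hk0)
  have hK3 : K3 ≤ k0 := (le_max_left _ _).trans ((le_max_right _ _).trans hk0)
  have h2k : 2 ≤ k0 := (le_max_right _ _).trans ((le_max_right _ _).trans hk0)
  have h2k' : (2 : ℝ) ≤ k0 := by exact_mod_cast h2k
  obtain ⟨ho1, ho2⟩ := hord k0 hK1 p hp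
  obtain ⟨hc1, hc2, hc3⟩ := hctl k0 hK2 R hG p (top p) le_rfl
  have hb := bR_nonneg S R p
  refine ⟨by unfold Sys.Wp; (clear * - hb ho1 hc1; positivity), ?_⟩
  have hp1 : (1 : ℝ) ≤ p := by exact_mod_cast hp.one_le
  have hp0 : (0 : ℝ) < p := by (clear * - hp1; linarith)
  unfold Sys.Wp Sys.Fh
  split_ifs with h
  · have h1 : S.bR R p = 0 := by
      unfold Sys.bR
      rw [if_neg]
      intro hR
      exact absurd ((hG.prime p hR).2) (not_le.2 h)
    have h2 : S.ordw k0 p = 0 := by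
      unfold Sys.ordw
      rw [if_pos]
      have h3 : (p : ℝ) < ((2 ^ (k0 - 1) : ℕ) : ℝ) := by
        refine lt_of_lt_of_le h ?_
        push_cast
        rw [← Real.rpow_natCast]
        apply Real.rpow_le_rpow_of_exponent_le (by norm_num)
        rw [Nat.cast_sub (by omega)]
        push_cast
        (clear * - h2k'; linarith)
      exact_mod_cast h3
    have h4 : S.ctl k0 (top p) R p = 0 := by
      apply hc3
      refine lt_of_lt_of_le h ?_
      apply Real.rpow_le_rpow_of_exponent_le (by norm_num)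
      (clear * - h2k'; linarith)
    rw [h1, h2, h4]
    norm_num
  · have hpt := hlarge k0 hK3 p (not_lt.1 h)
    have hlog : Real.log 2 ≤ Real.log p := Real.log_le_log (by norm_num) (by exact_mod_cast hp.two_le)
    have hlog2 : (0.69 : ℝ) < Real.log 2 := by
      have := Real.log_two_gt_d9
      (clear * - this; linarith)
    have hlog3 : (1/4 : ℝ) ≤ Real.log p ^ 3 := by
      have : (0.69 : ℝ) ^ 3 ≤ Real.log p ^ 3 := by
        have h5 : (0.69 : ℝ) ≤ Real.log p := hlog2.le.trans hlog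
        exact pow_le_pow_left₀ (by norm_num) h5 3
      norm_num at this ⊢
      (clear * - this; linarith)
    have hps : 0 < (p : ℝ) ^ (S.s - 1) := Real.rpow_pos_of_pos hp0 _
    have h5 : 2 * S.ordw k0 p ≤ 8 * |C| * (p : ℝ) ^ (S.s - 1) := by
      have h6 : (p : ℝ) ^ (S.s - 1) / Real.log p ^ 3 ≤ (p : ℝ) ^ (S.s - 1) / (1/4) := by
        exact div_le_div_of_nonneg_left hps.le (by norm_num) hlog3
      have h7 : C * ((p : ℝ) ^ (S.s - 1) / Real.log p ^ 3) ≤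
          |C| * ((p : ℝ) ^ (S.s - 1) / (1/4)) := by
        calc C * ((p : ℝ) ^ (S.s - 1) / Real.log p ^ 3) ≤
            |C| * ((p : ℝ) ^ (S.s - 1) / Real.log p ^ 3) :=
              mul_le_mul_of_nonneg_right (le_abs_self C)
                (div_nonneg hps.le ((by norm_num : (0 : ℝ) ≤ 1/4).trans hlog3))
          _ ≤ |C| * ((p : ℝ) ^ (S.s - 1) / (1/4)) := mul_le_mul_of_nonneg_left h6 (abs_nonneg C)
      calc 2 * S.ordw k0 p ≤ 2 * (|C| * ((p : ℝ) ^ (S.s - 1) / (1/4))) := by (clear * - ho2 h7; linarith)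
        _ = 8 * |C| * (p : ℝ) ^ (S.s - 1) := by ring
    have h8 : (p : ℝ) ^ (S.s - 1 + 5 * S.tau) = (p : ℝ) ^ (S.s - 1) * (p : ℝ) ^ (5 * S.tau) :=
      Real.rpow_add hp0 _ _
    have h9 : S.gam p = (p : ℝ) ^ (S.s - 1) * ((p : ℝ) ^ (5 * S.tau) * (p : ℝ) ^ S.tau) := by
      unfold Sys.gam
      rw [← Real.rpow_add hp0, ← Real.rpow_add hp0]
      congr 1
      ring
    have h10 : 1 ≤ (p : ℝ) ^ (5 * S.tau) := Real.one_le_rpow hp1 (by (clear * - ht; linarith))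
    have h11 : 8 * |C| + (p : ℝ) ^ (5 * S.tau) ≤ (p : ℝ) ^ (5 * S.tau) * (p : ℝ) ^ S.tau := by
      have h12 : (p : ℝ) ^ (5 * S.tau) * (8 * |C| + 1) ≤ (p : ℝ) ^ (5 * S.tau) * (p : ℝ) ^ S.tau := by
        exact mul_le_mul_of_nonneg_left hpt (zero_le_one.trans h10)
      have h13 : 0 ≤ 8 * |C| := by (clear * -; positivity)
      calc 8 * |C| + (p : ℝ) ^ (5 * S.tau) ≤
            (p : ℝ) ^ (5 * S.tau) * (8 * |C|) + (p : ℝ) ^ (5 * S.tau) :=
              add_le_add (le_mul_of_one_le_left h13 h10) le_rfl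
        _ = (p : ℝ) ^ (5 * S.tau) * (8 * |C| + 1) := by ring
        _ ≤ _ := h12
    rw [h9]
    rw [h8] at hc2
    have h14 := mul_le_mul_of_nonneg_left h11 hps.le
    (clear * - hc2 h5 h14; linarith)

end Pool.Agent.M20.Helper61.KS
end

/- Helper53.KN.Helper18.KL.Load2 -/
section
/-! Project KS: Load2 from its parts. -/

set_option autoImplicit false
open scoped Classical
open Finset Filter Topology

namespace Pool.Agent.M20.Helper18.KL

open Pool.Agent.M20.Helper16.KS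

theorem tw_nonneg (S : Sys) (A : Finset ℕ) (m l : ℕ) : 0 ≤ tw S A m l := by
  unfold tw; positivity

theorem LS_le_add (S : Sys) (k0 k j : ℕ) (Q Q1 Q2 : ℕ × ℕ → ℕ → ℕ × ℕ → Prop) (A : Finset ℕ)
    (h : ∀ k' ∈ S.hvy k0 k, ∀ j' ∈ S.badc k', ∀ x ∈ S.Cand k' j', ∀ n, Q (k', j') n x →
      Q1 (k', j') n x ∨ Q2 (k', j') n x) :
    LS S k0 k j Q A ≤ LS S k0 k j Q1 A + LS S k0 k j Q2 A := by
  unfold LS
  rw [← Finset.sum_add_distrib]
  refine Finset.sum_le_sum fun n _ => ?_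
  rw [← Finset.sum_add_distrib]
  refine Finset.sum_le_sum fun k' hk' => ?_
  rw [← Finset.sum_add_distrib]
  refine Finset.sum_le_sum fun j' hj' => ?_
  rw [Finset.sum_filter, Finset.sum_filter, Finset.sum_filter, ← Finset.sum_add_distrib]
  refine Finset.sum_le_sum fun x hx => ?_
  have h0 := tw_nonneg S A x.2 (n / x.1)
  have h1 := h k' hk' j' hj' x hx n
  by_cases hQ : x.1 ∣ n ∧ Q (k', j') n x ∧ A ⊆ x.2.primeFactors ∪ (n / x.1).primeFactors
  · rw [if_pos hQ]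
    rcases h1 hQ.2.1 with h2 | h2
    · rw [if_pos ⟨hQ.1, h2, hQ.2.2⟩]
      split_ifs <;> linarith
    · rw [if_pos (show x.1 ∣ n ∧ Q2 (k', j') n x ∧ A ⊆ x.2.primeFactors ∪ (n / x.1).primeFactors from
        ⟨hQ.1, h2, hQ.2.2⟩)]
      split_ifs <;> linarith
  · rw [if_neg hQ]
    split_ifs <;> linarith

theorem pow_le_rpow (ρ C : ℝ) (m : ℕ) (hρ : 0 < ρ) : ∃ K1 : ℕ, ∀ k : ℕ, K1 ≤ k → C * (k : ℝ) ^ m ≤ (2 : ℝ) ^ (ρ * k) := by
  have hr : 1 < (2 : ℝ) ^ ρ := Real.one_lt_rpow (by norm_num) hρ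
  have h1 := tendsto_pow_const_div_const_pow_of_one_lt m hr
  have h2 : Tendsto (fun n : ℕ => (|C| + 1) * ((n : ℝ) ^ m / ((2 : ℝ) ^ ρ) ^ n)) atTop (𝓝 0) := by
    simpa using h1.const_mul (|C| + 1)
  obtain ⟨K1, hK1⟩ := eventually_atTop.1 (h2.eventually (gt_mem_nhds (show (0 : ℝ) < 1 by norm_num)))
  refine ⟨K1, fun k hk => ?_⟩
  have h4 := hK1 k hk
  have h6 : 0 < ((2 : ℝ) ^ ρ) ^ k := by positivity
  rw [← mul_div_assoc, div_lt_one h6] at h4
  have h7 : ((2 : ℝ) ^ ρ) ^ k = (2 : ℝ) ^ (ρ * k) := by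
    rw [← Real.rpow_natCast, ← Real.rpow_mul (by norm_num)]
  rw [← h7]
  have h8 : C ≤ |C| + 1 := by linarith [le_abs_self C]
  have h9 : 0 ≤ (k : ℝ) ^ m := by positivity
  nlinarith

/-- final numerics for both load theorems -/
theorem load_of_small (hred : Red) (S : Sys) (Q : ℕ × ℕ → ℕ → ℕ × ℕ → Prop)
    (hQ : ∃ K0 : ℕ, ∀ k0 : ℕ, K0 ≤ k0 → ∀ k, k0 ≤ k → ∀ j < nc S.d k, ∀ A : Finset ℕ,
      LS S k0 k j Q A ≤ 2 * ((2 : ℝ) ^ (-(S.ep / 40) * k) * 2 ^ ec S.d k)) :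
    ∃ K0 : ℕ, ∀ k0 : ℕ, K0 ≤ k0 → ∀ k, k0 ≤ k → ∀ j < nc S.d k,
      ∀ A : Finset ℕ, S.LP k0 k j Q A ≤ (2 : ℝ) ^ (-(S.ep / 50) * k) * S.G k := by
  obtain ⟨K1, h1⟩ := hred S
  obtain ⟨K2, h2⟩ := hQ
  obtain ⟨K3, h3⟩ := pow_le_rpow (3 / 1000 * S.ep) 2 4 (by have := S.ep_pos; positivity)
  refine ⟨max (max K1 K2) (max K3 1), ?_⟩
  intro k0 hk0 k hk j hj A
  have a1 : K1 ≤ k0 := ((le_max_left _ _).trans (le_max_left _ _)).trans hk0
  have a2 : K2 ≤ k0 := ((le_max_right _ _).trans (le_max_left _ _)).trans hk0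
  have a3 : K3 ≤ k := (((le_max_left _ _).trans (le_max_right _ _)).trans hk0).trans hk
  have a4 : 1 ≤ k := (((le_max_right _ _).trans (le_max_right _ _)).trans hk0).trans hk
  have hk1 : (1 : ℝ) ≤ k := by exact_mod_cast a4
  have hkpos : (0 : ℝ) < (k : ℝ) ^ 4 := by positivity
  refine (h1 k0 a1 k hk j hj Q A).trans ?_
  have h4 := h2 k0 a2 k hk j hj A
  have h5 := h3 k a3
  have hep := S.ep_pos
  unfold Sys.G
  calc (2 : ℝ) ^ (20 * S.tau * k) * (2 : ℝ) ^ ((S.s - 1) * k) * LS S k0 k j Q A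
      ≤ (2 : ℝ) ^ (20 * S.tau * k) * (2 : ℝ) ^ ((S.s - 1) * k) *
        (2 * ((2 : ℝ) ^ (-(S.ep / 40) * k) * 2 ^ ec S.d k)) := mul_le_mul_of_nonneg_left h4 (by positivity)
    _ = (2 * (k : ℝ) ^ 4) * ((2 : ℝ) ^ (20 * S.tau * k) * (2 : ℝ) ^ (-(S.ep / 40) * k)) *
        (2 ^ ec S.d k * (2 : ℝ) ^ ((S.s - 1) * k) / k ^ 4) := by
        field_simp
    _ ≤ (2 : ℝ) ^ (3 / 1000 * S.ep * k) * ((2 : ℝ) ^ (20 * S.tau * k) * (2 : ℝ) ^ (-(S.ep / 40) * k)) *
        (2 ^ ec S.d k * (2 : ℝ) ^ ((S.s - 1) * k) / k ^ 4) := by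
        refine mul_le_mul_of_nonneg_right (mul_le_mul_of_nonneg_right h5 (by positivity)) (by positivity)
    _ = (2 : ℝ) ^ (-(S.ep / 50) * k) * (2 ^ ec S.d k * (2 : ℝ) ^ ((S.s - 1) * k) / k ^ 4) := by
        rw [← Real.rpow_add (by norm_num), ← Real.rpow_add (by norm_num)]
        congr 2
        rw [S.tau_eq]
        ring

theorem load2_of (hred : Red) (hJ : JF) (hL : LL) : Load2 := by
  intro S
  refine load_of_small hred S S.Q2 ?_
  obtain ⟨K1, h1⟩ := hJ S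
  obtain ⟨K2, h2⟩ := hL S
  refine ⟨max (max K1 K2) S.K, ?_⟩
  intro k0 hk0 k hk j hj A
  have a1 : K1 ≤ k0 := ((le_max_left _ _).trans (le_max_left _ _)).trans hk0
  have a2 : K2 ≤ k0 := ((le_max_right _ _).trans (le_max_left _ _)).trans hk0
  have a3 : S.K ≤ k0 := (le_max_right _ _).trans hk0
  have h3 := h1 k0 a1 k hk j hj A
  have h4 := h2 k0 a2 k hk j hj A
  have h5 := LS_le_add S k0 k j S.Q2 (QJ A) (QL S A) A ?_
  · linarith
  · intro k' hk' j' hj' x hx n hQ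
    by_cases hdis : ∀ p : ℕ, p.Prime → p ∣ x.2 → p ∉ A
    · right
      exact ⟨hQ, hdis⟩
    · left
      push Not at hdis
      refine ⟨hdis, ?_⟩
      intro p _ hpx _
      exact hpx.trans hQ.1

end Pool.Agent.M20.Helper18.KL
end
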