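import Mathlib

set_option linter.all false

/- Helper53.KN.Helper44.Mertens -/
section
/-!
# Mertens' theorems in interval form
-/

set_option autoImplicit false

open Finset Real
open scoped ArithmeticFunction.vonMangoldt

namespace Pool.Agent.M20.Helper44

/-- `log N! = ∑_{d ≤ N} Λ(d) ⌊N/d⌋`. -/
theorem log_factorial_eq_sum (N : ℕ) :
    Real.log (N.factorial : ℝ) = ∑ d ∈ Ioc 0 N, Λ d * ((N / d : ℕ) : ℝ) := by
  have h1 : Real.log (N.factorial : ℝ) = ∑ m ∈ Ioc 0 N, Real.log m := by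
    rw [← Finset.prod_Ico_id_eq_factorial, Nat.cast_prod, Real.log_prod]
    · apply Finset.sum_congr _ (fun _ _ => rfl)
      ext i
      simp only [Finset.mem_Ico, Finset.mem_Ioc]
      omega
    · intro i hi
      have := (Finset.mem_Ico.mp hi).1
      positivity
  rw [h1]
  have h2 : ∀ m ∈ Ioc 0 N, Real.log m = ∑ d ∈ Ioc 0 N, if d ∣ m then Λ d else 0 := by
    intro m hm
    rw [← ArithmeticFunction.vonMangoldt_sum, ← Finset.sum_filter]
    apply Finset.sum_congr _ (fun _ _ => rfl)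
    ext d
    simp only [Nat.mem_divisors, Finset.mem_filter, Finset.mem_Ioc]
    rw [Finset.mem_Ioc] at hm
    constructor
    · rintro ⟨h, h0⟩
      exact ⟨⟨Nat.pos_of_dvd_of_pos h hm.1, (Nat.le_of_dvd hm.1 h).trans hm.2⟩, h⟩
    · rintro ⟨_, h⟩
      exact ⟨h, by omega⟩
  rw [Finset.sum_congr rfl h2, Finset.sum_comm]
  apply Finset.sum_congr rfl
  intro d hd
  rw [← Finset.sum_filter, Finset.sum_const, nsmul_eq_mul, mul_comm]
  congr 2
  rw [Nat.Ioc_filter_dvd_card_eq_div]

theorem log_factorial_le (N : ℕ) : Real.log (N.factorial : ℝ) ≤ N * Real.log N := by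
  rcases Nat.eq_zero_or_pos N with h | h
  · simp [h]
  rw [← Real.log_pow]
  apply Real.log_le_log
  · positivity
  · exact_mod_cast Nat.factorial_le_pow N

theorem le_log_factorial (N : ℕ) : (N : ℝ) * Real.log N - N ≤ Real.log (N.factorial : ℝ) := by
  rcases Nat.eq_zero_or_pos N with h | h
  · simp [h]
  have hN : (0 : ℝ) < N := by exact_mod_cast h
  have h1 : (N : ℝ) ^ N / N.factorial ≤ Real.exp N := by
    exact Real.pow_div_factorial_le_exp _ hN.le N
  have h2 : Real.log ((N : ℝ) ^ N / N.factorial) ≤ N := by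
    calc Real.log ((N : ℝ) ^ N / N.factorial) ≤ Real.log (Real.exp N) :=
          Real.log_le_log (by positivity) h1
      _ = N := Real.log_exp _
  rw [Real.log_div (by positivity) (by positivity), Real.log_pow] at h2
  (clear * - h2; linarith)

/-- First theorem, with `Λ`, integer argument. -/
theorem abs_sum_vonMangoldt_div_sub_log_nat (N : ℕ) (hN : 1 ≤ N) :
    |∑ d ∈ Ioc 0 N, Λ d / d - Real.log N| ≤ 6 := by
  have hN0 : (0 : ℝ) < N := by exact_mod_cast hN
  have h1 := log_factorial_eq_sum N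
  have h2 := log_factorial_le N
  have h3 := le_log_factorial N
  have h4 : ∑ d ∈ Ioc 0 N, Λ d * ((N / d : ℕ) : ℝ) ≤ N * ∑ d ∈ Ioc 0 N, Λ d / d := by
    rw [Finset.mul_sum]
    apply Finset.sum_le_sum
    intro d hd
    have hd0 : (0 : ℝ) < d := by exact_mod_cast (Finset.mem_Ioc.mp hd).1
    have : ((N / d : ℕ) : ℝ) ≤ N / d := Nat.cast_div_le
    calc Λ d * ((N / d : ℕ) : ℝ) ≤ Λ d * (N / d) :=
          mul_le_mul_of_nonneg_left this ArithmeticFunction.vonMangoldt_nonneg
      _ = N * (Λ d / d) := by ring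
  have h5 : N * ∑ d ∈ Ioc 0 N, Λ d / d - Chebyshev.psi N
      ≤ ∑ d ∈ Ioc 0 N, Λ d * ((N / d : ℕ) : ℝ) := by
    have : Chebyshev.psi N = ∑ d ∈ Ioc 0 N, Λ d := by
      simp [Chebyshev.psi]
    rw [this, Finset.mul_sum, ← Finset.sum_sub_distrib]
    apply Finset.sum_le_sum
    intro d hd
    have hd0 : (0 : ℝ) < d := by exact_mod_cast (Finset.mem_Ioc.mp hd).1
    have : (N / d : ℝ) - 1 ≤ ((N / d : ℕ) : ℝ) := by
      have h := Nat.div_add_mod N d
      have h' := Nat.mod_lt N (Finset.mem_Ioc.mp hd).1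
      have h6 : (N : ℝ) ≤ d * ((N / d : ℕ) : ℝ) + d := by
        have : N ≤ d * (N / d) + d := by omega
        exact_mod_cast this
      rw [sub_le_iff_le_add, div_le_iff₀ hd0]
      (clear * - h6; linarith)
    calc N * (Λ d / d) - Λ d = Λ d * (N / d - 1) := by ring
      _ ≤ _ := mul_le_mul_of_nonneg_left this ArithmeticFunction.vonMangoldt_nonneg
  have h6 : Chebyshev.psi N ≤ (Real.log 4 + 4) * N := Chebyshev.psi_le_const_mul_self hN0.le
  have h7 : Real.log 4 ≤ 2 := by
    have : Real.log 4 = 2 * Real.log 2 := by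
      rw [show (4 : ℝ) = 2 ^ 2 by norm_num, Real.log_pow]; norm_num
    have := Real.log_two_lt_d9
    linarith
  rw [abs_le]
  constructor
  · -- lower bound
    have : N * (Real.log N - 1) ≤ N * ∑ d ∈ Ioc 0 N, Λ d / d := by
      calc (N : ℝ) * (Real.log N - 1) = N * Real.log N - N := by ring
        _ ≤ _ := by (clear * - h1 h3 h4; linarith)
    have := le_of_mul_le_mul_left this hN0
    (clear * - this; linarith)
  · have : N * ∑ d ∈ Ioc 0 N, Λ d / d ≤ N * (Real.log N + 6) := by
      have : N * ∑ d ∈ Ioc 0 N, Λ d / d ≤ N * Real.log N + (Real.log 4 + 4) * N := by linarith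
      have h8 : (Real.log 4 + 4) * N ≤ 6 * N := by
        apply mul_le_mul_of_nonneg_right _ hN0.le
        (clear * - h7; linarith)
      calc _ ≤ _ := this
        _ ≤ N * Real.log N + 6 * N := by (clear * - h8; linarith)
        _ = _ := by ring
    have := le_of_mul_le_mul_left this hN0
    (clear * - this; linarith)

/-- A constant bounding the contribution of proper prime powers. -/
noncomputable def ppC : ℝ := ∑' n : ℕ, 4 / (n : ℝ) ^ (3 / 2 : ℝ)

theorem summable_ppC : Summable (fun n : ℕ => 4 / (n : ℝ) ^ (3 / 2 : ℝ)) := by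
  have h : Summable (fun n : ℕ => ((n : ℝ) ^ (3 / 2 : ℝ))⁻¹) :=
    Real.summable_nat_rpow_inv.mpr (by norm_num)
  simpa [div_eq_mul_inv] using h.mul_left 4

theorem ppC_nonneg : 0 ≤ ppC := tsum_nonneg fun n => by (clear * -; positivity)

theorem log_div_sq_le (n : ℕ) : Real.log n / (n : ℝ) ^ 2 * 2 ≤ 4 / (n : ℝ) ^ (3 / 2 : ℝ) := by
  rcases Nat.eq_zero_or_pos n with h | h
  · simp [h]
  have hn : (0 : ℝ) < n := by exact_mod_cast h
  have h1 : Real.log n ≤ 2 * (n : ℝ) ^ (1 / 2 : ℝ) := by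
    have := Real.log_le_rpow_div hn.le (show (0 : ℝ) < 1 / 2 by norm_num)
    calc Real.log n ≤ (n : ℝ) ^ (1 / 2 : ℝ) / (1 / 2) := this
      _ = _ := by ring
  have h2 : (n : ℝ) ^ 2 = (n : ℝ) ^ (1 / 2 : ℝ) * (n : ℝ) ^ (3 / 2 : ℝ) := by
    rw [← Real.rpow_natCast, ← Real.rpow_add hn]; norm_num
  rw [h2, div_mul_eq_mul_div, div_le_div_iff₀ (by positivity) (by positivity)]
  calc Real.log n * 2 * (n : ℝ) ^ (3 / 2 : ℝ)
      ≤ (2 * (n : ℝ) ^ (1 / 2 : ℝ)) * 2 * (n : ℝ) ^ (3 / 2 : ℝ) := by gcongr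
    _ = _ := by ring

theorem sum_vonMangoldt_div_sub_primes (N : ℕ) :
    0 ≤ ∑ d ∈ Ioc 0 N, Λ d / d - ∑ q ∈ (Ioc 0 N).filter Nat.Prime, Real.log q / q ∧
    ∑ d ∈ Ioc 0 N, Λ d / d - ∑ q ∈ (Ioc 0 N).filter Nat.Prime, Real.log q / q ≤ ppC := by
  have hsplit : ∑ d ∈ Ioc 0 N, Λ d / d = ∑ d ∈ (Ioc 0 N).filter IsPrimePow, Λ d / d := by
    rw [Finset.sum_filter]
    apply Finset.sum_congr rfl
    intro d _
    split_ifs with h
    · rfl
    · rw [ArithmeticFunction.vonMangoldt_eq_zero_iff.mpr h, zero_div]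
  have hN0 : (0 : ℝ) ≤ (N : ℝ) := by positivity
  have hpp := Chebyshev.sum_PrimePow_eq_sum_sum (R := ℝ) (fun n => Λ n / n) hN0
  rw [Nat.floor_natCast] at hpp
  set K := ⌊Real.log N / Real.log 2⌋₊ with hK
  have hfk : ∀ k ∈ Icc 1 K, ∑ p ∈ Ioc 0 ⌊(N : ℝ) ^ ((1 : ℝ) / k)⌋₊ with p.Prime,
      (Λ (p ^ k) / ((p ^ k : ℕ) : ℝ)) =
      ∑ p ∈ Ioc 0 ⌊(N : ℝ) ^ ((1 : ℝ) / k)⌋₊ with p.Prime, Real.log p / (p : ℝ) ^ k := by
    intro k hk
    apply Finset.sum_congr rfl
    intro p hp
    have hk1 := (Finset.mem_Icc.mp hk).1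
    rw [ArithmeticFunction.vonMangoldt_apply_pow (by omega),
      ArithmeticFunction.vonMangoldt_apply_prime (Finset.mem_filter.mp hp).2, Nat.cast_pow]
  rw [hsplit, hpp, Finset.sum_congr rfl hfk]
  rcases Nat.lt_or_ge N 2 with hN2 | hN2
  · have hK0 : K = 0 := by
      rw [hK]
      interval_cases N <;> simp
    have : (Ioc 0 N).filter Nat.Prime = ∅ := by
      ext q
      simp only [Finset.mem_filter, Finset.mem_Ioc, Finset.notMem_empty, iff_false]
      rintro ⟨⟨_, h⟩, hq⟩
      have := hq.two_le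
      omega
    rw [hK0, this]
    simp [ppC_nonneg]
  have hK1 : 1 ≤ K := by
    rw [hK, Nat.one_le_floor_iff, one_le_div (Real.log_pos (by norm_num))]
    exact Real.log_le_log (by norm_num) (by exact_mod_cast hN2)
  rw [← Finset.add_sum_Ioc_eq_sum_Icc hK1]
  have h1 : ∑ p ∈ Ioc 0 ⌊(N : ℝ) ^ ((1 : ℝ) / (1 : ℕ))⌋₊ with p.Prime, Real.log p / (p : ℝ) ^ 1
      = ∑ q ∈ (Ioc 0 N).filter Nat.Prime, Real.log q / q := by
    simp
  rw [h1, add_sub_cancel_left]
  have hnn : ∀ k p : ℕ, 0 ≤ Real.log p / (p : ℝ) ^ k := by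
    intro k p
    apply div_nonneg (Real.log_natCast_nonneg p) (by (clear * -; positivity))
  refine ⟨Finset.sum_nonneg fun k _ => Finset.sum_nonneg fun p _ => hnn k p, ?_⟩
  calc ∑ k ∈ Ioc 1 K, ∑ p ∈ Ioc 0 ⌊(N : ℝ) ^ ((1 : ℝ) / k)⌋₊ with p.Prime, Real.log p / (p : ℝ) ^ k
      ≤ ∑ k ∈ Ioc 1 K, ∑ p ∈ (Ioc 0 N).filter Nat.Prime, Real.log p / (p : ℝ) ^ k := by
        apply Finset.sum_le_sum
        intro k hk
        apply Finset.sum_le_sum_of_subset_of_nonneg
        · intro p hp
          rw [Finset.mem_filter, Finset.mem_Ioc] at hp ⊢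
          refine ⟨⟨hp.1.1, hp.1.2.trans ?_⟩, hp.2⟩
          have hk1 := (Finset.mem_Ioc.mp hk).1
          have : (N : ℝ) ^ ((1 : ℝ) / k) ≤ N := by
            apply Real.rpow_le_self_of_one_le
            · exact_mod_cast (by omega : 1 ≤ N)
            · rw [div_le_one (by positivity)]
              exact_mod_cast hk1.le
          calc ⌊(N : ℝ) ^ ((1 : ℝ) / k)⌋₊ ≤ ⌊(N : ℝ)⌋₊ := Nat.floor_le_floor this
            _ = N := Nat.floor_natCast N
        · intro p _ _
          exact hnn k p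
    _ = ∑ p ∈ (Ioc 0 N).filter Nat.Prime, ∑ k ∈ Ioc 1 K, Real.log p / (p : ℝ) ^ k :=
        Finset.sum_comm
    _ ≤ ∑ p ∈ (Ioc 0 N).filter Nat.Prime, 4 / (p : ℝ) ^ (3 / 2 : ℝ) := by
        apply Finset.sum_le_sum
        intro p hp
        have hpp := (Finset.mem_filter.mp hp).2
        have hp2 : (2 : ℝ) ≤ p := by exact_mod_cast hpp.two_le
        refine le_trans ?_ (log_div_sq_le p)
        have hgeo : ∑ k ∈ Ioc 1 K, (1 / (p : ℝ)) ^ k ≤ 2 * (1 / (p : ℝ)) ^ 2 := by
          have h0 : ∀ K : ℕ, ∑ k ∈ Ioc 1 K, (1 / (p : ℝ)) ^ k ≤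
              2 * (1 / (p : ℝ)) ^ 2 * (1 - (1 / (p : ℝ)) ^ (K - 1)) := by
            intro K
            induction K with
            | zero => simp
            | succ n ih =>
              rcases Nat.eq_zero_or_pos n with h | h
              · subst h; simp
              · rw [Finset.sum_Ioc_succ_top (by omega)]
                obtain ⟨m, rfl⟩ : ∃ m, n = m + 1 := ⟨n - 1, by omega⟩
                simp only [Nat.add_sub_cancel] at ih ⊢
                have hx : (1 / (p : ℝ)) ≤ 1 / 2 := by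
                  apply one_div_le_one_div_of_le (by norm_num) hp2
                have hx0 : (0 : ℝ) ≤ 1 / (p : ℝ) := by (clear * - hp2; positivity)
                set x := 1 / (p : ℝ)
                have e1 : x ^ (m + 1 + 1) = x ^ 2 * x ^ m := by ring
                have e2 : x ^ (m + 1) = x ^ m * x := by ring
                rw [e1, e2]
                have hxm : 0 ≤ x ^ m := by (clear * - hp2; positivity)
                have : 0 ≤ x ^ 2 * x ^ m * (1 - 2 * x) := by
                  apply mul_nonneg (by (clear * - hp2; positivity)); (clear * - hx; linarith)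
                (clear * - ih this; nlinarith)
          refine (h0 K).trans ?_
          have : 0 ≤ (1 / (p : ℝ)) ^ (K - 1) := by (clear * - hp2; positivity)
          have h2 : (0 : ℝ) ≤ 2 * (1 / (p : ℝ)) ^ 2 := by (clear * - hp2; positivity)
          (clear * - this; nlinarith)
        calc ∑ k ∈ Ioc 1 K, Real.log p / (p : ℝ) ^ k
            = Real.log p * ∑ k ∈ Ioc 1 K, (1 / (p : ℝ)) ^ k := by
              rw [Finset.mul_sum]
              apply Finset.sum_congr rfl
              intro k _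
              rw [one_div, inv_pow]; rfl
          _ ≤ Real.log p * (2 * (1 / (p : ℝ)) ^ 2) :=
              mul_le_mul_of_nonneg_left hgeo (Real.log_natCast_nonneg p)
          _ = Real.log p / (p : ℝ) ^ 2 * 2 := by
              rw [one_div, inv_pow]; ring
    _ ≤ ppC := by
        unfold ppC
        exact summable_ppC.sum_le_tsum _ (fun n _ => by (clear * -; positivity))

/-- Mertens' first theorem for primes. -/
theorem mertens_first : ∃ C : ℝ, 0 < C ∧ ∀ N : ℕ, 1 ≤ N →
    |∑ q ∈ (Ioc 0 N).filter Nat.Prime, Real.log q / q - Real.log N| ≤ C := by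
  refine ⟨6 + ppC, by have := ppC_nonneg; linarith, ?_⟩
  intro N hN
  have h1 := abs_sum_vonMangoldt_div_sub_log_nat N hN
  have h2 := sum_vonMangoldt_div_sub_primes N
  rw [abs_le] at h1 ⊢
  constructor <;> (clear * - h1 h2; linarith [h1.1, h1.2, h2.1, h2.2])

end Pool.Agent.M20.Helper44
end

/- Helper53.KN.Helper44.MertensInterval -/
section
set_option autoImplicit false

open Finset Real
open scoped ArithmeticFunction.vonMangoldt

namespace Pool.Agent.M20.Helper44

/-- Mertens' second theorem on intervals. -/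
theorem mertens_interval : ∃ C : ℝ, 0 < C ∧ ∀ x y : ℝ, 2 ≤ x → x ≤ y →
    |∑ q ∈ (Finset.Ioc ⌊x⌋₊ ⌊y⌋₊).filter Nat.Prime, (1:ℝ)/q - Real.log (Real.log y / Real.log x)|
      ≤ C / Real.log x := by
  obtain ⟨C0, hC0, hM⟩ := mertens_first
  set C1 := C0 + 1 with hC1
  refine ⟨3 * C1, by positivity, ?_⟩
  intro x y hx hxy
  have hx0 : (0 : ℝ) < x := by linarith
  have hlx : 0 < Real.log x := Real.log_pos (by linarith)
  have hly : 0 < Real.log y := Real.log_pos (by linarith)
  set c : ℕ → ℝ := fun n => if n.Prime then Real.log n / n else 0 with hc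
  set A : ℝ → ℝ := fun t => ∑ k ∈ Icc 0 ⌊t⌋₊, c k with hA
  exact by
    have hAbound : ∀ t : ℝ, 2 ≤ t → |A t - Real.log t| ≤ C1 := by
      intro t ht
      have hN : 1 ≤ ⌊t⌋₊ := by
        rw [Nat.one_le_floor_iff]; linarith
      have h1 := hM ⌊t⌋₊ hN
      have h2 : A t = ∑ q ∈ (Ioc 0 ⌊t⌋₊).filter Nat.Prime, Real.log q / q := by
        simp only [hA, hc]
        rw [← Finset.sum_filter]
        apply Finset.sum_congr _ (fun _ _ => rfl)
        ext q
        simp only [Finset.mem_filter, Finset.mem_Icc, Finset.mem_Ioc]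
        constructor
        · rintro ⟨⟨_, h⟩, hq⟩; exact ⟨⟨hq.pos, h⟩, hq⟩
        · rintro ⟨⟨_, h⟩, hq⟩; exact ⟨⟨Nat.zero_le _, h⟩, hq⟩
      rw [← h2] at h1
      have hfl : (⌊t⌋₊ : ℝ) ≤ t := Nat.floor_le (by (clear * - ht; linarith))
      have hfl2 : t ≤ 2 * (⌊t⌋₊ : ℝ) := by
        have := (Nat.lt_floor_add_one t).le
        have h3 : (1 : ℝ) ≤ (⌊t⌋₊ : ℝ) := by exact_mod_cast hN
        (clear * - ht this; linarith)
      have hf0 : (0 : ℝ) < (⌊t⌋₊ : ℝ) := by exact_mod_cast hN
      have h4 : Real.log (⌊t⌋₊ : ℝ) ≤ Real.log t := Real.log_le_log hf0 hfl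
      have h5 : Real.log t ≤ Real.log 2 + Real.log (⌊t⌋₊ : ℝ) := by
        rw [← Real.log_mul (by norm_num) hf0.ne']
        exact Real.log_le_log (by (clear * - ht; linarith)) hfl2
      have h6 : Real.log 2 ≤ 1 := by
        have := Real.log_two_lt_d9; (clear * - this; linarith)
      rw [abs_le] at h1 ⊢
      constructor <;> (clear * - h1 h5 h6 h4; linarith [h1.1, h1.2])
    -- Abel summation
    have hderiv : ∀ t ∈ Set.Icc x y, HasDerivAt (fun t => (Real.log t)⁻¹) (-(t * Real.log t ^ 2)⁻¹) t := by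
      intro t ht
      have ht0 : 0 < t := by linarith [ht.1]
      have hlt : Real.log t ≠ 0 := (Real.log_pos (by linarith [ht.1])).ne'
      refine HasDerivAt.congr_deriv ((Real.hasDerivAt_log ht0.ne').inv hlt) ?_
      rw [mul_inv, neg_div, div_eq_mul_inv]
    have hdiff : ∀ t ∈ Set.Icc x y, DifferentiableAt ℝ (fun t => (Real.log t)⁻¹) t :=
      fun t ht => (hderiv t ht).differentiableAt
    have hcont : ContinuousOn (fun t : ℝ => -(t * Real.log t ^ 2)⁻¹) (Set.Icc x y) := by
      intro t ht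
      have ht0 : 0 < t := by linarith [ht.1]
      have hlt : Real.log t ≠ 0 := (Real.log_pos (by linarith [ht.1])).ne'
      apply ContinuousAt.continuousWithinAt
      have : t * Real.log t ^ 2 ≠ 0 := by positivity
      fun_prop (disch := first | exact this | exact ht0.ne')
    have hint : MeasureTheory.IntegrableOn (fun t : ℝ => -(t * Real.log t ^ 2)⁻¹) (Set.Icc x y) :=
      hcont.integrableOn_Icc
    have hint' : MeasureTheory.IntegrableOn (deriv (fun t => (Real.log t)⁻¹)) (Set.Icc x y) := by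
      apply hint.congr_fun _ measurableSet_Icc
      intro t ht
      exact (hderiv t ht).deriv.symm
    exact by
      have habel := sum_mul_eq_sub_sub_integral_mul c (f := fun t => (Real.log t)⁻¹) hx0.le hxy hdiff hint'
      have hlhs : ∑ k ∈ Ioc ⌊x⌋₊ ⌊y⌋₊, (Real.log (k : ℝ))⁻¹ * c k =
          ∑ q ∈ (Finset.Ioc ⌊x⌋₊ ⌊y⌋₊).filter Nat.Prime, (1:ℝ)/q := by
        rw [Finset.sum_filter]
        apply Finset.sum_congr rfl
        intro k hk
        simp only [hc]
        split_ifs with h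
        · have : Real.log (k : ℝ) ≠ 0 := (Real.log_pos (by exact_mod_cast h.one_lt)).ne'
          (clear * - this; field_simp)
        · simp
      rw [hlhs] at habel
      have hcongr : ∫ t in Set.Ioc x y, deriv (fun t => (Real.log t)⁻¹) t * ∑ k ∈ Icc 0 ⌊t⌋₊, c k =
          ∫ t in Set.Ioc x y, -(t * Real.log t ^ 2)⁻¹ * A t := by
        apply MeasureTheory.setIntegral_congr_fun measurableSet_Ioc
        intro t ht
        simp only [hA]
        rw [(hderiv t ⟨ht.1.le, ht.2⟩).deriv]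
      rw [hcongr] at habel
      -- integrability
      have hiA : MeasureTheory.IntegrableOn (fun t => -(t * Real.log t ^ 2)⁻¹ * A t) (Set.Ioc x y) :=
        (integrableOn_mul_sum_Icc c (m := 0) hx0.le hint).mono_set Set.Ioc_subset_Icc_self
      have hcontL : ContinuousOn (fun t : ℝ => -(t * Real.log t)⁻¹) (Set.Icc x y) := by
        intro t ht
        have ht0 : 0 < t := by (clear * - hx ht; linarith [ht.1])
        have hlt : Real.log t ≠ 0 := (Real.log_pos (by (clear * - hx ht; linarith [ht.1]))).ne'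
        apply ContinuousAt.continuousWithinAt
        have : t * Real.log t ≠ 0 := by (clear * - ht0 hlt; positivity)
        fun_prop (disch := first | exact this | exact ht0.ne')
      have hiL : MeasureTheory.IntegrableOn (fun t => -(t * Real.log t ^ 2)⁻¹ * Real.log t) (Set.Ioc x y) := by
        have h1 : MeasureTheory.IntegrableOn (fun t : ℝ => -(t * Real.log t)⁻¹) (Set.Ioc x y) :=
          hcontL.integrableOn_Icc.mono_set Set.Ioc_subset_Icc_self
        apply h1.congr_fun _ measurableSet_Ioc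
        intro t ht
        have ht0 : 0 < t := by (clear * - hx ht; linarith [ht.1])
        have hlt : Real.log t ≠ 0 := (Real.log_pos (by (clear * - hx ht; linarith [ht.1]))).ne'
        simp only
        field_simp
      have hI1 : ∫ t in Set.Ioc x y, -(t * Real.log t ^ 2)⁻¹ * Real.log t =
          -(Real.log (Real.log y / Real.log x)) := by
        rw [← intervalIntegral.integral_of_le hxy]
        have : ∀ t ∈ Set.uIcc x y, HasDerivAt (fun t => -Real.log (Real.log t))
            (-(t * Real.log t ^ 2)⁻¹ * Real.log t) t := by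
          intro t ht
          rw [Set.uIcc_of_le hxy] at ht
          have ht0 : 0 < t := by (clear * - hx ht; linarith [ht.1])
          have hlt : Real.log t ≠ 0 := (Real.log_pos (by (clear * - hx ht; linarith [ht.1]))).ne'
          refine HasDerivAt.congr_deriv (((Real.hasDerivAt_log ht0.ne').log hlt).neg) ?_
          rw [mul_inv, neg_mul, mul_assoc, sq, mul_inv, mul_assoc, inv_mul_cancel₀ hlt, mul_one,
            div_eq_mul_inv]
        rw [intervalIntegral.integral_eq_sub_of_hasDerivAt this]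
        · rw [Real.log_div hly.ne' hlx.ne']; ring
        · rw [intervalIntegrable_iff_integrableOn_Ioc_of_le hxy]
          exact hiL
      exact by
        have hI2 : ∫ t in Set.Ioc x y, (t * Real.log t ^ 2)⁻¹ = (Real.log x)⁻¹ - (Real.log y)⁻¹ := by
          rw [← intervalIntegral.integral_of_le hxy]
          have : ∀ t ∈ Set.uIcc x y, HasDerivAt (fun t => -(Real.log t)⁻¹)
              ((t * Real.log t ^ 2)⁻¹) t := by
            intro t ht
            rw [Set.uIcc_of_le hxy] at ht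
            have := (hderiv t ht).neg
            rw [neg_neg] at this
            exact this
          rw [intervalIntegral.integral_eq_sub_of_hasDerivAt this]
          · ring
          · rw [intervalIntegrable_iff_integrableOn_Ioc_of_le hxy]
            have := hint.neg.mono_set (Set.Ioc_subset_Icc_self (a := x) (b := y))
            apply this.congr_fun _ measurableSet_Ioc
            intro t _
            simp
        have hdiffI : |∫ t in Set.Ioc x y, -(t * Real.log t ^ 2)⁻¹ * (A t - Real.log t)| ≤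
            C1 * ((Real.log x)⁻¹ - (Real.log y)⁻¹) := by
          rw [← hI2, ← MeasureTheory.integral_const_mul]
          rw [← Real.norm_eq_abs]
          apply MeasureTheory.norm_integral_le_of_norm_le
          · have := hint.neg.mono_set (Set.Ioc_subset_Icc_self (a := x) (b := y))
            have h2 : MeasureTheory.IntegrableOn (fun t => (t * Real.log t ^ 2)⁻¹) (Set.Ioc x y) := by
              apply this.congr_fun _ measurableSet_Ioc
              intro t _
              simp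
            exact h2.const_mul C1
          · rw [MeasureTheory.ae_restrict_iff' measurableSet_Ioc]
            apply Filter.Eventually.of_forall
            intro t ht
            have ht0 : 0 < t := by (clear * - hx ht; linarith [ht.1])
            have hlt : 0 < Real.log t := (Real.log_pos (by (clear * - hx ht; linarith [ht.1])))
            rw [norm_mul, norm_neg, Real.norm_eq_abs, Real.norm_eq_abs,
              abs_of_pos (by (clear * - ht0 hlt; positivity) : 0 < (t * Real.log t ^ 2)⁻¹), mul_comm]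
            exact mul_le_mul_of_nonneg_right (hAbound t (by (clear * - hx ht; linarith [ht.1]))) (by positivity)
        have hsplitI : ∫ t in Set.Ioc x y, -(t * Real.log t ^ 2)⁻¹ * (A t - Real.log t) =
            (∫ t in Set.Ioc x y, -(t * Real.log t ^ 2)⁻¹ * A t) +
              Real.log (Real.log y / Real.log x) := by
          have : ∀ t, -(t * Real.log t ^ 2)⁻¹ * (A t - Real.log t) =
            -(t * Real.log t ^ 2)⁻¹ * A t - -(t * Real.log t ^ 2)⁻¹ * Real.log t := by
            intro t; ring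
          simp_rw [this]
          rw [MeasureTheory.integral_sub hiA hiL, hI1]
          ring
        rw [hsplitI] at hdiffI
        have hbx := hAbound x hx
        have hby := hAbound y (by (clear * - hx hxy; linarith))
        have hly' : (Real.log y)⁻¹ ≤ (Real.log x)⁻¹ :=
          inv_anti₀ hlx (Real.log_le_log hx0 hxy)
        have e1 : |(Real.log y)⁻¹ * A y - 1| ≤ C1 * (Real.log y)⁻¹ := by
          have : (Real.log y)⁻¹ * A y - 1 = (A y - Real.log y) * (Real.log y)⁻¹ := by
            (clear * - hly; field_simp)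
          rw [this, abs_mul, abs_of_pos (inv_pos.mpr hly)]
          exact mul_le_mul_of_nonneg_right hby (inv_pos.mpr hly).le
        exact by
          have e2 : |(Real.log x)⁻¹ * A x - 1| ≤ C1 * (Real.log x)⁻¹ := by
            have : (Real.log x)⁻¹ * A x - 1 = (A x - Real.log x) * (Real.log x)⁻¹ := by
              (clear * - hlx; field_simp)
            rw [this, abs_mul, abs_of_pos (inv_pos.mpr hlx)]
            exact mul_le_mul_of_nonneg_right hbx (inv_pos.mpr hlx).le
          have habel' : ∑ q ∈ (Finset.Ioc ⌊x⌋₊ ⌊y⌋₊).filter Nat.Prime, (1:ℝ)/q =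
            (Real.log y)⁻¹ * A y - (Real.log x)⁻¹ * A x -
              ∫ t in Set.Ioc x y, -(t * Real.log t ^ 2)⁻¹ * A t := habel
          rw [habel']
          have hC1pos : 0 < C1 := by positivity
          have h9 : C1 * (Real.log y)⁻¹ ≤ C1 * (Real.log x)⁻¹ := mul_le_mul_of_nonneg_left hly' hC1pos.le
          have h10 : 3 * C1 / Real.log x = 3 * (C1 * (Real.log x)⁻¹) := by ring
          rw [h10]
          rw [abs_le] at e1 e2 hdiffI ⊢
          have h11 : 0 < (Real.log y)⁻¹ := inv_pos.mpr hly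
          have h12 : 0 < C1 * (Real.log y)⁻¹ := by positivity
          constructor <;> (clear * - hdiffI e1 e2 h12; nlinarith [e1.1, e1.2, e2.1, e2.2, hdiffI.1, hdiffI.2])

end Pool.Agent.M20.Helper44
end

/- Helper53.KN.Helper44.MertensProd -/
section
/-!
# Mertens' product, up to constants
-/

set_option autoImplicit false

open Finset Real

namespace Pool.Agent.M20.Helper44

theorem one_sub_ge_exp {x : ℝ} (h0 : 0 ≤ x) (h1 : x ≤ 1 / 2) : Real.exp (-(2 * x)) ≤ 1 - x := by
  have h2 : 2 * x + 1 ≤ Real.exp (2 * x) := Real.add_one_le_exp _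
  have h3 : 0 < Real.exp (2 * x) := Real.exp_pos _
  rw [Real.exp_neg, inv_le_comm₀ h3 (by linarith)]
  refine le_trans ?_ h2
  rw [inv_le_iff_one_le_mul₀ (by linarith)]
  nlinarith

theorem one_sub_ge_exp' {x : ℝ} (h0 : 0 ≤ x) (h1 : x ≤ 1 / 2) :
    Real.exp (-(x + 2 * x ^ 2)) ≤ 1 - x := by
  have h2 : (x + 2 * x ^ 2) + 1 ≤ Real.exp (x + 2 * x ^ 2) := Real.add_one_le_exp _
  have h3 : 0 < Real.exp (x + 2 * x ^ 2) := Real.exp_pos _
  rw [Real.exp_neg, inv_le_comm₀ h3 (by linarith)]
  refine le_trans ?_ h2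
  rw [inv_le_iff_one_le_mul₀ (by linarith)]
  nlinarith [sq_nonneg x, mul_nonneg h0 h0, mul_nonneg (mul_nonneg h0 h0) (by linarith : 0 ≤ 1 - 2 * x)]

theorem sum_inv_sq_le : ∃ C : ℝ, 0 ≤ C ∧ ∀ s : Finset ℕ, ∑ n ∈ s, ((1 : ℝ) / n) ^ 2 ≤ C := by
  have h : Summable (fun n : ℕ => ((1 : ℝ) / n) ^ 2) := by
    have := Real.summable_one_div_nat_pow.mpr (by norm_num : 1 < 2)
    refine this.congr ?_
    intro n
    rw [div_pow, one_pow]
  exact ⟨∑' n : ℕ, ((1 : ℝ) / n) ^ 2, tsum_nonneg fun n => by positivity,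
    fun s => h.sum_le_tsum s (fun n _ => by positivity)⟩

/-- Primes up to `w`. -/
noncomputable def primesUpTo (w : ℝ) : Finset ℕ := (Finset.Ioc 0 ⌊w⌋₊).filter Nat.Prime

theorem mem_primesUpTo {w : ℝ} (hw : 0 ≤ w) {q : ℕ} : q ∈ primesUpTo w ↔ q.Prime ∧ (q : ℝ) ≤ w := by
  unfold primesUpTo
  rw [Finset.mem_filter, Finset.mem_Ioc]
  constructor
  · rintro ⟨⟨_, h⟩, hq⟩
    exact ⟨hq, (Nat.le_floor_iff hw).mp h⟩
  · rintro ⟨hq, h⟩
    exact ⟨⟨hq.pos, (Nat.le_floor_iff hw).mpr h⟩, hq⟩

theorem sum_primesUpTo_bounds : ∃ C : ℝ, 0 < C ∧ ∀ w : ℝ, 2 ≤ w →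
    |∑ q ∈ primesUpTo w, (1 : ℝ) / q - Real.log (Real.log w)| ≤ C := by
  obtain ⟨C, hC, hM⟩ := mertens_interval
  refine ⟨C / Real.log 2 + 2, by positivity, ?_⟩
  intro w hw
  have h1 := hM 2 w le_rfl hw
  have hl2 : 0 < Real.log 2 := Real.log_pos (by norm_num)
  have hlw : 0 < Real.log w := Real.log_pos (by linarith)
  have hfl : (2 : ℕ) ≤ ⌊w⌋₊ := by
    rw [Nat.le_floor_iff (by linarith)]; exact_mod_cast hw
  have hsplit : ∑ q ∈ primesUpTo w, (1 : ℝ) / q =
      1 / 2 + ∑ q ∈ (Finset.Ioc ⌊(2:ℝ)⌋₊ ⌊w⌋₊).filter Nat.Prime, (1:ℝ)/q := by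
    have : ⌊(2:ℝ)⌋₊ = 2 := by norm_num
    rw [this]
    have hu : primesUpTo w = insert 2 ((Finset.Ioc 2 ⌊w⌋₊).filter Nat.Prime) := by
      ext q
      unfold primesUpTo
      simp only [Finset.mem_filter, Finset.mem_Ioc, Finset.mem_insert]
      constructor
      · rintro ⟨⟨h0, h⟩, hq⟩
        rcases eq_or_ne q 2 with h2 | h2
        · left; exact h2
        · right; exact ⟨⟨by have := hq.two_le; omega, h⟩, hq⟩
      · rintro (rfl | ⟨⟨h0, h⟩, hq⟩)
        · exact ⟨⟨by norm_num, hfl⟩, Nat.prime_two⟩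
        · exact ⟨⟨by omega, h⟩, hq⟩
    rw [hu, Finset.sum_insert]
    · norm_num
    · simp
  rw [hsplit]
  rw [Real.log_div hlw.ne' hl2.ne'] at h1
  have hll : |Real.log (Real.log 2)| ≤ 1 := by
    rw [abs_le]
    constructor
    · -- log log 2 ≥ -1 : log 2 ≥ exp (-1)
      have h3 : Real.exp (-1) ≤ Real.log 2 := by
        have h4 := Real.exp_neg_one_lt_d9
        have h5 := Real.log_two_gt_d9
        linarith
      calc (-1 : ℝ) = Real.log (Real.exp (-1)) := by rw [Real.log_exp]
        _ ≤ _ := Real.log_le_log (Real.exp_pos _) h3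
    · have := Real.log_le_sub_one_of_pos hl2
      have h5 := Real.log_two_lt_d9
      linarith
  rw [abs_le] at h1 hll ⊢
  constructor <;> linarith [h1.1, h1.2, hll.1, hll.2]

theorem mertens_prod : ∃ c C : ℝ, 0 < c ∧ 0 < C ∧ ∀ w : ℝ, 2 ≤ w →
    c / Real.log w ≤ ∏ q ∈ primesUpTo w, (1 - (1 : ℝ) / q) ∧
    ∏ q ∈ primesUpTo w, (1 - (1 : ℝ) / q) ≤ C / Real.log w := by
  obtain ⟨C, hC, hM⟩ := sum_primesUpTo_bounds
  obtain ⟨C2, hC2, hS⟩ := sum_inv_sq_le
  refine ⟨Real.exp (-(C + 2 * C2)), Real.exp C, Real.exp_pos _, Real.exp_pos _, ?_⟩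
  intro w hw
  have hlw : 0 < Real.log w := Real.log_pos (by linarith)
  have h1 := hM w hw
  rw [abs_le] at h1
  have hq : ∀ q ∈ primesUpTo w, (0 : ℝ) ≤ 1 / q ∧ (1 : ℝ) / q ≤ 1 / 2 := by
    intro q hq
    rw [mem_primesUpTo (by linarith)] at hq
    have : (2 : ℝ) ≤ q := by exact_mod_cast hq.1.two_le
    exact ⟨by positivity, one_div_le_one_div_of_le (by norm_num) this⟩
  constructor
  · calc Real.exp (-(C + 2 * C2)) / Real.log w
        = Real.exp (-(C + 2 * C2) - Real.log (Real.log w)) := by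
          rw [Real.exp_sub, Real.exp_log hlw]
      _ ≤ Real.exp (-∑ q ∈ primesUpTo w, ((1 : ℝ) / q + 2 * ((1 : ℝ) / q) ^ 2)) := by
          apply Real.exp_le_exp.mpr
          rw [Finset.sum_add_distrib, ← Finset.mul_sum]
          have := hS (primesUpTo w)
          linarith [h1.2]
      _ = ∏ q ∈ primesUpTo w, Real.exp (-((1 : ℝ) / q + 2 * ((1 : ℝ) / q) ^ 2)) := by
          rw [← Finset.sum_neg_distrib, Real.exp_sum]
      _ ≤ ∏ q ∈ primesUpTo w, (1 - (1 : ℝ) / q) := by
          apply Finset.prod_le_prod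
          · intro q _; exact (Real.exp_pos _).le
          · intro q hq'
            exact one_sub_ge_exp' (hq q hq').1 (hq q hq').2
  · calc ∏ q ∈ primesUpTo w, (1 - (1 : ℝ) / q)
        ≤ ∏ q ∈ primesUpTo w, Real.exp (-((1 : ℝ) / q)) := by
          apply Finset.prod_le_prod
          · intro q hq'
            linarith [(hq q hq').2]
          · intro q _
            have := Real.add_one_le_exp (-((1 : ℝ) / q))
            linarith
      _ = Real.exp (-∑ q ∈ primesUpTo w, (1 : ℝ) / q) := by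
          rw [← Real.exp_sum, Finset.sum_neg_distrib]
      _ ≤ Real.exp (C - Real.log (Real.log w)) := by
          apply Real.exp_le_exp.mpr
          linarith [h1.1]
      _ = Real.exp C / Real.log w := by rw [Real.exp_sub, Real.exp_log hlw]

end Pool.Agent.M20.Helper44
end

/- Helper53.KN.Helper44.SievePairs -/
section
/-!
# Two-dimensional sieve for pairs `(r, s)`
-/

set_option autoImplicit false

open Finset Real

namespace Pool.Agent.M20.Helper44

/-- Sieving scales `w^(1/2^j)`. -/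
noncomputable def zs (w : ℝ) (j : ℕ) : ℝ := w ^ ((1 / 2 : ℝ) ^ j)

theorem zs_zero (w : ℝ) : zs w 0 = w := by simp [zs]

theorem one_le_zs {w : ℝ} (hw : 1 ≤ w) (j : ℕ) : 1 ≤ zs w j :=
  Real.one_le_rpow hw (by positivity)

theorem zs_pos {w : ℝ} (hw : 1 ≤ w) (j : ℕ) : 0 < zs w j :=
  lt_of_lt_of_le one_pos (one_le_zs hw j)

theorem zs_succ_sq {w : ℝ} (hw : 1 ≤ w) (j : ℕ) : zs w (j + 1) ^ 2 = zs w j := by
  unfold zs
  rw [← Real.rpow_natCast, ← Real.rpow_mul (by linarith)]
  congr 1
  rw [pow_succ]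
  push_cast
  ring

theorem zs_succ_le {w : ℝ} (hw : 1 ≤ w) (j : ℕ) : zs w (j + 1) ≤ zs w j := by
  have h1 := one_le_zs hw (j + 1)
  rw [← zs_succ_sq hw j]
  nlinarith

theorem zs_anti {w : ℝ} (hw : 1 ≤ w) {i j : ℕ} (hij : i ≤ j) : zs w j ≤ zs w i := by
  induction j, hij using Nat.le_induction with
  | base => exact le_rfl
  | succ n _ ih => exact (zs_succ_le hw n).trans ih

theorem log_zs {w : ℝ} (hw : 0 < w) (j : ℕ) : Real.log (zs w j) = (1 / 2 : ℝ) ^ j * Real.log w := by
  unfold zs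
  rw [Real.log_rpow hw]

/-- Number of blocks. -/
noncomputable def nb (w : ℝ) : ℕ := ⌊w⌋₊ + 1

theorem zs_nb_lt {w : ℝ} (hw : 2 ≤ w) : zs w (nb w) < 2 := by
  have hw0 : 0 < w := by linarith
  rw [← Real.log_lt_log_iff (zs_pos (by linarith) _) (by norm_num), log_zs hw0]
  have h1 : ((nb w : ℕ) : ℝ) + 1 ≤ 2 ^ (nb w) := by
    have := Nat.lt_two_pow_self (n := nb w)
    exact_mod_cast this
  have h2 : w < nb w := by
    unfold nb
    push_cast
    exact Nat.lt_floor_add_one w
  have h3 : Real.log w ≤ w - 1 := Real.log_le_sub_one_of_pos hw0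
  have h4 : Real.log 2 > 0.5 := by
    have := Real.log_two_gt_d9; linarith
  have h5 : (0 : ℝ) < 2 ^ (nb w) := by positivity
  rw [one_div, inv_pow, inv_mul_lt_iff₀ h5]
  have h6 : (1 : ℝ) ≤ 2 ^ (nb w - 1) := one_le_pow₀ (by norm_num)
  -- 2^(nb w) * log 2 > log w
  have h7 : Real.log w ≤ Real.log (nb w) := Real.log_le_log hw0 h2.le
  have h8 : Real.log (nb w : ℝ) < (nb w : ℝ) * Real.log 2 := by
    have h9 : ((nb w : ℕ) : ℝ) < 2 ^ (nb w) := by linarith
    have h10 : (0 : ℝ) < (nb w : ℕ) := by linarith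
    calc Real.log (nb w : ℝ) < Real.log (2 ^ (nb w)) := Real.log_lt_log h10 h9
      _ = (nb w : ℝ) * Real.log 2 := by rw [Real.log_pow]
  have h11 : (nb w : ℝ) * Real.log 2 ≤ 2 ^ (nb w) * Real.log 2 := by
    apply mul_le_mul_of_nonneg_right _ (by linarith)
    linarith
  linarith

/-- Block `j` of primes (two copies). -/
noncomputable def blk (w : ℝ) (j : ℕ) : Finset (ℕ × Bool) :=
  ((Finset.Ioc ⌊zs w (j + 1)⌋₊ ⌊zs w j⌋₊).filter Nat.Prime) ×ˢ (Finset.univ : Finset Bool)

theorem mem_blk {w : ℝ} {j : ℕ} {i : ℕ × Bool} :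
    i ∈ blk w j ↔ (⌊zs w (j + 1)⌋₊ < i.1 ∧ i.1 ≤ ⌊zs w j⌋₊) ∧ i.1.Prime := by
  unfold blk
  simp [Finset.mem_product]

/-- The density of an event. -/
noncomputable def dens (i : ℕ × Bool) : ℝ := 1 / (i.1 : ℝ)

theorem sum_dens_blk (w : ℝ) (j : ℕ) : ∑ i ∈ blk w j, dens i =
    2 * ∑ q ∈ (Finset.Ioc ⌊zs w (j + 1)⌋₊ ⌊zs w j⌋₊).filter Nat.Prime, (1 : ℝ) / q := by
  unfold blk dens
  rw [Finset.sum_product]
  simp only [Finset.sum_const, Finset.card_univ, Fintype.card_bool, nsmul_eq_mul]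
  rw [Finset.mul_sum]
  rfl

theorem sum_dens_blk_le : ∃ S0 : ℝ, 0 < S0 ∧ ∀ w : ℝ, 2 ≤ w → ∀ j : ℕ,
    ∑ i ∈ blk w j, dens i ≤ S0 := by
  obtain ⟨C, hC, hM⟩ := mertens_interval
  have hl2 : 0 < Real.log 2 := Real.log_pos (by norm_num)
  refine ⟨2 * (Real.log 2 + C / Real.log 2) + 8, by positivity, ?_⟩
  intro w hw j
  rw [sum_dens_blk]
  have hw1 : (1 : ℝ) ≤ w := by linarith
  rcases lt_or_ge (zs w (j + 1)) 2 with h | h
  · -- small scale
    have h4 : zs w j < 4 := by
      rw [← zs_succ_sq hw1 j]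
      have := one_le_zs hw1 (j + 1)
      nlinarith
    have hfl : ⌊zs w j⌋₊ ≤ 3 := by
      have : ⌊zs w j⌋₊ < 4 := by
        rw [Nat.floor_lt (zs_pos hw1 j).le]
        exact_mod_cast h4
      omega
    have : ∑ q ∈ (Finset.Ioc ⌊zs w (j + 1)⌋₊ ⌊zs w j⌋₊).filter Nat.Prime, (1 : ℝ) / q ≤ 4 := by
      calc ∑ q ∈ (Finset.Ioc ⌊zs w (j + 1)⌋₊ ⌊zs w j⌋₊).filter Nat.Prime, (1 : ℝ) / q
          ≤ ∑ q ∈ (Finset.Ioc ⌊zs w (j + 1)⌋₊ ⌊zs w j⌋₊).filter Nat.Prime, 1 := by
            apply Finset.sum_le_sum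
            intro q hq
            have : (1 : ℝ) ≤ q := by exact_mod_cast (Finset.mem_filter.mp hq).2.one_lt.le
            rw [div_le_one (by linarith)]
            exact this
        _ = ((Finset.Ioc ⌊zs w (j + 1)⌋₊ ⌊zs w j⌋₊).filter Nat.Prime).card := by simp
        _ ≤ (4 : ℕ) := by
            have h1 : ((Finset.Ioc ⌊zs w (j + 1)⌋₊ ⌊zs w j⌋₊).filter Nat.Prime).card ≤
              (Finset.Ioc ⌊zs w (j + 1)⌋₊ ⌊zs w j⌋₊).card := Finset.card_filter_le _ _
            rw [Nat.card_Ioc] at h1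
            exact_mod_cast (by omega)
        _ = 4 := by norm_num
    have : 0 < C / Real.log 2 := by positivity
    linarith
  · have h1 := hM (zs w (j + 1)) (zs w j) h (zs_succ_le hw1 j)
    have hlz : 0 < Real.log (zs w (j + 1)) := Real.log_pos (by linarith)
    have h2 : Real.log (zs w j) / Real.log (zs w (j + 1)) = 2 := by
      rw [← zs_succ_sq hw1 j, Real.log_pow]
      push_cast
      field_simp
    rw [h2] at h1
    have h3 : C / Real.log (zs w (j + 1)) ≤ C / Real.log 2 := by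
      apply div_le_div_of_nonneg_left hC.le hl2
      exact Real.log_le_log (by norm_num) h
    rw [abs_le] at h1
    linarith [h1.2]

theorem sum_geo_le (t : ℕ) : ∑ j ∈ range t, (1 / 2 : ℝ) ^ j ≤ 2 := by
  have h : ∀ t : ℕ, ∑ j ∈ range t, (1 / 2 : ℝ) ^ j = 2 - 2 * (1 / 2 : ℝ) ^ t := by
    intro t
    induction t with
    | zero => simp
    | succ n ih => rw [Finset.sum_range_succ, ih]; ring
  rw [h]
  have : (0 : ℝ) ≤ (1 / 2 : ℝ) ^ t := by positivity
  linarith

theorem sum_geo_mul_le (t : ℕ) : ∑ j ∈ range t, (j : ℝ) * (1 / 2 : ℝ) ^ j ≤ 2 := by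
  have h : ∀ t : ℕ, ∑ j ∈ range t, (j : ℝ) * (1 / 2 : ℝ) ^ j = 2 - (2 * t + 2) * (1 / 2 : ℝ) ^ t := by
    intro t
    induction t with
    | zero => simp
    | succ n ih => rw [Finset.sum_range_succ, ih]; push_cast; ring
  rw [h]
  have : (0 : ℝ) ≤ (2 * t + 2) * (1 / 2 : ℝ) ^ t := by positivity
  linarith

theorem biUnion_blk {w : ℝ} (hw : 2 ≤ w) :
    (Finset.univ : Finset (Fin (nb w))).biUnion (fun j => blk w j) =
      primesUpTo w ×ˢ (Finset.univ : Finset Bool) := by
  have hw1 : (1 : ℝ) ≤ w := by linarith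
  ext i
  simp only [Finset.mem_biUnion, Finset.mem_univ, true_and, mem_blk, Finset.mem_product, and_true]
  rw [mem_primesUpTo (by linarith)]
  constructor
  · rintro ⟨j, ⟨_, h2⟩, h3⟩
    refine ⟨h3, ?_⟩
    have h4 : (i.1 : ℝ) ≤ zs w j := (Nat.le_floor_iff (zs_pos hw1 j).le).mp h2
    have h5 : zs w j ≤ w := by
      have := zs_anti hw1 (Nat.zero_le (j : ℕ))
      rwa [zs_zero] at this
    linarith
  · rintro ⟨hq, hle⟩
    -- find the last scale at least `i.1`
    have hex : ∃ j : ℕ, j < nb w ∧ (i.1 ≤ ⌊zs w j⌋₊ ∧ ¬ i.1 ≤ ⌊zs w (j + 1)⌋₊) := by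
      by_contra hcon
      push Not at hcon
      have hall : ∀ j : ℕ, j ≤ nb w → i.1 ≤ ⌊zs w j⌋₊ := by
        intro j
        induction j with
        | zero =>
          intro _
          rw [zs_zero, Nat.le_floor_iff (by linarith)]
          exact hle
        | succ n ih =>
          intro hn
          exact hcon n (by omega) (ih (by omega))
      have h6 := hall (nb w) le_rfl
      have h7 : (i.1 : ℝ) ≤ zs w (nb w) := (Nat.le_floor_iff (zs_pos hw1 _).le).mp h6
      have h8 := zs_nb_lt hw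
      have h9 : (2 : ℝ) ≤ i.1 := by exact_mod_cast hq.two_le
      linarith
    obtain ⟨j, hj, h1, h2⟩ := hex
    exact ⟨⟨j, hj⟩, ⟨by simpa using h2, h1⟩, hq⟩

end Pool.Agent.M20.Helper44
end

/- Helper53.KN.Helper14.KSP.Power -/
section
/-! The power lemma of project KS (MP_768c9c). -/

set_option autoImplicit false

open Finset

namespace Pool.Agent.M20.Helper14.KSP

/-- number of multiples of `h` in an interval -/
theorem card_multiples_le (a L h : ℕ) (hh : 0 < h) :
    (((Ico a (a + L)).filter (fun k => h ∣ k)).card : ℝ) ≤ (L : ℝ) / h + 1 := by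
  have h1 : ((Ico a (a + L)).filter (fun k => h ∣ k)).card ≤ L / h + 1 := by
    -- the map k ↦ k / h is injective on multiples, with image in a short interval
    have hinj : Set.InjOn (fun k => k / h) ((Ico a (a + L)).filter (fun k => h ∣ k) : Set ℕ) := by
      intro x hx y hy hxy
      have hx' := (mem_filter.mp (mem_coe.mp hx)).2
      have hy' := (mem_filter.mp (mem_coe.mp hy)).2
      have : x / h * h = y / h * h := by simp only at hxy; rw [hxy]
      rwa [Nat.div_mul_cancel hx', Nat.div_mul_cancel hy'] at this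
    rw [← card_image_of_injOn hinj]
    rcases (((Ico a (a + L)).filter (fun k => h ∣ k)).image (fun k => k / h)).eq_empty_or_nonempty
      with he | hne
    · rw [he]; simp
    · set I := ((Ico a (a + L)).filter (fun k => h ∣ k)).image (fun k => k / h) with hI
      have hmin := I.min'_mem hne
      have hsub : I ⊆ Icc (I.min' hne) (I.min' hne + L / h) := by
        intro z hz
        refine mem_Icc.mpr ⟨I.min'_le z hz, ?_⟩
        obtain ⟨k, hk, rfl⟩ := mem_image.mp hz
        obtain ⟨k0, hk0, hk0e⟩ := mem_image.mp hmin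
        have hk1 := mem_filter.mp hk
        have hk2 := mem_filter.mp hk0
        rw [← hk0e]
        obtain ⟨u, hu⟩ := hk1.2
        obtain ⟨u0, hu0⟩ := hk2.2
        have hb1 := mem_Ico.mp hk1.1
        have hb2 := mem_Ico.mp hk2.1
        rw [hu, hu0, Nat.mul_div_cancel_left _ hh, Nat.mul_div_cancel_left _ hh]
        have : h * u < h * u0 + L := by rw [← hu, ← hu0]; omega
        by_contra hlt
        push Not at hlt
        have h3 : L / h + 1 + u0 ≤ u := by omega
        have h4 : h * (L / h + 1 + u0) ≤ h * u := Nat.mul_le_mul_left h h3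
        have h5 : L < h * (L / h + 1) := by
          have := Nat.lt_mul_div_succ L hh
          simpa using this
        have h6 : h * (L / h + 1 + u0) = h * (L / h + 1) + h * u0 := by ring
        omega
      calc I.card ≤ (Icc (I.min' hne) (I.min' hne + L / h)).card := card_le_card hsub
        _ = L / h + 1 := by
          rw [Nat.card_Icc]
          generalize L / h = z
          omega
  calc (((Ico a (a + L)).filter (fun k => h ∣ k)).card : ℝ) ≤ ((L / h + 1 : ℕ) : ℝ) := by
        exact_mod_cast h1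
    _ ≤ (L : ℝ) / h + 1 := by
        push_cast
        have := @Nat.cast_div_le ℝ _ _ _ L h
        linarith

end Pool.Agent.M20.Helper14.KSP
end

/- Helper53.KN.Helper10.QRH.StB -/
section
/-! Statements of Part B of project QRH (MP_768c9c_nt): integers n = q m in every interval [x, x+h),
h >= x^(1/2-phi), with a prime q >= x^(1/2+kappa) and m free of primes < x^eta. -/

set_option autoImplicit false
open Filter Topology
open scoped Classical

namespace Pool.Agent.M20.Helper10.QRH

open Pool.Agent.M20.Helper44 (primesUpTo)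

noncomputable def ee (x : ℝ) : ℂ := Complex.exp (2 * Real.pi * x * Complex.I)

/-- B7: few integers divisible by the square of a prime > z -/
def Squares : Prop := ∃ X0 : ℕ, ∀ x h : ℕ, X0 ≤ x → (h : ℝ) ≤ (x : ℝ) ^ (1/2 : ℝ) → ∀ z : ℝ,
    1 ≤ z →
    (((Finset.Ico x (x + h)).filter (fun n => ∃ p : ℕ, p.Prime ∧ z < p ∧ p ^ 2 ∣ n)).card : ℝ) ≤
      2 * h / z + 4 * (x : ℝ) ^ (1/3 : ℝ)

end Pool.Agent.M20.Helper10.QRH
end

/- Helper53.KN.Helper40.AV.St -/
section
/-!
# Project AV (part of KS, MP_768c9c_nt): rough integers with a large prime factor in short intervals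

Statements of the modules.
-/

set_option autoImplicit false

open Filter Topology

namespace Pool.Agent.M20.Helper40.AV

open Pool.Agent.M20.Helper44 (primesUpTo)

/-- the product over the primes `r ≤ z` -/
noncomputable def VV (z : ℝ) : ℝ := ∏ r ∈ primesUpTo z, (1 - (1 : ℝ) / r)

/-- the primes in `(a, b]` -/
noncomputable def PI (a b : ℝ) : Finset ℕ := (primesUpTo b).filter fun p => a < (p : ℝ)

open Classical in
/-- the integers in `[y, y + l)` all of whose prime factors exceed `z` -/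
noncomputable def RS (y l : ℕ) (z : ℝ) : Finset ℕ :=
  (Finset.Ico y (y + l)).filter fun n => ∀ r : ℕ, r.Prime → r ∣ n → z < r

open Classical in
/-- Selberg's sum -/
noncomputable def GG (z Y : ℝ) : ℝ :=
  ∑ m ∈ (Finset.Icc 1 ⌊Y⌋₊).filter (fun m => Squarefree m ∧
    ∀ r : ℕ, r.Prime → r ∣ m → (r : ℝ) ≤ z), (1 : ℝ) / m.totient

/-- AV1: Mertens' third theorem -/
def Mertens3 : Prop :=
  Tendsto (fun z => VV z * Real.log z) atTop (𝓝 (Real.exp (-Real.eulerMascheroniConstant)))

/-- AV1b -/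
def GammaNum : Prop :=
  (0.557 : ℝ) ≤ Real.exp (-Real.eulerMascheroniConstant) ∧
    Real.exp (-Real.eulerMascheroniConstant) ≤ 0.57

open Classical in
/-- AV2: Selberg's sieve for multiples of `p` in an interval (`p = 1` allowed) -/
def SelbergP : Prop :=
  ∀ (y l p : ℕ) (z Y : ℝ), 1 ≤ p → 1 ≤ Y →
    ((((Finset.Ico y (y + l)).filter fun n => p ∣ n ∧
      ∀ r : ℕ, r.Prime → r ∣ n → z < r).card : ℕ) : ℝ) ≤ (l / p + 1) / GG z Y + Y ^ 2

/-- AV3a: lower bound for Selberg's sum, `1 ≤ u ≤ 2` -/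
def GGlow : Prop :=
  ∃ C : ℝ, ∀ z u : ℝ, 2 ≤ z → 1 ≤ u → u ≤ 2 →
    (2 * u - 1 - u * Real.log u) * Real.log z - C ≤ GG z (z ^ u)

/-- AV3a: trivial lower bound for Selberg's sum, `Y ≤ z` -/
def GGtriv : Prop := ∀ z Y : ℝ, 1 ≤ Y → Y ≤ z → Real.log Y ≤ GG z Y

/-- AV3b: Selberg's sum for large `u` (Rankin) -/
def GGrankin : Prop :=
  ∃ z₀ : ℝ, 2 ≤ z₀ ∧ ∀ z u : ℝ, z₀ ≤ z → 0 ≤ u →
    1 - Real.exp (4.2 - 2 * u) ≤ VV z * GG z (z ^ u)

/-- AV4: sums over primes and integrals -/
def PrimeInt : Prop :=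
  ∀ (α β : ℝ) (f : ℝ → ℝ), 0 < α → α ≤ β → ContinuousOn f (Set.Icc α β) →
    Tendsto (fun X : ℝ => ∑ p ∈ PI (X ^ α) (X ^ β), (1 : ℝ) / p * f (Real.log p / Real.log X)) atTop
      (𝓝 (∫ a in α..β, f a / a))

open Classical in
/-- AV5: Buchstab's inequality -/
def Buchstab : Prop :=
  ∀ (y l : ℕ) (w z : ℝ), 1 ≤ w → w ≤ z →
    ((RS y l w).card : ℝ) ≤ (RS y l z).card + ∑ p ∈ PI w z,
      ((((Finset.Ico y (y + l)).filter fun n => p ∣ n ∧
        ∀ r : ℕ, r.Prime → r ∣ n → (p : ℝ) - 1 / 2 < r).card : ℕ) : ℝ)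

/-- AV5: the product telescopes -/
def Telescope : Prop :=
  ∀ w z : ℝ, 1 ≤ w → w ≤ z → VV w - VV z = ∑ p ∈ PI w z, VV ((p : ℝ) - 1 / 2) / p

/-- AV0: fundamental lemma with a quantitative level -/
def RoughQ : Prop :=
  ∀ η : ℝ, 0 < η → ∃ ε K z₀ : ℝ, 0 < ε ∧ 1 ≤ K ∧ ε * K ≤ η ∧ ∀ z : ℝ, z₀ ≤ z → ∀ y l : ℕ,
    z ^ K ≤ (l : ℝ) → (1 - ε) * l * VV z ≤ (RS y l z).card

/-- the function in the lower bound of Selberg's sum -/
noncomputable def cu (u : ℝ) : ℝ := 2 * u - 1 - u * Real.log u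

end Pool.Agent.M20.Helper40.AV
end

/- Helper53.KN.Helper40.AV.St2 -/
section
/-!
# Project AV, second part: the linear sieve for intervals by iteration

Statements of the modules.
-/

set_option autoImplicit false

open Filter Topology

namespace Pool.Agent.M20.Helper40.AV

/-- upper bound for the number of integers free of primes `≤ z` in intervals of length `≥ z ^ s` -/
def UpB (s F : ℝ) : Prop :=
  ∀ ε : ℝ, 0 < ε → ∃ z₀ : ℝ, ∀ z : ℝ, z₀ ≤ z → ∀ y l : ℕ, z ^ s ≤ l →
    ((RS y l z).card : ℝ) ≤ (F + ε) * l * VV z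

/-- lower bound -/
def LoB (s f : ℝ) : Prop :=
  ∀ ε : ℝ, 0 < ε → ∃ z₀ : ℝ, ∀ z : ℝ, z₀ ≤ z → ∀ y l : ℕ, z ^ s ≤ l →
    (f - ε) * l * VV z ≤ ((RS y l z).card : ℝ)

/-- LS1 -/
def SelUp : Prop :=
  (∀ s : ℝ, 1 ≤ s → s ≤ 2 → UpB s (2 * Real.exp Real.eulerMascheroniConstant / s)) ∧
  (∀ s : ℝ, 2 ≤ s → s ≤ 4 → UpB s (Real.exp Real.eulerMascheroniConstant / cu (s / 2)))

/-- LS4: Buchstab step, lower bound -/
def StepLo : Prop :=
  ∀ (s T g : ℝ) (n : ℕ) (t F : ℕ → ℝ), 1 < s → t 0 = s → t n = T → (∀ i < n, t i < t (i + 1)) →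
    (∀ i < n, UpB (t i - 1) (F i)) → LoB T g →
    LoB s (T / s * g - 1 / s * ∑ i ∈ Finset.range n, (t (i + 1) - t i) * F i)

/-- LS5: Buchstab step, upper bound -/
def StepUp : Prop :=
  ∀ (s T G : ℝ) (n : ℕ) (t f : ℕ → ℝ), 1 < s → t 0 = s → t n = T → (∀ i < n, t i < t (i + 1)) →
    (∀ i < n, f i = 0 ∨ (3 ≤ t i ∧ LoB (t i - 1) (f i))) → UpB T G →
    UpB s (T / s * G - 1 / s * ∑ i ∈ Finset.range n, (t (i + 1) - t i) * f i)

end Pool.Agent.M20.Helper40.AV
end

/- Helper53.KN.Helper4.QRH.Squares -/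
section
/-! Module B7 of project QRH: few integers of a short interval are divisible by the square of a
large prime. -/

set_option autoImplicit false

open Filter Topology
open scoped Classical

namespace Pool.Agent.M20.Helper4.QRH

open Pool.Agent.M20.Helper10.QRH

theorem card_dvd_Ico_le (x h d : ℕ) (hd : 0 < d) :
    (((Finset.Ico x (x + h)).filter (fun n => d ∣ n)).card : ℝ) ≤ (h : ℝ) / d + 1 := by
  have e1 : (Finset.Ico x (x + h)).filter (fun n => d ∣ n)
      = (Finset.Ico x (x + h)).filter (fun n => n ≡ 0 [MOD d]) := by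
    apply Finset.filter_congr
    intro n _
    rw [Nat.modEq_zero_iff_dvd]
  have h1 := Nat.Ico_filter_modEq_card x (x + h) hd 0
  rw [e1]
  have hd' : (0 : ℚ) < d := by exact_mod_cast hd
  have h2 : (max (⌈(((x + h : ℕ) : ℚ) - (0 : ℕ)) / (d : ℚ)⌉ - ⌈((x : ℚ) - (0 : ℕ)) / (d : ℚ)⌉) 0 : ℤ)
      ≤ (h : ℚ) / d + 1 := by
    have a1 := Int.ceil_lt_add_one ((((x + h : ℕ) : ℚ) - (0 : ℕ)) / (d : ℚ))
    have a2 := Int.le_ceil (((x : ℚ) - (0 : ℕ)) / (d : ℚ))
    have e2 : (((x + h : ℕ) : ℚ) - (0 : ℕ)) / (d : ℚ) = ((x : ℚ) - (0 : ℕ)) / (d : ℚ) + h / d := by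
      push_cast; ring
    rw [e2] at a1 ⊢
    push_cast
    apply max_le
    · (clear * - a1 a2; linarith)
    · (clear * - hd; positivity)
  rw [← h1] at h2
  have h3 : ((((((Finset.Ico x (x + h)).filter (fun n => n ≡ 0 [MOD d])).card : ℤ) : ℚ)) : ℝ)
      ≤ (((h : ℚ) / d + 1 : ℚ) : ℝ) := by exact_mod_cast h2
  push_cast at h3
  exact h3

theorem sum_inv_sq_gt (z : ℝ) (hz : 1 ≤ z) (N : ℕ) :
    ∑ p ∈ (Finset.range (N + 1)).filter (fun p : ℕ => z < (p : ℝ)), 1 / ((p : ℝ) ^ 2) ≤ 2 / z := by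
  have hf : 1 ≤ ⌊z⌋₊ := Nat.le_floor (by simpa using hz)
  have hsub : (Finset.range (N + 1)).filter (fun p : ℕ => z < (p : ℝ)) ⊆
      Finset.Ioc ⌊z⌋₊ (max ⌊z⌋₊ N) := by
    intro p hp
    rw [Finset.mem_filter, Finset.mem_range] at hp
    rw [Finset.mem_Ioc]
    refine ⟨(Nat.floor_lt (by (clear * - hz; linarith))).mpr hp.2, le_max_of_le_right (by omega)⟩
  have h1 := Finset.sum_le_sum_of_subset_of_nonneg (f := fun p : ℕ => (((p : ℝ) ^ 2)⁻¹)) hsub
    (fun i _ _ => by (clear * -; positivity))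
  have h2 := sum_Ioc_inv_sq_le_sub (α := ℝ) (k := ⌊z⌋₊) (n := max ⌊z⌋₊ N) (by omega)
    (le_max_left _ _)
  have h3 : (0 : ℝ) ≤ ((max ⌊z⌋₊ N : ℕ) : ℝ)⁻¹ := by (clear * - hf; positivity)
  have hf' : (1 : ℝ) ≤ (⌊z⌋₊ : ℝ) := by exact_mod_cast hf
  have h4 : ((⌊z⌋₊ : ℝ))⁻¹ ≤ 2 / z := by
    rw [inv_eq_one_div, div_le_div_iff₀ (by (clear * - hf'; linarith)) (by (clear * - hz; linarith))]
    have := Nat.lt_floor_add_one z
    (clear * - hf' this; linarith)
  have e : ∑ p ∈ (Finset.range (N + 1)).filter (fun p : ℕ => z < (p : ℝ)), 1 / ((p : ℝ) ^ 2)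
      = ∑ p ∈ (Finset.range (N + 1)).filter (fun p : ℕ => z < (p : ℝ)), (((p : ℝ) ^ 2)⁻¹) := by
    apply Finset.sum_congr rfl; intro p _; rw [one_div]
  rw [e]
  push_cast at h1 h2 h3 ⊢
  (clear * - h1 h4 h2 h3; linarith)

/-- at most one multiple `m p²` in an interval of length `h ≤ √x` -/
theorem sq_unique (x h m p q : ℕ) (hx : 1 ≤ x) (hh : (h : ℝ) ≤ (x : ℝ) ^ (1 / 2 : ℝ)) (hm : 1 ≤ m)
    (h1 : x ≤ m * p ^ 2) (h2 : m * q ^ 2 < x + h) (hpq : p < q) : False := by
  have hx0 : (0 : ℝ) < x := by exact_mod_cast hx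
  have hh2 : (h : ℝ) ^ 2 ≤ x := by
    have : ((x : ℝ) ^ (1 / 2 : ℝ)) ^ 2 = x := by
      rw [← Real.rpow_natCast, ← Real.rpow_mul hx0.le]; norm_num
    calc (h : ℝ) ^ 2 ≤ ((x : ℝ) ^ (1 / 2 : ℝ)) ^ 2 := by (clear * - hh; gcongr)
      _ = (x : ℝ) := this
  have hh3 : h ^ 2 ≤ x := by exact_mod_cast hh2
  have h3 : m * p ^ 2 + 2 * (m * p) < x + h := by
    have : m * (p + 1) ^ 2 ≤ m * q ^ 2 := by gcongr; omega
    (clear * - hm h2 this; nlinarith)
  have h4 : 2 * (m * p) < h := by omega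
  have h5 : (2 * (m * p)) ^ 2 < h ^ 2 := by
    apply Nat.pow_lt_pow_left h4 (by norm_num)
  have h6 : (2 * (m * p)) ^ 2 = 4 * m * (m * p ^ 2) := by ring
  have h7 : x ≤ 4 * m * (m * p ^ 2) := by (clear * - hx hh3 h5 hm h1; nlinarith)
  omega

theorem squares : Squares := by
  refine ⟨1, ?_⟩
  intro x h hx hh z hz
  have hx0 : (0 : ℝ) < x := by exact_mod_cast hx
  have hx1 : (1 : ℝ) ≤ x := by exact_mod_cast hx
  set y : ℝ := (x : ℝ) ^ (1 / 3 : ℝ) with hy
  have hy1 : 1 ≤ y := Real.one_le_rpow hx1 (by norm_num)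
  have hy3 : y ^ 3 = x := by
    rw [hy, ← Real.rpow_natCast, ← Real.rpow_mul hx0.le]; norm_num
  have hhx : (h : ℝ) ≤ x := by
    refine hh.trans ?_
    calc (x : ℝ) ^ (1 / 2 : ℝ) ≤ (x : ℝ) ^ (1 : ℝ) :=
          Real.rpow_le_rpow_of_exponent_le hx1 (by norm_num)
      _ = x := Real.rpow_one _
  set N := ⌊y⌋₊ with hN
  set A := (Finset.Ico x (x + h)).filter (fun n => ∃ p : ℕ, p.Prime ∧ z < p ∧ p ^ 2 ∣ n) with hA
  set P := (Finset.range (N + 1)).filter (fun p : ℕ => z < (p : ℝ)) with hP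
  set A1 := P.biUnion (fun p => (Finset.Ico x (x + h)).filter (fun n => p ^ 2 ∣ n)) with hA1
  set A2 := (Finset.Ico x (x + h)).filter (fun n => ∃ p : ℕ, y < (p : ℝ) ∧ p ^ 2 ∣ n) with hA2
  have hsub : A ⊆ A1 ∪ A2 := by
    intro n hn
    rw [hA, Finset.mem_filter] at hn
    obtain ⟨hn1, p, hp, hzp, hpn⟩ := hn
    rw [Finset.mem_union]
    by_cases hpy : (p : ℝ) ≤ y
    · left
      rw [hA1, Finset.mem_biUnion]
      refine ⟨p, ?_, ?_⟩
      · rw [hP, Finset.mem_filter, Finset.mem_range]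
        exact ⟨Nat.lt_succ_of_le (Nat.le_floor hpy), hzp⟩
      · rw [Finset.mem_filter]; exact ⟨hn1, hpn⟩
    · right
      rw [hA2, Finset.mem_filter]
      exact ⟨hn1, p, not_le.mp hpy, hpn⟩
  have hc1 : (A1.card : ℝ) ≤ 2 * h / z + y + 1 := by
    have h1 : (A1.card : ℝ) ≤ ∑ p ∈ P, ((((Finset.Ico x (x + h)).filter (fun n => p ^ 2 ∣ n)).card : ℕ) : ℝ) := by
      exact_mod_cast Finset.card_biUnion_le
    have h2 : ∑ p ∈ P, ((((Finset.Ico x (x + h)).filter (fun n => p ^ 2 ∣ n)).card : ℕ) : ℝ)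
        ≤ ∑ p ∈ P, ((h : ℝ) * (1 / (p : ℝ) ^ 2) + 1) := by
      apply Finset.sum_le_sum
      intro p hp
      have hp0 : 0 < p := by
        rw [hP, Finset.mem_filter] at hp
        have : (0 : ℝ) < p := by (clear * - hz hp; linarith [hp.2])
        exact_mod_cast this
      have := card_dvd_Ico_le x h (p ^ 2) (by (clear * - hp0; positivity))
      push_cast at this
      rw [mul_one_div]
      exact this
    rw [Finset.sum_add_distrib, ← Finset.mul_sum, Finset.sum_const, nsmul_eq_mul, mul_one] at h2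
    have h3 := mul_le_mul_of_nonneg_left (sum_inv_sq_gt z hz N) (Nat.cast_nonneg (α := ℝ) h)
    have h4 : (P.card : ℝ) ≤ y + 1 := by
      have h5 : P.card ≤ N + 1 := by
        rw [hP]
        exact (Finset.card_filter_le _ _).trans (by simp)
      have h6 : ((N + 1 : ℕ) : ℝ) ≤ y + 1 := by
        push_cast
        have := Nat.floor_le (show 0 ≤ y by (clear * - hy1; linarith))
        (clear * - this; linarith)
      exact le_trans (by exact_mod_cast h5) h6
    have e : (h : ℝ) * (2 / z) = 2 * h / z := by ring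
    rw [e] at h3
    (clear * - h1 h2 h3 h4; linarith)
  have hc2 : (A2.card : ℝ) ≤ 2 * y := by
    have hex : ∀ n : ℕ, ∃ p : ℕ, n ∈ A2 → y < (p : ℝ) ∧ p ^ 2 ∣ n := by
      intro n
      by_cases hn : n ∈ A2
      · rw [hA2, Finset.mem_filter] at hn
        obtain ⟨p, hp⟩ := hn.2
        exact ⟨p, fun _ => hp⟩
      · exact ⟨0, fun h => absurd h hn⟩
    choose p hp using hex
    have hprop : ∀ n ∈ A2, 1 ≤ n / (p n) ^ 2 ∧ n = n / (p n) ^ 2 * (p n) ^ 2 ∧
        (((n / (p n) ^ 2 : ℕ)) : ℝ) ≤ 2 * y := by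
      intro n hn
      obtain ⟨h1, h2⟩ := hp n hn
      have hn' := hn
      rw [hA2, Finset.mem_filter, Finset.mem_Ico] at hn'
      have hn0 : 0 < n := by omega
      have hp0 : 0 < p n := by
        have : (0 : ℝ) < p n := by (clear * - hy1 h1; linarith)
        exact_mod_cast this
      have e1 : n / (p n) ^ 2 * (p n) ^ 2 = n := Nat.div_mul_cancel h2
      refine ⟨Nat.div_pos (Nat.le_of_dvd hn0 h2) (by positivity), e1.symm, ?_⟩
      have e2 : (((n / (p n) ^ 2 : ℕ)) : ℝ) * (p n : ℝ) ^ 2 = n := by exact_mod_cast e1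
      have h3 : (n : ℝ) ≤ 2 * x := by
        have : (n : ℝ) < x + h := by exact_mod_cast hn'.1.2
        (clear * - hhx this; linarith)
      have h4 : (((n / (p n) ^ 2 : ℕ)) : ℝ) * y ^ 2 ≤ 2 * y * y ^ 2 := by
        calc (((n / (p n) ^ 2 : ℕ)) : ℝ) * y ^ 2 ≤ (((n / (p n) ^ 2 : ℕ)) : ℝ) * (p n : ℝ) ^ 2 := by
              (clear * - hx h1; gcongr)
          _ = (n : ℝ) := e2
          _ ≤ 2 * (x : ℝ) := h3
          _ = 2 * y * y ^ 2 := by rw [← hy3]; ring
      exact le_of_mul_le_mul_right h4 (by positivity)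
    have hcard : A2.card ≤ (Finset.Icc 1 ⌊2 * y⌋₊).card := by
      apply Finset.card_le_card_of_injOn (fun n => n / (p n) ^ 2)
      · intro n hn
        obtain ⟨h1, -, h3⟩ := hprop n hn
        simp only [Finset.coe_Icc, Set.mem_Icc]
        exact ⟨h1, Nat.le_floor h3⟩
      · intro n hn n' hn' hnn
        obtain ⟨a1, a2, -⟩ := hprop n hn
        obtain ⟨b1, b2, -⟩ := hprop n' hn'
        simp only at hnn
        rw [← hnn] at b2 b1
        have c1 : x ≤ n ∧ n < x + h := by
          have := hn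
          rw [Finset.mem_coe, hA2, Finset.mem_filter, Finset.mem_Ico] at this
          exact this.1
        have c2 : x ≤ n' ∧ n' < x + h := by
          have := hn'
          rw [Finset.mem_coe, hA2, Finset.mem_filter, Finset.mem_Ico] at this
          exact this.1
        rcases lt_trichotomy (p n) (p n') with hlt | heq | hgt
        · exact (sq_unique x h _ _ _ hx hh a1 (a2 ▸ c1.1) (b2 ▸ c2.2) hlt).elim
        · rw [a2, b2, heq]
        · exact (sq_unique x h _ _ _ hx hh a1 (b2 ▸ c2.1) (a2 ▸ c1.2) hgt).elim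
    rw [Nat.card_Icc] at hcard
    have h5 : ((⌊2 * y⌋₊ : ℕ) : ℝ) ≤ 2 * y := Nat.floor_le (by (clear * - hy1; linarith))
    have h6 : (A2.card : ℝ) ≤ (⌊2 * y⌋₊ : ℕ) := by
      exact_mod_cast (by omega : A2.card ≤ ⌊2 * y⌋₊)
    (clear * - h5 h6; linarith)
  have hc : (A.card : ℝ) ≤ A1.card + A2.card := by
    exact_mod_cast (Finset.card_le_card hsub).trans (Finset.card_union_le _ _)
  linarith

end Pool.Agent.M20.Helper4.QRH
end

/- Helper53.KN.Helper33.AV.PrimeInt -/
section
/-!
# Project AV (helper40), module AV4: sums over primes as integrals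
-/

set_option autoImplicit false

open Filter Topology

namespace Pool.Agent.M20.Helper33.AV

open Pool.Agent.M20.Helper44 (primesUpTo)
open Pool.Agent.M20.Helper40.AV

theorem PI_eq {a b : ℝ} (ha : 0 ≤ a) :
    PI a b = (Finset.Ioc ⌊a⌋₊ ⌊b⌋₊).filter Nat.Prime := by
  ext p
  simp only [PI, primesUpTo, Finset.mem_filter, Finset.mem_Ioc]
  constructor
  · rintro ⟨⟨⟨_, h1⟩, h2⟩, h3⟩
    exact ⟨⟨(Nat.floor_lt ha).mpr h3, h1⟩, h2⟩
  · rintro ⟨⟨h0, h1⟩, h2⟩
    exact ⟨⟨⟨h2.pos, h1⟩, h2⟩, (Nat.floor_lt ha).mp h0⟩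

theorem mem_PI {a b : ℝ} (hb : 0 ≤ b) {p : ℕ} : p ∈ PI a b ↔ p.Prime ∧ a < p ∧ (p:ℝ) ≤ b := by
  unfold PI
  rw [Finset.mem_filter, Pool.Agent.M20.Helper44.mem_primesUpTo hb]
  tauto

theorem sum_PI_add {a b c : ℝ} (hab : a ≤ b) (hbc : b ≤ c) (hb : 0 ≤ b) (g : ℕ → ℝ) :
    ∑ p ∈ PI a c, g p = ∑ p ∈ PI a b, g p + ∑ p ∈ PI b c, g p := by
  have hc : 0 ≤ c := hb.trans hbc
  have h1 : PI a c = PI a b ∪ PI b c := by
    ext p
    rw [Finset.mem_union, mem_PI hc, mem_PI hb, mem_PI hc]
    constructor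
    · rintro ⟨h1, h2, h3⟩
      rcases le_or_gt (p : ℝ) b with h | h
      · exact Or.inl ⟨h1, h2, h⟩
      · exact Or.inr ⟨h1, h, h3⟩
    · rintro (⟨h1, h2, h3⟩ | ⟨h1, h2, h3⟩)
      · exact ⟨h1, h2, h3.trans hbc⟩
      · exact ⟨h1, hab.trans_lt h2, h3⟩
  rw [h1, Finset.sum_union]
  rw [Finset.disjoint_left]
  intro p h2 h3
  rw [mem_PI hb] at h2
  rw [mem_PI hc] at h3
  (clear * - h2 h3; linarith [h2.2.2, h3.2.1])

theorem S_tendsto {a b : ℝ} (ha : 0 < a) (hab : a ≤ b) :
    Tendsto (fun X : ℝ => ∑ p ∈ PI (X ^ a) (X ^ b), (1 : ℝ) / p) atTop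
      (𝓝 (Real.log (b / a))) := by
  obtain ⟨C, hC, hM⟩ := Pool.Agent.M20.Helper44.mertens_interval
  rw [tendsto_iff_dist_tendsto_zero]
  have h1 : ∀ᶠ X : ℝ in atTop, 2 ≤ X ^ a := (tendsto_rpow_atTop ha).eventually_ge_atTop 2
  have h2 : Tendsto (fun X : ℝ => C / (a * Real.log X)) atTop (𝓝 0) :=
    Tendsto.const_div_atTop (Tendsto.const_mul_atTop ha Real.tendsto_log_atTop) C
  refine squeeze_zero' (Eventually.of_forall fun _ => dist_nonneg) ?_ h2
  filter_upwards [h1, eventually_gt_atTop 1] with X hX hX1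
  have hX0 : 0 < X := by (clear * - hX1; linarith)
  have hlX : 0 < Real.log X := Real.log_pos hX1
  have h3 := hM (X ^ a) (X ^ b) hX (Real.rpow_le_rpow_of_exponent_le hX1.le hab)
  rw [Real.log_rpow hX0, Real.log_rpow hX0, mul_div_mul_right _ _ hlX.ne'] at h3
  rw [PI_eq (Real.rpow_nonneg hX0.le a), Real.dist_eq]
  exact h3

theorem step {a b ε η : ℝ} {f : ℝ → ℝ} (ha : 0 < a) (hab : a ≤ b)
    (hf : ContinuousOn f (Set.Icc a b)) (hε : 0 ≤ ε) (hη : 0 < η)
    (hosc : ∀ t ∈ Set.Icc a b, |f t - f b| ≤ ε) :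
    ∀ᶠ X : ℝ in atTop, |∑ p ∈ PI (X ^ a) (X ^ b), (1 : ℝ) / p * f (Real.log p / Real.log X) -
      ∫ t in a..b, f t / t| ≤ 2 * ε * Real.log (b / a) + η := by
  have hb : 0 < b := ha.trans_le hab
  set L := Real.log (b / a) with hL
  have hL0 : 0 ≤ L := Real.log_nonneg ((one_le_div ha).mpr hab)
  have hcont1 : ContinuousOn (fun t : ℝ => 1 / t) (Set.uIcc a b) := by
    rw [Set.uIcc_of_le hab]
    apply ContinuousOn.div continuousOn_const continuousOn_id
    intro t ht
    exact (ha.trans_le ht.1).ne'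
  have hcont2 : ContinuousOn (fun t : ℝ => (f t - f b) / t) (Set.uIcc a b) := by
    rw [Set.uIcc_of_le hab]
    apply ContinuousOn.div (hf.sub continuousOn_const) continuousOn_id
    intro t ht
    exact (ha.trans_le ht.1).ne'
  have hint1 : ∫ t in a..b, 1 / t = L := by
    rw [integral_one_div_of_pos ha hb]
  exact by
    have hI : |(∫ t in a..b, f t / t) - f b * L| ≤ ε * L := by
      have h1 : (∫ t in a..b, f t / t) = (∫ t in a..b, (f t - f b) / t) + f b * L := by
        rw [← hint1, ← intervalIntegral.integral_const_mul, ← intervalIntegral.integral_add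
          hcont2.intervalIntegrable (hcont1.intervalIntegrable.const_mul _)]
        apply intervalIntegral.integral_congr
        intro t _
        simp only
        ring
      rw [h1, add_sub_cancel_right]
      have h2 : ∫ t in a..b, ε * (1 / t) = ε * L := by
        rw [intervalIntegral.integral_const_mul, hint1]
      rw [← h2, ← Real.norm_eq_abs]
      apply intervalIntegral.norm_integral_le_of_norm_le hab _
        (hcont1.intervalIntegrable.const_mul _)
      refine Eventually.of_forall fun t ht => ?_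
      have ht0 : 0 < t := ha.trans ht.1
      rw [Real.norm_eq_abs, abs_div, abs_of_pos ht0, div_eq_mul_one_div]
      exact mul_le_mul_of_nonneg_right (hosc t ⟨ht.1.le, ht.2⟩) (by positivity)
    set δ := η / (ε + |f b| + 1) with hδ
    have hden : 0 < ε + |f b| + 1 := by (clear * - hε; positivity)
    have hδ0 : 0 < δ := by (clear * - hη hε; positivity)
    have hS := (Metric.tendsto_nhds.mp (S_tendsto ha hab)) δ hδ0
    filter_upwards [hS, eventually_gt_atTop 1] with X hX hX1
    rw [Real.dist_eq] at hX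
    have hX0 : 0 < X := by (clear * - hX1; linarith)
    exact by
      have hlX : 0 < Real.log X := Real.log_pos hX1
      set S := ∑ p ∈ PI (X ^ a) (X ^ b), (1 : ℝ) / p with hSdef
      have hT : |∑ p ∈ PI (X ^ a) (X ^ b), (1 : ℝ) / p * f (Real.log p / Real.log X) - f b * S| ≤
          ε * S := by
        rw [hSdef, Finset.mul_sum, Finset.mul_sum, ← Finset.sum_sub_distrib]
        refine (Finset.abs_sum_le_sum_abs _ _).trans ?_
        apply Finset.sum_le_sum
        intro p hp
        rw [mem_PI (Real.rpow_nonneg hX0.le b)] at hp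
        obtain ⟨hp1, hp2, hp3⟩ := hp
        have hp0 : (0 : ℝ) < p := by exact_mod_cast hp1.pos
        have h4 : a * Real.log X ≤ Real.log p := by
          rw [← Real.log_rpow hX0]
          exact Real.log_le_log (Real.rpow_pos_of_pos hX0 a) hp2.le
        have h5 : Real.log p ≤ b * Real.log X := by
          rw [← Real.log_rpow hX0]
          exact Real.log_le_log hp0 hp3
        have h6 := hosc (Real.log p / Real.log X) ⟨(le_div_iff₀ hlX).mpr h4, (div_le_iff₀ hlX).mpr h5⟩
        have h7 : (1 : ℝ) / p * f (Real.log p / Real.log X) - f b * (1 / p) =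
            (f (Real.log p / Real.log X) - f b) * (1 / p) := by ring
        rw [h7, abs_mul, abs_of_pos (by (clear * - hp0; positivity) : (0 : ℝ) < 1 / p)]
        exact mul_le_mul_of_nonneg_right h6 (by (clear * - hp0; positivity))
      have h8 : δ * (ε + |f b| + 1) = η := by
        rw [hδ]; (clear * - hε hη; field_simp)
      have h9 : |f b * (S - L)| ≤ |f b| * δ := by
        rw [abs_mul]
        exact mul_le_mul_of_nonneg_left hX.le (abs_nonneg _)
      have h10 : ε * (S - L) ≤ ε * δ :=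
        mul_le_mul_of_nonneg_left ((le_abs_self _).trans hX.le) hε
      exact by
        rw [abs_le] at hI hT h9 ⊢
        have h11 : f b * (S - L) = f b * S - f b * L := by ring
        constructor <;> (clear * - hI hδ0 hT h8 h9 h10; nlinarith [hI.1, hI.2, hT.1, hT.2, h9.1, h9.2])

theorem primeInt : PrimeInt := by
  intro α β f hα hαβ hf
  rw [Metric.tendsto_nhds]
  intro ε₀ hε₀
  have hβ : 0 < β := hα.trans_le hαβ
  set L := Real.log (β / α) with hL
  have hL0 : 0 ≤ L := Real.log_nonneg ((one_le_div hα).mpr hαβ)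
  set ε := ε₀ / (4 * (L + 1)) with hε
  have hε0 : 0 < ε := by positivity
  have hu := isCompact_Icc.uniformContinuousOn_of_continuous hf
  exact by
    rw [Metric.uniformContinuousOn_iff] at hu
    obtain ⟨δ, hδ0, hδ⟩ := hu ε hε0
    set h := δ / 2 with hh
    have hh0 : 0 < h := by (clear * - hδ0; positivity)
    set b : ℕ → ℝ := fun n => min (α + n * h) β with hb
    have hbα : ∀ n, α ≤ b n := by
      intro n
      apply le_min _ hαβ
      have h1 : 0 ≤ (n : ℝ) * h := mul_nonneg n.cast_nonneg hh0.le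
      (clear * - h1; linarith)
    have hbβ : ∀ n, b n ≤ β := fun n => min_le_right _ _
    have hb0 : ∀ n, 0 < b n := fun n => hα.trans_le (hbα n)
    have hbmono : ∀ n, b n ≤ b (n + 1) := by
      intro n
      apply min_le_min _ le_rfl
      push_cast
      (clear * - hh0; nlinarith)
    exact by
      have hbstep : ∀ n, b (n + 1) ≤ b n + h := by
        intro n
        simp only [hb]
        rcases le_total (α + n * h) β with h1 | h1
        · rw [min_eq_left h1]
          refine (min_le_left _ _).trans ?_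
          push_cast
          (clear * -; nlinarith)
        · rw [min_eq_right h1]
          exact (min_le_right _ _).trans (by (clear * - hh0; linarith))
      have hcd : ∀ x y : ℝ, α ≤ x → x ≤ y → y ≤ β →
          IntervalIntegrable (fun t => f t / t) MeasureTheory.volume x y := by
        intro x y hx hxy hy
        apply ContinuousOn.intervalIntegrable
        rw [Set.uIcc_of_le hxy]
        apply ContinuousOn.div (hf.mono (Set.Icc_subset_Icc hx hy)) continuousOn_id
        intro t ht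
        exact (hα.trans_le (hx.trans ht.1)).ne'
      have hind : ∀ n : ℕ, ∀ η : ℝ, 0 < η → ∀ᶠ X : ℝ in atTop,
          |∑ p ∈ PI (X ^ α) (X ^ (b n)), (1 : ℝ) / p * f (Real.log p / Real.log X) -
          ∫ t in α..(b n), f t / t| ≤ 2 * ε * Real.log (b n / α) + η := by
        intro n
        induction n with
        | zero =>
          intro η hη
          have h0 : b 0 = α := by simp [hb, hαβ]
          rw [h0]
          have h1 := step (f := f) (ε := 0) hα le_rfl (by
            rw [Set.Icc_self]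
            exact continuousOn_singleton f α) le_rfl hη (by
            intro t ht
            rw [Set.Icc_self, Set.mem_singleton_iff] at ht
            rw [ht]; simp)
          filter_upwards [h1] with X hX
          have h2 : Real.log (α / α) = 0 := by rw [div_self hα.ne', Real.log_one]
          rw [h2] at hX ⊢
          simpa using hX
        | succ n ih =>
          intro η hη
          exact by
            have h1 := ih (η / 2) (by positivity)
            have h2 := step (f := f) (ε := ε) (η := η / 2) (hb0 n) (hbmono n)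
              (hf.mono (Set.Icc_subset_Icc (hbα n) (hbβ (n + 1)))) hε0.le (by positivity) (by
              intro t ht
              have h3 := hδ t ⟨(hbα n).trans ht.1, ht.2.trans (hbβ (n + 1))⟩ (b (n + 1))
                ⟨hbα (n + 1), hbβ (n + 1)⟩ (by
                  rw [Real.dist_eq, abs_sub_comm, abs_of_nonneg (by linarith [ht.2])]
                  linarith [ht.1, hbstep n])
              rw [Real.dist_eq] at h3
              exact h3.le)
            filter_upwards [h1, h2, eventually_gt_atTop 1] with X hX1 hX2 hX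
            have hX0 : 0 < X := by (clear * - hX; linarith)
            rw [sum_PI_add (Real.rpow_le_rpow_of_exponent_le hX.le (hbα n))
              (Real.rpow_le_rpow_of_exponent_le hX.le (hbmono n)) (Real.rpow_nonneg hX0.le _),
              ← intervalIntegral.integral_add_adjacent_intervals
                (hcd α (b n) le_rfl (hbα n) (hbβ n)) (hcd (b n) (b (n + 1)) (hbα n) (hbmono n)
                (hbβ (n + 1)))]
            have h4 : Real.log (b (n + 1) / α) = Real.log (b n / α) + Real.log (b (n + 1) / b n) := by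
              rw [← Real.log_mul (div_pos (hb0 n) hα).ne' (div_pos (hb0 (n + 1)) (hb0 n)).ne']
              congr 1
              have := (hb0 n).ne'
              field_simp
            rw [h4]
            rw [abs_le] at hX1 hX2 ⊢
            constructor <;> (clear * - hX1 hX2; linarith [hX1.1, hX1.2, hX2.1, hX2.2])
      obtain ⟨n, hn⟩ := exists_nat_ge ((β - α) / h)
      have hbn : b n = β := by
        apply min_eq_right
        rw [div_le_iff₀ hh0] at hn
        (clear * - hn; linarith)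
      have h1 := hind n (ε₀ / 4) (by positivity)
      rw [hbn] at h1
      filter_upwards [h1] with X hX
      rw [Real.dist_eq]
      refine hX.trans_lt ?_
      have h2 : ε * (L + 1) = ε₀ / 4 := by
        rw [hε]; field_simp
      (clear * - hε₀ hε0 h2; nlinarith)

end Pool.Agent.M20.Helper33.AV
end

/- Helper53.KN.Helper40.AV.Base -/
section
/-! Project AV: elementary facts. -/

set_option autoImplicit false

open Filter Topology

namespace Pool.Agent.M20.Helper40.AV

open Pool.Agent.M20.Helper44 (primesUpTo mem_primesUpTo)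

theorem mem_PI {a b : ℝ} (hb : 0 ≤ b) {p : ℕ} : p ∈ PI a b ↔ p.Prime ∧ a < p ∧ (p : ℝ) ≤ b := by
  unfold PI
  rw [Finset.mem_filter, mem_primesUpTo hb]
  tauto

open Classical in
theorem gg_mono (z : ℝ) {Y Y' : ℝ} (h : Y ≤ Y') : GG z Y ≤ GG z Y' := by
  unfold GG
  refine Finset.sum_le_sum_of_subset_of_nonneg ?_ (fun m _ _ => by positivity)
  intro m hm
  rw [Finset.mem_filter, Finset.mem_Icc] at hm ⊢
  exact ⟨⟨hm.1.1, hm.1.2.trans (Nat.floor_le_floor h)⟩, hm.2⟩

open Classical in
theorem one_le_gg (z : ℝ) {Y : ℝ} (hY : 1 ≤ Y) : 1 ≤ GG z Y := by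
  unfold GG
  have h1 : (1 : ℕ) ∈ (Finset.Icc 1 ⌊Y⌋₊).filter (fun m => Squarefree m ∧
      ∀ r : ℕ, r.Prime → r ∣ m → (r : ℝ) ≤ z) := by
    rw [Finset.mem_filter, Finset.mem_Icc]
    refine ⟨⟨le_rfl, ?_⟩, squarefree_one, ?_⟩
    · rw [Nat.le_floor_iff (by linarith)]
      exact_mod_cast hY
    · intro r hr h
      rw [Nat.dvd_one] at h
      exact absurd (h ▸ hr) Nat.not_prime_one
  have h2 := Finset.single_le_sum (f := fun m : ℕ => (1 : ℝ) / m.totient)
    (fun m _ => by positivity) h1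
  simpa using h2

theorem vv_pos (z : ℝ) : 0 < VV z := by
  unfold VV
  refine Finset.prod_pos fun r hr => ?_
  have hr' : r.Prime := (Finset.mem_filter.1 hr).2
  have : (2 : ℝ) ≤ r := by exact_mod_cast hr'.two_le
  have : (1 : ℝ) / r ≤ 1 / 2 := one_div_le_one_div_of_le (by norm_num) this
  linarith

theorem vv_le_one (z : ℝ) : VV z ≤ 1 := by
  unfold VV
  refine Finset.prod_le_one (fun r hr => ?_) (fun r hr => ?_)
  · have hr' : r.Prime := (Finset.mem_filter.1 hr).2
    have : (2 : ℝ) ≤ r := by exact_mod_cast hr'.two_le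
    have : (1 : ℝ) / r ≤ 1 / 2 := one_div_le_one_div_of_le (by norm_num) this
    linarith
  · have : (0 : ℝ) ≤ 1 / r := by positivity
    linarith

theorem tendsto_rpow_top {ω : ℝ} (hω : 0 < ω) : Tendsto (fun X : ℝ => X ^ ω) atTop atTop :=
  tendsto_rpow_atTop hω

/-- `VV (t - 1/2) log t` tends to the same limit -/
theorem mertens3_shift {γ₀ : ℝ} (hM : Tendsto (fun z => VV z * Real.log z) atTop (𝓝 γ₀)) :
    Tendsto (fun t : ℝ => VV (t - 1 / 2) * Real.log t) atTop (𝓝 γ₀) := by
  have h1 : Tendsto (fun t : ℝ => t - 1 / 2) atTop atTop := tendsto_atTop_add_const_right _ _ tendsto_id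
  have h2 := hM.comp h1
  have h3 : Tendsto (fun t : ℝ => Real.log t / Real.log (t - 1 / 2)) atTop (𝓝 1) := by
    have h4 : Tendsto (fun t : ℝ => 1 + Real.log 2 / Real.log (t - 1 / 2)) atTop (𝓝 1) := by
      have h5 : Tendsto (fun t : ℝ => Real.log 2 / Real.log (t - 1 / 2)) atTop (𝓝 0) :=
        (Real.tendsto_log_atTop.comp h1).const_div_atTop _
      simpa using h5.const_add 1
    refine tendsto_of_tendsto_of_tendsto_of_le_of_le' tendsto_const_nhds h4 ?_ ?_
    · filter_upwards [eventually_ge_atTop (3 : ℝ)] with t ht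
      have h6 : 0 < Real.log (t - 1 / 2) := Real.log_pos (by linarith)
      rw [le_div_iff₀ h6, one_mul]
      exact Real.log_le_log (by linarith) (by linarith)
    · filter_upwards [eventually_ge_atTop (3 : ℝ)] with t ht
      have h6 : 0 < Real.log (t - 1 / 2) := Real.log_pos (by linarith)
      rw [div_le_iff₀ h6, add_mul, one_mul, div_mul_cancel₀ _ h6.ne',
        ← Real.log_mul (by linarith) (by norm_num)]
      exact Real.log_le_log (by linarith) (by linarith)
  have h7 := h2.mul h3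
  rw [mul_one] at h7
  refine h7.congr' ?_
  filter_upwards [eventually_ge_atTop (3 : ℝ)] with t ht
  have h6 : 0 < Real.log (t - 1 / 2) := Real.log_pos (by linarith)
  have key : ∀ V a b : ℝ, a ≠ 0 → V * a * (b / a) = V * b := by
    intro V a b ha
    field_simp
  exact key _ _ _ h6.ne'

end Pool.Agent.M20.Helper40.AV
end

/- Helper53.KN.Helper14.AV.Buch -/
section
/-! Project AV, module AV5: Buchstab's inequality and the telescoping product. -/

set_option autoImplicit false

namespace Pool.Agent.M20.Helper14.AV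

open Pool.Agent.M20.Helper40.AV Pool.Agent.M20.Helper44

theorem mem_PI {a b : ℝ} (hb : 0 ≤ b) {p : ℕ} : p ∈ PI a b ↔ p.Prime ∧ a < (p : ℝ) ∧ (p : ℝ) ≤ b := by
  unfold PI
  rw [Finset.mem_filter, mem_primesUpTo hb]
  tauto

/-- AV5: Buchstab's inequality -/
theorem buchstab : Buchstab := by
  classical
  intro y l w z hw hwz
  have hz0 : (0 : ℝ) ≤ z := by linarith
  set A : ℕ → Finset ℕ := fun p => (Finset.Ico y (y + l)).filter fun n => p ∣ n ∧
    ∀ r : ℕ, r.Prime → r ∣ n → (p : ℝ) - 1 / 2 < r with hA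
  have hsub : RS y l w ⊆ RS y l z ∪ (PI w z).biUnion A := by
    intro n hn
    have hn' := hn
    rw [RS, Finset.mem_filter] at hn'
    rw [Finset.mem_union]
    by_cases h : ∀ r : ℕ, r.Prime → r ∣ n → z < r
    · left
      rw [RS, Finset.mem_filter]
      exact ⟨hn'.1, h⟩
    · right
      push Not at h
      obtain ⟨r, hr, hrn, hrz⟩ := h
      have hn1 : n ≠ 1 := by
        rintro rfl
        exact hr.one_lt.ne' (Nat.dvd_one.mp hrn)
      have hp := Nat.minFac_prime hn1
      have hpn := Nat.minFac_dvd n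
      have hmin : ∀ s : ℕ, s.Prime → s ∣ n → n.minFac ≤ s := fun s hs hsn =>
        Nat.minFac_le_of_dvd hs.two_le hsn
      rw [Finset.mem_biUnion]
      refine ⟨n.minFac, (mem_PI hz0).mpr ⟨hp, hn'.2 _ hp hpn, ?_⟩, ?_⟩
      · have : (n.minFac : ℝ) ≤ r := by exact_mod_cast hmin r hr hrn
        linarith
      · rw [hA, Finset.mem_filter]
        refine ⟨hn'.1, hpn, fun s hs hsn => ?_⟩
        have : (n.minFac : ℝ) ≤ s := by exact_mod_cast hmin s hs hsn
        linarith
  have h1 : (RS y l w).card ≤ (RS y l z).card + ∑ p ∈ PI w z, (A p).card :=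
    (Finset.card_le_card hsub).trans ((Finset.card_union_le _ _).trans
      (Nat.add_le_add_left Finset.card_biUnion_le _))
  exact_mod_cast h1

/-- AV5: the product telescopes -/
theorem telescope : Telescope := by
  intro w z hw hwz
  have hz0 : (0 : ℝ) ≤ z := by linarith
  have hw0 : (0 : ℝ) ≤ w := by linarith
  -- split of the product
  have hsplit : ∀ p : ℕ, p ∈ PI w z → VV ((p : ℝ) - 1 / 2) =
      VV w * ∏ r ∈ (PI w z).filter (fun r => r < p), (1 - (1 : ℝ) / r) := by
    intro p hp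
    obtain ⟨hpp, hwp, hpz⟩ := (mem_PI hz0).mp hp
    have hp1 : (1 : ℝ) ≤ p := by exact_mod_cast hpp.one_lt.le
    rw [VV, VV, ← Finset.prod_union]
    · refine Finset.prod_congr ?_ fun _ _ => rfl
      ext r
      rw [Finset.mem_union, Finset.mem_filter, mem_PI hz0, mem_primesUpTo hw0,
        mem_primesUpTo (by linarith)]
      constructor
      · rintro ⟨hr, hrp⟩
        have hrp' : r < p := by
          by_contra hcon
          have : (p : ℝ) ≤ r := by exact_mod_cast not_lt.mp hcon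
          linarith
        rcases le_or_gt (r : ℝ) w with h | h
        · exact Or.inl ⟨hr, h⟩
        · refine Or.inr ⟨⟨hr, h, ?_⟩, hrp'⟩
          have : (r : ℝ) ≤ p := by exact_mod_cast hrp'.le
          linarith
      · have hkey : ∀ r : ℕ, r < p → (r : ℝ) ≤ p - 1 / 2 := by
          intro r hr
          have : (r : ℝ) + 1 ≤ p := by exact_mod_cast hr
          linarith
        rintro (⟨hr, hrw⟩ | ⟨⟨hr, -, -⟩, hrp⟩)
        · refine ⟨hr, hkey r ?_⟩
          have : (r : ℝ) < p := by linarith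
          exact_mod_cast this
        · exact ⟨hr, hkey r hrp⟩
    · rw [Finset.disjoint_left]
      intro r h1 h2
      rw [mem_primesUpTo hw0] at h1
      rw [Finset.mem_filter, mem_PI hz0] at h2
      linarith [h1.2, h2.1.2.1]
  have hz : VV z = VV w * ∏ r ∈ PI w z, (1 - (1 : ℝ) / r) := by
    rw [VV, VV, ← Finset.prod_union]
    · refine Finset.prod_congr ?_ fun _ _ => rfl
      ext r
      rw [Finset.mem_union, mem_PI hz0, mem_primesUpTo hw0, mem_primesUpTo hz0]
      constructor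
      · rintro ⟨hr, hrz⟩
        rcases le_or_gt (r : ℝ) w with h | h
        · exact Or.inl ⟨hr, h⟩
        · exact Or.inr ⟨hr, h, hrz⟩
      · rintro (⟨hr, hrw⟩ | ⟨hr, -, hrz⟩)
        · exact ⟨hr, hrw.trans hwz⟩
        · exact ⟨hr, hrz⟩
    · rw [Finset.disjoint_left]
      intro r h1 h2
      rw [mem_primesUpTo hw0] at h1
      rw [mem_PI hz0] at h2
      linarith [h1.2, h2.2.1]
  rw [hz, Finset.prod_one_sub_ordered, mul_sub, mul_one, sub_sub_cancel, Finset.mul_sum]
  refine Finset.sum_congr rfl fun p hp => ?_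
  rw [hsplit p hp]
  ring

end Pool.Agent.M20.Helper14.AV
end
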