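import Mathlib

set_option linter.all false

/- Helper53.KN.Helper69.QRH.A0 -/
section
/-! QRH-A0: polynomial growth of the Riemann zeta function in the half plane `Re s ≥ 1/2`. -/

set_option autoImplicit false
open Filter Topology Complex

namespace Pool.Agent.M20.Helper69.QRH


/-- `(s-1) ζ(s)` as an entire function -/
noncomputable def EZ : ℂ → ℂ := Function.update (fun s : ℂ => (s - 1) * riemannZeta s) 1 1

lemma EZ_differentiable : Differentiable ℂ EZ := by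
  unfold EZ
  rw [← differentiableOn_univ,
    ← differentiableOn_compl_singleton_and_continuousAt_iff (c := 1) Filter.univ_mem]
  refine ⟨DifferentiableOn.congr (f := fun s ↦ (s - 1) * riemannZeta s)
    (fun s hs ↦ DifferentiableAt.differentiableWithinAt ?_)
    fun _ hs ↦ Function.update_of_ne (Set.mem_sdiff_singleton.mp hs).2 .., ?_⟩
  · have hs' : s ≠ 1 := (Set.mem_sdiff_singleton.mp hs).2
    exact (differentiableAt_id.sub_const 1).mul (differentiableAt_riemannZeta hs')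
  · refine continuousWithinAt_compl_self.mp ?_
    simpa using riemannZeta_residue_one

lemma EZ_eq {s : ℂ} (hs : s ≠ 1) : EZ s = (s - 1) * riemannZeta s := by
  unfold EZ
  rw [Function.update_of_ne hs]

lemma EZ_one : EZ 1 = 1 := by
  unfold EZ
  rw [Function.update_self]

lemma hasDerivAt_real_cpow {x : ℝ} (hx : 0 < x) (r : ℂ) :
    HasDerivAt (fun y : ℝ => (y : ℂ) ^ r) (r * (x : ℂ) ^ (r - 1)) x := by
  have h1 : HasDerivAt (fun z : ℂ => z ^ r) (r * (x : ℂ) ^ (r - 1) * 1) (x : ℂ) :=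
    (hasDerivAt_id (x : ℂ)).cpow_const (Complex.ofReal_mem_slitPlane.2 hx)
  rw [mul_one] at h1
  exact h1.comp_ofReal

lemma cpow_sub_le {a x : ℝ} (ha : 1 ≤ a) (hx : x ∈ Set.Icc a (a + 1)) {s : ℂ} (hs : 0 < s.re) :
    ‖(a : ℂ) ^ (-s) - (x : ℂ) ^ (-s)‖ ≤ ‖s‖ * a ^ (-s.re - 1) := by
  have h := Convex.norm_image_sub_le_of_norm_hasDerivWithin_le (s := Set.Icc a (a + 1))
    (f := fun y : ℝ => (y : ℂ) ^ (-s)) (f' := fun y : ℝ => -s * (y : ℂ) ^ (-s - 1))
    (C := ‖s‖ * a ^ (-s.re - 1)) (x := x) (y := a) (fun y hy => by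
      have hy0 : 0 < y := by (clear * - ha hy; linarith [hy.1])
      exact (hasDerivAt_real_cpow hy0 (-s)).hasDerivWithinAt) (fun y hy => by
      have hy0 : 0 < y := by (clear * - ha hy; linarith [hy.1])
      rw [norm_mul, norm_neg, Complex.norm_cpow_eq_rpow_re_of_pos hy0]
      refine mul_le_mul_of_nonneg_left ?_ (norm_nonneg _)
      have h1 : (-s - 1).re = -s.re - 1 := by simp
      rw [h1]
      exact Real.rpow_le_rpow_of_nonpos (by (clear * - ha; linarith)) hy.1 (by linarith)) (convex_Icc _ _) hx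
      ⟨le_rfl, by linarith⟩
  refine h.trans ?_
  have h2 : ‖a - x‖ ≤ 1 := by
    rw [Real.norm_eq_abs, abs_le]
    constructor <;> linarith [hx.1, hx.2]
  have h3 : 0 ≤ ‖s‖ * a ^ (-s.re - 1) := mul_nonneg (norm_nonneg _) (Real.rpow_nonneg (by linarith) _)
  calc _ ≤ ‖s‖ * a ^ (-s.re - 1) * 1 := mul_le_mul_of_nonneg_left h2 h3
    _ = _ := mul_one _

/-- the terms of the series -/
noncomputable def TT (n : ℕ) (s : ℂ) : ℂ :=
  (s - 1) * ((n : ℂ) + 1) ^ (-s) + (((n : ℂ) + 2) ^ (1 - s) - ((n : ℂ) + 1) ^ (1 - s))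

lemma TT_bound (n : ℕ) {s : ℂ} (hs : 0 < s.re) :
    ‖TT n s‖ ≤ ‖s - 1‖ * ‖s‖ * ((n : ℝ) + 1) ^ (-s.re - 1) := by
  set a : ℝ := (n : ℝ) + 1 with ha
  have ha1 : 1 ≤ a := by
    rw [ha]
    (clear * -; linarith [(n.cast_nonneg : (0 : ℝ) ≤ n)])
  have h := Convex.norm_image_sub_le_of_norm_hasDerivWithin_le (s := Set.Icc a (a + 1))
    (f := fun y : ℝ => (s - 1) * (a : ℂ) ^ (-s) * (y : ℂ) + (y : ℂ) ^ (1 - s))
    (f' := fun y : ℝ => (s - 1) * ((a : ℂ) ^ (-s) - (y : ℂ) ^ (-s)))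
    (C := ‖s - 1‖ * (‖s‖ * a ^ (-s.re - 1))) (x := a) (y := a + 1) (fun y hy => by
      have hy0 : 0 < y := by linarith [hy.1]
      have h1 := hasDerivAt_real_cpow hy0 (1 - s)
      have h2 : HasDerivAt (fun y : ℝ => (s - 1) * (a : ℂ) ^ (-s) * (y : ℂ))
          ((s - 1) * (a : ℂ) ^ (-s) * 1) y :=
        (HasDerivAt.ofReal_comp (hasDerivAt_id y)).const_mul _
      have h3 := (h2.add h1).hasDerivWithinAt (s := Set.Icc a (a + 1))
      have h4 : (1 : ℂ) - s - 1 = -s := by ring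
      have h5 : (s - 1) * ((a : ℂ) ^ (-s) - (y : ℂ) ^ (-s)) =
          (s - 1) * (a : ℂ) ^ (-s) * 1 + (1 - s) * (y : ℂ) ^ (1 - s - 1) := by
        rw [h4]; ring
      rw [h5]
      exact h3) (fun y hy => by
      rw [norm_mul]
      exact mul_le_mul_of_nonneg_left (cpow_sub_le ha1 hy hs) (norm_nonneg _)) (convex_Icc _ _)
      ⟨le_rfl, by (clear * -; linarith)⟩ ⟨by linarith, le_rfl⟩
  have h5 : TT n s = ((s - 1) * (a : ℂ) ^ (-s) * ((a + 1 : ℝ) : ℂ) + ((a + 1 : ℝ) : ℂ) ^ (1 - s)) -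
      ((s - 1) * (a : ℂ) ^ (-s) * (a : ℂ) + (a : ℂ) ^ (1 - s)) := by
    unfold TT
    have h6 : ((a : ℝ) : ℂ) = (n : ℂ) + 1 := by
      rw [ha]; push_cast; ring
    have h7 : ((a + 1 : ℝ) : ℂ) = (n : ℂ) + 2 := by
      rw [ha]; push_cast; ring
    rw [h6, h7]
    ring
  rw [h5]
  refine h.trans (le_of_eq ?_)
  have h8 : ‖(a + 1 : ℝ) - a‖ = 1 := by
    rw [add_sub_cancel_left]; simp
  rw [h8, mul_one, mul_assoc]

lemma TT_differentiable (n : ℕ) : Differentiable ℂ (TT n) := by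
  have h1 : ((n : ℂ) + 1) ≠ 0 := by exact_mod_cast Nat.succ_ne_zero n
  have h2 : ((n : ℂ) + 2) ≠ 0 := by
    have : ((n + 2 : ℕ) : ℂ) ≠ 0 := by exact_mod_cast (by omega : n + 2 ≠ 0)
    push_cast at this
    exact this
  unfold TT
  refine Differentiable.add ?_ (Differentiable.sub ?_ ?_)
  · exact (differentiable_id.sub_const 1).mul (differentiable_id.neg.const_cpow (Or.inl h1))
  · exact ((differentiable_const 1).sub differentiable_id).const_cpow (Or.inl h2)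
  · exact ((differentiable_const 1).sub differentiable_id).const_cpow (Or.inl h1)

lemma summable_rpow_aux {r : ℝ} (hr : r < -1) : Summable (fun n : ℕ => ((n : ℝ) + 1) ^ r) := by
  have h1 : Summable (fun n : ℕ => (n : ℝ) ^ r) := Real.summable_nat_rpow.2 hr
  have h2 := (summable_nat_add_iff 1).2 h1
  simpa using h2

lemma tsum_TT {s : ℂ} (hs : 1 < s.re) : ∑' n : ℕ, TT n s = (s - 1) * riemannZeta s - 1 := by
  have hs0 : 0 < s.re := by linarith
  have hS : Summable (fun n : ℕ => TT n s) := by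
    refine Summable.of_norm_bounded
      ((summable_rpow_aux (r := -s.re - 1) (by (clear * - hs; linarith))).mul_left (‖s - 1‖ * ‖s‖)) fun n => ?_
    exact TT_bound n hs0
  have hZ : HasSum (fun n : ℕ => 1 / ((n : ℂ) + 1) ^ s) (riemannZeta s) := by
    rw [zeta_eq_tsum_one_div_nat_add_one_cpow hs]
    refine Summable.hasSum ?_
    have h1 := (summable_nat_add_iff 1).2 (Complex.summable_one_div_nat_cpow.2 hs)
    simpa using h1
  have hZ' := hZ.mul_left (s - 1)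
  have ht1 := hS.hasSum.tendsto_sum_nat
  have ht2 := hZ'.tendsto_sum_nat
  have ht3 : Tendsto (fun N : ℕ => ((N : ℂ) + 1) ^ (1 - s) - 1) atTop (𝓝 (0 - 1)) := by
    refine Tendsto.sub_const ?_ 1
    rw [tendsto_zero_iff_norm_tendsto_zero]
    have h1 : ∀ N : ℕ, ‖((N : ℂ) + 1) ^ (1 - s)‖ = ((N : ℝ) + 1) ^ (-(s.re - 1)) := by
      intro N
      have h2 : ((N : ℂ) + 1) = (((N : ℝ) + 1 : ℝ) : ℂ) := by push_cast; ring
      rw [h2, Complex.norm_cpow_eq_rpow_re_of_pos (by (clear * -; positivity))]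
      congr 1
      simp
    simp_rw [h1]
    exact (tendsto_rpow_neg_atTop (by (clear * - hs; linarith))).comp
      (tendsto_atTop_add_const_right _ _ tendsto_natCast_atTop_atTop)
  have hsum : ∀ N : ℕ, ∑ n ∈ Finset.range N, TT n s =
      (∑ n ∈ Finset.range N, (s - 1) * (1 / ((n : ℂ) + 1) ^ s)) + (((N : ℂ) + 1) ^ (1 - s) - 1) := by
    intro N
    induction N with
    | zero => simp
    | succ N ih =>
      rw [Finset.sum_range_succ, Finset.sum_range_succ, ih]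
      unfold TT
      rw [Complex.cpow_neg, one_div]
      push_cast
      have h1 : (N : ℂ) + 1 + 1 = N + 2 := by ring
      rw [h1]
      ring
  have ht4 := ht2.add ht3
  have ht5 : Tendsto (fun N : ℕ => ∑ n ∈ Finset.range N, TT n s) atTop
      (𝓝 ((s - 1) * riemannZeta s + (0 - 1))) := by
    refine ht4.congr fun N => ?_
    rw [hsum]
  have := tendsto_nhds_unique ht1 ht5
  rw [this]
  ring

theorem EZ_eq_tsum {s : ℂ} (hs : 1 / 4 < s.re) : EZ s = ∑' n : ℕ, TT n s + 1 := by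
  set R : ℝ := ‖s‖ + 10 with hR
  set U : Set ℂ := {z | 1 / 4 < z.re} ∩ Metric.ball 0 R with hU
  have hUo : IsOpen U := (isOpen_lt continuous_const Complex.continuous_re).inter Metric.isOpen_ball
  have hUc : Convex ℝ U := (convex_halfSpace_re_gt _).inter (convex_ball _ _)
  have hF : DifferentiableOn ℂ (fun z => ∑' n : ℕ, TT n z) U := by
    refine differentiableOn_tsum_of_summable_norm
      (u := fun n : ℕ => (R + 1) * R * ((n : ℝ) + 1) ^ (-(1 / 4 : ℝ) - 1)) ?_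
      (fun n => (TT_differentiable n).differentiableOn) hUo ?_
    · exact (summable_rpow_aux (by norm_num)).mul_left _
    · intro n z hz
      have hz1 : 1 / 4 < z.re := hz.1
      have hz2 : ‖z‖ < R := by simpa using hz.2
      refine (TT_bound n (by (clear * - hz1; linarith))).trans ?_
      have h1 : ‖z - 1‖ ≤ R + 1 := (norm_sub_le _ _).trans (by rw [norm_one]; (clear * - hz2; linarith))
      have h2 : ((n : ℝ) + 1) ^ (-z.re - 1) ≤ ((n : ℝ) + 1) ^ (-(1 / 4 : ℝ) - 1) :=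
        Real.rpow_le_rpow_of_exponent_le (by (clear * -; linarith [(n.cast_nonneg : (0 : ℝ) ≤ n)])) (by (clear * - hz1; linarith))
      have h3 : 0 ≤ R := (norm_nonneg z).trans hz2.le
      (clear * - h1 hz2 h2; gcongr)
  have hA : AnalyticOnNhd ℂ (fun z => ∑' n : ℕ, TT n z + 1) U :=
    (hF.add_const 1).analyticOnNhd hUo
  have hB : AnalyticOnNhd ℂ EZ U := EZ_differentiable.differentiableOn.analyticOnNhd hUo
  have h2 : (2 : ℂ) ∈ U := by
    refine ⟨by norm_num, ?_⟩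
    simp only [Metric.mem_ball, dist_zero_right, Complex.norm_ofNat]
    rw [hR]
    (clear * -; linarith [norm_nonneg s])
  have hev : EZ =ᶠ[𝓝 (2 : ℂ)] fun z => ∑' n : ℕ, TT n z + 1 := by
    have h3 : ∀ᶠ z in 𝓝 (2 : ℂ), 1 < z.re := by
      have : {z : ℂ | 1 < z.re} ∈ 𝓝 (2 : ℂ) :=
        (isOpen_lt continuous_const Complex.continuous_re).mem_nhds (by norm_num)
      exact this
    filter_upwards [h3] with z hz
    have hz1 : z ≠ 1 := by
      rintro rfl
      simp at hz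
    rw [EZ_eq hz1, tsum_TT hz]
    ring
  have h := hB.eqOn_of_preconnected_of_eventuallyEq hA hUc.isPreconnected h2 hev
  refine h ⟨hs, ?_⟩
  simp only [Metric.mem_ball, dist_zero_right]
  rw [hR]
  (clear * -; linarith)

theorem EZ_bound : ∃ C : ℝ, 0 < C ∧ ∀ s : ℂ, 1/2 ≤ s.re → ‖EZ s‖ ≤ C * (1 + ‖s‖) ^ 2 := by
  set K : ℝ := ∑' n : ℕ, ((n : ℝ) + 1) ^ (-(3 / 2 : ℝ)) with hK
  have hK0 : 0 ≤ K := tsum_nonneg fun n => Real.rpow_nonneg (by (clear * -; positivity)) _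
  refine ⟨K + 1, by (clear * - hK0; linarith), fun s hs => ?_⟩
  rw [EZ_eq_tsum (by (clear * - hs; linarith))]
  have h1 : ‖∑' n : ℕ, TT n s‖ ≤ ‖s - 1‖ * ‖s‖ * K := by
    rw [hK, ← tsum_mul_left]
    refine tsum_of_norm_bounded ((summable_rpow_aux (by norm_num)).mul_left _).hasSum fun n => ?_
    refine (TT_bound n (by (clear * - hs; linarith))).trans ?_
    refine mul_le_mul_of_nonneg_left ?_ (by positivity)
    exact Real.rpow_le_rpow_of_exponent_le (by (clear * -; linarith [(n.cast_nonneg : (0 : ℝ) ≤ n)])) (by linarith)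
  have h2 : ‖s - 1‖ ≤ 1 + ‖s‖ := (norm_sub_le _ _).trans (by rw [norm_one]; linarith)
  have h3 := norm_nonneg s
  calc ‖∑' n : ℕ, TT n s + 1‖ ≤ ‖∑' n : ℕ, TT n s‖ + ‖(1 : ℂ)‖ := norm_add_le _ _
    _ ≤ ‖s - 1‖ * ‖s‖ * K + 1 := by
      rw [norm_one]
      (clear * - h1; linarith)
    _ ≤ (1 + ‖s‖) * (1 + ‖s‖) * K + (1 + ‖s‖) ^ 2 := by
      have h4 : ‖s - 1‖ * ‖s‖ ≤ (1 + ‖s‖) * (1 + ‖s‖) :=
        mul_le_mul h2 (by (clear * -; linarith)) h3 (by linarith)
      have h5 := mul_le_mul_of_nonneg_right h4 hK0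
      (clear * - h3 h5; nlinarith)
    _ = (K + 1) * (1 + ‖s‖) ^ 2 := by ring

end Pool.Agent.M20.Helper69.QRH
end

/- Helper53.KN.Helper67.KSZ.ZetaA -/
section
/-! KSZ (MP_768c9c_nt): approximation of zeta by a finite sum (A4). -/

set_option autoImplicit false
set_option linter.all false
open Filter Topology

namespace Pool.Agent.M20.Helper67.KSZ

open Pool.Agent.M20.Helper69.QRH (EZ EZ_eq TT TT_bound EZ_eq_tsum)

theorem tail_step {x : ℝ} (hx : 0 < x) :
    (x + 1) ^ (-(3 / 2) : ℝ) ≤ 2 * x ^ (-(1 / 2) : ℝ) - 2 * (x + 1) ^ (-(1 / 2) : ℝ) := by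
  have hx1 : 0 < x + 1 := by (clear * - hx; linarith)
  set a := Real.sqrt x with ha
  set b := Real.sqrt (x + 1) with hb
  have ha0 : 0 < a := Real.sqrt_pos.2 hx
  have hb0 : 0 < b := Real.sqrt_pos.2 hx1
  have ha2 : a ^ 2 = x := Real.sq_sqrt hx.le
  have hb2 : b ^ 2 = x + 1 := Real.sq_sqrt hx1.le
  have hab : a ≤ b := Real.sqrt_le_sqrt (by linarith)
  have e1 : x ^ (-(1 / 2) : ℝ) = a⁻¹ := by
    rw [Real.rpow_neg hx.le, ← Real.sqrt_eq_rpow]
  have e2 : (x + 1) ^ (-(1 / 2) : ℝ) = b⁻¹ := by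
    rw [Real.rpow_neg hx1.le, ← Real.sqrt_eq_rpow]
  have e3 : (x + 1) ^ (-(3 / 2) : ℝ) = (b ^ 3)⁻¹ := by
    rw [Real.rpow_neg hx1.le]
    congr 1
    rw [show (3 / 2 : ℝ) = 1 + 1 / 2 by norm_num, Real.rpow_add hx1, Real.rpow_one,
      ← Real.sqrt_eq_rpow, ← hb]
    (clear * - hb0 hb2; nlinarith)
  rw [e1, e2, e3]
  have h1 : (b - a) * (a + b) = 1 := by (clear * - ha2 hb2; nlinarith)
  have h2 : 2 * a⁻¹ - 2 * b⁻¹ = 2 * (b - a) / (a * b) := by
    (clear * - hb0 ha0; field_simp)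
  rw [h2, inv_eq_one_div, div_le_div_iff₀ (by positivity) (by positivity)]
  have h3 : b - a = 1 / (a + b) := by
    rw [eq_div_iff (by (clear * - hx; positivity))]; exact h1
  rw [h3]
  have h4 : a * b * (a + b) ≤ 2 * b ^ 3 := by
    have : a * b * (a + b) ≤ b * b * (b + b) := by gcongr
    (clear * - this; nlinarith)
  rw [mul_one_div, div_mul_eq_mul_div, le_div_iff₀ (by positivity)]
  (clear * - h4; linarith)

theorem tail_sum {N : ℕ} (hN : 1 ≤ N) (M : ℕ) :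
    ∑ n ∈ Finset.range M, (((n + N : ℕ) : ℝ) + 1) ^ (-(3 / 2) : ℝ) ≤
      2 * (N : ℝ) ^ (-(1 / 2) : ℝ) - 2 * ((M + N : ℕ) : ℝ) ^ (-(1 / 2) : ℝ) := by
  induction M with
  | zero => simp
  | succ M ih =>
    rw [Finset.sum_range_succ]
    have hx : (0 : ℝ) < ((M + N : ℕ) : ℝ) := by exact_mod_cast (by omega : 0 < M + N)
    have h := tail_step hx
    have e : ((M + 1 + N : ℕ) : ℝ) = ((M + N : ℕ) : ℝ) + 1 := by push_cast; ring
    rw [e]
    (clear * - ih h; linarith)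

theorem summable_TT {s : ℂ} (hs : 0 < s.re) : Summable (fun n : ℕ => TT n s) := by
  refine Summable.of_norm_bounded
    ((Pool.Agent.M20.Helper69.QRH.summable_rpow_aux (r := -s.re - 1) (by (clear * - hs; linarith))).mul_left
      (‖s - 1‖ * ‖s‖)) fun n => ?_
  exact TT_bound n hs

theorem tail_TT {s : ℂ} (hs : 1 / 2 ≤ s.re) {N : ℕ} (hN : 1 ≤ N) :
    ‖∑' n : ℕ, TT (n + N) s‖ ≤ ‖s - 1‖ * ‖s‖ * (2 * (N : ℝ) ^ (-(1 / 2) : ℝ)) := by
  have hb : ∀ n : ℕ, ‖TT (n + N) s‖ ≤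
      ‖s - 1‖ * ‖s‖ * (((n + N : ℕ) : ℝ) + 1) ^ (-(3 / 2) : ℝ) := by
    intro n
    refine (TT_bound (n + N) (by (clear * - hs; linarith))).trans ?_
    apply mul_le_mul_of_nonneg_left _ (by (clear * -; positivity))
    apply Real.rpow_le_rpow_of_exponent_le
    · have : (0 : ℝ) ≤ ((n + N : ℕ) : ℝ) := Nat.cast_nonneg _
      (clear * -; linarith)
    · (clear * - hs; linarith)
  have hsum : Summable (fun n : ℕ => (((n + N : ℕ) : ℝ) + 1) ^ (-(3 / 2) : ℝ)) := by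
    have h1 := Pool.Agent.M20.Helper69.QRH.summable_rpow_aux (r := -(3 / 2)) (by norm_num)
    exact (summable_nat_add_iff (f := fun n : ℕ => ((n : ℝ) + 1) ^ (-(3 / 2) : ℝ)) N).2 h1
  refine tsum_of_norm_bounded ((hsum.mul_left (‖s - 1‖ * ‖s‖)).hasSum) hb |>.trans ?_
  rw [tsum_mul_left]
  apply mul_le_mul_of_nonneg_left _ (by positivity)
  refine hsum.tsum_le_of_sum_range_le fun M => ?_
  refine (tail_sum hN M).trans ?_
  have : (0 : ℝ) ≤ ((M + N : ℕ) : ℝ) ^ (-(1 / 2) : ℝ) := by positivity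
  (clear * - this; linarith)

theorem sum_TT (s : ℂ) (N : ℕ) : ∑ n ∈ Finset.range N, TT n s =
    (∑ n ∈ Finset.range N, (s - 1) * ((n : ℂ) + 1) ^ (-s)) + (((N : ℂ) + 1) ^ (1 - s) - 1) := by
  induction N with
  | zero => simp
  | succ N ih =>
    rw [Finset.sum_range_succ, Finset.sum_range_succ, ih]
    unfold TT
    push_cast
    have h1 : (N : ℂ) + 1 + 1 = N + 2 := by ring
    rw [h1]
    ring

theorem sum_Icc_one (F : ℕ → ℂ) (N : ℕ) :
    ∑ n ∈ Finset.Icc 1 N, F n = ∑ i ∈ Finset.range N, F (i + 1) := by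
  have : Finset.Icc 1 N = Finset.Ico 1 (N + 1) := by
    ext n; simp only [Finset.mem_Icc, Finset.mem_Ico]; omega
  rw [this, Finset.sum_Ico_eq_sum_range]
  simp only [Nat.add_sub_cancel]
  exact Finset.sum_congr rfl (fun i _ => by rw [add_comm])

/-- zeta is a finite sum plus an explicit error -/
theorem zeta_sum {s : ℂ} (hs : 1 / 2 ≤ s.re) (hs1 : s ≠ 1) (N : ℕ) :
    riemannZeta s - ∑ n ∈ Finset.Icc 1 N, (n : ℂ) ^ (-s) =
      (((N : ℂ) + 1) ^ (1 - s) + ∑' n : ℕ, TT (n + N) s) / (s - 1) := by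
  have h1 : (s - 1) * riemannZeta s = ∑' n : ℕ, TT n s + 1 := by
    rw [← EZ_eq hs1, EZ_eq_tsum (by linarith)]
  have h2 := (summable_TT (s := s) (by (clear * - hs; linarith))).sum_add_tsum_nat_add N
  rw [sum_TT] at h2
  have hne : s - 1 ≠ 0 := sub_ne_zero.2 hs1
  rw [eq_div_iff hne, sum_Icc_one]
  rw [← Finset.mul_sum] at h2
  have e : ∑ i ∈ Finset.range N, (((i + 1 : ℕ) : ℂ)) ^ (-s) =
      ∑ i ∈ Finset.range N, ((i : ℂ) + 1) ^ (-s) :=
    Finset.sum_congr rfl (fun i _ => by push_cast; rfl)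
  rw [e]
  linear_combination h1 - h2

/-- A4 -/
theorem A4 : ∃ C : ℝ, 0 < C ∧ ∀ σ t : ℝ, 1 / 2 ≤ σ → σ ≤ 2 → 2 ≤ t →
    ‖riemannZeta ((σ : ℂ) + (t : ℂ) * Complex.I) -
      ∑ n ∈ Finset.Icc 1 ⌊t ^ 2⌋₊, (n : ℂ) ^ (-((σ : ℂ) + (t : ℂ) * Complex.I))‖ ≤ C := by
  refine ⟨10, by norm_num, ?_⟩
  intro σ t hσ hσ2 ht
  set s : ℂ := (σ : ℂ) + (t : ℂ) * Complex.I with hs
  have hre : s.re = σ := by simp [hs]
  have him : s.im = t := by simp [hs]
  have ht0 : 0 < t := by linarith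
  set N : ℕ := ⌊t ^ 2⌋₊ with hN
  have hNle : (N : ℝ) ≤ t ^ 2 := Nat.floor_le (by positivity)
  have hNge : t ^ 2 / 2 ≤ (N : ℝ) := by
    have := Nat.lt_floor_add_one (t ^ 2)
    rw [← hN] at this
    (clear * - ht this; nlinarith)
  have hN1 : 1 ≤ N := by
    have : (1 : ℝ) ≤ N := by (clear * - ht hNge; nlinarith)
    exact_mod_cast this
  have hN0 : (0 : ℝ) < N := by exact_mod_cast hN1
  have hs1 : s ≠ 1 := by
    intro h
    have := congrArg Complex.im h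
    rw [him] at this
    simp at this
    (clear * - ht this; linarith)
  rw [zeta_sum (by rw [hre]; exact hσ) hs1 N, norm_div]
  have hns : t ≤ ‖s - 1‖ := by
    have h1 := Complex.abs_im_le_norm (s - 1)
    have h2 : (s - 1).im = t := by simp [him]
    rw [h2, abs_of_pos ht0] at h1
    exact h1
  have hns2 : ‖s‖ ≤ 2 * t := by
    calc ‖s‖ ≤ ‖(σ : ℂ)‖ + ‖(t : ℂ) * Complex.I‖ := norm_add_le _ _
      _ = |σ| + |t| := by simp
      _ ≤ 2 * t := by
        rw [abs_of_nonneg (by (clear * - hσ; linarith)), abs_of_pos ht0]; (clear * - hσ2 ht; linarith)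
  rw [div_le_iff₀ (by (clear * - ht hns; linarith))]
  refine (norm_add_le _ _).trans ?_
  have b1 : ‖((N : ℂ) + 1) ^ (1 - s)‖ ≤ 2 * ‖s - 1‖ := by
    have h2 : ((N : ℂ) + 1) = (((N : ℝ) + 1 : ℝ) : ℂ) := by push_cast; ring
    rw [h2, Complex.norm_cpow_eq_rpow_re_of_pos (by (clear * - hN1; positivity))]
    have h3 : (1 - s).re = 1 - σ := by simp [hre]
    rw [h3]
    have h4 : ((N : ℝ) + 1) ^ (1 - σ) ≤ ((N : ℝ) + 1) ^ (1 / 2 : ℝ) :=
      Real.rpow_le_rpow_of_exponent_le (by (clear * - hN0; linarith)) (by (clear * - hσ; linarith))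
    have h5 : ((N : ℝ) + 1) ^ (1 / 2 : ℝ) ≤ 2 * t := by
      rw [← Real.sqrt_eq_rpow, Real.sqrt_le_left (by positivity)]
      (clear * - ht hNle hN0; nlinarith)
    linarith
  have b2 := tail_TT (s := s) (by rw [hre]; exact hσ) hN1
  have b3 : ‖s‖ * (2 * (N : ℝ) ^ (-(1 / 2) : ℝ)) ≤ 8 := by
    have h6 : (N : ℝ) ^ (-(1 / 2) : ℝ) ≤ 2 / t := by
      rw [Real.rpow_neg hN0.le, ← Real.sqrt_eq_rpow, inv_le_comm₀ (Real.sqrt_pos.2 hN0)
        (by positivity), inv_div]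
      apply Real.le_sqrt_of_sq_le
      (clear * - hNge hN0; nlinarith)
    calc ‖s‖ * (2 * (N : ℝ) ^ (-(1 / 2) : ℝ)) ≤ (2 * t) * (2 * (2 / t)) := by (clear * - hns2 h6 hN1 ht; gcongr)
      _ = 8 := by field_simp; norm_num
  have b4 : ‖s - 1‖ * ‖s‖ * (2 * (N : ℝ) ^ (-(1 / 2) : ℝ)) ≤ 8 * ‖s - 1‖ := by
    have := mul_le_mul_of_nonneg_left b3 (norm_nonneg (s - 1))
    (clear * - this; linarith)
  (clear * - b1 b2 b4; linarith)

/-! ### dyadic decomposition -/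

theorem dyadic_aux (F : ℕ → ℂ) (B : ℝ) (M : ℕ) (hB : 0 ≤ B)
    (hF : ∀ N N1 : ℕ, 1 ≤ N → N < N1 → N1 ≤ 2 * N → N1 ≤ M → ‖∑ n ∈ Finset.Ioc N N1, F n‖ ≤ B) :
    ∀ J K : ℕ, K ≤ M → K ≤ 2 ^ J → ‖∑ n ∈ Finset.Ioc 1 K, F n‖ ≤ J * B := by
  intro J
  induction J with
  | zero =>
    intro K _ hK
    rw [Finset.Ioc_eq_empty (by simp at hK; omega)]
    simp
  | succ J ih =>
    intro K hKM hK
    by_cases h1 : K ≤ 1
    · rw [Finset.Ioc_eq_empty (by omega)]
      simp only [Finset.sum_empty, norm_zero]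
      (clear * - hB; positivity)
    push Not at h1
    set N := (K + 1) / 2 with hN
    have hN1 : 1 ≤ N := by omega
    have hNK : N < K := by omega
    have hK2 : K ≤ 2 * N := by omega
    have hNJ : N ≤ 2 ^ J := by
      rw [pow_succ] at hK; omega
    have e : Finset.Ioc 1 K = Finset.Ioc 1 N ∪ Finset.Ioc N K :=
      (Finset.Ioc_union_Ioc_eq_Ioc hN1 hNK.le).symm
    have hd : Disjoint (Finset.Ioc 1 N) (Finset.Ioc N K) := by
      rw [Finset.disjoint_left]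
      intro n h h'
      rw [Finset.mem_Ioc] at h h'
      omega
    rw [e, Finset.sum_union hd]
    refine (norm_add_le _ _).trans ?_
    have h2 := ih N (by omega) hNJ
    have h3 := hF N K hN1 hNK hK2 hKM
    push_cast
    (clear * - h2 h3; linarith)

/-- the dyadic decomposition of `[1, x]` -/
theorem dyadic (F : ℕ → ℂ) (B : ℝ) (M : ℕ) (hM : 1 ≤ M) (hB : 0 ≤ B) (h1 : ‖F 1‖ ≤ B)
    (hF : ∀ N N1 : ℕ, 1 ≤ N → N < N1 → N1 ≤ 2 * N → N1 ≤ M → ‖∑ n ∈ Finset.Ioc N N1, F n‖ ≤ B) :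
    ‖∑ n ∈ Finset.Icc 1 M, F n‖ ≤ (2 * Real.log M + 2) * B := by
  have e : Finset.Icc 1 M = insert 1 (Finset.Ioc 1 M) := by
    ext n; simp only [Finset.mem_Icc, Finset.mem_insert, Finset.mem_Ioc]; omega
  rw [e, Finset.sum_insert (by simp)]
  refine (norm_add_le _ _).trans ?_
  have h2 := dyadic_aux F B M hB hF (Nat.clog 2 M) M le_rfl (Nat.le_pow_clog (by norm_num) M)
  have h3 : ((Nat.clog 2 M : ℕ) : ℝ) ≤ 2 * Real.log M + 1 := by
    rcases Nat.lt_or_ge M 2 with h | h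
    · have : M = 1 := by omega
      subst this
      simp
    · have h4 : 2 ^ (Nat.clog 2 M - 1) < M := by
        have := Nat.pow_pred_clog_lt_self (b := 2) (by norm_num) (x := M) (by omega)
        simpa using this
      have h5 : ((Nat.clog 2 M - 1 : ℕ) : ℝ) * Real.log 2 ≤ Real.log M := by
        rw [← Real.log_pow]
        apply Real.log_le_log (by positivity)
        exact_mod_cast h4.le
      have h6 : 1 ≤ Nat.clog 2 M := Nat.one_le_iff_ne_zero.2 (by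
        intro h0
        have := (Nat.clog_pos (b := 2) (by norm_num) (n := M) h)
        omega)
      rw [Nat.cast_sub h6] at h5
      push_cast at h5
      have hl2 := Real.log_two_gt_d9
      have h7 : 0 ≤ ((Nat.clog 2 M : ℕ) : ℝ) - 1 := by
        have : (1 : ℝ) ≤ ((Nat.clog 2 M : ℕ) : ℝ) := by exact_mod_cast h6
        (clear * - this; linarith)
      (clear * - h5 h7 hl2; nlinarith)
  have h4 := mul_le_mul_of_nonneg_right h3 hB
  (clear * - h1 h2 h4; linarith)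

end Pool.Agent.M20.Helper67.KSZ
end
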