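import Mathlib

set_option linter.all false

/- Helper53.KN.Helper60.KS.St -/
section
/-! Project KS (MP_768c9c_nt), counting part: statements of the modules (blueprint: KS_H60_counting.md in the
team store; section numbers refer to it). -/

set_option autoImplicit false
open Filter Topology MeasureTheory
open scoped Classical

namespace Pool.Agent.M20.Helper60.KS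

/-- multiplicity of a zero of zeta -/
noncomputable def mz (ρ : ℂ) : ℕ := analyticOrderNatAt riemannZeta ρ

/-- heights spaced by at least 1 -/
def Spaced1 (Z : Finset ℂ) : Prop := ∀ ρ ∈ Z, ∀ ρ' ∈ Z, ρ ≠ ρ' → 1 ≤ |ρ.im - ρ'.im|

def SpacedR (U : Finset ℝ) (δ : ℝ) : Prop := ∀ u ∈ U, ∀ u' ∈ U, u ≠ u' → δ ≤ |u - u'|

def InStrip (Z : Finset ℂ) (b b' T : ℝ) : Prop := ∀ ρ ∈ Z, b ≤ ρ.re ∧ ρ.re ≤ b' ∧ |ρ.im| ≤ T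

/-- additive energy of the heights -/
noncomputable def EZ (Z : Finset ℂ) : ℕ :=
  (((Z ×ˢ Z) ×ˢ (Z ×ˢ Z)).filter
    (fun p => |p.1.1.im + p.1.2.im - p.2.1.im - p.2.2.im| ≤ 1)).card

/-- Dirichlet polynomial on `(Q, hQ]` -/
noncomputable def DP (g : ℕ → ℂ) (Q h : ℕ) (s : ℂ) : ℂ := ∑ n ∈ Finset.Ioc Q (h * Q), g n * (n : ℂ) ^ (-s)

/-! ### classical inputs (shapes of section 2) -/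

def A2 : Prop := ∃ C : ℝ, 0 < C ∧ ∀ (N N1 : ℕ) (t κ : ℝ), 1 ≤ N → N < N1 → N1 ≤ 2 * N → 1 ≤ t → 0 ≤ κ →
  κ ≤ 1 → ‖∑ n ∈ Finset.Ioc N N1, (n : ℂ) ^ (-((κ : ℂ) + t * Complex.I))‖ ≤
    C * (N : ℝ) ^ (-κ) * (N / t + Real.sqrt t)

def A5 : Prop := ∃ C : ℝ, 0 < C ∧ (∀ t : ℝ, 2 ≤ t → ‖riemannZeta (1/2 + t * Complex.I)‖ ≤
    C * t ^ (1/6 : ℝ) * Real.log t) ∧
  ∀ σ t : ℝ, 5/7 ≤ σ → σ ≤ 1 → 2 ≤ t →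
    ‖riemannZeta (σ + t * Complex.I)‖ ≤ C * t ^ ((1 - σ) / 4) * Real.log t

def A7 : Prop := ∃ C : ℝ, 0 < C ∧ ∀ t : ℝ, 2 ≤ t → ‖riemannZeta (2/7 + t * Complex.I)‖ ≤
    C * t ^ (2/7 : ℝ) * Real.log t

/-- A9 (i) -/
def A9i : Prop := ∃ C : ℝ, 0 < C ∧ ∀ (t : ℝ) (F : Finset ℂ),
  (∀ ρ ∈ F, riemannZeta ρ = 0 ∧ 1/2 ≤ ρ.re ∧ |ρ.im - t| ≤ 1) →
  ∑ ρ ∈ F, (mz ρ : ℝ) ≤ C * Real.log (|t| + 2)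

/-- Theorem N -/
def ThmN : Prop := ∃ ε0 X0 : ℝ, 0 < ε0 ∧ ε0 ≤ 1/100 ∧ ∀ X : ℝ, X0 ≤ X → ∀ F : Finset ℂ,
  (∀ ρ ∈ F, riemannZeta ρ = 0 ∧ 1 - ε0 ≤ ρ.re ∧ |ρ.im| ≤ X ^ (0.6 : ℝ)) →
  ∑ ρ ∈ F, (mz ρ : ℝ) * X ^ (ρ.re - 1) ≤ 1/16

/-! ### A11, A12 -/

/-- A11: mean value with Gaussian weight -/
def MeanValue : Prop := ∃ C : ℝ, 0 < C ∧ ∀ (ι : Type) (S : Finset ι) (a : ι → ℂ) (y : ι → ℝ) (T : ℝ),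
  1 ≤ T →
  ∫ t : ℝ, Real.exp (-(t / T) ^ 2) * ‖∑ j ∈ S, a j * Complex.exp (Complex.I * ((y j * t : ℝ) : ℂ))‖ ^ 2 ≤
    C * T * ∑ j ∈ S, ∑ k ∈ S, if |y j - y k| ≤ 1 / T then ‖a j‖ * ‖a k‖ else 0

/-- A11' -/
def PairCount : Prop := ∀ (ι : Type) (S : Finset ι) (y : ι → ℝ) (δ : ℝ), 0 < δ →
  ((S ×ˢ S).filter (fun p => |y p.1 - y p.2| ≤ 2 * δ)).card ≤
    5 * ((S ×ˢ S).filter (fun p => |y p.1 - y p.2| ≤ δ)).card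

/-- A12 + A11: mean value at well spaced complex points -/
def DiscMV : Prop := ∃ C : ℝ, 0 < C ∧ ∀ (ι : Type) (S : Finset ι) (a : ι → ℂ) (y : ι → ℝ)
  (T b b' r M : ℝ) (Z : Finset ℂ), 1 ≤ T → 0 < r → r ≤ 1/2 → b ≤ b' → b' ≤ b + 1 →
  InStrip Z b b' T → Spaced1 Z →
  (∀ σ : ℝ, b - r ≤ σ → σ ≤ b' + r →
    ∑ j ∈ S, ∑ k ∈ S, (if |y j - y k| ≤ 1 / T then ‖a j‖ * ‖a k‖ * Real.exp (σ * (y j + y k)) else 0) ≤ M) →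
  ∑ ρ ∈ Z, ‖∑ j ∈ S, a j * Complex.exp ((y j : ℂ) * ρ)‖ ^ 2 ≤ C / r ^ 2 * T * M

/-! ### section 6 -/

/-- (6.1) -/
def MVCount : Prop := ∀ h : ℕ, 1 ≤ h → ∃ C : ℝ, 0 < C ∧ ∀ (Z : Finset ℂ) (g : ℕ → ℂ) (Q : ℕ)
  (B V b b' T r : ℝ), 1 ≤ Q → 1 ≤ T → 0 < r → r ≤ 1/2 → 0 ≤ b → b ≤ b' → b' ≤ b + 1 → b' ≤ 1 → 0 < V → 0 ≤ B →
  (∀ n, ‖g n‖ ≤ B) → InStrip Z b b' T → Spaced1 Z → (∀ ρ ∈ Z, V ≤ ‖DP g Q h ρ‖) →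
  (Z.card : ℝ) * V ^ 2 ≤ C * B ^ 2 / r ^ 2 * (T + Q) * (Q : ℝ) ^ (1 - 2 * b + 2 * r)

/-- (6.2), Huxley -/
def HuxleyCount : Prop := ∀ h : ℕ, 1 ≤ h → ∃ C : ℝ, 0 < C ∧ ∀ (Z : Finset ℂ) (g : ℕ → ℂ) (Q : ℕ)
  (B V b b' T : ℝ), 1 ≤ Q → 1 ≤ T → 0 ≤ b → b ≤ b' → b' ≤ b + 1/2 → b' ≤ 1 → 0 < V → 0 < B →
  (∀ n, ‖g n‖ ≤ B) → InStrip Z b b' T → Spaced1 Z → (∀ ρ ∈ Z, V ≤ ‖DP g Q h ρ‖) →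
  (Z.card : ℝ) ≤ C * (B ^ 2 * (Q : ℝ) ^ (2 - 2 * b) / V ^ 2) * Real.log (T + 2) *
    (1 + T * (B ^ 4 * (Q : ℝ) ^ (2 - 4 * b) / V ^ 4))

/-- number of coincidences -/
noncomputable def ET (U : Finset ℝ) (T : ℝ) (Q Q' : ℕ) : ℕ :=
  (((U ×ˢ Finset.Icc Q Q') ×ˢ (U ×ˢ Finset.Icc Q Q')).filter
    (fun p => |(p.1.1 - Real.log p.1.2) - (p.2.1 - Real.log p.2.2)| ≤ 1 / T)).card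

/-- (6.6) -/
def TwoWalk : Prop := ∀ (h : ℕ) (ε : ℝ), 1 ≤ h → 0 < ε → ∃ C : ℝ, 0 < C ∧ ∀ (X T u0 : ℝ) (U : Finset ℝ)
  (Q : ℕ), 2 ≤ X → 1 ≤ T → T ≤ X → 1 ≤ Q → (Q : ℝ) ≤ X ^ 2 →
  (∀ u ∈ U, u0 ≤ u ∧ u ≤ u0 + 1) → SpacedR U (1 / T) →
  (ET U T Q (h * Q) : ℝ) ≤ C * X ^ ε * (U.card * Q * (1 + ((U.card : ℝ) ^ 3 / T) ^ (1/4 : ℝ)) +
    (U.card : ℝ) ^ 2 * (Q : ℝ) ^ 2 / T)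

/-- (6.7) -/
def SLemma : Prop := ∀ (h : ℕ) (ε : ℝ), 1 ≤ h → 0 < ε → ∃ C : ℝ, 0 < C ∧
  ∀ (X T b b' B V c0 v : ℝ) (Z : Finset ℂ) (c : ℂ → ℂ) (g : ℕ → ℂ) (Q : ℕ) (U : Finset ℝ),
  8 ≤ X → 1 ≤ T → T ≤ X → 1 ≤ Q → (Q : ℝ) ≤ X ^ 2 → 0 ≤ b → b ≤ b' → b' ≤ b + 1 → b' ≤ 1 → 0 < V → 0 ≤ B →
  0 ≤ c0 → 0 ≤ v → (∀ n, ‖g n‖ ≤ B) → InStrip Z b b' T → Spaced1 Z → (∀ ρ ∈ Z, V ≤ ‖DP g Q h ρ‖) →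
  (∀ ρ ∈ Z, ‖c ρ‖ ≤ c0) → (∀ u ∈ U, Real.log X ≤ u ∧ u ≤ Real.log X + 1) → SpacedR U (1 / T) →
  (∀ u ∈ U, v ≤ ‖∑ ρ ∈ Z, c ρ * Complex.exp ((ρ - 1) * (u : ℂ))‖) →
  (U.card : ℝ) ^ 2 * v ^ 2 * V ^ 2 ≤ C * X ^ ε * Z.card * c0 ^ 2 * B ^ 2 * T * X ^ (2 * (b' - 1)) *
    (Q : ℝ) ^ (-2 * b) * (U.card * Q * (1 + ((U.card : ℝ) ^ 3 / T) ^ (1/4 : ℝ)) +
      (U.card : ℝ) ^ 2 * (Q : ℝ) ^ 2 / T)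

/-- (6.8)(a) -/
def FourthU : Prop := ∃ C : ℝ, 0 < C ∧ ∀ (Z : Finset ℂ) (c : ℂ → ℂ) (B b T u0 : ℝ) (U : Finset ℝ),
  1 ≤ T → 0 ≤ u0 → b ≤ 1 → 0 ≤ B → (∀ ρ ∈ Z, 0 ≤ ρ.re ∧ ρ.re ≤ b ∧ |ρ.im| ≤ T ∧ ‖c ρ‖ ≤ B) →
  (∀ u ∈ U, u0 ≤ u ∧ u ≤ u0 + 1) → SpacedR U (1 / T) →
  ∑ u ∈ U, ‖∑ ρ ∈ Z, c ρ * Complex.exp ((ρ - 1) * (u : ℂ))‖ ^ 4 ≤
    C * B ^ 4 * T * EZ Z * Real.exp (4 * (b - 1) * u0)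

/-- (6.8)(b) -/
def EnergyG : Prop := ∀ h : ℕ, 1 ≤ h → ∃ C : ℝ, 0 < C ∧ ∀ (Z : Finset ℂ) (g : ℕ → ℂ) (Q : ℕ)
  (B V b b' T r : ℝ), 1 ≤ Q → 1 ≤ T → 0 < r → r ≤ 1/2 → 0 ≤ b → b ≤ b' → b' ≤ b + 1 → b' ≤ 1 → 0 < V →
  0 ≤ B → (∀ n, ‖g n‖ ≤ B) → InStrip Z b b' T → Spaced1 Z → (∀ ρ ∈ Z, V ≤ ‖DP g Q h ρ‖) →
  Real.sqrt (EZ Z) * V ^ 2 ≤ C * B ^ 2 / r ^ 2 * (Q : ℝ) ^ (-2 * b + 2 * r) * (1 + Real.log Q) *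
    ((Q : ℝ) ^ 2 * Real.sqrt Z.card + Q * Z.card * Real.sqrt T)

/-! ### section 7 -/

noncomputable def yy (x : ℝ) : ℝ := min ((1/3) / (1 - 2 * x)) ((2/7) / (5/7 - x))

/-- section 7 -/
def Numeric : Prop := ∀ ε0 : ℝ, 0 < ε0 → ε0 ≤ 1/100 → ∀ ε x n r ϱ : ℝ, 0 < ε → ε ≤ ε0 / 10 ^ 5 →
  ε0 ≤ x → x ≤ 0.4 + ε → 0 < n → n ≤ yy x + ε →
  (∀ k : ℕ, 1 ≤ k → (k : ℝ) ≤ 4 / n → r ≤ max (2 * x * (k * n)) (1 - k * n * (1 - 2 * x)) + ε) →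
  (∀ k : ℕ, 1 ≤ k → (k : ℝ) ≤ 4 / n → r ≤ max (2 * x * (k * n)) (1 - k * n * (2 - 6 * x)) + ε) →
  2 * x - ε ≤ r →
  (∀ j : ℕ, 1 ≤ j → (j : ℝ) ≤ 4 / n → r + 2 * x * (j * n) ≤ 4 * x - ε →
    ϱ ≤ max (1 + r - 4 * x - j * n * (1 - 2 * x)) (4 * (1 + r - 4 * x - j * n * (1 - 2 * x)) - 1) + ε) →
  (∀ j : ℕ, 1 ≤ j → (j : ℝ) ≤ 4 / n →
    ϱ ≤ 1 - 8 * x + max (4 * x * (j * n) + r) (1 + 2 * r - (2 - 4 * x) * (j * n)) + ε) →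
  ϱ ≤ 0.431

/-! ### section 5: detection, powers, splitting -/

/-- (5.1). The coefficients are `g n = (∑_{d ∣ n, d ≤ X^δ} μ(d)) * W(n)` with a smooth cut-off `0 ≤ W ≤ 1` at
`Y = X ^ ((1/2+2d) μ0/(1-x-s0) + 40 δ)`, `(s0, μ0) = (1/2, 1/6)` or `(2/7, 2/7)` whichever gives `yy x`;
only what is stated is used. -/
def Detect : Prop := ∀ δ d : ℝ, 0 < δ → δ ≤ 1/1000 → 0 < d → d ≤ δ → ∃ X0 : ℝ, ∀ X x : ℝ, X0 ≤ X → 0 < x →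
  x ≤ 0.4 + δ → ∃ g : ℕ → ℂ, (∀ n, ‖g n‖ ≤ (n.divisors.card : ℝ)) ∧
  ∀ ρ : ℂ, riemannZeta ρ = 0 → 1 - x ≤ ρ.re → Real.log X ^ 2 ≤ |ρ.im| → |ρ.im| ≤ X ^ (1/2 + 2 * d) + 1 →
  ∃ i : ℕ, X ^ δ / 2 ≤ (2 : ℝ) ^ i ∧ (2 : ℝ) ^ i ≤ X ^ (yy x / 2 + 45 * δ) ∧
    1 / (16 * Real.log X) ≤ ‖DP g (2 ^ i) 2 ρ‖

/-- powers of Dirichlet polynomials -/
def PowDP : Prop := ∀ (k : ℕ) (ε : ℝ), 1 ≤ k → 0 < ε → ∃ C : ℝ, 0 < C ∧ ∀ (g : ℕ → ℂ) (Q : ℕ), 1 ≤ Q →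
  (∀ n, ‖g n‖ ≤ (n.divisors.card : ℝ)) → ∃ b : ℕ → ℂ, (∀ n, ‖b n‖ ≤ C * (Q : ℝ) ^ ε) ∧
  ∀ s : ℂ, (DP g Q 2 s) ^ k = DP b (Q ^ k) (2 ^ k) s

/-- greedy colouring -/
def SplitSpaced : Prop := ∀ (Z : Finset ℂ) (M : ℕ), (∀ t : ℝ, (Z.filter (fun ρ => |ρ.im - t| ≤ 1)).card ≤ M) →
  ∃ col : ℂ → ℕ, (∀ ρ ∈ Z, col ρ < M) ∧ ∀ i : ℕ, Spaced1 (Z.filter (fun ρ => col ρ = i))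

/-! ### one class (sections 6 and 7 together) -/

/-! ### cells -/

noncomputable def ec (d : ℝ) (k : ℕ) : ℕ := ⌊(k : ℝ) * (1/2 - d)⌋₊

/-- number of primes in the `j`-th cell of length `2^e` of `[2^k, 2^(k+1))` -/
noncomputable def npr (k e j : ℕ) : ℕ :=
  ((Finset.Ico (2 ^ k + j * 2 ^ e) (2 ^ k + (j + 1) * 2 ^ e)).filter Nat.Prime).card

end Pool.Agent.M20.Helper60.KS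
end
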