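import Mathlib

set_option linter.all false

/- Helper53.KN.Helper10.QRH.StA -/
section
/-! Statements of Part A of project QRH (MP_768c9c_nt): primes in short cells under a zero-free
half plane with finitely many exceptions. -/

set_option autoImplicit false
open Filter Topology MeasureTheory

namespace Pool.Agent.M20.Helper10.QRH

/-- triangle kernel -/
noncomputable def tri (lam v : ℝ) : ℝ := max 0 (1 - |v| / lam) / lam

/-- its Laplace transform (entire function of s) -/
noncomputable def KK (lam : ℝ) (s : ℂ) : ℂ := ∫ v : ℝ, (tri lam v : ℂ) * Complex.exp (-s * v)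

/-- A1 -/
def FactorFinite : Prop := ∀ (F : ℂ → ℂ), Differentiable ℂ F → ∀ U : Set ℂ, IsOpen U →
    IsPreconnected U → (∃ z ∈ U, F z ≠ 0) → {z : ℂ | z ∈ U ∧ F z = 0}.Finite →
    ∃ (M : Multiset ℂ) (Z : ℂ → ℂ), Differentiable ℂ Z ∧ (∀ z ∈ U, Z z ≠ 0) ∧
      (∀ ρ ∈ M, ρ ∈ U ∧ F ρ = 0) ∧ ∀ z, F z = (M.map (fun ρ => z - ρ)).prod * Z z

/-- A3 -/
structure KFacts : Prop where
  diff : ∀ lam : ℝ, 0 < lam → Differentiable ℂ (KK lam)
  bound : ∃ C : ℝ, ∀ lam : ℝ, 0 < lam → lam ≤ 1 → ∀ s : ℂ, 0 ≤ s.re → s.re ≤ 2 →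
      ‖KK lam s‖ ≤ C / (1 + (lam * s.im) ^ 2)
  inv : ∀ lam c v : ℝ, 0 < lam → (tri lam v : ℂ) =
      (1 / (2 * Real.pi)) * ∫ t : ℝ, KK lam (c + t * Complex.I) *
        Complex.exp ((c + t * Complex.I) * v)

/-- A5: duality (large sieve with the Lorentz weight) -/
def Duality : Prop := ∃ C : ℝ, ∀ (lam : ℝ), 0 < lam → lam ≤ 1/2 → ∀ (g : ℝ → ℂ), Measurable g →
    ∀ B : ℝ, 0 ≤ B → (∀ t, ‖g t‖ ≤ B / (1 + (lam * t) ^ 2) * Real.log (2 + |t|)) →
    ∀ (R : Finset ℝ), (∀ u ∈ R, ∀ u' ∈ R, u ≠ u' → lam ≤ |u - u'|) →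
    (∑ u ∈ R, ‖∫ t : ℝ, g t * Complex.exp (t * u * Complex.I)‖) ≤
      C * B * Real.log (1 / lam) / lam * Real.sqrt R.card

end Pool.Agent.M20.Helper10.QRH
end

/- Helper53.KN.Helper79.QRH.KFacts -/
section
/-! QRH-A3: the triangle kernel and its Laplace transform. -/

set_option autoImplicit false
open MeasureTheory

namespace Pool.Agent.M20.Helper79.QRH

open Pool.Agent.M20.Helper10.QRH

lemma tri_cont (lam : ℝ) : Continuous (tri lam) := by
  unfold tri
  fun_prop

lemma tri_zero {lam v : ℝ} (hl : 0 < lam) (hv : lam ≤ |v|) : tri lam v = 0 := by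
  unfold tri
  have h : 1 - |v| / lam ≤ 0 := by
    have := (one_le_div hl).2 hv
    (clear * - this; linarith)
  rw [max_eq_left h, zero_div]

lemma tri_nonneg {lam v : ℝ} (hl : 0 < lam) : 0 ≤ tri lam v :=
  div_nonneg (le_max_left _ _) hl.le

lemma tri_le {lam v : ℝ} (hl : 0 < lam) : tri lam v ≤ 1 / lam := by
  unfold tri
  apply div_le_div_of_nonneg_right _ hl.le
  apply max_le zero_le_one
  have : 0 ≤ |v| / lam := div_nonneg (abs_nonneg _) hl.le
  linarith

lemma integrand_cont (lam : ℝ) (s : ℂ) :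
    Continuous (fun v : ℝ => (tri lam v : ℂ) * Complex.exp (-s * v)) := by
  have := tri_cont lam
  fun_prop

lemma integral_eq_interval {lam : ℝ} (hl : 0 < lam) (g : ℝ → ℂ)
    (hg : ∀ v, lam ≤ |v| → g v = 0) : ∫ v : ℝ, g v = ∫ v in (-lam)..lam, g v := by
  rw [intervalIntegral.integral_of_le (by linarith)]
  symm
  apply setIntegral_eq_integral_of_forall_compl_eq_zero
  intro v hv
  apply hg
  rw [Set.mem_Ioc, not_and_or, not_lt, not_le] at hv
  rcases hv with h | h
  · rw [le_abs]; right; (clear * - h; linarith)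
  · rw [le_abs]; left; exact h.le

lemma KK_eq {lam : ℝ} (hl : 0 < lam) (s : ℂ) :
    KK lam s = ∫ v in (-lam)..lam, (tri lam v : ℂ) * Complex.exp (-s * v) := by
  unfold KK
  apply integral_eq_interval hl
  intro v hv
  rw [tri_zero hl hv]
  simp

lemma norm_exp_le {lam v : ℝ} (s : ℂ) (hv : |v| ≤ lam) :
    ‖Complex.exp (-s * v)‖ ≤ Real.exp (lam * |s.re|) := by
  rw [Complex.norm_exp]
  apply Real.exp_le_exp.2
  have : (-s * (v : ℂ)).re = -s.re * v := by simp
  rw [this]
  calc -s.re * v ≤ |-s.re * v| := le_abs_self _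
    _ = |s.re| * |v| := by rw [abs_mul, abs_neg]
    _ ≤ |s.re| * lam := mul_le_mul_of_nonneg_left hv (abs_nonneg _)
    _ = lam * |s.re| := mul_comm _ _

lemma abs_le_of_mem {lam v : ℝ} (hl : 0 < lam) (hv : v ∈ Set.uIoc (-lam) lam) : |v| ≤ lam := by
  rw [Set.uIoc_of_le (by linarith)] at hv
  exact abs_le.2 ⟨hv.1.le, hv.2⟩

lemma KK_triv {lam : ℝ} (hl : 0 < lam) (s : ℂ) :
    ‖KK lam s‖ ≤ 2 * Real.exp (lam * |s.re|) := by
  rw [KK_eq hl]
  have h := intervalIntegral.norm_integral_le_of_norm_le_const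
    (a := -lam) (b := lam) (C := 1 / lam * Real.exp (lam * |s.re|))
    (f := fun v : ℝ => (tri lam v : ℂ) * Complex.exp (-s * v)) (by
      intro v hv
      rw [norm_mul, Complex.norm_real, Real.norm_of_nonneg (tri_nonneg hl)]
      exact mul_le_mul (tri_le hl) (norm_exp_le s (abs_le_of_mem hl hv)) (norm_nonneg _)
        (by positivity))
  refine h.trans (le_of_eq ?_)
  rw [show lam - -lam = 2 * lam by ring, abs_of_pos (show 0 < 2 * lam by (clear * - hl; linarith))]
  field_simp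

lemma KK_closed {lam : ℝ} (hl : 0 < lam) {s : ℂ} (hs : s ≠ 0) :
    KK lam s = (Complex.exp (s * lam) + Complex.exp (-s * lam) - 2) / ((lam : ℂ) * s) ^ 2 := by
  have hlC : (lam : ℂ) ≠ 0 := by exact_mod_cast hl.ne'
  rw [KK_eq hl]
  have hc := integrand_cont lam s
  rw [← intervalIntegral.integral_add_adjacent_intervals (b := 0)
    (hc.intervalIntegrable _ _) (hc.intervalIntegrable _ _)]
  have hexp : ∀ v : ℝ, HasDerivAt (fun v : ℝ => Complex.exp (-s * v))
      (Complex.exp (-s * v) * (-s)) v := by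
    intro v
    have h1 : HasDerivAt (fun v : ℝ => -s * (v : ℂ)) (-s) v := by
      have := (Complex.ofRealCLM.hasDerivAt (x := v)).const_mul (-s)
      simpa using this
    exact h1.cexp
  have hid : ∀ v : ℝ, HasDerivAt (fun v : ℝ => (v : ℂ)) 1 v := by
    intro v
    have := (hasDerivAt_id v).ofReal_comp
    simpa using this
  have h1 : ∫ v in (-lam)..0, (tri lam v : ℂ) * Complex.exp (-s * v) =
      (-1 / (lam * s ^ 2) - 1 / s) / lam + Complex.exp (s * lam) / (lam ^ 2 * s ^ 2) := by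
    have hcongr : ∫ v in (-lam)..0, (tri lam v : ℂ) * Complex.exp (-s * v) =
        ∫ v in (-lam)..0, ((1 + (v : ℂ) / lam) / lam) * Complex.exp (-s * v) := by
      apply intervalIntegral.integral_congr
      intro v hv
      rw [Set.uIcc_of_le (by linarith)] at hv
      have h3 : tri lam v = (1 + v / lam) / lam := by
        unfold tri
        rw [abs_of_nonpos hv.2, max_eq_right]
        · ring
        · have : -v / lam ≤ 1 := by
            rw [div_le_one hl]
            linarith [hv.1]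
          linarith
      show (tri lam v : ℂ) * _ = _
      rw [h3]
      push_cast
      ring
    rw [hcongr]
    have hQ : ∀ v : ℝ, HasDerivAt (fun v : ℝ => Complex.exp (-s * v) *
        ((-1 / ((lam : ℂ) ^ 2 * s)) * (v : ℂ) + (-1 / (lam * s ^ 2) - 1 / s) / lam))
        (((1 + (v : ℂ) / lam) / lam) * Complex.exp (-s * v)) v := by
      intro v
      have h4 := (hexp v).mul (((hid v).const_mul (-1 / ((lam : ℂ) ^ 2 * s))).add_const
        ((-1 / ((lam : ℂ) * s ^ 2) - 1 / s) / lam))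
      refine h4.congr_deriv ?_
      field_simp
      ring
    rw [intervalIntegral.integral_eq_sub_of_hasDerivAt (fun v _ => hQ v)
      (by apply Continuous.intervalIntegrable; fun_prop)]
    have h5 : -s * ((-lam : ℝ) : ℂ) = s * lam := by push_cast; ring
    rw [h5]
    push_cast
    rw [mul_zero, Complex.exp_zero]
    field_simp
    ring
  have h2 : ∫ v in (0 : ℝ)..lam, (tri lam v : ℂ) * Complex.exp (-s * v) =
      Complex.exp (-s * lam) / (lam ^ 2 * s ^ 2) - (1 / (lam * s ^ 2) - 1 / s) / lam := by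
    have hcongr : ∫ v in (0 : ℝ)..lam, (tri lam v : ℂ) * Complex.exp (-s * v) =
        ∫ v in (0 : ℝ)..lam, ((1 - (v : ℂ) / lam) / lam) * Complex.exp (-s * v) := by
      apply intervalIntegral.integral_congr
      intro v hv
      rw [Set.uIcc_of_le (by linarith)] at hv
      have h3 : tri lam v = (1 - v / lam) / lam := by
        unfold tri
        rw [abs_of_nonneg hv.1, max_eq_right]
        have : v / lam ≤ 1 := by
          rw [div_le_one hl]
          linarith [hv.2]
        linarith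
      show (tri lam v : ℂ) * _ = _
      rw [h3]
      push_cast
      ring
    rw [hcongr]
    have hQ : ∀ v : ℝ, HasDerivAt (fun v : ℝ => Complex.exp (-s * v) *
        ((1 / ((lam : ℂ) ^ 2 * s)) * (v : ℂ) + (1 / (lam * s ^ 2) - 1 / s) / lam))
        (((1 - (v : ℂ) / lam) / lam) * Complex.exp (-s * v)) v := by
      intro v
      have h4 := (hexp v).mul (((hid v).const_mul (1 / ((lam : ℂ) ^ 2 * s))).add_const
        ((1 / ((lam : ℂ) * s ^ 2) - 1 / s) / lam))
      refine h4.congr_deriv ?_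
      field_simp
      ring
    rw [intervalIntegral.integral_eq_sub_of_hasDerivAt (fun v _ => hQ v)
      (by apply Continuous.intervalIntegrable; fun_prop)]
    push_cast
    rw [mul_zero, Complex.exp_zero]
    field_simp
    ring
  rw [h1, h2]
  field_simp
  ring

lemma KK_bound {lam : ℝ} (hl : 0 < lam) (s : ℂ) :
    ‖KK lam s‖ ≤ 6 * Real.exp (lam * |s.re|) / (1 + (lam * s.im) ^ 2) := by
  have hE : 1 ≤ Real.exp (lam * |s.re|) := by
    apply Real.one_le_exp
    (clear * - hl; positivity)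
  have h0 := KK_triv hl s
  rw [le_div_iff₀ (by positivity)]
  have h1 : ‖KK lam s‖ * (lam * s.im) ^ 2 ≤ 4 * Real.exp (lam * |s.re|) := by
    rcases eq_or_ne s 0 with rfl | hs
    · simp
    · rw [KK_closed hl hs, norm_div, norm_pow, norm_mul, Complex.norm_real,
        Real.norm_of_nonneg hl.le]
      have hsn : 0 < ‖s‖ := norm_pos_iff.2 hs
      have h2 : (lam * s.im) ^ 2 ≤ (lam * ‖s‖) ^ 2 := by
        rw [mul_pow, mul_pow]
        apply mul_le_mul_of_nonneg_left _ (by positivity)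
        exact sq_le_sq.2 (by rw [abs_of_nonneg (norm_nonneg _)]; exact Complex.abs_im_le_norm s)
      have h3 : ‖Complex.exp (s * lam) + Complex.exp (-s * lam) - 2‖ ≤
          4 * Real.exp (lam * |s.re|) := by
        have e1 : ‖Complex.exp (s * lam)‖ ≤ Real.exp (lam * |s.re|) := by
          have := norm_exp_le (lam := lam) (v := -lam) s (by rw [abs_neg, abs_of_pos hl])
          have h5 : -s * ((-lam : ℝ) : ℂ) = s * lam := by push_cast; ring
          rwa [h5] at this
        have e2 : ‖Complex.exp (-s * lam)‖ ≤ Real.exp (lam * |s.re|) :=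
          norm_exp_le (lam := lam) (v := lam) s (by rw [abs_of_pos hl])
        have e3 : ‖(2 : ℂ)‖ = 2 := by simp
        calc ‖Complex.exp (s * lam) + Complex.exp (-s * lam) - 2‖
            ≤ ‖Complex.exp (s * lam) + Complex.exp (-s * lam)‖ + ‖(2 : ℂ)‖ := norm_sub_le _ _
          _ ≤ ‖Complex.exp (s * lam)‖ + ‖Complex.exp (-s * lam)‖ + ‖(2 : ℂ)‖ := by
              gcongr
              exact norm_add_le _ _
          _ ≤ 4 * Real.exp (lam * |s.re|) := by rw [e3]; linarith
      calc ‖Complex.exp (s * lam) + Complex.exp (-s * lam) - 2‖ / (lam * ‖s‖) ^ 2 *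
            (lam * s.im) ^ 2
          ≤ ‖Complex.exp (s * lam) + Complex.exp (-s * lam) - 2‖ / (lam * ‖s‖) ^ 2 *
            (lam * ‖s‖) ^ 2 := by gcongr
        _ = ‖Complex.exp (s * lam) + Complex.exp (-s * lam) - 2‖ := by
            rw [div_mul_cancel₀]
            positivity
        _ ≤ _ := h3
  rw [mul_add, mul_one]
  linarith

lemma KK_diff {lam : ℝ} (hl : 0 < lam) : Differentiable ℂ (KK lam) := by
  intro s
  have hfun : KK lam = fun s => ∫ v in (-lam)..lam, (tri lam v : ℂ) * Complex.exp (-s * v) := by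
    funext s
    exact KK_eq hl s
  rw [hfun]
  have hD : ∀ (v : ℝ) (z : ℂ), HasDerivAt (fun z : ℂ => (tri lam v : ℂ) * Complex.exp (-z * v))
      ((tri lam v : ℂ) * (Complex.exp (-z * v) * (-(v : ℂ)))) z := by
    intro v z
    have h1 : HasDerivAt (fun z : ℂ => -z * (v : ℂ)) (-(v : ℂ)) z := by
      have := (hasDerivAt_id z).neg.mul_const (v : ℂ)
      simpa using this
    exact h1.cexp.const_mul _
  have key := intervalIntegral.hasDerivAt_integral_of_dominated_loc_of_deriv_le
    (μ := volume) (𝕜 := ℂ)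
    (F := fun (z : ℂ) (v : ℝ) => (tri lam v : ℂ) * Complex.exp (-z * v))
    (F' := fun (z : ℂ) (v : ℝ) => (tri lam v : ℂ) * (Complex.exp (-z * v) * (-(v : ℂ))))
    (x₀ := s) (a := -lam) (b := lam) (s := Metric.ball s 1)
    (bound := fun _ => 1 / lam * (Real.exp (lam * (|s.re| + 1)) * lam))
    (Metric.ball_mem_nhds s one_pos)
    (Filter.Eventually.of_forall (fun z => (integrand_cont lam z).aestronglyMeasurable.restrict))
    ((integrand_cont lam s).intervalIntegrable _ _)
    (by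
      have := tri_cont lam
      apply Continuous.aestronglyMeasurable
      fun_prop)
    (Filter.Eventually.of_forall (by
      intro v hv z hz
      have hv' := abs_le_of_mem hl hv
      rw [norm_mul, norm_mul, Complex.norm_real, Real.norm_of_nonneg (tri_nonneg hl), norm_neg,
        Complex.norm_real, Real.norm_eq_abs]
      have hre : |z.re| ≤ |s.re| + 1 := by
        have h6 : |(z - s).re| ≤ ‖z - s‖ := Complex.abs_re_le_norm _
        have h7 : ‖z - s‖ < 1 := by rwa [← dist_eq_norm]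
        have h8 : |z.re| ≤ |z.re - s.re| + |s.re| := by
          have := abs_add_le (z.re - s.re) s.re
          simpa using this
        rw [Complex.sub_re] at h6
        linarith
      have h9 : ‖Complex.exp (-z * v)‖ ≤ Real.exp (lam * (|s.re| + 1)) :=
        (norm_exp_le z hv').trans (Real.exp_le_exp.2 (mul_le_mul_of_nonneg_left hre hl.le))
      exact mul_le_mul (tri_le hl) (mul_le_mul h9 hv' (abs_nonneg _) (by positivity))
        (by positivity) (by positivity)))
    (by exact intervalIntegrable_const)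
    (Filter.Eventually.of_forall (fun v _ z _ => hD v z))
  exact key.2.differentiableAt

lemma KK_cont {lam : ℝ} (hl : 0 < lam) : Continuous (KK lam) := (KK_diff hl).continuous

lemma KK_inv {lam : ℝ} (c v : ℝ) (hl : 0 < lam) : (tri lam v : ℂ) =
      (1 / (2 * Real.pi)) * ∫ t : ℝ, KK lam (c + t * Complex.I) *
        Complex.exp ((c + t * Complex.I) * v) := by
  set f : ℝ → ℂ := fun v => (tri lam v : ℂ) * Complex.exp (-(c : ℂ) * v) with hf
  have hfc : Continuous f := integrand_cont lam c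
  have hfi : Integrable f := by
    apply hfc.integrable_of_hasCompactSupport
    apply HasCompactSupport.of_support_subset_isCompact (isCompact_Icc (a := -lam) (b := lam))
    intro x hx
    by_contra hx'
    apply hx
    have : lam ≤ |x| := by
      rw [Set.mem_Icc, not_and_or, not_le, not_le] at hx'
      rcases hx' with h | h
      · rw [le_abs]; right; linarith
      · rw [le_abs]; left; exact h.le
    simp only [hf]
    rw [tri_zero hl this]
    simp
  have hF : ∀ ξ : ℝ, FourierTransform.fourier f ξ = KK lam (c + (2 * Real.pi * ξ : ℝ) * Complex.I) := by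
    intro ξ
    rw [Real.fourier_eq']
    unfold KK
    congr 1
    funext x
    simp only [hf, smul_eq_mul]
    rw [mul_left_comm, ← Complex.exp_add]
    congr 2
    simp only [RCLike.inner_apply, conj_trivial]
    push_cast
    ring
  have hFi : Integrable (FourierTransform.fourier f) := by
    have hfun : FourierTransform.fourier f =
        fun ξ : ℝ => KK lam (c + (2 * Real.pi * ξ : ℝ) * Complex.I) := funext hF
    rw [hfun]
    have hcon : Continuous (fun ξ : ℝ => KK lam (c + (2 * Real.pi * ξ : ℝ) * Complex.I)) := by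
      apply (KK_cont hl).comp
      fun_prop
    have hint : Integrable (fun x : ℝ => 6 * Real.exp (lam * |c|) *
        (1 + (lam * (2 * Real.pi) * x) ^ 2)⁻¹) := by
      apply Integrable.const_mul
      exact integrable_inv_one_add_sq.comp_mul_left' (by positivity)
    refine hint.mono' hcon.aestronglyMeasurable (Filter.Eventually.of_forall ?_)
    intro ξ
    refine (KK_bound hl _).trans (le_of_eq ?_)
    have h1 : ((c : ℂ) + (2 * Real.pi * ξ : ℝ) * Complex.I).re = c := by simp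
    have h2 : ((c : ℂ) + (2 * Real.pi * ξ : ℝ) * Complex.I).im = 2 * Real.pi * ξ := by simp
    rw [h1, h2, div_eq_mul_inv]
    congr 3
    ring
  have hinv := congrFun (hfc.fourierInv_fourier_eq hfi hFi) v
  rw [Real.fourierInv_eq'] at hinv
  simp only [hF, smul_eq_mul, RCLike.inner_apply, conj_trivial] at hinv
  have hsub := MeasureTheory.Measure.integral_comp_mul_left
    (fun t : ℝ => KK lam (c + t * Complex.I) * Complex.exp ((c + t * Complex.I) * v)) (2 * Real.pi)
  have hpi : (0 : ℝ) < 2 * Real.pi := by positivity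
  rw [abs_of_pos (inv_pos.2 hpi)] at hsub
  have h4 : ∫ (x : ℝ), KK lam (c + (2 * Real.pi * x : ℝ) * Complex.I) *
        Complex.exp ((c + (2 * Real.pi * x : ℝ) * Complex.I) * v) =
      Complex.exp (c * v) * f v := by
    rw [← hinv, ← integral_const_mul]
    congr 1
    funext x
    rw [mul_left_comm, mul_comm (Complex.exp (c * v)), mul_assoc, mul_left_comm]
    rw [mul_comm (Complex.exp _) (KK _ _ * _), mul_assoc, ← Complex.exp_add]
    congr 2
    push_cast
    ring
  rw [h4] at hsub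
  have h5 : Complex.exp (c * v) * f v = (tri lam v : ℂ) := by
    simp only [hf]
    rw [mul_left_comm, ← Complex.exp_add]
    simp
  rw [h5] at hsub
  rw [hsub, Complex.real_smul]
  push_cast
  rw [one_div]

theorem kFacts : KFacts where
  diff := fun _ hl => KK_diff hl
  bound := by
    refine ⟨6 * Real.exp 2, ?_⟩
    intro lam hl hl1 s h0 h2
    refine (KK_bound hl s).trans ?_
    gcongr
    rw [abs_of_nonneg h0]
    nlinarith
  inv := fun _ c v hl => KK_inv c v hl

end Pool.Agent.M20.Helper79.QRH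
end

/- Helper53.KN.Helper52.QRH.Explicit -/
section
/-! Project QRH, module A4: explicit formula with the triangle kernel. -/

set_option autoImplicit false
open Filter Topology MeasureTheory

namespace Pool.Agent.M20.Helper52.QRH

open Pool.Agent.M20.Helper10.QRH

namespace Expl

lemma tri_zero {lam v : ℝ} (hl : 0 < lam) (h : lam ≤ |v|) : tri lam v = 0 := by
  unfold tri
  have : 1 - |v| / lam ≤ 0 := by
    rw [sub_nonpos, le_div_iff₀ hl]; (clear * - h; linarith)
  rw [max_eq_left this]; simp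

lemma integral3 {f g h : ℝ → ℂ} (hf : Integrable f) (hg : Integrable g) (hh : Integrable h) :
    ∫ t : ℝ, (f t + g t - h t) = (∫ t, f t) + (∫ t, g t) - ∫ t, h t := by
  have h1 : ∫ t : ℝ, (f t + g t - h t) = ∫ t : ℝ, ((f + g) t - h t) := rfl
  rw [h1, integral_sub (hf.add hg) hh]
  have h2 : ∫ t : ℝ, (f + g) t = ∫ t : ℝ, (f t + g t) := rfl
  rw [h2, integral_add hf hg]

lemma two_pi_cancel (z : ℂ) : 2 * (Real.pi : ℂ) * (1 / (2 * (Real.pi : ℂ)) * z) = z := by
  have hpc : (Real.pi : ℂ) ≠ 0 := by exact_mod_cast Real.pi_pos.ne'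
  field_simp

lemma line_re (c t : ℝ) : ((c : ℂ) + t * Complex.I).re = c := by simp
lemma line_im (c t : ℝ) : ((c : ℂ) + t * Complex.I).im = t := by simp

section
variable (hK : KFacts) {lam : ℝ} (hl : 0 < lam) (hl1 : lam ≤ 1)
include hK hl

lemma KK_cont (c : ℝ) : Continuous (fun t : ℝ => KK lam (c + t * Complex.I)) := by
  have := (hK.diff lam hl).continuous
  exact this.comp (by fun_prop)

include hl1

lemma KK_integrable (c : ℝ) (h0 : 0 ≤ c) (h2 : c ≤ 2) :
    Integrable (fun t : ℝ => KK lam (c + t * Complex.I)) := by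
  obtain ⟨C, hC⟩ := hK.bound
  have h := (integrable_inv_one_add_sq.comp_mul_left' hl.ne').const_mul C
  refine h.mono' (KK_cont hK hl c).aestronglyMeasurable (Filter.Eventually.of_forall fun t => ?_)
  have := hC lam hl hl1 (c + t * Complex.I) (by simpa using h0) (by simpa using h2)
  rwa [line_im, div_eq_mul_inv] at this

omit hK hl hl1 in
lemma norm_exp_line (c t u : ℝ) : ‖Complex.exp ((c + t * Complex.I) * u)‖ = Real.exp (c * u) := by
  rw [Complex.norm_exp]
  congr 1
  simp

lemma A_integrable (c : ℝ) (h0 : 0 ≤ c) (h2 : c ≤ 2) (u : ℝ) :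
    Integrable (fun t : ℝ => KK lam (c + t * Complex.I) * Complex.exp ((c + t * Complex.I) * u)) := by
  refine (KK_integrable hK hl hl1 c h0 h2).mul_bdd (c := Real.exp (c * u)) ?_ ?_
  · exact Continuous.aestronglyMeasurable (by fun_prop)
  · exact Filter.Eventually.of_forall fun t => (norm_exp_line c t u).le

/-- the polar terms -/
lemma polar (u : ℝ) (hu : 1 ≤ u) (ρ : ℂ) (hρ : ρ.re < 2) :
    Integrable (fun t : ℝ => KK lam ((2 : ℝ) + t * Complex.I) * (1 / (((2 : ℝ) + t * Complex.I) - ρ)) *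
      Complex.exp (((2 : ℝ) + t * Complex.I) * u)) ∧
    ∫ t : ℝ, KK lam ((2 : ℝ) + t * Complex.I) * (1 / (((2 : ℝ) + t * Complex.I) - ρ)) *
      Complex.exp (((2 : ℝ) + t * Complex.I) * u) = 2 * Real.pi * (Complex.exp (ρ * u) * KK lam ρ) := by
  set A : ℝ → ℂ := fun t => KK lam ((2 : ℝ) + t * Complex.I) * Complex.exp (((2 : ℝ) + t * Complex.I) * u)
    with hA
  have hAi : Integrable A := A_integrable hK hl hl1 2 (by norm_num) le_rfl u
  have hr : (ρ - 2).re < 0 := by simp; linarith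
  have hBi : Integrable (fun v : ℝ => Complex.exp ((ρ - 2) * v)) (volume.restrict (Set.Ioi 0)) :=
    integrableOn_exp_mul_complex_Ioi hr 0
  have hne : ∀ t : ℝ, ((2 : ℝ) + t * Complex.I : ℂ) - ρ ≠ 0 := by
    intro t h
    have := congrArg Complex.re h
    simp at this
    linarith
  have hinv : ∀ t : ℝ, (1 / ((((2 : ℝ) : ℂ) + t * Complex.I) - ρ)) =
      ∫ v in Set.Ioi (0 : ℝ), Complex.exp ((ρ - ((2 : ℝ) + t * Complex.I)) * v) := by
    intro t
    have hr' : (ρ - ((2 : ℝ) + t * Complex.I)).re < 0 := by simp; linarith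
    rw [integral_exp_mul_complex_Ioi hr' 0]
    have h1 := hne t
    have h2 : ρ - (((2 : ℝ) : ℂ) + t * Complex.I) ≠ 0 := fun h => h1 (by rw [← neg_sub, h, neg_zero])
    simp only [Complex.ofReal_zero, mul_zero, Complex.exp_zero]
    rw [div_eq_div_iff h1 h2]; ring
  -- the function on the product
  set f : ℝ → ℝ → ℂ := fun t v => A t * Complex.exp ((ρ - ((2 : ℝ) + t * Complex.I)) * v) with hf
  have hfi : Integrable (Function.uncurry f) (volume.prod (volume.restrict (Set.Ioi 0))) := by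
    have h1 := hAi.mul_prod hBi
    have h2 : Integrable (fun z : ℝ × ℝ => (A z.1 * Complex.exp ((ρ - 2) * z.2)) *
        Complex.exp (((-(z.1 * z.2) : ℝ) : ℂ) * Complex.I)) (volume.prod (volume.restrict (Set.Ioi 0))) := by
      refine h1.mul_bdd (c := 1) ?_ ?_
      · exact Continuous.aestronglyMeasurable (by fun_prop)
      · exact Filter.Eventually.of_forall fun z => by rw [Complex.norm_exp_ofReal_mul_I]
    refine h2.congr (Filter.Eventually.of_forall fun z => ?_)
    simp only [Function.uncurry, hf]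
    rw [mul_assoc, ← Complex.exp_add]
    congr 2
    push_cast; ring
  have hcomb : ∀ t : ℝ, KK lam ((2 : ℝ) + t * Complex.I) * (1 / (((2 : ℝ) + t * Complex.I) - ρ)) *
      Complex.exp (((2 : ℝ) + t * Complex.I) * u) = ∫ v in Set.Ioi (0 : ℝ), f t v := by
    intro t
    rw [hinv t, hf]
    simp only
    rw [integral_const_mul, hA]
    ring
  simp only [hcomb]
  refine ⟨hfi.integral_prod_left, ?_⟩
  rw [integral_integral_swap hfi]
  have hin : ∀ v : ℝ, ∫ t : ℝ, f t v = Complex.exp (ρ * v) * (2 * Real.pi * (tri lam (u - v) : ℂ)) := by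
    intro v
    rw [hK.inv lam 2 (u - v) hl]
    have : ∀ t : ℝ, f t v = Complex.exp (ρ * v) * (KK lam ((2 : ℝ) + t * Complex.I) *
        Complex.exp (((2 : ℝ) + t * Complex.I) * ((u - v : ℝ) : ℂ))) := by
      intro t
      simp only [hf, hA]
      rw [mul_assoc, ← Complex.exp_add, mul_left_comm, ← Complex.exp_add]
      congr 2
      push_cast; ring
    simp only [this]
    rw [integral_const_mul, two_pi_cancel]
  simp only [hin]
  have hset : ∫ v in Set.Ioi (0 : ℝ), Complex.exp (ρ * v) * (2 * Real.pi * (tri lam (u - v) : ℂ)) =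
      ∫ v : ℝ, Complex.exp (ρ * v) * (2 * Real.pi * (tri lam (u - v) : ℂ)) := by
    refine setIntegral_eq_integral_of_forall_compl_eq_zero fun v hv => ?_
    simp only [Set.mem_Ioi, not_lt] at hv
    rw [tri_zero hl (by rw [abs_of_nonneg (by linarith)]; linarith)]
    simp
  rw [hset]
  have hsub := integral_sub_left_eq_self
    (fun w : ℝ => Complex.exp (ρ * ((u - w : ℝ) : ℂ)) * (2 * Real.pi * (tri lam w : ℂ))) volume u
  simp only [sub_sub_cancel] at hsub
  rw [hsub]
  unfold KK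
  rw [← integral_const_mul, ← integral_const_mul]
  congr 1
  ext w
  have : Complex.exp (ρ * ((u - w : ℝ) : ℂ)) = Complex.exp (ρ * u) * Complex.exp (-ρ * w) := by
    rw [← Complex.exp_add]; congr 1; push_cast; ring
  rw [this]
  ring

lemma polar_sum (u : ℝ) (hu : 1 ≤ u) (M : Multiset ℂ) : (∀ ρ ∈ M, ρ.re < 2) →
    Integrable (fun t : ℝ => KK lam ((2 : ℝ) + t * Complex.I) *
      (M.map (fun ρ => 1 / (((2 : ℝ) + t * Complex.I) - ρ))).sum *
      Complex.exp (((2 : ℝ) + t * Complex.I) * u)) ∧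
    ∫ t : ℝ, KK lam ((2 : ℝ) + t * Complex.I) * (M.map (fun ρ => 1 / (((2 : ℝ) + t * Complex.I) - ρ))).sum *
      Complex.exp (((2 : ℝ) + t * Complex.I) * u) =
      2 * Real.pi * (M.map (fun ρ => Complex.exp (ρ * u) * KK lam ρ)).sum := by
  refine Multiset.induction_on M ?_ ?_
  · intro _
    simp
  · intro a s ih hs
    obtain ⟨i1, e1⟩ := ih (fun ρ hρ => hs ρ (Multiset.mem_cons_of_mem hρ))
    obtain ⟨i2, e2⟩ := polar hK hl hl1 u hu a (hs a (Multiset.mem_cons_self a s))
    have : ∀ t : ℝ, KK lam ((2 : ℝ) + t * Complex.I) *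
      ((a ::ₘ s).map (fun ρ => 1 / (((2 : ℝ) + t * Complex.I) - ρ))).sum *
      Complex.exp (((2 : ℝ) + t * Complex.I) * u) =
      KK lam ((2 : ℝ) + t * Complex.I) * (1 / (((2 : ℝ) + t * Complex.I) - a)) *
      Complex.exp (((2 : ℝ) + t * Complex.I) * u) +
      KK lam ((2 : ℝ) + t * Complex.I) * (s.map (fun ρ => 1 / (((2 : ℝ) + t * Complex.I) - ρ))).sum *
      Complex.exp (((2 : ℝ) + t * Complex.I) * u) := by
      intro t
      rw [Multiset.map_cons, Multiset.sum_cons]
      ring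
    simp only [this]
    refine ⟨i2.add i1, ?_⟩
    rw [integral_add i2 i1, e1, e2, Multiset.map_cons, Multiset.sum_cons]
    ring

/-- the Dirichlet series term -/
lemma series (u : ℝ) :
    ∫ t : ℝ, KK lam ((2 : ℝ) + t * Complex.I) *
      LSeries (fun n => (ArithmeticFunction.vonMangoldt n : ℂ)) ((2 : ℝ) + t * Complex.I) *
      Complex.exp (((2 : ℝ) + t * Complex.I) * u) =
      2 * Real.pi * ((∑' n : ℕ, ArithmeticFunction.vonMangoldt n * tri lam (u - Real.log n) : ℝ) : ℂ) := by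
  set F : ℕ → ℝ → ℂ := fun n t => KK lam ((2 : ℝ) + t * Complex.I) *
      LSeries.term (fun n => (ArithmeticFunction.vonMangoldt n : ℂ)) ((2 : ℝ) + t * Complex.I) n *
      Complex.exp (((2 : ℝ) + t * Complex.I) * u) with hF
  have hFe : ∀ n t, F n t = (ArithmeticFunction.vonMangoldt n : ℂ) * (KK lam ((2 : ℝ) + t * Complex.I) *
      Complex.exp (((2 : ℝ) + t * Complex.I) * ((u - Real.log n : ℝ) : ℂ))) := by
    intro n t
    rcases Nat.eq_zero_or_pos n with rfl | hn
    · simp [hF]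
    · simp only [hF]
      rw [LSeries.term_of_ne_zero hn.ne']
      have hnc : (n : ℂ) ≠ 0 := by exact_mod_cast hn.ne'
      rw [Complex.cpow_def_of_ne_zero hnc, div_eq_mul_inv, ← Complex.exp_neg]
      have h2 : Complex.exp (((2 : ℝ) + t * Complex.I) * ((u - Real.log n : ℝ) : ℂ)) =
        Complex.exp (-(Complex.log n * ((2 : ℝ) + t * Complex.I))) *
          Complex.exp (((2 : ℝ) + t * Complex.I) * u) := by
        rw [← Complex.exp_add]
        congr 1
        rw [← Complex.natCast_log]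
        push_cast
        ring
      rw [h2]
      ring
  have hFi : ∀ n, Integrable (F n) := by
    intro n
    have := (A_integrable hK hl hl1 2 (by norm_num) le_rfl (u - Real.log n)).const_mul
      (ArithmeticFunction.vonMangoldt n : ℂ)
    refine this.congr (Filter.Eventually.of_forall fun t => ?_)
    exact (hFe n t).symm
  have hsum : Summable (fun n => ∫ t, ‖F n t‖) := by
    have h1 : LSeriesSummable (fun n => (ArithmeticFunction.vonMangoldt n : ℂ)) ((2 : ℝ) : ℂ) :=
      ArithmeticFunction.LSeriesSummable_vonMangoldt (by simp)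
    have h2 := (h1.norm).mul_right (Real.exp (2 * u) * ∫ t : ℝ, ‖KK lam ((2 : ℝ) + t * Complex.I)‖)
    refine h2.congr fun n => ?_
    have : ∀ t : ℝ, ‖F n t‖ = (‖LSeries.term (fun n => (ArithmeticFunction.vonMangoldt n : ℂ)) ((2 : ℝ) : ℂ) n‖ *
        Real.exp (2 * u)) * ‖KK lam ((2 : ℝ) + t * Complex.I)‖ := by
      intro t
      simp only [hF]
      rw [norm_mul, norm_mul, norm_exp_line]
      rw [LSeries.norm_term_eq, LSeries.norm_term_eq, line_re, Complex.ofReal_re]
      ring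
    simp only [this]
    rw [integral_const_mul]
    ring
  have hs := hasSum_integral_of_summable_integral_norm hFi hsum
  have e1 : ∫ t : ℝ, ∑' n, F n t = ∫ t : ℝ, KK lam ((2 : ℝ) + t * Complex.I) *
      LSeries (fun n => (ArithmeticFunction.vonMangoldt n : ℂ)) ((2 : ℝ) + t * Complex.I) *
      Complex.exp (((2 : ℝ) + t * Complex.I) * u) := by
    congr 1
    ext t
    simp only [hF, LSeries]
    rw [tsum_mul_right, tsum_mul_left]
  rw [← e1, ← hs.tsum_eq]
  have e2 : ∀ n : ℕ, ∫ t : ℝ, F n t = 2 * Real.pi *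
      ((ArithmeticFunction.vonMangoldt n * tri lam (u - Real.log n) : ℝ) : ℂ) := by
    intro n
    simp only [hFe]
    rw [integral_const_mul]
    have := hK.inv lam 2 (u - Real.log n) hl
    rw [Complex.ofReal_mul, this, mul_left_comm, two_pi_cancel]
  simp only [e2]
  rw [tsum_mul_left, Complex.ofReal_tsum]

end

end Expl

end Pool.Agent.M20.Helper52.QRH
end

/- Helper53.KN.Helper52.QRH.Duality -/
section
/-! Project QRH, module A5: the duality inequality with the Lorentz weight. -/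

set_option autoImplicit false
set_option linter.all false
open Filter Topology MeasureTheory

namespace Pool.Agent.M20.Helper52.QRH

open Pool.Agent.M20.Helper10.QRH

open scoped FourierTransform

lemma integral_split {f : ℝ → ℂ} (h1 : IntegrableOn f (Set.Iic 0)) (h2 : IntegrableOn f (Set.Ioi 0)) :
    ∫ x, f x = (∫ x in Set.Iic 0, f x) + ∫ x in Set.Ioi 0, f x := by
  rw [← setIntegral_union _ measurableSet_Ioi h1 h2, Set.Iic_union_Ioi, setIntegral_univ]
  exact Set.Iic_disjoint_Ioi le_rfl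

lemma expabs_integrable : Integrable (fun x : ℝ => Complex.exp ((-|x| : ℝ) : ℂ)) := by
  have h1 : IntegrableOn (fun x : ℝ => Complex.exp ((-|x| : ℝ) : ℂ)) (Set.Iic 0) := by
    have := integrableOn_exp_mul_complex_Iic (a := 1) (by simp) 0
    refine this.congr_fun (fun x hx => ?_) measurableSet_Iic
    simp only [Set.mem_Iic] at hx
    simp [abs_of_nonpos hx]
  have h2 : IntegrableOn (fun x : ℝ => Complex.exp ((-|x| : ℝ) : ℂ)) (Set.Ioi 0) := by
    have := integrableOn_exp_mul_complex_Ioi (a := -1) (by simp) 0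
    refine this.congr_fun (fun x hx => ?_) measurableSet_Ioi
    simp only [Set.mem_Ioi] at hx
    simp [abs_of_pos hx]
  have := h1.union h2
  rwa [Set.Iic_union_Ioi, integrableOn_univ] at this

lemma fourier_expabs (w : ℝ) :
    𝓕 (fun x : ℝ => Complex.exp ((-|x| : ℝ) : ℂ)) w = 2 / (1 + (2 * Real.pi * w) ^ 2) := by
  rw [Real.fourier_real_eq_integral_exp_smul]
  set c : ℂ := (2 * Real.pi * w : ℝ) * Complex.I with hc
  have hcre : c.re = 0 := by simp [hc]
  have e1 : Set.EqOn (fun x : ℝ => Complex.exp ((1 - c) * x))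
      (fun v : ℝ => Complex.exp (↑(-2 * Real.pi * v * w) * Complex.I) • Complex.exp ((-|v| : ℝ) : ℂ))
      (Set.Iic 0) := by
    intro x hx
    simp only [Set.mem_Iic] at hx
    simp only [smul_eq_mul]
    rw [← Complex.exp_add, abs_of_nonpos hx]
    congr 1
    rw [hc]; push_cast; ring
  have e2 : Set.EqOn (fun x : ℝ => Complex.exp ((-1 - c) * x))
      (fun v : ℝ => Complex.exp (↑(-2 * Real.pi * v * w) * Complex.I) • Complex.exp ((-|v| : ℝ) : ℂ))
      (Set.Ioi 0) := by
    intro x hx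
    simp only [Set.mem_Ioi] at hx
    simp only [smul_eq_mul]
    rw [← Complex.exp_add, abs_of_pos hx]
    congr 1
    rw [hc]; push_cast; ring
  have r1 : 0 < (1 - c).re := by simp [hcre]
  have r2 : (-1 - c).re < 0 := by simp [hcre]
  rw [integral_split ((integrableOn_exp_mul_complex_Iic r1 0).congr_fun e1 measurableSet_Iic)
    ((integrableOn_exp_mul_complex_Ioi r2 0).congr_fun e2 measurableSet_Ioi),
    ← setIntegral_congr_fun measurableSet_Iic e1, ← setIntegral_congr_fun measurableSet_Ioi e2,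
    integral_exp_mul_complex_Iic r1, integral_exp_mul_complex_Ioi r2]
  have n1 : (1 - c) ≠ 0 := fun h => by rw [h] at r1; simp at r1
  have n2 : (-1 - c) ≠ 0 := fun h => by rw [h] at r2; simp at r2
  have n3 : (1 + (2 * (Real.pi : ℂ) * w) ^ 2) = -((1 - c) * (-1 - c)) := by
    have hI : Complex.I ^ 2 = -1 := Complex.I_sq
    rw [hc]; push_cast
    linear_combination ((2 * (Real.pi : ℂ) * w) ^ 2) * hI
  rw [n3]
  simp only [Complex.ofReal_zero, mul_zero, Complex.exp_zero]
  field_simp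
  ring

lemma lorentz_integrable {lam : ℝ} (hl : 0 < lam) : Integrable (fun t : ℝ => 1 / (1 + (lam * t) ^ 2)) := by
  have := integrable_inv_one_add_sq.comp_mul_left' hl.ne'
  simpa [one_div] using this

lemma fourier_lorentz {lam : ℝ} (hl : 0 < lam) (v : ℝ) :
    ∫ t : ℝ, (1 / (1 + (lam * t) ^ 2) : ℝ) * Complex.exp (t * v * Complex.I) =
      Real.pi / lam * Complex.exp ((-(|v| / lam) : ℝ) : ℂ) := by
  have hint : Integrable (𝓕 (fun x : ℝ => Complex.exp ((-|x| : ℝ) : ℂ))) := by
    have := (integrable_inv_one_add_sq.comp_mul_left' (R := 2 * Real.pi) (by positivity)).ofReal (𝕜 := ℂ)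
    refine (this.const_mul 2).congr (Filter.Eventually.of_forall fun w => ?_)
    simp only [fourier_expabs]
    push_cast
    rw [div_eq_mul_inv]
    rfl
  have inv := Continuous.fourierInv_fourier_eq (f := fun x : ℝ => Complex.exp ((-|x| : ℝ) : ℂ))
    (by fun_prop) expabs_integrable hint
  have inv' := congrFun inv (v / lam)
  rw [Real.fourierInv_eq'] at inv'
  simp only [fourier_expabs] at inv'
  have key := Measure.integral_comp_mul_left
    (fun t : ℝ => ((1 / (1 + (lam * t) ^ 2) : ℝ) : ℂ) * Complex.exp (t * v * Complex.I)) (2 * Real.pi / lam)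
  have hp : (0 : ℝ) < 2 * Real.pi / lam := by (clear * - hl; positivity)
  have e : ∀ x : ℝ, ((1 / (1 + (lam * (2 * Real.pi / lam * x)) ^ 2) : ℝ) : ℂ) *
      Complex.exp (((2 * Real.pi / lam * x : ℝ) : ℂ) * v * Complex.I) =
      (1 / 2 : ℂ) * (Complex.exp (((2 * Real.pi * inner ℝ x (v / lam) : ℝ) : ℂ) * Complex.I) •
        (2 / (1 + (2 * (Real.pi : ℂ) * x) ^ 2))) := by
    intro x
    have hx : lam * (2 * Real.pi / lam * x) = 2 * Real.pi * x := by (clear * - hl; field_simp)
    rw [hx, smul_eq_mul]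
    have hi : (((2 * Real.pi / lam * x : ℝ) : ℂ) * v * Complex.I) =
        (((2 * Real.pi * inner ℝ x (v / lam) : ℝ) : ℂ) * Complex.I) := by
      simp only [RCLike.inner_apply, conj_trivial]
      push_cast
      ring
    rw [hi]
    push_cast
    ring
  simp only [e] at key
  rw [integral_const_mul, inv', abs_of_pos (inv_pos.2 hp)] at key
  have hlc : (lam : ℂ) ≠ 0 := by exact_mod_cast hl.ne'
  have hpc : (Real.pi : ℂ) ≠ 0 := by exact_mod_cast Real.pi_pos.ne'
  have habs : |v / lam| = |v| / lam := by rw [abs_div, abs_of_pos hl]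
  rw [habs] at key
  rw [Complex.real_smul] at key
  have : (((2 * Real.pi / lam)⁻¹ : ℝ) : ℂ) = (lam : ℂ) / (2 * Real.pi) := by
    push_cast
    rw [inv_div]
  rw [this] at key
  field_simp at key
  field_simp
  linear_combination -key

lemma norm_fourier_lorentz {lam : ℝ} (hl : 0 < lam) (v : ℝ) :
    ‖∫ t : ℝ, ((1 / (1 + (lam * t) ^ 2) : ℝ) : ℂ) * Complex.exp (t * v * Complex.I)‖ =
      Real.pi / lam * Real.exp (-(|v| / lam)) := by
  rw [fourier_lorentz hl v, norm_mul, Complex.norm_exp_ofReal, norm_div, Complex.norm_real,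
    Complex.norm_real, Real.norm_of_nonneg Real.pi_pos.le, Real.norm_of_nonneg hl.le]

/-- the constant in the packing bound -/
noncomputable def C0 : ℝ := Real.exp 1 * ∑' n : ℤ, Real.exp (-|(n : ℝ)|)

lemma summable_exp_int : Summable (fun n : ℤ => Real.exp (-|(n : ℝ)|)) := by
  have h : Summable (fun n : ℕ => Real.exp (-(n : ℝ))) := by
    exact Real.summable_exp_neg_nat
  refine Summable.of_nat_of_neg ?_ ?_
  · simpa using h
  · simpa using h

lemma C0_pos : 0 < C0 := by
  unfold C0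
  have : 0 < ∑' n : ℤ, Real.exp (-|(n : ℝ)|) := summable_exp_int.tsum_pos (fun _ => (Real.exp_pos _).le) 0 (Real.exp_pos _)
  positivity

lemma packing {lam : ℝ} (hl : 0 < lam) (R : Finset ℝ)
    (hR : ∀ u ∈ R, ∀ u' ∈ R, u ≠ u' → lam ≤ |u - u'|) (u : ℝ) :
    ∑ u' ∈ R, Real.exp (-(|u - u'| / lam)) ≤ C0 := by
  have hinj : Set.InjOn (fun u' : ℝ => ⌊(u - u') / lam⌋) (R : Set ℝ) := by
    intro a ha b hb hab
    by_contra hne
    have h1 := hR a ha b hb hne
    have h2 := Int.abs_sub_lt_one_of_floor_eq_floor hab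
    have h3 : (u - a) / lam - (u - b) / lam = (b - a) / lam := by ring
    rw [h3, abs_div, abs_of_pos hl, div_lt_one hl, abs_sub_comm] at h2
    (clear * - h1 h2; linarith)
  calc ∑ u' ∈ R, Real.exp (-(|u - u'| / lam))
      ≤ ∑ u' ∈ R, Real.exp 1 * Real.exp (-|((⌊(u - u') / lam⌋ : ℤ) : ℝ)|) := by
        refine Finset.sum_le_sum fun u' _ => ?_
        rw [← Real.exp_add]
        apply Real.exp_le_exp.2
        have h1 := Int.floor_le ((u - u') / lam)
        have h2 := Int.lt_floor_add_one ((u - u') / lam)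
        have h3 : |u - u'| / lam = |(u - u') / lam| := by rw [abs_div, abs_of_pos hl]
        rw [h3]
        have h4 : |((⌊(u - u') / lam⌋ : ℤ) : ℝ)| ≤ |(u - u') / lam| + 1 := by
          rw [abs_le]
          constructor
          · have := neg_abs_le ((u - u') / lam)
            (clear * - h2 this; linarith)
          · have := le_abs_self ((u - u') / lam)
            (clear * - h1 this; linarith)
        (clear * - h4; linarith)
    _ = Real.exp 1 * ∑ n ∈ R.image (fun u' : ℝ => ⌊(u - u') / lam⌋), Real.exp (-|((n : ℤ) : ℝ)|) := by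
        rw [Finset.sum_image hinj, Finset.mul_sum]
    _ ≤ C0 := by
        unfold C0
        refine mul_le_mul_of_nonneg_left ?_ (Real.exp_pos 1).le
        exact summable_exp_int.sum_le_tsum _ (fun _ _ => (Real.exp_pos _).le)

lemma log_bound : ∃ C : ℝ, 0 < C ∧ ∀ x : ℝ, 1 + Real.log (2 + |x|) / Real.log 2 ≤ C * (1 + x ^ 2) ^ (1/8 : ℝ) := by
  refine ⟨1 + 8 * 3 / Real.log 2, by (clear * -; positivity), fun x => ?_⟩
  have hl2 : 0 < Real.log 2 := Real.log_pos (by norm_num)
  have h1 : (1 : ℝ) ≤ (1 + x ^ 2) ^ (1/8 : ℝ) := Real.one_le_rpow (le_add_of_nonneg_right (sq_nonneg x)) (by norm_num)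
  have h2 : Real.log (2 + |x|) ≤ 8 * 3 * (1 + x ^ 2) ^ (1/8 : ℝ) := by
    have h3 : 2 + |x| ≤ 3 * (1 + x ^ 2) := by
      have := sq_nonneg (|x| - 1)
      have h4 : |x| ^ 2 = x ^ 2 := sq_abs x
      (clear * - h4; linarith [sq_nonneg (|x| - 1), sq_nonneg |x|])
    have h5 := Real.log_le_rpow_div (x := 2 + |x|) (by (clear * -; positivity)) (ε := 1/8) (by norm_num)
    have h6 : (2 + |x|) ^ (1/8 : ℝ) ≤ (3 * (1 + x ^ 2)) ^ (1/8 : ℝ) :=
      Real.rpow_le_rpow (by positivity) h3 (by norm_num)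
    rw [Real.mul_rpow (by norm_num) (by positivity)] at h6
    have h7 : (3 : ℝ) ^ (1/8 : ℝ) ≤ 3 := by
      calc (3 : ℝ) ^ (1/8 : ℝ) ≤ 3 ^ (1 : ℝ) := Real.rpow_le_rpow_of_exponent_le (by norm_num) (by norm_num)
        _ = 3 := Real.rpow_one 3
    have h8 : (0 : ℝ) < (1 + x ^ 2) ^ (1/8 : ℝ) := by (clear * - h1; linarith)
    have h9 := mul_le_mul_of_nonneg_right h7 h8.le
    (clear * - h5 h6 h9; linarith)
  calc 1 + Real.log (2 + |x|) / Real.log 2 ≤ (1 + x ^ 2) ^ (1/8 : ℝ) + (8 * 3 * (1 + x ^ 2) ^ (1/8 : ℝ)) / Real.log 2 := by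
        gcongr
    _ = _ := by ring

/-- pointwise bound of the weighted square -/
lemma exists_C1 : ∃ C1 : ℝ, 0 < C1 ∧ ∀ lam : ℝ, 0 < lam → lam ≤ 1/2 →
    Integrable (fun t : ℝ => Real.log (2 + |t|) ^ 2 / (1 + (lam * t) ^ 2)) ∧
    ∫ t : ℝ, Real.log (2 + |t|) ^ 2 / (1 + (lam * t) ^ 2) ≤ C1 * Real.log (1 / lam) ^ 2 / lam := by
  obtain ⟨C, hC, hb⟩ := log_bound
  have hI : Integrable (fun x : ℝ => ((1 : ℝ) + ‖x‖ ^ 2) ^ (-(3/2 : ℝ) / 2)) :=
    integrable_rpow_neg_one_add_norm_sq (by simp; norm_num)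
  set I0 : ℝ := ∫ x : ℝ, ((1 : ℝ) + ‖x‖ ^ 2) ^ (-(3/2 : ℝ) / 2) with hI0
  have hI0n : 0 ≤ I0 := integral_nonneg fun x => by (clear * -; positivity)
  refine ⟨C ^ 2 * (I0 + 1), by (clear * - hC; positivity), fun lam hl hl2 => ?_⟩
  have hll : Real.log 2 ≤ Real.log (1 / lam) := by
    apply Real.log_le_log (by norm_num)
    rw [le_div_iff₀ hl]; (clear * - hl2; linarith)
  have hl2p : 0 < Real.log 2 := Real.log_pos (by norm_num)
  have hpt : ∀ t : ℝ, Real.log (2 + |t|) ^ 2 / (1 + (lam * t) ^ 2) ≤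
      (C ^ 2 * Real.log (1 / lam) ^ 2) * ((1 : ℝ) + ‖lam * t‖ ^ 2) ^ (-(3/2 : ℝ) / 2) := by
    intro t
    have h1 : Real.log (2 + |t|) ≤ Real.log (1 / lam) * (1 + Real.log (2 + |lam * t|) / Real.log 2) := by
      have h2 : 2 + |t| ≤ (1 / lam) * (2 + |lam * t|) := by
        rw [abs_mul, abs_of_pos hl]
        have : (1 / lam) * (2 + lam * |t|) = 2 / lam + |t| := by field_simp
        rw [this]
        have : 2 ≤ 2 / lam := by rw [le_div_iff₀ hl]; (clear * - hl hl2; linarith)
        (clear * - this; linarith)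
      have h3 : Real.log (2 + |t|) ≤ Real.log (1 / lam) + Real.log (2 + |lam * t|) := by
        rw [← Real.log_mul (by positivity) (by (clear * -; positivity))]
        exact Real.log_le_log (by positivity) h2
      have h4 : 0 ≤ Real.log (2 + |lam * t|) := Real.log_nonneg (by (clear * - hl hl2; linarith [abs_nonneg (lam * t)]))
      have h5 : Real.log (2 + |lam * t|) ≤ Real.log (1 / lam) * (Real.log (2 + |lam * t|) / Real.log 2) := by
        rw [mul_div_assoc', le_div_iff₀ hl2p]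
        rw [mul_comm]
        exact mul_le_mul_of_nonneg_right hll h4
      (clear * - h3 h5; linarith)
    have h6 := hb (lam * t)
    have h7 : Real.log (2 + |t|) ≤ Real.log (1 / lam) * (C * (1 + (lam * t) ^ 2) ^ (1/8 : ℝ)) :=
      h1.trans (mul_le_mul_of_nonneg_left h6 (by (clear * - hll hl2p; linarith)))
    have h8 : 0 ≤ Real.log (2 + |t|) := Real.log_nonneg (by (clear * - hl hl2; linarith [abs_nonneg t]))
    have hpos : (0 : ℝ) < 1 + (lam * t) ^ 2 := by positivity
    rw [div_le_iff₀ hpos]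
    have h9 : (1 : ℝ) + ‖lam * t‖ ^ 2 = 1 + (lam * t) ^ 2 := by rw [Real.norm_eq_abs, sq_abs]
    rw [h9]
    calc Real.log (2 + |t|) ^ 2 ≤ (Real.log (1 / lam) * (C * (1 + (lam * t) ^ 2) ^ (1/8 : ℝ))) ^ 2 :=
          pow_le_pow_left₀ h8 h7 2
      _ = C ^ 2 * Real.log (1 / lam) ^ 2 * ((1 + (lam * t) ^ 2) ^ (1/8 : ℝ)) ^ 2 := by ring
      _ = C ^ 2 * Real.log (1 / lam) ^ 2 * ((1 + (lam * t) ^ 2) ^ (-(3/2 : ℝ) / 2) * (1 + (lam * t) ^ 2)) := by
          congr 1
          rw [← Real.rpow_natCast, ← Real.rpow_mul hpos.le]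
          nth_rewrite 3 [← Real.rpow_one (1 + (lam * t) ^ 2)]
          rw [← Real.rpow_add hpos]
          norm_num
      _ = _ := by ring
  have hI2 : Integrable (fun t : ℝ => (C ^ 2 * Real.log (1 / lam) ^ 2) *
      ((1 : ℝ) + ‖lam * t‖ ^ 2) ^ (-(3/2 : ℝ) / 2)) :=
    (hI.comp_mul_left' hl.ne').const_mul _
  have hint : Integrable (fun t : ℝ => Real.log (2 + |t|) ^ 2 / (1 + (lam * t) ^ 2)) := by
    refine hI2.mono' ?_ (Filter.Eventually.of_forall fun t => ?_)
    · apply Measurable.aestronglyMeasurable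
      fun_prop
    · rw [Real.norm_of_nonneg (by (clear * -; positivity))]
      exact hpt t
  refine ⟨hint, ?_⟩
  calc ∫ t : ℝ, Real.log (2 + |t|) ^ 2 / (1 + (lam * t) ^ 2)
      ≤ ∫ t : ℝ, (C ^ 2 * Real.log (1 / lam) ^ 2) * ((1 : ℝ) + ‖lam * t‖ ^ 2) ^ (-(3/2 : ℝ) / 2) :=
        integral_mono hint hI2 hpt
    _ = (C ^ 2 * Real.log (1 / lam) ^ 2) * (lam⁻¹ * I0) := by
        rw [integral_const_mul]
        congr 1
        have := Measure.integral_comp_mul_left (fun x : ℝ => ((1 : ℝ) + ‖x‖ ^ 2) ^ (-(3/2 : ℝ) / 2)) lam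
        rw [this, abs_of_pos (inv_pos.2 hl), smul_eq_mul]
    _ ≤ C ^ 2 * (I0 + 1) * Real.log (1 / lam) ^ 2 / lam := by
        have : 0 < lam⁻¹ := inv_pos.2 hl
        have h : 0 ≤ C ^ 2 * Real.log (1 / lam) ^ 2 * lam⁻¹ := by (clear * - hC hl; positivity)
        have e : C ^ 2 * (I0 + 1) * Real.log (1 / lam) ^ 2 / lam =
          C ^ 2 * Real.log (1 / lam) ^ 2 * lam⁻¹ * (I0 + 1) := by rw [div_eq_mul_inv]; ring
        rw [e]
        rw [mul_add, mul_one, ← mul_assoc]
        exact le_add_of_nonneg_right h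

/-- the weighted second moment of an exponential polynomial -/
lemma second_moment {lam : ℝ} (hl : 0 < lam) (R : Finset ℝ)
    (hR : ∀ u ∈ R, ∀ u' ∈ R, u ≠ u' → lam ≤ |u - u'|) (ε : ℝ → ℂ) (hε : ∀ u, ‖ε u‖ = 1) :
    Integrable (fun t : ℝ => 1 / (1 + (lam * t) ^ 2) *
      ‖∑ u ∈ R, ε u * Complex.exp (t * u * Complex.I)‖ ^ 2) ∧
    ∫ t : ℝ, 1 / (1 + (lam * t) ^ 2) * ‖∑ u ∈ R, ε u * Complex.exp (t * u * Complex.I)‖ ^ 2 ≤
      Real.pi / lam * R.card * C0 := by
  have hexpand : ∀ t : ℝ, ((1 / (1 + (lam * t) ^ 2) *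
      ‖∑ u ∈ R, ε u * Complex.exp (t * u * Complex.I)‖ ^ 2 : ℝ) : ℂ) =
      ∑ u ∈ R, ∑ u' ∈ R, (ε u * (starRingEnd ℂ) (ε u')) *
        (((1 / (1 + (lam * t) ^ 2) : ℝ) : ℂ) * Complex.exp (t * (u - u' : ℝ) * Complex.I)) := by
    intro t
    have h1 : ((‖∑ u ∈ R, ε u * Complex.exp (t * u * Complex.I)‖ ^ 2 : ℝ) : ℂ) =
        (∑ u ∈ R, ε u * Complex.exp (t * u * Complex.I)) *
          (starRingEnd ℂ) (∑ u ∈ R, ε u * Complex.exp (t * u * Complex.I)) := by
      rw [Complex.mul_conj, Complex.normSq_eq_norm_sq]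
    rw [Complex.ofReal_mul, h1, map_sum, Finset.sum_mul_sum, Finset.mul_sum]
    refine Finset.sum_congr rfl fun u _ => ?_
    rw [Finset.mul_sum]
    refine Finset.sum_congr rfl fun u' _ => ?_
    rw [map_mul, ← Complex.exp_conj]
    have h2 : (starRingEnd ℂ) (t * u' * Complex.I) = -(t * u' * Complex.I) := by
      simp
    have h3 : Complex.exp (t * (u - u' : ℝ) * Complex.I) =
        Complex.exp (t * u * Complex.I) * Complex.exp (-(t * u' * Complex.I)) := by
      rw [← Complex.exp_add]; congr 1; push_cast; ring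
    rw [h2, h3]
    ring
  have hint1 : ∀ v : ℝ, Integrable (fun t : ℝ => ((1 / (1 + (lam * t) ^ 2) : ℝ) : ℂ) *
      Complex.exp (t * v * Complex.I)) := by
    intro v
    have h := (lorentz_integrable hl).ofReal (𝕜 := ℂ)
    refine h.mul_bdd (c := 1) ?_ ?_
    · exact Continuous.aestronglyMeasurable (by fun_prop)
    · refine Filter.Eventually.of_forall fun t => ?_
      have : (t * v * Complex.I : ℂ) = ((t * v : ℝ) : ℂ) * Complex.I := by push_cast; ring
      rw [this, Complex.norm_exp_ofReal_mul_I]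
  have hintc : Integrable (fun t : ℝ => ((1 / (1 + (lam * t) ^ 2) *
      ‖∑ u ∈ R, ε u * Complex.exp (t * u * Complex.I)‖ ^ 2 : ℝ) : ℂ)) := by
    simp only [hexpand]
    refine integrable_finsetSum _ fun u _ => integrable_finsetSum _ fun u' _ => ?_
    exact (hint1 (u - u')).const_mul _
  refine ⟨?_, ?_⟩
  · exact hintc.re
  · have h1 : ((∫ t : ℝ, 1 / (1 + (lam * t) ^ 2) *
        ‖∑ u ∈ R, ε u * Complex.exp (t * u * Complex.I)‖ ^ 2 : ℝ) : ℂ) =
        ∑ u ∈ R, ∑ u' ∈ R, (ε u * (starRingEnd ℂ) (ε u')) *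
          ∫ t : ℝ, (((1 / (1 + (lam * t) ^ 2) : ℝ) : ℂ) * Complex.exp (t * (u - u' : ℝ) * Complex.I)) := by
      rw [← integral_complex_ofReal]
      simp only [hexpand]
      rw [integral_finsetSum _ (fun u _ => integrable_finsetSum _ fun u' _ => (hint1 (u - u')).const_mul _)]
      refine Finset.sum_congr rfl fun u _ => ?_
      rw [integral_finsetSum _ (fun u' _ => (hint1 (u - u')).const_mul _)]
      refine Finset.sum_congr rfl fun u' _ => ?_
      rw [integral_const_mul]
    have h2 : ∫ t : ℝ, 1 / (1 + (lam * t) ^ 2) *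
        ‖∑ u ∈ R, ε u * Complex.exp (t * u * Complex.I)‖ ^ 2 ≤
        ‖((∫ t : ℝ, 1 / (1 + (lam * t) ^ 2) *
        ‖∑ u ∈ R, ε u * Complex.exp (t * u * Complex.I)‖ ^ 2 : ℝ) : ℂ)‖ := by
      rw [Complex.norm_real]; exact le_abs_self _
    refine h2.trans ?_
    rw [h1]
    calc _ ≤ ∑ u ∈ R, ∑ u' ∈ R, Real.pi / lam * Real.exp (-(|u - u'| / lam)) := by
          refine (norm_sum_le _ _).trans (Finset.sum_le_sum fun u _ => ?_)
          refine (norm_sum_le _ _).trans (Finset.sum_le_sum fun u' _ => ?_)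
          rw [norm_mul, norm_fourier_lorentz hl, norm_mul, hε, RCLike.norm_conj, hε]
          simp
      _ ≤ ∑ u ∈ R, Real.pi / lam * C0 := by
          refine Finset.sum_le_sum fun u _ => ?_
          rw [← Finset.mul_sum]
          exact mul_le_mul_of_nonneg_left (packing hl R hR u) (by positivity)
      _ = Real.pi / lam * R.card * C0 := by
          rw [Finset.sum_const, nsmul_eq_mul]; ring

lemma exists_phase (z : ℂ) : ∃ ε : ℂ, ‖ε‖ = 1 ∧ ε * z = ‖z‖ := by
  by_cases hz : z = 0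
  · exact ⟨1, by simp, by simp [hz]⟩
  · refine ⟨(starRingEnd ℂ) z / ‖z‖, ?_, ?_⟩
    · have : ‖z‖ ≠ 0 := by simpa using hz
      rw [norm_div, RCLike.norm_conj, Complex.norm_real, norm_norm, div_self this]
    · have : (‖z‖ : ℂ) ≠ 0 := by simpa using hz
      rw [div_mul_eq_mul_div, div_eq_iff this, mul_comm, Complex.mul_conj, Complex.normSq_eq_norm_sq]
      push_cast; ring

theorem duality : Duality := by
  obtain ⟨C1, hC1, h1⟩ := exists_C1
  refine ⟨Real.sqrt (C1 * (Real.pi * C0)), fun lam hl hl2 g hg B hB hgb R hR => ?_⟩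
  obtain ⟨hI1, hI1b⟩ := h1 lam hl hl2
  have hll : 0 < Real.log (1 / lam) := Real.log_pos (by rw [lt_div_iff₀ hl]; (clear * - hl hl2; linarith))
  have hC0 := C0_pos
  choose ph hph1 hph2 using exists_phase
  -- integrability of g
  have hlog : ∀ t : ℝ, 0 ≤ Real.log (2 + |t|) := fun t => Real.log_nonneg (by (clear * - hl hl2; linarith [abs_nonneg t]))
  have hlor := lorentz_integrable hl
  have hbig : Integrable (fun t : ℝ => B / (1 + (lam * t) ^ 2) * Real.log (2 + |t|)) := by
    refine ((hlor.add hI1).const_mul B).mono' ?_ (Filter.Eventually.of_forall fun t => ?_)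
    · apply Measurable.aestronglyMeasurable
      fun_prop
    · rw [Real.norm_of_nonneg (mul_nonneg (by positivity) (hlog t))]
      simp only [Pi.add_apply]
      have hp : (0 : ℝ) < 1 + (lam * t) ^ 2 := by positivity
      have : B / (1 + (lam * t) ^ 2) * Real.log (2 + |t|) =
          B * (Real.log (2 + |t|) / (1 + (lam * t) ^ 2)) := by ring
      rw [this]
      refine mul_le_mul_of_nonneg_left ?_ hB
      rw [← add_div]
      refine div_le_div_of_nonneg_right ?_ hp.le
      (clear * -; linarith [sq_nonneg (Real.log (2 + |t|) - 1/2)])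
  have hgi : Integrable g :=
    hbig.mono' hg.aestronglyMeasurable (Filter.Eventually.of_forall hgb)
  have hgi' : ∀ u : ℝ, Integrable (fun t : ℝ => g t * Complex.exp (t * u * Complex.I)) := by
    intro u
    refine hgi.mul_bdd (c := 1) ?_ ?_
    · exact Continuous.aestronglyMeasurable (by fun_prop)
    · refine Filter.Eventually.of_forall fun t => ?_
      have : (t * u * Complex.I : ℂ) = ((t * u : ℝ) : ℂ) * Complex.I := by push_cast; ring
      rw [this, Complex.norm_exp_ofReal_mul_I]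
  set ε : ℝ → ℂ := fun u => ph (∫ t : ℝ, g t * Complex.exp (t * u * Complex.I)) with hε
  obtain ⟨hI2, hI2b⟩ := second_moment hl R hR ε (fun u => hph1 _)
  set S : ℝ → ℂ := fun t => ∑ u ∈ R, ε u * Complex.exp (t * u * Complex.I) with hS
  have hsum : ((∑ u ∈ R, ‖∫ t : ℝ, g t * Complex.exp (t * u * Complex.I)‖ : ℝ) : ℂ) =
      ∫ t : ℝ, g t * S t := by
    push_cast
    have : ∀ t : ℝ, g t * S t = ∑ u ∈ R, ε u * (g t * Complex.exp (t * u * Complex.I)) := by
      intro t
      rw [hS]; simp only [Finset.mul_sum]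
      refine Finset.sum_congr rfl fun u _ => by ring
    simp only [this]
    rw [integral_finsetSum _ (fun u _ => (hgi' u).const_mul _)]
    refine Finset.sum_congr rfl fun u _ => ?_
    rw [integral_const_mul, hε]
    exact (hph2 _).symm
  -- trivial cases
  set X0 : ℝ := B ^ 2 * (C1 * Real.log (1 / lam) ^ 2 / lam) with hX0
  set Y0 : ℝ := Real.pi / lam * R.card * C0 with hY0
  rcases Nat.eq_zero_or_pos R.card with hR0 | hR0
  · rw [Finset.card_eq_zero.1 hR0]; simp
  rcases hB.eq_or_lt with hB0 | hB0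
  · have : ∀ t, g t = 0 := by
      intro t
      have := hgb t
      rw [← hB0] at this
      simpa using this
    simp [this, ← hB0]
  have hX0p : 0 < X0 := by positivity
  have hY0p : 0 < Y0 := by
    have : (0 : ℝ) < R.card := by exact_mod_cast hR0
    (clear * - hl hR0 hC0; positivity)
  have hamgm : ∀ a : ℝ, 0 < a → ∑ u ∈ R, ‖∫ t : ℝ, g t * Complex.exp (t * u * Complex.I)‖ ≤
      a / 2 * X0 + 1 / (2 * a) * Y0 := by
    intro a ha
    have e1 : ∑ u ∈ R, ‖∫ t : ℝ, g t * Complex.exp (t * u * Complex.I)‖ ≤ ∫ t : ℝ, ‖g t * S t‖ := by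
      have h2 : ∑ u ∈ R, ‖∫ t : ℝ, g t * Complex.exp (t * u * Complex.I)‖ ≤
        ‖((∑ u ∈ R, ‖∫ t : ℝ, g t * Complex.exp (t * u * Complex.I)‖ : ℝ) : ℂ)‖ := by
        rw [Complex.norm_real]; exact le_abs_self _
      rw [hsum] at h2
      exact h2.trans (norm_integral_le_integral_norm _)
    refine e1.trans ?_
    have hi : Integrable (fun t : ℝ => (a / 2 * B ^ 2) * (Real.log (2 + |t|) ^ 2 / (1 + (lam * t) ^ 2)) +
        1 / (2 * a) * (1 / (1 + (lam * t) ^ 2) * ‖S t‖ ^ 2)) :=
      (hI1.const_mul _).add (hI2.const_mul _)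
    calc ∫ t : ℝ, ‖g t * S t‖ ≤ ∫ t : ℝ, ((a / 2 * B ^ 2) * (Real.log (2 + |t|) ^ 2 / (1 + (lam * t) ^ 2)) +
        1 / (2 * a) * (1 / (1 + (lam * t) ^ 2) * ‖S t‖ ^ 2)) := by
          refine integral_mono_of_nonneg (Filter.Eventually.of_forall fun t => norm_nonneg _) hi
            (Filter.Eventually.of_forall fun t => ?_)
          simp only
          rw [norm_mul]
          have hp : (0 : ℝ) < 1 + (lam * t) ^ 2 := by (clear * -; positivity)
          have b1 : ‖g t‖ * ‖S t‖ ≤ B / (1 + (lam * t) ^ 2) * Real.log (2 + |t|) * ‖S t‖ :=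
            mul_le_mul_of_nonneg_right (hgb t) (norm_nonneg _)
          refine b1.trans ?_
          have e : B / (1 + (lam * t) ^ 2) * Real.log (2 + |t|) * ‖S t‖ =
            (B * Real.log (2 + |t|) * ‖S t‖) / (1 + (lam * t) ^ 2) := by ring
          have e' : (a / 2 * B ^ 2) * (Real.log (2 + |t|) ^ 2 / (1 + (lam * t) ^ 2)) +
            1 / (2 * a) * (1 / (1 + (lam * t) ^ 2) * ‖S t‖ ^ 2) =
            (a / 2 * (B * Real.log (2 + |t|)) ^ 2 + 1 / (2 * a) * ‖S t‖ ^ 2) / (1 + (lam * t) ^ 2) := by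
            ring
          rw [e, e']
          refine div_le_div_of_nonneg_right ?_ hp.le
          have key : a / 2 * (B * Real.log (2 + |t|)) ^ 2 + 1 / (2 * a) * ‖S t‖ ^ 2 -
              B * Real.log (2 + |t|) * ‖S t‖ = 1 / (2 * a) * (a * (B * Real.log (2 + |t|)) - ‖S t‖) ^ 2 := by
            generalize B * Real.log (2 + |t|) = y
            generalize ‖S t‖ = z
            (clear * - ha; field_simp)
            ring
          have : 0 ≤ 1 / (2 * a) * (a * (B * Real.log (2 + |t|)) - ‖S t‖) ^ 2 := by (clear * - ha; positivity)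
          (clear * - key this; linarith)
      _ = (a / 2 * B ^ 2) * (∫ t : ℝ, Real.log (2 + |t|) ^ 2 / (1 + (lam * t) ^ 2)) +
          1 / (2 * a) * ∫ t : ℝ, 1 / (1 + (lam * t) ^ 2) * ‖S t‖ ^ 2 := by
          rw [integral_add (hI1.const_mul _) (hI2.const_mul _), integral_const_mul, integral_const_mul]
      _ ≤ (a / 2 * B ^ 2) * (C1 * Real.log (1 / lam) ^ 2 / lam) + 1 / (2 * a) * Y0 := by
          refine add_le_add (mul_le_mul_of_nonneg_left ?_ ?_) (mul_le_mul_of_nonneg_left ?_ ?_)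
          · assumption
          · (clear * - ha; positivity)
          · assumption
          · (clear * - ha; positivity)
      _ = a / 2 * X0 + 1 / (2 * a) * Y0 := by rw [hX0]; ring
  have hfin := hamgm (Real.sqrt (Y0 / X0)) (Real.sqrt_pos.2 (div_pos hY0p hX0p))
  refine hfin.trans (le_of_eq ?_)
  have hsX : Real.sqrt X0 = B * Real.log (1 / lam) * Real.sqrt (C1 / lam) := by
    have : X0 = (B * Real.log (1 / lam)) ^ 2 * (C1 / lam) := by rw [hX0]; ring
    rw [this, Real.sqrt_mul (sq_nonneg _), Real.sqrt_sq (by positivity)]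
  have hsY : Real.sqrt Y0 = Real.sqrt (Real.pi * C0 / lam) * Real.sqrt R.card := by
    have : Y0 = (Real.pi * C0 / lam) * R.card := by rw [hY0]; ring
    rw [this, Real.sqrt_mul (by positivity)]
  have hdiv : Real.sqrt (Y0 / X0) = Real.sqrt Y0 / Real.sqrt X0 := Real.sqrt_div hY0p.le _
  have hsXp : 0 < Real.sqrt X0 := Real.sqrt_pos.2 hX0p
  have hsYp : 0 < Real.sqrt Y0 := Real.sqrt_pos.2 hY0p
  have hX2 : X0 = Real.sqrt X0 * Real.sqrt X0 := (Real.mul_self_sqrt hX0p.le).symm
  have hY2 : Y0 = Real.sqrt Y0 * Real.sqrt Y0 := (Real.mul_self_sqrt hY0p.le).symm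
  have hval : Real.sqrt (Y0 / X0) / 2 * X0 + 1 / (2 * Real.sqrt (Y0 / X0)) * Y0 =
      Real.sqrt X0 * Real.sqrt Y0 := by
    rw [hdiv]
    generalize hx : Real.sqrt X0 = x at *
    generalize hy : Real.sqrt Y0 = y at *
    rw [hX2, hY2]
    field_simp
    ring
  rw [hval, hsX, hsY]
  have hl2' : Real.sqrt (C1 / lam) * Real.sqrt (Real.pi * C0 / lam) =
      Real.sqrt (C1 * (Real.pi * C0)) / lam := by
    rw [← Real.sqrt_mul (by positivity)]
    have : C1 / lam * (Real.pi * C0 / lam) = (C1 * (Real.pi * C0)) / lam ^ 2 := by ring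
    rw [this, Real.sqrt_div (by positivity), Real.sqrt_sq hl.le]
  calc B * Real.log (1 / lam) * Real.sqrt (C1 / lam) * (Real.sqrt (Real.pi * C0 / lam) * Real.sqrt R.card)
      = B * Real.log (1 / lam) * (Real.sqrt (C1 / lam) * Real.sqrt (Real.pi * C0 / lam)) * Real.sqrt R.card := by
        ring
    _ = _ := by rw [hl2']; ring

end Pool.Agent.M20.Helper52.QRH
end

/- Helper53.KN.Helper60.KE.Dual2 -/
section
/-! CountE2: duality inequality with a Dirichlet polynomial factor (plain mean square). -/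

set_option autoImplicit false
open Filter Topology MeasureTheory

namespace Pool.Agent.M20.Helper60.KE

open Pool.Agent.M20.Helper52.QRH

/-- the weighted second moment of an exponential polynomial with coefficients -/
lemma second_momentW {lam : ℝ} (hl : 0 < lam) (R : Finset ℝ)
    (hR : ∀ u ∈ R, ∀ u' ∈ R, u ≠ u' → lam ≤ |u - u'|) (a : ℝ → ℂ) :
    Integrable (fun t : ℝ => 1 / (1 + (lam * t) ^ 2) *
      ‖∑ u ∈ R, a u * Complex.exp (t * u * Complex.I)‖ ^ 2) ∧
    ∫ t : ℝ, 1 / (1 + (lam * t) ^ 2) * ‖∑ u ∈ R, a u * Complex.exp (t * u * Complex.I)‖ ^ 2 ≤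
      Real.pi / lam * C0 * ∑ u ∈ R, ‖a u‖ ^ 2 := by
  have hexpand : ∀ t : ℝ, ((1 / (1 + (lam * t) ^ 2) *
      ‖∑ u ∈ R, a u * Complex.exp (t * u * Complex.I)‖ ^ 2 : ℝ) : ℂ) =
      ∑ u ∈ R, ∑ u' ∈ R, (a u * (starRingEnd ℂ) (a u')) *
        (((1 / (1 + (lam * t) ^ 2) : ℝ) : ℂ) * Complex.exp (t * (u - u' : ℝ) * Complex.I)) := by
    intro t
    have h1 : ((‖∑ u ∈ R, a u * Complex.exp (t * u * Complex.I)‖ ^ 2 : ℝ) : ℂ) =
        (∑ u ∈ R, a u * Complex.exp (t * u * Complex.I)) *
          (starRingEnd ℂ) (∑ u ∈ R, a u * Complex.exp (t * u * Complex.I)) := by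
      rw [Complex.mul_conj, Complex.normSq_eq_norm_sq]
    rw [Complex.ofReal_mul, h1, map_sum, Finset.sum_mul_sum, Finset.mul_sum]
    refine Finset.sum_congr rfl fun u _ => ?_
    rw [Finset.mul_sum]
    refine Finset.sum_congr rfl fun u' _ => ?_
    rw [map_mul, ← Complex.exp_conj]
    have h2 : (starRingEnd ℂ) (t * u' * Complex.I) = -(t * u' * Complex.I) := by
      simp
    have h3 : Complex.exp (t * (u - u' : ℝ) * Complex.I) =
        Complex.exp (t * u * Complex.I) * Complex.exp (-(t * u' * Complex.I)) := by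
      rw [← Complex.exp_add]; congr 1; push_cast; ring
    rw [h2, h3]
    ring
  have hint1 : ∀ v : ℝ, Integrable (fun t : ℝ => ((1 / (1 + (lam * t) ^ 2) : ℝ) : ℂ) *
      Complex.exp (t * v * Complex.I)) := by
    intro v
    have h := (lorentz_integrable hl).ofReal (𝕜 := ℂ)
    refine h.mul_bdd (c := 1) ?_ ?_
    · exact Continuous.aestronglyMeasurable (by fun_prop)
    · refine Filter.Eventually.of_forall fun t => ?_
      have : (t * v * Complex.I : ℂ) = ((t * v : ℝ) : ℂ) * Complex.I := by push_cast; ring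
      rw [this, Complex.norm_exp_ofReal_mul_I]
  have hintc : Integrable (fun t : ℝ => ((1 / (1 + (lam * t) ^ 2) *
      ‖∑ u ∈ R, a u * Complex.exp (t * u * Complex.I)‖ ^ 2 : ℝ) : ℂ)) := by
    simp only [hexpand]
    refine integrable_finsetSum _ fun u _ => integrable_finsetSum _ fun u' _ => ?_
    exact (hint1 (u - u')).const_mul _
  refine ⟨hintc.re, ?_⟩
  have h1 : ((∫ t : ℝ, 1 / (1 + (lam * t) ^ 2) *
      ‖∑ u ∈ R, a u * Complex.exp (t * u * Complex.I)‖ ^ 2 : ℝ) : ℂ) =
      ∑ u ∈ R, ∑ u' ∈ R, (a u * (starRingEnd ℂ) (a u')) *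
        ∫ t : ℝ, (((1 / (1 + (lam * t) ^ 2) : ℝ) : ℂ) * Complex.exp (t * (u - u' : ℝ) * Complex.I)) := by
    rw [← integral_complex_ofReal]
    simp only [hexpand]
    rw [integral_finsetSum _ (fun u _ => integrable_finsetSum _ fun u' _ => (hint1 (u - u')).const_mul _)]
    refine Finset.sum_congr rfl fun u _ => ?_
    rw [integral_finsetSum _ (fun u' _ => (hint1 (u - u')).const_mul _)]
    refine Finset.sum_congr rfl fun u' _ => ?_
    rw [integral_const_mul]
  have h2 : ∫ t : ℝ, 1 / (1 + (lam * t) ^ 2) *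
      ‖∑ u ∈ R, a u * Complex.exp (t * u * Complex.I)‖ ^ 2 ≤
      ‖((∫ t : ℝ, 1 / (1 + (lam * t) ^ 2) *
      ‖∑ u ∈ R, a u * Complex.exp (t * u * Complex.I)‖ ^ 2 : ℝ) : ℂ)‖ := by
    rw [Complex.norm_real]; exact le_abs_self _
  refine h2.trans ?_
  rw [h1]
  have hsymm : ∀ u u' : ℝ, Real.exp (-(|u - u'| / lam)) = Real.exp (-(|u' - u| / lam)) := by
    intro u u'; rw [abs_sub_comm]
  calc _ ≤ ∑ u ∈ R, ∑ u' ∈ R, (‖a u‖ * ‖a u'‖) * (Real.pi / lam * Real.exp (-(|u - u'| / lam))) := by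
        refine (norm_sum_le _ _).trans (Finset.sum_le_sum fun u _ => ?_)
        refine (norm_sum_le _ _).trans (Finset.sum_le_sum fun u' _ => ?_)
        rw [norm_mul, norm_fourier_lorentz hl, norm_mul, RCLike.norm_conj]
    _ ≤ ∑ u ∈ R, ∑ u' ∈ R, (1/2 * (‖a u‖ ^ 2 * (Real.pi / lam * Real.exp (-(|u - u'| / lam)))) +
          1/2 * (‖a u'‖ ^ 2 * (Real.pi / lam * Real.exp (-(|u' - u| / lam))))) := by
        refine Finset.sum_le_sum fun u _ => Finset.sum_le_sum fun u' _ => ?_
        rw [hsymm u' u]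
        have hE : 0 ≤ Real.pi / lam * Real.exp (-(|u - u'| / lam)) := by positivity
        have h3 : ‖a u‖ * ‖a u'‖ ≤ 1/2 * ‖a u‖ ^ 2 + 1/2 * ‖a u'‖ ^ 2 := by
          (clear * -; nlinarith [sq_nonneg (‖a u‖ - ‖a u'‖)])
        calc _ ≤ (1/2 * ‖a u‖ ^ 2 + 1/2 * ‖a u'‖ ^ 2) * (Real.pi / lam * Real.exp (-(|u - u'| / lam))) :=
              mul_le_mul_of_nonneg_right h3 hE
          _ = _ := by ring
    _ = 1/2 * (∑ u ∈ R, ‖a u‖ ^ 2 * (Real.pi / lam * ∑ u' ∈ R, Real.exp (-(|u - u'| / lam)))) +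
        1/2 * (∑ u' ∈ R, ‖a u'‖ ^ 2 * (Real.pi / lam * ∑ u ∈ R, Real.exp (-(|u' - u| / lam)))) := by
        simp only [Finset.sum_add_distrib]
        rw [Finset.sum_comm (s := R) (t := R) (f := fun u u' =>
          1/2 * (‖a u'‖ ^ 2 * (Real.pi / lam * Real.exp (-(|u' - u| / lam)))))]
        simp only [Finset.mul_sum]
    _ ≤ 1/2 * (∑ u ∈ R, ‖a u‖ ^ 2 * (Real.pi / lam * C0)) + 1/2 * (∑ u' ∈ R, ‖a u'‖ ^ 2 * (Real.pi / lam * C0)) := by
        have hp : ∀ u ∈ R, ‖a u‖ ^ 2 * (Real.pi / lam * ∑ u' ∈ R, Real.exp (-(|u - u'| / lam))) ≤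
            ‖a u‖ ^ 2 * (Real.pi / lam * C0) := by
          intro u _
          exact mul_le_mul_of_nonneg_left (mul_le_mul_of_nonneg_left (packing hl R hR u) (by positivity))
            (by positivity)
        have := Finset.sum_le_sum hp
        linarith
    _ = Real.pi / lam * C0 * ∑ u ∈ R, ‖a u‖ ^ 2 := by
        rw [← Finset.sum_mul]
        ring

lemma sq_le_of_amgm {S X Y : ℝ} (hS : 0 ≤ S) (hX : 0 ≤ X) (hY : 0 ≤ Y)
    (h : ∀ a : ℝ, 0 < a → S ≤ a / 2 * X + 1 / (2 * a) * Y) : S ^ 2 ≤ X * Y := by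
  rcases hS.eq_or_lt with h0 | h0
  · rw [← h0]; simpa using mul_nonneg hX hY
  rcases hX.eq_or_lt with hX0 | hX0
  · exfalso
    have := h ((Y + 1) / S) (by positivity)
    rw [← hX0, mul_zero, zero_add] at this
    have e : 1 / (2 * ((Y + 1) / S)) * Y = S * (Y / (2 * (Y + 1))) := by (clear * - h0 hY; field_simp)
    rw [e] at this
    have h2 : Y / (2 * (Y + 1)) < 1 := by rw [div_lt_one (by positivity)]; (clear * - hY; linarith)
    (clear * - this h0 h2; nlinarith)
  · have := h (S / X) (by positivity)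
    have e : S / X / 2 * X + 1 / (2 * (S / X)) * Y = S / 2 + X * Y / (2 * S) := by field_simp
    rw [e] at this
    have h2 : S / 2 ≤ X * Y / (2 * S) := by linarith
    rw [le_div_iff₀ (by positivity)] at h2
    (clear * - h2; nlinarith)

/-- duality with a Dirichlet polynomial factor -/
theorem duality2 {lam : ℝ} (hl : 0 < lam) (g : ℝ → ℂ) (hg : Measurable g) {B : ℝ} (hB : 0 ≤ B)
    (hgb : ∀ t, ‖g t‖ ≤ B / (1 + (lam * t) ^ 2)) (V : Finset ℝ)
    (hV : ∀ u ∈ V, ∀ u' ∈ V, u ≠ u' → lam ≤ |u - u'|) (a : ℝ → ℂ) (R : Finset ℝ)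
    (hR : ∀ u ∈ R, ∀ u' ∈ R, u ≠ u' → lam ≤ |u - u'|) :
    (∑ u ∈ R, ‖∫ t : ℝ, g t * (∑ v ∈ V, a v * Complex.exp (t * v * Complex.I)) *
      Complex.exp (t * u * Complex.I)‖) ^ 2 ≤
      B ^ 2 * ((Real.pi / lam * C0) ^ 2 * (∑ v ∈ V, ‖a v‖ ^ 2) * R.card) := by
  have hC0 := C0_pos
  choose ph hph1 hph2 using exists_phase
  set Q : ℝ → ℂ := fun t => ∑ v ∈ V, a v * Complex.exp (t * v * Complex.I) with hQ
  have hlor := lorentz_integrable hl
  have hexp1 : ∀ t u : ℝ, ‖Complex.exp (t * u * Complex.I)‖ = 1 := by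
    intro t u
    have : (t * u * Complex.I : ℂ) = ((t * u : ℝ) : ℂ) * Complex.I := by push_cast; ring
    rw [this, Complex.norm_exp_ofReal_mul_I]
  have hQc : Continuous Q := by
    rw [hQ]
    fun_prop
  have hQb : ∀ t, ‖Q t‖ ≤ ∑ v ∈ V, ‖a v‖ := by
    intro t
    refine (norm_sum_le _ _).trans (Finset.sum_le_sum fun v _ => ?_)
    rw [norm_mul, hexp1, mul_one]
  have hgi : Integrable g := by
    refine (hlor.const_mul B).mono' hg.aestronglyMeasurable (Filter.Eventually.of_forall fun t => ?_)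
    refine (hgb t).trans (le_of_eq ?_)
    ring
  have hgQ : Integrable (fun t : ℝ => g t * Q t) :=
    hgi.mul_bdd (c := ∑ v ∈ V, ‖a v‖) hQc.aestronglyMeasurable (Filter.Eventually.of_forall hQb)
  have hgi' : ∀ u : ℝ, Integrable (fun t : ℝ => g t * Q t * Complex.exp (t * u * Complex.I)) := by
    intro u
    refine hgQ.mul_bdd (c := 1) (Continuous.aestronglyMeasurable (by fun_prop)) ?_
    exact Filter.Eventually.of_forall fun t => (hexp1 t u).le
  set ε : ℝ → ℂ := fun u => ph (∫ t : ℝ, g t * Q t * Complex.exp (t * u * Complex.I)) with hε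
  obtain ⟨hI2, hI2b⟩ := second_moment hl R hR ε (fun u => hph1 _)
  obtain ⟨hI1, hI1b⟩ := second_momentW hl V hV a
  set S : ℝ → ℂ := fun t => ∑ u ∈ R, ε u * Complex.exp (t * u * Complex.I) with hS
  have hsum : ((∑ u ∈ R, ‖∫ t : ℝ, g t * Q t * Complex.exp (t * u * Complex.I)‖ : ℝ) : ℂ) =
      ∫ t : ℝ, g t * Q t * S t := by
    push_cast
    have : ∀ t : ℝ, g t * Q t * S t = ∑ u ∈ R, ε u * (g t * Q t * Complex.exp (t * u * Complex.I)) := by
      intro t
      rw [hS]; simp only [Finset.mul_sum]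
      refine Finset.sum_congr rfl fun u _ => by ring
    simp only [this]
    rw [integral_finsetSum _ (fun u _ => (hgi' u).const_mul _)]
    refine Finset.sum_congr rfl fun u _ => ?_
    rw [integral_const_mul, hε]
    exact (hph2 _).symm
  set X0 : ℝ := Real.pi / lam * C0 * ∑ v ∈ V, ‖a v‖ ^ 2 with hX0
  set Y0 : ℝ := Real.pi / lam * R.card * C0 with hY0
  have hX0p : 0 ≤ X0 := by (clear * - hl hC0; positivity)
  have hY0p : 0 ≤ Y0 := by (clear * - hl hC0; positivity)
  have hamgm : ∀ b : ℝ, 0 < b → ∑ u ∈ R, ‖∫ t : ℝ, g t * Q t * Complex.exp (t * u * Complex.I)‖ ≤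
      b / 2 * (B * X0) + 1 / (2 * b) * (B * Y0) := by
    intro b hb
    have e1 : ∑ u ∈ R, ‖∫ t : ℝ, g t * Q t * Complex.exp (t * u * Complex.I)‖ ≤
        ∫ t : ℝ, ‖g t * Q t * S t‖ := by
      have h2 : ∑ u ∈ R, ‖∫ t : ℝ, g t * Q t * Complex.exp (t * u * Complex.I)‖ ≤
        ‖((∑ u ∈ R, ‖∫ t : ℝ, g t * Q t * Complex.exp (t * u * Complex.I)‖ : ℝ) : ℂ)‖ := by
        rw [Complex.norm_real]; exact le_abs_self _
      rw [hsum] at h2
      exact h2.trans (norm_integral_le_integral_norm _)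
    refine e1.trans ?_
    have hi : Integrable (fun t : ℝ => (b / 2 * B) * (1 / (1 + (lam * t) ^ 2) * ‖Q t‖ ^ 2) +
        (1 / (2 * b) * B) * (1 / (1 + (lam * t) ^ 2) * ‖S t‖ ^ 2)) :=
      (hI1.const_mul _).add (hI2.const_mul _)
    calc ∫ t : ℝ, ‖g t * Q t * S t‖ ≤ ∫ t : ℝ, ((b / 2 * B) * (1 / (1 + (lam * t) ^ 2) * ‖Q t‖ ^ 2) +
        (1 / (2 * b) * B) * (1 / (1 + (lam * t) ^ 2) * ‖S t‖ ^ 2)) := by
          refine integral_mono_of_nonneg (Filter.Eventually.of_forall fun t => norm_nonneg _) hi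
            (Filter.Eventually.of_forall fun t => ?_)
          simp only
          rw [norm_mul, norm_mul]
          have hp : (0 : ℝ) < 1 + (lam * t) ^ 2 := by (clear * -; positivity)
          have b1 : ‖g t‖ * ‖Q t‖ * ‖S t‖ ≤ B / (1 + (lam * t) ^ 2) * (‖Q t‖ * ‖S t‖) := by
            rw [mul_assoc]
            exact mul_le_mul_of_nonneg_right (hgb t) (by positivity)
          refine b1.trans ?_
          have b2 : ‖Q t‖ * ‖S t‖ ≤ b / 2 * ‖Q t‖ ^ 2 + 1 / (2 * b) * ‖S t‖ ^ 2 := by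
            have key : b / 2 * ‖Q t‖ ^ 2 + 1 / (2 * b) * ‖S t‖ ^ 2 - ‖Q t‖ * ‖S t‖ =
              1 / (2 * b) * (b * ‖Q t‖ - ‖S t‖) ^ 2 := by
              field_simp
              ring
            have : 0 ≤ 1 / (2 * b) * (b * ‖Q t‖ - ‖S t‖) ^ 2 := by (clear * - hb; positivity)
            (clear * - key this; linarith)
          calc B / (1 + (lam * t) ^ 2) * (‖Q t‖ * ‖S t‖) ≤
              B / (1 + (lam * t) ^ 2) * (b / 2 * ‖Q t‖ ^ 2 + 1 / (2 * b) * ‖S t‖ ^ 2) :=
                mul_le_mul_of_nonneg_left b2 (by (clear * - hB; positivity))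
            _ = _ := by ring
      _ = (b / 2 * B) * (∫ t : ℝ, 1 / (1 + (lam * t) ^ 2) * ‖Q t‖ ^ 2) +
          (1 / (2 * b) * B) * ∫ t : ℝ, 1 / (1 + (lam * t) ^ 2) * ‖S t‖ ^ 2 := by
          rw [integral_add (hI1.const_mul _) (hI2.const_mul _), integral_const_mul, integral_const_mul]
      _ ≤ (b / 2 * B) * X0 + (1 / (2 * b) * B) * Y0 := by
          (clear * - hI1b hb hB hI2b; gcongr)
      _ = _ := by ring
  have h1 := sq_le_of_amgm (Finset.sum_nonneg fun u _ => norm_nonneg _) (by (clear * - hB hl hC0; positivity)) (by (clear * - hB hl hC0; positivity)) hamgm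
  refine h1.trans (le_of_eq ?_)
  rw [hX0, hY0]
  ring

end Pool.Agent.M20.Helper60.KE
end
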