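import Mathlib
import Pool.Agent.Helper53.KO.G04

set_option linter.all false

/- Helper53.KN.Helper10.KSZ.St -/
section
/-! # Project KSZ (MP_768c9c_nt), section 2 of KS_H60_counting.md: statements of A7, A11, A12 and of
their combination A13. -/

set_option autoImplicit false

open MeasureTheory Finset

namespace Pool.Agent.M20.Helper10.KSZ

/-- (A7) growth on the line `2/7` (a hypothesis on the line `5/7` may be assumed: `A5half`). -/
def A7 : Prop := ∃ C : ℝ, 0 < C ∧ ∀ t : ℝ, 2 ≤ |t| →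
  ‖riemannZeta ((2 / 7 : ℝ) + (t : ℂ) * Complex.I)‖ ≤ C * |t| ^ (2 / 7 : ℝ) * Real.log |t|

/-- the case `sigma = 5/7` of (A5), hypothesis of (A7) -/
def A5half : Prop := ∃ C : ℝ, 0 < C ∧ ∀ t : ℝ, 2 ≤ |t| →
  ‖riemannZeta ((5 / 7 : ℝ) + (t : ℂ) * Complex.I)‖ ≤ C * |t| ^ (1 / 14 : ℝ) * Real.log |t|

/-- (A11) mean value with Gaussian weight, finite families -/
def A11 : Prop := ∃ C : ℝ, 0 < C ∧ ∀ (ι : Type) (S : Finset ι) (a : ι → ℂ) (y : ι → ℝ) (T : ℝ),
  0 < T →
  Integrable (fun t : ℝ => Real.exp (-(t / T) ^ 2) *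
    ‖∑ j ∈ S, a j * Complex.exp (Complex.I * (y j * t : ℝ))‖ ^ 2) ∧
  ∫ t : ℝ, Real.exp (-(t / T) ^ 2) *
    ‖∑ j ∈ S, a j * Complex.exp (Complex.I * (y j * t : ℝ))‖ ^ 2 ≤
    C * T * ∑ j ∈ S, ∑ k ∈ S, if |y j - y k| ≤ 1 / T then ‖a j‖ * ‖a k‖ else 0

/-- (A12') the same for a finite set of points at distances larger than `2 r`, inside a rectangle -/
def A12' : Prop := ∀ F : ℂ → ℂ, Differentiable ℂ F → ∀ (Z : Finset ℂ) (r σ₁ σ₂ t₁ t₂ : ℝ), 0 < r →
  σ₁ ≤ σ₂ → t₁ ≤ t₂ → (∀ z ∈ Z, ∀ w ∈ Z, z ≠ w → 2 * r < dist z w) →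
  (∀ z ∈ Z, σ₁ ≤ z.re - r ∧ z.re + r ≤ σ₂ ∧ t₁ ≤ z.im - r ∧ z.im + r ≤ t₂) →
  ∑ z ∈ Z, ‖F z‖ ^ 2 ≤
    1 / (Real.pi * r ^ 2) * ∫ σ in σ₁..σ₂, ∫ t in t₁..t₂, ‖F (σ + t * Complex.I)‖ ^ 2

/-- (A13) = A12' + A11: exponential polynomials with real frequencies at separated points.
`B` is any bound for the near-diagonal sum on all the lines `σ ∈ [σ₁ - r, σ₂ + r]`. -/
def A13 : Prop := ∃ C : ℝ, 0 < C ∧ ∀ (ι : Type) (S : Finset ι) (a : ι → ℂ) (y : ι → ℝ)
  (Z : Finset ℂ) (r σ₁ σ₂ T B : ℝ), 0 < r → r ≤ 1 → σ₁ ≤ σ₂ → 1 ≤ T →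
  (∀ z ∈ Z, ∀ w ∈ Z, z ≠ w → 2 * r < dist z w) →
  (∀ z ∈ Z, σ₁ ≤ z.re ∧ z.re ≤ σ₂ ∧ |z.im| ≤ T) →
  (∀ σ : ℝ, σ₁ - r ≤ σ → σ ≤ σ₂ + r →
    (∑ j ∈ S, ∑ k ∈ S, if |y j - y k| ≤ 1 / T then
      ‖a j‖ * ‖a k‖ * Real.exp (σ * (y j + y k)) else 0) ≤ B) →
  ∑ z ∈ Z, ‖∑ j ∈ S, a j * Complex.exp (y j * z)‖ ^ 2 ≤
    C * ((σ₂ - σ₁ + 2 * r) / r ^ 2) * T * B

end Pool.Agent.M20.Helper10.KSZ
end

/- Helper53.KN.Helper1.KSZ.LineA7 -/
section
/-! (A7): growth of zeta on the line `2/7` from the line `5/7` (project KSZ). -/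

set_option autoImplicit false

open Complex Filter Topology Set
open scoped ComplexConjugate

namespace Pool.Agent.M20.Helper1.KSZ

/-- the gamma factor of the functional equation -/
noncomputable def FF (s : ℂ) : ℂ := Complex.Gamma s * Complex.cos (Real.pi * s / 2)

theorem FF_conj (s : ℂ) : FF (conj s) = conj (FF s) := by
  unfold FF
  rw [map_mul, Complex.Gamma_conj, ← Complex.cos_conj]
  congr 2
  rw [map_div₀, map_mul, Complex.conj_ofReal, Complex.conj_ofNat]

theorem norm_FF_conj (s : ℂ) : ‖FF (conj s)‖ = ‖FF s‖ := by rw [FF_conj, Complex.norm_conj]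

theorem FF_mul {s : ℂ} (h : Complex.sin (Real.pi * s) ≠ 0) : FF s * FF (1 - s) = Real.pi / 2 := by
  unfold FF
  have h1 := Complex.Gamma_mul_Gamma_one_sub s
  have h2 : Complex.cos (Real.pi * (1 - s) / 2) = Complex.sin (Real.pi * s / 2) := by
    rw [show (Real.pi : ℂ) * (1 - s) / 2 = Real.pi / 2 - Real.pi * s / 2 by ring,
      Complex.cos_pi_div_two_sub]
  have h3 : Complex.sin (Real.pi * s) = 2 * Complex.sin (Real.pi * s / 2) * Complex.cos (Real.pi * s / 2) := by
    rw [← Complex.sin_two_mul]; congr 1; ring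
  rw [h2]
  calc Complex.Gamma s * Complex.cos (Real.pi * s / 2) * (Complex.Gamma (1 - s) * Complex.sin (Real.pi * s / 2)) =
        (Complex.Gamma s * Complex.Gamma (1 - s)) * (Complex.sin (Real.pi * s / 2) * Complex.cos (Real.pi * s / 2)) := by
        ring
    _ = (Real.pi / Complex.sin (Real.pi * s)) * (Complex.sin (Real.pi * s) / 2) := by
        rw [h1]; congr 1; rw [h3]; ring
    _ = _ := by field_simp

theorem norm_FF_half (y : ℝ) : ‖FF (1 / 2 + y * I)‖ ^ 2 = Real.pi / 2 := by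
  have hs : Complex.sin (Real.pi * (1 / 2 + y * I)) ≠ 0 := by
    have : (Real.pi : ℂ) * (1 / 2 + y * I) = Real.pi / 2 - (-(Real.pi * y : ℝ)) * I := by
      push_cast; ring
    rw [this, Complex.sin_pi_div_two_sub, neg_mul, Complex.cos_neg, Complex.cos_mul_I,
      ← Complex.ofReal_cosh]
    exact_mod_cast (Real.cosh_pos _).ne'
  have h1 := FF_mul hs
  have h2 : (1 : ℂ) - (1 / 2 + y * I) = conj (1 / 2 + y * I) := by
    rw [map_add, map_mul, Complex.conj_I, Complex.conj_ofReal, map_div₀, map_one, Complex.conj_ofNat]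
    ring
  rw [h2, FF_conj] at h1
  have h3 : ‖FF (1 / 2 + y * I)‖ ^ 2 = ‖FF (1 / 2 + y * I) * conj (FF (1 / 2 + y * I))‖ := by
    rw [norm_mul, Complex.norm_conj, sq]
  rw [h3, h1]
  rw [show (Real.pi : ℂ) / 2 = ((Real.pi / 2 : ℝ) : ℂ) by push_cast; ring, Complex.norm_real,
    Real.norm_of_nonneg (by positivity)]

theorem norm_FF_one (y : ℝ) : ‖FF (1 + y * I)‖ ^ 2 ≤ Real.pi / 2 * |y| := by
  rcases eq_or_ne y 0 with rfl | hy
  · have : FF (1 + ((0 : ℝ) : ℂ) * I) = 0 := by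
      unfold FF
      rw [Complex.ofReal_zero, zero_mul, add_zero, mul_one, Complex.cos_pi_div_two, mul_zero]
    rw [this]; simp
  have hyI : (y : ℂ) * I ≠ 0 := mul_ne_zero (by exact_mod_cast hy) Complex.I_ne_zero
  have hsinh : Real.sinh (Real.pi * y) ≠ 0 := by
    rw [Ne, Real.sinh_eq_zero]
    exact mul_ne_zero Real.pi_ne_zero hy
  have hs : Complex.sin (Real.pi * (1 + y * I)) ≠ 0 := by
    have : (Real.pi : ℂ) * (1 + y * I) = ((Real.pi * y : ℝ) : ℂ) * I + Real.pi := by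
      push_cast; ring
    rw [this, Complex.sin_add_pi, Complex.sin_mul_I, ← Complex.ofReal_sinh]
    exact neg_ne_zero.2 (mul_ne_zero (by exact_mod_cast hsinh) Complex.I_ne_zero)
  have h1 := FF_mul hs
  have h2 : (1 : ℂ) - (1 + y * I) = -(y * I) := by ring
  rw [h2] at h1
  -- relation between FF (1 - iy) and FF (-iy)
  set c : ℂ := Complex.cos (Real.pi * (y * I) / 2) with hc
  set d : ℂ := Complex.sin (Real.pi * (y * I) / 2) with hd
  exact by
    have hF1 : FF (1 - y * I) = (-(y * I)) * Complex.Gamma (-(y * I)) * d := by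
      unfold FF
      have e1 : (1 : ℂ) - y * I = -(y * I) + 1 := by ring
      rw [e1, Complex.Gamma_add_one _ (neg_ne_zero.2 hyI)]
      congr 1
      rw [show (Real.pi : ℂ) * (-(y * I) + 1) / 2 = Real.pi / 2 - Real.pi * (y * I) / 2 by ring,
        Complex.cos_pi_div_two_sub]
    have hF0 : FF (-(y * I)) = Complex.Gamma (-(y * I)) * c := by
      unfold FF
      congr 1
      rw [show (Real.pi : ℂ) * (-(y * I)) / 2 = -(Real.pi * (y * I) / 2) by ring, Complex.cos_neg]
    have hcd : FF (1 - y * I) * c = (-(y * I)) * d * FF (-(y * I)) := by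
      rw [hF1, hF0]; ring
    have harg : (Real.pi : ℂ) * (y * I) / 2 = ((Real.pi * y / 2 : ℝ) : ℂ) * I := by push_cast; ring
    have hcn : ‖c‖ = Real.cosh (Real.pi * y / 2) := by
      rw [hc, harg, Complex.cos_mul_I, ← Complex.ofReal_cosh, Complex.norm_real,
        Real.norm_of_nonneg (Real.cosh_pos _).le]
    have hdn : ‖d‖ = |Real.sinh (Real.pi * y / 2)| := by
      rw [hd, harg, Complex.sin_mul_I, ← Complex.ofReal_sinh, norm_mul, Complex.norm_I, mul_one,
        Complex.norm_real, Real.norm_eq_abs]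
    exact by
      have hdc : ‖d‖ ≤ ‖c‖ := by
        rw [hcn, hdn]
        apply abs_le_of_sq_le_sq _ (Real.cosh_pos _).le
        have := Real.cosh_sq (Real.pi * y / 2)
        (clear * - this; linarith)
      have hc0 : 0 < ‖c‖ := by rw [hcn]; exact Real.cosh_pos _
      have hconj : ‖FF (1 - y * I)‖ = ‖FF (1 + y * I)‖ := by
        rw [← norm_FF_conj (1 + y * I)]
        congr 2
        rw [map_add, map_mul, Complex.conj_I, Complex.conj_ofReal, map_one]
        ring
      have h3 : ‖FF (1 + y * I)‖ * ‖FF (-(y * I))‖ = Real.pi / 2 := by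
        rw [← norm_mul, h1, show (Real.pi : ℂ) / 2 = ((Real.pi / 2 : ℝ) : ℂ) by push_cast; ring,
          Complex.norm_real, Real.norm_of_nonneg (by positivity)]
      have h4 : ‖FF (1 + y * I)‖ * ‖c‖ = |y| * ‖d‖ * ‖FF (-(y * I))‖ := by
        rw [← hconj, ← norm_mul, hcd, norm_mul, norm_mul, norm_neg, norm_mul, Complex.norm_I, mul_one,
          Complex.norm_real, Real.norm_eq_abs]
      have h5 : ‖FF (1 + y * I)‖ ^ 2 * ‖c‖ = Real.pi / 2 * |y| * ‖d‖ := by
        calc ‖FF (1 + y * I)‖ ^ 2 * ‖c‖ = ‖FF (1 + y * I)‖ * (‖FF (1 + y * I)‖ * ‖c‖) := by ring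
          _ = ‖FF (1 + y * I)‖ * (|y| * ‖d‖ * ‖FF (-(y * I))‖) := by rw [h4]
          _ = (‖FF (1 + y * I)‖ * ‖FF (-(y * I))‖) * (|y| * ‖d‖) := by ring
          _ = _ := by rw [h3]; ring
      have h6 : ‖FF (1 + y * I)‖ ^ 2 * ‖c‖ ≤ (Real.pi / 2 * |y|) * ‖c‖ := by
        rw [h5]
        exact mul_le_mul_of_nonneg_left hdc (by (clear * - hy; positivity))
      exact le_of_mul_le_mul_right h6 hc0

theorem norm_Gamma_le {s : ℂ} (hs : 0 < s.re) : ‖Complex.Gamma s‖ ≤ Real.Gamma s.re := by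
  rw [Complex.Gamma_eq_integral hs, Real.Gamma_eq_integral hs]
  unfold Complex.GammaIntegral
  refine (MeasureTheory.norm_integral_le_integral_norm _).trans (le_of_eq ?_)
  refine MeasureTheory.setIntegral_congr_fun measurableSet_Ioi (fun x hx => ?_)
  have hx0 : (0 : ℝ) < x := hx
  show ‖((Real.exp (-x) : ℝ) : ℂ) * (x : ℂ) ^ (s - 1)‖ = Real.exp (-x) * x ^ (s.re - 1)
  rw [norm_mul, Complex.norm_real, Real.norm_of_nonneg (Real.exp_pos _).le,
    Complex.norm_cpow_eq_rpow_re_of_pos hx0]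
  simp

theorem norm_cos_le (s : ℂ) : ‖Complex.cos s‖ ≤ Real.exp |s.im| := by
  have h : Complex.cos s = (Complex.exp (s * I) + Complex.exp (-s * I)) / 2 := rfl
  rw [h, norm_div]
  have h2 : ‖(2 : ℂ)‖ = 2 := by simp
  rw [h2, div_le_iff₀ (by norm_num)]
  refine (norm_add_le _ _).trans ?_
  rw [Complex.norm_exp, Complex.norm_exp]
  have e1 : (s * I).re = -s.im := by simp
  have e2 : (-s * I).re = s.im := by simp
  rw [e1, e2]
  have h3 : Real.exp (-s.im) ≤ Real.exp |s.im| := Real.exp_le_exp.2 (neg_le_abs _)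
  have h4 : Real.exp (s.im) ≤ Real.exp |s.im| := Real.exp_le_exp.2 (le_abs_self _)
  (clear * - h3 h4; linarith)

/-- `|FF (5/7 + iT)| ≤ C T^(3/14)` -/
theorem norm_FF_line : ∃ C : ℝ, 0 < C ∧ ∀ T : ℝ, 1 ≤ T →
    ‖FF ((5 / 7 : ℝ) + T * I)‖ ≤ C * T ^ (3 / 14 : ℝ) := by
  obtain ⟨G0, hG0⟩ : ∃ G0 : ℝ, ∀ x ∈ Icc (1 / 2 : ℝ) 1, Real.Gamma x ≤ G0 := by
    have hcont : ContinuousOn Real.Gamma (Icc (1 / 2 : ℝ) 1) := by
      intro x hx
      apply ContinuousAt.continuousWithinAt
      apply DifferentiableAt.continuousAt (𝕜 := ℝ)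
      apply Real.differentiableAt_Gamma
      intro m hm
      have h1 : (0 : ℝ) < x := by (clear * - hm hx; linarith [hx.1])
      have h2 : (0 : ℝ) ≤ m := Nat.cast_nonneg m
      (clear * - hm h1; linarith)
    obtain ⟨G0, hG0⟩ := (isCompact_Icc.image_of_continuousOn hcont).bddAbove
    exact ⟨G0, fun x hx => hG0 ⟨x, hx, rfl⟩⟩
  have hG0nn : 0 ≤ G0 := (Real.Gamma_pos_of_pos (by norm_num : (0 : ℝ) < 1)).le.trans
    (hG0 1 ⟨by norm_num, le_rfl⟩)
  set K : ℝ := Real.sqrt (Real.pi / 2) with hK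
  have hK0 : 0 < K := Real.sqrt_pos.2 (by positivity)
  refine ⟨K * 2, by positivity, fun T hT => ?_⟩
  have hT0 : 0 < T := by (clear * - hT; linarith)
  exact by
    set G : ℂ → ℂ := fun s => FF s * (T : ℂ) ^ (-(s - 1 / 2)) / (s - T * I + 1) with hG
    have hden : ∀ s : ℂ, 1 / 2 ≤ s.re → 3 / 2 ≤ ‖s - T * I + 1‖ := by
      intro s hs
      have h1 := Complex.abs_re_le_norm (s - T * I + 1)
      have h2 : (s - T * I + 1).re = s.re + 1 := by simp
      rw [h2, abs_of_nonneg (by (clear * - hs; linarith))] at h1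
      (clear * - hs h1; linarith)
    have hTn : ∀ s : ℂ, ‖(T : ℂ) ^ (-(s - 1 / 2))‖ = T ^ (-(s.re - 1 / 2)) := by
      intro s
      rw [Complex.norm_cpow_eq_rpow_re_of_pos hT0]
      congr 1
      simp
    have hFdiff : ∀ s : ℂ, 0 < s.re → DifferentiableAt ℂ FF s := by
      intro s hs
      unfold FF
      refine DifferentiableAt.mul (Complex.differentiableAt_Gamma s (fun m hm => ?_)) ?_
      · have := congrArg Complex.re hm
        simp at this
        have h2 : (0 : ℝ) ≤ m := Nat.cast_nonneg m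
        (clear * - hs this; linarith)
      · fun_prop
    have hGdiff : ∀ s : ℂ, 1 / 2 ≤ s.re → DifferentiableAt ℂ G s := by
      intro s hs
      rw [hG]
      refine DifferentiableAt.div (DifferentiableAt.mul (hFdiff s (by (clear * - hs; linarith))) ?_) (by fun_prop) ?_
      · refine DifferentiableAt.const_cpow (by fun_prop) (Or.inl ?_)
        exact_mod_cast hT0.ne'
      · have := hden s hs
        intro h0
        rw [h0, norm_zero] at this
        (clear * - this; linarith)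
    have key : ∀ s : ℂ, 1 / 2 ≤ s.re → s.re ≤ 1 → ‖G s‖ ≤ K := by
      intro s hs1 hs2
      refine PhragmenLindelof.vertical_strip (a := 1 / 2) (b := 1) (f := G) (C := K) ?_ ?_ ?_ ?_ hs1 hs2
      · refine ⟨fun z hz => (hGdiff z hz.1.le).differentiableWithinAt, ?_⟩
        have hcl : closure (Complex.re ⁻¹' Ioo (1 / 2 : ℝ) 1) ⊆ {z : ℂ | 1 / 2 ≤ z.re} := by
          apply closure_minimal (fun z hz => hz.1.le)
          exact isClosed_le continuous_const Complex.continuous_re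
        exact fun z hz => (hGdiff z (hcl hz)).continuousAt.continuousWithinAt
      · refine ⟨1, ?_, Real.pi / 2, ?_⟩
        · rw [lt_div_iff₀ (by norm_num)]
          (clear * -; linarith [Real.pi_gt_three])
        exact by
          · refine Asymptotics.IsBigO.of_bound G0 ?_
            exact by
              refine Filter.mem_inf_of_right ?_
              rw [Filter.mem_principal]
              intro z hz
              have hz1 : 1 / 2 < z.re := hz.1
              have hz2 : z.re < 1 := hz.2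
              show ‖G z‖ ≤ G0 * ‖Real.exp (Real.pi / 2 * Real.exp (1 * |z.im|))‖
              rw [Real.norm_of_nonneg (Real.exp_pos _).le, one_mul]
              have h1 : ‖FF z‖ ≤ G0 * Real.exp (Real.pi / 2 * Real.exp |z.im|) := by
                unfold FF
                rw [norm_mul]
                have h2 : ‖Complex.Gamma z‖ ≤ G0 :=
                  (norm_Gamma_le (by (clear * - hz1 hz2; linarith))).trans (hG0 _ ⟨hz1.le, hz2.le⟩)
                have h3 := norm_cos_le (Real.pi * z / 2)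
                have h4 : ((Real.pi : ℂ) * z / 2).im = Real.pi / 2 * z.im := by
                  rw [show (Real.pi : ℂ) * z / 2 = ((Real.pi / 2 : ℝ) : ℂ) * z by push_cast; ring]
                  exact Complex.im_ofReal_mul _ _
                rw [h4, abs_mul, abs_of_nonneg (by positivity : 0 ≤ Real.pi / 2)] at h3
                have h5 : Real.exp (Real.pi / 2 * |z.im|) ≤ Real.exp (Real.pi / 2 * Real.exp |z.im|) := by
                  apply Real.exp_le_exp.2
                  have := Real.add_one_le_exp |z.im|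
                  apply mul_le_mul_of_nonneg_left _ (by positivity)
                  linarith
                calc _ ≤ G0 * Real.exp (Real.pi / 2 * |z.im|) := by (clear * - h2 h3 hG0nn; gcongr)
                  _ ≤ _ := by gcongr
              have h6 : T ^ (-(z.re - 1 / 2)) ≤ 1 :=
                Real.rpow_le_one_of_one_le_of_nonpos hT (by (clear * - hz1; linarith))
              have h7 := hden z hz1.le
              rw [hG]
              show ‖FF z * (T : ℂ) ^ (-(z - 1 / 2)) / (z - T * I + 1)‖ ≤ _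
              rw [norm_div, norm_mul, hTn, div_le_iff₀ (by (clear * - hz1 hz2 h7; linarith))]
              have h8 : 0 ≤ G0 * Real.exp (Real.pi / 2 * Real.exp |z.im|) := by positivity
              calc ‖FF z‖ * T ^ (-(z.re - 1 / 2)) ≤ (G0 * Real.exp (Real.pi / 2 * Real.exp |z.im|)) * 1 := by
                    gcongr
                _ ≤ _ := by
                    apply mul_le_mul_of_nonneg_left _ h8
                    (clear * - hz1 hz2 h7; linarith)
      · intro z hz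
        have hz' : z = 1 / 2 + (z.im : ℂ) * I := by
          apply Complex.ext
          · simp [hz]
          · simp
        have h1 : ‖FF z‖ = K := by
          have := norm_FF_half z.im
          rw [← hz'] at this
          rw [hK, ← this, Real.sqrt_sq (norm_nonneg _)]
        have h7 := hden z (by rw [hz])
        rw [hG]
        show ‖FF z * (T : ℂ) ^ (-(z - 1 / 2)) / (z - T * I + 1)‖ ≤ _
        rw [norm_div, norm_mul, hTn, div_le_iff₀ (by (clear * - h7; linarith)), h1, hz, sub_self, neg_zero,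
          Real.rpow_zero]
        apply mul_le_mul_of_nonneg_left _ hK0.le
        (clear * - h7; linarith)
      · intro z hz
        exact by
          have hz' : z = 1 + (z.im : ℂ) * I := by
            apply Complex.ext
            · simp [hz]
            · simp
          have h1 : ‖FF z‖ ^ 2 ≤ Real.pi / 2 * |z.im| := by
            have := norm_FF_one z.im
            rwa [← hz'] at this
          have h2 : ‖FF z‖ ≤ K * Real.sqrt |z.im| := by
            rw [hK, ← Real.sqrt_mul (by positivity)]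
            exact Real.le_sqrt_of_sq_le h1
          rw [hG]
          show ‖FF z * (T : ℂ) ^ (-(z - 1 / 2)) / (z - T * I + 1)‖ ≤ _
          have h7 := hden z (by rw [hz]; norm_num)
          rw [norm_div, norm_mul, hTn, div_le_iff₀ (by (clear * - h7; linarith)), hz]
          have h3 : T ^ (-((1 : ℝ) - 1 / 2)) = 1 / Real.sqrt T := by
            rw [show -((1 : ℝ) - 1 / 2) = -(1 / 2) by norm_num, Real.rpow_neg hT0.le, ← Real.sqrt_eq_rpow,
              one_div]
          rw [h3]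
          have hsT : 0 < Real.sqrt T := Real.sqrt_pos.2 hT0
          exact by
            have h4 : |z.im| ≤ T * (1 + |z.im - T|) := by
              have : |z.im| ≤ |z.im - T| + T := by
                have := abs_add_le (z.im - T) T
                rw [sub_add_cancel, abs_of_pos hT0] at this
                exact this
              (clear * - this hT; nlinarith [abs_nonneg (z.im - T)])
            have h5 : Real.sqrt |z.im| / Real.sqrt T ≤ ‖z - T * I + 1‖ := by
              rw [← Real.sqrt_div (abs_nonneg _)]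
              apply Real.sqrt_le_iff.2
              refine ⟨norm_nonneg _, ?_⟩
              rw [div_le_iff₀ hT0]
              have h6 : 1 + |z.im - T| ≤ ‖z - T * I + 1‖ ^ 2 := by
                rw [← Complex.normSq_eq_norm_sq, Complex.normSq_apply]
                have e1 : (z - T * I + 1).re = 2 := by simp [hz]; norm_num
                have e2 : (z - T * I + 1).im = z.im - T := by simp
                rw [e1, e2]
                (clear * -; nlinarith [sq_abs (z.im - T), sq_nonneg (|z.im - T| - 1)])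
              (clear * - h4 h6 hT; nlinarith)
            calc ‖FF z‖ * (1 / Real.sqrt T) ≤ (K * Real.sqrt |z.im|) * (1 / Real.sqrt T) := by gcongr
              _ = K * (Real.sqrt |z.im| / Real.sqrt T) := by ring
              _ ≤ _ := by gcongr
    exact by
      have hfin := key ((5 / 7 : ℝ) + T * I) (by simp; norm_num) (by simp; norm_num)
      rw [hG] at hfin
      simp only at hfin
      have hre : ((5 / 7 : ℝ) + T * I : ℂ).re = 5 / 7 := by simp
      have hd1 : ((5 / 7 : ℝ) : ℂ) + T * I - T * I + 1 = ((12 / 7 : ℝ) : ℂ) := by push_cast; ring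
      rw [norm_div, norm_mul, hTn, hre, hd1, Complex.norm_real, Real.norm_of_nonneg (by norm_num),
        div_le_iff₀ (by norm_num)] at hfin
      have hp : T ^ (-((5 / 7 : ℝ) - 1 / 2)) = (T ^ (3 / 14 : ℝ))⁻¹ := by
        rw [← Real.rpow_neg hT0.le]; norm_num
      rw [hp] at hfin
      have hpos : 0 < T ^ (3 / 14 : ℝ) := Real.rpow_pos_of_pos hT0 _
      have h9 : ‖FF ((5 / 7 : ℝ) + T * I)‖ = ‖FF ((5 / 7 : ℝ) + T * I)‖ * (T ^ (3 / 14 : ℝ))⁻¹ * T ^ (3 / 14 : ℝ) := by
        field_simp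
      rw [h9]
      calc _ ≤ (K * (12 / 7)) * T ^ (3 / 14 : ℝ) := mul_le_mul_of_nonneg_right hfin hpos.le
        _ ≤ _ := by gcongr; norm_num

theorem norm_FF_line_abs : ∃ C : ℝ, 0 < C ∧ ∀ t : ℝ, 1 ≤ |t| →
    ‖FF ((5 / 7 : ℝ) + t * I)‖ ≤ C * |t| ^ (3 / 14 : ℝ) := by
  obtain ⟨C, hC, h⟩ := norm_FF_line
  refine ⟨C, hC, fun t ht => ?_⟩
  rcases le_total 0 t with h0 | h0
  · rw [abs_of_nonneg h0] at ht ⊢
    exact h t ht
  · rw [abs_of_nonpos h0] at ht ⊢
    have e : ((5 / 7 : ℝ) : ℂ) + t * I = conj (((5 / 7 : ℝ) : ℂ) + ((-t : ℝ) : ℂ) * I) := by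
      rw [map_add, map_mul, Complex.conj_I, Complex.conj_ofReal, Complex.conj_ofReal]
      push_cast; ring
    rw [e, norm_FF_conj]
    exact h (-t) ht

open Pool.Agent.M20.Helper10.KSZ in
theorem a7 (h : A5half) : A7 := by
  obtain ⟨C1, hC1, h1⟩ := h
  obtain ⟨C2, hC2, h2⟩ := norm_FF_line_abs
  refine ⟨2 * C2 * C1, by positivity, fun t ht => ?_⟩
  have ht0 : 0 < |t| := by linarith
  set s : ℂ := ((5 / 7 : ℝ) : ℂ) + ((-t : ℝ) : ℂ) * I with hs
  have hre : s.re = 5 / 7 := by simp [hs]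
  have him : s.im = -t := by simp [hs]
  exact by
    have e : (((2 / 7 : ℝ) : ℂ) + (t : ℂ) * I) = 1 - s := by
      rw [hs]; push_cast; ring
    rw [e, riemannZeta_one_sub (by
      intro n hn
      have := congrArg Complex.re hn
      rw [hre] at this
      simp at this
      have h3 : (0 : ℝ) ≤ n := Nat.cast_nonneg n
      (clear * - this; linarith)) (by
      intro hn
      have := congrArg Complex.re hn
      rw [hre] at this
      simp at this
      norm_num at this)]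
    have h3 : ‖FF s‖ ≤ C2 * |t| ^ (3 / 14 : ℝ) := by
      have := h2 (-t) (by rw [abs_neg]; (clear * - ht; linarith))
      rwa [abs_neg] at this
    have h4 : ‖riemannZeta s‖ ≤ C1 * |t| ^ (1 / 14 : ℝ) * Real.log |t| := by
      have := h1 (-t) (by rw [abs_neg]; exact ht)
      rwa [abs_neg] at this
    have h5 : ‖(2 : ℂ) * (2 * Real.pi) ^ (-s)‖ ≤ 2 := by
      rw [norm_mul]
      have e1 : ((2 : ℂ) * Real.pi) = ((2 * Real.pi : ℝ) : ℂ) := by push_cast; ring
      rw [e1, Complex.norm_cpow_eq_rpow_re_of_pos (by positivity)]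
      have e2 : (-s).re = -(5 / 7) := by rw [Complex.neg_re, hre]
      rw [e2]
      have e3 : (2 * Real.pi) ^ (-(5 / 7) : ℝ) ≤ 1 :=
        Real.rpow_le_one_of_one_le_of_nonpos (by (clear * -; linarith [Real.pi_gt_three])) (by norm_num)
      have e4 : ‖(2 : ℂ)‖ = 2 := by simp
      rw [e4]; (clear * - e3; linarith)
    have e5 : (2 : ℂ) * (2 * Real.pi) ^ (-s) * Complex.Gamma s * Complex.cos (Real.pi * s / 2) * riemannZeta s =
        (2 * (2 * Real.pi) ^ (-s)) * FF s * riemannZeta s := by unfold FF; ring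
    rw [e5, norm_mul, norm_mul]
    have hlog : 0 ≤ Real.log |t| := Real.log_nonneg (by (clear * - ht; linarith))
    exact by
      calc _ ≤ 2 * (C2 * |t| ^ (3 / 14 : ℝ)) * (C1 * |t| ^ (1 / 14 : ℝ) * Real.log |t|) := by (clear * - h5 h3 h4 hC2 ht; gcongr)
        _ = 2 * C2 * C1 * (|t| ^ (3 / 14 : ℝ) * |t| ^ (1 / 14 : ℝ)) * Real.log |t| := by ring
        _ = _ := by rw [← Real.rpow_add ht0]; norm_num

end Pool.Agent.M20.Helper1.KSZ
end

/- Helper53.KN.Helper89.SLE.Div -/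
section
/-!
# Divisor bound and pairs with given product
-/

set_option autoImplicit false

namespace Pool.Agent.M20.Helper89.SLE

open Finset

/-- `τ(n) ≤ C n^ε`. -/
theorem divisor_bound (ε : ℝ) (hε : 0 < ε) :
    ∃ C : ℝ, 1 ≤ C ∧ ∀ n : ℕ, 0 < n → ((n.divisors.card : ℕ) : ℝ) ≤ C * (n : ℝ) ^ ε := by
  classical
  -- `(v + 1) ≤ K * 2 ^ (ε v)`
  obtain ⟨K, hK1, hK⟩ : ∃ K : ℝ, 1 ≤ K ∧ ∀ v : ℕ, ((v : ℝ) + 1) ≤ K * ((2 : ℝ) ^ ε) ^ v := by
    have h2 : 1 < (2 : ℝ) ^ ε := Real.one_lt_rpow (by norm_num) hε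
    set δ := (2 : ℝ) ^ ε - 1 with hδ
    have hδ0 : 0 < δ := by linarith
    refine ⟨max 1 (1 / δ), le_max_left _ _, fun v => ?_⟩
    have h3 : 1 + (v : ℝ) * δ ≤ ((2 : ℝ) ^ ε) ^ v := by
      have := one_add_mul_le_pow (a := δ) (by linarith) v
      have h4 : 1 + δ = (2 : ℝ) ^ ε := by rw [hδ]; ring
      rw [h4] at this
      exact this
    have hm : 0 < max 1 (1 / δ) := lt_of_lt_of_le one_pos (le_max_left _ _)
    have h5 : max 1 (1 / δ) * (1 + v * δ) ≤ max 1 (1 / δ) * ((2 : ℝ) ^ ε) ^ v :=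
      mul_le_mul_of_nonneg_left h3 hm.le
    refine le_trans ?_ h5
    have h6 : (1 : ℝ) ≤ max 1 (1 / δ) * 1 := by rw [mul_one]; exact le_max_left _ _
    have h7 : (v : ℝ) ≤ max 1 (1 / δ) * (v * δ) := by
      have : (1 / δ) * (v * δ) ≤ max 1 (1 / δ) * (v * δ) :=
        mul_le_mul_of_nonneg_right (le_max_right _ _) (by positivity)
      have h8 : (1 / δ) * (v * δ) = v := by field_simp
      linarith
    linarith
  obtain ⟨P, hP⟩ : ∃ P : ℕ, ∀ p : ℕ, P ≤ p → (2 : ℝ) ≤ (p : ℝ) ^ ε := by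
    have := (tendsto_rpow_atTop hε).comp tendsto_natCast_atTop_atTop
    obtain ⟨P, hP⟩ := Filter.eventually_atTop.mp (this.eventually_ge_atTop 2)
    exact ⟨P, fun p hp => hP p hp⟩
  refine ⟨K ^ P, one_le_pow₀ hK1, fun n hn => ?_⟩
  rw [Nat.card_divisors hn.ne']
  push_cast
  have h1 : (n : ℝ) ^ ε = ∏ p ∈ n.primeFactors, ((p : ℝ) ^ ε) ^ (n.factorization p) := by
    conv_lhs => rw [← Nat.prod_factorization_pow_eq_self hn.ne']
    rw [Finsupp.prod, Nat.support_factorization]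
    push_cast
    rw [← Real.finset_prod_rpow _ _ (fun i _ => by positivity)]
    refine Finset.prod_congr rfl fun p hp => ?_
    rw [← Real.rpow_natCast, ← Real.rpow_natCast, ← Real.rpow_mul (by positivity),
      ← Real.rpow_mul (by positivity), mul_comm]
  rw [h1]
  have h2 : ∏ p ∈ n.primeFactors, ((n.factorization p : ℝ) + 1) ≤
      ∏ p ∈ n.primeFactors, ((if p < P then K else 1) * ((p : ℝ) ^ ε) ^ (n.factorization p)) := by
    refine Finset.prod_le_prod (fun p _ => by positivity) fun p hp => ?_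
    have hpp : p.Prime := Nat.prime_of_mem_primeFactors hp
    split_ifs with h
    · refine (hK _).trans ?_
      refine mul_le_mul_of_nonneg_left ?_ (by linarith)
      refine pow_le_pow_left₀ (by positivity) ?_ _
      exact Real.rpow_le_rpow (by norm_num) (by exact_mod_cast hpp.two_le) hε.le
    · rw [one_mul]
      have h3 : (2 : ℝ) ≤ (p : ℝ) ^ ε := hP p (by omega)
      have h4 : (2 : ℝ) ^ (n.factorization p) ≤ ((p : ℝ) ^ ε) ^ (n.factorization p) :=
        pow_le_pow_left₀ (by norm_num) h3 _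
      refine le_trans ?_ h4
      have := Nat.lt_two_pow_self (n := n.factorization p)
      exact_mod_cast this
  refine h2.trans ?_
  rw [Finset.prod_mul_distrib]
  refine mul_le_mul_of_nonneg_right ?_ (Finset.prod_nonneg fun p _ => by positivity)
  rw [Finset.prod_ite, Finset.prod_const_one, mul_one, Finset.prod_const]
  refine pow_le_pow_right₀ hK1 ?_
  calc (filter (fun p => p < P) n.primeFactors).card ≤ (Finset.range P).card :=
        Finset.card_le_card (fun p hp => Finset.mem_range.mpr (Finset.mem_filter.mp hp).2)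
    _ = P := Finset.card_range P

end Pool.Agent.M20.Helper89.SLE
end

/- Helper53.KN.Helper1.KSZ.LineA7b -/
section
/-! (A7) in the shape of Helper60.KS.St (project KSZ). -/

set_option autoImplicit false

open Complex
open scoped ComplexConjugate

namespace Pool.Agent.M20.Helper1.KSZ

theorem a5half_of_a5 (h : Pool.Agent.M20.Helper60.KS.A5) : Pool.Agent.M20.Helper10.KSZ.A5half := by
  obtain ⟨C, hC, -, h2⟩ := h
  refine ⟨C, hC, fun t ht => ?_⟩
  have key : ∀ u : ℝ, 2 ≤ u → ‖riemannZeta ((5 / 7 : ℝ) + (u : ℂ) * Complex.I)‖ ≤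
      C * u ^ (1 / 14 : ℝ) * Real.log u := by
    intro u hu
    have := h2 (5 / 7) u le_rfl (by norm_num) hu
    rwa [show ((1 : ℝ) - 5 / 7) / 4 = 1 / 14 by norm_num] at this
  rcases le_total 0 t with h0 | h0
  · rw [abs_of_nonneg h0] at ht ⊢
    exact key t ht
  · rw [abs_of_nonpos h0] at ht ⊢
    have e : ((5 / 7 : ℝ) : ℂ) + t * I = conj (((5 / 7 : ℝ) : ℂ) + ((-t : ℝ) : ℂ) * I) := by
      rw [map_add, map_mul, Complex.conj_I, Complex.conj_ofReal, Complex.conj_ofReal]
      push_cast; ring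
    rw [e, riemannZeta_conj, Complex.norm_conj]
    exact key (-t) ht

theorem a7_helper60 (h : Pool.Agent.M20.Helper60.KS.A5) : Pool.Agent.M20.Helper60.KS.A7 := by
  obtain ⟨C, hC, h1⟩ := a7 (a5half_of_a5 h)
  refine ⟨C, hC, fun t ht => ?_⟩
  have := h1 t (by rw [abs_of_nonneg (by linarith)]; exact ht)
  rw [abs_of_nonneg (by linarith : (0 : ℝ) ≤ t)] at this
  have e : ((2 / 7 : ℝ) : ℂ) = 2 / 7 := by push_cast; ring
  rwa [e] at this

end Pool.Agent.M20.Helper1.KSZ
end

/- Helper53.KN.Helper71.KC.TwoWalk -/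
section
/-!
Project KS (MP_768c9c_nt), module KC-5: the two-walk lemma (6.6).
-/

set_option autoImplicit false
set_option linter.all false

open Finset
open scoped Classical

namespace Pool.Agent.M20.Helper71.KC

open Pool.Agent.M20.Helper60.KS

/-- the number of `δ`-spaced points in an interval of length `ℓ` is at most `1 + ℓ / δ` -/
theorem card_spaced {ι : Type*} (S : Finset ι) (f : ι → ℝ) {δ x ℓ : ℝ} (hδ : 0 < δ)
    (hsp : ∀ i ∈ S, ∀ j ∈ S, i ≠ j → δ ≤ |f i - f j|)
    (hI : ∀ i ∈ S, x ≤ f i ∧ f i ≤ x + ℓ) (hℓ : 0 ≤ ℓ) : (S.card : ℝ) ≤ 1 + ℓ / δ := by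
  have h1 : S.card ≤ (range (⌊ℓ / δ⌋₊ + 1)).card := by
    refine Finset.card_le_card_of_injOn (fun i => ⌊(f i - x) / δ⌋₊) ?_ ?_
    · intro i hi
      have hi' := hI i hi
      simp only [coe_range, Set.mem_Iio]
      refine Nat.lt_succ_of_le (Nat.floor_le_floor ?_)
      exact div_le_div_of_nonneg_right (by (clear * - hi'; linarith)) hδ.le
    · intro i hi j hj hij
      by_contra hne
      have h2 := hsp i hi j hj hne
      have hi0 : 0 ≤ (f i - x) / δ := div_nonneg (by (clear * - hI hi; linarith [(hI i hi).1])) hδ.le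
      have hj0 : 0 ≤ (f j - x) / δ := div_nonneg (by (clear * - hI hj; linarith [(hI j hj).1])) hδ.le
      have hij' : ⌊(f i - x) / δ⌋₊ = ⌊(f j - x) / δ⌋₊ := hij
      have e1 := Nat.floor_le hi0
      have e2 := Nat.lt_floor_add_one ((f i - x) / δ)
      have e3 := Nat.floor_le hj0
      have e4 := Nat.lt_floor_add_one ((f j - x) / δ)
      rw [hij'] at e1 e2
      have h3 : |(f i - x) / δ - (f j - x) / δ| < 1 := by
        exact abs_sub_lt_iff.2 ⟨sub_lt_iff_lt_add'.2 (e2.trans_le (add_le_add e3 le_rfl)),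
          sub_lt_iff_lt_add'.2 (e4.trans_le (add_le_add e1 le_rfl))⟩
      rw [← sub_div, abs_div, abs_of_pos hδ, div_lt_one hδ] at h3
      have h4 : f i - x - (f j - x) = f i - f j := by ring
      rw [h4] at h3
      (clear * - h2 h3; linarith)
  rw [card_range] at h1
  have h5 : ((⌊ℓ / δ⌋₊ : ℕ) : ℝ) ≤ ℓ / δ := Nat.floor_le (div_nonneg hℓ hδ.le)
  have h6 : (S.card : ℝ) ≤ ((⌊ℓ / δ⌋₊ + 1 : ℕ) : ℝ) := by exact_mod_cast h1
  push_cast at h6
  (clear * - h5 h6; linarith)

theorem log_sep {x y : ℕ} {M : ℝ} (hx : 1 ≤ x) (hy : 1 ≤ y) (hxy : x ≠ y) (hxM : (x : ℝ) ≤ M)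
    (hyM : (y : ℝ) ≤ M) : 1 / M ≤ |Real.log x - Real.log y| := by
  have key : ∀ x y : ℕ, 1 ≤ x → 1 ≤ y → y < x → (x : ℝ) ≤ M → 1 / M ≤ Real.log x - Real.log y := by
    intro x y hx hy hxy hxM
    have hx0 : (0 : ℝ) < x := by exact_mod_cast hx
    have hy0 : (0 : ℝ) < y := by exact_mod_cast hy
    have h1 := Real.log_le_sub_one_of_pos (div_pos hy0 hx0)
    rw [Real.log_div hy0.ne' hx0.ne'] at h1
    have h2 : (y : ℝ) + 1 ≤ x := by exact_mod_cast hxy
    have h3 : (y : ℝ) / x ≤ 1 - 1 / x := by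
      rw [div_le_iff₀ hx0]
      have : (1 - 1 / (x : ℝ)) * x = x - 1 := by
        rw [sub_mul, one_mul, one_div, inv_mul_cancel₀ hx0.ne']
      rw [this]
      (clear * - h2; linarith)
    have h4 : 1 / M ≤ 1 / (x : ℝ) := one_div_le_one_div_of_le hx0 hxM
    (clear * - h1 h3 h4; linarith)
  rcases lt_or_gt_of_ne hxy with h | h
  · have := key y x hy hx h hyM
    rw [abs_sub_comm]
    exact this.trans (le_abs_self _)
  · exact (key x y hx hy h hxM).trans (le_abs_self _)

private theorem win1 {s L T : ℝ} (h : |s - L| ≤ 1 / T) : s - 1 / T ≤ L ∧ L ≤ s - 1 / T + 2 / T := by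
  obtain ⟨h1, h2⟩ := abs_le.1 h
  have h3 : s - 1 / T + 2 / T = s + 1 / T := by ring
  rw [h3]
  exact ⟨sub_le_comm.1 h2, by linarith⟩

/-- coprime pairs `(a, b)` with `g ≤ max a b < 2 g` and `|s - log (a / b)| ≤ 1 / T` -/
noncomputable def pr (T : ℝ) (g : ℕ) (s : ℝ) : Finset (ℕ × ℕ) :=
  (Icc 1 (2 * g) ×ˢ Icc 1 (2 * g)).filter (fun p => p.1.Coprime p.2 ∧ g ≤ max p.1 p.2 ∧
    max p.1 p.2 < 2 * g ∧ |s - (Real.log p.1 - Real.log p.2)| ≤ 1 / T)

theorem cross_ne {a b a' b' : ℕ} (ha : 1 ≤ a) (h : a.Coprime b)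
    (h' : a'.Coprime b') (hne : (a, b) ≠ (a', b')) : a * b' ≠ a' * b := by
  intro he
  apply hne
  have h1 : a ∣ a' := by
    have : a ∣ a' * b := ⟨b', he.symm⟩
    exact h.dvd_of_dvd_mul_right this
  have h2 : a' ∣ a := by
    have : a' ∣ a * b' := ⟨b, he⟩
    exact h'.dvd_of_dvd_mul_right this
  have h3 : a = a' := Nat.dvd_antisymm h1 h2
  subst h3
  have h4 : b' = b := Nat.eq_of_mul_eq_mul_left ha he
  rw [h4]

theorem card_pr {T : ℝ} (hT : 1 ≤ T) {g : ℕ} (hg : 1 ≤ g) (s : ℝ) :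
    ((pr T g s).card : ℝ) ≤ 1 + 8 * (g : ℝ) ^ 2 / T := by
  have hT0 : 0 < T := by (clear * - hT; linarith)
  have hg0 : (0 : ℝ) < g := by exact_mod_cast hg
  have h1 := card_spaced (pr T g s) (fun p => Real.log p.1 - Real.log p.2)
    (δ := 1 / (4 * (g : ℝ) ^ 2)) (x := s - 1 / T) (ℓ := 2 / T) (by (clear * - hg; positivity)) ?_ ?_
    (by positivity)
  · refine h1.trans (le_of_eq ?_)
    field_simp
    ring
  · intro p hp q hq hpq
    simp only [pr, mem_filter, mem_product, mem_Icc] at hp hq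
    obtain ⟨⟨⟨hp1, hp2⟩, hp3, hp4⟩, hp5, -, -, -⟩ := hp
    obtain ⟨⟨⟨hq1, hq2⟩, hq3, hq4⟩, hq5, -, -, -⟩ := hq
    have hne := cross_ne hp1 hp5 hq5 hpq
    have hb : ∀ x y : ℕ, x ≤ 2 * g → y ≤ 2 * g → ((x * y : ℕ) : ℝ) ≤ 4 * (g : ℝ) ^ 2 := by
      intro x y hx hy
      have : x * y ≤ (2 * g) * (2 * g) := Nat.mul_le_mul hx hy
      have h2 : ((x * y : ℕ) : ℝ) ≤ (((2 * g) * (2 * g) : ℕ) : ℝ) := by exact_mod_cast this
      push_cast at h2 ⊢
      (clear * - h2; linarith)
    have h3 := log_sep (M := 4 * (g : ℝ) ^ 2) (Nat.mul_pos hp1 hq3 : 0 < p.1 * q.2)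
      (Nat.mul_pos hq1 hp3 : 0 < q.1 * p.2) hne (hb _ _ hp2 hq4) (hb _ _ hq2 hp4)
    have e1 : (0 : ℝ) < p.1 := by exact_mod_cast hp1
    have e2 : (0 : ℝ) < p.2 := by exact_mod_cast hp3
    have e3 : (0 : ℝ) < q.1 := by exact_mod_cast hq1
    have e4 : (0 : ℝ) < q.2 := by exact_mod_cast hq3
    push_cast at h3
    rw [Real.log_mul e1.ne' e4.ne', Real.log_mul e3.ne' e2.ne'] at h3
    refine h3.trans (le_of_eq ?_)
    congr 1
    ring
  · intro p hp
    simp only [pr, mem_filter] at hp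
    exact win1 hp.2.2.2.2

/-- pairs `(u, u')` admitting such a fraction -/
noncomputable def AA (U : Finset ℝ) (T : ℝ) (g : ℕ) : Finset (ℝ × ℝ) :=
  (U ×ˢ U).filter (fun p => (pr T g (p.1 - p.2)).Nonempty)

theorem card_AA_le (U : Finset ℝ) (T : ℝ) (g : ℕ) : (AA U T g).card ≤ U.card ^ 2 := by
  refine (Finset.card_filter_le _ _).trans ?_
  rw [card_product, sq]

theorem ET_mono {U : Finset ℝ} {T : ℝ} {Q Q' : ℕ} (hQ : 1 ≤ Q) : ET U T Q Q' ≤ ET U T 1 Q' := by
  unfold ET
  refine Finset.card_le_card (Finset.filter_subset_filter _ ?_)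
  have h1 : U ×ˢ Icc Q Q' ⊆ U ×ˢ Icc 1 Q' :=
    Finset.product_subset_product_right (Finset.Icc_subset_Icc_left hQ)
  exact Finset.product_subset_product h1 h1

/-- (2): upper bound for the number of coincidences -/
theorem ET_le_sum {U : Finset ℝ} {T : ℝ} (hT : 1 ≤ T) (Q' : ℕ) :
    (ET U T 1 Q' : ℝ) ≤ ∑ i ∈ range (Nat.log 2 Q' + 1),
      ((AA U T (2 ^ i)).card : ℝ) * ((1 + 8 * ((2 : ℝ) ^ i) ^ 2 / T) * ((Q' : ℝ) / 2 ^ i)) := by
  have hT0 : 0 < T := by linarith
  set E := (((U ×ˢ Finset.Icc 1 Q') ×ˢ (U ×ˢ Finset.Icc 1 Q')).filter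
    (fun p => |(p.1.1 - Real.log p.1.2) - (p.2.1 - Real.log p.2.2)| ≤ 1 / T)) with hE
  have hcard : ET U T 1 Q' = E.card := rfl
  rw [hcard]
  set lev : (ℝ × ℕ) × (ℝ × ℕ) → ℕ := fun p =>
    Nat.log 2 (max (p.1.2 / Nat.gcd p.1.2 p.2.2) (p.2.2 / Nat.gcd p.1.2 p.2.2)) with hlev
  have hmaps : ∀ p ∈ E, lev p ∈ range (Nat.log 2 Q' + 1) := by
    intro p hp
    simp only [hE, mem_filter, mem_product, mem_Icc] at hp
    obtain ⟨⟨⟨-, -, h2⟩, -, -, h4⟩, -⟩ := hp
    rw [mem_range, Nat.lt_succ_iff]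
    refine Nat.log_mono_right (max_le ?_ ?_)
    · exact (Nat.div_le_self _ _).trans h2
    · exact (Nat.div_le_self _ _).trans h4
  rw [Finset.card_eq_sum_card_fiberwise hmaps]
  push_cast
  refine Finset.sum_le_sum fun i _ => ?_
  set B := (AA U T (2 ^ i)).sigma (fun p => (pr T (2 ^ i) (p.1 - p.2)) ×ˢ Icc 1 (Q' / 2 ^ i)) with hB
  have h1 : (E.filter (fun p => lev p = i)).card ≤ B.card := by
    refine Finset.card_le_card_of_injOn (fun p => (⟨(p.1.1, p.2.1),
      ((p.1.2 / Nat.gcd p.1.2 p.2.2, p.2.2 / Nat.gcd p.1.2 p.2.2), Nat.gcd p.1.2 p.2.2)⟩ :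
        Σ _ : ℝ × ℝ, (ℕ × ℕ) × ℕ)) ?_ ?_
    · intro p hp
      rw [mem_coe, mem_filter] at hp
      obtain ⟨hp, hpi⟩ := hp
      simp only [hE, mem_filter, mem_product, mem_Icc] at hp
      obtain ⟨⟨⟨hu, h1, h2⟩, hu', h3, h4⟩, h5⟩ := hp
      set m := Nat.gcd p.1.2 p.2.2 with hm
      have hm0 : 0 < m := Nat.gcd_pos_of_pos_left _ h1
      set a := p.1.2 / m with ha
      set b := p.2.2 / m with hb
      have hna : p.1.2 = m * a := (Nat.mul_div_cancel' (Nat.gcd_dvd_left _ _)).symm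
      have hnb : p.2.2 = m * b := (Nat.mul_div_cancel' (Nat.gcd_dvd_right _ _)).symm
      have ha1 : 1 ≤ a := by
        rcases Nat.eq_zero_or_pos a with h | h
        · rw [h, mul_zero] at hna
          omega
        · exact h
      have hb1 : 1 ≤ b := by
        rcases Nat.eq_zero_or_pos b with h | h
        · rw [h, mul_zero] at hnb
          omega
        · exact h
      have hcop : a.Coprime b := Nat.coprime_div_gcd_div_gcd hm0
      have hlv : Nat.log 2 (max a b) = i := hpi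
      have hmax0 : max a b ≠ 0 := by
        have := le_max_left a b
        omega
      have hl1 : 2 ^ i ≤ max a b := by
        rw [← hlv]
        exact Nat.pow_log_le_self 2 hmax0
      have hl2 : max a b < 2 * 2 ^ i := by
        have := Nat.lt_pow_succ_log_self (b := 2) (by norm_num) (max a b)
        rw [hlv, Nat.succ_eq_add_one, pow_succ] at this
        (clear * - U T Q' this; omega)
      have hmr : (0 : ℝ) < m := by exact_mod_cast hm0
      have har : (0 : ℝ) < a := by exact_mod_cast ha1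
      have hbr : (0 : ℝ) < b := by exact_mod_cast hb1
      have hmem : (a, b) ∈ pr T (2 ^ i) (p.1.1 - p.2.1) := by
        simp only [pr, mem_filter, mem_product, mem_Icc]
        have g1 := le_max_left a b
        have g2 := le_max_right a b
        refine ⟨⟨⟨ha1, by omega⟩, hb1, by omega⟩, hcop, hl1, hl2, ?_⟩
        rw [hna, hnb] at h5
        push_cast at h5
        rw [Real.log_mul hmr.ne' har.ne', Real.log_mul hmr.ne' hbr.ne'] at h5
        refine le_trans (le_of_eq ?_) h5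
        congr 1
        ring
      rw [mem_coe, hB, mem_sigma]
      refine ⟨?_, ?_⟩
      · simp only [AA, mem_filter, mem_product]
        exact ⟨⟨hu, hu'⟩, ⟨_, hmem⟩⟩
      · simp only [mem_product, mem_Icc]
        refine ⟨hmem, hm0, ?_⟩
        rw [Nat.le_div_iff_mul_le (by positivity)]
        calc m * 2 ^ i ≤ m * max a b := Nat.mul_le_mul_left _ hl1
          _ = max (m * a) (m * b) := by rw [Nat.mul_max_mul_left]
          _ ≤ Q' := by
            rw [← hna, ← hnb]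
            exact max_le h2 h4
    · intro p hp q hq hpq
      rw [mem_coe, mem_filter] at hp hq
      simp only [Sigma.mk.injEq, Prod.mk.injEq, heq_eq_eq] at hpq
      obtain ⟨⟨e1, e2⟩, ⟨e3, e4⟩, e5⟩ := hpq
      have d1 := Nat.div_mul_cancel (Nat.gcd_dvd_left p.1.2 p.2.2)
      have d2 := Nat.div_mul_cancel (Nat.gcd_dvd_right p.1.2 p.2.2)
      have d3 := Nat.div_mul_cancel (Nat.gcd_dvd_left q.1.2 q.2.2)
      have d4 := Nat.div_mul_cancel (Nat.gcd_dvd_right q.1.2 q.2.2)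
      rw [e3, e5, d3] at d1
      rw [e4, e5, d4] at d2
      exact Prod.ext (Prod.ext e1 d1.symm) (Prod.ext e2 d2.symm)
  have h2 : (B.card : ℝ) ≤ ((AA U T (2 ^ i)).card : ℝ) *
      ((1 + 8 * ((2 : ℝ) ^ i) ^ 2 / T) * ((Q' : ℝ) / 2 ^ i)) := by
    rw [hB, Finset.card_sigma]
    push_cast
    rw [← nsmul_eq_mul, ← Finset.sum_const]
    refine Finset.sum_le_sum fun p _ => ?_
    rw [card_product]
    push_cast
    refine mul_le_mul ?_ ?_ (Nat.cast_nonneg _) (by positivity)
    · have := card_pr hT (g := 2 ^ i) Nat.one_le_two_pow (p.1 - p.2)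
      push_cast at this
      exact this
    · rw [Nat.card_Icc, Nat.add_sub_cancel]
      have := Nat.cast_div_le (α := ℝ) (m := Q') (n := 2 ^ i)
      push_cast at this
      exact this
  have h3 : ((E.filter (fun p => lev p = i)).card : ℝ) ≤ B.card := by exact_mod_cast h1
  exact h3.trans h2

/-- (2'): upper bound in terms of `M` -/
theorem ET_le {U : Finset ℝ} {T M : ℝ} (hT : 1 ≤ T) {Q' : ℕ} (hQ' : 1 ≤ Q')
    (hM : ∀ i : ℕ, ((AA U T (2 ^ i)).card : ℝ) ≤ M * U.card * 2 ^ i) :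
    (ET U T 1 Q' : ℝ) ≤ ((Nat.log 2 Q' + 1 : ℕ) : ℝ) * (M * U.card * Q') +
      16 * (U.card : ℝ) ^ 2 * (Q' : ℝ) ^ 2 / T := by
  have hT0 : 0 < T := by (clear * - hT; linarith)
  have hQ0 : (0 : ℝ) < Q' := by exact_mod_cast hQ'
  refine (ET_le_sum hT Q').trans ?_
  have h1 : ∀ i ∈ range (Nat.log 2 Q' + 1),
      ((AA U T (2 ^ i)).card : ℝ) * ((1 + 8 * ((2 : ℝ) ^ i) ^ 2 / T) * ((Q' : ℝ) / 2 ^ i)) ≤
      M * U.card * Q' + (8 * (U.card : ℝ) ^ 2 * Q' / T) * 2 ^ i := by
    intro i _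
    have h2i : (0 : ℝ) < 2 ^ i := by positivity
    have e1 : ((AA U T (2 ^ i)).card : ℝ) * ((1 + 8 * ((2 : ℝ) ^ i) ^ 2 / T) * ((Q' : ℝ) / 2 ^ i)) =
      ((AA U T (2 ^ i)).card : ℝ) * ((Q' : ℝ) / 2 ^ i) +
        ((AA U T (2 ^ i)).card : ℝ) * (8 * Q' / T * 2 ^ i) := by
      calc ((AA U T (2 ^ i)).card : ℝ) * ((1 + 8 * ((2 : ℝ) ^ i) ^ 2 / T) * ((Q' : ℝ) / 2 ^ i)) =
          ((AA U T (2 ^ i)).card : ℝ) * ((Q' : ℝ) / 2 ^ i) +
            ((AA U T (2 ^ i)).card : ℝ) * (8 * Q' / T * 2 ^ i) * (2 ^ i * (2 ^ i)⁻¹) := by ring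
        _ = _ := by rw [mul_inv_cancel₀ h2i.ne', mul_one]
    rw [e1]
    refine add_le_add ?_ ?_
    · calc ((AA U T (2 ^ i)).card : ℝ) * ((Q' : ℝ) / 2 ^ i)
          ≤ (M * U.card * 2 ^ i) * ((Q' : ℝ) / 2 ^ i) :=
            mul_le_mul_of_nonneg_right (hM i) (by (clear * - hQ'; positivity))
        _ = M * U.card * ((Q' : ℝ) / 2 ^ i * 2 ^ i) := by ring
        _ = M * U.card * Q' := by rw [div_mul_cancel₀ _ h2i.ne']
    · have h2 : ((AA U T (2 ^ i)).card : ℝ) ≤ (U.card : ℝ) ^ 2 := by exact_mod_cast card_AA_le U T _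
      calc ((AA U T (2 ^ i)).card : ℝ) * (8 * Q' / T * 2 ^ i)
          ≤ (U.card : ℝ) ^ 2 * (8 * Q' / T * 2 ^ i) :=
            mul_le_mul_of_nonneg_right h2 (by (clear * - hQ' hT; positivity))
        _ = (8 * (U.card : ℝ) ^ 2 * Q' / T) * 2 ^ i := by ring
  refine (Finset.sum_le_sum h1).trans ?_
  rw [Finset.sum_add_distrib, Finset.sum_const, card_range, nsmul_eq_mul, ← Finset.mul_sum]
  refine add_le_add le_rfl ?_
  have h3 : ∑ i ∈ range (Nat.log 2 Q' + 1), (2 : ℝ) ^ i ≤ 2 * Q' := by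
    have h4 : ∑ i ∈ range (Nat.log 2 Q' + 1), (2 : ℝ) ^ i = 2 ^ (Nat.log 2 Q' + 1) - 1 := by
      rw [geom_sum_eq (by norm_num)]
      norm_num
    have h5 : 2 ^ Nat.log 2 Q' ≤ Q' := Nat.pow_log_le_self 2 (by omega)
    have h6 : ((2 : ℝ)) ^ Nat.log 2 Q' ≤ Q' := by exact_mod_cast h5
    rw [h4, pow_succ]
    (clear * - h6; linarith)
  calc 8 * (U.card : ℝ) ^ 2 * Q' / T * ∑ i ∈ range (Nat.log 2 Q' + 1), (2 : ℝ) ^ i
      ≤ 8 * (U.card : ℝ) ^ 2 * Q' / T * (2 * Q') := mul_le_mul_of_nonneg_left h3 (by (clear * - hQ' hT; positivity))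
    _ = 16 * (U.card : ℝ) ^ 2 * (Q' : ℝ) ^ 2 / T := by ring

/-- (4): two-walks -/
theorem two_walks (hPC : PairCount) {U : Finset ℝ} {T D : ℝ} (hT : 1 ≤ T)
    (hU : SpacedR U (1 / T)) {g : ℕ} (hg : 1 ≤ g)
    (hD : ∀ n : ℕ, 1 ≤ n → n ≤ 4 * g ^ 2 → (n.divisors.card : ℝ) ≤ D) :
    ((AA U T g).card : ℝ) ^ 2 ≤ U.card * (15 * D ^ 2 * ET U T 1 (4 * g ^ 2)) := by
  have hT0 : 0 < T := by linarith
  have hD1 : 1 ≤ D := by
    have := hD 1 le_rfl (by have := Nat.one_le_pow 2 g hg; (clear * - this; omega))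
    simpa using this
  set A := AA U T g with hA
  set W := (A ×ˢ A).filter (fun q => q.1.2 = q.2.2) with hW
  -- Cauchy-Schwarz
  have hmA : ∀ p ∈ A, p.2 ∈ U := by
    intro p hp
    simp only [hA, AA, mem_filter, mem_product] at hp
    exact hp.1.2
  have hc1 : A.card = ∑ u ∈ U, (A.filter (fun p => p.2 = u)).card :=
    Finset.card_eq_sum_card_fiberwise hmA
  have hc2 : W.card = ∑ u ∈ U, (A.filter (fun p => p.2 = u)).card ^ 2 := by
    have hmW : ∀ q ∈ W, q.1.2 ∈ U := by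
      intro q hq
      rw [hW, mem_filter, mem_product] at hq
      exact hmA _ hq.1.1
    rw [Finset.card_eq_sum_card_fiberwise hmW]
    refine Finset.sum_congr rfl fun u _ => ?_
    rw [sq, ← card_product]
    congr 1
    ext q
    simp only [hW, mem_filter, mem_product]
    constructor
    · rintro ⟨⟨⟨h1, h2⟩, h3⟩, h4⟩
      exact ⟨⟨h1, h4⟩, h2, h3.symm.trans h4⟩
    · rintro ⟨⟨h1, h2⟩, h3, h4⟩
      exact ⟨⟨⟨h1, h3⟩, h2.trans h4.symm⟩, h2⟩
  have hCS : (A.card : ℝ) ^ 2 ≤ U.card * W.card := by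
    rw [hc1, hc2]
    push_cast
    exact sq_sum_le_card_mul_sum_sq
  -- witnesses
  have hex : ∀ s : ℝ, ∃ w : ℕ × ℕ, (pr T g s).Nonempty → w ∈ pr T g s := by
    intro s
    by_cases h : (pr T g s).Nonempty
    · obtain ⟨w, hw⟩ := h
      exact ⟨w, fun _ => hw⟩
    · exact ⟨(1, 1), fun h' => absurd h' h⟩
  choose wit hwit using hex
  set E2 : Finset ((ℝ × ℕ) × (ℝ × ℕ)) :=
    (((U ×ˢ Finset.Icc 1 (4 * g ^ 2)) ×ˢ (U ×ˢ Finset.Icc 1 (4 * g ^ 2))).filter
      (fun p => |(p.1.1 - Real.log p.1.2) - (p.2.1 - Real.log p.2.2)| ≤ 2 * (1 / T))) with hE2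
  set F : (ℝ × ℝ) × (ℝ × ℝ) → (ℝ × ℕ) × (ℝ × ℕ) := fun q =>
    ((q.1.1, (wit (q.1.1 - q.1.2)).1 * (wit (q.2.1 - q.2.2)).2),
      (q.2.1, (wit (q.1.1 - q.1.2)).2 * (wit (q.2.1 - q.2.2)).1)) with hF
  have hWfacts : ∀ q ∈ W, q.1.1 ∈ U ∧ q.2.1 ∈ U ∧ q.1.2 ∈ U ∧ q.1.2 = q.2.2 ∧
      wit (q.1.1 - q.1.2) ∈ pr T g (q.1.1 - q.1.2) ∧
      wit (q.2.1 - q.2.2) ∈ pr T g (q.2.1 - q.2.2) := by
    intro q hq
    simp only [hW, hA, AA, mem_filter, mem_product] at hq
    obtain ⟨⟨⟨⟨h1, h2⟩, h3⟩, ⟨h4, h5⟩, h6⟩, h7⟩ := hq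
    exact ⟨h1, h4, h2, h7, hwit _ h3, hwit _ h6⟩
  have hmaps : ∀ q ∈ W, F q ∈ E2 := by
    intro q hq
    obtain ⟨h1, h2, h3, h4, h5, h6⟩ := hWfacts q hq
    simp only [pr, mem_filter, mem_product, mem_Icc] at h5 h6
    obtain ⟨⟨⟨a1, a2⟩, a3, a4⟩, -, -, -, a5⟩ := h5
    obtain ⟨⟨⟨b1, b2⟩, b3, b4⟩, -, -, -, b5⟩ := h6
    set a := (wit (q.1.1 - q.1.2)).1
    set b := (wit (q.1.1 - q.1.2)).2
    set a' := (wit (q.2.1 - q.2.2)).1
    set b' := (wit (q.2.1 - q.2.2)).2
    have hb : ∀ x y : ℕ, x ≤ 2 * g → y ≤ 2 * g → x * y ≤ 4 * g ^ 2 := by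
      intro x y hx hy
      calc x * y ≤ (2 * g) * (2 * g) := Nat.mul_le_mul hx hy
        _ = 4 * g ^ 2 := by ring
    simp only [hE2, hF, mem_filter, mem_product, mem_Icc]
    refine ⟨⟨⟨h1, Nat.mul_pos a1 b3, hb _ _ a2 b4⟩, h2, Nat.mul_pos a3 b1, hb _ _ a4 b2⟩, ?_⟩
    have e1 : (0 : ℝ) < a := by exact_mod_cast a1
    have e2 : (0 : ℝ) < b := by exact_mod_cast a3
    have e3 : (0 : ℝ) < a' := by exact_mod_cast b1
    have e4 : (0 : ℝ) < b' := by exact_mod_cast b3
    push_cast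
    rw [Real.log_mul e1.ne' e4.ne', Real.log_mul e2.ne' e3.ne']
    have e5 : q.1.1 - (Real.log a + Real.log b') - (q.2.1 - (Real.log b + Real.log a')) =
        (q.1.1 - q.1.2 - (Real.log a - Real.log b)) -
          (q.2.1 - q.2.2 - (Real.log a' - Real.log b')) := by
      rw [h4]
      ring
    rw [e5]
    refine (abs_sub _ _).trans ?_
    (clear * - a5 b5; linarith)
  have hfib : ∀ e ∈ E2, ((W.filter (fun q => F q = e)).card : ℝ) ≤ 3 * D ^ 2 := by
    intro e he
    simp only [hE2, mem_filter, mem_product, mem_Icc] at he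
    obtain ⟨⟨⟨e1, e2, e3⟩, e4, e5, e6⟩, -⟩ := he
    set Bu := (e.1.2.divisors ×ˢ e.2.2.divisors).biUnion (fun ab =>
      U.filter (fun u => |e.1.1 - u - (Real.log ab.1 - Real.log ab.2)| ≤ 1 / T)) with hBu
    have h1 : (W.filter (fun q => F q = e)).card ≤ Bu.card := by
      refine Finset.card_le_card_of_injOn (fun q => q.1.2) ?_ ?_
      · intro q hq
        rw [mem_coe, mem_filter] at hq
        obtain ⟨hq, hqe⟩ := hq
        obtain ⟨h1, h2, h3, h4, h5, h6⟩ := hWfacts q hq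
        simp only [pr, mem_filter, mem_product, mem_Icc] at h5
        rw [mem_coe, hBu, mem_biUnion]
        refine ⟨wit (q.1.1 - q.1.2), ?_, ?_⟩
        · rw [mem_product, Nat.mem_divisors, Nat.mem_divisors]
          rw [← hqe]
          refine ⟨⟨Dvd.intro _ rfl, ?_⟩, Dvd.intro _ rfl, ?_⟩
          · rw [hqe]
            omega
          · rw [hqe]
            omega
        · rw [mem_filter]
          refine ⟨h3, ?_⟩
          have h7 : e.1.1 = q.1.1 := by rw [← hqe]
          rw [h7]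
          exact h5.2.2.2.2
      · intro q hq q' hq' hqq'
        rw [mem_coe, mem_filter] at hq hq'
        obtain ⟨hq, hqe⟩ := hq
        obtain ⟨hq', hqe'⟩ := hq'
        obtain ⟨-, -, -, h4, -, -⟩ := hWfacts q hq
        obtain ⟨-, -, -, h4', -, -⟩ := hWfacts q' hq'
        have h5 : F q = F q' := hqe.trans hqe'.symm
        simp only [hF, Prod.mk.injEq] at h5
        have h6 : q.1.2 = q'.1.2 := hqq'
        exact Prod.ext (Prod.ext h5.1.1 h6) (Prod.ext h5.2.1 (by rw [← h4, h6, h4']))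
    have h2 : (Bu.card : ℝ) ≤ 3 * D ^ 2 := by
      have h3 : Bu.card ≤ ∑ ab ∈ e.1.2.divisors ×ˢ e.2.2.divisors,
          (U.filter (fun u => |e.1.1 - u - (Real.log ab.1 - Real.log ab.2)| ≤ 1 / T)).card :=
        Finset.card_biUnion_le
      have h4 : ∀ ab ∈ e.1.2.divisors ×ˢ e.2.2.divisors,
          ((U.filter (fun u => |e.1.1 - u - (Real.log ab.1 - Real.log ab.2)| ≤ 1 / T)).card : ℝ) ≤
            3 := by
        intro ab _
        have h5 := card_spaced
          (U.filter (fun u => |e.1.1 - u - (Real.log ab.1 - Real.log ab.2)| ≤ 1 / T))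
          (fun u => u) (δ := 1 / T) (x := e.1.1 - (Real.log ab.1 - Real.log ab.2) - 1 / T)
          (ℓ := 2 / T) (by positivity) ?_ ?_ (by positivity)
        · refine h5.trans (le_of_eq ?_)
          field_simp
          norm_num
        · intro u hu u' hu' hne
          exact hU u (Finset.mem_filter.1 hu).1 u' (Finset.mem_filter.1 hu').1 hne
        · intro u hu
          have h6 := (Finset.mem_filter.1 hu).2
          rw [sub_right_comm] at h6
          exact win1 h6
      have h5 : (Bu.card : ℝ) ≤ ∑ ab ∈ e.1.2.divisors ×ˢ e.2.2.divisors, (3 : ℝ) := by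
        refine le_trans ?_ (Finset.sum_le_sum h4)
        exact_mod_cast h3
      rw [Finset.sum_const, card_product, nsmul_eq_mul] at h5
      push_cast at h5
      have h6 := hD _ e2 e3
      have h7 := hD _ e5 e6
      have h8 : (e.1.2.divisors.card : ℝ) * (e.2.2.divisors.card : ℝ) ≤ D * D :=
        mul_le_mul h6 h7 (Nat.cast_nonneg _) (by (clear * - hD1; linarith))
      (clear * - h5 h8; linarith)
    have h3 : ((W.filter (fun q => F q = e)).card : ℝ) ≤ Bu.card := by exact_mod_cast h1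
    exact h3.trans h2
  have hWE : (W.card : ℝ) ≤ 3 * D ^ 2 * E2.card := by
    rw [Finset.card_eq_sum_card_fiberwise hmaps]
    push_cast
    refine (Finset.sum_le_sum hfib).trans ?_
    rw [Finset.sum_const, nsmul_eq_mul]
    exact le_of_eq (mul_comm _ _)
  have hpc : E2.card ≤ 5 * ET U T 1 (4 * g ^ 2) :=
    hPC (ℝ × ℕ) (U ×ˢ Icc 1 (4 * g ^ 2)) (fun p => p.1 - Real.log p.2) (1 / T) (by positivity)
  have hpc' : (E2.card : ℝ) ≤ 5 * ET U T 1 (4 * g ^ 2) := by exact_mod_cast hpc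
  refine hCS.trans (mul_le_mul_of_nonneg_left ?_ (Nat.cast_nonneg _))
  calc (W.card : ℝ) ≤ 3 * D ^ 2 * E2.card := hWE
    _ ≤ 3 * D ^ 2 * (5 * ET U T 1 (4 * g ^ 2)) := mul_le_mul_of_nonneg_left hpc' (by positivity)
    _ = 15 * D ^ 2 * ET U T 1 (4 * g ^ 2) := by ring

theorem card_le_AA_one {U : Finset ℝ} {T : ℝ} (hT : 1 ≤ T) : U.card ≤ (AA U T (2 ^ 0)).card := by
  refine Finset.card_le_card_of_injOn (fun u => (u, u)) ?_ ?_
  · intro u hu
    simp only [AA, mem_coe, mem_filter, mem_product]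
    refine ⟨⟨hu, hu⟩, (1, 1), ?_⟩
    simp only [pr, mem_filter, mem_product, mem_Icc]
    have hT0 : (0 : ℝ) ≤ 1 / T := by (clear * - hT; positivity)
    refine ⟨⟨⟨by norm_num, by norm_num⟩, by norm_num, by norm_num⟩, by norm_num, by norm_num,
      by norm_num, ?_⟩
    simp only [sub_self, abs_zero]
    exact hT0
  · intro u _ u' _ h
    exact (Prod.mk.inj h).1

/-- (3), (5): the extremal argument -/
theorem exists_M (hPC : PairCount) {U : Finset ℝ} {T D : ℝ} (hT : 1 ≤ T)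
    (hU : SpacedR U (1 / T)) (hne : U.Nonempty)
    (hD : ∀ n : ℕ, 1 ≤ n → n ≤ 4 * U.card ^ 2 → (n.divisors.card : ℝ) ≤ D) :
    ∃ M : ℝ, (∀ i : ℕ, ((AA U T (2 ^ i)).card : ℝ) ≤ M * U.card * 2 ^ i) ∧
      M ≤ 120 * D ^ 3 * (1 + ((U.card : ℝ) ^ 3 / T) ^ (1 / 4 : ℝ)) := by
  have hT0 : 0 < T := by linarith
  set R : ℝ := (U.card : ℝ) with hR
  have hR1n : 1 ≤ U.card := Finset.card_pos.2 hne
  have hR1 : 1 ≤ R := by
    rw [hR]
    exact_mod_cast hR1n
  have hR0 : 0 < R := by (clear * - hR1; linarith)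
  have hD1 : 1 ≤ D := by
    have := hD 1 le_rfl (by have := Nat.one_le_pow 2 _ hR1n; (clear * - this; omega))
    simpa using this
  obtain ⟨i0, hi0, hmax⟩ := Finset.exists_max_image (range (U.card + 1))
    (fun i => ((AA U T (2 ^ i)).card : ℝ) / 2 ^ i) ⟨0, mem_range.2 (Nat.succ_pos _)⟩
  set A0 : ℝ := ((AA U T (2 ^ i0)).card : ℝ) with hA0
  set M : ℝ := A0 / (R * 2 ^ i0) with hM
  have h2i : (0 : ℝ) < 2 ^ i0 := by positivity
  have hMR : M * R * 2 ^ i0 = A0 := by
    rw [hM, mul_assoc, div_mul_cancel₀ _ (mul_pos hR0 h2i).ne']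
  have hMR' : M * R = A0 / 2 ^ i0 := by
    rw [hM, mul_comm R, ← div_div, div_mul_cancel₀ _ hR0.ne']
  have hAR : R ≤ M * R := by
    rw [hMR']
    have h1 := hmax 0 (mem_range.2 (Nat.succ_pos _))
    have h2 : (U.card : ℝ) ≤ ((AA U T (2 ^ 0)).card : ℝ) := by exact_mod_cast card_le_AA_one hT
    refine le_trans ?_ h1
    have e0 : ((AA U T (2 ^ 0)).card : ℝ) / 2 ^ 0 = ((AA U T (2 ^ 0)).card : ℝ) := by
      rw [pow_zero, pow_zero, div_one]
    rw [e0]
    exact h2
  have hM1 : 1 ≤ M := by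
    by_contra h
    have : M * R < 1 * R := mul_lt_mul_of_pos_right (not_le.1 h) hR0
    (clear * - hAR this; linarith)
  have hMall : ∀ i : ℕ, ((AA U T (2 ^ i)).card : ℝ) ≤ M * R * 2 ^ i := by
    intro i
    have h2i' : (0 : ℝ) < 2 ^ i := by positivity
    rw [← div_le_iff₀ h2i']
    by_cases hi : i ∈ range (U.card + 1)
    · rw [hMR']
      exact hmax i hi
    · rw [mem_range, not_lt] at hi
      rw [div_le_iff₀ h2i']
      have h3 : ((AA U T (2 ^ i)).card : ℝ) ≤ R ^ 2 := by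
        rw [hR]
        exact_mod_cast card_AA_le U T (2 ^ i)
      have h4 : (R : ℝ) ≤ 2 ^ i := by
        have h5 : U.card ≤ 2 ^ U.card := Nat.lt_two_pow_self.le
        have h6 : 2 ^ U.card ≤ 2 ^ i := Nat.pow_le_pow_right (by norm_num) (by omega)
        have h7 : U.card ≤ 2 ^ i := h5.trans h6
        rw [hR]
        exact_mod_cast h7
      calc ((AA U T (2 ^ i)).card : ℝ) ≤ R ^ 2 := h3
        _ = R * R := sq R
        _ ≤ (M * R) * 2 ^ i := mul_le_mul hAR h4 hR0.le (by (clear * - hM1 hne; positivity))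
  refine ⟨M, hMall, ?_⟩
  -- `M g ≤ R`
  have hMg : M * 2 ^ i0 ≤ R := by
    have h3 : A0 ≤ R ^ 2 := by
      have : (AA U T (2 ^ i0)).card ≤ U.card ^ 2 := card_AA_le U T _
      rw [hA0, hR]
      exact_mod_cast this
    have h4 : (M * 2 ^ i0) * R ≤ R * R := by
      calc (M * 2 ^ i0) * R = M * R * 2 ^ i0 := by ring
        _ = A0 := hMR
        _ ≤ R ^ 2 := h3
        _ = R * R := sq R
    exact le_of_mul_le_mul_right h4 hR0
  have hgR : (2 : ℝ) ^ i0 ≤ R := by
    have : 1 * (2 : ℝ) ^ i0 ≤ M * 2 ^ i0 := mul_le_mul_of_nonneg_right hM1 h2i.le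
    (clear * - hMg this; linarith)
  have hgRn : 2 ^ i0 ≤ U.card := by
    rw [hR] at hgR
    exact_mod_cast hgR
  have hg2 : 4 * (2 ^ i0) ^ 2 ≤ 4 * U.card ^ 2 :=
    Nat.mul_le_mul_left _ (Nat.pow_le_pow_left hgRn 2)
  have hDg : ∀ n : ℕ, 1 ≤ n → n ≤ 4 * (2 ^ i0) ^ 2 → (n.divisors.card : ℝ) ≤ D :=
    fun n h1 h2 => hD n h1 (h2.trans hg2)
  have hQ1 : 1 ≤ 4 * (2 ^ i0) ^ 2 := by
    have := Nat.one_le_pow 2 (2 ^ i0) Nat.one_le_two_pow
    (clear * - this; omega)
  have htw := two_walks hPC hT hU (g := 2 ^ i0) Nat.one_le_two_pow hDg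
  have hET := ET_le (U := U) hT hQ1 hMall
  have hLam : ((Nat.log 2 (4 * (2 ^ i0) ^ 2) + 1 : ℕ) : ℝ) ≤ D := by
    have h5 := hDg (2 ^ Nat.log 2 (4 * (2 ^ i0) ^ 2)) Nat.one_le_two_pow
      (Nat.pow_log_le_self 2 (by omega))
    rw [Nat.divisors_prime_pow Nat.prime_two, Finset.card_map, Finset.card_range] at h5
    exact h5
  set ρ : ℝ := (R ^ 3 / T) ^ (1 / 4 : ℝ) with hρ
  have hρ0 : 0 ≤ ρ := by (clear * - hne hT; positivity)
  have hρ4 : ρ ^ 4 = R ^ 3 / T := by
    rw [hρ, ← Real.rpow_natCast, ← Real.rpow_mul (by (clear * - hne hT; positivity))]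
    norm_num
  -- main inequality
  set G : ℝ := 2 ^ i0 with hG
  have hmain : M ^ 4 ≤ 60 * D ^ 3 * M ^ 3 + 3840 * D ^ 2 * ρ ^ 4 := by
    have h6 : (M * R * G) ^ 2 ≤
        R * (15 * D ^ 2 * (D * (M * R * (4 * G ^ 2)) + 16 * R ^ 2 * (4 * G ^ 2) ^ 2 / T)) := by
      rw [hMR]
      refine htw.trans ?_
      refine mul_le_mul_of_nonneg_left ?_ hR0.le
      refine mul_le_mul_of_nonneg_left ?_ (by positivity)
      refine hET.trans ?_
      push_cast
      refine add_le_add ?_ le_rfl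
      refine mul_le_mul_of_nonneg_right ?_ (by (clear * - hM1 hne; positivity))
      push_cast at hLam
      exact hLam
    have h7 : (M * R * G) ^ 2 = M ^ 2 * (R ^ 2 * G ^ 2) := by ring
    have h8 : R * (15 * D ^ 2 * (D * (M * R * (4 * G ^ 2)) + 16 * R ^ 2 * (4 * G ^ 2) ^ 2 / T)) =
        (60 * D ^ 3 * M + 3840 * D ^ 2 * (R / T) * G ^ 2) * (R ^ 2 * G ^ 2) := by
      ring
    rw [h7, h8] at h6
    have h9 : M ^ 2 ≤ 60 * D ^ 3 * M + 3840 * D ^ 2 * (R / T) * G ^ 2 :=
      le_of_mul_le_mul_right h6 (by (clear * - hne; positivity))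
    have h10 : M ^ 2 * G ^ 2 ≤ R ^ 2 := by
      rw [← mul_pow]
      exact pow_le_pow_left₀ (by (clear * - hM1; positivity)) hMg 2
    calc M ^ 4 = M ^ 2 * M ^ 2 := by ring
      _ ≤ M ^ 2 * (60 * D ^ 3 * M + 3840 * D ^ 2 * (R / T) * G ^ 2) :=
          mul_le_mul_of_nonneg_left h9 (by (clear * - hM1; positivity))
      _ = 60 * D ^ 3 * M ^ 3 + 3840 * D ^ 2 * (R / T) * (M ^ 2 * G ^ 2) := by ring
      _ ≤ 60 * D ^ 3 * M ^ 3 + 3840 * D ^ 2 * (R / T) * R ^ 2 := by
          refine add_le_add le_rfl (mul_le_mul_of_nonneg_left h10 (by (clear * - hD1 hne hT; positivity)))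
      _ = 60 * D ^ 3 * M ^ 3 + 3840 * D ^ 2 * ρ ^ 4 := by
          rw [hρ4]
          ring
  by_contra hcon
  rw [not_le] at hcon
  have hD3 : 1 ≤ D ^ 3 := one_le_pow₀ hD1
  have hM0 : 0 < M := by (clear * - hM1; linarith)
  have k1 : 120 * D ^ 3 ≤ M :=
    (le_mul_of_one_le_right (mul_nonneg (by norm_num) (zero_le_one.trans hD3))
      (le_add_of_nonneg_right hρ0)).trans hcon.le
  have k2 : 60 * D ^ 3 * M ^ 3 ≤ M ^ 4 / 2 := by
    have : 60 * D ^ 3 * M ^ 3 ≤ M / 2 * M ^ 3 :=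
      mul_le_mul_of_nonneg_right (by (clear * - k1; linarith)) (by (clear * - hM1; positivity))
    calc 60 * D ^ 3 * M ^ 3 ≤ M / 2 * M ^ 3 := this
      _ = M ^ 4 / 2 := by ring
  have k3 : 120 * D * ρ ≤ M := by
    have k4 : D ≤ D ^ 3 := le_self_pow₀ hD1 (by norm_num)
    exact (mul_le_mul (mul_le_mul_of_nonneg_left k4 (by norm_num))
      (le_add_of_nonneg_left zero_le_one) hρ0 (mul_nonneg (by norm_num)
      (zero_le_one.trans hD3))).trans hcon.le
  have k5 : (120 * D * ρ) ^ 4 ≤ M ^ 4 := pow_le_pow_left₀ (by (clear * - hD1 hne hT; positivity)) k3 4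
  have k6 : 3840 * D ^ 2 * ρ ^ 4 * 54000 ≤ (120 * D * ρ) ^ 4 := by
    have k7 : (120 * D * ρ) ^ 4 = 207360000 * (D ^ 4 * ρ ^ 4) := by ring
    have k8 : D ^ 2 * ρ ^ 4 ≤ D ^ 4 * ρ ^ 4 :=
      mul_le_mul_of_nonneg_right (pow_le_pow_right₀ hD1 (by norm_num)) (by (clear * - hne hT; positivity))
    rw [k7]
    (clear * - k8; linarith)
  have k9 : 0 < M ^ 4 := by (clear * - hM1; positivity)
  (clear * - hmain k2 k5 k6 k9; linarith)

/-- (6.6) -/
theorem twoWalk (hPC : PairCount) : TwoWalk := by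
  intro h ε hh hε
  set ε1 : ℝ := min ε 1 / 20 with hε1
  have hmin : 0 < min ε 1 := lt_min hε one_pos
  have hε10 : 0 < ε1 := by positivity
  have hε11 : ε1 ≤ 1 := by
    have := min_le_right ε 1
    rw [hε1]
    (clear * - hε1 hε10 this; linarith)
  have hε20 : 20 * ε1 ≤ ε := by
    have := min_le_left ε 1
    rw [hε1]
    (clear * - this; linarith)
  obtain ⟨C1, hC1, hdiv⟩ := Pool.Agent.M20.Helper89.SLE.divisor_bound ε1 hε10
  have hC10 : 0 < C1 := by (clear * - hC1; linarith)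
  have hh0 : (0 : ℝ) < h := by exact_mod_cast hh
  refine ⟨120 * C1 ^ 4 * h ^ 2 + 16 * h ^ 2, by (clear * - hC1 hh; positivity), ?_⟩
  intro X T u0 U Q hX hT hTX hQ hQX hUI hUs
  have hX0 : 0 < X := by (clear * - hX; linarith)
  have hX1 : 1 ≤ X := by (clear * - hX; linarith)
  have hT0 : 0 < T := by (clear * - hT; linarith)
  have hQ0 : (0 : ℝ) < Q := by exact_mod_cast hQ
  rcases U.eq_empty_or_nonempty with hU0 | hne
  · have : ET U T Q (h * Q) = 0 := by
      rw [hU0]
      rw [ET, Finset.empty_product, Finset.empty_product, Finset.filter_empty, Finset.card_empty]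
    rw [this]
    simp only [Nat.cast_zero]
    (clear * - hC1 hh hX hQ hT; positivity)
  set R : ℝ := (U.card : ℝ) with hR
  have hR0 : 0 ≤ R := Nat.cast_nonneg _
  -- `R ≤ 1 + T`
  have hRT : R ≤ 1 + T := by
    have := card_spaced U (fun u => u) (δ := 1 / T) (x := u0) (ℓ := 1) (by positivity)
      (fun u hu u' hu' hne => hUs u hu u' hu' hne) (fun u hu => hUI u hu) (by norm_num)
    simpa using this
  have hR2X : R ≤ 2 * X := by (clear * - hX hTX hRT; linarith)
  have h4R : 4 * R ^ 2 ≤ X ^ 6 := by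
    have e1 : R ^ 2 ≤ (2 * X) ^ 2 := pow_le_pow_left₀ hR0 hR2X 2
    have e2 : (2 : ℝ) ^ 4 ≤ X ^ 4 := pow_le_pow_left₀ (by norm_num) hX 4
    have e3 : (16 : ℝ) * X ^ 2 ≤ X ^ 4 * X ^ 2 :=
      mul_le_mul_of_nonneg_right (by (clear * - e2; linarith)) (by positivity)
    (clear * - e1 e3; linarith)
  set D : ℝ := C1 * (X ^ 6) ^ ε1 with hD
  have hDn : ∀ n : ℕ, 1 ≤ n → n ≤ 4 * U.card ^ 2 → (n.divisors.card : ℝ) ≤ D := by
    intro n h1 h2
    refine (hdiv n h1).trans ?_
    refine mul_le_mul_of_nonneg_left ?_ hC10.le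
    refine Real.rpow_le_rpow (Nat.cast_nonneg _) ?_ hε10.le
    have h3 : (n : ℝ) ≤ 4 * R ^ 2 := by
      rw [hR]
      exact_mod_cast h2
    exact h3.trans h4R
  obtain ⟨M, hM, hMle⟩ := exists_M hPC hT hUs hne hDn
  have hQ' : 1 ≤ h * Q := Nat.mul_pos hh hQ
  have h1 := ET_le (U := U) hT hQ' hM
  have h2 : (ET U T Q (h * Q) : ℝ) ≤ ET U T 1 (h * Q) := by exact_mod_cast ET_mono hQ
  refine h2.trans (h1.trans ?_)
  set ρ : ℝ := (R ^ 3 / T) ^ (1 / 4 : ℝ) with hρ
  have hρ0 : 0 ≤ ρ := by (clear * - hne hT; positivity)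
  -- the logarithm
  have hlog : ((Nat.log 2 (h * Q) + 1 : ℕ) : ℝ) ≤ C1 * (h * (X ^ 2) ^ ε1) := by
    have e1 := hdiv (2 ^ Nat.log 2 (h * Q)) (by positivity)
    rw [Nat.divisors_prime_pow Nat.prime_two, Finset.card_map, Finset.card_range] at e1
    refine e1.trans (mul_le_mul_of_nonneg_left ?_ hC10.le)
    have e2 : ((2 ^ Nat.log 2 (h * Q) : ℕ) : ℝ) ≤ h * Q := by
      have : 2 ^ Nat.log 2 (h * Q) ≤ h * Q := Nat.pow_log_le_self 2 (by omega)
      exact_mod_cast this
    refine (Real.rpow_le_rpow (Nat.cast_nonneg _) e2 hε10.le).trans ?_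
    rw [Real.mul_rpow hh0.le hQ0.le]
    refine mul_le_mul ?_ (Real.rpow_le_rpow hQ0.le hQX hε10.le) (by positivity) hh0.le
    have e3 : (1 : ℝ) ≤ h := by exact_mod_cast hh
    calc (h : ℝ) ^ ε1 ≤ (h : ℝ) ^ (1 : ℝ) := Real.rpow_le_rpow_of_exponent_le e3 hε11
      _ = h := Real.rpow_one _
  -- powers of `X`
  have hXX : (X ^ 2) ^ ε1 * ((X ^ 6) ^ ε1) ^ 3 ≤ X ^ ε := by
    have e1 : (X ^ 2) ^ ε1 = X ^ (2 * ε1) := by
      rw [← Real.rpow_natCast, ← Real.rpow_mul hX0.le]
      norm_num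
    have e2 : ((X ^ 6) ^ ε1) ^ 3 = X ^ (18 * ε1) := by
      rw [← Real.rpow_natCast, ← Real.rpow_natCast, ← Real.rpow_mul hX0.le,
        ← Real.rpow_mul hX0.le]
      congr 1
      push_cast
      ring
    rw [e1, e2, ← Real.rpow_add hX0]
    exact Real.rpow_le_rpow_of_exponent_le hX1 (by (clear * - hε20; linarith))
  have hXε : 1 ≤ X ^ ε := Real.one_le_rpow hX1 hε.le
  have hD0 : 0 ≤ D := by positivity
  have t1 : ((Nat.log 2 (h * Q) + 1 : ℕ) : ℝ) * (M * R * ((h * Q : ℕ) : ℝ)) ≤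
      (120 * C1 ^ 4 * h ^ 2) * X ^ ε * (R * Q * (1 + ρ)) := by
    push_cast
    calc ((Nat.log 2 (h * Q) : ℝ) + 1) * (M * R * ((h : ℝ) * Q))
        ≤ (C1 * (h * (X ^ 2) ^ ε1)) * ((120 * D ^ 3 * (1 + ρ)) * R * ((h : ℝ) * Q)) := by
          push_cast at hlog
          have e1 : M * R * ((h : ℝ) * Q) ≤ (120 * D ^ 3 * (1 + ρ)) * R * ((h : ℝ) * Q) := by
            refine mul_le_mul_of_nonneg_right ?_ (by positivity)
            exact mul_le_mul_of_nonneg_right hMle hR0
          calc ((Nat.log 2 (h * Q) : ℝ) + 1) * (M * R * ((h : ℝ) * Q))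
              ≤ ((Nat.log 2 (h * Q) : ℝ) + 1) * ((120 * D ^ 3 * (1 + ρ)) * R * ((h : ℝ) * Q)) :=
                mul_le_mul_of_nonneg_left e1 (by (clear * -; positivity))
            _ ≤ _ := mul_le_mul_of_nonneg_right hlog (by (clear * - hC1 hX hne hT hh hQ; positivity))
      _ = (120 * C1 ^ 4 * h ^ 2) * ((X ^ 2) ^ ε1 * ((X ^ 6) ^ ε1) ^ 3) * (R * Q * (1 + ρ)) := by
          rw [hD]
          ring
      _ ≤ (120 * C1 ^ 4 * h ^ 2) * X ^ ε * (R * Q * (1 + ρ)) := by
          refine mul_le_mul_of_nonneg_right ?_ (by (clear * - hne hQ hT; positivity))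
          exact mul_le_mul_of_nonneg_left hXX (by positivity)
  have t2 : 16 * R ^ 2 * ((h * Q : ℕ) : ℝ) ^ 2 / T ≤ (16 * h ^ 2) * X ^ ε * (R ^ 2 * Q ^ 2 / T) := by
    push_cast
    calc 16 * R ^ 2 * ((h : ℝ) * Q) ^ 2 / T = (16 * h ^ 2) * 1 * (R ^ 2 * Q ^ 2 / T) := by ring
      _ ≤ (16 * h ^ 2) * X ^ ε * (R ^ 2 * Q ^ 2 / T) := by
          refine mul_le_mul_of_nonneg_right ?_ (by (clear * - hne hQ hT; positivity))
          exact mul_le_mul_of_nonneg_left hXε (by positivity)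
  have t3 : 0 ≤ (120 * C1 ^ 4 * h ^ 2) * X ^ ε * (R ^ 2 * Q ^ 2 / T) := by (clear * - hC1 hh hX hne hQ hT; positivity)
  have t4 : 0 ≤ (16 * (h : ℝ) ^ 2) * X ^ ε * (R * Q * (1 + ρ)) := by (clear * - hh hX hne hQ hT; positivity)
  calc ((Nat.log 2 (h * Q) + 1 : ℕ) : ℝ) * (M * R * ((h * Q : ℕ) : ℝ)) +
        16 * R ^ 2 * ((h * Q : ℕ) : ℝ) ^ 2 / T
      ≤ (120 * C1 ^ 4 * h ^ 2) * X ^ ε * (R * Q * (1 + ρ)) +
        (16 * h ^ 2) * X ^ ε * (R ^ 2 * Q ^ 2 / T) := add_le_add t1 t2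
    _ ≤ (120 * C1 ^ 4 * h ^ 2) * X ^ ε * (R * Q * (1 + ρ)) +
        (16 * h ^ 2) * X ^ ε * (R ^ 2 * Q ^ 2 / T) +
        (120 * C1 ^ 4 * h ^ 2) * X ^ ε * (R ^ 2 * Q ^ 2 / T) +
        (16 * (h : ℝ) ^ 2) * X ^ ε * (R * Q * (1 + ρ)) :=
        (le_add_of_nonneg_right t3).trans (le_add_of_nonneg_right t4)
    _ = (120 * C1 ^ 4 * h ^ 2 + 16 * h ^ 2) * X ^ ε * (R * Q * (1 + ρ) + R ^ 2 * Q ^ 2 / T) := by
        ring

end Pool.Agent.M20.Helper71.KC
end

/- Helper53.KN.Helper91.KC.DivBound -/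
section
/-!
# The divisor bound
-/

set_option autoImplicit false

open Finset

namespace Pool.Agent.M20.Helper91.KC

theorem card_divisors_bound (ε : ℝ) (hε : 0 < ε) : ∃ C : ℝ, 1 ≤ C ∧ ∀ n : ℕ, 0 < n →
    (n.divisors.card : ℝ) ≤ C * (n : ℝ) ^ ε := by
  obtain ⟨N0, hN0⟩ := exists_nat_ge ((2 : ℝ) ^ (1 / ε))
  have hl2 : 0 < Real.log 2 := Real.log_pos (by norm_num)
  have hel : 0 < ε * Real.log 2 := mul_pos hε hl2
  obtain ⟨K, hK⟩ : ∃ K : ℝ, K = max 1 (1 / (ε * Real.log 2)) := ⟨_, rfl⟩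
  have hK1 : 1 ≤ K := by rw [hK]; exact le_max_left _ _
  have hK2 : 1 ≤ K * (ε * Real.log 2) := by
    have : 1 / (ε * Real.log 2) ≤ K := by rw [hK]; exact le_max_right _ _
    rwa [div_le_iff₀ hel] at this
  refine ⟨K ^ (N0 + 1), one_le_pow₀ hK1, ?_⟩
  intro n hn
  have key : ∀ p ∈ n.primeFactors, ((n.factorization p + 1 : ℕ) : ℝ) ≤
      (if p ≤ N0 then K else 1) * ((p : ℝ) ^ (n.factorization p)) ^ ε := by
    intro p hp
    have hp2 : (2 : ℝ) ≤ p := by exact_mod_cast (Nat.prime_of_mem_primeFactors hp).two_le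
    set a := n.factorization p with ha
    split_ifs with h
    · have h1 : (1 : ℝ) + a * (ε * Real.log 2) ≤ ((p : ℝ) ^ a) ^ ε := by
        calc (1 : ℝ) + a * (ε * Real.log 2) ≤ Real.exp (a * (ε * Real.log 2)) := by
              have := Real.add_one_le_exp (a * (ε * Real.log 2))
              linarith
          _ = ((2 : ℝ) ^ a) ^ ε := by
              rw [Real.rpow_def_of_pos (by positivity), Real.log_pow]
              congr 1
              ring
          _ ≤ _ := Real.rpow_le_rpow (by positivity) (pow_le_pow_left₀ (by norm_num) hp2 a) hε.le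
      have h2 := mul_le_mul_of_nonneg_left h1 (by linarith : (0 : ℝ) ≤ K)
      push_cast
      have h3 : (a : ℝ) * 1 ≤ a * (K * (ε * Real.log 2)) :=
        mul_le_mul_of_nonneg_left hK2 (Nat.cast_nonneg _)
      nlinarith
    · push Not at h
      have h1 : (2 : ℝ) ≤ (p : ℝ) ^ ε := by
        have h2 : (2 : ℝ) ^ (1 / ε) ≤ p := hN0.trans (by exact_mod_cast h.le)
        have h3 := Real.rpow_le_rpow (by positivity) h2 hε.le
        rwa [← Real.rpow_mul (by norm_num), one_div_mul_cancel hε.ne', Real.rpow_one] at h3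
      rw [one_mul, ← Real.rpow_natCast, ← Real.rpow_mul (by positivity), mul_comm,
        Real.rpow_mul (by positivity), Real.rpow_natCast]
      calc ((a + 1 : ℕ) : ℝ) ≤ (2 : ℝ) ^ a := by exact_mod_cast Nat.succ_le_of_lt (Nat.lt_two_pow_self)
        _ ≤ _ := pow_le_pow_left₀ (by norm_num) h1 a
  calc (n.divisors.card : ℝ) = ∏ p ∈ n.primeFactors, ((n.factorization p + 1 : ℕ) : ℝ) := by
        rw [Nat.card_divisors hn.ne']
        push_cast
        rfl
    _ ≤ ∏ p ∈ n.primeFactors, ((if p ≤ N0 then K else 1) * ((p : ℝ) ^ (n.factorization p)) ^ ε) :=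
        Finset.prod_le_prod (fun _ _ => Nat.cast_nonneg _) key
    _ = (∏ p ∈ n.primeFactors, (if p ≤ N0 then K else 1)) *
        (∏ p ∈ n.primeFactors, ((p : ℝ) ^ (n.factorization p)) ^ ε) := Finset.prod_mul_distrib
    _ = (∏ p ∈ n.primeFactors, (if p ≤ N0 then K else 1)) * (n : ℝ) ^ ε := by
        rw [Real.finsetProd_rpow _ _ (fun i _ => by positivity)]
        congr 2
        have := Nat.prod_factorization_pow_eq_self hn.ne'
        rw [Finsupp.prod, Nat.support_factorization] at this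
        exact_mod_cast this
    _ ≤ K ^ (N0 + 1) * (n : ℝ) ^ ε := by
        apply mul_le_mul_of_nonneg_right _ (by positivity)
        rw [Finset.prod_ite, Finset.prod_const, Finset.prod_const_one, mul_one]
        apply pow_le_pow_right₀ hK1
        calc _ ≤ (range (N0 + 1)).card := by
              apply Finset.card_le_card
              intro p hp
              rw [Finset.mem_filter] at hp
              rw [Finset.mem_range]
              omega
          _ = N0 + 1 := Finset.card_range _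

end Pool.Agent.M20.Helper91.KC
end

/- Helper53.KN.Helper69.EK.Selberg -/
section
/-!
Module F of MP_4e26da_nt: Selberg upper bound sieve weights with sharp main term.
-/

set_option autoImplicit false

namespace Pool.Agent.M20.Helper69.EK

open Finset ArithmeticFunction
open scoped ArithmeticFunction.Moebius ArithmeticFunction.zeta

/-- sum over the numbers with a given set of prime factors -/
theorem claim_rad (P : Finset ℕ) : (∀ p ∈ P, p.Prime) → ∀ N : ℕ,
    ∑ m ∈ (Icc 1 N).filter (fun m => m.primeFactors = P), (1 : ℝ) / m ≤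
      ∏ p ∈ P, (1 : ℝ) / (p - 1) := by
  induction P using Finset.induction_on with
  | empty =>
    intro _ N
    rw [Finset.prod_empty]
    have h1 : (Icc 1 N).filter (fun m => m.primeFactors = ∅) ⊆ {1} := by
      intro m hm
      rw [Finset.mem_filter, Finset.mem_Icc, Nat.primeFactors_eq_empty] at hm
      rw [Finset.mem_singleton]
      omega
    calc ∑ m ∈ (Icc 1 N).filter (fun m => m.primeFactors = ∅), (1 : ℝ) / m
        ≤ ∑ m ∈ ({1} : Finset ℕ), (1 : ℝ) / m :=
          Finset.sum_le_sum_of_subset_of_nonneg h1 (fun _ _ _ => by positivity)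
      _ = 1 := by simp
  | insert p P hp ih =>
    intro hP N
    have hpp : p.Prime := hP p (Finset.mem_insert_self _ _)
    have hP' : ∀ q ∈ P, q.Prime := fun q hq => hP q (Finset.mem_insert_of_mem hq)
    have ih' := ih hP' N
    rw [Finset.prod_insert hp]
    have hp1 : (1 : ℝ) < p := by exact_mod_cast hpp.one_lt
    -- the injection
    set S := (Icc 1 N).filter (fun m => m.primeFactors = insert p P) with hS
    set T := (Icc 1 N).filter (fun m => m.primeFactors = P) with hT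
    have hSm : ∀ m ∈ S, m ≠ 0 ∧ 1 ≤ m.factorization p ∧ m.factorization p ≤ N ∧
        m / p ^ m.factorization p ∈ T := by
      intro m hm
      rw [hS, Finset.mem_filter, Finset.mem_Icc] at hm
      obtain ⟨⟨hm1, hm2⟩, hm3⟩ := hm
      have hm0 : m ≠ 0 := by omega
      have hpm : p ∈ m.primeFactors := by rw [hm3]; exact Finset.mem_insert_self _ _
      have hpd : p ∣ m := Nat.dvd_of_mem_primeFactors hpm
      refine ⟨hm0, (hpp.dvd_iff_one_le_factorization hm0).1 hpd, ?_, ?_⟩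
      · exact ((Nat.factorization_lt p hm0).le).trans hm2
      · rw [hT, Finset.mem_filter, Finset.mem_Icc]
        have hpos : 0 < m / p ^ m.factorization p := Nat.ordCompl_pos p hm0
        refine ⟨⟨hpos, (Nat.div_le_self _ _).trans hm2⟩, ?_⟩
        rw [← Nat.support_factorization, Nat.factorization_ordCompl, Finsupp.support_erase,
          Nat.support_factorization, hm3, Finset.erase_insert hp]
    have hsum : ∑ m ∈ S, (1 : ℝ) / m ≤
        ∑ x ∈ (Icc 1 N) ×ˢ T, (1 : ℝ) / (p : ℝ) ^ x.1 * (1 / x.2) := by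
      have h1 : ∑ m ∈ S, (1 : ℝ) / m = ∑ x ∈ S.image (fun m => (m.factorization p,
          m / p ^ m.factorization p)), (1 : ℝ) / (p : ℝ) ^ x.1 * (1 / (x.2 : ℕ)) := by
        rw [Finset.sum_image]
        · apply Finset.sum_congr rfl
          intro m hm
          have h2 : (m : ℝ) = (p : ℝ) ^ m.factorization p * ((m / p ^ m.factorization p : ℕ) : ℝ) := by
            exact_mod_cast (Nat.ordProj_mul_ordCompl_eq_self m p).symm
          conv_lhs => rw [h2]
          rw [one_div_mul_one_div]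
        · intro m hm m' hm' heq
          obtain ⟨h2, h3⟩ := Prod.mk.inj heq
          rw [← Nat.ordProj_mul_ordCompl_eq_self m p, ← Nat.ordProj_mul_ordCompl_eq_self m' p]
          rw [h3, h2]
      rw [h1]
      apply Finset.sum_le_sum_of_subset_of_nonneg
      · intro x hx
        rw [Finset.mem_image] at hx
        obtain ⟨m, hm, rfl⟩ := hx
        obtain ⟨_, h2, h3, h4⟩ := hSm m hm
        rw [Finset.mem_product, Finset.mem_Icc]
        exact ⟨⟨h2, h3⟩, h4⟩
      · intro x _ _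
        positivity
    rw [Finset.sum_product] at hsum
    simp only at hsum
    rw [← Finset.sum_mul_sum] at hsum
    have hgeo : ∑ k ∈ Icc 1 N, (1 : ℝ) / (p : ℝ) ^ k ≤ 1 / (p - 1) := by
      have h2 : ∀ N : ℕ, ∑ k ∈ Icc 1 N, (1 : ℝ) / (p : ℝ) ^ k = (1 - 1 / (p : ℝ) ^ N) / (p - 1) := by
        intro N
        have hp0 : (p : ℝ) ≠ 0 := by positivity
        have hp1' : (p : ℝ) - 1 ≠ 0 := by linarith
        induction N with
        | zero => simp
        | succ N ihN =>
          rw [Finset.sum_Icc_succ_top (by omega), ihN, pow_succ]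
          field_simp
          ring
      rw [h2]
      apply div_le_div_of_nonneg_right _ (by linarith)
      have : (0 : ℝ) ≤ 1 / (p : ℝ) ^ N := by positivity
      linarith
    calc ∑ m ∈ S, (1 : ℝ) / m ≤ _ := hsum
      _ ≤ 1 / (p - 1) * ∏ p ∈ P, (1 : ℝ) / (p - 1) := by
        apply mul_le_mul hgeo ih' (Finset.sum_nonneg (fun _ _ => by positivity))
        apply div_nonneg zero_le_one; linarith

theorem totient_sqf {l : ℕ} (hl : Squarefree l) :
    (1 : ℝ) / l.totient = ∏ p ∈ l.primeFactors, (1 : ℝ) / (p - 1) := by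
  rw [Nat.totient_eq_div_primeFactors_mul, Nat.prod_primeFactors_of_squarefree hl,
    Nat.div_self (Nat.pos_of_ne_zero hl.ne_zero), one_mul, Finset.prod_div_distrib,
    Finset.prod_const_one]
  congr 1
  push_cast
  apply Finset.prod_congr rfl
  intro p hp
  rw [Nat.cast_sub (Nat.prime_of_mem_primeFactors hp).one_le, Nat.cast_one]

theorem squarefree_prod_primes (P : Finset ℕ) (hP : ∀ p ∈ P, p.Prime) :
    Squarefree (∏ p ∈ P, p) := by
  apply Finset.squarefree_prod_of_pairwise_isCoprime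
  · intro a ha b hb hab
    show IsRelPrime a b
    rw [← Nat.coprime_iff_isRelPrime]
    exact (Nat.coprime_primes (hP a ha) (hP b hb)).2 hab
  · intro p hp
    exact (hP p hp).prime.squarefree

/-- coprime index set -/
noncomputable def AA (D R : ℕ) : Finset ℕ := by
  classical
  exact (Icc 1 R).filter (fun l => Squarefree l ∧ Nat.Coprime l D)

theorem mem_AA {D R l : ℕ} : l ∈ AA D R ↔ (1 ≤ l ∧ l ≤ R) ∧ Squarefree l ∧ Nat.Coprime l D := by
  classical
  unfold AA
  rw [Finset.mem_filter, Finset.mem_Icc]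

noncomputable def GG (D R : ℕ) : ℝ := ∑ l ∈ AA D R, (1 : ℝ) / l.totient

theorem sum_mu (n : ℕ) : ∑ d ∈ n.divisors, (μ d : ℤ) = if n = 1 then 1 else 0 := by
  have h := congrArg (fun f : ArithmeticFunction ℤ => f n) moebius_mul_coe_zeta
  simp only [coe_mul_zeta_apply, one_apply] at h
  exact h

theorem mu_interval {l m : ℕ} (hm : Squarefree m) :
    ∑ d ∈ m.divisors.filter (fun d => l ∣ d), (μ d : ℤ) = if m = l then μ l else 0 := by
  classical
  have hm0 : m ≠ 0 := hm.ne_zero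
  by_cases hl : l ∣ m
  · obtain ⟨e, rfl⟩ := hl
    have hl0 : l ≠ 0 := fun h => hm0 (by rw [h, zero_mul])
    have he0 : e ≠ 0 := fun h => hm0 (by rw [h, mul_zero])
    have hcop : Nat.Coprime l e := Nat.coprime_of_squarefree_mul hm
    have h1 : ∑ d ∈ (l * e).divisors.filter (fun d => l ∣ d), (μ d : ℤ) =
        ∑ f ∈ e.divisors, (μ (l * f) : ℤ) := by
      symm
      apply Finset.sum_bij (fun f _ => l * f)
      · intro f hf
        rw [Nat.mem_divisors] at hf
        rw [Finset.mem_filter, Nat.mem_divisors]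
        exact ⟨⟨Nat.mul_dvd_mul_left l hf.1, hm0⟩, Nat.dvd_mul_right _ _⟩
      · intro f _ f' _ h
        exact Nat.eq_of_mul_eq_mul_left (Nat.pos_of_ne_zero hl0) h
      · intro d hd
        rw [Finset.mem_filter, Nat.mem_divisors] at hd
        obtain ⟨⟨hd1, _⟩, f, rfl⟩ := hd
        exact ⟨f, Nat.mem_divisors.2 ⟨Nat.dvd_of_mul_dvd_mul_left (Nat.pos_of_ne_zero hl0) hd1,
          he0⟩, rfl⟩
      · intro f _
        rfl
    rw [h1]
    have h2 : ∀ f ∈ e.divisors, (μ (l * f) : ℤ) = μ l * μ f := by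
      intro f hf
      rw [Nat.mem_divisors] at hf
      exact isMultiplicative_moebius.map_mul_of_coprime (hcop.coprime_dvd_right hf.1)
    rw [Finset.sum_congr rfl h2, ← Finset.mul_sum, sum_mu]
    by_cases he : e = 1
    · subst he; simp
    · rw [if_neg he, mul_zero, if_neg]
      intro h
      apply he
      exact Nat.eq_of_mul_eq_mul_left (Nat.pos_of_ne_zero hl0) (by rw [h, mul_one])
  · rw [if_neg (fun h => hl (by rw [h])), Finset.sum_eq_zero]
    intro d hd
    rw [Finset.mem_filter, Nat.mem_divisors] at hd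
    exact absurd (hd.2.trans hd.1.1) hl

/-- the weights -/
noncomputable def lamW (D R : ℕ) (d : ℕ) : ℝ := by
  classical
  exact if d ∈ AA D R then (μ d : ℝ) * d / GG D R *
    ∑ m ∈ (AA D R).filter (fun m => d ∣ m), (1 : ℝ) / m.totient else 0

theorem GG_pos (D R : ℕ) (hR : 1 ≤ R) : 0 < GG D R := by
  unfold GG
  apply Finset.sum_pos'
  · intro l _; positivity
  · exact ⟨1, mem_AA.2 ⟨⟨le_refl _, hR⟩, squarefree_one, Nat.coprime_one_left D⟩, by simp⟩

theorem y_eq (D R l : ℕ) (hR : 1 ≤ R) :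
    ∑ d ∈ (Icc 1 R).filter (fun d => l ∣ d), lamW D R d / d =
      if l ∈ AA D R then (μ l : ℝ) / (GG D R * l.totient) else 0 := by
  classical
  have hG := GG_pos D R hR
  -- restrict to AA
  have h1 : ∑ d ∈ (Icc 1 R).filter (fun d => l ∣ d), lamW D R d / d =
      ∑ d ∈ (AA D R).filter (fun d => l ∣ d), (1 / GG D R) * ((μ d : ℝ) *
        ∑ m ∈ (AA D R).filter (fun m => d ∣ m), (1 : ℝ) / m.totient) := by
    symm
    have hsub : (AA D R).filter (fun d => l ∣ d) ⊆ (Icc 1 R).filter (fun d => l ∣ d) := by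
      intro d hd
      rw [Finset.mem_filter, mem_AA] at hd
      rw [Finset.mem_filter, Finset.mem_Icc]
      exact ⟨hd.1.1, hd.2⟩
    rw [← Finset.sum_subset hsub]
    · apply Finset.sum_congr rfl
      intro d hd
      rw [Finset.mem_filter] at hd
      have hd0 : (d : ℝ) ≠ 0 := by
        have := (mem_AA.1 hd.1).1.1
        positivity
      unfold lamW
      rw [if_pos hd.1]
      field_simp
    · intro d hd hd'
      rw [Finset.mem_filter] at hd hd'
      unfold lamW
      rw [if_neg (fun h => hd' ⟨h, hd.2⟩), zero_div]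
  rw [h1, ← Finset.mul_sum]
  have h2 : ∑ d ∈ (AA D R).filter (fun d => l ∣ d), ((μ d : ℝ) *
        ∑ m ∈ (AA D R).filter (fun m => d ∣ m), (1 : ℝ) / m.totient) =
      ∑ m ∈ AA D R, (1 : ℝ) / m.totient * (if m = l then (μ l : ℝ) else 0) := by
    have h3 : ∀ d, ∑ m ∈ (AA D R).filter (fun m => d ∣ m), (1 : ℝ) / m.totient =
        ∑ m ∈ AA D R, if d ∣ m then (1 : ℝ) / m.totient else 0 := fun d => Finset.sum_filter _ _
    simp only [h3, Finset.mul_sum]
    rw [Finset.sum_comm]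
    apply Finset.sum_congr rfl
    intro m hm
    have hmA := mem_AA.1 hm
    have h4 := mu_interval (l := l) hmA.2.1
    have h5 : ((∑ d ∈ m.divisors.filter (fun d => l ∣ d), (μ d : ℤ) : ℤ) : ℝ) =
        if m = l then (μ l : ℝ) else 0 := by
      rw [h4]; push_cast; rfl
    rw [← h5, Int.cast_sum, Finset.mul_sum]
    have h6 : m.divisors.filter (fun d => l ∣ d) =
        ((AA D R).filter (fun d => l ∣ d)).filter (fun d => d ∣ m) := by
      ext d
      rw [Finset.mem_filter, Nat.mem_divisors, Finset.mem_filter, Finset.mem_filter, mem_AA]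
      constructor
      · rintro ⟨⟨hd1, _⟩, hd2⟩
        have hm1 : 0 < m := hmA.1.1
        exact ⟨⟨⟨⟨Nat.pos_of_dvd_of_pos hd1 hm1, (Nat.le_of_dvd hm1 hd1).trans hmA.1.2⟩,
          hmA.2.1.squarefree_of_dvd hd1, hmA.2.2.coprime_dvd_left hd1⟩, hd2⟩, hd1⟩
      · rintro ⟨⟨hd1, hd2⟩, hd3⟩
        exact ⟨⟨hd3, hmA.2.1.ne_zero⟩, hd2⟩
    rw [h6, Finset.sum_filter (p := fun d => d ∣ m)]
    apply Finset.sum_congr rfl
    intro d _
    by_cases hd : d ∣ m
    · rw [if_pos hd, if_pos hd]; ring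
    · rw [if_neg hd, if_neg hd, mul_zero]
  rw [h2]
  by_cases hl : l ∈ AA D R
  · rw [if_pos hl, Finset.sum_eq_single l]
    · rw [if_pos rfl]
      have : (l.totient : ℝ) ≠ 0 := by
        have := Nat.totient_pos.2 (mem_AA.1 hl).1.1
        positivity
      field_simp
    · intro m _ hml
      rw [if_neg hml, mul_zero]
    · intro h; exact absurd hl h
  · rw [if_neg hl, Finset.sum_eq_zero, mul_zero]
    intro m hm
    by_cases hml : m = l
    · subst hml
      exact absurd hm hl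
    · rw [if_neg hml, mul_zero]

end Pool.Agent.M20.Helper69.EK
end

/- Helper53.KN.Helper53.AV.SelW -/
section
/-!
# Selberg's weights: the quadratic form and the bound `|λ_d| ≤ 1`
-/

set_option autoImplicit false

namespace Pool.Agent.M20.Helper53AV

open Finset ArithmeticFunction Pool.Agent.M20.Helper69.EK
open scoped ArithmeticFunction.Moebius ArithmeticFunction.zeta

theorem quad (D R : ℕ) (hR : 1 ≤ R) :
    ∑ d₁ ∈ Finset.Icc 1 R, ∑ d₂ ∈ Finset.Icc 1 R, lamW D R d₁ * lamW D R d₂ / (Nat.lcm d₁ d₂ : ℝ) =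
      1 / GG D R := by
  classical
  have hG := GG_pos D R hR
  have hlcm : ∀ d₁ ∈ Icc 1 R, ∀ d₂ ∈ Icc 1 R,
      lamW D R d₁ * lamW D R d₂ / (Nat.lcm d₁ d₂ : ℝ) =
      ∑ l ∈ Icc 1 R, (l.totient : ℝ) * ((if l ∣ d₁ then lamW D R d₁ / d₁ else 0) *
        (if l ∣ d₂ then lamW D R d₂ / d₂ else 0)) := by
    intro d₁ h₁ d₂ h₂
    rw [Finset.mem_Icc] at h₁ h₂
    have e1 : (d₁ : ℝ) ≠ 0 := by have := h₁.1; positivity
    have e2 : (d₂ : ℝ) ≠ 0 := by have := h₂.1; positivity
    have hgcd : ((d₁.gcd d₂ : ℕ) : ℝ) = ∑ l ∈ Icc 1 R,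
        if l ∣ d₁ ∧ l ∣ d₂ then (l.totient : ℝ) else 0 := by
      rw [← Finset.sum_filter]
      conv_lhs => rw [← Nat.sum_totient (d₁.gcd d₂)]
      rw [Nat.cast_sum]
      apply Finset.sum_congr _ (fun _ _ => rfl)
      ext l
      have hgpos : 0 < d₁.gcd d₂ := Nat.gcd_pos_of_pos_left _ (by omega)
      rw [Nat.mem_divisors, Finset.mem_filter, Finset.mem_Icc, Nat.dvd_gcd_iff]
      constructor
      · rintro ⟨h, _⟩
        exact ⟨⟨Nat.pos_of_dvd_of_pos h.1 (by omega), (Nat.le_of_dvd (by omega) h.1).trans h₁.2⟩,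
          h⟩
      · rintro ⟨_, h⟩
        exact ⟨h, hgpos.ne'⟩
    have hl : (Nat.lcm d₁ d₂ : ℝ) = d₁ * d₂ / (d₁.gcd d₂ : ℕ) := by
      have hg0 : ((d₁.gcd d₂ : ℕ) : ℝ) ≠ 0 := by
        have : 0 < d₁.gcd d₂ := Nat.gcd_pos_of_pos_left _ (by omega)
        positivity
      rw [eq_div_iff hg0]
      have := Nat.gcd_mul_lcm d₁ d₂
      rw [mul_comm]
      exact_mod_cast this
    rw [hl, div_div_eq_mul_div, hgcd, Finset.mul_sum, Finset.sum_div]
    apply Finset.sum_congr rfl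
    intro l _
    by_cases c1 : l ∣ d₁
    · by_cases c2 : l ∣ d₂
      · rw [if_pos ⟨c1, c2⟩, if_pos c1, if_pos c2]
        field_simp
      · rw [if_neg (fun h => c2 h.2), if_neg c2]
        simp
    · rw [if_neg (fun h => c1 h.1), if_neg c1]
      simp
  rw [Finset.sum_congr rfl (fun d₁ h₁ => Finset.sum_congr rfl (fun d₂ h₂ => hlcm d₁ h₁ d₂ h₂))]
  have hswap : ∑ d₁ ∈ Icc 1 R, ∑ d₂ ∈ Icc 1 R, ∑ l ∈ Icc 1 R, (l.totient : ℝ) *
      ((if l ∣ d₁ then lamW D R d₁ / d₁ else 0) * (if l ∣ d₂ then lamW D R d₂ / d₂ else 0)) =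
      ∑ l ∈ Icc 1 R, (l.totient : ℝ) *
        (∑ d ∈ (Icc 1 R).filter (fun d => l ∣ d), lamW D R d / d) ^ 2 := by
    have h1 : ∀ d₁ ∈ Icc 1 R, ∑ d₂ ∈ Icc 1 R, ∑ l ∈ Icc 1 R, (l.totient : ℝ) *
      ((if l ∣ d₁ then lamW D R d₁ / d₁ else 0) * (if l ∣ d₂ then lamW D R d₂ / d₂ else 0)) =
        ∑ l ∈ Icc 1 R, ∑ d₂ ∈ Icc 1 R, (l.totient : ℝ) *
      ((if l ∣ d₁ then lamW D R d₁ / d₁ else 0) * (if l ∣ d₂ then lamW D R d₂ / d₂ else 0)) :=
      fun d₁ _ => Finset.sum_comm
    rw [Finset.sum_congr rfl h1, Finset.sum_comm]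
    apply Finset.sum_congr rfl
    intro l _
    rw [Finset.sum_filter, sq, Finset.sum_mul_sum, Finset.mul_sum]
    apply Finset.sum_congr rfl
    intro d₁ _
    rw [Finset.mul_sum]
  rw [hswap]
  simp only [y_eq D R _ hR]
  have hfin : ∑ l ∈ Icc 1 R, (l.totient : ℝ) *
      (if l ∈ AA D R then (μ l : ℝ) / (GG D R * l.totient) else 0) ^ 2 = 1 / GG D R := by
    have hsub : AA D R ⊆ Icc 1 R := by
      intro l hl
      rw [Finset.mem_Icc]
      exact (mem_AA.1 hl).1
    rw [← Finset.sum_subset hsub]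
    · have h1 : ∀ l ∈ AA D R, (l.totient : ℝ) *
          (if l ∈ AA D R then (μ l : ℝ) / (GG D R * l.totient) else 0) ^ 2 =
          (1 / GG D R ^ 2) * (1 / l.totient) := by
        intro l hl
        rw [if_pos hl]
        have hA := mem_AA.1 hl
        have h2 : ((μ l : ℤ) : ℝ) ^ 2 = 1 := by
          have := moebius_sq_eq_one_of_squarefree hA.2.1
          exact_mod_cast this
        have h3 : (l.totient : ℝ) ≠ 0 := by
          have := Nat.totient_pos.2 hA.1.1
          positivity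
        rw [div_pow, h2]
        field_simp
      rw [Finset.sum_congr rfl h1, ← Finset.mul_sum]
      change 1 / GG D R ^ 2 * GG D R = 1 / GG D R
      field_simp
    · intro l _ hl
      rw [if_neg hl]
      simp
  rw [hfin]

theorem sum_inv_totient {d : ℕ} (hd : Squarefree d) :
    ∑ k ∈ d.divisors, (1 : ℝ) / k.totient = d / d.totient := by
  have hd0 : d ≠ 0 := hd.ne_zero
  have hphi : (0 : ℝ) < d.totient := by exact_mod_cast Nat.totient_pos.2 (Nat.pos_of_ne_zero hd0)
  rw [eq_div_iff hphi.ne', Finset.sum_mul]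
  have h : ∀ k ∈ d.divisors, (1 : ℝ) / k.totient * d.totient = (d / k).totient := by
    intro k hk
    rw [Nat.mem_divisors] at hk
    obtain ⟨e, rfl⟩ := hk.1
    have hk0 : 0 < k := Nat.pos_of_ne_zero (fun h => hd0 (by rw [h, zero_mul]))
    have hcop : Nat.Coprime k e := Nat.coprime_of_squarefree_mul hd
    rw [Nat.totient_mul hcop, Nat.mul_div_cancel_left _ hk0]
    have : (k.totient : ℝ) ≠ 0 := by
      have := Nat.totient_pos.2 hk0
      positivity
    push_cast
    field_simp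
  rw [Finset.sum_congr rfl h, ← Nat.cast_sum, Nat.sum_div_divisors d (fun k => k.totient),
    Nat.sum_totient]

theorem key_le {D R d : ℕ} (hd : d ∈ AA D R) :
    (d : ℝ) * ∑ m ∈ (AA D R).filter (fun m => d ∣ m), (1 : ℝ) / m.totient ≤ GG D R := by
  classical
  have hA := mem_AA.1 hd
  have hd1 : 0 < d := hA.1.1
  have hphi : (d.totient : ℝ) ≠ 0 := by
    have := Nat.totient_pos.2 hd1
    positivity
  have h1 : ∀ m ∈ (AA D R).filter (fun m => d ∣ m),
      (1 : ℝ) / m.totient = 1 / d.totient * (1 / (m / d).totient) ∧ Nat.Coprime (m / d) d ∧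
        m / d * d = m ∧ 0 < m := by
    intro m hm
    rw [Finset.mem_filter, mem_AA] at hm
    obtain ⟨⟨⟨hm1, hm2⟩, hm3, hm4⟩, e, rfl⟩ := hm
    have hcop : Nat.Coprime d e := Nat.coprime_of_squarefree_mul hm3
    rw [Nat.mul_div_cancel_left _ hd1]
    refine ⟨?_, hcop.symm, mul_comm _ _, hm1⟩
    rw [Nat.totient_mul hcop, Nat.cast_mul, one_div_mul_one_div]
  rw [Finset.sum_congr rfl (fun m hm => (h1 m hm).1), ← Finset.mul_sum, ← mul_assoc,
    mul_one_div, ← sum_inv_totient hA.2.1, Finset.sum_mul_sum, ← Finset.sum_product']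
  have hinj : Set.InjOn (fun x : ℕ × ℕ => x.1 * (x.2 / d))
      (d.divisors ×ˢ (AA D R).filter (fun m => d ∣ m) : Finset (ℕ × ℕ)) := by
    rintro ⟨k, m⟩ hx ⟨k', m'⟩ hx' heq
    rw [Finset.coe_product, Set.mem_prod, Finset.mem_coe, Finset.mem_coe] at hx hx'
    simp only at heq hx hx'
    obtain ⟨-, hc, he, -⟩ := h1 m hx.2
    obtain ⟨-, hc', he', -⟩ := h1 m' hx'.2
    have hk := Nat.dvd_of_mem_divisors hx.1
    have hk' := Nat.dvd_of_mem_divisors hx'.1
    have g1 : (k * (m / d)).gcd d = k := by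
      rw [Nat.Coprime.gcd_mul_right_cancel k hc]
      exact Nat.gcd_eq_left hk
    have g2 : (k' * (m' / d)).gcd d = k' := by
      rw [Nat.Coprime.gcd_mul_right_cancel k' hc']
      exact Nat.gcd_eq_left hk'
    have hkk : k = k' := by rw [← g1, ← g2, heq]
    subst hkk
    have hk0 : 0 < k := Nat.pos_of_dvd_of_pos hk hd1
    have := Nat.eq_of_mul_eq_mul_left hk0 heq
    rw [← he, ← he', this]
  have h2 : ∑ x ∈ d.divisors ×ˢ (AA D R).filter (fun m => d ∣ m),
      (1 : ℝ) / (x.1.totient : ℝ) * (1 / ((x.2 / d).totient : ℝ)) =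
      ∑ l ∈ (d.divisors ×ˢ (AA D R).filter (fun m => d ∣ m)).image
        (fun x : ℕ × ℕ => x.1 * (x.2 / d)), (1 : ℝ) / l.totient := by
    rw [Finset.sum_image hinj]
    apply Finset.sum_congr rfl
    rintro ⟨k, m⟩ hx
    rw [Finset.mem_product] at hx
    obtain ⟨-, hc, he, -⟩ := h1 m hx.2
    have hk := Nat.dvd_of_mem_divisors hx.1
    rw [Nat.totient_mul (hc.coprime_dvd_right hk).symm, Nat.cast_mul, one_div_mul_one_div]
  rw [h2]
  apply Finset.sum_le_sum_of_subset_of_nonneg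
  · intro l hl
    rw [Finset.mem_image] at hl
    obtain ⟨⟨k, m⟩, hx, rfl⟩ := hl
    rw [Finset.mem_product] at hx
    obtain ⟨-, hc, he, hm0⟩ := h1 m hx.2
    have hk := Nat.dvd_of_mem_divisors hx.1
    have hm := mem_AA.1 (Finset.mem_filter.1 hx.2).1
    have hdv : k * (m / d) ∣ m := by
      conv_rhs => rw [← he, mul_comm]
      exact Nat.mul_dvd_mul_right hk _
    rw [mem_AA]
    exact ⟨⟨Nat.pos_of_dvd_of_pos hdv hm0, (Nat.le_of_dvd hm0 hdv).trans hm.1.2⟩,
      hm.2.1.squarefree_of_dvd hdv, hm.2.2.coprime_dvd_left hdv⟩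
  · intro _ _ _; positivity

theorem abs_lamW_le (D R d : ℕ) (hR : 1 ≤ R) : |lamW D R d| ≤ 1 := by
  classical
  have hG := GG_pos D R hR
  unfold lamW
  by_cases h : d ∈ AA D R
  · rw [if_pos h]
    have h1 : |(μ d : ℝ)| ≤ 1 := by
      have := abs_moebius_le_one (n := d)
      exact_mod_cast this
    have h2 := key_le h
    have h3 : 0 ≤ ∑ m ∈ (AA D R).filter (fun m => d ∣ m), (1 : ℝ) / m.totient :=
      Finset.sum_nonneg (fun _ _ => by positivity)
    have e : (μ d : ℝ) * d / GG D R * ∑ m ∈ (AA D R).filter (fun m => d ∣ m), (1 : ℝ) / m.totient =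
        (μ d : ℝ) * ((d * ∑ m ∈ (AA D R).filter (fun m => d ∣ m), (1 : ℝ) / m.totient) / GG D R) := by
      ring
    rw [e, abs_mul]
    have h4 : |(d * ∑ m ∈ (AA D R).filter (fun m => d ∣ m), (1 : ℝ) / m.totient) / GG D R| ≤ 1 := by
      rw [abs_of_nonneg (by positivity), div_le_one hG]
      exact h2
    calc _ ≤ (1 : ℝ) * 1 := mul_le_mul h1 h4 (abs_nonneg _) zero_le_one
      _ = 1 := one_mul 1
  · rw [if_neg h, abs_zero]; exact zero_le_one

theorem lamW_one (D R : ℕ) (hR : 1 ≤ R) : lamW D R 1 = 1 := by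
  classical
  have hG := GG_pos D R hR
  unfold lamW
  rw [if_pos (mem_AA.2 ⟨⟨le_refl _, by omega⟩, squarefree_one, Nat.coprime_one_left D⟩)]
  have : ∑ m ∈ (AA D R).filter (fun m => 1 ∣ m), (1 : ℝ) / m.totient = GG D R := by
    unfold GG
    apply Finset.sum_congr _ (fun _ _ => rfl)
    simp
  rw [this]
  simp only [moebius_apply_one, Nat.cast_one, mul_one]
  push_cast
  field_simp

theorem lamW_ne {D R d : ℕ} (hd : lamW D R d ≠ 0) : d ∈ AA D R := by
  unfold lamW at hd
  by_contra h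
  rw [if_neg h] at hd
  exact hd rfl

end Pool.Agent.M20.Helper53AV
end

/- Helper53.KN.Helper73.KC.LSum -/
section
/-! KC-8, part 3: mean values of exponential sums over zeros at well spaced real points, and the decomposition of
pairs `(n, n')` according to their reduced fraction. -/

set_option autoImplicit false
open MeasureTheory Complex

namespace Pool.Agent.M20.Helper73.KC

open Pool.Agent.M20.Helper60.KS (Spaced1 InStrip EZ)

/-- large sieve at well spaced real points -/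
theorem lsum (h13 : Pool.Agent.M20.Helper10.KSZ.A13) : ∃ C : ℝ, 0 < C ∧ ∀ (ι : Type) (S : Finset ι)
    (ω : ι → ℝ) (Y : Finset ℝ) (L Ω δ : ℝ), 1 ≤ L → 1 ≤ Ω → 0 < δ → (∀ j ∈ S, |ω j| ≤ Ω) →
    (∀ y ∈ Y, |y| ≤ L) → (∀ y ∈ Y, ∀ y' ∈ Y, y ≠ y' → δ ≤ |y - y'|) →
    ∑ y ∈ Y, ‖∑ j ∈ S, cexp (I * ω j * y)‖ ^ 2 ≤
      C * L * (Ω + 1 / δ) * (((S ×ˢ S).filter (fun p => |ω p.1 - ω p.2| ≤ 1)).card : ℝ) := by
  classical
  obtain ⟨C, hC, h⟩ := h13
  refine ⟨6 * C * Real.exp 2, by (clear * - hC; positivity), fun ι S ω Y L Ω δ hL hΩ hδ hω hY hsp => ?_⟩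
  exact by
    set r : ℝ := 1 / (Ω + 3 / δ) with hr
    have hden : 0 < Ω + 3 / δ := by (clear * - hΩ hδ; positivity)
    have hr0 : 0 < r := by rw [hr]; positivity
    have hr1 : r * Ω ≤ 1 := by
      rw [hr, one_div, inv_mul_le_iff₀ hden]
      have : 0 < 3 / δ := by positivity
      (clear * - this; linarith)
    have hr1' : r ≤ 1 := by (clear * - hr1 hΩ hr0; nlinarith)
    have hr2 : 2 * r < δ := by
      have h1 : r < 1 / (3 / δ) := by
        rw [hr]
        exact one_div_lt_one_div_of_lt (by positivity) (by (clear * - hΩ; linarith))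
      rw [one_div_div] at h1
      (clear * - hr0 h1; linarith)
    exact by
      set N : ℝ := (((S ×ˢ S).filter (fun p => |ω p.1 - ω p.2| ≤ 1)).card : ℝ) with hN
      have h1 := h ι S (fun _ => 1) ω (Y.image (fun y : ℝ => I * (y : ℂ))) r 0 0 L (Real.exp 2 * N) hr0 hr1'
        le_rfl hL ?_ ?_ ?_
      · have hinj : Set.InjOn (fun y : ℝ => I * (y : ℂ)) (Y : Set ℝ) := by
          intro x _ y _ hxy
          have := mul_left_cancel₀ Complex.I_ne_zero hxy
          exact_mod_cast this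
        exact by
          rw [Finset.sum_image hinj] at h1
          have h2 : ∀ y : ℝ, ‖∑ j ∈ S, (1 : ℂ) * cexp ((ω j : ℂ) * (I * (y : ℂ)))‖ ^ 2 =
              ‖∑ j ∈ S, cexp (I * ω j * y)‖ ^ 2 := by
            intro y
            congr 2
            refine Finset.sum_congr rfl fun j _ => ?_
            rw [one_mul]
            congr 1
            ring
          simp only [h2] at h1
          refine h1.trans ?_
          have h3 : (0 - 0 + 2 * r) / r ^ 2 = 2 / r := by
            field_simp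
            ring
          rw [h3]
          have h4 : 2 / r = 2 * (Ω + 3 / δ) := by
            rw [hr]
            field_simp
          rw [h4]
          have h5 : 2 * (Ω + 3 / δ) ≤ 6 * (Ω + 1 / δ) := by
            have : 3 / δ = 3 * (1 / δ) := by ring
            rw [this]
            have : 0 < 1 / δ := by positivity
            (clear * - hΩ; linarith)
          have hN0 : 0 ≤ N := by (clear * -; positivity)
          calc C * (2 * (Ω + 3 / δ)) * L * (Real.exp 2 * N) ≤ C * (6 * (Ω + 1 / δ)) * L * (Real.exp 2 * N) := by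
                have hL0 : 0 ≤ L := by (clear * - hL; linarith)
                (clear * - h5 hC hL; gcongr)
            _ = _ := by ring
      · intro z hz w hw hzw
        obtain ⟨x, hx, rfl⟩ := Finset.mem_image.1 hz
        obtain ⟨y, hy, rfl⟩ := Finset.mem_image.1 hw
        have hxy : x ≠ y := by
          rintro rfl
          exact hzw rfl
        have h3 := hsp x hx y hy hxy
        rw [Complex.dist_eq, ← mul_sub, norm_mul, Complex.norm_I, one_mul, ← Complex.ofReal_sub,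
          Complex.norm_real, Real.norm_eq_abs]
        linarith
      · intro z hz
        obtain ⟨x, hx, rfl⟩ := Finset.mem_image.1 hz
        have := hY x hx
        simp [this]
      · intro σ hs1 hs2
        have hs : |σ| ≤ r := by
          rw [abs_le]
          constructor <;> linarith
        have h3 : ∀ j ∈ S, ∀ k ∈ S, (if |ω j - ω k| ≤ 1 / L then
            ‖(1 : ℂ)‖ * ‖(1 : ℂ)‖ * Real.exp (σ * (ω j + ω k)) else 0) ≤
            Real.exp 2 * (if |ω j - ω k| ≤ 1 then 1 else 0) := by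
          intro j hj k hk
          by_cases hjk : |ω j - ω k| ≤ 1 / L
          · have hjk' : |ω j - ω k| ≤ 1 := hjk.trans (by
              rw [div_le_one (by (clear * - hL; linarith))]
              exact hL)
            rw [if_pos hjk, if_pos hjk', norm_one, one_mul, one_mul, mul_one, Real.exp_le_exp]
            have h4 : |ω j + ω k| ≤ 2 * Ω := by
              refine (abs_add_le _ _).trans ?_
              (clear * - hω hj hk; linarith [hω j hj, hω k hk])
            calc σ * (ω j + ω k) ≤ |σ * (ω j + ω k)| := le_abs_self _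
              _ = |σ| * |ω j + ω k| := abs_mul _ _
              _ ≤ r * (2 * Ω) := mul_le_mul hs h4 (abs_nonneg _) hr0.le
              _ ≤ 2 := by (clear * - hr1; nlinarith)
          · rw [if_neg hjk]
            have := Real.exp_pos 2
            split_ifs <;> simp [this.le]
        calc ∑ j ∈ S, ∑ k ∈ S, (if |ω j - ω k| ≤ 1 / L then
            ‖(1 : ℂ)‖ * ‖(1 : ℂ)‖ * Real.exp (σ * (ω j + ω k)) else 0) ≤
            ∑ j ∈ S, ∑ k ∈ S, Real.exp 2 * (if |ω j - ω k| ≤ 1 then 1 else 0) :=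
              Finset.sum_le_sum fun j hj => Finset.sum_le_sum fun k hk => h3 j hj k hk
          _ = Real.exp 2 * N := by
              simp only [← Finset.mul_sum]
              congr 1
              rw [hN, Finset.card_filter]
              push_cast
              rw [Finset.sum_product]

/-- a spaced set has at most three points at distance at most one from a given one -/
lemma near_card {Z : Finset ℂ} (hsp : Spaced1 Z) (x : ℝ) :
    (Z.filter (fun ρ => |x - ρ.im| ≤ 1)).card ≤ 3 := by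
  classical
  have h1 : (Z.filter (fun ρ => |x - ρ.im| ≤ 1)).card ≤ (Finset.Icc (⌊x⌋ - 1) (⌊x⌋ + 1)).card := by
    refine Finset.card_le_card_of_injOn (fun ρ => ⌊ρ.im⌋) ?_ ?_
    · intro ρ hρ
      have h2 := (Finset.mem_filter.1 (by exact_mod_cast hρ)).2
      rw [abs_le] at h2
      simp only [Finset.coe_Icc, Set.mem_Icc]
      constructor
      · rw [Int.le_floor]
        push_cast
        (clear * - h2; linarith [Int.floor_le x, h2.2])
      · have h3 : ⌊ρ.im⌋ ≤ ⌊x + 1⌋ := Int.floor_le_floor (by (clear * - h2; linarith [h2.1]))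
        simpa using h3
    · intro ρ hρ ρ' hρ' heq
      by_contra hne
      have h2 := (Finset.mem_filter.1 (by exact_mod_cast hρ)).1
      have h3 := (Finset.mem_filter.1 (by exact_mod_cast hρ')).1
      have h4 := hsp ρ h2 ρ' h3 hne
      have h5 := Int.abs_sub_lt_one_of_floor_eq_floor heq
      linarith
  refine h1.trans (le_of_eq ?_)
  rw [Int.card_Icc]
  have : ⌊x⌋ + 1 + 1 - (⌊x⌋ - 1) = 3 := by ring
  rw [this]
  rfl

lemma pair_card {Z : Finset ℂ} (hsp : Spaced1 Z) :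
    ((Z ×ˢ Z).filter (fun p => |p.1.im - p.2.im| ≤ 1)).card ≤ 3 * Z.card := by
  classical
  rw [Finset.card_filter, Finset.sum_product]
  calc ∑ x ∈ Z, ∑ y ∈ Z, (if |x.im - y.im| ≤ 1 then 1 else 0) ≤ ∑ x ∈ Z, 3 := by
        refine Finset.sum_le_sum fun x _ => ?_
        rw [← Finset.card_filter]
        exact near_card hsp x.im
    _ = 3 * Z.card := by simp [mul_comm]

/-- the sum over the heights -/
noncomputable def WW (Z : Finset ℂ) (y : ℝ) : ℂ := ∑ ρ ∈ Z, cexp (I * (ρ.im : ℝ) * y)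

lemma norm_WW_le (Z : Finset ℂ) (y : ℝ) : ‖WW Z y‖ ≤ Z.card := by
  unfold WW
  refine (norm_sum_le _ _).trans ?_
  have : ∀ ρ ∈ Z, ‖cexp (I * (ρ.im : ℝ) * y)‖ = 1 := by
    intro ρ _
    rw [Complex.norm_exp]
    simp
  rw [Finset.sum_congr rfl this]
  simp

lemma WW_sq (Z : Finset ℂ) (y : ℝ) : WW Z y ^ 2 =
    ∑ p ∈ Z ×ˢ Z, cexp (I * ((p.1.im + p.2.im : ℝ) : ℂ) * y) := by
  unfold WW
  rw [sq, Finset.sum_mul_sum, Finset.sum_product]
  refine Finset.sum_congr rfl fun x _ => Finset.sum_congr rfl fun z _ => ?_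
  rw [← Complex.exp_add]
  congr 1
  push_cast
  ring

/-- second and fourth moments, the main estimate at one scale -/
theorem third_moment (h13 : Pool.Agent.M20.Helper10.KSZ.A13) : ∃ C : ℝ, 0 < C ∧ ∀ (Z : Finset ℂ)
    (Y : Finset ℝ) (L T : ℝ) (i : ℕ), 1 ≤ L → 1 ≤ T → (∀ ρ ∈ Z, |ρ.im| ≤ T) → Spaced1 Z →
    (∀ y ∈ Y, |y| ≤ L) → (∀ y ∈ Y, ∀ y' ∈ Y, y ≠ y' → 1 / (4 * 4 ^ i : ℝ) ≤ |y - y'|) →
    (Y.card : ℝ) ≤ 4 * 4 ^ i →
    ∑ y ∈ Y, ‖WW Z y‖ ^ 3 ≤ C * L * (4 ^ i * Real.sqrt (Z.card * EZ Z) +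
      2 ^ i * Z.card * Real.sqrt (T * EZ Z)) := by
  classical
  obtain ⟨C, hC, h⟩ := lsum h13
  refine ⟨24 * (1 + C), by positivity, fun Z Y L T i hL hT hZ hsp hYL hYs hYc => ?_⟩
  exact by
    set n : ℝ := (Z.card : ℝ) with hn
    set E : ℝ := (EZ Z : ℝ) with hE
    have hn0 : 0 ≤ n := by (clear * -; positivity)
    have hE0 : 0 ≤ E := by positivity
    have hL0 : 0 ≤ L := by linarith
    set A : ℝ := (4 : ℝ) ^ i with hA
    have hA1 : 1 ≤ A := one_le_pow₀ (by norm_num)
    have hδ : (0 : ℝ) < 1 / (4 * A) := by positivity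
    -- second moment
    exact by
      have hS2 : ∑ y ∈ Y, ‖WW Z y‖ ^ 2 ≤ C * L * (T + 4 * A) * (3 * n) := by
        have h1 := h ℂ Z (fun ρ => ρ.im) Y L T (1 / (4 * A)) hL hT hδ hZ hYL hYs
        rw [one_div_one_div] at h1
        refine h1.trans ?_
        refine mul_le_mul_of_nonneg_left ?_ (by positivity)
        rw [hn]
        exact_mod_cast pair_card hsp
      have hS2' : ∑ y ∈ Y, ‖WW Z y‖ ^ 2 ≤ 4 * A * n ^ 2 := by
        calc ∑ y ∈ Y, ‖WW Z y‖ ^ 2 ≤ ∑ y ∈ Y, n ^ 2 :=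
              Finset.sum_le_sum fun y _ => pow_le_pow_left₀ (norm_nonneg _) (norm_WW_le Z y) 2
          _ = Y.card * n ^ 2 := by rw [Finset.sum_const, nsmul_eq_mul]
          _ ≤ 4 * A * n ^ 2 := mul_le_mul_of_nonneg_right hYc (by (clear * -; positivity))
      -- fourth moment
      have hS4 : ∑ y ∈ Y, (‖WW Z y‖ ^ 2) ^ 2 ≤ C * L * (2 * T + 4 * A) * E := by
        have h1 := h (ℂ × ℂ) (Z ×ˢ Z) (fun p => p.1.im + p.2.im) Y L (2 * T) (1 / (4 * A)) hL
          (by linarith) hδ ?_ hYL hYs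
        · rw [one_div_one_div] at h1
          have h2 : ∀ y : ℝ, ‖∑ j ∈ Z ×ˢ Z, cexp (I * ((j.1.im + j.2.im : ℝ) : ℂ) * y)‖ ^ 2 =
              (‖WW Z y‖ ^ 2) ^ 2 := by
            intro y
            rw [← WW_sq, norm_pow]
          simp only [h2] at h1
          refine h1.trans (le_of_eq ?_)
          congr 1
          rw [hE, EZ]
          congr 2
          refine Finset.filter_congr fun p _ => ?_
          rw [show p.1.1.im + p.1.2.im - (p.2.1.im + p.2.2.im) =
            p.1.1.im + p.1.2.im - p.2.1.im - p.2.2.im by ring]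
        · intro p hp
          rw [Finset.mem_product] at hp
          refine (abs_add_le _ _).trans ?_
          (clear * - hZ hp; linarith [hZ _ hp.1, hZ _ hp.2])
      -- Cauchy-Schwarz
      have hCS : (∑ y ∈ Y, ‖WW Z y‖ ^ 3) ^ 2 ≤ (∑ y ∈ Y, ‖WW Z y‖ ^ 2) * ∑ y ∈ Y, (‖WW Z y‖ ^ 2) ^ 2 := by
        have h1 := Finset.sum_mul_sq_le_sq_mul_sq Y (fun y => ‖WW Z y‖) (fun y => ‖WW Z y‖ ^ 2)
        refine le_trans (le_of_eq ?_) h1
        congr 1
        refine Finset.sum_congr rfl fun y _ => ?_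
        ring
      have hS4n : 0 ≤ ∑ y ∈ Y, (‖WW Z y‖ ^ 2) ^ 2 := Finset.sum_nonneg fun y _ => by (clear * -; positivity)
      have hS2n : 0 ≤ ∑ y ∈ Y, ‖WW Z y‖ ^ 2 := Finset.sum_nonneg fun y _ => by (clear * -; positivity)
      exact by
        have hpow : (2 : ℝ) ^ i * 2 ^ i = A := by
          rw [hA, ← mul_pow]; norm_num
        have hpos2 : (0 : ℝ) < 2 ^ i := by positivity
        have hterm1 : 0 ≤ A * Real.sqrt (n * E) := by (clear * -; positivity)
        have hterm2 : 0 ≤ 2 ^ i * n * Real.sqrt (T * E) := by (clear * -; positivity)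
        have hK0 : 0 ≤ 24 * (1 + C) * L := by positivity
        by_cases hTA : T ≤ A
        · -- large scale
          have h1 : (∑ y ∈ Y, ‖WW Z y‖ ^ 3) ^ 2 ≤ (24 * (1 + C) * L * (A * Real.sqrt (n * E))) ^ 2 := by
            refine hCS.trans ?_
            calc (∑ y ∈ Y, ‖WW Z y‖ ^ 2) * ∑ y ∈ Y, (‖WW Z y‖ ^ 2) ^ 2 ≤
                (C * L * (5 * A) * (3 * n)) * (C * L * (6 * A) * E) := by
                  refine mul_le_mul (hS2.trans ?_) (hS4.trans ?_) hS4n (by (clear * - hC hL; positivity))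
                  · gcongr
                    (clear * - hTA; linarith)
                  · gcongr
                    (clear * - hTA; linarith)
              _ = (C ^ 2 * 90) * (L ^ 2 * A ^ 2 * (n * E)) := by ring
              _ ≤ (576 * (1 + C) ^ 2) * (L ^ 2 * A ^ 2 * (n * E)) := by
                  refine mul_le_mul_of_nonneg_right ?_ (by (clear * - hL; positivity))
                  (clear * - hC; nlinarith)
              _ = (24 * (1 + C) * L * (A * Real.sqrt (n * E))) ^ 2 := by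
                  rw [mul_pow, mul_pow, mul_pow A, Real.sq_sqrt (by (clear * -; positivity))]
                  ring
          have h2 := abs_le_of_sq_le_sq h1 (by (clear * - hC hL; positivity))
          refine (le_abs_self _).trans (h2.trans ?_)
          refine mul_le_mul_of_nonneg_left ?_ hK0
          (clear * - hterm2; linarith)
        exact by
          · push Not at hTA
            exact by
              have h1 : (∑ y ∈ Y, ‖WW Z y‖ ^ 3) ^ 2 ≤ (24 * (1 + C) * L * (2 ^ i * n * Real.sqrt (T * E))) ^ 2 := by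
                refine hCS.trans ?_
                calc (∑ y ∈ Y, ‖WW Z y‖ ^ 2) * ∑ y ∈ Y, (‖WW Z y‖ ^ 2) ^ 2 ≤
                    (4 * A * n ^ 2) * (C * L * (6 * T) * E) := by
                      refine mul_le_mul hS2' (hS4.trans ?_) hS4n (by (clear * -; positivity))
                      gcongr
                      linarith
                  _ = (24 * C * L) * (A * n ^ 2 * (T * E)) := by ring
                  _ ≤ (24 * (1 + C) * L) ^ 2 * (A * n ^ 2 * (T * E)) := by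
                      refine mul_le_mul_of_nonneg_right ?_ (by (clear * - hT; positivity))
                      have h3 : 1 ≤ 24 * (1 + C) * L := by (clear * - hC hL; nlinarith)
                      have h4 : 24 * C * L ≤ 24 * (1 + C) * L := by (clear * - hL; nlinarith)
                      (clear * - hL hK0 h3; nlinarith)
                  _ = (24 * (1 + C) * L * (2 ^ i * n * Real.sqrt (T * E))) ^ 2 := by
                      have hs : Real.sqrt (T * E) ^ 2 = T * E := Real.sq_sqrt (by positivity)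
                      have h5 : (24 * (1 + C) * L * (2 ^ i * n * Real.sqrt (T * E))) ^ 2 =
                          (24 * (1 + C) * L) ^ 2 * (((2 : ℝ) ^ i * 2 ^ i) * n ^ 2 * Real.sqrt (T * E) ^ 2) := by
                        ring
                      rw [h5, hs, hpow]
              have h2 := abs_le_of_sq_le_sq h1 (by (clear * - hC hL; positivity))
              refine (le_abs_self _).trans (h2.trans ?_)
              refine mul_le_mul_of_nonneg_left ?_ hK0
              (clear * - hterm1; linarith)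

end Pool.Agent.M20.Helper73.KC
end

/- Helper53.KN.Helper73.KC.StepA -/
section
/-! KC-8, part 2: subharmonicity against a family of Gaussians. -/

set_option autoImplicit false
open MeasureTheory Complex

namespace Pool.Agent.M20.Helper73.KC

open Pool.Agent.M20.Helper60.KS (Spaced1 InStrip)

lemma norm_shift (σ t a : ℝ) :
    ‖cexp (((σ : ℂ) + t * I - I * a) ^ 2 / 2)‖ ^ 2 = Real.exp (σ ^ 2 - (t - a) ^ 2) := by
  rw [Complex.norm_exp, ← Real.exp_nat_mul]
  congr 1
  have h1 : ((σ : ℂ) + t * I - I * a) ^ 2 / 2 =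
      (((σ ^ 2 - (t - a) ^ 2) / 2 : ℝ) : ℂ) + ((σ * (t - a) : ℝ) : ℂ) * I := by
    have := Complex.I_sq
    push_cast
    linear_combination (((t : ℂ) - a) ^ 2 / 2) * this
  have h2 : ∀ x y : ℝ, ((x : ℂ) + (y : ℂ) * I).re = x := fun x y => by simp
  rw [h1, h2]
  push_cast
  ring

theorem stepA (h12 : Pool.Agent.M20.Helper10.KSZ.A12') {G : ℂ → ℂ} (hG : Differentiable ℂ G)
    (Z : Finset ℂ) {b b' T r M : ℝ} (hr : 0 < r) (hr2 : r ≤ 1 / 2) (hb0 : 0 ≤ b) (hbb : b ≤ b')
    (hb1 : b' ≤ 1) (hT : 0 ≤ T) (hZ : InStrip Z b b' T) (hsp : Spaced1 Z)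
    {κ : Type*} (P : Finset κ) (a : κ → ℝ)
    (hint : ∀ σ : ℝ, Integrable (fun t : ℝ =>
      (∑ p ∈ P, Real.exp (-(t - a p) ^ 2)) * ‖G (σ + t * I)‖ ^ 2))
    (hM : ∀ σ : ℝ, b - r ≤ σ → σ ≤ b' + r → ∫ t : ℝ,
      (∑ p ∈ P, Real.exp (-(t - a p) ^ 2)) * ‖G (σ + t * I)‖ ^ 2 ≤ M) :
    ∑ ρ ∈ Z, ((P.filter (fun p => |ρ.im - a p| ≤ 1)).card : ℝ) * ‖G ρ‖ ^ 2 ≤
      2 * Real.exp 4 / r ^ 2 * M := by
  set F : κ → ℂ → ℂ := fun p w => G w * cexp ((w - I * a p) ^ 2 / 2) with hF
  have hFd : ∀ p, Differentiable ℂ (F p) := by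
    intro p
    refine hG.mul (Differentiable.cexp ?_)
    exact ((differentiable_id.sub_const _).pow 2).div_const 2
  have hFn : ∀ p (σ t : ℝ), ‖F p (σ + t * I)‖ ^ 2 =
      Real.exp (σ ^ 2) * (Real.exp (-(t - a p) ^ 2) * ‖G (σ + t * I)‖ ^ 2) := by
    intro p σ t
    rw [hF]
    simp only
    rw [norm_mul, mul_pow, norm_shift, show σ ^ 2 - (t - a p) ^ 2 = σ ^ 2 + (-(t - a p) ^ 2) by ring,
      Real.exp_add]
    ring
  -- nonnegativity of M
  have hM0 : 0 ≤ M := by
    refine le_trans ?_ (hM b (by linarith) (by linarith))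
    refine integral_nonneg fun t => ?_
    refine mul_nonneg (Finset.sum_nonneg fun p _ => (Real.exp_pos _).le) (by positivity)
  -- step 1: from G to F
  have h1 : ∀ ρ ∈ Z, ((P.filter (fun p => |ρ.im - a p| ≤ 1)).card : ℝ) * ‖G ρ‖ ^ 2 ≤
      Real.exp 1 * ∑ p ∈ P, ‖F p ρ‖ ^ 2 := by
    intro ρ _
    rw [← nsmul_eq_mul, ← Finset.sum_const, Finset.mul_sum]
    refine (Finset.sum_le_sum (g := fun p => Real.exp 1 * ‖F p ρ‖ ^ 2) fun p hp => ?_).trans
      (Finset.sum_le_sum_of_subset_of_nonneg (Finset.filter_subset _ _) fun p _ _ => by positivity)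
    have hp1 := (Finset.mem_filter.1 hp).2
    have h2 := hFn p ρ.re ρ.im
    rw [Complex.re_add_im] at h2
    rw [h2]
    have h3 : 1 ≤ Real.exp 1 * (Real.exp (ρ.re ^ 2) * Real.exp (-(ρ.im - a p) ^ 2)) := by
      rw [← Real.exp_add, ← Real.exp_add, Real.one_le_exp_iff]
      have : (ρ.im - a p) ^ 2 ≤ 1 := by
        rw [← sq_abs]
        (clear * - hp1 hr hr2; nlinarith [abs_nonneg (ρ.im - a p)])
      (clear * - this; nlinarith [sq_nonneg ρ.re])
    have h4 : 0 ≤ ‖G ρ‖ ^ 2 := by positivity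
    calc ‖G ρ‖ ^ 2 = 1 * ‖G ρ‖ ^ 2 := (one_mul _).symm
      _ ≤ (Real.exp 1 * (Real.exp (ρ.re ^ 2) * Real.exp (-(ρ.im - a p) ^ 2))) * ‖G ρ‖ ^ 2 :=
          mul_le_mul_of_nonneg_right h3 h4
      _ = _ := by ring
  -- step 2: area mean
  set σ₁ := b - r / 2 with hσ₁
  exact by
    set σ₂ := b' + r / 2 with hσ₂
    set t₁ := -T - r / 2 with ht₁
    set t₂ := T + r / 2 with ht₂
    have h12' : σ₁ ≤ σ₂ := by rw [hσ₁, hσ₂]; (clear * - hr hbb; linarith)
    have ht12 : t₁ ≤ t₂ := by rw [ht₁, ht₂]; (clear * - hr hT; linarith)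
    have h2 : ∀ p, ∑ ρ ∈ Z, ‖F p ρ‖ ^ 2 ≤
        1 / (Real.pi * (r / 2) ^ 2) * ∫ σ in σ₁..σ₂, ∫ t in t₁..t₂, ‖F p (σ + t * I)‖ ^ 2 := by
      intro p
      refine h12 (F p) (hFd p) Z (r / 2) σ₁ σ₂ t₁ t₂ (by (clear * - hr; linarith)) h12' ht12 ?_ ?_
      · intro z hz w hw hzw
        have h3 := hsp z hz w hw hzw
        have h4 : |z.im - w.im| ≤ dist z w := by
          rw [Complex.dist_eq, ← Complex.sub_im]
          exact Complex.abs_im_le_norm _
        (clear * - hr hr2 h3 h4; linarith)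
      · intro z hz
        obtain ⟨h3, h4, h5⟩ := hZ z hz
        rw [abs_le] at h5
        refine ⟨?_, ?_, ?_, ?_⟩ <;> simp only [hσ₁, hσ₂, ht₁, ht₂] <;> (clear * - h3 h5 h4; linarith [h5.1, h5.2])
    -- continuity
    exact by
      have hcont : ∀ p, Continuous (Function.uncurry fun (σ t : ℝ) => ‖F p (σ + t * I)‖ ^ 2) := by
        intro p
        have h3 : Continuous (F p) := (hFd p).continuous
        have h4 : Continuous (fun x : ℝ × ℝ => ((x.1 : ℂ) + x.2 * I)) := by fun_prop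
        have h5 : (Function.uncurry fun (σ t : ℝ) => ‖F p (σ + t * I)‖ ^ 2) =
            fun x : ℝ × ℝ => ‖F p ((x.1 : ℂ) + x.2 * I)‖ ^ 2 := by
          funext x
          rfl
        rw [h5]
        exact ((h3.comp h4).norm).pow 2
      have hcont1 : ∀ p, Continuous (fun σ : ℝ => ∫ t in t₁..t₂, ‖F p (σ + t * I)‖ ^ 2) := fun p =>
        intervalIntegral.continuous_parametric_intervalIntegral_of_continuous' (hcont p) _ _
      have hcont2 : ∀ p (σ : ℝ), Continuous (fun t : ℝ => ‖F p (σ + t * I)‖ ^ 2) := by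
        intro p σ
        have h3 : Continuous (F p) := (hFd p).continuous
        have h4 : Continuous (fun t : ℝ => ((σ : ℂ) + t * I)) := by fun_prop
        exact ((h3.comp h4).norm).pow 2
      -- the inner bound
      have hinner : ∀ σ : ℝ, b - r ≤ σ → σ ≤ b' + r →
          ∑ p ∈ P, ∫ t in t₁..t₂, ‖F p (σ + t * I)‖ ^ 2 ≤ Real.exp (9 / 4) * M := by
        intro σ hs1 hs2
        rw [← intervalIntegral.integral_finsetSum fun p _ => (hcont2 p σ).intervalIntegrable _ _]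
        have h3 : (fun t : ℝ => ∑ p ∈ P, ‖F p (σ + t * I)‖ ^ 2) = fun t : ℝ => Real.exp (σ ^ 2) *
            ((∑ p ∈ P, Real.exp (-(t - a p) ^ 2)) * ‖G (σ + t * I)‖ ^ 2) := by
          funext t
          rw [Finset.sum_mul, Finset.mul_sum]
          exact Finset.sum_congr rfl fun p _ => hFn p σ t
        rw [h3, intervalIntegral.integral_const_mul, intervalIntegral.integral_of_le ht12]
        have h4 : ∫ t in Set.Ioc t₁ t₂, (∑ p ∈ P, Real.exp (-(t - a p) ^ 2)) * ‖G (σ + t * I)‖ ^ 2 ≤ M := by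
          refine le_trans (setIntegral_le_integral (hint σ) (Filter.Eventually.of_forall fun t => ?_))
            (hM σ hs1 hs2)
          exact mul_nonneg (Finset.sum_nonneg fun p _ => (Real.exp_pos _).le) (by (clear * -; positivity))
        have h5 : Real.exp (σ ^ 2) ≤ Real.exp (9 / 4) := by
          rw [Real.exp_le_exp]
          have h6 : |σ| ≤ 3 / 2 := by
            rw [abs_le]
            constructor <;> (clear * - hr hr2 hb0 hs1 hb1 hs2; linarith)
          calc σ ^ 2 = |σ| ^ 2 := (sq_abs σ).symm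
            _ ≤ (3 / 2) ^ 2 := pow_le_pow_left₀ (abs_nonneg _) h6 2
            _ = 9 / 4 := by norm_num
        calc Real.exp (σ ^ 2) * ∫ t in Set.Ioc t₁ t₂,
              (∑ p ∈ P, Real.exp (-(t - a p) ^ 2)) * ‖G (σ + t * I)‖ ^ 2 ≤
            Real.exp (σ ^ 2) * M := mul_le_mul_of_nonneg_left h4 (Real.exp_pos _).le
          _ ≤ _ := mul_le_mul_of_nonneg_right h5 hM0
      -- the double integral
      have houter : ∑ p ∈ P, ∫ σ in σ₁..σ₂, ∫ t in t₁..t₂, ‖F p (σ + t * I)‖ ^ 2 ≤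
          Real.exp (9 / 4) * M * (3 / 2) := by
        rw [← intervalIntegral.integral_finsetSum fun p _ => (hcont1 p).intervalIntegrable _ _]
        have h3 := intervalIntegral.norm_integral_le_of_norm_le_const (a := σ₁) (b := σ₂)
          (f := fun σ : ℝ => ∑ p ∈ P, ∫ t in t₁..t₂, ‖F p (σ + t * I)‖ ^ 2)
          (C := Real.exp (9 / 4) * M) (fun σ hσ => by
            rw [Set.uIoc_of_le h12'] at hσ
            have h4 : 0 ≤ ∑ p ∈ P, ∫ t in t₁..t₂, ‖F p (σ + t * I)‖ ^ 2 :=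
              Finset.sum_nonneg fun p _ => intervalIntegral.integral_nonneg ht12 fun t _ => by (clear * -; positivity)
            rw [Real.norm_of_nonneg h4]
            refine hinner σ ?_ ?_
            · have := hσ.1
              rw [hσ₁] at this
              (clear * - hr this; linarith)
            · have := hσ.2
              rw [hσ₂] at this
              (clear * - hr this; linarith))
        refine (Real.le_norm_self _).trans (h3.trans ?_)
        refine mul_le_mul_of_nonneg_left ?_ (by positivity)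
        rw [abs_of_nonneg (by (clear * - hr hbb hσ₁; linarith)), hσ₁, hσ₂]
        (clear * - hr2 hb0 hb1; linarith)
      -- assembly
      have hpi : 0 < Real.pi := Real.pi_pos
      exact by
        calc ∑ ρ ∈ Z, ((P.filter (fun p => |ρ.im - a p| ≤ 1)).card : ℝ) * ‖G ρ‖ ^ 2
            ≤ ∑ ρ ∈ Z, Real.exp 1 * ∑ p ∈ P, ‖F p ρ‖ ^ 2 := Finset.sum_le_sum h1
          _ = Real.exp 1 * ∑ p ∈ P, ∑ ρ ∈ Z, ‖F p ρ‖ ^ 2 := by
              rw [← Finset.mul_sum, Finset.sum_comm]
          _ ≤ Real.exp 1 * ∑ p ∈ P, (1 / (Real.pi * (r / 2) ^ 2) *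
                ∫ σ in σ₁..σ₂, ∫ t in t₁..t₂, ‖F p (σ + t * I)‖ ^ 2) := by
              refine mul_le_mul_of_nonneg_left (Finset.sum_le_sum fun p _ => h2 p) (Real.exp_pos _).le
          _ = Real.exp 1 * (1 / (Real.pi * (r / 2) ^ 2)) *
                ∑ p ∈ P, ∫ σ in σ₁..σ₂, ∫ t in t₁..t₂, ‖F p (σ + t * I)‖ ^ 2 := by
              rw [← Finset.mul_sum]; ring
          _ ≤ Real.exp 1 * (1 / (Real.pi * (r / 2) ^ 2)) * (Real.exp (9 / 4) * M * (3 / 2)) := by
              refine mul_le_mul_of_nonneg_left houter (by positivity)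
          _ = (Real.exp 1 * Real.exp (9 / 4)) * (6 / Real.pi) / r ^ 2 * M := by
              field_simp
              ring
          _ ≤ 2 * Real.exp 4 / r ^ 2 * M := by
              refine mul_le_mul_of_nonneg_right ?_ hM0
              refine div_le_div_of_nonneg_right ?_ (by positivity)
              rw [← Real.exp_add]
              have h3 : Real.exp (1 + 9 / 4) ≤ Real.exp 4 := by
                rw [Real.exp_le_exp]; norm_num
              have h4 : 6 / Real.pi ≤ 2 := by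
                rw [div_le_iff₀ hpi]
                (clear * -; linarith [Real.pi_gt_three])
              calc Real.exp (1 + 9 / 4) * (6 / Real.pi) ≤ Real.exp 4 * 2 :=
                    mul_le_mul h3 h4 (by positivity) (Real.exp_pos _).le
                _ = _ := by ring

end Pool.Agent.M20.Helper73.KC
end
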