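import Mathlib
import Pool.Agent.Helper53.KO.G04

set_option linter.all false

/- Helper53.KN.Helper60.KC.ClassBound -/
section
/-! KC-16: the bound for one class of zeros. -/

set_option autoImplicit false
set_option maxHeartbeats 4000000
open Filter Topology
open scoped Classical

namespace Pool.Agent.M20.Helper60.KC
open Pool.Agent.M20.Helper60.KS

lemma small (A B κ : ℝ) (hκ : 0 < κ) : ∀ᶠ X : ℝ in atTop,
    A + B * Real.log (Real.log X) ≤ κ * Real.log X := by
  have h1 : ∀ᶠ y : ℝ in atTop, A + B * Real.log y ≤ κ * y := by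
    have h2 := (Real.isLittleO_log_id_atTop).bound (show 0 < κ / (2 * (|B| + 1)) by (clear * - hκ; positivity))
    filter_upwards [h2, eventually_ge_atTop (2 * |A| / κ), eventually_ge_atTop 1] with y hy hA h1
    simp only [id_eq, Real.norm_eq_abs] at hy
    rw [abs_of_pos (by linarith : (0:ℝ) < y)] at hy
    have h3 : A ≤ κ / 2 * y := by
      have := (div_le_iff₀ hκ).mp hA
      have := le_abs_self A
      linarith
    have h4 : B * Real.log y ≤ |B| * |Real.log y| := by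
      rw [← abs_mul]; exact le_abs_self _
    have h5 : |B| * |Real.log y| ≤ (|B| + 1) * (κ / (2 * (|B| + 1)) * y) := by
      apply mul_le_mul (by linarith) hy (abs_nonneg _) (by positivity)
    have h6 : (|B| + 1) * (κ / (2 * (|B| + 1)) * y) = κ / 2 * y := by
      field_simp
    (clear * - h3 h4 h5 h6; linarith)
  exact Real.tendsto_log_atTop.eventually h1

/-- hypotheses of `ClassBound` -/
structure Cls (ε0 δ d X x : ℝ) (Z : Finset ℂ) (c : ℂ → ℂ) (g : ℕ → ℂ) (N : ℕ) (U : Finset ℝ) : Prop where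
  hx0 : ε0 ≤ x
  hx1 : x ≤ 0.4 + δ
  hs : InStrip Z (1 - x) (1 - x + δ) (X ^ (1/2 + 2 * d) + 1)
  hsp : Spaced1 Z
  hg : ∀ n, ‖g n‖ ≤ (n.divisors.card : ℝ)
  hN0 : X ^ δ / 2 ≤ N
  hN1 : (N : ℝ) ≤ X ^ (yy x / 2 + 45 * δ)
  hD : ∀ ρ ∈ Z, 1 / (16 * Real.log X) ≤ ‖DP g N 2 ρ‖
  hc : ∀ ρ ∈ Z, ‖c ρ‖ ≤ Real.log X ^ 2
  hU : ∀ u ∈ U, Real.log X ≤ u ∧ u ≤ Real.log X + 1
  hUs : SpacedR U (1 / X ^ (1/2 + 2 * d))
  hS : ∀ u ∈ U, 1 / Real.log X ^ 4 ≤ ‖∑ ρ ∈ Z, c ρ * Complex.exp ((ρ - 1) * (u : ℂ))‖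

/-- parameters -/
structure Par (ε0 δ d : ℝ) : Prop where
  h1 : 0 < ε0
  h2 : ε0 ≤ 1/100
  h3 : δ = ε0 / 10 ^ 7
  h4 : 0 < d
  h5 : d ≤ δ

lemma Par.dpos {ε0 δ d : ℝ} (h : Par ε0 δ d) : 0 < δ := by
  rw [h.h3]; have := h.h1; positivity

lemma Par.dsmall {ε0 δ d : ℝ} (h : Par ε0 δ d) : δ ≤ 1 / 10 ^ 9 := by
  have h2 := h.h2; have h3 := h.h3
  rw [h3]; (clear * - h2; linarith)

/-- facts valid for large `X`; `l = log X`, `q = log N` -/
lemma base {ε0 δ d : ℝ} (hp : Par ε0 δ d) : ∀ᶠ X : ℝ in atTop, ∀ (x : ℝ) (Z : Finset ℂ) (c : ℂ → ℂ)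
    (g : ℕ → ℂ) (N : ℕ) (U : Finset ℝ), Cls ε0 δ d X x Z c g N U →
    8 ≤ X ∧ 10 ≤ Real.log X ∧ 1 ≤ N ∧ δ / 2 * Real.log X ≤ Real.log N ∧
      Real.log N ≤ (yy x / 2 + 45 * δ) * Real.log X ∧ Real.log N ≤ Real.log X := by
  have hδ := hp.dpos
  have hδ' := hp.dsmall
  filter_upwards [small 1 0 (δ/2) (by (clear * - hδ; linarith)), eventually_ge_atTop (Real.exp 10), eventually_ge_atTop 8]
    with X h1 h2 h8 x Z c g N U h
  have hX : (0:ℝ) < X := by (clear * - hδ hδ' h8; linarith)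
  have hl : 10 ≤ Real.log X := by
    rw [Real.le_log_iff_exp_le hX]; exact h2
  have hl0 : 0 < Real.log X := by linarith
  have hN0 := h.hN0
  have hXd : (0:ℝ) < X ^ δ := Real.rpow_pos_of_pos hX _
  have hNpos : (0:ℝ) < N := by (clear * - hN0 hXd; linarith)
  have hN1 : 1 ≤ N := by
    have : 0 < N := by exact_mod_cast hNpos
    omega
  have h3 : Real.log (X ^ δ / 2) ≤ Real.log N := Real.log_le_log (by positivity) hN0
  rw [Real.log_div (by positivity) (by norm_num), Real.log_rpow hX] at h3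
  have h4 : Real.log 2 ≤ 1 := by have := Real.log_two_lt_d9; (clear * - hδ hδ' this; linarith)
  have h5 : Real.log N ≤ (yy x / 2 + 45 * δ) * Real.log X := by
    rw [← Real.log_rpow hX]; exact Real.log_le_log hNpos h.hN1
  have h6 : yy x ≤ 0.92 := by
    unfold yy
    refine le_trans (min_le_right _ _) ?_
    have hx1 := h.hx1
    rw [div_le_iff₀ (by (clear * - hδ hδ' hx1; linarith))]
    (clear * - hδ hδ' hx1; linarith)
  refine ⟨h8, hl, hN1, ?_, h5, ?_⟩
  · (clear * - h1 h3 h4; nlinarith)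
  · refine le_trans h5 ?_
    have : (yy x / 2 + 45 * δ) ≤ 1 := by (clear * - hδ hδ' h6; linarith)
    (clear * - hδ' h1 h6 hδ; nlinarith)

/-- powers in the class -/
lemma pow_class (hP : PowDP) {ε0 δ d : ℝ} (hp : Par ε0 δ d) (k : ℕ) (hk : 1 ≤ k) (ε1 : ℝ) (hε1 : 0 < ε1) :
    ∃ C1 : ℝ, 0 < C1 ∧ ∀ᶠ X : ℝ in atTop, ∀ (x : ℝ) (Z : Finset ℂ) (c : ℂ → ℂ)
    (g : ℕ → ℂ) (N : ℕ) (U : Finset ℝ), Cls ε0 δ d X x Z c g N U →
    ∃ b : ℕ → ℂ, (∀ n, ‖b n‖ ≤ C1 * (N : ℝ) ^ ε1) ∧
      ∀ ρ ∈ Z, (1 / (16 * Real.log X)) ^ k ≤ ‖DP b (N ^ k) (2 ^ k) ρ‖ := by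
  obtain ⟨C1, hC1, h⟩ := hP k ε1 hk hε1
  refine ⟨C1, hC1, ?_⟩
  filter_upwards [base hp] with X hb x Z c g N U hcl
  obtain ⟨h8, hl, hN, -⟩ := hb x Z c g N U hcl
  obtain ⟨b, hb1, hb2⟩ := h g N hN hcl.hg
  refine ⟨b, hb1, fun ρ hρ => ?_⟩
  rw [← hb2, norm_pow]
  exact pow_le_pow_left₀ (by positivity) (hcl.hD ρ hρ) k

lemma log_add_le {a b : ℝ} (ha : 0 < a) (hb : 0 < b) :
    Real.log (a + b) ≤ Real.log 2 + Real.log a ∨ Real.log (a + b) ≤ Real.log 2 + Real.log b := by
  rcases le_total a b with h | h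
  · right
    rw [← Real.log_mul (by norm_num) hb.ne']
    exact Real.log_le_log (by linarith) (by linarith)
  · left
    rw [← Real.log_mul (by norm_num) ha.ne']
    exact Real.log_le_log (by linarith) (by linarith)

/-- height -/
lemma logT {X d : ℝ} (hX : 8 ≤ X) (hd : 0 < d) :
    1 ≤ X ^ (1/2 + 2 * d) ∧ (1/2) * Real.log X ≤ Real.log (X ^ (1/2 + 2 * d) + 1) ∧
      Real.log (X ^ (1/2 + 2 * d) + 1) ≤ (1/2 + 2 * d) * Real.log X + 1 := by
  have h1 : 1 ≤ X ^ (1/2 + 2 * d) := Real.one_le_rpow (by linarith) (by (clear * - hd; linarith))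
  have hX0 : 0 < X := by linarith
  have hl : 0 < Real.log X := Real.log_pos (by linarith)
  refine ⟨h1, ?_, ?_⟩
  · calc (1/2) * Real.log X ≤ (1/2 + 2 * d) * Real.log X := by (clear * - hd hl; nlinarith)
      _ = Real.log (X ^ (1/2 + 2 * d)) := (Real.log_rpow hX0 _).symm
      _ ≤ _ := Real.log_le_log (by linarith) (by linarith)
  · calc Real.log (X ^ (1/2 + 2 * d) + 1) ≤ Real.log (2 * X ^ (1/2 + 2 * d)) :=
          Real.log_le_log (by (clear * - h1; linarith)) (by linarith)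
      _ = Real.log 2 + (1/2 + 2 * d) * Real.log X := by
          rw [Real.log_mul (by norm_num) (by linarith), Real.log_rpow hX0]
      _ ≤ _ := by have := Real.log_two_lt_d9; (clear * - this; linarith)

/-- second bound: Huxley -/
lemma P2 (hMV : HuxleyCount) (hP : PowDP) {ε0 δ d : ℝ} (hp : Par ε0 δ d) (k : ℕ) (hk : 1 ≤ k) :
    ∀ᶠ X : ℝ in atTop, ∀ (x : ℝ) (Z : Finset ℂ) (c : ℂ → ℂ) (g : ℕ → ℂ) (N : ℕ) (U : Finset ℝ),
    Cls ε0 δ d X x Z c g N U → Z.Nonempty → (k : ℝ) * Real.log N ≤ 2 * Real.log X →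
    Real.log Z.card ≤ max (2 * x * (k * Real.log N))
      (Real.log X / 2 - k * Real.log N * (2 - 6 * x)) + 40 * δ * Real.log X := by
  have hδ := hp.dpos
  have hδ' := hp.dsmall
  have hd4 := hp.h4
  have hd5 := hp.h5
  obtain ⟨C1, hC1, hpc⟩ := pow_class hP hp k hk (δ / 10) (by positivity)
  obtain ⟨C, hC, hmv⟩ := hMV (2 ^ k) (Nat.one_le_two_pow)
  filter_upwards [base hp, hpc, small (2 * k * Real.log 16 + Real.log C + 2 * Real.log C1 + 2 * Real.log 2)
    (2 * k + 1) δ hδ, small (6 * k * Real.log 16 + Real.log C + 6 * Real.log C1 + 1 + 2 * Real.log 2)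
    (6 * k + 1) δ hδ] with X hb hpc hsm1 hsm2 x Z c g N U h hZ hkq
  obtain ⟨h8, hl, hN, hq0, hq1, hq2⟩ := hb x Z c g N U h
  obtain ⟨b, hb1, hb2⟩ := hpc x Z c g N U h
  have hx0 := h.hx0
  have hx1 := h.hx1
  have h1 := hp.h1
  obtain ⟨hT1, hT2, hT3⟩ := logT h8 hd4
  have hN' : (1:ℝ) ≤ N := by exact_mod_cast hN
  have hQ : 1 ≤ N ^ k := Nat.one_le_pow _ _ (by omega)
  have hl0 : 0 < Real.log X := by (clear * - hδ hδ' hl; linarith)
  have hkk : (1:ℝ) ≤ k := by exact_mod_cast hk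
  have hZc : (0:ℝ) < Z.card := by exact_mod_cast hZ.card_pos
  have hT4 : Real.log (X ^ (1/2 + 2 * d) + 1 + 2) ≤ 2 * Real.log X := by
    rw [← Real.log_rpow (by (clear * - hδ hδ' h8; linarith) : (0:ℝ) < X)]
    apply Real.log_le_log (by (clear * - hδ hδ' hT1; linarith))
    have e1 : X ^ (1/2 + 2 * d) ≤ X := by
      calc X ^ (1/2 + 2 * d) ≤ X ^ (1:ℝ) := Real.rpow_le_rpow_of_exponent_le (by (clear * - hδ hδ' h8; linarith)) (by (clear * - hδ hδ' hd5; linarith))
        _ = X := Real.rpow_one _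
    have e2 : X ^ (2:ℝ) = X * X := by rw [show (2:ℝ) = ((2:ℕ):ℝ) by norm_num, Real.rpow_natCast]; ring
    rw [e2]; (clear * - hδ' h8 e1 hδ; nlinarith)
  set l := Real.log X with hldef
  set q := Real.log N with hqdef
  set T := X ^ (1/2 + 2 * d) + 1 with hTdef
  have hq00 : 0 ≤ q := Real.log_nonneg hN'
  have hVpos : 0 < (1 / (16 * l)) ^ k := by positivity
  have hB : 0 < C1 * (N:ℝ) ^ (δ / 10) := by positivity
  have hmain := hmv Z b (N ^ k) (C1 * (N:ℝ) ^ (δ/10)) ((1 / (16 * l)) ^ k) (1 - x) (1 - x + δ) T hQ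
    (by (clear * - hδ hδ' hT1; linarith)) (by (clear * - hδ hδ' hx1; linarith))
    (by (clear * - hδ; linarith)) (by (clear * - hδ hδ'; linarith)) (by have := hp.h3; (clear * - hx0 h1 this; linarith)) hVpos hB hb1 h.hs h.hsp hb2
  have hQpos : (0:ℝ) < ((N ^ k : ℕ) : ℝ) := by exact_mod_cast hQ
  have hlogQ : Real.log ((N ^ k : ℕ) : ℝ) = k * q := by push_cast; rw [Real.log_pow]
  have hlT : 0 < Real.log (T + 2) := Real.log_pos (by (clear * - hδ hδ' hT1; linarith))
  have hllT : Real.log (Real.log (T + 2)) ≤ Real.log 2 + Real.log l := by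
    rw [← Real.log_mul (by norm_num) hl0.ne']
    exact Real.log_le_log hlT hT4
  have hlg := Real.log_le_log (by (clear * - hZ; positivity)) hmain
  have hTp : 0 < T := by (clear * - hδ hδ' hT1; linarith)
  have hin : (0:ℝ) < T * ((C1 * (N:ℝ) ^ (δ / 10)) ^ 4 * ((N ^ k : ℕ) : ℝ) ^ (2 - 4 * (1 - x)) / ((1 / (16 * l)) ^ k) ^ 4) := by
    (clear * - h8 hC1 hN hl; positivity)
  have hlogin : Real.log (T * ((C1 * (N:ℝ) ^ (δ / 10)) ^ 4 * ((N ^ k : ℕ) : ℝ) ^ (2 - 4 * (1 - x)) / ((1 / (16 * l)) ^ k) ^ 4)) =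
      Real.log T + (4 * (Real.log C1 + δ / 10 * q) + (2 - 4 * (1 - x)) * (k * q) + 4 * (k * (Real.log 16 + Real.log l))) := by
    rw [Real.log_mul hTp.ne' (by positivity), Real.log_div (by positivity) (by positivity),
      Real.log_mul (by positivity) (by positivity), Real.log_pow, Real.log_pow, Real.log_pow,
      Real.log_mul hC1.ne' (by positivity), Real.log_rpow (by (clear * - hδ hδ' hN'; linarith)), Real.log_rpow hQpos,
      Real.log_div (by norm_num) (by positivity), Real.log_one, Real.log_mul (by norm_num) hl0.ne', hlogQ]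
    simp only [Nat.cast_ofNat]
    rw [← hqdef]
    ring
  rw [Real.log_mul (by (clear * - hC hC1 hN hl hlT; positivity)) (by (clear * - h8 hC1 hN hl; positivity)), Real.log_mul (by (clear * - hC hC1 hN hl; positivity)) hlT.ne', Real.log_mul hC.ne' (by positivity),
    Real.log_div (by positivity) (by positivity), Real.log_mul (by positivity) (by positivity),
    Real.log_pow, Real.log_mul hC1.ne' (by positivity), Real.log_rpow (by (clear * - hδ hδ' hN'; linarith)), Real.log_rpow hQpos,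
    Real.log_pow, Real.log_pow, Real.log_div (by norm_num) (by positivity), Real.log_one,
    Real.log_mul (by norm_num) hl0.ne', hlogQ] at hlg
  have hdq : δ / 10 * q ≤ δ / 10 * l := mul_le_mul_of_nonneg_left hq2 (by positivity)
  simp only [Nat.cast_ofNat] at hlg
  rw [← hqdef] at hlg
  have hdl0 : 0 ≤ δ * l := by (clear * - hδ hl; positivity)
  have hdl : d * l ≤ δ * l := mul_le_mul_of_nonneg_right hd5 hl0.le
  rcases log_add_le one_pos hin with hc | hc
  · refine le_trans ?_ (add_le_add_left (le_max_left _ _) _)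
    rw [Real.log_one] at hc
    (clear * - hsm1 hllT hlg hdq hdl0 hc; linarith)
  · refine le_trans ?_ (add_le_add_left (le_max_right _ _) _)
    rw [hlogin] at hc
    (clear * - hsm2 hT3 hllT hlg hdq hdl0 hdl hc; linarith)

lemma T_le {X d : ℝ} (hX : 8 ≤ X) (hl : 10 ≤ Real.log X) (hd : 0 < d) (hd1 : d ≤ 1 / 10 ^ 9) :
    X ^ (1/2 + 2 * d) + 1 ≤ X := by
  obtain ⟨h1, -, h3⟩ := logT hX hd
  have hX0 : (0:ℝ) < X := by (clear * - hX hd hd1; linarith)
  rw [← Real.log_le_log_iff (by (clear * - hd hd1 h1; linarith)) hX0]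
  have : 2 * d * Real.log X ≤ 2 * (1 / 10 ^ 9) * Real.log X := by
    apply mul_le_mul_of_nonneg_right (by (clear * - hd1; linarith)) (by (clear * - hl hd hd1; linarith))
  linarith

lemma conv {z a b e l A B E : ℝ} (hl : 0 < l) (h : z ≤ max a b + e) (ha : 2 * a / l = A) (hb : 2 * b / l = B)
    (he : 2 * e / l ≤ E) : 2 * z / l ≤ max A B + E := by
  rw [← ha, ← hb]
  have h1 : 2 * z / l ≤ 2 * (max a b + e) / l := by
    apply div_le_div_of_nonneg_right (by (clear * - h; linarith)) hl.le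
  have h2 : 2 * (max a b + e) / l = 2 * max a b / l + 2 * e / l := by ring
  have h3 : 2 * max a b / l ≤ max (2 * a / l) (2 * b / l) := by
    rcases le_total a b with hab | hab
    · rw [max_eq_right hab]; exact le_max_right _ _
    · rw [max_eq_left hab]; exact le_max_left _ _
  (clear * - he h1 h2 h3; linarith)

end Pool.Agent.M20.Helper60.KC
end

/- Helper53.KN.Helper60.KS.StG -/
section
/-! Project KS: general cell length `2^e`, `e = ⌊k (1/2 + w - d)⌋`; height exponent `τ = 1/2 - w`, `κ = 1/τ`. -/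

set_option autoImplicit false
open Filter Topology MeasureTheory
open scoped Classical

namespace Pool.Agent.M20.Helper60.KS

/-- detection with height exponent `τ` -/
def DetectG : Prop := ∀ τ δ d : ℝ, 1/4 ≤ τ → τ ≤ 1/2 → 0 < δ → δ ≤ 1/1000 → 0 < d → d ≤ δ →
  ∃ X0 : ℝ, ∀ X x : ℝ, X0 ≤ X → 0 < x →
  x ≤ 0.4 + δ → ∃ g : ℕ → ℂ, (∀ n, ‖g n‖ ≤ (n.divisors.card : ℝ)) ∧
  ∀ ρ : ℂ, riemannZeta ρ = 0 → 1 - x ≤ ρ.re → Real.log X ^ 2 ≤ |ρ.im| → |ρ.im| ≤ X ^ (τ + 2 * d) + 1 →
  ∃ i : ℕ, X ^ δ / 2 ≤ (2 : ℝ) ^ i ∧ (2 : ℝ) ^ i ≤ X ^ (yy x * τ + 45 * δ) ∧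
    1 / (16 * Real.log X) ≤ ‖DP g (2 ^ i) 2 ρ‖

/-- section 7 with `X = T^κ` -/
def NumericG (κ ρ0 : ℝ) : Prop := ∀ ε0 : ℝ, 0 < ε0 → ε0 ≤ 1/100 → ∀ ε x n r ϱ : ℝ, 0 < ε → ε ≤ ε0 / 10 ^ 5 →
  ε0 ≤ x → x ≤ 0.4 + ε → 0 < n → n ≤ yy x + ε →
  (∀ k : ℕ, 1 ≤ k → (k : ℝ) ≤ 4 / n → r ≤ max (2 * x * (k * n)) (1 - k * n * (1 - 2 * x)) + ε) →
  (∀ k : ℕ, 1 ≤ k → (k : ℝ) ≤ 4 / n → r ≤ max (2 * x * (k * n)) (1 - k * n * (2 - 6 * x)) + ε) →
  κ * x - ε ≤ r →
  (∀ j : ℕ, 1 ≤ j → (j : ℝ) ≤ 4 / n → r + 2 * x * (j * n) ≤ 2 * κ * x - ε →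
    ϱ ≤ max (1 + r - 2 * κ * x - j * n * (1 - 2 * x)) (4 * (1 + r - 2 * κ * x - j * n * (1 - 2 * x)) - 1) + ε) →
  (∀ j : ℕ, 1 ≤ j → (j : ℝ) ≤ 4 / n →
    ϱ ≤ 1 - 4 * κ * x + max (4 * x * (j * n) + r) (1 + 2 * r - (2 - 4 * x) * (j * n)) + ε) →
  ϱ ≤ ρ0

/-- one class, height exponent `τ`; `δ = ε0 / 10^8` -/
def ClassBoundG (τ ρ0 : ℝ) : Prop := ∀ ε0 δ d : ℝ, 0 < ε0 → ε0 ≤ 1/100 → δ = ε0 / 10 ^ 8 → 0 < d → d ≤ δ → ∃ X0 : ℝ,
  ∀ (X x : ℝ) (Z : Finset ℂ) (c : ℂ → ℂ) (g : ℕ → ℂ) (N : ℕ) (U : Finset ℝ), X0 ≤ X → ε0 ≤ x → x ≤ 0.4 + δ →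
  InStrip Z (1 - x) (1 - x + δ) (X ^ (τ + 2 * d) + 1) → Spaced1 Z →
  (∀ n, ‖g n‖ ≤ (n.divisors.card : ℝ)) →
  X ^ δ / 2 ≤ N → (N : ℝ) ≤ X ^ (yy x * τ + 45 * δ) → (∀ ρ ∈ Z, 1 / (16 * Real.log X) ≤ ‖DP g N 2 ρ‖) →
  (∀ ρ ∈ Z, ‖c ρ‖ ≤ Real.log X ^ 2) → (∀ u ∈ U, Real.log X ≤ u ∧ u ≤ Real.log X + 1) →
  SpacedR U (1 / X ^ (τ + 2 * d)) →
  (∀ u ∈ U, 1 / Real.log X ^ 4 ≤ ‖∑ ρ ∈ Z, c ρ * Complex.exp ((ρ - 1) * (u : ℂ))‖) →
  (U.card : ℝ) ≤ X ^ (τ * ρ0)

/-- exponent of the cell length -/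
noncomputable def ecw (w d : ℝ) (k : ℕ) : ℕ := ⌊(k : ℝ) * (1/2 + w - d)⌋₊

/-- explicit formula for cells of length `2^(ecw w d k)` (section 4) -/
def BadZeroG (w : ℝ) : Prop := ∀ d : ℝ, 0 < d → d ≤ 1/100 → ∃ c0 : ℝ, 0 < c0 ∧ ∃ K : ℕ, ∀ k : ℕ, K ≤ k →
  ∃ (F : Finset ℂ) (c : ℂ → ℂ) (u : ℕ → ℝ) (Exc : Finset ℕ),
  (∀ ρ ∈ F, riemannZeta ρ = 0 ∧ 0.6 < ρ.re ∧ |ρ.im| ≤ ((2 : ℝ) ^ k) ^ (1/2 - w + 2 * d) + 1) ∧
  (∀ ρ ∈ F, ‖c ρ‖ ≤ 2) ∧
  (∀ j < 2 ^ (k - ecw w d k), Real.log (2 ^ k) ≤ u j ∧ u j ≤ Real.log (2 ^ k) + 1) ∧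
  (∀ j < 2 ^ (k - ecw w d k), ∀ j' < 2 ^ (k - ecw w d k), j ≠ j' →
    1 / ((2 : ℝ) ^ k) ^ (1/2 - w + 2 * d) ≤ |u j - u j'|) ∧
  (Exc.card : ℝ) ≤ ((2 : ℝ) ^ k) ^ (0.21 - 2 * w + 5 * d) ∧
  ∀ j < 2 ^ (k - ecw w d k), j ∉ Exc → (npr k (ecw w d k) j : ℝ) < c0 * 2 ^ ecw w d k / k →
    1/2 ≤ ‖∑ ρ ∈ F, (mz ρ : ℂ) * c ρ * Complex.exp ((ρ - 1) * (u j : ℂ))‖

/-- at most `2^(U k)` cells of length `2^⌊k(1/2+w-d)⌋` of `[2^k, 2^(k+1))` contain fewer than `c0 2^e / k` primes -/
def CountW (w U : ℝ) : Prop := ∃ d0 : ℝ, 0 < d0 ∧ ∀ d : ℝ, 0 < d → d ≤ d0 → ∃ c0 : ℝ, 0 < c0 ∧ ∃ K : ℕ, ∀ k : ℕ,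
  K ≤ k → (((Finset.range (2 ^ (k - ecw w d k))).filter (fun j =>
    (npr k (ecw w d k) j : ℝ) < c0 * 2 ^ ecw w d k / k)).card : ℝ) ≤ (2 : ℝ) ^ (U * (k : ℝ))

end Pool.Agent.M20.Helper60.KS
end

/- Helper53.KN.Helper60.KC.Main -/
section
/-! KC-18: assembly of Theorem C. -/

set_option autoImplicit false
set_option maxHeartbeats 4000000
open Filter Topology
open scoped Classical

namespace Pool.Agent.M20.Helper60.KC
open Pool.Agent.M20.Helper60.KS

lemma zero_re_lt {ρ : ℂ} (h : riemannZeta ρ = 0) : ρ.re < 1 := by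
  by_contra hcon
  exact riemannZeta_ne_zero_of_one_le_re (not_lt.mp hcon) h

lemma term_le {X u : ℝ} {ρ c : ℂ} (hX : 1 < X) (hz : riemannZeta ρ = 0) (hc : ‖c‖ ≤ 2) (hu : Real.log X ≤ u) :
    ‖(mz ρ : ℂ) * c * Complex.exp ((ρ - 1) * (u : ℂ))‖ ≤ 2 * ((mz ρ : ℝ) * X ^ (ρ.re - 1)) := by
  have h1 := zero_re_lt hz
  have hl : 0 < Real.log X := Real.log_pos hX
  rw [norm_mul, norm_mul, Complex.norm_exp, Complex.norm_natCast]
  have e : ((ρ - 1) * (u:ℂ)).re = (ρ.re - 1) * u := by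
    simp [Complex.mul_re]
  have e2 : Real.exp ((ρ - 1) * (u:ℂ)).re ≤ X ^ (ρ.re - 1) := by
    rw [e, Real.rpow_def_of_pos (by linarith)]
    apply Real.exp_le_exp.mpr
    nlinarith
  calc (mz ρ : ℝ) * ‖c‖ * Real.exp ((ρ - 1) * (u:ℂ)).re ≤ (mz ρ : ℝ) * 2 * X ^ (ρ.re - 1) := by
        apply mul_le_mul _ e2 (Real.exp_pos _).le (by positivity)
        exact mul_le_mul_of_nonneg_left hc (by positivity)
    _ = _ := by ring

lemma low_zeros {C : ℝ} (hC : 0 < C)
    (hA : ∀ (t : ℝ) (F : Finset ℂ), (∀ ρ ∈ F, riemannZeta ρ = 0 ∧ 1/2 ≤ ρ.re ∧ |ρ.im - t| ≤ 1) →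
      ∑ ρ ∈ F, (mz ρ : ℝ) ≤ C * Real.log (|t| + 2)) (M : ℕ) (F : Finset ℂ)
    (hF : ∀ ρ ∈ F, riemannZeta ρ = 0 ∧ 1/2 ≤ ρ.re ∧ |ρ.im| ≤ M) :
    ∑ ρ ∈ F, (mz ρ : ℝ) ≤ (2 * M + 1) * (C * Real.log (M + 2)) := by
  have hmap : ∀ ρ ∈ F, round ρ.im ∈ Finset.Icc (-(M:ℤ)) M := by
    intro ρ hρ
    obtain ⟨-, -, h⟩ := hF ρ hρ
    rw [abs_le] at h
    have h1 := abs_le.mp (abs_sub_round ρ.im)
    rw [Finset.mem_Icc]
    constructor
    · have : (-(M:ℤ) - 1 : ℝ) < (round ρ.im : ℝ) := by push_cast; linarith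
      have h2 : (-(M:ℤ) - 1 : ℤ) < round ρ.im := by exact_mod_cast this
      omega
    · have : (round ρ.im : ℝ) < ((M:ℤ) + 1 : ℝ) := by push_cast; linarith
      have h2 : round ρ.im < ((M:ℤ) + 1 : ℤ) := by exact_mod_cast this
      omega
  rw [← Finset.sum_fiberwise_of_maps_to hmap]
  have hb : ∀ m ∈ Finset.Icc (-(M:ℤ)) M, ∑ ρ ∈ F with round ρ.im = m, (mz ρ : ℝ) ≤ C * Real.log (M + 2) := by
    intro m hm
    have h1 := hA m (F.filter (fun ρ => round ρ.im = m)) (by
      intro ρ hρ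
      rw [Finset.mem_filter] at hρ
      obtain ⟨h2, h3, -⟩ := hF ρ hρ.1
      refine ⟨h2, h3, ?_⟩
      rw [← hρ.2]
      exact le_trans (abs_sub_round _) (by norm_num))
    refine le_trans h1 ?_
    apply mul_le_mul_of_nonneg_left _ hC.le
    apply Real.log_le_log (by positivity)
    have : |(m:ℝ)| ≤ M := by
      rw [Finset.mem_Icc] at hm
      rw [abs_le]
      constructor
      · have := hm.1; exact_mod_cast this
      · exact_mod_cast hm.2
    linarith
  refine le_trans (Finset.sum_le_sum hb) ?_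
  rw [Finset.sum_const, nsmul_eq_mul, Int.card_Icc]
  apply le_of_eq
  congr 1
  have : (M:ℤ) + 1 - -(M:ℤ) = 2 * M + 1 := by ring
  rw [this]
  have h2 : ((2 * (M:ℤ) + 1).toNat : ℤ) = 2 * M + 1 := Int.toNat_of_nonneg (by omega)
  exact_mod_cast h2

end Pool.Agent.M20.Helper60.KC
end

/- Helper53.KN.Helper60.KE.Main -/
section
/-! CountE2: assembly of the counting theorem with the factor `P(ρ)`. -/

set_option autoImplicit false
set_option maxHeartbeats 4000000
open Filter Topology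
open scoped Classical

namespace Pool.Agent.M20.Helper60.KE
open Pool.Agent.M20.Helper60.KS Pool.Agent.M20.Helper60.KC

/-- parameters -/
structure ParE (ε0 δ d : ℝ) : Prop where
  h1 : 0 < ε0
  h2 : ε0 ≤ 1/100
  h3 : δ = ε0 / 10 ^ 8
  h4 : 0 < d
  h5 : d ≤ δ

lemma ParE.dpos {ε0 δ d : ℝ} (h : ParE ε0 δ d) : 0 < δ := by
  rw [h.h3]; have := h.h1; positivity

lemma ParE.dsmall {ε0 δ d : ℝ} (h : ParE ε0 δ d) : δ ≤ 1 / 10 ^ 10 := by
  have h2 := h.h2; have h3 := h.h3
  rw [h3]; (clear * - h2; linarith)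

/-- one class -/
structure ClsE (ε0 δ d X x V : ℝ) (P : ℂ → ℂ) (Z : Finset ℂ) (c : ℂ → ℂ) (g : ℕ → ℂ) (N : ℕ) (U : Finset ℝ) :
    Prop where
  hx0 : ε0 ≤ x
  hx1 : x ≤ 0.4 + δ
  hV : X ^ (-1 : ℝ) ≤ V
  hs : InStrip Z (1 - x) (1 - x + δ) (X ^ (1/2 + 2 * d) + 1)
  hsp : Spaced1 Z
  hg : ∀ n, ‖g n‖ ≤ (n.divisors.card : ℝ)
  hN0 : X ^ δ / 2 ≤ N
  hN1 : (N : ℝ) ≤ X ^ (yy x / 2 + 45 * δ)
  hD : ∀ ρ ∈ Z, 1 / (16 * Real.log X) ≤ ‖DP g N 2 ρ‖
  hP : ∀ ρ ∈ Z, V ≤ ‖P ρ‖ ∧ ‖P ρ‖ ≤ 2 * V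
  hc : ∀ ρ ∈ Z, ‖c ρ‖ ≤ Real.log X ^ 2
  hU : ∀ u ∈ U, Real.log X ≤ u ∧ u ≤ Real.log X + 1
  hUs : SpacedR U (1 / X ^ (1/2 + 2 * d))
  hS : ∀ u ∈ U, 1 / Real.log X ^ 6 ≤ ‖∑ ρ ∈ Z, c ρ * P ρ * Complex.exp ((ρ - 1) * (u : ℂ))‖

lemma term_leE {X u S : ℝ} {P : ℂ → ℂ} {ρ c : ℂ} (hX : 1 < X) (hz : riemannZeta ρ = 0) (hc : ‖c‖ ≤ 2)
    (hu : Real.log X ≤ u) (hP : ‖P ρ‖ ≤ S * X ^ (0.497 * (1 - ρ.re))) :
    ‖(mz ρ : ℂ) * c * P ρ * Complex.exp ((ρ - 1) * (u : ℂ))‖ ≤
      2 * S * ((mz ρ : ℝ) * X ^ (0.503 * (ρ.re - 1))) := by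
  have h1 := zero_re_lt hz
  have hl : 0 < Real.log X := Real.log_pos hX
  have hX0 : 0 < X := by (clear * - hX; linarith)
  rw [norm_mul, norm_mul, norm_mul, Complex.norm_exp, Complex.norm_natCast]
  have e : ((ρ - 1) * (u:ℂ)).re = (ρ.re - 1) * u := by
    simp [Complex.mul_re]
  have e2 : Real.exp ((ρ - 1) * (u:ℂ)).re ≤ X ^ (ρ.re - 1) := by
    rw [e, Real.rpow_def_of_pos (by (clear * - hX; linarith))]
    apply Real.exp_le_exp.mpr
    (clear * - hu h1; nlinarith)
  have e3 : X ^ (0.497 * (1 - ρ.re)) * X ^ (ρ.re - 1) = X ^ (0.503 * (ρ.re - 1)) := by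
    rw [← Real.rpow_add hX0]; congr 1; ring
  have hS0 : 0 ≤ S * X ^ (0.497 * (1 - ρ.re)) := (norm_nonneg _).trans hP
  calc (mz ρ : ℝ) * ‖c‖ * ‖P ρ‖ * Real.exp ((ρ - 1) * (u:ℂ)).re ≤
        (mz ρ : ℝ) * 2 * (S * X ^ (0.497 * (1 - ρ.re))) * X ^ (ρ.re - 1) := by
        apply mul_le_mul _ e2 (Real.exp_pos _).le (by positivity)
        apply mul_le_mul _ hP (norm_nonneg _) (by positivity)
        exact mul_le_mul_of_nonneg_left hc (by positivity)
    _ = 2 * S * ((mz ρ : ℝ) * (X ^ (0.497 * (1 - ρ.re)) * X ^ (ρ.re - 1))) := by ring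
    _ = _ := by rw [e3]

/-- everything that holds at one large `X` -/
lemma main_countE {C ε0 δ d X S : ℝ} (P : ℂ → ℂ) (hp : ParE ε0 δ d) (hC : 0 < C) (hX8 : 8 ≤ X)
    (hl : 10 ≤ Real.log X)
    (hSl : 80 / Real.log X ^ 2 ≤ S) (hS1 : S ≤ 1)
    (hPb : ∀ ρ : ℂ, 0 ≤ ρ.re → ρ.re ≤ 1 → ‖P ρ‖ ≤ S * X ^ (0.497 * (1 - ρ.re)))
    (hA : ∀ (t : ℝ) (F : Finset ℂ), (∀ ρ ∈ F, riemannZeta ρ = 0 ∧ 1/2 ≤ ρ.re ∧ |ρ.im - t| ≤ 1) →
      ∑ ρ ∈ F, (mz ρ : ℝ) ≤ C * Real.log (|t| + 2))
    (hN : ∀ F : Finset ℂ, (∀ ρ ∈ F, riemannZeta ρ = 0 ∧ 1 - ε0 ≤ ρ.re ∧ |ρ.im| ≤ X ^ (0.6 : ℝ)) →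
      ∑ ρ ∈ F, (mz ρ : ℝ) * X ^ (0.503 * (ρ.re - 1)) ≤ 1/16)
    (hD : ∀ x : ℝ, 0 < x → x ≤ 0.4 + δ → ∃ g : ℕ → ℂ, (∀ n, ‖g n‖ ≤ (n.divisors.card : ℝ)) ∧
      ∀ ρ : ℂ, riemannZeta ρ = 0 → 1 - x ≤ ρ.re → Real.log X ^ 2 ≤ |ρ.im| → |ρ.im| ≤ X ^ (1/2 + 2 * d) + 1 →
      ∃ i : ℕ, X ^ δ / 2 ≤ (2 : ℝ) ^ i ∧ (2 : ℝ) ^ i ≤ X ^ (yy x / 2 + 45 * δ) ∧
        1 / (16 * Real.log X) ≤ ‖DP g (2 ^ i) 2 ρ‖)
    (hK : ∀ (x V : ℝ) (Z : Finset ℂ) (c : ℂ → ℂ) (g : ℕ → ℂ) (N : ℕ) (U : Finset ℝ),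
      ClsE ε0 δ d X x V P Z c g N U → (U.card : ℝ) ≤ X ^ (0.171 : ℝ))
    (hS : SplitSpaced)
    (hx1 : X ^ (1/2 + 2 * d) + 4 ≤ X) (hx2 : X ^ (1/2 + 2 * d) + 1 ≤ X ^ (0.6 : ℝ))
    (hx3 : 240 * C * Real.log X ^ 4 ≤ X ^ (0.503 * ε0))
    (hx4 : 20 * (1 / δ + 2) * (C + 1) ≤ Real.log X)
    (hx5 : 2 * (C * Real.log X) ≤ Real.log X ^ 2)
    (hx6 : 10 * C * Real.log X ^ 3 ≤ X ^ (0.4 : ℝ))
    (F : Finset ℂ) (c : ℂ → ℂ) (u : ℕ → ℝ) (J : ℕ)
    (hF : ∀ ρ ∈ F, riemannZeta ρ = 0 ∧ 0.6 < ρ.re ∧ |ρ.im| ≤ X ^ (1/2 + 2 * d) + 1)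
    (hc : ∀ ρ ∈ F, ‖c ρ‖ ≤ 2)
    (hu : ∀ j < J, Real.log X ≤ u j ∧ u j ≤ Real.log X + 1)
    (hus : ∀ j < J, ∀ j' < J, j ≠ j' → 1 / X ^ (1/2 + 2 * d) ≤ |u j - u j'|) :
    (((Finset.range J).filter (fun j => 1/2 * S ≤ ‖∑ ρ ∈ F, (mz ρ : ℂ) * c ρ * P ρ *
      Complex.exp ((ρ - 1) * (u j : ℂ))‖)).card : ℝ) ≤ Real.log X ^ 4 * X ^ (0.171 : ℝ) := by
  have hδ := hp.dpos
  have hδ' := hp.dsmall
  have hX0 : 1 < X := by (clear * - hX8 hδ hδ'; linarith)
  set l := Real.log X with hldef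
  have hl0 : 0 < l := by (clear * - hδ hδ' hl; linarith)
  have hXp : 0 < X := by (clear * - hX8 hδ hδ'; linarith)
  have hS0 : 0 < S := lt_of_lt_of_le (by positivity) hSl
  -- the parts
  set P1 : ℂ → Prop := fun ρ => 1 - ε0 ≤ ρ.re with hP1
  exact by
    set P2 : ℂ → Prop := fun ρ => |ρ.im| < l ^ 2 with hP2
    set P3 : ℂ → Prop := fun ρ => ‖P ρ‖ < X ^ (-1 : ℝ) with hP3
    set F1 := F.filter P1 with hF1
    set F2 := (F.filter (fun ρ => ¬ P1 ρ)).filter P2 with hF2
    set F3b := (F.filter (fun ρ => ¬ P1 ρ)).filter (fun ρ => ¬ P2 ρ) with hF3b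
    set F4 := F3b.filter P3 with hF4
    set F3a := F3b.filter (fun ρ => ¬ P3 ρ) with hF3a
    set F3 := F3a.filter (fun ρ => mz ρ ≠ 0) with hF3
    exact by
      set f : ℝ → ℂ → ℂ := fun v ρ => (mz ρ : ℂ) * c ρ * P ρ * Complex.exp ((ρ - 1) * (v : ℂ)) with hf
      have hsplit : ∀ v : ℝ, ∑ ρ ∈ F, f v ρ = ∑ ρ ∈ F1, f v ρ + (∑ ρ ∈ F2, f v ρ + (∑ ρ ∈ F4, f v ρ + ∑ ρ ∈ F3, f v ρ)) := by
        intro v
        have e3 : ∑ ρ ∈ F3a, f v ρ = ∑ ρ ∈ F3, f v ρ := by
          symm
          rw [hF3]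
          apply Finset.sum_filter_of_ne
          intro ρ hρ h hm
          apply h
          simp [hf, hm]
        rw [← e3, hF4, hF3a, Finset.sum_filter_add_sum_filter_not, hF2, hF3b,
          Finset.sum_filter_add_sum_filter_not, hF1, Finset.sum_filter_add_sum_filter_not]
      have hpart1 : ∀ v : ℝ, l ≤ v → ‖∑ ρ ∈ F1, f v ρ‖ ≤ 1/8 * S := by
        intro v hv
        refine le_trans (norm_sum_le _ _) ?_
        have h1 : ∀ ρ ∈ F1, ‖f v ρ‖ ≤ 2 * S * ((mz ρ : ℝ) * X ^ (0.503 * (ρ.re - 1))) := by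
          intro ρ hρ
          rw [hF1, Finset.mem_filter] at hρ
          have hz := (hF ρ hρ.1).1
          have hr := (hF ρ hρ.1).2.1
          exact term_leE hX0 hz (hc ρ hρ.1) hv (hPb ρ (by (clear * - hδ hδ' hr; linarith)) (zero_re_lt hz).le)
        refine le_trans (Finset.sum_le_sum h1) ?_
        rw [← Finset.mul_sum]
        have h2 := hN F1 (by
          intro ρ hρ
          rw [hF1, Finset.mem_filter] at hρ
          exact ⟨(hF ρ hρ.1).1, hρ.2, le_trans (hF ρ hρ.1).2.2 hx2⟩)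
        (clear * - hδ hδ' hS0 h2; nlinarith)
      have hpart2 : ∀ v : ℝ, l ≤ v → ‖∑ ρ ∈ F2, f v ρ‖ ≤ 1/8 * S := by
        intro v hv
        refine le_trans (norm_sum_le _ _) ?_
        have h1 : ∀ ρ ∈ F2, ‖f v ρ‖ ≤ 2 * S * X ^ (-(0.503 * ε0)) * (mz ρ : ℝ) := by
          intro ρ hρ
          rw [hF2, Finset.mem_filter, Finset.mem_filter] at hρ
          have hz := (hF ρ hρ.1.1).1
          have hr := (hF ρ hρ.1.1).2.1
          refine le_trans (term_leE hX0 hz (hc ρ hρ.1.1) hv (hPb ρ (by (clear * - hδ hδ' hr; linarith)) (zero_re_lt hz).le)) ?_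
          have h3 : ρ.re < 1 - ε0 := not_le.mp hρ.1.2
          have h4 : X ^ (0.503 * (ρ.re - 1)) ≤ X ^ (-(0.503 * ε0)) :=
            Real.rpow_le_rpow_of_exponent_le hX0.le (by (clear * - hρ; linarith))
          have h5 : (0:ℝ) ≤ mz ρ := Nat.cast_nonneg _
          calc 2 * S * ((mz ρ : ℝ) * X ^ (0.503 * (ρ.re - 1))) ≤ 2 * S * ((mz ρ : ℝ) * X ^ (-(0.503 * ε0))) := by
                (clear * - h4 hS0; gcongr)
            _ = _ := by ring
        refine le_trans (Finset.sum_le_sum h1) ?_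
        rw [← Finset.mul_sum]
        have h2 := low_zeros hC hA ⌈l ^ 2⌉₊ F2 (by
          intro ρ hρ
          rw [hF2, Finset.mem_filter, Finset.mem_filter] at hρ
          have h3 : |ρ.im| < l ^ 2 := hρ.2
          refine ⟨(hF ρ hρ.1.1).1, by (clear * - hδ hδ' hF hρ; linarith [(hF ρ hρ.1.1).2.1]), ?_⟩
          exact le_trans h3.le (Nat.le_ceil _))
        have hM : (⌈l ^ 2⌉₊ : ℝ) < l ^ 2 + 1 := Nat.ceil_lt_add_one (by clear * - hl; positivity)
        set M := (⌈l ^ 2⌉₊ : ℝ) with hMdef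
        have hM0 : 0 ≤ M := Nat.cast_nonneg _
        have hlog : Real.log (M + 2) ≤ M + 1 := by
          have := Real.log_le_sub_one_of_pos (show 0 < M + 2 by linarith); (clear * - this; linarith)
        have hl2 : 100 ≤ l ^ 2 := by (clear * - hl; nlinarith)
        have h6 : (2 * M + 1) * (C * Real.log (M + 2)) ≤ (5 * l ^ 2) * (C * (3 * l ^ 2)) := by
          apply mul_le_mul (by (clear * - hδ hδ' hM hl2; linarith)) _ _ (by positivity)
          · apply mul_le_mul_of_nonneg_left (by (clear * - hδ hδ' hM hlog hl2; linarith)) hC.le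
          · have : 0 ≤ Real.log (M + 2) := Real.log_nonneg (by linarith)
            positivity
        have h7 : X ^ (-(0.503 * ε0)) * X ^ (0.503 * ε0) = 1 := by
          rw [← Real.rpow_add hXp]; simp
        have h8 : 0 < X ^ (-(0.503 * ε0)) := Real.rpow_pos_of_pos hXp _
        calc 2 * S * X ^ (-(0.503 * ε0)) * ∑ ρ ∈ F2, (mz ρ : ℝ) ≤
              2 * S * X ^ (-(0.503 * ε0)) * ((5 * l ^ 2) * (C * (3 * l ^ 2))) := by
              clear * - h2 h6 hS0 hX8; apply mul_le_mul_of_nonneg_left (le_trans h2 h6) (by positivity)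
          _ = 1/8 * S * (X ^ (-(0.503 * ε0)) * (240 * C * l ^ 4)) := by ring
          _ ≤ 1/8 * S * (X ^ (-(0.503 * ε0)) * X ^ (0.503 * ε0)) := by
              apply mul_le_mul_of_nonneg_left _ (by positivity)
              exact mul_le_mul_of_nonneg_left hx3 h8.le
          _ = 1/8 * S := by rw [h7]; ring
      have hpart4 : ∀ v : ℝ, l ≤ v → ‖∑ ρ ∈ F4, f v ρ‖ ≤ 1/80 * S := by
        intro v hv
        refine le_trans (norm_sum_le _ _) ?_
        have h1 : ∀ ρ ∈ F4, ‖f v ρ‖ ≤ 2 * X ^ (-1 : ℝ) * (mz ρ : ℝ) := by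
          intro ρ hρ
          rw [hF4, Finset.mem_filter, hF3b, Finset.mem_filter, Finset.mem_filter] at hρ
          obtain ⟨⟨⟨h1, h2⟩, h3⟩, h4⟩ := hρ
          have hz := (hF ρ h1).1
          have h5 := zero_re_lt hz
          have h6 : ‖P ρ‖ < X ^ (-1 : ℝ) := h4
          have h7 : Real.exp ((ρ - 1) * (v:ℂ)).re ≤ 1 := by
            have e : ((ρ - 1) * (v:ℂ)).re = (ρ.re - 1) * v := by simp [Complex.mul_re]
            rw [e, Real.exp_le_one_iff]
            (clear * - hδ h5 hδ' hl hv; nlinarith)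
          simp only [hf]
          rw [norm_mul, norm_mul, norm_mul, Complex.norm_exp, Complex.norm_natCast]
          calc (mz ρ : ℝ) * ‖c ρ‖ * ‖P ρ‖ * Real.exp ((ρ - 1) * (v:ℂ)).re ≤
                (mz ρ : ℝ) * 2 * X ^ (-1 : ℝ) * 1 := by
                clear * - hc h1 h6 h7 hX8; apply mul_le_mul _ h7 (Real.exp_pos _).le (by (clear * - hX8; positivity))
                apply mul_le_mul _ h6.le (norm_nonneg _) (by (clear * -; positivity))
                exact mul_le_mul_of_nonneg_left (hc ρ h1) (by positivity)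
            _ = _ := by ring
        refine le_trans (Finset.sum_le_sum h1) ?_
        rw [← Finset.mul_sum]
        have hcl : (⌈X ^ (1/2 + 2 * d) + 1⌉₊ : ℝ) < X ^ (1/2 + 2 * d) + 1 + 1 := Nat.ceil_lt_add_one (by positivity)
        have h2 := low_zeros hC hA ⌈X ^ (1/2 + 2 * d) + 1⌉₊ F4 (by
          intro ρ hρ
          rw [hF4, Finset.mem_filter, hF3b, Finset.mem_filter, Finset.mem_filter] at hρ
          obtain ⟨⟨⟨h1, h2⟩, h3⟩, h4⟩ := hρ
          refine ⟨(hF ρ h1).1, by (clear * - hδ hδ' hF h1; linarith [(hF ρ h1).2.1]), ?_⟩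
          exact le_trans (hF ρ h1).2.2 (Nat.le_ceil _))
        set M := (⌈X ^ (1/2 + 2 * d) + 1⌉₊ : ℝ) with hMdef
        have hM0 : 0 ≤ M := Nat.cast_nonneg _
        have hX6 : 1 ≤ X ^ (0.6 : ℝ) := Real.one_le_rpow hX0.le (by norm_num)
        have hlog : Real.log (M + 2) ≤ l := Real.log_le_log (by linarith) (by (clear * - hx1 hcl; linarith))
        have h6 : (2 * M + 1) * (C * Real.log (M + 2)) ≤ (5 * X ^ (0.6 : ℝ)) * (C * l) := by
          apply mul_le_mul (by (clear * - hx2 hcl hX6; linarith)) _ _ (by positivity)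
          · apply mul_le_mul_of_nonneg_left hlog hC.le
          · have : 0 ≤ Real.log (M + 2) := Real.log_nonneg (by linarith)
            (clear * - hC this; positivity)
        have h7 : X ^ (-1 : ℝ) * X ^ (0.6 : ℝ) * X ^ (0.4 : ℝ) = 1 := by
          rw [← Real.rpow_add hXp, ← Real.rpow_add hXp]; norm_num
        have h8 : 0 < X ^ (-1 : ℝ) * X ^ (0.6 : ℝ) := by positivity
        calc 2 * X ^ (-1 : ℝ) * ∑ ρ ∈ F4, (mz ρ : ℝ) ≤ 2 * X ^ (-1 : ℝ) * ((5 * X ^ (0.6 : ℝ)) * (C * l)) := by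
              apply mul_le_mul_of_nonneg_left (le_trans h2 h6) (by positivity)
          _ = (X ^ (-1 : ℝ) * X ^ (0.6 : ℝ)) * (10 * C * l ^ 3) / l ^ 2 := by clear * - hl hC hX8; field_simp; ring
          _ ≤ (X ^ (-1 : ℝ) * X ^ (0.6 : ℝ)) * X ^ (0.4 : ℝ) / l ^ 2 := by
              clear * - hx6 h8 hl; apply div_le_div_of_nonneg_right _ (by positivity)
              exact mul_le_mul_of_nonneg_left hx6 h8.le
          _ = 1/80 * (80 / l ^ 2) := by rw [h7]; ring
          _ ≤ 1/80 * S := by (clear * - hSl; linarith)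
      -- classes of F3
      have hF3' : ∀ ρ ∈ F3, riemannZeta ρ = 0 ∧ 0.6 < ρ.re ∧ ρ.re < 1 - ε0 ∧ l ^ 2 ≤ |ρ.im| ∧
          |ρ.im| ≤ X ^ (1/2 + 2 * d) + 1 ∧ 1 ≤ mz ρ ∧ ‖c ρ‖ ≤ 2 ∧ X ^ (-1 : ℝ) ≤ ‖P ρ‖ := by
        intro ρ hρ
        rw [hF3, Finset.mem_filter, hF3a, Finset.mem_filter, hF3b, Finset.mem_filter, Finset.mem_filter] at hρ
        obtain ⟨⟨⟨⟨h1, h2⟩, h3⟩, h5⟩, h4⟩ := hρ
        exact ⟨(hF ρ h1).1, (hF ρ h1).2.1, not_le.mp h2, not_lt.mp h3, (hF ρ h1).2.2, Nat.one_le_iff_ne_zero.mpr h4,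
          hc ρ h1, not_lt.mp h5⟩
      have hD' : ∀ x : ℝ, ∃ g : ℕ → ℂ, 0 < x → x ≤ 0.4 + δ → ((∀ n, ‖g n‖ ≤ (n.divisors.card : ℝ)) ∧
          ∀ ρ : ℂ, riemannZeta ρ = 0 → 1 - x ≤ ρ.re → l ^ 2 ≤ |ρ.im| → |ρ.im| ≤ X ^ (1/2 + 2 * d) + 1 →
          ∃ i : ℕ, X ^ δ / 2 ≤ (2 : ℝ) ^ i ∧ (2 : ℝ) ^ i ≤ X ^ (yy x / 2 + 45 * δ) ∧
            1 / (16 * l) ≤ ‖DP g (2 ^ i) 2 ρ‖) := by
        intro x
        by_cases h : 0 < x ∧ x ≤ 0.4 + δ
        · obtain ⟨g, hg⟩ := hD x h.1 h.2
          exact ⟨g, fun _ _ => hg⟩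
        · exact ⟨0, fun h1 h2 => absurd ⟨h1, h2⟩ h⟩
      choose G hG using hD'
      set a : ℂ → ℕ := fun ρ => ⌈(1 - ρ.re) / δ⌉₊ with ha
      exact by
        clear * - a hF3' hp hδ hG hX8 hXp hA hδ' hx1 hC hS hX0 hPb hS1 hl hx4 hu hpart1 hpart2 hpart4 hSl hS0 hsplit hus hK hx5; have hax : ∀ ρ ∈ F3, 1 - ρ.re ≤ δ * a ρ ∧ δ * a ρ < 1 - ρ.re + δ := by
          intro ρ hρ
          obtain ⟨-, h2, h3, -⟩ := hF3' ρ hρ
          have h1 := hp.h1
          constructor
          · have := Nat.le_ceil ((1 - ρ.re) / δ)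
            rw [div_le_iff₀ hδ] at this
            rw [mul_comm]; exact this
          · have := Nat.ceil_lt_add_one (show 0 ≤ (1 - ρ.re) / δ by apply div_nonneg (by (clear * - h3 h1; linarith)) hδ.le)
            have h5 : δ * (a ρ : ℝ) < δ * ((1 - ρ.re) / δ + 1) := mul_lt_mul_of_pos_left this hδ
            have h6 : δ * ((1 - ρ.re) / δ + 1) = 1 - ρ.re + δ := by (clear * - hδ; field_simp)
            (clear * - h5 h6; linarith)
        have hex : ∀ ρ ∈ F3, ∃ i : ℕ, X ^ δ / 2 ≤ (2 : ℝ) ^ i ∧ (2 : ℝ) ^ i ≤ X ^ (yy (δ * a ρ) / 2 + 45 * δ) ∧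
              1 / (16 * l) ≤ ‖DP (G (δ * a ρ)) (2 ^ i) 2 ρ‖ := by
          intro ρ hρ
          obtain ⟨h1, h2, h3, h4, h5, -⟩ := hF3' ρ hρ
          obtain ⟨h6, h7⟩ := hax ρ hρ
          have h8 := hp.h1
          exact (hG (δ * a ρ) (by (clear * - h3 h6 h8; linarith)) (by (clear * - h2 h7; linarith))).2 ρ h1 (by (clear * - h6; linarith)) h4 h5
        choose! iF hiF using hex
        -- the size of `P`
        set wF : ℂ → ℕ := fun ρ => Nat.log 2 ⌊‖P ρ‖ * X⌋₊ with hwF
        have hXm : X ^ (-1 : ℝ) * X = 1 := by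
          rw [Real.rpow_neg_one]; field_simp
        have hw : ∀ ρ ∈ F3, (2:ℝ) ^ wF ρ / X ≤ ‖P ρ‖ ∧ ‖P ρ‖ ≤ 2 * ((2:ℝ) ^ wF ρ / X) := by
          intro ρ hρ
          have h1 := (hF3' ρ hρ).2.2.2.2.2.2.2
          have h2 : 1 ≤ ‖P ρ‖ * X := by
            rw [← hXm]; exact mul_le_mul_of_nonneg_right h1 hXp.le
          have h3 : 1 ≤ ⌊‖P ρ‖ * X⌋₊ := Nat.le_floor (by exact_mod_cast h2)
          have h4 := Nat.pow_log_le_self 2 (x := ⌊‖P ρ‖ * X⌋₊) (by (clear * - h3; omega))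
          have h5 := Nat.lt_pow_succ_log_self (b := 2) (by norm_num) ⌊‖P ρ‖ * X⌋₊
          have h6 := Nat.floor_le (show 0 ≤ ‖P ρ‖ * X by (clear * - h2; positivity))
          have h7 := Nat.lt_floor_add_one (‖P ρ‖ * X)
          constructor
          · rw [div_le_iff₀ hXp]
            have : ((2 ^ wF ρ : ℕ) : ℝ) ≤ (⌊‖P ρ‖ * X⌋₊ : ℝ) := by exact_mod_cast h4
            push_cast at this
            (clear * - h6 this; linarith)
          · have h8 : ⌊‖P ρ‖ * X⌋₊ + 1 ≤ 2 ^ (wF ρ + 1) := h5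
            have h9 : ((⌊‖P ρ‖ * X⌋₊ + 1 : ℕ) : ℝ) ≤ ((2 ^ (wF ρ + 1) : ℕ) : ℝ) := by exact_mod_cast h8
            push_cast at h9
            rw [← mul_div_assoc, le_div_iff₀ hXp, mul_comm 2, ← pow_succ]
            (clear * - h7 h9; linarith)
        have hMM : ∀ t : ℝ, (F3.filter (fun ρ => |ρ.im - t| ≤ 1)).card ≤ ⌈C * l⌉₊ := by
          intro t
          rcases Finset.eq_empty_or_nonempty (F3.filter (fun ρ => |ρ.im - t| ≤ 1)) with he | ⟨ρ0, hρ0⟩
          · rw [he]; simp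
          have h1 := hA t (F3.filter (fun ρ => |ρ.im - t| ≤ 1)) (by
            intro ρ hρ
            rw [Finset.mem_filter] at hρ
            obtain ⟨h1, h2, -⟩ := hF3' ρ hρ.1
            exact ⟨h1, by (clear * - hδ hδ' h2; linarith), hρ.2⟩)
          rw [Finset.mem_filter] at hρ0
          obtain ⟨-, -, -, -, h5, -⟩ := hF3' ρ0 hρ0.1
          have h6 : |t| ≤ |ρ0.im| + 1 := by
            have h7 : |t| ≤ |ρ0.im| + |ρ0.im - t| := by
              have := abs_sub_abs_le_abs_sub t ρ0.im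
              rw [abs_sub_comm] at this; (clear * - this; linarith)
            (clear * - hρ0 h7; linarith [hρ0.2])
          have h8 : Real.log (|t| + 2) ≤ l := Real.log_le_log (by (clear * -; positivity)) (by (clear * - hx1 h5 h6; linarith))
          have h9 : ((F3.filter (fun ρ => |ρ.im - t| ≤ 1)).card : ℝ) ≤ ∑ ρ ∈ F3.filter (fun ρ => |ρ.im - t| ≤ 1), (mz ρ : ℝ) := by
            rw [← nsmul_one]
            apply Finset.card_nsmul_le_sum
            intro ρ hρ
            rw [Finset.mem_filter] at hρ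
            exact_mod_cast (hF3' ρ hρ.1).2.2.2.2.2.1
          have h10 : ((F3.filter (fun ρ => |ρ.im - t| ≤ 1)).card : ℝ) ≤ ⌈C * l⌉₊ :=
            le_trans h9 (le_trans h1 (le_trans (mul_le_mul_of_nonneg_left h8 hC.le) (Nat.le_ceil _)))
          exact_mod_cast h10
        obtain ⟨col, hcol1, hcol2⟩ := hS F3 ⌈C * l⌉₊ hMM
        set A0 := ⌈1 / δ⌉₊ + 1 with hA0
        set I0 := ⌈2 * l⌉₊ + 1 with hI0
        exact by
          set M0 := ⌈C * l⌉₊ with hM0
          set W0 := ⌈4 * l⌉₊ + 1 with hW0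
          set KK := Finset.range A0 ×ˢ (Finset.range I0 ×ˢ (Finset.range M0 ×ˢ Finset.range W0)) with hKK
          set φ : ℂ → ℕ × (ℕ × (ℕ × ℕ)) := fun ρ => (a ρ, (iF ρ, (col ρ, wF ρ))) with hφ
          have hlog2 : (1/2 : ℝ) ≤ Real.log 2 := by have := Real.log_two_gt_d9; (clear * - hδ hδ' this; linarith)
          have hmaps : ∀ ρ ∈ F3, φ ρ ∈ KK := by
            intro ρ hρ
            obtain ⟨h1, h2, h3, h4, h5, -⟩ := hF3' ρ hρ
            obtain ⟨h6, h7⟩ := hax ρ hρ
            obtain ⟨h8, h9, h10⟩ := hiF ρ hρ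
            simp only [hφ, hKK, Finset.mem_product, Finset.mem_range]
            refine ⟨?_, ?_, hcol1 ρ hρ, ?_⟩
            · have : a ρ ≤ ⌈1 / δ⌉₊ := by
                apply Nat.ceil_mono
                apply div_le_div_of_nonneg_right (by (clear * - hδ hδ' h2; linarith)) hδ.le
              omega
            · have e1 : yy (δ * a ρ) ≤ 0.92 := by
                unfold yy
                refine le_trans (min_le_right _ _) ?_
                rw [div_le_iff₀ (by (clear * - hδ hδ' h2 h7; linarith))]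
                (clear * - hδ hδ' h2 h7; linarith)
              exact by
                have e2 : (2:ℝ) ^ iF ρ ≤ X := by
                  calc (2:ℝ) ^ iF ρ ≤ X ^ (yy (δ * a ρ) / 2 + 45 * δ) := h9
                    _ ≤ X ^ (1:ℝ) := Real.rpow_le_rpow_of_exponent_le hX0.le (by (clear * - hδ hδ' e1; linarith))
                    _ = X := Real.rpow_one _
                have e3 : (iF ρ : ℝ) * Real.log 2 ≤ l := by
                  rw [← Real.log_pow]; exact Real.log_le_log (by positivity) e2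
                have e4 : (iF ρ : ℝ) ≤ 2 * l := by
                  have h11 : (0:ℝ) ≤ iF ρ := Nat.cast_nonneg _
                  (clear * - e3 hlog2; nlinarith)
                have e5 : (iF ρ : ℝ) ≤ ⌈2 * l⌉₊ := le_trans e4 (Nat.le_ceil _)
                have e6 : iF ρ ≤ ⌈2 * l⌉₊ := by exact_mod_cast e5
                omega
            · have e1 := (hw ρ hρ).1
              exact by
                have e2 : ‖P ρ‖ ≤ X := by
                  refine (hPb ρ (by (clear * - hδ hδ' h2; linarith)) (zero_re_lt h1).le).trans ?_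
                  calc S * X ^ (0.497 * (1 - ρ.re)) ≤ 1 * X ^ (1 : ℝ) := by
                        apply mul_le_mul hS1 _ (by positivity) (by norm_num)
                        apply Real.rpow_le_rpow_of_exponent_le hX0.le
                        (clear * - hδ hδ' h2; linarith)
                    _ = X := by rw [one_mul, Real.rpow_one]
                rw [div_le_iff₀ hXp] at e1
                have e3 : (2:ℝ) ^ wF ρ ≤ X ^ 2 := by (clear * - e1 e2 hX8; nlinarith)
                have e4 : (wF ρ : ℝ) * Real.log 2 ≤ 2 * l := by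
                  have := Real.log_le_log (by positivity) e3
                  rw [Real.log_pow, Real.log_pow] at this
                  push_cast at this
                  exact this
                have e5 : (wF ρ : ℝ) ≤ 4 * l := by
                  have h11 : (0:ℝ) ≤ wF ρ := Nat.cast_nonneg _
                  (clear * - e4 hlog2; nlinarith)
                have e6 : (wF ρ : ℝ) ≤ ⌈4 * l⌉₊ := le_trans e5 (Nat.le_ceil _)
                have e7 : wF ρ ≤ ⌈4 * l⌉₊ := by exact_mod_cast e6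
                omega
          have hKcard : (KK.card : ℝ) ≤ l ^ 4 := by
            rw [hKK, Finset.card_product, Finset.card_product, Finset.card_product, Finset.card_range,
              Finset.card_range, Finset.card_range, Finset.card_range]
            push_cast
            have e1 : (A0 : ℝ) ≤ 1 / δ + 2 := by
              rw [hA0]; push_cast
              have := Nat.ceil_lt_add_one (show 0 ≤ 1 / δ by positivity); (clear * - this; linarith)
            have e2 : (I0 : ℝ) ≤ 4 * l := by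
              rw [hI0]; push_cast
              have := Nat.ceil_lt_add_one (show 0 ≤ 2 * l by positivity); (clear * - hδ hδ' hl this; linarith)
            have e3 : (M0 : ℝ) ≤ (C + 1) * l := by
              rw [hM0]
              have := Nat.ceil_lt_add_one (show 0 ≤ C * l by positivity); (clear * - hδ hδ' hl this; linarith)
            have e4 : (W0 : ℝ) ≤ 5 * l := by
              rw [hW0]; push_cast
              have := Nat.ceil_lt_add_one (show 0 ≤ 4 * l by positivity); (clear * - hδ hδ' hl this; linarith)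
            calc (A0 : ℝ) * (I0 * (M0 * W0)) ≤ (1 / δ + 2) * ((4 * l) * (((C + 1) * l) * (5 * l))) := by
                  apply mul_le_mul e1 _ (by positivity) (by positivity)
                  apply mul_le_mul e2 _ (by positivity) (by positivity)
                  apply mul_le_mul e3 e4 (by positivity) (by positivity)
              _ = (20 * (1 / δ + 2) * (C + 1)) * l ^ 3 := by ring
              _ ≤ l * l ^ 3 := by
                  apply mul_le_mul_of_nonneg_right hx4 (by positivity)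
              _ = l ^ 4 := by ring
          set SS : ℕ × (ℕ × (ℕ × ℕ)) → ℝ → ℂ := fun κ v => ∑ ρ ∈ F3 with φ ρ = κ, f v ρ with hSdef
          exact by
            set BK : ℕ × (ℕ × (ℕ × ℕ)) → Finset ℕ :=
              fun κ => (Finset.range J).filter (fun j => 1 / l ^ 6 ≤ ‖SS κ (u j)‖) with hBK
            have hcover : (Finset.range J).filter (fun j => 1/2 * S ≤ ‖∑ ρ ∈ F, f (u j) ρ‖) ⊆ KK.biUnion BK := by
              intro j hj
              rw [Finset.mem_filter, Finset.mem_range] at hj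
              obtain ⟨hj1, hj2⟩ := hj
              obtain ⟨hu1, hu2⟩ := hu j hj1
              rw [Finset.mem_biUnion]
              by_contra hcon
              push Not at hcon
              have h1 : ∀ κ ∈ KK, ‖SS κ (u j)‖ ≤ 1 / l ^ 6 := by
                intro κ hκ
                have := hcon κ hκ
                rw [hBK, Finset.mem_filter, Finset.mem_range] at this
                push Not at this
                exact (this hj1).le
              have h2 : ‖∑ ρ ∈ F3, f (u j) ρ‖ ≤ l ^ 4 * (1 / l ^ 6) := by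
                rw [← Finset.sum_fiberwise_of_maps_to hmaps]
                refine le_trans (norm_sum_le _ _) ?_
                refine le_trans (Finset.sum_le_sum h1) ?_
                rw [Finset.sum_const, nsmul_eq_mul]
                exact mul_le_mul_of_nonneg_right hKcard (by positivity)
              have h3 : l ^ 4 * (1 / l ^ 6) = 1/80 * (80 / l ^ 2) := by field_simp
              rw [hsplit] at hj2
              have h5 := norm_add_le (∑ ρ ∈ F1, f (u j) ρ) (∑ ρ ∈ F2, f (u j) ρ + (∑ ρ ∈ F4, f (u j) ρ + ∑ ρ ∈ F3, f (u j) ρ))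
              have h6 := norm_add_le (∑ ρ ∈ F2, f (u j) ρ) (∑ ρ ∈ F4, f (u j) ρ + ∑ ρ ∈ F3, f (u j) ρ)
              have h6' := norm_add_le (∑ ρ ∈ F4, f (u j) ρ) (∑ ρ ∈ F3, f (u j) ρ)
              have h7 := hpart1 (u j) hu1
              have h8 := hpart2 (u j) hu1
              have h9 := hpart4 (u j) hu1
              rw [h3] at h2
              (clear * - hSl hS0 hj2 h2 h5 h6 h6' h7 h8 h9; linarith)
            have hBcard : ∀ κ ∈ KK, ((BK κ).card : ℝ) ≤ X ^ (0.171 : ℝ) := by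
              intro κ hκ
              have hinj : Set.InjOn u (BK κ : Set ℕ) := by
                intro j hj j' hj' he
                by_contra hne
                rw [Finset.mem_coe, hBK, Finset.mem_filter, Finset.mem_range] at hj hj'
                have := hus j hj.1 j' hj'.1 hne
                rw [he, sub_self, abs_zero] at this
                have h2 : 0 < 1 / X ^ (1/2 + 2 * d) := by positivity
                (clear * - this h2; linarith)
              have hcardU : ((BK κ).image u).card = (BK κ).card := Finset.card_image_of_injOn hinj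
              rw [← hcardU]
              rcases Finset.eq_empty_or_nonempty (F3.filter (fun ρ => φ ρ = κ)) with he | ⟨ρ0, hρ0⟩
              · have : BK κ = ∅ := by
                  rw [hBK]
                  apply Finset.filter_eq_empty_iff.mpr
                  intro j hj
                  rw [hSdef]
                  simp only [he, Finset.sum_empty, norm_zero, not_le]
                  positivity
                rw [this]; simp; positivity
              obtain ⟨ka, ki, kc, kw⟩ := κ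
              have hρ0' := Finset.mem_filter.mp hρ0
              have hκeq : ∀ ρ ∈ F3.filter (fun ρ => φ ρ = (ka, (ki, (kc, kw)))),
                  ρ ∈ F3 ∧ a ρ = ka ∧ iF ρ = ki ∧ col ρ = kc ∧ wF ρ = kw := by
                intro ρ hρ
                have h1 := Finset.mem_filter.mp hρ
                have h2 := h1.2
                simp only [hφ, Prod.mk.injEq] at h2
                exact ⟨h1.1, h2.1, h2.2.1, h2.2.2.1, h2.2.2.2⟩
              obtain ⟨g1, g2, g3, g4, g5⟩ := hκeq ρ0 hρ0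
              obtain ⟨b1, b2, b3, b4, b5, b6, b7, b7'⟩ := hF3' ρ0 g1
              obtain ⟨b8, b9⟩ := hax ρ0 g1
              obtain ⟨b10, b11, b12⟩ := hiF ρ0 g1
              rw [g2] at b8 b9 b11 b12
              rw [g3] at b10 b11 b12
              have hε0 := hp.h1
              have hGx := (hG (δ * ka) (by (clear * - b3 b8 hε0; linarith)) (by (clear * - b2 b9; linarith))).1
              apply hK (δ * ka) (2 ^ kw / X) (F3.filter (fun ρ => φ ρ = (ka, (ki, (kc, kw))))) (fun ρ => (mz ρ : ℂ) * c ρ)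
                (G (δ * ka)) (2 ^ ki)
              refine ⟨by (clear * - b3 b8; linarith), by (clear * - b2 b9; linarith), ?_, ?_, ?_, hGx, by push_cast; exact b10, by push_cast; exact b11,
                ?_, ?_, ?_, ?_, ?_, ?_⟩
              · rw [Real.rpow_neg_one, ← one_div]
                apply div_le_div_of_nonneg_right _ hXp.le
                exact one_le_pow₀ (by norm_num)
              · intro ρ hρ
                exact by
                  obtain ⟨e1, e2, e3, e4⟩ := hκeq ρ hρ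
                  obtain ⟨c1, c2⟩ := hax ρ e1
                  rw [e2] at c1 c2
                  exact ⟨by (clear * - c1; linarith), by (clear * - c2; linarith), (hF3' ρ e1).2.2.2.2.1⟩
              · intro ρ hρ ρ' hρ' hne
                obtain ⟨e1, e2, e3, e4, e5⟩ := hκeq ρ hρ
                obtain ⟨e1', e2', e3', e4', e5'⟩ := hκeq ρ' hρ'
                exact hcol2 kc ρ (Finset.mem_filter.mpr ⟨e1, e4⟩) ρ' (Finset.mem_filter.mpr ⟨e1', e4'⟩) hne
              · intro ρ hρ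
                obtain ⟨e1, e2, e3, e4⟩ := hκeq ρ hρ
                have := (hiF ρ e1).2.2
                rw [e2, e3] at this
                exact this
              · intro ρ hρ
                obtain ⟨e1, e2, e3, e4, e5⟩ := hκeq ρ hρ
                have := hw ρ e1
                rw [e5] at this
                exact this
              · intro ρ hρ
                exact by
                  obtain ⟨e1, e2, e3, e4⟩ := hκeq ρ hρ
                  obtain ⟨d1, d2, d3, d4, d5, d6, d7, d8⟩ := hF3' ρ e1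
                  rw [norm_mul, Complex.norm_natCast]
                  have h1 := hA ρ.im {ρ} (by
                    intro ρ' hρ'
                    rw [Finset.mem_singleton] at hρ'
                    subst hρ'
                    exact ⟨d1, by (clear * - hδ hδ' d2; linarith), by simp⟩)
                  rw [Finset.sum_singleton] at h1
                  have h2 : Real.log (|ρ.im| + 2) ≤ l := Real.log_le_log (by (clear * -; positivity)) (by (clear * - hx1 hδ hδ' d5; linarith))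
                  have h3 : (mz ρ : ℝ) ≤ C * l := le_trans h1 (mul_le_mul_of_nonneg_left h2 hC.le)
                  calc (mz ρ : ℝ) * ‖c ρ‖ ≤ (C * l) * 2 := mul_le_mul h3 d7 (norm_nonneg _) (by positivity)
                    _ ≤ l ^ 2 := by (clear * - hx5; linarith)
              · intro v hv
                obtain ⟨j, hj, rfl⟩ := Finset.mem_image.mp hv
                rw [hBK, Finset.mem_filter, Finset.mem_range] at hj
                exact hu j hj.1
              · intro v hv v' hv' hne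
                obtain ⟨j, hj, rfl⟩ := Finset.mem_image.mp hv
                obtain ⟨j', hj', rfl⟩ := Finset.mem_image.mp hv'
                rw [hBK, Finset.mem_filter, Finset.mem_range] at hj hj'
                exact hus j hj.1 j' hj'.1 (fun h => hne (by rw [h]))
              · intro v hv
                obtain ⟨j, hj, rfl⟩ := Finset.mem_image.mp hv
                rw [hBK, Finset.mem_filter, Finset.mem_range] at hj
                exact hj.2
            have hfinal : (((Finset.range J).filter (fun j => 1/2 * S ≤ ‖∑ ρ ∈ F, f (u j) ρ‖)).card : ℝ) ≤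
                ∑ κ ∈ KK, ((BK κ).card : ℝ) := by
              have h1 := le_trans (Finset.card_le_card hcover) Finset.card_biUnion_le
              exact_mod_cast h1
            calc (((Finset.range J).filter (fun j => 1/2 * S ≤ ‖∑ ρ ∈ F, f (u j) ρ‖)).card : ℝ) ≤
                ∑ κ ∈ KK, ((BK κ).card : ℝ) := hfinal
              _ ≤ ∑ κ ∈ KK, X ^ (0.171 : ℝ) := Finset.sum_le_sum hBcard
              _ = KK.card * X ^ (0.171 : ℝ) := by rw [Finset.sum_const, nsmul_eq_mul]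
              _ ≤ l ^ 4 * X ^ (0.171 : ℝ) := mul_le_mul_of_nonneg_right hKcard (by positivity)

end Pool.Agent.M20.Helper60.KE
end

/- Helper53.KN.Helper60.KC.ClassBoundG -/
section
/-! The bound for one class of zeros, general height exponent `τ`. -/

set_option autoImplicit false
set_option maxHeartbeats 4000000
open Filter Topology
open scoped Classical

namespace Pool.Agent.M20.Helper60.KC
open Pool.Agent.M20.Helper60.KS

/-- hypotheses of `ClassBound` -/
structure ClsG (τ ε0 δ d X x : ℝ) (Z : Finset ℂ) (c : ℂ → ℂ) (g : ℕ → ℂ) (N : ℕ) (U : Finset ℝ) : Prop where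
  hx0 : ε0 ≤ x
  hx1 : x ≤ 0.4 + δ
  hs : InStrip Z (1 - x) (1 - x + δ) (X ^ (τ + 2 * d) + 1)
  hsp : Spaced1 Z
  hg : ∀ n, ‖g n‖ ≤ (n.divisors.card : ℝ)
  hN0 : X ^ δ / 2 ≤ N
  hN1 : (N : ℝ) ≤ X ^ (yy x * τ + 45 * δ)
  hD : ∀ ρ ∈ Z, 1 / (16 * Real.log X) ≤ ‖DP g N 2 ρ‖
  hc : ∀ ρ ∈ Z, ‖c ρ‖ ≤ Real.log X ^ 2
  hU : ∀ u ∈ U, Real.log X ≤ u ∧ u ≤ Real.log X + 1
  hUs : SpacedR U (1 / X ^ (τ + 2 * d))
  hS : ∀ u ∈ U, 1 / Real.log X ^ 4 ≤ ‖∑ ρ ∈ Z, c ρ * Complex.exp ((ρ - 1) * (u : ℂ))‖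

/-- parameters -/
structure ParG (τ ε0 δ d : ℝ) : Prop where
  h1 : 0 < ε0
  h2 : ε0 ≤ 1/100
  h3 : δ = ε0 / 10 ^ 8
  h4 : 0 < d
  h5 : d ≤ δ
  h6 : 1/4 ≤ τ
  h7 : τ ≤ 1/2

lemma ParG.dpos {τ ε0 δ d : ℝ} (h : ParG τ ε0 δ d) : 0 < δ := by
  rw [h.h3]; have := h.h1; (clear * - this; positivity)

lemma ParG.dsmall {τ ε0 δ d : ℝ} (h : ParG τ ε0 δ d) : δ ≤ 1 / 10 ^ 9 := by
  have h2 := h.h2; have h3 := h.h3
  rw [h3]; linarith

/-- facts valid for large `X`; `l = log X`, `q = log N` -/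
lemma baseG {τ ε0 δ d : ℝ} (hp : ParG τ ε0 δ d) : ∀ᶠ X : ℝ in atTop, ∀ (x : ℝ) (Z : Finset ℂ) (c : ℂ → ℂ)
    (g : ℕ → ℂ) (N : ℕ) (U : Finset ℝ), ClsG τ ε0 δ d X x Z c g N U →
    8 ≤ X ∧ 10 ≤ Real.log X ∧ 1 ≤ N ∧ δ / 2 * Real.log X ≤ Real.log N ∧
      Real.log N ≤ (yy x * τ + 45 * δ) * Real.log X ∧ Real.log N ≤ Real.log X := by
  have hδ := hp.dpos
  have hτ1 := hp.h6
  have hτ2 := hp.h7
  have hδ' := hp.dsmall
  filter_upwards [small 1 0 (δ/2) (by (clear * - hδ; linarith)), eventually_ge_atTop (Real.exp 10), eventually_ge_atTop 8]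
    with X h1 h2 h8 x Z c g N U h
  have hX : (0:ℝ) < X := by (clear * - hδ hδ' h8; linarith)
  have hl : 10 ≤ Real.log X := by
    rw [Real.le_log_iff_exp_le hX]; exact h2
  have hl0 : 0 < Real.log X := by (clear * - hδ hδ' hl; linarith)
  have hN0 := h.hN0
  exact by
    have hXd : (0:ℝ) < X ^ δ := Real.rpow_pos_of_pos hX _
    have hNpos : (0:ℝ) < N := by (clear * - hN0 hXd; linarith)
    have hN1 : 1 ≤ N := by
      have : 0 < N := by exact_mod_cast hNpos
      omega
    have h3 : Real.log (X ^ δ / 2) ≤ Real.log N := Real.log_le_log (by positivity) hN0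
    rw [Real.log_div (by positivity) (by norm_num), Real.log_rpow hX] at h3
    have h4 : Real.log 2 ≤ 1 := by have := Real.log_two_lt_d9; (clear * - hδ hδ' this; linarith)
    have h5 : Real.log N ≤ (yy x * τ + 45 * δ) * Real.log X := by
      rw [← Real.log_rpow hX]; exact Real.log_le_log hNpos h.hN1
    have h6 : yy x ≤ 0.92 := by
      unfold yy
      refine le_trans (min_le_right _ _) ?_
      have hx1 := h.hx1
      rw [div_le_iff₀ (by (clear * - hδ hδ' hx1; linarith))]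
      (clear * - hδ hδ' hx1; linarith)
    refine ⟨h8, hl, hN1, ?_, h5, ?_⟩
    · (clear * - h1 h3 h4; nlinarith)
    · refine le_trans h5 ?_
      exact by
        have h7 : yy x * τ ≤ 0.92 * τ := mul_le_mul_of_nonneg_right h6 (by (clear * - hδ hτ1 hδ'; linarith))
        have : (yy x * τ + 45 * δ) ≤ 1 := by (clear * - hδ hτ2 hδ' h7; linarith)
        (clear * - hτ2 hδ' h1 h7 hδ; nlinarith)

/-- powers in the class -/
lemma pow_classG (hP : PowDP) {τ ε0 δ d : ℝ} (hp : ParG τ ε0 δ d) (k : ℕ) (hk : 1 ≤ k) (ε1 : ℝ) (hε1 : 0 < ε1) :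
    ∃ C1 : ℝ, 0 < C1 ∧ ∀ᶠ X : ℝ in atTop, ∀ (x : ℝ) (Z : Finset ℂ) (c : ℂ → ℂ)
    (g : ℕ → ℂ) (N : ℕ) (U : Finset ℝ), ClsG τ ε0 δ d X x Z c g N U →
    ∃ b : ℕ → ℂ, (∀ n, ‖b n‖ ≤ C1 * (N : ℝ) ^ ε1) ∧
      ∀ ρ ∈ Z, (1 / (16 * Real.log X)) ^ k ≤ ‖DP b (N ^ k) (2 ^ k) ρ‖ := by
  obtain ⟨C1, hC1, h⟩ := hP k ε1 hk hε1
  refine ⟨C1, hC1, ?_⟩
  filter_upwards [baseG hp] with X hb x Z c g N U hcl
  obtain ⟨h8, hl, hN, -⟩ := hb x Z c g N U hcl
  obtain ⟨b, hb1, hb2⟩ := h g N hN hcl.hg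
  refine ⟨b, hb1, fun ρ hρ => ?_⟩
  rw [← hb2, norm_pow]
  exact pow_le_pow_left₀ (by (clear * - hl; positivity)) (hcl.hD ρ hρ) k

/-- height -/
lemma logTG {X τ d : ℝ} (hX : 8 ≤ X) (hd : 0 < d) (hτ : 1/4 ≤ τ) :
    1 ≤ X ^ (τ + 2 * d) ∧ τ * Real.log X ≤ Real.log (X ^ (τ + 2 * d) + 1) ∧
      Real.log (X ^ (τ + 2 * d) + 1) ≤ (τ + 2 * d) * Real.log X + 1 := by
  have h1 : 1 ≤ X ^ (τ + 2 * d) := Real.one_le_rpow (by (clear * - hX; linarith)) (by (clear * - hd hτ; linarith))
  have hX0 : 0 < X := by (clear * - hX; linarith)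
  have hl : 0 < Real.log X := Real.log_pos (by (clear * - hX; linarith))
  refine ⟨h1, ?_, ?_⟩
  · calc τ * Real.log X ≤ (τ + 2 * d) * Real.log X := by (clear * - hd hl; nlinarith)
      _ = Real.log (X ^ (τ + 2 * d)) := (Real.log_rpow hX0 _).symm
      _ ≤ _ := Real.log_le_log (by linarith) (by (clear * -; linarith))
  · calc Real.log (X ^ (τ + 2 * d) + 1) ≤ Real.log (2 * X ^ (τ + 2 * d)) :=
          Real.log_le_log (by (clear * - h1; linarith)) (by (clear * - h1; linarith))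
      _ = Real.log 2 + (τ + 2 * d) * Real.log X := by
          rw [Real.log_mul (by norm_num) (by (clear * - h1; linarith)), Real.log_rpow hX0]
      _ ≤ _ := by have := Real.log_two_lt_d9; (clear * - this; linarith)

/-- first bound: mean values -/
lemma P1G (hMV : MVCount) (hP : PowDP) {τ ε0 δ d : ℝ} (hp : ParG τ ε0 δ d) (k : ℕ) (hk : 1 ≤ k) :
    ∀ᶠ X : ℝ in atTop, ∀ (x : ℝ) (Z : Finset ℂ) (c : ℂ → ℂ) (g : ℕ → ℂ) (N : ℕ) (U : Finset ℝ),
    ClsG τ ε0 δ d X x Z c g N U → Z.Nonempty → (k : ℝ) * Real.log N ≤ 2 * Real.log X →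
    Real.log Z.card ≤ max (2 * x * (k * Real.log N))
      (τ * Real.log X - k * Real.log N * (1 - 2 * x)) + 40 * δ * Real.log X := by
  have hδ := hp.dpos
  have hτ1 := hp.h6
  have hτ2 := hp.h7
  have hδ' := hp.dsmall
  have hd4 := hp.h4
  have hd5 := hp.h5
  obtain ⟨C1, hC1, hpc⟩ := pow_classG hP hp k hk (δ / 10) (by (clear * - hδ; positivity))
  obtain ⟨C, hC, hmv⟩ := hMV (2 ^ k) (Nat.one_le_two_pow)
  filter_upwards [baseG hp, hpc, small (2 * k * Real.log 16 + Real.log C + 2 * Real.log C1 + 5 + Real.log 2)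
    (2 * k + 2) δ hδ] with X hb hpc hsm x Z c g N U h hZ hkq
  obtain ⟨h8, hl, hN, hq0, hq1, hq2⟩ := hb x Z c g N U h
  obtain ⟨b, hb1, hb2⟩ := hpc x Z c g N U h
  have hx0 := h.hx0
  have hx1 := h.hx1
  exact by
    have h1 := hp.h1
    obtain ⟨hT1, hT2, hT3⟩ := logTG h8 hd4 hτ1
    have hN' : (1:ℝ) ≤ N := by exact_mod_cast hN
    have hQ : 1 ≤ N ^ k := Nat.one_le_pow _ _ (by omega)
    have hl0 : 0 < Real.log X := by (clear * - hδ hδ' hl; linarith)
    have hkk : (1:ℝ) ≤ k := by exact_mod_cast hk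
    have hZc : (0:ℝ) < Z.card := by exact_mod_cast hZ.card_pos
    set l := Real.log X with hldef
    set q := Real.log N with hqdef
    set T := X ^ (τ + 2 * d) + 1 with hTdef
    exact by
      clear * - hN' hl hC1 hN hmv hQ hδ hδ' hT1 hl0 hx1 hp hx0 h1 hb1 h hb2 hZ hkq hq2 hd5 hsm hT3 hqdef hC h8 hZc; have hq00 : 0 ≤ q := Real.log_nonneg hN'
      have hVpos : 0 < (1 / (16 * l)) ^ k := by (clear * - hl; positivity)
      have hB : 0 < C1 * (N:ℝ) ^ (δ / 10) := by (clear * - hC1 hN; positivity)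
      have hmain := hmv Z b (N ^ k) (C1 * (N:ℝ) ^ (δ/10)) ((1 / (16 * l)) ^ k) (1 - x) (1 - x + δ) T (1 / l) hQ
        (by (clear * - hδ hδ' hT1; linarith)) (by (clear * - hl; positivity)) (by rw [div_le_div_iff₀ hl0 (by norm_num)]; (clear * - hδ hδ' hl; linarith)) (by (clear * - hδ hδ' hx1; linarith))
        (by (clear * - hδ; linarith)) (by (clear * - hδ hδ'; linarith)) (by have := hp.h3; (clear * - hx0 h1 this; linarith)) hVpos hB.le hb1 h.hs h.hsp hb2
      have hQpos : (0:ℝ) < ((N ^ k : ℕ) : ℝ) := by exact_mod_cast hQ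
      have hlogQ : Real.log ((N ^ k : ℕ) : ℝ) = k * q := by push_cast; rw [Real.log_pow]
      have hlg := Real.log_le_log (by (clear * - hZ hl; positivity)) hmain
      have hTQ : (0:ℝ) < T + ((N ^ k : ℕ) : ℝ) := by (clear * - hδ hδ' hT1 hQpos; linarith)
      exact by
        rw [Real.log_mul hZc.ne' (by (clear * - hl; positivity)), Real.log_pow, Real.log_pow, Real.log_div (by norm_num) (by (clear * - hl; positivity)),
          Real.log_one, Real.log_mul (by norm_num) hl0.ne', Real.log_mul (by (clear * - hC hC1 hN hl h8; positivity)) (by positivity),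
          Real.log_mul (by (clear * - hC hC1 hN hl; positivity)) hTQ.ne', Real.log_div (by (clear * - hC hC1 hN; positivity)) (by positivity), Real.log_mul hC.ne' (by positivity),
          Real.log_pow, Real.log_mul hC1.ne' (by positivity), Real.log_rpow (by (clear * - hδ hδ' hN'; linarith)), Real.log_rpow hQpos,
          Real.log_pow, Real.log_div (by norm_num) hl0.ne', Real.log_one, hlogQ] at hlg
        have hqq : (2 * (1 / l)) * (k * q) ≤ 4 := by
          have : (2 * (1 / l)) * (k * q) = 2 * (k * q) / l := by ring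
          rw [this, div_le_iff₀ hl0]; (clear * - hkq; linarith)
        have hexp : (1 - 2 * (1 - x) + 2 * (1 / l)) * (k * q) = -(k * q * (1 - 2 * x)) + (2 * (1 / l)) * (k * q) := by ring
        rw [hexp] at hlg
        have hdq : δ / 10 * q ≤ δ / 10 * l := mul_le_mul_of_nonneg_left hq2 (by positivity)
        simp only [Nat.cast_ofNat] at hlg
        rw [← hqdef] at hlg
        rcases log_add_le (show 0 < T by (clear * - hδ hδ' hT1; linarith)) hQpos with hc | hc
        · refine le_trans ?_ (add_le_add_left (le_max_right _ _) _)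
          have hdl : d * l ≤ δ * l := mul_le_mul_of_nonneg_right hd5 hl0.le
          have hdl0 : 0 ≤ δ * l := by (clear * - hδ hl; positivity)
          (clear * - hsm hT3 hlg hqq hdq hc hdl hdl0; linarith)
        · refine le_trans ?_ (add_le_add_left (le_max_left _ _) _)
          rw [hlogQ] at hc
          have hdl0 : 0 ≤ δ * l := by (clear * - hδ hl; positivity)
          (clear * - hδ hδ' hsm hlg hqq hdq hc hdl0; linarith)

/-- second bound: Huxley -/
lemma P2G (hMV : HuxleyCount) (hP : PowDP) {τ ε0 δ d : ℝ} (hp : ParG τ ε0 δ d) (k : ℕ) (hk : 1 ≤ k) :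
    ∀ᶠ X : ℝ in atTop, ∀ (x : ℝ) (Z : Finset ℂ) (c : ℂ → ℂ) (g : ℕ → ℂ) (N : ℕ) (U : Finset ℝ),
    ClsG τ ε0 δ d X x Z c g N U → Z.Nonempty → (k : ℝ) * Real.log N ≤ 2 * Real.log X →
    Real.log Z.card ≤ max (2 * x * (k * Real.log N))
      (τ * Real.log X - k * Real.log N * (2 - 6 * x)) + 40 * δ * Real.log X := by
  have hδ := hp.dpos
  have hτ1 := hp.h6
  have hτ2 := hp.h7
  have hδ' := hp.dsmall
  have hd4 := hp.h4
  have hd5 := hp.h5
  obtain ⟨C1, hC1, hpc⟩ := pow_classG hP hp k hk (δ / 10) (by (clear * - hδ; positivity))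
  obtain ⟨C, hC, hmv⟩ := hMV (2 ^ k) (Nat.one_le_two_pow)
  filter_upwards [baseG hp, hpc, small (2 * k * Real.log 16 + Real.log C + 2 * Real.log C1 + 2 * Real.log 2)
    (2 * k + 1) δ hδ, small (6 * k * Real.log 16 + Real.log C + 6 * Real.log C1 + 1 + 2 * Real.log 2)
    (6 * k + 1) δ hδ] with X hb hpc hsm1 hsm2 x Z c g N U h hZ hkq
  obtain ⟨h8, hl, hN, hq0, hq1, hq2⟩ := hb x Z c g N U h
  obtain ⟨b, hb1, hb2⟩ := hpc x Z c g N U h
  have hx0 := h.hx0
  have hx1 := h.hx1
  exact by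
    have h1 := hp.h1
    obtain ⟨hT1, hT2, hT3⟩ := logTG h8 hd4 hτ1
    have hN' : (1:ℝ) ≤ N := by exact_mod_cast hN
    have hQ : 1 ≤ N ^ k := Nat.one_le_pow _ _ (by omega)
    have hl0 : 0 < Real.log X := by (clear * - hδ hδ' hl; linarith)
    have hkk : (1:ℝ) ≤ k := by exact_mod_cast hk
    have hZc : (0:ℝ) < Z.card := by exact_mod_cast hZ.card_pos
    have hT4 : Real.log (X ^ (τ + 2 * d) + 1 + 2) ≤ 2 * Real.log X := by
      rw [← Real.log_rpow (by (clear * - hδ hδ' h8; linarith) : (0:ℝ) < X)]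
      apply Real.log_le_log (by (clear * - hδ hδ' hT1; linarith))
      have e1 : X ^ (τ + 2 * d) ≤ X := by
        calc X ^ (τ + 2 * d) ≤ X ^ (1:ℝ) := Real.rpow_le_rpow_of_exponent_le (by (clear * - hδ hδ' h8; linarith)) (by (clear * - hδ hτ2 hδ' hd5; linarith))
          _ = X := Real.rpow_one _
      have e2 : X ^ (2:ℝ) = X * X := by rw [show (2:ℝ) = ((2:ℕ):ℝ) by norm_num, Real.rpow_natCast]; ring
      rw [e2]; (clear * - hδ' h8 e1 hδ; nlinarith)
    set l := Real.log X with hldef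
    set q := Real.log N with hqdef
    set T := X ^ (τ + 2 * d) + 1 with hTdef
    exact by
      have hq00 : 0 ≤ q := Real.log_nonneg hN'
      have hVpos : 0 < (1 / (16 * l)) ^ k := by (clear * - hl; positivity)
      have hB : 0 < C1 * (N:ℝ) ^ (δ / 10) := by (clear * - hC1 hN; positivity)
      have hmain := hmv Z b (N ^ k) (C1 * (N:ℝ) ^ (δ/10)) ((1 / (16 * l)) ^ k) (1 - x) (1 - x + δ) T hQ
        (by (clear * - hδ hδ' hT1; linarith)) (by (clear * - hδ hδ' hx1; linarith))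
        (by (clear * - hδ; linarith)) (by (clear * - hδ hδ'; linarith)) (by have := hp.h3; (clear * - hx0 h1 this; linarith)) hVpos hB hb1 h.hs h.hsp hb2
      have hQpos : (0:ℝ) < ((N ^ k : ℕ) : ℝ) := by exact_mod_cast hQ
      have hlogQ : Real.log ((N ^ k : ℕ) : ℝ) = k * q := by push_cast; rw [Real.log_pow]
      have hlT : 0 < Real.log (T + 2) := Real.log_pos (by (clear * - hδ hδ' hT1; linarith))
      have hllT : Real.log (Real.log (T + 2)) ≤ Real.log 2 + Real.log l := by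
        rw [← Real.log_mul (by norm_num) hl0.ne']
        exact Real.log_le_log hlT hT4
      exact by
        have hlg := Real.log_le_log (by (clear * - hZ; positivity)) hmain
        have hTp : 0 < T := by (clear * - hδ hδ' hT1; linarith)
        have hin : (0:ℝ) < T * ((C1 * (N:ℝ) ^ (δ / 10)) ^ 4 * ((N ^ k : ℕ) : ℝ) ^ (2 - 4 * (1 - x)) / ((1 / (16 * l)) ^ k) ^ 4) := by
          (clear * - h8 hC1 hN hl; positivity)
        have hlogin : Real.log (T * ((C1 * (N:ℝ) ^ (δ / 10)) ^ 4 * ((N ^ k : ℕ) : ℝ) ^ (2 - 4 * (1 - x)) / ((1 / (16 * l)) ^ k) ^ 4)) =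
            Real.log T + (4 * (Real.log C1 + δ / 10 * q) + (2 - 4 * (1 - x)) * (k * q) + 4 * (k * (Real.log 16 + Real.log l))) := by
          rw [Real.log_mul hTp.ne' (by (clear * - hC1 hN hl; positivity)), Real.log_div (by (clear * - hC1 hN; positivity)) (by (clear * - hl; positivity)),
            Real.log_mul (by (clear * - hC1 hN; positivity)) (by positivity), Real.log_pow, Real.log_pow, Real.log_pow,
            Real.log_mul hC1.ne' (by positivity), Real.log_rpow (by (clear * - hδ hδ' hN'; linarith)), Real.log_rpow hQpos,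
            Real.log_div (by norm_num) (by positivity), Real.log_one, Real.log_mul (by norm_num) hl0.ne', hlogQ]
          simp only [Nat.cast_ofNat]
          rw [← hqdef]
          ring
        rw [Real.log_mul (by (clear * - hC hC1 hN hl hlT; positivity)) (by (clear * - h8 hC1 hN hl; positivity)), Real.log_mul (by (clear * - hC hC1 hN hl; positivity)) hlT.ne', Real.log_mul hC.ne' (by (clear * - hC1 hN hl; positivity)),
          Real.log_div (by (clear * - hC1 hN; positivity)) (by positivity), Real.log_mul (by positivity) (by positivity),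
          Real.log_pow, Real.log_mul hC1.ne' (by positivity), Real.log_rpow (by (clear * - hδ hδ' hN'; linarith)), Real.log_rpow hQpos,
          Real.log_pow, Real.log_pow, Real.log_div (by norm_num) (by (clear * - hl; positivity)), Real.log_one,
          Real.log_mul (by norm_num) hl0.ne', hlogQ] at hlg
        have hdq : δ / 10 * q ≤ δ / 10 * l := mul_le_mul_of_nonneg_left hq2 (by (clear * - hδ; positivity))
        simp only [Nat.cast_ofNat] at hlg
        rw [← hqdef] at hlg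
        have hdl0 : 0 ≤ δ * l := by (clear * - hδ hl; positivity)
        have hdl : d * l ≤ δ * l := mul_le_mul_of_nonneg_right hd5 hl0.le
        rcases log_add_le one_pos hin with hc | hc
        · refine le_trans ?_ (add_le_add_left (le_max_left _ _) _)
          exact by
            rw [Real.log_one] at hc
            (clear * - hsm1 hllT hlg hdq hdl0 hc; linarith)
        · refine le_trans ?_ (add_le_add_left (le_max_right _ _) _)
          exact by
            rw [hlogin] at hc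
            (clear * - hsm2 hT3 hllT hlg hdq hdl0 hdl hc; linarith)

/-- third bound -/
lemma P3G {τ ε0 δ d : ℝ} (hp : ParG τ ε0 δ d) :
    ∀ᶠ X : ℝ in atTop, ∀ (x : ℝ) (Z : Finset ℂ) (c : ℂ → ℂ) (g : ℕ → ℂ) (N : ℕ) (U : Finset ℝ),
    ClsG τ ε0 δ d X x Z c g N U → U.Nonempty →
    Z.Nonempty ∧ (x - 40 * δ) * Real.log X ≤ Real.log Z.card := by
  have hδ := hp.dpos
  have hτ1 := hp.h6
  have hτ2 := hp.h7
  have hδ' := hp.dsmall
  filter_upwards [baseG hp, small 0 6 δ hδ] with X hb hsm x Z c g N U h hU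
  obtain ⟨h8, hl, hN, hq0, hq1, hq2⟩ := hb x Z c g N U h
  obtain ⟨u, hu⟩ := hU
  have hu1 := h.hS u hu
  obtain ⟨hu2, hu3⟩ := h.hU u hu
  have hl0 : 0 < Real.log X := by (clear * - hδ hδ' hl; linarith)
  have hx0 := h.hx0
  have h1 := hp.h1
  exact by
    have h3 := hp.h3
    have hterm : ∀ ρ ∈ Z, ‖c ρ * Complex.exp ((ρ - 1) * (u : ℂ))‖ ≤
        Real.log X ^ 2 * Real.exp ((-x + δ) * Real.log X) := by
      intro ρ hρ
      rw [norm_mul, Complex.norm_exp]
      apply mul_le_mul (h.hc ρ hρ) _ (Real.exp_pos _).le (by positivity)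
      apply Real.exp_le_exp.mpr
      have e : ((ρ - 1) * (u:ℂ)).re = (ρ.re - 1) * u := by
        simp [Complex.mul_re]
      rw [e]
      have h4 := (h.hs ρ hρ).2.1
      have : (ρ.re - 1) * u ≤ (-x + δ) * u := by
        apply mul_le_mul_of_nonneg_right (by (clear * - h4; linarith)) (by (clear * - hδ hδ' hl hu2; linarith))
      have h5 : (-x + δ) * u ≤ (-x + δ) * Real.log X := by
        apply mul_le_mul_of_nonpos_left hu2 (by (clear * - hδ hx0 h3; linarith))
      (clear * - this h5; linarith)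
    have hsum : 1 / Real.log X ^ 4 ≤ Z.card * (Real.log X ^ 2 * Real.exp ((-x + δ) * Real.log X)) := by
      refine le_trans hu1 ?_
      refine le_trans (norm_sum_le _ _) ?_
      refine le_trans (Finset.sum_le_sum hterm) ?_
      simp
    have hZ : Z.Nonempty := by
      rw [Finset.nonempty_iff_ne_empty]
      intro hZe
      rw [hZe] at hsum
      simp at hsum
      have : 0 < Real.log X ^ 4 := by positivity
      (clear * - hsum this; linarith)
    refine ⟨hZ, ?_⟩
    have hZc : (0:ℝ) < Z.card := by exact_mod_cast hZ.card_pos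
    have hlg := Real.log_le_log (by (clear * - hl; positivity)) hsum
    rw [Real.log_div (by norm_num) (by positivity), Real.log_one, Real.log_pow, Real.log_mul hZc.ne' (by (clear * - hl; positivity)),
      Real.log_mul (by positivity) (by positivity), Real.log_pow, Real.log_exp] at hlg
    simp only [Nat.cast_ofNat] at hlg
    have hdl0 : 0 ≤ δ * Real.log X := by (clear * - hδ hl; positivity)
    (clear * - hsm hlg hdl0; linarith)

lemma T_leG {X τ d : ℝ} (hX : 8 ≤ X) (hl : 10 ≤ Real.log X) (hd : 0 < d) (hd1 : d ≤ 1 / 10 ^ 9)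
    (hτ : 1/4 ≤ τ) (hτ2 : τ ≤ 1/2) :
    X ^ (τ + 2 * d) + 1 ≤ X := by
  obtain ⟨h1, -, h3⟩ := logTG hX hd hτ
  have hX0 : (0:ℝ) < X := by linarith
  rw [← Real.log_le_log_iff (by (clear * - hd hd1 h1; linarith)) hX0]
  have : (τ + 2 * d) * Real.log X ≤ (1/2 + 2 * (1 / 10 ^ 9)) * Real.log X := by
    apply mul_le_mul_of_nonneg_right (by (clear * - hd1 hτ2; linarith)) (by (clear * - hl hd hd1; linarith))
  (clear * - hl hd hd1 h3 this; linarith)

/-- fourth bound: S-lemma -/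
lemma P4G (hS : SLemma) (hP : PowDP) {τ ε0 δ d : ℝ} (hp : ParG τ ε0 δ d) (k : ℕ) (hk : 1 ≤ k) :
    ∀ᶠ X : ℝ in atTop, ∀ (x : ℝ) (Z : Finset ℂ) (c : ℂ → ℂ) (g : ℕ → ℂ) (N : ℕ) (U : Finset ℝ),
    ClsG τ ε0 δ d X x Z c g N U → Z.Nonempty → U.Nonempty → (k : ℝ) * Real.log N ≤ 2 * Real.log X →
    Real.log Z.card + 2 * x * (k * Real.log N) ≤ (2 * x - 50 * δ) * Real.log X →
    Real.log U.card ≤ max (τ * Real.log X + Real.log Z.card - 2 * x * Real.log X - k * Real.log N * (1 - 2 * x))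
      (4 * (τ * Real.log X + Real.log Z.card - 2 * x * Real.log X - k * Real.log N * (1 - 2 * x)) -
        τ * Real.log X) + 40 * δ * Real.log X := by
  have hδ := hp.dpos
  have hτ1 := hp.h6
  have hτ2 := hp.h7
  have hδ' := hp.dsmall
  have hd4 := hp.h4
  have hd5 := hp.h5
  obtain ⟨C1, hC1, hpc⟩ := pow_classG hP hp k hk (δ / 10) (by (clear * - hδ; positivity))
  obtain ⟨C, hC, hmv⟩ := hS (2 ^ k) (δ / 10) (Nat.one_le_two_pow) (by positivity)
  filter_upwards [baseG hp, hpc, small (2 * k * Real.log 16 + Real.log C + 2 * Real.log C1 + 2 * Real.log 2 + 1)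
    (2 * k + 12) δ hδ, small (2 * k * Real.log 16 + Real.log C + 2 * Real.log C1 + Real.log 2)
    (2 * k + 12) δ hδ] with X hb hpc hsm1 hsm2 x Z c g N U h hZ hU hkq hcond
  obtain ⟨h8, hl, hN, hq0, hq1, hq2⟩ := hb x Z c g N U h
  obtain ⟨b, hb1, hb2⟩ := hpc x Z c g N U h
  have hx0 := h.hx0
  have hx1 := h.hx1
  exact by
    have h1 := hp.h1
    have h3 := hp.h3
    obtain ⟨hT1, hT2, hT3⟩ := logTG h8 hd4 hτ1
    have hN' : (1:ℝ) ≤ N := by exact_mod_cast hN
    have hQ : 1 ≤ N ^ k := Nat.one_le_pow _ _ (by omega)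
    have hl0 : 0 < Real.log X := by (clear * - hδ hδ' hl; linarith)
    have hkk : (1:ℝ) ≤ k := by exact_mod_cast hk
    have hZc : (0:ℝ) < Z.card := by exact_mod_cast hZ.card_pos
    have hUc : (0:ℝ) < U.card := by exact_mod_cast hU.card_pos
    exact by
      have hTX := T_leG h8 hl hd4 (by (clear * - hδ' hd5; linarith)) hτ1 hτ2
      have hX0 : (0:ℝ) < X := by (clear * - hδ hδ' h8; linarith)
      have hQpos : (0:ℝ) < ((N ^ k : ℕ) : ℝ) := by exact_mod_cast hQ
      have hlogQ : Real.log ((N ^ k : ℕ) : ℝ) = k * Real.log N := by push_cast; rw [Real.log_pow]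
      have hQX : ((N ^ k : ℕ) : ℝ) ≤ X ^ 2 := by
        rw [← Real.log_le_log_iff hQpos (by positivity), hlogQ, Real.log_pow]
        simpa using hkq
      have hspT : SpacedR U (1 / (X ^ (τ + 2 * d) + 1)) := by
        intro u hu u' hu' hne
        refine le_trans ?_ (h.hUs u hu u' hu' hne)
        apply one_div_le_one_div_of_le (by (clear * - hδ hδ' hT1; linarith)) (by (clear * - hδ hδ'; linarith))
      set l := Real.log X with hldef
      set q := Real.log N with hqdef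
      set T := X ^ (τ + 2 * d) + 1 with hTdef
      have hq00 : 0 ≤ q := Real.log_nonneg hN'
      have hVpos : 0 < (1 / (16 * l)) ^ k := by (clear * - hl; positivity)
      have hB : 0 < C1 * (N:ℝ) ^ (δ / 10) := by (clear * - hC1 hN; positivity)
      exact by
        have hTp : 0 < T := by (clear * - hδ hδ' hT1; linarith)
        have hmain := hmv X T (1 - x) (1 - x + δ) (C1 * (N:ℝ) ^ (δ/10)) ((1 / (16 * l)) ^ k) (l ^ 2) (1 / l ^ 4) Z c b (N ^ k) U
          h8 (by (clear * - hδ hδ' hT1; linarith)) hTX hQ hQX (by (clear * - hδ hδ' hx1; linarith)) (by (clear * - hδ; linarith)) (by (clear * - hδ hδ'; linarith)) (by (clear * - hx0 h1 h3; linarith)) hVpos hB.le (by positivity)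
          (by positivity) hb1 h.hs h.hsp hb2 h.hc h.hU hspT h.hS
        set P : ℝ := C * X ^ (δ / 10) * Z.card * (l ^ 2) ^ 2 * (C1 * (N:ℝ) ^ (δ/10)) ^ 2 * T * X ^ (2 * (1 - x + δ - 1)) *
          ((N ^ k : ℕ) : ℝ) ^ (-2 * (1 - x)) with hPdef
        set D : ℝ := (1 / l ^ 4) ^ 2 * ((1 / (16 * l)) ^ k) ^ 2 with hDdef
        have hPp : 0 < P := by
          clear * - hC hC1 hX0 hZc hTp hl hN hQpos
          positivity
        have hDp : 0 < D := by (clear * - hl; positivity)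
        set Q : ℝ := ((N ^ k : ℕ) : ℝ) with hQdef
        have hlogP : Real.log P = Real.log C + δ / 10 * l + Real.log Z.card + 4 * Real.log l +
            2 * (Real.log C1 + δ / 10 * q) + Real.log T + 2 * (-x + δ) * l - 2 * (1 - x) * (k * q) := by
          clear * - hPdef hC hC1 hX0 hZc hTp hl hN hN' hQpos hlogQ hδ hδ' hqdef
          rw [hPdef, Real.log_mul (by positivity) (by positivity), Real.log_mul (by positivity) (by positivity),
            Real.log_mul (by positivity) hTp.ne', Real.log_mul (by positivity) (by positivity),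
            Real.log_mul (by positivity) (by (clear * - hl; positivity)), Real.log_mul (by positivity) hZc.ne',
            Real.log_mul hC.ne' (by positivity), Real.log_pow, Real.log_pow, Real.log_pow, Real.log_mul hC1.ne' (by positivity),
            Real.log_rpow hX0, Real.log_rpow hX0, Real.log_rpow (by (clear * - hδ hδ' hN'; linarith)), Real.log_rpow hQpos, hlogQ]
          simp only [Nat.cast_ofNat]
          rw [← hqdef]
          ring
        have hlogD : Real.log D = -(8 * Real.log l) - 2 * (k * (Real.log 16 + Real.log l)) := by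
          clear * - hDdef hl hl0
          rw [hDdef, Real.log_mul (by positivity) (by positivity), Real.log_pow, Real.log_pow, Real.log_pow,
            Real.log_div (by norm_num) (by (clear * - hl; positivity)), Real.log_div (by norm_num) (by (clear * - hl; positivity)), Real.log_pow,
            Real.log_one, Real.log_mul (by norm_num) hl0.ne']
          simp only [Nat.cast_ofNat]
          ring
        have hdq : δ / 10 * q ≤ δ / 10 * l := mul_le_mul_of_nonneg_left hq2 (by positivity)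
        have hdl0 : 0 ≤ δ * l := by (clear * - hδ hl; positivity)
        have hdl : d * l ≤ δ * l := mul_le_mul_of_nonneg_right hd5 hl0.le
        exact by
          have hc1 : P * Q ^ 2 / T ≤ D / 2 := by
            clear * - hPp hDp hTp hQpos hlogP hlogD hlogQ hsm2 hcond hdq hdl0
            rw [← Real.log_le_log_iff (by positivity) (by positivity), Real.log_div (by positivity) hTp.ne',
              Real.log_mul hPp.ne' (by positivity), Real.log_pow, Real.log_div hDp.ne' (by norm_num), hlogP, hlogD, hlogQ]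
            simp only [Nat.cast_ofNat]
            (clear * - hsm2 hcond hdq hdl0; linarith)
          set M' : ℝ := 1 + ((U.card : ℝ) ^ 3 / T) ^ (1/4 : ℝ) with hM'def
          have hM'p : 0 < M' := by
            clear * - hUc hTp
            positivity
          have hc2 : D * U.card ≤ 2 * P * Q * M' := by
            have e1 : D * (U.card : ℝ) ^ 2 ≤ P * (U.card * Q * M' + (U.card : ℝ) ^ 2 * Q ^ 2 / T) := by
              calc D * (U.card : ℝ) ^ 2 = (U.card : ℝ) ^ 2 * (1 / l ^ 4) ^ 2 * ((1 / (16 * l)) ^ k) ^ 2 := by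
                    rw [hDdef]; ring
                _ ≤ _ := hmain
            have e2 : P * (U.card * Q * M' + (U.card : ℝ) ^ 2 * Q ^ 2 / T) =
                U.card * (P * Q * M') + (U.card : ℝ) ^ 2 * (P * Q ^ 2 / T) := by ring
            have e3 : (U.card : ℝ) ^ 2 * (P * Q ^ 2 / T) ≤ (U.card : ℝ) ^ 2 * (D / 2) :=
              mul_le_mul_of_nonneg_left hc1 (by positivity)
            have e4 : U.card * (D * U.card) ≤ U.card * (2 * P * Q * M') := by
              rw [e2] at e1; (clear * - e1 e3; linarith)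
            exact le_of_mul_le_mul_left e4 hUc
          have hlg := Real.log_le_log (mul_pos hDp hUc) hc2
          rw [Real.log_mul hDp.ne' hUc.ne', Real.log_mul (mul_pos (mul_pos two_pos hPp) hQpos).ne' hM'p.ne',
            Real.log_mul (mul_pos two_pos hPp).ne' hQpos.ne',
            Real.log_mul two_ne_zero hPp.ne', hlogP, hlogD, hlogQ] at hlg
          rcases log_add_le one_pos (show 0 < ((U.card : ℝ) ^ 3 / T) ^ (1/4 : ℝ) by positivity) with hc | hc
          · refine le_trans ?_ (add_le_add_left (le_max_left _ _) _)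
            exact by
              rw [Real.log_one] at hc
              (clear * - hsm1 hT3 hdq hdl0 hdl hlg hc; linarith)
          · refine le_trans ?_ (add_le_add_left (le_max_right _ _) _)
            exact by
              rw [Real.log_rpow (by positivity), Real.log_div (by positivity) hTp.ne', Real.log_pow] at hc
              simp only [Nat.cast_ofNat] at hc
              (clear * - hδ hδ' hsm1 hT3 hdq hdl0 hdl hlg hc; linarith)

/-- fifth bound: energy -/
lemma P5G (hF : FourthU) (hE : EnergyG) (hP : PowDP) {τ ε0 δ d : ℝ} (hp : ParG τ ε0 δ d) (k : ℕ) (hk : 1 ≤ k) :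
    ∀ᶠ X : ℝ in atTop, ∀ (x : ℝ) (Z : Finset ℂ) (c : ℂ → ℂ) (g : ℕ → ℂ) (N : ℕ) (U : Finset ℝ),
    ClsG τ ε0 δ d X x Z c g N U → Z.Nonempty → U.Nonempty → (k : ℝ) * Real.log N ≤ 2 * Real.log X →
    Real.log U.card ≤ τ * Real.log X - 4 * x * Real.log X + max (4 * x * (k * Real.log N) + Real.log Z.card)
      (τ * Real.log X + 2 * Real.log Z.card - (2 - 4 * x) * (k * Real.log N)) + 40 * δ * Real.log X := by
  have hδ := hp.dpos
  have hτ1 := hp.h6
  have hτ2 := hp.h7
  have hδ' := hp.dsmall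
  have hd4 := hp.h4
  have hd5 := hp.h5
  obtain ⟨C1, hC1, hpc⟩ := pow_classG hP hp k hk (δ / 10) (by positivity)
  obtain ⟨CF, hCF, hfu⟩ := hF
  obtain ⟨C, hC, hmv⟩ := hE (2 ^ k) (Nat.one_le_two_pow)
  filter_upwards [baseG hp, hpc, small (4 * k * Real.log 16 + Real.log CF + 2 * Real.log C + 4 * Real.log C1 +
    2 * Real.log 2 + 2 * Real.log 3 + 20) (4 * k + 30) δ hδ] with X hb hpc hsm1 x Z c g N U h hZ hU hkq
  obtain ⟨h8, hl, hN, hq0, hq1, hq2⟩ := hb x Z c g N U h
  obtain ⟨b, hb1, hb2⟩ := hpc x Z c g N U h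
  have hx0 := h.hx0
  have hx1 := h.hx1
  exact by
    have h1 := hp.h1
    have h3 := hp.h3
    obtain ⟨hT1, hT2, hT3⟩ := logTG h8 hd4 hτ1
    have hN' : (1:ℝ) ≤ N := by exact_mod_cast hN
    have hQ : 1 ≤ N ^ k := Nat.one_le_pow _ _ (by omega)
    have hl0 : 0 < Real.log X := by (clear * - hδ hδ' hl; linarith)
    have hkk : (1:ℝ) ≤ k := by exact_mod_cast hk
    have hZc : (0:ℝ) < Z.card := by exact_mod_cast hZ.card_pos
    have hUc : (0:ℝ) < U.card := by exact_mod_cast hU.card_pos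
    exact by
      have hX0 : (0:ℝ) < X := by (clear * - hδ hδ' h8; linarith)
      have hQpos : (0:ℝ) < ((N ^ k : ℕ) : ℝ) := by exact_mod_cast hQ
      have hlogQ : Real.log ((N ^ k : ℕ) : ℝ) = k * Real.log N := by push_cast; rw [Real.log_pow]
      have hspT : SpacedR U (1 / (X ^ (τ + 2 * d) + 1)) := by
        intro u hu u' hu' hne
        refine le_trans ?_ (h.hUs u hu u' hu' hne)
        apply one_div_le_one_div_of_le (by (clear * - hδ hδ' hT1; linarith)) (by (clear * - hδ hδ'; linarith))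
      set l := Real.log X with hldef
      set q := Real.log N with hqdef
      set T := X ^ (τ + 2 * d) + 1 with hTdef
      have hq00 : 0 ≤ q := Real.log_nonneg hN'
      have hVpos : 0 < (1 / (16 * l)) ^ k := by (clear * - hl; positivity)
      have hB : 0 < C1 * (N:ℝ) ^ (δ / 10) := by (clear * - hC1 hN; positivity)
      have hTp : 0 < T := by (clear * - hδ hδ' hT1; linarith)
      exact by
        have hf1 := hfu Z c (l ^ 2) (1 - x + δ) T l U (by (clear * - hδ hδ' hT1; linarith)) hl0.le (by (clear * - hx0 h1 h3; linarith)) (by (clear * - hl; positivity))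
          (fun ρ hρ => ⟨by (clear * - hδ hδ' hx1 h hρ; linarith [(h.hs ρ hρ).1]), (h.hs ρ hρ).2.1, (h.hs ρ hρ).2.2, h.hc ρ hρ⟩) h.hU hspT
        have hf2 : (U.card : ℝ) * (1 / l ^ 4) ^ 4 ≤
            CF * (l ^ 2) ^ 4 * T * EZ Z * Real.exp (4 * (1 - x + δ - 1) * l) := by
          refine le_trans ?_ hf1
          rw [← nsmul_eq_mul]
          apply Finset.card_nsmul_le_sum
          intro u hu
          exact pow_le_pow_left₀ (by (clear * - hl; positivity)) (h.hS u hu) 4
        have hE0 : (0:ℝ) < EZ Z := by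
          by_contra hcon
          have : (EZ Z : ℝ) = 0 := le_antisymm (not_lt.mp hcon) (by (clear * -; positivity))
          rw [this] at hf2
          have h5 : 0 < (U.card : ℝ) * (1 / l ^ 4) ^ 4 := by (clear * - hUc hl; positivity)
          simp only [mul_zero, zero_mul] at hf2
          (clear * - h5 hf2; linarith)
        have hlf := Real.log_le_log (by (clear * - hUc hl; positivity)) hf2
        rw [Real.log_mul hUc.ne' (by (clear * - hl; positivity)), Real.log_pow, Real.log_div (by norm_num) (by (clear * - hl; positivity)), Real.log_one,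
          Real.log_pow, Real.log_mul (by (clear * - hCF hl h8 hE0; positivity)) (Real.exp_ne_zero _), Real.log_exp, Real.log_mul (by (clear * - hCF hl h8; positivity)) hE0.ne',
          Real.log_mul (by (clear * - hCF hl; positivity)) hTp.ne', Real.log_mul hCF.ne' (by (clear * - hl; positivity)), Real.log_pow, Real.log_pow] at hlf
        simp only [Nat.cast_ofNat] at hlf
        have hmain := hmv Z b (N ^ k) (C1 * (N:ℝ) ^ (δ/10)) ((1 / (16 * l)) ^ k) (1 - x) (1 - x + δ) T (1 / l) hQ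
          (by (clear * - hδ hδ' hT1; linarith)) (by (clear * - hl; positivity)) (by clear * - hl0 hδ hδ' hl; rw [div_le_div_iff₀ hl0 (by norm_num)]; (clear * - hδ hδ' hl; linarith)) (by (clear * - hδ hδ' hx1; linarith))
          (by (clear * - hδ; linarith)) (by (clear * - hδ hδ'; linarith)) (by (clear * - hx0 h1 h3; linarith)) hVpos hB.le hb1 h.hs h.hsp hb2
        have hsE : 0 < Real.sqrt (EZ Z) := Real.sqrt_pos.mpr hE0
        have hsZ : 0 < Real.sqrt (Z.card : ℝ) := Real.sqrt_pos.mpr hZc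
        have hsT : 0 < Real.sqrt T := Real.sqrt_pos.mpr hTp
        have hlogQ0 : 0 < 1 + Real.log ((N ^ k : ℕ) : ℝ) := by rw [hlogQ]; (clear * - hk; positivity)
        exact by
          have hlg := Real.log_le_log (by (clear * - hE0 hl; positivity)) hmain
          have hlE : Real.log (Real.sqrt (EZ Z)) = Real.log (EZ Z) / 2 := Real.log_sqrt hE0.le
          have hlZ : Real.log (Real.sqrt (Z.card : ℝ)) = Real.log (Z.card) / 2 := Real.log_sqrt hZc.le
          have hlT : Real.log (Real.sqrt T) = Real.log T / 2 := Real.log_sqrt hTp.le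
          set A1 : ℝ := ((N ^ k : ℕ) : ℝ) ^ 2 * Real.sqrt (Z.card : ℝ) with hA1
          set A2 : ℝ := ((N ^ k : ℕ) : ℝ) * Z.card * Real.sqrt T with hA2
          have hA1p : 0 < A1 := mul_pos (pow_pos hQpos 2) hsZ
          have hA2p : 0 < A2 := mul_pos (mul_pos hQpos hZc) hsT
          have hlA1 : Real.log A1 = 2 * (k * q) + Real.log Z.card / 2 := by
            rw [hA1, Real.log_mul (pow_pos hQpos 2).ne' hsZ.ne', Real.log_pow, hlogQ, hlZ]
            simp only [Nat.cast_ofNat]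
          have hlA2 : Real.log A2 = k * q + Real.log Z.card + Real.log T / 2 := by
            rw [hA2, Real.log_mul (mul_pos hQpos hZc).ne' hsT.ne', Real.log_mul hQpos.ne' hZc.ne', hlogQ, hlT]
          exact by
            have hlQ1 : Real.log (1 + Real.log ((N ^ k : ℕ) : ℝ)) ≤ Real.log 3 + Real.log l := by
              rw [← Real.log_mul (by norm_num) hl0.ne', hlogQ]
              apply Real.log_le_log (by (clear * - hk; positivity))
              (clear * - hδ hδ' hl hkq; linarith)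
            rw [Real.log_mul hsE.ne' (by (clear * - hl; positivity)), hlE, Real.log_pow, Real.log_pow, Real.log_div (by norm_num) (by (clear * - hl; positivity)),
              Real.log_one, Real.log_mul (by norm_num) hl0.ne', Real.log_mul (by (clear * - hC hC1 hN hl; positivity)) (by (clear * - hA1p hA2p; positivity)),
              Real.log_mul (by (clear * - hC hC1 hN hl; positivity)) hlogQ0.ne', Real.log_mul (by (clear * - hC hC1 hN hl; positivity)) (by (clear * - hQpos; positivity)),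
              Real.log_div (by (clear * - hC hC1 hN hl; positivity)) (by (clear * - hl; positivity)), Real.log_mul hC.ne' (by (clear * - hC1 hN; positivity)), Real.log_pow,
              Real.log_mul hC1.ne' (by (clear * - hN; positivity)), Real.log_rpow (by (clear * - hδ hδ' hN'; linarith)), Real.log_rpow hQpos,
              Real.log_pow, Real.log_div (by norm_num) hl0.ne', Real.log_one] at hlg
            simp only [Nat.cast_ofNat] at hlg
            rw [← hqdef] at hlg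
            have hqq : (2 * (1 / l)) * (k * q) ≤ 4 := by
              have : (2 * (1 / l)) * (k * q) = 2 * (k * q) / l := by ring
              rw [this, div_le_iff₀ hl0]; (clear * - hkq; linarith)
            have hexp : (-2 * (1 - x) + 2 * (1 / l)) * Real.log ((N ^ k : ℕ) : ℝ) = -(2 - 2 * x) * (k * q) + (2 * (1 / l)) * (k * q) := by
              rw [hlogQ]; ring
            rw [hexp] at hlg
            have hdq : δ / 10 * q ≤ δ / 10 * l := mul_le_mul_of_nonneg_left hq2 (by positivity)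
            have hdl0 : 0 ≤ δ * l := by (clear * - hδ hl; positivity)
            have hdl : d * l ≤ δ * l := mul_le_mul_of_nonneg_right hd5 hl0.le
            rcases log_add_le hA1p hA2p with hc | hc
            · have hm := le_max_left (4 * x * (k * q) + Real.log Z.card) (τ * l + 2 * Real.log Z.card - (2 - 4 * x) * (k * q))
              exact by
                rw [hlA1] at hc
                (clear * - hδ hδ' hsm1 hT3 hlf hlg hlQ1 hqq hdq hdl0 hdl hc hm; linarith)
            · have hm := le_max_right (4 * x * (k * q) + Real.log Z.card) (τ * l + 2 * Real.log Z.card - (2 - 4 * x) * (k * q))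
              exact by
                rw [hlA2] at hc
                (clear * - hδ hδ' hsm1 hT3 hlf hlg hlQ1 hqq hdq hdl0 hdl hc hm; linarith)

lemma convG {z a b e t A B E : ℝ} (hl : 0 < t) (h : z ≤ max a b + e) (ha : a / t = A) (hb : b / t = B)
    (he : e / t ≤ E) : z / t ≤ max A B + E := by
  rw [← ha, ← hb]
  have h1 : z / t ≤ (max a b + e) / t := div_le_div_of_nonneg_right h hl.le
  have h2 : (max a b + e) / t = max a b / t + e / t := by ring
  have h3 : max a b / t ≤ max (a / t) (b / t) := by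
    rcases le_total a b with hab | hab
    · rw [max_eq_right hab]; exact le_max_right _ _
    · rw [max_eq_left hab]; exact le_max_left _ _
  (clear * - he h1 h2 h3; linarith)

/-- one class, general height exponent -/
theorem classBoundG (h1 : MVCount) (h2 : HuxleyCount) (h3 : SLemma) (h4 : FourthU) (h5 : EnergyG) (h6 : PowDP)
    {τ κ ρ0 : ℝ} (hτ1 : 1/4 ≤ τ) (hτ2 : τ ≤ 1/2) (hκ : κ * τ = 1) (h7 : NumericG κ ρ0) : ClassBoundG τ ρ0 := by
  intro ε0 δ d e1 e2 e3 e4 e5
  have hp : ParG τ ε0 δ d := ⟨e1, e2, e3, e4, e5, hτ1, hτ2⟩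
  have hδ := hp.dpos
  have hδ' := hp.dsmall
  have hτ : 0 < τ := by (clear * - hτ1; linarith)
  have hκ' : κ = 1 / τ := by field_simp; (clear * - hκ; linarith)
  have hall : ∀ᶠ X : ℝ in atTop, ∀ k ∈ Finset.Icc 1 ⌈(8:ℝ) / δ⌉₊,
      ∀ (x : ℝ) (Z : Finset ℂ) (c : ℂ → ℂ) (g : ℕ → ℂ) (N : ℕ) (U : Finset ℝ),
      ClsG τ ε0 δ d X x Z c g N U → Z.Nonempty → U.Nonempty → (k : ℝ) * Real.log N ≤ 2 * Real.log X →
      (Real.log Z.card ≤ max (2 * x * (k * Real.log N))
        (τ * Real.log X - k * Real.log N * (1 - 2 * x)) + 40 * δ * Real.log X) ∧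
      (Real.log Z.card ≤ max (2 * x * (k * Real.log N))
        (τ * Real.log X - k * Real.log N * (2 - 6 * x)) + 40 * δ * Real.log X) ∧
      (Real.log Z.card + 2 * x * (k * Real.log N) ≤ (2 * x - 50 * δ) * Real.log X →
        Real.log U.card ≤ max (τ * Real.log X + Real.log Z.card - 2 * x * Real.log X - k * Real.log N * (1 - 2 * x))
          (4 * (τ * Real.log X + Real.log Z.card - 2 * x * Real.log X - k * Real.log N * (1 - 2 * x)) -
          τ * Real.log X) + 40 * δ * Real.log X) ∧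
      (Real.log U.card ≤ τ * Real.log X - 4 * x * Real.log X + max (4 * x * (k * Real.log N) + Real.log Z.card)
        (τ * Real.log X + 2 * Real.log Z.card - (2 - 4 * x) * (k * Real.log N)) + 40 * δ * Real.log X) := by
    rw [Filter.eventually_all_finset]
    intro k hk
    have hk1 : 1 ≤ k := (Finset.mem_Icc.mp hk).1
    filter_upwards [P1G h1 h6 hp k hk1, P2G h2 h6 hp k hk1, P4G h3 h6 hp k hk1, P5G h4 h5 h6 hp k hk1]
      with X a b c' d' x Z c g N U hcl hZ hU hkq
    exact ⟨a x Z c g N U hcl hZ hkq, b x Z c g N U hcl hZ hkq, c' x Z c g N U hcl hZ hU hkq,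
      d' x Z c g N U hcl hZ hU hkq⟩
  obtain ⟨X0, hX0⟩ := (eventually_atTop.mp ((baseG hp).and ((P3G hp).and hall)))
  refine ⟨X0, fun X x Z c g N U hX f1 f2 f3 f4 f5 f6 f7 f8 f9 f10 f11 f12 => ?_⟩
  exact by
    obtain ⟨hb, hP3, hA⟩ := hX0 X hX
    have hcl : ClsG τ ε0 δ d X x Z c g N U := ⟨f1, f2, f3, f4, f5, f6, f7, f8, f9, f10, f11, f12⟩
    obtain ⟨h8, hl, hN, hq0, hq1, hq2⟩ := hb x Z c g N U hcl
    have hXp : (0:ℝ) < X := by (clear * - h8; linarith)
    rcases Finset.eq_empty_or_nonempty U with hU | hU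
    · rw [hU]; simp; (clear * - h8; positivity)
    obtain ⟨hZ, hz⟩ := hP3 x Z c g N U hcl hU
    have hA' := fun k hk => hA k hk x Z c g N U hcl hZ hU
    have hUc : (0:ℝ) < U.card := by exact_mod_cast hU.card_pos
    set l := Real.log X with hldef
    set q := Real.log N with hqdef
    have hl0 : 0 < l := by (clear * - hl; linarith)
    have hq : 0 < q := lt_of_lt_of_le (by clear * - hδ hl; positivity) hq0
    set t := τ * l with htdef
    have ht : 0 < t := by positivity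
    have ht1 : l / 4 ≤ t := by rw [htdef]; (clear * - hτ1 hl; nlinarith)
    have ht2 : t ≤ l / 2 := by rw [htdef]; (clear * - hτ2 hl; nlinarith)
    have hn : δ ≤ q / t := by
      rw [le_div_iff₀ ht]; (clear * - hq0 hτ1 hτ2 hq; nlinarith)
    have hnp : 0 < q / t := by (clear * - hq hτ1 hl; positivity)
    exact by
      have key : ∀ k : ℕ, 1 ≤ k → (k : ℝ) ≤ 4 / (q / t) → k ∈ Finset.Icc 1 ⌈(8:ℝ) / δ⌉₊ ∧ (k : ℝ) * q ≤ 2 * l := by
        intro k hk hk4
        have hk5 : (k:ℝ) * (q / t) ≤ 4 := by rwa [le_div_iff₀ hnp] at hk4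
        constructor
        · rw [Finset.mem_Icc]
          refine ⟨hk, ?_⟩
          have : (k:ℝ) ≤ 8 / δ := by
            rw [le_div_iff₀ hδ]
            have : (k:ℝ) * δ ≤ k * (q / t) := mul_le_mul_of_nonneg_left hn (by (clear * - hk; positivity))
            (clear * - e2 e3 e4 e5 hk5 this; linarith)
          exact_mod_cast le_trans this (Nat.le_ceil _)
        · have : (k:ℝ) * (q / t) = (k * q) / t := by ring
          rw [this, div_le_iff₀ ht] at hk5
          (clear * - ht2 hk5; linarith)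
      have he : (40 * δ * l) / t ≤ 1000 * δ := by
        rw [div_le_iff₀ ht]; (clear * - e3 e1 e2 e4 e5 hl ht1 ht; nlinarith)
      have hlt : l / t = κ := by rw [hκ', htdef]; (clear * - hl hτ1; field_simp)
      have hfin := h7 ε0 e1 e2 (1000 * δ) x (q / t) (Real.log Z.card / t) (Real.log U.card / t)
        (by (clear * - hδ; positivity)) (by rw [e3]; (clear * -; linarith)) f1 (by (clear * - e4 e5 f2; linarith)) hnp
        (by
          rw [div_le_iff₀ ht]
          have h9 : (yy x * τ + 45 * δ) * l = yy x * t + 45 * δ * l := by rw [htdef]; ring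
          rw [h9] at hq1
          have : 45 * δ * l ≤ 1000 * δ * t := by (clear * - e3 e1 e2 e4 e5 hl ht1 ht; nlinarith)
          (clear * - hq1 this; linarith))
        (by
          intro k hk hk4
          obtain ⟨g1, g2⟩ := key k hk hk4
          obtain ⟨a1, a2, a3, a4⟩ := hA' k g1 g2
          exact convG ht a1 (by (clear * - ht hq hk; field_simp)) (by (clear * - ht; field_simp)) he)
        (by
          intro k hk hk4
          obtain ⟨g1, g2⟩ := key k hk hk4
          obtain ⟨a1, a2, a3, a4⟩ := hA' k g1 g2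
          exact convG ht a2 (by (clear * - ht hq hk; field_simp)) (by (clear * - ht; field_simp)) he)
        (by
          clear * - ht hlt e3 e1 e2 e4 e5 hl ht1 hz; rw [le_div_iff₀ ht, ← hlt]
          have h9 : (l / t * x - 1000 * δ) * t = l * x - 1000 * δ * t := by (clear * - ht; field_simp)
          rw [h9]
          have : 40 * δ * l ≤ 1000 * δ * t := by (clear * - e3 e1 e2 e4 e5 hl ht1 ht; nlinarith)
          (clear * - hz this; linarith))
        (by
          intro k hk hk4 hcond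
          obtain ⟨g1, g2⟩ := key k hk hk4
          obtain ⟨a1, a2, a3, a4⟩ := hA' k g1 g2
          have h9 : Real.log Z.card + 2 * x * (k * q) ≤ (2 * x - 50 * δ) * l := by
            have e6 : Real.log Z.card / t + 2 * x * (k * (q / t)) = (Real.log Z.card + 2 * x * (k * q)) / t := by
              ring
            rw [e6, div_le_iff₀ ht, ← hlt] at hcond
            have h9 : (2 * (l / t) * x - 1000 * δ) * t = 2 * l * x - 1000 * δ * t := by (clear * - ht; field_simp)
            rw [h9] at hcond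
            have : 50 * δ * l ≤ 1000 * δ * t := by (clear * - e3 e1 e2 e4 e5 hl ht1 ht; nlinarith)
            (clear * - hcond this; linarith)
          have hc1 : 2 * κ * x = 2 * x * (l / t) := by rw [hlt]; ring
          rw [hc1]
          exact convG ht (a3 h9) (by (clear * - ht; field_simp)) (by (clear * - ht; field_simp)) he)
        (by
          intro k hk hk4
          obtain ⟨g1, g2⟩ := key k hk hk4
          obtain ⟨a1, a2, a3, a4⟩ := hA' k g1 g2
          have a5 : Real.log U.card - (t - 4 * x * l) ≤ max (4 * x * (k * q) + Real.log Z.card)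
            (t + 2 * Real.log Z.card - (2 - 4 * x) * (k * q)) + 40 * δ * l := by (clear * - a4; linarith)
          have a6 := convG (A := 4 * x * (k * (q / t)) + Real.log Z.card / t)
            (B := 1 + 2 * (Real.log Z.card / t) - (2 - 4 * x) * (k * (q / t))) ht a5 (by (clear * - ht; field_simp))
            (by (clear * - ht; field_simp)) he
          have e7 : (Real.log U.card - (t - 4 * x * l)) / t = Real.log U.card / t - (1 - 4 * x * (l / t)) := by
            (clear * - ht; field_simp)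
          rw [e7, hlt] at a6
          have e8 : 4 * κ * x = 4 * x * κ := by ring
          rw [e8]
          (clear * - a6; linarith))
      rw [div_le_iff₀ ht] at hfin
      rw [← Real.log_le_log_iff hUc (by clear * - h8; positivity), Real.log_rpow hXp]
      calc Real.log U.card ≤ ρ0 * t := hfin
        _ = τ * ρ0 * l := by rw [htdef]; ring

end Pool.Agent.M20.Helper60.KC
end

/- Helper53.KN.Helper60.KC.MainG -/
section
/-! Counting theorem for cells of general length: `CountW w U`. -/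

set_option autoImplicit false
set_option maxHeartbeats 4000000
open Filter Topology
open scoped Classical

namespace Pool.Agent.M20.Helper60.KC
open Pool.Agent.M20.Helper60.KS

/-- everything that holds at one large `X` -/
lemma main_countG {C τ ρ1 ε0 δ d X : ℝ} (hp : ParG τ ε0 δ d) (hC : 0 < C) (hX8 : 8 ≤ X) (hl : 10 ≤ Real.log X)
    (hA : ∀ (t : ℝ) (F : Finset ℂ), (∀ ρ ∈ F, riemannZeta ρ = 0 ∧ 1/2 ≤ ρ.re ∧ |ρ.im - t| ≤ 1) →
      ∑ ρ ∈ F, (mz ρ : ℝ) ≤ C * Real.log (|t| + 2))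
    (hN : ∀ F : Finset ℂ, (∀ ρ ∈ F, riemannZeta ρ = 0 ∧ 1 - ε0 ≤ ρ.re ∧ |ρ.im| ≤ X ^ (0.6 : ℝ)) →
      ∑ ρ ∈ F, (mz ρ : ℝ) * X ^ (ρ.re - 1) ≤ 1/16)
    (hD : ∀ x : ℝ, 0 < x → x ≤ 0.4 + δ → ∃ g : ℕ → ℂ, (∀ n, ‖g n‖ ≤ (n.divisors.card : ℝ)) ∧
      ∀ ρ : ℂ, riemannZeta ρ = 0 → 1 - x ≤ ρ.re → Real.log X ^ 2 ≤ |ρ.im| → |ρ.im| ≤ X ^ (τ + 2 * d) + 1 →
      ∃ i : ℕ, X ^ δ / 2 ≤ (2 : ℝ) ^ i ∧ (2 : ℝ) ^ i ≤ X ^ (yy x * τ + 45 * δ) ∧
        1 / (16 * Real.log X) ≤ ‖DP g (2 ^ i) 2 ρ‖)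
    (hK : ∀ (x : ℝ) (Z : Finset ℂ) (c : ℂ → ℂ) (g : ℕ → ℂ) (N : ℕ) (U : Finset ℝ),
      ClsG τ ε0 δ d X x Z c g N U → (U.card : ℝ) ≤ X ^ ρ1)
    (hS : SplitSpaced)
    (hx1 : X ^ (τ + 2 * d) + 4 ≤ X) (hx2 : X ^ (τ + 2 * d) + 1 ≤ X ^ (0.6 : ℝ))
    (hx3 : 240 * C * Real.log X ^ 4 ≤ X ^ ε0)
    (hx4 : 8 * (1 / δ + 2) * (C + 1) ≤ Real.log X)
    (hx5 : 2 * (C * Real.log X) ≤ Real.log X ^ 2)
    (F : Finset ℂ) (c : ℂ → ℂ) (u : ℕ → ℝ) (J : ℕ)
    (hF : ∀ ρ ∈ F, riemannZeta ρ = 0 ∧ 0.6 < ρ.re ∧ |ρ.im| ≤ X ^ (τ + 2 * d) + 1)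
    (hc : ∀ ρ ∈ F, ‖c ρ‖ ≤ 2)
    (hu : ∀ j < J, Real.log X ≤ u j ∧ u j ≤ Real.log X + 1)
    (hus : ∀ j < J, ∀ j' < J, j ≠ j' → 1 / X ^ (τ + 2 * d) ≤ |u j - u j'|) :
    (((Finset.range J).filter (fun j => 1/2 ≤ ‖∑ ρ ∈ F, (mz ρ : ℂ) * c ρ *
      Complex.exp ((ρ - 1) * (u j : ℂ))‖)).card : ℝ) ≤ Real.log X ^ 3 * X ^ ρ1 := by
  have hδ := hp.dpos
  have hδ' := hp.dsmall
  have hX0 : 1 < X := by (clear * - hX8 hδ hδ'; linarith)
  set l := Real.log X with hldef
  have hl0 : 0 < l := by (clear * - hδ hδ' hl; linarith)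
  have hXp : 0 < X := by (clear * - hX8 hδ hδ'; linarith)
  -- the three parts
  set P1 : ℂ → Prop := fun ρ => 1 - ε0 ≤ ρ.re with hP1
  set P2 : ℂ → Prop := fun ρ => |ρ.im| < l ^ 2 with hP2
  exact by
    set F1 := F.filter P1 with hF1
    set F2 := (F.filter (fun ρ => ¬ P1 ρ)).filter P2 with hF2
    set F3a := (F.filter (fun ρ => ¬ P1 ρ)).filter (fun ρ => ¬ P2 ρ) with hF3a
    set F3 := F3a.filter (fun ρ => mz ρ ≠ 0) with hF3
    set f : ℝ → ℂ → ℂ := fun v ρ => (mz ρ : ℂ) * c ρ * Complex.exp ((ρ - 1) * (v : ℂ)) with hf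
    have hsplit : ∀ v : ℝ, ∑ ρ ∈ F, f v ρ = ∑ ρ ∈ F1, f v ρ + (∑ ρ ∈ F2, f v ρ + ∑ ρ ∈ F3, f v ρ) := by
      intro v
      have e3 : ∑ ρ ∈ F3a, f v ρ = ∑ ρ ∈ F3, f v ρ := by
        symm
        rw [hF3]
        apply Finset.sum_filter_of_ne
        intro ρ hρ h hm
        apply h
        simp [hf, hm]
      rw [← e3, hF2, hF3a, Finset.sum_filter_add_sum_filter_not, hF1, Finset.sum_filter_add_sum_filter_not]
    have hpart1 : ∀ v : ℝ, l ≤ v → ‖∑ ρ ∈ F1, f v ρ‖ ≤ 1/8 := by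
      intro v hv
      refine le_trans (norm_sum_le _ _) ?_
      have h1 : ∀ ρ ∈ F1, ‖f v ρ‖ ≤ 2 * ((mz ρ : ℝ) * X ^ (ρ.re - 1)) := by
        intro ρ hρ
        rw [hF1, Finset.mem_filter] at hρ
        exact term_le hX0 (hF ρ hρ.1).1 (hc ρ hρ.1) hv
      refine le_trans (Finset.sum_le_sum h1) ?_
      rw [← Finset.mul_sum]
      have h2 := hN F1 (by
        intro ρ hρ
        rw [hF1, Finset.mem_filter] at hρ
        exact ⟨(hF ρ hρ.1).1, hρ.2, le_trans (hF ρ hρ.1).2.2 hx2⟩)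
      (clear * - h2; linarith)
    have hpart2 : ∀ v : ℝ, l ≤ v → ‖∑ ρ ∈ F2, f v ρ‖ ≤ 1/8 := by
      intro v hv
      refine le_trans (norm_sum_le _ _) ?_
      have h1 : ∀ ρ ∈ F2, ‖f v ρ‖ ≤ 2 * X ^ (-ε0) * (mz ρ : ℝ) := by
        intro ρ hρ
        rw [hF2, Finset.mem_filter, Finset.mem_filter] at hρ
        refine le_trans (term_le hX0 (hF ρ hρ.1.1).1 (hc ρ hρ.1.1) hv) ?_
        have h3 : ρ.re < 1 - ε0 := not_le.mp hρ.1.2
        have h4 : X ^ (ρ.re - 1) ≤ X ^ (-ε0) := Real.rpow_le_rpow_of_exponent_le hX0.le (by (clear * - hρ; linarith))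
        have h5 : (0:ℝ) ≤ mz ρ := Nat.cast_nonneg _
        (clear * - h4; nlinarith)
      refine le_trans (Finset.sum_le_sum h1) ?_
      rw [← Finset.mul_sum]
      have h2 := low_zeros hC hA ⌈l ^ 2⌉₊ F2 (by
        clear * - hF2 hF hδ hδ'; intro ρ hρ
        rw [hF2, Finset.mem_filter, Finset.mem_filter] at hρ
        have h3 : |ρ.im| < l ^ 2 := hρ.2
        refine ⟨(hF ρ hρ.1.1).1, by (clear * - hδ hδ' hF hρ; linarith [(hF ρ hρ.1.1).2.1]), ?_⟩
        exact le_trans h3.le (Nat.le_ceil _))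
      have hM : (⌈l ^ 2⌉₊ : ℝ) < l ^ 2 + 1 := Nat.ceil_lt_add_one (by positivity)
      set M := (⌈l ^ 2⌉₊ : ℝ) with hMdef
      have hM0 : 0 ≤ M := Nat.cast_nonneg _
      have hlog : Real.log (M + 2) ≤ M + 1 := by
        have := Real.log_le_sub_one_of_pos (show 0 < M + 2 by linarith); (clear * - this; linarith)
      have hl2 : 100 ≤ l ^ 2 := by (clear * - hl; nlinarith)
      have h6 : (2 * M + 1) * (C * Real.log (M + 2)) ≤ (5 * l ^ 2) * (C * (3 * l ^ 2)) := by
        apply mul_le_mul (by (clear * - hδ hδ' hM hl2; linarith)) _ _ (by positivity)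
        · clear * - hδ hδ' hM hlog hl2 hC; apply mul_le_mul_of_nonneg_left (by linarith) hC.le
        · have : 0 ≤ Real.log (M + 2) := Real.log_nonneg (by linarith)
          (clear * - hC this; positivity)
      have h7 : X ^ (-ε0) * X ^ ε0 = 1 := by
        rw [← Real.rpow_add hXp]; simp
      have h8 : 0 < X ^ (-ε0) := Real.rpow_pos_of_pos hXp _
      calc 2 * X ^ (-ε0) * ∑ ρ ∈ F2, (mz ρ : ℝ) ≤ 2 * X ^ (-ε0) * ((5 * l ^ 2) * (C * (3 * l ^ 2))) := by
            apply mul_le_mul_of_nonneg_left (le_trans h2 h6) (by positivity)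
        _ = 1/8 * (X ^ (-ε0) * (240 * C * l ^ 4)) := by ring
        _ ≤ 1/8 * (X ^ (-ε0) * X ^ ε0) := by
            apply mul_le_mul_of_nonneg_left _ (by norm_num)
            exact mul_le_mul_of_nonneg_left hx3 h8.le
        _ = 1/8 := by rw [h7]; norm_num
    -- classes of F3
    exact by
      have hF3' : ∀ ρ ∈ F3, riemannZeta ρ = 0 ∧ 0.6 < ρ.re ∧ ρ.re < 1 - ε0 ∧ l ^ 2 ≤ |ρ.im| ∧
          |ρ.im| ≤ X ^ (τ + 2 * d) + 1 ∧ 1 ≤ mz ρ ∧ ‖c ρ‖ ≤ 2 := by
        intro ρ hρ
        rw [hF3, Finset.mem_filter, hF3a, Finset.mem_filter, Finset.mem_filter] at hρ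
        obtain ⟨⟨⟨h1, h2⟩, h3⟩, h4⟩ := hρ
        exact ⟨(hF ρ h1).1, (hF ρ h1).2.1, not_le.mp h2, not_lt.mp h3, (hF ρ h1).2.2, Nat.one_le_iff_ne_zero.mpr h4, hc ρ h1⟩
      have hD' : ∀ x : ℝ, ∃ g : ℕ → ℂ, 0 < x → x ≤ 0.4 + δ → ((∀ n, ‖g n‖ ≤ (n.divisors.card : ℝ)) ∧
          ∀ ρ : ℂ, riemannZeta ρ = 0 → 1 - x ≤ ρ.re → l ^ 2 ≤ |ρ.im| → |ρ.im| ≤ X ^ (τ + 2 * d) + 1 →
          ∃ i : ℕ, X ^ δ / 2 ≤ (2 : ℝ) ^ i ∧ (2 : ℝ) ^ i ≤ X ^ (yy x * τ + 45 * δ) ∧
            1 / (16 * l) ≤ ‖DP g (2 ^ i) 2 ρ‖) := by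
        intro x
        by_cases h : 0 < x ∧ x ≤ 0.4 + δ
        · obtain ⟨g, hg⟩ := hD x h.1 h.2
          exact ⟨g, fun _ _ => hg⟩
        · exact ⟨0, fun h1 h2 => absurd ⟨h1, h2⟩ h⟩
      choose G hG using hD'
      set a : ℂ → ℕ := fun ρ => ⌈(1 - ρ.re) / δ⌉₊ with ha
      have hax : ∀ ρ ∈ F3, 1 - ρ.re ≤ δ * a ρ ∧ δ * a ρ < 1 - ρ.re + δ := by
        intro ρ hρ
        obtain ⟨-, h2, h3, -⟩ := hF3' ρ hρ
        have h1 := hp.h1
        constructor
        · have := Nat.le_ceil ((1 - ρ.re) / δ)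
          rw [div_le_iff₀ hδ] at this
          rw [mul_comm]; exact this
        · clear * - h3 h1 hδ; have := Nat.ceil_lt_add_one (show 0 ≤ (1 - ρ.re) / δ by apply div_nonneg (by (clear * - h3 h1; linarith)) hδ.le)
          have h5 : δ * (a ρ : ℝ) < δ * ((1 - ρ.re) / δ + 1) := mul_lt_mul_of_pos_left this hδ
          have h6 : δ * ((1 - ρ.re) / δ + 1) = 1 - ρ.re + δ := by (clear * - hδ; field_simp)
          (clear * - h5 h6; linarith)
      have hex : ∀ ρ ∈ F3, ∃ i : ℕ, X ^ δ / 2 ≤ (2 : ℝ) ^ i ∧ (2 : ℝ) ^ i ≤ X ^ (yy (δ * a ρ) * τ + 45 * δ) ∧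
            1 / (16 * l) ≤ ‖DP (G (δ * a ρ)) (2 ^ i) 2 ρ‖ := by
        intro ρ hρ
        obtain ⟨h1, h2, h3, h4, h5, -⟩ := hF3' ρ hρ
        obtain ⟨h6, h7⟩ := hax ρ hρ
        have h8 := hp.h1
        exact (hG (δ * a ρ) (by (clear * - h3 h6 h8; linarith)) (by (clear * - h2 h7; linarith))).2 ρ h1 (by (clear * - h6; linarith)) h4 h5
      choose! iF hiF using hex
      have hMM : ∀ t : ℝ, (F3.filter (fun ρ => |ρ.im - t| ≤ 1)).card ≤ ⌈C * l⌉₊ := by
        intro t
        rcases Finset.eq_empty_or_nonempty (F3.filter (fun ρ => |ρ.im - t| ≤ 1)) with he | ⟨ρ0, hρ0⟩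
        · rw [he]; simp
        have h1 := hA t (F3.filter (fun ρ => |ρ.im - t| ≤ 1)) (by
          clear * - hF3' hδ hδ'; intro ρ hρ
          rw [Finset.mem_filter] at hρ
          obtain ⟨h1, h2, -⟩ := hF3' ρ hρ.1
          exact ⟨h1, by linarith, hρ.2⟩)
        rw [Finset.mem_filter] at hρ0
        obtain ⟨-, -, -, -, h5, -⟩ := hF3' ρ0 hρ0.1
        have h6 : |t| ≤ |ρ0.im| + 1 := by
          have h7 : |t| ≤ |ρ0.im| + |ρ0.im - t| := by
            have := abs_sub_abs_le_abs_sub t ρ0.im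
            rw [abs_sub_comm] at this; (clear * - this; linarith)
          (clear * - hρ0 h7; linarith [hρ0.2])
        have h8 : Real.log (|t| + 2) ≤ l := Real.log_le_log (by (clear * -; positivity)) (by (clear * - hx1 h5 h6; linarith))
        have h9 : ((F3.filter (fun ρ => |ρ.im - t| ≤ 1)).card : ℝ) ≤ ∑ ρ ∈ F3.filter (fun ρ => |ρ.im - t| ≤ 1), (mz ρ : ℝ) := by
          rw [← nsmul_one]
          apply Finset.card_nsmul_le_sum
          intro ρ hρ
          rw [Finset.mem_filter] at hρ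
          exact_mod_cast (hF3' ρ hρ.1).2.2.2.2.2.1
        have h10 : ((F3.filter (fun ρ => |ρ.im - t| ≤ 1)).card : ℝ) ≤ ⌈C * l⌉₊ :=
          le_trans h9 (le_trans h1 (le_trans (mul_le_mul_of_nonneg_left h8 hC.le) (Nat.le_ceil _)))
        exact_mod_cast h10
      obtain ⟨col, hcol1, hcol2⟩ := hS F3 ⌈C * l⌉₊ hMM
      set A0 := ⌈1 / δ⌉₊ + 1 with hA0
      set I0 := ⌈2 * l⌉₊ + 1 with hI0
      exact by
        set M0 := ⌈C * l⌉₊ with hM0
        set KK := Finset.range A0 ×ˢ (Finset.range I0 ×ˢ Finset.range M0) with hKK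
        set φ : ℂ → ℕ × (ℕ × ℕ) := fun ρ => (a ρ, (iF ρ, col ρ)) with hφ
        have hmaps : ∀ ρ ∈ F3, φ ρ ∈ KK := by
          intro ρ hρ
          obtain ⟨h1, h2, h3, h4, h5, -⟩ := hF3' ρ hρ
          obtain ⟨h6, h7⟩ := hax ρ hρ
          obtain ⟨h8, h9, h10⟩ := hiF ρ hρ
          simp only [hφ, hKK, Finset.mem_product, Finset.mem_range]
          refine ⟨?_, ?_, hcol1 ρ hρ⟩
          · have : a ρ ≤ ⌈1 / δ⌉₊ := by
              apply Nat.ceil_mono
              apply div_le_div_of_nonneg_right (by (clear * - hδ hδ' h2; linarith)) hδ.le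
            omega
          · have e1 : yy (δ * a ρ) ≤ 0.92 := by
              unfold yy
              refine le_trans (min_le_right _ _) ?_
              rw [div_le_iff₀ (by (clear * - hδ hδ' h2 h7; linarith))]
              (clear * - hδ hδ' h2 h7; linarith)
            exact by
              have e1' : yy (δ * a ρ) * τ ≤ 0.92 * τ := mul_le_mul_of_nonneg_right e1 (by have := hp.h6; (clear * - hδ hδ' this; linarith))
              have hτ2 := hp.h7
              have e2 : (2:ℝ) ^ iF ρ ≤ X := by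
                calc (2:ℝ) ^ iF ρ ≤ X ^ (yy (δ * a ρ) * τ + 45 * δ) := h9
                  _ ≤ X ^ (1:ℝ) := Real.rpow_le_rpow_of_exponent_le hX0.le (by (clear * - hδ hδ' e1' hτ2; linarith))
                  _ = X := Real.rpow_one _
              have e3 : (iF ρ : ℝ) * Real.log 2 ≤ l := by
                rw [← Real.log_pow]; exact Real.log_le_log (by positivity) e2
              have e4 : (iF ρ : ℝ) ≤ 2 * l := by
                have h12 : (1/2 : ℝ) ≤ Real.log 2 := by have := Real.log_two_gt_d9; (clear * - hδ hδ' this; linarith)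
                have h11 : (0:ℝ) ≤ iF ρ := Nat.cast_nonneg _
                (clear * - e3 h12; nlinarith)
              have e5 : (iF ρ : ℝ) ≤ ⌈2 * l⌉₊ := le_trans e4 (Nat.le_ceil _)
              have e6 : iF ρ ≤ ⌈2 * l⌉₊ := by exact_mod_cast e5
              omega
        have hKcard : (KK.card : ℝ) ≤ l ^ 3 := by
          rw [hKK, Finset.card_product, Finset.card_product, Finset.card_range, Finset.card_range, Finset.card_range]
          push_cast
          have e1 : (A0 : ℝ) ≤ 1 / δ + 2 := by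
            rw [hA0]; push_cast
            have := Nat.ceil_lt_add_one (show 0 ≤ 1 / δ by positivity); (clear * - this; linarith)
          have e2 : (I0 : ℝ) ≤ 4 * l := by
            rw [hI0]; push_cast
            have := Nat.ceil_lt_add_one (show 0 ≤ 2 * l by positivity); (clear * - hδ hδ' hl this; linarith)
          have e3 : (M0 : ℝ) ≤ (C + 1) * l := by
            rw [hM0]
            have := Nat.ceil_lt_add_one (show 0 ≤ C * l by positivity); (clear * - hδ hδ' hl this; linarith)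
          calc (A0 : ℝ) * (I0 * M0) ≤ (1 / δ + 2) * ((4 * l) * ((C + 1) * l)) := by
                clear * - e1 e2 e3 hC hl hδ; apply mul_le_mul e1 _ (by positivity) (by positivity)
                apply mul_le_mul e2 e3 (by positivity) (by positivity)
            _ = (4 * (1 / δ + 2) * (C + 1)) * l ^ 2 := by ring
            _ ≤ l * l ^ 2 := by
                clear * - hδ hC hδ' hl hx4; apply mul_le_mul_of_nonneg_right _ (by positivity)
                have : 0 ≤ (1 / δ + 2) * (C + 1) := by positivity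
                (clear * - hδ hδ' hl hx4; linarith)
            _ = l ^ 3 := by ring
        set S : ℕ × (ℕ × ℕ) → ℝ → ℂ := fun κ v => ∑ ρ ∈ F3 with φ ρ = κ, f v ρ with hSdef
        set BK : ℕ × (ℕ × ℕ) → Finset ℕ := fun κ => (Finset.range J).filter (fun j => 1 / l ^ 4 ≤ ‖S κ (u j)‖) with hBK
        exact by
          have hcover : (Finset.range J).filter (fun j => 1/2 ≤ ‖∑ ρ ∈ F, f (u j) ρ‖) ⊆ KK.biUnion BK := by
            intro j hj
            rw [Finset.mem_filter, Finset.mem_range] at hj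
            obtain ⟨hj1, hj2⟩ := hj
            obtain ⟨hu1, hu2⟩ := hu j hj1
            rw [Finset.mem_biUnion]
            by_contra hcon
            push Not at hcon
            have h1 : ∀ κ ∈ KK, ‖S κ (u j)‖ ≤ 1 / l ^ 4 := by
              intro κ hκ
              have := hcon κ hκ
              rw [hBK, Finset.mem_filter, Finset.mem_range] at this
              push Not at this
              exact (this hj1).le
            have h2 : ‖∑ ρ ∈ F3, f (u j) ρ‖ ≤ l ^ 3 * (1 / l ^ 4) := by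
              rw [← Finset.sum_fiberwise_of_maps_to hmaps]
              refine le_trans (norm_sum_le _ _) ?_
              refine le_trans (Finset.sum_le_sum h1) ?_
              rw [Finset.sum_const, nsmul_eq_mul]
              exact mul_le_mul_of_nonneg_right hKcard (by positivity)
            have h3 : l ^ 3 * (1 / l ^ 4) = 1 / l := by field_simp
            have h4 : 1 / l ≤ 1/10 := by
              apply one_div_le_one_div_of_le (by norm_num) hl
            rw [hsplit] at hj2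
            have h5 := norm_add_le (∑ ρ ∈ F1, f (u j) ρ) (∑ ρ ∈ F2, f (u j) ρ + ∑ ρ ∈ F3, f (u j) ρ)
            have h6 := norm_add_le (∑ ρ ∈ F2, f (u j) ρ) (∑ ρ ∈ F3, f (u j) ρ)
            have h7 := hpart1 (u j) hu1
            have h8 := hpart2 (u j) hu1
            rw [h3] at h2
            (clear * - hδ hδ' hj2 h2 h4 h5 h6 h7 h8; linarith)
          have hBcard : ∀ κ ∈ KK, ((BK κ).card : ℝ) ≤ X ^ ρ1 := by
            intro κ hκ
            have hinj : Set.InjOn u (BK κ : Set ℕ) := by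
              intro j hj j' hj' he
              by_contra hne
              rw [Finset.mem_coe, hBK, Finset.mem_filter, Finset.mem_range] at hj hj'
              have := hus j hj.1 j' hj'.1 hne
              rw [he, sub_self, abs_zero] at this
              have h2 : 0 < 1 / X ^ (τ + 2 * d) := by positivity
              (clear * - this h2; linarith)
            have hcardU : ((BK κ).image u).card = (BK κ).card := Finset.card_image_of_injOn hinj
            rw [← hcardU]
            rcases Finset.eq_empty_or_nonempty (F3.filter (fun ρ => φ ρ = κ)) with he | ⟨ρ0, hρ0⟩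
            · have : BK κ = ∅ := by
                rw [hBK]
                apply Finset.filter_eq_empty_iff.mpr
                intro j hj
                rw [hSdef]
                simp only [he, Finset.sum_empty, norm_zero, not_le]
                positivity
              rw [this]; simp; positivity
            obtain ⟨ka, ki, kc⟩ := κ
            have hρ0' := Finset.mem_filter.mp hρ0
            have hκeq : ∀ ρ ∈ F3.filter (fun ρ => φ ρ = (ka, (ki, kc))), ρ ∈ F3 ∧ a ρ = ka ∧ iF ρ = ki ∧ col ρ = kc := by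
              intro ρ hρ
              have h1 := Finset.mem_filter.mp hρ
              have h2 := h1.2
              simp only [hφ, Prod.mk.injEq] at h2
              exact ⟨h1.1, h2.1, h2.2.1, h2.2.2⟩
            obtain ⟨g1, g2, g3, g4⟩ := hκeq ρ0 hρ0
            obtain ⟨b1, b2, b3, b4, b5, b6, b7⟩ := hF3' ρ0 g1
            obtain ⟨b8, b9⟩ := hax ρ0 g1
            obtain ⟨b10, b11, b12⟩ := hiF ρ0 g1
            rw [g2] at b8 b9 b11 b12
            rw [g3] at b10 b11 b12
            have hε0 := hp.h1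
            have hGx := (hG (δ * ka) (by (clear * - b3 b8 hε0; linarith)) (by (clear * - b2 b9; linarith))).1
            apply hK (δ * ka) (F3.filter (fun ρ => φ ρ = (ka, (ki, kc)))) (fun ρ => (mz ρ : ℂ) * c ρ) (G (δ * ka)) (2 ^ ki)
            refine ⟨by (clear * - b3 b8; linarith), by (clear * - b2 b9; linarith), ?_, ?_, hGx, by push_cast; exact b10, by push_cast; exact b11, ?_, ?_, ?_, ?_, ?_⟩
            · clear * - hκeq hax hF3'; intro ρ hρ
              obtain ⟨e1, e2, e3, e4⟩ := hκeq ρ hρ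
              obtain ⟨c1, c2⟩ := hax ρ e1
              rw [e2] at c1 c2
              exact ⟨by (clear * - c1; linarith), by (clear * - c2; linarith), (hF3' ρ e1).2.2.2.2.1⟩
            · intro ρ hρ ρ' hρ' hne
              obtain ⟨e1, e2, e3, e4⟩ := hκeq ρ hρ
              obtain ⟨e1', e2', e3', e4'⟩ := hκeq ρ' hρ'
              exact hcol2 kc ρ (Finset.mem_filter.mpr ⟨e1, e4⟩) ρ' (Finset.mem_filter.mpr ⟨e1', e4'⟩) hne
            · intro ρ hρ
              obtain ⟨e1, e2, e3, e4⟩ := hκeq ρ hρ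
              have := (hiF ρ e1).2.2
              rw [e2, e3] at this
              exact this
            · clear * - hκeq hF3' hA hδ hδ' hx1 hC hl hx5; intro ρ hρ
              exact by
                obtain ⟨e1, e2, e3, e4⟩ := hκeq ρ hρ
                obtain ⟨d1, d2, d3, d4, d5, d6, d7⟩ := hF3' ρ e1
                rw [norm_mul, Complex.norm_natCast]
                have h1 := hA ρ.im {ρ} (by
                  intro ρ' hρ'
                  rw [Finset.mem_singleton] at hρ'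
                  subst hρ'
                  exact ⟨d1, by (clear * - hδ hδ' d2; linarith), by simp⟩)
                rw [Finset.sum_singleton] at h1
                have h2 : Real.log (|ρ.im| + 2) ≤ l := Real.log_le_log (by (clear * -; positivity)) (by (clear * - hx1 hδ hδ' d5; linarith))
                have h3 : (mz ρ : ℝ) ≤ C * l := le_trans h1 (mul_le_mul_of_nonneg_left h2 hC.le)
                calc (mz ρ : ℝ) * ‖c ρ‖ ≤ (C * l) * 2 := mul_le_mul h3 d7 (norm_nonneg _) (by positivity)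
                  _ ≤ l ^ 2 := by (clear * - hx5; linarith)
            · intro v hv
              obtain ⟨j, hj, rfl⟩ := Finset.mem_image.mp hv
              rw [hBK, Finset.mem_filter, Finset.mem_range] at hj
              exact hu j hj.1
            · clear * - hus hBK; intro v hv v' hv' hne
              obtain ⟨j, hj, rfl⟩ := Finset.mem_image.mp hv
              obtain ⟨j', hj', rfl⟩ := Finset.mem_image.mp hv'
              rw [hBK, Finset.mem_filter, Finset.mem_range] at hj hj'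
              exact hus j hj.1 j' hj'.1 (fun h => hne (by rw [h]))
            · intro v hv
              obtain ⟨j, hj, rfl⟩ := Finset.mem_image.mp hv
              rw [hBK, Finset.mem_filter, Finset.mem_range] at hj
              exact hj.2
          have hfinal : (((Finset.range J).filter (fun j => 1/2 ≤ ‖∑ ρ ∈ F, f (u j) ρ‖)).card : ℝ) ≤
              ∑ κ ∈ KK, ((BK κ).card : ℝ) := by
            have h1 := le_trans (Finset.card_le_card hcover) Finset.card_biUnion_le
            exact_mod_cast h1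
          calc (((Finset.range J).filter (fun j => 1/2 ≤ ‖∑ ρ ∈ F, f (u j) ρ‖)).card : ℝ) ≤
              ∑ κ ∈ KK, ((BK κ).card : ℝ) := hfinal
            _ ≤ ∑ κ ∈ KK, X ^ ρ1 := Finset.sum_le_sum hBcard
            _ = KK.card * X ^ ρ1 := by rw [Finset.sum_const, nsmul_eq_mul]
            _ ≤ l ^ 3 * X ^ ρ1 := mul_le_mul_of_nonneg_right hKcard (by positivity)

/-- the elementary conditions of `main_countG` for large `X` -/
lemma large_XG {C τ ρ1 ε0 δ d A U : ℝ} (hp : ParG τ ε0 δ d) (hC : 0 < C) (hA : A < U) (hρ : ρ1 < U) :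
    ∀ᶠ X : ℝ in atTop,
    8 ≤ X ∧ 10 ≤ Real.log X ∧ X ^ (τ + 2 * d) + 4 ≤ X ∧ X ^ (τ + 2 * d) + 1 ≤ X ^ (0.6 : ℝ) ∧
    240 * C * Real.log X ^ 4 ≤ X ^ ε0 ∧ 8 * (1 / δ + 2) * (C + 1) ≤ Real.log X ∧
    2 * (C * Real.log X) ≤ Real.log X ^ 2 ∧
    X ^ A + Real.log X ^ 3 * X ^ ρ1 ≤ X ^ U := by
  have hδ := hp.dpos
  have hτ1 := hp.h6
  have hτ2 := hp.h7
  have hδ' := hp.dsmall
  have hd4 := hp.h4
  have hd5 := hp.h5
  have hε := hp.h1
  have ev : ∀ B : ℝ, ∀ᶠ X : ℝ in atTop, B ≤ Real.log X := fun B =>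
    Real.tendsto_log_atTop.eventually (eventually_ge_atTop B)
  exact by
    set η := min (U - A) (U - ρ1) with hηdef
    have hη : 0 < η := lt_min (by (clear * - hA; linarith)) (by (clear * - hρ; linarith))
    have hη1 : η ≤ U - A := min_le_left _ _
    have hη2 : η ≤ U - ρ1 := min_le_right _ _
    filter_upwards [eventually_ge_atTop 8, ev 10, small (Real.log (240 * C)) 4 ε0 hε,
      ev (8 * (1 / δ + 2) * (C + 1)), ev (2 * C), small 0 3 (η/2) (by (clear * - hA hρ; positivity)), ev (2 / η)] with X h8 hl h3 h4 h5 h6 h7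
    have hX : 0 < X := by (clear * - hδ hδ' h8; linarith)
    have hl0 : 0 < Real.log X := by (clear * - hδ hδ' hl; linarith)
    set l := Real.log X with hldef
    have e1 : X ^ (τ + 2 * d) ≤ X ^ (0.51 : ℝ) := Real.rpow_le_rpow_of_exponent_le (by (clear * - hδ hδ' h8; linarith)) (by (clear * - hδ hτ2 hδ' hd5; linarith))
    have e2 : (2:ℝ) ≤ X ^ (0.09 : ℝ) := by
      rw [← Real.log_le_log_iff (by norm_num) (by positivity), Real.log_rpow hX]
      have := Real.log_two_lt_d9; (clear * - hδ hδ' hl this; linarith)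
    exact by
      have e3 : (4:ℝ) ≤ X ^ (0.51 : ℝ) := by
        rw [← Real.log_le_log_iff (by norm_num) (by positivity), Real.log_rpow hX]
        have := Real.log_two_lt_d9
        have h44 : Real.log 4 = 2 * Real.log 2 := by
          rw [show (4:ℝ) = 2 ^ 2 by norm_num, Real.log_pow]; norm_num
        rw [h44]; (clear * - hδ hδ' hl this; linarith)
      have e4 : X ^ (0.6 : ℝ) = X ^ (0.51 : ℝ) * X ^ (0.09 : ℝ) := by
        rw [← Real.rpow_add hX]; norm_num
      have e5 : X ^ (τ + 2 * d) + 4 ≤ X ^ (0.6 : ℝ) := by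
        rw [e4]; (clear * - e1 e2 e3 hδ hδ'; nlinarith)
      have e6 : X ^ (0.6 : ℝ) ≤ X := by
        calc X ^ (0.6 : ℝ) ≤ X ^ (1 : ℝ) := Real.rpow_le_rpow_of_exponent_le (by (clear * - hδ hδ' h8; linarith)) (by norm_num)
          _ = X := Real.rpow_one _
      refine ⟨h8, hl, by (clear * - e5 e6; linarith), by (clear * - hδ hδ' e5; linarith), ?_, h4, ?_, ?_⟩
      · clear * - hC hl h8 hX h3; rw [← Real.log_le_log_iff (by positivity) (by positivity), Real.log_mul (by positivity) (by positivity),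
          Real.log_pow, Real.log_rpow hX]
        simpa using h3
      · (clear * - h5 hδ hδ' hl; nlinarith)
      · have f1 : l ^ 3 ≤ X ^ (η / 2) := by
          rw [← Real.log_le_log_iff (by positivity) (by positivity), Real.log_pow, Real.log_rpow hX]
          simpa using h6
        exact by
          have f2 : l ^ 3 * X ^ ρ1 ≤ X ^ (U - η / 2) := by
            calc l ^ 3 * X ^ ρ1 ≤ X ^ (η / 2) * X ^ ρ1 :=
                  mul_le_mul_of_nonneg_right f1 (by positivity)
              _ = X ^ (η / 2 + ρ1) := by rw [← Real.rpow_add hX]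
              _ ≤ X ^ (U - η / 2) := Real.rpow_le_rpow_of_exponent_le (by (clear * - hδ hδ' h8; linarith)) (by (clear * - hη2; linarith))
          have f3 : X ^ A ≤ X ^ (U - η / 2) := Real.rpow_le_rpow_of_exponent_le (by (clear * - hδ hδ' h8; linarith)) (by (clear * - hA hη1; linarith))
          have f4 : (2:ℝ) ≤ X ^ (η / 2) := by
            rw [← Real.log_le_log_iff (by norm_num) (by positivity), Real.log_rpow hX]
            have h22 := Real.log_two_lt_d9
            have h23 : 1 ≤ η / 2 * l := by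
              rw [div_le_iff₀ hη] at h7; (clear * - h7; linarith)
            (clear * - hδ hδ' h22 h23; linarith)
          have f5 : X ^ U = X ^ (U - η / 2) * X ^ (η / 2) := by
            rw [← Real.rpow_add hX]; congr 1; ring
          have f6 : 0 < X ^ (U - η / 2) := by positivity
          rw [f5]; (clear * - f2 f3 hδ hδ' f4 f6; nlinarith)

/-- the counting theorem for cells of length `2^⌊k(1/2+w-d)⌋` -/
theorem countW {w U κ ρ0 : ℝ} (hw0 : 0 ≤ w) (hw1 : w ≤ 1/4) (hκ : κ * (1/2 - w) = 1) (hU1 : 0.21 - 2 * w < U)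
    (hU2 : (1/2 - w) * ρ0 < U) (hB : BadZeroG w) (hN : ThmN) (hA : A9i) (hD : DetectG)
    (hCB : ClassBoundG (1/2 - w) ρ0) (hS : SplitSpaced) : CountW w U := by
  obtain ⟨ε0, X1, e1, e2, hN⟩ := hN
  obtain ⟨C, hC, hA⟩ := hA
  set τ := 1/2 - w with hτdef
  set δ := ε0 / 10 ^ 8 with hδdef
  refine ⟨min δ ((U - (0.21 - 2 * w)) / 10), lt_min (by clear * - e1; positivity) (by (clear * - hU1; linarith)), fun d hd hd0 => ?_⟩
  have hd1 : d ≤ δ := le_trans hd0 (min_le_left _ _)
  have hd2 : d ≤ (U - (0.21 - 2 * w)) / 10 := le_trans hd0 (min_le_right _ _)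
  have hτ1 : 1/4 ≤ τ := by (clear * - hw1 hτdef; linarith)
  exact by
    have hτ2 : τ ≤ 1/2 := by (clear * - hw0 hτdef; linarith)
    have hp : ParG τ ε0 δ d := ⟨e1, e2, hδdef, hd, hd1, hτ1, hτ2⟩
    have hδ := hp.dpos
    have hδ' := hp.dsmall
    obtain ⟨c0, hc0, K1, hB⟩ := hB d hd (by (clear * - e1 e2 hδdef hd1; linarith))
    obtain ⟨X2, hD⟩ := hD τ δ d hτ1 hτ2 hδ (by (clear * - e2 hδdef hd hd1; linarith)) hd hd1
    obtain ⟨X3, hCB⟩ := hCB ε0 δ d e1 e2 hδdef hd hd1
    refine ⟨c0, hc0, ?_⟩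
    have hev : ∀ᶠ X : ℝ in atTop, (X1 ≤ X ∧ X2 ≤ X ∧ X3 ≤ X) ∧
        (8 ≤ X ∧ 10 ≤ Real.log X ∧ X ^ (τ + 2 * d) + 4 ≤ X ∧ X ^ (τ + 2 * d) + 1 ≤ X ^ (0.6 : ℝ) ∧
        240 * C * Real.log X ^ 4 ≤ X ^ ε0 ∧ 8 * (1 / δ + 2) * (C + 1) ≤ Real.log X ∧
        2 * (C * Real.log X) ≤ Real.log X ^ 2 ∧
        X ^ (0.21 - 2 * w + 5 * d) + Real.log X ^ 3 * X ^ (τ * ρ0) ≤ X ^ U) := by
      filter_upwards [eventually_ge_atTop X1, eventually_ge_atTop X2, eventually_ge_atTop X3,
        large_XG hp hC (show 0.21 - 2 * w + 5 * d < U by (clear * - hd hd2; linarith)) hU2]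
        with X a b c h using ⟨⟨a, b, c⟩, h⟩
    have hev2 : ∀ᶠ k : ℕ in atTop, K1 ≤ k ∧ ((X1 ≤ (2:ℝ) ^ k ∧ X2 ≤ (2:ℝ) ^ k ∧ X3 ≤ (2:ℝ) ^ k) ∧
        (8 ≤ (2:ℝ) ^ k ∧ 10 ≤ Real.log ((2:ℝ) ^ k) ∧ ((2:ℝ) ^ k) ^ (τ + 2 * d) + 4 ≤ (2:ℝ) ^ k ∧
        ((2:ℝ) ^ k) ^ (τ + 2 * d) + 1 ≤ ((2:ℝ) ^ k) ^ (0.6 : ℝ) ∧
        240 * C * Real.log ((2:ℝ) ^ k) ^ 4 ≤ ((2:ℝ) ^ k) ^ ε0 ∧ 8 * (1 / δ + 2) * (C + 1) ≤ Real.log ((2:ℝ) ^ k) ∧
        2 * (C * Real.log ((2:ℝ) ^ k)) ≤ Real.log ((2:ℝ) ^ k) ^ 2 ∧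
        ((2:ℝ) ^ k) ^ (0.21 - 2 * w + 5 * d) + Real.log ((2:ℝ) ^ k) ^ 3 * ((2:ℝ) ^ k) ^ (τ * ρ0) ≤
          ((2:ℝ) ^ k) ^ U)) :=
      (eventually_ge_atTop K1).and ((tendsto_pow_atTop_atTop_of_one_lt (by norm_num : (1:ℝ) < 2)).eventually hev)
    obtain ⟨K, hK⟩ := eventually_atTop.mp hev2
    refine ⟨K, fun k hk => ?_⟩
    obtain ⟨hk1, ⟨hX1, hX2, hX3⟩, h8, hl, g1, g2, g3, g4, g5, g6⟩ := hK k hk
    obtain ⟨F, c, u, Exc, b1, b2, b3, b4, b5, b6⟩ := hB k hk1
    have hmain := main_countG hp hC h8 hl hA (fun F hF => hN _ hX1 F hF) (fun x hx0 hx1 => hD _ x hX2 hx0 hx1)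
      (fun x Z c g N U h => hCB _ x Z c g N U hX3 h.hx0 h.hx1 h.hs h.hsp h.hg h.hN0 h.hN1 h.hD h.hc h.hU h.hUs h.hS)
      hS g1 g2 g3 g4 g5 F c u (2 ^ (k - ecw w d k)) b1 b2 b3 b4
    exact by
      set Bd := (Finset.range (2 ^ (k - ecw w d k))).filter (fun j => (npr k (ecw w d k) j : ℝ) < c0 * 2 ^ ecw w d k / k)
        with hBd
      set Lg := (Finset.range (2 ^ (k - ecw w d k))).filter (fun j => 1/2 ≤ ‖∑ ρ ∈ F, (mz ρ : ℂ) * c ρ *
          Complex.exp ((ρ - 1) * (u j : ℂ))‖) with hLg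
      have hsub : Bd ⊆ Exc ∪ Lg := by
        intro j hj
        rw [hBd, Finset.mem_filter, Finset.mem_range] at hj
        rw [Finset.mem_union]
        by_cases hE : j ∈ Exc
        · exact Or.inl hE
        · right
          rw [hLg, Finset.mem_filter, Finset.mem_range]
          exact ⟨hj.1, b6 j hj.1 hE hj.2⟩
      have hcard : (Bd.card : ℝ) ≤ Exc.card + Lg.card := by
        exact_mod_cast le_trans (Finset.card_le_card hsub) (Finset.card_union_le _ _)
      have hpow : (2:ℝ) ^ (U * (k:ℝ)) = ((2:ℝ) ^ k) ^ U := by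
        rw [← Real.rpow_natCast, ← Real.rpow_mul (by norm_num)]
        ring_nf
      rw [hpow]
      (clear * - g6 b5 hmain hcard; linarith)

end Pool.Agent.M20.Helper60.KC
end
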