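import Mathlib
import Pool.Agent.Helper53.KO.G03
import Pool.Agent.Helper53.KO.G04

set_option linter.all false

/- Helper53.KN.Helper26.KC.D1 -/
section
/-!
# KC-10, part 1: Gaussian cut-off function and its Mellin transform
-/

set_option autoImplicit false
open MeasureTheory Filter Topology

namespace Pool.Agent.M20.Helper26.KC

/-- Gaussian density (variance 2) -/
noncomputable def gd (z : ℝ) : ℝ := Real.exp (-(1 / 4) * z ^ 2) / (2 * Real.sqrt Real.pi)

/-- Gaussian distribution function -/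
noncomputable def Phi (v : ℝ) : ℝ := ∫ y in Set.Ioi (0 : ℝ), gd (v - y)

theorem sqrt_pi_pos : 0 < Real.sqrt Real.pi := Real.sqrt_pos.mpr Real.pi_pos

theorem one_le_two_sqrt_pi : 1 ≤ 2 * Real.sqrt Real.pi := by
  have h : 1 ≤ Real.sqrt Real.pi := by
    rw [Real.one_le_sqrt]
    (clear * -; linarith [Real.pi_gt_three])
  (clear * - h; linarith)

theorem gd_nonneg (z : ℝ) : 0 ≤ gd z := by
  unfold gd; positivity

theorem gd_integrable : Integrable gd := by
  unfold gd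
  exact (integrable_exp_neg_mul_sq (b := 1 / 4) (by norm_num)).div_const _

theorem gd_sub_integrable (v : ℝ) : Integrable (fun y => gd (v - y)) :=
  gd_integrable.comp_sub_left v

theorem gd_integral : ∫ z, gd z = 1 := by
  unfold gd
  rw [integral_div, integral_gaussian]
  have h : Real.sqrt (Real.pi / (1 / 4)) = 2 * Real.sqrt Real.pi := by
    rw [show Real.pi / (1 / 4) = 2 ^ 2 * Real.pi by ring, Real.sqrt_mul (by norm_num),
      Real.sqrt_sq (by norm_num)]
  rw [h]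
  exact div_self (by have := sqrt_pi_pos; positivity)

theorem gd_sub_integral (v : ℝ) : ∫ y, gd (v - y) = 1 := by
  rw [integral_sub_left_eq_self (fun z => gd z) volume v, gd_integral]

theorem Phi_nonneg (v : ℝ) : 0 ≤ Phi v :=
  setIntegral_nonneg measurableSet_Ioi fun _ _ => gd_nonneg _

theorem one_sub_Phi (v : ℝ) : 1 - Phi v = ∫ y in Set.Iic (0 : ℝ), gd (v - y) := by
  unfold Phi
  have h := integral_add_compl (s := Set.Ioi (0 : ℝ)) (μ := volume) measurableSet_Ioi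
    (gd_sub_integrable v)
  rw [gd_sub_integral, Set.compl_Ioi] at h
  (clear * - h; linarith)

theorem Phi_le_one (v : ℝ) : Phi v ≤ 1 := by
  have h1 : 0 ≤ 1 - Phi v := by
    rw [one_sub_Phi]
    exact setIntegral_nonneg measurableSet_Iic fun _ _ => gd_nonneg _
  linarith

theorem gd_le (K z : ℝ) : gd z ≤ Real.exp (K ^ 2 + K * z) := by
  unfold gd
  have h1 : Real.exp (-(1 / 4) * z ^ 2) / (2 * Real.sqrt Real.pi) ≤ Real.exp (-(1 / 4) * z ^ 2) := by
    exact div_le_self (Real.exp_pos _).le one_le_two_sqrt_pi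
  refine h1.trans (Real.exp_le_exp.mpr ?_)
  nlinarith [sq_nonneg (K + z / 2)]

theorem Phi_le (K : ℝ) (hK : 1 ≤ K) (v : ℝ) : Phi v ≤ Real.exp (K ^ 2 + K * v) := by
  unfold Phi
  have h1 : IntegrableOn (fun y : ℝ => Real.exp (K ^ 2 + K * v) * Real.exp (-K * y)) (Set.Ioi 0) :=
    (integrableOn_exp_mul_Ioi (by linarith) 0).const_mul _
  have h2 : ∫ y in Set.Ioi (0 : ℝ), gd (v - y) ≤
      ∫ y in Set.Ioi (0 : ℝ), Real.exp (K ^ 2 + K * v) * Real.exp (-K * y) := by
    apply setIntegral_mono_on (gd_sub_integrable v).integrableOn h1 measurableSet_Ioi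
    intro y _
    refine (gd_le K (v - y)).trans (le_of_eq ?_)
    rw [← Real.exp_add]
    congr 1
    ring
  refine h2.trans ?_
  rw [integral_const_mul, integral_exp_mul_Ioi (by linarith)]
  have h3 : -Real.exp (-K * 0) / -K ≤ 1 := by
    rw [mul_zero, Real.exp_zero, neg_div_neg_eq, div_le_one (by (clear * - hK; linarith))]
    exact hK
  have h4 := Real.exp_pos (K ^ 2 + K * v)
  (clear * - h3 h4; nlinarith)

theorem one_sub_Phi_le (K : ℝ) (hK : 1 ≤ K) (v : ℝ) : 1 - Phi v ≤ Real.exp (K ^ 2 - K * v) := by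
  rw [one_sub_Phi]
  have h1 : IntegrableOn (fun y : ℝ => Real.exp (K ^ 2 - K * v) * Real.exp (K * y)) (Set.Iic 0) :=
    (integrableOn_exp_mul_Iic (by (clear * - hK; linarith)) 0).const_mul _
  have h2 : ∫ y in Set.Iic (0 : ℝ), gd (v - y) ≤
      ∫ y in Set.Iic (0 : ℝ), Real.exp (K ^ 2 - K * v) * Real.exp (K * y) := by
    apply setIntegral_mono_on (gd_sub_integrable v).integrableOn h1 measurableSet_Iic
    intro y _
    refine (gd_le (-K) (v - y)).trans (le_of_eq ?_)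
    rw [← Real.exp_add]
    congr 1
    ring
  refine h2.trans ?_
  rw [integral_const_mul, integral_exp_mul_Iic (by linarith)]
  have h3 : Real.exp (K * 0) / K ≤ 1 := by
    rw [mul_zero, Real.exp_zero, div_le_one (by linarith)]
    exact hK
  have h4 := Real.exp_pos (K ^ 2 - K * v)
  (clear * - h3 h4; nlinarith)

/-- the Gaussian integral on a vertical line -/
theorem gauss_line (c w : ℝ) :
    ∫ t : ℝ, Complex.exp (((c : ℂ) + t * Complex.I) * w + ((c : ℂ) + t * Complex.I) ^ 2) =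
      2 * Real.pi * (gd w : ℂ) := by
  have h1 : ∀ t : ℝ, Complex.exp (((c : ℂ) + t * Complex.I) * w + ((c : ℂ) + t * Complex.I) ^ 2) =
      Complex.exp ((-1 : ℂ) * (t : ℂ) ^ 2 + (Complex.I * (2 * c + w)) * t + (c ^ 2 + c * w)) := by
    intro t
    congr 1
    ring_nf
    rw [Complex.I_sq]
    ring
  simp_rw [h1]
  rw [integral_cexp_quadratic (by simp)]
  have h2 : ((Real.pi : ℂ) / -(-1 : ℂ)) ^ (1 / 2 : ℂ) = (Real.sqrt Real.pi : ℂ) := by
    rw [neg_neg, div_one, Real.sqrt_eq_rpow, Complex.ofReal_cpow Real.pi_pos.le]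
    norm_num
  rw [h2]
  have h3 : (c : ℂ) ^ 2 + c * w - (Complex.I * (2 * c + w)) ^ 2 / (4 * (-1 : ℂ)) =
      ((-(1 / 4) * w ^ 2 : ℝ) : ℂ) := by
    rw [mul_pow, Complex.I_sq]
    push_cast
    ring
  rw [h3]
  unfold gd
  rw [← Complex.ofReal_exp]
  have h4 : (Real.pi : ℂ) = (Real.sqrt Real.pi : ℂ) * (Real.sqrt Real.pi : ℂ) := by
    rw [← Complex.ofReal_mul, Real.mul_self_sqrt Real.pi_pos.le]
  have h5 : (Real.sqrt Real.pi : ℂ) ≠ 0 := by
    exact_mod_cast sqrt_pi_pos.ne'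
  push_cast
  rw [show (2 : ℂ) * Real.pi = 2 * ((Real.sqrt Real.pi : ℂ) * (Real.sqrt Real.pi : ℂ)) by rw [← h4]]
  (clear * - h5; field_simp)

theorem line_ne {c t : ℝ} (hc : 0 < c) : (c : ℂ) + t * Complex.I ≠ 0 := by
  intro h
  have := congrArg Complex.re h
  simp at this
  linarith

theorem norm_exp_line (c t w : ℝ) :
    ‖Complex.exp (((c : ℂ) + t * Complex.I) * w + ((c : ℂ) + t * Complex.I) ^ 2)‖ =
      Real.exp (c * w + c ^ 2) * Real.exp (-1 * t ^ 2) := by
  rw [Complex.norm_exp, ← Real.exp_add]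
  congr 1
  simp [pow_two]
  ring

/-- Mellin transform of the cut-off function -/
theorem mellin_Phi {c : ℝ} (hc : 0 < c) (v : ℝ) :
    ∫ t : ℝ, Complex.exp (((c : ℂ) + t * Complex.I) * v + ((c : ℂ) + t * Complex.I) ^ 2) /
      ((c : ℂ) + t * Complex.I) = 2 * Real.pi * (Phi v : ℂ) := by
  have h1 : ∀ t : ℝ, Complex.exp (((c : ℂ) + t * Complex.I) * v + ((c : ℂ) + t * Complex.I) ^ 2) /
      ((c : ℂ) + t * Complex.I) = ∫ y in Set.Ioi (0 : ℝ),
        Complex.exp (((c : ℂ) + t * Complex.I) * ((v - y : ℝ) : ℂ) + ((c : ℂ) + t * Complex.I) ^ 2) := by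
    intro t
    have h2 : ∀ y : ℝ, Complex.exp (((c : ℂ) + t * Complex.I) * ((v - y : ℝ) : ℂ) +
        ((c : ℂ) + t * Complex.I) ^ 2) =
        Complex.exp (((c : ℂ) + t * Complex.I) * v + ((c : ℂ) + t * Complex.I) ^ 2) *
        Complex.exp (-((c : ℂ) + t * Complex.I) * y) := by
      intro y
      rw [← Complex.exp_add]
      congr 1
      push_cast
      ring
    simp_rw [h2]
    rw [integral_const_mul, integral_exp_mul_complex_Ioi (by simp [hc])]
    have h3 := line_ne (t := t) hc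
    simp only [Complex.ofReal_zero, mul_zero, Complex.exp_zero]
    rw [neg_div_neg_eq, mul_one_div]
  simp_rw [h1]
  rw [integral_integral_swap]
  · have h2 : ∀ y : ℝ, ∫ t : ℝ, Complex.exp (((c : ℂ) + t * Complex.I) * ((v - y : ℝ) : ℂ) +
        ((c : ℂ) + t * Complex.I) ^ 2) = ((2 * Real.pi * gd (v - y) : ℝ) : ℂ) := by
      intro y
      rw [gauss_line]
      push_cast
      ring
    simp_rw [h2]
    rw [integral_complex_ofReal, integral_const_mul]
    unfold Phi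
    push_cast
    ring
  · have hcont : Continuous (Function.uncurry fun (t y : ℝ) =>
        Complex.exp (((c : ℂ) + t * Complex.I) * ((v - y : ℝ) : ℂ) + ((c : ℂ) + t * Complex.I) ^ 2)) := by
      unfold Function.uncurry
      fun_prop
    have h2 : Integrable (fun p : ℝ × ℝ => (Real.exp (c * v + c ^ 2) * Real.exp (-1 * p.1 ^ 2)) *
        Real.exp (-c * p.2)) (volume.prod (volume.restrict (Set.Ioi 0))) := by
      apply Integrable.mul_prod (f := fun t : ℝ => Real.exp (c * v + c ^ 2) * Real.exp (-1 * t ^ 2))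
        (g := fun y : ℝ => Real.exp (-c * y))
      · exact (integrable_exp_neg_mul_sq one_pos).const_mul _
      · exact integrableOn_exp_mul_Ioi (by linarith) 0
    refine h2.mono' hcont.aestronglyMeasurable (Eventually.of_forall ?_)
    rintro ⟨t, y⟩
    simp only [Function.uncurry]
    rw [norm_exp_line]
    apply le_of_eq
    rw [← Real.exp_add, ← Real.exp_add, ← Real.exp_add]
    congr 1
    ring

end Pool.Agent.M20.Helper26.KC
end

/- Helper53.KN.Helper26.KC.D2 -/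
section
/-!
# KC-10, part 2: shifting a vertical line of integration
-/

set_option autoImplicit false
open MeasureTheory Filter Topology

namespace Pool.Agent.M20.Helper26.KC

theorem line_re (c t : ℝ) : ((c : ℂ) + t * Complex.I).re = c := by simp

theorem line_im (c t : ℝ) : ((c : ℂ) + t * Complex.I).im = t := by simp

theorem inv_one_add_sq_tendsto : Tendsto (fun T : ℝ => (1 + T ^ 2)⁻¹) atTop (𝓝 0) := by
  apply Tendsto.inv_tendsto_atTop
  exact tendsto_atTop_add_const_left _ _ (tendsto_pow_atTop (by norm_num))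

/-- a continuous function with decay for large imaginary part has decay in the whole strip -/
theorem uniform_decay {L : ℂ → ℂ} (hL : Continuous L) {a b A H : ℝ}
    (hA : ∀ s : ℂ, a ≤ s.re → s.re ≤ b → H ≤ |s.im| → ‖L s‖ ≤ A * (1 + s.im ^ 2)⁻¹) :
    ∃ A' : ℝ, 0 ≤ A' ∧ ∀ s : ℂ, a ≤ s.re → s.re ≤ b → ‖L s‖ ≤ A' * (1 + s.im ^ 2)⁻¹ := by
  have hcomp : IsCompact ((Set.Icc a b) ×ℂ (Set.Icc (-H) H)) :=
    (isCompact_Icc).reProdIm isCompact_Icc
  obtain ⟨B, hB⟩ := hcomp.exists_bound_of_continuousOn hL.continuousOn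
  refine ⟨max |A| (|B| * (1 + H ^ 2)), le_max_of_le_left (abs_nonneg _), ?_⟩
  intro s h1 h2
  have hp : (0 : ℝ) < 1 + s.im ^ 2 := by (clear * -; positivity)
  have hp' : 0 ≤ (1 + s.im ^ 2)⁻¹ := by (clear * -; positivity)
  rcases le_or_gt H |s.im| with h | h
  · refine (hA s h1 h2 h).trans ?_
    exact mul_le_mul_of_nonneg_right ((le_abs_self A).trans (le_max_left _ _)) hp'
  · have h3 : s ∈ (Set.Icc a b) ×ℂ (Set.Icc (-H) H) := by
      rw [Complex.mem_reProdIm]
      exact ⟨⟨h1, h2⟩, ⟨by (clear * - h; linarith [neg_abs_le s.im]), by (clear * - h; linarith [le_abs_self s.im])⟩⟩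
    have h4 := (hB s h3).trans (le_abs_self B)
    have h5 : 1 + s.im ^ 2 ≤ 1 + H ^ 2 := by
      have : |s.im| ^ 2 ≤ H ^ 2 := pow_le_pow_left₀ (abs_nonneg _) h.le 2
      rw [sq_abs] at this
      (clear * - this; linarith)
    have h6 : 1 ≤ (1 + H ^ 2) * (1 + s.im ^ 2)⁻¹ := by
      rw [← div_eq_mul_inv, le_div_iff₀ hp]
      (clear * - h5; linarith)
    calc ‖L s‖ ≤ |B| * 1 := by (clear * - h4; linarith)
      _ ≤ |B| * ((1 + H ^ 2) * (1 + s.im ^ 2)⁻¹) := mul_le_mul_of_nonneg_left h6 (abs_nonneg _)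
      _ = |B| * (1 + H ^ 2) * (1 + s.im ^ 2)⁻¹ := by ring
      _ ≤ _ := mul_le_mul_of_nonneg_right (le_max_right _ _) hp'

theorem line_integrable {L : ℂ → ℂ} {a b A : ℝ} {c : ℝ}
    (hL : Continuous (fun t : ℝ => L ((c : ℂ) + t * Complex.I)))
    (hA : ∀ s : ℂ, a ≤ s.re → s.re ≤ b → ‖L s‖ ≤ A * (1 + s.im ^ 2)⁻¹) (h1 : a ≤ c)
    (h2 : c ≤ b) : Integrable (fun t : ℝ => L ((c : ℂ) + t * Complex.I)) := by
  refine (integrable_inv_one_add_sq.const_mul A).mono' hL.aestronglyMeasurable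
    (Eventually.of_forall fun t => ?_)
  have := hA ((c : ℂ) + t * Complex.I) (by rw [line_re]; exact h1) (by rw [line_re]; exact h2)
  rwa [line_im] at this

/-- contour shift -/
theorem shift {L : ℂ → ℂ} (hL : Differentiable ℂ L) {a b A H : ℝ} (hab : a ≤ b)
    (hA0 : ∀ s : ℂ, a ≤ s.re → s.re ≤ b → H ≤ |s.im| → ‖L s‖ ≤ A * (1 + s.im ^ 2)⁻¹) :
    ∫ t : ℝ, L ((b : ℂ) + t * Complex.I) = ∫ t : ℝ, L ((a : ℂ) + t * Complex.I) := by
  obtain ⟨A', hA', hA⟩ := uniform_decay hL.continuous hA0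
  have hcont : ∀ c : ℝ, Continuous (fun t : ℝ => L ((c : ℂ) + t * Complex.I)) := fun c =>
    hL.continuous.comp (by fun_prop)
  have hdec : Tendsto (fun T : ℝ => A' * (1 + T ^ 2)⁻¹ * |b - a|) atTop (𝓝 0) := by
    have := (inv_one_add_sq_tendsto.const_mul A').mul_const |b - a|
    simpa using this
  have hup : Tendsto (fun T : ℝ => ∫ x : ℝ in a..b, L (x + (T : ℝ) * Complex.I)) atTop (𝓝 0) := by
    refine squeeze_zero_norm (fun T => ?_) hdec
    refine intervalIntegral.norm_integral_le_of_norm_le_const fun x hx => ?_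
    rw [Set.uIoc_of_le hab] at hx
    have := hA (x + T * Complex.I) (by rw [line_re]; exact hx.1.le) (by rw [line_re]; exact hx.2)
    rwa [line_im] at this
  have hdown : Tendsto (fun T : ℝ => ∫ x : ℝ in a..b, L (x + ((-T : ℝ) : ℂ) * Complex.I)) atTop
      (𝓝 0) := by
    refine squeeze_zero_norm (fun T => ?_) hdec
    refine intervalIntegral.norm_integral_le_of_norm_le_const fun x hx => ?_
    rw [Set.uIoc_of_le hab] at hx
    have := hA (x + ((-T : ℝ) : ℂ) * Complex.I) (by rw [line_re]; exact hx.1.le)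
      (by rw [line_re]; exact hx.2)
    rwa [line_im, neg_sq] at this
  have hv2 := intervalIntegral_tendsto_integral (line_integrable (hcont b) hA hab le_rfl)
    tendsto_neg_atTop_atBot tendsto_id
  have hv1 := intervalIntegral_tendsto_integral (line_integrable (hcont a) hA le_rfl hab)
    tendsto_neg_atTop_atBot tendsto_id
  have hrect : ∀ T : ℝ, (∫ x : ℝ in a..b, L (x + ((-T : ℝ) : ℂ) * Complex.I)) -
      (∫ x : ℝ in a..b, L (x + (T : ℂ) * Complex.I)) +
      Complex.I * (∫ y : ℝ in (-T)..T, L (b + y * Complex.I)) -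
      Complex.I * (∫ y : ℝ in (-T)..T, L (a + y * Complex.I)) = 0 := by
    intro T
    have := Complex.integral_boundary_rect_eq_zero_of_differentiableOn L
      (a + ((-T : ℝ) : ℂ) * Complex.I) (b + (T : ℂ) * Complex.I) hL.differentiableOn
    simpa only [line_re, line_im, smul_eq_mul] using this
  have hlim := ((hdown.sub hup).add (hv2.const_mul Complex.I)).sub (hv1.const_mul Complex.I)
  simp only [id_eq] at hlim
  have hz : Tendsto (fun T : ℝ => (0 : ℂ)) atTop (𝓝 (0 - 0 + Complex.I *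
      (∫ t : ℝ, L (b + t * Complex.I)) - Complex.I * ∫ t : ℝ, L (a + t * Complex.I))) := by
    refine hlim.congr fun T => ?_
    exact hrect T
  have heq := tendsto_nhds_unique tendsto_const_nhds hz
  have hI := Complex.I_ne_zero
  have : Complex.I * (∫ t : ℝ, L (b + t * Complex.I)) =
      Complex.I * ∫ t : ℝ, L (a + t * Complex.I) := by
    linear_combination -heq
  exact mul_left_cancel₀ hI this

theorem exp_bound_aux (y : ℝ) : (1 + y ^ 2) ^ 2 * Real.exp (-(y ^ 2 / 4)) ≤ 32 := by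
  have h1 : 0 ≤ y ^ 2 / 4 := by (clear * -; positivity)
  have h2 := Real.quadratic_le_exp_of_nonneg h1
  rw [Real.exp_neg, ← div_eq_mul_inv, div_le_iff₀ (Real.exp_pos _)]
  (clear * - h2; nlinarith)

theorem exp_bound_aux' (R y : ℝ) :
    (R + |y|) ^ 2 * Real.exp (-(y ^ 2 / 4)) ≤ 64 * (R ^ 2 + 1) * (1 + y ^ 2)⁻¹ := by
  have h1 : (R + |y|) ^ 2 ≤ 2 * (R ^ 2 + 1) * (1 + y ^ 2) := by
    have := sq_abs y
    nlinarith [sq_nonneg (R - |y|), sq_nonneg (R * y)]
  have h2 := exp_bound_aux y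
  have hp : (0 : ℝ) < 1 + y ^ 2 := by (clear * -; positivity)
  have h3 := Real.exp_pos (-(y ^ 2 / 4))
  have h4 : 2 * (R ^ 2 + 1) * (1 + y ^ 2) * Real.exp (-(y ^ 2 / 4)) =
      2 * (R ^ 2 + 1) * ((1 + y ^ 2) ^ 2 * Real.exp (-(y ^ 2 / 4))) * (1 + y ^ 2)⁻¹ := by
    (clear * -; field_simp)
  calc (R + |y|) ^ 2 * Real.exp (-(y ^ 2 / 4))
      ≤ 2 * (R ^ 2 + 1) * (1 + y ^ 2) * Real.exp (-(y ^ 2 / 4)) :=
        mul_le_mul_of_nonneg_right h1 h3.le
    _ = 2 * (R ^ 2 + 1) * ((1 + y ^ 2) ^ 2 * Real.exp (-(y ^ 2 / 4))) * (1 + y ^ 2)⁻¹ := h4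
    _ ≤ 2 * (R ^ 2 + 1) * 32 * (1 + y ^ 2)⁻¹ := by (clear * - h2; gcongr)
    _ = _ := by ring

/-- residue subtraction and shift: `J` entire with decay in the strip `a ≤ Re s ≤ b` -/
theorem shift_pole {J : ℂ → ℂ} (hJ : Differentiable ℂ J) {a b A H : ℝ} {s1 : ℂ} (hab : a ≤ b)
    (ha1 : 1 / 2 ≤ |a - s1.re|) (hb1 : 1 / 2 ≤ |b - s1.re|) (ha2 : |a - s1.re| ≤ 2)
    (hb2 : |b - s1.re| ≤ 2)
    (hA0 : ∀ s : ℂ, a ≤ s.re → s.re ≤ b → H ≤ |s.im| → ‖J s‖ ≤ A * (1 + s.im ^ 2)⁻¹) :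
    ‖(∫ t : ℝ, J ((b : ℂ) + t * Complex.I) / ((b : ℂ) + t * Complex.I - s1)) -
      ∫ t : ℝ, J ((a : ℂ) + t * Complex.I) / ((a : ℂ) + t * Complex.I - s1)‖ ≤ 600 * ‖J s1‖ := by
  obtain ⟨A', hA', hA⟩ := uniform_decay hJ.continuous hA0
  set E : ℂ → ℂ := fun s => Complex.exp ((s - s1) ^ 2) with hE
  have hEd : Differentiable ℂ E := by rw [hE]; fun_prop
  have hEn : ∀ s : ℂ, ‖E s‖ = Real.exp ((s.re - s1.re) ^ 2) * Real.exp (-(s.im - s1.im) ^ 2) := by
    intro s
    simp only [hE]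
    rw [Complex.norm_exp, ← Real.exp_add]
    congr 1
    simp [pow_two]
    ring
  have hreb : ∀ x : ℝ, a ≤ x → x ≤ b → (x - s1.re) ^ 2 ≤ 4 := by
    intro x hx1 hx2
    have h1 : |x - s1.re| ≤ 2 := by
      rw [abs_le] at ha2 hb2 ⊢
      constructor <;> (clear * - ha2 hx1 hb2 hx2; linarith [ha2.1, hb2.2])
    have := pow_le_pow_left₀ (abs_nonneg _) h1 2
    rw [sq_abs] at this
    (clear * - this; linarith)
  -- decay of E
  have hEb : ∀ s : ℂ, a ≤ s.re → s.re ≤ b → 2 * |s1.im| + 1 ≤ |s.im| →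
      ‖E s‖ ≤ (Real.exp 4 * 64) * (1 + s.im ^ 2)⁻¹ := by
    intro s h1 h2 h3
    rw [hEn, mul_assoc]
    have h4 : Real.exp (-(s.im - s1.im) ^ 2) ≤ 64 * (1 + s.im ^ 2)⁻¹ := by
      have h5 : s.im ^ 2 / 4 ≤ (s.im - s1.im) ^ 2 := by
        have h6 : |s.im| / 2 ≤ |s.im - s1.im| := by
          have := abs_sub_abs_le_abs_sub s.im s1.im
          (clear * - h3 this; linarith)
        have h7 := pow_le_pow_left₀ (by positivity) h6 2
        rw [div_pow, sq_abs, sq_abs] at h7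
        (clear * - h7; linarith)
      have h8 : Real.exp (-(s.im - s1.im) ^ 2) ≤ Real.exp (-(s.im ^ 2 / 4)) :=
        Real.exp_le_exp.mpr (by (clear * - h5; linarith))
      refine h8.trans ?_
      have h9 := exp_bound_aux' 0 s.im
      have h10 : 1 ≤ (0 + |s.im|) ^ 2 := by
        have : 1 ≤ |s.im| := by (clear * - h3; linarith [abs_nonneg s1.im])
        (clear * - this; nlinarith)
      have h11 := Real.exp_pos (-(s.im ^ 2 / 4))
      (clear * - h9 h10 h11; nlinarith)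
    have h5 : Real.exp ((s.re - s1.re) ^ 2) ≤ Real.exp 4 := Real.exp_le_exp.mpr (hreb _ h1 h2)
    exact mul_le_mul h5 h4 (Real.exp_pos _).le (Real.exp_pos _).le
  obtain ⟨AE, hAE, hEA⟩ := uniform_decay hEd.continuous hEb
  set K : ℂ → ℂ := fun s => J s - J s1 * E s with hK
  have hKd : Differentiable ℂ K := by
    rw [hK]
    exact hJ.sub (hEd.const_mul _)
  have hK1 : K s1 = 0 := by simp [hK, hE]
  set L : ℂ → ℂ := dslope K s1 with hL
  have hLd : Differentiable ℂ L := by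
    rw [hL, ← differentiableOn_univ, Complex.differentiableOn_dslope univ_mem, differentiableOn_univ]
    exact hKd
  have hLne : ∀ s : ℂ, s ≠ s1 → L s = J s / (s - s1) - J s1 * (E s / (s - s1)) := by
    intro s hs
    rw [hL, dslope_of_ne _ hs, slope_def_field, hK1]
    simp only [hK]
    ring
  have hLb : ∀ s : ℂ, a ≤ s.re → s.re ≤ b → 2 * |s1.im| + 1 ≤ |s.im| →
      ‖L s‖ ≤ (A' + ‖J s1‖ * AE) * (1 + s.im ^ 2)⁻¹ := by
    intro s h1 h2 h3
    have h4 : 1 ≤ ‖s - s1‖ := by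
      have h5 := Complex.abs_im_le_norm (s - s1)
      rw [Complex.sub_im] at h5
      have := abs_sub_abs_le_abs_sub s.im s1.im
      (clear * - h3 h5 this; linarith [abs_nonneg s1.im])
    have h5 : s ≠ s1 := by
      intro h
      rw [h, sub_self, norm_zero] at h4
      (clear * - h4; linarith)
    have h6 : L s = K s / (s - s1) := by
      rw [hL, dslope_of_ne _ h5, slope_def_field, hK1, sub_zero]
    rw [h6, norm_div]
    have h7 : ‖K s‖ ≤ (A' + ‖J s1‖ * AE) * (1 + s.im ^ 2)⁻¹ := by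
      simp only [hK]
      refine (norm_sub_le _ _).trans ?_
      rw [norm_mul]
      have h8 := hA s h1 h2
      have h9 := mul_le_mul_of_nonneg_left (hEA s h1 h2) (norm_nonneg (J s1))
      (clear * - h8 h9; linarith)
    exact (div_le_self (norm_nonneg _) h4).trans h7
  have hsh := shift hLd hab hLb
  -- split on a line
  have hline : ∀ c : ℝ, a ≤ c → c ≤ b → 1 / 2 ≤ |c - s1.re| →
      Integrable (fun t : ℝ => J ((c : ℂ) + t * Complex.I) / ((c : ℂ) + t * Complex.I - s1)) ∧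
      Integrable (fun t : ℝ => E ((c : ℂ) + t * Complex.I) / ((c : ℂ) + t * Complex.I - s1)) ∧
      ‖∫ t : ℝ, E ((c : ℂ) + t * Complex.I) / ((c : ℂ) + t * Complex.I - s1)‖ ≤ 300 ∧
      ∫ t : ℝ, L ((c : ℂ) + t * Complex.I) =
        (∫ t : ℝ, J ((c : ℂ) + t * Complex.I) / ((c : ℂ) + t * Complex.I - s1)) -
        J s1 * ∫ t : ℝ, E ((c : ℂ) + t * Complex.I) / ((c : ℂ) + t * Complex.I - s1) := by
    intro c hc1 hc2 hc3
    have hdist : ∀ t : ℝ, 1 / 2 ≤ ‖(c : ℂ) + t * Complex.I - s1‖ := by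
      intro t
      have h5 := Complex.abs_re_le_norm ((c : ℂ) + t * Complex.I - s1)
      rw [Complex.sub_re, line_re] at h5
      (clear * - hc3 h5; linarith)
    have hne : ∀ t : ℝ, (c : ℂ) + t * Complex.I - s1 ≠ 0 := by
      intro t h
      have := hdist t
      rw [h, norm_zero] at this
      linarith
    have hgen : ∀ (F : ℂ → ℂ) (B : ℝ), Continuous F →
        (∀ s : ℂ, a ≤ s.re → s.re ≤ b → ‖F s‖ ≤ B * (1 + s.im ^ 2)⁻¹) →
        Integrable (fun t : ℝ => F ((c : ℂ) + t * Complex.I) / ((c : ℂ) + t * Complex.I - s1)) := by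
      intro F B hF hB
      refine (integrable_inv_one_add_sq.const_mul (2 * B)).mono' ?_ (Eventually.of_forall fun t => ?_)
      · refine Continuous.aestronglyMeasurable ?_
        exact (hF.comp (by fun_prop)).div (by fun_prop) hne
      · have h1 := hB ((c : ℂ) + t * Complex.I) (by rw [line_re]; exact hc1)
          (by rw [line_re]; exact hc2)
        rw [line_im] at h1
        rw [norm_div, div_le_iff₀ (by (clear * - hdist; linarith [hdist t]))]
        have h2 := hdist t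
        have h3 : 0 ≤ B * (1 + t ^ 2)⁻¹ := (norm_nonneg _).trans h1
        (clear * - h1 h2 h3; nlinarith)
    have i1 := hgen J A' hJ.continuous hA
    have i2 := hgen E AE hEd.continuous hEA
    refine ⟨i1, i2, ?_, ?_⟩
    · have hi : Integrable (fun t : ℝ => (2 * Real.exp 4) * Real.exp (-1 * (t - s1.im) ^ 2)) :=
        ((integrable_exp_neg_mul_sq one_pos).comp_sub_right s1.im).const_mul _
      have h1 : ‖∫ t : ℝ, E ((c : ℂ) + t * Complex.I) / ((c : ℂ) + t * Complex.I - s1)‖ ≤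
          ∫ t : ℝ, (2 * Real.exp 4) * Real.exp (-1 * (t - s1.im) ^ 2) := by
        refine norm_integral_le_of_norm_le hi (Eventually.of_forall fun t => ?_)
        rw [norm_div, hEn, line_re, line_im, div_le_iff₀ (by (clear * - hdist; linarith [hdist t]))]
        have h2 := hdist t
        have h3 : Real.exp ((c - s1.re) ^ 2) ≤ Real.exp 4 := Real.exp_le_exp.mpr (hreb _ hc1 hc2)
        have h4 := Real.exp_pos (-(t - s1.im) ^ 2)
        have h5 : -1 * (t - s1.im) ^ 2 = -(t - s1.im) ^ 2 := by ring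
        rw [h5]
        have h6 : Real.exp ((c - s1.re) ^ 2) * Real.exp (-(t - s1.im) ^ 2) ≤
            Real.exp 4 * Real.exp (-(t - s1.im) ^ 2) := mul_le_mul_of_nonneg_right h3 h4.le
        have h7 : 0 < Real.exp 4 * Real.exp (-(t - s1.im) ^ 2) := by positivity
        (clear * - h6 h2 h7; nlinarith)
      refine h1.trans ?_
      rw [integral_const_mul, integral_sub_right_eq_self (fun t : ℝ => Real.exp (-1 * t ^ 2)) s1.im,
        integral_gaussian, div_one]
      have h2 : Real.exp 4 ≤ 60 := by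
        have h3 := Real.exp_one_lt_d9
        have h4 : Real.exp 4 = Real.exp 1 ^ 4 := by
          rw [← Real.exp_nat_mul]; norm_num
        rw [h4]
        have h5 : Real.exp 1 ^ 4 ≤ 2.7182818286 ^ 4 :=
          pow_le_pow_left₀ (Real.exp_pos _).le h3.le 4
        refine h5.trans (by norm_num)
      have h3 : Real.sqrt Real.pi ≤ 2 := by
        rw [Real.sqrt_le_left (by norm_num)]
        (clear * -; linarith [Real.pi_lt_four])
      have h4 := sqrt_pi_pos
      have h5 := Real.exp_pos 4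
      (clear * - h3 h2 h4; nlinarith)
    · have h1 : ∀ t : ℝ, L ((c : ℂ) + t * Complex.I) =
          J ((c : ℂ) + t * Complex.I) / ((c : ℂ) + t * Complex.I - s1) -
          J s1 * (E ((c : ℂ) + t * Complex.I) / ((c : ℂ) + t * Complex.I - s1)) := by
        intro t
        apply hLne
        intro h
        exact hne t (by rw [h, sub_self])
      simp_rw [h1]
      rw [integral_sub i1 (i2.const_mul _), integral_const_mul]
  obtain ⟨_, _, hb3, hb4⟩ := hline b hab le_rfl hb1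
  obtain ⟨_, _, ha3, ha4⟩ := hline a le_rfl hab ha1
  rw [hb4, ha4] at hsh
  have hfin : (∫ t : ℝ, J ((b : ℂ) + t * Complex.I) / ((b : ℂ) + t * Complex.I - s1)) -
      ∫ t : ℝ, J ((a : ℂ) + t * Complex.I) / ((a : ℂ) + t * Complex.I - s1) =
      J s1 * ((∫ t : ℝ, E ((b : ℂ) + t * Complex.I) / ((b : ℂ) + t * Complex.I - s1)) -
      ∫ t : ℝ, E ((a : ℂ) + t * Complex.I) / ((a : ℂ) + t * Complex.I - s1)) := by
    linear_combination hsh
  rw [hfin, norm_mul, mul_comm]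
  apply mul_le_mul_of_nonneg_right _ (norm_nonneg _)
  refine (norm_sub_le _ _).trans ?_
  (clear * - hb3 ha3; linarith)

end Pool.Agent.M20.Helper26.KC
end

/- Helper53.KN.Helper26.KC.D3 -/
section
/-!
# KC-10, part 3: smoothed sums at a zero of zeta
-/

set_option autoImplicit false
set_option linter.all false
open MeasureTheory Filter Topology Finset

namespace Pool.Agent.M20.Helper26.KC

open Pool.Agent.M20.Helper69.QRH

theorem EZ_growth : ∃ C : ℝ, 0 < C ∧ ∀ s : ℂ, 2 / 7 ≤ s.re → ‖EZ s‖ ≤ C * (1 + ‖s‖) ^ 2 := by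
  set K : ℝ := ∑' n : ℕ, ((n : ℝ) + 1) ^ (-(9 / 7 : ℝ)) with hK
  have hK0 : 0 ≤ K := tsum_nonneg fun n => Real.rpow_nonneg (by (clear * -; positivity)) _
  refine ⟨K + 1, by (clear * - hK0; linarith), fun s hs => ?_⟩
  rw [EZ_eq_tsum (by (clear * - hs; linarith))]
  have h1 : ‖∑' n : ℕ, TT n s‖ ≤ ‖s - 1‖ * ‖s‖ * K := by
    rw [hK, ← tsum_mul_left]
    refine tsum_of_norm_bounded ((summable_rpow_aux (by norm_num)).mul_left _).hasSum fun n => ?_
    refine (TT_bound n (by (clear * - hs; linarith))).trans ?_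
    refine mul_le_mul_of_nonneg_left ?_ (by positivity)
    exact Real.rpow_le_rpow_of_exponent_le (by (clear * -; linarith [(n.cast_nonneg : (0 : ℝ) ≤ n)])) (by (clear * - hs; linarith))
  have h2 : ‖s - 1‖ ≤ 1 + ‖s‖ := (norm_sub_le _ _).trans (by rw [norm_one]; (clear * -; linarith))
  have h3 := norm_nonneg s
  calc ‖∑' n : ℕ, TT n s + 1‖ ≤ ‖∑' n : ℕ, TT n s‖ + ‖(1 : ℂ)‖ := norm_add_le _ _
    _ ≤ ‖s - 1‖ * ‖s‖ * K + 1 := by
      rw [norm_one]
      (clear * - h1; linarith)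
    _ ≤ (1 + ‖s‖) * (1 + ‖s‖) * K + (1 + ‖s‖) ^ 2 := by
      have h4 : ‖s - 1‖ * ‖s‖ ≤ (1 + ‖s‖) * (1 + ‖s‖) :=
        mul_le_mul h2 (by (clear * -; linarith)) h3 (by (clear * - h3; linarith))
      have h5 := mul_le_mul_of_nonneg_right h4 hK0
      (clear * - h3 h5; nlinarith)
    _ = (K + 1) * (1 + ‖s‖) ^ 2 := by ring

/-- the mollifier -/
noncomputable def Mo (D : ℕ) (s : ℂ) : ℂ :=
  ∑ d ∈ Icc 1 D, (ArithmeticFunction.moebius d : ℂ) * (d : ℂ) ^ (-s)

theorem Mo_diff (D : ℕ) : Differentiable ℂ (Mo D) := by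
  unfold Mo
  apply Differentiable.fun_sum
  intro d hd
  have h1 : (d : ℂ) ≠ 0 := by
    have := (Finset.mem_Icc.mp hd).1
    exact_mod_cast (by omega : d ≠ 0)
  exact (differentiable_id.neg.const_cpow (Or.inl h1)).const_mul _

theorem moebius_norm_le (d : ℕ) : ‖(ArithmeticFunction.moebius d : ℂ)‖ ≤ 1 := by
  have := ArithmeticFunction.abs_moebius_le_one (n := d)
  rw [Complex.norm_intCast]
  exact_mod_cast this

theorem norm_natCast_cpow_neg_le {d : ℕ} (hd : 1 ≤ d) {s : ℂ} (hs : 0 ≤ s.re) :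
    ‖(d : ℂ) ^ (-s)‖ ≤ 1 := by
  rw [Complex.norm_natCast_cpow_of_pos (by omega)]
  apply Real.rpow_le_one_of_one_le_of_nonpos
  · exact_mod_cast hd
  · simp [hs]

theorem Mo_le (D : ℕ) {s : ℂ} (hs : 0 ≤ s.re) : ‖Mo D s‖ ≤ D := by
  unfold Mo
  refine (norm_sum_le _ _).trans ?_
  have h1 : ∀ d ∈ Icc 1 D, ‖(ArithmeticFunction.moebius d : ℂ) * (d : ℂ) ^ (-s)‖ ≤ 1 := by
    intro d hd
    rw [norm_mul]
    have h2 := norm_natCast_cpow_neg_le (Finset.mem_Icc.mp hd).1 hs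
    have h3 := moebius_norm_le d
    have h4 := norm_nonneg ((d : ℂ) ^ (-s))
    have h5 := norm_nonneg (ArithmeticFunction.moebius d : ℂ)
    (clear * - h3 h2 h5; nlinarith)
  refine (Finset.sum_le_card_nsmul _ _ _ h1).trans ?_
  simp

/-- the inner smoothed sum -/
noncomputable def In (ρ : ℂ) (V : ℝ) (d : ℕ) : ℂ :=
  ∑' m : ℕ, ((m : ℂ) + 1) ^ (-ρ) * (Phi (V - Real.log d - Real.log ((m : ℝ) + 1)) : ℂ)

theorem cpow_eq_exp_log {x : ℝ} (hx : 0 < x) (s : ℂ) :
    (x : ℂ) ^ s = Complex.exp (s * (Real.log x : ℝ)) := by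
  rw [Complex.cpow_def_of_ne_zero (by exact_mod_cast hx.ne'), ← Complex.ofReal_log hx.le, mul_comm]

/-- one divisor -/
theorem inner_mellin {ρ : ℂ} (hρ : 0 ≤ ρ.re) (W : ℝ) :
    Integrable (fun t : ℝ => riemannZeta (ρ + ((2 : ℝ) + t * Complex.I)) *
      (Complex.exp ((((2 : ℝ) : ℂ) + t * Complex.I) * W + (((2 : ℝ) : ℂ) + t * Complex.I) ^ 2) /
        (((2 : ℝ) : ℂ) + t * Complex.I))) ∧
    ∫ t : ℝ, riemannZeta (ρ + ((2 : ℝ) + t * Complex.I)) *
      (Complex.exp ((((2 : ℝ) : ℂ) + t * Complex.I) * W + (((2 : ℝ) : ℂ) + t * Complex.I) ^ 2) /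
        (((2 : ℝ) : ℂ) + t * Complex.I)) =
      2 * Real.pi * ∑' m : ℕ, ((m : ℂ) + 1) ^ (-ρ) * (Phi (W - Real.log ((m : ℝ) + 1)) : ℂ) := by
  set F : ℕ → ℝ → ℂ := fun m t => ((m : ℂ) + 1) ^ (-ρ) *
    (Complex.exp ((((2 : ℝ) : ℂ) + t * Complex.I) * ((W - Real.log ((m : ℝ) + 1) : ℝ) : ℂ) +
      (((2 : ℝ) : ℂ) + t * Complex.I) ^ 2) / (((2 : ℝ) : ℂ) + t * Complex.I)) with hF
  have hm0 : ∀ m : ℕ, (0 : ℝ) < (m : ℝ) + 1 := fun m => by (clear * -; positivity)
  have hFn : ∀ m t, ‖F m t‖ ≤ (Real.exp (2 * W + 4) * ((m : ℝ) + 1) ^ (-(2 : ℝ))) *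
      Real.exp (-1 * t ^ 2) := by
    intro m t
    simp only [hF]
    rw [norm_mul, norm_div, norm_exp_line]
    have h1 : ‖((m : ℂ) + 1) ^ (-ρ)‖ ≤ 1 := by
      have := norm_natCast_cpow_neg_le (d := m + 1) (by omega) hρ
      push_cast at this
      exact this
    have h2 : 1 ≤ ‖((2 : ℝ) : ℂ) + t * Complex.I‖ := by
      have := Complex.abs_re_le_norm (((2 : ℝ) : ℂ) + t * Complex.I)
      rw [line_re] at this
      have h3 : |(2 : ℝ)| = 2 := abs_of_pos (by norm_num)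
      (clear * - this h3; linarith)
    have h3 : Real.exp (2 * (W - Real.log ((m : ℝ) + 1)) + 2 ^ 2) =
        Real.exp (2 * W + 4) * ((m : ℝ) + 1) ^ (-(2 : ℝ)) := by
      rw [Real.rpow_def_of_pos (hm0 m), ← Real.exp_add]
      congr 1
      ring
    rw [h3]
    have h4 : 0 ≤ Real.exp (2 * W + 4) * ((m : ℝ) + 1) ^ (-(2 : ℝ)) * Real.exp (-1 * t ^ 2) := by
      (clear * -; positivity)
    calc ‖((m : ℂ) + 1) ^ (-ρ)‖ * (Real.exp (2 * W + 4) * ((m : ℝ) + 1) ^ (-(2 : ℝ)) *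
          Real.exp (-1 * t ^ 2) / ‖((2 : ℝ) : ℂ) + t * Complex.I‖)
        ≤ 1 * (Real.exp (2 * W + 4) * ((m : ℝ) + 1) ^ (-(2 : ℝ)) * Real.exp (-1 * t ^ 2)) := by
          apply mul_le_mul h1 (div_le_self h4 h2) (by (clear * - h2; positivity)) zero_le_one
      _ = _ := one_mul _
  have hFc : ∀ m, Continuous (F m) := by
    intro m
    simp only [hF]
    refine continuous_const.mul (Continuous.div (by fun_prop) (by fun_prop) ?_)
    intro t
    exact line_ne (by norm_num)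
  have hFi : ∀ m, Integrable (F m) := by
    intro m
    refine ((integrable_exp_neg_mul_sq one_pos).const_mul _).mono' (hFc m).aestronglyMeasurable
      (Eventually.of_forall (hFn m))
  have hsum : Summable (fun m : ℕ => Real.exp (2 * W + 4) * ((m : ℝ) + 1) ^ (-(2 : ℝ)) *
      ∫ t : ℝ, Real.exp (-1 * t ^ 2)) :=
    ((summable_rpow_aux (r := -(2 : ℝ)) (by norm_num)).mul_left _).mul_right _
  have hFs : Summable (fun m => ∫ t, ‖F m t‖) := by
    refine Summable.of_nonneg_of_le (fun m => integral_nonneg fun t => norm_nonneg _)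
      (fun m => ?_) hsum
    rw [← integral_const_mul]
    exact integral_mono (hFi m).norm ((integrable_exp_neg_mul_sq one_pos).const_mul _) (hFn m)
  have hkey : ∀ t : ℝ, riemannZeta (ρ + ((2 : ℝ) + t * Complex.I)) *
      (Complex.exp ((((2 : ℝ) : ℂ) + t * Complex.I) * W + (((2 : ℝ) : ℂ) + t * Complex.I) ^ 2) /
        (((2 : ℝ) : ℂ) + t * Complex.I)) = ∑' m, F m t := by
    intro t
    rw [zeta_eq_tsum_one_div_nat_add_one_cpow (by
      rw [Complex.add_re, line_re]; (clear * - hρ; linarith)), ← tsum_mul_right]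
    apply tsum_congr
    intro m
    simp only [hF]
    have h1 : ((m : ℂ) + 1) = (((m : ℝ) + 1 : ℝ) : ℂ) := by push_cast; ring
    rw [h1, one_div, ← Complex.cpow_neg, cpow_eq_exp_log (hm0 m), cpow_eq_exp_log (hm0 m),
      mul_div_assoc', mul_div_assoc', ← Complex.exp_add, ← Complex.exp_add]
    congr 2
    push_cast
    ring
  constructor
  · simp_rw [hkey]
    have h1 : ∀ t : ℝ, ‖∑' m, F m t‖ ≤ (∑' m : ℕ, Real.exp (2 * W + 4) * ((m : ℝ) + 1) ^ (-(2 : ℝ))) *
        Real.exp (-1 * t ^ 2) := by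
      intro t
      rw [← tsum_mul_right]
      exact tsum_of_norm_bounded (((summable_rpow_aux (r := -(2 : ℝ)) (by norm_num)).mul_left _).mul_right
        _).hasSum (fun m => hFn m t)
    refine ((integrable_exp_neg_mul_sq one_pos).const_mul _).mono' ?_ (Eventually.of_forall h1)
    have h2 : (fun t : ℝ => ∑' m, F m t) = fun t : ℝ => riemannZeta (ρ + ((2 : ℝ) + t * Complex.I)) *
      (Complex.exp ((((2 : ℝ) : ℂ) + t * Complex.I) * W + (((2 : ℝ) : ℂ) + t * Complex.I) ^ 2) /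
        (((2 : ℝ) : ℂ) + t * Complex.I)) := by
      funext t; rw [hkey]
    rw [h2]
    refine Continuous.aestronglyMeasurable ?_
    refine Continuous.mul ?_ (Continuous.div (by fun_prop) (by fun_prop) fun t =>
      line_ne (by norm_num))
    rw [continuous_iff_continuousAt]
    intro t
    have h3 : ρ + ((2 : ℝ) + t * Complex.I) ≠ 1 := by
      intro h
      have := congrArg Complex.re h
      rw [Complex.add_re, line_re, Complex.one_re] at this
      (clear * - hρ this; linarith)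
    exact ContinuousAt.comp (f := fun t : ℝ => ρ + ((2 : ℝ) + t * Complex.I))
      (differentiableAt_riemannZeta h3).continuousAt (by fun_prop)
  · simp_rw [hkey]
    rw [← integral_tsum_of_summable_integral_norm hFi hFs, ← tsum_mul_left]
    apply tsum_congr
    intro m
    simp only [hF]
    rw [integral_const_mul, mellin_Phi (by norm_num)]
    ring

theorem zeta_line_bound {Cz μ0 s0 : ℝ} (hμ0 : 0 ≤ μ0) (hμ1 : μ0 ≤ 1) (hCz : 0 ≤ Cz)
    (hz : ∀ τ : ℝ, ‖riemannZeta (s0 + τ * Complex.I)‖ ≤ Cz * (2 + |τ|) ^ μ0 * Real.log (2 + |τ|))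
    (γ t : ℝ) : ‖riemannZeta (s0 + (γ + t : ℝ) * Complex.I)‖ ≤
      Cz * (2 + |γ|) ^ μ0 * Real.log (2 + |γ|) * (1 + 2 * |t|) ^ 2 := by
  refine (hz (γ + t)).trans ?_
  have hγ := abs_nonneg γ
  have ht := abs_nonneg t
  have h1 : 2 + |γ + t| ≤ (2 + |γ|) * (1 + |t|) := by
    have h0 := abs_add_le γ t
    (clear * - h0 hγ ht; linarith [mul_nonneg hγ ht])
  have h2 : (2 + |γ + t|) ^ μ0 ≤ (2 + |γ|) ^ μ0 * (1 + |t|) := by
    calc (2 + |γ + t|) ^ μ0 ≤ ((2 + |γ|) * (1 + |t|)) ^ μ0 :=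
          Real.rpow_le_rpow (by (clear * -; positivity)) h1 hμ0
      _ = (2 + |γ|) ^ μ0 * (1 + |t|) ^ μ0 := Real.mul_rpow (by positivity) (by positivity)
      _ ≤ (2 + |γ|) ^ μ0 * (1 + |t|) := by
          gcongr
          calc (1 + |t|) ^ μ0 ≤ (1 + |t|) ^ (1 : ℝ) :=
                Real.rpow_le_rpow_of_exponent_le (by (clear * - ht; linarith)) hμ1
            _ = 1 + |t| := Real.rpow_one _
  have hlog2 : 1 / 2 ≤ Real.log (2 + |γ|) := by
    have h3 : Real.log 2 ≤ Real.log (2 + |γ|) := Real.log_le_log (by norm_num) (by linarith)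
    (clear * - h3; linarith [Real.log_two_gt_d9])
  have h3 : Real.log (2 + |γ + t|) ≤ Real.log (2 + |γ|) * (1 + 2 * |t|) := by
    calc Real.log (2 + |γ + t|) ≤ Real.log ((2 + |γ|) * (1 + |t|)) :=
          Real.log_le_log (by (clear * -; positivity)) h1
      _ = Real.log (2 + |γ|) + Real.log (1 + |t|) :=
          Real.log_mul (by positivity) (by positivity)
      _ ≤ Real.log (2 + |γ|) + |t| := by
          have := Real.log_le_sub_one_of_pos (show (0 : ℝ) < 1 + |t| by positivity)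
          (clear * - this; linarith)
      _ ≤ Real.log (2 + |γ|) * (1 + 2 * |t|) := by
          (clear * - ht hlog2; linarith [mul_nonneg (sub_nonneg.2 hlog2) ht])
  have h4 : 0 ≤ Real.log (2 + |γ + t|) := Real.log_nonneg (by (clear * -; linarith [abs_nonneg (γ + t)]))
  have h5 : (0 : ℝ) ≤ (2 + |γ|) ^ μ0 := by (clear * -; positivity)
  calc Cz * (2 + |γ + t|) ^ μ0 * Real.log (2 + |γ + t|)
      ≤ Cz * ((2 + |γ|) ^ μ0 * (1 + |t|)) * (Real.log (2 + |γ|) * (1 + 2 * |t|)) :=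
        mul_le_mul (mul_le_mul_of_nonneg_left h2 hCz) h3 h4
          (mul_nonneg hCz (mul_nonneg h5 (add_nonneg zero_le_one ht)))
    _ ≤ Cz * ((2 + |γ|) ^ μ0 * (1 + 2 * |t|)) * (Real.log (2 + |γ|) * (1 + 2 * |t|)) := by
        have h6 : 1 + |t| ≤ 1 + 2 * |t| := by (clear * - ht; linarith)
        exact mul_le_mul_of_nonneg_right (mul_le_mul_of_nonneg_left
          (mul_le_mul_of_nonneg_left h6 h5) hCz) (mul_nonneg
          (le_trans (by norm_num) hlog2) ((add_nonneg zero_le_one ht).trans h6))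
    _ = _ := by ring

/-- the contour shift for the smoothed mollified sum at a zero -/
theorem mellin_core {s0 : ℝ} (hs0 : 2 / 7 ≤ s0) (hs1 : s0 ≤ 1 / 2)
    {ρ : ℂ} (hρ : riemannZeta ρ = 0) (hρ1 : s0 < ρ.re) (hρ2 : ρ.re ≤ 1) (hγ : 1 ≤ |ρ.im|)
    {V : ℝ} (hV : 0 ≤ V) (D : ℕ) {G : ℝ → ℝ} (hG : Integrable G)
    (hbd : ∀ t : ℝ, ‖riemannZeta ((s0 : ℂ) + ((ρ.im + t : ℝ) : ℂ) * Complex.I)‖ *
      Real.exp (-1 * t ^ 2) ≤ G t) :
    2 * Real.pi * ‖∑ d ∈ Icc 1 D, (ArithmeticFunction.moebius d : ℂ) * (d : ℂ) ^ (-ρ) * In ρ V d‖ ≤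
      D * Real.exp (1 - (ρ.re - s0) * V) / (ρ.re - s0) * (∫ t : ℝ, G t) +
        1800 * (D * Real.exp (V - ρ.im ^ 2)) := by
  obtain ⟨CE, hCE0, hCE⟩ := EZ_growth
  have hρne : ρ ≠ 1 := by
    rintro rfl
    simp at hγ
    (clear * - hs0 hρ1 hρ2 hγ; linarith)
  have hEρ : EZ ρ = 0 := by rw [EZ_eq hρne, hρ, mul_zero]
  set s1 : ℂ := 1 - ρ with hs1def
  have hs1re : s1.re = 1 - ρ.re := by simp [hs1def]
  have hs1im : s1.im = -ρ.im := by simp [hs1def]
  set J0 : ℂ → ℂ := dslope EZ ρ with hJ0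
  have hJ0d : Differentiable ℂ J0 := by
    rw [hJ0, ← differentiableOn_univ, Complex.differentiableOn_dslope univ_mem, differentiableOn_univ]
    exact EZ_differentiable
  have hJ0ne : ∀ s : ℂ, s ≠ 0 → J0 (ρ + s) = EZ (ρ + s) / s := by
    intro s hs
    rw [hJ0, dslope_of_ne _ (by simpa using hs), slope_def_field, hEρ, sub_zero,
      add_sub_cancel_left]
  set J : ℂ → ℂ := fun s => J0 (ρ + s) * Mo D (ρ + s) * Complex.exp (s * V + s ^ 2) with hJ
  have hJd : Differentiable ℂ J := by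
    rw [hJ]
    refine Differentiable.mul (Differentiable.mul ?_ ?_) (by fun_prop)
    · exact hJ0d.comp (by fun_prop)
    · exact (Mo_diff D).comp (by fun_prop)
  -- real part of the left line
  set a : ℝ := s0 - ρ.re with ha
  have hexpn : ∀ s : ℂ, ‖Complex.exp (s * V + s ^ 2)‖ =
      Real.exp (s.re * V + s.re ^ 2) * Real.exp (-s.im ^ 2) := by
    intro s
    rw [Complex.norm_exp, ← Real.exp_add]
    congr 1
    simp [pow_two]
    ring
  -- decay of J
  have hdecay : ∀ s : ℂ, a ≤ s.re → s.re ≤ 2 → 1 ≤ |s.im| →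
      ‖J s‖ ≤ (CE * D * Real.exp (2 * V + 4) * (64 * ((4 + ‖ρ‖) ^ 2 + 1))) * (1 + s.im ^ 2)⁻¹ := by
    intro s h1 h2 h3
    have hs : 1 ≤ ‖s‖ := h3.trans (Complex.abs_im_le_norm s)
    have hsne : s ≠ 0 := by
      intro h; rw [h, norm_zero] at hs; (clear * - hs0 hρ1 hρ2 hs; linarith)
    have hre : (ρ + s).re = ρ.re + s.re := Complex.add_re _ _
    have hre0 : 2 / 7 ≤ (ρ + s).re := by rw [hre]; (clear * - hs0 h1; linarith)
    have e1 : ‖J0 (ρ + s)‖ ≤ CE * (4 + ‖ρ‖ + |s.im|) ^ 2 := by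
      rw [hJ0ne s hsne, norm_div]
      refine (div_le_self (norm_nonneg _) hs).trans ((hCE _ hre0).trans ?_)
      have h4 : ‖s‖ ≤ 2 + |s.im| := by
        refine (Complex.norm_le_abs_re_add_abs_im s).trans ?_
        have : |s.re| ≤ 2 := by rw [abs_le]; constructor <;> (clear * - hs0 hρ1 hρ2 h1 h2; linarith)
        (clear * - this; linarith)
      have h5 := norm_add_le ρ s
      have h6 := norm_nonneg (ρ + s)
      have h7 : 1 + ‖ρ + s‖ ≤ 4 + ‖ρ‖ + |s.im| := by (clear * - h4 h5; linarith)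
      exact mul_le_mul_of_nonneg_left
        (pow_le_pow_left₀ (add_nonneg zero_le_one h6) h7 2) hCE0.le
    have e2 : ‖Mo D (ρ + s)‖ ≤ D := Mo_le D (by (clear * - hs0 hρ1 hρ2 h1 hre; linarith))
    have e3 : ‖Complex.exp (s * V + s ^ 2)‖ ≤ Real.exp (2 * V + 4) * Real.exp (-(s.im ^ 2 / 4)) := by
      rw [hexpn]
      apply mul_le_mul _ _ (Real.exp_pos _).le (Real.exp_pos _).le
      · apply Real.exp_le_exp.mpr
        have h4 : -1 ≤ s.re := by (clear * - hs0 hρ1 hρ2 h1; linarith)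
        (clear * - h2 h4 hV; nlinarith)
      · apply Real.exp_le_exp.mpr
        (clear * -; linarith [sq_nonneg s.im])
    have e4 := exp_bound_aux' (4 + ‖ρ‖) s.im
    have e5 : 0 ≤ CE * (4 + ‖ρ‖ + |s.im|) ^ 2 := (norm_nonneg _).trans e1
    have e6 : (0 : ℝ) ≤ D := Nat.cast_nonneg D
    calc ‖J s‖ = ‖J0 (ρ + s)‖ * ‖Mo D (ρ + s)‖ * ‖Complex.exp (s * V + s ^ 2)‖ := by
          simp only [hJ, norm_mul]
      _ ≤ (CE * (4 + ‖ρ‖ + |s.im|) ^ 2) * D *
          (Real.exp (2 * V + 4) * Real.exp (-(s.im ^ 2 / 4))) :=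
          mul_le_mul (mul_le_mul e1 e2 (norm_nonneg _) e5) e3 (norm_nonneg _) (mul_nonneg e5 e6)
      _ = CE * D * Real.exp (2 * V + 4) *
          ((4 + ‖ρ‖ + |s.im|) ^ 2 * Real.exp (-(s.im ^ 2 / 4))) := by ring
      _ ≤ CE * D * Real.exp (2 * V + 4) *
          (64 * ((4 + ‖ρ‖) ^ 2 + 1) * (1 + s.im ^ 2)⁻¹) :=
          mul_le_mul_of_nonneg_left e4 (mul_nonneg (mul_nonneg hCE0.le e6) (Real.exp_pos _).le)
      _ = _ := by ring
  have hshift := shift_pole hJd (a := a) (b := 2) (s1 := s1) (by (clear * - hs0 hρ1 hρ2; linarith))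
    (by rw [hs1re]; rw [ha]; rw [show s0 - ρ.re - (1 - ρ.re) = -(1 - s0) by ring, abs_neg,
          abs_of_nonneg (by (clear * - hρ1 hρ2; linarith))]; (clear * - hs0 hs1; linarith))
    (by rw [hs1re, show (2 : ℝ) - (1 - ρ.re) = 1 + ρ.re by ring, abs_of_nonneg (by (clear * - hs0 hρ1 hρ2; linarith))]; (clear * - hs0 hρ1 hρ2; linarith))
    (by rw [hs1re]; rw [ha]; rw [show s0 - ρ.re - (1 - ρ.re) = -(1 - s0) by ring, abs_neg,
          abs_of_nonneg (by (clear * - hρ1 hρ2; linarith))]; (clear * - hs0 hs1; linarith))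
    (by rw [hs1re, show (2 : ℝ) - (1 - ρ.re) = 1 + ρ.re by ring, abs_of_nonneg
          (by (clear * - hs0 hρ1; linarith))]; (clear * - hs0 hρ1 hρ2; linarith))
    hdecay
  -- the quotient away from the two special points
  have hquot : ∀ s : ℂ, s ≠ 0 → s ≠ s1 → J s / (s - s1) =
      riemannZeta (ρ + s) * Mo D (ρ + s) * Complex.exp (s * V + s ^ 2) / s := by
    intro s h1 h2
    have h3 : ρ + s ≠ 1 := by
      intro h
      apply h2
      rw [hs1def, ← h]
      ring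
    have h4 : s - s1 ≠ 0 := sub_ne_zero.mpr h2
    simp only [hJ]
    rw [hJ0ne s h1, EZ_eq h3]
    have h5 : ρ + s - 1 = s - s1 := by rw [hs1def]; ring
    rw [h5]
    (clear * - h4 h1; field_simp)
  -- right line
  have hright : ∫ t : ℝ, J (((2 : ℝ) : ℂ) + t * Complex.I) / (((2 : ℝ) : ℂ) + t * Complex.I - s1) =
      2 * Real.pi * ∑ d ∈ Icc 1 D, (ArithmeticFunction.moebius d : ℂ) * (d : ℂ) ^ (-ρ) * In ρ V d := by
    have h1 : ∀ t : ℝ, J (((2 : ℝ) : ℂ) + t * Complex.I) / (((2 : ℝ) : ℂ) + t * Complex.I - s1) =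
        ∑ d ∈ Icc 1 D, ((ArithmeticFunction.moebius d : ℂ) * (d : ℂ) ^ (-ρ)) *
        (riemannZeta (ρ + ((2 : ℝ) + t * Complex.I)) *
          (Complex.exp ((((2 : ℝ) : ℂ) + t * Complex.I) * ((V - Real.log d : ℝ) : ℂ) +
            (((2 : ℝ) : ℂ) + t * Complex.I) ^ 2) / (((2 : ℝ) : ℂ) + t * Complex.I))) := by
      intro t
      rw [hquot _ (line_ne (by norm_num)) (by
        intro h
        have := congrArg Complex.re h
        rw [line_re, hs1re] at this
        (clear * - hs0 hρ1 hρ2 this; linarith))]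
      unfold Mo
      rw [Finset.mul_sum, Finset.sum_mul, Finset.sum_div]
      apply Finset.sum_congr rfl
      intro d hd
      have hd0 : (0 : ℝ) < d := by exact_mod_cast (Finset.mem_Icc.mp hd).1
      have e1 : (d : ℂ) ^ (-(ρ + (((2 : ℝ) : ℂ) + t * Complex.I))) =
          (d : ℂ) ^ (-ρ) * Complex.exp (-(((2 : ℝ) : ℂ) + t * Complex.I) * (Real.log d : ℝ)) := by
        have h2 : (d : ℂ) = ((d : ℝ) : ℂ) := by push_cast; ring
        rw [h2, cpow_eq_exp_log hd0, cpow_eq_exp_log hd0, ← Complex.exp_add]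
        congr 1
        push_cast
        ring
      have e2 : Complex.exp ((((2 : ℝ) : ℂ) + t * Complex.I) * ((V - Real.log d : ℝ) : ℂ) +
            (((2 : ℝ) : ℂ) + t * Complex.I) ^ 2) =
          Complex.exp (-(((2 : ℝ) : ℂ) + t * Complex.I) * (Real.log d : ℝ)) *
          Complex.exp ((((2 : ℝ) : ℂ) + t * Complex.I) * V + (((2 : ℝ) : ℂ) + t * Complex.I) ^ 2) := by
        rw [← Complex.exp_add]
        congr 1
        push_cast
        ring
      rw [e1, e2]
      ring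
    simp_rw [h1]
    rw [integral_finsetSum]
    · rw [Finset.mul_sum]
      apply Finset.sum_congr rfl
      intro d _
      rw [integral_const_mul, (inner_mellin (by (clear * - hs0 hρ1 hρ2; linarith)) (V - Real.log d)).2]
      unfold In
      ring
    · intro d _
      exact (inner_mellin (by (clear * - hs0 hρ1; linarith)) (V - Real.log d)).1.const_mul _
  -- left line
  have hβ : 0 < ρ.re - s0 := by (clear * - hρ1; linarith)
  set B : ℝ := D * Real.exp (1 - (ρ.re - s0) * V) / (ρ.re - s0) with hB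
  have hB0 : 0 ≤ B := by rw [hB]; (clear * - hρ1; positivity)
  have hleft : ‖∫ t : ℝ, J ((a : ℂ) + t * Complex.I) / ((a : ℂ) + t * Complex.I - s1)‖ ≤
      B * ∫ t : ℝ, G t := by
    have h1 : ∀ t : ℝ, ‖J ((a : ℂ) + t * Complex.I) / ((a : ℂ) + t * Complex.I - s1)‖ ≤
        B * G t := by
      intro t
      have hne : (a : ℂ) + t * Complex.I ≠ 0 := by
        intro h
        have := congrArg Complex.re h
        rw [line_re, Complex.zero_re] at this
        (clear * - hρ1 this; linarith)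
      rw [hquot _ hne (by
        intro h
        have := congrArg Complex.re h
        rw [line_re, hs1re] at this
        (clear * - hρ1 hρ2 this; linarith))]
      have e0 : ρ + ((a : ℂ) + t * Complex.I) = (s0 : ℂ) + ((ρ.im + t : ℝ) : ℂ) * Complex.I := by
        apply Complex.ext
        · simp [ha]
        · simp
      rw [e0, norm_div, norm_mul, norm_mul, norm_exp_line]
      have e2 : ‖Mo D ((s0 : ℂ) + ((ρ.im + t : ℝ) : ℂ) * Complex.I)‖ ≤ D := by
        apply Mo_le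
        rw [line_re]
        (clear * - hs0; linarith)
      have e3 : Real.exp (a * V + a ^ 2) ≤ Real.exp (1 - (ρ.re - s0) * V) := by
        apply Real.exp_le_exp.mpr
        have h0 : a ^ 2 ≤ 1 := (sq_le_one_iff_abs_le_one a).2
          (by rw [abs_le]; constructor <;> (clear * - hs0 hρ1 hρ2; linarith))
        rw [show a * V = -(ρ.re - s0) * V by rw [ha]; ring]
        (clear * - h0; linarith)
      have e4 : ρ.re - s0 ≤ ‖(a : ℂ) + t * Complex.I‖ := by
        have h5 := Complex.abs_re_le_norm ((a : ℂ) + t * Complex.I)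
        rw [line_re] at h5
        exact (by rw [ha]; exact le_of_eq_of_le (neg_sub _ _).symm (neg_le_abs _) :
          ρ.re - s0 ≤ |a|).trans h5
      have e1 := hbd t
      generalize riemannZeta ((s0 : ℂ) + ((ρ.im + t : ℝ) : ℂ) * Complex.I) = Zt at e1 ⊢
      generalize Mo D ((s0 : ℂ) + ((ρ.im + t : ℝ) : ℂ) * Complex.I) = Mt at e2 ⊢
      have p1 : (0 : ℝ) ≤ D := Nat.cast_nonneg D
      have p2 := (Real.exp_pos (-1 * t ^ 2)).le
      have p3 := (Real.exp_pos (1 - (ρ.re - s0) * V)).le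
      calc ‖Zt‖ * ‖Mt‖ * (Real.exp (a * V + a ^ 2) * Real.exp (-1 * t ^ 2)) /
            ‖(a : ℂ) + t * Complex.I‖
          ≤ ‖Zt‖ * D * (Real.exp (1 - (ρ.re - s0) * V) * Real.exp (-1 * t ^ 2)) /
            (ρ.re - s0) :=
            div_le_div₀ (mul_nonneg (mul_nonneg (norm_nonneg _) p1) (mul_nonneg p3 p2))
              (mul_le_mul (mul_le_mul_of_nonneg_left e2 (norm_nonneg _))
                (mul_le_mul_of_nonneg_right e3 p2)
                (mul_nonneg (Real.exp_pos _).le p2)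
                (mul_nonneg (norm_nonneg _) p1)) hβ e4
        _ = B * (‖Zt‖ * Real.exp (-1 * t ^ 2)) := by rw [hB]; ring
        _ ≤ B * G t := mul_le_mul_of_nonneg_left e1 hB0
    refine (norm_integral_le_of_norm_le (hG.const_mul B) (Eventually.of_forall h1)).trans ?_
    rw [integral_const_mul]
  -- value at the pole
  have hJs1 : ‖J s1‖ ≤ D * Real.exp (V + 1 - ρ.im ^ 2) := by
    have hs1ne : s1 ≠ 0 := by
      rw [hs1def]; exact sub_ne_zero.mpr hρne.symm
    have h1 : ρ + s1 = 1 := by rw [hs1def]; ring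
    have h2 : 1 ≤ ‖s1‖ := by
      have := Complex.abs_im_le_norm s1
      rw [hs1im, abs_neg] at this
      (clear * - hγ this; linarith)
    simp only [hJ]
    rw [norm_mul, norm_mul, hJ0ne s1 hs1ne, h1, EZ_one, norm_div, norm_one, hexpn, hs1re, hs1im]
    have h3 : ‖Mo D 1‖ ≤ D := Mo_le D (by simp)
    have h4 : (1 : ℝ) / ‖s1‖ ≤ 1 := by
      rw [one_div]; exact inv_le_one_of_one_le₀ h2
    have h5 : Real.exp ((1 - ρ.re) * V + (1 - ρ.re) ^ 2) * Real.exp (-(-ρ.im) ^ 2) ≤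
        Real.exp (V + 1 - ρ.im ^ 2) := by
      rw [← Real.exp_add]
      apply Real.exp_le_exp.mpr
      have h8 : 0 ≤ 1 - ρ.re := sub_nonneg.2 hρ2
      have h9 : 1 - ρ.re ≤ 1 := by (clear * - hs0 hρ1; linarith)
      have h6 : (1 - ρ.re) ^ 2 ≤ 1 := pow_le_one₀ h8 h9
      have h7 : (1 - ρ.re) * V ≤ V := mul_le_of_le_one_left hV h9
      (clear * - h6 h7; linarith [neg_sq ρ.im])
    have h6 := norm_nonneg (Mo D 1)
    calc 1 / ‖s1‖ * ‖Mo D 1‖ * (Real.exp ((1 - ρ.re) * V + (1 - ρ.re) ^ 2) * Real.exp (-(-ρ.im) ^ 2))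
        ≤ 1 * D * Real.exp (V + 1 - ρ.im ^ 2) :=
          mul_le_mul (mul_le_mul h4 h3 h6 zero_le_one) h5
            (mul_nonneg (Real.exp_pos _).le (Real.exp_pos _).le)
            (mul_nonneg zero_le_one (Nat.cast_nonneg D))
      _ = _ := by ring
  rw [hright] at hshift
  have hpi := Real.pi_pos
  set Sg : ℂ := ∑ d ∈ Icc 1 D, (ArithmeticFunction.moebius d : ℂ) * (d : ℂ) ^ (-ρ) * In ρ V d with hSg
  have h1 : ‖2 * (Real.pi : ℂ) * Sg‖ ≤ 600 * ‖J s1‖ + B * ∫ t : ℝ, G t := by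
    have h0 := norm_sub_norm_le (2 * (Real.pi : ℂ) * Sg)
      (∫ t : ℝ, J ((a : ℂ) + t * Complex.I) / ((a : ℂ) + t * Complex.I - s1))
    exact (sub_le_iff_le_add.1 (h0.trans hshift)).trans (add_le_add_right hleft _)
  rw [norm_mul, norm_mul, Complex.norm_real, Complex.norm_ofNat, Real.norm_of_nonneg hpi.le] at h1
  have h2 : D * Real.exp (V + 1 - ρ.im ^ 2) ≤ 3 * (D * Real.exp (V - ρ.im ^ 2)) := by
    rw [show V + 1 - ρ.im ^ 2 = 1 + (V - ρ.im ^ 2) by ring, Real.exp_add]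
    have h3 := Real.exp_one_lt_d9
    have h4 : 0 ≤ (D : ℝ) * Real.exp (V - ρ.im ^ 2) :=
      mul_nonneg (Nat.cast_nonneg D) (Real.exp_pos _).le
    have h5 : Real.exp 1 ≤ 3 := by (clear * - h3; linarith)
    calc (D : ℝ) * (Real.exp 1 * Real.exp (V - ρ.im ^ 2))
        = Real.exp 1 * (D * Real.exp (V - ρ.im ^ 2)) := by ring
      _ ≤ 3 * (D * Real.exp (V - ρ.im ^ 2)) := mul_le_mul_of_nonneg_right h5 h4
  (clear * - hJs1 h2 h1; linarith)

/-- the smoothed mollified sum at a zero is small -/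
theorem mellin_bound {Cz μ0 s0 : ℝ} (hμ0 : 0 ≤ μ0) (hμ1 : μ0 ≤ 1) (hCz : 0 ≤ Cz) (hs0 : 2 / 7 ≤ s0)
    (hs1 : s0 ≤ 1 / 2)
    (hz : ∀ τ : ℝ, ‖riemannZeta (s0 + τ * Complex.I)‖ ≤ Cz * (2 + |τ|) ^ μ0 * Real.log (2 + |τ|))
    {ρ : ℂ} (hρ : riemannZeta ρ = 0) (hρ1 : s0 < ρ.re) (hρ2 : ρ.re ≤ 1) (hγ : 1 ≤ |ρ.im|)
    {V : ℝ} (hV : 0 ≤ V) (D : ℕ) :
    ‖∑ d ∈ Icc 1 D, (ArithmeticFunction.moebius d : ℂ) * (d : ℂ) ^ (-ρ) * In ρ V d‖ ≤
      32 * Cz * (2 + |ρ.im|) ^ μ0 * Real.log (2 + |ρ.im|) * D *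
        Real.exp (1 - (ρ.re - s0) * V) / (ρ.re - s0) + 300 * (D * Real.exp (V - ρ.im ^ 2)) := by
  have hβ : 0 < ρ.re - s0 := by (clear * - hρ1; linarith)
  have hlog : 0 ≤ Real.log (2 + |ρ.im|) :=
    Real.log_nonneg (by (clear * -; linarith [abs_nonneg ρ.im]))
  have hA0 : 0 ≤ Cz * (2 + |ρ.im|) ^ μ0 * Real.log (2 + |ρ.im|) :=
    mul_nonneg (mul_nonneg hCz (Real.rpow_nonneg (by (clear * -; positivity)) _)) hlog
  have hcore := mellin_core hs0 hs1 hρ hρ1 hρ2 hγ hV D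
    (G := fun t => Cz * (2 + |ρ.im|) ^ μ0 * Real.log (2 + |ρ.im|) * 64 * (1 + t ^ 2)⁻¹)
    (integrable_inv_one_add_sq.const_mul _) (fun t => by
      have e1 := zeta_line_bound hμ0 hμ1 hCz hz ρ.im t
      have e5 : (1 + 2 * |t|) ^ 2 * Real.exp (-1 * t ^ 2) ≤ 64 * (1 + t ^ 2)⁻¹ := by
        clear * -
        have f1 : (1 + 2 * |t|) ^ 2 ≤ 8 * (1 + t ^ 2) := by
          have h0 := sq_abs t
          linarith [sq_nonneg (1 - 2 * |t|)]
        have f2 : (1 + t ^ 2) ^ 2 * Real.exp (-1 * t ^ 2) ≤ 2 := by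
          have f3 := Real.quadratic_le_exp_of_nonneg (sq_nonneg t)
          rw [neg_one_mul, Real.exp_neg, ← div_eq_mul_inv, div_le_iff₀ (Real.exp_pos _)]
          linarith
        have f3 : (0 : ℝ) < 1 + t ^ 2 := by positivity
        have f4 := Real.exp_pos (-1 * t ^ 2)
        rw [← div_eq_mul_inv, le_div_iff₀ f3]
        generalize Real.exp (-1 * t ^ 2) = E at f2 f4 ⊢
        have f5 : (1 + 2 * |t|) ^ 2 * E * (1 + t ^ 2) ≤ 8 * (1 + t ^ 2) * E * (1 + t ^ 2) :=
          mul_le_mul_of_nonneg_right (mul_le_mul_of_nonneg_right f1 f4.le) f3.le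
        linarith
      generalize riemannZeta ((s0 : ℂ) + ((ρ.im + t : ℝ) : ℂ) * Complex.I) = Zt at e1 ⊢
      generalize Cz * (2 + |ρ.im|) ^ μ0 * Real.log (2 + |ρ.im|) = A at e1 hA0 ⊢
      calc ‖Zt‖ * Real.exp (-1 * t ^ 2) ≤ A * (1 + 2 * |t|) ^ 2 * Real.exp (-1 * t ^ 2) :=
            mul_le_mul_of_nonneg_right e1 (Real.exp_pos _).le
        _ = A * ((1 + 2 * |t|) ^ 2 * Real.exp (-1 * t ^ 2)) := mul_assoc _ _ _
        _ ≤ A * (64 * (1 + t ^ 2)⁻¹) := mul_le_mul_of_nonneg_left e5 hA0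
        _ = A * 64 * (1 + t ^ 2)⁻¹ := (mul_assoc _ _ _).symm)
  rw [integral_const_mul, integral_univ_inv_one_add_sq] at hcore
  have h3 : 0 ≤ (D : ℝ) * Real.exp (V - ρ.im ^ 2) :=
    mul_nonneg (Nat.cast_nonneg D) (Real.exp_pos _).le
  have h4 : 32 * Cz * (2 + |ρ.im|) ^ μ0 * Real.log (2 + |ρ.im|) * D *
        Real.exp (1 - (ρ.re - s0) * V) / (ρ.re - s0) =
      32 * (D * Real.exp (1 - (ρ.re - s0) * V) / (ρ.re - s0) *
        (Cz * (2 + |ρ.im|) ^ μ0 * Real.log (2 + |ρ.im|))) := by ring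
  rw [h4]
  have hpi3 := Real.pi_gt_three
  have h5 : D * Real.exp (1 - (ρ.re - s0) * V) / (ρ.re - s0) *
      (Cz * (2 + |ρ.im|) ^ μ0 * Real.log (2 + |ρ.im|) * 64 * Real.pi) =
      64 * Real.pi * (D * Real.exp (1 - (ρ.re - s0) * V) / (ρ.re - s0) *
        (Cz * (2 + |ρ.im|) ^ μ0 * Real.log (2 + |ρ.im|))) := by ring
  rw [h5] at hcore
  refine le_of_mul_le_mul_left ?_ (by (clear * -; positivity) : (0 : ℝ) < 2 * Real.pi)
  refine hcore.trans ?_
  generalize (D : ℝ) * Real.exp (1 - (ρ.re - s0) * V) / (ρ.re - s0) *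
        (Cz * (2 + |ρ.im|) ^ μ0 * Real.log (2 + |ρ.im|)) = Y
  generalize (D : ℝ) * Real.exp (V - ρ.im ^ 2) = X at h3 ⊢
  (clear * - hpi3 h3; linarith [mul_nonneg (sub_nonneg.2 hpi3.le) h3])

end Pool.Agent.M20.Helper26.KC
end

/- Helper53.KN.Helper26.KC.D4 -/
section
/-!
# KC-10, part 4: finite sums, conclusion
-/

set_option autoImplicit false
open MeasureTheory Filter Topology Finset

namespace Pool.Agent.M20.Helper26.KC

open Pool.Agent.M20.Helper69.QRH Pool.Agent.M20.Helper60.KS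

theorem zeta_neg (s0 τ : ℝ) :
    ‖riemannZeta (s0 + ((-τ : ℝ) : ℂ) * Complex.I)‖ = ‖riemannZeta (s0 + τ * Complex.I)‖ := by
  have h : (s0 : ℂ) + ((-τ : ℝ) : ℂ) * Complex.I =
      (starRingEnd ℂ) ((s0 : ℂ) + τ * Complex.I) := by
    simp
  rw [h, riemannZeta_conj, RCLike.norm_conj]

theorem zline {s0 μ0 C : ℝ} (hs1 : s0 < 1) (hμ : 0 ≤ μ0) (hC : 0 < C)
    (h : ∀ t : ℝ, 2 ≤ t → ‖riemannZeta (s0 + t * Complex.I)‖ ≤ C * t ^ μ0 * Real.log t) :
    ∃ Cz : ℝ, 0 ≤ Cz ∧ ∀ τ : ℝ,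
      ‖riemannZeta (s0 + τ * Complex.I)‖ ≤ Cz * (2 + |τ|) ^ μ0 * Real.log (2 + |τ|) := by
  have hcont : Continuous (fun t : ℝ => riemannZeta (s0 + t * Complex.I)) := by
    rw [continuous_iff_continuousAt]
    intro t
    have h3 : (s0 : ℂ) + t * Complex.I ≠ 1 := by
      intro h
      have := congrArg Complex.re h
      rw [line_re, Complex.one_re] at this
      linarith
    exact ContinuousAt.comp (f := fun t : ℝ => (s0 : ℂ) + t * Complex.I)
      (differentiableAt_riemannZeta h3).continuousAt (by fun_prop)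
  obtain ⟨B, hB⟩ := (isCompact_Icc (a := (0 : ℝ)) (b := 2)).exists_bound_of_continuousOn
    hcont.continuousOn
  refine ⟨C + 2 * |B|, by positivity, ?_⟩
  have key : ∀ τ : ℝ, 0 ≤ τ →
      ‖riemannZeta (s0 + τ * Complex.I)‖ ≤ (C + 2 * |B|) * (2 + τ) ^ μ0 * Real.log (2 + τ) := by
    intro τ hτ
    have hlog2 : 1 / 2 ≤ Real.log (2 + τ) := by
      have h3 : Real.log 2 ≤ Real.log (2 + τ) := Real.log_le_log (by norm_num) (by linarith)
      linarith [Real.log_two_gt_d9]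
    have hp : 1 ≤ (2 + τ) ^ μ0 := Real.one_le_rpow (by linarith) hμ
    rcases le_or_gt 2 τ with h2 | h2
    · refine (h τ h2).trans ?_
      have h3 : τ ^ μ0 ≤ (2 + τ) ^ μ0 := Real.rpow_le_rpow hτ (by linarith) hμ
      have h4 : Real.log τ ≤ Real.log (2 + τ) := Real.log_le_log (by (clear * - h2; linarith)) (by linarith)
      have h5 : 0 ≤ Real.log τ := Real.log_nonneg (by (clear * - h2; linarith))
      have h6 : C ≤ C + 2 * |B| := by (clear * -; linarith [abs_nonneg B])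
      have h7 : 0 ≤ τ ^ μ0 := Real.rpow_nonneg hτ _
      gcongr
    · have h3 := (hB τ ⟨hτ, h2.le⟩).trans (le_abs_self B)
      refine h3.trans ?_
      have h4 : 1 / 2 ≤ (2 + τ) ^ μ0 * Real.log (2 + τ) := by (clear * - hlog2 hp; nlinarith)
      have h5 := abs_nonneg B
      calc |B| = (2 * |B|) * (1 / 2) := by ring
        _ ≤ (C + 2 * |B|) * ((2 + τ) ^ μ0 * Real.log (2 + τ)) := by
            apply mul_le_mul (by linarith) h4 (by norm_num) (by positivity)
        _ = _ := by ring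
  intro τ
  rcases le_total 0 τ with h1 | h1
  · rw [abs_of_nonneg h1]; exact key τ h1
  · rw [abs_of_nonpos h1]
    have := key (-τ) (by linarith)
    rwa [zeta_neg] at this

/-- coefficients -/
noncomputable def an (D n : ℕ) : ℂ :=
  ∑ e ∈ n.divisors.filter (fun e => e ≤ D), (ArithmeticFunction.moebius e : ℂ)

theorem an_norm_le (D n : ℕ) : ‖an D n‖ ≤ n.divisors.card := by
  unfold an
  refine (norm_sum_le _ _).trans ?_
  refine (Finset.sum_le_card_nsmul _ _ 1 fun e _ => moebius_norm_le e).trans ?_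
  rw [nsmul_eq_mul, mul_one]
  exact_mod_cast Finset.card_filter_le _ _

theorem an_one {D : ℕ} (hD : 1 ≤ D) : an D 1 = 1 := by
  unfold an
  have h : (Nat.divisors 1).filter (fun e => e ≤ D) = {1} := by
    rw [Nat.divisors_one]
    ext e
    simp only [Finset.mem_filter, Finset.mem_singleton]
    constructor
    · exact fun h => h.1
    · rintro rfl; exact ⟨rfl, hD⟩
  rw [h]
  simp

theorem an_zero {D n : ℕ} (h1 : 1 < n) (h2 : n ≤ D) : an D n = 0 := by
  unfold an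
  have h : n.divisors.filter (fun e => e ≤ D) = n.divisors := by
    apply Finset.filter_true_of_mem
    intro e he
    exact (Nat.divisor_le he).trans h2
  rw [h]
  have h3 : ∑ e ∈ n.divisors, (ArithmeticFunction.moebius e : ℤ) = 0 := by
    have h4 := ArithmeticFunction.coe_zeta_mul_apply (f := ArithmeticFunction.moebius) (x := n)
    rw [ArithmeticFunction.coe_zeta_mul_moebius, ArithmeticFunction.one_apply_ne (by omega)] at h4
    exact h4.symm
  exact_mod_cast congrArg (Int.cast : ℤ → ℂ) h3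

/-- rearrangement -/
theorem rearrange (D N0 : ℕ) (F : ℕ → ℂ) :
    ∑ e ∈ Icc 1 D, (ArithmeticFunction.moebius e : ℂ) * ∑ m ∈ range (N0 / e), F (e * (m + 1)) =
      ∑ n ∈ Icc 1 N0, an D n * F n := by
  have h1 : ∀ n ∈ Icc 1 N0, an D n * F n =
      ∑ e ∈ Icc 1 D, if e ∣ n then (ArithmeticFunction.moebius e : ℂ) * F n else 0 := by
    intro n hn
    have hn1 := (Finset.mem_Icc.mp hn).1
    unfold an
    rw [Finset.sum_mul, ← Finset.sum_filter]
    apply Finset.sum_congr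
    · ext e
      simp only [Finset.mem_filter, Nat.mem_divisors, Finset.mem_Icc]
      constructor
      · rintro ⟨⟨h1, h2⟩, h3⟩
        exact ⟨⟨Nat.pos_of_dvd_of_pos h1 (by omega), h3⟩, h1⟩
      · rintro ⟨⟨h1, h2⟩, h3⟩
        exact ⟨⟨h3, by omega⟩, h2⟩
    · intro e _; rfl
  rw [Finset.sum_congr rfl h1, Finset.sum_comm]
  apply Finset.sum_congr rfl
  intro e he
  have he1 := (Finset.mem_Icc.mp he).1
  rw [← Finset.sum_filter, ← Finset.mul_sum]
  congr 1
  symm
  apply Finset.sum_nbij' (fun n => n / e - 1) (fun m => e * (m + 1))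
  · intro n hn
    simp only [Finset.mem_filter, Finset.mem_Icc] at hn
    obtain ⟨⟨h1, h2⟩, k, rfl⟩ := hn
    rw [Nat.mul_div_cancel_left _ (by omega), Finset.mem_range]
    have hk : 1 ≤ k := by
      rcases Nat.eq_zero_or_pos k with h | h
      · rw [h] at h1; omega
      · exact h
    have : k ≤ N0 / e := (Nat.le_div_iff_mul_le (by omega)).mpr (by rw [mul_comm]; exact h2)
    omega
  · intro m hm
    simp only [Finset.mem_filter, Finset.mem_Icc]
    rw [Finset.mem_range] at hm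
    refine ⟨⟨?_, ?_⟩, Dvd.intro _ rfl⟩
    · have : 0 < e * (m + 1) := Nat.mul_pos (by omega) (by omega)
      omega
    · have h3 : (m + 1) * e ≤ N0 := (Nat.le_div_iff_mul_le (by omega)).mp hm
      rw [mul_comm]; exact h3
  · intro n hn
    simp only [Finset.mem_filter, Finset.mem_Icc] at hn
    obtain ⟨⟨h1, h2⟩, k, rfl⟩ := hn
    rw [Nat.mul_div_cancel_left _ (by omega)]
    have hk : 1 ≤ k := by
      rcases Nat.eq_zero_or_pos k with h | h
      · rw [h] at h1; omega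
      · exact h
    rw [Nat.sub_add_cancel hk]
  · intro m _
    rw [Nat.mul_div_cancel_left _ (by omega), Nat.add_sub_cancel]
  · intro n hn
    simp only [Finset.mem_filter, Finset.mem_Icc] at hn
    obtain ⟨⟨h1, h2⟩, k, rfl⟩ := hn
    rw [Nat.mul_div_cancel_left _ (by omega)]
    have hk : 1 ≤ k := by
      rcases Nat.eq_zero_or_pos k with h | h
      · rw [h] at h1; omega
      · exact h
    rw [Nat.sub_add_cancel hk]

theorem S2_le : ∑' m : ℕ, 1 / ((m : ℝ) + 1) ^ 2 ≤ 2 := by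
  have h1 := hasSum_zeta_two
  have h2 : HasSum (fun m : ℕ => 1 / ((m : ℝ) + 1) ^ 2) (Real.pi ^ 2 / 6) := by
    have h3 := (hasSum_nat_add_iff' 1).mpr h1
    simp only [Finset.range_one, Finset.sum_singleton, Nat.cast_zero] at h3
    norm_num at h3
    norm_num
    exact h3
  rw [h2.tsum_eq]
  have h3 := Real.pi_lt_d2
  have h4 := Real.pi_gt_three
  (clear * - h3 h4; nlinarith)

theorem S2_summable : Summable (fun m : ℕ => 1 / ((m : ℝ) + 1) ^ 2) := by
  have h1 := (summable_nat_add_iff 1).mpr hasSum_zeta_two.summable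
  simpa using h1

/-- pointwise tail bound -/
theorem Phi_tail {K V L1 : ℝ} (hK : 2 ≤ K) {n : ℕ} (hn : 0 < n)
    (hV : V + L1 ≤ Real.log n) :
    Phi (V - Real.log n) ≤ Real.exp (K ^ 2 + 2 * V - (K - 2) * L1) * (1 / (n : ℝ) ^ 2) := by
  have hn0 : (0 : ℝ) < n := by exact_mod_cast hn
  refine (Phi_le K (by (clear * - hK; linarith)) _).trans ?_
  have h1 : 1 / (n : ℝ) ^ 2 = Real.exp (-2 * Real.log n) := by
    rw [show -2 * Real.log n = Real.log n * (-2) by ring, ← Real.rpow_def_of_pos hn0,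
      Real.rpow_neg hn0.le, one_div]
    norm_num
  rw [h1, ← Real.exp_add]
  apply Real.exp_le_exp.mpr
  have h2 : (K - 2) * (V - Real.log n) ≤ (K - 2) * (-L1) :=
    mul_le_mul_of_nonneg_left (by (clear * - hV; linarith)) (by linarith)
  (clear * - h2; nlinarith)

theorem In_tail {ρ : ℂ} (hρ : 0 ≤ ρ.re) {K V L1 : ℝ} (hK : 2 ≤ K) {N0 e : ℕ} (he : 1 ≤ e)
    (hN0 : 0 < N0) (hV : V + L1 ≤ Real.log N0) :
    ‖In ρ V e - ∑ m ∈ range (N0 / e), ((m : ℂ) + 1) ^ (-ρ) *
      (Phi (V - Real.log ((e * (m + 1) : ℕ) : ℝ)) : ℂ)‖ ≤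
      2 * Real.exp (K ^ 2 + 2 * V - (K - 2) * L1) := by
  set f : ℕ → ℂ := fun m => ((m : ℂ) + 1) ^ (-ρ) * (Phi (V - Real.log ((e * (m + 1) : ℕ) : ℝ)) : ℂ)
    with hf
  have he0 : (0 : ℝ) < e := by exact_mod_cast he
  have hlog : ∀ m : ℕ, Real.log ((e * (m + 1) : ℕ) : ℝ) = Real.log e + Real.log ((m : ℝ) + 1) := by
    intro m
    push_cast
    rw [Real.log_mul he0.ne' (by (clear * -; positivity))]
  have hIn : In ρ V e = ∑' m, f m := by
    unfold In
    apply tsum_congr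
    intro m
    simp only [hf]
    rw [hlog]
    congr 3
    ring
  have hcp : ∀ m : ℕ, ‖((m : ℂ) + 1) ^ (-ρ)‖ ≤ 1 := by
    intro m
    have := norm_natCast_cpow_neg_le (d := m + 1) (by omega) hρ
    push_cast at this
    exact this
  have hfn : ∀ m, ‖f m‖ ≤ Phi (V - Real.log ((e * (m + 1) : ℕ) : ℝ)) := by
    intro m
    simp only [hf]
    rw [norm_mul, Complex.norm_real, Real.norm_of_nonneg (Phi_nonneg _)]
    have := Phi_nonneg (V - Real.log ((e * (m + 1) : ℕ) : ℝ))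
    have := hcp m
    nlinarith [norm_nonneg (((m : ℂ) + 1) ^ (-ρ))]
  set A : ℝ := Real.exp (K ^ 2 + 2 * V - (K - 2) * L1) with hA
  have htail : ∀ m : ℕ, ‖f (m + N0 / e)‖ ≤ A * (1 / ((m : ℝ) + 1) ^ 2) := by
    intro m
    refine (hfn _).trans ?_
    have h1 : N0 < e * (m + N0 / e + 1) := by
      have := Nat.lt_mul_div_succ N0 (show 0 < e by omega)
      have h2 : e * (N0 / e + 1) ≤ e * (m + N0 / e + 1) := Nat.mul_le_mul_left _ (by omega)
      omega
    have h2 : V + L1 ≤ Real.log ((e * (m + N0 / e + 1) : ℕ) : ℝ) := by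
      refine hV.trans (Real.log_le_log (by exact_mod_cast hN0) ?_)
      exact_mod_cast h1.le
    refine (Phi_tail hK (by omega) h2).trans ?_
    rw [← hA]
    have h3 : (m : ℝ) + 1 ≤ ((e * (m + N0 / e + 1) : ℕ) : ℝ) := by
      have h4 : m + 1 ≤ e * (m + N0 / e + 1) := by
        have h5 : 1 * (m + N0 / e + 1) ≤ e * (m + N0 / e + 1) := Nat.mul_le_mul_right _ he
        have h6 : m + 1 ≤ m + N0 / e + 1 := by
          have := Nat.zero_le (N0 / e)
          (clear * - this; linarith)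
        (clear * - h5 h6; linarith)
      exact_mod_cast h4
    have h5 : 0 < A := Real.exp_pos _
    gcongr
  have hsum' : Summable (fun m => f (m + N0 / e)) :=
    Summable.of_norm_bounded (S2_summable.mul_left A) htail
  have hsum : Summable f := (summable_nat_add_iff (N0 / e)).mp hsum'
  rw [hIn, ← hsum.sum_add_tsum_nat_add (N0 / e), add_sub_cancel_left]
  refine (tsum_of_norm_bounded (S2_summable.mul_left A).hasSum htail).trans ?_
  rw [tsum_mul_left]
  have := S2_le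
  have h5 : 0 < A := Real.exp_pos _
  (clear * - this h5; nlinarith)

/-- passing from the infinite smoothed sums to the finite one -/
theorem finite_sum {ρ : ℂ} (hρ : 0 ≤ ρ.re) {K V L1 : ℝ} (hK : 2 ≤ K) {N0 : ℕ} (D : ℕ)
    (hN0 : 0 < N0) (hV : V + L1 ≤ Real.log N0) :
    ‖∑ d ∈ Icc 1 D, (ArithmeticFunction.moebius d : ℂ) * (d : ℂ) ^ (-ρ) * In ρ V d -
      ∑ n ∈ Icc 1 N0, (an D n * (Phi (V - Real.log n) : ℂ)) * (n : ℂ) ^ (-ρ)‖ ≤
      D * (2 * Real.exp (K ^ 2 + 2 * V - (K - 2) * L1)) := by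
  have h1 := rearrange D N0 (fun n => (n : ℂ) ^ (-ρ) * (Phi (V - Real.log n) : ℂ))
  have h2 : ∑ n ∈ Icc 1 N0, (an D n * (Phi (V - Real.log n) : ℂ)) * (n : ℂ) ^ (-ρ) =
      ∑ n ∈ Icc 1 N0, an D n * ((n : ℂ) ^ (-ρ) * (Phi (V - Real.log n) : ℂ)) := by
    apply Finset.sum_congr rfl
    intro n _
    ring
  rw [h2, ← h1, ← Finset.sum_sub_distrib]
  refine (norm_sum_le _ _).trans ?_
  have h3 : ∀ e ∈ Icc 1 D, ‖(ArithmeticFunction.moebius e : ℂ) * (e : ℂ) ^ (-ρ) * In ρ V e -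
      (ArithmeticFunction.moebius e : ℂ) * ∑ m ∈ range (N0 / e),
        ((e * (m + 1) : ℕ) : ℂ) ^ (-ρ) * (Phi (V - Real.log ((e * (m + 1) : ℕ) : ℝ)) : ℂ)‖ ≤
      2 * Real.exp (K ^ 2 + 2 * V - (K - 2) * L1) := by
    intro e he
    have he1 := (Finset.mem_Icc.mp he).1
    have h4 : ∑ m ∈ range (N0 / e),
        ((e * (m + 1) : ℕ) : ℂ) ^ (-ρ) * (Phi (V - Real.log ((e * (m + 1) : ℕ) : ℝ)) : ℂ) =
        (e : ℂ) ^ (-ρ) * ∑ m ∈ range (N0 / e), ((m : ℂ) + 1) ^ (-ρ) *
          (Phi (V - Real.log ((e * (m + 1) : ℕ) : ℝ)) : ℂ) := by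
      rw [Finset.mul_sum]
      apply Finset.sum_congr rfl
      intro m _
      have h5 : ((e * (m + 1) : ℕ) : ℂ) ^ (-ρ) = (e : ℂ) ^ (-ρ) * ((m : ℂ) + 1) ^ (-ρ) := by
        have := Complex.natCast_mul_natCast_cpow e (m + 1) (-ρ)
        push_cast at this ⊢
        exact this
      rw [h5]
      ring
    rw [h4, show (ArithmeticFunction.moebius e : ℂ) * (e : ℂ) ^ (-ρ) * In ρ V e -
      (ArithmeticFunction.moebius e : ℂ) * ((e : ℂ) ^ (-ρ) * ∑ m ∈ range (N0 / e),
        ((m : ℂ) + 1) ^ (-ρ) * (Phi (V - Real.log ((e * (m + 1) : ℕ) : ℝ)) : ℂ)) =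
      ((ArithmeticFunction.moebius e : ℂ) * (e : ℂ) ^ (-ρ)) * (In ρ V e - ∑ m ∈ range (N0 / e),
        ((m : ℂ) + 1) ^ (-ρ) * (Phi (V - Real.log ((e * (m + 1) : ℕ) : ℝ)) : ℂ)) by ring, norm_mul,
      norm_mul]
    have h6 := In_tail hρ hK he1 hN0 hV
    have h7 := moebius_norm_le e
    have h8 := norm_natCast_cpow_neg_le he1 hρ
    have h9 : ‖(ArithmeticFunction.moebius e : ℂ)‖ * ‖(e : ℂ) ^ (-ρ)‖ ≤ 1 := by
      have := norm_nonneg ((e : ℂ) ^ (-ρ))
      have := norm_nonneg (ArithmeticFunction.moebius e : ℂ)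
      nlinarith
    have h10 := norm_nonneg (In ρ V e - ∑ m ∈ range (N0 / e),
        ((m : ℂ) + 1) ^ (-ρ) * (Phi (V - Real.log ((e * (m + 1) : ℕ) : ℝ)) : ℂ))
    calc _ ≤ 1 * _ := mul_le_mul_of_nonneg_right h9 h10
      _ ≤ _ := by rw [one_mul]; exact h6
  refine (Finset.sum_le_card_nsmul _ _ _ h3).trans ?_
  rw [nsmul_eq_mul]
  simp

/-- dyadic decomposition -/
theorem dyadic (g : ℕ → ℂ) (s : ℂ) (I : ℕ) :
    ∑ n ∈ Icc 1 (2 ^ I), g n * (n : ℂ) ^ (-s) = g 1 + ∑ i ∈ range I, DP g (2 ^ i) 2 s := by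
  induction I with
  | zero => simp
  | succ I ih =>
    rw [Finset.sum_range_succ, ← add_assoc, ← ih]
    unfold DP
    have h1 : Icc 1 (2 ^ (I + 1)) = Icc 1 (2 ^ I) ∪ Ioc (2 ^ I) (2 * 2 ^ I) := by
      ext n
      simp only [Finset.mem_union, Finset.mem_Icc, Finset.mem_Ioc]
      have h2 : 2 ^ (I + 1) = 2 * 2 ^ I := by ring
      have h3 : 1 ≤ 2 ^ I := Nat.one_le_two_pow
      rw [h2]
      omega
    rw [h1, Finset.sum_union]
    rw [Finset.disjoint_left]
    intro n hn hn'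
    have h2 := (Finset.mem_Icc.mp hn).2
    have h3 := (Finset.mem_Ioc.mp hn').1
    omega

end Pool.Agent.M20.Helper26.KC
end

/- Helper53.KN.Helper26.KC.D5 -/
section
/-!
# KC-10, part 5: detection of zeros
-/

set_option autoImplicit false
open MeasureTheory Filter Topology Finset

namespace Pool.Agent.M20.Helper26.KC

open Pool.Agent.M20.Helper69.QRH Pool.Agent.M20.Helper60.KS

theorem exp_ge (y : ℝ) (hy : 8 ≤ y) : 41 ≤ Real.exp y := by
  have := Real.quadratic_le_exp_of_nonneg (show (0 : ℝ) ≤ y by linarith)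
  have h2 := pow_le_pow_left₀ (show (0 : ℝ) ≤ 8 by norm_num) hy 2
  (clear * - hy this h2; linarith)

theorem b1_aux {Cz δ L : ℝ} (_hCz : 0 ≤ Cz) (hδ : 0 < δ) (hL : 33792 * Cz / δ ^ 2 ≤ L) (hL1 : 1 ≤ L) :
    8448 * Cz * L * Real.exp (-(2.9 * δ * L)) ≤ 1 / 16 := by
  have h0 : 0 ≤ 2.9 * δ * L := by positivity
  have h1 := Real.quadratic_le_exp_of_nonneg h0
  have h2 : 4 * (δ * L) ^ 2 ≤ Real.exp (2.9 * δ * L) := by
    have : (2.9 * δ * L) ^ 2 / 2 = 4.205 * (δ * L) ^ 2 := by ring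
    (clear * - h0 h1; linarith [sq_nonneg (δ * L)])
  rw [Real.exp_neg, ← div_eq_mul_inv, div_le_iff₀ (Real.exp_pos _)]
  have h3 : 33792 * Cz ≤ L * δ ^ 2 := by
    rwa [div_le_iff₀ (by positivity)] at hL
  have h4 : 8448 * Cz * L ≤ 1 / 4 * (L * δ ^ 2) * L := by
    have h5 := mul_le_mul_of_nonneg_right h3 (show (0 : ℝ) ≤ L by (clear * - hL1; linarith))
    (clear * - h5; linarith)
  (clear * - h2 h4; linarith)

theorem b1 {δ d s0 μ0 Cz L x β γ V : ℝ} {D : ℕ} (hδ : 0 < δ) (hδ' : δ ≤ 1 / 1000)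
    (hd : 0 < d) (hd' : d ≤ δ) (hs1 : s0 ≤ 1 / 2) (hμ0 : 0 ≤ μ0) (hμ1 : μ0 ≤ 1)
    (hCz : 0 ≤ Cz) (hL2 : 33792 * Cz / δ ^ 2 ≤ L) (hL1 : 10 ≤ L)
    (hx' : x ≤ 0.4 + δ) (hβ : 1 - x ≤ β)
    (hγ : |γ| ≤ Real.exp ((1 / 2 + 2 * d) * L) + 1) (hD : (D : ℝ) ≤ Real.exp (δ * L))
    (hV : V = ((1 / 2 + 2 * d) * (μ0 / (1 - x - s0)) + 40 * δ) * L) (hV0 : 0 ≤ V) :
    32 * Cz * (2 + |γ|) ^ μ0 * Real.log (2 + |γ|) * D * Real.exp (1 - (β - s0) * V) / (β - s0) ≤
      1 / 16 := by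
  have hη : 0.099 ≤ 1 - x - s0 := by (clear * - hδ' hs1 hx'; linarith)
  have hη0 : 0 < 1 - x - s0 := by (clear * - hδ hδ' hs1 hx'; linarith)
  have hηV : (1 - x - s0) * V = ((1 / 2 + 2 * d) * μ0 + 40 * δ * (1 - x - s0)) * L := by
    rw [hV]
    field_simp
  have hexp1 : 1 ≤ Real.exp ((1 / 2 + 2 * d) * L) := Real.one_le_exp (by (clear * - hd hL1; positivity))
  have h2g : 2 + |γ| ≤ 4 * Real.exp ((1 / 2 + 2 * d) * L) := by (clear * - hγ hexp1; linarith)
  have habs := abs_nonneg γ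
  have e1 : (2 + |γ|) ^ μ0 ≤ 4 * Real.exp ((1 / 2 + 2 * d) * μ0 * L) := by
    calc (2 + |γ|) ^ μ0 ≤ (4 * Real.exp ((1 / 2 + 2 * d) * L)) ^ μ0 :=
          Real.rpow_le_rpow (by positivity) h2g hμ0
      _ = 4 ^ μ0 * Real.exp ((1 / 2 + 2 * d) * L) ^ μ0 :=
          Real.mul_rpow (by norm_num) (Real.exp_pos _).le
      _ = 4 ^ μ0 * Real.exp ((1 / 2 + 2 * d) * μ0 * L) := by
          rw [← Real.exp_mul]; congr 2; ring
      _ ≤ 4 ^ (1 : ℝ) * Real.exp ((1 / 2 + 2 * d) * μ0 * L) := by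
          clear * - hμ1; gcongr
          norm_num
      _ = _ := by rw [Real.rpow_one]
  have e2 : Real.log (2 + |γ|) ≤ 2 * L := by
    calc Real.log (2 + |γ|) ≤ Real.log (4 * Real.exp ((1 / 2 + 2 * d) * L)) :=
          Real.log_le_log (by (clear * -; positivity)) h2g
      _ = Real.log 4 + (1 / 2 + 2 * d) * L := by
          rw [Real.log_mul (by norm_num) (Real.exp_pos _).ne', Real.log_exp]
      _ ≤ 2 * L := by
          clear * - hδ' hd' hL1 hδ; have h4 : Real.log 4 ≤ 3 := by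
            have := Real.log_le_sub_one_of_pos (show (0 : ℝ) < 4 by norm_num)
            (clear * - this; linarith)
          have h5 : d * L ≤ 1 / 1000 * L := mul_le_mul_of_nonneg_right (hd'.trans hδ') (by (clear * - hL1; linarith))
          (clear * - hL1 h4 h5; linarith)
  exact by
    have e2' : 0 ≤ Real.log (2 + |γ|) := Real.log_nonneg (by (clear * - hδ hδ' habs; linarith))
    have e3 : Real.exp (1 - (β - s0) * V) ≤
        3 * Real.exp (-(((1 / 2 + 2 * d) * μ0 + 3.9 * δ) * L)) := by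
      have h1 : ((1 / 2 + 2 * d) * μ0 + 3.9 * δ) * L ≤ (β - s0) * V := by
        have h2 : (1 - x - s0) * V ≤ (β - s0) * V := mul_le_mul_of_nonneg_right (by (clear * - hβ; linarith)) hV0
        refine le_trans ?_ h2
        rw [hηV]
        apply mul_le_mul_of_nonneg_right _ (by (clear * - hδ hδ' hL1; linarith))
        have h5 := mul_le_mul_of_nonneg_left hη (show (0 : ℝ) ≤ 40 * δ by (clear * - hδ; linarith))
        (clear * - h5 hδ; linarith)
      calc Real.exp (1 - (β - s0) * V) ≤ Real.exp (1 + -(((1 / 2 + 2 * d) * μ0 + 3.9 * δ) * L)) :=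
            Real.exp_le_exp.mpr (by (clear * - h1; linarith))
        _ = Real.exp 1 * Real.exp (-(((1 / 2 + 2 * d) * μ0 + 3.9 * δ) * L)) := Real.exp_add _ _
        _ ≤ _ := by
            clear * - hδ hδ'; have := Real.exp_one_lt_d9
            gcongr
            (clear * - hδ hδ' this; linarith)
    have hβs : 0.099 ≤ β - s0 := by (clear * - hδ' hs1 hx' hβ; linarith)
    have e5 : Real.exp ((1 / 2 + 2 * d) * μ0 * L) * Real.exp (δ * L) *
        Real.exp (-(((1 / 2 + 2 * d) * μ0 + 3.9 * δ) * L)) = Real.exp (-(2.9 * δ * L)) := by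
      rw [← Real.exp_add, ← Real.exp_add]
      congr 1
      ring
    have h6 := b1_aux hCz hδ hL2 (by (clear * - hδ hδ' hL1; linarith))
    have hL0 : 0 ≤ L := by (clear * - hδ hδ' hL1; linarith)
    calc 32 * Cz * (2 + |γ|) ^ μ0 * Real.log (2 + |γ|) * D * Real.exp (1 - (β - s0) * V) / (β - s0)
        ≤ 32 * Cz * (4 * Real.exp ((1 / 2 + 2 * d) * μ0 * L)) * (2 * L) * Real.exp (δ * L) *
          (3 * Real.exp (-(((1 / 2 + 2 * d) * μ0 + 3.9 * δ) * L))) / (1 / 11) := by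
          clear * - hCz hL1 e1 e2 e2' hD e3 hδ hδ' hs1 hx' hβ; gcongr
          (clear * - hδ hδ' hs1 hx' hβ; linarith)
      _ = 8448 * Cz * L * (Real.exp ((1 / 2 + 2 * d) * μ0 * L) * Real.exp (δ * L) *
          Real.exp (-(((1 / 2 + 2 * d) * μ0 + 3.9 * δ) * L))) := by ring
      _ ≤ 1 / 16 := by rw [e5]; exact h6

theorem core {δ d s0 μ0 Cz : ℝ} (hδ : 0 < δ) (hδ' : δ ≤ 1 / 1000) (hd : 0 < d) (hd' : d ≤ δ)
    (hs0 : 2 / 7 ≤ s0) (hs1 : s0 ≤ 1 / 2) (hμ0 : 0 ≤ μ0) (hμ1 : μ0 ≤ 1) (hCz : 0 ≤ Cz)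
    (hz : ∀ τ : ℝ, ‖riemannZeta (s0 + τ * Complex.I)‖ ≤ Cz * (2 + |τ|) ^ μ0 * Real.log (2 + |τ|)) :
    ∃ L0 : ℝ, ∀ L : ℝ, L0 ≤ L → ∀ x : ℝ, 0 < x → x ≤ 0.4 + δ → μ0 / (1 - x - s0) ≤ 1 →
    ∃ g : ℕ → ℂ, (∀ n, ‖g n‖ ≤ (n.divisors.card : ℝ)) ∧
    ∀ ρ : ℂ, riemannZeta ρ = 0 → 1 - x ≤ ρ.re → L ^ 2 ≤ |ρ.im| →
    |ρ.im| ≤ Real.exp ((1 / 2 + 2 * d) * L) + 1 →
    ∃ i : ℕ, Real.exp (δ * L) / 2 ≤ (2 : ℝ) ^ i ∧
      (2 : ℝ) ^ i ≤ Real.exp ((μ0 / (1 - x - s0) / 2 + 45 * δ) * L) ∧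
      1 / (16 * L) ≤ ‖DP g (2 ^ i) 2 ρ‖ := by
  set K : ℝ := 2 + 4 / δ with hK
  have hK2 : 2 ≤ K := by
    have : 0 < 4 / δ := by positivity
    (clear * - this; linarith)
  refine ⟨max (max 10 (33792 * Cz / δ ^ 2)) (max (2 * (K ^ 2 + 8)) (1 / δ)), ?_⟩
  intro L hL x hx hx' hκ
  have hL1 : 10 ≤ L := (le_max_left _ _).trans ((le_max_left _ _).trans hL)
  have hL2 : 33792 * Cz / δ ^ 2 ≤ L := (le_max_right _ _).trans ((le_max_left _ _).trans hL)
  have hL3 : 2 * (K ^ 2 + 8) ≤ L := (le_max_left _ _).trans ((le_max_right _ _).trans hL)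
  have hL4 : 1 ≤ δ * L := by
    have : 1 / δ ≤ L := (le_max_right _ _).trans ((le_max_right _ _).trans hL)
    rw [div_le_iff₀ hδ] at this
    (clear * - this; linarith)
  have hη0 : 0 < 1 - x - s0 := by (clear * - hδ hδ' hs1 hx'; linarith)
  set κ : ℝ := μ0 / (1 - x - s0) with hκdef
  exact by
    have hκ0 : 0 ≤ κ := by rw [hκdef]; (clear * - hμ0 hη0; positivity)
    set V : ℝ := ((1 / 2 + 2 * d) * κ + 40 * δ) * L with hV
    have hL0 : 0 ≤ L := by (clear * - hδ hδ' hL1; linarith)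
    have hV0 : 0 ≤ V := by rw [hV]; (clear * - hd hμ0 hη0 hδ hL1; positivity)
    have hV1 : 40 * (δ * L) ≤ V := by
      rw [hV]
      have : 0 ≤ (1 / 2 + 2 * d) * κ * L := by (clear * - hd hμ0 hη0 hL1; positivity)
      (clear * - this; linarith)
    have hVL : V ≤ 0.6 * L := by
      rw [hV]
      apply mul_le_mul_of_nonneg_right _ hL0
      have : (1 / 2 + 2 * d) * κ ≤ (1 / 2 + 2 * d) * 1 := mul_le_mul_of_nonneg_left hκ (by positivity)
      (clear * - hδ hδ' hd' this; linarith)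
    have hδL : δ * L ≤ 1 / 1000 * L := mul_le_mul_of_nonneg_right hδ' hL0
    set D : ℕ := ⌊Real.exp (δ * L)⌋₊ with hD
    have hD1 : 1 ≤ D := by
      rw [hD, Nat.one_le_floor_iff]
      exact Real.one_le_exp (by positivity)
    exact by
      have hDle : (D : ℝ) ≤ Real.exp (δ * L) := Nat.floor_le (Real.exp_pos _).le
      set g : ℕ → ℂ := fun n => an D n * (Phi (V - Real.log n) : ℂ) with hg
      refine ⟨g, ?_, ?_⟩
      · intro n
        simp only [hg]
        rw [norm_mul, Complex.norm_real, Real.norm_of_nonneg (Phi_nonneg _)]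
        have h1 := an_norm_le D n
        have h2 := Phi_le_one (V - Real.log n)
        have h3 := Phi_nonneg (V - Real.log n)
        have h4 := norm_nonneg (an D n)
        exact (mul_le_of_le_one_right h4 h2).trans h1
      intro ρ hρ hβ hγ1 hγ2
      have hβ1 : ρ.re ≤ 1 := by
        by_contra h
        push Not at h
        exact riemannZeta_ne_zero_of_one_le_re h.le hρ
      have hρs0 : s0 < ρ.re := by (clear * - hδ hδ' hs1 hx' hβ; linarith)
      have hρ0 : 0 ≤ ρ.re := by (clear * - hδ hδ' hx' hβ; linarith)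
      have hL100 : 100 ≤ L ^ 2 := by (clear * - hL1; nlinarith)
      have hγge : 1 ≤ |ρ.im| := by (clear * - hδ hδ' hγ1 hL100; linarith)
      have hmel := mellin_bound hμ0 hμ1 hCz hs0 hs1 hz hρ hρs0 hβ1 hγge hV0 D
      exact by
        have hB1 := b1 (D := D) hδ hδ' hd hd' hs1 hμ0 hμ1 hCz hL2 hL1 hx' hβ hγ2 hDle hV hV0
        have hB2 : 300 * (D * Real.exp (V - ρ.im ^ 2)) ≤ 1 / 16 := by
          have h1 : (L ^ 2) ^ 2 ≤ ρ.im ^ 2 := by
            have := pow_le_pow_left₀ (by positivity) hγ1 2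
            rwa [sq_abs] at this
          have h2 : 100 * L ≤ (L ^ 2) ^ 2 := by
            have h9 : L ≤ L ^ 2 := le_self_pow₀ (by (clear * - hL1; linarith)) two_ne_zero
            have h8 := mul_le_mul hL100 h9 hL0 (sq_nonneg L)
            rw [sq (L ^ 2)]
            exact h8
          have h3 : (D : ℝ) * Real.exp (V - ρ.im ^ 2) ≤ Real.exp (-(98 * L)) := by
            calc (D : ℝ) * Real.exp (V - ρ.im ^ 2) ≤ Real.exp (δ * L) * Real.exp (V - ρ.im ^ 2) := by (clear * - hDle; gcongr)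
              _ = Real.exp (δ * L + (V - ρ.im ^ 2)) := (Real.exp_add _ _).symm
              _ ≤ _ := Real.exp_le_exp.mpr (by (clear * - hδL hVL h1 h2 hL0; linarith))
          have h4 : Real.exp (-(98 * L)) ≤ 1 / 4800 := by
            rw [Real.exp_neg, ← one_div, div_le_div_iff_of_pos_left one_pos (Real.exp_pos _) (by norm_num)]
            have h5 := Real.quadratic_le_exp_of_nonneg (show (0 : ℝ) ≤ 98 * L by positivity)
            have h6 : (98 * L) ^ 2 = 9604 * L ^ 2 := by ring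
            rw [h6] at h5
            (clear * - hL100 h5 hL0; linarith)
          (clear * - h3 h4; linarith)
        obtain ⟨n, hn1, hn2⟩ := exists_nat_pow_near (x := Real.exp (V + δ * L)) (y := 2)
          (Real.one_le_exp (by (clear * - hd hμ0 hη0 hδ hL1; positivity))) (by norm_num)
        have hlogN : V + δ * L ≤ Real.log ((2 ^ (n + 1) : ℕ) : ℝ) := by
          rw [Real.le_log_iff_exp_le (by positivity)]
          push_cast
          exact hn2.le
        have hfin := finite_sum (ρ := ρ) hρ0 (K := K) (V := V) (L1 := δ * L) hK2 (N0 := 2 ^ (n + 1)) D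
          (by positivity) hlogN
        have hB3 : (D : ℝ) * (2 * Real.exp (K ^ 2 + 2 * V - (K - 2) * (δ * L))) ≤ 1 / 16 := by
          have h1 : (K - 2) * (δ * L) = 4 * L := by
            rw [hK]; field_simp; ring
          rw [h1]
          calc (D : ℝ) * (2 * Real.exp (K ^ 2 + 2 * V - 4 * L))
              ≤ Real.exp (δ * L) * (2 * Real.exp (K ^ 2 + 2 * V - 4 * L)) := by (clear * - hDle; gcongr)
            _ = 2 * Real.exp (δ * L + (K ^ 2 + 2 * V - 4 * L)) := by rw [Real.exp_add]; ring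
            _ ≤ 2 * Real.exp (-(L / 2 + 0)) := by
                gcongr
                (clear * - hδL hL3 hVL hL0; linarith)
            _ ≤ 1 / 16 := by
                rw [Real.exp_neg, ← div_eq_mul_inv, div_le_iff₀ (Real.exp_pos _)]
                have := exp_ge (L / 2 + 0) (by (clear * - hL4 hV1 hVL; linarith))
                (clear * - hδ hδ' this; linarith)
        have hB4 : 1 - Phi V ≤ 1 / 16 := by
          refine (one_sub_Phi_le 1 le_rfl V).trans ?_
          have h1 : (1 : ℝ) ^ 2 - 1 * V = -(V - 1) := by ring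
          rw [h1, Real.exp_neg, ← one_div, div_le_div_iff_of_pos_left one_pos (Real.exp_pos _) (by norm_num)]
          have := exp_ge (V - 1) (by (clear * - hδ hδ' hL4 hV1; linarith))
          (clear * - hδ hδ' this; linarith)
        have hdy := dyadic g ρ (n + 1)
        have hg1 : g 1 = (Phi V : ℂ) := by
          simp only [hg]
          rw [an_one hD1]
          simp
        -- lower bound for the sum of the blocks
        exact by
          have hlow : 1 / 2 < ‖∑ i ∈ range (n + 1), DP g (2 ^ i) 2 ρ‖ := by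
            set S : ℂ := ∑ d ∈ Icc 1 D, (ArithmeticFunction.moebius d : ℂ) * (d : ℂ) ^ (-ρ) * In ρ V d with hS
            set T : ℂ := ∑ n ∈ Icc 1 (2 ^ (n + 1)), g n * (n : ℂ) ^ (-ρ) with hT
            have h1 : ‖S‖ ≤ 1 / 16 + 1 / 16 := hmel.trans (add_le_add hB1 hB2)
            have h2 : ‖S - T‖ ≤ 1 / 16 := hfin.trans hB3
            have h3 : ‖T‖ ≤ 3 / 16 := by
              have := norm_sub_norm_le T S
              rw [norm_sub_rev] at this
              (clear * - hB1 hB2 hB3 hmel hfin this; linarith)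
            have h4 : ∑ i ∈ range (n + 1), DP g (2 ^ i) 2 ρ = T - (Phi V : ℂ) := by
              rw [hdy, hg1]; ring
            rw [h4]
            have h5 := norm_sub_norm_le (Phi V : ℂ) T
            rw [norm_sub_rev, Complex.norm_real, Real.norm_of_nonneg (Phi_nonneg _)] at h5
            (clear * - hδ hδ' hB4 h3 h5; linarith)
          have hlog2 := Real.log_two_gt_d9
          have hnL : ((n : ℝ) + 1) ≤ 8 * L := by
            have h1 : (n : ℝ) * Real.log 2 ≤ V + δ * L := by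
              have h2 := Real.log_le_log (by positivity) hn1
              rwa [Real.log_pow, Real.log_exp] at h2
            have h2 : (n : ℝ) * (1 / 2) ≤ (n : ℝ) * Real.log 2 :=
              mul_le_mul_of_nonneg_left (by (clear * - hδ hδ' hlog2; linarith)) (Nat.cast_nonneg _)
            (clear * - hδL hL1 hVL h1 h2; linarith)
          have hex : ∃ i ∈ range (n + 1), 1 / (16 * L) ≤ ‖DP g (2 ^ i) 2 ρ‖ := by
            by_contra hcon
            push Not at hcon
            have h1 : ‖∑ i ∈ range (n + 1), DP g (2 ^ i) 2 ρ‖ ≤ (n + 1 : ℕ) * (1 / (16 * L)) := by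
              refine (norm_sum_le _ _).trans ?_
              refine (Finset.sum_le_card_nsmul _ _ _ fun i hi => (hcon i hi).le).trans ?_
              rw [Finset.card_range, nsmul_eq_mul]
            have h2 : ((n + 1 : ℕ) : ℝ) * (1 / (16 * L)) ≤ 1 / 2 := by
              rw [mul_one_div, div_le_iff₀ (by positivity)]
              push_cast
              (clear * - hnL; linarith)
            (clear * - hlow h1 h2; linarith)
          obtain ⟨i, hi, hDP⟩ := hex
          rw [Finset.mem_range] at hi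
          refine ⟨i, ?_, ?_, hDP⟩
          · clear * - hD n hg hL1 hDP; by_contra hcon
            exact by
              push Not at hcon
              have h1 : 2 * 2 ^ i ≤ D := by
                rw [hD]
                apply Nat.le_floor
                push_cast
                (clear * - hcon; linarith)
              have h2 : DP g (2 ^ i) 2 ρ = 0 := by
                unfold DP
                apply Finset.sum_eq_zero
                intro m hm
                rw [Finset.mem_Ioc] at hm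
                have h3 : 1 ≤ 2 ^ i := Nat.one_le_two_pow
                have h4 : an D m = 0 := an_zero (by (clear * - δ L n hm h3; omega)) (by omega)
                simp only [hg]
                rw [h4, zero_mul, zero_mul]
              rw [h2, norm_zero] at hDP
              have : 0 < 1 / (16 * L) := by positivity
              (clear * - hDP this; linarith)
          · clear * - hi hn1 hV hd' hκ hκ0 hδ hL0; calc (2 : ℝ) ^ i ≤ 2 ^ n := pow_le_pow_right₀ (by norm_num) (by omega)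
              _ ≤ Real.exp (V + δ * L) := hn1
              _ ≤ _ := by
                  apply Real.exp_le_exp.mpr
                  rw [hV]
                  have h1 : 2 * d * κ ≤ 2 * δ * 1 := by
                    apply mul_le_mul (by (clear * - hd'; linarith)) hκ hκ0 (by (clear * - hδ; linarith))
                  have h2 : ((1 / 2 + 2 * d) * κ + 40 * δ) + δ ≤ κ / 2 + 45 * δ := by (clear * - hδ h1; linarith)
                  calc ((1 / 2 + 2 * d) * κ + 40 * δ) * L + δ * L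
                      = (((1 / 2 + 2 * d) * κ + 40 * δ) + δ) * L := by ring
                    _ ≤ _ := mul_le_mul_of_nonneg_right h2 hL0

theorem detect (h5 : A5) (h7 : A7) : Detect := by
  intro δ d hδ hδ' hd hd'
  obtain ⟨C5, hC5, hA5, _⟩ := h5
  obtain ⟨C7, hC7, hA7⟩ := h7
  obtain ⟨Ca, hCa, ha⟩ := zline (s0 := 1 / 2) (μ0 := 1 / 6) (by norm_num) (by norm_num) hC5
    (fun t ht => by
      have := hA5 t ht
      push_cast
      exact this)
  obtain ⟨Cb, hCb, hb⟩ := zline (s0 := 2 / 7) (μ0 := 2 / 7) (by norm_num) (by norm_num) hC7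
    (fun t ht => by
      have := hA7 t ht
      push_cast
      exact this)
  obtain ⟨La, hLa⟩ := core hδ hδ' hd hd' (s0 := 1 / 2) (μ0 := 1 / 6) (by norm_num) (by norm_num)
    (by norm_num) (by norm_num) hCa ha
  obtain ⟨Lb, hLb⟩ := core hδ hδ' hd hd' (s0 := 2 / 7) (μ0 := 2 / 7) (by norm_num) (by norm_num)
    (by norm_num) (by norm_num) hCb hb
  refine ⟨Real.exp (max La Lb), ?_⟩
  intro X x hX hx hx'
  have hX0 : 0 < X := (Real.exp_pos _).trans_le hX
  set L : ℝ := Real.log X with hL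
  have hLge : max La Lb ≤ L := by
    rw [hL, Real.le_log_iff_exp_le hX0]; exact hX
  have hpow : ∀ a : ℝ, X ^ a = Real.exp (a * L) := by
    intro a
    rw [Real.rpow_def_of_pos hX0, mul_comm]
  have hden1 : (0 : ℝ) < 1 - 2 * x := by linarith
  have hden2 : (0 : ℝ) < 5 / 7 - x := by (clear * - hδ hδ' hx'; linarith)
  have h2le : (2 / 7 : ℝ) / (5 / 7 - x) ≤ 1 := by
    rw [div_le_one hden2]; linarith
  have key : ∀ s0 μ0 : ℝ, yy x = μ0 / (1 - x - s0) →
      (∃ g : ℕ → ℂ, (∀ n, ‖g n‖ ≤ (n.divisors.card : ℝ)) ∧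
        ∀ ρ : ℂ, riemannZeta ρ = 0 → 1 - x ≤ ρ.re → L ^ 2 ≤ |ρ.im| →
        |ρ.im| ≤ Real.exp ((1 / 2 + 2 * d) * L) + 1 →
        ∃ i : ℕ, Real.exp (δ * L) / 2 ≤ (2 : ℝ) ^ i ∧
          (2 : ℝ) ^ i ≤ Real.exp ((μ0 / (1 - x - s0) / 2 + 45 * δ) * L) ∧
          1 / (16 * L) ≤ ‖DP g (2 ^ i) 2 ρ‖) →
      ∃ g : ℕ → ℂ, (∀ n, ‖g n‖ ≤ (n.divisors.card : ℝ)) ∧
        ∀ ρ : ℂ, riemannZeta ρ = 0 → 1 - x ≤ ρ.re → Real.log X ^ 2 ≤ |ρ.im| →
        |ρ.im| ≤ X ^ (1/2 + 2 * d) + 1 →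
        ∃ i : ℕ, X ^ δ / 2 ≤ (2 : ℝ) ^ i ∧ (2 : ℝ) ^ i ≤ X ^ (yy x / 2 + 45 * δ) ∧
          1 / (16 * Real.log X) ≤ ‖DP g (2 ^ i) 2 ρ‖ := by
    intro s0 μ0 hyy ⟨g, hg1, hg2⟩
    refine ⟨g, hg1, ?_⟩
    intro ρ hρ hβ hγ1 hγ2
    rw [hpow] at hγ2
    obtain ⟨i, hi1, hi2, hi3⟩ := hg2 ρ hρ hβ hγ1 hγ2
    refine ⟨i, ?_, ?_, hi3⟩
    · rw [hpow]; exact hi1
    · rw [hpow, hyy]; exact hi2
  exact by
    rcases le_total ((1/3 : ℝ) / (1 - 2 * x)) ((2/7) / (5/7 - x)) with hle | hle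
    · apply key (1 / 2) (1 / 6)
      · unfold yy
        rw [min_eq_left hle]
        rw [div_eq_div_iff hden1.ne' (by (clear * - hδ hδ' hx'; linarith))]
        ring
      · apply hLa L ((le_max_left _ _).trans hLge) x hx hx'
        have : (1 / 6 : ℝ) / (1 - x - 1 / 2) = (1/3) / (1 - 2 * x) := by
          rw [div_eq_div_iff (by (clear * - hδ hδ' hx'; linarith)) hden1.ne']
          ring
        rw [this]
        exact hle.trans h2le
    · apply key (2 / 7) (2 / 7)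
      · unfold yy
        rw [min_eq_right hle]
        congr 1
        ring
      · apply hLb L ((le_max_right _ _).trans hLge) x hx hx'
        have : (1 : ℝ) - x - 2 / 7 = 5 / 7 - x := by ring
        rw [this]
        exact h2le

end Pool.Agent.M20.Helper26.KC
end

/- Helper53.KN.Helper26.KC.F1 -/
section
/-!
# KS, fourth moment, part 1: contour shifts in a strip, residue at zero
-/

set_option autoImplicit false
open MeasureTheory Filter Topology Finset

namespace Pool.Agent.M20.Helper26.KC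

/-- `uniform_decay` in a strip -/
theorem uniform_decay_on {L : ℂ → ℂ} {a b A H : ℝ}
    (hL : ∀ s : ℂ, a ≤ s.re → s.re ≤ b → ContinuousAt L s)
    (hA : ∀ s : ℂ, a ≤ s.re → s.re ≤ b → H ≤ |s.im| → ‖L s‖ ≤ A * (1 + s.im ^ 2)⁻¹) :
    ∃ A' : ℝ, 0 ≤ A' ∧ ∀ s : ℂ, a ≤ s.re → s.re ≤ b → ‖L s‖ ≤ A' * (1 + s.im ^ 2)⁻¹ := by
  have hcomp : IsCompact ((Set.Icc a b) ×ℂ (Set.Icc (-H) H)) :=
    (isCompact_Icc).reProdIm isCompact_Icc
  have hcont : ContinuousOn L ((Set.Icc a b) ×ℂ (Set.Icc (-H) H)) := by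
    intro s hs
    rw [Complex.mem_reProdIm] at hs
    exact (hL s hs.1.1 hs.1.2).continuousWithinAt
  obtain ⟨B, hB⟩ := hcomp.exists_bound_of_continuousOn hcont
  refine ⟨max |A| (|B| * (1 + H ^ 2)), le_max_of_le_left (abs_nonneg _), ?_⟩
  intro s h1 h2
  have hp : (0 : ℝ) < 1 + s.im ^ 2 := by positivity
  have hp' : 0 ≤ (1 + s.im ^ 2)⁻¹ := by (clear * -; positivity)
  rcases le_or_gt H |s.im| with h | h
  · refine (hA s h1 h2 h).trans ?_
    exact mul_le_mul_of_nonneg_right ((le_abs_self A).trans (le_max_left _ _)) hp'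
  · have h3 : s ∈ (Set.Icc a b) ×ℂ (Set.Icc (-H) H) := by
      rw [Complex.mem_reProdIm]
      exact ⟨⟨h1, h2⟩, ⟨by (clear * - h; linarith [neg_abs_le s.im]), by linarith [le_abs_self s.im]⟩⟩
    have h4 := (hB s h3).trans (le_abs_self B)
    have h5 : 1 + s.im ^ 2 ≤ 1 + H ^ 2 := by
      have : |s.im| ^ 2 ≤ H ^ 2 := pow_le_pow_left₀ (abs_nonneg _) h.le 2
      rw [sq_abs] at this
      linarith
    have h6 : 1 ≤ (1 + H ^ 2) * (1 + s.im ^ 2)⁻¹ := by
      rw [← div_eq_mul_inv, le_div_iff₀ hp]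
      (clear * - h5; linarith)
    calc ‖L s‖ ≤ |B| * 1 := by (clear * - h4; linarith)
      _ ≤ |B| * ((1 + H ^ 2) * (1 + s.im ^ 2)⁻¹) := mul_le_mul_of_nonneg_left h6 (abs_nonneg _)
      _ = |B| * (1 + H ^ 2) * (1 + s.im ^ 2)⁻¹ := by ring
      _ ≤ _ := mul_le_mul_of_nonneg_right (le_max_right _ _) hp'

theorem line_cont {L : ℂ → ℂ} {a b c : ℝ}
    (hL : ∀ s : ℂ, a ≤ s.re → s.re ≤ b → ContinuousAt L s) (h1 : a ≤ c) (h2 : c ≤ b) :
    Continuous (fun t : ℝ => L ((c : ℂ) + t * Complex.I)) := by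
  rw [continuous_iff_continuousAt]
  intro t
  refine ContinuousAt.comp (f := fun t : ℝ => (c : ℂ) + t * Complex.I) (hL _ ?_ ?_) (by fun_prop)
  · rw [line_re]; exact h1
  · rw [line_re]; exact h2

/-- contour shift in a strip -/
theorem shift_on {L : ℂ → ℂ} {a b A H : ℝ} (hab : a ≤ b)
    (hL : ∀ s : ℂ, a ≤ s.re → s.re ≤ b → DifferentiableAt ℂ L s)
    (hA0 : ∀ s : ℂ, a ≤ s.re → s.re ≤ b → H ≤ |s.im| → ‖L s‖ ≤ A * (1 + s.im ^ 2)⁻¹) :
    ∫ t : ℝ, L ((b : ℂ) + t * Complex.I) = ∫ t : ℝ, L ((a : ℂ) + t * Complex.I) := by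
  have hLc : ∀ s : ℂ, a ≤ s.re → s.re ≤ b → ContinuousAt L s := fun s h1 h2 =>
    (hL s h1 h2).continuousAt
  obtain ⟨A', hA', hA⟩ := uniform_decay_on hLc hA0
  have hdec : Tendsto (fun T : ℝ => A' * (1 + T ^ 2)⁻¹ * |b - a|) atTop (𝓝 0) := by
    have := (inv_one_add_sq_tendsto.const_mul A').mul_const |b - a|
    simpa using this
  have hup : Tendsto (fun T : ℝ => ∫ x : ℝ in a..b, L (x + (T : ℝ) * Complex.I)) atTop (𝓝 0) := by
    refine squeeze_zero_norm (fun T => ?_) hdec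
    refine intervalIntegral.norm_integral_le_of_norm_le_const fun x hx => ?_
    rw [Set.uIoc_of_le hab] at hx
    have := hA (x + T * Complex.I) (by rw [line_re]; exact hx.1.le) (by rw [line_re]; exact hx.2)
    rwa [line_im] at this
  have hdown : Tendsto (fun T : ℝ => ∫ x : ℝ in a..b, L (x + ((-T : ℝ) : ℂ) * Complex.I)) atTop
      (𝓝 0) := by
    refine squeeze_zero_norm (fun T => ?_) hdec
    refine intervalIntegral.norm_integral_le_of_norm_le_const fun x hx => ?_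
    rw [Set.uIoc_of_le hab] at hx
    have := hA (x + ((-T : ℝ) : ℂ) * Complex.I) (by rw [line_re]; exact hx.1.le)
      (by rw [line_re]; exact hx.2)
    rwa [line_im, neg_sq] at this
  have hv2 := intervalIntegral_tendsto_integral (line_integrable (line_cont hLc hab le_rfl) hA hab le_rfl)
    tendsto_neg_atTop_atBot tendsto_id
  have hv1 := intervalIntegral_tendsto_integral (line_integrable (line_cont hLc le_rfl hab) hA le_rfl hab)
    tendsto_neg_atTop_atBot tendsto_id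
  have hrect : ∀ T : ℝ, (∫ x : ℝ in a..b, L (x + ((-T : ℝ) : ℂ) * Complex.I)) -
      (∫ x : ℝ in a..b, L (x + (T : ℂ) * Complex.I)) +
      Complex.I * (∫ y : ℝ in (-T)..T, L (b + y * Complex.I)) -
      Complex.I * (∫ y : ℝ in (-T)..T, L (a + y * Complex.I)) = 0 := by
    intro T
    have hd : DifferentiableOn ℂ L (Set.uIcc ((a : ℂ) + ((-T : ℝ) : ℂ) * Complex.I).re
        ((b : ℂ) + (T : ℂ) * Complex.I).re ×ℂ Set.uIcc ((a : ℂ) + ((-T : ℝ) : ℂ) * Complex.I).im
        ((b : ℂ) + (T : ℂ) * Complex.I).im) := by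
      intro s hs
      rw [Complex.mem_reProdIm, line_re, line_re, Set.uIcc_of_le hab] at hs
      exact (hL s hs.1.1 hs.1.2).differentiableWithinAt
    have := Complex.integral_boundary_rect_eq_zero_of_differentiableOn L
      (a + ((-T : ℝ) : ℂ) * Complex.I) (b + (T : ℂ) * Complex.I) hd
    simpa only [line_re, line_im, smul_eq_mul] using this
  have hlim := ((hdown.sub hup).add (hv2.const_mul Complex.I)).sub (hv1.const_mul Complex.I)
  simp only [id_eq] at hlim
  have hz : Tendsto (fun T : ℝ => (0 : ℂ)) atTop (𝓝 (0 - 0 + Complex.I *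
      (∫ t : ℝ, L (b + t * Complex.I)) - Complex.I * ∫ t : ℝ, L (a + t * Complex.I))) := by
    refine hlim.congr fun T => ?_
    exact hrect T
  have heq := tendsto_nhds_unique tendsto_const_nhds hz
  have hI := Complex.I_ne_zero
  have : Complex.I * (∫ t : ℝ, L (b + t * Complex.I)) =
      Complex.I * ∫ t : ℝ, L (a + t * Complex.I) := by
    linear_combination -heq
  exact mul_left_cancel₀ hI this

theorem gd_neg (z : ℝ) : gd (-z) = gd z := by
  unfold gd; rw [neg_sq]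

theorem Phi_zero : Phi 0 = 1 / 2 := by
  have h1 : 1 - Phi 0 = Phi 0 := by
    rw [one_sub_Phi]
    unfold Phi
    have h2 : ∫ y in Set.Iic (0 : ℝ), gd (0 - y) = ∫ y in Set.Ioi (-0 : ℝ), gd (0 - -y) := by
      rw [integral_comp_neg_Ioi (-0 : ℝ) (fun y => gd (0 - y)), neg_neg]
    rw [h2, neg_zero]
    congr 1
    funext y
    rw [zero_sub, neg_neg, zero_sub, gd_neg]
  (clear * - h1; linarith)

/-- the kernel `e^(w^2)/w` on a vertical line to the right -/
theorem ker_pos {c : ℝ} (hc : 0 < c) :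
    ∫ t : ℝ, Complex.exp (((c : ℂ) + t * Complex.I) ^ 2) / ((c : ℂ) + t * Complex.I) = Real.pi := by
  have h := mellin_Phi hc 0
  rw [Phi_zero] at h
  have h2 : ∀ t : ℝ, Complex.exp (((c : ℂ) + t * Complex.I) * ((0 : ℝ) : ℂ) +
      ((c : ℂ) + t * Complex.I) ^ 2) / ((c : ℂ) + t * Complex.I) =
      Complex.exp (((c : ℂ) + t * Complex.I) ^ 2) / ((c : ℂ) + t * Complex.I) := by
    intro t
    rw [Complex.ofReal_zero, mul_zero, zero_add]
  simp_rw [h2] at h
  rw [h]
  push_cast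
  ring

theorem ker_neg {c : ℝ} (hc : c < 0) :
    ∫ t : ℝ, Complex.exp (((c : ℂ) + t * Complex.I) ^ 2) / ((c : ℂ) + t * Complex.I) = -Real.pi := by
  have h := ker_pos (c := -c) (by linarith)
  have h2 : ∀ t : ℝ, Complex.exp (((c : ℂ) + t * Complex.I) ^ 2) / ((c : ℂ) + t * Complex.I) =
      -(Complex.exp ((((-c : ℝ) : ℂ) + ((-t : ℝ) : ℂ) * Complex.I) ^ 2) /
        (((-c : ℝ) : ℂ) + ((-t : ℝ) : ℂ) * Complex.I)) := by
    intro t
    have e : (((-c : ℝ) : ℂ) + ((-t : ℝ) : ℂ) * Complex.I) = -((c : ℂ) + t * Complex.I) := by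
      push_cast; ring
    rw [e, neg_sq, div_neg, neg_neg]
  simp_rw [h2]
  rw [integral_neg, integral_neg_eq_self (fun t : ℝ =>
    Complex.exp ((((-c : ℝ) : ℂ) + (t : ℂ) * Complex.I) ^ 2) / (((-c : ℝ) : ℂ) + (t : ℂ) * Complex.I)), h]

theorem norm_exp_sq (s : ℂ) : ‖Complex.exp (s ^ 2)‖ = Real.exp (s.re ^ 2) * Real.exp (-s.im ^ 2) := by
  rw [Complex.norm_exp, ← Real.exp_add]
  congr 1
  simp [pow_two]
  ring

theorem exp_neg_sq_le (y : ℝ) : Real.exp (-y ^ 2) ≤ (1 + y ^ 2)⁻¹ := by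
  rw [Real.exp_neg]
  apply inv_anti₀ (by positivity)
  linarith [Real.add_one_le_exp (y ^ 2)]

/-- residue at zero -/
theorem residue_zero {F : ℂ → ℂ} (hF : Differentiable ℂ F) {a b A H : ℝ} (ha : a < 0) (hb : 0 < b)
    (hA0 : ∀ s : ℂ, a ≤ s.re → s.re ≤ b → H ≤ |s.im| → ‖F s‖ ≤ A * (1 + s.im ^ 2)⁻¹) :
    (∫ t : ℝ, F ((b : ℂ) + t * Complex.I) / ((b : ℂ) + t * Complex.I)) -
      (∫ t : ℝ, F ((a : ℂ) + t * Complex.I) / ((a : ℂ) + t * Complex.I)) = 2 * Real.pi * F 0 := by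
  obtain ⟨A', hA', hA⟩ := uniform_decay hF.continuous hA0
  set E : ℂ → ℂ := fun s => Complex.exp (s ^ 2) with hE
  have hEd : Differentiable ℂ E := by rw [hE]; fun_prop
  set R : ℝ := Real.exp ((|a| + |b|) ^ 2) with hR
  have hEA : ∀ s : ℂ, a ≤ s.re → s.re ≤ b → ‖E s‖ ≤ R * (1 + s.im ^ 2)⁻¹ := by
    intro s h1 h2
    simp only [hE]
    rw [norm_exp_sq]
    apply mul_le_mul _ (exp_neg_sq_le _) (Real.exp_pos _).le (Real.exp_pos _).le
    apply Real.exp_le_exp.mpr
    have h3 : |s.re| ≤ |a| + |b| := by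
      rw [abs_le]
      constructor
      · linarith [neg_abs_le a, abs_nonneg b]
      · (clear * - h2; linarith [le_abs_self b, abs_nonneg a])
    calc s.re ^ 2 = |s.re| ^ 2 := (sq_abs _).symm
      _ ≤ _ := pow_le_pow_left₀ (abs_nonneg _) h3 2
  set K : ℂ → ℂ := fun s => F s - F 0 * E s with hK
  have hKd : Differentiable ℂ K := by
    rw [hK]
    exact hF.sub (hEd.const_mul _)
  have hK1 : K 0 = 0 := by simp [hK, hE]
  set L : ℂ → ℂ := dslope K 0 with hL
  have hLd : Differentiable ℂ L := by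
    rw [hL, ← differentiableOn_univ, Complex.differentiableOn_dslope univ_mem, differentiableOn_univ]
    exact hKd
  have hLne : ∀ s : ℂ, s ≠ 0 → L s = F s / s - F 0 * (E s / s) := by
    intro s hs
    rw [hL, dslope_of_ne _ hs, slope_def_field, hK1]
    simp only [hK, sub_zero]
    ring
  have hLb : ∀ s : ℂ, a ≤ s.re → s.re ≤ b → 1 ≤ |s.im| →
      ‖L s‖ ≤ (A' + ‖F 0‖ * R) * (1 + s.im ^ 2)⁻¹ := by
    intro s h1 h2 h3
    have h4 : 1 ≤ ‖s‖ := h3.trans (Complex.abs_im_le_norm s)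
    have h5 : s ≠ 0 := by
      intro h
      rw [h, norm_zero] at h4
      linarith
    have h6 : L s = K s / s := by
      rw [hL, dslope_of_ne _ h5, slope_def_field, hK1, sub_zero, sub_zero]
    rw [h6, norm_div]
    have h7 : ‖K s‖ ≤ (A' + ‖F 0‖ * R) * (1 + s.im ^ 2)⁻¹ := by
      simp only [hK]
      refine (norm_sub_le _ _).trans ?_
      rw [norm_mul]
      have h8 := hA s h1 h2
      have h9 := mul_le_mul_of_nonneg_left (hEA s h1 h2) (norm_nonneg (F 0))
      linarith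
    exact (div_le_self (norm_nonneg _) h4).trans h7
  have hsh := shift hLd (by linarith : a ≤ b) hLb
  have hline : ∀ c : ℝ, a ≤ c → c ≤ b → c ≠ 0 →
      ∫ t : ℝ, L ((c : ℂ) + t * Complex.I) =
        (∫ t : ℝ, F ((c : ℂ) + t * Complex.I) / ((c : ℂ) + t * Complex.I)) -
        F 0 * ∫ t : ℝ, E ((c : ℂ) + t * Complex.I) / ((c : ℂ) + t * Complex.I) := by
    intro c hc1 hc2 hc3
    have hdist : ∀ t : ℝ, |c| ≤ ‖(c : ℂ) + t * Complex.I‖ := by
      intro t
      have h5 := Complex.abs_re_le_norm ((c : ℂ) + t * Complex.I)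
      rwa [line_re] at h5
    have hc0 : 0 < |c| := abs_pos.mpr hc3
    have hne : ∀ t : ℝ, (c : ℂ) + t * Complex.I ≠ 0 := by
      intro t h
      have := hdist t
      rw [h, norm_zero] at this
      linarith
    have hgen : ∀ (G : ℂ → ℂ) (B : ℝ), Continuous G →
        (∀ s : ℂ, a ≤ s.re → s.re ≤ b → ‖G s‖ ≤ B * (1 + s.im ^ 2)⁻¹) →
        Integrable (fun t : ℝ => G ((c : ℂ) + t * Complex.I) / ((c : ℂ) + t * Complex.I)) := by
      intro G B hG hB
      refine (integrable_inv_one_add_sq.const_mul (B / |c|)).mono' ?_ (Eventually.of_forall fun t => ?_)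
      · refine Continuous.aestronglyMeasurable ?_
        exact (hG.comp (by fun_prop)).div (by fun_prop) hne
      · have h1 := hB ((c : ℂ) + t * Complex.I) (by rw [line_re]; exact hc1)
          (by rw [line_re]; exact hc2)
        rw [line_im] at h1
        rw [norm_div, div_mul_eq_mul_div]
        exact div_le_div₀ ((norm_nonneg _).trans h1) h1 hc0 (hdist t)
    have i1 := hgen F A' hF.continuous hA
    have i2 := hgen E R hEd.continuous hEA
    have h1 : ∀ t : ℝ, L ((c : ℂ) + t * Complex.I) =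
        F ((c : ℂ) + t * Complex.I) / ((c : ℂ) + t * Complex.I) -
        F 0 * (E ((c : ℂ) + t * Complex.I) / ((c : ℂ) + t * Complex.I)) := fun t => hLne _ (hne t)
    simp_rw [h1]
    rw [integral_sub i1 (i2.const_mul _), integral_const_mul]
  rw [hline b (by linarith) le_rfl hb.ne', hline a le_rfl (by linarith) ha.ne] at hsh
  simp only [hE] at hsh
  rw [ker_pos hb, ker_neg ha] at hsh
  linear_combination hsh

end Pool.Agent.M20.Helper26.KC
end

/- Helper53.KN.Helper35.KE.Numeric -/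
section
/-! CountE2 (cells with few products `q m`, `m ~ X^b` prime, `b = (1-e)/2`): the numerical lemma. -/

set_option autoImplicit false

namespace Pool.Agent.M20.Helper35.KE
open Pool.Agent.M20.Helper60.KS

/-- numerical lemma for the classes of zeros with `|P(ρ)| ~ M^(x-y)`, `M = X^b`, `e = 1 - 2b` -/
def NumericE2 (e : ℝ) : Prop := ∀ ε0 : ℝ, 0 < ε0 → ε0 ≤ 1/100 → ∀ ε x n y r ϱ : ℝ, 0 < ε → ε ≤ ε0 / 10 ^ 5 →
  ε0 ≤ x → x ≤ 0.4 + ε → 0 < n → n ≤ yy x + ε →
  (∀ k : ℕ, 1 ≤ k → (k : ℝ) ≤ 4 / n → r ≤ max (2 * x * (k * n)) (1 - k * n * (2 - 6 * x)) + ε) →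
  r ≤ 2 * (1 - e) * y + e + ε →
  (r ≤ 2 * (1 + e) * x - ε →
    ϱ ≤ max (e + r - 2 * (1 + e) * x) (4 * (e + r - 2 * (1 + e) * x) - 1) + ε) →
  (∀ j : ℕ, 1 ≤ j → (j : ℝ) ≤ 4 / n → r + 2 * x * (j * n) ≤ 2 * ((1 + e) * x + (1 - e) * y) - ε →
    ϱ ≤ max (1 + r - 2 * ((1 + e) * x + (1 - e) * y) - j * n * (1 - 2 * x))
      (4 * (1 + r - 2 * ((1 + e) * x + (1 - e) * y) - j * n * (1 - 2 * x)) - 1) + ε) →
  ϱ ≤ 0.34

lemma fin {w ε ϱ : ℝ} (h : ϱ ≤ max w (4 * w - 1) + ε) (hw : w ≤ 0.3348) (hε : ε ≤ 1 / 10000) : ϱ ≤ 0.34 := by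
  have h1 : max w (4 * w - 1) ≤ 0.3392 := max_le (by (clear * - hw; linarith)) (by linarith)
  linarith

/-- largest multiple below `c` -/
lemma mult {n c : ℝ} (hn : 0 < n) (hc : n ≤ c) : ∃ K : ℕ, 1 ≤ K ∧ (K : ℝ) * n ≤ c ∧ c < ((K : ℝ) + 1) * n := by
  refine ⟨⌊c / n⌋₊, ?_, ?_, ?_⟩
  · rw [Nat.one_le_floor_iff, le_div_iff₀ hn]; (clear * - hc; linarith)
  · have h0 : 0 ≤ c / n := div_nonneg (by linarith) hn.le
    have := Nat.floor_le h0
    rwa [le_div_iff₀ hn] at this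
  · have := Nat.lt_floor_add_one (c / n)
    rwa [div_lt_iff₀ hn] at this

theorem numericE2 (e : ℝ) (he0 : 0 ≤ e) (he1 : e ≤ 0.04) : NumericE2 e := by
  intro ε0 h0 h1 ε x n y r ϱ hε0 hε hx0 hx1 hn0 hn hH hP1 hP2 hS
  have hεs : ε ≤ 1 / 10 ^ 7 := by (clear * - h1 hε; linarith)
  have hεm : ε ≤ 1 / 10000000 := hεs.trans (by norm_num)
  have hε4 : ε ≤ 1 / 10000 := hεs.trans (by norm_num)
  have hxp : 0 < x := h0.trans_le hx0
  have h2x : 0 < 1 - 2 * x := by (clear * - hεm hx1; linarith)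
  have h57 : 0 < 5 / 7 - x := by (clear * - hεm hx1; linarith)
  have hex0 : 0 ≤ e * x := by positivity
  by_cases hr : r ≤ 2 * (1 + e) * x - ε
  · exact fin (hP2 hr) (by (clear * - he1 hε0 hr; linarith)) hε4
  rw [not_le] at hr
  -- the S bound for a multiple m
  have key : ∀ K : ℕ, 1 ≤ K → (K : ℝ) * n ≤ 1.04 → 2 * x * (K * n) ≤ 2 * (1 + e) * x - e - 2 * ε →
      (1 + e) - 2 * (1 + e) * x - K * n * (1 - 2 * x) + ε ≤ 0.3348 → ϱ ≤ 0.34 := by
    intro K hK hK1 hK2 hK3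
    refine fin (hS K hK ?_ (by (clear * - hP1 hK2; linarith))) ?_ hε4
    · rw [le_div_iff₀ hn0]; exact hK1.trans (by norm_num)
    · (clear * - hP1 hK3; linarith)
  have hy1 : n ≤ 1/3 / (1 - 2 * x) + ε ∧ n ≤ 2/7 / (5/7 - x) + ε := by
    unfold yy at hn
    exact ⟨hn.trans (add_le_add_left (min_le_left _ _) _), hn.trans (add_le_add_left (min_le_right _ _) _)⟩
  obtain ⟨hy1, hy2⟩ := hy1
  rcases le_or_gt 0.22 x with hx | hx
  · -- x ≥ 0.22
    have hn1 : n ≤ 0.92 := by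
      have h3 : 2/7 / (5/7 - x) ≤ 0.91 := by
        rw [div_le_iff₀ h57]; (clear * - hεm hx1; linarith)
      (clear * - hεm hy2 h3; linarith)
    obtain ⟨K, hK, hK1, hK2⟩ := mult (c := 0.948) hn0 (hn1.trans (by norm_num))
    have hKr : (1:ℝ) ≤ K := by exact_mod_cast hK
    have hm : 0.474 ≤ (K:ℝ) * n := by
      have h9 := mul_nonneg (sub_nonneg.2 hKr) hn0.le
      (clear * - h9 hK2; linarith)
    have hex : e * 0.22 ≤ e * x := mul_le_mul_of_nonneg_left hx he0
    have hxm : x * (K * n) ≤ x * 0.948 := mul_le_mul_of_nonneg_left hK1 hxp.le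
    have hm2 : 0.474 * (1 - 2 * x) ≤ (K:ℝ) * n * (1 - 2 * x) := mul_le_mul_of_nonneg_right hm h2x.le
    refine key K hK (hK1.trans (by norm_num)) ?_ ?_
    · (clear * - he1 hεm hx hex hxm; linarith)
    · (clear * - he1 hεm hx hex hm2; linarith)
  · have hn1 : n ≤ 0.6 := by
      have h3 : 1/3 / (1 - 2 * x) ≤ 0.5953 := by
        rw [div_le_iff₀ h2x]; (clear * - hx; linarith)
      (clear * - hεm hy1 h3; linarith)
    obtain ⟨K, hK, hK1, hK2⟩ := mult (c := 0.999 + e) hn0 (by (clear * - he0 hn1; linarith))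
    set m : ℝ := (K:ℝ) * n with hm
    have hKr : (1:ℝ) ≤ K := by exact_mod_cast hK
    have hm0 : 0 < m := by positivity
    have hm1 : n ≤ m := by rw [hm]; exact le_mul_of_one_le_left hn0.le hKr
    have hex : e * x ≤ e * 0.22 := mul_le_mul_of_nonneg_left hx.le he0
    have hsm : m * (2 - 6 * x) ≤ 1 - 2 * (1 + e) * x + 2 * ε := by
      by_contra hcon
      rw [not_le] at hcon
      have h4 := hH K hK (by rw [le_div_iff₀ hn0]; (clear * - he1 hK1; linarith))
      have h5 : max (2 * x * m) (1 - m * (2 - 6 * x)) < 2 * (1 + e) * x - 2 * ε := by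
        refine max_lt ?_ (by (clear * - hcon; linarith))
        have h6 : x * m ≤ x * (0.999 + e) := mul_le_mul_of_nonneg_left hK1 hxp.le
        have h7 : 1000 * ε < x := by (clear * - hε0 hε hx0; linarith)
        (clear * - hε0 hε hx0 h6; linarith)
      (clear * - hr h4 h5; linarith)
    have hm74 : m ≤ 0.83 := by
      by_contra hcon
      rw [not_le] at hcon
      have : 0.83 * (2 - 6 * x) ≤ m * (2 - 6 * x) := mul_le_mul_of_nonneg_right hcon.le (by (clear * - hx; linarith))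
      (clear * - hεm hex0 hx hsm this; linarith)
    have hxm : x * m ≤ x * 0.83 := mul_le_mul_of_nonneg_left hm74 hxp.le
    have hcond : 0.16 ≤ x → 2 * x * m ≤ 2 * (1 + e) * x - e - 2 * ε := by
      intro hx16
      have : e * 0.16 ≤ e * x := mul_le_mul_of_nonneg_left hx16 he0
      (clear * - he1 hεm this hxm hx16; linarith)
    rcases Nat.lt_or_ge 1 K with h2 | h2
    · have hK2r : (2:ℝ) ≤ K := by exact_mod_cast h2
      have h8 : 2 * n ≤ m := by rw [hm]; exact mul_le_mul_of_nonneg_right hK2r hn0.le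
      have h9 : 0.666 * (1 + e) ≤ m := by
        have : (K + 1 : ℝ) * n = m + n := by rw [hm]; ring
        rw [this] at hK2
        (clear * - he0 hK2 h8; linarith)
      have h9' : 0.666 * (1 + e) * (2 - 6 * x) ≤ m * (2 - 6 * x) := mul_le_mul_of_nonneg_right h9 (by (clear * - hx; linarith))
      have h10 : 0.16 ≤ x := by
        by_contra hcon
        rw [not_le] at hcon
        have h19 : e * x ≤ e * 0.16 := mul_le_mul_of_nonneg_left hcon.le he0
        (clear * - he0 hεs h19 hsm h9' hcon; linarith)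
      have h11 : 0.666 * (1 + e) * (1 - 2 * x) ≤ m * (1 - 2 * x) := mul_le_mul_of_nonneg_right h9 h2x.le
      refine key K hK (hm74.trans (by norm_num)) (hcond h10) ?_
      have hex1 : e * 0.16 ≤ e * x := mul_le_mul_of_nonneg_left h10 he0
      (clear * - he1 h1 hε0 hε hex0 hK2 hsm hxm h8; linarith)
    · have hK' : K = 1 := by (clear * - hK h2; omega)
      have hmn : m = n := by rw [hm, hK']; simp
      have h9 : 0.999 + e ≤ 2 * m := by
        have : (K + 1 : ℝ) * n = m + n := by rw [hm]; ring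
        rw [this] at hK2
        (clear * - hK2 hm1; linarith)
      have h12 : (n - ε) * (1 - 2 * x) ≤ 1/3 := by
        have h11 : n - ε ≤ 1/3 / (1 - 2 * x) := by (clear * - hy1; linarith)
        rwa [le_div_iff₀ h2x] at h11
      have h13 : (0.4995 - ε) * (1 - 2 * x) ≤ (n - ε) * (1 - 2 * x) :=
        mul_le_mul_of_nonneg_right (by (clear * - he0 h9 hmn; linarith)) h2x.le
      have h10 : 0.16 ≤ x := by
        have h19 : 0 ≤ ε * x := mul_nonneg hε0.le hxp.le
        (clear * - h12 h13 hεs h19; linarith)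
      have h14 : (1 + e) * (1 - 2 * x) ≤ (2 * m + 0.001) * (1 - 2 * x) :=
        mul_le_mul_of_nonneg_right (by (clear * - h9; linarith)) h2x.le
      refine key K hK (hm74.trans (by norm_num)) (hcond h10) ?_
      rw [hmn] at h14
      have h15 : ε * (1 - 2 * x) ≤ ε := mul_le_of_le_one_right hε0.le (by (clear * - hxp; linarith))
      have h16 : (K:ℝ) * n * (1 - 2 * x) = n * (1 - 2 * x) := by rw [← hm, hmn]
      rw [h16]
      (clear * - hεm hxp h12 h14 h15; linarith)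

end Pool.Agent.M20.Helper35.KE
end
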