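import Mathlib
import Pool.Agent.Helper53.KO.G03
import Pool.Agent.Helper53.KO.G05

set_option linter.all false

/- Helper53.KN.Helper55.MZ.Local -/
section
/-!
# Zero-free discs give small values (Borel-Caratheodory and three circles)
-/

set_option autoImplicit false
open Filter Topology Complex Metric Set

namespace Pool.Agent.M20.Helper55.MZ

lemma exists_log {G : ℂ → ℂ} {r : ℝ} (hr : 0 < r) (hG : DifferentiableOn ℂ G (ball 0 r))
    (hne : ∀ z ∈ ball (0 : ℂ) r, G z ≠ 0) :
    ∃ g : ℂ → ℂ, DifferentiableOn ℂ g (ball 0 r) ∧ (∀ z ∈ ball (0 : ℂ) r, cexp (g z) = G z) ∧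
      g 0 = Complex.log (G 0) := by
  have h0 : (0 : ℂ) ∈ ball (0 : ℂ) r := mem_ball_self hr
  have hd : DifferentiableOn ℂ (fun z => deriv G z / G z) (ball 0 r) :=
    (hG.deriv isOpen_ball).div hG hne
  obtain ⟨g, hg0, hg⟩ := hd.isExactOn_ball.with_val_at 0 (Complex.log (G 0))
  have hgd : DifferentiableOn ℂ g (ball 0 r) := fun z hz =>
    (hg z hz).differentiableAt.differentiableWithinAt
  refine ⟨g, hgd, ?_, hg0⟩
  have hprod : ∀ z ∈ ball (0 : ℂ) r, HasDerivAt (fun z => G z * cexp (-g z)) 0 z := by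
    intro z hz
    have h1 : HasDerivAt G (deriv G z) z :=
      (hG.differentiableAt (isOpen_ball.mem_nhds hz)).hasDerivAt
    have h2 : HasDerivAt (fun z => cexp (-g z)) (cexp (-g z) * -(deriv G z / G z)) z :=
      (hg z hz).neg.cexp
    have h3 := h1.mul h2
    have h4 := hne z hz
    have h5 : deriv G z * cexp (-g z) + G z * (cexp (-g z) * -(deriv G z / G z)) = 0 := by
      field_simp
      ring
    rw [h5] at h3
    exact h3
  have hconst : ∀ z ∈ ball (0 : ℂ) r, G z * cexp (-g z) = 1 := by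
    intro z hz
    have h1 := isOpen_ball.is_const_of_deriv_eq_zero (convex_ball (0 : ℂ) r).isPreconnected
      (f := fun z => G z * cexp (-g z))
      (fun z hz => (hprod z hz).differentiableAt.differentiableWithinAt)
      (fun z hz => (hprod z hz).deriv) hz h0
    have h2 : G z * cexp (-g z) = G 0 * cexp (-g 0) := h1
    rw [h2, hg0, Complex.exp_neg, Complex.exp_log (hne 0 h0), mul_inv_cancel₀ (hne 0 h0)]
  intro z hz
  have h1 := hconst z hz
  rw [Complex.exp_neg, mul_inv_eq_one₀ (Complex.exp_ne_zero _)] at h1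
  exact h1.symm

end Pool.Agent.M20.Helper55.MZ
end

/- Helper53.KN.Helper69.QRH.A2 -/
section
/-! QRH-A2: the logarithmic derivative of zeta without the poles at finitely many exceptional
zeros, and its logarithmic bound. -/

set_option autoImplicit false
open Filter Topology Complex Metric

namespace Pool.Agent.M20.Helper69.QRH


lemma zeta_two_line {s : ℂ} (hs : s.re = 2) : 1 / 3 ≤ ‖riemannZeta s‖ := by
  have hs1 : 1 < s.re := by rw [hs]; norm_num
  have hsum : Summable (fun n : ℕ => 1 / ((n : ℂ) + 1) ^ s) := by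
    have h1 := (summable_nat_add_iff 1).2 (Complex.summable_one_div_nat_cpow.2 hs1)
    simpa using h1
  have h1 : riemannZeta s = 1 + ∑' n : ℕ, 1 / (((n + 1 : ℕ) : ℂ) + 1) ^ s := by
    rw [zeta_eq_tsum_one_div_nat_add_one_cpow hs1, hsum.tsum_eq_zero_add]
    simp
  have hpi : HasSum (fun n : ℕ => 1 / ((((n + 2 : ℕ)) : ℝ)) ^ 2) (Real.pi ^ 2 / 6 - 1) := by
    have h2 := (hasSum_nat_add_iff' (f := fun n : ℕ => 1 / (n : ℝ) ^ 2) 2).2 hasSum_zeta_two
    simpa [Finset.sum_range_succ] using h2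
  have h3 : ‖∑' n : ℕ, 1 / (((n + 1 : ℕ) : ℂ) + 1) ^ s‖ ≤ Real.pi ^ 2 / 6 - 1 := by
    refine tsum_of_norm_bounded hpi fun n => ?_
    have h4 : (((n + 1 : ℕ) : ℂ) + 1) = (((n + 2 : ℕ) : ℝ) : ℂ) := by push_cast; ring
    rw [h4, norm_div, norm_one, Complex.norm_cpow_eq_rpow_re_of_pos (by positivity), hs]
    norm_num
  have h5 : Real.pi ^ 2 ≤ 10 := by
    have := Real.pi_lt_d2
    have := Real.pi_pos
    nlinarith
  have h6 : ‖(1 : ℂ)‖ - ‖∑' n : ℕ, 1 / (((n + 1 : ℕ) : ℂ) + 1) ^ s‖ ≤ ‖riemannZeta s‖ := by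
    rw [h1]
    have := norm_sub_norm_le (1 : ℂ) (-(∑' n : ℕ, 1 / (((n + 1 : ℕ) : ℂ) + 1) ^ s))
    rwa [norm_neg, sub_neg_eq_add] at this
  rw [norm_one] at h6
  linarith

/-- the polynomial with roots `M` -/
noncomputable def Qp (M : Multiset ℂ) (z : ℂ) : ℂ := (M.map (fun ρ => z - ρ)).prod

lemma Qp_zero (z : ℂ) : Qp 0 z = 1 := by simp [Qp]

lemma Qp_cons (a : ℂ) (M : Multiset ℂ) (z : ℂ) : Qp (a ::ₘ M) z = (z - a) * Qp M z := by
  simp [Qp]

lemma Qp_upper (M : Multiset ℂ) (z : ℂ) (X : ℝ) (hX : 0 ≤ X) (h : ∀ ρ ∈ M, ‖z - ρ‖ ≤ X) :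
    ‖Qp M z‖ ≤ X ^ Multiset.card M := by
  induction M using Multiset.induction_on with
  | empty => simp [Qp]
  | cons a M ih =>
    rw [Qp_cons, norm_mul, Multiset.card_cons, pow_succ, mul_comm]
    have h1 := h a (Multiset.mem_cons_self a M)
    have h2 := ih fun ρ hρ => h ρ (Multiset.mem_cons_of_mem hρ)
    exact mul_le_mul h2 h1 (norm_nonneg _) (pow_nonneg hX _)

lemma Qp_differentiable (M : Multiset ℂ) : Differentiable ℂ (Qp M) := by
  induction M using Multiset.induction_on with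
  | empty =>
    have : Qp 0 = fun _ => 1 := funext Qp_zero
    rw [this]
    exact differentiable_const _
  | cons a M ih =>
    have : Qp (a ::ₘ M) = fun z => (z - a) * Qp M z := funext (Qp_cons a M)
    rw [this]
    exact (differentiable_id.sub_const a).mul ih

lemma Qp_ne_zero (M : Multiset ℂ) (z : ℂ) (h : ∀ ρ ∈ M, z ≠ ρ) : Qp M z ≠ 0 := by
  induction M using Multiset.induction_on with
  | empty => simp [Qp]
  | cons a M ih =>
    rw [Qp_cons]
    exact mul_ne_zero (sub_ne_zero.2 (h a (Multiset.mem_cons_self a M)))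
      (ih fun ρ hρ => h ρ (Multiset.mem_cons_of_mem hρ))

lemma logDeriv_Qp (M : Multiset ℂ) (z : ℂ) (h : ∀ ρ ∈ M, z ≠ ρ) :
    logDeriv (Qp M) z = (M.map (fun ρ => 1 / (z - ρ))).sum := by
  induction M using Multiset.induction_on with
  | empty =>
    have : Qp 0 = fun _ => 1 := funext Qp_zero
    rw [this]
    simp [logDeriv_apply]
  | cons a M ih =>
    have : Qp (a ::ₘ M) = fun z => (z - a) * Qp M z := funext (Qp_cons a M)
    have h1 := h a (Multiset.mem_cons_self a M)
    have h2 : ∀ ρ ∈ M, z ≠ ρ := fun ρ hρ => h ρ (Multiset.mem_cons_of_mem hρ)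
    rw [this, logDeriv_mul (f := fun z => z - a) (g := Qp M) z (sub_ne_zero.2 h1)
      (Qp_ne_zero M z h2) ((differentiable_id.sub_const a) z) (Qp_differentiable M z), ih h2,
      Multiset.map_cons, Multiset.sum_cons]
    congr 1
    rw [logDeriv_apply]
    have h3 : HasDerivAt (fun z : ℂ => z - a) 1 z := (hasDerivAt_id z).sub_const a
    rw [h3.deriv]

lemma logDeriv_EZ {s : ℂ} (hs : 1 < s.re) :
    logDeriv EZ s = 1 / (s - 1) - LSeries (fun n => (ArithmeticFunction.vonMangoldt n : ℂ)) s := by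
  have hs1 : s ≠ 1 := by
    rintro rfl
    simp at hs
  have hz : riemannZeta s ≠ 0 := riemannZeta_ne_zero_of_one_lt_re hs
  have h1 : EZ =ᶠ[𝓝 s] fun z => (z - 1) * riemannZeta z := by
    filter_upwards [isOpen_compl_singleton.mem_nhds (show s ∈ ({1} : Set ℂ)ᶜ from hs1)] with z hz
    exact EZ_eq hz
  have h2 : logDeriv EZ s = logDeriv (fun z => (z - 1) * riemannZeta z) s := by
    rw [logDeriv_apply, logDeriv_apply, h1.deriv_eq, h1.eq_of_nhds]
  rw [h2, logDeriv_mul (f := fun z => z - 1) (g := riemannZeta) s (sub_ne_zero.2 hs1) hz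
    ((differentiable_id.sub_const 1) s) (differentiableAt_riemannZeta hs1)]
  have h3 : HasDerivAt (fun z : ℂ => z - 1) 1 s := (hasDerivAt_id s).sub_const 1
  have h4 : logDeriv (fun z : ℂ => z - 1) s = 1 / (s - 1) := by
    rw [logDeriv_apply, h3.deriv]
  have h5 : logDeriv riemannZeta s =
      -LSeries (fun n => (ArithmeticFunction.vonMangoldt n : ℂ)) s := by
    rw [ArithmeticFunction.LSeries_vonMangoldt_eq_deriv_riemannZeta_div hs, logDeriv_apply]
    ring
  rw [h4, h5]
  ring

/-- bound of the logarithmic derivative through Borel-Caratheodory and Cauchy -/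
lemma logDeriv_bound {H : ℂ → ℂ} {R r₂ r₁ Mt : ℝ} (hr₁ : 0 < r₁) (h12 : r₁ < r₂) (h2R : r₂ < R)
    (hMt : 0 < Mt) (hH : DifferentiableOn ℂ H (ball 0 R)) (hne : ∀ z ∈ ball (0 : ℂ) R, H z ≠ 0)
    (h0 : H 0 = 1) (hb : ∀ z ∈ ball (0 : ℂ) R, ‖H z‖ ≤ Real.exp Mt) {w : ℂ} (hw : ‖w‖ ≤ r₁) :
    ‖deriv H w / H w‖ ≤ 2 * Mt * r₂ / (R - r₂) / (r₂ - r₁) := by
  have hR : 0 < R := by linarith
  obtain ⟨g, hgd, hgexp, hg0⟩ := Pool.Agent.M20.Helper55.MZ.exists_log hR hH hne
  rw [h0, Complex.log_one] at hg0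
  have hmaps : Set.MapsTo g (ball 0 R) {z | z.re ≤ Mt} := by
    intro z hz
    have h1 := hb z hz
    rw [← hgexp z hz, Complex.norm_exp, Real.exp_le_exp] at h1
    exact h1
  have hbound : ∀ z : ℂ, ‖z‖ ≤ r₂ → ‖g z‖ ≤ 2 * Mt * r₂ / (R - r₂) := by
    intro z hz
    have hzR : z ∈ ball (0 : ℂ) R := by
      rw [mem_ball_zero_iff]; linarith
    have h1 := Complex.borelCaratheodory hMt hgd hmaps hR hzR
    rw [hg0, norm_zero, zero_mul, zero_div, add_zero] at h1
    refine h1.trans ?_
    have hz0 := norm_nonneg z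
    have h2 : 2 * Mt * ‖z‖ ≤ 2 * Mt * r₂ := by nlinarith
    have h3 : R - r₂ ≤ R - ‖z‖ := by linarith
    have h4 : 0 < R - r₂ := by linarith
    have h5 : 0 < r₂ := by linarith
    exact div_le_div₀ (by positivity) h2 h4 h3
  have hwR : w ∈ ball (0 : ℂ) R := by
    rw [mem_ball_zero_iff]; linarith
  have hder : deriv g w = deriv H w / H w := by
    have h1 : H =ᶠ[𝓝 w] fun z => cexp (g z) := by
      filter_upwards [isOpen_ball.mem_nhds hwR] with z hz
      exact (hgexp z hz).symm
    have h2 : HasDerivAt g (deriv g w) w :=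
      (hgd.differentiableAt (isOpen_ball.mem_nhds hwR)).hasDerivAt
    rw [h1.deriv_eq, h2.cexp.deriv, ← hgexp w hwR, mul_div_assoc, mul_comm, div_mul_cancel₀]
    exact Complex.exp_ne_zero _
  rw [← hder]
  have hsub : closedBall w (r₂ - r₁) ⊆ ball (0 : ℂ) R := by
    intro z hz
    rw [mem_closedBall, dist_eq_norm] at hz
    rw [mem_ball_zero_iff]
    have : ‖z‖ ≤ ‖z - w‖ + ‖w‖ := by
      have := norm_add_le (z - w) w
      rwa [sub_add_cancel] at this
    linarith
  refine Complex.norm_deriv_le_of_forall_mem_sphere_norm_le (by linarith)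
    (DifferentiableOn.diffContOnCl ?_) fun z hz => hbound z ?_
  · rw [closure_ball w (by linarith : r₂ - r₁ ≠ 0)]
    exact hgd.mono hsub
  · rw [mem_sphere, dist_eq_norm] at hz
    have : ‖z‖ ≤ ‖z - w‖ + ‖w‖ := by
      have := norm_add_le (z - w) w
      rwa [sub_add_cancel] at this
    linarith

end Pool.Agent.M20.Helper69.QRH
end

/- Helper53.KN.Helper46.KSZ.St -/
section
/-!
# Project KSZ, explicit formula (helper46): definitions and module statements

Paper proof: `KS_zeros.md`, PART A.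
-/

set_option autoImplicit false
open Filter Topology MeasureTheory Complex
open scoped Classical

namespace Pool.Agent.M20.Helper46.KSZ

open Pool.Agent.M20.Helper10.QRH Pool.Agent.M20.Helper69.QRH

/-- `M` is the multiset of all zeros of zeta (with multiplicity) in the box
`3/5 < Re s, |Im s| < T + 2`, and `Z = (s-1) ζ(s) / ∏ (s - ρ)`. -/
structure Box (T : ℝ) (M : Multiset ℂ) (Z : ℂ → ℂ) : Prop where
  diff : Differentiable ℂ Z
  eq : ∀ z, EZ z = Qp M z * Z z
  mem : ∀ ρ ∈ M, riemannZeta ρ = 0 ∧ 3/5 < ρ.re ∧ ρ.re < 1 ∧ |ρ.im| < T + 2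
  ne : ∀ z : ℂ, 3/5 < z.re → |z.im| < T + 2 → Z z ≠ 0
  count : ∀ ρ : ℂ, riemannZeta ρ = 0 → 3/5 < ρ.re → |ρ.im| < T + 2 →
    M.count ρ = analyticOrderNatAt riemannZeta ρ

/-- E1 -/
def BoxExists : Prop := ∀ T : ℝ, 0 ≤ T → ∃ (M : Multiset ℂ) (Z : ℂ → ℂ), Box T M Z

/-- E2: Jensen's inequality for `EZ` at `2 + i t` -/
def JensenEZ : Prop := ∃ C : ℝ, 0 < C ∧ ∀ (N : Multiset ℂ) (Z : ℂ → ℂ), Differentiable ℂ Z →
  (∀ z, EZ z = Qp N z * Z z) → ∀ t : ℝ, (∀ ρ ∈ N, ‖ρ - (2 + t * Complex.I)‖ ≤ 1.45) →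
    (Multiset.card N : ℝ) ≤ C * Real.log (|t| + 2)

/-- the zeros of `M` in the disc of radius `1.4` about `2 + i t` -/
noncomputable def near (M : Multiset ℂ) (t : ℝ) : Multiset ℂ :=
  M.filter (fun ρ => ‖ρ - (2 + t * Complex.I)‖ < 1.4)

/-- the other zeros -/
noncomputable def far (M : Multiset ℂ) (t : ℝ) : Multiset ℂ :=
  M.filter (fun ρ => ¬ ‖ρ - (2 + t * Complex.I)‖ < 1.4)

/-- E3: the logarithmic derivative of `EZ / ∏_{near}` -/
def LocalLog : Prop := ∃ C : ℝ, 0 < C ∧ ∀ (T : ℝ) (M : Multiset ℂ) (Z : ℂ → ℂ), 1 ≤ T → Box T M Z →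
  ∀ s : ℂ, 0.605 ≤ s.re → s.re ≤ 2 → |s.im| ≤ T →
    Qp (far M s.im) s * Z s ≠ 0 ∧
    ‖logDeriv (fun z => Qp (far M s.im) z * Z z) s‖ ≤ C * Real.log (|s.im| + 2)

/-- E4: sums over the zeros of the box -/
def FarSum : Prop := ∃ C : ℝ, 0 < C ∧ ∀ (T : ℝ) (M : Multiset ℂ) (Z : ℂ → ℂ), 1 ≤ T → Box T M Z →
  ∀ (N : Multiset ℂ), N ≤ M → ∀ s : ℂ, (∀ ρ ∈ N, 0.003 ≤ ‖s - ρ‖) →
    (N.map (fun ρ => 1 / ‖s - ρ‖)).sum ≤ C * (Real.log (T + 2)) ^ 2

/-- E4': the number of zeros of the box -/
def CardBox : Prop := ∃ C : ℝ, 0 < C ∧ ∀ (T : ℝ) (M : Multiset ℂ) (Z : ℂ → ℂ), 1 ≤ T → Box T M Z →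
  (Multiset.card M : ℝ) ≤ C * T * Real.log (T + 2)

/-- E5: bounds for `Z'/Z` -/
def GBound : Prop := ∃ C : ℝ, 0 < C ∧ ∀ (T : ℝ) (M : Multiset ℂ) (Z : ℂ → ℂ), 1 ≤ T → Box T M Z →
  (∀ s : ℂ, 0.605 ≤ s.re → s.re ≤ 2 → |s.im| ≤ T → ‖logDeriv Z s‖ ≤ C * (Real.log (T + 2)) ^ 2) ∧
  (∀ t : ℝ, ‖logDeriv Z (2 + t * Complex.I)‖ ≤ C * (Real.log (T + 2)) ^ 2)

/-- the left side of the explicit formula, kernel `K`, powers `p` of `KK` -/
noncomputable def lhs (K : ℝ → ℝ) (p : ℕ) (lam : ℝ) (M : Multiset ℂ) (u : ℝ) : ℂ :=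
  ((∑' n : ℕ, ArithmeticFunction.vonMangoldt n * K (u - Real.log n) : ℝ) : ℂ)
    - Complex.exp u * KK lam 1 ^ p + (M.map (fun ρ => Complex.exp (ρ * u) * KK lam ρ ^ p)).sum

/-- the line integral -/
noncomputable def line (p : ℕ) (lam T : ℝ) (Z : ℂ → ℂ) (u : ℝ) : ℂ :=
  (1 / (2 * Real.pi)) * ∫ t in (-T)..T, KK lam ((0.605 : ℝ) + t * Complex.I) ^ p *
    (-logDeriv Z ((0.605 : ℝ) + t * Complex.I)) * Complex.exp (((0.605 : ℝ) + t * Complex.I) * u)

/-- E6: exact identity on `Re s = 2` -/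
def LineTwo : Prop := ∀ (T : ℝ) (M : Multiset ℂ) (Z : ℂ → ℂ), 1 ≤ T → Box T M Z →
  ∀ lam u : ℝ, 0 < lam → lam ≤ 1 → 1 ≤ u →
    Integrable (fun t : ℝ => KK lam ((2 : ℝ) + t * Complex.I) *
      (-logDeriv Z ((2 : ℝ) + t * Complex.I)) * Complex.exp (((2 : ℝ) + t * Complex.I) * u)) ∧
    lhs (tri lam) 1 lam M u = (1 / (2 * Real.pi)) * ∫ t : ℝ, KK lam ((2 : ℝ) + t * Complex.I) *
      (-logDeriv Z ((2 : ℝ) + t * Complex.I)) * Complex.exp (((2 : ℝ) + t * Complex.I) * u)

/-- E7: shift to the line `0.605` -/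
def Shift : Prop := ∃ C : ℝ, 0 < C ∧ ∀ (T : ℝ) (M : Multiset ℂ) (Z : ℂ → ℂ), 1 ≤ T → Box T M Z →
  ∀ lam u : ℝ, 0 < lam → lam ≤ 1 → 1 ≤ u →
    ‖lhs (tri lam) 1 lam M u - line 1 lam T Z u‖ ≤
      C * Real.exp (2 * u) * (Real.log (T + 2)) ^ 2 / (lam ^ 2 * T)

/-- iterated triangle kernels (`p = j + 1` factors) -/
noncomputable def ker (lam : ℝ) : ℕ → ℝ → ℝ
  | 0 => tri lam
  | j + 1 => fun v => ∫ w : ℝ, tri lam w * ker lam j (v - w)

/-- E8: facts on the iterated kernels -/
def KerFacts : Prop := ∀ lam : ℝ, 0 < lam → ∀ j : ℕ, Continuous (ker lam j) ∧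
  (∀ v, 0 ≤ ker lam j v) ∧ (∀ v, ker lam j v ≤ 1 / lam) ∧
  (∀ v, (j + 1) * lam ≤ |v| → ker lam j v = 0)

/-- E9: the explicit formula with the iterated kernel -/
def ShiftIter : Prop := ∃ C : ℝ, 0 < C ∧ ∀ (T : ℝ) (M : Multiset ℂ) (Z : ℂ → ℂ), 1 ≤ T → Box T M Z →
  ∀ lam u : ℝ, ∀ j : ℕ, 0 < lam → lam ≤ 1 → 1 + j * lam ≤ u →
    ‖lhs (ker lam j) (j + 1) lam M u - line (j + 1) lam T Z u‖ ≤
      C * Real.exp (2 * (u + j * lam)) * (Real.log (T + 2)) ^ 2 / (lam ^ 2 * T)

/-- length exponent of the cells of block `k` -/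
noncomputable def ee (d : ℝ) (k : ℕ) : ℕ := ⌊(k : ℝ) * (1/2 - d)⌋₊

/-- the `j`-th cell of block `k` -/
noncomputable def cell (d : ℝ) (k j : ℕ) : Finset ℕ :=
  Finset.Ico (2 ^ k + j * 2 ^ ee d k) (2 ^ k + (j + 1) * 2 ^ ee d k)

/-- logarithm of the centre of the cell -/
noncomputable def uu (d : ℝ) (k j : ℕ) : ℝ :=
  Real.log ((2 ^ k + j * 2 ^ ee d k : ℕ) + (2 : ℝ) ^ ee d k / 2)

/-- few primes -/
def Few (c₀ d : ℝ) (k j : ℕ) : Prop :=
  (((cell d k j).filter Nat.Prime).card : ℝ) < c₀ * (2 : ℝ) ^ ee d k / k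

/-- the kernel width for the iterated kernel with `p` factors -/
noncomputable def lamk (p : ℕ) (d : ℝ) (k : ℕ) : ℝ := (2 : ℝ) ^ ee d k / (8 * p * 2 ^ k)

/-- E10: a cell with few primes makes the prime side small -/
def PrimeSide : Prop := ∀ (p : ℕ) (d : ℝ), 1 ≤ p → 0 < d → d ≤ 1/100 → ∃ K : ℕ, ∀ k : ℕ, K ≤ k →
  ∀ j < 2 ^ (k - ee d k), Few (1 / (200 * p)) d k j →
    (∑' n : ℕ, ArithmeticFunction.vonMangoldt n * ker (lamk p d k) (p - 1) (uu d k j - Real.log n)) ≤
      1/8 * (2 : ℝ) ^ k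

/-- E11: the line integral is small outside of few cells (`T = 2^(5k)`) -/
def LineFew : Prop := ∀ (p : ℕ) (d : ℝ), 1 ≤ p → 0 < d → d ≤ 1/100 → ∃ K : ℕ, ∀ k : ℕ, K ≤ k →
  ∀ (M : Multiset ℂ) (Z : ℂ → ℂ), Box (2 ^ (5 * k)) M Z →
    (((Finset.range (2 ^ (k - ee d k))).filter (fun j =>
      1/100 * (2 : ℝ) ^ k ≤ ‖line p (lamk p d k) (2 ^ (5 * k)) Z (uu d k j)‖)).card : ℝ) ≤
      (2 : ℝ) ^ ((0.21 + 5 * d) * k)

/-- E12: high zeros are negligible -/
def HighZeros : Prop := ∀ d : ℝ, 0 < d → d ≤ 1/100 → ∃ p : ℕ, 1 ≤ p ∧ ∃ K : ℕ, ∀ k : ℕ, K ≤ k →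
  ∀ (M : Multiset ℂ) (Z : ℂ → ℂ), Box (2 ^ (5 * k)) M Z → ∀ j < 2 ^ (k - ee d k),
    ((M.filter (fun ρ => (2 : ℝ) ^ ((1/2 + 2 * d) * k) < |ρ.im|)).map (fun ρ =>
      ‖Complex.exp (ρ * uu d k j) * KK (lamk p d k) ρ ^ p‖)).sum ≤ 1

/-- the zeros with `3/5 < Re ρ` and `|Im ρ| ≤ 2^((1/2+2d)k)` -/
def zeroSet (d : ℝ) (k : ℕ) : Set ℂ :=
  {ρ : ℂ | riemannZeta ρ = 0 ∧ 3/5 < ρ.re ∧ |ρ.im| ≤ (2 : ℝ) ^ ((1/2 + 2 * d) * k)}

/-- FINAL RESULT of this part -/
def ExplicitCells : Prop := (∀ (d : ℝ) (k : ℕ), (zeroSet d k).Finite) ∧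
  ∀ d : ℝ, 0 < d → d ≤ 1/100 → ∃ c₀ : ℝ, 0 < c₀ ∧ ∃ K : ℕ, ∀ k : ℕ, K ≤ k →
  ∃ (c : ℂ → ℂ) (Ex : Finset ℕ), (∀ ρ : ℂ, 0 ≤ ρ.re → ρ.re ≤ 1 → ‖c ρ‖ ≤ 2) ∧
    (Ex.card : ℝ) ≤ (2 : ℝ) ^ ((0.21 + 5 * d) * k) ∧
    ∀ j < 2 ^ (k - ee d k), j ∉ Ex → Few c₀ d k j →
      ∀ S : Finset ℂ, (∀ ρ, ρ ∈ S ↔ ρ ∈ zeroSet d k) →
      3/4 ≤ ‖∑ ρ ∈ S, (analyticOrderNatAt riemannZeta ρ : ℂ) * c ρ *
        Complex.exp ((ρ - 1) * uu d k j)‖

end Pool.Agent.M20.Helper46.KSZ
end

/- Helper53.KN.Helper1.KL.St -/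
section
/-!
# The explicit formula with the line `0.575` (project KS, design D4): definitions and statements

Copy of `Pool/Agent/Helper46/KSZ/St.lean` (helper46) with the box `57/100 < Re s` and the line `Re s = 0.575`, and with
general cell lengths as in `Pool/Agent/Helper60/KG` (helper60).  This is needed for windows of length `y ^ 0.172`.
-/

set_option autoImplicit false
open Filter Topology MeasureTheory Complex
open scoped Classical

namespace Pool.Agent.M20.Helper1.KL

export Pool.Agent.M20.Helper46.KSZ (JensenEZ lhs ker KerFacts ee cell uu Few lamk)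

open Pool.Agent.M20.Helper10.QRH Pool.Agent.M20.Helper69.QRH

/-- `M` is the multiset of all zeros of zeta (with multiplicity) in the box
`57/100 < Re s, |Im s| < T + 2`, and `Z = (s-1) ζ(s) / ∏ (s - ρ)`. -/
structure Box (T : ℝ) (M : Multiset ℂ) (Z : ℂ → ℂ) : Prop where
  diff : Differentiable ℂ Z
  eq : ∀ z, EZ z = Qp M z * Z z
  mem : ∀ ρ ∈ M, riemannZeta ρ = 0 ∧ 57/100 < ρ.re ∧ ρ.re < 1 ∧ |ρ.im| < T + 2
  ne : ∀ z : ℂ, 57/100 < z.re → |z.im| < T + 2 → Z z ≠ 0
  count : ∀ ρ : ℂ, riemannZeta ρ = 0 → 57/100 < ρ.re → |ρ.im| < T + 2 →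
    M.count ρ = analyticOrderNatAt riemannZeta ρ

/-- E1 -/
def BoxExists : Prop := ∀ T : ℝ, 0 ≤ T → ∃ (M : Multiset ℂ) (Z : ℂ → ℂ), Box T M Z

/-- the zeros of `M` in the disc of radius `1.43` about `2 + i t` -/
noncomputable def near (M : Multiset ℂ) (t : ℝ) : Multiset ℂ :=
  M.filter (fun ρ => ‖ρ - (2 + t * Complex.I)‖ < 1.43)

/-- the other zeros -/
noncomputable def far (M : Multiset ℂ) (t : ℝ) : Multiset ℂ :=
  M.filter (fun ρ => ¬ ‖ρ - (2 + t * Complex.I)‖ < 1.43)

/-- E3: the logarithmic derivative of `EZ / ∏_{near}` -/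
def LocalLog : Prop := ∃ C : ℝ, 0 < C ∧ ∀ (T : ℝ) (M : Multiset ℂ) (Z : ℂ → ℂ), 1 ≤ T → Box T M Z →
  ∀ s : ℂ, 0.575 ≤ s.re → s.re ≤ 2 → |s.im| ≤ T →
    Qp (far M s.im) s * Z s ≠ 0 ∧
    ‖logDeriv (fun z => Qp (far M s.im) z * Z z) s‖ ≤ C * Real.log (|s.im| + 2)

/-- E4: sums over the zeros of the box -/
def FarSum : Prop := ∃ C : ℝ, 0 < C ∧ ∀ (T : ℝ) (M : Multiset ℂ) (Z : ℂ → ℂ), 1 ≤ T → Box T M Z →
  ∀ (N : Multiset ℂ), N ≤ M → ∀ s : ℂ, (∀ ρ ∈ N, 0.003 ≤ ‖s - ρ‖) →
    (N.map (fun ρ => 1 / ‖s - ρ‖)).sum ≤ C * (Real.log (T + 2)) ^ 2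

/-- E4': the number of zeros of the box -/
def CardBox : Prop := ∃ C : ℝ, 0 < C ∧ ∀ (T : ℝ) (M : Multiset ℂ) (Z : ℂ → ℂ), 1 ≤ T → Box T M Z →
  (Multiset.card M : ℝ) ≤ C * T * Real.log (T + 2)

/-- E5: bounds for `Z'/Z` -/
def GBound : Prop := ∃ C : ℝ, 0 < C ∧ ∀ (T : ℝ) (M : Multiset ℂ) (Z : ℂ → ℂ), 1 ≤ T → Box T M Z →
  (∀ s : ℂ, 0.575 ≤ s.re → s.re ≤ 2 → |s.im| ≤ T → ‖logDeriv Z s‖ ≤ C * (Real.log (T + 2)) ^ 2) ∧
  (∀ t : ℝ, ‖logDeriv Z (2 + t * Complex.I)‖ ≤ C * (Real.log (T + 2)) ^ 2)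

/-- the line integral -/
noncomputable def line (p : ℕ) (lam T : ℝ) (Z : ℂ → ℂ) (u : ℝ) : ℂ :=
  (1 / (2 * Real.pi)) * ∫ t in (-T)..T, KK lam ((0.575 : ℝ) + t * Complex.I) ^ p *
    (-logDeriv Z ((0.575 : ℝ) + t * Complex.I)) * Complex.exp (((0.575 : ℝ) + t * Complex.I) * u)

/-- E6: exact identity on `Re s = 2` -/
def LineTwo : Prop := ∀ (T : ℝ) (M : Multiset ℂ) (Z : ℂ → ℂ), 1 ≤ T → Box T M Z →
  ∀ lam u : ℝ, 0 < lam → lam ≤ 1 → 1 ≤ u →
    Integrable (fun t : ℝ => KK lam ((2 : ℝ) + t * Complex.I) *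
      (-logDeriv Z ((2 : ℝ) + t * Complex.I)) * Complex.exp (((2 : ℝ) + t * Complex.I) * u)) ∧
    lhs (tri lam) 1 lam M u = (1 / (2 * Real.pi)) * ∫ t : ℝ, KK lam ((2 : ℝ) + t * Complex.I) *
      (-logDeriv Z ((2 : ℝ) + t * Complex.I)) * Complex.exp (((2 : ℝ) + t * Complex.I) * u)

/-- E7: shift to the line `0.575` -/
def Shift : Prop := ∃ C : ℝ, 0 < C ∧ ∀ (T : ℝ) (M : Multiset ℂ) (Z : ℂ → ℂ), 1 ≤ T → Box T M Z →
  ∀ lam u : ℝ, 0 < lam → lam ≤ 1 → 1 ≤ u →
    ‖lhs (tri lam) 1 lam M u - line 1 lam T Z u‖ ≤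
      C * Real.exp (2 * u) * (Real.log (T + 2)) ^ 2 / (lam ^ 2 * T)

/-- E9: the explicit formula with the iterated kernel -/
def ShiftIter : Prop := ∃ C : ℝ, 0 < C ∧ ∀ (T : ℝ) (M : Multiset ℂ) (Z : ℂ → ℂ), 1 ≤ T → Box T M Z →
  ∀ lam u : ℝ, ∀ j : ℕ, 0 < lam → lam ≤ 1 → 1 + j * lam ≤ u →
    ‖lhs (ker lam j) (j + 1) lam M u - line (j + 1) lam T Z u‖ ≤
      C * Real.exp (2 * (u + j * lam)) * (Real.log (T + 2)) ^ 2 / (lam ^ 2 * T)

/-- E10: a cell with few primes makes the prime side small -/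
def PrimeSideG : Prop := ∀ (p : ℕ) (d : ℝ), 1 ≤ p → -(1 / 2) ≤ d → d ≤ 34/100 → ∃ K : ℕ, ∀ k : ℕ, K ≤ k →
  ∀ j < 2 ^ (k - ee d k), Few (1 / (200 * p)) d k j →
    (∑' n : ℕ, ArithmeticFunction.vonMangoldt n * ker (lamk p d k) (p - 1) (uu d k j - Real.log n)) ≤
      1/8 * (2 : ℝ) ^ k

/-- E11: the line integral is small outside of few cells (`T = 2^(5k)`) -/
def LineFewG : Prop := ∀ (p : ℕ) (d η : ℝ), 1 ≤ p → -(1 / 2) ≤ d → d ≤ 34/100 → 0 < η → ∃ K : ℕ, ∀ k : ℕ, K ≤ k →
  ∀ (M : Multiset ℂ) (Z : ℂ → ℂ), Box (2 ^ (5 * k)) M Z →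
    (((Finset.range (2 ^ (k - ee d k))).filter (fun j =>
      1/100 * (2 : ℝ) ^ k ≤ ‖line p (lamk p d k) (2 ^ (5 * k)) Z (uu d k j)‖)).card : ℝ) ≤
      (2 : ℝ) ^ ((0.15 + 2 * d + 3 * η) * k)

/-- E12: high zeros are negligible -/
def HighZerosG : Prop := ∀ d η : ℝ, -(1 / 2) ≤ d → d ≤ 34/100 → 0 < η → ∃ p : ℕ, 1 ≤ p ∧ ∃ K : ℕ, ∀ k : ℕ, K ≤ k →
  ∀ (M : Multiset ℂ) (Z : ℂ → ℂ), Box (2 ^ (5 * k)) M Z → ∀ j < 2 ^ (k - ee d k),
    ((M.filter (fun ρ => (2 : ℝ) ^ ((1/2 + d + η) * k) < |ρ.im|)).map (fun ρ =>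
      ‖Complex.exp (ρ * uu d k j) * KK (lamk p d k) ρ ^ p‖)).sum ≤ 1

/-- the zeros with `57/100 < Re ρ` and `|Im ρ| ≤ 2^(s k)` -/
def zeroSetG (s : ℝ) (k : ℕ) : Set ℂ :=
  {ρ : ℂ | riemannZeta ρ = 0 ∧ 57/100 < ρ.re ∧ |ρ.im| ≤ (2 : ℝ) ^ (s * k)}

/-- explicit formula for cells of length `2^⌊k (1/2 - d)⌋`, `-1/2 ≤ d ≤ 34/100`, with room `η` -/
def ExplicitCellsG : Prop := ∀ d η : ℝ, -(1 / 2) ≤ d → d ≤ 34/100 → 0 < η → η ≤ 1 →
  ∃ c₀ : ℝ, 0 < c₀ ∧ ∃ K : ℕ, ∀ k : ℕ, K ≤ k →
  ∃ (c : ℂ → ℂ) (Ex : Finset ℕ), (∀ ρ : ℂ, 0 ≤ ρ.re → ρ.re ≤ 1 → ‖c ρ‖ ≤ 2) ∧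
    (Ex.card : ℝ) ≤ (2 : ℝ) ^ ((0.15 + 2 * d + 3 * η) * k) ∧
    ∀ j < 2 ^ (k - ee d k), j ∉ Ex → Few c₀ d k j →
      ∀ S : Finset ℂ, (∀ ρ, ρ ∈ S ↔ ρ ∈ zeroSetG (1/2 + d + η) k) →
      3/4 ≤ ‖∑ ρ ∈ S, (analyticOrderNatAt riemannZeta ρ : ℂ) * c ρ *
        Complex.exp ((ρ - 1) * uu d k j)‖

end Pool.Agent.M20.Helper1.KL
end

/- Helper53.KN.Helper33.KSZ.Landau -/
section
/-! KSZ A8: Landau's lemma. Zeros of an analytic function in a disc, with multiplicities
`analyticOrderNatAt`, their number, and the logarithmic derivative near the centre. -/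

set_option autoImplicit false
open Filter Topology Complex Metric

namespace Pool.Agent.M20.Helper33.KSZ

/-- dividing out one point -/
lemma factor_one {s₀ : ℂ} {R : ℝ} {F : ℂ → ℂ} (hF : DifferentiableOn ℂ F (ball s₀ R))
    (hne : ∃ z ∈ ball s₀ R, F z ≠ 0) {c : ℂ} (hc : c ∈ ball s₀ R) :
    ∃ g : ℂ → ℂ, DifferentiableOn ℂ g (ball s₀ R) ∧ g c ≠ 0 ∧
      ∀ z, F z = (z - c) ^ (analyticOrderNatAt F c) * g z := by
  have hFa : AnalyticOnNhd ℂ F (ball s₀ R) := hF.analyticOnNhd isOpen_ball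
  obtain ⟨p, hp⟩ := hFa c hc
  have hconn : IsPreconnected (ball s₀ R) := (convex_ball s₀ R).isPreconnected
  have hnot : ¬ ∀ᶠ z in 𝓝 c, F z = 0 := by
    intro h1
    obtain ⟨z, hz, hz0⟩ := hne
    exact hz0 (hFa.eqOn_zero_of_preconnected_of_eventuallyEq_zero hconn hc h1 hz)
  have hp0 : p ≠ 0 := fun h => hnot (hp.locally_zero_iff.2 h)
  have hdiff : ∀ n : ℕ, DifferentiableOn ℂ ((Function.swap dslope c)^[n] F) (ball s₀ R) := by
    intro n
    induction n with
    | zero => exact hF
    | succ n ih =>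
      rw [Function.iterate_succ_apply']
      exact (Complex.differentiableOn_dslope (isOpen_ball.mem_nhds hc)).2 ih
  have hgc := hp.iterate_dslope_fslope_ne_zero hp0
  have heq : ∀ z, F z = (z - c) ^ p.order * ((Function.swap dslope c)^[p.order] F) z := by
    intro z
    have h2 := hp.eq_pow_order_mul_iterate_dslope z
    simpa using h2
  have hord : analyticOrderNatAt F c = p.order := by
    rw [(hFa c hc).analyticOrderNatAt_eq_iff]
    · refine ⟨_, (hdiff p.order).analyticAt (isOpen_ball.mem_nhds hc), hgc, ?_⟩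
      exact Eventually.of_forall fun z => by rw [smul_eq_mul]; exact heq z
    · rw [Ne, analyticOrderAt_eq_top]
      exact hnot
  refine ⟨_, hdiff p.order, hgc, ?_⟩
  rw [hord]
  exact heq

/-- dividing out finitely many points -/
lemma factor_fin {s₀ : ℂ} {R : ℝ} (S : Finset ℂ) : ∀ {F : ℂ → ℂ},
    DifferentiableOn ℂ F (ball s₀ R) → (∃ z ∈ ball s₀ R, F z ≠ 0) →
    (∀ c ∈ S, c ∈ ball s₀ R) →
    ∃ g : ℂ → ℂ, DifferentiableOn ℂ g (ball s₀ R) ∧ (∀ c ∈ S, g c ≠ 0) ∧
      ∀ z, F z = (∏ c ∈ S, (z - c) ^ (analyticOrderNatAt F c)) * g z := by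
  classical
  induction S using Finset.induction_on with
  | empty =>
    intro F hF hne hS
    exact ⟨F, hF, by simp, by simp⟩
  | insert a S haS ih =>
    intro F hF hne hS
    have haB : a ∈ ball s₀ R := hS a (Finset.mem_insert_self a S)
    obtain ⟨g, hg, hga, hFg⟩ := factor_one hF hne haB
    obtain ⟨z1, hz1, hz1'⟩ := hne
    have hgne : ∃ z ∈ ball s₀ R, g z ≠ 0 := ⟨a, haB, hga⟩
    obtain ⟨G, hG, hG0, hgG⟩ := ih hg hgne fun c hc => hS c (Finset.mem_insert_of_mem hc)
    set n := analyticOrderNatAt F a with hn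
    have hordS : ∀ c ∈ S, analyticOrderNatAt F c = analyticOrderNatAt g c := by
      intro c hc
      have hcB : c ∈ ball s₀ R := hS c (Finset.mem_insert_of_mem hc)
      have hca : c ≠ a := by
        rintro rfl
        exact haS hc
      have h1 : AnalyticAt ℂ (fun z : ℂ => (z - a) ^ n) c := by fun_prop
      have h2 : AnalyticAt ℂ g c := hg.analyticAt (isOpen_ball.mem_nhds hcB)
      have h3 : F = (fun z : ℂ => (z - a) ^ n) * g := by
        funext z
        rw [Pi.mul_apply]
        exact hFg z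
      have h4 : analyticOrderAt (fun z : ℂ => (z - a) ^ n) c = 0 := by
        rw [h1.analyticOrderAt_eq_zero]
        exact pow_ne_zero _ (sub_ne_zero.2 hca)
      have h5 : analyticOrderAt F c = analyticOrderAt g c := by
        rw [h3, analyticOrderAt_mul h1 h2, h4, zero_add]
      unfold analyticOrderNatAt
      rw [h5]
    refine ⟨G, hG, ?_, ?_⟩
    · intro c hc
      rcases Finset.mem_insert.1 hc with rfl | hc
      · intro h0
        apply hga
        rw [hgG, h0, mul_zero]
      · exact hG0 c hc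
    · intro z
      rw [Finset.prod_insert haS, Finset.prod_congr rfl fun c hc => by rw [hordS c hc], hFg, hgG,
        mul_assoc]

/-- finitely many zeros in a smaller closed disc -/
lemma zeros_finite {s₀ : ℂ} {R r : ℝ} (hr : r < R) {F : ℂ → ℂ}
    (hF : DifferentiableOn ℂ F (ball s₀ R)) (hne : ∃ z ∈ ball s₀ R, F z ≠ 0) :
    {z : ℂ | z ∈ closedBall s₀ r ∧ F z = 0}.Finite := by
  by_contra hinf
  have hinf' : {z : ℂ | z ∈ closedBall s₀ r ∧ F z = 0}.Infinite := hinf
  obtain ⟨x, hx, hacc⟩ := hinf'.exists_accPt_of_subset_isCompact (isCompact_closedBall s₀ r)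
    (fun z hz => hz.1)
  have hxB : x ∈ ball s₀ R := closedBall_subset_ball hr hx
  have hFa : AnalyticOnNhd ℂ F (ball s₀ R) := hF.analyticOnNhd isOpen_ball
  have hconn : IsPreconnected (ball s₀ R) := (convex_ball s₀ R).isPreconnected
  have hfreq : ∃ᶠ z in 𝓝[≠] x, F z = 0 := by
    rw [accPt_iff_frequently_nhdsNE] at hacc
    exact hacc.mono fun z hz => hz.2
  obtain ⟨z, hz, hz0⟩ := hne
  exact hz0 (hFa.eqOn_zero_of_preconnected_of_frequently_eq_zero hconn hxB hfreq hz)

/-- the reflected linear factor, `(r² - conj (c - s₀) (z - s₀)) / r` -/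
noncomputable def Bl (s₀ : ℂ) (r : ℝ) (c z : ℂ) : ℂ :=
  ((r : ℂ) ^ 2 - (starRingEnd ℂ) (c - s₀) * (z - s₀)) / r

lemma Bl_norm_circle {s₀ : ℂ} {r : ℝ} (hr : 0 < r) {c z : ℂ} (hz : ‖z - s₀‖ = r) :
    ‖Bl s₀ r c z‖ = ‖z - c‖ := by
  have h1 : (r : ℂ) ^ 2 = (starRingEnd ℂ) (z - s₀) * (z - s₀) := by
    rw [mul_comm, Complex.mul_conj, Complex.normSq_eq_norm_sq, hz]
    push_cast
    ring
  have h2 : (r : ℂ) ^ 2 - (starRingEnd ℂ) (c - s₀) * (z - s₀) =
      (starRingEnd ℂ) (z - c) * (z - s₀) := by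
    rw [h1, ← sub_mul, ← map_sub]
    congr 2
    ring
  rw [Bl, h2, norm_div, norm_mul, RCLike.norm_conj, hz, Complex.norm_real, Real.norm_eq_abs,
    abs_of_pos hr]
  field_simp

lemma Bl_differentiable (s₀ : ℂ) (r : ℝ) (c : ℂ) : Differentiable ℂ (Bl s₀ r c) := by
  unfold Bl
  fun_prop

lemma Bl_center (s₀ : ℂ) {r : ℝ} (hr : 0 < r) (c : ℂ) : Bl s₀ r c s₀ = r := by
  have : (r : ℂ) ≠ 0 := by exact_mod_cast hr.ne'
  rw [Bl, sub_self, mul_zero, sub_zero]
  field_simp

lemma Bl_lower {s₀ : ℂ} {R : ℝ} (hR : 0 < R) {c z : ℂ} (hc : ‖c - s₀‖ ≤ R / 2)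
    (hz : ‖z - s₀‖ ≤ R / 2) :
    5 / 16 * R ^ 2 ≤ ‖((3 * R / 4 : ℝ) : ℂ) ^ 2 - (starRingEnd ℂ) (c - s₀) * (z - s₀)‖ := by
  have h1 := norm_sub_norm_le (((3 * R / 4 : ℝ) : ℂ) ^ 2) ((starRingEnd ℂ) (c - s₀) * (z - s₀))
  rw [norm_pow, Complex.norm_real, Real.norm_eq_abs, abs_of_pos (by positivity), norm_mul,
    RCLike.norm_conj] at h1
  have h2 : ‖c - s₀‖ * ‖z - s₀‖ ≤ R / 2 * (R / 2) :=
    mul_le_mul hc hz (norm_nonneg _) (by positivity)
  (clear * - h1 h2; nlinarith)

lemma Bl_lower' {s₀ : ℂ} {R : ℝ} (hR : 0 < R) {c z : ℂ} (hc : ‖c - s₀‖ ≤ R / 2)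
    (hz : ‖z - s₀‖ ≤ R / 4) :
    7 / 16 * R ^ 2 ≤ ‖((3 * R / 4 : ℝ) : ℂ) ^ 2 - (starRingEnd ℂ) (c - s₀) * (z - s₀)‖ := by
  have h1 := norm_sub_norm_le (((3 * R / 4 : ℝ) : ℂ) ^ 2) ((starRingEnd ℂ) (c - s₀) * (z - s₀))
  rw [norm_pow, Complex.norm_real, Real.norm_eq_abs, abs_of_pos (by positivity), norm_mul,
    RCLike.norm_conj] at h1
  have h2 : ‖c - s₀‖ * ‖z - s₀‖ ≤ R / 2 * (R / 4) :=
    mul_le_mul hc hz (norm_nonneg _) (by positivity)
  (clear * - h1 h2; nlinarith)

lemma Bl_logDeriv {s₀ : ℂ} {R : ℝ} (hR : 0 < R) {c z : ℂ} (hc : ‖c - s₀‖ ≤ R / 2)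
    (hz : ‖z - s₀‖ ≤ R / 4) : ‖logDeriv (Bl s₀ (3 * R / 4) c) z‖ ≤ 2 / R := by
  have h1 := Bl_lower' hR hc hz
  have hr : ((3 * R / 4 : ℝ) : ℂ) ≠ 0 := by
    exact_mod_cast (by positivity : (3 * R / 4 : ℝ) ≠ 0)
  have h2 : HasDerivAt (Bl s₀ (3 * R / 4) c)
      (-(starRingEnd ℂ) (c - s₀) / ((3 * R / 4 : ℝ) : ℂ)) z := by
    have h3 : HasDerivAt (fun z : ℂ => z - s₀) 1 z := (hasDerivAt_id z).sub_const s₀
    have h4 := ((h3.const_mul ((starRingEnd ℂ) (c - s₀))).const_sub
      (((3 * R / 4 : ℝ) : ℂ) ^ 2)).div_const ((3 * R / 4 : ℝ) : ℂ)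
    rw [mul_one] at h4
    exact h4
  rw [logDeriv_apply, h2.deriv, Bl]
  have hne : ((3 * R / 4 : ℝ) : ℂ) ^ 2 - (starRingEnd ℂ) (c - s₀) * (z - s₀) ≠ 0 := by
    intro h0
    rw [h0, norm_zero] at h1
    (clear * - h1 hR; nlinarith)
  have h5 : -(starRingEnd ℂ) (c - s₀) / ((3 * R / 4 : ℝ) : ℂ) /
      ((((3 * R / 4 : ℝ) : ℂ) ^ 2 - (starRingEnd ℂ) (c - s₀) * (z - s₀)) /
        ((3 * R / 4 : ℝ) : ℂ)) =
      -(starRingEnd ℂ) (c - s₀) /
        (((3 * R / 4 : ℝ) : ℂ) ^ 2 - (starRingEnd ℂ) (c - s₀) * (z - s₀)) := by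
    field_simp
  rw [h5, norm_div, norm_neg, RCLike.norm_conj, div_le_div_iff₀ (by (clear * - h1 hR; nlinarith)) hR]
  (clear * - h1 hR hc; nlinarith)

/-- **Landau's lemma.** -/
theorem landau {s₀ : ℂ} {R M : ℝ} {F : ℂ → ℂ} (hR : 0 < R) (hM : 0 < M)
    (hF : DifferentiableOn ℂ F (ball s₀ R)) (h0 : F s₀ ≠ 0)
    (hb : ∀ z ∈ ball s₀ R, ‖F z‖ ≤ Real.exp M * ‖F s₀‖) :
    ∃ S : Finset ℂ, (∀ z, z ∈ S ↔ z ∈ closedBall s₀ (R / 2) ∧ F z = 0) ∧
      (∑ c ∈ S, (analyticOrderNatAt F c : ℝ)) ≤ 3 * M ∧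
      ∀ z ∈ closedBall s₀ (R / 4), F z ≠ 0 →
        ‖deriv F z / F z - ∑ c ∈ S, (analyticOrderNatAt F c : ℂ) / (z - c)‖ ≤ 54 * M / R := by
  classical
  have hs0B : s₀ ∈ ball s₀ R := mem_ball_self hR
  have hfin := zeros_finite (r := R / 2) (by (clear * - hR; linarith)) hF ⟨s₀, hs0B, h0⟩
  set S : Finset ℂ := hfin.toFinset with hS
  have hSmem : ∀ z, z ∈ S ↔ z ∈ closedBall s₀ (R / 2) ∧ F z = 0 := by
    intro z
    rw [hS, Set.Finite.mem_toFinset]
    rfl
  have hSn : ∀ c ∈ S, ‖c - s₀‖ ≤ R / 2 := by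
    intro c hc
    have := ((hSmem c).1 hc).1
    rwa [mem_closedBall, dist_eq_norm] at this
  exact by
    obtain ⟨g, hg, hgS, hFg⟩ := factor_fin S hF ⟨s₀, hs0B, h0⟩ (fun c hc => by
      rw [mem_ball, dist_eq_norm]
      (clear * - hR hSn hc; linarith [hSn c hc]))
    set m : ℂ → ℕ := fun c => analyticOrderNatAt F c with hm
    set r : ℝ := 3 * R / 4 with hr
    have hr0 : 0 < r := by positivity
    set P : ℂ → ℂ := fun z => ∏ c ∈ S, Bl s₀ r c z ^ m c with hP
    set h : ℂ → ℂ := fun z => P z * g z with hh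
    set N : ℕ := ∑ c ∈ S, m c with hN
    exact by
      have hPd : Differentiable ℂ P := by
        rw [hP]
        exact Differentiable.fun_finsetProd fun c _ => (Bl_differentiable s₀ r c).pow _
      have hhd : DifferentiableOn ℂ h (ball s₀ R) := hPd.differentiableOn.mul hg
      -- bound on the circle
      have hcirc : ∀ z : ℂ, ‖z - s₀‖ = r → ‖h z‖ ≤ Real.exp M * ‖F s₀‖ := by
        intro z hz
        have hzB : z ∈ ball s₀ R := by
          rw [mem_ball, dist_eq_norm, hz]
          (clear * - hr hr0; linarith)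
        have h1 : ‖h z‖ = ‖F z‖ := by
          rw [hFg z]
          simp only [hh, hP, norm_mul, norm_prod, norm_pow]
          congr 1
          exact Finset.prod_congr rfl fun c hc => by rw [Bl_norm_circle hr0 hz]
        rw [h1]
        exact hb z hzB
      have hmax : ∀ z : ℂ, ‖z - s₀‖ ≤ r → ‖h z‖ ≤ Real.exp M * ‖F s₀‖ := by
        intro z hz
        have hd : DiffContOnCl ℂ h (ball s₀ r) := by
          refine DifferentiableOn.diffContOnCl ?_
          rw [closure_ball s₀ hr0.ne']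
          exact hhd.mono (closedBall_subset_ball (by (clear * - hr hr0; linarith)))
        refine Complex.norm_le_of_forall_mem_frontier_norm_le isBounded_ball hd ?_ ?_
        · intro w hw
          rw [frontier_ball s₀ hr0.ne', mem_sphere, dist_eq_norm] at hw
          exact hcirc w hw
        · rw [closure_ball s₀ hr0.ne', mem_closedBall, dist_eq_norm]
          exact hz
      -- the centre
      have hgs : ‖h s₀‖ = r ^ N * ‖g s₀‖ := by
        have h1 : h s₀ = (∏ c ∈ S, (r : ℂ) ^ m c) * g s₀ := by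
          simp only [hh, hP]
          congr 1
          exact Finset.prod_congr rfl fun c hc => by rw [Bl_center s₀ hr0]
        rw [h1, Finset.prod_pow_eq_pow_sum, norm_mul, norm_pow, Complex.norm_real, Real.norm_eq_abs,
          abs_of_pos hr0]
      have hFs : ‖F s₀‖ ≤ (R / 2) ^ N * ‖g s₀‖ := by
        rw [hFg s₀, norm_mul, norm_prod]
        refine mul_le_mul_of_nonneg_right ?_ (norm_nonneg _)
        rw [hN, ← Finset.prod_pow_eq_pow_sum]
        refine Finset.prod_le_prod (fun _ _ => norm_nonneg _) fun c hc => ?_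
        rw [norm_pow]
        refine pow_le_pow_left₀ (norm_nonneg _) ?_ _
        rw [norm_sub_rev]
        exact hSn c hc
      exact by
        have hF0 : 0 < ‖F s₀‖ := norm_pos_iff.2 h0
        have hratio : (3 / 2 : ℝ) ^ N * ‖F s₀‖ ≤ ‖h s₀‖ := by
          calc (3 / 2 : ℝ) ^ N * ‖F s₀‖ ≤ (3 / 2 : ℝ) ^ N * ((R / 2) ^ N * ‖g s₀‖) := by (clear * - hFs; gcongr)
            _ = (3 / 2 * (R / 2)) ^ N * ‖g s₀‖ := by rw [mul_pow]; ring
            _ = ‖h s₀‖ := by
              rw [hgs, hr]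
              congr 2
              ring
        have hpow : (3 / 2 : ℝ) ^ N ≤ Real.exp M := by
          have h1 := hmax s₀ (by rw [sub_self, norm_zero]; exact hr0.le)
          have h2 := hratio.trans h1
          exact le_of_mul_le_mul_right h2 hF0
        have hNM : (N : ℝ) ≤ 3 * M := by
          have h1 : Real.log ((3 / 2 : ℝ) ^ N) ≤ M := by
            rw [Real.log_le_iff_le_exp (by positivity)]
            exact hpow
          rw [Real.log_pow] at h1
          have h2 : (1 / 3 : ℝ) ≤ Real.log (3 / 2) := by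
            have h3 := Real.one_sub_inv_le_log_of_pos (by norm_num : (0 : ℝ) < 3 / 2)
            norm_num at h3
            exact h3
          have h4 : (0 : ℝ) ≤ N := Nat.cast_nonneg N
          (clear * - h1 h2; nlinarith)
        have hsN : (∑ c ∈ S, (analyticOrderNatAt F c : ℝ)) = N := by
          rw [hN]
          push_cast
          rfl
        refine ⟨S, hSmem, by rw [hsN]; exact hNM, ?_⟩
        intro z hz hFz
        have hzn : ‖z - s₀‖ ≤ R / 4 := by
          rwa [mem_closedBall, dist_eq_norm] at hz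
        exact by
          have hzB : z ∈ ball s₀ R := by
            rw [mem_ball, dist_eq_norm]
            (clear * - hR hzn; linarith)
          have hgz : g z ≠ 0 := by
            intro h1
            apply hFz
            rw [hFg, h1, mul_zero]
          have hh0 : ‖F s₀‖ ≤ ‖h s₀‖ := by
            refine le_trans ?_ hratio
            have : (1 : ℝ) ≤ (3 / 2 : ℝ) ^ N := one_le_pow₀ (by norm_num)
            (clear * - hF0 this; nlinarith)
          have hhs0 : h s₀ ≠ 0 := norm_pos_iff.1 (hF0.trans_le hh0)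
          -- non-vanishing of h
          have hhne : ∀ w : ℂ, ‖w - s₀‖ ≤ R / 2 → h w ≠ 0 := by
            intro w hw
            have hwB : w ∈ ball s₀ R := by
              rw [mem_ball, dist_eq_norm]
              (clear * - hR hw; linarith)
            refine mul_ne_zero ?_ ?_
            · rw [hP]
              refine Finset.prod_ne_zero_iff.2 fun c hc => pow_ne_zero _ ?_
              intro h1
              have h2 := Bl_lower hR (hSn c hc) hw
              rw [Bl, div_eq_zero_iff] at h1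
              rcases h1 with h1 | h1
              · rw [← hr, h1, norm_zero] at h2
                (clear * - h2 hR; nlinarith)
              · exact hr0.ne' (by exact_mod_cast h1)
            · intro h1
              have h2 : F w = 0 := by rw [hFg, h1, mul_zero]
              have h3 : w ∈ S := (hSmem w).2 ⟨by rw [mem_closedBall, dist_eq_norm]; exact hw, h2⟩
              exact hgS w h3 h1
          set H : ℂ → ℂ := fun w => h (s₀ + w) / h s₀ with hH
          exact by
            have hHd : DifferentiableOn ℂ H (ball 0 (R / 2)) := by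
              refine DifferentiableOn.div_const ?_ _
              refine hhd.comp (by fun_prop) ?_
              intro w hw
              rw [mem_ball_zero_iff] at hw
              show s₀ + w ∈ ball s₀ R
              rw [mem_ball, dist_eq_norm, add_sub_cancel_left]
              (clear * - hR hw; linarith)
            have hHne : ∀ w ∈ ball (0 : ℂ) (R / 2), H w ≠ 0 := by
              intro w hw
              rw [mem_ball_zero_iff] at hw
              exact div_ne_zero (hhne _ (by rw [add_sub_cancel_left]; exact hw.le)) hhs0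
            have hH0 : H 0 = 1 := by
              rw [hH]
              show h (s₀ + 0) / h s₀ = 1
              rw [add_zero, div_self hhs0]
            have hHb : ∀ w ∈ ball (0 : ℂ) (R / 2), ‖H w‖ ≤ Real.exp M := by
              intro w hw
              rw [mem_ball_zero_iff] at hw
              show ‖h (s₀ + w) / h s₀‖ ≤ _
              rw [norm_div, div_le_iff₀ (norm_pos_iff.2 hhs0)]
              refine (hmax _ (by rw [add_sub_cancel_left]; (clear * - hr hr0 hw; linarith))).trans ?_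
              (clear * - hh0; gcongr)
            have hw : ‖z - s₀‖ ≤ R / 4 := hzn
            have hmain := Pool.Agent.M20.Helper69.QRH.logDeriv_bound (r₁ := R / 4) (r₂ := 3 * R / 8)
              (by positivity) (by (clear * - hR; linarith)) (by (clear * - hR; linarith)) hM hHd hHne hH0 hHb hw
            exact by
              have hcalc : 2 * M * (3 * R / 8) / (R / 2 - 3 * R / 8) / (3 * R / 8 - R / 4) = 48 * M / R := by
                have h1 : R / 2 - 3 * R / 8 = R / 8 := by ring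
                have h2 : 3 * R / 8 - R / 4 = R / 8 := by ring
                rw [h1, h2]
                field_simp
                ring
              rw [hcalc] at hmain
              -- derivative of H
              have hhz : DifferentiableAt ℂ h z := hhd.differentiableAt (isOpen_ball.mem_nhds hzB)
              have hHz : deriv H (z - s₀) / H (z - s₀) = logDeriv h z := by
                have h1 : HasDerivAt (fun w : ℂ => s₀ + w) 1 (z - s₀) := (hasDerivAt_id _).const_add s₀
                have h2 : HasDerivAt h (deriv h z) (s₀ + (z - s₀)) := by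
                  rw [add_sub_cancel]
                  exact hhz.hasDerivAt
                have h3 : HasDerivAt H (deriv h z * 1 / h s₀) (z - s₀) := (h2.comp _ h1).div_const _
                rw [h3.deriv, logDeriv_apply]
                show deriv h z * 1 / h s₀ / (h (s₀ + (z - s₀)) / h s₀) = _
                rw [add_sub_cancel]
                have := hhne z (by (clear * - hR hzn; linarith))
                (clear * - hhs0 this; field_simp)
              rw [hHz] at hmain
              -- logarithmic derivatives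
              have hBne : ∀ c ∈ S, Bl s₀ r c z ≠ 0 := by
                intro c hc h1
                have h2 := Bl_lower hR (hSn c hc) (by (clear * - hR hzn; linarith) : ‖z - s₀‖ ≤ R / 2)
                rw [Bl, div_eq_zero_iff] at h1
                rcases h1 with h1 | h1
                · rw [← hr, h1, norm_zero] at h2
                  (clear * - h2 hR; nlinarith)
                · exact hr0.ne' (by exact_mod_cast h1)
              have hgzd : DifferentiableAt ℂ g z := hg.differentiableAt (isOpen_ball.mem_nhds hzB)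
              have hlP : logDeriv P z = ∑ c ∈ S, (m c : ℂ) * logDeriv (Bl s₀ r c) z := by
                rw [hP, logDeriv_prod (f := fun c z => Bl s₀ r c z ^ m c)
                  (fun c hc => pow_ne_zero _ (hBne c hc))
                  (fun c _ => ((Bl_differentiable s₀ r c).pow _) z)]
                exact Finset.sum_congr rfl fun c _ => logDeriv_fun_pow (Bl_differentiable s₀ r c z) _
              have hlh : logDeriv h z = ∑ c ∈ S, (m c : ℂ) * logDeriv (Bl s₀ r c) z + logDeriv g z := by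
                rw [hh, logDeriv_mul (f := P) (g := g) z
                  (by rw [hP]; exact Finset.prod_ne_zero_iff.2 fun c hc => pow_ne_zero _ (hBne c hc)) hgz
                  (hPd z) hgzd, hlP]
              exact by
                have hzS : ∀ c ∈ S, z - c ≠ 0 := by
                  intro c hc h1
                  rw [sub_eq_zero] at h1
                  rw [h1] at hFz
                  exact hFz ((hSmem c).1 hc).2
                have hlF : deriv F z / F z = ∑ c ∈ S, (m c : ℂ) / (z - c) + logDeriv g z := by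
                  rw [← logDeriv_apply]
                  have h1 : F = fun z => (∏ c ∈ S, (z - c) ^ m c) * g z := funext hFg
                  conv_lhs => rw [h1]
                  rw [logDeriv_mul (f := fun z => ∏ c ∈ S, (z - c) ^ m c) (g := g) z
                    (Finset.prod_ne_zero_iff.2 fun c hc => pow_ne_zero _ (hzS c hc)) hgz
                    (DifferentiableAt.fun_finsetProd fun c _ => by fun_prop) hgzd,
                    logDeriv_prod (f := fun c z => (z - c) ^ m c)
                    (fun c hc => pow_ne_zero _ (hzS c hc)) (fun c _ => by fun_prop)]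
                  congr 1
                  refine Finset.sum_congr rfl fun c _ => ?_
                  rw [logDeriv_fun_pow (f := fun z => z - c) (by fun_prop), logDeriv_apply]
                  have h3 : HasDerivAt (fun z : ℂ => z - c) 1 z := (hasDerivAt_id z).sub_const c
                  rw [h3.deriv]
                  ring
                have hdiff : deriv F z / F z - ∑ c ∈ S, (analyticOrderNatAt F c : ℂ) / (z - c) =
                    logDeriv h z - ∑ c ∈ S, (m c : ℂ) * logDeriv (Bl s₀ r c) z := by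
                  rw [hlF, hlh]
                  simp only [hm]
                  ring
                rw [hdiff]
                refine (norm_sub_le _ _).trans ?_
                have hsum : ‖∑ c ∈ S, (m c : ℂ) * logDeriv (Bl s₀ r c) z‖ ≤ 3 * M * (2 / R) := by
                  refine (norm_sum_le _ _).trans ?_
                  calc ∑ c ∈ S, ‖(m c : ℂ) * logDeriv (Bl s₀ r c) z‖ ≤ ∑ c ∈ S, (m c : ℝ) * (2 / R) := by
                        refine Finset.sum_le_sum fun c hc => ?_
                        rw [norm_mul, Complex.norm_natCast]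
                        exact mul_le_mul_of_nonneg_left (Bl_logDeriv hR (hSn c hc) hzn) (Nat.cast_nonneg _)
                    _ = (N : ℝ) * (2 / R) := by
                        rw [← Finset.sum_mul, hN]
                        push_cast
                        rfl
                    _ ≤ 3 * M * (2 / R) := by (clear * - hNM hR; gcongr)
                calc ‖logDeriv h z‖ + ‖∑ c ∈ S, (m c : ℂ) * logDeriv (Bl s₀ r c) z‖
                    ≤ 48 * M / R + 3 * M * (2 / R) := add_le_add hmain hsum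
                  _ = 54 * M / R := by ring

end Pool.Agent.M20.Helper33.KSZ
end

/- Helper53.KN.Helper69.QRH.A1 -/
section
/-! QRH-A1: dividing out finitely many zeros of an entire function. -/

set_option autoImplicit false
open Filter Topology Complex

namespace Pool.Agent.M20.Helper69.QRH

open Pool.Agent.M20.Helper10.QRH

lemma differentiable_dslope {F : ℂ → ℂ} (hF : Differentiable ℂ F) (c : ℂ) :
    Differentiable ℂ (dslope F c) := by
  rw [← differentiableOn_univ] at hF ⊢
  exact (Complex.differentiableOn_dslope Filter.univ_mem).2 hF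

lemma differentiable_iterate_dslope {F : ℂ → ℂ} (hF : Differentiable ℂ F) (c : ℂ) (n : ℕ) :
    Differentiable ℂ ((Function.swap dslope c)^[n] F) := by
  induction n with
  | zero => exact hF
  | succ n ih =>
    rw [Function.iterate_succ_apply']
    exact differentiable_dslope ih c

/-- an entire function that is not identically zero, at one point -/
lemma exists_factor {F : ℂ → ℂ} (hF : Differentiable ℂ F) (hne : ∃ z, F z ≠ 0) (c : ℂ) :
    ∃ (n : ℕ) (g : ℂ → ℂ), Differentiable ℂ g ∧ g c ≠ 0 ∧ ∀ z, F z = (z - c) ^ n * g z := by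
  have hFa : AnalyticOnNhd ℂ F Set.univ := hF.differentiableOn.analyticOnNhd isOpen_univ
  obtain ⟨p, hp⟩ := hFa c (Set.mem_univ c)
  have hp0 : p ≠ 0 := by
    intro h
    obtain ⟨z, hz⟩ := hne
    have h1 : ∀ᶠ z in 𝓝 c, F z = 0 := hp.locally_zero_iff.2 h
    exact hz (hFa.eqOn_zero_of_preconnected_of_eventuallyEq_zero isPreconnected_univ
      (Set.mem_univ c) h1 (Set.mem_univ z))
  refine ⟨p.order, (Function.swap dslope c)^[p.order] F,
    differentiable_iterate_dslope hF c _, hp.iterate_dslope_fslope_ne_zero hp0, ?_⟩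
  intro z
  have h2 := hp.eq_pow_order_mul_iterate_dslope z
  simpa using h2

theorem factor_aux (U : Set ℂ) (S : Finset ℂ) : ∀ (F : ℂ → ℂ), Differentiable ℂ F →
    (∃ z ∈ U, F z ≠ 0) → {z : ℂ | z ∈ U ∧ F z = 0} = ↑S →
    ∃ (M : Multiset ℂ) (Z : ℂ → ℂ), Differentiable ℂ Z ∧ (∀ z ∈ U, Z z ≠ 0) ∧
      (∀ ρ ∈ M, ρ ∈ U ∧ F ρ = 0) ∧ ∀ z, F z = (M.map (fun ρ => z - ρ)).prod * Z z := by
  classical
  induction S using Finset.induction_on with
  | empty =>
    intro F hF hne hS
    refine ⟨0, F, hF, fun z hz h0 => ?_, fun ρ hρ => by simp at hρ, fun z => by simp⟩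
    have : z ∈ {z : ℂ | z ∈ U ∧ F z = 0} := ⟨hz, h0⟩
    rw [hS] at this
    simp at this
  | insert a S haS ih =>
    intro F hF hne hS
    have ha : a ∈ U ∧ F a = 0 := by
      have : a ∈ {z : ℂ | z ∈ U ∧ F z = 0} := by rw [hS]; simp
      exact this
    obtain ⟨z0, hz0, hz0'⟩ := hne
    obtain ⟨n, g, hg, hga, hFg⟩ := exists_factor hF ⟨z0, hz0'⟩ a
    have hn : n ≠ 0 := by
      rintro rfl
      have h1 := hFg a
      rw [ha.2, pow_zero, one_mul] at h1
      exact hga h1.symm
    obtain ⟨M, Z, hZ, hZ0, hM, hgM⟩ := ih g hg ⟨a, ha.1, hga⟩ (by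
      ext z
      constructor
      · rintro ⟨hz, hgz⟩
        have h1 : z ∈ {z : ℂ | z ∈ U ∧ F z = 0} := ⟨hz, by rw [hFg, hgz, mul_zero]⟩
        rw [hS, Finset.coe_insert] at h1
        rcases h1 with h1 | h1
        · rw [h1] at hgz
          exact absurd hgz hga
        · exact h1
      · intro hz
        have h1 : z ∈ {z : ℂ | z ∈ U ∧ F z = 0} := by
          rw [hS, Finset.coe_insert]
          exact Or.inr hz
        refine ⟨h1.1, ?_⟩
        have hza : z - a ≠ 0 := by
          intro h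
          rw [sub_eq_zero] at h
          rw [h] at hz
          exact haS hz
        have h2 := h1.2
        rw [hFg] at h2
        exact (mul_eq_zero.1 h2).resolve_left (pow_ne_zero _ hza))
    refine ⟨Multiset.replicate n a + M, Z, hZ, hZ0, ?_, ?_⟩
    · intro ρ hρ
      rw [Multiset.mem_add] at hρ
      rcases hρ with hρ | hρ
      · rw [Multiset.eq_of_mem_replicate hρ]
        exact ha
      · exact ⟨(hM ρ hρ).1, by rw [hFg, (hM ρ hρ).2, mul_zero]⟩
    · intro z
      rw [Multiset.map_add, Multiset.prod_add, Multiset.map_replicate, Multiset.prod_replicate,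
        hFg, hgM, mul_assoc]

theorem factorFinite : FactorFinite := by
  intro F hF U _ _ hne hfin
  exact factor_aux U hfin.toFinset F hF hne (by simp)

end Pool.Agent.M20.Helper69.QRH
end

/- Helper53.KN.Helper33.KSZ.BoxEx -/
section
/-! KSZ-E1: all zeros of zeta in a box divided out of `EZ`. -/

set_option autoImplicit false
open Filter Topology Complex Metric

namespace Pool.Agent.M20.Helper33.KSZ

open Pool.Agent.M20.Helper10.QRH Pool.Agent.M20.Helper69.QRH

/-- the order of `EZ` and of zeta agree away from `1` -/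
lemma order_EZ {ρ : ℂ} (h1 : ρ ≠ 1) :
    analyticOrderAt EZ ρ = analyticOrderAt riemannZeta ρ := by
  have hev : EZ =ᶠ[𝓝 ρ] (fun z : ℂ => z - 1) * riemannZeta := by
    filter_upwards [isOpen_compl_singleton.mem_nhds (show ρ ∈ ({1} : Set ℂ)ᶜ from h1)] with z hz
    exact EZ_eq hz
  have hz : AnalyticAt ℂ riemannZeta ρ := by
    have h2 : DifferentiableOn ℂ riemannZeta ({1}ᶜ : Set ℂ) := fun z hz =>
      (differentiableAt_riemannZeta hz).differentiableWithinAt
    exact h2.analyticAt (isOpen_compl_singleton.mem_nhds h1)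
  have hl : AnalyticAt ℂ (fun z : ℂ => z - 1) ρ := by fun_prop
  have hl0 : analyticOrderAt (fun z : ℂ => z - 1) ρ = 0 := by
    rw [hl.analyticOrderAt_eq_zero]
    exact sub_ne_zero.2 h1
  rw [analyticOrderAt_congr hev, analyticOrderAt_mul hl hz, hl0, zero_add]

lemma orderNat_EZ {ρ : ℂ} (h1 : ρ ≠ 1) :
    analyticOrderNatAt EZ ρ = analyticOrderNatAt riemannZeta ρ := by
  unfold analyticOrderNatAt
  rw [order_EZ h1]

lemma Qp_replicate_add (n : ℕ) (a : ℂ) (M : Multiset ℂ) (z : ℂ) :
    Qp (Multiset.replicate n a + M) z = (z - a) ^ n * Qp M z := by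
  unfold Qp
  rw [Multiset.map_add, Multiset.prod_add, Multiset.map_replicate, Multiset.prod_replicate]

/-- the multiplicity in a factorisation is the order -/
lemma count_eq_order {M : Multiset ℂ} {Z : ℂ → ℂ} (hZ : Differentiable ℂ Z)
    (hfac : ∀ z, EZ z = Qp M z * Z z) {ρ : ℂ} (hρ : Z ρ ≠ 0) :
    M.count ρ = analyticOrderNatAt EZ ρ := by
  classical
  have hM : M = Multiset.replicate (M.count ρ) ρ + M.filter (fun c => ¬ ρ = c) := by
    rw [← Multiset.filter_eq, Multiset.filter_add_not]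
  set M' := M.filter (fun c => ¬ ρ = c) with hM'
  have hQ : Qp M' ρ ≠ 0 := by
    refine Qp_ne_zero _ _ fun c hc => ?_
    exact (Multiset.mem_filter.1 hc).2
  have hEa : AnalyticAt ℂ EZ ρ :=
    EZ_differentiable.differentiableOn.analyticAt (isOpen_univ.mem_nhds (Set.mem_univ ρ))
  have hga : AnalyticAt ℂ (fun z => Qp M' z * Z z) ρ :=
    ((Qp_differentiable M').mul hZ).differentiableOn.analyticAt
      (isOpen_univ.mem_nhds (Set.mem_univ ρ))
  have heq : ∀ z, EZ z = (z - ρ) ^ (M.count ρ) • (Qp M' z * Z z) := by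
    intro z
    rw [hfac z]
    conv_lhs => rw [hM, Qp_replicate_add]
    rw [smul_eq_mul, mul_assoc]
  symm
  have htop : analyticOrderAt EZ ρ = (M.count ρ : ℕ) := by
    rw [hEa.analyticOrderAt_eq_natCast]
    exact ⟨_, hga, mul_ne_zero hQ hρ, Eventually.of_forall heq⟩
  unfold analyticOrderNatAt
  rw [htop]
  rfl

theorem boxExists : Pool.Agent.M20.Helper46.KSZ.BoxExists := by
  intro T hT
  set U : Set ℂ := {z : ℂ | 3/5 < z.re ∧ |z.im| < T + 2} with hU
  have hUo : IsOpen U := by
    refine IsOpen.inter (isOpen_lt continuous_const Complex.continuous_re) ?_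
    exact isOpen_lt (continuous_abs.comp Complex.continuous_im) continuous_const
  have hUc : IsPreconnected U := by
    have h1 : U = {z : ℂ | 3/5 < z.re} ∩ ({z : ℂ | z.im < T + 2} ∩ {z : ℂ | -(T + 2) < z.im}) := by
      ext z
      simp only [hU, Set.mem_ofPred_eq, Set.mem_inter_iff, abs_lt]
      tauto
    rw [h1]
    exact ((convex_halfSpace_re_gt _).inter
      ((convex_halfSpace_im_lt _).inter (convex_halfSpace_im_gt _))).isPreconnected
  have hzero : ∀ z : ℂ, EZ z = 0 → riemannZeta z = 0 ∧ z.re < 1 := by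
    intro z hz
    have h1 : z ≠ 1 := by
      rintro rfl
      rw [EZ_one] at hz
      exact one_ne_zero hz
    rw [EZ_eq h1] at hz
    have h2 := (mul_eq_zero.1 hz).resolve_left (sub_ne_zero.2 h1)
    refine ⟨h2, ?_⟩
    by_contra h3
    exact riemannZeta_ne_zero_of_one_le_re (not_lt.1 h3) h2
  have hfin : {z : ℂ | z ∈ U ∧ EZ z = 0}.Finite := by
    have h1 := zeros_finite (s₀ := 0) (R := T + 10) (r := T + 4) (by linarith) (F := EZ)
      EZ_differentiable.differentiableOn
      ⟨1, by rw [mem_ball_zero_iff, norm_one]; linarith, by rw [EZ_one]; exact one_ne_zero⟩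
    refine h1.subset fun z hz => ⟨?_, hz.2⟩
    rw [mem_closedBall_zero_iff]
    have h2 := (hzero z hz.2).2
    have h3 : 3 / 5 < z.re := hz.1.1
    have h4 : |z.im| < T + 2 := hz.1.2
    refine (Complex.norm_le_abs_re_add_abs_im z).trans ?_
    rw [abs_of_pos (by linarith : 0 < z.re)]
    linarith
  obtain ⟨M, Z, hZ, hZ0, hM, hfac⟩ := factorFinite EZ EZ_differentiable U hUo hUc
    ⟨1, ⟨by norm_num, by simp only [Complex.one_im, abs_zero]; linarith⟩,
      by rw [EZ_one]; exact one_ne_zero⟩ hfin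
  refine ⟨M, Z, hZ, hfac, ?_, fun z h1 h2 => hZ0 z ⟨h1, h2⟩, ?_⟩
  · intro ρ hρ
    obtain ⟨h1, h2⟩ := hM ρ hρ
    obtain ⟨h3, h4⟩ := hzero ρ h2
    exact ⟨h3, h1.1, h4, h1.2⟩
  · intro ρ hρ h1 h2
    have h3 : ρ ≠ 1 := by
      rintro rfl
      exact riemannZeta_one_ne_zero hρ
    rw [← orderNat_EZ h3]
    have h4 := count_eq_order hZ hfac (hZ0 ρ ⟨h1, h2⟩)
    convert h4

end Pool.Agent.M20.Helper33.KSZ
end

/- Helper53.KN.Helper1.KL.BoxEx -/
section
/-! Box, existence: Helper33/KSZ/BoxEx.lean adapted to the line 0.575 (box 57/100) by helper1 -/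

set_option autoImplicit false
open Filter Topology Complex Metric

namespace Pool.Agent.M20.Helper1.KL

open Pool.Agent.M20.Helper33.KSZ
open Pool.Agent.M20.Helper10.QRH Pool.Agent.M20.Helper69.QRH

theorem boxExists : BoxExists := by
  intro T hT
  set U : Set ℂ := {z : ℂ | 57/100 < z.re ∧ |z.im| < T + 2} with hU
  have hUo : IsOpen U := by
    refine IsOpen.inter (isOpen_lt continuous_const Complex.continuous_re) ?_
    exact isOpen_lt (continuous_abs.comp Complex.continuous_im) continuous_const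
  have hUc : IsPreconnected U := by
    have h1 : U = {z : ℂ | 57/100 < z.re} ∩ ({z : ℂ | z.im < T + 2} ∩ {z : ℂ | -(T + 2) < z.im}) := by
      ext z
      simp only [hU, Set.mem_ofPred_eq, Set.mem_inter_iff, abs_lt]
      tauto
    rw [h1]
    exact ((convex_halfSpace_re_gt _).inter
      ((convex_halfSpace_im_lt _).inter (convex_halfSpace_im_gt _))).isPreconnected
  have hzero : ∀ z : ℂ, EZ z = 0 → riemannZeta z = 0 ∧ z.re < 1 := by
    intro z hz
    have h1 : z ≠ 1 := by
      rintro rfl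
      rw [EZ_one] at hz
      exact one_ne_zero hz
    rw [EZ_eq h1] at hz
    have h2 := (mul_eq_zero.1 hz).resolve_left (sub_ne_zero.2 h1)
    refine ⟨h2, ?_⟩
    by_contra h3
    exact riemannZeta_ne_zero_of_one_le_re (not_lt.1 h3) h2
  have hfin : {z : ℂ | z ∈ U ∧ EZ z = 0}.Finite := by
    have h1 := zeros_finite (s₀ := 0) (R := T + 10) (r := T + 4) (by linarith) (F := EZ)
      EZ_differentiable.differentiableOn
      ⟨1, by rw [mem_ball_zero_iff, norm_one]; linarith, by rw [EZ_one]; exact one_ne_zero⟩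
    refine h1.subset fun z hz => ⟨?_, hz.2⟩
    rw [mem_closedBall_zero_iff]
    have h2 := (hzero z hz.2).2
    have h3 : 57 / 100 < z.re := hz.1.1
    have h4 : |z.im| < T + 2 := hz.1.2
    refine (Complex.norm_le_abs_re_add_abs_im z).trans ?_
    rw [abs_of_pos (by linarith : 0 < z.re)]
    linarith
  obtain ⟨M, Z, hZ, hZ0, hM, hfac⟩ := factorFinite EZ EZ_differentiable U hUo hUc
    ⟨1, ⟨by norm_num, by simp only [Complex.one_im, abs_zero]; linarith⟩,
      by rw [EZ_one]; exact one_ne_zero⟩ hfin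
  refine ⟨M, Z, hZ, hfac, ?_, fun z h1 h2 => hZ0 z ⟨h1, h2⟩, ?_⟩
  · intro ρ hρ
    obtain ⟨h1, h2⟩ := hM ρ hρ
    obtain ⟨h3, h4⟩ := hzero ρ h2
    exact ⟨h3, h1.1, h4, h1.2⟩
  · intro ρ hρ h1 h2
    have h3 : ρ ≠ 1 := by
      rintro rfl
      exact riemannZeta_one_ne_zero hρ
    rw [← orderNat_EZ h3]
    have h4 := count_eq_order hZ hfac (hZ0 ρ ⟨h1, h2⟩)
    convert h4

end Pool.Agent.M20.Helper1.KL
end

/- Helper53.KN.Helper67.KSZ.E5 -/
section
/-! KSZ-E5 (MP_768c9c_nt): bounds for `Z'/Z` on the box. -/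

set_option autoImplicit false
open Filter Topology MeasureTheory Complex
open scoped Classical

namespace Pool.Agent.M20.Helper67.KSZ.E5

open Pool.Agent.M20.Helper10.QRH Pool.Agent.M20.Helper69.QRH Pool.Agent.M20.Helper46.KSZ

theorem norm_sum_inv (N : Multiset ℂ) (s : ℂ) :
    ‖(N.map (fun ρ => 1 / (s - ρ))).sum‖ ≤ (N.map (fun ρ => 1 / ‖s - ρ‖)).sum := by
  induction N using Multiset.induction_on with
  | empty => simp
  | cons a N ih =>
    rw [Multiset.map_cons, Multiset.sum_cons, Multiset.map_cons, Multiset.sum_cons]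
    refine (norm_add_le _ _).trans ?_
    have : ‖1 / (s - a)‖ = 1 / ‖s - a‖ := by rw [norm_div, norm_one]
    rw [this]
    (clear * - ih; linarith)

theorem log_facts {T : ℝ} (hT : 1 ≤ T) : 1 ≤ Real.log (T + 2) := by
  have h1 : Real.exp 1 ≤ T + 2 := by
    have := Real.exp_one_lt_d9
    (clear * - hT this; linarith)
  rw [← Real.log_exp 1]
  exact Real.log_le_log (Real.exp_pos 1) h1

theorem norm_L_two : ∃ C : ℝ, 0 ≤ C ∧ ∀ t : ℝ,
    ‖LSeries (fun n => (ArithmeticFunction.vonMangoldt n : ℂ)) (2 + t * Complex.I)‖ ≤ C := by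
  refine ⟨∑' n : ℕ, ‖LSeries.term (fun n => (ArithmeticFunction.vonMangoldt n : ℂ)) 2 n‖,
    tsum_nonneg fun n => norm_nonneg _, ?_⟩
  intro t
  have hsum : Summable (fun n : ℕ =>
      ‖LSeries.term (fun n => (ArithmeticFunction.vonMangoldt n : ℂ)) 2 n‖) :=
    (ArithmeticFunction.LSeriesSummable_vonMangoldt (s := 2) (by norm_num)).norm
  have he : ∀ n : ℕ, ‖LSeries.term (fun n => (ArithmeticFunction.vonMangoldt n : ℂ))
      (2 + t * Complex.I) n‖ =
      ‖LSeries.term (fun n => (ArithmeticFunction.vonMangoldt n : ℂ)) 2 n‖ := by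
    intro n
    rw [LSeries.norm_term_eq, LSeries.norm_term_eq]
    simp
  rw [LSeries]
  refine (norm_tsum_le_tsum_norm ?_).trans (le_of_eq (tsum_congr he))
  exact hsum.congr fun n => (he n).symm

theorem gBound (h1 : LocalLog) (h2 : FarSum) : GBound := by
  obtain ⟨C1, hC1, h1⟩ := h1
  obtain ⟨C2, hC2, h2⟩ := h2
  obtain ⟨C3, hC3, h3⟩ := norm_L_two
  refine ⟨C1 + C2 + C3 + 1, by positivity, ?_⟩
  intro T M Z hT hB
  have hl := log_facts hT
  have hl2 : Real.log (T + 2) ≤ Real.log (T + 2) ^ 2 := by (clear * - hl; nlinarith)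
  have hsq : 1 ≤ Real.log (T + 2) ^ 2 := by (clear * - hl hl2; nlinarith)
  constructor
  · intro s hs1 hs2 hs3
    obtain ⟨hne, hb⟩ := h1 T M Z hT hB s hs1 hs2 hs3
    have hQ : Qp (far M s.im) s ≠ 0 := left_ne_zero_of_mul hne
    have hZ : Z s ≠ 0 := right_ne_zero_of_mul hne
    -- distances
    have hdist : ∀ ρ ∈ far M s.im, 0.003 ≤ ‖s - ρ‖ := by
      intro ρ hρ
      have hρ' := Multiset.mem_filter.1 hρ
      obtain ⟨_, hr1, hr2, _⟩ := hB.mem ρ hρ'.1
      have hge : 1.4 ≤ ‖ρ - (2 + s.im * Complex.I)‖ := not_lt.1 hρ'.2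
      by_cases hc : ρ.re ≤ 0.602
      · have := Complex.abs_re_le_norm (s - ρ)
        have h5 : (s - ρ).re = s.re - ρ.re := by simp
        rw [h5, abs_of_nonneg (by (clear * - hs1 hr1 hc; linarith))] at this
        (clear * - hs1 hc this; linarith)
      · push Not at hc
        have h6 : 1.4 ^ 2 ≤ ‖ρ - (2 + s.im * Complex.I)‖ ^ 2 :=
          pow_le_pow_left₀ (by norm_num) hge 2
        rw [Complex.sq_norm, Complex.normSq_apply] at h6
        have e1 : (ρ - (2 + s.im * Complex.I)).re = ρ.re - 2 := by simp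
        have e2 : (ρ - (2 + s.im * Complex.I)).im = ρ.im - s.im := by simp
        rw [e1, e2] at h6
        have h7 : 0.003 ^ 2 ≤ (ρ.im - s.im) * (ρ.im - s.im) := by (clear * - hr1 hc h6 hr2; nlinarith)
        have h8 : 0.003 ^ 2 ≤ ‖s - ρ‖ ^ 2 := by
          rw [Complex.sq_norm, Complex.normSq_apply]
          have e3 : (s - ρ).im = s.im - ρ.im := by simp
          rw [e3]
          (clear * - h7; nlinarith [mul_self_nonneg (s - ρ).re])
        exact le_of_sq_le_sq h8 (norm_nonneg _)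
    have hsρ : ∀ ρ ∈ far M s.im, s ≠ ρ := by
      intro ρ hρ he
      have := hdist ρ hρ
      rw [he, sub_self, norm_zero] at this
      norm_num at this
    have e : logDeriv (fun z => Qp (far M s.im) z * Z z) s =
        logDeriv (Qp (far M s.im)) s + logDeriv Z s :=
      logDeriv_mul (f := Qp (far M s.im)) (g := Z) s hQ hZ ((Qp_differentiable _) s) (hB.diff s)
    have e2 : logDeriv Z s = logDeriv (fun z => Qp (far M s.im) z * Z z) s -
        ((far M s.im).map (fun ρ => 1 / (s - ρ))).sum := by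
      rw [e, logDeriv_Qp _ _ hsρ]; ring
    rw [e2]
    refine (norm_sub_le _ _).trans ?_
    have h5 := norm_sum_inv (far M s.im) s
    have h6 := h2 T M Z hT hB (far M s.im) (Multiset.filter_le _ _) s hdist
    have h7 : Real.log (|s.im| + 2) ≤ Real.log (T + 2) :=
      Real.log_le_log (by positivity) (by (clear * - hs3; linarith))
    have h8 : C1 * Real.log (|s.im| + 2) ≤ C1 * Real.log (T + 2) ^ 2 := by
      apply mul_le_mul_of_nonneg_left _ hC1.le
      (clear * - hl2 h7; linarith)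
    have h9 : 0 ≤ (C3 + 1) * Real.log (T + 2) ^ 2 := by positivity
    linarith
  · intro t
    set s : ℂ := 2 + t * Complex.I with hs
    have hre : s.re = 2 := by simp [hs]
    have hs1 : s ≠ 1 := by
      intro h
      rw [h] at hre
      norm_num at hre
    have hζ : riemannZeta s ≠ 0 := riemannZeta_ne_zero_of_one_lt_re (by rw [hre]; norm_num)
    have hEZ : EZ s ≠ 0 := by
      rw [EZ_eq hs1]
      exact mul_ne_zero (sub_ne_zero.2 hs1) hζ
    have hEZ' := hEZ
    rw [hB.eq s] at hEZ'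
    have hQ : Qp M s ≠ 0 := left_ne_zero_of_mul hEZ'
    have hZ : Z s ≠ 0 := right_ne_zero_of_mul hEZ'
    have hdist : ∀ ρ ∈ M, 1 ≤ ‖s - ρ‖ := by
      intro ρ hρ
      obtain ⟨_, _, hr2, _⟩ := hB.mem ρ hρ
      have := Complex.abs_re_le_norm (s - ρ)
      have h5 : (s - ρ).re = 2 - ρ.re := by rw [Complex.sub_re, hre]
      rw [h5, abs_of_nonneg (by linarith)] at this
      (clear * - hr2 this; linarith)
    have hsρ : ∀ ρ ∈ M, s ≠ ρ := by
      intro ρ hρ he
      have := hdist ρ hρ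
      rw [he, sub_self, norm_zero] at this
      norm_num at this
    have hEZfun : EZ = fun z => Qp M z * Z z := funext hB.eq
    have e : logDeriv EZ s = logDeriv (Qp M) s + logDeriv Z s := by
      rw [hEZfun]
      exact logDeriv_mul (f := Qp M) (g := Z) s hQ hZ ((Qp_differentiable _) s) (hB.diff s)
    have e2 : logDeriv Z s = 1 / (s - 1) -
        LSeries (fun n => (ArithmeticFunction.vonMangoldt n : ℂ)) s -
        (M.map (fun ρ => 1 / (s - ρ))).sum := by
      rw [logDeriv_Qp _ _ hsρ, logDeriv_EZ (by rw [hre]; norm_num)] at e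
      rw [e]; ring
    rw [e2]
    refine (norm_sub_le _ _).trans ?_
    have b0 := norm_sub_le (1 / (s - 1))
      (LSeries (fun n => (ArithmeticFunction.vonMangoldt n : ℂ)) s)
    have b1 : ‖1 / (s - 1)‖ ≤ 1 := by
      rw [norm_div, norm_one]
      have := Complex.abs_re_le_norm (s - 1)
      have h5 : (s - 1).re = 1 := by rw [Complex.sub_re, hre]; norm_num
      rw [h5, abs_one] at this
      rw [div_le_one (by linarith)]
      exact this
    have b2 := h3 t
    have b3 := norm_sum_inv M s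
    have b4 := h2 T M Z hT hB M le_rfl s (fun ρ hρ => le_trans (by norm_num) (hdist ρ hρ))
    have b5 : (C3 + 1) * 1 ≤ (C3 + 1) * Real.log (T + 2) ^ 2 := by gcongr
    have b6 : 0 ≤ C1 * Real.log (T + 2) ^ 2 := by positivity
    (clear * - b0 b1 b2 b3 b4 b5 b6; linarith)

end Pool.Agent.M20.Helper67.KSZ.E5
end

/- Helper53.KN.Helper1.KL.E5 -/
section
/-! Helper67/KSZ/E5.lean adapted to the line 0.575 (box 57/100) by helper1 -/

set_option autoImplicit false
open Filter Topology MeasureTheory Complex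
open scoped Classical

namespace Pool.Agent.M20.Helper1.KL

open Pool.Agent.M20.Helper67.KSZ.E5 (norm_sum_inv norm_L_two log_facts)
open Pool.Agent.M20.Helper10.QRH Pool.Agent.M20.Helper69.QRH 

theorem gBound (h1 : LocalLog) (h2 : FarSum) : GBound := by
  obtain ⟨C1, hC1, h1⟩ := h1
  obtain ⟨C2, hC2, h2⟩ := h2
  obtain ⟨C3, hC3, h3⟩ := norm_L_two
  refine ⟨C1 + C2 + C3 + 1, by positivity, ?_⟩
  intro T M Z hT hB
  have hl := log_facts hT
  have hl2 : Real.log (T + 2) ≤ Real.log (T + 2) ^ 2 := by (clear * - hl; nlinarith)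
  have hsq : 1 ≤ Real.log (T + 2) ^ 2 := by (clear * - hl hl2; nlinarith)
  constructor
  · intro s hs1 hs2 hs3
    obtain ⟨hne, hb⟩ := h1 T M Z hT hB s hs1 hs2 hs3
    have hQ : Qp (far M s.im) s ≠ 0 := left_ne_zero_of_mul hne
    have hZ : Z s ≠ 0 := right_ne_zero_of_mul hne
    -- distances
    have hdist : ∀ ρ ∈ far M s.im, 0.003 ≤ ‖s - ρ‖ := by
      intro ρ hρ
      have hρ' := Multiset.mem_filter.1 hρ
      obtain ⟨_, hr1, hr2, _⟩ := hB.mem ρ hρ'.1
      have hge : 1.43 ≤ ‖ρ - (2 + s.im * Complex.I)‖ := not_lt.1 hρ'.2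
      by_cases hc : ρ.re ≤ 0.572
      · have := Complex.abs_re_le_norm (s - ρ)
        have h5 : (s - ρ).re = s.re - ρ.re := by simp
        rw [h5, abs_of_nonneg (by linarith)] at this
        (clear * - hs1 hc this; linarith)
      · push Not at hc
        have h6 : 1.43 ^ 2 ≤ ‖ρ - (2 + s.im * Complex.I)‖ ^ 2 :=
          pow_le_pow_left₀ (by norm_num) hge 2
        rw [Complex.sq_norm, Complex.normSq_apply] at h6
        have e1 : (ρ - (2 + s.im * Complex.I)).re = ρ.re - 2 := by simp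
        have e2 : (ρ - (2 + s.im * Complex.I)).im = ρ.im - s.im := by simp
        rw [e1, e2] at h6
        have h7 : 0.003 ^ 2 ≤ (ρ.im - s.im) * (ρ.im - s.im) := by (clear * - hr1 hc h6 hr2; nlinarith)
        have h8 : 0.003 ^ 2 ≤ ‖s - ρ‖ ^ 2 := by
          rw [Complex.sq_norm, Complex.normSq_apply]
          have e3 : (s - ρ).im = s.im - ρ.im := by simp
          rw [e3]
          (clear * - h7; nlinarith [mul_self_nonneg (s - ρ).re])
        exact le_of_sq_le_sq h8 (norm_nonneg _)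
    have hsρ : ∀ ρ ∈ far M s.im, s ≠ ρ := by
      intro ρ hρ he
      have := hdist ρ hρ
      rw [he, sub_self, norm_zero] at this
      norm_num at this
    have e : logDeriv (fun z => Qp (far M s.im) z * Z z) s =
        logDeriv (Qp (far M s.im)) s + logDeriv Z s :=
      logDeriv_mul (f := Qp (far M s.im)) (g := Z) s hQ hZ ((Qp_differentiable _) s) (hB.diff s)
    have e2 : logDeriv Z s = logDeriv (fun z => Qp (far M s.im) z * Z z) s -
        ((far M s.im).map (fun ρ => 1 / (s - ρ))).sum := by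
      rw [e, logDeriv_Qp _ _ hsρ]; ring
    rw [e2]
    refine (norm_sub_le _ _).trans ?_
    have h5 := norm_sum_inv (far M s.im) s
    have h6 := h2 T M Z hT hB (far M s.im) (Multiset.filter_le _ _) s hdist
    have h7 : Real.log (|s.im| + 2) ≤ Real.log (T + 2) :=
      Real.log_le_log (by positivity) (by (clear * - hs3; linarith))
    have h8 : C1 * Real.log (|s.im| + 2) ≤ C1 * Real.log (T + 2) ^ 2 := by
      apply mul_le_mul_of_nonneg_left _ hC1.le
      (clear * - hl2 h7; linarith)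
    have h9 : 0 ≤ (C3 + 1) * Real.log (T + 2) ^ 2 := by positivity
    linarith
  · intro t
    set s : ℂ := 2 + t * Complex.I with hs
    have hre : s.re = 2 := by simp [hs]
    have hs1 : s ≠ 1 := by
      intro h
      rw [h] at hre
      norm_num at hre
    have hζ : riemannZeta s ≠ 0 := riemannZeta_ne_zero_of_one_lt_re (by rw [hre]; norm_num)
    have hEZ : EZ s ≠ 0 := by
      rw [EZ_eq hs1]
      exact mul_ne_zero (sub_ne_zero.2 hs1) hζ
    have hEZ' := hEZ
    rw [hB.eq s] at hEZ'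
    have hQ : Qp M s ≠ 0 := left_ne_zero_of_mul hEZ'
    have hZ : Z s ≠ 0 := right_ne_zero_of_mul hEZ'
    have hdist : ∀ ρ ∈ M, 1 ≤ ‖s - ρ‖ := by
      intro ρ hρ
      obtain ⟨_, _, hr2, _⟩ := hB.mem ρ hρ
      have := Complex.abs_re_le_norm (s - ρ)
      have h5 : (s - ρ).re = 2 - ρ.re := by rw [Complex.sub_re, hre]
      rw [h5, abs_of_nonneg (by linarith)] at this
      linarith
    have hsρ : ∀ ρ ∈ M, s ≠ ρ := by
      intro ρ hρ he
      have := hdist ρ hρ
      rw [he, sub_self, norm_zero] at this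
      norm_num at this
    have hEZfun : EZ = fun z => Qp M z * Z z := funext hB.eq
    have e : logDeriv EZ s = logDeriv (Qp M) s + logDeriv Z s := by
      rw [hEZfun]
      exact logDeriv_mul (f := Qp M) (g := Z) s hQ hZ ((Qp_differentiable _) s) (hB.diff s)
    have e2 : logDeriv Z s = 1 / (s - 1) -
        LSeries (fun n => (ArithmeticFunction.vonMangoldt n : ℂ)) s -
        (M.map (fun ρ => 1 / (s - ρ))).sum := by
      rw [logDeriv_Qp _ _ hsρ, logDeriv_EZ (by rw [hre]; norm_num)] at e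
      rw [e]; ring
    rw [e2]
    refine (norm_sub_le _ _).trans ?_
    have b0 := norm_sub_le (1 / (s - 1))
      (LSeries (fun n => (ArithmeticFunction.vonMangoldt n : ℂ)) s)
    have b1 : ‖1 / (s - 1)‖ ≤ 1 := by
      rw [norm_div, norm_one]
      have := Complex.abs_re_le_norm (s - 1)
      have h5 : (s - 1).re = 1 := by rw [Complex.sub_re, hre]; norm_num
      rw [h5, abs_one] at this
      rw [div_le_one (by (clear * - this; linarith))]
      exact this
    have b2 := h3 t
    have b3 := norm_sum_inv M s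
    have b4 := h2 T M Z hT hB M le_rfl s (fun ρ hρ => le_trans (by norm_num) (hdist ρ hρ))
    have b5 : (C3 + 1) * 1 ≤ (C3 + 1) * Real.log (T + 2) ^ 2 := by (clear * - hsq hC3; gcongr)
    have b6 : 0 ≤ C1 * Real.log (T + 2) ^ 2 := by positivity
    linarith

end Pool.Agent.M20.Helper1.KL
end

/- Helper53.KN.Helper55.KSZ.LocalLog -/
section
/-! KSZ-E3: the local logarithmic derivative of zeta. -/

set_option autoImplicit false
open Filter Topology Complex Metric
open scoped Classical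

namespace Pool.Agent.M20.Helper55.KSZ

open Pool.Agent.M20.Helper10.QRH Pool.Agent.M20.Helper69.QRH Pool.Agent.M20.Helper46.KSZ

lemma Qp_lower_pow (M : Multiset ℂ) (z : ℂ) (c : ℝ) (hc : 0 ≤ c) (h : ∀ ρ ∈ M, c ≤ ‖z - ρ‖) :
    c ^ Multiset.card M ≤ ‖Qp M z‖ := by
  induction M using Multiset.induction_on with
  | empty => simp [Qp]
  | cons a M ih =>
    rw [Qp_cons, norm_mul, Multiset.card_cons, pow_succ, mul_comm]
    have h1 := h a (Multiset.mem_cons_self a M)
    have h2 := ih fun ρ hρ => h ρ (Multiset.mem_cons_of_mem hρ)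
    exact mul_le_mul h1 h2 (pow_nonneg hc _) (norm_nonneg _)

lemma Qp_add (M N : Multiset ℂ) (z : ℂ) : Qp (M + N) z = Qp M z * Qp N z := by
  simp [Qp]

lemma Qp_near_far (M : Multiset ℂ) (t : ℝ) (z : ℂ) :
    Qp M z = Qp (near M t) z * Qp (far M t) z := by
  rw [← Qp_add, near, far, Multiset.filter_add_not]

lemma EZ_lower_two (t : ℝ) : 1 / 3 ≤ ‖EZ (2 + t * I)‖ := by
  have hs0re : (2 + t * I : ℂ).re = 2 := by simp
  have hs01 : (2 + t * I : ℂ) ≠ 1 := by
    intro h
    have := congrArg Complex.re h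
    rw [hs0re] at this
    norm_num at this
  rw [EZ_eq hs01, norm_mul]
  have h1 := zeta_two_line hs0re
  have h2 : 1 ≤ ‖(2 + t * I : ℂ) - 1‖ := by
    have := Complex.re_le_norm ((2 + t * I : ℂ) - 1)
    rw [Complex.sub_re, hs0re, Complex.one_re] at this
    (clear * - this; linarith)
  nlinarith [norm_nonneg (riemannZeta (2 + t * I : ℂ))]

lemma norm_s0_le (t : ℝ) : ‖(2 + t * I : ℂ)‖ ≤ 2 + |t| := by
  refine (norm_add_le _ _).trans ?_
  rw [norm_mul, Complex.norm_I, mul_one, Complex.norm_real, Real.norm_eq_abs, Complex.norm_ofNat]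

/-- log (5 + |t|) ≤ 3 log (|t| + 2) -/
lemma log_five_le (t : ℝ) : Real.log (5 + |t|) ≤ 3 * Real.log (|t| + 2) := by
  have ht := abs_nonneg t
  have h1 : 5 + |t| ≤ (|t| + 2) ^ 3 := by nlinarith [mul_nonneg ht ht, mul_nonneg (mul_nonneg ht ht) ht]
  calc Real.log (5 + |t|) ≤ Real.log ((|t| + 2) ^ 3) := Real.log_le_log (by (clear * - ht; linarith)) h1
    _ = 3 * Real.log (|t| + 2) := by rw [Real.log_pow]; norm_num

theorem localLog (h : JensenEZ) : LocalLog := by
  obtain ⟨C₁, hC₁, hJ⟩ := h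
  obtain ⟨C₀, hC₀, hE⟩ := EZ_bound
  have hlog2 : 0 < Real.log 2 := Real.log_pos (by norm_num)
  have hlog14 : 0 < Real.log 14 := Real.log_pos (by norm_num)
  set A : ℝ := |Real.log (3 * C₀)| / Real.log 2 + 6 + C₁ * Real.log 14 with hA
  have hApos : 0 < A := by (clear * - hC₁; positivity)
  refine ⟨2 * A * 1.3975 / (1.4 - 1.3975) / (1.3975 - 1.395), by
    have : (0:ℝ) < 1.4 - 1.3975 := by norm_num
    have : (0:ℝ) < 1.3975 - 1.395 := by norm_num
    (clear * - hC₁; positivity), ?_⟩
  intro T M Z hT hB s hs1 hs2 hst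
  obtain ⟨t, ht⟩ : ∃ t : ℝ, t = s.im := ⟨_, rfl⟩
  rw [← ht] at hst ⊢
  obtain ⟨s0, hs0⟩ : ∃ s0 : ℂ, s0 = 2 + t * I := ⟨_, rfl⟩
  obtain ⟨F, hF⟩ : ∃ F : ℂ → ℂ, F = fun z => Qp (far M t) z * Z z := ⟨_, rfl⟩
  have hFd : Differentiable ℂ F := by
    rw [hF]
    exact (Qp_differentiable _).mul hB.diff
  have hEF : ∀ z, EZ z = Qp (near M t) z * F z := by
    intro z
    rw [hB.eq z, Qp_near_far M t z, hF]
    ring
  exact by
    set n := Multiset.card (near M t) with hn
    have hnear : ∀ ρ ∈ near M t, ‖ρ - s0‖ < 1.4 := by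
      intro ρ hρ
      have := (Multiset.mem_filter.1 hρ).2
      rwa [hs0]
    have hfar : ∀ ρ ∈ far M t, 1.4 ≤ ‖ρ - s0‖ := by
      intro ρ hρ
      have := (Multiset.mem_filter.1 hρ).2
      rw [hs0]
      exact not_lt.1 this
    have hL : Real.log 2 ≤ Real.log (|t| + 2) :=
      Real.log_le_log (by norm_num) (by (clear * -; linarith [abs_nonneg t]))
    set L := Real.log (|t| + 2) with hLdef
    have hL0 : 0 < L := hlog2.trans_le hL
    have hcard : (n : ℝ) ≤ C₁ * L := by
      refine hJ (near M t) F hFd hEF t fun ρ hρ => ?_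
      have := hnear ρ hρ
      rw [hs0] at this
      (clear * - this; linarith)
    exact by
      have hs0re : s0.re = 2 := by simp [hs0]
      have hs0im : s0.im = t := by simp [hs0]
      -- nonvanishing
      have hne : ∀ w : ℂ, ‖w‖ < 1.4 → F (s0 + w) ≠ 0 := by
        intro w hw
        have hwre := (abs_le.1 (Complex.abs_re_le_norm w))
        have hwim := (Complex.abs_im_le_norm w)
        rw [hF]
        refine mul_ne_zero (Qp_ne_zero _ _ fun ρ hρ hEq => ?_) (hB.ne _ ?_ ?_)
        · have h1 := hfar ρ hρ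
          rw [← hEq, add_sub_cancel_left] at h1
          (clear * - hw h1; linarith)
        · rw [Complex.add_re, hs0re]
          (clear * - hw hwre; linarith [hwre.1])
        · rw [Complex.add_im, hs0im]
          have := abs_add_le t w.im
          (clear * - hst hw hwim this; linarith)
      -- the boundary bound
      have hbd : ∀ w : ℂ, ‖w‖ ≤ 1.5 → ‖F (s0 + w)‖ ≤ C₀ * (5 + |t|) ^ 2 * 10 ^ n := by
        have hmax : ∀ w ∈ closure (ball (0 : ℂ) 1.5), ‖F (s0 + w)‖ ≤ C₀ * (5 + |t|) ^ 2 * 10 ^ n := by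
          intro w hw
          have hd : DiffContOnCl ℂ (fun w => F (s0 + w)) (ball (0 : ℂ) 1.5) :=
            (hFd.comp ((differentiable_const s0).add differentiable_id)).diffContOnCl
          refine Complex.norm_le_of_forall_mem_frontier_norm_le isBounded_ball hd ?_ hw
          intro v hv
          rw [frontier_ball (0 : ℂ) (by norm_num : (1.5 : ℝ) ≠ 0), mem_sphere_zero_iff_norm] at hv
          have h1 := hE (s0 + v) (by
            have := (abs_le.1 (Complex.abs_re_le_norm v))
            rw [Complex.add_re, hs0re]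
            (clear * - hv this; linarith [this.1]))
          rw [hEF, norm_mul] at h1
          have h2 : ‖s0 + v‖ ≤ 4 + |t| := by
            refine (norm_add_le _ _).trans ?_
            have := norm_s0_le t
            rw [← hs0] at this
            (clear * - hv this; linarith)
          have h3 : (0.1 : ℝ) ^ n ≤ ‖Qp (near M t) (s0 + v)‖ := by
            refine Qp_lower_pow _ _ _ (by norm_num) fun ρ hρ => ?_
            have h4 := hnear ρ hρ
            have h5 : ‖v‖ ≤ ‖s0 + v - ρ‖ + ‖ρ - s0‖ := by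
              have := norm_add_le (s0 + v - ρ) (ρ - s0)
              have e : s0 + v - ρ + (ρ - s0) = v := by ring
              rwa [e] at this
            linarith
          have h6 : (1 + ‖s0 + v‖) ^ 2 ≤ (5 + |t|) ^ 2 :=
            pow_le_pow_left₀ (by positivity) (by (clear * - h2; linarith)) 2
          have h7 : (0.1 : ℝ) ^ n * ‖F (s0 + v)‖ ≤ C₀ * (5 + |t|) ^ 2 := by
            calc (0.1 : ℝ) ^ n * ‖F (s0 + v)‖ ≤ ‖Qp (near M t) (s0 + v)‖ * ‖F (s0 + v)‖ := by (clear * - h3; gcongr)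
              _ ≤ C₀ * (1 + ‖s0 + v‖) ^ 2 := h1
              _ ≤ C₀ * (5 + |t|) ^ 2 := by (clear * - h6 hC₀; gcongr)
          have h8 : (10 : ℝ) ^ n * (0.1 : ℝ) ^ n = 1 := by
            rw [← mul_pow]; norm_num
          calc ‖F (s0 + v)‖ = (10 : ℝ) ^ n * ((0.1 : ℝ) ^ n * ‖F (s0 + v)‖) := by
                rw [← mul_assoc, h8, one_mul]
            _ ≤ (10 : ℝ) ^ n * (C₀ * (5 + |t|) ^ 2) := by (clear * - h7; gcongr)
            _ = _ := by ring
        intro w hw
        refine hmax w ?_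
        rw [closure_ball (0 : ℂ) (by norm_num : (1.5 : ℝ) ≠ 0), mem_closedBall_zero_iff]
        exact hw
      -- the lower bound at the centre
      have hF0 : F s0 ≠ 0 := by
        have := hne 0 (by norm_num)
        rwa [add_zero] at this
      have hF0pos : 0 < ‖F s0‖ := norm_pos_iff.2 hF0
      exact by
        have hlow : 1 / 3 ≤ 1.4 ^ n * ‖F s0‖ := by
          have h1 := EZ_lower_two t
          rw [← hs0, hEF, norm_mul] at h1
          refine h1.trans ?_
          refine mul_le_mul_of_nonneg_right (Qp_upper _ _ _ (by norm_num) fun ρ hρ => ?_) (norm_nonneg _)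
          rw [norm_sub_rev]
          exact (hnear ρ hρ).le
        obtain ⟨H, hH⟩ : ∃ H : ℂ → ℂ, H = fun w => F (s0 + w) / F s0 := ⟨_, rfl⟩
        have hHb : ∀ w ∈ ball (0 : ℂ) 1.4, ‖H w‖ ≤ Real.exp (A * L) := by
          intro w hw
          rw [mem_ball_zero_iff] at hw
          have h1 := hbd w (by (clear * - hw; linarith))
          have h2 : ‖H w‖ ≤ 3 * C₀ * (5 + |t|) ^ 2 * 14 ^ n := by
            rw [hH]
            simp only
            rw [norm_div, div_le_iff₀ hF0pos]
            calc ‖F (s0 + w)‖ ≤ C₀ * (5 + |t|) ^ 2 * 10 ^ n := h1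
              _ = 3 * C₀ * (5 + |t|) ^ 2 * 10 ^ n * (1 / 3) := by ring
              _ ≤ 3 * C₀ * (5 + |t|) ^ 2 * 10 ^ n * (1.4 ^ n * ‖F s0‖) := by (clear * - hlow hC₀; gcongr)
              _ = 3 * C₀ * (5 + |t|) ^ 2 * (10 ^ n * 1.4 ^ n) * ‖F s0‖ := by ring
              _ = 3 * C₀ * (5 + |t|) ^ 2 * 14 ^ n * ‖F s0‖ := by
                rw [← mul_pow]; norm_num
          refine h2.trans ?_
          have ht0 := abs_nonneg t
          rw [← Real.log_le_iff_le_exp (by (clear * - hC₀; positivity)), Real.log_mul (by positivity) (by positivity),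
            Real.log_mul (by positivity) (by positivity), Real.log_pow, Real.log_pow]
          push_cast
          have h3 : Real.log (3 * C₀) ≤ |Real.log (3 * C₀)| / Real.log 2 * L := by
            calc Real.log (3 * C₀) ≤ |Real.log (3 * C₀)| := le_abs_self _
              _ = |Real.log (3 * C₀)| / Real.log 2 * Real.log 2 := by (clear * -; field_simp)
              _ ≤ _ := by (clear * - hL; gcongr)
          have h4 := log_five_le t
          have h5 : (n : ℝ) * Real.log 14 ≤ C₁ * Real.log 14 * L := by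
            calc (n : ℝ) * Real.log 14 ≤ C₁ * L * Real.log 14 := by gcongr
              _ = _ := by ring
          rw [hA]
          (clear * - h3 h4 h5; nlinarith)
        have hHd : Differentiable ℂ H := by
          rw [hH]
          exact (hFd.comp ((differentiable_const s0).add differentiable_id)).div_const _
        obtain ⟨w, hw⟩ : ∃ w : ℂ, w = s - s0 := ⟨_, rfl⟩
        have hwn : ‖w‖ ≤ 1.395 := by
          have h1 : w = ((s.re - 2 : ℝ) : ℂ) := by
            apply Complex.ext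
            · rw [hw, Complex.sub_re, hs0re, Complex.ofReal_re]
            · rw [hw, Complex.sub_im, hs0im, Complex.ofReal_im, ht, sub_self]
          rw [h1, Complex.norm_real, Real.norm_eq_abs, abs_le]
          constructor <;> (clear * - hs1 hs2; linarith)
        have hsw : s0 + w = s := by rw [hw]; ring
        have hmain := logDeriv_bound (H := H) (R := 1.4) (r₂ := 1.3975) (r₁ := 1.395) (Mt := A * L)
          (by norm_num) (by norm_num) (by norm_num) (by (clear * - hC₁ hL0; positivity)) hHd.differentiableOn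
          (fun z hz => by
            rw [hH]
            exact div_ne_zero (hne z (by rwa [mem_ball_zero_iff] at hz)) hF0)
          (by
            rw [hH]
            simp only [add_zero]
            exact div_self hF0) hHb hwn
        exact by
          have hFs : F s ≠ 0 := by
            have := hne w (by (clear * - hwn; linarith))
            rwa [hsw] at this
          have hder : deriv H w / H w = logDeriv F s := by
            have h1 : HasDerivAt H (deriv F s / F s0) w := by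
              have h2 : HasDerivAt F (deriv F s) (s0 + w) := by
                rw [hsw]
                exact (hFd s).hasDerivAt
              have h3 : HasDerivAt (fun w : ℂ => s0 + w) 1 w := (hasDerivAt_id w).const_add s0
              have h4 := (h2.comp w h3).div_const (F s0)
              rw [mul_one] at h4
              rw [hH]
              exact h4
            rw [h1.deriv, logDeriv_apply, hH]
            simp only
            rw [hsw]
            field_simp
          have hgoal1 : Qp (far M t) s * Z s ≠ 0 := by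
            rw [hF] at hFs
            exact hFs
          refine ⟨hgoal1, ?_⟩
          have hgoal2 : ‖logDeriv F s‖ ≤
              2 * A * 1.3975 / (1.4 - 1.3975) / (1.3975 - 1.395) * L := by
            rw [← hder]
            refine hmain.trans (le_of_eq ?_)
            ring
          rw [hF] at hgoal2
          exact hgoal2

end Pool.Agent.M20.Helper55.KSZ
end

/- Helper53.KN.Helper1.KL.LocalLog -/
section
/-! Helper55/KSZ/LocalLog.lean adapted to the line 0.575 (box 57/100) by helper1 -/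

set_option autoImplicit false
open Filter Topology Complex Metric
open scoped Classical

namespace Pool.Agent.M20.Helper1.KL

open Pool.Agent.M20.Helper55.KSZ hiding Qp_near_far
open Pool.Agent.M20.Helper10.QRH Pool.Agent.M20.Helper69.QRH 

lemma Qp_near_far (M : Multiset ℂ) (t : ℝ) (z : ℂ) :
    Qp M z = Qp (near M t) z * Qp (far M t) z := by
  rw [← Qp_add, near, far, Multiset.filter_add_not]

theorem localLog (h : JensenEZ) : LocalLog := by
  obtain ⟨C₁, hC₁, hJ⟩ := h
  obtain ⟨C₀, hC₀, hE⟩ := EZ_bound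
  have hlog2 : 0 < Real.log 2 := Real.log_pos (by norm_num)
  have hlog14 : 0 < Real.log 28.6 := Real.log_pos (by norm_num)
  set A : ℝ := |Real.log (3 * C₀)| / Real.log 2 + 6 + C₁ * Real.log 28.6 with hA
  have hApos : 0 < A := by (clear * - hC₁; positivity)
  refine ⟨2 * A * 1.4275 / (1.43 - 1.4275) / (1.4275 - 1.425), by
    have : (0:ℝ) < 1.43 - 1.4275 := by norm_num
    have : (0:ℝ) < 1.4275 - 1.425 := by norm_num
    (clear * - hC₁; positivity), ?_⟩
  intro T M Z hT hB s hs1 hs2 hst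
  obtain ⟨t, ht⟩ : ∃ t : ℝ, t = s.im := ⟨_, rfl⟩
  rw [← ht] at hst ⊢
  obtain ⟨s0, hs0⟩ : ∃ s0 : ℂ, s0 = 2 + t * I := ⟨_, rfl⟩
  obtain ⟨F, hF⟩ : ∃ F : ℂ → ℂ, F = fun z => Qp (far M t) z * Z z := ⟨_, rfl⟩
  have hFd : Differentiable ℂ F := by
    rw [hF]
    exact (Qp_differentiable _).mul hB.diff
  have hEF : ∀ z, EZ z = Qp (near M t) z * F z := by
    intro z
    rw [hB.eq z, Qp_near_far M t z, hF]
    ring
  exact by
    set n := Multiset.card (near M t) with hn
    have hnear : ∀ ρ ∈ near M t, ‖ρ - s0‖ < 1.43 := by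
      intro ρ hρ
      have := (Multiset.mem_filter.1 hρ).2
      rwa [hs0]
    have hfar : ∀ ρ ∈ far M t, 1.43 ≤ ‖ρ - s0‖ := by
      intro ρ hρ
      have := (Multiset.mem_filter.1 hρ).2
      rw [hs0]
      exact not_lt.1 this
    have hL : Real.log 2 ≤ Real.log (|t| + 2) :=
      Real.log_le_log (by norm_num) (by (clear * -; linarith [abs_nonneg t]))
    set L := Real.log (|t| + 2) with hLdef
    have hL0 : 0 < L := hlog2.trans_le hL
    have hcard : (n : ℝ) ≤ C₁ * L := by
      refine hJ (near M t) F hFd hEF t fun ρ hρ => ?_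
      have := hnear ρ hρ
      rw [hs0] at this
      (clear * - this; linarith)
    exact by
      have hs0re : s0.re = 2 := by simp [hs0]
      have hs0im : s0.im = t := by simp [hs0]
      -- nonvanishing
      have hne : ∀ w : ℂ, ‖w‖ < 1.43 → F (s0 + w) ≠ 0 := by
        intro w hw
        have hwre := (abs_le.1 (Complex.abs_re_le_norm w))
        have hwim := (Complex.abs_im_le_norm w)
        rw [hF]
        refine mul_ne_zero (Qp_ne_zero _ _ fun ρ hρ hEq => ?_) (hB.ne _ ?_ ?_)
        · have h1 := hfar ρ hρ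
          rw [← hEq, add_sub_cancel_left] at h1
          (clear * - hw h1; linarith)
        · rw [Complex.add_re, hs0re]
          (clear * - hw hwre; linarith [hwre.1])
        · rw [Complex.add_im, hs0im]
          have := abs_add_le t w.im
          (clear * - hst hw hwim this; linarith)
      -- the boundary bound
      have hbd : ∀ w : ℂ, ‖w‖ ≤ 1.5 → ‖F (s0 + w)‖ ≤ C₀ * (5 + |t|) ^ 2 * 20 ^ n := by
        have hmax : ∀ w ∈ closure (ball (0 : ℂ) 1.5), ‖F (s0 + w)‖ ≤ C₀ * (5 + |t|) ^ 2 * 20 ^ n := by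
          intro w hw
          have hd : DiffContOnCl ℂ (fun w => F (s0 + w)) (ball (0 : ℂ) 1.5) :=
            (hFd.comp ((differentiable_const s0).add differentiable_id)).diffContOnCl
          refine Complex.norm_le_of_forall_mem_frontier_norm_le isBounded_ball hd ?_ hw
          intro v hv
          rw [frontier_ball (0 : ℂ) (by norm_num : (1.5 : ℝ) ≠ 0), mem_sphere_zero_iff_norm] at hv
          have h1 := hE (s0 + v) (by
            have := (abs_le.1 (Complex.abs_re_le_norm v))
            rw [Complex.add_re, hs0re]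
            (clear * - hv this; linarith [this.1]))
          rw [hEF, norm_mul] at h1
          have h2 : ‖s0 + v‖ ≤ 4 + |t| := by
            refine (norm_add_le _ _).trans ?_
            have := norm_s0_le t
            rw [← hs0] at this
            linarith
          have h3 : (0.05 : ℝ) ^ n ≤ ‖Qp (near M t) (s0 + v)‖ := by
            refine Qp_lower_pow _ _ _ (by norm_num) fun ρ hρ => ?_
            have h4 := hnear ρ hρ
            have h5 : ‖v‖ ≤ ‖s0 + v - ρ‖ + ‖ρ - s0‖ := by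
              have := norm_add_le (s0 + v - ρ) (ρ - s0)
              have e : s0 + v - ρ + (ρ - s0) = v := by ring
              rwa [e] at this
            (clear * - hv h4 h5; linarith)
          have h6 : (1 + ‖s0 + v‖) ^ 2 ≤ (5 + |t|) ^ 2 :=
            pow_le_pow_left₀ (by positivity) (by (clear * - h2; linarith)) 2
          have h7 : (0.05 : ℝ) ^ n * ‖F (s0 + v)‖ ≤ C₀ * (5 + |t|) ^ 2 := by
            calc (0.05 : ℝ) ^ n * ‖F (s0 + v)‖ ≤ ‖Qp (near M t) (s0 + v)‖ * ‖F (s0 + v)‖ := by (clear * - h3; gcongr)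
              _ ≤ C₀ * (1 + ‖s0 + v‖) ^ 2 := h1
              _ ≤ C₀ * (5 + |t|) ^ 2 := by (clear * - h6 hC₀; gcongr)
          have h8 : (20 : ℝ) ^ n * (0.05 : ℝ) ^ n = 1 := by
            rw [← mul_pow]; norm_num
          calc ‖F (s0 + v)‖ = (20 : ℝ) ^ n * ((0.05 : ℝ) ^ n * ‖F (s0 + v)‖) := by
                rw [← mul_assoc, h8, one_mul]
            _ ≤ (20 : ℝ) ^ n * (C₀ * (5 + |t|) ^ 2) := by (clear * - h7; gcongr)
            _ = _ := by ring
        intro w hw
        refine hmax w ?_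
        rw [closure_ball (0 : ℂ) (by norm_num : (1.5 : ℝ) ≠ 0), mem_closedBall_zero_iff]
        exact hw
      -- the lower bound at the centre
      have hF0 : F s0 ≠ 0 := by
        have := hne 0 (by norm_num)
        rwa [add_zero] at this
      have hF0pos : 0 < ‖F s0‖ := norm_pos_iff.2 hF0
      exact by
        have hlow : 1 / 3 ≤ 1.43 ^ n * ‖F s0‖ := by
          have h1 := EZ_lower_two t
          rw [← hs0, hEF, norm_mul] at h1
          refine h1.trans ?_
          refine mul_le_mul_of_nonneg_right (Qp_upper _ _ _ (by norm_num) fun ρ hρ => ?_) (norm_nonneg _)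
          rw [norm_sub_rev]
          exact (hnear ρ hρ).le
        obtain ⟨H, hH⟩ : ∃ H : ℂ → ℂ, H = fun w => F (s0 + w) / F s0 := ⟨_, rfl⟩
        have hHb : ∀ w ∈ ball (0 : ℂ) 1.43, ‖H w‖ ≤ Real.exp (A * L) := by
          intro w hw
          rw [mem_ball_zero_iff] at hw
          have h1 := hbd w (by (clear * - hw; linarith))
          have h2 : ‖H w‖ ≤ 3 * C₀ * (5 + |t|) ^ 2 * 28.6 ^ n := by
            rw [hH]
            simp only
            rw [norm_div, div_le_iff₀ hF0pos]
            calc ‖F (s0 + w)‖ ≤ C₀ * (5 + |t|) ^ 2 * 20 ^ n := h1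
              _ = 3 * C₀ * (5 + |t|) ^ 2 * 20 ^ n * (1 / 3) := by ring
              _ ≤ 3 * C₀ * (5 + |t|) ^ 2 * 20 ^ n * (1.43 ^ n * ‖F s0‖) := by (clear * - hlow hC₀; gcongr)
              _ = 3 * C₀ * (5 + |t|) ^ 2 * (20 ^ n * 1.43 ^ n) * ‖F s0‖ := by ring
              _ = 3 * C₀ * (5 + |t|) ^ 2 * 28.6 ^ n * ‖F s0‖ := by
                rw [← mul_pow]; norm_num
          refine h2.trans ?_
          have ht0 := abs_nonneg t
          rw [← Real.log_le_iff_le_exp (by (clear * - hC₀; positivity)), Real.log_mul (by positivity) (by positivity),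
            Real.log_mul (by positivity) (by positivity), Real.log_pow, Real.log_pow]
          push_cast
          have h3 : Real.log (3 * C₀) ≤ |Real.log (3 * C₀)| / Real.log 2 * L := by
            calc Real.log (3 * C₀) ≤ |Real.log (3 * C₀)| := le_abs_self _
              _ = |Real.log (3 * C₀)| / Real.log 2 * Real.log 2 := by (clear * -; field_simp)
              _ ≤ _ := by (clear * - hL; gcongr)
          have h4 := log_five_le t
          have h5 : (n : ℝ) * Real.log 28.6 ≤ C₁ * Real.log 28.6 * L := by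
            calc (n : ℝ) * Real.log 28.6 ≤ C₁ * L * Real.log 28.6 := by gcongr
              _ = _ := by ring
          rw [hA]
          (clear * - h3 h4 h5; nlinarith)
        have hHd : Differentiable ℂ H := by
          rw [hH]
          exact (hFd.comp ((differentiable_const s0).add differentiable_id)).div_const _
        obtain ⟨w, hw⟩ : ∃ w : ℂ, w = s - s0 := ⟨_, rfl⟩
        have hwn : ‖w‖ ≤ 1.425 := by
          have h1 : w = ((s.re - 2 : ℝ) : ℂ) := by
            apply Complex.ext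
            · rw [hw, Complex.sub_re, hs0re, Complex.ofReal_re]
            · rw [hw, Complex.sub_im, hs0im, Complex.ofReal_im, ht, sub_self]
          rw [h1, Complex.norm_real, Real.norm_eq_abs, abs_le]
          constructor <;> (clear * - hs1 hs2; linarith)
        have hsw : s0 + w = s := by rw [hw]; ring
        have hmain := logDeriv_bound (H := H) (R := 1.43) (r₂ := 1.4275) (r₁ := 1.425) (Mt := A * L)
          (by norm_num) (by norm_num) (by norm_num) (by (clear * - hC₁ hL0; positivity)) hHd.differentiableOn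
          (fun z hz => by
            rw [hH]
            exact div_ne_zero (hne z (by rwa [mem_ball_zero_iff] at hz)) hF0)
          (by
            rw [hH]
            simp only [add_zero]
            exact div_self hF0) hHb hwn
        exact by
          have hFs : F s ≠ 0 := by
            have := hne w (by (clear * - hwn; linarith))
            rwa [hsw] at this
          have hder : deriv H w / H w = logDeriv F s := by
            have h1 : HasDerivAt H (deriv F s / F s0) w := by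
              have h2 : HasDerivAt F (deriv F s) (s0 + w) := by
                rw [hsw]
                exact (hFd s).hasDerivAt
              have h3 : HasDerivAt (fun w : ℂ => s0 + w) 1 w := (hasDerivAt_id w).const_add s0
              have h4 := (h2.comp w h3).div_const (F s0)
              rw [mul_one] at h4
              rw [hH]
              exact h4
            rw [h1.deriv, logDeriv_apply, hH]
            simp only
            rw [hsw]
            field_simp
          have hgoal1 : Qp (far M t) s * Z s ≠ 0 := by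
            rw [hF] at hFs
            exact hFs
          refine ⟨hgoal1, ?_⟩
          have hgoal2 : ‖logDeriv F s‖ ≤
              2 * A * 1.4275 / (1.43 - 1.4275) / (1.4275 - 1.425) * L := by
            rw [← hder]
            refine hmain.trans (le_of_eq ?_)
            ring
          rw [hF] at hgoal2
          exact hgoal2

end Pool.Agent.M20.Helper1.KL
end

/- Helper53.KN.Helper33.KSZ.Jensen -/
section
/-! KSZ-E2: Jensen's inequality for `EZ` at `2 + i t`; and growth of `EZ` for `Re s ≥ 0.26`. -/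

set_option autoImplicit false
open Filter Topology Complex Metric

namespace Pool.Agent.M20.Helper33.KSZ

open Pool.Agent.M20.Helper10.QRH Pool.Agent.M20.Helper69.QRH

theorem EZ_bound' : ∃ C : ℝ, 0 < C ∧ ∀ s : ℂ, 0.26 ≤ s.re → ‖EZ s‖ ≤ C * (1 + ‖s‖) ^ 2 := by
  set K : ℝ := ∑' n : ℕ, ((n : ℝ) + 1) ^ (-(1.26 : ℝ)) with hK
  have hK0 : 0 ≤ K := tsum_nonneg fun n => Real.rpow_nonneg (by (clear * -; positivity)) _
  refine ⟨K + 1, by (clear * - hK0; linarith), fun s hs => ?_⟩
  rw [EZ_eq_tsum (by norm_num at hs ⊢; (clear * - hs; linarith))]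
  have hs0 : 0 < s.re := by norm_num at hs; (clear * - hs; linarith)
  have h1 : ‖∑' n : ℕ, TT n s‖ ≤ ‖s - 1‖ * ‖s‖ * K := by
    rw [hK, ← tsum_mul_left]
    refine tsum_of_norm_bounded ((summable_rpow_aux (by norm_num)).mul_left _).hasSum fun n => ?_
    refine (TT_bound n hs0).trans ?_
    refine mul_le_mul_of_nonneg_left ?_ (by positivity)
    exact Real.rpow_le_rpow_of_exponent_le (by (clear * -; linarith [(n.cast_nonneg : (0 : ℝ) ≤ n)]))
      (by norm_num at hs ⊢; (clear * - hs; linarith))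
  have h2 : ‖s - 1‖ ≤ 1 + ‖s‖ := (norm_sub_le _ _).trans (by rw [norm_one]; (clear * -; linarith))
  have h3 := norm_nonneg s
  calc ‖∑' n : ℕ, TT n s + 1‖ ≤ ‖∑' n : ℕ, TT n s‖ + ‖(1 : ℂ)‖ := norm_add_le _ _
    _ ≤ ‖s - 1‖ * ‖s‖ * K + 1 := by
      rw [norm_one]
      (clear * - h1; linarith)
    _ ≤ (1 + ‖s‖) * (1 + ‖s‖) * K + (1 + ‖s‖) ^ 2 := by
      have h4 : ‖s - 1‖ * ‖s‖ ≤ (1 + ‖s‖) * (1 + ‖s‖) :=
        mul_le_mul h2 (by linarith) h3 (by linarith)
      have h5 := mul_le_mul_of_nonneg_right h4 hK0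
      (clear * - h3 h5; nlinarith)
    _ = (K + 1) * (1 + ‖s‖) ^ 2 := by ring

lemma log_bound {K : ℝ} (hK : 0 < K) : ∃ C : ℝ, 0 < C ∧ ∀ t : ℝ,
    Real.log (K * (5 + |t|) ^ 2) ≤ C * Real.log (|t| + 2) := by
  have hlog2 : 0 < Real.log 2 := Real.log_pos (by norm_num)
  refine ⟨|Real.log (9 * K)| / Real.log 2 + 2, by (clear * -; positivity), fun t => ?_⟩
  have ht := abs_nonneg t
  have hl : Real.log 2 ≤ Real.log (|t| + 2) := Real.log_le_log (by norm_num) (by linarith)
  calc Real.log (K * (5 + |t|) ^ 2) ≤ Real.log (9 * K * (|t| + 2) ^ 2) := by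
        apply Real.log_le_log (by (clear * - hK; positivity))
        have h9 : (5 + |t|) ^ 2 ≤ 9 * (|t| + 2) ^ 2 := by (clear * - ht; nlinarith)
        calc K * (5 + |t|) ^ 2 ≤ K * (9 * (|t| + 2) ^ 2) := by gcongr
          _ = 9 * K * (|t| + 2) ^ 2 := by ring
    _ = Real.log (9 * K) + 2 * Real.log (|t| + 2) := by
        rw [Real.log_mul (by positivity) (by positivity), Real.log_pow]
        push_cast
        ring
    _ ≤ |Real.log (9 * K)| / Real.log 2 * Real.log (|t| + 2) + 2 * Real.log (|t| + 2) := by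
        gcongr
        calc Real.log (9 * K) ≤ |Real.log (9 * K)| := le_abs_self _
          _ = |Real.log (9 * K)| / Real.log 2 * Real.log 2 := by field_simp
          _ ≤ _ := by gcongr
    _ = _ := by ring

lemma center_norm (t : ℝ) : ‖(2 : ℂ) + t * I‖ ≤ 2 + |t| := by
  refine (norm_add_le _ _).trans ?_
  rw [norm_mul, Complex.norm_I, mul_one, Complex.norm_real, Real.norm_eq_abs, Complex.norm_ofNat]

lemma EZ_center (t : ℝ) : 1 / 3 ≤ ‖EZ (2 + t * I)‖ := by
  have hre : ((2 : ℂ) + t * I).re = 2 := by simp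
  have hs01 : (2 : ℂ) + t * I ≠ 1 := by
    intro h
    have := congrArg Complex.re h
    rw [hre] at this
    norm_num at this
  rw [EZ_eq hs01, norm_mul]
  have h1 := zeta_two_line hre
  have h2 : 1 ≤ ‖(2 : ℂ) + t * I - 1‖ := by
    have := Complex.re_le_norm ((2 : ℂ) + t * I - 1)
    rw [Complex.sub_re, hre, Complex.one_re] at this
    (clear * - this; linarith)
  (clear * - h1 h2; nlinarith [norm_nonneg (riemannZeta ((2 : ℂ) + t * I))])

lemma PB_circle {s₀ : ℂ} {r : ℝ} (hr : 0 < r) (N : Multiset ℂ) {z : ℂ} (hz : ‖z - s₀‖ = r) :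
    ‖(N.map (fun ρ => Bl s₀ r ρ z)).prod‖ = ‖Qp N z‖ := by
  induction N using Multiset.induction_on with
  | empty => simp [Qp]
  | cons a N ih =>
    rw [Qp_cons, Multiset.map_cons, Multiset.prod_cons, norm_mul, norm_mul, ih,
      Bl_norm_circle hr hz]

lemma PB_center {s₀ : ℂ} {r : ℝ} (hr : 0 < r) (N : Multiset ℂ) :
    (N.map (fun ρ => Bl s₀ r ρ s₀)).prod = (r : ℂ) ^ (Multiset.card N) := by
  induction N using Multiset.induction_on with
  | empty => simp
  | cons a N ih =>
    rw [Multiset.map_cons, Multiset.prod_cons, Multiset.card_cons, pow_succ, ih,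
      Bl_center s₀ hr]
    ring

lemma PB_diff (s₀ : ℂ) (r : ℝ) (N : Multiset ℂ) :
    Differentiable ℂ (fun z => (N.map (fun ρ => Bl s₀ r ρ z)).prod) := by
  induction N using Multiset.induction_on with
  | empty => simp
  | cons a N ih =>
    simp only [Multiset.map_cons, Multiset.prod_cons]
    exact (Bl_differentiable s₀ r a).mul ih

theorem jensenEZ : Pool.Agent.M20.Helper46.KSZ.JensenEZ := by
  obtain ⟨C₀, hC₀, hEZ⟩ := EZ_bound
  obtain ⟨C, hC, hlog⟩ := log_bound (K := 3 * C₀) (by positivity)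
  have hL : 0 < Real.log (1.5 / 1.45 : ℝ) := Real.log_pos (by norm_num)
  refine ⟨C / Real.log (1.5 / 1.45), by (clear * - hC; positivity), ?_⟩
  intro N Z hZ hfac t hN
  set s₀ : ℂ := 2 + t * I with hs₀
  have hs₀re : s₀.re = 2 := by simp [hs₀]
  set h : ℂ → ℂ := fun z => (N.map (fun ρ => Bl s₀ 1.5 ρ z)).prod * Z z with hh
  have hr0 : (0 : ℝ) < 1.5 := by norm_num
  have hd : Differentiable ℂ h := (PB_diff s₀ 1.5 N).mul hZ
  have hmax : ‖h s₀‖ ≤ C₀ * (5 + |t|) ^ 2 := by
    refine Complex.norm_le_of_forall_mem_frontier_norm_le (U := ball s₀ 1.5) isBounded_ball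
      hd.diffContOnCl ?_ (subset_closure (mem_ball_self hr0))
    intro w hw
    rw [frontier_ball s₀ hr0.ne', mem_sphere, dist_eq_norm] at hw
    have h1 : ‖h w‖ = ‖EZ w‖ := by
      rw [hh, hfac w, norm_mul, norm_mul, PB_circle hr0 N hw]
    rw [h1]
    have h2 : 1 / 2 ≤ w.re := by
      have h3 := (abs_le.1 (Complex.abs_re_le_norm (w - s₀))).1
      rw [Complex.sub_re, hs₀re, hw] at h3
      norm_num at h3 ⊢
      linarith
    have h4 : ‖w‖ ≤ 1.5 + (2 + |t|) := by
      calc ‖w‖ = ‖(w - s₀) + s₀‖ := by rw [sub_add_cancel]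
        _ ≤ ‖w - s₀‖ + ‖s₀‖ := norm_add_le _ _
        _ ≤ 1.5 + (2 + |t|) := by rw [hw]; gcongr; exact center_norm t
    refine (hEZ w h2).trans ?_
    have h5 : 1 + ‖w‖ ≤ 5 + |t| := by
      norm_num at h4 ⊢
      (clear * - h4; linarith)
    (clear * - h5 hC₀; gcongr)
  have hcen : ‖h s₀‖ = 1.5 ^ Multiset.card N * ‖Z s₀‖ := by
    rw [hh]
    show ‖(N.map (fun ρ => Bl s₀ 1.5 ρ s₀)).prod * Z s₀‖ = _
    rw [PB_center hr0, norm_mul, norm_pow, Complex.norm_real, Real.norm_eq_abs,
      abs_of_pos hr0]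
  have hQ : ‖Qp N s₀‖ ≤ 1.45 ^ Multiset.card N :=
    Qp_upper N s₀ _ (by norm_num) fun ρ hρ => by rw [norm_sub_rev]; exact hN ρ hρ
  have hE := EZ_center t
  rw [← hs₀, hfac s₀, norm_mul] at hE
  set n := Multiset.card N with hn
  have hfin : (1.5 / 1.45 : ℝ) ^ n ≤ 3 * C₀ * (5 + |t|) ^ 2 := by
    have h1 : (1.5 / 1.45 : ℝ) ^ n * (1 / 3) ≤ 1.5 ^ n * ‖Z s₀‖ := by
      calc (1.5 / 1.45 : ℝ) ^ n * (1 / 3) ≤ (1.5 / 1.45 : ℝ) ^ n * (‖Qp N s₀‖ * ‖Z s₀‖) := by
            gcongr
        _ ≤ (1.5 / 1.45 : ℝ) ^ n * (1.45 ^ n * ‖Z s₀‖) := by (clear * - hQ; gcongr)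
        _ = 1.5 ^ n * ‖Z s₀‖ := by
            rw [div_pow]
            (clear * -; field_simp)
    rw [← hcen] at h1
    have h2 := h1.trans hmax
    (clear * - hmax h1; linarith)
  have h1 : (n : ℝ) * Real.log (1.5 / 1.45) ≤ C * Real.log (|t| + 2) := by
    rw [← Real.log_pow]
    refine le_trans (Real.log_le_log (by positivity) hfin) (hlog t)
  rw [div_mul_eq_mul_div, le_div_iff₀ hL]
  exact h1

end Pool.Agent.M20.Helper33.KSZ
end

/- Helper53.KN.Helper9.KSZ.KerFacts -/
section
/-! KSZ-E8: facts on the iterated triangle kernels. -/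

set_option autoImplicit false
open MeasureTheory

namespace Pool.Agent.M20.Helper9.KSZ

open Pool.Agent.M20.Helper10.QRH Pool.Agent.M20.Helper46.KSZ Pool.Agent.M20.Helper79.QRH

theorem tri_integrable {lam : ℝ} (hl : 0 < lam) : Integrable (tri lam) := by
  refine (tri_cont lam).integrable_of_hasCompactSupport ?_
  refine HasCompactSupport.intro (K := Set.Icc (-lam) lam) isCompact_Icc ?_
  intro v hv
  refine tri_zero hl ?_
  by_contra h
  push Not at h
  exact hv ⟨(abs_lt.1 h).1.le, (abs_lt.1 h).2.le⟩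

theorem tri_integral {lam : ℝ} (hl : 0 < lam) : ∫ v : ℝ, tri lam v = 1 := by
  have h0 : ∫ v : ℝ, tri lam v = ∫ v in (-lam)..lam, tri lam v := by
    rw [intervalIntegral.integral_of_le (by linarith)]
    symm
    apply setIntegral_eq_integral_of_forall_compl_eq_zero
    intro v hv
    apply tri_zero hl
    rw [Set.mem_Ioc, not_and_or, not_lt, not_le] at hv
    rcases hv with h | h
    · rw [le_abs]; right; linarith
    · rw [le_abs]; left; exact h.le
  have hc : ∀ a b : ℝ, IntervalIntegrable (tri lam) volume a b :=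
    fun a b => (tri_cont lam).intervalIntegrable a b
  rw [h0, ← intervalIntegral.integral_add_adjacent_intervals (hc (-lam) 0) (hc 0 lam)]
  have h1 : ∫ v in (-lam)..0, tri lam v = ∫ v in (-lam)..0, (1 / lam + v / lam ^ 2) := by
    apply intervalIntegral.integral_congr
    intro v hv
    rw [Set.uIcc_of_le (by linarith)] at hv
    show tri lam v = _
    unfold tri
    rw [abs_of_nonpos hv.2]
    have : 0 ≤ 1 - -v / lam := by
      have : -v / lam ≤ 1 := (div_le_one hl).2 (by linarith [hv.1])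
      linarith
    rw [max_eq_right this]
    field_simp
    ring
  have h2 : ∫ v in (0 : ℝ)..lam, tri lam v = ∫ v in (0 : ℝ)..lam, (1 / lam - v / lam ^ 2) := by
    apply intervalIntegral.integral_congr
    intro v hv
    rw [Set.uIcc_of_le hl.le] at hv
    show tri lam v = _
    unfold tri
    rw [abs_of_nonneg hv.1]
    have : 0 ≤ 1 - v / lam := by
      have : v / lam ≤ 1 := (div_le_one hl).2 hv.2
      linarith
    rw [max_eq_right this]
    field_simp
  rw [h1, h2]
  rw [intervalIntegral.integral_add (by simp) (by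
    apply Continuous.intervalIntegrable; fun_prop)]
  rw [intervalIntegral.integral_sub (by simp) (by
    apply Continuous.intervalIntegrable; fun_prop)]
  simp only [intervalIntegral.integral_const, intervalIntegral.integral_div, integral_id]
  simp only [smul_eq_mul]
  field_simp
  ring

theorem kerFacts : KerFacts := by
  intro lam hl j
  induction j with
  | zero =>
    refine ⟨tri_cont lam, fun v => tri_nonneg hl, fun v => tri_le hl, ?_⟩
    intro v hv
    refine tri_zero hl ?_
    simpa using hv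
  | succ j ih =>
    obtain ⟨hc, hn, hb, hz⟩ := ih
    have hint : Integrable (fun w : ℝ => tri lam w * (1 / lam)) := (tri_integrable hl).mul_const _
    have hle : ∀ v w : ℝ, ‖tri lam w * ker lam j (v - w)‖ ≤ tri lam w * (1 / lam) := by
      intro v w
      rw [Real.norm_of_nonneg (mul_nonneg (tri_nonneg hl) (hn _))]
      exact mul_le_mul_of_nonneg_left (hb _) (tri_nonneg hl)
    have hcw : ∀ v : ℝ, Continuous fun w : ℝ => tri lam w * ker lam j (v - w) := by
      intro v
      exact (tri_cont lam).mul (hc.comp (continuous_const.sub continuous_id))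
    have hi : ∀ v : ℝ, Integrable fun w : ℝ => tri lam w * ker lam j (v - w) := by
      intro v
      exact hint.mono' (hcw v).aestronglyMeasurable (Filter.Eventually.of_forall (hle v))
    refine ⟨?_, ?_, ?_, ?_⟩
    · show Continuous fun v : ℝ => ∫ w : ℝ, tri lam w * ker lam j (v - w)
      refine continuous_of_dominated (bound := fun w : ℝ => tri lam w * (1 / lam))
        (fun v => (hcw v).aestronglyMeasurable) (fun v => Filter.Eventually.of_forall (hle v))
        hint (Filter.Eventually.of_forall ?_)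
      intro w
      exact continuous_const.mul (hc.comp (continuous_id.sub continuous_const))
    · intro v
      show 0 ≤ ∫ w : ℝ, tri lam w * ker lam j (v - w)
      exact integral_nonneg fun w => mul_nonneg (tri_nonneg hl) (hn _)
    · intro v
      show ∫ w : ℝ, tri lam w * ker lam j (v - w) ≤ 1 / lam
      calc ∫ w : ℝ, tri lam w * ker lam j (v - w) ≤ ∫ w : ℝ, tri lam w * (1 / lam) :=
            integral_mono (hi v) hint fun w =>
              mul_le_mul_of_nonneg_left (hb _) (tri_nonneg hl)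
        _ = 1 / lam := by rw [integral_mul_const, tri_integral hl, one_mul]
    · intro v hv
      show ∫ w : ℝ, tri lam w * ker lam j (v - w) = 0
      have : ∀ w : ℝ, tri lam w * ker lam j (v - w) = 0 := by
        intro w
        by_cases hw : lam ≤ |w|
        · rw [tri_zero hl hw, zero_mul]
        · push Not at hw
          rw [hz (v - w), mul_zero]
          push_cast at hv
          have h1 : |v| ≤ |v - w| + |w| := by
            have := abs_add_le (v - w) w
            simpa using this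
          nlinarith
      simp only [this, integral_zero]

end Pool.Agent.M20.Helper9.KSZ
end

/- Helper53.KN.Helper33.KSZ.LandauGen -/
section
/-! KSZ A8, general radii `r₁ < r₂ < r < R`. -/

set_option autoImplicit false
open Filter Topology Complex Metric

namespace Pool.Agent.M20.Helper33.KSZ

lemma Bl_low {s₀ : ℂ} {r ρ₁ ρ₂ : ℝ} {c z : ℂ} (hr : 0 ≤ r) (hρ₂ : 0 ≤ ρ₂) (hc : ‖c - s₀‖ ≤ ρ₂)
    (hz : ‖z - s₀‖ ≤ ρ₁) :
    r ^ 2 - ρ₂ * ρ₁ ≤ ‖(r : ℂ) ^ 2 - (starRingEnd ℂ) (c - s₀) * (z - s₀)‖ := by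
  have h1 := norm_sub_norm_le ((r : ℂ) ^ 2) ((starRingEnd ℂ) (c - s₀) * (z - s₀))
  rw [norm_pow, Complex.norm_real, Real.norm_eq_abs, abs_of_nonneg hr, norm_mul,
    RCLike.norm_conj] at h1
  have h2 : ‖c - s₀‖ * ‖z - s₀‖ ≤ ρ₂ * ρ₁ :=
    mul_le_mul hc hz (norm_nonneg _) hρ₂
  linarith

lemma Bl_logDeriv_gen {s₀ : ℂ} {r ρ₁ ρ₂ : ℝ} {c z : ℂ} (hr : 0 < r) (hρ₂ : 0 ≤ ρ₂)
    (hc : ‖c - s₀‖ ≤ ρ₂) (hz : ‖z - s₀‖ ≤ ρ₁) (hpos : 0 < r ^ 2 - ρ₂ * ρ₁) :
    ‖logDeriv (Bl s₀ r c) z‖ ≤ ρ₂ / (r ^ 2 - ρ₂ * ρ₁) := by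
  have h1 := Bl_low hr.le hρ₂ hc hz
  have hr' : (r : ℂ) ≠ 0 := by exact_mod_cast hr.ne'
  have h2 : HasDerivAt (Bl s₀ r c) (-(starRingEnd ℂ) (c - s₀) / (r : ℂ)) z := by
    have h3 : HasDerivAt (fun z : ℂ => z - s₀) 1 z := (hasDerivAt_id z).sub_const s₀
    have h4 := ((h3.const_mul ((starRingEnd ℂ) (c - s₀))).const_sub ((r : ℂ) ^ 2)).div_const (r : ℂ)
    rw [mul_one] at h4
    exact h4
  rw [logDeriv_apply, h2.deriv, Bl]
  have hne : (r : ℂ) ^ 2 - (starRingEnd ℂ) (c - s₀) * (z - s₀) ≠ 0 := by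
    intro h0
    rw [h0, norm_zero] at h1
    (clear * - hpos h1; linarith)
  have h5 : -(starRingEnd ℂ) (c - s₀) / (r : ℂ) /
      (((r : ℂ) ^ 2 - (starRingEnd ℂ) (c - s₀) * (z - s₀)) / (r : ℂ)) =
      -(starRingEnd ℂ) (c - s₀) / ((r : ℂ) ^ 2 - (starRingEnd ℂ) (c - s₀) * (z - s₀)) := by
    (clear * - hr' hne; field_simp)
  rw [h5, norm_div, norm_neg, RCLike.norm_conj]
  exact div_le_div₀ hρ₂ hc hpos h1

/-- **Landau's lemma**, general radii. -/
theorem landau_gen {s₀ : ℂ} {r₁ r₂ r R M : ℝ} {F : ℂ → ℂ} (hr₁ : 0 < r₁) (h12 : r₁ < r₂)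
    (h2r : r₂ < r) (hrR : r < R) (hM : 0 < M)
    (hF : DifferentiableOn ℂ F (ball s₀ R)) (h0 : F s₀ ≠ 0)
    (hb : ∀ z ∈ ball s₀ R, ‖F z‖ ≤ Real.exp M * ‖F s₀‖) :
    ∃ S : Finset ℂ, (∀ z, z ∈ S ↔ z ∈ closedBall s₀ r₂ ∧ F z = 0) ∧
      (∑ c ∈ S, (analyticOrderNatAt F c : ℝ)) * Real.log (r / r₂) ≤ M ∧
      ∀ z ∈ closedBall s₀ r₁, F z ≠ 0 →
        ‖deriv F z / F z - ∑ c ∈ S, (analyticOrderNatAt F c : ℂ) / (z - c)‖ ≤
          8 * M * r₂ / (r₂ - r₁) ^ 2 +
          (∑ c ∈ S, (analyticOrderNatAt F c : ℝ)) * (r₂ / (r ^ 2 - r₂ * r₁)) := by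
  classical
  have hr₂ : 0 < r₂ := hr₁.trans h12
  have hr0 : 0 < r := hr₂.trans h2r
  have hR : 0 < R := hr0.trans hrR
  have hs0B : s₀ ∈ ball s₀ R := mem_ball_self hR
  have hfin := zeros_finite (r := r₂) (by (clear * - h2r hrR; linarith)) hF ⟨s₀, hs0B, h0⟩
  set S : Finset ℂ := hfin.toFinset with hS
  exact by
    have hSmem : ∀ z, z ∈ S ↔ z ∈ closedBall s₀ r₂ ∧ F z = 0 := by
      intro z
      rw [hS, Set.Finite.mem_toFinset]
      rfl
    have hSn : ∀ c ∈ S, ‖c - s₀‖ ≤ r₂ := by
      intro c hc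
      have := ((hSmem c).1 hc).1
      rwa [mem_closedBall, dist_eq_norm] at this
    obtain ⟨g, hg, hgS, hFg⟩ := factor_fin S hF ⟨s₀, hs0B, h0⟩ (fun c hc => by
      rw [mem_ball, dist_eq_norm]
      (clear * - h2r hrR hSn hc; linarith [hSn c hc]))
    set m : ℂ → ℕ := fun c => analyticOrderNatAt F c with hm
    set P : ℂ → ℂ := fun z => ∏ c ∈ S, Bl s₀ r c z ^ m c with hP
    set h : ℂ → ℂ := fun z => P z * g z with hh
    set N : ℕ := ∑ c ∈ S, m c with hN
    exact by
      have hPd : Differentiable ℂ P := by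
        rw [hP]
        exact Differentiable.fun_finsetProd fun c _ => (Bl_differentiable s₀ r c).pow _
      have hhd : DifferentiableOn ℂ h (ball s₀ R) := hPd.differentiableOn.mul hg
      -- bound on the circle
      have hcirc : ∀ z : ℂ, ‖z - s₀‖ = r → ‖h z‖ ≤ Real.exp M * ‖F s₀‖ := by
        intro z hz
        have hzB : z ∈ ball s₀ R := by
          rw [mem_ball, dist_eq_norm, hz]
          (clear * - hrR; linarith)
        have h1 : ‖h z‖ = ‖F z‖ := by
          rw [hFg z]
          simp only [hh, hP, norm_mul, norm_prod, norm_pow]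
          congr 1
          exact Finset.prod_congr rfl fun c hc => by rw [Bl_norm_circle hr0 hz]
        rw [h1]
        exact hb z hzB
      have hmax : ∀ z : ℂ, ‖z - s₀‖ ≤ r → ‖h z‖ ≤ Real.exp M * ‖F s₀‖ := by
        intro z hz
        have hd : DiffContOnCl ℂ h (ball s₀ r) := by
          refine DifferentiableOn.diffContOnCl ?_
          rw [closure_ball s₀ hr0.ne']
          exact hhd.mono (closedBall_subset_ball (by linarith))
        refine Complex.norm_le_of_forall_mem_frontier_norm_le isBounded_ball hd ?_ ?_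
        · intro w hw
          rw [frontier_ball s₀ hr0.ne', mem_sphere, dist_eq_norm] at hw
          exact hcirc w hw
        · rw [closure_ball s₀ hr0.ne', mem_closedBall, dist_eq_norm]
          exact hz
      -- the centre
      have hgs : ‖h s₀‖ = r ^ N * ‖g s₀‖ := by
        have h1 : h s₀ = (∏ c ∈ S, (r : ℂ) ^ m c) * g s₀ := by
          simp only [hh, hP]
          congr 1
          exact Finset.prod_congr rfl fun c hc => by rw [Bl_center s₀ hr0]
        rw [h1, Finset.prod_pow_eq_pow_sum, norm_mul, norm_pow, Complex.norm_real, Real.norm_eq_abs,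
          abs_of_pos hr0]
      have hFs : ‖F s₀‖ ≤ r₂ ^ N * ‖g s₀‖ := by
        rw [hFg s₀, norm_mul, norm_prod]
        refine mul_le_mul_of_nonneg_right ?_ (norm_nonneg _)
        rw [hN, ← Finset.prod_pow_eq_pow_sum]
        refine Finset.prod_le_prod (fun _ _ => norm_nonneg _) fun c hc => ?_
        rw [norm_pow]
        refine pow_le_pow_left₀ (norm_nonneg _) ?_ _
        rw [norm_sub_rev]
        exact hSn c hc
      exact by
        have hF0 : 0 < ‖F s₀‖ := norm_pos_iff.2 h0
        have hratio : (r / r₂) ^ N * ‖F s₀‖ ≤ ‖h s₀‖ := by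
          calc (r / r₂) ^ N * ‖F s₀‖ ≤ (r / r₂) ^ N * (r₂ ^ N * ‖g s₀‖) := by (clear * - hFs hr0 hr₂; gcongr)
            _ = (r / r₂ * r₂) ^ N * ‖g s₀‖ := by rw [mul_pow]; ring
            _ = ‖h s₀‖ := by
              rw [hgs, div_mul_cancel₀ _ hr₂.ne']
        have hpow : (r / r₂) ^ N ≤ Real.exp M := by
          have h1 := hmax s₀ (by rw [sub_self, norm_zero]; exact hr0.le)
          have h2 := hratio.trans h1
          exact le_of_mul_le_mul_right h2 hF0
        have hNM : (N : ℝ) * Real.log (r / r₂) ≤ M := by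
          have h1 : Real.log ((r / r₂) ^ N) ≤ M := by
            rw [Real.log_le_iff_le_exp (by positivity)]
            exact hpow
          rwa [Real.log_pow] at h1
        have hsN : (∑ c ∈ S, (analyticOrderNatAt F c : ℝ)) = N := by
          rw [hN]
          push_cast
          rfl
        refine ⟨S, hSmem, by rw [hsN]; exact hNM, ?_⟩
        rw [hsN]
        intro z hz hFz
        have hzn : ‖z - s₀‖ ≤ r₁ := by
          rwa [mem_closedBall, dist_eq_norm] at hz
        exact by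
          have hzB : z ∈ ball s₀ R := by
            rw [mem_ball, dist_eq_norm]
            (clear * - h12 h2r hrR hzn; linarith)
          have hgz : g z ≠ 0 := by
            intro h1
            apply hFz
            rw [hFg, h1, mul_zero]
          have hh0 : ‖F s₀‖ ≤ ‖h s₀‖ := by
            refine le_trans ?_ hratio
            have : (1 : ℝ) ≤ (r / r₂) ^ N := one_le_pow₀ (by rw [le_div_iff₀ hr₂]; (clear * - h2r; linarith))
            (clear * - hF0 this; nlinarith)
          have hhs0 : h s₀ ≠ 0 := norm_pos_iff.1 (hF0.trans_le hh0)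
          have hpos22 : 0 < r ^ 2 - r₂ * r₂ := by (clear * - hr₁ h2r h12; nlinarith)
          have hpos21 : 0 < r ^ 2 - r₂ * r₁ := by (clear * - hpos22 hr₁ h12; nlinarith)
          -- non-vanishing of h
          exact by
            have hBl0 : ∀ c ∈ S, ∀ w : ℂ, ‖w - s₀‖ ≤ r₂ → Bl s₀ r c w ≠ 0 := by
              intro c hc w hw h1
              have h2 := Bl_low hr0.le hr₂.le (hSn c hc) hw
              rw [Bl, div_eq_zero_iff] at h1
              rcases h1 with h1 | h1
              · rw [h1, norm_zero] at h2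
                (clear * - hpos22 h2; linarith)
              · exact hr0.ne' (by exact_mod_cast h1)
            have hhne : ∀ w : ℂ, ‖w - s₀‖ ≤ r₂ → h w ≠ 0 := by
              intro w hw
              have hwB : w ∈ ball s₀ R := by
                rw [mem_ball, dist_eq_norm]
                (clear * - h2r hrR hw; linarith)
              refine mul_ne_zero ?_ ?_
              · rw [hP]
                exact Finset.prod_ne_zero_iff.2 fun c hc => pow_ne_zero _ (hBl0 c hc w hw)
              · intro h1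
                have h2 : F w = 0 := by rw [hFg, h1, mul_zero]
                have h3 : w ∈ S := (hSmem w).2 ⟨by rw [mem_closedBall, dist_eq_norm]; exact hw, h2⟩
                exact hgS w h3 h1
            set H : ℂ → ℂ := fun w => h (s₀ + w) / h s₀ with hH
            have hHd : DifferentiableOn ℂ H (ball 0 r₂) := by
              refine DifferentiableOn.div_const ?_ _
              refine hhd.comp (by fun_prop) ?_
              intro w hw
              rw [mem_ball_zero_iff] at hw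
              show s₀ + w ∈ ball s₀ R
              rw [mem_ball, dist_eq_norm, add_sub_cancel_left]
              (clear * - h2r hrR hw; linarith)
            have hHne : ∀ w ∈ ball (0 : ℂ) r₂, H w ≠ 0 := by
              intro w hw
              rw [mem_ball_zero_iff] at hw
              exact div_ne_zero (hhne _ (by rw [add_sub_cancel_left]; exact hw.le)) hhs0
            have hH0 : H 0 = 1 := by
              rw [hH]
              show h (s₀ + 0) / h s₀ = 1
              rw [add_zero, div_self hhs0]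
            exact by
              have hHb : ∀ w ∈ ball (0 : ℂ) r₂, ‖H w‖ ≤ Real.exp M := by
                intro w hw
                rw [mem_ball_zero_iff] at hw
                show ‖h (s₀ + w) / h s₀‖ ≤ _
                rw [norm_div, div_le_iff₀ (norm_pos_iff.2 hhs0)]
                refine (hmax _ (by rw [add_sub_cancel_left]; (clear * - h2r hw; linarith))).trans ?_
                (clear * - hh0; gcongr)
              have hmain := Pool.Agent.M20.Helper69.QRH.logDeriv_bound (r₁ := r₁) (r₂ := (r₁ + r₂) / 2)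
                hr₁ (by (clear * - h12; linarith)) (by (clear * - h12; linarith)) hM hHd hHne hH0 hHb hzn
              have hcalc : 2 * M * ((r₁ + r₂) / 2) / (r₂ - (r₁ + r₂) / 2) / ((r₁ + r₂) / 2 - r₁) ≤
                  8 * M * r₂ / (r₂ - r₁) ^ 2 := by
                have hd : 0 < r₂ - r₁ := by (clear * - h12; linarith)
                have h1 : r₂ - (r₁ + r₂) / 2 = (r₂ - r₁) / 2 := by ring
                have h2 : (r₁ + r₂) / 2 - r₁ = (r₂ - r₁) / 2 := by ring
                rw [h1, h2]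
                have h3 : 2 * M * ((r₁ + r₂) / 2) / ((r₂ - r₁) / 2) / ((r₂ - r₁) / 2) =
                    4 * M * (r₁ + r₂) / (r₂ - r₁) ^ 2 := by
                  field_simp
                  ring
                rw [h3]
                apply div_le_div_of_nonneg_right _ (by positivity)
                (clear * - h12 hM; nlinarith)
              have hmain := hmain.trans hcalc
              -- derivative of H
              have hhz : DifferentiableAt ℂ h z := hhd.differentiableAt (isOpen_ball.mem_nhds hzB)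
              have hHz : deriv H (z - s₀) / H (z - s₀) = logDeriv h z := by
                have h1 : HasDerivAt (fun w : ℂ => s₀ + w) 1 (z - s₀) := (hasDerivAt_id _).const_add s₀
                have h2 : HasDerivAt h (deriv h z) (s₀ + (z - s₀)) := by
                  rw [add_sub_cancel]
                  exact hhz.hasDerivAt
                have h3 : HasDerivAt H (deriv h z * 1 / h s₀) (z - s₀) := (h2.comp _ h1).div_const _
                rw [h3.deriv, logDeriv_apply]
                show deriv h z * 1 / h s₀ / (h (s₀ + (z - s₀)) / h s₀) = _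
                rw [add_sub_cancel]
                have := hhne z (by (clear * - h12 hzn; linarith))
                (clear * - hhs0 this; field_simp)
              exact by
                rw [hHz] at hmain
                -- logarithmic derivatives
                have hBne : ∀ c ∈ S, Bl s₀ r c z ≠ 0 := fun c hc => hBl0 c hc z (by (clear * - h12 hzn; linarith))
                have hgzd : DifferentiableAt ℂ g z := hg.differentiableAt (isOpen_ball.mem_nhds hzB)
                have hlP : logDeriv P z = ∑ c ∈ S, (m c : ℂ) * logDeriv (Bl s₀ r c) z := by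
                  rw [hP, logDeriv_prod (f := fun c z => Bl s₀ r c z ^ m c)
                    (fun c hc => pow_ne_zero _ (hBne c hc))
                    (fun c _ => ((Bl_differentiable s₀ r c).pow _) z)]
                  exact Finset.sum_congr rfl fun c _ => logDeriv_fun_pow (Bl_differentiable s₀ r c z) _
                have hlh : logDeriv h z = ∑ c ∈ S, (m c : ℂ) * logDeriv (Bl s₀ r c) z + logDeriv g z := by
                  rw [hh, logDeriv_mul (f := P) (g := g) z
                    (by rw [hP]; exact Finset.prod_ne_zero_iff.2 fun c hc => pow_ne_zero _ (hBne c hc)) hgz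
                    (hPd z) hgzd, hlP]
                have hzS : ∀ c ∈ S, z - c ≠ 0 := by
                  intro c hc h1
                  rw [sub_eq_zero] at h1
                  rw [h1] at hFz
                  exact hFz ((hSmem c).1 hc).2
                have hlF : deriv F z / F z = ∑ c ∈ S, (m c : ℂ) / (z - c) + logDeriv g z := by
                  rw [← logDeriv_apply]
                  have h1 : F = fun z => (∏ c ∈ S, (z - c) ^ m c) * g z := funext hFg
                  conv_lhs => rw [h1]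
                  rw [logDeriv_mul (f := fun z => ∏ c ∈ S, (z - c) ^ m c) (g := g) z
                    (Finset.prod_ne_zero_iff.2 fun c hc => pow_ne_zero _ (hzS c hc)) hgz
                    (DifferentiableAt.fun_finsetProd fun c _ => by fun_prop) hgzd,
                    logDeriv_prod (f := fun c z => (z - c) ^ m c)
                    (fun c hc => pow_ne_zero _ (hzS c hc)) (fun c _ => by fun_prop)]
                  congr 1
                  refine Finset.sum_congr rfl fun c _ => ?_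
                  rw [logDeriv_fun_pow (f := fun z => z - c) (by fun_prop), logDeriv_apply]
                  have h3 : HasDerivAt (fun z : ℂ => z - c) 1 z := (hasDerivAt_id z).sub_const c
                  rw [h3.deriv]
                  ring
                have hdiff : deriv F z / F z - ∑ c ∈ S, (analyticOrderNatAt F c : ℂ) / (z - c) =
                    logDeriv h z - ∑ c ∈ S, (m c : ℂ) * logDeriv (Bl s₀ r c) z := by
                  rw [hlF, hlh]
                  simp only [hm]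
                  ring
                exact by
                  rw [hdiff]
                  refine (norm_sub_le _ _).trans (add_le_add hmain ?_)
                  refine (norm_sum_le _ _).trans ?_
                  calc ∑ c ∈ S, ‖(m c : ℂ) * logDeriv (Bl s₀ r c) z‖
                      ≤ ∑ c ∈ S, (m c : ℝ) * (r₂ / (r ^ 2 - r₂ * r₁)) := by
                        refine Finset.sum_le_sum fun c hc => ?_
                        rw [norm_mul, Complex.norm_natCast]
                        exact mul_le_mul_of_nonneg_left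
                          (Bl_logDeriv_gen hr0 hr₂.le (hSn c hc) hzn hpos21) (Nat.cast_nonneg _)
                    _ = (N : ℝ) * (r₂ / (r ^ 2 - r₂ * r₁)) := by
                        rw [← Finset.sum_mul, hN]
                        push_cast
                        rfl

end Pool.Agent.M20.Helper33.KSZ
end

/- Helper53.KN.Helper33.KSZ.ZetaLocal -/
section
/-! KSZ A9: zeta locally. -/

set_option autoImplicit false
open Filter Topology Complex Metric

namespace Pool.Agent.M20.Helper33.KSZ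

open Pool.Agent.M20.Helper10.QRH Pool.Agent.M20.Helper69.QRH

/-- Landau's lemma for `EZ` at `2 + i t`. -/
theorem local_EZ : ∃ C : ℝ, 0 < C ∧ ∀ t : ℝ, ∃ S : Finset ℂ,
    (∀ z, z ∈ S ↔ z ∈ closedBall ((2 : ℂ) + t * I) 1.6 ∧ EZ z = 0) ∧
    (∑ c ∈ S, (analyticOrderNatAt EZ c : ℝ)) ≤ C * Real.log (|t| + 2) ∧
    ∀ z ∈ closedBall ((2 : ℂ) + t * I) 1.5, EZ z ≠ 0 →
      ‖deriv EZ z / EZ z - ∑ c ∈ S, (analyticOrderNatAt EZ c : ℂ) / (z - c)‖ ≤
        C * Real.log (|t| + 2) := by
  obtain ⟨C₀, hC₀, hEZ⟩ := EZ_bound'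
  obtain ⟨C, hC, hlog⟩ := log_bound (K := 3 * C₀) (by positivity)
  have hlog2 : 0 < Real.log 2 := Real.log_pos (by norm_num)
  have hL : 0 < Real.log (1.7 / 1.6 : ℝ) := Real.log_pos (by norm_num)
  set A : ℝ := 8 * 1.6 / (1.6 - 1.5) ^ 2 + 1 / Real.log (1.7 / 1.6) * (1.6 / (1.7 ^ 2 - 1.6 * 1.5))
    with hA
  have hA0 : 0 < A := by
    rw [hA]
    have : (0 : ℝ) < 1.6 / (1.7 ^ 2 - 1.6 * 1.5) := by norm_num
    (clear * -; positivity)
  refine ⟨C * A + C / Real.log (1.7 / 1.6), by (clear * - hC; positivity), fun t => ?_⟩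
  set s₀ : ℂ := 2 + t * I with hs₀
  have hs₀re : s₀.re = 2 := by simp [hs₀]
  have ht := abs_nonneg t
  have hlt : 0 < Real.log (|t| + 2) := Real.log_pos (by (clear * - ht; linarith))
  set M : ℝ := C * Real.log (|t| + 2) with hM
  have hM0 : 0 < M := by (clear * - hC hlt; positivity)
  have hcen := EZ_center t
  rw [← hs₀] at hcen
  have h0 : EZ s₀ ≠ 0 := by
    intro h
    rw [h, norm_zero] at hcen
    norm_num at hcen
  have hb : ∀ z ∈ ball s₀ 1.73, ‖EZ z‖ ≤ Real.exp M * ‖EZ s₀‖ := by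
    intro w hw
    rw [mem_ball, dist_eq_norm] at hw
    have h2 : 0.26 ≤ w.re := by
      have h3 := (abs_le.1 (Complex.abs_re_le_norm (w - s₀))).1
      rw [Complex.sub_re, hs₀re] at h3
      norm_num at h3 hw ⊢
      (clear * - h3 hw; linarith)
    have h4 : ‖w‖ ≤ 1.73 + (2 + |t|) := by
      calc ‖w‖ = ‖(w - s₀) + s₀‖ := by rw [sub_add_cancel]
        _ ≤ ‖w - s₀‖ + ‖s₀‖ := norm_add_le _ _
        _ ≤ 1.73 + (2 + |t|) := by
          gcongr
          exact center_norm t
    have h5 : 1 + ‖w‖ ≤ 5 + |t| := by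
      norm_num at h4 ⊢
      (clear * - h4; linarith)
    have h6 : 3 * C₀ * (5 + |t|) ^ 2 ≤ Real.exp M := by
      rw [← Real.log_le_iff_le_exp (by positivity)]
      exact hlog t
    calc ‖EZ w‖ ≤ C₀ * (1 + ‖w‖) ^ 2 := hEZ w h2
      _ ≤ C₀ * (5 + |t|) ^ 2 := by gcongr
      _ = 3 * C₀ * (5 + |t|) ^ 2 * (1 / 3) := by ring
      _ ≤ Real.exp M * ‖EZ s₀‖ := by gcongr
  obtain ⟨S, hS, hcard, hld⟩ := landau_gen (s₀ := s₀) (r₁ := 1.5) (r₂ := 1.6) (r := 1.7)
    (R := 1.73) (M := M) (by norm_num) (by norm_num) (by norm_num) (by norm_num) hM0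
    EZ_differentiable.differentiableOn h0 hb
  have hcard' : (∑ c ∈ S, (analyticOrderNatAt EZ c : ℝ)) ≤ M / Real.log (1.7 / 1.6) := by
    rw [le_div_iff₀ hL]
    exact hcard
  refine ⟨S, hS, ?_, ?_⟩
  · refine hcard'.trans ?_
    rw [hM, add_mul]
    have : 0 ≤ C * A * Real.log (|t| + 2) := by (clear * - hC hlt; positivity)
    have h2 : C * Real.log (|t| + 2) / Real.log (1.7 / 1.6) =
      C / Real.log (1.7 / 1.6) * Real.log (|t| + 2) := by ring
    rw [h2]
    (clear * - this; linarith)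
  · intro z hz hz0
    refine (hld z hz hz0).trans ?_
    have hq : (0 : ℝ) < 1.6 / (1.7 ^ 2 - 1.6 * 1.5) := by norm_num
    have h1 : (∑ c ∈ S, (analyticOrderNatAt EZ c : ℝ)) * (1.6 / (1.7 ^ 2 - 1.6 * 1.5)) ≤
        M / Real.log (1.7 / 1.6) * (1.6 / (1.7 ^ 2 - 1.6 * 1.5)) := by gcongr
    have h2 : 8 * M * 1.6 / (1.6 - 1.5) ^ 2 + M / Real.log (1.7 / 1.6) *
        (1.6 / (1.7 ^ 2 - 1.6 * 1.5)) = M * A := by
      rw [hA]
      ring
    have h3 : M * A ≤ (C * A + C / Real.log (1.7 / 1.6)) * Real.log (|t| + 2) := by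
      rw [hM, add_mul]
      have : 0 ≤ C / Real.log (1.7 / 1.6) * Real.log (|t| + 2) := by positivity
      (clear * - this; nlinarith)
    (clear * - hcard' h2 h3; linarith)

lemma zero_facts {ρ : ℂ} (h : riemannZeta ρ = 0) : ρ ≠ 1 ∧ ρ.re < 1 ∧ EZ ρ = 0 := by
  have h1 : ρ ≠ 1 := by
    rintro rfl
    exact riemannZeta_one_ne_zero h
  refine ⟨h1, ?_, by rw [EZ_eq h1, h, mul_zero]⟩
  by_contra h3
  exact riemannZeta_ne_zero_of_one_le_re (not_lt.1 h3) h

lemma zero_of_EZ {z : ℂ} (hz : EZ z = 0) : riemannZeta z = 0 ∧ z ≠ 1 := by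
  have h1 : z ≠ 1 := by
    rintro rfl
    rw [EZ_one] at hz
    exact one_ne_zero hz
  rw [EZ_eq h1] at hz
  exact ⟨(mul_eq_zero.1 hz).resolve_left (sub_ne_zero.2 h1), h1⟩

lemma log_shift (t a : ℝ) (ha : |a| ≤ 1 / 2) :
    Real.log (|t + a| + 2) ≤ 2 * Real.log (|t| + 2) := by
  have ht := abs_nonneg t
  have h1 : |t + a| ≤ |t| + |a| := abs_add_le t a
  have h2 : Real.log (|t + a| + 2) ≤ Real.log ((|t| + 2) ^ 2) := by
    apply Real.log_le_log
    · have := abs_nonneg (t + a)
      (clear * - this; linarith)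
    · (clear * - ha ht h1; nlinarith)
  rw [Real.log_pow] at h2
  push_cast at h2
  exact h2

lemma mem_disc {t : ℝ} {ρ : ℂ} (h1 : 1 / 2 ≤ ρ.re) (h2 : ρ.re < 1) (h3 : |ρ.im - t| ≤ 1 / 2) :
    ρ ∈ closedBall ((2 : ℂ) + t * I) 1.6 := by
  rw [mem_closedBall, dist_eq_norm]
  have hre : (ρ - ((2 : ℂ) + t * I)).re = ρ.re - 2 := by simp
  have him : (ρ - ((2 : ℂ) + t * I)).im = ρ.im - t := by simp
  have h4 : ‖ρ - ((2 : ℂ) + t * I)‖ ^ 2 = (ρ.re - 2) ^ 2 + (ρ.im - t) ^ 2 := by
    rw [← Complex.normSq_eq_norm_sq, Complex.normSq_apply, hre, him]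
    ring
  have h5 : (ρ.im - t) ^ 2 ≤ (1 / 2) ^ 2 := sq_le_sq' (by (clear * - h3; linarith [(abs_le.1 h3).1]))
    (abs_le.1 h3).2
  have h6 : ‖ρ - ((2 : ℂ) + t * I)‖ ^ 2 ≤ 1.6 ^ 2 := by
    rw [h4]
    norm_num at h5 ⊢
    (clear * - h1 h2 h5; nlinarith)
  exact (pow_le_pow_iff_left₀ (norm_nonneg _) (by norm_num) (by norm_num)).1 h6

/-- **(A9 i)** -/
theorem zeta_count : ∃ C : ℝ, 0 < C ∧ ∀ (t : ℝ) (F : Finset ℂ),
    (∀ ρ ∈ F, riemannZeta ρ = 0 ∧ 1 / 2 ≤ ρ.re ∧ |ρ.im - t| ≤ 1) →
    ∑ ρ ∈ F, (analyticOrderNatAt riemannZeta ρ : ℝ) ≤ C * Real.log (|t| + 2) := by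
  classical
  obtain ⟨C, hC, hloc⟩ := local_EZ
  refine ⟨4 * C, by positivity, fun t F hF => ?_⟩
  obtain ⟨S1, hS1, hc1, -⟩ := hloc (t + 1 / 2)
  obtain ⟨S2, hS2, hc2, -⟩ := hloc (t + -(1 / 2))
  have hsub : F ⊆ S1 ∪ S2 := by
    intro ρ hρ
    obtain ⟨h1, h2, h3⟩ := hF ρ hρ
    obtain ⟨h4, h5, h6⟩ := zero_facts h1
    rw [abs_le] at h3
    rw [Finset.mem_union]
    rcases le_total t ρ.im with h7 | h7
    · left
      rw [hS1]
      refine ⟨mem_disc h2 h5 ?_, h6⟩
      rw [abs_le]
      constructor <;> (clear * - h7 h3; linarith)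
    · right
      rw [hS2]
      refine ⟨mem_disc h2 h5 ?_, h6⟩
      rw [abs_le]
      constructor <;> (clear * - h3 h7; linarith)
  have hl1 := log_shift t (1 / 2) (by rw [abs_of_pos (by norm_num)])
  have hl2 := log_shift t (-(1 / 2)) (by rw [abs_neg, abs_of_pos (by norm_num)])
  calc ∑ ρ ∈ F, (analyticOrderNatAt riemannZeta ρ : ℝ)
      = ∑ ρ ∈ F, (analyticOrderNatAt EZ ρ : ℝ) := by
        refine Finset.sum_congr rfl fun ρ hρ => ?_
        rw [orderNat_EZ (zero_facts (hF ρ hρ).1).1]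
    _ ≤ ∑ ρ ∈ S1 ∪ S2, (analyticOrderNatAt EZ ρ : ℝ) :=
        Finset.sum_le_sum_of_subset_of_nonneg hsub fun _ _ _ => Nat.cast_nonneg _
    _ ≤ ∑ ρ ∈ S1, (analyticOrderNatAt EZ ρ : ℝ) + ∑ ρ ∈ S2, (analyticOrderNatAt EZ ρ : ℝ) := by
        rw [← Finset.sum_union_inter]
        exact le_add_of_nonneg_right (Finset.sum_nonneg fun _ _ => Nat.cast_nonneg _)
    _ ≤ C * (2 * Real.log (|t| + 2)) + C * (2 * Real.log (|t| + 2)) := by
        refine add_le_add (hc1.trans ?_) (hc2.trans ?_)
        · exact mul_le_mul_of_nonneg_left hl1 hC.le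
        · exact mul_le_mul_of_nonneg_left hl2 hC.le
    _ = 4 * C * Real.log (|t| + 2) := by ring

lemma logDeriv_EZ_eq {s : ℂ} (hs : s ≠ 1) (hz : riemannZeta s ≠ 0) :
    deriv EZ s / EZ s = deriv riemannZeta s / riemannZeta s + 1 / (s - 1) := by
  have hev : EZ =ᶠ[𝓝 s] fun z : ℂ => (z - 1) * riemannZeta z := by
    filter_upwards [isOpen_compl_singleton.mem_nhds (show s ∈ ({1} : Set ℂ)ᶜ from hs)] with z hz
    exact EZ_eq hz
  have h1 : HasDerivAt (fun z : ℂ => z - 1) 1 s := (hasDerivAt_id s).sub_const 1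
  have h2 := h1.mul (differentiableAt_riemannZeta hs).hasDerivAt
  have h3 : deriv EZ s = 1 * riemannZeta s + (s - 1) * deriv riemannZeta s := by
    rw [hev.deriv_eq]
    exact h2.deriv
  have hs' : s - 1 ≠ 0 := sub_ne_zero.2 hs
  rw [h3, EZ_eq hs]
  field_simp
  ring

end Pool.Agent.M20.Helper33.KSZ
end
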