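import Mathlib
import Pool.Agent.Helper53.KO.G02

set_option linter.all false

/- Helper53.KN.Helper44.Bonferroni -/
section
/-!
# Truncated inclusion-exclusion and the Brun-Hooley sieve (abstract form)
-/

set_option autoImplicit false

open Finset

namespace Pool.Agent.M20.Helper44

variable {ι : Type*} [DecidableEq ι]

/-- Elementary symmetric sum. -/
noncomputable def es (B : Finset ι) (m : ℕ) (x : ι → ℝ) : ℝ :=
  ∑ I ∈ B.powerset, if I.card = m then ∏ i ∈ I, x i else 0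

/-- Truncated alternating sum. -/
noncomputable def tr (B : Finset ι) (m : ℕ) (x : ι → ℝ) : ℝ :=
  ∑ I ∈ B.powerset, if I.card ≤ m then (-1 : ℝ) ^ I.card * ∏ i ∈ I, x i else 0

theorem es_zero (B : Finset ι) (x : ι → ℝ) : es B 0 x = 1 := by
  unfold es
  have h : ∀ I ∈ B.powerset, (if I.card = 0 then ∏ i ∈ I, x i else 0) =
      if I = ∅ then 1 else 0 := by
    intro I _
    by_cases hI : I = ∅
    · simp [hI]
    · simp [hI]
  rw [Finset.sum_congr rfl h]
  simp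

theorem tr_zero (B : Finset ι) (x : ι → ℝ) : tr B 0 x = 1 := by
  unfold tr
  have h : ∀ I ∈ B.powerset, (if I.card ≤ 0 then (-1 : ℝ) ^ I.card * ∏ i ∈ I, x i else 0) =
      if I = ∅ then 1 else 0 := by
    intro I _
    by_cases hI : I = ∅
    · simp [hI]
    · simp [hI]
  rw [Finset.sum_congr rfl h]
  simp

theorem tr_succ (B : Finset ι) (m : ℕ) (x : ι → ℝ) :
    tr B (m + 1) x = tr B m x + (-1) ^ (m + 1) * es B (m + 1) x := by
  unfold tr es
  rw [Finset.mul_sum, ← Finset.sum_add_distrib]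
  apply Finset.sum_congr rfl
  intro I _
  rcases lt_trichotomy I.card (m + 1) with h | h | h
  · rw [if_pos (by omega), if_pos (by omega), if_neg (by omega)]; ring
  · rw [if_pos (by omega), if_neg (by omega), if_pos h, h]; ring
  · rw [if_neg (by omega), if_neg (by omega), if_neg (by omega)]; ring

theorem es_insert {a : ι} {B : Finset ι} (ha : a ∉ B) (m : ℕ) (x : ι → ℝ) :
    es (insert a B) (m + 1) x = es B (m + 1) x + x a * es B m x := by
  unfold es
  rw [Finset.sum_powerset_insert ha, Finset.mul_sum]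
  congr 1
  apply Finset.sum_congr rfl
  intro I hI
  have haI : a ∉ I := fun h => ha (Finset.mem_powerset.mp hI h)
  rw [Finset.card_insert_of_notMem haI, Finset.prod_insert haI]
  by_cases h : I.card = m
  · simp [h]
  · simp [h]

theorem tr_insert {a : ι} {B : Finset ι} (ha : a ∉ B) (m : ℕ) (x : ι → ℝ) :
    tr (insert a B) (m + 1) x = tr B (m + 1) x - x a * tr B m x := by
  unfold tr
  rw [Finset.sum_powerset_insert ha, Finset.mul_sum, sub_eq_add_neg, ← Finset.sum_neg_distrib]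
  congr 1
  apply Finset.sum_congr rfl
  intro I hI
  have haI : a ∉ I := fun h => ha (Finset.mem_powerset.mp hI h)
  rw [Finset.card_insert_of_notMem haI, Finset.prod_insert haI]
  by_cases h : I.card ≤ m
  · simp only [h, if_true, Nat.add_le_add_iff_right]; ring
  · simp only [h, if_false, Nat.add_le_add_iff_right]; ring

theorem es_nonneg (B : Finset ι) (m : ℕ) (x : ι → ℝ) (hx : ∀ i ∈ B, 0 ≤ x i) :
    0 ≤ es B m x := by
  unfold es
  apply Finset.sum_nonneg
  intro I hI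
  split_ifs
  · exact Finset.prod_nonneg fun i hi => hx i (Finset.mem_powerset.mp hI hi)
  · exact le_rfl

/-- Bonferroni inequalities in weighted form. -/
theorem bonferroni (B : Finset ι) (x : ι → ℝ) (hx : ∀ i ∈ B, 0 ≤ x i ∧ x i ≤ 1) (m : ℕ) :
    0 ≤ (-1 : ℝ) ^ m * (tr B m x - ∏ i ∈ B, (1 - x i)) := by
  induction B using Finset.induction_on generalizing m with
  | empty =>
    have : tr (∅ : Finset ι) m x = 1 := by simp [tr]
    simp [this]
  | insert a B ha ih =>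
    have hxB : ∀ i ∈ B, 0 ≤ x i ∧ x i ≤ 1 := fun i hi => hx i (Finset.mem_insert_of_mem hi)
    have hxa := hx a (Finset.mem_insert_self a B)
    have hP0 : 0 ≤ ∏ i ∈ B, (1 - x i) := Finset.prod_nonneg fun i hi => by linarith [(hxB i hi).2]
    rw [Finset.prod_insert ha]
    cases m with
    | zero =>
      have h0 := ih hxB 0
      rw [tr_zero] at h0 ⊢
      simp only [pow_zero, one_mul] at h0 ⊢
      nlinarith [mul_nonneg hxa.1 hP0]
    | succ m =>
      have h1 := ih hxB (m + 1)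
      have h2 := ih hxB m
      rw [tr_insert ha]
      have : (-1 : ℝ) ^ (m + 1) * (tr B (m + 1) x - x a * tr B m x - (1 - x a) * ∏ i ∈ B, (1 - x i))
        = (-1 : ℝ) ^ (m + 1) * (tr B (m + 1) x - ∏ i ∈ B, (1 - x i)) +
          x a * ((-1 : ℝ) ^ m * (tr B m x - ∏ i ∈ B, (1 - x i))) := by
        rw [pow_succ]; ring
      rw [this]
      exact add_nonneg h1 (mul_nonneg hxa.1 h2)

theorem prod_le_tr_even (B : Finset ι) (x : ι → ℝ) (hx : ∀ i ∈ B, 0 ≤ x i ∧ x i ≤ 1) (m : ℕ)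
    (hm : Even m) : ∏ i ∈ B, (1 - x i) ≤ tr B m x := by
  have h := bonferroni B x hx m
  rw [hm.neg_one_pow, one_mul] at h
  linarith

theorem tr_even_le (B : Finset ι) (x : ι → ℝ) (hx : ∀ i ∈ B, 0 ≤ x i ∧ x i ≤ 1) (m : ℕ)
    (hm : Even m) : tr B m x ≤ ∏ i ∈ B, (1 - x i) + es B (m + 1) x := by
  have h := bonferroni B x hx (m + 1)
  rw [tr_succ, hm.add_one.neg_one_pow] at h
  linarith

theorem es_le_pow_div_factorial (B : Finset ι) (x : ι → ℝ) (hx : ∀ i ∈ B, 0 ≤ x i) (m : ℕ) :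
    es B m x ≤ (∑ i ∈ B, x i) ^ m / m.factorial := by
  induction B using Finset.induction_on generalizing m with
  | empty =>
    unfold es
    cases m with
    | zero => simp
    | succ m => simp
  | insert a B ha ih =>
    have hxB : ∀ i ∈ B, 0 ≤ x i := fun i hi => hx i (Finset.mem_insert_of_mem hi)
    have hxa := hx a (Finset.mem_insert_self a B)
    cases m with
    | zero => rw [es_zero]; simp
    | succ m =>
      rw [es_insert ha, Finset.sum_insert ha]
      have h1 := ih hxB (m + 1)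
      have h2 := ih hxB m
      set s := ∑ i ∈ B, x i with hs
      have hs0 : 0 ≤ s := Finset.sum_nonneg hxB
      have hb : s ^ (m + 1) + (m + 1) * (x a * s ^ m) ≤ (x a + s) ^ (m + 1) := by
        -- binomial: first two terms
        have hexp : ∀ m : ℕ, s ^ (m + 1) + (m + 1) * (x a * s ^ m) ≤ (x a + s) ^ (m + 1) := by
          intro m
          induction m with
          | zero => simp; linarith
          | succ k ihk =>
            have : (x a + s) ^ (k + 1 + 1) = (x a + s) * (x a + s) ^ (k + 1) := by ring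
            rw [this]
            calc s ^ (k + 1 + 1) + ((k + 1 : ℕ) + 1) * (x a * s ^ (k + 1))
                ≤ (x a + s) * (s ^ (k + 1) + (k + 1) * (x a * s ^ k)) := by
                  have e : (x a + s) * (s ^ (k + 1) + (k + 1) * (x a * s ^ k)) =
                    s ^ (k + 1 + 1) + ((k + 1 : ℕ) + 1) * (x a * s ^ (k + 1)) +
                      (k + 1) * (x a * x a * s ^ k) := by
                    push_cast; ring
                  rw [e]
                  have : 0 ≤ ((k : ℝ) + 1) * (x a * x a * s ^ k) := by positivity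
                  linarith
              _ ≤ _ := mul_le_mul_of_nonneg_left ihk (by linarith)
        exact hexp m
      have hf : ((m + 1).factorial : ℝ) = (m + 1) * m.factorial := by
        rw [Nat.factorial_succ]; push_cast; ring
      have hfpos : (0 : ℝ) < m.factorial := by positivity
      calc es B (m + 1) x + x a * es B m x
          ≤ s ^ (m + 1) / (m + 1).factorial + x a * (s ^ m / m.factorial) := by
            gcongr
        _ = (s ^ (m + 1) + (m + 1) * (x a * s ^ m)) / (m + 1).factorial := by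
            rw [hf]
            field_simp
        _ ≤ (x a + s) ^ (m + 1) / (m + 1).factorial := by
            gcongr

end Pool.Agent.M20.Helper44
end

/- Helper53.KN.Helper44.BrunHooley -/
section
/-!
# The Brun-Hooley sieve (abstract form)
-/

set_option autoImplicit false
set_option linter.unusedSectionVars false

open Finset

namespace Pool.Agent.M20.Helper44

variable {ι : Type*} [DecidableEq ι] {α : Type*}

/-- Number of elements of `Ω` satisfying `P`, as a real number. -/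
noncomputable def evCount (Ω : Finset α) (P : α → Prop) : ℝ := by
  classical exact ((Ω.filter P).card : ℝ)

theorem evCount_eq (Ω : Finset α) (P : α → Prop) [DecidablePred P] :
    evCount Ω P = ((Ω.filter P).card : ℝ) := by
  unfold evCount
  congr!

theorem evCount_eq_sum (Ω : Finset α) (P : α → Prop) [DecidablePred P] :
    evCount Ω P = ∑ ω ∈ Ω, if P ω then (1 : ℝ) else 0 := by
  rw [evCount_eq, ← Finset.sum_filter]
  simp

/-- The 0-1 vector of events occurring at `ω`. -/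
noncomputable def ind (occ : ι → α → Prop) (ω : α) : ι → ℝ := by
  classical exact fun i => if occ i ω then 1 else 0

theorem ind_mem (occ : ι → α → Prop) (ω : α) (i : ι) : 0 ≤ ind occ ω i ∧ ind occ ω i ≤ 1 := by
  unfold ind
  split_ifs <;> norm_num

open Classical in
theorem prod_ind (occ : ι → α → Prop) (ω : α) (I : Finset ι) :
    ∏ i ∈ I, ind occ ω i = if (∀ i ∈ I, occ i ω) then 1 else 0 := by
  unfold ind
  rw [Finset.prod_ite_zero]
  simp

open Classical in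
theorem prod_one_sub_ind (occ : ι → α → Prop) (ω : α) (I : Finset ι) :
    ∏ i ∈ I, (1 - ind occ ω i) = if (∀ i ∈ I, ¬ occ i ω) then 1 else 0 := by
  have : ∀ i ∈ I, (1 - ind occ ω i) = if ¬ occ i ω then 1 else 0 := by
    intro i _
    unfold ind
    by_cases h : occ i ω <;> simp [h]
  rw [Finset.prod_congr rfl this, Finset.prod_ite_zero]
  simp

/-- Product inequality behind Hooley's lower bound. -/
theorem prod_lower {t : ℕ} (P T : Fin t → ℝ) (h0 : ∀ j, 0 ≤ P j) (h1 : ∀ j, P j ≤ T j) :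
    ∏ j, T j - ∑ l, ∏ j, (if j = l then T l - P l else T j) ≤ ∏ j, P j := by
  have key : ∀ s : Finset (Fin t),
      ∏ j ∈ s, T j - ∑ l ∈ s, ∏ j ∈ s, (if j = l then T l - P l else T j) ≤ ∏ j ∈ s, P j := by
    intro s
    induction s using Finset.induction_on with
    | empty => simp
    | insert a s ha ih =>
      rw [Finset.prod_insert ha, Finset.prod_insert ha, Finset.sum_insert ha,
        Finset.prod_insert ha]
      have e1 : ∏ j ∈ s, (if j = a then T a - P a else T j) = ∏ j ∈ s, T j := by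
        apply Finset.prod_congr rfl
        intro j hj
        rw [if_neg]
        rintro rfl
        exact ha hj
      have e2 : ∑ l ∈ s, ∏ j ∈ insert a s, (if j = l then T l - P l else T j) =
          T a * ∑ l ∈ s, ∏ j ∈ s, (if j = l then T l - P l else T j) := by
        rw [Finset.mul_sum]
        apply Finset.sum_congr rfl
        intro l hl
        rw [Finset.prod_insert ha, if_neg]
        rintro rfl
        exact ha hl
      rw [e1, e2, if_pos rfl]
      have hS : 0 ≤ ∑ l ∈ s, ∏ j ∈ s, (if j = l then T l - P l else T j) := by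
        apply Finset.sum_nonneg
        intro l _
        apply Finset.prod_nonneg
        intro j _
        split_ifs
        · linarith [h1 l]
        · exact (h0 j).trans (h1 j)
      have := mul_le_mul_of_nonneg_left ih (h0 a)
      nlinarith [mul_le_mul_of_nonneg_right (h1 a) hS]
  exact key Finset.univ

theorem tr_eq_sum_filter (B : Finset ι) (m : ℕ) (x : ι → ℝ) :
    tr B m x = ∑ I ∈ B.powerset.filter (fun I => I.card ≤ m), (-1 : ℝ) ^ I.card * ∏ i ∈ I, x i := by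
  unfold tr
  rw [Finset.sum_filter]

theorem es_eq_sum_filter (B : Finset ι) (m : ℕ) (x : ι → ℝ) :
    es B m x = ∑ I ∈ B.powerset.filter (fun I => I.card = m), (1 : ℝ) * ∏ i ∈ I, x i := by
  unfold es
  rw [Finset.sum_filter]
  simp

end Pool.Agent.M20.Helper44
end

/- Helper53.KN.Helper96.CPAP.BHk -/
section
/-!
# The Brun-Hooley sieve with error terms growing with the number of conditions

This is `Helper44.brun_hooley` with the hypothesis on the counting function weakened to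
`|count - main| ≤ E * κ ^ |I|`, as needed when several residue classes are removed per prime.
-/

set_option autoImplicit false
set_option linter.unusedSectionVars false

open Finset

namespace Pool.Agent.M20.Helper96.CPAP

open Pool.Agent.M20.Helper44

variable {ι : Type*} [DecidableEq ι] {α : Type*}

open Classical in
theorem expand_blocksK {t : ℕ} (Ω : Finset α) (occ : ι → α → Prop)
    (B : Fin t → Finset ι) (hB : ∀ i j, i ≠ j → Disjoint (B i) (B j)) (x : ι → ℝ) (X E κ : ℝ)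
    (hE : 0 ≤ E) (hκ : 1 ≤ κ)
    (hcnt : ∀ I : Finset ι, I ⊆ Finset.univ.biUnion B →
      |evCount Ω (fun ω => ∀ i ∈ I, occ i ω) - X * ∏ i ∈ I, x i| ≤ E * κ ^ I.card)
    (c : Fin t → Finset ι → ℝ) (S : Fin t → Finset (Finset ι)) (hS : ∀ j, ∀ I ∈ S j, I ⊆ B j)
    (hc : ∀ j I, |c j I| ≤ 1) :
    |∑ ω ∈ Ω, ∏ j, ∑ I ∈ S j, c j I * ∏ i ∈ I, ind occ ω i -
      X * ∏ j, ∑ I ∈ S j, c j I * ∏ i ∈ I, x i| ≤ E * ∏ j, ∑ I ∈ S j, κ ^ I.card := by
  have hprod : ∀ (y : ι → ℝ), ∏ j, ∑ I ∈ S j, c j I * ∏ i ∈ I, y i =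
      ∑ f ∈ Fintype.piFinset S, (∏ j, c j (f j)) * ∏ i ∈ Finset.univ.biUnion f, y i := by
    intro y
    rw [Finset.prod_univ_sum]
    apply Finset.sum_congr rfl
    intro f hf
    rw [Fintype.mem_piFinset] at hf
    rw [Finset.prod_mul_distrib, Finset.prod_biUnion]
    intro i _ j _ hij
    exact Finset.disjoint_of_subset_left (hS i _ (hf i))
      (Finset.disjoint_of_subset_right (hS j _ (hf j)) (hB i j hij))
  simp_rw [hprod]
  rw [Finset.sum_comm, Finset.mul_sum, ← Finset.sum_sub_distrib]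
  have hterm : ∀ f ∈ Fintype.piFinset S,
      |∑ ω ∈ Ω, (∏ j, c j (f j)) * ∏ i ∈ Finset.univ.biUnion f, ind occ ω i -
        X * ((∏ j, c j (f j)) * ∏ i ∈ Finset.univ.biUnion f, x i)| ≤
        E * ∏ j, κ ^ (f j).card := by
    intro f hf
    rw [Fintype.mem_piFinset] at hf
    have hsub : Finset.univ.biUnion f ⊆ Finset.univ.biUnion B := by
      intro i hi
      rw [Finset.mem_biUnion] at hi ⊢
      obtain ⟨j, hj, hij⟩ := hi
      exact ⟨j, hj, hS j _ (hf j) hij⟩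
    have h1 := hcnt _ hsub
    have h2 : ∑ ω ∈ Ω, (∏ j, c j (f j)) * ∏ i ∈ Finset.univ.biUnion f, ind occ ω i =
        (∏ j, c j (f j)) * evCount Ω (fun ω => ∀ i ∈ Finset.univ.biUnion f, occ i ω) := by
      rw [← Finset.mul_sum, evCount_eq_sum]
      simp_rw [prod_ind]
    rw [h2]
    have h3 : (∏ j, c j (f j)) * evCount Ω (fun ω => ∀ i ∈ Finset.univ.biUnion f, occ i ω) -
        X * ((∏ j, c j (f j)) * ∏ i ∈ Finset.univ.biUnion f, x i) =
        (∏ j, c j (f j)) * (evCount Ω (fun ω => ∀ i ∈ Finset.univ.biUnion f, occ i ω) -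
            X * ∏ i ∈ Finset.univ.biUnion f, x i) := by ring
    rw [h3, abs_mul]
    have h4 : |∏ j, c j (f j)| ≤ 1 := by
      rw [Finset.abs_prod]
      exact Finset.prod_le_one (fun _ _ => abs_nonneg _) (fun j _ => hc j _)
    have h5 : κ ^ (Finset.univ.biUnion f).card ≤ ∏ j, κ ^ (f j).card := by
      rw [Finset.prod_pow_eq_pow_sum]
      exact pow_le_pow_right₀ hκ Finset.card_biUnion_le
    calc _ ≤ 1 * (E * κ ^ (Finset.univ.biUnion f).card) :=
          mul_le_mul h4 h1 (abs_nonneg _) (by norm_num)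
      _ = E * κ ^ (Finset.univ.biUnion f).card := one_mul _
      _ ≤ _ := mul_le_mul_of_nonneg_left h5 hE
  calc |∑ f ∈ Fintype.piFinset S,
      (∑ ω ∈ Ω, (∏ j, c j (f j)) * ∏ i ∈ Finset.univ.biUnion f, ind occ ω i -
        X * ((∏ j, c j (f j)) * ∏ i ∈ Finset.univ.biUnion f, x i))|
      ≤ ∑ f ∈ Fintype.piFinset S, E * ∏ j, κ ^ (f j).card := (Finset.abs_sum_le_sum_abs _ _).trans
        (Finset.sum_le_sum hterm)
    _ = E * ∏ j, ∑ I ∈ S j, κ ^ I.card := by
        rw [Finset.prod_univ_sum, Finset.mul_sum]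

theorem sum_pow_powerset_filter_le (B : Finset ι) (m : ℕ) (κ : ℝ) (hκ : 0 ≤ κ) :
    ∑ I ∈ B.powerset.filter (fun I => I.card ≤ m), κ ^ I.card ≤ (κ * (B.card : ℝ) + 1) ^ m := by
  have h1 : ∑ I ∈ B.powerset.filter (fun I => I.card ≤ m), κ ^ I.card =
      ∑ j ∈ range (m + 1), (B.card.choose j : ℝ) * κ ^ j := by
    have : B.powerset.filter (fun I => I.card ≤ m) =
        (range (m + 1)).biUnion (fun j => B.powersetCard j) := by
      ext I
      simp only [Finset.mem_filter, Finset.mem_powerset, Finset.mem_biUnion, Finset.mem_range,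
        Finset.mem_powersetCard]
      constructor
      · rintro ⟨h, h'⟩; exact ⟨I.card, by omega, h, rfl⟩
      · rintro ⟨j, hj, h, rfl⟩; exact ⟨h, by omega⟩
    rw [this, Finset.sum_biUnion]
    · apply Finset.sum_congr rfl
      intro j _
      have h2 : ∑ I ∈ B.powersetCard j, κ ^ I.card = ∑ I ∈ B.powersetCard j, κ ^ j := by
        apply Finset.sum_congr rfl
        intro I hI
        rw [(Finset.mem_powersetCard.mp hI).2]
      rw [h2, Finset.sum_const, Finset.card_powersetCard, nsmul_eq_mul]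
    · intro i _ j _ hij
      rw [Function.onFun, Finset.disjoint_left]
      intro I hI hJ
      exact hij ((Finset.mem_powersetCard.mp hI).2.symm.trans (Finset.mem_powersetCard.mp hJ).2)
  rw [h1, add_pow]
  apply Finset.sum_le_sum
  intro j hj
  have hj' : j ≤ m := by rw [Finset.mem_range] at hj; omega
  have h2 : (B.card.choose j : ℝ) ≤ (B.card : ℝ) ^ j := by
    exact_mod_cast Nat.choose_le_pow B.card j
  have h3 : (1 : ℝ) ≤ (m.choose j : ℝ) := by
    exact_mod_cast Nat.choose_pos hj'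
  have h4 : (0 : ℝ) ≤ (κ * (B.card : ℝ)) ^ j := by (clear * - hκ; positivity)
  rw [one_pow, mul_one]
  calc (B.card.choose j : ℝ) * κ ^ j ≤ (B.card : ℝ) ^ j * κ ^ j :=
        mul_le_mul_of_nonneg_right h2 (by positivity)
    _ = (κ * (B.card : ℝ)) ^ j := by rw [mul_pow]; ring
    _ ≤ (κ * (B.card : ℝ)) ^ j * (m.choose j : ℝ) := le_mul_of_one_le_right h4 h3

/-- The Brun-Hooley sieve, raw form. -/
theorem brun_hooley_rawK {t : ℕ} (Ω : Finset α) (occ : ι → α → Prop)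
    (B : Fin t → Finset ι) (hB : ∀ i j, i ≠ j → Disjoint (B i) (B j)) (x : ι → ℝ) (X E κ : ℝ)
    (hE : 0 ≤ E) (hκ : 1 ≤ κ)
    (hcnt : ∀ I : Finset ι, I ⊆ Finset.univ.biUnion B →
      |evCount Ω (fun ω => ∀ i ∈ I, occ i ω) - X * ∏ i ∈ I, x i| ≤ E * κ ^ I.card)
    (m : Fin t → ℕ) (hm : ∀ j, Even (m j)) :
    evCount Ω (fun ω => ∀ j, ∀ i ∈ B j, ¬ occ i ω) ≤
        X * ∏ j, tr (B j) (m j) x + E * ∏ j, (κ * ((B j).card : ℝ) + 1) ^ (m j + 1) ∧
    X * (∏ j, tr (B j) (m j) x -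
        ∑ l, ∏ j, (if j = l then es (B l) (m l + 1) x else tr (B j) (m j) x)) -
      E * ((t + 1) * ∏ j, (κ * ((B j).card : ℝ) + 1) ^ (m j + 1)) ≤
      evCount Ω (fun ω => ∀ j, ∀ i ∈ B j, ¬ occ i ω) := by
  classical
  have hκ0 : 0 ≤ κ := by linarith
  have hcard : evCount Ω (fun ω => ∀ j, ∀ i ∈ B j, ¬ occ i ω) =
      ∑ ω ∈ Ω, ∏ j, ∏ i ∈ B j, (1 - ind occ ω i) := by
    rw [evCount_eq_sum]
    simp_rw [prod_one_sub_ind, Finset.prod_ite_zero]
    simp
  have hN : ∀ j, 1 ≤ (κ * ((B j).card : ℝ) + 1) := fun j => by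
    have : (0 : ℝ) ≤ κ * ((B j).card : ℝ) := by (clear * - hκ; positivity)
    linarith
  have hPT : ∀ ω, ∀ j, ∏ i ∈ B j, (1 - ind occ ω i) ≤ tr (B j) (m j) (ind occ ω) := fun ω j =>
    prod_le_tr_even (B j) (ind occ ω) (fun i _ => ind_mem occ ω i) (m j) (hm j)
  have hP0 : ∀ ω, ∀ j, 0 ≤ ∏ i ∈ B j, (1 - ind occ ω i) := fun ω j =>
    Finset.prod_nonneg fun i _ => by linarith [(ind_mem occ ω i).2]
  have hTP : ∀ ω, ∀ j, tr (B j) (m j) (ind occ ω) - ∏ i ∈ B j, (1 - ind occ ω i) ≤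
      es (B j) (m j + 1) (ind occ ω) := fun ω j => by
    have := tr_even_le (B j) (ind occ ω) (fun i _ => ind_mem occ ω i) (m j) (hm j)
    linarith
  -- main expansion
  have hmain : |∑ ω ∈ Ω, ∏ j, tr (B j) (m j) (ind occ ω) - X * ∏ j, tr (B j) (m j) x| ≤
      E * ∏ j, (κ * ((B j).card : ℝ) + 1) ^ (m j + 1) := by
    simp_rw [tr_eq_sum_filter]
    refine (expand_blocksK Ω occ B hB x X E κ hE hκ hcnt (fun _ I => (-1 : ℝ) ^ I.card)
      (fun j => (B j).powerset.filter (fun I => I.card ≤ m j)) ?_ ?_).trans ?_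
    · intro j I hI
      exact Finset.mem_powerset.mp (Finset.mem_filter.mp hI).1
    · intro j I
      rw [abs_pow]; simp
    · apply mul_le_mul_of_nonneg_left _ hE
      apply Finset.prod_le_prod
      · intro j _; (clear * - hκ; positivity)
      · intro j _
        refine (sum_pow_powerset_filter_le (B j) (m j) κ hκ0).trans ?_
        exact pow_le_pow_right₀ (hN j) (by omega)
  have herr : ∀ l : Fin t,
      |∑ ω ∈ Ω, ∏ j, (if j = l then es (B l) (m l + 1) (ind occ ω) else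
          tr (B j) (m j) (ind occ ω)) -
        X * ∏ j, (if j = l then es (B l) (m l + 1) x else tr (B j) (m j) x)| ≤
      E * ∏ j, (κ * ((B j).card : ℝ) + 1) ^ (m j + 1) := by
    intro l
    have hform : ∀ y : ι → ℝ, ∀ j : Fin t,
        (if j = l then es (B l) (m l + 1) y else tr (B j) (m j) y) =
        ∑ I ∈ (B j).powerset.filter (fun I => if j = l then I.card = m j + 1 else I.card ≤ m j),
          (if j = l then 1 else (-1 : ℝ) ^ I.card) * ∏ i ∈ I, y i := by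
      intro y j
      by_cases hj : j = l
      · subst hj
        simp only [if_true]
        rw [es_eq_sum_filter]
      · simp only [hj, if_false]
        rw [tr_eq_sum_filter]
    simp_rw [hform]
    refine (expand_blocksK Ω occ B hB x X E κ hE hκ hcnt
      (fun j I => if j = l then 1 else (-1 : ℝ) ^ I.card)
      (fun j => (B j).powerset.filter
        (fun I => if j = l then I.card = m j + 1 else I.card ≤ m j)) ?_ ?_).trans ?_
    · intro j I hI
      exact Finset.mem_powerset.mp (Finset.mem_filter.mp hI).1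
    · intro j I
      split_ifs
      · simp
      · rw [abs_pow]; simp
    · apply mul_le_mul_of_nonneg_left _ hE
      apply Finset.prod_le_prod
      · intro j _; (clear * - hκ; positivity)
      · intro j _
        refine le_trans ?_ (sum_pow_powerset_filter_le (B j) (m j + 1) κ hκ0)
        apply Finset.sum_le_sum_of_subset_of_nonneg
        · intro I hI
          rw [Finset.mem_filter] at hI ⊢
          refine ⟨hI.1, ?_⟩
          have := hI.2
          split_ifs at this <;> omega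
        · intro I _ _
          positivity
  constructor
  · rw [hcard]
    have h1 : ∑ ω ∈ Ω, ∏ j, ∏ i ∈ B j, (1 - ind occ ω i) ≤
        ∑ ω ∈ Ω, ∏ j, tr (B j) (m j) (ind occ ω) := by
      apply Finset.sum_le_sum
      intro ω _
      exact Finset.prod_le_prod (fun j _ => hP0 ω j) (fun j _ => hPT ω j)
    have h2 := (abs_le.mp hmain).2
    linarith
  · rw [hcard]
    have h1 : ∑ ω ∈ Ω, (∏ j, tr (B j) (m j) (ind occ ω) -
        ∑ l, ∏ j, (if j = l then es (B l) (m l + 1) (ind occ ω) else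
          tr (B j) (m j) (ind occ ω))) ≤
        ∑ ω ∈ Ω, ∏ j, ∏ i ∈ B j, (1 - ind occ ω i) := by
      apply Finset.sum_le_sum
      intro ω _
      refine le_trans ?_ (prod_lower (fun j => ∏ i ∈ B j, (1 - ind occ ω i))
        (fun j => tr (B j) (m j) (ind occ ω)) (hP0 ω) (hPT ω))
      apply sub_le_sub_left
      apply Finset.sum_le_sum
      intro l _
      apply Finset.prod_le_prod
      · intro j _
        split_ifs with hj
        · have := hPT ω l; (clear * - this; linarith)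
        · exact (hP0 ω j).trans (hPT ω j)
      · intro j _
        split_ifs with hj
        · exact hTP ω l
        · exact le_rfl
    rw [Finset.sum_sub_distrib, Finset.sum_comm] at h1
    have h2 := (abs_le.mp hmain).1
    have h3 : ∑ l : Fin t, ∑ ω ∈ Ω, ∏ j, (if j = l then es (B l) (m l + 1) (ind occ ω) else
          tr (B j) (m j) (ind occ ω)) ≤
        ∑ l : Fin t, (X * ∏ j, (if j = l then es (B l) (m l + 1) x else tr (B j) (m j) x) +
          E * ∏ j, (κ * ((B j).card : ℝ) + 1) ^ (m j + 1)) := by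
      apply Finset.sum_le_sum
      intro l _
      have := (abs_le.mp (herr l)).2
      linarith
    rw [Finset.sum_add_distrib, ← Finset.mul_sum, Finset.sum_const, Finset.card_univ,
      Fintype.card_fin, nsmul_eq_mul] at h3
    have h4 : X * (∏ j, tr (B j) (m j) x -
        ∑ l, ∏ j, (if j = l then es (B l) (m l + 1) x else tr (B j) (m j) x)) -
        E * ((t + 1) * ∏ j, (κ * ((B j).card : ℝ) + 1) ^ (m j + 1)) =
        (X * ∏ j, tr (B j) (m j) x - E * ∏ j, (κ * ((B j).card : ℝ) + 1) ^ (m j + 1)) -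
        (X * ∑ l, ∏ j, (if j = l then es (B l) (m l + 1) x else tr (B j) (m j) x) +
        t * (E * ∏ j, (κ * ((B j).card : ℝ) + 1) ^ (m j + 1))) := by ring
    rw [h4]
    linarith

/-- The Brun-Hooley sieve with clean main terms. -/
theorem brun_hooleyK {t : ℕ} (Ω : Finset α) (occ : ι → α → Prop)
    (B : Fin t → Finset ι) (hB : ∀ i j, i ≠ j → Disjoint (B i) (B j)) (x : ι → ℝ)
    (hx : ∀ j, ∀ i ∈ B j, 0 ≤ x i ∧ x i ≤ 1 / 2) (X E κ : ℝ) (hX : 0 ≤ X) (hE : 0 ≤ E)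
    (hκ : 1 ≤ κ)
    (hcnt : ∀ I : Finset ι, I ⊆ Finset.univ.biUnion B →
      |evCount Ω (fun ω => ∀ i ∈ I, occ i ω) - X * ∏ i ∈ I, x i| ≤ E * κ ^ I.card)
    (m : Fin t → ℕ) (hm : ∀ j, Even (m j))
    (hr : ∑ j, es (B j) (m j + 1) x / ∏ i ∈ B j, (1 - x i) ≤ 1 / 2) :
    evCount Ω (fun ω => ∀ j, ∀ i ∈ B j, ¬ occ i ω) ≤
        2 * X * (∏ j, ∏ i ∈ B j, (1 - x i)) +
          E * ∏ j, (κ * ((B j).card : ℝ) + 1) ^ (m j + 1) ∧
    (1 / 2) * X * (∏ j, ∏ i ∈ B j, (1 - x i)) -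
      E * ((t + 1) * ∏ j, (κ * ((B j).card : ℝ) + 1) ^ (m j + 1)) ≤
      evCount Ω (fun ω => ∀ j, ∀ i ∈ B j, ¬ occ i ω) := by
  obtain ⟨h1, h2⟩ := brun_hooley_rawK Ω occ B hB x X E κ hE hκ hcnt m hm
  have hx1 : ∀ j, ∀ i ∈ B j, 0 ≤ x i ∧ x i ≤ 1 := fun j i hi =>
    ⟨(hx j i hi).1, by (clear * - hx hi; linarith [(hx j i hi).2])⟩
  set V : Fin t → ℝ := fun j => ∏ i ∈ B j, (1 - x i) with hV
  have hVpos : ∀ j, 0 < V j := fun j => Finset.prod_pos fun i hi => by
    (clear * - hx hi; linarith [(hx j i hi).2])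
  set r : Fin t → ℝ := fun j => es (B j) (m j + 1) x / V j with hrdef
  have hr0 : ∀ j, 0 ≤ r j := fun j =>
    div_nonneg (es_nonneg _ _ _ fun i hi => (hx j i hi).1) (hVpos j).le
  have hVT : ∀ j, V j ≤ tr (B j) (m j) x := fun j => prod_le_tr_even _ _ (hx1 j) _ (hm j)
  have hTV : ∀ j, tr (B j) (m j) x ≤ V j * Real.exp (r j) := by
    intro j
    have h3 := tr_even_le (B j) x (hx1 j) (m j) (hm j)
    have h4 : es (B j) (m j + 1) x = V j * r j := by
      simp only [hrdef]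
      rw [mul_div_cancel₀ _ (hVpos j).ne']
    have h5 : r j + 1 ≤ Real.exp (r j) := Real.add_one_le_exp _
    calc tr (B j) (m j) x ≤ V j + V j * r j := by rw [← h4]; exact h3
      _ = V j * (r j + 1) := by ring
      _ ≤ V j * Real.exp (r j) := mul_le_mul_of_nonneg_left h5 (hVpos j).le
  have hr' : ∑ j, r j ≤ 1 / 2 := hr
  have hT0 : ∀ j, 0 < tr (B j) (m j) x := fun j => (hVpos j).trans_le (hVT j)
  have hPV : 0 < ∏ j, V j := Finset.prod_pos fun j _ => hVpos j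
  have hPT : 0 < ∏ j, tr (B j) (m j) x := Finset.prod_pos fun j _ => hT0 j
  have hexp2 : Real.exp (1 / 2) ≤ 2 := by
    have h6 : Real.exp (1 / 2) ^ 2 ≤ 2 ^ 2 := by
      rw [← Real.exp_nat_mul]
      have := Real.exp_one_lt_d9
      have e : ((2 : ℕ) : ℝ) * (1 / 2) = 1 := by norm_num
      rw [e]
      (clear * - this; linarith)
    exact (pow_le_pow_iff_left₀ (Real.exp_pos _).le (by norm_num) (by norm_num)).mp h6
  have hup : ∏ j, tr (B j) (m j) x ≤ 2 * ∏ j, V j := by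
    calc ∏ j, tr (B j) (m j) x ≤ ∏ j, (V j * Real.exp (r j)) :=
          Finset.prod_le_prod (fun j _ => (hT0 j).le) (fun j _ => hTV j)
      _ = (∏ j, V j) * Real.exp (∑ j, r j) := by
          rw [Finset.prod_mul_distrib, Real.exp_sum]
      _ ≤ (∏ j, V j) * 2 := by
          apply mul_le_mul_of_nonneg_left _ hPV.le
          exact (Real.exp_le_exp.mpr hr').trans hexp2
      _ = 2 * ∏ j, V j := by ring
  constructor
  · refine h1.trans ?_
    have : X * ∏ j, tr (B j) (m j) x ≤ X * (2 * ∏ j, V j) := mul_le_mul_of_nonneg_left hup hX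
    (clear * - this; linarith)
  · refine le_trans ?_ h2
    have hsum : ∑ l, ∏ j, (if j = l then es (B l) (m l + 1) x else tr (B j) (m j) x) ≤
        (1 / 2) * ∏ j, tr (B j) (m j) x := by
      calc ∑ l, ∏ j, (if j = l then es (B l) (m l + 1) x else tr (B j) (m j) x)
          ≤ ∑ l, r l * ∏ j, tr (B j) (m j) x := by
            apply Finset.sum_le_sum
            intro l _
            rw [← Finset.mul_prod_erase Finset.univ _ (Finset.mem_univ l),
              ← Finset.mul_prod_erase Finset.univ (fun j => tr (B j) (m j) x) (Finset.mem_univ l),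
              if_pos rfl, ← mul_assoc]
            have h7 : ∏ j ∈ Finset.univ.erase l,
                (if j = l then es (B l) (m l + 1) x else tr (B j) (m j) x) =
                ∏ j ∈ Finset.univ.erase l, tr (B j) (m j) x := by
              apply Finset.prod_congr rfl
              intro j hj
              rw [if_neg (Finset.ne_of_mem_erase hj)]
            rw [h7]
            apply mul_le_mul_of_nonneg_right _ (Finset.prod_nonneg fun j _ => (hT0 j).le)
            have h8 : es (B l) (m l + 1) x = r l * V l := by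
              simp only [hrdef]
              rw [div_mul_cancel₀ _ (hVpos l).ne']
            rw [h8]
            exact mul_le_mul_of_nonneg_left (hVT l) (hr0 l)
        _ = (∑ l, r l) * ∏ j, tr (B j) (m j) x := by rw [Finset.sum_mul]
        _ ≤ (1 / 2) * ∏ j, tr (B j) (m j) x := mul_le_mul_of_nonneg_right hr' hPT.le
    have hlow : ∏ j, V j ≤ ∏ j, tr (B j) (m j) x :=
      Finset.prod_le_prod (fun j _ => (hVpos j).le) (fun j _ => hVT j)
    have : X * ((1 / 2) * ∏ j, V j) ≤ X * (∏ j, tr (B j) (m j) x -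
        ∑ l, ∏ j, (if j = l then es (B l) (m l + 1) x else tr (B j) (m j) x)) := by
      apply mul_le_mul_of_nonneg_left _ hX
      (clear * - hsum hlow; linarith)
    (clear * - this; linarith)

end Pool.Agent.M20.Helper96.CPAP
end

/- Helper53.KN.Helper96.CPAP.SieveK -/
section
/-!
# The Brun-Hooley sieve in dimension `k`
-/

set_option autoImplicit false

open Finset Real

namespace Pool.Agent.M20.Helper96.CPAP

open Pool.Agent.M20.Helper44

/-- Block `j` of sieving primes. -/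
noncomputable def pb (P : ℕ → Prop) (w : ℝ) (j : ℕ) : Finset ℕ := by
  classical exact (Finset.Ioc ⌊zs w (j + 1)⌋₊ ⌊zs w j⌋₊).filter P

/-- All sieving primes up to `w`. -/
noncomputable def pU (P : ℕ → Prop) (w : ℝ) : Finset ℕ := by
  classical exact (primesUpTo w).filter P

theorem mem_pb {P : ℕ → Prop} {w : ℝ} {j i : ℕ} :
    i ∈ pb P w j ↔ (⌊zs w (j + 1)⌋₊ < i ∧ i ≤ ⌊zs w j⌋₊) ∧ P i := by
  classical
  unfold pb
  rw [Finset.mem_filter, Finset.mem_Ioc]

theorem mem_pU {P : ℕ → Prop} (hP : ∀ q, P q → q.Prime) {w : ℝ} (hw : 0 ≤ w) {q : ℕ} :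
    q ∈ pU P w ↔ P q ∧ (q : ℝ) ≤ w := by
  classical
  unfold pU
  rw [Finset.mem_filter, mem_primesUpTo hw]
  constructor
  · rintro ⟨⟨_, h⟩, h'⟩; exact ⟨h', h⟩
  · rintro ⟨h', h⟩; exact ⟨⟨hP q h', h⟩, h'⟩

theorem pb_disjoint {P : ℕ → Prop} {w : ℝ} (hw : 1 ≤ w) {i j : ℕ} (hij : i ≠ j) :
    Disjoint (pb P w i) (pb P w j) := by
  rw [Finset.disjoint_left]
  intro a hi hj
  rw [mem_pb] at hi hj
  rcases lt_or_gt_of_ne hij with h | h
  · have : ⌊zs w j⌋₊ ≤ ⌊zs w (i + 1)⌋₊ := Nat.floor_le_floor (zs_anti hw h)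
    omega
  · have : ⌊zs w i⌋₊ ≤ ⌊zs w (j + 1)⌋₊ := Nat.floor_le_floor (zs_anti hw h)
    omega

theorem biUnion_pb {P : ℕ → Prop} (hP : ∀ q, P q → q.Prime) {w : ℝ} (hw : 2 ≤ w) :
    (Finset.univ : Finset (Fin (nb w))).biUnion (fun j => pb P w j) = pU P w := by
  have hw1 : (1 : ℝ) ≤ w := by linarith
  have hw0 : (0 : ℝ) ≤ w := by (clear * - hw; linarith)
  ext q
  rw [mem_pU hP hw0, Finset.mem_biUnion]
  constructor
  · rintro ⟨j, _, hj⟩
    rw [mem_pb] at hj
    refine ⟨hj.2, ?_⟩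
    have h4 : (q : ℝ) ≤ zs w j := (Nat.le_floor_iff (zs_pos hw1 j).le).mp hj.1.2
    have h5 : zs w j ≤ w := by
      have := zs_anti hw1 (Nat.zero_le (j : ℕ))
      rwa [zs_zero] at this
    (clear * - h4 h5; linarith)
  · rintro ⟨hPq, hle⟩
    have h1 : ((q, true) : ℕ × Bool) ∈
        (Finset.univ : Finset (Fin (nb w))).biUnion (fun j => blk w j) := by
      rw [biUnion_blk hw, Finset.mem_product, mem_primesUpTo hw0]
      exact ⟨⟨hP q hPq, hle⟩, Finset.mem_univ _⟩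
    rw [Finset.mem_biUnion] at h1
    obtain ⟨j, _, hj⟩ := h1
    rw [mem_blk] at hj
    exact ⟨j, Finset.mem_univ _, mem_pb.mpr ⟨hj.1, hPq⟩⟩

theorem sum_inv_pb_le : ∃ S0 : ℝ, 0 < S0 ∧ ∀ (P : ℕ → Prop), (∀ q, P q → q.Prime) →
    ∀ w : ℝ, 2 ≤ w → ∀ j : ℕ, ∑ q ∈ pb P w j, (1 : ℝ) / q ≤ S0 := by
  obtain ⟨S0, hS0, hS⟩ := sum_dens_blk_le
  refine ⟨S0, hS0, ?_⟩
  intro P hP w hw j
  have h1 := hS w hw j
  rw [sum_dens_blk] at h1
  have h2 : ∑ q ∈ pb P w j, (1 : ℝ) / q ≤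
      ∑ q ∈ (Finset.Ioc ⌊zs w (j + 1)⌋₊ ⌊zs w j⌋₊).filter Nat.Prime, (1 : ℝ) / q := by
    apply Finset.sum_le_sum_of_subset_of_nonneg
    · intro q hq
      rw [mem_pb] at hq
      rw [Finset.mem_filter, Finset.mem_Ioc]
      exact ⟨hq.1, hP q hq.2⟩
    · intro q _ _; (clear * -; positivity)
  have h3 : 0 ≤ ∑ q ∈ (Finset.Ioc ⌊zs w (j + 1)⌋₊ ⌊zs w j⌋₊).filter Nat.Prime, (1 : ℝ) / q :=
    Finset.sum_nonneg fun q _ => by (clear * -; positivity)
  (clear * - hS0 h1 h2; linarith)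

theorem card_pb_le {P : ℕ → Prop} (hP : ∀ q, P q → q.Prime) (k : ℕ) {w : ℝ} (hw : 2 ≤ w) (j : ℕ) :
    ((k : ℝ) + 1) * ((pb P w j).card : ℝ) + 1 ≤ (zs w j) ^ (k + 2) := by
  classical
  have hw1 : (1 : ℝ) ≤ w := by (clear * - hw; linarith)
  have h1 := one_le_zs hw1 j
  rcases Finset.eq_empty_or_nonempty (pb P w j) with h | ⟨i, hi⟩
  · rw [h]
    simp only [Finset.card_empty, Nat.cast_zero, mul_zero, zero_add]
    exact one_le_pow₀ h1
  · rw [mem_pb] at hi
    have h2 : (2 : ℝ) ≤ zs w j := by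
      have h3 : (i : ℝ) ≤ zs w j := (Nat.le_floor_iff (zs_pos hw1 j).le).mp hi.1.2
      have h4 : (2 : ℝ) ≤ i := by exact_mod_cast (hP i hi.2).two_le
      (clear * - h3 h4; linarith)
    have h6 : (pb P w j).card ≤ ⌊zs w j⌋₊ := by
      unfold pb
      refine (Finset.card_filter_le _ _).trans ?_
      rw [Nat.card_Ioc]; omega
    have h7 : (⌊zs w j⌋₊ : ℝ) ≤ zs w j := Nat.floor_le (zs_pos hw1 j).le
    have h8 : ((pb P w j).card : ℝ) ≤ zs w j := le_trans (by exact_mod_cast h6) h7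
    exact by
      have h9 : (k : ℝ) + 2 ≤ 2 ^ (k + 1) := by
        have := Nat.lt_two_pow_self (n := k + 1)
        have h10 : k + 2 ≤ 2 ^ (k + 1) := by omega
        exact_mod_cast h10
      have h10 : (2 : ℝ) ^ (k + 1) ≤ (zs w j) ^ (k + 1) := pow_le_pow_left₀ (by norm_num) h2 _
      have hk : (0 : ℝ) ≤ k := by positivity
      calc ((k : ℝ) + 1) * ((pb P w j).card : ℝ) + 1 ≤ ((k : ℝ) + 1) * zs w j + 1 := by (clear * - h8; gcongr)
        _ ≤ ((k : ℝ) + 2) * zs w j := by (clear * - h2; nlinarith)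
        _ ≤ (zs w j) ^ (k + 1) * zs w j := by
            apply mul_le_mul_of_nonneg_right (h9.trans h10) (by (clear * - h2; linarith))
        _ = (zs w j) ^ (k + 2) := by ring

theorem prod_pb_card_le {P : ℕ → Prop} (hP : ∀ q, P q → q.Prime) (k : ℕ) {w : ℝ} (hw : 2 ≤ w)
    (b : ℕ) :
    ∏ j : Fin (nb w), (((k : ℝ) + 1) * ((pb P w j).card : ℝ) + 1) ^ (2 * (b + (j : ℕ)) + 1) ≤
      w ^ (((k : ℝ) + 2) * (4 * b + 6) : ℝ) := by
  have hw1 : (1 : ℝ) ≤ w := by (clear * - hw; linarith)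
  have hw0 : (0 : ℝ) < w := by (clear * - hw; linarith)
  calc ∏ j : Fin (nb w), (((k : ℝ) + 1) * ((pb P w j).card : ℝ) + 1) ^ (2 * (b + (j : ℕ)) + 1)
      ≤ ∏ j : Fin (nb w), w ^ ((1 / 2 : ℝ) ^ (j : ℕ) * (((k : ℝ) + 2) * (2 * (b + (j : ℕ)) + 1))) := by
        apply Finset.prod_le_prod
        · intro j _; (clear * -; positivity)
        · intro j _
          calc (((k : ℝ) + 1) * ((pb P w j).card : ℝ) + 1) ^ (2 * (b + (j : ℕ)) + 1)
              ≤ ((zs w j) ^ (k + 2)) ^ (2 * (b + (j : ℕ)) + 1) :=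
                pow_le_pow_left₀ (by (clear * -; positivity)) (card_pb_le hP k hw j) _
            _ = w ^ ((1 / 2 : ℝ) ^ (j : ℕ) * (((k : ℝ) + 2) * (2 * (b + (j : ℕ)) + 1))) := by
                unfold zs
                rw [← pow_mul, ← Real.rpow_natCast, ← Real.rpow_mul hw0.le]
                congr 1
                push_cast
                ring
    _ = w ^ (∑ j : Fin (nb w), (1 / 2 : ℝ) ^ (j : ℕ) *
          (((k : ℝ) + 2) * (2 * (b + (j : ℕ)) + 1))) := by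
        rw [Real.rpow_sum_of_pos hw0]
    _ ≤ w ^ (((k : ℝ) + 2) * (4 * b + 6) : ℝ) := by
        apply Real.rpow_le_rpow_of_exponent_le hw1
        rw [Fin.sum_univ_eq_sum_range
          (fun j => (1 / 2 : ℝ) ^ (j : ℕ) * (((k : ℝ) + 2) * (2 * (b + (j : ℝ)) + 1))) (nb w)]
        have e : ∀ j ∈ range (nb w), (1 / 2 : ℝ) ^ (j : ℕ) *
            (((k : ℝ) + 2) * (2 * (b + (j : ℝ)) + 1)) =
            (((k : ℝ) + 2) * (2 * b + 1)) * (1 / 2 : ℝ) ^ j +
              (2 * ((k : ℝ) + 2)) * ((j : ℝ) * (1 / 2 : ℝ) ^ j) := by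
          intro j _; ring
        rw [Finset.sum_congr rfl e, Finset.sum_add_distrib, ← Finset.mul_sum, ← Finset.mul_sum]
        have h1 := sum_geo_le (nb w)
        have h2 := sum_geo_mul_le (nb w)
        have h3 : (0 : ℝ) ≤ ((k : ℝ) + 2) * (2 * b + 1) := by (clear * -; positivity)
        have h4 : (0 : ℝ) ≤ 2 * ((k : ℝ) + 2) := by positivity
        have h5 := mul_le_mul_of_nonneg_left h1 h3
        have h6 := mul_le_mul_of_nonneg_left h2 h4
        calc _ ≤ ((k : ℝ) + 2) * (2 * b + 1) * 2 + 2 * ((k : ℝ) + 2) * 2 := add_le_add h5 h6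
          _ = _ := by ring

/-- Lower bound for the sieve product in dimension `k`. -/
theorem prod_lower_bound (k : ℕ) : ∃ c : ℝ, 0 < c ∧ ∀ (P : ℕ → Prop),
    (∀ q, P q → q.Prime ∧ 2 * k ≤ q) → ∀ ν : ℕ → ℝ, (∀ q, P q → 0 ≤ ν q ∧ ν q ≤ k) →
    ∀ w : ℝ, 2 ≤ w → c / (Real.log w) ^ k ≤ ∏ q ∈ pU P w, (1 - ν q / q) := by
  classical
  obtain ⟨C, hC, hM⟩ := sum_primesUpTo_bounds
  obtain ⟨C2, hC2, hS⟩ := sum_inv_sq_le
  refine ⟨Real.exp (-(k * C + 2 * k ^ 2 * C2)), Real.exp_pos _, ?_⟩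
  intro P hP ν hν w hw
  have hP' : ∀ q, P q → q.Prime := fun q h => (hP q h).1
  have hw0 : 0 ≤ w := by (clear * - hw; linarith)
  have hlw : 0 < Real.log w := Real.log_pos (by (clear * - hw; linarith))
  have hy : ∀ q ∈ pU P w, 0 ≤ ν q / q ∧ ν q / q ≤ k * (1 / (q : ℝ)) ∧ ν q / q ≤ 1 / 2 := by
    intro q hq
    rw [mem_pU hP' hw0] at hq
    have h1 := hP q hq.1
    have h2 := hν q hq.1
    have hq0 : (0 : ℝ) < q := by exact_mod_cast h1.1.pos
    have h3 : (2 : ℝ) * k ≤ q := by exact_mod_cast h1.2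
    refine ⟨div_nonneg h2.1 hq0.le, ?_, ?_⟩
    · rw [mul_one_div]
      exact div_le_div_of_nonneg_right h2.2 hq0.le
    · rw [div_le_iff₀ hq0]
      (clear * - h2 h3; linarith)
  have h1 : ∏ q ∈ pU P w, Real.exp (-(ν q / q + 2 * (ν q / q) ^ 2)) ≤
      ∏ q ∈ pU P w, (1 - ν q / q) := by
    apply Finset.prod_le_prod
    · intro q _; exact (Real.exp_pos _).le
    · intro q hq
      exact one_sub_ge_exp' (hy q hq).1 (hy q hq).2.2
  refine le_trans ?_ h1
  rw [← Real.exp_sum, Finset.sum_neg_distrib, Finset.sum_add_distrib]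
  have h2 : ∑ q ∈ pU P w, ν q / q ≤ k * (Real.log (Real.log w) + C) := by
    calc ∑ q ∈ pU P w, ν q / q ≤ ∑ q ∈ pU P w, k * (1 / (q : ℝ)) :=
          Finset.sum_le_sum fun q hq => (hy q hq).2.1
      _ = k * ∑ q ∈ pU P w, (1 / (q : ℝ)) := by rw [Finset.mul_sum]
      _ ≤ k * ∑ q ∈ primesUpTo w, (1 / (q : ℝ)) := by
          apply mul_le_mul_of_nonneg_left _ (by (clear * -; positivity))
          apply Finset.sum_le_sum_of_subset_of_nonneg
          · unfold pU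
            exact Finset.filter_subset _ _
          · intro q _ _; (clear * -; positivity)
      _ ≤ k * (Real.log (Real.log w) + C) := by
          apply mul_le_mul_of_nonneg_left _ (by (clear * -; positivity))
          have := (abs_le.mp (hM w hw)).2
          (clear * - this; linarith)
  have h3 : ∑ q ∈ pU P w, 2 * (ν q / q) ^ 2 ≤ 2 * k ^ 2 * C2 := by
    calc ∑ q ∈ pU P w, 2 * (ν q / q) ^ 2 ≤ ∑ q ∈ pU P w, 2 * (k : ℝ) ^ 2 * (1 / (q : ℝ)) ^ 2 := by
          apply Finset.sum_le_sum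
          intro q hq
          have h4 := pow_le_pow_left₀ (hy q hq).1 (hy q hq).2.1 2
          rw [mul_pow] at h4
          (clear * - h4; linarith)
      _ = 2 * (k : ℝ) ^ 2 * ∑ q ∈ pU P w, (1 / (q : ℝ)) ^ 2 := by rw [Finset.mul_sum]
      _ ≤ 2 * k ^ 2 * C2 := mul_le_mul_of_nonneg_left (hS _) (by (clear * -; positivity))
  have h4 : Real.exp (-(k * C + 2 * k ^ 2 * C2)) / (Real.log w) ^ k =
      Real.exp (-(k * (Real.log (Real.log w) + C) + 2 * k ^ 2 * C2)) := by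
    have h5 : (Real.log w) ^ k = Real.exp (k * Real.log (Real.log w)) := by
      rw [Real.exp_nat_mul, Real.exp_log hlw]
    rw [h5, ← Real.exp_sub]
    congr 1
    ring
  rw [h4]
  apply Real.exp_le_exp.mpr
  (clear * - h2 h3; linarith)

/-- The `k`-dimensional Brun-Hooley sieve. -/
theorem sieveK (k : ℕ) : ∃ K c : ℝ, 1 ≤ K ∧ 0 < c ∧ ∀ (α : Type) (P : ℕ → Prop),
    (∀ q, P q → q.Prime ∧ 2 * k ≤ q) → ∀ ν : ℕ → ℝ, (∀ q, P q → 0 ≤ ν q ∧ ν q ≤ k) →
    ∀ w : ℝ, 2 ≤ w → ∀ (Ω : Finset α) (occ : ℕ → α → Prop) (X E : ℝ), 0 ≤ X → 0 ≤ E →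
    (∀ I : Finset ℕ, (∀ q ∈ I, P q ∧ (q : ℝ) ≤ w) →
      |evCount Ω (fun ω => ∀ q ∈ I, occ q ω) - X * ∏ q ∈ I, (ν q / q)| ≤
        E * ((k : ℝ) + 1) ^ I.card) →
    evCount Ω (fun ω => ∀ q : ℕ, P q → (q : ℝ) ≤ w → ¬ occ q ω) ≤
        2 * X * (∏ q ∈ pU P w, (1 - ν q / q)) + E * w ^ K ∧
    c * X / (Real.log w) ^ k - E * w ^ K ≤
      evCount Ω (fun ω => ∀ q : ℕ, P q → (q : ℝ) ≤ w → ¬ occ q ω) := by
  obtain ⟨S0, hS0, hS⟩ := sum_inv_pb_le
  obtain ⟨c1, hc1, hlow⟩ := prod_lower_bound k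
  set S1 : ℝ := k * S0 with hS1
  have hS1n : 0 ≤ S1 := by (clear * - hS0; positivity)
  have hsum : Summable (fun n : ℕ => S1 ^ n / (n.factorial : ℝ)) := Real.summable_pow_div_factorial S1
  obtain ⟨s0, hs0⟩ := summable_iff_vanishing_norm.mp hsum (Real.exp (-(2 * S1)) / 2) (by positivity)
  set b := s0.sup id + 1 with hb
  set K0 : ℝ := ((k : ℝ) + 2) * (4 * b + 6) with hK0
  have hK0' : 0 ≤ K0 := by (clear * -; positivity)
  exact by
    refine ⟨K0 + 2, c1 / 2, by (clear * - hK0'; linarith), by positivity, ?_⟩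
    intro α P hP ν hν w hw Ω occ X E hX hE hcnt
    have hP' : ∀ q, P q → q.Prime := fun q h => (hP q h).1
    have hw1 : (1 : ℝ) ≤ w := by (clear * - hw; linarith)
    have hw0 : (0 : ℝ) < w := by (clear * - hw; linarith)
    have hlw : 0 < Real.log w := Real.log_pos (by (clear * - hw; linarith))
    have hdisj : ∀ i j : Fin (nb w), i ≠ j → Disjoint (pb P w i) (pb P w j) := by
      intro i j hij
      exact pb_disjoint hw1 (fun h => hij (Fin.ext h))
    have hx : ∀ j : ℕ, ∀ i ∈ pb P w j, 0 ≤ ν i / i ∧ ν i / i ≤ 1 / 2 := by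
      intro j i hi
      rw [mem_pb] at hi
      have h1 := hP i hi.2
      have h2 := hν i hi.2
      have hq0 : (0 : ℝ) < i := by exact_mod_cast h1.1.pos
      have h3 : (2 : ℝ) * k ≤ i := by exact_mod_cast h1.2
      refine ⟨div_nonneg h2.1 hq0.le, ?_⟩
      rw [div_le_iff₀ hq0]
      (clear * - h2 h3; linarith)
    have hcnt' : ∀ I : Finset ℕ,
        I ⊆ Finset.univ.biUnion (fun j : Fin (nb w) => pb P w j) →
        |evCount Ω (fun ω => ∀ i ∈ I, occ i ω) - X * ∏ i ∈ I, (ν i / i)| ≤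
          E * ((k : ℝ) + 1) ^ I.card := by
      intro I hI
      apply hcnt
      intro q hq
      have := hI hq
      rwa [biUnion_pb hP' hw, mem_pU hP' hw0.le] at this
    exact by
      have hsumx : ∀ j : ℕ, ∑ i ∈ pb P w j, ν i / i ≤ S1 := by
        intro j
        calc ∑ i ∈ pb P w j, ν i / i ≤ ∑ i ∈ pb P w j, k * ((1 : ℝ) / i) := by
              apply Finset.sum_le_sum
              intro i hi
              rw [mem_pb] at hi
              have hq0 : (0 : ℝ) < i := by exact_mod_cast (hP' i hi.2).pos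
              rw [mul_one_div]
              exact div_le_div_of_nonneg_right (hν i hi.2).2 hq0.le
          _ = k * ∑ i ∈ pb P w j, (1 : ℝ) / i := by rw [Finset.mul_sum]
          _ ≤ k * S0 := mul_le_mul_of_nonneg_left (hS P hP' w hw j) (by positivity)
      have hVlow : ∀ j : Fin (nb w), Real.exp (-(2 * S1)) ≤ ∏ i ∈ pb P w j, (1 - ν i / i) := by
        intro j
        calc Real.exp (-(2 * S1)) ≤ Real.exp (-∑ i ∈ pb P w j, 2 * (ν i / i)) := by
              apply Real.exp_le_exp.mpr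
              rw [← Finset.mul_sum]
              have := hsumx j
              (clear * - this; linarith)
          _ = ∏ i ∈ pb P w j, Real.exp (-(2 * (ν i / i))) := by
              rw [← Finset.sum_neg_distrib, Real.exp_sum]
          _ ≤ _ := by
              apply Finset.prod_le_prod
              · intro i _; exact (Real.exp_pos _).le
              · intro i hi
                have := hx j i hi
                exact one_sub_ge_exp this.1 this.2
      have hr : ∑ j : Fin (nb w), es (pb P w j) (2 * (b + (j : ℕ)) + 1) (fun q => ν q / q) /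
          ∏ i ∈ pb P w j, (1 - ν i / i) ≤ 1 / 2 := by
        have hterm : ∀ j : Fin (nb w), es (pb P w j) (2 * (b + (j : ℕ)) + 1) (fun q => ν q / q) /
            ∏ i ∈ pb P w j, (1 - ν i / i) ≤
            (S1 ^ (2 * (b + (j : ℕ)) + 1) / ((2 * (b + (j : ℕ)) + 1).factorial : ℝ)) *
              Real.exp (2 * S1) := by
          intro j
          have h1 : es (pb P w j) (2 * (b + (j : ℕ)) + 1) (fun q => ν q / q) ≤
              S1 ^ (2 * (b + (j : ℕ)) + 1) / ((2 * (b + (j : ℕ)) + 1).factorial : ℝ) := by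
            refine (es_le_pow_div_factorial _ _ (fun i hi => (hx j i hi).1) _).trans ?_
            apply div_le_div_of_nonneg_right _ (by positivity)
            apply pow_le_pow_left₀ (Finset.sum_nonneg fun i hi => (hx j i hi).1) (hsumx j)
          have h2 := hVlow j
          have h3 : 0 < Real.exp (-(2 * S1)) := Real.exp_pos _
          rw [div_le_iff₀ (h3.trans_le h2)]
          calc es (pb P w j) (2 * (b + (j : ℕ)) + 1) (fun q => ν q / q)
              ≤ S1 ^ (2 * (b + (j : ℕ)) + 1) / ((2 * (b + (j : ℕ)) + 1).factorial : ℝ) * 1 := by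
                rw [mul_one]; exact h1
            _ = S1 ^ (2 * (b + (j : ℕ)) + 1) / ((2 * (b + (j : ℕ)) + 1).factorial : ℝ) *
                  (Real.exp (2 * S1) * Real.exp (-(2 * S1))) := by
                rw [← Real.exp_add]; simp
            _ ≤ S1 ^ (2 * (b + (j : ℕ)) + 1) / ((2 * (b + (j : ℕ)) + 1).factorial : ℝ) *
                  (Real.exp (2 * S1) * ∏ i ∈ pb P w j, (1 - ν i / i)) := by
                (clear * - h2 hS0; gcongr)
            _ = _ := by ring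
        calc ∑ j : Fin (nb w), es (pb P w j) (2 * (b + (j : ℕ)) + 1) (fun q => ν q / q) /
              ∏ i ∈ pb P w j, (1 - ν i / i)
            ≤ ∑ j : Fin (nb w), (S1 ^ (2 * (b + (j : ℕ)) + 1) /
                ((2 * (b + (j : ℕ)) + 1).factorial : ℝ)) * Real.exp (2 * S1) :=
              Finset.sum_le_sum fun j _ => hterm j
          _ = (∑ n ∈ (Finset.univ : Finset (Fin (nb w))).image (fun j : Fin (nb w) => 2 * (b + (j : ℕ)) + 1),
                S1 ^ n / (n.factorial : ℝ)) * Real.exp (2 * S1) := by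
              rw [← Finset.sum_mul, Finset.sum_image]
              intro i _ j _ hij
              apply Fin.ext
              simp only at hij
              omega
          _ ≤ (Real.exp (-(2 * S1)) / 2) * Real.exp (2 * S1) := by
              apply mul_le_mul_of_nonneg_right _ (Real.exp_pos _).le
              have h4 := hs0 ((Finset.univ : Finset (Fin (nb w))).image
                (fun j : Fin (nb w) => 2 * (b + (j : ℕ)) + 1)) ?_
              · rw [Real.norm_eq_abs] at h4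
                exact (le_abs_self _).trans h4.le
              · rw [Finset.disjoint_left]
                intro n hn hn'
                rw [Finset.mem_image] at hn
                obtain ⟨j, _, rfl⟩ := hn
                have : id (2 * (b + (j : ℕ)) + 1) ≤ s0.sup id := Finset.le_sup (f := id) hn'
                simp only [id] at this
                omega
          _ = 1 / 2 := by
              rw [div_mul_eq_mul_div, ← Real.exp_add]; simp
      have hmain := brun_hooleyK Ω occ (fun j : Fin (nb w) => pb P w j) hdisj (fun q => ν q / q)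
        (fun j i hi => hx j i hi) X E ((k : ℝ) + 1) hX hE (by (clear * - α; linarith [Nat.cast_nonneg (α := ℝ) k]))
        hcnt' (fun j => 2 * (b + (j : ℕ)))
        (fun j => even_two_mul _) hr
      -- identify the event
      have hevent : (fun ω : α => ∀ j : Fin (nb w), ∀ i ∈ pb P w j, ¬ occ i ω) =
          (fun ω => ∀ q : ℕ, P q → (q : ℝ) ≤ w → ¬ occ q ω) := by
        funext ω
        apply propext
        constructor
        · intro h q hq hqw
          have : q ∈ (Finset.univ : Finset (Fin (nb w))).biUnion (fun j => pb P w j) := by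
            rw [biUnion_pb hP' hw, mem_pU hP' hw0.le]
            exact ⟨hq, hqw⟩
          rw [Finset.mem_biUnion] at this
          obtain ⟨j, _, hj⟩ := this
          exact h j q hj
        · intro h j i hi
          have hi' : i ∈ (Finset.univ : Finset (Fin (nb w))).biUnion (fun j => pb P w j) :=
            Finset.mem_biUnion.mpr ⟨j, Finset.mem_univ _, hi⟩
          rw [biUnion_pb hP' hw, mem_pU hP' hw0.le] at hi'
          exact h i hi'.1 hi'.2
      rw [hevent] at hmain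
      -- the product
      have hprodV : ∏ j : Fin (nb w), ∏ i ∈ pb P w j, (1 - ν i / i) =
          ∏ q ∈ pU P w, (1 - ν q / q) := by
        rw [← Finset.prod_biUnion, biUnion_pb hP' hw]
        intro i _ j _ hij
        exact hdisj i j hij
      rw [hprodV] at hmain
      have hPw := hlow P hP ν hν w hw
      exact by
        have hprod := prod_pb_card_le hP' k hw b
        have hprod0 : 0 ≤ ∏ j : Fin (nb w),
            (((k : ℝ) + 1) * ((pb P w j).card : ℝ) + 1) ^ (2 * (b + (j : ℕ)) + 1) :=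
          Finset.prod_nonneg fun j _ => by (clear * -; positivity)
        have hwK : w ^ (K0 + 2) = w ^ K0 * w ^ 2 := by
          rw [Real.rpow_add hw0]
          norm_num
        have hwK0 : 0 < w ^ K0 := Real.rpow_pos_of_pos hw0 _
        have hnb : (nb w : ℝ) + 1 ≤ w ^ 2 := by
          unfold nb
          push_cast
          have := Nat.floor_le hw0.le
          (clear * - hw this; nlinarith)
        constructor
        · refine hmain.1.trans ?_
          have h2 : E * ∏ j : Fin (nb w),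
              (((k : ℝ) + 1) * ((pb P w j).card : ℝ) + 1) ^ (2 * (b + (j : ℕ)) + 1) ≤
              E * w ^ (K0 + 2) := by
            apply mul_le_mul_of_nonneg_left _ hE
            refine hprod.trans ?_
            rw [hwK]
            have : (1 : ℝ) ≤ w ^ 2 := one_le_pow₀ hw1
            (clear * - hprod hprod0 hnb; nlinarith)
          (clear * - h2; linarith)
        · refine le_trans ?_ hmain.2
          have h1 : c1 / 2 * X / Real.log w ^ k ≤
              1 / 2 * X * ∏ q ∈ pU P w, (1 - ν q / q) := by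
            calc c1 / 2 * X / Real.log w ^ k = 1 / 2 * X * (c1 / Real.log w ^ k) := by ring
              _ ≤ _ := by
                  apply mul_le_mul_of_nonneg_left _ (by (clear * - hX; positivity))
                  exact hPw
          have h2 : E * (((nb w : ℕ) + 1) *
              ∏ j : Fin (nb w), (((k : ℝ) + 1) * ((pb P w j).card : ℝ) + 1) ^ (2 * (b + (j : ℕ)) + 1)) ≤
              E * w ^ (K0 + 2) := by
            apply mul_le_mul_of_nonneg_left _ hE
            rw [hwK, mul_comm (w ^ K0)]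
            exact mul_le_mul hnb hprod hprod0 (by positivity)
          (clear * - h1 h2; linarith)

end Pool.Agent.M20.Helper96.CPAP
end

/- Helper53.KN.Helper18.KSZ.NSpec -/
section
/-!
# Theorem N (zeros of zeta near the line 1): definitions and module statements
(project KSZ, Section 3 of KS_H60_counting.md)
-/

set_option autoImplicit false

open Finset

namespace Pool.Agent.M20.Helper18.KSZ

/-- all prime factors are at most `w` -/
def smooth (w : ℝ) (n : ℕ) : Prop := ∀ p : ℕ, p.Prime → p ∣ n → (p : ℝ) ≤ w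

/-- all prime factors are larger than `w` -/
def rough (w : ℝ) (n : ℕ) : Prop := ∀ p : ℕ, p.Prime → p ∣ n → w < (p : ℝ)

/-- multiplicity of a zero -/
noncomputable def mz (ρ : ℂ) : ℝ := (analyticOrderNatAt riemannZeta ρ : ℝ)

/-! ## Classical inputs -/

/-- (A3), from the k-th derivative tests -/
def InA3 : Prop := ∀ A : ℝ, 1 ≤ A → ∃ c C : ℝ, 0 < c ∧ 0 < C ∧ ∀ (N N1 : ℕ) (t : ℝ),
  1 ≤ N → N < N1 → N1 ≤ 2 * N → (N : ℝ) ^ (1 / A) ≤ t → t ≤ (N : ℝ) ^ A →
  ‖∑ n ∈ Ioc N N1, (n : ℂ) ^ (-((t : ℂ) * Complex.I))‖ ≤ C * (N : ℝ) ^ (1 - c)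

/-- (A9 iii), density lemma -/
def InA9 : Prop := ∃ C : ℝ, 0 < C ∧ ∀ t r : ℝ, 2 ≤ |t| → 0 < r → r ≤ 1 / 10 →
  ∀ Z : Finset ℂ, (∀ ρ ∈ Z, riemannZeta ρ = 0 ∧ ‖ρ - (1 + (t : ℂ) * Complex.I)‖ ≤ r) →
  ∑ ρ ∈ Z, mz ρ ≤ C * (1 + r * Real.log (|t| + 2))

/-- (A10), zero-free region with a large constant -/
def InA10 : Prop := ∀ C0 : ℝ, ∃ T0 : ℝ, 2 ≤ T0 ∧ ∀ ρ : ℂ, riemannZeta ρ = 0 → T0 ≤ |ρ.im| →
  ρ.re ≤ 1 - C0 / Real.log |ρ.im|

/-! ## N1: the sieve weights -/

/-- `beta` -/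
noncomputable def bet (lam : ℕ → ℝ) (n : ℕ) : ℝ := ∑ d ∈ n.divisors, lam d

/-- upper bound sieve weights of level `w ^ K` -/
structure SW (K C w : ℝ) (lam : ℕ → ℝ) : Prop where
  one : lam 1 = 1
  abs_le : ∀ d, |lam d| ≤ 1
  supp : ∀ d, lam d ≠ 0 → 0 < d ∧ smooth w d ∧ (d : ℝ) ≤ w ^ K
  nonneg : ∀ n, 0 < n → 0 ≤ bet lam n
  small : ∀ x : ℝ, 0 ≤ x → w ^ x ≤ 11 / 10 → ∀ S : Finset ℕ, (∀ n ∈ S, 1 < n ∧ smooth w n) →
    ∑ n ∈ S, bet lam n * (n : ℝ) ^ (x - 1) ≤ 1 / 8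
  mean : |∑ d ∈ Icc 1 ⌊w ^ K⌋₊, lam d / d| ≤ C / Real.log w

/-- N1 -/
def SieveWeights : Prop := ∃ K C : ℝ, 1 ≤ K ∧ 0 < C ∧ ∀ w : ℝ, 2 ≤ w → ∃ lam : ℕ → ℝ, SW K C w lam

open Classical in
/-- the explicit Brun-Hooley weights: at most `2 (b + j)` prime factors from the block
`pb Nat.Prime w j`, i.e. the primes in `(w ^ (1/2^(j+1)), w ^ (1/2^j)]` -/
noncomputable def lamE (b : ℕ) (w : ℝ) (d : ℕ) : ℝ :=
  if 0 < d ∧ smooth w d ∧ ∀ j < Helper44.nb w,
      (d.primeFactors ∩ Helper96.CPAP.pb Nat.Prime w j).card ≤ 2 * (b + j)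
  then (ArithmeticFunction.moebius d : ℝ) else 0

/-- number of prime factors of `n` in block `j` -/
noncomputable def omB (w : ℝ) (j n : ℕ) : ℕ :=
  (n.primeFactors ∩ Helper96.CPAP.pb Nat.Prime w j).card

/-- N1a -/
def LamBasic : Prop := ∀ (b : ℕ) (w : ℝ), 2 ≤ w →
  lamE b w 1 = 1 ∧ (∀ d, |lamE b w d| ≤ 1) ∧
  (∀ d, lamE b w d ≠ 0 → 0 < d ∧ smooth w d ∧ (d : ℝ) ≤ w ^ ((4 * b + 4 : ℕ) : ℝ)) ∧
  (∀ n, 0 < n → 0 ≤ bet (lamE b w) n) ∧
  (∀ n, 0 < n → bet (lamE b w) n ≤ ∏ j ∈ range (Helper44.nb w),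
    (if omB w j n = 0 then 1 else if omB w j n ≤ 2 * (b + j) then 0 else (2 : ℝ) ^ omB w j n))

/-- N1b -/
def LamSmall : Prop := ∃ b0 : ℕ, ∀ b : ℕ, b0 ≤ b → ∀ w : ℝ, 2 ≤ w → ∀ x : ℝ, 0 ≤ x →
  w ^ x ≤ 11 / 10 → ∀ S : Finset ℕ, (∀ n ∈ S, 1 < n ∧ smooth w n) →
  ∑ n ∈ S, bet (lamE b w) n * (n : ℝ) ^ (x - 1) ≤ 1 / 8

/-- N1c -/
def LamMean : Prop := ∀ b : ℕ, ∃ C : ℝ, 0 < C ∧ ∀ w : ℝ, 2 ≤ w →
  |∑ d ∈ Icc 1 ⌊w ^ ((4 * b + 4 : ℕ) : ℝ)⌋₊, lamE b w d / d| ≤ C / Real.log w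

/-! ## N2: coefficients of the mollified zeta function -/

open Classical in
/-- truncated Moebius function on rough integers -/
noncomputable def mur (w D : ℝ) (d : ℕ) : ℝ :=
  if rough w d ∧ (d : ℝ) ≤ D then (ArithmeticFunction.moebius d : ℝ) else 0

/-- `alpha` -/
noncomputable def alp (w D : ℝ) (n : ℕ) : ℝ := ∑ d ∈ n.divisors, mur w D d

/-- coefficients of the mollifier `M1 M2` -/
noncomputable def cc (lam : ℕ → ℝ) (w D : ℝ) (d : ℕ) : ℝ :=
  ∑ x ∈ d.divisorsAntidiagonal, lam x.1 * mur w D x.2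

open Classical in
/-- N2 -/
def Coeffs : Prop := ∀ (K C w : ℝ) (lam : ℕ → ℝ), 2 ≤ w → SW K C w lam → ∀ D : ℝ, 1 ≤ D →
  cc lam w D 1 = 1 ∧ (∀ d, |cc lam w D d| ≤ 1) ∧
  (∀ d, cc lam w D d ≠ 0 → 0 < d ∧ (d : ℝ) ≤ w ^ K * D) ∧
  (∀ n, 0 < n → ∑ d ∈ n.divisors, cc lam w D d = bet lam n * alp w D n) ∧
  (∀ n : ℕ, 0 < n → (n : ℝ) ≤ D → alp w D n = if smooth w n then 1 else 0) ∧
  (∀ a m, 0 < a → 0 < m → smooth w a → rough w m →
    bet lam (a * m) = bet lam a ∧ alp w D (a * m) = alp w D m ∧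
    |alp w D m| ≤ 2 ^ m.primeFactors.card)

/-! ## N3, N4: sums over rough integers, first factor of the duality argument -/

open Classical in
/-- N3 (Mertens, Euler products over `factoredNumbers`) -/
def RoughSums : Prop := ∃ C : ℝ, 0 < C ∧ ∀ w Y : ℝ, 2 ≤ w → w ≤ Y →
  ∑ m ∈ (Icc 1 ⌊Y⌋₊).filter (rough w), 1 / (m : ℝ) ≤ C * (Real.log Y / Real.log w) ∧
  ∑ m ∈ (Icc 1 ⌊Y⌋₊).filter (rough w), 4 ^ m.primeFactors.card / (m : ℝ) ≤
    C * (Real.log Y / Real.log w) ^ 4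

/-- N4 -/
def FirstFactor : Prop := ∀ K C : ℝ, 1 ≤ K → 0 < C → ∃ C' : ℝ, 0 < C' ∧ ∀ (w : ℝ) (lam : ℕ → ℝ),
  2 ≤ w → SW K C w lam → ∀ D Y : ℝ, 1 ≤ D → w ≤ Y →
  ∑ n ∈ Icc 1 ⌊Y⌋₊, bet lam n / n ≤ C' * (Real.log Y / Real.log w) ∧
  ∑ n ∈ Icc 1 ⌊Y⌋₊, bet lam n * alp w D n ^ 2 / n ≤ C' * (Real.log Y / Real.log w) ^ 4

/-! ## N5, N6: exponential sums -/

/-- N5 -/
def ExpSum : Prop := ∃ c ε X0 : ℝ, 0 < c ∧ 0 < ε ∧ ∀ X : ℝ, X0 ≤ X → ∀ t : ℝ,
  X ^ (1 / 200 : ℝ) ≤ |t| → |t| ≤ X ^ (61 / 100 : ℝ) → ∀ M M' : ℕ, X ^ (3 / 200 : ℝ) ≤ M →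
  M ≤ M' → (M' : ℝ) ≤ X ^ (4 : ℝ) → ∀ σ : ℝ, 1 - ε ≤ σ → σ ≤ 1 →
  ‖∑ n ∈ Ioc M M', (n : ℂ) ^ (-((σ : ℂ) + (t : ℂ) * Complex.I))‖ ≤ X ^ (-c)

/-- N6: partial sums at a zero -/
def ZeroSum : Prop := ∃ c ε X0 : ℝ, 0 < c ∧ 0 < ε ∧ ∀ X : ℝ, X0 ≤ X → ∀ ρ : ℂ,
  riemannZeta ρ = 0 → 1 - ε ≤ ρ.re → X ^ (3 / 10 : ℝ) ≤ |ρ.im| → |ρ.im| ≤ X ^ (6 / 10 : ℝ) →
  ∀ M : ℕ, X ^ (1 / 10 : ℝ) ≤ M → (M : ℝ) ≤ X → ‖∑ n ∈ Icc 1 M, (n : ℂ) ^ (-ρ)‖ ≤ X ^ (-c)

/-! ## N7: detection of zeros -/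

/-- N7 -/
def Detect : Prop := ∀ K C : ℝ, 1 ≤ K → 0 < C → ∃ ε X0 : ℝ, 0 < ε ∧ ∀ X : ℝ, X0 ≤ X →
  ∀ (w : ℝ) (lam : ℕ → ℝ), 2 ≤ w → w ^ K ≤ X ^ (1 / 100 : ℝ) → SW K C w lam →
  ∀ ρ : ℂ, riemannZeta ρ = 0 → 1 - ε ≤ ρ.re → w ^ (1 - ρ.re) ≤ 11 / 10 →
  X ^ (3 / 10 : ℝ) ≤ |ρ.im| → |ρ.im| ≤ X ^ (6 / 10 : ℝ) →
  1 / 2 ≤ ‖∑ n ∈ Ioc ⌊X ^ (1 / 20 : ℝ)⌋₊ ⌊X ^ (1 / 5 : ℝ)⌋₊,
    ((bet lam n * alp w (X ^ (1 / 20 : ℝ)) n : ℝ) : ℂ) * (n : ℂ) ^ (-ρ)‖

/-! ## N8, N9, N10: the kernel of the duality argument -/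

/-- trapezoid in `log y / log X`: zero outside `[1/40, 1/4]`, one on `[1/20, 1/5]` -/
noncomputable def trap (X y : ℝ) : ℝ :=
  max 0 (min 1 (min (40 * (Real.log y / Real.log X) - 1) (5 - 20 * (Real.log y / Real.log X))))

/-- its integral against `y ^ (-s)` -/
noncomputable def Itr (X : ℝ) (s : ℂ) : ℂ :=
  (20 * ((X : ℂ) ^ ((1 - s) / 4) - (X : ℂ) ^ ((1 - s) / 5)) -
    40 * ((X : ℂ) ^ ((1 - s) / 20) - (X : ℂ) ^ ((1 - s) / 40))) /
    ((Real.log X : ℂ) * (1 - s) ^ 2)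

/-- N8: inner sum, small ordinates -/
def InnerSmall : Prop := ∃ C X0 : ℝ, 0 < C ∧ ∀ X : ℝ, X0 ≤ X → ∀ d : ℕ, 1 ≤ d →
  (d : ℝ) ≤ X ^ (1 / 100 : ℝ) → ∀ s : ℂ, 9 / 10 ≤ s.re → s.re ≤ 1 → s ≠ 1 →
  ‖∑ m ∈ Icc 1 ⌊X⌋₊, (trap X ((d : ℝ) * m) : ℂ) * (m : ℂ) ^ (-s) - (d : ℂ) ^ (s - 1) * Itr X s‖ ≤
    C * (1 + ‖s‖) * X ^ (-(1 / 100) : ℝ)

/-- N9: inner sum, large ordinates -/
def InnerLarge : Prop := ∃ c ε X0 : ℝ, 0 < c ∧ 0 < ε ∧ ∀ X : ℝ, X0 ≤ X → ∀ d : ℕ, 1 ≤ d →
  (d : ℝ) ≤ X ^ (1 / 100 : ℝ) → ∀ s : ℂ, 1 - ε ≤ s.re → s.re ≤ 1 →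
  X ^ (1 / 200 : ℝ) ≤ |s.im| → |s.im| ≤ X ^ (61 / 100 : ℝ) →
  ‖∑ m ∈ Icc 1 ⌊X⌋₊, (trap X ((d : ℝ) * m) : ℂ) * (m : ℂ) ^ (-s)‖ ≤ X ^ (-c)

/-- the kernel -/
noncomputable def Ker (lam : ℕ → ℝ) (X : ℝ) (s : ℂ) : ℂ :=
  ∑ n ∈ Icc 1 ⌊X⌋₊, ((bet lam n * trap X n : ℝ) : ℂ) * (n : ℂ) ^ (-s)

/-- N10 -/
def KerBound : Prop := ∀ K C : ℝ, 1 ≤ K → 0 < C → ∃ c ε C' X0 : ℝ, 0 < c ∧ 0 < ε ∧ 0 < C' ∧
  ∀ X : ℝ, X0 ≤ X → ∀ (w : ℝ) (lam : ℕ → ℝ), 2 ≤ w → w ^ K ≤ X ^ (1 / 100 : ℝ) → SW K C w lam →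
  ∀ s : ℂ, 1 - ε ≤ s.re → s.re ≤ 1 → s.im ≠ 0 → |s.im| ≤ X ^ (61 / 100 : ℝ) →
  ‖Ker lam X s‖ ≤ C' * X ^ ((1 - s.re) / 4) / (Real.log w * Real.log X * s.im ^ 2) + X ^ (-c)

/-! ## N11: well spaced points -/

/-- N11 -/
def Spaced : Prop := ∀ δ : ℝ, 0 < δ → ∀ Γ : Finset ℂ,
  (∀ ρ ∈ Γ, ∀ ρ' ∈ Γ, ρ ≠ ρ' → δ ≤ |ρ.im - ρ'.im|) →
  ∀ ρ ∈ Γ, ∑ ρ' ∈ Γ.erase ρ, 1 / (ρ.im - ρ'.im) ^ 2 ≤ 4 / δ ^ 2

/-! ## N12 - N15: density, multiplicity, final sum -/

/-- N12: log-free density of well spaced zeros -/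
def Density : Prop := ∃ ε C X0 : ℝ, 0 < ε ∧ 0 < C ∧ ∀ X : ℝ, X0 ≤ X → ∀ c : ℝ, 1 ≤ c →
  c ≤ ε * Real.log X → ∀ Γ : Finset ℂ,
  (∀ ρ ∈ Γ, riemannZeta ρ = 0 ∧ 1 - c / Real.log X ≤ ρ.re ∧ X ^ (3 / 10 : ℝ) ≤ |ρ.im| ∧
    |ρ.im| ≤ X ^ (6 / 10 : ℝ)) →
  (∀ ρ ∈ Γ, ∀ ρ' ∈ Γ, ρ ≠ ρ' → 1 / Real.log X ≤ |ρ.im - ρ'.im|) →
  (Γ.card : ℝ) ≤ C * c ^ 5 * Real.exp (c / 2)

/-- N13: with multiplicities, no spacing -/
def DensityM : Prop := ∃ ε C X0 : ℝ, 0 < ε ∧ 0 < C ∧ ∀ X : ℝ, X0 ≤ X → ∀ c : ℝ, 1 ≤ c →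
  c ≤ ε * Real.log X → ∀ Z : Finset ℂ,
  (∀ ρ ∈ Z, riemannZeta ρ = 0 ∧ 1 - c / Real.log X ≤ ρ.re ∧ X ^ (3 / 10 : ℝ) ≤ |ρ.im| ∧
    |ρ.im| ≤ X ^ (6 / 10 : ℝ)) →
  ∑ ρ ∈ Z, mz ρ ≤ C * c ^ 6 * Real.exp (c / 2)

/-- N14: one level -/
def OneLevel : Prop := ∃ ε : ℝ, 0 < ε ∧ ∀ η : ℝ, 0 < η → ∃ X0 : ℝ, ∀ X : ℝ, X0 ≤ X →
  ∀ Z : Finset ℂ, (∀ ρ ∈ Z, riemannZeta ρ = 0 ∧ 1 - ε ≤ ρ.re ∧ X ^ (3 / 10 : ℝ) ≤ |ρ.im| ∧
    |ρ.im| ≤ X ^ (6 / 10 : ℝ)) →
  ∑ ρ ∈ Z, mz ρ * X ^ (ρ.re - 1) ≤ η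

/-- N15: Theorem N -/
def TheoremN : Prop := ∃ ε : ℝ, 0 < ε ∧ ∀ η : ℝ, 0 < η → ∃ X0 : ℝ, ∀ X : ℝ, X0 ≤ X →
  ∀ Z : Finset ℂ, (∀ ρ ∈ Z, riemannZeta ρ = 0 ∧ 1 - ε ≤ ρ.re ∧ |ρ.im| ≤ X ^ (6 / 10 : ℝ)) →
  ∑ ρ ∈ Z, mz ρ * X ^ (ρ.re - 1) ≤ η

end Pool.Agent.M20.Helper18.KSZ
end

/- Helper53.KN.Helper18.KSZ.N12 -/
section
/-!
# N12: log-free density of well spaced zeros near the line 1 (duality)
-/

set_option autoImplicit false

open Finset

namespace Pool.Agent.M20.Helper18.KSZ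

lemma trap_nonneg (X y : ℝ) : 0 ≤ trap X y := le_max_left _ _

lemma trap_eq_one {X y : ℝ} (hX : 1 < X) (h1 : X ^ (1 / 20 : ℝ) ≤ y) (h2 : y ≤ X ^ (1 / 5 : ℝ)) :
    trap X y = 1 := by
  have hL : 0 < Real.log X := Real.log_pos hX
  have hX0 : 0 < X := by (clear * - hX; linarith)
  have hy : 0 < y := lt_of_lt_of_le (Real.rpow_pos_of_pos hX0 _) h1
  have e1 : 1 / 20 * Real.log X ≤ Real.log y := by
    rw [← Real.log_rpow hX0]
    exact Real.log_le_log (Real.rpow_pos_of_pos hX0 _) h1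
  have e2 : Real.log y ≤ 1 / 5 * Real.log X := by
    rw [← Real.log_rpow hX0]
    exact Real.log_le_log hy h2
  have e3 : 1 / 20 ≤ Real.log y / Real.log X := by
    rw [le_div_iff₀ hL]; exact e1
  have e4 : Real.log y / Real.log X ≤ 1 / 5 := by
    rw [div_le_iff₀ hL]; exact e2
  unfold trap
  rw [min_eq_left, max_eq_right (by norm_num)]
  refine le_min ?_ ?_ <;> (clear * - e3 e4; linarith)

lemma dual_aux {Γ : Finset ℂ} {X : ℝ} {be al : ℕ → ℝ} (hbe : ∀ n, 0 < n → 0 ≤ be n) {a b : ℕ}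
    (hb : b ≤ ⌊X⌋₊) (htrap : ∀ n ∈ Ioc a b, trap X n = 1)
    (hS : ∀ ρ ∈ Γ, 1 / 2 ≤ ‖∑ n ∈ Ioc a b, ((be n * al n : ℝ) : ℂ) * (n : ℂ) ^ (-ρ)‖) :
    ((Γ.card : ℝ) / 2) ^ 2 ≤ (∑ n ∈ Ioc a b, be n * al n ^ 2 / n) *
      ∑ ρ ∈ Γ, ∑ ρ' ∈ Γ, ‖∑ n ∈ Icc 1 ⌊X⌋₊, ((be n * trap X n : ℝ) : ℂ) *
        (n : ℂ) ^ (-(ρ + (starRingEnd ℂ) ρ' - 1))‖ := by
  classical
  set S : ℂ → ℂ := fun ρ => ∑ n ∈ Ioc a b, ((be n * al n : ℝ) : ℂ) * (n : ℂ) ^ (-ρ) with hSdef
  set et : ℂ → ℂ := fun ρ => (starRingEnd ℂ) (S ρ) / ‖S ρ‖ with het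
  set T : ℕ → ℂ := fun n => ∑ ρ ∈ Γ, et ρ * (n : ℂ) ^ (-ρ) with hT
  have het1 : ∀ ρ, ‖et ρ‖ ≤ 1 := by
    intro ρ
    simp only [het, norm_div, RCLike.norm_conj, Complex.norm_real, norm_norm]
    exact div_self_le_one _
  have hetS : ∀ ρ, et ρ * S ρ = ‖S ρ‖ := by
    intro ρ
    simp only [het]
    rcases eq_or_ne (‖S ρ‖) 0 with h | h
    · rw [h]; simp
    · rw [div_mul_eq_mul_div, div_eq_iff (by exact_mod_cast h), mul_comm, Complex.mul_conj,
        Complex.normSq_eq_norm_sq]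
      push_cast; ring
  -- first step
  have h1 : (Γ.card : ℝ) / 2 ≤ ∑ n ∈ Ioc a b, |be n * al n| * ‖T n‖ := by
    have e1 : (Γ.card : ℝ) / 2 ≤ ∑ ρ ∈ Γ, ‖S ρ‖ := by
      calc (Γ.card : ℝ) / 2 = ∑ ρ ∈ Γ, (1 / 2 : ℝ) := by
            rw [Finset.sum_const, nsmul_eq_mul]; ring
        _ ≤ _ := Finset.sum_le_sum fun ρ hρ => hS ρ hρ
    have e2 : ((∑ ρ ∈ Γ, ‖S ρ‖ : ℝ) : ℂ) = ∑ n ∈ Ioc a b, ((be n * al n : ℝ) : ℂ) * T n := by
      push_cast
      calc ∑ ρ ∈ Γ, ((‖S ρ‖ : ℝ) : ℂ) = ∑ ρ ∈ Γ, et ρ * S ρ :=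
            Finset.sum_congr rfl fun ρ _ => (hetS ρ).symm
        _ = ∑ ρ ∈ Γ, ∑ n ∈ Ioc a b, ((be n * al n : ℝ) : ℂ) * (et ρ * (n : ℂ) ^ (-ρ)) := by
            refine Finset.sum_congr rfl fun ρ _ => ?_
            simp only [hSdef]
            rw [Finset.mul_sum]
            refine Finset.sum_congr rfl fun n _ => ?_
            ring
        _ = ∑ n ∈ Ioc a b, ∑ ρ ∈ Γ, ((be n * al n : ℝ) : ℂ) * (et ρ * (n : ℂ) ^ (-ρ)) :=
            Finset.sum_comm
        _ = _ := by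
            refine Finset.sum_congr rfl fun n _ => ?_
            rw [← Finset.mul_sum]
            push_cast
            rfl
    have e3 : ∑ ρ ∈ Γ, ‖S ρ‖ = ‖((∑ ρ ∈ Γ, ‖S ρ‖ : ℝ) : ℂ)‖ := by
      rw [Complex.norm_real, Real.norm_eq_abs, abs_of_nonneg]
      exact Finset.sum_nonneg fun _ _ => norm_nonneg _
    rw [e2] at e3
    rw [e3] at e1
    refine e1.trans ((norm_sum_le _ _).trans (le_of_eq ?_))
    refine Finset.sum_congr rfl fun n _ => ?_
    rw [norm_mul, Complex.norm_real, Real.norm_eq_abs]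
  have hpos : ∀ n ∈ Ioc a b, 0 < n := fun n hn => by
    rw [Finset.mem_Ioc] at hn; omega
  -- Cauchy-Schwarz
  have h2 : (∑ n ∈ Ioc a b, |be n * al n| * ‖T n‖) ^ 2 ≤
      (∑ n ∈ Ioc a b, be n * al n ^ 2 / n) * ∑ n ∈ Ioc a b, be n * n * ‖T n‖ ^ 2 := by
    apply Finset.sum_sq_le_sum_mul_sum_of_sq_le_mul
    · intro n hn
      have := hbe n (hpos n hn)
      (clear * - this; positivity)
    · intro n hn
      have := hbe n (hpos n hn)
      (clear * - this; positivity)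
    · intro n hn
      have h0 : (n : ℝ) ≠ 0 := by
        have := hpos n hn
        positivity
      apply le_of_eq
      rw [mul_pow, sq_abs]
      (clear * - h0; field_simp)
  -- majorant
  have h3 : ∑ n ∈ Ioc a b, be n * n * ‖T n‖ ^ 2 ≤
      ∑ n ∈ Icc 1 ⌊X⌋₊, be n * trap X n * (n * ‖T n‖ ^ 2) := by
    calc ∑ n ∈ Ioc a b, be n * n * ‖T n‖ ^ 2 =
        ∑ n ∈ Ioc a b, be n * trap X n * (n * ‖T n‖ ^ 2) := by
          refine Finset.sum_congr rfl fun n hn => ?_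
          rw [htrap n hn]; ring
      _ ≤ _ := by
          apply Finset.sum_le_sum_of_subset_of_nonneg
          · intro n hn
            rw [Finset.mem_Ioc] at hn
            rw [Finset.mem_Icc]
            omega
          · intro n hn _
            rw [Finset.mem_Icc] at hn
            have := hbe n (by omega)
            have h5 := trap_nonneg X n
            (clear * - this h5; positivity)
  -- expansion
  have h4 : ((∑ n ∈ Icc 1 ⌊X⌋₊, be n * trap X n * (n * ‖T n‖ ^ 2) : ℝ) : ℂ) =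
      ∑ ρ ∈ Γ, ∑ ρ' ∈ Γ, et ρ * (starRingEnd ℂ) (et ρ') *
        ∑ n ∈ Icc 1 ⌊X⌋₊, ((be n * trap X n : ℝ) : ℂ) *
        (n : ℂ) ^ (-(ρ + (starRingEnd ℂ) ρ' - 1)) := by
    have e1 : ∀ n ∈ Icc 1 ⌊X⌋₊, ((n * ‖T n‖ ^ 2 : ℝ) : ℂ) =
        ∑ ρ ∈ Γ, ∑ ρ' ∈ Γ, et ρ * (starRingEnd ℂ) (et ρ') *
          (n : ℂ) ^ (-(ρ + (starRingEnd ℂ) ρ' - 1)) := by
      intro n hn
      rw [Finset.mem_Icc] at hn
      have hn0 : (n : ℂ) ≠ 0 := by
        have : n ≠ 0 := by omega
        exact_mod_cast this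
      have e2 : ((‖T n‖ ^ 2 : ℝ) : ℂ) = T n * (starRingEnd ℂ) (T n) := by
        rw [Complex.mul_conj, Complex.normSq_eq_norm_sq]
      have e3 : (starRingEnd ℂ) (T n) = ∑ ρ' ∈ Γ, (starRingEnd ℂ) (et ρ') *
          (n : ℂ) ^ (-(starRingEnd ℂ) ρ') := by
        simp only [hT, map_sum, map_mul]
        refine Finset.sum_congr rfl fun ρ _ => ?_
        congr 1
        have h6 : ((n : ℕ) : ℂ) = (((n : ℕ) : ℝ) : ℂ) := by push_cast; rfl
        rw [← map_neg]
        have h7 := Complex.cpow_conj (n : ℂ) (-ρ) (by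
          rw [Complex.natCast_arg]
          exact Real.pi_pos.ne)
        rw [Complex.conj_natCast] at h7
        rw [h7]
      push_cast
      have e4 : ((‖T n‖ : ℝ) : ℂ) ^ 2 = T n * (starRingEnd ℂ) (T n) := by
        rw [← e2]; push_cast; rfl
      rw [e4, e3]
      simp only [hT]
      rw [Finset.sum_mul_sum, Finset.mul_sum]
      refine Finset.sum_congr rfl fun ρ _ => ?_
      rw [Finset.mul_sum]
      refine Finset.sum_congr rfl fun ρ' _ => ?_
      have e5 : (n : ℂ) ^ (-(ρ + (starRingEnd ℂ) ρ' - 1)) =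
          (n : ℂ) * (n : ℂ) ^ (-ρ) * (n : ℂ) ^ (-(starRingEnd ℂ) ρ') := by
        have : -(ρ + (starRingEnd ℂ) ρ' - 1) = 1 + -ρ + -(starRingEnd ℂ) ρ' := by ring
        rw [this, Complex.cpow_add _ _ hn0, Complex.cpow_add _ _ hn0, Complex.cpow_one]
      rw [e5]
      ring
    calc ((∑ n ∈ Icc 1 ⌊X⌋₊, be n * trap X n * (n * ‖T n‖ ^ 2) : ℝ) : ℂ) =
        ∑ n ∈ Icc 1 ⌊X⌋₊, ((be n * trap X n : ℝ) : ℂ) * ((n * ‖T n‖ ^ 2 : ℝ) : ℂ) := by
          push_cast
          rfl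
      _ = ∑ n ∈ Icc 1 ⌊X⌋₊, ∑ ρ ∈ Γ, ∑ ρ' ∈ Γ, ((be n * trap X n : ℝ) : ℂ) *
            (et ρ * (starRingEnd ℂ) (et ρ') * (n : ℂ) ^ (-(ρ + (starRingEnd ℂ) ρ' - 1))) := by
          refine Finset.sum_congr rfl fun n hn => ?_
          rw [e1 n hn, Finset.mul_sum]
          refine Finset.sum_congr rfl fun ρ _ => ?_
          rw [Finset.mul_sum]
      _ = _ := by
          rw [Finset.sum_comm]
          refine Finset.sum_congr rfl fun ρ _ => ?_
          rw [Finset.sum_comm]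
          refine Finset.sum_congr rfl fun ρ' _ => ?_
          rw [Finset.mul_sum]
          refine Finset.sum_congr rfl fun n _ => ?_
          ring
  have h5 : ∑ n ∈ Icc 1 ⌊X⌋₊, be n * trap X n * (n * ‖T n‖ ^ 2) ≤
      ∑ ρ ∈ Γ, ∑ ρ' ∈ Γ, ‖∑ n ∈ Icc 1 ⌊X⌋₊, ((be n * trap X n : ℝ) : ℂ) *
        (n : ℂ) ^ (-(ρ + (starRingEnd ℂ) ρ' - 1))‖ := by
    have e0 : ∑ n ∈ Icc 1 ⌊X⌋₊, be n * trap X n * (n * ‖T n‖ ^ 2) ≤
        ‖((∑ n ∈ Icc 1 ⌊X⌋₊, be n * trap X n * (n * ‖T n‖ ^ 2) : ℝ) : ℂ)‖ := by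
      rw [Complex.norm_real]
      exact Real.le_norm_self _
    rw [h4] at e0
    refine e0.trans ((norm_sum_le _ _).trans (Finset.sum_le_sum fun ρ _ => ?_))
    refine (norm_sum_le _ _).trans (Finset.sum_le_sum fun ρ' _ => ?_)
    rw [norm_mul, norm_mul, RCLike.norm_conj]
    have h6 := het1 ρ
    have h7 := het1 ρ'
    calc ‖et ρ‖ * ‖et ρ'‖ * _ ≤ 1 * 1 * _ := by gcongr
      _ = _ := by ring
  have hf0 : 0 ≤ ∑ n ∈ Ioc a b, be n * al n ^ 2 / n := by
    apply Finset.sum_nonneg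
    intro n hn
    have := hbe n (hpos n hn)
    (clear * - this; positivity)
  calc ((Γ.card : ℝ) / 2) ^ 2 ≤ (∑ n ∈ Ioc a b, |be n * al n| * ‖T n‖) ^ 2 := by
        (clear * - h1; gcongr)
    _ ≤ _ := h2
    _ ≤ _ := mul_le_mul_of_nonneg_left (h3.trans h5) hf0

lemma trap_le_one (X y : ℝ) : trap X y ≤ 1 :=
  max_le (by norm_num) (min_le_left _ _)

lemma trap_eq_zero {X y : ℝ} (hX : 1 < X) (h : X ^ (1 / 4 : ℝ) ≤ y) : trap X y = 0 := by
  have hL : 0 < Real.log X := Real.log_pos hX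
  have hX0 : 0 < X := by (clear * - hX; linarith)
  have e1 : 1 / 4 * Real.log X ≤ Real.log y := by
    rw [← Real.log_rpow hX0]
    exact Real.log_le_log (Real.rpow_pos_of_pos hX0 _) h
  have e3 : 1 / 4 ≤ Real.log y / Real.log X := by
    rw [le_div_iff₀ hL]; exact e1
  unfold trap
  apply max_eq_left
  refine (min_le_right _ _).trans ((min_le_right _ _).trans ?_)
  (clear * - e3; linarith)

lemma trap_mul_le {X y x : ℝ} (hX : 1 < X) (hy : 1 ≤ y) (hx : 0 ≤ x) :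
    trap X y * y ^ (2 * x) ≤ X ^ (x / 2) := by
  have hX0 : 0 < X := by linarith
  rcases le_total (X ^ (1 / 4 : ℝ)) y with h | h
  · rw [trap_eq_zero hX h, zero_mul]
    exact (Real.rpow_pos_of_pos hX0 _).le
  · calc trap X y * y ^ (2 * x) ≤ 1 * (X ^ (1 / 4 : ℝ)) ^ (2 * x) := by
          apply mul_le_mul (trap_le_one _ _) _ (Real.rpow_nonneg (by (clear * - hy; linarith)) _) (by norm_num)
          exact Real.rpow_le_rpow (by linarith) h (by (clear * - hx; linarith))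
      _ = X ^ (x / 2) := by
          rw [one_mul, ← Real.rpow_mul hX0.le]
          congr 1
          ring

lemma exists_small (A B c : ℝ) (hc : 0 < c) : ∃ X0 : ℝ, 1 < X0 ∧ ∀ X : ℝ, X0 ≤ X →
    B * (A * Real.log X) ^ 4 * X ^ (-c) ≤ 1 / 8 := by
  have h1 : Filter.Tendsto (fun X : ℝ => Real.log X ^ (4 : ℝ) / X ^ c) Filter.atTop (nhds 0) :=
    (isLittleO_log_rpow_rpow_atTop (4 : ℝ) hc).tendsto_div_nhds_zero
  have h2 : Filter.Tendsto (fun X : ℝ => (B * A ^ 4) * (Real.log X ^ (4 : ℝ) / X ^ c))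
      Filter.atTop (nhds ((B * A ^ 4) * 0)) := h1.const_mul _
  rw [mul_zero] at h2
  have h3 := h2.eventually (gt_mem_nhds (show (0 : ℝ) < 1 / 8 by norm_num))
  obtain ⟨X0, hX0⟩ := (h3.and (Filter.eventually_gt_atTop 1)).exists_forall_of_atTop
  refine ⟨max X0 2, lt_max_of_lt_right (by norm_num), fun X hX => ?_⟩
  have h4 := hX0 X (le_trans (le_max_left _ _) hX)
  have hXp : 0 < X := by linarith [h4.2]
  have h5 := h4.1
  rw [show (4 : ℝ) = ((4 : ℕ) : ℝ) by norm_num, Real.rpow_natCast] at h5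
  rw [Real.rpow_neg hXp.le]
  calc B * (A * Real.log X) ^ 4 * (X ^ c)⁻¹ = (B * A ^ 4) * (Real.log X ^ 4 / X ^ c) := by ring
    _ ≤ _ := h5.le

/-- N12 -/
theorem density (h1 : SieveWeights) (h4 : FirstFactor) (h7 : Detect) (h10 : KerBound)
    (h11 : Spaced) : Density := by
  classical
  obtain ⟨K, C, hK, hC, hw⟩ := h1
  obtain ⟨C4, hC4, h4'⟩ := h4 K C hK hC
  obtain ⟨ε7, X7, hε7, h7'⟩ := h7 K C hK hC
  obtain ⟨c1, ε10, C10, X10, hc1, hε10, hC10, h10'⟩ := h10 K C hK hC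
  set A : ℝ := 100 * K with hA
  have hA100 : 100 ≤ A := by rw [hA]; (clear * - hK; linarith)
  have hA0 : 0 < A := by (clear * - hK; linarith)
  obtain ⟨X12, hX12, hsm⟩ := exists_small A C4 c1 hc1
  set ε : ℝ := min (min ε7 (ε10 / 2)) (1 / A) with hε
  have hε0 : 0 < ε := by
    rw [hε]
    exact lt_min (lt_min hε7 (by (clear * - hε10; linarith))) (by positivity)
  have hεa : ε ≤ ε7 := (min_le_left _ _).trans (min_le_left _ _)
  have hεb : ε ≤ ε10 / 2 := (min_le_left _ _).trans (min_le_right _ _)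
  have hεc : ε ≤ 1 / A := min_le_right _ _
  have hε1 : ε ≤ 1 := by
    refine hεc.trans ?_
    rw [div_le_one hA0]; linarith
  refine ⟨ε, 8 * C4 * A ^ 5 * (C4 + 4 * C10), max (max X7 X10) (max X12 (2 ^ (100 : ℝ))), hε0,
    by positivity, ?_⟩
  intro X hX c hc1' hcε Γ hΓ hsp
  have hXa : X7 ≤ X := (le_max_left _ _).trans ((le_max_left _ _).trans hX)
  have hXb : X10 ≤ X := (le_max_right _ _).trans ((le_max_left _ _).trans hX)
  have hXc : X12 ≤ X := (le_max_left _ _).trans ((le_max_right _ _).trans hX)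
  have hXd : (2 : ℝ) ^ (100 : ℝ) ≤ X := (le_max_right _ _).trans ((le_max_right _ _).trans hX)
  have hX1 : 1 < X := hX12.trans_le hXc
  have hX0 : 0 < X := by (clear * - hXd; linarith)
  set L : ℝ := Real.log X with hL
  have hL0 : 0 < L := Real.log_pos hX1
  have hcp : 0 < c := by linarith
  set w : ℝ := Real.exp (L / (A * c)) with hwdef
  have hw0 : 0 < w := Real.exp_pos _
  have hlogw : Real.log w = L / (A * c) := Real.log_exp _
  have hAc : 0 < A * c := by positivity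
  have hLAc : 1 ≤ L / (A * c) := by
    rw [le_div_iff₀ hAc, one_mul]
    have e1 : c ≤ 1 / A * L := hcε.trans (mul_le_mul_of_nonneg_right hεc hL0.le)
    calc A * c ≤ A * (1 / A * L) := mul_le_mul_of_nonneg_left e1 hA0.le
      _ = L := by clear * - hA100 hL0; field_simp
  have hw2 : 2 ≤ w := by
    have := Real.add_one_le_exp (L / (A * c))
    (clear * - hLAc this; linarith)
  have hwK : w ^ K ≤ X ^ (1 / 100 : ℝ) := by
    rw [Real.rpow_def_of_pos hw0, Real.rpow_def_of_pos hX0, hlogw]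
    apply Real.exp_le_exp.mpr
    rw [← hL, div_mul_eq_mul_div, div_le_iff₀ hAc]
    have : L * (1 / 100) * (A * c) = (L * K) * c := by rw [hA]; ring
    rw [this]
    have e2 : 0 ≤ L * K := by positivity
    exact le_mul_of_one_le_right e2 hc1'
  have hwX : w ≤ X := by
    have e1 : w = w ^ (1 : ℝ) := (Real.rpow_one w).symm
    rw [e1]
    calc w ^ (1 : ℝ) ≤ w ^ K := Real.rpow_le_rpow_of_exponent_le (by (clear * - hw2; linarith)) hK
      _ ≤ X ^ (1 / 100 : ℝ) := hwK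
      _ ≤ X ^ (1 : ℝ) := Real.rpow_le_rpow_of_exponent_le hX1.le (by norm_num)
      _ = X := Real.rpow_one X
  have hwY : w ≤ X ^ (1 / 5 : ℝ) := by
    have e1 : w = w ^ (1 : ℝ) := (Real.rpow_one w).symm
    rw [e1]
    calc w ^ (1 : ℝ) ≤ w ^ K := Real.rpow_le_rpow_of_exponent_le (by (clear * - hw2; linarith)) hK
      _ ≤ X ^ (1 / 100 : ℝ) := hwK
      _ ≤ X ^ (1 / 5 : ℝ) := Real.rpow_le_rpow_of_exponent_le hX1.le (by norm_num)
  obtain ⟨lam, hlam⟩ := hw w hw2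
  -- facts on the zeros
  have hre : ∀ ρ ∈ Γ, ρ.re < 1 := by
    intro ρ hρ
    by_contra h
    push Not at h
    exact riemannZeta_ne_zero_of_one_le_re h (hΓ ρ hρ).1
  have hx : ∀ ρ ∈ Γ, (1 - ρ.re) * L ≤ c := by
    intro ρ hρ
    have := (hΓ ρ hρ).2.1
    have e1 : 1 - ρ.re ≤ c / L := by (clear * - this; linarith)
    calc (1 - ρ.re) * L ≤ c / L * L := mul_le_mul_of_nonneg_right e1 hL0.le
      _ = c := by (clear * - hL0 hc1'; field_simp)
  have hxε : ∀ ρ ∈ Γ, 1 - ρ.re ≤ ε := by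
    intro ρ hρ
    have e1 : (1 - ρ.re) * L ≤ ε * L := (hx ρ hρ).trans hcε
    exact le_of_mul_le_mul_right e1 hL0
  have hwx : ∀ ρ ∈ Γ, w ^ (1 - ρ.re) ≤ 11 / 10 := by
    intro ρ hρ
    rw [Real.rpow_def_of_pos hw0, hlogw]
    have e1 : L / (A * c) * (1 - ρ.re) ≤ 1 / 100 := by
      rw [div_mul_eq_mul_div, div_le_iff₀ hAc]
      have := hx ρ hρ
      have h9 := mul_nonneg (sub_nonneg.2 hK) hcp.le
      rw [hA]
      (clear * - h9 this; linarith)
    calc Real.exp (L / (A * c) * (1 - ρ.re)) ≤ Real.exp (1 / 100) := Real.exp_le_exp.mpr e1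
      _ ≤ 11 / 10 := by
          clear * -; have := Real.exp_bound' (x := 1 / 100) (by norm_num) (by norm_num) (n := 2) (by norm_num)
          norm_num [Finset.sum_range_succ] at this
          (clear * - this; linarith)
  -- duality
  set a : ℕ := ⌊X ^ (1 / 20 : ℝ)⌋₊ with ha
  set b : ℕ := ⌊X ^ (1 / 5 : ℝ)⌋₊ with hb
  have hbX : b ≤ ⌊X⌋₊ := by
    apply Nat.floor_le_floor
    calc X ^ (1 / 5 : ℝ) ≤ X ^ (1 : ℝ) := Real.rpow_le_rpow_of_exponent_le hX1.le (by norm_num)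
      _ = X := Real.rpow_one X
  have htrap : ∀ n ∈ Ioc a b, trap X n = 1 := by
    intro n hn
    rw [Finset.mem_Ioc] at hn
    apply trap_eq_one hX1
    · exact (Nat.lt_of_floor_lt hn.1).le
    · exact (Nat.le_floor_iff (by positivity)).mp hn.2
  have hdual := dual_aux (be := bet lam) (al := alp w (X ^ (1 / 20 : ℝ))) (Γ := Γ) hlam.nonneg hbX
    htrap (fun ρ hρ => h7' X hXa w lam hw2 hwK hlam ρ (hΓ ρ hρ).1 (by (clear * - hεa hxε hρ; linarith [hxε ρ hρ]))
      (hwx ρ hρ) (hΓ ρ hρ).2.2.1 (hΓ ρ hρ).2.2.2)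
  -- first factor
  have hD1 : 1 ≤ X ^ (1 / 20 : ℝ) := Real.one_le_rpow hX1.le (by norm_num)
  have hF : ∑ n ∈ Ioc a b, bet lam n * alp w (X ^ (1 / 20 : ℝ)) n ^ 2 / n ≤
      C4 * (A * c) ^ 4 := by
    have e1 := (h4' w lam hw2 hlam (X ^ (1 / 20 : ℝ)) (X ^ (1 / 5 : ℝ)) hD1 hwY).2
    have e2 : ∑ n ∈ Ioc a b, bet lam n * alp w (X ^ (1 / 20 : ℝ)) n ^ 2 / n ≤
        ∑ n ∈ Icc 1 ⌊X ^ (1 / 5 : ℝ)⌋₊, bet lam n * alp w (X ^ (1 / 20 : ℝ)) n ^ 2 / n := by
      apply Finset.sum_le_sum_of_subset_of_nonneg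
      · intro n hn
        rw [Finset.mem_Ioc] at hn
        rw [Finset.mem_Icc]
        omega
      · intro n hn _
        rw [Finset.mem_Icc] at hn
        have := hlam.nonneg n (by omega)
        (clear * - this; positivity)
    refine e2.trans (e1.trans ?_)
    apply mul_le_mul_of_nonneg_left _ hC4.le
    apply pow_le_pow_left₀
    · rw [hlogw, Real.log_rpow hX0]
      (clear * - hL0 hK hc1'; positivity)
    · clear * - hlogw hX0 hL hL0 hK hc1' hA100; rw [hlogw, Real.log_rpow hX0, ← hL]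
      rw [div_le_iff₀ (by positivity)]
      have : A * c * (L / (A * c)) = L := by (clear * - hA100 hc1' hL0; field_simp)
      rw [this]
      (clear * - hL0; linarith)
  -- kernel, diagonal
  have hdiag : ∀ ρ ∈ Γ, ‖∑ n ∈ Icc 1 ⌊X⌋₊, ((bet lam n * trap X n : ℝ) : ℂ) *
        (n : ℂ) ^ (-(ρ + (starRingEnd ℂ) ρ - 1))‖ ≤ C4 * (A * c) * Real.exp (c / 2) := by
    intro ρ hρ
    have e1 := (h4' w lam hw2 hlam 1 X le_rfl hwX).1
    refine (norm_sum_le _ _).trans ?_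
    calc ∑ n ∈ Icc 1 ⌊X⌋₊, ‖((bet lam n * trap X n : ℝ) : ℂ) *
        (n : ℂ) ^ (-(ρ + (starRingEnd ℂ) ρ - 1))‖ ≤
        ∑ n ∈ Icc 1 ⌊X⌋₊, (bet lam n / n) * Real.exp (c / 2) := by
          apply Finset.sum_le_sum
          intro n hn
          rw [Finset.mem_Icc] at hn
          have hn0 : (0 : ℝ) < n := by
            have : 0 < n := by omega
            exact_mod_cast this
          have hn1 : (1 : ℝ) ≤ n := by exact_mod_cast hn.1
          have hb0 := hlam.nonneg n (by omega)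
          rw [norm_mul, Complex.norm_real, Real.norm_eq_abs,
            abs_of_nonneg (mul_nonneg hb0 (trap_nonneg _ _)),
            Complex.norm_natCast_cpow_of_pos (by omega)]
          have e2 : (-(ρ + (starRingEnd ℂ) ρ - 1)).re = 2 * (1 - ρ.re) + (-1) := by
            simp; ring
          rw [e2, Real.rpow_add hn0, Real.rpow_neg_one]
          have e3 := trap_mul_le (X := X) (y := n) (x := 1 - ρ.re) hX1 hn1 (by (clear * - hre hρ; linarith [hre ρ hρ]))
          have e4 : X ^ ((1 - ρ.re) / 2) ≤ Real.exp (c / 2) := by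
            rw [Real.rpow_def_of_pos hX0]
            apply Real.exp_le_exp.mpr
            have := hx ρ hρ
            rw [← hL]
            (clear * - this; linarith)
          calc bet lam n * trap X n * ((n : ℝ) ^ (2 * (1 - ρ.re)) * (n : ℝ)⁻¹) =
              (bet lam n / n) * (trap X n * (n : ℝ) ^ (2 * (1 - ρ.re))) := by
                (clear * - hn0; field_simp)
            _ ≤ (bet lam n / n) * Real.exp (c / 2) := by
                apply mul_le_mul_of_nonneg_left (e3.trans e4)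
                (clear * - hb0 hn0; positivity)
      _ = (∑ n ∈ Icc 1 ⌊X⌋₊, bet lam n / n) * Real.exp (c / 2) := by rw [Finset.sum_mul]
      _ ≤ C4 * (Real.log X / Real.log w) * Real.exp (c / 2) :=
          mul_le_mul_of_nonneg_right e1 (Real.exp_pos _).le
      _ = _ := by
          rw [hlogw, ← hL]
          have : L / (L / (A * c)) = A * c := by (clear * - hL0 hc1' hA100; field_simp)
          rw [this]
  -- kernel, off the diagonal
  have hoff : ∀ ρ ∈ Γ, ∀ ρ' ∈ Γ.erase ρ, ‖∑ n ∈ Icc 1 ⌊X⌋₊, ((bet lam n * trap X n : ℝ) : ℂ) *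
        (n : ℂ) ^ (-(ρ + (starRingEnd ℂ) ρ' - 1))‖ ≤
        C10 * Real.exp (c / 2) * (A * c / L ^ 2) * (1 / (ρ.im - ρ'.im) ^ 2) + X ^ (-c1) := by
    intro ρ hρ ρ' hρ'
    have hρ'2 := Finset.mem_of_mem_erase hρ'
    have hne : ρ ≠ ρ' := (Finset.ne_of_mem_erase hρ').symm
    have him : (ρ + (starRingEnd ℂ) ρ' - 1).im = ρ.im - ρ'.im := by simp; ring
    have hree : (ρ + (starRingEnd ℂ) ρ' - 1).re = ρ.re + ρ'.re - 1 := by simp
    have hgap := hsp ρ hρ ρ' hρ'2 hne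
    have hgap0 : 0 < |ρ.im - ρ'.im| := lt_of_lt_of_le (by (clear * - hL0; positivity)) hgap
    have e1 := h10' X hXb w lam hw2 hwK hlam (ρ + (starRingEnd ℂ) ρ' - 1)
      (by clear * - hree hεb hxε hρ hρ'2; rw [hree]; (clear * - hεb hxε hρ hρ'2; linarith [hxε ρ hρ, hxε ρ' hρ'2]))
      (by rw [hree]; (clear * - hre hρ hρ'2; linarith [hre ρ hρ, hre ρ' hρ'2]))
      (by rw [him]; exact abs_pos.mp hgap0)
      (by
        rw [him]
        have f1 := (hΓ ρ hρ).2.2.2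
        have f2 := (hΓ ρ' hρ'2).2.2.2
        have f3 : |ρ.im - ρ'.im| ≤ |ρ.im| + |ρ'.im| := abs_sub _ _
        have f4 : X ^ (61 / 100 : ℝ) = X ^ (1 / 100 : ℝ) * X ^ (6 / 10 : ℝ) := by
          rw [← Real.rpow_add hX0]; norm_num
        have f5 : (2 : ℝ) ≤ X ^ (1 / 100 : ℝ) := by
          calc (2 : ℝ) = ((2 : ℝ) ^ (100 : ℝ)) ^ (1 / 100 : ℝ) := by
                rw [← Real.rpow_mul (by norm_num)]; norm_num
            _ ≤ _ := Real.rpow_le_rpow (by positivity) hXd (by norm_num)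
        have f6 : 0 < X ^ (6 / 10 : ℝ) := Real.rpow_pos_of_pos hX0 _
        rw [f4]
        have f7 := mul_le_mul_of_nonneg_right f5 f6.le
        (clear * - f1 f2 f3 f7; linarith))
    unfold Ker at e1
    refine e1.trans ?_
    rw [him, hree]
    apply add_le_add_left
    have e2 : X ^ ((1 - (ρ.re + ρ'.re - 1)) / 4) ≤ Real.exp (c / 2) := by
      rw [Real.rpow_def_of_pos hX0]
      apply Real.exp_le_exp.mpr
      have g1 := hx ρ hρ
      have g2 := hx ρ' hρ'2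
      rw [← hL]
      (clear * - g1 g2; linarith)
    have hsq : 0 < (ρ.im - ρ'.im) ^ 2 := by
      have := abs_pos.mp hgap0
      (clear * - this; positivity)
    calc C10 * X ^ ((1 - (ρ.re + ρ'.re - 1)) / 4) / (Real.log w * Real.log X * (ρ.im - ρ'.im) ^ 2)
        ≤ C10 * Real.exp (c / 2) / (Real.log w * Real.log X * (ρ.im - ρ'.im) ^ 2) := by
          rw [hlogw, ← hL]
          (clear * - e2 hC10 hL0 hK hc1' hsq; gcongr)
      _ = _ := by
          rw [hlogw, ← hL]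
          (clear * - hA100 hL0 hc1' hC10; field_simp)
  -- assembly
  set n : ℝ := (Γ.card : ℝ) with hn
  have hn0 : 0 ≤ n := by (clear * -; positivity)
  have hG : ∑ ρ ∈ Γ, ∑ ρ' ∈ Γ, ‖∑ n ∈ Icc 1 ⌊X⌋₊, ((bet lam n * trap X n : ℝ) : ℂ) *
        (n : ℂ) ^ (-(ρ + (starRingEnd ℂ) ρ' - 1))‖ ≤
      n * ((C4 + 4 * C10) * (A * c) * Real.exp (c / 2)) + n ^ 2 * X ^ (-c1) := by
    have e1 : ∀ ρ ∈ Γ, ∑ ρ' ∈ Γ, ‖∑ n ∈ Icc 1 ⌊X⌋₊, ((bet lam n * trap X n : ℝ) : ℂ) *
        (n : ℂ) ^ (-(ρ + (starRingEnd ℂ) ρ' - 1))‖ ≤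
        (C4 + 4 * C10) * (A * c) * Real.exp (c / 2) + n * X ^ (-c1) := by
      intro ρ hρ
      rw [← Finset.add_sum_erase Γ _ hρ]
      have e2 := h11 (1 / L) (by clear * - hL0; positivity) Γ hsp ρ hρ
      have e3 : (4 : ℝ) / (1 / L) ^ 2 = 4 * L ^ 2 := by field_simp
      rw [e3] at e2
      have e4 : ∑ ρ' ∈ Γ.erase ρ, ‖∑ n ∈ Icc 1 ⌊X⌋₊, ((bet lam n * trap X n : ℝ) : ℂ) *
          (n : ℂ) ^ (-(ρ + (starRingEnd ℂ) ρ' - 1))‖ ≤
          C10 * Real.exp (c / 2) * (A * c / L ^ 2) * (4 * L ^ 2) + n * X ^ (-c1) := by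
        refine (Finset.sum_le_sum (hoff ρ hρ)).trans ?_
        rw [Finset.sum_add_distrib, ← Finset.mul_sum, Finset.sum_const, nsmul_eq_mul]
        apply add_le_add
        · clear * - e2 hC10 hK hc1' hL0; apply mul_le_mul_of_nonneg_left e2
          positivity
        · apply mul_le_mul_of_nonneg_right _ (Real.rpow_nonneg hX0.le _)
          rw [hn]
          exact_mod_cast Finset.card_le_card (Finset.erase_subset _ _)
      have e5 : C10 * Real.exp (c / 2) * (A * c / L ^ 2) * (4 * L ^ 2) =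
          4 * C10 * (A * c) * Real.exp (c / 2) := by (clear * - hL0 hA100 hc1' hC10; field_simp)
      rw [e5] at e4
      have e6 := hdiag ρ hρ
      calc _ ≤ C4 * (A * c) * Real.exp (c / 2) + (4 * C10 * (A * c) * Real.exp (c / 2) +
            n * X ^ (-c1)) := add_le_add e6 e4
        _ = _ := by ring
    refine (Finset.sum_le_sum e1).trans (le_of_eq ?_)
    rw [Finset.sum_const, nsmul_eq_mul, ← hn]
    ring
  have hfin : (n / 2) ^ 2 ≤ C4 * (A * c) ^ 4 *
      (n * ((C4 + 4 * C10) * (A * c) * Real.exp (c / 2)) + n ^ 2 * X ^ (-c1)) := by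
    refine hdual.trans ?_
    apply mul_le_mul hF hG
    · exact Finset.sum_nonneg fun _ _ => Finset.sum_nonneg fun _ _ => norm_nonneg _
    · clear * - hC4 hK hc1'; positivity
  have hsm' : C4 * (A * c) ^ 4 * X ^ (-c1) ≤ 1 / 8 := by
    refine le_trans ?_ (hsm X hXc)
    apply mul_le_mul_of_nonneg_right _ (Real.rpow_nonneg hX0.le _)
    apply mul_le_mul_of_nonneg_left _ hC4.le
    apply pow_le_pow_left₀ hAc.le
    apply mul_le_mul_of_nonneg_left _ hA0.le
    calc c ≤ ε * L := hcε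
      _ ≤ 1 * L := mul_le_mul_of_nonneg_right hε1 hL0.le
      _ = Real.log X := one_mul _
  have hfin2 : n ^ 2 / 4 ≤ n * (C4 * A ^ 5 * (C4 + 4 * C10) * c ^ 5 * Real.exp (c / 2)) + n ^ 2 / 8 := by
    have e1 : C4 * (A * c) ^ 4 *
      (n * ((C4 + 4 * C10) * (A * c) * Real.exp (c / 2)) + n ^ 2 * X ^ (-c1)) =
      n * (C4 * A ^ 5 * (C4 + 4 * C10) * c ^ 5 * Real.exp (c / 2)) +
        n ^ 2 * (C4 * (A * c) ^ 4 * X ^ (-c1)) := by ring
    rw [e1] at hfin
    have e2 : n ^ 2 * (C4 * (A * c) ^ 4 * X ^ (-c1)) ≤ n ^ 2 * (1 / 8) :=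
      mul_le_mul_of_nonneg_left hsm' (by (clear * -; positivity))
    have e9 : n ^ 2 / 4 = (n / 2) ^ 2 := by ring
    have e8 : n ^ 2 / 8 = n ^ 2 * (1 / 8) := by ring
    rw [e9, e8]
    exact hfin.trans (add_le_add le_rfl e2)
  rcases hn0.eq_or_lt with h0 | h0
  · rw [← h0]; (clear * - hC4 hK hC10 hc1'; positivity)
  · clear * - hfin2 h0; have e3 : n * n ≤ n * (8 * (C4 * A ^ 5 * (C4 + 4 * C10) * c ^ 5 * Real.exp (c / 2))) := by
      generalize C4 * A ^ 5 * (C4 + 4 * C10) * c ^ 5 * Real.exp (c / 2) = Y at hfin2 ⊢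
      (clear * - hfin2; linarith)
    have e4 := le_of_mul_le_mul_left e3 h0
    calc n ≤ 8 * (C4 * A ^ 5 * (C4 + 4 * C10) * c ^ 5 * Real.exp (c / 2)) := e4
      _ = _ := by ring

end Pool.Agent.M20.Helper18.KSZ
end

/- Helper53.KN.Helper18.KSZ.N14 -/
section
/-!
# N14: the zeros of one level
-/

set_option autoImplicit false

open Finset

namespace Pool.Agent.M20.Helper18.KSZ

lemma mz_nonneg (ρ : ℂ) : 0 ≤ mz ρ := Nat.cast_nonneg _

/-- tails of `∑ k ^ 6 * exp (-k / 2)` -/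
lemma tail_small (B η : ℝ) (_hB : 0 < B) (hη : 0 < η) : ∃ k0 : ℕ, ∀ t : Finset ℕ,
    (∀ k ∈ t, k0 ≤ k) → ∑ k ∈ t, B * ((k : ℝ) ^ 6 * Real.exp (-(1 / 2) * k)) ≤ η := by
  have hs : Summable (fun k : ℕ => B * ((k : ℝ) ^ 6 * Real.exp (-(1 / 2) * k))) := by
    apply Summable.mul_left
    exact Real.summable_pow_mul_exp_neg_nat_mul 6 (by norm_num)
  obtain ⟨s, hs'⟩ := summable_iff_vanishing_norm.mp hs η hη
  refine ⟨s.sup id + 1, fun t ht => ?_⟩
  have h1 := hs' t (by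
    rw [Finset.disjoint_left]
    intro k hk hk'
    have h2 := ht k hk
    have h3 : k ≤ s.sup id := Finset.le_sup (f := id) hk'
    omega)
  exact (Real.le_norm_self _).trans h1.le

/-- N14 -/
theorem oneLevel (h10 : InA10) (h : DensityM) : OneLevel := by
  classical
  obtain ⟨ε1, C, X1, hε1, hC, hD⟩ := h
  refine ⟨ε1 / 2, by linarith, fun η hη => ?_⟩
  obtain ⟨k0, hk0⟩ := tail_small (Real.exp 1 * C) η (by positivity) hη
  obtain ⟨T0, hT0, hT⟩ := h10 (k0 + 1)
  -- thresholds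
  have hev : ∀ᶠ X : ℝ in Filter.atTop, X1 ≤ X ∧ 1 < X ∧ T0 ≤ X ^ (3 / 10 : ℝ) ∧
      2 / ε1 ≤ Real.log X := by
    refine (Filter.eventually_ge_atTop X1).and ((Filter.eventually_gt_atTop 1).and
      (((tendsto_rpow_atTop (by norm_num : (0 : ℝ) < 3 / 10)).eventually_ge_atTop T0).and
      (Real.tendsto_log_atTop.eventually_ge_atTop _)))
  obtain ⟨X0, hX0⟩ := hev.exists_forall_of_atTop
  refine ⟨X0, fun X hX Z hZ => ?_⟩
  obtain ⟨hXX1, hX1, hXT, hXL⟩ := hX0 X hX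
  have hXpos : 0 < X := by linarith
  set L : ℝ := Real.log X with hL
  have hL0 : 0 < L := Real.log_pos hX1
  set N : ℕ := ⌊ε1 * L⌋₊ with hN
  have hre : ∀ ρ ∈ Z, ρ.re < 1 := by
    intro ρ hρ
    by_contra h
    push Not at h
    exact riemannZeta_ne_zero_of_one_le_re h (hZ ρ hρ).1
  set kk : ℂ → ℕ := fun ρ => ⌈(1 - ρ.re) * L⌉₊ with hkk
  have hkk0 : ∀ ρ ∈ Z, k0 ≤ kk ρ := by
    intro ρ hρ
    obtain ⟨h1, h2, h3, h4⟩ := hZ ρ hρ
    have h5 := hT ρ h1 (hXT.trans h3)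
    have h6 : 0 < Real.log |ρ.im| := Real.log_pos (by linarith [hXT.trans h3])
    have h7 : Real.log |ρ.im| ≤ L := by
      have h8 : |ρ.im| ≤ X := by
        refine h4.trans ?_
        calc X ^ (6 / 10 : ℝ) ≤ X ^ (1 : ℝ) :=
              Real.rpow_le_rpow_of_exponent_le hX1.le (by norm_num)
          _ = X := Real.rpow_one X
      exact Real.log_le_log (by linarith [hXT.trans h3]) h8
    have h9 : ((k0 : ℝ) + 1) / Real.log |ρ.im| ≤ 1 - ρ.re := by linarith
    have h10' : ((k0 : ℝ) + 1) ≤ (1 - ρ.re) * L := by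
      calc ((k0 : ℝ) + 1) ≤ (1 - ρ.re) * Real.log |ρ.im| := by
            rwa [div_le_iff₀ h6] at h9
        _ ≤ (1 - ρ.re) * L := mul_le_mul_of_nonneg_left h7 (by linarith [hre ρ hρ])
    have h11 : (k0 : ℝ) ≤ kk ρ := by
      have := Nat.le_ceil ((1 - ρ.re) * L)
      simp only [hkk]
      linarith
    exact_mod_cast h11
  have hkk1 : ∀ ρ ∈ Z, 1 ≤ kk ρ := by
    intro ρ hρ
    have : 0 < (1 - ρ.re) * L := mul_pos (by linarith [hre ρ hρ]) hL0
    exact Nat.ceil_pos.mpr this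
  have hkkN : ∀ ρ ∈ Z, kk ρ ≤ N := by
    intro ρ hρ
    rw [hN]
    apply Nat.le_floor
    have h1 : (1 - ρ.re) * L ≤ ε1 / 2 * L :=
      mul_le_mul_of_nonneg_right (by linarith [(hZ ρ hρ).2.1]) hL0.le
    have h2 : (kk ρ : ℝ) < (1 - ρ.re) * L + 1 :=
      Nat.ceil_lt_add_one (mul_nonneg (by linarith [hre ρ hρ]) hL0.le)
    have h3 : 2 ≤ ε1 * L := by
      have := (div_le_iff₀ hε1).mp hXL
      linarith
    linarith
  -- fiberwise
  set t : Finset ℕ := (Finset.range (N + 1)).filter (fun k => k0 ≤ k ∧ 1 ≤ k) with ht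
  have hmaps : ∀ ρ ∈ Z, kk ρ ∈ t := by
    intro ρ hρ
    rw [ht, Finset.mem_filter, Finset.mem_range]
    exact ⟨Nat.lt_succ_of_le (hkkN ρ hρ), hkk0 ρ hρ, hkk1 ρ hρ⟩
  rw [← Finset.sum_fiberwise_of_maps_to hmaps]
  refine le_trans ?_ (hk0 t (fun k hk => by
    rw [ht, Finset.mem_filter] at hk
    exact hk.2.1))
  apply Finset.sum_le_sum
  intro k hk
  rw [ht, Finset.mem_filter, Finset.mem_range] at hk
  have hkN : (k : ℝ) ≤ ε1 * L := by
    have h1 : k ≤ N := by omega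
    exact (Nat.le_floor_iff (by positivity)).mp h1
  have hk1 : (1 : ℝ) ≤ k := by exact_mod_cast hk.2.2
  have h1 : ∀ ρ ∈ Z.filter (fun ρ => kk ρ = k), mz ρ * X ^ (ρ.re - 1) ≤
      mz ρ * Real.exp (1 - k) := by
    intro ρ hρ
    rw [Finset.mem_filter] at hρ
    apply mul_le_mul_of_nonneg_left _ (mz_nonneg ρ)
    rw [Real.rpow_def_of_pos hXpos]
    apply Real.exp_le_exp.mpr
    have h2 : (kk ρ : ℝ) < (1 - ρ.re) * L + 1 :=
      Nat.ceil_lt_add_one (mul_nonneg (by linarith [hre ρ hρ.1]) hL0.le)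
    rw [hρ.2] at h2
    rw [← hL]
    linarith
  refine (Finset.sum_le_sum h1).trans ?_
  rw [← Finset.sum_mul]
  have h3 := hD X hXX1 k hk1 hkN (Z.filter (fun ρ => kk ρ = k)) (by
    intro ρ hρ
    rw [Finset.mem_filter] at hρ
    refine ⟨(hZ ρ hρ.1).1, ?_, (hZ ρ hρ.1).2.2.1, (hZ ρ hρ.1).2.2.2⟩
    have h2 : (1 - ρ.re) * L ≤ kk ρ := Nat.le_ceil _
    rw [hρ.2] at h2
    have h4 : 1 - ρ.re ≤ k / L := by
      rw [le_div_iff₀ hL0]; exact h2
    rw [← hL]
    linarith)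
  refine (mul_le_mul_of_nonneg_right h3 (Real.exp_pos _).le).trans (le_of_eq ?_)
  have h5 : Real.exp (k / 2 : ℝ) * Real.exp (1 - k) = Real.exp 1 * Real.exp (-(1 / 2) * k) := by
    rw [← Real.exp_add, ← Real.exp_add]
    congr 1
    ring
  calc C * (k : ℝ) ^ 6 * Real.exp (k / 2) * Real.exp (1 - k) =
      C * (k : ℝ) ^ 6 * (Real.exp (k / 2 : ℝ) * Real.exp (1 - k)) := by ring
    _ = _ := by rw [h5]; ring

end Pool.Agent.M20.Helper18.KSZ
end

/- Helper53.KN.Helper36.KSZ.N3 -/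
section
/-!
# Project KSZ, N3: sums over rough integers
-/

set_option autoImplicit false

open Finset

namespace Pool.Agent.M20.Helper36.KSZ

open Pool.Agent.M20.Helper18.KSZ Pool.Agent.M20.Helper44

/-- `k ^ omega(m) / m` -/
noncomputable def fk (k : ℕ) (m : ℕ) : ℝ := (k : ℝ) ^ m.primeFactors.card / m

lemma fk_one (k : ℕ) : fk k 1 = 1 := by simp [fk]

lemma fk_mul (k : ℕ) {m n : ℕ} (h : Nat.Coprime m n) : fk k (m * n) = fk k m * fk k n := by
  unfold fk
  rw [h.primeFactors_mul, Finset.card_union_of_disjoint h.disjoint_primeFactors, pow_add]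
  push_cast
  rw [mul_div_mul_comm]

lemma fk_nonneg (k m : ℕ) : 0 ≤ fk k m := by unfold fk; positivity

lemma fk_prime_pow (k : ℕ) {p : ℕ} (hp : p.Prime) (n : ℕ) :
    fk k (p ^ (n + 1)) = (k : ℝ) * (1 / (p : ℝ)) * (1 / (p : ℝ)) ^ n := by
  unfold fk
  rw [Nat.primeFactors_prime_pow (Nat.succ_ne_zero n) hp]
  simp only [Finset.card_singleton, pow_one]
  push_cast
  rw [pow_succ, one_div, inv_pow, div_eq_mul_inv, mul_inv]
  ring

lemma hasSum_fk (k : ℕ) {p : ℕ} (hp : p.Prime) :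
    HasSum (fun n : ℕ => fk k (p ^ n)) (1 + (k : ℝ) / ((p : ℝ) - 1)) := by
  have hp1 : (1 : ℝ) < p := by exact_mod_cast hp.one_lt
  have h0 : (0 : ℝ) ≤ 1 / (p : ℝ) := by positivity
  have h1 : 1 / (p : ℝ) < 1 := by rw [div_lt_one (by linarith)]; exact hp1
  have h2 := (hasSum_geometric_of_lt_one h0 h1).mul_left ((k : ℝ) * (1 / (p : ℝ)))
  have h3 : (k : ℝ) * (1 / (p : ℝ)) * (1 - 1 / (p : ℝ))⁻¹ = (k : ℝ) / ((p : ℝ) - 1) := by
    have hp0 : (p : ℝ) ≠ 0 := by positivity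
    have hp2 : (p : ℝ) - 1 ≠ 0 := by linarith
    field_simp
  rw [h3] at h2
  have hg : HasSum (fun n : ℕ => fk k (p ^ (n + 1))) ((k : ℝ) / ((p : ℝ) - 1)) := by
    have : (fun n : ℕ => fk k (p ^ (n + 1))) =
        fun n : ℕ => (k : ℝ) * (1 / (p : ℝ)) * (1 / (p : ℝ)) ^ n := by
      funext n; exact fk_prime_pow k hp n
    rw [this]; exact h2
  have h4 := (hasSum_nat_add_iff (f := fun n => fk k (p ^ n)) 1).mp hg
  simp only [Finset.range_one, Finset.sum_singleton, pow_zero, fk_one] at h4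
  rwa [add_comm] at h4

/-- Euler product bound for a finite set of integers with prime factors in `s` -/
lemma sum_fk_le (k : ℕ) (s T : Finset ℕ) (hs : ∀ p ∈ s, p.Prime)
    (hT : ∀ m ∈ T, ∀ p : ℕ, p.Prime → p ∣ m → p ∈ s) :
    ∑ m ∈ T, fk k m ≤ ∏ p ∈ s, (1 + (k : ℝ) / ((p : ℝ) - 1)) := by
  have h := (EulerProduct.summable_and_hasSum_factoredNumbers_prod_filter_prime_tsum
    (f := fk k) (fk_one k) (fun h => fk_mul k h)
    (fun {p} hp => by
      have := (hasSum_fk k hp).summable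
      refine this.congr ?_
      intro n
      rw [Real.norm_of_nonneg (fk_nonneg k _)]) s).2
  have hprod : ∏ p ∈ s with Nat.Prime p, ∑' n : ℕ, fk k (p ^ n) =
      ∏ p ∈ s, (1 + (k : ℝ) / ((p : ℝ) - 1)) := by
    rw [Finset.filter_true_of_mem hs]
    exact Finset.prod_congr rfl (fun p hp => (hasSum_fk k (hs p hp)).tsum_eq)
  rw [hprod] at h
  have h' : HasSum ((Nat.factoredNumbers s).indicator (fk k))
      (∏ p ∈ s, (1 + (k : ℝ) / ((p : ℝ) - 1))) := hasSum_subtype_iff_indicator.mp h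
  have h5 := sum_le_hasSum T (fun i _ => Set.indicator_nonneg (fun m _ => fk_nonneg k m) i) h'
  refine le_trans (le_of_eq ?_) h5
  refine Finset.sum_congr rfl (fun m hm => ?_)
  rw [Set.indicator_of_mem (Nat.mem_factoredNumbers'.mpr (hT m hm))]

lemma prod_ratio : ∃ C : ℝ, 0 < C ∧ ∀ w Y : ℝ, 2 ≤ w → w ≤ Y →
    ∏ p ∈ primesUpTo Y \ primesUpTo w, (1 - (1 : ℝ) / p)⁻¹ ≤ C * (Real.log Y / Real.log w) := by
  obtain ⟨c, C, hc, hC, h⟩ := mertens_prod
  refine ⟨C / c, by positivity, ?_⟩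
  intro w Y hw hY
  have hlw : 0 < Real.log w := Real.log_pos (by linarith)
  have hlY : 0 < Real.log Y := Real.log_pos (by linarith)
  have hsub : primesUpTo w ⊆ primesUpTo Y := by
    intro q hq
    rw [mem_primesUpTo (by linarith)] at hq ⊢
    exact ⟨hq.1, le_trans hq.2 hY⟩
  have h1 := (h Y (by linarith)).1
  have h2 := (h w hw).2
  have hpos : ∀ s : Finset ℕ, s ⊆ primesUpTo Y → 0 < ∏ q ∈ s, (1 - (1 : ℝ) / q) := by
    intro s hs
    refine Finset.prod_pos (fun q hq => ?_)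
    have := hs hq
    rw [mem_primesUpTo (by linarith)] at this
    have hq2 : (2 : ℝ) ≤ q := by exact_mod_cast this.1.two_le
    have : (1 : ℝ) / q ≤ 1 / 2 := one_div_le_one_div_of_le (by norm_num) hq2
    linarith
  have hmul := Finset.prod_sdiff (f := fun q : ℕ => (1 - (1 : ℝ) / q)) hsub
  have hd := hpos (primesUpTo Y \ primesUpTo w) Finset.sdiff_subset
  have hwp := hpos (primesUpTo w) hsub
  rw [Finset.prod_inv_distrib, inv_le_comm₀ hd (by positivity)]
  -- lower bound for the product over the difference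
  have h3 : c / Real.log Y ≤ (∏ q ∈ primesUpTo Y \ primesUpTo w, (1 - (1 : ℝ) / q)) *
      (C / Real.log w) := by
    calc c / Real.log Y ≤ ∏ q ∈ primesUpTo Y, (1 - (1 : ℝ) / q) := h1
      _ = (∏ q ∈ primesUpTo Y \ primesUpTo w, (1 - (1 : ℝ) / q)) *
          ∏ q ∈ primesUpTo w, (1 - (1 : ℝ) / q) := hmul.symm
      _ ≤ _ := mul_le_mul_of_nonneg_left h2 hd.le
  have h4 : (C / c * (Real.log Y / Real.log w))⁻¹ = (c / Real.log Y) / (C / Real.log w) := by
    field_simp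
  rw [h4, div_le_iff₀ (by positivity)]
  exact h3

theorem roughSums : RoughSums := by
  classical
  obtain ⟨C, hC, hR⟩ := prod_ratio
  have key : ∀ (k : ℕ) (w Y : ℝ), 2 ≤ w → w ≤ Y →
      ∑ m ∈ (Icc 1 ⌊Y⌋₊).filter (rough w), fk k m ≤ (C * (Real.log Y / Real.log w)) ^ k := by
    intro k w Y hw hY
    set s := primesUpTo Y \ primesUpTo w with hs
    have hsp : ∀ p ∈ s, p.Prime := by
      intro p hp
      rw [hs, Finset.mem_sdiff, mem_primesUpTo (by linarith)] at hp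
      exact hp.1.1
    have h1 := sum_fk_le k s ((Icc 1 ⌊Y⌋₊).filter (rough w)) hsp (by
      intro m hm p hp hpm
      rw [Finset.mem_filter, Finset.mem_Icc] at hm
      rw [hs, Finset.mem_sdiff, mem_primesUpTo (by linarith), mem_primesUpTo (by linarith)]
      have hm1 : (m : ℝ) ≤ Y := (Nat.le_floor_iff (by linarith)).mp hm.1.2
      have hpm' : (p : ℝ) ≤ m := by exact_mod_cast Nat.le_of_dvd (by omega) hpm
      exact ⟨⟨hp, by linarith⟩, fun h => absurd h.2 (not_le.mpr (hm.2 p hp hpm))⟩)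
    refine h1.trans ?_
    have h2 : ∏ p ∈ s, (1 + (k : ℝ) / ((p : ℝ) - 1)) ≤ ∏ p ∈ s, ((1 - (1 : ℝ) / p)⁻¹) ^ k := by
      refine Finset.prod_le_prod (fun p hp => ?_) (fun p hp => ?_)
      · have : (2 : ℝ) ≤ p := by exact_mod_cast (hsp p hp).two_le
        have : 0 < (p : ℝ) - 1 := by linarith
        positivity
      · have hp2 : (2 : ℝ) ≤ p := by exact_mod_cast (hsp p hp).two_le
        have hp1 : 0 < (p : ℝ) - 1 := by linarith
        have hp0 : (p : ℝ) ≠ 0 := by positivity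
        have h3 : (1 - (1 : ℝ) / p)⁻¹ = 1 + 1 / ((p : ℝ) - 1) := by
          have : (p : ℝ) - 1 ≠ 0 := hp1.ne'
          field_simp
          ring
        rw [h3]
        have h4 := one_add_mul_le_pow (a := 1 / ((p : ℝ) - 1))
          (le_trans (by norm_num) (by positivity : (0 : ℝ) ≤ 1 / ((p : ℝ) - 1))) k
        rw [mul_one_div] at h4
        exact h4
    refine h2.trans ?_
    rw [Finset.prod_pow]
    refine pow_le_pow_left₀ ?_ (hR w Y hw hY) k
    refine Finset.prod_nonneg (fun p hp => ?_)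
    have hp2 : (2 : ℝ) ≤ p := by exact_mod_cast (hsp p hp).two_le
    have : (1 : ℝ) / p ≤ 1 / 2 := one_div_le_one_div_of_le (by norm_num) hp2
    exact inv_nonneg.mpr (by linarith)
  refine ⟨max C (C ^ 4), lt_max_of_lt_left hC, ?_⟩
  intro w Y hw hY
  have hlw : 0 < Real.log w := Real.log_pos (by linarith)
  have hlY : 0 < Real.log Y := Real.log_pos (by linarith)
  constructor
  · have h := key 1 w Y hw hY
    rw [pow_one] at h
    have h5 : ∑ m ∈ (Icc 1 ⌊Y⌋₊).filter (rough w), 1 / (m : ℝ) =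
        ∑ m ∈ (Icc 1 ⌊Y⌋₊).filter (rough w), fk 1 m := by
      refine Finset.sum_congr rfl (fun m _ => ?_)
      simp [fk]
    rw [h5]
    exact h.trans (mul_le_mul_of_nonneg_right (le_max_left _ _) (by positivity))
  · have h := key 4 w Y hw hY
    rw [mul_pow] at h
    have h5 : ∑ m ∈ (Icc 1 ⌊Y⌋₊).filter (rough w), 4 ^ m.primeFactors.card / (m : ℝ) =
        ∑ m ∈ (Icc 1 ⌊Y⌋₊).filter (rough w), fk 4 m := by
      refine Finset.sum_congr rfl (fun m _ => ?_)
      simp [fk]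
    rw [h5]
    exact h.trans (mul_le_mul_of_nonneg_right (le_max_right _ _) (by positivity))

end Pool.Agent.M20.Helper36.KSZ
end

/- Helper53.KN.Helper48.KSZ.N7 -/
section
/-!
# KSZ-N7: detection of zeros
-/

set_option autoImplicit false

open Finset

namespace Pool.Agent.M20.Helper48.KSZ

open Pool.Agent.M20.Helper18.KSZ

theorem n7_swap (f : ℕ → ℕ → ℂ) (N : ℕ) :
    ∑ n ∈ Icc 1 N, ∑ d ∈ n.divisors, f d (n / d) =
      ∑ d ∈ Icc 1 N, ∑ m ∈ Icc 1 (N / d), f d m := by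
  rw [Finset.sum_sigma', Finset.sum_sigma']
  refine Finset.sum_nbij' (fun p => ⟨p.2, p.1 / p.2⟩) (fun p => ⟨p.1 * p.2, p.1⟩) ?_ ?_ ?_ ?_ ?_
  · rintro ⟨n, d⟩ h
    simp only [mem_sigma, mem_Icc, Nat.mem_divisors] at h ⊢
    obtain ⟨⟨h1, h2⟩, h3, h4⟩ := h
    have hd : 0 < d := Nat.pos_of_dvd_of_pos h3 h1
    have hdn : d ≤ n := Nat.le_of_dvd h1 h3
    refine ⟨⟨hd, hdn.trans h2⟩, Nat.div_pos hdn hd, Nat.div_le_div_right h2⟩
  · rintro ⟨d, m⟩ h
    simp only [mem_sigma, mem_Icc, Nat.mem_divisors] at h ⊢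
    obtain ⟨⟨h1, h2⟩, h3, h4⟩ := h
    have h5 : d * m ≤ N := by
      calc d * m ≤ d * (N / d) := Nat.mul_le_mul_left d h4
        _ ≤ N := Nat.mul_div_le N d
    have h6 : 0 < d * m := Nat.mul_pos h1 h3
    exact ⟨⟨h6, h5⟩, Dvd.intro m rfl, h6.ne'⟩
  · rintro ⟨n, d⟩ h
    simp only [mem_sigma, mem_Icc, Nat.mem_divisors] at h
    obtain ⟨⟨h1, h2⟩, h3, h4⟩ := h
    simp only
    rw [Nat.mul_div_cancel' h3]
  · rintro ⟨d, m⟩ h
    simp only [mem_sigma, mem_Icc] at h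
    obtain ⟨⟨h1, h2⟩, h3, h4⟩ := h
    simp only
    rw [Nat.mul_div_cancel_left m (by omega)]
  · rintro ⟨n, d⟩ h
    rfl

/-- harmonic type bound -/
theorem n7_harm (N : ℕ) (ε : ℝ) (hε : 0 ≤ ε) (σ : ℝ) (hσ : 1 - ε ≤ σ) (hN : 1 ≤ N) :
    ∑ d ∈ Icc 1 N, (d : ℝ) ^ (-σ) ≤ (N : ℝ) ^ ε * (1 + Real.log N) := by
  have h1 : ∀ d ∈ Icc 1 N, (d : ℝ) ^ (-σ) ≤ (N : ℝ) ^ ε * (d : ℝ)⁻¹ := by
    intro d hd
    rw [mem_Icc] at hd
    have hd1 : (1 : ℝ) ≤ (d : ℝ) := by exact_mod_cast hd.1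
    have hd0 : (0 : ℝ) < (d : ℝ) := by (clear * - hd1; linarith)
    have hdN : (d : ℝ) ≤ (N : ℝ) := by exact_mod_cast hd.2
    calc (d : ℝ) ^ (-σ) ≤ (d : ℝ) ^ (ε + (-1)) :=
          Real.rpow_le_rpow_of_exponent_le hd1 (by linarith)
      _ = (d : ℝ) ^ ε * (d : ℝ)⁻¹ := by
          rw [Real.rpow_add hd0, Real.rpow_neg_one]
      _ ≤ (N : ℝ) ^ ε * (d : ℝ)⁻¹ := by
          apply mul_le_mul_of_nonneg_right
          · exact Real.rpow_le_rpow hd0.le hdN hε
          · positivity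
  calc ∑ d ∈ Icc 1 N, (d : ℝ) ^ (-σ) ≤ ∑ d ∈ Icc 1 N, (N : ℝ) ^ ε * (d : ℝ)⁻¹ :=
        Finset.sum_le_sum h1
    _ = (N : ℝ) ^ ε * ∑ d ∈ Icc 1 N, (d : ℝ)⁻¹ := by rw [Finset.mul_sum]
    _ ≤ (N : ℝ) ^ ε * (1 + Real.log N) := by
        apply mul_le_mul_of_nonneg_left _ (by positivity)
        have := harmonic_le_one_add_log N
        rw [harmonic_eq_sum_Icc] at this
        push_cast at this
        exact this

/-- N7 -/
theorem detect (h2 : Coeffs) (h6 : ZeroSum) : Detect := by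
  intro K C hK hC
  obtain ⟨c, ε6, X6, hc, hε6, hZ⟩ := h6
  have hlim : ∀ᶠ X : ℝ in Filter.atTop,
      X ^ ((6 / 100 : ℝ) * c) * (1 + Real.log X) * X ^ (-c) ≤ 1 / 8 := by
    have h : Filter.Tendsto (fun X : ℝ => (1 + Real.log X) * X ^ (-((94 / 100 : ℝ) * c)))
        Filter.atTop (nhds 0) := by
      have ha : Filter.Tendsto (fun X : ℝ => X ^ (-((94 / 100 : ℝ) * c))) Filter.atTop (nhds 0) :=
        tendsto_rpow_neg_atTop (by (clear * - hc; positivity))
      have hb : Filter.Tendsto (fun X : ℝ => Real.log X * X ^ (-((94 / 100 : ℝ) * c)))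
          Filter.atTop (nhds 0) := by
        have hb1 := (isLittleO_log_rpow_atTop (r := (94 / 100 : ℝ) * c) (by positivity)).tendsto_div_nhds_zero
        refine hb1.congr' ?_
        filter_upwards [Filter.eventually_gt_atTop 0] with X hX
        rw [Real.rpow_neg hX.le, div_eq_mul_inv]
      have := ha.add hb
      rw [add_zero] at this
      refine this.congr (fun X => ?_)
      ring
    have h' := h.eventually (eventually_le_nhds (show (0 : ℝ) < 1 / 8 by norm_num))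
    filter_upwards [h', Filter.eventually_gt_atTop 0] with X hX hX0
    calc X ^ ((6 / 100 : ℝ) * c) * (1 + Real.log X) * X ^ (-c)
        = (1 + Real.log X) * (X ^ ((6 / 100 : ℝ) * c) * X ^ (-c)) := by ring
      _ = (1 + Real.log X) * X ^ (-((94 / 100 : ℝ) * c)) := by
          rw [← Real.rpow_add hX0]; congr 2; ring
      _ ≤ 1 / 8 := hX
  have hlim2 : ∀ᶠ X : ℝ in Filter.atTop, X ^ (1 / 10 : ℝ) + 2 ≤ X ^ (14 / 100 : ℝ) := by
    have h : Filter.Tendsto (fun X : ℝ => X ^ (4 / 100 : ℝ)) Filter.atTop Filter.atTop :=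
      tendsto_rpow_atTop (by norm_num)
    filter_upwards [h.eventually (Filter.eventually_ge_atTop 3),
      Filter.eventually_ge_atTop 1] with X hX hX1
    have hX0 : 0 < X := by linarith
    have h1 : (1 : ℝ) ≤ X ^ (1 / 10 : ℝ) := Real.one_le_rpow hX1 (by norm_num)
    have h3 : X ^ (14 / 100 : ℝ) = X ^ (1 / 10 : ℝ) * X ^ (4 / 100 : ℝ) := by
      rw [← Real.rpow_add hX0]; norm_num
    rw [h3]
    (clear * - hX h1; nlinarith)
  obtain ⟨X1, hX1⟩ := Filter.eventually_atTop.1 hlim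
  obtain ⟨X2, hX2⟩ := Filter.eventually_atTop.1 hlim2
  refine ⟨min ε6 c, max (max X1 X2) (max X6 2), lt_min hε6 hc, ?_⟩
  intro X hX w lam hw hwK hSW ρ hρ0 hρre hwρ him1 him2
  have hXX1 : X1 ≤ X := le_trans (le_trans (le_max_left _ _) (le_max_left _ _)) hX
  have hXX2 : X2 ≤ X := le_trans (le_trans (le_max_right _ _) (le_max_left _ _)) hX
  have hXX6 : X6 ≤ X := le_trans (le_trans (le_max_left _ _) (le_max_right _ _)) hX
  have hX2' : (2 : ℝ) ≤ X := le_trans (le_trans (le_max_right _ _) (le_max_right _ _)) hX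
  exact by
    have hX0 : (0 : ℝ) < X := by (clear * - hX2'; linarith)
    have hX1' : (1 : ℝ) ≤ X := by (clear * - hX2'; linarith)
    have hb1 := hX1 X hXX1
    have hb2 := hX2 X hXX2
    set D : ℝ := X ^ (1 / 20 : ℝ) with hD
    set Y : ℝ := X ^ (1 / 5 : ℝ) with hY
    exact by
      have hD1 : (1 : ℝ) ≤ D := Real.one_le_rpow hX1' (by norm_num)
      have hDY : D ≤ Y := Real.rpow_le_rpow_of_exponent_le hX1' (by norm_num)
      have hY1 : (1 : ℝ) ≤ Y := hD1.trans hDY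
      obtain ⟨hc1, hcabs, hcsupp, hcsum, hcalp, -⟩ := h2 K C w lam hw hSW D hD1
      have hre1 : ρ.re < 1 := by
        by_contra hcon
        exact riemannZeta_ne_zero_of_one_le_re (not_lt.1 hcon) hρ0
      set N : ℕ := ⌊Y⌋₊ with hN
      set N0 : ℕ := ⌊D⌋₊ with hN0
      exact by
        have hN01 : 1 ≤ N0 := Nat.one_le_floor_iff _ |>.2 hD1
        have hN0N : N0 ≤ N := Nat.floor_le_floor hDY
        -- the total sum
        have htot : ∑ n ∈ Icc 1 N, ((bet lam n * alp w D n : ℝ) : ℂ) * (n : ℂ) ^ (-ρ) =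
            ∑ d ∈ Icc 1 N, (cc lam w D d : ℂ) * (d : ℂ) ^ (-ρ) *
              ∑ m ∈ Icc 1 (N / d), (m : ℂ) ^ (-ρ) := by
          have h1 : ∀ n ∈ Icc 1 N, ((bet lam n * alp w D n : ℝ) : ℂ) * (n : ℂ) ^ (-ρ) =
              ∑ d ∈ n.divisors, (fun (a b : ℕ) => (cc lam w D a : ℂ) * (a : ℂ) ^ (-ρ) *
                (b : ℂ) ^ (-ρ)) d (n / d) := by
            intro n hn
            rw [mem_Icc] at hn
            rw [← hcsum n (by omega)]
            push_cast
            rw [Finset.sum_mul]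
            refine Finset.sum_congr rfl (fun d hd => ?_)
            have hdn : d ∣ n := Nat.dvd_of_mem_divisors hd
            have : (n : ℂ) = (d : ℂ) * ((n / d : ℕ) : ℂ) := by
              rw [← Nat.cast_mul, Nat.mul_div_cancel' hdn]
            rw [mul_assoc]
            congr 1
            conv_lhs => rw [this]
            rw [Complex.natCast_mul_natCast_cpow]
          rw [Finset.sum_congr rfl h1, n7_swap (fun (a b : ℕ) => (cc lam w D a : ℂ) * (a : ℂ) ^ (-ρ) *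
                (b : ℂ) ^ (-ρ)) N]
          refine Finset.sum_congr rfl (fun d hd => ?_)
          rw [Finset.mul_sum]
        have hbnd : ‖∑ n ∈ Icc 1 N, ((bet lam n * alp w D n : ℝ) : ℂ) * (n : ℂ) ^ (-ρ)‖ ≤ 1 / 8 := by
          rw [htot]
          set Q : ℝ := X ^ (6 / 100 : ℝ) with hQ
          have hQ1 : (1 : ℝ) ≤ Q := Real.one_le_rpow hX1' (by norm_num)
          have hwKD : w ^ K * D ≤ Q := by
            calc w ^ K * D ≤ X ^ (1 / 100 : ℝ) * X ^ (1 / 20 : ℝ) :=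
                  mul_le_mul_of_nonneg_right hwK (by positivity)
              _ = Q := by rw [← Real.rpow_add hX0]; norm_num [hQ]
          have hterm : ∀ d ∈ Icc 1 N, ‖(cc lam w D d : ℂ) * (d : ℂ) ^ (-ρ) *
              ∑ m ∈ Icc 1 (N / d), (m : ℂ) ^ (-ρ)‖ ≤
              if d ≤ ⌊Q⌋₊ then (d : ℝ) ^ (-ρ.re) * X ^ (-c) else 0 := by
            intro d hd
            rw [mem_Icc] at hd
            by_cases hcd : cc lam w D d = 0
            · rw [hcd]
              simp only [Complex.ofReal_zero, zero_mul, norm_zero]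
              split_ifs
              · (clear * - hX2'; positivity)
              · exact le_rfl
            · obtain ⟨hd0, hdle⟩ := hcsupp d hcd
              exact by
                have hdQ : (d : ℝ) ≤ Q := hdle.trans hwKD
                rw [if_pos (Nat.le_floor hdQ)]
                have hd0' : (0 : ℝ) < (d : ℝ) := by exact_mod_cast hd0
                have hdY : (d : ℝ) ≤ Y := hdQ.trans (Real.rpow_le_rpow_of_exponent_le hX1' (by norm_num))
                have hNd : X ^ (1 / 10 : ℝ) ≤ ((N / d : ℕ) : ℝ) := by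
                  have h1 : Y - 1 < (N : ℝ) := by
                    have := Nat.lt_floor_add_one Y
                    rw [← hN] at this
                    (clear * - this; linarith)
                  have h2 : (N : ℝ) < (d : ℝ) * (((N / d : ℕ) : ℝ) + 1) := by
                    have := Nat.lt_mul_div_succ N hd0
                    exact_mod_cast this
                  have h3 : Y = X ^ (14 / 100 : ℝ) * Q := by
                    rw [hY, hQ, ← Real.rpow_add hX0]; norm_num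
                  have h4 : X ^ (14 / 100 : ℝ) * Q - 1 < Q * (((N / d : ℕ) : ℝ) + 1) := by
                    calc X ^ (14 / 100 : ℝ) * Q - 1 = Y - 1 := by rw [h3]
                      _ < (N : ℝ) := h1
                      _ < (d : ℝ) * (((N / d : ℕ) : ℝ) + 1) := h2
                      _ ≤ Q * (((N / d : ℕ) : ℝ) + 1) :=
                          mul_le_mul_of_nonneg_right hdQ (by (clear * -; positivity))
                  have hQ0 : 0 < Q := by (clear * - hQ1; linarith)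
                  have h5 : X ^ (14 / 100 : ℝ) * Q - Q ≤ Q * (((N / d : ℕ) : ℝ) + 1) := by (clear * - hQ1 h4; linarith)
                  have h6' : X ^ (14 / 100 : ℝ) - 1 ≤ (((N / d : ℕ) : ℝ) + 1) := by
                    have : Q * (X ^ (14 / 100 : ℝ) - 1) ≤ Q * (((N / d : ℕ) : ℝ) + 1) := by
                      calc Q * (X ^ (14 / 100 : ℝ) - 1) = X ^ (14 / 100 : ℝ) * Q - Q := by ring
                        _ ≤ _ := h5
                    exact le_of_mul_le_mul_left this hQ0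
                  (clear * - hb2 h6'; linarith)
                have hNX : ((N / d : ℕ) : ℝ) ≤ X := by
                  calc ((N / d : ℕ) : ℝ) ≤ (N : ℝ) := by exact_mod_cast Nat.div_le_self N d
                    _ ≤ Y := Nat.floor_le (by positivity)
                    _ ≤ X ^ (1 : ℝ) := Real.rpow_le_rpow_of_exponent_le hX1' (by norm_num)
                    _ = X := Real.rpow_one X
                have hin := hZ X hXX6 ρ hρ0 (by have := min_le_left ε6 c; (clear * - hρre this; linarith)) him1 him2 (N / d) hNd hNX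
                rw [norm_mul, norm_mul, Complex.norm_real, Real.norm_eq_abs]
                have hn : ‖(d : ℂ) ^ (-ρ)‖ = (d : ℝ) ^ (-ρ.re) := by
                  rw [Complex.norm_natCast_cpow_of_pos hd0, Complex.neg_re]
                rw [hn]
                calc |cc lam w D d| * (d : ℝ) ^ (-ρ.re) * ‖∑ m ∈ Icc 1 (N / d), (m : ℂ) ^ (-ρ)‖
                    ≤ 1 * (d : ℝ) ^ (-ρ.re) * X ^ (-c) := by
                      apply mul_le_mul _ hin (norm_nonneg _) (by (clear * - hd0; positivity))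
                      exact mul_le_mul_of_nonneg_right (hcabs d) (by (clear * - hd0; positivity))
                  _ = _ := by ring
          have hQfl : 1 ≤ ⌊Q⌋₊ := Nat.one_le_floor_iff _ |>.2 hQ1
          calc ‖∑ d ∈ Icc 1 N, (cc lam w D d : ℂ) * (d : ℂ) ^ (-ρ) *
                ∑ m ∈ Icc 1 (N / d), (m : ℂ) ^ (-ρ)‖
              ≤ ∑ d ∈ Icc 1 N, (if d ≤ ⌊Q⌋₊ then (d : ℝ) ^ (-ρ.re) * X ^ (-c) else 0) :=
                norm_sum_le_of_le _ hterm
            _ = ∑ d ∈ (Icc 1 N).filter (fun d => d ≤ ⌊Q⌋₊), (d : ℝ) ^ (-ρ.re) * X ^ (-c) := by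
                rw [Finset.sum_filter]
            _ ≤ ∑ d ∈ Icc 1 ⌊Q⌋₊, (d : ℝ) ^ (-ρ.re) * X ^ (-c) := by
                apply Finset.sum_le_sum_of_subset_of_nonneg
                · intro d hd
                  rw [mem_filter, mem_Icc] at hd
                  rw [mem_Icc]
                  exact ⟨hd.1.1, hd.2⟩
                · intro d _ _
                  (clear * - hX2'; positivity)
            _ = (∑ d ∈ Icc 1 ⌊Q⌋₊, (d : ℝ) ^ (-ρ.re)) * X ^ (-c) := by rw [Finset.sum_mul]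
            _ ≤ (((⌊Q⌋₊ : ℕ) : ℝ) ^ c * (1 + Real.log ((⌊Q⌋₊ : ℕ) : ℝ))) * X ^ (-c) := by
                apply mul_le_mul_of_nonneg_right _ (by positivity)
                apply n7_harm _ c hc.le
                · have := min_le_right ε6 c; (clear * - hρre this; linarith)
                · exact hQfl
            _ ≤ (X ^ ((6 / 100 : ℝ) * c) * (1 + Real.log X)) * X ^ (-c) := by
                apply mul_le_mul_of_nonneg_right _ (by positivity)
                have hfl : ((⌊Q⌋₊ : ℕ) : ℝ) ≤ Q := Nat.floor_le (by positivity)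
                have hfl1 : (1 : ℝ) ≤ ((⌊Q⌋₊ : ℕ) : ℝ) := by exact_mod_cast hQfl
                have hQX : Q ≤ X := by
                  calc Q ≤ X ^ (1 : ℝ) := Real.rpow_le_rpow_of_exponent_le hX1' (by norm_num)
                    _ = X := Real.rpow_one X
                have hlog : Real.log ((⌊Q⌋₊ : ℕ) : ℝ) ≤ Real.log X :=
                  Real.log_le_log (by (clear * - hfl1; linarith)) (hfl.trans hQX)
                have hlog0 : 0 ≤ Real.log ((⌊Q⌋₊ : ℕ) : ℝ) := Real.log_nonneg hfl1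
                apply mul_le_mul _ (by (clear * - hlog; linarith)) (by (clear * - hlog0; linarith)) (by positivity)
                calc ((⌊Q⌋₊ : ℕ) : ℝ) ^ c ≤ Q ^ c := Real.rpow_le_rpow (by positivity) hfl hc.le
                  _ = X ^ ((6 / 100 : ℝ) * c) := by rw [hQ, ← Real.rpow_mul hX0.le]
            _ ≤ 1 / 8 := hb1
        -- splitting
        have hsplit : ∑ n ∈ Icc 1 N, ((bet lam n * alp w D n : ℝ) : ℂ) * (n : ℂ) ^ (-ρ) =
            (1 + ∑ n ∈ Ioc 1 N0, ((bet lam n * alp w D n : ℝ) : ℂ) * (n : ℂ) ^ (-ρ)) +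
            ∑ n ∈ Ioc N0 N, ((bet lam n * alp w D n : ℝ) : ℂ) * (n : ℂ) ^ (-ρ) := by
          have e1 : Icc 1 N = insert 1 (Ioc 1 N) := by
            ext n; simp only [mem_Icc, mem_insert, mem_Ioc]; omega
          have e2 : Ioc 1 N = Ioc 1 N0 ∪ Ioc N0 N := by
            ext n; simp only [mem_union, mem_Ioc]; omega
          have hdj : Disjoint (Ioc 1 N0) (Ioc N0 N) := by
            rw [Finset.disjoint_left]
            intro n hn hn'
            rw [mem_Ioc] at hn hn'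
            omega
          have h11 : bet lam 1 * alp w D 1 = 1 := by
            rw [← hcsum 1 one_pos, Nat.divisors_one, Finset.sum_singleton, hc1]
          rw [e1, Finset.sum_insert (by simp), e2, Finset.sum_union hdj, h11]
          simp [add_assoc]
        have hmid : ‖∑ n ∈ Ioc 1 N0, ((bet lam n * alp w D n : ℝ) : ℂ) * (n : ℂ) ^ (-ρ)‖ ≤ 1 / 8 := by
          classical
          have hterm : ∀ n ∈ Ioc 1 N0, ‖((bet lam n * alp w D n : ℝ) : ℂ) * (n : ℂ) ^ (-ρ)‖ ≤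
              if smooth w n then bet lam n * (n : ℝ) ^ ((1 - ρ.re) - 1) else 0 := by
            intro n hn
            rw [mem_Ioc] at hn
            have hn0 : 0 < n := by omega
            have hnD : (n : ℝ) ≤ D := by
              calc (n : ℝ) ≤ (N0 : ℝ) := by exact_mod_cast hn.2
                _ ≤ D := Nat.floor_le (by positivity)
            rw [hcalp n hn0 hnD]
            split_ifs with hs
            · rw [mul_one, norm_mul, Complex.norm_real, Real.norm_eq_abs,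
                abs_of_nonneg (hSW.nonneg n hn0), Complex.norm_natCast_cpow_of_pos hn0, Complex.neg_re]
              rw [show (1 - ρ.re) - 1 = -ρ.re by ring]
            · simp
          calc ‖∑ n ∈ Ioc 1 N0, ((bet lam n * alp w D n : ℝ) : ℂ) * (n : ℂ) ^ (-ρ)‖
              ≤ ∑ n ∈ Ioc 1 N0, (if smooth w n then bet lam n * (n : ℝ) ^ ((1 - ρ.re) - 1) else 0) :=
                norm_sum_le_of_le _ hterm
            _ = ∑ n ∈ (Ioc 1 N0).filter (smooth w), bet lam n * (n : ℝ) ^ ((1 - ρ.re) - 1) := by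
                rw [Finset.sum_filter]
            _ ≤ 1 / 8 := by
                apply hSW.small (1 - ρ.re) (by (clear * - hre1; linarith)) hwρ
                intro n hn
                rw [mem_filter, mem_Ioc] at hn
                exact ⟨hn.1.1, hn.2⟩
        rw [hsplit] at hbnd
        set A := ∑ n ∈ Ioc 1 N0, ((bet lam n * alp w D n : ℝ) : ℂ) * (n : ℂ) ^ (-ρ) with hA
        set B := ∑ n ∈ Ioc N0 N, ((bet lam n * alp w D n : ℝ) : ℂ) * (n : ℂ) ^ (-ρ) with hB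
        have h7 : (1 : ℝ) ≤ ‖1 + A + B‖ + ‖A‖ + ‖B‖ := by
          have : (1 : ℂ) = (1 + A + B) - A - B := by ring
          calc (1 : ℝ) = ‖(1 : ℂ)‖ := by simp
            _ = ‖(1 + A + B) - A - B‖ := by rw [← this]
            _ ≤ ‖(1 + A + B) - A‖ + ‖B‖ := norm_sub_le _ _
            _ ≤ ‖1 + A + B‖ + ‖A‖ + ‖B‖ := by (clear * -; linarith [norm_sub_le (1 + A + B) A])
        (clear * - hmid hbnd h7; linarith)

end Pool.Agent.M20.Helper48.KSZ
end

/- Helper53.KN.Helper71.KSZ.N15 -/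
section
/-!
Project KSZ (MP_768c9c_nt), module N15: Theorem N from one level.
-/

set_option autoImplicit false

open Finset Filter Topology

namespace Pool.Agent.M20.Helper71.KSZ

open Pool.Agent.M20.Helper18.KSZ

theorem mz_nonneg (ρ : ℂ) : 0 ≤ mz ρ := Nat.cast_nonneg _

/-- the level of an ordinate -/
theorem exists_level {X T : ℝ} (hX : 1 < X) (hT : 1 < T) (hTX : T ≤ X ^ (6 / 10 : ℝ)) :
    ∃ j : ℕ, (X ^ ((1 / 2 : ℝ) ^ j)) ^ (3 / 10 : ℝ) ≤ T ∧
      T ≤ (X ^ ((1 / 2 : ℝ) ^ j)) ^ (6 / 10 : ℝ) := by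
  have hX0 : 0 < X := by linarith
  have hlim : Tendsto (fun j : ℕ => X ^ ((1 / 2 : ℝ) ^ j * (3 / 10))) atTop (𝓝 1) := by
    have h1 : Tendsto (fun j : ℕ => (1 / 2 : ℝ) ^ j * (3 / 10)) atTop (𝓝 (0 * (3 / 10))) :=
      (tendsto_pow_atTop_nhds_zero_of_lt_one (by norm_num) (by norm_num)).mul_const _
    rw [zero_mul] at h1
    have h2 := (Real.continuous_const_rpow hX0.ne').continuousAt.tendsto.comp h1
    rw [Real.rpow_zero] at h2
    exact h2
  have hex : ∃ j : ℕ, X ^ ((1 / 2 : ℝ) ^ j * (3 / 10)) < T :=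
    (hlim.eventually (gt_mem_nhds hT)).exists
  classical
  refine ⟨Nat.find hex, ?_, ?_⟩
  · rw [← Real.rpow_mul hX0.le]
    exact (Nat.find_spec hex).le
  · rw [← Real.rpow_mul hX0.le]
    rcases Nat.eq_zero_or_pos (Nat.find hex) with h0 | h0
    · rw [h0, pow_zero, one_mul]
      exact hTX
    · have h1 := Nat.find_min hex (Nat.sub_lt h0 one_pos)
      rw [not_lt] at h1
      refine h1.trans (le_of_eq ?_)
      congr 1
      obtain ⟨k, hk⟩ : ∃ k, Nat.find hex = k + 1 := ⟨Nat.find hex - 1, by omega⟩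
      rw [hk, Nat.add_sub_cancel, pow_succ]
      ring

/-- the low zeros contribute `o(1)` -/
theorem low_zeros (ε B η : ℝ) (hη : 0 < η) : ∃ X0 : ℝ, ∀ X : ℝ, X0 ≤ X → ∀ Z : Finset ℂ,
    (∀ ρ ∈ Z, riemannZeta ρ = 0 ∧ 1 - ε ≤ ρ.re ∧ |ρ.im| ≤ B) →
    ∑ ρ ∈ Z, mz ρ * X ^ (ρ.re - 1) ≤ η := by
  classical
  have hcomp : IsCompact (Set.Icc (1 - ε) 1 ×ℂ Set.Icc (-B) B) :=
    isCompact_Icc.reProdIm isCompact_Icc
  set F : Finset ℂ := hcomp.inter_riemannZetaZeros_finite.toFinset with hF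
  have hmem : ∀ ρ : ℂ, riemannZeta ρ = 0 → 1 - ε ≤ ρ.re → |ρ.im| ≤ B → ρ ∈ F := by
    intro ρ h1 h2 h3
    rw [hF, Set.Finite.mem_toFinset]
    refine ⟨?_, mem_riemannZetaZeros.2 h1⟩
    rw [Complex.mem_reProdIm]
    refine ⟨⟨h2, ?_⟩, abs_le.1 h3⟩
    by_contra h
    exact riemannZeta_ne_zero_of_one_le_re (not_le.1 h).le h1
  have hlim : Tendsto (fun X : ℝ => ∑ ρ ∈ F, mz ρ * X ^ (ρ.re - 1)) atTop
      (𝓝 (∑ ρ ∈ F, mz ρ * 0)) := by
    refine tendsto_finsetSum _ fun ρ hρ => Tendsto.const_mul _ ?_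
    have h1 : riemannZeta ρ = 0 := by
      rw [hF, Set.Finite.mem_toFinset] at hρ
      exact mem_riemannZetaZeros.1 hρ.2
    have h2 : ρ.re < 1 := by
      by_contra h
      exact riemannZeta_ne_zero_of_one_le_re (not_lt.1 h) h1
    have h3 := tendsto_rpow_neg_atTop (y := 1 - ρ.re) (by linarith)
    refine h3.congr fun X => ?_
    congr 1
    ring
  simp only [mul_zero, Finset.sum_const_zero] at hlim
  obtain ⟨X0, hX0⟩ := eventually_atTop.1 (hlim.eventually (ge_mem_nhds hη))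
  refine ⟨max X0 0, fun X hX Z hZ => ?_⟩
  refine le_trans ?_ (hX0 X ((le_max_left _ _).trans hX))
  refine Finset.sum_le_sum_of_subset_of_nonneg ?_ ?_
  · intro ρ hρ
    obtain ⟨h1, h2, h3⟩ := hZ ρ hρ
    exact hmem ρ h1 h2 h3
  · intro ρ _ _
    exact mul_nonneg (mz_nonneg ρ) (Real.rpow_nonneg ((le_max_right _ _).trans hX) _)

theorem theoremN (h10 : InA10) (h : OneLevel) : TheoremN := by
  classical
  obtain ⟨ε, hε, H⟩ := h
  refine ⟨ε, hε, fun η hη => ?_⟩
  obtain ⟨X1, hX1⟩ := H (η / 4) (by (clear * - hη; linarith))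
  obtain ⟨T0, hT0, hzf⟩ := h10 1
  -- the threshold between low and high zeros
  set B : ℝ := max (max (T0 ^ (10 / 3 : ℝ)) X1) 3 with hB
  have hB3 : 3 ≤ B := le_max_right _ _
  have hBX1 : X1 ≤ B := (le_max_right _ _).trans (le_max_left _ _)
  have hBT0 : T0 ^ (10 / 3 : ℝ) ≤ B := (le_max_left _ _).trans (le_max_left _ _)
  obtain ⟨X2, hX2⟩ := low_zeros ε (B ^ (6 / 10 : ℝ)) (η / 2) (by (clear * - hη; linarith))
  refine ⟨max X2 3, fun X hX Z hZ => ?_⟩
  have hXX2 : X2 ≤ X := (le_max_left _ _).trans hX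
  have hX3 : 3 ≤ X := (le_max_right _ _).trans hX
  have hX0 : 0 < X := by linarith
  have hXone : 1 < X := by linarith
  rw [← Finset.sum_filter_add_sum_filter_not Z (fun ρ => |ρ.im| ≤ B ^ (6 / 10 : ℝ))]
  have hlow : ∑ ρ ∈ Z.filter (fun ρ => |ρ.im| ≤ B ^ (6 / 10 : ℝ)), mz ρ * X ^ (ρ.re - 1) ≤
      η / 2 := by
    refine hX2 X hXX2 _ fun ρ hρ => ?_
    rw [Finset.mem_filter] at hρ
    obtain ⟨h1, h2, -⟩ := hZ ρ hρ.1
    exact ⟨h1, h2, hρ.2⟩
  set Zh := Z.filter (fun ρ => ¬ |ρ.im| ≤ B ^ (6 / 10 : ℝ)) with hZh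
  -- levels
  have hlev : ∀ ρ : ℂ, ρ ∈ Zh → ∃ j : ℕ, (X ^ ((1 / 2 : ℝ) ^ j)) ^ (3 / 10 : ℝ) ≤ |ρ.im| ∧
      |ρ.im| ≤ (X ^ ((1 / 2 : ℝ) ^ j)) ^ (6 / 10 : ℝ) := by
    intro ρ hρ
    rw [hZh, Finset.mem_filter, not_le] at hρ
    obtain ⟨h1, h2, h3⟩ := hZ ρ hρ.1
    refine exists_level hXone ?_ h3
    exact lt_of_le_of_lt (Real.one_le_rpow (by (clear * - hB3; linarith)) (by norm_num)) hρ.2
  choose! lev hlev1 hlev2 using hlev
  have hhigh : ∑ ρ ∈ Zh, mz ρ * X ^ (ρ.re - 1) ≤ η / 2 := by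
    rw [← Finset.sum_fiberwise_of_maps_to (g := lev) (t := Zh.image lev)
      (fun ρ hρ => Finset.mem_image_of_mem _ hρ)]
    have hfib : ∀ j ∈ Zh.image lev, ∑ ρ ∈ Zh.filter (fun ρ => lev ρ = j), mz ρ * X ^ (ρ.re - 1) ≤
        η / 4 * (1 / 2 : ℝ) ^ j := by
      intro j hj
      set Xj : ℝ := X ^ ((1 / 2 : ℝ) ^ j) with hXj
      have hXj0 : 0 < Xj := Real.rpow_pos_of_pos hX0 _
      -- facts about zeros of the fiber
      have hfacts : ∀ ρ ∈ Zh.filter (fun ρ => lev ρ = j), riemannZeta ρ = 0 ∧ 1 - ε ≤ ρ.re ∧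
          Xj ^ (3 / 10 : ℝ) ≤ |ρ.im| ∧ |ρ.im| ≤ Xj ^ (6 / 10 : ℝ) ∧ B ^ (6 / 10 : ℝ) < |ρ.im| := by
        intro ρ hρ
        rw [Finset.mem_filter] at hρ
        have hρZ := hρ.1
        rw [hZh, Finset.mem_filter, not_le] at hρZ
        obtain ⟨h1, h2, h3⟩ := hZ ρ hρZ.1
        have h4 := hlev1 ρ hρ.1
        have h5 := hlev2 ρ hρ.1
        rw [hρ.2] at h4 h5
        exact ⟨h1, h2, h4, h5, hρZ.2⟩
      -- the fiber is nonempty
      obtain ⟨ρ0, hρ0, hρ0j⟩ := Finset.mem_image.1 hj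
      have hXjB : B < Xj := by
        obtain ⟨-, -, -, h5, h6⟩ := hfacts ρ0 (Finset.mem_filter.2 ⟨hρ0, hρ0j⟩)
        have h7 : B ^ (6 / 10 : ℝ) < Xj ^ (6 / 10 : ℝ) := lt_of_lt_of_le h6 h5
        exact (Real.rpow_lt_rpow_iff (by (clear * - hB3; linarith)) hXj0.le (by norm_num)).1 h7
      have hXj1 : 1 < Xj := by (clear * - hB3 hXjB; linarith)
      have hlogXj : 0 < Real.log Xj := Real.log_pos hXj1
      have hone := hX1 Xj (hBX1.trans hXjB.le) (Zh.filter (fun ρ => lev ρ = j)) (by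
        intro ρ hρ
        obtain ⟨h1, h2, h3, h4, -⟩ := hfacts ρ hρ
        exact ⟨h1, h2, h3, h4⟩)
      have hterm : ∀ ρ ∈ Zh.filter (fun ρ => lev ρ = j), mz ρ * X ^ (ρ.re - 1) ≤
          (mz ρ * Xj ^ (ρ.re - 1)) * (1 / 2 : ℝ) ^ j := by
        intro ρ hρ
        obtain ⟨h1, h2, h3, h4, h5⟩ := hfacts ρ hρ
        have hT : T0 ≤ |ρ.im| := by
          have h6 : T0 ≤ Xj ^ (3 / 10 : ℝ) := by
            have h7 : (T0 ^ (10 / 3 : ℝ)) ^ (3 / 10 : ℝ) ≤ Xj ^ (3 / 10 : ℝ) :=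
              Real.rpow_le_rpow (by positivity) (hBT0.trans hXjB.le) (by norm_num)
            rw [← Real.rpow_mul (by (clear * - hT0; linarith))] at h7
            norm_num at h7
            exact h7
          exact h6.trans h3
        have hz := hzf ρ h1 hT
        have him1 : 1 < |ρ.im| := by (clear * - hT0 hT; linarith)
        have hlogim : 0 < Real.log |ρ.im| := Real.log_pos him1
        have hlogle : Real.log |ρ.im| ≤ Real.log Xj := by
          refine Real.log_le_log (by (clear * - hT0 hT; linarith)) (h4.trans ?_)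
          have h8 := Real.rpow_le_rpow_of_exponent_le hXj1.le (by norm_num : (6 / 10 : ℝ) ≤ 1)
          rwa [Real.rpow_one] at h8
        have hx : 1 / Real.log Xj ≤ 1 - ρ.re := by
          have h9 : 1 / Real.log Xj ≤ 1 / Real.log |ρ.im| := one_div_le_one_div_of_le hlogim hlogle
          (clear * - hz h9; linarith)
        have hx' : 1 ≤ (1 - ρ.re) * Real.log Xj := by
          rwa [div_le_iff₀ hlogXj] at hx
        -- X = Xj ^ (2 ^ j)
        have hXXj : X ^ (ρ.re - 1) = Xj ^ ((2 : ℝ) ^ j * (ρ.re - 1)) := by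
          rw [hXj, ← Real.rpow_mul hX0.le, ← mul_assoc, ← mul_pow]
          norm_num
        rw [hXXj, mul_assoc]
        refine mul_le_mul_of_nonneg_left ?_ (mz_nonneg ρ)
        rw [show (2 : ℝ) ^ j * (ρ.re - 1) = (ρ.re - 1) + ((2 : ℝ) ^ j - 1) * (ρ.re - 1) by ring,
          Real.rpow_add hXj0]
        refine mul_le_mul_of_nonneg_left ?_ (Real.rpow_nonneg hXj0.le _)
        rw [Real.rpow_def_of_pos hXj0]
        have h2j : (j : ℝ) ≤ (2 : ℝ) ^ j - 1 := by
          have h10 : (1 : ℝ) + j * 1 ≤ (1 + 1) ^ j := one_add_mul_le_pow (by norm_num) j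
          norm_num at h10
          (clear * - h10; linarith)
        have h11 : Real.log Xj * (((2 : ℝ) ^ j - 1) * (ρ.re - 1)) ≤ -(j : ℝ) := by
          have h12 : (j : ℝ) * 1 ≤ ((2 : ℝ) ^ j - 1) * ((1 - ρ.re) * Real.log Xj) :=
            mul_le_mul h2j hx' (by norm_num) (by (clear * - h2j; linarith [Nat.cast_nonneg (α := ℝ) j]))
          (clear * - h12; linarith)
        refine (Real.exp_le_exp.2 h11).trans ?_
        have h13 : Real.exp (-(j : ℝ)) = (Real.exp (-1)) ^ j := by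
          rw [← Real.exp_nat_mul]
          congr 1
          ring
        rw [h13]
        refine pow_le_pow_left₀ (Real.exp_pos _).le ?_ j
        rw [Real.exp_neg, one_div]
        refine inv_anti₀ (by norm_num) ?_
        have := Real.add_one_le_exp (1 : ℝ)
        (clear * - this; linarith)
      calc ∑ ρ ∈ Zh.filter (fun ρ => lev ρ = j), mz ρ * X ^ (ρ.re - 1)
          ≤ ∑ ρ ∈ Zh.filter (fun ρ => lev ρ = j), (mz ρ * Xj ^ (ρ.re - 1)) * (1 / 2 : ℝ) ^ j :=
            Finset.sum_le_sum hterm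
        _ = (∑ ρ ∈ Zh.filter (fun ρ => lev ρ = j), mz ρ * Xj ^ (ρ.re - 1)) * (1 / 2 : ℝ) ^ j := by
            rw [Finset.sum_mul]
        _ ≤ η / 4 * (1 / 2 : ℝ) ^ j := mul_le_mul_of_nonneg_right hone (by positivity)
    calc ∑ j ∈ Zh.image lev, ∑ ρ ∈ Zh.filter (fun ρ => lev ρ = j), mz ρ * X ^ (ρ.re - 1)
        ≤ ∑ j ∈ Zh.image lev, η / 4 * (1 / 2 : ℝ) ^ j := Finset.sum_le_sum hfib
      _ = η / 4 * ∑ j ∈ Zh.image lev, (1 / 2 : ℝ) ^ j := by rw [Finset.mul_sum]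
      _ ≤ η / 4 * 2 := by
          refine mul_le_mul_of_nonneg_left ?_ (by (clear * - hη; linarith))
          exact (summable_geometric_two.sum_le_tsum _ (fun j _ => by positivity)).trans
            tsum_geometric_two.le
      _ = η / 2 := by ring
  (clear * - hlow hhigh; linarith)

end Pool.Agent.M20.Helper71.KSZ
end

/- Helper53.KN.Helper94.KSZ.N5 -/
section
/-!
Project KSZ, module N5: exponential sums over long ranges.
-/

set_option autoImplicit false

open Finset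

namespace Pool.Agent.M20.Helper94.KSZ

open Pool.Agent.M20.Helper18.KSZ

/-- Abel summation with decreasing weights -/
theorem abel_bound (a : ℕ → ℝ) (b : ℕ → ℂ) (N : ℕ) (B : ℝ) (N1 : ℕ) (hN : N < N1)
    (ha : ∀ n, N < n → n < N1 → a (n + 1) ≤ a n) (ha0 : ∀ n, N < n → n ≤ N1 → 0 ≤ a n)
    (hB : ∀ k, N < k → k ≤ N1 → ‖∑ n ∈ Ioc N k, b n‖ ≤ B) :
    ‖∑ n ∈ Ioc N N1, (a n : ℂ) * b n‖ ≤ a (N + 1) * B := by
  have key : ∀ k, N + 1 ≤ k → k ≤ N1 →
      ‖∑ n ∈ Ioc N k, (a n : ℂ) * b n - (a k : ℂ) * ∑ n ∈ Ioc N k, b n‖ ≤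
        (a (N + 1) - a k) * B := by
    intro k hk
    induction k, hk using Nat.le_induction with
    | base =>
      intro _
      simp
    | succ k hk ih =>
      intro hk1
      have h1 := ih (by omega)
      have h2 : ∑ n ∈ Ioc N (k + 1), (a n : ℂ) * b n - (a (k + 1) : ℂ) * ∑ n ∈ Ioc N (k + 1), b n =
          (∑ n ∈ Ioc N k, (a n : ℂ) * b n - (a k : ℂ) * ∑ n ∈ Ioc N k, b n) +
            ((a k - a (k + 1) : ℝ) : ℂ) * ∑ n ∈ Ioc N k, b n := by
        rw [Finset.sum_Ioc_succ_top (by omega), Finset.sum_Ioc_succ_top (by omega)]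
        push_cast
        ring
      rw [h2]
      refine (norm_add_le _ _).trans ?_
      have h3 := ha k (by omega) (by omega)
      have h4 : ‖((a k - a (k + 1) : ℝ) : ℂ) * ∑ n ∈ Ioc N k, b n‖ ≤ (a k - a (k + 1)) * B := by
        rw [norm_mul, Complex.norm_real, Real.norm_of_nonneg (by (clear * - h3; linarith))]
        exact mul_le_mul_of_nonneg_left (hB k (by omega) (by omega)) (by (clear * - h3; linarith))
      (clear * - h1 h4; linarith)
  have h1 := key N1 hN le_rfl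
  have h2 : ‖(a N1 : ℂ) * ∑ n ∈ Ioc N N1, b n‖ ≤ a N1 * B := by
    rw [norm_mul, Complex.norm_real, Real.norm_of_nonneg (ha0 N1 hN le_rfl)]
    exact mul_le_mul_of_nonneg_left (hB N1 hN le_rfl) (ha0 N1 hN le_rfl)
  have h3 : ∑ n ∈ Ioc N N1, (a n : ℂ) * b n =
      (∑ n ∈ Ioc N N1, (a n : ℂ) * b n - (a N1 : ℂ) * ∑ n ∈ Ioc N N1, b n) +
        (a N1 : ℂ) * ∑ n ∈ Ioc N N1, b n := by ring
  rw [h3]
  refine (norm_add_le _ _).trans ?_
  (clear * - h1 h2; linarith)

/-- dyadic decomposition -/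
theorem dyadic_bound (f : ℕ → ℂ) (B : ℝ) (hB : 0 ≤ B) (M' : ℕ) (P : ℕ → Prop)
    (hP : ∀ N, P N → P (2 * N))
    (hblock : ∀ N N1, P N → N < N1 → N1 ≤ 2 * N → N1 ≤ M' → ‖∑ n ∈ Ioc N N1, f n‖ ≤ B) :
    ∀ k : ℕ, ∀ M, P M → M ≤ M' → M' ≤ 2 ^ k * M → ‖∑ n ∈ Ioc M M', f n‖ ≤ k * B := by
  intro k
  induction k with
  | zero =>
    intro M _ h1 h2
    have : M = M' := by
      rw [pow_zero, one_mul] at h2
      omega
    subst this
    simp
  | succ k ih =>
    intro M hM h1 h2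
    rcases Nat.eq_or_lt_of_le h1 with h3 | h3
    · subst h3
      simp only [Finset.Ioc_self, Finset.sum_empty, norm_zero]
      (clear * - hB; positivity)
    rcases le_total M' (2 * M) with h4 | h4
    · have := hblock M M' hM h3 h4 le_rfl
      push_cast
      (clear * - this hB; nlinarith [this, (Nat.cast_nonneg k : (0 : ℝ) ≤ k)])
    · have h5 : ∑ n ∈ Ioc M M', f n = ∑ n ∈ Ioc M (2 * M), f n + ∑ n ∈ Ioc (2 * M) M', f n := by
        rw [Finset.sum_Ioc_consecutive _ (by omega) h4]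
      rw [h5]
      refine (norm_add_le _ _).trans ?_
      have h6 := ih (2 * M) (hP M hM) h4 (by rw [pow_succ] at h2; (clear * - h2; nlinarith))
      have h7 : ‖∑ n ∈ Ioc M (2 * M), f n‖ ≤ B := by
        rcases Nat.eq_zero_or_pos M with h8 | h8
        · subst h8
          simpa using hB
        · exact hblock M (2 * M) hM (by omega) le_rfl h4
      push_cast
      (clear * - h6 h7; linarith)

theorem norm_conj_sum (S : Finset ℕ) (σ t : ℝ) :
    ‖∑ n ∈ S, (n : ℂ) ^ (-((σ : ℂ) + (t : ℂ) * Complex.I))‖ =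
      ‖∑ n ∈ S, (n : ℂ) ^ (-((σ : ℂ) + ((-t : ℝ) : ℂ) * Complex.I))‖ := by
  rw [← Complex.norm_conj, map_sum]
  congr 1
  refine Finset.sum_congr rfl fun n _ => ?_
  have h1 : ((n : ℂ)).arg ≠ Real.pi := by
    rw [Complex.natCast_arg]
    exact Real.pi_pos.ne
  have h2 := Complex.cpow_conj (n : ℂ) (-((σ : ℂ) + (t : ℂ) * Complex.I)) h1
  rw [Complex.conj_natCast] at h2
  rw [← h2]
  congr 1
  simp

theorem block_bound {c C : ℝ} (hc : 0 < c) (hC : 0 < C)
    (h3 : ∀ (N N1 : ℕ) (t : ℝ), 1 ≤ N → N < N1 → N1 ≤ 2 * N → (N : ℝ) ^ (1 / (800 : ℝ)) ≤ t →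
      t ≤ (N : ℝ) ^ (800 : ℝ) →
      ‖∑ n ∈ Ioc N N1, (n : ℂ) ^ (-((t : ℂ) * Complex.I))‖ ≤ C * (N : ℝ) ^ (1 - c))
    {X t σ : ℝ} (hX : 1 ≤ X) (ht1 : X ^ (1 / 200 : ℝ) ≤ t) (ht2 : t ≤ X ^ (61 / 100 : ℝ))
    (hσ : 1 - c / 2 ≤ σ) (hσ0 : 0 ≤ σ) (N N1 : ℕ) (hN : X ^ (3 / 200 : ℝ) ≤ N) (hN1 : N < N1)
    (hN2 : N1 ≤ 2 * N) (hN4 : (N : ℝ) ≤ X ^ (4 : ℝ)) :
    ‖∑ n ∈ Ioc N N1, (n : ℂ) ^ (-((σ : ℂ) + (t : ℂ) * Complex.I))‖ ≤
      C * X ^ (-(3 * c / 400)) := by
  have hX0 : (0 : ℝ) < X := by (clear * - hX; linarith)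
  have hN0 : (1 : ℝ) ≤ N := (Real.one_le_rpow hX (by norm_num)).trans hN
  have hN0' : 1 ≤ N := by exact_mod_cast hN0
  have e1 : (N : ℝ) ^ (1 / (800 : ℝ)) ≤ t := by
    refine le_trans ?_ ht1
    calc (N : ℝ) ^ (1 / (800 : ℝ)) ≤ (X ^ (4 : ℝ)) ^ (1 / (800 : ℝ)) :=
          Real.rpow_le_rpow (by (clear * - hN0; linarith)) hN4 (by norm_num)
      _ = X ^ (1 / 200 : ℝ) := by
          rw [← Real.rpow_mul hX0.le]
          norm_num
  have e2 : t ≤ (N : ℝ) ^ (800 : ℝ) := by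
    refine ht2.trans ?_
    calc X ^ (61 / 100 : ℝ) ≤ X ^ (12 : ℝ) := Real.rpow_le_rpow_of_exponent_le hX (by norm_num)
      _ = (X ^ (3 / 200 : ℝ)) ^ (800 : ℝ) := by
          rw [← Real.rpow_mul hX0.le]
          norm_num
      _ ≤ (N : ℝ) ^ (800 : ℝ) := Real.rpow_le_rpow (by positivity) hN (by norm_num)
  have e3 : ∑ n ∈ Ioc N N1, (n : ℂ) ^ (-((σ : ℂ) + (t : ℂ) * Complex.I)) =
      ∑ n ∈ Ioc N N1, (((n : ℝ) ^ (-σ) : ℝ) : ℂ) * (n : ℂ) ^ (-((t : ℂ) * Complex.I)) := by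
    refine Finset.sum_congr rfl fun n hn => ?_
    rw [mem_Ioc] at hn
    have hn0 : (n : ℂ) ≠ 0 := by
      have : n ≠ 0 := by omega
      exact_mod_cast this
    rw [neg_add, Complex.cpow_add _ _ hn0, Complex.ofReal_cpow (by positivity)]
    simp
  rw [e3]
  have e4 := abel_bound (fun n => (n : ℝ) ^ (-σ)) (fun n => (n : ℂ) ^ (-((t : ℂ) * Complex.I))) N
    (C * (N : ℝ) ^ (1 - c)) N1 hN1 (fun n h1 _ => by
      have h0 : (0 : ℝ) < n := by
        have : 0 < n := by omega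
        exact_mod_cast this
      exact Real.rpow_le_rpow_of_nonpos h0 (by push_cast; (clear * -; linarith)) (by (clear * - hσ0; linarith)))
    (fun n _ _ => by (clear * -; positivity))
    (fun k h1 h2 => h3 N k t hN0' h1 (h2.trans hN2) e1 e2)
  refine e4.trans ?_
  have hNpos : (0 : ℝ) < N := by (clear * - hN0; linarith)
  have e5 : ((N + 1 : ℕ) : ℝ) ^ (-σ) ≤ (N : ℝ) ^ (-σ) :=
    Real.rpow_le_rpow_of_nonpos hNpos (by push_cast; (clear * -; linarith)) (by (clear * - hσ0; linarith))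
  calc ((N + 1 : ℕ) : ℝ) ^ (-σ) * (C * (N : ℝ) ^ (1 - c))
      ≤ (N : ℝ) ^ (-σ) * (C * (N : ℝ) ^ (1 - c)) := mul_le_mul_of_nonneg_right e5 (by positivity)
    _ = C * (N : ℝ) ^ (-σ + (1 - c)) := by
        rw [Real.rpow_add hNpos]
        ring
    _ ≤ C * (N : ℝ) ^ (-(c / 2)) := by
        refine mul_le_mul_of_nonneg_left ?_ hC.le
        exact Real.rpow_le_rpow_of_exponent_le hN0 (by (clear * - hσ; linarith))
    _ ≤ C * (X ^ (3 / 200 : ℝ)) ^ (-(c / 2)) := by
        refine mul_le_mul_of_nonneg_left ?_ hC.le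
        exact Real.rpow_le_rpow_of_nonpos (by positivity) hN (by (clear * - hc; linarith))
    _ = C * X ^ (-(3 * c / 400)) := by
        rw [← Real.rpow_mul hX0.le]
        congr 2
        ring

/-- N5 -/
theorem expSum (h : InA3) : ExpSum := by
  obtain ⟨c, C, hc, hC, h3⟩ := h 800 (by norm_num)
  have h0 : ∀ᶠ X : ℝ in Filter.atTop, (6 * Real.log X + 2) * C ≤ X ^ (3 * c / 800) := by
    have e1 : (fun X : ℝ => (6 * Real.log X + 2) * C) =o[Filter.atTop] fun X => X ^ (3 * c / 800) := by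
      have e2 : (fun X : ℝ => 6 * Real.log X) =o[Filter.atTop] fun X => X ^ (3 * c / 800) :=
        (isLittleO_log_rpow_atTop (by positivity)).const_mul_left 6
      have e3 : (fun _ : ℝ => (2 : ℝ)) =o[Filter.atTop] fun X => X ^ (3 * c / 800) := by
        refine Asymptotics.isLittleO_const_left.2 (Or.inr ?_)
        exact tendsto_norm_atTop_atTop.comp (tendsto_rpow_atTop (by positivity))
      have e4 := (e2.add e3).const_mul_left C
      refine e4.congr_left fun X => by ring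
    have e5 := e1.bound (c := 1) one_pos
    filter_upwards [e5, Filter.eventually_gt_atTop (0 : ℝ)] with X hX hX0
    rw [one_mul, Real.norm_of_nonneg (r := X ^ (3 * c / 800)) (by positivity)] at hX
    exact (le_abs_self _).trans hX
  obtain ⟨X0, hX0⟩ := Filter.eventually_atTop.1 (h0.and (Filter.eventually_ge_atTop 1))
  refine ⟨3 * c / 800, min (c / 2) 1, X0, by positivity, by positivity, ?_⟩
  -- the case of positive ordinates
  have pos : ∀ X : ℝ, X0 ≤ X → ∀ t : ℝ, X ^ (1 / 200 : ℝ) ≤ t → t ≤ X ^ (61 / 100 : ℝ) →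
      ∀ M M' : ℕ, X ^ (3 / 200 : ℝ) ≤ M → M ≤ M' → (M' : ℝ) ≤ X ^ (4 : ℝ) → ∀ σ : ℝ,
      1 - min (c / 2) 1 ≤ σ → σ ≤ 1 →
      ‖∑ n ∈ Ioc M M', (n : ℂ) ^ (-((σ : ℂ) + (t : ℂ) * Complex.I))‖ ≤ X ^ (-(3 * c / 800)) := by
    intro X hX t ht1 ht2 M M' hM hMM hM' σ hσ1 hσ2
    obtain ⟨hX1, hX2⟩ := hX0 X hX
    have hXp : (0 : ℝ) < X := by (clear * - hX2; linarith)
    have hσ3 : 1 - c / 2 ≤ σ := by
      have := min_le_left (c / 2) 1
      (clear * - hσ1 this; linarith)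
    have hσ4 : 0 ≤ σ := by
      have := min_le_right (c / 2) 1
      (clear * - hσ1 this; linarith)
    have hM1 : (1 : ℝ) ≤ M := (Real.one_le_rpow hX2 (by norm_num)).trans hM
    have hM1' : 1 ≤ M := by exact_mod_cast hM1
    have hk : M' ≤ 2 ^ Nat.clog 2 M' * M := by
      calc M' ≤ 2 ^ Nat.clog 2 M' := Nat.le_pow_clog (by norm_num) _
        _ ≤ 2 ^ Nat.clog 2 M' * M := Nat.le_mul_of_pos_right _ hM1'
    have h5 := dyadic_bound (fun n => (n : ℂ) ^ (-((σ : ℂ) + (t : ℂ) * Complex.I)))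
      (C * X ^ (-(3 * c / 400))) (by positivity) M' (fun N => X ^ (3 / 200 : ℝ) ≤ N)
      (fun N hN => by
        refine hN.trans ?_
        push_cast
        have := (Nat.cast_nonneg N : (0 : ℝ) ≤ N)
        (clear * -; linarith))
      (fun N N1 hN hN1 hN2 hN3 => block_bound hc hC h3 hX2 ht1 ht2 hσ3 hσ4 N N1 hN hN1 hN2 (by
        refine le_trans ?_ hM'
        exact_mod_cast (hN1.le.trans hN3)))
      (Nat.clog 2 M') M hM hMM hk
    refine h5.trans ?_
    have h6 : (Nat.clog 2 M' : ℝ) ≤ 6 * Real.log X + 2 := by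
      rcases Nat.lt_or_ge 1 M' with h7 | h7
      · have h8 : 2 ^ (Nat.clog 2 M' - 1) < M' := Nat.pow_pred_clog_lt_self (by norm_num) h7
        have h9 : (2 : ℝ) ^ (Nat.clog 2 M' - 1) < X ^ (4 : ℝ) := by
          refine lt_of_lt_of_le ?_ hM'
          exact_mod_cast h8
        have h10 := Real.log_lt_log (by positivity) h9
        rw [Real.log_pow, Real.log_rpow hXp] at h10
        have h11 : (Nat.clog 2 M' : ℝ) ≤ ((Nat.clog 2 M' - 1 : ℕ) : ℝ) + 1 := by
          have : Nat.clog 2 M' ≤ (Nat.clog 2 M' - 1) + 1 := by omega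
          exact_mod_cast this
        have h12 : 0.6931471803 < Real.log 2 := Real.log_two_gt_d9
        have h13 : 0 ≤ Real.log X := Real.log_nonneg hX2
        have h14 : (0 : ℝ) ≤ ((Nat.clog 2 M' - 1 : ℕ) : ℝ) := Nat.cast_nonneg _
        (clear * - h10 h11 h12; nlinarith)
      · have h8 : Nat.clog 2 M' = 0 := Nat.clog_of_right_le_one h7 _
        rw [h8, Nat.cast_zero]
        have h13 : 0 ≤ Real.log X := Real.log_nonneg hX2
        (clear * - h13; linarith)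
    calc (Nat.clog 2 M' : ℝ) * (C * X ^ (-(3 * c / 400)))
        ≤ (6 * Real.log X + 2) * (C * X ^ (-(3 * c / 400))) :=
          mul_le_mul_of_nonneg_right h6 (by positivity)
      _ = ((6 * Real.log X + 2) * C) * X ^ (-(3 * c / 400)) := by ring
      _ ≤ X ^ (3 * c / 800) * X ^ (-(3 * c / 400)) :=
          mul_le_mul_of_nonneg_right hX1 (by positivity)
      _ = X ^ (-(3 * c / 800)) := by
          rw [← Real.rpow_add hXp]
          congr 1
          ring
  intro X hX t ht1 ht2 M M' hM hMM hM' σ hσ1 hσ2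
  rcases le_total 0 t with ht | ht
  · rw [abs_of_nonneg ht] at ht1 ht2
    exact pos X hX t ht1 ht2 M M' hM hMM hM' σ hσ1 hσ2
  · rw [abs_of_nonpos ht] at ht1 ht2
    rw [norm_conj_sum]
    exact pos X hX (-t) ht1 ht2 M M' hM hMM hM' σ hσ1 hσ2

end Pool.Agent.M20.Helper94.KSZ
end

/- Helper53.KN.Helper59.AV.Tab -/
section
set_option autoImplicit false

/-! Project AV, LS6: kernel computation of the sieve functions on the grid `i / 16`. -/

open Filter Topology

namespace Pool.Agent.M20.Helper59.AV.Tab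

open Pool.Agent.M20.Helper40.AV

/-! ### the computation -/

/-- suffix sums -/
def tot (l : List ℕ) (k : ℕ) : ℕ := (l.drop k).sum

/-! ### correctness -/

theorem tot_eq (l : List ℕ) (n k : ℕ) (h : l.length = k + n) :
    tot l k = ∑ j ∈ Finset.range n, l.getD (k + j) 0 := by
  induction n generalizing k with
  | zero =>
    unfold tot
    rw [List.drop_of_length_le (by omega)]
    simp
  | succ n ih =>
    have h1 := ih (k + 1) (by omega)
    rw [Finset.sum_range_succ']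
    have h2 : tot l k = l.getD k 0 + tot l (k + 1) := by
      unfold tot
      rw [List.drop_eq_getElem_cons (show k < l.length by omega), List.sum_cons]
      congr 1
      rw [List.getD_eq_getElem?_getD, List.getElem?_eq_getElem (show k < l.length by omega)]
      rfl
    rw [h2, h1, add_comm]
    congr 1
    apply Finset.sum_congr rfl
    intro j _
    congr 1
    ring

theorem ceil_div (a i : ℕ) (hi : 0 < i) : (a : ℝ) / i ≤ (((a + (i - 1)) / i : ℕ) : ℝ) := by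
  rw [div_le_iff₀ (by exact_mod_cast hi)]
  have h : a ≤ (a + (i - 1)) / i * i := by
    have h1 := Nat.div_add_mod (a + (i - 1)) i
    have h2 := Nat.mod_lt (a + (i - 1)) hi
    have h3 : i * ((a + (i - 1)) / i) = (a + (i - 1)) / i * i := mul_comm _ _
    omega
  exact_mod_cast h

theorem upb_mono {s s' F F' : ℝ} (h : UpB s F) (hs : s ≤ s') (hF : F ≤ F') : UpB s' F' := by
  intro ε hε
  obtain ⟨z₀, hz⟩ := h ε hε
  refine ⟨max z₀ 1, fun z hz1 y l hl => ?_⟩
  have h1 : z₀ ≤ z := (le_max_left _ _).trans hz1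
  have h2 : 1 ≤ z := (le_max_right _ _).trans hz1
  refine (hz z h1 y l ((Real.rpow_le_rpow_of_exponent_le h2 hs).trans hl)).trans ?_
  have h3 : (0 : ℝ) ≤ l := Nat.cast_nonneg _
  have h4 := (vv_pos z).le
  gcongr

theorem lob_mono {s f f' : ℝ} (h : LoB s f) (hF : f' ≤ f) : LoB s f' := by
  intro ε hε
  obtain ⟨z₀, hz⟩ := h ε hε
  refine ⟨z₀, fun z hz1 y l hl => le_trans ?_ (hz z hz1 y l hl)⟩
  have h3 : (0 : ℝ) ≤ l := Nat.cast_nonneg _
  have h4 := (vv_pos z).le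
  gcongr

theorem lob_zero (s : ℝ) : LoB s 0 := by
  intro ε hε
  refine ⟨0, fun z _ y l _ => ?_⟩
  have h3 : (0 : ℝ) ≤ l := Nat.cast_nonneg _
  have h4 := (vv_pos z).le
  have h5 : (0 : ℝ) ≤ ((RS y l z).card : ℝ) := Nat.cast_nonneg _
  have h6 : 0 ≤ ε * l * VV z := by positivity
  linarith

end Pool.Agent.M20.Helper59.AV.Tab
end

/- Helper53.KN.Helper79.QRH.FL -/
section
/-!
# Fundamental lemma: the Brun-Hooley sieve with main term accuracy `1 ± δ`
-/

set_option autoImplicit false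
set_option linter.unusedSectionVars false

open Finset Real

namespace Pool.Agent.M20.Helper79.QRH

open Pool.Agent.M20.Helper44 Pool.Agent.M20.Helper96.CPAP

/-- The Brun-Hooley sieve with sharp main terms. -/
theorem brun_hooleyD {ι : Type*} [DecidableEq ι] {α : Type*} {t : ℕ} (Ω : Finset α)
    (occ : ι → α → Prop)
    (B : Fin t → Finset ι) (hB : ∀ i j, i ≠ j → Disjoint (B i) (B j)) (x : ι → ℝ)
    (hx : ∀ j, ∀ i ∈ B j, 0 ≤ x i ∧ x i ≤ 1 / 2) (X E κ δ : ℝ) (hX : 0 ≤ X) (hE : 0 ≤ E)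
    (hκ : 1 ≤ κ) (hδ1 : δ ≤ 1)
    (hcnt : ∀ I : Finset ι, I ⊆ Finset.univ.biUnion B →
      |evCount Ω (fun ω => ∀ i ∈ I, occ i ω) - X * ∏ i ∈ I, x i| ≤ E * κ ^ I.card)
    (m : Fin t → ℕ) (hm : ∀ j, Even (m j))
    (hr : ∑ j, es (B j) (m j + 1) x / ∏ i ∈ B j, (1 - x i) ≤ δ) :
    evCount Ω (fun ω => ∀ j, ∀ i ∈ B j, ¬ occ i ω) ≤
        Real.exp δ * X * (∏ j, ∏ i ∈ B j, (1 - x i)) +
          E * ∏ j, (κ * ((B j).card : ℝ) + 1) ^ (m j + 1) ∧
    (1 - δ) * X * (∏ j, ∏ i ∈ B j, (1 - x i)) -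
      E * ((t + 1) * ∏ j, (κ * ((B j).card : ℝ) + 1) ^ (m j + 1)) ≤
      evCount Ω (fun ω => ∀ j, ∀ i ∈ B j, ¬ occ i ω) := by
  obtain ⟨h1, h2⟩ := brun_hooley_rawK Ω occ B hB x X E κ hE hκ hcnt m hm
  have hx1 : ∀ j, ∀ i ∈ B j, 0 ≤ x i ∧ x i ≤ 1 := fun j i hi =>
    ⟨(hx j i hi).1, by linarith [(hx j i hi).2]⟩
  set V : Fin t → ℝ := fun j => ∏ i ∈ B j, (1 - x i) with hV
  have hVpos : ∀ j, 0 < V j := fun j => Finset.prod_pos fun i hi => by
    linarith [(hx j i hi).2]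
  set r : Fin t → ℝ := fun j => es (B j) (m j + 1) x / V j with hrdef
  have hr0 : ∀ j, 0 ≤ r j := fun j =>
    div_nonneg (es_nonneg _ _ _ fun i hi => (hx j i hi).1) (hVpos j).le
  have hVT : ∀ j, V j ≤ tr (B j) (m j) x := fun j => prod_le_tr_even _ _ (hx1 j) _ (hm j)
  have hTV : ∀ j, tr (B j) (m j) x ≤ V j * Real.exp (r j) := by
    intro j
    have h3 := tr_even_le (B j) x (hx1 j) (m j) (hm j)
    have h4 : es (B j) (m j + 1) x = V j * r j := by
      simp only [hrdef]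
      rw [mul_div_cancel₀ _ (hVpos j).ne']
    have h5 : r j + 1 ≤ Real.exp (r j) := Real.add_one_le_exp _
    calc tr (B j) (m j) x ≤ V j + V j * r j := by rw [← h4]; exact h3
      _ = V j * (r j + 1) := by ring
      _ ≤ V j * Real.exp (r j) := mul_le_mul_of_nonneg_left h5 (hVpos j).le
  have hr' : ∑ j, r j ≤ δ := hr
  have hT0 : ∀ j, 0 < tr (B j) (m j) x := fun j => (hVpos j).trans_le (hVT j)
  have hPV : 0 < ∏ j, V j := Finset.prod_pos fun j _ => hVpos j
  have hPT : 0 < ∏ j, tr (B j) (m j) x := Finset.prod_pos fun j _ => hT0 j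
  have hup : ∏ j, tr (B j) (m j) x ≤ Real.exp δ * ∏ j, V j := by
    calc ∏ j, tr (B j) (m j) x ≤ ∏ j, (V j * Real.exp (r j)) :=
          Finset.prod_le_prod (fun j _ => (hT0 j).le) (fun j _ => hTV j)
      _ = (∏ j, V j) * Real.exp (∑ j, r j) := by
          rw [Finset.prod_mul_distrib, Real.exp_sum]
      _ ≤ (∏ j, V j) * Real.exp δ := by
          apply mul_le_mul_of_nonneg_left _ hPV.le
          exact Real.exp_le_exp.mpr hr'
      _ = Real.exp δ * ∏ j, V j := by ring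
  constructor
  · refine h1.trans ?_
    have : X * ∏ j, tr (B j) (m j) x ≤ X * (Real.exp δ * ∏ j, V j) :=
      mul_le_mul_of_nonneg_left hup hX
    linarith
  · refine le_trans ?_ h2
    have hsum : ∑ l, ∏ j, (if j = l then es (B l) (m l + 1) x else tr (B j) (m j) x) ≤
        δ * ∏ j, tr (B j) (m j) x := by
      calc ∑ l, ∏ j, (if j = l then es (B l) (m l + 1) x else tr (B j) (m j) x)
          ≤ ∑ l, r l * ∏ j, tr (B j) (m j) x := by
            apply Finset.sum_le_sum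
            intro l _
            rw [← Finset.mul_prod_erase Finset.univ _ (Finset.mem_univ l),
              ← Finset.mul_prod_erase Finset.univ (fun j => tr (B j) (m j) x) (Finset.mem_univ l),
              if_pos rfl, ← mul_assoc]
            have h7 : ∏ j ∈ Finset.univ.erase l,
                (if j = l then es (B l) (m l + 1) x else tr (B j) (m j) x) =
                ∏ j ∈ Finset.univ.erase l, tr (B j) (m j) x := by
              apply Finset.prod_congr rfl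
              intro j hj
              rw [if_neg (Finset.ne_of_mem_erase hj)]
            rw [h7]
            apply mul_le_mul_of_nonneg_right _ (Finset.prod_nonneg fun j _ => (hT0 j).le)
            have h8 : es (B l) (m l + 1) x = r l * V l := by
              simp only [hrdef]
              rw [div_mul_cancel₀ _ (hVpos l).ne']
            rw [h8]
            exact mul_le_mul_of_nonneg_left (hVT l) (hr0 l)
        _ = (∑ l, r l) * ∏ j, tr (B j) (m j) x := by rw [Finset.sum_mul]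
        _ ≤ δ * ∏ j, tr (B j) (m j) x := mul_le_mul_of_nonneg_right hr' hPT.le
    have hlow : ∏ j, V j ≤ ∏ j, tr (B j) (m j) x :=
      Finset.prod_le_prod (fun j _ => (hVpos j).le) (fun j _ => hVT j)
    have : X * ((1 - δ) * ∏ j, V j) ≤ X * (∏ j, tr (B j) (m j) x -
        ∑ l, ∏ j, (if j = l then es (B l) (m l + 1) x else tr (B j) (m j) x)) := by
      apply mul_le_mul_of_nonneg_left _ hX
      have h9 : (1 - δ) * ∏ j, V j ≤ (1 - δ) * ∏ j, tr (B j) (m j) x :=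
        mul_le_mul_of_nonneg_left hlow (by linarith)
      linarith
    linarith

end Pool.Agent.M20.Helper79.QRH
end
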