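import Mathlib
import Pool.Agent.Helper53.KO.G02
import Pool.Agent.Helper53.KO.G03
import Pool.Agent.Helper53.KO.G04
import Pool.Agent.Helper53.KO.G06

set_option linter.all false

/- Helper53.KN.Helper44.Smooth -/
section
/-!
# Smooth and rough parts
-/

set_option autoImplicit false

open Finset

namespace Pool.Agent.M20.Helper44

/-- The part of `N` composed of primes `≤ y`. -/
noncomputable def sm (y N : ℕ) : ℕ := (N.factorization.filter (fun q => q ≤ y)).prod (fun q e => q ^ e)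

/-- The part of `N` composed of primes `> y`. -/
noncomputable def ro (y N : ℕ) : ℕ := (N.factorization.filter (fun q => ¬ q ≤ y)).prod (fun q e => q ^ e)

theorem factorization_sm (y N : ℕ) :
    (sm y N).factorization = N.factorization.filter (fun q => q ≤ y) := by
  unfold sm
  apply Nat.prod_pow_factorization_eq_self
  intro q hq
  rw [Finsupp.support_filter, Finset.mem_filter] at hq
  exact Nat.prime_of_mem_primeFactors (by simpa using hq.1)

theorem factorization_ro (y N : ℕ) :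
    (ro y N).factorization = N.factorization.filter (fun q => ¬ q ≤ y) := by
  unfold ro
  apply Nat.prod_pow_factorization_eq_self
  intro q hq
  rw [Finsupp.support_filter, Finset.mem_filter] at hq
  exact Nat.prime_of_mem_primeFactors (by simpa using hq.1)

theorem sm_pos (y N : ℕ) : 0 < sm y N := by
  unfold sm
  apply Nat.pos_of_ne_zero
  rw [Finsupp.prod, Finset.prod_ne_zero_iff]
  intro q hq
  rw [Finsupp.support_filter, Finset.mem_filter] at hq
  have : q.Prime := Nat.prime_of_mem_primeFactors (by simpa using hq.1)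
  exact pow_ne_zero _ this.ne_zero

theorem ro_pos (y N : ℕ) : 0 < ro y N := by
  unfold ro
  apply Nat.pos_of_ne_zero
  rw [Finsupp.prod, Finset.prod_ne_zero_iff]
  intro q hq
  rw [Finsupp.support_filter, Finset.mem_filter] at hq
  have : q.Prime := Nat.prime_of_mem_primeFactors (by simpa using hq.1)
  exact pow_ne_zero _ this.ne_zero

theorem sm_mul_ro {y N : ℕ} (hN : N ≠ 0) : sm y N * ro y N = N := by
  apply Nat.eq_of_factorization_eq (mul_ne_zero (sm_pos y N).ne' (ro_pos y N).ne') hN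
  intro q
  rw [Nat.factorization_mul (sm_pos y N).ne' (ro_pos y N).ne', factorization_sm, factorization_ro,
    Finsupp.add_apply, Finsupp.filter_apply, Finsupp.filter_apply]
  by_cases h : q ≤ y <;> simp [h]

theorem sm_mul {y a b : ℕ} (ha : a ≠ 0) (hb : b ≠ 0) : sm y (a * b) = sm y a * sm y b := by
  apply Nat.eq_of_factorization_eq (sm_pos _ _).ne' (mul_ne_zero (sm_pos _ _).ne' (sm_pos _ _).ne')
  intro q
  rw [Nat.factorization_mul (sm_pos y a).ne' (sm_pos y b).ne', factorization_sm, factorization_sm,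
    factorization_sm, Nat.factorization_mul ha hb, Finsupp.filter_add]

theorem prime_dvd_sm {y N q : ℕ} (hq : q.Prime) (h : q ∣ sm y N) : q ≤ y ∧ q ∣ N := by
  have h1 : (sm y N).factorization q ≠ 0 := by
    rw [← Nat.pos_iff_ne_zero]
    exact hq.factorization_pos_of_dvd (sm_pos y N).ne' h
  rw [factorization_sm, Finsupp.filter_apply] at h1
  split_ifs at h1 with hqy
  · exact ⟨hqy, Nat.dvd_of_factorization_pos h1⟩
  · exact absurd rfl h1

theorem prime_dvd_ro {y N q : ℕ} (hq : q.Prime) (h : q ∣ ro y N) : y < q ∧ q ∣ N := by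
  have h1 : (ro y N).factorization q ≠ 0 := by
    rw [← Nat.pos_iff_ne_zero]
    exact hq.factorization_pos_of_dvd (ro_pos y N).ne' h
  rw [factorization_ro, Finsupp.filter_apply] at h1
  by_cases hqy : q ≤ y
  · rw [if_neg (by simpa using hqy)] at h1
    exact absurd rfl h1
  · rw [if_pos hqy] at h1
    exact ⟨by omega, Nat.dvd_of_factorization_pos h1⟩

/-- Uniqueness of the decomposition into smooth and rough parts. -/
theorem sm_unique {y M R : ℕ} (hM : M ≠ 0) (hR : R ≠ 0)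
    (h1 : ∀ q : ℕ, q.Prime → q ∣ M → q ≤ y) (h2 : ∀ q : ℕ, q.Prime → q ∣ R → y < q) :
    M = sm y (M * R) := by
  rw [sm_mul hM hR]
  have e1 : sm y M = M := by
    apply Nat.eq_of_factorization_eq (sm_pos _ _).ne' hM
    intro q
    rw [factorization_sm, Finsupp.filter_apply]
    split_ifs with hq
    · rfl
    · symm
      by_contra hne
      have hq' : q.Prime := by
        by_contra hnp
        exact hne (Nat.factorization_eq_zero_of_not_prime _ hnp)
      exact hq (h1 q hq' (Nat.dvd_of_factorization_pos hne))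
  have e2 : sm y R = 1 := by
    by_contra hne
    obtain ⟨q, hq, hqd⟩ := Nat.exists_prime_and_dvd hne
    have h3 := prime_dvd_sm hq hqd
    have h4 := h2 q hq h3.2
    omega
  rw [e1, e2, mul_one]

end Pool.Agent.M20.Helper44
end

/- Helper53.KN.Helper64.QRH.Vdc -/
section
/-! QRH-B1: van der Corput's second derivative test (project QRH, MP_768c9c_nt). -/

set_option autoImplicit false
open Filter Topology
open scoped Classical

namespace Pool.Agent.M20.Helper64.QRH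

open Pool.Agent.M20.Helper10.QRH

/-! ### the exponential -/

theorem ee_add (x y : ℝ) : ee (x + y) = ee x * ee y := by
  unfold ee
  rw [← Complex.exp_add]
  congr 1
  push_cast
  ring

theorem ee_eq (x : ℝ) : ee x = (Real.cos (2 * Real.pi * x) : ℂ) +
    (Real.sin (2 * Real.pi * x) : ℂ) * Complex.I := by
  unfold ee
  have : (2 * (Real.pi : ℂ) * (x : ℂ) * Complex.I) = ((2 * Real.pi * x : ℝ) : ℂ) * Complex.I := by
    push_cast; ring
  rw [this, Complex.exp_mul_I, Complex.ofReal_cos, Complex.ofReal_sin]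

theorem norm_ee (x : ℝ) : ‖ee x‖ = 1 := by
  unfold ee
  have : (2 * (Real.pi : ℂ) * (x : ℂ) * Complex.I) = ((2 * Real.pi * x : ℝ) : ℂ) * Complex.I := by
    push_cast; ring
  rw [this, Complex.norm_exp_ofReal_mul_I]

theorem ee_sub_int (x : ℝ) (m : ℤ) : ee (x - m) = ee x := by
  rw [ee_eq, ee_eq]
  have h : 2 * Real.pi * (x - m) = 2 * Real.pi * x - m * (2 * Real.pi) := by ring
  rw [h, Real.cos_sub_int_mul_two_pi, Real.sin_sub_int_mul_two_pi]

/-- cotangent of `π x` -/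
noncomputable def ct (x : ℝ) : ℝ := Real.cos (Real.pi * x) / Real.sin (Real.pi * x)

/-- `1/(1 - e(x))` -/
noncomputable def gg (x : ℝ) : ℂ := 1 / 2 + (ct x / 2 : ℝ) * Complex.I

theorem sin_lower {D x : ℝ} (hD : 0 < D) (h1 : D ≤ x) (h2 : x ≤ 1 - D) :
    2 * D ≤ Real.sin (Real.pi * x) := by
  have hpi := Real.pi_pos
  rcases le_total x (1/2) with h | h
  · have := Real.mul_le_sin (x := Real.pi * x) (mul_nonneg hpi.le (by (clear * - hD h1; linarith))) (by (clear * - hD h1 h2 hpi h; nlinarith))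
    have h3 : 2 / Real.pi * (Real.pi * x) = 2 * x := by field_simp
    rw [h3] at this
    (clear * - h1 this; linarith)
  · have := Real.mul_le_sin (x := Real.pi * (1 - x)) (by (clear * - hD hpi h2; nlinarith)) (by nlinarith)
    have h3 : 2 / Real.pi * (Real.pi * (1 - x)) = 2 * (1 - x) := by (clear * -; field_simp)
    rw [h3] at this
    have h4 : Real.sin (Real.pi * (1 - x)) = Real.sin (Real.pi * x) := by
      rw [show Real.pi * (1 - x) = Real.pi - Real.pi * x by ring, Real.sin_pi_sub]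
    (clear * - h2 this h4; linarith)

theorem gg_mul {x : ℝ} (h : Real.sin (Real.pi * x) ≠ 0) : (1 - ee x) * gg x = 1 := by
  rw [ee_eq]
  unfold gg ct
  have h2 : 2 * Real.pi * x = 2 * (Real.pi * x) := by ring
  rw [h2, Real.cos_two_mul, Real.sin_two_mul]
  have hs : ((Real.sin (Real.pi * x) : ℝ) : ℂ) ≠ 0 := by exact_mod_cast h
  have hc := Real.sin_sq_add_cos_sq (Real.pi * x)
  have hcc : ((Real.sin (Real.pi * x) : ℝ) : ℂ) ^ 2 + ((Real.cos (Real.pi * x) : ℝ) : ℂ) ^ 2 = 1 := by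
    exact_mod_cast hc
  push_cast [-Complex.ofReal_sin, -Complex.ofReal_cos]
  field_simp
  generalize ((Real.sin (Real.pi * x) : ℝ) : ℂ) = s at hcc ⊢
  generalize ((Real.cos (Real.pi * x) : ℝ) : ℂ) = c at hcc ⊢
  linear_combination (-(2 * Complex.I * c)) * hcc + (-2 * s * c ^ 2) * Complex.I_sq

theorem ct_sub {x y : ℝ} (hx : Real.sin (Real.pi * x) ≠ 0) (hy : Real.sin (Real.pi * y) ≠ 0) :
    ct x - ct y = Real.sin (Real.pi * (y - x)) / (Real.sin (Real.pi * x) * Real.sin (Real.pi * y)) := by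
  unfold ct
  rw [show Real.pi * (y - x) = Real.pi * y - Real.pi * x by ring, Real.sin_sub]
  field_simp

theorem ct_anti {D x y : ℝ} (hD : 0 < D) (h1 : D ≤ x) (hxy : x ≤ y) (h2 : y ≤ 1 - D) :
    ct y ≤ ct x := by
  have hx := sin_lower hD h1 (hxy.trans h2)
  have hy := sin_lower hD (h1.trans hxy) h2
  have h := ct_sub (x := x) (y := y) (by linarith) (by (clear * - hD hy; linarith))
  have hpi := Real.pi_pos
  have h3 : 0 ≤ Real.sin (Real.pi * (y - x)) :=
    Real.sin_nonneg_of_nonneg_of_le_pi (by (clear * - hxy hpi; nlinarith)) (by (clear * - hD hpi h1 h2; nlinarith))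
  have : 0 ≤ ct x - ct y := by
    rw [h]
    apply div_nonneg h3
    apply mul_nonneg <;> linarith
  linarith

theorem abs_ct_le {D x : ℝ} (hD : 0 < D) (h1 : D ≤ x) (h2 : x ≤ 1 - D) :
    |ct x| ≤ 1 / (2 * D) := by
  have hx := sin_lower hD h1 h2
  unfold ct
  rw [abs_div, abs_of_pos (show 0 < Real.sin (Real.pi * x) by linarith)]
  exact div_le_div₀ zero_le_one (Real.abs_cos_le_one _) (by (clear * - hD; linarith)) hx

theorem norm_gg_le {D x : ℝ} (hD : 0 < D) (hD2 : D ≤ 1/2) (h1 : D ≤ x) (h2 : x ≤ 1 - D) :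
    ‖gg x‖ ≤ 3 / (4 * D) := by
  have h := abs_ct_le hD h1 h2
  unfold gg
  calc ‖(1/2 : ℂ) + (ct x / 2 : ℝ) * Complex.I‖ ≤ ‖(1/2 : ℂ)‖ + ‖((ct x / 2 : ℝ) : ℂ) * Complex.I‖ :=
        norm_add_le _ _
    _ = 1/2 + |ct x| / 2 := by
        rw [norm_mul, Complex.norm_I, mul_one, Complex.norm_real, Real.norm_eq_abs, abs_div]
        norm_num
    _ ≤ 1/2 + (1 / (2 * D)) / 2 := by linarith
    _ ≤ 3 / (4 * D) := by
        rw [div_add_div _ _ (by norm_num) (by norm_num), div_le_div_iff₀ (by norm_num) (by positivity)]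
        have : 1 / (2 * D) * D = 1/2 := by field_simp
        (clear * - hD hD2 this; nlinarith)

theorem norm_gg_sub {x y : ℝ} : ‖gg x - gg y‖ = |ct x - ct y| / 2 := by
  unfold gg
  have : (1 / 2 + ((ct x / 2 : ℝ) : ℂ) * Complex.I) - (1 / 2 + ((ct y / 2 : ℝ) : ℂ) * Complex.I)
      = (((ct x - ct y) / 2 : ℝ) : ℂ) * Complex.I := by
    push_cast; ring
  rw [this, norm_mul, Complex.norm_I, mul_one, Complex.norm_real, Real.norm_eq_abs, abs_div]
  norm_num

/-! ### Kusmin–Landau -/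

theorem KL_aux {D : ℝ} (hD : 0 < D) (z : ℕ → ℂ) (x : ℕ → ℝ) (N : ℕ)
    (hz : ∀ n, ‖z n‖ ≤ 1) (hx : ∀ n ≤ N, D ≤ x n ∧ x n ≤ 1 - D)
    (hm : ∀ n < N, x n ≤ x (n + 1)) (hs : ∀ n ≤ N, z (n + 1) = z n * ee (x n)) :
    ‖∑ n ∈ Finset.range (N + 1), z n - (gg (x 0) * z 0 - gg (x N) * z (N + 1))‖ ≤
      (ct (x 0) - ct (x N)) / 2 := by
  have hg : ∀ n ≤ N, z n = (z n - z (n + 1)) * gg (x n) := by
    intro n hn
    have h := gg_mul (x := x n) (by
      have := sin_lower hD (hx n hn).1 (hx n hn).2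
      (clear * - hD this; linarith))
    rw [hs n hn]
    calc z n = z n * 1 := by ring
      _ = z n * ((1 - ee (x n)) * gg (x n)) := by rw [h]
      _ = _ := by ring
  induction N with
  | zero =>
    have h0 := hg 0 le_rfl
    have : ∑ n ∈ Finset.range (0 + 1), z n - (gg (x 0) * z 0 - gg (x 0) * z (0 + 1)) = 0 := by
      rw [Finset.sum_range_one]
      nth_rewrite 1 [h0]
      ring
    rw [this]
    simp
  | succ N ih =>
    have ih' := ih (fun n hn => hx n (by omega)) (fun n hn => hm n (by omega))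
      (fun n hn => hs n (by omega)) (fun n hn => hg n (by omega))
    rw [Finset.sum_range_succ]
    have h0 := hg (N + 1) le_rfl
    have key : ∑ n ∈ Finset.range (N + 1), z n + z (N + 1) -
        (gg (x 0) * z 0 - gg (x (N + 1)) * z (N + 1 + 1)) =
        (∑ n ∈ Finset.range (N + 1), z n - (gg (x 0) * z 0 - gg (x N) * z (N + 1))) +
        z (N + 1) * (gg (x (N + 1)) - gg (x N)) := by
      have : z (N + 1) + gg (x (N + 1)) * z (N + 1 + 1) = z (N + 1) * gg (x (N + 1)) := by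
        nth_rewrite 1 [h0]
        ring
      linear_combination this
    rw [key]
    refine (norm_add_le _ _).trans ?_
    have h1 : ‖z (N + 1) * (gg (x (N + 1)) - gg (x N))‖ ≤ (ct (x N) - ct (x (N + 1))) / 2 := by
      rw [norm_mul, norm_gg_sub]
      have ha := ct_anti hD (hx N (by omega)).1 (hm N (by omega)) (hx (N + 1) le_rfl).2
      rw [abs_sub_comm, abs_of_nonneg (by (clear * - ha; linarith) : 0 ≤ ct (x N) - ct (x (N + 1)))]
      have := hz (N + 1)
      (clear * - ha this; nlinarith [norm_nonneg (z (N + 1))])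
    linarith

theorem KL {D : ℝ} (hD : 0 < D) (hD2 : D ≤ 1/2) (z : ℕ → ℂ) (x : ℕ → ℝ) (N : ℕ)
    (hz : ∀ n, ‖z n‖ ≤ 1) (hx : ∀ n ≤ N, D ≤ x n ∧ x n ≤ 1 - D)
    (hm : ∀ n < N, x n ≤ x (n + 1)) (hs : ∀ n ≤ N, z (n + 1) = z n * ee (x n)) :
    ‖∑ n ∈ Finset.range (N + 1), z n‖ ≤ 2 / D := by
  have h := KL_aux hD z x N hz hx hm hs
  have h1 := norm_gg_le hD hD2 (hx 0 (by omega)).1 (hx 0 (by omega)).2
  have h2 := norm_gg_le hD hD2 (hx N le_rfl).1 (hx N le_rfl).2
  have h3 := abs_ct_le hD (hx 0 (by omega)).1 (hx 0 (by omega)).2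
  have h4 := abs_ct_le hD (hx N le_rfl).1 (hx N le_rfl).2
  have e : ∑ n ∈ Finset.range (N + 1), z n =
      (∑ n ∈ Finset.range (N + 1), z n - (gg (x 0) * z 0 - gg (x N) * z (N + 1))) +
      (gg (x 0) * z 0 - gg (x N) * z (N + 1)) := by ring
  rw [e]
  refine (norm_add_le _ _).trans ?_
  have h5 : ‖gg (x 0) * z 0 - gg (x N) * z (N + 1)‖ ≤ 3 / (4 * D) + 3 / (4 * D) := by
    refine (norm_sub_le _ _).trans (add_le_add ?_ ?_)
    · rw [norm_mul]
      calc ‖gg (x 0)‖ * ‖z 0‖ ≤ ‖gg (x 0)‖ * 1 :=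
            mul_le_mul_of_nonneg_left (hz 0) (norm_nonneg _)
        _ ≤ _ := by (clear * - h1; linarith)
    · rw [norm_mul]
      calc ‖gg (x N)‖ * ‖z (N + 1)‖ ≤ ‖gg (x N)‖ * 1 :=
            mul_le_mul_of_nonneg_left (hz _) (norm_nonneg _)
        _ ≤ _ := by (clear * - h2; linarith)
  have h6 : (ct (x 0) - ct (x N)) / 2 ≤ 1 / (2 * D) := by
    have := abs_le.1 h3
    have := abs_le.1 h4
    linarith
  calc _ ≤ 1 / (2 * D) + (3 / (4 * D) + 3 / (4 * D)) := by linarith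
    _ = 2 / D := by field_simp; norm_num

/-! ### the second derivative test for sequences -/

section seq

variable {z : ℕ → ℂ} {δ : ℕ → ℝ} {N : ℕ} {lam A : ℝ}

theorem delta_diff (h1 : ∀ n, n + 1 < N → lam ≤ δ (n + 1) - δ n) :
    ∀ k p : ℕ, p + k < N → k * lam ≤ δ (p + k) - δ p := by
  intro k
  induction k with
  | zero => intro p _; simp
  | succ k ih =>
    intro p hp
    have h2 := ih p (by omega)
    have h3 := h1 (p + k) (by omega)
    rw [← add_assoc]
    push_cast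
    nlinarith

theorem delta_diff_up (h1 : ∀ n, n + 1 < N → δ (n + 1) - δ n ≤ A * lam) :
    ∀ k p : ℕ, p + k < N → δ (p + k) - δ p ≤ k * (A * lam) := by
  intro k
  induction k with
  | zero => intro p _; simp
  | succ k ih =>
    intro p hp
    have h2 := ih p (by omega)
    have h3 := h1 (p + k) (by omega)
    rw [← add_assoc]
    push_cast
    (clear * - h2 h3; nlinarith)

theorem delta_mono (hl : 0 < lam) (h1 : ∀ n, n + 1 < N → lam ≤ δ (n + 1) - δ n) {p q : ℕ}
    (hpq : p ≤ q) (hq : q < N) : δ p ≤ δ q := by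
  obtain ⟨k, rfl⟩ := Nat.exists_eq_add_of_le hpq
  have := delta_diff h1 k p hq
  have h2 : (0 : ℝ) ≤ k * lam := by positivity
  (clear * - this h2; linarith)

theorem count_le (hl : 0 < lam) (h1 : ∀ n, n + 1 < N → lam ≤ δ (n + 1) - δ n) (T : Finset ℕ)
    (hT : T ⊆ Finset.range N) {u D : ℝ} (hD : 0 ≤ D) (hu : ∀ n ∈ T, u ≤ δ n ∧ δ n ≤ u + D) :
    (T.card : ℝ) ≤ D / lam + 1 := by
  rcases T.eq_empty_or_nonempty with h | h
  · rw [h]; simp; (clear * - hD hl; positivity)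
  · have hp := T.min'_mem h
    have hq := T.max'_mem h
    have hpq : T.min' h ≤ T.max' h := T.min'_le _ hq
    obtain ⟨k, hk⟩ := Nat.exists_eq_add_of_le hpq
    have hqN : T.max' h < N := Finset.mem_range.1 (hT hq)
    have h3 := delta_diff h1 k (T.min' h) (by omega)
    rw [← hk] at h3
    have h4 : T.card ≤ k + 1 := by
      have : T ⊆ Finset.Icc (T.min' h) (T.max' h) := fun n hn =>
        Finset.mem_Icc.2 ⟨T.min'_le _ hn, T.le_max' _ hn⟩
      have h5 := Finset.card_le_card this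
      rw [Nat.card_Icc] at h5
      omega
    have h5 : (T.card : ℝ) ≤ k + 1 := by exact_mod_cast h4
    have h6 : (k : ℝ) ≤ D / lam := by
      rw [le_div_iff₀ hl]
      (clear * - h3 hu hp hq; linarith [(hu _ hp).1, (hu _ hq).2])
    (clear * - h5 h6; linarith)

theorem mid_le (hl : 0 < lam) (hz : ∀ n, ‖z n‖ ≤ 1) (hs : ∀ n < N, z (n + 1) = z n * ee (δ n))
    (h1 : ∀ n, n + 1 < N → lam ≤ δ (n + 1) - δ n) {D : ℝ} (hD : 0 < D) (hD2 : D ≤ 1/2) (m : ℤ) :
    ‖∑ n ∈ (Finset.range N).filter (fun n => (m : ℝ) + D ≤ δ n ∧ δ n ≤ m + 1 - D), z n‖ ≤ 2 / D := by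
  set T := (Finset.range N).filter (fun n => (m : ℝ) + D ≤ δ n ∧ δ n ≤ m + 1 - D) with hT
  rcases T.eq_empty_or_nonempty with h | h
  · rw [h]; simp; positivity
  · have hp := T.min'_mem h
    have hq := T.max'_mem h
    set p := T.min' h with hpdef
    set q := T.max' h with hqdef
    have hpq : p ≤ q := T.min'_le _ hq
    have hpm := (Finset.mem_filter.1 hp)
    have hqm := (Finset.mem_filter.1 hq)
    have hqN : q < N := Finset.mem_range.1 hqm.1
    obtain ⟨k, hk⟩ := Nat.exists_eq_add_of_le hpq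
    have hTI : T = Finset.Icc p q := by
      ext n
      constructor
      · intro hn
        exact Finset.mem_Icc.2 ⟨T.min'_le _ hn, T.le_max' _ hn⟩
      · intro hn
        rw [Finset.mem_Icc] at hn
        rw [hT, Finset.mem_filter]
        refine ⟨Finset.mem_range.2 (by omega), ?_, ?_⟩
        · exact hpm.2.1.trans (delta_mono hl h1 hn.1 (by omega))
        · exact (delta_mono hl h1 hn.2 hqN).trans hqm.2.2
    have hsum : ∑ n ∈ T, z n = ∑ i ∈ Finset.range (k + 1), z (p + i) := by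
      rw [hTI, hk]
      rw [← Finset.Ico_add_one_right_eq_Icc, Finset.sum_Ico_eq_sum_range]
      congr 1
      congr 1
      omega
    rw [hsum]
    refine KL hD hD2 (fun i => z (p + i)) (fun i => δ (p + i) - m) k (fun n => hz _) ?_ ?_ ?_
    · intro i hi
      have : p + i ∈ T := by
        rw [hTI, Finset.mem_Icc]; omega
      have := (Finset.mem_filter.1 this).2
      constructor <;> (clear * - this; linarith [this.1, this.2])
    · intro i hi
      have := h1 (p + i) (by omega)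
      have e : p + (i + 1) = p + i + 1 := by ring
      simp only [e]
      (clear * - hl this; linarith)
    · intro i hi
      have := hs (p + i) (by omega)
      have e : p + (i + 1) = p + i + 1 := by ring
      simp only [e]
      rw [this, ee_sub_int]

theorem class_le (hl : 0 < lam) (hz : ∀ n, ‖z n‖ ≤ 1) (hs : ∀ n < N, z (n + 1) = z n * ee (δ n))
    (h1 : ∀ n, n + 1 < N → lam ≤ δ (n + 1) - δ n) {D : ℝ} (hD : 0 < D) (hD2 : D ≤ 1/4) (m : ℤ) :
    ‖∑ n ∈ (Finset.range N).filter (fun n => ⌊δ n⌋ = m), z n‖ ≤ 2 / D + 2 * (D / lam + 1) := by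
  set T := (Finset.range N).filter (fun n => ⌊δ n⌋ = m) with hT
  set T1 := (Finset.range N).filter (fun n => (m : ℝ) + D ≤ δ n ∧ δ n ≤ m + 1 - D) with hT1
  set T2 := (Finset.range N).filter (fun n => (m : ℝ) ≤ δ n ∧ δ n < m + D) with hT2
  set T3 := (Finset.range N).filter (fun n => (m : ℝ) + 1 - D < δ n ∧ δ n < m + 1) with hT3
  have d12 : Disjoint T1 T2 := by
    rw [Finset.disjoint_left]
    intro n h h'
    have h1' := (Finset.mem_filter.1 h).2
    have h2' := (Finset.mem_filter.1 h').2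
    (clear * - h1' h2'; linarith [h1'.1, h2'.2])
  have d3 : Disjoint (T1 ∪ T2) T3 := by
    rw [Finset.disjoint_left]
    intro n h h'
    have h2' := (Finset.mem_filter.1 h').2
    rcases Finset.mem_union.1 h with h | h
    · have h1' := (Finset.mem_filter.1 h).2
      (clear * - h2' h1'; linarith [h1'.2, h2'.1])
    · have h1' := (Finset.mem_filter.1 h).2
      linarith [h1'.2, h2'.1]
  have hU : T = (T1 ∪ T2) ∪ T3 := by
    ext n
    rw [Finset.mem_union, Finset.mem_union, hT, hT1, hT2, hT3]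
    simp only [Finset.mem_filter, Finset.mem_range, Int.floor_eq_iff]
    constructor
    · rintro ⟨hn, ha, hb⟩
      rcases lt_or_ge (δ n) (m + D) with h | h
      · exact Or.inl (Or.inr ⟨hn, ha, h⟩)
      · rcases le_or_gt (δ n) (m + 1 - D) with h' | h'
        · exact Or.inl (Or.inl ⟨hn, h, h'⟩)
        · exact Or.inr ⟨hn, h', hb⟩
    · rintro ((⟨hn, ha, hb⟩ | ⟨hn, ha, hb⟩) | ⟨hn, ha, hb⟩)
      · exact ⟨hn, by (clear * - hD ha; linarith), by (clear * - hD hb; linarith)⟩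
      · exact ⟨hn, by (clear * - ha; linarith), by (clear * - hD hD2 hb; linarith)⟩
      · exact ⟨hn, by linarith, by linarith⟩
  rw [hU, Finset.sum_union d3, Finset.sum_union d12]
  have b1 := mid_le hl hz hs h1 hD (by linarith) m
  rw [← hT1] at b1
  have triv : ∀ S : Finset ℕ, ‖∑ n ∈ S, z n‖ ≤ S.card := by
    intro S
    refine (norm_sum_le _ _).trans ?_
    refine (Finset.sum_le_sum (fun n _ => hz n)).trans ?_
    simp
  have b2 : ‖∑ n ∈ T2, z n‖ ≤ D / lam + 1 := by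
    refine (triv T2).trans ?_
    refine count_le hl h1 T2 (Finset.filter_subset _ _) (u := m) (D := D) hD.le ?_
    intro n hn
    have := (Finset.mem_filter.1 hn).2
    exact ⟨this.1, this.2.le⟩
  have b3 : ‖∑ n ∈ T3, z n‖ ≤ D / lam + 1 := by
    refine (triv T3).trans ?_
    refine count_le hl h1 T3 (Finset.filter_subset _ _) (u := m + 1 - D) (D := D) hD.le ?_
    intro n hn
    have := (Finset.mem_filter.1 hn).2
    exact ⟨this.1.le, by (clear * - this; linarith [this.2])⟩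
  calc _ ≤ ‖∑ n ∈ T1, z n‖ + ‖∑ n ∈ T2, z n‖ + ‖∑ n ∈ T3, z n‖ := norm_add₃_le
    _ ≤ _ := by linarith

theorem seq_bound (hl : 0 < lam) (hA : 1 ≤ A) (hz : ∀ n, ‖z n‖ ≤ 1)
    (hs : ∀ n < N, z (n + 1) = z n * ee (δ n))
    (h1 : ∀ n, n + 1 < N → lam ≤ δ (n + 1) - δ n)
    (h2 : ∀ n, n + 1 < N → δ (n + 1) - δ n ≤ A * lam) (hlam : Real.sqrt lam ≤ 1/4) :
    ‖∑ n ∈ Finset.range N, z n‖ ≤ (A * lam * N + 2) * (5 / Real.sqrt lam) := by
  have hr : 0 < Real.sqrt lam := Real.sqrt_pos.2 hl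
  rcases Nat.eq_zero_or_pos N with hN | hN
  · subst hN
    simp
    positivity
  set K := (Finset.range N).image (fun n => ⌊δ n⌋) with hK
  have hsum : ∑ n ∈ Finset.range N, z n =
      ∑ m ∈ K, ∑ n ∈ (Finset.range N).filter (fun n => ⌊δ n⌋ = m), z n := by
    rw [Finset.sum_fiberwise_of_maps_to]
    intro n hn
    exact Finset.mem_image_of_mem _ hn
  have hcard : (K.card : ℝ) ≤ A * lam * N + 2 := by
    have hsub : K ⊆ Finset.Icc ⌊δ 0⌋ ⌊δ (N - 1)⌋ := by
      intro m hm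
      obtain ⟨n, hn, rfl⟩ := Finset.mem_image.1 hm
      have hn' := Finset.mem_range.1 hn
      rw [Finset.mem_Icc]
      exact ⟨Int.floor_le_floor (delta_mono hl h1 (Nat.zero_le n) hn'),
        Int.floor_le_floor (delta_mono hl h1 (by omega) (by omega))⟩
    have h3 := Finset.card_le_card hsub
    rw [Int.card_Icc] at h3
    have h01 : ⌊δ 0⌋ ≤ ⌊δ (N - 1)⌋ :=
      Int.floor_le_floor (delta_mono hl h1 (Nat.zero_le _) (by omega))
    have h4 : (K.card : ℤ) ≤ ⌊δ (N - 1)⌋ + 1 - ⌊δ 0⌋ := by omega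
    have h5 : (K.card : ℝ) ≤ ⌊δ (N - 1)⌋ + 1 - ⌊δ 0⌋ := by exact_mod_cast h4
    have h6 := delta_diff_up h2 (N - 1) 0 (by omega)
    rw [zero_add] at h6
    have h7 := Int.floor_le (δ (N - 1))
    have h8 := Int.sub_one_lt_floor (δ 0)
    have h9 : ((N - 1 : ℕ) : ℝ) * (A * lam) ≤ A * lam * N := by
      rw [mul_comm]
      apply mul_le_mul_of_nonneg_left _ (by positivity)
      exact_mod_cast Nat.sub_le N 1
    (clear * - h5 h6 h7 h8 h9; linarith)
  rw [hsum]
  refine (norm_sum_le _ _).trans ?_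
  have hc : ∀ m ∈ K, ‖∑ n ∈ (Finset.range N).filter (fun n => ⌊δ n⌋ = m), z n‖ ≤
      5 / Real.sqrt lam := by
    intro m _
    refine (class_le hl hz hs h1 hr hlam m).trans ?_
    have e1 : Real.sqrt lam / lam = 1 / Real.sqrt lam := by
      rw [div_eq_div_iff hl.ne' hr.ne', Real.mul_self_sqrt hl.le, one_mul]
    rw [e1]
    have : 4 ≤ 1 / Real.sqrt lam := by
      rw [le_div_iff₀ hr]; (clear * - hlam; linarith)
    have e2 : 5 / Real.sqrt lam = 2 / Real.sqrt lam + 3 * (1 / Real.sqrt lam) := by ring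
    rw [e2]
    (clear * - hlam hr this; linarith)
  refine (Finset.sum_le_card_nsmul _ _ _ hc).trans ?_
  rw [nsmul_eq_mul]
  exact mul_le_mul_of_nonneg_right hcard (by positivity)

end seq

/-! ### the test -/

end Pool.Agent.M20.Helper64.QRH
end

/- Helper53.KN.Helper67.KSZ.Weyl -/
section
/-! KSZ (MP_768c9c_nt): van der Corput's inequality (Weyl differencing). -/

set_option autoImplicit false
open scoped ComplexConjugate

namespace Pool.Agent.M20.Helper67.KSZ

/-- truncation of a sequence -/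
noncomputable def trunc (z : ℕ → ℂ) (N : ℕ) (n : ℕ) : ℂ := if n < N then z n else 0

/-- shifted truncation -/
noncomputable def shifted (z : ℕ → ℂ) (N j m : ℕ) : ℂ := if j ≤ m then trunc z N (m - j) else 0

theorem sum_shift (F : ℕ → ℂ) (N M j : ℕ) (hF : ∀ n, N ≤ n → F n = 0) (hM : j + N ≤ M) :
    ∑ m ∈ Finset.range M, (if j ≤ m then F (m - j) else 0) = ∑ n ∈ Finset.range N, F n := by
  obtain ⟨d, rfl⟩ := Nat.exists_eq_add_of_le hM
  rw [add_assoc, Finset.sum_range_add]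
  have h1 : ∑ x ∈ Finset.range j, (if j ≤ x then F (x - j) else 0) = 0 := by
    apply Finset.sum_eq_zero
    intro x hx
    rw [if_neg (by rw [Finset.mem_range] at hx; omega)]
  have h2 : ∑ x ∈ Finset.range (N + d), (if j ≤ j + x then F (j + x - j) else 0) =
      ∑ x ∈ Finset.range (N + d), F x := by
    apply Finset.sum_congr rfl
    intro x _
    rw [if_pos (by omega), Nat.add_sub_cancel_left]
  rw [h1, h2, zero_add, Finset.sum_range_add]
  have h3 : ∑ x ∈ Finset.range d, F (N + x) = 0 :=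
    Finset.sum_eq_zero (fun x _ => hF _ (by omega))
  rw [h3, add_zero]

theorem sum_shifted (z : ℕ → ℂ) (N H j : ℕ) (hj : j < H) :
    ∑ m ∈ Finset.range (N + H), shifted z N j m = ∑ n ∈ Finset.range N, z n := by
  unfold shifted
  rw [sum_shift (trunc z N) N (N + H) j (fun n hn => by rw [trunc, if_neg (by omega)]) (by omega)]
  apply Finset.sum_congr rfl
  intro n hn
  rw [trunc, if_pos (Finset.mem_range.1 hn)]

/-- correlation -/
noncomputable def corr (z : ℕ → ℂ) (N r : ℕ) : ℂ :=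
  ∑ n ∈ Finset.range (N - r), z (n + r) * conj (z n)

theorem sum_prod (z : ℕ → ℂ) (N H j r : ℕ) (hj : j + r < H) :
    ∑ m ∈ Finset.range (N + H), shifted z N j m * conj (shifted z N (j + r) m) =
      corr z N r := by
  have h1 : ∀ m, shifted z N j m * conj (shifted z N (j + r) m) =
      if j + r ≤ m then (fun n => trunc z N (n + r) * conj (trunc z N n)) (m - (j + r)) else 0 := by
    intro m
    unfold shifted
    by_cases h : j + r ≤ m
    · rw [if_pos (by omega), if_pos h, if_pos h]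
      have e : m - j = m - (j + r) + r := by omega
      rw [e]
    · rw [if_neg h, if_neg h]; simp
  rw [Finset.sum_congr rfl (fun m _ => h1 m)]
  rw [sum_shift (fun n => trunc z N (n + r) * conj (trunc z N n)) (N - r) (N + H) (j + r) ?_
    (by omega)]
  · unfold corr
    apply Finset.sum_congr rfl
    intro n hn
    have := Finset.mem_range.1 hn
    simp only [trunc]
    rw [if_pos (by omega), if_pos (by omega)]
  · intro n hn
    simp only [trunc]
    rw [if_neg (by omega), zero_mul]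

theorem norm_sum_prod (z : ℕ → ℂ) (N H j j' : ℕ) (hj : j < H) (hj' : j' < H) :
    ‖∑ m ∈ Finset.range (N + H), shifted z N j m * conj (shifted z N j' m)‖ =
      ‖corr z N (Nat.dist j j')‖ := by
  rcases le_total j j' with h | h
  · obtain ⟨r, rfl⟩ := Nat.exists_eq_add_of_le h
    rw [sum_prod z N H j r hj', Nat.dist_eq_sub_of_le h, Nat.add_sub_cancel_left]
  · obtain ⟨r, rfl⟩ := Nat.exists_eq_add_of_le h
    rw [Nat.dist_comm, Nat.dist_eq_sub_of_le h, Nat.add_sub_cancel_left,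
      ← sum_prod z N H j' r hj, ← RCLike.norm_conj, map_sum]
    congr 1
    apply Finset.sum_congr rfl
    intro m _
    rw [map_mul, Complex.conj_conj, mul_comm]

theorem sum_dist_le (τ : ℕ → ℝ) (hτ : ∀ r, 0 ≤ τ r) (H j : ℕ) (hj : j < H) :
    ∑ j' ∈ Finset.range H, τ (Nat.dist j j') ≤
      τ 0 + 2 * ∑ x ∈ Finset.range (H - 1), τ (x + 1) := by
  obtain ⟨d, rfl⟩ := Nat.exists_eq_add_of_lt hj
  have e : j + d + 1 = j + (1 + d) := by ring
  rw [e, Finset.sum_range_add, Finset.sum_range_add]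
  have h1 : ∑ x ∈ Finset.range j, τ (Nat.dist j x) = ∑ x ∈ Finset.range j, τ (x + 1) := by
    rw [← Finset.sum_range_reflect]
    apply Finset.sum_congr rfl
    intro x hx
    have := Finset.mem_range.1 hx
    rw [Nat.dist_comm, Nat.dist_eq_sub_of_le (by omega)]
    congr 1
    omega
  have h2 : ∑ x ∈ Finset.range d, τ (Nat.dist j (j + (1 + x))) =
      ∑ x ∈ Finset.range d, τ (x + 1) := by
    apply Finset.sum_congr rfl
    intro x hx
    rw [Nat.dist_eq_sub_of_le (by omega)]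
    congr 1
    omega
  rw [h1, h2]
  simp only [Finset.sum_range_one, add_zero, Nat.dist_self]
  have h3 : ∑ x ∈ Finset.range j, τ (x + 1) ≤ ∑ x ∈ Finset.range (j + (1 + d) - 1), τ (x + 1) :=
    Finset.sum_le_sum_of_subset_of_nonneg (Finset.range_subset_range.2 (by omega))
      (fun _ _ _ => hτ _)
  have h4 : ∑ x ∈ Finset.range d, τ (x + 1) ≤ ∑ x ∈ Finset.range (j + (1 + d) - 1), τ (x + 1) :=
    Finset.sum_le_sum_of_subset_of_nonneg (Finset.range_subset_range.2 (by omega))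
      (fun _ _ _ => hτ _)
  linarith

theorem weyl_vdc (z : ℕ → ℂ) (N H : ℕ) (hH : 1 ≤ H) :
    ‖∑ n ∈ Finset.range N, z n‖ ^ 2 * H ≤ (N + H : ℕ) *
      (‖corr z N 0‖ + 2 * ∑ x ∈ Finset.range (H - 1), ‖corr z N (x + 1)‖) := by
  set S := ∑ n ∈ Finset.range N, z n with hS
  have hH' : (0 : ℝ) < H := by exact_mod_cast hH
  have h1 : (H : ℂ) * S = ∑ m ∈ Finset.range (N + H), ∑ j ∈ Finset.range H, shifted z N j m := by
    rw [Finset.sum_comm, Finset.sum_congr rfl (fun j hj => sum_shifted z N H j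
      (Finset.mem_range.1 hj))]
    simp [hS]
  have h2 : (H * ‖S‖) ^ 2 ≤ (N + H : ℕ) *
      ∑ m ∈ Finset.range (N + H), ‖∑ j ∈ Finset.range H, shifted z N j m‖ ^ 2 := by
    have : (H : ℝ) * ‖S‖ = ‖(H : ℂ) * S‖ := by simp
    rw [this, h1]
    have h3 := sq_sum_le_card_mul_sum_sq (s := Finset.range (N + H))
      (f := fun m => ‖∑ j ∈ Finset.range H, shifted z N j m‖)
    rw [Finset.card_range] at h3
    refine le_trans ?_ h3
    exact pow_le_pow_left₀ (norm_nonneg _) (norm_sum_le _ _) 2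
  have h3 : ∑ m ∈ Finset.range (N + H), ‖∑ j ∈ Finset.range H, shifted z N j m‖ ^ 2 ≤
      ∑ j ∈ Finset.range H, ∑ j' ∈ Finset.range H, ‖corr z N (Nat.dist j j')‖ := by
    have h4 : ((∑ m ∈ Finset.range (N + H), ‖∑ j ∈ Finset.range H, shifted z N j m‖ ^ 2 : ℝ) : ℂ) =
        ∑ j ∈ Finset.range H, ∑ j' ∈ Finset.range H,
          ∑ m ∈ Finset.range (N + H), shifted z N j m * conj (shifted z N j' m) := by
      push_cast
      rw [Finset.sum_congr rfl (fun j _ => Finset.sum_comm), Finset.sum_comm]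
      apply Finset.sum_congr rfl
      intro m _
      rw [← Complex.mul_conj', map_sum, Finset.sum_mul_sum]
    have h5 : ∑ m ∈ Finset.range (N + H), ‖∑ j ∈ Finset.range H, shifted z N j m‖ ^ 2 =
        ‖((∑ m ∈ Finset.range (N + H), ‖∑ j ∈ Finset.range H, shifted z N j m‖ ^ 2 : ℝ) : ℂ)‖ := by
      rw [Complex.norm_real, Real.norm_of_nonneg]
      exact Finset.sum_nonneg (fun _ _ => by positivity)
    rw [h5, h4]
    refine (norm_sum_le _ _).trans (Finset.sum_le_sum (fun j hj => ?_))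
    refine (norm_sum_le _ _).trans (Finset.sum_le_sum (fun j' hj' => ?_))
    exact (norm_sum_prod z N H j j' (Finset.mem_range.1 hj) (Finset.mem_range.1 hj')).le
  have h4 : ∑ j ∈ Finset.range H, ∑ j' ∈ Finset.range H, ‖corr z N (Nat.dist j j')‖ ≤
      H * (‖corr z N 0‖ + 2 * ∑ x ∈ Finset.range (H - 1), ‖corr z N (x + 1)‖) := by
    have := Finset.sum_le_card_nsmul (Finset.range H)
      (fun j => ∑ j' ∈ Finset.range H, ‖corr z N (Nat.dist j j')‖)
      (‖corr z N 0‖ + 2 * ∑ x ∈ Finset.range (H - 1), ‖corr z N (x + 1)‖)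
      (fun j hj => sum_dist_le (fun r => ‖corr z N r‖) (fun _ => norm_nonneg _) H j
        (Finset.mem_range.1 hj))
    rwa [Finset.card_range, nsmul_eq_mul] at this
  have h5 : (H * ‖S‖) ^ 2 ≤ (N + H : ℕ) *
      (H * (‖corr z N 0‖ + 2 * ∑ x ∈ Finset.range (H - 1), ‖corr z N (x + 1)‖)) :=
    h2.trans (mul_le_mul_of_nonneg_left (h3.trans h4) (by positivity))
  have h6 : H * (‖S‖ ^ 2 * H) ≤ H * ((N + H : ℕ) *
      (‖corr z N 0‖ + 2 * ∑ x ∈ Finset.range (H - 1), ‖corr z N (x + 1)‖)) := by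
    calc H * (‖S‖ ^ 2 * H) = (H * ‖S‖) ^ 2 := by ring
      _ ≤ _ := h5
      _ = _ := by ring
  exact le_of_mul_le_mul_left h6 hH'

end Pool.Agent.M20.Helper67.KSZ
end

/- Helper53.KN.Helper67.KSZ.KTest -/
section
/-! KSZ (MP_768c9c_nt): the k-th derivative test for exponential sums, in a discrete form. -/

set_option autoImplicit false
set_option linter.all false
open scoped ComplexConjugate

namespace Pool.Agent.M20.Helper67.KSZ

open Pool.Agent.M20.Helper10.QRH (ee)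
open Pool.Agent.M20.Helper64.QRH (ee_add ee_eq norm_ee seq_bound)

/-- iterated forward differences -/
noncomputable def dk : ℕ → (ℕ → ℝ) → ℕ → ℝ
  | 0, f => f
  | k + 1, f => dk k (fun n => f (n + 1) - f n)

theorem dk_shift (k : ℕ) : ∀ (f : ℕ → ℝ) (r n : ℕ), dk k (fun n => f (n + r)) n = dk k f (n + r) := by
  induction k with
  | zero => intro f r n; rfl
  | succ k ih =>
    intro f r n
    show dk k (fun n => f (n + 1 + r) - f (n + r)) n = dk k (fun n => f (n + 1) - f n) (n + r)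
    rw [← ih (fun n => f (n + 1) - f n) r n]
    congr 1
    funext m
    have : m + 1 + r = m + r + 1 := by ring
    rw [this]

theorem dk_sub (k : ℕ) : ∀ (f g : ℕ → ℝ) (n : ℕ),
    dk k (fun n => f n - g n) n = dk k f n - dk k g n := by
  induction k with
  | zero => intro f g n; rfl
  | succ k ih =>
    intro f g n
    show dk k (fun n => (f (n + 1) - g (n + 1)) - (f n - g n)) n =
      dk k (fun n => f (n + 1) - f n) n - dk k (fun n => g (n + 1) - g n) n
    rw [← ih]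
    congr 1
    funext m
    ring

theorem dk_succ (k : ℕ) (f : ℕ → ℝ) (n : ℕ) : dk (k + 1) f n = dk k f (n + 1) - dk k f n := by
  show dk k (fun n => f (n + 1) - f n) n = _
  rw [dk_sub k (fun n => f (n + 1)) f n, dk_shift]

theorem dk_diff (k : ℕ) (f : ℕ → ℝ) (r n : ℕ) :
    dk k (fun n => f (n + r) - f n) n = ∑ j ∈ Finset.range r, dk (k + 1) f (n + j) := by
  rw [dk_sub k (fun n => f (n + r)) f n, dk_shift]
  have : ∀ j ∈ Finset.range r, dk (k + 1) f (n + j) =
      (fun j => dk k f (n + j)) (j + 1) - (fun j => dk k f (n + j)) j := by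
    intro j _
    rw [dk_succ]
    rfl
  rw [Finset.sum_congr rfl this, Finset.sum_range_sub (fun j => dk k f (n + j)) r]
  simp

/-- the k-th difference test -/
def KTest (k : ℕ) (α β C : ℝ) : Prop := ∀ (N : ℕ) (f : ℕ → ℝ) (lam A : ℝ), 0 < lam → 1 ≤ A →
  (∀ n, n + k ≤ N → lam ≤ dk k f n ∧ dk k f n ≤ A * lam) →
  ‖∑ n ∈ Finset.range N, ee (f n)‖ ≤
    C * A * (N * lam ^ α + (N : ℝ) ^ (1 - β) * lam ^ (-α))

theorem norm_sum_ee_le (N : ℕ) (f : ℕ → ℝ) : ‖∑ n ∈ Finset.range N, ee (f n)‖ ≤ N := by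
  refine (norm_sum_le _ _).trans ?_
  rw [Finset.sum_congr rfl (fun n _ => norm_ee (f n))]
  simp

theorem conj_ee (x : ℝ) : conj (ee x) = ee (-x) := by
  rw [ee_eq, ee_eq, map_add, map_mul, Complex.conj_ofReal, Complex.conj_ofReal, Complex.conj_I,
    mul_neg, mul_neg, Real.cos_neg, Real.sin_neg]
  push_cast
  ring

theorem corr_ee (f : ℕ → ℝ) (N r : ℕ) :
    corr (fun n => ee (f n)) N r = ∑ n ∈ Finset.range (N - r), ee (f (n + r) - f n) := by
  unfold corr
  apply Finset.sum_congr rfl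
  intro n _
  rw [conj_ee, ← ee_add, sub_eq_add_neg]

theorem ktest_two : KTest 2 (1 / 2) 1 10 := by
  intro N f lam A hl hA h
  rcases Nat.eq_zero_or_pos N with hN | hN
  · subst hN
    simp only [Finset.range_zero, Finset.sum_empty, norm_zero]
    (clear * - hA hl; positivity)
  have hN' : (1 : ℝ) ≤ N := by exact_mod_cast hN
  have hr : 0 < Real.sqrt lam := Real.sqrt_pos.2 hl
  rw [← Real.sqrt_eq_rpow, Real.rpow_neg hl.le, ← Real.sqrt_eq_rpow, sub_self, Real.rpow_zero,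
    one_mul]
  by_cases hs : Real.sqrt lam ≤ 1 / 4
  · have h1 := seq_bound (z := fun n => ee (f n)) (δ := fun n => f (n + 1) - f n) (N := N)
      (lam := lam) (A := A) hl hA (fun n => (norm_ee _).le)
      (fun n _ => by rw [← ee_add]; congr 1; ring)
      (fun n hn => (h n (by omega)).1) (fun n hn => (h n (by omega)).2) hs
    refine h1.trans ?_
    have e : A * lam * N * (5 / Real.sqrt lam) = 5 * A * N * Real.sqrt lam := by
      have : lam = Real.sqrt lam * Real.sqrt lam := (Real.mul_self_sqrt hl.le).symm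
      field_simp
      (clear * - this hl; nlinarith [Real.sq_sqrt hl.le])
    have h2 : (A * lam * N + 2) * (5 / Real.sqrt lam) =
        5 * A * N * Real.sqrt lam + 10 * (Real.sqrt lam)⁻¹ := by
      rw [add_mul, e]; ring
    rw [h2]
    have h3 : 0 < (Real.sqrt lam)⁻¹ := inv_pos.2 hr
    have h4 : 0 < A * N * Real.sqrt lam := by (clear * - hA hN hl; positivity)
    (clear * - h4 hA h3; nlinarith)
  · refine (norm_sum_ee_le N f).trans ?_
    push Not at hs
    have h3 : 0 < (Real.sqrt lam)⁻¹ := inv_pos.2 hr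
    have h4 : (N : ℝ) * (1 / 4) ≤ N * Real.sqrt lam := by (clear * - hs; nlinarith)
    have h5 : 0 ≤ N * Real.sqrt lam := by (clear * - hN hl; positivity)
    calc (N : ℝ) ≤ 10 * 1 * (N * Real.sqrt lam + 0) := by (clear * - hN' h4; linarith)
      _ ≤ 10 * A * (N * Real.sqrt lam + (Real.sqrt lam)⁻¹) := by gcongr

theorem sum_rpow_neg_le {α : ℝ} (h0 : 0 < α) (h1 : α ≤ 1 / 2) (n : ℕ) :
    ∑ x ∈ Finset.range n, ((x + 1 : ℕ) : ℝ) ^ (-α) ≤ 2 * (n : ℝ) ^ (1 - α) := by
  induction n with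
  | zero => simp; positivity
  | succ n ih =>
    rw [Finset.sum_range_succ]
    have hn : (0 : ℝ) < ((n + 1 : ℕ) : ℝ) := by (clear * -; positivity)
    have h2 : (n : ℝ) ^ (1 - α) ≤
        ((n + 1 : ℕ) : ℝ) ^ (1 - α) - (1 - α) * ((n + 1 : ℕ) : ℝ) ^ (-α) := by
      have e : (n : ℝ) = ((n + 1 : ℕ) : ℝ) * (1 + (-1 / ((n + 1 : ℕ) : ℝ))) := by
        rw [mul_add, mul_div_assoc', mul_one, mul_neg_one, neg_div, div_self hn.ne']
        push_cast; ring
      have hnn : (-1 : ℝ) ≤ -1 / ((n + 1 : ℕ) : ℝ) := by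
        rw [le_div_iff₀ hn]
        push_cast
        have : (0 : ℝ) ≤ n := Nat.cast_nonneg n
        (clear * -; linarith)
      have hb := rpow_one_add_le_one_add_mul_self hnn (p := 1 - α) (by (clear * - h0 h1; linarith)) (by (clear * - h0; linarith))
      calc (n : ℝ) ^ (1 - α) = (((n + 1 : ℕ) : ℝ) * (1 + (-1 / ((n + 1 : ℕ) : ℝ)))) ^ (1 - α) := by
            rw [← e]
        _ = ((n + 1 : ℕ) : ℝ) ^ (1 - α) * (1 + (-1 / ((n + 1 : ℕ) : ℝ))) ^ (1 - α) :=
            Real.mul_rpow hn.le (by (clear * - hnn; linarith))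
        _ ≤ ((n + 1 : ℕ) : ℝ) ^ (1 - α) * (1 + (1 - α) * (-1 / ((n + 1 : ℕ) : ℝ))) :=
            mul_le_mul_of_nonneg_left hb (by (clear * -; positivity))
        _ = ((n + 1 : ℕ) : ℝ) ^ (1 - α) - (1 - α) * (((n + 1 : ℕ) : ℝ) ^ (1 - α) /
              ((n + 1 : ℕ) : ℝ)) := by ring
        _ = _ := by
            congr 2
            rw [div_eq_mul_inv, ← Real.rpow_neg_one, ← Real.rpow_add hn]
            congr 1
            ring
    have h3 : 0 ≤ ((n + 1 : ℕ) : ℝ) ^ (-α) := by (clear * -; positivity)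
    (clear * - ih h2 h1 h3; nlinarith)

/-- the induction step -/
theorem ktest_succ {k : ℕ} {α β C : ℝ} (h0 : 0 < α) (h1 : α ≤ 1 / 2) (hβ : β ≤ 1)
    (hC : 0 ≤ C) (h : KTest k α β C) :
    KTest (k + 1) (α / (2 * (1 + α))) (β / 2) (4 * (1 + C)) := by
  intro N f lam A hl hA hd
  set α' : ℝ := α / (2 * (1 + α)) with hα'
  have hα'0 : 0 < α' := by positivity
  have hrel : (1 - 2 * α') * α = 2 * α' := by
    rw [hα']; field_simp; ring
  have hrel2 : 0 < 1 - 2 * α' := by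
    have : 1 - 2 * α' = 1 / (1 + α) := by rw [hα']; field_simp; ring
    rw [this]; (clear * - h0; positivity)
  rcases Nat.eq_zero_or_pos N with hN | hN
  · subst hN
    simp only [Finset.range_zero, Finset.sum_empty, norm_zero]
    (clear * - hC hA hl; positivity)
  have hN' : (1 : ℝ) ≤ N := by exact_mod_cast hN
  have hN0 : (0 : ℝ) < N := by (clear * - hα'0 hrel2 hN'; linarith)
  set S := ‖∑ n ∈ Finset.range N, ee (f n)‖ with hS
  have htriv : S ≤ N := norm_sum_ee_le N f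
  have hP1 : 0 ≤ N * lam ^ α' := by (clear * - hN hl; positivity)
  have hP2 : 0 ≤ (N : ℝ) ^ (1 - β / 2) * lam ^ (-α') := by positivity
  have hCA : 1 ≤ 4 * (1 + C) * A := by
    have h3 := mul_nonneg hC (zero_le_one.trans hA)
    (clear * - hA h3; linarith)
  -- trivial cases
  by_cases hlam1 : 1 ≤ lam
  · have h2 : 1 ≤ lam ^ α' := Real.one_le_rpow hlam1 hα'0.le
    have h3 : (N : ℝ) ≤ N * lam ^ α' := le_mul_of_one_le_right hN0.le h2
    exact (htriv.trans h3).trans ((le_add_of_nonneg_right hP2).trans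
      (le_mul_of_one_le_left (add_nonneg hP1 hP2) hCA))
  push Not at hlam1
  set H0 : ℝ := lam ^ (-(2 * α')) with hH0
  have hH0pos : 0 < H0 := by positivity
  have hH01 : 1 ≤ H0 := Real.one_le_rpow_of_pos_of_le_one_of_nonpos hl hlam1.le (by (clear * - hα'0; linarith))
  by_cases hbig : (N : ℝ) < H0
  · have h2 : (N : ℝ) ^ (1 / 2 : ℝ) ≤ lam ^ (-α') := by
      have h3 : (N : ℝ) ^ (1 / 2 : ℝ) ≤ H0 ^ (1 / 2 : ℝ) :=
        Real.rpow_le_rpow hN0.le hbig.le (by norm_num)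
      refine h3.trans (le_of_eq ?_)
      rw [hH0, ← Real.rpow_mul hl.le]
      congr 1
      ring
    have h4 : (N : ℝ) ^ (1 / 2 : ℝ) ≤ (N : ℝ) ^ (1 - β / 2) :=
      Real.rpow_le_rpow_of_exponent_le hN' (by (clear * - hβ; linarith))
    have h5 : (N : ℝ) ≤ (N : ℝ) ^ (1 - β / 2) * lam ^ (-α') := by
      calc (N : ℝ) = (N : ℝ) ^ (1 / 2 : ℝ) * (N : ℝ) ^ (1 / 2 : ℝ) := by
            rw [← Real.rpow_add hN0]; norm_num
        _ ≤ _ := mul_le_mul h4 h2 (by positivity) (by positivity)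
    exact (htriv.trans h5).trans ((le_add_of_nonneg_left hP1).trans
      (le_mul_of_one_le_left (add_nonneg hP1 hP2) hCA))
  push Not at hbig
  -- main case
  set H : ℕ := ⌊H0⌋₊ with hHdef
  have hH1 : 1 ≤ H := Nat.one_le_iff_ne_zero.2 (by
    intro h0
    rw [hHdef, Nat.floor_eq_zero] at h0
    (clear * - hH01 h0; linarith))
  have hHle : (H : ℝ) ≤ H0 := Nat.floor_le hH0pos.le
  have hHge : H0 / 2 ≤ H := by
    have h2 := Nat.lt_floor_add_one H0
    have h3 : (1 : ℝ) ≤ H := by exact_mod_cast hH1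
    rw [← hHdef] at h2
    (clear * - h2 h3; linarith)
  have hHpos : (0 : ℝ) < H := by exact_mod_cast hH1
  have hHN : (H : ℝ) ≤ N := hHle.trans hbig
  have e0 : H0 * lam = lam ^ (1 - 2 * α') := by
    calc H0 * lam = lam ^ (-(2 * α')) * lam ^ (1 : ℝ) := by rw [Real.rpow_one]
      _ = lam ^ (1 - 2 * α') := by
        rw [← Real.rpow_add hl]
        congr 1
        ring
  -- facts
  set u : ℝ := lam ^ (2 * α') with hu
  set v : ℝ := lam ^ (-(2 * α')) with hv
  have hupos : 0 < u := by positivity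
  have hvpos : 0 < v := by positivity
  have huv : u * v = 1 := by
    rw [hu, hv, ← Real.rpow_add hl]; simp
  have f1 : 1 / (H : ℝ) ≤ 2 * u := by
    rw [div_le_iff₀ hHpos]
    have : u * H0 = 1 := huv
    have h6 := mul_le_mul_of_nonneg_left hHge hupos.le
    (clear * - h6 this; linarith)
  have f2 : ((H : ℝ) * lam) ^ α ≤ u := by
    have h2 : (H : ℝ) * lam ≤ lam ^ (1 - 2 * α') := by
      calc (H : ℝ) * lam ≤ H0 * lam := mul_le_mul_of_nonneg_right hHle hl.le
        _ = lam ^ (1 - 2 * α') := e0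
    calc ((H : ℝ) * lam) ^ α ≤ (lam ^ (1 - 2 * α')) ^ α :=
          Real.rpow_le_rpow (by (clear * - hH1 hl; positivity)) h2 h0.le
      _ = u := by rw [← Real.rpow_mul hl.le, hrel]
  have f3 : ((H : ℝ) * lam) ^ (-α) ≤ 2 * v := by
    have h2 : lam ^ (1 - 2 * α') / 2 ≤ (H : ℝ) * lam := by
      calc lam ^ (1 - 2 * α') / 2 = H0 / 2 * lam := by
            rw [← e0]; ring
        _ ≤ H * lam := mul_le_mul_of_nonneg_right hHge hl.le
    have h3 : 0 < lam ^ (1 - 2 * α') / 2 := by positivity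
    calc ((H : ℝ) * lam) ^ (-α) ≤ (lam ^ (1 - 2 * α') / 2) ^ (-α) :=
          Real.rpow_le_rpow_of_nonpos h3 h2 (by (clear * - h0; linarith))
      _ = (lam ^ (1 - 2 * α')) ^ (-α) / 2 ^ (-α) := Real.div_rpow (by positivity) (by norm_num) _
      _ = v * 2 ^ α := by
          rw [← Real.rpow_mul hl.le, Real.rpow_neg (by norm_num : (0 : ℝ) ≤ 2), div_inv_eq_mul]
          congr 2
          (clear * - hrel; linarith)
      _ ≤ v * 2 ^ (1 : ℝ) := by
          apply mul_le_mul_of_nonneg_left _ hvpos.le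
          exact Real.rpow_le_rpow_of_exponent_le (by norm_num) (by (clear * - h1 hα'0 hrel2; linarith))
      _ = 2 * v := by rw [Real.rpow_one]; ring
  -- Weyl differencing
  have hW := weyl_vdc (fun n => ee (f n)) N H hH1
  have hc0 : ‖corr (fun n => ee (f n)) N 0‖ ≤ N := by
    rw [corr_ee]
    exact norm_sum_ee_le _ _
  have hcr : ∀ x ∈ Finset.range (H - 1), ‖corr (fun n => ee (f n)) N (x + 1)‖ ≤
      C * A * (N * u) + C * A * ((N : ℝ) ^ (1 - β) * lam ^ (-α)) * ((x + 1 : ℕ) : ℝ) ^ (-α) := by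
    intro x hx
    have hx' := Finset.mem_range.1 hx
    rw [corr_ee]
    have hxpos : (0 : ℝ) < ((x + 1 : ℕ) : ℝ) := by (clear * -; positivity)
    have h2 := h (N - (x + 1)) (fun n => f (n + (x + 1)) - f n) (((x + 1 : ℕ) : ℝ) * lam) A
      (by (clear * - hl; positivity)) hA (by
        intro n hn
        rw [dk_diff]
        by_cases hNx : x + 1 ≤ N
        · have h3 : ∀ j ∈ Finset.range (x + 1), lam ≤ dk (k + 1) f (n + j) ∧
              dk (k + 1) f (n + j) ≤ A * lam := by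
            intro j hj
            have := Finset.mem_range.1 hj
            exact hd (n + j) (by (clear * - α lam hn hNx this; omega))
          constructor
          · have := Finset.card_nsmul_le_sum (Finset.range (x + 1)) (fun j => dk (k + 1) f (n + j))
              lam (fun j hj => (h3 j hj).1)
            rwa [Finset.card_range, nsmul_eq_mul] at this
          · have := Finset.sum_le_card_nsmul (Finset.range (x + 1)) (fun j => dk (k + 1) f (n + j))
              (A * lam) (fun j hj => (h3 j hj).2)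
            rw [Finset.card_range, nsmul_eq_mul] at this
            (clear * - this; linarith)
        · exfalso
          have : (x : ℝ) + 1 ≤ N := by
            have h5 : x + 1 ≤ H := by omega
            have h6 : ((x + 1 : ℕ) : ℝ) ≤ H := by exact_mod_cast h5
            push_cast at h6
            (clear * - hbig hHle h6; linarith)
          exact hNx (by exact_mod_cast this))
    refine h2.trans ?_
    have hNr : ((N - (x + 1) : ℕ) : ℝ) ≤ N := by exact_mod_cast Nat.sub_le _ _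
    have h3 : (((x + 1 : ℕ) : ℝ) * lam) ^ α ≤ u := by
      refine le_trans (Real.rpow_le_rpow (by (clear * - hl; positivity)) ?_ h0.le) f2
      have h5 : x + 1 ≤ H := by omega
      have h6 : ((x + 1 : ℕ) : ℝ) ≤ H := by exact_mod_cast h5
      exact mul_le_mul_of_nonneg_right h6 hl.le
    have h4 : (((x + 1 : ℕ) : ℝ) * lam) ^ (-α) = ((x + 1 : ℕ) : ℝ) ^ (-α) * lam ^ (-α) :=
      Real.mul_rpow hxpos.le hl.le
    have h5 : ((N - (x + 1) : ℕ) : ℝ) ^ (1 - β) ≤ (N : ℝ) ^ (1 - β) :=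
      Real.rpow_le_rpow (Nat.cast_nonneg _) hNr (by (clear * - hβ; linarith))
    have hCA0 : 0 ≤ C * A := by (clear * - hC hA; positivity)
    calc C * A * (((N - (x + 1) : ℕ) : ℝ) * (((x + 1 : ℕ) : ℝ) * lam) ^ α +
          ((N - (x + 1) : ℕ) : ℝ) ^ (1 - β) * (((x + 1 : ℕ) : ℝ) * lam) ^ (-α))
        ≤ C * A * (N * u + (N : ℝ) ^ (1 - β) * (((x + 1 : ℕ) : ℝ) ^ (-α) * lam ^ (-α))) := by
          rw [h4]
          exact mul_le_mul_of_nonneg_left (add_le_add (mul_le_mul hNr h3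
            (Real.rpow_nonneg (mul_nonneg hxpos.le hl.le) _) hN0.le)
            (mul_le_mul_of_nonneg_right h5 (mul_nonneg (Real.rpow_nonneg hxpos.le _)
              (Real.rpow_nonneg hl.le _)))) hCA0
      _ = _ := by ring
  have hsum : ∑ x ∈ Finset.range (H - 1), ‖corr (fun n => ee (f n)) N (x + 1)‖ ≤
      H * (C * A * (N * u)) + C * A * ((N : ℝ) ^ (1 - β) * lam ^ (-α)) * (2 * (H : ℝ) ^ (1 - α)) := by
    refine (Finset.sum_le_sum hcr).trans ?_
    rw [Finset.sum_add_distrib]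
    have hHm : ((H - 1 : ℕ) : ℝ) ≤ H := by exact_mod_cast Nat.sub_le _ _
    have h2 : ∑ x ∈ Finset.range (H - 1), C * A * (N * u) ≤ H * (C * A * (N * u)) := by
      rw [Finset.sum_const, Finset.card_range, nsmul_eq_mul]
      exact mul_le_mul_of_nonneg_right hHm (mul_nonneg (mul_nonneg hC (zero_le_one.trans hA))
        (mul_nonneg hN0.le hupos.le))
    have h3 : ∑ x ∈ Finset.range (H - 1), ((x + 1 : ℕ) : ℝ) ^ (-α) ≤ 2 * (H : ℝ) ^ (1 - α) := by
      refine (sum_rpow_neg_le h0 h1 _).trans ?_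
      have := Real.rpow_le_rpow (Nat.cast_nonneg _) hHm (z := 1 - α) (by (clear * - h1 hα'0 hrel2; linarith))
      (clear * - this; linarith)
    have hCA0 : 0 ≤ C * A * ((N : ℝ) ^ (1 - β) * lam ^ (-α)) := by (clear * - hC hA hN hl; positivity)
    refine add_le_add h2 ?_
    rw [← Finset.mul_sum]
    exact mul_le_mul_of_nonneg_left h3 hCA0
  have hHα : (H : ℝ) ^ (1 - α) * lam ^ (-α) = H * ((H : ℝ) * lam) ^ (-α) := by
    rw [Real.mul_rpow hHpos.le hl.le, sub_eq_add_neg, Real.rpow_add hHpos, Real.rpow_one]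
    ring
  have hS2 : S ^ 2 * H ≤ (2 * N) * (N + 2 * (H * (C * A * (N * u)) +
      C * A * (N : ℝ) ^ (1 - β) * (2 * (H * (2 * v))))) := by
    refine hW.trans ?_
    have hNH : ((N + H : ℕ) : ℝ) ≤ 2 * N := by push_cast; (clear * - hbig hHle; linarith)
    have h2 : ‖corr (fun n => ee (f n)) N 0‖ +
        2 * ∑ x ∈ Finset.range (H - 1), ‖corr (fun n => ee (f n)) N (x + 1)‖ ≤
        N + 2 * (H * (C * A * (N * u)) + C * A * (N : ℝ) ^ (1 - β) * (2 * (H * (2 * v)))) := by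
      have h3 : C * A * ((N : ℝ) ^ (1 - β) * lam ^ (-α)) * (2 * (H : ℝ) ^ (1 - α)) ≤
          C * A * (N : ℝ) ^ (1 - β) * (2 * (H * (2 * v))) := by
        calc C * A * ((N : ℝ) ^ (1 - β) * lam ^ (-α)) * (2 * (H : ℝ) ^ (1 - α)) =
            C * A * (N : ℝ) ^ (1 - β) * (2 * ((H : ℝ) ^ (1 - α) * lam ^ (-α))) := by ring
          _ = C * A * (N : ℝ) ^ (1 - β) * (2 * (H * ((H : ℝ) * lam) ^ (-α))) := by rw [hHα]
          _ ≤ _ := mul_le_mul_of_nonneg_left (mul_le_mul_of_nonneg_left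
              (mul_le_mul_of_nonneg_left f3 hHpos.le) zero_le_two)
              (mul_nonneg (mul_nonneg hC (zero_le_one.trans hA)) (Real.rpow_nonneg hN0.le _))
      (clear * - hc0 hsum h3; linarith)
    refine mul_le_mul hNH h2 ?_ (by positivity)
    have : 0 ≤ ∑ x ∈ Finset.range (H - 1), ‖corr (fun n => ee (f n)) N (x + 1)‖ :=
      Finset.sum_nonneg (fun _ _ => norm_nonneg _)
    have h5 := norm_nonneg (corr (fun n => ee (f n)) N 0)
    (clear * - this h5; linarith)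
  -- divide by H
  have hS3 : S ^ 2 ≤ (2 * N) * (N * (2 * u) + 2 * (C * A * (N * u)) +
      8 * C * A * (N : ℝ) ^ (1 - β) * v) := by
    have h2 : S ^ 2 * H ≤ ((2 * N) * (N * (1 / H) + 2 * (C * A * (N * u)) +
      8 * C * A * (N : ℝ) ^ (1 - β) * v)) * H := by
      refine hS2.trans (le_of_eq ?_)
      field_simp
      ring
    have h3 := le_of_mul_le_mul_right h2 hHpos
    exact h3.trans (mul_le_mul_of_nonneg_left (add_le_add_left (add_le_add_left
      (mul_le_mul_of_nonneg_left f1 hN0.le) _) _) (mul_nonneg zero_le_two hN0.le))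
  have hS4 : S ^ 2 ≤ (4 * (1 + C) * A * (N * lam ^ α' + (N : ℝ) ^ (1 - β / 2) * lam ^ (-α'))) ^ 2 := by
    have e1 : (N * lam ^ α') ^ 2 = N * (N * u) := by
      rw [mul_pow, hu, two_mul, Real.rpow_add hl]; ring
    have e2 : ((N : ℝ) ^ (1 - β / 2) * lam ^ (-α')) ^ 2 = N * (N : ℝ) ^ (1 - β) * v := by
      rw [mul_pow, hv, ← Real.rpow_natCast, ← Real.rpow_natCast, ← Real.rpow_mul hN0.le,
        ← Real.rpow_mul hl.le]
      have : (N : ℝ) * (N : ℝ) ^ (1 - β) = (N : ℝ) ^ (1 + (1 - β)) := by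
        rw [Real.rpow_add hN0, Real.rpow_one]
      rw [this]
      congr 1
      · congr 1; push_cast; ring
      · congr 1; push_cast; ring
    have h2 : (N * lam ^ α' + (N : ℝ) ^ (1 - β / 2) * lam ^ (-α')) ^ 2 ≥
        N * (N * u) + N * (N : ℝ) ^ (1 - β) * v := by
      rw [← e1, ← e2]
      have hsq : ∀ a b : ℝ, 0 ≤ a → 0 ≤ b → a ^ 2 + b ^ 2 ≤ (a + b) ^ 2 := fun a b ha hb => by
        have h7 := mul_nonneg ha hb
        (clear * - h7; linarith)
      exact hsq _ _ hP1 hP2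
    have hAA : A ≤ A ^ 2 := le_self_pow₀ hA two_ne_zero
    have hCC : 1 + C ≤ (1 + C) ^ 2 := le_self_pow₀ (le_add_of_nonneg_right hC) two_ne_zero
    have hQ1 : 0 ≤ N * (N * u) := by (clear * - hN hl; positivity)
    have hQ2 : 0 ≤ N * (N : ℝ) ^ (1 - β) * v := by positivity
    have hK : 16 * (1 + C) * A ≤ (4 * (1 + C) * A) ^ 2 := by
      have : (1 + C) * A ≤ (1 + C) ^ 2 * A ^ 2 := by
        exact mul_le_mul hCC hAA (zero_le_one.trans hA) (sq_nonneg _)
      calc 16 * (1 + C) * A = 16 * ((1 + C) * A) := by ring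
        _ ≤ 16 * ((1 + C) ^ 2 * A ^ 2) := mul_le_mul_of_nonneg_left this (by norm_num)
        _ = _ := by ring
    calc S ^ 2 ≤ (2 * N) * (N * (2 * u) + 2 * (C * A * (N * u)) +
          8 * C * A * (N : ℝ) ^ (1 - β) * v) := hS3
      _ = (4 + 4 * C * A) * (N * (N * u)) + 16 * C * A * (N * (N : ℝ) ^ (1 - β) * v) := by ring
      _ ≤ 16 * (1 + C) * A * (N * (N * u)) + 16 * (1 + C) * A * (N * (N : ℝ) ^ (1 - β) * v) := by
          have hCA' : 0 ≤ C * A := by positivity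
          apply add_le_add
          · apply mul_le_mul_of_nonneg_right _ hQ1
            (clear * - hA hα'0 hrel2 hCA'; nlinarith)
          · apply mul_le_mul_of_nonneg_right _ hQ2
            (clear * - hA hα'0 hrel2; nlinarith)
      _ = 16 * (1 + C) * A * (N * (N * u) + N * (N : ℝ) ^ (1 - β) * v) := by ring
      _ ≤ (4 * (1 + C) * A) ^ 2 * (N * lam ^ α' + (N : ℝ) ^ (1 - β / 2) * lam ^ (-α')) ^ 2 := by
          apply mul_le_mul hK h2 (by (clear * - hN hl; positivity)) (by (clear * - hC hA; positivity))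
      _ = _ := by ring
  exact le_of_sq_le_sq hS4 (by (clear * - hC hA hN hl; positivity))

/-- the k-th difference test for all `k ≥ 2` -/
theorem ktest (k : ℕ) : ∃ C : ℝ, 1 ≤ C ∧
    KTest (k + 2) (1 / (2 ^ (k + 2) - 2)) (4 / 2 ^ (k + 2)) C := by
  induction k with
  | zero =>
    refine ⟨10, by norm_num, ?_⟩
    have := ktest_two
    norm_num at this ⊢
    exact this
  | succ k ih =>
    obtain ⟨C, hC, h⟩ := ih
    have hp : (1 : ℝ) ≤ 2 ^ k := one_le_pow₀ (by norm_num)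
    have h4 : (2 : ℝ) ^ (k + 2) = 4 * 2 ^ k := by rw [pow_add]; ring
    have h8 : (2 : ℝ) ^ (k + 1 + 2) = 8 * 2 ^ k := by rw [pow_add, pow_add]; ring
    have h5 : (0 : ℝ) < 2 ^ (k + 2) - 2 := by rw [h4]; (clear * - hp; linarith)
    have h6 := ktest_succ (k := k + 2) (α := 1 / (2 ^ (k + 2) - 2)) (β := 4 / 2 ^ (k + 2)) (C := C)
      (by (clear * - h5; positivity)) (by
        rw [div_le_div_iff₀ h5 (by norm_num), h4]; (clear * - hp; linarith)) (by
        rw [div_le_one (by positivity), h4]; (clear * - hp; linarith)) (by linarith) h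
    refine ⟨4 * (1 + C), by (clear * - hC; linarith), ?_⟩
    have e1 : (1 : ℝ) / (2 ^ (k + 2) - 2) / (2 * (1 + 1 / (2 ^ (k + 2) - 2))) =
        1 / (2 ^ (k + 1 + 2) - 2) := by
      have h9 : (2 : ℝ) ^ (k + 1 + 2) - 2 = 2 * ((2 ^ (k + 2) - 2) + 1) := by rw [h4, h8]; ring
      rw [h9]
      generalize (2 : ℝ) ^ (k + 2) - 2 = D at h5
      (clear * - h5; field_simp)
    have e2 : (4 : ℝ) / 2 ^ (k + 2) / 2 = 4 / 2 ^ (k + 1 + 2) := by
      rw [h4, h8]; field_simp; ring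
    rw [e1, e2] at h6
    exact h6

end Pool.Agent.M20.Helper67.KSZ
end

/- Helper53.KN.Helper67.KSZ.ExpSum -/
section
/-! KSZ (MP_768c9c_nt): exponential sums `∑ n^(-it)` over dyadic intervals. -/

set_option autoImplicit false
open scoped ComplexConjugate

namespace Pool.Agent.M20.Helper67.KSZ

open Pool.Agent.M20.Helper10.QRH (ee)
open Pool.Agent.M20.Helper64.QRH (ee_add ee_eq norm_ee KL)

/-! ### differences of smooth functions -/

/-- iterated forward differences of a function of a real variable -/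
noncomputable def Dk : ℕ → (ℝ → ℝ) → ℝ → ℝ
  | 0, g => g
  | k + 1, g => Dk k (fun x => g (x + 1) - g x)

theorem dk_eq_Dk (k : ℕ) : ∀ (g : ℝ → ℝ) (a : ℝ) (i : ℕ), dk k (fun i => g (a + i)) i = Dk k g (a + i) := by
  induction k with
  | zero => intro g a i; rfl
  | succ k ih =>
    intro g a i
    show dk k (fun n => g (a + ((n + 1 : ℕ) : ℝ)) - g (a + n)) i = Dk k (fun x => g (x + 1) - g x) (a + i)
    rw [← ih]
    congr 1
    funext n
    push_cast
    rw [add_assoc]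

theorem Dk_mvt (k : ℕ) : ∀ (G : ℕ → ℝ → ℝ), (∀ j x, 0 < x → HasDerivAt (G j) (G (j + 1) x) x) →
    ∀ x : ℝ, 0 < x → ∃ ξ ∈ Set.Icc x (x + k), Dk k (G 0) x = G k ξ := by
  induction k with
  | zero =>
    intro G _ x _
    exact ⟨x, ⟨le_rfl, by simp⟩, rfl⟩
  | succ k ih =>
    intro G hG x hx
    obtain ⟨ξ, hξ, h⟩ := ih (fun j y => G j (y + 1) - G j y) (fun j y hy => by
      have e1 : HasDerivAt (fun x => G j (x + 1)) (G (j + 1) (y + 1)) y :=
        HasDerivAt.comp_add_const y 1 (hG j (y + 1) (by (clear * - hy; linarith)))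
      exact e1.sub (hG j y hy)) x hx
    have hξ0 : 0 < ξ := lt_of_lt_of_le hx hξ.1
    obtain ⟨η, hη, hη'⟩ := exists_hasDerivAt_eq_slope (G k) (G (k + 1))
      (show ξ < ξ + 1 by linarith)
      (fun y hy => (hG k y (lt_of_lt_of_le hξ0 hy.1)).continuousAt.continuousWithinAt)
      (fun y hy => hG k y (lt_trans hξ0 hy.1))
    refine ⟨η, ⟨by linarith [hξ.1, hη.1], ?_⟩, ?_⟩
    · push_cast
      linarith [hξ.2, hη.2]
    · show Dk k (fun x => G 0 (x + 1) - G 0 x) x = G (k + 1) η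
      rw [hη', h]
      simp

/-- the derivatives of `log` -/
noncomputable def Glog : ℕ → ℝ → ℝ
  | 0, x => Real.log x
  | j + 1, x => (-1) ^ j * (j.factorial : ℝ) * (x ^ (j + 1))⁻¹

theorem Glog_deriv (j : ℕ) (x : ℝ) (hx : 0 < x) : HasDerivAt (Glog j) (Glog (j + 1) x) x := by
  cases j with
  | zero =>
    have h := Real.hasDerivAt_log hx.ne'
    have e0 : Glog 0 = Real.log := by funext y; rfl
    have e1 : Glog (0 + 1) x = x⁻¹ := by simp [Glog]
    rw [e0, e1]
    exact h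
  | succ j =>
    have h1 : HasDerivAt (fun y : ℝ => y ^ (j + 1)) (((j + 1 : ℕ) : ℝ) * x ^ j) x := by
      have := hasDerivAt_pow (j + 1) x
      simpa using this
    have h2 := (h1.inv (by positivity)).const_mul ((-1 : ℝ) ^ j * (j.factorial : ℝ))
    have e : (-1 : ℝ) ^ j * (j.factorial : ℝ) * (-(((j + 1 : ℕ) : ℝ) * x ^ j) / (x ^ (j + 1)) ^ 2) =
        Glog (j + 1 + 1) x := by
      simp only [Glog]
      rw [Nat.factorial_succ, pow_succ (-1 : ℝ) j]
      push_cast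
      field_simp
      ring
    rw [← e]
    exact h2

theorem dk_log_bounds (k : ℕ) (a : ℝ) (ha : 0 < a) (i : ℕ) :
    (k.factorial : ℝ) * ((a + i + (k + 1)) ^ (k + 1))⁻¹ ≤
      (-1) ^ k * dk (k + 1) (fun i => Real.log (a + i)) i ∧
    (-1) ^ k * dk (k + 1) (fun i => Real.log (a + i)) i ≤
      (k.factorial : ℝ) * (a ^ (k + 1))⁻¹ := by
  have hi : (0 : ℝ) ≤ i := Nat.cast_nonneg i
  rw [dk_eq_Dk (k + 1) Real.log a i]
  obtain ⟨ξ, hξ, h⟩ := Dk_mvt (k + 1) Glog Glog_deriv (a + i) (by (clear * - ha; linarith))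
  have h' : Dk (k + 1) Real.log (a + i) = (-1) ^ k * (k.factorial : ℝ) * (ξ ^ (k + 1))⁻¹ := h
  have hξ0 : 0 < ξ := by (clear * - ha hξ; linarith [hξ.1])
  have e : (-1 : ℝ) ^ k * Dk (k + 1) Real.log (a + i) = (k.factorial : ℝ) * (ξ ^ (k + 1))⁻¹ := by
    rw [h', ← mul_assoc, ← mul_assoc, ← mul_pow]
    norm_num
  rw [e]
  have hf : (0 : ℝ) ≤ k.factorial := Nat.cast_nonneg _
  constructor
  · apply mul_le_mul_of_nonneg_left _ hf
    apply inv_anti₀ (by positivity)
    apply pow_le_pow_left₀ hξ0.le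
    have := hξ.2
    push_cast at this
    (clear * - this; linarith)
  · apply mul_le_mul_of_nonneg_left _ hf
    apply inv_anti₀ (by positivity)
    apply pow_le_pow_left₀ ha.le
    (clear * - hξ; linarith [hξ.1])

/-! ### the exponential sums -/

theorem nit_eq {n : ℕ} (hn : 0 < n) (t : ℝ) :
    (n : ℂ) ^ (-((t : ℂ) * Complex.I)) = ee (-(t / (2 * Real.pi)) * Real.log n) := by
  have hn' : (n : ℂ) ≠ 0 := by exact_mod_cast hn.ne'
  have hlog : Complex.log (n : ℂ) = ((Real.log n : ℝ) : ℂ) := by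
    rw [← Complex.ofReal_natCast, Complex.ofReal_log (Nat.cast_nonneg n)]
  rw [Complex.cpow_def_of_ne_zero hn', hlog, ee]
  congr 1
  have hpi : (Real.pi : ℂ) ≠ 0 := by exact_mod_cast Real.pi_ne_zero
  push_cast
  field_simp

theorem sum_Ioc_eq (F : ℕ → ℂ) (N N1 : ℕ) :
    ∑ n ∈ Finset.Ioc N N1, F n = ∑ i ∈ Finset.range (N1 - N), F (N + 1 + i) := by
  have : Finset.Ioc N N1 = Finset.Ico (N + 1) (N1 + 1) := by
    ext n; simp only [Finset.mem_Ioc, Finset.mem_Ico]; omega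
  rw [this, Finset.sum_Ico_eq_sum_range]
  congr 2
  omega

/-- the shape of the sums -/
noncomputable def Sit (t : ℝ) (N N1 : ℕ) : ℂ :=
  ∑ n ∈ Finset.Ioc N N1, (n : ℂ) ^ (-((t : ℂ) * Complex.I))

theorem norm_Sit (t : ℝ) (N N1 : ℕ) (e : ℝ) (he : e = 1 ∨ e = -1) : ‖Sit t N N1‖ =
    ‖∑ i ∈ Finset.range (N1 - N), ee (e * (t / (2 * Real.pi)) * Real.log (((N + 1 : ℕ) : ℝ) + i))‖ := by
  have h1 : Sit t N N1 = ∑ i ∈ Finset.range (N1 - N),
      ee (-(t / (2 * Real.pi)) * Real.log (((N + 1 : ℕ) : ℝ) + i)) := by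
    unfold Sit
    rw [sum_Ioc_eq]
    apply Finset.sum_congr rfl
    intro i _
    rw [nit_eq (by omega)]
    congr 3
    push_cast
    ring
  rcases he with rfl | rfl
  · rw [h1, ← RCLike.norm_conj, map_sum]
    congr 1
    apply Finset.sum_congr rfl
    intro i _
    rw [conj_ee]
    congr 1
    ring
  · rw [h1]
    congr 1
    apply Finset.sum_congr rfl
    intro i _
    congr 1
    ring

theorem norm_Sit_le (t : ℝ) {N N1 : ℕ} (h : N1 ≤ 2 * N) : ‖Sit t N N1‖ ≤ N := by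
  rw [norm_Sit t N N1 1 (Or.inl rfl)]
  refine (norm_sum_ee_le _ _).trans ?_
  have : N1 - N ≤ N := by omega
  exact_mod_cast this

/-- A1: the k-th derivative test for `∑ n^(-it)` -/
theorem A1 (k : ℕ) (hk : 2 ≤ k) : ∃ C : ℝ, 0 < C ∧ ∀ (N N1 : ℕ) (t : ℝ), 1 ≤ N → N < N1 →
    N1 ≤ 2 * N → 0 < t →
    ‖∑ n ∈ Finset.Ioc N N1, (n : ℂ) ^ (-((t : ℂ) * Complex.I))‖ ≤
      C * (N * (t / (N : ℝ) ^ k) ^ (1 / (2 ^ k - 2) : ℝ) +
        (N : ℝ) ^ (1 - 4 / 2 ^ k : ℝ) * ((N : ℝ) ^ k / t) ^ (1 / (2 ^ k - 2) : ℝ)) := by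
  obtain ⟨m, rfl⟩ := Nat.exists_eq_add_of_le' hk
  obtain ⟨C, hC, hT⟩ := ktest m
  set α : ℝ := 1 / (2 ^ (m + 2) - 2) with hα
  set β : ℝ := 4 / 2 ^ (m + 2) with hβ
  have hp : (1 : ℝ) ≤ 2 ^ m := one_le_pow₀ (by norm_num)
  have h4 : (2 : ℝ) ^ (m + 2) = 4 * 2 ^ m := by rw [pow_add]; ring
  have hα0 : 0 < α := by
    rw [hα, h4]; apply div_pos one_pos; (clear * - hp; linarith)
  have hβ1 : β ≤ 1 := by rw [hβ, h4, div_le_one (by positivity)]; (clear * - hp; linarith)
  exact by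
    set c : ℝ := ((m + 1).factorial : ℝ) / (2 * Real.pi) / 3 ^ (m + 2) with hc
    have hc0 : 0 < c := by
      have := Real.pi_pos
      have : (0 : ℝ) < (m + 1).factorial := by exact_mod_cast Nat.factorial_pos _
      positivity
    set A : ℝ := 3 ^ (m + 2) with hA
    have hA1 : 1 ≤ A := one_le_pow₀ (by norm_num)
    refine ⟨C * A * (c ^ α + c ^ (-α)), by positivity, ?_⟩
    intro N N1 t hN hN1 hN2 ht
    have hNr : (1 : ℝ) ≤ N := by exact_mod_cast hN
    have hN0 : (0 : ℝ) < N := by (clear * - hNr; linarith)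
    set lam : ℝ := c * (t / (N : ℝ) ^ (m + 2)) with hlam
    exact by
      have hlam0 : 0 < lam := by positivity
      have h := norm_Sit t N N1 ((-1) ^ (m + 1)) (neg_one_pow_eq_or ℝ (m + 1))
      unfold Sit at h
      rw [h]
      have hfac : (0 : ℝ) < (m + 1).factorial := by exact_mod_cast Nat.factorial_pos _
      have hcond : ∀ n, n + (m + 2) ≤ N1 - N →
          lam ≤ dk (m + 2) (fun i => (-1) ^ (m + 1) * (t / (2 * Real.pi)) *
            Real.log (((N + 1 : ℕ) : ℝ) + i)) n ∧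
          dk (m + 2) (fun i => (-1) ^ (m + 1) * (t / (2 * Real.pi)) *
            Real.log (((N + 1 : ℕ) : ℝ) + i)) n ≤ A * lam := by
        intro n hn
        have e : dk (m + 2) (fun i => (-1) ^ (m + 1) * (t / (2 * Real.pi)) *
            Real.log (((N + 1 : ℕ) : ℝ) + i)) n =
            (t / (2 * Real.pi)) * ((-1) ^ (m + 1) * dk (m + 2) (fun i =>
            Real.log (((N + 1 : ℕ) : ℝ) + i)) n) := by
          have hlin : ∀ (k : ℕ) (a : ℝ) (f : ℕ → ℝ) (n : ℕ), dk k (fun n => a * f n) n = a * dk k f n := by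
            intro k
            induction k with
            | zero => intro a f n; rfl
            | succ k ih =>
              intro a f n
              show dk k (fun n => a * f (n + 1) - a * f n) n = a * dk k (fun n => f (n + 1) - f n) n
              rw [← ih]
              congr 1
              funext n
              ring
          rw [hlin]
          ring
        rw [e]
        have hb := dk_log_bounds (m + 1) ((N + 1 : ℕ) : ℝ) (by positivity) n
        have hpi := Real.pi_pos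
        have htp : 0 < t / (2 * Real.pi) := by positivity
        constructor
        · refine le_trans ?_ (mul_le_mul_of_nonneg_left hb.1 htp.le)
          exact by
            have h1 : (((N + 1 : ℕ) : ℝ) + n + (((m + 1 : ℕ) : ℝ) + 1)) ≤ 3 * N := by
              have h2 : N + 1 + n + (m + 1 + 1) ≤ 3 * N := by omega
              exact_mod_cast h2
            have h2 : ((3 * (N : ℝ)) ^ (m + 2))⁻¹ ≤
                ((((N + 1 : ℕ) : ℝ) + n + (((m + 1 : ℕ) : ℝ) + 1)) ^ (m + 1 + 1))⁻¹ := by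
              apply inv_anti₀ (by (clear * - hN; positivity))
              exact pow_le_pow_left₀ (by positivity) h1 _
            calc lam = t / (2 * Real.pi) * (((m + 1).factorial : ℝ) * ((3 * (N : ℝ)) ^ (m + 2))⁻¹) := by
                  rw [hlam, hc, mul_pow, hA]
                  field_simp
              _ ≤ _ := by gcongr
        · refine le_trans (mul_le_mul_of_nonneg_left hb.2 htp.le) ?_
          have h2 : ((((N + 1 : ℕ) : ℝ)) ^ (m + 1 + 1))⁻¹ ≤ ((N : ℝ) ^ (m + 2))⁻¹ := by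
            apply inv_anti₀ (by positivity)
            apply pow_le_pow_left₀ hN0.le
            push_cast; (clear * -; linarith)
          calc t / (2 * Real.pi) * (((m + 1).factorial : ℝ) * ((((N + 1 : ℕ) : ℝ)) ^ (m + 1 + 1))⁻¹)
              ≤ t / (2 * Real.pi) * (((m + 1).factorial : ℝ) * ((N : ℝ) ^ (m + 2))⁻¹) := by (clear * - h2 ht; gcongr)
            _ = A * lam := by
                rw [hlam, hc, hA]
                field_simp
      have h1 := hT (N1 - N) _ lam A hlam0 hA1 hcond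
      refine h1.trans ?_
      have hM : ((N1 - N : ℕ) : ℝ) ≤ N := by
        have : N1 - N ≤ N := by omega
        exact_mod_cast this
      have htN : 0 < t / (N : ℝ) ^ (m + 2) := by positivity
      exact by
        have e1 : lam ^ α = c ^ α * (t / (N : ℝ) ^ (m + 2)) ^ α := by
          rw [hlam, Real.mul_rpow hc0.le htN.le]
        have e2 : lam ^ (-α) = c ^ (-α) * ((N : ℝ) ^ (m + 2) / t) ^ α := by
          rw [hlam, Real.mul_rpow hc0.le htN.le]
          congr 1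
          rw [Real.rpow_neg htN.le, ← Real.inv_rpow htN.le, inv_div]
        have hCA : 0 ≤ C * A := by positivity
        have h2 : ((N1 - N : ℕ) : ℝ) ^ (1 - β) ≤ (N : ℝ) ^ (1 - β) :=
          Real.rpow_le_rpow (Nat.cast_nonneg _) hM (by (clear * - hβ1; linarith))
        set P := (N : ℝ) * (t / (N : ℝ) ^ (m + 2)) ^ α with hP
        set Q := (N : ℝ) ^ (1 - β) * ((N : ℝ) ^ (m + 2) / t) ^ α with hQ
        exact by
          have hP0 : 0 ≤ P := by positivity
          have hQ0 : 0 ≤ Q := by positivity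
          have hca : 0 < c ^ α := by positivity
          have hcb : 0 < c ^ (-α) := by positivity
          calc C * A * (((N1 - N : ℕ) : ℝ) * lam ^ α + ((N1 - N : ℕ) : ℝ) ^ (1 - β) * lam ^ (-α))
              ≤ C * A * ((N : ℝ) * lam ^ α + (N : ℝ) ^ (1 - β) * lam ^ (-α)) := by gcongr
            _ = C * A * (c ^ α * P + c ^ (-α) * Q) := by rw [e1, e2, hP, hQ]; ring
            _ ≤ C * A * ((c ^ α + c ^ (-α)) * (P + Q)) := by
                apply mul_le_mul_of_nonneg_left _ hCA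
                (clear * - hca hQ0 hcb hP0; nlinarith [mul_nonneg hca.le hQ0, mul_nonneg hcb.le hP0])
            _ = _ := by ring

/-! ### Kusmin-Landau -/

theorem KLsum {N N1 : ℕ} {t : ℝ} (hN : 1 ≤ N) (hN1 : N < N1) (hN2 : N1 ≤ 2 * N) (ht : 0 < t)
    (htN : t ≤ N) : ‖Sit t N N1‖ ≤ 12 * Real.pi * (N / t) := by
  have hpi := Real.pi_pos
  have hpi3 := Real.pi_gt_three
  have hNr : (1 : ℝ) ≤ N := by exact_mod_cast hN
  have hN0 : (0 : ℝ) < N := by (clear * - ht htN; linarith)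
  rw [norm_Sit t N N1 (-1) (Or.inr rfl)]
  obtain ⟨M, hM⟩ : ∃ M, N1 - N = M + 1 := ⟨N1 - N - 1, by omega⟩
  rw [hM]
  set D : ℝ := t / (2 * Real.pi) / (3 * N) with hD
  have hD0 : 0 < D := by positivity
  exact by
    have hDle : D ≤ 1 / 2 := by
      rw [hD, div_div, div_le_iff₀ (by positivity)]
      (clear * - ht htN hpi3; nlinarith)
    have hMN : M + 1 ≤ N := by omega
    set x : ℕ → ℝ := fun n => 1 - (t / (2 * Real.pi)) *
      (Real.log (((N + 1 : ℕ) : ℝ) + (n + 1 : ℕ)) - Real.log (((N + 1 : ℕ) : ℝ) + n)) with hx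
    have hlog : ∀ n : ℕ, Real.log (((N + 1 : ℕ) : ℝ) + (n + 1 : ℕ)) -
        Real.log (((N + 1 : ℕ) : ℝ) + n) = Real.log (1 + 1 / (((N + 1 : ℕ) : ℝ) + n)) := by
      intro n
      rw [← Real.log_div (by (clear * - hN; positivity)) (by positivity)]
      congr 1
      push_cast
      field_simp
      ring
    have h2D : 12 * Real.pi * (N / t) = 2 / D := by
      rw [hD]; field_simp; ring
    rw [h2D]
    refine KL hD0 hDle (fun i => ee (-1 * (t / (2 * Real.pi)) * Real.log (((N + 1 : ℕ) : ℝ) + i)))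
      x M (fun n => (norm_ee _).le) ?_ ?_ ?_
    · intro n hn
      exact by
        have hnr : ((n : ℝ)) + 1 ≤ N := by
          have : n + 1 ≤ N := by omega
          exact_mod_cast this
        have hn0 : (0 : ℝ) ≤ n := Nat.cast_nonneg n
        set y : ℝ := 1 / (((N + 1 : ℕ) : ℝ) + n) with hy
        have hy0 : 0 < y := by positivity
        have hup : Real.log (1 + y) ≤ y := by
          have := Real.log_le_sub_one_of_pos (show (0 : ℝ) < 1 + y by (clear * - hD0 hDle hy0; linarith))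
          (clear * - this; linarith)
        have hlow : 1 / (3 * N) ≤ Real.log (1 + y) := by
          have h1 := Real.one_sub_inv_le_log_of_pos (show (0 : ℝ) < 1 + y by (clear * - hD0 hDle hy0; linarith))
          refine le_trans ?_ h1
          have h3 : (1 : ℝ) - (1 + y)⁻¹ = 1 / (((N + 1 : ℕ) : ℝ) + n + 1) := by
            rw [hy]; field_simp; ring
          rw [h3]
          apply one_div_le_one_div_of_le (by positivity)
          push_cast
          (clear * - hNr hnr; linarith)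
        exact by
          have hy1 : y ≤ 1 / N := by
            rw [hy]
            apply one_div_le_one_div_of_le hN0
            push_cast; (clear * - hD0 hDle; linarith)
          have hx' : x n = 1 - (t / (2 * Real.pi)) * Real.log (1 + y) := by
            rw [hx]; simp only; rw [hlog]
          rw [hx']
          have htp : 0 < t / (2 * Real.pi) := by positivity
          constructor
          · have h4 : (t / (2 * Real.pi)) * Real.log (1 + y) ≤ (t / (2 * Real.pi)) * (1 / N) := by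
              gcongr
              (clear * - hup hy1; linarith)
            exact by
              have h5 : (t / (2 * Real.pi)) * (1 / N) ≤ 1 / 2 := by
                rw [div_mul_div_comm, mul_one, div_le_iff₀ (by positivity)]
                (clear * - htN hNr hD0 hDle hpi3; nlinarith)
              (clear * - hDle h4 h5; linarith)
          · have h4 : (t / (2 * Real.pi)) * (1 / (3 * N)) ≤ (t / (2 * Real.pi)) * Real.log (1 + y) := by
              (clear * - hlow ht; gcongr)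
            have h5 : (t / (2 * Real.pi)) * (1 / (3 * N)) = D := by rw [hD]; field_simp
            (clear * - h4 h5; linarith)
    · intro n hn
      exact by
        simp only [hx]
        rw [hlog, hlog]
        have h1 : Real.log (1 + 1 / (((N + 1 : ℕ) : ℝ) + (n + 1 : ℕ))) ≤
            Real.log (1 + 1 / (((N + 1 : ℕ) : ℝ) + n)) := by
          apply Real.log_le_log (by (clear * - hN; positivity))
          have : 1 / (((N + 1 : ℕ) : ℝ) + (n + 1 : ℕ)) ≤ 1 / (((N + 1 : ℕ) : ℝ) + n) := by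
            apply one_div_le_one_div_of_le (by positivity)
            push_cast; (clear * - hD0 hDle; linarith)
          (clear * - this; linarith)
        have htp : 0 < t / (2 * Real.pi) := by positivity
        have := mul_le_mul_of_nonneg_left h1 htp.le
        (clear * - this; linarith)
    · intro n hn
      simp only [hx]
      rw [← ee_add]
      have e : ee (-1 * (t / (2 * Real.pi)) * Real.log (((N + 1 : ℕ) : ℝ) + (n + 1 : ℕ))) =
          ee ((-1 * (t / (2 * Real.pi)) * Real.log (((N + 1 : ℕ) : ℝ) + n) +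
            (1 - (t / (2 * Real.pi)) *
      (Real.log (((N + 1 : ℕ) : ℝ) + (n + 1 : ℕ)) - Real.log (((N + 1 : ℕ) : ℝ) + n)))) - ((1 : ℤ) : ℝ)) := by
        congr 1
        push_cast
        ring
      rw [e, Pool.Agent.M20.Helper64.QRH.ee_sub_int]

end Pool.Agent.M20.Helper67.KSZ
end

/- Helper53.KN.Helper67.KSZ.ExpSum2 -/
section
/-! KSZ (MP_768c9c_nt): partial summation, the classical inputs A2 and A3. -/

set_option autoImplicit false
open scoped ComplexConjugate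

namespace Pool.Agent.M20.Helper67.KSZ

/-! ### Abel's inequality -/

theorem abel_aux (b : ℕ → ℝ) (z : ℕ → ℂ) (B : ℝ) (M : ℕ) (hb : ∀ n, b (n + 1) ≤ b n)
    (hP : ∀ m ≤ M, ‖∑ n ∈ Finset.range m, z n‖ ≤ B) :
    ‖∑ n ∈ Finset.range M, (b n : ℂ) * z n - b M * ∑ n ∈ Finset.range M, z n‖ ≤ (b 0 - b M) * B := by
  induction M with
  | zero => simp
  | succ M ih =>
    have h1 := ih (fun m hm => hP m (by omega))
    have e : ∑ n ∈ Finset.range (M + 1), (b n : ℂ) * z n -
        b (M + 1) * ∑ n ∈ Finset.range (M + 1), z n =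
        (∑ n ∈ Finset.range M, (b n : ℂ) * z n - b M * ∑ n ∈ Finset.range M, z n) +
          ((b M - b (M + 1) : ℝ) : ℂ) * ∑ n ∈ Finset.range (M + 1), z n := by
      rw [Finset.sum_range_succ, Finset.sum_range_succ]
      push_cast
      ring
    rw [e]
    refine (norm_add_le _ _).trans ?_
    rw [norm_mul, Complex.norm_real, Real.norm_of_nonneg (by linarith [hb M])]
    have h2 := hP (M + 1) le_rfl
    have h3 := mul_le_mul_of_nonneg_left h2 (show 0 ≤ b M - b (M + 1) by linarith [hb M])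
    linarith

theorem abel_range (b : ℕ → ℝ) (z : ℕ → ℂ) (B : ℝ) (M : ℕ) (hb : ∀ n, b (n + 1) ≤ b n)
    (hb0 : ∀ n, 0 ≤ b n) (hP : ∀ m ≤ M, ‖∑ n ∈ Finset.range m, z n‖ ≤ B) :
    ‖∑ n ∈ Finset.range M, (b n : ℂ) * z n‖ ≤ b 0 * B := by
  have h1 := abel_aux b z B M hb hP
  have e : ∑ n ∈ Finset.range M, (b n : ℂ) * z n =
      (∑ n ∈ Finset.range M, (b n : ℂ) * z n - b M * ∑ n ∈ Finset.range M, z n) +
        (b M : ℂ) * ∑ n ∈ Finset.range M, z n := by ring
  rw [e]
  refine (norm_add_le _ _).trans ?_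
  rw [norm_mul, Complex.norm_real, Real.norm_of_nonneg (hb0 M)]
  have h3 := mul_le_mul_of_nonneg_left (hP M le_rfl) (hb0 M)
  (clear * - h1 h3; linarith)

/-- Abel's inequality on `(N, N1]` -/
theorem abel_Ioc (w : ℕ → ℝ) (z : ℕ → ℂ) (B : ℝ) (N N1 : ℕ) (hw : ∀ n, N < n → w (n + 1) ≤ w n)
    (hw0 : ∀ n, N < n → 0 ≤ w n) (hB : 0 ≤ B)
    (hP : ∀ N', N < N' → N' ≤ N1 → ‖∑ n ∈ Finset.Ioc N N', z n‖ ≤ B) :
    ‖∑ n ∈ Finset.Ioc N N1, (w n : ℂ) * z n‖ ≤ w (N + 1) * B := by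
  rw [sum_Ioc_eq]
  refine (abel_range (fun i => w (N + 1 + i)) (fun i => z (N + 1 + i)) B (N1 - N)
    (fun n => by
      have e : N + 1 + (n + 1) = N + 1 + n + 1 := by ring
      simp only [e]
      exact hw (N + 1 + n) (by omega)) (fun n => hw0 _ (by omega)) ?_).trans (by simp)
  intro m hm
  rcases Nat.eq_zero_or_pos m with h | h
  · subst h; simpa using hB
  · have := hP (N + m) (by omega) (by omega)
    rw [sum_Ioc_eq, Nat.add_sub_cancel_left] at this
    exact this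

theorem pow_split {n : ℕ} (hn : 0 < n) (κ t : ℝ) :
    (n : ℂ) ^ (-((κ : ℂ) + (t : ℂ) * Complex.I)) =
      (((n : ℝ) ^ (-κ) : ℝ) : ℂ) * (n : ℂ) ^ (-((t : ℂ) * Complex.I)) := by
  have hn' : (n : ℂ) ≠ 0 := by exact_mod_cast hn.ne'
  rw [neg_add, Complex.cpow_add _ _ hn', Complex.ofReal_cpow (Nat.cast_nonneg n)]
  push_cast
  rfl

/-- partial summation for `n^(-κ-it)` -/
theorem abel_pow {N N1 : ℕ} {κ t B : ℝ} (hN : 1 ≤ N) (hκ : 0 ≤ κ) (hB : 0 ≤ B)
    (hP : ∀ N', N < N' → N' ≤ N1 → ‖Sit t N N'‖ ≤ B) :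
    ‖∑ n ∈ Finset.Ioc N N1, (n : ℂ) ^ (-((κ : ℂ) + (t : ℂ) * Complex.I))‖ ≤ (N : ℝ) ^ (-κ) * B := by
  have hN0 : (0 : ℝ) < N := by exact_mod_cast hN
  have e : ∑ n ∈ Finset.Ioc N N1, (n : ℂ) ^ (-((κ : ℂ) + (t : ℂ) * Complex.I)) =
      ∑ n ∈ Finset.Ioc N N1, (((n : ℝ) ^ (-κ) : ℝ) : ℂ) * (n : ℂ) ^ (-((t : ℂ) * Complex.I)) := by
    apply Finset.sum_congr rfl
    intro n hn
    rw [pow_split (by rw [Finset.mem_Ioc] at hn; omega)]
  rw [e]
  refine (abel_Ioc (fun n => (n : ℝ) ^ (-κ)) (fun n => (n : ℂ) ^ (-((t : ℂ) * Complex.I))) B N N1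
    (fun n hn => ?_) (fun n _ => by positivity) hB hP).trans ?_
  · have hn0 : (0 : ℝ) < n := by exact_mod_cast (by omega : 0 < n)
    exact Real.rpow_le_rpow_of_nonpos hn0 (by push_cast; (clear * -; linarith)) (by (clear * - hκ; linarith))
  · apply mul_le_mul_of_nonneg_right _ hB
    exact Real.rpow_le_rpow_of_nonpos hN0 (by push_cast; linarith) (by linarith)

/-! ### A2 -/

theorem Sit_two : ∃ C : ℝ, 0 < C ∧ ∀ (N N1 : ℕ) (t : ℝ), 1 ≤ N → N < N1 → N1 ≤ 2 * N → 0 < t →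
    t ≤ N → ‖Sit t N N1‖ ≤ C * (N / t) :=
  ⟨12 * Real.pi, by have := Real.pi_pos; positivity, fun N N1 t h1 h2 h3 h4 h5 =>
    KLsum h1 h2 h3 h4 h5⟩

theorem Sit_half : ∃ C : ℝ, 0 < C ∧ ∀ (N N1 : ℕ) (t : ℝ), 1 ≤ N → N < N1 → N1 ≤ 2 * N → 0 < t →
    ‖Sit t N N1‖ ≤ C * (N / t + t ^ (1 / 2 : ℝ)) := by
  obtain ⟨C1, hC1, h1⟩ := A1 2 le_rfl
  obtain ⟨C2, hC2, h2⟩ := Sit_two
  refine ⟨2 * C1 + C2, by positivity, ?_⟩
  intro N N1 t hN hN1 hN2 ht
  have hN0 : (0 : ℝ) < N := by exact_mod_cast hN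
  have hNt : 0 < N / t := by (clear * - hN ht; positivity)
  have hth : 0 < t ^ (1 / 2 : ℝ) := by positivity
  rcases le_total t N with h | h
  · refine (h2 N N1 t hN hN1 hN2 ht h).trans ?_
    (clear * - hC1 hNt hth hC2; nlinarith)
  · refine (h1 N N1 t hN hN1 hN2 ht).trans ?_
    have e0 : (1 / (2 ^ 2 - 2) : ℝ) = 1 / 2 := by norm_num
    have e1 : (1 - 4 / 2 ^ 2 : ℝ) = 0 := by norm_num
    rw [e0, e1, Real.rpow_zero, one_mul]
    have e2 : (N : ℝ) * (t / (N : ℝ) ^ 2) ^ (1 / 2 : ℝ) = t ^ (1 / 2 : ℝ) := by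
      rw [Real.div_rpow ht.le (by positivity), ← Real.sqrt_eq_rpow ((N : ℝ) ^ 2),
        Real.sqrt_sq hN0.le]
      field_simp
    have e3 : ((N : ℝ) ^ 2 / t) ^ (1 / 2 : ℝ) ≤ t ^ (1 / 2 : ℝ) := by
      apply Real.rpow_le_rpow (by positivity) _ (by norm_num)
      rw [div_le_iff₀ ht]
      (clear * - h ht; nlinarith)
    rw [e2]
    nlinarith

/-- A2, first form -/
theorem A2 : ∃ C : ℝ, 0 < C ∧ ∀ (N N1 : ℕ) (κ t : ℝ), 1 ≤ N → N < N1 → N1 ≤ 2 * N → 0 < t →
    0 ≤ κ → ‖∑ n ∈ Finset.Ioc N N1, (n : ℂ) ^ (-((κ : ℂ) + (t : ℂ) * Complex.I))‖ ≤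
      C * (N : ℝ) ^ (-κ) * (N / t + t ^ (1 / 2 : ℝ)) := by
  obtain ⟨C, hC, h⟩ := Sit_half
  refine ⟨C, hC, ?_⟩
  intro N N1 κ t hN hN1 hN2 ht hκ
  have hN0 : (0 : ℝ) < N := by exact_mod_cast hN
  refine (abel_pow (B := C * (N / t + t ^ (1 / 2 : ℝ))) hN hκ (by (clear * - hC hN ht; positivity)) ?_).trans
    (le_of_eq (by ring))
  intro N' h1 h2
  exact h N N' t hN h1 (by omega) ht

/-- A2, second form (`t ≤ N`) -/
theorem A2' : ∃ C : ℝ, 0 < C ∧ ∀ (N N1 : ℕ) (κ t : ℝ), 1 ≤ N → N < N1 → N1 ≤ 2 * N → 0 < t →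
    t ≤ N → 0 ≤ κ → ‖∑ n ∈ Finset.Ioc N N1, (n : ℂ) ^ (-((κ : ℂ) + (t : ℂ) * Complex.I))‖ ≤
      C * ((N : ℝ) ^ (1 - κ) / t) := by
  obtain ⟨C, hC, h⟩ := Sit_two
  refine ⟨C, hC, ?_⟩
  intro N N1 κ t hN hN1 hN2 ht htN hκ
  have hN0 : (0 : ℝ) < N := by exact_mod_cast hN
  refine (abel_pow (B := C * (N / t)) hN hκ (by (clear * - hC hN ht; positivity)) ?_).trans (le_of_eq ?_)
  · intro N' h1 h2
    exact h N N' t hN h1 (by omega) ht htN
  · rw [Real.rpow_sub hN0, Real.rpow_one, Real.rpow_neg hN0.le]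
    ring

/-! ### A3 -/

theorem A3_aux (m : ℕ) : ∃ c C : ℝ, 0 < c ∧ 0 < C ∧ ∀ (N N1 : ℕ) (t : ℝ), 1 ≤ N → N < N1 →
    N1 ≤ 2 * N → (N : ℝ) ≤ t → t ≤ (N : ℝ) ^ (m + 1) → ‖Sit t N N1‖ ≤ C * (N : ℝ) ^ (1 - c) := by
  induction m with
  | zero =>
    obtain ⟨C, hC, h⟩ := Sit_two
    refine ⟨1, C, one_pos, hC, ?_⟩
    intro N N1 t hN hN1 hN2 h1 h2
    have hN0 : (0 : ℝ) < N := by exact_mod_cast hN
    have ht : t = N := le_antisymm (by simpa using h2) h1
    refine (h N N1 t hN hN1 hN2 (by (clear * - h1 hN0; linarith)) ht.le).trans ?_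
    rw [ht, div_self hN0.ne', sub_self, Real.rpow_zero]
  | succ m ih =>
    obtain ⟨c1, C1, hc1, hC1, h1⟩ := ih
    obtain ⟨C2, hC2, h2⟩ := A1 (m + 3) (by omega)
    set α : ℝ := 1 / (2 ^ (m + 3) - 2) with hα
    set β : ℝ := 4 / 2 ^ (m + 3) with hβ
    have hp : (1 : ℝ) ≤ 2 ^ m := one_le_pow₀ (by norm_num)
    have h8 : (2 : ℝ) ^ (m + 3) = 8 * 2 ^ m := by rw [pow_add]; ring
    have hα0 : 0 < α := by
      rw [hα, h8]; apply div_pos one_pos; (clear * - hp; linarith)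
    have hβα : 0 < β - 2 * α := by
      rw [hα, hβ, h8, sub_pos, mul_one_div, div_lt_div_iff₀ (by (clear * - hp; linarith)) (by positivity)]
      (clear * - hp; linarith)
    refine ⟨min c1 (min α (β - 2 * α)), C1 + 2 * C2, by (clear * - hc1 hα0 hβα; positivity), by positivity, ?_⟩
    intro N N1 t hN hN1 hN2 htN htN2
    have hNr : (1 : ℝ) ≤ N := by exact_mod_cast hN
    have hN0 : (0 : ℝ) < N := by (clear * - hNr; linarith)
    have ht : 0 < t := by (clear * - htN hNr; linarith)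
    set c := min c1 (min α (β - 2 * α)) with hc
    have hcc1 : c ≤ c1 := min_le_left _ _
    have hcα : c ≤ α := (min_le_right _ _).trans (min_le_left _ _)
    have hcβ : c ≤ β - 2 * α := (min_le_right _ _).trans (min_le_right _ _)
    have hpos : 0 < (N : ℝ) ^ (1 - c) := by positivity
    rcases le_total t ((N : ℝ) ^ (m + 1)) with h | h
    · refine (h1 N N1 t hN hN1 hN2 htN h).trans ?_
      have : (N : ℝ) ^ (1 - c1) ≤ (N : ℝ) ^ (1 - c) :=
        Real.rpow_le_rpow_of_exponent_le hNr (by (clear * - hcc1; linarith))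
      calc C1 * (N : ℝ) ^ (1 - c1) ≤ C1 * (N : ℝ) ^ (1 - c) := by (clear * - this hC1; gcongr)
        _ ≤ _ := by (clear * - hC2 hpos; nlinarith)
    · refine (h2 N N1 t hN hN1 hN2 ht).trans ?_
      have b1 : (N : ℝ) * (t / (N : ℝ) ^ (m + 3)) ^ α ≤ (N : ℝ) ^ (1 - c) := by
        have e1 : t / (N : ℝ) ^ (m + 3) ≤ (N : ℝ) ^ (-1 : ℝ) := by
          rw [div_le_iff₀ (by (clear * - hN; positivity)), Real.rpow_neg_one]
          calc t ≤ (N : ℝ) ^ (m + 1 + 1) := htN2
            _ = (N : ℝ)⁻¹ * (N : ℝ) ^ (m + 3) := by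
              rw [show m + 3 = (m + 1 + 1) + 1 by ring, pow_succ (N : ℝ) (m + 1 + 1)]
              field_simp
        calc (N : ℝ) * (t / (N : ℝ) ^ (m + 3)) ^ α ≤ N * ((N : ℝ) ^ (-1 : ℝ)) ^ α := by
              apply mul_le_mul_of_nonneg_left _ hN0.le
              exact Real.rpow_le_rpow (by (clear * - ht hN; positivity)) e1 hα0.le
          _ = (N : ℝ) ^ (1 - α) := by
              rw [← Real.rpow_mul hN0.le, sub_eq_add_neg, Real.rpow_add hN0, Real.rpow_one]
              congr 2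
              ring
          _ ≤ (N : ℝ) ^ (1 - c) := Real.rpow_le_rpow_of_exponent_le hNr (by (clear * - hcα; linarith))
      have b2 : (N : ℝ) ^ (1 - β) * ((N : ℝ) ^ (m + 3) / t) ^ α ≤ (N : ℝ) ^ (1 - c) := by
        have e1 : (N : ℝ) ^ (m + 3) / t ≤ (N : ℝ) ^ (2 : ℝ) := by
          rw [div_le_iff₀ ht, Real.rpow_two]
          calc (N : ℝ) ^ (m + 3) = (N : ℝ) ^ 2 * (N : ℝ) ^ (m + 1) := by ring
            _ ≤ (N : ℝ) ^ 2 * t := by gcongr
        calc (N : ℝ) ^ (1 - β) * ((N : ℝ) ^ (m + 3) / t) ^ α ≤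
            (N : ℝ) ^ (1 - β) * ((N : ℝ) ^ (2 : ℝ)) ^ α := by
              apply mul_le_mul_of_nonneg_left _ (by positivity)
              exact Real.rpow_le_rpow (by positivity) e1 hα0.le
          _ = (N : ℝ) ^ (1 - (β - 2 * α)) := by
              rw [← Real.rpow_mul hN0.le, ← Real.rpow_add hN0]
              congr 1
              ring
          _ ≤ (N : ℝ) ^ (1 - c) := Real.rpow_le_rpow_of_exponent_le hNr (by (clear * - hcβ; linarith))
      calc C2 * ((N : ℝ) * (t / (N : ℝ) ^ (m + 3)) ^ α + (N : ℝ) ^ (1 - β) *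
            ((N : ℝ) ^ (m + 3) / t) ^ α) ≤ C2 * ((N : ℝ) ^ (1 - c) + (N : ℝ) ^ (1 - c)) := by (clear * - b1 b2 hC2; gcongr)
        _ ≤ _ := by (clear * - hC1 hpos; nlinarith)

/-- A3: the uniform saving -/
theorem A3 (A : ℝ) (hA : 1 ≤ A) : ∃ c C : ℝ, 0 < c ∧ 0 < C ∧ ∀ (N N1 : ℕ) (t : ℝ), 1 ≤ N →
    N < N1 → N1 ≤ 2 * N → (N : ℝ) ^ (1 / A) ≤ t → t ≤ (N : ℝ) ^ A →
    ‖∑ n ∈ Finset.Ioc N N1, (n : ℂ) ^ (-((t : ℂ) * Complex.I))‖ ≤ C * (N : ℝ) ^ (1 - c) := by
  obtain ⟨c1, C1, hc1, hC1, h1⟩ := A3_aux ⌈A⌉₊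
  obtain ⟨C2, hC2, h2⟩ := Sit_two
  have hA0 : 0 < A := by linarith
  refine ⟨min c1 (1 / A), C1 + C2, by positivity, by positivity, ?_⟩
  intro N N1 t hN hN1 hN2 h3 h4
  have hNr : (1 : ℝ) ≤ N := by exact_mod_cast hN
  have hN0 : (0 : ℝ) < N := by (clear * - hNr; linarith)
  have hNA : 0 < (N : ℝ) ^ (1 / A) := by positivity
  have ht : 0 < t := by (clear * - h3 hNA; linarith)
  set c := min c1 (1 / A) with hc
  have hcc1 : c ≤ c1 := min_le_left _ _
  have hcA : c ≤ 1 / A := min_le_right _ _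
  have hpos : 0 < (N : ℝ) ^ (1 - c) := by positivity
  show ‖Sit t N N1‖ ≤ _
  rcases le_total (N : ℝ) t with h | h
  · have h5 : t ≤ (N : ℝ) ^ (⌈A⌉₊ + 1) := by
      refine h4.trans ?_
      rw [← Real.rpow_natCast]
      apply Real.rpow_le_rpow_of_exponent_le hNr
      push_cast
      (clear * -; linarith [Nat.le_ceil A])
    refine (h1 N N1 t hN hN1 hN2 h h5).trans ?_
    have : (N : ℝ) ^ (1 - c1) ≤ (N : ℝ) ^ (1 - c) :=
      Real.rpow_le_rpow_of_exponent_le hNr (by (clear * - hcc1; linarith))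
    calc C1 * (N : ℝ) ^ (1 - c1) ≤ C1 * (N : ℝ) ^ (1 - c) := by (clear * - this hC1; gcongr)
      _ ≤ _ := by (clear * - hC2 hpos; nlinarith)
  · refine (h2 N N1 t hN hN1 hN2 ht h).trans ?_
    have : N / t ≤ (N : ℝ) ^ (1 - c) := by
      rw [div_le_iff₀ ht]
      calc (N : ℝ) = (N : ℝ) ^ (1 - 1 / A) * (N : ℝ) ^ (1 / A) := by
            rw [← Real.rpow_add hN0]; simp
        _ ≤ (N : ℝ) ^ (1 - c) * t := by
            apply mul_le_mul _ h3 hNA.le hpos.le
            exact Real.rpow_le_rpow_of_exponent_le hNr (by (clear * - hcA; linarith))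
    calc C2 * (N / t) ≤ C2 * (N : ℝ) ^ (1 - c) := by (clear * - this hC2; gcongr)
      _ ≤ _ := by (clear * - hC1 hpos; nlinarith)

end Pool.Agent.M20.Helper67.KSZ
end

/- Helper53.KN.Helper67.KSZ.ZetaB -/
section
/-! KSZ (MP_768c9c_nt): growth of zeta (A5). -/

set_option autoImplicit false
open Filter Topology

namespace Pool.Agent.M20.Helper67.KSZ

/-! ### optimal exponents for `N ≤ t` -/

theorem Ek (m : ℕ) : ∃ C : ℝ, 0 < C ∧ ∀ (N N1 : ℕ) (t : ℝ), 1 ≤ N → N < N1 → N1 ≤ 2 * N →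
    (N : ℝ) ≤ t → ‖Sit t N N1‖ ≤ C * (t ^ (1 / (2 ^ (m + 2) - 2) : ℝ) *
      (N : ℝ) ^ (1 - (m + 2) * (1 / (2 ^ (m + 2) - 2)) : ℝ)) := by
  induction m with
  | zero =>
    obtain ⟨C, hC, h⟩ := Sit_half
    refine ⟨2 * C, by positivity, ?_⟩
    intro N N1 t hN hN1 hN2 htN
    have hNr : (1 : ℝ) ≤ N := by exact_mod_cast hN
    have ht1 : 1 ≤ t := hNr.trans htN
    have ht0 : 0 < t := by (clear * - htN hNr; linarith)
    refine (h N N1 t hN hN1 hN2 ht0).trans ?_
    have e0 : (1 / (2 ^ (0 + 2) - 2) : ℝ) = 1 / 2 := by norm_num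
    have e1 : (1 - (((0 : ℕ) : ℝ) + 2) * (1 / 2) : ℝ) = 0 := by norm_num
    rw [e0, e1, Real.rpow_zero, mul_one]
    have h1 : (N : ℝ) / t ≤ t ^ (1 / 2 : ℝ) := by
      have h2 : (N : ℝ) / t ≤ 1 := by rw [div_le_one ht0]; exact htN
      exact h2.trans (Real.one_le_rpow ht1 (by norm_num))
    (clear * - hC h1; nlinarith)
  | succ m ih =>
    obtain ⟨C1, hC1, h1⟩ := ih
    obtain ⟨C2, hC2, h2⟩ := A1 (m + 3) (by omega)
    set p : ℝ := 2 ^ m with hp
    have hp1 : 1 ≤ p := one_le_pow₀ (by norm_num)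
    have hp0 : 0 < p := by (clear * - hp1; linarith)
    have h4 : (2 : ℝ) ^ (m + 2) = 4 * p := by rw [pow_add]; ring
    have h8 : (2 : ℝ) ^ (m + 3) = 8 * p := by rw [pow_add]; ring
    have h8' : (2 : ℝ) ^ (m + 1 + 2) = 8 * p := by rw [← h8]
    exact by
      rw [h4] at h1
      rw [h8] at h2
      rw [h8']
      set α' : ℝ := 1 / (4 * p - 2) with hα'
      set α : ℝ := 1 / (8 * p - 2) with hα
      have hq1 : 0 < 4 * p - 2 := by (clear * - hp1; linarith)
      have hq2 : 0 < 8 * p - 2 := by (clear * - hp1; linarith)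
      have hα0 : 0 < α := by (clear * - hq2; positivity)
      have hα'0 : 0 < α' := by (clear * - hq1; positivity)
      exact by
        have hαα' : α ≤ α' := by
          rw [hα, hα']
          apply one_div_le_one_div_of_le hq1
          (clear * - hp1; linarith)
        set γ : ℝ := (m : ℝ) + 1 + 1 / (2 * p) with hγ
        have hm0 : (0 : ℝ) ≤ m := Nat.cast_nonneg m
        have hγ0 : 0 < γ := by (clear * -; positivity)
        have i1 : 2 * ((m : ℝ) + 3) * α - 4 / (8 * p) = 2 * α * γ := by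
          rw [hα, hγ]
          field_simp
          ring
        have i2 : ((m : ℝ) + 2) * α' - ((m : ℝ) + 3) * α = (α' - α) * γ := by
          have j1 : α' * (4 * p - 2) = 1 := by rw [hα']; exact one_div_mul_cancel hq1.ne'
          have j2 : α * (8 * p - 2) = 1 := by rw [hα]; exact one_div_mul_cancel hq2.ne'
          have j3 : γ * (2 * p) = 2 * p * (m + 1) + 1 := by
            rw [hγ]; (clear * - hp1; field_simp)
          have j4 : 0 < (4 * p - 2) * (8 * p - 2) * (2 * p) := by (clear * - hq1 hq2; positivity)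
          have j5 : (((m : ℝ) + 2) * α' - ((m : ℝ) + 3) * α - (α' - α) * γ) *
              ((4 * p - 2) * (8 * p - 2) * (2 * p)) = 0 := by
            linear_combination (((m : ℝ) + 2) * (8 * p - 2) * (2 * p) - γ * (2 * p) * (8 * p - 2)) * j1 -
              (((m : ℝ) + 3) * (4 * p - 2) * (2 * p) - γ * (2 * p) * (4 * p - 2)) * j2 -
              ((8 * p - 2) - (4 * p - 2)) * j3
          have j6 := (mul_eq_zero.1 j5).resolve_right j4.ne'
          (clear * - j6; linarith)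
        exact by
          refine ⟨C1 + 2 * C2, by (clear * - hC1 hC2; positivity), ?_⟩
          intro N N1 t hN hN1 hN2 htN
          have hNr : (1 : ℝ) ≤ N := by exact_mod_cast hN
          have hN0 : (0 : ℝ) < N := by (clear * - hNr; linarith)
          have ht1 : 1 ≤ t := hNr.trans htN
          have ht0 : 0 < t := by (clear * - htN hNr; linarith)
          have ecast : (((m + 1 : ℕ) : ℝ) + 2) = (m : ℝ) + 3 := by push_cast; ring
          rw [ecast]
          set R : ℝ := t ^ α * (N : ℝ) ^ (1 - ((m : ℝ) + 3) * α) with hR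
          exact by
            have hR0 : 0 < R := by (clear * - ht1 hN; positivity)
            rcases le_total ((N : ℝ) ^ γ) t with h | h
            · refine (h2 N N1 t hN hN1 hN2 ht0).trans ?_
              exact by
                have b1 : (N : ℝ) * (t / (N : ℝ) ^ (m + 3)) ^ α = R := by
                  rw [hR, Real.div_rpow ht0.le (by (clear * - hN; positivity)), ← Real.rpow_natCast, ← Real.rpow_mul hN0.le,
                    Real.rpow_sub hN0, Real.rpow_one]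
                  push_cast
                  ring
                have b2 : (N : ℝ) ^ (1 - 4 / (8 * p)) * ((N : ℝ) ^ (m + 3) / t) ^ α ≤ R := by
                  have e1 : (N : ℝ) ^ (1 - 4 / (8 * p)) * ((N : ℝ) ^ (m + 3) / t) ^ α =
                      (N : ℝ) ^ (1 - ((m : ℝ) + 3) * α) * t ^ (-α) * ((N : ℝ) ^ γ) ^ (2 * α) := by
                    rw [Real.div_rpow (by (clear * - hN; positivity)) ht0.le, ← Real.rpow_natCast, ← Real.rpow_mul hN0.le,
                      ← Real.rpow_mul hN0.le, Real.rpow_neg ht0.le, mul_right_comm, ← Real.rpow_add hN0,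
                      ← mul_div_assoc, ← Real.rpow_add hN0, div_eq_mul_inv]
                    congr 2
                    push_cast
                    (clear * - i1; linarith)
                  rw [e1, hR]
                  have e2 : ((N : ℝ) ^ γ) ^ (2 * α) ≤ t ^ (2 * α) :=
                    Real.rpow_le_rpow (by (clear * - hN; positivity)) h (by (clear * - hq2; positivity))
                  calc (N : ℝ) ^ (1 - ((m : ℝ) + 3) * α) * t ^ (-α) * ((N : ℝ) ^ γ) ^ (2 * α) ≤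
                      (N : ℝ) ^ (1 - ((m : ℝ) + 3) * α) * t ^ (-α) * t ^ (2 * α) := by (clear * - e2 hN ht1; gcongr)
                    _ = t ^ α * (N : ℝ) ^ (1 - ((m : ℝ) + 3) * α) := by
                      rw [mul_assoc, ← Real.rpow_add ht0, mul_comm]
                      congr 2
                      ring
                calc C2 * ((N : ℝ) * (t / (N : ℝ) ^ (m + 3)) ^ α + (N : ℝ) ^ (1 - 4 / (8 * p)) *
                      ((N : ℝ) ^ (m + 3) / t) ^ α) ≤ C2 * (R + R) := by rw [b1]; (clear * - b2 hC2; gcongr)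
                  _ ≤ (C1 + 2 * C2) * R := by (clear * - hC1 hR0; nlinarith)
            · refine (h1 N N1 t hN hN1 hN2 htN).trans ?_
              exact by
                have b1 : t ^ α' * (N : ℝ) ^ (1 - ((m : ℝ) + 2) * α') ≤ R := by
                  have e1 : t ^ (α' - α) ≤ ((N : ℝ) ^ γ) ^ (α' - α) :=
                    Real.rpow_le_rpow ht0.le h (by (clear * - hαα'; linarith))
                  have e2 : t ^ α' = t ^ α * t ^ (α' - α) := by
                    rw [← Real.rpow_add ht0]; congr 1; ring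
                  have e3 : ((N : ℝ) ^ γ) ^ (α' - α) * (N : ℝ) ^ (1 - ((m : ℝ) + 2) * α') =
                      (N : ℝ) ^ (1 - ((m : ℝ) + 3) * α) := by
                    rw [← Real.rpow_mul hN0.le, ← Real.rpow_add hN0]
                    congr 1
                    (clear * - i2; linarith)
                  rw [e2, hR, ← e3]
                  calc t ^ α * t ^ (α' - α) * (N : ℝ) ^ (1 - ((m : ℝ) + 2) * α') ≤
                      t ^ α * ((N : ℝ) ^ γ) ^ (α' - α) * (N : ℝ) ^ (1 - ((m : ℝ) + 2) * α') := by (clear * - e1 ht1 hN; gcongr)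
                    _ = _ := by ring
                calc C1 * (t ^ α' * (N : ℝ) ^ (1 - ((m : ℝ) + 2) * α')) ≤ C1 * R := by (clear * - b1 hC1; gcongr)
                  _ ≤ (C1 + 2 * C2) * R := by (clear * - hC2 hR0; nlinarith)

/-! ### from blocks to zeta -/

theorem zeta_of_blocks : ∃ C : ℝ, 0 < C ∧ ∀ σ t B : ℝ, 1 / 2 ≤ σ → σ ≤ 2 → 2 ≤ t → 1 ≤ B →
    (∀ N N1 : ℕ, 1 ≤ N → N < N1 → N1 ≤ 2 * N → (N1 : ℝ) ≤ t ^ 2 →
      ‖∑ n ∈ Finset.Ioc N N1, (n : ℂ) ^ (-((σ : ℂ) + (t : ℂ) * Complex.I))‖ ≤ B) →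
    ‖riemannZeta ((σ : ℂ) + (t : ℂ) * Complex.I)‖ ≤ C * B * Real.log t := by
  obtain ⟨C, hC, h⟩ := A4
  refine ⟨2 * C + 8, by positivity, ?_⟩
  intro σ t B hσ hσ2 ht hB hblk
  have h1 := h σ t hσ hσ2 ht
  set s : ℂ := (σ : ℂ) + (t : ℂ) * Complex.I with hs
  set M := ⌊t ^ 2⌋₊ with hM
  have hMle : (M : ℝ) ≤ t ^ 2 := Nat.floor_le (by positivity)
  have hM1 : 1 ≤ M := by
    apply Nat.one_le_iff_ne_zero.2
    intro h0
    rw [hM, Nat.floor_eq_zero] at h0
    (clear * - ht h0; nlinarith)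
  have hM0 : (0 : ℝ) < M := by exact_mod_cast hM1
  have h2 := dyadic (fun n => (n : ℂ) ^ (-s)) B M hM1 (by (clear * - hB; linarith)) (by simpa using hB)
    (fun N N1 a b c d => hblk N N1 a b c (le_trans (by exact_mod_cast d) hMle))
  have hlt : Real.log 2 ≤ Real.log t := Real.log_le_log (by norm_num) ht
  have hl2 := Real.log_two_gt_d9
  have hlM : Real.log M ≤ 2 * Real.log t := by
    have := Real.log_le_log hM0 hMle
    rw [Real.log_pow] at this
    exact_mod_cast this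
  have h3 : ‖riemannZeta s‖ ≤ C + (2 * Real.log M + 2) * B := by
    have e : riemannZeta s = (riemannZeta s - ∑ n ∈ Finset.Icc 1 M, (n : ℂ) ^ (-s)) +
        ∑ n ∈ Finset.Icc 1 M, (n : ℂ) ^ (-s) := by ring
    rw [e]
    exact (norm_add_le _ _).trans (add_le_add h1 h2)
  have hlt0 : 1 / 2 ≤ Real.log t := by (clear * - hlt hl2; linarith)
  have h4 : C ≤ 2 * C * B * Real.log t := by
    have : 1 / 2 ≤ B * Real.log t := by (clear * - hB hlt hl2; nlinarith)
    (clear * - hC this; nlinarith)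
  have h5 : (2 * Real.log M + 2) * B ≤ 8 * B * Real.log t := by
    have : 2 * Real.log M + 2 ≤ 8 * Real.log t := by (clear * - hlt hl2 hlM; linarith)
    have := mul_le_mul_of_nonneg_right this (show 0 ≤ B by (clear * - hB; linarith))
    (clear * - this; linarith)
  (clear * - h3 h4 h5; linarith)

/-- blocks beyond `t` -/
theorem block_large : ∃ C : ℝ, 1 ≤ C ∧ ∀ (σ t : ℝ) (N N1 : ℕ), 1 / 2 ≤ σ → 1 ≤ t → t ≤ N →
    N < N1 → N1 ≤ 2 * N → (N1 : ℝ) ≤ t ^ 2 →
      ‖∑ n ∈ Finset.Ioc N N1, (n : ℂ) ^ (-((σ : ℂ) + (t : ℂ) * Complex.I))‖ ≤ C := by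
  obtain ⟨C, hC, h⟩ := A2'
  refine ⟨C + 1, by (clear * - hC; linarith), ?_⟩
  intro σ t N N1 hσ ht htN hN1 hN2 hN3
  have hNr : (1 : ℝ) ≤ N := ht.trans htN
  have hN : 1 ≤ N := by exact_mod_cast hNr
  have ht0 : 0 < t := by (clear * - ht; linarith)
  refine (h N N1 σ t hN hN1 hN2 ht0 htN (by (clear * - hσ; linarith))).trans ?_
  have h1 : (N : ℝ) ^ (1 - σ) / t ≤ 1 := by
    rw [div_le_one ht0]
    have h2 : (N : ℝ) ^ (1 - σ) ≤ (N : ℝ) ^ (1 / 2 : ℝ) :=
      Real.rpow_le_rpow_of_exponent_le hNr (by (clear * - hσ; linarith))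
    have h3 : (N : ℝ) ≤ t ^ 2 := by
      have : (N : ℝ) ≤ N1 := by exact_mod_cast hN1.le
      (clear * - hN3 this; linarith)
    have h4 : (N : ℝ) ^ (1 / 2 : ℝ) ≤ t := by
      rw [← Real.sqrt_eq_rpow]
      exact Real.sqrt_le_iff.2 ⟨ht0.le, h3⟩
    (clear * - h2 h4; linarith)
  (clear * - hC h1; nlinarith)

/-- A5 (a): the critical line, Weyl's exponent -/
theorem A5a : ∃ C : ℝ, 0 < C ∧ ∀ t : ℝ, 2 ≤ t →
    ‖riemannZeta ((1 / 2 : ℂ) + (t : ℂ) * Complex.I)‖ ≤ C * t ^ (1 / 6 : ℝ) * Real.log t := by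
  obtain ⟨C0, hC0, h0⟩ := zeta_of_blocks
  obtain ⟨C1, hC1, h1⟩ := block_large
  obtain ⟨C2, hC2, h2⟩ := Ek 1
  refine ⟨C0 * (C1 + C2), by (clear * - hC0 hC1 hC2; positivity), ?_⟩
  intro t ht
  have ht0 : 0 < t := by (clear * - ht; linarith)
  have ht1 : 1 ≤ t := by linarith
  have htp : 1 ≤ t ^ (1 / 6 : ℝ) := Real.one_le_rpow ht1 (by norm_num)
  have h3 := h0 (1 / 2) t ((C1 + C2) * t ^ (1 / 6 : ℝ)) le_rfl (by norm_num) ht (by (clear * - hC1 hC2 htp; nlinarith)) ?_
  · push_cast at h3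
    refine h3.trans (le_of_eq (by ring))
  · intro N N1 hN hN1 hN2 hN3
    have hNr : (1 : ℝ) ≤ N := by exact_mod_cast hN
    have hN0 : (0 : ℝ) < N := by (clear * - hNr; linarith)
    rcases le_total (N : ℝ) t with h | h
    · refine (abel_pow (B := C2 * (t ^ (1 / 6 : ℝ) * (N : ℝ) ^ (1 / 2 : ℝ))) hN (by norm_num)
        (by (clear * - hC2 ht hN; positivity)) ?_).trans ?_
      · intro N' a b
        have h4 := h2 N N' t hN a (by omega) h
        have e1 : (1 / (2 ^ (1 + 2) - 2) : ℝ) = 1 / 6 := by norm_num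
        rw [e1] at h4
        have e2 : (1 - (((1 : ℕ) : ℝ) + 2) * (1 / 6) : ℝ) = 1 / 2 := by norm_num
        rw [e2] at h4
        exact h4
      · have e3 : (N : ℝ) ^ (-(1 / 2) : ℝ) * (C2 * (t ^ (1 / 6 : ℝ) * (N : ℝ) ^ (1 / 2 : ℝ))) =
            C2 * t ^ (1 / 6 : ℝ) := by
          have : (N : ℝ) ^ (-(1 / 2) : ℝ) * (N : ℝ) ^ (1 / 2 : ℝ) = 1 := by
            rw [← Real.rpow_add hN0]; simp
          linear_combination (C2 * t ^ (1 / 6 : ℝ)) * this
        rw [e3]
        (clear * - hC1 htp; nlinarith)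
    · refine (h1 (1 / 2) t N N1 le_rfl ht1 h hN1 hN2 hN3).trans ?_
      (clear * - hC2 htp hC1; nlinarith)

/-- A5 (b): near the line 1 -/
theorem A5b : ∃ C : ℝ, 0 < C ∧ ∀ σ t : ℝ, 2 ≤ t → 5 / 7 ≤ σ → σ ≤ 1 →
    ‖riemannZeta ((σ : ℂ) + (t : ℂ) * Complex.I)‖ ≤ C * t ^ ((1 - σ) / 4) * Real.log t := by
  obtain ⟨C0, hC0, h0⟩ := zeta_of_blocks
  obtain ⟨C1, hC1, h1⟩ := block_large
  obtain ⟨C2, hC2, h2⟩ := Ek 2
  refine ⟨C0 * (C1 + C2 + 1), by positivity, ?_⟩
  intro σ t ht hσ hσ1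
  have ht0 : 0 < t := by (clear * - ht; linarith)
  have ht1 : 1 ≤ t := by (clear * - ht; linarith)
  have htp : 1 ≤ t ^ ((1 - σ) / 4) := Real.one_le_rpow ht1 (by (clear * - hσ1; linarith))
  have h3 := h0 σ t ((C1 + C2 + 1) * t ^ ((1 - σ) / 4)) (by (clear * - hσ; linarith)) (by (clear * - hσ1; linarith)) ht (by (clear * - hC1 hC2 htp; nlinarith)) ?_
  · refine h3.trans (le_of_eq (by ring))
  · intro N N1 hN hN1 hN2 hN3
    have hNr : (1 : ℝ) ≤ N := by exact_mod_cast hN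
    have hN0 : (0 : ℝ) < N := by (clear * - hNr; linarith)
    rcases le_total (N : ℝ) t with h | h
    · rcases le_total (N : ℝ) (t ^ (1 / 4 : ℝ)) with h' | h'
      · refine (abel_pow (B := N) hN (by (clear * - hσ; linarith)) (by positivity) ?_).trans ?_
        · intro N' a b
          exact norm_Sit_le t (by omega)
        · have e3 : (N : ℝ) ^ (-σ) * N = (N : ℝ) ^ (1 - σ) := by
            rw [show (1 - σ) = -σ + 1 by ring, Real.rpow_add hN0, Real.rpow_one]
          rw [e3]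
          have e4 : (N : ℝ) ^ (1 - σ) ≤ t ^ ((1 - σ) / 4) := by
            calc (N : ℝ) ^ (1 - σ) ≤ (t ^ (1 / 4 : ℝ)) ^ (1 - σ) :=
                  Real.rpow_le_rpow hN0.le h' (by (clear * - hσ1; linarith))
              _ = t ^ ((1 - σ) / 4) := by
                  rw [← Real.rpow_mul ht0.le]; congr 1; ring
          (clear * - hC1 hC2 htp e4; nlinarith)
      · refine (abel_pow (B := C2 * (t ^ (1 / 14 : ℝ) * (N : ℝ) ^ (5 / 7 : ℝ))) hN (by (clear * - hσ; linarith))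
          (by (clear * - hC2 ht hN; positivity)) ?_).trans ?_
        · intro N' a b
          have h4 := h2 N N' t hN a (by omega) h
          have e1 : (1 / (2 ^ (2 + 2) - 2) : ℝ) = 1 / 14 := by norm_num
          rw [e1] at h4
          have e2 : (1 - (((2 : ℕ) : ℝ) + 2) * (1 / 14) : ℝ) = 5 / 7 := by norm_num
          rw [e2] at h4
          exact h4
        · have e3 : (N : ℝ) ^ (-σ) * (C2 * (t ^ (1 / 14 : ℝ) * (N : ℝ) ^ (5 / 7 : ℝ))) =
              C2 * (t ^ (1 / 14 : ℝ) * (N : ℝ) ^ (5 / 7 - σ)) := by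
            have : (N : ℝ) ^ (5 / 7 - σ) = (N : ℝ) ^ (-σ) * (N : ℝ) ^ (5 / 7 : ℝ) := by
              rw [← Real.rpow_add hN0]; congr 1; ring
            rw [this]; ring
          rw [e3]
          have e4 : t ^ (1 / 14 : ℝ) * (N : ℝ) ^ (5 / 7 - σ) ≤ t ^ ((1 - σ) / 4) := by
            calc t ^ (1 / 14 : ℝ) * (N : ℝ) ^ (5 / 7 - σ) ≤
                t ^ (1 / 14 : ℝ) * (t ^ (1 / 4 : ℝ)) ^ (5 / 7 - σ) := by
                  apply mul_le_mul_of_nonneg_left _ (by positivity)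
                  exact Real.rpow_le_rpow_of_nonpos (by positivity) h' (by (clear * - hσ; linarith))
              _ = t ^ ((1 - σ) / 4) := by
                  rw [← Real.rpow_mul ht0.le, ← Real.rpow_add ht0]; congr 1; ring
          calc C2 * (t ^ (1 / 14 : ℝ) * (N : ℝ) ^ (5 / 7 - σ)) ≤ C2 * t ^ ((1 - σ) / 4) := by gcongr
            _ ≤ _ := by (clear * - hC1 htp; nlinarith)
    · refine (h1 σ t N N1 (by linarith) ht1 h hN1 hN2 hN3).trans ?_
      (clear * - hC2 htp hC1; nlinarith)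

/-- A5 (c): right of the line 1 -/
theorem A5c : ∃ C : ℝ, 0 < C ∧ ∀ σ t : ℝ, 2 ≤ t → 1 ≤ σ →
    ‖riemannZeta ((σ : ℂ) + (t : ℂ) * Complex.I)‖ ≤ C * Real.log t := by
  obtain ⟨C0, hC0, h0⟩ := zeta_of_blocks
  set Z : ℝ := ∑' n : ℕ, ((n : ℝ) + 1) ^ (-2 : ℝ) with hZ
  have hZs : Summable (fun n : ℕ => ((n : ℝ) + 1) ^ (-2 : ℝ)) :=
    Pool.Agent.M20.Helper69.QRH.summable_rpow_aux (by norm_num)
  have hZ0 : 0 ≤ Z := tsum_nonneg fun n => by (clear * -; positivity)
  refine ⟨C0 + 2 * Z, by (clear * - hC0; positivity), ?_⟩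
  intro σ t ht hσ
  have ht0 : 0 < t := by linarith
  have hlt : Real.log 2 ≤ Real.log t := Real.log_le_log (by norm_num) ht
  have hl2 := Real.log_two_gt_d9
  exact by
    rcases le_total σ 2 with h | h
    · have h3 := h0 σ t 1 (by (clear * - hσ; linarith)) h ht le_rfl ?_
      · rw [mul_one] at h3
        (clear * - hZ0 h3 hlt hl2; nlinarith)
      · intro N N1 hN hN1 hN2 hN3
        have hNr : (1 : ℝ) ≤ N := by exact_mod_cast hN
        have hN0 : (0 : ℝ) < N := by (clear * - hNr; linarith)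
        refine (abel_pow (B := N) hN (by (clear * - hσ; linarith)) (by positivity) ?_).trans ?_
        · intro N' a b
          exact norm_Sit_le t (by omega)
        · have e3 : (N : ℝ) ^ (-σ) * N = (N : ℝ) ^ (1 - σ) := by
            rw [show (1 - σ) = -σ + 1 by ring, Real.rpow_add hN0, Real.rpow_one]
          rw [e3]
          exact Real.rpow_le_one_of_one_le_of_nonpos hNr (by (clear * - hσ; linarith))
    · set s : ℂ := (σ : ℂ) + (t : ℂ) * Complex.I with hs
      exact by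
        have hre : s.re = σ := by simp [hs]
        have h5 : ‖riemannZeta s‖ ≤ Z := by
          rw [zeta_eq_tsum_one_div_nat_add_one_cpow (by rw [hre]; (clear * - h; linarith))]
          refine tsum_of_norm_bounded hZs.hasSum fun n => ?_
          have e1 : ((n : ℂ) + 1) = (((n : ℝ) + 1 : ℝ) : ℂ) := by push_cast; ring
          have hn : (0 : ℝ) ≤ n := Nat.cast_nonneg n
          rw [norm_div, norm_one, e1, Complex.norm_cpow_eq_rpow_re_of_pos (by positivity), hre,
            one_div, ← Real.rpow_neg (by positivity)]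
          exact Real.rpow_le_rpow_of_exponent_le (by (clear * -; linarith)) (by linarith)
        nlinarith

end Pool.Agent.M20.Helper67.KSZ
end

/- Helper53.KN.Helper67.KSZ.ZetaC -/
section
/-! KSZ (MP_768c9c_nt): zeta near the line 1 (A6). -/

set_option autoImplicit false
open Filter Topology Asymptotics

namespace Pool.Agent.M20.Helper67.KSZ

/-- A6: near the line 1 -/
theorem A6 (K : ℝ) (hK : 1 ≤ K) : ∃ t0 : ℝ, 3 ≤ t0 ∧ ∀ t σ : ℝ, t0 ≤ t →
    1 - K * Real.log (Real.log t) / Real.log t ≤ σ →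
    ‖riemannZeta ((σ : ℂ) + (t : ℂ) * Complex.I)‖ ≤ Real.log t ^ 3 := by
  have hK0 : 0 < K := by linarith
  obtain ⟨C0, hC0, h0⟩ := zeta_of_blocks
  obtain ⟨C1, hC1, h1⟩ := A5c
  set A : ℝ := max K 2 with hA
  have hA1 : 1 ≤ A := le_trans (by norm_num) (le_max_right K 2)
  have hAK : K ≤ A := le_max_left _ _
  have hA2 : 2 ≤ A := le_max_right _ _
  obtain ⟨c, C3, hc, hC3, h3⟩ := A3 A hA1
  -- eventual inequalities
  have ev1 : ∀ᶠ t : ℝ in atTop, K * Real.log (Real.log t) / Real.log t ≤ 1 / 2 := by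
    have e1 := (Real.isLittleO_log_id_atTop.comp_tendsto Real.tendsto_log_atTop).def
      (show 0 < 1 / (2 * K) by positivity)
    filter_upwards [e1, eventually_ge_atTop (Real.exp 1)] with t ht ht1
    have hL : 1 ≤ Real.log t := by
      rw [← Real.log_exp 1]; exact Real.log_le_log (Real.exp_pos 1) ht1
    simp only [Function.comp_apply, id_eq, Real.norm_eq_abs] at ht
    rw [abs_of_pos (show 0 < Real.log t by linarith)] at ht
    have h5 : Real.log (Real.log t) ≤ 1 / (2 * K) * Real.log t := (le_abs_self _).trans ht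
    rw [div_le_iff₀ (by linarith)]
    calc K * Real.log (Real.log t) ≤ K * (1 / (2 * K) * Real.log t) := by gcongr
      _ = 1 / 2 * Real.log t := by field_simp
  exact by
    have ev2 : ∀ᶠ t : ℝ in atTop, C3 * (Real.log t ^ (2 * K) * t ^ (-(c / K))) ≤ 1 := by
      have e1 := (isLittleO_log_rpow_rpow_atTop (2 * K) (show 0 < c / K by positivity)).def
        (show 0 < 1 / C3 by positivity)
      filter_upwards [e1, eventually_ge_atTop (Real.exp 1)] with t ht ht1
      have ht0 : 0 < t := lt_of_lt_of_le (Real.exp_pos 1) ht1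
      have hL : 1 ≤ Real.log t := by
        rw [← Real.log_exp 1]; exact Real.log_le_log (Real.exp_pos 1) ht1
      rw [Real.norm_of_nonneg (by positivity), Real.norm_of_nonneg (by positivity)] at ht
      rw [Real.rpow_neg ht0.le]
      have hp : 0 < t ^ (c / K) := by positivity
      calc C3 * (Real.log t ^ (2 * K) * (t ^ (c / K))⁻¹) ≤
          C3 * ((1 / C3 * t ^ (c / K)) * (t ^ (c / K))⁻¹) := by (clear * - ht ht0 hC3; gcongr)
        _ = 1 := by field_simp
    obtain ⟨t1, ht1⟩ := eventually_atTop.1 ev1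
    obtain ⟨t2, ht2⟩ := eventually_atTop.1 ev2
    refine ⟨max (max t1 t2) (max (Real.exp (C0 + C1 + 1)) 3), le_trans (le_max_right _ _) (le_max_right _ _), ?_⟩
    intro t σ ht hσ
    have b1 := ht1 t (le_trans (le_trans (le_max_left _ _) (le_max_left _ _)) ht)
    have b2 := ht2 t (le_trans (le_trans (le_max_right _ _) (le_max_left _ _)) ht)
    have b3 : Real.exp (C0 + C1 + 1) ≤ t := le_trans (le_trans (le_max_left _ _) (le_max_right _ _)) ht
    have b4 : 3 ≤ t := le_trans (le_trans (le_max_right _ _) (le_max_right _ _)) ht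
    set L := Real.log t with hL
    have hLC : C0 + C1 + 1 ≤ L := by
      rw [hL, ← Real.log_exp (C0 + C1 + 1)]; exact Real.log_le_log (Real.exp_pos _) b3
    have hL1 : 1 ≤ L := by (clear * - hC0 hC1 hLC; linarith)
    exact by
      have ht0 : 0 < t := by linarith
      have htr : 1 ≤ t := by (clear * - b4; linarith)
      have hL2 : L ≤ L ^ 2 := by (clear * - hC0 hC1 hLC; nlinarith)
      rcases le_total 1 σ with h | h
      · refine (h1 σ t (by linarith) h).trans ?_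
        calc C1 * L ≤ L * L := by gcongr; (clear * - hC0 hLC; linarith)
          _ ≤ L ^ 3 := by (clear * - hC0 hC1 hLC; nlinarith)
      have hσ2 : 1 / 2 ≤ σ := by linarith
      have hσ3 : 1 - σ ≤ K * Real.log L / L := by (clear * - hσ; linarith)
      have h5 := h0 σ t L hσ2 (by (clear * - h; linarith)) (by (clear * - b4; linarith)) hL1 ?_
      · refine h5.trans ?_
        calc C0 * L * L ≤ L * L * L := by gcongr; (clear * - hC1 hLC; linarith)
          _ = L ^ 3 := by ring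
      · intro N N1 hN hN1 hN2 hN3
        exact by
          have hNr : (1 : ℝ) ≤ N := by exact_mod_cast hN
          have hN0 : (0 : ℝ) < N := by (clear * - hNr; linarith)
          -- `x^(1-σ)` for `x = t^a`
          have hpow : t ^ (1 - σ) ≤ L ^ K := by
            rw [Real.rpow_def_of_pos ht0, Real.rpow_def_of_pos (by (clear * - hC0 hC1 hLC; linarith) : (0 : ℝ) < L)]
            apply Real.exp_le_exp.2
            rw [← hL]
            calc L * (1 - σ) ≤ L * (K * Real.log L / L) := by (clear * - hσ3 hL1; gcongr)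
              _ = Real.log L * K := by (clear * - hL1 hK; field_simp)
          have hpos1 : 0 < t ^ (1 - σ) := by positivity
          rcases le_total (N : ℝ) (t ^ (1 / K)) with h' | h'
          · refine (abel_pow (B := N) hN (by (clear * - hσ b1; linarith)) (by positivity) ?_).trans ?_
            · intro N' a b
              exact norm_Sit_le t (by omega)
            · have e3 : (N : ℝ) ^ (-σ) * N = (N : ℝ) ^ (1 - σ) := by
                rw [show (1 - σ) = -σ + 1 by ring, Real.rpow_add hN0, Real.rpow_one]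
              rw [e3]
              calc (N : ℝ) ^ (1 - σ) ≤ (t ^ (1 / K)) ^ (1 - σ) :=
                    Real.rpow_le_rpow hN0.le h' (by (clear * - h; linarith))
                _ = (t ^ (1 - σ)) ^ (1 / K) := by
                    rw [← Real.rpow_mul ht0.le, ← Real.rpow_mul ht0.le]; congr 1; ring
                _ ≤ (L ^ K) ^ (1 / K) := Real.rpow_le_rpow hpos1.le hpow (by positivity)
                _ = L := by
                    rw [← Real.rpow_mul (by (clear * - hC0 hC1 hLC; linarith)), mul_one_div_cancel hK0.ne', Real.rpow_one]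
          · have hNt2 : (N : ℝ) ≤ t ^ 2 := by
              have : (N : ℝ) ≤ N1 := by exact_mod_cast hN1.le
              (clear * - hN3 this; linarith)
            exact by
              have c1 : (N : ℝ) ^ (1 / A) ≤ t := by
                calc (N : ℝ) ^ (1 / A) ≤ (N : ℝ) ^ (1 / 2 : ℝ) :=
                      Real.rpow_le_rpow_of_exponent_le hNr (one_div_le_one_div_of_le (by norm_num) hA2)
                  _ ≤ t := by
                      rw [← Real.sqrt_eq_rpow]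
                      exact Real.sqrt_le_iff.2 ⟨ht0.le, hNt2⟩
              have c2 : t ≤ (N : ℝ) ^ A := by
                calc t = (t ^ (1 / K)) ^ K := by
                      rw [← Real.rpow_mul ht0.le, one_div_mul_cancel hK0.ne', Real.rpow_one]
                  _ ≤ (N : ℝ) ^ K := Real.rpow_le_rpow (by positivity) h' hK0.le
                  _ ≤ (N : ℝ) ^ A := Real.rpow_le_rpow_of_exponent_le hNr hAK
              refine (abel_pow (B := C3 * (N : ℝ) ^ (1 - c)) hN (by (clear * - hσ b1; linarith)) (by (clear * - hC3 hN; positivity)) ?_).trans ?_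
              · intro N' a b
                exact h3 N N' t hN a (by omega) c1 c2
              · have e3 : (N : ℝ) ^ (-σ) * (C3 * (N : ℝ) ^ (1 - c)) =
                    C3 * ((N : ℝ) ^ (1 - σ) * (N : ℝ) ^ (-c)) := by
                  have : (N : ℝ) ^ (-σ) * (N : ℝ) ^ (1 - c) = (N : ℝ) ^ (1 - σ) * (N : ℝ) ^ (-c) := by
                    rw [← Real.rpow_add hN0, ← Real.rpow_add hN0]; congr 1; ring
                  linear_combination C3 * this
                exact by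
                  rw [e3]
                  have d1 : (N : ℝ) ^ (1 - σ) ≤ L ^ (2 * K) := by
                    calc (N : ℝ) ^ (1 - σ) ≤ (t ^ 2) ^ (1 - σ) := Real.rpow_le_rpow hN0.le hNt2 (by (clear * - h; linarith))
                      _ = (t ^ (1 - σ)) ^ (2 : ℝ) := by
                          rw [← Real.rpow_natCast, ← Real.rpow_mul ht0.le, ← Real.rpow_mul ht0.le]
                          congr 1; push_cast; ring
                      _ ≤ (L ^ K) ^ (2 : ℝ) := Real.rpow_le_rpow hpos1.le hpow (by norm_num)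
                      _ = L ^ (2 * K) := by rw [← Real.rpow_mul (by (clear * - hC0 hC1 hLC; linarith))]; congr 1; ring
                  have d2 : (N : ℝ) ^ (-c) ≤ t ^ (-(c / K)) := by
                    calc (N : ℝ) ^ (-c) ≤ (t ^ (1 / K)) ^ (-c) :=
                          Real.rpow_le_rpow_of_nonpos (by positivity) h' (by (clear * - hc; linarith))
                      _ = t ^ (-(c / K)) := by rw [← Real.rpow_mul ht0.le]; congr 1; ring
                  calc C3 * ((N : ℝ) ^ (1 - σ) * (N : ℝ) ^ (-c)) ≤ C3 * (L ^ (2 * K) * t ^ (-(c / K))) := by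
                        (clear * - d1 d2 hN hL1 hC3; gcongr)
                    _ ≤ 1 := b2
                    _ ≤ L := hL1

end Pool.Agent.M20.Helper67.KSZ
end

/- Helper53.KN.Helper72.KC.Huxley -/
section
/-! Project KS, module KC-4: large values by Halász-Montgomery-Huxley. -/

set_option autoImplicit false
set_option linter.all false
open Filter Topology MeasureTheory
open scoped Classical

namespace Pool.Agent.M20.Helper72.KC

open Pool.Agent.M20.Helper60.KS

/-! ### exponential sums -/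

theorem conj_natCast_cpow (n : ℕ) (s : ℂ) :
    (starRingEnd ℂ) ((n : ℂ) ^ s) = (n : ℂ) ^ ((starRingEnd ℂ) s) := by
  have h := Complex.cpow_conj (n : ℂ) s (by
    rw [Complex.natCast_arg]
    exact Real.pi_pos.ne)
  rw [Complex.conj_natCast] at h
  exact h.symm

theorem block_le {C : ℝ} (hC : ∀ (N N1 : ℕ) (t κ : ℝ), 1 ≤ N → N < N1 → N1 ≤ 2 * N → 1 ≤ t →
    0 ≤ κ → κ ≤ 1 → ‖∑ n ∈ Finset.Ioc N N1, (n : ℂ) ^ (-((κ : ℂ) + t * Complex.I))‖ ≤
      C * (N : ℝ) ^ (-κ) * (N / t + Real.sqrt t)) (hC0 : 0 < C)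
    (Q : ℕ) (hQ : 1 ≤ Q) (t κ : ℝ) (ht : 1 ≤ t) (hκ : 0 ≤ κ) (hκ1 : κ ≤ 1) (h : ℕ) :
    ‖∑ n ∈ Finset.Ioc Q ((h + 1) * Q), (n : ℂ) ^ (-((κ : ℂ) + t * Complex.I))‖ ≤
      C * h * (h * Q / t + Real.sqrt t) := by
  induction h with
  | zero => simp
  | succ h ih =>
    have hst : Real.sqrt t ≥ 0 := Real.sqrt_nonneg t
    have h1 : Q ≤ (h + 1) * Q := Nat.le_mul_of_pos_left Q (Nat.succ_pos h)
    have h2 : (h + 1) * Q ≤ (h + 1 + 1) * Q := Nat.mul_le_mul_right Q (Nat.le_succ _)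
    rw [← Finset.sum_Ioc_consecutive _ h1 h2]
    refine (norm_add_le _ _).trans ?_
    have hN : 1 ≤ (h + 1) * Q := hQ.trans h1
    have h3 := hC ((h + 1) * Q) ((h + 1 + 1) * Q) t κ hN
      (by rw [Nat.succ_mul (h + 1)]; exact Nat.lt_add_of_pos_right hQ)
      (by rw [Nat.succ_mul (h + 1), two_mul]; exact Nat.add_le_add_left h1 _) ht hκ hκ1
    have hN1 : (1 : ℝ) ≤ (((h + 1) * Q : ℕ) : ℝ) := Nat.one_le_cast.2 hN
    have h4 : (((h + 1) * Q : ℕ) : ℝ) ^ (-κ) ≤ 1 :=
      Real.rpow_le_one_of_one_le_of_nonpos hN1 (by (clear * - hκ; linarith))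
    have h5 : C * (((h + 1) * Q : ℕ) : ℝ) ^ (-κ) * ((((h + 1) * Q : ℕ) : ℝ) / t + Real.sqrt t) ≤
        C * ((((h + 1) * Q : ℕ) : ℝ) / t + Real.sqrt t) := by
      have h6 : 0 ≤ (((h + 1) * Q : ℕ) : ℝ) / t + Real.sqrt t := by (clear * - hQ ht; positivity)
      have h7 : C * (((h + 1) * Q : ℕ) : ℝ) ^ (-κ) ≤ C * 1 := mul_le_mul_of_nonneg_left h4 hC0.le
      calc _ ≤ C * 1 * ((((h + 1) * Q : ℕ) : ℝ) / t + Real.sqrt t) :=
            mul_le_mul_of_nonneg_right h7 h6
        _ = _ := by ring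
    have h8 := add_le_add ih (h3.trans h5)
    refine h8.trans ?_
    push_cast
    have ht0 : 0 < t := by (clear * - ht; linarith)
    have h9 : 0 ≤ C * (h : ℝ) * (Q / t) := by (clear * - hC0 hQ ht; positivity)
    have h10 : C * (h : ℝ) * (h * Q / t + Real.sqrt t) + C * (((h : ℝ) + 1) * Q / t + Real.sqrt t) =
        C * ((h : ℝ) + 1) * (((h : ℝ) + 1) * Q / t + Real.sqrt t) - C * (h : ℝ) * (Q / t) := by
      ring
    exact h10.trans_le (sub_le_self _ h9)

theorem expsum_bound (hA2 : A2) : ∃ C : ℝ, 0 < C ∧ ∀ (h Q : ℕ) (τ κ : ℝ), 1 ≤ h → 1 ≤ Q →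
    1 ≤ |τ| → 0 ≤ κ → κ ≤ 1 →
    ‖∑ n ∈ Finset.Ioc Q (h * Q), (n : ℂ) ^ (-((κ : ℂ) + τ * Complex.I))‖ ≤
      C * h * (h * Q / |τ| + Real.sqrt |τ|) := by
  obtain ⟨C, hC0, hC⟩ := hA2
  refine ⟨C, hC0, fun h Q τ κ hh hQ hτ hκ hκ1 => ?_⟩
  obtain ⟨k, rfl⟩ : ∃ k, h = k + 1 := ⟨h - 1, by omega⟩
  have hpos : ∀ t : ℝ, 1 ≤ t →
      ‖∑ n ∈ Finset.Ioc Q ((k + 1) * Q), (n : ℂ) ^ (-((κ : ℂ) + t * Complex.I))‖ ≤
      C * ((k + 1 : ℕ) : ℝ) * (((k + 1 : ℕ) : ℝ) * Q / t + Real.sqrt t) := by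
    intro t ht
    have h1 := block_le hC hC0 Q hQ t κ ht hκ hκ1 k
    refine h1.trans ?_
    have ht0 : 0 < t := zero_lt_one.trans_le ht
    have h2 : (k : ℝ) ≤ ((k + 1 : ℕ) : ℝ) := Nat.cast_le.2 (Nat.le_succ k)
    exact mul_le_mul (mul_le_mul_of_nonneg_left h2 hC0.le)
      (add_le_add (div_le_div_of_nonneg_right (mul_le_mul_of_nonneg_right h2 (Nat.cast_nonneg _))
        ht0.le) le_rfl)
      (add_nonneg (div_nonneg (mul_nonneg (Nat.cast_nonneg _) (Nat.cast_nonneg _)) ht0.le)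
        (Real.sqrt_nonneg _)) (mul_nonneg hC0.le (Nat.cast_nonneg _))
  rcases le_total 0 τ with h0 | h0
  · rw [abs_of_nonneg h0] at hτ ⊢
    exact hpos τ hτ
  · rw [abs_of_nonpos h0] at hτ ⊢
    have h1 := hpos (-τ) hτ
    have h2 : ‖∑ n ∈ Finset.Ioc Q ((k + 1) * Q), (n : ℂ) ^ (-((κ : ℂ) + τ * Complex.I))‖ =
        ‖∑ n ∈ Finset.Ioc Q ((k + 1) * Q), (n : ℂ) ^ (-((κ : ℂ) + ((-τ : ℝ) : ℂ) * Complex.I))‖ := by
      rw [← Complex.norm_conj, map_sum]
      congr 1
      refine Finset.sum_congr rfl fun n _ => ?_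
      rw [conj_natCast_cpow]
      congr 1
      simp only [neg_add_rev, map_add, map_neg, map_mul, Complex.conj_ofReal, Complex.conj_I,
        mul_neg, neg_neg, Complex.ofReal_neg, neg_mul]
    rw [h2]
    exact h1

/-! ### spaced heights -/

theorem half_sum (S : Finset ℝ) (M : ℕ) (h1 : ∀ x ∈ S, 1 ≤ x ∧ x < M + 1)
    (h2 : ∀ x ∈ S, ∀ y ∈ S, x ≠ y → 1 ≤ |x - y|) :
    ∑ x ∈ S, 1 / x ≤ 1 + Real.log M := by
  have h3 : ∀ x ∈ S, 1 / x ≤ 1 / ((⌊x⌋₊ : ℕ) : ℝ) := by
    intro x hx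
    have h4 := (h1 x hx).1
    have h5 : 1 ≤ ⌊x⌋₊ := Nat.one_le_floor_iff x |>.2 h4
    have h6 : (1 : ℝ) ≤ ((⌊x⌋₊ : ℕ) : ℝ) := by exact_mod_cast h5
    exact one_div_le_one_div_of_le (zero_lt_one.trans_le h6) (Nat.floor_le (zero_le_one.trans h4))
  have hinj : Set.InjOn (fun x : ℝ => ⌊x⌋₊) (S : Set ℝ) := by
    intro x hx y hy hxy
    by_contra hne
    have h4 := h2 x hx y hy hne
    have hx1 := (h1 x hx).1
    have hy1 := (h1 y hy).1
    have a1 := Nat.floor_le (zero_le_one.trans hx1)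
    have a2 := Nat.lt_floor_add_one x
    have b1 := Nat.floor_le (zero_le_one.trans hy1)
    have b2 := Nat.lt_floor_add_one y
    simp only at hxy
    rw [hxy] at a1 a2
    have h5 : |x - y| < 1 := abs_sub_lt_iff.2 ⟨sub_lt_iff_lt_add'.2
      (a2.trans_le (add_le_add b1 le_rfl)), sub_lt_iff_lt_add'.2 (b2.trans_le (add_le_add a1 le_rfl))⟩
    exact absurd h5 (not_lt.2 h4)
  calc ∑ x ∈ S, 1 / x ≤ ∑ x ∈ S, 1 / ((⌊x⌋₊ : ℕ) : ℝ) := Finset.sum_le_sum h3
    _ = ∑ k ∈ S.image (fun x => ⌊x⌋₊), 1 / (k : ℝ) := by rw [Finset.sum_image hinj]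
    _ ≤ ∑ k ∈ Finset.Icc 1 M, 1 / (k : ℝ) := by
        refine Finset.sum_le_sum_of_subset_of_nonneg ?_ fun i _ _ => by (clear * -; positivity)
        intro k hk
        obtain ⟨x, hx, rfl⟩ := Finset.mem_image.1 hk
        have h4 := h1 x hx
        rw [Finset.mem_Icc]
        refine ⟨Nat.one_le_floor_iff x |>.2 h4.1, ?_⟩
        have h5 : ⌊x⌋₊ < M + 1 := by
          rw [Nat.floor_lt (by (clear * - h4; linarith))]
          push_cast
          exact h4.2
        omega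
    _ = ((harmonic M : ℚ) : ℝ) := by
        rw [harmonic_eq_sum_Icc]
        push_cast
        refine Finset.sum_congr rfl fun i _ => by simp
    _ ≤ 1 + Real.log M := harmonic_le_one_add_log M

theorem spaced_sum (Z : Finset ℂ) (T : ℝ) (hT : 1 ≤ T) (hZ : Spaced1 Z)
    (hZT : ∀ ρ ∈ Z, |ρ.im| ≤ T) (ρ : ℂ) (hρ : ρ ∈ Z) :
    ∑ ρ' ∈ Z.erase ρ, 1 / |ρ.im - ρ'.im| ≤ 2 + 2 * Real.log (2 * T + 1) := by
  obtain ⟨M, hM1, hM2⟩ : ∃ M : ℕ, (M : ℝ) ≤ 2 * T + 1 ∧ 2 * T < M + 1 :=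
    ⟨⌊2 * T⌋₊, by linarith [Nat.floor_le (show 0 ≤ 2 * T by linarith)], Nat.lt_floor_add_one _⟩
  have hM0 : (0 : ℝ) < M := by
    by_contra h0
    have : (M : ℝ) = 0 := le_antisymm (not_lt.1 h0) (Nat.cast_nonneg M)
    rw [this] at hM2
    (clear * - hT hM2; linarith)
  have hlog : Real.log M ≤ Real.log (2 * T + 1) := Real.log_le_log hM0 hM1
  have key : ∀ e : ℝ, (e = 1 ∨ e = -1) →
      ∑ ρ' ∈ (Z.erase ρ).filter (fun ρ' => 0 < e * (ρ.im - ρ'.im)), 1 / |ρ.im - ρ'.im| ≤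
        1 + Real.log M := by
    intro e he
    have he2 : |e| = 1 := by rcases he with rfl | rfl <;> simp
    have hinj : Set.InjOn (fun ρ' : ℂ => |ρ.im - ρ'.im|)
        (((Z.erase ρ).filter (fun ρ' => 0 < e * (ρ.im - ρ'.im)) : Finset ℂ) : Set ℂ) := by
      intro x hx y hy hxy
      rw [Finset.mem_coe, Finset.mem_filter, Finset.mem_erase] at hx hy
      simp only at hxy
      by_contra hne
      have h1 := hZ x hx.1.2 y hy.1.2 hne
      have h2 : x.im = y.im := by
        rcases he with rfl | rfl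
        · have := hx.2; have := hy.2
          rw [abs_of_pos (by (clear * - hx; linarith)), abs_of_pos (by (clear * - hy; linarith))] at hxy
          (clear * - hxy; linarith)
        · have := hx.2; have := hy.2
          rw [abs_of_neg (by linarith), abs_of_neg (by linarith)] at hxy
          linarith
      rw [h2] at h1
      simp at h1
      linarith
    rw [← Finset.sum_image (f := fun x : ℝ => 1 / x) hinj]
    refine half_sum _ M ?_ ?_
    · intro x hx
      obtain ⟨ρ', hρ', rfl⟩ := Finset.mem_image.1 hx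
      rw [Finset.mem_filter, Finset.mem_erase] at hρ'
      refine ⟨hZ ρ hρ ρ' hρ'.1.2 (Ne.symm hρ'.1.1), ?_⟩
      have a := hZT ρ hρ
      have b := hZT ρ' hρ'.1.2
      have c := abs_sub ρ.im ρ'.im
      linarith
    · intro x hx y hy hxy
      obtain ⟨a, ha, rfl⟩ := Finset.mem_image.1 hx
      obtain ⟨b, hb, rfl⟩ := Finset.mem_image.1 hy
      rw [Finset.mem_filter, Finset.mem_erase] at ha hb
      have hab : a ≠ b := by
        rintro rfl
        exact hxy rfl
      have h1 := hZ a ha.1.2 b hb.1.2 hab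
      have h2 : |(|ρ.im - a.im| - |ρ.im - b.im|)| = |a.im - b.im| := by
        rcases he with rfl | rfl
        · have := ha.2; have := hb.2
          rw [abs_of_pos (show 0 < ρ.im - a.im by (clear * - ha; linarith)),
            abs_of_pos (show 0 < ρ.im - b.im by linarith), abs_sub_comm a.im]
          congr 1
          ring
        · have := ha.2; have := hb.2
          rw [abs_of_neg (show ρ.im - a.im < 0 by (clear * - ha; linarith)),
            abs_of_neg (show ρ.im - b.im < 0 by linarith)]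
          congr 1
          ring
      rw [h2]
      exact h1
  have hsplit : ∑ ρ' ∈ Z.erase ρ, 1 / |ρ.im - ρ'.im| =
      ∑ ρ' ∈ (Z.erase ρ).filter (fun ρ' => 0 < (1 : ℝ) * (ρ.im - ρ'.im)), 1 / |ρ.im - ρ'.im| +
      ∑ ρ' ∈ (Z.erase ρ).filter (fun ρ' => 0 < (-1 : ℝ) * (ρ.im - ρ'.im)), 1 / |ρ.im - ρ'.im| := by
    rw [← Finset.sum_filter_add_sum_filter_not (Z.erase ρ)
      (fun ρ' => 0 < (1 : ℝ) * (ρ.im - ρ'.im))]
    congr 1
    refine Finset.sum_congr ?_ fun _ _ => rfl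
    ext ρ'
    rw [Finset.mem_filter, Finset.mem_filter]
    constructor
    · rintro ⟨h1, h2⟩
      refine ⟨h1, ?_⟩
      rw [Finset.mem_erase] at h1
      have h3 := hZ ρ hρ ρ' h1.2 (Ne.symm h1.1)
      rcases lt_trichotomy (ρ.im - ρ'.im) 0 with h | h | h
      · linarith
      · rw [h] at h3; simp at h3; (clear * - h3; linarith)
      · exact absurd (by linarith) h2
    · rintro ⟨h1, h2⟩
      exact ⟨h1, by linarith⟩
  rw [hsplit]
  have k1 := key 1 (Or.inl rfl)
  have k2 := key (-1) (Or.inr rfl)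
  linarith

/-! ### the quadratic form -/

theorem abs_sum_sq (Z : Finset ℂ) (g : ℕ → ℂ) (Q h : ℕ) (B b : ℝ) (hQ : 1 ≤ Q) (hb : 0 ≤ b)
    (hg : ∀ n, ‖g n‖ ≤ B) (η : ℂ → ℂ) (hη : ∀ ρ, ‖η ρ‖ ≤ 1) :
    ‖∑ ρ ∈ Z, η ρ * DP g Q h ρ‖ ^ 2 ≤ (B ^ 2 * h * (Q : ℝ) ^ (1 - 2 * b)) *
      ∑ ρ ∈ Z, ∑ ρ' ∈ Z, ‖∑ n ∈ Finset.Ioc Q (h * Q),
        (n : ℂ) ^ (-(((ρ.re + ρ'.re - 2 * b : ℝ) : ℂ) + ((ρ.im - ρ'.im : ℝ) : ℂ) * Complex.I))‖ := by
  have hB : 0 ≤ B := (norm_nonneg _).trans (hg 0)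
  have hQ0 : (0 : ℝ) < Q := by exact_mod_cast hQ
  have hnpos : ∀ n ∈ Finset.Ioc Q (h * Q), 0 < n := fun n hn => by
    have := (Finset.mem_Ioc.1 hn).1
    omega
  -- exchange of sums
  have h1 : ∑ ρ ∈ Z, η ρ * DP g Q h ρ = ∑ n ∈ Finset.Ioc Q (h * Q),
      (g n * (n : ℂ) ^ (-(b : ℂ))) * ∑ ρ ∈ Z, η ρ * (n : ℂ) ^ ((b : ℂ) - ρ) := by
    simp only [DP, Finset.mul_sum]
    rw [Finset.sum_comm]
    refine Finset.sum_congr rfl fun n hn => ?_
    refine Finset.sum_congr rfl fun ρ _ => ?_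
    have hn0 : (n : ℂ) ≠ 0 := by exact_mod_cast (hnpos n hn).ne'
    have h2 : (n : ℂ) ^ (-ρ) = (n : ℂ) ^ (-(b : ℂ)) * (n : ℂ) ^ ((b : ℂ) - ρ) := by
      rw [← Complex.cpow_add _ _ hn0]
      congr 1
      ring
    rw [h2]
    ring
  rw [h1]
  have h2 : ‖∑ n ∈ Finset.Ioc Q (h * Q),
      (g n * (n : ℂ) ^ (-(b : ℂ))) * ∑ ρ ∈ Z, η ρ * (n : ℂ) ^ ((b : ℂ) - ρ)‖ ≤
      ∑ n ∈ Finset.Ioc Q (h * Q), ‖g n * (n : ℂ) ^ (-(b : ℂ))‖ *
        ‖∑ ρ ∈ Z, η ρ * (n : ℂ) ^ ((b : ℂ) - ρ)‖ := by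
    refine (norm_sum_le _ _).trans (Finset.sum_le_sum fun n _ => ?_)
    rw [norm_mul]
  have h3 : (∑ n ∈ Finset.Ioc Q (h * Q), ‖g n * (n : ℂ) ^ (-(b : ℂ))‖ *
        ‖∑ ρ ∈ Z, η ρ * (n : ℂ) ^ ((b : ℂ) - ρ)‖) ^ 2 ≤
      (∑ n ∈ Finset.Ioc Q (h * Q), ‖g n * (n : ℂ) ^ (-(b : ℂ))‖ ^ 2) *
      ∑ n ∈ Finset.Ioc Q (h * Q), ‖∑ ρ ∈ Z, η ρ * (n : ℂ) ^ ((b : ℂ) - ρ)‖ ^ 2 :=
    Finset.sum_mul_sq_le_sq_mul_sq _ _ _
  have h4 : ∑ n ∈ Finset.Ioc Q (h * Q), ‖g n * (n : ℂ) ^ (-(b : ℂ))‖ ^ 2 ≤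
      B ^ 2 * h * (Q : ℝ) ^ (1 - 2 * b) := by
    have h5 : ∀ n ∈ Finset.Ioc Q (h * Q), ‖g n * (n : ℂ) ^ (-(b : ℂ))‖ ^ 2 ≤
        B ^ 2 * (Q : ℝ) ^ (-2 * b) := by
      intro n hn
      have hn0 : (0 : ℝ) < n := by exact_mod_cast hnpos n hn
      have hnQ : (Q : ℝ) ≤ n := by exact_mod_cast (Finset.mem_Ioc.1 hn).1.le
      rw [norm_mul, mul_pow]
      have h6 : ‖(n : ℂ) ^ (-(b : ℂ))‖ = (n : ℝ) ^ (-b) := by
        have := Complex.norm_cpow_eq_rpow_re_of_pos hn0 (-(b : ℂ))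
        simpa using this
      rw [h6, ← Real.rpow_natCast ((n : ℝ) ^ (-b)) 2, ← Real.rpow_mul hn0.le]
      have h7 : (n : ℝ) ^ (-b * ((2 : ℕ) : ℝ)) ≤ (Q : ℝ) ^ (-2 * b) := by
        have h8 : -b * ((2 : ℕ) : ℝ) = -2 * b := by push_cast; ring
        rw [h8]
        exact Real.rpow_le_rpow_of_nonpos hQ0 hnQ (by (clear * - hb; linarith))
      have h9 : ‖g n‖ ^ 2 ≤ B ^ 2 := pow_le_pow_left₀ (norm_nonneg _) (hg n) 2
      exact mul_le_mul h9 h7 (by (clear * - hn0; positivity)) (by (clear * -; positivity))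
    refine (Finset.sum_le_sum h5).trans ?_
    rw [Finset.sum_const, Nat.card_Ioc, nsmul_eq_mul]
    have h10 : ((h * Q - Q : ℕ) : ℝ) ≤ (h : ℝ) * Q := by
      have : h * Q - Q ≤ h * Q := Nat.sub_le _ _
      exact_mod_cast this
    have h11 : (Q : ℝ) ^ (1 - 2 * b) = Q * (Q : ℝ) ^ (-2 * b) := by
      rw [show (1 - 2 * b) = 1 + (-2 * b) by ring, Real.rpow_add hQ0, Real.rpow_one]
    rw [h11]
    calc ((h * Q - Q : ℕ) : ℝ) * (B ^ 2 * (Q : ℝ) ^ (-2 * b)) ≤
          ((h : ℝ) * Q) * (B ^ 2 * (Q : ℝ) ^ (-2 * b)) :=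
          mul_le_mul_of_nonneg_right h10 (by (clear * - hQ; positivity))
      _ = _ := by ring
  have h5 : ∑ n ∈ Finset.Ioc Q (h * Q), ‖∑ ρ ∈ Z, η ρ * (n : ℂ) ^ ((b : ℂ) - ρ)‖ ^ 2 ≤
      ∑ ρ ∈ Z, ∑ ρ' ∈ Z, ‖∑ n ∈ Finset.Ioc Q (h * Q),
        (n : ℂ) ^ (-(((ρ.re + ρ'.re - 2 * b : ℝ) : ℂ) +
          ((ρ.im - ρ'.im : ℝ) : ℂ) * Complex.I))‖ := by
    have h6 : ((∑ n ∈ Finset.Ioc Q (h * Q), ‖∑ ρ ∈ Z, η ρ * (n : ℂ) ^ ((b : ℂ) - ρ)‖ ^ 2 : ℝ) : ℂ) =
        ∑ ρ ∈ Z, ∑ ρ' ∈ Z, (η ρ * (starRingEnd ℂ) (η ρ')) * ∑ n ∈ Finset.Ioc Q (h * Q),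
        (n : ℂ) ^ (-(((ρ.re + ρ'.re - 2 * b : ℝ) : ℂ) +
          ((ρ.im - ρ'.im : ℝ) : ℂ) * Complex.I)) := by
      have h7 : ∀ n ∈ Finset.Ioc Q (h * Q),
          ((‖∑ ρ ∈ Z, η ρ * (n : ℂ) ^ ((b : ℂ) - ρ)‖ ^ 2 : ℝ) : ℂ) =
          ∑ ρ ∈ Z, ∑ ρ' ∈ Z, (η ρ * (starRingEnd ℂ) (η ρ')) *
            (n : ℂ) ^ (-(((ρ.re + ρ'.re - 2 * b : ℝ) : ℂ) +
          ((ρ.im - ρ'.im : ℝ) : ℂ) * Complex.I)) := by
        intro n hn
        have hn0 : (n : ℂ) ≠ 0 := by exact_mod_cast (hnpos n hn).ne'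
        push_cast
        rw [← Complex.mul_conj', map_sum, Finset.sum_mul_sum]
        refine Finset.sum_congr rfl fun ρ _ => Finset.sum_congr rfl fun ρ' _ => ?_
        rw [map_mul, conj_natCast_cpow]
        have h8 : (n : ℂ) ^ (-(((ρ.re : ℂ) + (ρ'.re : ℂ) - 2 * (b : ℂ)) +
            ((ρ.im : ℂ) - (ρ'.im : ℂ)) * Complex.I)) =
            (n : ℂ) ^ ((b : ℂ) - ρ) * (n : ℂ) ^ ((starRingEnd ℂ) ((b : ℂ) - ρ')) := by
          rw [← Complex.cpow_add _ _ hn0]
          congr 1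
          apply Complex.ext
          · simp only [neg_add_rev, neg_sub, Complex.add_re, Complex.neg_re, Complex.mul_re,
              Complex.sub_re, Complex.ofReal_re, Complex.I_re, mul_zero, Complex.sub_im,
              Complex.ofReal_im, sub_self, Complex.I_im, mul_one, neg_zero, Complex.re_ofNat,
              Complex.im_ofNat, sub_zero, zero_add, map_sub, Complex.conj_ofReal, Complex.conj_re]
            ring
          · simp only [neg_add_rev, neg_sub, Complex.add_im, Complex.neg_im, Complex.mul_im,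
              Complex.sub_re, Complex.ofReal_re, Complex.I_im, mul_one, Complex.sub_im,
              Complex.ofReal_im, sub_self, Complex.I_re, mul_zero, add_zero, Complex.re_ofNat,
              Complex.im_ofNat, zero_mul, map_sub, Complex.conj_ofReal, zero_sub, Complex.conj_im,
              sub_neg_eq_add, zero_add]
            ring
        rw [h8]
        ring
      rw [Complex.ofReal_sum, Finset.sum_congr rfl h7, Finset.sum_comm]
      refine Finset.sum_congr rfl fun ρ _ => ?_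
      rw [Finset.sum_comm]
      refine Finset.sum_congr rfl fun ρ' _ => ?_
      rw [Finset.mul_sum]
    have h7 : 0 ≤ ∑ n ∈ Finset.Ioc Q (h * Q), ‖∑ ρ ∈ Z, η ρ * (n : ℂ) ^ ((b : ℂ) - ρ)‖ ^ 2 :=
      Finset.sum_nonneg fun _ _ => by (clear * -; positivity)
    have h8 := congrArg norm h6
    rw [Complex.norm_real, Real.norm_of_nonneg h7] at h8
    rw [h8]
    refine (norm_sum_le _ _).trans (Finset.sum_le_sum fun ρ _ => ?_)
    refine (norm_sum_le _ _).trans (Finset.sum_le_sum fun ρ' _ => ?_)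
    rw [norm_mul, norm_mul, Complex.norm_conj]
    have h9 : ‖η ρ‖ * ‖η ρ'‖ ≤ 1 := mul_le_one₀ (hη ρ) (norm_nonneg _) (hη ρ')
    calc _ ≤ 1 * _ := mul_le_mul_of_nonneg_right h9 (norm_nonneg _)
      _ = _ := one_mul _
  calc ‖∑ n ∈ Finset.Ioc Q (h * Q),
      (g n * (n : ℂ) ^ (-(b : ℂ))) * ∑ ρ ∈ Z, η ρ * (n : ℂ) ^ ((b : ℂ) - ρ)‖ ^ 2
      ≤ (∑ n ∈ Finset.Ioc Q (h * Q), ‖g n * (n : ℂ) ^ (-(b : ℂ))‖ *
        ‖∑ ρ ∈ Z, η ρ * (n : ℂ) ^ ((b : ℂ) - ρ)‖) ^ 2 := pow_le_pow_left₀ (norm_nonneg _) h2 2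
    _ ≤ _ := h3
    _ ≤ _ := mul_le_mul h4 h5 (Finset.sum_nonneg fun _ _ => by (clear * -; positivity))
        (by (clear * - hQ; positivity))

/-! ### one window -/

theorem window {C : ℝ} (hC0 : 0 < C) (hC : ∀ (h Q : ℕ) (τ κ : ℝ), 1 ≤ h → 1 ≤ Q →
    1 ≤ |τ| → 0 ≤ κ → κ ≤ 1 →
    ‖∑ n ∈ Finset.Ioc Q (h * Q), (n : ℂ) ^ (-((κ : ℂ) + τ * Complex.I))‖ ≤
      C * h * (h * Q / |τ| + Real.sqrt |τ|))
    (h : ℕ) (hh : 1 ≤ h) (Z : Finset ℂ) (g : ℕ → ℂ) (Q : ℕ) (B V b b' T W : ℝ) (hQ : 1 ≤ Q)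
    (hT : 1 ≤ T) (hb : 0 ≤ b) (hb1 : b' ≤ b + 1 / 2) (hV : 0 < V)
    (hg : ∀ n, ‖g n‖ ≤ B) (hZs : InStrip Z b b' T) (hZ : Spaced1 Z)
    (hZV : ∀ ρ ∈ Z, V ≤ ‖DP g Q h ρ‖)
    (hW : ∀ ρ ∈ Z, ∀ ρ' ∈ Z, |ρ.im - ρ'.im| ≤ W)
    (hWV : (B ^ 2 * h * (Q : ℝ) ^ (1 - 2 * b)) * (C * h * Real.sqrt W) ≤ V ^ 2 / 2) :
    (Z.card : ℝ) ≤ 2 * h ^ 2 * (1 + 6 * C * h) * (B ^ 2 * (Q : ℝ) ^ (2 - 2 * b) / V ^ 2) *
      Real.log (T + 2) := by
  have hQ0 : (0 : ℝ) < Q := by exact_mod_cast hQ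
  have hh0 : (1 : ℝ) ≤ h := by exact_mod_cast hh
  have hlog3 : 1 ≤ Real.log (T + 2) := by
    rw [Real.le_log_iff_exp_le (by (clear * - hT; linarith))]
    have := Real.exp_one_lt_d9
    (clear * - hT this; linarith)
  set K : ℝ := B ^ 2 * h * (Q : ℝ) ^ (1 - 2 * b) with hK
  have hK0 : 0 ≤ K := by (clear * - hh hQ; positivity)
  by_cases hZ0 : Z.card = 0
  · rw [hZ0]
    have : 0 ≤ Real.log (T + 2) := by (clear * - hlog3; linarith)
    push_cast
    (clear * - hh hC0 hQ hV hlog3; positivity)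
  have hZpos : (0 : ℝ) < Z.card := by exact_mod_cast Nat.pos_of_ne_zero hZ0
  -- unimodular weights
  set η : ℂ → ℂ := fun ρ => (starRingEnd ℂ) (DP g Q h ρ) / (‖DP g Q h ρ‖ : ℂ) with hη
  have hη1 : ∀ ρ, ‖η ρ‖ ≤ 1 := by
    intro ρ
    simp only [hη]
    rw [norm_div, Complex.norm_conj, Complex.norm_real, norm_norm]
    exact div_self_le_one _
  have hηDP : ∀ ρ, η ρ * DP g Q h ρ = ((‖DP g Q h ρ‖ : ℝ) : ℂ) := by
    intro ρ
    simp only [hη]
    by_cases h0 : DP g Q h ρ = 0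
    · simp [h0]
    · have h1 : (‖DP g Q h ρ‖ : ℂ) ≠ 0 := by
        exact_mod_cast norm_ne_zero_iff.2 h0
      rw [div_mul_eq_mul_div, div_eq_iff h1, Complex.conj_mul']
      ring
  have h1 := abs_sum_sq Z g Q h B b hQ hb hg η hη1
  have h2 : (Z.card * V) ^ 2 ≤ ‖∑ ρ ∈ Z, η ρ * DP g Q h ρ‖ ^ 2 := by
    refine pow_le_pow_left₀ (by (clear * - hZ0 hV; positivity)) ?_ 2
    rw [Finset.sum_congr rfl fun ρ _ => hηDP ρ, ← Complex.ofReal_sum, Complex.norm_real,
      Real.norm_of_nonneg (Finset.sum_nonneg fun _ _ => norm_nonneg _)]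
    calc (Z.card : ℝ) * V = ∑ _ρ ∈ Z, V := by rw [Finset.sum_const, nsmul_eq_mul]
      _ ≤ _ := Finset.sum_le_sum hZV
  -- inner sums
  have h3 : ∀ ρ ∈ Z, ∑ ρ' ∈ Z, ‖∑ n ∈ Finset.Ioc Q (h * Q),
        (n : ℂ) ^ (-(((ρ.re + ρ'.re - 2 * b : ℝ) : ℂ) +
          ((ρ.im - ρ'.im : ℝ) : ℂ) * Complex.I))‖ ≤
      h * Q + C * h * (h * Q) * (2 + 2 * Real.log (2 * T + 1)) + Z.card * (C * h * Real.sqrt W) := by
    intro ρ hρ
    rw [← Finset.add_sum_erase _ _ hρ]
    have h4 : ‖∑ n ∈ Finset.Ioc Q (h * Q), (n : ℂ) ^ (-(((ρ.re + ρ.re - 2 * b : ℝ) : ℂ) +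
          ((ρ.im - ρ.im : ℝ) : ℂ) * Complex.I))‖ ≤ h * Q := by
      refine (norm_sum_le _ _).trans ?_
      have h5 : ∀ n ∈ Finset.Ioc Q (h * Q), ‖(n : ℂ) ^ (-(((ρ.re + ρ.re - 2 * b : ℝ) : ℂ) +
          ((ρ.im - ρ.im : ℝ) : ℂ) * Complex.I))‖ ≤ 1 := by
        intro n hn
        have hn1 : 1 ≤ n := by
          have := (Finset.mem_Ioc.1 hn).1
          omega
        have hn0 : (0 : ℝ) < n := by exact_mod_cast hn1
        have h6 := Complex.norm_cpow_eq_rpow_re_of_pos hn0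
          (-(((ρ.re + ρ.re - 2 * b : ℝ) : ℂ) + ((ρ.im - ρ.im : ℝ) : ℂ) * Complex.I))
        have h7 : ((n : ℝ) : ℂ) = (n : ℂ) := by push_cast; rfl
        rw [h7] at h6
        rw [h6]
        refine Real.rpow_le_one_of_one_le_of_nonpos (by exact_mod_cast hn1) ?_
        have := (hZs ρ hρ).1
        simp only [Complex.ofReal_sub, Complex.ofReal_add, Complex.ofReal_mul,
          Complex.ofReal_ofNat, sub_self, Complex.ofReal_zero, zero_mul, add_zero, neg_sub,
          Complex.sub_re, Complex.mul_re, Complex.re_ofNat, Complex.ofReal_re, Complex.im_ofNat,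
          Complex.ofReal_im, mul_zero, sub_zero, Complex.add_re, tsub_le_iff_right, zero_add,
          ge_iff_le]
        (clear * - this; linarith)
      refine (Finset.sum_le_sum h5).trans ?_
      rw [Finset.sum_const, Nat.card_Ioc, nsmul_eq_mul, mul_one]
      have : h * Q - Q ≤ h * Q := Nat.sub_le _ _
      exact_mod_cast this
    have h5 : ∑ ρ' ∈ Z.erase ρ, ‖∑ n ∈ Finset.Ioc Q (h * Q),
        (n : ℂ) ^ (-(((ρ.re + ρ'.re - 2 * b : ℝ) : ℂ) +
          ((ρ.im - ρ'.im : ℝ) : ℂ) * Complex.I))‖ ≤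
        ∑ ρ' ∈ Z.erase ρ, (C * h * (h * Q) * (1 / |ρ.im - ρ'.im|) + C * h * Real.sqrt W) := by
      refine Finset.sum_le_sum fun ρ' hρ' => ?_
      rw [Finset.mem_erase] at hρ'
      have h6 := hZ ρ hρ ρ' hρ'.2 (Ne.symm hρ'.1)
      have a1 := (hZs ρ hρ).1
      have a2 := (hZs ρ hρ).2.1
      have a3 := (hZs ρ' hρ'.2).1
      have a4 := (hZs ρ' hρ'.2).2.1
      have h7 := hC h Q (ρ.im - ρ'.im) (ρ.re + ρ'.re - 2 * b) hh hQ h6 (by (clear * - a1 a3; linarith)) (by (clear * - hb1 a2 a4; linarith))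
      refine h7.trans ?_
      have h8 : Real.sqrt |ρ.im - ρ'.im| ≤ Real.sqrt W :=
        Real.sqrt_le_sqrt (hW ρ hρ ρ' hρ'.2)
      have h9 : C * h * Real.sqrt |ρ.im - ρ'.im| ≤ C * h * Real.sqrt W :=
        mul_le_mul_of_nonneg_left h8 (by positivity)
      have h10 : C * h * (h * Q / |ρ.im - ρ'.im| + Real.sqrt |ρ.im - ρ'.im|) =
          C * h * (h * Q) * (1 / |ρ.im - ρ'.im|) + C * h * Real.sqrt |ρ.im - ρ'.im| := by ring
      rw [h10]
      (clear * - h9; linarith)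
    have h6 := spaced_sum Z T hT hZ (fun ρ hρ => (hZs ρ hρ).2.2) ρ hρ
    rw [Finset.sum_add_distrib, ← Finset.mul_sum, Finset.sum_const, nsmul_eq_mul] at h5
    have h7 : ((Z.erase ρ).card : ℝ) ≤ Z.card := by
      exact_mod_cast Finset.card_le_card (Finset.erase_subset _ _)
    have h8 : C * h * (h * Q) * ∑ ρ' ∈ Z.erase ρ, 1 / |ρ.im - ρ'.im| ≤
        C * h * (h * Q) * (2 + 2 * Real.log (2 * T + 1)) :=
      mul_le_mul_of_nonneg_left h6 (by positivity)
    have h9 : ((Z.erase ρ).card : ℝ) * (C * h * Real.sqrt W) ≤ Z.card * (C * h * Real.sqrt W) :=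
      mul_le_mul_of_nonneg_right h7 (by (clear * - hC0 hh; positivity))
    (clear * - h4 h5 h8 h9; linarith)
  have h4 := Finset.sum_le_sum h3
  rw [Finset.sum_const, nsmul_eq_mul] at h4
  have h5 : (Z.card * V) ^ 2 ≤ K * (Z.card * (h * Q + C * h * (h * Q) *
      (2 + 2 * Real.log (2 * T + 1)) + Z.card * (C * h * Real.sqrt W))) :=
    (h2.trans h1).trans (mul_le_mul_of_nonneg_left h4 hK0)
  have hlog2 : Real.log (2 * T + 1) ≤ 2 * Real.log (T + 2) := by
    have h6 : Real.log ((T + 2) ^ 2) = 2 * Real.log (T + 2) := by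
      rw [Real.log_pow]; norm_num
    rw [← h6]
    exact Real.log_le_log (by (clear * - hT; linarith))
      (by (clear * -; linarith [sq_nonneg (T + 1)]))
  have h6 : h * Q + C * h * (h * Q) * (2 + 2 * Real.log (2 * T + 1)) ≤
      (h * Q) * ((1 + 6 * C * h) * Real.log (T + 2)) := by
    have h7 : 0 ≤ (h : ℝ) * Q := by positivity
    have h8 : 0 ≤ C * h := by positivity
    have h9 : 1 + C * h * (2 + 2 * Real.log (2 * T + 1)) ≤ (1 + 6 * C * h) * Real.log (T + 2) := by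
      have h10 : C * h * (2 + 2 * Real.log (2 * T + 1)) ≤ C * h * (6 * Real.log (T + 2)) :=
        mul_le_mul_of_nonneg_left (by (clear * - hlog3 hlog2; linarith)) h8
      (clear * - hlog3 h10; linarith)
    calc _ = (h * Q : ℝ) * (1 + C * h * (2 + 2 * Real.log (2 * T + 1))) := by ring
      _ ≤ _ := mul_le_mul_of_nonneg_left h9 h7
  -- divide
  have h7 : (Z.card : ℝ) ^ 2 * V ^ 2 / 2 ≤ K * Z.card * ((h * Q) * ((1 + 6 * C * h) *
      Real.log (T + 2))) := by
    have h8 : K * (Z.card * (Z.card * (C * h * Real.sqrt W))) ≤ (Z.card : ℝ) ^ 2 * (V ^ 2 / 2) := by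
      calc K * (Z.card * (Z.card * (C * h * Real.sqrt W))) =
            (Z.card : ℝ) ^ 2 * (K * (C * h * Real.sqrt W)) := by ring
        _ ≤ _ := mul_le_mul_of_nonneg_left hWV (by (clear * - hZ0; positivity))
    have h9 : K * Z.card * (h * Q + C * h * (h * Q) * (2 + 2 * Real.log (2 * T + 1))) ≤
        K * Z.card * ((h * Q) * ((1 + 6 * C * h) * Real.log (T + 2))) :=
      mul_le_mul_of_nonneg_left h6 (by (clear * - hh hQ hZ0; positivity))
    (clear * - h5 h8 h9; linarith)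
  have h8 : (Z.card : ℝ) * V ^ 2 ≤ 2 * K * ((h * Q) * ((1 + 6 * C * h) * Real.log (T + 2))) := by
    have h9 : (Z.card : ℝ) * ((Z.card : ℝ) * V ^ 2) ≤
        Z.card * (2 * K * ((h * Q) * ((1 + 6 * C * h) * Real.log (T + 2)))) := by (clear * - h7; linarith)
    exact le_of_mul_le_mul_left h9 hZpos
  have h10 : K * Q = B ^ 2 * h * (Q : ℝ) ^ (2 - 2 * b) := by
    rw [hK, show (2 - 2 * b) = (1 - 2 * b) + 1 by ring, Real.rpow_add hQ0, Real.rpow_one]
    ring
  have hV2 : 0 < V ^ 2 := by positivity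
  rw [← sub_nonneg]
  have h11 : 2 * (h : ℝ) ^ 2 * (1 + 6 * C * h) * (B ^ 2 * (Q : ℝ) ^ (2 - 2 * b) / V ^ 2) *
      Real.log (T + 2) - Z.card =
      (2 * K * ((h * Q) * ((1 + 6 * C * h) * Real.log (T + 2))) - Z.card * V ^ 2) / V ^ 2 := by
    have : 2 * K * ((h * Q) * ((1 + 6 * C * h) * Real.log (T + 2))) =
        2 * (K * Q) * (h * ((1 + 6 * C * h) * Real.log (T + 2))) := by ring
    rw [this, h10, sub_div, mul_div_cancel_right₀ _ hV2.ne']
    ring
  rw [h11]
  exact div_nonneg (sub_nonneg.2 h8) hV2.le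

/-- KC-4 -/
theorem huxleyCount (hA2 : A2) : HuxleyCount := by
  obtain ⟨C, hC0, hC⟩ := expsum_bound hA2
  intro h hh
  have hh0 : (1 : ℝ) ≤ h := by exact_mod_cast hh
  refine ⟨2 * h ^ 2 * (1 + 6 * C * h) * (1 + 8 * C ^ 2 * h ^ 4), by (clear * - hh hC0; positivity), ?_⟩
  intro Z g Q B V b b' T hQ hT hb hbb hb1 hb2 hV hB hg hZs hZ hZV
  have hQ0 : (0 : ℝ) < Q := by exact_mod_cast hQ
  have hlog3 : 1 ≤ Real.log (T + 2) := by
    rw [Real.le_log_iff_exp_le (by (clear * - hT; linarith))]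
    have := Real.exp_one_lt_d9
    (clear * - hT this; linarith)
  set K : ℝ := B ^ 2 * h * (Q : ℝ) ^ (1 - 2 * b) with hK
  have hK0 : 0 < K := by (clear * - hB hh hQ; positivity)
  set w : ℝ := V ^ 2 / (2 * K * (C * h)) with hw
  have hw0 : 0 < w := by (clear * - hV hB hh hQ hC0; positivity)
  set W : ℝ := w ^ 2 with hW
  have hW0 : 0 < W := by (clear * - hV hB hh hQ hC0; positivity)
  have hsW : Real.sqrt W = w := Real.sqrt_sq hw0.le
  have hKW : K * (C * h * Real.sqrt W) ≤ V ^ 2 / 2 := by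
    rw [hsW, hw]
    apply le_of_eq
    field_simp
  set M : ℝ := 2 * h ^ 2 * (1 + 6 * C * h) * (B ^ 2 * (Q : ℝ) ^ (2 - 2 * b) / V ^ 2) *
      Real.log (T + 2) with hM
  have hM0 : 0 ≤ M := by
    have : 0 ≤ Real.log (T + 2) := by (clear * - hlog3; linarith)
    positivity
  have hmaps : ∀ ρ ∈ Z, ⌊(ρ.im + T) / W⌋₊ ∈ Finset.range (⌊2 * T / W⌋₊ + 1) := by
    intro ρ hρ
    rw [Finset.mem_range, Nat.lt_succ_iff]
    apply Nat.floor_le_floor
    have := (abs_le.1 (hZs ρ hρ).2.2).2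
    exact div_le_div_of_nonneg_right (by (clear * - this; linarith)) hW0.le
  have hfib : ∀ k ∈ Finset.range (⌊2 * T / W⌋₊ + 1),
      ((Z.filter (fun ρ => ⌊(ρ.im + T) / W⌋₊ = k)).card : ℝ) ≤ M := by
    intro k _
    refine window hC0 hC h hh _ g Q B V b b' T W hQ hT hb hb1 hV hg ?_ ?_ ?_ ?_ hKW
    · intro ρ hρ
      exact hZs ρ (Finset.mem_filter.1 hρ).1
    · intro ρ hρ ρ' hρ' hne
      exact hZ ρ (Finset.mem_filter.1 hρ).1 ρ' (Finset.mem_filter.1 hρ').1 hne
    · intro ρ hρ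
      exact hZV ρ (Finset.mem_filter.1 hρ).1
    · intro ρ hρ ρ' hρ'
      obtain ⟨a1, a2⟩ := Finset.mem_filter.1 hρ
      obtain ⟨b1, b2⟩ := Finset.mem_filter.1 hρ'
      have a3 := (abs_le.1 (hZs ρ a1).2.2).1
      have b3 := (abs_le.1 (hZs ρ' b1).2.2).1
      have a4 : 0 ≤ (ρ.im + T) / W := div_nonneg (by (clear * - a3; linarith)) hW0.le
      have b4 : 0 ≤ (ρ'.im + T) / W := div_nonneg (by (clear * - b3; linarith)) hW0.le
      have a5 := Nat.floor_le a4
      have a6 := Nat.lt_floor_add_one ((ρ.im + T) / W)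
      have b5 := Nat.floor_le b4
      have b6 := Nat.lt_floor_add_one ((ρ'.im + T) / W)
      rw [a2, le_div_iff₀ hW0] at a5
      rw [a2, div_lt_iff₀ hW0] at a6
      rw [b2, le_div_iff₀ hW0] at b5
      rw [b2, div_lt_iff₀ hW0] at b6
      rw [abs_le]
      constructor <;> (clear * - a5 b6 a6 b5; linarith)
  have hcard : (Z.card : ℝ) ≤ ((⌊2 * T / W⌋₊ : ℝ) + 1) * M := by
    rw [Finset.card_eq_sum_card_fiberwise hmaps]
    push_cast
    refine (Finset.sum_le_sum hfib).trans ?_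
    rw [Finset.sum_const, Finset.card_range, nsmul_eq_mul]
    push_cast
    exact le_refl _
  have hfl : (⌊2 * T / W⌋₊ : ℝ) ≤ 2 * T / W := Nat.floor_le (by (clear * - hT hV hB hh hQ hC0; positivity))
  have hTW : 2 * T / W = 8 * C ^ 2 * h ^ 4 * (T * (B ^ 4 * (Q : ℝ) ^ (2 - 4 * b) / V ^ 4)) := by
    have h1 : ((Q : ℝ) ^ (1 - 2 * b)) ^ 2 = (Q : ℝ) ^ (2 - 4 * b) := by
      rw [← Real.rpow_natCast, ← Real.rpow_mul hQ0.le]
      congr 1
      push_cast
      ring
    rw [hW, hw, ← h1, hK]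
    have hq : (Q : ℝ) ^ (1 - 2 * b) ≠ 0 := (Real.rpow_pos_of_pos hQ0 _).ne'
    have hhne : (h : ℝ) ≠ 0 := by (clear * - hh0; linarith)
    field_simp
    ring
  set R : ℝ := T * (B ^ 4 * (Q : ℝ) ^ (2 - 4 * b) / V ^ 4) with hR
  have hR0 : 0 ≤ R := by positivity
  have hfin : ((⌊2 * T / W⌋₊ : ℝ) + 1) ≤ (1 + 8 * C ^ 2 * h ^ 4) * (1 + R) := by
    rw [hTW] at hfl
    have h1 : 0 ≤ 8 * C ^ 2 * (h : ℝ) ^ 4 := by positivity
    rw [hTW]
    (clear * - hfl hR0 h1; linarith)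
  calc (Z.card : ℝ) ≤ ((⌊2 * T / W⌋₊ : ℝ) + 1) * M := hcard
    _ ≤ ((1 + 8 * C ^ 2 * h ^ 4) * (1 + R)) * M := mul_le_mul_of_nonneg_right hfin hM0
    _ = _ := by rw [hM]; ring

end Pool.Agent.M20.Helper72.KC
end
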