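import Mathlib
import Pool.Agent.Helper53.KO.G01
import Pool.Agent.Helper53.KO.G04

set_option linter.all false

/- Helper53.KN.Helper67.KC.MVCount -/
section
/-! KC-3 (MP_768c9c_nt): counting zeros by mean values. -/

set_option autoImplicit false
open Filter Topology MeasureTheory
open scoped Classical

namespace Pool.Agent.M20.Helper67.KC

open Pool.Agent.M20.Helper60.KS

theorem cpow_exp {n : ℕ} (hn : 0 < n) (ρ : ℂ) :
    (n : ℂ) ^ (-ρ) = Complex.exp (((-Real.log n : ℝ) : ℂ) * ρ) := by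
  have hn' : (n : ℂ) ≠ 0 := by exact_mod_cast hn.ne'
  have hlog : Complex.log (n : ℂ) = ((Real.log n : ℝ) : ℂ) := by
    rw [← Complex.ofReal_natCast, Complex.ofReal_log (Nat.cast_nonneg n)]
  rw [Complex.cpow_def_of_ne_zero hn', hlog]
  congr 1
  push_cast
  ring

/-- integers at logarithmic distance at most `1/T` -/
theorem close_of_log {n m : ℕ} {T R : ℝ} (hn : 0 < n) (hm : 0 < m) (hT : 0 < T)
    (hnR : (n : ℝ) ≤ R) (hmR : (m : ℝ) ≤ R) (h : |Real.log n - Real.log m| ≤ 1 / T) :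
    |(n : ℝ) - m| ≤ R / T := by
  have key : ∀ a b : ℝ, 0 < a → 0 < b → a ≤ R → Real.log a - Real.log b ≤ 1 / T →
      a - b ≤ R / T := by
    intro a b ha hb haR hab
    have h1 : Real.log (b / a) ≥ -(1 / T) := by
      rw [Real.log_div hb.ne' ha.ne']; (clear * - hab; linarith)
    have h2 : Real.log (b / a) ≤ b / a - 1 := Real.log_le_sub_one_of_pos (by positivity)
    have h3 : 1 - b / a ≤ 1 / T := by (clear * - h1 h2; linarith)
    have h4 : a - b = a * (1 - b / a) := by (clear * - ha; field_simp)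
    have h5 : a * (1 - b / a) ≤ a * (1 / T) := mul_le_mul_of_nonneg_left h3 ha.le
    have h6 : a * (1 / T) ≤ R * (1 / T) := mul_le_mul_of_nonneg_right haR (by positivity)
    rw [h4]
    calc a * (1 - b / a) ≤ R * (1 / T) := h5.trans h6
      _ = R / T := by ring
  have hn' : (0 : ℝ) < n := by exact_mod_cast hn
  have hm' : (0 : ℝ) < m := by exact_mod_cast hm
  have h1 := abs_le.1 h
  rw [abs_le]
  constructor
  · have := key m n hm' hn' hmR (by (clear * - h1; linarith))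
    (clear * - this; linarith)
  · exact key n m hn' hm' hnR (by (clear * - h1; linarith))

theorem card_close (S : Finset ℕ) (n : ℕ) (R : ℝ) (hR : 0 ≤ R) :
    ((S.filter (fun m : ℕ => |(n : ℝ) - (m : ℝ)| ≤ R)).card : ℝ) ≤ 2 * R + 1 := by
  have h1 : (S.filter (fun m : ℕ => |(n : ℝ) - (m : ℝ)| ≤ R)) ⊆ Finset.Icc (n - ⌊R⌋₊) (n + ⌊R⌋₊) := by
    intro m hm
    have h2 := abs_le.1 (Finset.mem_filter.1 hm).2
    rw [Finset.mem_Icc]
    constructor
    · have : (n : ℝ) ≤ m + R := by linarith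
      have h3 : n - m ≤ ⌊R⌋₊ := by
        apply Nat.le_floor
        rcases le_total m n with h | h
        · rw [Nat.cast_sub h]; (clear * - h2; linarith)
        · rw [Nat.sub_eq_zero_of_le h]; simpa using hR
      omega
    · have h3 : m - n ≤ ⌊R⌋₊ := by
        apply Nat.le_floor
        rcases le_total n m with h | h
        · rw [Nat.cast_sub h]; (clear * - h2; linarith)
        · rw [Nat.sub_eq_zero_of_le h]; simpa using hR
      omega
  have h2 := Finset.card_le_card h1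
  rw [Nat.card_Icc] at h2
  have h3 : (S.filter (fun m : ℕ => |(n : ℝ) - (m : ℝ)| ≤ R)).card ≤ 2 * ⌊R⌋₊ + 1 := by omega
  have h4 := Nat.floor_le hR
  have h5 : ((S.filter (fun m : ℕ => |(n : ℝ) - (m : ℝ)| ≤ R)).card : ℝ) ≤ 2 * ⌊R⌋₊ + 1 := by exact_mod_cast h3
  (clear * - h4 h5; linarith)

theorem mvCount (hD : DiscMV) : MVCount := by
  obtain ⟨C, hC, hD⟩ := hD
  intro h hh
  have hhr : (1 : ℝ) ≤ h := by exact_mod_cast hh
  refine ⟨C * (2 * (h : ℝ) ^ 4), by (clear * - hC hh; positivity), ?_⟩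
  intro Z g Q B V b b' T r hQ hT hr hr2 hb hbb hbb' hb1 hV hB hg hZ hZ1 hVρ
  have hQr : (1 : ℝ) ≤ Q := by exact_mod_cast hQ
  have hQ0 : (0 : ℝ) < Q := by (clear * - hr hr2 hQr; linarith)
  have hT0 : 0 < T := by (clear * - hT hr hr2; linarith)
  set S := Finset.Ioc Q (h * Q) with hS
  have hSpos : ∀ n ∈ S, 0 < n := fun n hn => by rw [hS, Finset.mem_Ioc] at hn; omega
  set M : ℝ := (B * B * ((h * (Q : ℝ) ^ (r - b)) * (h * (Q : ℝ) ^ (r - b)))) *
    ((h * Q) * (2 * (h * Q / T) + 1)) with hM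
  have hpair : ∀ σ : ℝ, b - r ≤ σ → σ ≤ b' + r →
      ∑ j ∈ S, ∑ k ∈ S, (if |(-Real.log j) - (-Real.log k)| ≤ 1 / T then
        ‖g j‖ * ‖g k‖ * Real.exp (σ * ((-Real.log j) + (-Real.log k))) else 0) ≤ M := by
    intro σ h1 _
    have hexp : ∀ n ∈ S, Real.exp (σ * (-Real.log n)) ≤ h * (Q : ℝ) ^ (r - b) := by
      intro n hn
      have hn0 : 0 < n := hSpos n hn
      have hnr : (0 : ℝ) < n := by exact_mod_cast hn0
      have hn1 : (1 : ℝ) ≤ n := by exact_mod_cast hn0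
      have hn' := Finset.mem_Ioc.1 hn
      have e : Real.exp (σ * (-Real.log n)) = (n : ℝ) ^ (-σ) := by
        rw [Real.rpow_def_of_pos hnr]; congr 1; ring
      rw [e]
      have h2 : (n : ℝ) ^ (-σ) ≤ (n : ℝ) ^ (r - b) :=
        Real.rpow_le_rpow_of_exponent_le hn1 (by (clear * - h1; linarith))
      refine h2.trans ?_
      have hQpos : 0 < (Q : ℝ) ^ (r - b) := by positivity
      rcases le_total 0 (r - b) with h3 | h3
      · have h4 : (n : ℝ) ≤ h * Q := by exact_mod_cast hn'.2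
        calc (n : ℝ) ^ (r - b) ≤ (h * Q) ^ (r - b) := Real.rpow_le_rpow hnr.le h4 h3
          _ = (h : ℝ) ^ (r - b) * (Q : ℝ) ^ (r - b) := Real.mul_rpow (by (clear * - hhr hr hr2; linarith)) hQ0.le
          _ ≤ (h : ℝ) ^ (1 : ℝ) * (Q : ℝ) ^ (r - b) :=
              mul_le_mul_of_nonneg_right
                (Real.rpow_le_rpow_of_exponent_le hhr (by (clear * - hr hr2 hb; linarith))) hQpos.le
          _ = h * (Q : ℝ) ^ (r - b) := by rw [Real.rpow_one]
      · have h4 : (Q : ℝ) ≤ n := by exact_mod_cast hn'.1.le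
        calc (n : ℝ) ^ (r - b) ≤ (Q : ℝ) ^ (r - b) := Real.rpow_le_rpow_of_nonpos hQ0 h4 h3
          _ = 1 * (Q : ℝ) ^ (r - b) := by ring
          _ ≤ h * (Q : ℝ) ^ (r - b) := by clear * - hhr hQ; gcongr
    have hQp : 0 ≤ (h : ℝ) * (Q : ℝ) ^ (r - b) := by positivity
    have hterm : ∀ j ∈ S, ∑ k ∈ S, (if |(-Real.log j) - (-Real.log k)| ≤ 1 / T then
        ‖g j‖ * ‖g k‖ * Real.exp (σ * ((-Real.log j) + (-Real.log k))) else 0) ≤
        (B * B * ((h * (Q : ℝ) ^ (r - b)) * (h * (Q : ℝ) ^ (r - b)))) * (2 * (h * Q / T) + 1) := by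
      intro j hj
      have hj' := Finset.mem_Ioc.1 hj
      have hjR : (j : ℝ) ≤ h * Q := by exact_mod_cast hj'.2
      have hle : ∀ k ∈ S, (if |(-Real.log j) - (-Real.log k)| ≤ 1 / T then
          ‖g j‖ * ‖g k‖ * Real.exp (σ * ((-Real.log j) + (-Real.log k))) else 0) ≤
          if |(j : ℝ) - k| ≤ h * Q / T then
            B * B * ((h * (Q : ℝ) ^ (r - b)) * (h * (Q : ℝ) ^ (r - b))) else 0 := by
        intro k hk
        have hk' := Finset.mem_Ioc.1 hk
        have hkR : (k : ℝ) ≤ h * Q := by exact_mod_cast hk'.2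
        by_cases hc : |(-Real.log j) - (-Real.log k)| ≤ 1 / T
        · clear * - hc hSpos hj hk hT0 hjR hkR hexp hg hB hh hQ; rw [if_pos hc]
          have hc' : |Real.log j - Real.log k| ≤ 1 / T := by
            rw [show Real.log j - Real.log k = -((-Real.log j) - (-Real.log k)) by ring, abs_neg]
            exact hc
          rw [if_pos (close_of_log (hSpos j hj) (hSpos k hk) hT0 hjR hkR hc')]
          have e : Real.exp (σ * ((-Real.log j) + (-Real.log k))) =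
              Real.exp (σ * (-Real.log j)) * Real.exp (σ * (-Real.log k)) := by
            rw [← Real.exp_add]; congr 1; ring
          rw [e]
          have := hexp j hj
          have := hexp k hk
          have := hg j
          have := hg k
          gcongr
        · rw [if_neg hc]
          split_ifs <;> (clear * - hB hh hQ; positivity)
      refine (Finset.sum_le_sum hle).trans ?_
      rw [← Finset.sum_filter, Finset.sum_const, nsmul_eq_mul, mul_comm]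
      exact mul_le_mul_of_nonneg_left (card_close S j _ (by positivity)) (by clear * - hB hh hQ; positivity)
    refine (Finset.sum_le_card_nsmul _ _ _ hterm).trans ?_
    rw [nsmul_eq_mul, hM]
    have hcard : (S.card : ℝ) ≤ h * Q := by
      rw [hS, Nat.card_Ioc]
      have : h * Q - Q ≤ h * Q := Nat.sub_le _ _
      exact_mod_cast this
    have h5 : 0 ≤ (B * B * ((h * (Q : ℝ) ^ (r - b)) * (h * (Q : ℝ) ^ (r - b)))) *
        (2 * (h * Q / T) + 1) := by (clear * - hB hh hQ hT; positivity)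
    calc (S.card : ℝ) * ((B * B * ((h * (Q : ℝ) ^ (r - b)) * (h * (Q : ℝ) ^ (r - b)))) *
          (2 * (h * Q / T) + 1)) ≤ (h * Q) * ((B * B * ((h * (Q : ℝ) ^ (r - b)) *
            (h * (Q : ℝ) ^ (r - b)))) * (2 * (h * Q / T) + 1)) := by (clear * - hcard hB hh hQ hT; gcongr)
      _ = _ := by ring
  have h1 := hD ℕ S g (fun n => -Real.log n) T b b' r M Z hT hr hr2 hbb hbb' hZ hZ1 hpair
  have h2 : (Z.card : ℝ) * V ^ 2 ≤ ∑ ρ ∈ Z, ‖∑ j ∈ S, g j * Complex.exp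
      (((-Real.log j : ℝ) : ℂ) * ρ)‖ ^ 2 := by
    have h3 : ∀ ρ ∈ Z, V ^ 2 ≤ ‖∑ j ∈ S, g j * Complex.exp (((-Real.log j : ℝ) : ℂ) * ρ)‖ ^ 2 := by
      intro ρ hρ
      have h4 := hVρ ρ hρ
      have e : DP g Q h ρ = ∑ j ∈ S, g j * Complex.exp (((-Real.log j : ℝ) : ℂ) * ρ) := by
        unfold DP
        apply Finset.sum_congr rfl
        intro n hn
        rw [cpow_exp (hSpos n hn)]
      rw [e] at h4
      exact pow_le_pow_left₀ hV.le h4 2
    have := Finset.card_nsmul_le_sum _ _ _ h3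
    rwa [nsmul_eq_mul] at this
  refine (h2.trans h1).trans ?_
  have e1 : (Q : ℝ) ^ (1 - 2 * b + 2 * r) = Q * ((Q : ℝ) ^ (r - b) * (Q : ℝ) ^ (r - b)) := by
    rw [← Real.rpow_add hQ0]
    nth_rewrite 2 [← Real.rpow_one (Q : ℝ)]
    rw [← Real.rpow_add hQ0]
    congr 1
    ring
  rw [e1, hM]
  have hq : 0 ≤ (Q : ℝ) ^ (r - b) := by positivity
  have e2 : C / r ^ 2 * T * ((B * B * ((h * (Q : ℝ) ^ (r - b)) * (h * (Q : ℝ) ^ (r - b)))) *
      ((h * Q) * (2 * (h * Q / T) + 1))) =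
      (C * B ^ 2 / r ^ 2 * (Q * ((Q : ℝ) ^ (r - b) * (Q : ℝ) ^ (r - b)))) *
        ((h : ℝ) ^ 3 * (2 * h * Q + T)) := by
    (clear * - hT hh hQ hr hC; field_simp)
  rw [e2]
  have e3 : (h : ℝ) ^ 3 * (2 * h * Q + T) ≤ 2 * (h : ℝ) ^ 4 * (T + Q) := by
    have h3 : (0 : ℝ) ≤ (h : ℝ) ^ 3 := by positivity
    have h4 : T ≤ 2 * h * T := by (clear * - hhr hr hr2 hT; nlinarith)
    calc (h : ℝ) ^ 3 * (2 * h * Q + T) ≤ (h : ℝ) ^ 3 * (2 * h * Q + 2 * h * T) := by (clear * - h4 hh; gcongr)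
      _ = _ := by ring
  calc (C * B ^ 2 / r ^ 2 * (Q * ((Q : ℝ) ^ (r - b) * (Q : ℝ) ^ (r - b)))) *
        ((h : ℝ) ^ 3 * (2 * h * Q + T)) ≤
      (C * B ^ 2 / r ^ 2 * (Q * ((Q : ℝ) ^ (r - b) * (Q : ℝ) ^ (r - b)))) *
        (2 * (h : ℝ) ^ 4 * (T + Q)) := by (clear * - e3 hC hr hQ; gcongr)
    _ = _ := by ring

end Pool.Agent.M20.Helper67.KC
end

/- Helper53.KN.Helper33.KS.Moment -/
section
/-!
# Random sets: moments, upper and lower tails (project KS, MP_768c9c_nt)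

`R : Ω → Set ι` is a random set, `Y` is a nonnegative combination of the events `S t ⊆ R`.
* `moment`: high moments of `Y` in terms of the conditional expectations
  `∑_{t : A ⊆ S t} w t ∏_{i ∈ S t \ A} p i`;
* `upper_tail`: the Markov form;
* `lower_tail`: Chebyshev;
* `copies_lower`: `h` independent copies, failure probability to the power `h`;
* `copies_upper`: the union of `h` independent copies satisfies the hypothesis of `moment`
  with `h * p i`;
* `bern_exact`: the Bernoulli random set.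
-/

set_option autoImplicit false

open MeasureTheory

namespace Pool.Agent.M20.Helper33.KS

section general

variable {Ω ι τ : Type*}

open Classical in
/-- `1` if all the elements of `A` are in `R`, `0` otherwise -/
noncomputable def ind (R : Set ι) (A : Finset ι) : ℝ := if (A : Set ι) ⊆ R then 1 else 0

/-- the random sum -/
noncomputable def YY (T : Finset τ) (w : τ → ℝ) (S : τ → Finset ι) (R : Set ι) : ℝ :=
  ∑ t ∈ T, w t * ind R (S t)

theorem ind_nonneg (R : Set ι) (A : Finset ι) : 0 ≤ ind R A := by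
  unfold ind; split_ifs <;> norm_num

theorem ind_le_one (R : Set ι) (A : Finset ι) : ind R A ≤ 1 := by
  unfold ind; split_ifs <;> norm_num

theorem ind_empty (R : Set ι) : ind R (∅ : Finset ι) = 1 := by
  unfold ind; simp

theorem ind_union [DecidableEq ι] (R : Set ι) (A B : Finset ι) :
    ind R A * ind R B = ind R (A ∪ B) := by
  unfold ind
  by_cases hA : (A : Set ι) ⊆ R <;> by_cases hB : (B : Set ι) ⊆ R <;>
    simp [hA, hB, Finset.coe_union, Set.union_subset_iff]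

theorem YY_nonneg {T : Finset τ} {w : τ → ℝ} (hw : ∀ t ∈ T, 0 ≤ w t) (S : τ → Finset ι)
    (R : Set ι) : 0 ≤ YY T w S R :=
  Finset.sum_nonneg fun t ht => mul_nonneg (hw t ht) (ind_nonneg _ _)

theorem YY_le {T : Finset τ} {w : τ → ℝ} (hw : ∀ t ∈ T, 0 ≤ w t) (S : τ → Finset ι)
    (R : Set ι) : YY T w S R ≤ ∑ t ∈ T, w t := by
  refine Finset.sum_le_sum fun t ht => ?_
  calc w t * ind R (S t) ≤ w t * 1 := mul_le_mul_of_nonneg_left (ind_le_one _ _) (hw t ht)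
    _ = w t := mul_one _

/-! ### A combinatorial bound -/

theorem card_small_subsets [DecidableEq ι] (U : Finset ι) (D : ℕ) :
    (U.powerset.filter (fun A => A.Nonempty ∧ A.card ≤ D)).card ≤ U.card ^ D := by
  classical
  have h1 : U.powerset.filter (fun A => A.Nonempty ∧ A.card ≤ D) ⊆
      (Finset.univ : Finset (Fin D → U)).image
        (fun g => Finset.univ.image (fun i => ((g i : U) : ι))) := by
    intro A hA
    rw [Finset.mem_filter, Finset.mem_powerset] at hA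
    obtain ⟨hAU, hne, hcard⟩ := hA
    obtain ⟨a0, ha0⟩ := hne
    rw [Finset.mem_image]
    let e := A.equivFin
    refine ⟨fun i => if h : (i : ℕ) < A.card then ⟨(e.symm ⟨i, h⟩ : ι), hAU (e.symm ⟨i, h⟩).2⟩
      else ⟨a0, hAU ha0⟩, Finset.mem_univ _, ?_⟩
    ext x
    rw [Finset.mem_image]
    constructor
    · rintro ⟨i, _, hi⟩
      dsimp only at hi
      by_cases h : (i : ℕ) < A.card
      · rw [dif_pos h] at hi
        rw [← hi]
        exact (e.symm ⟨i, h⟩).2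
      · rw [dif_neg h] at hi
        rw [← hi]
        exact ha0
    · intro hx
      have h2 : ((e ⟨x, hx⟩ : Fin A.card) : ℕ) < A.card := (e ⟨x, hx⟩).2
      refine ⟨⟨(e ⟨x, hx⟩ : Fin A.card), lt_of_lt_of_le h2 hcard⟩, Finset.mem_univ _, ?_⟩
      dsimp only
      rw [dif_pos h2]
      simp
  refine (Finset.card_le_card h1).trans (Finset.card_image_le.trans ?_)
  simp

theorem sum_sdiff_le [DecidableEq ι] (T : Finset τ) (w : τ → ℝ) (S : τ → Finset ι) (p : ι → ℝ)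
    (hp : ∀ i, 0 ≤ p i) (hw : ∀ t ∈ T, 0 ≤ w t) (D : ℕ) (hS : ∀ t ∈ T, (S t).card ≤ D)
    (E0 M : ℝ) (hM0 : 0 ≤ M) (h0 : ∑ t ∈ T, w t * ∏ i ∈ S t, p i ≤ E0)
    (hM : ∀ A : Finset ι, A.Nonempty →
      ∑ t ∈ T.filter (fun t => A ⊆ S t), w t * ∏ i ∈ S t \ A, p i ≤ M) (U : Finset ι) :
    ∑ t ∈ T, w t * ∏ i ∈ S t \ U, p i ≤ E0 + (U.card : ℝ) ^ D * M := by
  classical
  set 𝒜 := U.powerset.filter (fun A => A.Nonempty ∧ A.card ≤ D) with h𝒜
  have hterm : ∀ t ∈ T, ∀ A : Finset ι, 0 ≤ w t * ∏ i ∈ S t \ A, p i := fun t ht A =>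
    mul_nonneg (hw t ht) (Finset.prod_nonneg fun i _ => hp i)
  have h1 : ∀ t ∈ T, w t * ∏ i ∈ S t \ U, p i ≤ w t * ∏ i ∈ S t, p i +
      ∑ A ∈ 𝒜, if A ⊆ S t then w t * ∏ i ∈ S t \ A, p i else 0 := by
    intro t ht
    by_cases hne : (S t ∩ U).Nonempty
    · have hmem : S t ∩ U ∈ 𝒜 := by
        rw [h𝒜, Finset.mem_filter, Finset.mem_powerset]
        exact ⟨Finset.inter_subset_right, hne,
          (Finset.card_le_card Finset.inter_subset_left).trans (hS t ht)⟩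
      have h2 : (if S t ∩ U ⊆ S t then w t * ∏ i ∈ S t \ (S t ∩ U), p i else 0) ≤
          ∑ A ∈ 𝒜, if A ⊆ S t then w t * ∏ i ∈ S t \ A, p i else 0 := by
        refine Finset.single_le_sum
          (f := fun A => if A ⊆ S t then w t * ∏ i ∈ S t \ A, p i else 0) ?_ hmem
        intro A _
        show 0 ≤ if A ⊆ S t then w t * ∏ i ∈ S t \ A, p i else 0
        split_ifs
        · exact hterm t ht A
        · exact le_rfl
      rw [if_pos Finset.inter_subset_left, Finset.sdiff_inter_self_left] at h2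
      have h3 := hterm t ht ∅
      rw [Finset.sdiff_empty] at h3
      linarith
    · rw [Finset.not_nonempty_iff_eq_empty] at hne
      have h2 : S t \ U = S t := by
        rw [Finset.sdiff_eq_self_iff_disjoint, Finset.disjoint_iff_inter_eq_empty]
        exact hne
      rw [h2]
      have h3 : 0 ≤ ∑ A ∈ 𝒜, if A ⊆ S t then w t * ∏ i ∈ S t \ A, p i else 0 := by
        refine Finset.sum_nonneg fun A _ => ?_
        split_ifs
        · exact hterm t ht A
        · exact le_rfl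
      (clear * - h3; linarith)
  have h4 : ∑ t ∈ T, w t * ∏ i ∈ S t \ U, p i ≤ ∑ t ∈ T, w t * ∏ i ∈ S t, p i +
      ∑ A ∈ 𝒜, ∑ t ∈ T.filter (fun t => A ⊆ S t), w t * ∏ i ∈ S t \ A, p i := by
    refine (Finset.sum_le_sum h1).trans ?_
    rw [Finset.sum_add_distrib, Finset.sum_comm]
    simp only [Finset.sum_filter]
    exact le_rfl
  have h5 : ∑ A ∈ 𝒜, ∑ t ∈ T.filter (fun t => A ⊆ S t), w t * ∏ i ∈ S t \ A, p i ≤
      (U.card : ℝ) ^ D * M := by
    calc ∑ A ∈ 𝒜, ∑ t ∈ T.filter (fun t => A ⊆ S t), w t * ∏ i ∈ S t \ A, p i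
        ≤ ∑ _A ∈ 𝒜, M := Finset.sum_le_sum fun A hA => hM A (by
          rw [h𝒜, Finset.mem_filter] at hA; exact hA.2.1)
      _ = (𝒜.card : ℝ) * M := by rw [Finset.sum_const, nsmul_eq_mul]
      _ ≤ (U.card : ℝ) ^ D * M := by
          apply mul_le_mul_of_nonneg_right _ hM0
          exact_mod_cast card_small_subsets U D
  linarith

/-! ### Moments -/

variable [MeasurableSpace Ω]

omit [MeasurableSpace Ω] in
theorem ind_eq_indicator (R : Ω → Set ι) (A : Finset ι) :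
    (fun ω => ind (R ω) A) = Set.indicator {ω | (A : Set ι) ⊆ R ω} (fun _ => (1 : ℝ)) := by
  funext ω
  unfold ind
  by_cases h : (A : Set ι) ⊆ R ω
  · rw [if_pos h, Set.indicator_of_mem (by exact h)]
  · rw [if_neg h, Set.indicator_of_notMem (by exact h)]

theorem ind_meas {R : Ω → Set ι} (hmeas : ∀ A : Finset ι, MeasurableSet {ω | (A : Set ι) ⊆ R ω})
    (A : Finset ι) : Measurable (fun ω => ind (R ω) A) := by
  rw [ind_eq_indicator]
  exact measurable_const.indicator (hmeas A)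

theorem YY_meas {R : Ω → Set ι} (hmeas : ∀ A : Finset ι, MeasurableSet {ω | (A : Set ι) ⊆ R ω})
    (T : Finset τ) (w : τ → ℝ) (S : τ → Finset ι) : Measurable (fun ω => YY T w S (R ω)) := by
  unfold YY
  exact Finset.measurable_fun_sum _ fun t _ => (ind_meas hmeas (S t)).const_mul (w t)

theorem integrable_aux (μ : Measure Ω) [IsProbabilityMeasure μ] {R : Ω → Set ι}
    (hmeas : ∀ A : Finset ι, MeasurableSet {ω | (A : Set ι) ⊆ R ω})
    (T : Finset τ) (w : τ → ℝ) (S : τ → Finset ι) (hw : ∀ t ∈ T, 0 ≤ w t) (U : Finset ι) (k : ℕ) :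
    Integrable (fun ω => ind (R ω) U * YY T w S (R ω) ^ k) μ := by
  refine Integrable.of_bound (C := (∑ t ∈ T, w t) ^ k)
    ((ind_meas hmeas U).mul ((YY_meas hmeas T w S).pow_const k)).aestronglyMeasurable ?_
  refine Filter.Eventually.of_forall fun ω => ?_
  have h1 := YY_nonneg hw S (R ω)
  rw [Real.norm_eq_abs, abs_of_nonneg (mul_nonneg (ind_nonneg _ _) (pow_nonneg h1 k))]
  calc ind (R ω) U * YY T w S (R ω) ^ k ≤ 1 * (∑ t ∈ T, w t) ^ k :=
        mul_le_mul (ind_le_one _ _) (pow_le_pow_left₀ h1 (YY_le hw S (R ω)) k)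
          (pow_nonneg h1 k) zero_le_one
    _ = _ := one_mul _

theorem moment_aux [DecidableEq ι] (μ : Measure Ω) [IsProbabilityMeasure μ] (R : Ω → Set ι)
    (hmeas : ∀ A : Finset ι, MeasurableSet {ω | (A : Set ι) ⊆ R ω}) (p : ι → ℝ)
    (hp : ∀ i, 0 ≤ p i)
    (hub : ∀ A : Finset ι, μ.real {ω | (A : Set ι) ⊆ R ω} ≤ ∏ i ∈ A, p i)
    (T : Finset τ) (w : τ → ℝ) (S : τ → Finset ι) (hw : ∀ t ∈ T, 0 ≤ w t) (D : ℕ)
    (hS : ∀ t ∈ T, (S t).card ≤ D) (E0 M : ℝ) (hM0 : 0 ≤ M)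
    (h0 : ∑ t ∈ T, w t * ∏ i ∈ S t, p i ≤ E0)
    (hM : ∀ A : Finset ι, A.Nonempty →
      ∑ t ∈ T.filter (fun t => A ⊆ S t), w t * ∏ i ∈ S t \ A, p i ≤ M) (k : ℕ) :
    ∀ U : Finset ι, ∫ ω, ind (R ω) U * YY T w S (R ω) ^ k ∂μ ≤
      (∏ i ∈ U, p i) * ∏ i ∈ Finset.range k, (E0 + ((U.card + D * i : ℕ) : ℝ) ^ D * M) := by
  have hE0 : 0 ≤ E0 := le_trans (Finset.sum_nonneg fun t ht =>
    mul_nonneg (hw t ht) (Finset.prod_nonneg fun i _ => hp i)) h0
  induction k with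
  | zero =>
    intro U
    simp only [pow_zero, mul_one, Finset.range_zero, Finset.prod_empty]
    rw [ind_eq_indicator, integral_indicator (hmeas U), setIntegral_const]
    simpa using hub U
  | succ k ih =>
    intro U
    have h1 : ∀ ω, ind (R ω) U * YY T w S (R ω) ^ (k + 1) =
        ∑ t ∈ T, w t * (ind (R ω) (U ∪ S t) * YY T w S (R ω) ^ k) := by
      intro ω
      rw [pow_succ', ← mul_assoc]
      have h2 : ind (R ω) U * YY T w S (R ω) = ∑ t ∈ T, w t * ind (R ω) (U ∪ S t) := by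
        unfold YY
        rw [Finset.mul_sum]
        refine Finset.sum_congr rfl fun t _ => ?_
        rw [← ind_union]
        ring
      rw [h2, Finset.sum_mul]
      refine Finset.sum_congr rfl fun t _ => ?_
      ring
    simp only [h1]
    rw [integral_finsetSum _ fun t _ =>
      (integrable_aux μ hmeas T w S hw (U ∪ S t) k).const_mul (w t)]
    simp only [integral_const_mul]
    set G := ∏ i ∈ Finset.range k, (E0 + ((U.card + D * (i + 1) : ℕ) : ℝ) ^ D * M) with hG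
    have hG0 : 0 ≤ G := Finset.prod_nonneg fun i _ => by (clear * - hE0 hM0; positivity)
    have h3 : ∀ t ∈ T, w t * ∫ ω, ind (R ω) (U ∪ S t) * YY T w S (R ω) ^ k ∂μ ≤
        (∏ i ∈ U, p i) * G * (w t * ∏ i ∈ S t \ U, p i) := by
      intro t ht
      have h4 := ih (U ∪ S t)
      have h5 : ∏ i ∈ Finset.range k, (E0 + (((U ∪ S t).card + D * i : ℕ) : ℝ) ^ D * M) ≤ G := by
        rw [hG]
        refine Finset.prod_le_prod (fun i _ => by (clear * - hE0 hM0; positivity)) fun i _ => ?_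
        have h6 : (U ∪ S t).card + D * i ≤ U.card + D * (i + 1) := by
          have h7 := Finset.card_union_le U (S t)
          have h8 := hS t ht
          rw [mul_add, mul_one]
          omega
        have h9 : (((U ∪ S t).card + D * i : ℕ) : ℝ) ≤ ((U.card + D * (i + 1) : ℕ) : ℝ) := by
          exact_mod_cast h6
        have h10 := mul_le_mul_of_nonneg_right (pow_le_pow_left₀ (Nat.cast_nonneg _) h9 D) hM0
        (clear * - h10; linarith)
      have h11 : ∏ i ∈ U ∪ S t, p i = (∏ i ∈ U, p i) * ∏ i ∈ S t \ U, p i := by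
        rw [← Finset.union_sdiff_self_eq_union, Finset.prod_union Finset.disjoint_sdiff]
      have hPU : 0 ≤ ∏ i ∈ U, p i := Finset.prod_nonneg fun i _ => hp i
      have hPS : 0 ≤ ∏ i ∈ S t \ U, p i := Finset.prod_nonneg fun i _ => hp i
      calc w t * ∫ ω, ind (R ω) (U ∪ S t) * YY T w S (R ω) ^ k ∂μ
          ≤ w t * ((∏ i ∈ U ∪ S t, p i) *
            ∏ i ∈ Finset.range k, (E0 + (((U ∪ S t).card + D * i : ℕ) : ℝ) ^ D * M)) :=
            mul_le_mul_of_nonneg_left h4 (hw t ht)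
        _ ≤ w t * ((∏ i ∈ U ∪ S t, p i) * G) := by
            apply mul_le_mul_of_nonneg_left _ (hw t ht)
            exact mul_le_mul_of_nonneg_left h5 (Finset.prod_nonneg fun i _ => hp i)
        _ = (∏ i ∈ U, p i) * G * (w t * ∏ i ∈ S t \ U, p i) := by rw [h11]; ring
    refine (Finset.sum_le_sum h3).trans ?_
    rw [← Finset.mul_sum]
    have h12 := sum_sdiff_le T w S p hp hw D hS E0 M hM0 h0 hM U
    rw [Finset.prod_range_succ', mul_zero, add_zero, mul_assoc]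
    apply mul_le_mul_of_nonneg_left _ (Finset.prod_nonneg fun i _ => hp i)
    exact mul_le_mul_of_nonneg_left h12 hG0

/-- High moments of a nonnegative combination of the events `S t ⊆ R`. -/
theorem moment [DecidableEq ι] (μ : Measure Ω) [IsProbabilityMeasure μ] (R : Ω → Set ι)
    (hmeas : ∀ A : Finset ι, MeasurableSet {ω | (A : Set ι) ⊆ R ω}) (p : ι → ℝ)
    (hp : ∀ i, 0 ≤ p i)
    (hub : ∀ A : Finset ι, μ.real {ω | (A : Set ι) ⊆ R ω} ≤ ∏ i ∈ A, p i)
    (T : Finset τ) (w : τ → ℝ) (S : τ → Finset ι) (hw : ∀ t ∈ T, 0 ≤ w t) (D : ℕ)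
    (hS : ∀ t ∈ T, (S t).card ≤ D) (E0 M : ℝ) (hM0 : 0 ≤ M)
    (h0 : ∑ t ∈ T, w t * ∏ i ∈ S t, p i ≤ E0)
    (hM : ∀ A : Finset ι, A.Nonempty →
      ∑ t ∈ T.filter (fun t => A ⊆ S t), w t * ∏ i ∈ S t \ A, p i ≤ M) (k : ℕ) :
    ∫ ω, YY T w S (R ω) ^ k ∂μ ≤
      ∏ i ∈ Finset.range k, (E0 + ((D * i : ℕ) : ℝ) ^ D * M) := by
  have h := moment_aux μ R hmeas p hp hub T w S hw D hS E0 M hM0 h0 hM k ∅
  simpa [ind_empty] using h

/-- Upper tail. -/
theorem upper_tail [DecidableEq ι] (μ : Measure Ω) [IsProbabilityMeasure μ] (R : Ω → Set ι)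
    (hmeas : ∀ A : Finset ι, MeasurableSet {ω | (A : Set ι) ⊆ R ω}) (p : ι → ℝ)
    (hp : ∀ i, 0 ≤ p i)
    (hub : ∀ A : Finset ι, μ.real {ω | (A : Set ι) ⊆ R ω} ≤ ∏ i ∈ A, p i)
    (T : Finset τ) (w : τ → ℝ) (S : τ → Finset ι) (hw : ∀ t ∈ T, 0 ≤ w t) (D : ℕ)
    (hS : ∀ t ∈ T, (S t).card ≤ D) (E0 M : ℝ) (hM0 : 0 ≤ M)
    (h0 : ∑ t ∈ T, w t * ∏ i ∈ S t, p i ≤ E0)
    (hM : ∀ A : Finset ι, A.Nonempty →
      ∑ t ∈ T.filter (fun t => A ⊆ S t), w t * ∏ i ∈ S t \ A, p i ≤ M) (k : ℕ)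
    (l : ℝ) (hl : 0 < l) :
    μ.real {ω | l ≤ YY T w S (R ω)} ≤
      (∏ i ∈ Finset.range k, (E0 + ((D * i : ℕ) : ℝ) ^ D * M)) / l ^ k := by
  have h := moment μ R hmeas p hp hub T w S hw D hS E0 M hM0 h0 hM k
  have hint : Integrable (fun ω => YY T w S (R ω) ^ k) μ := by
    have := integrable_aux μ hmeas T w S hw ∅ k
    simpa [ind_empty] using this
  have h1 := mul_meas_ge_le_integral_of_nonneg (μ := μ) (f := fun ω => YY T w S (R ω) ^ k)
    (Filter.Eventually.of_forall fun ω => pow_nonneg (YY_nonneg hw S (R ω)) k) hint (l ^ k)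
  rw [le_div_iff₀ (pow_pos hl k), mul_comm]
  refine le_trans ?_ (h1.trans h)
  apply mul_le_mul_of_nonneg_left _ (pow_pos hl k).le
  refine measureReal_mono ?_ (measure_ne_top _ _)
  intro ω hω
  exact pow_le_pow_left₀ hl.le hω k

/-! ### Lower tail -/

theorem mean [DecidableEq ι] (μ : Measure Ω) [IsProbabilityMeasure μ] (R : Ω → Set ι)
    (hmeas : ∀ A : Finset ι, MeasurableSet {ω | (A : Set ι) ⊆ R ω}) (p : ι → ℝ)
    (hex : ∀ A : Finset ι, μ.real {ω | (A : Set ι) ⊆ R ω} = ∏ i ∈ A, p i)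
    (T : Finset τ) (w : τ → ℝ) (S : τ → Finset ι) :
    ∫ ω, YY T w S (R ω) ∂μ = ∑ t ∈ T, w t * ∏ i ∈ S t, p i := by
  unfold YY
  rw [integral_finsetSum]
  · refine Finset.sum_congr rfl fun t _ => ?_
    rw [integral_const_mul, ← hex, ind_eq_indicator, integral_indicator (hmeas (S t)),
      setIntegral_const]
    simp
  · intro t _
    apply Integrable.const_mul
    rw [ind_eq_indicator]
    exact (integrable_const (1 : ℝ)).indicator (hmeas (S t))

/-- Lower tail (Chebyshev). -/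
theorem lower_tail [DecidableEq ι] (μ : Measure Ω) [IsProbabilityMeasure μ] (R : Ω → Set ι)
    (hmeas : ∀ A : Finset ι, MeasurableSet {ω | (A : Set ι) ⊆ R ω}) (p : ι → ℝ)
    (hp : ∀ i, 0 ≤ p i)
    (hex : ∀ A : Finset ι, μ.real {ω | (A : Set ι) ⊆ R ω} = ∏ i ∈ A, p i)
    (T : Finset τ) (w : τ → ℝ) (S : τ → Finset ι) (hw : ∀ t ∈ T, 0 ≤ w t) (D : ℕ) (hD : 1 ≤ D)
    (hS : ∀ t ∈ T, (S t).card ≤ D) (E M : ℝ) (hE : 0 < E) (hM0 : 0 ≤ M)
    (h0 : ∑ t ∈ T, w t * ∏ i ∈ S t, p i = E)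
    (hM : ∀ A : Finset ι, A.Nonempty →
      ∑ t ∈ T.filter (fun t => A ⊆ S t), w t * ∏ i ∈ S t \ A, p i ≤ M) :
    μ.real {ω | YY T w S (R ω) ≤ E / 2} ≤ 4 * (D : ℝ) ^ D * M / E := by
  have h2 := moment μ R hmeas p hp (fun A => (hex A).le) T w S hw D hS E M hM0 h0.le hM 2
  have hmean := mean μ R hmeas p hex T w S
  rw [h0] at hmean
  have hi1 : Integrable (fun ω => YY T w S (R ω)) μ := by
    have := integrable_aux μ hmeas T w S hw ∅ 1
    simpa [ind_empty] using this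
  have hi2 : Integrable (fun ω => YY T w S (R ω) ^ 2) μ := by
    have := integrable_aux μ hmeas T w S hw ∅ 2
    simpa [ind_empty] using this
  have h3 : ∏ i ∈ Finset.range 2, (E + ((D * i : ℕ) : ℝ) ^ D * M) = E * (E + (D : ℝ) ^ D * M) := by
    rw [Finset.prod_range_succ, Finset.prod_range_one]
    have : ((D * 0 : ℕ) : ℝ) ^ D = 0 := by
      rw [mul_zero, Nat.cast_zero]
      exact zero_pow (by omega)
    rw [this, zero_mul, add_zero, mul_one]
  rw [h3] at h2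
  have hi3 : Integrable (fun ω => (YY T w S (R ω) - E) ^ 2) μ := by
    have : (fun ω => (YY T w S (R ω) - E) ^ 2) =
        fun ω => YY T w S (R ω) ^ 2 - 2 * E * YY T w S (R ω) + E ^ 2 := by
      funext ω; ring
    rw [this]
    exact (hi2.sub (hi1.const_mul _)).add (integrable_const _)
  have hvar : ∫ ω, (YY T w S (R ω) - E) ^ 2 ∂μ ≤ E * ((D : ℝ) ^ D * M) := by
    have h4 : ∫ ω, (YY T w S (R ω) - E) ^ 2 ∂μ = ∫ ω, YY T w S (R ω) ^ 2 ∂μ - E ^ 2 := by
      have : (fun ω => (YY T w S (R ω) - E) ^ 2) =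
          fun ω => YY T w S (R ω) ^ 2 - 2 * E * YY T w S (R ω) + E ^ 2 := by
        funext ω; ring
      have e1 : ∫ ω, (YY T w S (R ω) ^ 2 - 2 * E * YY T w S (R ω) + E ^ 2) ∂μ =
          ∫ ω, (YY T w S (R ω) ^ 2 - 2 * E * YY T w S (R ω)) ∂μ + ∫ _ω, E ^ 2 ∂μ :=
        integral_add (hi2.sub (hi1.const_mul (2 * E))) (integrable_const _)
      have e2 : ∫ ω, (YY T w S (R ω) ^ 2 - 2 * E * YY T w S (R ω)) ∂μ =
          ∫ ω, YY T w S (R ω) ^ 2 ∂μ - ∫ ω, 2 * E * YY T w S (R ω) ∂μ :=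
        integral_sub hi2 (hi1.const_mul (2 * E))
      rw [this, e1, e2, integral_const_mul, hmean]
      simp
      ring
    rw [h4]
    (clear * - h2; linarith)
  have h5 := mul_meas_ge_le_integral_of_nonneg (μ := μ) (f := fun ω => (YY T w S (R ω) - E) ^ 2)
    (Filter.Eventually.of_forall fun ω => sq_nonneg _) hi3 ((E / 2) ^ 2)
  have h6 : μ.real {ω | YY T w S (R ω) ≤ E / 2} ≤
      μ.real {ω | (E / 2) ^ 2 ≤ (YY T w S (R ω) - E) ^ 2} := by
    refine measureReal_mono ?_ (measure_ne_top _ _)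
    intro ω hω
    simp only [Set.mem_ofPred_eq] at hω ⊢
    (clear * - hE hω; nlinarith)
  rw [le_div_iff₀ hE]
  have h7 := mul_le_mul_of_nonneg_left h6 (sq_nonneg (E / 2))
  have h8 : (E / 2) ^ 2 * μ.real {ω | YY T w S (R ω) ≤ E / 2} ≤ E * ((D : ℝ) ^ D * M) :=
    h7.trans (h5.trans hvar)
  have h9 : E / 4 * (E * μ.real {ω | YY T w S (R ω) ≤ E / 2}) ≤ E / 4 * (4 * ((D : ℝ) ^ D * M)) := by
    calc E / 4 * (E * μ.real {ω | YY T w S (R ω) ≤ E / 2}) =
          (E / 2) ^ 2 * μ.real {ω | YY T w S (R ω) ≤ E / 2} := by ring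
      _ ≤ E * ((D : ℝ) ^ D * M) := h8
      _ = E / 4 * (4 * ((D : ℝ) ^ D * M)) := by ring
  have h10 := le_of_mul_le_mul_left h9 (by positivity)
  (clear * - h10; linarith)

/-! ### Independent copies -/

end general

/-! ### Existence -/

/-! ### The Bernoulli random set -/

section bern

variable {ι : Type*}

/-- the set coded by `ω` -/
def rs (ω : ι → Bool) : Set ι := {i | ω i = true}

/-- independent coins with probabilities `p i` -/
noncomputable def bern (p : ι → unitInterval) : Measure (ι → Bool) :=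
  Measure.infinitePi (fun i => ProbabilityTheory.bernoulliMeasure true false (p i))

instance (p : ι → unitInterval) : IsProbabilityMeasure (bern p) := by
  unfold bern; infer_instance

theorem bern_meas (A : Finset ι) : MeasurableSet {ω : ι → Bool | (A : Set ι) ⊆ rs ω} := by
  have h1 : {ω : ι → Bool | (A : Set ι) ⊆ rs ω} = Set.pi (A : Set ι) (fun _ => {true}) := by
    ext ω
    simp only [Set.mem_ofPred_eq, Set.mem_pi, Set.mem_singleton_iff]
    rfl
  rw [h1]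
  exact MeasurableSet.pi A.countable_toSet fun _ _ => measurableSet_singleton _

theorem bern_exact (p : ι → unitInterval) (A : Finset ι) :
    (bern p).real {ω : ι → Bool | (A : Set ι) ⊆ rs ω} = ∏ i ∈ A, (p i : ℝ) := by
  have h1 : {ω : ι → Bool | (A : Set ι) ⊆ rs ω} = Set.pi (A : Set ι) (fun _ => {true}) := by
    ext ω
    simp only [Set.mem_ofPred_eq, Set.mem_pi, Set.mem_singleton_iff]
    rfl
  rw [h1, measureReal_def, bern, Measure.infinitePi_pi _ (fun _ _ => measurableSet_singleton _),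
    ENNReal.toReal_prod]
  refine Finset.prod_congr rfl fun i _ => ?_
  classical
  rw [ProbabilityTheory.bernoulliMeasure_apply _ (measurableSet_singleton _)]
  simp

end bern

end Pool.Agent.M20.Helper33.KS
end

/- Helper53.KN.Helper62.KS.Prob -/
section
/-!
# Random sets: a black box (project KS, MP_768c9c_nt)

* `moment2`, `upper_tail2`: high moments with the factor `2 ^ (D * k)` (unbounded supports);
* `mult_tail`: the number of sets `S t ⊆ R` is bounded;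
* `exists_R`: one set `R` for countably many requirements of three kinds.
-/

set_option autoImplicit false

open MeasureTheory
open Pool.Agent.M20.Helper33.KS

namespace Pool.Agent.M20.Helper62.KS

section general

variable {Ω ι τ : Type*}

/-! ### Upper tail with unbounded supports -/

theorem sum_sdiff_le2 [DecidableEq ι] (T : Finset τ) (w : τ → ℝ) (S : τ → Finset ι) (p : ι → ℝ)
    (hp : ∀ i, 0 ≤ p i) (hw : ∀ t ∈ T, 0 ≤ w t) (L : ℝ)
    (hL : ∀ A : Finset ι,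
      ∑ t ∈ T.filter (fun t => A ⊆ S t), w t * ∏ i ∈ S t \ A, p i ≤ L) (U : Finset ι) :
    ∑ t ∈ T, w t * ∏ i ∈ S t \ U, p i ≤ 2 ^ U.card * L := by
  classical
  have hterm : ∀ t ∈ T, ∀ A : Finset ι, 0 ≤ w t * ∏ i ∈ S t \ A, p i := fun t ht A =>
    mul_nonneg (hw t ht) (Finset.prod_nonneg fun i _ => hp i)
  have h1 : ∀ t ∈ T, w t * ∏ i ∈ S t \ U, p i ≤
      ∑ A ∈ U.powerset, if A ⊆ S t then w t * ∏ i ∈ S t \ A, p i else 0 := by
    intro t ht
    have hmem : S t ∩ U ∈ U.powerset := Finset.mem_powerset.mpr Finset.inter_subset_right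
    have h2 : (if S t ∩ U ⊆ S t then w t * ∏ i ∈ S t \ (S t ∩ U), p i else 0) ≤
        ∑ A ∈ U.powerset, if A ⊆ S t then w t * ∏ i ∈ S t \ A, p i else 0 := by
      refine Finset.single_le_sum
        (f := fun A => if A ⊆ S t then w t * ∏ i ∈ S t \ A, p i else 0) ?_ hmem
      intro A _
      show 0 ≤ if A ⊆ S t then w t * ∏ i ∈ S t \ A, p i else 0
      split_ifs
      · exact hterm t ht A
      · exact le_rfl
    rwa [if_pos Finset.inter_subset_left, Finset.sdiff_inter_self_left] at h2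
  refine (Finset.sum_le_sum h1).trans ?_
  rw [Finset.sum_comm]
  calc ∑ A ∈ U.powerset, ∑ t ∈ T, (if A ⊆ S t then w t * ∏ i ∈ S t \ A, p i else 0)
      ≤ ∑ _A ∈ U.powerset, L := by
        refine Finset.sum_le_sum fun A _ => ?_
        rw [← Finset.sum_filter]
        exact hL A
    _ = 2 ^ U.card * L := by
        rw [Finset.sum_const, Finset.card_powerset, nsmul_eq_mul]
        push_cast
        rfl

variable [MeasurableSpace Ω]

theorem moment2_aux [DecidableEq ι] (μ : Measure Ω) [IsProbabilityMeasure μ] (R : Ω → Set ι)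
    (hmeas : ∀ A : Finset ι, MeasurableSet {ω | (A : Set ι) ⊆ R ω}) (p : ι → ℝ)
    (hp : ∀ i, 0 ≤ p i)
    (hub : ∀ A : Finset ι, μ.real {ω | (A : Set ι) ⊆ R ω} ≤ ∏ i ∈ A, p i)
    (T : Finset τ) (w : τ → ℝ) (S : τ → Finset ι) (hw : ∀ t ∈ T, 0 ≤ w t) (D : ℕ)
    (hS : ∀ t ∈ T, (S t).card ≤ D) (L : ℝ) (hL0 : 0 ≤ L)
    (hL : ∀ A : Finset ι,
      ∑ t ∈ T.filter (fun t => A ⊆ S t), w t * ∏ i ∈ S t \ A, p i ≤ L) (k : ℕ) :
    ∀ U : Finset ι, ∫ ω, ind (R ω) U * YY T w S (R ω) ^ k ∂μ ≤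
      (∏ i ∈ U, p i) * ∏ i ∈ Finset.range k, (2 ^ (U.card + D * i) * L) := by
  induction k with
  | zero =>
    intro U
    simp only [pow_zero, mul_one, Finset.range_zero, Finset.prod_empty]
    rw [ind_eq_indicator, integral_indicator (hmeas U), setIntegral_const]
    simpa using hub U
  | succ k ih =>
    intro U
    have h1 : ∀ ω, ind (R ω) U * YY T w S (R ω) ^ (k + 1) =
        ∑ t ∈ T, w t * (ind (R ω) (U ∪ S t) * YY T w S (R ω) ^ k) := by
      intro ω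
      rw [pow_succ', ← mul_assoc]
      have h2 : ind (R ω) U * YY T w S (R ω) = ∑ t ∈ T, w t * ind (R ω) (U ∪ S t) := by
        unfold YY
        rw [Finset.mul_sum]
        refine Finset.sum_congr rfl fun t _ => ?_
        rw [← ind_union]
        ring
      rw [h2, Finset.sum_mul]
      refine Finset.sum_congr rfl fun t _ => ?_
      ring
    simp only [h1]
    rw [integral_finsetSum _ fun t _ =>
      (integrable_aux μ hmeas T w S hw (U ∪ S t) k).const_mul (w t)]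
    simp only [integral_const_mul]
    set G := ∏ i ∈ Finset.range k, ((2 : ℝ) ^ (U.card + D * (i + 1)) * L) with hG
    have hG0 : 0 ≤ G := Finset.prod_nonneg fun i _ => by positivity
    have h3 : ∀ t ∈ T, w t * ∫ ω, ind (R ω) (U ∪ S t) * YY T w S (R ω) ^ k ∂μ ≤
        (∏ i ∈ U, p i) * G * (w t * ∏ i ∈ S t \ U, p i) := by
      intro t ht
      have h4 := ih (U ∪ S t)
      have h5 : ∏ i ∈ Finset.range k, ((2 : ℝ) ^ ((U ∪ S t).card + D * i) * L) ≤ G := by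
        rw [hG]
        refine Finset.prod_le_prod (fun i _ => by (clear * - hL0; positivity)) fun i _ => ?_
        have h6 : (U ∪ S t).card + D * i ≤ U.card + D * (i + 1) := by
          have h7 := Finset.card_union_le U (S t)
          have h8 := hS t ht
          rw [mul_add, mul_one]
          omega
        exact mul_le_mul_of_nonneg_right (pow_le_pow_right₀ (by norm_num) h6) hL0
      have h11 : ∏ i ∈ U ∪ S t, p i = (∏ i ∈ U, p i) * ∏ i ∈ S t \ U, p i := by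
        rw [← Finset.union_sdiff_self_eq_union, Finset.prod_union Finset.disjoint_sdiff]
      have hPU : 0 ≤ ∏ i ∈ U, p i := Finset.prod_nonneg fun i _ => hp i
      have hPS : 0 ≤ ∏ i ∈ S t \ U, p i := Finset.prod_nonneg fun i _ => hp i
      calc w t * ∫ ω, ind (R ω) (U ∪ S t) * YY T w S (R ω) ^ k ∂μ
          ≤ w t * ((∏ i ∈ U ∪ S t, p i) *
            ∏ i ∈ Finset.range k, ((2 : ℝ) ^ ((U ∪ S t).card + D * i) * L)) :=
            mul_le_mul_of_nonneg_left h4 (hw t ht)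
        _ ≤ w t * ((∏ i ∈ U ∪ S t, p i) * G) := by
            apply mul_le_mul_of_nonneg_left _ (hw t ht)
            exact mul_le_mul_of_nonneg_left h5 (Finset.prod_nonneg fun i _ => hp i)
        _ = (∏ i ∈ U, p i) * G * (w t * ∏ i ∈ S t \ U, p i) := by rw [h11]; ring
    refine (Finset.sum_le_sum h3).trans ?_
    rw [← Finset.mul_sum]
    have h12 := sum_sdiff_le2 T w S p hp hw L hL U
    rw [Finset.prod_range_succ', mul_zero, add_zero, mul_assoc]
    apply mul_le_mul_of_nonneg_left _ (Finset.prod_nonneg fun i _ => hp i)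
    exact mul_le_mul_of_nonneg_left h12 hG0

/-- High moments, the supports have at most `D` elements. -/
theorem moment2 [DecidableEq ι] (μ : Measure Ω) [IsProbabilityMeasure μ] (R : Ω → Set ι)
    (hmeas : ∀ A : Finset ι, MeasurableSet {ω | (A : Set ι) ⊆ R ω}) (p : ι → ℝ)
    (hp : ∀ i, 0 ≤ p i)
    (hub : ∀ A : Finset ι, μ.real {ω | (A : Set ι) ⊆ R ω} ≤ ∏ i ∈ A, p i)
    (T : Finset τ) (w : τ → ℝ) (S : τ → Finset ι) (hw : ∀ t ∈ T, 0 ≤ w t) (D : ℕ)
    (hS : ∀ t ∈ T, (S t).card ≤ D) (L : ℝ) (hL0 : 0 ≤ L)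
    (hL : ∀ A : Finset ι,
      ∑ t ∈ T.filter (fun t => A ⊆ S t), w t * ∏ i ∈ S t \ A, p i ≤ L) (k : ℕ) :
    ∫ ω, YY T w S (R ω) ^ k ∂μ ≤ (2 ^ (D * k) * L) ^ k := by
  have h := moment2_aux μ R hmeas p hp hub T w S hw D hS L hL0 hL k ∅
  have h2 : ∏ i ∈ Finset.range k, ((2 : ℝ) ^ ((∅ : Finset ι).card + D * i) * L) ≤
      (2 ^ (D * k) * L) ^ k := by
    calc ∏ i ∈ Finset.range k, ((2 : ℝ) ^ ((∅ : Finset ι).card + D * i) * L)
        ≤ ∏ _i ∈ Finset.range k, ((2 : ℝ) ^ (D * k) * L) := by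
          refine Finset.prod_le_prod (fun i _ => by (clear * - hL0; positivity)) fun i hi => ?_
          apply mul_le_mul_of_nonneg_right _ hL0
          apply pow_le_pow_right₀ (by norm_num)
          rw [Finset.card_empty, zero_add]
          exact Nat.mul_le_mul_left D (Finset.mem_range.mp hi).le
      _ = (2 ^ (D * k) * L) ^ k := by rw [Finset.prod_const, Finset.card_range]
  simp only [ind_empty, one_mul, Finset.prod_empty] at h
  exact h.trans h2

/-- Upper tail, the supports have at most `D` elements. -/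
theorem upper_tail2 [DecidableEq ι] (μ : Measure Ω) [IsProbabilityMeasure μ] (R : Ω → Set ι)
    (hmeas : ∀ A : Finset ι, MeasurableSet {ω | (A : Set ι) ⊆ R ω}) (p : ι → ℝ)
    (hp : ∀ i, 0 ≤ p i)
    (hub : ∀ A : Finset ι, μ.real {ω | (A : Set ι) ⊆ R ω} ≤ ∏ i ∈ A, p i)
    (T : Finset τ) (w : τ → ℝ) (S : τ → Finset ι) (hw : ∀ t ∈ T, 0 ≤ w t) (D : ℕ)
    (hS : ∀ t ∈ T, (S t).card ≤ D) (L : ℝ)
    (hL : ∀ A : Finset ι,
      ∑ t ∈ T.filter (fun t => A ⊆ S t), w t * ∏ i ∈ S t \ A, p i ≤ L) (k : ℕ)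
    (l : ℝ) (hl : 0 < l) :
    μ.real {ω | l ≤ YY T w S (R ω)} ≤ (2 ^ (D * k) * L / l) ^ k := by
  have hL0 : 0 ≤ L := le_trans (Finset.sum_nonneg fun t ht =>
    mul_nonneg (hw t (Finset.mem_filter.mp ht).1) (Finset.prod_nonneg fun i _ => hp i)) (hL ∅)
  have h := moment2 μ R hmeas p hp hub T w S hw D hS L hL0 hL k
  have hint : Integrable (fun ω => YY T w S (R ω) ^ k) μ := by
    have := integrable_aux μ hmeas T w S hw ∅ k
    simpa [ind_empty] using this
  have h1 := mul_meas_ge_le_integral_of_nonneg (μ := μ) (f := fun ω => YY T w S (R ω) ^ k)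
    (Filter.Eventually.of_forall fun ω => pow_nonneg (YY_nonneg hw S (R ω)) k) hint (l ^ k)
  rw [div_pow, le_div_iff₀ (pow_pos hl k), mul_comm]
  refine le_trans ?_ (h1.trans h)
  apply mul_le_mul_of_nonneg_left _ (pow_pos hl k).le
  refine measureReal_mono ?_ (measure_ne_top _ _)
  intro ω hω
  exact pow_le_pow_left₀ hl.le hω k

/-! ### Multiplicities -/

open Classical in
/-- the number of sequences of `n` indices, each of them with a support in `R` not
contained in the union of `U` and the previous supports (`0` if `U` is not in `R`) -/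
noncomputable def chain (T : Finset τ) (S : τ → Finset ι) : ℕ → Finset ι → Set ι → ℝ
  | 0, U, R => ind R U
  | n + 1, U, R => ∑ t ∈ T.filter (fun t => ¬ S t ⊆ U), chain T S n (U ∪ S t) R

omit [MeasurableSpace Ω] in
theorem chain_nonneg (T : Finset τ) (S : τ → Finset ι) (n : ℕ) (R : Set ι) :
    ∀ U : Finset ι, 0 ≤ chain T S n U R := by
  classical
  induction n with
  | zero => intro U; exact ind_nonneg _ _
  | succ n ih => intro U; exact Finset.sum_nonneg fun t _ => ih _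

open Classical in
omit [MeasurableSpace Ω] in
theorem chain_ge (T : Finset τ) (S : τ → Finset ι) (hinj : Set.InjOn S (T : Set τ)) (D : ℕ)
    (hS : ∀ t ∈ T, (S t).card ≤ D) (R : Set ι) (n : ℕ) :
    ∀ U : Finset ι, (U : Set ι) ⊆ R →
      (∀ m, n = m + 1 → 2 ^ (U.card + m * D) <
        (T.filter (fun t => (S t : Set ι) ⊆ R)).card) → 1 ≤ chain T S n U R := by
  induction n with
  | zero =>
    intro U hU _
    show 1 ≤ ind R U
    unfold ind
    rw [if_pos hU]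
  | succ n ih =>
    intro U hU hn
    have h1 := hn n rfl
    -- an index with a support not contained in `U`
    have h2 : ∃ t ∈ T.filter (fun t => (S t : Set ι) ⊆ R), ¬ S t ⊆ U := by
      by_contra hcon
      push Not at hcon
      have h3 : (T.filter (fun t => (S t : Set ι) ⊆ R)).card ≤ U.powerset.card := by
        refine Finset.card_le_card_of_injOn S ?_ ?_
        · intro t ht
          exact Finset.mem_coe.mpr (Finset.mem_powerset.mpr (hcon t ht))
        · exact hinj.mono (by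
            intro t ht
            exact (Finset.mem_filter.mp (Finset.mem_coe.mp ht)).1)
      rw [Finset.card_powerset] at h3
      have h4 : (2 : ℕ) ^ U.card ≤ 2 ^ (U.card + n * D) :=
        Nat.pow_le_pow_right (by norm_num) (Nat.le_add_right _ _)
      omega
    obtain ⟨t, ht, htU⟩ := h2
    rw [Finset.mem_filter] at ht
    have h5 : 1 ≤ chain T S n (U ∪ S t) R := by
      apply ih
      · rw [Finset.coe_union]
        exact Set.union_subset hU ht.2
      · intro m hm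
        refine lt_of_le_of_lt ?_ h1
        apply Nat.pow_le_pow_right (by norm_num)
        have h6 := Finset.card_union_le U (S t)
        have h7 := hS t ht.1
        rw [hm, add_mul, one_mul]
        omega
    refine h5.trans ?_
    show chain T S n (U ∪ S t) R ≤ ∑ t ∈ T.filter (fun t => ¬ S t ⊆ U), chain T S n (U ∪ S t) R
    exact Finset.single_le_sum (f := fun t => chain T S n (U ∪ S t) R)
      (fun t _ => chain_nonneg T S n R _) (Finset.mem_filter.mpr ⟨ht.1, htU⟩)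

omit [MeasurableSpace Ω] in
theorem sum_sdiff_strict [DecidableEq ι] (T : Finset τ) (S : τ → Finset ι) (p : ι → ℝ)
    (hp : ∀ i, 0 ≤ p i) (L : ℝ)
    (hL : ∀ A : Finset ι,
      ∑ t ∈ T.filter (fun t => A ⊂ S t), ∏ i ∈ S t \ A, p i ≤ L) (U : Finset ι) :
    ∑ t ∈ T.filter (fun t => ¬ S t ⊆ U), ∏ i ∈ S t \ U, p i ≤ 2 ^ U.card * L := by
  classical
  have hterm : ∀ (t : τ) (A : Finset ι), 0 ≤ ∏ i ∈ S t \ A, p i := fun t A =>
    Finset.prod_nonneg fun i _ => hp i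
  have h1 : ∀ t ∈ T.filter (fun t => ¬ S t ⊆ U), ∏ i ∈ S t \ U, p i ≤
      ∑ A ∈ U.powerset, if A ⊂ S t then ∏ i ∈ S t \ A, p i else 0 := by
    intro t ht
    have htU := (Finset.mem_filter.mp ht).2
    have hmem : S t ∩ U ∈ U.powerset := Finset.mem_powerset.mpr Finset.inter_subset_right
    have hss : S t ∩ U ⊂ S t := by
      refine Finset.ssubset_iff_subset_ne.mpr ⟨Finset.inter_subset_left, fun h => htU ?_⟩
      rw [← h]
      exact Finset.inter_subset_right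
    have h2 : (if S t ∩ U ⊂ S t then ∏ i ∈ S t \ (S t ∩ U), p i else 0) ≤
        ∑ A ∈ U.powerset, if A ⊂ S t then ∏ i ∈ S t \ A, p i else 0 := by
      refine Finset.single_le_sum
        (f := fun A => if A ⊂ S t then ∏ i ∈ S t \ A, p i else 0) ?_ hmem
      intro A _
      show 0 ≤ if A ⊂ S t then ∏ i ∈ S t \ A, p i else 0
      split_ifs
      · exact hterm t A
      · exact le_rfl
    rwa [if_pos hss, Finset.sdiff_inter_self_left] at h2
  have h3 : ∑ t ∈ T.filter (fun t => ¬ S t ⊆ U), ∏ i ∈ S t \ U, p i ≤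
      ∑ t ∈ T, ∑ A ∈ U.powerset, (if A ⊂ S t then ∏ i ∈ S t \ A, p i else 0) := by
    refine (Finset.sum_le_sum h1).trans ?_
    refine Finset.sum_le_sum_of_subset_of_nonneg (Finset.filter_subset _ _) fun t _ _ => ?_
    refine Finset.sum_nonneg fun A _ => ?_
    split_ifs
    · exact hterm t A
    · exact le_rfl
  refine h3.trans ?_
  rw [Finset.sum_comm]
  calc ∑ A ∈ U.powerset, ∑ t ∈ T, (if A ⊂ S t then ∏ i ∈ S t \ A, p i else 0)
      ≤ ∑ _A ∈ U.powerset, L := by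
        refine Finset.sum_le_sum fun A _ => ?_
        rw [← Finset.sum_filter]
        exact hL A
    _ = 2 ^ U.card * L := by
        rw [Finset.sum_const, Finset.card_powerset, nsmul_eq_mul]
        push_cast
        rfl

theorem chain_meas (μ : Measure Ω) [IsProbabilityMeasure μ] {R : Ω → Set ι}
    (hmeas : ∀ A : Finset ι, MeasurableSet {ω | (A : Set ι) ⊆ R ω})
    (T : Finset τ) (S : τ → Finset ι) (n : ℕ) :
    ∀ U : Finset ι, Integrable (fun ω => chain T S n U (R ω)) μ := by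
  classical
  induction n with
  | zero =>
    intro U
    show Integrable (fun ω => ind (R ω) U) μ
    rw [ind_eq_indicator]
    exact (integrable_const (1 : ℝ)).indicator (hmeas U)
  | succ n ih =>
    intro U
    show Integrable (fun ω => ∑ t ∈ T.filter (fun t => ¬ S t ⊆ U), chain T S n (U ∪ S t) (R ω)) μ
    exact integrable_finsetSum _ fun t _ => ih _

theorem chain_mean (μ : Measure Ω) [IsProbabilityMeasure μ] (R : Ω → Set ι)
    (hmeas : ∀ A : Finset ι, MeasurableSet {ω | (A : Set ι) ⊆ R ω}) (p : ι → ℝ)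
    (hp : ∀ i, 0 ≤ p i)
    (hub : ∀ A : Finset ι, μ.real {ω | (A : Set ι) ⊆ R ω} ≤ ∏ i ∈ A, p i)
    (T : Finset τ) (S : τ → Finset ι) (D : ℕ)
    (hS : ∀ t ∈ T, (S t).card ≤ D) (L : ℝ) (hL0 : 0 ≤ L)
    (hL : ∀ A : Finset ι, ∀ [DecidableEq ι],
      ∑ t ∈ T.filter (fun t => A ⊂ S t), ∏ i ∈ S t \ A, p i ≤ L) (n : ℕ) :
    ∀ U : Finset ι, ∫ ω, chain T S n U (R ω) ∂μ ≤
      (∏ i ∈ U, p i) * ∏ i ∈ Finset.range n, (2 ^ (U.card + D * i) * L) := by
  classical
  induction n with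
  | zero =>
    intro U
    show ∫ ω, ind (R ω) U ∂μ ≤ _
    rw [ind_eq_indicator, integral_indicator (hmeas U), setIntegral_const]
    simpa using hub U
  | succ n ih =>
    intro U
    have h0 : ∫ ω, chain T S (n + 1) U (R ω) ∂μ =
        ∑ t ∈ T.filter (fun t => ¬ S t ⊆ U), ∫ ω, chain T S n (U ∪ S t) (R ω) ∂μ := by
      rw [← integral_finsetSum _ fun t _ => chain_meas μ hmeas T S n _]
      rfl
    rw [h0]
    set G := ∏ i ∈ Finset.range n, ((2 : ℝ) ^ (U.card + D * (i + 1)) * L) with hG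
    have hG0 : 0 ≤ G := Finset.prod_nonneg fun i _ => by positivity
    have h3 : ∀ t ∈ T.filter (fun t => ¬ S t ⊆ U), ∫ ω, chain T S n (U ∪ S t) (R ω) ∂μ ≤
        (∏ i ∈ U, p i) * G * ∏ i ∈ S t \ U, p i := by
      intro t ht
      have htT := (Finset.mem_filter.mp ht).1
      have h4 := ih (U ∪ S t)
      have h5 : ∏ i ∈ Finset.range n, ((2 : ℝ) ^ ((U ∪ S t).card + D * i) * L) ≤ G := by
        rw [hG]
        refine Finset.prod_le_prod (fun i _ => by positivity) fun i _ => ?_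
        have h6 : (U ∪ S t).card + D * i ≤ U.card + D * (i + 1) := by
          have h7 := Finset.card_union_le U (S t)
          have h8 := hS t htT
          rw [mul_add, mul_one]
          omega
        exact mul_le_mul_of_nonneg_right (pow_le_pow_right₀ (by norm_num) h6) hL0
      have h11 : ∏ i ∈ U ∪ S t, p i = (∏ i ∈ U, p i) * ∏ i ∈ S t \ U, p i := by
        rw [← Finset.union_sdiff_self_eq_union, Finset.prod_union Finset.disjoint_sdiff]
      calc ∫ ω, chain T S n (U ∪ S t) (R ω) ∂μ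
          ≤ (∏ i ∈ U ∪ S t, p i) *
            ∏ i ∈ Finset.range n, ((2 : ℝ) ^ ((U ∪ S t).card + D * i) * L) := h4
        _ ≤ (∏ i ∈ U ∪ S t, p i) * G :=
            mul_le_mul_of_nonneg_left h5 (Finset.prod_nonneg fun i _ => hp i)
        _ = (∏ i ∈ U, p i) * G * ∏ i ∈ S t \ U, p i := by rw [h11]; ring
    refine (Finset.sum_le_sum h3).trans ?_
    rw [← Finset.mul_sum]
    have h12 := sum_sdiff_strict T S p hp L (fun A => hL A) U
    rw [Finset.prod_range_succ', mul_zero, add_zero, mul_assoc]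
    apply mul_le_mul_of_nonneg_left _ (Finset.prod_nonneg fun i _ => hp i)
    exact mul_le_mul_of_nonneg_left h12 hG0

/-- The number of the sets `S t ⊆ R`. -/
theorem mult_tail [dι : DecidableEq ι] (μ : Measure Ω) [IsProbabilityMeasure μ] (R : Ω → Set ι)
    (hmeas : ∀ A : Finset ι, MeasurableSet {ω | (A : Set ι) ⊆ R ω}) (p : ι → ℝ)
    (hp : ∀ i, 0 ≤ p i)
    (hub : ∀ A : Finset ι, μ.real {ω | (A : Set ι) ⊆ R ω} ≤ ∏ i ∈ A, p i)
    (T : Finset τ) (S : τ → Finset ι) (hinj : Set.InjOn S (T : Set τ)) (D : ℕ)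
    (hS : ∀ t ∈ T, (S t).card ≤ D) (L : ℝ)
    (hL : ∀ A : Finset ι,
      ∑ t ∈ T.filter (fun t => A ⊂ S t), ∏ i ∈ S t \ A, p i ≤ L) (j : ℕ) :
    μ.real {ω | (2 : ℝ) ^ (j * D) < ∑ t ∈ T, ind (R ω) (S t)} ≤ (2 ^ (j * D) * L) ^ (j + 1) := by
  classical
  have hL0 : 0 ≤ L := le_trans (Finset.sum_nonneg fun t _ =>
    Finset.prod_nonneg fun i _ => hp i) (hL ∅)
  have h := chain_mean μ R hmeas p hp hub T S D hS L hL0
    (fun A inst => by
      have := hL A
      have e : inst = dι := Subsingleton.elim _ _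
      subst e
      exact this) (j + 1) ∅
  have h2 : ∏ i ∈ Finset.range (j + 1), ((2 : ℝ) ^ ((∅ : Finset ι).card + D * i) * L) ≤
      (2 ^ (j * D) * L) ^ (j + 1) := by
    calc ∏ i ∈ Finset.range (j + 1), ((2 : ℝ) ^ ((∅ : Finset ι).card + D * i) * L)
        ≤ ∏ _i ∈ Finset.range (j + 1), ((2 : ℝ) ^ (j * D) * L) := by
          refine Finset.prod_le_prod (fun i _ => by positivity) fun i hi => ?_
          apply mul_le_mul_of_nonneg_right _ hL0
          apply pow_le_pow_right₀ (by norm_num)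
          rw [Finset.card_empty, zero_add, mul_comm]
          exact Nat.mul_le_mul_right D (by have := Finset.mem_range.mp hi; omega)
      _ = (2 ^ (j * D) * L) ^ (j + 1) := by rw [Finset.prod_const, Finset.card_range]
  rw [Finset.prod_empty, one_mul] at h
  have h3 := mul_meas_ge_le_integral_of_nonneg (μ := μ) (f := fun ω => chain T S (j + 1) ∅ (R ω))
    (Filter.Eventually.of_forall fun ω => chain_nonneg T S (j + 1) (R ω) ∅)
    (chain_meas μ hmeas T S (j + 1) ∅) 1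
  rw [one_mul] at h3
  refine le_trans ?_ (h3.trans (h.trans h2))
  refine measureReal_mono ?_ (measure_ne_top _ _)
  intro ω hω
  have hω' : (2 : ℝ) ^ (j * D) < ∑ t ∈ T, ind (R ω) (S t) := hω
  have h5 : ∑ t ∈ T, ind (R ω) (S t) =
      ((T.filter (fun t => (S t : Set ι) ⊆ R ω)).card : ℝ) := by
    rw [Finset.card_filter]
    push_cast
    refine Finset.sum_congr rfl fun t _ => ?_
    rfl
  rw [h5] at hω'
  have h6 : 2 ^ (j * D) < (T.filter (fun t => (S t : Set ι) ⊆ R ω)).card := by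
    exact_mod_cast hω'
  show 1 ≤ chain T S (j + 1) ∅ (R ω)
  refine chain_ge T S hinj D hS (R ω) (j + 1) ∅ (by simp) fun m hm => ?_
  have hm' : m = j := by omega
  subst hm'
  simpa using h6

end general

/-! ### The black box -/

section box

variable {ι τ : Type*}

/-- the coin with probability `P i`, cut to `[0,1]` -/
noncomputable def coin (P : ι → ℝ) (i : ι) : unitInterval :=
  ⟨max 0 (min 1 (P i)), le_max_left _ _, max_le zero_le_one (min_le_left _ _)⟩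

theorem coin_coe {P : ι → ℝ} (hP : ∀ i, 0 ≤ P i ∧ P i ≤ 1) (i : ι) : (coin P i : ℝ) = P i := by
  show max 0 (min 1 (P i)) = P i
  rw [min_eq_right (hP i).2, max_eq_right (hP i).1]

/-- outer probability of a property of the random set -/
noncomputable def pr (P : ι → ℝ) (E : Set (Set ι)) : ℝ :=
  (bern (coin P)).real {ω | rs ω ∈ E}

theorem pr_nonneg (P : ι → ℝ) (E : Set (Set ι)) : 0 ≤ pr P E := measureReal_nonneg

theorem pr_mono (P : ι → ℝ) {E F : Set (Set ι)} (h : E ⊆ F) : pr P E ≤ pr P F :=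
  measureReal_mono (fun _ hω => h hω) (measure_ne_top _ _)

theorem pr_union_le (P : ι → ℝ) (E F : Set (Set ι)) : pr P (E ∪ F) ≤ pr P E + pr P F := by
  unfold pr
  exact measureReal_union_le _ _

theorem pr_biUnion_le {κ : Type*} (P : ι → ℝ) (s : Finset κ) (E : κ → Set (Set ι)) :
    pr P (⋃ i ∈ s, E i) ≤ ∑ i ∈ s, pr P (E i) := by
  unfold pr
  have h : {ω : ι → Bool | rs ω ∈ ⋃ i ∈ s, E i} = ⋃ i ∈ s, {ω : ι → Bool | rs ω ∈ E i} := by
    ext ω; simp
  rw [h]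
  exact measureReal_biUnion_finset_le _ _

/-- union bound over a finite set of equally rare events -/
theorem pr_biUnion_le_card {κ : Type*} (P : ι → ℝ) (s : Finset κ) (E : κ → Set (Set ι)) (b : ℝ)
    (h : ∀ i ∈ s, pr P (E i) ≤ b) : pr P (⋃ i ∈ s, E i) ≤ s.card * b := by
  refine (pr_biUnion_le P s E).trans ((Finset.sum_le_sum h).trans ?_)
  rw [Finset.sum_const, nsmul_eq_mul]

theorem pr_iUnion_le {κ : Type*} [Countable κ] (P : ι → ℝ) (E : κ → Set (Set ι)) (b : κ → ℝ)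
    (hb : Summable b) (h : ∀ i, pr P (E i) ≤ b i) : pr P (⋃ i, E i) ≤ ∑' i, b i := by
  have hb0 : ∀ i, 0 ≤ b i := fun i => (pr_nonneg P (E i)).trans (h i)
  have h1 : {ω : ι → Bool | rs ω ∈ ⋃ i, E i} = ⋃ i, {ω : ι → Bool | rs ω ∈ E i} := by
    ext ω; simp
  have h2 : (bern (coin P)) {ω : ι → Bool | rs ω ∈ ⋃ i, E i} ≤ ENNReal.ofReal (∑' i, b i) := by
    rw [h1, ENNReal.ofReal_tsum_of_nonneg hb0 hb]
    refine (measure_iUnion_le _).trans (ENNReal.tsum_le_tsum fun i => ?_)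
    rw [← ofReal_measureReal (measure_ne_top _ _)]
    exact ENNReal.ofReal_le_ofReal (h i)
  unfold pr
  rw [measureReal_def]
  exact (ENNReal.toReal_mono ENNReal.ofReal_ne_top h2).trans
    (by rw [ENNReal.toReal_ofReal (tsum_nonneg hb0)])

/-- no failure with positive probability -/
theorem exists_of_pr (P : ι → ℝ) (E : Set (Set ι)) (h : pr P E < 1) : ∃ R, R ∉ E := by
  by_contra hcon
  push Not at hcon
  have h1 : {ω : ι → Bool | rs ω ∈ E} = Set.univ := by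
    ext ω
    simp only [Set.mem_ofPred_eq, Set.mem_univ, iff_true]
    exact hcon _
  unfold pr at h
  rw [h1] at h
  simp at h

variable (P : ι → ℝ) (hP : ∀ i, 0 ≤ P i ∧ P i ≤ 1)

include hP in
theorem pr_subset (A : Finset ι) : pr P {R | (A : Set ι) ⊆ R} = ∏ i ∈ A, P i := by
  have h := bern_exact (coin P) A
  simp only [coin_coe hP] at h
  exact h

include hP in
/-- the random set is contained in the support of `P` -/
theorem pr_support [Countable ι] : pr P {R | ¬ R ⊆ {i | 0 < P i}} = 0 := by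
  classical
  have h1 : {R : Set ι | ¬ R ⊆ {i | 0 < P i}} ⊆
      ⋃ i : ι, {R : Set ι | P i = 0 ∧ i ∈ R} := by
    intro R hR
    simp only [Set.mem_ofPred_eq, Set.not_subset] at hR
    obtain ⟨i, hi, hi0⟩ := hR
    rw [Set.mem_iUnion]
    refine ⟨i, ?_, hi⟩
    have := (hP i).1
    simp only [not_lt] at hi0
    exact le_antisymm hi0 this
  have h2 : ∀ i : ι, pr P {R : Set ι | P i = 0 ∧ i ∈ R} ≤ (fun _ : ι => (0 : ℝ)) i := by
    intro i
    by_cases h0 : P i = 0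
    · have h3 := pr_subset P hP {i}
      rw [Finset.prod_singleton, h0] at h3
      refine (pr_mono P ?_).trans h3.le
      intro R hR
      simp only [Set.mem_ofPred_eq, Finset.coe_singleton, Set.singleton_subset_iff]
      exact hR.2
    · have h3 : {R : Set ι | P i = 0 ∧ i ∈ R} = ∅ := by
        ext R; simp [h0]
      rw [h3]
      unfold pr
      simp
  have h4 := pr_iUnion_le P (fun i : ι => {R : Set ι | P i = 0 ∧ i ∈ R}) (fun _ => 0)
    summable_zero h2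
  rw [tsum_zero] at h4
  exact le_antisymm ((pr_mono P h1).trans h4) (pr_nonneg _ _)

variable [DecidableEq ι]

include hP in
/-- (UP) upper tail, any supports with at most `D` elements -/
theorem pr_upper (T : Finset τ) (w : τ → ℝ) (S : τ → Finset ι) (hw : ∀ t ∈ T, 0 ≤ w t) (D : ℕ)
    (hS : ∀ t ∈ T, (S t).card ≤ D) (L : ℝ)
    (hL : ∀ A : Finset ι,
      ∑ t ∈ T.filter (fun t => A ⊆ S t), w t * ∏ i ∈ S t \ A, P i ≤ L) (k : ℕ)
    (l : ℝ) (hl : 0 < l) :
    pr P {R | l ≤ YY T w S R} ≤ (2 ^ (D * k) * L / l) ^ k := by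
  exact upper_tail2 (bern (coin P)) rs bern_meas P (fun i => (hP i).1)
    (fun A => by rw [bern_exact]; simp only [coin_coe hP]; exact le_rfl) T w S hw D hS L hL k l hl

include hP in
/-- (MULT) the number of supports contained in the random set -/
theorem pr_mult (T : Finset τ) (S : τ → Finset ι) (hinj : Set.InjOn S (T : Set τ)) (D : ℕ)
    (hS : ∀ t ∈ T, (S t).card ≤ D) (L : ℝ)
    (hL : ∀ A : Finset ι,
      ∑ t ∈ T.filter (fun t => A ⊂ S t), ∏ i ∈ S t \ A, P i ≤ L) (j : ℕ) :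
    pr P {R | (2 : ℝ) ^ (j * D) < ∑ t ∈ T, ind R (S t)} ≤ (2 ^ (j * D) * L) ^ (j + 1) := by
  exact mult_tail (bern (coin P)) rs bern_meas P (fun i => (hP i).1)
    (fun A => by rw [bern_exact]; simp only [coin_coe hP]; exact le_rfl) T S hinj D hS L hL j

include hP in
/-- (LOW) lower tail -/
theorem pr_lower (T : Finset τ) (w : τ → ℝ) (S : τ → Finset ι) (hw : ∀ t ∈ T, 0 ≤ w t) (D : ℕ)
    (hD : 1 ≤ D) (hS : ∀ t ∈ T, (S t).card ≤ D) (E M : ℝ) (hE : 0 < E) (hM0 : 0 ≤ M)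
    (h0 : ∑ t ∈ T, w t * ∏ i ∈ S t, P i = E)
    (hM : ∀ A : Finset ι, A.Nonempty →
      ∑ t ∈ T.filter (fun t => A ⊆ S t), w t * ∏ i ∈ S t \ A, P i ≤ M) :
    pr P {R | YY T w S R ≤ E / 2} ≤ 4 * (D : ℝ) ^ D * M / E := by
  exact lower_tail (bern (coin P)) rs bern_meas P (fun i => (hP i).1)
    (fun A => by rw [bern_exact]; simp only [coin_coe hP]) T w S hw D hD hS E M hE hM0 h0 hM

omit [DecidableEq ι] in
include hP in
/-- one set `R` in the support of `P` that avoids all the failures at all the levels `k ≥ k0` -/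
theorem exists_levels [Countable ι] (k0 : ℕ) (E : ℕ → Set (Set ι)) (b : ℕ → ℝ) (hb : Summable b)
    (hs : ∑' k, b k < 1) (h0 : ∀ k, 0 ≤ b k) (h : ∀ k, k0 ≤ k → pr P (E k) ≤ b k) :
    ∃ R : Set ι, R ⊆ {i | 0 < P i} ∧ ∀ k, k0 ≤ k → R ∉ E k := by
  classical
  set E' : ℕ → Set (Set ι) := fun k => if k0 ≤ k then E k else ∅ with hE'
  have h1 : ∀ k, pr P (E' k) ≤ b k := by
    intro k
    by_cases hk : k0 ≤ k
    · simp only [hE', if_pos hk]; exact h k hk
    · simp only [hE', if_neg hk]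
      have : pr P (∅ : Set (Set ι)) = 0 := by unfold pr; simp
      rw [this]; exact h0 k
  have h2 := pr_iUnion_le P E' b hb h1
  have h3 : pr P ({R | ¬ R ⊆ {i | 0 < P i}} ∪ ⋃ k, E' k) < 1 := by
    refine lt_of_le_of_lt (pr_union_le P _ _) ?_
    rw [pr_support P hP, zero_add]
    exact lt_of_le_of_lt h2 hs
  obtain ⟨R, hR⟩ := exists_of_pr P _ h3
  refine ⟨R, ?_, ?_⟩
  · by_contra hcon
    exact hR (Or.inl hcon)
  · intro k hk hRk
    apply hR
    refine Or.inr (Set.mem_iUnion.mpr ⟨k, ?_⟩)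
    simp only [hE', if_pos hk]
    exact hRk

omit [DecidableEq ι] in
/-- geometric form: the threshold `K` depends on `c` only, not on `P` -/
theorem exists_levels_geom [Countable ι] (c : ℝ) (hc : 0 < c) : ∃ K : ℕ, ∀ k0, K ≤ k0 →
    ∀ P : ι → ℝ, (∀ i, 0 ≤ P i ∧ P i ≤ 1) → ∀ E : ℕ → Set (Set ι),
      (∀ k, k0 ≤ k → pr P (E k) ≤ (2 : ℝ) ^ (-(c * k))) →
      ∃ R : Set ι, R ⊆ {i | 0 < P i} ∧ ∀ k, k0 ≤ k → R ∉ E k := by
  set q : ℝ := (2 : ℝ) ^ (-c) with hq
  have hq0 : 0 < q := Real.rpow_pos_of_pos (by norm_num) _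
  have hq1 : q < 1 := Real.rpow_lt_one_of_one_lt_of_neg (by norm_num) (by (clear * - hc; linarith))
  obtain ⟨K, hK⟩ := exists_pow_lt_of_lt_one (show 0 < (1 - q) / 2 by linarith) hq1
  refine ⟨K, fun k0 hk0 P hP E h => ?_⟩
  have hqk : ∀ k : ℕ, (2 : ℝ) ^ (-(c * k)) = q ^ k := by
    intro k
    rw [hq, ← Real.rpow_natCast, ← Real.rpow_mul (by norm_num)]
    congr 1; ring
  have hsum : Summable (fun k : ℕ => if k0 ≤ k then q ^ k else 0) := by
    refine Summable.of_nonneg_of_le (fun k => ?_) (fun k => ?_)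
      (summable_geometric_of_lt_one hq0.le hq1)
    · split_ifs; exacts [pow_nonneg hq0.le k, le_rfl]
    · split_ifs; exacts [le_rfl, pow_nonneg hq0.le k]
  refine exists_levels P hP k0 E (fun k => if k0 ≤ k then q ^ k else 0) hsum ?_ ?_ ?_
  · have h1 : ∑' k : ℕ, (if k0 ≤ k then q ^ k else 0) = q ^ k0 * (1 - q)⁻¹ := by
      rw [← hsum.sum_add_tsum_nat_add k0]
      have h2 : ∑ i ∈ Finset.range k0, (if k0 ≤ i then q ^ i else 0) = 0 := by
        refine Finset.sum_eq_zero fun i hi => ?_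
        rw [if_neg (by have := Finset.mem_range.mp hi; omega)]
      rw [h2, zero_add]
      have h3 : ∀ i : ℕ, (if k0 ≤ i + k0 then q ^ (i + k0) else 0) = q ^ k0 * q ^ i := by
        intro i
        rw [if_pos (by omega), pow_add, mul_comm]
      simp only [h3]
      rw [tsum_mul_left, tsum_geometric_of_lt_one hq0.le hq1]
    show ∑' k : ℕ, (if k0 ≤ k then q ^ k else 0) < 1
    rw [h1]
    have h4 : q ^ k0 ≤ q ^ K := pow_le_pow_of_le_one hq0.le hq1.le hk0
    have h5 : 0 < (1 - q)⁻¹ := inv_pos.mpr (by (clear * - hq1; linarith))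
    calc q ^ k0 * (1 - q)⁻¹ ≤ (1 - q) / 2 * (1 - q)⁻¹ :=
          mul_le_mul_of_nonneg_right (h4.trans hK.le) h5.le
      _ = 1 / 2 := by
          have h6 : (1 - q) ≠ 0 := by linarith
          rw [div_mul_eq_mul_div, mul_inv_cancel₀ h6]
      _ < 1 := by norm_num
  · intro k
    show 0 ≤ if k0 ≤ k then q ^ k else 0
    split_ifs; exacts [pow_nonneg hq0.le k, le_rfl]
  · intro k hk
    show pr P (E k) ≤ if k0 ≤ k then q ^ k else 0
    rw [if_pos hk, ← hqk]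
    exact h k hk

end box

end Pool.Agent.M20.Helper62.KS
end

/- Helper53.KN.Helper16.KS.StP -/
section
/-!
# Project KS: `ExistsGood` split into events

`pr (S.PP k0) E` is the (outer) probability that the random set `R` is in `E`; every prime
`p ≥ 2^(k0/5)` is in `R` with probability `S.pr p`, independently.  Each of the Props below bounds the
probability of the failure of one field of `Sys.Good` at level `k`; `ExistsGood` follows from them by
`Helper62.KS.exists_levels_geom` (reindexing the levels of `crude`, `rpart`, `mult`, `massR`).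
-/

set_option autoImplicit false
open scoped Classical

namespace Pool.Agent.M20.Helper16.KS

open Pool.Agent.M20.Helper62.KS

namespace Sys

variable (S : Sys)

/-- the probabilities -/
noncomputable def PP (k0 p : ℕ) : ℝ :=
  if p.Prime ∧ (2 : ℝ) ^ ((k0 : ℝ) / 5) ≤ p then S.pr p else 0

theorem PP_mem (k0 p : ℕ) : 0 ≤ S.PP k0 p ∧ S.PP k0 p ≤ 1 := by
  unfold PP
  split_ifs with h
  · exact ⟨S.pr_nonneg p, S.pr_le_one h.1.ne_zero⟩
  · exact ⟨le_rfl, zero_le_one⟩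

theorem PP_le (k0 p : ℕ) : S.PP k0 p ≤ S.pr p := by
  unfold PP
  split_ifs with h
  · exact le_rfl
  · exact S.pr_nonneg p

end Sys

/-- lower bound for the active candidates (from Cand1, helper62's pr_lower) -/
def EvLow : Prop := ∀ S : Sys, ∃ e : ℝ, 0 < e ∧ ∃ K0 : ℕ, ∀ k0, K0 ≤ k0 → ∀ k, k0 ≤ k →
  pr (S.PP k0) {R | ∃ j ∈ S.badc k, S.NN R k j < ((S.Cand k j).card : ℝ) / 2} ≤
    (2 : ℝ) ^ (-(e * k))

/-- windows (from Cand1 and Sys.win1, helper33's upper_tail) -/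
def EvWin1 : Prop := ∀ S : Sys, ∃ e : ℝ, 0 < e ∧ ∃ K0 : ℕ, ∀ k0, K0 ≤ k0 → ∀ k, k0 ≤ k →
  pr (S.PP k0) {R | ∃ j ∈ S.badc k, ∃ x h : ℕ, (2 : ℝ) ^ (0.498 * (k : ℝ)) ≤ h ∧
    h ≤ 2 ^ ec S.d k ∧
    2 * (S.C1 * (h / 2 ^ ec S.d k) * (S.Cand k j).card) <
      ∑ y ∈ (S.act R k j).filter (fun y => x ≤ y.1 * y.2 ∧ y.1 * y.2 < x + h), 1 / S.pr y.2} ≤
    (2 : ℝ) ^ (-(e * k))

def EvWin2 : Prop := ∀ S : Sys, ∃ e : ℝ, 0 < e ∧ ∃ K0 : ℕ, ∀ k0, K0 ≤ k0 → ∀ k, k0 ≤ k →
  pr (S.PP k0) {R | ∃ j ∈ S.badc k, ∃ x h : ℕ, (2 : ℝ) ^ (0.38 * (k : ℝ)) ≤ h ∧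
    h ≤ 2 ^ ec S.d k ∧
    2 * (S.C1 * k * (h / 2 ^ ec S.d k) * (S.Cand k j).card) <
      ∑ y ∈ (S.act R k j).filter (fun y => x ≤ y.1 * y.2 ∧ y.1 * y.2 < x + h), 1 / S.pr y.2} ≤
    (2 : ℝ) ^ (-(e * k))

/-- number of owners of the primes `q ∈ [2^l, 2^(l+1))`, `l ≥ k0/3` (from Mult1, pr_mult) -/
def EvMult : Prop := ∀ S : Sys, ∃ e : ℝ, 0 < e ∧ ∃ K0 : ℕ, ∀ k0, K0 ≤ k0 → ∀ l : ℕ,
  (k0 : ℝ) / 4 ≤ l →
  pr (S.PP k0) {R | ∃ q : ℕ, Nat.log 2 q = l ∧ (q : ℝ) ^ S.tau < (S.own k0 R q : ℝ)} ≤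
    (2 : ℝ) ^ (-(e * l))

/-- mass of `R` in `[2^(l/5), 2^((l+1)/5))`, `l ≥ k0` (from MassR1, Markov) -/
def EvMassR : Prop := ∀ S : Sys, ∃ e : ℝ, 0 < e ∧ ∃ K0 : ℕ, ∀ k0, K0 ≤ k0 → ∀ l : ℕ, k0 ≤ l →
  pr (S.PP k0) {R | ∃ T : Finset ℕ, (∀ r ∈ T, r ∈ R ∧ (2 : ℝ) ^ ((l : ℝ) / 5) ≤ r ∧
    (r : ℝ) < (2 : ℝ) ^ (((l : ℝ) + 1) / 5)) ∧
    (2 : ℝ) ^ (-(S.tau / 8) * (l : ℝ)) <
      ∑ r ∈ T, S.base r * (r : ℝ) ^ (-S.s) * (1 + Real.log r) ^ 2} ≤ (2 : ℝ) ^ (-(e * l))

/-- mass of the control primes (from MassC1, Markov) -/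
def EvMassC : Prop := ∀ S : Sys, ∃ e : ℝ, 0 < e ∧ ∃ K0 : ℕ, ∀ k0, K0 ≤ k0 → ∀ k, k0 ≤ k →
  pr (S.PP k0) {R | (2 : ℝ) ^ (-(S.c / 4) * (k : ℝ)) <
    ∑ j ∈ S.badc k, ∑ x ∈ S.act R k j, S.wd k x.2 * (x.1 : ℝ) ^ (-S.s)} ≤ (2 : ℝ) ^ (-(e * k))

/-- crude majorant (from Crude1, pr_upper with constant order) -/
def EvCrude : Prop := ∀ S : Sys, ∃ e : ℝ, 0 < e ∧ ∃ K0 : ℕ, ∀ k0, K0 ≤ k0 → ∀ k : ℕ,
  (k0 : ℝ) / 2 ≤ k →
  pr (S.PP k0) {R | ∃ x h : ℕ, 2 ^ k ≤ x ∧ x < 2 ^ (k + 1) ∧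
    (2 : ℝ) ^ ((1/2 - 3 * S.d) * k) ≤ h ∧ h ≤ x ∧
    h * (2 : ℝ) ^ ((S.s - 1 + 7 * S.tau) * k) < ∑ n ∈ Finset.Ico x (x + h), CM (S.Fh k0 R) n} ≤
    (2 : ℝ) ^ (-(e * k))

/-- numbers with a large divisor composed of elements of `R` (from RPart1, pr_upper) -/
def EvRPart : Prop := ∀ S : Sys, ∃ e : ℝ, 0 < e ∧ ∃ K0 : ℕ, ∀ k0, K0 ≤ k0 → ∀ k : ℕ,
  (k0 : ℝ) / 2 ≤ k →
  pr (S.PP k0) {R | ∃ x h : ℕ, 2 ^ k ≤ x ∧ x < 2 ^ (k + 1) ∧
    (2 : ℝ) ^ ((1/2 - 3 * S.d) * k) ≤ h ∧ h ≤ x ∧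
    h * (2 : ℝ) ^ ((S.s - 1 - S.tau / 20) * k) <
      ∑ n ∈ (Finset.Ico x (x + h)).filter (Sys.rough k0),
        ∑ e ∈ n.divisors.filter (fun e : ℕ => (2 : ℝ) ^ ((k : ℝ) / 8) ≤ (e : ℝ) ∧ inR R e),
          S.base e * ((n / e : ℕ) : ℝ) ^ (S.s - 1)} ≤
    (2 : ℝ) ^ (-(e * k))

/-- heavy loads (from Load1, pr_upper with constant order) -/
def EvHeavy1 : Prop := ∀ S : Sys, ∃ e : ℝ, 0 < e ∧ ∃ K0 : ℕ, ∀ k0, K0 ≤ k0 → ∀ k, k0 ≤ k →
  pr (S.PP k0) {R | ∃ j < nc S.d k,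
    (2 : ℝ) ^ (-(S.ep / 100) * k) * S.G k < S.HP k0 R k j Sys.Q1} ≤ (2 : ℝ) ^ (-(e * k))

/-- heavy loads (from Load2, pr_upper with constant order) -/
def EvHeavy2 : Prop := ∀ S : Sys, ∃ e : ℝ, 0 < e ∧ ∃ K0 : ℕ, ∀ k0, K0 ≤ k0 → ∀ k, k0 ≤ k →
  pr (S.PP k0) {R | ∃ j < nc S.d k,
    (2 : ℝ) ^ (-(S.ep / 100) * k) * S.G k < S.HP k0 R k j S.Q2} ≤ (2 : ℝ) ^ (-(e * k))

end Pool.Agent.M20.Helper16.KS
end

/- Helper53.KN.Helper26.KS.EvCR -/
section
/-!
# Project KS: the events `crude` and `rpart` (EvCrude, EvRPart) from the first moments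
-/

set_option autoImplicit false
open scoped Classical

namespace Pool.Agent.M20.Helper26.KS

open Pool.Agent.M20.Helper16.KS Pool.Agent.M20.Helper62.KS Pool.Agent.M20.Helper33.KS

/-- upper tail with a power saving -/
theorem tail_pow (ρ : ℝ) (hρ : 0 < ρ) : ∃ K0 : ℕ, ∀ k0 : ℕ, K0 ≤ k0 → ∀ k : ℕ,
    (k0 : ℝ) / 2 ≤ k → ∀ P : ℕ → ℝ, (∀ i, 0 ≤ P i ∧ P i ≤ 1) →
    ∀ {τ : Type} (T : Finset τ) (w : τ → ℝ) (Su : τ → Finset ℕ), (∀ t ∈ T, 0 ≤ w t) →
    (∀ t ∈ T, ((Su t).card : ℝ) ≤ 5 * (k + 2) / k0) → ∀ L l : ℝ, 0 < l →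
    L ≤ l * (2 : ℝ) ^ (-(ρ * k)) →
    (∀ A : Finset ℕ,
      ∑ t ∈ T.filter (fun t => A ⊆ Su t), w t * ∏ i ∈ Su t \ A, P i ≤ L) →
    pr P {R | l ≤ YY T w Su R} ≤ (2 : ℝ) ^ (-(4 * (k : ℝ))) := by
  obtain ⟨M, hM⟩ := exists_nat_ge (8 / ρ)
  obtain ⟨K1, hK1⟩ := exists_nat_ge (20 * (M : ℝ) / ρ)
  refine ⟨K1 + 4, ?_⟩
  intro k0 hk0 k hk P hP τ T w Su hw hS L l hl hLl hL
  have hk0r : ((K1 : ℝ) + 4) ≤ k0 := by exact_mod_cast hk0
  have hK1n : (0 : ℝ) ≤ K1 := Nat.cast_nonneg _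
  have hk0p : (0 : ℝ) < k0 := by (clear * - hk0r; linarith)
  have hk2 : (2 : ℝ) ≤ k := by (clear * - hk hk0r; linarith)
  have hMn : (0 : ℝ) ≤ M := Nat.cast_nonneg _
  have hρM : 20 * (M : ℝ) ≤ ρ * k0 := by
    have h1 : 20 * (M : ℝ) / ρ ≤ k0 := by (clear * - hK1 hk0r; linarith)
    rw [div_le_iff₀ hρ] at h1
    linarith
  exact by
    have hM8 : 8 ≤ ρ * M := by
      rw [div_le_iff₀ hρ] at hM
      (clear * - hM; linarith)
    set D : ℕ := ⌊5 * ((k : ℝ) + 2) / k0⌋₊ with hD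
    have hDle : (D : ℝ) ≤ 5 * ((k : ℝ) + 2) / k0 := Nat.floor_le (by positivity)
    have hS' : ∀ t ∈ T, (Su t).card ≤ D := fun t ht => Nat.le_floor (hS t ht)
    have h1 := pr_upper P hP T w Su hw D hS' L (fun A => by
      have := hL A
      convert this) M l hl
    refine h1.trans ?_
    have hDM : (D : ℝ) * M ≤ ρ * k / 2 := by
      have h2 : (D : ℝ) * M ≤ 5 * ((k : ℝ) + 2) / k0 * M := mul_le_mul_of_nonneg_right hDle hMn
      refine h2.trans ?_
      rw [div_mul_eq_mul_div, div_le_iff₀ hk0p]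
      have h3 : 5 * ((k : ℝ) + 2) * M ≤ 10 * k * M := by
        apply mul_le_mul_of_nonneg_right _ hMn
        (clear * - hk hk0r; linarith)
      have h4 : (20 * (M : ℝ)) * k ≤ (ρ * k0) * k := mul_le_mul_of_nonneg_right hρM (by (clear * - hk hk0r; linarith))
      (clear * - h3 h4; nlinarith)
    exact by
      have hL0 : 0 ≤ L := le_trans (Finset.sum_nonneg fun t ht =>
        mul_nonneg (hw t (Finset.mem_filter.mp ht).1) (Finset.prod_nonneg fun i _ => (hP i).1)) (hL ∅)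
      have h5 : (2 : ℝ) ^ (D * M) * L / l ≤ (2 : ℝ) ^ (-(ρ * k / 2)) := by
        rw [div_le_iff₀ hl]
        have h6 : (2 : ℝ) ^ (D * M) ≤ (2 : ℝ) ^ (ρ * k / 2) := by
          rw [← Real.rpow_natCast]
          apply Real.rpow_le_rpow_of_exponent_le (by norm_num)
          push_cast
          exact hDM
        calc (2 : ℝ) ^ (D * M) * L ≤ (2 : ℝ) ^ (ρ * k / 2) * (l * (2 : ℝ) ^ (-(ρ * k))) :=
              mul_le_mul h6 hLl hL0 (by positivity)
          _ = ((2 : ℝ) ^ (ρ * k / 2) * (2 : ℝ) ^ (-(ρ * k))) * l := by ring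
          _ = (2 : ℝ) ^ (-(ρ * k / 2)) * l := by
              rw [← Real.rpow_add (by norm_num)]
              congr 2
              ring
      have h7 : ((2 : ℝ) ^ (D * M) * L / l) ^ M ≤ ((2 : ℝ) ^ (-(ρ * k / 2))) ^ M :=
        pow_le_pow_left₀ (by positivity) h5 M
      refine h7.trans ?_
      rw [← Real.rpow_natCast, ← Real.rpow_mul (by norm_num)]
      apply Real.rpow_le_rpow_of_exponent_le (by norm_num)
      (clear * - hM8; nlinarith)

/-- union bound over the windows -/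
theorem union_win (k : ℕ) (hk : 2 ≤ k) (P : ℕ → ℝ) (cond : ℕ → ℕ → Prop)
    (hc : ∀ x h, cond x h → x < 2 ^ (k + 1) ∧ h < 2 ^ (k + 1)) (F : ℕ → ℕ → Set (Set ℕ))
    (h : ∀ x h, cond x h → pr P (F x h) ≤ (2 : ℝ) ^ (-(4 * (k : ℝ)))) :
    pr P {R | ∃ x h, cond x h ∧ R ∈ F x h} ≤ (2 : ℝ) ^ (-(1 * (k : ℝ))) := by
  set s : Finset (ℕ × ℕ) := ((Finset.range (2 ^ (k + 1))) ×ˢ (Finset.range (2 ^ (k + 1)))).filter
    (fun y => cond y.1 y.2) with hs
  have h1 : {R : Set ℕ | ∃ x h, cond x h ∧ R ∈ F x h} ⊆ ⋃ y ∈ s, F y.1 y.2 := by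
    rintro R ⟨x, h', hxh, hR⟩
    obtain ⟨hx1, hx2⟩ := hc x h' hxh
    rw [Set.mem_iUnion₂]
    refine ⟨(x, h'), ?_, hR⟩
    rw [hs, Finset.mem_filter, Finset.mem_product, Finset.mem_range, Finset.mem_range]
    exact ⟨⟨hx1, hx2⟩, hxh⟩
  have h2 := pr_biUnion_le_card P s (fun y => F y.1 y.2) ((2 : ℝ) ^ (-(4 * (k : ℝ))))
    (fun y hy => h y.1 y.2 (Finset.mem_filter.mp hy).2)
  refine (pr_mono P h1).trans (h2.trans ?_)
  have h3 : (s.card : ℝ) ≤ (2 : ℝ) ^ (2 * (k : ℝ) + 2) := by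
    have h4 : s.card ≤ 2 ^ (k + 1) * 2 ^ (k + 1) := by
      refine (Finset.card_filter_le _ _).trans ?_
      rw [Finset.card_product, Finset.card_range]
    have h5 : (s.card : ℝ) ≤ ((2 ^ (k + 1) * 2 ^ (k + 1) : ℕ) : ℝ) := by exact_mod_cast h4
    refine h5.trans (le_of_eq ?_)
    push_cast
    rw [← pow_add, ← Real.rpow_natCast]
    congr 1
    push_cast
    ring
  have hk1 : (2 : ℝ) ≤ k := by exact_mod_cast hk
  calc (s.card : ℝ) * (2 : ℝ) ^ (-(4 * (k : ℝ)))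
      ≤ (2 : ℝ) ^ (2 * (k : ℝ) + 2) * (2 : ℝ) ^ (-(4 * (k : ℝ))) :=
        mul_le_mul_of_nonneg_right h3 (by positivity)
    _ = (2 : ℝ) ^ (2 - 2 * (k : ℝ)) := by
        rw [← Real.rpow_add (by norm_num)]
        congr 1
        ring
    _ ≤ _ := by
        apply Real.rpow_le_rpow_of_exponent_le (by norm_num)
        (clear * - hk1; linarith)

theorem card_le_omega {k0 k x h n : ℕ} (hk0 : 1 ≤ k0) (hn0 : n ≠ 0) (hn : Sys.rough k0 n)
    (hx : x < 2 ^ (k + 1)) (hh : h ≤ x) (hnx : n ∈ Finset.Ico x (x + h)) {D : Finset ℕ}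
    (hD : D ⊆ n.primeFactors) : ((D.card : ℕ) : ℝ) ≤ 5 * (k + 2) / k0 := by
  have h1 : n < 2 ^ (k + 1 + 1) := by
    have h2 := (Finset.mem_Ico.mp hnx).2
    have h3 : 2 ^ (k + 1 + 1) = 2 ^ (k + 1) + 2 ^ (k + 1) := by ring
    omega
  have h2 := Sys.rough_omega_le hk0 hn0 hn h1
  have h3 : D.card ≤ n.primeFactorsList.length := by
    refine (Finset.card_le_card hD).trans ?_
    exact List.toFinset_card_le _
  have h4 : ((D.card : ℕ) : ℝ) ≤ (n.primeFactorsList.length : ℝ) := by exact_mod_cast h3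
  refine h4.trans (h2.trans (le_of_eq ?_))
  push_cast
  ring

theorem prod_PP_le (S : Sys) (k0 : ℕ) (A D : Finset ℕ) :
    ∏ i ∈ D \ A, S.PP k0 i ≤ S.pc A D := by
  unfold Sys.pc
  exact Finset.prod_le_prod (fun i _ => (S.PP_mem k0 i).1) fun i _ => S.PP_le k0 i

/-- EvCrude from Crude1 -/
theorem evCrude (hC : Crude1) : EvCrude := by
  intro S
  obtain ⟨K1, hK1⟩ := hC S
  obtain ⟨K2, hK2⟩ := tail_pow (S.tau / 2) (by have := S.tau_pos; (clear * - this; linarith))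
  refine ⟨1, one_pos, K1 + K2 + 4, ?_⟩
  intro k0 hk0 k hk
  have hk0r : (4 : ℝ) ≤ k0 := by exact_mod_cast (by omega : 4 ≤ k0)
  have hk2' : (2 : ℝ) ≤ k := by (clear * - hk hk0r; linarith)
  have hk2 : 2 ≤ k := by exact_mod_cast hk2'
  set cond : ℕ → ℕ → Prop := fun x h => 2 ^ k ≤ x ∧ x < 2 ^ (k + 1) ∧
    (2 : ℝ) ^ ((1/2 - 3 * S.d) * k) ≤ h ∧ h ≤ x with hcond
  set F : ℕ → ℕ → Set (Set ℕ) := fun x h => {R | h * (2 : ℝ) ^ ((S.s - 1 + 7 * S.tau) * k) ≤
    ∑ n ∈ Finset.Ico x (x + h), CM (S.Fh k0 R) n} with hF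
  exact by
    refine (pr_mono _ ?_).trans (union_win k hk2 (S.PP k0) cond ?_ F ?_)
    · rintro R ⟨x, h, h1, h2, h3, h4, h5⟩
      exact ⟨x, h, ⟨h1, h2, h3, h4⟩, h5.le⟩
    · rintro x h ⟨h1, h2, h3, h4⟩
      exact ⟨h2, lt_of_le_of_lt h4 h2⟩
    · rintro x h ⟨h1, h2, h3, h4⟩
      exact by
        have hh0 : (0 : ℝ) < h := lt_of_lt_of_le (by positivity) h3
        set T : Finset (Σ _ : ℕ, Finset ℕ) :=
          ((Finset.Ico x (x + h)).filter (Sys.rough k0)).sigma (fun n => n.primeFactors.powerset)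
          with hT
        have hx0 : 0 < x := lt_of_lt_of_le (by positivity) h1
        have key := hK2 k0 (by omega) k hk (S.PP k0) (S.PP_mem k0) T
          (fun t => S.Fe t.2 t.1) (fun t => t.2) (fun t _ => S.Fe_nonneg _ _) ?_
          (h * (2 : ℝ) ^ ((S.s - 1 + 6.5 * S.tau) * k)) (h * (2 : ℝ) ^ ((S.s - 1 + 7 * S.tau) * k))
          (by (clear * - hh0; positivity)) ?_ ?_
        · refine (pr_mono _ ?_).trans key
          intro R hR
          have hR' : h * (2 : ℝ) ^ ((S.s - 1 + 7 * S.tau) * k) ≤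
            ∑ n ∈ Finset.Ico x (x + h), CM (S.Fh k0 R) n := hR
          refine hR'.trans ?_
          unfold YY
          rw [hT, Finset.sum_sigma]
          have h6 : ∑ n ∈ Finset.Ico x (x + h), CM (S.Fh k0 R) n =
              ∑ n ∈ (Finset.Ico x (x + h)).filter (Sys.rough k0), CM (S.Fh k0 R) n := by
            rw [Finset.sum_filter]
            refine Finset.sum_congr rfl fun n hn => ?_
            split_ifs with hr
            · rfl
            · refine S.CM_Fh_eq_zero k0 R ?_ hr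
              have := (Finset.mem_Ico.mp hn).1
              omega
          rw [h6]
          refine Finset.sum_le_sum fun n hn => ?_
          refine (S.CM_Fh_le k0 R (Finset.mem_filter.mp hn).2).trans (le_of_eq ?_)
          rw [Finset.sum_filter]
          refine Finset.sum_congr rfl fun D _ => ?_
          show (if ∀ p ∈ D, p ∈ R then S.Fe D n else 0) = S.Fe D n * ind R D
          unfold ind
          by_cases hD : ∀ p ∈ D, p ∈ R
          · have hD' : (D : Set ℕ) ⊆ R := fun p hp => hD p (Finset.mem_coe.mp hp)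
            rw [if_pos hD, if_pos hD', mul_one]
          · have hD' : ¬ (D : Set ℕ) ⊆ R := fun h => hD fun p hp => h (Finset.mem_coe.mpr hp)
            rw [if_neg hD, if_neg hD', mul_zero]
        · rintro ⟨n, D⟩ ht
          rw [hT, Finset.mem_sigma, Finset.mem_filter, Finset.mem_powerset] at ht
          have hn0 : n ≠ 0 := by
            have h10 : x ≤ n := (Finset.mem_Ico.mp ht.1.1).1
            omega
          exact card_le_omega (by omega) hn0 ht.1.2 h2 h4 ht.1.1 ht.2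
        · rw [mul_assoc, ← Real.rpow_add (by norm_num)]
          apply mul_le_mul_of_nonneg_left _ hh0.le
          apply Real.rpow_le_rpow_of_exponent_le (by norm_num)
          apply le_of_eq
          ring
        · intro A
          refine le_trans ?_ (hK1 k0 (by omega) k x h hk h1 h2 h3 h4 A)
          unfold Sys.CP
          rw [Finset.sum_filter, hT, Finset.sum_sigma]
          refine Finset.sum_le_sum fun n _ => ?_
          rw [← Finset.sum_filter]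
          refine Finset.sum_le_sum_of_subset_of_nonneg ?_ ?_ |>.trans
            (Finset.sum_le_sum (s := n.primeFactors.powerset.filter (fun D => A ⊆ D))
              fun D _ => ?_)
          · exact fun D hD => hD
          · intro D _ _
            exact mul_nonneg (S.Fe_nonneg _ _) (Finset.prod_nonneg fun i _ => (S.PP_mem k0 i).1)
          · exact mul_le_mul_of_nonneg_left (prod_PP_le S k0 A D) (S.Fe_nonneg _ _)

/-- EvRPart from RPart1 -/
theorem evRPart (hC : RPart1) : EvRPart := by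
  intro S
  obtain ⟨K1, hK1⟩ := hC S
  obtain ⟨K2, hK2⟩ := tail_pow (S.tau / 20) (by have := S.tau_pos; (clear * - this; linarith))
  refine ⟨1, one_pos, K1 + K2 + 4, ?_⟩
  intro k0 hk0 k hk
  have hk0r : (4 : ℝ) ≤ k0 := by exact_mod_cast (by omega : 4 ≤ k0)
  have hk2' : (2 : ℝ) ≤ k := by (clear * - hk hk0r; linarith)
  have hk2 : 2 ≤ k := by exact_mod_cast hk2'
  set cond : ℕ → ℕ → Prop := fun x h => 2 ^ k ≤ x ∧ x < 2 ^ (k + 1) ∧
    (2 : ℝ) ^ ((1/2 - 3 * S.d) * k) ≤ h ∧ h ≤ x with hcond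
  set F : ℕ → ℕ → Set (Set ℕ) := fun x h => {R | h * (2 : ℝ) ^ ((S.s - 1 - S.tau / 20) * k) ≤
    ∑ n ∈ (Finset.Ico x (x + h)).filter (Sys.rough k0),
      ∑ e ∈ n.divisors.filter (fun e : ℕ => (2 : ℝ) ^ ((k : ℝ) / 8) ≤ (e : ℝ) ∧ inR R e),
        S.base e * ((n / e : ℕ) : ℝ) ^ (S.s - 1)} with hF
  refine (pr_mono _ ?_).trans (union_win k hk2 (S.PP k0) cond ?_ F ?_)
  · rintro R ⟨x, h, h1, h2, h3, h4, h5⟩
    exact ⟨x, h, ⟨h1, h2, h3, h4⟩, h5.le⟩
  · rintro x h ⟨h1, h2, h3, h4⟩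
    exact ⟨h2, lt_of_le_of_lt h4 h2⟩
  · rintro x h ⟨h1, h2, h3, h4⟩
    have hh0 : (0 : ℝ) < h := lt_of_lt_of_le (by positivity) h3
    set T : Finset (Σ _ : ℕ, ℕ) :=
      ((Finset.Ico x (x + h)).filter (Sys.rough k0)).sigma
        (fun n => n.divisors.filter (fun e : ℕ => (2 : ℝ) ^ ((k : ℝ) / 8) ≤ (e : ℝ))) with hT
    have hx0 : 0 < x := lt_of_lt_of_le (by positivity) h1
    have hw0 : ∀ t : (Σ _ : ℕ, ℕ), 0 ≤ S.base t.2 * ((t.1 / t.2 : ℕ) : ℝ) ^ (S.s - 1) := fun t =>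
      mul_nonneg (S.base_nonneg _) (Real.rpow_nonneg (Nat.cast_nonneg _) _)
    have key := hK2 k0 (by omega) k hk (S.PP k0) (S.PP_mem k0) T
      (fun t => S.base t.2 * ((t.1 / t.2 : ℕ) : ℝ) ^ (S.s - 1)) (fun t => t.2.primeFactors)
      (fun t _ => hw0 t) ?_
      (h * (2 : ℝ) ^ ((S.s - 1 - S.tau / 10) * k)) (h * (2 : ℝ) ^ ((S.s - 1 - S.tau / 20) * k))
      (by (clear * - hh0; positivity)) ?_ ?_
    · refine (pr_mono _ ?_).trans key
      intro R hR
      have hR' : h * (2 : ℝ) ^ ((S.s - 1 - S.tau / 20) * k) ≤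
        ∑ n ∈ (Finset.Ico x (x + h)).filter (Sys.rough k0),
      ∑ e ∈ n.divisors.filter (fun e : ℕ => (2 : ℝ) ^ ((k : ℝ) / 8) ≤ (e : ℝ) ∧ inR R e),
        S.base e * ((n / e : ℕ) : ℝ) ^ (S.s - 1) := hR
      refine hR'.trans ?_
      unfold YY
      rw [hT, Finset.sum_sigma]
      refine Finset.sum_le_sum fun n hn => ?_
      rw [← Finset.filter_filter, Finset.sum_filter]
      refine Finset.sum_le_sum fun e he => ?_
      have he0 : e ≠ 0 := by
        have := Nat.dvd_of_mem_divisors (Finset.mem_filter.mp he).1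
        rintro rfl
        have h8 := Nat.eq_zero_of_zero_dvd this
        have := (Finset.mem_Ico.mp (Finset.mem_filter.mp hn).1).1
        omega
      split_ifs with hR
      · have h9 : ind R e.primeFactors = 1 := by
          unfold ind
          rw [if_pos]
          intro p hp
          have hp' := Nat.mem_primeFactors.mp (Finset.mem_coe.mp hp)
          exact hR p hp'.1 hp'.2.1
        simp only [h9, mul_one]
        exact le_rfl
      · exact mul_nonneg (hw0 ⟨n, e⟩) (ind_nonneg _ _)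
    · rintro ⟨n, e⟩ ht
      rw [hT, Finset.mem_sigma, Finset.mem_filter, Finset.mem_filter] at ht
      have hn0 : n ≠ 0 := by
        have h10 : x ≤ n := (Finset.mem_Ico.mp ht.1.1).1
        omega
      exact card_le_omega (by omega) hn0 ht.1.2 h2 h4 ht.1.1
        (Nat.primeFactors_mono (Nat.dvd_of_mem_divisors ht.2.1) hn0)
    · rw [mul_assoc, ← Real.rpow_add (by norm_num)]
      apply mul_le_mul_of_nonneg_left _ hh0.le
      apply Real.rpow_le_rpow_of_exponent_le (by norm_num)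
      apply le_of_eq
      ring
    · intro A
      refine le_trans ?_ (hK1 k0 (by omega) k x h hk h1 h2 h3 h4 A)
      rw [Finset.sum_filter, hT, Finset.sum_sigma]
      refine Finset.sum_le_sum fun n _ => ?_
      rw [← Finset.sum_filter, Finset.filter_filter]
      refine Finset.sum_le_sum fun e _ => ?_
      exact mul_le_mul_of_nonneg_left (prod_PP_le S k0 A _) (hw0 ⟨n, e⟩)

end Pool.Agent.M20.Helper26.KS
end

/- Helper53.KN.Helper61.KS.EvHeavy -/
section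
/-!
# Project KS: heavy loads (`EvHeavy1`, `EvHeavy2` from `Load1`, `Load2`)
-/

set_option autoImplicit false
open scoped Classical

namespace Pool.Agent.M20.Helper61.KS

open Pool.Agent.M20.Helper16.KS Pool.Agent.M20.Helper16.KS.Sys Pool.Agent.M20.Helper62.KS
  Pool.Agent.M20.Helper33.KS

/-- index set of the expanded loads: `(n, k', j', x, D)` -/
abbrev HI : Type := Σ _ : ℕ, Σ _ : ℕ, Σ _ : ℕ, Σ _ : ℕ × ℕ, Finset ℕ

variable (S : Sys)

noncomputable def hT (k0 k j : ℕ) (Q : ℕ × ℕ → ℕ → ℕ × ℕ → Prop) : Finset HI :=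
  ((cell S.d k j).filter (rough k0)).sigma fun n => (S.hvy k0 k).sigma fun k' =>
    (S.badc k').sigma fun j' =>
      ((S.Cand k' j').filter (fun x => x.1 ∣ n ∧ Q (k', j') n x)).sigma fun x =>
        (n / x.1).primeFactors.powerset

noncomputable def hW (t : HI) : ℝ :=
  S.wd t.2.1 t.2.2.2.1.2 * S.Fe t.2.2.2.2 (t.1 / t.2.2.2.1.1)

def hSup (t : HI) : Finset ℕ := t.2.2.2.1.2.primeFactors ∪ t.2.2.2.2

theorem hW_nonneg (t : HI) : 0 ≤ hW S t := mul_nonneg (S.wd_nonneg _ _) (S.Fe_nonneg _ _)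

theorem rough_of_dvd {k0 m n : ℕ} (h : rough k0 n) (hm : m ∣ n) : rough k0 m :=
  fun p hp hpm => h p hp (hpm.trans hm)

theorem hvy_facts {k0 k k' : ℕ} (h : k' ∈ S.hvy k0 k) : k0 ≤ k' := by
  unfold Sys.hvy at h
  rw [Finset.mem_Ico] at h
  exact (le_max_left _ _).trans h.1

theorem cand_big {k0 k' j' : ℕ} (hK : S.K ≤ k') (hk : k0 ≤ k') (hj : j' ∈ S.badc k')
    {x : ℕ × ℕ} (hx : x ∈ S.Cand k' j') : (2 : ℝ) ^ ((k0 : ℝ) / 5) ≤ x.1 := by
  obtain ⟨-, -, -, -, -, -, -, h1, -⟩ := S.cand_facts hK hj hx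
  refine le_trans ?_ h1
  apply Real.rpow_le_rpow_of_exponent_le (by norm_num)
  have h2 : (k0 : ℝ) ≤ k' := by exact_mod_cast hk
  have h3 : (0 : ℝ) ≤ k' := Nat.cast_nonneg _
  (clear * - h2; linarith)

/-- the load is at most the random sum -/
theorem HP_le_YY {k0 : ℕ} (hK : S.K ≤ k0) (R : Set ℕ) (k j : ℕ)
    (Q : ℕ × ℕ → ℕ → ℕ × ℕ → Prop) :
    S.HP k0 R k j Q ≤ YY (hT S k0 k j Q) (hW S) hSup R := by
  unfold Sys.HP YY
  simp only [hT, Finset.sum_sigma, hW, hSup]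
  rw [Finset.sum_filter]
  refine Finset.sum_le_sum fun n hn => ?_
  have hn0 : n ≠ 0 := by
    have := cell_ge hn
    have h2 : 0 < 2 ^ k := by positivity
    omega
  by_cases hr : rough k0 n
  · rw [if_pos hr]
    refine Finset.sum_le_sum fun k' hk' => Finset.sum_le_sum fun j' hj' => ?_
    have hsub : (S.act R k' j').filter (fun x => x.1 ∣ n ∧ Q (k', j') n x) ⊆
        (S.Cand k' j').filter (fun x => x.1 ∣ n ∧ Q (k', j') n x) := by
      intro x hx
      rw [Finset.mem_filter] at hx ⊢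
      exact ⟨((S.mem_act).1 hx.1).1, hx.2⟩
    refine le_trans ?_ (Finset.sum_le_sum_of_subset_of_nonneg hsub fun x _ _ =>
      Finset.sum_nonneg fun D _ => mul_nonneg (mul_nonneg (S.wd_nonneg _ _) (S.Fe_nonneg _ _))
        (ind_nonneg _ _))
    refine Finset.sum_le_sum fun x hx => ?_
    rw [Finset.mem_filter] at hx
    have hx1 := (S.mem_act).1 hx.1
    have hxr : rough k0 (n / x.1) := rough_of_dvd hr (Nat.div_dvd_of_dvd hx.2.1)
    have hx2 : x.2 ≠ 0 := by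
      obtain ⟨-, -, -, h4, -⟩ := S.cand_facts (hK.trans (hvy_facts S hk')) hj' hx1.1
      omega
    calc S.wd k' x.2 * CM (S.Fh k0 R) (n / x.1) ≤
        S.wd k' x.2 * ∑ D ∈ (n / x.1).primeFactors.powerset.filter (fun D => ∀ p ∈ D, p ∈ R),
          S.Fe D (n / x.1) := mul_le_mul_of_nonneg_left (S.CM_Fh_le k0 R hxr) (S.wd_nonneg _ _)
      _ = ∑ D ∈ (n / x.1).primeFactors.powerset, (if ∀ p ∈ D, p ∈ R then
            S.wd k' x.2 * S.Fe D (n / x.1) else 0) := by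
          rw [Finset.mul_sum, Finset.sum_filter]
      _ ≤ _ := by
          refine Finset.sum_le_sum fun D _ => ?_
          split_ifs with hD
          · have h1 : ind R (x.2.primeFactors ∪ D) = 1 := by
              unfold ind
              rw [if_pos]
              intro p hp
              rw [Finset.mem_coe, Finset.mem_union] at hp
              rcases hp with hp | hp
              · have := Nat.mem_primeFactors.mp hp
                exact hx1.2 p this.1 this.2.1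
              · exact hD p hp
            rw [h1, mul_one]
          · exact mul_nonneg (mul_nonneg (S.wd_nonneg _ _) (S.Fe_nonneg _ _)) (ind_nonneg _ _)
  · rw [if_neg hr]
    refine le_of_eq ?_
    refine Finset.sum_eq_zero fun k' hk' => Finset.sum_eq_zero fun j' hj' =>
      Finset.sum_eq_zero fun x hx => ?_
    rw [Finset.mem_filter] at hx
    have hx1 := (S.mem_act).1 hx.1
    have hkk := hvy_facts S hk'
    have hxp := (S.cand_facts (hK.trans hkk) hj' hx1.1).1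
    have hbig := cand_big S (hK.trans hkk) hkk hj' hx1.1
    obtain ⟨m, hm⟩ := hx.2.1
    have hm0 : m ≠ 0 := by
      rintro rfl
      exact hn0 (by rw [hm, mul_zero])
    have hdiv : n / x.1 = m := by rw [hm, Nat.mul_div_cancel_left _ hxp.pos]
    have hnr : ¬ rough k0 m := by
      intro h
      apply hr
      intro p hp hpn
      rw [hm, hp.dvd_mul] at hpn
      rcases hpn with h1 | h1
      · rw [(Nat.prime_dvd_prime_iff_eq hp hxp).1 h1]
        exact hbig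
      · exact h p hp h1
    rw [hdiv, S.CM_Fh_eq_zero k0 R hm0 hnr, mul_zero]

/-- the conditional expectations -/
theorem cond_le_LP (k0 k j : ℕ) (Q : ℕ × ℕ → ℕ → ℕ × ℕ → Prop) (A : Finset ℕ) :
    ∑ t ∈ (hT S k0 k j Q).filter (fun t => A ⊆ hSup t), hW S t * ∏ i ∈ hSup t \ A, S.PP k0 i ≤
      S.LP k0 k j Q A := by
  rw [Finset.sum_filter]
  unfold Sys.LP
  simp only [hT, Finset.sum_sigma, hW, hSup]
  refine Finset.sum_le_sum fun n hn => Finset.sum_le_sum fun k' hk' =>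
    Finset.sum_le_sum fun j' hj' => Finset.sum_le_sum fun x hx => ?_
  rw [Finset.sum_filter]
  refine Finset.sum_le_sum fun D _ => ?_
  split_ifs with h
  · refine mul_le_mul_of_nonneg_left ?_ (mul_nonneg (S.wd_nonneg _ _) (S.Fe_nonneg _ _))
    unfold Sys.pc
    exact Finset.prod_le_prod (fun i _ => (S.PP_mem k0 i).1) fun i _ => S.PP_le k0 i
  · exact le_rfl

theorem u_big (i : Fin 3) : (1 : ℝ) / 10 ≤ S.u i + S.c := by
  have := S.u_ge i
  have := S.c_pos
  linarith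

/-- size of the supports -/
theorem hSup_card {k0 k j : ℕ} (hK : S.K ≤ k0) (hk0 : 1 ≤ k0) (hk : k0 ≤ k)
    (hj : j < nc S.d k) (Q : ℕ × ℕ → ℕ → ℕ × ℕ → Prop) {t : HI} (ht : t ∈ hT S k0 k j Q) :
    ((hSup t).card : ℝ) ≤ 20 * k / k0 := by
  obtain ⟨n, k', j', x, D⟩ := t
  simp only [hT, Finset.mem_sigma, Finset.mem_filter, Finset.mem_powerset] at ht
  obtain ⟨⟨hn, hr⟩, hk', hj', ⟨hx, hxn, -⟩, hD⟩ := ht
  simp only [hSup]
  have hkk := hvy_facts S hk'
  have hK' := hK.trans hkk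
  have hk0' : (1 : ℝ) ≤ k0 := by exact_mod_cast hk0
  have hkR : (k0 : ℝ) ≤ k := by exact_mod_cast hk
  have hk'1 : (1 : ℝ) ≤ k' := by exact_mod_cast hk0.trans hkk
  obtain ⟨hp, -, -, h4, -, -, h7, -, -⟩ := S.cand_facts hK' hj' hx
  have hn0 : n ≠ 0 := by
    have := cell_ge hn
    have h2 : 0 < 2 ^ k := by positivity
    omega
  -- prime factors of `x.2`
  have h5 : ((x.2.primeFactors).card : ℝ) ≤ 10 := by
    have hb := (S.mem_badc).1 hj'
    obtain ⟨-, -, -, -, -, h6, -⟩ := S.cand k' hK' j' hb.1 hb.2 x hx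
    have hrx : rough k' x.2 := by
      intro p hp' hpx
      have h8 := h6 p hp' (hpx.mul_left _)
      have hp1 : (1 : ℝ) ≤ p := by exact_mod_cast hp'.one_le
      have h9 : (p : ℝ) ^ (1/2 - S.del) ≤ (p : ℝ) ^ (1/2 : ℝ) :=
        Real.rpow_le_rpow_of_exponent_le hp1 (by (clear * -; linarith [S.del_pos]))
      have h10 : (2 : ℝ) ^ ((k' : ℝ) / 10) ≤ (p : ℝ) ^ (1/2 : ℝ) := by
        refine le_trans ?_ (h8.trans h9)
        apply Real.rpow_le_rpow_of_exponent_le (by norm_num)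
        have := u_big S (S.cls k' j')
        (clear * - this; nlinarith)
      have h11 : ((2 : ℝ) ^ ((k' : ℝ) / 10)) ^ (2 : ℝ) ≤ ((p : ℝ) ^ (1/2 : ℝ)) ^ (2 : ℝ) :=
        Real.rpow_le_rpow (by positivity) h10 (by norm_num)
      rw [← Real.rpow_mul (by norm_num), ← Real.rpow_mul (by (clear * - hp1; positivity))] at h11
      norm_num at h11
      calc (2 : ℝ) ^ ((k' : ℝ) / 5) = (2 : ℝ) ^ ((k' : ℝ) / 10 * 2) := by
            congr 1
            ring
        _ ≤ p := h11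
    have hx20 : x.2 ≠ 0 := by omega
    have hx2lt : x.2 < 2 ^ (k' + 1) := lt_of_le_of_lt (Nat.le_mul_of_pos_left _ hp.pos) h7
    have h8 := rough_omega_le (hk0.trans hkk) hx20 hrx hx2lt
    have h9 : ((x.2.primeFactors).card : ℝ) ≤ (x.2.primeFactorsList.length : ℝ) := by
      exact_mod_cast List.toFinset_card_le _
    refine h9.trans (h8.trans ?_)
    rw [div_le_iff₀ (by (clear * - hk'1; linarith))]
    (clear * - hk'1; linarith)
  -- `D`
  have h6 : (D.card : ℝ) ≤ 5 * (k + 1) / k0 := by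
    have hm0 : n / x.1 ≠ 0 := by
      obtain ⟨m, hm⟩ := hxn
      rw [hm, Nat.mul_div_cancel_left _ hp.pos]
      rintro rfl
      exact hn0 (by rw [hm, mul_zero])
    have hmlt : n / x.1 < 2 ^ (k + 1) :=
      lt_of_le_of_lt (Nat.div_le_self _ _) (cell_lt S.d_pos hj hn)
    have hmr : rough k0 (n / x.1) := rough_of_dvd hr (Nat.div_dvd_of_dvd hxn)
    have h8 := rough_omega_le hk0 hm0 hmr hmlt
    have h9 : (D.card : ℝ) ≤ ((n / x.1).primeFactorsList.length : ℝ) := by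
      have := Finset.card_le_card hD
      exact_mod_cast this.trans (List.toFinset_card_le _)
    exact h9.trans h8
  have h7 : (((x.2.primeFactors ∪ D).card : ℕ) : ℝ) ≤
      (x.2.primeFactors).card + (D.card : ℝ) := by
    exact_mod_cast Finset.card_union_le _ _
  refine h7.trans ((add_le_add h5 h6).trans ?_)
  rw [le_div_iff₀ (by (clear * - hk0'; linarith)), add_mul, div_mul_cancel₀ _ (by (clear * - hk0'; linarith))]
  (clear * - hk0' hkR; nlinarith)

theorem nc_le (k : ℕ) : (nc S.d k : ℝ) ≤ (2 : ℝ) ^ k := by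
  unfold nc
  push_cast
  exact pow_le_pow_right₀ (by norm_num) (Nat.sub_le _ _)

/-- general form of `EvHeavy1`, `EvHeavy2` -/
theorem evHeavy (Q : ℕ × ℕ → ℕ → ℕ × ℕ → Prop)
    (hL : ∃ K0 : ℕ, ∀ k0 : ℕ, K0 ≤ k0 → ∀ k, k0 ≤ k → ∀ j < nc S.d k, ∀ A : Finset ℕ,
      S.LP k0 k j Q A ≤ (2 : ℝ) ^ (-(S.ep / 50) * k) * S.G k) :
    ∃ e : ℝ, 0 < e ∧ ∃ K0 : ℕ, ∀ k0, K0 ≤ k0 → ∀ k, k0 ≤ k →
      Pool.Agent.M20.Helper62.KS.pr (S.PP k0) {R | ∃ j < nc S.d k,
        (2 : ℝ) ^ (-(S.ep / 100) * k) * S.G k < S.HP k0 R k j Q} ≤ (2 : ℝ) ^ (-(e * k)) := by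
  obtain ⟨K1, hL⟩ := hL
  have hep := S.ep_pos
  set J : ℕ := ⌈400 / S.ep⌉₊ with hJ
  have hJ1 : 400 / S.ep ≤ J := Nat.le_ceil _
  have hJpos : (0 : ℝ) < J := lt_of_lt_of_le (by positivity) hJ1
  refine ⟨1, one_pos, max (max K1 S.K) (⌈4000 * J / S.ep⌉₊ + 1), fun k0 hk0 k hk => ?_⟩
  have hK1 : K1 ≤ k0 := (le_max_left _ _).trans ((le_max_left _ _).trans hk0)
  have hK : S.K ≤ k0 := (le_max_right _ _).trans ((le_max_left _ _).trans hk0)
  have hk01 : 1 ≤ k0 := S.K_pos.trans hK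
  have hk0J : 4000 * J / S.ep ≤ k0 := by
    have h1 : ⌈4000 * J / S.ep⌉₊ + 1 ≤ k0 := (le_max_right _ _).trans hk0
    have h2 : ⌈4000 * J / S.ep⌉₊ ≤ k0 := by omega
    exact (Nat.le_ceil _).trans (by exact_mod_cast h2)
  have hk0' : (0 : ℝ) < k0 := by exact_mod_cast hk01
  have hkpos : (0 : ℝ) < k := by exact_mod_cast lt_of_lt_of_le hk01 hk
  have hG : 0 < S.G k := S.G_pos (hk01.trans hk)
  set l : ℝ := (2 : ℝ) ^ (-(S.ep / 100) * k) * S.G k with hl
  have hlpos : 0 < l := by positivity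
  set D : ℕ := ⌊20 * (k : ℝ) / k0⌋₊ with hD
  have hDle : (D : ℝ) ≤ 20 * k / k0 := Nat.floor_le (by (clear * - hkpos hk01; positivity))
  -- one cell
  have hone : ∀ j ∈ Finset.range (nc S.d k), Pool.Agent.M20.Helper62.KS.pr (S.PP k0)
      {R | l ≤ YY (hT S k0 k j Q) (hW S) hSup R} ≤ (2 : ℝ) ^ (-(2 * (k : ℝ))) := by
    intro j hj
    rw [Finset.mem_range] at hj
    have h1 := pr_upper (S.PP k0) (S.PP_mem k0) (hT S k0 k j Q) (hW S) hSup
      (fun t _ => hW_nonneg S t) D (fun t ht => ?_) ((2 : ℝ) ^ (-(S.ep / 50) * k) * S.G k)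
      (fun A => (cond_le_LP S k0 k j Q A).trans (hL k0 hK1 k hk j hj A)) J l hlpos
    · refine h1.trans ?_
      have h2 : (2 : ℝ) ^ (D * J) * ((2 : ℝ) ^ (-(S.ep / 50) * k) * S.G k) / l ≤
          (2 : ℝ) ^ (-(S.ep / 200) * k) := by
        rw [hl, ← mul_assoc, mul_div_mul_right _ _ hG.ne', div_le_iff₀ (by positivity),
          ← Real.rpow_natCast, ← Real.rpow_add (by norm_num), ← Real.rpow_add (by norm_num)]
        apply Real.rpow_le_rpow_of_exponent_le (by norm_num)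
        push_cast
        have h3 : (D : ℝ) * J ≤ S.ep / 200 * k := by
          calc (D : ℝ) * J ≤ 20 * k / k0 * J := by gcongr
            _ = 20 * J * k / k0 := by ring
            _ ≤ S.ep / 200 * k := by
                rw [div_le_iff₀ hk0']
                rw [div_le_iff₀ hep] at hk0J
                (clear * - hk0J; nlinarith)
        (clear * - h3; nlinarith)
      have h0 : 0 ≤ (2 : ℝ) ^ (D * J) * ((2 : ℝ) ^ (-(S.ep / 50) * k) * S.G k) / l := by
        positivity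
      calc ((2 : ℝ) ^ (D * J) * ((2 : ℝ) ^ (-(S.ep / 50) * k) * S.G k) / l) ^ J ≤
          ((2 : ℝ) ^ (-(S.ep / 200) * k)) ^ J := pow_le_pow_left₀ h0 h2 _
        _ = (2 : ℝ) ^ (-(S.ep / 200) * k * J) := by
            rw [← Real.rpow_natCast, ← Real.rpow_mul (by norm_num)]
        _ ≤ (2 : ℝ) ^ (-(2 * (k : ℝ))) := by
            apply Real.rpow_le_rpow_of_exponent_le (by norm_num)
            rw [div_le_iff₀ hep] at hJ1
            (clear * - hJ1; nlinarith)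
    · exact Nat.le_floor (hSup_card S hK hk01 hk hj Q ht)
  have hsub : {R | ∃ j < nc S.d k, l < S.HP k0 R k j Q} ⊆
      ⋃ j ∈ Finset.range (nc S.d k), {R | l ≤ YY (hT S k0 k j Q) (hW S) hSup R} := by
    rintro R ⟨j, hj, hR⟩
    simp only [Set.mem_iUnion]
    refine ⟨j, Finset.mem_range.2 hj, ?_⟩
    exact hR.le.trans (HP_le_YY S hK R k j Q)
  refine (pr_mono _ hsub).trans ((pr_biUnion_le_card _ _ _ _ hone).trans ?_)
  rw [Finset.card_range]
  calc (nc S.d k : ℝ) * (2 : ℝ) ^ (-(2 * (k : ℝ))) ≤ (2 : ℝ) ^ k * (2 : ℝ) ^ (-(2 * (k : ℝ))) := by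
        gcongr
        exact nc_le S k
    _ = (2 : ℝ) ^ (-(1 * (k : ℝ))) := by
        rw [← Real.rpow_natCast, ← Real.rpow_add (by norm_num)]
        congr 1
        ring

theorem evHeavy1 (h : Load1) : EvHeavy1 := fun S => evHeavy S Sys.Q1 (h S)

theorem evHeavy2 (h : Load2) : EvHeavy2 := fun S => evHeavy S S.Q2 (h S)

end Pool.Agent.M20.Helper61.KS
end

/- Helper53.KN.Helper62.KS.Cls -/
section
/-!
# Good events E2, E3, E4 for an abstract class of control cells (project KS, MP_768c9c_nt)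
-/

set_option autoImplicit false

open MeasureTheory

namespace Pool.Agent.M20.Helper62.KS

/-! ### An elementary asymptotic inequality -/

/-- polynomials are smaller than exponentials -/
theorem poly_exp (C : ℝ) (n : ℕ) (a b : ℝ) (hab : a < b) :
    ∃ K : ℕ, ∀ k : ℕ, K ≤ k → C * (k : ℝ) ^ n * (2 : ℝ) ^ (-(b * k)) ≤ (2 : ℝ) ^ (-(a * k)) := by
  have h1 : Filter.Tendsto (fun k : ℕ => C * ((k : ℝ) ^ n * ((2 : ℝ) ^ (-(b - a))) ^ k))
      Filter.atTop (nhds (C * 0)) := by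
    apply Filter.Tendsto.const_mul
    have hr : |(2 : ℝ) ^ (-(b - a))| < 1 := by
      rw [abs_of_pos (Real.rpow_pos_of_pos (by norm_num) _)]
      exact Real.rpow_lt_one_of_one_lt_of_neg (by norm_num) (by linarith)
    exact tendsto_pow_const_mul_const_pow_of_abs_lt_one n hr
  rw [mul_zero] at h1
  have h2 := (h1.eventually (gt_mem_nhds (show (0 : ℝ) < 1 by norm_num)))
  rw [Filter.eventually_atTop] at h2
  obtain ⟨K, hK⟩ := h2
  refine ⟨K, fun k hk => ?_⟩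
  have h3 := hK k hk
  have h4 : (2 : ℝ) ^ (-(b * k)) = ((2 : ℝ) ^ (-(b - a))) ^ k * (2 : ℝ) ^ (-(a * k)) := by
    rw [← Real.rpow_natCast, ← Real.rpow_mul (by norm_num), ← Real.rpow_add (by norm_num)]
    congr 1; ring
  have h5 : 0 < (2 : ℝ) ^ (-(a * k)) := Real.rpow_pos_of_pos (by norm_num) _
  rw [h4]
  calc C * (k : ℝ) ^ n * (((2 : ℝ) ^ (-(b - a))) ^ k * (2 : ℝ) ^ (-(a * k)))
      = (C * ((k : ℝ) ^ n * ((2 : ℝ) ^ (-(b - a))) ^ k)) * (2 : ℝ) ^ (-(a * k)) := by ring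
    _ ≤ 1 * (2 : ℝ) ^ (-(a * k)) := mul_le_mul_of_nonneg_right h3.le h5.le
    _ = _ := one_mul _

/-! ### E2: candidates -/

end Pool.Agent.M20.Helper62.KS
end

/- Helper53.KN.Helper62.KS.EG2 -/
section
/-!
# ExistsGood, part 2: basic facts about systems (project KS, MP_768c9c_nt)
-/

set_option autoImplicit false

open MeasureTheory
open scoped Classical
open Pool.Agent.M20.Helper33.KS Pool.Agent.M20.Helper16.KS

namespace Pool.Agent.M20.Helper62.KS

variable (S : Sys)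

theorem c_pos : 0 < S.c := by
  have h1 := S.d_pos; have h2 := S.d_le
  by_contra hcon
  push Not at hcon
  have : S.c / 10 ^ 5 ≤ 0 := div_nonpos_of_nonpos_of_nonneg hcon (by norm_num)
  (clear * - h1 h2 hcon; linarith)

theorem eta_pos : 0 < S.eta := by
  have h1 := c_pos S; have h2 := S.c_le
  (clear * - h1 h2; linarith)

theorem del_pos : 0 < S.del := lt_of_lt_of_le (eta_pos S) S.eta_le

theorem c_le' : S.c ≤ 0.006 := by
  have h1 := S.c_le; have h2 := S.eta_le; have h3 := S.del_le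
  (clear * - h1 h2 h3; linarith)

theorem d_le' : S.d ≤ 0.00000006 := by
  have h1 := S.d_le; have h2 := c_le' S
  linarith

theorem ep_pos : 0 < S.ep := mul_pos (mul_pos (c_pos S) (eta_pos S)) S.d_pos

theorem tau_pos : 0 < S.tau := div_pos (ep_pos S) (by norm_num)

theorem s_le : S.s ≤ 0.0000001 := by
  unfold Sys.s
  have h1 := d_le' S
  linarith

theorem hh_pos : 0 < S.hh := by
  unfold Sys.hh
  have h1 := s_le S; have h2 := S.del_le; have h3 := tau_pos S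
  linarith

/-- the probabilities: primes `≥ 2^(k0/5)` -/
noncomputable def PP (k0 p : ℕ) : ℝ :=
  if p.Prime ∧ (2 : ℝ) ^ ((k0 : ℝ) / 5) ≤ p then S.pr p else 0

theorem pr_nonneg' (m : ℕ) : 0 ≤ S.pr m := Real.rpow_nonneg (Nat.cast_nonneg _) _

theorem pr_pos' {m : ℕ} (hm : m ≠ 0) : 0 < S.pr m :=
  Real.rpow_pos_of_pos (by exact_mod_cast Nat.pos_of_ne_zero hm) _

theorem PP_mem (k0 p : ℕ) : 0 ≤ PP S k0 p ∧ PP S k0 p ≤ 1 := by
  unfold PP
  split_ifs with hp
  · refine ⟨pr_nonneg' S p, ?_⟩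
    exact Real.rpow_le_one_of_one_le_of_nonpos (by exact_mod_cast hp.1.one_le)
      (by (clear * -; linarith [hh_pos S]))
  · exact ⟨le_rfl, zero_le_one⟩

theorem PP_le (k0 p : ℕ) : PP S k0 p ≤ S.pr p := by
  unfold PP
  split_ifs
  · exact le_rfl
  · exact pr_nonneg' S p

theorem PP_eq {k0 p : ℕ} (hp : p.Prime) (h : (2 : ℝ) ^ ((k0 : ℝ) / 5) ≤ p) :
    PP S k0 p = S.pr p := by
  unfold PP; rw [if_pos ⟨hp, h⟩]

/-- conditional probabilities are at most `pc` -/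
theorem prod_PP_le (k0 : ℕ) (A D : Finset ℕ) : ∏ p ∈ D \ A, PP S k0 p ≤ S.pc A D := by
  unfold Sys.pc
  exact Finset.prod_le_prod (fun p _ => (PP_mem S k0 p).1) fun p _ => PP_le S k0 p

theorem inR_iff {m : ℕ} (hm : m ≠ 0) (R : Set ℕ) : inR R m ↔ (m.primeFactors : Set ℕ) ⊆ R := by
  constructor
  · intro h p hp
    have hp' := Finset.mem_coe.mp hp
    exact h p (Nat.prime_of_mem_primeFactors hp') (Nat.dvd_of_mem_primeFactors hp')
  · intro h p hp hpm
    exact h (Finset.mem_coe.mpr (Nat.mem_primeFactors.mpr ⟨hp, hpm, hm⟩))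

theorem ind_inR {m : ℕ} (hm : m ≠ 0) (R : Set ℕ) :
    ind R m.primeFactors = if inR R m then 1 else 0 := by
  unfold ind
  by_cases h : inR R m
  · rw [if_pos h, if_pos ((inR_iff hm R).mp h)]
  · rw [if_neg h, if_neg (fun h' => h ((inR_iff hm R).mpr h'))]

theorem ec_le (k : ℕ) : ec S.d k ≤ k := by
  unfold ec
  have h1 := S.d_pos
  have h2 : (k : ℝ) * (1 / 2 - S.d) ≤ k := by
    have : (0 : ℝ) ≤ k := Nat.cast_nonneg _
    (clear * - h1; nlinarith)
  exact_mod_cast (Nat.floor_le_of_le h2)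

theorem cell_mem {k j n : ℕ} (hj : j < nc S.d k) (hn : n ∈ cell S.d k j) :
    2 ^ k ≤ n ∧ n < 2 ^ (k + 1) := by
  unfold cell at hn
  rw [Finset.mem_Ico] at hn
  unfold nc at hj
  constructor
  · exact le_trans (Nat.le_add_right _ _) hn.1
  · refine lt_of_lt_of_le hn.2 ?_
    have h1 : (j + 1) * 2 ^ ec S.d k ≤ 2 ^ (k - ec S.d k) * 2 ^ ec S.d k :=
      Nat.mul_le_mul_right _ hj
    rw [← pow_add, Nat.sub_add_cancel (ec_le S k)] at h1
    rw [pow_succ]
    omega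

theorem badc_mem {k j : ℕ} (hj : j ∈ S.badc k) : j < nc S.d k ∧ S.bad k j := by
  unfold Sys.badc at hj
  rw [Finset.mem_filter, Finset.mem_range] at hj
  exact hj

theorem nc_le (k : ℕ) : nc S.d k ≤ 2 ^ k := by
  unfold nc
  exact Nat.pow_le_pow_right (by norm_num) (Nat.sub_le _ _)

/-- facts about candidates -/
theorem cand_facts {k j : ℕ} (hk : S.K ≤ k) (hj : j ∈ S.badc k) {x : ℕ × ℕ}
    (hx : x ∈ S.Cand k j) :
    x.1.Prime ∧ (2 : ℝ) ^ ((k : ℝ) / 3) ≤ x.1 ∧ Squarefree x.2 ∧ x.2 ≠ 0 ∧ x.1 * x.2 < 2 ^ (k + 1) ∧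
      2 ^ k ≤ x.1 * x.2 ∧ (∀ p ∈ x.2.primeFactors, (2 : ℝ) ^ ((k : ℝ) / 5) ≤ p) := by
  have hj' := badc_mem S hj
  obtain ⟨h1, h2, h3, h4, h5, h6, h7⟩ := S.cand k hk j hj'.1 hj'.2 x hx
  have h8 : x.2 ≠ 0 := by omega
  refine ⟨h1, h2, Squarefree.of_mul_right h3, h8, (cell_mem S hj'.1 h5).2, (cell_mem S hj'.1 h5).1,
    ?_⟩
  intro p hp
  have hpp := Nat.prime_of_mem_primeFactors hp
  have h9 := h6 p hpp ((Nat.dvd_of_mem_primeFactors hp).mul_left _)
  have h10 : (1 : ℝ) ≤ p := by exact_mod_cast hpp.one_le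
  have h11 : (p : ℝ) ^ (1 / 2 - S.del) ≤ (p : ℝ) ^ (1 / 2 : ℝ) :=
    Real.rpow_le_rpow_of_exponent_le h10 (by (clear * -; linarith [del_pos S]))
  have h12 : (2 : ℝ) ^ ((k : ℝ) / 10) ≤ (2 : ℝ) ^ ((S.u (S.cls k j) + S.c) * k) := by
    apply Real.rpow_le_rpow_of_exponent_le (by norm_num)
    have h13 := S.u_ge (S.cls k j)
    have h14 := c_pos S
    have h15 : (0 : ℝ) ≤ k := Nat.cast_nonneg _
    (clear * - h13 h14; nlinarith)
  have h16 : (2 : ℝ) ^ ((k : ℝ) / 10) ≤ (p : ℝ) ^ (1 / 2 : ℝ) := h12.trans (h9.trans h11)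
  have h17 : ((2 : ℝ) ^ ((k : ℝ) / 10)) ^ (2 : ℝ) ≤ ((p : ℝ) ^ (1 / 2 : ℝ)) ^ (2 : ℝ) :=
    Real.rpow_le_rpow (by positivity) h16 (by norm_num)
  rw [← Real.rpow_mul (by norm_num), ← Real.rpow_mul (by (clear * - h10; linarith))] at h17
  norm_num at h17
  refine le_trans (le_of_eq ?_) h17
  congr 1
  ring

/-- number of prime factors -/
theorem card_pf_le (n : ℕ) (hn : n ≠ 0) (a b : ℝ) (hn2 : (n : ℝ) ≤ (2 : ℝ) ^ b)
    (h : ∀ p ∈ n.primeFactors, (2 : ℝ) ^ a ≤ p) : (n.primeFactors.card : ℝ) * a ≤ b := by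
  have h1 : ((2 : ℝ) ^ a) ^ n.primeFactors.card ≤ ∏ p ∈ n.primeFactors, (p : ℝ) := by
    rw [← Finset.prod_const]
    exact Finset.prod_le_prod (fun p _ => by positivity) h
  have h2 : ∏ p ∈ n.primeFactors, (p : ℝ) ≤ n := by
    have h3 : ∏ p ∈ n.primeFactors, p ≤ n :=
      Nat.le_of_dvd (Nat.pos_of_ne_zero hn) (Nat.prod_primeFactors_dvd n)
    have h3' : ((∏ p ∈ n.primeFactors, p : ℕ) : ℝ) ≤ (n : ℝ) := Nat.cast_le.mpr h3
    rwa [Nat.cast_prod] at h3'
  have h4 : (2 : ℝ) ^ (a * n.primeFactors.card) ≤ (2 : ℝ) ^ b := by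
    rw [Real.rpow_mul (by norm_num), Real.rpow_natCast]
    exact h1.trans (h2.trans hn2)
  have h5 := (Real.rpow_le_rpow_left_iff (by norm_num : (1 : ℝ) < 2)).mp h4
  linarith [mul_comm a (n.primeFactors.card : ℝ)]

/-- the cofactor of a candidate has at most `5` prime factors -/
theorem cand_card {k j : ℕ} (hk : S.K ≤ k) (hk2 : 2 ≤ k) (hj : j ∈ S.badc k) {x : ℕ × ℕ}
    (hx : x ∈ S.Cand k j) : x.2.primeFactors.card ≤ 5 := by
  obtain ⟨h1, h2, h3, h4, h5, h6, h7⟩ := cand_facts S hk hj hx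
  have hk2' : (2 : ℝ) ≤ k := by exact_mod_cast hk2
  have h8 : (x.2 : ℝ) ≤ (2 : ℝ) ^ ((2 / 3 : ℝ) * k + 1) := by
    have h9 : (x.1 : ℝ) * x.2 ≤ 2 ^ (k + 1) := by exact_mod_cast h5.le
    have h10 : (2 : ℝ) ^ ((k : ℝ) / 3) * x.2 ≤ 2 ^ (k + 1) :=
      (mul_le_mul_of_nonneg_right h2 (Nat.cast_nonneg _)).trans h9
    have h11 : (2 : ℝ) ^ (k + 1) = (2 : ℝ) ^ ((k : ℝ) / 3) * (2 : ℝ) ^ ((2 / 3 : ℝ) * k + 1) := by
      rw [← Real.rpow_add (by norm_num), ← Real.rpow_natCast]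
      congr 1
      push_cast
      ring
    rw [h11] at h10
    exact le_of_mul_le_mul_left h10 (by positivity)
  have h9 := card_pf_le x.2 h4 ((k : ℝ) / 5) ((2 / 3 : ℝ) * k + 1) h8 h7
  by_contra hcon
  push Not at hcon
  have h10 : (6 : ℝ) ≤ x.2.primeFactors.card := by exact_mod_cast hcon
  have h11 : (6 : ℝ) * ((k : ℝ) / 5) ≤ x.2.primeFactors.card * ((k : ℝ) / 5) :=
    mul_le_mul_of_nonneg_right h10 (by (clear * - hk2; positivity))
  (clear * - hk2' h9 h11; linarith)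

/-! ### Completely multiplicative functions -/

theorem base_nonneg (p : ℕ) : 0 ≤ S.base p := Real.rpow_nonneg (Nat.cast_nonneg _) _

end Pool.Agent.M20.Helper62.KS
end

/- Helper53.KN.Helper62.KS.EG4 -/
section
/-!
# ExistsGood, part 4: candidates (lower bounds and windows) (project KS, MP_768c9c_nt)
-/

set_option autoImplicit false

open MeasureTheory
open scoped Classical
open Pool.Agent.M20.Helper33.KS Pool.Agent.M20.Helper16.KS

namespace Pool.Agent.M20.Helper62.KS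

variable (S : Sys)

/-- the sum over the bad cells, the classes weighted by the number of their cells -/
theorem badc_sum {k : ℕ} (hk : S.K ≤ k) :
    ∑ j ∈ S.badc k, (2 : ℝ) ^ (-(S.u (S.cls k j) * k)) ≤ 3 := by
  have h1 : ∑ j ∈ S.badc k, (2 : ℝ) ^ (-(S.u (S.cls k j) * k)) =
      ∑ i : Fin 3, ∑ j ∈ (S.badc k).filter (fun j => S.cls k j = i),
        (2 : ℝ) ^ (-(S.u (S.cls k j) * k)) :=
    (Finset.sum_fiberwise (S.badc k) (fun j => S.cls k j) _).symm
  rw [h1]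
  have h2 : ∀ i : Fin 3, ∑ j ∈ (S.badc k).filter (fun j => S.cls k j = i),
      (2 : ℝ) ^ (-(S.u (S.cls k j) * k)) ≤ 1 := by
    intro i
    have h3 : ∀ j ∈ (S.badc k).filter (fun j => S.cls k j = i),
        (2 : ℝ) ^ (-(S.u (S.cls k j) * k)) = (2 : ℝ) ^ (-(S.u i * k)) := by
      intro j hj
      rw [(Finset.mem_filter.mp hj).2]
    rw [Finset.sum_congr rfl h3, Finset.sum_const, nsmul_eq_mul]
    have h4 : (((S.badc k).filter (fun j => S.cls k j = i)).card : ℝ) ≤ (2 : ℝ) ^ (S.u i * k) := by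
      have h5 := S.few k hk i
      unfold Sys.badc
      rw [Finset.filter_filter]
      exact h5
    calc (((S.badc k).filter (fun j => S.cls k j = i)).card : ℝ) * (2 : ℝ) ^ (-(S.u i * k))
        ≤ (2 : ℝ) ^ (S.u i * k) * (2 : ℝ) ^ (-(S.u i * k)) :=
          mul_le_mul_of_nonneg_right h4 (by positivity)
      _ = 1 := by
          rw [← Real.rpow_add (by norm_num), add_neg_cancel, Real.rpow_zero]
  calc ∑ i : Fin 3, ∑ j ∈ (S.badc k).filter (fun j => S.cls k j = i),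
        (2 : ℝ) ^ (-(S.u (S.cls k j) * k)) ≤ ∑ _i : Fin 3, (1 : ℝ) :=
        Finset.sum_le_sum fun i _ => h2 i
    _ = 3 := by simp

theorem NN_eq {k j : ℕ} (hk : S.K ≤ k) (hj : j ∈ S.badc k) (R : Set ℕ) :
    S.NN R k j = YY (S.Cand k j) (fun x => 1 / S.pr x.2) (fun x => x.2.primeFactors) R := by
  unfold Sys.NN Sys.act YY
  rw [Finset.sum_filter]
  refine Finset.sum_congr rfl fun x hx => ?_
  obtain ⟨h1, h2, h3, h4, h5, h6, h7⟩ := cand_facts S hk hj hx
  rw [ind_inR h4]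
  split_ifs
  · rw [mul_one]
  · rw [mul_zero]

/-- probability that all the primes of the cofactor are in the random set -/
theorem cand_prod {k0 k j : ℕ} (hk : S.K ≤ k) (hk0 : k0 ≤ k) (hj : j ∈ S.badc k) {x : ℕ × ℕ}
    (hx : x ∈ S.Cand k j) : ∏ p ∈ x.2.primeFactors, PP S k0 p = S.pr x.2 := by
  obtain ⟨h1, h2, h3, h4, h5, h6, h7⟩ := cand_facts S hk hj hx
  have h8 : ∀ p ∈ x.2.primeFactors, PP S k0 p = (p : ℝ) ^ (-S.hh) := by
    intro p hp
    rw [PP_eq S (Nat.prime_of_mem_primeFactors hp)]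
    · rfl
    · refine le_trans ?_ (h7 p hp)
      apply Real.rpow_le_rpow_of_exponent_le (by norm_num)
      have h9 : (k0 : ℝ) ≤ k := by exact_mod_cast hk0
      (clear * - h9; linarith)
  rw [Finset.prod_congr rfl h8, Real.finsetProd_rpow _ _ (fun i _ => Nat.cast_nonneg _)]
  unfold Sys.pr
  congr 1
  rw [← Nat.cast_prod, Nat.prod_primeFactors_of_squarefree h3]

/-- E2 -/
theorem ev_lower (hC : Cand1) : ∃ K0 : ℕ, ∀ k0 : ℕ, K0 ≤ k0 → ∀ k : ℕ, k0 ≤ k →
    pr (PP S k0) {R | ∃ j ∈ S.badc k, S.NN R k j < ((S.Cand k j).card : ℝ) / 2} ≤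
      (2 : ℝ) ^ (-(S.c / 4 * k)) := by
  obtain ⟨K1, hK1⟩ := hC S
  obtain ⟨K2, hK2⟩ := poly_exp (3 * (4 * (5 : ℝ) ^ 5 / S.c1)) 2 (S.c / 4) (S.c / 2)
    (by linarith [c_pos S])
  refine ⟨max (max K1 K2) (max S.K 2), fun k0 hk0 k hk => ?_⟩
  have hkK1 : K1 ≤ k := ((le_max_left _ _).trans ((le_max_left _ _).trans hk0)).trans hk
  have hkK2 : K2 ≤ k := ((le_max_right _ _).trans ((le_max_left _ _).trans hk0)).trans hk
  have hkK : S.K ≤ k := ((le_max_left _ _).trans ((le_max_right _ _).trans hk0)).trans hk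
  have hk2 : 2 ≤ k := ((le_max_right _ _).trans ((le_max_right _ _).trans hk0)).trans hk
  have hk' : (0 : ℝ) < k := by
    have : (2 : ℝ) ≤ k := by exact_mod_cast hk2
    (clear * - this; linarith)
  have hc1 := S.c1_pos
  have hone : ∀ j ∈ S.badc k, pr (PP S k0) {R | S.NN R k j < ((S.Cand k j).card : ℝ) / 2} ≤
      4 * (5 : ℝ) ^ 5 / S.c1 * (k : ℝ) ^ 2 * (2 : ℝ) ^ (-(S.c / 2 * k)) *
        (2 : ℝ) ^ (-(S.u (S.cls k j) * k)) := by
    intro j hj
    have hmany := S.many k hkK j (badc_mem S hj).1 (badc_mem S hj).2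
    have hE : (0 : ℝ) < S.c1 * 2 ^ ec S.d k / (k : ℝ) ^ 2 := by (clear * - hc1 hk2; positivity)
    have hcard : (0 : ℝ) < (S.Cand k j).card := lt_of_lt_of_le hE hmany
    set M : ℝ := (2 : ℝ) ^ (-(S.u (S.cls k j) + S.c / 2) * k) * 2 ^ ec S.d k with hM
    have h2 := pr_lower (PP S k0) (PP_mem S k0) (S.Cand k j) (fun x => 1 / S.pr x.2)
      (fun x => x.2.primeFactors) (fun x _ => one_div_nonneg.mpr (pr_nonneg' S x.2)) 5 (by norm_num)
      (fun x hx => cand_card S hkK hk2 hj hx) (S.Cand k j).card M hcard (by positivity)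
      (by
        have h3 : ∀ x ∈ S.Cand k j, 1 / S.pr x.2 * ∏ p ∈ x.2.primeFactors, PP S k0 p = 1 := by
          intro x hx
          rw [cand_prod S hkK hk hj hx]
          exact one_div_mul_cancel (pr_pos' S (cand_facts S hkK hj hx).2.2.2.1).ne'
        rw [Finset.sum_congr rfl h3]
        simp)
      (by
        intro A hA
        refine le_trans (Finset.sum_le_sum fun x hx => ?_) (hK1 k hkK1 j hj A hA).1
        rw [div_mul_eq_mul_div, one_mul]
        exact div_le_div_of_nonneg_right (prod_PP_le S k0 A _) (pr_nonneg' S _))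
    have h3 : {R : Set ℕ | S.NN R k j < ((S.Cand k j).card : ℝ) / 2} ⊆
        {R | YY (S.Cand k j) (fun x => 1 / S.pr x.2) (fun x => x.2.primeFactors) R ≤
          ((S.Cand k j).card : ℝ) / 2} := by
      intro R hR
      have hR' : S.NN R k j < ((S.Cand k j).card : ℝ) / 2 := hR
      rw [NN_eq S hkK hj] at hR'
      exact hR'.le
    refine (pr_mono _ h3).trans (h2.trans ?_)
    push_cast
    calc 4 * (5 : ℝ) ^ 5 * M / ((S.Cand k j).card : ℝ)
        ≤ 4 * (5 : ℝ) ^ 5 * M / (S.c1 * 2 ^ ec S.d k / (k : ℝ) ^ 2) := by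
          apply div_le_div_of_nonneg_left _ hE hmany
          positivity
      _ = 4 * (5 : ℝ) ^ 5 / S.c1 * (k : ℝ) ^ 2 *
          (2 : ℝ) ^ (-(S.u (S.cls k j) + S.c / 2) * k) := by
          rw [hM]; field_simp
      _ = _ := by
          rw [mul_assoc (4 * (5 : ℝ) ^ 5 / S.c1 * (k : ℝ) ^ 2), ← Real.rpow_add (by norm_num)]
          congr 2
          ring
  have hall : {R : Set ℕ | ∃ j ∈ S.badc k, S.NN R k j < ((S.Cand k j).card : ℝ) / 2} ⊆
      ⋃ j ∈ S.badc k, {R | S.NN R k j < ((S.Cand k j).card : ℝ) / 2} := by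
    intro R hR
    obtain ⟨j, hj, hR⟩ := hR
    exact Set.mem_iUnion₂.mpr ⟨j, hj, hR⟩
  refine ((pr_mono _ hall).trans ((pr_biUnion_le _ _ _).trans (Finset.sum_le_sum hone))).trans ?_
  rw [← Finset.mul_sum]
  calc 4 * (5 : ℝ) ^ 5 / S.c1 * (k : ℝ) ^ 2 * (2 : ℝ) ^ (-(S.c / 2 * k)) *
        ∑ j ∈ S.badc k, (2 : ℝ) ^ (-(S.u (S.cls k j) * k))
      ≤ 4 * (5 : ℝ) ^ 5 / S.c1 * (k : ℝ) ^ 2 * (2 : ℝ) ^ (-(S.c / 2 * k)) * 3 :=
        mul_le_mul_of_nonneg_left (badc_sum S hkK) (by (clear * - hc1 hk2; positivity))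
    _ = 3 * (4 * (5 : ℝ) ^ 5 / S.c1) * (k : ℝ) ^ 2 * (2 : ℝ) ^ (-(S.c / 2 * k)) := by ring
    _ ≤ _ := hK2 k hkK2

/-! ### Windows -/

/-- the concentration in one window -/
theorem win_tail {k0 k j : ℕ} (hk : S.K ≤ k) (hk2 : 2 ≤ k) (hk0 : k0 ≤ k) (hj : j ∈ S.badc k)
    (r : ℕ × ℕ → Prop) [DecidablePred r] (B M : ℝ) (hB : 0 < B) (hM0 : 0 ≤ M)
    (hcard : (((S.Cand k j).filter r).card : ℝ) ≤ B)
    (hM : ∀ A : Finset ℕ, A.Nonempty →
      ∑ y ∈ (S.Cand k j).filter (fun y => A ⊆ y.2.primeFactors ∧ r y),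
        S.pc A y.2.primeFactors / S.pr y.2 ≤ M) (hMB : (50 * (k : ℝ)) ^ 5 * M ≤ B / 100) :
    pr (PP S k0) {R | 2 * B < ∑ y ∈ (S.act R k j).filter r, 1 / S.pr y.2} ≤
      (2 : ℝ) ^ (-(9 * k : ℝ)) := by
  set T := (S.Cand k j).filter r with hT
  have h0 : ∑ x ∈ T, (1 / S.pr x.2) * ∏ p ∈ x.2.primeFactors, PP S k0 p ≤ B := by
    have h3 : ∀ x ∈ T, 1 / S.pr x.2 * ∏ p ∈ x.2.primeFactors, PP S k0 p = 1 := by
      intro x hx
      have hx' := (Finset.mem_filter.mp hx).1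
      rw [cand_prod S hk hk0 hj hx']
      exact one_div_mul_cancel (pr_pos' S (cand_facts S hk hj hx').2.2.2.1).ne'
    rw [Finset.sum_congr rfl h3]
    simpa using hcard
  have h5 := upper_tail (bern (coin (PP S k0))) rs bern_meas (PP S k0)
    (fun i => (PP_mem S k0 i).1)
    (fun A => by rw [bern_exact]; simp only [coin_coe (PP_mem S k0)]; exact le_rfl) T
    (fun x => 1 / S.pr x.2) (fun x => x.2.primeFactors)
    (fun x _ => one_div_nonneg.mpr (pr_nonneg' S x.2)) 5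
    (fun x hx => cand_card S hk hk2 hj (Finset.mem_filter.mp hx).1) B M hM0 h0
    (fun A hA => by
      refine le_trans (le_trans (Finset.sum_le_sum (g := fun y =>
        S.pc A y.2.primeFactors / S.pr y.2) fun x _ => ?_) (le_of_eq ?_)) (hM A hA)
      · rw [div_mul_eq_mul_div, one_mul]
        exact div_le_div_of_nonneg_right (prod_PP_le S k0 A _) (pr_nonneg' S _)
      · rw [hT, Finset.filter_filter]
        refine Finset.sum_congr ?_ fun _ _ => rfl
        exact Finset.filter_congr fun y _ => and_comm) (10 * k) (2 * B) (by (clear * - hB; linarith))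
  have h6 : pr (PP S k0) {R | 2 * B < ∑ y ∈ (S.act R k j).filter r, 1 / S.pr y.2} ≤
      (bern (coin (PP S k0))).real {ω | 2 * B ≤ YY T (fun x => 1 / S.pr x.2)
        (fun x => x.2.primeFactors) (rs ω)} := by
    unfold pr
    refine measureReal_mono ?_ (measure_ne_top _ _)
    intro ω hω
    have hω' : 2 * B < ∑ y ∈ (S.act (rs ω) k j).filter r, 1 / S.pr y.2 := hω
    have h7 : ∑ y ∈ (S.act (rs ω) k j).filter r, 1 / S.pr y.2 = YY T (fun x => 1 / S.pr x.2)
        (fun x => x.2.primeFactors) (rs ω) := by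
      unfold YY Sys.act
      rw [hT, Finset.filter_comm, Finset.sum_filter]
      refine Finset.sum_congr rfl fun x hx => ?_
      have hx' := (Finset.mem_filter.mp hx).1
      rw [ind_inR (cand_facts S hk hj hx').2.2.2.1]
      split_ifs
      · rw [mul_one]
      · rw [mul_zero]
    rw [h7] at hω'
    exact hω'.le
  refine h6.trans (h5.trans ?_)
  rw [div_le_iff₀ (by positivity)]
  have h8 : ∏ i ∈ Finset.range (10 * k), (B + ((5 * i : ℕ) : ℝ) ^ 5 * M) ≤
      (B * (101 / 100)) ^ (10 * k) := by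
    calc ∏ i ∈ Finset.range (10 * k), (B + ((5 * i : ℕ) : ℝ) ^ 5 * M)
        ≤ ∏ _i ∈ Finset.range (10 * k), (B * (101 / 100)) := by
          refine Finset.prod_le_prod (fun i _ => by (clear * - hB hM0; positivity)) fun i hi => ?_
          have h9 : ((5 * i : ℕ) : ℝ) ≤ 50 * (k : ℝ) := by
            have h10 : 5 * i ≤ 50 * k := by
              have := Finset.mem_range.mp hi
              omega
            exact_mod_cast h10
          have h10 : ((5 * i : ℕ) : ℝ) ^ 5 * M ≤ (50 * (k : ℝ)) ^ 5 * M :=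
            mul_le_mul_of_nonneg_right (pow_le_pow_left₀ (Nat.cast_nonneg _) h9 5) hM0
          (clear * - hMB h10; linarith)
      _ = _ := by rw [Finset.prod_const, Finset.card_range]
  refine h8.trans ?_
  have h9 : (2 : ℝ) ^ (-(9 * k : ℝ)) = ((1 / 2 : ℝ) ^ 9) ^ k := by
    rw [Real.rpow_neg (by norm_num), ← pow_mul, one_div, inv_pow]
    congr 1
    rw [← Real.rpow_natCast]
    congr 1
    push_cast
    ring
  rw [h9, pow_mul, pow_mul, ← mul_pow]
  apply pow_le_pow_left₀ (by positivity)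
  have h10 : (B * (101 / 100)) ^ 10 = B ^ 10 * (101 / 100) ^ 10 := by ring
  have h11 : (1 / 2 : ℝ) ^ 9 * (2 * B) ^ 10 = B ^ 10 * 2 := by ring
  rw [h10, h11]
  apply mul_le_mul_of_nonneg_left _ (by positivity)
  norm_num

/-- E6, both kinds of windows; `κ` is the factor `1` or `k` of the mean -/
theorem ev_win (hC : Cand1) (α : ℝ) (hα : 0.38 ≤ α) (κ : ℕ → ℝ) (hκ : ∀ k, 1 ≤ k → 1 ≤ κ k)
    (hwin : ∀ k, S.K ≤ k → ∀ j < nc S.d k, S.bad k j → ∀ x h : ℕ, (2 : ℝ) ^ (α * (k : ℝ)) ≤ h →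
      (((S.Cand k j).filter (fun y => x ≤ y.1 * y.2 ∧ y.1 * y.2 < x + h)).card : ℝ) ≤
        S.C1 * κ k * (h / 2 ^ ec S.d k) * (S.Cand k j).card) :
    ∃ K0 : ℕ, ∀ k0 : ℕ, K0 ≤ k0 → ∀ k : ℕ, k0 ≤ k →
    pr (PP S k0) {R | ∃ j ∈ S.badc k, ∃ x h : ℕ, (2 : ℝ) ^ (α * (k : ℝ)) ≤ h ∧
      h ≤ 2 ^ ec S.d k ∧ 2 * (S.C1 * κ k * (h / 2 ^ ec S.d k) * (S.Cand k j).card) <
        ∑ y ∈ (S.act R k j).filter (fun y => x ≤ y.1 * y.2 ∧ y.1 * y.2 < x + h), 1 / S.pr y.2} ≤
      (2 : ℝ) ^ (-(4 * k : ℝ)) := by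
  obtain ⟨K1, hK1⟩ := hC S
  obtain ⟨K2, hK2⟩ := poly_exp (100 * 50 ^ 5 / S.c1) 7 0 0.01 (by norm_num)
  refine ⟨max (max K1 K2) (max S.K 2), fun k0 hk0 k hk => ?_⟩
  have hkK1 : K1 ≤ k := ((le_max_left _ _).trans ((le_max_left _ _).trans hk0)).trans hk
  have hkK2 : K2 ≤ k := ((le_max_right _ _).trans ((le_max_left _ _).trans hk0)).trans hk
  have hkK : S.K ≤ k := ((le_max_left _ _).trans ((le_max_right _ _).trans hk0)).trans hk
  have hk2 : 2 ≤ k := ((le_max_right _ _).trans ((le_max_right _ _).trans hk0)).trans hk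
  have hk2' : (2 : ℝ) ≤ k := by exact_mod_cast hk2
  have hk' : (0 : ℝ) < k := by (clear * - hk2'; linarith)
  have hc1 := S.c1_pos
  have hC1 := S.C1_ge
  have hκk := hκ k (by omega)
  -- the events
  set ev : ℕ × ℕ × ℕ → Set (Set ℕ) := fun z =>
    {R | 2 * (S.C1 * κ k * ((z.2.2 : ℝ) / 2 ^ ec S.d k) * (S.Cand k z.1).card) <
      ∑ y ∈ (S.act R k z.1).filter (fun y => z.2.1 ≤ y.1 * y.2 ∧ y.1 * y.2 < z.2.1 + z.2.2),
        1 / S.pr y.2} with hev
  set I : Finset (ℕ × ℕ × ℕ) := ((S.badc k) ×ˢ ((Finset.range (2 ^ (k + 1))) ×ˢ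
    (Finset.range (2 ^ ec S.d k + 1)))).filter (fun z => (2 : ℝ) ^ (α * (k : ℝ)) ≤ z.2.2) with hI
  have hone : ∀ z ∈ I, pr (PP S k0) (ev z) ≤ (2 : ℝ) ^ (-(9 * k : ℝ)) := by
    rintro ⟨j, x, h⟩ hz
    rw [hI, Finset.mem_filter, Finset.mem_product, Finset.mem_product] at hz
    obtain ⟨⟨hj, hx, hh⟩, hαh⟩ := hz
    simp only at hj hx hh hαh
    have hmany := S.many k hkK j (badc_mem S hj).1 (badc_mem S hj).2
    have hE : (0 : ℝ) < S.c1 * 2 ^ ec S.d k / (k : ℝ) ^ 2 := by (clear * - hc1 hk2; positivity)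
    have hcard : (0 : ℝ) < (S.Cand k j).card := lt_of_lt_of_le hE hmany
    have hh0 : (0 : ℝ) < h := lt_of_lt_of_le (by positivity) hαh
    have hB : 0 < S.C1 * κ k * ((h : ℝ) / 2 ^ ec S.d k) * (S.Cand k j).card := by (clear * - hC1 hκk hh0 hcard; positivity)
    refine win_tail S hkK hk2 hk hj (fun y => x ≤ y.1 * y.2 ∧ y.1 * y.2 < x + h) _
      ((2 : ℝ) ^ (-(0.01 : ℝ) * k) * h) hB (by positivity)
      (hwin k hkK j (badc_mem S hj).1 (badc_mem S hj).2 x h hαh) ?_ ?_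
    · intro A hA
      refine (hK1 k hkK1 j hj A hA).2 x h (le_trans ?_ hαh)
      apply Real.rpow_le_rpow_of_exponent_le (by norm_num)
      (clear * - hα; nlinarith)
    · have h1 := hK2 k hkK2
      rw [zero_mul, neg_zero, Real.rpow_zero] at h1
      have h2 : S.c1 * h / (k : ℝ) ^ 2 ≤
          S.C1 * κ k * ((h : ℝ) / 2 ^ ec S.d k) * (S.Cand k j).card := by
        calc S.c1 * h / (k : ℝ) ^ 2 = 1 * 1 * ((h : ℝ) / 2 ^ ec S.d k) *
              (S.c1 * 2 ^ ec S.d k / (k : ℝ) ^ 2) := by field_simp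
          _ ≤ S.C1 * κ k * ((h : ℝ) / 2 ^ ec S.d k) * (S.Cand k j).card := by
              apply mul_le_mul _ hmany hE.le (by positivity)
              apply mul_le_mul_of_nonneg_right _ (by positivity)
              exact mul_le_mul hC1 hκk (by norm_num) (by (clear * - hC1; linarith))
      have h3 : (50 * (k : ℝ)) ^ 5 * ((2 : ℝ) ^ (-(0.01 : ℝ) * k) * h) =
          (100 * 50 ^ 5 / S.c1 * (k : ℝ) ^ 7 * (2 : ℝ) ^ (-(0.01 * (k : ℝ)))) *
            (S.c1 * h / (k : ℝ) ^ 2) / 100 := by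
        rw [neg_mul]
        (clear * - hc1 hh0 hk2; field_simp)
      rw [h3]
      apply div_le_div_of_nonneg_right _ (by norm_num)
      calc (100 * 50 ^ 5 / S.c1 * (k : ℝ) ^ 7 * (2 : ℝ) ^ (-(0.01 * (k : ℝ)))) *
            (S.c1 * h / (k : ℝ) ^ 2) ≤ 1 * (S.c1 * h / (k : ℝ) ^ 2) :=
            mul_le_mul_of_nonneg_right h1 (by positivity)
        _ = S.c1 * h / (k : ℝ) ^ 2 := one_mul _
        _ ≤ _ := h2
  have hall : {R : Set ℕ | ∃ j ∈ S.badc k, ∃ x h : ℕ, (2 : ℝ) ^ (α * (k : ℝ)) ≤ h ∧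
      h ≤ 2 ^ ec S.d k ∧ 2 * (S.C1 * κ k * (h / 2 ^ ec S.d k) * (S.Cand k j).card) <
        ∑ y ∈ (S.act R k j).filter (fun y => x ≤ y.1 * y.2 ∧ y.1 * y.2 < x + h), 1 / S.pr y.2} ⊆
      ⋃ z ∈ I, ev z := by
    intro R hR
    obtain ⟨j, hj, x, h, hα2, hh, hR⟩ := hR
    have hB0 : 0 ≤ 2 * (S.C1 * κ k * ((h : ℝ) / 2 ^ ec S.d k) * (S.Cand k j).card) := by
      have : 0 ≤ κ k := by (clear * - hκk; linarith)
      (clear * - hC1 hκk; positivity)
    have hx : x < 2 ^ (k + 1) := by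
      by_contra hcon
      push Not at hcon
      have h1 : (S.act R k j).filter (fun y => x ≤ y.1 * y.2 ∧ y.1 * y.2 < x + h) = ∅ := by
        rw [Finset.filter_eq_empty_iff]
        intro y hy hcon2
        unfold Sys.act at hy
        have h2 := (cand_facts S hkK hj (Finset.mem_filter.mp hy).1).2.2.2.2.1
        omega
      rw [h1, Finset.sum_empty] at hR
      (clear * - hR hB0; linarith)
    refine Set.mem_iUnion₂.mpr ⟨(j, x, h), ?_, hR⟩
    rw [hI, Finset.mem_filter, Finset.mem_product, Finset.mem_product, Finset.mem_range,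
      Finset.mem_range]
    exact ⟨⟨hj, hx, Nat.lt_succ_of_le hh⟩, hα2⟩
  refine ((pr_mono _ hall).trans (pr_biUnion_le_card _ _ _ _ hone)).trans ?_
  have hcardI : (I.card : ℝ) ≤ (2 : ℝ) ^ (5 * k : ℝ) := by
    have h1 : I.card ≤ 2 ^ k * (2 ^ (k + 1) * 2 ^ (k + 1)) := by
      refine (Finset.card_filter_le _ _).trans ?_
      rw [Finset.card_product, Finset.card_product, Finset.card_range, Finset.card_range]
      have h2 : (S.badc k).card ≤ 2 ^ k := by
        unfold Sys.badc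
        refine (Finset.card_filter_le _ _).trans ?_
        rw [Finset.card_range]
        exact nc_le S k
      have h3 : 2 ^ ec S.d k + 1 ≤ 2 ^ (k + 1) := by
        have h4 : 2 ^ ec S.d k ≤ 2 ^ k := Nat.pow_le_pow_right (by norm_num) (ec_le S k)
        have h5 : 1 ≤ 2 ^ k := Nat.one_le_two_pow
        rw [pow_succ]; omega
      exact Nat.mul_le_mul h2 (Nat.mul_le_mul_left _ h3)
    have h2 : 2 ^ k * (2 ^ (k + 1) * 2 ^ (k + 1)) = 2 ^ (3 * k + 2) := by
      rw [← pow_add, ← pow_add]; congr 1; ring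
    rw [h2] at h1
    have h3 : (I.card : ℝ) ≤ (2 : ℝ) ^ (3 * k + 2) := by exact_mod_cast h1
    refine h3.trans ?_
    rw [← Real.rpow_natCast]
    apply Real.rpow_le_rpow_of_exponent_le (by norm_num)
    push_cast
    (clear * - hk2'; linarith)
  calc (I.card : ℝ) * (2 : ℝ) ^ (-(9 * k : ℝ)) ≤ (2 : ℝ) ^ (5 * k : ℝ) * (2 : ℝ) ^ (-(9 * k : ℝ)) :=
        mul_le_mul_of_nonneg_right hcardI (by positivity)
    _ = (2 : ℝ) ^ (-(4 * k : ℝ)) := by
        rw [← Real.rpow_add (by norm_num)]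
        congr 1
        ring

/-! ### The statements of StP -/

theorem PP_eq_PP (k0 : ℕ) : S.PP k0 = PP S k0 := rfl

theorem evLow (hC : Cand1) : EvLow := by
  intro S
  obtain ⟨K0, hK0⟩ := ev_lower S hC
  exact ⟨S.c / 4, by (clear * -; linarith [c_pos S]), K0, fun k0 hk0 k hk => hK0 k0 hk0 k hk⟩

theorem evWin1 (hC : Cand1) : EvWin1 := by
  intro S
  obtain ⟨K0, hK0⟩ := ev_win S hC 0.498 (by norm_num) (fun _ => 1) (fun _ _ => le_rfl)
    (fun k hk j hj hb x h hh => by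
      have := S.win1 k hk j hj hb x h hh
      rw [mul_one]
      convert this)
  refine ⟨4, by norm_num, K0, fun k0 hk0 k hk => ?_⟩
  have h1 := hK0 k0 hk0 k hk
  simp only [mul_one] at h1
  rw [PP_eq_PP]
  convert h1

theorem evWin2 (hC : Cand1) : EvWin2 := by
  intro S
  obtain ⟨K0, hK0⟩ := ev_win S hC 0.38 (by norm_num) (fun k => (k : ℝ))
    (fun k hk => by exact_mod_cast hk)
    (fun k hk j hj hb x h hh => by
      have := S.win2 k hk j hj hb x h hh
      convert this)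
  refine ⟨4, by norm_num, K0, fun k0 hk0 k hk => ?_⟩
  have h1 := hK0 k0 hk0 k hk
  rw [PP_eq_PP]
  convert h1

end Pool.Agent.M20.Helper62.KS
end

/- Helper53.KN.Helper62.KS.ExistsGood -/
section
/-!
# ExistsGood: a good set `R` exists (project KS, MP_768c9c_nt)
-/

set_option autoImplicit false

open MeasureTheory
open scoped Classical
open Pool.Agent.M20.Helper33.KS Pool.Agent.M20.Helper16.KS

namespace Pool.Agent.M20.Helper62.KS

theorem ev_cond {ι : Type*} (P : ι → ℝ) (p : Prop) (A : Set (Set ι)) (b : ℝ) (hb : 0 ≤ b)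
    (h : p → pr P A ≤ b) : pr P {R | p ∧ R ∈ A} ≤ b := by
  by_cases hp : p
  · refine (pr_mono P ?_).trans (h hp)
    intro R hR
    exact hR.2
  · have : {R : Set ι | p ∧ R ∈ A} = ∅ := by
      ext R; simp [hp]
    rw [this]
    unfold pr
    simpa using hb

/-- union of ten events -/
def U10 {ι : Type*} (A : Fin 10 → Set (Set ι)) : Set (Set ι) := ⋃ i ∈ (Finset.univ : Finset (Fin 10)), A i

theorem pr_U10 {ι : Type*} (P : ι → ℝ) (A : Fin 10 → Set (Set ι)) (b : ℝ)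
    (h : ∀ i, pr P (A i) ≤ b) : pr P (U10 A) ≤ 10 * b := by
  have h1 := pr_biUnion_le_card P (Finset.univ : Finset (Fin 10)) A b (fun i _ => h i)
  simpa [U10] using h1

variable (S : Sys)

/-- the failures at the level `l` -/
noncomputable def ev (k0 l : ℕ) : Fin 10 → Set (Set ℕ) :=
  ![{R | k0 ≤ l ∧ R ∈ {R : Set ℕ | ∃ j ∈ S.badc l, S.NN R l j < ((S.Cand l j).card : ℝ) / 2}},
    {R | k0 ≤ l ∧ R ∈ {R : Set ℕ | ∃ j ∈ S.badc l, ∃ x h : ℕ, (2 : ℝ) ^ (0.498 * (l : ℝ)) ≤ h ∧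
      h ≤ 2 ^ ec S.d l ∧
      2 * (S.C1 * (h / 2 ^ ec S.d l) * (S.Cand l j).card) <
        ∑ y ∈ (S.act R l j).filter (fun y => x ≤ y.1 * y.2 ∧ y.1 * y.2 < x + h), 1 / S.pr y.2}},
    {R | k0 ≤ l ∧ R ∈ {R : Set ℕ | ∃ j ∈ S.badc l, ∃ x h : ℕ, (2 : ℝ) ^ (0.38 * (l : ℝ)) ≤ h ∧
      h ≤ 2 ^ ec S.d l ∧
      2 * (S.C1 * l * (h / 2 ^ ec S.d l) * (S.Cand l j).card) <
        ∑ y ∈ (S.act R l j).filter (fun y => x ≤ y.1 * y.2 ∧ y.1 * y.2 < x + h), 1 / S.pr y.2}},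
    {R | (k0 : ℝ) / 4 ≤ l ∧ R ∈ {R : Set ℕ | ∃ q : ℕ, Nat.log 2 q = l ∧
      (q : ℝ) ^ S.tau < (S.own k0 R q : ℝ)}},
    {R | k0 ≤ l ∧ R ∈ {R : Set ℕ | ∃ T : Finset ℕ, (∀ r ∈ T, r ∈ R ∧ (2 : ℝ) ^ ((l : ℝ) / 5) ≤ r ∧
      (r : ℝ) < (2 : ℝ) ^ (((l : ℝ) + 1) / 5)) ∧
      (2 : ℝ) ^ (-(S.tau / 8) * (l : ℝ)) <
        ∑ r ∈ T, S.base r * (r : ℝ) ^ (-S.s) * (1 + Real.log r) ^ 2}},
    {R | k0 ≤ l ∧ R ∈ {R : Set ℕ | (2 : ℝ) ^ (-(S.c / 4) * (l : ℝ)) <
      ∑ j ∈ S.badc l, ∑ x ∈ S.act R l j, S.wd l x.2 * (x.1 : ℝ) ^ (-S.s)}},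
    {R | (k0 : ℝ) / 2 ≤ l ∧ R ∈ {R : Set ℕ | ∃ x h : ℕ, 2 ^ l ≤ x ∧ x < 2 ^ (l + 1) ∧
      (2 : ℝ) ^ ((1/2 - 3 * S.d) * l) ≤ h ∧ h ≤ x ∧
      h * (2 : ℝ) ^ ((S.s - 1 + 7 * S.tau) * l) < ∑ n ∈ Finset.Ico x (x + h), CM (S.Fh k0 R) n}},
    {R | (k0 : ℝ) / 2 ≤ l ∧ R ∈ {R : Set ℕ | ∃ x h : ℕ, 2 ^ l ≤ x ∧ x < 2 ^ (l + 1) ∧
      (2 : ℝ) ^ ((1/2 - 3 * S.d) * l) ≤ h ∧ h ≤ x ∧
      h * (2 : ℝ) ^ ((S.s - 1 - S.tau / 20) * l) <
        ∑ n ∈ (Finset.Ico x (x + h)).filter (Sys.rough k0),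
          ∑ e ∈ n.divisors.filter (fun e : ℕ => (2 : ℝ) ^ ((l : ℝ) / 8) ≤ (e : ℝ) ∧ inR R e),
            S.base e * ((n / e : ℕ) : ℝ) ^ (S.s - 1)}},
    {R | k0 ≤ l ∧ R ∈ {R : Set ℕ | ∃ j < nc S.d l,
      (2 : ℝ) ^ (-(S.ep / 100) * l) * S.G l < S.HP k0 R l j Sys.Q1}},
    {R | k0 ≤ l ∧ R ∈ {R : Set ℕ | ∃ j < nc S.d l,
      (2 : ℝ) ^ (-(S.ep / 100) * l) * S.G l < S.HP k0 R l j S.Q2}}]

theorem not_ev {k0 l : ℕ} {R : Set ℕ} (h : R ∉ U10 (ev S k0 l)) (i : Fin 10) :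
    R ∉ ev S k0 l i := by
  intro hi
  exact h (Set.mem_iUnion₂.mpr ⟨i, Finset.mem_univ i, hi⟩)

/-- the levels of the elements of `R` -/
theorem massR_sum (τ : ℝ) (hτ : 0 < τ) : ∃ K0 : ℕ, ∀ k0 : ℕ, K0 ≤ k0 → ∀ (g : ℕ → ℝ) (T : Finset ℕ),
    (∀ r ∈ T, 0 ≤ g r) → (∀ r ∈ T, (2 : ℝ) ^ ((k0 : ℝ) / 5) ≤ r) →
    (∀ l : ℕ, k0 ≤ l → ∀ T' : Finset ℕ, T' ⊆ T → (∀ r ∈ T', (2 : ℝ) ^ ((l : ℝ) / 5) ≤ r ∧
      (r : ℝ) < (2 : ℝ) ^ (((l : ℝ) + 1) / 5)) → ∑ r ∈ T', g r ≤ (2 : ℝ) ^ (-(τ / 8) * (l : ℝ))) →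
    ∑ r ∈ T, g r ≤ (2 : ℝ) ^ (-(τ / 10) * (k0 : ℝ)) := by
  set q : ℝ := (2 : ℝ) ^ (-(τ / 8)) with hq
  have hq0 : 0 < q := Real.rpow_pos_of_pos (by norm_num) _
  have hq1 : q < 1 := Real.rpow_lt_one_of_one_lt_of_neg (by norm_num) (by linarith)
  obtain ⟨K, hK⟩ := poly_exp (1 - q)⁻¹ 0 (τ / 10) (τ / 8) (by (clear * - hτ; linarith))
  refine ⟨K, fun k0 hk0 g T hg hT hlev => ?_⟩
  -- the level of `r`
  set lv : ℕ → ℕ := fun r => ⌊5 * Real.logb 2 r⌋₊ with hlv
  have hlvT : ∀ r ∈ T, k0 ≤ lv r ∧ (2 : ℝ) ^ ((lv r : ℝ) / 5) ≤ r ∧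
      (r : ℝ) < (2 : ℝ) ^ (((lv r : ℝ) + 1) / 5) := by
    intro r hr
    have h1 := hT r hr
    have hr0 : (0 : ℝ) < r := lt_of_lt_of_le (by positivity) h1
    have h2 : (k0 : ℝ) / 5 ≤ Real.logb 2 r := by
      rw [Real.le_logb_iff_rpow_le (by norm_num) hr0]; exact h1
    have h3 : 0 ≤ 5 * Real.logb 2 r := by
      have : (0 : ℝ) ≤ (k0 : ℝ) / 5 := by positivity
      (clear * - h2 this; linarith)
    refine ⟨Nat.le_floor (by (clear * - h2; linarith)), ?_, ?_⟩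
    · rw [← Real.le_logb_iff_rpow_le (by norm_num) hr0]
      have := Nat.floor_le h3
      show ((⌊5 * Real.logb 2 r⌋₊ : ℕ) : ℝ) / 5 ≤ _
      (clear * - this; linarith)
    · rw [← Real.logb_lt_iff_lt_rpow (by norm_num) hr0]
      have := Nat.lt_floor_add_one (5 * Real.logb 2 r)
      show _ < (((⌊5 * Real.logb 2 r⌋₊ : ℕ) : ℝ) + 1) / 5
      (clear * - this; linarith)
  have h1 : ∑ r ∈ T, g r = ∑ l ∈ T.image lv, ∑ r ∈ T.filter (fun r => lv r = l), g r :=
    (Finset.sum_fiberwise_of_maps_to (fun r hr => Finset.mem_image_of_mem lv hr) g).symm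
  rw [h1]
  have h2 : ∀ l ∈ T.image lv, ∑ r ∈ T.filter (fun r => lv r = l), g r ≤ q ^ l := by
    intro l hl
    rw [Finset.mem_image] at hl
    obtain ⟨r0, hr0, rfl⟩ := hl
    have h3 := hlev (lv r0) (hlvT r0 hr0).1 (T.filter (fun r => lv r = lv r0))
      (Finset.filter_subset _ _) (fun r hr => by
        rw [Finset.mem_filter] at hr
        rw [← hr.2]
        exact (hlvT r hr.1).2)
    refine h3.trans (le_of_eq ?_)
    rw [hq, ← Real.rpow_natCast, ← Real.rpow_mul (by norm_num)]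
  refine (Finset.sum_le_sum h2).trans ?_
  have h3 : T.image lv ⊆ (Finset.range (T.sup lv + 1)).filter (fun l => k0 ≤ l) := by
    intro l hl
    rw [Finset.mem_image] at hl
    obtain ⟨r0, hr0, rfl⟩ := hl
    rw [Finset.mem_filter, Finset.mem_range]
    exact ⟨Nat.lt_succ_of_le (Finset.le_sup (f := lv) hr0), (hlvT r0 hr0).1⟩
  refine (Finset.sum_le_sum_of_subset_of_nonneg h3 fun l _ _ => pow_nonneg hq0.le l).trans ?_
  have h4 : ∑ l ∈ (Finset.range (T.sup lv + 1)).filter (fun l => k0 ≤ l), q ^ l ≤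
      q ^ k0 * (1 - q)⁻¹ := by
    have h5 : ∑ l ∈ (Finset.range (T.sup lv + 1)).filter (fun l => k0 ≤ l), q ^ l ≤
        ∑ i ∈ Finset.range (T.sup lv + 1), q ^ k0 * q ^ i := by
      have h6 : (Finset.range (T.sup lv + 1)).filter (fun l => k0 ≤ l) ⊆
          (Finset.range (T.sup lv + 1)).image (fun i => k0 + i) := by
        intro l hl
        rw [Finset.mem_filter, Finset.mem_range] at hl
        rw [Finset.mem_image]
        exact ⟨l - k0, Finset.mem_range.mpr (by omega), by omega⟩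
      refine (Finset.sum_le_sum_of_subset_of_nonneg h6 fun l _ _ => pow_nonneg hq0.le l).trans ?_
      rw [Finset.sum_image (fun a _ b _ hab => by simpa using hab)]
      refine Finset.sum_le_sum fun i _ => ?_
      rw [pow_add]
    refine h5.trans ?_
    rw [← Finset.mul_sum]
    apply mul_le_mul_of_nonneg_left _ (pow_nonneg hq0.le _)
    rw [← tsum_geometric_of_lt_one hq0.le hq1]
    exact (summable_geometric_of_lt_one hq0.le hq1).sum_le_tsum _
      (fun i _ => pow_nonneg hq0.le i)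
  refine h4.trans ?_
  have h5 := hK k0 hk0
  rw [pow_zero, mul_one] at h5
  have h6 : q ^ k0 = (2 : ℝ) ^ (-(τ / 8 * (k0 : ℝ))) := by
    rw [hq, ← Real.rpow_natCast, ← Real.rpow_mul (by norm_num)]
    congr 1
    ring
  rw [h6, mul_comm, neg_mul]
  exact h5

theorem existsGood (h0 : EvLow) (h1 : EvWin1) (h2 : EvWin2) (h3 : EvMult) (h4 : EvMassR)
    (h5 : EvMassC) (h6 : EvCrude) (h7 : EvRPart) (h8 : EvHeavy1) (h9 : EvHeavy2) :
    ExistsGood := by
  intro S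
  obtain ⟨e0, p0, K0, H0⟩ := h0 S
  obtain ⟨e1, p1, K1, H1⟩ := h1 S
  obtain ⟨e2, p2, K2, H2⟩ := h2 S
  obtain ⟨e3, p3, K3, H3⟩ := h3 S
  obtain ⟨e4, p4, K4, H4⟩ := h4 S
  obtain ⟨e5, p5, K5, H5⟩ := h5 S
  obtain ⟨e6, p6, K6, H6⟩ := h6 S
  obtain ⟨e7, p7, K7, H7⟩ := h7 S
  obtain ⟨e8, p8, K8, H8⟩ := h8 S
  obtain ⟨e9, p9, K9, H9⟩ := h9 S
  -- the common rate
  set e : ℝ := min (min (min e0 e1) (min e2 e3)) (min (min (min e4 e5) (min e6 e7)) (min e8 e9))
    with he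
  have hepos : 0 < e := by
    rw [he]
    simp only [lt_min_iff]
    exact ⟨⟨⟨p0, p1⟩, ⟨p2, p3⟩⟩, ⟨⟨⟨p4, p5⟩, ⟨p6, p7⟩⟩, ⟨p8, p9⟩⟩⟩
  have hle : e ≤ e0 ∧ e ≤ e1 ∧ e ≤ e2 ∧ e ≤ e3 ∧ e ≤ e4 ∧ e ≤ e5 ∧ e ≤ e6 ∧ e ≤ e7 ∧ e ≤ e8 ∧
      e ≤ e9 := by
    have h : e ≤ e := le_rfl
    nth_rw 2 [he] at h
    simp only [le_min_iff] at h
    obtain ⟨⟨⟨a0, a1⟩, ⟨a2, a3⟩⟩, ⟨⟨⟨a4, a5⟩, ⟨a6, a7⟩⟩, ⟨a8, a9⟩⟩⟩ := h
    exact ⟨a0, a1, a2, a3, a4, a5, a6, a7, a8, a9⟩
  obtain ⟨L, hL⟩ := exists_levels_geom (ι := ℕ) (e / 2) (by linarith)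
  obtain ⟨L', hL'⟩ := poly_exp 10 0 (e / 2) e (by (clear * - hepos; linarith))
  obtain ⟨L'', hL''⟩ := massR_sum S.tau (tau_pos S)
  set KK : ℕ := K0 + K1 + K2 + K3 + K4 + K5 + K6 + K7 + K8 + K9 with hKK
  refine ⟨KK + 4 * L + 4 * L' + L'' + S.K + 16, fun k0 hk0 => ?_⟩
  -- the thresholds
  have hmono : ∀ (a b : ℝ) (l : ℕ), b ≤ a → (2 : ℝ) ^ (-(a * l)) ≤ (2 : ℝ) ^ (-(b * l)) := by
    intro a b l hab
    apply Real.rpow_le_rpow_of_exponent_le (by norm_num)
    have : (0 : ℝ) ≤ l := Nat.cast_nonneg _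
    (clear * - hab; nlinarith)
  have hfail : ∀ l, k0 / 4 ≤ l → pr (S.PP k0) (U10 (ev S k0 l)) ≤ (2 : ℝ) ^ (-(e / 2 * l)) := by
    intro l hl
    have hb : (0 : ℝ) ≤ (2 : ℝ) ^ (-(e * l)) := by positivity
    have h10 : pr (S.PP k0) (U10 (ev S k0 l)) ≤ 10 * (2 : ℝ) ^ (-(e * l)) := by
      refine pr_U10 _ _ _ fun i => ?_
      fin_cases i
      · exact ev_cond _ _ _ _ hb fun hk =>
          (H0 k0 (by omega) l hk).trans (hmono _ _ _ hle.1)
      · exact ev_cond _ _ _ _ hb fun hk =>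
          (H1 k0 (by omega) l hk).trans (hmono _ _ _ hle.2.1)
      · exact ev_cond _ _ _ _ hb fun hk =>
          (H2 k0 (by omega) l hk).trans (hmono _ _ _ hle.2.2.1)
      · exact ev_cond _ _ _ _ hb fun hk =>
          (H3 k0 (by omega) l hk).trans (hmono _ _ _ hle.2.2.2.1)
      · exact ev_cond _ _ _ _ hb fun hk =>
          (H4 k0 (by omega) l hk).trans (hmono _ _ _ hle.2.2.2.2.1)
      · exact ev_cond _ _ _ _ hb fun hk =>
          (H5 k0 (by omega) l hk).trans (hmono _ _ _ hle.2.2.2.2.2.1)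
      · exact ev_cond _ _ _ _ hb fun hk =>
          (H6 k0 (by omega) l hk).trans (hmono _ _ _ hle.2.2.2.2.2.2.1)
      · exact ev_cond _ _ _ _ hb fun hk =>
          (H7 k0 (by omega) l hk).trans (hmono _ _ _ hle.2.2.2.2.2.2.2.1)
      · exact ev_cond _ _ _ _ hb fun hk =>
          (H8 k0 (by omega) l hk).trans (hmono _ _ _ hle.2.2.2.2.2.2.2.2.1)
      · exact ev_cond _ _ _ _ hb fun hk =>
          (H9 k0 (by omega) l hk).trans (hmono _ _ _ hle.2.2.2.2.2.2.2.2.2)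
    refine h10.trans ?_
    have h11 := hL' l (by omega)
    rw [pow_zero, mul_one] at h11
    exact h11
  obtain ⟨R, hRs, hR⟩ := hL (k0 / 4) (by omega) (S.PP k0) (S.PP_mem k0)
    (fun l => U10 (ev S k0 l)) hfail
  have hprime : ∀ r ∈ R, r.Prime ∧ (2 : ℝ) ^ ((k0 : ℝ) / 5) ≤ r := by
    intro r hr
    have h11 : 0 < S.PP k0 r := hRs hr
    unfold Sys.PP at h11
    split_ifs at h11 with h12
    · exact h12
    · exact absurd h11 (lt_irrefl _)
  refine ⟨R, ⟨hprime, ?_, ?_, ?_, ?_, ?_, ?_, ?_, ?_, ?_, ?_⟩⟩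
  · -- lower
    intro k hk j hj
    by_contra hcon
    push Not at hcon
    exact not_ev S (hR k (by omega)) 0 ⟨hk, j, hj, hcon⟩
  · -- win1
    intro k hk j hj x h hx hh
    by_contra hcon
    push Not at hcon
    exact not_ev S (hR k (by omega)) 1 ⟨hk, j, hj, x, h, hx, hh, hcon⟩
  · -- win2
    intro k hk j hj x h hx hh
    by_contra hcon
    push Not at hcon
    exact not_ev S (hR k (by omega)) 2 ⟨hk, j, hj, x, h, hx, hh, hcon⟩
  · -- mult
    intro q
    by_contra hcon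
    push Not at hcon
    by_cases hl : (k0 : ℝ) / 4 ≤ Nat.log 2 q
    · have hl' : k0 / 4 ≤ Nat.log 2 q := by
        have : (k0 : ℝ) ≤ 4 * (Nat.log 2 q : ℝ) := by (clear * - hl; linarith)
        have h11 : k0 ≤ 4 * Nat.log 2 q := by exact_mod_cast this
        omega
      exact not_ev S (hR (Nat.log 2 q) hl') 3 ⟨hl, q, rfl, hcon⟩
    · push Not at hl
      have h11 : 4 * Nat.log 2 q < k0 := by
        have : 4 * (Nat.log 2 q : ℝ) < (k0 : ℝ) := by (clear * - hl; linarith)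
        exact_mod_cast this
      have h12 : S.own k0 R q = 0 := by
        unfold Sys.own
        rw [Finset.Ico_eq_empty]
        · rfl
        · unfold top; omega
      rw [h12, Nat.cast_zero] at hcon
      have : (0 : ℝ) ≤ (q : ℝ) ^ S.tau := Real.rpow_nonneg (Nat.cast_nonneg _) _
      (clear * - hcon this; linarith)
  · -- massR
    intro T hT
    refine hL'' k0 (by omega) (fun r => S.base r * (r : ℝ) ^ (-S.s) * (1 + Real.log r) ^ 2) T
      (fun r _ => by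
        have := base_nonneg S r
        (clear * - this; positivity))
      (fun r hr => (hprime r (hT r hr)).2) ?_
    intro l hl T' hT' hT'l
    by_contra hcon
    push Not at hcon
    exact not_ev S (hR l (by omega)) 4
      ⟨hl, T', fun r hr => ⟨hT r (hT' hr), hT'l r hr⟩, hcon⟩
  · -- massC
    intro k hk
    by_contra hcon
    push Not at hcon
    exact not_ev S (hR k (by omega)) 5 ⟨hk, hcon⟩
  · -- crude
    intro k x h hk hx1 hx2 hh1 hh2
    by_contra hcon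
    push Not at hcon
    have hk' : k0 / 4 ≤ k := by
      have h11 : (k0 : ℝ) ≤ 2 * (k : ℝ) := by (clear * - hk; linarith)
      have h12 : k0 ≤ 2 * k := by exact_mod_cast h11
      omega
    exact not_ev S (hR k hk') 6 ⟨hk, x, h, hx1, hx2, hh1, hh2, hcon⟩
  · -- rpart
    intro k x h hk hx1 hx2 hh1 hh2
    by_contra hcon
    push Not at hcon
    have hk' : k0 / 4 ≤ k := by
      have h11 : (k0 : ℝ) ≤ 2 * (k : ℝ) := by (clear * - hk; linarith)
      have h12 : k0 ≤ 2 * k := by exact_mod_cast h11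
      omega
    exact not_ev S (hR k hk') 7 ⟨hk, x, h, hx1, hx2, hh1, hh2, hcon⟩
  · -- heavy1
    intro k hk j hj
    by_contra hcon
    push Not at hcon
    exact not_ev S (hR k (by (clear * - hk0 hk j; omega))) 8 ⟨hk, j, hj, hcon⟩
  · -- heavy2
    intro k hk j hj
    by_contra hcon
    push Not at hcon
    exact not_ev S (hR k (by omega)) 9 ⟨hk, j, hj, hcon⟩

end Pool.Agent.M20.Helper62.KS
end
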