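import Mathlib
import Pool.Agent.Helper53.KO.G01
import Pool.Agent.Helper53.KO.G02
import Pool.Agent.Helper53.KO.G04
import Pool.Agent.Helper53.KO.G09

set_option linter.all false

/- Helper53.KN.Helper16.KS.Last -/
section
/-!
# Project KS: the decay of the partial sums (Prop `Last`)
-/

set_option autoImplicit false
open scoped Classical

namespace Pool.Agent.M20.Helper16.KS

namespace Sys

variable (S : Sys)

/-- the first `J` cells of a block -/
theorem sum_cells (f : ℕ → ℝ) (k J : ℕ) :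
    ∑ n ∈ Finset.Ico (2 ^ k) (2 ^ k + J * 2 ^ ec S.d k), f n =
      ∑ j ∈ Finset.range J, ∑ n ∈ cell S.d k j, f n := by
  induction J with
  | zero => simp
  | succ J ih =>
    rw [Finset.sum_range_succ, ← ih]
    unfold cell
    rw [Finset.sum_Ico_consecutive]
    · exact Nat.le_add_right _ _
    · exact Nat.add_le_add_left (Nat.mul_le_mul_right _ (Nat.le_succ J)) _

theorem nc_mul (k : ℕ) : nc S.d k * 2 ^ ec S.d k = 2 ^ k := by
  unfold nc
  rw [← pow_add, Nat.sub_add_cancel (ec_le S.d S.d_pos k)]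

theorem sum_block (f : ℕ → ℝ) (k : ℕ) :
    ∑ n ∈ Finset.Ico (2 ^ k) (2 ^ (k + 1)), f n =
      ∑ j ∈ Finset.range (nc S.d k), ∑ n ∈ cell S.d k j, f n := by
  rw [← S.sum_cells f k (nc S.d k), S.nc_mul]
  congr 2
  ring

theorem sum_blocks_zero (f : ℕ → ℝ) (k0 : ℕ) (h0 : ∑ n ∈ Finset.Ico 1 (2 ^ k0), f n = 0)
    (h : ∀ k, k0 ≤ k → ∀ j < nc S.d k, ∑ n ∈ cell S.d k j, f n = 0) (k : ℕ) (hk : k0 ≤ k) :
    ∑ n ∈ Finset.Ico 1 (2 ^ k), f n = 0 := by
  induction k, hk using Nat.le_induction with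
  | base => exact h0
  | succ k hk ih =>
    rw [← Finset.sum_Ico_consecutive f (m := 1) (n := 2 ^ k) (k := 2 ^ (k + 1))
      Nat.one_le_two_pow (Nat.pow_le_pow_right (by norm_num) (Nat.le_succ k)), ih, S.sum_block]
    rw [Finset.sum_eq_zero fun j hj => h k hk j (Finset.mem_range.mp hj)]
    simp

/-- `|fp| ≤ Wp` -/
theorem abs_fp_le (k0 : ℕ) (R : Set ℕ) (t : ℕ × ℕ → ℝ) (ht : ∀ i, |t i| ≤ 1) (p : ℕ) :
    |S.fp k0 R t p| ≤ S.Wp k0 R p := by
  have h1 := S.bR_nonneg R p
  have h2 := S.ordw_nonneg k0 p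
  have h3 : |t (S.cix k0 p) * S.ordw k0 p| ≤ S.ordw k0 p := by
    rw [abs_mul, abs_of_nonneg h2]
    calc |t (S.cix k0 p)| * S.ordw k0 p ≤ 1 * S.ordw k0 p :=
          mul_le_mul_of_nonneg_right (ht _) h2
      _ = _ := one_mul _
  have h4 : |∑ k ∈ Finset.Ico k0 (top p), ∑ j ∈ S.badc k, t (k, j) * S.cw R k j p| ≤
      S.ctl k0 (top p) R p := by
    unfold ctl
    refine (Finset.abs_sum_le_sum_abs _ _).trans (Finset.sum_le_sum fun k _ => ?_)
    refine (Finset.abs_sum_le_sum_abs _ _).trans (Finset.sum_le_sum fun j _ => ?_)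
    have h5 := S.cw_nonneg R k j p
    rw [abs_mul, abs_of_nonneg h5]
    calc |t (k, j)| * S.cw R k j p ≤ 1 * S.cw R k j p := mul_le_mul_of_nonneg_right (ht _) h5
      _ = _ := one_mul _
  have h5 := S.ctl_nonneg k0 (top p) R p
  unfold fp Wp
  refine (abs_add_le _ _).trans ((add_le_add (abs_add_le _ _) le_rfl).trans ?_)
  rw [abs_of_nonneg h1]
  (clear * - h2 h3 h4 h5; linarith)

theorem abs_ft_le (k0 : ℕ) (R : Set ℕ) (t : ℕ × ℕ → ℝ) (ht : ∀ i, |t i| ≤ 1) (n : ℕ) :
    |S.ft k0 R t n| ≤ S.W k0 R n := by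
  unfold ft W
  rw [abs_CM]
  exact CM_mono (fun p _ _ => abs_nonneg _) (fun p _ _ => S.abs_fp_le k0 R t ht p)

theorem G_le (k : ℕ) (hk : 1 ≤ k) : S.G k ≤ (2 : ℝ) ^ (-(1/2 + S.d / 2) * k) := by
  have hd := S.d_pos
  have h1 : (2 : ℝ) ^ ec S.d k ≤ (2 : ℝ) ^ ((k : ℝ) * (1/2 - S.d)) := by
    rw [← Real.rpow_natCast]
    refine Real.rpow_le_rpow_of_exponent_le (by norm_num) ?_
    unfold ec
    refine Nat.floor_le (mul_nonneg (Nat.cast_nonneg _) ?_)
    have := S.d_le'
    norm_num at this ⊢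
    linarith
  have h2 : (1 : ℝ) ≤ (k : ℝ) ^ 4 := one_le_pow₀ (by exact_mod_cast hk)
  have h3 : S.G k ≤ 2 ^ ec S.d k * (2 : ℝ) ^ ((S.s - 1) * k) := by
    unfold G
    exact div_le_self (by positivity) h2
  refine h3.trans ?_
  calc (2 : ℝ) ^ ec S.d k * (2 : ℝ) ^ ((S.s - 1) * k)
      ≤ (2 : ℝ) ^ ((k : ℝ) * (1/2 - S.d)) * (2 : ℝ) ^ ((S.s - 1) * k) :=
        mul_le_mul_of_nonneg_right h1 (by positivity)
    _ = (2 : ℝ) ^ (-(1/2 + S.d / 2) * k) := by
        rw [← Real.rpow_add (by norm_num), S.s_eq]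
        congr 1
        ring

end Sys

theorem last : Last := by
  intro S k0 hk0 R _ _ hstar t ht h0 hcell
  have hd := S.d_pos
  set e : ℝ := 1/2 + S.d / 2 with he
  have he0 : 0 < e := by rw [he]; (clear * - hd; linarith)
  set C0 : ℝ := ∑ n ∈ Finset.Ico 1 (2 ^ k0), S.W k0 R n with hC0
  have hC00 : 0 ≤ C0 := Finset.sum_nonneg fun n _ => S.W_nonneg _ _ _
  refine ⟨C0 * (2 : ℝ) ^ (e * k0) + (2 + 1/4) * (2 : ℝ) ^ e, fun N hN => ?_⟩
  exact by
    have hNr : (0 : ℝ) < N := by exact_mod_cast hN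
    have hNe : 0 < (N : ℝ) ^ (-e) := Real.rpow_pos_of_pos hNr _
    rw [add_mul]
    by_cases hlt : N < 2 ^ k0
    · -- small `N`
      have h1 : |∑ n ∈ Finset.Icc 1 N, S.ft k0 R t n| ≤ C0 := by
        refine (Finset.abs_sum_le_sum_abs _ _).trans ?_
        refine (Finset.sum_le_sum fun n _ => S.abs_ft_le k0 R t ht n).trans ?_
        refine Finset.sum_le_sum_of_subset_of_nonneg ?_ fun n _ _ => S.W_nonneg _ _ _
        intro n hn
        rw [Finset.mem_Icc] at hn
        rw [Finset.mem_Ico]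
        omega
      have h2 : (1 : ℝ) ≤ (2 : ℝ) ^ (e * k0) * (N : ℝ) ^ (-e) := by
        have h3 : (N : ℝ) ≤ (2 : ℝ) ^ (k0 : ℝ) := by
          rw [Real.rpow_natCast]
          exact_mod_cast hlt.le
        have h4 : (N : ℝ) ^ e ≤ (2 : ℝ) ^ (e * k0) := by
          refine (Real.rpow_le_rpow hNr.le h3 he0.le).trans ?_
          rw [← Real.rpow_mul (by norm_num), mul_comm]
        rw [Real.rpow_neg hNr.le, ← div_eq_mul_inv, le_div_iff₀ (Real.rpow_pos_of_pos hNr _), one_mul]
        exact h4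
      have h5 : C0 ≤ C0 * (2 : ℝ) ^ (e * k0) * (N : ℝ) ^ (-e) := by
        rw [mul_assoc]
        exact le_mul_of_one_le_right hC00 h2
      have h6 : 0 ≤ (2 + 1/4) * (2 : ℝ) ^ e * (N : ℝ) ^ (-e) := by (clear * - hN; positivity)
      (clear * - h1 h5 h6; linarith)
    · rw [not_lt] at hlt
      exact by
        have hN0 : N ≠ 0 := by omega
        set k := Nat.log 2 N with hk
        have hkk : k0 ≤ k := Nat.le_log_of_pow_le (by norm_num) hlt
        have hk1 : 1 ≤ k := by omega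
        set j := S.idx N with hj
        have hjlt : j < nc S.d k := S.idx_lt N
        exact by
          have hmem : N ∈ cell S.d k j := S.mem_cell_idx hN0
          rw [mem_cell] at hmem
          -- decomposition
          have h1 : ∑ n ∈ Finset.Icc 1 N, S.ft k0 R t n =
              ∑ n ∈ Finset.Ico (2 ^ k + j * 2 ^ ec S.d k) (N + 1), S.ft k0 R t n := by
            have h2 : Finset.Icc 1 N = Finset.Ico 1 (N + 1) := by
              ext x
              rw [Finset.mem_Icc, Finset.mem_Ico]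
              omega
            rw [h2, ← Finset.sum_Ico_consecutive (S.ft k0 R t) (m := 1) (n := 2 ^ k) (k := N + 1)
              Nat.one_le_two_pow (by omega), S.sum_blocks_zero _ k0 h0 hcell k hkk, zero_add,
              ← Finset.sum_Ico_consecutive (S.ft k0 R t) (m := 2 ^ k) (n := 2 ^ k + j * 2 ^ ec S.d k)
              (k := N + 1) (Nat.le_add_right _ _) (by omega), S.sum_cells,
              Finset.sum_eq_zero fun i hi => hcell k hkk i ((Finset.mem_range.mp hi).trans hjlt), zero_add]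
          have h3 : |∑ n ∈ Finset.Icc 1 N, S.ft k0 R t n| ≤ (2 + 1/4) * S.G k := by
            rw [h1]
            refine (Finset.abs_sum_le_sum_abs _ _).trans ?_
            refine (Finset.sum_le_sum fun n _ => S.abs_ft_le k0 R t ht n).trans ?_
            refine le_trans ?_ (hstar.2 k hkk j hjlt)
            refine Finset.sum_le_sum_of_subset_of_nonneg ?_ fun n _ _ => S.W_nonneg _ _ _
            intro n hn
            rw [Finset.mem_Ico] at hn
            rw [mem_cell]
            omega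
          have h4 : S.G k ≤ (2 : ℝ) ^ e * (N : ℝ) ^ (-e) := by
            refine (S.G_le k hk1).trans ?_
            have h5 : (N : ℝ) ≤ (2 : ℝ) ^ ((k : ℝ) + 1) := by
              have h6 : N < 2 ^ (k + 1) := Nat.lt_pow_succ_log_self (by norm_num) N
              have h7 : (2 : ℝ) ^ ((k : ℝ) + 1) = ((2 ^ (k + 1) : ℕ) : ℝ) := by
                push_cast
                rw [← Real.rpow_natCast]
                push_cast
                rfl
              rw [h7]
              exact_mod_cast h6.le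
            have h8 : (N : ℝ) ^ e ≤ (2 : ℝ) ^ (e * ((k : ℝ) + 1)) := by
              refine (Real.rpow_le_rpow hNr.le h5 he0.le).trans ?_
              rw [← Real.rpow_mul (by norm_num), mul_comm]
            rw [Real.rpow_neg hNr.le, ← div_eq_mul_inv, le_div_iff₀ (Real.rpow_pos_of_pos hNr _)]
            calc (2 : ℝ) ^ (-e * k) * (N : ℝ) ^ e ≤ (2 : ℝ) ^ (-e * k) * (2 : ℝ) ^ (e * ((k : ℝ) + 1)) :=
                  mul_le_mul_of_nonneg_left h8 (by positivity)
              _ = (2 : ℝ) ^ e := by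
                  rw [← Real.rpow_add (by norm_num)]
                  congr 1
                  ring
          have h9 : 0 ≤ C0 * (2 : ℝ) ^ (e * k0) * (N : ℝ) ^ (-e) := by (clear * - hC00 hN; positivity)
          calc |∑ n ∈ Finset.Icc 1 N, S.ft k0 R t n| ≤ (2 + 1/4) * S.G k := h3
            _ ≤ (2 + 1/4) * ((2 : ℝ) ^ e * (N : ℝ) ^ (-e)) :=
                mul_le_mul_of_nonneg_left h4 (by norm_num)
            _ ≤ _ := by
                rw [← mul_assoc]
                (clear * - h9; linarith)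

end Pool.Agent.M20.Helper16.KS
end

/- Helper53.KN.Helper33.KS.CM -/
section
/-!
# Completely multiplicative extensions (project KS, MP_768c9c_nt)

`cm F` is the completely multiplicative function `ℕ →*₀ ℝ` with `cm F p = F p`.
-/

set_option autoImplicit false

namespace Pool.Agent.M20.Helper33.KS

open Finset

/-- the completely multiplicative function with values `F p` at the primes -/
noncomputable def cm (F : ℕ → ℝ) : ℕ →*₀ ℝ where
  toFun n := if n = 0 then 0 else n.factorization.prod fun p v => F p ^ v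
  map_zero' := by simp
  map_one' := by simp
  map_mul' := by
    intro m n
    by_cases hm : m = 0
    · simp [hm]
    by_cases hn : n = 0
    · simp [hn]
    rw [if_neg (mul_ne_zero hm hn), if_neg hm, if_neg hn, Nat.factorization_mul hm hn]
    rw [Finsupp.prod_add_index' (by simp) (by intro p a b; exact pow_add _ _ _)]

theorem cm_apply (F : ℕ → ℝ) {n : ℕ} (hn : n ≠ 0) :
    cm F n = n.factorization.prod fun p v => F p ^ v := by
  show (if n = 0 then (0 : ℝ) else _) = _
  rw [if_neg hn]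

theorem cm_apply' (F : ℕ → ℝ) {n : ℕ} (hn : n ≠ 0) :
    cm F n = ∏ p ∈ n.primeFactors, F p ^ n.factorization p := by
  rw [cm_apply F hn]; rfl

theorem cm_prime (F : ℕ → ℝ) {p : ℕ} (hp : p.Prime) : cm F p = F p := by
  rw [cm_apply F hp.ne_zero, hp.factorization]
  simp

theorem cm_pow_prime (F : ℕ → ℝ) {p : ℕ} (hp : p.Prime) (v : ℕ) : cm F (p ^ v) = F p ^ v := by
  rw [map_pow, cm_prime F hp]

theorem cm_nonneg {F : ℕ → ℝ} (hF : ∀ p, p.Prime → 0 ≤ F p) (n : ℕ) : 0 ≤ cm F n := by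
  by_cases hn : n = 0
  · simp [hn]
  rw [cm_apply' F hn]
  exact Finset.prod_nonneg fun p hp => pow_nonneg (hF p (Nat.prime_of_mem_primeFactors hp)) _

theorem cm_mono {F G : ℕ → ℝ} {n : ℕ} (hF : ∀ p, p.Prime → p ∣ n → 0 ≤ F p)
    (hFG : ∀ p, p.Prime → p ∣ n → F p ≤ G p) : cm F n ≤ cm G n := by
  by_cases hn : n = 0
  · simp [hn]
  rw [cm_apply' F hn, cm_apply' G hn]
  refine Finset.prod_le_prod (fun p hp => pow_nonneg (hF p (Nat.prime_of_mem_primeFactors hp)
    (Nat.dvd_of_mem_primeFactors hp)) _) fun p hp => ?_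
  exact pow_le_pow_left₀ (hF p (Nat.prime_of_mem_primeFactors hp)
    (Nat.dvd_of_mem_primeFactors hp)) (hFG p (Nat.prime_of_mem_primeFactors hp)
    (Nat.dvd_of_mem_primeFactors hp)) _

theorem cm_congr {F G : ℕ → ℝ} {n : ℕ} (hFG : ∀ p, p.Prime → p ∣ n → F p = G p) :
    cm F n = cm G n := by
  by_cases hn : n = 0
  · simp [hn]
  rw [cm_apply' F hn, cm_apply' G hn]
  refine Finset.prod_congr rfl fun p hp => ?_
  rw [hFG p (Nat.prime_of_mem_primeFactors hp) (Nat.dvd_of_mem_primeFactors hp)]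

theorem cm_mul_fun (F G : ℕ → ℝ) (n : ℕ) : cm (fun p => F p * G p) n = cm F n * cm G n := by
  by_cases hn : n = 0
  · simp [hn]
  rw [cm_apply' _ hn, cm_apply' _ hn, cm_apply' _ hn, ← Finset.prod_mul_distrib]
  refine Finset.prod_congr rfl fun p _ => ?_
  rw [mul_pow]

theorem cm_rpow (a : ℝ) {n : ℕ} (hn : n ≠ 0) : cm (fun p => (p : ℝ) ^ a) n = (n : ℝ) ^ a := by
  induction n using Nat.recOnMul with
  | zero => exact absurd rfl hn
  | one => simp
  | prime p hp => rw [cm_prime _ hp]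
  | mul m n hm hn' =>
    have hm0 : m ≠ 0 := fun h => hn (by simp [h])
    have hn0 : n ≠ 0 := fun h => hn (by simp [h])
    rw [map_mul, hm hm0, hn' hn0, Nat.cast_mul, Real.mul_rpow (by (clear * - hm0; positivity)) (by positivity)]

theorem cm_const (c : ℝ) {n : ℕ} (hn : n ≠ 0) :
    cm (fun _ => c) n = c ^ n.primeFactorsList.length := by
  induction n using Nat.recOnMul with
  | zero => exact absurd rfl hn
  | one => simp
  | prime p hp => rw [cm_prime _ hp, Nat.primeFactorsList_prime hp]; simp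
  | mul m n hm hn' =>
    have hm0 : m ≠ 0 := fun h => hn (by simp [h])
    have hn0 : n ≠ 0 := fun h => hn (by simp [h])
    rw [map_mul, hm hm0, hn' hn0, ← pow_add, ← List.length_append,
      (Nat.perm_primeFactorsList_mul hm0 hn0).length_eq]

/-! ### Telescoping -/

/-- `cm (F + G) n ≤ cm F n + ∑_{p ∣ n} v_p(n) G(p) cm (F + G) (n / p)` -/
theorem cm_tele {F G : ℕ → ℝ} (hF : ∀ p, p.Prime → 0 ≤ F p) (hG : ∀ p, p.Prime → 0 ≤ G p)
    (n : ℕ) : n ≠ 0 →
    cm (fun p => F p + G p) n ≤ cm F n +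
      ∑ p ∈ n.primeFactors, (n.factorization p : ℝ) * (G p * cm (fun p => F p + G p) (n / p)) := by
  induction n using Nat.recOnMul with
  | zero => intro h; exact absurd rfl h
  | one => intro _; simp
  | prime p hp =>
    intro _
    rw [cm_prime _ hp, cm_prime _ hp, hp.primeFactors, Finset.sum_singleton, hp.factorization_self,
      Nat.div_self hp.pos, map_one]
    simp
  | mul m n hm hn =>
    intro hmn
    have hm0 : m ≠ 0 := fun h => hmn (by simp [h])
    have hn0 : n ≠ 0 := fun h => hmn (by simp [h])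
    set W := cm (fun p => F p + G p) with hW
    have hW0 : ∀ k, 0 ≤ W k := fun k => cm_nonneg (fun p hp => add_nonneg (hF p hp) (hG p hp)) k
    have hF0 : ∀ k, 0 ≤ cm F k := fun k => cm_nonneg hF k
    have key : ∀ a b : ℕ, a ≠ 0 → b ≠ 0 →
        (∑ p ∈ a.primeFactors, (a.factorization p : ℝ) * (G p * W (a / p))) * W b =
        ∑ p ∈ (a * b).primeFactors, (a.factorization p : ℝ) * (G p * W (a * b / p)) := by
      intro a b ha hb
      rw [Finset.sum_mul, Nat.primeFactors_mul ha hb]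
      rw [← Finset.sum_subset (Finset.subset_union_left (s₂ := b.primeFactors)) ?_]
      · refine Finset.sum_congr rfl fun p hp => ?_
        have hpa := Nat.dvd_of_mem_primeFactors hp
        have h1 : a * b / p = a / p * b := (Nat.div_mul_right_comm hpa b).symm
        rw [h1, map_mul]; ring
      · intro p hp hpa
        have : a.factorization p = 0 := by
          rw [← Finsupp.notMem_support_iff, Nat.support_factorization]; exact hpa
        rw [this]; simp
    have h1 := hm hm0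
    have h2 := hn hn0
    calc W (m * n) = W m * W n := map_mul W m n
      _ ≤ (cm F m + ∑ p ∈ m.primeFactors, (m.factorization p : ℝ) * (G p * W (m / p))) * W n :=
          mul_le_mul_of_nonneg_right h1 (hW0 n)
      _ = cm F m * W n + ∑ p ∈ (m * n).primeFactors,
            (m.factorization p : ℝ) * (G p * W (m * n / p)) := by
          rw [add_mul, key m n hm0 hn0]
      _ ≤ cm F m * (cm F n + ∑ p ∈ n.primeFactors, (n.factorization p : ℝ) * (G p * W (n / p))) +
            ∑ p ∈ (m * n).primeFactors, (m.factorization p : ℝ) * (G p * W (m * n / p)) := by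
          gcongr
          exact hF0 m
      _ ≤ cm F (m * n) + (∑ p ∈ n.primeFactors, (n.factorization p : ℝ) * (G p * W (n / p))) * W m
            + ∑ p ∈ (m * n).primeFactors, (m.factorization p : ℝ) * (G p * W (m * n / p)) := by
          rw [mul_add, map_mul, mul_comm (cm F m) (∑ p ∈ n.primeFactors, _)]
          have h3 : cm F m ≤ W m := cm_mono (fun p hp _ => hF p hp)
            (fun p hp _ => le_add_of_nonneg_right (hG p hp))
          have h4 : 0 ≤ ∑ p ∈ n.primeFactors, (n.factorization p : ℝ) * (G p * W (n / p)) :=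
            Finset.sum_nonneg fun p hp => mul_nonneg (Nat.cast_nonneg _)
              (mul_nonneg (hG p (Nat.prime_of_mem_primeFactors hp)) (hW0 _))
          have h5 := mul_le_mul_of_nonneg_left h3 h4
          (clear * - h5; linarith)
      _ = cm F (m * n) + ∑ p ∈ (m * n).primeFactors, ((m * n).factorization p : ℝ) *
            (G p * W (m * n / p)) := by
          rw [key n m hn0 hm0, mul_comm n m, add_assoc, ← Finset.sum_add_distrib]
          congr 1
          refine Finset.sum_congr rfl fun p _ => ?_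
          rw [Nat.factorization_mul hm0 hn0, Finsupp.add_apply]
          push_cast; ring

/-! ### Splitting -/

/-- the completely multiplicative function as an arithmetic function -/
noncomputable def cmA (F : ℕ → ℝ) : ArithmeticFunction ℝ where
  toFun := cm F
  map_zero' := map_zero _

theorem cmA_apply (F : ℕ → ℝ) (n : ℕ) : cmA F n = cm F n := rfl

theorem cmA_mult (F : ℕ → ℝ) : (cmA F).IsMultiplicative := by
  refine ⟨?_, ?_⟩
  · rw [cmA_apply, map_one]
  · intro m n _
    rw [cmA_apply, cmA_apply, cmA_apply, map_mul]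

/-- two-fold splitting with weights `t`, `1 - t` -/
theorem cm_split {F G : ℕ → ℝ} (hF : ∀ p, p.Prime → 0 ≤ F p) (hG : ∀ p, p.Prime → 0 ≤ G p)
    (t u : ℝ) (ht : 0 < t) (hu : 0 < u) (htu : t + u = 1) {n : ℕ} (hn : n ≠ 0) :
    cm (fun p => F p + G p) n ≤
      ∑ x ∈ n.divisorsAntidiagonal, cm (fun p => t⁻¹ * F p) x.1 * cm (fun p => u⁻¹ * G p) x.2 := by
  have h1 : ∑ x ∈ n.divisorsAntidiagonal, cm (fun p => t⁻¹ * F p) x.1 * cm (fun p => u⁻¹ * G p) x.2
      = (cmA (fun p => t⁻¹ * F p) * cmA (fun p => u⁻¹ * G p)) n := by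
    rw [ArithmeticFunction.mul_apply]; rfl
  rw [h1, ((cmA_mult _).mul (cmA_mult _)).multiplicative_factorization _ hn, cm_apply _ hn]
  unfold Finsupp.prod
  refine Finset.prod_le_prod (fun p hp => pow_nonneg ?_ _) fun p hp => ?_
  · have hpp := Nat.prime_of_mem_primeFactors (Nat.support_factorization n ▸ hp)
    exact add_nonneg (hF p hpp) (hG p hpp)
  · have hpp := Nat.prime_of_mem_primeFactors (Nat.support_factorization n ▸ hp)
    set v := n.factorization p
    show (F p + G p) ^ v ≤ (cmA (fun p => t⁻¹ * F p) * cmA (fun p => u⁻¹ * G p)) (p ^ v)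
    rw [ArithmeticFunction.mul_apply, Nat.sum_divisorsAntidiagonal
      (f := fun a b => cmA (fun p => t⁻¹ * F p) a * cmA (fun p => u⁻¹ * G p) b),
      Nat.sum_divisors_prime_pow hpp]
    rw [add_pow]
    refine Finset.sum_le_sum fun j hj => ?_
    have hjv : j ≤ v := by have := Finset.mem_range.mp hj; omega
    have h2 : p ^ v / p ^ j = p ^ (v - j) := Nat.pow_div hjv hpp.pos
    rw [h2, cmA_apply, cmA_apply, cm_pow_prime _ hpp, cm_pow_prime _ hpp, mul_pow, mul_pow]
    have h3 : (v.choose j : ℝ) * (t ^ j * u ^ (v - j)) ≤ 1 := by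
      have h4 : (t + u) ^ v = 1 := by rw [htu, one_pow]
      rw [add_pow] at h4
      have h5 : t ^ j * u ^ (v - j) * (v.choose j : ℝ) ≤
          ∑ m ∈ Finset.range (v + 1), t ^ m * u ^ (v - m) * (v.choose m : ℝ) :=
        Finset.single_le_sum (f := fun m => t ^ m * u ^ (v - m) * (v.choose m : ℝ))
          (fun m _ => by (clear * - ht hu; positivity)) hj
      rw [h4] at h5
      (clear * - h5; linarith)
    have h6 : (v.choose j : ℝ) ≤ t⁻¹ ^ j * u⁻¹ ^ (v - j) := by
      rw [inv_pow, inv_pow, ← mul_inv]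
      rw [le_inv_comm₀ ?_ (by positivity)]
      · rw [← one_div, le_div_iff₀ (by exact_mod_cast Nat.choose_pos hjv)]
        (clear * - h3; linarith)
      · exact_mod_cast Nat.choose_pos hjv
    have h7 : 0 ≤ F p ^ j * G p ^ (v - j) :=
      mul_nonneg (pow_nonneg (hF p hpp) _) (pow_nonneg (hG p hpp) _)
    calc F p ^ j * G p ^ (v - j) * (v.choose j : ℝ)
        ≤ F p ^ j * G p ^ (v - j) * (t⁻¹ ^ j * u⁻¹ ^ (v - j)) :=
          mul_le_mul_of_nonneg_left h6 h7
      _ = _ := by ring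

/-- three-fold splitting with factors `3` -/
theorem cm_split_three {F G H : ℕ → ℝ} (hF : ∀ p, p.Prime → 0 ≤ F p)
    (hG : ∀ p, p.Prime → 0 ≤ G p) (hH : ∀ p, p.Prime → 0 ≤ H p) {n : ℕ} (hn : n ≠ 0) :
    cm (fun p => F p + G p + H p) n ≤
      ∑ x ∈ n.divisorsAntidiagonal, (∑ y ∈ x.1.divisorsAntidiagonal,
        cm (fun p => 3 * F p) y.1 * cm (fun p => 3 * G p) y.2) * cm (fun p => 3 * H p) x.2 := by
  have h := cm_split (F := fun p => F p + G p) (G := H) (fun p hp => add_nonneg (hF p hp) (hG p hp))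
    hH (2 / 3) (1 / 3) (by norm_num) (by norm_num) (by norm_num) hn
  refine h.trans (Finset.sum_le_sum fun x hx => ?_)
  have hx1 : x.1 ≠ 0 := by
    have := Nat.mem_divisorsAntidiagonal.mp hx
    intro h0
    apply this.2
    rw [← this.1, h0, zero_mul]
  have h3 : (fun p => (1 / 3 : ℝ)⁻¹ * H p) = fun p => 3 * H p := by
    funext p; norm_num
  have h4 : cm (fun p => (2 / 3 : ℝ)⁻¹ * (F p + G p)) x.1 ≤
      ∑ y ∈ x.1.divisorsAntidiagonal, cm (fun p => 3 * F p) y.1 * cm (fun p => 3 * G p) y.2 := by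
    have h5 := cm_split (F := fun p => (3 / 2 : ℝ) * F p) (G := fun p => (3 / 2 : ℝ) * G p)
      (fun p hp => mul_nonneg (by norm_num) (hF p hp))
      (fun p hp => mul_nonneg (by norm_num) (hG p hp)) (1 / 2) (1 / 2) (by norm_num) (by norm_num)
      (by norm_num) hx1
    have e1 : (fun p => (2 / 3 : ℝ)⁻¹ * (F p + G p)) = fun p => 3 / 2 * F p + 3 / 2 * G p := by
      funext p; ring
    have e2 : (fun p => (1 / 2 : ℝ)⁻¹ * (3 / 2 * F p)) = fun p => 3 * F p := by
      funext p; ring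
    have e3 : (fun p => (1 / 2 : ℝ)⁻¹ * (3 / 2 * G p)) = fun p => 3 * G p := by
      funext p; ring
    rw [e1]
    rw [e2, e3] at h5
    exact h5
  rw [h3]
  exact mul_le_mul_of_nonneg_right h4 (cm_nonneg (fun p hp => mul_nonneg (by norm_num) (hH p hp)) _)

/-! ### Sums -/

/-- `∑_{1 ≤ n ≤ N} cm F n ≤ exp (2 ∑_{p ≤ N} F p)` -/
theorem sum_cm_le {F : ℕ → ℝ} (hF : ∀ p, p.Prime → 0 ≤ F p) (hF2 : ∀ p, p.Prime → F p ≤ 1 / 2)
    (N : ℕ) : ∑ n ∈ Finset.Icc 1 N, cm F n ≤
      Real.exp (2 * ∑ p ∈ (Finset.Icc 1 N).filter Nat.Prime, F p) := by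
  have hlt : ∀ {p : ℕ}, p.Prime → ‖cm F p‖ < 1 := by
    intro p hp
    rw [cm_prime F hp, Real.norm_of_nonneg (hF p hp)]
    (clear * - hF2 hp; linarith [hF2 p hp])
  have hsm := EulerProduct.summable_and_hasSum_smoothNumbers_prod_primesBelow_geometric
    (f := ((cm F : ℕ →*₀ ℝ) : ℕ →* ℝ)) (fun hp => hlt hp) (N + 1)
  simp only [MonoidHom.coe_coe] at hsm
  have h1 : ∑ n ∈ Finset.Icc 1 N, cm F n ≤ ∏ p ∈ (N + 1).primesBelow, (1 - cm F p)⁻¹ := by
    rw [← hsm.2.tsum_eq]
    have hsub : ∀ n ∈ Finset.Icc 1 N, n ∈ Nat.smoothNumbers (N + 1) := by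
      intro n hn
      obtain ⟨hn1, hn2⟩ := Finset.mem_Icc.mp hn
      rw [Nat.mem_smoothNumbers']
      intro p _ hpn
      have := Nat.le_of_dvd (by omega) hpn
      omega
    classical
    have h2 : ∑ n ∈ Finset.Icc 1 N, cm F n =
        ∑ n ∈ (Finset.Icc 1 N).subtype (fun n => n ∈ Nat.smoothNumbers (N + 1)),
          cm F (n : ℕ) := (Finset.sum_subtype_of_mem (fun n => cm F n) hsub).symm
    rw [h2]
    refine Summable.sum_le_tsum _ (fun n _ => cm_nonneg hF _) ?_
    exact hsm.2.summable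
  refine h1.trans ?_
  rw [Finset.mul_sum, Real.exp_sum]
  have h3 : (N + 1).primesBelow = (Finset.Icc 1 N).filter Nat.Prime := by
    ext p
    rw [Nat.mem_primesBelow, Finset.mem_filter, Finset.mem_Icc]
    constructor
    · rintro ⟨h, hp⟩; exact ⟨⟨hp.pos, by omega⟩, hp⟩
    · rintro ⟨⟨_, h⟩, hp⟩; exact ⟨by omega, hp⟩
  rw [h3]
  refine Finset.prod_le_prod (fun p hp => ?_) fun p hp => ?_
  · have hpp := (Finset.mem_filter.mp hp).2
    rw [cm_prime F hpp]
    have := hF2 p hpp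
    exact inv_nonneg.mpr (by linarith)
  · have hpp := (Finset.mem_filter.mp hp).2
    rw [cm_prime F hpp]
    have h4 := hF2 p hpp
    have h5 := hF p hpp
    rw [inv_le_iff_one_le_mul₀ (by linarith)]
    have h6 : 1 + 2 * F p ≤ Real.exp (2 * F p) := by
      have := Real.add_one_le_exp (2 * F p); (clear * - this; linarith)
    (clear * - h6 h4 h5; nlinarith)

/-- `∑_{2 ≤ n ≤ N} cm F n ≤ exp (2 ∑_{p ≤ N} F p) - 1` -/
theorem sum_cm_le' {F : ℕ → ℝ} (hF : ∀ p, p.Prime → 0 ≤ F p) (hF2 : ∀ p, p.Prime → F p ≤ 1 / 2)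
    (N : ℕ) : ∑ n ∈ Finset.Icc 2 N, cm F n ≤
      Real.exp (2 * ∑ p ∈ (Finset.Icc 1 N).filter Nat.Prime, F p) - 1 := by
  have h := sum_cm_le hF hF2 N
  rcases Nat.eq_zero_or_pos N with h0 | h0
  · subst h0; simp
  · have h1 : Finset.Icc 1 N = insert 1 (Finset.Icc 2 N) := by
      ext x; simp only [Finset.mem_insert, Finset.mem_Icc]; omega
    rw [h1, Finset.sum_insert (by simp), map_one] at h
    rw [h1]
    (clear * - h; linarith)

end Pool.Agent.M20.Helper33.KS
end

/- Helper53.KN.Helper33.KS.Win -/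
section
/-!
# Windows and divisors (project KS, MP_768c9c_nt)

`wdiv v A B` is the window `{m : A ≤ v m < B}`.
-/

set_option autoImplicit false

namespace Pool.Agent.M20.Helper33.KS

open Finset

/-- `wdiv v A B = {m : A ≤ v m < B}` -/
def wdiv (v A B : ℕ) : Finset ℕ := Finset.Ico (A ⌈/⌉ v) (B ⌈/⌉ v)

theorem mem_wdiv {v A B m : ℕ} (hv : 0 < v) : m ∈ wdiv v A B ↔ A ≤ v * m ∧ v * m < B := by
  unfold wdiv
  rw [Finset.mem_Ico, ceilDiv_le_iff_le_mul hv, lt_iff_not_ge, ceilDiv_le_iff_le_mul hv, not_le]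

theorem wdiv_one (A B : ℕ) : wdiv 1 A B = Finset.Ico A B := by
  unfold wdiv
  simp

/-- the length of `wdiv v A B` is at most `(B - A) / v + 1` -/
theorem wdiv_len_le {v A B : ℕ} (hv : 0 < v) :
    ((B ⌈/⌉ v : ℕ) : ℝ) - ((A ⌈/⌉ v : ℕ) : ℝ) ≤ ((B : ℝ) - A) / v + 1 := by
  have h1 : (A : ℝ) ≤ v * ((A ⌈/⌉ v : ℕ) : ℝ) := by
    have := (ceilDiv_le_iff_le_mul (b := A) (c := A ⌈/⌉ v) hv).mp le_rfl
    exact_mod_cast this
  have h2 : (v : ℝ) * ((B ⌈/⌉ v : ℕ) : ℝ) ≤ B + v := by
    have : v * (B ⌈/⌉ v) ≤ B + v := by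
      by_contra hc
      push Not at hc
      have h3 : B ≤ v * (B ⌈/⌉ v - 1) := by
        rw [Nat.mul_sub, mul_one]; omega
      have h4 := (ceilDiv_le_iff_le_mul hv).mpr h3
      have h5 : 0 < B ⌈/⌉ v := by
        rcases Nat.eq_zero_or_pos (B ⌈/⌉ v) with h | h
        · rw [h, mul_zero] at hc; omega
        · exact h
      omega
    exact_mod_cast this
  have hv' : (0 : ℝ) < v := by exact_mod_cast hv
  rw [div_add_one hv'.ne', le_div_iff₀ hv']
  (clear * - h1 h2; nlinarith)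

/-- the length of `wdiv v A B` is at least `(B - A) / v - 1` -/
theorem le_wdiv_len {v A B : ℕ} (hv : 0 < v) :
    ((B : ℝ) - A) / v - 1 ≤ ((B ⌈/⌉ v : ℕ) : ℝ) - ((A ⌈/⌉ v : ℕ) : ℝ) := by
  have h1 : (B : ℝ) ≤ v * ((B ⌈/⌉ v : ℕ) : ℝ) := by
    have := (ceilDiv_le_iff_le_mul (b := B) (c := B ⌈/⌉ v) hv).mp le_rfl
    exact_mod_cast this
  have h2 : (v : ℝ) * ((A ⌈/⌉ v : ℕ) : ℝ) ≤ A + v := by
    have : v * (A ⌈/⌉ v) ≤ A + v := by
      by_contra hc
      push Not at hc
      have h3 : A ≤ v * (A ⌈/⌉ v - 1) := by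
        rw [Nat.mul_sub, mul_one]; omega
      have h4 := (ceilDiv_le_iff_le_mul hv).mpr h3
      have h5 : 0 < A ⌈/⌉ v := by
        rcases Nat.eq_zero_or_pos (A ⌈/⌉ v) with h | h
        · rw [h, mul_zero] at hc; omega
        · exact h
      omega
    exact_mod_cast this
  have hv' : (0 : ℝ) < v := by exact_mod_cast hv
  rw [sub_le_iff_le_add, div_le_iff₀ hv']
  (clear * - h1 h2; nlinarith)

theorem ceilDiv_ge {v A : ℕ} (hv : 0 < v) : (A : ℝ) / v ≤ ((A ⌈/⌉ v : ℕ) : ℝ) := by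
  have hv' : (0 : ℝ) < v := by exact_mod_cast hv
  rw [div_le_iff₀ hv']
  have := (ceilDiv_le_iff_le_mul (b := A) (c := A ⌈/⌉ v) hv).mp le_rfl
  rw [mul_comm] at this
  exact_mod_cast this

/-- sums of Dirichlet convolutions over windows -/
theorem sum_conv (f h : ArithmeticFunction ℝ) {A B : ℕ} (hA : 1 ≤ A) :
    ∑ n ∈ Finset.Ico A B, (f * h) n = ∑ v ∈ Finset.Ico 1 B, f v * ∑ m ∈ wdiv v A B, h m := by
  simp only [ArithmeticFunction.mul_apply, Finset.mul_sum]
  rw [Finset.sum_sigma', Finset.sum_sigma']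
  refine Finset.sum_bij' (fun x _ => ⟨x.2.1, x.2.2⟩) (fun x _ => ⟨x.1 * x.2, (x.1, x.2)⟩)
    ?_ ?_ ?_ ?_ ?_
  · rintro ⟨n, v, m⟩ hx
    simp only [Finset.mem_sigma, Finset.mem_Ico, Nat.mem_divisorsAntidiagonal] at hx ⊢
    obtain ⟨⟨h1, h2⟩, h3, h4⟩ := hx
    have hv : 0 < v := by
      rcases Nat.eq_zero_or_pos v with h | h
      · subst h; simp at h3; omega
      · exact h
    have hm : 0 < m := by
      rcases Nat.eq_zero_or_pos m with h | h
      · subst h; simp at h3; omega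
      · exact h
    refine ⟨⟨hv, ?_⟩, ?_⟩
    · calc v = v * 1 := (mul_one v).symm
        _ ≤ v * m := Nat.mul_le_mul_left v hm
        _ < B := by rw [h3]; exact h2
    · rw [mem_wdiv hv, h3]; exact ⟨h1, h2⟩
  · rintro ⟨v, m⟩ hx
    simp only [Finset.mem_sigma, Finset.mem_Ico, Nat.mem_divisorsAntidiagonal] at hx ⊢
    obtain ⟨⟨h1, h2⟩, h3⟩ := hx
    rw [mem_wdiv (by omega)] at h3
    exact ⟨h3, trivial, by omega⟩
  · rintro ⟨n, v, m⟩ hx
    simp only [Finset.mem_sigma, Finset.mem_Ico, Nat.mem_divisorsAntidiagonal] at hx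
    obtain ⟨_, h3, _⟩ := hx
    simp only [h3]
  · rintro ⟨v, m⟩ _
    rfl
  · rintro ⟨n, v, m⟩ _
    rfl

/-- restriction of an arithmetic function to a set -/
noncomputable def res (s : Set ℕ) (f : ArithmeticFunction ℝ) : ArithmeticFunction ℝ where
  toFun := s.indicator f
  map_zero' := by
    by_cases h : (0 : ℕ) ∈ s
    · rw [Set.indicator_of_mem h]; exact f.map_zero
    · rw [Set.indicator_of_notMem h]

theorem res_of_mem {s : Set ℕ} (f : ArithmeticFunction ℝ) {n : ℕ} (h : n ∈ s) :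
    res s f n = f n := Set.indicator_of_mem h _

theorem res_of_notMem {s : Set ℕ} (f : ArithmeticFunction ℝ) {n : ℕ} (h : n ∉ s) :
    res s f n = 0 := Set.indicator_of_notMem h _

theorem res_nonneg {s : Set ℕ} {f : ArithmeticFunction ℝ} (hf : ∀ n, 0 ≤ f n) (n : ℕ) :
    0 ≤ res s f n := Set.indicator_nonneg (fun n _ => hf n) n

theorem res_le {s : Set ℕ} {f : ArithmeticFunction ℝ} (hf : ∀ n, 0 ≤ f n) (n : ℕ) :
    res s f n ≤ f n := Set.indicator_le_self' (fun n _ => hf n) n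

theorem res_add_compl (s : Set ℕ) (f : ArithmeticFunction ℝ) : res s f + res sᶜ f = f := by
  ext n
  rw [ArithmeticFunction.add_apply]
  by_cases h : n ∈ s
  · rw [res_of_mem f h, res_of_notMem f (show n ∉ sᶜ from fun h' => h' h), add_zero]
  · rw [res_of_notMem f h, res_of_mem f (show n ∈ sᶜ from h), zero_add]

theorem conv_nonneg {f h : ArithmeticFunction ℝ} (hf : ∀ n, 0 ≤ f n) (hh : ∀ n, 0 ≤ h n) (n : ℕ) :
    0 ≤ (f * h) n := by
  rw [ArithmeticFunction.mul_apply]
  exact Finset.sum_nonneg fun x _ => mul_nonneg (hf _) (hh _)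

theorem conv_mono {f f' h h' : ArithmeticFunction ℝ} (hf : ∀ n, 0 ≤ f n) (hh : ∀ n, 0 ≤ h n)
    (hff : ∀ n, f n ≤ f' n) (hhh : ∀ n, h n ≤ h' n) (n : ℕ) : (f * h) n ≤ (f' * h') n := by
  rw [ArithmeticFunction.mul_apply, ArithmeticFunction.mul_apply]
  exact Finset.sum_le_sum fun x _ => mul_le_mul (hff _) (hhh _) (hh _) ((hf _).trans (hff _))

/-- reverse splitting: `cm F * cm G ≤ cm (F + G)` -/
theorem cm_conv_le {F G : ℕ → ℝ} (hF : ∀ p, p.Prime → 0 ≤ F p) (hG : ∀ p, p.Prime → 0 ≤ G p)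
    {n : ℕ} (hn : n ≠ 0) : (cmA F * cmA G) n ≤ cm (fun p => F p + G p) n := by
  rw [((cmA_mult _).mul (cmA_mult _)).multiplicative_factorization _ hn, cm_apply _ hn]
  unfold Finsupp.prod
  refine Finset.prod_le_prod (fun p hp => ?_) fun p hp => ?_
  · show 0 ≤ (cmA F * cmA G) _
    exact conv_nonneg (fun n => cm_nonneg hF n) (fun n => cm_nonneg hG n) _
  · have hpp := Nat.prime_of_mem_primeFactors (Nat.support_factorization n ▸ hp)
    set v := n.factorization p
    show (cmA F * cmA G) (p ^ v) ≤ (F p + G p) ^ v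
    rw [ArithmeticFunction.mul_apply, Nat.sum_divisorsAntidiagonal
      (f := fun a b => cmA F a * cmA G b), Nat.sum_divisors_prime_pow hpp, add_pow]
    refine Finset.sum_le_sum fun j hj => ?_
    have hjv : j ≤ v := by have := Finset.mem_range.mp hj; omega
    have h2 : p ^ v / p ^ j = p ^ (v - j) := Nat.pow_div hjv hpp.pos
    rw [h2, cmA_apply, cmA_apply, cm_pow_prime _ hpp, cm_pow_prime _ hpp]
    have h7 : 0 ≤ F p ^ j * G p ^ (v - j) :=
      mul_nonneg (pow_nonneg (hF p hpp) _) (pow_nonneg (hG p hpp) _)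
    have h8 : (1 : ℝ) ≤ (v.choose j : ℝ) := by exact_mod_cast Nat.choose_pos hjv
    exact le_mul_of_one_le_right h7 h8

theorem cmA_one (F : ℕ → ℝ) : cmA F 1 = 1 := map_one (cm F)

theorem cmA_mul (F : ℕ → ℝ) (m n : ℕ) : cmA F (m * n) = cmA F m * cmA F n := map_mul (cm F) _ _

end Pool.Agent.M20.Helper33.KS
end

/- Helper53.KN.Helper65.KC.MeanValue -/
section
/-! KC-1 : MeanValue and PairCount (A11, A11'). -/

set_option autoImplicit false
open Filter Topology MeasureTheory
open scoped Classical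

namespace Pool.Agent.M20.Helper65.KC

open Pool.Agent.M20.Helper60.KS

/-- The Schur-type partition bound. -/
theorem partition_bound {ι : Type} (S : Finset ι) (a : ι → ℝ) (m : ι → ℤ) (w : ℤ → ℝ) (W : ℝ)
    (hw : ∀ d, 0 ≤ w d) (hsym : ∀ d, w (-d) = w d) (hW : ∀ F : Finset ℤ, ∑ d ∈ F, w d ≤ W) :
    ∑ j ∈ S, ∑ k ∈ S, a j * a k * w (m j - m k) ≤
      W * ∑ j ∈ S, ∑ k ∈ S, if m j = m k then a j * a k else 0 := by
  set M := S.image m with hM
  set A : ℤ → ℝ := fun p => ∑ j ∈ S with m j = p, a j with hA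
  have hfib : ∀ f : ι → ℝ, ∑ j ∈ S, f j = ∑ p ∈ M, ∑ j ∈ S with m j = p, f j := by
    intro f
    exact (Finset.sum_fiberwise_of_maps_to (fun i hi => Finset.mem_image_of_mem m hi) f).symm
  have h1 : ∑ j ∈ S, ∑ k ∈ S, a j * a k * w (m j - m k) =
      ∑ p ∈ M, ∑ q ∈ M, A p * A q * w (p - q) := by
    rw [hfib]
    refine Finset.sum_congr rfl fun p _ => ?_
    have : ∀ j ∈ S.filter (fun j => m j = p), ∑ k ∈ S, a j * a k * w (m j - m k) =
        ∑ q ∈ M, a j * A q * w (p - q) := by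
      intro j hj
      have hjp : m j = p := (Finset.mem_filter.mp hj).2
      rw [hfib]
      refine Finset.sum_congr rfl fun q _ => ?_
      rw [hA]
      simp only
      rw [Finset.mul_sum, Finset.sum_mul]
      refine Finset.sum_congr rfl fun k hk => ?_
      rw [hjp, (Finset.mem_filter.mp hk).2]
    rw [Finset.sum_congr rfl this, Finset.sum_comm]
    refine Finset.sum_congr rfl fun q _ => ?_
    rw [← Finset.sum_mul, ← Finset.sum_mul]
  have h2 : ∑ j ∈ S, ∑ k ∈ S, (if m j = m k then a j * a k else 0) = ∑ p ∈ M, A p ^ 2 := by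
    rw [hfib]
    refine Finset.sum_congr rfl fun p _ => ?_
    have : ∀ j ∈ S.filter (fun j => m j = p), ∑ k ∈ S, (if m j = m k then a j * a k else 0) =
        a j * A p := by
      intro j hj
      have hjp : m j = p := (Finset.mem_filter.mp hj).2
      rw [hA]
      simp only
      rw [Finset.mul_sum, Finset.sum_filter]
      refine Finset.sum_congr rfl fun k _ => ?_
      rw [hjp]
      by_cases h : m k = p
      · simp [h]
      · rw [if_neg (fun h' => h h'.symm), if_neg h]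
    rw [Finset.sum_congr rfl this, ← Finset.sum_mul]
    simp only [hA]
    ring
  rw [h1, h2]
  have h3 : ∀ p ∈ M, ∀ q ∈ M, A p * A q * w (p - q) ≤
      (A p ^ 2 * w (p - q) + A q ^ 2 * w (q - p)) / 2 := by
    intro p _ q _
    have e : w (q - p) = w (p - q) := by rw [← hsym (p - q)]; congr 1; ring
    rw [e]
    have := hw (p - q)
    (clear * - this; nlinarith [sq_nonneg (A p - A q), mul_nonneg (sq_nonneg (A p - A q)) this])
  calc ∑ p ∈ M, ∑ q ∈ M, A p * A q * w (p - q)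
      ≤ ∑ p ∈ M, ∑ q ∈ M, (A p ^ 2 * w (p - q) + A q ^ 2 * w (q - p)) / 2 :=
        Finset.sum_le_sum fun p hp => Finset.sum_le_sum fun q hq => h3 p hp q hq
    _ = (∑ p ∈ M, ∑ q ∈ M, A p ^ 2 * w (p - q) + ∑ p ∈ M, ∑ q ∈ M, A q ^ 2 * w (q - p)) / 2 := by
        rw [← Finset.sum_add_distrib, Finset.sum_div]
        refine Finset.sum_congr rfl fun p _ => ?_
        rw [← Finset.sum_add_distrib, Finset.sum_div]
    _ = ∑ p ∈ M, ∑ q ∈ M, A p ^ 2 * w (p - q) := by
        rw [Finset.sum_comm (s := M) (t := M) (f := fun p q => A q ^ 2 * w (q - p))]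
        ring
    _ ≤ ∑ p ∈ M, A p ^ 2 * W := by
        refine Finset.sum_le_sum fun p _ => ?_
        rw [← Finset.mul_sum]
        refine mul_le_mul_of_nonneg_left ?_ (sq_nonneg _)
        have : ∑ q ∈ M, w (p - q) = ∑ d ∈ M.image (fun q => p - q), w d := by
          refine (Finset.sum_image (f := w) (g := fun q => p - q) (s := M) ?_).symm
          intro x _ y _ h
          simpa using h
        rw [this]
        exact hW _
    _ = W * ∑ p ∈ M, A p ^ 2 := by rw [← Finset.sum_mul]; ring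

theorem pairCount : PairCount := by
  intro ι S y δ hδ
  have key := partition_bound S (fun _ => (1 : ℝ)) (fun j => ⌊y j / δ⌋)
    (fun d => if |d| ≤ 2 then 1 else 0) 5 (fun d => by split_ifs <;> norm_num)
    (fun d => by simp [abs_neg]) (by
      intro F
      have : ∑ d ∈ F, (if |d| ≤ 2 then (1 : ℝ) else 0) ≤ ∑ d ∈ Finset.Icc (-2 : ℤ) 2, (1 : ℝ) := by
        rw [← Finset.sum_filter]
        refine Finset.sum_le_sum_of_subset_of_nonneg ?_ (fun _ _ _ => by norm_num)
        intro d hd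
        rw [Finset.mem_Icc]
        exact abs_le.mp (Finset.mem_filter.mp hd).2
      refine this.trans ?_
      simp)
  have e1 : (((S ×ˢ S).filter (fun p => |y p.1 - y p.2| ≤ 2 * δ)).card : ℝ) ≤
      ∑ j ∈ S, ∑ k ∈ S, (1 : ℝ) * 1 * (if |⌊y j / δ⌋ - ⌊y k / δ⌋| ≤ 2 then 1 else 0) := by
    rw [Finset.card_filter, Nat.cast_sum, Finset.sum_product]
    refine Finset.sum_le_sum fun j _ => Finset.sum_le_sum fun k _ => ?_
    simp only
    by_cases h : |y j - y k| ≤ 2 * δ
    · have h2 : |⌊y j / δ⌋ - ⌊y k / δ⌋| ≤ 2 := by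
        have h3 := abs_le.mp h
        have h4 : y j / δ ≤ y k / δ + 2 := by
          rw [div_add' _ _ _ hδ.ne', div_le_div_iff_of_pos_right hδ]; (clear * - h3; linarith)
        have h5 : y k / δ ≤ y j / δ + 2 := by
          rw [div_add' _ _ _ hδ.ne', div_le_div_iff_of_pos_right hδ]; (clear * - h3; linarith)
        have h6 : ⌊y j / δ⌋ ≤ ⌊y k / δ⌋ + 2 := by
          have := Int.floor_le_floor h4
          have e : ⌊y k / δ + 2⌋ = ⌊y k / δ⌋ + 2 := by
            exact Int.floor_add_intCast (y k / δ) 2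
          rwa [e] at this
        have h7 : ⌊y k / δ⌋ ≤ ⌊y j / δ⌋ + 2 := by
          have := Int.floor_le_floor h5
          have e : ⌊y j / δ + 2⌋ = ⌊y j / δ⌋ + 2 := by
            exact Int.floor_add_intCast (y j / δ) 2
          rwa [e] at this
        rw [abs_le]
        constructor <;> (clear * - h7 h6; linarith)
      rw [if_pos h, if_pos h2]; norm_num
    · rw [if_neg h]
      split_ifs <;> norm_num
  have e2 : ∑ j ∈ S, ∑ k ∈ S, (if ⌊y j / δ⌋ = ⌊y k / δ⌋ then (1 : ℝ) * 1 else 0) ≤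
      (((S ×ˢ S).filter (fun p => |y p.1 - y p.2| ≤ δ)).card : ℝ) := by
    rw [Finset.card_filter, Nat.cast_sum, Finset.sum_product]
    refine Finset.sum_le_sum fun j _ => Finset.sum_le_sum fun k _ => ?_
    simp only
    by_cases h : ⌊y j / δ⌋ = ⌊y k / δ⌋
    · have h1 := Int.abs_sub_lt_one_of_floor_eq_floor h
      have h2 : |y j - y k| ≤ δ := by
        rw [← sub_div, abs_div, abs_of_pos hδ, div_lt_one hδ] at h1
        exact h1.le
      rw [if_pos h, if_pos h2]; norm_num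
    · rw [if_neg h]
      split_ifs <;> norm_num
  have : (((S ×ˢ S).filter (fun p => |y p.1 - y p.2| ≤ 2 * δ)).card : ℝ) ≤
      5 * (((S ×ˢ S).filter (fun p => |y p.1 - y p.2| ≤ δ)).card : ℝ) := by
    refine e1.trans (key.trans ?_)
    (clear * - e2; linarith [e2])
  exact_mod_cast this

/-- the kernel used for the mean value theorem -/
theorem kernel_bound (F : Finset ℤ) :
    ∑ d ∈ F, (16 : ℝ) / (1 + (d : ℝ) ^ 2) ≤ ∑' d : ℤ, (16 : ℝ) / (1 + (d : ℝ) ^ 2) := by
  refine Summable.sum_le_tsum F (fun d _ => by (clear * -; positivity)) ?_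
  have h : Summable (fun d : ℤ => 16 * (1 / (d : ℝ) ^ 2)) :=
    (Real.summable_one_div_int_pow.mpr (by norm_num)).mul_left 16
  refine Summable.of_norm_bounded_eventually h ?_
  rw [Filter.eventually_cofinite]
  refine (Set.finite_singleton (0 : ℤ)).subset ?_
  intro d hd
  rw [Set.mem_singleton_iff]
  by_contra hne
  apply hd
  have hd2 : 0 < (d : ℝ) ^ 2 := by (clear * - hne; positivity)
  rw [Real.norm_of_nonneg (by (clear * - hne; positivity))]
  rw [mul_one_div]
  exact div_le_div_of_nonneg_left (by norm_num) hd2 (by (clear * -; linarith))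

theorem gauss_integral (T c : ℝ) (hT : 0 < T) :
    ∫ t : ℝ, Complex.exp (Complex.I * (c : ℂ) * t) * Complex.exp (-(1 / T ^ 2 : ℂ) * (t : ℂ) ^ 2) =
      ((Real.sqrt Real.pi * T * Real.exp (-(T * c) ^ 2 / 4) : ℝ) : ℂ) := by
  have hb : 0 < ((1 / T ^ 2 : ℂ)).re := by
    have : ((1 / T ^ 2 : ℂ)) = ((1 / T ^ 2 : ℝ) : ℂ) := by push_cast; ring
    rw [this, Complex.ofReal_re]; positivity
  rw [fourierIntegral_gaussian hb]
  have h1 : ((Real.pi : ℂ) / (1 / T ^ 2 : ℂ)) = ((Real.pi * T ^ 2 : ℝ) : ℂ) := by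
    push_cast
    (clear * -; field_simp)
  rw [h1]
  have h2 : (((Real.pi * T ^ 2 : ℝ) : ℂ)) ^ (1 / 2 : ℂ) = ((Real.sqrt Real.pi * T : ℝ) : ℂ) := by
    have : (1 / 2 : ℂ) = ((1 / 2 : ℝ) : ℂ) := by push_cast; ring
    rw [this, ← Complex.ofReal_cpow (by positivity), ← Real.sqrt_eq_rpow,
      Real.sqrt_mul Real.pi_pos.le, Real.sqrt_sq hT.le]
  rw [h2]
  have h3 : -(c : ℂ) ^ 2 / (4 * (1 / T ^ 2 : ℂ)) = ((-(T * c) ^ 2 / 4 : ℝ) : ℂ) := by
    push_cast
    have : (T : ℂ) ≠ 0 := by exact_mod_cast hT.ne'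
    field_simp
  rw [h3, ← Complex.ofReal_exp]
  push_cast
  ring

theorem gauss_integrable (T c : ℝ) (hT : 0 < T) :
    Integrable (fun t : ℝ => Complex.exp (Complex.I * (c : ℂ) * t) *
      Complex.exp (-(1 / T ^ 2 : ℂ) * (t : ℂ) ^ 2)) := by
  have hb : 0 < ((1 / T ^ 2 : ℂ)).re := by
    have : ((1 / T ^ 2 : ℂ)) = ((1 / T ^ 2 : ℝ) : ℂ) := by push_cast; ring
    rw [this, Complex.ofReal_re]; positivity
  have := integrable_cexp_quadratic (b := (1 / T ^ 2 : ℂ)) hb (Complex.I * c) 0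
  refine this.congr (Filter.Eventually.of_forall fun t => ?_)
  simp only
  rw [← Complex.exp_add]
  congr 1
  ring

theorem meanValue : MeanValue := by
  refine ⟨Real.sqrt Real.pi * (∑' d : ℤ, (16 : ℝ) / (1 + (d : ℝ) ^ 2) + 1), ?_, ?_⟩
  · have : 0 ≤ ∑' d : ℤ, (16 : ℝ) / (1 + (d : ℝ) ^ 2) := tsum_nonneg fun d => by (clear * -; positivity)
    have := Real.sqrt_pos.mpr Real.pi_pos
    positivity
  intro ι S a y T hT
  have hT0 : 0 < T := by linarith
  set W := ∑' d : ℤ, (16 : ℝ) / (1 + (d : ℝ) ^ 2) with hWdef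
  have hW0 : 0 ≤ W := tsum_nonneg fun d => by (clear * -; positivity)
  -- step 1: the integral as a double sum
  have hpt : ∀ t : ℝ, ((Real.exp (-(t / T) ^ 2) *
      ‖∑ j ∈ S, a j * Complex.exp (Complex.I * ((y j * t : ℝ) : ℂ))‖ ^ 2 : ℝ) : ℂ) =
      ∑ j ∈ S, ∑ k ∈ S, a j * (starRingEnd ℂ) (a k) *
        (Complex.exp (Complex.I * ((y j - y k : ℝ) : ℂ) * t) *
          Complex.exp (-(1 / T ^ 2 : ℂ) * (t : ℂ) ^ 2)) := by
    intro t
    have h1 : ((‖∑ j ∈ S, a j * Complex.exp (Complex.I * ((y j * t : ℝ) : ℂ))‖ ^ 2 : ℝ) : ℂ) =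
        (∑ j ∈ S, a j * Complex.exp (Complex.I * ((y j * t : ℝ) : ℂ))) *
        (starRingEnd ℂ) (∑ j ∈ S, a j * Complex.exp (Complex.I * ((y j * t : ℝ) : ℂ))) := by
      rw [Complex.mul_conj, Complex.normSq_eq_norm_sq]
    rw [Complex.ofReal_mul, h1, map_sum, Finset.sum_mul_sum, Finset.mul_sum]
    refine Finset.sum_congr rfl fun j _ => ?_
    rw [Finset.mul_sum]
    refine Finset.sum_congr rfl fun k _ => ?_
    rw [map_mul, ← Complex.exp_conj, map_mul, Complex.conj_I, Complex.conj_ofReal]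
    have h2 : ((Real.exp (-(t / T) ^ 2) : ℝ) : ℂ) = Complex.exp (-(1 / T ^ 2 : ℂ) * (t : ℂ) ^ 2) := by
      rw [Complex.ofReal_exp]
      congr 1
      push_cast
      ring
    have h3 : Complex.exp (Complex.I * ((y j - y k : ℝ) : ℂ) * t) =
        Complex.exp (Complex.I * ((y j * t : ℝ) : ℂ)) * Complex.exp (-Complex.I * ((y k * t : ℝ) : ℂ)) := by
      rw [← Complex.exp_add]
      congr 1
      push_cast
      ring
    rw [h2, h3]
    ring
  have hint : ((∫ t : ℝ, Real.exp (-(t / T) ^ 2) *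
      ‖∑ j ∈ S, a j * Complex.exp (Complex.I * ((y j * t : ℝ) : ℂ))‖ ^ 2 : ℝ) : ℂ) =
      ∑ j ∈ S, ∑ k ∈ S, a j * (starRingEnd ℂ) (a k) *
        ((Real.sqrt Real.pi * T * Real.exp (-(T * (y j - y k)) ^ 2 / 4) : ℝ) : ℂ) := by
    rw [← integral_complex_ofReal]
    simp_rw [hpt]
    rw [integral_finset_sum]
    · refine Finset.sum_congr rfl fun j _ => ?_
      rw [integral_finset_sum]
      · refine Finset.sum_congr rfl fun k _ => ?_
        rw [integral_const_mul, gauss_integral T (y j - y k) hT0]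
      · intro k _
        exact (gauss_integrable T (y j - y k) hT0).const_mul _
    · intro j _
      refine integrable_finset_sum _ fun k _ => ?_
      exact (gauss_integrable T (y j - y k) hT0).const_mul _
  have hle : ∫ t : ℝ, Real.exp (-(t / T) ^ 2) *
      ‖∑ j ∈ S, a j * Complex.exp (Complex.I * ((y j * t : ℝ) : ℂ))‖ ^ 2 ≤
      Real.sqrt Real.pi * T * ∑ j ∈ S, ∑ k ∈ S, ‖a j‖ * ‖a k‖ * Real.exp (-(T * (y j - y k)) ^ 2 / 4) := by
    refine (le_abs_self _).trans ?_
    rw [← Real.norm_eq_abs, ← Complex.norm_real, hint]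
    refine (norm_sum_le _ _).trans ?_
    rw [Finset.mul_sum]
    refine Finset.sum_le_sum fun j _ => ?_
    refine (norm_sum_le _ _).trans ?_
    rw [Finset.mul_sum]
    refine Finset.sum_le_sum fun k _ => ?_
    rw [norm_mul, norm_mul, RCLike.norm_conj, Complex.norm_real, Real.norm_of_nonneg (by positivity)]
    apply le_of_eq
    ring
  -- step 2: kernel
  have hker : ∀ j ∈ S, ∀ k ∈ S, Real.exp (-(T * (y j - y k)) ^ 2 / 4) ≤
      16 / (1 + ((⌊y j * T⌋ - ⌊y k * T⌋ : ℤ) : ℝ) ^ 2) := by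
    intro j _ k _
    set p := ⌊y j * T⌋
    set q := ⌊y k * T⌋
    have h1 := Int.floor_le (y j * T)
    have h2 := Int.lt_floor_add_one (y j * T)
    have h3 := Int.floor_le (y k * T)
    have h4 := Int.lt_floor_add_one (y k * T)
    set u := T * (y j - y k) with hu
    have hu1 : ((p - q : ℤ) : ℝ) < u + 1 := by push_cast; rw [hu]; (clear * - h1 h4; nlinarith)
    have hu2 : u - 1 < ((p - q : ℤ) : ℝ) := by push_cast; rw [hu]; (clear * - h2 h3; nlinarith)
    set d : ℝ := ((p - q : ℤ) : ℝ) with hd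
    have hexp : Real.exp (-u ^ 2 / 4) ≤ 1 / (1 + u ^ 2 / 4) := by
      rw [show -u ^ 2 / 4 = -(u ^ 2 / 4) by ring, Real.exp_neg, ← one_div]
      refine one_div_le_one_div_of_le (by (clear * -; positivity)) ?_
      (clear * -; linarith [Real.add_one_le_exp (u ^ 2 / 4)])
    refine hexp.trans ?_
    rw [div_le_div_iff₀ (by (clear * -; positivity)) (by positivity)]
    -- 1 + d² ≤ 16 (1 + u²/4) = 16 + 4 u²
    have : d ^ 2 ≤ 2 * u ^ 2 + 2 := by
      have hx : |d - u| ≤ 1 := by rw [abs_le]; constructor <;> (clear * - hu2 hu1; linarith)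
      have hx2 := abs_le.mp hx
      (clear * - hu1 hu2; nlinarith [sq_nonneg (d - 2 * u), sq_nonneg (d - u)])
    (clear * - this; nlinarith)
  have key := partition_bound S (fun j => ‖a j‖) (fun j => ⌊y j * T⌋)
    (fun d => 16 / (1 + (d : ℝ) ^ 2)) W (fun d => by positivity) (fun d => by push_cast; ring_nf)
    (fun F => kernel_bound F)
  have hstep : ∑ j ∈ S, ∑ k ∈ S, ‖a j‖ * ‖a k‖ * Real.exp (-(T * (y j - y k)) ^ 2 / 4) ≤
      W * ∑ j ∈ S, ∑ k ∈ S, if |y j - y k| ≤ 1 / T then ‖a j‖ * ‖a k‖ else 0 := by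
    calc ∑ j ∈ S, ∑ k ∈ S, ‖a j‖ * ‖a k‖ * Real.exp (-(T * (y j - y k)) ^ 2 / 4)
        ≤ ∑ j ∈ S, ∑ k ∈ S, ‖a j‖ * ‖a k‖ * (16 / (1 + ((⌊y j * T⌋ - ⌊y k * T⌋ : ℤ) : ℝ) ^ 2)) :=
          Finset.sum_le_sum fun j hj => Finset.sum_le_sum fun k hk =>
            mul_le_mul_of_nonneg_left (hker j hj k hk) (by positivity)
      _ ≤ W * ∑ j ∈ S, ∑ k ∈ S, (if ⌊y j * T⌋ = ⌊y k * T⌋ then ‖a j‖ * ‖a k‖ else 0) := key
      _ ≤ W * ∑ j ∈ S, ∑ k ∈ S, if |y j - y k| ≤ 1 / T then ‖a j‖ * ‖a k‖ else 0 := by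
          refine mul_le_mul_of_nonneg_left ?_ hW0
          refine Finset.sum_le_sum fun j _ => Finset.sum_le_sum fun k _ => ?_
          by_cases h : ⌊y j * T⌋ = ⌊y k * T⌋
          · have h1 := Int.abs_sub_lt_one_of_floor_eq_floor h
            have h2 : |y j - y k| ≤ 1 / T := by
              rw [← sub_mul, abs_mul, abs_of_pos hT0] at h1
              rw [le_div_iff₀ hT0]
              exact h1.le
            rw [if_pos h, if_pos h2]
          · rw [if_neg h]
            split_ifs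
            · positivity
            · exact le_refl 0
  have hD0 : 0 ≤ ∑ j ∈ S, ∑ k ∈ S, if |y j - y k| ≤ 1 / T then ‖a j‖ * ‖a k‖ else 0 := by
    refine Finset.sum_nonneg fun j _ => Finset.sum_nonneg fun k _ => ?_
    split_ifs
    · positivity
    · exact le_refl 0
  refine hle.trans ?_
  have hpi := Real.sqrt_nonneg Real.pi
  calc Real.sqrt Real.pi * T * ∑ j ∈ S, ∑ k ∈ S, ‖a j‖ * ‖a k‖ * Real.exp (-(T * (y j - y k)) ^ 2 / 4)
      ≤ Real.sqrt Real.pi * T * (W * ∑ j ∈ S, ∑ k ∈ S, if |y j - y k| ≤ 1 / T then ‖a j‖ * ‖a k‖ else 0) :=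
        mul_le_mul_of_nonneg_left hstep (by positivity)
    _ ≤ Real.sqrt Real.pi * T * ((W + 1) * ∑ j ∈ S, ∑ k ∈ S, if |y j - y k| ≤ 1 / T then ‖a j‖ * ‖a k‖ else 0) := by
        refine mul_le_mul_of_nonneg_left ?_ (by positivity)
        (clear * - hD0; nlinarith)
    _ = _ := by ring

end Pool.Agent.M20.Helper65.KC
end

/- Helper53.KN.Helper60.KX.Expand -/
section
/-! Project KS, task 1705: Expand. -/

set_option autoImplicit false
open scoped Classical
open Finset

namespace Pool.Agent.M20.Helper60.KX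

open Pool.Agent.M20.Helper16.KS Pool.Agent.M20.Helper33.KS

lemma CM_mul (g : ℕ → ℝ) {m n : ℕ} (hm : m ≠ 0) (hn : n ≠ 0) : CM g (m * n) = CM g m * CM g n := by
  unfold CM
  rw [((Nat.perm_primeFactorsList_mul hm hn).map g).prod_eq, List.map_append, List.prod_append]

lemma CM_prime (g : ℕ → ℝ) {p : ℕ} (hp : p.Prime) : CM g p = g p := by
  unfold CM
  rw [Nat.primeFactorsList_prime hp]; simp

lemma CM_one (g : ℕ → ℝ) : CM g 1 = 1 := by
  unfold CM; simp

lemma CM_eq (g : ℕ → ℝ) (n : ℕ) : n ≠ 0 → CM g n = cm g n := by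
  induction n using Nat.recOnMul with
  | zero => intro h; exact absurd rfl h
  | one => intro _; rw [CM_one]; simp
  | prime p hp => intro _; rw [CM_prime g hp, cm_prime g hp]
  | mul m n hm hn =>
    intro h
    have hm0 : m ≠ 0 := fun h' => h (by simp [h'])
    have hn0 : n ≠ 0 := fun h' => h (by simp [h'])
    rw [CM_mul g hm0 hn0, hm hm0, hn hn0, map_mul]

lemma CM_nonneg {g : ℕ → ℝ} (hg : ∀ p, p.Prime → 0 ≤ g p) {n : ℕ} (hn : n ≠ 0) : 0 ≤ CM g n := by
  rw [CM_eq g n hn]; exact cm_nonneg hg n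

lemma CM_mono {g h : ℕ → ℝ} {n : ℕ} (hn : n ≠ 0) (hg : ∀ p, p.Prime → p ∣ n → 0 ≤ g p)
    (hgh : ∀ p, p.Prime → p ∣ n → g p ≤ h p) : CM g n ≤ CM h n := by
  rw [CM_eq g n hn, CM_eq h n hn]; exact cm_mono hg hgh

section nonneg

variable (S : Sys)

lemma base_nonneg (m : ℕ) : 0 ≤ S.base m := by unfold Sys.base; (clear * -; positivity)
lemma pr_nonneg (m : ℕ) : 0 ≤ S.pr m := by unfold Sys.pr; positivity
lemma G_nonneg (k : ℕ) : 0 ≤ S.G k := by unfold Sys.G; (clear * -; positivity)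
lemma NN_nonneg (R : Set ℕ) (k j : ℕ) : 0 ≤ S.NN R k j := by
  unfold Sys.NN
  exact sum_nonneg fun x _ => by have := pr_nonneg S x.2; positivity
lemma wo_nonneg (R : Set ℕ) (k j m : ℕ) : 0 ≤ S.wo R k j m := by
  unfold Sys.wo
  have h1 := G_nonneg S k
  have h2 := NN_nonneg S R k j
  have h3 := pr_nonneg S m
  have h4 := base_nonneg S m
  positivity
lemma cw_nonneg (R : Set ℕ) (k j q : ℕ) : 0 ≤ S.cw R k j q := by
  unfold Sys.cw
  exact sum_nonneg fun x _ => wo_nonneg S R k j x.2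
lemma ctl_nonneg (k0 k1 : ℕ) (R : Set ℕ) (q : ℕ) : 0 ≤ S.ctl k0 k1 R q := by
  unfold Sys.ctl
  exact sum_nonneg fun k _ => sum_nonneg fun j _ => cw_nonneg S R k j q
lemma bR_nonneg (R : Set ℕ) (p : ℕ) : 0 ≤ S.bR R p := by
  unfold Sys.bR
  split_ifs
  · exact base_nonneg S p
  · exact le_rfl
lemma phi0_nonneg (k0 : ℕ) : 0 ≤ S.phi0 k0 := by unfold Sys.phi0; positivity
lemma ordw_nonneg (k0 p : ℕ) : 0 ≤ S.ordw k0 p := by
  unfold Sys.ordw
  split_ifs
  · exact le_rfl
  · exact phi0_nonneg S k0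
  · exact le_rfl
  · have := G_nonneg S (Nat.log 2 p)
    (clear * - this; positivity)
lemma Wp_nonneg (k0 : ℕ) (R : Set ℕ) (p : ℕ) : 0 ≤ S.Wp k0 R p := by
  unfold Sys.Wp
  have h1 := bR_nonneg S R p
  have h2 := ordw_nonneg S k0 p
  have h3 := ctl_nonneg S k0 (top p) R p
  positivity
lemma Wl_nonneg (k0 : ℕ) (R : Set ℕ) (k p : ℕ) : 0 ≤ S.Wl k0 R k p := by
  unfold Sys.Wl
  have h1 := bR_nonneg S R p
  have h2 := ordw_nonneg S k0 p
  have h3 := ctl_nonneg S k0 (min (top p) ⌈S.kap * k⌉₊) R p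
  (clear * - h1 h2 h3; positivity)
lemma W_nonneg (k0 : ℕ) (R : Set ℕ) {n : ℕ} (hn : n ≠ 0) : 0 ≤ S.W k0 R n :=
  CM_nonneg (fun p _ => Wp_nonneg S k0 R p) hn

end nonneg

lemma cell_bounds {d : ℝ} (hd : 0 < d) {k j n : ℕ} (hj : j < nc d k) (hn : n ∈ cell d k j) :
    2 ^ k ≤ n ∧ n < 2 ^ (k + 1) := by
  unfold cell at hn
  unfold nc at hj
  rw [mem_Ico] at hn
  have he : ec d k ≤ k := by
    unfold ec
    apply Nat.floor_le_of_le
    have : (0:ℝ) ≤ k := k.cast_nonneg
    (clear * - hd; nlinarith)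
  have h1 : (j + 1) * 2 ^ ec d k ≤ 2 ^ (k - ec d k) * 2 ^ ec d k := Nat.mul_le_mul_right _ hj
  rw [← pow_add, Nat.sub_add_cancel he] at h1
  rw [pow_succ]
  constructor
  · exact le_trans (Nat.le_add_right _ _) hn.1
  · omega

/-- splitting of the four cases -/
lemma four_cases {ι : Type} (T : Finset ι) (f : ι → ℝ) (P B1 B2 B3 B4 : ι → Prop) [DecidablePred P]
    [DecidablePred B1] [DecidablePred B2] [DecidablePred B3] [DecidablePred B4] (hf : ∀ x ∈ T, 0 ≤ f x)
    (h : ∀ x ∈ T, P x → B1 x ∨ B2 x ∨ B3 x ∨ B4 x) :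
    ∑ x ∈ T.filter P, f x ≤ ∑ x ∈ T.filter B1, f x + ∑ x ∈ T.filter B2, f x +
      ∑ x ∈ T.filter B3, f x + ∑ x ∈ T.filter B4, f x := by
  simp only [sum_filter]
  rw [← sum_add_distrib, ← sum_add_distrib, ← sum_add_distrib]
  apply sum_le_sum
  intro x hx
  have h0 := hf x hx
  have n1 : 0 ≤ (if B1 x then f x else 0) := by split_ifs <;> [exact h0; exact le_rfl]
  have n2 : 0 ≤ (if B2 x then f x else 0) := by split_ifs <;> [exact h0; exact le_rfl]
  have n3 : 0 ≤ (if B3 x then f x else 0) := by split_ifs <;> [exact h0; exact le_rfl]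
  have n4 : 0 ≤ (if B4 x then f x else 0) := by split_ifs <;> [exact h0; exact le_rfl]
  by_cases hP : P x
  · rw [if_pos hP]
    rcases h x hx hP with h | h | h | h
    · rw [if_pos h] at n1 ⊢; (clear * - n2 n3 n4; linarith)
    · rw [if_pos h] at n2 ⊢; (clear * - n1 n3 n4; linarith)
    · rw [if_pos h] at n3 ⊢; linarith
    · rw [if_pos h] at n4 ⊢; linarith
  · rw [if_neg hP]; linarith

/-- (EXPAND) -/
theorem expand : Expand := by
  intro S
  refine ⟨S.K, fun k0 hk0 R _hR k hk j hj => ?_⟩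
  have hkK : S.K ≤ k := le_trans hk0 hk
  -- pointwise
  set t : ℕ → ℕ × ℕ → ℕ × ℕ → ℝ := fun n i x =>
    (n.factorization x.1 : ℝ) * (2 * S.wo R i.1 i.2 x.2 * S.W k0 R (n / x.1)) with ht
  have hpt : ∀ n ∈ cell S.d k j, S.W k0 R n ≤ CM (S.Wl k0 R k) n +
      ∑ k' ∈ S.hvy k0 k, ∑ j' ∈ S.badc k',
        (∑ x ∈ (S.act R k' j').filter (fun x => x.1 ∣ n ∧ Sys.Q1 (k', j') n x), t n (k', j') x +
        ∑ x ∈ (S.act R k' j').filter (fun x => x.1 ∣ n ∧ S.Q2 (k', j') n x), t n (k', j') x +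
        ∑ x ∈ (S.act R k' j').filter (fun x => x.1 ∣ n ∧ S.Q3 (k', j') n x), t n (k', j') x +
        ∑ x ∈ (S.act R k' j').filter (fun x => x.1 ∣ n ∧ Sys.Q4 (k', j') n x), t n (k', j') x) := by
    intro n hn
    obtain ⟨hn1, hn2⟩ := cell_bounds S.d_pos hj hn
    have hn0 : n ≠ 0 := by
      have : 0 < 2 ^ k := by positivity
      omega
    set Gh : ℕ → ℝ := fun p => 2 * (S.ctl k0 (top p) R p - S.ctl k0 (min (top p) ⌈S.kap * k⌉₊) R p) with hGh
    have hGh0 : ∀ p, p.Prime → 0 ≤ Gh p := by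
      intro p _
      have : S.ctl k0 (min (top p) ⌈S.kap * k⌉₊) R p ≤ S.ctl k0 (top p) R p := by
        unfold Sys.ctl
        apply sum_le_sum_of_subset_of_nonneg
        · exact Ico_subset_Ico_right (min_le_left _ _)
        · intro i _ _
          exact sum_nonneg fun j _ => cw_nonneg S R i j p
      simp only [hGh]
      (clear * - this; linarith)
    have hsum : S.Wp k0 R = fun p => S.Wl k0 R k p + Gh p := by
      funext p
      simp only [hGh, Sys.Wp, Sys.Wl]
      ring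
    have h1 := cm_tele (F := S.Wl k0 R k) (G := Gh) (fun p _ => Wl_nonneg S k0 R k p) hGh0 n hn0
    rw [← hsum, ← CM_eq _ n hn0, ← CM_eq _ n hn0] at h1
    refine h1.trans ?_
    apply add_le_add_right
    have h2 : ∀ p ∈ n.primeFactors, (n.factorization p : ℝ) * (Gh p * cm (S.Wp k0 R) (n / p)) ≤
        ∑ k' ∈ S.hvy k0 k, ∑ j' ∈ S.badc k', ∑ x ∈ (S.act R k' j').filter (fun x => x.1 = p), t n (k', j') x := by
      intro p hp
      have hpp := Nat.prime_of_mem_primeFactors hp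
      have hpn := Nat.dvd_of_mem_primeFactors hp
      have hnp : n / p ≠ 0 := by
        have := Nat.div_pos (Nat.le_of_dvd (Nat.pos_of_ne_zero hn0) hpn) hpp.pos
        omega
      have htop : top p ≤ 3 * (k + 1) := by
        unfold top
        have h3 : p < 2 ^ (k + 1) := lt_of_le_of_lt (Nat.le_of_dvd (Nat.pos_of_ne_zero hn0) hpn) hn2
        have h4 : Nat.log 2 p < k + 1 := Nat.log_lt_of_lt_pow hpp.ne_zero h3
        omega
      have hGle : Gh p ≤ 2 * ∑ k' ∈ S.hvy k0 k, ∑ j' ∈ S.badc k', S.cw R k' j' p := by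
        have h3 : S.ctl k0 (top p) R p ≤ S.ctl k0 (min (top p) ⌈S.kap * k⌉₊) R p +
            ∑ k' ∈ S.hvy k0 k, ∑ j' ∈ S.badc k', S.cw R k' j' p := by
          unfold Sys.ctl
          have hdis : Disjoint (Ico k0 (min (top p) ⌈S.kap * k⌉₊)) (S.hvy k0 k) := by
            rw [disjoint_left]
            intro a ha hb
            unfold Sys.hvy at hb
            rw [mem_Ico] at ha hb
            have h5 := lt_min_iff.mp ha.2
            have h6 := max_le_iff.mp hb.1
            omega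
          rw [← sum_union hdis]
          apply sum_le_sum_of_subset_of_nonneg
          · intro a ha
            rw [mem_Ico] at ha
            rw [mem_union, mem_Ico]
            by_cases h5 : a < ⌈S.kap * k⌉₊
            · left; exact ⟨ha.1, lt_min ha.2 h5⟩
            · right
              unfold Sys.hvy
              rw [mem_Ico]
              exact ⟨max_le ha.1 (not_lt.mp h5), lt_of_lt_of_le ha.2 htop⟩
          · intro i _ _
            exact sum_nonneg fun j _ => cw_nonneg S R i j p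
        simp only [hGh]
        (clear * - h3; linarith)
      have hW0 : 0 ≤ S.W k0 R (n / p) := W_nonneg S k0 R hnp
      have hWeq : cm (S.Wp k0 R) (n / p) = S.W k0 R (n / p) := (CM_eq _ _ hnp).symm
      rw [hWeq]
      calc (n.factorization p : ℝ) * (Gh p * S.W k0 R (n / p)) ≤
          (n.factorization p : ℝ) * ((2 * ∑ k' ∈ S.hvy k0 k, ∑ j' ∈ S.badc k', S.cw R k' j' p) *
            S.W k0 R (n / p)) := by
            (clear * - hGle hW0; gcongr)
        _ = ∑ k' ∈ S.hvy k0 k, ∑ j' ∈ S.badc k', ∑ x ∈ (S.act R k' j').filter (fun x => x.1 = p),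
            t n (k', j') x := by
            rw [mul_sum, sum_mul, mul_sum]
            refine sum_congr rfl fun k' _ => ?_
            rw [mul_sum, sum_mul, mul_sum]
            refine sum_congr rfl fun j' _ => ?_
            unfold Sys.cw
            rw [mul_sum, sum_mul, mul_sum]
            refine sum_congr rfl fun x hx => ?_
            have hxp : x.1 = p := (mem_filter.mp hx).2
            simp only [ht]
            rw [hxp]
    refine (sum_le_sum h2).trans ?_
    rw [sum_comm]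
    apply sum_le_sum
    intro k' hk'
    rw [sum_comm]
    apply sum_le_sum
    intro j' hj'
    -- fibrewise
    have h3 : ∑ p ∈ n.primeFactors, ∑ x ∈ (S.act R k' j').filter (fun x => x.1 = p), t n (k', j') x =
        ∑ x ∈ (S.act R k' j').filter (fun x => x.1 ∈ n.primeFactors), t n (k', j') x := by
      rw [← sum_fiberwise_of_maps_to (s := (S.act R k' j').filter (fun x => x.1 ∈ n.primeFactors))
        (t := n.primeFactors) (g := fun x => x.1) (fun x hx => (mem_filter.mp hx).2)]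
      refine sum_congr rfl fun p hp => ?_
      congr 1
      ext x
      simp only [mem_filter]
      constructor
      · rintro ⟨a, b⟩
        exact ⟨⟨a, by rw [b]; exact hp⟩, b⟩
      · rintro ⟨⟨a, _⟩, b⟩
        exact ⟨a, b⟩
    rw [h3]
    apply four_cases
    · intro x hx
      by_cases hx1 : x.1 ∣ n
      · have hnx : n / x.1 ≠ 0 := by
          have hx0 : 0 < x.1 := Nat.pos_of_dvd_of_pos hx1 (Nat.pos_of_ne_zero hn0)
          have := Nat.div_pos (Nat.le_of_dvd (Nat.pos_of_ne_zero hn0) hx1) hx0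
          omega
        have h4 := wo_nonneg S R k' j' x.2
        have h5 := W_nonneg S k0 R hnx
        simp only [ht]
        (clear * - h4 h5; positivity)
      · have : n.factorization x.1 = 0 := Nat.factorization_eq_zero_of_not_dvd hx1
        simp only [ht]
        rw [this]; simp
    · intro x hx hxn
      have hx1 : x.1 ∣ n := Nat.dvd_of_mem_primeFactors hxn
      have hx0 : 0 < x.1 := Nat.pos_of_dvd_of_pos hx1 (Nat.pos_of_ne_zero hn0)
      by_cases hd2 : x.2 ∣ n / x.1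
      · by_cases hQ2 : (2 : ℝ) ^ ((S.u (S.cls k' j') + S.c) * k') ≤ ((n / x.1 / x.2 : ℕ) : ℝ)
        · right; left; exact ⟨hx1, hd2, hQ2⟩
        · by_cases hQ3 : 1 < n / x.1 / x.2
          · right; right; left; exact ⟨hx1, hd2, hQ3, not_le.mp hQ2⟩
          · right; right; right
            refine ⟨hx1, ?_⟩
            unfold Sys.Q4
            have hnx : 0 < n / x.1 := Nat.div_pos (Nat.le_of_dvd (Nat.pos_of_ne_zero hn0) hx1) hx0
            have hx20 : 0 < x.2 := Nat.pos_of_dvd_of_pos hd2 hnx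
            have h5 : 0 < n / x.1 / x.2 := Nat.div_pos (Nat.le_of_dvd hnx hd2) hx20
            have h6 : n / x.1 / x.2 = 1 := by omega
            have h7 : n / x.1 = x.2 := by
              have := Nat.div_mul_cancel hd2
              rw [h6, one_mul] at this
              exact this.symm
            have h8 := Nat.div_mul_cancel hx1
            rw [h7, mul_comm] at h8
            exact h8.symm
      · left; exact ⟨hx1, hd2⟩
  refine (sum_le_sum hpt).trans (le_of_eq ?_)
  unfold Sys.HT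
  rw [sum_add_distrib]
  congr 1
  rw [← sum_add_distrib, ← sum_add_distrib, ← sum_add_distrib]
  refine sum_congr rfl fun n _ => ?_
  rw [← sum_add_distrib, ← sum_add_distrib, ← sum_add_distrib]
  refine sum_congr rfl fun k' _ => ?_
  rw [← sum_add_distrib, ← sum_add_distrib, ← sum_add_distrib]

end Pool.Agent.M20.Helper60.KX
end

/- Helper53.KN.Helper60.KX.H12 -/
section
/-! Project KS, task 1705: H12. -/

set_option autoImplicit false
open scoped Classical
open Finset Filter Topology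

namespace Pool.Agent.M20.Helper60.KX

open Pool.Agent.M20.Helper16.KS Pool.Agent.M20.Helper33.KS

lemma ev_lin (A a : ℝ) (ha : 0 < a) : ∃ K : ℕ, ∀ k : ℕ, K ≤ k → A * ((k : ℝ) + 1) ≤ (2 : ℝ) ^ (a * k) := by
  have h1 : 1 < (2 : ℝ) ^ a := Real.one_lt_rpow (by norm_num) ha
  have h2 := (tendsto_pow_const_div_const_pow_of_one_lt 1 h1).const_mul (2 * |A|)
  rw [mul_zero] at h2
  have h4 := h2.eventually (gt_mem_nhds (show (0 : ℝ) < 1 by norm_num))
  obtain ⟨K, hK⟩ := eventually_atTop.mp h4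
  refine ⟨max K 1, fun k hk => ?_⟩
  have hk1 : (1:ℝ) ≤ k := by exact_mod_cast (le_max_right _ _).trans hk
  have h5 := (hK k ((le_max_left _ _).trans hk)).le
  have h6 : (0 : ℝ) < ((2 : ℝ) ^ a) ^ k := by positivity
  rw [← mul_div_assoc, div_le_one h6, pow_one] at h5
  rw [Real.rpow_mul (by norm_num), Real.rpow_natCast]
  refine le_trans ?_ h5
  have h7 := le_abs_self A
  have h8 := abs_nonneg A
  nlinarith

lemma fact_le {n k : ℕ} (hn : n ≠ 0) (h : n < 2 ^ (k + 1)) (p : ℕ) : n.factorization p ≤ k := by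
  by_cases hp : p.Prime
  · have h1 : p ^ n.factorization p ≤ n := Nat.ordProj_le p hn
    have h2 : 2 ^ n.factorization p ≤ p ^ n.factorization p := Nat.pow_le_pow_left hp.two_le _
    have h3 : 2 ^ n.factorization p < 2 ^ (k + 1) := lt_of_le_of_lt (h2.trans h1) h
    have := (Nat.pow_lt_pow_iff_right (by norm_num : 1 < 2)).mp h3
    omega
  · rw [Nat.factorization_eq_zero_of_not_prime _ hp]; omega

lemma ep_pos (S : Sys) : 0 < S.ep := by
  have h1 := S.d_pos
  have h2 := S.d_le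
  have h3 := S.c_le
  have hc : 0 < S.c := by
    by_contra hcon
    push Not at hcon
    have : S.c / 10 ^ 5 ≤ 0 := div_nonpos_of_nonpos_of_nonneg hcon (by positivity)
    linarith
  have he : 0 < S.eta := by linarith
  unfold Sys.ep
  positivity

lemma tau_pos (S : Sys) : 0 < S.tau := by
  have := ep_pos S
  unfold Sys.tau
  positivity

lemma wd_nonneg (S : Sys) (k m : ℕ) : 0 ≤ S.wd k m := by unfold Sys.wd; positivity

lemma HT_le_HP (S : Sys) (k0 : ℕ) (R : Set ℕ) (k j : ℕ) (Q : ℕ × ℕ → ℕ → ℕ × ℕ → Prop) (hj : j < nc S.d k)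
    (hk : k0 ≤ k) (hSK : S.K ≤ k0) (hk01 : 1 ≤ k0)
    (hwo : ∀ k, k0 ≤ k → ∀ j ∈ S.badc k, ∀ m : ℕ, 1 ≤ m →
      0 ≤ S.wo R k j m ∧ S.wo R k j m ≤ (2 / S.c1) / (k : ℝ) ^ 2 * S.wd k m)
    (hwp : ∀ p : ℕ, p.Prime → 0 ≤ S.Wp k0 R p ∧ S.Wp k0 R p ≤ S.Fh k0 R p) :
    S.HT k0 R k j Q ≤ (4 / S.c1) * ((k : ℝ) + 1) * S.HP k0 R k j Q := by
  have hc1 := S.c1_pos
  unfold Sys.HT Sys.HP
  rw [mul_sum]
  apply sum_le_sum
  intro n hn
  obtain ⟨hn1, hn2⟩ := cell_bounds S.d_pos hj hn
  have hn0 : n ≠ 0 := by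
    have : 0 < 2 ^ k := by positivity
    omega
  rw [mul_sum]
  apply sum_le_sum
  intro k' hk'
  have hk'0 : k0 ≤ k' := by
    unfold Sys.hvy at hk'
    rw [mem_Ico] at hk'
    exact (max_le_iff.mp hk'.1).1
  rw [mul_sum]
  apply sum_le_sum
  intro j' hj'
  rw [mul_sum]
  apply sum_le_sum
  intro x hx
  rw [mem_filter] at hx
  obtain ⟨hxa, hxn, hQ⟩ := hx
  have hxc : x ∈ S.Cand k' j' := (mem_filter.mp hxa).1
  have hjb := mem_filter.mp hj'
  have hcand := S.cand k' (hSK.trans hk'0) j' (mem_range.mp hjb.1) hjb.2 x hxc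
  have hx2 : 1 < x.2 := hcand.2.2.2.1
  obtain ⟨hw0, hw1⟩ := hwo k' hk'0 j' hj' x.2 hx2.le
  have hx0 : 0 < x.1 := hcand.1.pos
  have hnx : n / x.1 ≠ 0 := by
    have := Nat.div_pos (Nat.le_of_dvd (Nat.pos_of_ne_zero hn0) hxn) hx0
    omega
  have hW : S.W k0 R (n / x.1) ≤ CM (S.Fh k0 R) (n / x.1) :=
    CM_mono hnx (fun p hp _ => (hwp p hp).1) (fun p hp _ => (hwp p hp).2)
  have hW0 := W_nonneg S k0 R hnx
  have hCM0 : 0 ≤ CM (S.Fh k0 R) (n / x.1) := hW0.trans hW
  have hf : (n.factorization x.1 : ℝ) ≤ k + 1 := by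
    have := fact_le hn0 hn2 x.1
    have h1 : (n.factorization x.1 : ℝ) ≤ k := by exact_mod_cast this
    linarith
  have hk'1 : (1:ℝ) ≤ k' := by exact_mod_cast hk01.trans hk'0
  have hwd := wd_nonneg S k' x.2
  have hw2 : S.wo R k' j' x.2 ≤ 2 / S.c1 * S.wd k' x.2 := by
    refine hw1.trans ?_
    apply mul_le_mul_of_nonneg_right _ hwd
    apply div_le_self (by positivity)
    nlinarith
  calc (n.factorization x.1 : ℝ) * (2 * S.wo R k' j' x.2 * S.W k0 R (n / x.1)) ≤
      ((k : ℝ) + 1) * (2 * (2 / S.c1 * S.wd k' x.2) * CM (S.Fh k0 R) (n / x.1)) := by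
        gcongr
    _ = 4 / S.c1 * ((k : ℝ) + 1) * (S.wd k' x.2 * CM (S.Fh k0 R) (n / x.1)) := by ring

/-- (H12) -/
theorem h12 (h1 : WoLe) (h2 : WpLe) : H12 := by
  intro S
  obtain ⟨K1, h1⟩ := h1 S
  obtain ⟨K2, h2⟩ := h2 S
  have hep := ep_pos S
  have hc1 := S.c1_pos
  obtain ⟨K3, hK3⟩ := ev_lin (4 / S.c1 * 40) (S.ep / 100) (by positivity)
  refine ⟨max (max K1 K2) (max (max K3 S.K) 1), fun k0 hk0 R hR k hk j hj => ?_⟩
  have a1 : K1 ≤ k0 := le_trans (le_trans (le_max_left _ _) (le_max_left _ _)) hk0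
  have a2 : K2 ≤ k0 := le_trans (le_trans (le_max_right _ _) (le_max_left _ _)) hk0
  have a3 : K3 ≤ k0 := le_trans (le_trans (le_trans (le_max_left _ _) (le_max_left _ _)) (le_max_right _ _)) hk0
  have a4 : S.K ≤ k0 := le_trans (le_trans (le_trans (le_max_right _ _) (le_max_left _ _)) (le_max_right _ _)) hk0
  have a5 : 1 ≤ k0 := le_trans (le_trans (le_max_right _ _) (le_max_right _ _)) hk0
  have hG := G_nonneg S k
  have hkey := hK3 k (a3.trans hk)
  have hb : ∀ Q : ℕ × ℕ → ℕ → ℕ × ℕ → Prop,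
      S.HP k0 R k j Q ≤ (2 : ℝ) ^ (-(S.ep / 100) * k) * S.G k → S.HT k0 R k j Q ≤ S.G k / 40 := by
    intro Q hQ
    refine (HT_le_HP S k0 R k j Q hj hk a4 a5 (h1 k0 a1 R hR) (h2 k0 a2 R hR)).trans ?_
    have h3 : (2 : ℝ) ^ (S.ep / 100 * k) * (2 : ℝ) ^ (-(S.ep / 100) * k) = 1 := by
      rw [← Real.rpow_add (by norm_num)]
      have : S.ep / 100 * (k:ℝ) + -(S.ep / 100) * k = 0 := by ring
      rw [this, Real.rpow_zero]
    have h4 : (0:ℝ) < (2 : ℝ) ^ (-(S.ep / 100) * k) := by positivity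
    have hk1 : (0:ℝ) ≤ (k:ℝ) + 1 := by positivity
    calc 4 / S.c1 * ((k : ℝ) + 1) * S.HP k0 R k j Q ≤
        4 / S.c1 * ((k : ℝ) + 1) * ((2 : ℝ) ^ (-(S.ep / 100) * k) * S.G k) := by gcongr
      _ = 1 / 40 * ((4 / S.c1 * 40 * ((k : ℝ) + 1)) * (2 : ℝ) ^ (-(S.ep / 100) * k)) * S.G k := by ring
      _ ≤ 1 / 40 * ((2 : ℝ) ^ (S.ep / 100 * k) * (2 : ℝ) ^ (-(S.ep / 100) * k)) * S.G k := by gcongr
      _ = S.G k / 40 := by rw [h3]; ring
  have b1 := hb Sys.Q1 (hR.heavy1 k hk j hj)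
  have b2 := hb S.Q2 (hR.heavy2 k hk j hj)
  linarith

end Pool.Agent.M20.Helper60.KX
end

/- Helper53.KN.Helper60.KX.H4 -/
section
/-! Project KS, task 1705: H4 (own terms). -/

set_option autoImplicit false
open scoped Classical
open Finset Filter Topology

namespace Pool.Agent.M20.Helper60.KX

open Pool.Agent.M20.Helper16.KS Pool.Agent.M20.Helper33.KS

lemma cell_inj {d : ℝ} (hd : 0 < d) {k j k' j' n : ℕ} (hj : j < nc d k) (hj' : j' < nc d k')
    (hn : n ∈ cell d k j) (hn' : n ∈ cell d k' j') : k' = k ∧ j' = j := by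
  obtain ⟨a1, a2⟩ := cell_bounds hd hj hn
  obtain ⟨b1, b2⟩ := cell_bounds hd hj' hn'
  have hk : k' = k := by
    have h1 : 2 ^ k < 2 ^ (k' + 1) := lt_of_le_of_lt a1 b2
    have h2 : 2 ^ k' < 2 ^ (k + 1) := lt_of_le_of_lt b1 a2
    have h3 := (Nat.pow_lt_pow_iff_right (by norm_num : 1 < 2)).mp h1
    have h4 := (Nat.pow_lt_pow_iff_right (by norm_num : 1 < 2)).mp h2
    omega
  subst hk
  refine ⟨rfl, ?_⟩
  unfold cell at hn hn'
  rw [mem_Ico] at hn hn'
  rcases lt_trichotomy j' j with h | h | h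
  · have : (j' + 1) * 2 ^ ec d k' ≤ j * 2 ^ ec d k' := Nat.mul_le_mul_right _ h
    omega
  · exact h
  · have : (j + 1) * 2 ^ ec d k' ≤ j' * 2 ^ ec d k' := Nat.mul_le_mul_right _ h
    omega

lemma small_params (S : Sys) : S.s ≤ 1 / 10 ^ 6 ∧ 0 < S.s ∧ 5 * S.tau ≤ 1 / 10 ^ 6 ∧ 0 < S.c ∧ S.c ≤ 1 / 100 ∧
    0 < S.eta ∧ S.d ≤ 1 / 10 ^ 6 ∧ S.del ≤ 0.06 := by
  have h1 := S.d_pos
  have h2 := S.d_le
  have h3 := S.c_le
  have h4 := S.eta_le
  have h5 := S.del_le
  have hc : 0 < S.c := by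
    by_contra hcon
    push Not at hcon
    have : S.c / 10 ^ 5 ≤ 0 := div_nonpos_of_nonpos_of_nonneg hcon (by positivity)
    (clear * - h1 h2 hcon; linarith)
  have he : 0 < S.eta := by (clear * - h1 h2 h3; linarith)
  have hc1 : S.c ≤ 1 / 100 := by linarith
  have hd1 : S.d ≤ 1 / 10 ^ 6 := by
    refine h2.trans ?_
    rw [div_le_div_iff₀ (by positivity) (by positivity)]
    (clear * - h1 h2 h3 h4 h5; linarith)
  refine ⟨?_, ?_, ?_, hc, hc1, he, hd1, by (clear * - h5; linarith)⟩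
  · unfold Sys.s; (clear * - h1 h2 h3 h4 h5; linarith)
  · unfold Sys.s; (clear * - h1; linarith)
  · unfold Sys.tau Sys.ep
    have e1 : S.c * S.eta ≤ 1 := by (clear * - h2 h3 h4 h5 h1; nlinarith)
    have e2 : S.c * S.eta * S.d ≤ 1 * (1 / 10 ^ 6) := by
      apply mul_le_mul e1 hd1 h1.le (by norm_num)
    linarith

/-- number of prime factors -/
lemma omega_le {m k : ℕ} (hm : m ≠ 0) (hk : 10 ≤ k) (hlt : m < 2 ^ (k + 1))
    (hp : ∀ p : ℕ, p.Prime → p ∣ m → (2 : ℝ) ^ ((k : ℝ) / 5) ≤ p) : m.primeFactorsList.length ≤ 5 := by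
  have h1 : cm (fun _ => (2 : ℝ) ^ ((k : ℝ) / 5)) m ≤ cm (fun p => (p : ℝ) ^ (1 : ℝ)) m := by
    apply cm_mono
    · intro p _ _; positivity
    · intro p hp1 hp2
      rw [Real.rpow_one]; exact hp p hp1 hp2
  rw [cm_const _ hm, cm_rpow _ hm, Real.rpow_one] at h1
  have h2 : (m : ℝ) < 2 ^ (k + 1) := by exact_mod_cast hlt
  have h3 : (2 : ℝ) ^ ((k : ℝ) / 5 * m.primeFactorsList.length) < (2 : ℝ) ^ ((k : ℝ) + 1) := by
    rw [Real.rpow_mul (by norm_num), Real.rpow_natCast, Real.rpow_add (by norm_num), Real.rpow_one,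
      Real.rpow_natCast, ← pow_succ]
    exact lt_of_le_of_lt h1 h2
  rw [Real.rpow_lt_rpow_left_iff (by norm_num)] at h3
  have hkr : (10 : ℝ) ≤ k := by exact_mod_cast hk
  by_contra hcon
  push Not at hcon
  have h4 : (6 : ℝ) ≤ m.primeFactorsList.length := by exact_mod_cast hcon
  (clear * - h3 hkr h4; nlinarith)

/-- `W(m)` for products of elements of `R` -/
lemma W_le_base {S : Sys} {k0 k : ℕ} {R : Set ℕ} {m : ℕ} (hm : m ≠ 0) (hk : 10 ≤ k) (hlt : m < 2 ^ (k + 1))
    (hp : ∀ p : ℕ, p.Prime → p ∣ m → (2 : ℝ) ^ ((k : ℝ) / 5) ≤ p)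
    (hW : ∀ p : ℕ, p.Prime → p ∣ m → S.Wp k0 R p ≤ 1.001 * S.base p) :
    S.W k0 R m ≤ 1.01 * S.base m := by
  unfold Sys.W
  rw [CM_eq _ m hm]
  have h1 : cm (S.Wp k0 R) m ≤ cm (fun p => 1.001 * S.base p) m :=
    cm_mono (fun p _ _ => Wp_nonneg S k0 R p) hW
  refine h1.trans ?_
  rw [cm_mul_fun, cm_const _ hm]
  have h2 : cm (fun p => S.base p) m = S.base m := by
    unfold Sys.base
    exact cm_rpow _ hm
  rw [h2]
  apply mul_le_mul_of_nonneg_right _ (base_nonneg S m)
  have h3 := omega_le hm hk hlt hp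
  calc (1.001 : ℝ) ^ m.primeFactorsList.length ≤ 1.001 ^ 5 := pow_le_pow_right₀ (by norm_num) h3
    _ ≤ 1.01 := by norm_num

lemma prime_large {S : Sys} {k j : ℕ} {p : ℕ} (hp : p.Prime)
    (h : (2 : ℝ) ^ ((S.u (S.cls k j) + S.c) * k) ≤ (p : ℝ) ^ (1/2 - S.del)) :
    (2 : ℝ) ^ ((k : ℝ) / 5) ≤ p := by
  obtain ⟨-, -, -, hc, -, -, -, hdel⟩ := small_params S
  have hu := S.u_ge (S.cls k j)
  have hdel0 : 0 ≤ S.del := by
    have := S.eta_le; have := (small_params S).2.2.2.2.2.1; linarith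
  have hp1 : (1 : ℝ) ≤ p := by exact_mod_cast hp.one_lt.le
  have hk0 : (0:ℝ) ≤ k := k.cast_nonneg
  have h1 : (p : ℝ) ^ (1/2 - S.del) ≤ (p : ℝ) ^ (1/2 : ℝ) :=
    Real.rpow_le_rpow_of_exponent_le hp1 (by (clear * - hdel0; linarith))
  have h2 : (2 : ℝ) ^ ((k : ℝ) / 10) ≤ (2 : ℝ) ^ ((S.u (S.cls k j) + S.c) * k) := by
    apply Real.rpow_le_rpow_of_exponent_le (by norm_num)
    (clear * - hc hu; nlinarith)
  have h3 : (2 : ℝ) ^ ((k : ℝ) / 10) ≤ (p : ℝ) ^ (1/2 : ℝ) := h2.trans (h.trans h1)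
  have h4 : ((2 : ℝ) ^ ((k : ℝ) / 10)) ^ (2 : ℝ) ≤ ((p : ℝ) ^ (1/2 : ℝ)) ^ (2 : ℝ) :=
    Real.rpow_le_rpow (by positivity) h3 (by norm_num)
  rw [← Real.rpow_mul (by norm_num), ← Real.rpow_mul (by positivity)] at h4
  norm_num at h4
  have e : (k : ℝ) / 10 * 2 = k / 5 := by ring
  rw [e] at h4
  exact h4

lemma own_sum (S : Sys) (k0 : ℕ) (R : Set ℕ) (k j : ℕ) (hk10 : 10 ≤ k) (hKk : S.K ≤ k) (hj : j < nc S.d k)
    (hbad : S.bad k j)
    (hlow : ((S.Cand k j).card : ℝ) / 2 ≤ S.NN R k j)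
    (hW : ∀ p : ℕ, p.Prime → p ∈ R → (2 : ℝ) ^ ((k : ℝ) / 5) ≤ p → S.Wp k0 R p ≤ 1.001 * S.base p) :
    ∑ x ∈ S.act R k j, 2 * S.wo R k j x.2 * S.W k0 R x.2 ≤ 2.02 * S.G k := by
  have hkr : (10:ℝ) ≤ k := by exact_mod_cast hk10
  have hcard := S.many k hKk j hj hbad
  have hc1 := S.c1_pos
  have hNN : 0 < S.NN R k j := by
    refine lt_of_lt_of_le ?_ hlow
    have : 0 < S.c1 * 2 ^ ec S.d k / (k:ℝ) ^ 2 := by (clear * - hc1 hk10; positivity)
    (clear * - hcard this; linarith)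
  have h1 : ∀ x ∈ S.act R k j, 2 * S.wo R k j x.2 * S.W k0 R x.2 ≤ 2.02 * (S.G k / S.NN R k j * (1 / S.pr x.2)) := by
    intro x hx
    have hxa := mem_filter.mp hx
    have hcand := S.cand k hKk j hj hbad x hxa.1
    obtain ⟨c1, c2, c3, c4, c5, c6, c7⟩ := hcand
    have hx2 : x.2 ≠ 0 := by omega
    have hx1 := c1.pos
    have hlt : x.2 < 2 ^ (k + 1) := by
      have h3 := (cell_bounds S.d_pos hj c5).2
      have h4 : x.2 ≤ x.1 * x.2 := Nat.le_mul_of_pos_left x.2 hx1
      omega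
    have hpl : ∀ p : ℕ, p.Prime → p ∣ x.2 → (2 : ℝ) ^ ((k : ℝ) / 5) ≤ p := by
      intro p hp hpx
      exact prime_large hp (c6 p hp (Dvd.dvd.mul_left hpx x.1))
    have h5 : S.W k0 R x.2 ≤ 1.01 * S.base x.2 := by
      apply W_le_base hx2 hk10 hlt hpl
      intro p hp hpx
      exact hW p hp (hxa.2 p hp hpx) (hpl p hp hpx)
    have hwo := wo_nonneg S R k j x.2
    have hx2r : (0:ℝ) < x.2 := by exact_mod_cast Nat.pos_of_ne_zero hx2
    have hbase : 0 < S.base x.2 := by unfold Sys.base; positivity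
    have hpr : 0 < S.pr x.2 := by unfold Sys.pr; positivity
    calc 2 * S.wo R k j x.2 * S.W k0 R x.2 ≤ 2 * S.wo R k j x.2 * (1.01 * S.base x.2) := by (clear * - h5 hwo; gcongr)
      _ = 2.02 * (S.G k / S.NN R k j * (1 / S.pr x.2)) := by
          unfold Sys.wo
          field_simp
          norm_num
          ring
  refine (sum_le_sum h1).trans ?_
  rw [← mul_sum, ← mul_sum]
  have h2 : ∑ x ∈ S.act R k j, 1 / S.pr x.2 = S.NN R k j := rfl
  rw [h2, div_mul_cancel₀ _ hNN.ne']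

lemma HT4_le (S : Sys) (k0 : ℕ) (R : Set ℕ) (k j : ℕ) (hSK : S.K ≤ k0) (hj : j < nc S.d k) :
    S.HT k0 R k j Sys.Q4 ≤ if S.bad k j then ∑ x ∈ S.act R k j, 2 * S.wo R k j x.2 * S.W k0 R x.2 else 0 := by
  unfold Sys.HT
  -- pointwise in n
  have hpt : ∀ n ∈ cell S.d k j, ∑ k' ∈ S.hvy k0 k, ∑ j' ∈ S.badc k',
      ∑ x ∈ (S.act R k' j').filter (fun x => x.1 ∣ n ∧ Sys.Q4 (k', j') n x),
        (n.factorization x.1 : ℝ) * (2 * S.wo R k' j' x.2 * S.W k0 R (n / x.1)) ≤
      if S.bad k j then ∑ x ∈ (S.act R k j).filter (fun x => x.1 * x.2 = n),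
        2 * S.wo R k j x.2 * S.W k0 R x.2 else 0 := by
    intro n hn
    obtain ⟨hn1, hn2⟩ := cell_bounds S.d_pos hj hn
    have hn0 : n ≠ 0 := by
      have : 0 < 2 ^ k := by positivity
      omega
    have hzero : ∀ k' ∈ S.hvy k0 k, ∀ j' ∈ S.badc k', ¬ (k' = k ∧ j' = j) →
        (S.act R k' j').filter (fun x => x.1 ∣ n ∧ Sys.Q4 (k', j') n x) = ∅ := by
      intro k' hk' j' hj' hne
      rw [filter_eq_empty_iff]
      intro x hx hcon
      have hxa := mem_filter.mp hx
      have hb := mem_filter.mp hj'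
      have hk'0 : k0 ≤ k' := by
        unfold Sys.hvy at hk'
        rw [mem_Ico] at hk'
        exact (max_le_iff.mp hk'.1).1
      have hc := (S.cand k' (hSK.trans hk'0) j' (mem_range.mp hb.1) hb.2 x hxa.1).2.2.2.2.1
      have hq : n = x.1 * x.2 := hcon.2
      rw [← hq] at hc
      exact hne (cell_inj S.d_pos hj (mem_range.mp hb.1) hn hc)
    have hW0 : ∀ m : ℕ, m ≠ 0 → 0 ≤ S.W k0 R m := fun m hm => W_nonneg S k0 R hm
    by_cases hkj : k ∈ S.hvy k0 k ∧ j ∈ S.badc k
    · obtain ⟨hk1, hj1⟩ := hkj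
      have hbad : S.bad k j := (mem_filter.mp hj1).2
      have hk0k : k0 ≤ k := by
        unfold Sys.hvy at hk1
        rw [mem_Ico] at hk1
        exact (max_le_iff.mp hk1.1).1
      rw [if_pos hbad]
      rw [sum_eq_single_of_mem k hk1, sum_eq_single_of_mem j hj1]
      · have e : (S.act R k j).filter (fun x => x.1 ∣ n ∧ Sys.Q4 (k, j) n x) =
            (S.act R k j).filter (fun x => x.1 * x.2 = n) := by
          apply filter_congr
          intro x _
          unfold Sys.Q4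
          constructor
          · rintro ⟨_, h⟩; exact h.symm
          · intro h; exact ⟨⟨x.2, h.symm⟩, h.symm⟩
        rw [e]
        apply sum_le_sum
        intro x hx
        rw [mem_filter] at hx
        obtain ⟨hxa, hxn⟩ := hx
        have hxc := (mem_filter.mp hxa).1
        obtain ⟨c1, c2, c3, c4, c5, c6, c7⟩ := S.cand k (hSK.trans hk0k) j hj hbad x hxc
        have h1 : n / x.1 = x.2 := by
          rw [← hxn]; exact Nat.mul_div_cancel_left _ c1.pos
        have h2 : n.factorization x.1 ≤ 1 := by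
          rw [← hxn]
          exact c3.natFactorization_le_one _
        rw [h1]
        have h3 := wo_nonneg S R k j x.2
        have h4 := hW0 x.2 (by omega)
        have h5 : (n.factorization x.1 : ℝ) ≤ 1 := by exact_mod_cast h2
        have h6 : 0 ≤ 2 * S.wo R k j x.2 * S.W k0 R x.2 := by (clear * - h3 h4; positivity)
        (clear * - h5 h6; nlinarith)
      · intro j' hj' hne
        rw [hzero k hk1 j' hj' (fun h => hne h.2), sum_empty]
      · intro k' hk' hne
        apply sum_eq_zero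
        intro j' hj'
        rw [hzero k' hk' j' hj' (fun h => hne h.1), sum_empty]
    · have h0 : ∑ k' ∈ S.hvy k0 k, ∑ j' ∈ S.badc k',
          ∑ x ∈ (S.act R k' j').filter (fun x => x.1 ∣ n ∧ Sys.Q4 (k', j') n x),
            (n.factorization x.1 : ℝ) * (2 * S.wo R k' j' x.2 * S.W k0 R (n / x.1)) = 0 := by
        apply sum_eq_zero
        intro k' hk'
        apply sum_eq_zero
        intro j' hj'
        rw [hzero k' hk' j' hj', sum_empty]
        rintro ⟨rfl, rfl⟩
        exact hkj ⟨hk', hj'⟩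
      rw [h0]
      split_ifs with hbad
      · apply sum_nonneg
        intro x hx
        rw [mem_filter] at hx
        have h3 := wo_nonneg S R k j x.2
        have hx2 : x.2 ≠ 0 := by
          intro h
          have := hx.2
          rw [h, mul_zero] at this
          exact hn0 this.symm
        have h4 := hW0 x.2 hx2
        (clear * - h3 h4; positivity)
      · exact le_rfl
  refine (sum_le_sum hpt).trans ?_
  by_cases hbad : S.bad k j
  · simp only [hbad, if_true]
    have hle : ∑ n ∈ cell S.d k j, ∑ x ∈ (S.act R k j).filter (fun x => x.1 * x.2 = n),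
        2 * S.wo R k j x.2 * S.W k0 R x.2 =
        ∑ x ∈ (S.act R k j).filter (fun x => x.1 * x.2 ∈ cell S.d k j), 2 * S.wo R k j x.2 * S.W k0 R x.2 := by
      rw [← sum_fiberwise_of_maps_to (s := (S.act R k j).filter (fun x => x.1 * x.2 ∈ cell S.d k j))
        (t := cell S.d k j) (g := fun x => x.1 * x.2) (fun x hx => (mem_filter.mp hx).2)]
      refine sum_congr rfl fun n hn => ?_
      congr 1
      ext x
      simp only [mem_filter]
      constructor
      · rintro ⟨a, b⟩; exact ⟨⟨a, by rw [b]; exact hn⟩, b⟩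
      · rintro ⟨⟨a, _⟩, b⟩; exact ⟨a, b⟩
    rw [hle]
    apply sum_le_sum_of_subset_of_nonneg (filter_subset _ _)
    intro x _ _
    have h3 := wo_nonneg S R k j x.2
    by_cases hx2 : x.2 = 0
    · have : S.W k0 R x.2 = 1 := by rw [hx2]; unfold Sys.W CM; simp
      rw [this]; (clear * - h3; positivity)
    · have h4 := W_nonneg S k0 R hx2
      (clear * - h3 h4; positivity)
  · simp [hbad]

/-- (H4) -/
theorem h4 (h1 : OrdLe) (h2 : CtlLe) : H4 := by
  intro S
  obtain ⟨C, K1, h1⟩ := h1 S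
  obtain ⟨K2, h2⟩ := h2 S
  obtain ⟨hs1, hs0, htau, hc, hc1, heta, hd, hdel⟩ := small_params S
  obtain ⟨K3, hK3⟩ := ev_lin (1000 * (2 * |C| + 1)) 0.08 (by norm_num)
  refine ⟨max (max K1 K2) (max (max K3 S.K) 10), fun k0 hk0 R hR k hk j hj => ?_⟩
  have a1 : K1 ≤ k0 := le_trans (le_trans (le_max_left _ _) (le_max_left _ _)) hk0
  have a2 : K2 ≤ k0 := le_trans (le_trans (le_max_right _ _) (le_max_left _ _)) hk0
  have a3 : K3 ≤ k0 := le_trans (le_trans (le_trans (le_max_left _ _) (le_max_left _ _)) (le_max_right _ _)) hk0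
  have a4 : S.K ≤ k0 := le_trans (le_trans (le_trans (le_max_right _ _) (le_max_left _ _)) (le_max_right _ _)) hk0
  have a5 : 10 ≤ k0 := le_trans (le_trans (le_max_right _ _) (le_max_right _ _)) hk0
  have hG := G_nonneg S k
  have hW : ∀ p : ℕ, p.Prime → p ∈ R → (2 : ℝ) ^ ((k : ℝ) / 5) ≤ p → S.Wp k0 R p ≤ 1.001 * S.base p := by
    intro p hp hpR hpl
    obtain ⟨-, ho⟩ := h1 k0 a1 p hp
    obtain ⟨-, hct, -⟩ := h2 k0 a2 R hR p (top p) le_rfl
    have hkr : (10:ℝ) ≤ k := by exact_mod_cast a5.trans hk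
    have hp4 : (4:ℝ) ≤ p := by
      refine le_trans ?_ hpl
      calc (4:ℝ) = (2:ℝ) ^ (2:ℝ) := by norm_num
        _ ≤ _ := Real.rpow_le_rpow_of_exponent_le (by norm_num) (by (clear * - hkr; linarith))
    have hp0 : (0:ℝ) < p := by (clear * - hs1 hs0 hp4; linarith)
    have hp1 : (1:ℝ) ≤ p := by (clear * - hs1 hs0 hp4; linarith)
    have hlog : 1 ≤ Real.log p := by
      have h3 : Real.log 4 ≤ Real.log p := Real.log_le_log (by norm_num) hp4
      have h4 : Real.log 4 = 2 * Real.log 2 := by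
        rw [show (4:ℝ) = 2 ^ 2 by norm_num, Real.log_pow]; norm_num
      have := Real.log_two_gt_d9
      (clear * - hs1 hs0 h3 h4 this; linarith)
    have hlog3 : (1:ℝ) ≤ Real.log p ^ 3 := one_le_pow₀ hlog
    have hpw : (p:ℝ) ^ (S.s - 1) ≤ (p:ℝ) ^ (S.s - 1 + 5 * S.tau) := by
      apply Real.rpow_le_rpow_of_exponent_le hp1
      have := tau_pos S
      (clear * - this; linarith)
    have ho2 : S.ordw k0 p ≤ |C| * (p:ℝ) ^ (S.s - 1 + 5 * S.tau) := by
      refine ho.trans ?_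
      have e1 : (p:ℝ) ^ (S.s - 1) / Real.log p ^ 3 ≤ (p:ℝ) ^ (S.s - 1 + 5 * S.tau) :=
        (div_le_self (by positivity) hlog3).trans hpw
      calc C * ((p:ℝ) ^ (S.s - 1) / Real.log p ^ 3) ≤ |C| * ((p:ℝ) ^ (S.s - 1) / Real.log p ^ 3) := by
            apply mul_le_mul_of_nonneg_right (le_abs_self C) (by positivity)
        _ ≤ _ := mul_le_mul_of_nonneg_left e1 (abs_nonneg C)
    have hbase : 0 < S.base p := by unfold Sys.base; positivity
    have hratio : (p:ℝ) ^ (S.s - 1 + 5 * S.tau) ≤ (p:ℝ) ^ (-(0.4:ℝ)) * S.base p := by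
      unfold Sys.base
      rw [← Real.rpow_add hp0]
      apply Real.rpow_le_rpow_of_exponent_le hp1
      (clear * - hs1 hs0 htau hdel; linarith)
    have hsm : 1000 * (2 * |C| + 1) * (p:ℝ) ^ (-(0.4:ℝ)) ≤ 1 := by
      have e2 : (2:ℝ) ^ ((0.08:ℝ) * k) ≤ (p:ℝ) ^ (0.4:ℝ) := by
        have : ((2 : ℝ) ^ ((k : ℝ) / 5)) ^ (0.4:ℝ) ≤ (p:ℝ) ^ (0.4:ℝ) :=
          Real.rpow_le_rpow (by positivity) hpl (by norm_num)
        rw [← Real.rpow_mul (by norm_num)] at this
        have e3 : (k:ℝ) / 5 * 0.4 = 0.08 * k := by ring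
        rwa [e3] at this
      have e4 := (hK3 k (a3.trans hk)).trans e2
      have e5 : 1000 * (2 * |C| + 1) ≤ (p:ℝ) ^ (0.4:ℝ) := by
        refine le_trans ?_ e4
        have : 0 ≤ 1000 * (2 * |C| + 1) := by (clear * -; positivity)
        (clear * - this; nlinarith)
      rw [Real.rpow_neg hp0.le, ← div_eq_mul_inv, div_le_one (by positivity)]
      exact e5
    unfold Sys.Wp Sys.bR
    rw [if_pos hpR]
    have hA := abs_nonneg C
    calc S.base p + 2 * S.ordw k0 p + 2 * S.ctl k0 (top p) R p ≤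
        S.base p + 2 * (|C| * (p:ℝ) ^ (S.s - 1 + 5 * S.tau)) + (p:ℝ) ^ (S.s - 1 + 5 * S.tau) := by
          (clear * - hct ho2; linarith)
      _ = S.base p + (2 * |C| + 1) * (p:ℝ) ^ (S.s - 1 + 5 * S.tau) := by ring
      _ ≤ S.base p + (2 * |C| + 1) * ((p:ℝ) ^ (-(0.4:ℝ)) * S.base p) := by (clear * - hratio; gcongr)
      _ = S.base p + (1000 * (2 * |C| + 1) * (p:ℝ) ^ (-(0.4:ℝ))) * S.base p / 1000 := by ring
      _ ≤ S.base p + 1 * S.base p / 1000 := by (clear * - hsm hbase; gcongr)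
      _ = 1.001 * S.base p := by ring
  refine (HT4_le S k0 R k j a4 hj).trans ?_
  by_cases hbad : S.bad k j
  · simp only [hbad, if_true]
    have hjb : j ∈ S.badc k := mem_filter.mpr ⟨mem_range.mpr hj, hbad⟩
    have := own_sum S k0 R k j (a5.trans hk) (a4.trans hk) hj hbad (hR.lower k hk j hjb) hW
    (clear * - hG this; linarith)
  · simp only [hbad, if_false]
    (clear * - hG; linarith)

end Pool.Agent.M20.Helper60.KX
end

/- Helper53.KN.Helper40.AV.TailLo16 -/
section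
/-! Project AV, part 2: LS3, lower bound at level `16`. -/

set_option autoImplicit false
set_option linter.all false

open Filter Topology

namespace Pool.Agent.M20.Helper40.AV.T16

open Pool.Agent.M20.Helper40.AV
open Pool.Agent.M20.Helper44 (primesUpTo mem_primesUpTo)

/-- the error factor -/
noncomputable def eb (a : ℝ) : ℝ := Real.exp (5.2 - 15.9 / a)

theorem exp_num2 : Real.exp (-10.7) ≤ 0.0000227 := by
  have h1 : (44100 : ℝ) ≤ Real.exp 10.7 := by
    refine le_trans ?_ (Real.sum_le_exp_of_nonneg (by norm_num) 28)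
    norm_num [Finset.sum_range_succ, Nat.factorial]
  rw [Real.exp_neg]
  calc (Real.exp 10.7)⁻¹ ≤ (44100 : ℝ)⁻¹ := inv_anti₀ (by norm_num) h1
    _ ≤ 0.0000227 := by norm_num

theorem eb_le {a : ℝ} (ha : 0 < a) (ha' : a ≤ 1) : eb a ≤ 0.0000227 := by
  refine le_trans ?_ exp_num2
  unfold eb
  apply Real.exp_le_exp.2
  have : 15.9 ≤ 15.9 / a := by
    rw [le_div_iff₀ ha]
    (clear * - ha'; linarith)
  (clear * - this; linarith)

theorem eb_pos (a : ℝ) : 0 < eb a := Real.exp_pos _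

/-- the integral of the error -/
theorem int_eb {ω : ℝ} (hω : 0 < ω) (hω' : ω ≤ 1) :
    ∫ a in ω..(1 : ℝ), (eb a / a) / a ≤ 0.0000015 := by
  have hderiv : ∀ a ∈ Set.uIcc ω (1 : ℝ), HasDerivAt (fun a => eb a / 15.9) ((eb a / a) / a) a := by
    intro a ha
    rw [Set.uIcc_of_le hω'] at ha
    have ha0 : 0 < a := hω.trans_le ha.1
    have h1 : HasDerivAt (fun a : ℝ => 5.2 - 15.9 / a) (15.9 / a ^ 2) a := by
      have h2 := (hasDerivAt_inv ha0.ne').const_mul (15.9 : ℝ)
      have h3 := h2.const_sub (5.2 : ℝ)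
      refine (h3.congr_deriv ?_).congr_of_eventuallyEq ?_
      · (clear * - ha0; field_simp)
      · filter_upwards with x
        rw [div_eq_mul_inv]
    have h4 := h1.exp.div_const (15.9 : ℝ)
    refine h4.congr_deriv ?_
    unfold eb
    (clear * - ha0; field_simp)
  have hint : IntervalIntegrable (fun a => (eb a / a) / a) MeasureTheory.volume ω (1 : ℝ) := by
    apply ContinuousOn.intervalIntegrable
    rw [Set.uIcc_of_le hω']
    intro a ha
    have ha0 : a ≠ 0 := (hω.trans_le ha.1).ne'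
    apply ContinuousAt.continuousWithinAt
    unfold eb
    fun_prop (disch := assumption)
  rw [intervalIntegral.integral_eq_sub_of_hasDerivAt hderiv hint]
  have h1 := eb_le (a := 1) (by norm_num) le_rfl
  have h2 := eb_pos ω
  have h3 : (0 : ℝ) < eb ω / 15.9 := by (clear * - h2; positivity)
  have h4 : eb 1 / 15.9 ≤ 0.0000227 / 15.9 := by
    apply div_le_div_of_nonneg_right h1 (by norm_num)
  have h5 : (0.0000227 : ℝ) / 15.9 ≤ 0.0000015 := by norm_num
  exact (sub_le_self _ h3.le).trans (h4.trans h5)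

open Classical in
/-- the bound for one prime -/
theorem np_le2 (hS : SelbergP) {z₀ : ℝ}
    (hG : ∀ z u : ℝ, z₀ ≤ z → 0 ≤ u → 1 - Real.exp (4.2 - 2 * u) ≤ VV z * GG z (z ^ u))
    {X : ℝ} (hX : 1 < X) {ω : ℝ} (hω : 0 < ω) (hz₀ : z₀ ≤ X ^ ω - 1 / 2)
    (hV : ∀ t : ℝ, X ^ ω ≤ t → VV (t - 1 / 2) * Real.log t ≤ 0.572)
    {y l p : ℕ} (hl : X ^ (16 : ℝ) ≤ l) (hp : p ∈ PI (X ^ ω) X) :
    ((((Finset.Ico y (y + l)).filter fun n => p ∣ n ∧
        ∀ r : ℕ, r.Prime → r ∣ n → (p : ℝ) - 1 / 2 < r).card : ℕ) : ℝ) ≤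
      l * (1 + X ^ (-1 : ℝ)) * (VV ((p : ℝ) - 1 / 2) / p) +
      l * (1 + X ^ (-1 : ℝ)) * (0.6095 / Real.log X) *
        ((1 : ℝ) / p * (eb (Real.log p / Real.log X) / (Real.log p / Real.log X))) +
      X ^ (15.9 : ℝ) * ((1 : ℝ) / p) := by
  have hX0 : 0 < X := by (clear * - hX; linarith)
  have hL : 0 < Real.log X := Real.log_pos hX
  have hXω : 1 < X ^ ω := Real.one_lt_rpow hX hω
  obtain ⟨hpp, hp1, hp2⟩ := (mem_PI hX0.le).1 hp
  have hp0 : (0 : ℝ) < p := by exact_mod_cast hpp.pos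
  have hp2' : (2 : ℝ) ≤ p := by exact_mod_cast hpp.two_le
  set a : ℝ := Real.log p / Real.log X with ha
  have hlogp : Real.log p = a * Real.log X := by
    rw [ha]
    (clear * - hL; field_simp)
  have ha0 : 0 < a := div_pos (Real.log_pos (by (clear * - hXω hp1; linarith))) hL
  have ha1 : a ≤ 1 := by
    rw [ha, div_le_iff₀ hL, one_mul]
    exact Real.log_le_log hp0 hp2
  have hpX : (p : ℝ) = X ^ a := by
    rw [← Real.exp_log hp0, hlogp, Real.rpow_def_of_pos hX0, mul_comm]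
  set u : ℝ := (15.9 - a) / (2 * a) with hu
  have hu0 : 0 ≤ u := by
    apply div_nonneg <;> (clear * - ha1 ha0; linarith)
  set Y : ℝ := X ^ ((15.9 - a) / 2) with hY
  have hY1 : 1 ≤ Y := Real.one_le_rpow hX.le (by (clear * - ha1; linarith))
  have hY2 : Y ^ 2 = X ^ (15.9 : ℝ) * (1 / p) := by
    rw [hY, hpX, ← Real.rpow_natCast, ← Real.rpow_mul hX0.le, one_div, ← Real.rpow_neg hX0.le,
      ← Real.rpow_add hX0]
    congr 1
    push_cast
    ring
  have hYu : Y = (p : ℝ) ^ u := by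
    rw [hpX, ← Real.rpow_mul hX0.le, hY]
    congr 1
    rw [hu]
    (clear * - ha0; field_simp)
  have hz1 : z₀ ≤ (p : ℝ) - 1 / 2 := by (clear * - hz₀ hp1; linarith)
  have hGp := hG ((p : ℝ) - 1 / 2) u hz1 hu0
  have hexp : Real.exp (4.2 - 2 * u) = eb a := by
    unfold eb
    congr 1
    rw [hu]
    field_simp
    ring
  rw [hexp] at hGp
  have hGY : GG ((p : ℝ) - 1 / 2) (((p : ℝ) - 1 / 2) ^ u) ≤ GG ((p : ℝ) - 1 / 2) Y := by
    apply gg_mono
    rw [hYu]
    exact Real.rpow_le_rpow (by (clear * - hXω hp1; linarith)) (by (clear * -; linarith)) hu0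
  have hea := eb_le ha0 ha1
  have hea0 := eb_pos a
  have hVp := vv_pos ((p : ℝ) - 1 / 2)
  have hV1 := vv_le_one ((p : ℝ) - 1 / 2)
  have hGG0 : 0 < GG ((p : ℝ) - 1 / 2) Y := lt_of_lt_of_le one_pos (one_le_gg _ hY1)
  have hmain : 1 - eb a ≤ VV ((p : ℝ) - 1 / 2) * GG ((p : ℝ) - 1 / 2) Y :=
    hGp.trans (mul_le_mul_of_nonneg_left hGY hVp.le)
  -- one over G
  have hinv : 1 / GG ((p : ℝ) - 1 / 2) Y ≤ VV ((p : ℝ) - 1 / 2) * (1 + 1.0655 * eb a) := by
    rw [div_le_iff₀ hGG0]
    have h1 : (1 : ℝ) ≤ (1 - eb a) * (1 + 1.0655 * eb a) := by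
      have h2 := mul_le_mul_of_nonneg_left hea hea0.le
      generalize eb a = e at h2 hea0
      (clear * - hea0 h2; linarith)
    calc (1 : ℝ) ≤ (1 - eb a) * (1 + 1.0655 * eb a) := h1
      _ ≤ (VV ((p : ℝ) - 1 / 2) * GG ((p : ℝ) - 1 / 2) Y) * (1 + 1.0655 * eb a) :=
        mul_le_mul_of_nonneg_right hmain (by positivity)
      _ = _ := by ring
  have hl0 : (0 : ℝ) < l := lt_of_lt_of_le (Real.rpow_pos_of_pos hX0 _) hl
  have hlp : (l : ℝ) / p + 1 ≤ l * (1 + X ^ (-1 : ℝ)) / p := by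
    rw [mul_add, mul_one, add_div]
    have h1 : (1 : ℝ) ≤ l * X ^ (-1 : ℝ) / p := by
      rw [le_div_iff₀ hp0, one_mul]
      calc (p : ℝ) ≤ X := hp2
        _ = X ^ (1 : ℝ) := (Real.rpow_one X).symm
        _ ≤ X ^ (16 + -1 : ℝ) := Real.rpow_le_rpow_of_exponent_le hX.le (by norm_num)
        _ = X ^ (16 : ℝ) * X ^ (-1 : ℝ) := Real.rpow_add hX0 _ _
        _ ≤ l * X ^ (-1 : ℝ) := mul_le_mul_of_nonneg_right hl (Real.rpow_nonneg hX0.le _)
    (clear * - h1; linarith)
  have hVlog := hV p hp1.le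
  have hlogp0 : 0 < Real.log p := Real.log_pos (by (clear * - hp2' hea hea0; linarith))
  have hVle : VV ((p : ℝ) - 1 / 2) ≤ 0.572 / (a * Real.log X) := by
    rw [← hlogp, le_div_iff₀ hlogp0]
    exact hVlog
  refine (hS y l p ((p : ℝ) - 1 / 2) Y hpp.one_le hY1).trans ?_
  rw [hY2]
  have hfac : 0 < l * (1 + X ^ (-1 : ℝ)) / p := by (clear * - hl0 hX hp0; positivity)
  have h2 : ((l : ℝ) / p + 1) / GG ((p : ℝ) - 1 / 2) Y ≤
      (l * (1 + X ^ (-1 : ℝ)) / p) * (VV ((p : ℝ) - 1 / 2) * (1 + 1.0655 * eb a)) := by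
    rw [div_eq_mul_one_div]
    exact mul_le_mul hlp hinv (by (clear * - hGG0; positivity)) hfac.le
  have h3 : VV ((p : ℝ) - 1 / 2) * (1.0655 * eb a) ≤ 0.6095 / Real.log X * (eb a / a) := by
    calc VV ((p : ℝ) - 1 / 2) * (1.0655 * eb a) ≤ 0.572 / (a * Real.log X) * (1.0655 * eb a) :=
          mul_le_mul_of_nonneg_right hVle (by positivity)
      _ = (0.572 * 1.0655) / Real.log X * (eb a / a) := by
        (clear * - hea0 hL ha0; field_simp)
      _ ≤ _ := by
        apply mul_le_mul_of_nonneg_right _ (by (clear * - hea0 hlogp0 hL; positivity))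
        apply div_le_div_of_nonneg_right _ hL.le
        norm_num
  have h4 : (l * (1 + X ^ (-1 : ℝ)) / p) * (VV ((p : ℝ) - 1 / 2) * (1 + 1.0655 * eb a)) ≤
      l * (1 + X ^ (-1 : ℝ)) * (VV ((p : ℝ) - 1 / 2) / p) +
      l * (1 + X ^ (-1 : ℝ)) * (0.6095 / Real.log X) * ((1 : ℝ) / p * (eb a / a)) := by
    have h5 := mul_le_mul_of_nonneg_left h3 hfac.le
    calc (l * (1 + X ^ (-1 : ℝ)) / p) * (VV ((p : ℝ) - 1 / 2) * (1 + 1.0655 * eb a))
        = l * (1 + X ^ (-1 : ℝ)) * (VV ((p : ℝ) - 1 / 2) / p) +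
          (l * (1 + X ^ (-1 : ℝ)) / p) * (VV ((p : ℝ) - 1 / 2) * (1.0655 * eb a)) := by ring
      _ ≤ l * (1 + X ^ (-1 : ℝ)) * (VV ((p : ℝ) - 1 / 2) / p) +
          (l * (1 + X ^ (-1 : ℝ)) / p) * (0.6095 / Real.log X * (eb a / a)) :=
          add_le_add_right h5 _
      _ = _ := by ring
  exact add_le_add_left (h2.trans h4) _

open Classical in
theorem tailLo (hR : RoughQ) (hM : Mertens3) (hN : GammaNum) (hS : SelbergP) (hG : GGrankin)
    (hB : Buchstab) (hT : Telescope) (hP : PrimeInt) : LoB 16 0.99999 := by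
  intro ε hε
  set γ₀ : ℝ := Real.exp (-Real.eulerMascheroniConstant) with hγ₀
  have hγ1 : γ₀ ≤ 0.57 := hN.2
  have hγ2 : 0.557 ≤ γ₀ := hN.1
  obtain ⟨ε₁, K, zR, hε₁, hK, hεK, hRough⟩ := hR (ε / 64) (by positivity)
  obtain ⟨z₀, hz₀2, hG'⟩ := hG
  set ω : ℝ := min (1 / K) 1 with hω
  have hK0 : 0 < K := by (clear * - hK; linarith)
  have hω0 : 0 < ω := lt_min (by (clear * - hK; positivity)) (by norm_num)
  have hω1 : ω ≤ 1 := min_le_right _ _
  have hωK : ω * K ≤ 1 := by
    have := min_le_left (1 / K) (1 : ℝ)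
    rw [← hω, le_div_iff₀ hK0] at this
    exact this
  have hωinv : 1 / ω ≤ 2 * K := by
    rw [div_le_iff₀ hω0, hω]
    rcases min_choice (1 / K) (1 : ℝ) with h | h <;> rw [h]
    · field_simp
      norm_num
    · (clear * - hK; linarith)
  have hε₁ω : ε₁ / ω ≤ ε / 32 := by
    calc ε₁ / ω = ε₁ * (1 / ω) := by ring
      _ ≤ ε₁ * (2 * K) := mul_le_mul_of_nonneg_left hωinv hε₁.le
      _ = 2 * (ε₁ * K) := by ring
      _ ≤ 2 * (ε / 64) := by (clear * - hεK; linarith)
      _ = ε / 32 := by ring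
  -- the integrals
  set f : ℝ → ℝ := fun a => eb a / a with hf
  have hfc : ContinuousOn f (Set.Icc ω 1) := by
    intro a ha
    have ha0 : a ≠ 0 := (hω0.trans_le ha.1).ne'
    apply ContinuousAt.continuousWithinAt
    simp only [hf]
    unfold eb
    fun_prop (disch := assumption)
  have hI := hP ω 1 f hω0 hω1 hfc
  have hI' : ∫ a in ω..(1 : ℝ), f a / a ≤ 0.0000015 := int_eb hω0 hω1
  have hJ := hP ω 1 (fun _ => 1) hω0 hω1 continuousOn_const
  simp only [Real.rpow_one] at hI hJ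
  set C₁ : ℝ := (∫ a in ω..(1 : ℝ), 1 / a) + 1 with hC₁
  -- eventual conditions
  have e1 : ∀ᶠ X : ℝ in atTop, 1 < X := eventually_gt_atTop 1
  have tω := tendsto_rpow_top hω0
  have e2 : ∀ᶠ X : ℝ in atTop, zR ≤ X ^ ω := tω.eventually_ge_atTop zR
  have e3 : ∀ᶠ X : ℝ in atTop, z₀ + 1 / 2 ≤ X ^ ω := tω.eventually_ge_atTop _
  have e4 : ∀ᶠ X : ℝ in atTop, ∀ t : ℝ, X ^ ω ≤ t → VV (t - 1 / 2) * Real.log t ≤ 0.572 := by
    have h1 := (mertens3_shift hM).eventually_lt_const (show γ₀ < 0.572 by (clear * - hγ1; linarith))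
    obtain ⟨T, hT'⟩ := eventually_atTop.1 h1
    filter_upwards [tω.eventually_ge_atTop T] with X hX t ht
    exact (hT' t (hX.trans ht)).le
  have e5 : ∀ᶠ X : ℝ in atTop, VV (X ^ ω) * Real.log (X ^ ω) ≤ 0.572 := by
    have h1 := (hM.comp tω).eventually_lt_const (show γ₀ < 0.572 by (clear * - hγ1; linarith))
    filter_upwards [h1] with X hX
    exact hX.le
  have e6 : ∀ᶠ X : ℝ in atTop, 0.556 ≤ VV X * Real.log X := by
    have h1 := hM.eventually_const_lt (show (0.556 : ℝ) < γ₀ by (clear * - hγ2; linarith))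
    filter_upwards [h1] with X hX
    exact hX.le
  have e7 := hI.eventually_lt_const (show (∫ a in ω..(1 : ℝ), f a / a) < 0.0000015 + ε / 16 by
    (clear * - hε hI'; linarith))
  have e8 := hJ.eventually_lt_const (show (∫ a in ω..(1 : ℝ), (1 : ℝ) / a) < C₁ by
    rw [hC₁]; (clear * -; linarith))
  have e9 : ∀ᶠ X : ℝ in atTop, X ^ (15.9 : ℝ) * (|C₁| * Real.log X) ≤ ε / 16 * X ^ (16 : ℝ) := by
    have h1 := isLittleO_log_rpow_atTop (show (0 : ℝ) < 0.1 by norm_num)
    have h2 := h1.def (show 0 < ε / (16 * (|C₁| + 1)) by (clear * - hε; positivity))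
    filter_upwards [h2, eventually_gt_atTop (1 : ℝ)] with X hX hX1
    have hX0 : 0 < X := by (clear * - hX1; linarith)
    rw [Real.norm_of_nonneg (Real.log_nonneg hX1.le),
      Real.norm_of_nonneg (Real.rpow_nonneg hX0.le _)] at hX
    have h3 : X ^ (16 : ℝ) = X ^ (15.9 : ℝ) * X ^ (0.1 : ℝ) := by
      rw [← Real.rpow_add hX0]
      norm_num
    rw [h3]
    have h4 : |C₁| * Real.log X ≤ ε / 16 * X ^ (0.1 : ℝ) := by
      calc |C₁| * Real.log X ≤ (|C₁| + 1) * (ε / (16 * (|C₁| + 1)) * X ^ (0.1 : ℝ)) := by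
            apply mul_le_mul (by (clear * -; linarith)) hX (Real.log_nonneg hX1.le) (by (clear * -; positivity))
        _ = ε / 16 * X ^ (0.1 : ℝ) := by
            (clear * - hX1 hε; field_simp)
    calc X ^ (15.9 : ℝ) * (|C₁| * Real.log X) ≤ X ^ (15.9 : ℝ) * (ε / 16 * X ^ (0.1 : ℝ)) :=
          mul_le_mul_of_nonneg_left h4 (Real.rpow_nonneg hX0.le _)
      _ = _ := by ring
  have e10 : ∀ᶠ X : ℝ in atTop, X ^ (-1 : ℝ) * (0.572 / ω + 1 + ε) ≤ ε / 16 := by
    have h1 : Tendsto (fun X : ℝ => X ^ (-1 : ℝ) * (0.572 / ω + 1 + ε)) atTop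
        (𝓝 (0 * (0.572 / ω + 1 + ε))) :=
      (tendsto_rpow_neg_atTop (show (0 : ℝ) < 1 by norm_num)).mul_const _
    rw [zero_mul] at h1
    filter_upwards [h1.eventually_lt_const (show (0 : ℝ) < ε / 16 by positivity)] with X hX
    exact hX.le
  obtain ⟨X₀, hX₀⟩ := eventually_atTop.1
    (e1.and (e2.and (e3.and (e4.and (e5.and (e6.and (e7.and (e8.and (e9.and e10)))))))))
  refine ⟨X₀, fun X hX y l hl => ?_⟩
  obtain ⟨h1, h2, h3, h4, h5, h6, h7, h8, h9, h10⟩ := hX₀ X hX
  have hX0 : 0 < X := by (clear * - h1; linarith)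
  have hL : 0 < Real.log X := Real.log_pos h1
  have hl0 : (0 : ℝ) < l := lt_of_lt_of_le (Real.rpow_pos_of_pos hX0 _) hl
  set δ : ℝ := X ^ (-1 : ℝ) with hδ
  have hδ0 : 0 < δ := Real.rpow_pos_of_pos hX0 _
  set w : ℝ := X ^ ω with hw
  have hw1 : 1 ≤ w := Real.one_le_rpow h1.le hω0.le
  have hwz : w ≤ X := by
    calc w ≤ X ^ (1 : ℝ) := Real.rpow_le_rpow_of_exponent_le h1.le hω1
      _ = X := Real.rpow_one X
  -- fundamental lemma
  have hFL : (1 - ε₁) * l * VV w ≤ (RS y l w).card := by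
    refine hRough w h2 y l ?_
    rw [hw, ← Real.rpow_mul hX0.le]
    exact (Real.rpow_le_rpow_of_exponent_le h1.le (hωK.trans (by norm_num))).trans hl
  have hBu := hB y l w X hw1 hwz
  have hTe := hT w X hw1 hwz
  set S7 : ℝ := ∑ p ∈ PI w X, (1 : ℝ) / p * f (Real.log p / Real.log X) with hS7
  set S8 : ℝ := ∑ p ∈ PI w X, (1 : ℝ) / p * 1 with hS8
  have hS7n : 0 ≤ S7 := by
    rw [hS7]
    refine Finset.sum_nonneg fun p hp => ?_
    obtain ⟨hpp, hp1, hp2⟩ := (mem_PI (by (clear * - hz₀2 h3 hwz; linarith))).1 hp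
    have h11 : (1 : ℝ) ≤ p := by exact_mod_cast hpp.one_le
    have h12 := eb_pos (Real.log p / Real.log X)
    have h13 : 0 ≤ Real.log p := Real.log_nonneg h11
    simp only [hf]
    (clear * - h11 h12 hL; positivity)
  have hsum : ∑ p ∈ PI w X, ((((Finset.Ico y (y + l)).filter fun n => p ∣ n ∧
        ∀ r : ℕ, r.Prime → r ∣ n → (p : ℝ) - 1 / 2 < r).card : ℕ) : ℝ) ≤
      l * (1 + δ) * (VV w - VV X) + l * (1 + δ) * (0.6095 / Real.log X) * S7 +
        X ^ (15.9 : ℝ) * S8 := by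
    rw [hTe, hS7, hS8, Finset.mul_sum, Finset.mul_sum, Finset.mul_sum, ← Finset.sum_add_distrib,
      ← Finset.sum_add_distrib]
    refine Finset.sum_le_sum fun p hp => ?_
    have := np_le2 hS hG' h1 hω0 (by (clear * - h3; linarith)) h4 (y := y) hl hp
    rw [mul_one]
    exact this
  have hVw : VV w * Real.log X ≤ 0.572 / ω := by
    rw [le_div_iff₀ hω0]
    rw [hw, Real.log_rpow hX0] at h5
    rw [hw]
    (clear * - h5; linarith)
  have hVw0 := vv_pos w
  have hVz0 := vv_pos X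
  have h8' : X ^ (15.9 : ℝ) * S8 * Real.log X ≤ ε / 16 * l := by
    have h11 : S8 ≤ |C₁| := h8.le.trans (le_abs_self _)
    calc X ^ (15.9 : ℝ) * S8 * Real.log X = X ^ (15.9 : ℝ) * (S8 * Real.log X) := by ring
      _ ≤ X ^ (15.9 : ℝ) * (|C₁| * Real.log X) := by
        apply mul_le_mul_of_nonneg_left _ (Real.rpow_nonneg hX0.le _)
        exact mul_le_mul_of_nonneg_right h11 hL.le
      _ ≤ ε / 16 * X ^ (16 : ℝ) := h9
      _ ≤ ε / 16 * l := mul_le_mul_of_nonneg_left hl (by positivity)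
  -- collect
  have hcard : (1 - ε₁) * l * VV w - (l * (1 + δ) * (VV w - VV X) +
      l * (1 + δ) * (0.6095 / Real.log X) * S7 + X ^ (15.9 : ℝ) * S8) ≤ (RS y l X).card := by
    (clear * - hFL hBu hsum; linarith)
  have hcard' := mul_le_mul_of_nonneg_right hcard hL.le
  have hexp : ((1 - ε₁) * l * VV w - (l * (1 + δ) * (VV w - VV X) +
      l * (1 + δ) * (0.6095 / Real.log X) * S7 + X ^ (15.9 : ℝ) * S8)) * Real.log X =
      l * ((1 + δ) * (VV X * Real.log X) - ε₁ * (VV w * Real.log X) - δ * (VV w * Real.log X) -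
        0.6095 * S7 - δ * (0.6095 * S7)) - X ^ (15.9 : ℝ) * S8 * Real.log X := by
    have hq : 0.6095 / Real.log X * Real.log X = 0.6095 := div_mul_cancel₀ _ hL.ne'
    (clear * - hq; linear_combination (-(l * (1 + δ) * S7)) * hq)
  rw [hexp] at hcard'
  have k1 : ε₁ * (VV w * Real.log X) ≤ 0.018 * ε := by
    calc ε₁ * (VV w * Real.log X) ≤ ε₁ * (0.572 / ω) := mul_le_mul_of_nonneg_left hVw hε₁.le
      _ = 0.572 * (ε₁ / ω) := by ring
      _ ≤ 0.572 * (ε / 32) := by (clear * - hε₁ω; linarith)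
      _ ≤ 0.018 * ε := by (clear * - hε; linarith)
  have k2 : δ * (VV w * Real.log X) + δ * (0.6095 * S7) ≤ ε / 16 := by
    calc δ * (VV w * Real.log X) + δ * (0.6095 * S7) = δ * (VV w * Real.log X + 0.6095 * S7) := by ring
      _ ≤ δ * (0.572 / ω + 1 + ε) := by
        apply mul_le_mul_of_nonneg_left _ hδ0.le
        have : 0.6095 * S7 ≤ 1 + ε := by
          have h11 : S7 ≤ 0.0000015 + ε / 16 := h7.le
          (clear * - hε h7; linarith)
        (clear * - hε h7 hVw; linarith)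
      _ ≤ ε / 16 := h10
  have k3 : 0.6095 * S7 ≤ 0.000001 + ε / 16 := by
    have h11 : S7 ≤ 0.0000015 + ε / 16 := h7.le
    (clear * - hε h7; linarith)
  have k4 : VV X * Real.log X ≤ (1 + δ) * (VV X * Real.log X) := by
    have : 0 ≤ δ * (VV X * Real.log X) := by (clear * - h1 hVz0 hL; positivity)
    (clear * - this; linarith)
  have k5 : VV X * Real.log X - 0.000001 - ε * (0.018 + 1 / 16 + 1 / 16) ≤
      (1 + δ) * (VV X * Real.log X) - ε₁ * (VV w * Real.log X) - δ * (VV w * Real.log X) -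
        0.6095 * S7 - δ * (0.6095 * S7) := by (clear * - hε h7 k1 k2 k4; linarith)
  have k6 := mul_le_mul_of_nonneg_left k5 hl0.le
  have k7 : (0.99999 - ε) * (VV X * Real.log X) ≤
      VV X * Real.log X - 0.000001 - ε * (0.018 + 1 / 16 + 1 / 16) - ε / 16 := by
    have h11 := mul_le_mul_of_nonneg_left h6 hε.le
    generalize VV X * Real.log X = W at h6 h11
    (clear * - hε h6 h11; linarith)
  have k8 := mul_le_mul_of_nonneg_left k7 hl0.le
  have k9 : (0.99999 - ε) * l * VV X * Real.log X ≤ (RS y l X).card * Real.log X := by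
    rw [show (0.99999 - ε) * l * VV X * Real.log X =
      l * ((0.99999 - ε) * (VV X * Real.log X)) by ring]
    refine k8.trans ?_
    rw [mul_sub (l : ℝ) _ (ε / 16)]
    exact (sub_le_sub k6 (h8'.trans_eq (mul_comm _ _))).trans hcard'
  exact le_of_mul_le_mul_right k9 hL

end Pool.Agent.M20.Helper40.AV.T16
end

/- Helper53.KN.Helper5.AV.StepKit -/
section
/-! Project AV part 2 (KS, MP_768c9c_nt): tools for the Buchstab steps. -/

set_option autoImplicit false

open Filter Topology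

namespace Pool.Agent.M20.Helper5.AV

open Pool.Agent.M20.Helper40.AV

/-- the number of integers in a Buchstab term -/
noncomputable def NP (y l p : ℕ) : ℝ :=
  (((@Finset.filter ℕ (fun n => p ∣ n ∧ ∀ r : ℕ, r.Prime → r ∣ n → (p : ℝ) - 1 / 2 < r)
    (Classical.decPred _) (Finset.Ico y (y + l))).card : ℕ) : ℝ)

theorem ratio_tendsto (hM : Mertens3) {s t : ℝ} (hs : 0 < s) (ht : 0 < t) :
    Tendsto (fun z : ℝ => VV (z ^ (s / t)) / VV z) atTop (𝓝 (t / s)) := by
  have ha : 0 < s / t := by positivity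
  have h1 := hM.comp (tendsto_rpow_top ha)
  have hne : Real.exp (-Real.eulerMascheroniConstant) ≠ 0 := (Real.exp_pos _).ne'
  have h2 := h1.div hM hne
  rw [div_self hne] at h2
  have h3 := h2.const_mul (t / s)
  rw [mul_one] at h3
  refine h3.congr' ?_
  filter_upwards [eventually_gt_atTop (1 : ℝ)] with z hz
  have hz0 : 0 < z := by linarith
  have hL : Real.log z ≠ 0 := (Real.log_pos hz).ne'
  have hV : VV z ≠ 0 := (vv_pos z).ne'
  simp only [Function.comp_apply, Pi.div_apply, Real.log_rpow hz0]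
  field_simp

theorem sum_PI_split {a b c : ℝ} (ha : 0 ≤ a) (hab : a ≤ b) (hbc : b ≤ c) (h : ℕ → ℝ) :
    ∑ p ∈ PI a c, h p = ∑ p ∈ PI a b, h p + ∑ p ∈ PI b c, h p := by
  classical
  have hb : 0 ≤ b := ha.trans hab
  have hc : 0 ≤ c := hb.trans hbc
  rw [← Finset.sum_union]
  · refine Finset.sum_congr ?_ (fun _ _ => rfl)
    ext p
    rw [Finset.mem_union, mem_PI hc, mem_PI hb, mem_PI hc]
    constructor
    · rintro ⟨h1, h2, h3⟩
      rcases le_or_gt (p : ℝ) b with h4 | h4
      · exact Or.inl ⟨h1, h2, h4⟩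
      · exact Or.inr ⟨h1, h4, h3⟩
    · rintro (⟨h1, h2, h3⟩ | ⟨h1, h2, h3⟩)
      · exact ⟨h1, h2, h3.trans hbc⟩
      · exact ⟨h1, hab.trans_lt h2, h3⟩
  · rw [Finset.disjoint_left]
    intro p h1 h2
    exact absurd ((mem_PI hb).1 h1).2.2 (not_le.2 ((mem_PI hc).1 h2).2.1)

theorem sum_bands (w : ℕ → ℝ) (h : ℕ → ℝ) (n : ℕ) (hw0 : ∀ i ≤ n, 0 ≤ w i)
    (hw : ∀ i < n, w (i + 1) ≤ w i) :
    ∑ p ∈ PI (w n) (w 0), h p = ∑ i ∈ Finset.range n, ∑ p ∈ PI (w (i + 1)) (w i), h p := by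
  induction n with
  | zero =>
    rw [Finset.range_zero, Finset.sum_empty]
    refine Finset.sum_eq_zero fun p hp => ?_
    obtain ⟨_, h1, h2⟩ := (mem_PI (hw0 0 le_rfl)).1 hp
    exact absurd h2 (not_le.2 h1)
  | succ n ih =>
    have hmono : ∀ i ≤ n, w n ≤ w 0 := by
      have : ∀ i ≤ n, w i ≤ w 0 := by
        intro i
        induction i with
        | zero => exact fun _ => le_rfl
        | succ i ih2 => exact fun hi => (hw i (by omega)).trans (ih2 (by omega))
      exact fun _ _ => this n le_rfl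
    rw [Finset.sum_range_succ, ← ih (fun i hi => hw0 i (by omega)) (fun i hi => hw i (by omega)),
      sum_PI_split (hw0 (n + 1) le_rfl) (hw n (by omega)) (hmono n le_rfl), add_comm]

theorem NP_le (y l p : ℕ) (hp : p.Prime) :
    NP y l p ≤ ((RS ((y + p - 1) / p) (l / p + 1) ((p : ℝ) - 1 / 2)).card : ℝ) := by
  classical
  unfold NP
  norm_cast
  refine Finset.card_le_card_of_injOn (fun n => n / p) ?_ ?_
  · intro n hn
    have hn' := Finset.mem_filter.1 hn
    obtain ⟨h1, ⟨m, hm⟩, h3⟩ := hn'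
    rw [Finset.mem_Ico] at h1
    have hp0 := hp.pos
    have hdiv : n / p = m := by rw [hm, Nat.mul_div_cancel_left _ hp0]
    have hmem : m ∈ RS ((y + p - 1) / p) (l / p + 1) ((p : ℝ) - 1 / 2) := by
      unfold RS
      rw [Finset.mem_filter, Finset.mem_Ico]
      refine ⟨⟨?_, ?_⟩, fun r hr hrm => h3 r hr (hm ▸ Dvd.dvd.mul_left hrm p)⟩
      · have h4 : (y + p - 1) / p ≤ m := by
          rw [Nat.div_le_iff_le_mul_add_pred hp0]
          have : y ≤ p * m := hm ▸ h1.1
          omega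
        exact h4
      · by_contra hcon
        push Not at hcon
        have h5 : y ≤ p * ((y + p - 1) / p) := by
          have h6 := Nat.div_add_mod (y + p - 1) p
          have h7 := Nat.mod_lt (y + p - 1) hp0
          omega
        have h6 : l < p * (l / p + 1) := by
          have h7 := Nat.div_add_mod l p
          have h8 := Nat.mod_lt l hp0
          rw [Nat.mul_add, Nat.mul_one]
          omega
        have h7 : p * ((y + p - 1) / p + (l / p + 1)) ≤ p * m := Nat.mul_le_mul_left p hcon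
        rw [Nat.mul_add] at h7
        have h8 : p * m < y + l := hm ▸ h1.2
        omega
    show n / p ∈ (RS ((y + p - 1) / p) (l / p + 1) ((p : ℝ) - 1 / 2) : Set ℕ)
    rw [hdiv]
    exact Finset.mem_coe.2 hmem
  · intro n hn n' hn' hnn
    obtain ⟨_, ⟨m, hm⟩, _⟩ := Finset.mem_filter.1 hn
    obtain ⟨_, ⟨m', hm'⟩, _⟩ := Finset.mem_filter.1 hn'
    have hp0 := hp.pos
    simp only at hnn
    rw [hm, hm', Nat.mul_div_cancel_left _ hp0, Nat.mul_div_cancel_left _ hp0] at hnn
    rw [hm, hm', hnn]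

theorem card_PI_le {a b : ℝ} (hb : 0 ≤ b) : ((PI a b).card : ℝ) ≤ b := by
  classical
  have hsub : PI a b ⊆ Finset.Icc 1 ⌊b⌋₊ := by
    intro p hp
    obtain ⟨h1, _, h3⟩ := (mem_PI hb).1 hp
    rw [Finset.mem_Icc]
    exact ⟨h1.one_le, Nat.le_floor h3⟩
  have h1 := Finset.card_le_card hsub
  rw [Nat.card_Icc] at h1
  calc ((PI a b).card : ℝ) ≤ (⌊b⌋₊ : ℝ) := by exact_mod_cast (by omega : (PI a b).card ≤ ⌊b⌋₊)
    _ ≤ b := Nat.floor_le hb

end Pool.Agent.M20.Helper5.AV
end

/- Helper53.KN.Helper5.AV.StepLo -/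
section
/-! Project AV part 2 (KS, MP_768c9c_nt), module LS4: the Buchstab step for lower bounds. -/

set_option autoImplicit false

open Filter Topology

namespace Pool.Agent.M20.Helper5.AV

open Pool.Agent.M20.Helper40.AV

theorem band_up {t F ε' Z a b : ℝ} {y l : ℕ} (ht : 1 < t) (hε' : 0 ≤ ε')
    (hU : ∀ z : ℝ, Z ≤ z → ∀ y l : ℕ, z ^ (t - 1) ≤ l → ((RS y l z).card : ℝ) ≤ (F + ε') * l * VV z)
    (ha1 : 1 ≤ a) (hab : a ≤ b) (hZ : Z ≤ a - 1 / 2) (hbl : b ^ t ≤ l) :
    ∑ p ∈ PI a b, NP y l p ≤ (F + ε') * l * (VV a - VV b) + (|F| + ε') * b := by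
  have hb0 : 0 ≤ b := by (clear * - ha1 hab; linarith)
  have hterm : ∀ p ∈ PI a b, NP y l p ≤
      (F + ε') * l * (VV ((p : ℝ) - 1 / 2) / p) + (|F| + ε') := by
    intro p hp
    obtain ⟨hpp, hpa, hpb⟩ := (mem_PI hb0).1 hp
    have hp0 : (0 : ℝ) < p := by exact_mod_cast hpp.pos
    have hl1 : (l : ℝ) / p ≤ ((l / p + 1 : ℕ) : ℝ) := by
      rw [div_le_iff₀ hp0]
      have h1 := Nat.div_add_mod l p
      have h2 := Nat.mod_lt l hpp.pos
      have h3 : l ≤ (l / p + 1) * p := by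
        rw [Nat.add_mul, Nat.one_mul, Nat.mul_comm (l / p) p]
        omega
      exact_mod_cast h3
    have hl2 : ((l / p + 1 : ℕ) : ℝ) ≤ (l : ℝ) / p + 1 := by
      push_cast
      have := Nat.cast_div_le (α := ℝ) (m := l) (n := p)
      (clear * - this; linarith)
    have hcond : ((p : ℝ) - 1 / 2) ^ (t - 1) ≤ ((l / p + 1 : ℕ) : ℝ) := by
      have h1 : ((p : ℝ) - 1 / 2) ^ (t - 1) ≤ (p : ℝ) ^ (t - 1) :=
        Real.rpow_le_rpow (by (clear * - ha1 hpa; linarith)) (by (clear * -; linarith)) (by (clear * - ht; linarith))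
      have h2 : (p : ℝ) ^ (t - 1) ≤ (l : ℝ) / p := by
        rw [le_div_iff₀ hp0]
        calc (p : ℝ) ^ (t - 1) * p = (p : ℝ) ^ (t - 1) * (p : ℝ) ^ (1 : ℝ) := by
              rw [Real.rpow_one]
          _ = (p : ℝ) ^ t := by
              rw [← Real.rpow_add hp0]
              congr 1
              ring
          _ ≤ b ^ t := Real.rpow_le_rpow hp0.le hpb (by (clear * - ht; linarith))
          _ ≤ l := hbl
      exact h1.trans (h2.trans hl1)
    have h3 := (NP_le y l p hpp).trans (hU ((p : ℝ) - 1 / 2) (by linarith) _ _ hcond)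
    have hV0 := vv_pos ((p : ℝ) - 1 / 2)
    have hV1 := vv_le_one ((p : ℝ) - 1 / 2)
    have h4 : (F + ε') * ((l / p + 1 : ℕ) : ℝ) * VV ((p : ℝ) - 1 / 2) =
        (F + ε') * l * (VV ((p : ℝ) - 1 / 2) / p) +
          (F + ε') * ((((l / p + 1 : ℕ) : ℝ) - l / p) * VV ((p : ℝ) - 1 / 2)) := by
      field_simp
      ring
    have h5 : (F + ε') * ((((l / p + 1 : ℕ) : ℝ) - l / p) * VV ((p : ℝ) - 1 / 2)) ≤
        |F| + ε' := by
      have h6 : 0 ≤ (((l / p + 1 : ℕ) : ℝ) - l / p) * VV ((p : ℝ) - 1 / 2) :=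
        mul_nonneg (by (clear * - hl1; linarith)) hV0.le
      have h7 : (((l / p + 1 : ℕ) : ℝ) - l / p) * VV ((p : ℝ) - 1 / 2) ≤ 1 := by
        calc _ ≤ (1 : ℝ) * 1 := mul_le_mul (by (clear * - hl2; linarith)) hV1 hV0.le (by norm_num)
          _ = 1 := one_mul 1
      calc (F + ε') * ((((l / p + 1 : ℕ) : ℝ) - l / p) * VV ((p : ℝ) - 1 / 2))
          ≤ (|F| + ε') * ((((l / p + 1 : ℕ) : ℝ) - l / p) * VV ((p : ℝ) - 1 / 2)) := by
            apply mul_le_mul_of_nonneg_right _ h6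
            (clear * -; linarith [le_abs_self F])
        _ ≤ (|F| + ε') * 1 := by
            apply mul_le_mul_of_nonneg_left h7
            (clear * - hε'; positivity)
        _ = |F| + ε' := mul_one _
    rw [h4] at h3
    (clear * - h3 h5; linarith)
  have htel := Pool.Agent.M20.Helper14.AV.telescope a b ha1 hab
  calc ∑ p ∈ PI a b, NP y l p
      ≤ ∑ p ∈ PI a b, ((F + ε') * l * (VV ((p : ℝ) - 1 / 2) / p) + (|F| + ε')) :=
        Finset.sum_le_sum hterm
    _ = (F + ε') * l * (VV a - VV b) + (PI a b).card * (|F| + ε') := by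
        rw [Finset.sum_add_distrib, ← Finset.mul_sum, ← htel, Finset.sum_const, nsmul_eq_mul]
    _ ≤ (F + ε') * l * (VV a - VV b) + (|F| + ε') * b := by
        have h1 := card_PI_le (a := a) hb0
        have h2 : ((PI a b).card : ℝ) * (|F| + ε') ≤ b * (|F| + ε') :=
          mul_le_mul_of_nonneg_right h1 (by (clear * - hε'; positivity))
        (clear * - h2; linarith)

theorem buch (y l : ℕ) {w z : ℝ} (hw : 1 ≤ w) (hwz : w ≤ z) :
    ((RS y l w).card : ℝ) ≤ (RS y l z).card + ∑ p ∈ PI w z, NP y l p := by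
  refine (Pool.Agent.M20.Helper14.AV.buchstab y l w z hw hwz).trans_eq ?_
  congr 1
  refine Finset.sum_congr rfl fun p _ => ?_
  unfold NP
  congr!

theorem stepLo (hM : Mertens3) : StepLo := by
  intro s T g n t F hs ht0 htn hlt hU hL ε hε
  have hmono : ∀ j ≤ n, ∀ i ≤ j, t i ≤ t j := by
    intro j
    induction j with
    | zero =>
      intro _ i hi
      rw [Nat.le_zero.1 hi]
    | succ j ih =>
      intro hj i hi
      rcases Nat.lt_or_ge i (j + 1) with h | h
      · exact (ih (by omega) i (by omega)).trans (hlt j (by omega)).le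
      · have : i = j + 1 := by omega
        rw [this]
  have hsi : ∀ i ≤ n, s ≤ t i := fun i hi => ht0 ▸ hmono i hi 0 (Nat.zero_le i)
  have hTi : ∀ i ≤ n, t i ≤ T := fun i hi => htn ▸ hmono n le_rfl i hi
  have hsT : s ≤ T := htn ▸ hsi n le_rfl
  have hs0 : 0 < s := by (clear * - hs; linarith)
  have hT0 : 0 < T := by linarith
  obtain ⟨ε', hε'def⟩ : ∃ ε' : ℝ, ε' = ε / (8 * (T / s + 1)) := ⟨_, rfl⟩
  have hε' : 0 < ε' := by rw [hε'def]; (clear * - hε hT0 hs; positivity)
  have hεT : ε' * (T / s) ≤ ε / 8 := by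
    rw [hε'def, div_mul_eq_mul_div, div_le_iff₀ (by positivity)]
    have : 0 ≤ T / s := by positivity
    (clear * - hε; nlinarith)
  have hex : ∀ i, ∃ Z : ℝ, i < n → ∀ z : ℝ, Z ≤ z → ∀ y l : ℕ, z ^ (t i - 1) ≤ l →
      ((RS y l z).card : ℝ) ≤ (F i + ε') * l * VV z := by
    intro i
    by_cases hi : i < n
    · obtain ⟨Z, hZ⟩ := hU i hi ε' hε'
      exact ⟨Z, fun _ => hZ⟩
    · exact ⟨0, fun h => absurd h hi⟩
  choose Z hZ using hex
  obtain ⟨ZL, hZL⟩ := hL ε' hε'
  obtain ⟨Zm, hZmdef⟩ : ∃ Zm : ℝ, Zm = ∑ i ∈ Finset.range n, |Z i| := ⟨_, rfl⟩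
  have hZm : ∀ i < n, Z i ≤ Zm := by
    intro i hi
    rw [hZmdef]
    exact (le_abs_self _).trans (Finset.single_le_sum (f := fun i => |Z i|)
      (fun j _ => abs_nonneg _) (Finset.mem_range.2 hi))
  obtain ⟨K, hKdef⟩ : ∃ K : ℝ, K = ∑ i ∈ Finset.range n, (|F i| + ε') := ⟨_, rfl⟩
  have hK0 : 0 ≤ K := by
    rw [hKdef]
    exact Finset.sum_nonneg fun i _ => by (clear * - hε'; positivity)
  obtain ⟨c, C, hc, _, hMP⟩ := Pool.Agent.M20.Helper44.mertens_prod
  obtain ⟨f, hf⟩ : ∃ f : ℝ, f = T / s * g - 1 / s * ∑ i ∈ Finset.range n, (t (i + 1) - t i) * F i :=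
    ⟨_, rfl⟩
  rw [← hf]
  -- eventual facts
  have hsTpos : 0 < s / T := by positivity
  have e1 : ∀ᶠ z : ℝ in atTop, 1 < z := eventually_gt_atTop 1
  have e2 : ∀ᶠ z : ℝ in atTop, max ZL (Zm + 1) ≤ z ^ (s / T) :=
    (tendsto_rpow_top hsTpos).eventually_ge_atTop _
  have hlim : Tendsto (fun z : ℝ => (g - ε') * (VV (z ^ (s / T)) / VV z) -
      ∑ i ∈ Finset.range n, (F i + ε') * (VV (z ^ (s / t (i + 1))) / VV z -
        VV (z ^ (s / t i)) / VV z)) atTop
      (𝓝 ((g - ε') * (T / s) - ∑ i ∈ Finset.range n, (F i + ε') * (t (i + 1) / s - t i / s))) := by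
    refine ((ratio_tendsto hM hs0 hT0).const_mul _).sub (tendsto_finsetSum _ fun i hi => ?_)
    have hi' := Finset.mem_range.1 hi
    refine Tendsto.const_mul _ ?_
    exact (ratio_tendsto hM hs0 (hs0.trans_le (hsi (i + 1) (by omega)))).sub
      (ratio_tendsto hM hs0 (hs0.trans_le (hsi i (by omega))))
  have hlimval : f - ε / 4 ≤
      (g - ε') * (T / s) - ∑ i ∈ Finset.range n, (F i + ε') * (t (i + 1) / s - t i / s) := by
    have h1 : ∑ i ∈ Finset.range n, (F i + ε') * (t (i + 1) / s - t i / s) =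
        1 / s * ∑ i ∈ Finset.range n, (t (i + 1) - t i) * F i + ε' * ((T - s) / s) := by
      have h2 : ∑ i ∈ Finset.range n, (t (i + 1) - t i) = T - s := by
        rw [Finset.sum_range_sub, ht0, htn]
      rw [← h2, Finset.sum_div, Finset.mul_sum, Finset.mul_sum, ← Finset.sum_add_distrib]
      refine Finset.sum_congr rfl fun i _ => ?_
      field_simp
    rw [h1, hf]
    have h3 : ε' * ((T - s) / s) ≤ ε' * (T / s) := by
      apply mul_le_mul_of_nonneg_left _ hε'.le
      apply div_le_div_of_nonneg_right (by (clear * - hs; linarith)) hs0.le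
    (clear * - hεT h3; nlinarith)
  have e3 := hlim.eventually_const_lt (show f - ε / 2 < _ by (clear * - hε hlimval; linarith))
  have e4 : ∀ᶠ z : ℝ in atTop, Real.log z ≤ (ε * c / (4 * (K + 1))) * z ^ (s - 1) := by
    have h1 := (isLittleO_log_rpow_atTop (show 0 < s - 1 by (clear * - hs; linarith))).bound
      (show (0 : ℝ) < ε * c / (4 * (K + 1)) by (clear * - hε hc hK0; positivity))
    filter_upwards [h1, eventually_ge_atTop (1 : ℝ)] with z hz hz1
    rw [Real.norm_of_nonneg (Real.log_nonneg hz1),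
      Real.norm_of_nonneg (Real.rpow_nonneg (by (clear * - hz1; linarith)) _)] at hz
    exact hz
  obtain ⟨z₀, hz₀⟩ := eventually_atTop.1 (e1.and (e2.and (e3.and (e4.and (eventually_ge_atTop 2)))))
  refine ⟨z₀, fun z hz y l hl => ?_⟩
  obtain ⟨h1, h2, h3, h4, h5⟩ := hz₀ z hz
  have hz0 : 0 < z := by (clear * - h1; linarith)
  have hLz : 0 < Real.log z := Real.log_pos h1
  have hV := vv_pos z
  have hl0 : (0 : ℝ) ≤ l := Nat.cast_nonneg l
  obtain ⟨w, hw⟩ : ∃ w : ℕ → ℝ, w = fun i => z ^ (s / t i) := ⟨_, rfl⟩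
  have hw0 : w 0 = z := by
    rw [hw]
    simp only [ht0, div_self hs0.ne', Real.rpow_one]
  have hwn : w n = z ^ (s / T) := by
    rw [hw]
    simp only [htn]
  have hwpos : ∀ i, 0 < w i := fun i => by rw [hw]; exact Real.rpow_pos_of_pos hz0 _
  have hwlt : ∀ i < n, w (i + 1) ≤ w i := by
    intro i hi
    rw [hw]
    apply Real.rpow_le_rpow_of_exponent_le h1.le
    exact div_le_div_of_nonneg_left hs0.le (hs0.trans_le (hsi i hi.le)) (hlt i hi).le
  have hwge : ∀ i ≤ n, w n ≤ w i := by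
    intro i hi
    rw [hw]
    apply Real.rpow_le_rpow_of_exponent_le h1.le
    exact div_le_div_of_nonneg_left hs0.le (hs0.trans_le (hsi i hi)) (hmono n le_rfl i hi)
  have hwle : ∀ i ≤ n, w i ≤ z := by
    intro i hi
    rw [← hw0]
    rw [hw]
    apply Real.rpow_le_rpow_of_exponent_le h1.le
    rw [ht0]
    exact div_le_div_of_nonneg_left hs0.le hs0 (hsi i hi)
  have hwn1 : 1 ≤ w n := by
    rw [hwn]
    exact Real.one_le_rpow h1.le hsTpos.le
  have hwnZ : Zm + 1 ≤ w n := by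
    rw [hwn]
    exact (le_max_right _ _).trans h2
  have hlow := hZL (w n) (by rw [hwn]; exact (le_max_left _ _).trans h2) y l (by
    rw [hwn, ← Real.rpow_mul hz0.le, div_mul_cancel₀ _ hT0.ne']
    exact hl)
  have hB := buch y l hwn1 (hwle n le_rfl)
  have hsum : ∑ p ∈ PI (w n) z, NP y l p ≤
      ∑ i ∈ Finset.range n, ((F i + ε') * l * (VV (w (i + 1)) - VV (w i)) + (|F i| + ε') * z) := by
    have h6 := sum_bands w (NP y l) n (fun i _ => (hwpos i).le) hwlt
    rw [hw0] at h6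
    rw [h6]
    refine Finset.sum_le_sum fun i hi => ?_
    have hi' := Finset.mem_range.1 hi
    have h7 := band_up (t := t i) (F := F i) (ε' := ε') (Z := Z i) (a := w (i + 1)) (b := w i)
      (y := y) (l := l) (by (clear * - hs hsi hi'; linarith [hsi i hi'.le])) hε'.le (hZ i hi')
      (hwn1.trans (hwge (i + 1) (by omega))) (hwlt i hi')
      (by (clear * - hwnZ hZm hi' hwge; linarith [hZm i hi', hwge (i + 1) (by omega)]))
      (by
        rw [hw]
        rw [← Real.rpow_mul hz0.le, div_mul_cancel₀ _ (hs0.trans_le (hsi i hi'.le)).ne']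
        exact hl)
    have h8 : (|F i| + ε') * w i ≤ (|F i| + ε') * z :=
      mul_le_mul_of_nonneg_left (hwle i hi'.le) (by (clear * - hε'; positivity))
    (clear * - h7 h8; linarith)
  rw [Finset.sum_add_distrib, ← Finset.sum_mul, ← hKdef] at hsum
  have hKz : K * z ≤ ε / 4 * (l * VV z) := by
    have hVc : c / Real.log z ≤ VV z := (hMP z h5).1
    have h6 : z ^ s = z * z ^ (s - 1) := by
      rw [← Real.rpow_one_add' hz0.le (by (clear * - hs; linarith))]
      congr 1
      ring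
    have h7 : K * Real.log z ≤ ε * c / 4 * z ^ (s - 1) := by
      calc K * Real.log z ≤ (K + 1) * ((ε * c / (4 * (K + 1))) * z ^ (s - 1)) :=
            mul_le_mul (by (clear * -; linarith)) h4 hLz.le (by positivity)
        _ = ε * c / 4 * z ^ (s - 1) := by (clear * - hK0 h1 hc hε; field_simp)
    have h8 : K ≤ ε / 4 * (c / Real.log z) * z ^ (s - 1) := by
      have : ε / 4 * (c / Real.log z) * z ^ (s - 1) = (ε * c / 4 * z ^ (s - 1)) / Real.log z := by
        ring
      rw [this, le_div_iff₀ hLz]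
      exact h7
    calc K * z ≤ (ε / 4 * (c / Real.log z) * z ^ (s - 1)) * z :=
          mul_le_mul_of_nonneg_right h8 hz0.le
      _ = ε / 4 * ((z * z ^ (s - 1)) * (c / Real.log z)) := by ring
      _ ≤ ε / 4 * (l * VV z) := by
          apply mul_le_mul_of_nonneg_left _ (by positivity)
          rw [← h6]
          exact mul_le_mul hl hVc (by positivity) hl0
  have hΦ : (l * VV z) * ((g - ε') * (VV (z ^ (s / T)) / VV z) -
      ∑ i ∈ Finset.range n, (F i + ε') * (VV (z ^ (s / t (i + 1))) / VV z -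
        VV (z ^ (s / t i)) / VV z)) =
      (g - ε') * l * VV (w n) -
        ∑ i ∈ Finset.range n, (F i + ε') * l * (VV (w (i + 1)) - VV (w i)) := by
    rw [mul_sub, Finset.mul_sum, hwn]
    congr 1
    · (clear * - hV; field_simp)
    · refine Finset.sum_congr rfl fun i _ => ?_
      rw [hw]
      (clear * - hV; field_simp)
  have h9 : (l * VV z) * (f - ε / 2) ≤ (l * VV z) * ((g - ε') * (VV (z ^ (s / T)) / VV z) -
      ∑ i ∈ Finset.range n, (F i + ε') * (VV (z ^ (s / t (i + 1))) / VV z -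
        VV (z ^ (s / t i)) / VV z)) := mul_le_mul_of_nonneg_left h3.le (by (clear * - hV; positivity))
  rw [hΦ] at h9
  have h10 : 0 ≤ l * VV z := by (clear * - hV; positivity)
  (clear * - hlow hB hsum hKz h9 hε h10; nlinarith)

end Pool.Agent.M20.Helper5.AV
end

/- Helper53.KN.Helper71.AV.StepUp -/
section
/-! Project AV, module LS5: Buchstab step for upper bounds. -/

set_option autoImplicit false

open Filter Topology

namespace Pool.Agent.M20.Helper71.AV

open Pool.Agent.M20.Helper40.AV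
open Pool.Agent.M20.Helper44 (primesUpTo mem_primesUpTo)

open Classical in
/-- the integers in the interval with smallest prime factor `p` -/
noncomputable def AP (y l p : ℕ) : Finset ℕ :=
  (Finset.Ico y (y + l)).filter fun n => p ∣ n ∧
    ∀ r : ℕ, r.Prime → r ∣ n → (p : ℝ) - 1 / 2 < r

theorem mem_AP {y l p n : ℕ} : n ∈ AP y l p ↔ (y ≤ n ∧ n < y + l) ∧ p ∣ n ∧
    ∀ r : ℕ, r.Prime → r ∣ n → (p : ℝ) - 1 / 2 < r := by
  classical
  unfold AP
  rw [Finset.mem_filter, Finset.mem_Ico]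

theorem mem_RS {y l n : ℕ} {z : ℝ} : n ∈ RS y l z ↔ (y ≤ n ∧ n < y + l) ∧
    ∀ r : ℕ, r.Prime → r ∣ n → z < r := by
  classical
  unfold RS
  rw [Finset.mem_filter, Finset.mem_Ico]

theorem nat_le_of_half {p q : ℕ} (h : (p : ℝ) - 1 / 2 < q) : p ≤ q := by
  by_contra hcon
  have h1 : (q : ℝ) + 1 ≤ p := by exact_mod_cast not_le.mp hcon
  (clear * - h h1; linarith)

/-- Buchstab's identity, the other direction -/
theorem rev_buch (y l : ℕ) {w z : ℝ} (hw : 0 ≤ w) (hwz : w ≤ z) :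
    ((RS y l z).card : ℝ) + ∑ p ∈ PI w z, ((AP y l p).card : ℝ) ≤ (RS y l w).card := by
  classical
  have hz : 0 ≤ z := hw.trans hwz
  have hsub : RS y l z ∪ (PI w z).biUnion (AP y l) ⊆ RS y l w := by
    intro n hn
    rw [Finset.mem_union] at hn
    rcases hn with hn | hn
    · rw [mem_RS] at hn ⊢
      exact ⟨hn.1, fun r hr hrn => hwz.trans_lt (hn.2 r hr hrn)⟩
    · rw [Finset.mem_biUnion] at hn
      obtain ⟨p, hp, hn⟩ := hn
      rw [mem_PI hz] at hp
      rw [mem_AP] at hn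
      rw [mem_RS]
      refine ⟨hn.1, fun r hr hrn => ?_⟩
      have h1 : (p : ℝ) ≤ r := by exact_mod_cast nat_le_of_half (hn.2.2 r hr hrn)
      (clear * - hp h1; linarith [hp.2.1])
  have hd1 : Disjoint (RS y l z) ((PI w z).biUnion (AP y l)) := by
    rw [Finset.disjoint_left]
    intro n hn hn'
    rw [Finset.mem_biUnion] at hn'
    obtain ⟨p, hp, hn'⟩ := hn'
    rw [mem_PI hz] at hp
    rw [mem_AP] at hn'
    rw [mem_RS] at hn
    have := hn.2 p hp.1 hn'.2.1
    (clear * - hp this; linarith [hp.2.2])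
  have hd2 : Set.PairwiseDisjoint (↑(PI w z)) (AP y l) := by
    intro p hp q hq hpq
    rw [Finset.mem_coe, mem_PI hz] at hp hq
    change Disjoint _ _
    rw [Finset.disjoint_left]
    intro n hn hn'
    rw [mem_AP] at hn hn'
    have h1 := nat_le_of_half (hn.2.2 q hq.1 hn'.2.1)
    have h2 := nat_le_of_half (hn'.2.2 p hp.1 hn.2.1)
    exact hpq (le_antisymm h1 h2)
  have h := Finset.card_le_card hsub
  rw [Finset.card_union_of_disjoint hd1, Finset.card_biUnion hd2] at h
  exact_mod_cast h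

/-- the multiples of `p` -/
theorem ap_lower (y l p : ℕ) (hp : p.Prime) :
    ∃ y' l' : ℕ, |(l' : ℝ) - l / p| ≤ 1 ∧
      (RS y' l' ((p : ℝ) - 1 / 2)).card ≤ (AP y l p).card := by
  classical
  have hp0 : 0 < p := hp.pos
  set a : ℕ := (y + p - 1) / p with ha
  set b : ℕ := (y + l + p - 1) / p with hb
  have ha1 : p * a ≤ y + p - 1 := Nat.mul_div_le _ _
  have ha2 : y + p - 1 < p * a + p := by
    have := Nat.lt_mul_div_succ (y + p - 1) hp0
    rw [mul_add, mul_one] at this
    exact this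
  have hb1 : p * b ≤ y + l + p - 1 := Nat.mul_div_le _ _
  exact by
    have hb2 : y + l + p - 1 < p * b + p := by
      have := Nat.lt_mul_div_succ (y + l + p - 1) hp0
      rw [mul_add, mul_one] at this
      exact this
    have hab : a ≤ b := Nat.div_le_div_right (by omega)
    refine ⟨a, b - a, ?_, ?_⟩
    · have hpR : (0 : ℝ) < p := by exact_mod_cast hp0
      exact by
        have e1 : (p : ℝ) * a + 1 ≤ y + p := by
          have : p * a + 1 ≤ y + p := by omega
          exact_mod_cast this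
        have e2 : (y : ℝ) ≤ p * a := by
          have : y ≤ p * a := by omega
          exact_mod_cast this
        have e3 : (p : ℝ) * b + 1 ≤ y + l + p := by
          have : p * b + 1 ≤ y + l + p := by omega
          exact_mod_cast this
        have e4 : (y : ℝ) + l ≤ p * b := by
          have : y + l ≤ p * b := by omega
          exact_mod_cast this
        rw [Nat.cast_sub hab]
        have h1 : (b : ℝ) - a - l / p = (p * b - p * a - l) / p := by
          (clear * - hp0; field_simp)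
        rw [h1, abs_le]
        constructor
        · rw [le_div_iff₀ hpR]
          (clear * - e1 e4; linarith)
        · rw [div_le_iff₀ hpR]
          (clear * - e2 e3; linarith)
    · refine Finset.card_le_card_of_injOn (fun m => p * m) ?_ ?_
      · intro m hm
        rw [Finset.mem_coe, mem_RS] at hm
        rw [Finset.mem_coe, mem_AP]
        obtain ⟨⟨h1, h2⟩, h3⟩ := hm
        have h2' : m < b := by omega
        refine ⟨⟨?_, ?_⟩, Dvd.intro _ rfl, ?_⟩
        · have : p * a ≤ p * m := Nat.mul_le_mul_left _ h1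
          show y ≤ p * m
          (clear * - hp0 ha2 hab this; omega)
        · have : p * (m + 1) ≤ p * b := Nat.mul_le_mul_left _ h2'
          rw [mul_add, mul_one] at this
          show p * m < y + l
          omega
        · intro r hr hrn
          rcases (Nat.Prime.dvd_mul hr).1 hrn with h | h
          · rw [(Nat.prime_dvd_prime_iff_eq hr hp).1 h]
            (clear * -; linarith)
          · exact h3 r hr h
      · intro m _ m' _ h
        exact Nat.eq_of_mul_eq_mul_left hp0 h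

/-- the power gap -/
theorem pow_gap {p a : ℝ} (hp : 2 ≤ p) (ha : 2 ≤ a) : (p - 1 / 2) ^ a ≤ p ^ a - 1 := by
  have hp0 : 0 < p := by linarith
  have hq0 : 0 < p - 1 / 2 := by (clear * - hp; linarith)
  have h1 : (p - 1 / 2) ^ a = (p - 1 / 2) ^ (a - 2) * (p - 1 / 2) ^ 2 := by
    rw [← Real.rpow_natCast, ← Real.rpow_add hq0]
    congr 1
    push_cast
    ring
  have h2 : p ^ a = p ^ (a - 2) * p ^ 2 := by
    rw [← Real.rpow_natCast, ← Real.rpow_add hp0]
    congr 1
    push_cast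
    ring
  have h3 : (p - 1 / 2) ^ (a - 2) ≤ p ^ (a - 2) :=
    Real.rpow_le_rpow hq0.le (by (clear * -; linarith)) (by (clear * - ha; linarith))
  have h4 : 1 ≤ p ^ (a - 2) := Real.one_le_rpow (by (clear * - hp; linarith)) (by (clear * - ha; linarith))
  have h5 : 0 ≤ (p - 1 / 2) ^ 2 := by positivity
  rw [h1, h2]
  (clear * - hp h4 h3 h5; nlinarith [mul_le_mul_of_nonneg_right h3 h5])

/-- the bound for one prime -/
theorem ap_bound {τ f e z₀ : ℝ} (he : 0 ≤ e)
    (hf : f = 0 ∨ (3 ≤ τ ∧ ∀ z : ℝ, z₀ ≤ z → ∀ y l : ℕ, z ^ (τ - 1) ≤ l →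
      (f - e) * l * VV z ≤ ((RS y l z).card : ℝ)))
    (y l p : ℕ) (hp : p.Prime) (hz : z₀ ≤ (p : ℝ) - 1 / 2) (hl : (p : ℝ) ^ τ ≤ l) :
    (f - e) * l * (VV ((p : ℝ) - 1 / 2) / p) - |f - e| ≤ ((AP y l p).card : ℝ) := by
  have hV := vv_pos ((p : ℝ) - 1 / 2)
  have hV1 := vv_le_one ((p : ℝ) - 1 / 2)
  have hp2 : (2 : ℝ) ≤ p := by exact_mod_cast hp.two_le
  have hp0 : (0 : ℝ) < p := by (clear * - hp2; linarith)
  rcases hf with hf | ⟨hτ, hf⟩
  · subst hf
    have h1 : 0 ≤ e * l * (VV ((p : ℝ) - 1 / 2) / p) := by (clear * - he hV hp2; positivity)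
    have h2 : 0 ≤ |0 - e| := abs_nonneg _
    have h3 : (0 : ℝ) ≤ ((AP y l p).card : ℝ) := Nat.cast_nonneg _
    have h4 : (0 - e) * l * (VV ((p : ℝ) - 1 / 2) / p) = - (e * l * (VV ((p : ℝ) - 1 / 2) / p)) := by
      ring
    (clear * - h1 h2; linarith)
  · obtain ⟨y', l', hl', hc⟩ := ap_lower y l p hp
    have habs := abs_le.1 hl'
    have h1 : ((p : ℝ) - 1 / 2) ^ (τ - 1) ≤ l' := by
      have h2 := pow_gap hp2 (show (2 : ℝ) ≤ τ - 1 by (clear * - hτ; linarith))
      have h3 : (p : ℝ) ^ (τ - 1) ≤ l / p := by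
        rw [Real.rpow_sub_one hp0.ne']
        exact div_le_div_of_nonneg_right hl hp0.le
      (clear * - habs h2 h3; linarith [habs.1])
    have h4 := hf _ hz y' l' h1
    have h5 : ((RS y' l' ((p : ℝ) - 1 / 2)).card : ℝ) ≤ (AP y l p).card := by exact_mod_cast hc
    refine le_trans ?_ (h4.trans h5)
    have h6 : (f - e) * l * (VV ((p : ℝ) - 1 / 2) / p) - (f - e) * l' * VV ((p : ℝ) - 1 / 2) =
        ((f - e) * VV ((p : ℝ) - 1 / 2)) * (l / p - l') := by
      ring
    have h7 : ((f - e) * VV ((p : ℝ) - 1 / 2)) * (l / p - l') ≤ |f - e| := by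
      refine (le_abs_self _).trans ?_
      rw [abs_mul, abs_mul, abs_of_pos hV, abs_sub_comm (l / p : ℝ)]
      calc |f - e| * VV ((p : ℝ) - 1 / 2) * |(l' : ℝ) - l / p| ≤ |f - e| * 1 * 1 := by
            apply mul_le_mul _ hl' (abs_nonneg _) (by (clear * -; positivity))
            exact mul_le_mul_of_nonneg_left hV1 (abs_nonneg _)
        _ = |f - e| := by ring
    (clear * - h6 h7; linarith)

theorem card_PI_le {w z : ℝ} (hz : 0 ≤ z) : ((PI w z).card : ℝ) ≤ z := by
  have h1 : PI w z ⊆ Finset.Icc 1 ⌊z⌋₊ := by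
    intro p hp
    rw [mem_PI hz] at hp
    rw [Finset.mem_Icc]
    exact ⟨hp.1.one_le, Nat.le_floor hp.2.2⟩
  have h2 := Finset.card_le_card h1
  rw [Nat.card_Icc, Nat.add_sub_cancel] at h2
  calc ((PI w z).card : ℝ) ≤ ⌊z⌋₊ := by exact_mod_cast h2
    _ ≤ z := Nat.floor_le hz

/-- ratio of products -/
theorem vv_ratio (hM : Mertens3) {s t : ℝ} (hs : 0 < s) (ht : 0 < t) :
    Tendsto (fun z : ℝ => VV (z ^ (s / t)) / VV z) atTop (𝓝 (t / s)) := by
  have hst : 0 < s / t := div_pos hs ht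
  have h1 := hM.comp (tendsto_rpow_top hst)
  have hγ : Real.exp (-Real.eulerMascheroniConstant) ≠ 0 := (Real.exp_pos _).ne'
  have h2 := (h1.div hM hγ).mul_const (t / s)
  rw [div_self hγ, one_mul] at h2
  refine h2.congr' ?_
  filter_upwards [eventually_gt_atTop (1 : ℝ)] with z hz
  have hz0 : 0 < z := by linarith
  have hL : Real.log z ≠ 0 := (Real.log_pos hz).ne'
  have hV := (vv_pos z).ne'
  simp only [Function.comp_apply, Pi.div_apply]
  rw [Real.log_rpow hz0]
  (clear * - hs ht hL hV; field_simp)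

theorem vv_small (hM : Mertens3) {s : ℝ} (hs : 1 < s) :
    Tendsto (fun z : ℝ => z ^ (1 - s) / VV z) atTop (𝓝 0) := by
  have hγ : Real.exp (-Real.eulerMascheroniConstant) ≠ 0 := (Real.exp_pos _).ne'
  have h1 : Tendsto (fun z : ℝ => z ^ (1 - s) * Real.log z) atTop (𝓝 0) := by
    have h2 := (isLittleO_log_rpow_atTop (show (0 : ℝ) < s - 1 by linarith)).tendsto_div_nhds_zero
    refine h2.congr' ?_
    filter_upwards [eventually_gt_atTop (1 : ℝ)] with z hz
    have hz0 : 0 < z := by linarith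
    rw [div_eq_mul_inv, ← Real.rpow_neg hz0.le, mul_comm]
    congr 2
    ring
  have h3 := h1.div hM hγ
  rw [zero_div] at h3
  refine h3.congr' ?_
  filter_upwards [eventually_gt_atTop (1 : ℝ)] with z hz
  have hL : Real.log z ≠ 0 := (Real.log_pos hz).ne'
  have hV := (vv_pos z).ne'
  simp only [Pi.div_apply]
  field_simp

/-- LS5: the Buchstab step for upper bounds -/
theorem stepUp (hM : Mertens3) : StepUp := by
  intro s T G n t f hs h0 hn ht hf hG ε hε
  have hs0 : 0 < s := by linarith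
  -- monotonicity
  have hmono : ∀ j, j ≤ n → s ≤ t j := by
    intro j
    induction j with
    | zero => intro _; rw [h0]
    | succ j ih => intro hj; exact (ih (by omega)).trans (ht j (by omega)).le
  have hT : s ≤ T := hn ▸ hmono n le_rfl
  have hT0 : 0 < T := by linarith
  -- choice of e
  set e : ℝ := ε * s / (4 * T) with he
  have he0 : 0 < e := by (clear * - hε hs hT0; positivity)
  exact by
    obtain ⟨zG, hzG⟩ := hG e he0
    have hf' : ∀ i, ∃ z₀ : ℝ, i < n → (f i = 0 ∨ (3 ≤ t i ∧ ∀ z : ℝ, z₀ ≤ z → ∀ y l : ℕ,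
        z ^ (t i - 1) ≤ l → (f i - e) * l * VV z ≤ ((RS y l z).card : ℝ))) := by
      intro i
      by_cases hi : i < n
      · rcases hf i hi with h | ⟨h1, h2⟩
        · exact ⟨0, fun _ => Or.inl h⟩
        · obtain ⟨z₀, hz₀⟩ := h2 e he0
          exact ⟨z₀, fun _ => Or.inr ⟨h1, hz₀⟩⟩
      · exact ⟨0, fun h => absurd h hi⟩
    choose z₀ hz₀ using hf'
    set C : ℝ := ∑ i ∈ Finset.range n, |f i - e| with hC
    -- the comparison function
    set Φ : ℝ → ℝ := fun z => (G + e) * (VV (z ^ (s / T)) / VV z) -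
      ∑ i ∈ Finset.range n, (f i - e) * (VV (z ^ (s / t (i + 1))) / VV z - VV (z ^ (s / t i)) / VV z) +
      C * (z ^ (1 - s) / VV z) with hΦ
    have hlim : Tendsto Φ atTop (𝓝 ((G + e) * (T / s) -
        ∑ i ∈ Finset.range n, (f i - e) * (t (i + 1) / s - t i / s) + C * 0)) := by
      refine ((((vv_ratio hM hs0 hT0).const_mul _).sub ?_).add ((vv_small hM hs).const_mul _))
      refine tendsto_finsetSum _ fun i hi => ?_
      have hi' := Finset.mem_range.1 hi
      exact ((vv_ratio hM hs0 (by (clear * - hs hmono hi'; linarith [hmono (i + 1) (by omega)]))).sub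
        (vv_ratio hM hs0 (by (clear * - hs hmono hi'; linarith [hmono i (by omega)])))).const_mul _
    have hlt : (G + e) * (T / s) -
        ∑ i ∈ Finset.range n, (f i - e) * (t (i + 1) / s - t i / s) + C * 0 <
        T / s * G - 1 / s * ∑ i ∈ Finset.range n, (t (i + 1) - t i) * f i + ε := by
      have h1 : ∑ i ∈ Finset.range n, (f i - e) * (t (i + 1) / s - t i / s) =
          1 / s * ∑ i ∈ Finset.range n, (t (i + 1) - t i) * f i - e * ((T - s) / s) := by
        have h2 : ∑ i ∈ Finset.range n, (t (i + 1) - t i) = T - s := by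
          rw [Finset.sum_range_sub, hn, h0]
        rw [← h2, Finset.mul_sum, Finset.sum_div, Finset.mul_sum, ← Finset.sum_sub_distrib]
        refine Finset.sum_congr rfl fun i _ => ?_
        (clear * - hs; field_simp)
      rw [h1]
      have h3 : e * (T / s) = ε / 4 := by
        rw [he]
        (clear * - hs hT0 hε; field_simp)
      have h4 : e * ((T - s) / s) = ε / 4 - e := by
        rw [sub_div, div_self hs0.ne', mul_sub, h3, mul_one]
      have h5 : (G + e) * (T / s) = T / s * G + e * (T / s) := by ring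
      rw [h5, h3, h4]
      linarith
    have e1 := hlim.eventually_lt_const hlt
    exact by
      have e2 : ∀ᶠ z : ℝ in atTop, 1 < z := eventually_gt_atTop 1
      have tw := tendsto_rpow_top (show 0 < s / T by positivity)
      have e3 : ∀ᶠ z : ℝ in atTop, zG ≤ z ^ (s / T) := tw.eventually_ge_atTop zG
      have e4 : ∀ᶠ z : ℝ in atTop, ∀ i ∈ Finset.range n, z₀ i + 1 / 2 ≤ z ^ (s / T) := by
        rw [Filter.eventually_all_finset]
        intro i _
        exact tw.eventually_ge_atTop _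
      obtain ⟨Z, hZ⟩ := eventually_atTop.1 (e1.and (e2.and (e3.and e4)))
      refine ⟨Z, fun z hz y l hl => ?_⟩
      exact by
        obtain ⟨k1, k2, k3, k4⟩ := hZ z hz
        have hz0 : 0 < z := by (clear * - k2; linarith)
        have hV := vv_pos z
        have hl0 : (0 : ℝ) < l := lt_of_lt_of_le (Real.rpow_pos_of_pos hz0 _) hl
        -- the cut points
        set ζ : ℕ → ℝ := fun i => z ^ (s / t i) with hζ
        have hζ0 : ζ 0 = z := by
          simp only [hζ]
          rw [h0, div_self hs0.ne', Real.rpow_one]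
        have hζn : ζ n = z ^ (s / T) := by
          simp only [hζ]
          rw [hn]
        exact by
          have hζ1 : ∀ i, i ≤ n → 1 ≤ ζ i := by
            intro i hi
            exact Real.one_le_rpow k2.le (div_nonneg hs0.le (by (clear * - hs hmono hi; linarith [hmono i hi])))
          have hζa : ∀ i, i < n → ζ (i + 1) ≤ ζ i := by
            intro i hi
            apply Real.rpow_le_rpow_of_exponent_le k2.le
            apply div_le_div_of_nonneg_left hs0.le _ (ht i hi).le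
            (clear * - hs hmono hi; linarith [hmono i hi.le])
          have hζw : ∀ i, i ≤ n → z ^ (s / T) ≤ ζ i := by
            intro i hi
            rw [← hζn]
            have : ∀ d i : ℕ, i + d = n → ζ n ≤ ζ i := by
              intro d
              induction d with
              | zero => intro i h; rw [← h, add_zero]
              | succ d ih =>
                intro i h
                exact (ih (i + 1) (by omega)).trans (hζa i (by omega))
            exact this (n - i) i (by omega)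
          have hζz : ∀ i, i ≤ n → ζ i ≤ z := by
            intro i hi
            induction i with
            | zero => rw [hζ0]
            | succ i ih => exact (hζa i (by omega)).trans (ih (by omega))
          -- iteration of Buchstab
          have hit : ∀ j, j ≤ n → ((RS y l z).card : ℝ) + ∑ i ∈ Finset.range j,
              ∑ p ∈ PI (ζ (i + 1)) (ζ i), ((AP y l p).card : ℝ) ≤ (RS y l (ζ j)).card := by
            intro j
            induction j with
            | zero => intro _; rw [hζ0]; simp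
            | succ j ih =>
              intro hj
              have h1 := ih (by omega)
              have h2 := rev_buch y l (show 0 ≤ ζ (j + 1) by (clear * - hζ1 hj; linarith [hζ1 (j + 1) hj])) (hζa j (by omega))
              rw [Finset.sum_range_succ]
              (clear * - h1 h2; linarith)
          have hmain := hit n le_rfl
          exact by
            rw [hζn] at hmain
            -- the upper bound at the bottom
            have hbot := hzG _ k3 y l (by
              rw [← Real.rpow_mul hz0.le, div_mul_cancel₀ _ hT0.ne']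
              exact hl)
            -- the bands
            have hband : ∀ i ∈ Finset.range n, (f i - e) * l * (VV (ζ (i + 1)) - VV (ζ i)) - |f i - e| * z ≤
                ∑ p ∈ PI (ζ (i + 1)) (ζ i), ((AP y l p).card : ℝ) := by
              intro i hi
              have hi' := Finset.mem_range.1 hi
              have hti : 0 < t i := by (clear * - hs hmono hi'; linarith [hmono i hi'.le])
              rw [Pool.Agent.M20.Helper14.AV.telescope _ _ (hζ1 (i + 1) hi') (hζa i hi'), Finset.mul_sum]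
              have h1 : ∑ p ∈ PI (ζ (i + 1)) (ζ i), ((f i - e) * l * (VV ((p : ℝ) - 1 / 2) / p) - |f i - e|) ≤
                  ∑ p ∈ PI (ζ (i + 1)) (ζ i), ((AP y l p).card : ℝ) := by
                refine Finset.sum_le_sum fun p hp => ?_
                have hζi : 0 ≤ ζ i := by (clear * - hζ1 hi'; linarith [hζ1 i hi'.le])
                rw [mem_PI hζi] at hp
                obtain ⟨hpp, hp1, hp2⟩ := hp
                refine ap_bound he0.le (hz₀ i hi') y l p hpp ?_ ?_
                · have := k4 i hi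
                  have := hζw (i + 1) hi'
                  linarith
                · refine le_trans ?_ hl
                  have h3 : z ^ s = (ζ i) ^ (t i) := by
                    simp only [hζ]
                    rw [← Real.rpow_mul hz0.le, div_mul_cancel₀ _ hti.ne']
                  rw [h3]
                  exact Real.rpow_le_rpow (Nat.cast_nonneg _) hp2 hti.le
              rw [Finset.sum_sub_distrib, Finset.sum_const, nsmul_eq_mul] at h1
              have h4 : ((PI (ζ (i + 1)) (ζ i)).card : ℝ) * |f i - e| ≤ |f i - e| * z := by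
                rw [mul_comm]
                apply mul_le_mul_of_nonneg_left _ (abs_nonneg _)
                exact (card_PI_le (by (clear * - hζ1 hi'; linarith [hζ1 i hi'.le]))).trans (hζz i hi'.le)
              (clear * - h1 h4; linarith)
            have hsum := Finset.sum_le_sum hband
            rw [Finset.sum_sub_distrib, ← Finset.sum_mul] at hsum
            -- collect
            have hzl : z ≤ l * z ^ (1 - s) := by
              calc z = z ^ s * z ^ (1 - s) := by
                    rw [← Real.rpow_add hz0]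
                    ring_nf
                    rw [Real.rpow_one]
                _ ≤ l * z ^ (1 - s) := mul_le_mul_of_nonneg_right hl (Real.rpow_nonneg hz0.le _)
            have hC0 : 0 ≤ C := Finset.sum_nonneg fun i _ => abs_nonneg _
            have hfin : ((RS y l z).card : ℝ) ≤ Φ z * l * VV z := by
              have h1 : Φ z * l * VV z = (G + e) * l * VV (z ^ (s / T)) -
                  ∑ i ∈ Finset.range n, (f i - e) * l * (VV (ζ (i + 1)) - VV (ζ i)) +
                  C * (l * z ^ (1 - s)) := by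
                simp only [hΦ]
                rw [add_mul, add_mul, sub_mul, sub_mul, Finset.sum_mul, Finset.sum_mul]
                have h2 : (G + e) * (VV (z ^ (s / T)) / VV z) * l * VV z = (G + e) * l * VV (z ^ (s / T)) := by
                  (clear * - hV hl0; field_simp)
                have h3 : C * (z ^ (1 - s) / VV z) * l * VV z = C * (l * z ^ (1 - s)) := by
                  (clear * - hV hl0 k2; field_simp)
                rw [h2, h3]
                congr 2
                refine Finset.sum_congr rfl fun i _ => ?_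
                simp only [hζ]
                (clear * - hV hl0; field_simp)
              rw [h1]
              have h5 : C * z ≤ C * (l * z ^ (1 - s)) := mul_le_mul_of_nonneg_left hzl hC0
              (clear * - hmain hbot hsum h5; linarith)
            refine hfin.trans ?_
            have h6 : Φ z * (l * VV z) ≤
                (T / s * G - 1 / s * ∑ i ∈ Finset.range n, (t (i + 1) - t i) * f i + ε) * (l * VV z) :=
              mul_le_mul_of_nonneg_right k1.le (by (clear * - hl0 hV; positivity))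
            (clear * - h6; linarith)

end Pool.Agent.M20.Helper71.AV
end
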