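import Mathlib
import Pool.Agent.Helper53.KO.G01
import Pool.Agent.Helper53.KO.G05
import Pool.Agent.Helper53.KO.G08
import Pool.Agent.Helper53.KO.G09

set_option linter.all false

/- Helper53.KN.Helper62.KS.Cand -/
section
/-!
# Candidates of a cell and owners of a prime: conditional expectations (project KS, MP_768c9c_nt)

The random set `R` contains the prime `p ≥ P0` with probability `p ^ (-h)`.
-/

set_option autoImplicit false

open MeasureTheory

namespace Pool.Agent.M20.Helper62.KS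

/-- multiples of `a` in an interval -/
theorem card_mult_le (a x E : ℕ) (ha : 0 < a) :
    (((Finset.Ico x (x + E)).filter (fun n => a ∣ n)).card : ℝ) ≤ E / a + 1 := by
  have h1 : ((Finset.Ico x (x + E)).filter (fun n => a ∣ n)).card ≤ E / a + 1 := by
    have h2 : ((Finset.Ico x (x + E)).filter (fun n => a ∣ n)) ⊆
        (Finset.Ico ((x + a - 1) / a) ((x + a - 1) / a + (E / a + 1))).image (fun j => a * j) := by
      intro n hn
      rw [Finset.mem_filter, Finset.mem_Ico] at hn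
      obtain ⟨⟨hn1, hn2⟩, j, rfl⟩ := hn
      rw [Finset.mem_image]
      refine ⟨j, ?_, rfl⟩
      rw [Finset.mem_Ico]
      constructor
      · rw [Nat.div_le_iff_le_mul_add_pred ha]
        omega
      · have h3 : (x + a - 1) / a * a + (x + a - 1) % a = x + a - 1 := Nat.div_add_mod' _ _
        have h4 : (x + a - 1) % a < a := Nat.mod_lt _ ha
        have h5 : E / a * a + E % a = E := Nat.div_add_mod' _ _
        have h6 : E % a < a := Nat.mod_lt _ ha
        by_contra hcon
        push Not at hcon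
        have h7 : ((x + a - 1) / a + (E / a + 1)) * a ≤ j * a := Nat.mul_le_mul_right a hcon
        have h8 : ((x + a - 1) / a + (E / a + 1)) * a =
            (x + a - 1) / a * a + (E / a * a + a) := by ring
        have h9 : j * a = a * j := mul_comm _ _
        omega
    refine (Finset.card_le_card h2).trans (Finset.card_image_le.trans ?_)
    simp
  have h2 : ((E / a : ℕ) : ℝ) ≤ (E : ℝ) / a := Nat.cast_div_le
  calc (((Finset.Ico x (x + E)).filter (fun n => a ∣ n)).card : ℝ) ≤ ((E / a + 1 : ℕ) : ℝ) := by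
        exact_mod_cast h1
    _ = ((E / a : ℕ) : ℝ) + 1 := by push_cast; rfl
    _ ≤ E / a + 1 := by linarith

/-! ### Owners of a prime -/

end Pool.Agent.M20.Helper62.KS
end

/- Helper53.KN.Helper8.KSZ.LineFew -/
section
/-! KSZ-E11: the line integral is small outside of few cells. -/

set_option autoImplicit false
open Filter Topology MeasureTheory

namespace Pool.Agent.M20.Helper8.KSZ.LF

open Pool.Agent.M20.Helper10.QRH Pool.Agent.M20.Helper69.QRH Pool.Agent.M20.Helper46.KSZ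
open Pool.Agent.M20.Helper79.QRH (KK_cont)

lemma line_re (c t : ℝ) : ((c : ℂ) + t * Complex.I).re = c := by simp
lemma line_im (c t : ℝ) : ((c : ℂ) + t * Complex.I).im = t := by simp

/-- the density on the line -/
noncomputable def gg (p : ℕ) (lam T : ℝ) (Z : ℂ → ℂ) : ℝ → ℂ :=
  (Set.Ioc (-T) T).indicator (fun t => KK lam ((0.605 : ℝ) + t * Complex.I) ^ p *
    (-logDeriv Z ((0.605 : ℝ) + t * Complex.I)))

lemma gg_meas {p : ℕ} {lam T : ℝ} (hl : 0 < lam) {Z : ℂ → ℂ} (hZ : Differentiable ℂ Z) :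
    Measurable (gg p lam T Z) := by
  apply Measurable.indicator _ measurableSet_Ioc
  have hi : Continuous (fun t : ℝ => (((0.605 : ℝ) : ℂ) + t * Complex.I)) := by fun_prop
  have h1 : Measurable (fun t : ℝ => KK lam ((0.605 : ℝ) + t * Complex.I)) :=
    ((KK_cont hl).comp hi).measurable
  have h2 : Measurable (fun t : ℝ => logDeriv Z ((0.605 : ℝ) + t * Complex.I)) := by
    have h3 : Measurable (fun t : ℝ => deriv Z ((0.605 : ℝ) + t * Complex.I)) := by
      have : Differentiable ℂ (deriv Z) := fun z => hZ.deriv z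
      exact (this.continuous.comp hi).measurable
    have h4 : Measurable (fun t : ℝ => Z ((0.605 : ℝ) + t * Complex.I)) :=
      (hZ.continuous.comp hi).measurable
    exact h3.div h4
  exact (h1.pow_const p).mul h2.neg

lemma line_eq {p : ℕ} {lam T : ℝ} (hT : 0 ≤ T) (Z : ℂ → ℂ) (u : ℝ) :
    line p lam T Z u = (1 / (2 * Real.pi)) * (Complex.exp ((0.605 : ℝ) * u) *
      ∫ t : ℝ, gg p lam T Z t * Complex.exp (t * u * Complex.I)) := by
  unfold line
  congr 1
  rw [intervalIntegral.integral_of_le (by (clear * - hT; linarith)), ← integral_indicator measurableSet_Ioc,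
    ← integral_const_mul]
  congr 1
  funext t
  unfold gg
  by_cases ht : t ∈ Set.Ioc (-T) T
  · rw [Set.indicator_of_mem ht, Set.indicator_of_mem ht, add_mul, Complex.exp_add,
      show (t : ℂ) * Complex.I * u = t * u * Complex.I by ring]
    ring
  · rw [Set.indicator_of_notMem ht, Set.indicator_of_notMem ht]
    ring

lemma line_norm {p : ℕ} {lam T : ℝ} (hT : 0 ≤ T) (Z : ℂ → ℂ) (u : ℝ) :
    ‖line p lam T Z u‖ ≤ Real.exp (0.605 * u) *
      ‖∫ t : ℝ, gg p lam T Z t * Complex.exp (t * u * Complex.I)‖ := by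
  rw [line_eq hT, norm_mul, norm_mul, Complex.norm_exp]
  have h1 : ‖(1 / (2 * (Real.pi : ℂ)))‖ ≤ 1 := by
    rw [norm_div, norm_one, norm_mul, Complex.norm_real, Real.norm_of_nonneg Real.pi_pos.le,
      Complex.norm_ofNat, div_le_one (by positivity)]
    (clear * -; linarith [Real.pi_gt_three])
  have h2 : (((0.605 : ℝ) : ℂ) * (u : ℂ)).re = 0.605 * u := by
    rw [← Complex.ofReal_mul, Complex.ofReal_re]
  rw [h2]
  exact mul_le_of_le_one_left (by positivity) h1

lemma gg_bound {p : ℕ} (hp : 1 ≤ p) {lam T CK L : ℝ} {Z : ℂ → ℂ} (hCK : 0 ≤ CK) (hL : 0 ≤ L)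
    (hKK : ∀ s : ℂ, 0 ≤ s.re → s.re ≤ 2 → ‖KK lam s‖ ≤ CK / (1 + (lam * s.im) ^ 2))
    (hG : ∀ s : ℂ, 0.605 ≤ s.re → s.re ≤ 2 → |s.im| ≤ T → ‖logDeriv Z s‖ ≤ L) (t : ℝ) :
    ‖gg p lam T Z t‖ ≤ (2 * (CK ^ p * L)) / (1 + (lam * t) ^ 2) * Real.log (2 + |t|) := by
  have hlog : 1/2 ≤ Real.log (2 + |t|) := by
    have h1 : Real.log 2 ≤ Real.log (2 + |t|) :=
      Real.log_le_log (by norm_num) (by (clear * -; linarith [abs_nonneg t]))
    (clear * - h1; linarith [Real.log_two_gt_d9])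
  have hlog0 : 0 ≤ Real.log (2 + |t|) := by linarith
  unfold gg
  by_cases ht : t ∈ Set.Ioc (-T) T
  · rw [Set.indicator_of_mem ht, norm_mul, norm_pow, norm_neg]
    have h1 := hKK ((0.605 : ℝ) + t * Complex.I) (by rw [line_re]; norm_num)
      (by rw [line_re]; norm_num)
    rw [line_im] at h1
    have h2 := hG ((0.605 : ℝ) + t * Complex.I) (by rw [line_re])
      (by rw [line_re]; norm_num) (by rw [line_im]; exact abs_le.2 ⟨ht.1.le, ht.2⟩)
    have h3 : (1 : ℝ) ≤ 1 + (lam * t) ^ 2 := by (clear * -; nlinarith [sq_nonneg (lam * t)])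
    have h4 : ‖KK lam ((0.605 : ℝ) + t * Complex.I)‖ ^ p ≤ CK ^ p / (1 + (lam * t) ^ 2) := by
      calc ‖KK lam ((0.605 : ℝ) + t * Complex.I)‖ ^ p ≤ (CK / (1 + (lam * t) ^ 2)) ^ p := by
            (clear * - h1; gcongr)
        _ = CK ^ p / (1 + (lam * t) ^ 2) ^ p := by rw [div_pow]
        _ ≤ CK ^ p / (1 + (lam * t) ^ 2) := by
            apply div_le_div_of_nonneg_left (by positivity) (by (clear * -; positivity))
            exact le_self_pow₀ h3 (by omega)
    exact by
      calc ‖KK lam ((0.605 : ℝ) + t * Complex.I)‖ ^ p * ‖logDeriv Z ((0.605 : ℝ) + t * Complex.I)‖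
          ≤ (CK ^ p / (1 + (lam * t) ^ 2)) * L := by (clear * - h4 h2 hCK; gcongr)
        _ = (2 * (CK ^ p * L)) / (1 + (lam * t) ^ 2) * (1/2) := by ring
        _ ≤ _ := by gcongr
  · rw [Set.indicator_of_notMem ht, norm_zero]
    (clear * - hCK hL hlog; positivity)

/-- the choice of `K` -/
lemma exists_K (C d : ℝ) (hd : 0 < d) : ∃ K : ℕ, ∀ k : ℕ, K ≤ k →
    C * (k : ℝ) ^ 3 ≤ (2 : ℝ) ^ (3/2 * d * k) := by
  have hr : 1 < (2 : ℝ) ^ (3/2 * d) := Real.one_lt_rpow (by norm_num) (by positivity)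
  have h1 := (tendsto_pow_const_div_const_pow_of_one_lt 3 hr).const_mul C
  rw [mul_zero] at h1
  have h2 := h1.eventually (gt_mem_nhds (one_pos : (0 : ℝ) < 1))
  obtain ⟨K, hK⟩ := Filter.eventually_atTop.1 h2
  refine ⟨K, fun k hk => ?_⟩
  have h3 := hK k hk
  have h4 : (0 : ℝ) < ((2 : ℝ) ^ (3/2 * d)) ^ k := by positivity
  rw [← mul_div_assoc, div_lt_one h4] at h3
  rw [Real.rpow_mul (by norm_num), Real.rpow_natCast]
  exact h3.le

lemma ee_le (d : ℝ) (hd : 0 < d) (k : ℕ) : ee d k ≤ k := by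
  have h1 : (k : ℝ) * (1/2 - d) ≤ k := by
    have : (0 : ℝ) ≤ k := Nat.cast_nonneg k
    nlinarith
  have h2 := Nat.floor_le_floor h1
  rwa [Nat.floor_natCast] at h2

lemma ee_ge (d : ℝ) (k : ℕ) : (k : ℝ) * (1/2 - d) - 1 ≤ ee d k :=
  (Nat.sub_one_lt_floor _).le

/-- the centre of the cell -/
noncomputable def cc (d : ℝ) (k j : ℕ) : ℝ := ((2 ^ k + j * 2 ^ ee d k : ℕ) : ℝ) + (2 : ℝ) ^ ee d k / 2

lemma uu_eq (d : ℝ) (k j : ℕ) : uu d k j = Real.log (cc d k j) := rfl

lemma cc_eq (d : ℝ) (k j : ℕ) : cc d k j = 2 ^ k + j * 2 ^ ee d k + (2 : ℝ) ^ ee d k / 2 := by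
  unfold cc
  push_cast
  ring

lemma cc_pos (d : ℝ) (k j : ℕ) : 0 < cc d k j := by
  rw [cc_eq]; (clear * -; positivity)

lemma cc_lt (d : ℝ) (hd : 0 < d) (k j : ℕ) (hj : j < 2 ^ (k - ee d k)) : cc d k j ≤ 2 * 2 ^ k := by
  rw [cc_eq]
  have h1 : (j + 1) * 2 ^ ee d k ≤ 2 ^ k := by
    calc (j + 1) * 2 ^ ee d k ≤ 2 ^ (k - ee d k) * 2 ^ ee d k := Nat.mul_le_mul_right _ hj
      _ = 2 ^ k := by rw [← pow_add, Nat.sub_add_cancel (ee_le d hd k)]
  have h2 : ((j : ℝ) + 1) * 2 ^ ee d k ≤ 2 ^ k := by exact_mod_cast h1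
  have h3 : (0 : ℝ) < 2 ^ ee d k := by positivity
  (clear * - h2 h3; linarith)

lemma lamk_pos {p : ℕ} (hp : 1 ≤ p) (d : ℝ) (k : ℕ) : 0 < lamk p d k := by
  unfold lamk
  have : (0 : ℝ) < p := by exact_mod_cast hp
  (clear * - hp; positivity)

lemma uu_sep {p : ℕ} (hp : 1 ≤ p) (d : ℝ) (hd : 0 < d) (k j j' : ℕ) (hjj : j < j')
    (hj : j' < 2 ^ (k - ee d k)) : lamk p d k ≤ uu d k j' - uu d k j := by
  rw [uu_eq, uu_eq]
  have h1 : cc d k j + 2 ^ ee d k ≤ cc d k j' := by
    rw [cc_eq, cc_eq]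
    have h2 : (j : ℝ) + 1 ≤ j' := by exact_mod_cast hjj
    have h3 : (0 : ℝ) < 2 ^ ee d k := by positivity
    (clear * - h2 h3; nlinarith)
  have h3 : (0 : ℝ) < 2 ^ ee d k := by positivity
  have h4 := Helper30.QRH.log_gap (cc_pos d k j) (by (clear * - h1 h3; linarith) : cc d k j ≤ cc d k j')
  refine le_trans ?_ h4
  have h5 := cc_lt d hd k j' hj
  have h6 := cc_pos d k j'
  unfold lamk
  have hp' : (1 : ℝ) ≤ p := by exact_mod_cast hp
  exact by
    have hX : (0 : ℝ) < 2 ^ k := by positivity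
    rw [div_le_div_iff₀ (by positivity) h6]
    have h7 : (2 : ℝ) * 2 ^ k ≤ 8 * p * 2 ^ k := by
      have : (2 : ℝ) ≤ 8 * p := by (clear * - hp'; linarith)
      exact mul_le_mul_of_nonneg_right this hX.le
    calc (2 : ℝ) ^ ee d k * cc d k j' ≤ 2 ^ ee d k * (8 * p * 2 ^ k) := by gcongr; (clear * - h5 h7; linarith)
      _ ≤ (cc d k j' - cc d k j) * (8 * p * 2 ^ k) := by
          apply mul_le_mul_of_nonneg_right _ (by positivity)
          (clear * - h1; linarith)

lemma uu_abs {p : ℕ} (hp : 1 ≤ p) (d : ℝ) (hd : 0 < d) (k j j' : ℕ) (hne : j ≠ j')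
    (hj : j < 2 ^ (k - ee d k)) (hj' : j' < 2 ^ (k - ee d k)) :
    lamk p d k ≤ |uu d k j - uu d k j'| := by
  rcases lt_or_gt_of_ne hne with h | h
  · rw [abs_sub_comm]
    exact (uu_sep hp d hd k j j' h hj').trans (le_abs_self _)
  · exact (uu_sep hp d hd k j' j h hj).trans (le_abs_self _)

lemma lamk_le {p : ℕ} (hp : 1 ≤ p) (d : ℝ) (hd : 0 < d) (k : ℕ) : lamk p d k ≤ 1/2 := by
  unfold lamk
  have hp' : (1 : ℝ) ≤ p := by exact_mod_cast hp
  have hX : (0 : ℝ) < 2 ^ k := by positivity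
  rw [div_le_iff₀ (by positivity)]
  have h1 : (2 : ℝ) ^ ee d k ≤ 2 ^ k := pow_le_pow_right₀ (by norm_num) (ee_le d hd k)
  (clear * - hX h1 hp'; nlinarith)

lemma inv_lamk {p : ℕ} (hp : 1 ≤ p) (d : ℝ) (k : ℕ) :
    1 / lamk p d k ≤ 16 * p * (2 : ℝ) ^ ((1/2 + d) * k) := by
  unfold lamk
  have hp' : (1 : ℝ) ≤ p := by exact_mod_cast hp
  rw [one_div_div]
  have h1 : (2 : ℝ) ^ ((k : ℝ) * (1/2 - d) - 1) ≤ (2 : ℝ) ^ ee d k := by
    rw [← Real.rpow_natCast (2 : ℝ) (ee d k)]
    exact Real.rpow_le_rpow_of_exponent_le (by norm_num) (ee_ge d k)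
  rw [div_le_iff₀ (by positivity)]
  have h2 : (2 : ℝ) ^ k = 2 * ((2 : ℝ) ^ ((1/2 + d) * k) * (2 : ℝ) ^ ((k : ℝ) * (1/2 - d) - 1)) := by
    rw [← Real.rpow_add (by norm_num), ← Real.rpow_natCast (2 : ℝ) k]
    nth_rewrite 2 [← Real.rpow_one (2 : ℝ)]
    rw [← Real.rpow_add (by norm_num)]
    congr 1
    ring
  calc 8 * p * (2 : ℝ) ^ k = 16 * p * (2 : ℝ) ^ ((1/2 + d) * k) *
        (2 : ℝ) ^ ((k : ℝ) * (1/2 - d) - 1) := by rw [h2]; ring
    _ ≤ _ := by (clear * - h1 hp; gcongr)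

lemma log_inv_lamk {p : ℕ} (hp : 1 ≤ p) (d : ℝ) (k : ℕ) (hk : 1 ≤ k) :
    Real.log (1 / lamk p d k) ≤ 9 * p * k := by
  have hp' : (1 : ℝ) ≤ p := by exact_mod_cast hp
  have hk' : (1 : ℝ) ≤ k := by exact_mod_cast hk
  have h1 : 1 / lamk p d k ≤ 8 * p * 2 ^ k := by
    unfold lamk
    rw [one_div_div]
    apply div_le_self (by positivity)
    exact one_le_pow₀ (by norm_num)
  have h2 : Real.log (1 / lamk p d k) ≤ Real.log (8 * p * 2 ^ k) :=
    Real.log_le_log (by have := lamk_pos hp d k; positivity) h1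
  refine h2.trans ?_
  rw [Real.log_mul (by (clear * - hp; positivity)) (by positivity), Real.log_pow]
  have h3 : Real.log (8 * p) ≤ 8 * p := by
    have := Real.log_le_sub_one_of_pos (by positivity : (0 : ℝ) < 8 * p)
    (clear * - this; linarith)
  have h4 : Real.log 2 ≤ 1 := by (clear * -; linarith [Real.log_two_lt_d9])
  have h5 : (k : ℝ) * Real.log 2 ≤ p * k := by
    have h6 : (k : ℝ) * Real.log 2 ≤ k * 1 := by gcongr
    (clear * - h6 hp'; nlinarith)
  (clear * - h3 h5 hk'; nlinarith)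

lemma logT (k : ℕ) (hk : 1 ≤ k) : Real.log ((2 : ℝ) ^ (5 * k) + 2) ≤ 6 * k := by
  have hk' : (1 : ℝ) ≤ k := by exact_mod_cast hk
  have h1 : (2 : ℝ) ^ (5 * k) + 2 ≤ 2 ^ (5 * k + 1) := by
    have : (2 : ℝ) ^ 1 ≤ 2 ^ (5 * k) := pow_le_pow_right₀ (by norm_num) (by omega)
    rw [pow_succ]
    linarith
  refine (Real.log_le_log (by positivity) h1).trans ?_
  rw [Real.log_pow]
  push_cast
  have h4 : Real.log 2 ≤ 1 := by (clear * -; linarith [Real.log_two_lt_d9])
  have : (5 * (k : ℝ) + 1) * Real.log 2 ≤ (5 * k + 1) * 1 := by (clear * - h4 hk; gcongr)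
  (clear * - hk' this; linarith)

lemma exp_uu (d : ℝ) (hd : 0 < d) (k j : ℕ) (hj : j < 2 ^ (k - ee d k)) :
    Real.exp (0.605 * uu d k j) ≤ 2 * (2 : ℝ) ^ ((0.605 : ℝ) * k) := by
  rw [uu_eq, mul_comm, ← Real.rpow_def_of_pos (cc_pos d k j)]
  calc cc d k j ^ (0.605 : ℝ) ≤ (2 * 2 ^ k) ^ (0.605 : ℝ) :=
        Real.rpow_le_rpow (cc_pos d k j).le (cc_lt d hd k j hj) (by norm_num)
    _ = (2 : ℝ) ^ (0.605 : ℝ) * (2 : ℝ) ^ ((0.605 : ℝ) * k) := by
        rw [Real.mul_rpow (by norm_num) (by positivity), ← Real.rpow_natCast (2 : ℝ) k,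
          ← Real.rpow_mul (by norm_num), mul_comm (k : ℝ)]
    _ ≤ 2 * (2 : ℝ) ^ ((0.605 : ℝ) * k) := by
        gcongr
        calc (2 : ℝ) ^ (0.605 : ℝ) ≤ (2 : ℝ) ^ (1 : ℝ) :=
              Real.rpow_le_rpow_of_exponent_le (by norm_num) (by norm_num)
          _ = 2 := Real.rpow_one 2

end Pool.Agent.M20.Helper8.KSZ.LF

namespace Pool.Agent.M20.Helper8.KSZ

open Pool.Agent.M20.Helper10.QRH Pool.Agent.M20.Helper69.QRH Pool.Agent.M20.Helper46.KSZ

theorem lineFew (hK : KFacts) (hG : GBound) (hD : Duality) : LineFew := by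
  obtain ⟨CK0, hCK0⟩ := hK.bound
  obtain ⟨CG, hCG0, hCG⟩ := hG
  obtain ⟨CD, hCD⟩ := hD
  set CK : ℝ := |CK0| + 1 with hCKd
  have hCK1 : 1 ≤ CK := by linarith [abs_nonneg CK0]
  intro p d hp hd hd1
  have hp' : (1 : ℝ) ≤ p := by exact_mod_cast hp
  set C' : ℝ := 200 * |CD| * (2 * (CK ^ p * (CG * 36))) * (9 * p) * (16 * p) with hC'
  obtain ⟨K, hKk⟩ := LF.exists_K C' d hd
  refine ⟨K + 1, ?_⟩
  intro k hk M Z hB
  have hk1 : 1 ≤ k := by omega
  have hk1' : (1 : ℝ) ≤ k := by exact_mod_cast hk1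
  exact by
    set lam := lamk p d k with hlam
    have hl : 0 < lam := LF.lamk_pos hp d k
    have hl2 : lam ≤ 1/2 := LF.lamk_le hp d hd k
    set T : ℝ := 2 ^ (5 * k) with hTd
    have hT : 1 ≤ T := one_le_pow₀ (by norm_num)
    obtain ⟨hG1, -⟩ := hCG T M Z hT hB
    set L : ℝ := CG * (36 * (k : ℝ) ^ 2) with hLd
    exact by
      have hL0 : 0 ≤ L := by positivity
      have hlogT : (Real.log (T + 2)) ^ 2 ≤ 36 * (k : ℝ) ^ 2 := by
        have h1 := LF.logT k hk1
        have h2 : 0 ≤ Real.log (T + 2) := Real.log_nonneg (by (clear * - hd hd1 hT; linarith))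
        calc (Real.log (T + 2)) ^ 2 ≤ (6 * (k : ℝ)) ^ 2 := by (clear * - h2 h1; gcongr)
          _ = _ := by ring
      set B : ℝ := 2 * (CK ^ p * L) with hBd
      have hB0 : 0 ≤ B := by (clear * - hCG0 hk1; positivity)
      have hgb := LF.gg_bound hp (lam := lam) (T := T) (CK := CK) (L := L) (Z := Z) (by (clear * - hCK1 hd hd1; linarith)) hL0
        (by
          intro s h0 h2
          refine (hCK0 lam hl (by (clear * - hd hd1 hl2; linarith)) s h0 h2).trans ?_
          apply div_le_div_of_nonneg_right _ (by (clear * -; positivity))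
          (clear * - hd hd1; linarith [le_abs_self CK0]))
        (by
          intro s h0 h2 h3
          refine (hG1 s h0 h2 h3).trans ?_
          rw [hLd]
          gcongr)
      set F := (Finset.range (2 ^ (k - ee d k))).filter (fun j =>
          1/100 * (2 : ℝ) ^ k ≤ ‖line p lam T Z (uu d k j)‖) with hF
      exact by
        have hFj : ∀ j ∈ F, j < 2 ^ (k - ee d k) := by
          intro j hj
          exact Finset.mem_range.1 (Finset.mem_filter.1 hj).1
        have hinj : Set.InjOn (uu d k) F := by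
          intro a ha b hb hab
          by_contra hne
          have := LF.uu_abs hp d hd k a b hne (hFj a ha) (hFj b hb)
          rw [hab, sub_self, abs_zero] at this
          (clear * - hl this; linarith)
        have hdual := hCD lam hl hl2 (LF.gg p lam T Z) (LF.gg_meas hl hB.diff) B hB0 hgb
          (F.image (uu d k)) (by
            intro u hu u' hu' hne
            obtain ⟨a, ha, rfl⟩ := Finset.mem_image.1 hu
            obtain ⟨b, hb, rfl⟩ := Finset.mem_image.1 hu'
            exact LF.uu_abs hp d hd k a b (fun h => hne (by rw [h])) (hFj a ha) (hFj b hb))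
        rw [Finset.sum_image hinj, Finset.card_image_of_injOn hinj] at hdual
        -- lower bound for each term
        set E : ℝ := (2 : ℝ) ^ ((0.605 : ℝ) * k) with hE
        have hE0 : 0 < E := by positivity
        have hlow : ∀ j ∈ F, (2 : ℝ) ^ k / (200 * E) ≤
            ‖∫ t : ℝ, LF.gg p lam T Z t * Complex.exp (t * (uu d k j) * Complex.I)‖ := by
          intro j hj
          have h1 := (Finset.mem_filter.1 hj).2
          have h2 := LF.line_norm (p := p) (lam := lam) (T := T) (by (clear * - hd hd1 hT; linarith)) Z (uu d k j)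
          have h3 := LF.exp_uu d hd k j (hFj j hj)
          rw [div_le_iff₀ (by positivity)]
          have h4 : Real.exp (0.605 * uu d k j) *
              ‖∫ t : ℝ, LF.gg p lam T Z t * Complex.exp (t * (uu d k j) * Complex.I)‖ ≤
              (2 * E) * ‖∫ t : ℝ, LF.gg p lam T Z t * Complex.exp (t * (uu d k j) * Complex.I)‖ := by
            (clear * - h3; gcongr)
          (clear * - h1 h2 h4; linarith)
        have hsum : (F.card : ℝ) * ((2 : ℝ) ^ k / (200 * E)) ≤
            CD * B * Real.log (1 / lam) / lam * Real.sqrt F.card := by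
          refine le_trans ?_ hdual
          rw [← nsmul_eq_mul]
          exact Finset.card_nsmul_le_sum _ _ _ hlow
        -- final computation
        exact by
          rcases Nat.eq_zero_or_pos F.card with h0 | hpos
          · rw [h0]
            simp only [Nat.cast_zero]
            positivity
          have hFc : (0 : ℝ) < F.card := by exact_mod_cast hpos
          set S : ℝ := Real.sqrt F.card with hS
          have hS0 : 0 < S := Real.sqrt_pos.2 hFc
          have hSS : (F.card : ℝ) = S * S := (Real.mul_self_sqrt hFc.le).symm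
          have hlog0 : 0 ≤ Real.log (1 / lam) := Real.log_nonneg (by rw [le_div_iff₀ hl]; (clear * - hd hd1 hl2; linarith))
          have hS1 : S * ((2 : ℝ) ^ k / (200 * E)) ≤ CD * B * Real.log (1 / lam) / lam := by
            rw [hSS] at hsum
            have : S * (S * ((2 : ℝ) ^ k / (200 * E))) ≤ S * (CD * B * Real.log (1 / lam) / lam) := by
              (clear * - hsum; linarith)
            exact le_of_mul_le_mul_left this hS0
          have h1 := LF.inv_lamk hp d k
          exact by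
            have h2 := LF.log_inv_lamk hp d k hk1
            have hS2 : CD * B * Real.log (1 / lam) / lam ≤
                |CD| * B * (9 * p * k) * (16 * p * (2 : ℝ) ^ ((1/2 + d) * k)) := by
              calc CD * B * Real.log (1 / lam) / lam = CD * (B * Real.log (1 / lam) * (1 / lam)) := by
                    (clear * - hl; field_simp)
                _ ≤ |CD| * (B * Real.log (1 / lam) * (1 / lam)) := by
                    apply mul_le_mul_of_nonneg_right (le_abs_self _) (by (clear * - hCG0 hk1 hlog0 hl; positivity))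
                _ ≤ |CD| * (B * (9 * p * k) * (16 * p * (2 : ℝ) ^ ((1/2 + d) * k))) := by (clear * - h2 hCG0 hk1 h1 hl hp; gcongr)
                _ = _ := by ring
            have hXk : (2 : ℝ) ^ k = (2 : ℝ) ^ (k : ℝ) := (Real.rpow_natCast _ _).symm
            have hS3 : S ≤ C' * (k : ℝ) ^ 3 * (2 : ℝ) ^ ((0.105 + d) * k) := by
              have h3 : S * ((2 : ℝ) ^ k / (200 * E)) ≤
                  |CD| * B * (9 * p * k) * (16 * p * (2 : ℝ) ^ ((1/2 + d) * k)) := hS1.trans hS2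
              have h4 : (2 : ℝ) ^ ((1/2 + d) * k) * E = (2 : ℝ) ^ ((0.105 + d) * k) * (2 : ℝ) ^ k := by
                rw [hE, hXk, ← Real.rpow_add (by norm_num), ← Real.rpow_add (by norm_num)]
                congr 1
                ring
              rw [← mul_div_assoc, div_le_iff₀ (by positivity)] at h3
              have h5 : |CD| * B * (9 * p * k) * (16 * p * (2 : ℝ) ^ ((1/2 + d) * k)) * (200 * E) =
                  C' * (k : ℝ) ^ 3 * (2 : ℝ) ^ ((0.105 + d) * k) * (2 : ℝ) ^ k := by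
                calc _ = 200 * |CD| * B * (9 * p * k) * (16 * p) * ((2 : ℝ) ^ ((1/2 + d) * k) * E) := by ring
                  _ = 200 * |CD| * B * (9 * p * k) * (16 * p) *
                      ((2 : ℝ) ^ ((0.105 + d) * k) * (2 : ℝ) ^ k) := by rw [h4]
                  _ = _ := by
                    rw [hC', hBd, hLd]
                    ring
              rw [h5] at h3
              exact le_of_mul_le_mul_right h3 (by positivity)
            have hS4 : S ≤ (2 : ℝ) ^ ((0.105 + 5/2 * d) * k) := by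
              refine hS3.trans ?_
              have h6 := hKk k (by omega)
              calc C' * (k : ℝ) ^ 3 * (2 : ℝ) ^ ((0.105 + d) * k) ≤
                  (2 : ℝ) ^ (3/2 * d * k) * (2 : ℝ) ^ ((0.105 + d) * k) := by (clear * - h6; gcongr)
                _ = _ := by
                  rw [← Real.rpow_add (by norm_num)]
                  congr 1
                  ring
            rw [hSS]
            calc S * S ≤ (2 : ℝ) ^ ((0.105 + 5/2 * d) * k) * (2 : ℝ) ^ ((0.105 + 5/2 * d) * k) :=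
                  mul_le_mul hS4 hS4 hS0.le (by positivity)
              _ = (2 : ℝ) ^ ((0.21 + 5 * d) * k) := by
                rw [← Real.rpow_add (by norm_num)]
                congr 1
                ring

end Pool.Agent.M20.Helper8.KSZ
end

/- Helper53.KN.Helper8.KSZ.Shift -/
section
/-! KSZ-E7: the shift to the line `Re s = 0.605`. -/

set_option autoImplicit false
open Filter Topology MeasureTheory

namespace Pool.Agent.M20.Helper8.KSZ

open Pool.Agent.M20.Helper10.QRH Pool.Agent.M20.Helper69.QRH Pool.Agent.M20.Helper46.KSZ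

lemma tail_Ioi {f : ℝ → ℂ} {C T : ℝ} (hT : 0 < T)
    (hb : ∀ t, T < |t| → ‖f t‖ ≤ C / t ^ 2) :
    ‖∫ t in Set.Ioi T, f t‖ ≤ C / T := by
  have h1 : IntegrableOn (fun t : ℝ => C * t ^ (-2 : ℝ)) (Set.Ioi T) :=
    (integrableOn_Ioi_rpow_of_lt (by norm_num) hT).const_mul C
  have h2 : ∫ t in Set.Ioi T, C * t ^ (-2 : ℝ) = C / T := by
    rw [integral_const_mul, integral_Ioi_rpow_of_lt (by norm_num) hT]
    have : (-2 : ℝ) + 1 = -1 := by norm_num
    rw [this, Real.rpow_neg_one]
    field_simp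
  rw [← h2]
  refine norm_integral_le_of_norm_le h1 ?_
  refine (ae_restrict_mem measurableSet_Ioi).mono fun t ht => ?_
  have ht' : T < t := ht
  have h3 : 0 < t := hT.trans ht'
  have h4 := hb t (by rwa [abs_of_pos h3])
  rw [Real.rpow_neg h3.le, show (2 : ℝ) = ((2 : ℕ) : ℝ) by norm_num, Real.rpow_natCast,
    ← div_eq_mul_inv]
  exact h4

lemma tail_Iic {f : ℝ → ℂ} {C T : ℝ} (hT : 0 < T)
    (hb : ∀ t, T < |t| → ‖f t‖ ≤ C / t ^ 2) :
    ‖∫ t in Set.Iic (-T), f t‖ ≤ C / T := by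
  have h1 : ∫ t in Set.Iic (-T), f t = ∫ t in Set.Ioi T, f (-t) := by
    have := integral_comp_neg_Ioi T f
    rw [this]
  rw [h1]
  apply tail_Ioi hT
  intro t ht
  have := hb (-t) (by rwa [abs_neg])
  rwa [neg_sq] at this

lemma tail_bound {f : ℝ → ℂ} (hf : Integrable f) {C T : ℝ} (hT : 0 < T)
    (hb : ∀ t, T < |t| → ‖f t‖ ≤ C / t ^ 2) :
    ‖(∫ t : ℝ, f t) - ∫ t in (-T)..T, f t‖ ≤ 2 * (C / T) := by
  have h1 : ∫ t : ℝ, f t = (∫ t in Set.Iic (-T), f t) + (∫ t in (-T)..T, f t) +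
      ∫ t in Set.Ioi T, f t := by
    rw [intervalIntegral.integral_of_le (by (clear * - hT; linarith))]
    rw [← setIntegral_union (by
        rw [Set.disjoint_left]
        intro x hx hx'
        exact absurd hx'.1 (not_lt.2 hx)) measurableSet_Ioc hf.integrableOn hf.integrableOn,
      Set.Iic_union_Ioc_eq_Iic (by linarith), ← setIntegral_union (by
        rw [Set.disjoint_left]
        intro x hx hx'
        exact absurd (show T < x from hx') (not_lt.2 hx)) measurableSet_Ioi hf.integrableOn hf.integrableOn,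
      Set.Iic_union_Ioi, setIntegral_univ]
  rw [h1]
  have h2 : (∫ t in Set.Iic (-T), f t) + (∫ t in (-T)..T, f t) + (∫ t in Set.Ioi T, f t) -
      (∫ t in (-T)..T, f t) = (∫ t in Set.Iic (-T), f t) + ∫ t in Set.Ioi T, f t := by ring
  rw [h2]
  refine (norm_add_le _ _).trans ?_
  have h3 := tail_Iic hT hb
  have h4 := tail_Ioi hT hb
  (clear * - h3 h4; linarith)

lemma line_re (c t : ℝ) : ((c : ℂ) + t * Complex.I).re = c := by simp
lemma line_im (c t : ℝ) : ((c : ℂ) + t * Complex.I).im = t := by simp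

theorem shift (hK : KFacts) (hG : GBound) (h6 : LineTwo) : Shift := by
  obtain ⟨CK0, hCK0⟩ := hK.bound
  obtain ⟨CG, hCG0, hCG⟩ := hG
  set CK : ℝ := |CK0| + 1 with hCKd
  have hCK1 : 0 < CK := by (clear * -; positivity)
  refine ⟨CK * CG + 1, by positivity, ?_⟩
  intro T M Z hT hB lam u hl hl1 hu
  obtain ⟨hG1, hG2⟩ := hCG T M Z hT hB
  obtain ⟨hi, he⟩ := h6 T M Z hT hB lam u hl hl1 hu
  have hT0 : 0 < T := by linarith
  set L : ℝ := Real.log (T + 2) with hL
  have hL0 : 0 ≤ L := Real.log_nonneg (by (clear * - hT; linarith))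
  set J : ℂ → ℂ := fun s => KK lam s * (-logDeriv Z s) * Complex.exp (s * u) with hJ
  have hZd : ∀ s : ℂ, 3/5 < s.re → |s.im| < T + 2 → DifferentiableAt ℂ (logDeriv Z) s := by
    intro s hs1 hs2
    have h1 : DifferentiableAt ℂ (deriv Z) s :=
      (hB.diff.deriv s)
    exact h1.div (hB.diff s) (hB.ne s hs1 hs2)
  have hJd : ∀ s : ℂ, 3/5 < s.re → |s.im| < T + 2 → DifferentiableAt ℂ J s := by
    intro s hs1 hs2
    refine ((hK.diff lam hl s).mul (hZd s hs1 hs2).neg).mul ?_
    fun_prop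
  -- bound
  set B : ℝ := CK * CG * Real.exp (2 * u) * L ^ 2 / lam ^ 2 with hBd
  have hB0 : 0 ≤ B := by (clear * - hCG0 hl; positivity)
  have hJb : ∀ s : ℂ, 0.605 ≤ s.re → s.re ≤ 2 → s.im ≠ 0 → ‖logDeriv Z s‖ ≤ CG * L ^ 2 →
      ‖J s‖ ≤ B / s.im ^ 2 := by
    intro s hs1 hs2 hs3 hs4
    have b1 := hCK0 lam hl hl1 s (by (clear * - hs1; linarith)) hs2
    have hp : (0 : ℝ) < (lam * s.im) ^ 2 := by positivity
    have b1' : ‖KK lam s‖ ≤ CK / (lam * s.im) ^ 2 := by
      refine b1.trans ?_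
      refine (div_le_div_of_nonneg_right ((le_abs_self CK0).trans (by linarith : |CK0| ≤ CK))
        (by positivity)).trans ?_
      exact div_le_div_of_nonneg_left hCK1.le hp (by linarith)
    have b3 : ‖Complex.exp (s * u)‖ ≤ Real.exp (2 * u) := by
      rw [Complex.norm_exp]
      apply Real.exp_le_exp.2
      simp only [Complex.mul_re, Complex.ofReal_re, Complex.ofReal_im, mul_zero, sub_zero]
      (clear * - hs2 hu; nlinarith)
    calc ‖J s‖ = ‖KK lam s‖ * ‖logDeriv Z s‖ * ‖Complex.exp (s * u)‖ := by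
          simp only [hJ, norm_mul, norm_neg]
      _ ≤ (CK / (lam * s.im) ^ 2) * (CG * L ^ 2) * Real.exp (2 * u) := by (clear * - b1' hs4 hl hs3 b3 hCG0; gcongr)
      _ = B / s.im ^ 2 := by
          rw [hBd]
          (clear * - hCG0 hs3 hl hCK1; field_simp)
  -- tail
  have htail := tail_bound hi hT0 (C := B) (by
    intro t ht
    have ht0 : t ≠ 0 := by
      rintro rfl
      rw [abs_zero] at ht
      linarith
    have := hJb ((2 : ℝ) + t * Complex.I) (by rw [line_re]; norm_num) (by rw [line_re])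
      (by rwa [line_im]) (by
        have := hG2 t
        push_cast
        exact this)
    rwa [line_im] at this)
  -- rectangle
  have hrect : (∫ x : ℝ in (0.605 : ℝ)..2, J (x + ((-T : ℝ) : ℂ) * Complex.I)) -
        (∫ x : ℝ in (0.605 : ℝ)..2, J (x + (T : ℂ) * Complex.I)) +
        Complex.I * (∫ y : ℝ in (-T)..T, J ((2 : ℝ) + y * Complex.I)) -
        Complex.I * (∫ y : ℝ in (-T)..T, J ((0.605 : ℝ) + y * Complex.I)) = 0 := by
    have := Complex.integral_boundary_rect_eq_zero_of_differentiableOn J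
        ((0.605 : ℝ) + ((-T : ℝ) : ℂ) * Complex.I) ((2 : ℝ) + (T : ℂ) * Complex.I) (by
      intro s hs
      rw [Complex.mem_reProdIm] at hs
      simp only [line_re, line_im] at hs
      obtain ⟨h2, h3⟩ := hs
      rw [Set.uIcc_of_le (by norm_num)] at h2
      rw [Set.uIcc_of_le (by linarith)] at h3
      apply (hJd s (by linarith [h2.1, show (3 / 5 : ℝ) < 0.605 by norm_num]) ?_).differentiableWithinAt
      rw [abs_lt]
      constructor <;> linarith [h3.1, h3.2])
    simpa only [line_re, line_im, smul_eq_mul] using this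
  have hhor : ∀ τ : ℝ, |τ| = T → ‖∫ x : ℝ in (0.605 : ℝ)..2, J (x + (τ : ℂ) * Complex.I)‖ ≤
      2 * (B / T) := by
    intro τ hτ
    have hτ0 : τ ≠ 0 := by
      rintro rfl
      rw [abs_zero] at hτ
      (clear * - hT hτ; linarith)
    have h1 := intervalIntegral.norm_integral_le_of_norm_le_const
      (a := (0.605 : ℝ)) (b := 2) (C := B / T ^ 2)
      (f := fun x : ℝ => J (x + (τ : ℂ) * Complex.I)) (by
        intro x hx
        rw [Set.uIoc_of_le (by norm_num)] at hx
        have := hJb (x + (τ : ℂ) * Complex.I) (by rw [line_re]; exact hx.1.le)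
          (by rw [line_re]; exact hx.2) (by rwa [line_im]) (hG1 _ (by rw [line_re]; exact hx.1.le)
          (by rw [line_re]; exact hx.2) (by rw [line_im, hτ]))
        rw [line_im, ← sq_abs, hτ] at this
        exact this)
    refine h1.trans ?_
    have h2 : |(2 : ℝ) - 0.605| ≤ 2 := by norm_num
    have h3 : B / T ^ 2 ≤ B / T := by
      apply div_le_div_of_nonneg_left hB0 hT0
      (clear * - hT; nlinarith)
    calc B / T ^ 2 * |(2 : ℝ) - 0.605| ≤ (B / T) * 2 := by
          apply mul_le_mul h3 h2 (abs_nonneg _) (by (clear * - hCG0 hl hT; positivity))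
      _ = 2 * (B / T) := by ring
  have h1 := hhor (-T) (by rw [abs_neg, abs_of_pos hT0])
  have h2 := hhor T (abs_of_pos hT0)
  -- difference of the vertical sides
  have hver : ‖(∫ y : ℝ in (-T)..T, J ((2 : ℝ) + y * Complex.I)) -
      (∫ y : ℝ in (-T)..T, J ((0.605 : ℝ) + y * Complex.I))‖ ≤ 4 * (B / T) := by
    have h3 : Complex.I * ((∫ y : ℝ in (-T)..T, J ((2 : ℝ) + y * Complex.I)) -
      (∫ y : ℝ in (-T)..T, J ((0.605 : ℝ) + y * Complex.I))) =
      (∫ x : ℝ in (0.605 : ℝ)..2, J (x + (T : ℂ) * Complex.I)) -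
      (∫ x : ℝ in (0.605 : ℝ)..2, J (x + ((-T : ℝ) : ℂ) * Complex.I)) := by
      linear_combination hrect
    have h4 : ‖Complex.I * ((∫ y : ℝ in (-T)..T, J ((2 : ℝ) + y * Complex.I)) -
      (∫ y : ℝ in (-T)..T, J ((0.605 : ℝ) + y * Complex.I)))‖ ≤ 4 * (B / T) := by
      rw [h3]
      refine (norm_sub_le _ _).trans ?_
      (clear * - h1 h2; linarith)
    rwa [norm_mul, Complex.norm_I, one_mul] at h4
  have hline : line 1 lam T Z u = (1 / (2 * Real.pi)) *
      ∫ y : ℝ in (-T)..T, J ((0.605 : ℝ) + y * Complex.I) := by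
    unfold line
    simp only [hJ, pow_one]
  rw [he, hline, ← mul_sub]
  have h5 : ‖(∫ t : ℝ, KK lam ((2 : ℝ) + t * Complex.I) *
      (-logDeriv Z ((2 : ℝ) + t * Complex.I)) * Complex.exp (((2 : ℝ) + t * Complex.I) * u)) -
      ∫ y : ℝ in (-T)..T, J ((0.605 : ℝ) + y * Complex.I)‖ ≤ 6 * (B / T) := by
    have h6 : (∫ t : ℝ, KK lam ((2 : ℝ) + t * Complex.I) *
      (-logDeriv Z ((2 : ℝ) + t * Complex.I)) * Complex.exp (((2 : ℝ) + t * Complex.I) * u)) -
      (∫ y : ℝ in (-T)..T, J ((0.605 : ℝ) + y * Complex.I)) =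
      ((∫ t : ℝ, KK lam ((2 : ℝ) + t * Complex.I) *
      (-logDeriv Z ((2 : ℝ) + t * Complex.I)) * Complex.exp (((2 : ℝ) + t * Complex.I) * u)) -
      ∫ y : ℝ in (-T)..T, J ((2 : ℝ) + y * Complex.I)) +
      ((∫ y : ℝ in (-T)..T, J ((2 : ℝ) + y * Complex.I)) -
      (∫ y : ℝ in (-T)..T, J ((0.605 : ℝ) + y * Complex.I))) := by ring
    rw [h6]
    refine (norm_add_le _ _).trans ?_
    (clear * - htail hver; linarith)
  rw [norm_mul]
  have h7 : ‖(1 / (2 * Real.pi) : ℂ)‖ ≤ 1 / 6 := by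
    rw [norm_div, norm_one, norm_mul, Complex.norm_real, Real.norm_of_nonneg Real.pi_pos.le]
    simp only [Complex.norm_ofNat]
    apply div_le_div_of_nonneg_left (by norm_num) (by norm_num)
    (clear * -; linarith [Real.pi_gt_three])
  calc ‖(1 / (2 * Real.pi) : ℂ)‖ * _ ≤ 1 / 6 * (6 * (B / T)) := by
        apply mul_le_mul h7 h5 (norm_nonneg _) (by norm_num)
    _ = CK * CG * Real.exp (2 * u) * L ^ 2 / (lam ^ 2 * T) := by
        rw [hBd]
        (clear * - hT hl hCG0 hCK1; field_simp)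
    _ ≤ (CK * CG + 1) * Real.exp (2 * u) * L ^ 2 / (lam ^ 2 * T) := by
        gcongr
        (clear * -; linarith)

end Pool.Agent.M20.Helper8.KSZ
end

/- Helper53.KN.Helper1.KL.LineFew -/
section
/-! Helper8/KSZ/LineFew.lean (helper8), Helper60/KG/LineFew.lean (helper60) adapted to the line 0.575 (box 57/100) by helper1 -/

set_option autoImplicit false
open Filter Topology MeasureTheory

namespace Pool.Agent.M20.Helper1.KL

open Pool.Agent.M20.Helper10.QRH Pool.Agent.M20.Helper69.QRH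
open Pool.Agent.M20.Helper8.KSZ hiding line_re line_im
open Pool.Agent.M20.Helper79.QRH (KK_cont)
open Pool.Agent.M20.Helper8.KSZ.LF (cc cc_pos cc_eq uu_eq lamk_pos line_re line_im)

/-- the density on the line -/
noncomputable def gg (p : ℕ) (lam T : ℝ) (Z : ℂ → ℂ) : ℝ → ℂ :=
  (Set.Ioc (-T) T).indicator (fun t => KK lam ((0.575 : ℝ) + t * Complex.I) ^ p *
    (-logDeriv Z ((0.575 : ℝ) + t * Complex.I)))

lemma gg_meas {p : ℕ} {lam T : ℝ} (hl : 0 < lam) {Z : ℂ → ℂ} (hZ : Differentiable ℂ Z) :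
    Measurable (gg p lam T Z) := by
  apply Measurable.indicator _ measurableSet_Ioc
  have hi : Continuous (fun t : ℝ => (((0.575 : ℝ) : ℂ) + t * Complex.I)) := by fun_prop
  have h1 : Measurable (fun t : ℝ => KK lam ((0.575 : ℝ) + t * Complex.I)) :=
    ((KK_cont hl).comp hi).measurable
  have h2 : Measurable (fun t : ℝ => logDeriv Z ((0.575 : ℝ) + t * Complex.I)) := by
    have h3 : Measurable (fun t : ℝ => deriv Z ((0.575 : ℝ) + t * Complex.I)) := by
      have : Differentiable ℂ (deriv Z) := fun z => hZ.deriv z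
      exact (this.continuous.comp hi).measurable
    have h4 : Measurable (fun t : ℝ => Z ((0.575 : ℝ) + t * Complex.I)) :=
      (hZ.continuous.comp hi).measurable
    exact h3.div h4
  exact (h1.pow_const p).mul h2.neg

lemma line_eq {p : ℕ} {lam T : ℝ} (hT : 0 ≤ T) (Z : ℂ → ℂ) (u : ℝ) :
    line p lam T Z u = (1 / (2 * Real.pi)) * (Complex.exp ((0.575 : ℝ) * u) *
      ∫ t : ℝ, gg p lam T Z t * Complex.exp (t * u * Complex.I)) := by
  unfold line
  congr 1
  rw [intervalIntegral.integral_of_le (by (clear * - hT; linarith)), ← integral_indicator measurableSet_Ioc,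
    ← integral_const_mul]
  congr 1
  funext t
  unfold gg
  by_cases ht : t ∈ Set.Ioc (-T) T
  · rw [Set.indicator_of_mem ht, Set.indicator_of_mem ht, add_mul, Complex.exp_add,
      show (t : ℂ) * Complex.I * u = t * u * Complex.I by ring]
    ring
  · rw [Set.indicator_of_notMem ht, Set.indicator_of_notMem ht]
    ring

lemma line_norm {p : ℕ} {lam T : ℝ} (hT : 0 ≤ T) (Z : ℂ → ℂ) (u : ℝ) :
    ‖line p lam T Z u‖ ≤ Real.exp (0.575 * u) *
      ‖∫ t : ℝ, gg p lam T Z t * Complex.exp (t * u * Complex.I)‖ := by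
  rw [line_eq hT, norm_mul, norm_mul, Complex.norm_exp]
  have h1 : ‖(1 / (2 * (Real.pi : ℂ)))‖ ≤ 1 := by
    rw [norm_div, norm_one, norm_mul, Complex.norm_real, Real.norm_of_nonneg Real.pi_pos.le,
      Complex.norm_ofNat, div_le_one (by positivity)]
    linarith [Real.pi_gt_three]
  have h2 : (((0.575 : ℝ) : ℂ) * (u : ℂ)).re = 0.575 * u := by
    rw [← Complex.ofReal_mul, Complex.ofReal_re]
  rw [h2]
  exact mul_le_of_le_one_left (by positivity) h1

lemma gg_bound {p : ℕ} (hp : 1 ≤ p) {lam T CK L : ℝ} {Z : ℂ → ℂ} (hCK : 0 ≤ CK) (hL : 0 ≤ L)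
    (hKK : ∀ s : ℂ, 0 ≤ s.re → s.re ≤ 2 → ‖KK lam s‖ ≤ CK / (1 + (lam * s.im) ^ 2))
    (hG : ∀ s : ℂ, 0.575 ≤ s.re → s.re ≤ 2 → |s.im| ≤ T → ‖logDeriv Z s‖ ≤ L) (t : ℝ) :
    ‖gg p lam T Z t‖ ≤ (2 * (CK ^ p * L)) / (1 + (lam * t) ^ 2) * Real.log (2 + |t|) := by
  have hlog : 1/2 ≤ Real.log (2 + |t|) := by
    have h1 : Real.log 2 ≤ Real.log (2 + |t|) :=
      Real.log_le_log (by norm_num) (by (clear * -; linarith [abs_nonneg t]))
    (clear * - h1; linarith [Real.log_two_gt_d9])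
  have hlog0 : 0 ≤ Real.log (2 + |t|) := by linarith
  unfold gg
  by_cases ht : t ∈ Set.Ioc (-T) T
  · rw [Set.indicator_of_mem ht, norm_mul, norm_pow, norm_neg]
    have h1 := hKK ((0.575 : ℝ) + t * Complex.I) (by rw [line_re]; norm_num)
      (by rw [line_re]; norm_num)
    rw [line_im] at h1
    have h2 := hG ((0.575 : ℝ) + t * Complex.I) (by rw [line_re])
      (by rw [line_re]; norm_num) (by rw [line_im]; exact abs_le.2 ⟨ht.1.le, ht.2⟩)
    have h3 : (1 : ℝ) ≤ 1 + (lam * t) ^ 2 := by (clear * -; nlinarith [sq_nonneg (lam * t)])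
    have h4 : ‖KK lam ((0.575 : ℝ) + t * Complex.I)‖ ^ p ≤ CK ^ p / (1 + (lam * t) ^ 2) := by
      calc ‖KK lam ((0.575 : ℝ) + t * Complex.I)‖ ^ p ≤ (CK / (1 + (lam * t) ^ 2)) ^ p := by
            gcongr
        _ = CK ^ p / (1 + (lam * t) ^ 2) ^ p := by rw [div_pow]
        _ ≤ CK ^ p / (1 + (lam * t) ^ 2) := by
            apply div_le_div_of_nonneg_left (by positivity) (by (clear * -; positivity))
            exact le_self_pow₀ h3 (by omega)
    calc ‖KK lam ((0.575 : ℝ) + t * Complex.I)‖ ^ p * ‖logDeriv Z ((0.575 : ℝ) + t * Complex.I)‖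
        ≤ (CK ^ p / (1 + (lam * t) ^ 2)) * L := by (clear * - h4 h2 hCK; gcongr)
      _ = (2 * (CK ^ p * L)) / (1 + (lam * t) ^ 2) * (1/2) := by ring
      _ ≤ _ := by (clear * - hlog hCK hL; gcongr)
  · rw [Set.indicator_of_notMem ht, norm_zero]
    (clear * - hCK hL hlog; positivity)

/-- the choice of `K` -/
lemma ee_leG {d : ℝ} (hd : -(1 / 2) ≤ d) (k : ℕ) : ee d k ≤ k := by
  have h1 : (k : ℝ) * (1/2 - d) ≤ k := by
    have : (0 : ℝ) ≤ k := Nat.cast_nonneg k
    nlinarith
  have h2 := Nat.floor_le_floor h1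
  rwa [Nat.floor_natCast] at h2

lemma cc_ltG (d : ℝ) (hd : -(1 / 2) ≤ d) (k j : ℕ) (hj : j < 2 ^ (k - ee d k)) : cc d k j ≤ 2 * 2 ^ k := by
  rw [cc_eq]
  have h1 : (j + 1) * 2 ^ ee d k ≤ 2 ^ k := by
    calc (j + 1) * 2 ^ ee d k ≤ 2 ^ (k - ee d k) * 2 ^ ee d k := Nat.mul_le_mul_right _ hj
      _ = 2 ^ k := by rw [← pow_add, Nat.sub_add_cancel (ee_leG hd k)]
  have h2 : ((j : ℝ) + 1) * 2 ^ ee d k ≤ 2 ^ k := by exact_mod_cast h1
  have h3 : (0 : ℝ) < 2 ^ ee d k := by positivity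
  (clear * - h2 h3; linarith)

lemma uu_sepG {p : ℕ} (hp : 1 ≤ p) (d : ℝ) (hd : -(1 / 2) ≤ d) (k j j' : ℕ) (hjj : j < j')
    (hj : j' < 2 ^ (k - ee d k)) : lamk p d k ≤ uu d k j' - uu d k j := by
  rw [uu_eq, uu_eq]
  have h1 : cc d k j + 2 ^ ee d k ≤ cc d k j' := by
    rw [cc_eq, cc_eq]
    have h2 : (j : ℝ) + 1 ≤ j' := by exact_mod_cast hjj
    have h3 : (0 : ℝ) < 2 ^ ee d k := by positivity
    (clear * - h2 h3; nlinarith)
  have h3 : (0 : ℝ) < 2 ^ ee d k := by positivity
  have h4 := Helper30.QRH.log_gap (cc_pos d k j) (by (clear * - h1 h3; linarith) : cc d k j ≤ cc d k j')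
  refine le_trans ?_ h4
  have h5 := cc_ltG d hd k j' hj
  have h6 := cc_pos d k j'
  unfold lamk
  have hp' : (1 : ℝ) ≤ p := by exact_mod_cast hp
  have hX : (0 : ℝ) < 2 ^ k := by positivity
  rw [div_le_div_iff₀ (by positivity) h6]
  have h7 : (2 : ℝ) * 2 ^ k ≤ 8 * p * 2 ^ k := by
    have : (2 : ℝ) ≤ 8 * p := by (clear * - hp'; linarith)
    exact mul_le_mul_of_nonneg_right this hX.le
  calc (2 : ℝ) ^ ee d k * cc d k j' ≤ 2 ^ ee d k * (8 * p * 2 ^ k) := by gcongr; (clear * - h5 h7; linarith)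
    _ ≤ (cc d k j' - cc d k j) * (8 * p * 2 ^ k) := by
        apply mul_le_mul_of_nonneg_right _ (by positivity)
        (clear * - h1; linarith)

lemma uu_absG {p : ℕ} (hp : 1 ≤ p) (d : ℝ) (hd : -(1 / 2) ≤ d) (k j j' : ℕ) (hne : j ≠ j')
    (hj : j < 2 ^ (k - ee d k)) (hj' : j' < 2 ^ (k - ee d k)) :
    lamk p d k ≤ |uu d k j - uu d k j'| := by
  rcases lt_or_gt_of_ne hne with h | h
  · rw [abs_sub_comm]
    exact (uu_sepG hp d hd k j j' h hj').trans (le_abs_self _)
  · exact (uu_sepG hp d hd k j' j h hj).trans (le_abs_self _)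

lemma lamk_leG {p : ℕ} (hp : 1 ≤ p) (d : ℝ) (hd : -(1 / 2) ≤ d) (k : ℕ) : lamk p d k ≤ 1/2 := by
  unfold lamk
  have hp' : (1 : ℝ) ≤ p := by exact_mod_cast hp
  have hX : (0 : ℝ) < 2 ^ k := by positivity
  rw [div_le_iff₀ (by positivity)]
  have h1 : (2 : ℝ) ^ ee d k ≤ 2 ^ k := pow_le_pow_right₀ (by norm_num) (ee_leG hd k)
  (clear * - hX h1 hp'; nlinarith)

lemma exp_uuG (d : ℝ) (hd : -(1 / 2) ≤ d) (k j : ℕ) (hj : j < 2 ^ (k - ee d k)) :
    Real.exp (0.575 * uu d k j) ≤ 2 * (2 : ℝ) ^ ((0.575 : ℝ) * k) := by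
  rw [uu_eq, mul_comm, ← Real.rpow_def_of_pos (cc_pos d k j)]
  calc cc d k j ^ (0.575 : ℝ) ≤ (2 * 2 ^ k) ^ (0.575 : ℝ) :=
        Real.rpow_le_rpow (cc_pos d k j).le (cc_ltG d hd k j hj) (by norm_num)
    _ = (2 : ℝ) ^ (0.575 : ℝ) * (2 : ℝ) ^ ((0.575 : ℝ) * k) := by
        rw [Real.mul_rpow (by norm_num) (by positivity), ← Real.rpow_natCast (2 : ℝ) k,
          ← Real.rpow_mul (by norm_num), mul_comm (k : ℝ)]
    _ ≤ 2 * (2 : ℝ) ^ ((0.575 : ℝ) * k) := by
        gcongr
        calc (2 : ℝ) ^ (0.575 : ℝ) ≤ (2 : ℝ) ^ (1 : ℝ) :=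
              Real.rpow_le_rpow_of_exponent_le (by norm_num) (by norm_num)
          _ = 2 := Real.rpow_one 2

theorem lineFewG (hK : KFacts) (hG : GBound) (hD : Duality) : LineFewG := by
  obtain ⟨CK0, hCK0⟩ := hK.bound
  obtain ⟨CG, hCG0, hCG⟩ := hG
  obtain ⟨CD, hCD⟩ := hD
  set CK : ℝ := |CK0| + 1 with hCKd
  have hCK1 : 1 ≤ CK := by linarith [abs_nonneg CK0]
  intro p d η hp hd hd1 hη
  have hp' : (1 : ℝ) ≤ p := by exact_mod_cast hp
  set C' : ℝ := 200 * |CD| * (2 * (CK ^ p * (CG * 36))) * (9 * p) * (16 * p) with hC'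
  obtain ⟨K, hKk⟩ := LF.exists_K C' η hη
  refine ⟨K + 1, ?_⟩
  intro k hk M Z hB
  have hk1 : 1 ≤ k := by omega
  have hk1' : (1 : ℝ) ≤ k := by exact_mod_cast hk1
  exact by
    set lam := lamk p d k with hlam
    have hl : 0 < lam := LF.lamk_pos hp d k
    have hl2 : lam ≤ 1/2 := lamk_leG hp d hd k
    set T : ℝ := 2 ^ (5 * k) with hTd
    have hT : 1 ≤ T := one_le_pow₀ (by norm_num)
    obtain ⟨hG1, -⟩ := hCG T M Z hT hB
    set L : ℝ := CG * (36 * (k : ℝ) ^ 2) with hLd
    exact by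
      have hL0 : 0 ≤ L := by positivity
      have hlogT : (Real.log (T + 2)) ^ 2 ≤ 36 * (k : ℝ) ^ 2 := by
        have h1 := LF.logT k hk1
        have h2 : 0 ≤ Real.log (T + 2) := Real.log_nonneg (by (clear * - hl hl2 hT; linarith))
        calc (Real.log (T + 2)) ^ 2 ≤ (6 * (k : ℝ)) ^ 2 := by (clear * - h2 h1; gcongr)
          _ = _ := by ring
      set B : ℝ := 2 * (CK ^ p * L) with hBd
      have hB0 : 0 ≤ B := by (clear * - hCG0 hk1; positivity)
      have hgb := gg_bound hp (lam := lam) (T := T) (CK := CK) (L := L) (Z := Z) (by (clear * - hCK1 hl hl2; linarith)) hL0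
        (by
          intro s h0 h2
          refine (hCK0 lam hl (by (clear * - hl hl2; linarith)) s h0 h2).trans ?_
          apply div_le_div_of_nonneg_right _ (by positivity)
          (clear * - hl hl2; linarith [le_abs_self CK0]))
        (by
          intro s h0 h2 h3
          refine (hG1 s h0 h2 h3).trans ?_
          rw [hLd]
          gcongr)
      set F := (Finset.range (2 ^ (k - ee d k))).filter (fun j =>
          1/100 * (2 : ℝ) ^ k ≤ ‖line p lam T Z (uu d k j)‖) with hF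
      exact by
        have hFj : ∀ j ∈ F, j < 2 ^ (k - ee d k) := by
          intro j hj
          exact Finset.mem_range.1 (Finset.mem_filter.1 hj).1
        have hinj : Set.InjOn (uu d k) F := by
          intro a ha b hb hab
          by_contra hne
          have := uu_absG hp d hd k a b hne (hFj a ha) (hFj b hb)
          rw [hab, sub_self, abs_zero] at this
          (clear * - hl this; linarith)
        have hdual := hCD lam hl hl2 (gg p lam T Z) (gg_meas hl hB.diff) B hB0 hgb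
          (F.image (uu d k)) (by
            intro u hu u' hu' hne
            obtain ⟨a, ha, rfl⟩ := Finset.mem_image.1 hu
            obtain ⟨b, hb, rfl⟩ := Finset.mem_image.1 hu'
            exact uu_absG hp d hd k a b (fun h => hne (by rw [h])) (hFj a ha) (hFj b hb))
        rw [Finset.sum_image hinj, Finset.card_image_of_injOn hinj] at hdual
        -- lower bound for each term
        set E : ℝ := (2 : ℝ) ^ ((0.575 : ℝ) * k) with hE
        have hE0 : 0 < E := by positivity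
        have hlow : ∀ j ∈ F, (2 : ℝ) ^ k / (200 * E) ≤
            ‖∫ t : ℝ, gg p lam T Z t * Complex.exp (t * (uu d k j) * Complex.I)‖ := by
          intro j hj
          have h1 := (Finset.mem_filter.1 hj).2
          have h2 := line_norm (p := p) (lam := lam) (T := T) (by (clear * - hl hl2 hT; linarith)) Z (uu d k j)
          have h3 := exp_uuG d hd k j (hFj j hj)
          rw [div_le_iff₀ (by positivity)]
          have h4 : Real.exp (0.575 * uu d k j) *
              ‖∫ t : ℝ, gg p lam T Z t * Complex.exp (t * (uu d k j) * Complex.I)‖ ≤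
              (2 * E) * ‖∫ t : ℝ, gg p lam T Z t * Complex.exp (t * (uu d k j) * Complex.I)‖ := by
            (clear * - h3; gcongr)
          (clear * - h1 h2 h4; linarith)
        have hsum : (F.card : ℝ) * ((2 : ℝ) ^ k / (200 * E)) ≤
            CD * B * Real.log (1 / lam) / lam * Real.sqrt F.card := by
          refine le_trans ?_ hdual
          rw [← nsmul_eq_mul]
          exact Finset.card_nsmul_le_sum _ _ _ hlow
        -- final computation
        exact by
          rcases Nat.eq_zero_or_pos F.card with h0 | hpos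
          · rw [h0]
            simp only [Nat.cast_zero]
            positivity
          have hFc : (0 : ℝ) < F.card := by exact_mod_cast hpos
          set S : ℝ := Real.sqrt F.card with hS
          have hS0 : 0 < S := Real.sqrt_pos.2 hFc
          have hSS : (F.card : ℝ) = S * S := (Real.mul_self_sqrt hFc.le).symm
          have hlog0 : 0 ≤ Real.log (1 / lam) := Real.log_nonneg (by rw [le_div_iff₀ hl]; (clear * - hl hl2; linarith))
          have hS1 : S * ((2 : ℝ) ^ k / (200 * E)) ≤ CD * B * Real.log (1 / lam) / lam := by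
            rw [hSS] at hsum
            have : S * (S * ((2 : ℝ) ^ k / (200 * E))) ≤ S * (CD * B * Real.log (1 / lam) / lam) := by
              (clear * - hsum; linarith)
            exact le_of_mul_le_mul_left this hS0
          have h1 := LF.inv_lamk hp d k
          exact by
            have h2 := LF.log_inv_lamk hp d k hk1
            have hS2 : CD * B * Real.log (1 / lam) / lam ≤
                |CD| * B * (9 * p * k) * (16 * p * (2 : ℝ) ^ ((1/2 + d) * k)) := by
              calc CD * B * Real.log (1 / lam) / lam = CD * (B * Real.log (1 / lam) * (1 / lam)) := by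
                    (clear * - hl; field_simp)
                _ ≤ |CD| * (B * Real.log (1 / lam) * (1 / lam)) := by
                    apply mul_le_mul_of_nonneg_right (le_abs_self _) (by (clear * - hCG0 hk1 hlog0 hl; positivity))
                _ ≤ |CD| * (B * (9 * p * k) * (16 * p * (2 : ℝ) ^ ((1/2 + d) * k))) := by (clear * - h2 hCG0 hk1 h1 hl hp; gcongr)
                _ = _ := by ring
            have hXk : (2 : ℝ) ^ k = (2 : ℝ) ^ (k : ℝ) := (Real.rpow_natCast _ _).symm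
            have hS3 : S ≤ C' * (k : ℝ) ^ 3 * (2 : ℝ) ^ ((0.075 + d) * k) := by
              have h3 : S * ((2 : ℝ) ^ k / (200 * E)) ≤
                  |CD| * B * (9 * p * k) * (16 * p * (2 : ℝ) ^ ((1/2 + d) * k)) := hS1.trans hS2
              have h4 : (2 : ℝ) ^ ((1/2 + d) * k) * E = (2 : ℝ) ^ ((0.075 + d) * k) * (2 : ℝ) ^ k := by
                rw [hE, hXk, ← Real.rpow_add (by norm_num), ← Real.rpow_add (by norm_num)]
                congr 1
                ring
              rw [← mul_div_assoc, div_le_iff₀ (by positivity)] at h3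
              have h5 : |CD| * B * (9 * p * k) * (16 * p * (2 : ℝ) ^ ((1/2 + d) * k)) * (200 * E) =
                  C' * (k : ℝ) ^ 3 * (2 : ℝ) ^ ((0.075 + d) * k) * (2 : ℝ) ^ k := by
                calc _ = 200 * |CD| * B * (9 * p * k) * (16 * p) * ((2 : ℝ) ^ ((1/2 + d) * k) * E) := by ring
                  _ = 200 * |CD| * B * (9 * p * k) * (16 * p) *
                      ((2 : ℝ) ^ ((0.075 + d) * k) * (2 : ℝ) ^ k) := by rw [h4]
                  _ = _ := by
                    rw [hC', hBd, hLd]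
                    ring
              rw [h5] at h3
              exact le_of_mul_le_mul_right h3 (by positivity)
            have hS4 : S ≤ (2 : ℝ) ^ ((0.075 + d + 3/2 * η) * k) := by
              refine hS3.trans ?_
              have h6 := hKk k (by omega)
              calc C' * (k : ℝ) ^ 3 * (2 : ℝ) ^ ((0.075 + d) * k) ≤
                  (2 : ℝ) ^ (3/2 * η * k) * (2 : ℝ) ^ ((0.075 + d) * k) := by (clear * - h6; gcongr)
                _ = _ := by
                  rw [← Real.rpow_add (by norm_num)]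
                  congr 1
                  ring
            rw [hSS]
            calc S * S ≤ (2 : ℝ) ^ ((0.075 + d + 3/2 * η) * k) * (2 : ℝ) ^ ((0.075 + d + 3/2 * η) * k) :=
                  mul_le_mul hS4 hS4 hS0.le (by positivity)
              _ = (2 : ℝ) ^ ((0.15 + 2 * d + 3 * η) * k) := by
                rw [← Real.rpow_add (by norm_num)]
                congr 1
                ring

end Pool.Agent.M20.Helper1.KL
end

/- Helper53.KN.Helper46.KSZ.Assembly -/
section
/-!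
KSZ-E13: assembly of the explicit formula part: `ExplicitCells` from the modules.
-/

set_option autoImplicit false
set_option linter.all false
open Filter Topology MeasureTheory Complex
open scoped Classical

namespace Pool.Agent.M20.Helper46.KSZ

open Pool.Agent.M20.Helper10.QRH Pool.Agent.M20.Helper69.QRH

lemma zeroSet_finite (d : ℝ) (k : ℕ) : (zeroSet d k).Finite := by
  set B : ℝ := (2 : ℝ) ^ ((1/2 + 2 * d) * k) with hB
  have hB0 : 0 < B := by positivity
  have h := (isCompact_closedBall (0 : ℂ) (1 + B)).inter_riemannZetaZeros_finite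
  refine h.subset fun ρ hρ => ?_
  obtain ⟨h0, h1, h2⟩ := hρ
  refine ⟨?_, h0⟩
  rw [Metric.mem_closedBall, dist_zero_right]
  have hre : ρ.re < 1 := by
    by_contra hc
    exact riemannZeta_ne_zero_of_one_le_re (not_lt.1 hc) h0
  have h3 : |ρ.re| ≤ 1 := abs_le.2 ⟨by (clear * - h1 hre; linarith), hre.le⟩
  exact (Complex.norm_le_abs_re_add_abs_im ρ).trans (by (clear * - h2 h3; linarith))

lemma tri_integral {lam : ℝ} (hl : 0 < lam) : ∫ v : ℝ, tri lam v = 1 := by
  have h := (Helper79.QRH.KK_diff hl).continuous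
  -- use the value of the Laplace transform at `0` as a limit
  have h0 : KK lam 0 = ((∫ v : ℝ, tri lam v : ℝ) : ℂ) := by
    unfold KK
    rw [← integral_complex_ofReal]
    refine integral_congr_ae (Filter.Eventually.of_forall fun v => ?_)
    simp
  have hlim : Tendsto (fun x : ℝ => KK lam (x : ℂ)) (𝓝[≠] (0 : ℝ)) (𝓝 (KK lam 0)) := by
    have h1 : Continuous (fun x : ℝ => KK lam (x : ℂ)) := h.comp Complex.continuous_ofReal
    have := h1.tendsto 0
    simpa using this.mono_left nhdsWithin_le_nhds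
  have hval : ∀ x : ℝ, x ≠ 0 → KK lam (x : ℂ) =
      (((Real.sinh (lam * x / 2) / (lam * x / 2)) ^ 2 : ℝ) : ℂ) := by
    intro x hx
    rw [Helper79.QRH.KK_closed hl (by exact_mod_cast hx)]
    have e1 : Complex.exp ((x : ℂ) * lam) = ((Real.exp (lam * x / 2) ^ 2 : ℝ) : ℂ) := by
      rw [← Real.exp_nat_mul]; push_cast; congr 1; ring
    have e2 : Complex.exp (-(x : ℂ) * lam) = ((Real.exp (-(lam * x / 2)) ^ 2 : ℝ) : ℂ) := by
      rw [← Real.exp_nat_mul]; push_cast; congr 1; ring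
    rw [e1, e2]
    have hee : Real.exp (lam * x / 2) * Real.exp (-(lam * x / 2)) = 1 := by
      rw [← Real.exp_add, add_neg_cancel, Real.exp_zero]
    have hreal : (Real.exp (lam * x / 2) ^ 2 + Real.exp (-(lam * x / 2)) ^ 2 - 2) / (lam * x) ^ 2 =
        (Real.sinh (lam * x / 2) / (lam * x / 2)) ^ 2 := by
      rw [Real.sinh_eq]
      have hlx : lam * x ≠ 0 := mul_ne_zero hl.ne' hx
      have h2 : Real.exp (lam * x / 2) ^ 2 + Real.exp (-(lam * x / 2)) ^ 2 - 2 =
          (Real.exp (lam * x / 2) - Real.exp (-(lam * x / 2))) ^ 2 := by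
        (clear * - hee; nlinarith [hee])
      rw [h2]
      (clear * - hx hl; field_simp)
    rw [← hreal]
    push_cast
    ring
  have hlim2 : Tendsto (fun x : ℝ => (((Real.sinh (lam * x / 2) / (lam * x / 2)) ^ 2 : ℝ) : ℂ))
      (𝓝[≠] (0 : ℝ)) (𝓝 (((1 : ℝ) : ℂ))) := by
    refine (Complex.continuous_ofReal.tendsto _).comp ?_
    have hs : Tendsto (fun y : ℝ => Real.sinh y / y) (𝓝[≠] (0 : ℝ)) (𝓝 1) := by
      have := (Real.hasDerivAt_sinh 0).tendsto_slope
      rw [Real.cosh_zero] at this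
      refine this.congr fun y => ?_
      rw [slope_def_field]
      simp
    have hc : Tendsto (fun x : ℝ => lam * x / 2) (𝓝[≠] (0 : ℝ)) (𝓝[≠] (0 : ℝ)) := by
      refine tendsto_nhdsWithin_iff.2 ⟨?_, ?_⟩
      · have : Continuous (fun x : ℝ => lam * x / 2) := by fun_prop
        have := this.tendsto 0
        simp only [mul_zero, zero_div] at this
        exact this.mono_left nhdsWithin_le_nhds
      · filter_upwards [self_mem_nhdsWithin] with x hx
        have hx' : x ≠ 0 := hx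
        simp only [Set.mem_compl_iff, Set.mem_singleton_iff]
        (clear * - hl hx'; positivity)
    have := (hs.comp hc).pow 2
    simpa using this
  have hlim3 : Tendsto (fun x : ℝ => KK lam (x : ℂ)) (𝓝[≠] (0 : ℝ)) (𝓝 (((1 : ℝ) : ℂ))) := by
    refine hlim2.congr' ?_
    filter_upwards [self_mem_nhdsWithin] with x hx
    exact (hval x hx).symm
  have := tendsto_nhds_unique hlim hlim3
  rw [h0] at this
  exact_mod_cast this

/-- the trivial bound with constant `1` -/
lemma KK_norm_le {lam : ℝ} (hl : 0 < lam) (s : ℂ) : ‖KK lam s‖ ≤ Real.exp (lam * |s.re|) := by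
  unfold KK
  have hint : Integrable (fun v : ℝ => tri lam v * Real.exp (lam * |s.re|)) := by
    refine Integrable.mul_const ?_ _
    by_contra hc
    have := tri_integral hl
    rw [integral_undef hc] at this
    exact zero_ne_one this
  refine (norm_integral_le_of_norm_le hint (Filter.Eventually.of_forall fun v => ?_)).trans ?_
  · rw [norm_mul, Complex.norm_real, Real.norm_of_nonneg (Helper79.QRH.tri_nonneg hl)]
    by_cases hv : lam ≤ |v|
    · rw [Helper79.QRH.tri_zero hl hv]; simp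
    · exact mul_le_mul_of_nonneg_left (Helper79.QRH.norm_exp_le s (not_le.1 hv).le)
        (Helper79.QRH.tri_nonneg hl)
  · rw [integral_mul_const, tri_integral hl, one_mul]

lemma KK_one_ge {lam : ℝ} (hlam : 0 < lam) : ∃ κ : ℝ, 1 ≤ κ ∧ KK lam 1 = κ := by
  refine ⟨(Real.exp lam + Real.exp (-lam) - 2) / lam ^ 2, ?_, ?_⟩
  · rw [le_div_iff₀ (by positivity), one_mul]
    have h1 : lam / 2 ≤ Real.sinh (lam / 2) := Real.self_le_sinh_iff.2 (by positivity)
    have h2 : Real.exp lam + Real.exp (-lam) - 2 = (2 * Real.sinh (lam / 2)) ^ 2 := by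
      rw [Real.sinh_eq]
      have e1 : Real.exp lam = Real.exp (lam / 2) ^ 2 := by
        rw [← Real.exp_nat_mul]; congr 1; push_cast; ring
      have e2 : Real.exp (-lam) = Real.exp (-(lam / 2)) ^ 2 := by
        rw [← Real.exp_nat_mul]; congr 1; push_cast; ring
      have hee : Real.exp (lam / 2) * Real.exp (-(lam / 2)) = 1 := by
        rw [← Real.exp_add, add_neg_cancel, Real.exp_zero]
      rw [e1, e2]
      (clear * - hee; nlinarith)
    rw [h2]
    nlinarith
  · rw [Helper79.QRH.KK_closed hlam one_ne_zero]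
    push_cast
    simp

lemma ev_sq (A : ℝ) : ∃ K : ℕ, ∀ k : ℕ, K ≤ k → A * (k : ℝ) ^ 2 ≤ (2 : ℝ) ^ k := by
  have h2 := (tendsto_pow_const_div_const_pow_of_one_lt 2 (show (1 : ℝ) < 2 by norm_num)).const_mul A
  rw [mul_zero] at h2
  have h4 := h2.eventually (gt_mem_nhds (show (0 : ℝ) < 1 by norm_num))
  obtain ⟨K, hK⟩ := eventually_atTop.mp h4
  refine ⟨K, fun k hk => ?_⟩
  have h5 := hK k hk
  rw [← mul_div_assoc, div_lt_one (by positivity)] at h5
  exact h5.le

lemma ee_le {d : ℝ} (hd : 0 < d) (k : ℕ) : ee d k ≤ k := by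
  unfold ee
  refine Nat.floor_le_of_le ?_
  have : (0 : ℝ) ≤ k := k.cast_nonneg
  nlinarith

private theorem exp_half_le : Real.exp (1 / 2) ≤ 2 := by
  have h : Real.exp (1 / 2) ^ 2 ≤ 2 ^ 2 := by
    rw [← Real.exp_nat_mul, show ((2 : ℕ) : ℝ) * (1 / 2) = 1 by norm_num]
    exact Real.exp_one_lt_three.le.trans (by norm_num)
  exact (pow_le_pow_iff_left₀ (Real.exp_pos _).le zero_le_two two_ne_zero).1 h

/-- numerical error of the shifted formula -/
lemma err_small (C : ℝ) (hC : 0 < C) (p : ℕ) (hp : 1 ≤ p) (d : ℝ) (hd : 0 < d) :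
    ∃ K : ℕ, ∀ k : ℕ, K ≤ k → ∀ u : ℝ, Real.exp u ≤ 2 * 2 ^ k →
      C * Real.exp (2 * (u + ((p - 1 : ℕ) : ℝ) * lamk p d k)) *
        (Real.log ((2 : ℝ) ^ (5 * k) + 2)) ^ 2 / (lamk p d k ^ 2 * 2 ^ (5 * k)) ≤ 1/100 * 2 ^ k := by
  obtain ⟨K, hK⟩ := ev_sq (C * 8 * 25 * 64 * p ^ 2 * 100)
  refine ⟨max K 1, fun k hk u hu => ?_⟩
  have hkK : K ≤ k := le_trans (le_max_left _ _) hk
  have hk1 : 1 ≤ k := le_trans (le_max_right _ _) hk
  have hk1r : (1 : ℝ) ≤ k := by exact_mod_cast hk1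
  have hpr : (1 : ℝ) ≤ p := by exact_mod_cast hp
  set X : ℝ := (2 : ℝ) ^ k with hX
  have hX1 : 1 ≤ X := one_le_pow₀ (by norm_num)
  have hX0 : 0 < X := by (clear * - hX1; linarith)
  set H : ℝ := (2 : ℝ) ^ ee d k with hH
  have hH1 : 1 ≤ H := one_le_pow₀ (by norm_num)
  have hHX : H ≤ X := pow_le_pow_right₀ (by norm_num) (ee_le hd k)
  have hlam : lamk p d k = H / (8 * p * X) := rfl
  have hlam0 : 0 < lamk p d k := by rw [hlam]; (clear * - hp; positivity)
  -- the exponential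
  have hpl : ((p - 1 : ℕ) : ℝ) * lamk p d k ≤ 1 / 8 := by
    have h1 : ((p - 1 : ℕ) : ℝ) ≤ p := by exact_mod_cast Nat.sub_le p 1
    calc ((p - 1 : ℕ) : ℝ) * lamk p d k ≤ p * (H / (8 * p * X)) := by
          rw [← hlam]; exact mul_le_mul_of_nonneg_right h1 hlam0.le
      _ = H / X / 8 := by field_simp
      _ ≤ 1 / 8 := by
          have : H / X ≤ 1 := by rw [div_le_one hX0]; exact hHX
          (clear * - this; linarith)
  have hexp : Real.exp (2 * (u + ((p - 1 : ℕ) : ℝ) * lamk p d k)) ≤ 8 * X ^ 2 := by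
    have h1 : Real.exp (2 * (u + ((p - 1 : ℕ) : ℝ) * lamk p d k)) =
        Real.exp u ^ 2 * Real.exp (2 * (((p - 1 : ℕ) : ℝ) * lamk p d k)) := by
      rw [← Real.exp_nat_mul, ← Real.exp_add]; congr 1; push_cast; ring
    have h2 : Real.exp (2 * (((p - 1 : ℕ) : ℝ) * lamk p d k)) ≤ 2 := by
      have h3 : Real.exp (2 * (((p - 1 : ℕ) : ℝ) * lamk p d k)) ≤ Real.exp (1 / 2) :=
        Real.exp_le_exp.2 (by (clear * - hpl; linarith))
      exact h3.trans exp_half_le
    have h6 : Real.exp u ^ 2 ≤ (2 * X) ^ 2 := pow_le_pow_left₀ (Real.exp_pos _).le hu 2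
    rw [h1]
    have h7 := Real.exp_pos (2 * (((p - 1 : ℕ) : ℝ) * lamk p d k))
    exact (mul_le_mul h6 h2 h7.le (sq_nonneg _)).trans_eq (by ring)
  -- the logarithm
  have hlog : (Real.log ((2 : ℝ) ^ (5 * k) + 2)) ^ 2 ≤ 25 * (k : ℝ) ^ 2 := by
    have h1 : (2 : ℝ) ^ (5 * k) + 2 ≤ 2 ^ (5 * k + 1) := by
      have : (2 : ℝ) ^ 1 ≤ 2 ^ (5 * k) := pow_le_pow_right₀ (by norm_num) (by omega)
      rw [pow_succ]
      (clear * - this; linarith)
    have h2 : Real.log ((2 : ℝ) ^ (5 * k) + 2) ≤ 5 * k := by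
      have h3 := Real.log_le_log (by positivity) h1
      rw [Real.log_pow] at h3
      push_cast at h3
      have h4 := Real.log_two_lt_d9
      have h5 : (5 * (k : ℝ) + 1) * Real.log 2 ≤ (5 * k + 1) * 0.7 := by
        exact mul_le_mul_of_nonneg_left (by (clear * - h4; linarith))
          (add_nonneg (mul_nonneg (by norm_num) (Nat.cast_nonneg _)) zero_le_one)
      (clear * - hk1r h3 h5; linarith)
    have h6 : 0 ≤ Real.log ((2 : ℝ) ^ (5 * k) + 2) := Real.log_nonneg (by
      have : (0 : ℝ) < 2 ^ (5 * k) := by positivity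
      (clear * - this; linarith))
    exact (pow_le_pow_left₀ h6 h2 2).trans_eq (by ring)
  have hT : (2 : ℝ) ^ (5 * k) = X ^ 5 := by rw [hX, ← pow_mul, mul_comm]
  have hden : 1 / (64 * p ^ 2) * X ^ 3 ≤ lamk p d k ^ 2 * 2 ^ (5 * k) := by
    rw [hT, hlam]
    have : (H / (8 * p * X)) ^ 2 * X ^ 5 = H ^ 2 * (1 / (64 * p ^ 2) * X ^ 3) := by
      field_simp
      ring
    rw [this]
    have h1 : 1 ≤ H ^ 2 := one_le_pow₀ hH1
    have h2 : 0 ≤ 1 / (64 * (p : ℝ) ^ 2) * X ^ 3 := by positivity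
    exact le_mul_of_one_le_left h2 h1
  have hden0 : 0 < lamk p d k ^ 2 * 2 ^ (5 * k) := by positivity
  rw [div_le_iff₀ hden0]
  have hmain := hK k hkK
  calc C * Real.exp (2 * (u + ((p - 1 : ℕ) : ℝ) * lamk p d k)) *
        (Real.log ((2 : ℝ) ^ (5 * k) + 2)) ^ 2 ≤ C * (8 * X ^ 2) * (25 * (k : ℝ) ^ 2) := by
        exact mul_le_mul (mul_le_mul_of_nonneg_left hexp hC.le) hlog (sq_nonneg _)
          (mul_nonneg hC.le (mul_nonneg (by norm_num) (sq_nonneg _)))
    _ = 1 / (64 * p ^ 2) * X ^ 2 / 100 * (C * 8 * 25 * 64 * p ^ 2 * 100 * k ^ 2) := by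
        field_simp
    _ ≤ 1 / (64 * p ^ 2) * X ^ 2 / 100 * X :=
        mul_le_mul_of_nonneg_left hmain (by (clear * -; positivity))
    _ ≤ 1 / 100 * X * (1 / (64 * p ^ 2) * X ^ 3) := by
        have h1 : X ^ 3 ≤ X ^ 4 := pow_le_pow_right₀ hX1 (by norm_num)
        have h2 : 0 ≤ 1 / (64 * (p : ℝ) ^ 2) / 100 := by positivity
        calc 1 / (64 * (p : ℝ) ^ 2) * X ^ 2 / 100 * X = 1 / (64 * (p : ℝ) ^ 2) / 100 * X ^ 3 := by ring
          _ ≤ 1 / (64 * (p : ℝ) ^ 2) / 100 * X ^ 4 := mul_le_mul_of_nonneg_left h1 h2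
          _ = _ := by ring
    _ ≤ 1 / 100 * X * (lamk p d k ^ 2 * 2 ^ (5 * k)) :=
        mul_le_mul_of_nonneg_left hden (mul_nonneg (by norm_num) hX0.le)

theorem explicitCells (h1 : BoxExists) (h9 : ShiftIter) (h10 : PrimeSide) (h11 : LineFew)
    (h12 : HighZeros) : ExplicitCells := by
  refine ⟨zeroSet_finite, fun d hd hd1 => ?_⟩
  obtain ⟨p, hp, K12, hK12⟩ := h12 d hd hd1
  obtain ⟨K10, hK10⟩ := h10 p d hp hd hd1
  obtain ⟨K11, hK11⟩ := h11 p d hp hd hd1
  obtain ⟨C, hC, hC9⟩ := h9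
  obtain ⟨Ke, hKe⟩ := err_small C hC p hp d hd
  have hpr : (1 : ℝ) ≤ p := by exact_mod_cast hp
  refine ⟨1 / (200 * p), by (clear * - hp; positivity), max (max K12 K10) (max (max K11 Ke) 10), fun k hk => ?_⟩
  have hkA : K12 ≤ k := le_trans (le_trans (le_max_left _ _) (le_max_left _ _)) hk
  have hkB : K10 ≤ k := le_trans (le_trans (le_max_right _ _) (le_max_left _ _)) hk
  have hkC : K11 ≤ k := le_trans (le_trans (le_trans (le_max_left _ _) (le_max_left _ _)) (le_max_right _ _)) hk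
  have hkD : Ke ≤ k := le_trans (le_trans (le_trans (le_max_right _ _) (le_max_left _ _)) (le_max_right _ _)) hk
  have hkE : 10 ≤ k := le_trans (le_trans (le_max_right _ _) (le_max_right _ _)) hk
  set X : ℝ := (2 : ℝ) ^ k with hX
  have hX10 : (1000 : ℝ) ≤ X := by
    have : (2 : ℝ) ^ 10 ≤ 2 ^ k := pow_le_pow_right₀ (by norm_num) hkE
    rw [hX]; norm_num at this ⊢; (clear * - hd hd1 this; linarith)
  have hX0 : 0 < X := by (clear * - hd hd1 hX10; linarith)
  have hX1 : 1 ≤ X := by (clear * - hd hd1 hX10; linarith)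
  have hXk : ((2 ^ k : ℕ) : ℝ) = X := by push_cast; rfl
  obtain ⟨M, Z, hBox⟩ := h1 (2 ^ (5 * k)) (by positivity)
  set T : ℝ := (2 : ℝ) ^ (5 * k) with hT
  have hT1 : 1 ≤ T := one_le_pow₀ (by norm_num)
  set lam : ℝ := lamk p d k with hlam
  set H : ℝ := (2 : ℝ) ^ ee d k with hH
  have hH1 : 1 ≤ H := one_le_pow₀ (by norm_num)
  have hHX : H ≤ X := pow_le_pow_right₀ (by norm_num) (ee_le hd k)
  have hlamE : lam = H / (8 * p * X) := rfl
  have hlam0 : 0 < lam := by rw [hlamE]; (clear * - hp; positivity)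
  have hplam : p * lam ≤ 1 / 8 := by
    rw [hlamE]
    have : (p : ℝ) * (H / (8 * p * X)) = H / X / 8 := by field_simp
    rw [this]
    have : H / X ≤ 1 := by rw [div_le_one hX0]; exact hHX
    (clear * - this; linarith)
  have hlam1 : lam ≤ 1 :=
    ((le_mul_of_one_le_left hlam0.le hpr).trans hplam).trans (by norm_num)
  refine ⟨fun ρ => KK lam ρ ^ p, (Finset.range (2 ^ (k - ee d k))).filter (fun j =>
      1/100 * (2 : ℝ) ^ k ≤ ‖line p (lamk p d k) (2 ^ (5 * k)) Z (uu d k j)‖), ?_,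
      hK11 k hkC M Z hBox, ?_⟩
  · intro ρ hρ0 hρ1
    rw [norm_pow]
    have h2 := KK_norm_le hlam0 ρ
    have h3 : |ρ.re| ≤ 1 := abs_le.2 ⟨by (clear * - hd hd1 hρ0; linarith), hρ1⟩
    calc ‖KK lam ρ‖ ^ p ≤ (Real.exp (lam * |ρ.re|)) ^ p := pow_le_pow_left₀ (norm_nonneg _) h2 p
      _ = Real.exp (p * (lam * |ρ.re|)) := by rw [Real.exp_nat_mul]
      _ ≤ Real.exp (1 / 2) := by
          apply Real.exp_le_exp.2
          have : (p : ℝ) * (lam * |ρ.re|) = (p * lam) * |ρ.re| := by ring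
          rw [this]
          have := abs_nonneg ρ.re
          exact (mul_le_mul hplam h3 this (by norm_num)).trans (by norm_num)
      _ ≤ 2 := exp_half_le
  intro j hj hjE hfew S hS
  set u : ℝ := uu d k j with hu
  -- the centre
  set y : ℕ := 2 ^ k + j * 2 ^ ee d k with hy
  have hyX : X ≤ y := by
    rw [← hXk]
    exact_mod_cast (by rw [hy]; exact Nat.le_add_right _ _ : 2 ^ k ≤ y)
  have hek := ee_le hd k
  have hy2 : (y : ℝ) + H ≤ 2 * X := by
    have h2 : y + 2 ^ ee d k ≤ 2 ^ (k + 1) := by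
      have h3 : (j + 1) * 2 ^ ee d k ≤ 2 ^ (k - ee d k) * 2 ^ ee d k := Nat.mul_le_mul_right _ hj
      rw [← pow_add, Nat.sub_add_cancel hek] at h3
      rw [pow_succ, hy]
      have h4 : (j + 1) * 2 ^ ee d k = j * 2 ^ ee d k + 2 ^ ee d k := by ring
      omega
    have h3 : ((y + 2 ^ ee d k : ℕ) : ℝ) ≤ ((2 ^ (k + 1) : ℕ) : ℝ) := by exact_mod_cast h2
    push_cast at h3
    rw [pow_succ] at h3
    rw [hH, hX]
    (clear * - h3; linarith)
  have heu : Real.exp u = (y : ℝ) + H / 2 := by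
    rw [hu]
    unfold uu
    rw [Real.exp_log (by (clear * -; positivity))]
  have heuX : X ≤ Real.exp u := by rw [heu]; (clear * - hd hd1 hH1 hyX; linarith)
  have heuX2 : Real.exp u ≤ 2 * X := by rw [heu]; (clear * - hd hd1 hH1 hy2; linarith)
  have hu1 : 1 + ((p - 1 : ℕ) : ℝ) * lam ≤ u := by
    have h2 : ((p - 1 : ℕ) : ℝ) ≤ p := by exact_mod_cast Nat.sub_le p 1
    have h3 : ((p - 1 : ℕ) : ℝ) * lam ≤ 1 / 8 := (mul_le_mul_of_nonneg_right h2 hlam0.le).trans hplam
    have h4 : (2 : ℝ) ≤ u := by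
      by_contra hc
      have h5 : Real.exp u < Real.exp 2 := Real.exp_lt_exp.2 (not_le.1 hc)
      have h6 : Real.exp 2 ≤ 9 := by
        have h7 : Real.exp 2 = Real.exp 1 ^ 2 := by rw [← Real.exp_nat_mul]; norm_num
        rw [h7]
        exact (pow_le_pow_left₀ (Real.exp_pos 1).le Real.exp_one_lt_three.le 2).trans_eq
          (by norm_num)
      (clear * - hd hd1 hX10 hH1 hyX heu h5 h6; linarith)
    (clear * - hd hd1 h3 h4; linarith)
  have hp1 : p - 1 + 1 = p := Nat.sub_add_cancel hp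
  -- the formula
  have hform := hC9 T M Z hT1 hBox lam u (p - 1) hlam0 hlam1 hu1
  rw [hp1] at hform
  have herr := hKe k hkD u heuX2
  have hform2 : ‖lhs (ker lam (p - 1)) p lam M u - line p lam T Z u‖ ≤ 1/100 * X :=
    hform.trans herr
  have hline : ‖line p lam T Z u‖ < 1/100 * X := by
    by_contra hc
    apply hjE
    rw [Finset.mem_filter, Finset.mem_range]
    exact ⟨hj, not_lt.1 hc⟩
  have hlhs : ‖lhs (ker lam (p - 1)) p lam M u‖ ≤ 1/50 * X := by
    have := norm_add_le (lhs (ker lam (p - 1)) p lam M u - line p lam T Z u) (line p lam T Z u)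
    rw [sub_add_cancel] at this
    (clear * - hform2 hline this; linarith)
  have hprime := hK10 k hkB j hj hfew
  set P : ℝ := ∑' n : ℕ, ArithmeticFunction.vonMangoldt n * ker lam (p - 1) (u - Real.log n) with hP
  have hP8 : P ≤ 1/8 * X := hprime
  obtain ⟨κ, hκ, hκe⟩ := KK_one_ge hlam0
  have hκp : 1 ≤ κ ^ p := one_le_pow₀ hκ
  have hlhsE : lhs (ker lam (p - 1)) p lam M u = ((P - Real.exp u * κ ^ p : ℝ) : ℂ) +
      (M.map (fun ρ => Complex.exp (ρ * u) * KK lam ρ ^ p)).sum := by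
    unfold lhs
    rw [hκe, ← hP]
    push_cast
    ring
  have hmainlow : Real.exp u - 1/8 * X - 1/50 * X ≤
      ‖(M.map (fun ρ => Complex.exp (ρ * u) * KK lam ρ ^ p)).sum‖ := by
    have h2 : ‖((P - Real.exp u * κ ^ p : ℝ) : ℂ)‖ ≥ Real.exp u - 1/8 * X := by
      rw [Complex.norm_real, Real.norm_eq_abs, abs_sub_comm]
      refine le_trans ?_ (le_abs_self _)
      have := Real.exp_pos u
      have h5 := le_mul_of_one_le_right this.le hκp
      (clear * - hP8 h5; linarith)
    have h3 := norm_sub_le_norm_add ((P - Real.exp u * κ ^ p : ℝ) : ℂ)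
      (M.map (fun ρ => Complex.exp (ρ * u) * KK lam ρ ^ p)).sum
    rw [← hlhsE] at h3
    (clear * - hlhs h2 h3; linarith)
  -- low and high zeros
  set B : ℝ := (2 : ℝ) ^ ((1/2 + 2 * d) * k) with hB
  set Mh := M.filter (fun ρ => B < |ρ.im|) with hMh
  set Ml := M.filter (fun ρ => ¬ B < |ρ.im|) with hMl
  have hsplit : Mh + Ml = M := Multiset.filter_add_not _ _
  have hhigh := hK12 k hkA M Z hBox j hj
  have hhigh2 : ‖(Mh.map (fun ρ => Complex.exp (ρ * u) * KK lam ρ ^ p)).sum‖ ≤ 1 := by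
    refine le_trans ?_ hhigh
    have h2 := Multiset.le_sum_of_subadditive (fun z : ℂ => ‖z‖) (by simp) (fun a b => norm_add_le a b)
      (Mh.map (fun ρ => Complex.exp (ρ * u) * KK lam ρ ^ p))
    rw [Multiset.map_map] at h2
    exact h2
  have hlow : Real.exp u - 1/8 * X - 1/50 * X - 1 ≤
      ‖(Ml.map (fun ρ => Complex.exp (ρ * u) * KK lam ρ ^ p)).sum‖ := by
    have h2 : (M.map (fun ρ => Complex.exp (ρ * u) * KK lam ρ ^ p)).sum =
        (Mh.map (fun ρ => Complex.exp (ρ * u) * KK lam ρ ^ p)).sum +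
        (Ml.map (fun ρ => Complex.exp (ρ * u) * KK lam ρ ^ p)).sum := by
      rw [← hsplit, Multiset.map_add, Multiset.sum_add]
    have h3 := norm_add_le (Mh.map (fun ρ => Complex.exp (ρ * u) * KK lam ρ ^ p)).sum
      (Ml.map (fun ρ => Complex.exp (ρ * u) * KK lam ρ ^ p)).sum
    rw [← h2] at h3
    (clear * - hmainlow hhigh2 h3; linarith)
  -- the finset
  have hBT : B < T + 2 := by
    have h2 : B ≤ T := by
      rw [hB, hT, ← Real.rpow_natCast]
      apply Real.rpow_le_rpow_of_exponent_le (by norm_num)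
      push_cast
      exact mul_le_mul_of_nonneg_right (by (clear * - hd hd1; linarith)) k.cast_nonneg
    (clear * - hd hd1 h2; linarith)
  have hmemS : ∀ ρ, ρ ∈ S ↔ ρ ∈ Ml := by
    intro ρ
    rw [hS, hMl, Multiset.mem_filter]
    constructor
    · rintro ⟨h2, h3, h4⟩
      refine ⟨?_, not_lt.2 h4⟩
      have hρT : |ρ.im| < T + 2 := lt_of_le_of_lt h4 hBT
      have hne := hBox.ne ρ h3 hρT
      have hρ1 : ρ ≠ 1 := by
        rintro rfl
        exact riemannZeta_one_ne_zero h2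
      have hE0 : EZ ρ = 0 := by rw [EZ_eq hρ1, h2, mul_zero]
      have hQ := hBox.eq ρ
      rw [hE0] at hQ
      have hQ0 : Qp M ρ = 0 := by
        rcases mul_eq_zero.1 hQ.symm with h | h
        · exact h
        · exact absurd h hne
      by_contra hc
      exact Qp_ne_zero M ρ (fun a ha hρa => hc (hρa ▸ ha)) hQ0
    · rintro ⟨h2, h3⟩
      obtain ⟨h4, h5, h6, h7⟩ := hBox.mem ρ h2
      exact ⟨h4, h5, not_lt.1 h3⟩
  have hSfin : Ml.toFinset = S := by
    ext ρ
    rw [Multiset.mem_toFinset, hmemS]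
  have hsum : (Ml.map (fun ρ => Complex.exp (ρ * u) * KK lam ρ ^ p)).sum =
      Complex.exp u * ∑ ρ ∈ S, (analyticOrderNatAt riemannZeta ρ : ℂ) * (KK lam ρ ^ p) *
        Complex.exp ((ρ - 1) * u) := by
    rw [Finset.sum_multiset_map_count, hSfin, Finset.mul_sum]
    refine Finset.sum_congr rfl fun ρ hρ => ?_
    have h2 := (hmemS ρ).1 hρ
    rw [hMl, Multiset.mem_filter] at h2
    obtain ⟨h4, h5, h6, h7⟩ := hBox.mem ρ h2.1
    have hcount : Ml.count ρ = analyticOrderNatAt riemannZeta ρ := by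
      rw [hMl, Multiset.count_filter_of_pos (p := fun ρ : ℂ => ¬ B < |ρ.im|) h2.2]
      exact hBox.count ρ h4 h5 h7
    rw [hcount, nsmul_eq_mul]
    have h8 : Complex.exp (ρ * u) = Complex.exp u * Complex.exp ((ρ - 1) * u) := by
      rw [← Complex.exp_add]; congr 1; ring
    rw [h8]
    ring
  rw [hsum, norm_mul, Complex.norm_exp, Complex.ofReal_re] at hlow
  have hupos := Real.exp_pos u
  have hfin : Real.exp u * (3/4) ≤ Real.exp u * ‖∑ ρ ∈ S, (analyticOrderNatAt riemannZeta ρ : ℂ) *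
      (KK lam ρ ^ p) * Complex.exp ((ρ - 1) * u)‖ := by
    refine le_trans ?_ hlow
    (clear * - hd hd1 hX10 hH1 hyX heu; linarith)
  exact le_of_mul_le_mul_left hfin hupos

end Pool.Agent.M20.Helper46.KSZ
end

/- Helper53.KN.Helper1.KL.Assembly -/
section
/-! Helper60/KG/Assembly.lean (helper60) adapted to the line 0.575 (box 57/100) by helper1 -/

set_option autoImplicit false
set_option linter.all false
open Filter Topology MeasureTheory Complex
open scoped Classical

namespace Pool.Agent.M20.Helper1.KL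

open Pool.Agent.M20.Helper10.QRH Pool.Agent.M20.Helper69.QRH
open Pool.Agent.M20.Helper46.KSZ (ev_sq KK_norm_le KK_one_ge)

private theorem exp_half_le : Real.exp (1 / 2) ≤ 2 := by
  have h : Real.exp (1 / 2) ^ 2 ≤ 2 ^ 2 := by
    rw [← Real.exp_nat_mul, show ((2 : ℕ) : ℝ) * (1 / 2) = 1 by norm_num]
    exact Real.exp_one_lt_three.le.trans (by norm_num)
  exact (pow_le_pow_iff_left₀ (Real.exp_pos _).le zero_le_two two_ne_zero).1 h

/-- numerical error of the shifted formula -/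
lemma err_smallG (C : ℝ) (hC : 0 < C) (p : ℕ) (hp : 1 ≤ p) (d : ℝ) (hd : -(1 / 2) ≤ d) :
    ∃ K : ℕ, ∀ k : ℕ, K ≤ k → ∀ u : ℝ, Real.exp u ≤ 2 * 2 ^ k →
      C * Real.exp (2 * (u + ((p - 1 : ℕ) : ℝ) * lamk p d k)) *
        (Real.log ((2 : ℝ) ^ (5 * k) + 2)) ^ 2 / (lamk p d k ^ 2 * 2 ^ (5 * k)) ≤ 1/100 * 2 ^ k := by
  obtain ⟨K, hK⟩ := ev_sq (C * 8 * 25 * 64 * p ^ 2 * 100)
  refine ⟨max K 1, fun k hk u hu => ?_⟩
  have hkK : K ≤ k := le_trans (le_max_left _ _) hk
  have hk1 : 1 ≤ k := le_trans (le_max_right _ _) hk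
  have hk1r : (1 : ℝ) ≤ k := by exact_mod_cast hk1
  have hpr : (1 : ℝ) ≤ p := by exact_mod_cast hp
  set X : ℝ := (2 : ℝ) ^ k with hX
  have hX1 : 1 ≤ X := one_le_pow₀ (by norm_num)
  have hX0 : 0 < X := by (clear * - hX1; linarith)
  set H : ℝ := (2 : ℝ) ^ ee d k with hH
  have hH1 : 1 ≤ H := one_le_pow₀ (by norm_num)
  have hHX : H ≤ X := pow_le_pow_right₀ (by norm_num) (ee_leG hd k)
  have hlam : lamk p d k = H / (8 * p * X) := rfl
  have hlam0 : 0 < lamk p d k := by rw [hlam]; positivity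
  -- the exponential
  have hpl : ((p - 1 : ℕ) : ℝ) * lamk p d k ≤ 1 / 8 := by
    have h1 : ((p - 1 : ℕ) : ℝ) ≤ p := by exact_mod_cast Nat.sub_le p 1
    calc ((p - 1 : ℕ) : ℝ) * lamk p d k ≤ p * (H / (8 * p * X)) := by
          rw [← hlam]; exact mul_le_mul_of_nonneg_right h1 hlam0.le
      _ = H / X / 8 := by field_simp
      _ ≤ 1 / 8 := by
          have : H / X ≤ 1 := by rw [div_le_one hX0]; exact hHX
          (clear * - this; linarith)
  have hexp : Real.exp (2 * (u + ((p - 1 : ℕ) : ℝ) * lamk p d k)) ≤ 8 * X ^ 2 := by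
    have h1 : Real.exp (2 * (u + ((p - 1 : ℕ) : ℝ) * lamk p d k)) =
        Real.exp u ^ 2 * Real.exp (2 * (((p - 1 : ℕ) : ℝ) * lamk p d k)) := by
      rw [← Real.exp_nat_mul, ← Real.exp_add]; congr 1; push_cast; ring
    have h2 : Real.exp (2 * (((p - 1 : ℕ) : ℝ) * lamk p d k)) ≤ 2 := by
      have h3 : Real.exp (2 * (((p - 1 : ℕ) : ℝ) * lamk p d k)) ≤ Real.exp (1 / 2) :=
        Real.exp_le_exp.2 (by (clear * - hpl; linarith))
      exact h3.trans exp_half_le
    have h6 : Real.exp u ^ 2 ≤ (2 * X) ^ 2 := pow_le_pow_left₀ (Real.exp_pos _).le hu 2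
    rw [h1]
    have h7 := Real.exp_pos (2 * (((p - 1 : ℕ) : ℝ) * lamk p d k))
    exact (mul_le_mul h6 h2 h7.le (sq_nonneg _)).trans_eq (by ring)
  -- the logarithm
  have hlog : (Real.log ((2 : ℝ) ^ (5 * k) + 2)) ^ 2 ≤ 25 * (k : ℝ) ^ 2 := by
    have h1 : (2 : ℝ) ^ (5 * k) + 2 ≤ 2 ^ (5 * k + 1) := by
      have : (2 : ℝ) ^ 1 ≤ 2 ^ (5 * k) := pow_le_pow_right₀ (by norm_num) (by omega)
      rw [pow_succ]
      (clear * - this; linarith)
    have h2 : Real.log ((2 : ℝ) ^ (5 * k) + 2) ≤ 5 * k := by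
      have h3 := Real.log_le_log (by positivity) h1
      rw [Real.log_pow] at h3
      push_cast at h3
      have h4 := Real.log_two_lt_d9
      have h5 : (5 * (k : ℝ) + 1) * Real.log 2 ≤ (5 * k + 1) * 0.7 := by
        exact mul_le_mul_of_nonneg_left (by (clear * - h4; linarith))
          (add_nonneg (mul_nonneg (by norm_num) (Nat.cast_nonneg _)) zero_le_one)
      (clear * - hk1r h3 h5; linarith)
    have h6 : 0 ≤ Real.log ((2 : ℝ) ^ (5 * k) + 2) := Real.log_nonneg (by
      have : (0 : ℝ) < 2 ^ (5 * k) := by positivity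
      (clear * - this; linarith))
    exact (pow_le_pow_left₀ h6 h2 2).trans_eq (by ring)
  have hT : (2 : ℝ) ^ (5 * k) = X ^ 5 := by rw [hX, ← pow_mul, mul_comm]
  have hden : 1 / (64 * p ^ 2) * X ^ 3 ≤ lamk p d k ^ 2 * 2 ^ (5 * k) := by
    rw [hT, hlam]
    have : (H / (8 * p * X)) ^ 2 * X ^ 5 = H ^ 2 * (1 / (64 * p ^ 2) * X ^ 3) := by
      field_simp
      ring
    rw [this]
    have h1 : 1 ≤ H ^ 2 := one_le_pow₀ hH1
    have h2 : 0 ≤ 1 / (64 * (p : ℝ) ^ 2) * X ^ 3 := by positivity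
    exact le_mul_of_one_le_left h2 h1
  have hden0 : 0 < lamk p d k ^ 2 * 2 ^ (5 * k) := by positivity
  rw [div_le_iff₀ hden0]
  have hmain := hK k hkK
  calc C * Real.exp (2 * (u + ((p - 1 : ℕ) : ℝ) * lamk p d k)) *
        (Real.log ((2 : ℝ) ^ (5 * k) + 2)) ^ 2 ≤ C * (8 * X ^ 2) * (25 * (k : ℝ) ^ 2) := by
        exact mul_le_mul (mul_le_mul_of_nonneg_left hexp hC.le) hlog (sq_nonneg _)
          (mul_nonneg hC.le (mul_nonneg (by norm_num) (sq_nonneg _)))
    _ = 1 / (64 * p ^ 2) * X ^ 2 / 100 * (C * 8 * 25 * 64 * p ^ 2 * 100 * k ^ 2) := by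
        (clear * - hp hk1 hX1 hC; field_simp)
    _ ≤ 1 / (64 * p ^ 2) * X ^ 2 / 100 * X :=
        mul_le_mul_of_nonneg_left hmain (by (clear * -; positivity))
    _ ≤ 1 / 100 * X * (1 / (64 * p ^ 2) * X ^ 3) := by
        have h1 : X ^ 3 ≤ X ^ 4 := pow_le_pow_right₀ hX1 (by norm_num)
        have h2 : 0 ≤ 1 / (64 * (p : ℝ) ^ 2) / 100 := by positivity
        calc 1 / (64 * (p : ℝ) ^ 2) * X ^ 2 / 100 * X = 1 / (64 * (p : ℝ) ^ 2) / 100 * X ^ 3 := by ring
          _ ≤ 1 / (64 * (p : ℝ) ^ 2) / 100 * X ^ 4 := mul_le_mul_of_nonneg_left h1 h2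
          _ = _ := by ring
    _ ≤ 1 / 100 * X * (lamk p d k ^ 2 * 2 ^ (5 * k)) :=
        mul_le_mul_of_nonneg_left hden (mul_nonneg (by norm_num) hX0.le)

theorem explicitCellsG (h1 : BoxExists) (h9 : ShiftIter) (h10 : PrimeSideG) (h11 : LineFewG)
    (h12 : HighZerosG) : ExplicitCellsG := by
  intro d η hd hd1 hη hη1
  obtain ⟨p, hp, K12, hK12⟩ := h12 d η hd hd1 hη
  obtain ⟨K10, hK10⟩ := h10 p d hp hd hd1
  obtain ⟨K11, hK11⟩ := h11 p d η hp hd hd1 hη
  obtain ⟨C, hC, hC9⟩ := h9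
  obtain ⟨Ke, hKe⟩ := err_smallG C hC p hp d hd
  have hpr : (1 : ℝ) ≤ p := by exact_mod_cast hp
  refine ⟨1 / (200 * p), by positivity, max (max K12 K10) (max (max K11 Ke) 10), fun k hk => ?_⟩
  have hkA : K12 ≤ k := le_trans (le_trans (le_max_left _ _) (le_max_left _ _)) hk
  have hkB : K10 ≤ k := le_trans (le_trans (le_max_right _ _) (le_max_left _ _)) hk
  have hkC : K11 ≤ k := le_trans (le_trans (le_trans (le_max_left _ _) (le_max_left _ _)) (le_max_right _ _)) hk
  have hkD : Ke ≤ k := le_trans (le_trans (le_trans (le_max_right _ _) (le_max_left _ _)) (le_max_right _ _)) hk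
  have hkE : 10 ≤ k := le_trans (le_trans (le_max_right _ _) (le_max_right _ _)) hk
  set X : ℝ := (2 : ℝ) ^ k with hX
  have hX10 : (1000 : ℝ) ≤ X := by
    have : (2 : ℝ) ^ 10 ≤ 2 ^ k := pow_le_pow_right₀ (by norm_num) hkE
    rw [hX]; norm_num at this ⊢; (clear * - this; linarith)
  have hX0 : 0 < X := by (clear * - hX10; linarith)
  have hX1 : 1 ≤ X := by (clear * - hX10; linarith)
  have hXk : ((2 ^ k : ℕ) : ℝ) = X := by push_cast; rfl
  obtain ⟨M, Z, hBox⟩ := h1 (2 ^ (5 * k)) (by positivity)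
  set T : ℝ := (2 : ℝ) ^ (5 * k) with hT
  have hT1 : 1 ≤ T := one_le_pow₀ (by norm_num)
  set lam : ℝ := lamk p d k with hlam
  set H : ℝ := (2 : ℝ) ^ ee d k with hH
  have hH1 : 1 ≤ H := one_le_pow₀ (by norm_num)
  have hHX : H ≤ X := pow_le_pow_right₀ (by norm_num) (ee_leG hd k)
  have hlamE : lam = H / (8 * p * X) := rfl
  have hlam0 : 0 < lam := by rw [hlamE]; positivity
  have hplam : p * lam ≤ 1 / 8 := by
    rw [hlamE]
    have : (p : ℝ) * (H / (8 * p * X)) = H / X / 8 := by field_simp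
    rw [this]
    have : H / X ≤ 1 := by rw [div_le_one hX0]; exact hHX
    (clear * - this; linarith)
  have hlam1 : lam ≤ 1 :=
    ((le_mul_of_one_le_left hlam0.le hpr).trans hplam).trans (by norm_num)
  refine ⟨fun ρ => KK lam ρ ^ p, (Finset.range (2 ^ (k - ee d k))).filter (fun j =>
      1/100 * (2 : ℝ) ^ k ≤ ‖line p (lamk p d k) (2 ^ (5 * k)) Z (uu d k j)‖), ?_,
      hK11 k hkC M Z hBox, ?_⟩
  · intro ρ hρ0 hρ1
    rw [norm_pow]
    have h2 := KK_norm_le hlam0 ρ
    have h3 : |ρ.re| ≤ 1 := abs_le.2 ⟨by (clear * - hρ0; linarith), hρ1⟩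
    calc ‖KK lam ρ‖ ^ p ≤ (Real.exp (lam * |ρ.re|)) ^ p := pow_le_pow_left₀ (norm_nonneg _) h2 p
      _ = Real.exp (p * (lam * |ρ.re|)) := by rw [Real.exp_nat_mul]
      _ ≤ Real.exp (1 / 2) := by
          apply Real.exp_le_exp.2
          have : (p : ℝ) * (lam * |ρ.re|) = (p * lam) * |ρ.re| := by ring
          rw [this]
          have := abs_nonneg ρ.re
          exact (mul_le_mul hplam h3 this (by norm_num)).trans (by norm_num)
      _ ≤ 2 := exp_half_le
  intro j hj hjE hfew S hS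
  set u : ℝ := uu d k j with hu
  -- the centre
  set y : ℕ := 2 ^ k + j * 2 ^ ee d k with hy
  have hyX : X ≤ y := by
    rw [← hXk]
    exact_mod_cast (by rw [hy]; exact Nat.le_add_right _ _ : 2 ^ k ≤ y)
  have hek := ee_leG hd k
  have hy2 : (y : ℝ) + H ≤ 2 * X := by
    have h2 : y + 2 ^ ee d k ≤ 2 ^ (k + 1) := by
      have h3 : (j + 1) * 2 ^ ee d k ≤ 2 ^ (k - ee d k) * 2 ^ ee d k := Nat.mul_le_mul_right _ hj
      rw [← pow_add, Nat.sub_add_cancel hek] at h3
      rw [pow_succ, hy]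
      have h4 : (j + 1) * 2 ^ ee d k = j * 2 ^ ee d k + 2 ^ ee d k := by ring
      omega
    have h3 : ((y + 2 ^ ee d k : ℕ) : ℝ) ≤ ((2 ^ (k + 1) : ℕ) : ℝ) := by exact_mod_cast h2
    push_cast at h3
    rw [pow_succ] at h3
    rw [hH, hX]
    (clear * - h3; linarith)
  have heu : Real.exp u = (y : ℝ) + H / 2 := by
    rw [hu]
    unfold uu
    rw [Real.exp_log (by (clear * -; positivity))]
  have heuX : X ≤ Real.exp u := by rw [heu]; (clear * - hH1 hyX; linarith)
  have heuX2 : Real.exp u ≤ 2 * X := by rw [heu]; (clear * - hH1 hy2; linarith)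
  have hu1 : 1 + ((p - 1 : ℕ) : ℝ) * lam ≤ u := by
    have h2 : ((p - 1 : ℕ) : ℝ) ≤ p := by exact_mod_cast Nat.sub_le p 1
    have h3 : ((p - 1 : ℕ) : ℝ) * lam ≤ 1 / 8 := (mul_le_mul_of_nonneg_right h2 hlam0.le).trans hplam
    have h4 : (2 : ℝ) ≤ u := by
      by_contra hc
      have h5 : Real.exp u < Real.exp 2 := Real.exp_lt_exp.2 (not_le.1 hc)
      have h6 : Real.exp 2 ≤ 9 := by
        have h7 : Real.exp 2 = Real.exp 1 ^ 2 := by rw [← Real.exp_nat_mul]; norm_num
        rw [h7]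
        exact (pow_le_pow_left₀ (Real.exp_pos 1).le Real.exp_one_lt_three.le 2).trans_eq
          (by norm_num)
      (clear * - hX10 hH1 hyX heu h5 h6; linarith)
    (clear * - h3 h4; linarith)
  have hp1 : p - 1 + 1 = p := Nat.sub_add_cancel hp
  -- the formula
  have hform := hC9 T M Z hT1 hBox lam u (p - 1) hlam0 hlam1 hu1
  rw [hp1] at hform
  have herr := hKe k hkD u heuX2
  have hform2 : ‖lhs (ker lam (p - 1)) p lam M u - line p lam T Z u‖ ≤ 1/100 * X :=
    hform.trans herr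
  have hline : ‖line p lam T Z u‖ < 1/100 * X := by
    by_contra hc
    apply hjE
    rw [Finset.mem_filter, Finset.mem_range]
    exact ⟨hj, not_lt.1 hc⟩
  have hlhs : ‖lhs (ker lam (p - 1)) p lam M u‖ ≤ 1/50 * X := by
    have := norm_add_le (lhs (ker lam (p - 1)) p lam M u - line p lam T Z u) (line p lam T Z u)
    rw [sub_add_cancel] at this
    (clear * - hform2 hline this; linarith)
  have hprime := hK10 k hkB j hj hfew
  set P : ℝ := ∑' n : ℕ, ArithmeticFunction.vonMangoldt n * ker lam (p - 1) (u - Real.log n) with hP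
  have hP8 : P ≤ 1/8 * X := hprime
  obtain ⟨κ, hκ, hκe⟩ := KK_one_ge hlam0
  have hκp : 1 ≤ κ ^ p := one_le_pow₀ hκ
  have hlhsE : lhs (ker lam (p - 1)) p lam M u = ((P - Real.exp u * κ ^ p : ℝ) : ℂ) +
      (M.map (fun ρ => Complex.exp (ρ * u) * KK lam ρ ^ p)).sum := by
    unfold lhs
    rw [hκe, ← hP]
    push_cast
    ring
  have hmainlow : Real.exp u - 1/8 * X - 1/50 * X ≤
      ‖(M.map (fun ρ => Complex.exp (ρ * u) * KK lam ρ ^ p)).sum‖ := by
    have h2 : ‖((P - Real.exp u * κ ^ p : ℝ) : ℂ)‖ ≥ Real.exp u - 1/8 * X := by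
      rw [Complex.norm_real, Real.norm_eq_abs, abs_sub_comm]
      refine le_trans ?_ (le_abs_self _)
      have := Real.exp_pos u
      have h5 := le_mul_of_one_le_right this.le hκp
      (clear * - hP8 h5; linarith)
    have h3 := norm_sub_le_norm_add ((P - Real.exp u * κ ^ p : ℝ) : ℂ)
      (M.map (fun ρ => Complex.exp (ρ * u) * KK lam ρ ^ p)).sum
    rw [← hlhsE] at h3
    (clear * - hlhs h2 h3; linarith)
  -- low and high zeros
  set B : ℝ := (2 : ℝ) ^ ((1/2 + d + η) * k) with hB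
  set Mh := M.filter (fun ρ => B < |ρ.im|) with hMh
  set Ml := M.filter (fun ρ => ¬ B < |ρ.im|) with hMl
  have hsplit : Mh + Ml = M := Multiset.filter_add_not _ _
  have hhigh := hK12 k hkA M Z hBox j hj
  have hhigh2 : ‖(Mh.map (fun ρ => Complex.exp (ρ * u) * KK lam ρ ^ p)).sum‖ ≤ 1 := by
    refine le_trans ?_ hhigh
    have h2 := Multiset.le_sum_of_subadditive (fun z : ℂ => ‖z‖) (by simp) (fun a b => norm_add_le a b)
      (Mh.map (fun ρ => Complex.exp (ρ * u) * KK lam ρ ^ p))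
    rw [Multiset.map_map] at h2
    exact h2
  have hlow : Real.exp u - 1/8 * X - 1/50 * X - 1 ≤
      ‖(Ml.map (fun ρ => Complex.exp (ρ * u) * KK lam ρ ^ p)).sum‖ := by
    have h2 : (M.map (fun ρ => Complex.exp (ρ * u) * KK lam ρ ^ p)).sum =
        (Mh.map (fun ρ => Complex.exp (ρ * u) * KK lam ρ ^ p)).sum +
        (Ml.map (fun ρ => Complex.exp (ρ * u) * KK lam ρ ^ p)).sum := by
      rw [← hsplit, Multiset.map_add, Multiset.sum_add]
    have h3 := norm_add_le (Mh.map (fun ρ => Complex.exp (ρ * u) * KK lam ρ ^ p)).sum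
      (Ml.map (fun ρ => Complex.exp (ρ * u) * KK lam ρ ^ p)).sum
    rw [← h2] at h3
    (clear * - hmainlow hhigh2 h3; linarith)
  -- the finset
  have hBT : B < T + 2 := by
    have h2 : B ≤ T := by
      rw [hB, hT, ← Real.rpow_natCast]
      apply Real.rpow_le_rpow_of_exponent_le (by norm_num)
      push_cast
      exact mul_le_mul_of_nonneg_right (by (clear * - hd1 hη1; linarith)) k.cast_nonneg
    (clear * - h2; linarith)
  have hmemS : ∀ ρ, ρ ∈ S ↔ ρ ∈ Ml := by
    intro ρ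
    rw [hS, hMl, Multiset.mem_filter]
    constructor
    · rintro ⟨h2, h3, h4⟩
      refine ⟨?_, not_lt.2 h4⟩
      have hρT : |ρ.im| < T + 2 := lt_of_le_of_lt h4 hBT
      have hne := hBox.ne ρ h3 hρT
      have hρ1 : ρ ≠ 1 := by
        rintro rfl
        exact riemannZeta_one_ne_zero h2
      have hE0 : EZ ρ = 0 := by rw [EZ_eq hρ1, h2, mul_zero]
      have hQ := hBox.eq ρ
      rw [hE0] at hQ
      have hQ0 : Qp M ρ = 0 := by
        rcases mul_eq_zero.1 hQ.symm with h | h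
        · exact h
        · exact absurd h hne
      by_contra hc
      exact Qp_ne_zero M ρ (fun a ha hρa => hc (hρa ▸ ha)) hQ0
    · rintro ⟨h2, h3⟩
      obtain ⟨h4, h5, h6, h7⟩ := hBox.mem ρ h2
      exact ⟨h4, h5, not_lt.1 h3⟩
  have hSfin : Ml.toFinset = S := by
    ext ρ
    rw [Multiset.mem_toFinset, hmemS]
  have hsum : (Ml.map (fun ρ => Complex.exp (ρ * u) * KK lam ρ ^ p)).sum =
      Complex.exp u * ∑ ρ ∈ S, (analyticOrderNatAt riemannZeta ρ : ℂ) * (KK lam ρ ^ p) *
        Complex.exp ((ρ - 1) * u) := by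
    rw [Finset.sum_multiset_map_count, hSfin, Finset.mul_sum]
    refine Finset.sum_congr rfl fun ρ hρ => ?_
    have h2 := (hmemS ρ).1 hρ
    rw [hMl, Multiset.mem_filter] at h2
    obtain ⟨h4, h5, h6, h7⟩ := hBox.mem ρ h2.1
    have hcount : Ml.count ρ = analyticOrderNatAt riemannZeta ρ := by
      rw [hMl, Multiset.count_filter_of_pos (p := fun ρ : ℂ => ¬ B < |ρ.im|) h2.2]
      exact hBox.count ρ h4 h5 h7
    rw [hcount, nsmul_eq_mul]
    have h8 : Complex.exp (ρ * u) = Complex.exp u * Complex.exp ((ρ - 1) * u) := by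
      rw [← Complex.exp_add]; congr 1; ring
    rw [h8]
    ring
  rw [hsum, norm_mul, Complex.norm_exp, Complex.ofReal_re] at hlow
  have hupos := Real.exp_pos u
  have hfin : Real.exp u * (3/4) ≤ Real.exp u * ‖∑ ρ ∈ S, (analyticOrderNatAt riemannZeta ρ : ℂ) *
      (KK lam ρ ^ p) * Complex.exp ((ρ - 1) * u)‖ := by
    refine le_trans ?_ hlow
    (clear * - hX10 hH1 hyX heu; linarith)
  exact le_of_mul_le_mul_left hfin hupos

end Pool.Agent.M20.Helper1.KL
end

/- Helper53.KN.Helper18.KSZ.E10 -/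
section
/-!
# KSZ-E10: a cell with few primes makes the prime side of the explicit formula small
-/

set_option autoImplicit false
open Filter Topology Finset
open scoped ArithmeticFunction.vonMangoldt

namespace Pool.Agent.M20.Helper18.KSZ

open Pool.Agent.M20.Helper10.QRH Pool.Agent.M20.Helper46.KSZ Pool.Agent.M20.Helper30.QRH

lemma ker_sum_le {p : ℕ} {lam X : ℝ} (hK : KerFacts) (hp : 1 ≤ p) (y H : ℕ) (hlam : 0 < lam)
    (hX : 0 < X) (hHX : p * lam * (4 * X) ≤ H) (hy : X ≤ y) (hy2 : (y : ℝ) + H ≤ 2 * X) :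
    ∑' n : ℕ, Λ n * ker lam (p - 1) (Real.log (y + H / 2) - Real.log n) ≤
      1 / lam * ∑ n ∈ Ico y (y + H), Λ n := by
  obtain ⟨_, hk0, hk1, hk2⟩ := hK lam hlam (p - 1)
  have hp1 : (((p - 1 : ℕ) : ℝ) + 1) = p := by
    rw [Nat.cast_sub hp]; push_cast; ring
  rw [hp1] at hk2
  set l' : ℝ := p * lam with hl'
  have hl'0 : 0 < l' := by
    have : (0 : ℝ) < p := by exact_mod_cast hp
    (clear * - hp hlam; positivity)
  have hH : (0 : ℝ) < H := by
    refine lt_of_lt_of_le (by (clear * - hp hlam hX; positivity)) hHX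
  have hy0 : (0 : ℝ) < y := by (clear * - hX hy; linarith)
  have hz : ∀ n ∉ Ico y (y + H), Λ n * ker lam (p - 1) (Real.log (y + H / 2) - Real.log n) = 0 := by
    intro n hn
    rw [mem_Ico, not_and_or, not_le, not_lt] at hn
    rcases Nat.eq_zero_or_pos n with h0 | h0
    · subst h0
      simp
    have hn0 : (0 : ℝ) < n := by exact_mod_cast h0
    rw [hk2, mul_zero]
    rcases hn with hn | hn
    · have h1 : (n : ℝ) ≤ y := by exact_mod_cast hn.le
      have h2 := Real.log_le_log hn0 h1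
      have h3 := log_gap (a := (y : ℝ)) (b := y + H / 2) hy0 (by (clear * - hH; linarith))
      have h4 : l' ≤ ((y : ℝ) + H / 2 - y) / (y + H / 2) := by
        rw [le_div_iff₀ (by (clear * - hy0 hH; positivity))]
        (clear * - hHX hy2 hX; nlinarith)
      rw [le_abs]
      left
      (clear * - h2 h3 h4; linarith)
    · have h1 : (y : ℝ) + H ≤ n := by exact_mod_cast hn
      have h2 := Real.log_le_log (by (clear * - hy0 hH; positivity)) h1
      have h3 := log_gap (a := (y : ℝ) + H / 2) (b := y + H) (by (clear * - hy0 hH; positivity)) (by (clear * - hH; linarith))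
      have h4 : l' ≤ ((y : ℝ) + H - (y + H / 2)) / (y + H) := by
        rw [le_div_iff₀ (by (clear * - hy0 hH; positivity))]
        (clear * - hHX hy2 hX; nlinarith)
      rw [le_abs]
      right
      (clear * - h2 h3 h4; linarith)
  rw [tsum_eq_sum hz, mul_sum]
  apply sum_le_sum
  intro n _
  rw [mul_comm]
  exact mul_le_mul_of_nonneg_right (hk1 _) ArithmeticFunction.vonMangoldt_nonneg

lemma num_bound' {K H D X L p : ℝ} (hK : 100 ≤ K) (hp : 1 ≤ p) (hH : 2000 * p * K ^ 2 ≤ H)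
    (hD : 2000 * p * K ^ 2 ≤ D) (hX : 0 < X) (_hL0 : 0 ≤ L) (hL : L ≤ 0.6932) :
    1 / (H / (8 * p * X)) * (((K + 1) * L) * (1 / (200 * p) * H / K + K * (H / D + 1))) ≤
      1 / 8 * X := by
  have hK0 : 0 < K := by (clear * - hK; linarith)
  have hp0 : 0 < p := by (clear * - hp; linarith)
  have hH0 : 0 < H := lt_of_lt_of_le (by positivity) hH
  have hD0 : 0 < D := lt_of_lt_of_le (by positivity) hD
  have e1 : 1 / (H / (8 * p * X)) * (((K + 1) * L) * (1 / (200 * p) * H / K + K * (H / D + 1))) =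
      X * (L * ((K + 1) / K) * (8 / 200) + 8 * L * (K + 1) * K * (p / D) +
        8 * L * (K + 1) * K * (p / H)) := by
    field_simp
    ring
  rw [e1, mul_comm (1 / 8) X]
  apply mul_le_mul_of_nonneg_left _ hX.le
  have h1 : (K + 1) / K ≤ 1.01 := by
    rw [div_le_iff₀ hK0]; (clear * - hK; linarith)
  have h2 : p / D ≤ 1 / (2000 * K ^ 2) := by
    rw [div_le_div_iff₀ hD0 (by positivity)]; (clear * - hD; linarith)
  have h3 : p / H ≤ 1 / (2000 * K ^ 2) := by
    rw [div_le_div_iff₀ hH0 (by positivity)]; (clear * - hH; linarith)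
  have h4 : (K + 1) * K * (1 / (2000 * K ^ 2)) ≤ 1.01 / 2000 := by
    rw [mul_one_div, div_le_div_iff₀ (by positivity) (by norm_num)]
    (clear * - hK; nlinarith)
  have h5 : 0 ≤ (K + 1) * K := by positivity
  have h6 : (K + 1) * K * (p / D) ≤ 1.01 / 2000 :=
    (mul_le_mul_of_nonneg_left h2 h5).trans h4
  have h7 : (K + 1) * K * (p / H) ≤ 1.01 / 2000 :=
    (mul_le_mul_of_nonneg_left h3 h5).trans h4
  have h8 : L * ((K + 1) / K) ≤ 0.6932 * 1.01 := mul_le_mul hL h1 (by positivity) (by norm_num)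
  have h9 : 8 * L * (K + 1) * K * (p / D) ≤ 8 * 0.6932 * (1.01 / 2000) := by
    calc 8 * L * (K + 1) * K * (p / D) = (8 * L) * ((K + 1) * K * (p / D)) := by ring
      _ ≤ (8 * 0.6932) * (1.01 / 2000) := by
          apply mul_le_mul (by (clear * - hL; linarith)) h6 (by positivity) (by norm_num)
  have h10 : 8 * L * (K + 1) * K * (p / H) ≤ 8 * 0.6932 * (1.01 / 2000) := by
    calc 8 * L * (K + 1) * K * (p / H) = (8 * L) * ((K + 1) * K * (p / H)) := by ring
      _ ≤ (8 * 0.6932) * (1.01 / 2000) := by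
          apply mul_le_mul (by (clear * - hL; linarith)) h7 (by (clear * - hK hp hH0; positivity)) (by norm_num)
  (clear * - h8 h9 h10; linarith)

lemma pow_large (B : ℝ) : ∃ K : ℕ, ∀ k : ℕ, K ≤ k → B * (k : ℝ) ^ 2 ≤ (2 : ℝ) ^ ((2 / 5 : ℝ) * k) := by
  have h1 : 1 < (2 : ℝ) ^ (2 / 5 : ℝ) := Real.one_lt_rpow (by norm_num) (by norm_num)
  have h2 := (tendsto_pow_const_div_const_pow_of_one_lt 2 h1).const_mul B
  rw [mul_zero] at h2
  have h4 := h2.eventually (gt_mem_nhds (show (0 : ℝ) < 1 by norm_num))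
  obtain ⟨K, hK⟩ := eventually_atTop.mp h4
  refine ⟨K, fun k hk => ?_⟩
  have h5 := (hK k hk).le
  have h6 : (0 : ℝ) < ((2 : ℝ) ^ (2 / 5 : ℝ)) ^ k := by positivity
  rw [← mul_div_assoc, div_le_one h6] at h5
  rw [Real.rpow_mul (by norm_num), Real.rpow_natCast]
  exact h5

lemma ee_large {d : ℝ} (hd0 : 0 < d) (hd : d ≤ 1 / 100) {k : ℕ} (hk : 20 ≤ k) :
    (2 : ℝ) ^ ((2 / 5 : ℝ) * k) ≤ (2 : ℝ) ^ ee d k ∧
    (2 : ℝ) ^ ((2 / 5 : ℝ) * k) ≤ (((2 : ℕ) ^ (k / 2) : ℕ) : ℝ) ∧ ee d k ≤ k := by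
  have hk' : (20 : ℝ) ≤ k := by exact_mod_cast hk
  refine ⟨?_, ?_, ?_⟩
  · rw [← Real.rpow_natCast 2 (ee d k)]
    apply Real.rpow_le_rpow_of_exponent_le (by norm_num)
    have h1 := Nat.lt_floor_add_one ((k : ℝ) * (1 / 2 - d))
    unfold ee
    (clear * - hd0 hd hk' h1; nlinarith)
  · push_cast
    rw [← Real.rpow_natCast 2 (k / 2)]
    apply Real.rpow_le_rpow_of_exponent_le (by norm_num)
    have h1 : k ≤ 2 * (k / 2) + 1 := by omega
    have h2 : (k : ℝ) ≤ 2 * ((k / 2 : ℕ) : ℝ) + 1 := by exact_mod_cast h1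
    (clear * - hd0 hd hk' h2; linarith)
  · unfold ee
    apply Nat.floor_le_of_le
    (clear * - hd0 hd hk'; nlinarith)

/-- E10 -/
theorem primeSide (h8 : KerFacts) : PrimeSide := by
  intro p d hp hd0 hd
  obtain ⟨K, hK⟩ := pow_large (2000 * p)
  refine ⟨max K 100, fun k hk j hj hfew => ?_⟩
  have hkK : K ≤ k := (le_max_left _ _).trans hk
  have hk100 : 100 ≤ k := (le_max_right _ _).trans hk
  have hk100' : (100 : ℝ) ≤ k := by exact_mod_cast hk100
  obtain ⟨he1, he2, he3⟩ := ee_large hd0 hd (by omega : 20 ≤ k)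
  have hbig := hK k hkK
  set e := ee d k with he
  have hp' : (1 : ℝ) ≤ p := by exact_mod_cast hp
  have hp0 : (0 : ℝ) < p := by (clear * - hd0 hd hp'; linarith)
  set X : ℝ := (2 : ℝ) ^ k with hX
  have hX0 : 0 < X := by positivity
  set y : ℕ := 2 ^ k + j * 2 ^ e with hy
  have hyH : y + 2 ^ e ≤ 2 ^ (k + 1) := by
    have h1 : (j + 1) * 2 ^ e ≤ 2 ^ (k - e) * 2 ^ e := Nat.mul_le_mul_right _ hj
    rw [← pow_add, Nat.sub_add_cancel he3] at h1
    rw [hy, pow_succ]
    (clear * - h1; nlinarith)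
  have hlamdef : lamk p d k = (2 : ℝ) ^ e / (8 * p * X) := rfl
  have hlam0 : 0 < lamk p d k := by rw [hlamdef]; positivity
  have hu : uu d k j = Real.log ((y : ℝ) + ((2 ^ e : ℕ) : ℝ) / 2) := by
    unfold uu
    rw [hy, he]
    push_cast
    ring_nf
  have hcell : cell d k j = Ico y (y + 2 ^ e) := by
    unfold cell
    rw [hy]
    congr 1
    ring
  have h1 := ker_sum_le (X := X) h8 hp y (2 ^ e) hlam0 hX0 (by
      rw [hlamdef]
      push_cast
      have : (p : ℝ) * (2 ^ e / (8 * p * X)) * (4 * X) = 2 ^ e / 2 := by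
        field_simp; ring
      rw [this]
      have : (0 : ℝ) < 2 ^ e := by positivity
      (clear * - this; linarith))
    (by rw [hy, hX]; push_cast; have : (0 : ℝ) ≤ (j : ℝ) * 2 ^ e := by positivity
        (clear * - this; linarith))
    (by rw [hX]; have : ((y + 2 ^ e : ℕ) : ℝ) ≤ ((2 ^ (k + 1) : ℕ) : ℝ) := by exact_mod_cast hyH
        push_cast at this ⊢
        rw [pow_succ] at this
        (clear * - this; linarith))
  rw [hu]
  refine h1.trans ?_
  have hD0 : 0 < 2 ^ (k / 2) := by positivity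
  have hDD : 2 ^ (k / 2) * 2 ^ (k / 2) ≤ y := by
    rw [← pow_add]
    have : 2 ^ (k / 2 + k / 2) ≤ 2 ^ k := Nat.pow_le_pow_right (by norm_num) (by (clear * - p d K j; omega))
    rw [hy]; omega
  have hfew' : ((((Ico y (y + 2 ^ e)).filter Nat.Prime).card : ℕ) : ℝ) ≤
      1 / (200 * p) * (2 : ℝ) ^ e / k := by
    unfold Few at hfew
    rw [hcell] at hfew
    exact hfew.le
  have h2 := cell_sum k y (2 ^ e) (2 ^ (k / 2)) hD0 hDD hyH _ hfew'
  have h3 : 1 / lamk p d k * ∑ n ∈ Ico y (y + 2 ^ e), Λ n ≤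
      1 / lamk p d k * (((k + 1) * Real.log 2) * (1 / (200 * p) * (2 : ℝ) ^ e / k +
        k * (((2 ^ e : ℕ) : ℝ) / ((2 ^ (k / 2) : ℕ) : ℝ) + 1))) :=
    mul_le_mul_of_nonneg_left h2 (by positivity)
  refine h3.trans ?_
  rw [hlamdef]
  have h4 := num_bound' (K := k) (H := (2 : ℝ) ^ e) (D := ((2 ^ (k / 2) : ℕ) : ℝ)) (X := X)
    (L := Real.log 2) (p := p) hk100' hp' (hbig.trans he1) (hbig.trans he2) hX0
    (Real.log_nonneg (by norm_num)) (by have := Real.log_two_lt_d9; (clear * - hd0 hd this; linarith))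
  push_cast at h4 ⊢
  exact h4

end Pool.Agent.M20.Helper18.KSZ
end

/- Helper53.KN.Helper1.KL.E10 -/
section
/-! Helper18/KSZ/E10.lean (helper18), Helper60/KG/E10.lean (helper60) adapted to the line 0.575 (box 57/100) by helper1 -/

set_option autoImplicit false
open Filter Topology Finset
open scoped ArithmeticFunction.vonMangoldt

namespace Pool.Agent.M20.Helper1.KL

open Pool.Agent.M20.Helper10.QRH Pool.Agent.M20.Helper30.QRH
open Pool.Agent.M20.Helper18.KSZ (ker_sum_le num_bound')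

lemma pow_large3 (B : ℝ) : ∃ K : ℕ, ∀ k : ℕ, K ≤ k → B * (k : ℝ) ^ 2 ≤ (2 : ℝ) ^ ((3 / 20 : ℝ) * k) := by
  have h1 : 1 < (2 : ℝ) ^ (3 / 20 : ℝ) := Real.one_lt_rpow (by norm_num) (by norm_num)
  have h2 := (tendsto_pow_const_div_const_pow_of_one_lt 2 h1).const_mul B
  rw [mul_zero] at h2
  have h4 := h2.eventually (gt_mem_nhds (show (0 : ℝ) < 1 by norm_num))
  obtain ⟨K, hK⟩ := eventually_atTop.mp h4
  refine ⟨K, fun k hk => ?_⟩
  have h5 := (hK k hk).le
  have h6 : (0 : ℝ) < ((2 : ℝ) ^ (3 / 20 : ℝ)) ^ k := by positivity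
  rw [← mul_div_assoc, div_le_one h6] at h5
  refine h5.trans (le_of_eq ?_)
  rw [← Real.rpow_natCast, ← Real.rpow_mul (by norm_num)]

lemma ee_largeG {d : ℝ} (hd0 : -(1 / 2) ≤ d) (hd : d ≤ 34 / 100) {k : ℕ} (hk : 100 ≤ k) :
    (2 : ℝ) ^ ((3 / 20 : ℝ) * k) ≤ (2 : ℝ) ^ ee d k ∧
    (2 : ℝ) ^ ((3 / 20 : ℝ) * k) ≤ (((2 : ℕ) ^ (k / 2) : ℕ) : ℝ) ∧ ee d k ≤ k := by
  have hk' : (100 : ℝ) ≤ k := by exact_mod_cast hk
  refine ⟨?_, ?_, ?_⟩
  · rw [← Real.rpow_natCast 2 (ee d k)]
    apply Real.rpow_le_rpow_of_exponent_le (by norm_num)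
    have h1 := Nat.lt_floor_add_one ((k : ℝ) * (1 / 2 - d))
    unfold ee
    nlinarith
  · push_cast
    rw [← Real.rpow_natCast 2 (k / 2)]
    apply Real.rpow_le_rpow_of_exponent_le (by norm_num)
    have h1 : k ≤ 2 * (k / 2) + 1 := by omega
    have h2 : (k : ℝ) ≤ 2 * ((k / 2 : ℕ) : ℝ) + 1 := by exact_mod_cast h1
    linarith
  · unfold ee
    apply Nat.floor_le_of_le
    nlinarith

/-- E10 -/
theorem primeSideG (h8 : KerFacts) : PrimeSideG := by
  intro p d hp hd0 hd
  obtain ⟨K, hK⟩ := pow_large3 (2000 * p)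
  refine ⟨max K 100, fun k hk j hj hfew => ?_⟩
  have hkK : K ≤ k := (le_max_left _ _).trans hk
  have hk100 : 100 ≤ k := (le_max_right _ _).trans hk
  have hk100' : (100 : ℝ) ≤ k := by exact_mod_cast hk100
  obtain ⟨he1, he2, he3⟩ := ee_largeG hd0 hd hk100
  have hbig := hK k hkK
  set e := ee d k with he
  have hp' : (1 : ℝ) ≤ p := by exact_mod_cast hp
  have hp0 : (0 : ℝ) < p := by linarith
  set X : ℝ := (2 : ℝ) ^ k with hX
  have hX0 : 0 < X := by positivity
  set y : ℕ := 2 ^ k + j * 2 ^ e with hy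
  have hyH : y + 2 ^ e ≤ 2 ^ (k + 1) := by
    have h1 : (j + 1) * 2 ^ e ≤ 2 ^ (k - e) * 2 ^ e := Nat.mul_le_mul_right _ hj
    rw [← pow_add, Nat.sub_add_cancel he3] at h1
    rw [hy, pow_succ]
    nlinarith
  have hlamdef : lamk p d k = (2 : ℝ) ^ e / (8 * p * X) := rfl
  have hlam0 : 0 < lamk p d k := by rw [hlamdef]; positivity
  have hu : uu d k j = Real.log ((y : ℝ) + ((2 ^ e : ℕ) : ℝ) / 2) := by
    unfold uu
    rw [hy, he]
    push_cast
    ring_nf
  have hcell : cell d k j = Ico y (y + 2 ^ e) := by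
    unfold cell
    rw [hy]
    congr 1
    ring
  have h1 := ker_sum_le (X := X) h8 hp y (2 ^ e) hlam0 hX0 (by
      rw [hlamdef]
      push_cast
      have : (p : ℝ) * (2 ^ e / (8 * p * X)) * (4 * X) = 2 ^ e / 2 := by
        field_simp; ring
      rw [this]
      have : (0 : ℝ) < 2 ^ e := by positivity
      linarith)
    (by rw [hy, hX]; push_cast; have : (0 : ℝ) ≤ (j : ℝ) * 2 ^ e := by positivity
        linarith)
    (by rw [hX]; have : ((y + 2 ^ e : ℕ) : ℝ) ≤ ((2 ^ (k + 1) : ℕ) : ℝ) := by exact_mod_cast hyH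
        push_cast at this ⊢
        rw [pow_succ] at this
        linarith)
  rw [hu]
  refine h1.trans ?_
  have hD0 : 0 < 2 ^ (k / 2) := by positivity
  have hDD : 2 ^ (k / 2) * 2 ^ (k / 2) ≤ y := by
    rw [← pow_add]
    have : 2 ^ (k / 2 + k / 2) ≤ 2 ^ k := Nat.pow_le_pow_right (by norm_num) (by omega)
    rw [hy]; omega
  have hfew' : ((((Ico y (y + 2 ^ e)).filter Nat.Prime).card : ℕ) : ℝ) ≤
      1 / (200 * p) * (2 : ℝ) ^ e / k := by
    unfold Few at hfew
    rw [hcell] at hfew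
    exact hfew.le
  have h2 := cell_sum k y (2 ^ e) (2 ^ (k / 2)) hD0 hDD hyH _ hfew'
  have h3 : 1 / lamk p d k * ∑ n ∈ Ico y (y + 2 ^ e), Λ n ≤
      1 / lamk p d k * (((k + 1) * Real.log 2) * (1 / (200 * p) * (2 : ℝ) ^ e / k +
        k * (((2 ^ e : ℕ) : ℝ) / ((2 ^ (k / 2) : ℕ) : ℝ) + 1))) :=
    mul_le_mul_of_nonneg_left h2 (by positivity)
  refine h3.trans ?_
  rw [hlamdef]
  have h4 := num_bound' (K := k) (H := (2 : ℝ) ^ e) (D := ((2 ^ (k / 2) : ℕ) : ℝ)) (X := X)
    (L := Real.log 2) (p := p) hk100' hp' (hbig.trans he1) (hbig.trans he2) hX0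
    (Real.log_nonneg (by norm_num)) (by have := Real.log_two_lt_d9; linarith)
  push_cast at h4 ⊢
  exact h4

end Pool.Agent.M20.Helper1.KL
end

/- Helper53.KN.Helper18.KSZ.E12 -/
section
/-!
# KSZ-E12: high zeros are negligible in the explicit formula with iterated kernels
-/

set_option autoImplicit false
open Filter Topology

namespace Pool.Agent.M20.Helper18.KSZ

open Pool.Agent.M20.Helper10.QRH Pool.Agent.M20.Helper46.KSZ

lemma multiset_sum_le' (M : Multiset ℂ) (f : ℂ → ℝ) (b : ℝ) (h : ∀ ρ ∈ M, f ρ ≤ b) :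
    (M.map f).sum ≤ Multiset.card M * b := by
  induction M using Multiset.induction_on with
  | empty => simp
  | cons a M ih =>
    rw [Multiset.map_cons, Multiset.sum_cons, Multiset.card_cons]
    have h1 := ih fun ρ hρ => h ρ (Multiset.mem_cons_of_mem hρ)
    have h2 := h a (Multiset.mem_cons_self a M)
    push_cast
    linarith

lemma geo_small (A : ℝ) : ∃ K : ℕ, ∀ k : ℕ, K ≤ k → A * ((5 * (k : ℝ) + 2) * (1 / 2 : ℝ) ^ k) ≤ 1 := by
  have h1 := tendsto_pow_const_div_const_pow_of_one_lt 1 (by norm_num : (1 : ℝ) < 2)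
  have h2 := tendsto_pow_const_div_const_pow_of_one_lt 0 (by norm_num : (1 : ℝ) < 2)
  have h3 := ((h1.const_mul 5).add (h2.const_mul 2)).const_mul A
  simp only [mul_zero, add_zero] at h3
  have h4 := h3.eventually (gt_mem_nhds (show (0 : ℝ) < 1 by norm_num))
  obtain ⟨K, hK⟩ := eventually_atTop.mp h4
  refine ⟨K, fun k hk => ?_⟩
  have h5 := (hK k hk).le
  calc A * ((5 * (k : ℝ) + 2) * (1 / 2 : ℝ) ^ k) =
      A * (5 * ((k : ℝ) ^ 1 / 2 ^ k) + 2 * ((k : ℝ) ^ 0 / 2 ^ k)) := by
        rw [one_div, inv_pow]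
        ring
    _ ≤ 1 := h5

/-- E12 -/
theorem highZeros (hK : KFacts) (h4 : CardBox) : HighZeros := by
  intro d hd0 hd
  obtain ⟨C1, hC1⟩ := hK.bound
  obtain ⟨C2, hC2, hcard⟩ := h4
  set p : ℕ := ⌈8 / d⌉₊ with hp
  have hpd : 8 ≤ (p : ℝ) * d := by
    have := Nat.le_ceil (8 / d)
    rw [← hp, div_le_iff₀ hd0] at this
    exact this
  have hp1 : 1 ≤ p := by
    rw [hp]
    exact Nat.ceil_pos.mpr (by positivity)
  have hp1' : (1 : ℝ) ≤ p := by exact_mod_cast hp1
  have hp0 : (0 : ℝ) < p := by (clear * - hd0 hd hp1'; linarith)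
  set B : ℝ := (|C1| * (16 * p) ^ 2) ^ p with hB
  have hB0 : 0 ≤ B := by rw [hB]; (clear * - hd0; positivity)
  obtain ⟨K, hKK⟩ := geo_small (2 * (C2 * B))
  refine ⟨p, hp1, max K 100, fun k hk M Z hM j hj => ?_⟩
  have hkK : K ≤ k := (le_max_left _ _).trans hk
  have hk100 : 100 ≤ k := (le_max_right _ _).trans hk
  have hk100' : (100 : ℝ) ≤ k := by exact_mod_cast hk100
  obtain ⟨he1, he2, he3⟩ := ee_large hd0 hd (by omega : 20 ≤ k)
  set e := ee d k with he
  set X : ℝ := (2 : ℝ) ^ k with hX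
  have hX0 : 0 < X := by positivity
  have hlamdef : lamk p d k = (2 : ℝ) ^ e / (8 * p * X) := rfl
  set lam := lamk p d k with hlam
  have hlam0 : 0 < lam := by rw [hlamdef]; positivity
  have heX : (2 : ℝ) ^ e ≤ X := pow_le_pow_right₀ (by norm_num) he3
  have hlam1 : lam ≤ 1 := by
    rw [hlamdef, div_le_one (by positivity)]
    (clear * - hd0 hX0 heX hd hpd; nlinarith)
  -- the point u
  have huexp : Real.exp (uu d k j) ≤ 2 * X ∧ 0 ≤ uu d k j := by
    have hyH : 2 ^ k + j * 2 ^ e + 2 ^ e ≤ 2 ^ (k + 1) := by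
      have h1 : (j + 1) * 2 ^ e ≤ 2 ^ (k - e) * 2 ^ e := Nat.mul_le_mul_right _ hj
      rw [← pow_add, Nat.sub_add_cancel he3] at h1
      rw [pow_succ]
      (clear * - h1; nlinarith)
    have h1 : ((2 ^ k + j * 2 ^ e + 2 ^ e : ℕ) : ℝ) ≤ ((2 ^ (k + 1) : ℕ) : ℝ) := by
      exact_mod_cast hyH
    push_cast at h1
    have h2 : (0 : ℝ) < 2 ^ e := by positivity
    have h3 : (0 : ℝ) ≤ (j : ℝ) * 2 ^ e := by (clear * -; positivity)
    have h4 : (1 : ℝ) ≤ 2 ^ k := one_le_pow₀ (by norm_num)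
    unfold uu
    push_cast
    rw [← he]
    rw [pow_succ] at h1
    constructor
    · rw [Real.exp_log (by (clear * -; positivity)), hX]
      (clear * - h1 h2; linarith)
    · apply Real.log_nonneg
      (clear * - h2 h3 h4; linarith)
  -- one zero
  have hone : ∀ ρ ∈ M.filter (fun ρ => (2 : ℝ) ^ ((1/2 + 2 * d) * k) < |ρ.im|),
      ‖Complex.exp (ρ * uu d k j) * KK lam ρ ^ p‖ ≤ 2 * X * (B * (2 : ℝ) ^ (-(16 * k : ℝ))) := by
    intro ρ hρ
    rw [Multiset.mem_filter] at hρ
    obtain ⟨hρM, him⟩ := hρ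
    obtain ⟨_, h1, h2, _⟩ := hM.mem ρ hρM
    rw [norm_mul, norm_pow]
    have e1 : ‖Complex.exp (ρ * uu d k j)‖ ≤ 2 * X := by
      rw [Complex.norm_exp]
      have : (ρ * (uu d k j : ℂ)).re = ρ.re * uu d k j := by simp
      rw [this]
      refine le_trans (Real.exp_le_exp.mpr ?_) huexp.1
      (clear * - hd0 hd huexp h2; nlinarith [huexp.2])
    have e2 : ‖KK lam ρ‖ ≤ |C1| * (16 * p) ^ 2 * (2 : ℝ) ^ (-(2 * d * k)) := by
      have g1 := hC1 lam hlam0 hlam1 ρ (by (clear * - hd0 hd h1; linarith)) (by (clear * - hd0 hd h2; linarith))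
      have g2 : (2 : ℝ) ^ (d * k) / (16 * p) ≤ lam * |ρ.im| := by
        have f1 : (2 : ℝ) ^ ((1 / 2 - d) * k - 1) ≤ (2 : ℝ) ^ e := by
          rw [← Real.rpow_natCast 2 e]
          apply Real.rpow_le_rpow_of_exponent_le (by norm_num)
          have := Nat.lt_floor_add_one ((k : ℝ) * (1 / 2 - d))
          rw [he]
          unfold ee
          (clear * - this; linarith)
        have f2 : (2 : ℝ) ^ (d * k) / (16 * p) =
            (2 : ℝ) ^ ((1 / 2 - d) * k - 1) / (8 * p * X) * (2 : ℝ) ^ ((1/2 + 2 * d) * k) := by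
          rw [hX, ← Real.rpow_natCast 2 k]
          have g3 : (2 : ℝ) ^ ((1 / 2 - d) * k - 1) * (2 : ℝ) ^ ((1/2 + 2 * d) * k) =
              (2 : ℝ) ^ (d * k) * (2 : ℝ) ^ (k : ℝ) / 2 := by
            rw [← Real.rpow_add (by norm_num), ← Real.rpow_add (by norm_num)]
            have : (2 : ℝ) ^ (d * k + k) / 2 = (2 : ℝ) ^ (d * k + k - 1) := by
              rw [Real.rpow_sub_one (by norm_num)]
            rw [this]
            congr 1
            ring
          have g4 : (0 : ℝ) < (2 : ℝ) ^ (k : ℝ) := by positivity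
          rw [div_mul_eq_mul_div, g3]
          field_simp
          ring
        rw [f2, hlamdef]
        (clear * - f1 hd0 him; gcongr)
      have g3 : 0 < (2 : ℝ) ^ (d * k) / (16 * p) := by positivity
      have g4 : ((2 : ℝ) ^ (d * k) / (16 * p)) ^ 2 ≤ 1 + (lam * ρ.im) ^ 2 := by
        have : (lam * ρ.im) ^ 2 = (lam * |ρ.im|) ^ 2 := by
          rw [mul_pow, mul_pow, sq_abs]
        rw [this]
        have := pow_le_pow_left₀ g3.le g2 2
        (clear * - hd0 hd this; linarith)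
      calc ‖KK lam ρ‖ ≤ C1 / (1 + (lam * ρ.im) ^ 2) := g1
        _ ≤ |C1| / (1 + (lam * ρ.im) ^ 2) := by
            apply div_le_div_of_nonneg_right (le_abs_self _)
            (clear * -; positivity)
        _ ≤ |C1| / ((2 : ℝ) ^ (d * k) / (16 * p)) ^ 2 := by
            apply div_le_div_of_nonneg_left (abs_nonneg _) (by positivity) g4
        _ = _ := by
            have g5 : (2 : ℝ) ^ (-(2 * d * k)) = (((2 : ℝ) ^ (d * k)) ^ 2)⁻¹ := by
              rw [← Real.rpow_natCast, ← Real.rpow_mul (by norm_num),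
                ← Real.rpow_neg (by norm_num)]
              congr 1
              push_cast
              ring
            rw [g5, div_pow, div_div_eq_mul_div]
            (clear * - hp1; field_simp)
    have e3 : ‖KK lam ρ‖ ^ p ≤ B * (2 : ℝ) ^ (-(16 * k : ℝ)) := by
      calc ‖KK lam ρ‖ ^ p ≤ (|C1| * (16 * p) ^ 2 * (2 : ℝ) ^ (-(2 * d * k))) ^ p :=
            pow_le_pow_left₀ (norm_nonneg _) e2 p
        _ = B * ((2 : ℝ) ^ (-(2 * d * k))) ^ p := by rw [mul_pow]
        _ ≤ B * (2 : ℝ) ^ (-(16 * k : ℝ)) := by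
            apply mul_le_mul_of_nonneg_left _ hB0
            rw [← Real.rpow_natCast, ← Real.rpow_mul (by norm_num)]
            apply Real.rpow_le_rpow_of_exponent_le (by norm_num)
            have : (16 : ℝ) * k ≤ 2 * (p * d) * k := by (clear * - hpd; nlinarith)
            (clear * - this; nlinarith)
    exact mul_le_mul e1 e3 (by (clear * -; positivity)) (by positivity)
  refine (multiset_sum_le' _ _ _ hone).trans ?_
  have hc : (Multiset.card (M.filter (fun ρ => (2 : ℝ) ^ ((1/2 + 2 * d) * k) < |ρ.im|)) : ℝ) ≤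
      C2 * 2 ^ (5 * k) * (5 * k + 2) := by
    have g1 := hcard (2 ^ (5 * k)) M Z (one_le_pow₀ (by norm_num)) hM
    have g2 : (Multiset.card (M.filter (fun ρ => (2 : ℝ) ^ ((1/2 + 2 * d) * k) < |ρ.im|)) : ℝ) ≤
        (Multiset.card M : ℝ) := by
      exact_mod_cast Multiset.card_le_card (Multiset.filter_le _ _)
    refine g2.trans (g1.trans ?_)
    apply mul_le_mul_of_nonneg_left _ (by positivity)
    have g3 : (2 : ℝ) ^ (5 * k) + 2 ≤ (2 : ℝ) ^ (5 * k + 1) := by
      have : (2 : ℝ) ≤ 2 ^ (5 * k) := by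
        calc (2 : ℝ) = 2 ^ 1 := by norm_num
          _ ≤ 2 ^ (5 * k) := pow_le_pow_right₀ (by norm_num) (by (clear * - d K j hk100; omega))
      rw [pow_succ]; (clear * - this; linarith)
    calc Real.log ((2 : ℝ) ^ (5 * k) + 2) ≤ Real.log ((2 : ℝ) ^ (5 * k + 1)) :=
          Real.log_le_log (by positivity) g3
      _ = ((5 * k + 1 : ℕ) : ℝ) * Real.log 2 := Real.log_pow _ _
      _ ≤ ((5 * k + 1 : ℕ) : ℝ) * 1 := by
          apply mul_le_mul_of_nonneg_left _ (by (clear * - hk100; positivity))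
          have := Real.log_two_lt_d9
          (clear * - hd0 hd this; linarith)
      _ ≤ 5 * k + 2 := by push_cast; (clear * - hd0 hd; linarith)
  have hX16 : (2 : ℝ) ^ (-(16 * k : ℝ)) = (1 / 2 : ℝ) ^ (16 * k) := by
    rw [Real.rpow_neg (by norm_num), one_div, inv_pow]
    congr 1
    rw [← Real.rpow_natCast]
    congr 1
    push_cast
    ring
  calc (Multiset.card (M.filter (fun ρ => (2 : ℝ) ^ ((1/2 + 2 * d) * k) < |ρ.im|)) : ℝ) *
        (2 * X * (B * (2 : ℝ) ^ (-(16 * k : ℝ)))) ≤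
        (C2 * 2 ^ (5 * k) * (5 * k + 2)) * (2 * X * (B * (2 : ℝ) ^ (-(16 * k : ℝ)))) := by
        apply mul_le_mul_of_nonneg_right hc
        (clear * - hd0; positivity)
    _ = 2 * (C2 * B) * ((5 * k + 2) * ((2 : ℝ) ^ (5 * k) * 2 ^ k * (1 / 2 : ℝ) ^ (16 * k))) := by
        rw [hX16, hX]; ring
    _ ≤ 2 * (C2 * B) * ((5 * k + 2) * (1 / 2 : ℝ) ^ k) := by
        apply mul_le_mul_of_nonneg_left _ (by (clear * - hC2 hd0; positivity))
        apply mul_le_mul_of_nonneg_left _ (by positivity)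
        have f1 : (2 : ℝ) ^ (5 * k) * 2 ^ k * (1 / 2 : ℝ) ^ (16 * k) = (1 / 2 : ℝ) ^ (10 * k) := by
          have : 16 * k = 6 * k + 10 * k := by ring
          rw [this, pow_add, ← mul_assoc, ← pow_add]
          have h7 : 5 * k + k = 6 * k := by ring
          rw [h7, ← mul_pow]
          norm_num
        rw [f1]
        apply pow_le_pow_of_le_one (by norm_num) (by norm_num)
        (clear * - d K j hk100; omega)
    _ ≤ 1 := hKK k hkK

end Pool.Agent.M20.Helper18.KSZ
end

/- Helper53.KN.Helper1.KL.E12 -/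
section
/-! Helper60/KG/E12.lean (helper60) adapted to the line 0.575 (box 57/100) by helper1 -/

set_option autoImplicit false
open Filter Topology

namespace Pool.Agent.M20.Helper1.KL

open Pool.Agent.M20.Helper10.QRH
open Pool.Agent.M20.Helper18.KSZ (geo_small multiset_sum_le')

/-- E12 -/
theorem highZerosG (hK : KFacts) (h4 : CardBox) : HighZerosG := by
  intro d η hdm hd hη
  obtain ⟨C1, hC1⟩ := hK.bound
  obtain ⟨C2, hC2, hcard⟩ := h4
  set p : ℕ := ⌈8 / η⌉₊ with hp
  have hpd : 8 ≤ (p : ℝ) * η := by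
    have := Nat.le_ceil (8 / η)
    rw [← hp, div_le_iff₀ hη] at this
    exact this
  have hp1 : 1 ≤ p := by
    rw [hp]
    exact Nat.ceil_pos.mpr (by positivity)
  have hp1' : (1 : ℝ) ≤ p := by exact_mod_cast hp1
  have hp0 : (0 : ℝ) < p := by (clear * - hp1'; linarith)
  set B : ℝ := (|C1| * (16 * p) ^ 2) ^ p with hB
  exact by
    have hB0 : 0 ≤ B := by rw [hB]; positivity
    obtain ⟨K, hKK⟩ := geo_small (2 * (C2 * B))
    refine ⟨p, hp1, max K 100, fun k hk M Z hM j hj => ?_⟩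
    exact by
      have hkK : K ≤ k := (le_max_left _ _).trans hk
      have hk100 : 100 ≤ k := (le_max_right _ _).trans hk
      have hk100' : (100 : ℝ) ≤ k := by exact_mod_cast hk100
      obtain ⟨he1, he2, he3⟩ := ee_largeG hdm hd hk100
      set e := ee d k with he
      set X : ℝ := (2 : ℝ) ^ k with hX
      have hX0 : 0 < X := by positivity
      have hlamdef : lamk p d k = (2 : ℝ) ^ e / (8 * p * X) := rfl
      exact by
        set lam := lamk p d k with hlam
        have hlam0 : 0 < lam := by rw [hlamdef]; positivity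
        have heX : (2 : ℝ) ^ e ≤ X := pow_le_pow_right₀ (by norm_num) he3
        have hlam1 : lam ≤ 1 := by
          rw [hlamdef, div_le_one (by positivity)]
          (clear * - hX0 heX hp1'; nlinarith)
        -- the point u
        have huexp : Real.exp (uu d k j) ≤ 2 * X ∧ 0 ≤ uu d k j := by
          have hyH : 2 ^ k + j * 2 ^ e + 2 ^ e ≤ 2 ^ (k + 1) := by
            have h1 : (j + 1) * 2 ^ e ≤ 2 ^ (k - e) * 2 ^ e := Nat.mul_le_mul_right _ hj
            rw [← pow_add, Nat.sub_add_cancel he3] at h1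
            rw [pow_succ]
            (clear * - h1; nlinarith)
          have h1 : ((2 ^ k + j * 2 ^ e + 2 ^ e : ℕ) : ℝ) ≤ ((2 ^ (k + 1) : ℕ) : ℝ) := by
            exact_mod_cast hyH
          push_cast at h1
          have h2 : (0 : ℝ) < 2 ^ e := by positivity
          have h3 : (0 : ℝ) ≤ (j : ℝ) * 2 ^ e := by positivity
          have h4 : (1 : ℝ) ≤ 2 ^ k := one_le_pow₀ (by norm_num)
          unfold uu
          push_cast
          rw [← he]
          rw [pow_succ] at h1
          constructor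
          · rw [Real.exp_log (by (clear * -; positivity)), hX]
            (clear * - h1 h2; linarith)
          · apply Real.log_nonneg
            (clear * - h2 h3 h4; linarith)
        -- one zero
        have hone : ∀ ρ ∈ M.filter (fun ρ => (2 : ℝ) ^ ((1/2 + d + η) * k) < |ρ.im|),
            ‖Complex.exp (ρ * uu d k j) * KK lam ρ ^ p‖ ≤ 2 * X * (B * (2 : ℝ) ^ (-(16 * k : ℝ))) := by
          intro ρ hρ
          rw [Multiset.mem_filter] at hρ
          obtain ⟨hρM, him⟩ := hρ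
          obtain ⟨_, h1, h2, _⟩ := hM.mem ρ hρM
          rw [norm_mul, norm_pow]
          have e1 : ‖Complex.exp (ρ * uu d k j)‖ ≤ 2 * X := by
            rw [Complex.norm_exp]
            have : (ρ * (uu d k j : ℂ)).re = ρ.re * uu d k j := by simp
            rw [this]
            refine le_trans (Real.exp_le_exp.mpr ?_) huexp.1
            (clear * - huexp h2; nlinarith [huexp.2])
          have e2 : ‖KK lam ρ‖ ≤ |C1| * (16 * p) ^ 2 * (2 : ℝ) ^ (-(2 * η * k)) := by
            have g1 := hC1 lam hlam0 hlam1 ρ (by (clear * - h1 h2; linarith)) (by (clear * - h1 h2; linarith))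
            have g2 : (2 : ℝ) ^ (η * k) / (16 * p) ≤ lam * |ρ.im| := by
              have f1 : (2 : ℝ) ^ ((1 / 2 - d) * k - 1) ≤ (2 : ℝ) ^ e := by
                rw [← Real.rpow_natCast 2 e]
                apply Real.rpow_le_rpow_of_exponent_le (by norm_num)
                have := Nat.lt_floor_add_one ((k : ℝ) * (1 / 2 - d))
                rw [he]
                unfold ee
                (clear * - this; linarith)
              have f2 : (2 : ℝ) ^ (η * k) / (16 * p) =
                  (2 : ℝ) ^ ((1 / 2 - d) * k - 1) / (8 * p * X) * (2 : ℝ) ^ ((1/2 + d + η) * k) := by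
                rw [hX, ← Real.rpow_natCast 2 k]
                have g3 : (2 : ℝ) ^ ((1 / 2 - d) * k - 1) * (2 : ℝ) ^ ((1/2 + d + η) * k) =
                    (2 : ℝ) ^ (η * k) * (2 : ℝ) ^ (k : ℝ) / 2 := by
                  rw [← Real.rpow_add (by norm_num), ← Real.rpow_add (by norm_num)]
                  have : (2 : ℝ) ^ (η * k + k) / 2 = (2 : ℝ) ^ (η * k + k - 1) := by
                    rw [Real.rpow_sub_one (by norm_num)]
                  rw [this]
                  congr 1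
                  ring
                have g4 : (0 : ℝ) < (2 : ℝ) ^ (k : ℝ) := by positivity
                rw [div_mul_eq_mul_div, g3]
                field_simp
                ring
              rw [f2, hlamdef]
              (clear * - f1 hη him; gcongr)
            have g3 : 0 < (2 : ℝ) ^ (η * k) / (16 * p) := by positivity
            have g4 : ((2 : ℝ) ^ (η * k) / (16 * p)) ^ 2 ≤ 1 + (lam * ρ.im) ^ 2 := by
              have : (lam * ρ.im) ^ 2 = (lam * |ρ.im|) ^ 2 := by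
                rw [mul_pow, mul_pow, sq_abs]
              rw [this]
              have := pow_le_pow_left₀ g3.le g2 2
              (clear * - h1 h2 this; linarith)
            calc ‖KK lam ρ‖ ≤ C1 / (1 + (lam * ρ.im) ^ 2) := g1
              _ ≤ |C1| / (1 + (lam * ρ.im) ^ 2) := by
                  apply div_le_div_of_nonneg_right (le_abs_self _)
                  (clear * -; positivity)
              _ ≤ |C1| / ((2 : ℝ) ^ (η * k) / (16 * p)) ^ 2 := by
                  apply div_le_div_of_nonneg_left (abs_nonneg _) (by positivity) g4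
              _ = _ := by
                  have g5 : (2 : ℝ) ^ (-(2 * η * k)) = (((2 : ℝ) ^ (η * k)) ^ 2)⁻¹ := by
                    rw [← Real.rpow_natCast, ← Real.rpow_mul (by norm_num),
                      ← Real.rpow_neg (by norm_num)]
                    congr 1
                    push_cast
                    ring
                  rw [g5, div_pow, div_div_eq_mul_div]
                  (clear * - hp1; field_simp)
          have e3 : ‖KK lam ρ‖ ^ p ≤ B * (2 : ℝ) ^ (-(16 * k : ℝ)) := by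
            calc ‖KK lam ρ‖ ^ p ≤ (|C1| * (16 * p) ^ 2 * (2 : ℝ) ^ (-(2 * η * k))) ^ p :=
                  pow_le_pow_left₀ (norm_nonneg _) e2 p
              _ = B * ((2 : ℝ) ^ (-(2 * η * k))) ^ p := by rw [mul_pow]
              _ ≤ B * (2 : ℝ) ^ (-(16 * k : ℝ)) := by
                  apply mul_le_mul_of_nonneg_left _ hB0
                  rw [← Real.rpow_natCast, ← Real.rpow_mul (by norm_num)]
                  apply Real.rpow_le_rpow_of_exponent_le (by norm_num)
                  have : (16 : ℝ) * k ≤ 2 * (p * η) * k := by (clear * - hpd; nlinarith)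
                  (clear * - this; nlinarith)
          exact mul_le_mul e1 e3 (by positivity) (by positivity)
        refine (multiset_sum_le' _ _ _ hone).trans ?_
        have hc : (Multiset.card (M.filter (fun ρ => (2 : ℝ) ^ ((1/2 + d + η) * k) < |ρ.im|)) : ℝ) ≤
            C2 * 2 ^ (5 * k) * (5 * k + 2) := by
          have g1 := hcard (2 ^ (5 * k)) M Z (one_le_pow₀ (by norm_num)) hM
          have g2 : (Multiset.card (M.filter (fun ρ => (2 : ℝ) ^ ((1/2 + d + η) * k) < |ρ.im|)) : ℝ) ≤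
              (Multiset.card M : ℝ) := by
            exact_mod_cast Multiset.card_le_card (Multiset.filter_le _ _)
          refine g2.trans (g1.trans ?_)
          apply mul_le_mul_of_nonneg_left _ (by positivity)
          have g3 : (2 : ℝ) ^ (5 * k) + 2 ≤ (2 : ℝ) ^ (5 * k + 1) := by
            have : (2 : ℝ) ≤ 2 ^ (5 * k) := by
              calc (2 : ℝ) = 2 ^ 1 := by norm_num
                _ ≤ 2 ^ (5 * k) := pow_le_pow_right₀ (by norm_num) (by omega)
            rw [pow_succ]; (clear * - this; linarith)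
          calc Real.log ((2 : ℝ) ^ (5 * k) + 2) ≤ Real.log ((2 : ℝ) ^ (5 * k + 1)) :=
                Real.log_le_log (by positivity) g3
            _ = ((5 * k + 1 : ℕ) : ℝ) * Real.log 2 := Real.log_pow _ _
            _ ≤ ((5 * k + 1 : ℕ) : ℝ) * 1 := by
                apply mul_le_mul_of_nonneg_left _ (by positivity)
                have := Real.log_two_lt_d9
                (clear * - this; linarith)
            _ ≤ 5 * k + 2 := by push_cast; (clear * -; linarith)
        exact by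
          have hX16 : (2 : ℝ) ^ (-(16 * k : ℝ)) = (1 / 2 : ℝ) ^ (16 * k) := by
            rw [Real.rpow_neg (by norm_num), one_div, inv_pow]
            congr 1
            rw [← Real.rpow_natCast]
            congr 1
            push_cast
            ring
          calc (Multiset.card (M.filter (fun ρ => (2 : ℝ) ^ ((1/2 + d + η) * k) < |ρ.im|)) : ℝ) *
                (2 * X * (B * (2 : ℝ) ^ (-(16 * k : ℝ)))) ≤
                (C2 * 2 ^ (5 * k) * (5 * k + 2)) * (2 * X * (B * (2 : ℝ) ^ (-(16 * k : ℝ)))) := by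
                apply mul_le_mul_of_nonneg_right hc
                (clear * - hη; positivity)
            _ = 2 * (C2 * B) * ((5 * k + 2) * ((2 : ℝ) ^ (5 * k) * 2 ^ k * (1 / 2 : ℝ) ^ (16 * k))) := by
                rw [hX16, hX]; ring
            _ ≤ 2 * (C2 * B) * ((5 * k + 2) * (1 / 2 : ℝ) ^ k) := by
                apply mul_le_mul_of_nonneg_left _ (by (clear * - hC2 hη; positivity))
                apply mul_le_mul_of_nonneg_left _ (by positivity)
                have f1 : (2 : ℝ) ^ (5 * k) * 2 ^ k * (1 / 2 : ℝ) ^ (16 * k) = (1 / 2 : ℝ) ^ (10 * k) := by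
                  have : 16 * k = 6 * k + 10 * k := by ring
                  rw [this, pow_add, ← mul_assoc, ← pow_add]
                  have h7 : 5 * k + k = 6 * k := by ring
                  rw [h7, ← mul_pow]
                  norm_num
                rw [f1]
                apply pow_le_pow_of_le_one (by norm_num) (by norm_num)
                omega
            _ ≤ 1 := hKK k hkK

end Pool.Agent.M20.Helper1.KL
end

/- Helper53.KN.Helper1.KL.Shift -/
section
/-! Helper8/KSZ/Shift.lean adapted to the line 0.575 (box 57/100) by helper1 -/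

set_option autoImplicit false
open Filter Topology MeasureTheory

namespace Pool.Agent.M20.Helper1.KL

open Pool.Agent.M20.Helper8.KSZ (tail_Ioi tail_Iic tail_bound line_re line_im)
open Pool.Agent.M20.Helper10.QRH Pool.Agent.M20.Helper69.QRH 

theorem shift (hK : KFacts) (hG : GBound) (h6 : LineTwo) : Shift := by
  obtain ⟨CK0, hCK0⟩ := hK.bound
  obtain ⟨CG, hCG0, hCG⟩ := hG
  set CK : ℝ := |CK0| + 1 with hCKd
  have hCK1 : 0 < CK := by positivity
  refine ⟨CK * CG + 1, by positivity, ?_⟩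
  intro T M Z hT hB lam u hl hl1 hu
  obtain ⟨hG1, hG2⟩ := hCG T M Z hT hB
  obtain ⟨hi, he⟩ := h6 T M Z hT hB lam u hl hl1 hu
  have hT0 : 0 < T := by linarith
  set L : ℝ := Real.log (T + 2) with hL
  have hL0 : 0 ≤ L := Real.log_nonneg (by (clear * - hT; linarith))
  set J : ℂ → ℂ := fun s => KK lam s * (-logDeriv Z s) * Complex.exp (s * u) with hJ
  have hZd : ∀ s : ℂ, 57/100 < s.re → |s.im| < T + 2 → DifferentiableAt ℂ (logDeriv Z) s := by
    intro s hs1 hs2
    have h1 : DifferentiableAt ℂ (deriv Z) s :=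
      (hB.diff.deriv s)
    exact h1.div (hB.diff s) (hB.ne s hs1 hs2)
  have hJd : ∀ s : ℂ, 57/100 < s.re → |s.im| < T + 2 → DifferentiableAt ℂ J s := by
    intro s hs1 hs2
    refine ((hK.diff lam hl s).mul (hZd s hs1 hs2).neg).mul ?_
    fun_prop
  -- bound
  set B : ℝ := CK * CG * Real.exp (2 * u) * L ^ 2 / lam ^ 2 with hBd
  have hB0 : 0 ≤ B := by (clear * - hCG0 hl; positivity)
  have hJb : ∀ s : ℂ, 0.575 ≤ s.re → s.re ≤ 2 → s.im ≠ 0 → ‖logDeriv Z s‖ ≤ CG * L ^ 2 →
      ‖J s‖ ≤ B / s.im ^ 2 := by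
    intro s hs1 hs2 hs3 hs4
    have b1 := hCK0 lam hl hl1 s (by (clear * - hs1; linarith)) hs2
    have hp : (0 : ℝ) < (lam * s.im) ^ 2 := by (clear * - hl hs3; positivity)
    have b1' : ‖KK lam s‖ ≤ CK / (lam * s.im) ^ 2 := by
      refine b1.trans ?_
      refine (div_le_div_of_nonneg_right ((le_abs_self CK0).trans (by linarith : |CK0| ≤ CK))
        (by positivity)).trans ?_
      exact div_le_div_of_nonneg_left hCK1.le hp (by linarith)
    have b3 : ‖Complex.exp (s * u)‖ ≤ Real.exp (2 * u) := by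
      rw [Complex.norm_exp]
      apply Real.exp_le_exp.2
      simp only [Complex.mul_re, Complex.ofReal_re, Complex.ofReal_im, mul_zero, sub_zero]
      (clear * - hs2 hu; nlinarith)
    calc ‖J s‖ = ‖KK lam s‖ * ‖logDeriv Z s‖ * ‖Complex.exp (s * u)‖ := by
          simp only [hJ, norm_mul, norm_neg]
      _ ≤ (CK / (lam * s.im) ^ 2) * (CG * L ^ 2) * Real.exp (2 * u) := by (clear * - b1' hs4 hl hs3 b3 hCG0; gcongr)
      _ = B / s.im ^ 2 := by
          rw [hBd]
          field_simp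
  -- tail
  have htail := tail_bound hi hT0 (C := B) (by
    intro t ht
    have ht0 : t ≠ 0 := by
      rintro rfl
      rw [abs_zero] at ht
      linarith
    have := hJb ((2 : ℝ) + t * Complex.I) (by rw [line_re]; norm_num) (by rw [line_re])
      (by rwa [line_im]) (by
        have := hG2 t
        push_cast
        exact this)
    rwa [line_im] at this)
  -- rectangle
  have hrect : (∫ x : ℝ in (0.575 : ℝ)..2, J (x + ((-T : ℝ) : ℂ) * Complex.I)) -
        (∫ x : ℝ in (0.575 : ℝ)..2, J (x + (T : ℂ) * Complex.I)) +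
        Complex.I * (∫ y : ℝ in (-T)..T, J ((2 : ℝ) + y * Complex.I)) -
        Complex.I * (∫ y : ℝ in (-T)..T, J ((0.575 : ℝ) + y * Complex.I)) = 0 := by
    have := Complex.integral_boundary_rect_eq_zero_of_differentiableOn J
        ((0.575 : ℝ) + ((-T : ℝ) : ℂ) * Complex.I) ((2 : ℝ) + (T : ℂ) * Complex.I) (by
      intro s hs
      rw [Complex.mem_reProdIm] at hs
      simp only [line_re, line_im] at hs
      obtain ⟨h2, h3⟩ := hs
      rw [Set.uIcc_of_le (by norm_num)] at h2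
      rw [Set.uIcc_of_le (by (clear * - hT; linarith))] at h3
      apply (hJd s (by (clear * - h2; linarith [h2.1, show (57 / 100 : ℝ) < 0.575 by norm_num])) ?_).differentiableWithinAt
      rw [abs_lt]
      constructor <;> linarith [h3.1, h3.2])
    simpa only [line_re, line_im, smul_eq_mul] using this
  have hhor : ∀ τ : ℝ, |τ| = T → ‖∫ x : ℝ in (0.575 : ℝ)..2, J (x + (τ : ℂ) * Complex.I)‖ ≤
      2 * (B / T) := by
    intro τ hτ
    have hτ0 : τ ≠ 0 := by
      rintro rfl
      rw [abs_zero] at hτ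
      (clear * - hT hτ; linarith)
    have h1 := intervalIntegral.norm_integral_le_of_norm_le_const
      (a := (0.575 : ℝ)) (b := 2) (C := B / T ^ 2)
      (f := fun x : ℝ => J (x + (τ : ℂ) * Complex.I)) (by
        intro x hx
        rw [Set.uIoc_of_le (by norm_num)] at hx
        have := hJb (x + (τ : ℂ) * Complex.I) (by rw [line_re]; exact hx.1.le)
          (by rw [line_re]; exact hx.2) (by rwa [line_im]) (hG1 _ (by rw [line_re]; exact hx.1.le)
          (by rw [line_re]; exact hx.2) (by rw [line_im, hτ]))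
        rw [line_im, ← sq_abs, hτ] at this
        exact this)
    refine h1.trans ?_
    have h2 : |(2 : ℝ) - 0.575| ≤ 2 := by norm_num
    have h3 : B / T ^ 2 ≤ B / T := by
      apply div_le_div_of_nonneg_left hB0 hT0
      (clear * - hT; nlinarith)
    calc B / T ^ 2 * |(2 : ℝ) - 0.575| ≤ (B / T) * 2 := by
          apply mul_le_mul h3 h2 (abs_nonneg _) (by (clear * - hCG0 hl hT; positivity))
      _ = 2 * (B / T) := by ring
  have h1 := hhor (-T) (by rw [abs_neg, abs_of_pos hT0])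
  have h2 := hhor T (abs_of_pos hT0)
  -- difference of the vertical sides
  have hver : ‖(∫ y : ℝ in (-T)..T, J ((2 : ℝ) + y * Complex.I)) -
      (∫ y : ℝ in (-T)..T, J ((0.575 : ℝ) + y * Complex.I))‖ ≤ 4 * (B / T) := by
    have h3 : Complex.I * ((∫ y : ℝ in (-T)..T, J ((2 : ℝ) + y * Complex.I)) -
      (∫ y : ℝ in (-T)..T, J ((0.575 : ℝ) + y * Complex.I))) =
      (∫ x : ℝ in (0.575 : ℝ)..2, J (x + (T : ℂ) * Complex.I)) -
      (∫ x : ℝ in (0.575 : ℝ)..2, J (x + ((-T : ℝ) : ℂ) * Complex.I)) := by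
      linear_combination hrect
    have h4 : ‖Complex.I * ((∫ y : ℝ in (-T)..T, J ((2 : ℝ) + y * Complex.I)) -
      (∫ y : ℝ in (-T)..T, J ((0.575 : ℝ) + y * Complex.I)))‖ ≤ 4 * (B / T) := by
      rw [h3]
      refine (norm_sub_le _ _).trans ?_
      (clear * - h1 h2; linarith)
    rwa [norm_mul, Complex.norm_I, one_mul] at h4
  have hline : line 1 lam T Z u = (1 / (2 * Real.pi)) *
      ∫ y : ℝ in (-T)..T, J ((0.575 : ℝ) + y * Complex.I) := by
    unfold line
    simp only [hJ, pow_one]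
  rw [he, hline, ← mul_sub]
  have h5 : ‖(∫ t : ℝ, KK lam ((2 : ℝ) + t * Complex.I) *
      (-logDeriv Z ((2 : ℝ) + t * Complex.I)) * Complex.exp (((2 : ℝ) + t * Complex.I) * u)) -
      ∫ y : ℝ in (-T)..T, J ((0.575 : ℝ) + y * Complex.I)‖ ≤ 6 * (B / T) := by
    have h6 : (∫ t : ℝ, KK lam ((2 : ℝ) + t * Complex.I) *
      (-logDeriv Z ((2 : ℝ) + t * Complex.I)) * Complex.exp (((2 : ℝ) + t * Complex.I) * u)) -
      (∫ y : ℝ in (-T)..T, J ((0.575 : ℝ) + y * Complex.I)) =
      ((∫ t : ℝ, KK lam ((2 : ℝ) + t * Complex.I) *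
      (-logDeriv Z ((2 : ℝ) + t * Complex.I)) * Complex.exp (((2 : ℝ) + t * Complex.I) * u)) -
      ∫ y : ℝ in (-T)..T, J ((2 : ℝ) + y * Complex.I)) +
      ((∫ y : ℝ in (-T)..T, J ((2 : ℝ) + y * Complex.I)) -
      (∫ y : ℝ in (-T)..T, J ((0.575 : ℝ) + y * Complex.I))) := by ring
    rw [h6]
    refine (norm_add_le _ _).trans ?_
    (clear * - htail hver; linarith)
  rw [norm_mul]
  have h7 : ‖(1 / (2 * Real.pi) : ℂ)‖ ≤ 1 / 6 := by
    rw [norm_div, norm_one, norm_mul, Complex.norm_real, Real.norm_of_nonneg Real.pi_pos.le]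
    simp only [Complex.norm_ofNat]
    apply div_le_div_of_nonneg_left (by norm_num) (by norm_num)
    (clear * -; linarith [Real.pi_gt_three])
  calc ‖(1 / (2 * Real.pi) : ℂ)‖ * _ ≤ 1 / 6 * (6 * (B / T)) := by
        apply mul_le_mul h7 h5 (norm_nonneg _) (by norm_num)
    _ = CK * CG * Real.exp (2 * u) * L ^ 2 / (lam ^ 2 * T) := by
        rw [hBd]
        (clear * - hT hl hCG0 hCK1; field_simp)
    _ ≤ (CK * CG + 1) * Real.exp (2 * u) * L ^ 2 / (lam ^ 2 * T) := by
        gcongr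
        (clear * -; linarith)

end Pool.Agent.M20.Helper1.KL
end

/- Helper53.KN.Helper60.KG.E10 -/
section
/-!
# KG-1: the explicit formula for cells of general length

The cell parameter `d` may be negative: cells have length `2^⌊k (1/2 - d)⌋`.  Adapted from the files of helper46, helper18,
helper8.
-/

set_option autoImplicit false
open Filter Topology Finset
open scoped ArithmeticFunction.vonMangoldt

namespace Pool.Agent.M20.Helper60.KG

open Pool.Agent.M20.Helper10.QRH Pool.Agent.M20.Helper46.KSZ Pool.Agent.M20.Helper30.QRH Pool.Agent.M20.Helper18.KSZ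

/-- a cell with few primes makes the prime side small -/
def PrimeSideG : Prop := ∀ (p : ℕ) (d : ℝ), 1 ≤ p → -(1 / 2) ≤ d → d ≤ 1/100 → ∃ K : ℕ, ∀ k : ℕ, K ≤ k →
  ∀ j < 2 ^ (k - ee d k), Few (1 / (200 * p)) d k j →
    (∑' n : ℕ, ArithmeticFunction.vonMangoldt n * ker (lamk p d k) (p - 1) (uu d k j - Real.log n)) ≤
      1/8 * (2 : ℝ) ^ k

lemma ee_largeG {d : ℝ} (hd0 : -(1 / 2) ≤ d) (hd : d ≤ 1 / 100) {k : ℕ} (hk : 20 ≤ k) :
    (2 : ℝ) ^ ((2 / 5 : ℝ) * k) ≤ (2 : ℝ) ^ ee d k ∧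
    (2 : ℝ) ^ ((2 / 5 : ℝ) * k) ≤ (((2 : ℕ) ^ (k / 2) : ℕ) : ℝ) ∧ ee d k ≤ k := by
  have hk' : (20 : ℝ) ≤ k := by exact_mod_cast hk
  refine ⟨?_, ?_, ?_⟩
  · rw [← Real.rpow_natCast 2 (ee d k)]
    apply Real.rpow_le_rpow_of_exponent_le (by norm_num)
    have h1 := Nat.lt_floor_add_one ((k : ℝ) * (1 / 2 - d))
    unfold ee
    (clear * - hk' h1 hd; nlinarith)
  · push_cast
    rw [← Real.rpow_natCast 2 (k / 2)]
    apply Real.rpow_le_rpow_of_exponent_le (by norm_num)
    have h1 : k ≤ 2 * (k / 2) + 1 := by omega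
    have h2 : (k : ℝ) ≤ 2 * ((k / 2 : ℕ) : ℝ) + 1 := by exact_mod_cast h1
    (clear * - hk' h2; linarith)
  · unfold ee
    apply Nat.floor_le_of_le
    (clear * - hd0; nlinarith)

/-- E10 -/
theorem primeSideG (h8 : KerFacts) : PrimeSideG := by
  intro p d hp hd0 hd
  obtain ⟨K, hK⟩ := pow_large (2000 * p)
  refine ⟨max K 100, fun k hk j hj hfew => ?_⟩
  have hkK : K ≤ k := (le_max_left _ _).trans hk
  have hk100 : 100 ≤ k := (le_max_right _ _).trans hk
  have hk100' : (100 : ℝ) ≤ k := by exact_mod_cast hk100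
  obtain ⟨he1, he2, he3⟩ := ee_largeG hd0 hd (by omega : 20 ≤ k)
  have hbig := hK k hkK
  set e := ee d k with he
  have hp' : (1 : ℝ) ≤ p := by exact_mod_cast hp
  have hp0 : (0 : ℝ) < p := by (clear * - hp'; linarith)
  set X : ℝ := (2 : ℝ) ^ k with hX
  have hX0 : 0 < X := by positivity
  set y : ℕ := 2 ^ k + j * 2 ^ e with hy
  have hyH : y + 2 ^ e ≤ 2 ^ (k + 1) := by
    have h1 : (j + 1) * 2 ^ e ≤ 2 ^ (k - e) * 2 ^ e := Nat.mul_le_mul_right _ hj
    rw [← pow_add, Nat.sub_add_cancel he3] at h1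
    rw [hy, pow_succ]
    (clear * - h1; nlinarith)
  have hlamdef : lamk p d k = (2 : ℝ) ^ e / (8 * p * X) := rfl
  have hlam0 : 0 < lamk p d k := by rw [hlamdef]; positivity
  have hu : uu d k j = Real.log ((y : ℝ) + ((2 ^ e : ℕ) : ℝ) / 2) := by
    unfold uu
    rw [hy, he]
    push_cast
    ring_nf
  have hcell : cell d k j = Ico y (y + 2 ^ e) := by
    unfold cell
    rw [hy]
    congr 1
    ring
  have h1 := ker_sum_le (X := X) h8 hp y (2 ^ e) hlam0 hX0 (by
      rw [hlamdef]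
      push_cast
      have : (p : ℝ) * (2 ^ e / (8 * p * X)) * (4 * X) = 2 ^ e / 2 := by
        field_simp; ring
      rw [this]
      have : (0 : ℝ) < 2 ^ e := by positivity
      (clear * - this; linarith))
    (by rw [hy, hX]; push_cast; have : (0 : ℝ) ≤ (j : ℝ) * 2 ^ e := by positivity
        (clear * - this; linarith))
    (by rw [hX]; have : ((y + 2 ^ e : ℕ) : ℝ) ≤ ((2 ^ (k + 1) : ℕ) : ℝ) := by exact_mod_cast hyH
        push_cast at this ⊢
        rw [pow_succ] at this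
        (clear * - this; linarith))
  rw [hu]
  refine h1.trans ?_
  have hD0 : 0 < 2 ^ (k / 2) := by positivity
  have hDD : 2 ^ (k / 2) * 2 ^ (k / 2) ≤ y := by
    rw [← pow_add]
    have : 2 ^ (k / 2 + k / 2) ≤ 2 ^ k := Nat.pow_le_pow_right (by norm_num) (by omega)
    rw [hy]; omega
  have hfew' : ((((Ico y (y + 2 ^ e)).filter Nat.Prime).card : ℕ) : ℝ) ≤
      1 / (200 * p) * (2 : ℝ) ^ e / k := by
    unfold Few at hfew
    rw [hcell] at hfew
    exact hfew.le
  have h2 := cell_sum k y (2 ^ e) (2 ^ (k / 2)) hD0 hDD hyH _ hfew'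
  have h3 : 1 / lamk p d k * ∑ n ∈ Ico y (y + 2 ^ e), Λ n ≤
      1 / lamk p d k * (((k + 1) * Real.log 2) * (1 / (200 * p) * (2 : ℝ) ^ e / k +
        k * (((2 ^ e : ℕ) : ℝ) / ((2 ^ (k / 2) : ℕ) : ℝ) + 1))) :=
    mul_le_mul_of_nonneg_left h2 (by positivity)
  refine h3.trans ?_
  rw [hlamdef]
  have h4 := num_bound' (K := k) (H := (2 : ℝ) ^ e) (D := ((2 ^ (k / 2) : ℕ) : ℝ)) (X := X)
    (L := Real.log 2) (p := p) hk100' hp' (hbig.trans he1) (hbig.trans he2) hX0
    (Real.log_nonneg (by norm_num)) (by have := Real.log_two_lt_d9; (clear * - this; linarith))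
  push_cast at h4 ⊢
  exact h4

end Pool.Agent.M20.Helper60.KG
end
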