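import Mathlib
import Pool.Agent.Helper53.KO.G02
import Pool.Agent.Helper53.KO.G03
import Pool.Agent.Helper53.KO.G04
import Pool.Agent.Helper53.KO.G06
import Pool.Agent.Helper53.KO.G08
import Pool.Agent.Helper53.KO.G10

set_option linter.all false

/- Helper53.KN.Helper26.KC.StFM -/
section
/-!
# Project KS: fourth moment of zeta on the critical line (statements of the modules FM-1 ... FM-6)

Proof on paper. `s = 1/2 + it`, `N = M = T^(1/2)`, `K(w) = e^(w^2)/w` (Mellin transform of `Phi`), all `t` at once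
with the weight `e^(-(t/T)^2)`.

* `(1/2πi) ∫_{Re w = 2} ζ(s+w) N^w K(w) dw = S1 N t = ∑ n^(-s) Phi(log N - log n)`.
* shift to `Re w = -3/4`: residue `ζ(s)` at `w = 0`, residue `N^(1-s) e^((1-s)^2)/(1-s)` at `w = 1-s`
  (at most `4 N^(1/2) e^(-t^2)`).
* functional equation `ζ(s+w) = 2 (2π)^(s+w-1) FF(1-s-w) ζ(1-s-w)`, `FF(s) = Γ(s) cos(πs/2)`, and
  `ζ(5/4-iu) = ∑_{m ≤ M} + ∑_{m > M}`; the first part is shifted to `Re w = -ε` (no pole in between).
* `|FF(σ+it)| ≤ C (1+|t|)^(σ-1/2)` (FM-1), mean value theorem for the squares of the polynomials (FM-2, FM-3).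
-/

set_option autoImplicit false
open MeasureTheory Filter Topology Finset

namespace Pool.Agent.M20.Helper26.KC

open Pool.Agent.M20.Helper1.KSZ (FF)

/-- FM-1. `Pool.Agent.M20.Helper1.KSZ.norm_FF_line` is the case `σ = 5/7` (Phragmén–Lindelöf on `[1/2,1]`); here use the
strip `[1/2, 3/2]`, `|FF(3/2+iy)| = |1/2+iy| |FF(1/2+iy)|` (`Γ(s+1) = sΓ(s)`, `|sin(π/4+iy')| = |cos(π/4+iy')|`),
and `G(s) = FF(s) (1+|t|)^(-(s-1/2)) / (s - it + 1)`. -/
def FMff : Prop := ∃ C : ℝ, 0 < C ∧ ∀ σ t : ℝ, 1 / 2 ≤ σ → σ ≤ 3 / 2 →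
  ‖FF ((σ : ℂ) + t * Complex.I)‖ ≤ C * (1 + |t|) ^ (σ - 1 / 2)

/-- FM-2 (from `Pool.Agent.M20.Helper60.KS.MeanValue` with `y_n = log n`: `|log n - log k| ≤ 1/T` holds for at most
`1 + 8 n/T` numbers `k` with `k ≤ 3n`, and `|c_n c_k| ≤ (|c_n|^2+|c_k|^2)/2`) -/
def FMmv2 : Prop := ∃ C : ℝ, 0 < C ∧ ∀ (L : ℕ) (c : ℕ → ℂ) (T : ℝ), 1 ≤ T →
  ∫ t : ℝ, Real.exp (-(t / T) ^ 2) * ‖∑ n ∈ Icc 1 L, c n * (n : ℂ) ^ ((t : ℂ) * Complex.I)‖ ^ 2 ≤
    C * ∑ n ∈ Icc 1 L, (T + n) * ‖c n‖ ^ 2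

/-- FM-3a (square of the polynomial, divisor bound) -/
def FMmv4a : Prop := ∀ ε : ℝ, 0 < ε → ∃ C : ℝ, 0 < C ∧ ∀ (L : ℕ) (a : ℕ → ℂ) (T : ℝ), 1 ≤ T → 1 ≤ L →
  (∀ n : ℕ, 1 ≤ n → ‖a n‖ ≤ (n : ℝ) ^ (-(1 / 2) : ℝ)) →
  ∫ t : ℝ, Real.exp (-(t / T) ^ 2) * ‖∑ n ∈ Icc 1 L, a n * (n : ℂ) ^ ((t : ℂ) * Complex.I)‖ ^ 4 ≤
    C * (T * L) ^ ε * (T + (L : ℝ) ^ 2)

/-- FM-3b -/
def FMmv4b : Prop := ∀ ε : ℝ, 0 < ε → ∃ C : ℝ, 0 < C ∧ ∀ (M L : ℕ) (a : ℕ → ℂ) (T : ℝ), 1 ≤ T → 1 ≤ M → M ≤ L →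
  (∀ n : ℕ, 1 ≤ n → ‖a n‖ ≤ (n : ℝ) ^ (-(5 / 4) : ℝ)) →
  ∫ t : ℝ, Real.exp (-(t / T) ^ 2) * ‖∑ n ∈ Ioc M L, a n * (n : ℂ) ^ ((t : ℂ) * Complex.I)‖ ^ 4 ≤
    C * (T * L) ^ ε * (T / (M : ℝ) ^ 3 + 1 / (M : ℝ))

/-- the smoothed Dirichlet polynomial (`In (1/2 + it) (log N) 1` of D3) -/
noncomputable def S1 (N t : ℝ) : ℂ := ∑' m : ℕ, ((m : ℂ) + 1) ^ (-(1 / 2 + (t : ℂ) * Complex.I)) *
  (Phi (Real.log N - Real.log ((m : ℝ) + 1)) : ℂ)

/-- FM-4 (helper26) -/
def FMafe : Prop := ∀ ε : ℝ, 0 < ε → ε ≤ 1 / 4 → ∃ C : ℝ, 0 < C ∧ ∀ (N : ℝ) (M : ℕ) (t : ℝ), 1 ≤ N → 1 ≤ M →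
  ‖riemannZeta (1 / 2 + (t : ℂ) * Complex.I)‖ ≤ ‖S1 N t‖ + C * Real.sqrt N * Real.exp (-t ^ 2) +
    C * N ^ (-ε) * (∫ v : ℝ, (1 + |t + v|) ^ ε * ‖∑ m ∈ Icc 1 M, (m : ℂ) ^ ((-(1 / 2 + ε : ℝ) : ℂ) +
      ((t + v : ℝ) : ℂ) * Complex.I)‖ * Real.exp (-v ^ 2 / 2)) +
    C * N ^ (-(3 / 4) : ℝ) * (∫ v : ℝ, (1 + |t + v|) ^ (3 / 4 : ℝ) *
      ‖∑' m : ℕ, ((m : ℂ) + M + 1) ^ ((-(5 / 4) : ℂ) + ((t + v : ℝ) : ℂ) * Complex.I)‖ * Real.exp (-v ^ 2 / 2))

/-- FM-5: the fourth moment, from the previous ones (`N = √T`, `M = ⌈√T⌉`) -/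
def FourthMoment : Prop := ∀ ε : ℝ, 0 < ε → ∃ C : ℝ, 0 < C ∧ ∀ T : ℝ, 1 ≤ T →
  ∫ t : ℝ, Real.exp (-(t / T) ^ 2) * ‖riemannZeta (1 / 2 + (t : ℂ) * Complex.I)‖ ^ 4 ≤ C * T ^ (1 + ε)

end Pool.Agent.M20.Helper26.KC
end

/- Helper53.KN.Helper7.KSZ.N8 -/
section
/-!
Project KSZ, N8: the inner sum of the kernel for small ordinates.
-/

set_option autoImplicit false

open Finset MeasureTheory

namespace Pool.Agent.M20.Helper7.KSZ

open Pool.Agent.M20.Helper18.KSZ

/-! ### the trapezoid -/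

theorem trap_decomp (v : ℝ) : max 0 (min 1 (min (40 * v - 1) (5 - 20 * v))) =
    40 * max 0 (v - 1 / 40) - 40 * max 0 (v - 1 / 20) - 20 * max 0 (v - 1 / 5)
      + 20 * max 0 (v - 1 / 4) := by
  rcases le_total v (1 / 40) with h1 | h1
  · rw [max_eq_left (a := (0:ℝ)) (b := v - 1 / 40) (by (clear * - h1; linarith)),
      max_eq_left (a := (0:ℝ)) (b := v - 1 / 20) (by (clear * - h1; linarith)),
      max_eq_left (a := (0:ℝ)) (b := v - 1 / 5) (by linarith),
      max_eq_left (a := (0:ℝ)) (b := v - 1 / 4) (by linarith),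
      max_eq_left]
    · ring
    · exact (min_le_right _ _).trans ((min_le_left _ _).trans (by (clear * - h1; linarith)))
  rw [max_eq_right (a := (0:ℝ)) (b := v - 1 / 40) (by (clear * - h1; linarith))]
  rcases le_total v (1 / 20) with h2 | h2
  · rw [max_eq_left (a := (0:ℝ)) (b := v - 1 / 20) (by (clear * - h2; linarith)),
      max_eq_left (a := (0:ℝ)) (b := v - 1 / 5) (by linarith),
      max_eq_left (a := (0:ℝ)) (b := v - 1 / 4) (by linarith),
      min_eq_left (a := 40 * v - 1) (by (clear * - h2; linarith)), min_eq_right (by (clear * - h2; linarith)),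
      max_eq_right (by (clear * - h1; linarith))]
    ring
  rw [max_eq_right (a := (0:ℝ)) (b := v - 1 / 20) (by (clear * - h2; linarith))]
  rcases le_total v (1 / 5) with h3 | h3
  · rw [max_eq_left (a := (0:ℝ)) (b := v - 1 / 5) (by (clear * - h3; linarith)),
      max_eq_left (a := (0:ℝ)) (b := v - 1 / 4) (by (clear * - h3; linarith)),
      min_eq_left (a := (1:ℝ)), max_eq_right (by norm_num)]
    · ring
    · exact le_min (by (clear * - h2; linarith)) (by (clear * - h3; linarith))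
  rw [max_eq_right (a := (0:ℝ)) (b := v - 1 / 5) (by (clear * - h3; linarith))]
  rcases le_total v (1 / 4) with h4 | h4
  · rw [max_eq_left (a := (0:ℝ)) (b := v - 1 / 4) (by (clear * - h4; linarith)),
      min_eq_right (a := 40 * v - 1) (by (clear * - h3; linarith)), min_eq_right (by (clear * - h3; linarith)),
      max_eq_right (by (clear * - h4; linarith))]
    ring
  rw [max_eq_right (a := (0:ℝ)) (b := v - 1 / 4) (by (clear * - h4; linarith)), max_eq_left]
  · ring
  · exact (min_le_right _ _).trans ((min_le_right _ _).trans (by (clear * - h4; linarith)))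

theorem trap_nonneg (X y : ℝ) : 0 ≤ trap X y := le_max_left _ _

theorem trap_le_one (X y : ℝ) : trap X y ≤ 1 :=
  max_le (by norm_num) (min_le_left _ _)

theorem trap_zero {X y : ℝ} (h : Real.log y / Real.log X ≤ 1 / 40) : trap X y = 0 := by
  unfold trap
  rw [max_eq_left]
  exact (min_le_right _ _).trans ((min_le_left _ _).trans (by (clear * - h; linarith)))

theorem trap_zero' {X y : ℝ} (h : 1 / 4 ≤ Real.log y / Real.log X) : trap X y = 0 := by
  unfold trap
  rw [max_eq_left]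
  exact (min_le_right _ _).trans ((min_le_right _ _).trans (by (clear * - h; linarith)))

theorem trap_lip {X a b : ℝ} (hL : 0 < Real.log X) :
    |trap X a - trap X b| ≤ 40 / Real.log X * |Real.log a - Real.log b| := by
  have key : ∀ v w : ℝ, |max 0 (min 1 (min (40 * v - 1) (5 - 20 * v))) -
      max 0 (min 1 (min (40 * w - 1) (5 - 20 * w)))| ≤ 40 * |v - w| := by
    intro v w
    have h1 := abs_max_sub_max_le_max (0 : ℝ) (min 1 (min (40 * v - 1) (5 - 20 * v))) 0
      (min 1 (min (40 * w - 1) (5 - 20 * w)))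
    have h2 := abs_min_sub_min_le_max (1 : ℝ) (min (40 * v - 1) (5 - 20 * v)) 1
      (min (40 * w - 1) (5 - 20 * w))
    have h3 := abs_min_sub_min_le_max (40 * v - 1) (5 - 20 * v) (40 * w - 1) (5 - 20 * w)
    rw [sub_self, abs_zero] at h1 h2
    have h0 : 0 ≤ 40 * |v - w| := by (clear * -; positivity)
    have h4 : |40 * v - 1 - (40 * w - 1)| ≤ 40 * |v - w| := by
      have : 40 * v - 1 - (40 * w - 1) = 40 * (v - w) := by ring
      rw [this, abs_mul, abs_of_pos (by norm_num : (0:ℝ) < 40)]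
    have h5 : |5 - 20 * v - (5 - 20 * w)| ≤ 40 * |v - w| := by
      have : 5 - 20 * v - (5 - 20 * w) = -20 * (v - w) := by ring
      rw [this, abs_mul]
      have h6 : |(-20 : ℝ)| = 20 := by norm_num
      rw [h6]
      (clear * - h0; nlinarith [abs_nonneg (v - w)])
    exact h1.trans (max_le h0 (h2.trans (max_le h0 (h3.trans (max_le h4 h5)))))
  have h := key (Real.log a / Real.log X) (Real.log b / Real.log X)
  refine h.trans_eq ?_
  rw [← sub_div, abs_div, abs_of_pos hL]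
  ring

/-! ### powers -/

theorem cpow_sub_le {s : ℂ} (hs : s ≠ 0) (hre : 0 ≤ s.re) {m y : ℝ} (hm : 0 < m) (hy : m ≤ y) :
    ‖(y : ℂ) ^ (-s) - (m : ℂ) ^ (-s)‖ ≤ ‖s‖ * m ^ (-s.re - 1) * (y - m) := by
  have h1 : ∀ x ∈ Set.Icc m y, HasDerivWithinAt (fun x : ℝ => (x : ℂ) ^ (-s))
      (-s * (x : ℂ) ^ (-s - 1)) (Set.Icc m y) x := fun x hx =>
    (hasDerivAt_ofReal_cpow_const (lt_of_lt_of_le hm hx.1).ne' (neg_ne_zero.2 hs)).hasDerivWithinAt
  have h2 : ∀ x ∈ Set.Icc m y, ‖-s * (x : ℂ) ^ (-s - 1)‖ ≤ ‖s‖ * m ^ (-s.re - 1) := by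
    intro x hx
    have hx0 : 0 < x := lt_of_lt_of_le hm hx.1
    rw [norm_mul, norm_neg, Complex.norm_cpow_eq_rpow_re_of_pos hx0]
    refine mul_le_mul_of_nonneg_left ?_ (norm_nonneg _)
    have e : (-s - 1).re = -s.re - 1 := by simp
    rw [e]
    exact Real.rpow_le_rpow_of_nonpos hm hx.1 (by linarith)
  have h3 := (convex_Icc m y).norm_image_sub_le_of_norm_hasDerivWithin_le h1 h2
    (Set.left_mem_Icc.2 hy) (Set.right_mem_Icc.2 hy)
  rwa [Real.norm_of_nonneg (sub_nonneg.2 hy)] at h3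

/-! ### the integral of one piece -/

theorem piece {L d a Y : ℝ} {s : ℂ} (hL : 0 < L) (hd : 0 < d) (hs : s ≠ 1)
    (h1 : 1 ≤ Real.exp (a * L) / d) (h2 : Real.exp (a * L) / d ≤ Y) :
    ∫ y in (1 : ℝ)..Y, ((max 0 (Real.log (d * y) / L - a) : ℝ) : ℂ) * (y : ℂ) ^ (-s) =
      ((Real.log (d * Y) / L - a : ℝ) : ℂ) * ((Y : ℂ) ^ (1 - s) / (1 - s))
        - (Y : ℂ) ^ (1 - s) / ((L : ℂ) * (1 - s) ^ 2)
        + ((Real.exp (a * L) / d : ℝ) : ℂ) ^ (1 - s) / ((L : ℂ) * (1 - s) ^ 2) := by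
  set y0 := Real.exp (a * L) / d with hy0
  have hy0pos : 0 < y0 := by positivity
  have hw : (1 : ℂ) - s ≠ 0 := sub_ne_zero.2 (Ne.symm hs)
  have hLc : (L : ℂ) ≠ 0 := by exact_mod_cast hL.ne'
  have hcont : ContinuousOn (fun y : ℝ => ((max 0 (Real.log (d * y) / L - a) : ℝ) : ℂ) *
      (y : ℂ) ^ (-s)) (Set.Ioi 0) := by
    intro y hy
    have hy' : (0 : ℝ) < y := hy
    have c1 : ContinuousAt (fun y : ℝ => Real.log (d * y)) y :=
      (Real.continuousAt_log (by (clear * - hd hy'; positivity))).comp (by fun_prop : ContinuousAt (fun y : ℝ => d * y) y)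
    have c2 : ContinuousAt (fun y : ℝ => max 0 (Real.log (d * y) / L - a)) y :=
      continuousAt_const.max ((c1.div_const L).sub continuousAt_const)
    have c3 : ContinuousAt (fun y : ℝ => ((max 0 (Real.log (d * y) / L - a) : ℝ) : ℂ)) y :=
      Complex.continuous_ofReal.continuousAt.comp c2
    exact (c3.mul (Complex.continuousAt_ofReal_cpow_const _ _ (Or.inr hy'.ne'))).continuousWithinAt
  have i1 : IntervalIntegrable (fun y : ℝ => ((max 0 (Real.log (d * y) / L - a) : ℝ) : ℂ) *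
      (y : ℂ) ^ (-s)) volume 1 y0 := by
    apply ContinuousOn.intervalIntegrable
    apply hcont.mono
    intro y hy
    rw [Set.uIcc_of_le h1] at hy
    exact lt_of_lt_of_le one_pos hy.1
  have i2 : IntervalIntegrable (fun y : ℝ => ((max 0 (Real.log (d * y) / L - a) : ℝ) : ℂ) *
      (y : ℂ) ^ (-s)) volume y0 Y := by
    apply ContinuousOn.intervalIntegrable
    apply hcont.mono
    intro y hy
    rw [Set.uIcc_of_le h2] at hy
    exact lt_of_lt_of_le hy0pos hy.1
  rw [← intervalIntegral.integral_add_adjacent_intervals i1 i2]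
  have hlog0 : Real.log (d * y0) = a * L := by
    rw [hy0, mul_div_cancel₀ _ hd.ne', Real.log_exp]
  have e1 : ∫ y in (1 : ℝ)..y0, ((max 0 (Real.log (d * y) / L - a) : ℝ) : ℂ) * (y : ℂ) ^ (-s)
      = 0 := by
    rw [intervalIntegral.integral_congr (g := fun _ => (0 : ℂ))]
    · simp
    · intro y hy
      rw [Set.uIcc_of_le h1] at hy
      have hypos : 0 < y := lt_of_lt_of_le one_pos hy.1
      have h3 : Real.log (d * y) ≤ a * L := by
        rw [← hlog0]
        exact Real.log_le_log (by positivity) (mul_le_mul_of_nonneg_left hy.2 hd.le)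
      have h4 : Real.log (d * y) / L - a ≤ 0 := by
        rw [sub_nonpos, div_le_iff₀ hL]; exact h3
      simp only
      rw [max_eq_left h4]
      simp
  have e2 : ∫ y in y0..Y, ((max 0 (Real.log (d * y) / L - a) : ℝ) : ℂ) * (y : ℂ) ^ (-s)
      = (((Real.log (d * Y) / L - a : ℝ) : ℂ) * ((Y : ℂ) ^ (1 - s) / (1 - s))
        - (Y : ℂ) ^ (1 - s) / ((L : ℂ) * (1 - s) ^ 2))
        - (((Real.log (d * y0) / L - a : ℝ) : ℂ) * ((y0 : ℂ) ^ (1 - s) / (1 - s))
        - (y0 : ℂ) ^ (1 - s) / ((L : ℂ) * (1 - s) ^ 2)) := by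
    refine intervalIntegral.integral_eq_sub_of_hasDerivAt (f := fun y : ℝ =>
      ((Real.log (d * y) / L - a : ℝ) : ℂ) * ((y : ℂ) ^ (1 - s) / (1 - s))
        - (y : ℂ) ^ (1 - s) / ((L : ℂ) * (1 - s) ^ 2)) ?_ i2
    intro y hy
    rw [Set.uIcc_of_le h2] at hy
    have hypos : 0 < y := lt_of_lt_of_le hy0pos hy.1
    have hyc : (y : ℂ) ≠ 0 := by exact_mod_cast hypos.ne'
    have d1 : HasDerivAt (fun y : ℝ => Real.log (d * y) / L - a) (1 / y / L) y := by
      have h5 : HasDerivAt (fun y : ℝ => d * y) d y := by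
        simpa using (hasDerivAt_id y).const_mul d
      have h6 := h5.log (by (clear * - hd hypos; positivity))
      have h7 := (h6.div_const L).sub_const a
      refine h7.congr_deriv ?_
      (clear * - hd hL hypos; field_simp)
    have d2 : HasDerivAt (fun y : ℝ => ((Real.log (d * y) / L - a : ℝ) : ℂ))
        (((1 / y / L : ℝ)) : ℂ) y := d1.ofReal_comp
    have d3 : HasDerivAt (fun y : ℝ => (y : ℂ) ^ (1 - s)) ((1 - s) * (y : ℂ) ^ (-s)) y := by
      have h8 := hasDerivAt_ofReal_cpow_const hypos.ne' hw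
      have h9 : (1 : ℂ) - s - 1 = -s := by ring
      rwa [h9] at h8
    have d4 := (d2.mul (d3.div_const (1 - s))).sub (d3.div_const ((L : ℂ) * (1 - s) ^ 2))
    refine d4.congr_deriv ?_
    have h10 : (y : ℂ) ^ (1 - s) = (y : ℂ) * (y : ℂ) ^ (-s) := by
      rw [sub_eq_add_neg, Complex.cpow_add _ _ hyc, Complex.cpow_one]
    have h11 : 0 ≤ Real.log (d * y) / L - a := by
      rw [sub_nonneg, le_div_iff₀ hL, ← hlog0]
      exact Real.log_le_log (by positivity) (mul_le_mul_of_nonneg_left hy.1 hd.le)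
    rw [max_eq_right h11, h10]
    push_cast
    field_simp
    ring
  rw [e1, e2, hlog0]
  have e3 : a * L / L - a = 0 := by field_simp; ring
  rw [e3]
  push_cast
  ring

/-! ### the full integral -/

theorem rpos_cpow {x : ℝ} (hx : 0 < x) (z : ℂ) :
    (x : ℂ) ^ z = Complex.exp ((Real.log x : ℂ) * z) := by
  rw [Complex.cpow_def_of_ne_zero (by exact_mod_cast hx.ne'), ← Complex.ofReal_log hx.le]

theorem integral_trap {X : ℝ} {d : ℕ} {s : ℂ} (hX : 1 < X) (hd : 1 ≤ d)
    (hdX : (d : ℝ) ≤ X ^ (1 / 100 : ℝ)) (hs : s ≠ 1) {Y : ℝ} (hY : X ≤ Y) :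
    ∫ y in (1 : ℝ)..Y, (trap X ((d : ℝ) * y) : ℂ) * (y : ℂ) ^ (-s) =
      (d : ℂ) ^ (s - 1) * Itr X s := by
  have hX0 : 0 < X := by (clear * - hX; linarith)
  set L := Real.log X with hLdef
  have hL : 0 < L := Real.log_pos hX
  have hd0 : (0 : ℝ) < d := by exact_mod_cast hd
  have hd1 : (1 : ℝ) ≤ d := by exact_mod_cast hd
  have hexp : ∀ a : ℝ, Real.exp (a * L) = X ^ a := by
    intro a; rw [Real.rpow_def_of_pos hX0, mul_comm]
  have hpow : ∀ a : ℝ, 1 / 100 ≤ a → a ≤ 1 → 1 ≤ Real.exp (a * L) / d ∧ Real.exp (a * L) / d ≤ Y := by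
    intro a h1 h2
    rw [hexp]
    constructor
    · rw [one_le_div hd0]
      exact hdX.trans (Real.rpow_le_rpow_of_exponent_le hX.le h1)
    · rw [div_le_iff₀ hd0]
      calc X ^ a ≤ X ^ (1 : ℝ) := Real.rpow_le_rpow_of_exponent_le hX.le h2
        _ = X := Real.rpow_one X
        _ ≤ Y := hY
        _ = Y * 1 := (mul_one Y).symm
        _ ≤ Y * d := mul_le_mul_of_nonneg_left hd1 (by (clear * - hX hY; linarith))
  have hYpos : 0 < Y := by (clear * - hX hY; linarith)
  have hY1 : 1 ≤ Y := by (clear * - hX hY; linarith)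
  have hp : ∀ a : ℝ, 1 / 100 ≤ a → a ≤ 1 → _ := fun a h1 h2 =>
    piece (L := L) (d := (d : ℝ)) (a := a) (Y := Y) (s := s) hL hd0 hs (hpow a h1 h2).1 (hpow a h1 h2).2
  have hint : ∀ a : ℝ, IntervalIntegrable (fun y : ℝ =>
      ((max 0 (Real.log ((d : ℝ) * y) / L - a) : ℝ) : ℂ) * (y : ℂ) ^ (-s)) volume 1 Y := by
    intro a
    apply ContinuousOn.intervalIntegrable
    intro y hy
    rw [Set.uIcc_of_le hY1] at hy
    have hy' : (0 : ℝ) < y := lt_of_lt_of_le one_pos hy.1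
    have c1 : ContinuousAt (fun y : ℝ => Real.log ((d : ℝ) * y)) y :=
      (Real.continuousAt_log (by (clear * - hd hy'; positivity))).comp
        (by fun_prop : ContinuousAt (fun y : ℝ => (d : ℝ) * y) y)
    have c2 : ContinuousAt (fun y : ℝ => max 0 (Real.log ((d : ℝ) * y) / L - a)) y :=
      continuousAt_const.max ((c1.div_const L).sub continuousAt_const)
    have c3 : ContinuousAt (fun y : ℝ => ((max 0 (Real.log ((d : ℝ) * y) / L - a) : ℝ) : ℂ)) y :=
      Complex.continuous_ofReal.continuousAt.comp c2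
    exact (c3.mul (Complex.continuousAt_ofReal_cpow_const _ _ (Or.inr hy'.ne'))).continuousWithinAt
  have e0 : ∀ y : ℝ, (trap X ((d : ℝ) * y) : ℂ) * (y : ℂ) ^ (-s) =
      40 * (((max 0 (Real.log ((d : ℝ) * y) / L - 1 / 40) : ℝ) : ℂ) * (y : ℂ) ^ (-s))
      - 40 * (((max 0 (Real.log ((d : ℝ) * y) / L - 1 / 20) : ℝ) : ℂ) * (y : ℂ) ^ (-s))
      - 20 * (((max 0 (Real.log ((d : ℝ) * y) / L - 1 / 5) : ℝ) : ℂ) * (y : ℂ) ^ (-s))
      + 20 * (((max 0 (Real.log ((d : ℝ) * y) / L - 1 / 4) : ℝ) : ℂ) * (y : ℂ) ^ (-s)) := by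
    intro y
    unfold trap
    rw [trap_decomp]
    push_cast
    ring
  simp only [e0]
  rw [intervalIntegral.integral_add ((((hint _).const_mul _).sub ((hint _).const_mul _)).sub
      ((hint _).const_mul _)) ((hint _).const_mul _),
    intervalIntegral.integral_sub (((hint _).const_mul _).sub ((hint _).const_mul _))
      ((hint _).const_mul _),
    intervalIntegral.integral_sub ((hint _).const_mul _) ((hint _).const_mul _),
    intervalIntegral.integral_const_mul, intervalIntegral.integral_const_mul,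
    intervalIntegral.integral_const_mul, intervalIntegral.integral_const_mul,
    hp (1 / 40) (by norm_num) (by norm_num), hp (1 / 20) (by norm_num) (by norm_num),
    hp (1 / 5) (by norm_num) (by norm_num), hp (1 / 4) (by norm_num) (by norm_num)]
  have hw : (1 : ℂ) - s ≠ 0 := sub_ne_zero.2 (Ne.symm hs)
  have hLc : (L : ℂ) ≠ 0 := by exact_mod_cast hL.ne'
  have hXc : (X : ℂ) ≠ 0 := by exact_mod_cast hX0.ne'
  have hdc : (d : ℂ) ≠ 0 := by exact_mod_cast hd0.ne'
  have hq : ∀ a : ℝ, ((Real.exp (a * L) / d : ℝ) : ℂ) ^ (1 - s)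
      = (d : ℂ) ^ (s - 1) * (X : ℂ) ^ ((a : ℂ) * (1 - s)) := by
    intro a
    rw [hexp]
    have h1 : ((X ^ a / (d : ℝ) : ℝ) : ℂ) = ((X ^ a : ℝ) : ℂ) * (((d : ℝ)⁻¹ : ℝ) : ℂ) := by
      push_cast; rw [div_eq_mul_inv]
    rw [h1, Complex.mul_cpow_ofReal_nonneg (Real.rpow_nonneg hX0.le _) (by positivity)]
    have h2 : (((X ^ a : ℝ)) : ℂ) ^ (1 - s) = (X : ℂ) ^ ((a : ℂ) * (1 - s)) := by
      rw [rpos_cpow (Real.rpow_pos_of_pos hX0 _), rpos_cpow hX0, Real.log_rpow hX0]
      push_cast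
      ring_nf
    have h3 : ((((d : ℝ)⁻¹ : ℝ)) : ℂ) ^ (1 - s) = (d : ℂ) ^ (s - 1) := by
      have h4 : (d : ℂ) = ((d : ℝ) : ℂ) := by push_cast; rfl
      rw [h4, rpos_cpow (inv_pos.2 hd0), rpos_cpow hd0, Real.log_inv]
      push_cast
      ring_nf
    rw [h2, h3]; ring
  rw [hq, hq, hq, hq]
  unfold Itr
  rw [← hLdef]
  have c1 : (((1 / 40 : ℝ)) : ℂ) * (1 - s) = (1 - s) / 40 := by push_cast; ring
  have c2 : (((1 / 20 : ℝ)) : ℂ) * (1 - s) = (1 - s) / 20 := by push_cast; ring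
  have c3 : (((1 / 5 : ℝ)) : ℂ) * (1 - s) = (1 - s) / 5 := by push_cast; ring
  have c4 : (((1 / 4 : ℝ)) : ℂ) * (1 - s) = (1 - s) / 4 := by push_cast; ring
  rw [c1, c2, c3, c4]
  push_cast
  field_simp
  ring

/-! ### the comparison of the sum and the integral -/

theorem innerSmall : InnerSmall := by
  obtain ⟨B, hB⟩ : ∃ B : ℝ, B = ∑' m : ℕ, (m : ℝ) ^ (-(6 / 5) : ℝ) := ⟨_, rfl⟩
  have hsum : Summable fun m : ℕ => (m : ℝ) ^ (-(6 / 5) : ℝ) :=
    Real.summable_nat_rpow.2 (by norm_num)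
  have hB0 : 0 ≤ B := hB ▸ tsum_nonneg fun m => Real.rpow_nonneg (Nat.cast_nonneg m) _
  refine ⟨80 * B + 1, 2 ^ 100, by (clear * - hB0; positivity), fun X hX d hd hdX s hs1 hs2 hs => ?_⟩
  have hX1 : 1 < X := lt_of_lt_of_le (by norm_num) hX
  have hX0 : 0 < X := by (clear * - hX; linarith)
  set L := Real.log X with hLdef
  have hL : 1 ≤ L := by
    have h1 : Real.log (2 ^ 100) ≤ L := Real.log_le_log (by positivity) hX
    rw [Real.log_pow] at h1
    have h2 := Real.log_two_gt_d9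
    push_cast at h1
    (clear * - h1 h2; linarith)
  have hLpos : 0 < L := by (clear * - hL; linarith)
  have hd0 : (0 : ℝ) < d := by exact_mod_cast hd
  have hs0 : s ≠ 0 := fun h => by rw [h] at hs1; norm_num at hs1
  set M := ⌊X⌋₊ with hM
  have hMX : X ≤ (M : ℝ) + 1 := (Nat.lt_floor_add_one X).le
  -- the summand as a function
  set g : ℝ → ℂ := fun y => (trap X ((d : ℝ) * y) : ℂ) * (y : ℂ) ^ (-s) with hg
  have hI : ∫ y in (1 : ℝ)..((M + 1 : ℕ) : ℝ), g y = (d : ℂ) ^ (s - 1) * Itr X s :=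
    integral_trap hX1 hd hdX hs (by push_cast; exact hMX)
  have hgc : ContinuousOn g (Set.Ici 1) := by
    intro y hy
    have hy' : (0 : ℝ) < y := lt_of_lt_of_le one_pos hy
    have c1 : ContinuousAt (fun y : ℝ => Real.log ((d : ℝ) * y)) y :=
      (Real.continuousAt_log (by (clear * - hd hy'; positivity))).comp
        (by fun_prop : ContinuousAt (fun y : ℝ => (d : ℝ) * y) y)
    have c2 : ContinuousAt (fun y : ℝ => trap X ((d : ℝ) * y)) y := by
      unfold trap
      exact continuousAt_const.max (continuousAt_const.min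
        (((continuousAt_const.mul (c1.div_const _)).sub continuousAt_const).min
          (continuousAt_const.sub (continuousAt_const.mul (c1.div_const _)))))
    have c3 : ContinuousAt (fun y : ℝ => ((trap X ((d : ℝ) * y) : ℝ) : ℂ)) y :=
      Complex.continuous_ofReal.continuousAt.comp c2
    exact (c3.mul (Complex.continuousAt_ofReal_cpow_const _ _ (Or.inr hy'.ne'))).continuousWithinAt
  have hint : ∀ k ∈ Set.Ico 1 (M + 1), IntervalIntegrable g volume ((k : ℕ) : ℝ) ((k + 1 : ℕ) : ℝ) := by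
    intro k hk
    apply ContinuousOn.intervalIntegrable
    apply hgc.mono
    intro y hy
    rw [Set.uIcc_of_le (by push_cast; (clear * -; linarith))] at hy
    have h1 : (1 : ℝ) ≤ k := by exact_mod_cast hk.1
    exact h1.trans hy.1
  have hsplit := intervalIntegral.sum_integral_adjacent_intervals_Ico (f := g) (μ := volume)
    (a := fun k : ℕ => (k : ℝ)) (m := 1) (n := M + 1) (by omega) hint
  simp only [Nat.cast_one] at hsplit
  rw [hI] at hsplit
  have hIcc : Icc 1 M = Ico 1 (M + 1) := by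
    ext k; simp only [mem_Icc, mem_Ico]; omega
  rw [← hsplit, hIcc, ← Finset.sum_sub_distrib]
  -- one term
  have hterm : ∀ m ∈ Ico 1 (M + 1), ‖(trap X ((d : ℝ) * m) : ℂ) * (m : ℂ) ^ (-s) -
      ∫ y in ((m : ℕ) : ℝ)..((m + 1 : ℕ) : ℝ), g y‖ ≤
      80 * (1 + ‖s‖) * X ^ (-(1 / 100) : ℝ) * (m : ℝ) ^ (-(6 / 5) : ℝ) := by
    intro m hm
    have hm1 : 1 ≤ m := (mem_Ico.1 hm).1
    have hm0 : (0 : ℝ) < m := by exact_mod_cast hm1
    have hm1' : (1 : ℝ) ≤ m := by exact_mod_cast hm1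
    have e1 : (trap X ((d : ℝ) * m) : ℂ) * (m : ℂ) ^ (-s) -
        ∫ y in ((m : ℕ) : ℝ)..((m + 1 : ℕ) : ℝ), g y
        = ∫ y in ((m : ℕ) : ℝ)..((m + 1 : ℕ) : ℝ), (g m - g y) := by
      rw [intervalIntegral.integral_sub intervalIntegrable_const (hint m (by
        have := mem_Ico.1 hm; exact ⟨this.1, this.2⟩)), intervalIntegral.integral_const]
      simp [hg]
    rw [e1]
    have hbound : ∀ y ∈ Set.uIoc ((m : ℕ) : ℝ) ((m + 1 : ℕ) : ℝ), ‖g m - g y‖ ≤
        80 * (1 + ‖s‖) * X ^ (-(1 / 100) : ℝ) * (m : ℝ) ^ (-(6 / 5) : ℝ) := by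
      intro y hy
      rw [Set.uIoc_of_le (by push_cast; (clear * -; linarith))] at hy
      have hym : (m : ℝ) ≤ y := hy.1.le
      have hym1 : y ≤ m + 1 := by have := hy.2; push_cast at this; exact this
      have hy0 : 0 < y := by (clear * - hm0 hym; linarith)
      have hRnn : 0 ≤ 80 * (1 + ‖s‖) * X ^ (-(1 / 100) : ℝ) * (m : ℝ) ^ (-(6 / 5) : ℝ) := by
        (clear * - hs0 hX hm1; positivity)
      -- small m: everything vanishes
      rcases le_or_gt ((m : ℝ) + 1) (X ^ (3 / 200 : ℝ)) with hsm | hbig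
      · have hz : ∀ u : ℝ, 0 < u → u ≤ m + 1 → trap X ((d : ℝ) * u) = 0 := by
          intro u hu0 hu
          apply trap_zero
          rw [← hLdef, div_le_iff₀ hLpos]
          have h1 : (d : ℝ) * u ≤ X ^ (1 / 40 : ℝ) := by
            calc (d : ℝ) * u ≤ X ^ (1 / 100 : ℝ) * X ^ (3 / 200 : ℝ) :=
                  mul_le_mul hdX (hu.trans hsm) hu0.le (Real.rpow_nonneg hX0.le _)
              _ = X ^ (1 / 40 : ℝ) := by rw [← Real.rpow_add hX0]; norm_num
          calc Real.log ((d : ℝ) * u) ≤ Real.log (X ^ (1 / 40 : ℝ)) :=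
                Real.log_le_log (by (clear * - hd hu0; positivity)) h1
            _ = 1 / 40 * L := by rw [Real.log_rpow hX0]
        have h1 : g m = 0 := by
          simp only [hg]; rw [hz m hm0 (by (clear * -; linarith))]; simp
        have h2 : g y = 0 := by
          simp only [hg]; rw [hz y hy0 hym1]; simp
        rw [h1, h2, sub_zero, norm_zero]
        exact hRnn
      · -- large m
        have hP : X ^ (3 / 200 : ℝ) ≤ 2 * m := by
          have h2 : (2 : ℝ) ≤ X ^ (3 / 200 : ℝ) := by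
            calc (2 : ℝ) = 2 ^ (1 : ℝ) := (Real.rpow_one 2).symm
              _ ≤ 2 ^ (3 / 2 : ℝ) := Real.rpow_le_rpow_of_exponent_le (by norm_num) (by norm_num)
              _ = ((2 : ℝ) ^ (100 : ℕ)) ^ (3 / 200 : ℝ) := by
                rw [← Real.rpow_natCast, ← Real.rpow_mul (by norm_num)]; norm_num
              _ ≤ X ^ (3 / 200 : ℝ) := Real.rpow_le_rpow (by positivity) hX (by norm_num)
          (clear * - hbig h2; linarith)
        have hmpow : (m : ℝ) ^ (-s.re - 1) ≤ 2 * X ^ (-(1 / 100) : ℝ) * (m : ℝ) ^ (-(6 / 5) : ℝ) := by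
          have h1 : (m : ℝ) ^ (-s.re - 1) ≤ (m : ℝ) ^ (-(19 / 10) : ℝ) :=
            Real.rpow_le_rpow_of_exponent_le hm1' (by (clear * - hs1; linarith))
          have h2 : (m : ℝ) ^ (-(19 / 10) : ℝ) = (m : ℝ) ^ (-(6 / 5) : ℝ) * (m : ℝ) ^ (-(7 / 10) : ℝ) := by
            rw [← Real.rpow_add hm0]; norm_num
          have h3 : (m : ℝ) ^ (-(7 / 10) : ℝ) ≤ (X ^ (3 / 200 : ℝ) / 2) ^ (-(7 / 10) : ℝ) :=
            Real.rpow_le_rpow_of_nonpos (by positivity) (by (clear * - hm1' hbig; linarith)) (by norm_num)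
          have h4 : (X ^ (3 / 200 : ℝ) / 2) ^ (-(7 / 10) : ℝ)
              ≤ 2 * X ^ (-(1 / 100) : ℝ) := by
            rw [Real.div_rpow (by positivity) (by norm_num), ← Real.rpow_mul hX0.le,
              div_eq_mul_inv, ← Real.rpow_neg (by norm_num), mul_comm]
            refine mul_le_mul ?_ ?_ (Real.rpow_nonneg hX0.le _) (by norm_num)
            · calc (2 : ℝ) ^ (-(-(7 / 10)) : ℝ) ≤ 2 ^ (1 : ℝ) :=
                  Real.rpow_le_rpow_of_exponent_le (by norm_num) (by norm_num)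
                _ = 2 := Real.rpow_one 2
            · exact Real.rpow_le_rpow_of_exponent_le hX1.le (by norm_num)
          calc (m : ℝ) ^ (-s.re - 1) ≤ (m : ℝ) ^ (-(6 / 5) : ℝ) * (m : ℝ) ^ (-(7 / 10) : ℝ) := by
                rw [← h2]; exact h1
            _ ≤ (m : ℝ) ^ (-(6 / 5) : ℝ) * (2 * X ^ (-(1 / 100) : ℝ)) :=
                mul_le_mul_of_nonneg_left (h3.trans h4) (Real.rpow_nonneg hm0.le _)
            _ = _ := by ring
        have hdiff : ‖g m - g y‖ ≤ (40 / L + ‖s‖) * (m : ℝ) ^ (-s.re - 1) := by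
          have e2 : g m - g y = ((trap X ((d : ℝ) * m) - trap X ((d : ℝ) * y) : ℝ) : ℂ)
                * (y : ℂ) ^ (-s) -
              (trap X ((d : ℝ) * m) : ℂ) * ((y : ℂ) ^ (-s) - ((m : ℝ) : ℂ) ^ (-s)) := by
            simp only [hg]
            push_cast
            ring
          rw [e2]
          refine (norm_sub_le _ _).trans ?_
          rw [norm_mul, norm_mul, Complex.norm_real, Complex.norm_real, add_mul]
          have t1 : ‖trap X ((d : ℝ) * m) - trap X ((d : ℝ) * y)‖ ≤ 40 / L * (1 / m) := by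
            rw [Real.norm_eq_abs]
            refine (trap_lip hLpos).trans ?_
            refine mul_le_mul_of_nonneg_left ?_ (by positivity)
            rw [Real.log_mul hd0.ne' hm0.ne', Real.log_mul hd0.ne' hy0.ne', abs_sub_comm]
            have h5 : Real.log d + Real.log y - (Real.log d + Real.log m) = Real.log (y / m) := by
              rw [Real.log_div hy0.ne' hm0.ne']; ring
            rw [h5, abs_of_nonneg (Real.log_nonneg (by rw [one_le_div hm0]; exact hym))]
            have h6 := Real.log_le_sub_one_of_pos (div_pos hy0 hm0)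
            have h7 : y / m - 1 ≤ 1 / m := by
              rw [div_sub_one hm0.ne']
              exact div_le_div_of_nonneg_right (by (clear * - hym1; linarith)) hm0.le
            exact h6.trans h7
          have t2 : ‖(y : ℂ) ^ (-s)‖ ≤ (m : ℝ) ^ (-s.re) := by
            rw [Complex.norm_cpow_eq_rpow_re_of_pos hy0, Complex.neg_re]
            exact Real.rpow_le_rpow_of_nonpos hm0 hym (by (clear * - hs1; linarith))
          have t3 : ‖(y : ℂ) ^ (-s) - ((m : ℝ) : ℂ) ^ (-s)‖ ≤ ‖s‖ * (m : ℝ) ^ (-s.re - 1) := by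
            refine (cpow_sub_le hs0 (by (clear * - hs1; linarith)) hm0 hym).trans ?_
            have h8 : 0 ≤ ‖s‖ * (m : ℝ) ^ (-s.re - 1) := by positivity
            (clear * - hym1 h8; nlinarith)
          have t4 : ‖trap X ((d : ℝ) * m)‖ ≤ 1 := by
            rw [Real.norm_of_nonneg (trap_nonneg _ _)]; exact trap_le_one _ _
          have h9 : (m : ℝ) ^ (-s.re - 1) = 1 / m * (m : ℝ) ^ (-s.re) := by
            rw [Real.rpow_sub hm0, Real.rpow_one]; ring
          refine add_le_add ?_ ?_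
          · rw [h9, ← mul_assoc]
            exact mul_le_mul t1 t2 (norm_nonneg _) (by positivity)
          · calc _ ≤ 1 * (‖s‖ * (m : ℝ) ^ (-s.re - 1)) :=
                  mul_le_mul t4 t3 (norm_nonneg _) (by norm_num)
              _ = _ := one_mul _
        have h10 : 40 / L + ‖s‖ ≤ 40 * (1 + ‖s‖) := by
          have h11 : 40 / L ≤ 40 := div_le_self (by norm_num) hL
          (clear * - h11; nlinarith [norm_nonneg s])
        calc ‖g m - g y‖ ≤ (40 / L + ‖s‖) * (m : ℝ) ^ (-s.re - 1) := hdiff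
          _ ≤ (40 * (1 + ‖s‖)) * (2 * X ^ (-(1 / 100) : ℝ) * (m : ℝ) ^ (-(6 / 5) : ℝ)) :=
            mul_le_mul h10 hmpow (Real.rpow_nonneg hm0.le _) (by positivity)
          _ = _ := by ring
    have h12 := intervalIntegral.norm_integral_le_of_norm_le_const hbound
    have h13 : |(((m + 1 : ℕ) : ℝ)) - (m : ℝ)| = 1 := by push_cast; simp
    rwa [h13, mul_one] at h12
  calc ‖∑ m ∈ Ico 1 (M + 1), ((trap X ((d : ℝ) * m) : ℂ) * (m : ℂ) ^ (-s) -
        ∫ y in ((m : ℕ) : ℝ)..((m + 1 : ℕ) : ℝ), g y)‖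
      ≤ ∑ m ∈ Ico 1 (M + 1), 80 * (1 + ‖s‖) * X ^ (-(1 / 100) : ℝ) * (m : ℝ) ^ (-(6 / 5) : ℝ) :=
        norm_sum_le_of_le _ hterm
    _ = 80 * (1 + ‖s‖) * X ^ (-(1 / 100) : ℝ) * ∑ m ∈ Ico 1 (M + 1), (m : ℝ) ^ (-(6 / 5) : ℝ) := by
        rw [Finset.mul_sum]
    _ ≤ 80 * (1 + ‖s‖) * X ^ (-(1 / 100) : ℝ) * B := by
        refine mul_le_mul_of_nonneg_left ?_ (by positivity)
        rw [hB]
        exact hsum.sum_le_tsum _ fun m _ => Real.rpow_nonneg (Nat.cast_nonneg m) _
    _ ≤ (80 * B + 1) * (1 + ‖s‖) * X ^ (-(1 / 100) : ℝ) := by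
        have h1 : 0 ≤ (1 + ‖s‖) * X ^ (-(1 / 100) : ℝ) := by positivity
        (clear * - h1; nlinarith)

end Pool.Agent.M20.Helper7.KSZ
end

/- Helper53.KN.Helper7.KSZ.N10 -/
section
/-!
Project KSZ, N10: the kernel of the duality argument.
-/

set_option autoImplicit false

open Finset MeasureTheory

namespace Pool.Agent.M20.Helper7.KSZ

open Pool.Agent.M20.Helper18.KSZ

theorem sum_mult (G : ℕ → ℂ) (M d : ℕ) (hd : 1 ≤ d) (hG : ∀ k, M < k → G k = 0) :
    ∑ n ∈ (Icc 1 M).filter (fun n => d ∣ n), G n = ∑ m ∈ Icc 1 M, G (d * m) := by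
  have h1 : ∑ m ∈ Icc 1 M, G (d * m) = ∑ m ∈ (Icc 1 M).filter (fun m => d * m ≤ M), G (d * m) := by
    rw [Finset.sum_filter]
    refine Finset.sum_congr rfl fun m _ => ?_
    split_ifs with h
    · rfl
    · exact hG _ (by omega)
  rw [h1]
  refine Finset.sum_nbij' (fun n => n / d) (fun m => d * m) ?_ ?_ ?_ ?_ ?_
  · intro n hn
    simp only [mem_filter, mem_Icc] at hn ⊢
    obtain ⟨⟨h2, h3⟩, k, rfl⟩ := hn
    rw [Nat.mul_div_cancel_left k (by omega)]
    have hk : 1 ≤ k := by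
      rcases Nat.eq_zero_or_pos k with h | h
      · rw [h] at h2; simp at h2
      · exact h
    refine ⟨⟨hk, ?_⟩, h3⟩
    calc k = 1 * k := (one_mul k).symm
      _ ≤ d * k := Nat.mul_le_mul_right k hd
      _ ≤ M := h3
  · intro m hm
    simp only [mem_filter, mem_Icc] at hm ⊢
    refine ⟨⟨?_, hm.2⟩, Dvd.intro _ rfl⟩
    exact Nat.mul_pos (by omega) (by omega)
  · intro n hn
    simp only [mem_filter, mem_Icc] at hn
    exact Nat.mul_div_cancel' hn.2
  · intro m _
    exact Nat.mul_div_cancel_left m (by omega)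
  · intro n hn
    simp only [mem_filter, mem_Icc] at hn
    rw [Nat.mul_div_cancel' hn.2]

theorem sum_div_swap (F : ℕ → ℕ → ℂ) (M : ℕ) :
    ∑ n ∈ Icc 1 M, ∑ d ∈ n.divisors, F d n
      = ∑ d ∈ Icc 1 M, ∑ n ∈ (Icc 1 M).filter (fun n => d ∣ n), F d n := by
  refine Finset.sum_comm' ?_
  intro n d
  simp only [mem_Icc, Nat.mem_divisors, mem_filter]
  constructor
  · rintro ⟨⟨h1, h2⟩, h3, h4⟩
    refine ⟨⟨⟨h1, h2⟩, h3⟩, Nat.pos_of_dvd_of_pos h3 (by omega), (Nat.le_of_dvd (by omega) h3).trans h2⟩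
  · rintro ⟨⟨⟨h1, h2⟩, h3⟩, h4, h5⟩
    exact ⟨⟨h1, h2⟩, h3, by omega⟩

/-- the kernel as a double sum -/
theorem ker_eq {K C w X : ℝ} {lam : ℕ → ℝ} (hX : 1 < X) (hK : w ^ K ≤ X)
    (h : SW K C w lam) (s : ℂ) :
    Ker lam X s = ∑ d ∈ Icc 1 ⌊w ^ K⌋₊, (lam d : ℂ) * (d : ℂ) ^ (-s) *
      ∑ m ∈ Icc 1 ⌊X⌋₊, (trap X ((d : ℝ) * m) : ℂ) * (m : ℂ) ^ (-s) := by
  have hX0 : 0 < X := by (clear * - hX; linarith)
  have hLpos : 0 < Real.log X := Real.log_pos hX
  set M := ⌊X⌋₊ with hM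
  have hvan : ∀ k : ℕ, M < k → trap X (k : ℝ) = 0 := by
    intro k hk
    have hkX : X < k := Nat.lt_of_floor_lt hk
    apply trap_zero'
    rw [le_div_iff₀ hLpos]
    have h1 : Real.log X ≤ Real.log k := Real.log_le_log hX0 hkX.le
    (clear * - hLpos h1; linarith)
  unfold Ker
  have e1 : ∀ n ∈ Icc 1 M, ((bet lam n * trap X n : ℝ) : ℂ) * (n : ℂ) ^ (-s)
      = ∑ d ∈ n.divisors, (lam d : ℂ) * ((trap X (n : ℝ) : ℂ) * (n : ℂ) ^ (-s)) := by
    intro n _
    rw [← Finset.sum_mul]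
    unfold bet
    push_cast
    ring
  rw [Finset.sum_congr rfl e1, sum_div_swap (fun d n => (lam d : ℂ) * ((trap X (n : ℝ) : ℂ) *
    (n : ℂ) ^ (-s))) M]
  have hDM : ⌊w ^ K⌋₊ ≤ M := Nat.floor_le_floor hK
  rw [← Finset.sum_subset (Finset.Icc_subset_Icc_right hDM)]
  · refine Finset.sum_congr rfl fun d hd => ?_
    rw [mem_Icc] at hd
    rw [← Finset.mul_sum, sum_mult (fun n => (trap X (n : ℝ) : ℂ) * (n : ℂ) ^ (-s)) M d hd.1
      (fun k hk => by rw [hvan k hk]; simp), mul_assoc]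
    congr 1
    rw [Finset.mul_sum]
    refine Finset.sum_congr rfl fun m _ => ?_
    push_cast
    rw [Complex.natCast_mul_natCast_cpow]
    ring
  · intro d hd hd'
    rw [mem_Icc] at hd
    have hlam : lam d = 0 := by
      by_contra hne
      obtain ⟨h1, -, h3⟩ := h.supp d hne
      apply hd'
      rw [mem_Icc]
      exact ⟨h1, Nat.le_floor h3⟩
    refine Finset.sum_eq_zero fun n _ => ?_
    rw [hlam]; simp

theorem itr_bound {X : ℝ} {s : ℂ} (hX : 1 < X) (hs2 : s.re ≤ 1) (him : s.im ≠ 0) :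
    ‖Itr X s‖ ≤ 120 * X ^ ((1 - s.re) / 4) / (Real.log X * s.im ^ 2) := by
  have hX0 : 0 < X := by linarith
  have hLpos : 0 < Real.log X := Real.log_pos hX
  have hb : ∀ k : ℝ, 4 ≤ k → ‖(X : ℂ) ^ ((1 - s) / k)‖ ≤ X ^ ((1 - s.re) / 4) := by
    intro k hk
    rw [Complex.norm_cpow_eq_rpow_re_of_pos hX0]
    apply Real.rpow_le_rpow_of_exponent_le hX.le
    have e : ((1 - s) / (k : ℂ)).re = (1 - s.re) / k := by
      rw [Complex.div_ofReal_re]; simp
    rw [e]
    exact div_le_div_of_nonneg_left (by (clear * - hs2; linarith)) (by norm_num) hk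
  unfold Itr
  rw [norm_div]
  have hnum : ‖20 * ((X : ℂ) ^ ((1 - s) / 4) - (X : ℂ) ^ ((1 - s) / 5)) -
      40 * ((X : ℂ) ^ ((1 - s) / 20) - (X : ℂ) ^ ((1 - s) / 40))‖ ≤ 120 * X ^ ((1 - s.re) / 4) := by
    have b4 := hb 4 (by norm_num)
    have b5 := hb 5 (by norm_num)
    have b20 := hb 20 (by norm_num)
    have b40 := hb 40 (by norm_num)
    push_cast at b4 b5 b20 b40
    have n1 := norm_sub_le (20 * ((X : ℂ) ^ ((1 - s) / 4) - (X : ℂ) ^ ((1 - s) / 5)))
      (40 * ((X : ℂ) ^ ((1 - s) / 20) - (X : ℂ) ^ ((1 - s) / 40)))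
    have n2 := norm_sub_le ((X : ℂ) ^ ((1 - s) / 4)) ((X : ℂ) ^ ((1 - s) / 5))
    have n3 := norm_sub_le ((X : ℂ) ^ ((1 - s) / 20)) ((X : ℂ) ^ ((1 - s) / 40))
    rw [norm_mul, norm_mul] at n1
    have e20 : ‖(20 : ℂ)‖ = 20 := by norm_num
    have e40 : ‖(40 : ℂ)‖ = 40 := by norm_num
    rw [e20, e40] at n1
    linarith
  have hden : Real.log X * s.im ^ 2 ≤ ‖(Real.log X : ℂ) * (1 - s) ^ 2‖ := by
    rw [norm_mul, norm_pow, Complex.norm_real, Real.norm_of_nonneg hLpos.le]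
    refine mul_le_mul_of_nonneg_left ?_ hLpos.le
    have h1 : |s.im| ≤ ‖1 - s‖ := by
      have h2 := Complex.abs_im_le_norm (1 - s)
      simpa using h2
    calc s.im ^ 2 = |s.im| ^ 2 := (sq_abs _).symm
      _ ≤ ‖1 - s‖ ^ 2 := pow_le_pow_left₀ (abs_nonneg _) h1 2
  have hpos : 0 < Real.log X * s.im ^ 2 := by (clear * - hLpos him; positivity)
  exact div_le_div₀ (by positivity) hnum hpos hden

theorem kerBound (h8 : InnerSmall) (h9 : InnerLarge) : KerBound := by
  intro K C hK hC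
  obtain ⟨C8, X8, hC8, H8⟩ := h8
  obtain ⟨c9, ε9, X9, hc9, hε9, H9⟩ := h9
  -- constants
  set ε := min (min ε9 c9) (1 / 10) with hε
  have hεpos : 0 < ε := lt_min (lt_min hε9 hc9) (by norm_num)
  have hε1 : ε ≤ ε9 := (min_le_left _ _).trans (min_le_left _ _)
  have hε2 : ε ≤ c9 := (min_le_left _ _).trans (min_le_right _ _)
  have hε3 : ε ≤ 1 / 10 := min_le_right _ _
  obtain ⟨Z, hZ⟩ : ∃ Z : ℝ, Z = ∑' d : ℕ, (d : ℝ) ^ (-(1 + ε)) := ⟨_, rfl⟩
  have hZsum : Summable fun d : ℕ => (d : ℝ) ^ (-(1 + ε)) :=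
    Real.summable_nat_rpow.2 (by (clear * - hεpos; linarith))
  exact by
    have hZ0 : 0 ≤ Z := hZ ▸ tsum_nonneg fun m => Real.rpow_nonneg (Nat.cast_nonneg m) _
    set c := min (c9 / 4) (1 / 1000) with hc
    have hcpos : 0 < c := lt_min (by (clear * - hc9; linarith)) (by norm_num)
    have hc1 : c ≤ c9 / 4 := min_le_left _ _
    have hc2 : c ≤ 1 / 1000 := min_le_right _ _
    set K0 := (3 * C8 + 1) * Z + 1 with hK0
    exact by
      have hK0pos : 1 ≤ K0 := by
        have : 0 ≤ (3 * C8 + 1) * Z := by (clear * - hC8 hZ0; positivity)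
        (clear * - this; linarith)
      refine ⟨c, ε, 120 * C, max (max X8 X9) (max 2 (K0 ^ (1 / c))), hcpos, hεpos, by positivity,
        fun X hX w lam hw hwK hSW s hs1 hs2 him him2 => ?_⟩
      exact by
        have hX8 : X8 ≤ X := (le_max_left _ _).trans ((le_max_left _ _).trans hX)
        have hX9 : X9 ≤ X := (le_max_right _ _).trans ((le_max_left _ _).trans hX)
        have hX2 : 2 ≤ X := (le_max_left _ _).trans ((le_max_right _ _).trans hX)
        have hXK : K0 ^ (1 / c) ≤ X := (le_max_right _ _).trans ((le_max_right _ _).trans hX)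
        have hX1 : 1 < X := by (clear * - hcpos hc2 hX2; linarith)
        have hX0 : 0 < X := by (clear * - hcpos hc2 hX2; linarith)
        exact by
          have hLpos : 0 < Real.log X := Real.log_pos hX1
          have hlogw : 0 < Real.log w := Real.log_pos (by (clear * - hcpos hc2 hw; linarith))
          have hwX : w ^ K ≤ X := hwK.trans (by
            calc X ^ (1 / 100 : ℝ) ≤ X ^ (1 : ℝ) := Real.rpow_le_rpow_of_exponent_le hX1.le (by norm_num)
              _ = X := Real.rpow_one X)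
          have hKc : K0 ≤ X ^ c := by
            calc K0 = (K0 ^ (1 / c)) ^ c := by
                  rw [← Real.rpow_mul (by (clear * - hcpos hc2 hK0pos; linarith)), one_div, inv_mul_cancel₀ hcpos.ne', Real.rpow_one]
              _ ≤ X ^ c := Real.rpow_le_rpow (by (clear * - hC8 hZ0; positivity)) hXK hcpos.le
          rw [ker_eq hX1 hwX hSW s]
          set D := ⌊w ^ K⌋₊ with hD
          have hDX : (D : ℝ) ≤ X ^ (1 / 100 : ℝ) := (Nat.floor_le (by positivity)).trans hwK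
          -- the sum of `d ^ (-Re s)`
          exact by
            have hdsum : ∀ R : ℝ, 0 ≤ R → ∀ f : ℕ → ℂ, (∀ d ∈ Icc 1 D, ‖f d‖ ≤ R) →
                ‖∑ d ∈ Icc 1 D, (lam d : ℂ) * (d : ℂ) ^ (-s) * f d‖ ≤ X ^ (2 * ε / 100) * Z * R := by
              intro R hR f hf
              have hd1 : ∀ d ∈ Icc 1 D, ‖(lam d : ℂ) * (d : ℂ) ^ (-s) * f d‖ ≤
                  X ^ (2 * ε / 100) * R * (d : ℝ) ^ (-(1 + ε)) := by
                intro d hd
                have hd' := hd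
                rw [mem_Icc] at hd
                have hd0 : (0 : ℝ) < d := by exact_mod_cast hd.1
                have hd1' : (1 : ℝ) ≤ d := by exact_mod_cast hd.1
                have hdX : (d : ℝ) ≤ X ^ (1 / 100 : ℝ) := by
                  have : (d : ℝ) ≤ D := by exact_mod_cast hd.2
                  exact this.trans hDX
                rw [norm_mul, norm_mul, Complex.norm_real, Real.norm_eq_abs]
                have h1 : ‖(d : ℂ) ^ (-s)‖ ≤ X ^ (2 * ε / 100) * (d : ℝ) ^ (-(1 + ε)) := by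
                  rw [show (d : ℂ) = ((d : ℝ) : ℂ) by push_cast; rfl,
                    Complex.norm_cpow_eq_rpow_re_of_pos hd0, Complex.neg_re]
                  calc (d : ℝ) ^ (-s.re) ≤ (d : ℝ) ^ (2 * ε + -(1 + ε)) :=
                        Real.rpow_le_rpow_of_exponent_le hd1' (by (clear * - hs1; linarith))
                    _ = (d : ℝ) ^ (2 * ε) * (d : ℝ) ^ (-(1 + ε)) := Real.rpow_add hd0 _ _
                    _ ≤ X ^ (2 * ε / 100) * (d : ℝ) ^ (-(1 + ε)) := by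
                        refine mul_le_mul_of_nonneg_right ?_ (Real.rpow_nonneg hd0.le _)
                        calc (d : ℝ) ^ (2 * ε) ≤ (X ^ (1 / 100 : ℝ)) ^ (2 * ε) :=
                              Real.rpow_le_rpow hd0.le hdX (by (clear * - hεpos; linarith))
                          _ = X ^ (2 * ε / 100) := by rw [← Real.rpow_mul hX0.le]; ring_nf
                calc |lam d| * ‖(d : ℂ) ^ (-s)‖ * ‖f d‖
                    ≤ 1 * (X ^ (2 * ε / 100) * (d : ℝ) ^ (-(1 + ε))) * R := by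
                      refine mul_le_mul ?_ (hf d hd') (norm_nonneg _) (by (clear * - hX2 hd0; positivity))
                      exact mul_le_mul (hSW.abs_le d) h1 (norm_nonneg _) (by norm_num)
                  _ = _ := by ring
              calc ‖∑ d ∈ Icc 1 D, (lam d : ℂ) * (d : ℂ) ^ (-s) * f d‖
                  ≤ ∑ d ∈ Icc 1 D, X ^ (2 * ε / 100) * R * (d : ℝ) ^ (-(1 + ε)) := norm_sum_le_of_le _ hd1
                _ = X ^ (2 * ε / 100) * R * ∑ d ∈ Icc 1 D, (d : ℝ) ^ (-(1 + ε)) := by rw [Finset.mul_sum]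
                _ ≤ X ^ (2 * ε / 100) * R * Z := by
                    refine mul_le_mul_of_nonneg_left ?_ (by (clear * - hX2 hR; positivity))
                    rw [hZ]
                    exact hZsum.sum_le_tsum _ fun m _ => Real.rpow_nonneg (Nat.cast_nonneg m) _
                _ = _ := by ring
            rcases le_total |s.im| (X ^ (1 / 200 : ℝ)) with hsm | hlg
            · -- small ordinates
              have hs1' : s ≠ 1 := fun h => him (by rw [h]; simp)
              exact by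
                have hs9 : 9 / 10 ≤ s.re := by (clear * - hε3 hs1; linarith)
                have hnorm : 1 + ‖s‖ ≤ 3 * X ^ (1 / 200 : ℝ) := by
                  have h1 := Complex.norm_le_abs_re_add_abs_im s
                  have h2 : |s.re| ≤ 1 := abs_le.2 ⟨by (clear * - hε3 hcpos hc2 hs1; linarith), hs2⟩
                  have h3 : 1 ≤ X ^ (1 / 200 : ℝ) := Real.one_le_rpow hX1.le (by norm_num)
                  (clear * - hsm h1 h2 h3; linarith)
                set f : ℕ → ℂ := fun d => ∑ m ∈ Icc 1 ⌊X⌋₊, (trap X ((d : ℝ) * m) : ℂ) * (m : ℂ) ^ (-s) with hf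
                have hsplit : ∑ d ∈ Icc 1 D, (lam d : ℂ) * (d : ℂ) ^ (-s) * f d =
                    Itr X s * ((∑ d ∈ Icc 1 D, lam d / d : ℝ) : ℂ) +
                    ∑ d ∈ Icc 1 D, (lam d : ℂ) * (d : ℂ) ^ (-s) * (f d - (d : ℂ) ^ (s - 1) * Itr X s) := by
                  push_cast
                  rw [Finset.mul_sum, ← Finset.sum_add_distrib]
                  refine Finset.sum_congr rfl fun d hd => ?_
                  rw [mem_Icc] at hd
                  have hd0 : (d : ℂ) ≠ 0 := by exact_mod_cast (by omega : d ≠ 0)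
                  have h1 : (d : ℂ) ^ (-s) * (d : ℂ) ^ (s - 1) = 1 / d := by
                    rw [← Complex.cpow_add _ _ hd0]
                    have : -s + (s - 1) = -1 := by ring
                    rw [this, Complex.cpow_neg_one, one_div]
                  have h2 : (lam d : ℂ) * (d : ℂ) ^ (-s) * ((d : ℂ) ^ (s - 1) * Itr X s)
                      = Itr X s * ((lam d : ℂ) / d) := by
                    calc _ = (lam d : ℂ) * ((d : ℂ) ^ (-s) * (d : ℂ) ^ (s - 1)) * Itr X s := by ring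
                      _ = _ := by rw [h1]; ring
                  rw [mul_sub, h2]; ring
                have herr := hdsum (C8 * (3 * X ^ (1 / 200 : ℝ)) * X ^ (-(1 / 100) : ℝ)) (by (clear * - hC8 hX2; positivity))
                  (fun d => f d - (d : ℂ) ^ (s - 1) * Itr X s) (by
                    intro d hd
                    rw [mem_Icc] at hd
                    have hdX : (d : ℝ) ≤ X ^ (1 / 100 : ℝ) := by
                      have : (d : ℝ) ≤ D := by exact_mod_cast hd.2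
                      exact this.trans hDX
                    refine (H8 X hX8 d hd.1 hdX s hs9 hs2 hs1').trans ?_
                    refine mul_le_mul_of_nonneg_right ?_ (Real.rpow_nonneg hX0.le _)
                    exact mul_le_mul_of_nonneg_left hnorm hC8.le)
                have hmain : ‖Itr X s * ((∑ d ∈ Icc 1 D, lam d / d : ℝ) : ℂ)‖ ≤
                    120 * C * X ^ ((1 - s.re) / 4) / (Real.log w * Real.log X * s.im ^ 2) := by
                  rw [norm_mul, Complex.norm_real, Real.norm_eq_abs]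
                  calc ‖Itr X s‖ * |∑ d ∈ Icc 1 D, lam d / d|
                      ≤ 120 * X ^ ((1 - s.re) / 4) / (Real.log X * s.im ^ 2) * (C / Real.log w) :=
                        mul_le_mul (itr_bound hX1 hs2 him) hSW.mean (abs_nonneg _) (by (clear * - hX2 hLpos him; positivity))
                    _ = _ := by
                        have : s.im ^ 2 ≠ 0 := by (clear * - him; positivity)
                        (clear * - hlogw hC him hLpos hX2; field_simp)
                exact by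
                  have hsmall : X ^ (2 * ε / 100) * Z * (C8 * (3 * X ^ (1 / 200 : ℝ)) * X ^ (-(1 / 100) : ℝ))
                      ≤ X ^ (-c) := by
                    have h1 : X ^ (2 * ε / 100) * X ^ (1 / 200 : ℝ) * X ^ (-(1 / 100) : ℝ) ≤ X ^ (-(2 * c)) := by
                      rw [← Real.rpow_add hX0, ← Real.rpow_add hX0]
                      exact Real.rpow_le_rpow_of_exponent_le hX1.le (by (clear * - hε3 hcpos hc2; linarith))
                    have h2 : 3 * C8 * Z ≤ X ^ c := by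
                      refine le_trans ?_ hKc
                      rw [hK0]; (clear * - hZ0 hcpos hc2; nlinarith)
                    calc X ^ (2 * ε / 100) * Z * (C8 * (3 * X ^ (1 / 200 : ℝ)) * X ^ (-(1 / 100) : ℝ))
                        = (3 * C8 * Z) * (X ^ (2 * ε / 100) * X ^ (1 / 200 : ℝ) * X ^ (-(1 / 100) : ℝ)) := by ring
                      _ ≤ X ^ c * X ^ (-(2 * c)) := mul_le_mul h2 h1 (by positivity) (by positivity)
                      _ = X ^ (-c) := by rw [← Real.rpow_add hX0]; ring_nf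
                  calc ‖∑ d ∈ Icc 1 D, (lam d : ℂ) * (d : ℂ) ^ (-s) * f d‖
                      = ‖Itr X s * ((∑ d ∈ Icc 1 D, lam d / d : ℝ) : ℂ) +
                      ∑ d ∈ Icc 1 D, (lam d : ℂ) * (d : ℂ) ^ (-s) * (f d - (d : ℂ) ^ (s - 1) * Itr X s)‖ := by
                        rw [hsplit]
                    _ ≤ _ := norm_add_le _ _
                    _ ≤ 120 * C * X ^ ((1 - s.re) / 4) / (Real.log w * Real.log X * s.im ^ 2) + X ^ (-c) :=
                        add_le_add hmain (herr.trans hsmall)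
            · -- large ordinates
              have herr := hdsum (X ^ (-c9)) (by positivity)
                (fun d => ∑ m ∈ Icc 1 ⌊X⌋₊, (trap X ((d : ℝ) * m) : ℂ) * (m : ℂ) ^ (-s)) (by
                  intro d hd
                  rw [mem_Icc] at hd
                  have hdX : (d : ℝ) ≤ X ^ (1 / 100 : ℝ) := by
                    have : (d : ℝ) ≤ D := by exact_mod_cast hd.2
                    exact this.trans hDX
                  exact H9 X hX9 d hd.1 hdX s (by (clear * - hε1 hs1; linarith)) hs2 hlg him2)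
              exact by
                have hsmall : X ^ (2 * ε / 100) * Z * X ^ (-c9) ≤ X ^ (-c) := by
                  have h1 : X ^ (2 * ε / 100) * X ^ (-c9) ≤ X ^ (-(2 * c)) := by
                    rw [← Real.rpow_add hX0]
                    exact Real.rpow_le_rpow_of_exponent_le hX1.le (by (clear * - hε2 hcpos hc1; linarith))
                  have h2 : Z ≤ X ^ c := by
                    refine le_trans ?_ hKc
                    rw [hK0]; (clear * - hcpos hc2 hC8 hZ0; nlinarith)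
                  calc X ^ (2 * ε / 100) * Z * X ^ (-c9) = Z * (X ^ (2 * ε / 100) * X ^ (-c9)) := by ring
                    _ ≤ X ^ c * X ^ (-(2 * c)) := mul_le_mul h2 h1 (by (clear * - hX2; positivity)) (by positivity)
                    _ = X ^ (-c) := by rw [← Real.rpow_add hX0]; ring_nf
                have hmain0 : 0 ≤ 120 * C * X ^ ((1 - s.re) / 4) / (Real.log w * Real.log X * s.im ^ 2) := by
                  (clear * - hC hX2 hlogw hLpos him; positivity)
                have := herr.trans hsmall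
                (clear * - herr hsmall hmain0; linarith)

end Pool.Agent.M20.Helper7.KSZ
end

/- Helper53.KN.Helper7.KSZ.N9 -/
section
/-!
Project KSZ, N9: the inner sum of the kernel for large ordinates.
-/

set_option autoImplicit false

open Finset MeasureTheory

namespace Pool.Agent.M20.Helper7.KSZ

open Pool.Agent.M20.Helper18.KSZ

/-- Abel summation -/
theorem abel_sum (w : ℕ → ℂ) (a : ℕ → ℂ) (M0 n : ℕ) (h : M0 ≤ n) :
    ∑ m ∈ Ioc M0 n, w m * a m = w n * (∑ m ∈ Ioc M0 n, a m)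
      - ∑ k ∈ Ico M0 n, (w (k + 1) - w k) * (∑ m ∈ Ioc M0 k, a m) := by
  induction n, h using Nat.le_induction with
  | base => simp
  | succ n hn ih =>
    rw [Finset.sum_Ioc_succ_top hn, Finset.sum_Ioc_succ_top hn, Finset.sum_Ico_succ_top hn, ih]
    ring

theorem innerLarge (h : ExpSum) : InnerLarge := by
  obtain ⟨c, ε, X0, hc, hε, H⟩ := h
  set c' := min c (3 / 400) / 2 with hc'
  have hc'pos : 0 < c' := by
    have : 0 < min c (3 / 400) := lt_min hc (by norm_num)
    (clear * - hc' this; linarith)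
  have hc1 : 2 * c' ≤ c := by
    have : min c (3 / 400) ≤ c := min_le_left _ _
    linarith
  have hc2 : 2 * c' ≤ 3 / 400 := by
    have : min c (3 / 400) ≤ 3 / 400 := min_le_right _ _
    linarith
  refine ⟨c', min ε (1 / 2), max (max X0 2) ((42 : ℝ) ^ (1 / c')), hc'pos,
    lt_min hε (by norm_num), fun X hX d hd hdX s hs1 hs2 ht1 ht2 => ?_⟩
  have hXX0 : X0 ≤ X := (le_max_left _ _).trans ((le_max_left _ _).trans hX)
  have hX2 : 2 ≤ X := (le_max_right _ _).trans ((le_max_left _ _).trans hX)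
  have hX42 : (42 : ℝ) ^ (1 / c') ≤ X := (le_max_right _ _).trans hX
  have hX1 : 1 < X := by (clear * - hc'pos hc2 hX2; linarith)
  have hX0 : 0 < X := by (clear * - hc'pos hc2 hX2; linarith)
  set L := Real.log X with hLdef
  have hLpos : 0 < L := Real.log_pos hX1
  have hd0 : (0 : ℝ) < d := by exact_mod_cast hd
  have hre : 1 / 2 ≤ s.re := by
    have : min ε (1 / 2) ≤ 1 / 2 := min_le_right _ _
    (clear * - hs1 this; linarith)
  have hreε : 1 - ε ≤ s.re := by
    have : min ε (1 / 2) ≤ ε := min_le_left _ _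
    (clear * - hs1 this; linarith)
  set M := ⌊X⌋₊ with hM
  set M0 := ⌈X ^ (3 / 200 : ℝ)⌉₊ with hM0
  have hM0X : X ^ (3 / 200 : ℝ) ≤ M0 := Nat.le_ceil _
  have hP1 : 1 ≤ X ^ (3 / 200 : ℝ) := Real.one_le_rpow hX1.le (by norm_num)
  have hM01 : 1 ≤ M0 := by
    have : (1 : ℝ) ≤ M0 := hP1.trans hM0X
    exact_mod_cast this
  have hM0M : M0 ≤ M := by
    rw [hM, Nat.le_floor_iff hX0.le]
    have h1 : (M0 : ℝ) < X ^ (3 / 200 : ℝ) + 1 := Nat.ceil_lt_add_one (by positivity)
    -- X ^ (3/200) + 1 ≤ X since X ≥ 42 ^ (1 / c')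
    have h42 : (42 : ℝ) ≤ X := by
      have h2 : (42 : ℝ) ^ (1 : ℝ) ≤ (42 : ℝ) ^ (1 / c') := by
        apply Real.rpow_le_rpow_of_exponent_le (by norm_num)
        rw [le_div_iff₀ hc'pos]; (clear * - hc'pos hc2; linarith)
      rw [Real.rpow_one] at h2
      exact h2.trans hX42
    have h3 : X ^ (3 / 200 : ℝ) ≤ X ^ (1 / 2 : ℝ) :=
      Real.rpow_le_rpow_of_exponent_le hX1.le (by norm_num)
    have h4 : X ^ (1 / 2 : ℝ) * X ^ (1 / 2 : ℝ) = X := by
      rw [← Real.rpow_add hX0]; norm_num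
    have h5 : 2 ≤ X ^ (1 / 2 : ℝ) := by
      by_contra hcon
      push Not at hcon
      have h6 : 0 ≤ X ^ (1 / 2 : ℝ) := by positivity
      have h7 := mul_le_mul hcon.le hcon.le h6 zero_le_two
      (clear * - h42 h4 h7; linarith)
    have h8 := mul_le_mul_of_nonneg_right h5 (zero_le_two.trans h5)
    (clear * - h3 h4 h5 h1 h8; linarith)
  have hMX : (M : ℝ) ≤ X := Nat.floor_le hX0.le
  -- vanishing for small m
  have hz : ∀ m : ℕ, 1 ≤ m → m < M0 → trap X ((d : ℝ) * m) = 0 := by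
    intro m hm1 hm
    have hm0 : (0 : ℝ) < m := by exact_mod_cast hm1
    have hmX : (m : ℝ) ≤ X ^ (3 / 200 : ℝ) := (Nat.lt_ceil.1 hm).le
    apply trap_zero
    rw [← hLdef, div_le_iff₀ hLpos]
    have h1 : (d : ℝ) * m ≤ X ^ (1 / 40 : ℝ) := by
      calc (d : ℝ) * m ≤ X ^ (1 / 100 : ℝ) * X ^ (3 / 200 : ℝ) :=
            mul_le_mul hdX hmX hm0.le (Real.rpow_nonneg hX0.le _)
        _ = X ^ (1 / 40 : ℝ) := by rw [← Real.rpow_add hX0]; norm_num
    calc Real.log ((d : ℝ) * m) ≤ Real.log (X ^ (1 / 40 : ℝ)) :=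
          Real.log_le_log (by positivity) h1
      _ = 1 / 40 * L := by rw [Real.log_rpow hX0]
  set w : ℕ → ℂ := fun m => (trap X ((d : ℝ) * m) : ℂ) with hw
  set a : ℕ → ℂ := fun m => (m : ℂ) ^ (-s) with ha
  have hwle : ∀ m, ‖w m‖ ≤ 1 := by
    intro m
    simp only [hw]
    rw [Complex.norm_real, Real.norm_of_nonneg (trap_nonneg _ _)]
    exact trap_le_one _ _
  -- splitting
  have hsplit : ∑ m ∈ Icc 1 M, w m * a m = w M0 * a M0 + ∑ m ∈ Ioc M0 M, w m * a m := by
    have e1 : Icc 1 M = Ico 1 M0 ∪ Icc M0 M := by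
      ext k; simp only [mem_Icc, mem_union, mem_Ico]; omega
    have e2 : Icc M0 M = insert M0 (Ioc M0 M) := by
      ext k; simp only [mem_Icc, mem_insert, mem_Ioc]; omega
    rw [e1, Finset.sum_union, e2, Finset.sum_insert (by simp)]
    · have e3 : ∑ m ∈ Ico 1 M0, w m * a m = 0 := by
        refine Finset.sum_eq_zero fun m hm => ?_
        rw [mem_Ico] at hm
        simp only [hw]
        rw [hz m hm.1 hm.2]; simp
      rw [e3, zero_add]
    · rw [Finset.disjoint_left]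
      intro k hk hk'
      rw [mem_Ico] at hk
      rw [mem_Icc] at hk'
      omega
  -- partial sums
  have hA : ∀ k, M0 ≤ k → k ≤ M → ‖∑ m ∈ Ioc M0 k, a m‖ ≤ X ^ (-c) := by
    intro k hk1 hk2
    have h1 := H X hXX0 s.im ht1 ht2 M0 k hM0X hk1 ?_ s.re hreε hs2
    · rw [Complex.re_add_im] at h1
      exact h1
    · clear * - hk2 hMX hX1
      calc (k : ℝ) ≤ M := by exact_mod_cast hk2
        _ ≤ X := hMX
        _ = X ^ (1 : ℝ) := (Real.rpow_one X).symm
        _ ≤ X ^ (4 : ℝ) := Real.rpow_le_rpow_of_exponent_le hX1.le (by norm_num)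
  have hXc : 0 < X ^ (-c) := Real.rpow_pos_of_pos hX0 _
  have hmain : ‖∑ m ∈ Ioc M0 M, w m * a m‖ ≤ 41 * X ^ (-c) := by
    rw [abel_sum w a M0 M hM0M]
    refine (norm_sub_le _ _).trans ?_
    have h1 : ‖w M * ∑ m ∈ Ioc M0 M, a m‖ ≤ 1 * X ^ (-c) := by
      rw [norm_mul]
      exact mul_le_mul (hwle M) (hA M hM0M le_rfl) (norm_nonneg _) (by norm_num)
    have h2 : ‖∑ k ∈ Ico M0 M, (w (k + 1) - w k) * ∑ m ∈ Ioc M0 k, a m‖ ≤ 40 * X ^ (-c) := by
      calc ‖∑ k ∈ Ico M0 M, (w (k + 1) - w k) * ∑ m ∈ Ioc M0 k, a m‖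
          ≤ ∑ k ∈ Ico M0 M, 40 / L * (Real.log ((k + 1 : ℕ) : ℝ) - Real.log (k : ℝ)) * X ^ (-c) := by
            refine norm_sum_le_of_le _ fun k hk => ?_
            rw [mem_Ico] at hk
            have hk0 : (0 : ℝ) < k := by
              have : 1 ≤ k := hM01.trans hk.1
              exact_mod_cast this
            have hk1 : (0 : ℝ) < ((k + 1 : ℕ) : ℝ) := by positivity
            rw [norm_mul]
            refine mul_le_mul ?_ (hA k hk.1 hk.2.le) (norm_nonneg _) ?_
            · simp only [hw]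
              rw [← Complex.ofReal_sub, Complex.norm_real, Real.norm_eq_abs]
              refine (trap_lip hLpos).trans_eq ?_
              rw [Real.log_mul hd0.ne' hk1.ne', Real.log_mul hd0.ne' hk0.ne', ← hLdef]
              congr 1
              rw [add_sub_add_left_eq_sub, abs_of_nonneg]
              rw [sub_nonneg]
              exact Real.log_le_log hk0 (by push_cast; (clear * - hc'pos hc2; linarith))
            · clear * - hLpos hk0 hc'pos hc2; refine mul_nonneg (by positivity) ?_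
              rw [sub_nonneg]
              exact Real.log_le_log hk0 (by push_cast; (clear * - hc'pos hc2; linarith))
        _ = 40 / L * (Real.log (M : ℝ) - Real.log (M0 : ℝ)) * X ^ (-c) := by
            clear * - hM0M; rw [← Finset.sum_mul, ← Finset.mul_sum]
            congr 2
            exact Finset.sum_Ico_sub (fun k : ℕ => Real.log (k : ℝ)) hM0M
        _ ≤ 40 * X ^ (-c) := by
            refine mul_le_mul_of_nonneg_right ?_ hXc.le
            have h3 : Real.log (M : ℝ) ≤ L :=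
              Real.log_le_log (by exact_mod_cast hM01.trans hM0M) hMX
            have h4 : 0 ≤ Real.log (M0 : ℝ) := Real.log_nonneg (by exact_mod_cast hM01)
            calc 40 / L * (Real.log (M : ℝ) - Real.log (M0 : ℝ)) ≤ 40 / L * L :=
                  mul_le_mul_of_nonneg_left (by (clear * - h3 h4; linarith)) (by positivity)
              _ = 40 := by field_simp
    (clear * - h1 h2; linarith)
  have hfirst : ‖w M0 * a M0‖ ≤ X ^ (-(2 * c')) := by
    rw [norm_mul]
    have h1 : ‖a M0‖ ≤ X ^ (-(2 * c')) := by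
      have hM0pos : (0 : ℝ) < M0 := by exact_mod_cast hM01
      have h2 : a M0 = ((M0 : ℝ) : ℂ) ^ (-s) := by simp [ha]
      rw [h2, Complex.norm_cpow_eq_rpow_re_of_pos hM0pos, Complex.neg_re]
      calc (M0 : ℝ) ^ (-s.re) ≤ (M0 : ℝ) ^ (-(1 / 2) : ℝ) :=
            Real.rpow_le_rpow_of_exponent_le (by exact_mod_cast hM01) (by (clear * - hre; linarith))
        _ ≤ (X ^ (3 / 200 : ℝ)) ^ (-(1 / 2) : ℝ) :=
            Real.rpow_le_rpow_of_nonpos (by positivity) hM0X (by norm_num)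
        _ = X ^ (-(3 / 400) : ℝ) := by rw [← Real.rpow_mul hX0.le]; norm_num
        _ ≤ X ^ (-(2 * c')) := Real.rpow_le_rpow_of_exponent_le hX1.le (by (clear * - hc2; linarith))
    calc ‖w M0‖ * ‖a M0‖ ≤ 1 * X ^ (-(2 * c')) :=
          mul_le_mul (hwle M0) h1 (norm_nonneg _) (by norm_num)
      _ = _ := one_mul _
  have hXc2 : X ^ (-c) ≤ X ^ (-(2 * c')) :=
    Real.rpow_le_rpow_of_exponent_le hX1.le (by (clear * - hc1; linarith))
  have h42 : 42 * X ^ (-(2 * c')) ≤ X ^ (-c') := by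
    have h1 : (42 : ℝ) ≤ X ^ c' := by
      calc (42 : ℝ) = ((42 : ℝ) ^ (1 / c')) ^ c' := by
            rw [← Real.rpow_mul (by norm_num), one_div, inv_mul_cancel₀ hc'pos.ne', Real.rpow_one]
        _ ≤ X ^ c' := Real.rpow_le_rpow (by positivity) hX42 hc'pos.le
    calc 42 * X ^ (-(2 * c')) ≤ X ^ c' * X ^ (-(2 * c')) :=
          mul_le_mul_of_nonneg_right h1 (Real.rpow_nonneg hX0.le _)
      _ = X ^ (-c') := by rw [← Real.rpow_add hX0]; ring_nf
  have hgoal : ∑ m ∈ Icc 1 M, (trap X ((d : ℝ) * m) : ℂ) * (m : ℂ) ^ (-s)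
      = w M0 * a M0 + ∑ m ∈ Ioc M0 M, w m * a m := hsplit
  rw [hgoal]
  calc ‖w M0 * a M0 + ∑ m ∈ Ioc M0 M, w m * a m‖
      ≤ ‖w M0 * a M0‖ + ‖∑ m ∈ Ioc M0 M, w m * a m‖ := norm_add_le _ _
    _ ≤ X ^ (-(2 * c')) + 41 * X ^ (-c) := add_le_add hfirst hmain
    _ ≤ 42 * X ^ (-(2 * c')) := by (clear * - hXc2; linarith)
    _ ≤ X ^ (-c') := h42

end Pool.Agent.M20.Helper7.KSZ
end

/- Helper53.KN.Helper73.KSZ.N6 -/
section
/-! KSZ-N6: partial sums of zeta at a zero near the line 1. -/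

set_option autoImplicit false
open Filter Topology Complex

namespace Pool.Agent.M20.Helper73.KSZ

open Pool.Agent.M20.Helper69.QRH Pool.Agent.M20.Helper18.KSZ

/-- telescoping -/
lemma sum_TT (s : ℂ) (N : ℕ) : ∑ n ∈ Finset.range N, TT n s =
    (s - 1) * (∑ n ∈ Finset.Icc 1 N, (n : ℂ) ^ (-s)) + (((N : ℂ) + 1) ^ (1 - s) - 1) := by
  induction N with
  | zero => simp
  | succ N ih =>
    rw [Finset.sum_range_succ, Finset.sum_Icc_succ_top (by omega), ih]
    unfold TT
    push_cast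
    have h1 : (N : ℂ) + 1 + 1 = N + 2 := by ring
    rw [h1]
    ring

/-- tail of the power series -/
lemma tsum_tail_le {σ : ℝ} (hσ : 0 < σ) {N : ℕ} (hN : 1 ≤ N) :
    ∑' n : ℕ, (((n + N : ℕ) : ℝ) + 1) ^ (-σ - 1) ≤ (N : ℝ) ^ (-σ) / σ := by
  have hN0 : (0 : ℝ) < N := by exact_mod_cast hN
  have hnn : ∀ n : ℕ, 0 ≤ (((n + N : ℕ) : ℝ) + 1) ^ (-σ - 1) := fun n =>
    Real.rpow_nonneg (by (clear * - hN; positivity)) _
  refine Real.tsum_le_of_sum_range_le hnn fun K => ?_
  -- mean value: x^{-σ-1} σ ≤ (x-1)^{-σ} - x^{-σ}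
  have key : ∀ m : ℕ, 1 ≤ m → (((m : ℕ) : ℝ) + 1) ^ (-σ - 1) ≤
      ((m : ℝ) ^ (-σ) - ((m : ℝ) + 1) ^ (-σ)) / σ := by
    intro m hm
    have hm0 : (0 : ℝ) < m := by exact_mod_cast hm
    rw [le_div_iff₀ hσ]
    obtain ⟨c, hc, hc'⟩ := exists_hasDerivAt_eq_slope (fun y : ℝ => y ^ (-σ))
      (fun y : ℝ => -σ * y ^ (-σ - 1)) (show (m : ℝ) < m + 1 by (clear * -; linarith))
      (by
        intro y hy
        exact (Real.continuousAt_rpow_const _ _ (Or.inl (by
          have := hy.1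
          (clear * - hm0 this; linarith)))).continuousWithinAt)
      (by
        intro y hy
        have hy0 : y ≠ 0 := by
          have := hy.1
          (clear * - hm0 this; linarith)
        simpa using Real.hasDerivAt_rpow_const (p := -σ) (Or.inl hy0))
    have h1 : (m : ℝ) + 1 - m = 1 := by ring
    rw [h1, div_one] at hc'
    have h2 : ((m : ℝ) + 1) ^ (-σ - 1) ≤ c ^ (-σ - 1) :=
      Real.rpow_le_rpow_of_nonpos (by (clear * - hm0 hc; linarith [hc.1])) hc.2.le (by (clear * - hσ; linarith))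
    have h9 := mul_le_mul_of_nonneg_left h2 hσ.le
    (clear * - hc' h9; linarith)
  calc ∑ n ∈ Finset.range K, (((n + N : ℕ) : ℝ) + 1) ^ (-σ - 1)
      ≤ ∑ n ∈ Finset.range K, ((((n + N : ℕ) : ℝ) ^ (-σ) - (((n + 1 + N : ℕ) : ℝ)) ^ (-σ)) / σ) := by
        refine Finset.sum_le_sum fun n _ => ?_
        have := key (n + N) (by omega)
        have h3 : (((n + 1 + N : ℕ) : ℝ)) = ((n + N : ℕ) : ℝ) + 1 := by push_cast; ring
        rw [h3]
        exact this
    _ = (((0 + N : ℕ) : ℝ) ^ (-σ) - (((K + N : ℕ) : ℝ)) ^ (-σ)) / σ := by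
        rw [← Finset.sum_div, Finset.sum_range_sub' (fun n : ℕ => (((n + N : ℕ) : ℝ)) ^ (-σ))]
    _ ≤ (N : ℝ) ^ (-σ) / σ := by
        rw [Nat.zero_add]
        refine div_le_div_of_nonneg_right ?_ hσ.le
        have : 0 ≤ (((K + N : ℕ) : ℝ)) ^ (-σ) := Real.rpow_nonneg (by (clear * - hN; positivity)) _
        (clear * - this; linarith)

/-- approximation of zeta by partial sums, multiplied by `s - 1` -/
lemma EZ_approx {s : ℂ} (hs : 1 / 4 < s.re) {N : ℕ} (hN : 1 ≤ N) :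
    ‖EZ s - ((s - 1) * (∑ n ∈ Finset.Icc 1 N, (n : ℂ) ^ (-s)) + ((N : ℂ) + 1) ^ (1 - s))‖ ≤
      ‖s - 1‖ * ‖s‖ * ((N : ℝ) ^ (-s.re) / s.re) := by
  have hs0 : 0 < s.re := by (clear * - hs; linarith)
  have hS : Summable (fun n : ℕ => TT n s) := by
    refine Summable.of_norm_bounded
      ((summable_rpow_aux (r := -s.re - 1) (by (clear * - hs0; linarith))).mul_left (‖s - 1‖ * ‖s‖)) fun n => ?_
    exact TT_bound n hs0
  have h1 : EZ s - ((s - 1) * (∑ n ∈ Finset.Icc 1 N, (n : ℂ) ^ (-s)) + ((N : ℂ) + 1) ^ (1 - s)) =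
      ∑' n : ℕ, TT (n + N) s := by
    rw [EZ_eq_tsum hs, ← hS.sum_add_tsum_nat_add N, sum_TT]
    ring
  rw [h1]
  have hsum : Summable (fun n : ℕ => (((n + N : ℕ) : ℝ) + 1) ^ (-s.re - 1)) :=
    (summable_nat_add_iff (f := fun n : ℕ => ((n : ℝ) + 1) ^ (-s.re - 1)) N).2
      (summable_rpow_aux (r := -s.re - 1) (by linarith))
  refine (tsum_of_norm_bounded (hsum.mul_left (‖s - 1‖ * ‖s‖)).hasSum fun n => ?_).trans ?_
  · exact TT_bound (n + N) hs0
  · rw [tsum_mul_left]
    exact mul_le_mul_of_nonneg_left (tsum_tail_le hs0 hN) (by positivity)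

/-- partial sums at a zero -/
lemma partial_sum_zero {ρ : ℂ} (h0 : riemannZeta ρ = 0) (hs : 1 / 4 < ρ.re) {N : ℕ} (hN : 1 ≤ N) :
    ‖∑ n ∈ Finset.Icc 1 N, (n : ℂ) ^ (-ρ)‖ ≤
      ((N : ℝ) + 1) ^ (1 - ρ.re) / ‖ρ - 1‖ + ‖ρ‖ * ((N : ℝ) ^ (-ρ.re) / ρ.re) := by
  have h1 : ρ ≠ 1 := by
    rintro rfl
    exact riemannZeta_ne_zero_of_one_le_re (by simp) h0
  have h2 : 0 < ‖ρ - 1‖ := norm_pos_iff.2 (sub_ne_zero.2 h1)
  have hE : EZ ρ = 0 := by rw [EZ_eq h1, h0, mul_zero]
  have h3 := EZ_approx hs hN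
  rw [hE, zero_sub, norm_neg] at h3
  have h4 : ‖((N : ℂ) + 1) ^ (1 - ρ)‖ = ((N : ℝ) + 1) ^ (1 - ρ.re) := by
    have h5 : ((N : ℂ) + 1) = (((N : ℝ) + 1 : ℝ) : ℂ) := by push_cast; ring
    rw [h5, Complex.norm_cpow_eq_rpow_re_of_pos (by (clear * - hN; positivity))]
    simp
  have h5 : ‖ρ - 1‖ * ‖∑ n ∈ Finset.Icc 1 N, (n : ℂ) ^ (-ρ)‖ ≤
      ((N : ℝ) + 1) ^ (1 - ρ.re) + ‖ρ - 1‖ * ‖ρ‖ * ((N : ℝ) ^ (-ρ.re) / ρ.re) := by
    rw [← norm_mul, ← h4]
    have h6 : (ρ - 1) * ∑ n ∈ Finset.Icc 1 N, (n : ℂ) ^ (-ρ) =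
        ((ρ - 1) * (∑ n ∈ Finset.Icc 1 N, (n : ℂ) ^ (-ρ)) + ((N : ℂ) + 1) ^ (1 - ρ)) -
          ((N : ℂ) + 1) ^ (1 - ρ) := by ring
    rw [h6]
    refine (norm_sub_le _ _).trans ?_
    (clear * - h3; linarith)
  rw [← le_div_iff₀' h2] at h5
  refine h5.trans (le_of_eq ?_)
  (clear * - hs h2 hN; field_simp)

theorem zeroSum (h : ExpSum) : ZeroSum := by
  obtain ⟨c, ε, X0, hc, hε, hX⟩ := h
  set ε' : ℝ := min ε (1 / 20) with hε'
  have hε'0 : 0 < ε' := lt_min hε (by norm_num)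
  set c' : ℝ := min c (1 / 10) / 2 with hc'
  have hc'0 : 0 < c' := by
    rw [hc']
    have : 0 < min c (1 / 10) := lt_min hc (by norm_num)
    (clear * - this; linarith)
  -- threshold: X^{c'} ≥ 6
  obtain ⟨X1, hX1⟩ : ∃ X1 : ℝ, ∀ X : ℝ, X1 ≤ X → 6 ≤ X ^ c' := by
    have := (tendsto_rpow_atTop hc'0).eventually_ge_atTop 6
    exact this.exists_forall_of_atTop
  refine ⟨c', ε', max (max X0 X1) 2, hc'0, hε'0, fun X hXX ρ hρ hre him1 him2 M hM1 hM2 => ?_⟩
  have hX0 : X0 ≤ X := (le_max_left _ _).trans ((le_max_left _ _).trans hXX)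
  have hX1' : X1 ≤ X := (le_max_right _ _).trans ((le_max_left _ _).trans hXX)
  have hX2 : 2 ≤ X := (le_max_right _ _).trans hXX
  have hXpos : 0 < X := by (clear * - hX2; linarith)
  have hX1le : 1 ≤ X := by (clear * - hX2; linarith)
  have hre1 : ρ.re ≤ 1 := by
    by_contra hcon
    push Not at hcon
    exact riemannZeta_ne_zero_of_one_le_re hcon.le hρ
  have hre19 : 19 / 20 ≤ ρ.re := by
    have : ε' ≤ 1 / 20 := min_le_right _ _
    (clear * - hre this; linarith)
  set N : ℕ := ⌊X ^ (2 : ℝ)⌋₊ with hN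
  have hX2X : X ≤ X ^ (2 : ℝ) := by
    nth_rw 1 [← Real.rpow_one X]
    exact Real.rpow_le_rpow_of_exponent_le hX1le (by norm_num)
  have hNle : (N : ℝ) ≤ X ^ (2 : ℝ) := Nat.floor_le (by positivity)
  have hNge : X ^ (2 : ℝ) / 2 ≤ N := by
    have h1 := Nat.lt_floor_add_one (X ^ (2 : ℝ))
    rw [← hN] at h1
    have : (2 : ℝ) ≤ X ^ (2 : ℝ) := hX2.trans hX2X
    (clear * - hX2 hX2X h1; linarith)
  have hMN : M ≤ N := by
    refine Nat.le_floor ?_
    exact hM2.trans hX2X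
  have hNpos : (0 : ℝ) < N := by
    refine lt_of_lt_of_le ?_ hNge
    positivity
  have hN1 : 1 ≤ N := by exact_mod_cast hNpos
  -- the long sum
  have hlong := partial_sum_zero hρ (by (clear * - hre19; linarith)) hN1
  have hshort := hX X hX0 ρ.im ((Real.rpow_le_rpow_of_exponent_le hX1le (by norm_num)).trans him1)
    (him2.trans (Real.rpow_le_rpow_of_exponent_le hX1le (by norm_num))) M N
    ((Real.rpow_le_rpow_of_exponent_le hX1le (by norm_num)).trans hM1) hMN
    (hNle.trans (Real.rpow_le_rpow_of_exponent_le hX1le (by norm_num))) ρ.re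
    (by
      have : ε' ≤ ε := min_le_left _ _
      (clear * - hre this; linarith)) hre1
  rw [Complex.re_add_im] at hshort
  have hsplit : ∑ n ∈ Finset.Icc 1 M, (n : ℂ) ^ (-ρ) =
      ∑ n ∈ Finset.Icc 1 N, (n : ℂ) ^ (-ρ) - ∑ n ∈ Finset.Ioc M N, (n : ℂ) ^ (-ρ) := by
    have h1 : Finset.Icc 1 M = Finset.Ioc 0 M := rfl
    have h2 : Finset.Icc 1 N = Finset.Ioc 0 N := rfl
    rw [h1, h2, ← Finset.sum_Ioc_consecutive _ (Nat.zero_le M) hMN]
    ring
  rw [hsplit]
  refine (norm_sub_le _ _).trans ?_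
  have hnorm1 : X ^ (3 / 10 : ℝ) ≤ ‖ρ - 1‖ := by
    refine him1.trans ?_
    have := Complex.abs_im_le_norm (ρ - 1)
    simpa using this
  have hnorm2 : ‖ρ‖ ≤ 2 * X ^ (6 / 10 : ℝ) := by
    refine (Complex.norm_le_abs_re_add_abs_im ρ).trans ?_
    have h1 : |ρ.re| ≤ 1 := by rw [abs_le]; constructor <;> (clear * - hre19 hre1; linarith)
    have h2 : 1 ≤ X ^ (6 / 10 : ℝ) := Real.one_le_rpow hX1le (by norm_num)
    (clear * - him2 h1 h2; linarith)
  -- first term
  have hA : ((N : ℝ) + 1) ^ (1 - ρ.re) / ‖ρ - 1‖ ≤ 2 * X ^ (-(1 / 5) : ℝ) := by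
    have h1 : ((N : ℝ) + 1) ^ (1 - ρ.re) ≤ (2 * X ^ (2 : ℝ)) ^ (1 / 20 : ℝ) := by
      have h2 : ((N : ℝ) + 1) ≤ 2 * X ^ (2 : ℝ) := by
        have : 1 ≤ X ^ (2 : ℝ) := Real.one_le_rpow hX1le (by norm_num)
        (clear * - hX2 hX2X hNle; linarith)
      have h3 : (1 : ℝ) ≤ (N : ℝ) + 1 := by (clear * - hX2 hX2X hNge; linarith)
      calc ((N : ℝ) + 1) ^ (1 - ρ.re) ≤ ((N : ℝ) + 1) ^ (1 / 20 : ℝ) :=
            Real.rpow_le_rpow_of_exponent_le h3 (by (clear * - hre19; linarith))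
        _ ≤ _ := Real.rpow_le_rpow (by (clear * - hN1; positivity)) h2 (by norm_num)
    have h4 : (2 * X ^ (2 : ℝ)) ^ (1 / 20 : ℝ) ≤ 2 * X ^ (1 / 10 : ℝ) := by
      rw [Real.mul_rpow (by norm_num) (by (clear * - hX2; positivity)), ← Real.rpow_mul hXpos.le]
      have h5 : (2 : ℝ) ^ (1 / 20 : ℝ) ≤ 2 := by
        calc (2 : ℝ) ^ (1 / 20 : ℝ) ≤ (2 : ℝ) ^ (1 : ℝ) :=
              Real.rpow_le_rpow_of_exponent_le (by norm_num) (by norm_num)
          _ = 2 := Real.rpow_one 2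
      have h6 : (2 : ℝ) * (1 / 20) = 1 / 10 := by norm_num
      rw [h6]
      exact mul_le_mul_of_nonneg_right h5 (by positivity)
    calc ((N : ℝ) + 1) ^ (1 - ρ.re) / ‖ρ - 1‖ ≤ (2 * X ^ (1 / 10 : ℝ)) / X ^ (3 / 10 : ℝ) :=
          div_le_div₀ (by positivity) (h1.trans h4) (by positivity) hnorm1
      _ = 2 * X ^ (-(1 / 5) : ℝ) := by
          rw [mul_div_assoc, ← Real.rpow_sub hXpos]
          norm_num
  -- second term
  have hB : ‖ρ‖ * ((N : ℝ) ^ (-ρ.re) / ρ.re) ≤ 3 * (2 * X ^ (-(1 / 5) : ℝ)) := by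
    have h1 : (N : ℝ) ^ (-ρ.re) ≤ 2 * X ^ (-(19 / 10) : ℝ) := by
      calc (N : ℝ) ^ (-ρ.re) ≤ (X ^ (2 : ℝ) / 2) ^ (-ρ.re) :=
            Real.rpow_le_rpow_of_nonpos (by (clear * - hX2; positivity)) hNge (by (clear * - hre19; linarith))
        _ ≤ (X ^ (2 : ℝ) / 2) ^ (-(19 / 20) : ℝ) := by
            clear * - hX2 hX2X hre19; refine Real.rpow_le_rpow_of_exponent_le ?_ (by (clear * - hre19; linarith))
            have h9 : X * X ≤ X ^ (2 : ℝ) := by
              have : X ^ (2 : ℝ) = X * X := by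
                rw [show (2 : ℝ) = ((2 : ℕ) : ℝ) by norm_num, Real.rpow_natCast]; ring
              rw [this]
            (clear * - hX2 hX2X; nlinarith)
        _ = (2 : ℝ) ^ (19 / 20 : ℝ) * X ^ (-(19 / 10) : ℝ) := by
            clear * - hX2 hXpos; rw [Real.div_rpow (by positivity) (by norm_num), ← Real.rpow_mul hXpos.le,
              Real.rpow_neg (by norm_num : (0 : ℝ) ≤ 2), div_inv_eq_mul, mul_comm]
            congr 2
            norm_num
        _ ≤ 2 * X ^ (-(19 / 10) : ℝ) := by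
            refine mul_le_mul_of_nonneg_right ?_ (by positivity)
            calc (2 : ℝ) ^ (19 / 20 : ℝ) ≤ (2 : ℝ) ^ (1 : ℝ) :=
                  Real.rpow_le_rpow_of_exponent_le (by norm_num) (by norm_num)
              _ = 2 := Real.rpow_one 2
    have h2 : (N : ℝ) ^ (-ρ.re) / ρ.re ≤ (2 * X ^ (-(19 / 10) : ℝ)) / (19 / 20) :=
      div_le_div₀ (by positivity) h1 (by norm_num) hre19
    calc ‖ρ‖ * ((N : ℝ) ^ (-ρ.re) / ρ.re) ≤
          (2 * X ^ (6 / 10 : ℝ)) * ((2 * X ^ (-(19 / 10) : ℝ)) / (19 / 20)) :=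
          mul_le_mul hnorm2 h2 (by clear * - hN1 hre19; positivity) (by positivity)
      _ = (80 / 19) * X ^ (-(13 / 10) : ℝ) := by
          have : X ^ (-(13 / 10) : ℝ) = X ^ (6 / 10 : ℝ) * X ^ (-(19 / 10) : ℝ) := by
            rw [← Real.rpow_add hXpos]; norm_num
          rw [this]; ring
      _ ≤ 3 * (2 * X ^ (-(1 / 5) : ℝ)) := by
          have h5 : X ^ (-(13 / 10) : ℝ) ≤ X ^ (-(1 / 5) : ℝ) :=
            Real.rpow_le_rpow_of_exponent_le hX1le (by norm_num)
          have h6 : 0 ≤ X ^ (-(1 / 5) : ℝ) := by positivity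
          (clear * - h5 h6; linarith)
  -- conclusion
  have hC6 := hX1 X hX1'
  have hc1 : X ^ (-c) ≤ X ^ (-(2 * c')) := by
    refine Real.rpow_le_rpow_of_exponent_le hX1le ?_
    rw [hc']
    have := min_le_left c (1 / 10)
    (clear * - this; linarith)
  have hc2 : X ^ (-(1 / 5) : ℝ) ≤ X ^ (-(2 * c')) * (1/ 2) := by
    have h7 : X ^ (-(1 / 5) : ℝ) = X ^ (-(1/10) : ℝ) * X ^ (-(1/10) : ℝ) := by
      rw [← Real.rpow_add hXpos]; norm_num
    have h8 : X ^ (-(1/10) : ℝ) ≤ X ^ (-(2 * c')) := by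
      refine Real.rpow_le_rpow_of_exponent_le hX1le ?_
      rw [hc']
      have := min_le_right c (1 / 10)
      (clear * - this; linarith)
    have h9 : X ^ (-(1/10) : ℝ) ≤ 1 / 6 := by
      have h10 : X ^ (-(1/10) : ℝ) ≤ X ^ (-c') := by
        refine Real.rpow_le_rpow_of_exponent_le hX1le ?_
        rw [hc']
        have := min_le_right c (1 / 10)
        (clear * - this; linarith)
      refine h10.trans ?_
      rw [Real.rpow_neg hXpos.le, one_div]
      exact inv_anti₀ (by norm_num) hC6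
    have h11 : 0 ≤ X ^ (-(1/10) : ℝ) := by positivity
    rw [h7]
    have h12 := mul_le_mul_of_nonneg_left h9 h11
    (clear * - h8 h11 h12; linarith)
  have hfin : X ^ (-(2 * c')) = X ^ (-c') * X ^ (-c') := by
    rw [← Real.rpow_add hXpos]; ring_nf
  have hinv : X ^ (-c') ≤ 1 / 6 := by
    rw [Real.rpow_neg hXpos.le, one_div]
    exact inv_anti₀ (by norm_num) hC6
  have hpos : 0 ≤ X ^ (-c') := by positivity
  have htot : ‖∑ n ∈ Finset.Icc 1 N, (n : ℂ) ^ (-ρ)‖ + ‖∑ n ∈ Finset.Ioc M N, (n : ℂ) ^ (-ρ)‖ ≤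
      5 * X ^ (-(2 * c')) := by
    have h1 := hlong.trans (add_le_add hA hB)
    (clear * - hlong hshort hA hB hc1 hc2; linarith)
  refine htot.trans ?_
  rw [hfin]
  have h12 := mul_le_mul_of_nonneg_left hinv hpos
  (clear * - h12 hpos; linarith)

end Pool.Agent.M20.Helper73.KSZ
end

/- Helper53.KN.Helper52.KC.FMs1 -/
section
/-!
# Project KS, module FM-5, part 2: the smoothed sum and the tails
-/

set_option autoImplicit false
open MeasureTheory Filter Topology Finset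
open Pool.Agent.M20.Helper26.KC

namespace Pool.Agent.M20.Helper52.KC

/-- coefficients of the smoothed polynomial -/
noncomputable def aS (T : ℝ) (n : ℕ) : ℂ :=
  (((n : ℝ) ^ (-(1 / 2) : ℝ) * Phi (Real.log (Real.sqrt T) - Real.log n) : ℝ) : ℂ)

theorem norm_aS_le (T : ℝ) (n : ℕ) : ‖aS T n‖ ≤ (n : ℝ) ^ (-(1 / 2) : ℝ) := by
  rw [aS, Complex.norm_real, Real.norm_eq_abs, abs_of_nonneg
    (mul_nonneg (Real.rpow_nonneg (Nat.cast_nonneg n) _) (Phi_nonneg _))]
  exact mul_le_of_le_one_right (Real.rpow_nonneg (Nat.cast_nonneg n) _) (Phi_le_one _)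

theorem S1_term_eq (T t : ℝ) (m : ℕ) :
    ((m : ℂ) + 1) ^ (-(1 / 2 + (t : ℂ) * Complex.I)) *
      (Phi (Real.log (Real.sqrt T) - Real.log ((m : ℝ) + 1)) : ℂ) =
    aS T (m + 1) * ((m + 1 : ℕ) : ℂ) ^ (((-t : ℝ) : ℂ) * Complex.I) := by
  have hm : ((m + 1 : ℕ) : ℂ) ≠ 0 := by exact_mod_cast Nat.succ_ne_zero m
  have h1 : -(1 / 2 + (t : ℂ) * Complex.I) = ((-(1 / 2) : ℝ) : ℂ) + ((-t : ℝ) : ℂ) * Complex.I := by
    push_cast; ring
  have h2 : ((m : ℂ) + 1) = ((m + 1 : ℕ) : ℂ) := by push_cast; ring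
  rw [h2, h1, Complex.cpow_add _ _ hm, aS]
  have h3 : ((m + 1 : ℕ) : ℂ) ^ ((-(1 / 2) : ℝ) : ℂ) = ((((m + 1 : ℕ) : ℝ) ^ (-(1 / 2) : ℝ) : ℝ) : ℂ) := by
    rw [Complex.ofReal_cpow (Nat.cast_nonneg _)]
    push_cast
    rfl
  rw [h3]
  push_cast
  ring

theorem norm_S1_term (T t : ℝ) (m : ℕ) :
    ‖aS T (m + 1) * ((m + 1 : ℕ) : ℂ) ^ (((-t : ℝ) : ℂ) * Complex.I)‖ =
      ((m : ℝ) + 1) ^ (-(1 / 2) : ℝ) * Phi (Real.log (Real.sqrt T) - Real.log ((m : ℝ) + 1)) := by
  rw [norm_mul, Complex.norm_natCast_cpow_of_pos (Nat.succ_pos m)]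
  have : ((((-t : ℝ) : ℂ) * Complex.I)).re = 0 := by simp
  rw [this, Real.rpow_zero, mul_one, aS, Complex.norm_real, Real.norm_eq_abs, abs_of_nonneg
    (mul_nonneg (Real.rpow_nonneg (Nat.cast_nonneg _) _) (Phi_nonneg _))]
  push_cast
  rfl

theorem summable_sq : Summable (fun m : ℕ => ((m : ℝ) + 1) ^ (-2 : ℝ)) := by
  have h := (Real.summable_nat_rpow (p := -2)).mpr (by norm_num)
  have := (summable_nat_add_iff 1).mpr h
  refine this.congr fun m => ?_
  push_cast
  rfl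

/-- the terms are bounded by `B (m+1)^(-2)` -/
theorem S1_term_le {K : ℝ} (hK : 1 ≤ K) {T : ℝ} (hT : 1 ≤ T) (t : ℝ) (m : ℕ) :
    ‖aS T (m + 1) * ((m + 1 : ℕ) : ℂ) ^ (((-t : ℝ) : ℂ) * Complex.I)‖ ≤
      Real.exp (K ^ 2) * (Real.sqrt T) ^ K * ((m : ℝ) + 1) ^ (-(1 / 2) - K) := by
  have hm : (0 : ℝ) < (m : ℝ) + 1 := by positivity
  have hs : 0 < Real.sqrt T := Real.sqrt_pos.mpr (by linarith)
  rw [norm_S1_term]
  have h1 := Phi_le K hK (Real.log (Real.sqrt T) - Real.log ((m : ℝ) + 1))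
  calc ((m : ℝ) + 1) ^ (-(1 / 2) : ℝ) * Phi (Real.log (Real.sqrt T) - Real.log ((m : ℝ) + 1))
      ≤ ((m : ℝ) + 1) ^ (-(1 / 2) : ℝ) *
        Real.exp (K ^ 2 + K * (Real.log (Real.sqrt T) - Real.log ((m : ℝ) + 1))) := by (clear * - h1; gcongr)
    _ = Real.exp (K ^ 2) * (Real.sqrt T) ^ K * ((m : ℝ) + 1) ^ (-(1 / 2) - K) := by
        rw [Real.rpow_sub hm, Real.rpow_def_of_pos hs, Real.rpow_def_of_pos hm K, Real.exp_add,
          mul_sub, Real.exp_sub, mul_comm K (Real.log (Real.sqrt T)),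
          mul_comm K (Real.log ((m : ℝ) + 1))]
        ring

theorem S1_bound {e : ℝ} (he : 0 < e) : ∃ C : ℝ, 0 < C ∧ ∀ (T t : ℝ) (L : ℕ), 1 ≤ T →
    Real.sqrt T * T ^ e ≤ L → ‖S1 (Real.sqrt T) t‖ ≤
      ‖∑ n ∈ Icc 1 L, aS T n * (n : ℂ) ^ (((-t : ℝ) : ℂ) * Complex.I)‖ + C := by
  set K : ℝ := 3 / 2 + 3 / (4 * e) with hKdef
  have hK0 : 0 < 3 / (4 * e) := by positivity
  have hK1 : 3 / 2 ≤ K := by rw [hKdef]; (clear * - hK0; linarith)
  have hKe : e * (K - 3 / 2) = 3 / 4 := by rw [hKdef]; field_simp; ring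
  set Z : ℝ := ∑' m : ℕ, ((m : ℝ) + 1) ^ (-2 : ℝ) with hZ
  have hZ0 : 0 ≤ Z := tsum_nonneg fun m => by positivity
  refine ⟨Real.exp (K ^ 2) * Z + 1, by positivity, ?_⟩
  intro T t L hT hL
  have hT0 : 0 < T := by (clear * - hT; linarith)
  have hs1 : 1 ≤ Real.sqrt T := Real.one_le_sqrt.mpr hT
  have hs0 : 0 < Real.sqrt T := by (clear * - hs1; linarith)
  have hTe : 1 ≤ T ^ e := Real.one_le_rpow hT he.le
  have hL1 : (1 : ℝ) ≤ L := le_trans (by (clear * - hs1 hTe; nlinarith)) hL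
  set f : ℕ → ℂ := fun m => aS T (m + 1) * ((m + 1 : ℕ) : ℂ) ^ (((-t : ℝ) : ℂ) * Complex.I) with hf
  have hS : S1 (Real.sqrt T) t = ∑' m, f m := by
    rw [S1]
    exact tsum_congr fun m => S1_term_eq T t m
  have hb1 : ∀ m, ‖f m‖ ≤ Real.exp (K ^ 2) * (Real.sqrt T) ^ K * ((m : ℝ) + 1) ^ (-2 : ℝ) := by
    intro m
    refine (S1_term_le (K := K) (by (clear * - hKdef hK0; linarith)) hT t m).trans ?_
    apply mul_le_mul_of_nonneg_left _ (by positivity)
    apply Real.rpow_le_rpow_of_exponent_le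
    · have : (0 : ℝ) ≤ m := Nat.cast_nonneg m
      (clear * -; linarith)
    · linarith
  have hsum : Summable (fun m => ‖f m‖) :=
    Summable.of_nonneg_of_le (fun m => norm_nonneg _) hb1 (summable_sq.mul_left _)
  have hsf : Summable f := hsum.of_norm
  rw [hS, ← hsf.sum_add_tsum_nat_add L]
  refine (norm_add_le _ _).trans ?_
  apply add_le_add
  · apply le_of_eq
    congr 1
    rw [Finset.range_eq_Ico, Finset.sum_Ico_add' (fun n : ℕ => aS T n *
      (n : ℂ) ^ (((-t : ℝ) : ℂ) * Complex.I)) 0 L 1]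
    apply Finset.sum_congr _ fun _ _ => rfl
    ext n
    simp only [Finset.mem_Ico, Finset.mem_Icc]
    omega
  · have hb2 : ∀ m, ‖f (m + L)‖ ≤ Real.exp (K ^ 2) * ((m : ℝ) + 1) ^ (-2 : ℝ) := by
      intro m
      refine (S1_term_le (K := K) (by (clear * - hKdef hK0; linarith)) hT t (m + L)).trans ?_
      have hm : (0 : ℝ) < (m : ℝ) + 1 := by positivity
      have hmL : (0 : ℝ) < ((m + L : ℕ) : ℝ) + 1 := by (clear * -; positivity)
      have e1 : (((m + L : ℕ) : ℝ) + 1) ^ (-(1 / 2) - K) =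
          (((m + L : ℕ) : ℝ) + 1) ^ (-(K - 3 / 2)) * (((m + L : ℕ) : ℝ) + 1) ^ (-2 : ℝ) := by
        rw [← Real.rpow_add hmL]; congr 1; ring
      have e2 : (((m + L : ℕ) : ℝ) + 1) ^ (-2 : ℝ) ≤ ((m : ℝ) + 1) ^ (-2 : ℝ) := by
        apply Real.rpow_le_rpow_of_nonpos hm _ (by norm_num)
        push_cast
        (clear * - hL1; linarith)
      have e3 : (((m + L : ℕ) : ℝ) + 1) ^ (-(K - 3 / 2)) ≤ (Real.sqrt T * T ^ e) ^ (-(K - 3 / 2)) := by
        apply Real.rpow_le_rpow_of_nonpos (by positivity) _ (by (clear * - hKdef hK0; linarith))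
        push_cast
        have : (0 : ℝ) ≤ m := Nat.cast_nonneg m
        (clear * - hL; linarith)
      have e4 : (Real.sqrt T) ^ K * (Real.sqrt T * T ^ e) ^ (-(K - 3 / 2)) = 1 := by
        rw [Real.mul_rpow hs0.le (by positivity), ← mul_assoc, ← Real.rpow_add hs0,
          ← Real.rpow_mul hT0.le, show K + -(K - 3 / 2) = 3 / 2 by ring,
          show e * -(K - 3 / 2) = -(3 / 4) by rw [mul_neg, hKe], Real.sqrt_eq_rpow,
          ← Real.rpow_mul hT0.le, ← Real.rpow_add hT0]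
        norm_num
      rw [e1]
      calc Real.exp (K ^ 2) * (Real.sqrt T) ^ K * ((((m + L : ℕ) : ℝ) + 1) ^ (-(K - 3 / 2)) *
            (((m + L : ℕ) : ℝ) + 1) ^ (-2 : ℝ))
          ≤ Real.exp (K ^ 2) * (Real.sqrt T) ^ K * ((Real.sqrt T * T ^ e) ^ (-(K - 3 / 2)) *
            ((m : ℝ) + 1) ^ (-2 : ℝ)) := by (clear * - e3 e2 hT; gcongr)
        _ = Real.exp (K ^ 2) * ((Real.sqrt T) ^ K * (Real.sqrt T * T ^ e) ^ (-(K - 3 / 2))) *
            ((m : ℝ) + 1) ^ (-2 : ℝ) := by ring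
        _ = _ := by rw [e4, mul_one]
    have hs2 : Summable (fun m => ‖f (m + L)‖) :=
      Summable.of_nonneg_of_le (fun m => norm_nonneg _) hb2 (summable_sq.mul_left _)
    calc ‖∑' m, f (m + L)‖ ≤ ∑' m, ‖f (m + L)‖ := norm_tsum_le_tsum_norm hs2
      _ ≤ ∑' m : ℕ, Real.exp (K ^ 2) * ((m : ℝ) + 1) ^ (-2 : ℝ) :=
        hs2.tsum_le_tsum hb2 (summable_sq.mul_left _)
      _ = Real.exp (K ^ 2) * Z := by rw [tsum_mul_left]
      _ ≤ _ := by (clear * -; linarith)

/-- the tail of the series of `ζ(5/4 - iu)` -/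
theorem tail54 : ∃ C : ℝ, 0 < C ∧ ∀ (T u : ℝ) (M L : ℕ), 1 ≤ T → M ≤ L → T ^ 8 ≤ L →
    ‖∑' m : ℕ, ((m : ℂ) + M + 1) ^ ((-(5 / 4) : ℂ) + (u : ℂ) * Complex.I)‖ ≤
      ‖∑ n ∈ Ioc M L, (((n : ℝ) ^ (-(5 / 4) : ℝ) : ℝ) : ℂ) * (n : ℂ) ^ ((u : ℂ) * Complex.I)‖ + C / T := by
  have hs0 : Summable (fun m : ℕ => ((m : ℝ) + 1) ^ (-(9 / 8) : ℝ)) := by
    have h := (Real.summable_nat_rpow (p := -(9 / 8))).mpr (by norm_num)
    have := (summable_nat_add_iff 1).mpr h
    refine this.congr fun m => ?_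
    push_cast
    rfl
  set Z : ℝ := ∑' m : ℕ, ((m : ℝ) + 1) ^ (-(9 / 8) : ℝ) with hZ
  have hZ0 : 0 ≤ Z := tsum_nonneg fun m => by (clear * -; positivity)
  refine ⟨Z + 1, by (clear * -; positivity), ?_⟩
  intro T u M L hT hML hL
  have hT0 : 0 < T := by (clear * - hT; linarith)
  set g : ℕ → ℂ := fun n => (((n : ℝ) ^ (-(5 / 4) : ℝ) : ℝ) : ℂ) *
    (n : ℂ) ^ ((u : ℂ) * Complex.I) with hg
  have hterm : ∀ m : ℕ, ((m : ℂ) + M + 1) ^ ((-(5 / 4) : ℂ) + (u : ℂ) * Complex.I) =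
      g (m + (M + 1)) := by
    intro m
    have hm : ((m + (M + 1) : ℕ) : ℂ) ≠ 0 := by
      have : m + (M + 1) ≠ 0 := by omega
      exact_mod_cast this
    have h2 : ((m : ℂ) + M + 1) = ((m + (M + 1) : ℕ) : ℂ) := by push_cast; ring
    rw [h2, Complex.cpow_add _ _ hm, hg]
    simp only
    congr 1
    rw [Complex.ofReal_cpow (Nat.cast_nonneg _)]
    push_cast
    rfl
  have hnorm : ∀ n : ℕ, 0 < n → ‖g n‖ = (n : ℝ) ^ (-(5 / 4) : ℝ) := by
    intro n hn
    rw [hg]
    simp only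
    rw [norm_mul, Complex.norm_natCast_cpow_of_pos hn]
    have : (((u : ℂ) * Complex.I)).re = 0 := by simp
    rw [this, Real.rpow_zero, mul_one, Complex.norm_real, Real.norm_eq_abs, abs_of_nonneg
      (Real.rpow_nonneg (Nat.cast_nonneg _) _)]
  have hb : ∀ A m : ℕ, ‖g (m + (A + 1))‖ ≤ ((m : ℝ) + 1) ^ (-(9 / 8) : ℝ) := by
    intro A m
    rw [hnorm _ (by omega)]
    have h1 : (1 : ℝ) ≤ (m : ℝ) + 1 := by
      have : (0 : ℝ) ≤ m := Nat.cast_nonneg m
      (clear * -; linarith)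
    calc ((m + (A + 1) : ℕ) : ℝ) ^ (-(5 / 4) : ℝ) ≤ ((m : ℝ) + 1) ^ (-(5 / 4) : ℝ) := by
          apply Real.rpow_le_rpow_of_nonpos (by (clear * -; positivity)) _ (by norm_num)
          push_cast
          have : (0 : ℝ) ≤ A := Nat.cast_nonneg A
          (clear * -; linarith)
      _ ≤ ((m : ℝ) + 1) ^ (-(9 / 8) : ℝ) :=
          Real.rpow_le_rpow_of_exponent_le h1 (by norm_num)
  have hsum : Summable (fun m => g (m + (M + 1))) :=
    (Summable.of_nonneg_of_le (fun m => norm_nonneg _) (hb M) hs0).of_norm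
  rw [tsum_congr hterm, ← hsum.sum_add_tsum_nat_add (L - M)]
  refine (norm_add_le _ _).trans ?_
  apply add_le_add
  · apply le_of_eq
    congr 1
    rw [Finset.range_eq_Ico, Finset.sum_Ico_add' g 0 (L - M) (M + 1)]
    apply Finset.sum_congr _ fun _ _ => rfl
    ext n
    simp only [Finset.mem_Ico, Finset.mem_Ioc]
    omega
  · have hb2 : ∀ m, ‖g (m + (L - M) + (M + 1))‖ ≤ (1 / T) * ((m : ℝ) + 1) ^ (-(9 / 8) : ℝ) := by
      intro m
      have hidx : m + (L - M) + (M + 1) = m + (L + 1) := by omega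
      rw [hidx, hnorm _ (by omega)]
      have hm : (0 : ℝ) < (m : ℝ) + 1 := by (clear * -; positivity)
      have hmL : (0 : ℝ) < ((m + (L + 1) : ℕ) : ℝ) := by (clear * -; positivity)
      have e1 : ((m + (L + 1) : ℕ) : ℝ) ^ (-(5 / 4) : ℝ) =
          ((m + (L + 1) : ℕ) : ℝ) ^ (-(1 / 8) : ℝ) * ((m + (L + 1) : ℕ) : ℝ) ^ (-(9 / 8) : ℝ) := by
        rw [← Real.rpow_add hmL]; norm_num
      have e2 : ((m + (L + 1) : ℕ) : ℝ) ^ (-(9 / 8) : ℝ) ≤ ((m : ℝ) + 1) ^ (-(9 / 8) : ℝ) := by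
        apply Real.rpow_le_rpow_of_nonpos hm _ (by norm_num)
        push_cast
        have : (0 : ℝ) ≤ L := Nat.cast_nonneg L
        (clear * -; linarith)
      have e3 : ((m + (L + 1) : ℕ) : ℝ) ^ (-(1 / 8) : ℝ) ≤ 1 / T := by
        have h8 : (T ^ 8) ^ (-(1 / 8) : ℝ) = 1 / T := by
          rw [← Real.rpow_natCast, ← Real.rpow_mul hT0.le]
          norm_num
          rw [Real.rpow_neg_one]
        rw [← h8]
        apply Real.rpow_le_rpow_of_nonpos (by positivity) _ (by norm_num)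
        push_cast
        have : (0 : ℝ) ≤ m := Nat.cast_nonneg m
        (clear * - hL; linarith)
      rw [e1]
      gcongr
    have hs2 : Summable (fun m => ‖g (m + (L - M) + (M + 1))‖) :=
      Summable.of_nonneg_of_le (fun m => norm_nonneg _) hb2 (hs0.mul_left _)
    calc ‖∑' m, g (m + (L - M) + (M + 1))‖ ≤ ∑' m, ‖g (m + (L - M) + (M + 1))‖ :=
          norm_tsum_le_tsum_norm hs2
      _ ≤ ∑' m : ℕ, (1 / T) * ((m : ℝ) + 1) ^ (-(9 / 8) : ℝ) :=
        hs2.tsum_le_tsum hb2 (hs0.mul_left _)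
      _ = (1 / T) * Z := by rw [tsum_mul_left]
      _ ≤ (Z + 1) / T := by
        rw [one_div, div_eq_inv_mul]
        gcongr
        (clear * -; linarith)

end Pool.Agent.M20.Helper52.KC
end

/- Helper53.KN.Helper7.AV.GGlow -/
section
/-! Project AV (part of KS, MP_768c9c_nt), module AV3a: lower bounds for Selberg's sum. -/

set_option autoImplicit false

namespace Pool.Agent.M20.Helper7.AV

open Finset Pool.Agent.M20.Helper40.AV

/-- all primes of `m` are at most `z` -/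
def Sm (z : ℝ) (m : ℕ) : Prop := ∀ r : ℕ, r.Prime → r ∣ m → (r : ℝ) ≤ z

open Classical in
/-- the sum over smooth integers is at most Selberg's sum -/
theorem smooth_le (z Y : ℝ) :
    ∑ m ∈ (Icc 1 ⌊Y⌋₊).filter (fun m => Sm z m), (1 : ℝ) / m ≤ GG z Y := by
  set R := ⌊Y⌋₊ with hR
  have hGG : GG z Y = ∑ l ∈ (Icc 1 R).filter (fun m => Squarefree m ∧ Sm z m),
      (1 : ℝ) / l.totient := by
    unfold GG Sm
    rfl
  rw [hGG]
  have hmaps : ∀ m ∈ (Icc 1 R).filter (fun m => Sm z m), (∏ p ∈ m.primeFactors, p) ∈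
      (Icc 1 R).filter (fun m => Squarefree m ∧ Sm z m) := by
    intro m hm
    rw [Finset.mem_filter, Finset.mem_Icc] at hm
    rw [Finset.mem_filter, Finset.mem_Icc]
    have hdvd := Nat.prod_primeFactors_dvd m
    have hpos : 0 < ∏ p ∈ m.primeFactors, p := Nat.pos_of_dvd_of_pos hdvd (by omega)
    exact ⟨⟨hpos, (Nat.le_of_dvd (by omega) hdvd).trans hm.1.2⟩,
      Pool.Agent.M20.Helper69.EK.squarefree_prod_primes _
        (fun p hp => Nat.prime_of_mem_primeFactors hp),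
      fun r hr hrd => hm.2 r hr (hrd.trans hdvd)⟩
  rw [← Finset.sum_fiberwise_of_maps_to hmaps]
  apply Finset.sum_le_sum
  intro l hl
  rw [Finset.mem_filter] at hl
  rw [Pool.Agent.M20.Helper69.EK.totient_sqf hl.2.1]
  refine le_trans ?_ (Pool.Agent.M20.Helper69.EK.claim_rad l.primeFactors
    (fun p hp => Nat.prime_of_mem_primeFactors hp) R)
  apply Finset.sum_le_sum_of_subset_of_nonneg
  · intro m hm
    rw [Finset.mem_filter, Finset.mem_filter] at hm
    rw [Finset.mem_filter]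
    refine ⟨hm.1.1, ?_⟩
    rw [← hm.2, Nat.primeFactors_prod_primeFactors]
  · intro _ _ _
    (clear * -; positivity)

theorem harm_ge (n : ℕ) : Real.log ((n : ℝ) + 1) ≤ ∑ k ∈ Icc 1 n, (1 : ℝ) / k := by
  have h := log_add_one_le_harmonic n
  rw [harmonic_eq_sum_Icc] at h
  push_cast at h
  simpa [one_div] using h

theorem harm_le (n : ℕ) : ∑ k ∈ Icc 1 n, (1 : ℝ) / k ≤ 1 + Real.log n := by
  have h := harmonic_le_one_add_log n
  rw [harmonic_eq_sum_Icc] at h
  push_cast at h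
  simpa [one_div] using h

theorem ggtriv : GGtriv := by
  classical
  intro z Y hY hYz
  refine le_trans ?_ (smooth_le z Y)
  have h1 : (Icc 1 ⌊Y⌋₊).filter (fun m => Sm z m) = Icc 1 ⌊Y⌋₊ := by
    apply Finset.filter_true_of_mem
    intro m hm r _ hrm
    rw [Finset.mem_Icc] at hm
    have h2 : r ≤ m := Nat.le_of_dvd (by omega) hrm
    have h3 : (m : ℝ) ≤ Y := (Nat.le_floor_iff (by (clear * - hY; linarith))).1 hm.2
    have h4 : (r : ℝ) ≤ m := by exact_mod_cast h2
    (clear * - hYz h3 h4; linarith)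
  rw [h1]
  refine le_trans ?_ (harm_ge _)
  exact Real.log_le_log (by (clear * - hY; linarith)) (Nat.lt_floor_add_one Y).le

theorem multiples_le {N p : ℕ} (hp : 1 ≤ p) (hpN : p ≤ N) :
    ∑ m ∈ Icc 1 N, (if p ∣ m then (1 : ℝ) / m else 0) ≤
      1 / p * (1 + Real.log N - Real.log p) := by
  have h1 : ∑ m ∈ Icc 1 N, (if p ∣ m then (1 : ℝ) / m else 0) =
      ∑ k ∈ Icc 1 (N / p), (1 : ℝ) / p * (1 / k) := by
    rw [← Finset.sum_filter]
    symm
    refine Finset.sum_bij (fun k _ => p * k) ?_ ?_ ?_ ?_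
    · intro k hk
      rw [Finset.mem_Icc] at hk
      rw [Finset.mem_filter, Finset.mem_Icc]
      refine ⟨⟨Nat.mul_pos hp hk.1, ?_⟩, dvd_mul_right _ _⟩
      rw [mul_comm]
      exact (Nat.le_div_iff_mul_le hp).1 hk.2
    · intro a _ b _ hab
      exact Nat.eq_of_mul_eq_mul_left hp hab
    · intro m hm
      rw [Finset.mem_filter, Finset.mem_Icc] at hm
      obtain ⟨⟨hm1, hm2⟩, k, rfl⟩ := hm
      refine ⟨k, ?_, rfl⟩
      rw [Finset.mem_Icc]
      refine ⟨Nat.pos_of_mul_pos_left hm1, ?_⟩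
      rw [Nat.le_div_iff_mul_le hp, mul_comm]
      exact hm2
    · intro k _
      push_cast
      rw [one_div_mul_one_div]
  rw [h1, ← Finset.mul_sum]
  apply mul_le_mul_of_nonneg_left _ (by (clear * - hp; positivity))
  refine (harm_le _).trans ?_
  have hq : 1 ≤ N / p := (Nat.one_le_div_iff hp).2 hpN
  have h2 : ((N / p : ℕ) : ℝ) ≤ (N : ℝ) / p := Nat.cast_div_le
  have h3 : Real.log ((N / p : ℕ) : ℝ) ≤ Real.log N - Real.log p := by
    rw [← Real.log_div (by norm_cast; omega) (by norm_cast; omega)]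
    exact Real.log_le_log (by exact_mod_cast hq) h2
  (clear * - h3; linarith)

theorem gglow : GGlow := by
  classical
  obtain ⟨C, hC, hMI⟩ := Pool.Agent.M20.Helper44.mertens_interval
  obtain ⟨C0, hC0, hMF⟩ := Pool.Agent.M20.Helper44.mertens_first
  refine ⟨2 * C + (2 * C0 + Real.log 2) + (Real.log 2 + C / Real.log 2), ?_⟩
  intro z u hz hu1 hu2
  have hz0 : (0 : ℝ) < z := by linarith
  set L := Real.log z with hL
  have hL2 : Real.log 2 ≤ L := Real.log_le_log (by norm_num) hz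
  have hlog2 : 0 < Real.log 2 := Real.log_pos (by norm_num)
  have hL0 : 0 < L := by linarith
  set Y := z ^ u with hY
  exact by
    have hlogY : Real.log Y = u * L := by rw [hY, Real.log_rpow hz0]
    have hzY : z ≤ Y := by
      rw [hY]
      calc z = z ^ (1 : ℝ) := (Real.rpow_one z).symm
        _ ≤ z ^ u := Real.rpow_le_rpow_of_exponent_le (by (clear * - hz; linarith)) hu1
    set N := ⌊Y⌋₊ with hN
    set M := ⌊z⌋₊ with hM
    have hM2 : 2 ≤ M := Nat.le_floor (by exact_mod_cast hz)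
    have hMN : M ≤ N := Nat.floor_le_floor hzY
    exact by
      have hN0 : (0 : ℝ) < N := by
        have : (2 : ℝ) ≤ N := by exact_mod_cast hM2.trans hMN
        (clear * - this; linarith)
      have hNY : (N : ℝ) ≤ Y := Nat.floor_le (by (clear * - hz hzY; linarith))
      set P := (Ioc M N).filter Nat.Prime with hP
      -- the smooth part
      refine le_trans ?_ (smooth_le z Y)
      have hsplit : ∑ m ∈ Icc 1 N, (1 : ℝ) / m =
          ∑ m ∈ (Icc 1 N).filter (fun m => Sm z m), (1 : ℝ) / m +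
          ∑ m ∈ (Icc 1 N).filter (fun m => ¬ Sm z m), (1 : ℝ) / m :=
        (Finset.sum_filter_add_sum_filter_not _ _ _).symm
      have hns : ∑ m ∈ (Icc 1 N).filter (fun m => ¬ Sm z m), (1 : ℝ) / m ≤
          ∑ p ∈ P, 1 / (p : ℝ) * (1 + Real.log N - Real.log p) := by
        calc ∑ m ∈ (Icc 1 N).filter (fun m => ¬ Sm z m), (1 : ℝ) / m
            ≤ ∑ m ∈ (Icc 1 N).filter (fun m => ¬ Sm z m), ∑ p ∈ P,
                (if p ∣ m then (1 : ℝ) / m else 0) := by
              apply Finset.sum_le_sum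
              intro m hm
              rw [Finset.mem_filter, Finset.mem_Icc] at hm
              obtain ⟨⟨hm1, hm2⟩, hm3⟩ := hm
              unfold Sm at hm3
              push Not at hm3
              obtain ⟨r, hr, hrm, hrz⟩ := hm3
              have hrP : r ∈ P := by
                rw [hP, Finset.mem_filter, Finset.mem_Ioc]
                refine ⟨⟨(Nat.floor_lt hz0.le).2 hrz, ?_⟩, hr⟩
                exact (Nat.le_of_dvd (by omega) hrm).trans hm2
              calc (1 : ℝ) / m = if r ∣ m then (1 : ℝ) / m else 0 := by rw [if_pos hrm]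
                _ ≤ _ := Finset.single_le_sum (f := fun p : ℕ => if p ∣ m then (1 : ℝ) / m else 0)
                  (fun p _ => by
                    split_ifs
                    · positivity
                    · exact le_refl _) hrP
          _ ≤ ∑ m ∈ Icc 1 N, ∑ p ∈ P, (if p ∣ m then (1 : ℝ) / m else 0) := by
              apply Finset.sum_le_sum_of_subset_of_nonneg (Finset.filter_subset _ _)
              intro m _ _
              apply Finset.sum_nonneg
              intro p _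
              split_ifs
              · (clear * -; positivity)
              · exact le_refl _
          _ = ∑ p ∈ P, ∑ m ∈ Icc 1 N, (if p ∣ m then (1 : ℝ) / m else 0) := Finset.sum_comm
          _ ≤ _ := by
              apply Finset.sum_le_sum
              intro p hp
              rw [hP, Finset.mem_filter, Finset.mem_Ioc] at hp
              exact multiples_le hp.2.one_le hp.1.2
      have hA := (abs_le.1 (hMI z Y hz hzY)).2
      exact by
        have hlogdiv : Real.log (Real.log Y / Real.log z) = Real.log u := by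
          rw [hlogY, ← hL, mul_div_assoc, div_self hL0.ne', mul_one]
        rw [hlogdiv, ← hL] at hA
        set A := ∑ p ∈ P, (1 : ℝ) / p with hAdef
        set B := ∑ p ∈ P, Real.log p / p with hBdef
        have hexp : ∑ p ∈ P, 1 / (p : ℝ) * (1 + Real.log N - Real.log p) =
            (1 + Real.log N) * A - B := by
          rw [hAdef, hBdef, Finset.mul_sum, ← Finset.sum_sub_distrib]
          apply Finset.sum_congr rfl
          intro p _
          ring
        have hA0 : 0 ≤ A := Finset.sum_nonneg fun _ _ => by (clear * -; positivity)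
        have hB1 := (abs_le.1 (hMF N (by omega))).1
        have hB2 := (abs_le.1 (hMF M (by omega))).2
        exact by
          have hBsplit : ∑ q ∈ (Ioc 0 N).filter Nat.Prime, Real.log q / q =
              ∑ q ∈ (Ioc 0 M).filter Nat.Prime, Real.log q / q + B := by
            rw [hBdef, hP, Finset.sum_filter, Finset.sum_filter, Finset.sum_filter]
            rw [Finset.sum_Ioc_consecutive _ (Nat.zero_le _) hMN]
          have hlogM : Real.log M ≤ L := Real.log_le_log (by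
            have : (2 : ℝ) ≤ M := by exact_mod_cast hM2
            (clear * - this; linarith)) (Nat.floor_le hz0.le)
          have hlogN : Real.log N ≤ u * L := by
            rw [← hlogY]
            exact Real.log_le_log hN0 hNY
          have hlogN' : u * L - Real.log 2 ≤ Real.log N := by
            rw [← hlogY, ← Real.log_div (by (clear * - hz hzY; linarith)) (by norm_num)]
            apply Real.log_le_log (by (clear * - hz hzY; linarith))
            have h1 := Nat.lt_floor_add_one Y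
            rw [← hN] at h1
            have h2 : (2 : ℝ) ≤ N := by exact_mod_cast hM2.trans hMN
            (clear * - hz hzY h1; linarith)
          have hH := harm_ge N
          have hH' : Real.log Y ≤ Real.log ((N : ℝ) + 1) :=
            Real.log_le_log (by (clear * - hz hzY; linarith)) (Nat.lt_floor_add_one Y).le
          exact by
            have hlogu : 0 ≤ Real.log u := Real.log_nonneg hu1
            have hlogu2 : Real.log u ≤ Real.log 2 := Real.log_le_log (by (clear * - hu1; linarith)) hu2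
            have hdivL : C / L ≤ C / Real.log 2 := div_le_div_of_nonneg_left hC.le hlog2 hL2
            have hmain : (1 + Real.log N) * A ≤ (1 + u * L) * (Real.log u + C / L) := by
              apply mul_le_mul _ (by (clear * - hA; linarith)) hA0 (by positivity)
              (clear * - hlogN; linarith)
            have hCL : u * L * (C / L) = u * C := by
              field_simp
            have huC : u * C ≤ 2 * C := by (clear * - hC hu2; nlinarith)
            rw [hexp] at hns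
            rw [hlogY] at hH'
            have e1 : (1 + u * L) * (Real.log u + C / L) = Real.log u + C / L + u * L * Real.log u +
                u * L * (C / L) := by ring
            rw [e1, hCL] at hmain
            have e2 : (2 * u - 1 - u * Real.log u) * L = 2 * (u * L) - L - u * L * Real.log u := by ring
            rw [e2]
            linarith

end Pool.Agent.M20.Helper7.AV
end

/- Helper53.KN.Helper51.AV.GammaNum -/
section
/-! Project AV, module AV1b: numerical bounds for `e ^ (-γ)`. -/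

set_option autoImplicit false

namespace Pool.Agent.M20.Helper51.AV

open Pool.Agent.M20.Helper40.AV Real

theorem harmonic_64 : (harmonic 64 : ℚ) < 4.74390 := by
  decide +kernel

theorem harmonic_63 : 4.72820 < (harmonic 63 : ℚ) := by
  decide +kernel

theorem log64 : Real.log 64 = 6 * Real.log 2 := by
  rw [show (64 : ℝ) = 2 ^ 6 by norm_num, Real.log_pow]
  norm_num

theorem gamma_lt : eulerMascheroniConstant < 0.58505 := by
  have h1 := eulerMascheroniConstant_lt_eulerMascheroniSeq' 64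
  rw [eulerMascheroniSeq', if_neg (by norm_num)] at h1
  have h2 : ((harmonic 64 : ℚ) : ℝ) < 4.74390 := by
    have := (Rat.cast_lt (K := ℝ)).2 harmonic_64
    refine this.trans_eq ?_
    norm_num
  have h3 := Real.log_two_gt_d9
  push_cast at h1
  rw [log64] at h1
  linarith

theorem gamma_gt : (0.569 : ℝ) < eulerMascheroniConstant := by
  have h1 := eulerMascheroniSeq_lt_eulerMascheroniConstant 63
  rw [eulerMascheroniSeq] at h1
  have h2 : (4.72820 : ℝ) < ((harmonic 63 : ℚ) : ℝ) := by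
    have := (Rat.cast_lt (K := ℝ)).2 harmonic_63
    refine lt_of_eq_of_lt ?_ this
    norm_num
  have h3 := Real.log_two_lt_d9
  have h4 : ((63 : ℕ) : ℝ) + 1 = 64 := by norm_num
  rw [h4, log64] at h1
  linarith

theorem gammaNum : GammaNum := by
  constructor
  · have h1 : Real.exp (-0.58505) ≤ Real.exp (-eulerMascheroniConstant) :=
      Real.exp_le_exp.2 (by have := gamma_lt; linarith)
    refine le_trans ?_ h1
    rw [Real.exp_neg]
    have h2 : Real.exp 0.58505 ≤ 1.7952 := by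
      have h3 := Real.exp_bound' (x := (0.58505 : ℝ)) (by norm_num) (by norm_num)
        (n := 8) (by norm_num)
      refine h3.trans ?_
      norm_num [Finset.sum_range_succ, Nat.factorial]
    have h4 : (0.557 : ℝ) ≤ (1.7952)⁻¹ := by norm_num
    exact h4.trans (inv_anti₀ (Real.exp_pos _) h2)
  · have h1 : Real.exp (-eulerMascheroniConstant) ≤ Real.exp (-0.569) :=
      Real.exp_le_exp.2 (by have := gamma_gt; linarith)
    refine h1.trans ?_
    rw [Real.exp_neg]
    have h2 : 1.765 ≤ Real.exp 0.569 := by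
      have h3 := Real.sum_le_exp_of_nonneg (x := (0.569 : ℝ)) (by norm_num) 5
      refine le_trans ?_ h3
      norm_num [Finset.sum_range_succ, Nat.factorial]
    have h4 : (1.765 : ℝ)⁻¹ ≤ 0.57 := by norm_num
    exact (inv_anti₀ (by norm_num) h2).trans h4

end Pool.Agent.M20.Helper51.AV
end
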