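import Mathlib
import Pool.Agent.Helper53.KO.G04
import Pool.Agent.Helper53.KO.G05
import Pool.Agent.Helper53.KO.G06
import Pool.Agent.Helper53.KO.G09
import Pool.Agent.Helper53.KO.G10
import Pool.Agent.Helper53.KO.G11

set_option linter.all false

/- Helper53.KN.Helper1.KL.E6 -/
section
/-! Helper48/KSZ/E6.lean adapted to the line 0.575 (box 57/100) by helper1 -/

set_option autoImplicit false
open Filter Topology MeasureTheory Complex
open scoped Classical

namespace Pool.Agent.M20.Helper1.KL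

open Pool.Agent.M20.Helper10.QRH Pool.Agent.M20.Helper69.QRH 
open Pool.Agent.M20.Helper52.QRH Pool.Agent.M20.Helper52.QRH.Expl

theorem e6_ne {T : ℝ} {M : Multiset ℂ} {Z : ℂ → ℂ} (hB : Box T M Z) {s : ℂ} (hs : 1 < s.re) :
    Z s ≠ 0 := by
  intro h
  have h1 := hB.eq s
  rw [h, mul_zero] at h1
  have hs1 : s ≠ 1 := by
    rintro rfl
    simp at hs
  rw [EZ_eq hs1] at h1
  rcases mul_eq_zero.1 h1 with h2 | h2
  · exact hs1 (sub_eq_zero.1 h2)
  · exact riemannZeta_ne_zero_of_one_lt_re hs h2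

theorem e6_logDeriv {T : ℝ} {M : Multiset ℂ} {Z : ℂ → ℂ} (hB : Box T M Z) {s : ℂ}
    (hs : 1 < s.re) :
    -logDeriv Z s = LSeries (fun n => (ArithmeticFunction.vonMangoldt n : ℂ)) s
        - 1 / (s - 1) + (M.map (fun ρ => 1 / (s - ρ))).sum := by
  have hsM : ∀ ρ ∈ M, s ≠ ρ := by
    rintro ρ hρ rfl
    have := (hB.mem s hρ).2.2.1
    linarith
  have h1 : logDeriv EZ s = logDeriv (Qp M) s + logDeriv Z s := by
    have h2 : EZ = fun z => Qp M z * Z z := funext hB.eq
    rw [h2, logDeriv_mul s (Qp_ne_zero M s hsM) (e6_ne hB hs)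
      (Qp_differentiable M s) (hB.diff s)]
  rw [logDeriv_EZ hs, logDeriv_Qp M s hsM] at h1
  linear_combination h1

theorem lineTwo (hK : KFacts) (hG : GBound) : LineTwo := by
  intro T M Z hT hB lam u hl hl1 hu
  obtain ⟨C, hC, hGb⟩ := hG
  obtain ⟨-, hG2⟩ := hGb T M Z hT hB
  have hs1 : ∀ t : ℝ, 1 < (((2 : ℝ) : ℂ) + t * Complex.I).re := by
    intro t; rw [line_re]; norm_num
  -- continuity of the logarithmic derivative on the line
  have hdZ : Differentiable ℂ (deriv Z) := by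
    have h1 := hB.diff.differentiableOn.deriv isOpen_univ
    rwa [differentiableOn_univ] at h1
  have hcont : Continuous (fun t : ℝ => -logDeriv Z (((2 : ℝ) : ℂ) + t * Complex.I)) := by
    have h1 : Continuous (fun t : ℝ => deriv Z (((2 : ℝ) : ℂ) + t * Complex.I)) :=
      hdZ.continuous.comp (by fun_prop)
    have h2 : Continuous (fun t : ℝ => Z (((2 : ℝ) : ℂ) + t * Complex.I)) :=
      hB.diff.continuous.comp (by fun_prop)
    have h3 := (h1.div h2 (fun t => e6_ne hB (hs1 t))).neg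
    exact h3
  set J : ℝ → ℂ := fun t => KK lam (((2 : ℝ) : ℂ) + t * Complex.I) *
      (-logDeriv Z (((2 : ℝ) : ℂ) + t * Complex.I)) * Complex.exp ((((2 : ℝ) : ℂ) + t * Complex.I) * u)
    with hJ
  have iJ : Integrable J := by
    have hA := A_integrable hK hl hl1 2 (by norm_num) le_rfl u
    have h1 := hA.mul_bdd (c := C * (Real.log (T + 2)) ^ 2)
      (g := fun t : ℝ => -logDeriv Z (((2 : ℝ) : ℂ) + t * Complex.I)) hcont.aestronglyMeasurable
      (Filter.Eventually.of_forall fun t => by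
        rw [norm_neg]
        have := hG2 t
        simpa using this)
    refine h1.congr (Filter.Eventually.of_forall fun t => ?_)
    simp only [hJ]
    ring
  refine ⟨iJ, ?_⟩
  have hmem : ∀ ρ ∈ M, ρ.re < 2 := fun ρ hρ => by linarith [(hB.mem ρ hρ).2.2.1]
  obtain ⟨ip, ep⟩ := polar_sum hK hl hl1 u hu M hmem
  obtain ⟨i1, e1⟩ := polar hK hl hl1 u hu 1 (by simp)
  have es := series hK hl hl1 u
  have hdecomp : ∀ t : ℝ, KK lam ((2 : ℝ) + t * Complex.I) *
      LSeries (fun n => (ArithmeticFunction.vonMangoldt n : ℂ)) ((2 : ℝ) + t * Complex.I) *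
      Complex.exp (((2 : ℝ) + t * Complex.I) * u) = J t +
      KK lam ((2 : ℝ) + t * Complex.I) * (1 / (((2 : ℝ) + t * Complex.I) - 1)) *
      Complex.exp (((2 : ℝ) + t * Complex.I) * u) -
      KK lam ((2 : ℝ) + t * Complex.I) * (M.map (fun ρ => 1 / (((2 : ℝ) + t * Complex.I) - ρ))).sum *
      Complex.exp (((2 : ℝ) + t * Complex.I) * u) := by
    intro t
    have := e6_logDeriv hB (hs1 t)
    simp only [hJ]
    rw [this]
    ring
  simp only [hdecomp] at es
  rw [integral3 iJ i1 ip, ep, e1] at es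
  have hfin : ∫ t : ℝ, J t = 2 * Real.pi * lhs (tri lam) 1 lam M u := by
    unfold lhs
    simp only [pow_one]
    rw [one_mul] at es
    linear_combination es
  have hpc : (Real.pi : ℂ) ≠ 0 := by exact_mod_cast Real.pi_pos.ne'
  rw [show (∫ t : ℝ, KK lam ((2 : ℝ) + t * Complex.I) *
      (-logDeriv Z ((2 : ℝ) + t * Complex.I)) * Complex.exp (((2 : ℝ) + t * Complex.I) * u)) =
      ∫ t : ℝ, J t from rfl, hfin,
    ← mul_assoc, one_div, inv_mul_cancel₀ (by simp), one_mul]

end Pool.Agent.M20.Helper1.KL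
end

/- Helper53.KN.Helper94.KSZ.N13 -/
section
/-!
Project KSZ, module N13: density with multiplicities.
-/

set_option autoImplicit false

open Finset

namespace Pool.Agent.M20.Helper94.KSZ

open Pool.Agent.M20.Helper18.KSZ

/-- a maximal spaced subset -/
theorem exists_maximal_spaced (Z : Finset ℂ) (δ : ℝ) :
    ∃ G ⊆ Z, (∀ ρ ∈ G, ∀ ρ' ∈ G, ρ ≠ ρ' → δ ≤ |ρ.im - ρ'.im|) ∧
      ∀ ρ ∈ Z, ρ ∈ G ∨ ∃ g ∈ G, |ρ.im - g.im| < δ := by
  classical
  let P : Finset (Finset ℂ) := Z.powerset.filter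
    (fun G => ∀ ρ ∈ G, ∀ ρ' ∈ G, ρ ≠ ρ' → δ ≤ |ρ.im - ρ'.im|)
  have hP : P.Nonempty := ⟨∅, by simp [P]⟩
  obtain ⟨G, hG, hmax⟩ := P.exists_max_image Finset.card hP
  simp only [P, mem_filter, mem_powerset] at hG hmax
  refine ⟨G, hG.1, hG.2, fun ρ hρ => ?_⟩
  by_contra hcon
  push Not at hcon
  obtain ⟨h1, h2⟩ := hcon
  have h3 := hmax (insert ρ G) ⟨insert_subset hρ hG.1, ?_⟩
  · rw [card_insert_of_notMem h1] at h3
    omega
  · intro a ha b hb hab
    rw [mem_insert] at ha hb
    rcases ha with rfl | ha <;> rcases hb with rfl | hb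
    · exact absurd rfl hab
    · exact h2 b hb
    · rw [abs_sub_comm]
      exact h2 a ha
    · exact hG.2 a ha b hb hab

theorem sum_biUnion_le_sum {α β : Type*} [DecidableEq α] [DecidableEq β] (s : Finset α)
    (t : α → Finset β) (f : β → ℝ) (hf : ∀ b, 0 ≤ f b) :
    ∑ b ∈ s.biUnion t, f b ≤ ∑ a ∈ s, ∑ b ∈ t a, f b := by
  induction s using Finset.induction_on with
  | empty => simp
  | insert a s ha ih =>
    rw [biUnion_insert, sum_insert ha]
    have h1 := Finset.sum_union_inter (s₁ := t a) (s₂ := s.biUnion t) (f := f)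
    have h2 : 0 ≤ ∑ b ∈ t a ∩ s.biUnion t, f b := Finset.sum_nonneg fun b _ => hf b
    (clear * - ih h1 h2; linarith)

theorem mz_nonneg (ρ : ℂ) : 0 ≤ mz ρ := Nat.cast_nonneg _

/-- N13 -/
theorem densityM (h9 : InA9) (h : Density) : DensityM := by
  classical
  obtain ⟨C9, hC9, h9⟩ := h9
  obtain ⟨ε, C, X0, hε, hC, h⟩ := h
  refine ⟨min ε (1 / 20), 5 * C * C9, max X0 16, by (clear * - hε; positivity), by positivity, ?_⟩
  intro X hX c hc1 hc2 Z hZ
  have hX0 : X0 ≤ X := (le_max_left _ _).trans hX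
  have hX16 : 16 ≤ X := (le_max_right _ _).trans hX
  have hXp : 0 < X := by (clear * - hX16; linarith)
  have hL1 : 1 ≤ Real.log X := by
    have h1 : Real.log 16 ≤ Real.log X := Real.log_le_log (by norm_num) hX16
    have h2 : Real.log 16 = 4 * Real.log 2 := by
      rw [show (16 : ℝ) = 2 ^ 4 by norm_num, Real.log_pow]
      norm_num
    have h3 : 0.6931471803 < Real.log 2 := Real.log_two_gt_d9
    (clear * - h1 h2 h3; linarith)
  set L := Real.log X with hL
  have hLp : 0 < L := by (clear * - hL1; linarith)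
  have hc3 : c ≤ ε * L := hc2.trans (mul_le_mul_of_nonneg_right (min_le_left _ _) hLp.le)
  have hc4 : c ≤ 1 / 20 * L := hc2.trans (mul_le_mul_of_nonneg_right (min_le_right _ _) hLp.le)
  obtain ⟨G, hGZ, hG1, hG2⟩ := exists_maximal_spaced Z (1 / L)
  have hcard : (G.card : ℝ) ≤ C * c ^ 5 * Real.exp (c / 2) :=
    h X hX0 c hc1 hc3 G (fun ρ hρ => hZ ρ (hGZ hρ)) hG1
  have hX3 : 2 ≤ X ^ (3 / 10 : ℝ) := by
    calc (2 : ℝ) ≤ (16 : ℝ) ^ (3 / 10 : ℝ) := by
          rw [show (16 : ℝ) = (2 : ℝ) ^ (4 : ℝ) by norm_num, ← Real.rpow_mul (by norm_num)]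
          calc (2 : ℝ) = (2 : ℝ) ^ (1 : ℝ) := by norm_num
            _ ≤ (2 : ℝ) ^ ((4 : ℝ) * (3 / 10)) :=
              Real.rpow_le_rpow_of_exponent_le (by norm_num) (by norm_num)
      _ ≤ X ^ (3 / 10 : ℝ) := Real.rpow_le_rpow (by norm_num) hX16 (by norm_num)
  have hX6 : X ^ (6 / 10 : ℝ) ≤ X := by
    calc X ^ (6 / 10 : ℝ) ≤ X ^ (1 : ℝ) :=
          Real.rpow_le_rpow_of_exponent_le (by (clear * - hX16; linarith)) (by norm_num)
      _ = X := Real.rpow_one X
  have hcL : 0 < c / L := by positivity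
  have hr : 2 * c / L ≤ 1 / 10 := by
    rw [div_le_iff₀ hLp]
    (clear * - hc4; linarith)
  -- the contribution of the points near g
  have hg : ∀ g ∈ G, ∑ ρ ∈ Z.filter (fun ρ => |ρ.im - g.im| < 1 / L), mz ρ ≤ 5 * C9 * c := by
    intro g hgG
    obtain ⟨_, _, hg3, hg6⟩ := hZ g (hGZ hgG)
    have h1 := h9 g.im (2 * c / L) (hX3.trans hg3) (by positivity) hr
      (Z.filter (fun ρ => |ρ.im - g.im| < 1 / L)) ?_
    · refine h1.trans ?_
      have h2 : Real.log (|g.im| + 2) ≤ 2 * L := by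
        have h3 : |g.im| + 2 ≤ X ^ 2 := by
          have := hg6.trans hX6
          (clear * - hX16 hX6 hg6; nlinarith)
        have h4 := Real.log_le_log (by (clear * -; positivity)) h3
        rw [Real.log_pow] at h4
        exact_mod_cast h4
      have h5 : 2 * c / L * Real.log (|g.im| + 2) ≤ 4 * c := by
        calc 2 * c / L * Real.log (|g.im| + 2) ≤ 2 * c / L * (2 * L) :=
              mul_le_mul_of_nonneg_left h2 (by positivity)
          _ = 4 * c := by field_simp; ring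
      (clear * - hC9 hc1 h5; nlinarith)
    · intro ρ hρ
      rw [mem_filter] at hρ
      obtain ⟨hρ0, hρ1, _, _⟩ := hZ ρ hρ.1
      refine ⟨hρ0, ?_⟩
      have h2 : ρ.re < 1 := by
        by_contra h3
        exact riemannZeta_ne_zero_of_one_le_re (not_lt.1 h3) hρ0
      have h4 := Complex.norm_le_abs_re_add_abs_im (ρ - (1 + (g.im : ℂ) * Complex.I))
      have h5 : (ρ - (1 + (g.im : ℂ) * Complex.I)).re = ρ.re - 1 := by simp
      have h6 : (ρ - (1 + (g.im : ℂ) * Complex.I)).im = ρ.im - g.im := by simp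
      rw [h5, h6, abs_of_neg (by (clear * - h2; linarith))] at h4
      have h7 : 1 / L ≤ c / L := div_le_div_of_nonneg_right hc1 hLp.le
      have h8 : 2 * c / L = c / L + c / L := by ring
      (clear * - hρ hρ1 h4 h7 h8; linarith [hρ.2])
  have hcov : Z ⊆ G.biUnion (fun g => Z.filter (fun ρ => |ρ.im - g.im| < 1 / L)) := by
    intro ρ hρ
    rw [mem_biUnion]
    rcases hG2 ρ hρ with h1 | ⟨g, hg1, hg2⟩
    · exact ⟨ρ, h1, mem_filter.2 ⟨hρ, by rw [sub_self, abs_zero]; positivity⟩⟩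
    · exact ⟨g, hg1, mem_filter.2 ⟨hρ, hg2⟩⟩
  calc ∑ ρ ∈ Z, mz ρ
      ≤ ∑ ρ ∈ G.biUnion (fun g => Z.filter (fun ρ => |ρ.im - g.im| < 1 / L)), mz ρ :=
        Finset.sum_le_sum_of_subset_of_nonneg hcov fun ρ _ _ => mz_nonneg ρ
    _ ≤ ∑ g ∈ G, ∑ ρ ∈ Z.filter (fun ρ => |ρ.im - g.im| < 1 / L), mz ρ :=
        sum_biUnion_le_sum _ _ _ mz_nonneg
    _ ≤ ∑ _g ∈ G, 5 * C9 * c := Finset.sum_le_sum hg
    _ = G.card * (5 * C9 * c) := by rw [sum_const, nsmul_eq_mul]
    _ ≤ (C * c ^ 5 * Real.exp (c / 2)) * (5 * C9 * c) :=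
        mul_le_mul_of_nonneg_right hcard (by positivity)
    _ = 5 * C * C9 * c ^ 6 * Real.exp (c / 2) := by ring

end Pool.Agent.M20.Helper94.KSZ
end

/- Helper53.KN.Helper79.PNT.Kernel -/
section
/-!
# The Fejer kernel and its Fourier transform
-/

set_option autoImplicit false

open MeasureTheory Filter Topology

namespace Pool.Agent.M20.Helper79.PNT

/-- the triangle weight of half width `l` -/
noncomputable def tri (l t : ℝ) : ℝ := max 0 (1 - |t| / l)

/-- the Fejer kernel -/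
noncomputable def fej (v : ℝ) : ℝ := if v = 0 then 1 else 2 * (1 - Real.cos v) / v ^ 2

theorem fej_nonneg (v : ℝ) : 0 ≤ fej v := by
  unfold fej
  split_ifs with h
  · norm_num
  · have := Real.cos_le_one v
    apply div_nonneg _ (by positivity)
    linarith

theorem fej_le_one (v : ℝ) : fej v ≤ 1 := by
  unfold fej
  split_ifs with h
  · exact le_refl _
  · rw [div_le_one (by positivity)]
    have := Real.one_sub_sq_div_two_le_cos (x := v)
    linarith

theorem fej_le (v : ℝ) : fej v ≤ 8 * (1 + v ^ 2)⁻¹ := by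
  rcases le_total (v ^ 2) 1 with h | h
  · refine (fej_le_one v).trans ?_
    rw [← div_eq_mul_inv, le_div_iff₀ (by positivity)]
    linarith
  · have hv : v ≠ 0 := by
      rintro rfl
      norm_num at h
    unfold fej
    rw [if_neg hv, ← div_eq_mul_inv, div_le_div_iff₀ (by positivity) (by positivity)]
    have h1 := Real.neg_one_le_cos v
    nlinarith [h1, h]

theorem measurable_fej : Measurable fej := by
  unfold fej
  refine Measurable.ite (measurableSet_singleton 0) measurable_const ?_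
  fun_prop

theorem integrable_fej : Integrable fej := by
  refine (integrable_inv_one_add_sq.const_mul 8).mono' measurable_fej.aestronglyMeasurable ?_
  filter_upwards with v
  rw [Real.norm_of_nonneg (fej_nonneg v)]
  exact fej_le v

theorem integral_fej_pos : 0 < ∫ v, fej v := by
  rw [integral_pos_iff_support_of_nonneg (fun v => fej_nonneg v) integrable_fej]
  have h : Set.Ioo (0 : ℝ) 1 ⊆ Function.support fej := by
    intro v hv
    simp only [Function.mem_support]
    unfold fej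
    rw [if_neg hv.1.ne']
    have h1 : Real.cos v < 1 := by
      have := Real.cos_lt_cos_of_nonneg_of_le_pi (x := 0) (y := v) le_rfl
        (by linarith [hv.2, Real.pi_gt_three]) hv.1
      simpa using this
    have h2 : 0 < v ^ 2 := by have := hv.1; positivity
    have : 0 < 2 * (1 - Real.cos v) / v ^ 2 := by
      apply div_pos _ h2
      linarith
    exact this.ne'
  refine lt_of_lt_of_le ?_ (measure_mono h)
  simp

theorem continuous_tri (l : ℝ) : Continuous (tri l) := by
  unfold tri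
  fun_prop

theorem tri_nonneg (l t : ℝ) : 0 ≤ tri l t := le_max_left _ _

theorem tri_eq_zero {l t : ℝ} (hl : 0 < l) (ht : l ≤ |t|) : tri l t = 0 := by
  unfold tri
  apply max_eq_left
  have : 1 ≤ |t| / l := by rwa [le_div_iff₀ hl, one_mul]
  linarith

theorem tri_eq {l t : ℝ} (hl : 0 < l) (ht : |t| ≤ l) : tri l t = 1 - |t| / l := by
  unfold tri
  apply max_eq_right
  have : |t| / l ≤ 1 := by rwa [div_le_one hl]
  linarith

theorem tri_support {l : ℝ} (hl : 0 < l) : Function.support (tri l) ⊆ Set.Ioc (-l) l := by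
  intro t ht
  by_contra hcon
  apply ht
  apply tri_eq_zero hl
  by_contra h2
  push Not at h2
  rw [abs_lt] at h2
  exact hcon ⟨h2.1, h2.2.le⟩

theorem hasCompactSupport_tri {l : ℝ} (hl : 0 < l) : HasCompactSupport (tri l) := by
  apply HasCompactSupport.of_support_subset_isCompact (isCompact_Icc (a := -l) (b := l))
  exact (tri_support hl).trans Set.Ioc_subset_Icc_self

theorem integrable_tri {l : ℝ} (hl : 0 < l) : Integrable (tri l) :=
  (continuous_tri l).integrable_of_hasCompactSupport (hasCompactSupport_tri hl)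

/-- half of the Fourier integral -/
theorem integral_half {l v : ℝ} (hl : 0 < l) (hv : v ≠ 0) :
    ∫ t in (0:ℝ)..l, (1 - t / l) * Real.cos (t * v) = (1 - Real.cos (l * v)) / (l * v ^ 2) := by
  have hd : ∀ t ∈ Set.uIcc (0:ℝ) l, HasDerivAt (fun t => (1 - t / l) * (Real.sin (t * v) / v) -
      Real.cos (t * v) / (l * v ^ 2)) ((1 - t / l) * Real.cos (t * v)) t := by
    intro t _
    have h1 : HasDerivAt (fun t : ℝ => 1 - t / l) (-(1 / l)) t := by
      simpa using ((hasDerivAt_id t).div_const l).const_sub 1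
    have h0 : HasDerivAt (fun t : ℝ => t * v) v t := by simpa using (hasDerivAt_id t).mul_const v
    have h2 : HasDerivAt (fun t : ℝ => Real.sin (t * v) / v) (Real.cos (t * v) * v / v) t :=
      h0.sin.div_const v
    have h3 : HasDerivAt (fun t : ℝ => Real.cos (t * v) / (l * v ^ 2))
        (-Real.sin (t * v) * v / (l * v ^ 2)) t := h0.cos.div_const _
    have h4 := (h1.fun_mul h2).fun_sub h3
    have hl' : l ≠ 0 := hl.ne'
    refine h4.congr_deriv ?_
    field_simp
    ring
  rw [intervalIntegral.integral_eq_sub_of_hasDerivAt hd]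
  · have : l ≠ 0 := hl.ne'
    field_simp
    simp
    ring
  · apply Continuous.intervalIntegrable
    fun_prop

theorem integral_tri_cos {l : ℝ} (hl : 0 < l) (v : ℝ) :
    ∫ t, tri l t * Real.cos (t * v) = l * fej (l * v) := by
  have h1 : ∫ t, tri l t * Real.cos (t * v) = ∫ t in (-l)..l, tri l t * Real.cos (t * v) := by
    symm
    apply intervalIntegral.integral_eq_integral_of_support_subset
    intro t ht
    apply tri_support hl
    intro h
    apply ht
    simp [h]
  have h2 : ∀ a b : ℝ, IntervalIntegrable (fun t => tri l t * Real.cos (t * v)) volume a b := by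
    intro a b
    apply Continuous.intervalIntegrable
    exact (continuous_tri l).mul (by fun_prop)
  rw [h1, ← intervalIntegral.integral_add_adjacent_intervals (h2 (-l) 0) (h2 0 l)]
  have h3 : ∫ t in (-l)..0, tri l t * Real.cos (t * v) = ∫ t in (0:ℝ)..l, tri l t * Real.cos (t * v) := by
    have := intervalIntegral.integral_comp_neg (a := 0) (b := l)
      (fun t => tri l t * Real.cos (t * v))
    simp only [neg_zero] at this
    rw [← this]
    apply intervalIntegral.integral_congr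
    intro t _
    simp only [tri, abs_neg]
    rw [neg_mul, Real.cos_neg]
  have h4 : ∫ t in (0:ℝ)..l, tri l t * Real.cos (t * v) =
      ∫ t in (0:ℝ)..l, (1 - t / l) * Real.cos (t * v) := by
    apply intervalIntegral.integral_congr
    intro t ht
    rw [Set.uIcc_of_le hl.le] at ht
    simp only
    rw [tri_eq hl (by rw [abs_of_nonneg ht.1]; exact ht.2), abs_of_nonneg ht.1]
  rw [h3, h4]
  by_cases hv : v = 0
  · subst hv
    simp only [mul_zero, Real.cos_zero, mul_one, fej, if_true]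
    have hd : ∀ t ∈ Set.uIcc (0:ℝ) l, HasDerivAt (fun t => t - t ^ 2 / (2 * l)) (1 - t / l) t := by
      intro t _
      have h5 : HasDerivAt (fun t : ℝ => t - t ^ 2 / (2 * l)) (1 - (2 * t) / (2 * l)) t := by
        have := (hasDerivAt_id' t).fun_sub ((hasDerivAt_pow 2 t).div_const (2 * l))
        simpa using this
      convert h5 using 1
      rw [mul_div_mul_left _ _ (by norm_num)]
    rw [intervalIntegral.integral_eq_sub_of_hasDerivAt hd]
    · field_simp
      ring
    · apply Continuous.intervalIntegrable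
      fun_prop
  · rw [integral_half hl hv]
    unfold fej
    rw [if_neg (mul_ne_zero hl.ne' hv)]
    have : l ≠ 0 := hl.ne'
    field_simp
    ring

theorem integral_tri_sin {l : ℝ} (v : ℝ) :
    ∫ t, tri l t * Real.sin (t * v) = 0 := by
  have h : ∫ t, tri l t * Real.sin (t * v) = -∫ t, tri l t * Real.sin (t * v) := by
    conv_lhs => rw [← integral_neg_eq_self]
    rw [← integral_neg]
    apply integral_congr_ae
    filter_upwards with t
    simp only [tri, abs_neg]
    rw [neg_mul, Real.sin_neg]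
    ring
  linarith

/-- the Fourier transform of the triangle is the Fejer kernel -/
theorem integral_tri_exp {l : ℝ} (hl : 0 < l) (v : ℝ) :
    ∫ t : ℝ, (tri l t : ℂ) * Complex.exp (Complex.I * (t * v)) = ((l * fej (l * v) : ℝ) : ℂ) := by
  have hc : Integrable (fun t => tri l t * Real.cos (t * v)) := by
    apply ((continuous_tri l).mul (by fun_prop)).integrable_of_hasCompactSupport
    exact (hasCompactSupport_tri hl).mul_right
  have hs : Integrable (fun t => tri l t * Real.sin (t * v)) := by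
    apply ((continuous_tri l).mul (by fun_prop)).integrable_of_hasCompactSupport
    exact (hasCompactSupport_tri hl).mul_right
  have h1 : ∀ t : ℝ, (tri l t : ℂ) * Complex.exp (Complex.I * (t * v)) =
      ((tri l t * Real.cos (t * v) : ℝ) : ℂ) + ((tri l t * Real.sin (t * v) : ℝ) : ℂ) * Complex.I := by
    intro t
    rw [mul_comm Complex.I, Complex.exp_mul_I]
    push_cast
    ring
  simp_rw [h1]
  rw [integral_add hc.ofReal (hs.ofReal.mul_const _), integral_mul_const]
  rw [integral_complex_ofReal, integral_complex_ofReal, integral_tri_cos hl, integral_tri_sin]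
  simp

end Pool.Agent.M20.Helper79.PNT
end

/- Helper53.KN.Helper79.PNT.Tauber -/
section
/-!
# The Tauberian step of the Wiener-Ikehara theorem
-/

set_option autoImplicit false

open MeasureTheory Filter Topology

namespace Pool.Agent.M20.Helper79.PNT

theorem exists_T {η : ℝ} (hη : 0 < η) :
    ∃ T : ℝ, 0 < T ∧ ∫ w in (Set.Icc (-T) T)ᶜ, fej w ≤ η * ∫ w, fej w := by
  have h := (aecover_Icc (μ := (volume : Measure ℝ)) tendsto_neg_atTop_atBot
    tendsto_id).integral_tendsto_of_countably_generated integrable_fej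
  have hI := integral_fej_pos
  have h2 : ∀ᶠ T : ℝ in atTop, (1 - η) * ∫ w, fej w < ∫ w in Set.Icc (-T) T, fej w := by
    apply h.eventually_const_lt
    (clear * - hη hI; nlinarith)
  obtain ⟨T, hT, hT0⟩ := (h2.and (eventually_gt_atTop 0)).exists
  refine ⟨T, hT0, ?_⟩
  have h3 := integral_add_compl (μ := (volume : Measure ℝ)) (s := Set.Icc (-T) T)
    measurableSet_Icc integrable_fej
  (clear * - hT h3; linarith)

section

variable {H : ℝ → ℝ} {A B : ℝ}

/-- the error function -/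
noncomputable def err (H : ℝ → ℝ) (A : ℝ) (u : ℝ) : ℝ := H u - if 0 < u then A else 0

theorem measurable_err (hmeas : Measurable H) : Measurable (err H A) := by
  unfold err
  exact hmeas.sub (Measurable.ite measurableSet_Ioi measurable_const measurable_const)

theorem integrable_err_fej (hmeas : Measurable H) (hbd : ∀ u, |err H A u| ≤ B) (l y : ℝ) :
    Integrable (fun w => err H A (y - w / l) * fej w) := by
  have h1 : Measurable (fun w : ℝ => err H A (y - w / l)) :=
    (measurable_err hmeas).comp (by fun_prop)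
  refine (integrable_fej.const_mul B).mono' (h1.mul measurable_fej).aestronglyMeasurable ?_
  filter_upwards with w
  rw [Real.norm_eq_abs, abs_mul, abs_of_nonneg (fej_nonneg w)]
  exact mul_le_mul_of_nonneg_right (hbd _) (fej_nonneg w)

theorem tauber (hA : 0 ≤ A) (hmeas : Measurable H) (hH0 : ∀ u, 0 ≤ H u)
    (hbd : ∀ u, |err H A u| ≤ B)
    (hmono : ∀ u v, u ≤ v → H u * Real.exp u ≤ H v * Real.exp v)
    (hconv : ∀ l : ℝ, 0 < l → Tendsto (fun y => ∫ w, err H A (y - w / l) * fej w) atTop (𝓝 0)) :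
    Tendsto H atTop (𝓝 A) := by
  have hB : 0 ≤ B := (abs_nonneg _).trans (hbd 0)
  have hI := integral_fej_pos
  set I := ∫ w, fej w with hIdef
  rw [Metric.tendsto_nhds]
  intro ε hε
  set η : ℝ := min (1/2) (ε / (A + 4 * (1 + B) + 1)) with hη
  have hη0 : 0 < η := by (clear * - hε hA hB; positivity)
  have hη2 : η ≤ 1/2 := min_le_left _ _
  have hηε : η * (A + 4 * (1 + B)) < ε := by
    have h1 : η ≤ ε / (A + 4 * (1 + B) + 1) := min_le_right _ _
    rw [le_div_iff₀ (by positivity)] at h1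
    (clear * - hη0 h1; nlinarith)
  exact by
    obtain ⟨T, hT0, hT⟩ := exists_T hη0
    -- choose `l`
    obtain ⟨l, hl0, hl⟩ : ∃ l : ℝ, 0 < l ∧ Real.exp (2 * T / l) ≤ 1 + η := by
      have h1 : Tendsto (fun l : ℝ => Real.exp (2 * T / l)) atTop (𝓝 1) := by
        have h2 : Tendsto (fun l : ℝ => 2 * T / l) atTop (𝓝 0) := tendsto_const_nhds.div_atTop tendsto_id
        have h3 := (Real.continuous_exp.tendsto 0).comp h2
        rw [Real.exp_zero] at h3
        exact h3
      have h4 : ∀ᶠ l : ℝ in atTop, Real.exp (2 * T / l) < 1 + η := by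
        apply h1.eventually_lt_const
        (clear * - hη0; linarith)
      obtain ⟨l, h5, h6⟩ := (h4.and (eventually_gt_atTop 0)).exists
      exact ⟨l, h6, h5.le⟩
    set F : ℝ → ℝ := fun y => ∫ w, err H A (y - w / l) * fej w with hF
    set IT := ∫ w in Set.Icc (-T) T, fej w with hIT
    have hITI : (1 - η) * I ≤ IT ∧ IT ≤ I := by
      have h3 := integral_add_compl (μ := (volume : Measure ℝ)) (s := Set.Icc (-T) T)
        measurableSet_Icc integrable_fej
      have h4 : 0 ≤ ∫ w in (Set.Icc (-T) T)ᶜ, fej w :=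
        setIntegral_nonneg measurableSet_Icc.compl fun w _ => fej_nonneg w
      constructor <;> (clear * - hT h3 h4; linarith)
    have hIT0 : 0 < IT := by (clear * - hI hITI hη2; nlinarith [hITI.1])
    -- tail bound
    have htail : ∀ y, |∫ w in (Set.Icc (-T) T)ᶜ, err H A (y - w / l) * fej w| ≤ B * (η * I) := by
      intro y
      calc |∫ w in (Set.Icc (-T) T)ᶜ, err H A (y - w / l) * fej w|
          ≤ ∫ w in (Set.Icc (-T) T)ᶜ, |err H A (y - w / l) * fej w| := abs_integral_le_integral_abs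
        _ ≤ ∫ w in (Set.Icc (-T) T)ᶜ, B * fej w := by
            apply setIntegral_mono_on
            · exact (integrable_err_fej hmeas hbd l y).abs.integrableOn
            · exact (integrable_fej.const_mul B).integrableOn
            · exact measurableSet_Icc.compl
            · intro w _
              rw [abs_mul, abs_of_nonneg (fej_nonneg w)]
              exact mul_le_mul_of_nonneg_right (hbd _) (fej_nonneg w)
        _ ≤ B * (η * I) := by
            rw [integral_const_mul]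
            exact mul_le_mul_of_nonneg_left hT hB
    have hsplit : ∀ y, F y = (∫ w in Set.Icc (-T) T, err H A (y - w / l) * fej w) +
        ∫ w in (Set.Icc (-T) T)ᶜ, err H A (y - w / l) * fej w := fun y =>
      (integral_add_compl measurableSet_Icc (integrable_err_fej hmeas hbd l y)).symm
    exact by
      have hTl : 0 < T / l := by positivity
      have hwl : ∀ w ∈ Set.Icc (-T) T, -(T / l) ≤ w / l ∧ w / l ≤ T / l := by
        intro w hw
        rw [← neg_div]
        exact ⟨div_le_div_of_nonneg_right hw.1 hl0.le, div_le_div_of_nonneg_right hw.2 hl0.le⟩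
      -- lower bound for `F y`
      have hlow : ∀ y, T / l < y → (H (y - T / l) * Real.exp (-(2 * T / l)) - A) * IT ≤
          ∫ w in Set.Icc (-T) T, err H A (y - w / l) * fej w := by
        intro y hy
        rw [hIT, ← integral_const_mul]
        apply setIntegral_mono_on
        · exact (integrable_fej.const_mul _).integrableOn
        · exact (integrable_err_fej hmeas hbd l y).integrableOn
        · exact measurableSet_Icc
        · intro w hw
          apply mul_le_mul_of_nonneg_right _ (fej_nonneg w)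
          obtain ⟨h1, h2⟩ := hwl w hw
          unfold err
          rw [if_pos (by (clear * - hy h2; linarith))]
          have h3 := hmono (y - T / l) (y - w / l) (by (clear * - h2; linarith))
          have h4 : H (y - T / l) * Real.exp (-(2 * T / l)) ≤ H (y - w / l) := by
            have h5 : Real.exp (-(2 * T / l)) ≤ Real.exp (y - T / l) * Real.exp (-(y - w / l)) := by
              rw [← Real.exp_add]
              apply Real.exp_le_exp.mpr
              have : 2 * T / l = T / l + T / l := by ring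
              rw [this]
              (clear * - h1; linarith)
            calc H (y - T / l) * Real.exp (-(2 * T / l))
                ≤ H (y - T / l) * (Real.exp (y - T / l) * Real.exp (-(y - w / l))) :=
                  mul_le_mul_of_nonneg_left h5 (hH0 _)
              _ = (H (y - T / l) * Real.exp (y - T / l)) * Real.exp (-(y - w / l)) := by ring
              _ ≤ (H (y - w / l) * Real.exp (y - w / l)) * Real.exp (-(y - w / l)) :=
                  mul_le_mul_of_nonneg_right h3 (Real.exp_pos _).le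
              _ = H (y - w / l) := by
                  rw [mul_assoc, ← Real.exp_add]
                  simp
          (clear * - h4; linarith)
      have hupp : ∀ y, T / l < y → ∫ w in Set.Icc (-T) T, err H A (y - w / l) * fej w ≤
          (H (y + T / l) * Real.exp (2 * T / l) - A) * IT := by
        intro y hy
        rw [hIT, ← integral_const_mul]
        apply setIntegral_mono_on
        · exact (integrable_err_fej hmeas hbd l y).integrableOn
        · exact (integrable_fej.const_mul _).integrableOn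
        · exact measurableSet_Icc
        · intro w hw
          exact by
            apply mul_le_mul_of_nonneg_right _ (fej_nonneg w)
            obtain ⟨h1, h2⟩ := hwl w hw
            unfold err
            rw [if_pos (by (clear * - hy h2; linarith))]
            have h3 := hmono (y - w / l) (y + T / l) (by (clear * - h1; linarith))
            have h4 : H (y - w / l) ≤ H (y + T / l) * Real.exp (2 * T / l) := by
              have h5 : Real.exp (y + T / l) * Real.exp (-(y - w / l)) ≤ Real.exp (2 * T / l) := by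
                rw [← Real.exp_add]
                apply Real.exp_le_exp.mpr
                have : 2 * T / l = T / l + T / l := by ring
                rw [this]
                (clear * - h2; linarith)
              calc H (y - w / l) = (H (y - w / l) * Real.exp (y - w / l)) * Real.exp (-(y - w / l)) := by
                    rw [mul_assoc, ← Real.exp_add]
                    simp
                _ ≤ (H (y + T / l) * Real.exp (y + T / l)) * Real.exp (-(y - w / l)) :=
                    mul_le_mul_of_nonneg_right h3 (Real.exp_pos _).le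
                _ = H (y + T / l) * (Real.exp (y + T / l) * Real.exp (-(y - w / l))) := by ring
                _ ≤ H (y + T / l) * Real.exp (2 * T / l) := mul_le_mul_of_nonneg_left h5 (hH0 _)
            (clear * - h4; linarith)
      have hFη : ∀ᶠ y in atTop, |F y| < η * I := by
        have h1 := (hconv l hl0).abs
        rw [abs_zero] at h1
        exact h1.eventually_lt_const (by (clear * - hε hA hB hI; positivity))
      obtain ⟨Y, hY⟩ := (hFη.and (eventually_gt_atTop (T / l))).exists_forall_of_atTop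
      filter_upwards [eventually_ge_atTop (Y + T / l)] with z hz
      have e1 : 0 < Real.exp (2 * T / l) := Real.exp_pos _
      exact by
        have e2 : Real.exp (-(2 * T / l)) * Real.exp (2 * T / l) = 1 := by
          rw [← Real.exp_add]; simp
        rw [Real.dist_eq, abs_lt]
        constructor
        · -- lower bound for `H z`, `y = z - T / l`
          have hy := hY (z - T / l) (by (clear * - hz; linarith))
          exact by
            have h1 := hupp (z - T / l) hy.2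
            rw [sub_add_cancel] at h1
            have h2 := hsplit (z - T / l)
            have h3 := htail (z - T / l)
            rw [abs_le] at h3
            have h4 := (abs_lt.mp hy.1).1
            have h5 : -((1 + B) * η * I) ≤ (H z * Real.exp (2 * T / l) - A) * IT := by (clear * - h1 h2 h3 h4; nlinarith [h3.2])
            have h6 : A - 2 * (1 + B) * η ≤ H z * Real.exp (2 * T / l) := by
              by_contra hcon
              push Not at hcon
              have h7 : (H z * Real.exp (2 * T / l) - A) * IT < (-(2 * (1 + B) * η)) * IT := by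
                apply mul_lt_mul_of_pos_right _ hIT0
                (clear * - hcon; linarith)
              have h8 : (-(2 * (1 + B) * η)) * IT ≤ -((1 + B) * η * I) := by
                have h9 : I ≤ 2 * IT := by (clear * - hITI hI hη2; nlinarith [hITI.1])
                have h10 : 0 ≤ (1 + B) * η := by (clear * - hB hε hA; positivity)
                (clear * - h1 h2 h3 hη0 h4 h7 hη2 hITI h10; nlinarith)
              (clear * - h1 h2 h3 h4 h7 h8; linarith)
            have h7 : H z * Real.exp (2 * T / l) ≤ H z * (1 + η) := mul_le_mul_of_nonneg_left hl (hH0 z)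
            have h8 : A - η * (A + 4 * (1 + B)) ≤ H z := by
              by_contra hcon
              push Not at hcon
              have h9 : H z * (1 + η) < (A - η * (A + 4 * (1 + B))) * (1 + η) :=
                mul_lt_mul_of_pos_right hcon (by (clear * - hη0 hη2; linarith))
              have h10 : 0 ≤ η * η * (A + 4 * (1 + B)) := by (clear * - hε hA hB; positivity)
              have h11 : 0 ≤ (1 + B) * η := by (clear * - hB hε hA; positivity)
              (clear * - h6 h7 h9 h10 h11; nlinarith)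
            (clear * - hηε h8; linarith)
        · have hy := hY (z + T / l) (by (clear * - hTl hz; linarith))
          exact by
            have h1 := hlow (z + T / l) hy.2
            rw [add_sub_cancel_right] at h1
            have h2 := hsplit (z + T / l)
            have h3 := htail (z + T / l)
            rw [abs_le] at h3
            have h4 := (abs_lt.mp hy.1).2
            have h5 : (H z * Real.exp (-(2 * T / l)) - A) * IT ≤ (1 + B) * η * I := by (clear * - h1 h2 h3 h4; nlinarith [h3.1])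
            have h6 : H z * Real.exp (-(2 * T / l)) ≤ A + 2 * (1 + B) * η := by
              by_contra hcon
              push Not at hcon
              have h7 : (2 * (1 + B) * η) * IT < (H z * Real.exp (-(2 * T / l)) - A) * IT := by
                apply mul_lt_mul_of_pos_right _ hIT0
                (clear * - hcon; linarith)
              have h8 : (1 + B) * η * I ≤ (2 * (1 + B) * η) * IT := by
                have h9 : I ≤ 2 * IT := by (clear * - hITI hI hη2; nlinarith [hITI.1])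
                have h10 : 0 ≤ (1 + B) * η := by (clear * - hB hε hA; positivity)
                (clear * - h1 h2 h3 hη0 h4 h7 hη2 hITI h10; nlinarith)
              (clear * - h1 h2 h3 h4 h7 h8; linarith)
            have h7 : H z ≤ (A + 2 * (1 + B) * η) * (1 + η) := by
              calc H z = H z * Real.exp (-(2 * T / l)) * Real.exp (2 * T / l) := by rw [mul_assoc, e2, mul_one]
                _ ≤ (A + 2 * (1 + B) * η) * Real.exp (2 * T / l) := mul_le_mul_of_nonneg_right h6 e1.le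
                _ ≤ (A + 2 * (1 + B) * η) * (1 + η) := mul_le_mul_of_nonneg_left hl (by (clear * - hA hB hε; positivity))
            have h8 : (A + 2 * (1 + B) * η) * (1 + η) ≤ A + η * (A + 4 * (1 + B)) := by
              have h10 : 0 ≤ (1 + B) * η := by (clear * - hB hε hA; positivity)
              (clear * - hITI h3 hI hη0 hIT0 hη2; nlinarith)
            (clear * - hηε h7 h8; linarith)

end

end Pool.Agent.M20.Helper79.PNT
end

/- Helper53.KN.Helper79.PNT.WI -/
section
/-!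
# The Wiener-Ikehara theorem (with an a priori Chebyshev bound)
-/

set_option autoImplicit false

open MeasureTheory Filter Topology

namespace Pool.Agent.M20.Helper79.PNT

/-- summatory function -/
noncomputable def summ (a : ℕ → ℝ) (x : ℝ) : ℝ := ∑ k ∈ Finset.Icc 1 ⌊x⌋₊, a k

/-- normalised summatory function in the exponential variable -/
noncomputable def Hf (a : ℕ → ℝ) (u : ℝ) : ℝ := summ a (Real.exp u) * Real.exp (-u)

section

variable {a : ℕ → ℝ} {A M : ℝ} {G : ℂ → ℂ}

theorem monotone_summ (ha : ∀ n, 0 ≤ a n) : Monotone (summ a) := by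
  intro x y hxy
  unfold summ
  apply Finset.sum_le_sum_of_subset_of_nonneg
  · exact Finset.Icc_subset_Icc_right (Nat.floor_mono hxy)
  · intro k _ _
    exact ha k

theorem summ_nonneg (ha : ∀ n, 0 ≤ a n) (x : ℝ) : 0 ≤ summ a x :=
  Finset.sum_nonneg fun k _ => ha k

theorem measurable_summ (ha : ∀ n, 0 ≤ a n) : Measurable (summ a) :=
  (monotone_summ ha).measurable

theorem measurable_Hf (ha : ∀ n, 0 ≤ a n) : Measurable (Hf a) := by
  unfold Hf
  exact ((measurable_summ ha).comp Real.measurable_exp).mul (by fun_prop)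

theorem Hf_nonneg (ha : ∀ n, 0 ≤ a n) (u : ℝ) : 0 ≤ Hf a u :=
  mul_nonneg (summ_nonneg ha _) (Real.exp_pos _).le

theorem Hf_mul_exp (u : ℝ) : Hf a u * Real.exp u = summ a (Real.exp u) := by
  unfold Hf
  rw [mul_assoc, ← Real.exp_add]
  simp

theorem Hf_mono (ha : ∀ n, 0 ≤ a n) (u v : ℝ) (huv : u ≤ v) :
    Hf a u * Real.exp u ≤ Hf a v * Real.exp v := by
  rw [Hf_mul_exp, Hf_mul_exp]
  exact monotone_summ ha (Real.exp_le_exp.mpr huv)

theorem Hf_neg {u : ℝ} (hu : u < 0) : Hf a u = 0 := by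
  unfold Hf summ
  have : ⌊Real.exp u⌋₊ = 0 := by
    rw [Nat.floor_eq_zero, ← Real.exp_zero]
    exact Real.exp_lt_exp.mpr hu
  rw [this]
  simp

theorem summ_le (hM : ∀ n : ℕ, ∑ k ∈ Finset.Icc 1 n, a k ≤ M * n) (hM0 : 0 ≤ M) {x : ℝ} (hx : 0 ≤ x) :
    summ a x ≤ M * x :=
  (hM ⌊x⌋₊).trans (mul_le_mul_of_nonneg_left (Nat.floor_le hx) hM0)

theorem Hf_le (hM : ∀ n : ℕ, ∑ k ∈ Finset.Icc 1 n, a k ≤ M * n) (hM0 : 0 ≤ M) (u : ℝ) :
    Hf a u ≤ M := by
  unfold Hf
  have h1 := summ_le hM hM0 (Real.exp_pos u).le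
  calc summ a (Real.exp u) * Real.exp (-u) ≤ (M * Real.exp u) * Real.exp (-u) :=
        mul_le_mul_of_nonneg_right h1 (Real.exp_pos _).le
    _ = M := by
        rw [mul_assoc, ← Real.exp_add]
        simp

theorem err_le (ha : ∀ n, 0 ≤ a n) (hM : ∀ n : ℕ, ∑ k ∈ Finset.Icc 1 n, a k ≤ M * n)
    (hM0 : 0 ≤ M) (hA : 0 ≤ A) (u : ℝ) : |err (Hf a) A u| ≤ M + A := by
  unfold err
  have h1 := Hf_nonneg ha u
  have h2 := Hf_le hM hM0 u
  rw [abs_le]
  split_ifs <;> constructor <;> linarith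

theorem exp_cpow (u : ℝ) (z : ℂ) : ((Real.exp u : ℝ) : ℂ) ^ z = Complex.exp (u * z) := by
  rw [Complex.cpow_def_of_ne_zero (by exact_mod_cast (Real.exp_pos u).ne'),
    ← Complex.ofReal_log (Real.exp_pos u).le, Real.log_exp]

theorem integrableOn_exp_neg {z : ℂ} (hz : 0 < z.re) :
    IntegrableOn (fun u : ℝ => Complex.exp (-z * u)) (Set.Ioi 0) :=
  integrableOn_exp_mul_complex_Ioi (by simpa using hz) 0

theorem integrableOn_mul_exp {f : ℝ → ℝ} {B : ℝ} (hf : Measurable f) (hB : ∀ u, |f u| ≤ B)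
    {z : ℂ} (hz : 0 < z.re) :
    IntegrableOn (fun u : ℝ => (f u : ℂ) * Complex.exp (-z * u)) (Set.Ioi 0) := by
  have h1 : IntegrableOn (fun u : ℝ => B * ‖Complex.exp (-z * u)‖) (Set.Ioi 0) :=
    (integrableOn_exp_neg hz).norm.const_mul B
  refine Integrable.mono' h1 ?_ ?_
  · apply Measurable.aestronglyMeasurable
    exact (Complex.measurable_ofReal.comp hf).mul (by fun_prop)
  · filter_upwards with u
    rw [norm_mul, Complex.norm_real, Real.norm_eq_abs]
    exact mul_le_mul_of_nonneg_right (hB u) (norm_nonneg _)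

theorem isBigO_sum (ha : ∀ n, 0 ≤ a n) (hM : ∀ n : ℕ, ∑ k ∈ Finset.Icc 1 n, a k ≤ M * n) :
    (fun n : ℕ => ∑ k ∈ Finset.Icc 1 n, a k) =O[atTop] fun n => (n : ℝ) ^ (1 : ℝ) := by
  apply Asymptotics.IsBigO.of_bound M
  filter_upwards with n
  rw [Real.norm_of_nonneg (Finset.sum_nonneg fun k _ => ha k), Real.rpow_one,
    Real.norm_of_nonneg (Nat.cast_nonneg n)]
  exact hM n

/-- Laplace transform of `Hf` -/
theorem laplace_Hf (ha : ∀ n, 0 ≤ a n) (hM : ∀ n : ℕ, ∑ k ∈ Finset.Icc 1 n, a k ≤ M * n)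
    {s : ℂ} (hs : 1 < s.re) :
    LSeries (fun n => (a n : ℂ)) s =
      s * ∫ u in Set.Ioi (0:ℝ), (Hf a u : ℂ) * Complex.exp (-(s - 1) * u) := by
  rw [LSeries_eq_mul_integral_of_nonneg a zero_le_one hs (isBigO_sum ha hM) ha]
  congr 1
  have himg : Real.exp '' Set.Ioi 0 = Set.Ioi 1 := by
    ext x
    simp only [Set.mem_image, Set.mem_Ioi]
    constructor
    · rintro ⟨u, hu, rfl⟩
      exact Real.one_lt_exp_iff.mpr hu
    · intro hx
      refine ⟨Real.log x, Real.log_pos hx, Real.exp_log (by linarith)⟩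
  rw [← himg, integral_image_eq_integral_abs_deriv_smul (f' := Real.exp) measurableSet_Ioi
    (fun x _ => (Real.hasDerivAt_exp x).hasDerivWithinAt) Real.exp_injective.injOn]
  apply setIntegral_congr_fun measurableSet_Ioi
  intro u _
  simp only
  rw [abs_of_pos (Real.exp_pos u), exp_cpow, Complex.real_smul]
  unfold Hf summ
  push_cast
  have h1 : Complex.exp (u * -(s + 1)) * Complex.exp u = Complex.exp (-(u:ℂ)) * Complex.exp (-(s - 1) * u) := by
    rw [← Complex.exp_add, ← Complex.exp_add]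
    congr 1
    ring
  calc Complex.exp ↑u * ((∑ k ∈ Finset.Icc 1 ⌊Real.exp u⌋₊, (a k : ℂ)) * Complex.exp (↑u * -(s + 1)))
      = (∑ k ∈ Finset.Icc 1 ⌊Real.exp u⌋₊, (a k : ℂ)) * (Complex.exp (↑u * -(s + 1)) * Complex.exp ↑u) := by ring
    _ = _ := by rw [h1]; ring

theorem laplace_const {s : ℂ} (hs : 1 < s.re) (A : ℝ) :
    ∫ u in Set.Ioi (0:ℝ), (A : ℂ) * Complex.exp (-(s - 1) * u) = A / (s - 1) := by
  rw [integral_const_mul, integral_exp_mul_complex_Ioi (by simpa using hs)]
  have : s - 1 ≠ 0 := by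
    intro h
    have := congrArg Complex.re h
    simp at this
    linarith
  simp only [Complex.ofReal_zero, mul_zero, Complex.exp_zero]
  field_simp

/-- The Laplace transform of the error -/
theorem laplace_err (ha : ∀ n, 0 ≤ a n) (hM : ∀ n : ℕ, ∑ k ∈ Finset.Icc 1 n, a k ≤ M * n)
    (hM0 : 0 ≤ M) (hA : 0 ≤ A)
    (hG : ∀ s : ℂ, 1 < s.re → G s = LSeries (fun n => (a n : ℂ)) s - A / (s - 1))
    {s : ℂ} (hs : 1 < s.re) :
    ∫ u in Set.Ioi (0:ℝ), (err (Hf a) A u : ℂ) * Complex.exp (-(s - 1) * u) = (G s - A) / s := by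
  have hs0 : s ≠ 0 := by
    rintro rfl
    simp at hs
    linarith
  have hs1 : s - 1 ≠ 0 := by
    intro h
    have := congrArg Complex.re h
    simp at this
    linarith
  have h1 : ∫ u in Set.Ioi (0:ℝ), (err (Hf a) A u : ℂ) * Complex.exp (-(s - 1) * u) =
      ∫ u in Set.Ioi (0:ℝ), ((Hf a u : ℂ) * Complex.exp (-(s - 1) * u) -
        (A : ℂ) * Complex.exp (-(s - 1) * u)) := by
    apply setIntegral_congr_fun measurableSet_Ioi
    intro u hu
    simp only [err]
    rw [if_pos (Set.mem_Ioi.mp hu)]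
    push_cast
    ring
  have hz : 0 < (s - 1).re := by simpa using hs
  rw [h1, integral_sub, laplace_const hs, hG s hs, laplace_Hf ha hM hs]
  · field_simp
    ring
  · apply integrableOn_mul_exp (measurable_Hf ha) (B := M) _ hz
    intro u
    rw [abs_of_nonneg (Hf_nonneg ha u)]
    exact Hf_le hM hM0 u
  · exact (integrableOn_exp_neg hz).const_mul _

end

end Pool.Agent.M20.Helper79.PNT
end

/- Helper53.KN.Helper79.PNT.WI2 -/
section
/-!
# The Wiener-Ikehara theorem: smoothed identity and conclusion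
-/

set_option autoImplicit false

open MeasureTheory Filter Topology

namespace Pool.Agent.M20.Helper79.PNT

section

variable {a : ℕ → ℝ} {A M : ℝ} {G : ℂ → ℂ}

theorem smooth_eps (ha : ∀ n, 0 ≤ a n) (hM : ∀ n : ℕ, ∑ k ∈ Finset.Icc 1 n, a k ≤ M * n)
    (hM0 : 0 ≤ M) (hA : 0 ≤ A)
    (hG : ∀ s : ℂ, 1 < s.re → G s = LSeries (fun n => (a n : ℂ)) s - A / (s - 1))
    {l : ℝ} (hl : 0 < l) {ε : ℝ} (hε : 0 < ε) (y : ℝ) :
    ∫ t : ℝ, (tri l t : ℂ) * Complex.exp (Complex.I * (t * y)) *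
        ((G (1 + ε + Complex.I * t) - A) / (1 + ε + Complex.I * t)) =
      ((∫ u in Set.Ioi (0:ℝ), err (Hf a) A u * Real.exp (-ε * u) * (l * fej (l * (y - u))) : ℝ) : ℂ) := by
  have hre : ∀ t : ℝ, 1 < (1 + ε + Complex.I * t : ℂ).re := by
    intro t
    simp
    exact hε
  have hB : ∀ u, |err (Hf a) A u| ≤ M + A := err_le ha hM hM0 hA
  set F : ℝ → ℝ → ℂ := fun t u => (tri l t : ℂ) * Complex.exp (Complex.I * (t * y)) *
    ((err (Hf a) A u : ℂ) * Complex.exp (-(ε + Complex.I * t) * u)) with hF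
  have h1 : ∀ t : ℝ, (tri l t : ℂ) * Complex.exp (Complex.I * (t * y)) *
        ((G (1 + ε + Complex.I * t) - A) / (1 + ε + Complex.I * t)) =
      ∫ u in Set.Ioi (0:ℝ), F t u := by
    intro t
    rw [← laplace_err ha hM hM0 hA hG (hre t), ← integral_const_mul]
    apply setIntegral_congr_fun measurableSet_Ioi
    intro u _
    simp only [hF]
    congr 3
    ring
  simp_rw [h1]
  rw [integral_integral_swap]
  · rw [← integral_complex_ofReal]
    apply integral_congr_ae
    filter_upwards with u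
    have h2 : ∀ t : ℝ, F t u = ((err (Hf a) A u * Real.exp (-ε * u) : ℝ) : ℂ) *
        ((tri l t : ℂ) * Complex.exp (Complex.I * (t * ((y - u : ℝ) : ℂ)))) := by
      intro t
      simp only [hF]
      push_cast
      have h3 : Complex.exp (Complex.I * (t * y)) * Complex.exp (-(ε + Complex.I * t) * u) =
          Complex.exp (-ε * u) * Complex.exp (Complex.I * (t * (y - u))) := by
        rw [← Complex.exp_add, ← Complex.exp_add]
        congr 1
        ring
      linear_combination (tri l t : ℂ) * (err (Hf a) A u : ℂ) * h3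
    simp_rw [h2]
    rw [integral_const_mul, integral_tri_exp hl]
    push_cast
    ring
  · -- integrability on the product
    have hg : IntegrableOn (fun u : ℝ => (M + A) * ‖Complex.exp (-(ε:ℂ) * u)‖) (Set.Ioi 0) :=
      (integrableOn_exp_neg (z := (ε : ℂ)) (by simpa using hε)).norm.const_mul _
    have hprod := (integrable_tri hl).mul_prod hg
    refine hprod.mono' ?_ ?_
    · apply Measurable.aestronglyMeasurable
      have m1 : Measurable (fun p : ℝ × ℝ => (tri l p.1 : ℂ)) :=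
        Complex.measurable_ofReal.comp ((continuous_tri l).measurable.comp measurable_fst)
      have m2 : Measurable (fun p : ℝ × ℝ => (err (Hf a) A p.2 : ℂ)) :=
        Complex.measurable_ofReal.comp ((measurable_err (measurable_Hf ha)).comp measurable_snd)
      have m3 : Measurable (fun p : ℝ × ℝ => Complex.exp (Complex.I * (p.1 * y))) := by fun_prop
      have m4 : Measurable (fun p : ℝ × ℝ => Complex.exp (-(ε + Complex.I * p.1) * p.2)) := by
        fun_prop
      exact (m1.mul m3).mul (m2.mul m4)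
    · filter_upwards with p
      simp only [Function.uncurry, hF]
      rw [norm_mul, norm_mul, norm_mul, Complex.norm_real, Complex.norm_real,
        Real.norm_of_nonneg (tri_nonneg _ _), Real.norm_eq_abs]
      have e1 : ‖Complex.exp (Complex.I * (p.1 * y))‖ = 1 := by
        rw [show Complex.I * ((p.1 : ℂ) * y) = ((p.1 * y : ℝ) : ℂ) * Complex.I by push_cast; ring]
        exact Complex.norm_exp_ofReal_mul_I _
      have e2 : ‖Complex.exp (-(ε + Complex.I * p.1) * p.2)‖ = ‖Complex.exp (-(ε:ℂ) * p.2)‖ := by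
        rw [Complex.norm_exp, Complex.norm_exp]
        congr 1
        simp
      rw [e1, e2, mul_one]
      apply mul_le_mul_of_nonneg_left _ (tri_nonneg _ _)
      exact mul_le_mul_of_nonneg_right (hB _) (norm_nonneg _)

theorem integrable_fej_comp {l : ℝ} (hl : 0 < l) (y : ℝ) :
    Integrable (fun u => l * fej (l * (y - u))) := by
  have h1 : Integrable (fun v => fej (l * v)) := integrable_fej.comp_mul_left' hl.ne'
  have h2 := h1.comp_sub_left y
  exact h2.const_mul l

theorem smooth_zero (ha : ∀ n, 0 ≤ a n) (hM : ∀ n : ℕ, ∑ k ∈ Finset.Icc 1 n, a k ≤ M * n)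
    (hM0 : 0 ≤ M) (hA : 0 ≤ A) (hGc : ContinuousOn G {s | 1 ≤ s.re})
    (hG : ∀ s : ℂ, 1 < s.re → G s = LSeries (fun n => (a n : ℂ)) s - A / (s - 1))
    {l : ℝ} (hl : 0 < l) (y : ℝ) :
    ∫ t : ℝ, (tri l t : ℂ) * Complex.exp (Complex.I * (t * y)) *
        ((G (1 + Complex.I * t) - A) / (1 + Complex.I * t)) =
      ((∫ u in Set.Ioi (0:ℝ), err (Hf a) A u * (l * fej (l * (y - u))) : ℝ) : ℂ) := by
  have hB : ∀ u, |err (Hf a) A u| ≤ M + A := err_le ha hM hM0 hA
  set Φ : ℂ → ℂ := fun s => (G s - A) / s with hΦ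
  have hΦc : ContinuousOn Φ {s | 1 ≤ s.re} := by
    apply (hGc.sub continuousOn_const).div continuousOn_id
    intro s hs
    rintro rfl
    have : (1:ℝ) ≤ (0:ℂ).re := hs
    norm_num at this
  -- the sequence
  set e : ℕ → ℝ := fun n => 1 / ((n : ℝ) + 1) with he
  have he0 : ∀ n, 0 < e n := fun n => by simp only [he]; (clear * -; positivity)
  have he1 : ∀ n, e n ≤ 1 := fun n => by
    simp only [he]
    rw [div_le_one (by (clear * -; positivity))]
    have : (0:ℝ) ≤ n := Nat.cast_nonneg n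
    (clear * -; linarith)
  have hlim : Tendsto e atTop (𝓝 0) := tendsto_one_div_add_atTop_nhds_zero_nat
  -- compact set
  set g : ℝ × ℝ → ℂ := fun p => Φ (1 + p.1 + Complex.I * p.2) with hg
  have hgc : ContinuousOn g (Set.Icc (0:ℝ) 1 ×ˢ Set.Icc (-l) l) := by
    apply hΦc.comp
    · apply Continuous.continuousOn
      fun_prop
    · intro p hp
      simp
      exact hp.1.1
  obtain ⟨C, hC⟩ := (isCompact_Icc.prod isCompact_Icc).exists_bound_of_continuousOn hgc
  have hL : Tendsto (fun n => ∫ t : ℝ, (tri l t : ℂ) * Complex.exp (Complex.I * (t * y)) *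
        Φ (1 + e n + Complex.I * t)) atTop (𝓝 (∫ t : ℝ, (tri l t : ℂ) *
          Complex.exp (Complex.I * (t * y)) * Φ (1 + Complex.I * t))) := by
    apply tendsto_integral_of_dominated_convergence (fun t => |C| * tri l t)
    · intro n
      apply Continuous.aestronglyMeasurable
      apply Continuous.mul
      · apply Continuous.mul
        · exact Complex.continuous_ofReal.comp (continuous_tri l)
        · fun_prop
      · apply hΦc.comp_continuous (by fun_prop)
        intro t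
        simp
        exact (he0 n).le
    · exact (integrable_tri hl).const_mul _
    · intro n
      filter_upwards with t
      by_cases ht : |t| ≤ l
      · rw [norm_mul, norm_mul, Complex.norm_real, Real.norm_of_nonneg (tri_nonneg _ _)]
        have e1 : ‖Complex.exp (Complex.I * (t * y))‖ = 1 := by
          rw [show Complex.I * ((t : ℂ) * y) = ((t * y : ℝ) : ℂ) * Complex.I by push_cast; ring]
          exact Complex.norm_exp_ofReal_mul_I _
        rw [e1, mul_one, mul_comm]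
        apply mul_le_mul_of_nonneg_right _ (tri_nonneg _ _)
        have := hC (e n, t) ⟨⟨(he0 n).le, he1 n⟩, abs_le.mp ht⟩
        exact this.trans (le_abs_self C)
      · rw [tri_eq_zero hl (by linarith [not_le.mp ht])]
        simp
    · filter_upwards with t
      apply Tendsto.mul tendsto_const_nhds
      have h1 : ContinuousWithinAt Φ {s | 1 ≤ s.re} (1 + Complex.I * t) := by
        apply hΦc
        simp
      have h2 : Tendsto (fun n => (1 + e n + Complex.I * t : ℂ)) atTop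
          (𝓝[{s | 1 ≤ s.re}] (1 + Complex.I * t)) := by
        apply tendsto_nhdsWithin_iff.mpr
        constructor
        · have h3 : Tendsto (fun n => ((e n : ℝ) : ℂ)) atTop (𝓝 ((0:ℝ):ℂ)) :=
            (Complex.continuous_ofReal.tendsto 0).comp hlim
          have h4 := (h3.const_add 1).add_const (Complex.I * t)
          simpa using h4
        · filter_upwards with n
          simp
          exact (he0 n).le
      exact h1.tendsto.comp h2
  have hR : Tendsto (fun n => ((∫ u in Set.Ioi (0:ℝ), err (Hf a) A u * Real.exp (-(e n) * u) *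
        (l * fej (l * (y - u))) : ℝ) : ℂ)) atTop
      (𝓝 ((∫ u in Set.Ioi (0:ℝ), err (Hf a) A u * (l * fej (l * (y - u))) : ℝ) : ℂ)) := by
    apply (Complex.continuous_ofReal.tendsto _).comp
    apply tendsto_integral_of_dominated_convergence (fun u => (M + A) * (l * fej (l * (y - u))))
    · intro n
      apply Measurable.aestronglyMeasurable
      apply Measurable.mul
      · exact (measurable_err (measurable_Hf ha)).mul (by fun_prop)
      · exact (measurable_fej.comp (by fun_prop)).const_mul l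
    · exact ((integrable_fej_comp hl y).const_mul _).integrableOn
    · intro n
      filter_upwards [ae_restrict_mem measurableSet_Ioi] with u hu
      have hk : 0 ≤ l * fej (l * (y - u)) := mul_nonneg hl.le (fej_nonneg _)
      rw [Real.norm_eq_abs, abs_mul, abs_mul, abs_of_nonneg hk, abs_of_pos (Real.exp_pos _)]
      apply mul_le_mul_of_nonneg_right _ hk
      have h1 : Real.exp (-(e n) * u) ≤ 1 := by
        rw [Real.exp_le_one_iff]
        have : 0 < u := hu
        (clear * - this he0; nlinarith [he0 n])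
      calc |err (Hf a) A u| * Real.exp (-(e n) * u) ≤ |err (Hf a) A u| * 1 :=
            mul_le_mul_of_nonneg_left h1 (abs_nonneg _)
        _ ≤ M + A := by rw [mul_one]; exact hB u
    · filter_upwards with u
      apply Tendsto.mul _ tendsto_const_nhds
      have h1 : Tendsto (fun n => Real.exp (-(e n) * u)) atTop (𝓝 (Real.exp (-0 * u))) :=
        (Real.continuous_exp.tendsto _).comp ((hlim.neg).mul_const u)
      have h2 := h1.const_mul (err (Hf a) A u)
      simpa using h2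
  have hEq : ∀ n, ∫ t : ℝ, (tri l t : ℂ) * Complex.exp (Complex.I * (t * y)) *
        Φ (1 + e n + Complex.I * t) = ((∫ u in Set.Ioi (0:ℝ), err (Hf a) A u *
          Real.exp (-(e n) * u) * (l * fej (l * (y - u))) : ℝ) : ℂ) := fun n =>
    smooth_eps ha hM hM0 hA hG hl (he0 n) y
  simp_rw [hEq] at hL
  exact tendsto_nhds_unique hL hR

theorem change_var (ha : ∀ n, 0 ≤ a n) {l : ℝ} (hl : 0 < l) (y : ℝ) :
    ∫ u in Set.Ioi (0:ℝ), err (Hf a) A u * (l * fej (l * (y - u))) =
      ∫ w, err (Hf a) A (y - w / l) * fej w := by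
  rw [← integral_Ici_eq_integral_Ioi, setIntegral_eq_integral_of_forall_compl_eq_zero]
  · rw [← integral_sub_left_eq_self _ volume y]
    have h1 := Measure.integral_comp_mul_left (fun w => err (Hf a) A (y - w / l) * fej w) l
    rw [abs_of_pos (inv_pos.mpr hl), smul_eq_mul] at h1
    have h2 : ∫ w, err (Hf a) A (y - w / l) * fej w =
        l * ∫ x, err (Hf a) A (y - l * x / l) * fej (l * x) := by
      rw [h1, ← mul_assoc, mul_inv_cancel₀ hl.ne', one_mul]
    rw [h2, ← integral_const_mul]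
    apply integral_congr_ae
    filter_upwards with x
    rw [mul_div_cancel_left₀ _ hl.ne', sub_sub_cancel]
    ring
  · intro u hu
    have : u < 0 := by simpa using hu
    unfold err
    rw [Hf_neg this, if_neg (by linarith)]
    simp

theorem conv_tendsto (ha : ∀ n, 0 ≤ a n) (hM : ∀ n : ℕ, ∑ k ∈ Finset.Icc 1 n, a k ≤ M * n)
    (hM0 : 0 ≤ M) (hA : 0 ≤ A) (hGc : ContinuousOn G {s | 1 ≤ s.re})
    (hG : ∀ s : ℂ, 1 < s.re → G s = LSeries (fun n => (a n : ℂ)) s - A / (s - 1))
    {l : ℝ} (hl : 0 < l) :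
    Tendsto (fun y => ∫ w, err (Hf a) A (y - w / l) * fej w) atTop (𝓝 0) := by
  set f : ℝ → ℂ := fun t => (tri l t : ℂ) * ((G (1 + Complex.I * t) - A) / (1 + Complex.I * t)) with hf
  have h1 := Real.tendsto_integral_exp_smul_cocompact f
  have h2 : Tendsto (fun y : ℝ => -y / (2 * Real.pi)) atTop (cocompact ℝ) := by
    apply Tendsto.mono_right _ atBot_le_cocompact
    have h3 : Tendsto (fun y : ℝ => y / (2 * Real.pi)) atTop atTop :=
      tendsto_id.atTop_div_const (by positivity)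
    have h4 := tendsto_neg_atTop_atBot.comp h3
    refine h4.congr fun y => ?_
    simp only [Function.comp]
    ring
  have h3 := h1.comp h2
  have h4 : ∀ y : ℝ, ((fun w : ℝ => ∫ v : ℝ, Real.fourierChar (-(v * w)) • f v) ∘
      fun y : ℝ => -y / (2 * Real.pi)) y =
      ((∫ w, err (Hf a) A (y - w / l) * fej w : ℝ) : ℂ) := by
    intro y
    rw [← change_var ha hl, ← smooth_zero ha hM hM0 hA hGc hG hl]
    simp only [Function.comp]
    apply integral_congr_ae
    filter_upwards with t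
    rw [Circle.smul_def, Real.fourierChar_apply, smul_eq_mul]
    have h5 : ((2 * Real.pi * -(t * (-y / (2 * Real.pi))) : ℝ) : ℂ) * Complex.I =
        Complex.I * (t * y) := by
      have h6 : 2 * Real.pi * -(t * (-y / (2 * Real.pi))) = t * y := by
        have := Real.pi_pos
        (clear * -; field_simp)
      rw [h6]
      push_cast
      ring
    rw [h5]
    simp only [hf]
    ring
  have h5 : Tendsto (fun y => ((∫ w, err (Hf a) A (y - w / l) * fej w : ℝ) : ℂ)) atTop (𝓝 0) :=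
    h3.congr h4
  have h6 := (Complex.continuous_re.tendsto 0).comp h5
  simpa [Function.comp_def] using h6

/-- **Wiener-Ikehara theorem** for nonnegative coefficients with an a priori bound -/
theorem wiener_ikehara (ha : ∀ n, 0 ≤ a n) (hM : ∀ n : ℕ, ∑ k ∈ Finset.Icc 1 n, a k ≤ M * n)
    (hM0 : 0 ≤ M) (hA : 0 ≤ A) (hGc : ContinuousOn G {s | 1 ≤ s.re})
    (hG : ∀ s : ℂ, 1 < s.re → G s = LSeries (fun n => (a n : ℂ)) s - A / (s - 1)) :
    Tendsto (fun x : ℝ => (∑ k ∈ Finset.Icc 1 ⌊x⌋₊, a k) / x) atTop (𝓝 A) := by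
  have h1 := tauber hA (measurable_Hf ha) (Hf_nonneg ha) (err_le ha hM hM0 hA) (Hf_mono ha)
    (fun l hl => conv_tendsto ha hM hM0 hA hGc hG hl)
  have h2 := h1.comp Real.tendsto_log_atTop
  refine h2.congr' ?_
  filter_upwards [eventually_gt_atTop 0] with x hx
  simp only [Function.comp, Hf, summ]
  rw [Real.exp_log hx, Real.exp_neg, Real.exp_log hx, div_eq_mul_inv]

end

end Pool.Agent.M20.Helper79.PNT
end

/- Helper53.KN.Helper79.PNT.Main -/
section
/-!
# The prime number theorem, also in arithmetic progressions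

Consequences of the Wiener-Ikehara theorem `wiener_ikehara`.

* `psi_ap`   : `∑_{k ≤ x, k ≡ a (q)} Λ k / x → 1 / φ(q)`
* `theta_ap` : `∑_{p ≤ x, p ≡ a (q)} log p / x → 1 / φ(q)`
* `pi_ap`    : `#{p ≤ x, p ≡ a (q)} log x / x → 1 / φ(q)`
* `psi_tendsto`, `theta_tendsto`, `pi_tendsto` : the prime number theorem
-/

set_option autoImplicit false

open Filter Topology

namespace Pool.Agent.M20.Helper79.PNT

open ArithmeticFunction in
theorem psi_ap {q : ℕ} [NeZero q] {a : ZMod q} (ha : IsUnit a) :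
    Tendsto (fun x : ℝ => (∑ k ∈ Finset.Icc 1 ⌊x⌋₊, vonMangoldt.residueClass a k) / x) atTop
      (𝓝 (q.totient : ℝ)⁻¹) := by
  have hle : ∀ n, vonMangoldt.residueClass a n ≤ vonMangoldt n := fun n =>
    vonMangoldt.residueClass_le a n
  apply wiener_ikehara (M := Real.log 4 + 4) (G := vonMangoldt.LFunctionResidueClassAux a)
    (fun n => vonMangoldt.residueClass_nonneg a n)
  · intro n
    have h1 := Chebyshev.psi_le_const_mul_self (x := (n : ℝ)) (Nat.cast_nonneg n)
    refine le_trans ?_ h1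
    unfold Chebyshev.psi
    rw [Nat.floor_natCast]
    exact Finset.sum_le_sum fun k _ => hle k
  · have := Real.log_nonneg (x := 4) (by norm_num)
    linarith
  · positivity
  · exact vonMangoldt.continuousOn_LFunctionResidueClassAux a
  · intro s hs
    have := vonMangoldt.eqOn_LFunctionResidueClassAux ha (x := s) hs
    simpa using this

open ArithmeticFunction in
/-- the prime number theorem for `ψ` -/
theorem psi_tendsto : Tendsto (fun x : ℝ => Chebyshev.psi x / x) atTop (𝓝 1) := by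
  have h := psi_ap (q := 1) (a := 1) isUnit_one
  simp only [Nat.totient_one, Nat.cast_one, inv_one] at h
  refine h.congr fun x => ?_
  congr 1
  unfold Chebyshev.psi
  apply Finset.sum_congr rfl
  intro k _
  simp only [vonMangoldt.residueClass, Set.indicator_apply, Set.mem_ofPred_eq]
  rw [if_pos (Subsingleton.elim _ _)]

/-- the prime number theorem for `θ` -/
theorem theta_tendsto : Tendsto (fun x : ℝ => Chebyshev.theta x / x) atTop (𝓝 1) := by
  have h1 : Tendsto (fun x : ℝ => (Chebyshev.psi - Chebyshev.theta) x / x) atTop (𝓝 0) := by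
    have h2 := Chebyshev.isBigO_psi_sub_theta_sqrt
    have h3 : (fun x : ℝ => Real.sqrt x) =o[atTop] (fun x : ℝ => x) := by
      rw [Asymptotics.isLittleO_iff_tendsto' (by
        filter_upwards [eventually_gt_atTop 0] with x hx h
        exact absurd h hx.ne')]
      have h4 : Tendsto (fun x : ℝ => (Real.sqrt x)⁻¹) atTop (𝓝 0) :=
        tendsto_inv_atTop_zero.comp Real.tendsto_sqrt_atTop
      refine h4.congr' ?_
      filter_upwards [eventually_gt_atTop 0] with x hx
      have := Real.mul_self_sqrt hx.le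
      have h5 : 0 < Real.sqrt x := Real.sqrt_pos.mpr hx
      rw [eq_div_iff hx.ne']
      nth_rewrite 2 [← this]
      field_simp
    exact (h2.trans_isLittleO h3).tendsto_div_nhds_zero
  have h2 := psi_tendsto.sub h1
  rw [sub_zero] at h2
  refine h2.congr fun x => ?_
  simp only [Pi.sub_apply]
  ring

end Pool.Agent.M20.Helper79.PNT
end

/- Helper53.KN.Helper60.KS.StE2 -/
section
/-! Project KS, design D5: counting of the cells without numbers `q m`, `m` prime of size `X^0.495` (CountE2). -/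

set_option autoImplicit false
open Filter Topology MeasureTheory
open scoped Classical

namespace Pool.Agent.M20.Helper60.KS

/-- `M = 2^(em k)`, about `X^0.495` for `X = 2^k` -/
def em (k : ℕ) : ℕ := 99 * k / 200

/-- the prime multipliers: primes in `(M, 2M]`, `M = 2^(em k)` -/
noncomputable def PM (k : ℕ) : Finset ℕ := (Finset.Ioc (2 ^ em k) (2 * 2 ^ em k)).filter Nat.Prime

/-- sum of the reciprocals -/
noncomputable def S1 (k : ℕ) : ℝ := ∑ m ∈ PM k, 1 / (m : ℝ)

/-- indicator function of the primes -/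
noncomputable def gP (n : ℕ) : ℂ := if n.Prime then 1 else 0

/-- number of pairs `(m, q)`, `q` prime, `m ∈ PM k`, `m q` in the `j`-th cell of length `2^e` of `[2^k, 2^(k+1))` -/
noncomputable def nE2 (k e j : ℕ) : ℕ :=
  ((PM k ×ˢ Finset.range (2 ^ (k + 1))).filter (fun p => p.2.Prime ∧ 2 ^ k + j * 2 ^ e ≤ p.1 * p.2 ∧
    p.1 * p.2 < 2 ^ k + (j + 1) * 2 ^ e)).card

/-- **CountE2**: at most `2^(U k)` cells of length `2^⌊k(1/2-d)⌋` contain fewer than `c0 2^e / k^2` numbers `q m` -/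
def CountE2 (U : ℝ) : Prop := ∃ d0 : ℝ, 0 < d0 ∧ ∀ d : ℝ, 0 < d → d ≤ d0 → ∃ c0 : ℝ, 0 < c0 ∧ ∃ K : ℕ, ∀ k : ℕ,
  K ≤ k → (((Finset.range (2 ^ (k - ec d k))).filter (fun j =>
    (nE2 k (ec d k) j : ℝ) < c0 * 2 ^ ec d k / (k : ℝ) ^ 2)).card : ℝ) ≤ (2 : ℝ) ^ (U * (k : ℝ))

/-- explicit formula: a cell with few numbers `q m` makes the weighted sum over the zeros large -/
def BadZeroE2 : Prop := ∀ d : ℝ, 0 < d → d ≤ 1/100 → ∃ c0 : ℝ, 0 < c0 ∧ ∃ K : ℕ, ∀ k : ℕ, K ≤ k →
  ∃ (F : Finset ℂ) (c : ℂ → ℂ) (u : ℕ → ℝ) (Exc : Finset ℕ),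
  (∀ ρ ∈ F, riemannZeta ρ = 0 ∧ 0.6 < ρ.re ∧ |ρ.im| ≤ ((2 : ℝ) ^ k) ^ (1/2 + 2 * d) + 1) ∧
  (∀ ρ ∈ F, ‖c ρ‖ ≤ 2) ∧
  (∀ j < 2 ^ (k - ec d k), Real.log (2 ^ k) ≤ u j ∧ u j ≤ Real.log (2 ^ k) + 1) ∧
  (∀ j < 2 ^ (k - ec d k), ∀ j' < 2 ^ (k - ec d k), j ≠ j' → 1 / ((2 : ℝ) ^ k) ^ (1/2 + 2 * d) ≤ |u j - u j'|) ∧
  (Exc.card : ℝ) ≤ ((2 : ℝ) ^ k) ^ (0.12 + 5 * d) ∧
  ∀ j < 2 ^ (k - ec d k), j ∉ Exc → (nE2 k (ec d k) j : ℝ) < c0 * 2 ^ ec d k / (k : ℝ) ^ 2 →
    1/2 * S1 k ≤ ‖∑ ρ ∈ F, (mz ρ : ℂ) * c ρ * DP gP (2 ^ em k) 2 ρ * Complex.exp ((ρ - 1) * (u j : ℂ))‖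

/-- Theorem N with weight `X^(κ0 (β - 1))`, `κ0 > 1/2` -/
def ThmNk (κ0 : ℝ) : Prop := ∃ ε0 X0 : ℝ, 0 < ε0 ∧ ε0 ≤ 1/100 ∧ ∀ X : ℝ, X0 ≤ X → ∀ F : Finset ℂ,
  (∀ ρ ∈ F, riemannZeta ρ = 0 ∧ 1 - ε0 ≤ ρ.re ∧ |ρ.im| ≤ X ^ (0.6 : ℝ)) →
  ∑ ρ ∈ F, (mz ρ : ℝ) * X ^ (κ0 * (ρ.re - 1)) ≤ 1/16

/-- Chebyshev -/
def S1Lower : Prop := ∃ c : ℝ, 0 < c ∧ ∃ K : ℕ, ∀ k : ℕ, K ≤ k → c / k ≤ S1 k

/-- one class of zeros, with `V ≤ |P(ρ)| ≤ 2 V`; `δ = ε0 / 10^8` -/
def ClassBoundE2 : Prop := ∀ ε0 δ d : ℝ, 0 < ε0 → ε0 ≤ 1/100 → δ = ε0 / 10 ^ 8 → 0 < d → d ≤ δ → ∃ X0 : ℝ,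
  ∀ (X x V : ℝ) (Z : Finset ℂ) (c : ℂ → ℂ) (g : ℕ → ℂ) (N M : ℕ) (U : Finset ℝ), X0 ≤ X → ε0 ≤ x → x ≤ 0.4 + δ →
  X ^ (0.495 : ℝ) / 4 ≤ M → (M : ℝ) ≤ X ^ (0.495 : ℝ) → X ^ (-1 : ℝ) ≤ V →
  InStrip Z (1 - x) (1 - x + δ) (X ^ (1/2 + 2 * d) + 1) → Spaced1 Z →
  (∀ n, ‖g n‖ ≤ (n.divisors.card : ℝ)) →
  X ^ δ / 2 ≤ N → (N : ℝ) ≤ X ^ (yy x / 2 + 45 * δ) → (∀ ρ ∈ Z, 1 / (16 * Real.log X) ≤ ‖DP g N 2 ρ‖) →
  (∀ ρ ∈ Z, V ≤ ‖DP gP M 2 ρ‖ ∧ ‖DP gP M 2 ρ‖ ≤ 2 * V) →
  (∀ ρ ∈ Z, ‖c ρ‖ ≤ Real.log X ^ 2) → (∀ u ∈ U, Real.log X ≤ u ∧ u ≤ Real.log X + 1) →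
  SpacedR U (1 / X ^ (1/2 + 2 * d)) →
  (∀ u ∈ U, 1 / Real.log X ^ 6 ≤ ‖∑ ρ ∈ Z, c ρ * DP gP M 2 ρ * Complex.exp ((ρ - 1) * (u : ℂ))‖) →
  (U.card : ℝ) ≤ X ^ (0.171 : ℝ)

end Pool.Agent.M20.Helper60.KS
end

/- Helper53.KN.Helper4.KC.Count -/
section
/-! Helper lemma for KC-7: Gaussian pair sums against the number of close pairs. -/

set_option autoImplicit false
open scoped BigOperators Classical

namespace Pool.Agent.M20.Helper4.KC

noncomputable def kd (d : ℤ) : ℝ := Real.exp (-|(d : ℝ)|)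

lemma kd_nonneg (d : ℤ) : 0 ≤ kd d := (Real.exp_pos _).le

lemma kd_neg (d : ℤ) : kd (-d) = kd d := by simp [kd]

lemma summable_kd : Summable kd := by
  have h1 : Summable (fun n : ℕ => Real.exp (-(n : ℝ))) := by
    have := Real.summable_exp_neg_nat
    simpa using this
  refine Summable.of_nat_of_neg ?_ ?_
  · refine h1.congr (fun n => ?_)
    simp [kd]
  · refine h1.congr (fun n => ?_)
    simp [kd]

noncomputable def C1 : ℝ := ∑' d : ℤ, kd d

lemma sum_kd_le (M : Finset ℤ) (m : ℤ) : ∑ m' ∈ M, kd (m - m') ≤ C1 := by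
  have h : ∑ m' ∈ M, kd (m - m') = ∑ d ∈ M.image (fun m' => m - m'), kd d := by
    rw [Finset.sum_image]
    intro a _ b _ hab
    simp only at hab
    omega
  rw [h]
  exact summable_kd.sum_le_tsum _ (fun d _ => kd_nonneg d)

lemma C1_nonneg : 0 ≤ C1 := tsum_nonneg kd_nonneg

theorem pair_sum_kd {ι : Type} (S : Finset ι) (m : ι → ℤ) :
    ∑ p ∈ S, ∑ q ∈ S, kd (m p - m q) ≤
      C1 * ((S ×ˢ S).filter (fun p => m p.1 = m p.2)).card := by
  set N : ℤ → ℝ := fun a => ((S.filter (fun q => m q = a)).card : ℝ) with hN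
  set M := S.image m with hM
  have e1 : ∀ p : ι, ∑ q ∈ S, kd (m p - m q) = ∑ a ∈ M, N a * kd (m p - a) := by
    intro p
    rw [Finset.sum_comp (fun a => kd (m p - a)) m]
    refine Finset.sum_congr rfl (fun a _ => ?_)
    rw [nsmul_eq_mul]
  have e2 : ∑ p ∈ S, ∑ q ∈ S, kd (m p - m q) = ∑ a ∈ M, N a * ∑ b ∈ M, N b * kd (a - b) := by
    rw [Finset.sum_congr rfl (fun p _ => e1 p)]
    rw [Finset.sum_comp (fun a => ∑ b ∈ M, N b * kd (a - b)) m]
    refine Finset.sum_congr rfl (fun a _ => ?_)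
    rw [nsmul_eq_mul]
  have e3 : (((S ×ˢ S).filter (fun p => m p.1 = m p.2)).card : ℝ) = ∑ a ∈ M, N a * N a := by
    rw [Finset.card_filter, Nat.cast_sum, Finset.sum_product]
    have : ∀ p ∈ S, (∑ q ∈ S, (((if m p = m q then 1 else 0 : ℕ)) : ℝ)) = N (m p) := by
      intro p _
      rw [hN]
      simp only
      rw [Finset.card_filter, Nat.cast_sum]
      refine Finset.sum_congr rfl (fun q _ => ?_)
      simp only [eq_comm]
    rw [Finset.sum_congr rfl this]
    rw [Finset.sum_comp (fun a => N a) m]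
    refine Finset.sum_congr rfl (fun a _ => ?_)
    rw [nsmul_eq_mul]
  rw [e2, e3]
  have hNn : ∀ a, 0 ≤ N a := fun a => Nat.cast_nonneg _
  exact by
    calc ∑ a ∈ M, N a * ∑ b ∈ M, N b * kd (a - b)
        = ∑ a ∈ M, ∑ b ∈ M, N a * N b * kd (a - b) := by
          refine Finset.sum_congr rfl (fun a _ => ?_)
          rw [Finset.mul_sum]
          refine Finset.sum_congr rfl (fun b _ => ?_)
          ring
      _ ≤ ∑ a ∈ M, ∑ b ∈ M, ((N a * N a) * kd (a - b) / 2 + (N b * N b) * kd (b - a) / 2) := by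
          refine Finset.sum_le_sum (fun a _ => Finset.sum_le_sum (fun b _ => ?_))
          have h1 : kd (b - a) = kd (a - b) := by rw [← kd_neg]; congr 1; ring
          rw [h1]
          have h2 := kd_nonneg (a - b)
          nlinarith [mul_nonneg (sq_nonneg (N a - N b)) h2]
      _ = ∑ a ∈ M, ∑ b ∈ M, (N a * N a) * kd (a - b) := by
          have : ∑ a ∈ M, ∑ b ∈ M, (N b * N b) * kd (b - a) / 2 =
              ∑ a ∈ M, ∑ b ∈ M, (N a * N a) * kd (a - b) / 2 := Finset.sum_comm
          simp only [Finset.sum_add_distrib]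
          rw [this, ← Finset.sum_add_distrib]
          refine Finset.sum_congr rfl (fun a _ => ?_)
          rw [← Finset.sum_add_distrib]
          refine Finset.sum_congr rfl (fun b _ => ?_)
          ring
      _ = ∑ a ∈ M, (N a * N a) * ∑ b ∈ M, kd (a - b) := by
          refine Finset.sum_congr rfl (fun a _ => ?_)
          rw [Finset.mul_sum]
      _ ≤ ∑ a ∈ M, (N a * N a) * C1 := by
          refine Finset.sum_le_sum (fun a _ => ?_)
          exact mul_le_mul_of_nonneg_left (sum_kd_le M a) (mul_nonneg (hNn a) (hNn a))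
      _ = C1 * ∑ a ∈ M, N a * N a := by
          rw [← Finset.sum_mul]; ring

/-- Gaussian pair sum is bounded by the number of pairs at distance at most one. -/
theorem pair_sum_gauss {ι : Type} (S : Finset ι) (y : ι → ℝ) :
    ∑ p ∈ S, ∑ q ∈ S, Real.exp (-(y p - y q) ^ 2 / 4) ≤
      Real.exp 2 * C1 * ((S ×ˢ S).filter (fun p => |y p.1 - y p.2| ≤ 1)).card := by
  have h1 := pair_sum_kd S (fun p => ⌊y p⌋)
  have h2 : (((S ×ˢ S).filter (fun p => ⌊y p.1⌋ = ⌊y p.2⌋)).card : ℝ) ≤
      ((S ×ˢ S).filter (fun p => |y p.1 - y p.2| ≤ 1)).card := by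
    norm_cast
    refine Finset.card_le_card (fun p hp => ?_)
    rw [Finset.mem_filter] at hp ⊢
    refine ⟨hp.1, ?_⟩
    have a1 := Int.floor_le (y p.1)
    have a2 := Int.lt_floor_add_one (y p.1)
    have b1 := Int.floor_le (y p.2)
    have b2 := Int.lt_floor_add_one (y p.2)
    have h := hp.2
    rw [h] at a1 a2
    rw [abs_le]
    constructor <;> linarith
  have h3 : ∀ p q : ι, Real.exp (-(y p - y q) ^ 2 / 4) ≤ Real.exp 2 * kd (⌊y p⌋ - ⌊y q⌋) := by
    intro p q
    rw [kd, ← Real.exp_add]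
    apply Real.exp_le_exp.mpr
    have a1 := Int.floor_le (y p)
    have a2 := Int.lt_floor_add_one (y p)
    have b1 := Int.floor_le (y q)
    have b2 := Int.lt_floor_add_one (y q)
    push_cast
    have h4 : |((⌊y p⌋ : ℝ) - ⌊y q⌋)| ≤ |y p - y q| + 1 := by
      have : ((⌊y p⌋ : ℝ) - ⌊y q⌋) = (y p - y q) + ((y q - ⌊y q⌋) - (y p - ⌊y p⌋)) := by ring
      rw [this]
      refine (abs_add_le _ _).trans ?_
      gcongr
      rw [abs_le]
      constructor <;> linarith
    have h5 : |y p - y q| ≤ (y p - y q) ^ 2 / 4 + 1 := by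
      rw [abs_le]
      constructor <;> nlinarith [sq_nonneg (y p - y q - 2), sq_nonneg (y p - y q + 2)]
    linarith
  calc ∑ p ∈ S, ∑ q ∈ S, Real.exp (-(y p - y q) ^ 2 / 4)
      ≤ ∑ p ∈ S, ∑ q ∈ S, Real.exp 2 * kd (⌊y p⌋ - ⌊y q⌋) :=
        Finset.sum_le_sum (fun p _ => Finset.sum_le_sum (fun q _ => h3 p q))
    _ = Real.exp 2 * ∑ p ∈ S, ∑ q ∈ S, kd (⌊y p⌋ - ⌊y q⌋) := by
        rw [Finset.mul_sum]
        refine Finset.sum_congr rfl (fun p _ => ?_)
        rw [Finset.mul_sum]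
    _ ≤ Real.exp 2 * (C1 * ((S ×ˢ S).filter (fun p => ⌊y p.1⌋ = ⌊y p.2⌋)).card) := by
        gcongr
    _ ≤ Real.exp 2 * (C1 * ((S ×ˢ S).filter (fun p => |y p.1 - y p.2| ≤ 1)).card) := by
        have := C1_nonneg
        gcongr
    _ = _ := by ring

end Pool.Agent.M20.Helper4.KC
end

/- Helper53.KN.Helper73.KC.Gauss -/
section
/-! KC-8, part 1: Gaussian mean value of a Dirichlet polynomial against a family of centres. -/

set_option autoImplicit false
open MeasureTheory Complex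

namespace Pool.Agent.M20.Helper73.KC

/-- the Gaussian integral with centre `a` and frequency `y` -/
lemma gauss_int (a y : ℝ) :
    Integrable (fun t : ℝ => cexp (-((t - a : ℝ) : ℂ) ^ 2) * cexp (-(I * t * y))) ∧
    ∫ t : ℝ, cexp (-((t - a : ℝ) : ℂ) ^ 2) * cexp (-(I * t * y)) =
      (Real.pi / (-(-1 : ℂ))) ^ (1 / 2 : ℂ) * cexp (-(y ^ 2 / 4 : ℂ)) * cexp (-(I * a * y)) := by
  have h1 : (fun t : ℝ => cexp (-((t - a : ℝ) : ℂ) ^ 2) * cexp (-(I * t * y))) =
      fun t : ℝ => cexp ((-1 : ℂ) * (t : ℂ) ^ 2 + (2 * a - I * y) * t + (-(a : ℂ) ^ 2)) := by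
    funext t
    rw [← Complex.exp_add]
    congr 1
    push_cast
    ring
  have hb : ((-1 : ℂ)).re < 0 := by norm_num
  refine ⟨?_, ?_⟩
  · rw [h1]
    exact integrable_cexp_quadratic' hb _ _
  · rw [h1, integral_cexp_quadratic hb, mul_assoc, ← Complex.exp_add]
    congr 2
    have := Complex.I_sq
    ring_nf
    rw [this]
    ring

lemma norm_gauss_const : ‖((Real.pi : ℂ) / (-(-1 : ℂ))) ^ (1 / 2 : ℂ)‖ ≤ 2 := by
  have h1 : ((Real.pi : ℂ) / (-(-1 : ℂ))) = ((Real.pi : ℝ) : ℂ) := by simp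
  rw [h1, Complex.norm_cpow_eq_rpow_re_of_pos Real.pi_pos]
  have h2 : (1 / 2 : ℂ).re = (1 / 2 : ℝ) := by norm_num
  rw [h2]
  calc Real.pi ^ (1 / 2 : ℝ) ≤ (4 : ℝ) ^ (1 / 2 : ℝ) :=
        Real.rpow_le_rpow Real.pi_pos.le (by linarith [Real.pi_lt_four]) (by norm_num)
    _ = 2 := by
      rw [← Real.sqrt_eq_rpow]
      rw [show (4 : ℝ) = 2 ^ 2 by norm_num]
      exact Real.sqrt_sq (by norm_num)

variable {κ ι : Type*}

/-- pointwise expansion -/
lemma expand (P : Finset κ) (a : κ → ℝ) (S : Finset ι) (c : ι → ℂ) (y : ι → ℝ) (t : ℝ) :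
    (((∑ p ∈ P, Real.exp (-(t - a p) ^ 2)) *
      ‖∑ j ∈ S, c j * cexp (-(I * t * y j))‖ ^ 2 : ℝ) : ℂ) =
    ∑ j ∈ S, ∑ k ∈ S, ∑ p ∈ P, c j * (starRingEnd ℂ) (c k) *
      (cexp (-((t - a p : ℝ) : ℂ) ^ 2) * cexp (-(I * t * ((y j - y k : ℝ) : ℂ)))) := by
  have h1 : ((‖∑ j ∈ S, c j * cexp (-(I * t * y j))‖ ^ 2 : ℝ) : ℂ) =
      (∑ j ∈ S, c j * cexp (-(I * t * y j))) * (starRingEnd ℂ) (∑ j ∈ S, c j * cexp (-(I * t * y j))) := by
    rw [Complex.mul_conj, Complex.normSq_eq_norm_sq]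
  have h2 : ∀ j, (starRingEnd ℂ) (c j * cexp (-(I * t * y j))) =
      (starRingEnd ℂ) (c j) * cexp (I * t * y j) := by
    intro j
    rw [map_mul, ← Complex.exp_conj]
    congr 2
    simp
  push_cast
  rw [show (((‖∑ j ∈ S, c j * cexp (-(I * t * y j))‖ : ℝ) : ℂ)) ^ 2 =
    ((‖∑ j ∈ S, c j * cexp (-(I * t * y j))‖ ^ 2 : ℝ) : ℂ) by push_cast; rfl, h1, map_sum,
    Finset.sum_mul_sum, Finset.mul_sum]
  refine Finset.sum_congr rfl fun j _ => ?_
  rw [Finset.mul_sum]
  refine Finset.sum_congr rfl fun k _ => ?_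
  rw [Finset.sum_mul]
  refine Finset.sum_congr rfl fun p _ => ?_
  rw [h2]
  have h3 : cexp (-(I * t * ((y j : ℂ) - (y k : ℂ)))) =
      cexp (-(I * t * y j)) * cexp (I * t * y k) := by
    rw [← Complex.exp_add]
    congr 1
    ring
  rw [h3]
  ring

/-- mean value -/
theorem gauss_mean (P : Finset κ) (a : κ → ℝ) (S : Finset ι) (c : ι → ℂ) (y : ι → ℝ) :
    Integrable (fun t : ℝ => (∑ p ∈ P, Real.exp (-(t - a p) ^ 2)) *
      ‖∑ j ∈ S, c j * cexp (-(I * t * y j))‖ ^ 2) ∧
    ∫ t : ℝ, (∑ p ∈ P, Real.exp (-(t - a p) ^ 2)) *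
      ‖∑ j ∈ S, c j * cexp (-(I * t * y j))‖ ^ 2 ≤
    2 * ∑ j ∈ S, ∑ k ∈ S, ‖c j‖ * ‖c k‖ *
      ‖∑ p ∈ P, cexp (-(I * a p * ((y j - y k : ℝ) : ℂ)))‖ := by
  set f : ℝ → ℝ := fun t => (∑ p ∈ P, Real.exp (-(t - a p) ^ 2)) *
      ‖∑ j ∈ S, c j * cexp (-(I * t * y j))‖ ^ 2 with hf
  have hint : Integrable (fun t : ℝ => ((f t : ℝ) : ℂ)) := by
    have : (fun t : ℝ => ((f t : ℝ) : ℂ)) = fun t : ℝ =>
        ∑ j ∈ S, ∑ k ∈ S, ∑ p ∈ P, c j * (starRingEnd ℂ) (c k) *
        (cexp (-((t - a p : ℝ) : ℂ) ^ 2) * cexp (-(I * t * ((y j - y k : ℝ) : ℂ)))) := by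
      funext t
      exact expand P a S c y t
    rw [this]
    refine integrable_finsetSum _ fun j _ => integrable_finsetSum _ fun k _ =>
      integrable_finsetSum _ fun p _ => ?_
    exact (gauss_int (a p) (y j - y k)).1.const_mul _
  have hfint : Integrable f := by
    have := hint.re
    simpa using this
  refine ⟨hfint, ?_⟩
  have h1 : ((∫ t, f t : ℝ) : ℂ) = ∑ j ∈ S, ∑ k ∈ S, ∑ p ∈ P, c j * (starRingEnd ℂ) (c k) *
      ((Real.pi / (-(-1 : ℂ))) ^ (1 / 2 : ℂ) * cexp (-(((y j - y k : ℝ) : ℂ) ^ 2 / 4 : ℂ)) *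
        cexp (-(I * a p * ((y j - y k : ℝ) : ℂ)))) := by
    rw [← integral_complex_ofReal]
    have : (fun t : ℝ => ((f t : ℝ) : ℂ)) = fun t : ℝ =>
        ∑ j ∈ S, ∑ k ∈ S, ∑ p ∈ P, c j * (starRingEnd ℂ) (c k) *
        (cexp (-((t - a p : ℝ) : ℂ) ^ 2) * cexp (-(I * t * ((y j - y k : ℝ) : ℂ)))) := by
      funext t
      exact expand P a S c y t
    rw [this]
    rw [integral_finsetSum _ fun j _ => ?_]
    · refine Finset.sum_congr rfl fun j _ => ?_
      rw [integral_finsetSum _ fun k _ => ?_]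
      · refine Finset.sum_congr rfl fun k _ => ?_
        rw [integral_finsetSum _ fun p _ => ?_]
        · refine Finset.sum_congr rfl fun p _ => ?_
          rw [integral_const_mul, (gauss_int (a p) (y j - y k)).2]
        · exact (gauss_int (a p) (y j - y k)).1.const_mul _
      · exact integrable_finsetSum _ fun p _ => (gauss_int (a p) (y j - y k)).1.const_mul _
    · exact integrable_finsetSum _ fun k _ =>
        integrable_finsetSum _ fun p _ => (gauss_int (a p) (y j - y k)).1.const_mul _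
  have h2 : ∫ t, f t ≤ ‖((∫ t, f t : ℝ) : ℂ)‖ := by
    rw [Complex.norm_real]
    exact le_abs_self _
  refine h2.trans ?_
  rw [h1, Finset.mul_sum]
  refine (norm_sum_le _ _).trans (Finset.sum_le_sum fun j _ => ?_)
  rw [Finset.mul_sum]
  refine (norm_sum_le _ _).trans (Finset.sum_le_sum fun k _ => ?_)
  have h3 : ∑ p ∈ P, c j * (starRingEnd ℂ) (c k) *
      ((Real.pi / (-(-1 : ℂ))) ^ (1 / 2 : ℂ) * cexp (-(((y j - y k : ℝ) : ℂ) ^ 2 / 4 : ℂ)) *
        cexp (-(I * a p * ((y j - y k : ℝ) : ℂ)))) =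
      (c j * (starRingEnd ℂ) (c k)) * ((Real.pi / (-(-1 : ℂ))) ^ (1 / 2 : ℂ) *
        cexp (-(((y j - y k : ℝ) : ℂ) ^ 2 / 4 : ℂ))) *
        ∑ p ∈ P, cexp (-(I * a p * ((y j - y k : ℝ) : ℂ))) := by
    rw [Finset.mul_sum]
    refine Finset.sum_congr rfl fun p _ => ?_
    ring
  rw [h3, norm_mul, norm_mul, norm_mul, norm_mul]
  have h4 : ‖(starRingEnd ℂ) (c k)‖ = ‖c k‖ := RCLike.norm_conj _
  have h5 : ‖cexp (-(((y j - y k : ℝ) : ℂ) ^ 2 / 4 : ℂ))‖ ≤ 1 := by
    rw [Complex.norm_exp]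
    have : (-(((y j - y k : ℝ) : ℂ) ^ 2 / 4 : ℂ)).re = -((y j - y k) ^ 2 / 4) := by
      have : (-(((y j - y k : ℝ) : ℂ) ^ 2 / 4 : ℂ)) = ((-((y j - y k) ^ 2 / 4) : ℝ) : ℂ) := by
        push_cast; ring
      rw [this, Complex.ofReal_re]
    rw [this, Real.exp_le_one_iff]
    nlinarith [sq_nonneg (y j - y k)]
  rw [h4]
  have h6 := norm_gauss_const
  have h7 : ‖((Real.pi : ℂ) / (-(-1 : ℂ))) ^ (1 / 2 : ℂ)‖ *
      ‖cexp (-(((y j - y k : ℝ) : ℂ) ^ 2 / 4 : ℂ))‖ ≤ 2 := by
    calc _ ≤ (2 : ℝ) * 1 := mul_le_mul h6 h5 (norm_nonneg _) (by norm_num)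
      _ = 2 := by norm_num
  calc ‖c j‖ * ‖c k‖ * (‖((Real.pi : ℂ) / (-(-1 : ℂ))) ^ (1 / 2 : ℂ)‖ *
      ‖cexp (-(((y j - y k : ℝ) : ℂ) ^ 2 / 4 : ℂ))‖) *
      ‖∑ p ∈ P, cexp (-(I * a p * ((y j - y k : ℝ) : ℂ)))‖ ≤
      ‖c j‖ * ‖c k‖ * 2 * ‖∑ p ∈ P, cexp (-(I * a p * ((y j - y k : ℝ) : ℂ)))‖ := by
        gcongr
    _ = _ := by ring

end Pool.Agent.M20.Helper73.KC
end

/- Helper53.KN.Helper73.KC.Pairs -/
section
/-! KC-8, part 4: decomposition of pairs `(n, n')` according to their reduced fraction. -/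

set_option autoImplicit false
open MeasureTheory Complex

namespace Pool.Agent.M20.Helper73.KC

open Pool.Agent.M20.Helper60.KS (Spaced1 InStrip EZ)

/-- coprime pairs at scale `i` -/
def PP (N h i : ℕ) : Finset (ℕ × ℕ) :=
  ((Finset.Icc 1 N) ×ˢ (Finset.Icc 1 N)).filter (fun p => Nat.Coprime p.1 p.2 ∧
    p.1 ≤ h * p.2 ∧ p.2 ≤ h * p.1 ∧ Nat.log 2 (max p.1 p.2) = i)

/-- all coprime pairs -/
def PA (N h : ℕ) : Finset (ℕ × ℕ) :=
  ((Finset.Icc 1 N) ×ˢ (Finset.Icc 1 N)).filter (fun p => Nat.Coprime p.1 p.2 ∧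
    p.1 ≤ h * p.2 ∧ p.2 ≤ h * p.1)

def red (x : ℕ × ℕ) : ℕ × ℕ := (x.1 / Nat.gcd x.1 x.2, x.2 / Nat.gcd x.1 x.2)

lemma red_mem {Q h : ℕ} {x : ℕ × ℕ}
    (hx : x ∈ Finset.Ioc Q (h * Q) ×ˢ Finset.Ioc Q (h * Q)) : red x ∈ PA (h * Q) h := by
  rw [Finset.mem_product, Finset.mem_Ioc, Finset.mem_Ioc] at hx
  obtain ⟨⟨h1, h2⟩, h3, h4⟩ := hx
  have hx1 : 0 < x.1 := by omega
  have hx2 : 0 < x.2 := by omega
  have hg : 0 < Nat.gcd x.1 x.2 := Nat.gcd_pos_of_pos_left _ hx1
  have e1 : Nat.gcd x.1 x.2 * (x.1 / Nat.gcd x.1 x.2) = x.1 := Nat.mul_div_cancel' (Nat.gcd_dvd_left _ _)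
  have e2 : Nat.gcd x.1 x.2 * (x.2 / Nat.gcd x.1 x.2) = x.2 := Nat.mul_div_cancel' (Nat.gcd_dvd_right _ _)
  unfold PA red
  rw [Finset.mem_filter, Finset.mem_product, Finset.mem_Icc, Finset.mem_Icc]
  refine ⟨⟨⟨?_, ?_⟩, ?_, ?_⟩, ?_, ?_, ?_⟩
  · exact Nat.div_pos (Nat.le_of_dvd hx1 (Nat.gcd_dvd_left _ _)) hg
  · exact (Nat.div_le_self _ _).trans h2
  · exact Nat.div_pos (Nat.le_of_dvd hx2 (Nat.gcd_dvd_right _ _)) hg
  · exact (Nat.div_le_self _ _).trans h4
  · exact Nat.coprime_div_gcd_div_gcd hg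
  · refine Nat.le_of_mul_le_mul_left ?_ hg
    calc Nat.gcd x.1 x.2 * (x.1 / Nat.gcd x.1 x.2) = x.1 := e1
      _ ≤ h * Q := h2
      _ ≤ h * x.2 := Nat.mul_le_mul_left _ h3.le
      _ = h * (Nat.gcd x.1 x.2 * (x.2 / Nat.gcd x.1 x.2)) := by rw [e2]
      _ = _ := by ring
  · refine Nat.le_of_mul_le_mul_left ?_ hg
    calc Nat.gcd x.1 x.2 * (x.2 / Nat.gcd x.1 x.2) = x.2 := e2
      _ ≤ h * Q := h4
      _ ≤ h * x.1 := Nat.mul_le_mul_left _ h1.le
      _ = h * (Nat.gcd x.1 x.2 * (x.1 / Nat.gcd x.1 x.2)) := by rw [e1]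
      _ = _ := by ring

lemma fiber_card (Q h : ℕ) (p : ℕ × ℕ) (hp : p ∈ PA (h * Q) h) :
    (((Finset.Ioc Q (h * Q) ×ˢ Finset.Ioc Q (h * Q)).filter (fun x => red x = p)).card : ℝ) ≤
      ((h * Q : ℕ) : ℝ) / ((max p.1 p.2 : ℕ) : ℝ) := by
  have hp1 : 1 ≤ p.1 := by
    have := (Finset.mem_filter.1 hp).1
    rw [Finset.mem_product, Finset.mem_Icc, Finset.mem_Icc] at this
    exact this.1.1
  have h1 : ((Finset.Ioc Q (h * Q) ×ˢ Finset.Ioc Q (h * Q)).filter (fun x => red x = p)).card ≤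
      (Finset.Icc 1 (h * Q / max p.1 p.2)).card := by
    have key : ∀ x ∈ (Finset.Ioc Q (h * Q) ×ˢ Finset.Ioc Q (h * Q)).filter (fun x => red x = p),
        0 < Nat.gcd x.1 x.2 ∧ x.1 = Nat.gcd x.1 x.2 * p.1 ∧ x.2 = Nat.gcd x.1 x.2 * p.2 ∧
        x.1 ≤ h * Q ∧ x.2 ≤ h * Q := by
      intro x hx
      rw [Finset.mem_filter, Finset.mem_product, Finset.mem_Ioc, Finset.mem_Ioc] at hx
      obtain ⟨⟨⟨h1, h2⟩, h3, h4⟩, h5⟩ := hx
      have hx1 : 0 < x.1 := by omega
      refine ⟨Nat.gcd_pos_of_pos_left _ hx1, ?_, ?_, h2, h4⟩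
      · rw [← h5]
        exact (Nat.mul_div_cancel' (Nat.gcd_dvd_left _ _)).symm
      · rw [← h5]
        exact (Nat.mul_div_cancel' (Nat.gcd_dvd_right _ _)).symm
    refine Finset.card_le_card_of_injOn (fun x => Nat.gcd x.1 x.2) ?_ ?_
    · intro x hx
      obtain ⟨h2, h3, h4, h5, h6⟩ := key x (by exact_mod_cast hx)
      simp only [Finset.coe_Icc, Set.mem_Icc]
      refine ⟨h2, ?_⟩
      rw [Nat.le_div_iff_mul_le (by omega)]
      rcases le_total p.1 p.2 with h7 | h7
      · rw [max_eq_right h7, ← h4]; exact h6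
      · rw [max_eq_left h7, ← h3]; exact h5
    · intro x hx y hy hxy
      obtain ⟨h2, h3, h4, h5, h6⟩ := key x (by exact_mod_cast hx)
      obtain ⟨k2, k3, k4, k5, k6⟩ := key y (by exact_mod_cast hy)
      simp only at hxy
      refine Prod.ext ?_ ?_
      · rw [h3, k3, hxy]
      · rw [h4, k4, hxy]
  have h2 : (Finset.Icc 1 (h * Q / max p.1 p.2)).card = h * Q / max p.1 p.2 := by simp
  rw [h2] at h1
  calc (((Finset.Ioc Q (h * Q) ×ˢ Finset.Ioc Q (h * Q)).filter (fun x => red x = p)).card : ℝ) ≤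
      ((h * Q / max p.1 p.2 : ℕ) : ℝ) := by exact_mod_cast h1
    _ ≤ _ := Nat.cast_div_le

theorem gcd_decomp (φ : ℕ → ℕ → ℝ) (hφ0 : ∀ a b, 0 ≤ φ a b)
    (hφ : ∀ m a b, 1 ≤ m → 1 ≤ a → 1 ≤ b → φ (m * a) (m * b) = φ a b) (Q h : ℕ) :
    ∑ n ∈ Finset.Ioc Q (h * Q), ∑ n' ∈ Finset.Ioc Q (h * Q), φ n n' ≤
      ∑ i ∈ Finset.range (Nat.log 2 (h * Q) + 1),
        (((h * Q : ℕ) : ℝ) / 2 ^ i) * ∑ p ∈ PP (h * Q) h i, φ p.1 p.2 := by
  classical
  rw [← Finset.sum_product (f := fun x => φ x.1 x.2),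
    ← Finset.sum_fiberwise_of_maps_to (t := PA (h * Q) h) (g := red) (fun x hx => red_mem hx)]
  have h1 : ∀ p ∈ PA (h * Q) h,
      ∑ x ∈ (Finset.Ioc Q (h * Q) ×ˢ Finset.Ioc Q (h * Q)).filter (fun x => red x = p), φ x.1 x.2 ≤
      (((h * Q : ℕ) : ℝ) / ((max p.1 p.2 : ℕ) : ℝ)) * φ p.1 p.2 := by
    intro p hp
    have h2 : ∀ x ∈ (Finset.Ioc Q (h * Q) ×ˢ Finset.Ioc Q (h * Q)).filter (fun x => red x = p),
        φ x.1 x.2 = φ p.1 p.2 := by
      intro x hx
      rw [Finset.mem_filter, Finset.mem_product, Finset.mem_Ioc, Finset.mem_Ioc] at hx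
      obtain ⟨⟨⟨h1, h2⟩, h3, h4⟩, h5⟩ := hx
      have hx1 : 0 < x.1 := by omega
      have hx2 : 0 < x.2 := by omega
      have hg : 0 < Nat.gcd x.1 x.2 := Nat.gcd_pos_of_pos_left _ hx1
      have e1 : Nat.gcd x.1 x.2 * p.1 = x.1 := by
        rw [← h5]
        exact Nat.mul_div_cancel' (Nat.gcd_dvd_left _ _)
      have e2 : Nat.gcd x.1 x.2 * p.2 = x.2 := by
        rw [← h5]
        exact Nat.mul_div_cancel' (Nat.gcd_dvd_right _ _)
      have hp1 : 1 ≤ p.1 := by
        by_contra hcon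
        have : p.1 = 0 := by omega
        rw [this, mul_zero] at e1
        omega
      have hp2 : 1 ≤ p.2 := by
        by_contra hcon
        have : p.2 = 0 := by omega
        rw [this, mul_zero] at e2
        omega
      have := hφ _ _ _ hg hp1 hp2
      rw [e1, e2] at this
      exact this
    rw [Finset.sum_congr rfl h2, Finset.sum_const, nsmul_eq_mul]
    exact mul_le_mul_of_nonneg_right (fiber_card Q h p hp) (hφ0 _ _)
  refine (Finset.sum_le_sum h1).trans ?_
  rw [← Finset.sum_fiberwise_of_maps_to (s := PA (h * Q) h) (t := Finset.range (Nat.log 2 (h * Q) + 1))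
    (g := fun p => Nat.log 2 (max p.1 p.2)) (fun p hp => by
      rw [Finset.mem_range, Nat.lt_succ_iff]
      refine Nat.log_mono_right ?_
      have := (Finset.mem_filter.1 hp).1
      rw [Finset.mem_product, Finset.mem_Icc, Finset.mem_Icc] at this
      exact max_le this.1.2 this.2.2)]
  refine Finset.sum_le_sum fun i _ => ?_
  have h2 : (PA (h * Q) h).filter (fun p => Nat.log 2 (max p.1 p.2) = i) = PP (h * Q) h i := by
    unfold PA PP
    rw [Finset.filter_filter]
    refine Finset.filter_congr fun p _ => ?_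
    tauto
  rw [h2, Finset.mul_sum]
  refine Finset.sum_le_sum fun p hp => ?_
  refine mul_le_mul_of_nonneg_right ?_ (hφ0 _ _)
  have hp' := (Finset.mem_filter.1 hp)
  rw [Finset.mem_product, Finset.mem_Icc, Finset.mem_Icc] at hp'
  have h3 : 2 ^ i ≤ max p.1 p.2 := by
    rw [← hp'.2.2.2.2]
    refine Nat.pow_log_le_self 2 ?_
    have := le_max_left p.1 p.2
    omega
  refine div_le_div_of_nonneg_left (by (clear * -; positivity)) (by positivity) ?_
  exact_mod_cast h3

/-- value of the logarithm of the ratio -/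
noncomputable def lr (p : ℕ × ℕ) : ℝ := Real.log p.1 - Real.log p.2

lemma log_sub_log_ge {m n M : ℕ} (hn : 0 < n) (hnm : n < m) (hm : m ≤ M) :
    1 / (M : ℝ) ≤ Real.log m - Real.log n := by
  have hm0 : (0 : ℝ) < m := by exact_mod_cast (by omega : 0 < m)
  have hn0 : (0 : ℝ) < n := by exact_mod_cast hn
  rw [← Real.log_div hm0.ne' hn0.ne']
  have h1 := Real.one_sub_inv_le_log_of_pos (x := (m : ℝ) / n) (by positivity)
  refine le_trans ?_ h1
  rw [inv_div]
  have h2 : 1 - (n : ℝ) / m = ((m : ℝ) - n) / m := by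
    field_simp
  rw [h2]
  have h3 : (1 : ℝ) ≤ (m : ℝ) - n := by
    have : ((n + 1 : ℕ) : ℝ) ≤ m := by exact_mod_cast hnm
    push_cast at this
    (clear * - this; linarith)
  have h4 : (m : ℝ) ≤ M := by exact_mod_cast hm
  calc 1 / (M : ℝ) ≤ 1 / (m : ℝ) := one_div_le_one_div_of_le hm0 h4
    _ ≤ ((m : ℝ) - n) / m := div_le_div_of_nonneg_right h3 hm0.le

lemma lr_spaced {N h i : ℕ} {p q : ℕ × ℕ} (hp : p ∈ PP N h i) (hq : q ∈ PP N h i) (hpq : p ≠ q) :
    1 / (4 * 4 ^ i : ℝ) ≤ |lr p - lr q| := by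
  have hp' := (Finset.mem_filter.1 hp)
  have hq' := (Finset.mem_filter.1 hq)
  rw [Finset.mem_product, Finset.mem_Icc, Finset.mem_Icc] at hp' hq'
  obtain ⟨⟨⟨p1, _⟩, p2, _⟩, pc, _, _, pl⟩ := hp'
  obtain ⟨⟨⟨q1, _⟩, q2, _⟩, qc, _, _, ql⟩ := hq'
  have hpm : max p.1 p.2 < 2 ^ (i + 1) := by
    rw [← pl]
    exact Nat.lt_pow_succ_log_self (by norm_num) _
  have hqm : max q.1 q.2 < 2 ^ (i + 1) := by
    rw [← ql]
    exact Nat.lt_pow_succ_log_self (by norm_num) _
  have hp1 : p.1 < 2 ^ (i + 1) := lt_of_le_of_lt (le_max_left _ _) hpm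
  have hp2 : p.2 < 2 ^ (i + 1) := lt_of_le_of_lt (le_max_right _ _) hpm
  have hq1 : q.1 < 2 ^ (i + 1) := lt_of_le_of_lt (le_max_left _ _) hqm
  have hq2 : q.2 < 2 ^ (i + 1) := lt_of_le_of_lt (le_max_right _ _) hqm
  have hne : p.1 * q.2 ≠ q.1 * p.2 := by
    intro heq
    apply hpq
    have h1 : p.1 ∣ q.1 * p.2 := ⟨q.2, heq.symm⟩
    have h2 : p.1 ∣ q.1 := pc.dvd_of_dvd_mul_right h1
    have h3 : q.1 ∣ p.1 * q.2 := ⟨p.2, heq⟩
    have h4 : q.1 ∣ p.1 := qc.dvd_of_dvd_mul_right h3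
    have h5 : p.1 = q.1 := Nat.dvd_antisymm h2 h4
    refine Prod.ext h5 ?_
    rw [h5] at heq
    exact (Nat.eq_of_mul_eq_mul_left (by omega) heq).symm
  have hb1 : p.1 * q.2 ≤ 4 * 4 ^ i := by
    calc p.1 * q.2 ≤ 2 ^ (i + 1) * 2 ^ (i + 1) := Nat.mul_le_mul hp1.le hq2.le
      _ = 4 * 4 ^ i := by rw [← mul_pow]; ring
  have hb2 : q.1 * p.2 ≤ 4 * 4 ^ i := by
    calc q.1 * p.2 ≤ 2 ^ (i + 1) * 2 ^ (i + 1) := Nat.mul_le_mul hq1.le hp2.le
      _ = 4 * 4 ^ i := by rw [← mul_pow]; ring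
  have cp1 : (p.1 : ℝ) ≠ 0 := by exact_mod_cast (by omega : p.1 ≠ 0)
  have cp2 : (p.2 : ℝ) ≠ 0 := by exact_mod_cast (by omega : p.2 ≠ 0)
  have cq1 : (q.1 : ℝ) ≠ 0 := by exact_mod_cast (by omega : q.1 ≠ 0)
  have cq2 : (q.2 : ℝ) ≠ 0 := by exact_mod_cast (by omega : q.2 ≠ 0)
  have hlr : lr p - lr q = Real.log ((p.1 * q.2 : ℕ) : ℝ) - Real.log ((q.1 * p.2 : ℕ) : ℝ) := by
    unfold lr
    push_cast
    rw [Real.log_mul cp1 cq2, Real.log_mul cq1 cp2]
    ring
  rw [hlr]
  rcases lt_or_gt_of_ne hne with hlt | hgt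
  · have := log_sub_log_ge (Nat.mul_pos (by omega) (by omega)) hlt hb2
    push_cast at this ⊢
    rw [abs_sub_comm]
    exact this.trans (le_abs_self _)
  · have := log_sub_log_ge (Nat.mul_pos (by omega) (by omega)) hgt hb1
    push_cast at this ⊢
    exact this.trans (le_abs_self _)

lemma lr_abs {N h i : ℕ} (hh : 1 ≤ h) {p : ℕ × ℕ} (hp : p ∈ PP N h i) : |lr p| ≤ h := by
  have hp' := (Finset.mem_filter.1 hp)
  rw [Finset.mem_product, Finset.mem_Icc, Finset.mem_Icc] at hp'
  obtain ⟨⟨⟨p1, _⟩, p2, _⟩, pc, h1, h2, pl⟩ := hp'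
  have cp1 : (0 : ℝ) < p.1 := by exact_mod_cast p1
  have cp2 : (0 : ℝ) < p.2 := by exact_mod_cast p2
  have ch : (0 : ℝ) < h := by exact_mod_cast hh
  have hlog : Real.log h ≤ h := (Real.log_le_sub_one_of_pos ch).trans (by (clear * -; linarith))
  have e1 : Real.log p.1 ≤ Real.log h + Real.log p.2 := by
    rw [← Real.log_mul ch.ne' cp2.ne']
    exact Real.log_le_log cp1 (by exact_mod_cast h1)
  have e2 : Real.log p.2 ≤ Real.log h + Real.log p.1 := by
    rw [← Real.log_mul ch.ne' cp1.ne']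
    exact Real.log_le_log cp2 (by exact_mod_cast h2)
  unfold lr
  rw [abs_le]
  constructor <;> (clear * - hlog e2 e1; linarith)

lemma PP_card (N h i : ℕ) : (PP N h i).card ≤ 4 * 4 ^ i := by
  have h1 : PP N h i ⊆ Finset.range (2 ^ (i + 1)) ×ˢ Finset.range (2 ^ (i + 1)) := by
    intro p hp
    have hp' := (Finset.mem_filter.1 hp)
    have hpm : max p.1 p.2 < 2 ^ (i + 1) := by
      rw [← hp'.2.2.2.2]
      exact Nat.lt_pow_succ_log_self (by norm_num) _
    rw [Finset.mem_product, Finset.mem_range, Finset.mem_range]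
    exact ⟨lt_of_le_of_lt (le_max_left _ _) hpm, lt_of_le_of_lt (le_max_right _ _) hpm⟩
  refine (Finset.card_le_card h1).trans (le_of_eq ?_)
  rw [Finset.card_product, Finset.card_range, ← mul_pow]
  ring

/-- the third moment over all pairs -/
theorem third_total (h13 : Pool.Agent.M20.Helper10.KSZ.A13) (h : ℕ) (hh : 1 ≤ h) : ∃ C : ℝ, 0 < C ∧
    ∀ (Z : Finset ℂ) (Q : ℕ) (T : ℝ), 1 ≤ Q → 1 ≤ T → (∀ ρ ∈ Z, |ρ.im| ≤ T) → Spaced1 Z →
    ∑ n ∈ Finset.Ioc Q (h * Q), ∑ n' ∈ Finset.Ioc Q (h * Q),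
      ‖WW Z (Real.log n - Real.log n')‖ ^ 3 ≤
      C * (1 + Real.log Q) * Real.sqrt (EZ Z) *
        ((Q : ℝ) ^ 2 * Real.sqrt Z.card + Q * Z.card * Real.sqrt T) := by
  classical
  obtain ⟨C, hC, hm⟩ := third_moment h13
  have ch : (1 : ℝ) ≤ h := by exact_mod_cast hh
  refine ⟨C * h * h * (2 * h + 2), by (clear * - hC hh; positivity), fun Z Q T hQ hT hZ hsp => ?_⟩
  have cQ : (1 : ℝ) ≤ Q := by exact_mod_cast hQ
  set n : ℝ := (Z.card : ℝ) with hn
  set E : ℝ := (EZ Z : ℝ) with hE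
  have hn0 : 0 ≤ n := by (clear * -; positivity)
  have hE0 : 0 ≤ E := by (clear * -; positivity)
  -- decomposition
  have h1 := gcd_decomp (fun a b => ‖WW Z (Real.log a - Real.log b)‖ ^ 3) (fun a b => by positivity)
    (fun m a b hm ha hb => by
      have e1 : (m : ℝ) ≠ 0 := by exact_mod_cast (by omega : m ≠ 0)
      have e2 : (a : ℝ) ≠ 0 := by exact_mod_cast (by omega : a ≠ 0)
      have e3 : (b : ℝ) ≠ 0 := by exact_mod_cast (by omega : b ≠ 0)
      have : Real.log ((m * a : ℕ) : ℝ) - Real.log ((m * b : ℕ) : ℝ) = Real.log a - Real.log b := by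
        push_cast
        rw [Real.log_mul e1 e2, Real.log_mul e1 e3]
        ring
      simp only [this]) Q h
  refine h1.trans ?_
  -- each scale
  have h2 : ∀ i, ∑ p ∈ PP (h * Q) h i, ‖WW Z (Real.log p.1 - Real.log p.2)‖ ^ 3 ≤
      C * h * (4 ^ i * Real.sqrt (n * E) + 2 ^ i * n * Real.sqrt (T * E)) := by
    intro i
    have hinj : Set.InjOn lr (PP (h * Q) h i : Set (ℕ × ℕ)) := by
      intro p hp q hq hpq
      by_contra hne
      have := lr_spaced (by exact_mod_cast hp) (by exact_mod_cast hq) hne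
      rw [hpq, sub_self, abs_zero] at this
      have h3 : (0 : ℝ) < 1 / (4 * 4 ^ i) := by positivity
      (clear * - this h3; linarith)
    have h3 := hm Z ((PP (h * Q) h i).image lr) h T i ch hT hZ hsp ?_ ?_ ?_
    · rw [Finset.sum_image hinj] at h3
      exact h3
    · intro y hy
      obtain ⟨p, hp, rfl⟩ := Finset.mem_image.1 hy
      exact lr_abs hh hp
    · intro y hy y' hy' hyy
      obtain ⟨p, hp, rfl⟩ := Finset.mem_image.1 hy
      obtain ⟨q, hq, rfl⟩ := Finset.mem_image.1 hy'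
      refine lr_spaced hp hq ?_
      rintro rfl
      exact hyy rfl
    · have h4 : ((PP (h * Q) h i).image lr).card ≤ 4 * 4 ^ i :=
        Finset.card_image_le.trans (PP_card _ _ _)
      exact_mod_cast h4
  set N : ℕ := h * Q with hN
  set I : ℕ := Nat.log 2 N with hI
  have hN1 : 1 ≤ N := by
    rw [hN]
    exact Nat.mul_pos (by omega) (by omega)
  have cN : ((N : ℕ) : ℝ) = h * Q := by rw [hN]; push_cast; ring
  have hN0 : (0 : ℝ) ≤ N := by positivity
  have hs1 : 0 ≤ Real.sqrt (n * E) := Real.sqrt_nonneg _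
  have hs2 : 0 ≤ Real.sqrt (T * E) := Real.sqrt_nonneg _
  -- sum over the scales
  have h3 : ∑ i ∈ Finset.range (I + 1), ((N : ℝ) / 2 ^ i) *
      ∑ p ∈ PP N h i, ‖WW Z (Real.log p.1 - Real.log p.2)‖ ^ 3 ≤
      ∑ i ∈ Finset.range (I + 1), C * h * N * (2 ^ i * Real.sqrt (n * E) + n * Real.sqrt (T * E)) := by
    refine Finset.sum_le_sum fun i _ => ?_
    calc ((N : ℝ) / 2 ^ i) * ∑ p ∈ PP N h i, ‖WW Z (Real.log p.1 - Real.log p.2)‖ ^ 3 ≤
        ((N : ℝ) / 2 ^ i) * (C * h * (4 ^ i * Real.sqrt (n * E) + 2 ^ i * n * Real.sqrt (T * E))) :=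
          mul_le_mul_of_nonneg_left (h2 i) (by positivity)
      _ = C * h * N * (2 ^ i * Real.sqrt (n * E) + n * Real.sqrt (T * E)) := by
          have h4 : (4 : ℝ) ^ i = 2 ^ i * 2 ^ i := by
            rw [← mul_pow]; norm_num
          rw [h4]
          have h5 : (2 : ℝ) ^ i ≠ 0 := by positivity
          field_simp
  refine h3.trans ?_
  have h4 : ∑ i ∈ Finset.range (I + 1), (2 : ℝ) ^ i ≤ 2 * N := by
    rw [geom_sum_eq (by norm_num)]
    have h5 : (2 : ℝ) ^ I ≤ N := by
      exact_mod_cast Nat.pow_log_le_self 2 (by omega : N ≠ 0)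
    rw [pow_succ]
    have : ((2 : ℝ) ^ I * 2 - 1) / (2 - 1) = 2 ^ I * 2 - 1 := by norm_num
    rw [this]
    (clear * - h5; linarith)
  have hlogN : ((I + 1 : ℕ) : ℝ) ≤ (2 * h + 2) * (1 + Real.log Q) := by
    have h5 : (2 : ℝ) ^ I ≤ N := by
      exact_mod_cast Nat.pow_log_le_self 2 (by omega : N ≠ 0)
    have h6 : (I : ℝ) * Real.log 2 ≤ Real.log N := by
      rw [← Real.log_pow]
      exact Real.log_le_log (by positivity) h5
    have h7 : Real.log N = Real.log h + Real.log Q := by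
      rw [cN, Real.log_mul (by positivity) (by positivity)]
    have h8 : Real.log h ≤ h := (Real.log_le_sub_one_of_pos (by (clear * - ch; linarith))).trans (by (clear * -; linarith))
    have h9 : (1 / 2 : ℝ) < Real.log 2 := by (clear * -; linarith [Real.log_two_gt_d9])
    have h10 : 0 ≤ Real.log Q := Real.log_nonneg cQ
    have h11 : (I : ℝ) ≤ 2 * (h + Real.log Q) := by
      have : (0 : ℝ) ≤ I := by (clear * -; positivity)
      (clear * - h6 h7 h8 h9; nlinarith)
    push_cast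
    (clear * - h11 h10; nlinarith)
  calc ∑ i ∈ Finset.range (I + 1), C * h * N * (2 ^ i * Real.sqrt (n * E) + n * Real.sqrt (T * E))
      = C * h * N * ((∑ i ∈ Finset.range (I + 1), (2 : ℝ) ^ i) * Real.sqrt (n * E) +
          ((I + 1 : ℕ) : ℝ) * (n * Real.sqrt (T * E))) := by
        rw [← Finset.mul_sum, Finset.sum_add_distrib, Finset.sum_mul, Finset.sum_const,
          Finset.card_range, nsmul_eq_mul]
    _ ≤ C * h * N * ((2 * N) * Real.sqrt (n * E) +
          ((2 * h + 2) * (1 + Real.log Q)) * (n * Real.sqrt (T * E))) := by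
        refine mul_le_mul_of_nonneg_left ?_ (by positivity)
        exact add_le_add (mul_le_mul_of_nonneg_right h4 hs1)
          (mul_le_mul_of_nonneg_right hlogN (by (clear * -; positivity)))
    _ ≤ C * h * h * (2 * h + 2) * (1 + Real.log Q) * Real.sqrt E *
        ((Q : ℝ) ^ 2 * Real.sqrt n + Q * n * Real.sqrt T) := by
        rw [cN, Real.sqrt_mul hn0, Real.sqrt_mul (by (clear * - hT; linarith))]
        have h10 : 0 ≤ Real.log Q := Real.log_nonneg cQ
        set a := Real.sqrt n with ha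
        set e := Real.sqrt E with he
        set τ := Real.sqrt T with hτ
        have ha0 : 0 ≤ a := Real.sqrt_nonneg _
        have he0 : 0 ≤ e := Real.sqrt_nonneg _
        have hτ0 : 0 ≤ τ := Real.sqrt_nonneg _
        have e1 : C * h * (h * Q) * (2 * (h * Q) * (a * e) +
            (2 * h + 2) * (1 + Real.log Q) * (n * (τ * e))) =
            C * h * h * (2 * h) * 1 * e * ((Q : ℝ) ^ 2 * a) +
            C * h * h * (2 * h + 2) * (1 + Real.log Q) * e * (Q * n * τ) := by ring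
        have e2 : C * h * h * (2 * h) * 1 * e * ((Q : ℝ) ^ 2 * a) ≤
            C * h * h * (2 * h + 2) * (1 + Real.log Q) * e * ((Q : ℝ) ^ 2 * a) := by
          gcongr
          · (clear * -; linarith)
          · (clear * - h10; linarith)
        rw [e1, mul_add]
        (clear * - e2; linarith)

end Pool.Agent.M20.Helper73.KC
end

/- Helper53.KN.Helper73.KC.Energy -/
section
/-! KC-8: additive energy of large values. -/

set_option autoImplicit false
open MeasureTheory Complex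

namespace Pool.Agent.M20.Helper73.KC

open Pool.Agent.M20.Helper60.KS (Spaced1 InStrip EZ DP EnergyG)

lemma EZ_eq_sum (Z : Finset ℂ) : EZ Z = ∑ ρ ∈ Z, ((Z ×ˢ (Z ×ˢ Z)).filter
    (fun p : ℂ × (ℂ × ℂ) => |ρ.im - (p.2.1.im + p.2.2.im - p.1.im)| ≤ 1)).card := by
  classical
  unfold EZ
  rw [Finset.card_filter, Finset.sum_product, Finset.sum_product]
  refine Finset.sum_congr rfl fun x _ => ?_
  rw [Finset.card_filter, Finset.sum_product]
  refine Finset.sum_congr rfl fun y _ => Finset.sum_congr rfl fun z _ => ?_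
  have : x.im - (z.1.im + z.2.im - y.im) = x.im + y.im - z.1.im - z.2.im := by ring
  simp only [this]

lemma norm_triple (Z : Finset ℂ) (y : ℝ) :
    ‖∑ p ∈ Z ×ˢ (Z ×ˢ Z), cexp (-(I * ((p.2.1.im + p.2.2.im - p.1.im : ℝ) : ℂ) * (y : ℂ)))‖ =
      ‖WW Z y‖ ^ 3 := by
  classical
  have h1 : ∑ p ∈ Z ×ˢ (Z ×ˢ Z), cexp (-(I * ((p.2.1.im + p.2.2.im - p.1.im : ℝ) : ℂ) * (y : ℂ))) =
      WW Z y * ((starRingEnd ℂ) (WW Z y) * (starRingEnd ℂ) (WW Z y)) := by
    have hc : (starRingEnd ℂ) (WW Z y) = ∑ ρ ∈ Z, cexp (-(I * (ρ.im : ℝ) * y)) := by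
      unfold WW
      rw [map_sum]
      refine Finset.sum_congr rfl fun ρ _ => ?_
      rw [← Complex.exp_conj]
      congr 1
      simp
    rw [hc, Finset.sum_mul_sum, Finset.sum_product]
    unfold WW
    rw [Finset.sum_mul]
    refine Finset.sum_congr rfl fun x _ => ?_
    rw [Finset.sum_product, Finset.mul_sum]
    refine Finset.sum_congr rfl fun z _ => ?_
    rw [Finset.mul_sum]
    refine Finset.sum_congr rfl fun w _ => ?_
    rw [← Complex.exp_add, ← Complex.exp_add]
    congr 1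
    push_cast
    ring
  rw [h1, norm_mul, norm_mul, RCLike.norm_conj]
  ring

lemma DP_differentiable (g : ℕ → ℂ) (Q h : ℕ) : Differentiable ℂ (DP g Q h) := by
  unfold DP
  refine Differentiable.fun_sum fun n hn => ?_
  have hn0 : (n : ℂ) ≠ 0 := by
    rw [Finset.mem_Ioc] at hn
    exact_mod_cast (by omega : n ≠ 0)
  exact (differentiable_const _).mul (differentiable_id.neg.const_cpow (Or.inl hn0))

lemma DP_eq (g : ℕ → ℂ) (Q h : ℕ) (σ t : ℝ) : DP g Q h (σ + t * I) =
    ∑ j ∈ Finset.Ioc Q (h * Q), (g j * (j : ℂ) ^ (-(σ : ℂ))) * cexp (-(I * t * (Real.log j : ℝ))) := by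
  unfold DP
  refine Finset.sum_congr rfl fun n hn => ?_
  have hn0 : (n : ℂ) ≠ 0 := by
    rw [Finset.mem_Ioc] at hn
    exact_mod_cast (by omega : n ≠ 0)
  rw [mul_assoc]
  congr 1
  rw [Complex.cpow_def_of_ne_zero hn0, Complex.cpow_def_of_ne_zero hn0, ← Complex.exp_add,
    ← Complex.natCast_log]
  congr 1
  ring

lemma coef_bound {g : ℕ → ℂ} {Q h : ℕ} {B b r σ : ℝ} (hh : 1 ≤ h) (hQ : 1 ≤ Q) (hr : r ≤ 1 / 2)
    (hr0 : 0 < r)
    (hb : 0 ≤ b) (hB : 0 ≤ B) (hg : ∀ n, ‖g n‖ ≤ B) (hσ : b - r ≤ σ) {j : ℕ}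
    (hj : j ∈ Finset.Ioc Q (h * Q)) :
    ‖g j * (j : ℂ) ^ (-(σ : ℂ))‖ ≤ B * (h * (Q : ℝ) ^ (-b + r)) := by
  rw [Finset.mem_Ioc] at hj
  have hj0 : 0 < j := by omega
  have cj : (0 : ℝ) < j := by exact_mod_cast hj0
  have cQ : (1 : ℝ) ≤ Q := by exact_mod_cast hQ
  have ch : (1 : ℝ) ≤ h := by exact_mod_cast hh
  rw [norm_mul]
  refine mul_le_mul (hg j) ?_ (norm_nonneg _) hB
  rw [← Complex.ofReal_neg, ← Complex.ofReal_natCast, Complex.norm_cpow_eq_rpow_re_of_pos cj,
    Complex.ofReal_re]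
  have hQb : 0 ≤ (Q : ℝ) ^ (-b + r) := by positivity
  rcases le_or_gt 0 σ with h1 | h1
  · calc (j : ℝ) ^ (-σ) ≤ (Q : ℝ) ^ (-σ) :=
          Real.rpow_le_rpow_of_nonpos (by (clear * - hr hr0 cQ; linarith)) (by exact_mod_cast hj.1.le) (by (clear * - h1; linarith))
      _ ≤ (Q : ℝ) ^ (-b + r) := Real.rpow_le_rpow_of_exponent_le cQ (by (clear * - hσ; linarith))
      _ = 1 * (Q : ℝ) ^ (-b + r) := (one_mul _).symm
      _ ≤ h * (Q : ℝ) ^ (-b + r) := mul_le_mul_of_nonneg_right ch hQb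
  · calc (j : ℝ) ^ (-σ) ≤ ((h : ℝ) * Q) ^ (-σ) := by
          refine Real.rpow_le_rpow cj.le ?_ (by (clear * - h1; linarith))
          exact_mod_cast hj.2
      _ = (h : ℝ) ^ (-σ) * (Q : ℝ) ^ (-σ) := Real.mul_rpow (by (clear * - hr hr0 ch; linarith)) (by (clear * - hr hr0 cQ; linarith))
      _ ≤ h * (Q : ℝ) ^ (-b + r) := by
          refine mul_le_mul ?_ (Real.rpow_le_rpow_of_exponent_le cQ (by (clear * - hσ; linarith))) (by positivity)
            (by (clear * - hr hr0 ch; linarith))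
          calc (h : ℝ) ^ (-σ) ≤ (h : ℝ) ^ (1 : ℝ) :=
                Real.rpow_le_rpow_of_exponent_le ch (by (clear * - hr hr0 hb hσ; linarith))
            _ = h := Real.rpow_one _

theorem energyG_of (h12 : Pool.Agent.M20.Helper10.KSZ.A12') (h13 : Pool.Agent.M20.Helper10.KSZ.A13) :
    EnergyG := by
  classical
  intro h hh
  obtain ⟨C3, hC3, h3⟩ := third_total h13 h hh
  have ch : (1 : ℝ) ≤ h := by exact_mod_cast hh
  refine ⟨2 * Real.exp 4 * 2 * h ^ 2 * C3, by (clear * - hh hC3; positivity), ?_⟩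
  intro Z g Q B V b b' T r hQ hT hr0 hr hb hbb hbb1 hb1 hV hB hg hZ hsp hVG
  have cQ : (1 : ℝ) ≤ Q := by exact_mod_cast hQ
  have hT0 : 0 ≤ T := by (clear * - hT hr0 hr; linarith)
  set P : Finset (ℂ × (ℂ × ℂ)) := Z ×ˢ (Z ×ˢ Z) with hP
  set a : ℂ × (ℂ × ℂ) → ℝ := fun p => p.2.1.im + p.2.2.im - p.1.im with ha
  exact by
    set S3 : ℝ := ∑ n ∈ Finset.Ioc Q (h * Q), ∑ n' ∈ Finset.Ioc Q (h * Q),
        ‖WW Z (Real.log n - Real.log n')‖ ^ 3 with hS3
    have hS30 : 0 ≤ S3 := Finset.sum_nonneg fun _ _ => Finset.sum_nonneg fun _ _ => by (clear * -; positivity)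
    set D : ℝ := B * (h * (Q : ℝ) ^ (-b + r)) with hD
    have hD0 : 0 ≤ D := by (clear * - hB hh hQ; positivity)
    have hmean : ∀ σ : ℝ, b - r ≤ σ → ∫ t : ℝ,
        (∑ p ∈ P, Real.exp (-(t - a p) ^ 2)) * ‖DP g Q h (σ + t * I)‖ ^ 2 ≤ 2 * (D ^ 2 * S3) := by
      intro σ hσ
      have h4 := (gauss_mean P a (Finset.Ioc Q (h * Q)) (fun j => g j * (j : ℂ) ^ (-(σ : ℂ)))
        (fun j => Real.log j)).2
      simp only [← DP_eq] at h4
      refine h4.trans ?_
      refine mul_le_mul_of_nonneg_left ?_ (by norm_num)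
      rw [hS3, Finset.mul_sum]
      refine Finset.sum_le_sum fun j hj => ?_
      rw [Finset.mul_sum]
      refine Finset.sum_le_sum fun k hk => ?_
      have h5 := norm_triple Z (Real.log j - Real.log k)
      rw [h5]
      have h6 := coef_bound hh hQ hr hr0 hb hB hg hσ hj
      have h7 := coef_bound hh hQ hr hr0 hb hB hg hσ hk
      refine mul_le_mul_of_nonneg_right ?_ (by (clear * -; positivity))
      calc ‖g j * (j : ℂ) ^ (-(σ : ℂ))‖ * ‖g k * (k : ℂ) ^ (-(σ : ℂ))‖ ≤ D * D :=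
            mul_le_mul h6 h7 (norm_nonneg _) hD0
        _ = D ^ 2 := by ring
    have hint : ∀ σ : ℝ, Integrable (fun t : ℝ =>
        (∑ p ∈ P, Real.exp (-(t - a p) ^ 2)) * ‖DP g Q h (σ + t * I)‖ ^ 2) := by
      intro σ
      have h4 := (gauss_mean P a (Finset.Ioc Q (h * Q)) (fun j => g j * (j : ℂ) ^ (-(σ : ℂ)))
        (fun j => Real.log j)).1
      simp only [← DP_eq] at h4
      exact h4
    exact by
      have hA := stepA h12 (DP_differentiable g Q h) Z hr0 hr hb hbb hb1 hT0 hZ hsp P a hint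
        (M := 2 * (D ^ 2 * S3)) (fun σ h1 _ => hmean σ h1)
      -- lower bound
      have hlow : (EZ Z : ℝ) * V ^ 2 ≤ ∑ ρ ∈ Z,
          ((P.filter (fun p => |ρ.im - a p| ≤ 1)).card : ℝ) * ‖DP g Q h ρ‖ ^ 2 := by
        rw [EZ_eq_sum]
        push_cast
        rw [Finset.sum_mul]
        refine Finset.sum_le_sum fun ρ hρ => ?_
        refine mul_le_mul_of_nonneg_left (pow_le_pow_left₀ hV.le (hVG ρ hρ) 2) (by (clear * -; positivity))
      have hS := h3 Z Q T hQ hT (fun ρ hρ => (hZ ρ hρ).2.2) hsp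
      set E : ℝ := (EZ Z : ℝ) with hE
      have hE0 : 0 ≤ E := by (clear * -; positivity)
      set R : ℝ := (Q : ℝ) ^ 2 * Real.sqrt Z.card + Q * Z.card * Real.sqrt T with hR
      have hR0 : 0 ≤ R := by (clear * - hQ hT; positivity)
      have hlogQ : 0 ≤ Real.log Q := Real.log_nonneg cQ
      exact by
        have hDsq : D ^ 2 = B ^ 2 * h ^ 2 * (Q : ℝ) ^ (-2 * b + 2 * r) := by
          rw [hD, mul_pow, mul_pow, ← Real.rpow_natCast ((Q : ℝ) ^ (-b + r)) 2, ← Real.rpow_mul (by (clear * - hr0 hr cQ; linarith))]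
          have : (-b + r) * ((2 : ℕ) : ℝ) = -2 * b + 2 * r := by push_cast; ring
          rw [this]
          ring
        have hfin : E * V ^ 2 ≤ (2 * Real.exp 4 * 2 * h ^ 2 * C3 * B ^ 2 / r ^ 2 *
            (Q : ℝ) ^ (-2 * b + 2 * r) * (1 + Real.log Q) * R) * Real.sqrt E := by
          refine hlow.trans (hA.trans ?_)
          calc 2 * Real.exp 4 / r ^ 2 * (2 * (D ^ 2 * S3)) ≤
              2 * Real.exp 4 / r ^ 2 * (2 * (D ^ 2 * (C3 * (1 + Real.log Q) * Real.sqrt E * R))) := by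
                (clear * - hS hr0; gcongr)
            _ = _ := by
                rw [hDsq]
                ring
        rcases eq_or_lt_of_le hE0 with hz | hz
        · rw [← hz, Real.sqrt_zero, zero_mul]
          (clear * - hh hC3 hr0 hQ hT; positivity)
        · have hsE : 0 < Real.sqrt E := Real.sqrt_pos.2 hz
          have h8 : Real.sqrt E * (Real.sqrt E * V ^ 2) = E * V ^ 2 := by
            rw [← mul_assoc, Real.mul_self_sqrt hE0]
          refine le_of_mul_le_mul_left ?_ hsE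
          rw [h8]
          refine hfin.trans (le_of_eq ?_)
          ring

end Pool.Agent.M20.Helper73.KC
end
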