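import Mathlib
import Pool.Agent.Helper53.KO.G01
import Pool.Agent.Helper53.KO.G04
import Pool.Agent.Helper53.KO.G05
import Pool.Agent.Helper53.KO.G07
import Pool.Agent.Helper53.KO.G08
import Pool.Agent.Helper53.KO.G09
import Pool.Agent.Helper53.KO.G12

set_option linter.all false

/- Helper53.KN.Helper67.KSZ.E4 -/
section
/-! KSZ-E4 (MP_768c9c_nt): sums over the zeros in a box. -/

set_option autoImplicit false
set_option linter.all false
open Filter Topology MeasureTheory Complex
open scoped Classical

namespace Pool.Agent.M20.Helper67.KSZ.E4

open Pool.Agent.M20.Helper10.QRH Pool.Agent.M20.Helper69.QRH Pool.Agent.M20.Helper46.KSZ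

theorem Qp_add (A B : Multiset ℂ) (z : ℂ) : Qp (A + B) z = Qp A z * Qp B z := by
  simp [Qp, Multiset.map_add, Multiset.prod_add]

/-- the index of a point: `ρ.im ≈ m / 4` -/
noncomputable def rr (ρ : ℂ) : ℤ := round (4 * ρ.im)

theorem rr_spec (ρ : ℂ) : |ρ.im - (rr ρ : ℝ) / 4| ≤ 1 / 8 := by
  have h := abs_sub_round (4 * ρ.im)
  have e : ρ.im - (rr ρ : ℝ) / 4 = (4 * ρ.im - (round (4 * ρ.im) : ℝ)) / 4 := by
    unfold rr; ring
  rw [e, abs_div, abs_of_pos (show (0 : ℝ) < 4 by norm_num)]
  (clear * - h; linarith)

theorem sum_fibers {ι : Type*} (I : Finset ℤ) (r : ι → ℤ) (g : ι → ℝ) (N : Multiset ι)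
    (h : ∀ ρ ∈ N, r ρ ∈ I) :
    (N.map g).sum = ∑ m ∈ I, ((N.filter (fun ρ => r ρ = m)).map g).sum := by
  induction N using Multiset.induction_on with
  | empty => simp
  | cons a N ih =>
    rw [Multiset.map_cons, Multiset.sum_cons, ih (fun ρ hρ => h ρ (Multiset.mem_cons_of_mem hρ))]
    have e : ∀ m ∈ I, (((a ::ₘ N).filter (fun ρ => r ρ = m)).map g).sum =
        (if r a = m then g a else 0) + ((N.filter (fun ρ => r ρ = m)).map g).sum := by
      intro m _
      by_cases hm : r a = m
      · rw [Multiset.filter_cons_of_pos (p := fun ρ => r ρ = m) N hm, Multiset.map_cons, Multiset.sum_cons, if_pos hm]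
      · rw [Multiset.filter_cons_of_neg (p := fun ρ => r ρ = m) N hm, if_neg hm, zero_add]
    rw [Finset.sum_congr rfl e, Finset.sum_add_distrib, Finset.sum_ite_eq,
      if_pos (h a (Multiset.mem_cons_self a N))]

/-- the fibres are small -/
theorem fiber_card (h : JensenEZ) : ∃ C : ℝ, 0 < C ∧ ∀ (T : ℝ) (M : Multiset ℂ) (Z : ℂ → ℂ), 1 ≤ T →
    Box T M Z → ∀ (N : Multiset ℂ), N ≤ M → ∀ m : ℤ,
    (Multiset.card (N.filter (fun ρ => rr ρ = m)) : ℝ) ≤ C * Real.log (|(m : ℝ) / 4| + 2) := by
  obtain ⟨C, hC, hJ⟩ := h
  refine ⟨C, hC, ?_⟩
  intro T M Z hT hB N hNM m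
  have h1 : Multiset.card (N.filter (fun ρ => rr ρ = m)) ≤
      Multiset.card (M.filter (fun ρ => rr ρ = m)) :=
    Multiset.card_le_card (Multiset.filter_le_filter _ hNM)
  have h2 := hJ (M.filter (fun ρ => rr ρ = m))
    (fun z => Qp (M.filter (fun ρ => ¬ rr ρ = m)) z * Z z)
    ((Qp_differentiable _).mul hB.diff) (fun z => by
      rw [hB.eq z, ← mul_assoc, ← Qp_add, Multiset.filter_add_not]) ((m : ℝ) / 4) (by
      intro ρ hρ
      have hρM := Multiset.mem_filter.1 hρ
      obtain ⟨_, h3, h4, _⟩ := hB.mem ρ hρM.1
      have h5 := rr_spec ρ
      rw [hρM.2] at h5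
      have h6 := abs_le.1 h5
      have e1 : (ρ - (2 + (((m : ℝ) / 4 : ℝ) : ℂ) * Complex.I)).re = ρ.re - 2 := by simp
      have e2 : (ρ - (2 + (((m : ℝ) / 4 : ℝ) : ℂ) * Complex.I)).im = ρ.im - (m : ℝ) / 4 := by
        simp only [Complex.sub_im, Complex.add_im, Complex.mul_im, Complex.ofReal_re,
          Complex.I_im, mul_one, Complex.ofReal_im, Complex.I_re, mul_zero, add_zero]
        simp
      have e3 : ‖ρ - (2 + (((m : ℝ) / 4 : ℝ) : ℂ) * Complex.I)‖ ^ 2 ≤ 1.45 ^ 2 := by
        rw [Complex.sq_norm, Complex.normSq_apply, e1, e2]
        have q0 : |ρ.re - 2| ≤ 1.44 := abs_le.2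
          ⟨by (clear * - h3 h4; linarith), by (clear * - h3 h4; linarith)⟩
        have q1 := mul_self_le_mul_self (abs_nonneg _) q0
        have q2 := mul_self_le_mul_self (abs_nonneg _) h5
        rw [abs_mul_abs_self] at q1 q2
        refine (add_le_add q1 q2).trans (by norm_num)
      exact le_of_sq_le_sq e3 (by norm_num))
  exact (by exact_mod_cast h1 : (Multiset.card (N.filter (fun ρ => rr ρ = m)) : ℝ) ≤
    (Multiset.card (M.filter (fun ρ => rr ρ = m)) : ℝ)).trans h2

theorem log_facts {T : ℝ} (hT : 1 ≤ T) : 1 ≤ Real.log (T + 2) := by
  have h1 : Real.exp 1 ≤ T + 2 := by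
    have := Real.exp_one_lt_d9
    (clear * - hT this; linarith)
  rw [← Real.log_exp 1]
  exact Real.log_le_log (Real.exp_pos 1) h1

theorem rr_mem {T : ℝ} {ρ : ℂ} (h : |ρ.im| < T + 2) :
    rr ρ ∈ Finset.Icc (-(⌈4 * (T + 2)⌉ + 1)) (⌈4 * (T + 2)⌉ + 1) := by
  have h1 := rr_spec ρ
  have h2 := abs_le.1 h1
  have h3 := abs_lt.1 h
  have h4 := Int.le_ceil (4 * (T + 2))
  rw [Finset.mem_Icc]
  constructor
  · have : (-(⌈4 * (T + 2)⌉ + 1 : ℤ) : ℝ) ≤ (rr ρ : ℝ) := by push_cast; (clear * - h2 h3 h4; linarith)
    exact_mod_cast this
  · have : (rr ρ : ℝ) ≤ ((⌈4 * (T + 2)⌉ + 1 : ℤ) : ℝ) := by push_cast; linarith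
    exact_mod_cast this

theorem log_m {T : ℝ} (hT : 1 ≤ T) {m : ℤ}
    (hm : m ∈ Finset.Icc (-(⌈4 * (T + 2)⌉ + 1)) (⌈4 * (T + 2)⌉ + 1)) :
    Real.log (|(m : ℝ) / 4| + 2) ≤ 2 * Real.log (T + 2) := by
  rw [Finset.mem_Icc] at hm
  have h4 := Int.ceil_lt_add_one (4 * (T + 2))
  have h1 : (-(⌈4 * (T + 2)⌉ + 1 : ℤ) : ℝ) ≤ (m : ℝ) := by exact_mod_cast hm.1
  have h2 : (m : ℝ) ≤ ((⌈4 * (T + 2)⌉ + 1 : ℤ) : ℝ) := by exact_mod_cast hm.2
  push_cast at h1 h2
  have h3 : |(m : ℝ) / 4| ≤ T + 3 := by
    rw [abs_le]; constructor <;> (clear * - h4 h1 h2; linarith)
  have h5 : |(m : ℝ) / 4| + 2 ≤ (T + 2) ^ 2 := by (clear * - hT h3; linarith [sq_nonneg T])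
  have h6 := Real.log_le_log (by (clear * -; positivity)) h5
  rw [Real.log_pow] at h6
  exact_mod_cast h6

theorem cardBox (h : JensenEZ) : CardBox := by
  obtain ⟨C, hC, hF⟩ := fiber_card h
  refine ⟨C * 2 * 40, by positivity, ?_⟩
  intro T M Z hT hB
  set I := Finset.Icc (-(⌈4 * (T + 2)⌉ + 1)) (⌈4 * (T + 2)⌉ + 1) with hI
  have h1 := sum_fibers I rr (fun _ => (1 : ℝ)) M (fun ρ hρ => rr_mem (hB.mem ρ hρ).2.2.2)
  have h2 : (M.map (fun _ => (1 : ℝ))).sum = Multiset.card M := by simp
  rw [h2] at h1
  rw [h1]
  have h3 : ∀ m ∈ I, ((M.filter (fun ρ => rr ρ = m)).map (fun _ => (1 : ℝ))).sum ≤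
      C * (2 * Real.log (T + 2)) := by
    intro m hm
    have : ((M.filter (fun ρ => rr ρ = m)).map (fun _ => (1 : ℝ))).sum =
        Multiset.card (M.filter (fun ρ => rr ρ = m)) := by simp
    rw [this]
    refine (hF T M Z hT hB M le_rfl m).trans ?_
    gcongr
    exact log_m hT hm
  refine (Finset.sum_le_card_nsmul _ _ _ h3).trans ?_
  have h4 : (I.card : ℝ) ≤ 40 * T := by
    rw [hI, Int.card_Icc]
    have h5 := Int.ceil_lt_add_one (4 * (T + 2))
    have h6 : (0 : ℝ) ≤ ⌈4 * (T + 2)⌉ := by exact_mod_cast Int.ceil_nonneg (by (clear * - hT; linarith))
    have h6' : (0 : ℤ) ≤ ⌈4 * (T + 2)⌉ := Int.ceil_nonneg (by (clear * - hT; linarith))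
    have h7 : (((⌈4 * (T + 2)⌉ + 1 + 1 - -(⌈4 * (T + 2)⌉ + 1)).toNat : ℕ) : ℤ) =
        ⌈4 * (T + 2)⌉ + 1 + 1 - -(⌈4 * (T + 2)⌉ + 1) := Int.toNat_of_nonneg (by (clear * - h6'; linarith))
    have h8 : (((⌈4 * (T + 2)⌉ + 1 + 1 - -(⌈4 * (T + 2)⌉ + 1)).toNat : ℕ) : ℝ) =
        ((⌈4 * (T + 2)⌉ + 1 + 1 - -(⌈4 * (T + 2)⌉ + 1) : ℤ) : ℝ) := by exact_mod_cast h7
    rw [h8]
    push_cast
    (clear * - hT h5; linarith)
  rw [nsmul_eq_mul]
  have hl := log_facts hT
  have h5 : (0 : ℝ) ≤ C * (2 * Real.log (T + 2)) := by (clear * - hC hl; positivity)
  calc (I.card : ℝ) * (C * (2 * Real.log (T + 2))) ≤ 40 * T * (C * (2 * Real.log (T + 2))) := by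
        (clear * - h4 hC hl; gcongr)
    _ = _ := by ring

/-- harmonic sums -/
theorem harm_le (n : ℕ) : ∑ i ∈ Finset.range (n + 1), (1 : ℝ) / (1 + i) ≤ 1 + Real.log (n + 1) := by
  have h := harmonic_le_one_add_log (n + 1)
  have e : ((harmonic (n + 1) : ℚ) : ℝ) = ∑ i ∈ Finset.range (n + 1), (1 : ℝ) / (1 + i) := by
    unfold harmonic
    push_cast
    apply Finset.sum_congr rfl
    intro i _
    rw [one_div, add_comm]
  rw [← e]
  refine h.trans (le_of_eq ?_)
  push_cast
  rfl

theorem sum_int_le (J : ℕ) (k0 : ℤ) (hk : |k0| ≤ J) :
    ∑ m ∈ Finset.Icc (-(J : ℤ)) J, (1 : ℝ) / (1 + |((m - k0 : ℤ) : ℝ)|) ≤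
      2 * ∑ i ∈ Finset.range (2 * J + 1), (1 : ℝ) / (1 + i) := by
  have hk' := abs_le.1 hk
  -- split in `m ≥ k0` and `m < k0`
  have e : Finset.Icc (-(J : ℤ)) J =
      (Finset.Icc (-(J : ℤ)) J).filter (fun m => k0 ≤ m) ∪
        (Finset.Icc (-(J : ℤ)) J).filter (fun m => ¬ k0 ≤ m) :=
    (Finset.filter_union_filter_not_eq _ _).symm
  rw [e, Finset.sum_union (Finset.disjoint_filter_filter_not _ _ _), two_mul]
  apply add_le_add
  · have : ∑ m ∈ (Finset.Icc (-(J : ℤ)) J).filter (fun m => k0 ≤ m),
        (1 : ℝ) / (1 + |((m - k0 : ℤ) : ℝ)|) =
        ∑ i ∈ ((Finset.Icc (-(J : ℤ)) J).filter (fun m => k0 ≤ m)).image (fun m => (m - k0).toNat),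
          (1 : ℝ) / (1 + i) := by
      rw [Finset.sum_image]
      · apply Finset.sum_congr rfl
        intro m hm
        have h1 := (Finset.mem_filter.1 hm).2
        have h2 : (((m - k0).toNat : ℕ) : ℤ) = m - k0 := Int.toNat_of_nonneg (by (clear * - h1; linarith))
        have h3 : (((m - k0).toNat : ℕ) : ℝ) = ((m - k0 : ℤ) : ℝ) := by exact_mod_cast h2
        rw [h3, abs_of_nonneg]
        exact_mod_cast (by (clear * - h1; linarith) : 0 ≤ m - k0)
      · intro a ha b hb hab
        have h1 := (Finset.mem_filter.1 ha).2
        have h2 := (Finset.mem_filter.1 hb).2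
        simp only at hab
        omega
    rw [this]
    apply Finset.sum_le_sum_of_subset_of_nonneg
    · intro i hi
      obtain ⟨m, hm, rfl⟩ := Finset.mem_image.1 hi
      have h1 := Finset.mem_filter.1 hm
      have h2 := Finset.mem_Icc.1 h1.1
      rw [Finset.mem_range]
      omega
    · intro i _ _
      (clear * -; positivity)
  · have : ∑ m ∈ (Finset.Icc (-(J : ℤ)) J).filter (fun m => ¬ k0 ≤ m),
        (1 : ℝ) / (1 + |((m - k0 : ℤ) : ℝ)|) =
        ∑ i ∈ ((Finset.Icc (-(J : ℤ)) J).filter (fun m => ¬ k0 ≤ m)).image
          (fun m => (k0 - m).toNat), (1 : ℝ) / (1 + i) := by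
      rw [Finset.sum_image]
      · apply Finset.sum_congr rfl
        intro m hm
        have h1 := (Finset.mem_filter.1 hm).2
        have h2 : (((k0 - m).toNat : ℕ) : ℤ) = k0 - m := Int.toNat_of_nonneg (by omega)
        have h3 : (((k0 - m).toNat : ℕ) : ℝ) = ((k0 - m : ℤ) : ℝ) := by exact_mod_cast h2
        rw [h3]
        have h4 : |((m - k0 : ℤ) : ℝ)| = ((k0 - m : ℤ) : ℝ) := by
          rw [abs_of_nonpos]
          · push_cast; ring
          · exact_mod_cast (by omega : m - k0 ≤ 0)
        rw [h4]
      · intro a ha b hb hab
        have h1 := (Finset.mem_filter.1 ha).2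
        have h2 := (Finset.mem_filter.1 hb).2
        simp only at hab
        omega
    rw [this]
    apply Finset.sum_le_sum_of_subset_of_nonneg
    · intro i hi
      obtain ⟨m, hm, rfl⟩ := Finset.mem_image.1 hi
      have h1 := Finset.mem_filter.1 hm
      have h2 := Finset.mem_Icc.1 h1.1
      rw [Finset.mem_range]
      omega
    · intro i _ _
      (clear * -; positivity)

theorem sum_real_le (J : ℕ) (x : ℝ) :
    ∑ m ∈ Finset.Icc (-(J : ℤ)) J, (1 : ℝ) / (1 + |x - m|) ≤ 4 * (1 + Real.log (2 * J + 1)) := by
  set k0 : ℤ := max (-(J : ℤ)) (min J ⌊x⌋) with hk0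
  have hk : |k0| ≤ J := by
    rw [abs_le, hk0]
    constructor
    · exact le_max_left _ _
    · apply max_le
      · have : (0 : ℤ) ≤ J := Int.natCast_nonneg J
        (clear * -; linarith)
      · exact min_le_left _ _
  have h1 : ∀ m ∈ Finset.Icc (-(J : ℤ)) J, (1 : ℝ) / (1 + |x - m|) ≤
      2 * (1 / (1 + |((m - k0 : ℤ) : ℝ)|)) := by
    intro m hm
    have hm' := Finset.mem_Icc.1 hm
    have h2 : |((m - k0 : ℤ) : ℝ)| ≤ |x - m| + 1 := by
      have hf1 := Int.floor_le x
      have hf2 := Int.lt_floor_add_one x
      push_cast
      rcases le_total ⌊x⌋ (-(J : ℤ)) with c | c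
      · -- k0 = -J
        have e : k0 = -(J : ℤ) := by
          rw [hk0, max_eq_left]
          exact (min_le_right _ _).trans c
        have c1 : (⌊x⌋ : ℝ) ≤ -(J : ℝ) := by exact_mod_cast c
        have c2 : -(J : ℝ) ≤ (m : ℝ) := by exact_mod_cast hm'.1
        rw [e]
        push_cast
        rw [abs_of_nonneg (by (clear * - c2; linarith))]
        have := neg_abs_le (x - m)
        linarith
      · rcases le_total (J : ℤ) ⌊x⌋ with c' | c'
        · have e : k0 = (J : ℤ) := by
            rw [hk0, min_eq_left c', max_eq_right]
            have : (0 : ℤ) ≤ J := Int.natCast_nonneg J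
            linarith
          have c1 : (J : ℝ) ≤ (⌊x⌋ : ℝ) := by exact_mod_cast c'
          have c2 : (m : ℝ) ≤ (J : ℝ) := by exact_mod_cast hm'.2
          rw [e]
          push_cast
          rw [abs_of_nonpos (by linarith)]
          have := le_abs_self (x - m)
          linarith
        · have e : k0 = ⌊x⌋ := by
            rw [hk0, min_eq_right c', max_eq_right c]
          rw [e]
          have := abs_le.1 (le_refl |x - m|)
          rw [abs_le]
          constructor
          · have := neg_abs_le (x - m)
            have := le_abs_self (x - m)
            linarith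
          · have := neg_abs_le (x - m)
            linarith
    have h3 := abs_nonneg (x - m)
    have h4 := abs_nonneg (((m - k0 : ℤ) : ℝ))
    rw [mul_one_div, div_le_div_iff₀ (by linarith) (by linarith)]
    linarith
  refine (Finset.sum_le_sum h1).trans ?_
  rw [← Finset.mul_sum]
  have h2 := sum_int_le J k0 hk
  have h3 := harm_le (2 * J)
  push_cast at h3
  linarith

theorem farSum (h : JensenEZ) : FarSum := by
  obtain ⟨C, hC, hF⟩ := fiber_card h
  refine ⟨C * 2 * 1670 * 4 * 5, by positivity, ?_⟩
  intro T M Z hT hB N hNM s hs
  have hl := log_facts hT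
  set J : ℕ := (⌈4 * (T + 2)⌉ + 1).toNat with hJ
  have hcn : (0 : ℤ) ≤ ⌈4 * (T + 2)⌉ := Int.ceil_nonneg (by (clear * - hT; linarith))
  have hJZ : (J : ℤ) = ⌈4 * (T + 2)⌉ + 1 := Int.toNat_of_nonneg (by (clear * - hcn; linarith))
  have hI : ∀ ρ ∈ N, rr ρ ∈ Finset.Icc (-(J : ℤ)) J := by
    intro ρ hρ
    rw [hJZ]
    exact rr_mem (hB.mem ρ (Multiset.mem_of_le hNM hρ)).2.2.2
  rw [sum_fibers _ rr _ N hI]
  set x : ℝ := 4 * s.im with hx
  have h1 : ∀ m ∈ Finset.Icc (-(J : ℤ)) J,
      ((N.filter (fun ρ => rr ρ = m)).map (fun ρ => 1 / ‖s - ρ‖)).sum ≤
      C * (2 * Real.log (T + 2)) * (1670 * (1 / (1 + |x - m|))) := by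
    intro m hm
    have h2 : ∀ y ∈ (N.filter (fun ρ => rr ρ = m)).map (fun ρ => 1 / ‖s - ρ‖),
        y ≤ 1670 * (1 / (1 + |x - m|)) := by
      intro y hy
      obtain ⟨ρ, hρ, rfl⟩ := Multiset.mem_map.1 hy
      have hρ' := Multiset.mem_filter.1 hρ
      have h3 := hs ρ hρ'.1
      have h4 := rr_spec ρ
      rw [hρ'.2] at h4
      have h5 : |s.im - ρ.im| ≤ ‖s - ρ‖ := by
        have := Complex.abs_im_le_norm (s - ρ)
        simpa using this
      have hpos : 0 < ‖s - ρ‖ := by (clear * - h3; linarith)
      have hax := abs_nonneg (x - m)
      rw [mul_one_div, div_le_div_iff₀ hpos (by (clear * - hax; linarith))]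
      have h6 : |x - m| ≤ 4 * |s.im - ρ.im| + 1 / 2 := by
        have e : x - m = 4 * (s.im - ρ.im) + 4 * (ρ.im - (m : ℝ) / 4) := by rw [hx]; ring
        rw [e]
        refine (abs_add_le _ _).trans ?_
        rw [abs_mul, abs_mul, abs_of_pos (show (0 : ℝ) < 4 by norm_num)]
        (clear * - h4; linarith)
      (clear * - h3 h5 hpos h6; linarith)
    have h3 := Multiset.sum_le_card_nsmul _ _ h2
    rw [Multiset.card_map, nsmul_eq_mul] at h3
    refine h3.trans ?_
    have h4 := (hF T M Z hT hB N hNM m).trans
      (mul_le_mul_of_nonneg_left (log_m hT (by rw [← hJZ]; exact hm)) hC.le)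
    have hax := abs_nonneg (x - m)
    exact mul_le_mul_of_nonneg_right h4 (by (clear * - hax; positivity))
  refine (Finset.sum_le_sum h1).trans ?_
  rw [← Finset.mul_sum, ← Finset.mul_sum]
  have h2 := sum_real_le J x
  have h3 : Real.log (2 * J + 1) ≤ 4 * Real.log (T + 2) := by
    have hJr : (J : ℝ) ≤ 4 * (T + 2) + 2 := by
      have e : (J : ℝ) = ((⌈4 * (T + 2)⌉ + 1 : ℤ) : ℝ) := by exact_mod_cast hJZ
      have := Int.ceil_lt_add_one (4 * (T + 2))
      rw [e]
      push_cast
      (clear * - this; linarith)
    have h5 : 2 * (J : ℝ) + 1 ≤ (T + 2) ^ 4 := by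
      have h6 : 2 * (J : ℝ) + 1 ≤ 8 * (T + 2) + 5 := by linarith
      have h7 : 9 ≤ (T + 2) ^ 2 := by (clear * - hT; linarith [sq_nonneg (T - 1)])
      have h8 : 9 * (T + 2) ^ 2 ≤ (T + 2) ^ 4 :=
        (mul_le_mul_of_nonneg_right h7 (sq_nonneg (T + 2))).trans_eq (by ring)
      refine le_trans ?_ h8
      (clear * - h6 hT; linarith [sq_nonneg T])
    have h6 := Real.log_le_log (by positivity) h5
    rw [Real.log_pow] at h6
    exact_mod_cast h6
  have h4 : ∑ m ∈ Finset.Icc (-(J : ℤ)) J, (1 : ℝ) / (1 + |x - m|) ≤ 4 * 5 * Real.log (T + 2) := by
    (clear * - hl h2 h3; linarith)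
  calc C * (2 * Real.log (T + 2)) * (1670 * ∑ m ∈ Finset.Icc (-(J : ℤ)) J, (1 : ℝ) / (1 + |x - m|))
      ≤ C * (2 * Real.log (T + 2)) * (1670 * (4 * 5 * Real.log (T + 2))) := by (clear * - h4 hC hl; gcongr)
    _ = _ := by ring

end Pool.Agent.M20.Helper67.KSZ.E4
end

/- Helper53.KN.Helper1.KL.E4 -/
section
/-! Helper67/KSZ/E4.lean adapted to the line 0.575 (box 57/100) by helper1 -/

set_option autoImplicit false
open Filter Topology MeasureTheory Complex
open scoped Classical

namespace Pool.Agent.M20.Helper1.KL

open Pool.Agent.M20.Helper67.KSZ.E4 hiding fiber_card cardBox farSum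
open Pool.Agent.M20.Helper10.QRH Pool.Agent.M20.Helper69.QRH 

/-- the fibres are small -/
theorem fiber_card (h : JensenEZ) : ∃ C : ℝ, 0 < C ∧ ∀ (T : ℝ) (M : Multiset ℂ) (Z : ℂ → ℂ), 1 ≤ T →
    Box T M Z → ∀ (N : Multiset ℂ), N ≤ M → ∀ m : ℤ,
    (Multiset.card (N.filter (fun ρ => rr ρ = m)) : ℝ) ≤ C * Real.log (|(m : ℝ) / 4| + 2) := by
  obtain ⟨C, hC, hJ⟩ := h
  refine ⟨C, hC, ?_⟩
  intro T M Z hT hB N hNM m
  have h1 : Multiset.card (N.filter (fun ρ => rr ρ = m)) ≤
      Multiset.card (M.filter (fun ρ => rr ρ = m)) :=
    Multiset.card_le_card (Multiset.filter_le_filter _ hNM)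
  have h2 := hJ (M.filter (fun ρ => rr ρ = m))
    (fun z => Qp (M.filter (fun ρ => ¬ rr ρ = m)) z * Z z)
    ((Qp_differentiable _).mul hB.diff) (fun z => by
      rw [hB.eq z, ← mul_assoc, ← Qp_add, Multiset.filter_add_not]) ((m : ℝ) / 4) (by
      intro ρ hρ
      have hρM := Multiset.mem_filter.1 hρ
      obtain ⟨_, h3, h4, _⟩ := hB.mem ρ hρM.1
      have h5 := rr_spec ρ
      rw [hρM.2] at h5
      have h6 := abs_le.1 h5
      have e1 : (ρ - (2 + (((m : ℝ) / 4 : ℝ) : ℂ) * Complex.I)).re = ρ.re - 2 := by simp
      have e2 : (ρ - (2 + (((m : ℝ) / 4 : ℝ) : ℂ) * Complex.I)).im = ρ.im - (m : ℝ) / 4 := by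
        simp only [Complex.sub_im, Complex.add_im, Complex.mul_im, Complex.ofReal_re,
          Complex.I_im, mul_one, Complex.ofReal_im, Complex.I_re, mul_zero, add_zero]
        simp
      have e3 : ‖ρ - (2 + (((m : ℝ) / 4 : ℝ) : ℂ) * Complex.I)‖ ^ 2 ≤ 1.45 ^ 2 := by
        rw [Complex.sq_norm, Complex.normSq_apply, e1, e2]
        (clear * - h3 h4 h6; nlinarith)
      exact le_of_sq_le_sq e3 (by norm_num))
  exact (by exact_mod_cast h1 : (Multiset.card (N.filter (fun ρ => rr ρ = m)) : ℝ) ≤
    (Multiset.card (M.filter (fun ρ => rr ρ = m)) : ℝ)).trans h2

theorem cardBox (h : JensenEZ) : CardBox := by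
  obtain ⟨C, hC, hF⟩ := fiber_card h
  refine ⟨C * 2 * 40, by positivity, ?_⟩
  intro T M Z hT hB
  set I := Finset.Icc (-(⌈4 * (T + 2)⌉ + 1)) (⌈4 * (T + 2)⌉ + 1) with hI
  have h1 := sum_fibers I rr (fun _ => (1 : ℝ)) M (fun ρ hρ => rr_mem (hB.mem ρ hρ).2.2.2)
  have h2 : (M.map (fun _ => (1 : ℝ))).sum = Multiset.card M := by simp
  rw [h2] at h1
  rw [h1]
  have h3 : ∀ m ∈ I, ((M.filter (fun ρ => rr ρ = m)).map (fun _ => (1 : ℝ))).sum ≤
      C * (2 * Real.log (T + 2)) := by
    intro m hm
    have : ((M.filter (fun ρ => rr ρ = m)).map (fun _ => (1 : ℝ))).sum =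
        Multiset.card (M.filter (fun ρ => rr ρ = m)) := by simp
    rw [this]
    refine (hF T M Z hT hB M le_rfl m).trans ?_
    gcongr
    exact log_m hT hm
  refine (Finset.sum_le_card_nsmul _ _ _ h3).trans ?_
  have h4 : (I.card : ℝ) ≤ 40 * T := by
    rw [hI, Int.card_Icc]
    have h5 := Int.ceil_lt_add_one (4 * (T + 2))
    have h6 : (0 : ℝ) ≤ ⌈4 * (T + 2)⌉ := by exact_mod_cast Int.ceil_nonneg (by (clear * - hT; linarith))
    have h6' : (0 : ℤ) ≤ ⌈4 * (T + 2)⌉ := Int.ceil_nonneg (by linarith)
    have h7 : (((⌈4 * (T + 2)⌉ + 1 + 1 - -(⌈4 * (T + 2)⌉ + 1)).toNat : ℕ) : ℤ) =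
        ⌈4 * (T + 2)⌉ + 1 + 1 - -(⌈4 * (T + 2)⌉ + 1) := Int.toNat_of_nonneg (by (clear * - h6'; linarith))
    have h8 : (((⌈4 * (T + 2)⌉ + 1 + 1 - -(⌈4 * (T + 2)⌉ + 1)).toNat : ℕ) : ℝ) =
        ((⌈4 * (T + 2)⌉ + 1 + 1 - -(⌈4 * (T + 2)⌉ + 1) : ℤ) : ℝ) := by exact_mod_cast h7
    rw [h8]
    push_cast
    (clear * - hT h5; linarith)
  rw [nsmul_eq_mul]
  have hl := log_facts hT
  have h5 : (0 : ℝ) ≤ C * (2 * Real.log (T + 2)) := by positivity
  calc (I.card : ℝ) * (C * (2 * Real.log (T + 2))) ≤ 40 * T * (C * (2 * Real.log (T + 2))) := by
        gcongr
    _ = _ := by ring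

theorem farSum (h : JensenEZ) : FarSum := by
  obtain ⟨C, hC, hF⟩ := fiber_card h
  refine ⟨C * 2 * 1670 * 4 * 5, by positivity, ?_⟩
  intro T M Z hT hB N hNM s hs
  have hl := log_facts hT
  set J : ℕ := (⌈4 * (T + 2)⌉ + 1).toNat with hJ
  have hcn : (0 : ℤ) ≤ ⌈4 * (T + 2)⌉ := Int.ceil_nonneg (by (clear * - hT; linarith))
  have hJZ : (J : ℤ) = ⌈4 * (T + 2)⌉ + 1 := Int.toNat_of_nonneg (by (clear * - hcn; linarith))
  have hI : ∀ ρ ∈ N, rr ρ ∈ Finset.Icc (-(J : ℤ)) J := by
    intro ρ hρ
    rw [hJZ]
    exact rr_mem (hB.mem ρ (Multiset.mem_of_le hNM hρ)).2.2.2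
  rw [sum_fibers _ rr _ N hI]
  set x : ℝ := 4 * s.im with hx
  exact by
    have h1 : ∀ m ∈ Finset.Icc (-(J : ℤ)) J,
        ((N.filter (fun ρ => rr ρ = m)).map (fun ρ => 1 / ‖s - ρ‖)).sum ≤
        C * (2 * Real.log (T + 2)) * (1670 * (1 / (1 + |x - m|))) := by
      intro m hm
      have h2 : ∀ y ∈ (N.filter (fun ρ => rr ρ = m)).map (fun ρ => 1 / ‖s - ρ‖),
          y ≤ 1670 * (1 / (1 + |x - m|)) := by
        intro y hy
        obtain ⟨ρ, hρ, rfl⟩ := Multiset.mem_map.1 hy
        have hρ' := Multiset.mem_filter.1 hρ
        have h3 := hs ρ hρ'.1
        have h4 := rr_spec ρ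
        rw [hρ'.2] at h4
        have h5 : |s.im - ρ.im| ≤ ‖s - ρ‖ := by
          have := Complex.abs_im_le_norm (s - ρ)
          simpa using this
        have hpos : 0 < ‖s - ρ‖ := by (clear * - h3; linarith)
        have hax := abs_nonneg (x - m)
        rw [mul_one_div, div_le_div_iff₀ hpos (by (clear * - hax; linarith))]
        have h6 : |x - m| ≤ 4 * |s.im - ρ.im| + 1 / 2 := by
          have e : x - m = 4 * (s.im - ρ.im) + 4 * (ρ.im - (m : ℝ) / 4) := by rw [hx]; ring
          rw [e]
          refine (abs_add_le _ _).trans ?_
          rw [abs_mul, abs_mul, abs_of_pos (show (0 : ℝ) < 4 by norm_num)]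
          (clear * - h4; linarith)
        (clear * - h3 h5 hpos h6; linarith)
      have h3 := Multiset.sum_le_card_nsmul _ _ h2
      rw [Multiset.card_map, nsmul_eq_mul] at h3
      refine h3.trans ?_
      have h4 := (hF T M Z hT hB N hNM m).trans
        (mul_le_mul_of_nonneg_left (log_m hT (by rw [← hJZ]; exact hm)) hC.le)
      have hax := abs_nonneg (x - m)
      (clear * - h4; gcongr)
    refine (Finset.sum_le_sum h1).trans ?_
    rw [← Finset.mul_sum, ← Finset.mul_sum]
    have h2 := sum_real_le J x
    have h3 : Real.log (2 * J + 1) ≤ 4 * Real.log (T + 2) := by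
      have hJr : (J : ℝ) ≤ 4 * (T + 2) + 2 := by
        have e : (J : ℝ) = ((⌈4 * (T + 2)⌉ + 1 : ℤ) : ℝ) := by exact_mod_cast hJZ
        have := Int.ceil_lt_add_one (4 * (T + 2))
        rw [e]
        push_cast
        (clear * - this; linarith)
      have h5 : 2 * (J : ℝ) + 1 ≤ (T + 2) ^ 4 := by
        have h6 : 2 * (J : ℝ) + 1 ≤ 8 * (T + 2) + 5 := by (clear * - hJr; linarith)
        have h7 : 9 ≤ (T + 2) ^ 2 := by (clear * - hT; nlinarith)
        have h8 : 9 * (T + 2) ^ 2 ≤ (T + 2) ^ 4 := by (clear * - h7; nlinarith [sq_nonneg (T + 2)])
        (clear * - hJr h7 h8 hT; nlinarith)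
      have h6 := Real.log_le_log (by positivity) h5
      rw [Real.log_pow] at h6
      exact_mod_cast h6
    have h4 : ∑ m ∈ Finset.Icc (-(J : ℤ)) J, (1 : ℝ) / (1 + |x - m|) ≤ 4 * 5 * Real.log (T + 2) := by
      (clear * - hl h2 h3; linarith)
    calc C * (2 * Real.log (T + 2)) * (1670 * ∑ m ∈ Finset.Icc (-(J : ℤ)) J, (1 : ℝ) / (1 + |x - m|))
        ≤ C * (2 * Real.log (T + 2)) * (1670 * (4 * 5 * Real.log (T + 2))) := by (clear * - h4 hC hl; gcongr)
      _ = _ := by ring

end Pool.Agent.M20.Helper1.KL
end

/- Helper53.KN.Helper8.KSZ.ShiftIter -/
section
/-! KSZ-E9: the explicit formula with the iterated kernel. -/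

set_option autoImplicit false
open Filter Topology MeasureTheory

namespace Pool.Agent.M20.Helper8.KSZ.Iter

open Pool.Agent.M20.Helper10.QRH Pool.Agent.M20.Helper69.QRH Pool.Agent.M20.Helper46.KSZ
open Pool.Agent.M20.Helper79.QRH (tri_cont tri_zero tri_nonneg tri_le KK_eq KK_cont
  integral_eq_interval)

lemma tri_int {lam : ℝ} (hl : 0 < lam) : ∫ w in (-lam)..lam, tri lam w = 1 := by
  have hc := tri_cont lam
  rw [← intervalIntegral.integral_add_adjacent_intervals (b := 0)
    (hc.intervalIntegrable _ _) (hc.intervalIntegrable _ _)]
  have h1 : ∫ v in (-lam)..0, tri lam v = ∫ v in (-lam)..0, (1 + v / lam) / lam := by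
    apply intervalIntegral.integral_congr
    intro v hv
    rw [Set.uIcc_of_le (by (clear * - hl; linarith))] at hv
    show tri lam v = _
    unfold tri
    rw [abs_of_nonpos hv.2, max_eq_right]
    · ring
    · have : -v / lam ≤ 1 := by
        rw [div_le_one hl]
        linarith [hv.1]
      linarith
  have h2 : ∫ v in (0:ℝ)..lam, tri lam v = ∫ v in (0:ℝ)..lam, (1 - v / lam) / lam := by
    apply intervalIntegral.integral_congr
    intro v hv
    rw [Set.uIcc_of_le (by linarith)] at hv
    show tri lam v = _
    unfold tri
    rw [abs_of_nonneg hv.1, max_eq_right]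
    have : v / lam ≤ 1 := by
      rw [div_le_one hl]
      (clear * - hv; linarith [hv.2])
    (clear * - this; linarith)
  rw [h1, h2]
  simp only [intervalIntegral.integral_div]
  rw [intervalIntegral.integral_add (by simp) (by
      apply Continuous.intervalIntegrable; fun_prop),
    intervalIntegral.integral_sub (by simp) (by
      apply Continuous.intervalIntegrable; fun_prop)]
  simp only [intervalIntegral.integral_div, integral_id, intervalIntegral.integral_const,
    smul_eq_mul]
  field_simp
  ring

/-- the basic averaging identity -/
lemma avg_exp {lam : ℝ} (hl : 0 < lam) (z : ℂ) (u : ℝ) :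
    ∫ w in (-lam)..lam, (tri lam w : ℂ) * Complex.exp (z * ((u - w : ℝ) : ℂ)) =
      KK lam z * Complex.exp (z * u) := by
  rw [KK_eq hl, ← intervalIntegral.integral_mul_const]
  apply intervalIntegral.integral_congr
  intro w _
  beta_reduce
  rw [mul_assoc, ← Complex.exp_add]
  congr 2
  push_cast
  ring

lemma triC_cont (lam : ℝ) : Continuous (fun w : ℝ => (tri lam w : ℂ)) := by
  have := tri_cont lam
  fun_prop

/-- multiset sums -/
lemma msum_cont (M : Multiset ℂ) (g : ℂ → ℂ) :
    Continuous (fun u : ℝ => (M.map (fun ρ => Complex.exp (ρ * u) * g ρ)).sum) := by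
  induction M using Multiset.induction_on with
  | empty => simp only [Multiset.map_zero, Multiset.sum_zero]; exact continuous_const
  | cons a M ih =>
    simp only [Multiset.map_cons, Multiset.sum_cons]
    exact (by fun_prop : Continuous (fun u : ℝ => Complex.exp (a * u) * g a)).add ih

lemma avg_msum {lam : ℝ} (hl : 0 < lam) (M : Multiset ℂ) (g : ℂ → ℂ) (u : ℝ) :
    ∫ w in (-lam)..lam, (tri lam w : ℂ) *
      (M.map (fun ρ => Complex.exp (ρ * ((u - w : ℝ) : ℂ)) * g ρ)).sum =
      (M.map (fun ρ => Complex.exp (ρ * u) * (g ρ * KK lam ρ))).sum := by
  induction M using Multiset.induction_on with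
  | empty => simp
  | cons a M ih =>
    simp only [Multiset.map_cons, Multiset.sum_cons, mul_add]
    rw [intervalIntegral.integral_add, ih]
    · congr 1
      have h1 : ∫ w in (-lam)..lam, (tri lam w : ℂ) * (Complex.exp (a * ((u - w : ℝ) : ℂ)) * g a) =
          (∫ w in (-lam)..lam, (tri lam w : ℂ) * Complex.exp (a * ((u - w : ℝ) : ℂ))) * g a := by
        rw [← intervalIntegral.integral_mul_const]
        apply intervalIntegral.integral_congr
        intro w _
        show _ = _
        ring
      rw [h1, avg_exp hl]
      ring
    · apply Continuous.intervalIntegrable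
      have := triC_cont lam
      fun_prop
    · apply Continuous.intervalIntegrable
      have := triC_cont lam
      have h2 := (msum_cont M g).comp (by fun_prop : Continuous (fun w : ℝ => u - w))
      exact this.mul h2

/-- the prime side as a finite sum -/
lemma tsum_eq {K : ℝ → ℝ} {R : ℝ} (hK0 : ∀ v, R ≤ |v| → K v = 0) {N : ℕ} (hN : 1 ≤ N)
    {u : ℝ} (hu : u + R ≤ Real.log N) :
    ∑' n : ℕ, ArithmeticFunction.vonMangoldt n * K (u - Real.log n) =
      ∑ n ∈ Finset.range N, ArithmeticFunction.vonMangoldt n * K (u - Real.log n) := by
  apply tsum_eq_sum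
  intro n hn
  rw [Finset.mem_range, not_lt] at hn
  have h1 : Real.log N ≤ Real.log n :=
    Real.log_le_log (by exact_mod_cast hN) (by exact_mod_cast hn)
  rw [hK0, mul_zero]
  rw [abs_sub_comm]
  exact le_trans (by (clear * - hu h1; linarith)) (le_abs_self _)

lemma fsum_cont {K : ℝ → ℝ} (hK : Continuous K) (N : ℕ) :
    Continuous (fun u : ℝ => ∑ n ∈ Finset.range N,
      ArithmeticFunction.vonMangoldt n * K (u - Real.log n)) := by
  fun_prop

lemma avg_fsum {lam : ℝ} (hl : 0 < lam) {K K' : ℝ → ℝ} (hK : Continuous K)
    (hK' : ∀ v, K' v = ∫ w : ℝ, tri lam w * K (v - w)) (N : ℕ) (u : ℝ) :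
    ∫ w in (-lam)..lam, (tri lam w : ℂ) * ((∑ n ∈ Finset.range N,
      ArithmeticFunction.vonMangoldt n * K ((u - w) - Real.log n) : ℝ) : ℂ) =
      ((∑ n ∈ Finset.range N,
      ArithmeticFunction.vonMangoldt n * K' (u - Real.log n) : ℝ) : ℂ) := by
  have hv : ∀ v, K' v = ∫ w in (-lam)..lam, tri lam w * K (v - w) := by
    intro v
    rw [hK', intervalIntegral.integral_of_le (by linarith)]
    symm
    apply setIntegral_eq_integral_of_forall_compl_eq_zero
    intro w hw
    rw [tri_zero hl, zero_mul]
    rw [Set.mem_Ioc, not_and_or, not_lt, not_le] at hw
    rcases hw with h | h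
    · rw [le_abs]; right; (clear * - h; linarith)
    · rw [le_abs]; left; exact h.le
  have ht := tri_cont lam
  have h1 : ∀ w : ℝ, (tri lam w : ℂ) * ((∑ n ∈ Finset.range N,
      ArithmeticFunction.vonMangoldt n * K ((u - w) - Real.log n) : ℝ) : ℂ) =
      ((∑ n ∈ Finset.range N, ArithmeticFunction.vonMangoldt n *
        (tri lam w * K ((u - Real.log n) - w)) : ℝ) : ℂ) := by
    intro w
    rw [← Complex.ofReal_mul, Finset.mul_sum]
    congr 1
    apply Finset.sum_congr rfl
    intro n _
    rw [show u - w - Real.log n = u - Real.log n - w by ring]
    ring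
  simp only [h1]
  rw [intervalIntegral.integral_ofReal, intervalIntegral.integral_finsetSum]
  · congr 1
    apply Finset.sum_congr rfl
    intro n _
    rw [intervalIntegral.integral_const_mul, hv]
  · intro n _
    apply Continuous.intervalIntegrable
    fun_prop

/-- the line integral of a continuous function -/
lemma lint_cont {G : ℝ → ℂ} (hG : Continuous G) (c T : ℝ) :
    Continuous (fun u : ℝ => ∫ t in (-T)..T, G t * Complex.exp (((c : ℂ) + t * Complex.I) * u)) := by
  apply intervalIntegral.continuous_parametric_intervalIntegral_of_continuous'
  simp only [Function.uncurry_def]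
  fun_prop

lemma avg_lint {lam : ℝ} (hl : 0 < lam) {G : ℝ → ℂ} (hG : Continuous G) (c T : ℝ) (u : ℝ) :
    ∫ w in (-lam)..lam, (tri lam w : ℂ) *
      (∫ t in (-T)..T, G t * Complex.exp (((c : ℂ) + t * Complex.I) * ((u - w : ℝ) : ℂ))) =
      ∫ t in (-T)..T, (G t * KK lam (c + t * Complex.I)) *
        Complex.exp (((c : ℂ) + t * Complex.I) * u) := by
  have h1 : ∀ w : ℝ, (tri lam w : ℂ) *
      (∫ t in (-T)..T, G t * Complex.exp (((c : ℂ) + t * Complex.I) * ((u - w : ℝ) : ℂ))) =
      ∫ t in (-T)..T, (tri lam w : ℂ) *
        (G t * Complex.exp (((c : ℂ) + t * Complex.I) * ((u - w : ℝ) : ℂ))) := by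
    intro w
    rw [intervalIntegral.integral_const_mul]
  simp only [h1]
  rw [intervalIntegral_intervalIntegral_swap]
  · apply intervalIntegral.integral_congr
    intro t _
    beta_reduce
    have h2 : ∫ w in (-lam)..lam, (tri lam w : ℂ) *
        (G t * Complex.exp (((c : ℂ) + t * Complex.I) * ((u - w : ℝ) : ℂ))) =
        G t * ∫ w in (-lam)..lam, (tri lam w : ℂ) *
          Complex.exp (((c : ℂ) + t * Complex.I) * ((u - w : ℝ) : ℂ)) := by
      rw [← intervalIntegral.integral_const_mul]
      apply intervalIntegral.integral_congr
      intro w _
      show _ = _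
      ring
    rw [h2, avg_exp hl]
    ring
  · have hc : Continuous (Function.uncurry fun (w t : ℝ) => (tri lam w : ℂ) *
        (G t * Complex.exp (((c : ℂ) + t * Complex.I) * ((u - w : ℝ) : ℂ)))) := by
      simp only [Function.uncurry_def]
      exact ((triC_cont lam).comp continuous_fst).mul (by fun_prop)
    have h3 : IntegrableOn (Function.uncurry fun (w t : ℝ) => (tri lam w : ℂ) *
        (G t * Complex.exp (((c : ℂ) + t * Complex.I) * ((u - w : ℝ) : ℂ))))
        (Set.uIcc (-lam) lam ×ˢ Set.uIcc (-T) T) :=
      hc.continuousOn.integrableOn_compact (isCompact_uIcc.prod isCompact_uIcc)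
    exact h3.mono_set (Set.prod_mono Set.uIoc_subset_uIcc Set.uIoc_subset_uIcc)

/-- a continuous function on `[-T, T]` extends -/
lemma exists_ext {T : ℝ} (hT : 0 ≤ T) {G : ℝ → ℂ} (hG : ContinuousOn G (Set.Icc (-T) T)) :
    ∃ G' : ℝ → ℂ, Continuous G' ∧ ∀ t ∈ Set.Icc (-T) T, G' t = G t := by
  have h : -T ≤ T := by (clear * - hT; linarith)
  refine ⟨Set.IccExtend h ((Set.Icc (-T) T).domRestrict G), ?_, ?_⟩
  · exact (continuousOn_iff_continuous_domRestrict.1 hG).Icc_extend'
  · intro t ht
    rw [Set.IccExtend_of_mem _ _ ht]
    rfl

theorem step (hK : KFacts) (h8 : KerFacts) {C T : ℝ} (hT : 1 ≤ T) (hC : 0 < C) {M : Multiset ℂ}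
    {Z : ℂ → ℂ} (hB : Box T M Z) {lam : ℝ} (hl : 0 < lam) {j : ℕ}
    (ih : ∀ u : ℝ, 1 + j * lam ≤ u → ‖lhs (ker lam j) (j + 1) lam M u - line (j + 1) lam T Z u‖ ≤
      C * Real.exp (2 * (u + j * lam)) * (Real.log (T + 2)) ^ 2 / (lam ^ 2 * T))
    {u : ℝ} (hu : 1 + ((j + 1 : ℕ) : ℝ) * lam ≤ u) :
    ‖lhs (ker lam (j + 1)) (j + 1 + 1) lam M u - line (j + 1 + 1) lam T Z u‖ ≤
      C * Real.exp (2 * (u + ((j + 1 : ℕ) : ℝ) * lam)) * (Real.log (T + 2)) ^ 2 /
        (lam ^ 2 * T) := by
  obtain ⟨hkc, -, -, hkz⟩ := h8 lam hl j
  obtain ⟨-, -, -, hkz'⟩ := h8 lam hl (j + 1)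
  have hT0 : 0 < T := by linarith
  -- finite sums
  set N : ℕ := ⌈Real.exp (u + ((j : ℝ) + 2) * lam)⌉₊ with hN
  have hN1 : 1 ≤ N := Nat.one_le_iff_ne_zero.2 (Nat.ceil_pos.2 (Real.exp_pos _)).ne'
  have hNl : u + ((j : ℝ) + 2) * lam ≤ Real.log N := by
    rw [Real.le_log_iff_exp_le (by exact_mod_cast hN1)]
    exact Nat.le_ceil _
  have hs1 : ∀ w : ℝ, |w| ≤ lam → (∑' n : ℕ, ArithmeticFunction.vonMangoldt n *
      ker lam j ((u - w) - Real.log n)) = ∑ n ∈ Finset.range N,
      ArithmeticFunction.vonMangoldt n * ker lam j ((u - w) - Real.log n) := by
    intro w hw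
    apply tsum_eq (R := ((j : ℝ) + 1) * lam) hkz hN1
    have := (abs_le.1 hw).1
    (clear * - hNl this; linarith)
  have hs2 : (∑' n : ℕ, ArithmeticFunction.vonMangoldt n *
      ker lam (j + 1) (u - Real.log n)) = ∑ n ∈ Finset.range N,
      ArithmeticFunction.vonMangoldt n * ker lam (j + 1) (u - Real.log n) := by
    apply tsum_eq (R := (((j + 1 : ℕ) : ℝ) + 1) * lam) hkz' hN1
    push_cast
    (clear * - hNl; linarith)
  -- the line
  have hGc : ContinuousOn (fun t : ℝ => KK lam ((0.605 : ℝ) + t * Complex.I) ^ (j + 1) *
      (-logDeriv Z ((0.605 : ℝ) + t * Complex.I))) (Set.Icc (-T) T) := by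
    have h1 : Continuous (fun t : ℝ => KK lam ((0.605 : ℝ) + t * Complex.I)) :=
      (KK_cont hl).comp (by fun_prop)
    refine (h1.pow _).continuousOn.mul (ContinuousOn.neg ?_)
    intro t ht
    apply ContinuousAt.continuousWithinAt
    have hne : Z ((0.605 : ℝ) + t * Complex.I) ≠ 0 := by
      apply hB.ne
      · simp only [Complex.add_re, Complex.ofReal_re, Complex.mul_re, Complex.I_re, mul_zero,
          Complex.ofReal_im, Complex.I_im, mul_one, sub_self, add_zero]
        norm_num
      · simp only [Complex.add_im, Complex.ofReal_im, Complex.mul_im, Complex.ofReal_re,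
          Complex.I_im, mul_one, Complex.I_re, mul_zero, add_zero, zero_add]
        rw [abs_lt]
        constructor <;> (clear * - ht; linarith [ht.1, ht.2])
    have h2 : ContinuousAt (logDeriv Z) ((0.605 : ℝ) + t * Complex.I) := by
      have h3 : DifferentiableAt ℂ (deriv Z) ((0.605 : ℝ) + t * Complex.I) := hB.diff.deriv _
      exact (h3.div (hB.diff _) hne).continuousAt
    exact ContinuousAt.comp (f := fun t : ℝ => ((0.605 : ℝ) : ℂ) + t * Complex.I) h2
      (by fun_prop)
  obtain ⟨G, hG, hGe⟩ := exists_ext hT0.le hGc
  have hline : ∀ v : ℝ, line (j + 1) lam T Z v = (1 / (2 * Real.pi)) * ∫ t in (-T)..T, G t *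
      Complex.exp ((((0.605 : ℝ) : ℂ) + t * Complex.I) * v) := by
    intro v
    unfold line
    congr 1
    apply intervalIntegral.integral_congr
    intro t ht
    rw [Set.uIcc_of_le (by linarith)] at ht
    beta_reduce
    rw [hGe t ht]
  have hline' : ∀ v : ℝ, line (j + 1 + 1) lam T Z v = (1 / (2 * Real.pi)) * ∫ t in (-T)..T,
      (G t * KK lam ((0.605 : ℝ) + t * Complex.I)) *
      Complex.exp ((((0.605 : ℝ) : ℂ) + t * Complex.I) * v) := by
    intro v
    unfold line
    congr 1
    apply intervalIntegral.integral_congr
    intro t ht
    rw [Set.uIcc_of_le (by (clear * - hT; linarith))] at ht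
    beta_reduce
    rw [hGe t ht]
    ring
  -- the four pieces
  have htc := triC_cont lam
  have i1 := avg_fsum (K' := ker lam (j + 1)) hl hkc (fun v => rfl) N u
  have i2 := avg_exp hl 1 u
  have i3 := avg_msum hl M (fun ρ => KK lam ρ ^ (j + 1)) u
  have i4 := avg_lint hl hG (0.605 : ℝ) T u
  have c1 : Continuous (fun w : ℝ => (tri lam w : ℂ) * ((∑ n ∈ Finset.range N,
      ArithmeticFunction.vonMangoldt n * ker lam j ((u - w) - Real.log n) : ℝ) : ℂ)) := by
    have h1 := (fsum_cont hkc N).comp (by fun_prop : Continuous (fun w : ℝ => u - w))
    exact htc.mul (Complex.continuous_ofReal.comp h1)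
  have c2 : Continuous (fun w : ℝ => (tri lam w : ℂ) * Complex.exp (1 * ((u - w : ℝ) : ℂ))) := by
    fun_prop
  have c3 : Continuous (fun w : ℝ => (tri lam w : ℂ) * (M.map (fun ρ =>
      Complex.exp (ρ * ((u - w : ℝ) : ℂ)) * KK lam ρ ^ (j + 1))).sum) := by
    have h1 := (msum_cont M (fun ρ => KK lam ρ ^ (j + 1))).comp
      (by fun_prop : Continuous (fun w : ℝ => u - w))
    exact htc.mul h1
  have c4 : Continuous (fun w : ℝ => (tri lam w : ℂ) * (∫ t in (-T)..T, G t *
      Complex.exp ((((0.605 : ℝ) : ℂ) + t * Complex.I) * ((u - w : ℝ) : ℂ)))) := by
    have h1 := (lint_cont hG (0.605 : ℝ) T).comp (by fun_prop : Continuous (fun w : ℝ => u - w))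
    exact htc.mul h1
  have key : lhs (ker lam (j + 1)) (j + 1 + 1) lam M u - line (j + 1 + 1) lam T Z u =
      ∫ w in (-lam)..lam, (tri lam w : ℂ) *
        (lhs (ker lam j) (j + 1) lam M (u - w) - line (j + 1) lam T Z (u - w)) := by
    have e1 : ∫ w in (-lam)..lam, (tri lam w : ℂ) *
        (lhs (ker lam j) (j + 1) lam M (u - w) - line (j + 1) lam T Z (u - w)) =
        ∫ w in (-lam)..lam, ((((tri lam w : ℂ) * ((∑ n ∈ Finset.range N,
      ArithmeticFunction.vonMangoldt n * ker lam j ((u - w) - Real.log n) : ℝ) : ℂ)) -
        ((tri lam w : ℂ) * Complex.exp (1 * ((u - w : ℝ) : ℂ))) * KK lam 1 ^ (j + 1)) +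
        (tri lam w : ℂ) * (M.map (fun ρ =>
      Complex.exp (ρ * ((u - w : ℝ) : ℂ)) * KK lam ρ ^ (j + 1))).sum) -
        (1 / (2 * Real.pi)) * ((tri lam w : ℂ) * (∫ t in (-T)..T, G t *
      Complex.exp ((((0.605 : ℝ) : ℂ) + t * Complex.I) * ((u - w : ℝ) : ℂ)))) := by
      apply intervalIntegral.integral_congr
      intro w hw
      rw [Set.uIcc_of_le (by (clear * - hl; linarith))] at hw
      beta_reduce
      rw [hline]
      unfold lhs
      rw [hs1 w (abs_le.2 hw), one_mul]
      ring
    rw [e1, intervalIntegral.integral_sub, intervalIntegral.integral_add,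
      intervalIntegral.integral_sub, intervalIntegral.integral_mul_const,
      intervalIntegral.integral_const_mul, i1, i2, i3, i4, hline']
    · unfold lhs
      rw [hs2]
      simp only [one_mul, ← pow_succ]
      ring
    · exact c1.intervalIntegrable _ _
    · exact (c2.mul continuous_const).intervalIntegrable _ _
    · exact (c1.sub (c2.mul continuous_const)).intervalIntegrable _ _
    · exact c3.intervalIntegrable _ _
    · exact ((c1.sub (c2.mul continuous_const)).add c3).intervalIntegrable _ _
    · exact (continuous_const.mul c4).intervalIntegrable _ _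
  rw [key]
  set B : ℝ := C * Real.exp (2 * (u + ((j + 1 : ℕ) : ℝ) * lam)) * (Real.log (T + 2)) ^ 2 /
        (lam ^ 2 * T) with hBd
  have hb : ‖∫ w in (-lam)..lam, (tri lam w : ℂ) *
        (lhs (ker lam j) (j + 1) lam M (u - w) - line (j + 1) lam T Z (u - w))‖ ≤
      ∫ w in (-lam)..lam, tri lam w * B := by
    apply intervalIntegral.norm_integral_le_of_norm_le (by (clear * - hl; linarith))
    · refine Filter.Eventually.of_forall ?_
      intro w hw
      have hw' : |w| ≤ lam := abs_le.2 ⟨hw.1.le, hw.2⟩
      rw [norm_mul, Complex.norm_real, Real.norm_of_nonneg (tri_nonneg hl)]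
      apply mul_le_mul_of_nonneg_left _ (tri_nonneg hl)
      push_cast at hu
      refine (ih (u - w) ?_).trans ?_
      · (clear * - hu hw; linarith [hw.2])
      · have hexp : Real.exp (2 * (u - w + j * lam)) ≤
            Real.exp (2 * (u + ((j + 1 : ℕ) : ℝ) * lam)) := by
          apply Real.exp_le_exp.2
          push_cast
          (clear * - hw; linarith [hw.1])
        rw [hBd]
        (clear * - hexp hC hl hT; gcongr)
    · have := tri_cont lam
      apply Continuous.intervalIntegrable
      fun_prop
  rw [intervalIntegral.integral_mul_const, tri_int hl, one_mul] at hb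
  exact hb

end Pool.Agent.M20.Helper8.KSZ.Iter

namespace Pool.Agent.M20.Helper8.KSZ

open Pool.Agent.M20.Helper10.QRH Pool.Agent.M20.Helper69.QRH Pool.Agent.M20.Helper46.KSZ

theorem shiftIter (hK : KFacts) (h7 : Shift) (h8 : KerFacts) : ShiftIter := by
  obtain ⟨C, hC, hCs⟩ := h7
  refine ⟨C, hC, ?_⟩
  intro T M Z hT hB lam u j hl hl1
  induction j generalizing u with
  | zero =>
    intro hu
    have := hCs T M Z hT hB lam u hl hl1 (by simpa using hu)
    simpa [Helper46.KSZ.ker] using this
  | succ j ih =>
    intro hu
    exact Iter.step hK h8 hT hC hB hl (fun v hv => ih v hv) hu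

end Pool.Agent.M20.Helper8.KSZ
end

/- Helper53.KN.Helper60.KC.DetectG -/
section
/-!
# Detection of zeros, general height exponent (adapted from helper26's `D5`)
-/

set_option autoImplicit false
set_option linter.all false
set_option maxHeartbeats 4000000
open MeasureTheory Filter Topology Finset

namespace Pool.Agent.M20.Helper60.KC

open Pool.Agent.M20.Helper26.KC Pool.Agent.M20.Helper69.QRH Pool.Agent.M20.Helper60.KS

theorem b1G {ta δ d s0 μ0 Cz L x β γ V : ℝ} {D : ℕ} (hta1 : 1/4 ≤ ta) (hta2 : ta ≤ 1/2) (hδ : 0 < δ) (hδ' : δ ≤ 1 / 1000)
    (hd : 0 < d) (hd' : d ≤ δ) (hs1 : s0 ≤ 1 / 2) (hμ0 : 0 ≤ μ0) (hμ1 : μ0 ≤ 1)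
    (hCz : 0 ≤ Cz) (hL2 : 33792 * Cz / δ ^ 2 ≤ L) (hL1 : 10 ≤ L)
    (hx' : x ≤ 0.4 + δ) (hβ : 1 - x ≤ β)
    (hγ : |γ| ≤ Real.exp ((ta + 2 * d) * L) + 1) (hD : (D : ℝ) ≤ Real.exp (δ * L))
    (hV : V = ((ta + 2 * d) * (μ0 / (1 - x - s0)) + 40 * δ) * L) (hV0 : 0 ≤ V) :
    32 * Cz * (2 + |γ|) ^ μ0 * Real.log (2 + |γ|) * D * Real.exp (1 - (β - s0) * V) / (β - s0) ≤
      1 / 16 := by
  have hη : 0.099 ≤ 1 - x - s0 := by (clear * - hδ' hs1 hx'; linarith)
  have hη0 : 0 < 1 - x - s0 := by (clear * - hδ hδ' hs1 hx'; linarith)
  have hηV : (1 - x - s0) * V = ((ta + 2 * d) * μ0 + 40 * δ * (1 - x - s0)) * L := by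
    rw [hV]
    calc (1 - x - s0) * (((ta + 2 * d) * (μ0 / (1 - x - s0)) + 40 * δ) * L) =
        ((ta + 2 * d) * (μ0 / (1 - x - s0) * (1 - x - s0)) + 40 * δ * (1 - x - s0)) * L := by ring
      _ = _ := by rw [div_mul_cancel₀ _ hη0.ne']
  have hexp1 : 1 ≤ Real.exp ((ta + 2 * d) * L) := Real.one_le_exp (by (clear * - hta1 hd hL1; positivity))
  have h2g : 2 + |γ| ≤ 4 * Real.exp ((ta + 2 * d) * L) := by (clear * - hγ hexp1; linarith)
  have habs := abs_nonneg γ
  have e1 : (2 + |γ|) ^ μ0 ≤ 4 * Real.exp ((ta + 2 * d) * μ0 * L) := by
    calc (2 + |γ|) ^ μ0 ≤ (4 * Real.exp ((ta + 2 * d) * L)) ^ μ0 :=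
          Real.rpow_le_rpow (by positivity) h2g hμ0
      _ = 4 ^ μ0 * Real.exp ((ta + 2 * d) * L) ^ μ0 :=
          Real.mul_rpow (by norm_num) (Real.exp_pos _).le
      _ = 4 ^ μ0 * Real.exp ((ta + 2 * d) * μ0 * L) := by
          rw [← Real.exp_mul]; congr 2; ring
      _ ≤ 4 ^ (1 : ℝ) * Real.exp ((ta + 2 * d) * μ0 * L) := by
          exact mul_le_mul_of_nonneg_right (Real.rpow_le_rpow_of_exponent_le (by norm_num) hμ1)
            (Real.exp_pos _).le
      _ = _ := by rw [Real.rpow_one]
  have e2 : Real.log (2 + |γ|) ≤ 2 * L := by
    calc Real.log (2 + |γ|) ≤ Real.log (4 * Real.exp ((ta + 2 * d) * L)) :=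
          Real.log_le_log (by positivity) h2g
      _ = Real.log 4 + (ta + 2 * d) * L := by
          rw [Real.log_mul (by norm_num) (Real.exp_pos _).ne', Real.log_exp]
      _ ≤ 2 * L := by
          have h4 : Real.log 4 ≤ 3 := by
            have := Real.log_le_sub_one_of_pos (show (0 : ℝ) < 4 by norm_num)
            (clear * - this; linarith)
          have h5 : (ta + 2 * d) * L ≤ 1 * L :=
            mul_le_mul_of_nonneg_right (by (clear * - hta2 hδ' hd'; linarith))
              (by (clear * - hL1; linarith))
          (clear * - hL1 h4 h5; linarith)
  have e2' : 0 ≤ Real.log (2 + |γ|) := Real.log_nonneg (by (clear * - hδ hδ' habs; linarith))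
  have e3 : Real.exp (1 - (β - s0) * V) ≤
      3 * Real.exp (-(((ta + 2 * d) * μ0 + 3.9 * δ) * L)) := by
    have h1 : ((ta + 2 * d) * μ0 + 3.9 * δ) * L ≤ (β - s0) * V := by
      have h2 : (1 - x - s0) * V ≤ (β - s0) * V := mul_le_mul_of_nonneg_right (by (clear * - hβ; linarith)) hV0
      refine le_trans ?_ h2
      rw [hηV]
      apply mul_le_mul_of_nonneg_right _ (by (clear * - hδ hδ' hL1; linarith))
      have h3 := mul_le_mul_of_nonneg_left hη hδ.le
      (clear * - h3 hδ; linarith)
    calc Real.exp (1 - (β - s0) * V) ≤ Real.exp (1 + -(((ta + 2 * d) * μ0 + 3.9 * δ) * L)) :=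
          Real.exp_le_exp.mpr (by (clear * - h1; linarith))
      _ = Real.exp 1 * Real.exp (-(((ta + 2 * d) * μ0 + 3.9 * δ) * L)) := Real.exp_add _ _
      _ ≤ _ := by
          exact mul_le_mul_of_nonneg_right Real.exp_one_lt_three.le (Real.exp_pos _).le
  have hβs : 0.099 ≤ β - s0 := by (clear * - hδ' hs1 hx' hβ; linarith)
  have e5 : Real.exp ((ta + 2 * d) * μ0 * L) * Real.exp (δ * L) *
      Real.exp (-(((ta + 2 * d) * μ0 + 3.9 * δ) * L)) = Real.exp (-(2.9 * δ * L)) := by
    rw [← Real.exp_add, ← Real.exp_add]
    congr 1
    ring
  have h6 := b1_aux hCz hδ hL2 (by (clear * - hδ hδ' hL1; linarith))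
  have hL0 : 0 ≤ L := by (clear * - hδ hδ' hL1; linarith)
  calc 32 * Cz * (2 + |γ|) ^ μ0 * Real.log (2 + |γ|) * D * Real.exp (1 - (β - s0) * V) / (β - s0)
      ≤ 32 * Cz * (4 * Real.exp ((ta + 2 * d) * μ0 * L)) * (2 * L) * Real.exp (δ * L) *
        (3 * Real.exp (-(((ta + 2 * d) * μ0 + 3.9 * δ) * L))) / (1 / 11) := by
        have a0 : 0 ≤ 32 * Cz := mul_nonneg (by norm_num) hCz
        have a1 : 0 ≤ 32 * Cz * (4 * Real.exp ((ta + 2 * d) * μ0 * L)) :=
          mul_nonneg a0 (mul_nonneg (by norm_num) (Real.exp_pos _).le)
        have a2 : 0 ≤ 32 * Cz * (4 * Real.exp ((ta + 2 * d) * μ0 * L)) * (2 * L) :=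
          mul_nonneg a1 (mul_nonneg zero_le_two hL0)
        have a3 : 0 ≤ 32 * Cz * (4 * Real.exp ((ta + 2 * d) * μ0 * L)) * (2 * L) *
            Real.exp (δ * L) := mul_nonneg a2 (Real.exp_pos _).le
        exact div_le_div₀ (mul_nonneg a3 (mul_nonneg (by norm_num) (Real.exp_pos _).le))
          (mul_le_mul (mul_le_mul (mul_le_mul (mul_le_mul_of_nonneg_left e1 a0) e2 e2' a1) hD
            (Nat.cast_nonneg _) a2) e3 (Real.exp_pos _).le a3) (by norm_num)
          ((by norm_num : (1 / 11 : ℝ) ≤ 0.099).trans hβs)
    _ = 8448 * Cz * L * (Real.exp ((ta + 2 * d) * μ0 * L) * Real.exp (δ * L) *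
        Real.exp (-(((ta + 2 * d) * μ0 + 3.9 * δ) * L))) := by ring
    _ ≤ 1 / 16 := by rw [e5]; exact h6

theorem coreG {ta δ d s0 μ0 Cz : ℝ} (hta1 : 1/4 ≤ ta) (hta2 : ta ≤ 1/2) (hδ : 0 < δ) (hδ' : δ ≤ 1 / 1000) (hd : 0 < d) (hd' : d ≤ δ)
    (hs0 : 2 / 7 ≤ s0) (hs1 : s0 ≤ 1 / 2) (hμ0 : 0 ≤ μ0) (hμ1 : μ0 ≤ 1) (hCz : 0 ≤ Cz)
    (hz : ∀ τ : ℝ, ‖riemannZeta (s0 + τ * Complex.I)‖ ≤ Cz * (2 + |τ|) ^ μ0 * Real.log (2 + |τ|)) :
    ∃ L0 : ℝ, ∀ L : ℝ, L0 ≤ L → ∀ x : ℝ, 0 < x → x ≤ 0.4 + δ → μ0 / (1 - x - s0) ≤ 1 →
    ∃ g : ℕ → ℂ, (∀ n, ‖g n‖ ≤ (n.divisors.card : ℝ)) ∧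
    ∀ ρ : ℂ, riemannZeta ρ = 0 → 1 - x ≤ ρ.re → L ^ 2 ≤ |ρ.im| →
    |ρ.im| ≤ Real.exp ((ta + 2 * d) * L) + 1 →
    ∃ i : ℕ, Real.exp (δ * L) / 2 ≤ (2 : ℝ) ^ i ∧
      (2 : ℝ) ^ i ≤ Real.exp ((ta * (μ0 / (1 - x - s0)) + 45 * δ) * L) ∧
      1 / (16 * L) ≤ ‖DP g (2 ^ i) 2 ρ‖ := by
  set K : ℝ := 2 + 4 / δ with hK
  have hK2 : 2 ≤ K := by
    have : 0 < 4 / δ := by positivity
    (clear * - this; linarith)
  refine ⟨max (max 10 (33792 * Cz / δ ^ 2)) (max (2 * (K ^ 2 + 8)) (1 / δ)), ?_⟩
  intro L hL x hx hx' hκ
  have hL1 : 10 ≤ L := (le_max_left _ _).trans ((le_max_left _ _).trans hL)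
  have hL2 : 33792 * Cz / δ ^ 2 ≤ L := (le_max_right _ _).trans ((le_max_left _ _).trans hL)
  have hL3 : 2 * (K ^ 2 + 8) ≤ L := (le_max_left _ _).trans ((le_max_right _ _).trans hL)
  have hL4 : 1 ≤ δ * L := by
    have : 1 / δ ≤ L := (le_max_right _ _).trans ((le_max_right _ _).trans hL)
    rw [div_le_iff₀ hδ] at this
    (clear * - this; linarith)
  have hη0 : 0 < 1 - x - s0 := by (clear * - hδ hδ' hs1 hx'; linarith)
  set κ : ℝ := μ0 / (1 - x - s0) with hκdef
  have hκ0 : 0 ≤ κ := by rw [hκdef]; (clear * - hμ0 hη0; positivity)
  set V : ℝ := ((ta + 2 * d) * κ + 40 * δ) * L with hV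
  have hL0 : 0 ≤ L := by (clear * - hδ hδ' hL1; linarith)
  have hV0 : 0 ≤ V := by rw [hV]; (clear * - hta1 hd hμ0 hη0 hδ hL1; positivity)
  have hV1 : 40 * (δ * L) ≤ V := by
    rw [hV]
    have : 0 ≤ (ta + 2 * d) * κ * L := by (clear * - hta1 hd hμ0 hη0 hL1; positivity)
    (clear * - this; linarith)
  have hVL : V ≤ 0.6 * L := by
    rw [hV]
    apply mul_le_mul_of_nonneg_right _ hL0
    have : (ta + 2 * d) * κ ≤ (ta + 2 * d) * 1 := mul_le_mul_of_nonneg_left hκ (by positivity)
    (clear * - hta2 hδ hδ' hd' this; linarith)
  set D : ℕ := ⌊Real.exp (δ * L)⌋₊ with hD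
  have hD1 : 1 ≤ D := by
    rw [hD, Nat.one_le_floor_iff]
    exact Real.one_le_exp (by positivity)
  have hDle : (D : ℝ) ≤ Real.exp (δ * L) := Nat.floor_le (Real.exp_pos _).le
  set g : ℕ → ℂ := fun n => an D n * (Phi (V - Real.log n) : ℂ) with hg
  refine ⟨g, ?_, ?_⟩
  · intro n
    simp only [hg]
    rw [norm_mul, Complex.norm_real, Real.norm_of_nonneg (Phi_nonneg _)]
    have h1 := an_norm_le D n
    have h2 := Phi_le_one (V - Real.log n)
    have h3 := Phi_nonneg (V - Real.log n)
    have h4 := norm_nonneg (an D n)
    exact (mul_le_of_le_one_right h4 h2).trans h1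
  intro ρ hρ hβ hγ1 hγ2
  have hβ1 : ρ.re ≤ 1 := by
    by_contra h
    push Not at h
    exact riemannZeta_ne_zero_of_one_le_re h.le hρ
  have hρs0 : s0 < ρ.re := by (clear * - hδ hδ' hs1 hx' hβ; linarith)
  have hρ0 : 0 ≤ ρ.re := by (clear * - hδ hδ' hx' hβ; linarith)
  have hL100 : 100 ≤ L ^ 2 := by
    rw [show (100 : ℝ) = 10 ^ 2 by norm_num]
    exact pow_le_pow_left₀ (by norm_num) hL1 2
  have hγge : 1 ≤ |ρ.im| := by (clear * - hδ hδ' hγ1 hL100; linarith)
  have hmel := mellin_bound hμ0 hμ1 hCz hs0 hs1 hz hρ hρs0 hβ1 hγge hV0 D
  have hB1 := b1G (D := D) hta1 hta2 hδ hδ' hd hd' hs1 hμ0 hμ1 hCz hL2 hL1 hx' hβ hγ2 hDle hV hV0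
  have hB2 : 300 * (D * Real.exp (V - ρ.im ^ 2)) ≤ 1 / 16 := by
    have h1 : (L ^ 2) ^ 2 ≤ ρ.im ^ 2 := by
      have := pow_le_pow_left₀ (by positivity) hγ1 2
      rwa [sq_abs] at this
    have h2 : 100 * L ≤ (L ^ 2) ^ 2 := by
      rw [sq (L ^ 2)]
      exact mul_le_mul hL100 (le_self_pow₀ ((by norm_num : (1 : ℝ) ≤ 10).trans hL1) two_ne_zero)
        hL0 (sq_nonneg L)
    have h3 : (D : ℝ) * Real.exp (V - ρ.im ^ 2) ≤ Real.exp (-(98 * L)) := by
      calc (D : ℝ) * Real.exp (V - ρ.im ^ 2) ≤ Real.exp (δ * L) * Real.exp (V - ρ.im ^ 2) :=
            mul_le_mul_of_nonneg_right hDle (Real.exp_pos _).le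
        _ = Real.exp (δ * L + (V - ρ.im ^ 2)) := (Real.exp_add _ _).symm
        _ ≤ _ := Real.exp_le_exp.mpr (by (clear * - hδ hδ' hL4 hV1 hVL h1 h2; linarith))
    have h4 : Real.exp (-(98 * L)) ≤ 1 / 4800 := by
      rw [Real.exp_neg, ← one_div, div_le_div_iff_of_pos_left one_pos (Real.exp_pos _) (by norm_num)]
      have h5 := Real.quadratic_le_exp_of_nonneg (show (0 : ℝ) ≤ 98 * L by positivity)
      (clear * - hδ hδ' hL4 hV1 hVL hL100 h5; linarith)
    (clear * - h3 h4; linarith)
  obtain ⟨n, hn1, hn2⟩ := exists_nat_pow_near (x := Real.exp (V + δ * L)) (y := 2)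
    (Real.one_le_exp (by (clear * - hta1 hd hμ0 hη0 hδ hL1; positivity))) (by norm_num)
  have hlogN : V + δ * L ≤ Real.log ((2 ^ (n + 1) : ℕ) : ℝ) := by
    rw [Real.le_log_iff_exp_le (by positivity)]
    push_cast
    exact hn2.le
  have hfin := finite_sum (ρ := ρ) hρ0 (K := K) (V := V) (L1 := δ * L) hK2 (N0 := 2 ^ (n + 1)) D
    (by positivity) hlogN
  have hB3 : (D : ℝ) * (2 * Real.exp (K ^ 2 + 2 * V - (K - 2) * (δ * L))) ≤ 1 / 16 := by
    have h1 : (K - 2) * (δ * L) = 4 * L := by
      rw [hK]; field_simp; ring
    rw [h1]
    calc (D : ℝ) * (2 * Real.exp (K ^ 2 + 2 * V - 4 * L))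
        ≤ Real.exp (δ * L) * (2 * Real.exp (K ^ 2 + 2 * V - 4 * L)) :=
            mul_le_mul_of_nonneg_right hDle (mul_nonneg zero_le_two (Real.exp_pos _).le)
      _ = 2 * Real.exp (δ * L + (K ^ 2 + 2 * V - 4 * L)) := by rw [Real.exp_add]; ring
      _ ≤ 2 * Real.exp (-(L / 2 + 0)) := by
          refine mul_le_mul_of_nonneg_left (Real.exp_le_exp.mpr ?_) zero_le_two
          (clear * - hδ hδ' hL3 hL4 hV1 hVL; linarith)
      _ ≤ 1 / 16 := by
          rw [Real.exp_neg, ← div_eq_mul_inv, div_le_iff₀ (Real.exp_pos _)]
          have := exp_ge (L / 2 + 0) (by (clear * - hδ hδ' hL4 hV1 hVL K; linarith [sq_nonneg K]))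
          (clear * - hδ hδ' this; linarith)
  have hB4 : 1 - Phi V ≤ 1 / 16 := by
    refine (one_sub_Phi_le 1 le_rfl V).trans ?_
    have h1 : (1 : ℝ) ^ 2 - 1 * V = -(V - 1) := by ring
    rw [h1, Real.exp_neg, ← one_div, div_le_div_iff_of_pos_left one_pos (Real.exp_pos _) (by norm_num)]
    have := exp_ge (V - 1) (by (clear * - hδ hδ' hL4 hV1; linarith))
    (clear * - hδ hδ' this; linarith)
  have hdy := dyadic g ρ (n + 1)
  have hg1 : g 1 = (Phi V : ℂ) := by
    simp only [hg]
    rw [an_one hD1]
    simp
  -- lower bound for the sum of the blocks
  have hlow : 1 / 2 < ‖∑ i ∈ range (n + 1), DP g (2 ^ i) 2 ρ‖ := by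
    set S : ℂ := ∑ d ∈ Icc 1 D, (ArithmeticFunction.moebius d : ℂ) * (d : ℂ) ^ (-ρ) * In ρ V d with hS
    set T : ℂ := ∑ n ∈ Icc 1 (2 ^ (n + 1)), g n * (n : ℂ) ^ (-ρ) with hT
    have h1 : ‖S‖ ≤ 1 / 16 + 1 / 16 := hmel.trans (add_le_add hB1 hB2)
    have h2 : ‖S - T‖ ≤ 1 / 16 := hfin.trans hB3
    have h3 : ‖T‖ ≤ 3 / 16 := by
      have := norm_sub_norm_le T S
      rw [norm_sub_rev] at this
      (clear * - h1 h2 this; linarith)
    have h4 : ∑ i ∈ range (n + 1), DP g (2 ^ i) 2 ρ = T - (Phi V : ℂ) := by
      rw [hdy, hg1]; ring
    rw [h4]
    have h5 := norm_sub_norm_le (Phi V : ℂ) T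
    rw [norm_sub_rev, Complex.norm_real, Real.norm_of_nonneg (Phi_nonneg _)] at h5
    (clear * - hδ hδ' hB4 h3 h5; linarith)
  have hlog2 := Real.log_two_gt_d9
  have hnL : ((n : ℝ) + 1) ≤ 8 * L := by
    have h1 : (n : ℝ) * Real.log 2 ≤ V + δ * L := by
      have h2 := Real.log_le_log (by positivity) hn1
      rwa [Real.log_pow, Real.log_exp] at h2
    have h2 : (n : ℝ) * (1 / 2) ≤ (n : ℝ) * Real.log 2 :=
      mul_le_mul_of_nonneg_left (by (clear * - hδ hδ' hlog2; linarith)) (Nat.cast_nonneg _)
    (clear * - hδ hδ' hL4 hV1 hVL h1 h2; linarith)
  have hex : ∃ i ∈ range (n + 1), 1 / (16 * L) ≤ ‖DP g (2 ^ i) 2 ρ‖ := by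
    by_contra hcon
    push Not at hcon
    have h1 : ‖∑ i ∈ range (n + 1), DP g (2 ^ i) 2 ρ‖ ≤ (n + 1 : ℕ) * (1 / (16 * L)) := by
      refine (norm_sum_le _ _).trans ?_
      refine (Finset.sum_le_card_nsmul _ _ _ fun i hi => (hcon i hi).le).trans ?_
      rw [Finset.card_range, nsmul_eq_mul]
    have h2 : ((n + 1 : ℕ) : ℝ) * (1 / (16 * L)) ≤ 1 / 2 := by
      rw [mul_one_div, div_le_iff₀ (by positivity)]
      push_cast
      (clear * - hnL; linarith)
    (clear * - hlow h1 h2; linarith)
  obtain ⟨i, hi, hDP⟩ := hex
  rw [Finset.mem_range] at hi
  refine ⟨i, ?_, ?_, hDP⟩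
  · by_contra hcon
    push Not at hcon
    have h1 : 2 * 2 ^ i ≤ D := by
      rw [hD]
      apply Nat.le_floor
      push_cast
      (clear * - hcon; linarith)
    have h2 : DP g (2 ^ i) 2 ρ = 0 := by
      unfold DP
      apply Finset.sum_eq_zero
      intro m hm
      rw [Finset.mem_Ioc] at hm
      have h3 : 1 ≤ 2 ^ i := Nat.one_le_two_pow
      have h4 : an D m = 0 := an_zero (by (clear * - δ L n hm h3; omega)) (by omega)
      simp only [hg]
      rw [h4, zero_mul, zero_mul]
    rw [h2, norm_zero] at hDP
    have : 0 < 1 / (16 * L) := by positivity
    (clear * - hDP this; linarith)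
  · calc (2 : ℝ) ^ i ≤ 2 ^ n := pow_le_pow_right₀ (by norm_num) (by omega)
      _ ≤ Real.exp (V + δ * L) := hn1
      _ ≤ _ := by
          apply Real.exp_le_exp.mpr
          rw [hV]
          have h1 : 2 * d * κ ≤ 2 * δ * 1 := by
            apply mul_le_mul (by (clear * - hd'; linarith)) hκ hκ0 (by (clear * - hδ; linarith))
          have h2 : ((ta + 2 * d) * κ + 40 * δ) + δ ≤ ta * κ + 45 * δ := by (clear * - hδ h1; linarith)
          calc ((ta + 2 * d) * κ + 40 * δ) * L + δ * L
              = (((ta + 2 * d) * κ + 40 * δ) + δ) * L := by ring
            _ ≤ _ := mul_le_mul_of_nonneg_right h2 hL0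

theorem detectG (h5 : A5) (h7 : A7) : DetectG := by
  intro ta δ d hta1 hta2 hδ hδ' hd hd'
  obtain ⟨C5, hC5, hA5, _⟩ := h5
  obtain ⟨C7, hC7, hA7⟩ := h7
  obtain ⟨Ca, hCa, ha⟩ := zline (s0 := 1 / 2) (μ0 := 1 / 6) (by norm_num) (by norm_num) hC5
    (fun t ht => by
      have := hA5 t ht
      push_cast
      exact this)
  obtain ⟨Cb, hCb, hb⟩ := zline (s0 := 2 / 7) (μ0 := 2 / 7) (by norm_num) (by norm_num) hC7
    (fun t ht => by
      have := hA7 t ht
      push_cast
      exact this)
  obtain ⟨La, hLa⟩ := coreG hta1 hta2 hδ hδ' hd hd' (s0 := 1 / 2) (μ0 := 1 / 6) (by norm_num) (by norm_num)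
    (by norm_num) (by norm_num) hCa ha
  obtain ⟨Lb, hLb⟩ := coreG hta1 hta2 hδ hδ' hd hd' (s0 := 2 / 7) (μ0 := 2 / 7) (by norm_num) (by norm_num)
    (by norm_num) (by norm_num) hCb hb
  refine ⟨Real.exp (max La Lb), ?_⟩
  intro X x hX hx hx'
  have hX0 : 0 < X := (Real.exp_pos _).trans_le hX
  set L : ℝ := Real.log X with hL
  have hLge : max La Lb ≤ L := by
    rw [hL, Real.le_log_iff_exp_le hX0]; exact hX
  have hpow : ∀ a : ℝ, X ^ a = Real.exp (a * L) := by
    intro a
    rw [Real.rpow_def_of_pos hX0, mul_comm]
  have hx4 : x < 0.42 := by (clear * - hδ' hx'; linarith)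
  have hden1 : (0 : ℝ) < 1 - 2 * x := by (clear * - hx4; linarith)
  have hden2 : (0 : ℝ) < 5 / 7 - x := by (clear * - hx4; linarith)
  have h2le : (2 / 7 : ℝ) / (5 / 7 - x) ≤ 1 := by
    rw [div_le_one hden2]; (clear * - hx4; linarith)
  have key : ∀ s0 μ0 : ℝ, yy x = μ0 / (1 - x - s0) →
      (∃ g : ℕ → ℂ, (∀ n, ‖g n‖ ≤ (n.divisors.card : ℝ)) ∧
        ∀ ρ : ℂ, riemannZeta ρ = 0 → 1 - x ≤ ρ.re → L ^ 2 ≤ |ρ.im| →
        |ρ.im| ≤ Real.exp ((ta + 2 * d) * L) + 1 →
        ∃ i : ℕ, Real.exp (δ * L) / 2 ≤ (2 : ℝ) ^ i ∧
          (2 : ℝ) ^ i ≤ Real.exp ((ta * (μ0 / (1 - x - s0)) + 45 * δ) * L) ∧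
          1 / (16 * L) ≤ ‖DP g (2 ^ i) 2 ρ‖) →
      ∃ g : ℕ → ℂ, (∀ n, ‖g n‖ ≤ (n.divisors.card : ℝ)) ∧
        ∀ ρ : ℂ, riemannZeta ρ = 0 → 1 - x ≤ ρ.re → Real.log X ^ 2 ≤ |ρ.im| →
        |ρ.im| ≤ X ^ (ta + 2 * d) + 1 →
        ∃ i : ℕ, X ^ δ / 2 ≤ (2 : ℝ) ^ i ∧ (2 : ℝ) ^ i ≤ X ^ (yy x * ta + 45 * δ) ∧
          1 / (16 * Real.log X) ≤ ‖DP g (2 ^ i) 2 ρ‖ := by
    intro s0 μ0 hyy ⟨g, hg1, hg2⟩
    refine ⟨g, hg1, ?_⟩
    intro ρ hρ hβ hγ1 hγ2
    rw [hpow] at hγ2
    obtain ⟨i, hi1, hi2, hi3⟩ := hg2 ρ hρ hβ hγ1 hγ2
    refine ⟨i, ?_, ?_, hi3⟩
    · rw [hpow]; exact hi1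
    · rw [hpow, hyy, mul_comm (μ0 / (1 - x - s0)) ta]; exact hi2
  rcases le_total ((1/3 : ℝ) / (1 - 2 * x)) ((2/7) / (5/7 - x)) with hle | hle
  · apply key (1 / 2) (1 / 6)
    · unfold yy
      rw [min_eq_left hle]
      rw [div_eq_div_iff hden1.ne' (by (clear * - hx4; linarith))]
      ring
    · apply hLa L ((le_max_left _ _).trans hLge) x hx hx'
      have : (1 / 6 : ℝ) / (1 - x - 1 / 2) = (1/3) / (1 - 2 * x) := by
        rw [div_eq_div_iff (by (clear * - hx4; linarith)) hden1.ne']
        ring
      rw [this]
      exact hle.trans h2le
  · apply key (2 / 7) (2 / 7)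
    · unfold yy
      rw [min_eq_right hle]
      congr 1
      ring
    · apply hLb L ((le_max_right _ _).trans hLge) x hx hx'
      have : (1 : ℝ) - x - 2 / 7 = 5 / 7 - x := by ring
      rw [this]
      exact h2le

end Pool.Agent.M20.Helper60.KC
end

/- Helper53.KN.Helper65.KC.Numeric -/
section
/-! KC-9 : the numerical lemma (section 7 of the blueprint). The case distinction was found by computer
(rectangles in the `(x,n)` plane); every leaf is linear in `x, n, x*n, r, ε`. -/

set_option autoImplicit false
set_option maxHeartbeats 4000000

namespace Pool.Agent.M20.Helper65.KC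

open Pool.Agent.M20.Helper60.KS

structure Ctx (ε x n r ϱ : ℝ) : Prop where
  e0 : 0 < ε
  e7 : ε ≤ 1 / 10 ^ 7
  x0 : 0 < x
  n0 : 0 < n
  y1 : n - 2 * (x * n) ≤ 1 / 3 + ε
  y2 : 5 / 7 * n - x * n ≤ 2 / 7 + ε
  r0 : 2 * x - ε ≤ r
  f : ∀ (k : ℕ) (K : ℝ), (k : ℝ) = K → 1 ≤ k → K * n ≤ 4 →
    r ≤ 2 * K * (x * n) + ε ∨ r ≤ 1 - K * n + 2 * K * (x * n) + ε
  g : ∀ (k : ℕ) (K : ℝ), (k : ℝ) = K → 1 ≤ k → K * n ≤ 4 →
    r ≤ 2 * K * (x * n) + ε ∨ r ≤ 1 - 2 * K * n + 6 * K * (x * n) + ε
  s : ∀ (j : ℕ) (J : ℝ), (j : ℝ) = J → 1 ≤ j → J * n ≤ 4 → r + 2 * J * (x * n) ≤ 4 * x - ε →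
    1 + r - 4 * x - J * n + 2 * J * (x * n) ≤ 3576 / 10000 → ϱ ≤ 0.431
  e : ∀ (j : ℕ) (J : ℝ), (j : ℝ) = J → 1 ≤ j → J * n ≤ 4 →
    1 - 8 * x + 4 * J * (x * n) + r ≤ 4308 / 10000 →
    2 - 8 * x + 2 * r - 2 * J * n + 4 * J * (x * n) ≤ 4308 / 10000 → ϱ ≤ 0.431
  p : ∀ (k : ℕ) (K : ℝ), (k : ℝ) = K → 1 ≤ k → K * n ≤ 999 / 1000 →
    1 - 2 * x + 1 / 10 ^ 6 ≤ 2 * K * n - 6 * K * (x * n) → False

structure NV where
  c : ℤ
  x : ℤ
  n : ℤ
  w : ℤ
  r : ℤ
  e : ℤ

def NV.ev (v : NV) (x n r ε : ℝ) : ℝ :=
  v.c + v.x * x + v.n * n + v.w * (x * n) + v.r * r + v.e * ε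

def NV.zero : NV := ⟨0, 0, 0, 0, 0, 0⟩

def NV.cmb (m : ℤ) (a b : NV) : NV :=
  ⟨m * a.c + b.c, m * a.x + b.x, m * a.n + b.n, m * a.w + b.w, m * a.r + b.r, m * a.e + b.e⟩

/-- sum of multiples of the entries of `hs`; the base `2^80` digits of `v` are `16 * multiplier + index` -/
def ncomb (hs : List NV) : ℕ → ℕ → NV
  | 0, _ => NV.zero
  | f + 1, v =>
    match v with
    | 0 => NV.zero
    | v + 1 => NV.cmb (((v + 1) % 1208925819614629174706176 / 16 : ℕ) : ℤ)
      (hs.getD ((v + 1) % 1208925819614629174706176 % 16) NV.zero)
      (ncomb hs f ((v + 1) / 1208925819614629174706176))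

def nchk (hs : List NV) (D v : ℕ) (t : NV) : Bool :=
  let k := ncomb hs 7 v
  decide (0 < D) && decide (k.x = D * t.x) && decide (k.n = D * t.n) && decide (k.w = D * t.w) &&
    decide (k.r = D * t.r) && decide (k.e = D * t.e) && decide (k.c ≤ D * t.c)

theorem NV.ev_cmb (m : ℤ) (a b : NV) (x n r ε : ℝ) :
    (NV.cmb m a b).ev x n r ε = m * a.ev x n r ε + b.ev x n r ε := by
  simp only [NV.cmb, NV.ev]
  push_cast
  ring

theorem ncomb_nonneg {hs : List NV} {x n r ε : ℝ} (h : ∀ a ∈ hs, 0 ≤ a.ev x n r ε) :
    ∀ f v : ℕ, 0 ≤ (ncomb hs f v).ev x n r ε
  | 0, _ => by simp [ncomb, NV.ev, NV.zero]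
  | f + 1, 0 => by simp [ncomb, NV.ev, NV.zero]
  | f + 1, v + 1 => by
    have hz : 0 ≤ (NV.zero).ev x n r ε := by simp [NV.ev, NV.zero]
    have h1 : 0 ≤ (hs.getD ((v + 1) % 1208925819614629174706176 % 16) NV.zero).ev x n r ε := by
      rw [List.getD_eq_getElem?_getD]
      rcases hg : hs[(v + 1) % 1208925819614629174706176 % 16]? with _ | a
      · exact hz
      · exact h a (List.mem_of_getElem? hg)
    have h2 := ncomb_nonneg h f ((v + 1) / 1208925819614629174706176)
    show 0 ≤ (NV.cmb _ _ _).ev x n r ε
    rw [NV.ev_cmb]
    exact add_nonneg (mul_nonneg (by exact_mod_cast Nat.zero_le _) h1) h2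

theorem nchk_sound {hs : List NV} {x n r ε : ℝ} (h : ∀ a ∈ hs, 0 ≤ a.ev x n r ε) {D v : ℕ} {t : NV}
    (hc : nchk hs D v t = true) : 0 ≤ t.ev x n r ε := by
  simp only [nchk, Bool.and_eq_true, decide_eq_true_eq] at hc
  obtain ⟨⟨⟨⟨⟨⟨hD, h1⟩, h2⟩, h3⟩, h4⟩, h5⟩, h6⟩ := hc
  have h0 := ncomb_nonneg h 7 v
  have hD' : (0 : ℝ) < D := by exact_mod_cast hD
  have h6' : ((ncomb hs 7 v).c : ℝ) ≤ D * t.c := by exact_mod_cast h6
  have key : (ncomb hs 7 v).ev x n r ε ≤ D * t.ev x n r ε := by
    simp only [NV.ev, h1, h2, h3, h4, h5]
    push_cast
    linarith
  exact nonneg_of_mul_nonneg_right (h0.trans key) hD'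

/-- the hypotheses available in the box `A ≤ 10^6 x ≤ B`, `C ≤ 10^6 n ≤ D` -/
def NH (A B C D : ℤ) : List NV :=
  [⟨A * C, -1000000 * C, -1000000 * A, 1000000000000, 0, 0⟩,
   ⟨-A * D, 1000000 * D, 1000000 * A, -1000000000000, 0, 0⟩,
   ⟨-B * C, 1000000 * C, 1000000 * B, -1000000000000, 0, 0⟩,
   ⟨B * D, -1000000 * D, -1000000 * B, 1000000000000, 0, 0⟩,
   ⟨-A, 1000000, 0, 0, 0, 0⟩, ⟨B, -1000000, 0, 0, 0, 0⟩, ⟨-C, 0, 1000000, 0, 0, 0⟩,
   ⟨D, 0, -1000000, 0, 0, 0⟩, ⟨1, 0, 0, 0, 0, -10000000⟩, ⟨0, 0, 0, 0, 0, 1⟩,
   ⟨1, 0, -3, 6, 0, 3⟩, ⟨2, 0, -5, 7, 0, 7⟩, ⟨0, -2, 0, 0, 1, 1⟩]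

theorem NH_nonneg {ε x n r ϱ : ℝ} (h : Ctx ε x n r ϱ) {A B C D : ℤ} (hA : (A : ℝ) ≤ 1000000 * x)
    (hB : 1000000 * x ≤ (B : ℝ)) (hC : (C : ℝ) ≤ 1000000 * n) (hD : 1000000 * n ≤ (D : ℝ)) :
    ∀ a ∈ NH A B C D, 0 ≤ a.ev x n r ε := by
  have c1 := mul_nonneg (sub_nonneg.2 hA) (sub_nonneg.2 hC)
  have c2 := mul_nonneg (sub_nonneg.2 hA) (sub_nonneg.2 hD)
  have c3 := mul_nonneg (sub_nonneg.2 hB) (sub_nonneg.2 hC)
  have c4 := mul_nonneg (sub_nonneg.2 hB) (sub_nonneg.2 hD)
  have e7 := h.e7
  have e0 := h.e0
  have y1 := h.y1
  have y2 := h.y2
  have r0 := h.r0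
  intro a ha
  simp only [NH, List.mem_cons, List.not_mem_nil, or_false] at ha
  rcases ha with rfl | rfl | rfl | rfl | rfl | rfl | rfl | rfl | rfl | rfl | rfl | rfl | rfl <;>
    simp only [NV.ev] <;> push_cast <;> linarith

/-- the certificate tree -/
inductive NT where
  | P (K d1 v1 d2 v2 : ℕ)
  | B (g : Bool) (K d v : ℕ) (e1 : Bool) (J1 a1 b1 a2 b2 a3 b3 : ℕ)
      (e2 : Bool) (J2 a4 b4 a5 b5 a6 b6 : ℕ)
  | X (q : ℤ) (s t : NT)
  | N (q : ℤ) (s t : NT)
  | U (q : ℤ) (d v : ℕ) (t : NT)

def nchkE (hs : List NV) (e : Bool) (J a1 b1 a2 b2 a3 b3 : ℕ) : Bool :=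
  decide (1 ≤ J) && nchk hs a1 b1 ⟨4, 0, -J, 0, 0, 0⟩ &&
  match e with
  | false => nchk hs a2 b2 ⟨0, 4, 0, -2 * J, -1, -1⟩ &&
      nchk hs a3 b3 ⟨-6424, 40000, 10000 * J, -20000 * J, -10000, 0⟩
  | true => nchk hs a2 b2 ⟨-5692, 80000, 0, -40000 * J, -10000, 0⟩ &&
      nchk hs a3 b3 ⟨-15692, 80000, 20000 * J, -40000 * J, -20000, 0⟩

def nq1 (K : ℕ) : NV := ⟨0, 0, 0, 2 * K, -1, 1⟩

def nq2 (g : Bool) (K : ℕ) : NV :=
  match g with
  | false => ⟨1, 0, -K, 2 * K, -1, 1⟩
  | true => ⟨1, 0, -2 * K, 6 * K, -1, 1⟩

def NT.chk : NT → ℤ → ℤ → ℤ → ℤ → Bool
  | .P K d1 v1 d2 v2, A, E, C, D =>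
    decide (1 ≤ K) && nchk (NH A E C D) d1 v1 ⟨999, 0, -1000 * K, 0, 0, 0⟩ &&
      nchk (NH A E C D) d2 v2 ⟨-1000001, 2000000, 2000000 * K, -6000000 * K, 0, 0⟩
  | .B g K d v e1 J1 a1 b1 a2 b2 a3 b3 e2 J2 a4 b4 a5 b5 a6 b6, A, E, C, D =>
    decide (1 ≤ K) && nchk (NH A E C D) d v ⟨4, 0, -K, 0, 0, 0⟩ &&
      nchkE (NH A E C D ++ [nq1 K]) e1 J1 a1 b1 a2 b2 a3 b3 &&
      nchkE (NH A E C D ++ [nq2 g K]) e2 J2 a4 b4 a5 b5 a6 b6
  | .X q s t, A, E, C, D => s.chk A q C D && t.chk q E C D
  | .N q s t, A, E, C, D => s.chk A E C q && t.chk A E q D
  | .U q d v t, A, E, C, D =>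
    nchk (NH A E C D) d v ⟨q, 0, -1000000, 0, 0, 0⟩ && t.chk A E C q

theorem nchkE_sound {ε x n r ϱ : ℝ} (h : Ctx ε x n r ϱ) {hs : List NV}
    (hh : ∀ a ∈ hs, 0 ≤ a.ev x n r ε) {e : Bool} {J a1 b1 a2 b2 a3 b3 : ℕ}
    (hc : nchkE hs e J a1 b1 a2 b2 a3 b3 = true) : ϱ ≤ 0.431 := by
  cases e with
  | false =>
    simp only [nchkE, Bool.and_eq_true, decide_eq_true_eq] at hc
    obtain ⟨⟨hJ, h1⟩, h2, h3⟩ := hc
    have k1 := nchk_sound hh h1
    have k2 := nchk_sound hh h2
    have k3 := nchk_sound hh h3
    simp only [NV.ev] at k1 k2 k3
    push_cast at k1 k2 k3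
    exact h.s J J rfl hJ (by linarith) (by linarith) (by linarith)
  | true =>
    simp only [nchkE, Bool.and_eq_true, decide_eq_true_eq] at hc
    obtain ⟨⟨hJ, h1⟩, h2, h3⟩ := hc
    have k1 := nchk_sound hh h1
    have k2 := nchk_sound hh h2
    have k3 := nchk_sound hh h3
    simp only [NV.ev] at k1 k2 k3
    push_cast at k1 k2 k3
    exact h.e J J rfl hJ (by linarith) (by linarith) (by linarith)

theorem NT.sound {ε x n r ϱ : ℝ} (h : Ctx ε x n r ϱ) (t : NT) : ∀ A B C D : ℤ,
    t.chk A B C D = true → (A : ℝ) ≤ 1000000 * x → 1000000 * x ≤ (B : ℝ) →
    (C : ℝ) ≤ 1000000 * n → 1000000 * n ≤ (D : ℝ) → ϱ ≤ 0.431 := by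
  induction t with
  | P K d1 v1 d2 v2 =>
    intro A B C D hc hA hB hC hD
    have hh := NH_nonneg h hA hB hC hD
    simp only [NT.chk, Bool.and_eq_true, decide_eq_true_eq] at hc
    obtain ⟨⟨hK, h1⟩, h2⟩ := hc
    have k1 := nchk_sound hh h1
    have k2 := nchk_sound hh h2
    simp only [NV.ev] at k1 k2
    push_cast at k1 k2
    exact (h.p K K rfl hK (by linarith) (by linarith)).elim
  | B g K d v e1 J1 a1 b1 a2 b2 a3 b3 e2 J2 a4 b4 a5 b5 a6 b6 =>
    intro A B C D hc hA hB hC hD
    have hh := NH_nonneg h hA hB hC hD
    simp only [NT.chk, Bool.and_eq_true, decide_eq_true_eq] at hc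
    obtain ⟨⟨⟨hK, h1⟩, h2⟩, h3⟩ := hc
    have k1 := nchk_sound hh h1
    simp only [NV.ev] at k1
    push_cast at k1
    have hap : ∀ q : NV, 0 ≤ q.ev x n r ε → ∀ a ∈ NH A B C D ++ [q], 0 ≤ a.ev x n r ε := by
      intro q hq a ha
      rcases List.mem_append.1 ha with ha | ha
      · exact hh a ha
      · rw [List.mem_singleton.1 ha]; exact hq
    have hor : 0 ≤ (nq1 K).ev x n r ε ∨ 0 ≤ (nq2 g K).ev x n r ε := by
      cases g with
      | false =>
        rcases h.f K K rfl hK (by linarith) with hq | hq
        · left; simp only [nq1, NV.ev]; push_cast; linarith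
        · right; simp only [nq2, NV.ev]; push_cast; linarith
      | true =>
        rcases h.g K K rfl hK (by linarith) with hq | hq
        · left; simp only [nq1, NV.ev]; push_cast; linarith
        · right; simp only [nq2, NV.ev]; push_cast; linarith
    rcases hor with hq | hq
    · exact nchkE_sound h (hap _ hq) h2
    · exact nchkE_sound h (hap _ hq) h3
  | X q s t ihs iht =>
    intro A B C D hc hA hB hC hD
    simp only [NT.chk, Bool.and_eq_true] at hc
    rcases le_total (1000000 * x) (q : ℝ) with hq | hq
    · exact ihs _ _ _ _ hc.1 hA hq hC hD
    · exact iht _ _ _ _ hc.2 hq hB hC hD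
  | N q s t ihs iht =>
    intro A B C D hc hA hB hC hD
    simp only [NT.chk, Bool.and_eq_true] at hc
    rcases le_total (1000000 * n) (q : ℝ) with hq | hq
    · exact ihs _ _ _ _ hc.1 hA hB hC hq
    · exact iht _ _ _ _ hc.2 hA hB hq hD
  | U q d v t iht =>
    intro A B C D hc hA hB hC hD
    simp only [NT.chk, Bool.and_eq_true] at hc
    have k1 := nchk_sound (NH_nonneg h hA hB hC hD) hc.1
    simp only [NV.ev] at k1
    push_cast at k1
    exact iht _ _ _ _ hc.2 hA hB hC (by linarith)

def ntree0 : NT :=
 (.U 500000 4534748020421500 76823507810301509878263781160550112004091609092165726974434523521547727975591288632160181817918847576177895745911266993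
  (.N 250000
   (.X 41125
    (.P 3 987000000 4387081261844728290355329638141844324900523726845988730630828235182303085872 5922000000 3844607974392885728027720829971421391130410133980265461136586722993897375658064)
    (.B true 4 370125000000 3878229307188553603435340940056984078708969397421669885397945844794382092240 false 3 4441500000000 48996435953369375843674460995067447240549635076504331920513432713989049050512 29610000000000000 1223366702242453847004636682058160960153035318418341758102196465025788866113616564207431821292074531355515045090235355411255617379237031776 14027915160000000 17144603507902375628584871717393364431761690382280410697191517148436714859038187948230358716491551844350390594129502133282735945564351204731568 false 3 4441500000000 48996435953369375843674460995067447240549635076504331920513432713989049050512 29610000000000000 1223366702242453847004636682058160960153035318418341758102225382516980915791991241819427693390870929387915910497461153777902004361485697376 2961000000000 1223366702242453847004636682058059765631221529382278211553863679093592176975420691900012385816146479341778540199500273104704882850569179664))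
   (.N 333000
    (.N 312250
     (.P 3 164500000 118378753340151750082080958856805012516693948757072039265516920189747200016 40960500000 56538998295237347065221497146322767433732242501377223581085558779410461785811376)
     (.X 82250
      (.P 2 3413375000 21179195765498492958715002718089814921987351686735480517096198358482529823136 6826750000 28156367046637381194795355444587781055708007915066999232227968592929928528520448)
      (.B true 2 3413375000000 190853053090296296897258368660359001995201326207872871277830460748434742812864 false 2 3413375000000 190853053090296296897258368660359001995201326207872871277830460748434742812864 17066875000000000 705134974209192162146590263428790772846158869366557719930998285376531486859579651309328068217354936773130810474231105825144990523519962464 1706687500000 705134974209192162146590263428732445448168977074937759073262853195214058550921880906948410212015188472021810824995275428787204085840489328 false 2 3413375000000 190853053090296296897258368660359001995201326207872871277830460748434742812864 8533437500000000 352567487104596097857919339279301219186562596650999726748922530378715679111863061853059285152437530955093153388886231249295255882728905328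 1706687500000 705134974209192162146590263428732445448168977074937759073275161617258365505244743650391077433208176881536848630940847078340833440447779568)))
    (.P 2 892782542750000 4694301428584102527641057463293213807794248404588345840044946935346140304678682103531277768860237136047673570207937 27471500000 9385468639090935439750215125084609769658947321015171133242286203828183594401520))))

def ntree1 : NT :=
 (.U 620000 840852902978500 15252618632732202508370280717396503257788824020857601924960396861588499864880760199761645190628956663441564220464652593
  (.N 333000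
   (.N 200000
    (.B true 4 97625000000 11624086839176990504328523613921143108069498897542947280241544451666328164608 false 3 390500000000 48996435953369375843674462748869412037633136920926131180053056301108100622912 3905000000000000 161338972382870082250950244996586538729087209563801226839769421825187455367661259798794128657982001079564217788394514397968485989327632368 781000000000 322677944765740130932652074863334720637207227499771111921433437801073307668429397762792235327227055243779826195900385901965096747159153648 false 3 390500000000 48996435953369375843674462748869412037633136920926131180053056301108100622912 3905000000000000 161338972382870082250950244996586538729087209563801226839763132415027905048530928734952005746403936684069469798567195627339372512064840688 781000000000 322677944765740130932652074863334720637207227499771111921420858980754207030168735635107989504070926452790330216245748360706869792633570288)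
    (.N 250000
     (.B true 4 8875000000 457613389777601541362074406375812129677824534582825521429627722568363409648 false 2 17750000000 1023004450506684526828730074294070000631553206762556913501384678216321466928 8875000000000000 366679482688341053300388937554300013713604700363531491005280513571208664168639544887500192057399912188457581880189486816318405009021871088 1775000000000 733358965376682073031529459978727699868422922945281229827202819535216235297636141812751170006058284933039742558890537460534155325800751088 false 2 17750000000 1023004450506684526828730074294070000631553206762556913501384678216321466928 8875000000000000 366679482688341053300388937554300013713604700363531491005290916766726079295572131383171251158994608255695198679169787484604571270339119088 1775000000000 733358965376682073031529459978727699868422922945281229827223625926251065551501314804093288209247677067514976156851138797106487848435247088)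
     (.B true 3 2946500000000 91881347909670320291320290109519612933872971393823975401221705456102850739088 false 2 1473250000000 49477018354989096381321118897398621363221471729331036690287633988662830590000 14732500000000000 608687941262646126322941682354462323516786028806070730914628025380297024043847223121852454923343975275187206743594538981945299724417602288 2946500000000 1217375882525292219076634949579012282533784278291775297359065670621593296103757777980765178573811412669798858362318547925779451132749333488 false 2 1473250000000 49477018354989096381321118897398621363221471729331036690287633988662830590000 14732500000000000 608687941262646126322941682354462323516786028806070730914628944140770708803698606476382619222561863671568041813523288572932627695318482928 2946500000000 1217375882525292219076634949579012282533784278291775297359067508142540665623460544689825507172247189462560528502176047107754107074551094768)))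
   (.N 400000
    (.B true 2 1189250000000 47130645452963401991634498249682270355474644799928468588558295654642535654400 false 2 1189250000000 47130645452963401991634498249682270355474644799928468588558295654642535654400 11892500000000000 491350506802377000008976715178626052097061748349082008534333382049463399420507302124010424960850733085489140151563774149366317303543844848 2378500000000 982701013604753966448705015227359151544518166608626658555788980307584070123570845658408724383111753161858671001610213706747971792401818608 false 2 1189250000000 47130645452963401991634498249682270355474644799928468588558295654642535654400 11892500000000000 491350506802377000008976715178626052097061748349082008534318366959063617163662264170463033101607143711120632766358214921013312643486874608 2378500000000 982701013604753966448705015227359151544518166608626658555758950126784505609880769751313940664624574413121656231199095250041962472287878128)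
    (.N 499500
     (.B true 2 3532250000000 90467870257847612827653652108925278121210984276322513094068728791728989977488 false 1 7064500000000 203546082403664209920984785692576852311956718712268791508420119921320601433488 35322500000000000 1459384341099597292099187694379275291309787062119238968171776071123038588614411709702398698989690947489934701028441042757645728105938665184 3532250000000 1459384341099597292099187694379154573866464955965022331124961667347438890344241791744100568594444543010333395048226643365826181926772072048 false 1 7064500000000 203546082403664209920984785692576852311956718712268791508420119921320601433488 35322500000000000 1459384341099597292099187694379275291309787062119238968171796877514073418868276882693427003561312648149813239419120803804237538792945162464 3532250000000 1459384341099597292099187694379154573866464955965022331124982473738473720598106964735128873166066243670211933438906404412417992613778569328)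
     (.B false 2 4277750000000 84842229203593237122260427231009512018854622955257978157612557874245138427008 false 1 8555500000000 197920441349409834215591560814661086209600357391204256571963949003836749883008 42777500000000000 1767395106557803748673345733215845503786563298318834364420011737467850253743559752141530139047826866254267996762981203067180237993934370784 4277750000000 1767395106557803748673345733215699308289876727549154919554314271479898846292374130153381659170794140144382901976968410638175131593992177648 false 1 8555500000000 197920441349409834215591560814661086209600357391204256571963949003836749883008 42777500000000000 1767395106557803748673345733215845503786563298318834364420011454772319889202067018870051683054371005915865994046825040426635172872098850784 4277750000000 1767395106557803748673345733215699308289876727549154919554313988784368481750881396881903203177338279805980899260812247997630066472156657648)))))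

def ntree2 : NT :=
 (.U 620000 2049749221095000 16003044978730864025128364182293055296277446946424103804554081595799125491544689697505522343675677364721575134472339330
  (.N 333000
   (.N 200000
    (.B true 4 123750000000 11624086839176990504328523613921143108069498897542947280241544451666328164608 false 4 123750000000 11624086839176990504328523613921143108069498897542947280241544451666328164608 4950000000000000 204514190344483193869997213552484040008528009943221372926880980199198605056700291732799839021188352926228326019145566954873543112281506288 990000000000 409028380688966354170746011975122580455440708735295875143121443371229263988291233343530163860422861558245998900458916828798045901299861488 false 4 123750000000 11624086839176990504328523613921143108069498897542947280241544451666328164608 4950000000000000 204514190344483193869997213552484040008528009943221372926860399964588066436029305478834380266857105055545700868386670606871273134573397488 990000000000 409028380688966354170746011975122580455440708735295875143080282902008186746949260835599246351760365816880748598941124132793505945883643888)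
    (.N 250000
     (.B true 4 11250000000 457613389777601541362074406375812129677824534582825521429627722568363409648 false 3 45000000000 1927630147673217303575379096195230199568625699732212493895139178263212983312 11250000000000000 464804978055643579707313866090430698439606519407668186657809178447672025678333714236775585692871763784894217883166067195504228573709175088 2250000000000 929609956111287125845379317050972835818953562116928418967349799798144886061201235528734198646525135468844533497600963559857340627119359088 false 3 45000000000 1927630147673217303575379096195230199568625699732212493895139178263212983312 11250000000000000 464804978055643579707313866090430698439606519407668186657803524537064734848479047708157234550915562527683155430572541642813561203132855088 2250000000000 929609956111287125845379317050972835818953562116928418967338491976930304401491902471497496362612732954422408592413912454476005885966719088)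
     (.B true 3 3735000000000 91881347909670320291320290109519612933872971393823975401221705456102850739088 false 3 3735000000000 91881347909670320291320290109519612933872971393823975401221705456102850739088 6225000000000000 257192087857456129098977964661354197071960565430073704277164459523349253807726064990562070256899858015970176725365653654120814500523304464 1245000000000 514384175714912224628707514192854179755199262395864366155117693965498983231900594273429964212189219491290513557811313423209313999157133264 false 3 3735000000000 91881347909670320291320290109519612933872971393823975401221705456102850739088 18675000000000000 771576263572368320158437063724439260161949048419337645697810309875818405528894309308228319730029360732765989080954774454547785456083819888 3735000000000 1543152527144736606747625712318939208211665139316709631331655878425749366726781230800069780287881505298663375478341137301782409681160328688)))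
   (.N 400000
    (.B true 2 1507500000000 47130645452963401991634498249682270355474644799928468588558295654642535654400 false 2 1507500000000 47130645452963401991634498249682270355474644799928468588558295654642535654400 15075000000000000 622838670594562385394256119417041169629904185868225180708732891045055355013419214040390857552774717650552338814634190720257549307655176688 3015000000000 1245677341189124737219263823704167633718229223098633892003532367580032867366538989339360448895225660806297718284389613002637073710640482288 false 2 1507500000000 47130645452963401991634498249682270355474644799928468588558295654642535654400 15075000000000000 622838670594562385394256119417041169629904185868225180708704508413806755047548787944662118070277575610981106392732272853798300943914018288 3015000000000 1245677341189124737219263823704167633718229223098633892003475602317535667434798137147902969930231376727155253440585777269718576983158165488)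
    (.N 499500
     (.B true 2 4477500000000 90467870257847612827653652108925278121210984276322513094068728791728989977488 false 2 4477500000000 90467870257847612827653652108925278121210984276322513094068728791728989977488 22387500000000000 924961906330730690383998662541443541023120312925172375217829250799365290651202273108896068537935767801994528886165662781515365018295677488 4477500000000 1849923812661461347198748909952922394408020927916600237513838600770239883916308227746504250397520011337953195702100170932768500890320043888 false 2 4477500000000 90467870257847612827653652108925278121210984276322513094068728791728989977488 22387500000000000 924961906330730690383998662541443541023120312925172375217823596888757999821347606580137413238795799864635912689631374058937728123593579888 4477500000000 1849923812661461347198748909952922394408020927916600237513827292949025302256598894688986939799240075463235963309031593487613227100915848688)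
     (.B false 2 5422500000000 84842229203593237122260427231009512018854622955257978157612557874245138427008 false 1 10845000000000 197920441349409834215591560814661086209600357391204256571963949003836749883008 9037500000000000 373393332371367015633494327401508955300120614298130317549899684806262857593334401958736976825823802743456019336446142129902728893943245264 5422500000000 2240359994228201925954723888759810085930655567952824645381958106538816852923671257045399856732185534936651330532370914657367477201048488688 false 1 10845000000000 197920441349409834215591560814661086209600357391204256571963949003836749883008 27112500000000000 1120179997114100979761986151944903534846429195023507485516029979153312261689609619933776032748089204606086139656068775021651870346250859888 5422500000000 2240359994228201925954723888759810085930655567952824645381957823843286488382178523773921400738729674598249327816214752016822412079212968688)))))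

def ntree3 : NT :=
 (.U 710000 91099986335000 2008152483795115455805204317458424191912405751574391773237942932668992607694065825090571735984131492515765691356754993
  (.N 284000
   (.N 200000
    (.N 199500
     (.B false 5 43000000000 35172624518543296849014731434427745119870003973542125409293315590566319246096 false 3 215000000000 195969842189894497915731601379354030651788022893187403496895558730282411600176 537500000000000 22207348951547447440289320009041241543903577719114775214552643019717741669947275310668594056023498007543612657312217575610659063012431088 107500000000 44414697903094861311330224888267143663139047537446097424905563283720839016934344076439355050716524639134743756450931771980847627190271088 false 3 215000000000 195969842189894497915731601379354030651788022893187403496895558730282411600176 537500000000000 22207348951547447440289320009041241543903577719114775214537094765547691887846942292369756045618035565610359605390278228371360086039431088 107500000000 44414697903094861311330224888267143663139047537446097424874466775380739452733678039841679029905599755268237652607053077502249673244271088)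
     (.B false 4 1250000000 45264854952557428139594536088897748402760821804826538343116366457669039449088 false 3 5000000000 192323069848191912659471675267668568243236756056256758774059293992713088772352 12500000000000 516449975617415287179598964212353341313701930410874070310644238359600199715540905060872304670054223126099090398102419143752150445602288 2500000000 1032899951234797005110782798612955716179643088976718772906164430265601546349734072435849889953534733623681322360921359040933863875733488 false 3 5000000000 192323069848191912659471675267668568243236756056256758774059293992713088772352 12500000000000 516449975617415287179598964212353341313701930410874070282091989792781508949474794064840544159835392093612228333083976028479475429282288 2500000000 1032899951234797005110782798612955716179643088976718772849059933131964164817601850443786368933097071558707598230884472810388513843093488))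
    (.N 250000
     (.B false 4 1250000000 457613389777601541362074406375812129677824534582825521429627722568363409648 false 3 5000000000 1927630147673217303575379096195230199568625699732212493895139178263212983312 1250000000000000 51644997561738205362366798569880446961704123432355783910313888512820962231227510055227936191783399707125865822998521657754524695462975088 250000000000 103289995123476377155485182009940684448298239288940254166956645596110045711704240054277204975798718344532809874866607271139903302626959088 false 3 5000000000 1927630147673217303575379096195230199568625699732212493895139178263212983312 1250000000000000 51644997561738205362366798569880446961704123432355783910285618959784508081954177295216049495530159964775836576855462124467047480230975088 250000000000 103289995123476377155485182009940684448298239288940254166900106490037137413157574534253431583292238859832751382580488204564948872162959088)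
     (.B false 4 21250000000 10606382929864641130488543271364121756586107140065686833749212044530479535712 false 2 42500000000 24741159448091715767154934969320568530429323944558971635543135935729430967712 850000000000000 35118598341981990388568915869058436902588027593343287800406845563760194721959143370485141229385545549916213530803794694894657545453218288 170000000000 70237196683963947207889416608299398393472026375820727574898187171658748005682790397766332888931889750921172935539961671223214953165205488 false 2 42500000000 24741159448091715767154934969320568530429323944558971635543135935729430967712 850000000000000 35118598341981990388568915869058436902588027593343287800406845563760194721959143386386279043545769299972304510756953948751203613042978288 170000000000 70237196683963947207889416608299398393472026375820727574898187171658748005682790429568608517252337251033354895446280178936307088344725488)))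
   (.N 397000
    (.N 333400
     (.B false 3 1235000000000 444968065334982644715246743219530764275608755070659226607453993526751679195504 false 2 47500000000 18663205545254073673388386492431244023087847336108944523850692033524040476688 1235000000000000 51025257590997347300849377968599621584487269838392815306191248920650919618812001748698423128102408148326769110300536558951500682799824688 247000000000 102050515181994661032450340807379136221242256304698271919744216293299796088922830057891822767483894328801992068332099567402261511964594288 false 2 47500000000 18663205545254073673388386492431244023087847336108944523850692033524040476688 1235000000000000 51025257590997347300849377968599621584487269838392815306170329451403943548349735506313010999072305185679006425478133032633262464215776688 247000000000 102050515181994661032450340807379136221242256304698271919702377354805843947998297573120998509423688403506466698687292514765785074796498288)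
     (.B false 3 30000000000 8005584050510859397341927175556109352904508556779965106758601734054951784592 false 2 795000000000 235575485993966761047670826497447043223446291731434653377482282033881863550192 1590000000000000 65692436898530988090094998865579155511952804895516405603710495356983976555772299553801780529450325625248211846875256364015306166663456688 106000000000 43794957932354003249812804286986369549611056045325106301273788263624955603211766871294590947474751250946843446546472658436154302444698064 false 2 795000000000 235575485993966761047670826497447043223446291731434653377482282033881863550192 530000000000000 21897478966177018409530609708400828855295150922133290912459819181416047276522930738529735722405682970074594371739258003891675558409454864 318000000000 131384873797061942610941582601335777594900520265091851770152487412269810898286628017371616919994879957548921890749743127276552600480562288))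
    (.N 430000
     (.B true 2 82500000000 45321394058630336438141200907400735876433900551757877131586636089396373250592 true 2 82500000000 45321394058630336438141200907400735876433900551757877131586636089396373250592 165000000000 68171396781494420336164681270696818015045388068750757162931377935341778503158116229093107182790796812814908021135110258179990284167266288 82500000000 68171396781494420336164681270696818015045388068750757162927889472497080061137786986617902894146371183091615377593849533849491874132123888 true 2 82500000000 45321394058630336438141200907400735876433900551757877131586636089396373250592 165000000000 68171396781494420336164681270696818015045388068750757162877631861108871874559655957042924025596556877793029753519674226444268904701359088 27500000000 22723798927164829158220503843440049689659345313211408098847692438658434084062182007087796489868801567716884701723327849965851423109110864)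
     (.N 500000
      (.B true 2 17500000000 4443620367917636588901996724895372936134931525896187894772344372916943587680 false 1 5000000000 1447047746053496765928721825232763403846849710897355457555202394952290009888 1750000000000000 72302996586433474079614151945907959535599243231121404047696653293072831927827173449842933795080114619133784572501138607038104621886287088 350000000000 144605993172866914589979888761992292016831005430339662406944245633068448723903130448595012038953008326844955321897282437541951648899183088 false 1 5000000000 1447047746053496765928721825232763403846849710897355457555202394952290009888 1750000000000000 72302996586433474079614151945907959535599243231121404047679295787508449080173347137534037983310070086456760684233425095319341284797263088 350000000000 144605993172866914589979888761992292016831005430339662406909530621939683028595477823977220415412919261490907545361855414104424974721135088)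
      (.B false 2 17500000000 1418778193017042616655388901532693326532483129734624947188444660200367981232 false 1 15000000000 1418778193017042616655388995068798115710269894770454241030557918180050731760 26249992125000000000 1084544623433016968738573004013270470169767586881800326473876734811788166486576596790883896987304793251102957683790008997889693583935265768850 1050000000000 433817979518600676631442836026353544996560368420135520087077891866355539265328812257014753892539119549089102850569575447654171876318927088 false 1 15000000000 1418778193017042616655388995068798115710269894770454241030557918180050731760 5250000000000000 216908989759300355100345625578100547552865081822480745009308131557995393391619545168113575318347509776719624877400897593350109257878559088 1050000000000 433817979518600676631442836026353544996560368420135520087077891866355539265328812355227663921175795652376723609103794368532838764373327088))))))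

def ntree4 : NT :=
 (.U 710000 248702959005000 6024457451385346367372893211656854374089316792330231240967584128132881413348973456203714778985511538443336062728002993
  (.N 284000
   (.N 200000
    (.N 199500
     (.B false 5 129000000000 35172624518543296849014731434427745119870003973542125409293315590566319246096 false 3 645000000000 195969842189894497915731601379354030651788022893187403496895558730282411600176 1612500000000000 66622046854642275182371129767500393577778085286460858509910021374618563951692922727787811621610218271840945513104411594610645035353727088 322500000000 133244093709284516795493844405178099935484494741454825140951096734248250276868732025149172358759056731872724064543240820401757750432863088 false 3 645000000000 195969842189894497915731601379354030651788022893187403496895558730282411600176 1612500000000000 66622046854642275182371129767500393577778085286460858509894473120448514169592589709488973611204755829907692461182472247371346058380727088 322500000000 133244093709284516795493844405178099935484494741454825140920000225908150712668065988551496337948131848006217960699362125923159796486863088)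
     (.B false 4 3750000000 45264854952557428139594536088897748402760821804826538343116366457669039449088 false 3 15000000000 192323069848191912659471675267668568243236756056256758774059293992713088772352 37500000000000 1549349926852178723041966633013728970008457920349155077180254578907902468838388731869205676289010043241704829976157344198835418408693488 7500000000 3098699853704323876835518136215536094606281396046689184908891547193037868233641193830920869862820596276830350273029372184145473721915888 false 3 15000000000 192323069848191912659471675267668568243236756056256758774059293992713088772352 37500000000000 1549349926852178723041966633013728970008457920349155077151702330341083778072322620873173915778791212209217967911138901083562743392373488 7500000000 3098699853704323876835518136215536094606281396046689184851787050059400486701508971838857348842382934211856626142992485953600123689275888))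
    (.N 250000
     (.B false 4 3750000000 457613389777601541362074406375812129677824534582825521429627722568363409648 false 3 15000000000 1927630147673217303575379096195230199568625699732212493895139178263212983312 3750000000000000 154934992685214548948603565450018009831179722426183884597190467277954782372558211045665983584205268498279476830804940309463835846444695088 750000000000 309869985370429064327958715770198722290962069995937295367060446709460864358186788812993723427779878169033786766079260877863032996590399088 false 3 15000000000 1927630147673217303575379096195230199568625699732212493895139178263212983312 3750000000000000 154934992685214548948603565450018009831179722426183884597162197724918328223284878285654096887952028755929447584661880776176358631212695088 750000000000 309869985370429064327958715770198722290962069995937295367003907603387956059640123292969950035273398684333728273793141811288078566126399088)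
     (.B false 4 63750000000 10606382929864641130488543271364121756586107140065686833749212044530479535712 false 2 127500000000 24741159448091715767154934969320568530429323944558971635543135935729430967712 2550000000000000 105355795025945904027209917347551979653831434909146396267483049163995160107150677374826387500078136244870410759736099427564844040392245488 510000000000 210711590051891774485171419565274864126483431256578715590969032008625240063464238215380313523970518265521320708812446222810652969603259888 false 2 127500000000 24741159448091715767154934969320568530429323944558971635543135935729430967712 2550000000000000 105355795025945904027209917347551979653831434909146396267483049163995160107150677390727525314238359994926501739689258681421390107982005488 510000000000 210711590051891774485171419565274864126483431256578715590969032008625240063464238247182589152290965765633502668718764730523745104782779888)))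
   (.N 397000
    (.N 333400
     (.B false 3 3705000000000 444968065334982644715246743219530764275608755070659226607453993526751679195504 false 2 142500000000 18663205545254073673388386492431244023087847336108944523850692033524040476688 3705000000000000 153075772772991974764051303646175533699529161644294978784825290648089190587791199394385357656977978561323846259027826114783718775526486288 741000000000 306151545545983915958854192162514077609794121043211348625446735608262518250336518365772030408366808330083576182879297186731551000713917488 false 2 142500000000 18663205545254073673388386492431244023087847336108944523850692033524040476688 3705000000000000 153075772772991974764051303646175533699529161644294978784804371178842214517328933151999945527947875598676083574205422588465480556942438288 741000000000 306151545545983915958854192162514077609794121043211348625404896669768566109411985881001206150306602404788050813234490134095074563545821488)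
     (.B false 3 90000000000 8005584050510859397341927175556109352904508556779965106758601734054951784592 false 2 2385000000000 235575485993966761047670826497447043223446291731434653377482282033881863550192 4770000000000000 197077310695592897131788166337114135481925766815665749677416895468148381646794081825616853132885524673365081884142236517322384733639390288 318000000000 131384873797061942610941582601335777594900520265091851770117394550295159956819787952975645651297817647048242205312114873241984481303320464 false 2 2385000000000 235575485993966761047670826497447043223446291731434653377482282033881863550192 1590000000000000 65692436898530988090094998865579155511952804895516405603695285885137515640196858162468093256884082652780217717494918054994035080734766064 954000000000 394154621391185760694327917544384001730768912924392088176683306272280423959110691262414781031464079145853118167046669771694043137056429488))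
    (.N 430000
     (.B false 2 247500000000 45321394058630336438141200907400735876433900551757877131586636089396373250592 true 2 247500000000 45321394058630336438141200907400735876433900551757877131586636089396373250592 165000000000 68171396781494420336164681270696818015045388068750757162890758375748500775508339660916608978598411569444882403294511628627935563292688464 247500000000 204514190344483193869997213552467122991203516335368804354996443438593478694455106500055740392436827987799498243704827849425722768556712688 true 2 247500000000 45321394058630336438141200907400735876433900551757877131586636089396373250592 495000000000 204514190344483193869997213552467122991203516335368804354945105930279277959374734157692033932647062016250129714792522559234930889154229488 82500000000 68171396781494420336164681270696818015045388068750757162869047359016503988866420096129762284865734068625604912998985206114804839051702864)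
     (.N 500000
      (.B false 2 52500000000 4443620367917636588901996724895372936134931525896187894772344372916943587680 false 1 15000000000 1447047746053496765928721825232763403846849710897355457555202394952290009888 5250000000000000 216908989759300355100345625578100547552865081822480745009323679812165443173719878173691503077424793218608006721799578314980615197634559088 1050000000000 433817979518600676631442836026353544996560368420135520087089199687570120925038145385268743737634756664864656446333904678053283149195727088 false 1 15000000000 1447047746053496765928721825232763403846849710897355457555202394952290009888 5250000000000000 216908989759300355100345625578100547552865081822480745009303891125039925269228545241683182390047525398962986249499436641679381146972159088 1050000000000 433817979518600676631442836026353544996560368420135520087049622313319085116055479521252102362880221025574615501733621331450815047870927088)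
      (.B false 2 52500000000 1418778193017042616655388901532693326532483129734624947188444660200367981232 false 1 45000000000 1418778193017042616655388995068798115710269894770454241030557918180050731760 34124995432500000000 1409908244724630999394421726615839065974782756081391901837505072945894812531343987868024720686630006544988961564645092712758679841800789142434 1137499847750000 469969414908210333153853295118112163668521185053982155366151428883590575589328303743741832201482283395001860931366658747425361442958379378706 false 1 45000000000 1418778193017042616655388995068798115710269894770454241030557918180050731760 15750000000000000 650726969277900998162540046474678311604662597596558767894186907146700756116131882717812516264557409130803155766994986752630487922330343088 3150000000000 1301453938555801962755831677819437303935748457389523093127508146092715613842402303921555325215572767777757555865811201160972527139676895088))))))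

def ntree5 : NT :=
 (.U 920000 63769986335000 1681243939921492009514811035372505456153819969187288560748309185101085601287271603565479676181848835024876643296738641
  (.N 333400
   (.N 200000
    (.N 199500
     (.B false 4 376250000000 46480445733124956558347844792792902538944577417136753250728454703525480391696 false 3 1505000000000 195969842189894497915731601379354030651788022893187403496895558730282411600176 3762500000000000 155451442660831930666534749284418697645527100421153025100638926995714953816895520621247103423298394719146562268355055399501760265801303088 752500000000 310902885321663827763821083439000012480175389149472280573070461457892563400160114041010520315873592754770586768060370451025864568448015088 false 3 1505000000000 195969842189894497915731601379354030651788022893187403496895558730282411600176 3762500000000000 155451442660831930666534749284418697645527100421153025100598218839342459841941921423212120121426338331990973257213916073927923181358903088 752500000000 310902885321663827763821083439000012480175389149472280572989045145147575450252915644940553712129479980459408745778091799878190399563215088)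
     (.B false 4 8750000000 45264854952557428139594536088897748402760821804826538343116366457669039449088 false 3 35000000000 192323069848191912659471675267668568243236756056256758774059293992713088772352 87500000000000 3615149829321705594766701970616480227397969900225717090920328293767382011038407202220751886505196593436097161338449865160799199933461488 17500000000 7230299658643377620284988811420696851459558010186630008916051848573660519910101070090821763637942141509490110509610740174163184611451888 false 3 35000000000 192323069848191912659471675267668568243236756056256758774059293992713088772352 87500000000000 3615149829321705594766701970616480227397969900225717090891776045200563320272341091224720125994977762403610299273431422045526524917141488 17500000000 7230299658643377620284988811420696851459558010186630008858947351440023138377968848098758242617504479444516386379573853943617834578811888))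
    (.N 250000
     (.B false 4 8750000000 457613389777601541362074406375812129677824534582825521429627722568363409648 false 3 35000000000 1927630147673217303575379096195230199568625699732212493895139178263212983312 8750000000000000 361514982932167236121077099210293135570130920413840085970944472894813516279697813009634735297402783856497936690345326002812268973460495088 1750000000000 723029965864334438672905783290714797976289731409931377767269745109344688900108286296612074188449753369858216236359664871168914034621999088 false 3 35000000000 1927630147673217303575379096195230199568625699732212493895139178263212983312 8750000000000000 361514982932167236121077099210293135570130920413840085970916203341777062130424480249622848601149544114147907444202266469524791758228495088 1750000000000 723029965864334438672905783290714797976289731409931377767213206003271780601561620776588300795943273885158157744073545804593959604157999088)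
     (.N 284000
      (.B false 3 595000000000 45943324225432327722154521721198347983182961648494349840576059079700554736224 false 2 297500000000 24741159448091715767154934969320568530429323944558971635543135935729430967712 5950000000000000 245830188393873731304491920304539065156318249540752613201654891682177653105159161673961953848941178348516575866843819211064604340079087088 1190000000000 491660376787747429039735425479225795592506241018094691623149592317983348634277966431514422409003496722197157553843635962304303622096943088 false 2 297500000000 24741159448091715767154934969320568530429323944558971635543135935729430967712 850000000000000 35118598341981990388568915869058436902588027593343287800375193784859353125358450518104275041512794069184308839339844855011481119453536400 1190000000000 491660376787747429039735425479225795592506241018094691623078918435392213261094634496876346896374616263258827599764405223633127966321583088)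
      (.B false 3 8645000000000 444968065334982644715246743219530764275608755070659226607453993526751679195504 false 2 332500000000 18663205545254073673388386492431244023087847336108944523850692033524040476688 8645000000000000 357176803136981229690455155001327357929612945256099305742094193920003789696078521336188915465105415877255613044056171749349832229670610288 1729000000000 714353606273962425811661894872783960386897850520237502036853413872264076913821748282391823190885229312521969387121225471193484515594165488 false 2 332500000000 18663205545254073673388386492431244023087847336108944523850692033524040476688 1235000000000000 51025257590997347300849377968599621584487269838392815306154296600555742869222559001984358933434019039978657334972639766626135047867130000 1729000000000 714353606273962425811661894872783960386897850520237502036811574933770124772897215797620998932825023387226444017476418418557008078426069488))))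
   (.N 420000
    (.N 397000
     (.B false 2 5565000000000 235575485993966761047670826497447043223446291731434653377482282033881863550192 false 2 5565000000000 235575485993966761047670826497447043223446291731434653377482282033881863550192 11130000000000000 459847058289716715215174501280184095421871690655964437824855142811338486395847529611118001048766832532630056812136439756218104201014526448 2226000000000 919694116579433396861100587430480450002505698242992560989795781694918166306480037526059600862199397388734671880259113725340275409247117808 false 2 5565000000000 235575485993966761047670826497447043223446291731434653377482282033881863550192 11130000000000000 459847058289716715215174501280184095421871690655964437824808045735979753783158157208852650829595655029878182044897758409831398852177054448 2226000000000 919694116579433396861100587430480450002505698242992560989701587544200701081101292721528900423857042383230922345781751032566864711572173808)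
     (.B false 2 402500000000 45321394058630336438141201141240997849378367464347450366191919234345580126912 false 2 402500000000 45321394058630336438141201141240997849378367464347450366191919234345580126912 4025000000000000 166296892148796946743089609806833141746822038315504975672735258021045001705678611729051762227838847659279604344405621169405579452605947888 805000000000 332593784297593859916930804483827106453655091373706969899103441922671173694038181900796411086728440059967473158228613368733150438451784688 false 2 402500000000 45321394058630336438141201141240997849378367464347450366191919234345580126912 4025000000000000 166296892148796946743089609806833141746822038315504975672706140381417453931927078967532297972862453371651908362109847198523541370811387888 805000000000 332593784297593859916930804483827106453655091373706969899045206643416078146535116377757482576775651484712081193637065426969074274862664688))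
    (.N 500000
     (.B false 2 70000000000 2238595231074212945582039690166245831298729778172107436074077189374669227184 false 1 140000000000 5065550534719627872915318029757535186067373139070764396432861967614459513584 14000000000000000 578423972691467557652174309658582017596029678300879097413393995323929766454468471594516382591963297865877838922206018882528615422311151088 2800000000000 1156847945382935081735100204187256677445883775894625164287454256296586246344982012673358796932067419832847459987131836921386311749025711088 false 1 140000000000 5065550534719627872915318029757535186067373139070764396432861967614459513584 14000000000000000 578423972691467557652174309658582017596029678300879097413371379681500603135049805386506873234960706071997815525291571255898633650125551088 2800000000000 1156847945382935081735100204187256677445883775894625164287409025011727919706144680257339778218062236245087413193302941668126348204654511088)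
     (.N 660000
      (.B false 2 140000000000 2125517018928396348488708463046489467930197278700331863817612540265394865200 false 1 280000000000 4952472322573811275821986802637778822698840639598988824176397318505185151600 28000000000000000 1156847945382935081735100204187352369665093032666316461259880107688037850109904637570538527928969010883819108199957406658977388598452463088 5600000000000 2313695890765870129900951993244701689364801227853808595008012700732497375812671432826733411414722116924909380960444876702610954368905135088 false 1 280000000000 4952472322573811275821986802637778822698840639598988824176397318505185151600 28000000000000000 1156847945382935081735100204187352369665093032666316461259880107688037850109904637607952969844640125589833439917494251962169261698663663088 5600000000000 2313695890765870129900951993244701689364801227853808595008012700732497375812671432901562295246064346336938044395518567308994700569327535088)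
      (.B false 1 455000000000 4726315898282178081635324418550344687845115714432309650045052963771398490528 false 1 455000000000 4726315898282178081635324418550344687845115714432309650045052963771398490528 45500000000000000 1879877911247269486838757572348315309751422225623113166068023707014635324357075524357157404850754683070073750559139312254727787165055791088 9100000000000 3759755822494538940108266729566507954263448042802787883408799635752132899492598566321671617755226161977808285642833670888190060578326191088 false 1 455000000000 4726315898282178081635324418550344687845115714432309650045052963771398490528 45500000000000000 1879877911247269486838757572348315309751422225623113166067975648774473352303310858655783586988206396831575117911311899722341107624108591088 9100000000000 3759755822494538940108266729566507954263448042802787883408703519271808955385069234918923982030129589500811020347178845823416701496431791088))))))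

def ntree6 : NT :=
 (.U 920000 9110047736419131 139482790726770141358645978668179963198928208797856563218304996374675099525135597243392665869218166176697327926080659330
  (.N 333400
   (.N 200000
    (.N 199500
     (.B false 4 1075010750000 46480445733124956558347844792792902538944577417136753250728454703525480391696 false 3 4300043000000 195969842189894497915731601379354030651788022893187403496895558730282411600176 2150021500000000000 88830284100147717414287709568243284916316658948778955245958659121929217086191445301909223552565582492225449338651746046207158880477377418992 215002150000000 88830284100147717414287709568235937047435136982416209536897624753700194714165688502433181514912654704236037332422464249782296498340759705392 false 3 4300043000000 195969842189894497915731601379354030651788022893187403496895558730282411600176 2150021500000000000 88830284100147717414287709568243284916316658948778955245950517490654718291200725462302226892191171214794331536423518181092391463588897418992 215002150000000 88830284100147717414287709568235937047435136982416209536889483122425695919174968662826184854538243426804919530194236384667529081452279705392)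
     (.B false 3 100001000000 192323069848191912659471675267668568243236756056256758774059293992713088772352 false 3 100001000000 192323069848191912659471675267668568243236756056256758774059293992713088772352 25000250000000000 1032910280234275817065974707607875307978009261433622123252470593816877184765531245142653926932837758754695698139055146844511857590699633600 2500025000000 1032910280234275817065974707607789867642177610661962289425594613988799713989712979177831838719952022021825225443923131508289505443823576800 false 3 100001000000 192323069848191912659471675267668568243236756056256758774059293992713088772352 25000250000000000 1032910280234275817065974707607875307978009261433622123246795481044809014298909688893462433201110542226135862283730282638066669106475633600 2500025000000 1032910280234275817065974707607789867642177610661962289419919501216731543523091422928640344988224805493265389588598267301844316959599576800))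
    (.N 250000
     (.B false 3 100001000000 1927630147673217303575379096195230199568625699732212493895139178263212983312 false 3 100001000000 1927630147673217303575379096195230199568625699732212493895139178263212983312 25000250000000000 1032910280234275817065974707607875307978009261433622123245728308216368620772802154362674258017091005559907790809249749669798578855621445696 5000050000000 2065820560468551600562701000085768069757388897388482845272099234106853865568990805173331657506586155093161550541054878158251162297683100304 false 3 100001000000 1927630147673217303575379096195230199568625699732212493895139178263212983312 25000250000000000 1032910280234275817065974707607875307978009261433622123245671769110295712474255488813420451877966467711134035662637970210104973565617445696 5000050000000 2065820560468551600562701000085768069757388897388482845271986155894708048971897474074824045228337079395614040247831319238863951717675100304)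
     (.N 284000
      (.B false 3 1700017000000 45943324225432327722154521721198347983182961648494349840576059079700554736224 false 2 850008500000 24741159448091715767154934969320568530429323944558971635543135935729430967712 170001700000000000 7023789905593075361346987203980644434194058298923068383383487293257247064603933632627341053827965223219829443984759110112978868600701981440 17000170000000 7023789905593075361346987203980063439910403073675781513364748855224621588893940939292210630502990465259396094200931667173886539642761895760 false 2 850008500000 24741159448091715767154934969320568530429323944558971635543135935729430967712 15454700000000000 638526355053915972458133759570796462678520139843407792641043508493895184712386642680693547720735653472776579926392800605321991745011887360 17000170000000 7023789905593075361346987203980063439910403073675781513364395485811665912028024279619020252939846062964704444430535513480530661363885095760)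
      (.B false 2 950009500000 18663205545254073673388386492431244023087847336108944523850692033524040476688 false 2 950009500000 18663205545254073673388386492431244023087847336108944523850692033524040476688 3087530875000000000 127564419608933059295414945536170671508230769104960719858911004101883119830202936643033267285363470992682128924684312349118704205288089834560 617506175000000 255128839217866118557260642657190427587984154145386019029167444927464664346242307851407521554762661486416345434707078482970769631231078169168 false 2 950009500000 18663205545254073673388386492431244023087847336108944523850692033524040476688 3087530875000000000 127564419608933059295414945536170671508230769104960719858903371322563277209899136792960334421788527738792943165615031253637518123976085834560 617506175000000 255128839217866118557260642657190427587984154145386019029152179368824979105634708151261655827612774978637973916568516292008397468607070169168))))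
   (.N 420000
    (.N 397000
     (.B false 2 15900159000000 235575485993966761047670826497447043223446291731434653377482282033881863550192 false 2 15900159000000 235575485993966761047670826497447043223446291731434653377482282033881863550192 3975039750000000000 164232734557249849609548728919141930815242793386146123692507232127729695317903555367271740072829535465562032922710407019021002388498361421920 795007950000000 328465469114499699185528209423126879938164155502968978494699254285737065673518500570668407037389685798094299025755902844162038678227502943888 false 2 15900159000000 235575485993966761047670826497447043223446291731434653377482282033881863550192 3975039750000000000 164232734557249849609548728919141930815242793386146123692501344993309853741317383816988571295433138277718048576805571850722664219893677421920 795007950000000 328465469114499699185528209423126879938164155502968978494687480016897382520346157470102069482596891422406330333946232507565362341018134943888)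
     (.B false 2 1150011500000 45321394058630336438141201141240997849378367464347450366191919234345580126912 false 1 2300023000000 101860500131538634984806767933066784944751234682320589573367614799141385854912 1150011500000000000 47513872890776686074418657869120739218274941448851739658799691225144623177087174533249721614522522813116900522729179509179058309097442625536 115001150000000 47513872890776686074418657869116808962826685513355387302788471182989900019783144612203485049964794033822598227332115465389776363970694568736 false 1 2300023000000 101860500131538634984806767933066784944751234682320589573367614799141385854912 1150011500000000000 47513872890776686074418657869120739218274941448851739658796779461181868399712021257097775189024883384354130924499602112090854500917986625536 115001150000000 47513872890776686074418657869116808962826685513355387302785559419027145242407991336051538624467154605059828629102538068301572555791238568736))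
    (.N 500000
     (.B false 2 200002000000 2238595231074212945582039690166245831298729778172107436074077189374669227184 false 1 400004000000 5065550534719627872915318029757535186067373139070764396432861967614459513584 200002000000000000 8263282241874206301543058754954320805135309823920884850997756213724173395813900419686633170132700516005837820742338388060999355332827900224 40000400000000 16526564483748412569516869094777462899370346911559770627208276170362594357908711314773412141501493365959165394723749839624088710726908676816 false 1 400004000000 5065550534719627872915318029757535186067373139070764396432861967614459513584 200002000000000000 8263282241874206301543058754954320805135309823920884850997643135512027579216807088646585623347687557036437703757766149927849446471899900224 40000400000000 16526564483748412569516869094777462899370346911559770627208050013938302724714524652693317047931467448020365160754605363357788893005052676816)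
     (.N 660000
      (.B false 2 400004000000 2125517018928396348488708463046489467930197278700331863817612540265394865200 false 1 800008000000 4952472322573811275821986802637778822698840639598988824176397318505185151600 400004000000000000 16526564483748412569516869094778829944743653323906327968428262398201203116405929984170662502843487372448515153678109042124139642280967514048 80000800000000 33053128967496825105464489774425114133213727499184099520849314184690320351338246574113246728996363100657285981219433396516881793951085504464 false 1 800008000000 4952472322573811275821986802637778822698840639598988824176397318505185151600 400004000000000000 16526564483748412569516869094778829944743653323906327968428262398201203116405929984357734712421842945978586812265793268640099007782023514048 80000800000000 33053128967496825105464489774425114133213727499184099520849314184690320351338246574487391148153074247717429298394801849548800524953197504464)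
      (.B false 1 1300013000000 4726315898282178081635324418550344687845115714432309650045052963771398490528 false 1 1300013000000 4726315898282178081635324418550344687845115714432309650045052963771398490528 650006500000000000 26855667286091170404484132019559466369254082698888131865216598669579352737020734935907347443734962627419756503133679953350120782868832403504 130001300000000 53711334572182340775399015623984678175517953233714510637901103592822812145322521638901524252051576697166553040619563793470331905495279283376 false 1 1300013000000 4726315898282178081635324418550344687845115714432309650045052963771398490528 650006500000000000 26855667286091170404484132019559466369254082698888131865216358378378542876751911607400478354422221196227263339894542890688187385164096403504 130001300000000 53711334572182340775399015623984678175517953233714510637900623010421192424784874981887786073426093834781566714141289668146465110085807283376))))))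

theorem allcols {ε x n r ϱ : ℝ} (h : Ctx ε x n r ϱ) (hx1 : x ≤ (400001/1000000)) (hn0 : 89/500 ≤ n) : ϱ ≤ 0.431 := by
  have hx0 : 0 ≤ x := h.x0.le
  have hn1 : n ≤ 2 := by
    have e1 := mul_nonneg (sub_nonneg.2 hx1) h.n0.le
    have e2 := h.y1
    have e3 := h.e7
    clear * - e1 e2 e3
    linarith
  refine NT.sound h ((.X 164500 ntree0 (.X 200000 ntree1 (.X 245000 ntree2 (.X 250000 ntree3 (.X 265000 ntree4 (.X 300000 ntree5 ntree6)))))) : NT) 0 400001 178000 2000000 (by decide +kernel) ?_ ?_ ?_ ?_ <;>
    push_cast <;> linarith

theorem smallN {ε x n r ϱ : ℝ} (e0 : 0 < ε) (e7 : ε ≤ 1 / 10 ^ 7) (ex : ε ≤ x / 10 ^ 5) (x0 : 0 < x)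
    (x4 : x ≤ 0.4 + ε) (n0 : 0 < n) (hn : n ≤ 89 / 500)
    (hf : ∀ k : ℕ, 1 ≤ k → (k : ℝ) ≤ 4 / n → r ≤ max (2 * x * (k * n)) (1 - k * n * (1 - 2 * x)) + ε)
    (hs : ∀ j : ℕ, 1 ≤ j → (j : ℝ) ≤ 4 / n → r + 2 * x * (j * n) ≤ 4 * x - ε →
      ϱ ≤ max (1 + r - 4 * x - j * n * (1 - 2 * x)) (4 * (1 + r - 4 * x - j * n * (1 - 2 * x)) - 1) + ε) :
    ϱ ≤ 0.431 := by
  set k := ⌈1 / n⌉₊ with hk
  have hk1 : 1 / n ≤ k := Nat.le_ceil _
  have hk2 : (k : ℝ) < 1 / n + 1 := Nat.ceil_lt_add_one (by (clear * - n0; positivity))
  have hkn1 : 1 ≤ k * n := by
    rw [div_le_iff₀ n0] at hk1; exact hk1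
  have hkn2 : k * n < 1 + n := by
    have := mul_lt_mul_of_pos_right hk2 n0
    rw [add_mul, div_mul_cancel₀ _ n0.ne'] at this
    (clear * - this; linarith)
  have hkpos : 1 ≤ k := by
    rcases Nat.eq_zero_or_pos k with h | h
    · rw [h] at hkn1; norm_num at hkn1
    · exact h
  set m := ⌊1999 / 1000 / n⌋₊ with hm
  have hm1 : (m : ℝ) ≤ 1999 / 1000 / n := Nat.floor_le (by positivity)
  have hm2 : 1999 / 1000 / n < (m : ℝ) + 1 := Nat.lt_floor_add_one _
  have hmn1 : m * n ≤ 1999 / 1000 := by
    rw [le_div_iff₀ n0] at hm1; exact hm1
  have hmn2 : 1999 / 1000 < m * n + n := by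
    rw [div_lt_iff₀ n0] at hm2; (clear * - hm2; linarith)
  have hkm : k < m := by
    by_contra hcon
    push Not at hcon
    have : (m : ℝ) ≤ k := by exact_mod_cast hcon
    have := mul_le_mul_of_nonneg_right this n0.le
    (clear * - e0 e7 hn hkn2 hmn2 this; linarith)
  obtain ⟨j, hj⟩ : ∃ j, m = k + j := ⟨m - k, by omega⟩
  have hj1 : 1 ≤ j := by omega
  have hjn : (j : ℝ) * n = m * n - k * n := by rw [hj]; push_cast; ring
  have hr : r ≤ 2 * x * (k * n) + ε := by
    have h1 := hf k hkpos (by rw [le_div_iff₀ n0]; (clear * - e0 e7 hn hkn2; linarith))
    refine h1.trans ?_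
    have h2 : max (2 * x * (k * n)) (1 - k * n * (1 - 2 * x)) ≤ 2 * x * (k * n) := by
      refine max_le le_rfl ?_
      (clear * - hkn1; nlinarith)
    (clear * - h2; linarith)
  have h3 := hs j hj1 (by rw [le_div_iff₀ n0]; (clear * - e0 e7 hkn1 hmn1 hjn; linarith)) (by
    rw [hjn]
    (clear * - ex hr e0 e7 hmn1; nlinarith))
  refine h3.trans ?_
  have hw : 1 + r - 4 * x - j * n * (1 - 2 * x) ≤ 3576 / 10000 := by
    rw [hjn]
    (clear * - e7 ex hn hkn2 hmn2 hr e0 hmn1; nlinarith)
  have : max (1 + r - 4 * x - j * n * (1 - 2 * x)) (4 * (1 + r - 4 * x - j * n * (1 - 2 * x)) - 1) ≤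
      4304 / 10000 := by
    refine max_le (by (clear * - e0 e7 hw; linarith)) (by (clear * - hw; linarith))
  exact (add_le_add this e7).trans (by norm_num)

theorem numeric : Numeric := by
  intro ε0 hε0 hε01 ε x n r ϱ e0 eε xε x4 n0 hy hf hg r0 hs he
  have e7 : ε ≤ 1 / 10 ^ 7 := by norm_num at *; (clear * - hε01 eε; linarith)
  have ex : ε ≤ x / 10 ^ 5 := by
    refine eε.trans ?_
    exact div_le_div_of_nonneg_right xε (by norm_num)
  have x0 : 0 < x := by (clear * - e0 eε xε; linarith)
  have x4' : x ≤ 400001 / 1000000 := by norm_num at *; (clear * - e0 hε01 eε x4; linarith)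
  rcases le_total n (89 / 500) with hn | hn
  · exact smallN e0 e7 ex x0 x4 n0 hn hf hs
  have hctx : Ctx ε x n r ϱ := by
    refine ⟨e0, e7, x0, n0, ?_, ?_, r0, ?_, ?_, ?_, ?_, ?_⟩
    · have h1 : n - ε ≤ (1 / 3) / (1 - 2 * x) := by
        have := min_le_left ((1 / 3 : ℝ) / (1 - 2 * x)) ((2 / 7) / (5 / 7 - x))
        unfold yy at hy
        (clear * - hy this; linarith)
      have hpos : 0 < 1 - 2 * x := by (clear * - hε01 e0 eε x4; linarith)
      rw [le_div_iff₀ hpos] at h1
      (clear * - h1 hε0 hε01 e0 eε xε; nlinarith)
    · have h1 : n - ε ≤ (2 / 7) / (5 / 7 - x) := by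
        have := min_le_right ((1 / 3 : ℝ) / (1 - 2 * x)) ((2 / 7) / (5 / 7 - x))
        unfold yy at hy
        (clear * - hy this; linarith)
      have hpos : 0 < 5 / 7 - x := by linarith
      rw [le_div_iff₀ hpos] at h1
      (clear * - e0 h1 hε0 hε01 eε xε; nlinarith)
    · intro k K hK hk hkn
      have h1 := hf k hk (by rw [le_div_iff₀ n0, hK]; exact hkn)
      rw [hK] at h1
      rcases max_cases (2 * x * (K * n)) (1 - K * n * (1 - 2 * x)) with h | h
      · rw [h.1] at h1; left; (clear * - h1; linarith)
      · rw [h.1] at h1; right; (clear * - h1; linarith)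
    · intro k K hK hk hkn
      have h1 := hg k hk (by rw [le_div_iff₀ n0, hK]; exact hkn)
      rw [hK] at h1
      rcases max_cases (2 * x * (K * n)) (1 - K * n * (2 - 6 * x)) with h | h
      · rw [h.1] at h1; left; (clear * - h1; linarith)
      · rw [h.1] at h1; right; (clear * - h1; linarith)
    · intro j J hJ hj hjn h1 h2
      have h3 := hs j hj (by rw [le_div_iff₀ n0, hJ]; exact hjn) (by rw [hJ]; (clear * - h1; linarith))
      rw [hJ] at h3
      have : max (1 + r - 4 * x - J * n * (1 - 2 * x)) (4 * (1 + r - 4 * x - J * n * (1 - 2 * x)) - 1) ≤
          4304 / 10000 := max_le (by (clear * - hε01 e0 eε h2; linarith)) (by (clear * - h2; linarith))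
      exact h3.trans ((add_le_add this e7).trans (by norm_num))
    · intro j J hJ hj hjn h1 h2
      have h3 := he j hj (by rw [le_div_iff₀ n0, hJ]; exact hjn)
      rw [hJ] at h3
      have : 1 - 8 * x + max (4 * x * (J * n) + r) (1 + 2 * r - (2 - 4 * x) * (J * n)) ≤ 4308 / 10000 := by
        have : max (4 * x * (J * n) + r) (1 + 2 * r - (2 - 4 * x) * (J * n)) ≤ 4308 / 10000 - 1 + 8 * x :=
          max_le (by (clear * - h1; linarith)) (by (clear * - h2; linarith))
        (clear * - this; linarith)
      exact h3.trans ((add_le_add this e7).trans (by norm_num))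
    · intro k K hK hk hkn h2
      have h1 := hg k hk (by rw [le_div_iff₀ n0, hK]; (clear * - hε01 e0 eε hkn; linarith))
      rw [hK] at h1
      have hKx : x * (K * n) ≤ x * (999 / 1000) := mul_le_mul_of_nonneg_left hkn x0.le
      norm_num at *
      rcases max_cases (2 * x * (K * n)) (1 - K * n * (2 - 6 * x)) with h | h
      · rw [h.1] at h1; (clear * - e0 xε h1 eε r0 hKx; linarith)
      · rw [h.1] at h1; (clear * - e0 h1 hε01 eε r0 h2; linarith)
  exact allcols hctx x4' hn

end Pool.Agent.M20.Helper65.KC
end

/- Helper53.KN.Helper62.KS.EG1 -/
section
/-!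
# ExistsGood, part 1: polynomials in the random set, basic facts (project KS, MP_768c9c_nt)
-/

set_option autoImplicit false

open MeasureTheory
open Pool.Agent.M20.Helper33.KS

namespace Pool.Agent.M20.Helper62.KS

section poly

variable {ι : Type*} [DecidableEq ι]

/-- `F` is dominated by a polynomial with nonnegative coefficients and supports with at most `D`
elements; `M A` bounds the conditional expectation of the part of the polynomial divisible by `A` -/
def IsPoly (P : ι → ℝ) (D : ℕ) (F : Set ι → ℝ) (M : Finset ι → ℝ) : Prop :=
  ∃ (τ : Type) (T : Finset τ) (w : τ → ℝ) (S : τ → Finset ι), (∀ t ∈ T, 0 ≤ w t) ∧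
    (∀ t ∈ T, (S t).card ≤ D) ∧ (∀ R, F R ≤ YY T w S R) ∧
    ∀ A : Finset ι, ∑ t ∈ T.filter (fun t => A ⊆ S t), w t * ∏ i ∈ S t \ A, P i ≤ M A

variable {P : ι → ℝ} {D : ℕ}

theorem IsPoly.mono {F F' : Set ι → ℝ} {M M' : Finset ι → ℝ} (h : IsPoly P D F M)
    (hF : ∀ R, F' R ≤ F R) (hM : ∀ A, M A ≤ M' A) : IsPoly P D F' M' := by
  obtain ⟨τ, T, w, S, h1, h2, h3, h4⟩ := h
  exact ⟨τ, T, w, S, h1, h2, fun R => (hF R).trans (h3 R), fun A => (h4 A).trans (hM A)⟩

theorem IsPoly.single (w : ℝ) (hw : 0 ≤ w) (S : Finset ι) (hS : S.card ≤ D) :
    IsPoly P D (fun R => w * ind R S)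
      (fun A => if A ⊆ S then w * ∏ i ∈ S \ A, P i else 0) := by
  refine ⟨Unit, {()}, fun _ => w, fun _ => S, fun _ _ => hw, fun _ _ => hS, fun R => ?_,
    fun A => ?_⟩
  · unfold YY; simp
  · by_cases hA : A ⊆ S
    · simp [Finset.filter_singleton, hA]
    · simp [Finset.filter_singleton, hA]

theorem IsPoly.sum {α : Type} (s : Finset α) (F : α → Set ι → ℝ) (M : α → Finset ι → ℝ)
    (h : ∀ i ∈ s, IsPoly P D (F i) (M i)) :
    IsPoly P D (fun R => ∑ i ∈ s, F i R) (fun A => ∑ i ∈ s, M i A) := by
  choose τ T w S h1 h2 h3 h4 using h
  refine ⟨(i : {i // i ∈ s}) × τ i.1 i.2, s.attach.sigma (fun i => T i.1 i.2),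
    fun t => w t.1.1 t.1.2 t.2, fun t => S t.1.1 t.1.2 t.2, ?_, ?_, ?_, ?_⟩
  · rintro ⟨⟨i, hi⟩, t⟩ ht
    rw [Finset.mem_sigma] at ht
    exact h1 i hi t ht.2
  · rintro ⟨⟨i, hi⟩, t⟩ ht
    rw [Finset.mem_sigma] at ht
    exact h2 i hi t ht.2
  · intro R
    unfold YY
    rw [Finset.sum_sigma]
    show ∑ i ∈ s, F i R ≤ _
    rw [← Finset.sum_attach]
    refine Finset.sum_le_sum fun i _ => ?_
    exact h3 i.1 i.2 R
  · intro A
    rw [Finset.sum_filter, Finset.sum_sigma]
    show _ ≤ ∑ i ∈ s, M i A
    rw [← Finset.sum_attach s]
    refine Finset.sum_le_sum fun i _ => ?_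
    refine le_trans (le_of_eq ?_) (h4 i.1 i.2 A)
    rw [Finset.sum_filter]

/-- Markov -/
theorem IsPoly.markov {F : Set ι → ℝ} {M : Finset ι → ℝ} (h : IsPoly P D F M)
    (hP : ∀ i, 0 ≤ P i ∧ P i ≤ 1) (L l : ℝ) (hl : 0 < l) (hM : M ∅ ≤ L) :
    pr P {R | l < F R} ≤ L / l := by
  obtain ⟨τ, T, w, S, h1, h2, h3, h4⟩ := h
  have hsum : ∑ t ∈ T, w t * ∏ i ∈ S t, P i ≤ L := by
    have := h4 ∅
    simp only [Finset.empty_subset, Finset.filter_true, Finset.sdiff_empty] at this
    exact this.trans hM
  set MM : ℝ := ∑ t ∈ T, w t with hMM
  have hMM0 : 0 ≤ MM := Finset.sum_nonneg h1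
  have h5 := upper_tail (bern (coin P)) rs bern_meas P (fun i => (hP i).1)
    (fun A => by rw [bern_exact]; simp only [coin_coe hP]; exact le_rfl) T w S h1 (D + 1)
    (fun t ht => (h2 t ht).trans (Nat.le_succ D)) L MM hMM0 hsum (fun A _ => by
      refine (Finset.sum_le_sum_of_subset_of_nonneg (Finset.filter_subset _ _) ?_).trans
        (Finset.sum_le_sum (g := w) fun t ht => ?_)
      · intro t ht _
        exact mul_nonneg (h1 t ht) (Finset.prod_nonneg fun i _ => (hP i).1)
      · calc w t * ∏ i ∈ S t \ A, P i ≤ w t * 1 :=
              mul_le_mul_of_nonneg_left (Finset.prod_le_one (fun i _ => (hP i).1)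
                fun i _ => (hP i).2) (h1 t ht)
          _ = w t := mul_one _) 1 l hl
  rw [Finset.prod_range_one, pow_one] at h5
  have h6 : pr P {R | l < F R} ≤ (bern (coin P)).real {ω | l ≤ YY T w S (rs ω)} := by
    unfold pr
    refine measureReal_mono ?_ (measure_ne_top _ _)
    intro ω hω
    have hω' : l < F (rs ω) := hω
    exact hω'.le.trans (h3 _)
  refine h6.trans (h5.trans (le_of_eq ?_))
  have h7 : (((D + 1) * 0 : ℕ) : ℝ) ^ (D + 1) = 0 := by
    rw [mul_zero, Nat.cast_zero]
    exact zero_pow (Nat.succ_ne_zero D)
  rw [h7, zero_mul, add_zero]

end poly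

end Pool.Agent.M20.Helper62.KS
end

/- Helper53.KN.Helper62.KS.EG3 -/
section
/-!
# ExistsGood, part 3: the polynomials of the events (project KS, MP_768c9c_nt)
-/

set_option autoImplicit false

open MeasureTheory
open scoped Classical
open Pool.Agent.M20.Helper16.KS

namespace Pool.Agent.M20.Helper62.KS

variable (S : Sys)

/-! ### A uniform tail estimate -/

/-! ### Crude mass -/

/-! ### Large divisors in `⟨R⟩` -/

/-! ### Heavy loads -/

theorem wd_nonneg (k m : ℕ) : 0 ≤ S.wd k m := by
  unfold Sys.wd
  exact mul_nonneg (Real.rpow_nonneg (by norm_num) _) (Real.rpow_nonneg (Nat.cast_nonneg _) _)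

end Pool.Agent.M20.Helper62.KS
end

/- Helper53.KN.Helper62.KS.EvMass -/
section
/-!
# Masses of the random set and of the control primes (project KS, MP_768c9c_nt)
-/

set_option autoImplicit false

open MeasureTheory
open scoped Classical
open Pool.Agent.M20.Helper33.KS Pool.Agent.M20.Helper16.KS

namespace Pool.Agent.M20.Helper62.KS

theorem evMassC (hM : MassC1) : EvMassC := by
  intro S
  obtain ⟨K1, hK1⟩ := hM S
  have hc := c_pos S
  refine ⟨S.c / 4, by linarith, max K1 (max S.K 2), fun k0 hk0 k hk => ?_⟩
  have hkK1 : K1 ≤ k := ((le_max_left _ _).trans hk0).trans hk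
  have hkK : S.K ≤ k := (((le_max_left _ _).trans (le_max_right _ _)).trans hk0).trans hk
  have hk2 : 2 ≤ k := (((le_max_right _ _).trans (le_max_right _ _)).trans hk0).trans hk
  rw [PP_eq_PP]
  have hw : ∀ x : ℕ × ℕ, 0 ≤ S.wd k x.2 * (x.1 : ℝ) ^ (-S.s) := fun x =>
    mul_nonneg (wd_nonneg S k x.2) (Real.rpow_nonneg (Nat.cast_nonneg _) _)
  have h1 : IsPoly (PP S k0) 5
      (fun R => ∑ j ∈ S.badc k, ∑ x ∈ S.Cand k j,
        (S.wd k x.2 * (x.1 : ℝ) ^ (-S.s)) * ind R x.2.primeFactors)
      (fun A => ∑ j ∈ S.badc k, ∑ x ∈ S.Cand k j,
        if A ⊆ x.2.primeFactors then (S.wd k x.2 * (x.1 : ℝ) ^ (-S.s)) *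
          ∏ i ∈ x.2.primeFactors \ A, PP S k0 i else 0) :=
    IsPoly.sum _ _ _ fun j hj => IsPoly.sum _ _ _ fun x hx =>
      IsPoly.single _ (hw x) _ (cand_card S hkK hk2 hj hx)
  have h2 : IsPoly (PP S k0) 5
      (fun R => ∑ j ∈ S.badc k, ∑ x ∈ S.act R k j, S.wd k x.2 * (x.1 : ℝ) ^ (-S.s))
      (fun A => ∑ j ∈ S.badc k, ∑ x ∈ (S.Cand k j).filter (fun x => A ⊆ x.2.primeFactors),
        S.wd k x.2 * (x.1 : ℝ) ^ (-S.s) * S.pc A x.2.primeFactors) := by
    refine h1.mono (fun R => Finset.sum_le_sum fun j hj => ?_)
      fun A => Finset.sum_le_sum fun j hj => ?_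
    · unfold Sys.act
      rw [Finset.sum_filter]
      refine Finset.sum_le_sum fun x hx => ?_
      rw [ind_inR (cand_facts S hkK hj hx).2.2.2.1]
      split_ifs
      · rw [mul_one]
      · rw [mul_zero]
    · rw [Finset.sum_filter]
      refine Finset.sum_le_sum fun x _ => ?_
      split_ifs
      · exact mul_le_mul_of_nonneg_left (prod_PP_le S k0 A _) (hw x)
      · exact le_rfl
  refine (h2.markov (PP_mem S k0) ((2 : ℝ) ^ (-(S.c / 2) * (k : ℝ)))
    ((2 : ℝ) ^ (-(S.c / 4) * (k : ℝ))) (by positivity) (hK1 k hkK1 ∅)).trans (le_of_eq ?_)
  rw [← Real.rpow_sub (by norm_num)]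
  congr 1
  ring

theorem evMassR (hM : MassR1) : EvMassR := by
  intro S
  obtain ⟨K1, hK1⟩ := hM S
  have ht := tau_pos S
  refine ⟨S.tau / 24, by linarith, K1, fun k0 hk0 l hl => ?_⟩
  rw [PP_eq_PP]
  set g : ℕ → ℝ := fun r => S.base r * (r : ℝ) ^ (-S.s) * (1 + Real.log r) ^ 2 with hg
  have hg0 : ∀ r, 0 ≤ g r := fun r =>
    mul_nonneg (mul_nonneg (base_nonneg S r) (Real.rpow_nonneg (Nat.cast_nonneg _) _))
      (sq_nonneg _)
  set T0 : Finset ℕ := (Finset.range (⌈(2 : ℝ) ^ (((l : ℝ) + 1) / 5)⌉₊)).filter
    (fun r => (2 : ℝ) ^ ((l : ℝ) / 5) ≤ r) with hT0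
  have h1 : IsPoly (PP S k0) 1 (fun R => ∑ r ∈ T0, g r * ind R {r})
      (fun A => ∑ r ∈ T0, if A ⊆ {r} then g r * ∏ i ∈ {r} \ A, PP S k0 i else 0) :=
    IsPoly.sum _ _ _ fun r _ => IsPoly.single _ (hg0 r) _ (by simp)
  have hset : {R : Set ℕ | ∃ T : Finset ℕ, (∀ r ∈ T, r ∈ R ∧ (2 : ℝ) ^ ((l : ℝ) / 5) ≤ r ∧
      (r : ℝ) < (2 : ℝ) ^ (((l : ℝ) + 1) / 5)) ∧
      (2 : ℝ) ^ (-(S.tau / 8) * (l : ℝ)) <
        ∑ r ∈ T, S.base r * (r : ℝ) ^ (-S.s) * (1 + Real.log r) ^ 2} ⊆
      {R | (2 : ℝ) ^ (-(S.tau / 8) * (l : ℝ)) < ∑ r ∈ T0, g r * ind R {r}} := by
    intro R hR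
    obtain ⟨T, hT, hlt⟩ := hR
    refine lt_of_lt_of_le hlt ?_
    have h2 : T ⊆ T0 := by
      intro r hr
      rw [hT0, Finset.mem_filter, Finset.mem_range]
      refine ⟨?_, (hT r hr).2.1⟩
      have h3 : (r : ℝ) < (⌈(2 : ℝ) ^ (((l : ℝ) + 1) / 5)⌉₊ : ℝ) :=
        lt_of_lt_of_le (hT r hr).2.2 (Nat.le_ceil _)
      exact_mod_cast h3
    calc ∑ r ∈ T, S.base r * (r : ℝ) ^ (-S.s) * (1 + Real.log r) ^ 2
        = ∑ r ∈ T, g r * ind R {r} := by
          refine Finset.sum_congr rfl fun r hr => ?_
          have h3 : ind R {r} = 1 := by
            unfold ind
            rw [if_pos]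
            simpa using (hT r hr).1
          rw [h3, mul_one]
      _ ≤ ∑ r ∈ T0, g r * ind R {r} :=
          Finset.sum_le_sum_of_subset_of_nonneg h2 fun r _ _ => mul_nonneg (hg0 r) (ind_nonneg _ _)
  refine (pr_mono _ hset).trans ?_
  have hmean : (fun A => ∑ r ∈ T0, if A ⊆ {r} then g r * ∏ i ∈ {r} \ A, PP S k0 i else 0)
      (∅ : Finset ℕ) ≤ (2 : ℝ) ^ (-(S.tau / 6) * (l : ℝ)) := by
    refine le_trans (Finset.sum_le_sum fun r _ => ?_) (hK1 l (hk0.trans hl) T0 fun r hr => ?_)
    · rw [if_pos (Finset.empty_subset _), Finset.sdiff_empty, Finset.prod_singleton, mul_comm]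
      exact mul_le_mul_of_nonneg_right (PP_le S k0 r) (hg0 r)
    · rw [hT0, Finset.mem_filter] at hr
      exact hr.2
  refine (h1.markov (PP_mem S k0) ((2 : ℝ) ^ (-(S.tau / 6) * (l : ℝ)))
    ((2 : ℝ) ^ (-(S.tau / 8) * (l : ℝ))) (by positivity) hmean).trans (le_of_eq ?_)
  rw [← Real.rpow_sub (by norm_num)]
  congr 1
  ring

end Pool.Agent.M20.Helper62.KS
end
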