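import Mathlib
import Pool.Agent.Helper53.KO.G01
import Pool.Agent.Helper53.KO.G06
import Pool.Agent.Helper53.KO.G08
import Pool.Agent.Helper53.KO.G15

set_option linter.all false

/- Helper53.KN.Helper88.KS.Basic -/
section
/-!
# Project KS: small facts about cells and candidates used for `Mult1` and `Cand1`
-/

set_option autoImplicit false
open scoped Classical

namespace Pool.Agent.M20.Helper88.KS

open Pool.Agent.M20.Helper16.KS

/-- multiples of `D` in an interval of length `H` -/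
theorem card_mult_le (L H D : ℕ) (hD : 0 < D) :
    (((Finset.Ico L (L + H)).filter (fun n => D ∣ n)).card : ℝ) ≤ (H : ℝ) / D + 1 := by
  rcases Nat.eq_zero_or_pos H with h0 | hpos
  · subst h0
    simp
  have h1 : ((Finset.Ico L (L + H)).filter (fun n => D ∣ n)).card ≤
      (Finset.range ((H - 1) / D + 1)).card := by
    apply Finset.card_le_card_of_injOn (fun n => (n - L) / D)
    · intro n hn
      rw [Finset.mem_coe, Finset.mem_filter, Finset.mem_Ico] at hn
      rw [Finset.mem_coe, Finset.mem_range]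
      have : n - L ≤ H - 1 := by omega
      exact Nat.lt_succ_of_le (Nat.div_le_div_right this)
    · intro a ha b hb hab
      rw [Finset.mem_coe, Finset.mem_filter, Finset.mem_Ico] at ha hb
      have hab' : (a - L) / D = (b - L) / D := hab
      obtain ⟨⟨ha1, ha2⟩, ⟨a', ha3⟩⟩ := ha
      obtain ⟨⟨hb1, hb2⟩, ⟨b', hb3⟩⟩ := hb
      have e1 := Nat.div_add_mod (a - L) D
      have e2 := Nat.div_add_mod (b - L) D
      have m1 := Nat.mod_lt (a - L) hD
      have m2 := Nat.mod_lt (b - L) hD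
      rw [hab'] at e1
      have hlt1 : a < b + D := by omega
      have hlt2 : b < a + D := by omega
      rw [ha3, hb3] at hlt1 hlt2
      have h3 : D * a' < D * (b' + 1) := by rw [Nat.mul_add, Nat.mul_one]; exact hlt1
      have h4 : D * b' < D * (a' + 1) := by rw [Nat.mul_add, Nat.mul_one]; exact hlt2
      have h5 := Nat.lt_of_mul_lt_mul_left h3
      have h6 := Nat.lt_of_mul_lt_mul_left h4
      have : a' = b' := by omega
      rw [ha3, hb3, this]
  rw [Finset.card_range] at h1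
  have h2 : (((Finset.Ico L (L + H)).filter (fun n => D ∣ n)).card : ℝ) ≤
      (((H - 1) / D + 1 : ℕ) : ℝ) := by exact_mod_cast h1
  refine h2.trans ?_
  push_cast
  have h3 : (((H - 1) / D : ℕ) : ℝ) ≤ ((H - 1 : ℕ) : ℝ) / D := Nat.cast_div_le
  have h4 : ((H - 1 : ℕ) : ℝ) ≤ H := by exact_mod_cast Nat.sub_le H 1
  have hD' : (0 : ℝ) < D := by exact_mod_cast hD
  have h5 : ((H - 1 : ℕ) : ℝ) / D ≤ (H : ℝ) / D := by gcongr
  linarith

theorem ec_le (d : ℝ) (hd : 0 ≤ d) (k : ℕ) : ec d k ≤ k := by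
  unfold ec
  have h : (k : ℝ) * (1 / 2 - d) ≤ k := by
    have hk : (0 : ℝ) ≤ k := Nat.cast_nonneg k
    nlinarith
  calc ⌊(k : ℝ) * (1 / 2 - d)⌋₊ ≤ ⌊(k : ℝ)⌋₊ := Nat.floor_le_floor h
    _ = k := Nat.floor_natCast k

theorem cell_bound {d : ℝ} (hd : 0 ≤ d) {k j n : ℕ} (hj : j < nc d k) (hn : n ∈ cell d k j) :
    2 ^ k ≤ n ∧ n < 2 ^ (k + 1) := by
  unfold cell at hn
  rw [Finset.mem_Ico] at hn
  refine ⟨le_trans (Nat.le_add_right _ _) hn.1, lt_of_lt_of_le hn.2 ?_⟩
  have h1 : (j + 1) * 2 ^ ec d k ≤ 2 ^ k := by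
    unfold nc at hj
    calc (j + 1) * 2 ^ ec d k ≤ 2 ^ (k - ec d k) * 2 ^ ec d k := Nat.mul_le_mul_right _ hj
      _ = 2 ^ k := by rw [← pow_add, Nat.sub_add_cancel (ec_le d hd k)]
  rw [pow_succ]
  omega

theorem cell_eq (d : ℝ) (k j : ℕ) :
    cell d k j = Finset.Ico (2 ^ k + j * 2 ^ ec d k) (2 ^ k + j * 2 ^ ec d k + 2 ^ ec d k) := by
  unfold cell
  congr 1
  ring

/-- length of a cell -/
theorem ec_real_le (d : ℝ) (hd : d ≤ 1/2) (k : ℕ) :
    ((2 : ℝ) ^ ec d k) ≤ (2 : ℝ) ^ ((1/2 - d) * (k : ℝ)) := by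
  rw [← Real.rpow_natCast]
  apply Real.rpow_le_rpow_of_exponent_le (by norm_num)
  unfold ec
  have : 0 ≤ (k : ℝ) * (1 / 2 - d) := mul_nonneg (Nat.cast_nonneg k) (by linarith)
  calc ((⌊(k : ℝ) * (1 / 2 - d)⌋₊ : ℕ) : ℝ) ≤ (k : ℝ) * (1 / 2 - d) := Nat.floor_le this
    _ = (1/2 - d) * k := by ring

theorem ec_real_ge (d : ℝ) (k : ℕ) :
    (2 : ℝ) ^ ((1/2 - d) * (k : ℝ) - 1) ≤ (2 : ℝ) ^ ec d k := by
  rw [← Real.rpow_natCast]
  apply Real.rpow_le_rpow_of_exponent_le (by norm_num)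
  unfold ec
  have := Nat.lt_floor_add_one ((k : ℝ) * (1 / 2 - d))
  linarith

/-- bad cells -/
theorem mem_badc {S : Sys} {k j : ℕ} : j ∈ S.badc k ↔ j < nc S.d k ∧ S.bad k j := by
  unfold Sys.badc
  rw [Finset.mem_filter, Finset.mem_range]

/-! ### products over sets of primes -/

theorem prod_pr (S : Sys) (A : Finset ℕ) :
    ∏ p ∈ A, S.pr p = ((∏ p ∈ A, p : ℕ) : ℝ) ^ (-S.hh) := by
  unfold Sys.pr
  rw [Real.finsetProd_rpow _ _ (fun i _ => Nat.cast_nonneg i), Nat.cast_prod]

theorem pc_eq (S : Sys) (A D : Finset ℕ) :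
    S.pc A D = ((∏ p ∈ D \ A, p : ℕ) : ℝ) ^ (-S.hh) := prod_pr S _

theorem prod_mul_prod_sdiff {m : ℕ} (hm : Squarefree m) {A : Finset ℕ}
    (hA : A ⊆ m.primeFactors) :
    (∏ p ∈ A, p) * (∏ p ∈ m.primeFactors \ A, p) = m := by
  rw [mul_comm, Finset.prod_sdiff hA, Nat.prod_primeFactors_of_squarefree hm]

end Pool.Agent.M20.Helper88.KS
end

/- Helper53.KN.Helper18.KL.Pairs -/
section
/-! Project KS: pairs `(n, n')`, `n' ∣ n`, in two cells. -/

set_option autoImplicit false
set_option linter.all false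
open scoped Classical
open Finset

namespace Pool.Agent.M20.Helper18.KL

open Pool.Agent.M20.Helper16.KS

/-- pairs in two cells with large quotient -/
noncomputable def PP (d : ℝ) (k j k' j' : ℕ) (L : ℝ) : Finset (ℕ × ℕ) :=
  (cell d k j ×ˢ cell d k' j').filter (fun y => y.2 ∣ y.1 ∧ L ≤ ((y.1 / y.2 : ℕ) : ℝ))

theorem mem_PP {d : ℝ} {k j k' j' : ℕ} {L : ℝ} {y : ℕ × ℕ} :
    y ∈ PP d k j k' j' L ↔ y.1 ∈ cell d k j ∧ y.2 ∈ cell d k' j' ∧ y.2 ∣ y.1 ∧ L ≤ ((y.1 / y.2 : ℕ) : ℝ) := by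
  unfold PP
  rw [Finset.mem_filter, Finset.mem_product]
  tauto

theorem card_cell (d : ℝ) (k j : ℕ) : (cell d k j).card = 2 ^ ec d k := by
  rw [Pool.Agent.M20.Helper88.KS.cell_eq, Nat.card_Ico, Nat.add_sub_cancel_left]

/-- candidates first -/
theorem pairs_ii {d : ℝ} {k j k' j' : ℕ} (L : ℝ) :
    ((PP d k j k' j' L).card : ℝ) ≤ (2 : ℝ) ^ ec d k' * ((2 : ℝ) ^ ec d k / 2 ^ k' + 1) := by
  set M : ℕ := ⌊(2 : ℝ) ^ ec d k / 2 ^ k' + 1⌋₊ with hM
  have hMr : (M : ℝ) ≤ (2 : ℝ) ^ ec d k / 2 ^ k' + 1 := Nat.floor_le (by (clear * -; positivity))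
  have h1 : (PP d k j k' j' L).card ≤ M * (cell d k' j').card := by
    refine Finset.card_le_mul_card_image_of_maps_to (f := fun y : ℕ × ℕ => y.2) ?_ M ?_
    · intro y hy
      exact (mem_PP.1 hy).2.1
    · intro n' hn'
      have hn'1 : 2 ^ k' ≤ n' := cell_ge hn'
      have hn'0 : 0 < n' := by
        have : 0 < 2 ^ k' := by positivity
        omega
      have h2 : ((PP d k j k' j' L).filter (fun y : ℕ × ℕ => y.2 = n')).card ≤
          ((cell d k j).filter (fun n => n' ∣ n)).card := by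
        refine Finset.card_le_card_of_injOn (fun y => y.1) ?_ ?_
        · intro y hy
          rw [Finset.mem_coe, Finset.mem_filter] at hy
          have := mem_PP.1 hy.1
          rw [Finset.mem_coe, Finset.mem_filter]
          refine ⟨this.1, ?_⟩
          rw [← hy.2]; exact this.2.2.1
        · intro y hy y' hy' hyy
          rw [Finset.mem_coe, Finset.mem_filter] at hy hy'
          exact Prod.ext hyy (hy.2.trans hy'.2.symm)
      refine h2.trans (Nat.le_floor ?_)
      rw [Pool.Agent.M20.Helper88.KS.cell_eq]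
      refine (Pool.Agent.M20.Helper88.KS.card_mult_le _ _ _ hn'0).trans ?_
      push_cast
      have h3 : ((2 : ℝ) ^ ec d k) / n' ≤ (2 : ℝ) ^ ec d k / 2 ^ k' := by
        refine div_le_div_of_nonneg_left (by positivity) (by positivity) ?_
        exact_mod_cast hn'1
      (clear * - h3; linarith)
  rw [card_cell] at h1
  calc ((PP d k j k' j' L).card : ℝ) ≤ (M : ℝ) * ((2 ^ ec d k' : ℕ) : ℝ) := by exact_mod_cast h1
    _ ≤ ((2 : ℝ) ^ ec d k / 2 ^ k' + 1) * ((2 ^ ec d k' : ℕ) : ℝ) :=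
      mul_le_mul_of_nonneg_right hMr (Nat.cast_nonneg _)
    _ = _ := by push_cast; ring

/-- cofactors first -/
theorem pairs_i {d : ℝ} (hd : 0 < d) {k j k' j' : ℕ} (hj : j < nc d k) (hj' : j' < nc d k') (L : ℝ) :
    ((PP d k j k' j' L).card : ℝ) ≤
      ((2 : ℝ) ^ ec d k / 2 ^ k' + 2 ^ (k + 1) * 2 ^ ec d k' / (2 ^ k') ^ 2 + 1) *
        ((2 : ℝ) ^ ec d k * 2 ^ (k' + 1) / 2 ^ k + 1) := by
  set E : ℝ := (2 : ℝ) ^ ec d k with hE
  set E' : ℝ := (2 : ℝ) ^ ec d k' with hE'
  have hE0 : 0 < E := by positivity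
  have hE'0 : 0 < E' := by positivity
  set M : ℕ := ⌊E * 2 ^ (k' + 1) / 2 ^ k + 1⌋₊ with hM
  have hMr : (M : ℝ) ≤ E * 2 ^ (k' + 1) / 2 ^ k + 1 := Nat.floor_le (by positivity)
  set x0 : ℕ := 2 ^ k + j * 2 ^ ec d k with hx0
  set x0' : ℕ := 2 ^ k' + j' * 2 ^ ec d k' with hx0'
  have hx0k : 2 ^ k ≤ x0 := Nat.le_add_right _ _
  have hx0'k : 2 ^ k' ≤ x0' := Nat.le_add_right _ _
  have hx0lt : x0 ≤ 2 ^ (k + 1) := by
    have hmem : x0 ∈ cell d k j := by
      rw [Pool.Agent.M20.Helper88.KS.cell_eq, Finset.mem_Ico]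
      have : 0 < 2 ^ ec d k := by positivity
      omega
    exact (cell_lt hd hj hmem).le
  set α : ℝ := (x0 : ℝ) / (x0' + E') with hα
  set β : ℝ := ((x0 : ℝ) + E) / x0' with hβ
  have hx0'r : (2 : ℝ) ^ k' ≤ x0' := by exact_mod_cast hx0'k
  have hx0'p : (0 : ℝ) < x0' := lt_of_lt_of_le (by positivity) hx0'r
  have hx0r : (x0 : ℝ) ≤ 2 ^ (k + 1) := by exact_mod_cast hx0lt
  have hx0n : (0 : ℝ) ≤ x0 := Nat.cast_nonneg _
  -- the cofactors
  have hmemP : ∀ y ∈ PP d k j k' j' L, 0 < y.2 ∧ y.1 = y.2 * (y.1 / y.2) ∧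
      α ≤ ((y.1 / y.2 : ℕ) : ℝ) ∧ ((y.1 / y.2 : ℕ) : ℝ) ≤ β ∧ 2 ^ k ≤ y.1 ∧ y.2 < 2 ^ (k' + 1) := by
    intro y hy
    rw [mem_PP] at hy
    obtain ⟨h1, h2, h3, _⟩ := hy
    have g1 := cell_ge h1
    have g2 := cell_ge h2
    have g3 := cell_lt hd hj' h2
    have hy2 : 0 < y.2 := by
      have : 0 < 2 ^ k' := by positivity
      omega
    have e1 : y.1 = y.2 * (y.1 / y.2) := (Nat.mul_div_cancel' h3).symm
    rw [Pool.Agent.M20.Helper88.KS.cell_eq, Finset.mem_Ico] at h1 h2
    have r1 : (x0 : ℝ) ≤ y.1 := by exact_mod_cast h1.1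
    have r2 : (y.1 : ℝ) ≤ x0 + E := by
      have : (y.1 : ℝ) ≤ ((x0 + 2 ^ ec d k : ℕ) : ℝ) := by exact_mod_cast h1.2.le
      push_cast at this
      exact this
    have r3 : (x0' : ℝ) ≤ y.2 := by exact_mod_cast h2.1
    have r4 : (y.2 : ℝ) ≤ x0' + E' := by
      have : (y.2 : ℝ) ≤ ((x0' + 2 ^ ec d k' : ℕ) : ℝ) := by exact_mod_cast h2.2.le
      push_cast at this
      exact this
    have e2 : (y.1 : ℝ) = (y.2 : ℝ) * ((y.1 / y.2 : ℕ) : ℝ) := by exact_mod_cast e1
    have hl0 : (0 : ℝ) ≤ ((y.1 / y.2 : ℕ) : ℝ) := Nat.cast_nonneg _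
    refine ⟨hy2, e1, ?_, ?_, g1, g3⟩
    · rw [hα, div_le_iff₀ (by (clear * -; positivity))]
      calc (x0 : ℝ) ≤ y.1 := r1
        _ = (y.2 : ℝ) * ((y.1 / y.2 : ℕ) : ℝ) := e2
        _ ≤ (x0' + E') * ((y.1 / y.2 : ℕ) : ℝ) := mul_le_mul_of_nonneg_right r4 hl0
        _ = _ := by ring
    · rw [hβ, le_div_iff₀ hx0'p]
      calc ((y.1 / y.2 : ℕ) : ℝ) * x0' ≤ ((y.1 / y.2 : ℕ) : ℝ) * y.2 := mul_le_mul_of_nonneg_left r3 hl0
        _ = y.1 := by rw [mul_comm, ← e2]
        _ ≤ _ := r2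
  have h1 : (PP d k j k' j' L).card ≤ M * (Icc ⌈α⌉₊ ⌊β⌋₊).card := by
    refine Finset.card_le_mul_card_image_of_maps_to (f := fun y : ℕ × ℕ => y.1 / y.2) ?_ M ?_
    · intro y hy
      have := hmemP y hy
      rw [Finset.mem_Icc]
      exact ⟨Nat.ceil_le.2 this.2.2.1, Nat.le_floor this.2.2.2.1⟩
    · intro l _
      rcases Finset.eq_empty_or_nonempty ((PP d k j k' j' L).filter (fun y : ℕ × ℕ => y.1 / y.2 = l)) with he | ⟨z, hz⟩
      · rw [he]; simp
      rw [Finset.mem_filter] at hz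
      have hz1 := hmemP z hz.1
      have hl1 : 2 ^ k ≤ 2 ^ (k' + 1) * l := by
        calc 2 ^ k ≤ z.1 := hz1.2.2.2.2.1
          _ = z.2 * (z.1 / z.2) := hz1.2.1
          _ = z.2 * l := by rw [hz.2]
          _ ≤ 2 ^ (k' + 1) * l := Nat.mul_le_mul_right _ hz1.2.2.2.2.2.le
      have hl0 : 0 < l := by
        rcases Nat.eq_zero_or_pos l with h | h
        · rw [h, mul_zero] at hl1
          have : 0 < 2 ^ k := by positivity
          omega
        · exact h
      have h2 : ((PP d k j k' j' L).filter (fun y : ℕ × ℕ => y.1 / y.2 = l)).card ≤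
          ((cell d k j).filter (fun n => l ∣ n)).card := by
        refine Finset.card_le_card_of_injOn (fun y => y.1) ?_ ?_
        · intro y hy
          rw [Finset.mem_coe, Finset.mem_filter] at hy
          have hy1 := mem_PP.1 hy.1
          have hy2 := hmemP y hy.1
          rw [Finset.mem_coe, Finset.mem_filter]
          refine ⟨hy1.1, ?_⟩
          rw [← hy.2]; exact Nat.div_dvd_of_dvd hy1.2.2.1
        · intro y hy y' hy' hyy
          rw [Finset.mem_coe, Finset.mem_filter] at hy hy'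
          have hy2 := hmemP y hy.1
          have hy2' := hmemP y' hy'.1
          simp only at hyy
          refine Prod.ext hyy ?_
          have e1 : y.1 = y.2 * l := by conv_lhs => rw [hy2.2.1, hy.2]
          have e2 : y'.1 = y'.2 * l := by conv_lhs => rw [hy2'.2.1, hy'.2]
          rw [e1, e2] at hyy
          exact Nat.eq_of_mul_eq_mul_right hl0 hyy
      refine h2.trans (Nat.le_floor ?_)
      rw [Pool.Agent.M20.Helper88.KS.cell_eq]
      refine (Pool.Agent.M20.Helper88.KS.card_mult_le _ _ _ hl0).trans ?_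
      push_cast
      rw [← hE]
      have hl1r : (2 : ℝ) ^ k ≤ 2 ^ (k' + 1) * l := by exact_mod_cast hl1
      have hlr : (0 : ℝ) < l := by exact_mod_cast hl0
      have h3 : E / l ≤ E * 2 ^ (k' + 1) / 2 ^ k := by
        rw [div_le_div_iff₀ hlr (by positivity)]
        calc E * 2 ^ k ≤ E * (2 ^ (k' + 1) * l) := mul_le_mul_of_nonneg_left hl1r hE0.le
          _ = _ := by ring
      (clear * - h3; linarith)
  have h2 : ((Icc ⌈α⌉₊ ⌊β⌋₊).card : ℝ) ≤ β - α + 1 := by
    have hα0 : 0 ≤ α := by (clear * -; positivity)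
    have hβ0 : 0 ≤ β := by (clear * -; positivity)
    have hαβ : α ≤ β := by
      rw [hα, hβ, div_le_div_iff₀ (by (clear * -; positivity)) hx0'p]
      (clear * - hE'0 hE0; nlinarith)
    rw [Nat.card_Icc]
    rcases le_or_gt ⌈α⌉₊ (⌊β⌋₊ + 1) with h | h
    · rw [Nat.cast_sub h]
      push_cast
      have a1 := Nat.le_ceil α
      have a2 := Nat.floor_le hβ0
      (clear * - a1 a2; linarith)
    · have : ⌊β⌋₊ + 1 - ⌈α⌉₊ = 0 := by omega
      rw [this]
      push_cast
      (clear * - hαβ; linarith)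
  have h3 : β - α ≤ E / 2 ^ k' + 2 ^ (k + 1) * E' / (2 ^ k') ^ 2 := by
    have e1 : β - α = E / x0' + (x0 : ℝ) * E' / (x0' * (x0' + E')) := by
      rw [hα, hβ]
      field_simp
      ring
    rw [e1]
    refine add_le_add ?_ ?_
    · exact div_le_div_of_nonneg_left hE0.le (by positivity) hx0'r
    · refine div_le_div₀ (by positivity) (mul_le_mul_of_nonneg_right hx0r hE'0.le) (by positivity) ?_
      rw [sq]
      refine mul_le_mul hx0'r (by (clear * - hE'0 hx0'r; linarith)) (by positivity) (by (clear * -; positivity))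
  calc ((PP d k j k' j' L).card : ℝ) ≤ (M : ℝ) * ((Icc ⌈α⌉₊ ⌊β⌋₊).card : ℝ) := by exact_mod_cast h1
    _ ≤ (E * 2 ^ (k' + 1) / 2 ^ k + 1) * (E / 2 ^ k' + 2 ^ (k + 1) * E' / (2 ^ k') ^ 2 + 1) := by
      refine mul_le_mul hMr (by (clear * - h2 h3; linarith)) (Nat.cast_nonneg _) (by positivity)
    _ = _ := by ring

/-- the final count for one cell of block `k'` -/
theorem pairs_bound {d : ℝ} (hd : 0 < d) (hd1 : d ≤ 1 / 1000) {k j k' j' : ℕ} (hj : j < nc d k) (hj' : j' < nc d k')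
    {u c : ℝ} (hu0 : 0 ≤ u) (hu : u ≤ 0.22) (hc0 : 0 < c) (hc : c ≤ 1 / 100) :
    (2 : ℝ) ^ (u * k') * ((PP d k j k' j' ((2 : ℝ) ^ ((u + c) * k'))).card : ℝ) ≤
      24 * (2 : ℝ) ^ ec d k * (2 : ℝ) ^ ((2 * d - c) * k') := by
  set E : ℝ := (2 : ℝ) ^ ec d k with hE
  have hE0 : 0 < E := by positivity
  have hE1 := Pool.Agent.M20.Helper88.KS.ec_real_le d (by (clear * - hd hd1; linarith)) k
  have hE2 := Pool.Agent.M20.Helper88.KS.ec_real_ge d k
  have hE'1 := Pool.Agent.M20.Helper88.KS.ec_real_le d (by (clear * - hd hd1; linarith)) k'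
  rw [← hE] at hE1 hE2
  set r : ℝ := (k : ℝ) with hr
  set r' : ℝ := (k' : ℝ) with hr'
  have hr0 : 0 ≤ r := Nat.cast_nonneg k
  have hr'0 : 0 ≤ r' := Nat.cast_nonneg k'
  have p1 : (2 : ℝ) ^ k = (2 : ℝ) ^ r := (Real.rpow_natCast _ _).symm
  have p2 : (2 : ℝ) ^ k' = (2 : ℝ) ^ r' := (Real.rpow_natCast _ _).symm
  rcases Finset.eq_empty_or_nonempty (PP d k j k' j' ((2 : ℝ) ^ ((u + c) * r'))) with he | ⟨z, hz⟩
  · rw [he, Finset.card_empty, Nat.cast_zero, mul_zero]
    positivity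
  -- the exponents
  have hLe : (u + c) * r' ≤ r - r' + 1 := by
    have h1 := mem_PP.1 hz
    have g1 := cell_lt hd hj h1.1
    have g2 := cell_ge h1.2.1
    have h2 : ((z.1 / z.2 : ℕ) : ℝ) ≤ (z.1 : ℝ) / z.2 := Nat.cast_div_le
    have h3 : (z.1 : ℝ) / z.2 ≤ (2 : ℝ) ^ (r + 1) / (2 : ℝ) ^ r' := by
      have a1 : (z.1 : ℝ) ≤ (2 : ℝ) ^ (r + 1) := by
        have : (z.1 : ℝ) ≤ ((2 ^ (k + 1) : ℕ) : ℝ) := by exact_mod_cast g1.le
        push_cast at this
        rwa [← Real.rpow_natCast, Nat.cast_add, Nat.cast_one] at this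
      have a2 : (2 : ℝ) ^ r' ≤ z.2 := by
        rw [← p2]; exact_mod_cast g2
      exact div_le_div₀ (by positivity) a1 (by positivity) a2
    have h4 := (h1.2.2.2.trans h2).trans h3
    rw [← Real.rpow_sub (by norm_num), Real.rpow_le_rpow_left_iff (by norm_num)] at h4
    (clear * - h4; linarith)
  rcases le_or_gt (2 * r') r with hcase | hcase
  · -- candidates first
    have h1 := pairs_ii (d := d) (k := k) (j := j) (k' := k') (j' := j') ((2 : ℝ) ^ ((u + c) * r'))
    rw [← hE] at h1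
    have hinv : 1 ≤ E * (2 : ℝ) ^ (1 - (1 / 2 - d) * r) := by
      calc (1 : ℝ) = (2 : ℝ) ^ ((1 / 2 - d) * r - 1) * (2 : ℝ) ^ (1 - (1 / 2 - d) * r) := by
            rw [← Real.rpow_add (by norm_num)]
            norm_num
        _ ≤ _ := mul_le_mul_of_nonneg_right hE2 (by positivity)
    have h2 : E / 2 ^ k' + 1 ≤ E * ((2 : ℝ) ^ (-r') + (2 : ℝ) ^ (1 - (1 / 2 - d) * r)) := by
      rw [mul_add]
      refine add_le_add (le_of_eq ?_) hinv
      rw [p2, Real.rpow_neg (by norm_num)]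
      rfl
    have h3 : (2 : ℝ) ^ (-r') + (2 : ℝ) ^ (1 - (1 / 2 - d) * r) ≤ 3 * (2 : ℝ) ^ (-r' + 2 * d * r') := by
      have a1 : (2 : ℝ) ^ (-r') ≤ (2 : ℝ) ^ (-r' + 2 * d * r') :=
        Real.rpow_le_rpow_of_exponent_le (by norm_num)
          (le_add_of_nonneg_right (mul_nonneg (mul_nonneg zero_le_two hd.le) hr'0))
      have a2 : (2 : ℝ) ^ (1 - (1 / 2 - d) * r) ≤ 2 * (2 : ℝ) ^ (-r' + 2 * d * r') := by
        rw [Real.rpow_sub (by norm_num), Real.rpow_one, div_eq_mul_inv, ← Real.rpow_neg (by norm_num)]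
        refine mul_le_mul_of_nonneg_left ?_ (by norm_num)
        refine Real.rpow_le_rpow_of_exponent_le (by norm_num) ?_
        (clear * - hcase hd1; nlinarith)
      (clear * - a1 a2; linarith)
    calc (2 : ℝ) ^ (u * r') * ((PP d k j k' j' ((2 : ℝ) ^ ((u + c) * r'))).card : ℝ)
        ≤ (2 : ℝ) ^ (u * r') * ((2 : ℝ) ^ ((1 / 2 - d) * r') * (E * (3 * (2 : ℝ) ^ (-r' + 2 * d * r')))) := by
          refine mul_le_mul_of_nonneg_left (h1.trans ?_) (by positivity)
          refine mul_le_mul hE'1 ?_ (by positivity) (by positivity)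
          exact h2.trans (mul_le_mul_of_nonneg_left h3 hE0.le)
      _ = 3 * E * ((2 : ℝ) ^ (u * r' + (1 / 2 - d) * r' + (-r' + 2 * d * r'))) := by
          have e0 : (2 : ℝ) ^ (u * r' + (1 / 2 - d) * r' + (-r' + 2 * d * r')) =
              (2 : ℝ) ^ (u * r') * (2 : ℝ) ^ ((1 / 2 - d) * r') * (2 : ℝ) ^ (-r' + 2 * d * r') := by
            rw [← Real.rpow_add (by norm_num), ← Real.rpow_add (by norm_num)]
          rw [e0]
          ring
      _ ≤ 24 * E * (2 : ℝ) ^ ((2 * d - c) * r') := by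
          have a1 : (2 : ℝ) ^ (u * r' + (1 / 2 - d) * r' + (-r' + 2 * d * r')) ≤ (2 : ℝ) ^ ((2 * d - c) * r') := by
            refine Real.rpow_le_rpow_of_exponent_le (by norm_num) ?_
            have : (u + 1 / 2 - 1 + c - d) * r' ≤ 0 := by
              have h5 : u + 1 / 2 - 1 + c - d ≤ 0 := by norm_num at hu; (clear * - hd hd1 hc hu; linarith)
              exact mul_nonpos_of_nonpos_of_nonneg h5 hr'0
            (clear * - this; linarith)
          have a2 : 0 < (2 : ℝ) ^ ((2 * d - c) * r') := by positivity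
          (clear * - hd hd1 hE0 a1 a2; nlinarith)
  · -- cofactors first
    have h1 := pairs_i hd hj hj' ((2 : ℝ) ^ ((u + c) * r'))
    rw [← hE] at h1
    have b1 : E / 2 ^ k' ≤ 1 := by
      rw [p2, div_le_one (by positivity)]
      refine hE1.trans (Real.rpow_le_rpow_of_exponent_le (by norm_num) ?_)
      have hdr := mul_nonneg hd.le hr0
      (clear * - hdr hcase; linarith)
    have b2 : (2 : ℝ) ^ (k + 1) * 2 ^ ec d k' / (2 ^ k') ^ 2 ≤ (2 : ℝ) ^ (r + 1 - 3 / 2 * r') := by
      have e1 : (2 : ℝ) ^ (k + 1) = (2 : ℝ) ^ (r + 1) := by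
        rw [← Real.rpow_natCast]; push_cast; rfl
      have e2 : ((2 : ℝ) ^ k') ^ 2 = (2 : ℝ) ^ (2 * r') := by
        rw [p2, ← Real.rpow_natCast, ← Real.rpow_mul (by norm_num)]
        congr 1
        push_cast
        ring
      rw [e1, e2, div_le_iff₀ (by positivity), ← Real.rpow_add (by norm_num)]
      calc (2 : ℝ) ^ (r + 1) * 2 ^ ec d k' ≤ (2 : ℝ) ^ (r + 1) * (2 : ℝ) ^ ((1 / 2 - d) * r') :=
            mul_le_mul_of_nonneg_left hE'1 (by positivity)
        _ = (2 : ℝ) ^ (r + 1 + (1 / 2 - d) * r') := (Real.rpow_add (by norm_num) _ _).symm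
        _ ≤ _ := Real.rpow_le_rpow_of_exponent_le (by norm_num)
            (by have hdr := mul_nonneg hd.le hr'0; (clear * - hdr; linarith))
    have hinv : 1 ≤ E * (2 : ℝ) ^ (1 - (1 / 2 - d) * r) := by
      calc (1 : ℝ) = (2 : ℝ) ^ ((1 / 2 - d) * r - 1) * (2 : ℝ) ^ (1 - (1 / 2 - d) * r) := by
            rw [← Real.rpow_add (by norm_num)]
            norm_num
        _ ≤ _ := mul_le_mul_of_nonneg_right hE2 (by positivity)
    have b3 : E * 2 ^ (k' + 1) / 2 ^ k + 1 ≤ 4 * E * (2 : ℝ) ^ (r' - r + 2 * d * r') := by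
      have e1 : E * 2 ^ (k' + 1) / 2 ^ k = 2 * E * (2 : ℝ) ^ (r' - r) := by
        rw [pow_succ, p1, p2, Real.rpow_sub (by norm_num)]
        ring
      have e2 : (2 : ℝ) ^ (r' - r) ≤ (2 : ℝ) ^ (r' - r + 2 * d * r') :=
        Real.rpow_le_rpow_of_exponent_le (by norm_num)
          (le_add_of_nonneg_right (mul_nonneg (mul_nonneg zero_le_two hd.le) hr'0))
      have e3 : (2 : ℝ) ^ (1 - (1 / 2 - d) * r) ≤ 2 * (2 : ℝ) ^ (r' - r + 2 * d * r') := by
        rw [Real.rpow_sub (by norm_num), Real.rpow_one, div_eq_mul_inv, ← Real.rpow_neg (by norm_num)]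
        refine mul_le_mul_of_nonneg_left ?_ (by norm_num)
        refine Real.rpow_le_rpow_of_exponent_le (by norm_num) ?_
        (clear * - hcase hd; nlinarith)
      rw [e1]
      (clear * - hinv hd hd1 hE0 e2 e3; nlinarith)
    calc (2 : ℝ) ^ (u * r') * ((PP d k j k' j' ((2 : ℝ) ^ ((u + c) * r'))).card : ℝ)
        ≤ (2 : ℝ) ^ (u * r') * ((2 + (2 : ℝ) ^ (r + 1 - 3 / 2 * r')) * (4 * E * (2 : ℝ) ^ (r' - r + 2 * d * r'))) := by
          refine mul_le_mul_of_nonneg_left (h1.trans ?_) (by positivity)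
          refine mul_le_mul (by (clear * - b1 b2; linarith)) b3 (by positivity) (by positivity)
      _ = 8 * E * ((2 : ℝ) ^ (u * r' + (r' - r + 2 * d * r')) +
            (2 : ℝ) ^ (u * r' + (r - 3 / 2 * r') + (r' - r + 2 * d * r'))) := by
          rw [Real.rpow_add (by norm_num) (u * r' + (r - 3 / 2 * r')), Real.rpow_add (by norm_num) (u * r'),
            Real.rpow_add (by norm_num) (u * r'),
            show r + 1 - 3 / 2 * r' = 1 + (r - 3 / 2 * r') by ring, Real.rpow_add (by norm_num) 1, Real.rpow_one]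
          ring
      _ ≤ 8 * E * (2 * (2 : ℝ) ^ ((2 * d - c) * r') + (2 : ℝ) ^ ((2 * d - c) * r')) := by
          refine mul_le_mul_of_nonneg_left (add_le_add ?_ ?_) (by positivity)
          · calc (2 : ℝ) ^ (u * r' + (r' - r + 2 * d * r')) ≤ (2 : ℝ) ^ (1 + (2 * d - c) * r') :=
                Real.rpow_le_rpow_of_exponent_le (by norm_num) (by (clear * - hLe; nlinarith))
              _ = 2 * (2 : ℝ) ^ ((2 * d - c) * r') := by
                rw [Real.rpow_add (by norm_num), Real.rpow_one]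
          · refine Real.rpow_le_rpow_of_exponent_le (by norm_num) ?_
            have h5 : u - 1 / 2 + c ≤ 0 := by norm_num at hu; (clear * - hd hd1 hc hu; linarith)
            have h6 := mul_nonpos_of_nonpos_of_nonneg h5 hr'0
            (clear * - h6; linarith)
      _ = 24 * E * (2 : ℝ) ^ ((2 * d - c) * r') := by ring

end Pool.Agent.M20.Helper18.KL
end

/- Helper53.KN.Helper18.KL.LL -/
section
/-! Project KS: direct terms with a large cofactor. -/

set_option autoImplicit false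
open scoped Classical
open Finset Filter Topology

namespace Pool.Agent.M20.Helper18.KL

open Pool.Agent.M20.Helper16.KS

theorem sig_mul_squarefree {A : Finset ℕ} {m l : ℕ} (hm : Squarefree m) (hml : m ∣ l) (hl : l ≠ 0)
    (hdis : ∀ p : ℕ, p.Prime → p ∣ m → p ∉ A) : sig (A ∪ m.primeFactors) l = m * sig A l := by
  have hm0 : m ≠ 0 := hm.ne_zero
  have hsub : m.primeFactors ⊆ l.primeFactors := Nat.primeFactors_mono hml hl
  have h1 : m = ∏ p ∈ l.primeFactors, if p ∈ m.primeFactors then p else 1 := by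
    conv_lhs => rw [← Nat.prod_primeFactors_of_squarefree hm]
    rw [← Finset.prod_filter]
    refine Finset.prod_congr ?_ fun _ _ => rfl
    ext p
    rw [Finset.mem_filter]
    exact ⟨fun h => ⟨hsub h, h⟩, fun h => h.2⟩
  have h2 : m * sig A l = (∏ p ∈ l.primeFactors, if p ∈ m.primeFactors then p else 1) * sig A l := by
    rw [← h1]
  rw [h2]
  unfold sig
  rw [← Finset.prod_mul_distrib]
  refine Finset.prod_congr rfl fun p hp => ?_
  have hpp := Nat.prime_of_mem_primeFactors hp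
  have hv : 1 ≤ l.factorization p := hpp.factorization_pos_of_dvd hl (Nat.dvd_of_mem_primeFactors hp)
  by_cases hpm : p ∈ m.primeFactors
  · have hpA : p ∉ A := hdis p hpp (Nat.dvd_of_mem_primeFactors hpm)
    rw [if_pos (Finset.mem_union_right _ hpm), if_pos hpm, if_neg hpA, ← pow_succ']
    congr 1
    omega
  · rw [if_neg hpm, one_mul]
    by_cases hpA : p ∈ A
    · rw [if_pos (Finset.mem_union_left _ hpA), if_pos hpA]
    · rw [if_neg (by rw [Finset.mem_union]; tauto), if_neg hpA]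

theorem sig_mono (A : Finset ℕ) {l n : ℕ} (hl : l ∣ n) (hn : n ≠ 0) : sig A l ≤ sig A n := by
  have hl0 : l ≠ 0 := by rintro rfl; exact hn (Nat.eq_zero_of_zero_dvd hl)
  have hsub : l.primeFactors ⊆ n.primeFactors := Nat.primeFactors_mono hl hn
  unfold sig
  have h1 : ∏ p ∈ l.primeFactors, (if p ∈ A then p ^ l.factorization p else p ^ (l.factorization p - 1)) ≤
      ∏ p ∈ l.primeFactors, (if p ∈ A then p ^ n.factorization p else p ^ (n.factorization p - 1)) := by
    refine Finset.prod_le_prod' fun p hp => ?_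
    have hpp := Nat.prime_of_mem_primeFactors hp
    have hv : l.factorization p ≤ n.factorization p := (Nat.factorization_le_iff_dvd hl0 hn).2 hl p
    split_ifs
    · exact Nat.pow_le_pow_right hpp.pos hv
    · exact Nat.pow_le_pow_right hpp.pos (by omega)
  refine h1.trans (Finset.prod_le_prod_of_subset_of_one_le' hsub fun p hp _ => ?_)
  have hpp := Nat.prime_of_mem_primeFactors hp
  split_ifs <;> exact Nat.one_le_pow _ _ hpp.pos

theorem mA_eq_one {A : Finset ℕ} {m : ℕ} (hdis : ∀ p : ℕ, p.Prime → p ∣ m → p ∉ A) : mA A m = 1 := by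
  unfold mA
  have : m.primeFactors ∩ A = ∅ := by
    rw [Finset.eq_empty_iff_forall_notMem]
    intro p hp
    rw [Finset.mem_inter] at hp
    exact hdis p (Nat.prime_of_mem_primeFactors hp.1) (Nat.dvd_of_mem_primeFactors hp.1) hp.2
  rw [this, Finset.prod_empty]

theorem tw_le (S : Sys) {A : Finset ℕ} {m l n : ℕ} (hm : Squarefree m) (hml : m ∣ l) (hln : l ∣ n) (hn : n ≠ 0)
    (hdis : ∀ p : ℕ, p.Prime → p ∣ m → p ∉ A) : tw S A m l ≤ (sig A n : ℝ) ^ S.hh := by
  have hl0 : l ≠ 0 := by rintro rfl; exact hn (Nat.eq_zero_of_zero_dvd hln)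
  have hm0 : (m : ℝ) ≠ 0 := by exact_mod_cast hm.ne_zero
  unfold tw
  rw [mA_eq_one hdis, sig_mul_squarefree hm hml hl0 hdis]
  refine Real.rpow_le_rpow (by (clear * - hm0; positivity)) ?_ (hh_le S).2.1.le
  push_cast
  have : (1 : ℝ) / m * (m * (sig A l : ℝ)) = sig A l := by (clear * - hm0; field_simp)
  rw [this]
  exact_mod_cast sig_mono A hln hn

theorem card_divisors_le {n : ℕ} (hn : n ≠ 0) : (n.divisors.card : ℝ) ≤ 2 ^ n.primeFactorsList.length := by
  rw [Nat.card_divisors hn, ← CM_const, CM_eq_prod]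
  push_cast
  refine Finset.prod_le_prod (fun _ _ => by (clear * -; positivity)) fun p _ => ?_
  have : n.factorization p + 1 ≤ 2 ^ n.factorization p := Nat.lt_two_pow_self
  exact_mod_cast this

theorem lin_le_rpow (ρ C : ℝ) (hρ : 0 < ρ) : ∃ K1 : ℕ, ∀ k : ℕ, K1 ≤ k → C * ((k : ℝ) + 1) ≤ (2 : ℝ) ^ (ρ * k) := by
  have hr : 1 < (2 : ℝ) ^ ρ := Real.one_lt_rpow (by norm_num) hρ
  have h1 := tendsto_pow_const_div_const_pow_of_one_lt 1 hr
  have h2 : Tendsto (fun n : ℕ => (2 * |C| + 1) * ((n : ℝ) ^ 1 / ((2 : ℝ) ^ ρ) ^ n)) atTop (𝓝 0) := by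
    simpa using h1.const_mul (2 * |C| + 1)
  have h3 := (h2.eventually (gt_mem_nhds (show (0 : ℝ) < 1 by norm_num))).and (eventually_ge_atTop 1)
  obtain ⟨K1, hK1⟩ := eventually_atTop.1 h3
  refine ⟨K1, fun k hk => ?_⟩
  obtain ⟨h4, h5⟩ := hK1 k hk
  have hk1 : (1 : ℝ) ≤ k := by exact_mod_cast h5
  have h6 : 0 < ((2 : ℝ) ^ ρ) ^ k := by positivity
  rw [pow_one, ← mul_div_assoc, div_lt_one h6] at h4
  have h7 : ((2 : ℝ) ^ ρ) ^ k = (2 : ℝ) ^ (ρ * k) := by
    rw [← Real.rpow_natCast, ← Real.rpow_mul (by norm_num)]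
  rw [← h7]
  have h8 : C ≤ |C| := le_abs_self C
  have h9 : 0 ≤ |C| := abs_nonneg C
  (clear * - h4 hk1 h8 h9; nlinarith)

/-- number of candidates dividing `n` -/
theorem cnt_x (S : Sys) {k' n : ℕ} (hk' : S.K ≤ k') (hn : n ≠ 0) :
    ∑ j' ∈ S.badc k', (((S.Cand k' j').filter (fun x => x.1 * x.2 ∣ n)).card : ℝ) ≤ 2 ^ n.primeFactorsList.length := by
  refine le_trans ?_ (card_divisors_le hn)
  have h1 : ∑ j' ∈ S.badc k', ((S.Cand k' j').filter (fun x => x.1 * x.2 ∣ n)).card ≤ n.divisors.card := by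
    rw [← Finset.card_sigma]
    refine Finset.card_le_card_of_injOn (fun y => y.2.1 * y.2.2) ?_ ?_
    · intro y hy
      rw [Finset.mem_coe, Finset.mem_sigma, Finset.mem_filter] at hy
      rw [Finset.mem_coe, Nat.mem_divisors]
      exact ⟨hy.2.2, hn⟩
    · intro y hy z hz hyz
      rw [Finset.mem_coe, Finset.mem_sigma, Finset.mem_filter] at hy hz
      simp only at hyz
      have c1 := S.cand_facts hk' hy.1 hy.2.1
      have c2 := S.cand_facts hk' hz.1 hz.2.1
      have b1 := S.mem_badc.1 hy.1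
      have b2 := S.mem_badc.1 hz.1
      have e1 : z.1 = y.1 := by
        have := S.cell_disj (k := k') (k' := k') b1.1 b2.1 c1.2.2.2.2.1 (by rw [hyz]; exact c2.2.2.2.2.1)
        exact this.2
      obtain ⟨yj, yx⟩ := y
      obtain ⟨zj, zx⟩ := z
      simp only at e1 hyz hy hz
      subst e1
      have e2 := S.inj k' hk' _ b1.1 b1.2 yx hy.2.1 zx hz.2.1 hyz
      rw [e2]
  exact_mod_cast h1

/-- sum over the bad cells -/
theorem sum_badc (S : Sys) {k' : ℕ} (hk' : S.K ≤ k') (f : ℕ → ℝ) (M : ℝ) (hM : 0 ≤ M)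
    (hf : ∀ j' ∈ S.badc k', (2 : ℝ) ^ (S.u (S.cls k' j') * k') * f j' ≤ M) :
    ∑ j' ∈ S.badc k', f j' ≤ 3 * M := by
  have h1 : ∀ j' ∈ S.badc k', f j' ≤ M * (2 : ℝ) ^ (-(S.u (S.cls k' j') * k')) := by
    intro j' hj'
    have := hf j' hj'
    rw [Real.rpow_neg (by norm_num), ← div_eq_mul_inv, le_div_iff₀ (by positivity)]
    (clear * - this; linarith)
  refine (Finset.sum_le_sum h1).trans ?_
  rw [← Finset.mul_sum, mul_comm 3 M]
  refine mul_le_mul_of_nonneg_left ?_ hM
  rw [← Finset.sum_fiberwise (S.badc k') (fun j' => S.cls k' j')]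
  have h2 : ∀ i : Fin 3, ∑ j' ∈ (S.badc k').filter (fun j' => S.cls k' j' = i),
      (2 : ℝ) ^ (-(S.u (S.cls k' j') * k')) ≤ 1 := by
    intro i
    have h3 : ∑ j' ∈ (S.badc k').filter (fun j' => S.cls k' j' = i), (2 : ℝ) ^ (-(S.u (S.cls k' j') * k')) =
        (((S.badc k').filter (fun j' => S.cls k' j' = i)).card : ℝ) * (2 : ℝ) ^ (-(S.u i * k')) := by
      rw [← nsmul_eq_mul, ← Finset.sum_const]
      refine Finset.sum_congr rfl fun j' hj' => ?_
      rw [Finset.mem_filter] at hj'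
      rw [hj'.2]
    rw [h3, Real.rpow_neg (by norm_num), ← div_eq_mul_inv, div_le_one (by positivity)]
    have h4 := S.few k' hk' i
    unfold Sys.badc
    rw [Finset.filter_filter]
    exact h4
  refine (Finset.sum_le_sum fun i _ => h2 i).trans ?_
  simp

theorem ll : LL := by
  intro S
  obtain ⟨C, hC, hB⟩ := powB S S.eta S.eta_pos le_rfl
  set ρ : ℝ := S.ep / 100 with hρ
  have hρ0 : 0 < ρ := by have := S.ep_pos; (clear * - this; positivity)
  obtain ⟨K1, hK1⟩ := lin_le_rpow ρ (3 * (5 * C + 72)) hρ0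
  refine ⟨max (max (S.K + 5) K1) ⌈45 / ρ⌉₊, ?_⟩
  intro k0 hk0 k hk j hj A
  have hk0K : S.K + 5 ≤ k0 := ((le_max_left _ _).trans (le_max_left _ _)).trans hk0
  have hk0K1 : K1 ≤ k0 := ((le_max_right _ _).trans (le_max_left _ _)).trans hk0
  have hk0ρ : 45 / ρ ≤ k0 := by
    calc 45 / ρ ≤ (⌈45 / ρ⌉₊ : ℝ) := Nat.le_ceil _
      _ ≤ k0 := by exact_mod_cast (le_max_right _ _).trans hk0
  have hk01 : 1 ≤ k0 := by omega
  have hk0r : (0 : ℝ) < k0 := by exact_mod_cast hk01
  have hkr : (k0 : ℝ) ≤ k := by exact_mod_cast hk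
  exact by
    have hk1r : (1 : ℝ) ≤ k := by
      have : (1 : ℝ) ≤ k0 := by exact_mod_cast hk01
      (clear * - hkr this; linarith)
    have hk0ρ' : 45 ≤ ρ * k0 := by rw [div_le_iff₀ hρ0] at hk0ρ; (clear * - hk0ρ; linarith)
    have hep := S.ep_pos
    have hc := S.c_pos
    have hd := S.d_pos
    have heta := S.eta_pos
    have hhh := hh_le S
    set E : ℝ := (2 : ℝ) ^ ec S.d k with hE
    exact by
      have hE0 : 0 < E := by positivity
      -- is there a term at all
      by_cases hA : ∃ n ∈ (cell S.d k j).filter (Sys.rough k0), A ⊆ n.primeFactors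
      swap
      · clear * - hA K1; have h0 : LS S k0 k j (QL S A) A = 0 := by
          unfold LS
          refine Finset.sum_eq_zero fun n hn => Finset.sum_eq_zero fun k' _ => Finset.sum_eq_zero fun j' _ => ?_
          rw [Finset.filter_eq_empty_iff.2, Finset.sum_empty]
          rintro x _ ⟨hx1, hx2, hx3⟩
          refine hA ⟨n, hn, ?_⟩
          have hn0 : n ≠ 0 := by
            rw [Finset.mem_filter] at hn
            have := cell_ge hn.1
            have : 0 < 2 ^ k := by positivity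
            omega
          intro p hp
          have hp1 := hx3 hp
          rw [Finset.mem_union] at hp1
          rcases hp1 with hp1 | hp1
          · exact absurd hp (hx2.2 p (Nat.prime_of_mem_primeFactors hp1) (Nat.dvd_of_mem_primeFactors hp1))
          · exact Nat.primeFactors_mono (Nat.div_dvd_of_dvd hx1) hn0 hp1
        rw [h0]
        positivity
      obtain ⟨n0, hn0, hAn0⟩ := hA
      rw [Finset.mem_filter] at hn0
      have hn00 : n0 ≠ 0 := by
        have := cell_ge hn0.1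
        have : 0 < 2 ^ k := by positivity
        omega
      have hom : ∀ n ∈ (cell S.d k j).filter (Sys.rough k0), (n.primeFactorsList.length : ℝ) ≤ 5 * (k + 1) / k0 := by
        intro n hn
        rw [Finset.mem_filter] at hn
        have h1 := cell_ge hn.1
        have h2 : 0 < 2 ^ k := by positivity
        exact Sys.rough_omega_le hk01 (by omega) hn.2 (cell_lt S.d_pos hj hn.1)
      have hAcard : (A.card : ℝ) ≤ 5 * (k + 1) / k0 := by
        have h1 : A.card ≤ n0.primeFactorsList.length :=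
          (Finset.card_le_card hAn0).trans (List.toFinset_card_le _)
        refine le_trans (by exact_mod_cast h1) (hom n0 (Finset.mem_filter.2 hn0))
      set P0 : ℕ := ⌈(2 : ℝ) ^ ((k0 : ℝ) / 5)⌉₊ with hP0
      have hP0r : (2 : ℝ) ^ ((k0 : ℝ) / 5) ≤ P0 := Nat.le_ceil _
      have hP02 : 2 ≤ P0 := by
        have h1 : (2 : ℝ) ^ (1 : ℝ) ≤ (2 : ℝ) ^ ((k0 : ℝ) / 5) := by
          refine Real.rpow_le_rpow_of_exponent_le (by norm_num) ?_
          have : (5 : ℝ) ≤ k0 := by exact_mod_cast (by omega : 5 ≤ k0)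
          (clear * - this; linarith)
        rw [Real.rpow_one] at h1
        have : (2 : ℝ) ≤ P0 := h1.trans hP0r
        exact_mod_cast this
      have hAP : ∀ p ∈ A, p.Prime ∧ P0 ≤ p := by
        intro p hp
        have hp1 := hAn0 hp
        have hpp := Nat.prime_of_mem_primeFactors hp1
        refine ⟨hpp, Nat.ceil_le.2 ?_⟩
        exact hn0.2 p hpp (Nat.dvd_of_mem_primeFactors hp1)
      exact by
        set x0 : ℕ := 2 ^ k + j * 2 ^ ec S.d k with hx0
        have hx01 : 1 ≤ x0 := by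
          have : 0 < 2 ^ k := by positivity
          omega
        have hx0mem : x0 ∈ cell S.d k j := by
          rw [Pool.Agent.M20.Helper88.KS.cell_eq, Finset.mem_Ico]
          have : 0 < 2 ^ ec S.d k := by positivity
          omega
        have hx0lt : x0 < 2 ^ (k + 1) := cell_lt S.d_pos hj hx0mem
        have hlog : (Nat.log P0 (2 * x0) : ℝ) ≤ 5 * (k + 2) / k0 := by
          have h1 : P0 ^ Nat.log P0 (2 * x0) ≤ 2 * x0 := Nat.pow_log_le_self P0 (by omega)
          have h2 : (P0 : ℝ) ^ Nat.log P0 (2 * x0) ≤ (2 : ℝ) ^ ((k : ℝ) + 2) := by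
            have h3 : P0 ^ Nat.log P0 (2 * x0) ≤ 2 ^ (k + 2) := by
              refine h1.trans ?_
              calc 2 * x0 ≤ 2 * 2 ^ (k + 1) := by clear * - K1 k0 hx0lt; omega
                _ = 2 ^ (k + 2) := by ring
            have h4 : ((P0 ^ Nat.log P0 (2 * x0) : ℕ) : ℝ) ≤ ((2 ^ (k + 2) : ℕ) : ℝ) := by exact_mod_cast h3
            push_cast at h4
            rw [← Real.rpow_natCast 2 (k + 2)] at h4
            push_cast at h4
            exact h4
          have h5 : ((2 : ℝ) ^ ((k0 : ℝ) / 5)) ^ Nat.log P0 (2 * x0) ≤ (2 : ℝ) ^ ((k : ℝ) + 2) :=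
            (pow_le_pow_left₀ (by positivity) hP0r _).trans h2
          rw [← Real.rpow_natCast, ← Real.rpow_mul (by norm_num), Real.rpow_le_rpow_left_iff (by norm_num)] at h5
          rw [le_div_iff₀ hk0r]
          (clear * - h5; linarith)
        have hloss : (2 : ℝ) ^ (5 * ((k : ℝ) + 1) / k0) * 2 ^ (A.card + Nat.log P0 (2 * x0)) ≤ (2 : ℝ) ^ (ρ * k) := by
          rw [← Real.rpow_natCast 2 (A.card + _), ← Real.rpow_add (by norm_num)]
          refine Real.rpow_le_rpow_of_exponent_le (by norm_num) ?_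
          push_cast
          have h1 : 5 * ((k : ℝ) + 1) / k0 + (A.card + Nat.log P0 (2 * x0)) ≤ (5 * (k + 1) + 5 * (k + 1) + 5 * (k + 2)) / k0 := by
            rw [add_div, add_div]
            (clear * - hAcard hlog; linarith)
          refine h1.trans ?_
          rw [div_le_iff₀ hk0r]
          (clear * - hk1r heta hhh hk0ρ'; nlinarith)
        -- bounds for the two parts
        have hkapk : ∀ k' ∈ S.hvy k0 k, S.d / 10 * k ≤ k' := by
          intro k' hk'
          unfold Sys.hvy at hk'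
          rw [Finset.mem_Ico] at hk'
          have h1 : (⌈S.kap * k⌉₊ : ℝ) ≤ k' := by exact_mod_cast (le_max_right _ _).trans hk'.1
          have h2 := Nat.le_ceil (S.kap * k)
          unfold Sys.kap at h1 h2
          (clear * - h1 h2; linarith)
        have hk'K : ∀ k' ∈ S.hvy k0 k, S.K ≤ k' := by
          intro k' hk'
          unfold Sys.hvy at hk'
          rw [Finset.mem_Ico] at hk'
          have := (le_max_left k0 ⌈S.kap * k⌉₊).trans hk'.1
          omega
        exact by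
          have hE2 := Pool.Agent.M20.Helper88.KS.ec_real_ge S.d k
          rw [← hE] at hE2
          have hT1 : ∀ k' ∈ S.hvy k0 k, ∑ n ∈ ((cell S.d k j).filter (Sys.rough k0)).filter
              (fun n => (2 : ℝ) ^ (S.c * k') ≤ (sig A n : ℝ)), (sig A n : ℝ) ^ S.hh * 2 ^ n.primeFactorsList.length ≤
              5 * C * (2 : ℝ) ^ (ρ * k) * (2 : ℝ) ^ (-(S.ep / 10) * k) * E := by
            intro k' hk'
            have hkk := hkapk k' hk'
            have hB1 := hB x0 (2 ^ ec S.d k) P0 A ((2 : ℝ) ^ (S.c * k')) hx01 ?_ hP02 hAP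
              (Real.one_le_rpow (by norm_num) (by (clear * - hc; positivity)))
            · have h1 : ∑ n ∈ ((cell S.d k j).filter (Sys.rough k0)).filter
                  (fun n => (2 : ℝ) ^ (S.c * k') ≤ (sig A n : ℝ)), (sig A n : ℝ) ^ S.hh * 2 ^ n.primeFactorsList.length ≤
                  (2 : ℝ) ^ (5 * ((k : ℝ) + 1) / k0) * ∑ n ∈ (Ico x0 (x0 + 2 ^ ec S.d k)).filter
                  (fun n => (2 : ℝ) ^ (S.c * k') ≤ (sig A n : ℝ)), (sig A n : ℝ) ^ S.hh := by
                rw [Finset.mul_sum]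
                refine (Finset.sum_le_sum (g := fun n => (2 : ℝ) ^ (5 * ((k : ℝ) + 1) / k0) * (sig A n : ℝ) ^ S.hh)
                  fun n hn => ?_).trans
                  (Finset.sum_le_sum_of_subset_of_nonneg ?_ fun n _ _ => by (clear * -; positivity))
                · rw [Finset.mem_filter] at hn
                  rw [mul_comm]
                  refine mul_le_mul_of_nonneg_right ?_ (by (clear * -; positivity))
                  rw [← Real.rpow_natCast]
                  exact Real.rpow_le_rpow_of_exponent_le (by norm_num) (hom n hn.1)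
                · intro n hn
                  rw [Finset.mem_filter, Finset.mem_filter, Pool.Agent.M20.Helper88.KS.cell_eq] at hn
                  rw [Finset.mem_filter]
                  exact ⟨hn.1.1, hn.2⟩
              exact by
                refine h1.trans ((mul_le_mul_of_nonneg_left hB1 (by positivity)).trans ?_)
                push_cast
                rw [← hE]
                have e1 : ((2 : ℝ) ^ (S.c * (k' : ℝ))) ^ (-S.eta) ≤ (2 : ℝ) ^ (-(S.ep / 10) * k) := by
                  rw [← Real.rpow_mul (by norm_num)]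
                  refine Real.rpow_le_rpow_of_exponent_le (by norm_num) ?_
                  rw [S.ep_eq]
                  have : S.c * S.eta * (S.d / 10 * k) ≤ S.c * S.eta * k' := mul_le_mul_of_nonneg_left hkk (by positivity)
                  (clear * - this; nlinarith)
                have e2 : (x0 : ℝ) ^ (1 / 2 - S.eta) ≤ 4 * E * (2 : ℝ) ^ (-(S.ep / 10) * k) := by
                  have a1 : (x0 : ℝ) ≤ (2 : ℝ) ^ ((k : ℝ) + 1) := by
                    calc (x0 : ℝ) ≤ (2 : ℝ) ^ (k + 1) := by exact_mod_cast hx0lt.le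
                      _ = (2 : ℝ) ^ ((k : ℝ) + 1) := by rw [← Real.rpow_natCast]; push_cast; rfl
                  have heta2 := S.eta_le'
                  have a2 : (x0 : ℝ) ^ (1 / 2 - S.eta) ≤ (2 : ℝ) ^ (((k : ℝ) + 1) * (1 / 2 - S.eta)) := by
                    rw [Real.rpow_mul (by norm_num)]
                    exact Real.rpow_le_rpow (Nat.cast_nonneg _) a1 (by (clear * - heta heta2; linarith))
                  refine a2.trans ?_
                  calc (2 : ℝ) ^ (((k : ℝ) + 1) * (1 / 2 - S.eta))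
                      ≤ (2 : ℝ) ^ (2 + ((1 / 2 - S.d) * k - 1) + -(S.ep / 10) * k) := by
                        refine Real.rpow_le_rpow_of_exponent_le (by norm_num) ?_
                        have a3 : S.ep / 10 ≤ S.eta / 10 := by
                          rw [S.ep_eq]
                          have b1 := S.d_le'
                          have b2 := S.c_le'
                          have b3 : S.c * S.d ≤ 1 := by
                            norm_num at b1
                            (clear * - hd b2 b1 hc; nlinarith)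
                          (clear * - heta b3; nlinarith)
                        have a4 : S.d ≤ S.eta / 10 := by
                          have b1 := S.d_le_c
                          have b2 := S.c_le
                          have : S.c / 10 ^ 5 ≤ S.c := by rw [div_le_iff₀ (by positivity)]; (clear * - hd b1; nlinarith)
                          (clear * - hd b1 b2; linarith)
                        (clear * - hρ hρ0 heta2 a3 heta a4; nlinarith)
                    _ = 4 * (2 : ℝ) ^ ((1 / 2 - S.d) * k - 1) * (2 : ℝ) ^ (-(S.ep / 10) * k) := by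
                        clear * -; rw [Real.rpow_add (by norm_num), Real.rpow_add (by norm_num) (2 : ℝ)]
                        norm_num
                    _ ≤ 4 * E * (2 : ℝ) ^ (-(S.ep / 10) * k) := by
                        refine mul_le_mul_of_nonneg_right ?_ (by positivity)
                        (clear * - hE2; linarith)
                have e3 : E * ((2 : ℝ) ^ (S.c * (k' : ℝ))) ^ (-S.eta) + (x0 : ℝ) ^ (1 / 2 - S.eta) ≤
                    5 * E * (2 : ℝ) ^ (-(S.ep / 10) * k) := by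
                  have := mul_le_mul_of_nonneg_left e1 hE0.le
                  (clear * - e2 this; linarith)
                calc (2 : ℝ) ^ (5 * ((k : ℝ) + 1) / k0) * (C * 2 ^ (A.card + Nat.log P0 (2 * x0)) *
                      (E * ((2 : ℝ) ^ (S.c * (k' : ℝ))) ^ (-S.eta) + (x0 : ℝ) ^ (1 / 2 - S.eta)))
                    ≤ (2 : ℝ) ^ (5 * ((k : ℝ) + 1) / k0) * (C * 2 ^ (A.card + Nat.log P0 (2 * x0)) *
                      (5 * E * (2 : ℝ) ^ (-(S.ep / 10) * k))) :=
                      mul_le_mul_of_nonneg_left (mul_le_mul_of_nonneg_left e3 (by positivity)) (by positivity)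
                  _ = 5 * C * ((2 : ℝ) ^ (5 * ((k : ℝ) + 1) / k0) * 2 ^ (A.card + Nat.log P0 (2 * x0))) *
                      (2 : ℝ) ^ (-(S.ep / 10) * k) * E := by ring
                  _ ≤ 5 * C * (2 : ℝ) ^ (ρ * k) * (2 : ℝ) ^ (-(S.ep / 10) * k) * E := by
                      refine mul_le_mul_of_nonneg_right (mul_le_mul_of_nonneg_right
                        (mul_le_mul_of_nonneg_left hloss (by positivity)) (by positivity)) hE0.le
            · exact (Nat.pow_le_pow_right (by norm_num) (ec_le S.d S.d_pos k)).trans (Nat.le_add_right _ _)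
          have hT2 : ∀ k' ∈ S.hvy k0 k, (2 : ℝ) ^ (S.c / 2 * k') * ∑ j' ∈ S.badc k',
              ((PP S.d k j k' j' ((2 : ℝ) ^ ((S.u (S.cls k' j') + S.c) * k'))).card : ℝ) ≤
              72 * (2 : ℝ) ^ (-(S.ep / 10) * k) * E := by
            intro k' hk'
            have hkk := hkapk k' hk'
            have hKk := hk'K k' hk'
            have hd1 : S.d ≤ 1 / 1000 := by
              have := S.d_le'
              norm_num at this
              (clear * - hd this; linarith)
            have h1 := sum_badc S hKk (fun j' => ((PP S.d k j k' j' ((2 : ℝ) ^ ((S.u (S.cls k' j') + S.c) * k'))).card : ℝ))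
              (24 * E * (2 : ℝ) ^ ((2 * S.d - S.c) * k')) (by positivity) (fun j' hj' => by
                have b := S.mem_badc.1 hj'
                exact pairs_bound S.d_pos hd1 hj b.1 (by have := S.u_ge (S.cls k' j'); (clear * - hd hd1 this; linarith))
                  (S.u_le _) hc (by have := S.c_le'; norm_num at this; (clear * - hd hd1 this; linarith)))
            calc (2 : ℝ) ^ (S.c / 2 * k') * ∑ j' ∈ S.badc k',
                  ((PP S.d k j k' j' ((2 : ℝ) ^ ((S.u (S.cls k' j') + S.c) * k'))).card : ℝ)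
                ≤ (2 : ℝ) ^ (S.c / 2 * k') * (3 * (24 * E * (2 : ℝ) ^ ((2 * S.d - S.c) * k'))) :=
                  mul_le_mul_of_nonneg_left h1 (by positivity)
              _ = 72 * ((2 : ℝ) ^ (S.c / 2 * k') * (2 : ℝ) ^ ((2 * S.d - S.c) * k')) * E := by ring
              _ ≤ 72 * (2 : ℝ) ^ (-(S.ep / 10) * k) * E := by
                  clear * - hd hc hkk hk1r hhh hd1 hE0; refine mul_le_mul_of_nonneg_right (mul_le_mul_of_nonneg_left ?_ (by norm_num)) hE0.le
                  rw [← Real.rpow_add (by norm_num)]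
                  refine Real.rpow_le_rpow_of_exponent_le (by norm_num) ?_
                  have b1 : 2 * S.d ≤ S.c / 10 := by
                    have := S.d_le_c
                    have : S.c / 10 ^ 5 ≤ S.c / 20 := by
                      rw [div_le_div_iff₀ (by positivity) (by norm_num)]; (clear * - hd this; nlinarith)
                    linarith
                  have b2 : S.c / 2 * k' + (2 * S.d - S.c) * k' ≤ -(S.c / 3) * k' := by
                    have : (0 : ℝ) ≤ k' := Nat.cast_nonneg _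
                    (clear * - hc b1; nlinarith)
                  have b3 : S.ep / 10 * k ≤ S.c / 3 * k' := by
                    rw [S.ep_eq]
                    have heta2 := S.eta_le'
                    have b4 : S.c * (S.d / 10 * k) ≤ S.c * k' := mul_le_mul_of_nonneg_left hkk hc.le
                    have b5 : 0 ≤ S.c * (S.d / 10 * k) := by (clear * - hc hd hk1r; positivity)
                    (clear * - b4 hd hhh b5 hd1 heta2; nlinarith)
                  (clear * - b2 b3; linarith)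
          -- the sum
          have hsum : LS S k0 k j (QL S A) A ≤ ∑ k' ∈ S.hvy k0 k,
              (∑ n ∈ ((cell S.d k j).filter (Sys.rough k0)).filter
                (fun n => (2 : ℝ) ^ (S.c * k') ≤ (sig A n : ℝ)), (sig A n : ℝ) ^ S.hh * 2 ^ n.primeFactorsList.length +
              (2 : ℝ) ^ (S.c / 2 * k') * ∑ j' ∈ S.badc k',
                ((PP S.d k j k' j' ((2 : ℝ) ^ ((S.u (S.cls k' j') + S.c) * k'))).card : ℝ)) := by
            unfold LS
            rw [Finset.sum_comm]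
            refine Finset.sum_le_sum fun k' hk' => ?_
            have hKk := hk'K k' hk'
            -- pointwise
            have hpt : ∀ n ∈ (cell S.d k j).filter (Sys.rough k0), ∀ j' ∈ S.badc k',
                ∑ x ∈ (S.Cand k' j').filter (fun x => x.1 ∣ n ∧ QL S A (k', j') n x ∧
                  A ⊆ x.2.primeFactors ∪ (n / x.1).primeFactors), tw S A x.2 (n / x.1) ≤
                (if (2 : ℝ) ^ (S.c * k') ≤ (sig A n : ℝ) then (sig A n : ℝ) ^ S.hh *
                  (((S.Cand k' j').filter (fun x => x.1 * x.2 ∣ n)).card : ℝ) else 0) +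
                (2 : ℝ) ^ (S.c / 2 * k') * (((S.Cand k' j').filter (fun x => x.1 * x.2 ∣ n ∧
                  (2 : ℝ) ^ ((S.u (S.cls k' j') + S.c) * k') ≤ ((n / (x.1 * x.2) : ℕ) : ℝ))).card : ℝ) := by
              intro n hn j' hj'
              rw [Finset.mem_filter] at hn
              have hn0' : n ≠ 0 := by
                have := cell_ge hn.1
                have : 0 < 2 ^ k := by positivity
                omega
              have hsub : (S.Cand k' j').filter (fun x => x.1 ∣ n ∧ QL S A (k', j') n x ∧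
                  A ⊆ x.2.primeFactors ∪ (n / x.1).primeFactors) ⊆ (S.Cand k' j').filter (fun x => x.1 * x.2 ∣ n ∧
                  (2 : ℝ) ^ ((S.u (S.cls k' j') + S.c) * k') ≤ ((n / (x.1 * x.2) : ℕ) : ℝ)) := by
                intro x hx
                rw [Finset.mem_filter] at hx ⊢
                obtain ⟨hx1, hx2, hx3, _⟩ := hx
                refine ⟨hx1, ?_, ?_⟩
                · have := Nat.mul_dvd_mul_left x.1 hx3.1.1
                  rwa [Nat.mul_div_cancel' hx2] at this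
                · have := hx3.1.2
                  rwa [Nat.div_div_eq_div_mul] at this
              have htw : ∀ x ∈ (S.Cand k' j').filter (fun x => x.1 ∣ n ∧ QL S A (k', j') n x ∧
                  A ⊆ x.2.primeFactors ∪ (n / x.1).primeFactors), tw S A x.2 (n / x.1) ≤ (sig A n : ℝ) ^ S.hh := by
                intro x hx
                rw [Finset.mem_filter] at hx
                have cf := S.cand_facts hKk hj' hx.1
                exact tw_le S cf.2.1 hx.2.2.1.1.1 (Nat.div_dvd_of_dvd hx.2.1) hn0' hx.2.2.1.2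
              split_ifs with hlarge
              · clear * - htw hsub heta hhh; have h1 := Finset.sum_le_card_nsmul _ _ _ htw
                exact by
                  rw [nsmul_eq_mul] at h1
                  refine h1.trans ?_
                  have h2 : ((((S.Cand k' j').filter (fun x => x.1 ∣ n ∧ QL S A (k', j') n x ∧
                    A ⊆ x.2.primeFactors ∪ (n / x.1).primeFactors)).card : ℕ) : ℝ) ≤
                      (((S.Cand k' j').filter (fun x => x.1 * x.2 ∣ n)).card : ℝ) := by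
                    have := Finset.card_le_card (hsub.trans (fun x hx => by
                      rw [Finset.mem_filter] at hx ⊢; exact ⟨hx.1, hx.2.1⟩) :
                      (S.Cand k' j').filter (fun x => x.1 ∣ n ∧ QL S A (k', j') n x ∧
                        A ⊆ x.2.primeFactors ∪ (n / x.1).primeFactors) ⊆ (S.Cand k' j').filter (fun x => x.1 * x.2 ∣ n))
                    exact_mod_cast this
                  have h3 : 0 ≤ (sig A n : ℝ) ^ S.hh := by (clear * -; positivity)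
                  have h4 : 0 ≤ (2 : ℝ) ^ (S.c / 2 * k') * (((S.Cand k' j').filter (fun x => x.1 * x.2 ∣ n ∧
                    (2 : ℝ) ^ ((S.u (S.cls k' j') + S.c) * k') ≤ ((n / (x.1 * x.2) : ℕ) : ℝ))).card : ℝ) := by (clear * -; positivity)
                  (clear * - h4 heta hhh h2 h3; nlinarith)
              · clear * - hn0' heta hhh hlarge htw hsub; push Not at hlarge
                exact by
                  have hsig : (sig A n : ℝ) ^ S.hh ≤ (2 : ℝ) ^ (S.c / 2 * k') := by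
                    have hs1 : (1 : ℝ) ≤ sig A n := by exact_mod_cast sig_pos A hn0'
                    calc (sig A n : ℝ) ^ S.hh ≤ (sig A n : ℝ) ^ (1 / 2 : ℝ) :=
                          Real.rpow_le_rpow_of_exponent_le hs1 (by have := S.del_pos; (clear * - heta hhh; linarith [hhh.1]))
                      _ ≤ ((2 : ℝ) ^ (S.c * k')) ^ (1 / 2 : ℝ) := Real.rpow_le_rpow (by (clear * - hs1; positivity)) hlarge.le (by norm_num)
                      _ = (2 : ℝ) ^ (S.c / 2 * k') := by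
                        rw [← Real.rpow_mul (by norm_num)]; congr 1; ring
                  have h1 := Finset.sum_le_card_nsmul _ _ _ (fun x hx => (htw x hx).trans hsig)
                  rw [nsmul_eq_mul] at h1
                  refine h1.trans ?_
                  rw [zero_add, mul_comm]
                  refine mul_le_mul_of_nonneg_left ?_ (by positivity)
                  exact_mod_cast Finset.card_le_card hsub
            calc ∑ n ∈ (cell S.d k j).filter (Sys.rough k0), ∑ j' ∈ S.badc k',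
                  ∑ x ∈ (S.Cand k' j').filter (fun x => x.1 ∣ n ∧ QL S A (k', j') n x ∧
                    A ⊆ x.2.primeFactors ∪ (n / x.1).primeFactors), tw S A x.2 (n / x.1)
                ≤ ∑ n ∈ (cell S.d k j).filter (Sys.rough k0), ∑ j' ∈ S.badc k',
                  ((if (2 : ℝ) ^ (S.c * k') ≤ (sig A n : ℝ) then (sig A n : ℝ) ^ S.hh *
                    (((S.Cand k' j').filter (fun x => x.1 * x.2 ∣ n)).card : ℝ) else 0) +
                  (2 : ℝ) ^ (S.c / 2 * k') * (((S.Cand k' j').filter (fun x => x.1 * x.2 ∣ n ∧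
                    (2 : ℝ) ^ ((S.u (S.cls k' j') + S.c) * k') ≤ ((n / (x.1 * x.2) : ℕ) : ℝ))).card : ℝ)) :=
                  Finset.sum_le_sum fun n hn => Finset.sum_le_sum fun j' hj' => hpt n hn j' hj'
              _ = ∑ n ∈ (cell S.d k j).filter (Sys.rough k0), ∑ j' ∈ S.badc k',
                    (if (2 : ℝ) ^ (S.c * k') ≤ (sig A n : ℝ) then (sig A n : ℝ) ^ S.hh *
                    (((S.Cand k' j').filter (fun x => x.1 * x.2 ∣ n)).card : ℝ) else 0) +
                  ∑ n ∈ (cell S.d k j).filter (Sys.rough k0), ∑ j' ∈ S.badc k',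
                    (2 : ℝ) ^ (S.c / 2 * k') * (((S.Cand k' j').filter (fun x => x.1 * x.2 ∣ n ∧
                    (2 : ℝ) ^ ((S.u (S.cls k' j') + S.c) * k') ≤ ((n / (x.1 * x.2) : ℕ) : ℝ))).card : ℝ) := by
                  rw [← Finset.sum_add_distrib]
                  exact Finset.sum_congr rfl fun n _ => Finset.sum_add_distrib
              _ ≤ _ := by
                  clear * - K1 hKk; refine add_le_add ?_ ?_
                  · rw [Finset.sum_filter (s := (cell S.d k j).filter (Sys.rough k0))]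
                    refine Finset.sum_le_sum fun n hn => ?_
                    rw [Finset.mem_filter] at hn
                    have hn0' : n ≠ 0 := by
                      have := cell_ge hn.1
                      have : 0 < 2 ^ k := by positivity
                      omega
                    split_ifs with hlarge
                    · rw [← Finset.mul_sum]
                      exact mul_le_mul_of_nonneg_left (cnt_x S hKk hn0') (by (clear * -; positivity))
                    · simp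
                  · rw [Finset.sum_comm, Finset.mul_sum]
                    refine Finset.sum_le_sum fun j' hj' => ?_
                    rw [← Finset.mul_sum]
                    refine mul_le_mul_of_nonneg_left ?_ (by positivity)
                    have h1 : ∑ n ∈ (cell S.d k j).filter (Sys.rough k0), ((S.Cand k' j').filter (fun x => x.1 * x.2 ∣ n ∧
                        (2 : ℝ) ^ ((S.u (S.cls k' j') + S.c) * k') ≤ ((n / (x.1 * x.2) : ℕ) : ℝ))).card ≤
                        (PP S.d k j k' j' ((2 : ℝ) ^ ((S.u (S.cls k' j') + S.c) * k'))).card := by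
                      rw [← Finset.card_sigma]
                      refine Finset.card_le_card_of_injOn (fun y => (y.1, y.2.1 * y.2.2)) ?_ ?_
                      · intro y hy
                        rw [Finset.mem_coe, Finset.mem_sigma, Finset.mem_filter, Finset.mem_filter] at hy
                        have cf := S.cand_facts hKk hj' hy.2.1
                        rw [Finset.mem_coe, mem_PP]
                        exact ⟨hy.1.1, cf.2.2.2.2.1, hy.2.2.1, hy.2.2.2⟩
                      · intro y hy z hz hyz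
                        rw [Finset.mem_coe, Finset.mem_sigma, Finset.mem_filter, Finset.mem_filter] at hy hz
                        have b := S.mem_badc.1 hj'
                        simp only [Prod.mk.injEq] at hyz
                        obtain ⟨yn, yx⟩ := y
                        obtain ⟨zn, zx⟩ := z
                        simp only at hyz hy hz
                        obtain ⟨e1, e2⟩ := hyz
                        subst e1
                        have e3 := S.inj k' hKk _ b.1 b.2 yx hy.2.1 zx hz.2.1 e2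
                        rw [e3]
                    exact_mod_cast h1
          refine hsum.trans ?_
          have hterm : ∀ k' ∈ S.hvy k0 k, (∑ n ∈ ((cell S.d k j).filter (Sys.rough k0)).filter
                (fun n => (2 : ℝ) ^ (S.c * k') ≤ (sig A n : ℝ)), (sig A n : ℝ) ^ S.hh * 2 ^ n.primeFactorsList.length +
              (2 : ℝ) ^ (S.c / 2 * k') * ∑ j' ∈ S.badc k',
                ((PP S.d k j k' j' ((2 : ℝ) ^ ((S.u (S.cls k' j') + S.c) * k'))).card : ℝ)) ≤
              (5 * C + 72) * (2 : ℝ) ^ (ρ * k) * (2 : ℝ) ^ (-(S.ep / 10) * k) * E := by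
            intro k' hk'
            have h1 := hT1 k' hk'
            have h2 := hT2 k' hk'
            have h3 : (1 : ℝ) ≤ (2 : ℝ) ^ (ρ * k) := Real.one_le_rpow (by norm_num) (by (clear * - hep hk1r; positivity))
            have h4 : 0 ≤ (2 : ℝ) ^ (-(S.ep / 10) * k) * E := by positivity
            have h5 : 72 * ((2 : ℝ) ^ (-(S.ep / 10) * k) * E) ≤ 72 * (2 : ℝ) ^ (ρ * k) * ((2 : ℝ) ^ (-(S.ep / 10) * k) * E) := by
              (clear * - heta hhh h3 h4; nlinarith)
            (clear * - h1 h2 h5; nlinarith)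
          refine (Finset.sum_le_card_nsmul _ _ _ hterm).trans ?_
          rw [nsmul_eq_mul]
          have hcardh : ((S.hvy k0 k).card : ℝ) ≤ 3 * (k + 1) := by
            have : (S.hvy k0 k).card ≤ 3 * (k + 1) := by
              unfold Sys.hvy
              rw [Nat.card_Ico]
              (clear * - K1 j hk01; omega)
            exact_mod_cast this
          have hK1' := hK1 k (hk0K1.trans hk)
          calc ((S.hvy k0 k).card : ℝ) * ((5 * C + 72) * (2 : ℝ) ^ (ρ * k) * (2 : ℝ) ^ (-(S.ep / 10) * k) * E)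
              ≤ (3 * (k + 1)) * ((5 * C + 72) * (2 : ℝ) ^ (ρ * k) * (2 : ℝ) ^ (-(S.ep / 10) * k) * E) :=
                mul_le_mul_of_nonneg_right hcardh (by positivity)
            _ = (3 * (5 * C + 72) * (k + 1)) * ((2 : ℝ) ^ (ρ * k) * (2 : ℝ) ^ (-(S.ep / 10) * k) * E) := by ring
            _ ≤ (2 : ℝ) ^ (ρ * k) * ((2 : ℝ) ^ (ρ * k) * (2 : ℝ) ^ (-(S.ep / 10) * k) * E) :=
                mul_le_mul_of_nonneg_right hK1' (by positivity)
            _ = (2 : ℝ) ^ (ρ * k + ρ * k + -(S.ep / 10) * k) * E := by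
                clear * -; rw [Real.rpow_add (by norm_num), Real.rpow_add (by norm_num) (ρ * k)]; ring
            _ ≤ (2 : ℝ) ^ (-(S.ep / 40) * k) * E := by
                clear * - hρ hρ0 hE0; refine mul_le_mul_of_nonneg_right ?_ hE0.le
                refine Real.rpow_le_rpow_of_exponent_le (by norm_num) ?_
                rw [hρ]
                (clear * - hρ hρ0; nlinarith)

end Pool.Agent.M20.Helper18.KL
end

/- Helper53.KN.Helper88.KS.Cand1 -/
section
/-!
# Project KS: `Cand1` (conditional normalised number of candidates)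
-/

set_option autoImplicit false
open scoped Classical

namespace Pool.Agent.M20.Helper88.KS

open Pool.Agent.M20.Helper16.KS

/-- inequalities between the parameters -/
theorem params (S : Sys) : 0 < S.c ∧ S.c ≤ 0.006 ∧ 0 < S.del ∧ 0 < S.eta ∧
    0 ≤ S.tau ∧ S.tau ≤ S.s ∧ 0 < S.s ∧ S.s ≤ S.c / 10 ^ 5 ∧ S.d ≤ S.c / 10 ^ 5 ∧
    S.hh ≤ 1/2 - S.del ∧ 1/2 - S.del - S.s ≤ S.hh ∧ 0 < S.hh ∧ S.del ≤ 0.06 := by
  have h1 := S.d_pos
  have h2 := S.d_le
  have h3 := S.c_le
  have h4 := S.eta_le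
  have h5 := S.del_le
  have hc : 0 < S.c := by
    have : 0 < S.c / 10 ^ 5 := lt_of_lt_of_le h1 h2
    by_contra hcon
    have h6 : S.c / 10 ^ 5 ≤ 0 := by
      apply div_nonpos_of_nonpos_of_nonneg (not_lt.1 hcon) (by norm_num)
    (clear * - h1 h2 hcon; linarith)
  have heta : 0 < S.eta := by (clear * - h1 h2 h3; linarith)
  have hdel : 0 < S.del := by linarith
  have hc6 : S.c ≤ 0.006 := by norm_num at h5 ⊢; (clear * - h3 h4 h5; linarith)
  have heta6 : S.eta ≤ 0.06 := by norm_num at h5 ⊢; (clear * - h4 h5; linarith)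
  have hs : S.s = S.d / 2 := rfl
  have htau : S.tau = S.c * S.eta * S.d / 10 ^ 4 := rfl
  have htau0 : 0 ≤ S.tau := by rw [htau]; positivity
  have htaus : S.tau ≤ S.s := by
    rw [htau, hs]
    have h7 : S.c * S.eta ≤ 1 := by
      have : S.c * S.eta ≤ 0.006 * 0.06 := mul_le_mul hc6 heta6 heta.le (by norm_num)
      norm_num at this ⊢
      (clear * - h1 h2 h3 h4 h5 this; linarith)
    have h8 : S.c * S.eta * S.d ≤ 1 * S.d := mul_le_mul_of_nonneg_right h7 h1.le
    rw [div_le_div_iff₀ (by norm_num) (by norm_num)]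
    (clear * - h1 h8; nlinarith)
  have hs0 : 0 < S.s := by rw [hs]; (clear * - h1; linarith)
  have hsc : S.s ≤ S.c / 10 ^ 5 := by rw [hs]; (clear * - h1 h2; linarith)
  have hhh : S.hh = 1/2 - S.s - S.del + S.tau := rfl
  have hcs : S.c / 10 ^ 5 ≤ 0.001 := by
    rw [div_le_iff₀ (by norm_num)]
    norm_num at hc6 ⊢
    (clear * - h3 h4 h5; linarith)
  refine ⟨hc, hc6, hdel, heta, htau0, htaus, hs0, hsc, h2, ?_, ?_, ?_, ?_⟩
  · rw [hhh]; (clear * - htaus; linarith)
  · rw [hhh]; (clear * - htau0; linarith)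
  · rw [hhh]; norm_num at h5 hcs ⊢; linarith
  · norm_num at h5 ⊢; (clear * - h5; linarith)

/-- the number of candidates with `a ∣ m` in a window -/
theorem card_cand_le (S : Sys) {k j : ℕ} (hk : S.K ≤ k) (hj : j ∈ S.badc k) (a x h : ℕ)
    (ha : 0 < a) (T : Finset (ℕ × ℕ)) (hT : T ⊆ S.Cand k j)
    (hT2 : ∀ y ∈ T, a ∣ y.2 ∧ x ≤ y.1 * y.2 ∧ y.1 * y.2 < x + h) :
    (T.card : ℝ) ≤ (h : ℝ) / a + 1 := by
  rw [mem_badc] at hj
  have h1 : T.card ≤ ((Finset.Ico x (x + h)).filter (fun n => a ∣ n)).card := by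
    apply Finset.card_le_card_of_injOn (fun y => y.1 * y.2)
    · intro y hy
      rw [Finset.mem_coe] at hy
      rw [Finset.mem_coe, Finset.mem_filter, Finset.mem_Ico]
      obtain ⟨h2, h3, h4⟩ := hT2 y hy
      exact ⟨⟨h3, h4⟩, Dvd.dvd.mul_left h2 _⟩
    · intro y hy z hz hyz
      rw [Finset.mem_coe] at hy hz
      exact S.inj k hk j hj.1 hj.2 y (hT hy) z (hT hz) hyz
  have h2 : (T.card : ℝ) ≤ (((Finset.Ico x (x + h)).filter (fun n => a ∣ n)).card : ℝ) := by
    exact_mod_cast h1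
  exact h2.trans (card_mult_le x h a ha)

theorem term_eq (S : Sys) {m : ℕ} (hm : Squarefree m) {A : Finset ℕ} (hA : A ⊆ m.primeFactors) :
    S.pc A m.primeFactors / S.pr m = ((∏ p ∈ A, p : ℕ) : ℝ) ^ S.hh := by
  have h1 := prod_mul_prod_sdiff hm hA
  have hb0 : (0 : ℝ) < ((∏ p ∈ m.primeFactors \ A, p : ℕ) : ℝ) := by
    have : 0 < ∏ p ∈ m.primeFactors \ A, p := Finset.prod_pos fun p hp =>
      (Nat.prime_of_mem_primeFactors (Finset.mem_sdiff.1 hp).1).pos
    exact_mod_cast this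
  have ha0 : (0 : ℝ) < ((∏ p ∈ A, p : ℕ) : ℝ) := by
    have : 0 < ∏ p ∈ A, p := Finset.prod_pos fun p hp =>
      (Nat.prime_of_mem_primeFactors (hA hp)).pos
    exact_mod_cast this
  have h2 : (m : ℝ) = ((∏ p ∈ A, p : ℕ) : ℝ) * ((∏ p ∈ m.primeFactors \ A, p : ℕ) : ℝ) := by
    rw [← Nat.cast_mul, h1]
  rw [pc_eq]
  unfold Sys.pr
  rw [h2, Real.mul_rpow ha0.le hb0.le, Real.rpow_neg ha0.le, Real.rpow_neg hb0.le]
  have hx : (((∏ p ∈ m.primeFactors \ A, p : ℕ) : ℝ)) ^ S.hh ≠ 0 := (Real.rpow_pos_of_pos hb0 _).ne'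
  have hy : (((∏ p ∈ A, p : ℕ) : ℝ)) ^ S.hh ≠ 0 := (Real.rpow_pos_of_pos ha0 _).ne'
  field_simp

theorem cand1 : Cand1 := by
  intro S
  obtain ⟨hc, hc6, hdel, heta, htau0, htaus, hs0, hsc, hdc, hhh, hhh2, hhh0, hdel6⟩ := params S
  refine ⟨S.K + ⌈1000 / S.c⌉₊, ?_⟩
  intro k hk j hj A hAne
  have hkK : S.K ≤ k := le_trans (Nat.le_add_right _ _) hk
  have hkc : 1000 ≤ S.c * k := by
    have h1 : (⌈1000 / S.c⌉₊ : ℝ) ≤ k := by exact_mod_cast le_trans (Nat.le_add_left _ _) hk
    have h2 := (Nat.le_ceil (1000 / S.c)).trans h1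
    rw [div_le_iff₀ hc] at h2
    (clear * - h2; linarith)
  have hk1 : (1000 : ℝ) ≤ k := by
    have hk0 : (0 : ℝ) ≤ k := Nat.cast_nonneg k
    norm_num at hc6
    (clear * - hs0 hsc hkc hc6; nlinarith)
  have hjb := mem_badc.1 hj
  have hu := S.u_ge (S.cls k j)
  set u := S.u (S.cls k j) with hu_def
  -- properties of the product `a` of `A`, given one candidate `y` with `A ⊆ primeFactors y.2`
  have key : ∀ y ∈ S.Cand k j, A ⊆ y.2.primeFactors →
      Squarefree y.2 ∧ (0 < ∏ p ∈ A, p) ∧ (∏ p ∈ A, p) ∣ y.2 ∧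
      ((∏ p ∈ A, p : ℕ) : ℝ) ^ (S.hh - 1) ≤ (2 : ℝ) ^ (-(u + S.c) * k) ∧
      ((∏ p ∈ A, p : ℕ) : ℝ) ^ S.hh ≤ (2 : ℝ) ^ ((1/2 - u - S.c) * k) ∧
      ((∏ p ∈ A, p : ℕ) : ℝ) ^ S.hh ≤ (2 : ℝ) ^ ((k : ℝ) / 3 + 1 / 2) := by
    intro y hy hAy
    obtain ⟨hyp, hq3, hsq, h1y, hcell, hprim, hm⟩ := S.cand k hkK j hjb.1 hjb.2 y hy
    have hsq2 : Squarefree y.2 := hsq.squarefree_of_dvd (Dvd.intro_left _ rfl)
    have hapos : 0 < ∏ p ∈ A, p := Finset.prod_pos fun p hp =>
      (Nat.prime_of_mem_primeFactors (hAy hp)).pos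
    have hdvd : (∏ p ∈ A, p) ∣ y.2 := ⟨_, (prod_mul_prod_sdiff hsq2 hAy).symm⟩
    have hy2 : 0 < y.2 := lt_trans zero_lt_one h1y
    have hale : (∏ p ∈ A, p) ≤ y.2 := Nat.le_of_dvd hy2 hdvd
    have haR : (0 : ℝ) < ((∏ p ∈ A, p : ℕ) : ℝ) := by exact_mod_cast hapos
    have ha1 : (1 : ℝ) ≤ ((∏ p ∈ A, p : ℕ) : ℝ) := by exact_mod_cast hapos
    have haleR : ((∏ p ∈ A, p : ℕ) : ℝ) ≤ (y.2 : ℝ) := by exact_mod_cast hale
    refine ⟨hsq2, hapos, hdvd, ?_, ?_, ?_⟩
    · obtain ⟨p, hp⟩ := hAne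
      have hpp := Nat.prime_of_mem_primeFactors (hAy hp)
      have hpd : p ∣ y.1 * y.2 := Dvd.dvd.mul_left (Nat.dvd_of_mem_primeFactors (hAy hp)) _
      have h1 := hprim p hpp hpd
      have hpa : p ≤ ∏ p ∈ A, p := Nat.le_of_dvd hapos (Finset.dvd_prod_of_mem _ hp)
      have hpaR : (p : ℝ) ≤ ((∏ p ∈ A, p : ℕ) : ℝ) := by exact_mod_cast hpa
      have h2 : (p : ℝ) ^ (1/2 - S.del) ≤ ((∏ p ∈ A, p : ℕ) : ℝ) ^ (1 - S.hh) :=
        calc (p : ℝ) ^ (1/2 - S.del) ≤ ((∏ p ∈ A, p : ℕ) : ℝ) ^ (1/2 - S.del) :=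
              Real.rpow_le_rpow (Nat.cast_nonneg _) hpaR (by norm_num at hdel6; (clear * - hhh hhh0; linarith))
          _ ≤ ((∏ p ∈ A, p : ℕ) : ℝ) ^ (1 - S.hh) :=
              Real.rpow_le_rpow_of_exponent_le ha1 (by (clear * - hdel hhh; linarith))
      have h3 := h1.trans h2
      rw [show S.hh - 1 = -(1 - S.hh) by ring, show -(u + S.c) * (k : ℝ) = -((u + S.c) * k) by ring,
        Real.rpow_neg haR.le, Real.rpow_neg (by norm_num)]
      exact inv_anti₀ (by positivity) h3
    · calc ((∏ p ∈ A, p : ℕ) : ℝ) ^ S.hh ≤ (y.2 : ℝ) ^ S.hh :=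
            Real.rpow_le_rpow haR.le haleR hhh0.le
        _ ≤ (y.2 : ℝ) ^ (1/2 + S.del) :=
            Real.rpow_le_rpow_of_exponent_le (by exact_mod_cast hy2) (by (clear * - hdel hhh; linarith))
        _ ≤ _ := hm
    · have hcb := (cell_bound S.d_pos.le hjb.1 hcell).2
      have h2 : (y.1 : ℝ) * y.2 < (2 : ℝ) ^ ((k : ℝ) + 1) := by
        have h3 : ((y.1 * y.2 : ℕ) : ℝ) < ((2 ^ (k + 1) : ℕ) : ℝ) := by exact_mod_cast hcb
        rw [Nat.cast_mul] at h3
        refine h3.trans_le (le_of_eq ?_)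
        push_cast
        rw [← Real.rpow_natCast]
        push_cast
        rfl
      have h4 : (y.2 : ℝ) ≤ (2 : ℝ) ^ (2 * (k : ℝ) / 3 + 1) := by
        have h5 : (2 : ℝ) ^ ((k : ℝ) / 3) * y.2 ≤ (2 : ℝ) ^ ((k : ℝ) + 1) :=
          (mul_le_mul_of_nonneg_right hq3 (Nat.cast_nonneg _)).trans h2.le
        have h6 : (2 : ℝ) ^ ((k : ℝ) + 1) = (2 : ℝ) ^ ((k : ℝ) / 3) * (2 : ℝ) ^ (2 * (k : ℝ) / 3 + 1) := by
          rw [← Real.rpow_add (by norm_num)]
          congr 1
          ring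
        rw [h6] at h5
        exact le_of_mul_le_mul_left h5 (by positivity)
      calc ((∏ p ∈ A, p : ℕ) : ℝ) ^ S.hh ≤ (y.2 : ℝ) ^ S.hh :=
            Real.rpow_le_rpow haR.le haleR hhh0.le
        _ ≤ (y.2 : ℝ) ^ (1/2 : ℝ) :=
            Real.rpow_le_rpow_of_exponent_le (by exact_mod_cast hy2) (by (clear * - hdel hhh; linarith))
        _ ≤ ((2 : ℝ) ^ (2 * (k : ℝ) / 3 + 1)) ^ (1/2 : ℝ) :=
            Real.rpow_le_rpow (Nat.cast_nonneg _) h4 (by norm_num)
        _ = (2 : ℝ) ^ ((k : ℝ) / 3 + 1 / 2) := by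
            rw [← Real.rpow_mul (by norm_num)]
            congr 1
            ring
  -- value of the sum over a subset
  have val : ∀ T : Finset (ℕ × ℕ), T ⊆ S.Cand k j → (∀ y ∈ T, A ⊆ y.2.primeFactors) →
      ∑ y ∈ T, S.pc A y.2.primeFactors / S.pr y.2 = T.card * ((∏ p ∈ A, p : ℕ) : ℝ) ^ S.hh := by
    intro T hT hT2
    rw [← nsmul_eq_mul, ← Finset.sum_const]
    exact Finset.sum_congr rfl fun y hy => term_eq S (key y (hT hy) (hT2 y hy)).1 (hT2 y hy)
  constructor
  · set T := (S.Cand k j).filter (fun x => A ⊆ x.2.primeFactors) with hT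
    have hTsub : T ⊆ S.Cand k j := Finset.filter_subset _ _
    have hTA : ∀ y ∈ T, A ⊆ y.2.primeFactors := fun y hy => (Finset.mem_filter.1 hy).2
    rw [val T hTsub hTA]
    rcases T.eq_empty_or_nonempty with h0 | ⟨y, hy⟩
    · rw [h0]
      simp only [Finset.card_empty, Nat.cast_zero, zero_mul]
      positivity
    · obtain ⟨_, hapos, _, hA1, hA2, _⟩ := key y (hTsub hy) (hTA y hy)
      have hcard : (T.card : ℝ) ≤ ((2 ^ ec S.d k : ℕ) : ℝ) / ((∏ p ∈ A, p : ℕ) : ℝ) + 1 := by
        refine card_cand_le S hkK hj (∏ p ∈ A, p) (2 ^ k + j * 2 ^ ec S.d k) (2 ^ ec S.d k) hapos T hTsub ?_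
        intro z hz
        have hz1 := (S.cand k hkK j hjb.1 hjb.2 z (hTsub hz)).2.2.2.2.1
        rw [cell_eq, Finset.mem_Ico] at hz1
        exact ⟨(key z (hTsub hz) (hTA z hz)).2.2.1, hz1.1, hz1.2⟩
      have haR : (0 : ℝ) < ((∏ p ∈ A, p : ℕ) : ℝ) := by exact_mod_cast hapos
      set a : ℝ := ((∏ p ∈ A, p : ℕ) : ℝ) with ha
      push_cast at hcard
      set E : ℝ := (2 : ℝ) ^ ec S.d k with hE
      have hEge := ec_real_ge S.d k
      rw [← hE] at hEge
      have hE0 : 0 < E := by rw [hE]; positivity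
      have h1 : (T.card : ℝ) * a ^ S.hh ≤ E * a ^ (S.hh - 1) + a ^ S.hh := by
        have h2 : (T.card : ℝ) * a ^ S.hh ≤ (E / a + 1) * a ^ S.hh :=
          mul_le_mul_of_nonneg_right hcard (by positivity)
        refine h2.trans (le_of_eq ?_)
        rw [Real.rpow_sub haR, Real.rpow_one]
        ring
      have h3 : (2 : ℝ) ^ ((1/2 - u - S.c) * (k : ℝ)) ≤ E * (2 : ℝ) ^ (-(u + S.c - S.d) * k + 1) := by
        calc (2 : ℝ) ^ ((1/2 - u - S.c) * (k : ℝ))
            = (2 : ℝ) ^ ((1/2 - S.d) * (k : ℝ) - 1) * (2 : ℝ) ^ (-(u + S.c - S.d) * k + 1) := by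
              rw [← Real.rpow_add (by norm_num)]
              congr 1
              ring
          _ ≤ _ := mul_le_mul_of_nonneg_right hEge (by positivity)
      have h4 : (2 : ℝ) ^ (-(u + S.c) * (k : ℝ)) ≤ (2 : ℝ) ^ (-(u + S.c / 2) * k - 1) := by
        apply Real.rpow_le_rpow_of_exponent_le (by norm_num)
        (clear * - hc6 hs0 hsc hkc; nlinarith)
      have h5 : (2 : ℝ) ^ (-(u + S.c - S.d) * k + 1) ≤ (2 : ℝ) ^ (-(u + S.c / 2) * k - 1) := by
        apply Real.rpow_le_rpow_of_exponent_le (by norm_num)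
        have h6 : S.d * k ≤ S.c * k / 10 ^ 5 := by
          have := mul_le_mul_of_nonneg_right hdc (Nat.cast_nonneg k : (0:ℝ) ≤ k)
          (clear * - this; linarith)
        (clear * - hc6 hs0 hsc hkc h6; nlinarith)
      have h7 : (2 : ℝ) ^ (-(u + S.c / 2) * (k : ℝ) - 1) = (2 : ℝ) ^ (-(u + S.c / 2) * (k : ℝ)) / 2 := by
        rw [Real.rpow_sub (by norm_num), Real.rpow_one]
      calc (T.card : ℝ) * a ^ S.hh ≤ E * a ^ (S.hh - 1) + a ^ S.hh := h1
        _ ≤ E * (2 : ℝ) ^ (-(u + S.c / 2) * (k : ℝ) - 1) + E * (2 : ℝ) ^ (-(u + S.c / 2) * (k : ℝ) - 1) := by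
            gcongr
            · exact hA1.trans h4
            · exact hA2.trans (h3.trans (by (clear * - h5; gcongr)))
        _ = (2 : ℝ) ^ (-(u + S.c / 2) * (k : ℝ)) * E := by rw [h7]; ring
  · intro x h hh
    set T := (S.Cand k j).filter (fun y => A ⊆ y.2.primeFactors ∧ x ≤ y.1 * y.2 ∧ y.1 * y.2 < x + h)
      with hT
    have hTsub : T ⊆ S.Cand k j := Finset.filter_subset _ _
    have hTA : ∀ y ∈ T, A ⊆ y.2.primeFactors := fun y hy => (Finset.mem_filter.1 hy).2.1
    rw [val T hTsub hTA]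
    rcases T.eq_empty_or_nonempty with h0 | ⟨y, hy⟩
    · rw [h0]
      simp only [Finset.card_empty, Nat.cast_zero, zero_mul]
      (clear * -; positivity)
    · obtain ⟨_, hapos, _, hA1, _, hA3⟩ := key y (hTsub hy) (hTA y hy)
      have hcard : (T.card : ℝ) ≤ (h : ℝ) / ((∏ p ∈ A, p : ℕ) : ℝ) + 1 := by
        refine card_cand_le S hkK hj (∏ p ∈ A, p) x h hapos T hTsub ?_
        intro z hz
        exact ⟨(key z (hTsub hz) (hTA z hz)).2.2.1, (Finset.mem_filter.1 hz).2.2⟩
      have haR : (0 : ℝ) < ((∏ p ∈ A, p : ℕ) : ℝ) := by exact_mod_cast hapos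
      set a : ℝ := ((∏ p ∈ A, p : ℕ) : ℝ) with ha
      have h1 : (T.card : ℝ) * a ^ S.hh ≤ h * a ^ (S.hh - 1) + a ^ S.hh := by
        have h2 : (T.card : ℝ) * a ^ S.hh ≤ (h / a + 1) * a ^ S.hh :=
          mul_le_mul_of_nonneg_right hcard (by positivity)
        refine h2.trans (le_of_eq ?_)
        rw [Real.rpow_sub haR, Real.rpow_one]
        ring
      have h4 : (2 : ℝ) ^ (-(u + S.c) * (k : ℝ)) ≤ (2 : ℝ) ^ (-(0.01 : ℝ) * k - 1) := by
        apply Real.rpow_le_rpow_of_exponent_le (by norm_num)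
        norm_num at hu
        (clear * - hc6 hs0 hsc hkc hu; nlinarith)
      have h5 : (2 : ℝ) ^ ((k : ℝ) / 3 + 1 / 2) ≤ h * (2 : ℝ) ^ (-(0.01 : ℝ) * k - 1) := by
        calc (2 : ℝ) ^ ((k : ℝ) / 3 + 1 / 2)
            ≤ (2 : ℝ) ^ (0.38 * (k : ℝ)) * (2 : ℝ) ^ (-(0.01 : ℝ) * k - 1) := by
              rw [← Real.rpow_add (by norm_num)]
              apply Real.rpow_le_rpow_of_exponent_le (by norm_num)
              norm_num
              (clear * - hc6 hs0 hsc hk1; linarith)
          _ ≤ _ := mul_le_mul_of_nonneg_right hh (by positivity)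
      have h7 : (2 : ℝ) ^ (-(0.01 : ℝ) * (k : ℝ) - 1) = (2 : ℝ) ^ (-(0.01 : ℝ) * (k : ℝ)) / 2 := by
        rw [Real.rpow_sub (by norm_num), Real.rpow_one]
      have hh0 : (0 : ℝ) ≤ h := Nat.cast_nonneg h
      calc (T.card : ℝ) * a ^ S.hh ≤ h * a ^ (S.hh - 1) + a ^ S.hh := h1
        _ ≤ h * (2 : ℝ) ^ (-(0.01 : ℝ) * (k : ℝ) - 1) + h * (2 : ℝ) ^ (-(0.01 : ℝ) * (k : ℝ) - 1) := by
            gcongr
            · exact hA1.trans h4
            · exact hA3.trans h5
        _ = (2 : ℝ) ^ (-(0.01 : ℝ) * (k : ℝ)) * h := by rw [h7]; ring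

end Pool.Agent.M20.Helper88.KS
end

/- Helper53.KN.Helper26.KC.F2 -/
section
/-!
# KS, fourth moment, part 2: the identity between two vertical lines
-/

set_option autoImplicit false
set_option linter.all false
open MeasureTheory Filter Topology Finset

namespace Pool.Agent.M20.Helper26.KC

open Pool.Agent.M20.Helper1.KSZ (FF)
open Pool.Agent.M20.Helper69.QRH

theorem feq {z : ℂ} (h0 : 0 < z.re) (h1 : z ≠ 1) :
    riemannZeta (1 - z) = 2 * (2 * Real.pi : ℂ) ^ (-z) * FF z * riemannZeta z := by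
  rw [riemannZeta_one_sub (fun n hn => ?_) h1]
  · unfold FF
    ring
  · have := congrArg Complex.re hn
    simp at this
    have h2 : (0 : ℝ) ≤ n := Nat.cast_nonneg n
    (clear * - h0 this; linarith)

theorem norm_two_pi_cpow {z : ℂ} (h0 : 0 ≤ z.re) : ‖(2 * Real.pi : ℂ) ^ (-z)‖ ≤ 1 := by
  have h1 : (2 * Real.pi : ℂ) = ((2 * Real.pi : ℝ) : ℂ) := by push_cast; ring
  rw [h1, Complex.norm_cpow_eq_rpow_re_of_pos (by positivity)]
  apply Real.rpow_le_one_of_one_le_of_nonpos
  · linarith [Real.pi_gt_three]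
  · simpa using h0

/-- growth of `(s-1)ζ(s)` in `Re s ≥ -1/4` -/
theorem growth4 (hff : FMff) : ∃ C : ℝ, 0 < C ∧ ∀ z : ℂ, -(1 / 4) ≤ z.re → 1 ≤ |z.im| →
    ‖EZ z‖ ≤ C * (1 + ‖z‖) ^ 4 := by
  obtain ⟨CE, hCE0, hCE⟩ := EZ_growth
  obtain ⟨CF, hCF0, hCF⟩ := hff
  refine ⟨CE + 8 * CF * CE, by (clear * - hCE0 hCF0; positivity), fun z hz him => ?_⟩
  have hz0 := norm_nonneg z
  rcases le_or_gt (2 / 7) z.re with h | h
  · refine (hCE z h).trans ?_
    have h1 : (1 + ‖z‖) ^ 2 ≤ (1 + ‖z‖) ^ 4 := pow_le_pow_right₀ (by (clear * - hz0; linarith)) (by norm_num)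
    have h2 : (0 : ℝ) ≤ (1 + ‖z‖) ^ 4 := by (clear * -; positivity)
    have h3 : 0 ≤ 8 * CF * CE * (1 + ‖z‖) ^ 4 := by positivity
    exact (mul_le_mul_of_nonneg_left h1 hCE0.le).trans
      (by rw [add_mul]; exact le_add_of_nonneg_right h3)
  · set z' : ℂ := 1 - z with hz'
    have hre : z'.re = 1 - z.re := by simp [hz']
    have himz : z'.im = -z.im := by simp [hz']
    have hzz : z = 1 - z' := by rw [hz']; ring
    have h1 : z' ≠ 1 := by
      intro h1
      have := congrArg Complex.im h1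
      rw [himz, Complex.one_im] at this
      have h2 : z.im = 0 := by (clear * - this; linarith)
      rw [h2, abs_zero] at him
      (clear * - him; linarith)
    have hz1 : z ≠ 1 := by
      intro h1
      rw [h1, Complex.one_im, abs_zero] at him
      (clear * - him; linarith)
    have e1 : ‖FF z'‖ ≤ CF * (1 + ‖z‖) := by
      have h2 := hCF z'.re z'.im (by rw [hre]; (clear * - h; linarith)) (by rw [hre]; (clear * - hz; linarith))
      rw [Complex.re_add_im] at h2
      refine h2.trans ?_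
      apply mul_le_mul_of_nonneg_left _ hCF0.le
      have h3 : 1 + |z'.im| ≤ 1 + ‖z‖ := by
        rw [himz, abs_neg]
        (clear * -; linarith [Complex.abs_im_le_norm z])
      calc (1 + |z'.im|) ^ (z'.re - 1 / 2) ≤ (1 + |z'.im|) ^ (1 : ℝ) :=
            Real.rpow_le_rpow_of_exponent_le (by (clear * -; linarith [abs_nonneg z'.im]))
              (by rw [hre]; (clear * - hz; linarith))
        _ = 1 + |z'.im| := Real.rpow_one _
        _ ≤ _ := h3
    have hn' : ‖z'‖ ≤ 1 + ‖z‖ := by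
      rw [hz']
      exact (norm_sub_le _ _).trans (by rw [norm_one])
    have e2 : ‖riemannZeta z'‖ ≤ CE * (2 + ‖z‖) ^ 2 := by
      have h2 := hCE z' (by rw [hre]; (clear * - h; linarith))
      rw [EZ_eq h1, norm_mul] at h2
      have h3 : 1 ≤ ‖z' - 1‖ := by
        have := Complex.abs_im_le_norm (z' - 1)
        rw [Complex.sub_im, Complex.one_im, sub_zero, himz, abs_neg] at this
        (clear * - him this; linarith)
      have h4 : ‖riemannZeta z'‖ ≤ ‖z' - 1‖ * ‖riemannZeta z'‖ :=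
        le_mul_of_one_le_left (norm_nonneg _) h3
      have h5 : (1 + ‖z'‖) ^ 2 ≤ (2 + ‖z‖) ^ 2 := by
        apply pow_le_pow_left₀ (by (clear * -; positivity))
        (clear * - hn'; linarith)
      calc _ ≤ _ := h4
        _ ≤ _ := h2
        _ ≤ _ := mul_le_mul_of_nonneg_left h5 hCE0.le
    have e3 : ‖EZ z‖ = ‖z - 1‖ * (2 * ‖(2 * Real.pi : ℂ) ^ (-z')‖ * ‖FF z'‖ * ‖riemannZeta z'‖) := by
      rw [EZ_eq hz1, norm_mul]
      congr 1
      rw [hzz, feq (by rw [hre]; (clear * - h; linarith)) h1]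
      simp only [norm_mul, Complex.norm_ofNat]
    have e4 : ‖z - 1‖ ≤ 1 + ‖z‖ := (norm_sub_le _ _).trans (by rw [norm_one]; (clear * -; linarith))
    have e5 := norm_two_pi_cpow (z := z') (by rw [hre]; (clear * - h; linarith))
    rw [e3]
    have h6 : (2 + ‖z‖) ^ 2 ≤ 4 * (1 + ‖z‖) ^ 2 := by
      (clear * - hz0; linarith [sq_nonneg ‖z‖])
    have hn1 : 0 ≤ 1 + ‖z‖ := add_nonneg zero_le_one hz0
    have hn2 : 0 ≤ 2 * 1 * (CF * (1 + ‖z‖)) :=
      mul_nonneg (by norm_num) (mul_nonneg hCF0.le hn1)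
    calc ‖z - 1‖ * (2 * ‖(2 * Real.pi : ℂ) ^ (-z')‖ * ‖FF z'‖ * ‖riemannZeta z'‖)
        ≤ (1 + ‖z‖) * (2 * 1 * (CF * (1 + ‖z‖)) * (CE * (2 + ‖z‖) ^ 2)) :=
          mul_le_mul e4 (mul_le_mul (mul_le_mul (mul_le_mul_of_nonneg_left e5 zero_le_two) e1
            (norm_nonneg _) (by norm_num)) e2 (norm_nonneg _) hn2)
            (mul_nonneg (mul_nonneg (mul_nonneg zero_le_two (norm_nonneg _)) (norm_nonneg _))
              (norm_nonneg _)) hn1
      _ ≤ (1 + ‖z‖) * (2 * 1 * (CF * (1 + ‖z‖)) * (CE * (4 * (1 + ‖z‖) ^ 2))) :=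
          mul_le_mul_of_nonneg_left (mul_le_mul_of_nonneg_left
            (mul_le_mul_of_nonneg_left h6 hCE0.le) hn2) hn1
      _ = 8 * CF * CE * (1 + ‖z‖) ^ 4 := by ring
      _ ≤ (CE + 8 * CF * CE) * (1 + ‖z‖) ^ 4 := by
          have : 0 ≤ CE * (1 + ‖z‖) ^ 4 := by positivity
          rw [add_mul]
          exact le_add_of_nonneg_left this

theorem exp_bound_four (R y : ℝ) :
    (R + |y|) ^ 4 * Real.exp (-(y ^ 2)) ≤ (64 * (R ^ 2 + 1)) ^ 2 * (1 + y ^ 2)⁻¹ := by
  have h1 := exp_bound_aux' R y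
  have h2 : 0 ≤ (R + |y|) ^ 2 * Real.exp (-(y ^ 2 / 4)) := by (clear * -; positivity)
  have h3 := pow_le_pow_left₀ h2 h1 2
  have h4 : Real.exp (-(y ^ 2)) ≤ Real.exp (-(y ^ 2 / 4)) ^ 2 := by
    rw [← Real.exp_nat_mul]
    apply Real.exp_le_exp.mpr
    push_cast
    (clear * -; linarith [sq_nonneg y])
  have h5 : (1 + y ^ 2)⁻¹ ^ 2 ≤ (1 + y ^ 2)⁻¹ := by
    have h6 : (1 + y ^ 2)⁻¹ ≤ 1 := inv_le_one_of_one_le₀ (le_add_of_nonneg_right (sq_nonneg y))
    have h7 : 0 ≤ (1 + y ^ 2)⁻¹ := by positivity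
    exact pow_le_of_le_one h7 h6 two_ne_zero
  calc (R + |y|) ^ 4 * Real.exp (-(y ^ 2)) ≤ (R + |y|) ^ 4 * Real.exp (-(y ^ 2 / 4)) ^ 2 :=
        mul_le_mul_of_nonneg_left h4 (by (clear * -; positivity))
    _ = ((R + |y|) ^ 2 * Real.exp (-(y ^ 2 / 4))) ^ 2 := by ring
    _ ≤ (64 * (R ^ 2 + 1) * (1 + y ^ 2)⁻¹) ^ 2 := h3
    _ = (64 * (R ^ 2 + 1)) ^ 2 * (1 + y ^ 2)⁻¹ ^ 2 := by ring
    _ ≤ _ := mul_le_mul_of_nonneg_left h5 (sq_nonneg _)

theorem norm_expVw (V : ℝ) (w : ℂ) : ‖Complex.exp (w * V + w ^ 2)‖ =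
    Real.exp (w.re * V + w.re ^ 2) * Real.exp (-w.im ^ 2) := by
  rw [Complex.norm_exp, ← Real.exp_add]
  congr 1
  simp [pow_two]
  ring

/-- the integrand -/
noncomputable def Ig (s : ℂ) (V : ℝ) (w : ℂ) : ℂ :=
  riemannZeta (s + w) * Complex.exp (w * V + w ^ 2) / w

/-- the identity, with a small error from the pole of zeta -/
theorem two_lines (hff : FMff) (t V : ℝ) (hV : 0 ≤ V) :
    2 * Real.pi * ‖riemannZeta (1 / 2 + (t : ℂ) * Complex.I)‖ ≤
      ‖∫ v : ℝ, Ig (1 / 2 + (t : ℂ) * Complex.I) V (((2 : ℝ) : ℂ) + v * Complex.I)‖ +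
      ‖∫ v : ℝ, Ig (1 / 2 + (t : ℂ) * Complex.I) V (((-(3 / 4) : ℝ) : ℂ) + v * Complex.I)‖ +
      2400 * Real.exp (V / 2 - t ^ 2) := by
  obtain ⟨CG, hCG0, hCG⟩ := growth4 hff
  set s : ℂ := 1 / 2 + (t : ℂ) * Complex.I with hs
  have hsre : s.re = 1 / 2 := by simp [hs]
  have hsim : s.im = t := by simp [hs]
  set s1 : ℂ := 1 - s with hs1
  have hs1re : s1.re = 1 / 2 := by rw [hs1, Complex.sub_re, hsre, Complex.one_re]; norm_num
  have hs1im : s1.im = -t := by rw [hs1, Complex.sub_im, hsim, Complex.one_im, zero_sub]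
  have hs1n : 1 / 2 ≤ ‖s1‖ := by
    have := Complex.abs_re_le_norm s1
    rw [hs1re, abs_of_pos (by norm_num)] at this
    exact this
  have hs1ne : s1 ≠ 0 := by
    intro h; rw [h, norm_zero] at hs1n; (clear * - hs1n; linarith)
  set H : ℂ → ℂ := fun w => EZ (s + w) * Complex.exp (w * V + w ^ 2) with hH
  have hHd : Differentiable ℂ H := by
    rw [hH]
    refine Differentiable.mul ?_ (by fun_prop)
    exact EZ_differentiable.comp (by fun_prop)
  have hdecay : ∀ w : ℂ, (-(3 / 4) : ℝ) ≤ w.re → w.re ≤ 2 → |t| + 1 ≤ |w.im| →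
      ‖H w‖ ≤ (CG * Real.exp (2 * V + 4) * (64 * ((4 + ‖s‖) ^ 2 + 1)) ^ 2) * (1 + w.im ^ 2)⁻¹ := by
    intro w h1 h2 h3
    have e1 : ‖EZ (s + w)‖ ≤ CG * (4 + ‖s‖ + |w.im|) ^ 4 := by
      refine (hCG (s + w) ?_ ?_).trans ?_
      · rw [Complex.add_re, hsre]; (clear * - h1; linarith)
      · rw [Complex.add_im, hsim]
        have := abs_sub_abs_le_abs_sub w.im (-t)
        rw [abs_neg, sub_neg_eq_add, add_comm w.im t] at this
        (clear * - h3 this; linarith)
      · apply mul_le_mul_of_nonneg_left _ hCG0.le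
        have h4 : ‖w‖ ≤ 2 + |w.im| := by
          refine (Complex.norm_le_abs_re_add_abs_im w).trans ?_
          have : |w.re| ≤ 2 := by rw [abs_le]; constructor <;> (clear * - h1 h2; linarith)
          (clear * - this; linarith)
        have h5 := norm_add_le s w
        apply pow_le_pow_left₀ (by (clear * -; positivity))
        (clear * - h4 h5; linarith)
    have e3 : ‖Complex.exp (w * V + w ^ 2)‖ ≤ Real.exp (2 * V + 4) * Real.exp (-(w.im ^ 2)) := by
      rw [norm_expVw]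
      apply mul_le_mul_of_nonneg_right _ (Real.exp_pos _).le
      apply Real.exp_le_exp.mpr
      have h5 : w.re * V ≤ 2 * V := mul_le_mul_of_nonneg_right h2 hV
      have h4 : w.re ^ 2 ≤ 4 := by (clear * - h2 h1; nlinarith)
      (clear * - h5 h4; linarith)
    have e4 := exp_bound_four (4 + ‖s‖) w.im
    calc ‖H w‖ = ‖EZ (s + w)‖ * ‖Complex.exp (w * V + w ^ 2)‖ := by simp only [hH, norm_mul]
      _ ≤ (CG * (4 + ‖s‖ + |w.im|) ^ 4) * (Real.exp (2 * V + 4) * Real.exp (-(w.im ^ 2))) :=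
          mul_le_mul e1 e3 (norm_nonneg _) ((norm_nonneg _).trans e1)
      _ = CG * Real.exp (2 * V + 4) * ((4 + ‖s‖ + |w.im|) ^ 4 * Real.exp (-(w.im ^ 2))) := by ring
      _ ≤ CG * Real.exp (2 * V + 4) * ((64 * ((4 + ‖s‖) ^ 2 + 1)) ^ 2 * (1 + w.im ^ 2)⁻¹) :=
          mul_le_mul_of_nonneg_left e4 (mul_nonneg hCG0.le (Real.exp_pos _).le)
      _ = _ := by ring
  have hpole := shift_pole hHd (a := -(3 / 4)) (b := 2) (s1 := s1) (by norm_num)
    (by rw [hs1re]; norm_num [abs_of_neg]) (by rw [hs1re]; norm_num)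
    (by rw [hs1re]; norm_num [abs_of_neg]) (by rw [hs1re]; norm_num) hdecay
  have hres := residue_zero hHd (a := -(3 / 4)) (b := 2) (by norm_num) (by norm_num) hdecay
  obtain ⟨A', hA', hA⟩ := uniform_decay hHd.continuous hdecay
  have hline : ∀ c : ℝ, -(3 / 4) ≤ c → c ≤ 2 → 3 / 4 ≤ |c| → 1 ≤ |c - 1 / 2| →
      ∫ v : ℝ, Ig s V ((c : ℂ) + v * Complex.I) =
        (1 / s1) * ((∫ v : ℝ, H ((c : ℂ) + v * Complex.I) / ((c : ℂ) + v * Complex.I - s1)) -
          ∫ v : ℝ, H ((c : ℂ) + v * Complex.I) / ((c : ℂ) + v * Complex.I)) := by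
    intro c hc1 hc2 hc3 hc4
    have hgen : ∀ z0 : ℂ, (∀ v : ℝ, 3 / 4 ≤ ‖(c : ℂ) + v * Complex.I - z0‖) →
        Integrable (fun v : ℝ => H ((c : ℂ) + v * Complex.I) / ((c : ℂ) + v * Complex.I - z0)) := by
      intro z0 hz0
      refine (integrable_inv_one_add_sq.const_mul (A' / (3 / 4))).mono' ?_
        (Eventually.of_forall fun v => ?_)
      · refine Continuous.aestronglyMeasurable ?_
        refine (hHd.continuous.comp (by fun_prop)).div (by fun_prop) fun v h => ?_
        have := hz0 v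
        rw [h, norm_zero] at this
        (clear * - this; linarith)
      · have h1 := hA ((c : ℂ) + v * Complex.I) (by rw [line_re]; exact hc1)
          (by rw [line_re]; exact hc2)
        rw [line_im] at h1
        rw [norm_div, div_mul_eq_mul_div]
        exact div_le_div₀ ((norm_nonneg _).trans h1) h1 (by norm_num) (hz0 v)
    have d1 : ∀ v : ℝ, 3 / 4 ≤ ‖(c : ℂ) + v * Complex.I - s1‖ := by
      intro v
      have h5 := Complex.abs_re_le_norm ((c : ℂ) + v * Complex.I - s1)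
      rw [Complex.sub_re, line_re, hs1re] at h5
      (clear * - hc4 h5; linarith)
    have d2 : ∀ v : ℝ, 3 / 4 ≤ ‖(c : ℂ) + v * Complex.I - 0‖ := by
      intro v
      have h5 := Complex.abs_re_le_norm ((c : ℂ) + v * Complex.I)
      rw [line_re] at h5
      rw [sub_zero]
      (clear * - hc3 h5; linarith)
    have i1 := hgen s1 d1
    have i2 := hgen 0 d2
    simp_rw [sub_zero] at i2 d2
    rw [← integral_sub i1 i2, ← integral_const_mul]
    apply integral_congr_ae
    refine Eventually.of_forall fun v => ?_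
    have n1 : (c : ℂ) + v * Complex.I - s1 ≠ 0 := by
      intro h; have := d1 v; rw [h, norm_zero] at this; (clear * - this; linarith)
    have n2 : (c : ℂ) + v * Complex.I ≠ 0 := by
      intro h; have := d2 v; rw [h, norm_zero] at this; (clear * - this; linarith)
    have n3 : s + ((c : ℂ) + v * Complex.I) ≠ 1 := by
      intro h
      apply n1
      rw [hs1, ← h]; ring
    have e5 : s + ((c : ℂ) + v * Complex.I) - 1 = (c : ℂ) + v * Complex.I - s1 := by rw [hs1]; ring
    simp only [Ig, hH]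
    rw [EZ_eq n3, e5]
    field_simp
    ring
  have l2 := hline 2 (by norm_num) le_rfl (by norm_num) (by norm_num)
  have l3 := hline (-(3 / 4)) le_rfl (by norm_num) (by norm_num [abs_of_neg]) (by norm_num [abs_of_neg])
  have hH0 : H 0 = -s1 * riemannZeta s := by
    have hs_ne : s ≠ 1 := by
      intro h
      have := congrArg Complex.re h
      rw [hsre, Complex.one_re] at this
      norm_num at this
    simp only [hH, add_zero, zero_mul, ne_eq, OfNat.ofNat_ne_zero, not_false_eq_true, zero_pow,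
      Complex.exp_zero, mul_one]
    rw [EZ_eq hs_ne, hs1]
    ring
  have hHs1 : ‖H s1‖ ≤ 2 * Real.exp (V / 2 - t ^ 2) := by
    have h1 : s + s1 = 1 := by rw [hs1]; ring
    simp only [hH]
    rw [h1, EZ_one, one_mul, norm_expVw, hs1re, hs1im, neg_sq]
    have h2 : Real.exp (1 / 2 * V + (1 / 2) ^ 2) * Real.exp (-t ^ 2) =
        Real.exp (1 / 4) * Real.exp (V / 2 - t ^ 2) := by
      rw [← Real.exp_add, ← Real.exp_add]
      congr 1
      ring
    rw [h2]
    have h3 : Real.exp (1 / 4) ≤ 2 := by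
      have h4 := Real.exp_one_lt_d9
      have h5 : Real.exp (1 / 4) ≤ Real.exp (1 / 4) ^ 4 := by
        have h6 : 1 ≤ Real.exp (1 / 4) := Real.one_le_exp (by norm_num)
        calc Real.exp (1 / 4) = Real.exp (1 / 4) ^ 1 := (pow_one _).symm
          _ ≤ _ := pow_le_pow_right₀ h6 (by norm_num)
      have h6 : Real.exp (1 / 4) ^ 4 = Real.exp 1 := by
        rw [← Real.exp_nat_mul]; norm_num
      by_contra hcon
      push Not at hcon
      have h7 : (2 : ℝ) ^ 4 ≤ Real.exp (1 / 4) ^ 4 := pow_le_pow_left₀ (by norm_num) hcon.le 4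
      rw [h6] at h7
      (clear * - h4 h7; linarith)
    exact mul_le_mul_of_nonneg_right h3 (Real.exp_pos _).le
  set I2 := ∫ v : ℝ, Ig s V (((2 : ℝ) : ℂ) + v * Complex.I) with hI2
  set I3 := ∫ v : ℝ, Ig s V (((-(3 / 4) : ℝ) : ℂ) + v * Complex.I) with hI3
  set P2 := ∫ v : ℝ, H (((2 : ℝ) : ℂ) + v * Complex.I) / (((2 : ℝ) : ℂ) + v * Complex.I - s1)
  set P3 := ∫ v : ℝ, H (((-(3 / 4) : ℝ) : ℂ) + v * Complex.I) / (((-(3 / 4) : ℝ) : ℂ) + v * Complex.I - s1)
  set Q2 := ∫ v : ℝ, H (((2 : ℝ) : ℂ) + v * Complex.I) / (((2 : ℝ) : ℂ) + v * Complex.I)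
  set Q3 := ∫ v : ℝ, H (((-(3 / 4) : ℝ) : ℂ) + v * Complex.I) / (((-(3 / 4) : ℝ) : ℂ) + v * Complex.I)
  have hkey : 2 * (Real.pi : ℂ) * riemannZeta s = I2 - I3 - (P2 - P3) / s1 := by
    have hq : (Q2 - Q3) / s1 = -(2 * Real.pi * riemannZeta s) := by
      rw [hres, hH0, div_eq_iff hs1ne]; ring
    calc 2 * (Real.pi : ℂ) * riemannZeta s = -((Q2 - Q3) / s1) := by rw [hq]; ring
      _ = 1 / s1 * (P2 - Q2) - 1 / s1 * (P3 - Q3) - (P2 - P3) / s1 := by ring
      _ = I2 - I3 - (P2 - P3) / s1 := by rw [l2, l3]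
  have hn : 2 * Real.pi * ‖riemannZeta s‖ = ‖2 * (Real.pi : ℂ) * riemannZeta s‖ := by
    rw [norm_mul, norm_mul, Complex.norm_real, Complex.norm_ofNat, Real.norm_of_nonneg Real.pi_pos.le]
  rw [hn, hkey]
  have h1 : ‖(P2 - P3) / s1‖ ≤ 2400 * Real.exp (V / 2 - t ^ 2) := by
    rw [norm_div, div_le_iff₀ (by (clear * - hs1n; linarith))]
    have h2 : ‖P2 - P3‖ ≤ 1200 * Real.exp (V / 2 - t ^ 2) := by (clear * - hHs1 hpole; linarith)
    have h3 := Real.exp_pos (V / 2 - t ^ 2)
    have h4 := mul_le_mul_of_nonneg_left hs1n (mul_nonneg (by norm_num : (0 : ℝ) ≤ 2400) h3.le)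
    (clear * - h2 h4; linarith)
  calc ‖I2 - I3 - (P2 - P3) / s1‖ ≤ ‖I2 - I3‖ + ‖(P2 - P3) / s1‖ := norm_sub_le _ _
    _ ≤ (‖I2‖ + ‖I3‖) + _ := add_le_add (norm_sub_le _ _) h1

end Pool.Agent.M20.Helper26.KC
end

/- Helper53.KN.Helper26.KC.F3 -/
section
/-!
# KS, fourth moment, part 3: approximate functional equation (inequality)
-/

set_option autoImplicit false
set_option linter.all false
open MeasureTheory Filter Topology Finset

namespace Pool.Agent.M20.Helper26.KC

open Pool.Agent.M20.Helper1.KSZ (FF)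
open Pool.Agent.M20.Helper69.QRH

theorem FF_diff {s : ℂ} (hs : 0 < s.re) : DifferentiableAt ℂ FF s := by
  unfold FF
  refine DifferentiableAt.mul (Complex.differentiableAt_Gamma s (fun m hm => ?_)) ?_
  · have := congrArg Complex.re hm
    simp at this
    have h2 : (0 : ℝ) ≤ m := Nat.cast_nonneg m
    (clear * - hs this; linarith)
  · fun_prop

/-- the factor in the reflected integral -/
noncomputable def Af (s : ℂ) (V : ℝ) (w : ℂ) : ℂ :=
  2 * (2 * Real.pi : ℂ) ^ (-(1 - s - w)) * FF (1 - s - w) * Complex.exp (w * V + w ^ 2) / w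

theorem Af_diff {s : ℂ} {V : ℝ} {w : ℂ} (hs : s.re = 1 / 2) (hw : w.re < 0) :
    DifferentiableAt ℂ (Af s V) w := by
  have hw0 : w ≠ 0 := by
    rintro rfl; simp at hw
  have h2 : (2 * Real.pi : ℂ) ≠ 0 := by
    have := Real.pi_ne_zero
    exact mul_ne_zero two_ne_zero (by exact_mod_cast this)
  unfold Af
  refine DifferentiableAt.div (DifferentiableAt.mul (DifferentiableAt.mul ?_ ?_) (by fun_prop))
    (by fun_prop) hw0
  · refine DifferentiableAt.mul (by fun_prop) ?_
    exact DifferentiableAt.const_cpow (by fun_prop) (Or.inl h2)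
  · refine DifferentiableAt.comp (g := FF) (f := fun w : ℂ => 1 - s - w) w (FF_diff ?_) (by fun_prop)
    simp [hs]
    (clear * - hw; linarith)

theorem Af_norm {C : ℝ} (_hC : 0 < C)
    (hC1 : ∀ σ t : ℝ, 1 / 2 ≤ σ → σ ≤ 3 / 2 →
      ‖FF ((σ : ℂ) + t * Complex.I)‖ ≤ C * (1 + |t|) ^ (σ - 1 / 2))
    {ε t V : ℝ} (hε : 0 < ε) {w : ℂ} (h1 : w.re ≤ -ε) (h2 : -(3 / 4) ≤ w.re) :
    ‖Af (1 / 2 + (t : ℂ) * Complex.I) V w‖ ≤ 4 * C / ε * (1 + |t + w.im|) ^ (-w.re) *
      Real.exp (w.re * V) * Real.exp (-w.im ^ 2) := by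
  set z : ℂ := 1 - (1 / 2 + (t : ℂ) * Complex.I) - w with hz
  have hzre : z.re = 1 / 2 - w.re := by
    simp [hz]; ring
  have hzim : z.im = -(t + w.im) := by
    simp [hz]; ring
  have e1 : ‖FF z‖ ≤ C * (1 + |t + w.im|) ^ (-w.re) := by
    have h3 := hC1 z.re z.im (by rw [hzre]; (clear * - hε h1; linarith)) (by rw [hzre]; (clear * - hε h1 h2; linarith))
    rw [Complex.re_add_im, hzre, hzim, abs_neg] at h3
    rwa [show 1 / 2 - w.re - 1 / 2 = -w.re by ring] at h3
  have e2 := norm_two_pi_cpow (z := z) (by rw [hzre]; (clear * - hε h1 h2; linarith))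
  have e3 : ε ≤ ‖w‖ := by
    have := Complex.abs_re_le_norm w
    have h4 := neg_abs_le w.re
    (clear * - h1 this h4; linarith)
  have e4 : Real.exp (w.re ^ 2) ≤ 2 := by
    have h5 : w.re ^ 2 ≤ 9 / 16 := by
      rw [show (9 / 16 : ℝ) = (3 / 4) ^ 2 by norm_num]
      exact sq_le_sq' h2 (by (clear * - hε h1; linarith))
    have h6 : Real.exp (w.re ^ 2) ≤ Real.exp (9 / 16) := Real.exp_le_exp.mpr h5
    have h7 : Real.exp (9 / 16) ≤ 2 := by
      have h8 : (9 / 16 : ℝ) ≤ Real.log 2 := by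
        have := Real.log_two_gt_d9
        (clear * - hε h1 h2 this; linarith)
      calc Real.exp (9 / 16) ≤ Real.exp (Real.log 2) := Real.exp_le_exp.mpr h8
        _ = 2 := Real.exp_log (by norm_num)
    (clear * - h6 h7; linarith)
  have e5 : ‖Complex.exp (w * V + w ^ 2)‖ ≤ 2 * (Real.exp (w.re * V) * Real.exp (-w.im ^ 2)) := by
    rw [norm_expVw, Real.exp_add]
    have h5 := Real.exp_pos (w.re * V)
    have h6 := Real.exp_pos (-w.im ^ 2)
    calc Real.exp (w.re * V) * Real.exp (w.re ^ 2) * Real.exp (-w.im ^ 2)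
        ≤ Real.exp (w.re * V) * 2 * Real.exp (-w.im ^ 2) :=
          mul_le_mul_of_nonneg_right (mul_le_mul_of_nonneg_left e4 h5.le) h6.le
      _ = _ := by ring
  unfold Af
  rw [← hz, norm_div, norm_mul, norm_mul, norm_mul, Complex.norm_ofNat]
  have h6 : (0 : ℝ) ≤ (1 + |t + w.im|) ^ (-w.re) := by positivity
  calc 2 * ‖(2 * Real.pi : ℂ) ^ (-z)‖ * ‖FF z‖ * ‖Complex.exp (w * V + w ^ 2)‖ / ‖w‖
      ≤ 2 * 1 * (C * (1 + |t + w.im|) ^ (-w.re)) *
        (2 * (Real.exp (w.re * V) * Real.exp (-w.im ^ 2))) / ε := by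
          have h7 : 0 ≤ C * (1 + |t + w.im|) ^ (-w.re) := mul_nonneg _hC.le h6
          have h8 : 0 ≤ 2 * (Real.exp (w.re * V) * Real.exp (-w.im ^ 2)) :=
            mul_nonneg zero_le_two (mul_pos (Real.exp_pos _) (Real.exp_pos _)).le
          exact div_le_div₀ (mul_nonneg (mul_nonneg (mul_nonneg zero_le_two zero_le_one) h7) h8)
            (mul_le_mul (mul_le_mul (mul_le_mul_of_nonneg_left e2 zero_le_two) e1 (norm_nonneg _)
              (mul_nonneg zero_le_two zero_le_one)) e5 (norm_nonneg _)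
              (mul_nonneg (mul_nonneg zero_le_two zero_le_one) h7)) hε e3
    _ = _ := by ring

/-- splitting of the zeta series -/
theorem zeta_split {z : ℂ} (hz : 1 < z.re) (M : ℕ) :
    riemannZeta z = ∑ m ∈ Icc 1 M, (m : ℂ) ^ (-z) + ∑' m : ℕ, ((m : ℂ) + M + 1) ^ (-z) := by
  have hs : Summable (fun n : ℕ => ((n : ℂ) + 1) ^ (-z)) := by
    refine Summable.of_norm ?_
    have h1 := summable_rpow_aux (r := -z.re) (by linarith)
    refine h1.congr fun n => ?_
    have h2 : ((n : ℂ) + 1) = (((n : ℝ) + 1 : ℝ) : ℂ) := by push_cast; ring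
    rw [h2, Complex.norm_cpow_eq_rpow_re_of_pos (by (clear * -; positivity)), Complex.neg_re]
  rw [zeta_eq_tsum_one_div_nat_add_one_cpow hz]
  have h1 : ∀ n : ℕ, 1 / ((n : ℂ) + 1) ^ z = ((n : ℂ) + 1) ^ (-z) := by
    intro n
    rw [one_div, Complex.cpow_neg]
  simp_rw [h1]
  rw [← hs.sum_add_tsum_nat_add M]
  congr 1
  · have h2 : Icc 1 M = Ico (0 + 1) (M + 1) := by
      ext x; simp only [Finset.mem_Icc, Finset.mem_Ico]; omega
    rw [h2, ← Finset.sum_Ico_add' (fun m : ℕ => (m : ℂ) ^ (-z)) 0 M 1, Finset.range_eq_Ico]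
    apply Finset.sum_congr rfl
    intro m _
    push_cast
    rfl
  · apply tsum_congr
    intro m
    push_cast
    rfl

theorem lin_exp_bound (R y : ℝ) (hR : 1 ≤ R) :
    (R + |y|) * Real.exp (-y ^ 2 / 2) ≤ 64 * (R ^ 2 + 1) * (1 + y ^ 2)⁻¹ := by
  refine le_trans ?_ (exp_bound_aux' R y)
  have h1 : 1 ≤ R + |y| := by linarith [abs_nonneg y]
  have h2 : R + |y| ≤ (R + |y|) ^ 2 := by
    rw [sq]; exact le_mul_of_one_le_left (zero_le_one.trans h1) h1
  have h3 : Real.exp (-y ^ 2 / 2) ≤ Real.exp (-(y ^ 2 / 4)) := by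
    apply Real.exp_le_exp.mpr
    (clear * -; linarith [sq_nonneg y])
  exact mul_le_mul h2 h3 (Real.exp_pos _).le (sq_nonneg _)

theorem rpow_lin {ε t v : ℝ} (hε : 0 ≤ ε) (hε1 : ε ≤ 1) : (1 + |t + v|) ^ ε ≤ 1 + |t| + |v| := by
  calc (1 + |t + v|) ^ ε ≤ (1 + |t + v|) ^ (1 : ℝ) :=
        Real.rpow_le_rpow_of_exponent_le (by linarith [abs_nonneg (t + v)]) hε1
    _ = 1 + |t + v| := Real.rpow_one _
    _ ≤ _ := by (clear * -; linarith [abs_add_le t v])

/-- integrability of the majorants -/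
theorem major_int {ε t B : ℝ} (hε : 0 ≤ ε) (hε1 : ε ≤ 1) {P : ℝ → ℂ} (hP : Continuous P)
    (hB : ∀ v, ‖P v‖ ≤ B) :
    Integrable (fun v : ℝ => (1 + |t + v|) ^ ε * ‖P v‖ * Real.exp (-v ^ 2 / 2)) := by
  have hB0 : 0 ≤ B := (norm_nonneg _).trans (hB 0)
  refine (integrable_inv_one_add_sq.const_mul (B * (64 * ((1 + |t|) ^ 2 + 1)))).mono' ?_
    (Eventually.of_forall fun v => ?_)
  · refine Continuous.aestronglyMeasurable ?_
    refine Continuous.mul (Continuous.mul ?_ hP.norm) (by fun_prop)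
    exact Continuous.rpow_const (by fun_prop) (fun v => Or.inr hε)
  · rw [Real.norm_of_nonneg (by (clear * -; positivity))]
    have h1 := rpow_lin (t := t) (v := v) hε hε1
    have h2 := lin_exp_bound (1 + |t|) v (by linarith [abs_nonneg t])
    calc (1 + |t + v|) ^ ε * ‖P v‖ * Real.exp (-v ^ 2 / 2)
        ≤ (1 + |t| + |v|) * B * Real.exp (-v ^ 2 / 2) :=
          mul_le_mul_of_nonneg_right (mul_le_mul h1 (hB v) (norm_nonneg _)
            (add_nonneg (add_nonneg zero_le_one (abs_nonneg t)) (abs_nonneg v))) (Real.exp_pos _).le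
      _ = B * ((1 + |t| + |v|) * Real.exp (-v ^ 2 / 2)) := by ring
      _ ≤ B * (64 * ((1 + |t|) ^ 2 + 1) * (1 + v ^ 2)⁻¹) := mul_le_mul_of_nonneg_left h2 hB0
      _ = _ := by ring

/-- a bounded continuous factor against `Af` on a line -/
theorem Af_line {C : ℝ} (hC : 0 < C)
    (hC1 : ∀ σ t : ℝ, 1 / 2 ≤ σ → σ ≤ 3 / 2 →
      ‖FF ((σ : ℂ) + t * Complex.I)‖ ≤ C * (1 + |t|) ^ (σ - 1 / 2))
    {ε t V η : ℝ} (hε : 0 < ε) (h1 : ε ≤ η) (h2 : η ≤ 3 / 4) (v : ℝ) :
    ‖Af (1 / 2 + (t : ℂ) * Complex.I) V (((-η : ℝ) : ℂ) + v * Complex.I)‖ ≤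
      4 * C / ε * Real.exp (-η * V) * ((1 + |t + v|) ^ η * Real.exp (-v ^ 2 / 2)) := by
  have h := Af_norm hC hC1 (t := t) (V := V) hε (w := ((-η : ℝ) : ℂ) + v * Complex.I)
    (by rw [line_re]; (clear * - h1; linarith)) (by rw [line_re]; linarith)
  rw [line_re, line_im, neg_neg] at h
  refine h.trans ?_
  have h3 : Real.exp (-v ^ 2) ≤ Real.exp (-v ^ 2 / 2) := by
    apply Real.exp_le_exp.mpr
    (clear * -; linarith [sq_nonneg v])
  calc 4 * C / ε * (1 + |t + v|) ^ η * Real.exp (-η * V) * Real.exp (-v ^ 2)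
      ≤ 4 * C / ε * (1 + |t + v|) ^ η * Real.exp (-η * V) * Real.exp (-v ^ 2 / 2) :=
        mul_le_mul_of_nonneg_left h3 (mul_nonneg (mul_nonneg
          (div_nonneg (mul_nonneg (by norm_num) hC.le) hε.le)
          (Real.rpow_nonneg (add_nonneg zero_le_one (abs_nonneg _)) _)) (Real.exp_pos _).le)
    _ = _ := by ring

theorem Af_cont {t V η : ℝ} (hη : 0 < η) :
    Continuous (fun v : ℝ => Af (1 / 2 + (t : ℂ) * Complex.I) V (((-η : ℝ) : ℂ) + v * Complex.I)) := by
  rw [continuous_iff_continuousAt]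
  intro v
  have h : ContinuousAt (Af (1 / 2 + (t : ℂ) * Complex.I) V) (((-η : ℝ) : ℂ) + v * Complex.I) :=
    (Af_diff (by simp) (by rw [line_re]; exact neg_neg_of_pos hη)).continuousAt
  exact ContinuousAt.comp (g := Af (1 / 2 + (t : ℂ) * Complex.I) V)
    (f := fun v : ℝ => ((-η : ℝ) : ℂ) + v * Complex.I) h (by fun_prop)

theorem mul_bound {C : ℝ} (hC : 0 < C)
    (hC1 : ∀ σ t : ℝ, 1 / 2 ≤ σ → σ ≤ 3 / 2 →
      ‖FF ((σ : ℂ) + t * Complex.I)‖ ≤ C * (1 + |t|) ^ (σ - 1 / 2))
    {ε t V η B : ℝ} (hε : 0 < ε) (h1 : ε ≤ η) (h2 : η ≤ 3 / 4) {P : ℝ → ℂ} (hP : Continuous P)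
    (hB : ∀ v, ‖P v‖ ≤ B) :
    Integrable (fun v : ℝ => Af (1 / 2 + (t : ℂ) * Complex.I) V (((-η : ℝ) : ℂ) + v * Complex.I) * P v) ∧
    ‖∫ v : ℝ, Af (1 / 2 + (t : ℂ) * Complex.I) V (((-η : ℝ) : ℂ) + v * Complex.I) * P v‖ ≤
      4 * C / ε * Real.exp (-η * V) *
        ∫ v : ℝ, (1 + |t + v|) ^ η * ‖P v‖ * Real.exp (-v ^ 2 / 2) := by
  have hm := major_int (t := t) (ε := η) (by (clear * - hε h1; linarith)) (by (clear * - hε h1 h2; linarith)) hP hB
  have hb : ∀ v : ℝ, ‖Af (1 / 2 + (t : ℂ) * Complex.I) V (((-η : ℝ) : ℂ) + v * Complex.I) * P v‖ ≤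
      4 * C / ε * Real.exp (-η * V) * ((1 + |t + v|) ^ η * ‖P v‖ * Real.exp (-v ^ 2 / 2)) := by
    intro v
    rw [norm_mul]
    have h3 := mul_le_mul_of_nonneg_right (Af_line hC hC1 (t := t) (V := V) hε h1 h2 v) (norm_nonneg (P v))
    refine h3.trans (le_of_eq ?_)
    ring
  constructor
  · refine (hm.const_mul (4 * C / ε * Real.exp (-η * V))).mono' ?_ (Eventually.of_forall hb)
    exact ((Af_cont (by linarith)).mul hP).aestronglyMeasurable
  · rw [← integral_const_mul]
    exact norm_integral_le_of_norm_le (hm.const_mul _) (Eventually.of_forall hb)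

private theorem two_pi_aux {K b : ℝ} (hK : 0 ≤ K) (hb : 0 ≤ b) :
    K * b ≤ 2 * Real.pi * ((K + 400) * b) := by
  have h1 : K * b ≤ (K + 400) * b := mul_le_mul_of_nonneg_right (by linarith) hb
  have h2 : 0 ≤ (K + 400) * b := mul_nonneg (by linarith) hb
  have hpi : 1 ≤ 2 * Real.pi := by linarith [Real.pi_gt_three]
  exact h1.trans (le_mul_of_one_le_left h2 hpi)

private theorem two_pi_aux' {K b : ℝ} (hK : 0 ≤ K) (hb : 0 ≤ b) :
    2400 * b ≤ 2 * Real.pi * ((K + 400) * b) := by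
  have h2 : 400 * b ≤ (K + 400) * b := mul_le_mul_of_nonneg_right (by linarith) hb
  have hpi : 6 ≤ 2 * Real.pi := by linarith [Real.pi_gt_three]
  calc 2400 * b = 6 * (400 * b) := by ring
    _ ≤ 2 * Real.pi * ((K + 400) * b) :=
      mul_le_mul hpi h2 (mul_nonneg (by norm_num) hb) Real.two_pi_pos.le

private theorem fin_aux {p X S K E e Q A R B I J IJ : ℝ}
    (key : p * X ≤ p * S + IJ + 2400 * (E * e)) (h4 : IJ ≤ I + J)
    (h3 : I ≤ K * Q * A) (h2 : J ≤ K * R * B)
    (b3 : K * (Q * A) ≤ p * ((K + 400) * (Q * A)))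
    (b4 : K * (R * B) ≤ p * ((K + 400) * (R * B)))
    (b5 : 2400 * (E * e) ≤ p * ((K + 400) * (E * e))) :
    p * X ≤ p * (S + (K + 400) * E * e + (K + 400) * Q * A + (K + 400) * R * B) := by
  have e : p * (S + (K + 400) * E * e + (K + 400) * Q * A + (K + 400) * R * B) =
      p * S + p * ((K + 400) * (Q * A)) + p * ((K + 400) * (R * B)) +
        p * ((K + 400) * (E * e)) := by ring
  rw [e]
  rw [mul_assoc] at h3 h2
  linarith

theorem afe (hff : FMff) : FMafe := by
  intro ε hε hε4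
  obtain ⟨C, hC, hC1⟩ := id hff
  refine ⟨4 * C / ε + 400, by (clear * - hC hε; positivity), ?_⟩
  intro N M t hN hM
  have hN0 : 0 < N := by (clear * - hε hε4 hN; linarith)
  set V : ℝ := Real.log N with hV
  have hV0 : 0 ≤ V := Real.log_nonneg hN
  set s : ℂ := 1 / 2 + (t : ℂ) * Complex.I with hs
  have hsre : s.re = 1 / 2 := by simp [hs]
  have key := two_lines hff t V hV0
  rw [← hs] at key
  -- right line
  have hright : ∫ v : ℝ, Ig s V (((2 : ℝ) : ℂ) + v * Complex.I) = 2 * Real.pi * S1 N t := by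
    have h1 := (inner_mellin (ρ := s) (by rw [hsre]; norm_num) V).2
    unfold S1 Ig
    rw [← hs, ← hV, ← h1]
    apply integral_congr_ae
    refine Eventually.of_forall fun v => ?_
    simp only
    ring
  -- the polynomial and the tail
  set Pz : ℂ → ℂ := fun w => ∑ m ∈ Icc 1 M, (m : ℂ) ^ (-(1 - s - w)) with hPz
  have hPzd : Differentiable ℂ Pz := by
    rw [hPz]
    apply Differentiable.fun_sum
    intro m hm
    have h1 : (m : ℂ) ≠ 0 := by
      have := (Finset.mem_Icc.mp hm).1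
      exact_mod_cast (by omega : m ≠ 0)
    exact Differentiable.const_cpow (by fun_prop) (Or.inl h1)
  have hPzn : ∀ w : ℂ, w.re ≤ 1 / 2 → ‖Pz w‖ ≤ M := by
    intro w hw
    simp only [hPz]
    refine (norm_sum_le _ _).trans ?_
    have h1 : ∀ m ∈ Icc 1 M, ‖(m : ℂ) ^ (-(1 - s - w))‖ ≤ 1 := by
      intro m hm
      apply norm_natCast_cpow_neg_le (Finset.mem_Icc.mp hm).1
      simp [hsre]
      (clear * - hw; linarith)
    refine (Finset.sum_le_card_nsmul _ _ _ h1).trans ?_
    simp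
  set Tz : ℝ → ℂ := fun v => ∑' m : ℕ, ((m : ℂ) + M + 1) ^ ((-(5 / 4) : ℂ) + ((t + v : ℝ) : ℂ) * Complex.I)
    with hTz
  have hexp : ∀ v : ℝ, -(1 - s - (((-(3 / 4) : ℝ) : ℂ) + v * Complex.I)) =
      (-(5 / 4) : ℂ) + ((t + v : ℝ) : ℂ) * Complex.I := by
    intro v
    rw [hs]; push_cast; ring
  have hzre : ∀ v : ℝ, (1 - s - (((-(3 / 4) : ℝ) : ℂ) + v * Complex.I)).re = 5 / 4 := by
    intro v
    rw [Complex.sub_re, Complex.sub_re, line_re, hsre, Complex.one_re]; norm_num
  have hsplit : ∀ v : ℝ, riemannZeta (1 - s - (((-(3 / 4) : ℝ) : ℂ) + v * Complex.I)) =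
      Pz (((-(3 / 4) : ℝ) : ℂ) + v * Complex.I) + Tz v := by
    intro v
    rw [zeta_split (by rw [hzre]; norm_num) M]
    simp only [hPz, hTz]
    rw [← hexp v]
  have hne1 : ∀ v : ℝ, 1 - s - (((-(3 / 4) : ℝ) : ℂ) + v * Complex.I) ≠ 1 := by
    intro v h
    have := congrArg Complex.re h
    rw [hzre, Complex.one_re] at this
    norm_num at this
  have hTzc : Continuous Tz := by
    have h1 : Tz = fun v : ℝ => riemannZeta (1 - s - (((-(3 / 4) : ℝ) : ℂ) + v * Complex.I)) -
        Pz (((-(3 / 4) : ℝ) : ℂ) + v * Complex.I) := by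
      funext v; rw [hsplit v]; ring
    rw [h1]
    refine Continuous.sub ?_ (hPzd.continuous.comp (by fun_prop))
    rw [continuous_iff_continuousAt]
    intro v
    exact ContinuousAt.comp (f := fun v : ℝ => 1 - s - (((-(3 / 4) : ℝ) : ℂ) + v * Complex.I))
      (differentiableAt_riemannZeta (hne1 v)).continuousAt (by fun_prop)
  have hTzb : ∃ B : ℝ, ∀ v, ‖Tz v‖ ≤ B := by
    refine ⟨∑' m : ℕ, ((m : ℝ) + 1) ^ (-(5 / 4) : ℝ), fun v => ?_⟩
    simp only [hTz]
    refine tsum_of_norm_bounded (summable_rpow_aux (r := -(5 / 4)) (by norm_num)).hasSum fun m => ?_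
    have h2 : ((m : ℂ) + M + 1) = (((m : ℝ) + M + 1 : ℝ) : ℂ) := by push_cast; ring
    have hp : (0 : ℝ) < (m : ℝ) + M + 1 := by (clear * - hM; positivity)
    rw [h2, Complex.norm_cpow_eq_rpow_re_of_pos hp]
    have h3 : ((-(5 / 4) : ℂ) + ((t + v : ℝ) : ℂ) * Complex.I).re = -(5 / 4) := by
      have : (-(5 / 4) : ℂ) = ((-(5 / 4) : ℝ) : ℂ) := by push_cast; ring
      rw [this, line_re]
    rw [h3]
    apply Real.rpow_le_rpow_of_nonpos (by positivity) _ (by norm_num)
    have : (0 : ℝ) ≤ M := Nat.cast_nonneg M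
    (clear * -; linarith)
  obtain ⟨B, hB⟩ := hTzb
  have hleft1 : ∀ v : ℝ, Ig s V (((-(3 / 4) : ℝ) : ℂ) + v * Complex.I) =
      Af s V (((-(3 / 4) : ℝ) : ℂ) + v * Complex.I) * Pz (((-(3 / 4) : ℝ) : ℂ) + v * Complex.I) +
      Af s V (((-(3 / 4) : ℝ) : ℂ) + v * Complex.I) * Tz v := by
    intro v
    rw [← mul_add, ← hsplit v]
    set w : ℂ := ((-(3 / 4) : ℝ) : ℂ) + v * Complex.I with hw
    have h1 : s + w = 1 - (1 - s - w) := by ring
    unfold Ig Af
    rw [h1, feq (by rw [hw, hzre]; norm_num) (by rw [hw]; exact hne1 v)]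
    ring
  have hPline : ∀ η : ℝ, 0 < η → Continuous (fun v : ℝ => Pz (((-η : ℝ) : ℂ) + v * Complex.I)) :=
    fun η _ => hPzd.continuous.comp (by fun_prop)
  have hPlb : ∀ η : ℝ, 0 < η → ∀ v : ℝ, ‖Pz (((-η : ℝ) : ℂ) + v * Complex.I)‖ ≤ M := by
    intro η hη v
    apply hPzn
    rw [line_re]; (clear * - hε hε4 hη; linarith)
  have m1 := mul_bound hC hC1 (t := t) (V := V) hε (η := 3 / 4) (by (clear * - hε hε4; linarith)) le_rfl
    (hPline (3 / 4) (by norm_num)) (hPlb (3 / 4) (by norm_num))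
  have m2 := mul_bound hC hC1 (t := t) (V := V) hε (η := 3 / 4) (by (clear * - hε hε4; linarith)) le_rfl hTzc hB
  have m3 := mul_bound hC hC1 (t := t) (V := V) hε (η := ε) le_rfl (by (clear * - hε hε4; linarith))
    (hPline ε hε) (hPlb ε hε)
  rw [← hs] at m1 m2 m3
  have hshift : ∫ v : ℝ, Af s V (((-ε : ℝ) : ℂ) + v * Complex.I) * Pz (((-ε : ℝ) : ℂ) + v * Complex.I) =
      ∫ v : ℝ, Af s V (((-(3 / 4) : ℝ) : ℂ) + v * Complex.I) *
        Pz (((-(3 / 4) : ℝ) : ℂ) + v * Complex.I) := by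
    refine shift_on (L := fun w => Af s V w * Pz w) (a := -(3 / 4)) (b := -ε)
      (A := 4 * C / ε * M * (64 * ((1 + |t|) ^ 2 + 1))) (H := 0) (by (clear * - hε hε4; linarith)) ?_ ?_
    · intro w h1 h2
      exact (Af_diff hsre (by (clear * - hε h2; linarith))).mul hPzd.differentiableAt
    · intro w h1 h2 _
      rw [norm_mul]
      have h3 := Af_norm hC hC1 (t := t) (V := V) hε (w := w) h2 h1
      rw [← hs] at h3
      have h4 := hPzn w (by (clear * - hε hε4 h2; linarith))
      have h5 : Real.exp (w.re * V) ≤ 1 := by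
        rw [Real.exp_le_one_iff]
        exact mul_nonpos_of_nonpos_of_nonneg (by (clear * - hε h2; linarith)) hV0
      have h6 := rpow_lin (t := t) (v := w.im) (ε := -w.re) (by (clear * - hε h2; linarith)) (by (clear * - hε hε4 h1; linarith))
      have h7 := lin_exp_bound (1 + |t|) w.im (by (clear * -; linarith [abs_nonneg t]))
      have h8 : Real.exp (-w.im ^ 2) ≤ Real.exp (-w.im ^ 2 / 2) := by
        apply Real.exp_le_exp.mpr
        (clear * -; linarith [sq_nonneg w.im])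
      have h9 : (0 : ℝ) ≤ M := Nat.cast_nonneg M
      calc ‖Af s V w‖ * ‖Pz w‖
          ≤ (4 * C / ε * (1 + |t + w.im|) ^ (-w.re) * Real.exp (w.re * V) * Real.exp (-w.im ^ 2)) * M := by
            exact mul_le_mul h3 h4 (norm_nonneg _) ((norm_nonneg _).trans h3)
        _ ≤ (4 * C / ε * (1 + |t| + |w.im|) * 1 * Real.exp (-w.im ^ 2 / 2)) * M := by
            have k1 : 0 ≤ 4 * C / ε := div_nonneg (mul_nonneg (by norm_num) hC.le) hε.le
            have k2 : 0 ≤ 4 * C / ε * (1 + |t| + |w.im|) :=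
              mul_nonneg k1 (add_nonneg (add_nonneg zero_le_one (abs_nonneg t)) (abs_nonneg _))
            exact mul_le_mul_of_nonneg_right (mul_le_mul (mul_le_mul
              (mul_le_mul_of_nonneg_left h6 k1) h5 (Real.exp_pos _).le k2) h8 (Real.exp_pos _).le
              (mul_nonneg k2 zero_le_one)) h9
        _ = 4 * C / ε * M * ((1 + |t| + |w.im|) * Real.exp (-w.im ^ 2 / 2)) := by ring
        _ ≤ 4 * C / ε * M * (64 * ((1 + |t|) ^ 2 + 1) * (1 + w.im ^ 2)⁻¹) :=
            mul_le_mul_of_nonneg_left h7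
              (mul_nonneg (div_nonneg (mul_nonneg (by norm_num) hC.le) hε.le) h9)
        _ = _ := by ring
  have hleft : ∫ v : ℝ, Ig s V (((-(3 / 4) : ℝ) : ℂ) + v * Complex.I) =
      (∫ v : ℝ, Af s V (((-ε : ℝ) : ℂ) + v * Complex.I) * Pz (((-ε : ℝ) : ℂ) + v * Complex.I)) +
      ∫ v : ℝ, Af s V (((-(3 / 4) : ℝ) : ℂ) + v * Complex.I) * Tz v := by
    rw [hshift]
    simp_rw [hleft1]
    exact integral_add m1.1 m2.1
  rw [hright, hleft] at key
  have hpi := Real.pi_pos
  have hpi3 := Real.pi_gt_three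
  have hS1 : ‖2 * (Real.pi : ℂ) * S1 N t‖ = 2 * Real.pi * ‖S1 N t‖ := by
    rw [norm_mul, norm_mul, Complex.norm_real, Complex.norm_ofNat, Real.norm_of_nonneg hpi.le]
  rw [hS1] at key
  have hNε : Real.exp (-ε * V) = N ^ (-ε) := by
    rw [Real.rpow_def_of_pos hN0, ← hV]; ring_nf
  have hN34 : Real.exp (-(3 / 4) * V) = N ^ (-(3 / 4) : ℝ) := by
    rw [Real.rpow_def_of_pos hN0, ← hV]; ring_nf
  have hsq : Real.exp (V / 2 - t ^ 2) = Real.sqrt N * Real.exp (-t ^ 2) := by
    rw [sub_eq_add_neg, Real.exp_add, Real.sqrt_eq_rpow, Real.rpow_def_of_pos hN0, ← hV]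
    congr 2
    ring
  rw [hNε] at m3
  rw [hN34] at m2
  rw [hsq] at key
  have hint1 : ∀ v : ℝ, Pz (((-ε : ℝ) : ℂ) + v * Complex.I) =
      ∑ m ∈ Icc 1 M, (m : ℂ) ^ ((-(1 / 2 + ε : ℝ) : ℂ) + ((t + v : ℝ) : ℂ) * Complex.I) := by
    intro v
    simp only [hPz]
    apply Finset.sum_congr rfl
    intro m _
    congr 1
    rw [hs]; push_cast; ring
  simp_rw [hint1] at m3
  set A1 : ℝ := ∫ v : ℝ, (1 + |t + v|) ^ ε * ‖∑ m ∈ Icc 1 M, (m : ℂ) ^ ((-(1 / 2 + ε : ℝ) : ℂ) +
      ((t + v : ℝ) : ℂ) * Complex.I)‖ * Real.exp (-v ^ 2 / 2) with hA1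
  set A2 : ℝ := ∫ v : ℝ, (1 + |t + v|) ^ (3 / 4 : ℝ) * ‖Tz v‖ * Real.exp (-v ^ 2 / 2) with hA2
  have hA10 : 0 ≤ A1 := integral_nonneg fun v => by (clear * -; positivity)
  have hA20 : 0 ≤ A2 := integral_nonneg fun v => by (clear * -; positivity)
  have hE0 : 0 ≤ Real.sqrt N * Real.exp (-t ^ 2) := by positivity
  have hNe0 : 0 ≤ N ^ (-ε) := by positivity
  have hN340 : (0 : ℝ) ≤ N ^ (-(3 / 4) : ℝ) := by positivity
  have h3 := m3.2
  have h2 := m2.2
  simp_rw [← hint1] at h3
  have h4 := norm_add_le (∫ v : ℝ, Af s V (((-ε : ℝ) : ℂ) + v * Complex.I) *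
    Pz (((-ε : ℝ) : ℂ) + v * Complex.I)) (∫ v : ℝ, Af s V (((-(3 / 4) : ℝ) : ℂ) + v * Complex.I) * Tz v)
  have hK : 0 ≤ 4 * C / ε := by positivity
  have h3' : ‖∫ v : ℝ, Af s V (((-ε : ℝ) : ℂ) + v * Complex.I) *
    Pz (((-ε : ℝ) : ℂ) + v * Complex.I)‖ ≤ 4 * C / ε * N ^ (-ε) * A1 := by
    refine h3.trans (le_of_eq ?_)
    rw [hA1]
  set X0 : ℝ := ‖riemannZeta s‖ with hX0
  have hfin : 2 * Real.pi * X0 ≤ 2 * Real.pi * (‖S1 N t‖ +
      (4 * C / ε + 400) * Real.sqrt N * Real.exp (-t ^ 2) +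
      (4 * C / ε + 400) * N ^ (-ε) * A1 + (4 * C / ε + 400) * N ^ (-(3 / 4) : ℝ) * A2) := by
    have b1 : 0 ≤ N ^ (-ε) * A1 := mul_nonneg hNe0 hA10
    have b2 : 0 ≤ N ^ (-(3 / 4) : ℝ) * A2 := mul_nonneg hN340 hA20
    have b3 := two_pi_aux hK b1
    have b4 := two_pi_aux hK b2
    have b5 := two_pi_aux' hK hE0
    exact fin_aux key h4 h3 h2 b3 b4 b5
  exact le_of_mul_le_mul_left hfin (by positivity)

end Pool.Agent.M20.Helper26.KC
end

/- Helper53.KN.Helper6.KSZ.AreaMean -/
section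
/-! Area mean value property of holomorphic functions (project KSZ, input A12). -/

set_option autoImplicit false
open MeasureTheory Metric Set Complex
open scoped Real

namespace Pool.Agent.M20.Helper6.KSZ

theorem circle_int (G : ℂ → ℂ) (hG : Differentiable ℂ G) (z : ℂ) (ρ : ℝ) :
    ∫ θ in Ioo (-π) π, G (z + ρ * exp (θ * I)) = (2 * π) • G z := by
  have h1 : Real.circleAverage G z ρ = G z := by
    apply DiffContOnCl.circleAverage
    exact hG.diffContOnCl
  have h2 := Real.circleAverage_eq_integral_add (f := G) (c := z) (R := ρ) (-π)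
  rw [h1] at h2
  have h3 : ∫ θ in Ioo (-π) π, G (z + ρ * exp (θ * I)) = ∫ θ in (-π)..π, G (circleMap z ρ θ) := by
    rw [intervalIntegral.integral_of_le (by linarith [Real.pi_pos]), integral_Ioc_eq_integral_Ioo]
    rfl
  have h4 : ∫ θ in (-π)..π, G (circleMap z ρ θ) = ∫ θ in (0 : ℝ)..2 * π, G (circleMap z ρ (θ + -π)) := by
    have := intervalIntegral.integral_comp_add_right (a := 0) (b := 2 * π)
      (fun θ => G (circleMap z ρ θ)) (-π)
    rw [this]
    congr 1 <;> ring
  rw [h3, h4]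
  have hpi : (2 * π) ≠ 0 := by positivity
  rw [h2, smul_smul, mul_inv_cancel₀ hpi, one_smul]

theorem area_mean (G : ℂ → ℂ) (hG : Differentiable ℂ G) (z : ℂ) (r : ℝ) (hr : 0 ≤ r) :
    ∫ w in closedBall z r, G w = (π * r ^ 2) • G z := by
  have hpi := Real.pi_pos
  have e1 : ∫ w in closedBall z r, G w = ∫ w in closedBall (0 : ℂ) r, G (z + w) := by
    have := (measurePreserving_add_left (volume : Measure ℂ) z).setIntegral_preimage_emb
      (measurableEmbedding_addLeft z) G (closedBall z r)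
    rw [← this]
    congr 2
    ext w
    simp [mem_closedBall, dist_eq_norm]
  have e2 : ∫ w in closedBall (0 : ℂ) r, G (z + w) =
      ∫ w, (closedBall (0 : ℂ) r).indicator (fun w => G (z + w)) w := by
    rw [integral_indicator measurableSet_closedBall]
  have e3 := Complex.integral_comp_polarCoord_symm
    ((closedBall (0 : ℂ) r).indicator (fun w => G (z + w)))
  have e4 : ∫ p in polarCoord.target,
      p.1 • ((closedBall (0 : ℂ) r).indicator (fun w => G (z + w)) (Complex.polarCoord.symm p)) =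
      ∫ p in (Ioc 0 r ×ˢ Ioo (-π) π), (fun p : ℝ × ℝ => p.1 • G (z + p.1 * exp (p.2 * I))) p := by
    have hT : polarCoord.target = Ioi (0 : ℝ) ×ˢ Ioo (-π) π := polarCoord_target
    rw [hT]
    have hsub : Ioc (0:ℝ) r ×ˢ Ioo (-π) π ⊆ Ioi (0 : ℝ) ×ˢ Ioo (-π) π :=
      prod_mono (fun x hx => hx.1) subset_rfl
    have hm : MeasurableSet (Ioc (0:ℝ) r ×ˢ Ioo (-π) π) := measurableSet_Ioc.prod measurableSet_Ioo
    have k1 : ∫ p in Ioi (0 : ℝ) ×ˢ Ioo (-π) π,
        p.1 • ((closedBall (0 : ℂ) r).indicator (fun w => G (z + w)) (Complex.polarCoord.symm p)) =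
        ∫ p in Ioc (0:ℝ) r ×ˢ Ioo (-π) π,
        p.1 • ((closedBall (0 : ℂ) r).indicator (fun w => G (z + w)) (Complex.polarCoord.symm p)) := by
      refine setIntegral_eq_of_subset_of_forall_sdiff_eq_zero
        (measurableSet_Ioi.prod measurableSet_Ioo) hsub ?_
      rintro ⟨a, b⟩ ⟨⟨ha, hb⟩, hn⟩
      rw [indicator_of_notMem, smul_zero]
      rw [mem_closedBall_zero_iff, norm_polarCoord_symm]
      intro h
      apply hn
      have ha' : (0 : ℝ) < a := ha
      simp only [abs_of_pos ha'] at h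
      exact ⟨⟨ha, h⟩, hb⟩
    rw [k1]
    refine setIntegral_congr_fun hm ?_
    rintro ⟨a, b⟩ ⟨ha, hb⟩
    have hmem : Complex.polarCoord.symm (a, b) ∈ closedBall (0 : ℂ) r := by
      rw [mem_closedBall_zero_iff, norm_polarCoord_symm]
      have ha' : (0 : ℝ) < a ∧ a ≤ r := ha
      simp only [abs_of_pos ha'.1]
      exact ha'.2
    simp only
    rw [indicator_of_mem hmem, Complex.polarCoord_symm_apply]
    simp only [Complex.ofReal_cos, Complex.ofReal_sin, Complex.exp_mul_I]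
  have hcont : Continuous (fun p : ℝ × ℝ => p.1 • G (z + p.1 * exp (p.2 * I))) := by
    have := hG.continuous
    fun_prop
  have e5 : ∫ p in (Ioc 0 r ×ˢ Ioo (-π) π), (fun p : ℝ × ℝ => p.1 • G (z + p.1 * exp (p.2 * I))) p =
      ∫ ρ in Ioc 0 r, ∫ θ in Ioo (-π) π, ρ • G (z + ρ * exp (θ * I)) := by
    rw [Measure.volume_eq_prod, setIntegral_prod]
    rw [← Measure.volume_eq_prod]
    have hc : IntegrableOn (fun p : ℝ × ℝ => p.1 • G (z + p.1 * exp (p.2 * I)))
        (Icc 0 r ×ˢ Icc (-π) π) := hcont.continuousOn.integrableOn_compact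
          (isCompact_Icc.prod isCompact_Icc)
    exact hc.mono_set (prod_mono Ioc_subset_Icc_self Ioo_subset_Icc_self)
  have e6 : ∫ ρ in Ioc 0 r, ∫ θ in Ioo (-π) π, ρ • G (z + ρ * exp (θ * I)) =
      ∫ ρ in Ioc 0 r, ρ • ((2 * π) • G z) := by
    refine setIntegral_congr_fun measurableSet_Ioc ?_
    intro ρ _
    simp only
    rw [integral_smul, circle_int G hG z ρ]
  rw [e1, e2, ← e3, e4, e5, e6, integral_smul_const, ← intervalIntegral.integral_of_le hr,
    integral_id, smul_smul]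
  congr 1
  ring

/-- (A12) subharmonicity of the modulus, area form -/
theorem norm_le_area (G : ℂ → ℂ) (hG : Differentiable ℂ G) (z : ℂ) (r : ℝ) (hr : 0 < r) :
    ‖G z‖ ≤ 1 / (π * r ^ 2) * ∫ w in closedBall z r, ‖G w‖ := by
  have hpi := Real.pi_pos
  have h := area_mean G hG z r hr.le
  have h2 : (π * r ^ 2) * ‖G z‖ ≤ ∫ w in closedBall z r, ‖G w‖ := by
    calc (π * r ^ 2) * ‖G z‖ = ‖(π * r ^ 2) • G z‖ := by
          rw [norm_smul, Real.norm_eq_abs, abs_of_pos (by positivity)]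
      _ = ‖∫ w in closedBall z r, G w‖ := by rw [h]
      _ ≤ _ := norm_integral_le_integral_norm _
  rw [one_div, inv_mul_eq_div, le_div_iff₀ (by positivity)]
  linarith

/-- the same for powers -/
theorem pow_le_area (F : ℂ → ℂ) (hF : Differentiable ℂ F) (m : ℕ) (z : ℂ) (r : ℝ) (hr : 0 < r) :
    ‖F z‖ ^ m ≤ 1 / (π * r ^ 2) * ∫ w in closedBall z r, ‖F w‖ ^ m := by
  have := norm_le_area (fun w => F w ^ m) (hF.pow m) z r hr
  simpa only [norm_pow] using this

/-- sum over separated points -/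
theorem sum_le_area {ι : Type*} (s : Finset ι) (pt : ι → ℂ) (F : ℂ → ℂ) (hF : Differentiable ℂ F)
    (m : ℕ) (r : ℝ) (hr : 0 < r) (hsep : ∀ i ∈ s, ∀ j ∈ s, i ≠ j → 2 * r < dist (pt i) (pt j))
    (Ω : Set ℂ) (hsub : ∀ i ∈ s, closedBall (pt i) r ⊆ Ω)
    (hint : IntegrableOn (fun w => ‖F w‖ ^ m) Ω) :
    ∑ i ∈ s, ‖F (pt i)‖ ^ m ≤ 1 / (π * r ^ 2) * ∫ w in Ω, ‖F w‖ ^ m := by
  have hpi := Real.pi_pos
  have h1 : ∑ i ∈ s, ‖F (pt i)‖ ^ m ≤
      ∑ i ∈ s, 1 / (π * r ^ 2) * ∫ w in closedBall (pt i) r, ‖F w‖ ^ m :=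
    Finset.sum_le_sum (fun i _ => pow_le_area F hF m (pt i) r hr)
  refine h1.trans ?_
  rw [← Finset.mul_sum]
  apply mul_le_mul_of_nonneg_left _ (by positivity)
  have hd : (↑s : Set ι).PairwiseDisjoint (fun i => closedBall (pt i) r) := by
    intro i hi j hj hij
    apply closedBall_disjoint_closedBall
    have := hsep i hi j hj hij
    linarith
  have h2 : ∑ i ∈ s, ∫ w in closedBall (pt i) r, ‖F w‖ ^ m =
      ∫ w in ⋃ i ∈ s, closedBall (pt i) r, ‖F w‖ ^ m := by
    rw [integral_biUnion_finset s (fun i _ => measurableSet_closedBall) hd]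
    intro i hi
    exact hint.mono_set (hsub i hi)
  rw [h2]
  apply setIntegral_mono_set hint
  · exact Filter.Eventually.of_forall (fun w => by positivity)
  · apply LE.le.eventuallyLE
    exact iUnion₂_subset hsub

end Pool.Agent.M20.Helper6.KSZ
end

/- Helper53.KN.Helper6.KSZ.MeanValue -/
section
/-! Mean values (project KSZ, inputs A11, A11', A12, A12', A13). -/

set_option autoImplicit false
open MeasureTheory Finset
open scoped Real

namespace Pool.Agent.M20.Helper6.KSZ

open Pool.Agent.M20.Helper10.KSZ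

/-! ### bins -/

section bins

variable {ι : Type} (S : Finset ι) (a : ι → ℝ) (b : ι → ℤ)

noncomputable def binSum (γ : ℤ) : ℝ := ∑ k ∈ S.filter (fun k => b k = γ), a k

theorem binSum_zero {γ : ℤ} (h : γ ∉ S.image b) : binSum S a b γ = 0 := by
  unfold binSum
  rw [Finset.sum_eq_zero]
  intro k hk
  exfalso
  exact h (Finset.mem_image.2 ⟨k, (Finset.mem_filter.1 hk).1, (Finset.mem_filter.1 hk).2⟩)

theorem pair_shift (d : ℤ) :
    ∑ j ∈ S, ∑ k ∈ S, (if b k = b j + d then a j * a k else 0) =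
      ∑ β ∈ S.image b, binSum S a b β * binSum S a b (β + d) := by
  have h1 : ∀ j ∈ S, ∑ k ∈ S, (if b k = b j + d then a j * a k else 0) =
      a j * binSum S a b (b j + d) := by
    intro j _
    unfold binSum
    rw [Finset.mul_sum, Finset.sum_filter]
  rw [Finset.sum_congr rfl h1]
  rw [← Finset.sum_fiberwise_of_maps_to (t := S.image b) (g := b)
    (fun j hj => Finset.mem_image_of_mem _ hj)]
  refine Finset.sum_congr rfl (fun β _ => ?_)
  unfold binSum
  rw [Finset.sum_mul]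
  refine Finset.sum_congr rfl (fun j hj => ?_)
  rw [(Finset.mem_filter.1 hj).2]

theorem shift_le (d : ℤ) :
    ∑ β ∈ S.image b, binSum S a b (β + d) ^ 2 ≤ ∑ β ∈ S.image b, binSum S a b β ^ 2 := by
  have h1 : ∑ β ∈ S.image b, binSum S a b (β + d) ^ 2 =
      ∑ γ ∈ (S.image b).image (fun β => β + d), binSum S a b γ ^ 2 := by
    rw [Finset.sum_image (s := S.image b) (g := fun β => β + d)
      (fun x _ y _ h => by simpa using h)]
  rw [h1]
  have h2 : ∑ γ ∈ (S.image b).image (fun β => β + d), binSum S a b γ ^ 2 =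
      ∑ γ ∈ ((S.image b).image (fun β => β + d)).filter (fun γ => γ ∈ S.image b),
        binSum S a b γ ^ 2 := by
    rw [Finset.sum_filter]
    refine Finset.sum_congr rfl (fun γ _ => ?_)
    by_cases h : γ ∈ S.image b
    · rw [if_pos h]
    · rw [if_neg h, binSum_zero S a b h]; norm_num
  rw [h2]
  refine Finset.sum_le_sum_of_subset_of_nonneg ?_ (fun γ _ _ => sq_nonneg _)
  intro γ hγ
  exact (Finset.mem_filter.1 hγ).2

theorem pair_shift_le (d : ℤ) :
    ∑ j ∈ S, ∑ k ∈ S, (if b k = b j + d then a j * a k else 0) ≤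
      ∑ β ∈ S.image b, binSum S a b β ^ 2 := by
  rw [pair_shift]
  have h1 : ∑ β ∈ S.image b, binSum S a b β * binSum S a b (β + d) ≤
      ∑ β ∈ S.image b, (binSum S a b β ^ 2 / 2 + binSum S a b (β + d) ^ 2 / 2) := by
    refine Finset.sum_le_sum (fun β _ => ?_)
    (clear * -; nlinarith [sq_nonneg (binSum S a b β - binSum S a b (β + d))])
  refine h1.trans ?_
  rw [Finset.sum_add_distrib, ← Finset.sum_div, ← Finset.sum_div]
  have := shift_le S a b d
  (clear * - this; linarith)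

theorem pair_le (ha : ∀ j ∈ S, 0 ≤ a j) (m : ℕ) :
    ∑ j ∈ S, ∑ k ∈ S, (if |b j - b k| ≤ m then a j * a k else 0) ≤
      (2 * m + 1) * ∑ β ∈ S.image b, binSum S a b β ^ 2 := by
  have h1 : ∀ j ∈ S, ∀ k ∈ S, (if |b j - b k| ≤ m then a j * a k else 0) ≤
      ∑ d ∈ Finset.Icc (-(m : ℤ)) m, (if b k = b j + d then a j * a k else 0) := by
    intro j hj k hk
    have hnn : 0 ≤ a j * a k := mul_nonneg (ha j hj) (ha k hk)
    by_cases h : |b j - b k| ≤ m
    · rw [if_pos h]
      have hmem : b k - b j ∈ Finset.Icc (-(m : ℤ)) m := by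
        rw [abs_le] at h
        rw [Finset.mem_Icc]
        omega
      refine le_trans (le_of_eq ?_) (Finset.single_le_sum (f := fun d =>
        (if b k = b j + d then a j * a k else 0)) (fun d _ => ?_) hmem)
      · rw [if_pos (by ring)]
      · split_ifs
        · exact hnn
        · exact le_rfl
    · rw [if_neg h]
      refine Finset.sum_nonneg (fun d _ => ?_)
      split_ifs
      · exact hnn
      · exact le_rfl
  calc ∑ j ∈ S, ∑ k ∈ S, (if |b j - b k| ≤ m then a j * a k else 0) ≤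
        ∑ j ∈ S, ∑ k ∈ S, ∑ d ∈ Finset.Icc (-(m : ℤ)) m, (if b k = b j + d then a j * a k else 0) :=
        Finset.sum_le_sum (fun j hj => Finset.sum_le_sum (fun k hk => h1 j hj k hk))
    _ = ∑ d ∈ Finset.Icc (-(m : ℤ)) m, ∑ j ∈ S, ∑ k ∈ S,
        (if b k = b j + d then a j * a k else 0) := by
        rw [Finset.sum_comm]
        rw [Finset.sum_congr rfl (fun k _ => Finset.sum_comm)]
        rw [Finset.sum_comm]
        refine Finset.sum_congr rfl (fun d _ => ?_)
        rw [Finset.sum_comm]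
    _ ≤ ∑ d ∈ Finset.Icc (-(m : ℤ)) m, ∑ β ∈ S.image b, binSum S a b β ^ 2 :=
        Finset.sum_le_sum (fun d _ => pair_shift_le S a b d)
    _ = _ := by
        rw [Finset.sum_const, Int.card_Icc, nsmul_eq_mul]
        congr 1
        have : ((m : ℤ) + 1 - -(m : ℤ)).toNat = 2 * m + 1 := by omega
        rw [this]
        push_cast
        ring

theorem diag_eq :
    ∑ β ∈ S.image b, binSum S a b β ^ 2 =
      ∑ j ∈ S, ∑ k ∈ S, (if b k = b j then a j * a k else 0) := by
  have := pair_shift S a b 0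
  simp only [add_zero] at this
  rw [this]
  refine Finset.sum_congr rfl (fun β _ => ?_)
  ring

end bins

/-- (A11') with the better constant `2m+1` -/
theorem a11'_strong (ι : Type) (S : Finset ι) (a : ι → ℝ) (y : ι → ℝ) (T : ℝ) (m : ℕ)
    (hT : 0 < T) (ha : ∀ j ∈ S, 0 ≤ a j) :
    (∑ j ∈ S, ∑ k ∈ S, if |y j - y k| ≤ m / T then a j * a k else 0) ≤
      (2 * m + 1) * ∑ j ∈ S, ∑ k ∈ S, if |y j - y k| ≤ 1 / T then a j * a k else 0 := by
  set b : ι → ℤ := fun j => ⌊T * y j⌋ with hb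
  have h1 : (∑ j ∈ S, ∑ k ∈ S, if |y j - y k| ≤ m / T then a j * a k else 0) ≤
      ∑ j ∈ S, ∑ k ∈ S, (if |b j - b k| ≤ m then a j * a k else 0) := by
    refine Finset.sum_le_sum (fun j hj => Finset.sum_le_sum (fun k hk => ?_))
    have hnn : 0 ≤ a j * a k := mul_nonneg (ha j hj) (ha k hk)
    by_cases h : |y j - y k| ≤ m / T
    · rw [if_pos h, if_pos]
      rw [abs_le, neg_le_iff_add_nonneg] at h ⊢
      have e1 : T * y j ≤ T * y k + m := by
        have : y j - y k ≤ m / T := h.2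
        rw [le_div_iff₀ hT] at this
        (clear * - this; linarith)
      have e2 : T * y k ≤ T * y j + m := by
        have : y k - y j ≤ m / T := by (clear * - h; linarith [h.1])
        rw [le_div_iff₀ hT] at this
        (clear * - this; linarith)
      have f1 := Int.floor_le_floor e1
      have f2 := Int.floor_le_floor e2
      rw [Int.floor_add_natCast] at f1 f2
      simp only [hb]
      constructor <;> omega
    · rw [if_neg h]
      split_ifs
      · exact hnn
      · exact le_rfl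
  have h2 := pair_le S a b ha m
  have h3 : ∑ β ∈ S.image b, binSum S a b β ^ 2 ≤
      ∑ j ∈ S, ∑ k ∈ S, if |y j - y k| ≤ 1 / T then a j * a k else 0 := by
    rw [diag_eq]
    refine Finset.sum_le_sum (fun j hj => Finset.sum_le_sum (fun k hk => ?_))
    have hnn : 0 ≤ a j * a k := mul_nonneg (ha j hj) (ha k hk)
    by_cases h : b k = b j
    · rw [if_pos h, if_pos]
      have e1 := Int.abs_sub_lt_one_of_floor_eq_floor (R := ℝ) h.symm
      rw [← mul_sub, abs_mul, abs_of_pos hT] at e1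
      rw [le_div_iff₀ hT]
      (clear * - e1; linarith)
    · rw [if_neg h]
      split_ifs
      · exact hnn
      · exact le_rfl
  refine h1.trans (h2.trans ?_)
  exact mul_le_mul_of_nonneg_left h3 (by (clear * -; positivity))

/-! ### Gaussian mean value -/

/-- the kernel as complex function -/
noncomputable def gk (T u t : ℝ) : ℂ :=
  ((Real.exp (-(t / T) ^ 2) : ℝ) : ℂ) * Complex.exp (Complex.I * (u * t : ℝ))

theorem gk_eq (T u t : ℝ) (hT : 0 < T) :
    gk T u t = Complex.exp (Complex.I * (u : ℂ) * t) * Complex.exp (-((1 / T ^ 2 : ℝ) : ℂ) * (t : ℂ) ^ 2) := by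
  unfold gk
  rw [mul_comm, Complex.ofReal_exp]
  congr 1
  · congr 1; push_cast; ring
  · congr 1
    push_cast
    have : (T : ℂ) ≠ 0 := by exact_mod_cast hT.ne'
    (clear * - this; field_simp)

theorem gk_integral (T u : ℝ) (hT : 0 < T) :
    ‖∫ t : ℝ, gk T u t‖ = Real.sqrt π * T * Real.exp (-(T * u) ^ 2 / 4) := by
  have hpi := Real.pi_pos
  have hb : 0 < (((1 / T ^ 2 : ℝ) : ℂ)).re := by
    rw [Complex.ofReal_re]; (clear * - hT; positivity)
  have h := fourierIntegral_gaussian hb (u : ℂ)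
  simp only [gk_eq T u _ hT]
  rw [h, norm_mul]
  congr 1
  · have e : ((π : ℂ) / ((1 / T ^ 2 : ℝ) : ℂ)) = ((π * T ^ 2 : ℝ) : ℂ) := by
      push_cast
      have : (T : ℂ) ≠ 0 := by exact_mod_cast hT.ne'
      (clear * - this; field_simp)
    rw [e, show (1 / 2 : ℂ) = (((1 / 2 : ℝ)) : ℂ) by push_cast; ring, ← Complex.ofReal_cpow (by positivity),
      Complex.norm_real, Real.norm_eq_abs, abs_of_nonneg (by positivity), ← Real.sqrt_eq_rpow,
      Real.sqrt_mul hpi.le, Real.sqrt_sq hT.le]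
  · have e : (-(u : ℂ) ^ 2 / (4 * ((1 / T ^ 2 : ℝ) : ℂ))) = ((-(T * u) ^ 2 / 4 : ℝ) : ℂ) := by
      push_cast
      have : (T : ℂ) ≠ 0 := by exact_mod_cast hT.ne'
      (clear * - this; field_simp)
    rw [e, ← Complex.ofReal_exp, Complex.norm_real, Real.norm_eq_abs, abs_of_nonneg (by positivity)]

theorem gk_integrable (T u : ℝ) (hT : 0 < T) : Integrable (gk T u) := by
  by_contra H
  have h := gk_integral T u hT
  rw [integral_undef H, norm_zero] at h
  have : 0 < Real.sqrt π * T * Real.exp (-(T * u) ^ 2 / 4) := by positivity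
  (clear * - h this; linarith)

section mv

variable {ι : Type} (S : Finset ι) (a : ι → ℂ) (y : ι → ℝ) (T : ℝ)

theorem mv_expand (t : ℝ) :
    ((Real.exp (-(t / T) ^ 2) *
      ‖∑ j ∈ S, a j * Complex.exp (Complex.I * (y j * t : ℝ))‖ ^ 2 : ℝ) : ℂ) =
    ∑ j ∈ S, ∑ k ∈ S, (a j * (starRingEnd ℂ) (a k)) * gk T (y j - y k) t := by
  push_cast
  rw [← Complex.mul_conj', map_sum, Finset.sum_mul_sum, Finset.mul_sum]
  refine Finset.sum_congr rfl (fun j _ => ?_)
  rw [Finset.mul_sum]
  refine Finset.sum_congr rfl (fun k _ => ?_)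
  unfold gk
  have e : Complex.exp (Complex.I * ((y j - y k) * t : ℝ)) =
      Complex.exp (Complex.I * (y j * t : ℝ)) *
        (starRingEnd ℂ) (Complex.exp (Complex.I * (y k * t : ℝ))) := by
    rw [← Complex.exp_conj, ← Complex.exp_add]
    congr 1
    simp only [map_mul, Complex.conj_I, Complex.conj_ofReal]
    push_cast
    ring
  rw [e, map_mul, Complex.ofReal_exp]
  push_cast
  ring

theorem mv_integrable (hT : 0 < T) :
    Integrable (fun t : ℝ => Real.exp (-(t / T) ^ 2) *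
      ‖∑ j ∈ S, a j * Complex.exp (Complex.I * (y j * t : ℝ))‖ ^ 2) := by
  have h : Integrable (fun t : ℝ => ∑ j ∈ S, ∑ k ∈ S,
      (a j * (starRingEnd ℂ) (a k)) * gk T (y j - y k) t) :=
    integrable_finsetSum _ (fun j _ => integrable_finsetSum _ (fun k _ =>
      (gk_integrable T _ hT).const_mul _))
  have h2 : Integrable (fun t : ℝ => ((Real.exp (-(t / T) ^ 2) *
      ‖∑ j ∈ S, a j * Complex.exp (Complex.I * (y j * t : ℝ))‖ ^ 2 : ℝ) : ℂ)) := by
    simp only [mv_expand]
    exact h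
  have h3 := h2.re
  simpa only [RCLike.re_eq_complex_re, Complex.ofReal_re] using h3

theorem mv_le (hT : 0 < T) :
    ∫ t : ℝ, Real.exp (-(t / T) ^ 2) *
      ‖∑ j ∈ S, a j * Complex.exp (Complex.I * (y j * t : ℝ))‖ ^ 2 ≤
    Real.sqrt π * T * ∑ j ∈ S, ∑ k ∈ S, (‖a j‖ * ‖a k‖) *
      Real.exp (-(T * (y j - y k)) ^ 2 / 4) := by
  set f : ℝ → ℝ := fun t => Real.exp (-(t / T) ^ 2) *
      ‖∑ j ∈ S, a j * Complex.exp (Complex.I * (y j * t : ℝ))‖ ^ 2 with hf
  have h1 : ((∫ t : ℝ, f t : ℝ) : ℂ) = ∑ j ∈ S, ∑ k ∈ S,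
      (a j * (starRingEnd ℂ) (a k)) * ∫ t : ℝ, gk T (y j - y k) t := by
    rw [← integral_complex_ofReal]
    simp only [hf, mv_expand]
    rw [integral_finsetSum]
    · refine Finset.sum_congr rfl (fun j _ => ?_)
      rw [integral_finsetSum]
      · refine Finset.sum_congr rfl (fun k _ => ?_)
        rw [integral_const_mul]
      · intro k _
        exact (gk_integrable T _ hT).const_mul _
    · intro j _
      exact integrable_finsetSum _ (fun k _ => (gk_integrable T _ hT).const_mul _)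
  have h2 : ∫ t : ℝ, f t ≤ ‖((∫ t : ℝ, f t : ℝ) : ℂ)‖ := by
    rw [Complex.norm_real]
    exact le_abs_self _
  refine h2.trans ?_
  rw [h1]
  refine (norm_sum_le _ _).trans ?_
  rw [Finset.mul_sum]
  refine Finset.sum_le_sum (fun j _ => (norm_sum_le _ _).trans ?_)
  rw [Finset.mul_sum]
  refine Finset.sum_le_sum (fun k _ => le_of_eq ?_)
  rw [norm_mul, norm_mul, RCLike.norm_conj, gk_integral T _ hT]
  ring

end mv

/-! ### from Gaussian weights to pairs at distance `1/T` -/

theorem gw_summable : Summable (fun m : ℕ => Real.exp (-(m : ℝ) ^ 2 / 4) * (2 * (m : ℝ) + 3)) := by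
  have h1 : Summable (fun m : ℕ => Real.exp 1 * (2 * ((m : ℝ) ^ 1 * Real.exp (-1) ^ m) +
      3 * ((m : ℝ) ^ 0 * Real.exp (-1) ^ m))) := by
    have hr : ‖Real.exp (-1)‖ < 1 := by
      rw [Real.norm_eq_abs, abs_of_pos (Real.exp_pos _)]
      have := Real.exp_lt_exp.2 (show (-1 : ℝ) < 0 by norm_num)
      rwa [Real.exp_zero] at this
    exact (((summable_pow_mul_geometric_of_norm_lt_one 1 hr).mul_left 2).add
      ((summable_pow_mul_geometric_of_norm_lt_one 0 hr).mul_left 3)).mul_left _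
  refine Summable.of_nonneg_of_le (fun m => by (clear * -; positivity)) (fun m => ?_) h1
  have e1 : Real.exp (-(m : ℝ) ^ 2 / 4) ≤ Real.exp 1 * Real.exp (-1) ^ m := by
    rw [← Real.exp_nat_mul, ← Real.exp_add]
    apply Real.exp_le_exp.2
    nlinarith [sq_nonneg ((m : ℝ) / 2 - 1)]
  have e2 : (0 : ℝ) ≤ 2 * m + 3 := by (clear * -; positivity)
  calc Real.exp (-(m : ℝ) ^ 2 / 4) * (2 * (m : ℝ) + 3) ≤
        (Real.exp 1 * Real.exp (-1) ^ m) * (2 * (m : ℝ) + 3) := mul_le_mul_of_nonneg_right e1 e2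
    _ = _ := by ring

theorem gw_pairs {ι : Type} (S : Finset ι) (c : ι → ℝ) (y : ι → ℝ) (T : ℝ) (hT : 0 < T)
    (hc : ∀ j ∈ S, 0 ≤ c j) :
    ∑ j ∈ S, ∑ k ∈ S, (c j * c k) * Real.exp (-(T * (y j - y k)) ^ 2 / 4) ≤
      (∑' m : ℕ, Real.exp (-(m : ℝ) ^ 2 / 4) * (2 * (m : ℝ) + 3)) *
        ∑ j ∈ S, ∑ k ∈ S, if |y j - y k| ≤ 1 / T then c j * c k else 0 := by
  set D := ∑ j ∈ S, ∑ k ∈ S, if |y j - y k| ≤ 1 / T then c j * c k else 0 with hD
  have hD0 : 0 ≤ D := by
    refine Finset.sum_nonneg (fun j hj => Finset.sum_nonneg (fun k hk => ?_))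
    split_ifs
    · exact mul_nonneg (hc j hj) (hc k hk)
    · exact le_rfl
  -- a common bound for the distances
  obtain ⟨M, hM⟩ : ∃ M : ℕ, ∀ j ∈ S, ∀ k ∈ S, T * |y j - y k| < M := by
    obtain ⟨M, hM⟩ := exists_nat_gt (∑ j ∈ S, ∑ k ∈ S, T * |y j - y k|)
    refine ⟨M, fun j hj k hk => lt_of_le_of_lt ?_ hM⟩
    calc T * |y j - y k| ≤ ∑ k ∈ S, T * |y j - y k| :=
          Finset.single_le_sum (f := fun k => T * |y j - y k|) (fun k _ => by (clear * - hT; positivity)) hk
      _ ≤ _ := Finset.single_le_sum (f := fun j => ∑ k ∈ S, T * |y j - y k|)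
          (fun j _ => Finset.sum_nonneg (fun k _ => by (clear * - hT; positivity))) hj
  have h1 : ∀ j ∈ S, ∀ k ∈ S, (c j * c k) * Real.exp (-(T * (y j - y k)) ^ 2 / 4) ≤
      ∑ m ∈ Finset.range M, Real.exp (-(m : ℝ) ^ 2 / 4) *
        (if |y j - y k| ≤ ((m + 1 : ℕ) : ℝ) / T then c j * c k else 0) := by
    intro j hj k hk
    have hnn : 0 ≤ c j * c k := mul_nonneg (hc j hj) (hc k hk)
    set x := T * |y j - y k| with hx
    have hx0 : 0 ≤ x := by (clear * - hT; positivity)
    have hxM := hM j hj k hk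
    have hfl : ⌊x⌋₊ ∈ Finset.range M := by
      rw [Finset.mem_range]
      exact (Nat.floor_lt hx0).2 hxM
    refine le_trans ?_ (Finset.single_le_sum (f := fun m : ℕ => Real.exp (-(m : ℝ) ^ 2 / 4) *
        (if |y j - y k| ≤ ((m + 1 : ℕ) : ℝ) / T then c j * c k else 0)) (fun m _ => ?_) hfl)
    · rw [if_pos]
      · rw [mul_comm]
        apply mul_le_mul_of_nonneg_right _ hnn
        apply Real.exp_le_exp.2
        have e1 : (T * (y j - y k)) ^ 2 = x ^ 2 := by
          rw [hx, mul_pow, mul_pow, sq_abs]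
        have e2 := Nat.floor_le hx0
        have e3 : (0 : ℝ) ≤ (⌊x⌋₊ : ℝ) := Nat.cast_nonneg _
        rw [e1]
        (clear * - e2 hx0; nlinarith)
      · rw [le_div_iff₀ hT]
        have := (Nat.lt_floor_add_one x).le
        push_cast
        (clear * - this; linarith)
    · split_ifs
      · (clear * - hnn; positivity)
      · simp
  calc ∑ j ∈ S, ∑ k ∈ S, (c j * c k) * Real.exp (-(T * (y j - y k)) ^ 2 / 4) ≤
        ∑ j ∈ S, ∑ k ∈ S, ∑ m ∈ Finset.range M, Real.exp (-(m : ℝ) ^ 2 / 4) *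
        (if |y j - y k| ≤ ((m + 1 : ℕ) : ℝ) / T then c j * c k else 0) :=
        Finset.sum_le_sum (fun j hj => Finset.sum_le_sum (fun k hk => h1 j hj k hk))
    _ = ∑ m ∈ Finset.range M, Real.exp (-(m : ℝ) ^ 2 / 4) * ∑ j ∈ S, ∑ k ∈ S,
        (if |y j - y k| ≤ ((m + 1 : ℕ) : ℝ) / T then c j * c k else 0) := by
        rw [Finset.sum_congr rfl (fun j _ => Finset.sum_comm), Finset.sum_comm]
        refine Finset.sum_congr rfl (fun m _ => ?_)
        rw [Finset.mul_sum]
        refine Finset.sum_congr rfl (fun j _ => ?_)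
        rw [Finset.mul_sum]
    _ ≤ ∑ m ∈ Finset.range M, Real.exp (-(m : ℝ) ^ 2 / 4) * ((2 * (m : ℝ) + 3) * D) := by
        refine Finset.sum_le_sum (fun m _ => ?_)
        apply mul_le_mul_of_nonneg_left _ (Real.exp_pos _).le
        have := a11'_strong ι S c y T (m + 1) hT hc
        refine this.trans (le_of_eq ?_)
        push_cast
        ring
    _ = (∑ m ∈ Finset.range M, Real.exp (-(m : ℝ) ^ 2 / 4) * (2 * (m : ℝ) + 3)) * D := by
        rw [Finset.sum_mul]
        refine Finset.sum_congr rfl (fun m _ => ?_)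
        ring
    _ ≤ _ := by
        apply mul_le_mul_of_nonneg_right _ hD0
        exact gw_summable.sum_le_tsum _ (fun m _ => by positivity)

theorem a11 : A11 := by
  refine ⟨Real.sqrt π * (∑' m : ℕ, Real.exp (-(m : ℝ) ^ 2 / 4) * (2 * (m : ℝ) + 3)), ?_, ?_⟩
  · have hpi := Real.pi_pos
    have : 0 < ∑' m : ℕ, Real.exp (-(m : ℝ) ^ 2 / 4) * (2 * (m : ℝ) + 3) :=
      gw_summable.tsum_pos (fun m => by (clear * -; positivity)) 0 (by (clear * -; positivity))
    positivity
  · intro ι S a y T hT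
    refine ⟨mv_integrable S a y T hT, (mv_le S a y T hT).trans ?_⟩
    have h := gw_pairs S (fun j => ‖a j‖) y T hT (fun j _ => norm_nonneg _)
    calc Real.sqrt π * T * ∑ j ∈ S, ∑ k ∈ S, (‖a j‖ * ‖a k‖) *
          Real.exp (-(T * (y j - y k)) ^ 2 / 4) ≤ Real.sqrt π * T *
          ((∑' m : ℕ, Real.exp (-(m : ℝ) ^ 2 / 4) * (2 * (m : ℝ) + 3)) *
          ∑ j ∈ S, ∑ k ∈ S, if |y j - y k| ≤ 1 / T then ‖a j‖ * ‖a k‖ else 0) := by
          apply mul_le_mul_of_nonneg_left h (by positivity)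
      _ = _ := by ring

/-! ### separated points -/

theorem rect_integral (f : ℂ → ℝ) (hf : Continuous f) (σ₁ σ₂ t₁ t₂ : ℝ) (h1 : σ₁ ≤ σ₂)
    (h2 : t₁ ≤ t₂) :
    ∫ w in (Set.Icc σ₁ σ₂ ×ℂ Set.Icc t₁ t₂), f w =
      ∫ σ in σ₁..σ₂, ∫ t in t₁..t₂, f (σ + t * Complex.I) := by
  have e1 := (Complex.volume_preserving_equiv_real_prod.symm).setIntegral_preimage_emb
    Complex.measurableEquivRealProd.symm.measurableEmbedding f (Set.Icc σ₁ σ₂ ×ℂ Set.Icc t₁ t₂)
  rw [← e1]
  have e2 : Complex.measurableEquivRealProd.symm ⁻¹' (Set.Icc σ₁ σ₂ ×ℂ Set.Icc t₁ t₂) =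
      Set.Icc σ₁ σ₂ ×ˢ Set.Icc t₁ t₂ := by
    ext ⟨x, y⟩
    simp [Complex.measurableEquivRealProd, Complex.mem_reProdIm]
    tauto
  have e3 : ∀ p : ℝ × ℝ, f (Complex.measurableEquivRealProd.symm p) = f (p.1 + p.2 * Complex.I) := by
    intro p
    congr 1
    apply Complex.ext <;> simp [Complex.measurableEquivRealProd]
  rw [e2]
  simp only [e3]
  rw [Measure.volume_eq_prod, setIntegral_prod]
  · rw [intervalIntegral.integral_of_le h1, ← integral_Icc_eq_integral_Ioc]
    refine setIntegral_congr_fun measurableSet_Icc ?_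
    intro σ _
    simp only
    rw [intervalIntegral.integral_of_le h2, ← integral_Icc_eq_integral_Ioc]
  · rw [← Measure.volume_eq_prod]
    apply ContinuousOn.integrableOn_compact (isCompact_Icc.prod isCompact_Icc)
    apply Continuous.continuousOn
    fun_prop

theorem a12' : A12' := by
  intro F hF Z r σ₁ σ₂ t₁ t₂ hr h1 h2 hsep hZ
  have hc : Continuous (fun w => ‖F w‖ ^ 2) := by
    have := hF.continuous
    fun_prop
  rw [← rect_integral (fun w => ‖F w‖ ^ 2) hc σ₁ σ₂ t₁ t₂ h1 h2]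
  refine sum_le_area Z (fun z => z) F hF 2 r hr hsep _ ?_ ?_
  · intro z hz w hw
    rw [Metric.mem_closedBall, dist_eq_norm] at hw
    have hre := (Complex.abs_re_le_norm (w - z)).trans hw
    have him := (Complex.abs_im_le_norm (w - z)).trans hw
    rw [Complex.sub_re, abs_le] at hre
    rw [Complex.sub_im, abs_le] at him
    obtain ⟨a1, a2, a3, a4⟩ := hZ z hz
    rw [Complex.mem_reProdIm]
    exact ⟨⟨by linarith [hre.1], by (clear * - hre a2; linarith [hre.2])⟩, ⟨by (clear * - him a3; linarith [him.1]), by (clear * - him a4; linarith [him.2])⟩⟩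
  · exact hc.continuousOn.integrableOn_compact (isCompact_Icc.reProdIm isCompact_Icc)

theorem a13 : A13 := by
  obtain ⟨C, hC, hA⟩ := a11
  refine ⟨Real.exp 4 * C, by positivity, ?_⟩
  intro ι S a y Z r σ₁ σ₂ T B hr hr1 hσ hT hsep hZ hB
  have hpi := Real.pi_pos
  set F : ℂ → ℂ := fun z => ∑ j ∈ S, a j * Complex.exp (y j * z) with hF
  have hFd : Differentiable ℂ F := by
    rw [hF]
    fun_prop
  have hT0 : 0 < T := by linarith
  have h1 := a12' F hFd Z r (σ₁ - r) (σ₂ + r) (-(T + r)) (T + r) hr (by (clear * - hr hσ; linarith)) (by linarith) hsep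
    (by
      intro z hz
      obtain ⟨b1, b2, b3⟩ := hZ z hz
      rw [abs_le] at b3
      exact ⟨by linarith, by linarith, by linarith [b3.1], by linarith [b3.2]⟩)
  refine h1.trans ?_
  have hline : ∀ σ ∈ Set.Icc (σ₁ - r) (σ₂ + r),
      ∫ t in (-(T + r))..(T + r), ‖F (σ + t * Complex.I)‖ ^ 2 ≤ Real.exp 4 * (C * T * B) := by
    intro σ hσ'
    have hexp : ∀ t : ℝ, F (σ + t * Complex.I) =
        ∑ j ∈ S, (a j * Complex.exp ((y j * σ : ℝ))) * Complex.exp (Complex.I * (y j * t : ℝ)) := by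
      intro t
      rw [hF]
      refine Finset.sum_congr rfl (fun j _ => ?_)
      rw [mul_assoc, ← Complex.exp_add]
      congr 2
      push_cast
      ring
    obtain ⟨hint, hval⟩ := hA ι S (fun j => a j * Complex.exp ((y j * σ : ℝ))) y T hT0
    have hD : (∑ j ∈ S, ∑ k ∈ S, if |y j - y k| ≤ 1 / T then
        ‖a j * Complex.exp ((y j * σ : ℝ))‖ * ‖a k * Complex.exp ((y k * σ : ℝ))‖ else 0) ≤ B := by
      refine le_trans (le_of_eq ?_) (hB σ hσ'.1 hσ'.2)
      refine Finset.sum_congr rfl (fun j _ => Finset.sum_congr rfl (fun k _ => ?_))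
      split_ifs
      · rw [norm_mul, norm_mul, ← Complex.ofReal_exp, ← Complex.ofReal_exp, Complex.norm_real,
          Complex.norm_real, Real.norm_eq_abs, Real.norm_eq_abs, abs_of_pos (Real.exp_pos _),
          abs_of_pos (Real.exp_pos _)]
        have : Real.exp (σ * (y j + y k)) = Real.exp (y j * σ) * Real.exp (y k * σ) := by
          rw [← Real.exp_add]; congr 1; ring
        rw [this]
        ring
      · rfl
    simp only [← hexp] at hint hval
    have hle : ∫ t in (-(T + r))..(T + r), ‖F (σ + t * Complex.I)‖ ^ 2 ≤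
        ∫ t : ℝ, Real.exp 4 * (Real.exp (-(t / T) ^ 2) * ‖F (σ + t * Complex.I)‖ ^ 2) := by
      rw [intervalIntegral.integral_of_le (by (clear * - hr hT; linarith))]
      have hc : Continuous (fun t : ℝ => ‖F (σ + t * Complex.I)‖ ^ 2) := by
        have := hFd.continuous
        fun_prop
      calc ∫ t in Set.Ioc (-(T + r)) (T + r), ‖F (σ + t * Complex.I)‖ ^ 2 ≤
            ∫ t in Set.Ioc (-(T + r)) (T + r),
              Real.exp 4 * (Real.exp (-(t / T) ^ 2) * ‖F (σ + t * Complex.I)‖ ^ 2) := by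
            apply setIntegral_mono_on
            · exact (hc.integrableOn_Icc (a := -(T + r)) (b := T + r)).mono_set Set.Ioc_subset_Icc_self
            · exact (hint.const_mul _).integrableOn
            · exact measurableSet_Ioc
            · intro t ht
              have ht2 : |t| ≤ 2 * T := by
                rw [abs_le]
                constructor <;> (clear * - hr1 hT ht; linarith [ht.1, ht.2])
              have h5 : (t / T) ^ 2 ≤ 4 := by
                have : |t / T| ≤ 2 := by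
                  rw [abs_div, abs_of_pos hT0, div_le_iff₀ hT0]
                  exact ht2
                have h6 := sq_le_sq' (by (clear * -; linarith [abs_nonneg (t / T)])) this
                rw [sq_abs] at h6
                (clear * - h6; linarith)
              have h7 : 1 ≤ Real.exp 4 * Real.exp (-(t / T) ^ 2) := by
                rw [← Real.exp_add]
                exact Real.one_le_exp (by (clear * - h5; linarith))
              have h8 : 0 ≤ ‖F (σ + t * Complex.I)‖ ^ 2 := by positivity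
              calc ‖F (σ + t * Complex.I)‖ ^ 2 = 1 * ‖F (σ + t * Complex.I)‖ ^ 2 := by ring
                _ ≤ (Real.exp 4 * Real.exp (-(t / T) ^ 2)) * ‖F (σ + t * Complex.I)‖ ^ 2 :=
                    mul_le_mul_of_nonneg_right h7 h8
                _ = _ := by ring
        _ ≤ _ := setIntegral_le_integral (hint.const_mul _)
              (Filter.Eventually.of_forall (fun t => by positivity))
    refine hle.trans ?_
    rw [integral_const_mul]
    apply mul_le_mul_of_nonneg_left _ (Real.exp_pos _).le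
    refine hval.trans ?_
    exact mul_le_mul_of_nonneg_left hD (by positivity)
  have hB0 : 0 ≤ Real.exp 4 * (C * T * B) := by
    have := hline σ₁ ⟨by linarith, by linarith⟩
    refine le_trans ?_ this
    apply intervalIntegral.integral_nonneg (by (clear * - hr hT; linarith))
    intro t _
    positivity
  have h2 : ∫ σ in (σ₁ - r)..(σ₂ + r), ∫ t in (-(T + r))..(T + r), ‖F (σ + t * Complex.I)‖ ^ 2 ≤
      (σ₂ - σ₁ + 2 * r) * (Real.exp 4 * (C * T * B)) := by
    have h3 : ∫ σ in (σ₁ - r)..(σ₂ + r), ∫ t in (-(T + r))..(T + r), ‖F (σ + t * Complex.I)‖ ^ 2 ≤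
        ∫ σ in (σ₁ - r)..(σ₂ + r), Real.exp 4 * (C * T * B) := by
      apply intervalIntegral.integral_mono_on (by linarith)
      · apply Continuous.intervalIntegrable
        have hc : Continuous (Function.uncurry (fun (σ t : ℝ) => ‖F (σ + t * Complex.I)‖ ^ 2)) := by
          have := hFd.continuous
          fun_prop
        exact intervalIntegral.continuous_parametric_intervalIntegral_of_continuous' hc _ _
      · exact intervalIntegrable_const
      · exact fun σ hσ' => hline σ hσ'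
    refine h3.trans (le_of_eq ?_)
    rw [intervalIntegral.integral_const, smul_eq_mul]
    ring
  have h4 : 1 / (π * r ^ 2) ≤ 1 / r ^ 2 := by
    apply one_div_le_one_div_of_le (by positivity)
    have : 1 ≤ π := by (clear * - hpi; linarith [Real.pi_gt_three])
    (clear * - this; nlinarith [sq_nonneg r])
  calc 1 / (π * r ^ 2) * ∫ σ in (σ₁ - r)..(σ₂ + r), ∫ t in (-(T + r))..(T + r),
        ‖F (σ + t * Complex.I)‖ ^ 2 ≤
        1 / (π * r ^ 2) * ((σ₂ - σ₁ + 2 * r) * (Real.exp 4 * (C * T * B))) :=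
        mul_le_mul_of_nonneg_left h2 (by positivity)
    _ ≤ 1 / r ^ 2 * ((σ₂ - σ₁ + 2 * r) * (Real.exp 4 * (C * T * B))) := by
        apply mul_le_mul_of_nonneg_right h4
        apply mul_nonneg (by (clear * - hr hσ; linarith)) hB0
    _ = _ := by ring

end Pool.Agent.M20.Helper6.KSZ
end
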