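import Mathlib
import Pool.Agent.Helper53.KO.G01
import Pool.Agent.Helper53.KO.G02
import Pool.Agent.Helper53.KO.G04
import Pool.Agent.Helper53.KO.G06
import Pool.Agent.Helper53.KO.G10
import Pool.Agent.Helper53.KO.G15
import Pool.Agent.Helper53.KO.G16

set_option linter.all false

/- Helper53.KN.Helper14.KS.Win -/
section
/-!
# Project KS: weighted counts of rough numbers in windows, conditional on a set of primes
-/

set_option autoImplicit false
open scoped Classical

namespace Pool.Agent.M20.Helper14.KS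

open Finset Pool.Agent.M20.Helper16.KS Pool.Agent.M20.Helper18.KL
open Pool.Agent.M20.Helper16.KS.Sys (rough)

/-- number of prime factors with multiplicity -/
def Om (n : ℕ) : ℕ := n.primeFactorsList.length

theorem Om_mul {m n : ℕ} (hm : m ≠ 0) (hn : n ≠ 0) : Om (m * n) = Om m + Om n := by
  unfold Om
  rw [(Nat.perm_primeFactorsList_mul hm hn).length_eq, List.length_append]

theorem card_divisors_le {n : ℕ} (hn : n ≠ 0) : n.divisors.card ≤ 2 ^ Om n := by
  induction n using Nat.recOnMul with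
  | zero => exact absurd rfl hn
  | one => simp [Om]
  | prime p hp => simp [Om, Nat.primeFactorsList_prime hp, hp.divisors, hp.one_lt.ne]
  | mul m n hm hk =>
    have hm0 : m ≠ 0 := left_ne_zero_of_mul hn
    have hn0 : n ≠ 0 := right_ne_zero_of_mul hn
    rw [Nat.divisors_mul, Om_mul hm0 hn0, pow_add]
    exact (Finset.card_mul_le).trans (Nat.mul_le_mul (hm hm0) (hk hn0))

theorem card_primeFactors_le {n : ℕ} : n.primeFactors.card ≤ Om n := by
  unfold Om Nat.primeFactors
  exact List.toFinset_card_le _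

theorem sum_factorization {n : ℕ} : ∑ p ∈ n.primeFactors, n.factorization p = Om n := by
  unfold Om
  rw [← ArithmeticFunction.cardFactors_apply, ArithmeticFunction.cardFactors_eq_sum_factorization]
  rfl

theorem sig_le_of_dvd (A : Finset ℕ) {e n : ℕ} (hn : n ≠ 0) (he : e ∣ n) : sig A e ≤ sig A n := by
  have he0 : e ≠ 0 := by rintro rfl; exact hn (Nat.eq_zero_of_zero_dvd he)
  unfold sig
  have hsub : e.primeFactors ⊆ n.primeFactors := Nat.primeFactors_mono he hn
  have hv : ∀ p, e.factorization p ≤ n.factorization p :=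
    fun p => (Nat.factorization_le_iff_dvd he0 hn).mpr he p
  calc (∏ p ∈ e.primeFactors, if p ∈ A then p ^ e.factorization p else p ^ (e.factorization p - 1))
      ≤ ∏ p ∈ e.primeFactors, if p ∈ A then p ^ n.factorization p
          else p ^ (n.factorization p - 1) := by
        refine prod_le_prod' fun p hp => ?_
        have hp0 : 0 < p := (Nat.prime_of_mem_primeFactors hp).pos
        have := hv p
        split_ifs
        · exact Nat.pow_le_pow_right hp0 this
        · exact Nat.pow_le_pow_right hp0 (by omega)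
    _ ≤ ∏ p ∈ n.primeFactors, if p ∈ A then p ^ n.factorization p
          else p ^ (n.factorization p - 1) := by
        refine prod_le_prod_of_subset_of_one_le' hsub fun p hp _ => ?_
        have hp0 : 0 < p := (Nat.prime_of_mem_primeFactors hp).pos
        split_ifs
        · exact Nat.one_le_pow _ _ hp0
        · exact Nat.one_le_pow _ _ hp0

/-- MAIN: windows of length `≥ 2^((1/2-3d)k)` in block `k` -/
theorem win_main (S : Sys) (ε : ℝ) (hε : 0 < ε) : ∃ K0 : ℕ, 6 ≤ K0 ∧ ∀ k0 : ℕ, K0 ≤ k0 →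
    ∀ k x h : ℕ, (k0 : ℝ) / 2 ≤ k → 2 ^ k ≤ x → x < 2 ^ (k + 1) →
    (2 : ℝ) ^ ((1/2 - 3 * S.d) * k) ≤ h → h ≤ x → ∀ A : Finset ℕ,
    ∑ n ∈ (Ico x (x + h)).filter (fun n => rough k0 n ∧ A ⊆ n.primeFactors),
      (8 : ℝ) ^ Om n * (sig A n : ℝ) ^ S.hh ≤ h * (2 : ℝ) ^ (ε * k) := by
  have hd := S.d_pos
  obtain ⟨C, hC, hpow⟩ := powA S S.eta S.eta_pos le_rfl
  -- choose `K0`
  obtain ⟨K1, hK1⟩ : ∃ K1 : ℕ, ∀ k : ℕ, K1 ≤ k → 3 * C ≤ (2 : ℝ) ^ (ε / 2 * (k : ℝ)) := by
    have h2 : Filter.Tendsto (fun k : ℕ => (2 : ℝ) ^ (ε / 2 * (k : ℝ))) Filter.atTop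
        Filter.atTop := by
      have h3 : Filter.Tendsto (fun k : ℕ => Real.exp (Real.log 2 * (ε / 2) * (k : ℝ)))
          Filter.atTop Filter.atTop := by
        refine Real.tendsto_exp_atTop.comp ?_
        exact Filter.Tendsto.const_mul_atTop
          (mul_pos (Real.log_pos (by norm_num)) (by positivity)) tendsto_natCast_atTop_atTop
      refine h3.congr fun k => ?_
      rw [Real.rpow_def_of_pos (by norm_num)]
      congr 1; ring
    exact Filter.eventually_atTop.mp (h2.eventually_ge_atTop (3 * C))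
  refine ⟨max 6 (max (2 * K1) (⌈(100 : ℝ) / ε⌉₊)), le_max_left _ _, ?_⟩
  intro k0 hk0 k x h hk hx1 hx2 hh hhx A
  simp only [max_le_iff] at hk0
  obtain ⟨hk6, hkK, hkε⟩ := hk0
  have hk0' : (6 : ℝ) ≤ k0 := by exact_mod_cast hk6
  have hk3 : (3 : ℝ) ≤ k := by (clear * - hk hk0'; linarith)
  have hkK1 : K1 ≤ k := by
    have h1 : (2 * K1 : ℝ) ≤ k0 := by exact_mod_cast hkK
    have h2 : (K1 : ℝ) ≤ k := by (clear * - hk h1; linarith)
    exact_mod_cast h2
  have hkε' : 100 / ε ≤ k0 := (Nat.le_ceil _).trans (by exact_mod_cast hkε)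
  have hε2 : 100 / (k0 : ℝ) ≤ ε := by
    rw [div_le_iff₀ (by (clear * - hk0'; linarith))]
    rw [div_le_iff₀ hε] at hkε'
    (clear * - hkε'; linarith)
  exact by
    have hx0 : 1 ≤ x := le_trans Nat.one_le_two_pow hx1
    set F := (Ico x (x + h)).filter (fun n => rough k0 n ∧ A ⊆ n.primeFactors) with hF
    -- bounds for `Om`
    set L : ℝ := 5 * ((k : ℝ) + 2) / k0 with hL
    have hL0 : 0 ≤ L := by (clear * - hk3 hk6; positivity)
    have hOm : ∀ n ∈ F, (Om n : ℝ) ≤ L := by
      intro n hn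
      obtain ⟨hn1, hn2, _⟩ := mem_filter.mp hn
      have hn3 := mem_Ico.mp hn1
      have hlt : n < 2 ^ (k + 1 + 1) := by rw [pow_succ]; omega
      have := Sys.rough_omega_le (by omega : 1 ≤ k0) (by omega : n ≠ 0) hn2 hlt
      unfold Om
      rw [hL]
      push_cast at this
      convert this using 2
      ring
    rcases F.eq_empty_or_nonempty with hFe | ⟨n0, hn0⟩
    · rw [hFe, sum_empty]; (clear * -; positivity)
    obtain ⟨hn01, hn02, hn03⟩ := mem_filter.mp hn0
    -- the set `A`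
    have hA1 : (A.card : ℝ) ≤ L :=
      le_trans (by exact_mod_cast (card_le_card hn03).trans card_primeFactors_le) (hOm n0 hn0)
    exact by
      set P0 : ℕ := ⌈(2 : ℝ) ^ ((k0 : ℝ) / 5)⌉₊ with hP0
      have hP0' : (2 : ℝ) ^ ((k0 : ℝ) / 5) ≤ P0 := Nat.le_ceil _
      have hP02 : 2 ≤ P0 := by
        have h1 : (2 : ℝ) ^ (1 : ℝ) ≤ (2 : ℝ) ^ ((k0 : ℝ) / 5) :=
          Real.rpow_le_rpow_of_exponent_le (by norm_num) (by (clear * - hk0'; linarith))
        rw [Real.rpow_one] at h1
        exact_mod_cast h1.trans hP0'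
      have hA2 : ∀ p ∈ A, p.Prime ∧ P0 ≤ p := by
        intro p hp
        have hp' := hn03 hp
        have hpp := Nat.prime_of_mem_primeFactors hp'
        exact ⟨hpp, Nat.ceil_le.mpr (hn02 p hpp (Nat.dvd_of_mem_primeFactors hp'))⟩
      have hlog : (Nat.log P0 (2 * x) : ℝ) ≤ L := by
        have h1 : P0 ^ Nat.log P0 (2 * x) ≤ 2 * x := Nat.pow_log_le_self _ (by omega)
        have h2 : ((2 : ℝ) ^ ((k0 : ℝ) / 5)) ^ (Nat.log P0 (2 * x)) ≤ (2 : ℝ) ^ (k + 2) := by
          calc ((2 : ℝ) ^ ((k0 : ℝ) / 5)) ^ (Nat.log P0 (2 * x))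
              ≤ (P0 : ℝ) ^ (Nat.log P0 (2 * x)) := pow_le_pow_left₀ (by positivity) hP0' _
            _ ≤ ((2 * x : ℕ) : ℝ) := by exact_mod_cast h1
            _ ≤ (2 : ℝ) ^ (k + 2) := by
                have : 2 * x ≤ 2 ^ (k + 2) := by rw [pow_succ]; omega
                exact_mod_cast this
        rw [← Real.rpow_natCast, ← Real.rpow_natCast, ← Real.rpow_mul (by norm_num),
          Real.rpow_le_rpow_left_iff (by norm_num)] at h2
        rw [hL, le_div_iff₀ (by (clear * - hk0'; linarith))]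
        push_cast at h2
        (clear * - h2; linarith)
      -- the power lemma
      have hmain := hpow x h P0 A 1 hx0 hhx hP02 hA2 le_rfl (by simp)
      exact by
        simp only [one_dvd, filter_true, Nat.cast_one, Real.one_rpow, mul_one] at hmain
        have hxe : (x : ℝ) ^ (1 / 2 - S.eta) ≤ 2 * h := by
          have heta := S.eta_le'
          have heta0 := S.eta_pos
          have h1 : (x : ℝ) ≤ (2 : ℝ) ^ ((k : ℝ) + 1) := by
            have : (x : ℝ) ≤ (2 : ℝ) ^ (k + 1) := by exact_mod_cast hx2.le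
            rwa [← Real.rpow_natCast, Nat.cast_add, Nat.cast_one] at this
          have h2 : (x : ℝ) ^ (1 / 2 - S.eta) ≤ ((2 : ℝ) ^ ((k : ℝ) + 1)) ^ (1 / 2 - S.eta) :=
            Real.rpow_le_rpow (Nat.cast_nonneg _) h1 (by (clear * - heta heta0; linarith))
          have h3 : ((2 : ℝ) ^ ((k : ℝ) + 1)) ^ (1 / 2 - S.eta) ≤
              2 * (2 : ℝ) ^ ((1/2 - 3 * S.d) * k) := by
            have e : (2 : ℝ) * (2 : ℝ) ^ ((1/2 - 3 * S.d) * k) =
                (2 : ℝ) ^ (1 + (1/2 - 3 * S.d) * k) := by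
              rw [Real.rpow_add (by norm_num), Real.rpow_one]
            rw [e, ← Real.rpow_mul (by norm_num)]
            refine Real.rpow_le_rpow_of_exponent_le (by norm_num) ?_
            have h4 : 3 * S.d ≤ S.eta := by
              have := S.d_le; have := S.c_le; have := S.c_pos
              linarith
            (clear * - hd heta h4; nlinarith)
          (clear * - hh h2 h3; linarith)
        have h8 : ∀ n ∈ F, (8 : ℝ) ^ Om n * (sig A n : ℝ) ^ S.hh ≤
            (2 : ℝ) ^ (3 * L) * (sig A n : ℝ) ^ S.hh := by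
          intro n hn
          refine mul_le_mul_of_nonneg_right ?_ (by (clear * -; positivity))
          have e : (8 : ℝ) ^ Om n = (2 : ℝ) ^ (3 * (Om n : ℝ)) := by
            rw [Real.rpow_mul (by norm_num), Real.rpow_natCast]
            norm_num
          rw [e]
          exact Real.rpow_le_rpow_of_exponent_le (by norm_num) (by (clear * - hOm hn; linarith [hOm n hn]))
        calc ∑ n ∈ F, (8 : ℝ) ^ Om n * (sig A n : ℝ) ^ S.hh
            ≤ ∑ n ∈ F, (2 : ℝ) ^ (3 * L) * (sig A n : ℝ) ^ S.hh := sum_le_sum h8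
          _ = (2 : ℝ) ^ (3 * L) * ∑ n ∈ F, (sig A n : ℝ) ^ S.hh := by rw [mul_sum]
          _ ≤ (2 : ℝ) ^ (3 * L) * ∑ n ∈ Ico x (x + h), (sig A n : ℝ) ^ S.hh := by
              refine mul_le_mul_of_nonneg_left ?_ (by positivity)
              exact sum_le_sum_of_subset_of_nonneg (filter_subset _ _) fun n _ _ => by (clear * -; positivity)
          _ ≤ (2 : ℝ) ^ (3 * L) * (C * 2 ^ (A.card + Nat.log P0 (2 * x)) *
                (h + (x : ℝ) ^ (1 / 2 - S.eta))) := mul_le_mul_of_nonneg_left hmain (by positivity)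
          _ ≤ (2 : ℝ) ^ (3 * L) * (C * (2 : ℝ) ^ (2 * L) * (3 * h)) := by
              refine mul_le_mul_of_nonneg_left ?_ (by positivity)
              refine mul_le_mul (mul_le_mul_of_nonneg_left ?_ hC.le) (by (clear * - hxe; linarith)) (by (clear * - hx0; positivity))
                (by positivity)
              rw [← Real.rpow_natCast]
              refine Real.rpow_le_rpow_of_exponent_le (by norm_num) ?_
              push_cast; (clear * - hA1 hlog; linarith)
          _ = h * ((3 * C) * (2 : ℝ) ^ (5 * L)) := by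
              have : (2 : ℝ) ^ (5 * L) = (2 : ℝ) ^ (3 * L) * (2 : ℝ) ^ (2 * L) := by
                rw [← Real.rpow_add (by norm_num)]; congr 1; ring
              rw [this]; ring
          _ ≤ h * ((2 : ℝ) ^ (ε / 2 * (k : ℝ)) * (2 : ℝ) ^ (ε / 2 * (k : ℝ))) := by
              refine mul_le_mul_of_nonneg_left ?_ (Nat.cast_nonneg _)
              refine mul_le_mul (hK1 k hkK1) ?_ (by positivity) (by positivity)
              refine Real.rpow_le_rpow_of_exponent_le (by norm_num) ?_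
              have e : 5 * L = 100 / (k0 : ℝ) * (((k : ℝ) + 2) / 4) := by rw [hL]; ring
              rw [e]
              calc 100 / (k0 : ℝ) * (((k : ℝ) + 2) / 4) ≤ ε * (((k : ℝ) + 2) / 4) :=
                    mul_le_mul_of_nonneg_right hε2 (by positivity)
                _ ≤ ε / 2 * k := by (clear * - hε hk hk0'; nlinarith)
          _ = h * (2 : ℝ) ^ (ε * k) := by
              rw [← Real.rpow_add (by norm_num)]
              congr 2; ring

end Pool.Agent.M20.Helper14.KS
end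

/- Helper53.KN.Helper14.KS.Crude -/
section
/-!
# Project KS: `Crude1` and `RPart1`
-/

set_option autoImplicit false
open scoped Classical

namespace Pool.Agent.M20.Helper14.KS

open Finset Pool.Agent.M20.Helper16.KS Pool.Agent.M20.Helper18.KL
open Pool.Agent.M20.Helper16.KS.Sys (rough)

theorem n_rpow_le {n k : ℕ} (hn : 2 ^ k ≤ n) {a : ℝ} (ha : a ≤ 0) :
    (n : ℝ) ^ a ≤ (2 : ℝ) ^ (a * k) := by
  have h1 : (2 : ℝ) ^ (k : ℝ) ≤ n := by
    rw [Real.rpow_natCast]; exact_mod_cast hn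
  calc (n : ℝ) ^ a ≤ ((2 : ℝ) ^ (k : ℝ)) ^ a :=
        Real.rpow_le_rpow_of_nonpos (by positivity) h1 ha
    _ = (2 : ℝ) ^ (a * k) := by rw [← Real.rpow_mul (by norm_num)]; congr 1; ring

/-- (RPART1) -/
theorem rpart1 : RPart1 := by
  intro S
  have ht := S.tau_pos
  have hts := S.tau_le_s
  have hs := S.s_lt
  have hs0 := S.s_pos
  obtain ⟨K0, hK6, hK0⟩ := win_main S (S.tau / 40) (by positivity)
  refine ⟨K0, ?_⟩
  intro k0 hk0 k x h hk hx1 hx2 hh hhx A
  have hmain := hK0 k0 hk0 k x h hk hx1 hx2 hh hhx A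
  set F := (Ico x (x + h)).filter (fun n => rough k0 n ∧ A ⊆ n.primeFactors) with hF
  -- pointwise bound
  have hterm : ∀ n ∈ (Ico x (x + h)).filter (rough k0),
      ∑ e ∈ n.divisors.filter (fun e : ℕ => (2 : ℝ) ^ ((k : ℝ) / 8) ≤ (e : ℝ) ∧ A ⊆ e.primeFactors),
        S.base e * ((n / e : ℕ) : ℝ) ^ (S.s - 1) * S.pc A e.primeFactors ≤
      if A ⊆ n.primeFactors then
        (2 : ℝ) ^ ((S.s - 1) * k - S.tau / 8 * k) * ((8 : ℝ) ^ Om n * (sig A n : ℝ) ^ S.hh)
      else 0 := by
    intro n hn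
    obtain ⟨hn1, hn2⟩ := mem_filter.mp hn
    have hn3 := mem_Ico.mp hn1
    have hnk : 2 ^ k ≤ n := hx1.trans hn3.1
    have hn0 : n ≠ 0 := by have := Nat.one_le_two_pow (n := k); omega
    have hnR : (0 : ℝ) < n := by exact_mod_cast Nat.pos_of_ne_zero hn0
    split_ifs with hA
    · have h1 : ∀ e ∈ n.divisors.filter
          (fun e : ℕ => (2 : ℝ) ^ ((k : ℝ) / 8) ≤ (e : ℝ) ∧ A ⊆ e.primeFactors),
          S.base e * ((n / e : ℕ) : ℝ) ^ (S.s - 1) * S.pc A e.primeFactors ≤
          (2 : ℝ) ^ ((S.s - 1) * k - S.tau / 8 * k) * (sig A n : ℝ) ^ S.hh := by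
        intro e he
        obtain ⟨he1, he2, he3⟩ := mem_filter.mp he
        have hed := (Nat.mem_divisors.mp he1).1
        have he0 : e ≠ 0 := by rintro rfl; exact hn0 (Nat.eq_zero_of_zero_dvd hed)
        have heR : (0 : ℝ) < e := by exact_mod_cast Nat.pos_of_ne_zero he0
        have hradR : (0 : ℝ) < Pool.Agent.M20.Helper48.KS.radg A e := by
          exact_mod_cast Pool.Agent.M20.Helper48.KS.radg_pos A e
        have e1 : S.pc A e.primeFactors =
            (Pool.Agent.M20.Helper48.KS.radg A e : ℝ) ^ (-S.hh) := by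
          unfold Sys.pc Sys.pr Pool.Agent.M20.Helper48.KS.radg
          push_cast
          rw [← Real.finsetProd_rpow _ _ fun p _ => Nat.cast_nonneg p]
        have e2 : ((n / e : ℕ) : ℝ) = (n : ℝ) / e := Nat.cast_div hed heR.ne'
        have hsig : (sig A e : ℝ) = (e : ℝ) / Pool.Agent.M20.Helper48.KS.radg A e := sig_eq A he0
        have e3 : (Pool.Agent.M20.Helper48.KS.radg A e : ℝ) ^ (-S.hh) =
            (sig A e : ℝ) ^ S.hh * (e : ℝ) ^ (-S.hh) := by
          rw [hsig, Real.div_rpow heR.le hradR.le, Real.rpow_neg hradR.le, Real.rpow_neg heR.le]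
          have : (e : ℝ) ^ S.hh ≠ 0 := (Real.rpow_pos_of_pos heR _).ne'
          field_simp
        have e4 : S.base e * ((n / e : ℕ) : ℝ) ^ (S.s - 1) * S.pc A e.primeFactors =
            (n : ℝ) ^ (S.s - 1) * (e : ℝ) ^ (-S.tau) * (sig A e : ℝ) ^ S.hh := by
          rw [e1, e2, e3, Real.div_rpow hnR.le heR.le]
          unfold Sys.base
          have e5 : (e : ℝ) ^ (-S.tau) * (e : ℝ) ^ (S.s - 1) =
              (e : ℝ) ^ (-(1 / 2 + S.del)) * (e : ℝ) ^ (-S.hh) := by
            rw [← Real.rpow_add heR, ← Real.rpow_add heR]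
            congr 1
            rw [S.hh_eq]; ring
          have e6 : (e : ℝ) ^ (S.s - 1) ≠ 0 := (Real.rpow_pos_of_pos heR _).ne'
          calc (e : ℝ) ^ (-(1 / 2 + S.del)) * ((n : ℝ) ^ (S.s - 1) / (e : ℝ) ^ (S.s - 1)) *
                ((sig A e : ℝ) ^ S.hh * (e : ℝ) ^ (-S.hh))
              = (n : ℝ) ^ (S.s - 1) * (sig A e : ℝ) ^ S.hh *
                  ((e : ℝ) ^ (-(1 / 2 + S.del)) * (e : ℝ) ^ (-S.hh)) / (e : ℝ) ^ (S.s - 1) := by
                ring
            _ = (n : ℝ) ^ (S.s - 1) * (sig A e : ℝ) ^ S.hh *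
                  ((e : ℝ) ^ (-S.tau) * (e : ℝ) ^ (S.s - 1)) / (e : ℝ) ^ (S.s - 1) := by rw [e5]
            _ = _ := by (clear * - e6 he0 hn0; field_simp)
        rw [e4]
        have h2 : (n : ℝ) ^ (S.s - 1) ≤ (2 : ℝ) ^ ((S.s - 1) * k) := n_rpow_le hnk (by (clear * - ht hts hs; linarith))
        have h3 : (e : ℝ) ^ (-S.tau) ≤ (2 : ℝ) ^ (-(S.tau / 8 * k)) := by
          calc (e : ℝ) ^ (-S.tau) ≤ ((2 : ℝ) ^ ((k : ℝ) / 8)) ^ (-S.tau) :=
                Real.rpow_le_rpow_of_nonpos (by positivity) he2 (by (clear * - ht; linarith))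
            _ = _ := by rw [← Real.rpow_mul (by norm_num)]; congr 1; ring
        have h4 : (sig A e : ℝ) ^ S.hh ≤ (sig A n : ℝ) ^ S.hh := by
          refine Real.rpow_le_rpow (Nat.cast_nonneg _) ?_ (by have := S.hh_ge; (clear * - ht hts hs this; linarith))
          exact_mod_cast sig_le_of_dvd A hn0 hed
        have e7 : (2 : ℝ) ^ ((S.s - 1) * k - S.tau / 8 * k) =
            (2 : ℝ) ^ ((S.s - 1) * k) * (2 : ℝ) ^ (-(S.tau / 8 * k)) := by
          rw [← Real.rpow_add (by norm_num)]; congr 1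
        rw [e7]
        exact mul_le_mul (mul_le_mul h2 h3 (by positivity) (by positivity)) h4 (by (clear * -; positivity))
          (by positivity)
      refine (sum_le_sum h1).trans ?_
      rw [sum_const, nsmul_eq_mul]
      have h5 : (((n.divisors.filter
          (fun e : ℕ => (2 : ℝ) ^ ((k : ℝ) / 8) ≤ (e : ℝ) ∧ A ⊆ e.primeFactors)).card : ℕ) : ℝ) ≤
          (8 : ℝ) ^ Om n := by
        calc _ ≤ ((n.divisors.card : ℕ) : ℝ) := by
              exact_mod_cast card_le_card (filter_subset _ _)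
          _ ≤ ((2 ^ Om n : ℕ) : ℝ) := by exact_mod_cast card_divisors_le hn0
          _ ≤ (8 : ℝ) ^ Om n := by
              push_cast; exact pow_le_pow_left₀ (by norm_num) (by norm_num) _
      calc _ ≤ (8 : ℝ) ^ Om n * ((2 : ℝ) ^ ((S.s - 1) * k - S.tau / 8 * k) *
            (sig A n : ℝ) ^ S.hh) := mul_le_mul_of_nonneg_right h5 (by (clear * -; positivity))
        _ = _ := by ring
    · refine le_of_eq (sum_eq_zero fun e he => ?_)
      exfalso
      obtain ⟨he1, he2, he3⟩ := mem_filter.mp he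
      exact hA (he3.trans (Nat.primeFactors_mono (Nat.mem_divisors.mp he1).1 hn0))
  refine (sum_le_sum hterm).trans ?_
  rw [← sum_filter, filter_filter, ← mul_sum]
  calc (2 : ℝ) ^ ((S.s - 1) * k - S.tau / 8 * k) * ∑ n ∈ F, (8 : ℝ) ^ Om n * (sig A n : ℝ) ^ S.hh
      ≤ (2 : ℝ) ^ ((S.s - 1) * k - S.tau / 8 * k) * (h * (2 : ℝ) ^ (S.tau / 40 * k)) :=
        mul_le_mul_of_nonneg_left hmain (by positivity)
    _ = h * ((2 : ℝ) ^ ((S.s - 1) * k - S.tau / 8 * k) * (2 : ℝ) ^ (S.tau / 40 * k)) := by ring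
    _ = h * (2 : ℝ) ^ ((S.s - 1 - S.tau / 10) * k) := by
        rw [← Real.rpow_add (by norm_num)]; congr 2; ring

/-- factorwise bound for `Fe D n * pc A D` -/
theorem Fe_pc_le (S : Sys) (A D : Finset ℕ) {n : ℕ} (hn : n ≠ 0) (hAD : A ⊆ D)
    (hD : D ⊆ n.primeFactors) :
    S.Fe D n * S.pc A D ≤
      (2 : ℝ) ^ Om n * (n : ℝ) ^ (S.s - 1 + 6 * S.tau) * (sig A n : ℝ) ^ S.hh := by
  have ht := S.tau_pos
  have hhh := S.hh_eq
  have hhg := S.hh_ge
  have hdel := S.del_pos
  have hdl := S.del_le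
  have hs := S.s_lt
  have hs0 := S.s_pos
  have hts := S.tau_le_s
  have e1 : S.pc A D = ∏ p ∈ n.primeFactors, if p ∈ D \ A then S.pr p else 1 := by
    unfold Sys.pc
    rw [prod_ite_mem]
    congr 1
    ext p
    simp only [mem_inter, mem_sdiff]
    constructor
    · rintro ⟨h1, h2⟩; exact ⟨hD h1, h1, h2⟩
    · rintro ⟨_, h1, h2⟩; exact ⟨h1, h2⟩
  have e2 : (2 : ℝ) ^ Om n * (n : ℝ) ^ (S.s - 1 + 6 * S.tau) * (sig A n : ℝ) ^ S.hh =
      ∏ p ∈ n.primeFactors, ((2 : ℝ) ^ n.factorization p *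
        ((p : ℝ) ^ n.factorization p) ^ (S.s - 1 + 6 * S.tau) *
        ((if p ∈ A then (p : ℝ) ^ n.factorization p
          else (p : ℝ) ^ (n.factorization p - 1)) ^ S.hh)) := by
    rw [prod_mul_distrib, prod_mul_distrib, prod_pow_eq_pow_sum, sum_factorization,
      Real.finsetProd_rpow _ _ fun p _ => by (clear * -; positivity),
      Real.finsetProd_rpow _ _ fun p _ => by split_ifs <;> (clear * -; positivity)]
    congr 2
    · congr 1
      have h1 := Nat.prod_factorization_pow_eq_self hn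
      rw [Nat.prod_factorization_eq_prod_primeFactors] at h1
      conv_lhs => rw [← h1]
      push_cast; rfl
    · unfold sig
      push_cast
      rfl
  rw [e1, e2]
  unfold Sys.Fe
  rw [← prod_mul_distrib]
  refine prod_le_prod (fun p hp => ?_) fun p hp => ?_
  · refine mul_nonneg ?_ ?_
    · split_ifs
      · exact pow_nonneg (add_nonneg (S.base_nonneg _) (S.gam_nonneg _)) _
      · exact pow_nonneg (S.gam_nonneg _) _
    · split_ifs
      · exact S.pr_nonneg _
      · exact zero_le_one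
  have hpp := Nat.prime_of_mem_primeFactors hp
  have hp1 : (1 : ℝ) ≤ p := by exact_mod_cast hpp.one_lt.le
  have hp0 : (0 : ℝ) < p := by (clear * - ht hs hts hp1; linarith)
  set v := n.factorization p with hv
  have hv1 : 1 ≤ v := hpp.factorization_pos_of_dvd hn (Nat.dvd_of_mem_primeFactors hp)
  have hv1' : (1 : ℝ) ≤ v := by exact_mod_cast hv1
  have hcast : ((v - 1 : ℕ) : ℝ) = (v : ℝ) - 1 := by push_cast [Nat.cast_sub hv1]; ring
  -- `base + gam ≤ 2 base`
  have hbg : (S.base p + S.gam p) ^ v ≤ (2 : ℝ) ^ v * (p : ℝ) ^ (-(1 / 2 + S.del) * v) := by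
    have h1 : S.gam p ≤ S.base p := by
      unfold Sys.gam Sys.base
      refine Real.rpow_le_rpow_of_exponent_le hp1 ?_
      (clear * - ht hdl hs hts; linarith)
    have h2 : S.base p + S.gam p ≤ 2 * S.base p := by (clear * - h1; linarith)
    calc (S.base p + S.gam p) ^ v ≤ (2 * S.base p) ^ v :=
          pow_le_pow_left₀ (add_nonneg (S.base_nonneg _) (S.gam_nonneg _)) h2 v
      _ = (2 : ℝ) ^ v * (p : ℝ) ^ (-(1 / 2 + S.del) * v) := by
          rw [mul_pow]
          congr 1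
          unfold Sys.base
          rw [← Real.rpow_natCast, ← Real.rpow_mul hp0.le]
  have hpow : ((p : ℝ) ^ v) ^ (S.s - 1 + 6 * S.tau) = (p : ℝ) ^ ((S.s - 1 + 6 * S.tau) * v) := by
    rw [← Real.rpow_natCast, ← Real.rpow_mul hp0.le]; congr 1; ring
  have hpv : ((p : ℝ) ^ v) ^ S.hh = (p : ℝ) ^ (S.hh * v) := by
    rw [← Real.rpow_natCast, ← Real.rpow_mul hp0.le]; congr 1; ring
  have hpv1 : ((p : ℝ) ^ (v - 1)) ^ S.hh = (p : ℝ) ^ (S.hh * (v - 1)) := by
    rw [← Real.rpow_natCast, ← Real.rpow_mul hp0.le, hcast]; congr 1; ring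
  have h2v : (0 : ℝ) < (2 : ℝ) ^ v := by positivity
  by_cases hpA : p ∈ A
  · have hpD := hAD hpA
    rw [if_pos hpD, if_neg (by simp [hpA]), if_pos hpA, mul_one, hpow, hpv]
    refine hbg.trans ?_
    rw [mul_assoc]
    refine mul_le_mul_of_nonneg_left ?_ h2v.le
    rw [← Real.rpow_add hp0]
    refine Real.rpow_le_rpow_of_exponent_le hp1 ?_
    rw [hhh]; (clear * - ht; nlinarith)
  · by_cases hpD : p ∈ D
    · rw [if_pos hpD, if_pos (by simp [hpA, hpD]), if_neg hpA, hpow, hpv1]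
      have h3 : (S.base p + S.gam p) ^ v * S.pr p ≤
          ((2 : ℝ) ^ v * (p : ℝ) ^ (-(1 / 2 + S.del) * v)) * (p : ℝ) ^ (-S.hh) :=
        mul_le_mul_of_nonneg_right hbg (S.pr_nonneg _)
      refine h3.trans ?_
      rw [mul_assoc, mul_assoc]
      refine mul_le_mul_of_nonneg_left ?_ h2v.le
      rw [← Real.rpow_add hp0, ← Real.rpow_add hp0]
      refine Real.rpow_le_rpow_of_exponent_le hp1 ?_
      rw [hhh]; (clear * - ht; nlinarith)
    · rw [if_neg hpD, if_neg (by simp [hpD]), if_neg hpA, mul_one, hpow, hpv1]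
      have h3 : S.gam p ^ v = (p : ℝ) ^ ((S.s - 1 + 6 * S.tau) * v) := by
        unfold Sys.gam
        rw [← Real.rpow_natCast, ← Real.rpow_mul hp0.le]
      rw [h3]
      have h4 : 1 ≤ (2 : ℝ) ^ v := one_le_pow₀ (by norm_num)
      have h5 : 1 ≤ (p : ℝ) ^ (S.hh * (v - 1)) :=
        Real.one_le_rpow hp1 (mul_nonneg (by (clear * - ht hhh hdl hs hts; linarith)) (by (clear * - hv1'; linarith)))
      have h6 : 0 ≤ (p : ℝ) ^ ((S.s - 1 + 6 * S.tau) * v) := by (clear * - hp1; positivity)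
      calc (p : ℝ) ^ ((S.s - 1 + 6 * S.tau) * v)
          = 1 * (p : ℝ) ^ ((S.s - 1 + 6 * S.tau) * v) * 1 := by ring
        _ ≤ (2 : ℝ) ^ v * (p : ℝ) ^ ((S.s - 1 + 6 * S.tau) * v) * (p : ℝ) ^ (S.hh * (v - 1)) :=
            mul_le_mul (mul_le_mul_of_nonneg_right h4 h6) h5 zero_le_one (by (clear * - hp1; positivity))

/-- (CRUDE1) -/
theorem crude1 : Crude1 := by
  intro S
  have ht := S.tau_pos
  have hts := S.tau_le_s
  have hs := S.s_lt
  obtain ⟨K0, hK6, hK0⟩ := win_main S (S.tau / 2) (by positivity)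
  refine ⟨K0, ?_⟩
  intro k0 hk0 k x h hk hx1 hx2 hh hhx A
  have hmain := hK0 k0 hk0 k x h hk hx1 hx2 hh hhx A
  set F := (Ico x (x + h)).filter (fun n => rough k0 n ∧ A ⊆ n.primeFactors) with hF
  unfold Sys.CP
  have hterm : ∀ n ∈ (Ico x (x + h)).filter (rough k0),
      ∑ D ∈ n.primeFactors.powerset.filter (fun D => A ⊆ D), S.Fe D n * S.pc A D ≤
      if A ⊆ n.primeFactors then
        (2 : ℝ) ^ ((S.s - 1 + 6 * S.tau) * k) * ((8 : ℝ) ^ Om n * (sig A n : ℝ) ^ S.hh)
      else 0 := by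
    intro n hn
    obtain ⟨hn1, hn2⟩ := mem_filter.mp hn
    have hn3 := mem_Ico.mp hn1
    have hnk : 2 ^ k ≤ n := hx1.trans hn3.1
    have hn0 : n ≠ 0 := by have := Nat.one_le_two_pow (n := k); omega
    split_ifs with hA
    · have h1 : ∀ D ∈ n.primeFactors.powerset.filter (fun D => A ⊆ D), S.Fe D n * S.pc A D ≤
          (2 : ℝ) ^ Om n * (2 : ℝ) ^ ((S.s - 1 + 6 * S.tau) * k) * (sig A n : ℝ) ^ S.hh := by
        intro D hD
        obtain ⟨hD1, hD2⟩ := mem_filter.mp hD
        refine (Fe_pc_le S A D hn0 hD2 (mem_powerset.mp hD1)).trans ?_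
        refine mul_le_mul_of_nonneg_right ?_ (by (clear * -; positivity))
        refine mul_le_mul_of_nonneg_left ?_ (by positivity)
        exact n_rpow_le hnk (by (clear * - ht hts hs; linarith))
      refine (sum_le_sum h1).trans ?_
      rw [sum_const, nsmul_eq_mul]
      have h5 : (((n.primeFactors.powerset.filter (fun D => A ⊆ D)).card : ℕ) : ℝ) ≤
          (2 : ℝ) ^ Om n := by
        calc _ ≤ ((n.primeFactors.powerset.card : ℕ) : ℝ) := by
              exact_mod_cast card_le_card (filter_subset _ _)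
          _ = ((2 ^ n.primeFactors.card : ℕ) : ℝ) := by rw [card_powerset]
          _ ≤ (2 : ℝ) ^ Om n := by
              push_cast
              exact pow_le_pow_right₀ (by norm_num) card_primeFactors_le
      calc _ ≤ (2 : ℝ) ^ Om n * ((2 : ℝ) ^ Om n * (2 : ℝ) ^ ((S.s - 1 + 6 * S.tau) * k) *
            (sig A n : ℝ) ^ S.hh) := mul_le_mul_of_nonneg_right h5 (by (clear * -; positivity))
        _ = (2 : ℝ) ^ ((S.s - 1 + 6 * S.tau) * k) * (((2 : ℝ) ^ Om n * (2 : ℝ) ^ Om n) *
            (sig A n : ℝ) ^ S.hh) := by ring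
        _ ≤ _ := by
            refine mul_le_mul_of_nonneg_left ?_ (by positivity)
            refine mul_le_mul_of_nonneg_right ?_ (by (clear * -; positivity))
            rw [← mul_pow]
            exact pow_le_pow_left₀ (by norm_num) (by norm_num) _
    · refine le_of_eq (sum_eq_zero fun D hD => ?_)
      exfalso
      obtain ⟨hD1, hD2⟩ := mem_filter.mp hD
      exact hA (hD2.trans (mem_powerset.mp hD1))
  refine (sum_le_sum hterm).trans ?_
  rw [← sum_filter, filter_filter, ← mul_sum]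
  calc (2 : ℝ) ^ ((S.s - 1 + 6 * S.tau) * k) * ∑ n ∈ F, (8 : ℝ) ^ Om n * (sig A n : ℝ) ^ S.hh
      ≤ (2 : ℝ) ^ ((S.s - 1 + 6 * S.tau) * k) * (h * (2 : ℝ) ^ (S.tau / 2 * k)) :=
        mul_le_mul_of_nonneg_left hmain (by positivity)
    _ = h * ((2 : ℝ) ^ ((S.s - 1 + 6 * S.tau) * k) * (2 : ℝ) ^ (S.tau / 2 * k)) := by ring
    _ = h * (2 : ℝ) ^ ((S.s - 1 + 6.5 * S.tau) * k) := by
        rw [← Real.rpow_add (by norm_num)]; congr 2; ring

end Pool.Agent.M20.Helper14.KS
end

/- Helper53.KN.Helper46.KC.Split -/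
section
/-! KC-17: greedy colouring of heights. -/

set_option autoImplicit false
open scoped Classical

namespace Pool.Agent.M20.Helper46.KC

open Pool.Agent.M20.Helper60.KS

theorem splitSpaced : SplitSpaced := by
  intro Z
  induction Z using Finset.induction_on with
  | empty =>
    intro M _
    exact ⟨fun _ => 0, by simp, fun i ρ hρ => by simp at hρ⟩
  | insert a Z ha ih =>
    intro M hM
    obtain ⟨col, hcol, hsp⟩ := ih M (fun t => by
      refine le_trans (Finset.card_le_card ?_) (hM t)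
      exact Finset.filter_subset_filter _ (Finset.subset_insert a Z))
    set C := Z.filter (fun ρ => |ρ.im - a.im| < 1) with hC
    have hC1 : C.card + 1 ≤ M := by
      have haC : a ∉ C := fun h => ha (Finset.mem_of_mem_filter a h)
      rw [← Finset.card_insert_of_notMem haC]
      refine le_trans (Finset.card_le_card ?_) (hM a.im)
      intro ρ hρ
      rw [Finset.mem_insert] at hρ
      rw [Finset.mem_filter, Finset.mem_insert]
      rcases hρ with h | h
      · subst h
        exact ⟨Or.inl rfl, by simp⟩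
      · rw [hC, Finset.mem_filter] at h
        exact ⟨Or.inr h.1, h.2.le⟩
    have hlt : (C.image col).card < (Finset.range M).card := by
      rw [Finset.card_range]
      exact lt_of_le_of_lt Finset.card_image_le (by omega)
    obtain ⟨i, hiM, hi⟩ := Finset.exists_mem_notMem_of_card_lt_card hlt
    rw [Finset.mem_range] at hiM
    refine ⟨Function.update col a i, ?_, ?_⟩
    · intro ρ hρ
      rw [Finset.mem_insert] at hρ
      by_cases h : ρ = a
      · rw [h, Function.update_self]; exact hiM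
      · rw [Function.update_of_ne h]
        exact hcol ρ (hρ.resolve_left h)
    · have key : ∀ ρ ∈ Z, ρ ≠ a → col ρ = i → 1 ≤ |ρ.im - a.im| := by
        intro ρ hρ _ hc
        by_contra hcon
        apply hi
        rw [Finset.mem_image]
        exact ⟨ρ, by rw [hC, Finset.mem_filter]; exact ⟨hρ, not_le.1 hcon⟩, hc⟩
      intro j ρ hρ ρ' hρ' hne
      rw [Finset.mem_filter, Finset.mem_insert] at hρ hρ'
      obtain ⟨h1, h2⟩ := hρ
      obtain ⟨h1', h2'⟩ := hρ'
      by_cases h : ρ = a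
      · subst h
        rw [Function.update_self] at h2
        have h' : ρ' ≠ ρ := fun e => hne e.symm
        rw [Function.update_of_ne h'] at h2'
        rw [abs_sub_comm]
        exact key ρ' (h1'.resolve_left h') h' (h2'.trans h2.symm)
      · rw [Function.update_of_ne h] at h2
        by_cases h' : ρ' = a
        · subst h'
          rw [Function.update_self] at h2'
          exact key ρ (h1.resolve_left h) h (h2.trans h2'.symm)
        · rw [Function.update_of_ne h'] at h2'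
          exact hsp j ρ (Finset.mem_filter.2 ⟨h1.resolve_left h, h2⟩) ρ'
            (Finset.mem_filter.2 ⟨h1'.resolve_left h', h2'⟩) hne

end Pool.Agent.M20.Helper46.KC
end

/- Helper53.KN.Helper53.AV.SelbergP -/
section
/-!
# AV2: Selberg's sieve for multiples of `p` in an interval
-/

set_option autoImplicit false

namespace Pool.Agent.M20.Helper53AV

open Finset
open Pool.Agent.M20.Helper69.EK (AA mem_AA lamW GG_pos)

/-- the product of the primes in `(z, R]` -/
noncomputable def DD (z : ℝ) (R : ℕ) : ℕ := by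
  classical
  exact ∏ p ∈ (Icc 1 R).filter (fun p : ℕ => p.Prime ∧ z < (p : ℝ)), p

theorem coprime_DD {z : ℝ} {R l : ℕ} (hl : 1 ≤ l) (hlR : l ≤ R) :
    Nat.Coprime l (DD z R) ↔ ∀ r : ℕ, r.Prime → r ∣ l → (r : ℝ) ≤ z := by
  classical
  unfold DD
  constructor
  · intro h r hr hrl
    by_contra hz
    push Not at hz
    have hrR : r ≤ R := (Nat.le_of_dvd hl hrl).trans hlR
    have hmem : r ∈ (Icc 1 R).filter (fun p : ℕ => p.Prime ∧ z < (p : ℝ)) := by
      rw [Finset.mem_filter, Finset.mem_Icc]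
      exact ⟨⟨hr.one_le, hrR⟩, hr, hz⟩
    exact Nat.not_coprime_of_dvd_of_dvd hr.one_lt hrl (Finset.dvd_prod_of_mem _ hmem) h
  · intro h
    rw [Nat.coprime_prod_right_iff]
    intro p hp
    rw [Finset.mem_filter] at hp
    rw [Nat.coprime_comm, Nat.Prime.coprime_iff_not_dvd hp.2.1]
    intro hpl
    exact absurd (h p hp.2.1 hpl) (not_le.2 hp.2.2)

theorem GG_eq (z Y : ℝ) : Pool.Agent.M20.Helper40.AV.GG z Y =
    Pool.Agent.M20.Helper69.EK.GG (DD z ⌊Y⌋₊) ⌊Y⌋₊ := by
  classical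
  unfold Pool.Agent.M20.Helper40.AV.GG Pool.Agent.M20.Helper69.EK.GG
  apply Finset.sum_congr _ (fun _ _ => rfl)
  ext l
  rw [mem_AA, Finset.mem_filter, Finset.mem_Icc]
  constructor
  · rintro ⟨h1, h2, h3⟩
    exact ⟨h1, h2, (coprime_DD h1.1 h1.2).2 h3⟩
  · rintro ⟨h1, h2, h3⟩
    exact ⟨h1, h2, (coprime_DD h1.1 h1.2).1 h3⟩

/-- the number of multiples of `q` in an interval -/
theorem card_mult (y l q : ℕ) (hq : 0 < q) :
    |((((Finset.Ico y (y + l)).filter fun n => q ∣ n).card : ℕ) : ℝ) - (l : ℝ) / q| ≤ 1 := by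
  have hq' : (0 : ℚ) < q := by exact_mod_cast hq
  have h0 : ((Finset.Ico y (y + l)).filter fun n => q ∣ n) =
      (Finset.Ico y (y + l)).filter fun n => n ≡ 0 [MOD q] := by
    apply Finset.filter_congr
    intro n _
    exact (Nat.modEq_zero_iff_dvd).symm
  have h1 := Nat.Ico_filter_modEq_card y (y + l) hq 0
  rw [← h0] at h1
  simp only [Nat.cast_zero, sub_zero] at h1
  have hle : ⌈(y : ℚ) / (q : ℚ)⌉ ≤ ⌈((y + l : ℕ) : ℚ) / (q : ℚ)⌉ := by
    apply Int.ceil_mono
    apply div_le_div_of_nonneg_right _ hq'.le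
    push_cast
    have : (0 : ℚ) ≤ l := Nat.cast_nonneg _
    linarith
  rw [max_eq_left (sub_nonneg.2 hle)] at h1
  set N := ((Finset.Ico y (y + l)).filter fun n => q ∣ n).card with hN
  have h2 : (N : ℚ) = (⌈((y + l : ℕ) : ℚ) / (q : ℚ)⌉ : ℚ) - (⌈(y : ℚ) / (q : ℚ)⌉ : ℚ) := by
    exact_mod_cast h1
  have a1 := Int.le_ceil (((y + l : ℕ) : ℚ) / (q : ℚ))
  have a2 := Int.ceil_lt_add_one (((y + l : ℕ) : ℚ) / (q : ℚ))
  have a3 := Int.le_ceil ((y : ℚ) / (q : ℚ))
  have a4 := Int.ceil_lt_add_one ((y : ℚ) / (q : ℚ))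
  have a5 : ((y + l : ℕ) : ℚ) / (q : ℚ) = (y : ℚ) / q + (l : ℚ) / q := by
    push_cast; rw [add_div]
  have h3 : |(N : ℚ) - (l : ℚ) / q| ≤ 1 := by
    rw [abs_le]
    rw [a5] at a1 a2
    constructor
    · rw [h2, a5]; linarith
    · rw [h2, a5]; linarith
  have h4 : ((|(N : ℚ) - (l : ℚ) / q| : ℚ) : ℝ) ≤ ((1 : ℚ) : ℝ) := Rat.cast_le.2 h3
  push_cast at h4
  exact h4

theorem selbergP : Pool.Agent.M20.Helper40.AV.SelbergP := by
  classical
  intro y l p z Y hp hY
  rw [GG_eq]
  set R := ⌊Y⌋₊ with hR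
  have hR1 : 1 ≤ R := (Nat.one_le_floor_iff Y).2 hY
  set D := DD z R with hD
  have hG := GG_pos D R hR1
  set S := (Finset.Ico y (y + l)).filter fun n => p ∣ n with hS
  set lam := lamW D R with hlam
  -- the count is at most the sum of squares
  have h1 : ((((Finset.Ico y (y + l)).filter fun n => p ∣ n ∧
      ∀ r : ℕ, r.Prime → r ∣ n → z < r).card : ℕ) : ℝ) ≤
      ∑ n ∈ S, (∑ d ∈ (Icc 1 R).filter (fun d => d ∣ n / p), lam d) ^ 2 := by
    have hsub : ((Finset.Ico y (y + l)).filter fun n => p ∣ n ∧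
      ∀ r : ℕ, r.Prime → r ∣ n → z < r) ⊆ S := by
      intro n hn
      rw [Finset.mem_filter] at hn ⊢
      exact ⟨hn.1, hn.2.1⟩
    rw [Finset.card_eq_sum_ones, Nat.cast_sum]
    refine le_trans (Finset.sum_le_sum ?_) (Finset.sum_le_sum_of_subset_of_nonneg hsub
      (fun _ _ _ => sq_nonneg _))
    intro n hn
    rw [Finset.mem_filter] at hn
    have h2 : ∑ d ∈ (Icc 1 R).filter (fun d => d ∣ n / p), lam d = 1 := by
      rw [Finset.sum_eq_single 1]
      · exact lamW_one D R hR1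
      · intro d hd hd1
        rw [Finset.mem_filter, Finset.mem_Icc] at hd
        by_contra hne
        have hA := mem_AA.1 (lamW_ne hne)
        have h3 := (coprime_DD hd.1.1 hd.1.2).1 hA.2.2
        obtain ⟨r, hr, hrd⟩ := Nat.exists_prime_and_dvd hd1
        have h4 : r ∣ n := (hrd.trans hd.2).trans (Nat.div_dvd_of_dvd hn.2.1)
        exact absurd (h3 r hr hrd) (not_le.2 (hn.2.2 r hr h4))
      · intro h
        refine absurd ?_ h
        rw [Finset.mem_filter, Finset.mem_Icc]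
        exact ⟨⟨le_refl _, hR1⟩, one_dvd _⟩
    rw [h2]
    norm_num
  -- expansion
  have h2 : ∑ n ∈ S, (∑ d ∈ (Icc 1 R).filter (fun d => d ∣ n / p), lam d) ^ 2 =
      ∑ d₁ ∈ Icc 1 R, ∑ d₂ ∈ Icc 1 R, lam d₁ * lam d₂ *
        (((Finset.Ico y (y + l)).filter fun n => p * Nat.lcm d₁ d₂ ∣ n).card : ℝ) := by
    have h3 : ∀ n ∈ S, (∑ d ∈ (Icc 1 R).filter (fun d => d ∣ n / p), lam d) ^ 2 =
        ∑ d₁ ∈ Icc 1 R, ∑ d₂ ∈ Icc 1 R, lam d₁ * lam d₂ *
          (if p * Nat.lcm d₁ d₂ ∣ n then 1 else 0) := by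
      intro n hn
      rw [hS, Finset.mem_filter] at hn
      rw [Finset.sum_filter, sq, Finset.sum_mul_sum]
      apply Finset.sum_congr rfl
      intro d₁ _
      apply Finset.sum_congr rfl
      intro d₂ _
      have h4 : p * Nat.lcm d₁ d₂ ∣ n ↔ d₁ ∣ n / p ∧ d₂ ∣ n / p := by
        rw [← Nat.lcm_dvd_iff, Nat.dvd_div_iff_mul_dvd hn.2]
      by_cases c1 : d₁ ∣ n / p
      · by_cases c2 : d₂ ∣ n / p
        · rw [if_pos c1, if_pos c2, if_pos (h4.2 ⟨c1, c2⟩), mul_one]
        · rw [if_neg c2, if_neg (fun h => c2 (h4.1 h).2), mul_zero, mul_zero]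
      · rw [if_neg c1, if_neg (fun h => c1 (h4.1 h).1), mul_zero, zero_mul]
    rw [Finset.sum_congr rfl h3, Finset.sum_comm]
    apply Finset.sum_congr rfl
    intro d₁ _
    rw [Finset.sum_comm]
    apply Finset.sum_congr rfl
    intro d₂ _
    rw [← Finset.mul_sum]
    congr 1
    rw [← Finset.sum_filter, Finset.card_eq_sum_ones, Nat.cast_sum, hS, Finset.filter_filter]
    simp only [Nat.cast_one]
    apply Finset.sum_congr _ (fun _ _ => rfl)
    apply Finset.filter_congr
    intro n _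
    constructor
    · rintro ⟨_, h⟩; exact h
    · intro h; exact ⟨(Nat.dvd_mul_right _ _).trans h, h⟩
  have hp0 : (0 : ℝ) < p := by exact_mod_cast hp
  have h5 : ∀ d₁ ∈ Icc 1 R, ∀ d₂ ∈ Icc 1 R, lam d₁ * lam d₂ *
        (((Finset.Ico y (y + l)).filter fun n => p * Nat.lcm d₁ d₂ ∣ n).card : ℝ) ≤
      (l : ℝ) / p * (lam d₁ * lam d₂ / (Nat.lcm d₁ d₂ : ℝ)) + 1 := by
    intro d₁ h₁ d₂ h₂
    rw [Finset.mem_Icc] at h₁ h₂
    have hl0 : 0 < Nat.lcm d₁ d₂ := Nat.lcm_pos h₁.1 h₂.1
    have h6 := card_mult y l (p * Nat.lcm d₁ d₂) (Nat.mul_pos hp hl0)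
    set N := (((Finset.Ico y (y + l)).filter fun n => p * Nat.lcm d₁ d₂ ∣ n).card : ℝ) with hN
    have h7 : |lam d₁ * lam d₂| ≤ 1 := by
      rw [abs_mul]
      calc _ ≤ (1 : ℝ) * 1 := mul_le_mul (abs_lamW_le D R d₁ hR1) (abs_lamW_le D R d₂ hR1)
            (abs_nonneg _) zero_le_one
        _ = 1 := one_mul 1
    have h8 : lam d₁ * lam d₂ * (N - (l : ℝ) / ((p * Nat.lcm d₁ d₂ : ℕ) : ℝ)) ≤ 1 := by
      refine (le_abs_self _).trans ?_
      rw [abs_mul]
      calc _ ≤ (1 : ℝ) * 1 := mul_le_mul h7 h6 (abs_nonneg _) zero_le_one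
        _ = 1 := one_mul 1
    have h9 : (l : ℝ) / p * (lam d₁ * lam d₂ / (Nat.lcm d₁ d₂ : ℝ)) =
        lam d₁ * lam d₂ * ((l : ℝ) / ((p * Nat.lcm d₁ d₂ : ℕ) : ℝ)) := by
      push_cast
      have : ((Nat.lcm d₁ d₂ : ℕ) : ℝ) ≠ 0 := by exact_mod_cast hl0.ne'
      field_simp
    rw [h9]
    nlinarith
  have h6 : ∑ n ∈ S, (∑ d ∈ (Icc 1 R).filter (fun d => d ∣ n / p), lam d) ^ 2 ≤
      (l : ℝ) / p * (1 / Pool.Agent.M20.Helper69.EK.GG D R) + (R : ℝ) ^ 2 := by
    rw [h2]
    refine (Finset.sum_le_sum fun d₁ h₁ => Finset.sum_le_sum fun d₂ h₂ => h5 d₁ h₁ d₂ h₂).trans ?_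
    simp only [Finset.sum_add_distrib, ← Finset.mul_sum, Finset.sum_const, Nat.card_Icc,
      nsmul_eq_mul, mul_one, Nat.add_sub_cancel]
    rw [quad D R hR1]
    apply le_of_eq
    ring
  have hRY : (R : ℝ) ≤ Y := Nat.floor_le (by linarith)
  have hR0 : (0 : ℝ) ≤ R := Nat.cast_nonneg _
  have h7 : (l : ℝ) / p * (1 / Pool.Agent.M20.Helper69.EK.GG D R) ≤
      (l / p + 1) / Pool.Agent.M20.Helper69.EK.GG D R := by
    rw [mul_one_div]
    apply div_le_div_of_nonneg_right _ hG.le
    linarith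
  nlinarith [h1, h6, h7]

end Pool.Agent.M20.Helper53AV
end

/- Helper53.KN.Helper55.AV.SelUp -/
section
/-! Project AV (LS1): Selberg's upper bound for the number of rough integers in intervals. -/

set_option autoImplicit false

open Filter Topology

namespace Pool.Agent.M20.Helper55.AV

open Pool.Agent.M20.Helper40.AV

open Classical in
theorem rs_le (hS : SelbergP) (y l : ℕ) (z Y : ℝ) (hY : 1 ≤ Y) :
    ((RS y l z).card : ℝ) ≤ (l + 1) / GG z Y + Y ^ 2 := by
  have h := hS y l 1 z Y le_rfl hY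
  have e : (Finset.Ico y (y + l)).filter (fun n => 1 ∣ n ∧
      ∀ r : ℕ, r.Prime → r ∣ n → z < r) = RS y l z := by
    unfold RS
    refine Finset.filter_congr fun n _ => ?_
    simp
  rw [e] at h
  simpa using h

/-- the general form -/
theorem upB_of (hS : SelbergP) (hM : Mertens3) {s c : ℝ} (hs : 1 ≤ s) (hc : 0 < c)
    (h : ∀ κ : ℝ, 0 < κ → ∃ k : ℝ, 0 < k ∧ k ≤ s / 2 ∧ ∃ z₁ : ℝ, ∀ z : ℝ, z₁ ≤ z →
      (c - κ) * Real.log z ≤ GG z (z ^ (s / 2 - k))) :
    UpB s (Real.exp Real.eulerMascheroniConstant / c) := by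
  intro ε hε
  set γ₀ : ℝ := Real.exp (-Real.eulerMascheroniConstant) with hγ₀
  have hγpos : 0 < γ₀ := Real.exp_pos _
  have hmul : Real.exp Real.eulerMascheroniConstant * γ₀ = 1 := by
    rw [hγ₀, ← Real.exp_add, add_neg_cancel, Real.exp_zero]
  -- choice of kappa
  obtain ⟨κ, hκ0, hκc, hκ⟩ : ∃ κ : ℝ, 0 < κ ∧ κ < c ∧ 1 / (c - κ) < 1 / c + ε * γ₀ := by
    have h1 : Tendsto (fun κ : ℝ => 1 / (c - κ)) (𝓝 0) (𝓝 (1 / c)) := by
      have : ContinuousAt (fun κ : ℝ => 1 / (c - κ)) 0 := by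
        refine ContinuousAt.div continuousAt_const (continuousAt_const.sub continuousAt_id) ?_
        simpa using hc.ne'
      simpa [ContinuousAt] using this
    have h2 : ∀ᶠ κ : ℝ in 𝓝[>] 0, 1 / (c - κ) < 1 / c + ε * γ₀ :=
      (h1.mono_left nhdsWithin_le_nhds).eventually_lt_const (by
        have := mul_pos hε hγpos
        linarith)
    have h3 : ∀ᶠ κ : ℝ in 𝓝[>] 0, κ < c := nhdsWithin_le_nhds (Iio_mem_nhds hc)
    have h4 : ∀ᶠ κ : ℝ in 𝓝[>] 0, 0 < κ := self_mem_nhdsWithin
    obtain ⟨κ, a, b, d⟩ := (h4.and (h3.and h2)).exists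
    exact ⟨κ, a, b, d⟩
  obtain ⟨k, hk0, hks, z₁, hz₁⟩ := h κ hκ0
  have hcκ : 0 < c - κ := by (clear * - hκc; linarith)
  -- limits
  have t1 : Tendsto (fun z : ℝ => (1 + 1 / z) / (c - κ) + z ^ (-(2 * k)) * Real.log z) atTop
      (𝓝 (1 / (c - κ))) := by
    have a1 : Tendsto (fun z : ℝ => (1 + 1 / z) / (c - κ)) atTop (𝓝 ((1 + 0) / (c - κ))) := by
      apply Tendsto.div_const
      apply Tendsto.const_add
      exact tendsto_const_nhds.div_atTop tendsto_id
    have a2 : Tendsto (fun z : ℝ => z ^ (-(2 * k)) * Real.log z) atTop (𝓝 0) := by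
      have h1 := isLittleO_log_rpow_atTop (show (0 : ℝ) < 2 * k by (clear * - hk0; linarith))
      refine h1.tendsto_div_nhds_zero.congr' ?_
      filter_upwards [eventually_gt_atTop (0 : ℝ)] with z hz
      rw [Real.rpow_neg hz.le, div_eq_mul_inv, mul_comm]
    have := a1.add a2
    simpa using this
  have t2 : Tendsto (fun z : ℝ => (Real.exp Real.eulerMascheroniConstant / c + ε) *
      (VV z * Real.log z)) atTop (𝓝 (1 / c + ε * γ₀)) := by
    have h1 := hM.const_mul (Real.exp Real.eulerMascheroniConstant / c + ε)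
    have h2 : (Real.exp Real.eulerMascheroniConstant / c + ε) *
        Real.exp (-Real.eulerMascheroniConstant) = 1 / c + ε * γ₀ := by
      rw [← hγ₀, add_mul, div_mul_eq_mul_div, hmul]
    rwa [h2] at h1
  have e1 : ∀ᶠ z : ℝ in atTop, (1 + 1 / z) / (c - κ) + z ^ (-(2 * k)) * Real.log z <
      (Real.exp Real.eulerMascheroniConstant / c + ε) * (VV z * Real.log z) :=
    t1.eventually_lt t2 hκ
  obtain ⟨z₀, hz₀⟩ := eventually_atTop.1 (e1.and ((eventually_ge_atTop z₁).and
    (eventually_gt_atTop (1 : ℝ))))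
  refine ⟨z₀, fun z hz y l hl => ?_⟩
  obtain ⟨b1, b2, b3⟩ := hz₀ z hz
  have hz0 : 0 < z := by (clear * - b3; linarith)
  have hL : 0 < Real.log z := Real.log_pos b3
  have hzs : z ≤ z ^ s := by
    have := Real.rpow_le_rpow_of_exponent_le b3.le hs
    rwa [Real.rpow_one] at this
  have hl0 : (0 : ℝ) < l := by (clear * - hl b3 hzs; linarith)
  set Y : ℝ := z ^ (s / 2 - k) with hY
  have hY1 : 1 ≤ Y := Real.one_le_rpow b3.le (by (clear * - hks; linarith))
  have hG := hz₁ z b2
  have hcL : 0 < (c - κ) * Real.log z := mul_pos hcκ hL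
  have hGG : 0 < GG z Y := hcL.trans_le hG
  have hY2 : Y ^ 2 ≤ l * z ^ (-(2 * k)) := by
    have : Y ^ 2 = z ^ s * z ^ (-(2 * k)) := by
      rw [hY, ← Real.rpow_natCast, ← Real.rpow_mul hz0.le, ← Real.rpow_add hz0]
      congr 1
      push_cast
      ring
    rw [this]
    exact mul_le_mul_of_nonneg_right hl (Real.rpow_nonneg hz0.le _)
  have hl1 : (l : ℝ) + 1 ≤ l * (1 + 1 / z) := by
    have : (1 : ℝ) ≤ l * (1 / z) := by
      rw [mul_one_div, le_div_iff₀ hz0]
      (clear * - hl hzs; linarith)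
    (clear * - this; linarith)
  have h5 : ((l : ℝ) + 1) / GG z Y ≤ l * (1 + 1 / z) / ((c - κ) * Real.log z) := by
    have h50 : (0 : ℝ) ≤ (l : ℝ) + 1 := by (clear * - hl b3 hzs; linarith)
    calc ((l : ℝ) + 1) / GG z Y ≤ ((l : ℝ) + 1) / ((c - κ) * Real.log z) :=
          div_le_div_of_nonneg_left h50 hcL hG
      _ ≤ _ := div_le_div_of_nonneg_right hl1 hcL.le
  have h6 := rs_le hS y l z Y hY1
  have h7 : l * (1 + 1 / z) / ((c - κ) * Real.log z) + l * z ^ (-(2 * k)) =
      (l / Real.log z) * ((1 + 1 / z) / (c - κ) + z ^ (-(2 * k)) * Real.log z) := by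
    (clear * - b3 hL hcκ hl0; field_simp)
  calc ((RS y l z).card : ℝ) ≤ l * (1 + 1 / z) / ((c - κ) * Real.log z) + l * z ^ (-(2 * k)) := by
        (clear * - hY2 h5 h6; linarith)
    _ = (l / Real.log z) * ((1 + 1 / z) / (c - κ) + z ^ (-(2 * k)) * Real.log z) := h7
    _ ≤ (l / Real.log z) * ((Real.exp Real.eulerMascheroniConstant / c + ε) *
        (VV z * Real.log z)) := mul_le_mul_of_nonneg_left b1.le (by (clear * - hl0 hL; positivity))
    _ = _ := by
      (clear * - hc hL hε hl0; field_simp)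

theorem log_two_lt : Real.log 2 < 0.6932 := by
  have := Real.log_two_lt_d9
  (clear * - this; linarith)

theorem cu_pos {u : ℝ} (h1 : 1 ≤ u) (h2 : u ≤ 2) : 0 < cu u := by
  unfold cu
  have h3 : Real.log u ≤ Real.log 2 := Real.log_le_log (by linarith) h2
  have h4 := log_two_lt
  nlinarith

theorem cu_cont {u : ℝ} (h : 0 < u) : ContinuousAt cu u := by
  unfold cu
  have : ContinuousAt Real.log u := Real.continuousAt_log h.ne'
  fun_prop

theorem selUp1 (hS : SelbergP) (hM : Mertens3) (hT : GGtriv) {s : ℝ} (h1 : 1 ≤ s) (h2 : s ≤ 2) :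
    UpB s (Real.exp Real.eulerMascheroniConstant / (s / 2)) := by
  refine upB_of hS hM h1 (by linarith) fun κ hκ => ?_
  refine ⟨min κ (1 / 4), lt_min hκ (by norm_num), (min_le_right _ _).trans (by (clear * - h1; linarith)), 1,
    fun z hz => ?_⟩
  have hz0 : 0 < z := by linarith
  have hk1 : min κ (1 / 4) ≤ κ := min_le_left _ _
  have hk2 : min κ (1 / 4) ≤ 1 / 4 := min_le_right _ _
  have hk3 : 0 < min κ (1 / 4) := lt_min hκ (by norm_num)
  have h3 := hT z (z ^ (s / 2 - min κ (1 / 4))) (Real.one_le_rpow hz (by (clear * - h1 hk2; linarith))) (by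
    have := Real.rpow_le_rpow_of_exponent_le hz (show s / 2 - min κ (1 / 4) ≤ 1 by (clear * - h2 hk3; linarith))
    rwa [Real.rpow_one] at this)
  rw [Real.log_rpow hz0] at h3
  refine le_trans (mul_le_mul_of_nonneg_right ?_ (Real.log_nonneg hz)) h3
  (clear * - hk1; linarith)

theorem selUp (hS : SelbergP) (hM : Mertens3) (hT : GGtriv) (hG : GGlow) : SelUp := by
  refine ⟨fun s h1 h2 => ?_, fun s h1 h2 => ?_⟩
  · have := selUp1 hS hM hT h1 h2
    rwa [div_div_eq_mul_div, mul_comm] at this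
  · rcases h1.eq_or_lt with h3 | h3
    · subst h3
      have := selUp1 hS hM hT (s := 2) (by norm_num) le_rfl
      have e : cu (2 / 2) = 2 / 2 := by
        unfold cu
        norm_num
      rw [e]
      exact this
    · refine upB_of hS hM (by linarith) (cu_pos (by (clear * - h3; linarith)) (by (clear * - h2; linarith))) fun κ hκ => ?_
      obtain ⟨C, hC⟩ := hG
      -- choice of k
      obtain ⟨k, hk0, hk1, hk2⟩ : ∃ k : ℝ, 0 < k ∧ 1 ≤ s / 2 - k ∧
          cu (s / 2) - κ / 2 < cu (s / 2 - k) := by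
        have a1 : Tendsto (fun k : ℝ => cu (s / 2 - k)) (𝓝 0) (𝓝 (cu (s / 2))) := by
          have b1 : ContinuousAt (fun k : ℝ => cu (s / 2 - k)) 0 := by
            refine ContinuousAt.comp (g := cu) (f := fun k : ℝ => s / 2 - k) ?_
              (continuousAt_const.sub continuousAt_id)
            apply cu_cont
            simp only [sub_zero]
            linarith
          simpa [ContinuousAt] using b1
        have a2 : ∀ᶠ k : ℝ in 𝓝[>] 0, cu (s / 2) - κ / 2 < cu (s / 2 - k) :=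
          (a1.mono_left nhdsWithin_le_nhds).eventually_const_lt (by linarith)
        have a3 : ∀ᶠ k : ℝ in 𝓝[>] 0, k < s / 2 - 1 :=
          nhdsWithin_le_nhds (Iio_mem_nhds (by (clear * - h3; linarith)))
        have a4 : ∀ᶠ k : ℝ in 𝓝[>] 0, 0 < k := self_mem_nhdsWithin
        obtain ⟨k, c1, c2, c3⟩ := (a4.and (a3.and a2)).exists
        exact ⟨k, c1, by linarith, c3⟩
      have e1 : ∀ᶠ z : ℝ in atTop, C ≤ κ / 2 * Real.log z := by
        have := Real.tendsto_log_atTop.const_mul_atTop (show 0 < κ / 2 by (clear * - hκ; linarith))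
        exact this.eventually_ge_atTop C
      obtain ⟨z₁, hz₁⟩ := eventually_atTop.1 (e1.and (eventually_ge_atTop (2 : ℝ)))
      refine ⟨k, hk0, by (clear * - hk1; linarith), z₁, fun z hz => ?_⟩
      obtain ⟨d1, d2⟩ := hz₁ z hz
      have hL : 0 ≤ Real.log z := Real.log_nonneg (by (clear * - d2; linarith))
      have h5 := hC z (s / 2 - k) d2 hk1 (by (clear * - h2 hk0; linarith))
      have h6 : (cu (s / 2) - κ / 2) * Real.log z ≤ cu (s / 2 - k) * Real.log z :=
        mul_le_mul_of_nonneg_right hk2.le hL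
      unfold cu at h6 ⊢
      (clear * - d1 h5 h6; linarith)

end Pool.Agent.M20.Helper55.AV
end

/- Helper53.KN.Helper9.AV.Mertens3 -/
section
/-!
# Project AV, module AV1: Mertens' third theorem with the constant `exp (-γ)`
-/

set_option autoImplicit false

open Filter Topology MeasureTheory Set

namespace Pool.Agent.M20.Helper9.AV

open Pool.Agent.M20.Helper44 (primesUpTo mem_primesUpTo mertens_interval one_sub_ge_exp')
open Pool.Agent.M20.Helper40.AV

/-! ### the general integral formula -/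

theorem int_Ici (a c : ℝ) (ha : 0 ≤ a) :
    IntegrableOn (fun t : ℝ => if a ≤ t then c * Real.exp (-t) else 0) (Ioi 0) ∧
    ∫ t in Ioi (0 : ℝ), (if a ≤ t then c * Real.exp (-t) else 0) = c * Real.exp (-a) := by
  have e : (fun t : ℝ => if a ≤ t then c * Real.exp (-t) else 0) =
      (Ici a).indicator (fun t => c * Real.exp (-t)) := by
    funext t
    simp only [indicator, mem_Ici]
  have hint : IntegrableOn (fun t : ℝ => c * Real.exp (-t)) (Ioi 0) :=
    (integrableOn_exp_neg_Ioi 0).const_mul c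
  refine ⟨?_, ?_⟩
  · rw [e]
    exact hint.indicator measurableSet_Ici
  · rw [e, setIntegral_indicator measurableSet_Ici]
    have h1 : (Ioi 0 ∩ Ici a : Set ℝ) =ᵐ[volume] Ioi a := by
      have h2 : (Ioi 0 ∩ Ici a : Set ℝ) =ᵐ[volume] (Ioi 0 ∩ Ioi a : Set ℝ) :=
        (ae_eq_refl _).inter Ioi_ae_eq_Ici.symm
      rw [Ioi_inter_Ioi, sup_eq_right.2 ha] at h2
      exact h2
    rw [setIntegral_congr_set h1, integral_const_mul, integral_exp_neg_Ioi]

theorem laplace (c lam : ℕ → ℝ) (hc : ∀ n, 0 ≤ c n) (hl : ∀ n, 0 ≤ lam n) (δ : ℝ) (hδ : 0 < δ)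
    (hs : Summable fun n => c n * Real.exp (-(δ * lam n))) (S : ℝ → ℝ)
    (hS : ∀ u, 0 < u → HasSum (fun n => if lam n ≤ u then c n else 0) (S u)) :
    ∫ t in Ioi (0 : ℝ), S (t / δ) * Real.exp (-t) = ∑' n, c n * Real.exp (-(δ * lam n)) := by
  have h1 : ∀ n, 0 ≤ δ * lam n := fun n => mul_nonneg hδ.le (hl n)
  have h2 := hasSum_integral_of_summable_integral_norm (μ := volume.restrict (Ioi (0 : ℝ)))
    (F := fun (n : ℕ) (t : ℝ) => if δ * lam n ≤ t then c n * Real.exp (-t) else 0)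
    (fun n => (int_Ici (δ * lam n) (c n) (h1 n)).1) ?_
  · have h3 := h2.tsum_eq
    rw [← tsum_congr fun n => (int_Ici (δ * lam n) (c n) (h1 n)).2, h3]
    refine setIntegral_congr_fun measurableSet_Ioi ?_
    intro t ht
    have ht' : 0 < t / δ := div_pos ht hδ
    have h4 := (hS _ ht').mul_right (Real.exp (-t))
    have h5 : (fun n => (if lam n ≤ t / δ then c n else 0) * Real.exp (-t)) =
        fun n => if δ * lam n ≤ t then c n * Real.exp (-t) else 0 := by
      funext n
      have : lam n ≤ t / δ ↔ δ * lam n ≤ t := le_div_iff₀' hδ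
      by_cases h6 : lam n ≤ t / δ
      · rw [if_pos h6, if_pos (this.1 h6)]
      · rw [if_neg h6, if_neg fun h => h6 (this.2 h), zero_mul]
    rw [h5] at h4
    exact h4.tsum_eq.symm
  · refine hs.congr fun n => ?_
    rw [← (int_Ici (δ * lam n) (c n) (h1 n)).2]
    refine setIntegral_congr_fun measurableSet_Ioi ?_
    intro t _
    show _ = ‖_‖
    dsimp only
    split_ifs
    · rw [Real.norm_of_nonneg (mul_nonneg (hc n) (Real.exp_pos _).le)]
    · rw [norm_zero]

/-- the Abelian theorem -/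
theorem abel (G : ℝ → ℝ) (κ M : ℝ) (hm : Measurable G) (hM : ∀ u, 0 < u → |G u| ≤ M)
    (hG : Tendsto G atTop (𝓝 κ)) :
    Tendsto (fun δ : ℝ => ∫ t in Ioi (0 : ℝ), G (t / δ) * Real.exp (-t)) (𝓝[>] 0) (𝓝 κ) := by
  have h1 : ∫ t in Ioi (0 : ℝ), κ * Real.exp (-t) = κ := by
    rw [integral_const_mul, integral_exp_neg_Ioi, neg_zero, Real.exp_zero, mul_one]
  rw [← h1]
  refine tendsto_integral_filter_of_dominated_convergence (fun t => M * Real.exp (-t)) ?_ ?_ ?_ ?_
  · refine Eventually.of_forall fun δ => ?_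
    refine Measurable.aestronglyMeasurable ?_
    exact (hm.comp (measurable_id.div_const δ)).mul (Real.measurable_exp.comp measurable_neg)
  · filter_upwards [self_mem_nhdsWithin] with δ hδ
    refine (ae_restrict_iff' measurableSet_Ioi).2 (Eventually.of_forall fun t ht => ?_)
    rw [Real.norm_eq_abs, abs_mul, abs_of_pos (Real.exp_pos _)]
    exact mul_le_mul_of_nonneg_right (hM _ (div_pos ht hδ)) (Real.exp_pos _).le
  · exact (integrableOn_exp_neg_Ioi 0).const_mul M
  · refine (ae_restrict_iff' measurableSet_Ioi).2 (Eventually.of_forall fun t ht => ?_)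
    refine Tendsto.mul_const _ (hG.comp ?_)
    have h2 : Tendsto (fun δ : ℝ => t * δ⁻¹) (𝓝[>] 0) atTop :=
      tendsto_inv_nhdsGT_zero.const_mul_atTop ht
    exact h2

/-! ### the two step functions -/

/-- `-log (1 - 1 / p)` on the primes -/
noncomputable def ca (n : ℕ) : ℝ := if n.Prime then -Real.log (1 - 1 / n) else 0

theorem neg_log_bounds {x : ℝ} (h0 : 0 ≤ x) (h1 : x ≤ 1 / 2) :
    x ≤ -Real.log (1 - x) ∧ -Real.log (1 - x) ≤ x + 2 * x ^ 2 := by
  have h2 : 0 < 1 - x := by (clear * - h1; linarith)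
  refine ⟨?_, ?_⟩
  · have := Real.log_le_sub_one_of_pos h2
    (clear * - this; linarith)
  · have h3 := Real.log_le_log (Real.exp_pos _) (one_sub_ge_exp' h0 h1)
    rw [Real.log_exp] at h3
    linarith

theorem inv_prime_bounds {n : ℕ} (hn : n.Prime) : (0 : ℝ) ≤ 1 / n ∧ (1 : ℝ) / n ≤ 1 / 2 := by
  have : (2 : ℝ) ≤ n := by exact_mod_cast hn.two_le
  exact ⟨by (clear * - this; positivity), one_div_le_one_div_of_le (by norm_num) this⟩

theorem ca_nonneg (n : ℕ) : 0 ≤ ca n := by
  unfold ca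
  split_ifs with h
  · obtain ⟨h1, h2⟩ := inv_prime_bounds h
    exact h1.trans (neg_log_bounds h1 h2).1
  · exact le_rfl

theorem ca_le (n : ℕ) : ca n ≤ 2 / n := by
  unfold ca
  split_ifs with h
  · obtain ⟨h1, h2⟩ := inv_prime_bounds h
    have h3 := (neg_log_bounds h1 h2).2
    have h4 : (2 : ℝ) / n = 2 * (1 / n) := by ring
    rw [h4]
    (clear * - h3 h1 h2; nlinarith)
  · (clear * -; positivity)

/-- the sum of `ca` up to `exp u` -/
noncomputable def S1 (u : ℝ) : ℝ := ∑ p ∈ primesUpTo (Real.exp u), ca p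

/-- the harmonic sum up to `u` -/
noncomputable def S2 (u : ℝ) : ℝ := ∑ n ∈ Finset.Ioc 0 ⌊u⌋₊, (1 : ℝ) / n

theorem S1_hasSum (u : ℝ) : HasSum (fun n : ℕ => if Real.log n ≤ u then ca n else 0) (S1 u) := by
  have h : S1 u = ∑ n ∈ primesUpTo (Real.exp u), if Real.log n ≤ u then ca n else 0 := by
    unfold S1
    refine Finset.sum_congr rfl fun n hn => ?_
    rw [mem_primesUpTo (Real.exp_pos _).le] at hn
    have hpos : (0 : ℝ) < n := by exact_mod_cast hn.1.pos
    rw [if_pos]
    rw [← Real.log_exp u]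
    exact Real.log_le_log hpos hn.2
  rw [h]
  refine hasSum_sum_of_ne_finset_zero fun n hn => ?_
  rw [mem_primesUpTo (Real.exp_pos _).le] at hn
  by_cases hp : n.Prime
  · have hpos : (0 : ℝ) < n := by exact_mod_cast hp.pos
    rw [if_neg]
    intro h1
    apply hn
    refine ⟨hp, ?_⟩
    rw [← Real.exp_log hpos]
    exact Real.exp_le_exp.2 h1
  · unfold ca
    rw [if_neg hp, ite_self]

theorem S2_hasSum (u : ℝ) (hu : 0 < u) :
    HasSum (fun n : ℕ => if (n : ℝ) ≤ u then (1 : ℝ) / n else 0) (S2 u) := by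
  have h : S2 u = ∑ n ∈ Finset.Ioc 0 ⌊u⌋₊, if (n : ℝ) ≤ u then (1 : ℝ) / n else 0 := by
    unfold S2
    refine Finset.sum_congr rfl fun n hn => ?_
    rw [Finset.mem_Ioc] at hn
    rw [if_pos ((Nat.le_floor_iff hu.le).1 hn.2)]
  rw [h]
  refine hasSum_sum_of_ne_finset_zero fun n hn => ?_
  rw [Finset.mem_Ioc, not_and_or] at hn
  rcases hn with hn | hn
  · have : n = 0 := by omega
    subst this
    simp
  · rw [if_neg]
    intro h1
    exact hn ((Nat.le_floor_iff hu.le).2 h1)

theorem S1_mono : Monotone S1 := by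
  intro u v huv
  unfold S1
  refine Finset.sum_le_sum_of_subset_of_nonneg ?_ fun n _ _ => ca_nonneg n
  intro n hn
  rw [mem_primesUpTo (Real.exp_pos _).le] at hn ⊢
  exact ⟨hn.1, hn.2.trans (Real.exp_le_exp.2 huv)⟩

theorem S2_mono : Monotone S2 := by
  intro u v huv
  unfold S2
  refine Finset.sum_le_sum_of_subset_of_nonneg ?_ fun n _ _ => by positivity
  exact Finset.Ioc_subset_Ioc le_rfl (Nat.floor_mono huv)

theorem S1_nonneg (u : ℝ) : 0 ≤ S1 u := Finset.sum_nonneg fun n _ => ca_nonneg n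

theorem S2_nonneg (u : ℝ) : 0 ≤ S2 u := Finset.sum_nonneg fun n _ => by positivity

theorem S2_le {u : ℝ} (hu : 0 ≤ u) : S2 u ≤ u := by
  have h1 : S2 u ≤ ∑ n ∈ Finset.Ioc 0 ⌊u⌋₊, (1 : ℝ) := by
    unfold S2
    refine Finset.sum_le_sum fun n hn => ?_
    rw [Finset.mem_Ioc] at hn
    rw [div_le_one (by exact_mod_cast hn.1)]
    exact_mod_cast hn.1
  rw [Finset.sum_const, Nat.card_Ioc, nsmul_eq_mul, mul_one, Nat.sub_zero] at h1
  exact h1.trans (Nat.floor_le hu)

/-! ### asymptotics of the step functions -/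

theorem S2_lim : Tendsto (fun u => S2 u - Real.log u) atTop (𝓝 Real.eulerMascheroniConstant) := by
  have h1 : Tendsto (fun u : ℝ => ((harmonic ⌊u⌋₊ : ℚ) : ℝ) - Real.log (⌊u⌋₊ : ℝ)) atTop
      (𝓝 Real.eulerMascheroniConstant) := Real.tendsto_harmonic_sub_log.comp tendsto_nat_floor_atTop
  have h2 : Tendsto (fun u : ℝ => Real.log ((⌊u⌋₊ : ℝ) / u)) atTop (𝓝 0) := by
    have h3 := (Real.continuousAt_log one_ne_zero).tendsto.comp
      (tendsto_nat_floor_div_atTop (R := ℝ))
    rw [Real.log_one] at h3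
    exact h3
  have h3 := h1.add h2
  rw [add_zero] at h3
  refine h3.congr' ?_
  filter_upwards [eventually_ge_atTop (1 : ℝ)] with u hu
  have hf : (0 : ℝ) < ⌊u⌋₊ := by
    have : 1 ≤ ⌊u⌋₊ := by rwa [Nat.one_le_floor_iff]
    exact_mod_cast this
  rw [Real.log_div hf.ne' (by linarith)]
  have h4 : ((harmonic ⌊u⌋₊ : ℚ) : ℝ) = S2 u := by
    unfold S2
    rw [harmonic_eq_sum_Icc]
    push_cast
    refine Finset.sum_congr ?_ fun n _ => by rw [one_div]
    ext n
    simp only [Finset.mem_Icc, Finset.mem_Ioc]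
    omega
  rw [h4]
  ring

theorem S1_lim : ∃ C1 : ℝ, Tendsto (fun u => S1 u - Real.log u) atTop (𝓝 C1) := by
  -- the absolutely convergent part
  let f : ℕ → ℝ := fun n => if n.Prime then ca n - 1 / n else 0
  have hf : Summable f := by
    refine Summable.of_nonneg_of_le ?_ ?_ ((Real.summable_one_div_nat_pow.mpr
      (by norm_num : 1 < 2)).mul_left 2)
    · intro n
      show 0 ≤ (if n.Prime then ca n - 1 / n else 0)
      split_ifs with h
      · obtain ⟨h1, h2⟩ := inv_prime_bounds h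
        have := (neg_log_bounds h1 h2).1
        unfold ca
        rw [if_pos h]
        (clear * - this; linarith)
      · exact le_rfl
    · intro n
      show (if n.Prime then ca n - 1 / n else 0) ≤ _
      split_ifs with h
      · obtain ⟨h1, h2⟩ := inv_prime_bounds h
        have := (neg_log_bounds h1 h2).2
        unfold ca
        rw [if_pos h]
        rw [div_pow, one_pow] at this
        (clear * - this; linarith)
      · positivity
  have hlim1 : Tendsto (fun u : ℝ => ∑ n ∈ Finset.range (⌊Real.exp u⌋₊ + 1), f n) atTop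
      (𝓝 (∑' n, f n)) := by
    refine hf.hasSum.tendsto_sum_nat.comp ?_
    exact (tendsto_add_atTop_nat 1).comp (tendsto_nat_floor_atTop.comp Real.tendsto_exp_atTop)
  -- the sum of `1 / p`
  obtain ⟨C, hC, hM⟩ := mertens_interval
  let g : ℝ → ℝ := fun u => ∑ p ∈ primesUpTo (Real.exp u), (1 : ℝ) / p - Real.log u
  have hdiff : ∀ u v : ℝ, 1 ≤ u → u ≤ v → |g v - g u| ≤ C / u := by
    intro u v hu huv
    have h2 : (2 : ℝ) ≤ Real.exp u := by
      have := Real.add_one_le_exp u
      linarith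
    have h1 := hM (Real.exp u) (Real.exp v) h2 (Real.exp_le_exp.2 huv)
    rw [Real.log_exp, Real.log_exp, Real.log_div (by (clear * - hu huv; linarith)) (by linarith)] at h1
    have h3 : primesUpTo (Real.exp v) = primesUpTo (Real.exp u) ∪
        (Finset.Ioc ⌊Real.exp u⌋₊ ⌊Real.exp v⌋₊).filter Nat.Prime := by
      unfold Pool.Agent.M20.Helper44.primesUpTo
      rw [← Finset.filter_union, Finset.Ioc_union_Ioc_eq_Ioc (Nat.zero_le _)
        (Nat.floor_mono (Real.exp_le_exp.2 huv))]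
    have h4 : Disjoint (primesUpTo (Real.exp u))
        ((Finset.Ioc ⌊Real.exp u⌋₊ ⌊Real.exp v⌋₊).filter Nat.Prime) := by
      unfold Pool.Agent.M20.Helper44.primesUpTo
      rw [Finset.disjoint_left]
      intro n hn hn'
      rw [Finset.mem_filter, Finset.mem_Ioc] at hn hn'
      omega
    have h5 : g v - g u = ∑ q ∈ (Finset.Ioc ⌊Real.exp u⌋₊ ⌊Real.exp v⌋₊).filter Nat.Prime, (1:ℝ)/q -
        (Real.log v - Real.log u) := by
      show (∑ p ∈ primesUpTo (Real.exp v), (1 : ℝ) / p - Real.log v) -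
        (∑ p ∈ primesUpTo (Real.exp u), (1 : ℝ) / p - Real.log u) = _
      rw [h3, Finset.sum_union h4]
      ring
    rw [h5]
    exact h1
  have hcau : CauchySeq g := by
    rw [Metric.cauchySeq_iff]
    intro ε hε
    refine ⟨max 1 (C / ε + 1), ?_⟩
    have key : ∀ m n : ℝ, max 1 (C / ε + 1) ≤ m → m ≤ n → |g n - g m| < ε := by
      intro m n hm hmn
      have h1 : 1 ≤ m := (le_max_left _ _).trans hm
      have h2 : C / ε + 1 ≤ m := (le_max_right _ _).trans hm
      refine (hdiff m n h1 hmn).trans_lt ?_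
      rw [div_lt_iff₀ (by linarith)]
      have h3 : C / ε < m := by linarith
      rw [div_lt_iff₀ hε] at h3
      (clear * - h3; linarith)
    intro m hm n hn
    rw [Real.dist_eq]
    rcases le_total m n with h | h
    · rw [abs_sub_comm]
      exact key m n hm h
    · exact key n m hn h
  obtain ⟨C2, hC2⟩ := cauchySeq_tendsto_of_complete hcau
  refine ⟨∑' n, f n + C2, ?_⟩
  refine (hlim1.add hC2).congr fun u => ?_
  show ∑ n ∈ Finset.range (⌊Real.exp u⌋₊ + 1), f n +
    (∑ p ∈ primesUpTo (Real.exp u), (1 : ℝ) / p - Real.log u) = S1 u - Real.log u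
  have h6 : ∑ n ∈ Finset.range (⌊Real.exp u⌋₊ + 1), f n =
      ∑ p ∈ primesUpTo (Real.exp u), (ca p - 1 / p) := by
    show ∑ n ∈ Finset.range (⌊Real.exp u⌋₊ + 1), (if n.Prime then ca n - 1 / n else 0) = _
    rw [← Finset.sum_filter]
    refine Finset.sum_congr ?_ fun _ _ => rfl
    unfold Pool.Agent.M20.Helper44.primesUpTo
    ext n
    simp only [Finset.mem_filter, Finset.mem_range, Finset.mem_Ioc]
    constructor
    · rintro ⟨h1, h2⟩
      exact ⟨⟨h2.pos, by omega⟩, h2⟩
    · rintro ⟨⟨_, h1⟩, h2⟩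
      exact ⟨by omega, h2⟩
  rw [h6, Finset.sum_sub_distrib]
  unfold S1
  ring

/-! ### the two Dirichlet series -/

/-- `n ^ (-δ)` -/
noncomputable def xx (δ : ℝ) (n : ℕ) : ℝ := Real.exp (-(δ * Real.log n))

theorem xx_pos (δ : ℝ) (n : ℕ) : 0 < xx δ n := Real.exp_pos _

theorem xx_le_one {δ : ℝ} (hδ : 0 ≤ δ) (n : ℕ) : xx δ n ≤ 1 := by
  unfold xx
  rw [Real.exp_le_one_iff]
  have := mul_nonneg hδ (Real.log_natCast_nonneg n)
  linarith

theorem xx_rpow (δ : ℝ) {n : ℕ} (hn : 0 < n) : (1 : ℝ) / n * xx δ n = (n : ℝ) ^ (-(1 + δ)) := by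
  have h : (0 : ℝ) < n := by exact_mod_cast hn
  unfold xx
  rw [Real.rpow_def_of_pos h, show Real.log n * -(1 + δ) = -Real.log n + -(δ * Real.log n) by ring,
    Real.exp_add, Real.exp_neg (Real.log n), Real.exp_log h, one_div]

theorem summable_xx {δ : ℝ} (hδ : 0 < δ) : Summable fun n : ℕ => (1 : ℝ) / n * xx δ n := by
  have h := Real.summable_one_div_nat_rpow.2 (show (1 : ℝ) < 1 + δ by linarith)
  refine h.congr fun n => ?_
  rcases Nat.eq_zero_or_pos n with h0 | h0
  · subst h0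
    rw [Nat.cast_zero, Real.zero_rpow (by linarith), div_zero, zero_mul]
  · rw [xx_rpow δ h0, Real.rpow_neg (Nat.cast_nonneg n), one_div]

/-- the terms of the logarithm of the Euler product -/
noncomputable def cw (δ : ℝ) (n : ℕ) : ℝ :=
  if n.Prime then -Real.log (1 - 1 / n * xx δ n) else 0

theorem cw_bounds {δ : ℝ} (hδ : 0 ≤ δ) (n : ℕ) : 0 ≤ cw δ n ∧ cw δ n ≤ 2 * (1 / n * xx δ n) := by
  unfold cw
  split_ifs with h
  · obtain ⟨h1, h2⟩ := inv_prime_bounds h
    have h3 := xx_pos δ n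
    have h4 := xx_le_one hδ n
    have h5 : (0 : ℝ) ≤ 1 / n * xx δ n := mul_nonneg h1 h3.le
    have h6 : (1 : ℝ) / n * xx δ n ≤ 1 / 2 := by nlinarith
    obtain ⟨h7, h8⟩ := neg_log_bounds h5 h6
    exact ⟨h5.trans h7, by (clear * - h8 h5 h6; nlinarith)⟩
  · have h3 := xx_pos δ n
    exact ⟨le_rfl, by (clear * - h3; positivity)⟩

theorem summable_cw {δ : ℝ} (hδ : 0 < δ) : Summable (cw δ) :=
  Summable.of_nonneg_of_le (fun n => (cw_bounds hδ.le n).1) (fun n => (cw_bounds hδ.le n).2)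
    ((summable_xx hδ).mul_left 2)

theorem summable_ca {δ : ℝ} (hδ : 0 < δ) : Summable fun n => ca n * xx δ n := by
  refine Summable.of_nonneg_of_le (fun n => mul_nonneg (ca_nonneg n) (xx_pos δ n).le) (fun n => ?_)
    ((summable_xx hδ).mul_left 2)
  have h1 := mul_le_mul_of_nonneg_right (ca_le n) (xx_pos δ n).le
  calc ca n * xx δ n ≤ 2 / n * xx δ n := h1
    _ = 2 * (1 / n * xx δ n) := by ring

theorem zeta_eq {δ : ℝ} (hδ : 0 < δ) :
    riemannZeta ((1 + δ : ℝ) : ℂ) = ((Real.exp (∑' n, cw δ n) : ℝ) : ℂ) := by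
  have h1 := riemannZeta_eulerProduct_exp_log (s := ((1 + δ : ℝ) : ℂ))
    (by rw [Complex.ofReal_re]; linarith)
  rw [← h1, Complex.ofReal_exp]
  congr 1
  have h2 : ∑' n, cw δ n = ∑' p : Nat.Primes, -Real.log (1 - 1 / (p : ℕ) * xx δ p) := by
    have h3 := tsum_subtype {n : ℕ | n.Prime} (fun n : ℕ => -Real.log (1 - 1 / n * xx δ n))
    have h4 : cw δ = {n : ℕ | n.Prime}.indicator (fun n : ℕ => -Real.log (1 - 1 / n * xx δ n)) := by
      funext n
      unfold cw
      by_cases h : n.Prime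
      · rw [if_pos h, indicator_of_mem (show n ∈ {n : ℕ | n.Prime} from h)]
      · rw [if_neg h, indicator_of_notMem (show n ∉ {n : ℕ | n.Prime} from h)]
    rw [h4, ← h3]
    rfl
  rw [h2, Complex.ofReal_tsum]
  refine tsum_congr fun p => ?_
  have hp : (p : ℕ).Prime := p.2
  obtain ⟨h5, h6⟩ := inv_prime_bounds hp
  have h7 := xx_pos δ p
  have h8 := xx_le_one hδ.le p
  have h9 : (0 : ℝ) ≤ 1 - 1 / (p : ℕ) * xx δ p := by (clear * - h6 h5 h8; nlinarith)
  rw [Complex.ofReal_neg, Complex.ofReal_log h9, xx_rpow δ hp.pos, Complex.ofReal_sub,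
    Complex.ofReal_cpow (Nat.cast_nonneg _)]
  push_cast
  rfl

theorem W_lim : Tendsto (fun δ : ℝ => Real.log δ + ∑' n, cw δ n) (𝓝[>] 0) (𝓝 0) := by
  have h1 : Tendsto (fun δ : ℝ => (((1 + δ : ℝ) : ℂ) - 1) * riemannZeta ((1 + δ : ℝ) : ℂ)) (𝓝[>] 0)
      (𝓝 1) := by
    refine riemannZeta_residue_one.comp ?_
    refine tendsto_nhdsWithin_iff.2 ⟨?_, ?_⟩
    · have h2 : Tendsto (fun δ : ℝ => ((1 + δ : ℝ) : ℂ)) (𝓝 0) (𝓝 (((1 + 0 : ℝ) : ℝ) : ℂ)) := by
        apply Continuous.tendsto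
        fun_prop
      rw [add_zero, Complex.ofReal_one] at h2
      exact h2.mono_left nhdsWithin_le_nhds
    · filter_upwards [self_mem_nhdsWithin] with δ hδ
      have : (0 : ℝ) < δ := hδ
      simp only [mem_compl_iff, mem_singleton_iff]
      intro h
      have h3 := congrArg Complex.re h
      rw [Complex.ofReal_re, Complex.one_re] at h3
      linarith
  have h2 : Tendsto (fun δ : ℝ => δ * Real.exp (∑' n, cw δ n)) (𝓝[>] 0) (𝓝 1) := by
    have h3 := (Complex.continuous_re.tendsto 1).comp h1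
    rw [Complex.one_re] at h3
    refine h3.congr' ?_
    filter_upwards [self_mem_nhdsWithin] with δ hδ
    show ((((1 + δ : ℝ) : ℂ) - 1) * riemannZeta ((1 + δ : ℝ) : ℂ)).re = _
    rw [zeta_eq hδ]
    have h4 : (((1 + δ : ℝ) : ℂ) - 1) * ((Real.exp (∑' n, cw δ n) : ℝ) : ℂ) =
        ((δ * Real.exp (∑' n, cw δ n) : ℝ) : ℂ) := by
      push_cast
      ring
    rw [h4, Complex.ofReal_re]
  have h3 := (Real.continuousAt_log one_ne_zero).tendsto.comp h2
  rw [Real.log_one] at h3
  refine h3.congr' ?_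
  filter_upwards [self_mem_nhdsWithin] with δ hδ
  show Real.log (δ * Real.exp (∑' n, cw δ n)) = _
  rw [Real.log_mul (ne_of_gt hδ) (Real.exp_pos _).ne', Real.log_exp]

theorem D_lim : Tendsto (fun δ : ℝ => ∑' n, (ca n * xx δ n - cw δ n)) (𝓝[>] 0) (𝓝 0) := by
  have h0 : ∑' _ : ℕ, (0 : ℝ) = 0 := tsum_zero
  have hmain : Tendsto (fun δ : ℝ => ∑' n, (ca n * xx δ n - cw δ n)) (𝓝[>] 0)
      (𝓝 (∑' _ : ℕ, (0 : ℝ))) := by
   refine tendsto_tsum_of_dominated_convergence (bound := fun n : ℕ => 2 * (1 / (n : ℝ) ^ 2))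
    ((Real.summable_one_div_nat_pow.mpr (by norm_num : 1 < 2)).mul_left 2) ?_ ?_
   · intro n
     by_cases hp : n.Prime
     · obtain ⟨h1, h2⟩ := inv_prime_bounds hp
       have hx : Tendsto (fun δ : ℝ => xx δ n) (𝓝 0) (𝓝 (xx 0 n)) := by
         apply Continuous.tendsto
         unfold xx
         fun_prop
       have hx0 : xx 0 n = 1 := by
         unfold xx
         rw [zero_mul, neg_zero, Real.exp_zero]
       rw [hx0] at hx
       have h3 : Tendsto (fun δ : ℝ => 1 - 1 / (n : ℝ) * xx δ n) (𝓝 0) (𝓝 (1 - 1 / (n : ℝ) * 1)) :=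
         (hx.const_mul _).const_sub 1
       have h4 : (1 : ℝ) - 1 / (n : ℝ) * 1 ≠ 0 := by
         rw [mul_one]
         linarith
       have h5 := ((Real.continuousAt_log h4).tendsto.comp h3).neg
       have h6 := (hx.const_mul (ca n)).sub h5
       have h7 : ca n * 1 - -Real.log (1 - 1 / (n : ℝ) * 1) = 0 := by
         unfold ca
         rw [if_pos hp, mul_one, mul_one, sub_self]
       rw [h7] at h6
       refine (h6.mono_left nhdsWithin_le_nhds).congr fun δ => ?_
       unfold cw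
       rw [if_pos hp]
       rfl
     · refine tendsto_const_nhds.congr fun δ => ?_
       unfold ca cw
       rw [if_neg hp, if_neg hp, zero_mul, sub_zero]
   · filter_upwards [self_mem_nhdsWithin] with δ hδ
     intro n
     by_cases hp : n.Prime
     · obtain ⟨h1, h2⟩ := inv_prime_bounds hp
       have h3 := xx_pos δ n
       have h4 := xx_le_one (le_of_lt hδ) n
       have h5 : (0 : ℝ) ≤ 1 / n * xx δ n := mul_nonneg h1 h3.le
       have h6 : (1 : ℝ) / n * xx δ n ≤ 1 / 2 := by (clear * - h2 h1 h4; nlinarith)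
       obtain ⟨h7, h8⟩ := neg_log_bounds h5 h6
       obtain ⟨h9, h10⟩ := neg_log_bounds h1 h2
       rw [Real.norm_eq_abs]
       unfold ca cw
       rw [if_pos hp, if_pos hp]
       rw [show (1 : ℝ) / (n : ℝ) ^ 2 = (1 / n) ^ 2 by rw [div_pow, one_pow]]
       generalize (1 : ℝ) / n = y at *
       generalize xx δ n = x at *
       generalize -Real.log (1 - y) = a at *
       generalize -Real.log (1 - y * x) = b at *
       have hyx : (y * x) ^ 2 ≤ y ^ 2 := by
         refine pow_le_pow_left₀ h5 ?_ 2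
         (clear * - h1 h4; nlinarith)
       rw [abs_le]
       constructor
       · (clear * - h8 hyx h3 h9; nlinarith)
       · (clear * - h7 h10 h3 h4; nlinarith [mul_le_mul_of_nonneg_right h10 h3.le, sq_nonneg y])
     · unfold ca cw
       rw [if_neg hp, if_neg hp, zero_mul, sub_zero, norm_zero]
       positivity
  rwa [h0] at hmain

theorem F_lim : Tendsto (fun δ : ℝ => Real.log δ + ∑' n, ca n * xx δ n) (𝓝[>] 0) (𝓝 0) := by
  have h := W_lim.add D_lim
  rw [add_zero] at h
  refine h.congr' ?_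
  filter_upwards [self_mem_nhdsWithin] with δ hδ
  rw [(summable_ca hδ).tsum_sub (summable_cw hδ)]
  ring

theorem E_eq {δ : ℝ} (hδ : 0 < δ) :
    HasSum (fun n : ℕ => (1 : ℝ) / n * Real.exp (-(δ * n))) (-Real.log (1 - Real.exp (-δ))) := by
  have h1 : |Real.exp (-δ)| < 1 := by
    rw [abs_of_pos (Real.exp_pos _), Real.exp_lt_one_iff]
    linarith
  have h2 := Real.hasSum_pow_div_log_of_abs_lt_one h1
  have h3 := (hasSum_nat_add_iff (f := fun n : ℕ => (1 : ℝ) / n * Real.exp (-(δ * n))) 1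
    (g := -Real.log (1 - Real.exp (-δ)))).1 ?_
  · simpa using h3
  · refine h2.congr_fun ?_
    intro n
    show (1 : ℝ) / ((n + 1 : ℕ) : ℝ) * Real.exp (-(δ * ((n + 1 : ℕ) : ℝ))) =
      Real.exp (-δ) ^ (n + 1) / ((n : ℝ) + 1)
    rw [← Real.exp_nat_mul]
    push_cast
    rw [show ((n : ℝ) + 1) * -δ = -(δ * ((n : ℝ) + 1)) by ring]
    ring

theorem E_lim : Tendsto (fun δ : ℝ => Real.log δ + ∑' n : ℕ, (1 : ℝ) / n * Real.exp (-(δ * n)))
    (𝓝[>] 0) (𝓝 0) := by
  have h1 : HasDerivAt (fun δ : ℝ => -Real.exp (-δ)) 1 0 := by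
    have h2 : HasDerivAt (fun δ : ℝ => Real.exp (-δ)) (Real.exp (-0) * -1) 0 :=
      (hasDerivAt_neg (0 : ℝ)).exp
    have h3 := h2.neg
    rw [neg_zero, Real.exp_zero, one_mul, neg_neg] at h3
    exact h3
  have h2 := (hasDerivAt_iff_tendsto_slope_zero.1 h1).mono_left
    (nhdsWithin_mono (0 : ℝ) (fun x (hx : 0 < x) => (ne_of_gt hx : x ≠ 0)))
  have h3 := (Real.continuousAt_log one_ne_zero).tendsto.comp h2
  rw [Real.log_one] at h3
  have h4 := h3.neg
  rw [neg_zero] at h4
  refine h4.congr' ?_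
  filter_upwards [self_mem_nhdsWithin] with δ hδ
  have hδ' : (0 : ℝ) < δ := hδ
  rw [(E_eq hδ').tsum_eq]
  show -Real.log (δ⁻¹ • (-Real.exp (-(0 + δ)) - -Real.exp 0)) = _
  have h5 : Real.exp (-δ) < 1 := by
    rw [Real.exp_lt_one_iff]
    linarith
  rw [zero_add, Real.exp_zero, smul_eq_mul,
    show -Real.exp (-δ) - -1 = 1 - Real.exp (-δ) by ring,
    Real.log_mul (inv_ne_zero hδ'.ne') (by linarith), Real.log_inv]
  ring

/-! ### the constant -/

theorem const_eq {C1 : ℝ} (hC1 : Tendsto (fun u => S1 u - Real.log u) atTop (𝓝 C1)) :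
    C1 = Real.eulerMascheroniConstant := by
  -- the difference
  have hG : Tendsto (fun u => S1 u - S2 u) atTop (𝓝 (C1 - Real.eulerMascheroniConstant)) := by
    refine (hC1.sub S2_lim).congr fun u => ?_
    ring
  have hmeas : Measurable fun u => S1 u - S2 u := S1_mono.measurable.sub S2_mono.measurable
  obtain ⟨M, hM⟩ : ∃ M : ℝ, ∀ u, 0 < u → |S1 u - S2 u| ≤ M := by
    have h1 := (hG.eventually (Metric.ball_mem_nhds _ one_pos)).exists_forall_of_atTop
    obtain ⟨U, hU⟩ := h1
    refine ⟨max (|C1 - Real.eulerMascheroniConstant| + 1) (S1 U + S2 U), ?_⟩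
    intro u hu
    rcases le_total U u with h | h
    · refine le_trans ?_ (le_max_left _ _)
      have h2 := hU u h
      rw [Real.dist_eq] at h2
      have h3 := abs_sub_abs_le_abs_sub (S1 u - S2 u) (C1 - Real.eulerMascheroniConstant)
      linarith
    · refine le_trans ?_ (le_max_right _ _)
      have h2 := S1_mono h
      have h3 := S2_mono h
      have h4 := S1_nonneg u
      have h5 := S2_nonneg u
      rw [abs_le]
      constructor <;> linarith
  have hA := abel _ _ M hmeas hM hG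
  have hFE : Tendsto (fun δ : ℝ => (Real.log δ + ∑' n, ca n * xx δ n) -
      (Real.log δ + ∑' n : ℕ, (1 : ℝ) / n * Real.exp (-(δ * n)))) (𝓝[>] 0) (𝓝 (0 - 0)) :=
    F_lim.sub E_lim
  have hA2 : Tendsto (fun δ : ℝ => (Real.log δ + ∑' n, ca n * xx δ n) -
      (Real.log δ + ∑' n : ℕ, (1 : ℝ) / n * Real.exp (-(δ * n)))) (𝓝[>] 0)
      (𝓝 (C1 - Real.eulerMascheroniConstant)) := by
    refine hA.congr' ?_
    filter_upwards [self_mem_nhdsWithin] with δ hδ
    have hδ' : (0 : ℝ) < δ := hδ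
    have i2 : IntegrableOn (fun t => S2 (t / δ) * Real.exp (-t)) (Ioi 0) := by
      have h1 := (Real.GammaIntegral_convergent (s := 2) (by norm_num)).const_mul δ⁻¹
      refine Integrable.mono' h1 ?_ ?_
      · refine Measurable.aestronglyMeasurable ?_
        exact (S2_mono.measurable.comp (measurable_id.div_const δ)).mul
          (Real.measurable_exp.comp measurable_neg)
      · refine (ae_restrict_iff' measurableSet_Ioi).2 (Eventually.of_forall fun t ht => ?_)
        have ht' : 0 < t / δ := div_pos ht hδ'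
        rw [Real.norm_eq_abs, abs_of_nonneg (mul_nonneg (S2_nonneg _) (Real.exp_pos _).le)]
        calc S2 (t / δ) * Real.exp (-t) ≤ (t / δ) * Real.exp (-t) :=
              mul_le_mul_of_nonneg_right (S2_le ht'.le) (Real.exp_pos _).le
          _ = δ⁻¹ * (Real.exp (-t) * t ^ ((2 : ℝ) - 1)) := by
              rw [show (2 : ℝ) - 1 = 1 by norm_num, Real.rpow_one]
              ring
    have iG : IntegrableOn (fun t => (S1 (t / δ) - S2 (t / δ)) * Real.exp (-t)) (Ioi 0) := by
      refine Integrable.mono' ((integrableOn_exp_neg_Ioi 0).const_mul M) ?_ ?_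
      · refine Measurable.aestronglyMeasurable ?_
        exact (hmeas.comp (measurable_id.div_const δ)).mul
          (Real.measurable_exp.comp measurable_neg)
      · refine (ae_restrict_iff' measurableSet_Ioi).2 (Eventually.of_forall fun t ht => ?_)
        rw [Real.norm_eq_abs, abs_mul, abs_of_pos (Real.exp_pos _)]
        exact mul_le_mul_of_nonneg_right (hM _ (div_pos ht hδ')) (Real.exp_pos _).le
    have i1 : IntegrableOn (fun t => S1 (t / δ) * Real.exp (-t)) (Ioi 0) := by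
      refine (iG.add i2).congr (Eventually.of_forall fun t => ?_)
      show (S1 (t / δ) - S2 (t / δ)) * Real.exp (-t) + S2 (t / δ) * Real.exp (-t) = _
      ring
    have l1 := laplace ca (fun n => Real.log n) ca_nonneg (fun n => Real.log_natCast_nonneg n) δ hδ'
      (summable_ca hδ') S1 (fun u _ => S1_hasSum u)
    have l2 := laplace (fun n => (1 : ℝ) / n) (fun n => (n : ℝ)) (fun n => by (clear * -; positivity))
      (fun n => Nat.cast_nonneg n) δ hδ' (E_eq hδ').summable S2 (fun u hu => S2_hasSum u hu)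
    have l3 : ∫ t in Ioi (0 : ℝ), (S1 (t / δ) - S2 (t / δ)) * Real.exp (-t) =
        (∫ t in Ioi (0 : ℝ), S1 (t / δ) * Real.exp (-t)) -
          ∫ t in Ioi (0 : ℝ), S2 (t / δ) * Real.exp (-t) := by
      rw [← integral_sub i1 i2]
      refine integral_congr_ae (Eventually.of_forall fun t => ?_)
      show (S1 (t / δ) - S2 (t / δ)) * Real.exp (-t) = _
      ring
    rw [l3, l1, l2]
    unfold xx
    ring
  have h := tendsto_nhds_unique hA2 hFE
  linarith

theorem mertens3 : Mertens3 := by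
  obtain ⟨C1, hC1⟩ := S1_lim
  have hγ := const_eq hC1
  subst hγ
  have h1 := ((Real.continuous_exp.tendsto _).comp (hC1.comp Real.tendsto_log_atTop).neg)
  refine h1.congr' ?_
  filter_upwards [eventually_ge_atTop (2 : ℝ)] with z hz
  have hz0 : (0 : ℝ) < z := by linarith
  have hlz : 0 < Real.log z := Real.log_pos (by linarith)
  show Real.exp (-(S1 (Real.log z) - Real.log (Real.log z))) = VV z * Real.log z
  rw [show -(S1 (Real.log z) - Real.log (Real.log z)) = -S1 (Real.log z) + Real.log (Real.log z) by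
    ring, Real.exp_add, Real.exp_log hlz]
  congr 1
  unfold S1 VV
  rw [Real.exp_log hz0, ← Finset.sum_neg_distrib, Real.exp_sum]
  refine Finset.prod_congr rfl fun p hp => ?_
  rw [mem_primesUpTo hz0.le] at hp
  obtain ⟨h2, h3⟩ := inv_prime_bounds hp.1
  unfold ca
  rw [if_pos hp.1, neg_neg, Real.exp_log (by (clear * - h3; linarith))]

end Pool.Agent.M20.Helper9.AV
end

/- Helper53.KN.Helper40.AV.Final2 -/
section
/-! Project AV: availability, part 2. -/

set_option autoImplicit false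

namespace Pool.Agent.M20.Helper40.AV

theorem selUp' : SelUp :=
  Pool.Agent.M20.Helper55.AV.selUp Pool.Agent.M20.Helper53AV.selbergP Pool.Agent.M20.Helper9.AV.mertens3
    Pool.Agent.M20.Helper7.AV.ggtriv Pool.Agent.M20.Helper7.AV.gglow

end Pool.Agent.M20.Helper40.AV
end

/- Helper53.KN.Helper40.KS.Win -/
section
/-!
# Project KS (MP_768c9c_nt), design D5: upper bounds for the numbers of candidates in windows
-/

set_option autoImplicit false

open Filter Topology

namespace Pool.Agent.M20.Helper40.KS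

open Pool.Agent.M20.Helper40.AV

open Classical in
/-- integers without small prime factors in a short window -/
theorem rough_up : ∃ C : ℝ, 0 < C ∧ ∃ K : ℕ, ∀ k : ℕ, K ≤ k → ∀ x h : ℕ,
    (2 : ℝ) ^ (0.38 * (k : ℝ)) ≤ h → ∀ T : Finset ℕ,
    (∀ n ∈ T, x ≤ n ∧ n < x + h ∧ ∀ p : ℕ, p.Prime → p ∣ n → (2 : ℝ) ^ (0.19 * (k : ℝ)) < p) →
    (T.card : ℝ) ≤ C * (h / k) := by
  obtain ⟨z₁, hz₁⟩ := selUp'.1 2 (by norm_num) le_rfl 1 one_pos
  have hM := Pool.Agent.M20.Helper9.AV.mertens3
  set g := Real.exp Real.eulerMascheroniConstant with hg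
  have hg0 : 0 < g := Real.exp_pos _
  have h1 := hM.eventually_lt_const
    (show Real.exp (-Real.eulerMascheroniConstant) < 1 by
      have := Pool.Agent.M20.Helper51.AV.gammaNum.2
      (clear * - this; linarith))
  obtain ⟨z₂, hz₂⟩ := eventually_atTop.1 h1
  have tz : Tendsto (fun k : ℕ => (2 : ℝ) ^ (0.19 * (k : ℝ))) atTop atTop := by
    have : Tendsto (fun k : ℕ => 0.19 * (k : ℝ)) atTop atTop :=
      tendsto_natCast_atTop_atTop.const_mul_atTop (by norm_num)
    exact (tendsto_rpow_atTop_of_base_gt_one 2 (by norm_num)).comp this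
  obtain ⟨K, hK⟩ := eventually_atTop.1 ((tz.eventually_ge_atTop z₁).and
    (tz.eventually_ge_atTop z₂))
  refine ⟨(2 * g / 2 + 1) * (1 / (0.19 * Real.log 2)), by positivity, max K 1, ?_⟩
  intro k hk x h hh T hT
  have hk1 : (1 : ℝ) ≤ k := by exact_mod_cast (le_max_right K 1).trans hk
  exact by
    have hk0 : (0 : ℝ) < k := by (clear * - hk1; linarith)
    obtain ⟨b1, b2⟩ := hK k ((le_max_left K 1).trans hk)
    set z := (2 : ℝ) ^ (0.19 * (k : ℝ)) with hz
    have hz0 : 0 < z := Real.rpow_pos_of_pos (by norm_num) _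
    have hlz : Real.log z = 0.19 * Real.log 2 * k := by
      rw [hz, Real.log_rpow (by norm_num)]; ring
    have hl2 : 0 < Real.log 2 := Real.log_pos (by norm_num)
    have c1 := hz₁ z b1 x h (by
      rw [hz, ← Real.rpow_mul (by norm_num)]
      refine le_trans (le_of_eq ?_) hh
      congr 1; ring)
    have c2 := hz₂ z b2
    have hVV : VV z ≤ 1 / (0.19 * Real.log 2 * k) := by
      rw [le_div_iff₀ (by (clear * - hk1; positivity))]
      rw [← hlz]
      exact c2.le
    have hsub : T ⊆ RS x h z := by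
      intro n hn
      obtain ⟨d1, d2, d3⟩ := hT n hn
      unfold RS
      rw [Finset.mem_filter, Finset.mem_Ico]
      exact ⟨⟨d1, d2⟩, d3⟩
    have hcard : (T.card : ℝ) ≤ ((RS x h z).card : ℝ) := by exact_mod_cast Finset.card_le_card hsub
    calc (T.card : ℝ) ≤ _ := hcard
      _ ≤ (2 * g / 2 + 1) * h * VV z := c1
      _ ≤ (2 * g / 2 + 1) * h * (1 / (0.19 * Real.log 2 * k)) :=
          mul_le_mul_of_nonneg_left hVV (by (clear * -; positivity))
      _ = _ := by field_simp

/-- products of two large primes in a short window -/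
theorem pairs_rough : ∃ C : ℝ, 0 < C ∧ ∃ K : ℕ, ∀ k : ℕ, K ≤ k → ∀ x h : ℕ,
    (2 : ℝ) ^ (0.38 * (k : ℝ)) ≤ h → ∀ T : Finset (ℕ × ℕ),
    (∀ y ∈ T, y.1.Prime ∧ y.2.Prime ∧ (2 : ℝ) ^ (0.19 * (k : ℝ)) < y.1 ∧
      (2 : ℝ) ^ (0.19 * (k : ℝ)) < y.2 ∧ x ≤ y.1 * y.2 ∧ y.1 * y.2 < x + h) →
    (T.card : ℝ) ≤ C * (h / k) := by
  classical
  obtain ⟨C, hC, K, H⟩ := rough_up
  refine ⟨2 * C, by positivity, K, fun k hk x h hh T hT => ?_⟩
  have h1 := H k hk x h hh (T.image fun y => y.1 * y.2) (by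
    intro n hn
    obtain ⟨y, hy, rfl⟩ := Finset.mem_image.1 hn
    obtain ⟨a1, a2, a3, a4, a5, a6⟩ := hT y hy
    refine ⟨a5, a6, fun p hp hpd => ?_⟩
    rcases (Nat.Prime.dvd_mul hp).1 hpd with h | h
    · rw [(Nat.prime_dvd_prime_iff_eq hp a1).1 h]; exact a3
    · rw [(Nat.prime_dvd_prime_iff_eq hp a2).1 h]; exact a4)
  have h2 : T.card ≤ 2 * (T.image fun y => y.1 * y.2).card := by
    refine Finset.card_le_mul_card_image T 2 ?_
    intro n hn
    obtain ⟨y, hy, hyn⟩ := Finset.mem_image.1 hn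
    obtain ⟨a1, a2, a3, a4, a5, a6⟩ := hT y hy
    refine (Finset.card_le_card (t := {y, (y.2, y.1)}) ?_).trans Finset.card_le_two
    intro w hw
    rw [Finset.mem_filter] at hw
    obtain ⟨hw, hwn⟩ := hw
    obtain ⟨b1, b2, -, -, -, -⟩ := hT w hw
    rw [Finset.mem_insert, Finset.mem_singleton]
    have e : w.1 * w.2 = y.1 * y.2 := by rw [hwn, ← hyn]
    have hd : w.1 ∣ y.1 * y.2 := ⟨w.2, e.symm⟩
    rcases (Nat.Prime.dvd_mul b1).1 hd with h | h
    · left
      have e1 := (Nat.prime_dvd_prime_iff_eq b1 a1).1 h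
      rw [e1] at e
      exact Prod.ext e1 (Nat.eq_of_mul_eq_mul_left a1.pos e)
    · right
      have e1 := (Nat.prime_dvd_prime_iff_eq b1 a2).1 h
      rw [e1, mul_comm y.1 y.2] at e
      exact Prod.ext e1 (Nat.eq_of_mul_eq_mul_left a2.pos e)
  calc (T.card : ℝ) ≤ 2 * ((T.image fun y => y.1 * y.2).card : ℝ) := by exact_mod_cast h2
    _ ≤ 2 * (C * (h / k)) := by (clear * - h1; linarith)
    _ = _ := by ring

/-- Brun-Titchmarsh for products `q m` of two primes, `m` in a dyadic interval -/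
theorem pairs_bt {θ₁ θ₂ : ℝ} (h1 : 0 < θ₁) (h2 : θ₂ < 0.498) : ∃ C : ℝ, 0 < C ∧ ∃ K : ℕ,
    ∀ k : ℕ, K ≤ k → ∀ mu : ℕ, θ₁ * k ≤ mu → (mu : ℝ) ≤ θ₂ * k → ∀ x h : ℕ,
    (2 : ℝ) ^ (0.498 * (k : ℝ)) ≤ h → ∀ T : Finset (ℕ × ℕ),
    (∀ y ∈ T, y.1.Prime ∧ y.2.Prime ∧ 2 ^ mu < y.2 ∧ y.2 ≤ 2 * 2 ^ mu ∧
      x ≤ y.1 * y.2 ∧ y.1 * y.2 < x + h) →
    (T.card : ℝ) ≤ C * (h / k ^ 2) := by
  classical
  obtain ⟨B, hB, hbt⟩ := Pool.Agent.M20.Helper15.KS.bt
  have hl2 : 0 < Real.log 2 := Real.log_pos (by norm_num)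
  set ε := 0.498 - θ₂ with hε
  have hε0 : 0 < ε := by rw [hε]; (clear * - h2; linarith)
  obtain ⟨K1, hK1⟩ := exists_nat_gt (4 / ε)
  obtain ⟨K2, hK2⟩ := exists_nat_gt (2 / θ₁)
  set Q := B * (2 / (θ₁ * Real.log 2)) with hQ
  set P := B * 4 * (2 / (ε * Real.log 2)) with hP
  refine ⟨Q * P, by (clear * - hB h1 h2; positivity), max (max K1 K2) 1, ?_⟩
  intro k hk mu hmu1 hmu2 x h hh T hT
  have hkK1 : (K1 : ℝ) ≤ k := by
    exact_mod_cast ((le_max_left K1 K2).trans (le_max_left _ 1)).trans hk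
  exact by
    have hkK2 : (K2 : ℝ) ≤ k := by
      exact_mod_cast ((le_max_right K1 K2).trans (le_max_left _ 1)).trans hk
    have hk1 : (1 : ℝ) ≤ k := by exact_mod_cast (le_max_right _ 1).trans hk
    have hk0 : (0 : ℝ) < k := by (clear * - hk1; linarith)
    have hεk : 4 < ε * k := by
      rw [div_lt_iff₀ hε0] at hK1
      (clear * - hK1 hε h2 hkK1; nlinarith)
    have hθk : 2 < θ₁ * k := by
      rw [div_lt_iff₀ h1] at hK2
      (clear * - hK2 h1 hkK2; nlinarith)
    set M : ℕ := 2 ^ mu with hMdef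
    exact by
      have hM0 : 0 < M := by positivity
      have hMr : (M : ℝ) = (2 : ℝ) ^ (mu : ℝ) := by
        rw [hMdef]; push_cast; rw [Real.rpow_natCast]
      have hmu2' : (2 : ℝ) < mu := by (clear * - hmu1 hθk; linarith)
      have hM2 : 2 ≤ M := by
        have : (2 : ℝ) ≤ M := by
          rw [hMr]
          calc (2 : ℝ) = (2 : ℝ) ^ (1 : ℝ) := (Real.rpow_one 2).symm
            _ ≤ _ := Real.rpow_le_rpow_of_exponent_le (by norm_num) (by (clear * - hmu1 hθk; linarith))
        exact_mod_cast this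
      -- number of the `m`
      set PMs := (Finset.Ico (M + 1) (M + 1 + M)).filter Nat.Prime with hPMs
      have hPM : (PMs.card : ℝ) ≤ Q * M / k := by
        have b := hbt (M + 1) M hM2
        refine b.trans ?_
        have hlM : Real.log M = mu * Real.log 2 := by
          rw [hMr, Real.log_rpow (by norm_num)]
        have hlMpos : θ₁ * k * Real.log 2 / 2 ≤ Real.log M := by
          rw [hlM]
          have : θ₁ * k * Real.log 2 ≤ mu * Real.log 2 := mul_le_mul_of_nonneg_right hmu1 hl2.le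
          have h0 : 0 < θ₁ * k * Real.log 2 := by (clear * - h1 hk1; positivity)
          (clear * - this h0; linarith)
        have h0 : 0 < θ₁ * k * Real.log 2 / 2 := by positivity
        calc B * M / Real.log M ≤ B * M / (θ₁ * k * Real.log 2 / 2) :=
              div_le_div_of_nonneg_left (by positivity) h0 hlMpos
          _ = Q * M / k := by rw [hQ]; (clear * - hk1 h1 hM0 hB; field_simp)
      -- number of the `q` for given `m`
      exact by
        have hfib : ∀ m ∈ PMs, ((T.filter fun y => y.2 = m).card : ℝ) ≤ P * (h / M) / k := by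
          intro m hm
          rw [hPMs, Finset.mem_filter, Finset.mem_Ico] at hm
          obtain ⟨⟨hm1, hm2⟩, hmp⟩ := hm
          have hm0 : 0 < m := hmp.pos
          set a := x / m with ha
          set L := h / m + 2 with hL
          have hL2 : 2 ≤ L := by rw [hL]; exact Nat.le_add_left 2 _
          have b := hbt a L hL2
          have hsub : (T.filter fun y => y.2 = m).card ≤ ((Finset.Ico a (a + L)).filter Nat.Prime).card := by
            refine Finset.card_le_card_of_injOn (fun y => y.1) ?_ ?_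
            · intro y hy
              rw [Finset.mem_coe, Finset.mem_filter] at hy
              obtain ⟨hyT, hym⟩ := hy
              obtain ⟨c1, c2, c3, c4, c5, c6⟩ := hT y hyT
              rw [hym] at c5 c6
              simp only [Finset.coe_filter, Finset.mem_Ico, Set.mem_ofPred_eq]
              refine ⟨⟨?_, ?_⟩, c1⟩
              · rw [ha]
                exact (Nat.div_le_div_right c5).trans (by rw [Nat.mul_div_cancel _ hm0])
              · rw [ha, hL]
                have e1 : y.1 ≤ (x + h) / m := by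
                  rw [Nat.le_div_iff_mul_le hm0]
                  exact c6.le
                have e2 : (x + h) / m ≤ x / m + h / m + 1 := by
                  rw [Nat.add_div hm0]
                  split_ifs <;> omega
                omega
            · intro y hy w hw hyw
              rw [Finset.mem_coe, Finset.mem_filter] at hy hw
              exact Prod.ext hyw (by rw [hy.2, hw.2])
          have hhm : (2 : ℝ) ^ (ε * k) / 2 ≤ (h : ℝ) / m := by
            have hmM : (m : ℝ) ≤ 2 * M := by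
              have : m ≤ 2 * M := by omega
              exact_mod_cast this
            have hm0' : (0 : ℝ) < m := by exact_mod_cast hm0
            rw [le_div_iff₀ hm0']
            calc (2 : ℝ) ^ (ε * k) / 2 * m ≤ (2 : ℝ) ^ (ε * k) / 2 * (2 * M) :=
                  mul_le_mul_of_nonneg_left hmM (by positivity)
              _ = (2 : ℝ) ^ (ε * k) * (2 : ℝ) ^ (mu : ℝ) := by rw [hMr]; ring
              _ = (2 : ℝ) ^ (ε * k + mu) := by rw [← Real.rpow_add (by norm_num)]
              _ ≤ (2 : ℝ) ^ (0.498 * (k : ℝ)) := by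
                  apply Real.rpow_le_rpow_of_exponent_le (by norm_num)
                  rw [hε]
                  (clear * - hmu2; linarith)
              _ ≤ h := hh
          have hLlow : (h : ℝ) / m ≤ L := by
            rw [hL]; push_cast
            have := Nat.lt_div_mul_add hm0 (a := h)
            have hm0' : (0 : ℝ) < m := by exact_mod_cast hm0
            rw [div_le_iff₀ hm0']
            have h3 : (h : ℝ) < (h / m : ℕ) * m + m := by exact_mod_cast this
            (clear * - hm0' h3; nlinarith)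
          have hbig : (2 : ℝ) ≤ (2 : ℝ) ^ (ε * k) / 2 := by
            rw [le_div_iff₀ (by norm_num)]
            calc (2 : ℝ) * 2 = (2 : ℝ) ^ (2 : ℝ) := by norm_num
              _ ≤ _ := Real.rpow_le_rpow_of_exponent_le (by norm_num) (by (clear * - hεk; linarith))
          have hLup : (L : ℝ) ≤ 2 * (h / m) := by
            rw [hL]; push_cast
            have h3 : ((h / m : ℕ) : ℝ) ≤ (h : ℝ) / m := Nat.cast_div_le
            (clear * - hhm hbig h3; linarith)
          have hLM : (L : ℝ) ≤ 2 * (h / M) := by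
            refine hLup.trans ?_
            have hMm : (M : ℝ) ≤ m := by exact_mod_cast (by omega : M ≤ m)
            have hM0' : (0 : ℝ) < M := by exact_mod_cast hM0
            have : (h : ℝ) / m ≤ h / M := div_le_div_of_nonneg_left (by (clear * -; positivity)) hM0' hMm
            (clear * - this; linarith)
          have hlog : ε * k * Real.log 2 / 2 ≤ Real.log L := by
            have h4 : (2 : ℝ) ^ (ε * k) / 2 ≤ L := hhm.trans hLlow
            have h5 : Real.log ((2 : ℝ) ^ (ε * k) / 2) ≤ Real.log L :=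
              Real.log_le_log (by positivity) h4
            rw [Real.log_div (by positivity) (by norm_num), Real.log_rpow (by norm_num)] at h5
            (clear * - hl2 h5 hεk; nlinarith)
          have h0 : 0 < ε * k * Real.log 2 / 2 := by (clear * - h2 hk1; positivity)
          calc ((T.filter fun y => y.2 = m).card : ℝ) ≤
                (((Finset.Ico a (a + L)).filter Nat.Prime).card : ℝ) := by exact_mod_cast hsub
            _ ≤ B * L / Real.log L := b
            _ ≤ B * (2 * (h / M)) / (ε * k * Real.log 2 / 2) := by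
                apply div_le_div₀ (by (clear * - hB; positivity)) _ h0 hlog
                exact mul_le_mul_of_nonneg_left hLM hB.le
            _ ≤ P * (h / M) / k := by
                rw [hP]
                have hM0' : (0 : ℝ) < M := by exact_mod_cast hM0
                rw [div_le_div_iff₀ h0 hk0]
                have : B * 4 * (2 / (ε * Real.log 2)) * (↑h / ↑M) * (ε * ↑k * Real.log 2 / 2) =
                  B * 4 * (h / M) * k := by (clear * - hε0 hk1 hM0 hB; field_simp)
                rw [this]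
                have h6 : 0 ≤ (h : ℝ) / M := by (clear * -; positivity)
                (clear * - hB h6 hk0; nlinarith [mul_nonneg (mul_nonneg hB.le h6) hk0.le])
        have hsplit : T.card = ∑ m ∈ PMs, (T.filter fun y => y.2 = m).card := by
          apply Finset.card_eq_sum_card_fiberwise
          intro y hy
          obtain ⟨c1, c2, c3, c4, c5, c6⟩ := hT y hy
          rw [hPMs, Finset.coe_filter, Set.mem_ofPred_eq, Finset.mem_Ico]
          refine ⟨⟨?_, ?_⟩, c2⟩
          · rw [hMdef]; omega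
          · rw [hMdef]; omega
        have hM0' : (0 : ℝ) < M := by exact_mod_cast hM0
        calc (T.card : ℝ) = ∑ m ∈ PMs, ((T.filter fun y => y.2 = m).card : ℝ) := by
              rw [hsplit]; push_cast; rfl
          _ ≤ ∑ m ∈ PMs, P * (h / M) / k := Finset.sum_le_sum hfib
          _ = PMs.card * (P * (h / M) / k) := by rw [Finset.sum_const, nsmul_eq_mul]
          _ ≤ (Q * M / k) * (P * (h / M) / k) :=
              mul_le_mul_of_nonneg_right hPM (by (clear * - hB h2 hk1; positivity))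
          _ = Q * P * (h / k ^ 2) := by (clear * - hM0 hk1; field_simp)

end Pool.Agent.M20.Helper40.KS
end

/- Helper53.KN.Helper30.AV.Rankin -/
section
/-! AV3b: Selberg's sum for large `u` (Rankin's trick). -/

set_option autoImplicit false

open Finset

namespace Pool.Agent.M20.Helper30.AV

open Pool.Agent.M20.Helper40.AV
open Pool.Agent.M20.Helper44 (primesUpTo mem_primesUpTo mertens_first)

/-! ### Second moments of the logarithm -/

theorem sum_log_sq : ∃ C : ℝ, 0 < C ∧ ∀ N : ℕ, 1 ≤ N →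
    |∑ q ∈ (Ioc 0 N).filter Nat.Prime, Real.log q / q - Real.log N| ≤ C ∧
    ∑ q ∈ (Ioc 0 N).filter Nat.Prime, Real.log q ^ 2 / q ≤
      1 / 2 * Real.log N ^ 2 + (2 * C + 1) * Real.log N := by
  obtain ⟨C, hC, h⟩ := mertens_first
  refine ⟨C, hC, fun N hN => ⟨h N hN, ?_⟩⟩
  have key : ∀ N : ℕ, 1 ≤ N → ∑ q ∈ (Ioc 0 N).filter Nat.Prime, Real.log q ^ 2 / q ≤
      (∑ q ∈ (Ioc 0 N).filter Nat.Prime, Real.log q / q) * Real.log N - 1 / 2 * Real.log N ^ 2 +
        (C + 1) * Real.log N := by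
    intro N hN
    induction N, hN using Nat.le_induction with
    | base =>
      have : (Ioc 0 1).filter Nat.Prime = ∅ := by decide
      rw [this]
      simp
    | succ N hN ih =>
      have hNpos : (0 : ℝ) < N := by exact_mod_cast hN
      have hsum : ∀ g : ℕ → ℝ, ∑ q ∈ (Ioc 0 (N + 1)).filter Nat.Prime, g q =
          ∑ q ∈ (Ioc 0 N).filter Nat.Prime, g q + (if (N + 1).Prime then g (N + 1) else 0) := by
        intro g
        rw [Finset.sum_filter, Finset.sum_filter, Finset.sum_Ioc_succ_top (Nat.zero_le N)]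
      rw [hsum, hsum]
      set S := ∑ q ∈ (Ioc 0 N).filter Nat.Prime, Real.log q / q with hS
      set a : ℝ := if (N + 1).Prime then Real.log ((N + 1 : ℕ) : ℝ) / ((N + 1 : ℕ) : ℝ) else 0 with ha
      have ha2 : (if (N + 1).Prime then Real.log ((N + 1 : ℕ) : ℝ) ^ 2 / ((N + 1 : ℕ) : ℝ) else 0) =
          a * Real.log ((N + 1 : ℕ) : ℝ) := by
        rw [ha]
        split_ifs
        · ring
        · ring
      rw [ha2]
      have hb := (abs_le.mp (h N hN)).1
      set d := Real.log ((N + 1 : ℕ) : ℝ) - Real.log N with hd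
      have hd0 : 0 ≤ d := by
        rw [hd, sub_nonneg]
        apply Real.log_le_log hNpos
        push_cast; (clear * -; linarith)
      have hd1 : d ≤ 1 := by
        rw [hd, ← Real.log_div (by (clear * - hN; positivity)) (by positivity)]
        have : (((N + 1 : ℕ) : ℝ) / N) ≤ 2 := by
          rw [div_le_iff₀ hNpos]
          push_cast
          have : (1 : ℝ) ≤ N := by exact_mod_cast hN
          (clear * - this; linarith)
        calc Real.log (((N + 1 : ℕ) : ℝ) / N) ≤ Real.log 2 := Real.log_le_log (by positivity) this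
          _ ≤ 1 := by have := Real.log_two_lt_d9; (clear * - this; linarith)
      have hl : Real.log ((N + 1 : ℕ) : ℝ) = Real.log N + d := by rw [hd]; ring
      rw [hl]
      rw [hl] at hd
      have hSb : Real.log N - C ≤ S := by (clear * - hb; linarith)
      (clear * - ih hd0 hSb hd1; nlinarith [mul_nonneg (sub_nonneg.mpr hSb) hd0, mul_nonneg hd0 (sub_nonneg.mpr hd1)])
  have h1 := key N hN
  have h2 := (abs_le.mp (h N hN)).2
  have hlog : 0 ≤ Real.log N := Real.log_natCast_nonneg N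
  nlinarith [mul_nonneg (sub_nonneg.mpr h2) hlog]

/-- `e^(2t) ≤ 1 + 2t + (e^2 - 3) t^2` on `[0,1]`. -/
theorem exp_bound {t : ℝ} (h0 : 0 ≤ t) (h1 : t ≤ 1) :
    Real.exp (2 * t) ≤ 1 + 2 * t + (Real.exp 2 - 3) * t ^ 2 := by
  have ha : HasSum (fun n : ℕ => (2 * t) ^ n / (n.factorial : ℝ)) (Real.exp (2 * t)) := by
    have := NormedSpace.expSeries_div_hasSum_exp (2 * t)
    rwa [← Real.exp_eq_exp_ℝ] at this
  have hb : HasSum (fun n : ℕ => t ^ 2 * (2 ^ n / (n.factorial : ℝ)) +
      ((if n = 0 then 1 - t ^ 2 else 0) + (if n = 1 then 2 * t - 2 * t ^ 2 else 0)))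
      (t ^ 2 * Real.exp 2 + ((1 - t ^ 2) + (2 * t - 2 * t ^ 2))) := by
    refine HasSum.add ?_ (HasSum.add (hasSum_ite_eq 0 _) (hasSum_ite_eq 1 _))
    apply HasSum.mul_left
    have := NormedSpace.expSeries_div_hasSum_exp (2 : ℝ)
    rwa [← Real.exp_eq_exp_ℝ] at this
  have hle : Real.exp (2 * t) ≤ t ^ 2 * Real.exp 2 + ((1 - t ^ 2) + (2 * t - 2 * t ^ 2)) := by
    refine hasSum_le (fun n => ?_) ha hb
    rcases n with _ | _ | n
    · simp
    · norm_num
      linarith
    · have e1 : ¬ (n + 1 + 1 = 0) := by omega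
      have e2 : ¬ (n + 1 + 1 = 1) := by omega
      rw [if_neg e1, if_neg e2, add_zero, add_zero, mul_pow, ← mul_div_assoc]
      have h3 : t ^ (n + 1 + 1) ≤ t ^ 2 := pow_le_pow_of_le_one h0 h1 (by omega)
      have h4 : 2 ^ (n + 1 + 1) * t ^ (n + 1 + 1) ≤ t ^ 2 * 2 ^ (n + 1 + 1) := by
        rw [mul_comm]
        exact mul_le_mul_of_nonneg_right h3 (by positivity)
      exact div_le_div_of_nonneg_right h4 (by positivity)
  linarith

theorem exp_two_le : Real.exp 2 ≤ 7.3891 := by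
  have h1 := Real.exp_one_lt_d9
  have h2 : Real.exp 2 = Real.exp 1 * Real.exp 1 := by rw [← Real.exp_add]; norm_num
  have h3 : 0 < Real.exp 1 := Real.exp_pos 1
  rw [h2]
  nlinarith

/-- The sum of `(p^η - 1)/p`, `η = 2 / log z`. -/
theorem sum_rpow_le : ∃ z₀ : ℝ, 2 ≤ z₀ ∧ ∀ z : ℝ, z₀ ≤ z →
    ∑ p ∈ primesUpTo z, ((p : ℝ) ^ (2 / Real.log z) - 1) / p ≤ 4.2 := by
  obtain ⟨C, hC, h⟩ := sum_log_sq
  refine ⟨max 2 (Real.exp (1000 * (7 * C + 5))), le_max_left _ _, fun z hz => ?_⟩
  have hz2 : 2 ≤ z := (le_max_left _ _).trans hz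
  have hzpos : 0 < z := by (clear * - hz2; linarith)
  have hL : 1000 * (7 * C + 5) ≤ Real.log z := by
    rw [Real.le_log_iff_exp_le hzpos]
    exact (le_max_right _ _).trans hz
  have hLpos : 0 < Real.log z := by linarith
  have hfl : 1 ≤ ⌊z⌋₊ := by
    rw [Nat.one_le_floor_iff]; (clear * - hz2; linarith)
  obtain ⟨h1, h2⟩ := h ⌊z⌋₊ hfl
  have hlf : Real.log (⌊z⌋₊ : ℝ) ≤ Real.log z := by
    apply Real.log_le_log (by exact_mod_cast hfl)
    exact Nat.floor_le hzpos.le
  have hlf0 : 0 ≤ Real.log (⌊z⌋₊ : ℝ) := Real.log_natCast_nonneg _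
  have h1' : ∑ q ∈ primesUpTo z, Real.log q / q ≤ Real.log z + C := by
    have := (abs_le.mp h1).2
    show ∑ q ∈ (Ioc 0 ⌊z⌋₊).filter Nat.Prime, Real.log q / q ≤ _
    (clear * - hlf this; linarith)
  have h2' : ∑ q ∈ primesUpTo z, Real.log q ^ 2 / q ≤
      1 / 2 * Real.log z ^ 2 + (2 * C + 1) * Real.log z := by
    refine le_trans h2 ?_
    have h3 : Real.log (⌊z⌋₊ : ℝ) ^ 2 ≤ Real.log z ^ 2 := by
      apply pow_le_pow_left₀ hlf0 hlf
    have h4 : (2 * C + 1) * Real.log (⌊z⌋₊ : ℝ) ≤ (2 * C + 1) * Real.log z :=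
      mul_le_mul_of_nonneg_left hlf (by (clear * - hC; linarith))
    (clear * - h3 h4; linarith)
  have hterm : ∀ p ∈ primesUpTo z, ((p : ℝ) ^ (2 / Real.log z) - 1) / p ≤
      2 / Real.log z * (Real.log p / p) + 4.3891 / Real.log z ^ 2 * (Real.log p ^ 2 / p) := by
    intro p hp
    rw [mem_primesUpTo hzpos.le] at hp
    have hp1 : (1 : ℝ) ≤ p := by exact_mod_cast hp.1.one_lt.le
    have hppos : (0 : ℝ) < p := by (clear * - hp1; linarith)
    have hlp : 0 ≤ Real.log p := Real.log_nonneg hp1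
    have hlpz : Real.log p ≤ Real.log z := Real.log_le_log hppos hp.2
    have e1 : (p : ℝ) ^ (2 / Real.log z) = Real.exp (2 * (Real.log p / Real.log z)) := by
      rw [Real.rpow_def_of_pos hppos]
      congr 1
      field_simp
    have h5 := exp_bound (t := Real.log p / Real.log z) (by (clear * - hLpos; positivity))
      (by rw [div_le_one hLpos]; exact hlpz)
    have h6 : Real.exp (2 * (Real.log p / Real.log z)) - 1 ≤
        2 * (Real.log p / Real.log z) + 4.3891 * (Real.log p / Real.log z) ^ 2 := by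
      have h7 := exp_two_le
      have h8 : (Real.exp 2 - 3) * (Real.log p / Real.log z) ^ 2 ≤
          4.3891 * (Real.log p / Real.log z) ^ 2 :=
        mul_le_mul_of_nonneg_right (by (clear * - h7; linarith)) (by (clear * -; positivity))
      (clear * - h5 h8; linarith)
    rw [e1]
    calc (Real.exp (2 * (Real.log p / Real.log z)) - 1) / p ≤
        (2 * (Real.log p / Real.log z) + 4.3891 * (Real.log p / Real.log z) ^ 2) / p :=
          div_le_div_of_nonneg_right h6 hppos.le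
      _ = _ := by (clear * - hp1 hLpos; field_simp)
  have hsum : ∑ p ∈ primesUpTo z, ((p : ℝ) ^ (2 / Real.log z) - 1) / p ≤
      2 / Real.log z * (Real.log z + C) + 4.3891 / Real.log z ^ 2 *
        (1 / 2 * Real.log z ^ 2 + (2 * C + 1) * Real.log z) := by
    refine (Finset.sum_le_sum hterm).trans ?_
    rw [Finset.sum_add_distrib, ← Finset.mul_sum, ← Finset.mul_sum]
    exact add_le_add (mul_le_mul_of_nonneg_left h1' (by positivity))
      (mul_le_mul_of_nonneg_left h2' (by positivity))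
  refine hsum.trans ?_
  have e2 : 2 / Real.log z * (Real.log z + C) + 4.3891 / Real.log z ^ 2 *
        (1 / 2 * Real.log z ^ 2 + (2 * C + 1) * Real.log z) =
      2 + 4.3891 / 2 + (2 * C + 4.3891 * (2 * C + 1)) / Real.log z := by
    field_simp
    ring
  rw [e2]
  have h9 : (2 * C + 4.3891 * (2 * C + 1)) / Real.log z ≤ 0.005 := by
    rw [div_le_iff₀ hLpos]
    (clear * - hC hL; nlinarith)
  (clear * - h9; linarith)

/-! ### Subsets of primes -/

theorem prod_facts (T : Finset ℕ) (hT : ∀ p ∈ T, p.Prime) :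
    Squarefree (∏ p ∈ T, p) ∧ ((∏ p ∈ T, p).totient : ℝ) = ∏ p ∈ T, ((p : ℝ) - 1) := by
  induction T using Finset.induction_on with
  | empty => simp
  | insert p T hp ih =>
    have hpp := hT p (Finset.mem_insert_self p T)
    obtain ⟨h1, h2⟩ := ih fun q hq => hT q (Finset.mem_insert_of_mem hq)
    have hcop : Nat.Coprime p (∏ q ∈ T, q) := by
      apply Nat.Coprime.prod_right
      intro q hq
      rw [Nat.coprime_primes hpp (hT q (Finset.mem_insert_of_mem hq))]
      rintro rfl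
      exact hp hq
    rw [Finset.prod_insert hp, Finset.prod_insert hp]
    refine ⟨(Nat.squarefree_mul hcop).mpr ⟨hpp.squarefree, h1⟩, ?_⟩
    rw [Nat.totient_mul hcop, Nat.totient_prime hpp, Nat.cast_mul, h2,
      Nat.cast_sub hpp.one_lt.le, Nat.cast_one]

theorem GG_ge (z Y : ℝ) (hz : 0 ≤ z) :
    ∑ T ∈ (primesUpTo z).powerset.filter (fun T => ((∏ p ∈ T, p : ℕ) : ℝ) ≤ Y),
      ∏ p ∈ T, (1 : ℝ) / ((p : ℝ) - 1) ≤ GG z Y := by
  classical
  set F := (primesUpTo z).powerset.filter (fun T => ((∏ p ∈ T, p : ℕ) : ℝ) ≤ Y) with hF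
  have hprime : ∀ T ∈ F, ∀ p ∈ T, p.Prime ∧ (p : ℝ) ≤ z := by
    intro T hT p hp
    rw [hF, Finset.mem_filter, Finset.mem_powerset] at hT
    exact (mem_primesUpTo hz).mp (hT.1 hp)
  have hinj : Set.InjOn (fun T : Finset ℕ => ∏ p ∈ T, p) (F : Set (Finset ℕ)) := by
    intro T hT T' hT' heq
    have h1 := Nat.primeFactors_prod (s := T) fun p hp => (hprime T hT p hp).1
    have h2 := Nat.primeFactors_prod (s := T') fun p hp => (hprime T' hT' p hp).1
    rw [← h1, ← h2]
    exact congrArg Nat.primeFactors heq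
  have h3 : ∑ T ∈ F, ∏ p ∈ T, (1 : ℝ) / ((p : ℝ) - 1) =
      ∑ m ∈ F.image (fun T : Finset ℕ => ∏ p ∈ T, p), (1 : ℝ) / m.totient := by
    rw [Finset.sum_image hinj]
    refine Finset.sum_congr rfl fun T hT => ?_
    rw [(prod_facts T fun p hp => (hprime T hT p hp).1).2, Finset.prod_div_distrib,
      Finset.prod_const_one]
  rw [h3, GG]
  refine Finset.sum_le_sum_of_subset_of_nonneg ?_ fun m _ _ => by (clear * -; positivity)
  intro m hm
  rw [Finset.mem_image] at hm
  obtain ⟨T, hT, rfl⟩ := hm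
  have hT2 := (Finset.mem_filter.mp hT).2
  have hpos : 0 < ∏ p ∈ T, p := Finset.prod_pos fun p hp => (hprime T hT p hp).1.pos
  rw [Finset.mem_filter, Finset.mem_Icc]
  refine ⟨⟨hpos, Nat.le_floor hT2⟩, (prod_facts T fun p hp => (hprime T hT p hp).1).1, ?_⟩
  intro r hr hrd
  obtain ⟨p, hp, hrp⟩ := (Prime.dvd_finsetProd_iff hr.prime _).mp hrd
  have h4 := (Nat.prime_dvd_prime_iff_eq hr (hprime T hT p hp).1).mp hrp
  rw [h4]
  exact (hprime T hT p hp).2

theorem gGrankin : GGrankin := by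
  classical
  obtain ⟨z₀, hz₀, h⟩ := sum_rpow_le
  refine ⟨z₀, hz₀, fun z u hz hu => ?_⟩
  have hz2 : 2 ≤ z := hz₀.trans hz
  have hzpos : 0 < z := by linarith
  have hLpos : 0 < Real.log z := Real.log_pos (by linarith)
  set η := 2 / Real.log z with hη
  set P := primesUpTo z with hP
  have hprime : ∀ p ∈ P, p.Prime ∧ (p : ℝ) ≤ z := fun p hp => (mem_primesUpTo hzpos.le).mp hp
  have hp2 : ∀ p ∈ P, (2 : ℝ) ≤ p := fun p hp => by exact_mod_cast (hprime p hp).1.two_le
  set w : Finset ℕ → ℝ := fun T => ∏ p ∈ T, (1 : ℝ) / ((p : ℝ) - 1) with hw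
  set Y := z ^ u with hY
  have hYpos : 0 < Y := Real.rpow_pos_of_pos hzpos u
  -- the full sum
  have hfull : VV z * ∑ T ∈ P.powerset, w T = 1 := by
    rw [hw, ← Finset.prod_one_add, VV, ← hP, ← Finset.prod_mul_distrib]
    refine Finset.prod_eq_one fun p hp => ?_
    have h1 := hp2 p hp
    have h2 : (p : ℝ) - 1 ≠ 0 := by (clear * - h1; linarith)
    have h3 : (p : ℝ) ≠ 0 := by (clear * - h1; linarith)
    field_simp
    ring
  have hV : 0 ≤ VV z := by
    rw [VV]
    refine Finset.prod_nonneg fun p hp => ?_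
    have h1 := hp2 p hp
    rw [sub_nonneg, div_le_one (by (clear * - h1; linarith))]
    (clear * - h1; linarith)
  -- the tail
  have htail : ∑ T ∈ P.powerset.filter (fun T => ¬ ((∏ p ∈ T, p : ℕ) : ℝ) ≤ Y), w T ≤
      Y ^ (-η) * ∏ p ∈ P, (1 + (p : ℝ) ^ η / ((p : ℝ) - 1)) := by
    rw [Finset.prod_one_add, Finset.mul_sum]
    refine le_trans ?_ (Finset.sum_le_sum_of_subset_of_nonneg (Finset.filter_subset
      (fun T => ¬ ((∏ p ∈ T, p : ℕ) : ℝ) ≤ Y) _) ?_)
    · refine Finset.sum_le_sum fun T hT => ?_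
      rw [Finset.mem_filter, Finset.mem_powerset, not_le] at hT
      have h1 : ∏ p ∈ T, (p : ℝ) ^ η / ((p : ℝ) - 1) =
          (((∏ p ∈ T, p : ℕ) : ℝ)) ^ η * w T := by
        rw [hw]
        push_cast
        rw [← Real.finsetProd_rpow _ _ (fun p _ => by (clear * -; positivity)), ← Finset.prod_mul_distrib]
        refine Finset.prod_congr rfl fun p _ => ?_
        rw [mul_one_div]
      rw [h1, ← mul_assoc]
      have hwpos : 0 ≤ w T := by
        refine Finset.prod_nonneg fun p hp => ?_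
        have := hp2 p (hT.1 hp)
        apply div_nonneg zero_le_one
        (clear * - this; linarith)
      have h2 : 1 ≤ Y ^ (-η) * (((∏ p ∈ T, p : ℕ) : ℝ)) ^ η := by
        rw [Real.rpow_neg hYpos.le, inv_mul_eq_div, one_le_div (Real.rpow_pos_of_pos hYpos _)]
        exact Real.rpow_le_rpow hYpos.le hT.2.le (by positivity)
      calc w T = 1 * w T := (one_mul _).symm
        _ ≤ _ := mul_le_mul_of_nonneg_right h2 hwpos
    · intro T hT _
      refine mul_nonneg (Real.rpow_nonneg hYpos.le _) (Finset.prod_nonneg fun p hp => ?_)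
      have := hp2 p (Finset.mem_powerset.mp hT hp)
      apply div_nonneg (Real.rpow_nonneg (by (clear * - this; positivity)) _)
      (clear * - this; linarith)
  have hprod : VV z * ∏ p ∈ P, (1 + (p : ℝ) ^ η / ((p : ℝ) - 1)) ≤ Real.exp 4.2 := by
    rw [VV, ← hP, ← Finset.prod_mul_distrib]
    calc ∏ p ∈ P, ((1 - 1 / (p : ℝ)) * (1 + (p : ℝ) ^ η / ((p : ℝ) - 1))) ≤
        ∏ p ∈ P, Real.exp (((p : ℝ) ^ η - 1) / p) := by
          refine Finset.prod_le_prod (fun p hp => ?_) fun p hp => ?_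
          · have h1 := hp2 p hp
            refine mul_nonneg ?_ ?_
            · rw [sub_nonneg, div_le_one (by (clear * - h1; linarith))]
              (clear * - h1; linarith)
            · have : 0 ≤ (p : ℝ) ^ η / ((p : ℝ) - 1) :=
                div_nonneg (Real.rpow_nonneg (by (clear * - h1; positivity)) _) (by (clear * - h1; linarith))
              (clear * - this; linarith)
          · have h1 := hp2 p hp
            have h2 : (p : ℝ) - 1 ≠ 0 := by (clear * - h1; linarith)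
            have h3 : (p : ℝ) ≠ 0 := by (clear * - h1; linarith)
            have e : (1 - 1 / (p : ℝ)) * (1 + (p : ℝ) ^ η / ((p : ℝ) - 1)) =
                ((p : ℝ) ^ η - 1) / p + 1 := by
              field_simp
              ring
            rw [e]
            exact Real.add_one_le_exp _
      _ = Real.exp (∑ p ∈ P, ((p : ℝ) ^ η - 1) / p) := (Real.exp_sum _ _).symm
      _ ≤ Real.exp 4.2 := Real.exp_le_exp.mpr (h z hz)
  have hYη : Y ^ (-η) = Real.exp (-(2 * u)) := by
    rw [hY, ← Real.rpow_mul hzpos.le, Real.rpow_def_of_pos hzpos]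
    congr 1
    rw [hη]
    field_simp
  have hGG := GG_ge z Y hzpos.le
  have hsplit := Finset.sum_filter_add_sum_filter_not P.powerset
    (fun T => ((∏ p ∈ T, p : ℕ) : ℝ) ≤ Y) w
  have h5 : 1 ≤ VV z * GG z Y + Y ^ (-η) * Real.exp 4.2 := by
    calc (1 : ℝ) = VV z * ∑ T ∈ P.powerset, w T := hfull.symm
      _ = VV z * ∑ T ∈ P.powerset.filter (fun T => ((∏ p ∈ T, p : ℕ) : ℝ) ≤ Y), w T +
          VV z * ∑ T ∈ P.powerset.filter (fun T => ¬ ((∏ p ∈ T, p : ℕ) : ℝ) ≤ Y), w T := by
          rw [← mul_add, hsplit]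
      _ ≤ VV z * GG z Y + VV z * (Y ^ (-η) * ∏ p ∈ P, (1 + (p : ℝ) ^ η / ((p : ℝ) - 1))) :=
          add_le_add (mul_le_mul_of_nonneg_left hGG hV) (mul_le_mul_of_nonneg_left htail hV)
      _ = VV z * GG z Y + Y ^ (-η) * (VV z * ∏ p ∈ P, (1 + (p : ℝ) ^ η / ((p : ℝ) - 1))) := by
          ring
      _ ≤ VV z * GG z Y + Y ^ (-η) * Real.exp 4.2 := by
          (clear * - hprod hz2; gcongr)
  have h6 : Y ^ (-η) * Real.exp 4.2 = Real.exp (4.2 - 2 * u) := by
    rw [hYη, ← Real.exp_add]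
    congr 1
    ring
  rw [h6] at h5
  (clear * - h5; linarith)

end Pool.Agent.M20.Helper30.AV
end

/- Helper53.KN.Helper40.AV.TailUp16 -/
section
/-! Project AV part 2 (KS, MP_768c9c_nt), module LS2: `TailUp`. -/

set_option autoImplicit false

open Filter Topology

namespace Pool.Agent.M20.Helper40.AV.T16

open Pool.Agent.M20.Helper40.AV

theorem exp_tail : Real.exp (4.2 - 2 * 7.99) ≤ 0.0000078 := by
  have h1 : (130000 : ℝ) ≤ Real.exp 11.78 := by
    refine le_trans ?_ (Real.sum_le_exp_of_nonneg (by norm_num) 32)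
    norm_num [Finset.sum_range_succ, Nat.factorial]
  have h2 : (4.2 - 2 * 7.99 : ℝ) = -11.78 := by norm_num
  rw [h2, Real.exp_neg]
  calc (Real.exp 11.78)⁻¹ ≤ (130000 : ℝ)⁻¹ := inv_anti₀ (by norm_num) h1
    _ ≤ 0.0000078 := by norm_num

open Classical in
theorem tailUp : UpB 16 1.00001 := by
  intro ε hε
  obtain ⟨z₁, hz₁, hG⟩ := Pool.Agent.M20.Helper30.AV.gGrankin
  have hS := Pool.Agent.M20.Helper53AV.selbergP
  obtain ⟨c, C, hc, _, hM⟩ := Pool.Agent.M20.Helper44.mertens_prod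
  have hlog : ∀ᶠ z : ℝ in atTop, Real.log z ≤ (ε * c) * z ^ (0.02 : ℝ) := by
    have h1 := (isLittleO_log_rpow_atTop (show (0 : ℝ) < 0.02 by norm_num)).bound
      (show (0 : ℝ) < ε * c by positivity)
    filter_upwards [h1, eventually_ge_atTop (1 : ℝ)] with z hz hz1
    rw [Real.norm_of_nonneg (Real.log_nonneg hz1),
      Real.norm_of_nonneg (Real.rpow_nonneg (by (clear * - hz1; linarith)) _)] at hz
    exact hz
  obtain ⟨z₂, hz₂⟩ := eventually_atTop.1 hlog
  refine ⟨max (max z₁ z₂) 10000000, fun z hz y l hl => ?_⟩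
  have hza : z₁ ≤ z := le_trans (le_trans (le_max_left _ _) (le_max_left _ _)) hz
  have hzb : z₂ ≤ z := le_trans (le_trans (le_max_right _ _) (le_max_left _ _)) hz
  have hzc : (10000000 : ℝ) ≤ z := le_trans (le_max_right _ _) hz
  have hz0 : 0 < z := by linarith
  have hz1 : 1 ≤ z := by linarith
  have hL : 0 < Real.log z := Real.log_pos (by linarith)
  have hV := vv_pos z
  have hVc : c / Real.log z ≤ VV z := (hM z (by linarith)).1
  have hY1 : (1 : ℝ) ≤ z ^ (7.99 : ℝ) := Real.one_le_rpow hz1 (by norm_num)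
  have hsel := hS y l 1 z (z ^ (7.99 : ℝ)) le_rfl hY1
  have hRS : (RS y l z) = ((Finset.Ico y (y + l)).filter fun n => 1 ∣ n ∧
      ∀ r : ℕ, r.Prime → r ∣ n → z < r) := by
    unfold RS
    ext n
    simp
  rw [← hRS] at hsel
  have hGz := hG z 7.99 hza (by norm_num)
  have hGp : 0 < GG z (z ^ (7.99 : ℝ)) := lt_of_lt_of_le one_pos (one_le_gg z hY1)
  have hinv : 1 / GG z (z ^ (7.99 : ℝ)) ≤ 1.0000079 * VV z := by
    rw [div_le_iff₀ hGp]
    have h1 : (0.9999922 : ℝ) ≤ VV z * GG z (z ^ (7.99 : ℝ)) := by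
      have := exp_tail
      (clear * - hGz this; linarith)
    (clear * - h1; nlinarith)
  have hY2 : (z ^ (7.99 : ℝ)) ^ 2 ≤ l * z ^ (-0.02 : ℝ) := by
    rw [← Real.rpow_natCast, ← Real.rpow_mul hz0.le]
    calc z ^ (7.99 * ((2 : ℕ) : ℝ)) = z ^ (16 : ℝ) * z ^ (-0.02 : ℝ) := by
          rw [← Real.rpow_add hz0]
          norm_num
      _ ≤ l * z ^ (-0.02 : ℝ) := mul_le_mul_of_nonneg_right hl (Real.rpow_nonneg hz0.le _)
  have hlz : z ^ (-0.02 : ℝ) ≤ ε * VV z := by
    have h1 := hz₂ z hzb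
    have hp : 0 < z ^ (0.02 : ℝ) := Real.rpow_pos_of_pos hz0 _
    rw [Real.rpow_neg hz0.le]
    calc (z ^ (0.02 : ℝ))⁻¹ ≤ ε * (c / Real.log z) := by
          rw [inv_le_iff_one_le_mul₀ hp]
          have h2 : 1 ≤ ε * c * z ^ (0.02 : ℝ) / Real.log z := by
            rw [le_div_iff₀ hL, one_mul]
            exact h1
          calc (1 : ℝ) ≤ ε * c * z ^ (0.02 : ℝ) / Real.log z := h2
            _ = _ := by ring
      _ ≤ ε * VV z := mul_le_mul_of_nonneg_left hVc hε.le
  have hl12 : (10000000 : ℝ) ≤ l := by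
    calc (10000000 : ℝ) ≤ z := hzc
      _ = z ^ (1 : ℝ) := (Real.rpow_one z).symm
      _ ≤ z ^ (16 : ℝ) := Real.rpow_le_rpow_of_exponent_le hz1 (by norm_num)
      _ ≤ l := hl
  have hl0 : (0 : ℝ) ≤ l := by (clear * - hl12; linarith)
  have h5 : ((l : ℝ) / (1 : ℕ) + 1) / GG z (z ^ (7.99 : ℝ)) ≤ (l + 1) * (1.0000079 * VV z) := by
    rw [Nat.cast_one, div_one, div_eq_mul_one_div]
    exact mul_le_mul_of_nonneg_left hinv (by (clear * - hl12; linarith))
  have h6 : (l : ℝ) * z ^ (-0.02 : ℝ) ≤ l * (ε * VV z) := mul_le_mul_of_nonneg_left hlz hl0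
  have h7 : 1.0000079 * VV z ≤ 0.000001 * l * VV z := by
    apply mul_le_mul_of_nonneg_right _ hV.le
    (clear * - hl12; linarith)
  calc ((RS y l z).card : ℝ) ≤ (l + 1) * (1.0000079 * VV z) + l * (ε * VV z) := by
        refine hsel.trans (add_le_add h5 (hY2.trans h6))
    _ = l * (1.0000079 * VV z) + 1.0000079 * VV z + l * (ε * VV z) := by ring
    _ ≤ l * (1.0000079 * VV z) + 0.000001 * l * VV z + l * (ε * VV z) := by (clear * - h7; linarith)
    _ ≤ (1.00001 + ε) * l * VV z := by (clear * - hV h7 hl0; nlinarith [mul_nonneg hl0 hV.le])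

end Pool.Agent.M20.Helper40.AV.T16
end

/- Helper53.KN.Helper79.QRH.RoughFL -/
section
/-!
# QRH-B6: fundamental lemma for rough numbers in short intervals
-/

set_option autoImplicit false

open Finset Real

namespace Pool.Agent.M20.Helper79.QRH


/-- multiples of `d` in an interval -/
theorem card_dvd_Ico (d : ℕ) (hd : 0 < d) (y l : ℕ) :
    |(((Finset.Ico y (y + l)).filter (fun n => d ∣ n)).card : ℝ) - l / d| ≤ 1 := by
  have h1 := Nat.Ico_filter_modEq_card y (y + l) hd 0
  have h2 : (Finset.Ico y (y + l)).filter (fun n => n ≡ 0 [MOD d]) =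
      (Finset.Ico y (y + l)).filter (fun n => d ∣ n) := by
    ext n
    simp only [Finset.mem_filter, Nat.modEq_zero_iff_dvd]
  rw [h2] at h1
  have hd' : (0 : ℚ) < d := by exact_mod_cast hd
  obtain ⟨p, hp⟩ : ∃ p : ℚ, p = ((y + l : ℕ) - (0 : ℕ) : ℚ) / d := ⟨_, rfl⟩
  obtain ⟨q, hq⟩ : ∃ q : ℚ, q = ((y : ℕ) - (0 : ℕ) : ℚ) / d := ⟨_, rfl⟩
  rw [← hp, ← hq] at h1
  have hpq : p - q = l / d := by
    rw [hp, hq]
    push_cast
    ring
  have c1 := Int.le_ceil p
  have c2 := Int.ceil_lt_add_one p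
  have c3 := Int.le_ceil q
  have c4 := Int.ceil_lt_add_one q
  have hnn : (0 : ℚ) ≤ (l : ℚ) / d := by positivity
  have hQ : |((((Finset.Ico y (y + l)).filter (fun n => d ∣ n)).card : ℤ) : ℚ) - l / d| ≤ 1 := by
    rw [h1, abs_le]
    rcases le_total (⌈p⌉ - ⌈q⌉) 0 with h | h
    · rw [max_eq_right h]
      have h' : ((⌈p⌉ - ⌈q⌉ : ℤ) : ℚ) ≤ 0 := by exact_mod_cast h
      push_cast at h' ⊢
      constructor <;> linarith
    · rw [max_eq_left h]
      push_cast
      constructor <;> linarith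
  have hR : |((((Finset.Ico y (y + l)).filter (fun n => d ∣ n)).card : ℕ) : ℝ) - l / d| =
      ((|((((Finset.Ico y (y + l)).filter (fun n => d ∣ n)).card : ℤ) : ℚ) - l / d| : ℚ) : ℝ) := by
    push_cast
    rfl
  rw [hR]
  exact_mod_cast hQ

end Pool.Agent.M20.Helper79.QRH
end

/- Helper53.KN.Helper82.AV.RoughQ -/
section
/-!
# Project AV, module AV0: fundamental lemma with a quantitative level (helper82; the proofs follow
Helper79/QRH/FL.lean and RoughFL.lean)
-/

set_option autoImplicit false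
set_option linter.unusedSectionVars false

open Finset Real

namespace Pool.Agent.M20.Helper82.AV

open Pool.Agent.M20.Helper79.QRH
open Pool.Agent.M20.Helper44 Pool.Agent.M20.Helper96.CPAP

/-- The summability of `n * (x ^ n / n!)`. -/
theorem roughq_summable (x : ℝ) : Summable (fun n : ℕ => (n : ℝ) * (x ^ n / (n.factorial : ℝ))) := by
  rw [← summable_nat_add_iff 1]
  have h : (fun n : ℕ => ((n + 1 : ℕ) : ℝ) * (x ^ (n + 1) / ((n + 1).factorial : ℝ))) =
      fun n : ℕ => x * (x ^ n / (n.factorial : ℝ)) := by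
    funext n
    rw [Nat.factorial_succ]
    push_cast
    have h1 : (n : ℝ) + 1 ≠ 0 := by positivity
    have h2 : (n.factorial : ℝ) ≠ 0 := by positivity
    field_simp
    ring
  rw [h]
  exact (Real.summable_pow_div_factorial x).mul_left x

/-- The `k`-dimensional Brun-Hooley sieve with main term accuracy `1 ± δ` and level `K`, where
`δ K` is small. -/
theorem sieveFLQ (k : ℕ) (η : ℝ) (hη0 : 0 < η) (hη1 : η ≤ 1) :
    ∃ δ K : ℝ, 0 < δ ∧ δ ≤ 1 ∧ 1 ≤ K ∧ δ * K ≤ (4 * (k : ℝ) + 9) * η ∧ ∀ (α : Type) (P : ℕ → Prop),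
    (∀ q, P q → q.Prime ∧ 2 * k ≤ q) → ∀ ν : ℕ → ℝ, (∀ q, P q → 0 ≤ ν q ∧ ν q ≤ k) →
    ∀ w : ℝ, 2 ≤ w → ∀ (Ω : Finset α) (occ : ℕ → α → Prop) (X E : ℝ), 0 ≤ X → 0 ≤ E →
    (∀ I : Finset ℕ, (∀ q ∈ I, P q ∧ (q : ℝ) ≤ w) →
      |evCount Ω (fun ω => ∀ q ∈ I, occ q ω) - X * ∏ q ∈ I, (ν q / q)| ≤
        E * ((k : ℝ) + 1) ^ I.card) →
    evCount Ω (fun ω => ∀ q : ℕ, P q → (q : ℝ) ≤ w → ¬ occ q ω) ≤
        Real.exp δ * X * (∏ q ∈ pU P w, (1 - ν q / q)) + E * w ^ K ∧
    (1 - δ) * X * (∏ q ∈ pU P w, (1 - ν q / q)) - E * w ^ K ≤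
      evCount Ω (fun ω => ∀ q : ℕ, P q → (q : ℝ) ≤ w → ¬ occ q ω) := by
  obtain ⟨S0, hS0, hS⟩ := sum_inv_pb_le
  set S1 : ℝ := k * S0 with hS1
  have hS1n : 0 ≤ S1 := by (clear * - hS0; positivity)
  have hsum := roughq_summable S1
  obtain ⟨s0, hs0⟩ := summable_iff_vanishing_norm.mp hsum (Real.exp (-(2 * S1)) * η)
    (by positivity)
  set b := s0.sup id + 1 with hb
  have hb1 : (1 : ℝ) ≤ b := by
    have : 1 ≤ b := by omega
    exact_mod_cast this
  have hb2 : (0 : ℝ) < 2 * b + 1 := by (clear * - hb1; linarith)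
  set δ : ℝ := η / (2 * b + 1) with hδ
  have hδ0 : 0 < δ := by positivity
  have hδ1 : δ ≤ 1 := by
    rw [hδ, div_le_one hb2]
    (clear * - hη1 hb1; linarith)
  set K0 : ℝ := ((k : ℝ) + 2) * (4 * b + 6) with hK0
  have hK0' : 0 ≤ K0 := by positivity
  have hk0 : (0 : ℝ) ≤ k := Nat.cast_nonneg k
  refine ⟨δ, K0 + 2, hδ0, hδ1, by linarith, ?_, ?_⟩
  · rw [hδ, div_mul_eq_mul_div, div_le_iff₀ hb2]
    have h1 : K0 + 2 ≤ (4 * (k : ℝ) + 9) * (2 * b + 1) := by
      rw [hK0]
      (clear * - hb1 hk0; nlinarith [mul_nonneg hk0 (sub_nonneg.2 hb1)])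
    calc η * (K0 + 2) ≤ η * ((4 * (k : ℝ) + 9) * (2 * b + 1)) :=
          mul_le_mul_of_nonneg_left h1 hη0.le
      _ = (4 * (k : ℝ) + 9) * η * (2 * b + 1) := by ring
  intro α P hP ν hν w hw Ω occ X E hX hE hcnt
  have hP' : ∀ q, P q → q.Prime := fun q h => (hP q h).1
  have hw1 : (1 : ℝ) ≤ w := by (clear * - hw; linarith)
  have hw0 : (0 : ℝ) < w := by linarith
  have hdisj : ∀ i j : Fin (nb w), i ≠ j → Disjoint (pb P w i) (pb P w j) := by
    intro i j hij
    exact pb_disjoint hw1 (fun h => hij (Fin.ext h))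
  have hx : ∀ j : ℕ, ∀ i ∈ pb P w j, 0 ≤ ν i / i ∧ ν i / i ≤ 1 / 2 := by
    intro j i hi
    rw [mem_pb] at hi
    have h1 := hP i hi.2
    have h2 := hν i hi.2
    have hq0 : (0 : ℝ) < i := by exact_mod_cast h1.1.pos
    have h3 : (2 : ℝ) * k ≤ i := by exact_mod_cast h1.2
    refine ⟨div_nonneg h2.1 hq0.le, ?_⟩
    rw [div_le_iff₀ hq0]
    (clear * - h2 h3; linarith)
  have hcnt' : ∀ I : Finset ℕ,
      I ⊆ Finset.univ.biUnion (fun j : Fin (nb w) => pb P w j) →
      |evCount Ω (fun ω => ∀ i ∈ I, occ i ω) - X * ∏ i ∈ I, (ν i / i)| ≤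
        E * ((k : ℝ) + 1) ^ I.card := by
    intro I hI
    apply hcnt
    intro q hq
    have := hI hq
    rwa [biUnion_pb hP' hw, mem_pU hP' hw0.le] at this
  have hsumx : ∀ j : ℕ, ∑ i ∈ pb P w j, ν i / i ≤ S1 := by
    intro j
    calc ∑ i ∈ pb P w j, ν i / i ≤ ∑ i ∈ pb P w j, k * ((1 : ℝ) / i) := by
          apply Finset.sum_le_sum
          intro i hi
          rw [mem_pb] at hi
          have hq0 : (0 : ℝ) < i := by exact_mod_cast (hP' i hi.2).pos
          rw [mul_one_div]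
          exact div_le_div_of_nonneg_right (hν i hi.2).2 hq0.le
      _ = k * ∑ i ∈ pb P w j, (1 : ℝ) / i := by rw [Finset.mul_sum]
      _ ≤ k * S0 := mul_le_mul_of_nonneg_left (hS P hP' w hw j) (by positivity)
  have hVlow : ∀ j : Fin (nb w), Real.exp (-(2 * S1)) ≤ ∏ i ∈ pb P w j, (1 - ν i / i) := by
    intro j
    calc Real.exp (-(2 * S1)) ≤ Real.exp (-∑ i ∈ pb P w j, 2 * (ν i / i)) := by
          apply Real.exp_le_exp.mpr
          rw [← Finset.mul_sum]
          have := hsumx j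
          (clear * - this; linarith)
      _ = ∏ i ∈ pb P w j, Real.exp (-(2 * (ν i / i))) := by
          rw [← Finset.sum_neg_distrib, Real.exp_sum]
      _ ≤ _ := by
          apply Finset.prod_le_prod
          · intro i _; exact (Real.exp_pos _).le
          · intro i hi
            have := hx j i hi
            exact one_sub_ge_exp this.1 this.2
  have hr : ∑ j : Fin (nb w), es (pb P w j) (2 * (b + (j : ℕ)) + 1) (fun q => ν q / q) /
      ∏ i ∈ pb P w j, (1 - ν i / i) ≤ δ := by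
    have hterm : ∀ j : Fin (nb w), es (pb P w j) (2 * (b + (j : ℕ)) + 1) (fun q => ν q / q) /
        ∏ i ∈ pb P w j, (1 - ν i / i) ≤
        (S1 ^ (2 * (b + (j : ℕ)) + 1) / ((2 * (b + (j : ℕ)) + 1).factorial : ℝ)) *
          Real.exp (2 * S1) := by
      intro j
      have h1 : es (pb P w j) (2 * (b + (j : ℕ)) + 1) (fun q => ν q / q) ≤
          S1 ^ (2 * (b + (j : ℕ)) + 1) / ((2 * (b + (j : ℕ)) + 1).factorial : ℝ) := by
        refine (es_le_pow_div_factorial _ _ (fun i hi => (hx j i hi).1) _).trans ?_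
        apply div_le_div_of_nonneg_right _ (by positivity)
        apply pow_le_pow_left₀ (Finset.sum_nonneg fun i hi => (hx j i hi).1) (hsumx j)
      have h2 := hVlow j
      have h3 : 0 < Real.exp (-(2 * S1)) := Real.exp_pos _
      rw [div_le_iff₀ (h3.trans_le h2)]
      calc es (pb P w j) (2 * (b + (j : ℕ)) + 1) (fun q => ν q / q)
          ≤ S1 ^ (2 * (b + (j : ℕ)) + 1) / ((2 * (b + (j : ℕ)) + 1).factorial : ℝ) * 1 := by
            rw [mul_one]; exact h1
        _ = S1 ^ (2 * (b + (j : ℕ)) + 1) / ((2 * (b + (j : ℕ)) + 1).factorial : ℝ) *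
              (Real.exp (2 * S1) * Real.exp (-(2 * S1))) := by
            rw [← Real.exp_add]; simp
        _ ≤ S1 ^ (2 * (b + (j : ℕ)) + 1) / ((2 * (b + (j : ℕ)) + 1).factorial : ℝ) *
              (Real.exp (2 * S1) * ∏ i ∈ pb P w j, (1 - ν i / i)) := by
            (clear * - h2 hS0; gcongr)
        _ = _ := by ring
    calc ∑ j : Fin (nb w), es (pb P w j) (2 * (b + (j : ℕ)) + 1) (fun q => ν q / q) /
          ∏ i ∈ pb P w j, (1 - ν i / i)
        ≤ ∑ j : Fin (nb w), (S1 ^ (2 * (b + (j : ℕ)) + 1) /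
            ((2 * (b + (j : ℕ)) + 1).factorial : ℝ)) * Real.exp (2 * S1) :=
          Finset.sum_le_sum fun j _ => hterm j
      _ = (∑ n ∈ (Finset.univ : Finset (Fin (nb w))).image
            (fun j : Fin (nb w) => 2 * (b + (j : ℕ)) + 1),
            S1 ^ n / (n.factorial : ℝ)) * Real.exp (2 * S1) := by
          rw [← Finset.sum_mul, Finset.sum_image]
          intro i _ j _ hij
          apply Fin.ext
          simp only at hij
          omega
      _ ≤ (Real.exp (-(2 * S1)) * δ) * Real.exp (2 * S1) := by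
          apply mul_le_mul_of_nonneg_right _ (Real.exp_pos _).le
          have h4 := hs0 ((Finset.univ : Finset (Fin (nb w))).image
            (fun j : Fin (nb w) => 2 * (b + (j : ℕ)) + 1)) ?_
          · rw [Real.norm_eq_abs] at h4
            have h5 := (le_abs_self _).trans h4.le
            rw [hδ, mul_div_assoc', le_div_iff₀ hb2, mul_comm, Finset.mul_sum]
            refine le_trans (Finset.sum_le_sum fun n hn => ?_) h5
            rw [Finset.mem_image] at hn
            obtain ⟨j, _, rfl⟩ := hn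
            apply mul_le_mul_of_nonneg_right _ (by (clear * - hS0; positivity))
            push_cast
            (clear * - α; linarith [Nat.cast_nonneg (α := ℝ) (j : ℕ)])
          · rw [Finset.disjoint_left]
            intro n hn hn'
            rw [Finset.mem_image] at hn
            obtain ⟨j, _, rfl⟩ := hn
            have : id (2 * (b + (j : ℕ)) + 1) ≤ s0.sup id := Finset.le_sup (f := id) hn'
            simp only [id] at this
            omega
      _ = δ := by
          rw [mul_comm (Real.exp (-(2 * S1))) δ, mul_assoc, ← Real.exp_add]; simp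
  have hmain := brun_hooleyD Ω occ (fun j : Fin (nb w) => pb P w j) hdisj (fun q => ν q / q)
    (fun j i hi => hx j i hi) X E ((k : ℝ) + 1) δ hX hE
    (by (clear * - α; linarith [Nat.cast_nonneg (α := ℝ) k])) hδ1
    hcnt' (fun j => 2 * (b + (j : ℕ)))
    (fun j => even_two_mul _) hr
  -- identify the event
  have hevent : (fun ω : α => ∀ j : Fin (nb w), ∀ i ∈ pb P w j, ¬ occ i ω) =
      (fun ω => ∀ q : ℕ, P q → (q : ℝ) ≤ w → ¬ occ q ω) := by
    funext ω
    apply propext
    constructor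
    · intro h q hq hqw
      have : q ∈ (Finset.univ : Finset (Fin (nb w))).biUnion (fun j => pb P w j) := by
        rw [biUnion_pb hP' hw, mem_pU hP' hw0.le]
        exact ⟨hq, hqw⟩
      rw [Finset.mem_biUnion] at this
      obtain ⟨j, _, hj⟩ := this
      exact h j q hj
    · intro h j i hi
      have hi' : i ∈ (Finset.univ : Finset (Fin (nb w))).biUnion (fun j => pb P w j) :=
        Finset.mem_biUnion.mpr ⟨j, Finset.mem_univ _, hi⟩
      rw [biUnion_pb hP' hw, mem_pU hP' hw0.le] at hi'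
      exact h i hi'.1 hi'.2
  rw [hevent] at hmain
  -- the product
  have hprodV : ∏ j : Fin (nb w), ∏ i ∈ pb P w j, (1 - ν i / i) =
      ∏ q ∈ pU P w, (1 - ν q / q) := by
    rw [← Finset.prod_biUnion, biUnion_pb hP' hw]
    intro i _ j _ hij
    exact hdisj i j hij
  rw [hprodV] at hmain
  have hprod := prod_pb_card_le hP' k hw b
  have hprod0 : 0 ≤ ∏ j : Fin (nb w),
      (((k : ℝ) + 1) * ((pb P w j).card : ℝ) + 1) ^ (2 * (b + (j : ℕ)) + 1) :=
    Finset.prod_nonneg fun j _ => by (clear * -; positivity)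
  have hwK : w ^ (K0 + 2) = w ^ K0 * w ^ 2 := by
    rw [Real.rpow_add hw0]
    norm_num
  have hwK0 : 0 < w ^ K0 := Real.rpow_pos_of_pos hw0 _
  have hnb : (nb w : ℝ) + 1 ≤ w ^ 2 := by
    unfold nb
    push_cast
    have := Nat.floor_le hw0.le
    (clear * - hw this; nlinarith)
  constructor
  · refine hmain.1.trans ?_
    have h2 : E * ∏ j : Fin (nb w),
        (((k : ℝ) + 1) * ((pb P w j).card : ℝ) + 1) ^ (2 * (b + (j : ℕ)) + 1) ≤
        E * w ^ (K0 + 2) := by
      apply mul_le_mul_of_nonneg_left _ hE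
      refine hprod.trans ?_
      rw [hwK]
      have : (1 : ℝ) ≤ w ^ 2 := one_le_pow₀ hw1
      (clear * - hprod hprod0 hnb; nlinarith)
    (clear * - h2; linarith)
  · refine le_trans ?_ hmain.2
    have h2 : E * (((nb w : ℕ) + 1) *
        ∏ j : Fin (nb w), (((k : ℝ) + 1) * ((pb P w j).card : ℝ) + 1) ^ (2 * (b + (j : ℕ)) + 1)) ≤
        E * w ^ (K0 + 2) := by
      apply mul_le_mul_of_nonneg_left _ hE
      rw [hwK, mul_comm (w ^ K0)]
      exact mul_le_mul hnb hprod hprod0 (by positivity)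
    (clear * - h2; linarith)

/-- AV0. -/
theorem roughQ : Pool.Agent.M20.Helper40.AV.RoughQ := by
  classical
  intro η0 hη0
  obtain ⟨η, hη⟩ : ∃ η, η = min (η0 / 60) 1 := ⟨_, rfl⟩
  have hηpos : 0 < η := by rw [hη]; exact lt_min (by positivity) one_pos
  have hη1 : η ≤ 1 := by rw [hη]; exact min_le_right _ _
  have hηe : η ≤ η0 / 60 := by rw [hη]; exact min_le_left _ _
  obtain ⟨δ, K, hδ0, hδ1, hK, hδK, hFL⟩ := sieveFLQ 1 η hηpos hη1
  obtain ⟨c, C, hc, hC, hM⟩ := mertens_prod
  -- the threshold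
  have hlim : ∀ᶠ z : ℝ in Filter.atTop, Real.log z / z ≤ δ * c := by
    have h1 : Filter.Tendsto (fun z : ℝ => Real.log z / z) Filter.atTop (nhds 0) :=
      Real.isLittleO_log_id_atTop.tendsto_div_nhds_zero
    have h2 : (0 : ℝ) < δ * c := by positivity
    filter_upwards [(tendsto_order.1 h1).2 _ h2] with z hz using hz.le
  obtain ⟨z1, hz1⟩ := Filter.eventually_atTop.1 hlim
  refine ⟨2 * δ, K + 1, max z1 2, by (clear * - hδ0; linarith), by (clear * - hK; linarith), ?_, ?_⟩
  · push_cast at hδK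
    (clear * - hηe hδK hηpos hδ1 hδ0 hK; nlinarith)
  intro z hz y l hl
  have hz2 : 2 ≤ z := (le_max_right _ _).trans hz
  have hz0 : 0 < z := by linarith
  have hlog := hz1 z ((le_max_left _ _).trans hz)
  have hlz : 0 < Real.log z := Real.log_pos (by linarith)
  have hl0 : (0 : ℝ) ≤ l := Nat.cast_nonneg l
  obtain ⟨V, hV⟩ : ∃ V, V = ∏ r ∈ primesUpTo z, (1 - (1 : ℝ) / r) := ⟨_, rfl⟩
  have hVc : c / Real.log z ≤ V := by rw [hV]; exact (hM z hz2).1
  have hV0 : 0 < V := lt_of_lt_of_le (by positivity) hVc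
  have hpU : pU Nat.Prime z = primesUpTo z := by
    ext q
    rw [mem_pU (fun _ h => h) hz0.le, mem_primesUpTo hz0.le]
  have hcnt : ∀ I : Finset ℕ, (∀ q ∈ I, q.Prime ∧ (q : ℝ) ≤ z) →
      |evCount (Finset.Ico y (y + l)) (fun n => ∀ q ∈ I, q ∣ n) -
        (l : ℝ) * ∏ q ∈ I, ((1 : ℝ) / q)| ≤ 1 * (((1 : ℕ) : ℝ) + 1) ^ I.card := by
    intro I hI
    have hdvd : ∀ n : ℕ, (∀ q ∈ I, q ∣ n) ↔ (∏ q ∈ I, q) ∣ n := by
      intro n
      constructor
      · intro h
        exact Finset.prod_primes_dvd n (fun q hq => (hI q hq).1.prime) h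
      · intro h q hq
        exact (Finset.dvd_prod_of_mem _ hq).trans h
    have hpos : 0 < ∏ q ∈ I, q := Finset.prod_pos fun q hq => (hI q hq).1.pos
    have h1 := card_dvd_Ico (∏ q ∈ I, q) hpos y l
    have h2 : evCount (Finset.Ico y (y + l)) (fun n => ∀ q ∈ I, q ∣ n) =
        (((Finset.Ico y (y + l)).filter (fun n => (∏ q ∈ I, q) ∣ n)).card : ℝ) := by
      rw [evCount_eq]
      congr 2
      ext n
      simp only [Finset.mem_filter, hdvd]
    have h3 : (l : ℝ) * ∏ q ∈ I, ((1 : ℝ) / q) = l / ((∏ q ∈ I, q : ℕ) : ℝ) := by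
      push_cast
      rw [Finset.prod_div_distrib, Finset.prod_const_one, mul_one_div]
    rw [h2, h3]
    refine h1.trans ?_
    rw [one_mul]
    apply one_le_pow₀
    push_cast
    norm_num
  obtain ⟨_, hlow⟩ := hFL ℕ Nat.Prime (fun q hq => ⟨hq, by have := hq.two_le; omega⟩)
    (fun _ => 1) (fun q _ => ⟨zero_le_one, by push_cast; exact le_rfl⟩) z hz2
    (Finset.Ico y (y + l)) (fun q n => q ∣ n) l 1 hl0 zero_le_one hcnt
  rw [hpU, ← hV] at hlow
  have hev : evCount (Finset.Ico y (y + l))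
      (fun n => ∀ q : ℕ, q.Prime → (q : ℝ) ≤ z → ¬ q ∣ n) =
      (((Finset.Ico y (y + l)).filter (fun n => ∀ r : ℕ, r.Prime → r ∣ n → z < r)).card : ℝ) := by
    rw [evCount_eq]
    congr 2
    ext n
    simp only [Finset.mem_filter]
    constructor
    · rintro ⟨h1, h2⟩
      exact ⟨h1, fun r hr hrn => not_le.1 fun h => h2 r hr h hrn⟩
    · rintro ⟨h1, h2⟩
      exact ⟨h1, fun r hr h hrn => absurd (h2 r hr hrn) (not_lt.2 h)⟩
  rw [hev] at hlow
  have hVV : Pool.Agent.M20.Helper40.AV.VV z = V := by rw [hV]; rfl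
  rw [hVV]
  -- the error term
  have herr : 1 * z ^ K ≤ δ * l * V := by
    rw [one_mul]
    have h1 : z ^ (K + 1) = z ^ K * z := by rw [Real.rpow_add hz0, Real.rpow_one]
    rw [h1] at hl
    have h2 : z ^ K ≤ l / z := by
      rw [le_div_iff₀ hz0]
      exact hl
    refine h2.trans ?_
    have h3 : (l : ℝ) / z ≤ δ * l * (c / Real.log z) := by
      have h4 : (l : ℝ) / z = l * (Real.log z / z) / Real.log z := by
        (clear * - hlz hz2; field_simp)
      rw [h4, mul_div_assoc' (δ * (l : ℝ)) c]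
      apply div_le_div_of_nonneg_right _ hlz.le
      calc (l : ℝ) * (Real.log z / z) ≤ l * (δ * c) := mul_le_mul_of_nonneg_left hlog hl0
        _ = δ * l * c := by ring
    exact h3.trans (mul_le_mul_of_nonneg_left hVc (by (clear * - hδ0; positivity)))
  have hlow' : (1 - δ) * l * V - 1 * z ^ K ≤
      ((Pool.Agent.M20.Helper40.AV.RS y l z).card : ℝ) := hlow
  (clear * - herr hlow'; linarith)

end Pool.Agent.M20.Helper82.AV
end
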