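import Mathlib
import Pool.Agent.Helper53.KO.G01
import Pool.Agent.Helper53.KO.G04
import Pool.Agent.Helper53.KO.G07
import Pool.Agent.Helper53.KO.G08
import Pool.Agent.Helper53.KO.G13
import Pool.Agent.Helper53.KO.G15

set_option linter.all false

/- Helper53.KN.Helper15.KS.H3c -/
section
/-!
# Project KS (MP_768c9c_nt): Prop `H3`, the bound for one cofactor
-/

set_option autoImplicit false
open scoped Classical

namespace Pool.Agent.M20.Helper15.KS.H3

open Pool.Agent.M20.Helper16.KS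

variable (S : Sys)

theorem G_step {k k' l h : ℕ} (hk0 : 0 < k') (hl : 32 ≤ l)
    (hh : (h : ℝ) ≤ 2 * ((2 : ℝ) ^ ec S.d k / l)) (hk : k ≤ 2 * k') (hk1 : 0 < k)
    (hs : (2 : ℝ) ^ ((S.s - 1) * k') ≤ 2 * ((2 : ℝ) ^ ((S.s - 1) * k) * (l : ℝ) ^ (1 - S.s))) :
    S.G k' * ((h : ℝ) / 2 ^ ec S.d k') ≤ 64 * (S.G k * (l : ℝ) ^ (-S.s)) := by
  have hl0 : (0 : ℝ) < l := by exact_mod_cast (by omega : 0 < l)
  have hk0R : (0 : ℝ) < k' := by exact_mod_cast hk0
  have hk1R : (0 : ℝ) < k := by exact_mod_cast hk1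
  have h4 : 1 / (k' : ℝ) ^ 4 ≤ 16 / (k : ℝ) ^ 4 := by
    rw [div_le_div_iff₀ (by positivity) (by positivity)]
    have h5 : (k : ℝ) ≤ 2 * k' := by exact_mod_cast hk
    calc 1 * (k : ℝ) ^ 4 = (k : ℝ) ^ 4 := one_mul _
      _ ≤ (2 * (k' : ℝ)) ^ 4 := pow_le_pow_left₀ hk1R.le h5 4
      _ = 16 * (k' : ℝ) ^ 4 := by ring
  have e1 : S.G k' * ((h : ℝ) / 2 ^ ec S.d k') =
      h * (2 : ℝ) ^ ((S.s - 1) * k') * (1 / (k' : ℝ) ^ 4) := by
    unfold Sys.G
    field_simp
  have e2 : (l : ℝ) ^ (1 - S.s) = l * (l : ℝ) ^ (-S.s) := by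
    rw [show 1 - S.s = 1 + -S.s by ring, Real.rpow_add hl0, Real.rpow_one]
  rw [e1]
  calc (h : ℝ) * (2 : ℝ) ^ ((S.s - 1) * k') * (1 / (k' : ℝ) ^ 4)
      ≤ (2 * ((2 : ℝ) ^ ec S.d k / l)) *
          (2 * ((2 : ℝ) ^ ((S.s - 1) * k) * (l : ℝ) ^ (1 - S.s))) * (16 / (k : ℝ) ^ 4) := by
        apply mul_le_mul (mul_le_mul hh hs (by positivity) (by (clear * - hl; positivity))) h4 (by positivity)
          (by positivity)
    _ = 64 * (S.G k * (l : ℝ) ^ (-S.s)) := by
        rw [e2]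
        unfold Sys.G
        field_simp
        ring

/-- two cells at most meet a short window -/
theorem cells_two {L w0 h j' y M : ℕ} (hh : h ≤ L) (h1 : M + j' * L ≤ y)
    (h2 : y < M + (j' + 1) * L) (h3 : w0 ≤ y) (h4 : y < w0 + h) :
    j' = (w0 - M) / L ∨ j' = (w0 - M) / L + 1 := by
  have hL : 0 < L := by
    rcases Nat.eq_zero_or_pos L with h | h
    · subst h; omega
    · exact h
  have h5 : (w0 - M) / L ≤ j' := by
    have h6 : (w0 - M) / L < j' + 1 := by
      rw [Nat.div_lt_iff_lt_mul hL]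
      omega
    omega
  have h7 : j' < (w0 - M) / L + 2 := by
    by_contra hcon
    rw [not_lt] at hcon
    have h8 : ((w0 - M) / L + 2) * L ≤ j' * L := Nat.mul_le_mul_right _ hcon
    have h9 := Nat.lt_div_mul_add hL (a := w0 - M)
    rw [add_mul] at h8
    omega
  omega

theorem cell_part {k0 : ℕ} {R : Set ℕ} (hR : S.Good k0 R) {k' j' : ℕ} (hk' : k0 ≤ k')
    (hj' : j' ∈ S.badc k') {l w0 h k : ℕ} (hl : 32 ≤ l) (hk1 : 0 < k) (hk0 : 0 < k')
    (hhL : h ≤ 2 ^ ec S.d k')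
    (hh38 : (2 : ℝ) ^ (0.38 * (k' : ℝ)) ≤ h)
    (hh498 : (2 : ℝ) ^ (0.498 * (k' : ℝ)) ≤ h ∨ (k' : ℝ) ≤ 500 * Real.log l)
    (hh : (h : ℝ) ≤ 2 * ((2 : ℝ) ^ ec S.d k / l)) (hk : k ≤ 2 * k')
    (hs : (2 : ℝ) ^ ((S.s - 1) * k') ≤ 2 * ((2 : ℝ) ^ ((S.s - 1) * k) * (l : ℝ) ^ (1 - S.s))) :
    4 * S.G k' / S.NN R k' j' *
      ∑ y ∈ (S.act R k' j').filter (fun y => w0 ≤ y.1 * y.2 ∧ y.1 * y.2 < w0 + h), 1 / S.pr y.2 ≤
    512000 * S.C1 * (S.G k * ((l : ℝ) ^ (-S.s) * (1 + Real.log l))) := by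
  have hC1 : 0 < S.C1 := by (clear * -; linarith [S.C1_ge])
  have hlog : 0 ≤ Real.log (l : ℝ) := Real.log_natCast_nonneg l
  have hG := S.G_nonneg k'
  have hGk := S.G_nonneg k
  have hcard : (0 : ℝ) ≤ ((S.Cand k' j').card : ℝ) := Nat.cast_nonneg _
  have hl0 : (0 : ℝ) < l := by exact_mod_cast (by omega : 0 < l)
  exact by
    have hhr : 0 ≤ (h : ℝ) / 2 ^ ec S.d k' := by (clear * -; positivity)
    -- the window
    have hwin : ∑ y ∈ (S.act R k' j').filter (fun y => w0 ≤ y.1 * y.2 ∧ y.1 * y.2 < w0 + h),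
        1 / S.pr y.2 ≤
        2 * (S.C1 * (500 * (1 + Real.log l)) * (h / 2 ^ ec S.d k') * (S.Cand k' j').card) := by
      by_cases hc : (2 : ℝ) ^ (0.498 * (k' : ℝ)) ≤ h
      · refine (hR.win1 k' hk' j' hj' w0 h hc hhL).trans ?_
        have h1 : S.C1 * 1 ≤ S.C1 * (500 * (1 + Real.log l)) :=
          mul_le_mul_of_nonneg_left (by (clear * - hlog; linarith)) hC1.le
        rw [mul_one] at h1
        have h2 := mul_le_mul_of_nonneg_right (mul_le_mul_of_nonneg_right h1 hhr) hcard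
        (clear * - h2; linarith)
      · have hk500 : (k' : ℝ) ≤ 500 * Real.log l := by
          rcases hh498 with h1 | h1
          · exact absurd h1 hc
          · exact h1
        refine (hR.win2 k' hk' j' hj' w0 h hh38 hhL).trans ?_
        have h1 : S.C1 * k' ≤ S.C1 * (500 * (1 + Real.log l)) :=
          mul_le_mul_of_nonneg_left (by (clear * - hk500; linarith)) hC1.le
        have h2 := mul_le_mul_of_nonneg_right (mul_le_mul_of_nonneg_right h1 hhr) hcard
        (clear * - h2; linarith)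
    have hlow := hR.lower k' hk' j' hj'
    have hstep := G_step S hk0 hl hh hk hk1 hs
    have hRHS : 0 ≤ 512000 * S.C1 * (S.G k * ((l : ℝ) ^ (-S.s) * (1 + Real.log l))) := by (clear * - hC1 hGk hl; positivity)
    rcases eq_or_lt_of_le (S.NN_nonneg R k' j') with hN | hN
    · rw [← hN, div_zero, zero_mul]
      exact hRHS
    · rw [div_mul_eq_mul_div, div_le_iff₀ hN]
      exact by
        have h1 : ((S.Cand k' j').card : ℝ) ≤ 2 * S.NN R k' j' := by (clear * - hlow; linarith)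
        have h2 : S.C1 * (500 * (1 + Real.log l)) * (h / 2 ^ ec S.d k') * (S.Cand k' j').card ≤
            S.C1 * (500 * (1 + Real.log l)) * (h / 2 ^ ec S.d k') * (2 * S.NN R k' j') :=
          mul_le_mul_of_nonneg_left h1 (by (clear * - hC1; positivity))
        calc 4 * S.G k' * ∑ y ∈ (S.act R k' j').filter
              (fun y => w0 ≤ y.1 * y.2 ∧ y.1 * y.2 < w0 + h), 1 / S.pr y.2
            ≤ 4 * S.G k' * (2 * (S.C1 * (500 * (1 + Real.log l)) * (h / 2 ^ ec S.d k') *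
                (2 * S.NN R k' j'))) := by
              apply mul_le_mul_of_nonneg_left _ (by (clear * - hG; positivity))
              (clear * - hwin h2; linarith)
          _ = 8000 * S.C1 * (1 + Real.log l) * S.NN R k' j' *
                (S.G k' * ((h : ℝ) / 2 ^ ec S.d k')) := by ring
          _ ≤ 8000 * S.C1 * (1 + Real.log l) * S.NN R k' j' *
                (64 * (S.G k * (l : ℝ) ^ (-S.s))) := by
              apply mul_le_mul_of_nonneg_left hstep (by positivity)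
          _ = _ := by ring

theorem inner_le {k0 : ℕ} {R : Set ℕ} (hR : S.Good k0 R) (hk0 : 6010 ≤ k0) (hK : S.K ≤ k0)
    {k j k' l : ℕ} (hj : j < nc S.d k) (hk' : k0 ≤ k') (hl : 32 ≤ l) :
    ∑ j' ∈ S.badc k', ∑ x ∈ S.act R k' j',
      (if (x.1 * x.2 * l ∈ cell S.d k j ∧
          (l : ℝ) < (2 : ℝ) ^ ((S.u (S.cls k' j') + S.c) * k'))
        then 4 * S.G k' / S.NN R k' j' * (1 / S.pr x.2) else 0) ≤
    (if (k' + Nat.log 2 l = k ∨ k' + Nat.log 2 l + 1 = k) then
      1024000 * S.C1 * (S.G k * ((l : ℝ) ^ (-S.s) * (1 + Real.log l))) else 0) := by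
  have hl0 : 0 < l := by omega
  by_cases hit : k' + Nat.log 2 l = k ∨ k' + Nat.log 2 l + 1 = k
  · rw [if_pos hit]
    have hC1 : 0 < S.C1 := by (clear * -; linarith [S.C1_ge])
    have hlog : 0 ≤ Real.log (l : ℝ) := Real.log_natCast_nonneg l
    have hGk := S.G_nonneg k
    have hl0R : (0 : ℝ) < l := by exact_mod_cast hl0
    exact by
      set B : ℝ := 512000 * S.C1 * (S.G k * ((l : ℝ) ^ (-S.s) * (1 + Real.log l))) with hB
      have hB0 : 0 ≤ B := by (clear * - hC1 hGk hl; positivity)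
      set a : ℕ := 2 ^ k + j * 2 ^ ec S.d k with ha
      set b : ℕ := 2 ^ k + (j + 1) * 2 ^ ec S.d k with hb
      set w0 : ℕ := wl l a with hw0
      set h : ℕ := wl l b - w0 with hh
      exact by
        have hab : a ≤ b := by
          rw [ha, hb]
          have : j * 2 ^ ec S.d k ≤ (j + 1) * 2 ^ ec S.d k := Nat.mul_le_mul_right _ (by omega)
          omega
        have hw01 : w0 ≤ wl l b := wl_mono hab
        have hwh : w0 + h = wl l b := by omega
        have hmem : ∀ y : ℕ, y * l ∈ cell S.d k j ↔ w0 ≤ y ∧ y < w0 + h := by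
          intro y
          rw [mem_cell, hwh, hw0, wl_le_iff hl0, lt_wl_iff hl0]
        have hcast : (b : ℝ) - a = 2 ^ ec S.d k := by
          rw [ha, hb]
          push_cast
          ring
        have hhr : (h : ℝ) = (wl l b : ℝ) - w0 := by
          rw [hh, Nat.cast_sub hw01]
        exact by
          have hh1 : (h : ℝ) < (2 : ℝ) ^ ec S.d k / l + 1 := by
            have h1 := wl_ge (l := l) (a := a) hl0
            have h2 := wl_lt (l := l) (a := b) hl0
            have h3 : (b : ℝ) / l - a / l = (2 : ℝ) ^ ec S.d k / l := by rw [← sub_div, hcast]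
            rw [hhr]
            (clear * - h1 h2 h3; linarith)
          have hh2 : (2 : ℝ) ^ ec S.d k / l - 1 < (h : ℝ) := by
            have h1 := wl_lt (l := l) (a := a) hl0
            have h2 := wl_ge (l := l) (a := b) hl0
            have h3 : (b : ℝ) / l - a / l = (2 : ℝ) ^ ec S.d k / l := by rw [← sub_div, hcast]
            rw [hhr]
            (clear * - h1 h2 h3; linarith)
          set i0 : ℕ := (w0 - 2 ^ k') / 2 ^ ec S.d k' with hi0
          have hterm : ∀ j' ∈ S.badc k', ∑ x ∈ S.act R k' j',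
              (if (x.1 * x.2 * l ∈ cell S.d k j ∧
                  (l : ℝ) < (2 : ℝ) ^ ((S.u (S.cls k' j') + S.c) * k'))
                then 4 * S.G k' / S.NN R k' j' * (1 / S.pr x.2) else 0) ≤
              if (j' = i0 ∨ j' = i0 + 1) then B else 0 := by
            intro j' hj'
            by_cases hbd : (l : ℝ) < (2 : ℝ) ^ ((S.u (S.cls k' j') + S.c) * k')
            · have hlt : (l : ℝ) < (2 : ℝ) ^ (0.226 * (k' : ℝ)) := by
                refine hbd.trans_le (Real.rpow_le_rpow_of_exponent_le (by norm_num) ?_)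
                have h1 := S.u_le (S.cls k' j')
                have h2 := S.c_le'
                apply mul_le_mul_of_nonneg_right _ (Nat.cast_nonneg _)
                norm_num at h1 h2 ⊢
                (clear * - h1 h2; linarith)
              exact by
                obtain ⟨n1, n2, n3, n4, n5⟩ := numeric S (by omega) hl hlt hit
                have hone : (1 : ℝ) ≤ (2 : ℝ) ^ (0.38 * (k' : ℝ)) :=
                  Real.one_le_rpow (by norm_num) (by (clear * -; positivity))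
                have hone2 : (1 : ℝ) ≤ (2 : ℝ) ^ (0.498 * (k' : ℝ)) :=
                  Real.one_le_rpow (by norm_num) (by (clear * -; positivity))
                rw [Real.rpow_add (by norm_num), Real.rpow_one] at n1
                have hhL : h ≤ 2 ^ ec S.d k' := by
                  have h1 : (h : ℝ) < ((2 ^ ec S.d k' : ℕ) : ℝ) := by
                    push_cast
                    (clear * - hh1 n2; linarith)
                  exact_mod_cast h1.le
                by_cases hj2 : j' = i0 ∨ j' = i0 + 1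
                · rw [if_pos hj2]
                  exact by
                    have hcell := cell_part S hR hk' hj' (l := l) (w0 := w0) (h := h) (k := k) hl
                      (by omega) (by omega) hhL (by (clear * - hh2 n1 hone; linarith))
                      (by
                        rcases n3 with h1 | h1
                        · left
                          rw [Real.rpow_add (by norm_num), Real.rpow_one] at h1
                          (clear * - hh2 n1 hone h1; linarith)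
                        · exact Or.inr h1) (by (clear * - hh1 n1 hone; linarith)) n4 n5
                    refine le_trans (le_of_eq ?_) hcell
                    rw [Finset.mul_sum, Finset.sum_filter]
                    refine Finset.sum_congr rfl fun x hx => ?_
                    have hiff : (x.1 * x.2 * l ∈ cell S.d k j ∧
                      (l : ℝ) < (2 : ℝ) ^ ((S.u (S.cls k' j') + S.c) * k')) ↔
                      (w0 ≤ x.1 * x.2 ∧ x.1 * x.2 < w0 + h) := by
                      rw [hmem]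
                      exact ⟨fun h1 => h1.1, fun h1 => ⟨h1, hbd⟩⟩
                    by_cases hq : w0 ≤ x.1 * x.2 ∧ x.1 * x.2 < w0 + h
                    · rw [if_pos (hiff.2 hq), if_pos hq]
                    · rw [if_neg (fun h1 => hq (hiff.1 h1)), if_neg hq]
                · rw [if_neg hj2]
                  apply le_of_eq
                  apply Finset.sum_eq_zero
                  intro x hx
                  rw [if_neg]
                  rintro ⟨h1, -⟩
                  rw [hmem] at h1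
                  rw [S.mem_act] at hx
                  obtain ⟨-, -, -, -, h5, -, -, -, -⟩ := S.cand_facts (hK.trans hk') hj' hx.1
                  rw [mem_cell] at h5
                  exact hj2 (cells_two hhL h5.1 h5.2 h1.1 h1.2)
            · have hz : ∑ x ∈ S.act R k' j',
                (if (x.1 * x.2 * l ∈ cell S.d k j ∧
                  (l : ℝ) < (2 : ℝ) ^ ((S.u (S.cls k' j') + S.c) * k'))
                  then 4 * S.G k' / S.NN R k' j' * (1 / S.pr x.2) else 0) = 0 := by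
                apply Finset.sum_eq_zero
                intro x _
                rw [if_neg (fun h1 => hbd h1.2)]
              rw [hz]
              split_ifs
              · exact hB0
              · exact le_rfl
          refine (Finset.sum_le_sum hterm).trans ?_
          rw [← Finset.sum_filter, Finset.sum_const, nsmul_eq_mul]
          have hcard : ((S.badc k').filter (fun j' => j' = i0 ∨ j' = i0 + 1)).card ≤ 2 := by
            refine (Finset.card_le_card (t := {i0, i0 + 1}) ?_).trans Finset.card_le_two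
            intro j' hj'
            rw [Finset.mem_filter] at hj'
            rw [Finset.mem_insert, Finset.mem_singleton]
            exact hj'.2
          have hcard' : (((S.badc k').filter (fun j' => j' = i0 ∨ j' = i0 + 1)).card : ℝ) ≤ 2 := by
            exact_mod_cast hcard
          calc _ ≤ 2 * B := mul_le_mul_of_nonneg_right hcard' hB0
            _ = _ := by rw [hB]; ring
  · rw [if_neg hit]
    apply le_of_eq
    apply Finset.sum_eq_zero
    intro j' hj'
    apply Finset.sum_eq_zero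
    intro x hx
    rw [if_neg]
    rintro ⟨h1, -⟩
    apply hit
    rw [S.mem_act] at hx
    obtain ⟨-, -, -, -, -, h6, h7, -, -⟩ := S.cand_facts (hK.trans hk') hj' hx.1
    have h8 := cell_ge h1
    have h9 := cell_lt S.d_pos hj h1
    have hlog1 : 2 ^ Nat.log 2 l ≤ l := Nat.pow_log_le_self 2 hl0.ne'
    have hlog2 : l < 2 ^ (Nat.log 2 l + 1) := Nat.lt_pow_succ_log_self (by norm_num) l
    have h10 : 2 ^ (k' + Nat.log 2 l) < 2 ^ (k + 1) := by
      rw [pow_add]
      exact lt_of_le_of_lt (Nat.mul_le_mul h6 hlog1) h9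
    have h11 : 2 ^ k < 2 ^ (k' + 1 + (Nat.log 2 l + 1)) := by
      rw [pow_add]
      exact lt_of_le_of_lt h8 (Nat.mul_lt_mul'' h7 hlog2)
    have h12 := (Nat.pow_lt_pow_iff_right (by norm_num : 1 < 2)).1 h10
    have h13 := (Nat.pow_lt_pow_iff_right (by norm_num : 1 < 2)).1 h11
    omega

end Pool.Agent.M20.Helper15.KS.H3
end

/- Helper53.KN.Helper15.KS.H3 -/
section
/-!
# Project KS (MP_768c9c_nt): Prop `H3` (direct terms with a small cofactor)
-/

set_option autoImplicit false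
open scoped Classical

namespace Pool.Agent.M20.Helper15.KS

open Pool.Agent.M20.Helper16.KS
open Pool.Agent.M20.Helper15.KS.H3

namespace H3

variable (S : Sys)

/-- one term -/
theorem term_le {k0 : ℕ} {R : Set ℕ} (hR : S.Good k0 R)
    (hW : ∀ p : ℕ, p.Prime → 0 ≤ S.Wp k0 R p ∧ S.Wp k0 R p ≤ S.Fh k0 R p)
    {k' j' : ℕ} (hk : S.K ≤ k') (hk' : 100 ≤ k') (hj : j' ∈ S.badc k') {x : ℕ × ℕ}
    (hx : x ∈ S.act R k' j') {n : ℕ} (_hn : n ≠ 0) (hxn : x.1 ∣ n) (hQ : S.Q3 (k', j') n x) :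
    (n.factorization x.1 : ℝ) * (2 * S.wo R k' j' x.2 * S.W k0 R (n / x.1)) ≤
      4 * S.G k' / S.NN R k' j' * (1 / S.pr x.2) * S.W k0 R (n / x.1 / x.2) := by
  obtain ⟨hq1, hq2, hq3⟩ := hQ
  have hWm := W_m_le S hR hW hk hk' hj hx
  rw [S.mem_act] at hx
  obtain ⟨hx, hxR⟩ := hx
  obtain ⟨h1, h2, h3, h4, h5, h6, h7, -, -⟩ := S.cand_facts hk hj hx
  set l := n / x.1 / x.2 with hl
  have hm0 : x.2 ≠ 0 := by omega
  have hl0 : l ≠ 0 := by omega
  have hn1 : n / x.1 = x.2 * l := by rw [hl, Nat.mul_div_cancel' hq1]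
  have hn2 : n = x.1 * (x.2 * l) := by rw [← hn1, Nat.mul_div_cancel' hxn]
  -- the multiplicity is one
  have hge := (cand_prime_ge S hk hj hx h1 (dvd_mul_right _ _)).1
  have hlq : l < x.1 := by
    have h8 : (l : ℝ) < x.1 := lt_of_lt_of_le hq3 hge
    exact_mod_cast h8
  have hfac : n.factorization x.1 = 1 := by
    have e1 : (x.2 * l).factorization x.1 = 0 := by
      apply Nat.factorization_eq_zero_of_not_dvd
      intro hdvd
      rcases (Nat.Prime.dvd_mul h1).1 hdvd with h8 | h8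
      · have := Nat.Coprime.eq_one_of_dvd h3 h8
        exact h1.one_lt.ne' this
      · exact absurd (Nat.le_of_dvd (Nat.pos_of_ne_zero hl0) h8) (by omega)
    rw [hn2, Nat.factorization_mul h1.ne_zero (mul_ne_zero hm0 hl0), Finsupp.add_apply, e1,
      h1.factorization_self]
  rw [hfac, Nat.cast_one, one_mul, hn1, S.W_mul k0 R hm0 hl0]
  have hpr := S.pr_pos hm0
  have hba := S.base_pos hm0
  have hN := S.NN_nonneg R k' j'
  have hG := S.G_nonneg k'
  have hWl := S.W_nonneg k0 R l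
  have e2 : S.wo R k' j' x.2 * S.base x.2 = S.G k' / S.NN R k' j' * (1 / S.pr x.2) := by
    unfold Sys.wo
    rcases eq_or_lt_of_le hN with h8 | h8
    · rw [← h8]
      simp
    · (clear * - hba hpr h8; field_simp)
  have hwo := S.wo_nonneg R k' j' x.2
  calc 2 * S.wo R k' j' x.2 * (S.W k0 R x.2 * S.W k0 R l)
      ≤ 2 * S.wo R k' j' x.2 * (2 * S.base x.2 * S.W k0 R l) := by
        apply mul_le_mul_of_nonneg_left _ (by (clear * - hwo; positivity))
        exact mul_le_mul_of_nonneg_right hWm hWl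
    _ = 4 * (S.wo R k' j' x.2 * S.base x.2) * S.W k0 R l := by ring
    _ = _ := by
        rw [e2]
        ring

theorem HT_le {k0 : ℕ} {R : Set ℕ} (hR : S.Good k0 R)
    (hW : ∀ p : ℕ, p.Prime → 0 ≤ S.Wp k0 R p ∧ S.Wp k0 R p ≤ S.Fh k0 R p)
    (hk0 : 100 ≤ k0) (hK : S.K ≤ k0) {k j : ℕ} (hj : j < nc S.d k) :
    S.HT k0 R k j S.Q3 ≤ ∑ l ∈ Finset.Ico 2 (2 ^ (k + 1)), S.W k0 R l *
      ∑ k' ∈ S.hvy k0 k, ∑ j' ∈ S.badc k', ∑ x ∈ S.act R k' j',
      (if (x.1 * x.2 * l ∈ cell S.d k j ∧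
          (l : ℝ) < (2 : ℝ) ^ ((S.u (S.cls k' j') + S.c) * k'))
        then 4 * S.G k' / S.NN R k' j' * (1 / S.pr x.2) else 0) := by
  have e1 : S.HT k0 R k j S.Q3 = ∑ k' ∈ S.hvy k0 k, ∑ j' ∈ S.badc k', ∑ x ∈ S.act R k' j',
      ∑ n ∈ (cell S.d k j).filter (fun n => x.1 ∣ n ∧ S.Q3 (k', j') n x),
        (n.factorization x.1 : ℝ) * (2 * S.wo R k' j' x.2 * S.W k0 R (n / x.1)) := by
    unfold Sys.HT
    simp only [Finset.sum_filter]
    rw [Finset.sum_comm]
    refine Finset.sum_congr rfl fun k' _ => ?_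
    rw [Finset.sum_comm]
    refine Finset.sum_congr rfl fun j' _ => ?_
    rw [Finset.sum_comm]
  have e2 : ∑ l ∈ Finset.Ico 2 (2 ^ (k + 1)), S.W k0 R l *
      ∑ k' ∈ S.hvy k0 k, ∑ j' ∈ S.badc k', ∑ x ∈ S.act R k' j',
      (if (x.1 * x.2 * l ∈ cell S.d k j ∧
          (l : ℝ) < (2 : ℝ) ^ ((S.u (S.cls k' j') + S.c) * k'))
        then 4 * S.G k' / S.NN R k' j' * (1 / S.pr x.2) else 0) =
      ∑ k' ∈ S.hvy k0 k, ∑ j' ∈ S.badc k', ∑ x ∈ S.act R k' j',
      ∑ l ∈ (Finset.Ico 2 (2 ^ (k + 1))).filter (fun l => x.1 * x.2 * l ∈ cell S.d k j ∧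
          (l : ℝ) < (2 : ℝ) ^ ((S.u (S.cls k' j') + S.c) * k')),
        4 * S.G k' / S.NN R k' j' * (1 / S.pr x.2) * S.W k0 R l := by
    simp only [Finset.mul_sum, Finset.sum_filter]
    rw [Finset.sum_comm]
    refine Finset.sum_congr rfl fun k' _ => ?_
    rw [Finset.sum_comm]
    refine Finset.sum_congr rfl fun j' _ => ?_
    rw [Finset.sum_comm]
    refine Finset.sum_congr rfl fun x _ => ?_
    refine Finset.sum_congr rfl fun l _ => ?_
    split_ifs <;> ring
  rw [e1, e2]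
  refine Finset.sum_le_sum fun k' hk' => Finset.sum_le_sum fun j' hj' =>
    Finset.sum_le_sum fun x hx => ?_
  have hk'0 : k0 ≤ k' := by
    unfold Sys.hvy at hk'
    rw [Finset.mem_Ico] at hk'
    exact le_trans (le_max_left _ _) hk'.1
  have hxc := S.cand_facts (hK.trans hk'0) hj' ((S.mem_act).1 hx).1
  obtain ⟨h1, h2, h3, h4, h5, h6, h7, -, -⟩ := hxc
  have hm0 : x.2 ≠ 0 := by omega
  have hfac : ∀ n ∈ (cell S.d k j).filter (fun n => x.1 ∣ n ∧ S.Q3 (k', j') n x),
      n = x.1 * x.2 * (n / x.1 / x.2) := by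
    intro n hn
    rw [Finset.mem_filter] at hn
    obtain ⟨-, ha, hb, -⟩ := hn
    rw [mul_assoc, Nat.mul_div_cancel' hb, Nat.mul_div_cancel' ha]
  have hstep1 : ∑ n ∈ (cell S.d k j).filter (fun n => x.1 ∣ n ∧ S.Q3 (k', j') n x),
        (n.factorization x.1 : ℝ) * (2 * S.wo R k' j' x.2 * S.W k0 R (n / x.1)) ≤
      ∑ n ∈ (cell S.d k j).filter (fun n => x.1 ∣ n ∧ S.Q3 (k', j') n x),
        4 * S.G k' / S.NN R k' j' * (1 / S.pr x.2) * S.W k0 R (n / x.1 / x.2) := by
    refine Finset.sum_le_sum fun n hn => ?_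
    rw [Finset.mem_filter] at hn
    have hn0 : n ≠ 0 := by
      have := cell_ge hn.1
      have h9 : 0 < 2 ^ k := by positivity
      omega
    exact term_le S hR hW (hK.trans hk'0) (by omega) hj' hx hn0 hn.2.1 hn.2.2
  refine hstep1.trans ?_
  have hinj : Set.InjOn (fun n : ℕ => n / x.1 / x.2)
      ((cell S.d k j).filter (fun n => x.1 ∣ n ∧ S.Q3 (k', j') n x) : Set ℕ) := by
    intro n hn m hm hnm
    simp only at hnm
    rw [hfac n hn, hfac m hm, hnm]
  have hsum : ∑ n ∈ (cell S.d k j).filter (fun n => x.1 ∣ n ∧ S.Q3 (k', j') n x),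
        4 * S.G k' / S.NN R k' j' * (1 / S.pr x.2) * S.W k0 R (n / x.1 / x.2) =
      ∑ l ∈ ((cell S.d k j).filter (fun n => x.1 ∣ n ∧ S.Q3 (k', j') n x)).image
        (fun n : ℕ => n / x.1 / x.2),
        4 * S.G k' / S.NN R k' j' * (1 / S.pr x.2) * S.W k0 R l := by
    rw [Finset.sum_image hinj]
  rw [hsum]
  apply Finset.sum_le_sum_of_subset_of_nonneg
  · intro l hl
    rw [Finset.mem_image] at hl
    obtain ⟨n, hn, rfl⟩ := hl
    have hn2 := hfac n hn
    rw [Finset.mem_filter] at hn ⊢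
    obtain ⟨hn1, hdvd, hq1, hq2, hq3⟩ := hn
    refine ⟨?_, ?_, hq3⟩
    · rw [Finset.mem_Ico]
      refine ⟨hq2, ?_⟩
      refine lt_of_le_of_lt ?_ (cell_lt S.d_pos hj hn1)
      exact (Nat.div_le_self _ _).trans (Nat.div_le_self _ _)
    · rw [← hn2]
      exact hn1
  · intro l _ _
    have := S.pr_nonneg x.2
    have := S.G_nonneg k'
    have := S.NN_nonneg R k' j'
    have := S.W_nonneg k0 R l
    positivity

end H3

/-- the Prop `H3` -/
theorem h3 (hWp : WpLe) (hSW : SumW) : Pool.Agent.M20.Helper16.KS.H3 := by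
  intro S
  obtain ⟨K1, hK1⟩ := hWp S
  obtain ⟨C, K2, hK2⟩ := hSW S
  obtain ⟨N, hN⟩ := exists_nat_ge (20 * (2048000 * S.C1 * |C|))
  refine ⟨K1 + K2 + S.K + N + 6010, ?_⟩
  intro k0 hk0 R hR k hk j hj
  have hW := hK1 k0 (by omega) R hR
  have hS := hK2 k0 (by omega) R hR
  have hC1 : 0 < S.C1 := by (clear * -; linarith [S.C1_ge])
  have hGk := S.G_nonneg k
  have hk0R : (0 : ℝ) < k0 := by exact_mod_cast (by omega : 0 < k0)
  refine (H3.HT_le S hR hW (by omega) (by omega) hj).trans ?_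
  have hterm : ∀ l ∈ Finset.Ico 2 (2 ^ (k + 1)), S.W k0 R l *
      ∑ k' ∈ S.hvy k0 k, ∑ j' ∈ S.badc k', ∑ x ∈ S.act R k' j',
      (if (x.1 * x.2 * l ∈ cell S.d k j ∧
          (l : ℝ) < (2 : ℝ) ^ ((S.u (S.cls k' j') + S.c) * k'))
        then 4 * S.G k' / S.NN R k' j' * (1 / S.pr x.2) else 0) ≤
      2048000 * S.C1 * S.G k * (S.W k0 R l * (l : ℝ) ^ (-S.s) * (1 + Real.log l) ^ 2) := by
    intro l hl
    rw [Finset.mem_Ico] at hl
    have hWl := S.W_nonneg k0 R l
    have hlog : 0 ≤ Real.log (l : ℝ) := Real.log_natCast_nonneg l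
    have hRHS : 0 ≤ 2048000 * S.C1 * S.G k *
        (S.W k0 R l * (l : ℝ) ^ (-S.s) * (1 + Real.log l) ^ 2) := by (clear * - hC1 hGk hWl; positivity)
    by_cases hsm : (l : ℝ) < (2 : ℝ) ^ ((k0 : ℝ) / 5)
    · rw [H3.W_zero S hW hl.1 hsm, zero_mul]
      simp
    · have hl32 : 32 ≤ l := by
        rw [not_lt] at hsm
        have h1 : (2 : ℝ) ^ (5 : ℝ) ≤ l := by
          refine le_trans (Real.rpow_le_rpow_of_exponent_le (by norm_num) ?_) hsm
          have : (25 : ℝ) ≤ k0 := by exact_mod_cast (by omega : 25 ≤ k0)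
          (clear * - this; linarith)
        rw [show (5 : ℝ) = ((5 : ℕ) : ℝ) by norm_num, Real.rpow_natCast] at h1
        have h2 : (32 : ℝ) ≤ l := by
          refine le_trans ?_ h1
          norm_num
        exact_mod_cast h2
      set B : ℝ := 1024000 * S.C1 * (S.G k * ((l : ℝ) ^ (-S.s) * (1 + Real.log l))) with hB
      have hB0 : 0 ≤ B := by (clear * - hC1 hGk hl32; positivity)
      have hinner : ∑ k' ∈ S.hvy k0 k, ∑ j' ∈ S.badc k', ∑ x ∈ S.act R k' j',
          (if (x.1 * x.2 * l ∈ cell S.d k j ∧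
            (l : ℝ) < (2 : ℝ) ^ ((S.u (S.cls k' j') + S.c) * k'))
            then 4 * S.G k' / S.NN R k' j' * (1 / S.pr x.2) else 0) ≤ 2 * B := by
        have h1 : ∀ k' ∈ S.hvy k0 k, ∑ j' ∈ S.badc k', ∑ x ∈ S.act R k' j',
          (if (x.1 * x.2 * l ∈ cell S.d k j ∧
            (l : ℝ) < (2 : ℝ) ^ ((S.u (S.cls k' j') + S.c) * k'))
            then 4 * S.G k' / S.NN R k' j' * (1 / S.pr x.2) else 0) ≤
            (if (k' + Nat.log 2 l = k ∨ k' + Nat.log 2 l + 1 = k) then B else 0) := by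
          intro k' hk'
          have hk'0 : k0 ≤ k' := by
            unfold Sys.hvy at hk'
            rw [Finset.mem_Ico] at hk'
            exact le_trans (le_max_left _ _) hk'.1
          exact H3.inner_le S hR (by omega) (by omega) hj hk'0 hl32
        refine (Finset.sum_le_sum h1).trans ?_
        rw [← Finset.sum_filter, Finset.sum_const, nsmul_eq_mul]
        have hcard : ((S.hvy k0 k).filter
            (fun k' => k' + Nat.log 2 l = k ∨ k' + Nat.log 2 l + 1 = k)).card ≤ 2 := by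
          refine (Finset.card_le_card (t := {k - Nat.log 2 l, k - Nat.log 2 l - 1}) ?_).trans
            Finset.card_le_two
          intro k' hk'
          rw [Finset.mem_filter] at hk'
          rw [Finset.mem_insert, Finset.mem_singleton]
          omega
        have hcard' : (((S.hvy k0 k).filter
            (fun k' => k' + Nat.log 2 l = k ∨ k' + Nat.log 2 l + 1 = k)).card : ℝ) ≤ 2 := by
          exact_mod_cast hcard
        exact mul_le_mul_of_nonneg_right hcard' hB0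
      refine (mul_le_mul_of_nonneg_left hinner hWl).trans ?_
      have h2 : S.W k0 R l * (2 * B) =
          2048000 * S.C1 * S.G k * (S.W k0 R l * (l : ℝ) ^ (-S.s) * (1 + Real.log l)) := by
        rw [hB]
        ring
      rw [h2]
      apply mul_le_mul_of_nonneg_left _ (by positivity)
      apply mul_le_mul_of_nonneg_left _ (by positivity)
      (clear * - hlog; nlinarith)
  refine (Finset.sum_le_sum hterm).trans ?_
  rw [← Finset.mul_sum]
  have hsum := hS (Finset.Ico 2 (2 ^ (k + 1))) (fun n hn => (Finset.mem_Ico.1 hn).1)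
  have h3 : C / k0 ≤ |C| / k0 := div_le_div_of_nonneg_right (le_abs_self C) hk0R.le
  have h4 : 2048000 * S.C1 * (|C| / k0) ≤ 1 / 20 := by
    rw [← mul_div_assoc, div_le_div_iff₀ hk0R (by norm_num)]
    have h5 : (N : ℝ) ≤ k0 := by exact_mod_cast (by omega : N ≤ k0)
    (clear * - hN h5; linarith)
  calc 2048000 * S.C1 * S.G k * ∑ i ∈ Finset.Ico 2 (2 ^ (k + 1)),
        S.W k0 R i * (i : ℝ) ^ (-S.s) * (1 + Real.log i) ^ 2
      ≤ 2048000 * S.C1 * S.G k * (|C| / k0) := by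
        apply mul_le_mul_of_nonneg_left _ (by positivity)
        exact hsum.trans h3
    _ = S.G k * (2048000 * S.C1 * (|C| / k0)) := by ring
    _ ≤ S.G k * (1 / 20) := mul_le_mul_of_nonneg_left h4 hGk
    _ = S.G k / 20 := by ring

end Pool.Agent.M20.Helper15.KS
end

/- Helper53.KN.Helper65.KC.MV2 -/
section
/-! FM-2 : Gaussian mean value theorem for Dirichlet polynomials. -/

set_option autoImplicit false
open MeasureTheory Filter Topology Finset
open scoped Classical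

namespace Pool.Agent.M20.Helper65.KC

open Pool.Agent.M20.Helper26.KC Pool.Agent.M20.Helper60.KS

theorem card_log_near (L n : ℕ) (T : ℝ) (hT : 1 ≤ T) (hn : 1 ≤ n) :
    (((Icc 1 L).filter (fun k : ℕ => |Real.log n - Real.log k| ≤ 1 / T)).card : ℝ) ≤ 1 + 3 * n / T := by
  have hT0 : 0 < T := by (clear * - hT; linarith)
  have hn0 : (0 : ℝ) < n := by exact_mod_cast hn
  have hx0 : 0 < 1 / T := by positivity
  have hx1 : 1 / T ≤ 1 := by rw [div_le_one hT0]; exact hT
  have hsub : (Icc 1 L).filter (fun k : ℕ => |Real.log n - Real.log k| ≤ 1 / T) ⊆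
      Icc ⌈(n : ℝ) * (1 - 1 / T)⌉₊ ⌊(n : ℝ) * (1 + 2 * (1 / T))⌋₊ := by
    intro k hk
    rw [Finset.mem_filter, Finset.mem_Icc] at hk
    obtain ⟨⟨hk1, _⟩, hk2⟩ := hk
    have hk0 : (0 : ℝ) < k := by exact_mod_cast hk1
    rw [abs_le] at hk2
    have h1 : (k : ℝ) ≤ n * Real.exp (1 / T) := by
      have : Real.log k ≤ Real.log n + 1 / T := by (clear * - hk2; linarith [hk2.1])
      calc (k : ℝ) = Real.exp (Real.log k) := (Real.exp_log hk0).symm
        _ ≤ Real.exp (Real.log n + 1 / T) := Real.exp_le_exp.2 this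
        _ = n * Real.exp (1 / T) := by rw [Real.exp_add, Real.exp_log hn0]
    have h2 : (n : ℝ) * Real.exp (-(1 / T)) ≤ k := by
      have : Real.log n + -(1 / T) ≤ Real.log k := by (clear * - hk2; linarith [hk2.2])
      calc (n : ℝ) * Real.exp (-(1 / T)) = Real.exp (Real.log n + -(1 / T)) := by
            rw [Real.exp_add, Real.exp_log hn0]
        _ ≤ Real.exp (Real.log k) := Real.exp_le_exp.2 this
        _ = k := Real.exp_log hk0
    have h3 : Real.exp (1 / T) ≤ 1 + 2 * (1 / T) := by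
      have := Real.exp_bound' hx0.le hx1 (n := 1) (by norm_num)
      simp [Finset.sum_range_succ] at this
      have h4 : Real.exp T⁻¹ ≤ 1 + 2 * T⁻¹ := by
        refine this.trans (by (clear * -; linarith))
      simpa using h4
    have h4 : 1 - 1 / T ≤ Real.exp (-(1 / T)) := by
      have := Real.add_one_le_exp (-(1 / T))
      (clear * - this; linarith)
    rw [Finset.mem_Icc]
    constructor
    · refine Nat.ceil_le.2 ?_
      exact (mul_le_mul_of_nonneg_left h4 hn0.le).trans h2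
    · refine Nat.le_floor ?_
      exact h1.trans (mul_le_mul_of_nonneg_left h3 hn0.le)
  have hcard := Finset.card_le_card hsub
  rw [Nat.card_Icc] at hcard
  have hA : (n : ℝ) * (1 - 1 / T) ≤ ⌈(n : ℝ) * (1 - 1 / T)⌉₊ := Nat.le_ceil _
  have hB : (⌊(n : ℝ) * (1 + 2 * (1 / T))⌋₊ : ℝ) ≤ (n : ℝ) * (1 + 2 * (1 / T)) :=
    Nat.floor_le (by positivity)
  have hR : (0 : ℝ) ≤ 1 + 3 * n / T := by positivity
  rcases le_or_gt ⌈(n : ℝ) * (1 - 1 / T)⌉₊ (⌊(n : ℝ) * (1 + 2 * (1 / T))⌋₊ + 1) with h | h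
  · have : ((⌊(n : ℝ) * (1 + 2 * (1 / T))⌋₊ + 1 - ⌈(n : ℝ) * (1 - 1 / T)⌉₊ : ℕ) : ℝ) ≤ 1 + 3 * n / T := by
      rw [Nat.cast_sub h]
      push_cast
      have e1 : (n : ℝ) * (1 + 2 * (1 / T)) - n * (1 - 1 / T) = 3 * n / T := by ring
      (clear * - hA hB e1; linarith)
    exact (Nat.cast_le.2 hcard).trans this
  · have : ⌊(n : ℝ) * (1 + 2 * (1 / T))⌋₊ + 1 - ⌈(n : ℝ) * (1 - 1 / T)⌉₊ = 0 := by omega
    rw [this] at hcard
    exact (Nat.cast_le.2 hcard).trans (by simpa using hR)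

theorem mv2 : FMmv2 := by
  obtain ⟨C, hC, h⟩ := meanValue
  refine ⟨3 * C, by positivity, ?_⟩
  intro L c T hT
  have hT0 : 0 < T := by linarith
  have h1 := h ℕ (Icc 1 L) c (fun n => Real.log n) T hT
  have h2 : ∀ t : ℝ, ∑ n ∈ Icc 1 L, c n * (n : ℂ) ^ ((t : ℂ) * Complex.I) =
      ∑ j ∈ Icc 1 L, c j * Complex.exp (Complex.I * ((Real.log j * t : ℝ) : ℂ)) := by
    intro t
    refine Finset.sum_congr rfl fun n hn => ?_
    have hn1 : 1 ≤ n := (Finset.mem_Icc.1 hn).1
    have hn0 : (n : ℂ) ≠ 0 := by exact_mod_cast (by omega : n ≠ 0)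
    rw [Complex.cpow_def_of_ne_zero hn0, Complex.natCast_log.symm]
    congr 2
    push_cast
    ring
  simp_rw [h2]
  refine h1.trans ?_
  rw [mul_assoc, mul_comm 3 C, mul_assoc]
  refine mul_le_mul_of_nonneg_left ?_ hC.le
  have h3 : ∑ j ∈ Icc 1 L, ∑ k ∈ Icc 1 L, (if |Real.log j - Real.log k| ≤ 1 / T then ‖c j‖ * ‖c k‖ else 0) ≤
      ∑ j ∈ Icc 1 L, ∑ k ∈ Icc 1 L, (if |Real.log j - Real.log k| ≤ 1 / T then ‖c j‖ ^ 2 else 0) := by
    have h4 : ∑ j ∈ Icc 1 L, ∑ k ∈ Icc 1 L, (if |Real.log j - Real.log k| ≤ 1 / T then ‖c j‖ * ‖c k‖ else 0) ≤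
        ∑ j ∈ Icc 1 L, ∑ k ∈ Icc 1 L, ((if |Real.log j - Real.log k| ≤ 1 / T then ‖c j‖ ^ 2 else 0) / 2 +
          (if |Real.log k - Real.log j| ≤ 1 / T then ‖c k‖ ^ 2 else 0) / 2) := by
      refine Finset.sum_le_sum fun j _ => Finset.sum_le_sum fun k _ => ?_
      rw [abs_sub_comm (Real.log k) (Real.log j)]
      split_ifs
      · (clear * -; nlinarith [sq_nonneg (‖c j‖ - ‖c k‖)])
      · norm_num
    refine h4.trans ?_
    simp_rw [Finset.sum_add_distrib]
    have h5 : ∑ j ∈ Icc 1 L, ∑ k ∈ Icc 1 L, (if |Real.log k - Real.log j| ≤ 1 / T then ‖c k‖ ^ 2 else 0) / 2 =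
        ∑ j ∈ Icc 1 L, ∑ k ∈ Icc 1 L, (if |Real.log j - Real.log k| ≤ 1 / T then ‖c j‖ ^ 2 else 0) / 2 := by
      rw [Finset.sum_comm]
    rw [h5]
    simp_rw [← Finset.sum_div]
    (clear * -; linarith)
  have h6 : ∀ j ∈ Icc 1 L, T * ∑ k ∈ Icc 1 L, (if |Real.log j - Real.log k| ≤ 1 / T then ‖c j‖ ^ 2 else 0) ≤
      3 * ((T + j) * ‖c j‖ ^ 2) := by
    intro j hj
    have hj1 : 1 ≤ j := (Finset.mem_Icc.1 hj).1
    rw [← Finset.sum_filter, Finset.sum_const, nsmul_eq_mul]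
    have h7 := card_log_near L j T hT hj1
    have h8 : T * ((((Icc 1 L).filter (fun k : ℕ => |Real.log j - Real.log k| ≤ 1 / T)).card : ℝ)) ≤
        T + 3 * j := by
      have := mul_le_mul_of_nonneg_left h7 hT0.le
      have e : T * (1 + 3 * (j : ℝ) / T) = T + 3 * j := by field_simp
      (clear * - this e; linarith)
    have h9 : T + 3 * (j : ℝ) ≤ 3 * (T + j) := by (clear * - hT; linarith)
    have h10 : (0 : ℝ) ≤ ‖c j‖ ^ 2 := by positivity
    calc T * (((((Icc 1 L).filter (fun k : ℕ => |Real.log j - Real.log k| ≤ 1 / T)).card : ℝ)) * ‖c j‖ ^ 2)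
        = (T * ((((Icc 1 L).filter (fun k : ℕ => |Real.log j - Real.log k| ≤ 1 / T)).card : ℝ))) * ‖c j‖ ^ 2 := by
          ring
      _ ≤ (3 * (T + j)) * ‖c j‖ ^ 2 := mul_le_mul_of_nonneg_right (h8.trans h9) h10
      _ = 3 * ((T + j) * ‖c j‖ ^ 2) := by ring
  calc T * ∑ j ∈ Icc 1 L, ∑ k ∈ Icc 1 L, (if |Real.log j - Real.log k| ≤ 1 / T then ‖c j‖ * ‖c k‖ else 0)
      ≤ T * ∑ j ∈ Icc 1 L, ∑ k ∈ Icc 1 L, (if |Real.log j - Real.log k| ≤ 1 / T then ‖c j‖ ^ 2 else 0) :=
        mul_le_mul_of_nonneg_left h3 hT0.le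
    _ = ∑ j ∈ Icc 1 L, T * ∑ k ∈ Icc 1 L, (if |Real.log j - Real.log k| ≤ 1 / T then ‖c j‖ ^ 2 else 0) := by
        rw [Finset.mul_sum]
    _ ≤ ∑ j ∈ Icc 1 L, 3 * ((T + j) * ‖c j‖ ^ 2) := Finset.sum_le_sum h6
    _ = 3 * ∑ n ∈ Icc 1 L, (T + n) * ‖c n‖ ^ 2 := by rw [← Finset.mul_sum]

end Pool.Agent.M20.Helper65.KC
end

/- Helper53.KN.Helper18.KP.Mom -/
section
/-! Project KS, lemma POW: moments of short polynomials. -/

set_option autoImplicit false
open MeasureTheory Filter Topology Finset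
open scoped Classical

namespace Pool.Agent.M20.Helper18.KP

open Pool.Agent.M20.Helper60.KS Pool.Agent.M20.Helper65.KC

/-- group polynomial -/
noncomputable def GP {ι : Type} (S : Finset ι) (n : ι → ℕ) (v t : ℝ) : ℂ :=
  ∑ j ∈ S, Complex.exp (Complex.I * (((v * Real.log (n j)) * t : ℝ) : ℂ))

theorem second_moment : ∃ C : ℝ, 0 < C ∧ ∀ (ι : Type) (S : Finset ι) (n : ι → ℕ) (v T : ℝ) (M F : ℕ),
    1 ≤ T → 1 ≤ v → (∀ j ∈ S, 1 ≤ n j ∧ n j ≤ M) → (∀ m : ℕ, (S.filter (fun j => n j = m)).card ≤ F) →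
    ∫ t : ℝ, Real.exp (-(t / T) ^ 2) * ‖GP S n v t‖ ^ 2 ≤ C * T * (S.card * F * (1 + 3 * M / T)) := by
  obtain ⟨C, hC, h⟩ := meanValue
  refine ⟨C, hC, ?_⟩
  intro ι S n v T M F hT hv hn hF
  have hT0 : 0 < T := by linarith
  have h1 := h ι S (fun _ => 1) (fun j => v * Real.log (n j)) T hT
  have h2 : ∀ t : ℝ, ∑ j ∈ S, (1 : ℂ) * Complex.exp (Complex.I * (((v * Real.log (n j)) * t : ℝ) : ℂ)) =
      GP S n v t := by
    intro t; unfold GP; simp
  simp_rw [h2] at h1
  refine h1.trans ?_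
  refine mul_le_mul_of_nonneg_left ?_ (by positivity)
  have h3 : ∀ j ∈ S, ∑ k ∈ S, (if |v * Real.log (n j) - v * Real.log (n k)| ≤ 1 / T then
      ‖(1 : ℂ)‖ * ‖(1 : ℂ)‖ else 0) ≤ (F : ℝ) * (1 + 3 * M / T) := by
    intro j hj
    have hj1 := hn j hj
    rw [← Finset.sum_filter]
    simp only [norm_one, mul_one, Finset.sum_const, nsmul_eq_mul]
    have h4 : (S.filter (fun k => |v * Real.log (n j) - v * Real.log (n k)| ≤ 1 / T)).card ≤
        F * ((Icc 1 M).filter (fun k : ℕ => |Real.log (n j) - Real.log k| ≤ 1 / T)).card := by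
      refine Finset.card_le_mul_card_image_of_maps_to (f := n) ?_ F ?_
      · intro k hk
        rw [Finset.mem_filter] at hk
        rw [Finset.mem_filter, Finset.mem_Icc]
        refine ⟨hn k hk.1, ?_⟩
        have e : v * Real.log (n j) - v * Real.log (n k) = v * (Real.log (n j) - Real.log (n k)) := by ring
        have h5 := hk.2
        rw [e, abs_mul, abs_of_pos (by linarith)] at h5
        have h6 : |Real.log (n j) - Real.log (n k)| ≤ v * |Real.log (n j) - Real.log (n k)| := by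
          have := abs_nonneg (Real.log (n j) - Real.log (n k))
          nlinarith
        exact h6.trans h5
      · intro m _
        refine (Finset.card_le_card ?_).trans (hF m)
        intro k hk
        rw [Finset.mem_filter] at hk ⊢
        rw [Finset.mem_filter] at hk
        exact ⟨hk.1.1, hk.2⟩
    have h7 := card_log_near M (n j) T hT hj1.1
    have h8 : ((S.filter (fun k => |v * Real.log (n j) - v * Real.log (n k)| ≤ 1 / T)).card : ℝ) ≤
        F * ((Icc 1 M).filter (fun k : ℕ => |Real.log (n j) - Real.log k| ≤ 1 / T)).card := by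
      exact_mod_cast h4
    refine h8.trans (mul_le_mul_of_nonneg_left ?_ (Nat.cast_nonneg _))
    refine h7.trans ?_
    have : (n j : ℝ) ≤ M := by exact_mod_cast hj1.2
    have h9 : 3 * (n j : ℝ) / T ≤ 3 * M / T := div_le_div_of_nonneg_right (by linarith) hT0.le
    linarith
  refine (Finset.sum_le_sum h3).trans ?_
  rw [Finset.sum_const, nsmul_eq_mul]
  apply le_of_eq
  ring

theorem GP_pow {ι : Type} (S : Finset ι) (n : ι → ℕ) (hn : ∀ j ∈ S, 1 ≤ n j) (v t : ℝ) (κ : ℕ) :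
    GP S n v t ^ κ = GP (Fintype.piFinset (fun _ : Fin κ => S)) (fun p => ∏ i, n (p i)) v t := by
  unfold GP
  have h1 : (∑ j ∈ S, Complex.exp (Complex.I * (((v * Real.log (n j)) * t : ℝ) : ℂ))) ^ κ =
      ∏ _i : Fin κ, ∑ j ∈ S, Complex.exp (Complex.I * (((v * Real.log (n j)) * t : ℝ) : ℂ)) := by
    rw [Finset.prod_const, Finset.card_univ, Fintype.card_fin]
  rw [h1, Finset.prod_univ_sum]
  refine Finset.sum_congr rfl fun p hp => ?_
  rw [← Complex.exp_sum]
  congr 1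
  have hp1 : ∀ i, p i ∈ S := fun i => (Fintype.mem_piFinset.1 hp) i
  have h2 : Real.log ((∏ i, n (p i) : ℕ) : ℝ) = ∑ i, Real.log (n (p i)) := by
    push_cast
    rw [Real.log_prod]
    intro i _
    have := hn (p i) (hp1 i)
    exact_mod_cast (by omega : n (p i) ≠ 0)
  rw [h2, ← Finset.mul_sum]
  congr 1
  rw [Finset.mul_sum, Finset.sum_mul]
  push_cast
  rfl

theorem moment : ∃ C : ℝ, 0 < C ∧ ∀ (κ : ℕ) (ι : Type) (S : Finset ι) (n : ι → ℕ) (v T : ℝ) (M F D : ℕ),
    1 ≤ T → 1 ≤ v → (∀ j ∈ S, 1 ≤ n j ∧ n j ≤ M) → (∀ m : ℕ, (S.filter (fun j => n j = m)).card ≤ F) →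
    (∀ m : ℕ, 1 ≤ m → m ≤ M ^ κ → m.divisors.card ≤ D) →
    ∫ t : ℝ, Real.exp (-(t / T) ^ 2) * ‖GP S n v t‖ ^ (2 * κ) ≤
      C * T * ((S.card : ℝ) ^ κ * (F * D : ℝ) ^ κ * (1 + 3 * (M : ℝ) ^ κ / T)) := by
  obtain ⟨C, hC, h⟩ := second_moment
  refine ⟨C, hC, ?_⟩
  intro κ ι S n v T M F D hT hv hn hF hD
  have h1 := h (Fin κ → ι) (Fintype.piFinset (fun _ : Fin κ => S)) (fun p => ∏ i, n (p i)) v T (M ^ κ)
    ((F * D) ^ κ) hT hv ?_ ?_
  · have h2 : ∀ t : ℝ, ‖GP (Fintype.piFinset (fun _ : Fin κ => S)) (fun p => ∏ i, n (p i)) v t‖ ^ 2 =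
        ‖GP S n v t‖ ^ (2 * κ) := by
      intro t
      rw [← GP_pow S n (fun j hj => (hn j hj).1) v t κ, norm_pow, ← pow_mul, mul_comm κ 2]
    simp_rw [h2] at h1
    refine h1.trans (le_of_eq ?_)
    rw [Fintype.card_piFinset]
    push_cast
    simp only [Finset.prod_const, Finset.card_univ, Fintype.card_fin]
  · intro p hp
    have hp1 : ∀ i, p i ∈ S := fun i => (Fintype.mem_piFinset.1 hp) i
    constructor
    · exact Nat.one_le_iff_ne_zero.2 (Finset.prod_ne_zero_iff.2 fun i _ => by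
        have := (hn (p i) (hp1 i)).1
        omega)
    · refine (Finset.prod_le_prod' (fun i _ => (hn (p i) (hp1 i)).2)).trans ?_
      rw [Finset.prod_const, Finset.card_univ, Fintype.card_fin]
  · intro m
    rcases Finset.eq_empty_or_nonempty ((Fintype.piFinset (fun _ : Fin κ => S)).filter
      (fun p => ∏ i, n (p i) = m)) with he | ⟨q, hq⟩
    · rw [he]; simp
    rw [Finset.mem_filter] at hq
    have hq1 : ∀ i, q i ∈ S := fun i => (Fintype.mem_piFinset.1 hq.1) i
    have hm1 : 1 ≤ m := by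
      rw [← hq.2]
      exact Nat.one_le_iff_ne_zero.2 (Finset.prod_ne_zero_iff.2 fun i _ => by
        have := (hn (q i) (hq1 i)).1
        omega)
    have hm2 : m ≤ M ^ κ := by
      rw [← hq.2]
      refine (Finset.prod_le_prod' (fun i _ => (hn (q i) (hq1 i)).2)).trans ?_
      rw [Finset.prod_const, Finset.card_univ, Fintype.card_fin]
    have hsub : (Fintype.piFinset (fun _ : Fin κ => S)).filter (fun p => ∏ i, n (p i) = m) ⊆
        Fintype.piFinset (fun _ : Fin κ => S.filter (fun j => n j ∣ m)) := by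
      intro p hp
      rw [Finset.mem_filter] at hp
      rw [Fintype.mem_piFinset]
      intro i
      rw [Finset.mem_filter]
      refine ⟨(Fintype.mem_piFinset.1 hp.1) i, ?_⟩
      rw [← hp.2]
      exact Finset.dvd_prod_of_mem (fun i => n (p i)) (Finset.mem_univ i)
    refine (Finset.card_le_card hsub).trans ?_
    rw [Fintype.card_piFinset]
    simp only [Finset.prod_const, Finset.card_univ, Fintype.card_fin]
    refine Nat.pow_le_pow_left ?_ κ
    have h5 : (S.filter (fun j => n j ∣ m)).card ≤ F * m.divisors.card := by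
      refine Finset.card_le_mul_card_image_of_maps_to (f := n) ?_ F ?_
      · intro k hk
        rw [Finset.mem_filter] at hk
        rw [Nat.mem_divisors]
        exact ⟨hk.2, by omega⟩
      · intro d _
        refine (Finset.card_le_card ?_).trans (hF d)
        intro k hk
        rw [Finset.mem_filter] at hk ⊢
        rw [Finset.mem_filter] at hk
        exact ⟨hk.1.1, hk.2⟩
    exact h5.trans (Nat.mul_le_mul_left F (hD m hm1 hm2))

end Pool.Agent.M20.Helper18.KP
end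

/- Helper53.KN.Helper26.KC.F4 -/
section
/-!
# KS, fourth moment, part 4: mollified sum at a zero and zeta on the critical line
-/

set_option autoImplicit false
set_option linter.all false
open MeasureTheory Filter Topology Finset

namespace Pool.Agent.M20.Helper26.KC

open Pool.Agent.M20.Helper69.QRH

/-- growth on the critical line -/
theorem zeta_half_le : ∃ C : ℝ, 0 < C ∧ ∀ u : ℝ, ‖riemannZeta (1 / 2 + (u : ℂ) * Complex.I)‖ ≤
    C * (2 + |u|) ^ 2 := by
  obtain ⟨CE, hCE0, hCE⟩ := EZ_growth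
  refine ⟨2 * CE, by positivity, fun u => ?_⟩
  set s : ℂ := 1 / 2 + (u : ℂ) * Complex.I with hs
  have hsre : s.re = 1 / 2 := by simp [hs]
  have hsim : s.im = u := by simp [hs]
  have hs1 : s ≠ 1 := by
    intro h
    have := congrArg Complex.re h
    rw [hsre, Complex.one_re] at this
    norm_num at this
  have h1 := hCE s (by rw [hsre]; norm_num)
  rw [EZ_eq hs1, norm_mul] at h1
  have h2 : 1 / 2 ≤ ‖s - 1‖ := by
    have := Complex.abs_re_le_norm (s - 1)
    rw [Complex.sub_re, hsre, Complex.one_re] at this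
    have h3 : |(1 / 2 : ℝ) - 1| = 1 / 2 := by norm_num [abs_of_neg]
    (clear * - this; linarith)
  have h3 : ‖s‖ ≤ 1 + |u| := by
    refine (Complex.norm_le_abs_re_add_abs_im s).trans ?_
    rw [hsre, hsim, abs_of_pos (by norm_num)]
    (clear * -; linarith)
  have h4 : (1 + ‖s‖) ^ 2 ≤ (2 + |u|) ^ 2 := by
    apply pow_le_pow_left₀ (by (clear * -; positivity))
    (clear * - h3; linarith)
  have h5 := norm_nonneg (riemannZeta s)
  have h6 : CE * (1 + ‖s‖) ^ 2 ≤ CE * (2 + |u|) ^ 2 := mul_le_mul_of_nonneg_left h4 hCE0.le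
  (clear * - h1 h6 h2 h5; nlinarith)

theorem zeta_half_cont : Continuous (fun u : ℝ => riemannZeta (1 / 2 + (u : ℂ) * Complex.I)) := by
  rw [continuous_iff_continuousAt]
  intro u
  have h1 : (1 / 2 + (u : ℂ) * Complex.I) ≠ 1 := by
    intro h
    have := congrArg Complex.re h
    simp at this
  exact ContinuousAt.comp (f := fun u : ℝ => 1 / 2 + (u : ℂ) * Complex.I)
    (differentiableAt_riemannZeta h1).continuousAt (by fun_prop)

/-- powers of zeta are integrable against a Gaussian -/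
theorem zeta_pow_int {a : ℝ} (ha : 0 < a) {k : ℕ} (hk : k ≤ 4) (γ : ℝ) :
    Integrable (fun u : ℝ => ‖riemannZeta (1 / 2 + ((γ + u : ℝ) : ℂ) * Complex.I)‖ ^ k *
      Real.exp (-a * u ^ 2)) := by
  obtain ⟨C, hC, hC1⟩ := zeta_half_le
  have h1 : Integrable (fun u : ℝ => u ^ (8 : ℝ) * Real.exp (-a * u ^ 2)) :=
    integrable_rpow_mul_exp_neg_mul_sq ha (by norm_num)
  have h2 : Integrable (fun u : ℝ => Real.exp (-a * u ^ 2)) := integrable_exp_neg_mul_sq ha
  refine (((h2.const_mul (2 ^ 7 * (2 + |γ|) ^ 8)).add (h1.const_mul (2 ^ 7))).const_mul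
    ((1 + C) ^ 4)).mono' ?_ (Eventually.of_forall fun u => ?_)
  · refine Continuous.aestronglyMeasurable ?_
    exact ((zeta_half_cont.comp (by fun_prop : Continuous fun u : ℝ => γ + u)).norm.pow k).mul (by fun_prop)
  · rw [Real.norm_of_nonneg (by positivity)]
    have e1 : u ^ (8 : ℝ) = u ^ 8 := by
      rw [show (8 : ℝ) = ((8 : ℕ) : ℝ) by norm_num, Real.rpow_natCast]
    have hu8 : u ^ 8 = |u| ^ 8 := by
      rw [show u ^ 8 = (u ^ 2) ^ 4 by ring, show |u| ^ 8 = (|u| ^ 2) ^ 4 by ring, sq_abs]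
    have hγ := abs_nonneg γ
    have hu := abs_nonneg u
    have h3 : ‖riemannZeta (1 / 2 + ((γ + u : ℝ) : ℂ) * Complex.I)‖ ≤ (1 + C) * (2 + |γ| + |u|) ^ 2 := by
      refine (hC1 (γ + u)).trans ?_
      have h4 : (2 + |γ + u|) ^ 2 ≤ (2 + |γ| + |u|) ^ 2 := by
        apply pow_le_pow_left₀ (by (clear * -; positivity))
        (clear * -; linarith [abs_add_le γ u])
      have h5 : (0 : ℝ) ≤ (2 + |γ| + |u|) ^ 2 := by (clear * -; positivity)
      exact mul_le_mul (le_add_of_nonneg_left zero_le_one) h4 (sq_nonneg _)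
        (add_nonneg zero_le_one hC.le)
    have h4 : 1 ≤ (1 + C) * (2 + |γ| + |u|) ^ 2 :=
      one_le_mul_of_one_le_of_one_le (le_add_of_nonneg_right hC.le)
        (one_le_pow₀ (by (clear * - hγ hu; linarith)))
    have h5 : ‖riemannZeta (1 / 2 + ((γ + u : ℝ) : ℂ) * Complex.I)‖ ^ k ≤
        (1 + C) ^ 4 * (2 + |γ| + |u|) ^ 8 := by
      calc ‖riemannZeta (1 / 2 + ((γ + u : ℝ) : ℂ) * Complex.I)‖ ^ k
          ≤ ((1 + C) * (2 + |γ| + |u|) ^ 2) ^ k := pow_le_pow_left₀ (norm_nonneg _) h3 k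
        _ ≤ ((1 + C) * (2 + |γ| + |u|) ^ 2) ^ 4 := pow_le_pow_right₀ h4 hk
        _ = (1 + C) ^ 4 * (2 + |γ| + |u|) ^ 8 := by rw [mul_pow, ← pow_mul]
    have h6 : (2 + |γ| + |u|) ^ 8 ≤ 2 ^ 7 * ((2 + |γ|) ^ 8 + u ^ 8) := by
      rw [hu8]
      exact add_pow_le (by positivity) hu 8
    show _ ≤ (1 + C) ^ 4 * ((2 ^ 7 * (2 + |γ|) ^ 8) * Real.exp (-a * u ^ 2) +
      2 ^ 7 * (u ^ (8 : ℝ) * Real.exp (-a * u ^ 2)))
    rw [e1]
    have h7 := Real.exp_pos (-a * u ^ 2)
    have h8 : (0 : ℝ) ≤ (1 + C) ^ 4 := pow_nonneg (add_nonneg zero_le_one hC.le) 4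
    refine (mul_le_mul_of_nonneg_right (h5.trans (mul_le_mul_of_nonneg_left h6 h8)) h7.le).trans
      (le_of_eq ?_)
    generalize Real.exp (-a * u ^ 2) = E
    generalize (1 + C) ^ 4 = E1
    generalize (2 + |γ|) ^ 8 = E2
    ring

/-- the smoothed mollified sum at a zero, in terms of zeta on the critical line -/
theorem mellin_int {ρ : ℂ} (hρ : riemannZeta ρ = 0) (hρ1 : 1 / 2 < ρ.re) (hρ2 : ρ.re ≤ 1)
    (hγ : 1 ≤ |ρ.im|) {V : ℝ} (hV : 0 ≤ V) (D : ℕ) :
    ‖∑ d ∈ Icc 1 D, (ArithmeticFunction.moebius d : ℂ) * (d : ℂ) ^ (-ρ) * In ρ V d‖ ≤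
      D * Real.exp (1 - (ρ.re - 1 / 2) * V) / (ρ.re - 1 / 2) *
        (∫ t : ℝ, ‖riemannZeta (1 / 2 + ((ρ.im + t : ℝ) : ℂ) * Complex.I)‖ * Real.exp (-1 * t ^ 2)) +
        300 * (D * Real.exp (V - ρ.im ^ 2)) := by
  have hβ : 0 < ρ.re - 1 / 2 := by (clear * - hρ1; linarith)
  have hi := zeta_pow_int one_pos (show 1 ≤ 4 by norm_num) ρ.im
  simp only [pow_one] at hi
  have e0 : ((1 / 2 : ℝ) : ℂ) = 1 / 2 := by push_cast; rfl
  have hcore := mellin_core (s0 := 1 / 2) (by norm_num) le_rfl hρ hρ1 hρ2 hγ hV D hi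
    (fun t => le_of_eq (by rw [e0]))
  have hIz0 : 0 ≤ ∫ t : ℝ, ‖riemannZeta (1 / 2 + ((ρ.im + t : ℝ) : ℂ) * Complex.I)‖ *
    Real.exp (-1 * t ^ 2) := integral_nonneg fun t => mul_nonneg (norm_nonneg _) (Real.exp_pos _).le
  have hB0 : 0 ≤ (D : ℝ) * Real.exp (1 - (ρ.re - 1 / 2) * V) / (ρ.re - 1 / 2) :=
    div_nonneg (mul_nonneg (Nat.cast_nonneg D) (Real.exp_pos _).le) hβ.le
  have h3 : 0 ≤ (D : ℝ) * Real.exp (V - ρ.im ^ 2) :=
    mul_nonneg (Nat.cast_nonneg D) (Real.exp_pos _).le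
  have h4 := mul_nonneg hB0 hIz0
  have hpi3 := Real.pi_gt_three
  refine le_of_mul_le_mul_left ?_ (by (clear * -; positivity) : (0 : ℝ) < 2 * Real.pi)
  refine hcore.trans ?_
  generalize (D : ℝ) * Real.exp (1 - (ρ.re - 1 / 2) * V) / (ρ.re - 1 / 2) *
    (∫ t : ℝ, ‖riemannZeta (1 / 2 + ((ρ.im + t : ℝ) : ℂ) * Complex.I)‖ *
    Real.exp (-1 * t ^ 2)) = Y at h4 ⊢
  generalize (D : ℝ) * Real.exp (V - ρ.im ^ 2) = X at h3 ⊢
  (clear * - hpi3 h3 h4; linarith [mul_nonneg (sub_nonneg.2 hpi3.le) h3, mul_nonneg (sub_nonneg.2 hpi3.le) h4])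

end Pool.Agent.M20.Helper26.KC
end

/- Helper53.KN.Helper26.KC.F5 -/
section
/-!
# KS, fourth moment, part 5: few class II zeros
-/

set_option autoImplicit false
set_option linter.all false
open MeasureTheory Filter Topology Finset

namespace Pool.Agent.M20.Helper26.KC

open Pool.Agent.M20.Helper60.KS (DP Spaced1)

/-- Gaussian sum over spaced points -/
theorem gsum {Z : Finset ℂ} (hZ : Spaced1 Z) (u : ℝ) :
    ∑ ρ ∈ Z, Real.exp (-(u - ρ.im) ^ 2 / 2) ≤ 6 := by
  have hint : Integrable (fun y : ℝ => Real.exp (-(1 / 4) * (y - u) ^ 2)) :=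
    (integrable_exp_neg_mul_sq (b := 1 / 4) (by norm_num)).comp_sub_right u
  have hterm : ∀ ρ ∈ Z, Real.exp (-(u - ρ.im) ^ 2 / 2) ≤
      (5 / 4) * ∫ y in Set.Ioo (ρ.im - 1 / 2) (ρ.im + 1 / 2), Real.exp (-(1 / 4) * (y - u) ^ 2) := by
    intro ρ _
    have h1 : ∀ y ∈ Set.Ioo (ρ.im - 1 / 2) (ρ.im + 1 / 2),
        (4 / 5) * Real.exp (-(u - ρ.im) ^ 2 / 2) ≤ Real.exp (-(1 / 4) * (y - u) ^ 2) := by
      intro y hy
      have h2 : (y - ρ.im) ^ 2 ≤ 1 / 4 := by
        have h3 : |y - ρ.im| ≤ 1 / 2 := by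
          have a := hy.1
          have b := hy.2
          exact abs_sub_le_iff.2 ⟨by (clear * - b; linarith), by (clear * - a; linarith)⟩
        have := pow_le_pow_left₀ (abs_nonneg _) h3 2
        rw [sq_abs] at this
        (clear * - this; linarith)
      have h3 : -(u - ρ.im) ^ 2 / 2 - 1 / 8 ≤ -(1 / 4) * (y - u) ^ 2 := by
        (clear * - h2; linarith [sq_nonneg ((y - ρ.im) + (u - ρ.im))])
      have h4 : (4 / 5 : ℝ) ≤ Real.exp (-(1 / 8)) := by
        have := Real.add_one_le_exp (-(1 / 8) : ℝ)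
        (clear * - this; linarith)
      calc (4 / 5) * Real.exp (-(u - ρ.im) ^ 2 / 2)
          ≤ Real.exp (-(1 / 8)) * Real.exp (-(u - ρ.im) ^ 2 / 2) :=
            mul_le_mul_of_nonneg_right h4 (Real.exp_pos _).le
        _ = Real.exp (-(u - ρ.im) ^ 2 / 2 - 1 / 8) := by
            rw [← Real.exp_add]; congr 1; ring
        _ ≤ _ := Real.exp_le_exp.mpr h3
    have h2 : ∫ _y in Set.Ioo (ρ.im - 1 / 2) (ρ.im + 1 / 2), (4 / 5) * Real.exp (-(u - ρ.im) ^ 2 / 2) ≤
        ∫ y in Set.Ioo (ρ.im - 1 / 2) (ρ.im + 1 / 2), Real.exp (-(1 / 4) * (y - u) ^ 2) := by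
      refine setIntegral_mono_on ?_ hint.integrableOn measurableSet_Ioo h1
      exact integrableOn_const measure_Ioo_lt_top.ne enorm_ne_top
    rw [setIntegral_const, measureReal_def, Real.volume_Ioo] at h2
    rw [show ρ.im + 1 / 2 - (ρ.im - 1 / 2) = 1 by ring, ENNReal.toReal_ofReal zero_le_one, one_smul] at h2
    (clear * - h2; linarith)
  have hdisj : (Z : Set ℂ).Pairwise (Function.onFun Disjoint
      (fun ρ : ℂ => Set.Ioo (ρ.im - 1 / 2) (ρ.im + 1 / 2))) := by
    intro ρ hρ ρ' hρ' hne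
    have h1 := hZ ρ hρ ρ' hρ' hne
    rw [Function.onFun, Set.disjoint_left]
    intro y hy hy'
    have h2 : |ρ.im - ρ'.im| < 1 := by
      have a := hy.1
      have b := hy.2
      have a' := hy'.1
      have b' := hy'.2
      exact abs_sub_lt_iff.2 ⟨by (clear * - a b'; linarith), by (clear * - a' b; linarith)⟩
    exact absurd h2 (not_lt.2 h1)
  have hsum : ∑ ρ ∈ Z, ∫ y in Set.Ioo (ρ.im - 1 / 2) (ρ.im + 1 / 2), Real.exp (-(1 / 4) * (y - u) ^ 2) =
      ∫ y in ⋃ ρ ∈ Z, Set.Ioo (ρ.im - 1 / 2) (ρ.im + 1 / 2), Real.exp (-(1 / 4) * (y - u) ^ 2) := by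
    rw [integral_biUnion_finset Z (fun ρ _ => measurableSet_Ioo) hdisj (fun ρ _ => hint.integrableOn)]
  have hle : ∫ y in ⋃ ρ ∈ Z, Set.Ioo (ρ.im - 1 / 2) (ρ.im + 1 / 2), Real.exp (-(1 / 4) * (y - u) ^ 2) ≤
      ∫ y, Real.exp (-(1 / 4) * (y - u) ^ 2) :=
    setIntegral_le_integral hint (Eventually.of_forall fun y => (Real.exp_pos _).le)
  have htot : ∫ y, Real.exp (-(1 / 4) * (y - u) ^ 2) ≤ 4 := by
    rw [integral_sub_right_eq_self (fun y : ℝ => Real.exp (-(1 / 4) * y ^ 2)) u, integral_gaussian,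
      Real.sqrt_le_left (by norm_num)]
    have := Real.pi_lt_d2
    rw [div_le_iff₀ (by norm_num)]
    (clear * - this; linarith)
  calc ∑ ρ ∈ Z, Real.exp (-(u - ρ.im) ^ 2 / 2)
      ≤ ∑ ρ ∈ Z, (5 / 4) * ∫ y in Set.Ioo (ρ.im - 1 / 2) (ρ.im + 1 / 2),
          Real.exp (-(1 / 4) * (y - u) ^ 2) := Finset.sum_le_sum hterm
    _ = (5 / 4) * ∑ ρ ∈ Z, ∫ y in Set.Ioo (ρ.im - 1 / 2) (ρ.im + 1 / 2),
          Real.exp (-(1 / 4) * (y - u) ^ 2) := by rw [Finset.mul_sum]
    _ ≤ (5 / 4) * 4 := by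
        rw [hsum]; exact mul_le_mul_of_nonneg_left (hle.trans htot) (by norm_num)
    _ ≤ 6 := by norm_num

/-- power mean without Hölder -/
theorem power_mean {z : ℝ → ℝ} (hz : ∀ t, 0 ≤ z t)
    (h1 : Integrable (fun t : ℝ => z t * Real.exp (-1 * t ^ 2)))
    (h4 : Integrable (fun t : ℝ => z t ^ 4 * Real.exp (-1 * t ^ 2))) {B : ℝ} (hB : 0 < B)
    (hI : B ≤ ∫ t : ℝ, z t * Real.exp (-1 * t ^ 2)) :
    B ^ 4 / 16 ≤ ∫ t : ℝ, z t ^ 4 * Real.exp (-1 * t ^ 2) := by
  have hg : Integrable (fun t : ℝ => Real.exp (-1 * t ^ 2)) := integrable_exp_neg_mul_sq one_pos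
  -- z ≤ z^4/(4 a^3) + 3a/4 with a = B/3
  have hpt : ∀ t : ℝ, z t * Real.exp (-1 * t ^ 2) ≤
      (27 / (4 * B ^ 3)) * (z t ^ 4 * Real.exp (-1 * t ^ 2)) + (B / 4) * Real.exp (-1 * t ^ 2) := by
    intro t
    have he := Real.exp_pos (-1 * t ^ 2)
    have h2 : z t ≤ (27 / (4 * B ^ 3)) * z t ^ 4 + B / 4 := by
      set y : ℝ := z t / B with hy
      have hzy : z t = y * B := (div_mul_cancel₀ _ hB.ne').symm
      have hy0 : 0 ≤ y := by rw [hy]; exact div_nonneg (hz t) hB.le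
      rw [hzy]
      have h3 : (27 / (4 * B ^ 3)) * (y * B) ^ 4 + B / 4 = B * (27 / 4 * y ^ 4 + 1 / 4) := by
        calc (27 / (4 * B ^ 3)) * (y * B) ^ 4 + B / 4 =
            27 / 4 * y ^ 4 * B * (B ^ 3 * (B ^ 3)⁻¹) + B / 4 := by ring
          _ = _ := by rw [mul_inv_cancel₀ (pow_pos hB 3).ne']; ring
      rw [h3]
      have h4 : y ≤ 27 / 4 * y ^ 4 + 1 / 4 := by
        have h5 : 0 ≤ (3 * y - 1) ^ 2 * (3 * y ^ 2 + 2 * y + 1) :=
          mul_nonneg (sq_nonneg _) (by (clear * - hy0; positivity))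
        (clear * - h5; linarith)
      rw [mul_comm]
      exact mul_le_mul_of_nonneg_left h4 hB.le
    exact (mul_le_mul_of_nonneg_right h2 he.le).trans_eq (by ring)
  have h2 := integral_mono h1 ((h4.const_mul (27 / (4 * B ^ 3))).add (hg.const_mul (B / 4))) hpt
  have h3 : ∫ t : ℝ, ((27 / (4 * B ^ 3)) * (z t ^ 4 * Real.exp (-1 * t ^ 2)) +
      (B / 4) * Real.exp (-1 * t ^ 2)) = (27 / (4 * B ^ 3)) * (∫ t : ℝ, z t ^ 4 * Real.exp (-1 * t ^ 2)) +
      (B / 4) * Real.sqrt Real.pi := by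
    rw [integral_add (h4.const_mul _) (hg.const_mul _), integral_const_mul, integral_const_mul,
      integral_gaussian, div_one]
  have h5 : Real.sqrt Real.pi ≤ 1.8 := by
    rw [Real.sqrt_le_left (by norm_num)]
    have := Real.pi_lt_d2
    norm_num
    (clear * - this; linarith)
  change _ ≤ ∫ t : ℝ, ((27 / (4 * B ^ 3)) * (z t ^ 4 * Real.exp (-1 * t ^ 2)) +
      (B / 4) * Real.exp (-1 * t ^ 2)) at h2
  rw [h3] at h2
  have h6 : B / 2 ≤ (27 / (4 * B ^ 3)) * ∫ t : ℝ, z t ^ 4 * Real.exp (-1 * t ^ 2) := by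
    have h6 := hI.trans h2
    have h7 := mul_le_mul_of_nonneg_left h5 (div_pos hB four_pos).le
    generalize (27 / (4 * B ^ 3)) * ∫ t : ℝ, z t ^ 4 * Real.exp (-1 * t ^ 2) = w at h6 ⊢
    (clear * - hB h6 h7; linarith)
  have h7 : (27 / (4 * B ^ 3)) * (∫ t : ℝ, z t ^ 4 * Real.exp (-1 * t ^ 2)) =
      (27 * ∫ t : ℝ, z t ^ 4 * Real.exp (-1 * t ^ 2)) / (4 * B ^ 3) := by ring
  rw [h7, le_div_iff₀ (by positivity)] at h6
  have h8 : B / 2 * (4 * B ^ 3) = 2 * B ^ 4 := by ring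
  rw [h8] at h6
  have h9 : 0 ≤ B ^ 4 := by positivity
  (clear * - h6 h9; linarith)

/-- spaced points with a large local mean of zeta on the critical line are few -/
theorem few_large (hFM : FourthMoment) {ε : ℝ} (hε : 0 < ε) : ∃ C : ℝ, 0 < C ∧
    ∀ (Z : Finset ℂ) (T B : ℝ), 1 ≤ T → 0 < B → Spaced1 Z → (∀ ρ ∈ Z, |ρ.im| ≤ T) →
    (∀ ρ ∈ Z, B ≤ ∫ t : ℝ, ‖riemannZeta (1 / 2 + ((ρ.im + t : ℝ) : ℂ) * Complex.I)‖ *
      Real.exp (-1 * t ^ 2)) → (Z.card : ℝ) * B ^ 4 ≤ C * T ^ (1 + ε) := by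
  obtain ⟨C, hC, hC1⟩ := hFM ε hε
  refine ⟨16 * 12 * C * 2 ^ (1 + ε), by positivity, ?_⟩
  intro Z T B hT hB hZ hZT hZB
  set h : ℝ → ℝ := fun u => ‖riemannZeta (1 / 2 + (u : ℂ) * Complex.I)‖ ^ 4 with hh
  have hh0 : ∀ u, 0 ≤ h u := fun u => by simp only [hh]; positivity
  have hshift : ∀ ρ ∈ Z, B ^ 4 / 16 ≤ ∫ u : ℝ, h u * Real.exp (-1 * (u - ρ.im) ^ 2) := by
    intro ρ hρ
    have h1 := power_mean (z := fun t : ℝ => ‖riemannZeta (1 / 2 + ((ρ.im + t : ℝ) : ℂ) * Complex.I)‖)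
      (fun t => norm_nonneg _)
      (by have := zeta_pow_int one_pos (show 1 ≤ 4 by norm_num) ρ.im
          simpa only [pow_one] using this)
      (zeta_pow_int one_pos le_rfl ρ.im) hB (hZB ρ hρ)
    refine h1.trans (le_of_eq ?_)
    rw [← integral_add_left_eq_self (fun u : ℝ => h u * Real.exp (-1 * (u - ρ.im) ^ 2)) ρ.im]
    apply integral_congr_ae
    refine Eventually.of_forall fun t => ?_
    simp only [hh, add_sub_cancel_left]
  have hTpos : 0 < T := by (clear * - hT; linarith)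
  have hmaj : Integrable (fun u : ℝ => h u * Real.exp (-(u / (2 * T)) ^ 2)) := by
    have h1 := zeta_pow_int (a := 1 / (2 * T) ^ 2) (by positivity) (le_refl 4) 0
    refine h1.congr (Eventually.of_forall fun u => ?_)
    simp only [hh, zero_add]
    congr 2
    field_simp
  have hpt : ∀ u : ℝ, ∑ ρ ∈ Z, h u * Real.exp (-1 * (u - ρ.im) ^ 2) ≤
      12 * (h u * Real.exp (-(u / (2 * T)) ^ 2)) := by
    intro u
    have h1 : ∀ ρ ∈ Z, h u * Real.exp (-1 * (u - ρ.im) ^ 2) ≤
        (2 * (h u * Real.exp (-(u / (2 * T)) ^ 2))) * Real.exp (-(u - ρ.im) ^ 2 / 2) := by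
      intro ρ hρ
      have h2 : -1 * (u - ρ.im) ^ 2 ≤ 1 / 2 + -(u / (2 * T)) ^ 2 + -(u - ρ.im) ^ 2 / 2 := by
        have h3 : (u / (2 * T)) ^ 2 = u ^ 2 / (4 * T ^ 2) := by ring
        have h4 : u ^ 2 ≤ 2 * T ^ 2 + 2 * (u - ρ.im) ^ 2 * T ^ 2 := by
          have h5 : ρ.im ^ 2 ≤ T ^ 2 := by
            have := pow_le_pow_left₀ (abs_nonneg _) (hZT ρ hρ) 2
            rwa [sq_abs] at this
          have h6 : u ^ 2 ≤ 2 * ρ.im ^ 2 + 2 * (u - ρ.im) ^ 2 := by
            (clear * -; linarith [sq_nonneg (ρ.im - (u - ρ.im))])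
          have h7 : (u - ρ.im) ^ 2 ≤ (u - ρ.im) ^ 2 * T ^ 2 := by
            have : 1 ≤ T ^ 2 := one_le_pow₀ hT
            exact le_mul_of_one_le_right (sq_nonneg _) this
          (clear * - h5 h6 h7; linarith)
        have h5 : u ^ 2 / (4 * T ^ 2) ≤ 1 / 2 + (u - ρ.im) ^ 2 / 2 := by
          rw [div_le_iff₀ (by positivity)]
          (clear * - h4; linarith)
        rw [h3]
        (clear * - h5; linarith)
      have h3 : Real.exp (-1 * (u - ρ.im) ^ 2) ≤
          2 * Real.exp (-(u / (2 * T)) ^ 2) * Real.exp (-(u - ρ.im) ^ 2 / 2) := by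
        calc Real.exp (-1 * (u - ρ.im) ^ 2)
            ≤ Real.exp (1 / 2 + -(u / (2 * T)) ^ 2 + -(u - ρ.im) ^ 2 / 2) := Real.exp_le_exp.mpr h2
          _ = Real.exp (1 / 2) * Real.exp (-(u / (2 * T)) ^ 2) * Real.exp (-(u - ρ.im) ^ 2 / 2) := by
              rw [Real.exp_add, Real.exp_add]
          _ ≤ 2 * Real.exp (-(u / (2 * T)) ^ 2) * Real.exp (-(u - ρ.im) ^ 2 / 2) := by
              have h4 : Real.exp (1 / 2) ≤ 2 := by
                have h5 : (1 / 2 : ℝ) ≤ Real.log 2 := by (clear * -; linarith [Real.log_two_gt_d9])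
                calc Real.exp (1 / 2) ≤ Real.exp (Real.log 2) := Real.exp_le_exp.mpr h5
                  _ = 2 := Real.exp_log (by norm_num)
              exact mul_le_mul_of_nonneg_right (mul_le_mul_of_nonneg_right h4 (Real.exp_pos _).le)
                (Real.exp_pos _).le
      have h4 := hh0 u
      calc h u * Real.exp (-1 * (u - ρ.im) ^ 2)
          ≤ h u * (2 * Real.exp (-(u / (2 * T)) ^ 2) * Real.exp (-(u - ρ.im) ^ 2 / 2)) :=
            mul_le_mul_of_nonneg_left h3 h4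
        _ = _ := by ring
    have h2 := hh0 u
    have h3 : 0 ≤ 2 * (h u * Real.exp (-(u / (2 * T)) ^ 2)) := by positivity
    calc ∑ ρ ∈ Z, h u * Real.exp (-1 * (u - ρ.im) ^ 2)
        ≤ ∑ ρ ∈ Z, (2 * (h u * Real.exp (-(u / (2 * T)) ^ 2))) * Real.exp (-(u - ρ.im) ^ 2 / 2) :=
          Finset.sum_le_sum h1
      _ = (2 * (h u * Real.exp (-(u / (2 * T)) ^ 2))) * ∑ ρ ∈ Z, Real.exp (-(u - ρ.im) ^ 2 / 2) := by
          rw [Finset.mul_sum]
      _ ≤ (2 * (h u * Real.exp (-(u / (2 * T)) ^ 2))) * 6 := by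
          exact mul_le_mul_of_nonneg_left (gsum hZ u) h3
      _ = _ := by ring
  have hiρ : ∀ ρ ∈ Z, Integrable (fun u : ℝ => h u * Real.exp (-1 * (u - ρ.im) ^ 2)) := by
    intro ρ _
    have h1 := (zeta_pow_int one_pos (le_refl 4) ρ.im).comp_sub_right ρ.im
    refine h1.congr (Eventually.of_forall fun u => ?_)
    simp only [hh, add_sub_cancel]
  have hsumI : ∑ ρ ∈ Z, ∫ u : ℝ, h u * Real.exp (-1 * (u - ρ.im) ^ 2) ≤
      12 * ∫ u : ℝ, h u * Real.exp (-(u / (2 * T)) ^ 2) := by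
    rw [← integral_finsetSum _ hiρ, ← integral_const_mul]
    exact integral_mono (integrable_finsetSum _ hiρ) (hmaj.const_mul _) hpt
  have hfm := hC1 (2 * T) (by (clear * - hT; linarith))
  have h1 : (Z.card : ℝ) * (B ^ 4 / 16) ≤ ∑ ρ ∈ Z, ∫ u : ℝ, h u * Real.exp (-1 * (u - ρ.im) ^ 2) := by
    have := Finset.card_nsmul_le_sum Z _ _ hshift
    rwa [nsmul_eq_mul] at this
  have h2 : ∫ u : ℝ, h u * Real.exp (-(u / (2 * T)) ^ 2) ≤ C * (2 * T) ^ (1 + ε) := by
    refine le_trans (le_of_eq ?_) hfm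
    apply integral_congr_ae
    refine Eventually.of_forall fun u => ?_
    simp only [hh]
    ring
  rw [Real.mul_rpow (by norm_num) hTpos.le] at h2
  have h3 : (Z.card : ℝ) * (B ^ 4 / 16) ≤ 12 * (C * (2 ^ (1 + ε) * T ^ (1 + ε))) :=
    h1.trans (hsumI.trans (mul_le_mul_of_nonneg_left h2 (by norm_num)))
  calc (Z.card : ℝ) * B ^ 4 = 16 * ((Z.card : ℝ) * (B ^ 4 / 16)) := by ring
    _ ≤ 16 * (12 * (C * (2 ^ (1 + ε) * T ^ (1 + ε)))) :=
        mul_le_mul_of_nonneg_left h3 (by norm_num)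
    _ = _ := by ring

end Pool.Agent.M20.Helper26.KC
end

/- Helper53.KN.Helper26.KC.StDens -/
section
/-!
# Project KS: Huxley's density theorem (statements)
-/

set_option autoImplicit false
open MeasureTheory Filter Topology Finset

namespace Pool.Agent.M20.Helper26.KC

open Pool.Agent.M20.Helper60.KS (DP Spaced1 mz)

/-- detection at the length `T^(1/2)` with few exceptions, for `x ≤ 0.45` -/
def DetectFM45 : Prop := ∀ τ δ d : ℝ, 1 / 10 ≤ τ → τ ≤ 1 → 0 < δ → δ ≤ 1 / 1000 → 0 < d → d ≤ δ →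
  ∃ X0 : ℝ, ∀ X x : ℝ, X0 ≤ X → 0 < x → x ≤ 0.45 → ∃ g : ℕ → ℂ, (∀ n, ‖g n‖ ≤ (n.divisors.card : ℝ)) ∧
  ∀ Z : Finset ℂ, Spaced1 Z → (∀ ρ ∈ Z, riemannZeta ρ = 0 ∧ 1 - x ≤ ρ.re ∧ Real.log X ^ 2 ≤ |ρ.im| ∧
    |ρ.im| ≤ X ^ (τ + 2 * d) + 1 ∧ ¬ ∃ i : ℕ, X ^ δ / 2 ≤ (2 : ℝ) ^ i ∧ (2 : ℝ) ^ i ≤ X ^ (τ / 2 + 45 * δ) ∧
      1 / (16 * Real.log X) ≤ ‖DP g (2 ^ i) 2 ρ‖) →
  (Z.card : ℝ) ≤ X ^ (2 * x * τ + 60 * δ)

/-- Huxley's density theorem for spaced zeros, `0.55 ≤ σ = 1 - x` -/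
def DensS : Prop := ∀ ε : ℝ, 0 < ε → ∃ T0 : ℝ, ∀ T x : ℝ, T0 ≤ T → 0 < x → x ≤ 0.45 →
  ∀ Z : Finset ℂ, Spaced1 Z →
  (∀ ρ ∈ Z, riemannZeta ρ = 0 ∧ 1 - x ≤ ρ.re ∧ Real.log T ^ 2 ≤ |ρ.im| ∧ |ρ.im| ≤ T) →
  (Z.card : ℝ) ≤ T ^ (2.4 * x + ε)

end Pool.Agent.M20.Helper26.KC
end

/- Helper53.KN.Helper26.KC.F8 -/
section
/-!
# KS, fourth moment, part 8: detection at the length `T^(1/2)` with few exceptions, `x ≤ 0.45`
-/

set_option autoImplicit false
set_option linter.all false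
open MeasureTheory Filter Topology Finset

namespace Pool.Agent.M20.Helper26.KC

open Pool.Agent.M20.Helper60.KS (DP Spaced1)

/-- a zero that is not detected has a large local mean of zeta on the critical line -/
theorem undetected45 {τ δ : ℝ} (hτ1 : 1 / 10 ≤ τ) (hτ2 : τ ≤ 1) (hδ : 0 < δ) (hδ' : δ ≤ 1 / 1000) :
    ∃ L0 : ℝ, ∀ L : ℝ, L0 ≤ L → ∀ x : ℝ, 0 < x → x ≤ 0.45 →
    ∃ g : ℕ → ℂ, (∀ n, ‖g n‖ ≤ (n.divisors.card : ℝ)) ∧
    ∀ ρ : ℂ, riemannZeta ρ = 0 → 1 - x ≤ ρ.re → L ^ 2 ≤ |ρ.im| →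
    (¬ ∃ i : ℕ, Real.exp (δ * L) / 2 ≤ (2 : ℝ) ^ i ∧ (2 : ℝ) ^ i ≤ Real.exp ((τ / 2 + 45 * δ) * L) ∧
      1 / (16 * L) ≤ ‖DP g (2 ^ i) 2 ρ‖) →
    Real.exp ((1 / 2 - x) * ((τ / 2 + 40 * δ) * L) - δ * L) / 200 ≤
      ∫ t : ℝ, ‖riemannZeta (1 / 2 + ((ρ.im + t : ℝ) : ℂ) * Complex.I)‖ * Real.exp (-1 * t ^ 2) := by
  set K : ℝ := 2 + 4 / δ with hK
  have hK2 : 2 ≤ K := by
    have : 0 < 4 / δ := by positivity
    (clear * - this; linarith)
  refine ⟨max 10 (max (2 * (K ^ 2 + 8)) (1 / δ)), ?_⟩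
  intro L hL x hx hx'
  have hL1 : 10 ≤ L := (le_max_left _ _).trans hL
  have hL3 : 2 * (K ^ 2 + 8) ≤ L := (le_max_left _ _).trans ((le_max_right _ _).trans hL)
  have hL4 : 1 ≤ δ * L := by
    have : 1 / δ ≤ L := (le_max_right _ _).trans ((le_max_right _ _).trans hL)
    rw [div_le_iff₀ hδ] at this
    (clear * - this; linarith)
  set V : ℝ := (τ / 2 + 40 * δ) * L with hV
  have hL0 : 0 ≤ L := by (clear * - hδ hδ' hL1; linarith)
  have hV0 : 0 ≤ V := by rw [hV]; positivity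
  have hV1 : 40 * (δ * L) ≤ V := by
    rw [hV]
    have : 0 ≤ τ / 2 * L := by positivity
    (clear * - this; linarith)
  have hVL : V ≤ 0.6 * L := by
    rw [hV]
    apply mul_le_mul_of_nonneg_right _ hL0
    (clear * - hτ2 hδ hδ'; linarith)
  set D : ℕ := ⌊Real.exp (δ * L)⌋₊ with hD
  have hD1 : 1 ≤ D := by
    rw [hD, Nat.one_le_floor_iff]
    exact Real.one_le_exp (by positivity)
  have hDle : (D : ℝ) ≤ Real.exp (δ * L) := Nat.floor_le (Real.exp_pos _).le
  set g : ℕ → ℂ := fun n => an D n * (Phi (V - Real.log n) : ℂ) with hg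
  refine ⟨g, ?_, ?_⟩
  · intro n
    simp only [hg]
    rw [norm_mul, Complex.norm_real, Real.norm_of_nonneg (Phi_nonneg _)]
    have h1 := an_norm_le D n
    have h2 := Phi_le_one (V - Real.log n)
    have h3 := Phi_nonneg (V - Real.log n)
    have h4 := norm_nonneg (an D n)
    exact (mul_le_of_le_one_right h4 h2).trans h1
  intro ρ hρ hβ hγ1 hnot
  push Not at hnot
  have hβ1 : ρ.re ≤ 1 := by
    by_contra h
    push Not at h
    exact riemannZeta_ne_zero_of_one_le_re h.le hρ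
  have hρs0 : 1 / 2 < ρ.re := by (clear * - hδ hδ' hx' hβ; linarith)
  have hρ0 : 0 ≤ ρ.re := by (clear * - hδ hδ' hx' hβ; linarith)
  have hL100 : 100 ≤ L ^ 2 :=
    (by norm_num : (100 : ℝ) ≤ 10 ^ 2).trans (pow_le_pow_left₀ (by norm_num) hL1 2)
  have hγge : 1 ≤ |ρ.im| := by (clear * - hδ hδ' hγ1 hL100; linarith)
  have hmel := mellin_int hρ hρs0 hβ1 hγge hV0 D
  set Iz : ℝ := ∫ t : ℝ, ‖riemannZeta (1 / 2 + ((ρ.im + t : ℝ) : ℂ) * Complex.I)‖ *
    Real.exp (-1 * t ^ 2) with hIz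
  have hIz0 : 0 ≤ Iz := integral_nonneg fun t => by positivity
  have hB2 : 300 * (D * Real.exp (V - ρ.im ^ 2)) ≤ 1 / 16 := by
    have h1 : (L ^ 2) ^ 2 ≤ ρ.im ^ 2 := by
      have := pow_le_pow_left₀ (by positivity) hγ1 2
      rwa [sq_abs] at this
    have h2 : 100 * L ≤ (L ^ 2) ^ 2 := by
      rw [sq (L ^ 2)]
      exact mul_le_mul hL100 (le_self_pow₀ (by (clear * - hL1; linarith)) two_ne_zero) hL0
        (sq_nonneg L)
    have h3 : (D : ℝ) * Real.exp (V - ρ.im ^ 2) ≤ Real.exp (-(98 * L)) := by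
      calc (D : ℝ) * Real.exp (V - ρ.im ^ 2) ≤ Real.exp (δ * L) * Real.exp (V - ρ.im ^ 2) :=
            mul_le_mul_of_nonneg_right hDle (Real.exp_pos _).le
        _ = Real.exp (δ * L + (V - ρ.im ^ 2)) := (Real.exp_add _ _).symm
        _ ≤ _ := Real.exp_le_exp.mpr (by (clear * - hL0 hV1 hVL h1 h2; linarith))
    have h4 : Real.exp (-(98 * L)) ≤ 1 / 4800 := by
      rw [Real.exp_neg, ← one_div, div_le_div_iff_of_pos_left one_pos (Real.exp_pos _) (by norm_num)]
      have h5 := Real.quadratic_le_exp_of_nonneg (show (0 : ℝ) ≤ 98 * L by positivity)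
      (clear * - hL0 hL100 h5; linarith)
    (clear * - h3 h4; linarith)
  obtain ⟨n, hn1, hn2⟩ := exists_nat_pow_near (x := Real.exp (V + δ * L)) (y := 2)
    (Real.one_le_exp (by positivity)) (by norm_num)
  have hlogN : V + δ * L ≤ Real.log ((2 ^ (n + 1) : ℕ) : ℝ) := by
    rw [Real.le_log_iff_exp_le (by positivity)]
    push_cast
    exact hn2.le
  have hfin := finite_sum (ρ := ρ) hρ0 (K := K) (V := V) (L1 := δ * L) hK2 (N0 := 2 ^ (n + 1)) D
    (by positivity) hlogN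
  have hB3 : (D : ℝ) * (2 * Real.exp (K ^ 2 + 2 * V - (K - 2) * (δ * L))) ≤ 1 / 16 := by
    have h1 : (K - 2) * (δ * L) = 4 * L := by
      rw [hK]; field_simp; ring
    rw [h1]
    calc (D : ℝ) * (2 * Real.exp (K ^ 2 + 2 * V - 4 * L))
        ≤ Real.exp (δ * L) * (2 * Real.exp (K ^ 2 + 2 * V - 4 * L)) :=
          mul_le_mul_of_nonneg_right hDle (mul_nonneg zero_le_two (Real.exp_pos _).le)
      _ = 2 * Real.exp (δ * L + (K ^ 2 + 2 * V - 4 * L)) := by rw [Real.exp_add]; ring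
      _ ≤ 2 * Real.exp (-(L / 2 + 0)) :=
          mul_le_mul_of_nonneg_left (Real.exp_le_exp.mpr
            (by (clear * - hL3 hL0 hV1 hVL; linarith))) zero_le_two
      _ ≤ 1 / 16 := by
          rw [Real.exp_neg, ← div_eq_mul_inv, div_le_iff₀ (Real.exp_pos _)]
          have hL5 : δ * L ≤ 1 / 1000 * L := mul_le_mul_of_nonneg_right hδ' hL0
          have := exp_ge (L / 2 + 0) (by (clear * - hL4 hL5; linarith))
          (clear * - hδ hδ' this; linarith)
  have hB4 : 1 - Phi V ≤ 1 / 16 := by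
    refine (one_sub_Phi_le 1 le_rfl V).trans ?_
    have h1 : (1 : ℝ) ^ 2 - 1 * V = -(V - 1) := by ring
    rw [h1, Real.exp_neg, ← one_div, div_le_div_iff_of_pos_left one_pos (Real.exp_pos _) (by norm_num)]
    have := exp_ge (V - 1) (by (clear * - hδ hδ' hL4 hV1; linarith))
    (clear * - hδ hδ' this; linarith)
  have hdy := dyadic g ρ (n + 1)
  have hg1 : g 1 = (Phi V : ℂ) := by
    simp only [hg]
    rw [an_one hD1]
    simp
  have hlog2 := Real.log_two_gt_d9
  have hnL : ((n : ℝ) + 1) ≤ 8 * L := by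
    have h1 : (n : ℝ) * Real.log 2 ≤ V + δ * L := by
      have h2 := Real.log_le_log (by positivity) hn1
      rwa [Real.log_pow, Real.log_exp] at h2
    have h2 : (n : ℝ) * (1 / 2) ≤ (n : ℝ) * Real.log 2 :=
      mul_le_mul_of_nonneg_left (by (clear * - hδ hδ' hlog2; linarith)) (Nat.cast_nonneg _)
    (clear * - hL1 hV1 hVL h1 h2; linarith)
  -- all blocks are small
  have hblock : ∀ i ∈ range (n + 1), ‖DP g (2 ^ i) 2 ρ‖ ≤ 1 / (16 * L) := by
    intro i hi
    rw [Finset.mem_range] at hi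
    rcases le_or_gt (Real.exp (δ * L) / 2) ((2 : ℝ) ^ i) with hc | hc
    · refine (hnot i hc ?_).le
      calc (2 : ℝ) ^ i ≤ 2 ^ n := pow_le_pow_right₀ (by norm_num) (by (clear * - δ L hi; omega))
        _ ≤ Real.exp (V + δ * L) := hn1
        _ ≤ _ := by
            apply Real.exp_le_exp.mpr
            rw [hV]
            (clear * - hL4; linarith)
    · have h1 : 2 * 2 ^ i ≤ D := by
        rw [hD]
        apply Nat.le_floor
        push_cast
        (clear * - hc; linarith)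
      have h2 : DP g (2 ^ i) 2 ρ = 0 := by
        unfold DP
        apply Finset.sum_eq_zero
        intro m hm
        rw [Finset.mem_Ioc] at hm
        have h3 : 1 ≤ 2 ^ i := Nat.one_le_two_pow
        have h4 : an D m = 0 := an_zero (by omega) (by omega)
        simp only [hg]
        rw [h4, zero_mul, zero_mul]
      rw [h2, norm_zero]
      positivity
  have hsmall : ‖∑ i ∈ range (n + 1), DP g (2 ^ i) 2 ρ‖ ≤ 1 / 2 := by
    have h1 : ‖∑ i ∈ range (n + 1), DP g (2 ^ i) 2 ρ‖ ≤ (n + 1 : ℕ) * (1 / (16 * L)) := by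
      refine (norm_sum_le _ _).trans ?_
      refine (Finset.sum_le_card_nsmul _ _ _ hblock).trans ?_
      rw [Finset.card_range, nsmul_eq_mul]
    have h2 : ((n + 1 : ℕ) : ℝ) * (1 / (16 * L)) ≤ 1 / 2 := by
      rw [mul_one_div, div_le_iff₀ (by positivity)]
      push_cast
      (clear * - hnL; linarith)
    (clear * - h1 h2; linarith)
  set S : ℂ := ∑ d ∈ Icc 1 D, (ArithmeticFunction.moebius d : ℂ) * (d : ℂ) ^ (-ρ) * In ρ V d with hS
  set T : ℂ := ∑ n ∈ Icc 1 (2 ^ (n + 1)), g n * (n : ℂ) ^ (-ρ) with hT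
  have h2 : ‖S - T‖ ≤ 1 / 16 := hfin.trans hB3
  have h4 : ∑ i ∈ range (n + 1), DP g (2 ^ i) 2 ρ = T - (Phi V : ℂ) := by
    rw [hdy, hg1]; ring
  rw [h4] at hsmall
  have h5 : Phi V ≤ ‖T‖ + 1 / 2 := by
    have h6 := norm_sub_norm_le (Phi V : ℂ) T
    rw [norm_sub_rev, Complex.norm_real, Real.norm_of_nonneg (Phi_nonneg _)] at h6
    (clear * - hsmall h6; linarith)
  have h6 : 3 / 8 ≤ ‖S‖ := by
    have h7 := norm_sub_norm_le T S
    rw [norm_sub_rev] at h7
    (clear * - hB3 hB4 hfin h5 h7; linarith)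
  -- conclusion
  have hβ2 : 1 / 20 ≤ ρ.re - 1 / 2 := by
    (clear * - hx' hβ; linarith)
  have h7 : D * Real.exp (1 - (ρ.re - 1 / 2) * V) / (ρ.re - 1 / 2) ≤
      60 * (Real.exp (δ * L) * Real.exp (-((1 / 2 - x) * V))) := by
    have h8 : Real.exp (1 - (ρ.re - 1 / 2) * V) ≤ 3 * Real.exp (-((1 / 2 - x) * V)) := by
      rw [sub_eq_add_neg, Real.exp_add]
      have h9 := Real.exp_one_lt_d9
      have h10 : Real.exp (-((ρ.re - 1 / 2) * V)) ≤ Real.exp (-((1 / 2 - x) * V)) := by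
        apply Real.exp_le_exp.mpr
        have : (1 / 2 - x) * V ≤ (ρ.re - 1 / 2) * V := mul_le_mul_of_nonneg_right (by (clear * - hβ; linarith)) hV0
        (clear * - this; linarith)
      have h11 : Real.exp 1 ≤ 3 := by (clear * - hδ hδ' h9; linarith)
      exact mul_le_mul h11 h10 (Real.exp_pos _).le (by norm_num)
    calc D * Real.exp (1 - (ρ.re - 1 / 2) * V) / (ρ.re - 1 / 2)
        ≤ Real.exp (δ * L) * (3 * Real.exp (-((1 / 2 - x) * V))) / (1 / 20) :=
          div_le_div₀ (mul_nonneg (Real.exp_pos _).le (mul_nonneg zero_le_three (Real.exp_pos _).le))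
            (mul_le_mul hDle h8 (Real.exp_pos _).le (Real.exp_pos _).le) (by norm_num) hβ2
      _ = _ := by ring
  have h8 : 5 / 16 ≤ 60 * (Real.exp (δ * L) * Real.exp (-((1 / 2 - x) * V))) * Iz := by
    have h9 := mul_le_mul_of_nonneg_right h7 hIz0
    have h11 := hmel.trans (add_le_add h9 hB2)
    (clear * - h6 h11; linarith)
  have h9 : Real.exp (δ * L) * Real.exp (-((1 / 2 - x) * V)) * Real.exp ((1 / 2 - x) * V - δ * L) = 1 := by
    rw [← Real.exp_add, ← Real.exp_add]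
    rw [show δ * L + -((1 / 2 - x) * V) + ((1 / 2 - x) * V - δ * L) = 0 by ring, Real.exp_zero]
  set E : ℝ := Real.exp ((1 / 2 - x) * V - δ * L) with hE
  have hE0 : 0 < E := Real.exp_pos _
  have h10 : 5 / 16 * E ≤ 60 * Iz := by
    calc 5 / 16 * E ≤ (60 * (Real.exp (δ * L) * Real.exp (-((1 / 2 - x) * V))) * Iz) * E :=
          mul_le_mul_of_nonneg_right h8 hE0.le
      _ = 60 * Iz * (Real.exp (δ * L) * Real.exp (-((1 / 2 - x) * V)) * E) := by ring
      _ = 60 * Iz := by rw [h9, mul_one]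
  (clear * - hE0 h10; linarith)

theorem detectFM45 (hFM : FourthMoment) : DetectFM45 := by
  intro τ δ d hτ1 hτ2 hδ hδ' hd hd'
  obtain ⟨C, hC, hfew⟩ := few_large hFM hδ
  obtain ⟨L0, hL0⟩ := undetected45 hτ1 hτ2 hδ hδ'
  refine ⟨Real.exp (max (max L0 1) (4 * C * 200 ^ 4 / (60 * δ))), ?_⟩
  intro X x hX hx hx'
  have hX0 : 0 < X := (Real.exp_pos _).trans_le hX
  set L : ℝ := Real.log X with hL
  have hLge : max (max L0 1) (4 * C * 200 ^ 4 / (60 * δ)) ≤ L := by
    rw [hL, Real.le_log_iff_exp_le hX0]; exact hX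
  have hLa : L0 ≤ L := (le_max_left _ _).trans ((le_max_left _ _).trans hLge)
  have hLb : 1 ≤ L := (le_max_right _ _).trans ((le_max_left _ _).trans hLge)
  have hLc : 4 * C * 200 ^ 4 / (60 * δ) ≤ L := (le_max_right _ _).trans hLge
  have hpow : ∀ a : ℝ, X ^ a = Real.exp (a * L) := by
    intro a
    rw [Real.rpow_def_of_pos hX0, mul_comm]
  obtain ⟨g, hg1, hg2⟩ := hL0 L hLa x hx hx'
  refine ⟨g, hg1, ?_⟩
  intro Z hZ hZp
  set V : ℝ := (τ / 2 + 40 * δ) * L with hV
  set B : ℝ := Real.exp ((1 / 2 - x) * V - δ * L) / 200 with hB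
  have hB0 : 0 < B := by rw [hB]; positivity
  set T : ℝ := 2 * Real.exp ((τ + 2 * d) * L) with hT
  have hexp1 : 1 ≤ Real.exp ((τ + 2 * d) * L) := Real.one_le_exp (by (clear * - hτ1 hd hLb; positivity))
  have hT1 : 1 ≤ T := by rw [hT]; (clear * - hδ hδ' hexp1; linarith)
  have key := hfew Z T B hT1 hB0 hZ
    (fun ρ hρ => by
      obtain ⟨_, _, _, h4, _⟩ := hZp ρ hρ
      rw [hpow] at h4
      rw [hT]; (clear * - hexp1 h4; linarith))
    (fun ρ hρ => by
      obtain ⟨h1, h2, h3, h4, h5⟩ := hZp ρ hρ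
      simp_rw [hpow] at h5
      exact hg2 ρ h1 h2 h3 h5)
  have hT2 : T ^ (1 + δ) ≤ 4 * Real.exp ((τ + 2 * d) * (1 + δ) * L) := by
    rw [hT, Real.mul_rpow (by norm_num) (Real.exp_pos _).le, ← Real.exp_mul]
    have h1 : (2 : ℝ) ^ (1 + δ) ≤ 4 := by
      calc (2 : ℝ) ^ (1 + δ) ≤ 2 ^ (2 : ℝ) :=
            Real.rpow_le_rpow_of_exponent_le (by norm_num) (by (clear * - hδ hδ'; linarith))
        _ = 4 := by norm_num
    have h2 : (τ + 2 * d) * L * (1 + δ) = (τ + 2 * d) * (1 + δ) * L := by ring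
    rw [h2]
    exact mul_le_mul_of_nonneg_right h1 (Real.exp_pos _).le
  have hB4 : B ^ 4 = Real.exp (4 * ((1 / 2 - x) * V - δ * L)) / 200 ^ 4 := by
    rw [hB, div_pow, ← Real.exp_nat_mul]
    norm_num
  set E4 : ℝ := Real.exp (4 * ((1 / 2 - x) * V - δ * L)) with hE4
  have hE40 : 0 < E4 := Real.exp_pos _
  have h1 : (Z.card : ℝ) * E4 ≤ (4 * C * 200 ^ 4) * Real.exp ((τ + 2 * d) * (1 + δ) * L) := by
    rw [hB4] at key
    have h2 : (Z.card : ℝ) * E4 = 200 ^ 4 * ((Z.card : ℝ) * (E4 / 200 ^ 4)) := by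
      (clear * - hE40; field_simp)
    rw [h2]
    calc 200 ^ 4 * ((Z.card : ℝ) * (E4 / 200 ^ 4)) ≤ 200 ^ 4 * (C * T ^ (1 + δ)) :=
          mul_le_mul_of_nonneg_left key (by norm_num)
      _ ≤ 200 ^ 4 * (C * (4 * Real.exp ((τ + 2 * d) * (1 + δ) * L))) :=
          mul_le_mul_of_nonneg_left (mul_le_mul_of_nonneg_left hT2 hC.le) (by norm_num)
      _ = _ := by ring
  have h2 : 4 * C * 200 ^ 4 ≤ Real.exp (60 * δ * L) := by
    have h3 : 4 * C * 200 ^ 4 ≤ 60 * δ * L := by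
      rw [div_le_iff₀ (by positivity)] at hLc
      (clear * - hLc; linarith)
    (clear * - hδ hδ' h3; linarith [Real.add_one_le_exp (60 * δ * L)])
  have h3 : (τ + 2 * d) * (1 + δ) * L ≤ 4 * ((1 / 2 - x) * V - δ * L) + 2 * x * τ * L := by
    rw [hV]
    have h4 : (τ + 2 * d) * (1 + δ) ≤
        4 * ((1 / 2 - x) * (τ / 2 + 40 * δ) - δ) + 2 * x * τ := by
      have h5 : τ * δ ≤ δ := mul_le_of_le_one_left hδ.le hτ2
      have h6 : d * δ ≤ δ * (1 / 1000) :=
        (mul_comm d δ).le.trans (mul_le_mul_of_nonneg_left (hd'.trans hδ') hδ.le)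
      have h7 : x * δ ≤ 0.45 * δ := by
        apply mul_le_mul_of_nonneg_right _ hδ.le
        (clear * - hx'; linarith)
      (clear * - hδ hd' h5 h6 h7; linarith)
    calc (τ + 2 * d) * (1 + δ) * L ≤ (4 * ((1 / 2 - x) * (τ / 2 + 40 * δ) - δ) + 2 * x * τ) * L :=
          mul_le_mul_of_nonneg_right h4 (zero_le_one.trans hLb)
      _ = _ := by ring
  have h4 : (Z.card : ℝ) * E4 ≤ Real.exp ((2 * x * τ + 60 * δ) * L) * E4 := by
    calc (Z.card : ℝ) * E4 ≤ (4 * C * 200 ^ 4) * Real.exp ((τ + 2 * d) * (1 + δ) * L) := h1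
      _ ≤ Real.exp (60 * δ * L) * Real.exp (4 * ((1 / 2 - x) * V - δ * L) + 2 * x * τ * L) :=
          mul_le_mul h2 (Real.exp_le_exp.mpr h3) (Real.exp_pos _).le (Real.exp_pos _).le
      _ = Real.exp ((2 * x * τ + 60 * δ) * L) * E4 := by
          rw [hE4, ← Real.exp_add, ← Real.exp_add]
          congr 1
          ring
  rw [hpow]
  exact le_of_mul_le_mul_right h4 hE40

end Pool.Agent.M20.Helper26.KC
end

/- Helper53.KN.Helper26.KC.F9 -/
section
/-!
# KS, Huxley's density theorem for spaced zeros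
-/

set_option autoImplicit false
set_option linter.all false
set_option maxHeartbeats 4000000
open Filter Topology
open scoped Classical

namespace Pool.Agent.M20.Helper26.KC

open Pool.Agent.M20.Helper60.KS
open Pool.Agent.M20.Helper60.KC (small log_add_le)

/-- zeros detected by one polynomial -/
structure ClsD (δ T x : ℝ) (Z : Finset ℂ) (g : ℕ → ℂ) (N : ℕ) : Prop where
  hx0 : 0 < x
  hx1 : x ≤ 0.45
  hs : InStrip Z (1 - x) 1 T
  hsp : Spaced1 Z
  hg : ∀ n, ‖g n‖ ≤ (n.divisors.card : ℝ)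
  hN0 : T ^ δ / 2 ≤ N
  hN1 : (N : ℝ) ≤ T ^ (1 / 2 + 45 * δ)
  hD : ∀ ρ ∈ Z, 1 / (16 * Real.log T) ≤ ‖DP g N 2 ρ‖

lemma baseD {δ : ℝ} (hδ : 0 < δ) (hδ' : δ ≤ 1 / 1000) : ∀ᶠ T : ℝ in atTop, ∀ (x : ℝ) (Z : Finset ℂ)
    (g : ℕ → ℂ) (N : ℕ), ClsD δ T x Z g N →
    8 ≤ T ∧ 10 ≤ Real.log T ∧ 1 ≤ N ∧ δ / 2 * Real.log T ≤ Real.log N ∧
      Real.log N ≤ (1 / 2 + 45 * δ) * Real.log T ∧ Real.log N ≤ Real.log T := by
  filter_upwards [small 1 0 (δ/2) (by (clear * - hδ; linarith)), eventually_ge_atTop (Real.exp 10), eventually_ge_atTop 8]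
    with T h1 h2 h8 x Z g N h
  have hX : (0:ℝ) < T := by (clear * - hδ hδ' h8; linarith)
  have hl : 10 ≤ Real.log T := by
    rw [Real.le_log_iff_exp_le hX]; exact h2
  have hl0 : 0 < Real.log T := by (clear * - hδ hδ' hl; linarith)
  have hN0 := h.hN0
  have hXd : (0:ℝ) < T ^ δ := Real.rpow_pos_of_pos hX _
  have hNpos : (0:ℝ) < N := by (clear * - hN0 hXd; linarith)
  have hN1 : 1 ≤ N := by
    have : 0 < N := by exact_mod_cast hNpos
    omega
  have h3 : Real.log (T ^ δ / 2) ≤ Real.log N := Real.log_le_log (by positivity) hN0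
  rw [Real.log_div (by positivity) (by norm_num), Real.log_rpow hX] at h3
  have h4 : Real.log 2 ≤ 1 := by have := Real.log_two_lt_d9; (clear * - hδ hδ' this; linarith)
  have h5 : Real.log N ≤ (1 / 2 + 45 * δ) * Real.log T := by
    rw [← Real.log_rpow hX]; exact Real.log_le_log hNpos h.hN1
  refine ⟨h8, hl, hN1, ?_, h5, ?_⟩
  · (clear * - h1 h3 h4; linarith)
  · refine le_trans h5 ?_
    have : (1 / 2 + 45 * δ) ≤ 1 := by (clear * - hδ hδ'; linarith)
    exact mul_le_of_le_one_left hl0.le this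

lemma pow_classD (hP : PowDP) {δ : ℝ} (hδ : 0 < δ) (hδ' : δ ≤ 1 / 1000) (k : ℕ) (hk : 1 ≤ k) (ε1 : ℝ)
    (hε1 : 0 < ε1) :
    ∃ C1 : ℝ, 0 < C1 ∧ ∀ᶠ T : ℝ in atTop, ∀ (x : ℝ) (Z : Finset ℂ)
    (g : ℕ → ℂ) (N : ℕ), ClsD δ T x Z g N →
    ∃ b : ℕ → ℂ, (∀ n, ‖b n‖ ≤ C1 * (N : ℝ) ^ ε1) ∧
      ∀ ρ ∈ Z, (1 / (16 * Real.log T)) ^ k ≤ ‖DP b (N ^ k) (2 ^ k) ρ‖ := by
  obtain ⟨C1, hC1, h⟩ := hP k ε1 hk hε1
  refine ⟨C1, hC1, ?_⟩
  filter_upwards [baseD hδ hδ'] with T hb x Z g N hcl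
  obtain ⟨h8, hl, hN, -⟩ := hb x Z g N hcl
  obtain ⟨b, hb1, hb2⟩ := h g N hN hcl.hg
  refine ⟨b, hb1, fun ρ hρ => ?_⟩
  rw [← hb2, norm_pow]
  exact pow_le_pow_left₀ (by (clear * - hl; positivity)) (hcl.hD ρ hρ) k

/-- first bound: mean values -/
lemma P1D (hMV : MVCount) (hP : PowDP) {δ : ℝ} (hδ : 0 < δ) (hδ' : δ ≤ 1 / 1000) (k : ℕ) (hk : 1 ≤ k) :
    ∀ᶠ T : ℝ in atTop, ∀ (x : ℝ) (Z : Finset ℂ) (g : ℕ → ℂ) (N : ℕ),
    ClsD δ T x Z g N → Z.Nonempty → (k : ℝ) * Real.log N ≤ 2 * Real.log T →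
    Real.log Z.card ≤ max (2 * x * (k * Real.log N))
      (Real.log T - k * Real.log N * (1 - 2 * x)) + 40 * δ * Real.log T := by
  obtain ⟨C1, hC1, hpc⟩ := pow_classD hP hδ hδ' k hk (δ / 10) (by (clear * - hδ; positivity))
  obtain ⟨C, hC, hmv⟩ := hMV (2 ^ k) (Nat.one_le_two_pow)
  filter_upwards [baseD hδ hδ', hpc, small (2 * k * Real.log 16 + Real.log C + 2 * Real.log C1 + 5 + Real.log 2)
    (2 * k + 2) δ hδ] with T hb hpc hsm x Z g N h hZ hkq
  obtain ⟨h8, hl, hN, hq0, hq1, hq2⟩ := hb x Z g N h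
  obtain ⟨b, hb1, hb2⟩ := hpc x Z g N h
  have hx0 := h.hx0
  have hx1 := h.hx1
  have hN' : (1:ℝ) ≤ N := by exact_mod_cast hN
  have hQ : 1 ≤ N ^ k := Nat.one_le_pow _ _ (by omega)
  have hl0 : 0 < Real.log T := by (clear * - hδ hδ' hl; linarith)
  have hkk : (1:ℝ) ≤ k := by exact_mod_cast hk
  have hZc : (0:ℝ) < Z.card := by exact_mod_cast hZ.card_pos
  set l := Real.log T with hldef
  set q := Real.log N with hqdef
  have hq00 : 0 ≤ q := Real.log_nonneg hN'
  have hVpos : 0 < (1 / (16 * l)) ^ k := by (clear * - hl; positivity)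
  have hB : 0 < C1 * (N:ℝ) ^ (δ / 10) := by positivity
  have hmain := hmv Z b (N ^ k) (C1 * (N:ℝ) ^ (δ/10)) ((1 / (16 * l)) ^ k) (1 - x) 1 T (1 / l) hQ
    (by (clear * - hδ hδ' h8; linarith)) (by positivity) (by rw [div_le_div_iff₀ hl0 (by norm_num)]; (clear * - hδ hδ' hl; linarith)) (by (clear * - hδ hδ' hx1; linarith))
    (by (clear * - hx0; linarith)) (by (clear * - hδ hδ' hx1; linarith)) le_rfl hVpos hB.le hb1 h.hs h.hsp hb2
  have hQpos : (0:ℝ) < ((N ^ k : ℕ) : ℝ) := by exact_mod_cast hQ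
  have hlogQ : Real.log ((N ^ k : ℕ) : ℝ) = k * q := by push_cast; rw [Real.log_pow]
  have hlg := Real.log_le_log (by (clear * - hZ hl; positivity)) hmain
  have hTQ : (0:ℝ) < T + ((N ^ k : ℕ) : ℝ) := by (clear * - hδ hδ' h8 hQpos; linarith)
  rw [Real.log_mul hZc.ne' (by positivity), Real.log_pow, Real.log_pow, Real.log_div (by norm_num) (by positivity),
    Real.log_one, Real.log_mul (by norm_num) hl0.ne', Real.log_mul (by (clear * - hC hC1 hN hl h8; positivity)) (by positivity),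
    Real.log_mul (by (clear * - hC hC1 hN hl; positivity)) hTQ.ne', Real.log_div (by positivity) (by positivity), Real.log_mul hC.ne' (by positivity),
    Real.log_pow, Real.log_mul hC1.ne' (by positivity), Real.log_rpow (by (clear * - hδ hδ' hN'; linarith)), Real.log_rpow hQpos,
    Real.log_pow, Real.log_div (by norm_num) hl0.ne', Real.log_one, hlogQ] at hlg
  have hqq : (2 * (1 / l)) * (k * q) ≤ 4 := by
    have : (2 * (1 / l)) * (k * q) = 2 * (k * q) / l := by ring
    rw [this, div_le_iff₀ hl0]; (clear * - hkq; linarith)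
  have hexp : (1 - 2 * (1 - x) + 2 * (1 / l)) * (k * q) = -(k * q * (1 - 2 * x)) + (2 * (1 / l)) * (k * q) := by ring
  rw [hexp] at hlg
  have hdq : δ / 10 * q ≤ δ / 10 * l := mul_le_mul_of_nonneg_left hq2 (by positivity)
  simp only [Nat.cast_ofNat] at hlg
  rw [← hqdef] at hlg
  have hdl0 : 0 ≤ δ * l := by positivity
  rcases log_add_le (show 0 < T by (clear * - hδ hδ' h8; linarith)) hQpos with hc | hc
  · refine le_trans ?_ (add_le_add_left (le_max_right _ _) _)
    (clear * - hδ hδ' hsm hlg hqq hdq hdl0 hc; linarith)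
  · refine le_trans ?_ (add_le_add_left (le_max_left _ _) _)
    rw [hlogQ] at hc
    (clear * - hδ hδ' hsm hlg hqq hdq hdl0 hc; linarith)

/-- second bound: Huxley -/
lemma P2D (hMV : HuxleyCount) (hP : PowDP) {δ : ℝ} (hδ : 0 < δ) (hδ' : δ ≤ 1 / 1000) (k : ℕ) (hk : 1 ≤ k) :
    ∀ᶠ T : ℝ in atTop, ∀ (x : ℝ) (Z : Finset ℂ) (g : ℕ → ℂ) (N : ℕ),
    ClsD δ T x Z g N → Z.Nonempty → (k : ℝ) * Real.log N ≤ 2 * Real.log T →
    Real.log Z.card ≤ max (2 * x * (k * Real.log N))
      (Real.log T - k * Real.log N * (2 - 6 * x)) + 40 * δ * Real.log T := by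
  obtain ⟨C1, hC1, hpc⟩ := pow_classD hP hδ hδ' k hk (δ / 10) (by positivity)
  obtain ⟨C, hC, hmv⟩ := hMV (2 ^ k) (Nat.one_le_two_pow)
  filter_upwards [baseD hδ hδ', hpc, small (2 * k * Real.log 16 + Real.log C + 2 * Real.log C1 + 2 * Real.log 2)
    (2 * k + 1) δ hδ, small (6 * k * Real.log 16 + Real.log C + 6 * Real.log C1 + 1 + 2 * Real.log 2)
    (6 * k + 1) δ hδ] with T hb hpc hsm1 hsm2 x Z g N h hZ hkq
  obtain ⟨h8, hl, hN, hq0, hq1, hq2⟩ := hb x Z g N h
  obtain ⟨b, hb1, hb2⟩ := hpc x Z g N h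
  have hx0 := h.hx0
  have hx1 := h.hx1
  have hN' : (1:ℝ) ≤ N := by exact_mod_cast hN
  have hQ : 1 ≤ N ^ k := Nat.one_le_pow _ _ (by omega)
  have hl0 : 0 < Real.log T := by (clear * - hδ hδ' hl; linarith)
  have hkk : (1:ℝ) ≤ k := by exact_mod_cast hk
  have hZc : (0:ℝ) < Z.card := by exact_mod_cast hZ.card_pos
  have hT4 : Real.log (T + 2) ≤ 2 * Real.log T := by
    rw [← Real.log_rpow (by (clear * - hδ hδ' h8; linarith) : (0:ℝ) < T)]
    apply Real.log_le_log (by (clear * - hδ hδ' h8; linarith))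
    have e2 : T ^ (2:ℝ) = T * T := by rw [show (2:ℝ) = ((2:ℕ):ℝ) by norm_num, Real.rpow_natCast]; ring
    rw [e2]
    exact (by (clear * - h8; linarith) : T + 2 ≤ 8 * T).trans
      (mul_le_mul_of_nonneg_right h8 (by (clear * - h8; linarith)))
  set l := Real.log T with hldef
  set q := Real.log N with hqdef
  have hq00 : 0 ≤ q := Real.log_nonneg hN'
  have hVpos : 0 < (1 / (16 * l)) ^ k := by positivity
  have hB : 0 < C1 * (N:ℝ) ^ (δ / 10) := by positivity
  have hmain := hmv Z b (N ^ k) (C1 * (N:ℝ) ^ (δ/10)) ((1 / (16 * l)) ^ k) (1 - x) 1 T hQ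
    (by (clear * - hδ hδ' h8; linarith)) (by (clear * - hδ hδ' hx1; linarith))
    (by (clear * - hx0; linarith)) (by (clear * - hδ hδ' hx1; linarith)) le_rfl hVpos hB hb1 h.hs h.hsp hb2
  have hQpos : (0:ℝ) < ((N ^ k : ℕ) : ℝ) := by exact_mod_cast hQ
  have hlogQ : Real.log ((N ^ k : ℕ) : ℝ) = k * q := by push_cast; rw [Real.log_pow]
  have hlT : 0 < Real.log (T + 2) := Real.log_pos (by (clear * - hδ hδ' h8; linarith))
  have hllT : Real.log (Real.log (T + 2)) ≤ Real.log 2 + Real.log l := by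
    rw [← Real.log_mul (by norm_num) hl0.ne']
    exact Real.log_le_log hlT hT4
  have hlg := Real.log_le_log (by (clear * - hZ; positivity)) hmain
  have hTp : 0 < T := by (clear * - hδ hδ' h8; linarith)
  have hin : (0:ℝ) < T * ((C1 * (N:ℝ) ^ (δ / 10)) ^ 4 * ((N ^ k : ℕ) : ℝ) ^ (2 - 4 * (1 - x)) / ((1 / (16 * l)) ^ k) ^ 4) := by
    (clear * - h8 hC1 hN hl; positivity)
  have hlogin : Real.log (T * ((C1 * (N:ℝ) ^ (δ / 10)) ^ 4 * ((N ^ k : ℕ) : ℝ) ^ (2 - 4 * (1 - x)) / ((1 / (16 * l)) ^ k) ^ 4)) =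
      Real.log T + (4 * (Real.log C1 + δ / 10 * q) + (2 - 4 * (1 - x)) * (k * q) + 4 * (k * (Real.log 16 + Real.log l))) := by
    rw [Real.log_mul hTp.ne' (by (clear * - hC1 hN hl; positivity)), Real.log_div (by positivity) (by positivity),
      Real.log_mul (by positivity) (by positivity), Real.log_pow, Real.log_pow, Real.log_pow,
      Real.log_mul hC1.ne' (by positivity), Real.log_rpow (by (clear * - hδ hδ' hN'; linarith)), Real.log_rpow hQpos,
      Real.log_div (by norm_num) (by positivity), Real.log_one, Real.log_mul (by norm_num) hl0.ne', hlogQ]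
    simp only [Nat.cast_ofNat]
    rw [← hqdef]
    ring
  rw [Real.log_mul (by (clear * - hC hC1 hN hl hlT; positivity)) (by (clear * - h8 hC1 hN hl; positivity)), Real.log_mul (by (clear * - hC hC1 hN hl; positivity)) hlT.ne', Real.log_mul hC.ne' (by (clear * - hC1 hN hl; positivity)),
    Real.log_div (by (clear * - hC1 hN; positivity)) (by positivity), Real.log_mul (by positivity) (by positivity),
    Real.log_pow, Real.log_mul hC1.ne' (by positivity), Real.log_rpow (by (clear * - hδ hδ' hN'; linarith)), Real.log_rpow hQpos,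
    Real.log_pow, Real.log_pow, Real.log_div (by norm_num) (by positivity), Real.log_one,
    Real.log_mul (by norm_num) hl0.ne', hlogQ] at hlg
  have hdq : δ / 10 * q ≤ δ / 10 * l := mul_le_mul_of_nonneg_left hq2 (by positivity)
  simp only [Nat.cast_ofNat] at hlg
  rw [← hqdef] at hlg
  have hdl0 : 0 ≤ δ * l := by positivity
  rcases log_add_le one_pos hin with hc | hc
  · refine le_trans ?_ (add_le_add_left (le_max_left _ _) _)
    rw [Real.log_one] at hc
    (clear * - hsm1 hllT hlg hdq hdl0 hc; linarith)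
  · refine le_trans ?_ (add_le_add_left (le_max_right _ _) _)
    rw [hlogin] at hc
    (clear * - hδ hδ' hsm2 hllT hlg hdq hdl0 hc; linarith)

/-- one class has at most `T^(2.4 x + 40 δ)` elements -/
lemma class_card (hMV : MVCount) (hHC : HuxleyCount) (hP : PowDP) {δ : ℝ} (hδ : 0 < δ) (hδ' : δ ≤ 1 / 1000) :
    ∀ᶠ T : ℝ in atTop, ∀ (x : ℝ) (Z : Finset ℂ) (g : ℕ → ℂ) (N : ℕ),
    ClsD δ T x Z g N → (Z.card : ℝ) ≤ T ^ (2.4 * x + 40 * δ) := by
  set K : ℕ := ⌈1.6 / δ + 1⌉₊ with hK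
  have e1 : ∀ᶠ T : ℝ in atTop, ∀ k ∈ Finset.Icc 1 K, ∀ (x : ℝ) (Z : Finset ℂ) (g : ℕ → ℂ) (N : ℕ),
      ClsD δ T x Z g N → Z.Nonempty → (k : ℝ) * Real.log N ≤ 2 * Real.log T →
      Real.log Z.card ≤ max (2 * x * (k * Real.log N))
        (Real.log T - k * Real.log N * (1 - 2 * x)) + 40 * δ * Real.log T := by
    rw [Filter.eventually_all_finset]
    intro k hk
    exact P1D hMV hP hδ hδ' k (Finset.mem_Icc.mp hk).1
  have e2 : ∀ᶠ T : ℝ in atTop, ∀ k ∈ Finset.Icc 1 K, ∀ (x : ℝ) (Z : Finset ℂ) (g : ℕ → ℂ) (N : ℕ),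
      ClsD δ T x Z g N → Z.Nonempty → (k : ℝ) * Real.log N ≤ 2 * Real.log T →
      Real.log Z.card ≤ max (2 * x * (k * Real.log N))
        (Real.log T - k * Real.log N * (2 - 6 * x)) + 40 * δ * Real.log T := by
    rw [Filter.eventually_all_finset]
    intro k hk
    exact P2D hHC hP hδ hδ' k (Finset.mem_Icc.mp hk).1
  filter_upwards [baseD hδ hδ', e1, e2] with T hb h1 h2 x Z g N h
  obtain ⟨h8, hl, hN, hq0, hq1, hq2⟩ := hb x Z g N h
  have hx0 := h.hx0
  have hx1 := h.hx1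
  have hT0 : (0 : ℝ) < T := by (clear * - hδ hδ' h8; linarith)
  rcases Z.eq_empty_or_nonempty with hZ | hZ
  · rw [hZ]; simp; positivity
  have hZc : (0:ℝ) < Z.card := by exact_mod_cast hZ.card_pos
  have hl0 : 0 < Real.log T := by (clear * - hδ hδ' hl; linarith)
  set l := Real.log T with hldef
  set q := Real.log N with hqdef
  have hqpos : 0 < q := lt_of_lt_of_le (by (clear * - hδ hl; positivity)) hq0
  set a : ℝ := 0.8 * l / q with ha
  have ha0 : 0 < a := by rw [ha]; (clear * - hl hqpos; positivity)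
  set k : ℕ := ⌈a⌉₊ with hk
  have hk1 : 1 ≤ k := by
    rw [hk]; exact Nat.one_le_ceil_iff.mpr ha0
  have hka : a ≤ k := Nat.le_ceil a
  have hka2 : (k : ℝ) < a + 1 := Nat.ceil_lt_add_one ha0.le
  have haq : a * q = 0.8 * l := by rw [ha]; field_simp
  have hkq1 : 0.8 * l ≤ k * q := by
    rw [← haq]; exact mul_le_mul_of_nonneg_right hka hqpos.le
  have hkq2 : k * q ≤ 1.2 * l := by
    rcases le_or_gt q (0.4 * l) with hc | hc
    · have : (k : ℝ) * q ≤ (a + 1) * q := mul_le_mul_of_nonneg_right hka2.le hqpos.le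
      (clear * - haq hc this; linarith)
    · have ha2 : a ≤ 2 := by
        rw [ha, div_le_iff₀ hqpos]; (clear * - hc; linarith)
      have hk2 : k ≤ 2 := by
        rw [hk]; exact Nat.ceil_le.mpr (by exact_mod_cast ha2)
      have hk2' : (k : ℝ) ≤ 2 := by exact_mod_cast hk2
      have h3 : (k : ℝ) * q ≤ 2 * q := mul_le_mul_of_nonneg_right hk2' hqpos.le
      have h4 : 2 * q ≤ (1 + 90 * δ) * l := by (clear * - hq1; linarith)
      have h5 : (1 + 90 * δ) * l ≤ 1.2 * l := mul_le_mul_of_nonneg_right (by (clear * - hδ hδ'; linarith)) hl0.le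
      (clear * - hq1 h3 h5; linarith)
  have hkK : k ∈ Finset.Icc 1 K := by
    rw [Finset.mem_Icc]
    refine ⟨hk1, ?_⟩
    rw [hk, hK]
    apply Nat.ceil_le_ceil
    have : a ≤ 1.6 / δ := by
      rw [ha, div_le_div_iff₀ hqpos hδ]
      (clear * - hq0; linarith)
    (clear * - hδ hδ' this; linarith)
  have hkq3 : (k : ℝ) * q ≤ 2 * l := by (clear * - hδ hδ' hl hkq2; linarith)
  have hfin : Real.log Z.card ≤ (2.4 * x + 40 * δ) * l := by
    have m0 := mul_le_mul_of_nonneg_left hkq2 hx0.le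
    have m1 : 2 * x * (k * q) ≤ 2.4 * x * l := by (clear * - m0; linarith)
    rcases le_total x (1 / 4) with hc | hc
    · have h3 := h2 k hkK x Z g N h hZ hkq3
      have m2 : l - k * q * (2 - 6 * x) ≤ 2.4 * x * l := by
        have : 0.8 * l * (2 - 6 * x) ≤ k * q * (2 - 6 * x) :=
          mul_le_mul_of_nonneg_right hkq1 (by (clear * - hδ hδ' hc; linarith))
        have h6 := mul_le_mul_of_nonneg_right hc hl0.le
        (clear * - h6 this; linarith)
      have m3 := max_le m1 m2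
      (clear * - h3 m3; linarith)
    · have h3 := h1 k hkK x Z g N h hZ hkq3
      have m2 : l - k * q * (1 - 2 * x) ≤ 2.4 * x * l := by
        have : 0.8 * l * (1 - 2 * x) ≤ k * q * (1 - 2 * x) :=
          mul_le_mul_of_nonneg_right hkq1 (by (clear * - hδ hδ' hx1; linarith))
        have h6 := mul_le_mul_of_nonneg_right hc hl0.le
        (clear * - h6 this; linarith)
      have m3 := max_le m1 m2
      (clear * - h3 m3; linarith)
  rw [Real.rpow_def_of_pos hT0, ← Real.log_le_iff_le_exp hZc, ← hldef]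
  (clear * - hfin; linarith)

theorem densS (hMV : MVCount) (hHC : HuxleyCount) (hP : PowDP) (hDF : DetectFM45) : DensS := by
  intro ε hε
  set δ : ℝ := min ε 1 / 1000 with hδdef
  have hmin : 0 < min ε 1 := lt_min hε one_pos
  have hδ : 0 < δ := by rw [hδdef]; positivity
  have hδ' : δ ≤ 1 / 1000 := by
    rw [hδdef]
    have := min_le_right ε 1
    (clear * - this; linarith)
  have hδε : 1000 * δ ≤ ε := by
    rw [hδdef]
    have := min_le_left ε 1
    (clear * - this; linarith)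
  obtain ⟨X0, hX0⟩ := hDF 1 δ δ (by norm_num) le_rfl hδ hδ' hδ le_rfl
  have ev := (class_card hMV hHC hP hδ hδ').and ((small (Real.log 4 + 1) 1 δ hδ).and
    ((eventually_ge_atTop X0).and (eventually_ge_atTop (Real.exp 10))))
  obtain ⟨T0, hT0⟩ := Filter.eventually_atTop.mp ev
  refine ⟨T0, ?_⟩
  intro T x hT hx hx' Z hZ hZp
  obtain ⟨hcc, hsm, hXT, hT10⟩ := hT0 T hT
  have hTpos : 0 < T := (Real.exp_pos _).trans_le hT10
  have hl10 : 10 ≤ Real.log T := by rw [Real.le_log_iff_exp_le hTpos]; exact hT10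
  have hT1 : 1 ≤ T := by
    have := Real.add_one_le_exp (10 : ℝ)
    (clear * - hδ hδ' hT10 this; linarith)
  obtain ⟨g, hg1, hg2⟩ := hX0 T x hXT hx hx'
  have hl0 : 0 < Real.log T := by (clear * - hδ hδ' hl10; linarith)
  -- detected at i
  set det : ℂ → ℕ → Prop := fun ρ i => T ^ δ / 2 ≤ (2 : ℝ) ^ i ∧ (2 : ℝ) ^ i ≤ T ^ ((1:ℝ) / 2 + 45 * δ) ∧
      1 / (16 * Real.log T) ≤ ‖DP g (2 ^ i) 2 ρ‖ with hdet
  set I : ℕ := ⌈2 * Real.log T⌉₊ with hI
  have hspf : ∀ Z' : Finset ℂ, Z' ⊆ Z → Spaced1 Z' := by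
    intro Z' hZ' ρ hρ ρ' hρ' hne
    exact hZ ρ (hZ' hρ) ρ' (hZ' hρ') hne
  have hZ2 : ((Z.filter (fun ρ => ¬ ∃ i, det ρ i)).card : ℝ) ≤ T ^ (2 * x * 1 + 60 * δ) := by
    apply hg2 _ (hspf _ (Finset.filter_subset _ _))
    intro ρ hρ
    rw [Finset.mem_filter] at hρ
    obtain ⟨h1, h2, h3, h4⟩ := hZp ρ hρ.1
    refine ⟨h1, h2, h3, ?_, hρ.2⟩
    have h5 : T ≤ T ^ ((1:ℝ) + 2 * δ) := by
      calc T = T ^ (1:ℝ) := (Real.rpow_one _).symm
        _ ≤ _ := Real.rpow_le_rpow_of_exponent_le hT1 (by (clear * - hδ; linarith))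
    (clear * - hδ hδ' h4 h5; linarith)
  have hZi : ∀ i : ℕ, ((Z.filter (fun ρ => det ρ i)).card : ℝ) ≤ T ^ (2.4 * x + 40 * δ) := by
    intro i
    rcases (Z.filter (fun ρ => det ρ i)).eq_empty_or_nonempty with he | he
    · rw [he]; simp; positivity
    obtain ⟨ρ0, hρ0⟩ := he
    rw [Finset.mem_filter] at hρ0
    apply hcc x _ g (2 ^ i)
    refine ⟨hx, hx', ?_, hspf _ (Finset.filter_subset _ _), hg1, ?_, ?_, ?_⟩
    · intro ρ hρ
      rw [Finset.mem_filter] at hρ
      obtain ⟨h1, h2, h3, h4⟩ := hZp ρ hρ.1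
      refine ⟨h2, ?_, h4⟩
      by_contra hcon
      exact riemannZeta_ne_zero_of_one_le_re (not_le.mp hcon).le h1
    · push_cast; exact hρ0.2.1
    · push_cast; exact hρ0.2.2.1
    · intro ρ hρ
      rw [Finset.mem_filter] at hρ
      exact hρ.2.2.2
  have hcover : Z ⊆ (Z.filter (fun ρ => ¬ ∃ i, det ρ i)) ∪
      (Finset.range (I + 1)).biUnion (fun i => Z.filter (fun ρ => det ρ i)) := by
    intro ρ hρ
    rw [Finset.mem_union, Finset.mem_filter, Finset.mem_biUnion]
    by_cases h : ∃ i, det ρ i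
    · right
      obtain ⟨i, hi⟩ := h
      refine ⟨i, ?_, Finset.mem_filter.mpr ⟨hρ, hi⟩⟩
      rw [Finset.mem_range]
      have h1 : (i : ℝ) * Real.log 2 ≤ (1 / 2 + 45 * δ) * Real.log T := by
        rw [← Real.log_pow, ← Real.log_rpow hTpos]
        exact Real.log_le_log (by positivity) hi.2.1
      have h2 : (i : ℝ) * (1 / 2) ≤ (i : ℝ) * Real.log 2 :=
        mul_le_mul_of_nonneg_left (by (clear * - hδ hδ'; linarith [Real.log_two_gt_d9])) (Nat.cast_nonneg _)
      have h6 : (1 / 2 + 45 * δ) * Real.log T ≤ Real.log T :=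
        mul_le_of_le_one_left hl0.le (by (clear * - hδ'; linarith))
      have h3 : (i : ℝ) ≤ 2 * Real.log T := by (clear * - h1 h2 h6; linarith)
      have h4 : (i : ℝ) ≤ I := h3.trans (Nat.le_ceil _)
      have h5 : i ≤ I := by exact_mod_cast h4
      omega
    · left
      exact ⟨hρ, h⟩
  have hcard : (Z.card : ℝ) ≤ T ^ (2 * x * 1 + 60 * δ) + (I + 1 : ℕ) * T ^ (2.4 * x + 40 * δ) := by
    have h1 := Finset.card_le_card hcover
    have h2 := (h1.trans (Finset.card_union_le _ _))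
    have h3 : (Z.card : ℝ) ≤ ((Z.filter (fun ρ => ¬ ∃ i, det ρ i)).card : ℝ) +
        (((Finset.range (I + 1)).biUnion (fun i => Z.filter (fun ρ => det ρ i))).card : ℝ) := by
      exact_mod_cast h2
    have h4 : (((Finset.range (I + 1)).biUnion (fun i => Z.filter (fun ρ => det ρ i))).card : ℝ) ≤
        ∑ i ∈ Finset.range (I + 1), ((Z.filter (fun ρ => det ρ i)).card : ℝ) := by
      have := Finset.card_biUnion_le (s := Finset.range (I + 1)) (t := fun i => Z.filter (fun ρ => det ρ i))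
      exact_mod_cast this
    have h5 : ∑ i ∈ Finset.range (I + 1), ((Z.filter (fun ρ => det ρ i)).card : ℝ) ≤
        (I + 1 : ℕ) * T ^ (2.4 * x + 40 * δ) := by
      have := Finset.sum_le_card_nsmul (Finset.range (I + 1)) _ _ (fun i _ => hZi i)
      rwa [Finset.card_range, nsmul_eq_mul] at this
    exact h3.trans (add_le_add hZ2 (h4.trans h5))
  have hA : T ^ (2 * x * 1 + 60 * δ) ≤ T ^ (2.4 * x + 60 * δ) :=
    Real.rpow_le_rpow_of_exponent_le hT1 (by (clear * - hx; linarith))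
  have hB : T ^ (2.4 * x + 40 * δ) ≤ T ^ (2.4 * x + 60 * δ) :=
    Real.rpow_le_rpow_of_exponent_le hT1 (by (clear * - hδ; linarith))
  have hI1 : ((I + 1 : ℕ) : ℝ) + 1 ≤ 4 * Real.log T := by
    have := Nat.ceil_lt_add_one (show 0 ≤ 2 * Real.log T by (clear * - hδ hδ' hl10; linarith))
    push_cast
    rw [← hI] at this
    (clear * - hδ hδ' hl10 this; linarith)
  have hlogT : 4 * Real.log T ≤ T ^ δ := by
    rw [Real.rpow_def_of_pos hTpos, ← Real.log_le_iff_le_exp (by positivity),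
      Real.log_mul (by norm_num) hl0.ne']
    (clear * - hδ hδ' hsm; linarith)
  calc (Z.card : ℝ) ≤ T ^ (2 * x * 1 + 60 * δ) + (I + 1 : ℕ) * T ^ (2.4 * x + 40 * δ) := hcard
    _ ≤ T ^ (2.4 * x + 60 * δ) + (I + 1 : ℕ) * T ^ (2.4 * x + 60 * δ) :=
        add_le_add hA (mul_le_mul_of_nonneg_left hB (Nat.cast_nonneg _))
    _ = (((I + 1 : ℕ) : ℝ) + 1) * T ^ (2.4 * x + 60 * δ) := by ring
    _ ≤ (4 * Real.log T) * T ^ (2.4 * x + 60 * δ) :=
        mul_le_mul_of_nonneg_right hI1 (Real.rpow_nonneg hTpos.le _)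
    _ ≤ T ^ δ * T ^ (2.4 * x + 60 * δ) :=
        mul_le_mul_of_nonneg_right hlogT (Real.rpow_nonneg hTpos.le _)
    _ = T ^ (δ + (2.4 * x + 60 * δ)) := (Real.rpow_add hTpos _ _).symm
    _ ≤ _ := Real.rpow_le_rpow_of_exponent_le hT1 (by (clear * - hδ hδε; linarith))

end Pool.Agent.M20.Helper26.KC
end

/- Helper53.KN.Helper73.KC.FM1 -/
section
set_option autoImplicit false

/-!
# FM-1 (project KS): `|Γ(s) cos(πs/2)| ≤ C (1+|t|)^(σ-1/2)` for `1/2 ≤ σ ≤ 3/2`
-/

open Complex Filter Topology Set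
open scoped ComplexConjugate

namespace Pool.Agent.M20.Helper73.KC

open Pool.Agent.M20.Helper1.KSZ (FF norm_FF_half norm_Gamma_le norm_cos_le)

/-- the line `3/2` -/
theorem norm_FF_three_half (y : ℝ) :
    ‖FF (3 / 2 + y * I)‖ = ‖(1 / 2 + y * I : ℂ)‖ * ‖FF (1 / 2 + y * I)‖ := by
  unfold FF
  have h0 : (1 / 2 + y * I : ℂ) ≠ 0 := by
    intro h
    have := congrArg Complex.re h
    simp at this
  have e1 : (3 / 2 + y * I : ℂ) = (1 / 2 + y * I) + 1 := by ring
  have e2 : Complex.cos (Real.pi * (3 / 2 + y * I) / 2) = -Complex.sin (Real.pi * (1 / 2 + y * I) / 2) := by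
    rw [← Complex.cos_add_pi_div_two]
    congr 1
    ring
  have e3 : Complex.sin (Real.pi * (1 / 2 + y * I) / 2) =
      conj (Complex.cos (Real.pi * (1 / 2 + y * I) / 2)) := by
    rw [← Complex.cos_conj, ← Complex.cos_pi_div_two_sub]
    congr 1
    rw [map_div₀, map_mul, map_add, map_mul, Complex.conj_ofReal, Complex.conj_ofReal, Complex.conj_I,
      map_div₀, map_one, Complex.conj_ofNat]
    ring
  have e4 : Complex.Gamma (3 / 2 + y * I) = (1 / 2 + y * I) * Complex.Gamma (1 / 2 + y * I) := by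
    rw [e1, Complex.Gamma_add_one _ h0]
  rw [e2, e3, e4, norm_mul, norm_mul, norm_neg, Complex.norm_conj, norm_mul, mul_assoc]

theorem norm_FF_half' (y : ℝ) : ‖FF (1 / 2 + y * I)‖ = Real.sqrt (Real.pi / 2) := by
  rw [← norm_FF_half y, Real.sqrt_sq (norm_nonneg _)]

/-- FM-1 -/
theorem ffBound : Pool.Agent.M20.Helper26.KC.FMff := by
  obtain ⟨G0, hG0⟩ : ∃ G0 : ℝ, ∀ x ∈ Icc (1 / 2 : ℝ) (3 / 2), Real.Gamma x ≤ G0 := by
    have hcont : ContinuousOn Real.Gamma (Icc (1 / 2 : ℝ) (3 / 2)) := by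
      intro x hx
      apply ContinuousAt.continuousWithinAt
      apply DifferentiableAt.continuousAt (𝕜 := ℝ)
      apply Real.differentiableAt_Gamma
      intro m hm
      have h1 : (0 : ℝ) < x := by (clear * - hm hx; linarith [hx.1])
      have h2 : (0 : ℝ) ≤ m := Nat.cast_nonneg m
      linarith
    obtain ⟨G0, hG0⟩ := (isCompact_Icc.image_of_continuousOn hcont).bddAbove
    exact ⟨G0, fun x hx => hG0 ⟨x, hx, rfl⟩⟩
  have hG0nn : 0 ≤ G0 := (Real.Gamma_pos_of_pos (by norm_num : (0 : ℝ) < 1)).le.trans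
    (hG0 1 ⟨by norm_num, by norm_num⟩)
  set K : ℝ := Real.sqrt (Real.pi / 2) with hK
  have hK0 : 0 < K := Real.sqrt_pos.2 (by positivity)
  refine ⟨5 * K, by positivity, fun σ t hσ1 hσ2 => ?_⟩
  exact by
    set T : ℝ := 1 + |t| with hTdef
    have hT : 1 ≤ T := by have := abs_nonneg t; (clear * - this; linarith)
    have hT0 : 0 < T := by linarith
    set G : ℂ → ℂ := fun s => FF s * (T : ℂ) ^ (-(s - 1 / 2)) / (s - t * I + 1) with hG
    have hden : ∀ s : ℂ, 1 / 2 ≤ s.re → 3 / 2 ≤ ‖s - t * I + 1‖ := by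
      intro s hs
      have h1 := Complex.abs_re_le_norm (s - t * I + 1)
      have h2 : (s - t * I + 1).re = s.re + 1 := by simp
      rw [h2, abs_of_nonneg (by (clear * - hs; linarith))] at h1
      (clear * - hs h1; linarith)
    have hTn : ∀ s : ℂ, ‖(T : ℂ) ^ (-(s - 1 / 2))‖ = T ^ (-(s.re - 1 / 2)) := by
      intro s
      rw [Complex.norm_cpow_eq_rpow_re_of_pos hT0]
      congr 1
      simp
    exact by
      have hFdiff : ∀ s : ℂ, 0 < s.re → DifferentiableAt ℂ FF s := by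
        intro s hs
        unfold FF
        refine DifferentiableAt.mul (Complex.differentiableAt_Gamma s (fun m hm => ?_)) ?_
        · have := congrArg Complex.re hm
          simp at this
          have h2 : (0 : ℝ) ≤ m := Nat.cast_nonneg m
          (clear * - hs this; linarith)
        · fun_prop
      have hGdiff : ∀ s : ℂ, 1 / 2 ≤ s.re → DifferentiableAt ℂ G s := by
        intro s hs
        rw [hG]
        refine DifferentiableAt.div (DifferentiableAt.mul (hFdiff s (by (clear * - hs; linarith))) ?_) (by fun_prop) ?_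
        · refine DifferentiableAt.const_cpow (by fun_prop) (Or.inl ?_)
          exact_mod_cast hT0.ne'
        · have := hden s hs
          intro h0
          rw [h0, norm_zero] at this
          (clear * - this; linarith)
      have key : ∀ s : ℂ, 1 / 2 ≤ s.re → s.re ≤ 3 / 2 → ‖G s‖ ≤ 2 * K := by
        intro s hs1 hs2
        refine PhragmenLindelof.vertical_strip (a := 1 / 2) (b := 3 / 2) (f := G) (C := 2 * K)
          ?_ ?_ ?_ ?_ hs1 hs2
        · refine ⟨fun z hz => (hGdiff z hz.1.le).differentiableWithinAt, ?_⟩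
          have hcl : closure (Complex.re ⁻¹' Ioo (1 / 2 : ℝ) (3 / 2)) ⊆ {z : ℂ | 1 / 2 ≤ z.re} := by
            apply closure_minimal (fun z hz => hz.1.le)
            exact isClosed_le continuous_const Complex.continuous_re
          exact fun z hz => (hGdiff z (hcl hz)).continuousAt.continuousWithinAt
        · refine ⟨1, ?_, Real.pi / 2, ?_⟩
          · rw [lt_div_iff₀ (by norm_num)]
            (clear * -; linarith [Real.pi_gt_three])
          exact by
            · refine Asymptotics.IsBigO.of_bound G0 ?_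
              exact by
                refine Filter.mem_inf_of_right ?_
                rw [Filter.mem_principal]
                intro z hz
                have hz1 : 1 / 2 < z.re := hz.1
                have hz2 : z.re < 3 / 2 := hz.2
                show ‖G z‖ ≤ G0 * ‖Real.exp (Real.pi / 2 * Real.exp (1 * |z.im|))‖
                rw [Real.norm_of_nonneg (Real.exp_pos _).le, one_mul]
                have h1 : ‖FF z‖ ≤ G0 * Real.exp (Real.pi / 2 * Real.exp |z.im|) := by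
                  unfold FF
                  rw [norm_mul]
                  have h2 : ‖Complex.Gamma z‖ ≤ G0 :=
                    (norm_Gamma_le (by (clear * - hz1; linarith))).trans (hG0 _ ⟨hz1.le, hz2.le⟩)
                  have h3 := norm_cos_le (Real.pi * z / 2)
                  have h4 : ((Real.pi : ℂ) * z / 2).im = Real.pi / 2 * z.im := by
                    rw [show (Real.pi : ℂ) * z / 2 = ((Real.pi / 2 : ℝ) : ℂ) * z by push_cast; ring]
                    exact Complex.im_ofReal_mul _ _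
                  rw [h4, abs_mul, abs_of_nonneg (by positivity : 0 ≤ Real.pi / 2)] at h3
                  have h5 : Real.exp (Real.pi / 2 * |z.im|) ≤ Real.exp (Real.pi / 2 * Real.exp |z.im|) := by
                    apply Real.exp_le_exp.2
                    have := Real.add_one_le_exp |z.im|
                    apply mul_le_mul_of_nonneg_left _ (by positivity)
                    (clear * - this; linarith)
                  calc _ ≤ G0 * Real.exp (Real.pi / 2 * |z.im|) := by (clear * - h2 h3 hG0nn; gcongr)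
                    _ ≤ _ := by gcongr
                have h6 : T ^ (-(z.re - 1 / 2)) ≤ 1 :=
                  Real.rpow_le_one_of_one_le_of_nonpos hT (by (clear * - hz1; linarith))
                have h7 := hden z hz1.le
                rw [hG]
                show ‖FF z * (T : ℂ) ^ (-(z - 1 / 2)) / (z - t * I + 1)‖ ≤ _
                rw [norm_div, norm_mul, hTn, div_le_iff₀ (by (clear * - h7; linarith))]
                have h8 : 0 ≤ G0 * Real.exp (Real.pi / 2 * Real.exp |z.im|) := by positivity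
                calc ‖FF z‖ * T ^ (-(z.re - 1 / 2)) ≤ (G0 * Real.exp (Real.pi / 2 * Real.exp |z.im|)) * 1 := by
                      (clear * - h1 h6 hG0nn; gcongr)
                  _ ≤ _ := by
                      apply mul_le_mul_of_nonneg_left _ h8
                      (clear * - h7; linarith)
        · intro z hz
          have hz' : z = 1 / 2 + (z.im : ℂ) * I := by
            apply Complex.ext
            · simp [hz]
            · simp
          have h1 : ‖FF z‖ = K := by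
            have := norm_FF_half' z.im
            rwa [← hz'] at this
          have h7 := hden z (by rw [hz])
          rw [hG]
          show ‖FF z * (T : ℂ) ^ (-(z - 1 / 2)) / (z - t * I + 1)‖ ≤ _
          rw [norm_div, norm_mul, hTn, div_le_iff₀ (by (clear * - h7; linarith)), h1, hz, sub_self, neg_zero,
            Real.rpow_zero]
          (clear * - hK0 h7; nlinarith)
        · intro z hz
          exact by
            have hz' : z = 3 / 2 + (z.im : ℂ) * I := by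
              apply Complex.ext
              · simp [hz]
              · simp
            have h1 : ‖FF z‖ ≤ (1 + |z.im|) * K := by
              have := norm_FF_three_half z.im
              rw [← hz', norm_FF_half'] at this
              rw [this]
              apply mul_le_mul_of_nonneg_right _ hK0.le
              refine (norm_add_le _ _).trans ?_
              have e1 : ‖(1 / 2 : ℂ)‖ = 1 / 2 := by norm_num
              rw [e1, norm_mul, Complex.norm_I, mul_one, Complex.norm_real, Real.norm_eq_abs]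
              (clear * -; linarith)
            rw [hG]
            show ‖FF z * (T : ℂ) ^ (-(z - 1 / 2)) / (z - t * I + 1)‖ ≤ _
            have h7 := hden z (by rw [hz]; norm_num)
            rw [norm_div, norm_mul, hTn, div_le_iff₀ (by (clear * - h7; linarith)), hz]
            have h3 : T ^ (-((3 / 2 : ℝ) - 1 / 2)) = T⁻¹ := by
              rw [show -((3 / 2 : ℝ) - 1 / 2) = -1 by norm_num, Real.rpow_neg_one]
            rw [h3]
            have h4 : 1 + |z.im| ≤ T * (1 + |z.im - t|) := by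
              have h5 : |z.im| ≤ |z.im - t| + |t| := by
                have := abs_add_le (z.im - t) t
                rwa [sub_add_cancel] at this
              have h6 := mul_nonneg (abs_nonneg t) (abs_nonneg (z.im - t))
              rw [hTdef]
              (clear * - h5 h6; nlinarith)
            have h8 : |z.im - t| ≤ ‖z - t * I + 1‖ := by
              have h1 := Complex.abs_im_le_norm (z - t * I + 1)
              have e2 : (z - t * I + 1).im = z.im - t := by simp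
              rwa [e2] at h1
            have h9 : (1 + |z.im|) * T⁻¹ ≤ 1 + |z.im - t| := by
              rw [← div_eq_mul_inv, div_le_iff₀ hT0, mul_comm]
              exact h4
            have hTi : 0 ≤ T⁻¹ := inv_nonneg.2 hT0.le
            calc ‖FF z‖ * T⁻¹ ≤ ((1 + |z.im|) * K) * T⁻¹ := mul_le_mul_of_nonneg_right h1 hTi
              _ = K * ((1 + |z.im|) * T⁻¹) := by ring
              _ ≤ K * (1 + |z.im - t|) := mul_le_mul_of_nonneg_left h9 hK0.le
              _ ≤ K * (2 * ‖z - t * I + 1‖) := by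
                  apply mul_le_mul_of_nonneg_left _ hK0.le
                  (clear * - h7 h8; linarith)
              _ = _ := by ring
      have hfin := key ((σ : ℂ) + t * I) (by simpa using hσ1) (by simpa using hσ2)
      rw [hG] at hfin
      simp only at hfin
      have hre : ((σ : ℂ) + t * I).re = σ := by simp
      have hd1 : (σ : ℂ) + t * I - t * I + 1 = ((σ + 1 : ℝ) : ℂ) := by push_cast; ring
      rw [norm_div, norm_mul, hTn, hre, hd1, Complex.norm_real, Real.norm_of_nonneg (by (clear * - hσ1; linarith)),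
        div_le_iff₀ (by (clear * - hσ1; linarith))] at hfin
      have hp : T ^ (-(σ - 1 / 2)) = (T ^ (σ - 1 / 2))⁻¹ := Real.rpow_neg hT0.le _
      rw [hp] at hfin
      have hpos : 0 < T ^ (σ - 1 / 2) := Real.rpow_pos_of_pos hT0 _
      have h9 : ‖FF ((σ : ℂ) + t * I)‖ =
          ‖FF ((σ : ℂ) + t * I)‖ * (T ^ (σ - 1 / 2))⁻¹ * T ^ (σ - 1 / 2) := by
        (clear * - hT; field_simp)
      rw [h9]
      calc _ ≤ (2 * K * (σ + 1)) * T ^ (σ - 1 / 2) := mul_le_mul_of_nonneg_right hfin hpos.le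
        _ ≤ (5 * K) * T ^ (σ - 1 / 2) := by
            apply mul_le_mul_of_nonneg_right _ hpos.le
            (clear * - hK0 hσ2; nlinarith)

end Pool.Agent.M20.Helper73.KC
end
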