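import Mathlib
import Pool.Agent.Helper53.KO.G09
import Pool.Agent.Helper53.KO.G10
import Pool.Agent.Helper53.KO.G11
import Pool.Agent.Helper53.KO.G14

set_option linter.all false

/- Helper53.KN.Helper60.KG.E12 -/
section
/-! KG-1, high zeros -/

set_option autoImplicit false
open Filter Topology

namespace Pool.Agent.M20.Helper60.KG

open Pool.Agent.M20.Helper10.QRH Pool.Agent.M20.Helper46.KSZ Pool.Agent.M20.Helper18.KSZ

/-- high zeros are negligible -/
def HighZerosG : Prop := ∀ d η : ℝ, -(1 / 2) ≤ d → d ≤ 1/100 → 0 < η → ∃ p : ℕ, 1 ≤ p ∧ ∃ K : ℕ, ∀ k : ℕ, K ≤ k →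
  ∀ (M : Multiset ℂ) (Z : ℂ → ℂ), Box (2 ^ (5 * k)) M Z → ∀ j < 2 ^ (k - Pool.Agent.M20.Helper46.KSZ.ee d k),
    ((M.filter (fun ρ => (2 : ℝ) ^ ((1/2 + d + η) * k) < |ρ.im|)).map (fun ρ =>
      ‖Complex.exp (ρ * uu d k j) * KK (lamk p d k) ρ ^ p‖)).sum ≤ 1

/-- E12 -/
theorem highZerosG (hK : KFacts) (h4 : CardBox) : HighZerosG := by
  intro d η hdm hd hη
  obtain ⟨C1, hC1⟩ := hK.bound
  obtain ⟨C2, hC2, hcard⟩ := h4
  set p : ℕ := ⌈8 / η⌉₊ with hp
  have hpd : 8 ≤ (p : ℝ) * η := by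
    have := Nat.le_ceil (8 / η)
    rw [← hp, div_le_iff₀ hη] at this
    exact this
  have hp1 : 1 ≤ p := by
    rw [hp]
    exact Nat.ceil_pos.mpr (by positivity)
  have hp1' : (1 : ℝ) ≤ p := by exact_mod_cast hp1
  have hp0 : (0 : ℝ) < p := by (clear * - hp1'; linarith)
  set B : ℝ := (|C1| * (16 * p) ^ 2) ^ p with hB
  exact by
    have hB0 : 0 ≤ B := by rw [hB]; (clear * - hη; positivity)
    obtain ⟨K, hKK⟩ := geo_small (2 * (C2 * B))
    refine ⟨p, hp1, max K 100, fun k hk M Z hM j hj => ?_⟩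
    exact by
      have hkK : K ≤ k := (le_max_left _ _).trans hk
      have hk100 : 100 ≤ k := (le_max_right _ _).trans hk
      have hk100' : (100 : ℝ) ≤ k := by exact_mod_cast hk100
      obtain ⟨he1, he2, he3⟩ := ee_largeG hdm hd (by omega : 20 ≤ k)
      set e := Pool.Agent.M20.Helper46.KSZ.ee d k with he
      set X : ℝ := (2 : ℝ) ^ k with hX
      have hX0 : 0 < X := by positivity
      have hlamdef : lamk p d k = (2 : ℝ) ^ e / (8 * p * X) := rfl
      exact by
        set lam := lamk p d k with hlam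
        have hlam0 : 0 < lam := by rw [hlamdef]; positivity
        have heX : (2 : ℝ) ^ e ≤ X := pow_le_pow_right₀ (by norm_num) he3
        have hlam1 : lam ≤ 1 := by
          rw [hlamdef, div_le_one (by positivity)]
          (clear * - hX0 heX hp1'; nlinarith)
        -- the point u
        have huexp : Real.exp (uu d k j) ≤ 2 * X ∧ 0 ≤ uu d k j := by
          have hyH : 2 ^ k + j * 2 ^ e + 2 ^ e ≤ 2 ^ (k + 1) := by
            have h1 : (j + 1) * 2 ^ e ≤ 2 ^ (k - e) * 2 ^ e := Nat.mul_le_mul_right _ hj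
            rw [← pow_add, Nat.sub_add_cancel he3] at h1
            rw [pow_succ]
            (clear * - h1; nlinarith)
          have h1 : ((2 ^ k + j * 2 ^ e + 2 ^ e : ℕ) : ℝ) ≤ ((2 ^ (k + 1) : ℕ) : ℝ) := by
            exact_mod_cast hyH
          push_cast at h1
          have h2 : (0 : ℝ) < 2 ^ e := by positivity
          have h3 : (0 : ℝ) ≤ (j : ℝ) * 2 ^ e := by positivity
          have h4 : (1 : ℝ) ≤ 2 ^ k := one_le_pow₀ (by norm_num)
          unfold uu
          push_cast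
          rw [← he]
          rw [pow_succ] at h1
          constructor
          · rw [Real.exp_log (by (clear * -; positivity)), hX]
            (clear * - h1 h2; linarith)
          · apply Real.log_nonneg
            (clear * - h2 h3 h4; linarith)
        -- one zero
        have hone : ∀ ρ ∈ M.filter (fun ρ => (2 : ℝ) ^ ((1/2 + d + η) * k) < |ρ.im|),
            ‖Complex.exp (ρ * uu d k j) * KK lam ρ ^ p‖ ≤ 2 * X * (B * (2 : ℝ) ^ (-(16 * k : ℝ))) := by
          intro ρ hρ
          rw [Multiset.mem_filter] at hρ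
          obtain ⟨hρM, him⟩ := hρ
          obtain ⟨_, h1, h2, _⟩ := hM.mem ρ hρM
          rw [norm_mul, norm_pow]
          have e1 : ‖Complex.exp (ρ * uu d k j)‖ ≤ 2 * X := by
            rw [Complex.norm_exp]
            have : (ρ * (uu d k j : ℂ)).re = ρ.re * uu d k j := by simp
            rw [this]
            refine le_trans (Real.exp_le_exp.mpr ?_) huexp.1
            (clear * - huexp h2; nlinarith [huexp.2])
          have e2 : ‖KK lam ρ‖ ≤ |C1| * (16 * p) ^ 2 * (2 : ℝ) ^ (-(2 * η * k)) := by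
            have g1 := hC1 lam hlam0 hlam1 ρ (by (clear * - h1 h2; linarith)) (by (clear * - h1 h2; linarith))
            have g2 : (2 : ℝ) ^ (η * k) / (16 * p) ≤ lam * |ρ.im| := by
              have f1 : (2 : ℝ) ^ ((1 / 2 - d) * k - 1) ≤ (2 : ℝ) ^ e := by
                rw [← Real.rpow_natCast 2 e]
                apply Real.rpow_le_rpow_of_exponent_le (by norm_num)
                have := Nat.lt_floor_add_one ((k : ℝ) * (1 / 2 - d))
                rw [he]
                unfold Pool.Agent.M20.Helper46.KSZ.ee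
                (clear * - this; linarith)
              have f2 : (2 : ℝ) ^ (η * k) / (16 * p) =
                  (2 : ℝ) ^ ((1 / 2 - d) * k - 1) / (8 * p * X) * (2 : ℝ) ^ ((1/2 + d + η) * k) := by
                rw [hX, ← Real.rpow_natCast 2 k]
                have g3 : (2 : ℝ) ^ ((1 / 2 - d) * k - 1) * (2 : ℝ) ^ ((1/2 + d + η) * k) =
                    (2 : ℝ) ^ (η * k) * (2 : ℝ) ^ (k : ℝ) / 2 := by
                  rw [← Real.rpow_add (by norm_num), ← Real.rpow_add (by norm_num)]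
                  have : (2 : ℝ) ^ (η * k + k) / 2 = (2 : ℝ) ^ (η * k + k - 1) := by
                    rw [Real.rpow_sub_one (by norm_num)]
                  rw [this]
                  congr 1
                  ring
                have g4 : (0 : ℝ) < (2 : ℝ) ^ (k : ℝ) := by positivity
                rw [div_mul_eq_mul_div, g3]
                field_simp
                ring
              rw [f2, hlamdef]
              (clear * - f1 hη him; gcongr)
            have g3 : 0 < (2 : ℝ) ^ (η * k) / (16 * p) := by positivity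
            have g4 : ((2 : ℝ) ^ (η * k) / (16 * p)) ^ 2 ≤ 1 + (lam * ρ.im) ^ 2 := by
              have : (lam * ρ.im) ^ 2 = (lam * |ρ.im|) ^ 2 := by
                rw [mul_pow, mul_pow, sq_abs]
              rw [this]
              have := pow_le_pow_left₀ g3.le g2 2
              (clear * - h1 h2 this; linarith)
            calc ‖KK lam ρ‖ ≤ C1 / (1 + (lam * ρ.im) ^ 2) := g1
              _ ≤ |C1| / (1 + (lam * ρ.im) ^ 2) := by
                  apply div_le_div_of_nonneg_right (le_abs_self _)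
                  (clear * -; positivity)
              _ ≤ |C1| / ((2 : ℝ) ^ (η * k) / (16 * p)) ^ 2 := by
                  apply div_le_div_of_nonneg_left (abs_nonneg _) (by positivity) g4
              _ = _ := by
                  have g5 : (2 : ℝ) ^ (-(2 * η * k)) = (((2 : ℝ) ^ (η * k)) ^ 2)⁻¹ := by
                    rw [← Real.rpow_natCast, ← Real.rpow_mul (by norm_num),
                      ← Real.rpow_neg (by norm_num)]
                    congr 1
                    push_cast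
                    ring
                  rw [g5, div_pow, div_div_eq_mul_div]
                  (clear * - hp1; field_simp)
          have e3 : ‖KK lam ρ‖ ^ p ≤ B * (2 : ℝ) ^ (-(16 * k : ℝ)) := by
            calc ‖KK lam ρ‖ ^ p ≤ (|C1| * (16 * p) ^ 2 * (2 : ℝ) ^ (-(2 * η * k))) ^ p :=
                  pow_le_pow_left₀ (norm_nonneg _) e2 p
              _ = B * ((2 : ℝ) ^ (-(2 * η * k))) ^ p := by rw [mul_pow]
              _ ≤ B * (2 : ℝ) ^ (-(16 * k : ℝ)) := by
                  apply mul_le_mul_of_nonneg_left _ hB0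
                  rw [← Real.rpow_natCast, ← Real.rpow_mul (by norm_num)]
                  apply Real.rpow_le_rpow_of_exponent_le (by norm_num)
                  have : (16 : ℝ) * k ≤ 2 * (p * η) * k := by (clear * - hpd; nlinarith)
                  (clear * - this; nlinarith)
          exact mul_le_mul e1 e3 (by (clear * -; positivity)) (by positivity)
        refine (multiset_sum_le' _ _ _ hone).trans ?_
        have hc : (Multiset.card (M.filter (fun ρ => (2 : ℝ) ^ ((1/2 + d + η) * k) < |ρ.im|)) : ℝ) ≤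
            C2 * 2 ^ (5 * k) * (5 * k + 2) := by
          have g1 := hcard (2 ^ (5 * k)) M Z (one_le_pow₀ (by norm_num)) hM
          have g2 : (Multiset.card (M.filter (fun ρ => (2 : ℝ) ^ ((1/2 + d + η) * k) < |ρ.im|)) : ℝ) ≤
              (Multiset.card M : ℝ) := by
            exact_mod_cast Multiset.card_le_card (Multiset.filter_le _ _)
          refine g2.trans (g1.trans ?_)
          apply mul_le_mul_of_nonneg_left _ (by positivity)
          have g3 : (2 : ℝ) ^ (5 * k) + 2 ≤ (2 : ℝ) ^ (5 * k + 1) := by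
            have : (2 : ℝ) ≤ 2 ^ (5 * k) := by
              calc (2 : ℝ) = 2 ^ 1 := by norm_num
                _ ≤ 2 ^ (5 * k) := pow_le_pow_right₀ (by norm_num) (by omega)
            rw [pow_succ]; (clear * - this; linarith)
          calc Real.log ((2 : ℝ) ^ (5 * k) + 2) ≤ Real.log ((2 : ℝ) ^ (5 * k + 1)) :=
                Real.log_le_log (by positivity) g3
            _ = ((5 * k + 1 : ℕ) : ℝ) * Real.log 2 := Real.log_pow _ _
            _ ≤ ((5 * k + 1 : ℕ) : ℝ) * 1 := by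
                apply mul_le_mul_of_nonneg_left _ (by positivity)
                have := Real.log_two_lt_d9
                (clear * - this; linarith)
            _ ≤ 5 * k + 2 := by push_cast; (clear * -; linarith)
        exact by
          have hX16 : (2 : ℝ) ^ (-(16 * k : ℝ)) = (1 / 2 : ℝ) ^ (16 * k) := by
            rw [Real.rpow_neg (by norm_num), one_div, inv_pow]
            congr 1
            rw [← Real.rpow_natCast]
            congr 1
            push_cast
            ring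
          calc (Multiset.card (M.filter (fun ρ => (2 : ℝ) ^ ((1/2 + d + η) * k) < |ρ.im|)) : ℝ) *
                (2 * X * (B * (2 : ℝ) ^ (-(16 * k : ℝ)))) ≤
                (C2 * 2 ^ (5 * k) * (5 * k + 2)) * (2 * X * (B * (2 : ℝ) ^ (-(16 * k : ℝ)))) := by
                apply mul_le_mul_of_nonneg_right hc
                (clear * - hη; positivity)
            _ = 2 * (C2 * B) * ((5 * k + 2) * ((2 : ℝ) ^ (5 * k) * 2 ^ k * (1 / 2 : ℝ) ^ (16 * k))) := by
                rw [hX16, hX]; ring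
            _ ≤ 2 * (C2 * B) * ((5 * k + 2) * (1 / 2 : ℝ) ^ k) := by
                apply mul_le_mul_of_nonneg_left _ (by (clear * - hC2 hη; positivity))
                apply mul_le_mul_of_nonneg_left _ (by positivity)
                have f1 : (2 : ℝ) ^ (5 * k) * 2 ^ k * (1 / 2 : ℝ) ^ (16 * k) = (1 / 2 : ℝ) ^ (10 * k) := by
                  have : 16 * k = 6 * k + 10 * k := by ring
                  rw [this, pow_add, ← mul_assoc, ← pow_add]
                  have h7 : 5 * k + k = 6 * k := by ring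
                  rw [h7, ← mul_pow]
                  norm_num
                rw [f1]
                apply pow_le_pow_of_le_one (by norm_num) (by norm_num)
                omega
            _ ≤ 1 := hKK k hkK

end Pool.Agent.M20.Helper60.KG
end

/- Helper53.KN.Helper60.KG.LineFew -/
section
/-! KG-1, the line integral is small outside of few cells -/

set_option autoImplicit false
open Filter Topology MeasureTheory

namespace Pool.Agent.M20.Helper60.KG

open Pool.Agent.M20.Helper10.QRH Pool.Agent.M20.Helper69.QRH Pool.Agent.M20.Helper46.KSZ Pool.Agent.M20.Helper8.KSZ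
open Pool.Agent.M20.Helper8.KSZ.LF (cc cc_pos cc_eq uu_eq lamk_pos)

/-- the line integral is small outside of few cells -/
def LineFewG : Prop := ∀ (p : ℕ) (d η : ℝ), 1 ≤ p → -(1 / 2) ≤ d → d ≤ 1/100 → 0 < η → ∃ K : ℕ, ∀ k : ℕ, K ≤ k →
  ∀ (M : Multiset ℂ) (Z : ℂ → ℂ), Box (2 ^ (5 * k)) M Z →
    (((Finset.range (2 ^ (k - Pool.Agent.M20.Helper46.KSZ.ee d k))).filter (fun j =>
      1/100 * (2 : ℝ) ^ k ≤ ‖line p (lamk p d k) (2 ^ (5 * k)) Z (uu d k j)‖)).card : ℝ) ≤
      (2 : ℝ) ^ ((0.21 + 2 * d + 3 * η) * k)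

lemma ee_leG {d : ℝ} (hd : -(1 / 2) ≤ d) (k : ℕ) : Pool.Agent.M20.Helper46.KSZ.ee d k ≤ k := by
  have h1 : (k : ℝ) * (1/2 - d) ≤ k := by
    have : (0 : ℝ) ≤ k := Nat.cast_nonneg k
    nlinarith
  have h2 := Nat.floor_le_floor h1
  rwa [Nat.floor_natCast] at h2

lemma cc_ltG (d : ℝ) (hd : -(1 / 2) ≤ d) (k j : ℕ) (hj : j < 2 ^ (k - Pool.Agent.M20.Helper46.KSZ.ee d k)) : cc d k j ≤ 2 * 2 ^ k := by
  rw [cc_eq]
  have h1 : (j + 1) * 2 ^ Pool.Agent.M20.Helper46.KSZ.ee d k ≤ 2 ^ k := by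
    calc (j + 1) * 2 ^ Pool.Agent.M20.Helper46.KSZ.ee d k ≤ 2 ^ (k - Pool.Agent.M20.Helper46.KSZ.ee d k) * 2 ^ Pool.Agent.M20.Helper46.KSZ.ee d k := Nat.mul_le_mul_right _ hj
      _ = 2 ^ k := by rw [← pow_add, Nat.sub_add_cancel (ee_leG hd k)]
  have h2 : ((j : ℝ) + 1) * 2 ^ Pool.Agent.M20.Helper46.KSZ.ee d k ≤ 2 ^ k := by exact_mod_cast h1
  have h3 : (0 : ℝ) < 2 ^ Pool.Agent.M20.Helper46.KSZ.ee d k := by positivity
  (clear * - h2 h3; linarith)

lemma uu_sepG {p : ℕ} (hp : 1 ≤ p) (d : ℝ) (hd : -(1 / 2) ≤ d) (k j j' : ℕ) (hjj : j < j')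
    (hj : j' < 2 ^ (k - Pool.Agent.M20.Helper46.KSZ.ee d k)) : lamk p d k ≤ uu d k j' - uu d k j := by
  rw [uu_eq, uu_eq]
  have h1 : cc d k j + 2 ^ Pool.Agent.M20.Helper46.KSZ.ee d k ≤ cc d k j' := by
    rw [cc_eq, cc_eq]
    have h2 : (j : ℝ) + 1 ≤ j' := by exact_mod_cast hjj
    have h3 : (0 : ℝ) < 2 ^ Pool.Agent.M20.Helper46.KSZ.ee d k := by positivity
    (clear * - h2 h3; nlinarith)
  have h3 : (0 : ℝ) < 2 ^ Pool.Agent.M20.Helper46.KSZ.ee d k := by positivity
  have h4 := Helper30.QRH.log_gap (cc_pos d k j) (by (clear * - h1 h3; linarith) : cc d k j ≤ cc d k j')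
  refine le_trans ?_ h4
  have h5 := cc_ltG d hd k j' hj
  have h6 := cc_pos d k j'
  unfold lamk
  have hp' : (1 : ℝ) ≤ p := by exact_mod_cast hp
  have hX : (0 : ℝ) < 2 ^ k := by positivity
  rw [div_le_div_iff₀ (by positivity) h6]
  have h7 : (2 : ℝ) * 2 ^ k ≤ 8 * p * 2 ^ k := by
    have : (2 : ℝ) ≤ 8 * p := by (clear * - hp'; linarith)
    exact mul_le_mul_of_nonneg_right this hX.le
  calc (2 : ℝ) ^ Pool.Agent.M20.Helper46.KSZ.ee d k * cc d k j' ≤ 2 ^ Pool.Agent.M20.Helper46.KSZ.ee d k * (8 * p * 2 ^ k) := by gcongr; (clear * - h5 h7; linarith)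
    _ ≤ (cc d k j' - cc d k j) * (8 * p * 2 ^ k) := by
        apply mul_le_mul_of_nonneg_right _ (by positivity)
        (clear * - h1; linarith)

lemma uu_absG {p : ℕ} (hp : 1 ≤ p) (d : ℝ) (hd : -(1 / 2) ≤ d) (k j j' : ℕ) (hne : j ≠ j')
    (hj : j < 2 ^ (k - Pool.Agent.M20.Helper46.KSZ.ee d k)) (hj' : j' < 2 ^ (k - Pool.Agent.M20.Helper46.KSZ.ee d k)) :
    lamk p d k ≤ |uu d k j - uu d k j'| := by
  rcases lt_or_gt_of_ne hne with h | h
  · rw [abs_sub_comm]
    exact (uu_sepG hp d hd k j j' h hj').trans (le_abs_self _)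
  · exact (uu_sepG hp d hd k j' j h hj).trans (le_abs_self _)

lemma lamk_leG {p : ℕ} (hp : 1 ≤ p) (d : ℝ) (hd : -(1 / 2) ≤ d) (k : ℕ) : lamk p d k ≤ 1/2 := by
  unfold lamk
  have hp' : (1 : ℝ) ≤ p := by exact_mod_cast hp
  have hX : (0 : ℝ) < 2 ^ k := by positivity
  rw [div_le_iff₀ (by positivity)]
  have h1 : (2 : ℝ) ^ Pool.Agent.M20.Helper46.KSZ.ee d k ≤ 2 ^ k := pow_le_pow_right₀ (by norm_num) (ee_leG hd k)
  (clear * - hX h1 hp'; nlinarith)

lemma exp_uuG (d : ℝ) (hd : -(1 / 2) ≤ d) (k j : ℕ) (hj : j < 2 ^ (k - Pool.Agent.M20.Helper46.KSZ.ee d k)) :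
    Real.exp (0.605 * uu d k j) ≤ 2 * (2 : ℝ) ^ ((0.605 : ℝ) * k) := by
  rw [uu_eq, mul_comm, ← Real.rpow_def_of_pos (cc_pos d k j)]
  calc cc d k j ^ (0.605 : ℝ) ≤ (2 * 2 ^ k) ^ (0.605 : ℝ) :=
        Real.rpow_le_rpow (cc_pos d k j).le (cc_ltG d hd k j hj) (by norm_num)
    _ = (2 : ℝ) ^ (0.605 : ℝ) * (2 : ℝ) ^ ((0.605 : ℝ) * k) := by
        rw [Real.mul_rpow (by norm_num) (by positivity), ← Real.rpow_natCast (2 : ℝ) k,
          ← Real.rpow_mul (by norm_num), mul_comm (k : ℝ)]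
    _ ≤ 2 * (2 : ℝ) ^ ((0.605 : ℝ) * k) := by
        gcongr
        calc (2 : ℝ) ^ (0.605 : ℝ) ≤ (2 : ℝ) ^ (1 : ℝ) :=
              Real.rpow_le_rpow_of_exponent_le (by norm_num) (by norm_num)
          _ = 2 := Real.rpow_one 2

theorem lineFewG (hK : KFacts) (hG : GBound) (hD : Duality) : LineFewG := by
  obtain ⟨CK0, hCK0⟩ := hK.bound
  obtain ⟨CG, hCG0, hCG⟩ := hG
  obtain ⟨CD, hCD⟩ := hD
  set CK : ℝ := |CK0| + 1 with hCKd
  have hCK1 : 1 ≤ CK := by linarith [abs_nonneg CK0]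
  intro p d η hp hd hd1 hη
  have hp' : (1 : ℝ) ≤ p := by exact_mod_cast hp
  set C' : ℝ := 200 * |CD| * (2 * (CK ^ p * (CG * 36))) * (9 * p) * (16 * p) with hC'
  obtain ⟨K, hKk⟩ := LF.exists_K C' η hη
  refine ⟨K + 1, ?_⟩
  intro k hk M Z hB
  have hk1 : 1 ≤ k := by omega
  have hk1' : (1 : ℝ) ≤ k := by exact_mod_cast hk1
  exact by
    set lam := lamk p d k with hlam
    have hl : 0 < lam := LF.lamk_pos hp d k
    have hl2 : lam ≤ 1/2 := lamk_leG hp d hd k
    set T : ℝ := 2 ^ (5 * k) with hTd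
    have hT : 1 ≤ T := one_le_pow₀ (by norm_num)
    obtain ⟨hG1, -⟩ := hCG T M Z hT hB
    set L : ℝ := CG * (36 * (k : ℝ) ^ 2) with hLd
    exact by
      have hL0 : 0 ≤ L := by positivity
      have hlogT : (Real.log (T + 2)) ^ 2 ≤ 36 * (k : ℝ) ^ 2 := by
        have h1 := LF.logT k hk1
        have h2 : 0 ≤ Real.log (T + 2) := Real.log_nonneg (by (clear * - hl hl2 hT; linarith))
        calc (Real.log (T + 2)) ^ 2 ≤ (6 * (k : ℝ)) ^ 2 := by (clear * - h2 h1; gcongr)
          _ = _ := by ring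
      set B : ℝ := 2 * (CK ^ p * L) with hBd
      have hB0 : 0 ≤ B := by (clear * - hCG0 hk1; positivity)
      have hgb := LF.gg_bound hp (lam := lam) (T := T) (CK := CK) (L := L) (Z := Z) (by (clear * - hCK1 hl hl2; linarith)) hL0
        (by
          intro s h0 h2
          refine (hCK0 lam hl (by (clear * - hl hl2; linarith)) s h0 h2).trans ?_
          apply div_le_div_of_nonneg_right _ (by positivity)
          (clear * - hl hl2; linarith [le_abs_self CK0]))
        (by
          intro s h0 h2 h3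
          refine (hG1 s h0 h2 h3).trans ?_
          rw [hLd]
          gcongr)
      set F := (Finset.range (2 ^ (k - Pool.Agent.M20.Helper46.KSZ.ee d k))).filter (fun j =>
          1/100 * (2 : ℝ) ^ k ≤ ‖line p lam T Z (uu d k j)‖) with hF
      exact by
        have hFj : ∀ j ∈ F, j < 2 ^ (k - Pool.Agent.M20.Helper46.KSZ.ee d k) := by
          intro j hj
          exact Finset.mem_range.1 (Finset.mem_filter.1 hj).1
        have hinj : Set.InjOn (uu d k) F := by
          intro a ha b hb hab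
          by_contra hne
          have := uu_absG hp d hd k a b hne (hFj a ha) (hFj b hb)
          rw [hab, sub_self, abs_zero] at this
          (clear * - hl this; linarith)
        have hdual := hCD lam hl hl2 (LF.gg p lam T Z) (LF.gg_meas hl hB.diff) B hB0 hgb
          (F.image (uu d k)) (by
            intro u hu u' hu' hne
            obtain ⟨a, ha, rfl⟩ := Finset.mem_image.1 hu
            obtain ⟨b, hb, rfl⟩ := Finset.mem_image.1 hu'
            exact uu_absG hp d hd k a b (fun h => hne (by rw [h])) (hFj a ha) (hFj b hb))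
        rw [Finset.sum_image hinj, Finset.card_image_of_injOn hinj] at hdual
        -- lower bound for each term
        set E : ℝ := (2 : ℝ) ^ ((0.605 : ℝ) * k) with hE
        have hE0 : 0 < E := by positivity
        have hlow : ∀ j ∈ F, (2 : ℝ) ^ k / (200 * E) ≤
            ‖∫ t : ℝ, LF.gg p lam T Z t * Complex.exp (t * (uu d k j) * Complex.I)‖ := by
          intro j hj
          have h1 := (Finset.mem_filter.1 hj).2
          have h2 := LF.line_norm (p := p) (lam := lam) (T := T) (by (clear * - hl hl2 hT; linarith)) Z (uu d k j)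
          have h3 := exp_uuG d hd k j (hFj j hj)
          rw [div_le_iff₀ (by positivity)]
          have h4 : Real.exp (0.605 * uu d k j) *
              ‖∫ t : ℝ, LF.gg p lam T Z t * Complex.exp (t * (uu d k j) * Complex.I)‖ ≤
              (2 * E) * ‖∫ t : ℝ, LF.gg p lam T Z t * Complex.exp (t * (uu d k j) * Complex.I)‖ := by
            (clear * - h3; gcongr)
          (clear * - h1 h2 h4; linarith)
        have hsum : (F.card : ℝ) * ((2 : ℝ) ^ k / (200 * E)) ≤
            CD * B * Real.log (1 / lam) / lam * Real.sqrt F.card := by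
          refine le_trans ?_ hdual
          rw [← nsmul_eq_mul]
          exact Finset.card_nsmul_le_sum _ _ _ hlow
        -- final computation
        exact by
          rcases Nat.eq_zero_or_pos F.card with h0 | hpos
          · rw [h0]
            simp only [Nat.cast_zero]
            positivity
          have hFc : (0 : ℝ) < F.card := by exact_mod_cast hpos
          set S : ℝ := Real.sqrt F.card with hS
          have hS0 : 0 < S := Real.sqrt_pos.2 hFc
          have hSS : (F.card : ℝ) = S * S := (Real.mul_self_sqrt hFc.le).symm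
          have hlog0 : 0 ≤ Real.log (1 / lam) := Real.log_nonneg (by rw [le_div_iff₀ hl]; (clear * - hl hl2; linarith))
          have hS1 : S * ((2 : ℝ) ^ k / (200 * E)) ≤ CD * B * Real.log (1 / lam) / lam := by
            rw [hSS] at hsum
            have : S * (S * ((2 : ℝ) ^ k / (200 * E))) ≤ S * (CD * B * Real.log (1 / lam) / lam) := by
              (clear * - hsum; linarith)
            exact le_of_mul_le_mul_left this hS0
          have h1 := LF.inv_lamk hp d k
          exact by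
            have h2 := LF.log_inv_lamk hp d k hk1
            have hS2 : CD * B * Real.log (1 / lam) / lam ≤
                |CD| * B * (9 * p * k) * (16 * p * (2 : ℝ) ^ ((1/2 + d) * k)) := by
              calc CD * B * Real.log (1 / lam) / lam = CD * (B * Real.log (1 / lam) * (1 / lam)) := by
                    (clear * - hl; field_simp)
                _ ≤ |CD| * (B * Real.log (1 / lam) * (1 / lam)) := by
                    apply mul_le_mul_of_nonneg_right (le_abs_self _) (by (clear * - hCG0 hk1 hlog0 hl; positivity))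
                _ ≤ |CD| * (B * (9 * p * k) * (16 * p * (2 : ℝ) ^ ((1/2 + d) * k))) := by (clear * - h2 hCG0 hk1 h1 hl hp; gcongr)
                _ = _ := by ring
            have hXk : (2 : ℝ) ^ k = (2 : ℝ) ^ (k : ℝ) := (Real.rpow_natCast _ _).symm
            have hS3 : S ≤ C' * (k : ℝ) ^ 3 * (2 : ℝ) ^ ((0.105 + d) * k) := by
              have h3 : S * ((2 : ℝ) ^ k / (200 * E)) ≤
                  |CD| * B * (9 * p * k) * (16 * p * (2 : ℝ) ^ ((1/2 + d) * k)) := hS1.trans hS2
              have h4 : (2 : ℝ) ^ ((1/2 + d) * k) * E = (2 : ℝ) ^ ((0.105 + d) * k) * (2 : ℝ) ^ k := by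
                rw [hE, hXk, ← Real.rpow_add (by norm_num), ← Real.rpow_add (by norm_num)]
                congr 1
                ring
              rw [← mul_div_assoc, div_le_iff₀ (by positivity)] at h3
              have h5 : |CD| * B * (9 * p * k) * (16 * p * (2 : ℝ) ^ ((1/2 + d) * k)) * (200 * E) =
                  C' * (k : ℝ) ^ 3 * (2 : ℝ) ^ ((0.105 + d) * k) * (2 : ℝ) ^ k := by
                calc _ = 200 * |CD| * B * (9 * p * k) * (16 * p) * ((2 : ℝ) ^ ((1/2 + d) * k) * E) := by ring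
                  _ = 200 * |CD| * B * (9 * p * k) * (16 * p) *
                      ((2 : ℝ) ^ ((0.105 + d) * k) * (2 : ℝ) ^ k) := by rw [h4]
                  _ = _ := by
                    rw [hC', hBd, hLd]
                    ring
              rw [h5] at h3
              exact le_of_mul_le_mul_right h3 (by positivity)
            have hS4 : S ≤ (2 : ℝ) ^ ((0.105 + d + 3/2 * η) * k) := by
              refine hS3.trans ?_
              have h6 := hKk k (by omega)
              calc C' * (k : ℝ) ^ 3 * (2 : ℝ) ^ ((0.105 + d) * k) ≤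
                  (2 : ℝ) ^ (3/2 * η * k) * (2 : ℝ) ^ ((0.105 + d) * k) := by (clear * - h6; gcongr)
                _ = _ := by
                  rw [← Real.rpow_add (by norm_num)]
                  congr 1
                  ring
            rw [hSS]
            calc S * S ≤ (2 : ℝ) ^ ((0.105 + d + 3/2 * η) * k) * (2 : ℝ) ^ ((0.105 + d + 3/2 * η) * k) :=
                  mul_le_mul hS4 hS4 hS0.le (by positivity)
              _ = (2 : ℝ) ^ ((0.21 + 2 * d + 3 * η) * k) := by
                rw [← Real.rpow_add (by norm_num)]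
                congr 1
                ring

end Pool.Agent.M20.Helper60.KG
end

/- Helper53.KN.Helper60.KG.Assembly -/
section
/-! KG-1, assembly -/

set_option autoImplicit false
set_option linter.all false
open Filter Topology MeasureTheory Complex
open scoped Classical

namespace Pool.Agent.M20.Helper60.KG

open Pool.Agent.M20.Helper10.QRH Pool.Agent.M20.Helper69.QRH Pool.Agent.M20.Helper46.KSZ

/-- the zeros with `3/5 < Re ρ` and `|Im ρ| ≤ 2^(s k)` -/
def zeroSetG (s : ℝ) (k : ℕ) : Set ℂ :=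
  {ρ : ℂ | riemannZeta ρ = 0 ∧ 3/5 < ρ.re ∧ |ρ.im| ≤ (2 : ℝ) ^ (s * k)}

lemma zeroSetG_finite (s : ℝ) (k : ℕ) : (zeroSetG s k).Finite := by
  have h := zeroSet_finite ((s - 1 / 2) / 2) k
  have e : (1 / 2 + 2 * ((s - 1 / 2) / 2)) = s := by ring
  unfold zeroSet at h
  rw [e] at h
  exact h

/-- explicit formula for cells of length `2^⌊k (1/2 - d)⌋`, `-1/2 ≤ d ≤ 1/100`, with room `η` -/
def ExplicitCellsG : Prop := ∀ d η : ℝ, -(1 / 2) ≤ d → d ≤ 1/100 → 0 < η → η ≤ 1 →
  ∃ c₀ : ℝ, 0 < c₀ ∧ ∃ K : ℕ, ∀ k : ℕ, K ≤ k →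
  ∃ (c : ℂ → ℂ) (Ex : Finset ℕ), (∀ ρ : ℂ, 0 ≤ ρ.re → ρ.re ≤ 1 → ‖c ρ‖ ≤ 2) ∧
    (Ex.card : ℝ) ≤ (2 : ℝ) ^ ((0.21 + 2 * d + 3 * η) * k) ∧
    ∀ j < 2 ^ (k - Pool.Agent.M20.Helper46.KSZ.ee d k), j ∉ Ex → Few c₀ d k j →
      ∀ S : Finset ℂ, (∀ ρ, ρ ∈ S ↔ ρ ∈ zeroSetG (1/2 + d + η) k) →
      3/4 ≤ ‖∑ ρ ∈ S, (analyticOrderNatAt riemannZeta ρ : ℂ) * c ρ *
        Complex.exp ((ρ - 1) * uu d k j)‖

private theorem exp_half_le : Real.exp (1 / 2) ≤ 2 := by
  have h : Real.exp (1 / 2) ^ 2 ≤ 2 ^ 2 := by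
    rw [← Real.exp_nat_mul, show ((2 : ℕ) : ℝ) * (1 / 2) = 1 by norm_num]
    exact Real.exp_one_lt_three.le.trans (by norm_num)
  exact (pow_le_pow_iff_left₀ (Real.exp_pos _).le zero_le_two two_ne_zero).1 h

/-- numerical error of the shifted formula -/
lemma err_smallG (C : ℝ) (hC : 0 < C) (p : ℕ) (hp : 1 ≤ p) (d : ℝ) (hd : -(1 / 2) ≤ d) :
    ∃ K : ℕ, ∀ k : ℕ, K ≤ k → ∀ u : ℝ, Real.exp u ≤ 2 * 2 ^ k →
      C * Real.exp (2 * (u + ((p - 1 : ℕ) : ℝ) * lamk p d k)) *
        (Real.log ((2 : ℝ) ^ (5 * k) + 2)) ^ 2 / (lamk p d k ^ 2 * 2 ^ (5 * k)) ≤ 1/100 * 2 ^ k := by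
  obtain ⟨K, hK⟩ := ev_sq (C * 8 * 25 * 64 * p ^ 2 * 100)
  refine ⟨max K 1, fun k hk u hu => ?_⟩
  have hkK : K ≤ k := le_trans (le_max_left _ _) hk
  have hk1 : 1 ≤ k := le_trans (le_max_right _ _) hk
  have hk1r : (1 : ℝ) ≤ k := by exact_mod_cast hk1
  have hpr : (1 : ℝ) ≤ p := by exact_mod_cast hp
  set X : ℝ := (2 : ℝ) ^ k with hX
  have hX1 : 1 ≤ X := one_le_pow₀ (by norm_num)
  have hX0 : 0 < X := by (clear * - hX1; linarith)
  set H : ℝ := (2 : ℝ) ^ Pool.Agent.M20.Helper46.KSZ.ee d k with hH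
  have hH1 : 1 ≤ H := one_le_pow₀ (by norm_num)
  have hHX : H ≤ X := pow_le_pow_right₀ (by norm_num) (ee_leG hd k)
  have hlam : lamk p d k = H / (8 * p * X) := rfl
  have hlam0 : 0 < lamk p d k := by rw [hlam]; positivity
  -- the exponential
  have hpl : ((p - 1 : ℕ) : ℝ) * lamk p d k ≤ 1 / 8 := by
    have h1 : ((p - 1 : ℕ) : ℝ) ≤ p := by exact_mod_cast Nat.sub_le p 1
    calc ((p - 1 : ℕ) : ℝ) * lamk p d k ≤ p * (H / (8 * p * X)) := by
          rw [← hlam]; exact mul_le_mul_of_nonneg_right h1 hlam0.le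
      _ = H / X / 8 := by field_simp
      _ ≤ 1 / 8 := by
          have : H / X ≤ 1 := by rw [div_le_one hX0]; exact hHX
          (clear * - this; linarith)
  have hexp : Real.exp (2 * (u + ((p - 1 : ℕ) : ℝ) * lamk p d k)) ≤ 8 * X ^ 2 := by
    have h1 : Real.exp (2 * (u + ((p - 1 : ℕ) : ℝ) * lamk p d k)) =
        Real.exp u ^ 2 * Real.exp (2 * (((p - 1 : ℕ) : ℝ) * lamk p d k)) := by
      rw [← Real.exp_nat_mul, ← Real.exp_add]; congr 1; push_cast; ring
    have h2 : Real.exp (2 * (((p - 1 : ℕ) : ℝ) * lamk p d k)) ≤ 2 := by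
      have h3 : Real.exp (2 * (((p - 1 : ℕ) : ℝ) * lamk p d k)) ≤ Real.exp (1 / 2) :=
        Real.exp_le_exp.2 (by (clear * - hpl; linarith))
      exact h3.trans exp_half_le
    have h6 : Real.exp u ^ 2 ≤ (2 * X) ^ 2 := pow_le_pow_left₀ (Real.exp_pos _).le hu 2
    rw [h1]
    have h7 := Real.exp_pos (2 * (((p - 1 : ℕ) : ℝ) * lamk p d k))
    exact (mul_le_mul h6 h2 h7.le (sq_nonneg _)).trans_eq (by ring)
  -- the logarithm
  have hlog : (Real.log ((2 : ℝ) ^ (5 * k) + 2)) ^ 2 ≤ 25 * (k : ℝ) ^ 2 := by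
    have h1 : (2 : ℝ) ^ (5 * k) + 2 ≤ 2 ^ (5 * k + 1) := by
      have : (2 : ℝ) ^ 1 ≤ 2 ^ (5 * k) := pow_le_pow_right₀ (by norm_num) (by (clear * - p K hk1; omega))
      rw [pow_succ]
      (clear * - this; linarith)
    have h2 : Real.log ((2 : ℝ) ^ (5 * k) + 2) ≤ 5 * k := by
      have h3 := Real.log_le_log (by positivity) h1
      rw [Real.log_pow] at h3
      push_cast at h3
      have h4 := Real.log_two_lt_d9
      have h5 : (5 * (k : ℝ) + 1) * Real.log 2 ≤ (5 * k + 1) * 0.7 := by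
        exact mul_le_mul_of_nonneg_left (by (clear * - h4; linarith))
          (add_nonneg (mul_nonneg (by norm_num) (Nat.cast_nonneg _)) zero_le_one)
      (clear * - hk1r h3 h5; linarith)
    have h6 : 0 ≤ Real.log ((2 : ℝ) ^ (5 * k) + 2) := Real.log_nonneg (by
      have : (0 : ℝ) < 2 ^ (5 * k) := by positivity
      (clear * - this; linarith))
    exact (pow_le_pow_left₀ h6 h2 2).trans_eq (by ring)
  have hT : (2 : ℝ) ^ (5 * k) = X ^ 5 := by rw [hX, ← pow_mul, mul_comm]
  have hden : 1 / (64 * p ^ 2) * X ^ 3 ≤ lamk p d k ^ 2 * 2 ^ (5 * k) := by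
    rw [hT, hlam]
    have : (H / (8 * p * X)) ^ 2 * X ^ 5 = H ^ 2 * (1 / (64 * p ^ 2) * X ^ 3) := by
      field_simp
      ring
    rw [this]
    have h1 : 1 ≤ H ^ 2 := one_le_pow₀ hH1
    have h2 : 0 ≤ 1 / (64 * (p : ℝ) ^ 2) * X ^ 3 := by positivity
    exact le_mul_of_one_le_left h2 h1
  have hden0 : 0 < lamk p d k ^ 2 * 2 ^ (5 * k) := by positivity
  rw [div_le_iff₀ hden0]
  have hmain := hK k hkK
  calc C * Real.exp (2 * (u + ((p - 1 : ℕ) : ℝ) * lamk p d k)) *
        (Real.log ((2 : ℝ) ^ (5 * k) + 2)) ^ 2 ≤ C * (8 * X ^ 2) * (25 * (k : ℝ) ^ 2) := by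
        exact mul_le_mul (mul_le_mul_of_nonneg_left hexp hC.le) hlog (sq_nonneg _)
          (mul_nonneg hC.le (mul_nonneg (by norm_num) (sq_nonneg _)))
    _ = 1 / (64 * p ^ 2) * X ^ 2 / 100 * (C * 8 * 25 * 64 * p ^ 2 * 100 * k ^ 2) := by
        (clear * - hp hk1 hX1 hC; field_simp)
    _ ≤ 1 / (64 * p ^ 2) * X ^ 2 / 100 * X :=
        mul_le_mul_of_nonneg_left hmain (by (clear * -; positivity))
    _ ≤ 1 / 100 * X * (1 / (64 * p ^ 2) * X ^ 3) := by
        have h1 : X ^ 3 ≤ X ^ 4 := pow_le_pow_right₀ hX1 (by norm_num)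
        have h2 : 0 ≤ 1 / (64 * (p : ℝ) ^ 2) / 100 := by positivity
        calc 1 / (64 * (p : ℝ) ^ 2) * X ^ 2 / 100 * X = 1 / (64 * (p : ℝ) ^ 2) / 100 * X ^ 3 := by ring
          _ ≤ 1 / (64 * (p : ℝ) ^ 2) / 100 * X ^ 4 := mul_le_mul_of_nonneg_left h1 h2
          _ = _ := by ring
    _ ≤ 1 / 100 * X * (lamk p d k ^ 2 * 2 ^ (5 * k)) :=
        mul_le_mul_of_nonneg_left hden (mul_nonneg (by norm_num) hX0.le)

theorem explicitCellsG (h1 : BoxExists) (h9 : ShiftIter) (h10 : PrimeSideG) (h11 : LineFewG)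
    (h12 : HighZerosG) : ExplicitCellsG := by
  intro d η hd hd1 hη hη1
  obtain ⟨p, hp, K12, hK12⟩ := h12 d η hd hd1 hη
  obtain ⟨K10, hK10⟩ := h10 p d hp hd hd1
  obtain ⟨K11, hK11⟩ := h11 p d η hp hd hd1 hη
  obtain ⟨C, hC, hC9⟩ := h9
  obtain ⟨Ke, hKe⟩ := err_smallG C hC p hp d hd
  have hpr : (1 : ℝ) ≤ p := by exact_mod_cast hp
  refine ⟨1 / (200 * p), by (clear * - hp; positivity), max (max K12 K10) (max (max K11 Ke) 10), fun k hk => ?_⟩
  have hkA : K12 ≤ k := le_trans (le_trans (le_max_left _ _) (le_max_left _ _)) hk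
  have hkB : K10 ≤ k := le_trans (le_trans (le_max_right _ _) (le_max_left _ _)) hk
  have hkC : K11 ≤ k := le_trans (le_trans (le_trans (le_max_left _ _) (le_max_left _ _)) (le_max_right _ _)) hk
  have hkD : Ke ≤ k := le_trans (le_trans (le_trans (le_max_right _ _) (le_max_left _ _)) (le_max_right _ _)) hk
  have hkE : 10 ≤ k := le_trans (le_trans (le_max_right _ _) (le_max_right _ _)) hk
  set X : ℝ := (2 : ℝ) ^ k with hX
  have hX10 : (1000 : ℝ) ≤ X := by
    have : (2 : ℝ) ^ 10 ≤ 2 ^ k := pow_le_pow_right₀ (by norm_num) hkE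
    rw [hX]; norm_num at this ⊢; (clear * - this; linarith)
  have hX0 : 0 < X := by (clear * - hX10; linarith)
  have hX1 : 1 ≤ X := by (clear * - hX10; linarith)
  have hXk : ((2 ^ k : ℕ) : ℝ) = X := by push_cast; rfl
  obtain ⟨M, Z, hBox⟩ := h1 (2 ^ (5 * k)) (by positivity)
  set T : ℝ := (2 : ℝ) ^ (5 * k) with hT
  have hT1 : 1 ≤ T := one_le_pow₀ (by norm_num)
  set lam : ℝ := lamk p d k with hlam
  set H : ℝ := (2 : ℝ) ^ Pool.Agent.M20.Helper46.KSZ.ee d k with hH
  have hH1 : 1 ≤ H := one_le_pow₀ (by norm_num)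
  have hHX : H ≤ X := pow_le_pow_right₀ (by norm_num) (ee_leG hd k)
  have hlamE : lam = H / (8 * p * X) := rfl
  have hlam0 : 0 < lam := by rw [hlamE]; (clear * - hp; positivity)
  have hplam : p * lam ≤ 1 / 8 := by
    rw [hlamE]
    have : (p : ℝ) * (H / (8 * p * X)) = H / X / 8 := by field_simp
    rw [this]
    have : H / X ≤ 1 := by rw [div_le_one hX0]; exact hHX
    (clear * - this; linarith)
  have hlam1 : lam ≤ 1 :=
    ((le_mul_of_one_le_left hlam0.le hpr).trans hplam).trans (by norm_num)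
  refine ⟨fun ρ => KK lam ρ ^ p, (Finset.range (2 ^ (k - Pool.Agent.M20.Helper46.KSZ.ee d k))).filter (fun j =>
      1/100 * (2 : ℝ) ^ k ≤ ‖line p (lamk p d k) (2 ^ (5 * k)) Z (uu d k j)‖), ?_,
      hK11 k hkC M Z hBox, ?_⟩
  · intro ρ hρ0 hρ1
    rw [norm_pow]
    have h2 := KK_norm_le hlam0 ρ
    have h3 : |ρ.re| ≤ 1 := abs_le.2 ⟨by (clear * - hρ0; linarith), hρ1⟩
    calc ‖KK lam ρ‖ ^ p ≤ (Real.exp (lam * |ρ.re|)) ^ p := pow_le_pow_left₀ (norm_nonneg _) h2 p
      _ = Real.exp (p * (lam * |ρ.re|)) := by rw [Real.exp_nat_mul]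
      _ ≤ Real.exp (1 / 2) := by
          apply Real.exp_le_exp.2
          have : (p : ℝ) * (lam * |ρ.re|) = (p * lam) * |ρ.re| := by ring
          rw [this]
          have := abs_nonneg ρ.re
          exact (mul_le_mul hplam h3 this (by norm_num)).trans (by norm_num)
      _ ≤ 2 := exp_half_le
  intro j hj hjE hfew S hS
  set u : ℝ := uu d k j with hu
  -- the centre
  set y : ℕ := 2 ^ k + j * 2 ^ Pool.Agent.M20.Helper46.KSZ.ee d k with hy
  have hyX : X ≤ y := by
    rw [← hXk]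
    exact_mod_cast (by rw [hy]; exact Nat.le_add_right _ _ : 2 ^ k ≤ y)
  have hek := ee_leG hd k
  have hy2 : (y : ℝ) + H ≤ 2 * X := by
    have h2 : y + 2 ^ Pool.Agent.M20.Helper46.KSZ.ee d k ≤ 2 ^ (k + 1) := by
      have h3 : (j + 1) * 2 ^ Pool.Agent.M20.Helper46.KSZ.ee d k ≤ 2 ^ (k - Pool.Agent.M20.Helper46.KSZ.ee d k) * 2 ^ Pool.Agent.M20.Helper46.KSZ.ee d k := Nat.mul_le_mul_right _ hj
      rw [← pow_add, Nat.sub_add_cancel hek] at h3
      rw [pow_succ, hy]
      have h4 : (j + 1) * 2 ^ Pool.Agent.M20.Helper46.KSZ.ee d k = j * 2 ^ Pool.Agent.M20.Helper46.KSZ.ee d k + 2 ^ Pool.Agent.M20.Helper46.KSZ.ee d k := by ring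
      (clear * - p K12 K10 K11 Ke h3 h4; omega)
    have h3 : ((y + 2 ^ Pool.Agent.M20.Helper46.KSZ.ee d k : ℕ) : ℝ) ≤ ((2 ^ (k + 1) : ℕ) : ℝ) := by exact_mod_cast h2
    push_cast at h3
    rw [pow_succ] at h3
    rw [hH, hX]
    (clear * - h3; linarith)
  have heu : Real.exp u = (y : ℝ) + H / 2 := by
    rw [hu]
    unfold uu
    rw [Real.exp_log (by (clear * -; positivity))]
  have heuX : X ≤ Real.exp u := by rw [heu]; (clear * - hH1 hyX; linarith)
  have heuX2 : Real.exp u ≤ 2 * X := by rw [heu]; (clear * - hH1 hy2; linarith)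
  have hu1 : 1 + ((p - 1 : ℕ) : ℝ) * lam ≤ u := by
    have h2 : ((p - 1 : ℕ) : ℝ) ≤ p := by exact_mod_cast Nat.sub_le p 1
    have h3 : ((p - 1 : ℕ) : ℝ) * lam ≤ 1 / 8 := (mul_le_mul_of_nonneg_right h2 hlam0.le).trans hplam
    have h4 : (2 : ℝ) ≤ u := by
      by_contra hc
      have h5 : Real.exp u < Real.exp 2 := Real.exp_lt_exp.2 (not_le.1 hc)
      have h6 : Real.exp 2 ≤ 9 := by
        have h7 : Real.exp 2 = Real.exp 1 ^ 2 := by rw [← Real.exp_nat_mul]; norm_num
        rw [h7]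
        exact (pow_le_pow_left₀ (Real.exp_pos 1).le Real.exp_one_lt_three.le 2).trans_eq
          (by norm_num)
      (clear * - hX10 hH1 hyX heu h5 h6; linarith)
    (clear * - h3 h4; linarith)
  have hp1 : p - 1 + 1 = p := Nat.sub_add_cancel hp
  -- the formula
  have hform := hC9 T M Z hT1 hBox lam u (p - 1) hlam0 hlam1 hu1
  rw [hp1] at hform
  have herr := hKe k hkD u heuX2
  have hform2 : ‖lhs (ker lam (p - 1)) p lam M u - line p lam T Z u‖ ≤ 1/100 * X :=
    hform.trans herr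
  have hline : ‖line p lam T Z u‖ < 1/100 * X := by
    by_contra hc
    apply hjE
    rw [Finset.mem_filter, Finset.mem_range]
    exact ⟨hj, not_lt.1 hc⟩
  have hlhs : ‖lhs (ker lam (p - 1)) p lam M u‖ ≤ 1/50 * X := by
    have := norm_add_le (lhs (ker lam (p - 1)) p lam M u - line p lam T Z u) (line p lam T Z u)
    rw [sub_add_cancel] at this
    (clear * - hform2 hline this; linarith)
  have hprime := hK10 k hkB j hj hfew
  set P : ℝ := ∑' n : ℕ, ArithmeticFunction.vonMangoldt n * ker lam (p - 1) (u - Real.log n) with hP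
  have hP8 : P ≤ 1/8 * X := hprime
  obtain ⟨κ, hκ, hκe⟩ := KK_one_ge hlam0
  have hκp : 1 ≤ κ ^ p := one_le_pow₀ hκ
  have hlhsE : lhs (ker lam (p - 1)) p lam M u = ((P - Real.exp u * κ ^ p : ℝ) : ℂ) +
      (M.map (fun ρ => Complex.exp (ρ * u) * KK lam ρ ^ p)).sum := by
    unfold lhs
    rw [hκe, ← hP]
    push_cast
    ring
  have hmainlow : Real.exp u - 1/8 * X - 1/50 * X ≤
      ‖(M.map (fun ρ => Complex.exp (ρ * u) * KK lam ρ ^ p)).sum‖ := by
    have h2 : ‖((P - Real.exp u * κ ^ p : ℝ) : ℂ)‖ ≥ Real.exp u - 1/8 * X := by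
      rw [Complex.norm_real, Real.norm_eq_abs, abs_sub_comm]
      refine le_trans ?_ (le_abs_self _)
      have := Real.exp_pos u
      have h5 := le_mul_of_one_le_right this.le hκp
      (clear * - hP8 h5; linarith)
    have h3 := norm_sub_le_norm_add ((P - Real.exp u * κ ^ p : ℝ) : ℂ)
      (M.map (fun ρ => Complex.exp (ρ * u) * KK lam ρ ^ p)).sum
    rw [← hlhsE] at h3
    (clear * - hlhs h2 h3; linarith)
  -- low and high zeros
  set B : ℝ := (2 : ℝ) ^ ((1/2 + d + η) * k) with hB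
  set Mh := M.filter (fun ρ => B < |ρ.im|) with hMh
  set Ml := M.filter (fun ρ => ¬ B < |ρ.im|) with hMl
  have hsplit : Mh + Ml = M := Multiset.filter_add_not _ _
  have hhigh := hK12 k hkA M Z hBox j hj
  have hhigh2 : ‖(Mh.map (fun ρ => Complex.exp (ρ * u) * KK lam ρ ^ p)).sum‖ ≤ 1 := by
    refine le_trans ?_ hhigh
    have h2 := Multiset.le_sum_of_subadditive (fun z : ℂ => ‖z‖) (by simp) (fun a b => norm_add_le a b)
      (Mh.map (fun ρ => Complex.exp (ρ * u) * KK lam ρ ^ p))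
    rw [Multiset.map_map] at h2
    exact h2
  have hlow : Real.exp u - 1/8 * X - 1/50 * X - 1 ≤
      ‖(Ml.map (fun ρ => Complex.exp (ρ * u) * KK lam ρ ^ p)).sum‖ := by
    have h2 : (M.map (fun ρ => Complex.exp (ρ * u) * KK lam ρ ^ p)).sum =
        (Mh.map (fun ρ => Complex.exp (ρ * u) * KK lam ρ ^ p)).sum +
        (Ml.map (fun ρ => Complex.exp (ρ * u) * KK lam ρ ^ p)).sum := by
      rw [← hsplit, Multiset.map_add, Multiset.sum_add]
    have h3 := norm_add_le (Mh.map (fun ρ => Complex.exp (ρ * u) * KK lam ρ ^ p)).sum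
      (Ml.map (fun ρ => Complex.exp (ρ * u) * KK lam ρ ^ p)).sum
    rw [← h2] at h3
    (clear * - hmainlow hhigh2 h3; linarith)
  -- the finset
  have hBT : B < T + 2 := by
    have h2 : B ≤ T := by
      rw [hB, hT, ← Real.rpow_natCast]
      apply Real.rpow_le_rpow_of_exponent_le (by norm_num)
      push_cast
      exact mul_le_mul_of_nonneg_right (by (clear * - hd1 hη1; linarith)) k.cast_nonneg
    (clear * - h2; linarith)
  have hmemS : ∀ ρ, ρ ∈ S ↔ ρ ∈ Ml := by
    intro ρ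
    rw [hS, hMl, Multiset.mem_filter]
    constructor
    · rintro ⟨h2, h3, h4⟩
      refine ⟨?_, not_lt.2 h4⟩
      have hρT : |ρ.im| < T + 2 := lt_of_le_of_lt h4 hBT
      have hne := hBox.ne ρ h3 hρT
      have hρ1 : ρ ≠ 1 := by
        rintro rfl
        exact riemannZeta_one_ne_zero h2
      have hE0 : EZ ρ = 0 := by rw [EZ_eq hρ1, h2, mul_zero]
      have hQ := hBox.eq ρ
      rw [hE0] at hQ
      have hQ0 : Qp M ρ = 0 := by
        rcases mul_eq_zero.1 hQ.symm with h | h
        · exact h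
        · exact absurd h hne
      by_contra hc
      exact Qp_ne_zero M ρ (fun a ha hρa => hc (hρa ▸ ha)) hQ0
    · rintro ⟨h2, h3⟩
      obtain ⟨h4, h5, h6, h7⟩ := hBox.mem ρ h2
      exact ⟨h4, h5, not_lt.1 h3⟩
  have hSfin : Ml.toFinset = S := by
    ext ρ
    rw [Multiset.mem_toFinset, hmemS]
  have hsum : (Ml.map (fun ρ => Complex.exp (ρ * u) * KK lam ρ ^ p)).sum =
      Complex.exp u * ∑ ρ ∈ S, (analyticOrderNatAt riemannZeta ρ : ℂ) * (KK lam ρ ^ p) *
        Complex.exp ((ρ - 1) * u) := by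
    rw [Finset.sum_multiset_map_count, hSfin, Finset.mul_sum]
    refine Finset.sum_congr rfl fun ρ hρ => ?_
    have h2 := (hmemS ρ).1 hρ
    rw [hMl, Multiset.mem_filter] at h2
    obtain ⟨h4, h5, h6, h7⟩ := hBox.mem ρ h2.1
    have hcount : Ml.count ρ = analyticOrderNatAt riemannZeta ρ := by
      rw [hMl, Multiset.count_filter_of_pos (p := fun ρ : ℂ => ¬ B < |ρ.im|) h2.2]
      exact hBox.count ρ h4 h5 h7
    rw [hcount, nsmul_eq_mul]
    have h8 : Complex.exp (ρ * u) = Complex.exp u * Complex.exp ((ρ - 1) * u) := by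
      rw [← Complex.exp_add]; congr 1; ring
    rw [h8]
    ring
  rw [hsum, norm_mul, Complex.norm_exp, Complex.ofReal_re] at hlow
  have hupos := Real.exp_pos u
  have hfin : Real.exp u * (3/4) ≤ Real.exp u * ‖∑ ρ ∈ S, (analyticOrderNatAt riemannZeta ρ : ℂ) *
      (KK lam ρ ^ p) * Complex.exp ((ρ - 1) * u)‖ := by
    refine le_trans ?_ hlow
    (clear * - hX10 hH1 hyX heu; linarith)
  exact le_of_mul_le_mul_left hfin hupos

end Pool.Agent.M20.Helper60.KG
end

/- Helper53.KN.Helper26.KSZ.N1b -/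
section
/-!
# KSZ-N1b: the Brun-Hooley weights are small on smooth numbers
-/

set_option autoImplicit false

open Finset

namespace Pool.Agent.M20.Helper26.KSZ

open Pool.Agent.M20.Helper18.KSZ

/-- the multiplicative majorant -/
noncomputable def fm (x : ℝ) (n : ℕ) : ℝ := 8 ^ n.primeFactors.card * (n : ℝ) ^ (x - 1)

theorem fm_one (x : ℝ) : fm x 1 = 1 := by
  simp [fm]

theorem fm_mul (x : ℝ) {m n : ℕ} (h : Nat.Coprime m n) : fm x (m * n) = fm x m * fm x n := by
  unfold fm
  have h1 : (m * n).primeFactors.card = m.primeFactors.card + n.primeFactors.card := by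
    rw [h.primeFactors_mul, Finset.card_union_of_disjoint h.disjoint_primeFactors]
  rw [h1, pow_add, Nat.cast_mul, Real.mul_rpow (Nat.cast_nonneg _) (Nat.cast_nonneg _)]
  ring

theorem fm_nonneg (x : ℝ) (n : ℕ) : 0 ≤ fm x n := by
  unfold fm; (clear * -; positivity)

theorem fm_prime_pow (x : ℝ) {p : ℕ} (hp : p.Prime) (n : ℕ) :
    fm x (p ^ (n + 1)) = 8 * ((p : ℝ) ^ (x - 1)) ^ (n + 1) := by
  unfold fm
  rw [Nat.primeFactors_prime_pow (Nat.succ_ne_zero n) hp, Finset.card_singleton, pow_one,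
    Nat.cast_pow, ← Real.rpow_natCast, ← Real.rpow_mul (Nat.cast_nonneg _), mul_comm _ (x - 1),
    Real.rpow_mul (Nat.cast_nonneg _), Real.rpow_natCast]

theorem q_lt_one {x : ℝ} (hx : x < 1) {p : ℕ} (hp : p.Prime) : (p : ℝ) ^ (x - 1) < 1 := by
  apply Real.rpow_lt_one_of_one_lt_of_neg
  · exact_mod_cast hp.one_lt
  · linarith

theorem fm_summable {x : ℝ} (hx : x < 1) {p : ℕ} (hp : p.Prime) :
    Summable (fun n : ℕ => ‖fm x (p ^ n)‖) := by
  have hq : (p : ℝ) ^ (x - 1) < 1 := q_lt_one hx hp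
  have hq0 : 0 ≤ (p : ℝ) ^ (x - 1) := Real.rpow_nonneg (Nat.cast_nonneg _) _
  have h1 : Summable (fun n : ℕ => 8 * ((p : ℝ) ^ (x - 1)) ^ n) :=
    (summable_geometric_of_lt_one hq0 hq).mul_left 8
  refine Summable.of_nonneg_of_le (fun _ => norm_nonneg _) (fun n => ?_) h1
  rw [Real.norm_of_nonneg (fm_nonneg _ _)]
  rcases n with _ | n
  · rw [pow_zero, fm_one]; norm_num
  · rw [fm_prime_pow x hp]

theorem fm_tsum_le {w x : ℝ} (hx : 0 ≤ x) (hx1 : x < 1) (hwx : w ^ x ≤ 11 / 10)
    {p : ℕ} (hp : p.Prime) (hpw : (p : ℝ) ≤ w) : ∑' n : ℕ, fm x (p ^ n) ≤ 1 + 20 / p := by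
  have hq : (p : ℝ) ^ (x - 1) < 1 := q_lt_one hx1 hp
  have hq0 : 0 ≤ (p : ℝ) ^ (x - 1) := Real.rpow_nonneg (Nat.cast_nonneg _) _
  have hs : Summable (fun n : ℕ => fm x (p ^ n)) := (fm_summable hx1 hp).of_norm
  have hp2 : (2 : ℝ) ≤ p := by exact_mod_cast hp.two_le
  have hp0 : (0 : ℝ) < p := by (clear * - hp2; linarith)
  have h1 : (p : ℝ) ^ (x - 1) ≤ 11 / 10 / p := by
    rw [Real.rpow_sub_one (by (clear * - hp2; positivity))]
    have : (p : ℝ) ^ x ≤ w ^ x := Real.rpow_le_rpow (by positivity) hpw hx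
    gcongr
    (clear * - hwx this; linarith)
  rw [hs.tsum_eq_zero_add, pow_zero, fm_one]
  have h2 : ∑' n : ℕ, fm x (p ^ (n + 1)) = 8 * ((p : ℝ) ^ (x - 1) * (1 - (p : ℝ) ^ (x - 1))⁻¹) := by
    rw [← tsum_geometric_of_lt_one hq0 hq, ← tsum_mul_left, ← tsum_mul_left]
    apply tsum_congr
    intro n
    rw [fm_prime_pow x hp, pow_succ]
    ring
  rw [h2]
  have h3 : (p : ℝ) ^ (x - 1) ≤ 11 / 20 := by
    refine h1.trans ?_
    rw [div_le_iff₀ hp0]
    (clear * - hp2; linarith)
  have h4 : (1 - (p : ℝ) ^ (x - 1))⁻¹ ≤ 20 / 9 := by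
    rw [inv_le_comm₀ (by (clear * - hq; linarith)) (by norm_num)]
    norm_num
    (clear * - h3; linarith)
  have h5 : (p : ℝ) ^ (x - 1) * (1 - (p : ℝ) ^ (x - 1))⁻¹ ≤ 11 / 10 / p * (20 / 9) := by
    apply mul_le_mul h1 h4
    · apply inv_nonneg.mpr; (clear * - hq; linarith)
    · positivity
  have h6 : 8 * (11 / 10 / (p : ℝ) * (20 / 9)) ≤ 20 / p := by
    rw [show 8 * (11 / 10 / (p : ℝ) * (20 / 9)) = (8 * (11 / 10) * (20 / 9)) / p by ring]
    gcongr
    norm_num
  (clear * - h5 h6; linarith)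

theorem x_lt_one {w x : ℝ} (hw : 2 ≤ w) (hx : 0 ≤ x) (hwx : w ^ x ≤ 11 / 10) : x < 1 := by
  by_contra h
  push Not at h
  have h1 : (2 : ℝ) ^ (1 : ℝ) ≤ 2 ^ x := Real.rpow_le_rpow_of_exponent_le (by norm_num) h
  have h2 : (2 : ℝ) ^ x ≤ w ^ x := Real.rpow_le_rpow (by norm_num) hw hx
  rw [Real.rpow_one] at h1
  linarith

theorem euler_le {w x : ℝ} (hw : 2 ≤ w) (hx : 0 ≤ x) (hwx : w ^ x ≤ 11 / 10)
    (P : Finset ℕ) (hP : ∀ p ∈ P, p.Prime ∧ (p : ℝ) ≤ w) (T : Finset ℕ)
    (hT : ∀ n ∈ T, 0 < n ∧ n.primeFactors ⊆ P) :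
    ∑ n ∈ T, fm x n ≤ ∏ p ∈ P, (1 + 20 / (p : ℝ)) := by
  classical
  have hx1 := x_lt_one hw hx hwx
  have hfact : ∀ n ∈ T, n ∈ Nat.factoredNumbers P := by
    intro n hn
    obtain ⟨h0, h1⟩ := hT n hn
    rw [Nat.mem_factoredNumbers]
    refine ⟨h0.ne', fun p hp => h1 ?_⟩
    exact List.mem_toFinset.mpr hp
  have h1 := (EulerProduct.summable_and_hasSum_factoredNumbers_prod_filter_prime_tsum
    (fm_one x) (fun {m n} h => fm_mul x h) (fun {p} hp => fm_summable hx1 hp) P).2
  have h2 : ∑ n ∈ T, fm x n =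
      ∑ n ∈ T.subtype (fun n => n ∈ Nat.factoredNumbers P), fm x n := by
    rw [Finset.sum_subtype_of_mem (fun n => fm x n) hfact]
  rw [h2]
  refine (sum_le_hasSum (f := fun m : Nat.factoredNumbers P => fm x (m : ℕ))
    (T.subtype (fun n => n ∈ Nat.factoredNumbers P)) (fun i _ => fm_nonneg x i) h1).trans ?_
  rw [Finset.filter_true_of_mem (fun p hp => (hP p hp).1)]
  apply Finset.prod_le_prod
  · intro p _
    exact tsum_nonneg fun n => fm_nonneg x _
  · intro p hp
    exact fm_tsum_le hx hx1 hwx (hP p hp).1 (hP p hp).2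

/-- theta -/
noncomputable def th (b j : ℕ) : ℝ := (1 / 16) ^ (b + j)

theorem th_nonneg (b j : ℕ) : 0 ≤ th b j := by unfold th; positivity

theorem g_le (b j k : ℕ) :
    (if k = 0 then (1 : ℝ) else if k ≤ 2 * (b + j) then 0 else (2 : ℝ) ^ k) ≤
      if k = 0 then 1 else th b j * 8 ^ k := by
  split_ifs with h1 h2
  · exact le_refl _
  · have := th_nonneg b j; positivity
  · push Not at h2
    have h3 : (16 : ℝ) ^ (b + j) ≤ 4 ^ k := by
      have : (16 : ℝ) ^ (b + j) = 4 ^ (2 * (b + j)) := by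
        rw [pow_mul]; norm_num
      rw [this]
      exact pow_le_pow_right₀ (by norm_num) h2.le
    have h4 : (8 : ℝ) ^ k = 2 ^ k * 4 ^ k := by
      rw [← mul_pow]; norm_num
    unfold th
    rw [h4, one_div, inv_pow]
    have h5 : (0 : ℝ) < 16 ^ (b + j) := by positivity
    have h6 : 1 ≤ ((16 : ℝ) ^ (b + j))⁻¹ * 4 ^ k := by
      rw [inv_mul_eq_div, le_div_iff₀ h5]
      (clear * - h3; linarith)
    have h7 : (0 : ℝ) < 2 ^ k := by positivity
    (clear * - h6 h7; nlinarith)

theorem blocks_cover {w : ℝ} (hw : 2 ≤ w) {n : ℕ} (hn : smooth w n) :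
    n.primeFactors ⊆ (range (Helper44.nb w)).biUnion (Helper96.CPAP.pb Nat.Prime w) := by
  intro p hp
  have hpp := Nat.prime_of_mem_primeFactors hp
  have hpd := Nat.dvd_of_mem_primeFactors hp
  have h1 : p ∈ Helper96.CPAP.pU Nat.Prime w :=
    (Helper96.CPAP.mem_pU (fun q hq => hq) (by (clear * - hw; linarith))).mpr ⟨hpp, hn p hpp hpd⟩
  rw [← Helper96.CPAP.biUnion_pb (fun q hq => hq) hw, Finset.mem_biUnion] at h1
  obtain ⟨j, _, hj⟩ := h1
  exact Finset.mem_biUnion.mpr ⟨j, Finset.mem_range.mpr j.2, hj⟩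

theorem card_primeFactors {w : ℝ} (hw : 2 ≤ w) {n : ℕ} (hn : smooth w n) :
    n.primeFactors.card = ∑ j ∈ range (Helper44.nb w), omB w j n := by
  classical
  unfold omB
  rw [← Finset.card_biUnion]
  · congr 1
    ext p
    rw [Finset.mem_biUnion]
    constructor
    · intro hp
      obtain ⟨j, hj, hpj⟩ := Finset.mem_biUnion.mp (blocks_cover hw hn hp)
      exact ⟨j, hj, Finset.mem_inter.mpr ⟨hp, hpj⟩⟩
    · rintro ⟨j, _, hj⟩
      exact (Finset.mem_inter.mp hj).1
  · intro i _ j _ hij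
    exact Finset.disjoint_of_subset_left Finset.inter_subset_right
      (Finset.disjoint_of_subset_right Finset.inter_subset_right
        (Helper96.CPAP.pb_disjoint (by linarith) hij))

open Classical in
/-- blocks met by n -/
noncomputable def Jn (w : ℝ) (n : ℕ) : Finset ℕ :=
  (range (Helper44.nb w)).filter (fun j => omB w j n ≠ 0)

theorem prod_le {b : ℕ} {w : ℝ} (hw : 2 ≤ w) {n : ℕ} (hn : smooth w n) :
    ∏ j ∈ range (Helper44.nb w),
      (if omB w j n = 0 then 1 else if omB w j n ≤ 2 * (b + j) then 0 else (2 : ℝ) ^ omB w j n) ≤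
    (∏ j ∈ Jn w n, th b j) * 8 ^ n.primeFactors.card := by
  classical
  calc ∏ j ∈ range (Helper44.nb w),
      (if omB w j n = 0 then 1 else if omB w j n ≤ 2 * (b + j) then 0 else (2 : ℝ) ^ omB w j n)
      ≤ ∏ j ∈ range (Helper44.nb w), (if omB w j n = 0 then 1 else th b j * 8 ^ omB w j n) := by
        apply Finset.prod_le_prod
        · intro j _; split_ifs <;> positivity
        · intro j _; exact g_le b j _
    _ = ∏ j ∈ range (Helper44.nb w), ((if omB w j n ≠ 0 then th b j else 1) * 8 ^ omB w j n) := by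
        apply Finset.prod_congr rfl
        intro j _
        by_cases h : omB w j n = 0
        · simp [h]
        · simp [h]
    _ = (∏ j ∈ Jn w n, th b j) * 8 ^ n.primeFactors.card := by
        rw [Finset.prod_mul_distrib, card_primeFactors hw hn, Finset.prod_pow_eq_pow_sum]
        unfold Jn
        rw [Finset.prod_filter]

theorem Jn_ne_empty {w : ℝ} (hw : 2 ≤ w) {n : ℕ} (h1 : 1 < n) (hn : smooth w n) :
    Jn w n ≠ ∅ := by
  classical
  obtain ⟨p, hp, hpn⟩ := Nat.exists_prime_and_dvd h1.ne'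
  have h2 : p ∈ n.primeFactors := Nat.mem_primeFactors.mpr ⟨hp, hpn, by omega⟩
  obtain ⟨j, hj, hpj⟩ := Finset.mem_biUnion.mp (blocks_cover hw hn h2)
  have h3 : j ∈ Jn w n := by
    unfold Jn
    rw [Finset.mem_filter]
    refine ⟨hj, ?_⟩
    unfold omB
    rw [Finset.card_ne_zero]
    exact ⟨p, Finset.mem_inter.mpr ⟨h2, hpj⟩⟩
  intro h4
  rw [h4] at h3
  simp at h3

theorem prod_pb_le {S0 : ℝ} (hS : ∀ w : ℝ, 2 ≤ w → ∀ j : ℕ,
    ∑ q ∈ Helper96.CPAP.pb Nat.Prime w j, (1 : ℝ) / q ≤ S0) {w : ℝ} (hw : 2 ≤ w) (j : ℕ) :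
    ∏ p ∈ Helper96.CPAP.pb Nat.Prime w j, (1 + 20 / (p : ℝ)) ≤ Real.exp (20 * S0) := by
  calc ∏ p ∈ Helper96.CPAP.pb Nat.Prime w j, (1 + 20 / (p : ℝ))
      ≤ ∏ p ∈ Helper96.CPAP.pb Nat.Prime w j, Real.exp (20 * (1 / (p : ℝ))) := by
        apply Finset.prod_le_prod
        · intro p _; (clear * -; positivity)
        · intro p _
          have := Real.add_one_le_exp (20 * (1 / (p : ℝ)))
          rw [show 20 / (p : ℝ) = 20 * (1 / (p : ℝ)) by ring]
          (clear * - this; linarith)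
    _ = Real.exp (∑ p ∈ Helper96.CPAP.pb Nat.Prime w j, 20 * (1 / (p : ℝ))) := by
        rw [Real.exp_sum]
    _ ≤ Real.exp (20 * S0) := by
        rw [← Finset.mul_sum]
        apply Real.exp_le_exp.mpr
        have := hS w hw j
        (clear * - this; linarith)

theorem sum_th_le (b N : ℕ) : ∑ j ∈ range N, th b j ≤ 2 * (1 / 16) ^ b := by
  unfold th
  have h1 : ∑ j ∈ range N, ((1 : ℝ) / 16) ^ (b + j) = (1 / 16) ^ b * ∑ j ∈ range N, (1 / 16 : ℝ) ^ j := by
    rw [Finset.mul_sum]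
    apply Finset.sum_congr rfl
    intro j _
    rw [pow_add]
  rw [h1]
  have h2 : ∑ j ∈ range N, (1 / 16 : ℝ) ^ j ≤ 2 := by
    have h3 := (summable_geometric_of_lt_one (r := (1 / 16 : ℝ)) (by norm_num) (by norm_num))
    refine (h3.sum_le_tsum (range N) (fun i _ => by positivity)).trans ?_
    rw [tsum_geometric_of_lt_one (by norm_num) (by norm_num)]
    norm_num
  have h3 : (0 : ℝ) < (1 / 16) ^ b := by positivity
  (clear * - h2 h3; nlinarith)

theorem lamSmall (h : LamBasic) : LamSmall := by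
  classical
  obtain ⟨S0, hS0, hS1⟩ := Helper96.CPAP.sum_inv_pb_le
  have hS : ∀ w : ℝ, 2 ≤ w → ∀ j : ℕ,
      ∑ q ∈ Helper96.CPAP.pb Nat.Prime w j, (1 : ℝ) / q ≤ S0 :=
    fun w hw j => hS1 Nat.Prime (fun q hq => hq) w hw j
  set E : ℝ := Real.exp (20 * S0) with hE
  have hE0 : 0 < E := Real.exp_pos _
  obtain ⟨b0, hb0⟩ := exists_pow_lt_of_lt_one (x := 1 / (20 * E)) (by positivity)
    (show (1 / 16 : ℝ) < 1 by norm_num)
  refine ⟨b0, ?_⟩
  intro b hb w hw x hx hwx S hS'
  have hb1 : (1 / 16 : ℝ) ^ b < 1 / (20 * E) :=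
    lt_of_le_of_lt (pow_le_pow_of_le_one (by norm_num) (by norm_num) hb) hb0
  obtain ⟨_, _, _, _, hbet⟩ := h b w hw
  -- termwise bound
  have hterm : ∀ n ∈ S, bet (lamE b w) n * (n : ℝ) ^ (x - 1) ≤ (∏ j ∈ Jn w n, th b j) * fm x n := by
    intro n hn
    obtain ⟨h1, h2⟩ := hS' n hn
    have h3 := (hbet n (by omega)).trans (prod_le (b := b) hw h2)
    unfold fm
    rw [← mul_assoc]
    exact mul_le_mul_of_nonneg_right h3 (Real.rpow_nonneg (Nat.cast_nonneg _) _)
  refine (Finset.sum_le_sum hterm).trans ?_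
  set R := range (Helper44.nb w) with hR
  have hmaps : ∀ n ∈ S, Jn w n ∈ R.powerset.erase ∅ := by
    intro n hn
    obtain ⟨h1, h2⟩ := hS' n hn
    rw [Finset.mem_erase, Finset.mem_powerset]
    exact ⟨Jn_ne_empty hw h1 h2, Finset.filter_subset _ _⟩
  rw [← Finset.sum_fiberwise_of_maps_to hmaps]
  have hJ : ∀ J ∈ R.powerset.erase ∅,
      ∑ n ∈ S with Jn w n = J, (∏ j ∈ Jn w n, th b j) * fm x n ≤ ∏ j ∈ J, (th b j * E) := by
    intro J hJ
    have h1 : ∑ n ∈ S with Jn w n = J, (∏ j ∈ Jn w n, th b j) * fm x n =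
        (∏ j ∈ J, th b j) * ∑ n ∈ S with Jn w n = J, fm x n := by
      rw [Finset.mul_sum]
      apply Finset.sum_congr rfl
      intro n hn
      rw [(Finset.mem_filter.mp hn).2]
    rw [h1, Finset.prod_mul_distrib]
    apply mul_le_mul_of_nonneg_left _ (Finset.prod_nonneg fun j _ => th_nonneg b j)
    have h2 : ∑ n ∈ S with Jn w n = J, fm x n ≤
        ∏ p ∈ J.biUnion (Helper96.CPAP.pb Nat.Prime w), (1 + 20 / (p : ℝ)) := by
      apply euler_le hw hx hwx
      · intro p hp
        obtain ⟨j, hj, hpj⟩ := Finset.mem_biUnion.mp hp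
        have hjR : j ∈ R := (Finset.mem_powerset.mp (Finset.mem_of_mem_erase hJ)) hj
        have h3 : p ∈ Helper96.CPAP.pU Nat.Prime w := by
          rw [← Helper96.CPAP.biUnion_pb (fun q hq => hq) hw, Finset.mem_biUnion]
          exact ⟨⟨j, Finset.mem_range.mp hjR⟩, Finset.mem_univ _, hpj⟩
        exact (Helper96.CPAP.mem_pU (fun q hq => hq) (by (clear * - hw; linarith))).mp h3
      · intro n hn
        obtain ⟨hnS, hnJ⟩ := Finset.mem_filter.mp hn
        obtain ⟨h1, h2⟩ := hS' n hnS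
        refine ⟨by omega, ?_⟩
        intro p hp
        obtain ⟨j, hj, hpj⟩ := Finset.mem_biUnion.mp (blocks_cover hw h2 hp)
        refine Finset.mem_biUnion.mpr ⟨j, ?_, hpj⟩
        rw [← hnJ]
        unfold Jn
        rw [Finset.mem_filter]
        refine ⟨hj, ?_⟩
        unfold omB
        rw [Finset.card_ne_zero]
        exact ⟨p, Finset.mem_inter.mpr ⟨hp, hpj⟩⟩
    refine h2.trans ?_
    rw [Finset.prod_biUnion]
    · apply Finset.prod_le_prod
      · intro j _; exact Finset.prod_nonneg fun p _ => by (clear * -; positivity)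
      · intro j _; exact prod_pb_le hS hw j
    · intro i _ j _ hij
      exact Helper96.CPAP.pb_disjoint (by (clear * - hw; linarith)) hij
  refine (Finset.sum_le_sum hJ).trans ?_
  have hall : ∑ J ∈ R.powerset.erase ∅, ∏ j ∈ J, (th b j * E) = ∏ j ∈ R, (1 + th b j * E) - 1 := by
    rw [Finset.prod_one_add, ← Finset.sum_erase_add _ _ (Finset.empty_mem_powerset R)]
    simp
  rw [hall]
  have h5 : ∏ j ∈ R, (1 + th b j * E) ≤ Real.exp (∑ j ∈ R, th b j * E) := by
    rw [Real.exp_sum]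
    apply Finset.prod_le_prod
    · intro j _; have := th_nonneg b j; (clear * - this; positivity)
    · intro j _
      have := Real.add_one_le_exp (th b j * E)
      (clear * - this; linarith)
  have h6 : ∑ j ∈ R, th b j * E ≤ 1 / 10 := by
    rw [← Finset.sum_mul]
    have h7 := sum_th_le b (Helper44.nb w)
    have h8 : (∑ j ∈ R, th b j) * E ≤ (2 * (1 / (20 * E))) * E := by
      apply mul_le_mul_of_nonneg_right _ hE0.le
      (clear * - hb1 h7; linarith)
    refine h8.trans (le_of_eq ?_)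
    field_simp
    norm_num
  have h7 : Real.exp (∑ j ∈ R, th b j * E) ≤ 9 / 8 := by
    refine (Real.exp_le_exp.mpr h6).trans ?_
    have h8 := Real.exp_bound' (x := 1 / 10) (by norm_num) (by norm_num) (n := 3) (by norm_num)
    simp [Finset.sum_range_succ] at h8
    norm_num at h8 ⊢
    (clear * - h8; linarith)
  (clear * - h5 h7; linarith)

end Pool.Agent.M20.Helper26.KSZ
end

/- Helper53.KN.Helper33.KSZ.ZetaNear -/
section
/-! KSZ A9 (iii): zeros near `1 + i t`; the 3-4-1 inequality; lower bound of zeta. -/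

set_option autoImplicit false
open Filter Topology Complex Metric

namespace Pool.Agent.M20.Helper33.KSZ

open Pool.Agent.M20.Helper10.QRH Pool.Agent.M20.Helper69.QRH

/-- the coefficient function -/
noncomputable def Lam (n : ℕ) : ℂ := (ArithmeticFunction.vonMangoldt n : ℂ)

/-- `∑ Λ(n) n^{-σ}` -/
noncomputable def VV (σ : ℝ) : ℝ := ∑' n : ℕ, ‖LSeries.term Lam (σ : ℂ) n‖

lemma summable_term {s : ℂ} (hs : 1 < s.re) : Summable (fun n => ‖LSeries.term Lam s n‖) :=
  (ArithmeticFunction.LSeriesSummable_vonMangoldt hs).norm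

lemma norm_term_eq (s : ℂ) (n : ℕ) :
    ‖LSeries.term Lam s n‖ = ‖LSeries.term Lam ((s.re : ℝ) : ℂ) n‖ := by
  rw [LSeries.norm_term_eq, LSeries.norm_term_eq, Complex.ofReal_re]

lemma norm_LS_le {s : ℂ} (hs : 1 < s.re) : ‖LSeries Lam s‖ ≤ VV s.re := by
  unfold VV LSeries
  refine (norm_tsum_le_tsum_norm (summable_term hs)).trans (le_of_eq ?_)
  exact tsum_congr fun n => norm_term_eq s n

lemma term_val {n : ℕ} (hn : n ≠ 0) (s : ℂ) : LSeries.term Lam s n =
    (ArithmeticFunction.vonMangoldt n : ℂ) * cexp (-(s * (Real.log n : ℂ))) := by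
  rw [LSeries.term_of_ne_zero hn, Complex.cpow_def_of_ne_zero (by exact_mod_cast hn),
    Complex.exp_neg, ← Complex.natCast_log, Lam, mul_comm s, div_eq_mul_inv]

lemma term_re (n : ℕ) (σ t : ℝ) : (LSeries.term Lam (σ + t * I) n).re =
    ‖LSeries.term Lam (σ : ℂ) n‖ * Real.cos (t * Real.log n) := by
  rcases eq_or_ne n 0 with rfl | hn
  · simp
  · obtain ⟨l, hl⟩ : ∃ l : ℝ, l = Real.log n := ⟨_, rfl⟩
    have h1 : ‖LSeries.term Lam (σ : ℂ) n‖ =
        ArithmeticFunction.vonMangoldt n * Real.exp (-(σ * l)) := by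
      rw [term_val hn, ← hl, norm_mul, Complex.norm_exp, Complex.norm_real, Real.norm_eq_abs,
        abs_of_nonneg ArithmeticFunction.vonMangoldt_nonneg]
      congr 2
      simp
    rw [h1, term_val hn, ← hl, Complex.re_ofReal_mul, Complex.exp_re]
    have h2 : (-((σ + t * I) * (l : ℂ))).re = -(σ * l) := by simp
    have h3 : (-((σ + t * I) * (l : ℂ))).im = -(t * l) := by simp
    rw [h2, h3, Real.cos_neg, mul_assoc]

lemma re_LS {σ : ℝ} (hσ : 1 < σ) (t : ℝ) : (LSeries Lam (σ + t * I)).re =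
    ∑' n : ℕ, ‖LSeries.term Lam (σ : ℂ) n‖ * Real.cos (t * Real.log n) := by
  have hs : 1 < ((σ : ℂ) + t * I).re := by simpa using hσ
  have h1 : Summable (fun n => LSeries.term Lam (σ + t * I) n) :=
    ArithmeticFunction.LSeriesSummable_vonMangoldt hs
  unfold LSeries
  rw [Complex.re_tsum h1]
  exact tsum_congr fun n => term_re n σ t

/-- the 3-4-1 inequality -/
lemma three_four_one {σ : ℝ} (hσ : 1 < σ) (t : ℝ) :
    0 ≤ 3 * VV σ + 4 * (LSeries Lam (σ + t * I)).re +
      (LSeries Lam (σ + (2 * t : ℝ) * I)).re := by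
  have hs : 1 < ((σ : ℝ) : ℂ).re := by simpa using hσ
  have hS := summable_term hs
  have hc : ∀ u : ℝ, Summable (fun n : ℕ => ‖LSeries.term Lam (σ : ℂ) n‖ *
      Real.cos (u * Real.log n)) := by
    intro u
    refine Summable.of_norm_bounded hS fun n => ?_
    rw [norm_mul, norm_norm]
    exact mul_le_of_le_one_right (norm_nonneg _) (Real.abs_cos_le_one _)
  rw [re_LS hσ t, re_LS hσ (2 * t), VV, ← tsum_mul_left, ← tsum_mul_left,
    ← (hS.mul_left 3).tsum_add ((hc t).mul_left 4),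
    ← ((hS.mul_left 3).add ((hc t).mul_left 4)).tsum_add (hc (2 * t))]
  refine tsum_nonneg fun n => ?_
  set θ := t * Real.log n with hθ
  have h1 : 2 * t * Real.log n = 2 * θ := by rw [hθ]; ring
  rw [h1, Real.cos_two_mul]
  have h2 : 3 * ‖LSeries.term Lam (σ : ℂ) n‖ + 4 * (‖LSeries.term Lam (σ : ℂ) n‖ * Real.cos θ) +
      ‖LSeries.term Lam (σ : ℂ) n‖ * (2 * Real.cos θ ^ 2 - 1) =
      2 * ‖LSeries.term Lam (σ : ℂ) n‖ * (1 + Real.cos θ) ^ 2 := by ring
  rw [h2]
  (clear * -; positivity)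

lemma EZ_ne {s : ℂ} (hs : 1 ≤ s.re) : EZ s ≠ 0 := by
  intro h
  have h1 := zero_of_EZ h
  have h2 := (zero_facts h1.1).2.1
  (clear * - hs h2; linarith)

lemma VV_eq {σ : ℝ} (hσ : 1 < σ) : VV σ = (LSeries Lam (σ : ℂ)).re := by
  have := re_LS hσ 0
  simp only [Complex.ofReal_zero, zero_mul, add_zero, Real.cos_zero, mul_one] at this
  rw [this]
  rfl

lemma VV_bound : ∃ C : ℝ, 0 < C ∧ ∀ σ : ℝ, 1 < σ → σ ≤ 2 → VV σ ≤ 1 / (σ - 1) + C := by
  have hcont : ContinuousOn (fun σ : ℝ => logDeriv EZ (σ : ℂ)) (Set.Icc 1 2) := by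
    have h1 : Continuous (deriv EZ) :=
      (EZ_differentiable.contDiff (n := 1)).continuous_deriv le_rfl
    have h2 : Continuous EZ := EZ_differentiable.continuous
    have h3 : ∀ σ ∈ Set.Icc (1 : ℝ) 2, EZ (σ : ℂ) ≠ 0 := fun σ hσ =>
      EZ_ne (by simpa using hσ.1)
    exact ContinuousOn.div (h1.comp Complex.continuous_ofReal).continuousOn
      (h2.comp Complex.continuous_ofReal).continuousOn h3
  obtain ⟨C, hC⟩ := isCompact_Icc.exists_bound_of_continuousOn hcont
  refine ⟨|C| + 1, by (clear * -; positivity), fun σ h1 h2 => ?_⟩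
  rw [VV_eq h1]
  have h3 : LSeries Lam (σ : ℂ) = 1 / ((σ : ℂ) - 1) - logDeriv EZ (σ : ℂ) := by
    rw [logDeriv_EZ (by simpa using h1)]
    unfold Lam
    ring
  have h4 : (1 / ((σ : ℂ) - 1)).re = 1 / (σ - 1) := by
    have : (1 / ((σ : ℂ) - 1)) = ((1 / (σ - 1) : ℝ) : ℂ) := by push_cast; ring
    rw [this, Complex.ofReal_re]
  rw [h3, Complex.sub_re, h4]
  have h5 := hC σ ⟨h1.le, h2⟩
  have h6 := (abs_le.1 (Complex.abs_re_le_norm (logDeriv EZ (σ : ℂ)))).1
  have h7 := le_abs_self C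
  (clear * - h5 h6 h7; linarith)

lemma deriv_zeta_div {s : ℂ} (hs : 1 < s.re) :
    deriv riemannZeta s / riemannZeta s = -LSeries Lam s := by
  have := ArithmeticFunction.LSeries_vonMangoldt_eq_deriv_riemannZeta_div hs
  unfold Lam
  rw [this]
  ring

/-- **(A9 iii)** -/
theorem inA9 : Pool.Agent.M20.Helper18.KSZ.InA9 := by
  classical
  obtain ⟨C, hC, hloc⟩ := local_EZ
  obtain ⟨C₁, hC₁, hV⟩ := VV_bound
  have hlog2 : 0 < Real.log 2 := Real.log_pos (by norm_num)
  refine ⟨4 + 4 * (C₁ + 1 + 2 * C), by positivity, ?_⟩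
  intro t r ht hr hr1 Z hZ
  obtain ⟨S, hS, hc, hld⟩ := hloc t
  have hlt : 0 ≤ Real.log (|t| + 2) := Real.log_nonneg (by linarith [abs_nonneg t])
  have hl4 : 1 ≤ Real.log (|t| + 2) := by
    have h1 : Real.log (Real.exp 1) ≤ Real.log (|t| + 2) := by
      apply Real.log_le_log (Real.exp_pos 1)
      have := Real.exp_one_lt_d9
      (clear * - ht hr hr1 this; linarith)
    rwa [Real.log_exp] at h1
  set s : ℂ := ((1 + r : ℝ) : ℂ) + t * I with hs
  have hsre : s.re = 1 + r := by simp [hs]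
  have hsim : s.im = t := by simp [hs]
  have hs1 : s ≠ 1 := by
    intro h
    have := congrArg Complex.re h
    rw [hsre, Complex.one_re] at this
    (clear * - hr this; linarith)
  have hsre1 : 1 < s.re := by rw [hsre]; linarith
  have hzs : riemannZeta s ≠ 0 := riemannZeta_ne_zero_of_one_lt_re hsre1
  have hsB : s ∈ closedBall ((2 : ℂ) + t * I) 1.5 := by
    rw [mem_closedBall, dist_eq_norm]
    have h5 : s - ((2 : ℂ) + t * I) = ((r - 1 : ℝ) : ℂ) := by
      rw [hs]; push_cast; ring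
    rw [h5, Complex.norm_real, Real.norm_eq_abs, abs_le]
    norm_num
    constructor <;> linarith
  have hmain := hld s hsB (EZ_ne hsre1.le)
  rw [logDeriv_EZ_eq hs1 hzs] at hmain
  -- bound of the logarithmic derivative
  have h1 : ‖deriv riemannZeta s / riemannZeta s + 1 / (s - 1)‖ ≤ 1 / r + C₁ + 1 := by
    refine (norm_add_le _ _).trans ?_
    have h2 : ‖deriv riemannZeta s / riemannZeta s‖ ≤ 1 / r + C₁ := by
      rw [deriv_zeta_div hsre1, norm_neg]
      refine (norm_LS_le hsre1).trans ?_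
      rw [hsre]
      have := hV (1 + r) (by linarith) (by linarith)
      rwa [add_sub_cancel_left] at this
    have h3 : ‖1 / (s - 1)‖ ≤ 1 := by
      rw [norm_div, norm_one, div_le_one]
      · have h4 := Complex.abs_im_le_norm (s - 1)
        rw [Complex.sub_im, hsim, Complex.one_im, sub_zero] at h4
        (clear * - ht hr hr1 h4; linarith)
      · exact norm_pos_iff.2 (sub_ne_zero.2 hs1)
    linarith
  have h2 : (∑ c ∈ S, (analyticOrderNatAt EZ c : ℂ) / (s - c)).re ≤
      1 / r + C₁ + 1 + C * Real.log (|t| + 2) := by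
    have h3 := Complex.re_le_norm (∑ c ∈ S, (analyticOrderNatAt EZ c : ℂ) / (s - c))
    have h4 : ‖∑ c ∈ S, (analyticOrderNatAt EZ c : ℂ) / (s - c)‖ ≤
        ‖deriv riemannZeta s / riemannZeta s + 1 / (s - 1)‖ +
        ‖deriv riemannZeta s / riemannZeta s + 1 / (s - 1) -
          ∑ c ∈ S, (analyticOrderNatAt EZ c : ℂ) / (s - c)‖ := by
      have := norm_sub_le (deriv riemannZeta s / riemannZeta s + 1 / (s - 1))
        (deriv riemannZeta s / riemannZeta s + 1 / (s - 1) -
          ∑ c ∈ S, (analyticOrderNatAt EZ c : ℂ) / (s - c))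
      rwa [sub_sub_cancel] at this
    linarith
  -- lower bound
  have hre : ∀ c ∈ S, 0 ≤ ((analyticOrderNatAt EZ c : ℂ) / (s - c)).re := by
    intro c hcS
    have h3 := zero_facts (zero_of_EZ ((hS c).1 hcS).2).1
    have h4 : ((analyticOrderNatAt EZ c : ℂ) / (s - c)) =
      ((analyticOrderNatAt EZ c : ℝ) : ℂ) * (1 / (s - c)) := by push_cast; ring
    rw [h4, Complex.re_ofReal_mul, one_div, Complex.inv_re]
    refine mul_nonneg (Nat.cast_nonneg _) (div_nonneg ?_ (Complex.normSq_nonneg _))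
    rw [Complex.sub_re, hsre]
    (clear * - hr h3; linarith [h3.2.1])
  have hsub : Z ⊆ S := by
    intro ρ hρ
    obtain ⟨h3, h4⟩ := hZ ρ hρ
    rw [hS]
    refine ⟨?_, (zero_facts h3).2.2⟩
    rw [mem_closedBall, dist_eq_norm]
    calc ‖ρ - (2 + t * I)‖ = ‖(ρ - (1 + t * I)) + (-1)‖ := by congr 1; ring
      _ ≤ ‖ρ - (1 + t * I)‖ + ‖(-1 : ℂ)‖ := norm_add_le _ _
      _ ≤ 1 / 10 + 1 := by
        rw [norm_neg, norm_one]
        (clear * - hr1 h4; linarith)
      _ ≤ 1.6 := by norm_num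
  have h3 : (∑ ρ ∈ Z, (analyticOrderNatAt riemannZeta ρ : ℝ)) / (4 * r) ≤
      (∑ c ∈ S, (analyticOrderNatAt EZ c : ℂ) / (s - c)).re := by
    rw [Complex.re_sum, Finset.sum_div]
    refine le_trans (Finset.sum_le_sum fun ρ hρ => ?_)
      (Finset.sum_le_sum_of_subset_of_nonneg hsub fun c hc _ => hre c hc)
    obtain ⟨h4, h5⟩ := hZ ρ hρ
    obtain ⟨h6, h7, h8⟩ := zero_facts h4
    have h9 : ((analyticOrderNatAt EZ ρ : ℂ) / (s - ρ)) =
      ((analyticOrderNatAt EZ ρ : ℝ) : ℂ) * (1 / (s - ρ)) := by push_cast; ring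
    rw [h9, Complex.re_ofReal_mul, one_div, Complex.inv_re, orderNat_EZ h6, div_eq_mul_one_div]
    refine mul_le_mul_of_nonneg_left ?_ (Nat.cast_nonneg _)
    have h10 : r ≤ (s - ρ).re := by
      rw [Complex.sub_re, hsre]
      (clear * - h7; linarith)
    have h11 : ‖s - ρ‖ ≤ 2 * r := by
      have h12 : s - ρ = ((r : ℝ) : ℂ) - (ρ - (1 + t * I)) := by
        rw [hs]; push_cast; ring
      rw [h12]
      refine (norm_sub_le _ _).trans ?_
      rw [Complex.norm_real, Real.norm_eq_abs, abs_of_pos hr]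
      (clear * - h5; linarith)
    have h13 : Complex.normSq (s - ρ) ≤ 4 * r ^ 2 := by
      rw [Complex.normSq_eq_norm_sq]
      (clear * - hr h11 hr1; nlinarith [norm_nonneg (s - ρ)])
    have h14 : 0 < Complex.normSq (s - ρ) := by
      rw [Complex.normSq_pos]
      intro h15
      rw [h15, Complex.zero_re] at h10
      (clear * - hr h10; linarith)
    rw [div_le_div_iff₀ (by positivity) h14]
    (clear * - h13 hr h10; nlinarith)
  have h4 := h3.trans h2
  rw [div_le_iff₀ (by positivity)] at h4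
  show ∑ ρ ∈ Z, (analyticOrderNatAt riemannZeta ρ : ℝ) ≤ _
  refine h4.trans ?_
  have h5 : (1 / r + C₁ + 1 + C * Real.log (|t| + 2)) * (4 * r) =
      4 + 4 * (C₁ + 1 + C * Real.log (|t| + 2)) * r := by
    field_simp
    ring
  rw [h5]
  have h6 : C₁ + 1 + C * Real.log (|t| + 2) ≤ (C₁ + 1 + 2 * C) * Real.log (|t| + 2) := by
    (clear * - hl4 hC hr hr1 hC₁; nlinarith)
  have h7 : 0 ≤ r * Real.log (|t| + 2) := by positivity
  (clear * - hr hr1 h7 hC hC₁; nlinarith)

end Pool.Agent.M20.Helper33.KSZ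
end

/- Helper53.KN.Helper33.KSZ.ZFR -/
section
/-! KSZ A10: zero-free region with a large constant. -/

set_option autoImplicit false
open Filter Topology Complex Metric

namespace Pool.Agent.M20.Helper33.KSZ

open Pool.Agent.M20.Helper10.QRH Pool.Agent.M20.Helper69.QRH

lemma zeta_lower : ∃ c : ℝ, 0 < c ∧ ∀ s : ℂ, 1 < s.re → s.re ≤ 2 →
    c * (s.re - 1) ≤ ‖riemannZeta s‖ := by
  have hcont : ContinuousOn (fun σ : ℝ => EZ (σ : ℂ)) (Set.Icc 1 2) :=
    (EZ_differentiable.continuous.comp Complex.continuous_ofReal).continuousOn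
  obtain ⟨C, hC⟩ := isCompact_Icc.exists_bound_of_continuousOn hcont
  have hCpos : 0 < |C| + 1 := by (clear * -; positivity)
  refine ⟨1 / (|C| + 1), by (clear * -; positivity), fun s h1 h2 => ?_⟩
  have hs0 : 0 < s.re - 1 := by linarith
  set σ := s.re with hσ
  have hσ1 : 1 < ((σ : ℝ) : ℂ).re := by simpa using h1
  have hmul := ArithmeticFunction.LSeries_zeta_mul_Lseries_moebius h1
  rw [ArithmeticFunction.LSeries_zeta_eq_riemannZeta h1] at hmul
  -- bound of the Moebius series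
  have hmu : ‖LSeries (fun n => ((ArithmeticFunction.moebius n : ℤ) : ℂ)) s‖ ≤
      ‖riemannZeta (σ : ℂ)‖ := by
    have hsum : Summable (fun n : ℕ => ‖LSeries.term (fun n => ((ArithmeticFunction.zeta n : ℕ) : ℂ))
        (σ : ℂ) n‖) := (ArithmeticFunction.LSeriesSummable_zeta_iff.2 hσ1).norm
    have hz : ∑' n : ℕ, ‖LSeries.term (fun n => ((ArithmeticFunction.zeta n : ℕ) : ℂ)) (σ : ℂ) n‖ =
        ‖riemannZeta (σ : ℂ)‖ := by
      have h3 : ∀ n : ℕ, LSeries.term (fun n => ((ArithmeticFunction.zeta n : ℕ) : ℂ)) (σ : ℂ) n =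
          ((‖LSeries.term (fun n => ((ArithmeticFunction.zeta n : ℕ) : ℂ)) (σ : ℂ) n‖ : ℝ) : ℂ) := by
        intro n
        rcases eq_or_ne n 0 with rfl | hn
        · simp
        · rw [LSeries.norm_term_eq, LSeries.term_of_ne_zero hn, if_neg hn,
            ArithmeticFunction.zeta_apply_ne hn, Complex.ofReal_re]
          have h4 : ((n : ℂ)) = (((n : ℝ)) : ℂ) := by push_cast; rfl
          rw [h4, ← Complex.ofReal_cpow (Nat.cast_nonneg n)]
          simp
      have h5 : riemannZeta (σ : ℂ) =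
          ((∑' n : ℕ, ‖LSeries.term (fun n => ((ArithmeticFunction.zeta n : ℕ) : ℂ)) (σ : ℂ) n‖ : ℝ)
            : ℂ) := by
        rw [← ArithmeticFunction.LSeries_zeta_eq_riemannZeta hσ1, LSeries, Complex.ofReal_tsum]
        exact tsum_congr h3
      rw [h5, Complex.norm_real, Real.norm_eq_abs, abs_of_nonneg]
      exact tsum_nonneg fun n => norm_nonneg _
    rw [← hz, LSeries]
    have hle : ∀ n : ℕ, ‖LSeries.term (fun n => ((ArithmeticFunction.moebius n : ℤ) : ℂ)) s n‖ ≤
        ‖LSeries.term (fun n => ((ArithmeticFunction.zeta n : ℕ) : ℂ)) (σ : ℂ) n‖ := by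
      intro n
      rw [LSeries.norm_term_eq, LSeries.norm_term_eq]
      rcases eq_or_ne n 0 with rfl | hn
      · simp
      · rw [if_neg hn, if_neg hn, Complex.ofReal_re, ArithmeticFunction.zeta_apply_ne hn]
        have h6 : ‖(((ArithmeticFunction.moebius n : ℤ)) : ℂ)‖ ≤ 1 := by
          rw [Complex.norm_intCast]
          exact_mod_cast ArithmeticFunction.abs_moebius_le_one
        have h7 : ‖(((1 : ℕ)) : ℂ)‖ = 1 := by simp
        rw [h7]
        gcongr
    exact tsum_of_norm_bounded hsum.hasSum hle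
  have hEZ : ‖riemannZeta (σ : ℂ)‖ * (σ - 1) ≤ |C| + 1 := by
    have h3 : (σ : ℂ) ≠ 1 := by
      intro h
      have := congrArg Complex.re h
      rw [Complex.ofReal_re, Complex.one_re] at this
      linarith
    have h4 := hC σ ⟨h1.le, h2⟩
    rw [EZ_eq h3, norm_mul] at h4
    have h5 : ‖(σ : ℂ) - 1‖ = σ - 1 := by
      have : (σ : ℂ) - 1 = ((σ - 1 : ℝ) : ℂ) := by push_cast; ring
      rw [this, Complex.norm_real, Real.norm_eq_abs, abs_of_pos hs0]
    rw [h5] at h4
    have := le_abs_self C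
    linarith
  have h6 : 1 ≤ ‖riemannZeta s‖ * ‖riemannZeta (σ : ℂ)‖ := by
    have h7 : ‖riemannZeta s * LSeries (fun n => ((ArithmeticFunction.moebius n : ℤ) : ℂ)) s‖ = 1 := by
      rw [hmul, norm_one]
    rw [norm_mul] at h7
    rw [← h7]
    exact mul_le_mul_of_nonneg_left hmu (norm_nonneg _)
  rw [div_mul_eq_mul_div, one_mul, div_le_iff₀ hCpos]
  calc σ - 1 ≤ (σ - 1) * (‖riemannZeta s‖ * ‖riemannZeta (σ : ℂ)‖) :=
        le_mul_of_one_le_right hs0.le h6
    _ = ‖riemannZeta s‖ * (‖riemannZeta (σ : ℂ)‖ * (σ - 1)) := by ring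
    _ ≤ ‖riemannZeta s‖ * (|C| + 1) := by (clear * - hEZ; gcongr)

/-- growth conditions in terms of `L = log γ` -/
lemma large_conditions (A : ℝ) (hA : 0 < A) : ∀ᶠ γ : ℝ in atTop,
    A ≤ γ ∧ A ≤ Real.log γ ∧ A ≤ Real.log (Real.log γ) ∧
      A * Real.log (Real.log γ) ≤ Real.log γ := by
  have h1 : Tendsto Real.log atTop atTop := Real.tendsto_log_atTop
  have h2 : Tendsto (fun γ => Real.log (Real.log γ)) atTop atTop := h1.comp h1
  have h3 : ∀ᶠ L : ℝ in atTop, A * Real.log L ≤ L := by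
    have h4 : Tendsto (fun x : ℝ => Real.log x / x) atTop (𝓝 0) := by
      have := Real.isLittleO_log_id_atTop.tendsto_div_nhds_zero
      simpa using this
    have h5 : ∀ᶠ x : ℝ in atTop, Real.log x / x < 1 / A := h4.eventually_lt_const (by positivity)
    filter_upwards [h5, eventually_gt_atTop 0] with x hx hx0
    rw [div_lt_div_iff₀ hx0 hA] at hx
    (clear * - hx; linarith)
  filter_upwards [eventually_ge_atTop A, h1.eventually_ge_atTop A, h2.eventually_ge_atTop A,
    h1.eventually h3] with γ a b c d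
  exact ⟨a, b, c, d⟩

lemma order_pos {ρ : ℂ} (h : riemannZeta ρ = 0) : 1 ≤ analyticOrderNatAt riemannZeta ρ := by
  obtain ⟨h1, h2, h3⟩ := zero_facts h
  rw [← orderNat_EZ h1]
  have hEA : AnalyticOnNhd ℂ EZ Set.univ :=
    EZ_differentiable.differentiableOn.analyticOnNhd isOpen_univ
  have hnot : ¬ ∀ᶠ z in 𝓝 ρ, EZ z = 0 := by
    intro h4
    have h5 := hEA.eqOn_zero_of_preconnected_of_eventuallyEq_zero isPreconnected_univ
      (Set.mem_univ ρ) h4 (Set.mem_univ (1 : ℂ))
    rw [EZ_one] at h5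
    exact one_ne_zero h5
  have htop : analyticOrderAt EZ ρ ≠ ⊤ := by
    rw [Ne, analyticOrderAt_eq_top]
    exact hnot
  have h0 : analyticOrderAt EZ ρ ≠ 0 := by
    rw [Ne, (hEA ρ (Set.mem_univ ρ)).analyticOrderAt_eq_zero]
    exact fun h4 => h4 h3
  rw [Nat.one_le_iff_ne_zero]
  intro h4
  apply h0
  rw [← Nat.cast_analyticOrderNatAt htop, h4]
  rfl

/-- the logarithmic derivative at `1 + δ + i u` -/
lemma near_one {K L l R δ c₂ u : ℝ} (hK : 0 < K) (hL : 0 < L) (hl : 0 < l)
    (hR : R = K * l / (4 * L)) (hR0 : 0 < R) (hδ0 : 0 < δ) (hδ1 : δ ≤ 1) (hu : R < u)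
    (hexp : Real.exp l = L) (hc₂ : 0 < c₂)
    (hc : ∀ s : ℂ, 1 < s.re → s.re ≤ 2 → c₂ * (s.re - 1) ≤ ‖riemannZeta s‖)
    (hbig : 8 ≤ L ^ 2 * (c₂ * δ))
    (hb : ∀ z ∈ ball (((1 + δ : ℝ) : ℂ) + u * I) R, ‖riemannZeta z‖ ≤ (2 * L) ^ 3) :
    ∃ S : Finset ℂ, (∀ z, z ∈ S ↔ z ∈ closedBall (((1 + δ : ℝ) : ℂ) + u * I) (R / 2) ∧
        riemannZeta z = 0) ∧
      (LSeries Lam (((1 + δ : ℝ) : ℂ) + u * I)).re ≤
        -(∑ c ∈ S, (analyticOrderNatAt riemannZeta c : ℂ) /
          ((((1 + δ : ℝ) : ℂ) + u * I) - c)).re + 1080 * L / K := by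
  set s₀ : ℂ := ((1 + δ : ℝ) : ℂ) + u * I with hs₀
  have hre : s₀.re = 1 + δ := by simp [hs₀]
  have him : s₀.im = u := by simp [hs₀]
  have hne : riemannZeta s₀ ≠ 0 := riemannZeta_ne_zero_of_one_lt_re (by rw [hre]; (clear * - hδ0; linarith))
  have hd : DifferentiableOn ℂ riemannZeta (ball s₀ R) := by
    intro z hz
    refine (differentiableAt_riemannZeta ?_).differentiableWithinAt
    rintro rfl
    rw [mem_ball, dist_eq_norm] at hz
    have h1 := Complex.abs_im_le_norm (1 - s₀)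
    rw [Complex.sub_im, him, Complex.one_im, zero_sub, abs_neg] at h1
    have h2 := le_abs_self u
    (clear * - hu hz h1 h2; linarith)
  have hlow := hc s₀ (by rw [hre]; linarith) (by rw [hre]; linarith)
  rw [hre, add_sub_cancel_left] at hlow
  have hM : 0 < 5 * l := by positivity
  have hb' : ∀ z ∈ ball s₀ R, ‖riemannZeta z‖ ≤ Real.exp (5 * l) * ‖riemannZeta s₀‖ := by
    intro z hz
    refine (hb z hz).trans ?_
    have h1 : Real.exp (5 * l) = L ^ 5 := by
      rw [← hexp, ← Real.exp_nat_mul]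
      norm_num
    rw [h1]
    calc (2 * L) ^ 3 = L ^ 3 * 8 := by ring
      _ ≤ L ^ 3 * (L ^ 2 * (c₂ * δ)) := by (clear * - hbig hL; gcongr)
      _ = L ^ 5 * (c₂ * δ) := by ring
      _ ≤ L ^ 5 * ‖riemannZeta s₀‖ := by gcongr
  obtain ⟨S, hS, -, hld⟩ := landau hR0 hM hd hne hb'
  refine ⟨S, hS, ?_⟩
  have h1 := hld s₀ (mem_closedBall_self (by positivity)) hne
  rw [deriv_zeta_div (by clear * - hre hδ0; rw [hre]; linarith)] at h1
  have h2 : 54 * (5 * l) / R = 1080 * L / K := by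
    rw [hR]
    field_simp
    ring
  rw [h2] at h1
  have h3 := (abs_le.1 ((Complex.abs_re_le_norm _).trans h1)).1
  rw [Complex.sub_re, Complex.neg_re] at h3
  (clear * - h3; linarith)

lemma re_nonneg_aux {s c : ℂ} (h : c.re < s.re) (m : ℕ) : 0 ≤ ((m : ℂ) / (s - c)).re := by
  have h4 : ((m : ℂ) / (s - c)) = ((m : ℝ) : ℂ) * (1 / (s - c)) := by push_cast; ring
  rw [h4, Complex.re_ofReal_mul, one_div, Complex.inv_re]
  refine mul_nonneg (Nat.cast_nonneg _) (div_nonneg ?_ (Complex.normSq_nonneg _))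
  rw [Complex.sub_re]
  linarith

theorem zfr_pos (C₀ : ℝ) (hC₀ : 0 < C₀) : ∃ T₀ : ℝ, 3 ≤ T₀ ∧ ∀ ρ : ℂ, riemannZeta ρ = 0 →
    T₀ ≤ ρ.im → ρ.re ≤ 1 - C₀ / Real.log ρ.im := by
  obtain ⟨C₁, hC₁, hV⟩ := VV_bound
  obtain ⟨c₂, hc₂, hlow⟩ := zeta_lower
  set κ : ℝ := 1 / 54000 with hκ
  have hκ0 : 0 < κ := by rw [hκ]; norm_num
  set K : ℝ := 1 + 4 * C₀ / κ with hKdef
  have hK1 : 1 ≤ K := by rw [hKdef]; have : 0 < 4 * C₀ / κ := by positivity
                         (clear * - this; linarith)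
  have hK0 : 0 < K := by (clear * - hK1; linarith)
  have hKC : 4 * C₀ ≤ κ * K := by
    rw [hKdef, mul_add, mul_div_cancel₀ _ hκ0.ne']
    (clear * - hκ0; linarith)
  obtain ⟨t₀, ht₀, hA6⟩ := Pool.Agent.M20.Helper67.KSZ.A6 K hK1
  set A : ℝ := 100 + t₀ + 30 * C₁ * (κ * K) + 8 / (c₂ * (κ * K)) + K + 2 * (κ * K) with hA
  have hp1 : 0 < 30 * C₁ * (κ * K) := by positivity
  exact by
    have hp2 : 0 < 8 / (c₂ * (κ * K)) := by positivity
    have hp3 : 0 < 2 * (κ * K) := by positivity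
    obtain ⟨hA1, hA2, hA3, hA4, hA5⟩ : 100 + t₀ ≤ A ∧ 30 * C₁ * (κ * K) ≤ A ∧
        8 / (c₂ * (κ * K)) ≤ A ∧ K ≤ A ∧ 2 * (κ * K) ≤ A := by
      have gen : ∀ t a b k c : ℝ, 3 ≤ t → 0 < a → 0 < b → 0 < k → 0 < c →
          100 + t ≤ 100 + t + a + b + k + c ∧ a ≤ 100 + t + a + b + k + c ∧
          b ≤ 100 + t + a + b + k + c ∧ k ≤ 100 + t + a + b + k + c ∧
          c ≤ 100 + t + a + b + k + c := by
        clear * -
        intro t a b k c h1 h2 h3 h4 h5
        refine ⟨?_, ?_, ?_, ?_, ?_⟩ <;> linarith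
      exact gen _ _ _ _ _ ht₀ hp1 hp2 hK0 hp3
    have hA0 : 0 < A := by (clear * - hA1 ht₀; linarith)
    obtain ⟨T₁, hT₁⟩ := eventually_atTop.1 (large_conditions A hA0)
    refine ⟨max 3 T₁, le_max_left _ _, fun ρ hρ hγ => ?_⟩
    obtain ⟨hc1, hc2, hc3, hc4⟩ := hT₁ ρ.im ((le_max_right _ _).trans hγ)
    set γ : ℝ := ρ.im with hγdef
    set L : ℝ := Real.log γ with hL
    set l : ℝ := Real.log L with hl
    exact by
      have hγ3 : 3 ≤ γ := (le_max_left _ _).trans hγ
      have hγ100 : 100 ≤ γ := by (clear * - hA1 ht₀ hc1; linarith)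
      have hLA : 100 ≤ L := by (clear * - hA1 ht₀ hc2; linarith)
      have hlA : 100 ≤ l := by (clear * - hA1 ht₀ hc3; linarith)
      have hL0 : 0 < L := by (clear * - hLA; linarith)
      have hl0 : 0 < l := by (clear * - hlA; linarith)
      have hexp : Real.exp l = L := Real.exp_log hL0
      set R : ℝ := K * l / (4 * L) with hR
      have hR0 : 0 < R := by positivity
      exact by
        have hKl : K * l ≤ L := by
          refine le_trans ?_ hc4
          exact mul_le_mul_of_nonneg_right hA4 hl0.le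
        have hR1 : R ≤ 1 / 4 := by
          rw [hR, div_le_iff₀ (by positivity)]
          (clear * - hKl; linarith)
        set δ : ℝ := κ * K / L with hδ
        have hδ0 : 0 < δ := by positivity
        have hδ1 : δ ≤ 1 / 2 := by
          rw [hδ, div_le_iff₀ hL0]
          have h1 := hA5.trans hc2
          have gen : ∀ y z : ℝ, 2 * y ≤ z → y ≤ 1 / 2 * z := by
            intro y z h
            linarith
          exact gen _ _ h1
        have hδC : 3 * C₁ ≤ 1 / (10 * δ) := by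
          rw [le_div_iff₀ (by positivity)]
          have h1 : 30 * C₁ * (κ * K) ≤ L := hA2.trans hc2
          have h2 : 3 * C₁ * (10 * δ) = 30 * C₁ * (κ * K) / L := by rw [hδ]; ring
          rw [h2, div_le_one hL0]
          exact h1
        have hbig : 8 ≤ L ^ 2 * (c₂ * δ) := by
          have h1 : 8 / (c₂ * (κ * K)) ≤ L := hA3.trans hc2
          rw [div_le_iff₀ (mul_pos hc₂ (mul_pos hκ0 hK0))] at h1
          have h2 : L ^ 2 * (c₂ * δ) = L * (c₂ * (κ * K)) := by
            rw [hδ]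
            field_simp
          rw [h2]
          exact h1
        -- growth
        have hLup : Real.log (2 * γ + 1) ≤ 2 * L := by
          have h1 : Real.log (2 * γ + 1) ≤ Real.log (γ ^ 2) := Real.log_le_log (by (clear * - hγ100; linarith)) (by (clear * - hγ100; nlinarith))
          rw [Real.log_pow] at h1
          push_cast at h1
          exact h1
        exact by
          have hLlow : L / 2 ≤ Real.log (γ - 1) := by
            have h1 : Real.log γ ≤ Real.log ((γ - 1) ^ 2) := Real.log_le_log (by (clear * - hγ100; linarith)) (by (clear * - hγ100; nlinarith))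
            rw [Real.log_pow] at h1
            push_cast at h1
            (clear * - h1; linarith)
          have hgrow : ∀ z : ℂ, γ - 1 ≤ z.im → z.im ≤ 2 * γ + 1 → 1 - R ≤ z.re →
              ‖riemannZeta z‖ ≤ (2 * L) ^ 3 := by
            intro z h1 h2 h3
            have h4 : L / 2 ≤ Real.log z.im := hLlow.trans (Real.log_le_log (by (clear * - hγ100; linarith)) h1)
            have h5 : Real.log z.im ≤ 2 * L := (Real.log_le_log (by (clear * - hγ100 h1; linarith)) h2).trans hLup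
            have h40 : 0 < Real.log z.im := by (clear * - hLA h4; linarith)
            have h6 : l / 2 ≤ Real.log (Real.log z.im) := by
              have h7 : Real.log (L / 2) ≤ Real.log (Real.log z.im) := Real.log_le_log (by (clear * - hLA; linarith)) h4
              rw [Real.log_div hL0.ne' (by norm_num)] at h7
              have h8 := Real.log_two_lt_d9
              (clear * - hlA h7 h8; linarith)
            have h7 : R ≤ K * Real.log (Real.log z.im) / Real.log z.im := by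
              rw [hR, div_le_div_iff₀ (by (clear * - hL0; positivity)) h40]
              have h8 : K * l * Real.log z.im ≤ K * l * (2 * L) := by (clear * - h5 hC₀ hlA; gcongr)
              have h9 : K * (l / 2) * (4 * L) ≤ K * Real.log (Real.log z.im) * (4 * L) := by (clear * - h6 hC₀ hLA; gcongr)
              have h10 : K * (l / 2) * (4 * L) = K * l * (2 * L) := by ring
              (clear * - h8 h9; linarith)
            have h8 := hA6 z.im z.re (by (clear * - hA1 hc1 h1; linarith)) (by (clear * - h3 h7; linarith))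
            rw [Complex.re_add_im] at h8
            refine h8.trans ?_
            have h9 : 0 ≤ Real.log z.im := h40.le
            (clear * - h9 h5; gcongr)
          have hball1 : ∀ z ∈ ball (((1 + δ : ℝ) : ℂ) + γ * I) R, ‖riemannZeta z‖ ≤ (2 * L) ^ 3 := by
            clear * - hgrow hγ100 hR0 hR1 hδ0
            intro z hz
            rw [mem_ball, dist_eq_norm] at hz
            have h1 := Complex.abs_im_le_norm (z - (((1 + δ : ℝ) : ℂ) + γ * I))
            have h2 := Complex.abs_re_le_norm (z - (((1 + δ : ℝ) : ℂ) + γ * I))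
            have h3 : (z - (((1 + δ : ℝ) : ℂ) + γ * I)).im = z.im - γ := by simp
            have h4 : (z - (((1 + δ : ℝ) : ℂ) + γ * I)).re = z.re - (1 + δ) := by simp
            rw [h3, abs_le] at h1
            rw [h4, abs_le] at h2
            exact hgrow z (by (clear * - hR0 hR1 hz h1; linarith [h1.1])) (by (clear * - hγ100 hR0 hR1 hz h1; linarith [h1.2])) (by (clear * - hδ0 hz h2; linarith [h2.1]))
          have hball2 : ∀ z ∈ ball (((1 + δ : ℝ) : ℂ) + ((2 * γ : ℝ) : ℂ) * I) R,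
              ‖riemannZeta z‖ ≤ (2 * L) ^ 3 := by
            clear * - hgrow hγ100 hR0 hR1 hδ0
            intro z hz
            rw [mem_ball, dist_eq_norm] at hz
            have h1 := Complex.abs_im_le_norm (z - (((1 + δ : ℝ) : ℂ) + ((2 * γ : ℝ) : ℂ) * I))
            have h2 := Complex.abs_re_le_norm (z - (((1 + δ : ℝ) : ℂ) + ((2 * γ : ℝ) : ℂ) * I))
            have h3 : (z - (((1 + δ : ℝ) : ℂ) + ((2 * γ : ℝ) : ℂ) * I)).im = z.im - 2 * γ := by simp
            have h4 : (z - (((1 + δ : ℝ) : ℂ) + ((2 * γ : ℝ) : ℂ) * I)).re = z.re - (1 + δ) := by simp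
            rw [h3, abs_le] at h1
            rw [h4, abs_le] at h2
            exact hgrow z (by (clear * - hγ100 hR0 hR1 hz h1; linarith [h1.1])) (by (clear * - hR0 hR1 hz h1; linarith [h1.2])) (by (clear * - hδ0 hz h2; linarith [h2.1]))
          obtain ⟨S₁, hS₁, hr₁⟩ := near_one hK0 hL0 hl0 hR hR0 hδ0 (by (clear * - hR0 hR1 hδ1; linarith)) (u := γ) (by (clear * - hγ100 hR1; linarith))
            hexp hc₂ hlow hbig hball1
          obtain ⟨S₂, hS₂, hr₂⟩ := near_one hK0 hL0 hl0 hR hR0 hδ0 (by (clear * - hR0 hR1 hδ1; linarith)) (u := 2 * γ)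
            (by (clear * - hγ100 hR1; linarith)) hexp hc₂ hlow hbig hball2
          obtain ⟨hρ1, hρre, -⟩ := zero_facts hρ
          by_contra hcon
          rw [not_le] at hcon
          have hβ : 1 - ρ.re < C₀ / L := by (clear * - hcon; linarith)
          have hC₀L : C₀ / L ≤ δ / 4 := by
            rw [hδ, div_div, div_le_div_iff₀ hL0 (mul_pos hL0 four_pos)]
            have h1 := mul_le_mul_of_nonneg_right hKC hL0.le
            (clear * - h1; linarith)
          -- ρ is in S₁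
          have hs1ρ : (((1 + δ : ℝ) : ℂ) + γ * I) - ρ = ((1 + δ - ρ.re : ℝ) : ℂ) := by
            apply Complex.ext
            · simp
            · simp [hγdef]
          have hδR : δ + δ / 4 ≤ R / 2 := by
            have h1 : δ * (5 / 4) = (κ * K * 5 / 4) / L := by rw [hδ]; ring
            have h2 : R / 2 = (K * l / 8) / L := by rw [hR]; field_simp; ring
            have h3 : δ + δ / 4 = δ * (5 / 4) := by ring
            rw [h3, h1, h2]
            apply div_le_div_of_nonneg_right _ hL0.le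
            have h4 : κ ≤ 1 := by rw [hκ]; norm_num
            have h5 : κ * K ≤ 1 * K := mul_le_mul_of_nonneg_right h4 hK0.le
            have h6 : K * 100 ≤ K * l := mul_le_mul_of_nonneg_left hlA hK0.le
            (clear * - h5 h6 hK0; linarith)
          exact by
            have hρS : ρ ∈ S₁ := by
              rw [hS₁]
              refine ⟨?_, hρ⟩
              rw [mem_closedBall, dist_comm, dist_eq_norm, hs1ρ, Complex.norm_real, Real.norm_eq_abs,
                abs_of_pos (by (clear * - hρre hcon hC₀L; linarith))]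
              (clear * - hcon hC₀L hδR; linarith)
            have hsum1 : 1 / (1 + δ - ρ.re) ≤ (∑ c ∈ S₁, (analyticOrderNatAt riemannZeta c : ℂ) /
                ((((1 + δ : ℝ) : ℂ) + γ * I) - c)).re := by
              rw [Complex.re_sum]
              have h1 : 1 / (1 + δ - ρ.re) ≤ ((analyticOrderNatAt riemannZeta ρ : ℂ) /
                  ((((1 + δ : ℝ) : ℂ) + γ * I) - ρ)).re := by
                rw [hs1ρ]
                have h2 : ((analyticOrderNatAt riemannZeta ρ : ℂ) / ((1 + δ - ρ.re : ℝ) : ℂ)) =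
                  (((analyticOrderNatAt riemannZeta ρ : ℝ) / (1 + δ - ρ.re) : ℝ) : ℂ) := by push_cast; ring
                rw [h2, Complex.ofReal_re]
                apply div_le_div_of_nonneg_right _ (by (clear * - hρre hcon hC₀L; linarith))
                exact_mod_cast order_pos hρ
              refine h1.trans (Finset.single_le_sum (f := fun c => ((analyticOrderNatAt riemannZeta c : ℂ) /
                  ((((1 + δ : ℝ) : ℂ) + γ * I) - c)).re) (fun c hc => ?_) hρS)
              refine re_nonneg_aux ?_ _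
              have h3 := (zero_facts ((hS₁ c).1 hc).2).2.1
              have h4 : ((((1 + δ : ℝ) : ℂ) + γ * I)).re = 1 + δ := by simp
              rw [h4]
              (clear * - hρre hcon hC₀L h3; linarith)
            have hsum2 : 0 ≤ (∑ c ∈ S₂, (analyticOrderNatAt riemannZeta c : ℂ) /
                ((((1 + δ : ℝ) : ℂ) + ((2 * γ : ℝ) : ℂ) * I) - c)).re := by
              rw [Complex.re_sum]
              refine Finset.sum_nonneg fun c hc => re_nonneg_aux ?_ _
              have h3 := (zero_facts ((hS₂ c).1 hc).2).2.1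
              have h4 : ((((1 + δ : ℝ) : ℂ) + ((2 * γ : ℝ) : ℂ) * I)).re = 1 + δ := by simp
              rw [h4]
              (clear * - hρre hcon hC₀L h3; linarith)
            have h341 := three_four_one (σ := 1 + δ) (by (clear * - hρre hcon hC₀L; linarith)) γ
            have hV1 := hV (1 + δ) (by (clear * - hρre hcon hC₀L; linarith)) (by (clear * - hR1 hρre hcon hC₀L hδR; linarith))
            rw [add_sub_cancel_left] at hV1
            have hLK : 1080 * L / K = 1 / (50 * δ) := by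
              rw [hδ, hκ]
              field_simp
              norm_num
            rw [hLK] at hr₁ hr₂
            have hfin : 4 * (1 / (1 + δ - ρ.re)) ≤ 3 * (1 / δ) + 3 * C₁ + 5 * (1 / (50 * δ)) := by
              (clear * - hr₁ hr₂ hsum1 hsum2 h341 hV1; linarith)
            have h5 : 5 * (1 / (50 * δ)) = 1 / (10 * δ) := by field_simp; norm_num
            have h6 : 3 * (1 / δ) + 1 / (10 * δ) + 1 / (10 * δ) = 16 / (5 * δ) := by field_simp; norm_num
            have h7 : 4 * (1 / (1 + δ - ρ.re)) ≤ 16 / (5 * δ) := by (clear * - hδC hr₁ hr₂ hsum1 hsum2 h341 hV1 h5 h6; linarith)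
            exact by
              clear * - hρre hcon hC₀L hC₀ hLA h7; have h8 : 0 < 1 + δ - ρ.re := by (clear * - hρre hcon hC₀L; linarith)
              rw [mul_one_div, div_le_div_iff₀ h8 (by (clear * - hC₀ hLA; positivity))] at h7
              (clear * - hcon hC₀L h7; linarith)

/-- **(A10)** -/
theorem inA10 : Pool.Agent.M20.Helper18.KSZ.InA10 := by
  intro C0
  obtain ⟨T₀, hT₀, h⟩ := zfr_pos (max C0 1) (lt_max_of_lt_right one_pos)
  refine ⟨T₀, by linarith, fun ρ hρ hγ => ?_⟩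
  have hlog : 0 < Real.log |ρ.im| := Real.log_pos (by linarith)
  have hmain : ρ.re ≤ 1 - max C0 1 / Real.log |ρ.im| := by
    rcases le_total 0 ρ.im with h1 | h1
    · rw [abs_of_nonneg h1] at hγ ⊢
      exact h ρ hρ hγ
    · rw [abs_of_nonpos h1] at hγ ⊢
      have h2 : riemannZeta ((starRingEnd ℂ) ρ) = 0 := by
        rw [riemannZeta_conj, hρ, map_zero]
      have h3 := h ((starRingEnd ℂ) ρ) h2 (by rw [Complex.conj_im]; exact hγ)
      rwa [Complex.conj_im, Complex.conj_re] at h3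
  refine hmain.trans ?_
  have h4 : C0 / Real.log |ρ.im| ≤ max C0 1 / Real.log |ρ.im| :=
    div_le_div_of_nonneg_right (le_max_left _ _) hlog.le
  (clear * - h4; linarith)

end Pool.Agent.M20.Helper33.KSZ
end
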