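import Mathlib
import Pool.Agent.Helper53.KO.G04
import Pool.Agent.Helper53.KO.G06
import Pool.Agent.Helper53.KO.G07
import Pool.Agent.Helper53.KO.G08
import Pool.Agent.Helper53.KO.G15
import Pool.Agent.Helper53.KO.G17

set_option linter.all false

/- Helper53.KN.Helper5.KC.FM3 -/
section
/-!
# Project KS, FM-3: fourth moment of Dirichlet polynomials from the mean value theorem
-/

set_option autoImplicit false
open MeasureTheory Finset

namespace Pool.Agent.M20.Helper5.KC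

open Pool.Agent.M20.Helper26.KC (FMmv2 FMmv4a FMmv4b)

/-- coefficients of the square of `∑_{M < n ≤ L} a n n^(it)` -/
noncomputable def sqC (M L : ℕ) (a : ℕ → ℂ) (n : ℕ) : ℂ :=
  ∑ p ∈ (Ioc M L ×ˢ Ioc M L).filter (fun p => p.1 * p.2 = n), a p.1 * a p.2

theorem sq_eq (M L : ℕ) (a : ℕ → ℂ) (s : ℂ) :
    (∑ n ∈ Ioc M L, a n * (n : ℂ) ^ s) ^ 2 =
      ∑ n ∈ Icc 1 (L ^ 2), sqC M L a n * (n : ℂ) ^ s := by
  have h1 : (∑ n ∈ Ioc M L, a n * (n : ℂ) ^ s) ^ 2 =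
      ∑ p ∈ Ioc M L ×ˢ Ioc M L, a p.1 * a p.2 * ((p.1 * p.2 : ℕ) : ℂ) ^ s := by
    rw [sq, Finset.sum_mul_sum, Finset.sum_product]
    refine Finset.sum_congr rfl (fun x _ => Finset.sum_congr rfl (fun y _ => ?_))
    rw [Nat.cast_mul, Complex.natCast_mul_natCast_cpow]
    ring
  rw [h1, ← Finset.sum_fiberwise_of_maps_to (g := fun p : ℕ × ℕ => p.1 * p.2)
    (t := Icc 1 (L ^ 2)) (fun p hp => ?_)]
  · refine Finset.sum_congr rfl (fun n _ => ?_)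
    rw [sqC, Finset.sum_mul]
    refine Finset.sum_congr rfl (fun p hp => ?_)
    rw [(Finset.mem_filter.1 hp).2]
  · simp only [Finset.mem_product, Finset.mem_Ioc] at hp
    rw [Finset.mem_Icc]
    constructor
    · exact Nat.one_le_iff_ne_zero.2 (Nat.mul_ne_zero (by omega) (by omega))
    · rw [sq]
      exact Nat.mul_le_mul hp.1.2 hp.2.2

theorem sqC_eq_zero {M L : ℕ} {a : ℕ → ℂ} {n : ℕ} (hn : n ≤ M ^ 2) : sqC M L a n = 0 := by
  rw [sqC, Finset.filter_false_of_mem, Finset.sum_empty]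
  intro p hp h
  simp only [Finset.mem_product, Finset.mem_Ioc] at hp
  have : M ^ 2 < p.1 * p.2 := by nlinarith [hp.1.1, hp.2.1]
  omega

theorem norm_sqC_le {M L : ℕ} {a : ℕ → ℂ} {σ : ℝ} (ha : ∀ n : ℕ, 1 ≤ n → ‖a n‖ ≤ (n : ℝ) ^ (-σ))
    {n : ℕ} (hn : 1 ≤ n) : ‖sqC M L a n‖ ≤ (n.divisors.card : ℝ) * (n : ℝ) ^ (-σ) := by
  rw [sqC]
  have h1 : ∀ p ∈ (Ioc M L ×ˢ Ioc M L).filter (fun p => p.1 * p.2 = n),
      ‖a p.1 * a p.2‖ ≤ (n : ℝ) ^ (-σ) := by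
    intro p hp
    simp only [Finset.mem_filter, Finset.mem_product, Finset.mem_Ioc] at hp
    rw [norm_mul, ← hp.2, Nat.cast_mul, Real.mul_rpow (Nat.cast_nonneg _) (Nat.cast_nonneg _)]
    exact mul_le_mul (ha _ (by omega)) (ha _ (by omega)) (norm_nonneg _) (by positivity)
  refine (norm_sum_le_of_le _ h1).trans ?_
  rw [Finset.sum_const, nsmul_eq_mul]
  refine mul_le_mul_of_nonneg_right ?_ (by positivity)
  refine Nat.cast_le.2 ?_
  have h2 : (Ioc M L ×ˢ Ioc M L).filter (fun p => p.1 * p.2 = n) ⊆ n.divisorsAntidiagonal := by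
    intro p hp
    simp only [Finset.mem_filter] at hp
    rw [Nat.mem_divisorsAntidiagonal]
    exact ⟨hp.2, by omega⟩
  refine (Finset.card_le_card h2).trans (le_of_eq ?_)
  rw [← Nat.map_div_right_divisors, Finset.card_map]

/-- the fourth moment in terms of the sum of `(T + n) n^(-2σ)` -/
theorem gen (h2 : FMmv2) (σ : ℝ) {ε : ℝ} (hε : 0 < ε) : ∃ C : ℝ, 0 < C ∧
    ∀ (M L : ℕ) (a : ℕ → ℂ) (T : ℝ), 1 ≤ T → 1 ≤ L →
    (∀ n : ℕ, 1 ≤ n → ‖a n‖ ≤ (n : ℝ) ^ (-σ)) →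
    ∫ t : ℝ, Real.exp (-(t / T) ^ 2) *
        ‖∑ n ∈ Ioc M L, a n * (n : ℂ) ^ ((t : ℂ) * Complex.I)‖ ^ 4 ≤
      C * (L : ℝ) ^ ε * ∑ n ∈ Ioc (M ^ 2) (L ^ 2), (T + n) * ((n : ℝ) ^ (-σ)) ^ 2 := by
  obtain ⟨C, hC, h⟩ := h2
  obtain ⟨D, hD, hd⟩ := Pool.Agent.M20.Helper91.KC.card_divisors_bound (ε / 4) (by positivity)
  refine ⟨C * D ^ 2, by positivity, ?_⟩
  intro M L a T hT hL ha
  have hL0 : (0 : ℝ) < L := by exact_mod_cast hL
  have h4 : ∀ t : ℝ, Real.exp (-(t / T) ^ 2) *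
        ‖∑ n ∈ Ioc M L, a n * (n : ℂ) ^ ((t : ℂ) * Complex.I)‖ ^ 4 =
      Real.exp (-(t / T) ^ 2) *
        ‖∑ n ∈ Icc 1 (L ^ 2), sqC M L a n * (n : ℂ) ^ ((t : ℂ) * Complex.I)‖ ^ 2 := by
    intro t
    rw [← sq_eq, norm_pow]
    ring
  simp_rw [h4]
  refine (h (L ^ 2) (sqC M L a) T hT).trans ?_
  rw [show C * D ^ 2 * (L : ℝ) ^ ε * ∑ n ∈ Ioc (M ^ 2) (L ^ 2), (T + n) * ((n : ℝ) ^ (-σ)) ^ 2 =
    C * ∑ n ∈ Ioc (M ^ 2) (L ^ 2), (D ^ 2 * (L : ℝ) ^ ε) * ((T + n) * ((n : ℝ) ^ (-σ)) ^ 2) by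
      rw [← Finset.mul_sum]; ring]
  refine mul_le_mul_of_nonneg_left ?_ hC.le
  have hsub : Ioc (M ^ 2) (L ^ 2) ⊆ Icc 1 (L ^ 2) := by
    intro n hn
    rw [Finset.mem_Ioc] at hn
    rw [Finset.mem_Icc]
    omega
  rw [← Finset.sum_subset hsub (fun n hn hn' => ?_)]
  · refine Finset.sum_le_sum (fun n hn => ?_)
    rw [Finset.mem_Ioc] at hn
    have hn1 : 1 ≤ n := by omega
    have hn0 : (0 : ℝ) < n := by exact_mod_cast hn1
    have hb : ‖sqC M L a n‖ ≤ D * (n : ℝ) ^ (ε / 4) * (n : ℝ) ^ (-σ) :=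
      (norm_sqC_le ha hn1).trans (mul_le_mul_of_nonneg_right (hd n hn1) (by positivity))
    have hb2 : ‖sqC M L a n‖ ^ 2 ≤ (D * (n : ℝ) ^ (ε / 4) * (n : ℝ) ^ (-σ)) ^ 2 :=
      pow_le_pow_left₀ (norm_nonneg _) hb 2
    have hp : ((n : ℝ) ^ (ε / 4)) ^ 2 ≤ (L : ℝ) ^ ε := by
      have h5 : (n : ℝ) ≤ (L : ℝ) ^ (2 : ℝ) := by
        rw [Real.rpow_two]
        exact_mod_cast hn.2
      have h6 : (n : ℝ) ^ (ε / 4) ≤ ((L : ℝ) ^ (2 : ℝ)) ^ (ε / 4) :=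
        Real.rpow_le_rpow hn0.le h5 (by positivity)
      have h7 : ((n : ℝ) ^ (ε / 4)) ^ 2 ≤ (((L : ℝ) ^ (2 : ℝ)) ^ (ε / 4)) ^ 2 :=
        pow_le_pow_left₀ (by (clear * - hn1; positivity)) h6 2
      refine h7.trans (le_of_eq ?_)
      rw [← Real.rpow_mul hL0.le, ← Real.rpow_natCast, ← Real.rpow_mul hL0.le]
      congr 1
      push_cast
      ring
    have hTn : 0 ≤ T + n := by (clear * - hT hn0; linarith)
    calc (T + n) * ‖sqC M L a n‖ ^ 2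
        ≤ (T + n) * (D * (n : ℝ) ^ (ε / 4) * (n : ℝ) ^ (-σ)) ^ 2 :=
          mul_le_mul_of_nonneg_left hb2 hTn
      _ = D ^ 2 * ((n : ℝ) ^ (ε / 4)) ^ 2 * ((T + n) * ((n : ℝ) ^ (-σ)) ^ 2) := by ring
      _ ≤ D ^ 2 * (L : ℝ) ^ ε * ((T + n) * ((n : ℝ) ^ (-σ)) ^ 2) := by
          refine mul_le_mul_of_nonneg_right ?_ (by (clear * - hT hn1; positivity))
          exact mul_le_mul_of_nonneg_left hp (by positivity)
  · rw [Finset.mem_Icc] at hn
    rw [Finset.mem_Ioc] at hn'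
    rw [sqC_eq_zero (by omega), norm_zero]
    ring

theorem mv4a : FMmv2 → FMmv4a := by
  intro h2 ε hε
  obtain ⟨C, hC, h⟩ := gen h2 (1 / 2) (half_pos hε)
  refine ⟨C * (1 + 2 / (ε / 2)), by (clear * - hC hε; positivity), ?_⟩
  intro L a T hT hL ha
  have hL0 : (0 : ℝ) < L := by exact_mod_cast hL
  have hL1 : (1 : ℝ) ≤ L := by exact_mod_cast hL
  have h3 := h 0 L a T hT hL ha
  have e1 : Ioc 0 L = Icc 1 L := by
    ext n; rw [Finset.mem_Ioc, Finset.mem_Icc]; omega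
  rw [e1] at h3
  refine h3.trans ?_
  have h5 : ∑ n ∈ Ioc (0 ^ 2) (L ^ 2), (T + (n : ℝ)) * ((n : ℝ) ^ (-(1 / 2) : ℝ)) ^ 2 ≤
      (1 + 2 / (ε / 2)) * (L : ℝ) ^ (ε / 2) * (T + (L : ℝ) ^ 2) := by
    have e2 : ∀ n ∈ Ioc (0 ^ 2) (L ^ 2), (T + (n : ℝ)) * ((n : ℝ) ^ (-(1 / 2) : ℝ)) ^ 2 =
        T * (n : ℝ)⁻¹ + 1 := by
      intro n hn
      rw [Finset.mem_Ioc] at hn
      have hn0 : (0 : ℝ) < n := by exact_mod_cast (by omega : 0 < n)
      rw [← Real.rpow_natCast, ← Real.rpow_mul hn0.le]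
      rw [show (-(1 / 2) : ℝ) * ((2 : ℕ) : ℝ) = -1 by norm_num, Real.rpow_neg_one]
      (clear * - hn0 hT; field_simp)
    rw [Finset.sum_congr rfl e2, Finset.sum_add_distrib, ← Finset.mul_sum]
    have e3 : Ioc (0 ^ 2) (L ^ 2) = Icc 1 (L ^ 2) := by
      ext n; rw [Finset.mem_Ioc, Finset.mem_Icc]; omega
    have h6 : ∑ n ∈ Icc 1 (L ^ 2), ((n : ℝ))⁻¹ ≤ 1 + Real.log ((L : ℝ) ^ 2) := by
      have := harmonic_le_one_add_log (L ^ 2)
      rw [harmonic_eq_sum_Icc] at this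
      push_cast at this
      exact this
    have h7 : Real.log ((L : ℝ) ^ 2) ≤ 2 * ((L : ℝ) ^ (ε / 2) / (ε / 2)) := by
      rw [Real.log_pow]
      have := Real.log_le_rpow_div hL0.le (half_pos hε)
      push_cast
      (clear * - this; linarith)
    have h8 : (1 : ℝ) ≤ (L : ℝ) ^ (ε / 2) := Real.one_le_rpow hL1 (by positivity)
    rw [e3, Finset.sum_const, Nat.card_Icc, nsmul_eq_mul, mul_one]
    have h9 : ((L ^ 2 + 1 - 1 : ℕ) : ℝ) = (L : ℝ) ^ 2 := by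
      rw [Nat.add_sub_cancel]; push_cast; rfl
    rw [h9]
    have h10 : (1 : ℝ) + Real.log ((L : ℝ) ^ 2) ≤ (1 + 2 / (ε / 2)) * (L : ℝ) ^ (ε / 2) := by
      have : 2 * ((L : ℝ) ^ (ε / 2) / (ε / 2)) = 2 / (ε / 2) * (L : ℝ) ^ (ε / 2) := by ring
      (clear * - h7 h8 this; nlinarith)
    have h11 : (1 : ℝ) ≤ (1 + 2 / (ε / 2)) * (L : ℝ) ^ (ε / 2) := by
      have : 0 ≤ Real.log ((L : ℝ) ^ 2) := Real.log_nonneg (one_le_pow₀ hL1)
      (clear * - h10 this; linarith)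
    have h12 : 0 ≤ (L : ℝ) ^ 2 := by positivity
    (clear * - h6 h10 hT h11 h12; nlinarith [mul_le_mul_of_nonneg_left (h6.trans h10) (by linarith : (0 : ℝ) ≤ T),
      mul_le_mul_of_nonneg_right h11 h12])
  have h13 : (L : ℝ) ^ (ε / 2) * (L : ℝ) ^ (ε / 2) ≤ (T * L) ^ ε := by
    rw [← Real.rpow_add hL0, add_halves]
    exact Real.rpow_le_rpow hL0.le (by (clear * - hT; nlinarith)) hε.le
  have h14 : 0 ≤ T + (L : ℝ) ^ 2 := by positivity
  calc C * (L : ℝ) ^ (ε / 2) * ∑ n ∈ Ioc (0 ^ 2) (L ^ 2), (T + (n : ℝ)) * ((n : ℝ) ^ (-(1 / 2) : ℝ)) ^ 2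
      ≤ C * (L : ℝ) ^ (ε / 2) * ((1 + 2 / (ε / 2)) * (L : ℝ) ^ (ε / 2) * (T + (L : ℝ) ^ 2)) :=
        mul_le_mul_of_nonneg_left h5 (by positivity)
    _ = C * (1 + 2 / (ε / 2)) * ((L : ℝ) ^ (ε / 2) * (L : ℝ) ^ (ε / 2)) * (T + (L : ℝ) ^ 2) := by ring
    _ ≤ C * (1 + 2 / (ε / 2)) * (T * L) ^ ε * (T + (L : ℝ) ^ 2) := by
        refine mul_le_mul_of_nonneg_right ?_ h14
        exact mul_le_mul_of_nonneg_left h13 (by positivity)

theorem tele_step {x y : ℝ} (hx : 0 < x) (hy : 0 < y) (h : y ^ 2 = x ^ 2 + 1) :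
    1 / (y ^ 2 * y) ≤ 2 * (1 / x - 1 / y) := by
  have hxy : x ≤ y := by nlinarith
  have h1 : 2 * (1 / x - 1 / y) = 2 / (x * y * (x + y)) := by
    have : (y - x) * (x + y) = 1 := by (clear * - h; nlinarith)
    have h2 : x + y ≠ 0 := by positivity
    field_simp
    linear_combination this
  rw [h1, div_le_div_iff₀ (by positivity) (by positivity)]
  (clear * - hx hy hxy; nlinarith [mul_pos hx hy, mul_nonneg (mul_pos hx hy).le (sub_nonneg.2 hxy), mul_nonneg hy.le (sub_nonneg.2 hxy),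
    mul_nonneg (mul_pos hy hy).le (sub_nonneg.2 hxy)])

theorem rpow_three_half {n : ℕ} (hn : 0 < n) :
    (n : ℝ) ^ (-(3 / 2) : ℝ) = 1 / (Real.sqrt n ^ 2 * Real.sqrt n) := by
  have hn0 : (0 : ℝ) < n := by exact_mod_cast hn
  rw [Real.rpow_neg hn0.le, one_div]
  congr 1
  rw [show (3 / 2 : ℝ) = 1 + 1 / 2 by norm_num, Real.rpow_add hn0, Real.rpow_one, Real.sq_sqrt hn0.le,
    Real.sqrt_eq_rpow]

theorem tele {a b : ℕ} (ha : 1 ≤ a) (hab : a ≤ b) :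
    ∑ n ∈ Ioc a b, (n : ℝ) ^ (-(3 / 2) : ℝ) ≤ 2 * (1 / Real.sqrt a - 1 / Real.sqrt b) := by
  induction b, hab using Nat.le_induction with
  | base => simp
  | succ b hb ih =>
    rw [Finset.sum_Ioc_succ_top hb, rpow_three_half (Nat.succ_pos b)]
    have hb0 : (0 : ℝ) < b := by exact_mod_cast (by omega : 0 < b)
    have h1 := tele_step (Real.sqrt_pos.2 hb0) (Real.sqrt_pos.2 (by (clear * -; positivity) : (0 : ℝ) < ((b + 1 : ℕ) : ℝ)))
      (by rw [Real.sq_sqrt (by positivity), Real.sq_sqrt hb0.le]; push_cast; ring)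
    (clear * - ih h1; linarith)

theorem mv4b : FMmv2 → FMmv4b := by
  intro h2 ε hε
  obtain ⟨C, hC, h⟩ := gen h2 (5 / 4) hε
  refine ⟨C * 2, by positivity, ?_⟩
  intro M L a T hT hM hML ha
  have hL : 1 ≤ L := hM.trans hML
  have hL0 : (0 : ℝ) < L := by exact_mod_cast hL
  have hM0 : (0 : ℝ) < M := by exact_mod_cast hM
  refine (h M L a T hT hL ha).trans ?_
  have hT0 : 0 ≤ T := by (clear * - hT; linarith)
  have h5 : ∑ n ∈ Ioc (M ^ 2) (L ^ 2), (T + (n : ℝ)) * ((n : ℝ) ^ (-(5 / 4) : ℝ)) ^ 2 ≤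
      2 * (T / (M : ℝ) ^ 3 + 1 / (M : ℝ)) := by
    have e2 : ∀ n ∈ Ioc (M ^ 2) (L ^ 2), (T + (n : ℝ)) * ((n : ℝ) ^ (-(5 / 4) : ℝ)) ^ 2 ≤
        (T / (M : ℝ) ^ 2 + 1) * (n : ℝ) ^ (-(3 / 2) : ℝ) := by
      intro n hn
      rw [Finset.mem_Ioc] at hn
      have hn0 : (0 : ℝ) < n := by exact_mod_cast (by omega : 0 < n)
      have hMn : (M : ℝ) ^ 2 ≤ n := by exact_mod_cast hn.1.le
      rw [← Real.rpow_natCast, ← Real.rpow_mul hn0.le]
      rw [show (-(5 / 4) : ℝ) * ((2 : ℕ) : ℝ) = -(3 / 2) + -1 by norm_num, Real.rpow_add hn0, Real.rpow_neg_one]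
      rw [show (T + (n : ℝ)) * ((n : ℝ) ^ (-(3 / 2) : ℝ) * (n : ℝ)⁻¹) =
        (T / n + 1) * (n : ℝ) ^ (-(3 / 2) : ℝ) by (clear * - hn0 hT; field_simp)]
      refine mul_le_mul_of_nonneg_right ?_ (by positivity)
      have := div_le_div_of_nonneg_left hT0 (by positivity : (0 : ℝ) < (M : ℝ) ^ 2) hMn
      (clear * - this; linarith)
    refine (Finset.sum_le_sum e2).trans ?_
    rw [← Finset.mul_sum]
    have h6 := tele (Nat.one_le_pow 2 M hM) (Nat.pow_le_pow_left hML 2)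
    have h7 : Real.sqrt ((M ^ 2 : ℕ) : ℝ) = M := by
      push_cast
      exact Real.sqrt_sq hM0.le
    rw [h7] at h6
    have h8 : 0 ≤ 1 / Real.sqrt ((L ^ 2 : ℕ) : ℝ) := by positivity
    have h9 : ∑ n ∈ Ioc (M ^ 2) (L ^ 2), (n : ℝ) ^ (-(3 / 2) : ℝ) ≤ 2 * (1 / M) := by linarith
    refine (mul_le_mul_of_nonneg_left h9 (by positivity)).trans (le_of_eq ?_)
    field_simp
  have h13 : (L : ℝ) ^ ε ≤ (T * L) ^ ε := Real.rpow_le_rpow hL0.le (by (clear * - hT; nlinarith)) hε.le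
  have h14 : 0 ≤ T / (M : ℝ) ^ 3 + 1 / (M : ℝ) := by positivity
  calc C * (L : ℝ) ^ ε * ∑ n ∈ Ioc (M ^ 2) (L ^ 2), (T + (n : ℝ)) * ((n : ℝ) ^ (-(5 / 4) : ℝ)) ^ 2
      ≤ C * (L : ℝ) ^ ε * (2 * (T / (M : ℝ) ^ 3 + 1 / (M : ℝ))) :=
        mul_le_mul_of_nonneg_left h5 (by positivity)
    _ = C * 2 * (L : ℝ) ^ ε * (T / (M : ℝ) ^ 3 + 1 / (M : ℝ)) := by ring
    _ ≤ C * 2 * (T * L) ^ ε * (T / (M : ℝ) ^ 3 + 1 / (M : ℝ)) := by
        refine mul_le_mul_of_nonneg_right ?_ h14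
        exact mul_le_mul_of_nonneg_left h13 (by positivity)

end Pool.Agent.M20.Helper5.KC
end

/- Helper53.KN.Helper52.KC.FMavg -/
section
/-!
# Project KS, module FM-5, part 1: averaging with a Gaussian
-/

set_option autoImplicit false
open MeasureTheory Filter Topology Finset

namespace Pool.Agent.M20.Helper52.KC

/-- polynomial growth against a Gaussian -/
theorem pow_le_gauss (n : ℕ) {b : ℝ} (hb : 0 < b) {x : ℝ} (hx : 0 ≤ x) :
    (1 + x) ^ n ≤ Real.exp ((n : ℝ) ^ 2 / (4 * b)) * Real.exp (b * x ^ 2) := by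
  have h1 : (1 + x) ^ n ≤ Real.exp (n * x) := by
    rw [mul_comm, Real.exp_mul, Real.rpow_natCast]
    exact pow_le_pow_left₀ (by (clear * - hx; linarith)) (by (clear * -; linarith [Real.add_one_le_exp x])) n
  refine h1.trans ?_
  rw [← Real.exp_add]
  apply Real.exp_le_exp.mpr
  have : 0 ≤ (2 * b * x - n) ^ 2 / (4 * b) := by (clear * - hb; positivity)
  have h2 : (2 * b * x - n) ^ 2 / (4 * b) = b * x ^ 2 - n * x + (n : ℝ) ^ 2 / (4 * b) := by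
    field_simp
    ring
  (clear * - this h2; linarith)

theorem gint {b : ℝ} (hb : 0 < b) : Integrable (fun t : ℝ => Real.exp (-(b * t ^ 2))) := by
  have := integrable_exp_neg_mul_sq hb
  refine this.congr (Eventually.of_forall fun t => ?_)
  simp only [neg_mul]

/-- integrability of a function of polynomial growth against a Gaussian -/
theorem poly_gauss_integrable {h : ℝ → ℝ} (hc : Continuous h) {K : ℝ} {n : ℕ} (hK : 0 ≤ K)
    (hb : ∀ v, |h v| ≤ K * (1 + |v|) ^ n) {b : ℝ} (hb0 : 0 < b) :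
    Integrable (fun v => h v * Real.exp (-(b * v ^ 2))) := by
  have hg : Integrable (fun v : ℝ => (K * Real.exp ((n : ℝ) ^ 2 / (4 * (b / 2)))) *
      Real.exp (-((b / 2) * v ^ 2))) := (gint (by positivity)).const_mul _
  refine hg.mono' (by fun_prop) (Eventually.of_forall fun v => ?_)
  rw [Real.norm_eq_abs, abs_mul, abs_of_pos (Real.exp_pos _)]
  have h1 := pow_le_gauss n (b := b / 2) (by positivity) (abs_nonneg v)
  rw [sq_abs] at h1
  calc |h v| * Real.exp (-(b * v ^ 2))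
      ≤ (K * (1 + |v|) ^ n) * Real.exp (-(b * v ^ 2)) :=
        mul_le_mul_of_nonneg_right (hb v) (Real.exp_pos _).le
    _ ≤ (K * (Real.exp ((n : ℝ) ^ 2 / (4 * (b / 2))) * Real.exp (b / 2 * v ^ 2))) *
          Real.exp (-(b * v ^ 2)) := by (clear * - h1 hK; gcongr)
    _ = (K * Real.exp ((n : ℝ) ^ 2 / (4 * (b / 2)))) * Real.exp (-((b / 2) * v ^ 2)) := by
        rw [show -(b / 2 * v ^ 2) = b / 2 * v ^ 2 + -(b * v ^ 2) by ring, Real.exp_add]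
        ring

theorem shift_bound {F : ℝ → ℝ} {K : ℝ} (hK : 0 ≤ K) (h0 : ∀ u, 0 ≤ F u)
    (hF : ∀ u, F u ≤ K * (1 + |u|)) (t : ℝ) (n : ℕ) (v : ℝ) :
    |F (t + v) ^ n| ≤ (K * (1 + |t|)) ^ n * (1 + |v|) ^ n := by
  rw [abs_of_nonneg (pow_nonneg (h0 _) _), ← mul_pow]
  apply pow_le_pow_left₀ (h0 _)
  refine (hF _).trans ?_
  rw [mul_assoc]
  apply mul_le_mul_of_nonneg_left _ hK
  have := abs_add_le t v
  (clear * - this; nlinarith [abs_nonneg t, abs_nonneg v])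

theorem shift_integrable {F : ℝ → ℝ} (hc : Continuous F) {K : ℝ} (hK : 0 ≤ K) (h0 : ∀ u, 0 ≤ F u)
    (hF : ∀ u, F u ≤ K * (1 + |u|)) (t : ℝ) (n : ℕ) {b : ℝ} (hb : 0 < b) :
    Integrable (fun v => F (t + v) ^ n * Real.exp (-(b * v ^ 2))) := by
  refine poly_gauss_integrable (h := fun v => F (t + v) ^ n) (K := (K * (1 + |t|)) ^ n) (n := n)
    (by fun_prop) (by (clear * - hK; positivity)) (fun v => shift_bound hK h0 hF t n v) hb

/-- Cauchy–Schwarz for the Gaussian measure -/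
theorem cs_gauss {f : ℝ → ℝ} (h1 : Integrable (fun v => f v * Real.exp (-(1 / 2 * v ^ 2))))
    (h2 : Integrable (fun v => f v ^ 2 * Real.exp (-(1 / 2 * v ^ 2)))) :
    (∫ v, f v * Real.exp (-(1 / 2 * v ^ 2))) ^ 2 ≤
      (∫ v : ℝ, Real.exp (-(1 / 2 * v ^ 2))) * ∫ v, f v ^ 2 * Real.exp (-(1 / 2 * v ^ 2)) := by
  set W := ∫ v : ℝ, Real.exp (-(1 / 2 * v ^ 2)) with hW
  set A := ∫ v, f v * Real.exp (-(1 / 2 * v ^ 2)) with hA
  set B := ∫ v, f v ^ 2 * Real.exp (-(1 / 2 * v ^ 2)) with hB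
  have hi : Integrable (fun v : ℝ => Real.exp (-(1 / 2 * v ^ 2))) := gint (by norm_num)
  have hWpos : 0 < W := by
    rw [hW]
    have : (∫ v : ℝ, Real.exp (-(1 / 2 * v ^ 2))) = Real.sqrt (Real.pi / (1 / 2)) := by
      rw [← integral_gaussian (1 / 2)]
      simp only [neg_mul]
    rw [this]
    positivity
  have hpos : 0 ≤ ∫ v, (W * f v - A) ^ 2 * Real.exp (-(1 / 2 * v ^ 2)) :=
    integral_nonneg fun v => by (clear * -; positivity)
  have hexp : ∫ v, (W * f v - A) ^ 2 * Real.exp (-(1 / 2 * v ^ 2)) =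
      W ^ 2 * B - 2 * W * A * A + A ^ 2 * W := by
    have he : (fun v => (W * f v - A) ^ 2 * Real.exp (-(1 / 2 * v ^ 2))) = fun v =>
        (W ^ 2 * (f v ^ 2 * Real.exp (-(1 / 2 * v ^ 2))) -
          2 * W * A * (f v * Real.exp (-(1 / 2 * v ^ 2)))) +
          A ^ 2 * Real.exp (-(1 / 2 * v ^ 2)) := by
      funext v; ring
    have i12 : Integrable (fun v => W ^ 2 * (f v ^ 2 * Real.exp (-(1 / 2 * v ^ 2))) -
        2 * W * A * (f v * Real.exp (-(1 / 2 * v ^ 2)))) :=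
      (h2.const_mul (W ^ 2)).sub (h1.const_mul (2 * W * A))
    rw [he, integral_add i12 (hi.const_mul _),
      integral_sub (h2.const_mul _) (h1.const_mul _), integral_const_mul, integral_const_mul,
      integral_const_mul]
  rw [hexp] at hpos
  have : 0 ≤ W * (W * B - A ^ 2) := by (clear * - hpos; nlinarith)
  have := nonneg_of_mul_nonneg_right this hWpos
  (clear * - this; linarith)

theorem jensen4 {F : ℝ → ℝ} (hc : Continuous F) {K : ℝ} (hK : 0 ≤ K) (h0 : ∀ u, 0 ≤ F u)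
    (hF : ∀ u, F u ≤ K * (1 + |u|)) (t : ℝ) :
    (∫ v, F (t + v) * Real.exp (-(1 / 2 * v ^ 2))) ^ 4 ≤
      (∫ v : ℝ, Real.exp (-(1 / 2 * v ^ 2))) ^ 3 *
        ∫ v, F (t + v) ^ 4 * Real.exp (-(1 / 2 * v ^ 2)) := by
  have i1 : Integrable (fun v => F (t + v) * Real.exp (-(1 / 2 * v ^ 2))) := by
    simpa using shift_integrable hc hK h0 hF t 1 (b := 1 / 2) (by norm_num)
  have i2 := shift_integrable hc hK h0 hF t 2 (b := 1 / 2) (by norm_num)
  have i4 : Integrable (fun v => (F (t + v) ^ 2) ^ 2 * Real.exp (-(1 / 2 * v ^ 2))) := by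
    have := shift_integrable hc hK h0 hF t 4 (b := 1 / 2) (by norm_num)
    refine this.congr (Eventually.of_forall fun v => ?_)
    simp only; ring
  have c1 := cs_gauss (f := fun v => F (t + v)) i1 i2
  have c2 := cs_gauss (f := fun v => F (t + v) ^ 2) i2 i4
  have e4 : ∫ v, (F (t + v) ^ 2) ^ 2 * Real.exp (-(1 / 2 * v ^ 2)) =
      ∫ v, F (t + v) ^ 4 * Real.exp (-(1 / 2 * v ^ 2)) := by
    congr 1; funext v; ring
  rw [e4] at c2
  set W := ∫ v : ℝ, Real.exp (-(1 / 2 * v ^ 2)) with hW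
  have hW0 : 0 ≤ W := integral_nonneg fun v => (Real.exp_pos _).le
  set A := ∫ v, F (t + v) * Real.exp (-(1 / 2 * v ^ 2))
  set B := ∫ v, F (t + v) ^ 2 * Real.exp (-(1 / 2 * v ^ 2))
  set D := ∫ v, F (t + v) ^ 4 * Real.exp (-(1 / 2 * v ^ 2))
  have hB0 : 0 ≤ B := integral_nonneg fun v => by (clear * -; positivity)
  calc A ^ 4 = (A ^ 2) ^ 2 := by ring
    _ ≤ (W * B) ^ 2 := pow_le_pow_left₀ (by (clear * -; positivity)) c1 2
    _ = W ^ 2 * B ^ 2 := by ring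
    _ ≤ W ^ 2 * (W * D) := by (clear * - c2; gcongr)
    _ = W ^ 3 * D := by ring

/-- the averaging lemma -/
theorem avg4 : ∃ C : ℝ, 0 < C ∧ ∀ (F : ℝ → ℝ) (K T : ℝ), Continuous F → 0 ≤ K → (∀ u, 0 ≤ F u) →
    (∀ u, F u ≤ K * (1 + |u|)) → 2 ≤ T →
    ∫⁻ t, ENNReal.ofReal (Real.exp (-(t / T) ^ 2) *
        (∫ v, F (t + v) * Real.exp (-(1 / 2 * v ^ 2))) ^ 4) ≤
      ENNReal.ofReal C * ∫⁻ u, ENNReal.ofReal (Real.exp (-(u ^ 2 / (2 * T ^ 2))) * F u ^ 4) := by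
  set W := ∫ v : ℝ, Real.exp (-(1 / 2 * v ^ 2)) with hW
  have hW0 : 0 ≤ W := integral_nonneg fun v => (Real.exp_pos _).le
  set V := ∫ v : ℝ, Real.exp (-(1 / 4 * v ^ 2)) with hV
  have hV0 : 0 ≤ V := integral_nonneg fun v => (Real.exp_pos _).le
  refine ⟨W ^ 3 * V + 1, by (clear * -; positivity), ?_⟩
  intro F K T hc hK h0 hF hT
  have hT0 : 0 < T := by (clear * - hT; linarith)
  set J := ∫⁻ u, ENNReal.ofReal (Real.exp (-(u ^ 2 / (2 * T ^ 2))) * F u ^ 4) with hJ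
  have step1 : ∀ t, ENNReal.ofReal (Real.exp (-(t / T) ^ 2) *
        (∫ v, F (t + v) * Real.exp (-(1 / 2 * v ^ 2))) ^ 4) ≤
      ENNReal.ofReal (W ^ 3) * ∫⁻ v, ENNReal.ofReal (Real.exp (-(t / T) ^ 2) *
        (F (t + v) ^ 4 * Real.exp (-(1 / 2 * v ^ 2)))) := by
    intro t
    have i4 := (shift_integrable hc hK h0 hF t 4 (b := 1 / 2) (by norm_num)).const_mul
      (Real.exp (-(t / T) ^ 2))
    rw [← ofReal_integral_eq_lintegral_ofReal i4 (Eventually.of_forall fun v => by (clear * -; positivity)),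
      ← ENNReal.ofReal_mul (by (clear * -; positivity))]
    apply ENNReal.ofReal_le_ofReal
    rw [integral_const_mul]
    calc _ ≤ Real.exp (-(t / T) ^ 2) * (W ^ 3 *
          ∫ v, F (t + v) ^ 4 * Real.exp (-(1 / 2 * v ^ 2))) := by
          gcongr
          exact jensen4 hc hK h0 hF t
      _ = _ := by ring
  have step2 : ∀ v, ∫⁻ t, ENNReal.ofReal (Real.exp (-(t / T) ^ 2) *
        (F (t + v) ^ 4 * Real.exp (-(1 / 2 * v ^ 2)))) ≤
      ENNReal.ofReal (Real.exp (-(1 / 4 * v ^ 2))) * J := by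
    intro v
    have e1 : ∫⁻ t, ENNReal.ofReal (Real.exp (-(t / T) ^ 2) *
        (F (t + v) ^ 4 * Real.exp (-(1 / 2 * v ^ 2)))) =
        ∫⁻ u, ENNReal.ofReal (Real.exp (-((u - v) / T) ^ 2) *
        (F u ^ 4 * Real.exp (-(1 / 2 * v ^ 2)))) := by
      rw [← lintegral_add_right_eq_self (fun u => ENNReal.ofReal (Real.exp (-((u - v) / T) ^ 2) *
        (F u ^ 4 * Real.exp (-(1 / 2 * v ^ 2))))) v]
      simp only [add_sub_cancel_right]
    rw [e1, hJ, ← lintegral_const_mul' _ _ ENNReal.ofReal_ne_top]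
    apply lintegral_mono
    intro u
    simp only
    rw [← ENNReal.ofReal_mul (Real.exp_pos _).le]
    apply ENNReal.ofReal_le_ofReal
    have hexp : Real.exp (-((u - v) / T) ^ 2) * Real.exp (-(1 / 2 * v ^ 2)) ≤
        Real.exp (-(1 / 4 * v ^ 2)) * Real.exp (-(u ^ 2 / (2 * T ^ 2))) := by
      rw [← Real.exp_add, ← Real.exp_add]
      apply Real.exp_le_exp.mpr
      have h3 : (v / T) ^ 2 ≤ v ^ 2 / 4 := by
        rw [div_pow]
        apply div_le_div_of_nonneg_left (by positivity) (by norm_num)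
        (clear * - hT; nlinarith)
      have h4 : u ^ 2 / (2 * T ^ 2) ≤ ((u - v) / T) ^ 2 + (v / T) ^ 2 := by
        rw [div_pow, div_pow, ← add_div, div_le_div_iff₀ (by positivity) (by positivity)]
        have : u ^ 2 ≤ 2 * ((u - v) ^ 2 + v ^ 2) := by (clear * -; nlinarith [sq_nonneg (u - 2 * v)])
        (clear * - this; nlinarith [sq_nonneg T])
      (clear * - h3 h4; linarith)
    calc Real.exp (-((u - v) / T) ^ 2) * (F u ^ 4 * Real.exp (-(1 / 2 * v ^ 2)))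
        = (Real.exp (-((u - v) / T) ^ 2) * Real.exp (-(1 / 2 * v ^ 2))) * F u ^ 4 := by ring
      _ ≤ (Real.exp (-(1 / 4 * v ^ 2)) * Real.exp (-(u ^ 2 / (2 * T ^ 2)))) * F u ^ 4 := by
          apply mul_le_mul_of_nonneg_right hexp (pow_nonneg (h0 u) 4)
      _ = _ := by ring
  calc ∫⁻ t, ENNReal.ofReal (Real.exp (-(t / T) ^ 2) *
        (∫ v, F (t + v) * Real.exp (-(1 / 2 * v ^ 2))) ^ 4)
      ≤ ∫⁻ t, ENNReal.ofReal (W ^ 3) * ∫⁻ v, ENNReal.ofReal (Real.exp (-(t / T) ^ 2) *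
        (F (t + v) ^ 4 * Real.exp (-(1 / 2 * v ^ 2)))) := lintegral_mono step1
    _ = ENNReal.ofReal (W ^ 3) * ∫⁻ t, ∫⁻ v, ENNReal.ofReal (Real.exp (-(t / T) ^ 2) *
        (F (t + v) ^ 4 * Real.exp (-(1 / 2 * v ^ 2)))) :=
        lintegral_const_mul' _ _ ENNReal.ofReal_ne_top
    _ = ENNReal.ofReal (W ^ 3) * ∫⁻ v, ∫⁻ t, ENNReal.ofReal (Real.exp (-(t / T) ^ 2) *
        (F (t + v) ^ 4 * Real.exp (-(1 / 2 * v ^ 2)))) := by
        congr 1
        apply lintegral_lintegral_swap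
        apply Measurable.aemeasurable
        apply ENNReal.measurable_ofReal.comp
        apply Continuous.measurable
        fun_prop
    _ ≤ ENNReal.ofReal (W ^ 3) * ∫⁻ v, ENNReal.ofReal (Real.exp (-(1 / 4 * v ^ 2))) * J := by
        gcongr with v
        exact step2 v
    _ = ENNReal.ofReal (W ^ 3) * (ENNReal.ofReal V * J) := by
        congr 1
        rw [lintegral_mul_const _ (by fun_prop), hV,
          ofReal_integral_eq_lintegral_ofReal (gint (by norm_num))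
            (Eventually.of_forall fun v => (Real.exp_pos _).le)]
    _ = ENNReal.ofReal (W ^ 3 * V) * J := by
        rw [ENNReal.ofReal_mul (by positivity), mul_assoc]
    _ ≤ ENNReal.ofReal (W ^ 3 * V + 1) * J := by
        gcongr
        (clear * -; linarith)

end Pool.Agent.M20.Helper52.KC
end

/- Helper53.KN.Helper52.KC.FM5 -/
section
/-!
# Project KS, module FM-5: the fourth moment of zeta from the smoothed functional equation
-/

set_option autoImplicit false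
open MeasureTheory Filter Topology Finset
open Pool.Agent.M20.Helper26.KC

namespace Pool.Agent.M20.Helper52.KC

theorem gaussT {T : ℝ} (t : ℝ) :
    Real.exp (-(t / T) ^ 2) = Real.exp (-(1 / T ^ 2 * t ^ 2)) := by
  congr 1
  rw [div_pow]
  ring

theorem bdd_integrable {g : ℝ → ℝ} (hc : Continuous g) (h0 : ∀ t, 0 ≤ g t) {B : ℝ}
    (hB : ∀ t, g t ≤ B) {T : ℝ} (hT : 0 < T) :
    Integrable (fun t => Real.exp (-(t / T) ^ 2) * g t) := by
  have hB0 : 0 ≤ B := (h0 0).trans (hB 0)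
  have := poly_gauss_integrable (h := g) hc (K := B) (n := 0) hB0
    (fun v => by rw [abs_of_nonneg (h0 v), pow_zero, mul_one]; exact hB v) (b := 1 / T ^ 2)
    (by positivity)
  refine this.congr (Eventually.of_forall fun t => ?_)
  simp only
  rw [gaussT, mul_comm]

theorem int_wT {T : ℝ} (hT : 0 < T) : ∫ t : ℝ, Real.exp (-(t / T) ^ 2) = Real.sqrt Real.pi * T := by
  have h : (fun t : ℝ => Real.exp (-(t / T) ^ 2)) = fun t => Real.exp (-(1 / T ^ 2) * t ^ 2) := by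
    funext t; rw [gaussT]; congr 1; ring
  rw [h, integral_gaussian, show Real.pi / (1 / T ^ 2) = Real.pi * T ^ 2 by (clear * - hT; field_simp),
    Real.sqrt_mul Real.pi_pos.le, Real.sqrt_sq hT.le]

/-- polynomial growth against the Gaussian of width `T` -/
theorem growth {s T : ℝ} (hs0 : 0 ≤ s) (hs3 : s ≤ 3) (hT : 1 ≤ T) (u : ℝ) :
    Real.exp (-(u ^ 2 / (2 * T ^ 2))) * (1 + |u|) ^ s ≤
      Real.exp 9 * T ^ s * Real.exp (-(u / (2 * T)) ^ 2) := by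
  have hT0 : 0 < T := by (clear * - hT; linarith)
  set x : ℝ := |u| / T with hx
  have hx0 : 0 ≤ x := by positivity
  have h1 : (1 + |u|) ≤ T * (1 + x) := by
    rw [hx, mul_add, mul_div_cancel₀ _ hT0.ne']
    linarith
  have h2 : (1 + |u|) ^ s ≤ T ^ s * (Real.exp 9 * Real.exp (1 / 4 * x ^ 2)) := by
    calc (1 + |u|) ^ s ≤ (T * (1 + x)) ^ s := Real.rpow_le_rpow (by (clear * -; positivity)) h1 hs0
      _ = T ^ s * (1 + x) ^ s := Real.mul_rpow hT0.le (by positivity)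
      _ ≤ T ^ s * (1 + x) ^ (3 : ℝ) := by
          gcongr
          linarith
      _ ≤ T ^ s * (Real.exp 9 * Real.exp (1 / 4 * x ^ 2)) := by
          gcongr
          have h3 := pow_le_gauss 3 (b := 1 / 4) (by norm_num) hx0
          have h4 : (1 + x) ^ (3 : ℝ) = (1 + x) ^ 3 := by
            rw [← Real.rpow_natCast]; norm_num
          rw [h4]
          refine h3.trans (le_of_eq ?_)
          norm_num
  have h5 : Real.exp (-(u ^ 2 / (2 * T ^ 2))) * Real.exp (1 / 4 * x ^ 2) =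
      Real.exp (-(u / (2 * T)) ^ 2) := by
    rw [← Real.exp_add]
    congr 1
    rw [hx, div_pow, sq_abs, div_pow]
    field_simp
    ring
  calc Real.exp (-(u ^ 2 / (2 * T ^ 2))) * (1 + |u|) ^ s
      ≤ Real.exp (-(u ^ 2 / (2 * T ^ 2))) * (T ^ s * (Real.exp 9 * Real.exp (1 / 4 * x ^ 2))) := by
        gcongr
    _ = Real.exp 9 * T ^ s * (Real.exp (-(u ^ 2 / (2 * T ^ 2))) * Real.exp (1 / 4 * x ^ 2)) := by
        ring
    _ = _ := by rw [h5]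

theorem cont_poly (S : Finset ℕ) (a : ℕ → ℂ) (hS : ∀ n ∈ S, 1 ≤ n) :
    Continuous (fun u : ℝ => ∑ n ∈ S, a n * (n : ℂ) ^ ((u : ℂ) * Complex.I)) := by
  apply continuous_finsetSum
  intro n hn
  apply continuous_const.mul
  apply Continuous.const_cpow (by fun_prop)
  left
  have := hS n hn
  have : n ≠ 0 := by omega
  exact_mod_cast this

theorem bdd_poly (S : Finset ℕ) (a : ℕ → ℂ) (hS : ∀ n ∈ S, 1 ≤ n) (u : ℝ) :
    ‖∑ n ∈ S, a n * (n : ℂ) ^ ((u : ℂ) * Complex.I)‖ ≤ ∑ n ∈ S, ‖a n‖ := by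
  refine (norm_sum_le _ _).trans (Finset.sum_le_sum fun n hn => ?_)
  rw [norm_mul, Complex.norm_natCast_cpow_of_pos (by have := hS n hn; omega)]
  have : (((u : ℂ) * Complex.I)).re = 0 := by simp
  rw [this, Real.rpow_zero, mul_one]

theorem pow4_add2 (x y : ℝ) : (x + y) ^ 4 ≤ 8 * (x ^ 4 + y ^ 4) := by
  have h1 : (x + y) ^ 2 ≤ 2 * (x ^ 2 + y ^ 2) := by nlinarith [sq_nonneg (x - y)]
  have h2 : (x ^ 2 + y ^ 2) ^ 2 ≤ 2 * (x ^ 4 + y ^ 4) := by (clear * -; nlinarith [sq_nonneg (x ^ 2 - y ^ 2)])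
  calc (x + y) ^ 4 = ((x + y) ^ 2) ^ 2 := by ring
    _ ≤ (2 * (x ^ 2 + y ^ 2)) ^ 2 := pow_le_pow_left₀ (by positivity) h1 2
    _ = 4 * (x ^ 2 + y ^ 2) ^ 2 := by ring
    _ ≤ _ := by linarith

theorem pow4_add3 (x y z : ℝ) :
    (x + y + z) ^ 4 ≤ 64 * (x ^ 4 + y ^ 4 + z ^ 4) := by
  have h1 := pow4_add2 (x + y) z
  have h2 := pow4_add2 x y
  have h3 : 0 ≤ z ^ 4 := by positivity
  linarith

theorem ceil_le_two {x : ℝ} (hx : 1 ≤ x) : (⌈x⌉₊ : ℝ) ≤ 2 * x := by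
  have := Nat.ceil_lt_add_one (show 0 ≤ x by linarith)
  linarith

/-- numerical bound 1 -/
theorem num1 {e T : ℝ} (he : 0 < e) (he1 : e ≤ 1 / 16) (hT : 1 ≤ T) :
    (T * (⌈Real.sqrt T * T ^ e⌉₊ : ℝ)) ^ e * (T + (⌈Real.sqrt T * T ^ e⌉₊ : ℝ) ^ 2) ≤
      10 * T ^ (1 + 4 * e) := by
  have hT0 : 0 < T := by linarith
  have hs1 : 1 ≤ Real.sqrt T := Real.one_le_sqrt.mpr hT
  have hTe : 1 ≤ T ^ e := Real.one_le_rpow hT he.le
  have hx1 : 1 ≤ Real.sqrt T * T ^ e := by (clear * - hs1 hTe he he1; nlinarith)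
  have hL := ceil_le_two hx1
  set L : ℝ := (⌈Real.sqrt T * T ^ e⌉₊ : ℝ) with hLdef
  have hL0 : 0 ≤ L := Nat.cast_nonneg _
  have e1 : Real.sqrt T * T ^ e = T ^ (1 / 2 + e) := by
    rw [Real.sqrt_eq_rpow, ← Real.rpow_add hT0]
  rw [e1] at hL
  have h1 : T * L ≤ 2 * T ^ (3 / 2 + e) := by
    calc T * L ≤ T * (2 * T ^ (1 / 2 + e)) := by gcongr
      _ = 2 * (T ^ (1 : ℝ) * T ^ (1 / 2 + e)) := by rw [Real.rpow_one]; ring
      _ = _ := by rw [← Real.rpow_add hT0]; ring_nf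
  exact by
    have h2 : (T * L) ^ e ≤ 2 * T ^ (2 * e) := by
      calc (T * L) ^ e ≤ (2 * T ^ (3 / 2 + e)) ^ e :=
            Real.rpow_le_rpow (by positivity) h1 he.le
        _ = 2 ^ e * T ^ ((3 / 2 + e) * e) := by
            rw [Real.mul_rpow (by norm_num) (by positivity), ← Real.rpow_mul hT0.le]
        _ ≤ 2 ^ (1 : ℝ) * T ^ (2 * e) := by
            gcongr
            · norm_num
            · (clear * - he he1; linarith)
            · (clear * - he he1; linarith)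
        _ = _ := by rw [Real.rpow_one]
    have h3 : T + L ^ 2 ≤ 5 * T ^ (1 + 2 * e) := by
      have h4 : L ^ 2 ≤ 4 * T ^ (1 + 2 * e) := by
        calc L ^ 2 ≤ (2 * T ^ (1 / 2 + e)) ^ 2 := pow_le_pow_left₀ hL0 hL 2
          _ = 4 * (T ^ (1 / 2 + e)) ^ (2 : ℝ) := by
              rw [mul_pow, ← Real.rpow_natCast (T ^ (1 / 2 + e)) 2]; norm_num
          _ = _ := by rw [← Real.rpow_mul hT0.le]; ring_nf
      have h5 : T ≤ T ^ (1 + 2 * e) := by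
        calc T = T ^ (1 : ℝ) := (Real.rpow_one T).symm
          _ ≤ _ := Real.rpow_le_rpow_of_exponent_le hT (by (clear * - he; linarith))
      (clear * - h4 h5; linarith)
    calc (T * L) ^ e * (T + L ^ 2) ≤ (2 * T ^ (2 * e)) * (5 * T ^ (1 + 2 * e)) := by (clear * - h2 h3 hT; gcongr)
      _ = 10 * (T ^ (2 * e) * T ^ (1 + 2 * e)) := by ring
      _ = _ := by rw [← Real.rpow_add hT0]; ring_nf

/-- numerical bound 2 -/
theorem num2 {e T : ℝ} (he : 0 < e) (he1 : e ≤ 1 / 16) (hT : 1 ≤ T) :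
    T ^ (4 * e) * ((2 * T * (⌈Real.sqrt T⌉₊ : ℝ)) ^ e * (2 * T + (⌈Real.sqrt T⌉₊ : ℝ) ^ 2)) ≤
      24 * T ^ (1 + 6 * e) := by
  have hT0 : 0 < T := by linarith
  have hs1 : 1 ≤ Real.sqrt T := Real.one_le_sqrt.mpr hT
  have hM := ceil_le_two hs1
  set M : ℝ := (⌈Real.sqrt T⌉₊ : ℝ) with hMdef
  have hM0 : 0 ≤ M := Nat.cast_nonneg _
  have hsT : Real.sqrt T ≤ T := by
    rw [Real.sqrt_le_left (by linarith)]; (clear * - hT; nlinarith)
  have h2 : (2 * T * M) ^ e ≤ 4 * T ^ (2 * e) := by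
    calc (2 * T * M) ^ e ≤ (4 * T ^ 2) ^ e := by
          apply Real.rpow_le_rpow (by (clear * - hT; positivity)) _ he.le
          (clear * - hM hsT he he1 hT; nlinarith)
      _ = 4 ^ e * T ^ (2 * e) := by
          rw [Real.mul_rpow (by norm_num) (by positivity), ← Real.rpow_natCast T 2,
            ← Real.rpow_mul hT0.le]
          norm_num
      _ ≤ 4 ^ (1 : ℝ) * T ^ (2 * e) := by
          gcongr
          · norm_num
          · (clear * - he he1; linarith)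
      _ = _ := by rw [Real.rpow_one]
  have h3 : 2 * T + M ^ 2 ≤ 6 * T := by
    have h4 : M ^ 2 ≤ 4 * T := by
      calc M ^ 2 ≤ (2 * Real.sqrt T) ^ 2 := pow_le_pow_left₀ hM0 hM 2
        _ = 4 * T := by rw [mul_pow, Real.sq_sqrt hT0.le]; norm_num
    (clear * - h4; linarith)
  calc T ^ (4 * e) * ((2 * T * M) ^ e * (2 * T + M ^ 2))
      ≤ T ^ (4 * e) * ((4 * T ^ (2 * e)) * (6 * T)) := by gcongr
    _ = 24 * (T ^ (4 * e) * T ^ (2 * e) * T ^ (1 : ℝ)) := by rw [Real.rpow_one]; ring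
    _ = _ := by rw [← Real.rpow_add hT0, ← Real.rpow_add hT0]; ring_nf

/-- numerical bound 3 -/
theorem num3 {e T : ℝ} (he : 0 < e) (he1 : e ≤ 1 / 16) (hT : 1 ≤ T) :
    T ^ (3 / 2 : ℝ) * ((2 * T * (⌈T ^ 8⌉₊ : ℝ)) ^ e *
      (2 * T / (⌈Real.sqrt T⌉₊ : ℝ) ^ 3 + 1 / (⌈Real.sqrt T⌉₊ : ℝ))) ≤
      12 * T ^ (1 + 9 * e) := by
  have hT0 : 0 < T := by (clear * - he he1 hT; linarith)
  have hs1 : 1 ≤ Real.sqrt T := Real.one_le_sqrt.mpr hT
  have hs0 : 0 < Real.sqrt T := by (clear * - he he1 hs1; linarith)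
  have hM : Real.sqrt T ≤ (⌈Real.sqrt T⌉₊ : ℝ) := Nat.le_ceil _
  set M : ℝ := (⌈Real.sqrt T⌉₊ : ℝ) with hMdef
  have hM0 : 0 < M := by linarith
  have hL := ceil_le_two (one_le_pow₀ hT (n := 8))
  set L : ℝ := (⌈T ^ 8⌉₊ : ℝ) with hLdef
  have hL0 : 0 ≤ L := Nat.cast_nonneg _
  have h2 : (2 * T * L) ^ e ≤ 4 * T ^ (9 * e) := by
    calc (2 * T * L) ^ e ≤ (4 * T ^ 9) ^ e := by
          apply Real.rpow_le_rpow (by positivity) _ he.le
          calc 2 * T * L ≤ 2 * T * (2 * T ^ 8) := by gcongr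
            _ = 4 * T ^ 9 := by ring
      _ = 4 ^ e * T ^ (9 * e) := by
          rw [Real.mul_rpow (by norm_num) (by positivity), ← Real.rpow_natCast T 9,
            ← Real.rpow_mul hT0.le]
          norm_num
      _ ≤ 4 ^ (1 : ℝ) * T ^ (9 * e) := by
          gcongr
          · norm_num
          · linarith
      _ = _ := by rw [Real.rpow_one]
  exact by
    have h3 : 2 * T / M ^ 3 + 1 / M ≤ 3 * T ^ (-(1 / 2) : ℝ) := by
      have a1 : T ^ (-(1 / 2) : ℝ) = 1 / Real.sqrt T := by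
        rw [Real.rpow_neg hT0.le, Real.sqrt_eq_rpow, one_div]
        norm_num
      have a2 : 1 / M ≤ 1 / Real.sqrt T := one_div_le_one_div_of_le hs0 hM
      have a3 : 2 * T / M ^ 3 ≤ 2 * (1 / Real.sqrt T) := by
        calc 2 * T / M ^ 3 ≤ 2 * T / (Real.sqrt T) ^ 3 := by gcongr
          _ = 2 * (1 / Real.sqrt T) := by
              have : (Real.sqrt T) ^ 3 = T * Real.sqrt T := by
                rw [show (3 : ℕ) = 2 + 1 from rfl, pow_succ, Real.sq_sqrt hT0.le]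
              rw [this]
              field_simp
      rw [a1]
      (clear * - a2 a3; linarith)
    calc T ^ (3 / 2 : ℝ) * ((2 * T * L) ^ e * (2 * T / M ^ 3 + 1 / M))
        ≤ T ^ (3 / 2 : ℝ) * ((4 * T ^ (9 * e)) * (3 * T ^ (-(1 / 2) : ℝ))) := by gcongr
      _ = 12 * (T ^ (3 / 2 : ℝ) * T ^ (9 * e) * T ^ (-(1 / 2) : ℝ)) := by ring
      _ = _ := by rw [← Real.rpow_add hT0, ← Real.rpow_add hT0]; ring_nf

/-- coefficients of the short dual polynomial -/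
noncomputable def coA (e : ℝ) (n : ℕ) : ℂ := (((n : ℝ) ^ (-(1 / 2 + e) : ℝ) : ℝ) : ℂ)

/-- coefficients of the long dual polynomial -/
noncomputable def coB (n : ℕ) : ℂ := (((n : ℝ) ^ (-(5 / 4) : ℝ) : ℝ) : ℂ)

noncomputable def P0 (e T u : ℝ) : ℂ :=
  ∑ n ∈ Icc 1 ⌈Real.sqrt T * T ^ e⌉₊, aS T n * (n : ℂ) ^ ((u : ℂ) * Complex.I)

noncomputable def P1 (e T u : ℝ) : ℂ :=
  ∑ n ∈ Icc 1 ⌈Real.sqrt T⌉₊, coA e n * (n : ℂ) ^ ((u : ℂ) * Complex.I)

noncomputable def P2 (T u : ℝ) : ℂ :=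
  ∑ n ∈ Ioc ⌈Real.sqrt T⌉₊ ⌈T ^ 8⌉₊, coB n * (n : ℂ) ^ ((u : ℂ) * Complex.I)

noncomputable def F1 (Cz e T u : ℝ) : ℝ :=
  Cz * Real.sqrt T ^ (-e) * ((1 + |u|) ^ e * ‖P1 e T u‖)

noncomputable def F2 (Cz Ct T u : ℝ) : ℝ :=
  Cz * Real.sqrt T ^ (-(3 / 4) : ℝ) * ((1 + |u|) ^ (3 / 4 : ℝ) * (‖P2 T u‖ + Ct / T))

theorem P0_cont (e T : ℝ) : Continuous (P0 e T) :=
  cont_poly _ _ fun _ hn => (Finset.mem_Icc.mp hn).1

theorem P1_cont (e T : ℝ) : Continuous (P1 e T) :=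
  cont_poly _ _ fun _ hn => (Finset.mem_Icc.mp hn).1

theorem P2_cont (T : ℝ) : Continuous (P2 T) :=
  cont_poly _ _ fun n hn => by have := (Finset.mem_Ioc.mp hn).1; omega

theorem P0_bdd (e T : ℝ) : ∃ B : ℝ, 0 ≤ B ∧ ∀ u, ‖P0 e T u‖ ≤ B :=
  ⟨_, Finset.sum_nonneg fun _ _ => norm_nonneg _,
    bdd_poly _ _ fun _ hn => (Finset.mem_Icc.mp hn).1⟩

theorem P1_bdd (e T : ℝ) : ∃ B : ℝ, 0 ≤ B ∧ ∀ u, ‖P1 e T u‖ ≤ B :=
  ⟨_, Finset.sum_nonneg fun _ _ => norm_nonneg _,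
    bdd_poly _ _ fun _ hn => (Finset.mem_Icc.mp hn).1⟩

theorem P2_bdd (T : ℝ) : ∃ B : ℝ, 0 ≤ B ∧ ∀ u, ‖P2 T u‖ ≤ B :=
  ⟨_, Finset.sum_nonneg fun _ _ => norm_nonneg _,
    bdd_poly _ _ fun n hn => by have := (Finset.mem_Ioc.mp hn).1; omega⟩

theorem rpow_abs_cont {s : ℝ} : Continuous (fun u : ℝ => (1 + |u|) ^ s) :=
  Continuous.rpow_const (by fun_prop) fun u => Or.inl (by (clear * -; positivity))

theorem rpow_abs_le {s : ℝ} (hs : s ≤ 1) (u : ℝ) : (1 + |u|) ^ s ≤ 1 + |u| := by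
  calc (1 + |u|) ^ s ≤ (1 + |u|) ^ (1 : ℝ) :=
        Real.rpow_le_rpow_of_exponent_le (by linarith [abs_nonneg u]) hs
    _ = _ := Real.rpow_one _

theorem F1_cont (Cz e T : ℝ) : Continuous (F1 Cz e T) :=
  continuous_const.mul (rpow_abs_cont.mul (P1_cont e T).norm)

theorem F2_cont (Cz Ct T : ℝ) : Continuous (F2 Cz Ct T) :=
  continuous_const.mul (rpow_abs_cont.mul ((P2_cont T).norm.add continuous_const))

theorem F1_nonneg {Cz : ℝ} (hC : 0 ≤ Cz) (e T u : ℝ) : 0 ≤ F1 Cz e T u := by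
  unfold F1; positivity

theorem F2_nonneg {Cz Ct T : ℝ} (hC : 0 ≤ Cz) (hCt : 0 ≤ Ct) (hT : 0 ≤ T) (u : ℝ) :
    0 ≤ F2 Cz Ct T u := by
  unfold F2; (clear * - hC hCt hT; positivity)

theorem F1_le {Cz e : ℝ} (hC : 0 ≤ Cz) (he : e ≤ 1) (T : ℝ) :
    ∃ K : ℝ, 0 ≤ K ∧ ∀ u, F1 Cz e T u ≤ K * (1 + |u|) := by
  obtain ⟨B, hB0, hB⟩ := P1_bdd e T
  refine ⟨Cz * Real.sqrt T ^ (-e) * B, by positivity, fun u => ?_⟩
  unfold F1
  have h := mul_le_mul (rpow_abs_le he u) (hB u) (norm_nonneg _) (by positivity)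
  calc Cz * Real.sqrt T ^ (-e) * ((1 + |u|) ^ e * ‖P1 e T u‖)
      ≤ Cz * Real.sqrt T ^ (-e) * ((1 + |u|) * B) := mul_le_mul_of_nonneg_left h (by positivity)
    _ = _ := by ring

theorem F2_le {Cz Ct T : ℝ} (hC : 0 ≤ Cz) (hCt : 0 ≤ Ct) (hT : 0 ≤ T) :
    ∃ K : ℝ, 0 ≤ K ∧ ∀ u, F2 Cz Ct T u ≤ K * (1 + |u|) := by
  obtain ⟨B, hB0, hB⟩ := P2_bdd T
  refine ⟨Cz * Real.sqrt T ^ (-(3 / 4) : ℝ) * (B + Ct / T), by (clear * - hC hB0 hCt hT; positivity), fun u => ?_⟩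
  unfold F2
  have h : (1 + |u|) ^ (3 / 4 : ℝ) * (‖P2 T u‖ + Ct / T) ≤ (1 + |u|) * (B + Ct / T) :=
    mul_le_mul (rpow_abs_le (by norm_num) u) (by linarith [hB u]) (by (clear * - hCt hT; positivity))
      (by positivity)
  calc Cz * Real.sqrt T ^ (-(3 / 4) : ℝ) * ((1 + |u|) ^ (3 / 4 : ℝ) * (‖P2 T u‖ + Ct / T))
      ≤ Cz * Real.sqrt T ^ (-(3 / 4) : ℝ) * ((1 + |u|) * (B + Ct / T)) :=
        mul_le_mul_of_nonneg_left h (by positivity)
    _ = _ := by ring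

theorem P1_eq (e T u : ℝ) :
    ∑ m ∈ Icc 1 ⌈Real.sqrt T⌉₊, (m : ℂ) ^ ((-(1 / 2 + e : ℝ) : ℂ) + (u : ℂ) * Complex.I) =
      P1 e T u := by
  unfold P1 coA
  refine Finset.sum_congr rfl fun m hm => ?_
  have hm1 := (Finset.mem_Icc.mp hm).1
  have hm0 : (m : ℂ) ≠ 0 := by
    have : m ≠ 0 := by omega
    exact_mod_cast this
  rw [Complex.cpow_add _ _ hm0, Complex.ofReal_cpow (Nat.cast_nonneg m)]
  congr 2
  push_cast
  ring

theorem pointwise (hA : FMafe) {e : ℝ} (he : 0 < e) (he1 : e ≤ 1 / 16) :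
    ∃ Cs Cz Ct : ℝ, 0 < Cs ∧ 0 < Cz ∧ 0 < Ct ∧ ∀ T t : ℝ, 1 ≤ T →
      ‖riemannZeta (1 / 2 + (t : ℂ) * Complex.I)‖ ≤
        (‖P0 e T (-t)‖ + Cs + Cz * Real.sqrt (Real.sqrt T) * Real.exp (-t ^ 2)) +
        ∫ v : ℝ, (F1 Cz e T (t + v) + F2 Cz Ct T (t + v)) * Real.exp (-(1 / 2 * v ^ 2)) := by
  obtain ⟨Cs, hCs, hs⟩ := S1_bound he
  obtain ⟨Cz, hCz, hz⟩ := hA e he (by linarith)
  obtain ⟨Ct, hCt, ht⟩ := tail54
  refine ⟨Cs, Cz, Ct, hCs, hCz, hCt, fun T t hT => ?_⟩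
  have hT0 : 0 < T := by (clear * - he he1 hT; linarith)
  have hs1 : 1 ≤ Real.sqrt T := Real.one_le_sqrt.mpr hT
  have hM1 : 1 ≤ ⌈Real.sqrt T⌉₊ := by
    rw [Nat.one_le_ceil_iff]; linarith
  have h := hz (Real.sqrt T) ⌈Real.sqrt T⌉₊ t hs1 hM1
  have h0 := hs T t ⌈Real.sqrt T * T ^ e⌉₊ hT (Nat.le_ceil _)
  exact by
    have h0' : ‖S1 (Real.sqrt T) t‖ ≤ ‖P0 e T (-t)‖ + Cs := h0
    obtain ⟨K1, hK1, hF1⟩ := F1_le (Cz := Cz) (e := e) hCz.le (by (clear * - he he1; linarith)) T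
    obtain ⟨K2, hK2, hF2⟩ := F2_le (Cz := Cz) (Ct := Ct) (T := T) hCz.le hCt.le hT0.le
    have i1 : Integrable (fun v : ℝ => F1 Cz e T (t + v) * Real.exp (-(1 / 2 * v ^ 2))) := by
      have := shift_integrable (F1_cont Cz e T) hK1 (F1_nonneg hCz.le e T) hF1 t 1
        (b := 1 / 2) (by norm_num)
      simpa using this
    have i2 : Integrable (fun v : ℝ => F2 Cz Ct T (t + v) * Real.exp (-(1 / 2 * v ^ 2))) := by
      have := shift_integrable (F2_cont Cz Ct T) hK2 (F2_nonneg hCz.le hCt.le hT0.le) hF2 t 1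
        (b := 1 / 2) (by norm_num)
      simpa using this
    have e0 : ∀ v : ℝ, Real.exp (-v ^ 2 / 2) = Real.exp (-(1 / 2 * v ^ 2)) := fun v => by
      congr 1; ring
    have h1 : Cz * Real.sqrt T ^ (-e) * (∫ v : ℝ, (1 + |t + v|) ^ e *
        ‖∑ m ∈ Icc 1 ⌈Real.sqrt T⌉₊, (m : ℂ) ^ ((-(1 / 2 + e : ℝ) : ℂ) +
        ((t + v : ℝ) : ℂ) * Complex.I)‖ * Real.exp (-v ^ 2 / 2)) =
        ∫ v : ℝ, F1 Cz e T (t + v) * Real.exp (-(1 / 2 * v ^ 2)) := by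
      rw [← integral_const_mul]
      congr 1
      funext v
      rw [P1_eq, e0, F1]
      ring
    have h2 : Cz * Real.sqrt T ^ (-(3 / 4) : ℝ) * (∫ v : ℝ, (1 + |t + v|) ^ (3 / 4 : ℝ) *
        ‖∑' m : ℕ, ((m : ℂ) + ⌈Real.sqrt T⌉₊ + 1) ^ ((-(5 / 4) : ℂ) +
        ((t + v : ℝ) : ℂ) * Complex.I)‖ * Real.exp (-v ^ 2 / 2)) ≤
        ∫ v : ℝ, F2 Cz Ct T (t + v) * Real.exp (-(1 / 2 * v ^ 2)) := by
      rw [← integral_const_mul]
      refine integral_mono_of_nonneg (Eventually.of_forall fun v => by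
        simp only [Pi.zero_apply]; (clear * - hCz hT; positivity)) i2
        (Eventually.of_forall fun v => ?_)
      simp only
      have hsT : Real.sqrt T ≤ T ^ 8 := by
        have a1 : Real.sqrt T ≤ T := by
          rw [Real.sqrt_le_left (by (clear * - he he1 hT; linarith))]; (clear * - hT; nlinarith)
        exact a1.trans (le_self_pow₀ hT (by norm_num))
      have h3 := ht T (t + v) ⌈Real.sqrt T⌉₊ ⌈T ^ 8⌉₊ hT (Nat.ceil_le_ceil hsT) (Nat.le_ceil _)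
      have h4 : ‖∑' m : ℕ, ((m : ℂ) + ⌈Real.sqrt T⌉₊ + 1) ^ ((-(5 / 4) : ℂ) +
          ((t + v : ℝ) : ℂ) * Complex.I)‖ ≤ ‖P2 T (t + v)‖ + Ct / T := h3
      rw [e0, F2]
      calc _ = Cz * Real.sqrt T ^ (-(3 / 4) : ℝ) * ((1 + |t + v|) ^ (3 / 4 : ℝ) *
          ‖∑' m : ℕ, ((m : ℂ) + ⌈Real.sqrt T⌉₊ + 1) ^ ((-(5 / 4) : ℂ) +
          ((t + v : ℝ) : ℂ) * Complex.I)‖) * Real.exp (-(1 / 2 * v ^ 2)) := by ring
        _ ≤ _ := by (clear * - h4 hCz hT; gcongr)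
    have h5 : ∫ v : ℝ, (F1 Cz e T (t + v) + F2 Cz Ct T (t + v)) * Real.exp (-(1 / 2 * v ^ 2)) =
        (∫ v : ℝ, F1 Cz e T (t + v) * Real.exp (-(1 / 2 * v ^ 2))) +
        ∫ v : ℝ, F2 Cz Ct T (t + v) * Real.exp (-(1 / 2 * v ^ 2)) := by
      rw [← integral_add i1 i2]
      congr 1
      funext v
      ring
    rw [h5]
    (clear * - h h0' h1 h2; linarith)

/-- weighted integrals of powers of the polynomials, in `ENNReal` -/
theorem lint_poly {P : ℝ → ℂ} (hc : Continuous P) {B : ℝ} (hB : ∀ u, ‖P u‖ ≤ B) {T c : ℝ}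
    (hT : 0 < T) (hI : ∫ t : ℝ, Real.exp (-(t / T) ^ 2) * ‖P t‖ ^ 4 ≤ c) :
    ∫⁻ t : ℝ, ENNReal.ofReal (Real.exp (-(t / T) ^ 2) * ‖P t‖ ^ 4) ≤ ENNReal.ofReal c := by
  have hint : Integrable (fun t => Real.exp (-(t / T) ^ 2) * ‖P t‖ ^ 4) :=
    bdd_integrable (g := fun t => ‖P t‖ ^ 4) (hc.norm.pow 4) (fun t => by positivity)
      (fun t => pow_le_pow_left₀ (norm_nonneg _) (hB t) 4) hT
  rw [← ofReal_integral_eq_lintegral_ofReal hint
    (Eventually.of_forall fun t => by simp only [Pi.zero_apply]; positivity)]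
  exact ENNReal.ofReal_le_ofReal hI

theorem lint_w {T : ℝ} (hT : 0 < T) :
    ∫⁻ t : ℝ, ENNReal.ofReal (Real.exp (-(t / T) ^ 2)) = ENNReal.ofReal (Real.sqrt Real.pi * T) := by
  rw [← int_wT hT]
  have hint : Integrable (fun t : ℝ => Real.exp (-(t / T) ^ 2)) := by
    have := bdd_integrable (g := fun _ => 1) continuous_const (fun t => by norm_num)
      (B := 1) (fun t => le_refl _) hT
    simpa using this
  rw [← ofReal_integral_eq_lintegral_ofReal hint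
    (Eventually.of_forall fun t => by simp only [Pi.zero_apply]; positivity)]

theorem one_le_pow_T {e T : ℝ} (he : 0 < e) (hT : 1 ≤ T) : T ≤ T ^ (1 + 9 * e) := by
  calc T = T ^ (1 : ℝ) := (Real.rpow_one T).symm
    _ ≤ _ := Real.rpow_le_rpow_of_exponent_le hT (by (clear * - he; linarith))

theorem F1_pow {Cz e T : ℝ} (he : 0 < e) (he1 : e ≤ 1 / 16) (hT : 1 ≤ T) (u : ℝ) :
    Real.exp (-(u ^ 2 / (2 * T ^ 2))) * F1 Cz e T u ^ 4 ≤
      Cz ^ 4 * Real.exp 9 * T ^ (4 * e) *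
        (Real.exp (-(u / (2 * T)) ^ 2) * ‖P1 e T u‖ ^ 4) := by
  have hT0 : 0 < T := by (clear * - he he1 hT; linarith)
  have hs1 : 1 ≤ Real.sqrt T := Real.one_le_sqrt.mpr hT
  have hg := growth (s := 4 * e) (by positivity) (by (clear * - he he1; linarith)) hT u
  have h1 : Real.sqrt T ^ (-e) ≤ 1 := Real.rpow_le_one_of_one_le_of_nonpos hs1 (by (clear * - he; linarith))
  have h2 : (Real.sqrt T ^ (-e)) ^ 4 ≤ 1 := pow_le_one₀ (by positivity) h1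
  have h3 : ((1 + |u|) ^ e) ^ 4 = (1 + |u|) ^ (4 * e) := by
    rw [← Real.rpow_natCast, ← Real.rpow_mul (by positivity)]
    congr 1
    push_cast
    ring
  unfold F1
  calc Real.exp (-(u ^ 2 / (2 * T ^ 2))) *
        (Cz * Real.sqrt T ^ (-e) * ((1 + |u|) ^ e * ‖P1 e T u‖)) ^ 4
      = Cz ^ 4 * (Real.sqrt T ^ (-e)) ^ 4 *
        ((Real.exp (-(u ^ 2 / (2 * T ^ 2))) * ((1 + |u|) ^ e) ^ 4) * ‖P1 e T u‖ ^ 4) := by ring
    _ ≤ Cz ^ 4 * 1 *
        ((Real.exp 9 * T ^ (4 * e) * Real.exp (-(u / (2 * T)) ^ 2)) * ‖P1 e T u‖ ^ 4) := by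
        rw [h3]
        (clear * - h2 hg; gcongr)
    _ = _ := by ring

theorem F2_pow {Cz Ct T : ℝ} (hT : 1 ≤ T) (u : ℝ) :
    Real.exp (-(u ^ 2 / (2 * T ^ 2))) * F2 Cz Ct T u ^ 4 ≤
      8 * Cz ^ 4 * Real.exp 9 * T ^ (3 / 2 : ℝ) *
        (Real.exp (-(u / (2 * T)) ^ 2) * ‖P2 T u‖ ^ 4) +
      8 * Cz ^ 4 * Real.exp 9 * T ^ (3 / 2 : ℝ) * (Ct / T) ^ 4 * Real.exp (-(u / (2 * T)) ^ 2) := by
  have hT0 : 0 < T := by linarith
  have hs1 : 1 ≤ Real.sqrt T := Real.one_le_sqrt.mpr hT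
  have hg := growth (s := 3) (by norm_num) (le_refl _) hT u
  have h2 : (Real.sqrt T ^ (-(3 / 4) : ℝ)) ^ 4 = T ^ (-(3 / 2) : ℝ) := by
    rw [Real.sqrt_eq_rpow, ← Real.rpow_mul hT0.le, ← Real.rpow_natCast, ← Real.rpow_mul hT0.le]
    norm_num
  have h3 : ((1 + |u|) ^ (3 / 4 : ℝ)) ^ 4 = (1 + |u|) ^ (3 : ℝ) := by
    rw [← Real.rpow_natCast, ← Real.rpow_mul (by (clear * -; positivity))]
    norm_num
  have h4 : T ^ (-(3 / 2) : ℝ) * T ^ (3 : ℝ) = T ^ (3 / 2 : ℝ) := by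
    rw [← Real.rpow_add hT0]; norm_num
  have h5 := pow4_add2 ‖P2 T u‖ (Ct / T)
  unfold F2
  calc Real.exp (-(u ^ 2 / (2 * T ^ 2))) *
        (Cz * Real.sqrt T ^ (-(3 / 4) : ℝ) * ((1 + |u|) ^ (3 / 4 : ℝ) * (‖P2 T u‖ + Ct / T))) ^ 4
      = Cz ^ 4 * (Real.sqrt T ^ (-(3 / 4) : ℝ)) ^ 4 *
        ((Real.exp (-(u ^ 2 / (2 * T ^ 2))) * ((1 + |u|) ^ (3 / 4 : ℝ)) ^ 4) *
          (‖P2 T u‖ + Ct / T) ^ 4) := by ring
    _ ≤ Cz ^ 4 * T ^ (-(3 / 2) : ℝ) *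
        ((Real.exp 9 * T ^ (3 : ℝ) * Real.exp (-(u / (2 * T)) ^ 2)) *
          (8 * (‖P2 T u‖ ^ 4 + (Ct / T) ^ 4))) := by
        rw [h3, h2]
        (clear * - hg h5 hT; gcongr)
    _ = 8 * Cz ^ 4 * Real.exp 9 * (T ^ (-(3 / 2) : ℝ) * T ^ (3 : ℝ)) *
        (Real.exp (-(u / (2 * T)) ^ 2) * ‖P2 T u‖ ^ 4) +
        8 * Cz ^ 4 * Real.exp 9 * (T ^ (-(3 / 2) : ℝ) * T ^ (3 : ℝ)) * (Ct / T) ^ 4 *
          Real.exp (-(u / (2 * T)) ^ 2) := by ring
    _ = _ := by rw [h4]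

theorem lint_smul {c : ℝ} (hc : 0 ≤ c) (f : ℝ → ℝ) :
    ∫⁻ t, ENNReal.ofReal (c * f t) = ENNReal.ofReal c * ∫⁻ t, ENNReal.ofReal (f t) := by
  simp_rw [ENNReal.ofReal_mul hc]
  exact lintegral_const_mul' _ _ ENNReal.ofReal_ne_top

theorem lint_smul_le {c b : ℝ} (hc : 0 ≤ c) {f : ℝ → ℝ}
    (h : ∫⁻ t, ENNReal.ofReal (f t) ≤ ENNReal.ofReal b) :
    ∫⁻ t, ENNReal.ofReal (c * f t) ≤ ENNReal.ofReal (c * b) := by
  rw [lint_smul hc, ENNReal.ofReal_mul hc]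
  gcongr

theorem norm_coA (e : ℝ) (n : ℕ) : ‖coA e n‖ = (n : ℝ) ^ (-(1 / 2 + e) : ℝ) := by
  unfold coA
  rw [Complex.norm_real, Real.norm_eq_abs, abs_of_nonneg (by positivity)]

theorem norm_coB (n : ℕ) : ‖coB n‖ = (n : ℝ) ^ (-(5 / 4) : ℝ) := by
  unfold coB
  rw [Complex.norm_real, Real.norm_eq_abs, abs_of_nonneg (by positivity)]

theorem lint_P0 {Ca e : ℝ} (hCa : 0 < Ca) (he : 0 < e) (he1 : e ≤ 1 / 16)
    (ha : ∀ (L : ℕ) (a : ℕ → ℂ) (T : ℝ), 1 ≤ T → 1 ≤ L →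
      (∀ n : ℕ, 1 ≤ n → ‖a n‖ ≤ (n : ℝ) ^ (-(1 / 2) : ℝ)) →
      ∫ t : ℝ, Real.exp (-(t / T) ^ 2) * ‖∑ n ∈ Icc 1 L, a n * (n : ℂ) ^ ((t : ℂ) * Complex.I)‖ ^ 4 ≤
      Ca * (T * L) ^ e * (T + (L : ℝ) ^ 2)) {T : ℝ} (hT : 1 ≤ T) :
    ∫⁻ t : ℝ, ENNReal.ofReal (Real.exp (-(t / T) ^ 2) * ‖P0 e T (-t)‖ ^ 4) ≤
      ENNReal.ofReal (Ca * (10 * T ^ (1 + 9 * e))) := by
  have hT0 : 0 < T := by (clear * - he he1 hT; linarith)
  obtain ⟨B, hB0, hB⟩ := P0_bdd e T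
  refine lint_poly (P := fun t => P0 e T (-t)) ((P0_cont e T).comp continuous_neg)
    (fun u => hB (-u)) hT0 ?_
  have h1 : ∫ t : ℝ, Real.exp (-(t / T) ^ 2) * ‖P0 e T (-t)‖ ^ 4 =
      ∫ t : ℝ, Real.exp (-(t / T) ^ 2) * ‖P0 e T t‖ ^ 4 := by
    rw [← integral_neg_eq_self (fun t : ℝ => Real.exp (-(t / T) ^ 2) * ‖P0 e T t‖ ^ 4)]
    congr 1
    funext t
    rw [neg_div, neg_sq]
  rw [h1]
  have hTe : 1 ≤ T ^ e := Real.one_le_rpow hT he.le
  have hs1 : 1 ≤ Real.sqrt T := Real.one_le_sqrt.mpr hT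
  have hL : 1 ≤ ⌈Real.sqrt T * T ^ e⌉₊ := by
    rw [Nat.one_le_ceil_iff]; positivity
  refine (ha _ (aS T) T hT hL (fun n _ => norm_aS_le T n)).trans ?_
  have h2 := num1 he he1 hT
  have h3 : T ^ (1 + 4 * e) ≤ T ^ (1 + 9 * e) :=
    Real.rpow_le_rpow_of_exponent_le hT (by (clear * - he; linarith))
  calc _ = Ca * ((T * (⌈Real.sqrt T * T ^ e⌉₊ : ℝ)) ^ e *
        (T + (⌈Real.sqrt T * T ^ e⌉₊ : ℝ) ^ 2)) := by ring
    _ ≤ Ca * (10 * T ^ (1 + 9 * e)) := by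
        apply mul_le_mul_of_nonneg_left _ hCa.le
        (clear * - h2 h3; linarith)

theorem lint_P1 {Ca e : ℝ} (he : 0 < e)
    (ha : ∀ (L : ℕ) (a : ℕ → ℂ) (T : ℝ), 1 ≤ T → 1 ≤ L →
      (∀ n : ℕ, 1 ≤ n → ‖a n‖ ≤ (n : ℝ) ^ (-(1 / 2) : ℝ)) →
      ∫ t : ℝ, Real.exp (-(t / T) ^ 2) * ‖∑ n ∈ Icc 1 L, a n * (n : ℂ) ^ ((t : ℂ) * Complex.I)‖ ^ 4 ≤
      Ca * (T * L) ^ e * (T + (L : ℝ) ^ 2)) {T : ℝ} (hT : 1 ≤ T) :
    ∫⁻ t : ℝ, ENNReal.ofReal (Real.exp (-(t / (2 * T)) ^ 2) * ‖P1 e T t‖ ^ 4) ≤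
      ENNReal.ofReal (Ca * ((2 * T * (⌈Real.sqrt T⌉₊ : ℝ)) ^ e *
        (2 * T + (⌈Real.sqrt T⌉₊ : ℝ) ^ 2))) := by
  have hT0 : 0 < T := by linarith
  obtain ⟨B, hB0, hB⟩ := P1_bdd e T
  refine lint_poly (P1_cont e T) hB (by positivity) ?_
  have hs1 : 1 ≤ Real.sqrt T := Real.one_le_sqrt.mpr hT
  have hL : 1 ≤ ⌈Real.sqrt T⌉₊ := by
    rw [Nat.one_le_ceil_iff]; linarith
  refine (ha _ (coA e) (2 * T) (by linarith) hL (fun n hn => ?_)).trans (le_of_eq (by ring))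
  rw [norm_coA]
  exact Real.rpow_le_rpow_of_exponent_le (by exact_mod_cast hn) (by (clear * - he; linarith))

theorem lint_P2 {Cb e : ℝ} 
    (hb : ∀ (M L : ℕ) (a : ℕ → ℂ) (T : ℝ), 1 ≤ T → 1 ≤ M → M ≤ L →
      (∀ n : ℕ, 1 ≤ n → ‖a n‖ ≤ (n : ℝ) ^ (-(5 / 4) : ℝ)) →
      ∫ t : ℝ, Real.exp (-(t / T) ^ 2) * ‖∑ n ∈ Ioc M L, a n * (n : ℂ) ^ ((t : ℂ) * Complex.I)‖ ^ 4 ≤
      Cb * (T * L) ^ e * (T / (M : ℝ) ^ 3 + 1 / (M : ℝ))) {T : ℝ} (hT : 1 ≤ T) :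
    ∫⁻ t : ℝ, ENNReal.ofReal (Real.exp (-(t / (2 * T)) ^ 2) * ‖P2 T t‖ ^ 4) ≤
      ENNReal.ofReal (Cb * ((2 * T * (⌈T ^ 8⌉₊ : ℝ)) ^ e *
        (2 * T / (⌈Real.sqrt T⌉₊ : ℝ) ^ 3 + 1 / (⌈Real.sqrt T⌉₊ : ℝ)))) := by
  have hT0 : 0 < T := by linarith
  obtain ⟨B, hB0, hB⟩ := P2_bdd T
  refine lint_poly (P2_cont T) hB (by positivity) ?_
  have hs1 : 1 ≤ Real.sqrt T := Real.one_le_sqrt.mpr hT
  have hL : 1 ≤ ⌈Real.sqrt T⌉₊ := by
    rw [Nat.one_le_ceil_iff]; linarith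
  have hsT : Real.sqrt T ≤ T ^ 8 := by
    have a1 : Real.sqrt T ≤ T := by
      rw [Real.sqrt_le_left (by (clear * - hT; linarith))]; (clear * - hT; nlinarith)
    exact a1.trans (le_self_pow₀ hT (by norm_num))
  refine (hb _ _ coB (2 * T) (by linarith) hL (Nat.ceil_le_ceil hsT) (fun n _ => ?_)).trans
    (le_of_eq (by ring))
  rw [norm_coB]

theorem lint_add3 {f g h : ℝ → ℝ} (hf : Continuous f) (hg : Continuous g) {a b c : ℝ}
    (ha0 : 0 ≤ a) (hb0 : 0 ≤ b) (hc0 : 0 ≤ c)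
    (ha : ∫⁻ t, ENNReal.ofReal (f t) ≤ ENNReal.ofReal a)
    (hb : ∫⁻ t, ENNReal.ofReal (g t) ≤ ENNReal.ofReal b)
    (hc : ∫⁻ t, ENNReal.ofReal (h t) ≤ ENNReal.ofReal c) {F : ℝ → ℝ}
    (hF : ∀ t, F t ≤ f t + (g t + h t)) :
    ∫⁻ t, ENNReal.ofReal (F t) ≤ ENNReal.ofReal (a + (b + c)) := by
  calc ∫⁻ t, ENNReal.ofReal (F t)
      ≤ ∫⁻ t, (ENNReal.ofReal (f t) + (ENNReal.ofReal (g t) + ENNReal.ofReal (h t))) := by
        refine lintegral_mono fun t => ?_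
        refine (ENNReal.ofReal_le_ofReal (hF t)).trans ?_
        refine ENNReal.ofReal_add_le.trans ?_
        gcongr
        exact ENNReal.ofReal_add_le
    _ = (∫⁻ t, ENNReal.ofReal (f t)) + ((∫⁻ t, ENNReal.ofReal (g t)) +
        ∫⁻ t, ENNReal.ofReal (h t)) := by
        rw [lintegral_add_left (by fun_prop), lintegral_add_left (by fun_prop)]
    _ ≤ ENNReal.ofReal a + (ENNReal.ofReal b + ENNReal.ofReal c) := by (clear * - ha hb hc; gcongr)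
    _ = _ := by rw [ENNReal.ofReal_add ha0 (by (clear * - hb0 hc0; positivity)), ENNReal.ofReal_add hb0 hc0]

theorem lint_add2 {f h : ℝ → ℝ} (hf : Continuous f) {a c : ℝ}
    (ha0 : 0 ≤ a) (hc0 : 0 ≤ c)
    (ha : ∫⁻ t, ENNReal.ofReal (f t) ≤ ENNReal.ofReal a)
    (hc : ∫⁻ t, ENNReal.ofReal (h t) ≤ ENNReal.ofReal c) :
    ∫⁻ t, ENNReal.ofReal (f t + h t) ≤ ENNReal.ofReal (a + c) := by
  calc ∫⁻ t, ENNReal.ofReal (f t + h t)
      ≤ ∫⁻ t, (ENNReal.ofReal (f t) + ENNReal.ofReal (h t)) := by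
        refine lintegral_mono fun t => ?_
        exact ENNReal.ofReal_add_le
    _ = (∫⁻ t, ENNReal.ofReal (f t)) + ∫⁻ t, ENNReal.ofReal (h t) := by
        rw [lintegral_add_left (by fun_prop)]
    _ ≤ ENNReal.ofReal a + ENNReal.ofReal c := by gcongr
    _ = _ := by rw [ENNReal.ofReal_add ha0 hc0]

theorem lint_avg {Ca Cb Cz Ct Cv e : ℝ} (hCa : 0 < Ca) (hCb : 0 < Cb) (hCz : 0 < Cz)
    (hCt : 0 < Ct) (hCv : 0 < Cv) (he : 0 < e) (he1 : e ≤ 1 / 16)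
    (ha : ∀ (L : ℕ) (a : ℕ → ℂ) (T : ℝ), 1 ≤ T → 1 ≤ L →
      (∀ n : ℕ, 1 ≤ n → ‖a n‖ ≤ (n : ℝ) ^ (-(1 / 2) : ℝ)) →
      ∫ t : ℝ, Real.exp (-(t / T) ^ 2) * ‖∑ n ∈ Icc 1 L, a n * (n : ℂ) ^ ((t : ℂ) * Complex.I)‖ ^ 4 ≤
      Ca * (T * L) ^ e * (T + (L : ℝ) ^ 2))
    (hb : ∀ (M L : ℕ) (a : ℕ → ℂ) (T : ℝ), 1 ≤ T → 1 ≤ M → M ≤ L →
      (∀ n : ℕ, 1 ≤ n → ‖a n‖ ≤ (n : ℝ) ^ (-(5 / 4) : ℝ)) →
      ∫ t : ℝ, Real.exp (-(t / T) ^ 2) * ‖∑ n ∈ Ioc M L, a n * (n : ℂ) ^ ((t : ℂ) * Complex.I)‖ ^ 4 ≤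
      Cb * (T * L) ^ e * (T / (M : ℝ) ^ 3 + 1 / (M : ℝ)))
    (hv : ∀ (F : ℝ → ℝ) (K T : ℝ), Continuous F → 0 ≤ K → (∀ u, 0 ≤ F u) →
      (∀ u, F u ≤ K * (1 + |u|)) → 2 ≤ T →
      ∫⁻ t, ENNReal.ofReal (Real.exp (-(t / T) ^ 2) *
        (∫ v, F (t + v) * Real.exp (-(1 / 2 * v ^ 2))) ^ 4) ≤
      ENNReal.ofReal Cv * ∫⁻ u, ENNReal.ofReal (Real.exp (-(u ^ 2 / (2 * T ^ 2))) * F u ^ 4))
    {T : ℝ} (hT2 : 2 ≤ T) :
    ∫⁻ t : ℝ, ENNReal.ofReal (Real.exp (-(t / T) ^ 2) *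
      (∫ v : ℝ, (F1 Cz e T (t + v) + F2 Cz Ct T (t + v)) * Real.exp (-(1 / 2 * v ^ 2))) ^ 4) ≤
    ENNReal.ofReal (Cv * ((8 * Cz ^ 4 * Real.exp 9 * (24 * Ca) +
      (64 * Cz ^ 4 * Real.exp 9 * (12 * Cb) +
      64 * Cz ^ 4 * Real.exp 9 * Ct ^ 4 * (2 * Real.sqrt Real.pi))) * T ^ (1 + 9 * e))) := by
  have hT : 1 ≤ T := by (clear * - he he1 hT2; linarith)
  have hT0 : 0 < T := by linarith
  obtain ⟨K1, hK1, hF1⟩ := F1_le (Cz := Cz) (e := e) hCz.le (by linarith) T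
  obtain ⟨K2, hK2, hF2⟩ := F2_le (Cz := Cz) (Ct := Ct) (T := T) hCz.le hCt.le hT0.le
  refine (hv (fun u => F1 Cz e T u + F2 Cz Ct T u) (K1 + K2) T
    ((F1_cont Cz e T).add (F2_cont Cz Ct T)) (by positivity)
    (fun u => add_nonneg (F1_nonneg hCz.le e T u) (F2_nonneg hCz.le hCt.le hT0.le u))
    (fun u => by linarith [hF1 u, hF2 u]) hT2).trans ?_
  rw [ENNReal.ofReal_mul hCv.le]
  gcongr
  have b1 := lint_smul_le (c := 8 * Cz ^ 4 * Real.exp 9 * T ^ (4 * e)) (by positivity)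
    (lint_P1 he ha hT)
  have b2 := lint_smul_le (c := 64 * Cz ^ 4 * Real.exp 9 * T ^ (3 / 2 : ℝ)) (by positivity)
    (lint_P2 hb hT)
  have b3 := lint_smul_le (c := 64 * Cz ^ 4 * Real.exp 9 * T ^ (3 / 2 : ℝ) * (Ct / T) ^ 4)
    (by positivity) (le_of_eq (lint_w (T := 2 * T) (by positivity)))
  refine (lint_add3 (by
      have := P1_cont e T
      fun_prop) (by
      have := P2_cont T
      fun_prop) (by clear * - hCz hT2 hCa; positivity) (by positivity) (by positivity) b1 b2 b3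
    (F := fun u => Real.exp (-(u ^ 2 / (2 * T ^ 2))) * (F1 Cz e T u + F2 Cz Ct T u) ^ 4)
    (fun u => ?_)).trans (ENNReal.ofReal_le_ofReal ?_)
  · have h1 := F1_pow (Cz := Cz) he he1 hT u
    have h2 := F2_pow (Cz := Cz) (Ct := Ct) hT u
    exact by
      have h3 := pow4_add2 (F1 Cz e T u) (F2 Cz Ct T u)
      have h4 : Real.exp (-(u ^ 2 / (2 * T ^ 2))) * (F1 Cz e T u + F2 Cz Ct T u) ^ 4 ≤
          Real.exp (-(u ^ 2 / (2 * T ^ 2))) * (8 * (F1 Cz e T u ^ 4 + F2 Cz Ct T u ^ 4)) :=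
        mul_le_mul_of_nonneg_left h3 (Real.exp_pos _).le
      (clear * - h1 h2 h4; linarith)
  · have n2 := num2 he he1 hT
    have n3 := num3 he he1 hT
    have h6 : T ^ (1 + 6 * e) ≤ T ^ (1 + 9 * e) :=
      Real.rpow_le_rpow_of_exponent_le hT (by (clear * - he; linarith))
    exact by
      have h1 := one_le_pow_T he hT
      have h7 : T ^ (3 / 2 : ℝ) * (Ct / T) ^ 4 * T ≤ Ct ^ 4 * T ^ (1 + 9 * e) := by
        have h8 : T ^ (3 / 2 : ℝ) ≤ T ^ 4 := by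
          rw [← Real.rpow_natCast T 4]
          exact Real.rpow_le_rpow_of_exponent_le hT (by norm_num)
        calc T ^ (3 / 2 : ℝ) * (Ct / T) ^ 4 * T ≤ T ^ 4 * (Ct / T) ^ 4 * T := by clear * - h8 hCt hT2; gcongr
          _ = Ct ^ 4 * T := by field_simp
          _ ≤ _ := by (clear * - h1 hCt; gcongr)
      have c1 : 8 * Cz ^ 4 * Real.exp 9 * T ^ (4 * e) * (Ca * ((2 * T * (⌈Real.sqrt T⌉₊ : ℝ)) ^ e *
          (2 * T + (⌈Real.sqrt T⌉₊ : ℝ) ^ 2))) ≤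
          8 * Cz ^ 4 * Real.exp 9 * (24 * Ca) * T ^ (1 + 9 * e) := by
        calc _ = 8 * Cz ^ 4 * Real.exp 9 * Ca * (T ^ (4 * e) * ((2 * T * (⌈Real.sqrt T⌉₊ : ℝ)) ^ e *
          (2 * T + (⌈Real.sqrt T⌉₊ : ℝ) ^ 2))) := by ring
          _ ≤ 8 * Cz ^ 4 * Real.exp 9 * Ca * (24 * T ^ (1 + 9 * e)) :=
            mul_le_mul_of_nonneg_left (by (clear * - n2 h6; linarith)) (by positivity)
          _ = _ := by ring
      have c2 : 64 * Cz ^ 4 * Real.exp 9 * T ^ (3 / 2 : ℝ) *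
          (Cb * ((2 * T * (⌈T ^ 8⌉₊ : ℝ)) ^ e *
          (2 * T / (⌈Real.sqrt T⌉₊ : ℝ) ^ 3 + 1 / (⌈Real.sqrt T⌉₊ : ℝ)))) ≤
          64 * Cz ^ 4 * Real.exp 9 * (12 * Cb) * T ^ (1 + 9 * e) := by
        calc _ = 64 * Cz ^ 4 * Real.exp 9 * Cb * (T ^ (3 / 2 : ℝ) * ((2 * T * (⌈T ^ 8⌉₊ : ℝ)) ^ e *
          (2 * T / (⌈Real.sqrt T⌉₊ : ℝ) ^ 3 + 1 / (⌈Real.sqrt T⌉₊ : ℝ)))) := by ring
          _ ≤ 64 * Cz ^ 4 * Real.exp 9 * Cb * (12 * T ^ (1 + 9 * e)) :=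
            mul_le_mul_of_nonneg_left n3 (by positivity)
          _ = _ := by ring
      have c3 : 64 * Cz ^ 4 * Real.exp 9 * T ^ (3 / 2 : ℝ) * (Ct / T) ^ 4 *
          (Real.sqrt Real.pi * (2 * T)) ≤
          64 * Cz ^ 4 * Real.exp 9 * Ct ^ 4 * (2 * Real.sqrt Real.pi) * T ^ (1 + 9 * e) := by
        calc _ = 64 * Cz ^ 4 * Real.exp 9 * (2 * Real.sqrt Real.pi) *
            (T ^ (3 / 2 : ℝ) * (Ct / T) ^ 4 * T) := by ring
          _ ≤ 64 * Cz ^ 4 * Real.exp 9 * (2 * Real.sqrt Real.pi) * (Ct ^ 4 * T ^ (1 + 9 * e)) :=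
            mul_le_mul_of_nonneg_left h7 (by positivity)
          _ = _ := by ring
      rw [add_mul, add_mul]
      exact add_le_add c1 (add_le_add c2 c3)

/-- the fourth moment for `T ≥ 2`, in `ENNReal` -/
theorem lint_zeta (ha : FMmv4a) (hb : FMmv4b) (hA : FMafe) {e : ℝ} (he : 0 < e)
    (he1 : e ≤ 1 / 16) : ∃ C : ℝ, 0 < C ∧ ∀ T : ℝ, 2 ≤ T →
      ∫⁻ t : ℝ, ENNReal.ofReal (Real.exp (-(t / T) ^ 2) *
        ‖riemannZeta (1 / 2 + (t : ℂ) * Complex.I)‖ ^ 4) ≤ ENNReal.ofReal (C * T ^ (1 + 9 * e)) := by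
  obtain ⟨Cs, Cz, Ct, hCs, hCz, hCt, hp⟩ := pointwise hA he he1
  obtain ⟨Ca, hCa, ha'⟩ := ha e he
  obtain ⟨Cb, hCb, hb'⟩ := hb e he
  obtain ⟨Cv, hCv, hv⟩ := avg4
  set D : ℝ := Cv * (8 * Cz ^ 4 * Real.exp 9 * (24 * Ca) +
      (64 * Cz ^ 4 * Real.exp 9 * (12 * Cb) +
      64 * Cz ^ 4 * Real.exp 9 * Ct ^ 4 * (2 * Real.sqrt Real.pi))) with hD
  have hD0 : 0 < D := by (clear * - hCv hCz hCa hCb hCt; positivity)
  refine ⟨512 * (10 * Ca) + (512 * Cs ^ 4 * Real.sqrt Real.pi +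
    (512 * Cz ^ 4 * Real.sqrt Real.pi + 8 * D)), by clear * - hCa hCs hCz hCv hCb hCt; positivity, fun T hT2 => ?_⟩
  have hT : 1 ≤ T := by linarith
  have hT0 : 0 < T := by (clear * - he he1 hT2; linarith)
  have d0 := lint_smul_le (c := 512) (by norm_num) (lint_P0 hCa he he1 ha' hT)
  have d1 := lint_smul_le (c := 512 * Cs ^ 4) (by positivity) (le_of_eq (lint_w hT0))
  exact by
    have d2 := lint_smul_le (c := 512 * Cz ^ 4 * T) (by positivity)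
      (le_of_eq (lint_w (T := 1) one_pos))
    have d3 := lint_smul_le (c := 8) (by norm_num)
      (lint_avg hCa hCb hCz hCt hCv he he1 ha' hb' hv hT2)
    have hA4 : ∀ t : ℝ, Real.exp (-(t / T) ^ 2) *
          ‖riemannZeta (1 / 2 + (t : ℂ) * Complex.I)‖ ^ 4 ≤
        512 * (Real.exp (-(t / T) ^ 2) * ‖P0 e T (-t)‖ ^ 4) +
        (512 * Cs ^ 4 * Real.exp (-(t / T) ^ 2) +
        (512 * Cz ^ 4 * T * Real.exp (-(t / 1) ^ 2) +
          8 * (Real.exp (-(t / T) ^ 2) *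
        (∫ v : ℝ, (F1 Cz e T (t + v) + F2 Cz Ct T (t + v)) * Real.exp (-(1 / 2 * v ^ 2))) ^ 4))) := by
      intro t
      have h1 := hp T t hT
      set A : ℝ := ∫ v : ℝ, (F1 Cz e T (t + v) + F2 Cz Ct T (t + v)) *
        Real.exp (-(1 / 2 * v ^ 2)) with hAdef
      set w : ℝ := Real.exp (-(t / T) ^ 2) with hw
      have hw0 : 0 ≤ w := (Real.exp_pos _).le
      have hw1 : w ≤ 1 := by
        rw [hw]; exact Real.exp_le_one_iff.mpr (by (clear * -; nlinarith [sq_nonneg (t / T)]))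
      set g : ℝ := Real.exp (-t ^ 2) with hg
      have hg0 : 0 ≤ g := (Real.exp_pos _).le
      have hg1 : g ≤ 1 := by
        rw [hg]; exact Real.exp_le_one_iff.mpr (by (clear * -; nlinarith [sq_nonneg t]))
      have hg' : Real.exp (-(t / 1) ^ 2) = g := by rw [div_one]
      have h2 : ‖riemannZeta (1 / 2 + (t : ℂ) * Complex.I)‖ ^ 4 ≤
          ((‖P0 e T (-t)‖ + Cs + Cz * Real.sqrt (Real.sqrt T) * g) + A) ^ 4 :=
        pow_le_pow_left₀ (norm_nonneg _) h1 4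
      have h3 := pow4_add2 (‖P0 e T (-t)‖ + Cs + Cz * Real.sqrt (Real.sqrt T) * g) A
      have h4 := pow4_add3 ‖P0 e T (-t)‖ Cs (Cz * Real.sqrt (Real.sqrt T) * g)
      have h5 : (Cz * Real.sqrt (Real.sqrt T) * g) ^ 4 ≤ Cz ^ 4 * T * g := by
        have h6 : (Real.sqrt (Real.sqrt T)) ^ 4 = T := by
          rw [show (4 : ℕ) = 2 * 2 from rfl, pow_mul, Real.sq_sqrt (Real.sqrt_nonneg T),
            Real.sq_sqrt hT0.le]
        have h7 : g ^ 4 ≤ g := by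
          calc g ^ 4 ≤ g ^ 1 := pow_le_pow_of_le_one hg0 hg1 (by norm_num)
            _ = g := pow_one g
        calc (Cz * Real.sqrt (Real.sqrt T) * g) ^ 4 = Cz ^ 4 * (Real.sqrt (Real.sqrt T)) ^ 4 * g ^ 4 := by
              ring
          _ ≤ Cz ^ 4 * T * g := by rw [h6]; (clear * - h7 hCz hT2; gcongr)
      have h8 : ‖riemannZeta (1 / 2 + (t : ℂ) * Complex.I)‖ ^ 4 ≤
          512 * ‖P0 e T (-t)‖ ^ 4 + 512 * Cs ^ 4 + 512 * (Cz ^ 4 * T * g) + 8 * A ^ 4 := by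
        (clear * - h2 h3 h4 h5; linarith)
      have h9 : w * (512 * (Cz ^ 4 * T * g)) ≤ 1 * (512 * (Cz ^ 4 * T * g)) :=
        mul_le_mul_of_nonneg_right hw1 (by positivity)
      rw [hg']
      have h10 := mul_le_mul_of_nonneg_left h8 hw0
      (clear * - h9 h10; linarith)
    have hP0 : Continuous (fun t => P0 e T (-t)) := (P0_cont e T).comp continuous_neg
    have s1 := lint_add2 (by fun_prop) (by positivity) (by clear * - hCv hCz hCa hCb hCt hT2; positivity) d2 d3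
    refine (lint_add3 (by fun_prop) (by fun_prop) (by positivity) (by positivity) (by clear * - hCz hT2 hCv hCa hCb hCt; positivity)
      d0 d1 s1 hA4).trans (ENNReal.ofReal_le_ofReal ?_)
    have h1 := one_le_pow_T he hT
    have e1 : 512 * Cs ^ 4 * (Real.sqrt Real.pi * T) ≤
        512 * Cs ^ 4 * Real.sqrt Real.pi * T ^ (1 + 9 * e) := by
      calc _ = 512 * Cs ^ 4 * Real.sqrt Real.pi * T := by ring
        _ ≤ _ := by clear * - h1 hCs; gcongr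
    have e2 : 512 * Cz ^ 4 * T * (Real.sqrt Real.pi * 1) ≤
        512 * Cz ^ 4 * Real.sqrt Real.pi * T ^ (1 + 9 * e) := by
      calc _ = 512 * Cz ^ 4 * Real.sqrt Real.pi * T := by ring
        _ ≤ _ := by clear * - h1 hCz; gcongr
    have e3 : 8 * (Cv * ((8 * Cz ^ 4 * Real.exp 9 * (24 * Ca) +
        (64 * Cz ^ 4 * Real.exp 9 * (12 * Cb) +
        64 * Cz ^ 4 * Real.exp 9 * Ct ^ 4 * (2 * Real.sqrt Real.pi))) * T ^ (1 + 9 * e))) =
        8 * D * T ^ (1 + 9 * e) := by rw [hD]; ring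
    rw [e3]
    (clear * - e1 e2; linarith)

theorem fourthMoment (ha : FMmv4a) (hb : FMmv4b) (hA : FMafe) : FourthMoment := by
  intro ε hε
  set e : ℝ := min ε 1 / 16 with hedef
  have hm : 0 < min ε 1 := lt_min hε one_pos
  have he : 0 < e := by positivity
  have he1 : e ≤ 1 / 16 := by
    have := min_le_right ε 1
    rw [hedef]; (clear * - this; linarith)
  have he2 : 9 * e ≤ ε := by
    have := min_le_left ε 1
    rw [hedef]; (clear * - hedef he this; linarith)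
  obtain ⟨C, hC, h⟩ := lint_zeta ha hb hA he he1
  refine ⟨C * 2 ^ (1 + ε), by positivity, fun T hT => ?_⟩
  have hT0 : 0 < T := by (clear * - he he1 hT; linarith)
  exact by
    have h1 := h (2 * T) (by (clear * - hT; linarith))
    have h2 : ∫⁻ t : ℝ, ENNReal.ofReal ‖Real.exp (-(t / T) ^ 2) *
        ‖riemannZeta (1 / 2 + (t : ℂ) * Complex.I)‖ ^ 4‖ ≤
        ENNReal.ofReal (C * (2 * T) ^ (1 + 9 * e)) := by
      refine (lintegral_mono fun t => ENNReal.ofReal_le_ofReal ?_).trans h1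
      rw [Real.norm_eq_abs, abs_of_nonneg (by positivity)]
      apply mul_le_mul_of_nonneg_right _ (by positivity)
      apply Real.exp_le_exp.mpr
      apply neg_le_neg
      rw [div_pow, div_pow]
      apply div_le_div_of_nonneg_left (sq_nonneg _) (by positivity)
      (clear * -; nlinarith)
    calc ∫ t : ℝ, Real.exp (-(t / T) ^ 2) * ‖riemannZeta (1 / 2 + (t : ℂ) * Complex.I)‖ ^ 4
        ≤ ‖∫ t : ℝ, Real.exp (-(t / T) ^ 2) * ‖riemannZeta (1 / 2 + (t : ℂ) * Complex.I)‖ ^ 4‖ :=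
          Real.le_norm_self _
      _ ≤ (∫⁻ t : ℝ, ENNReal.ofReal ‖Real.exp (-(t / T) ^ 2) *
        ‖riemannZeta (1 / 2 + (t : ℂ) * Complex.I)‖ ^ 4‖).toReal :=
          norm_integral_le_lintegral_norm _
      _ ≤ (ENNReal.ofReal (C * (2 * T) ^ (1 + 9 * e))).toReal :=
          ENNReal.toReal_mono ENNReal.ofReal_ne_top h2
      _ = C * (2 * T) ^ (1 + 9 * e) := ENNReal.toReal_ofReal (by positivity)
      _ ≤ C * (2 * T) ^ (1 + ε) := by
          apply mul_le_mul_of_nonneg_left _ hC.le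
          exact Real.rpow_le_rpow_of_exponent_le (by (clear * - he he1 hT; linarith)) (by linarith)
      _ = C * 2 ^ (1 + ε) * T ^ (1 + ε) := by
          rw [Real.mul_rpow (by norm_num) hT0.le]; ring

end Pool.Agent.M20.Helper52.KC
end

/- Helper53.KN.Helper91.KC.PowDP -/
section
/-!
# Project KS, module KC-15: powers of Dirichlet polynomials
-/

set_option autoImplicit false
set_option maxHeartbeats 4000000

open Finset

namespace Pool.Agent.M20.Helper91.KC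

open Pool.Agent.M20.Helper60.KS

/-- coefficients of the product -/
noncomputable def mulC (f : ℕ → ℂ) (P h : ℕ) (g : ℕ → ℂ) (Q h' : ℕ) (n : ℕ) : ℂ :=
  ∑ x ∈ n.divisorsAntidiagonal, (if x.1 ∈ Ioc P (h * P) then f x.1 else 0) *
    (if x.2 ∈ Ioc Q (h' * Q) then g x.2 else 0)

theorem DP_mul (f : ℕ → ℂ) (P h : ℕ) (g : ℕ → ℂ) (Q h' : ℕ) (s : ℂ) :
    DP f P h s * DP g Q h' s = DP (mulC f P h g Q h') (P * Q) (h * h') s := by
  unfold DP
  rw [Finset.sum_mul_sum, ← Finset.sum_product']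
  have hmap : ∀ p ∈ Ioc P (h * P) ×ˢ Ioc Q (h' * Q), p.1 * p.2 ∈ Ioc (P * Q) (h * h' * (P * Q)) := by
    intro p hp
    rw [Finset.mem_product, Finset.mem_Ioc, Finset.mem_Ioc] at hp
    rw [Finset.mem_Ioc]
    constructor
    · exact Nat.mul_lt_mul'' hp.1.1 hp.2.1
    · calc p.1 * p.2 ≤ (h * P) * (h' * Q) := Nat.mul_le_mul hp.1.2 hp.2.2
        _ = _ := by ring
  rw [← Finset.sum_fiberwise_of_maps_to hmap]
  refine Finset.sum_congr rfl fun n hn => ?_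
  rw [Finset.mem_Ioc] at hn
  have hn0 : n ≠ 0 := by omega
  unfold mulC
  rw [Finset.sum_mul]
  have e1 : ∑ x ∈ n.divisorsAntidiagonal, ((if x.1 ∈ Ioc P (h * P) then f x.1 else 0) *
      (if x.2 ∈ Ioc Q (h' * Q) then g x.2 else 0)) * (n : ℂ) ^ (-s) =
      ∑ x ∈ n.divisorsAntidiagonal.filter (fun x => x.1 ∈ Ioc P (h * P) ∧ x.2 ∈ Ioc Q (h' * Q)),
        f x.1 * g x.2 * (n : ℂ) ^ (-s) := by
    rw [Finset.sum_filter]
    refine Finset.sum_congr rfl fun x _ => ?_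
    by_cases h1 : x.1 ∈ Ioc P (h * P)
    · by_cases h2 : x.2 ∈ Ioc Q (h' * Q)
      · rw [if_pos h1, if_pos h2, if_pos ⟨h1, h2⟩]
      · rw [if_neg h2, if_neg (not_and_of_not_right _ h2), mul_zero, zero_mul]
    · rw [if_neg h1, if_neg (not_and_of_not_left _ h1), zero_mul, zero_mul]
  rw [e1]
  have e2 : (Ioc P (h * P) ×ˢ Ioc Q (h' * Q)).filter (fun p => p.1 * p.2 = n) =
      n.divisorsAntidiagonal.filter (fun x => x.1 ∈ Ioc P (h * P) ∧ x.2 ∈ Ioc Q (h' * Q)) := by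
    ext p
    rw [Finset.mem_filter, Finset.mem_filter, Finset.mem_product, Nat.mem_divisorsAntidiagonal]
    tauto
  rw [e2]
  refine Finset.sum_congr rfl fun p hp => ?_
  rw [Finset.mem_filter, Nat.mem_divisorsAntidiagonal] at hp
  rw [← hp.1.1]
  push_cast
  rw [Complex.natCast_mul_natCast_cpow]
  ring

theorem norm_mulC {f g : ℕ → ℂ} {P h Q h' : ℕ} {A B : ℝ} (hA : 0 ≤ A) (hB : 0 ≤ B)
    (hf : ∀ n, ‖f n‖ ≤ A) (hg : ∀ n ∈ Ioc Q (h' * Q), ‖g n‖ ≤ B) (n : ℕ) :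
    ‖mulC f P h g Q h' n‖ ≤ n.divisors.card * (A * B) := by
  unfold mulC
  refine (norm_sum_le _ _).trans ?_
  refine (Finset.sum_le_card_nsmul _ _ (A * B) fun x hx => ?_).trans ?_
  · rw [norm_mul]
    apply mul_le_mul _ _ (norm_nonneg _) hA
    · split_ifs
      · exact hf _
      · simpa using hA
    · split_ifs with h2
      · exact hg _ h2
      · simpa using hB
  · rw [nsmul_eq_mul]
    have : n.divisorsAntidiagonal.card = n.divisors.card := by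
      rw [← Nat.map_div_right_divisors, Finset.card_map]
    rw [this]

/-- truncation of the coefficients -/
theorem DP_trunc (f : ℕ → ℂ) (P h : ℕ) (s : ℂ) :
    DP (fun n => if n ∈ Ioc P (h * P) then f n else 0) P h s = DP f P h s := by
  unfold DP
  refine Finset.sum_congr rfl fun n hn => ?_
  simp only [hn, if_true]

theorem powDP : PowDP := by
  intro k ε hk hε
  induction k, hk using Nat.le_induction generalizing ε with
  | base =>
    obtain ⟨C, hC, hd⟩ := card_divisors_bound ε hε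
    refine ⟨C * 2 ^ ε, by positivity, ?_⟩
    intro g Q hQ hg
    refine ⟨fun n => if n ∈ Ioc Q (2 * Q) then g n else 0, ?_, ?_⟩
    · intro n
      beta_reduce
      split_ifs with h
      · rw [Finset.mem_Ioc] at h
        calc ‖g n‖ ≤ (n.divisors.card : ℝ) := hg n
          _ ≤ C * (n : ℝ) ^ ε := hd n (by omega)
          _ ≤ C * (2 * (Q : ℝ)) ^ ε := by
              apply mul_le_mul_of_nonneg_left _ (by positivity)
              apply Real.rpow_le_rpow (Nat.cast_nonneg _) _ hε.le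
              exact_mod_cast h.2
          _ = C * 2 ^ ε * (Q : ℝ) ^ ε := by
              rw [Real.mul_rpow (by norm_num) (Nat.cast_nonneg _)]
              ring
      · rw [norm_zero]
        positivity
    · intro s
      rw [pow_one, pow_one, pow_one, DP_trunc]
  | succ k hk ih =>
    obtain ⟨C1, hC1, h1⟩ := ih (ε / 3) (by positivity)
    obtain ⟨C2, hC2, h2⟩ := card_divisors_bound (ε / 3) (by positivity)
    obtain ⟨C3, hC3, h3⟩ := card_divisors_bound (ε / (3 * (k + 1))) (by positivity)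
    refine ⟨(C3 * (2 ^ (k + 1)) ^ (ε / (3 * (k + 1)))) * (C1 * (C2 * 2 ^ (ε / 3))), by positivity, ?_⟩
    intro g Q hQ hg
    have hQ0 : (0 : ℝ) < Q := by exact_mod_cast hQ
    obtain ⟨b, hb, hbs⟩ := h1 g Q hQ hg
    have hg' : ∀ n ∈ Ioc Q (2 * Q), ‖g n‖ ≤ C2 * 2 ^ (ε / 3) * (Q : ℝ) ^ (ε / 3) := by
      intro n h
      rw [Finset.mem_Ioc] at h
      calc ‖g n‖ ≤ (n.divisors.card : ℝ) := hg n
        _ ≤ C2 * (n : ℝ) ^ (ε / 3) := h2 n (by omega)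
        _ ≤ C2 * (2 * (Q : ℝ)) ^ (ε / 3) := by
            apply mul_le_mul_of_nonneg_left _ (by positivity)
            apply Real.rpow_le_rpow (Nat.cast_nonneg _) _ (by positivity)
            exact_mod_cast h.2
        _ = C2 * 2 ^ (ε / 3) * (Q : ℝ) ^ (ε / 3) := by
            rw [Real.mul_rpow (by norm_num) (Nat.cast_nonneg _)]
            ring
    refine ⟨fun n => if n ∈ Ioc (Q ^ (k + 1)) (2 ^ (k + 1) * Q ^ (k + 1)) then
      mulC b (Q ^ k) (2 ^ k) g Q 2 n else 0, ?_, ?_⟩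
    · intro n
      beta_reduce
      split_ifs with h
      · rw [Finset.mem_Ioc] at h
        have hn0 : 0 < n := by
          have := Nat.zero_le (Q ^ (k + 1))
          omega
        have e1 := norm_mulC (h := 2 ^ k) (P := Q ^ k) (by positivity) (by positivity) hb hg' n
        have e2 : (n.divisors.card : ℝ) ≤
            C3 * (2 ^ (k + 1)) ^ (ε / (3 * (k + 1))) * (Q : ℝ) ^ (ε / 3) := by
          calc (n.divisors.card : ℝ) ≤ C3 * (n : ℝ) ^ (ε / (3 * (k + 1))) := h3 n hn0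
            _ ≤ C3 * ((2 ^ (k + 1)) * (Q : ℝ) ^ (k + 1)) ^ (ε / (3 * (k + 1))) := by
                apply mul_le_mul_of_nonneg_left _ (by positivity)
                apply Real.rpow_le_rpow (Nat.cast_nonneg _) _ (by positivity)
                exact_mod_cast h.2
            _ = _ := by
                rw [Real.mul_rpow (by positivity) (by positivity), ← Real.rpow_natCast (Q : ℝ),
                  ← Real.rpow_mul hQ0.le]
                have : ((k + 1 : ℕ) : ℝ) * (ε / (3 * (k + 1))) = ε / 3 := by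
                  push_cast
                  field_simp
                rw [this]
                ring
        calc _ ≤ (n.divisors.card : ℝ) * (C1 * (Q : ℝ) ^ (ε / 3) *
              (C2 * 2 ^ (ε / 3) * (Q : ℝ) ^ (ε / 3))) := e1
          _ ≤ C3 * (2 ^ (k + 1)) ^ (ε / (3 * (k + 1))) * (Q : ℝ) ^ (ε / 3) *
              (C1 * (Q : ℝ) ^ (ε / 3) * (C2 * 2 ^ (ε / 3) * (Q : ℝ) ^ (ε / 3))) :=
              mul_le_mul_of_nonneg_right e2 (by positivity)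
          _ = (C3 * (2 ^ (k + 1)) ^ (ε / (3 * (k + 1)))) * (C1 * (C2 * 2 ^ (ε / 3))) *
              ((Q : ℝ) ^ (ε / 3) * (Q : ℝ) ^ (ε / 3) * (Q : ℝ) ^ (ε / 3)) := by ring
          _ = _ := by
              rw [← Real.rpow_add hQ0, ← Real.rpow_add hQ0]
              congr 2
              ring
      · rw [norm_zero]
        positivity
    · intro s
      have e1 := DP_trunc (mulC b (Q ^ k) (2 ^ k) g Q 2) (Q ^ (k + 1)) (2 ^ (k + 1)) s
      rw [e1, pow_succ, hbs s, DP_mul, pow_succ, pow_succ]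

end Pool.Agent.M20.Helper91.KC
end

/- Helper53.KN.Helper35.KE.ClassBound -/
section
/-! CountE2: the bound for one class of zeros, with the factor `P(ρ) = ∑_{M < p ≤ 2M} p^(-ρ)`, `M ~ X^θ`,
`0.48 ≤ θ ≤ 1/2`. -/

set_option autoImplicit false
set_option linter.all false
set_option maxHeartbeats 4000000
open Filter Topology
open scoped Classical

namespace Pool.Agent.M20.Helper35.KE
open Pool.Agent.M20.Helper60.KS Pool.Agent.M20.Helper60.KC

/-- coefficients of the prime polynomial -/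
noncomputable def prc (n : ℕ) : ℂ := if n.Prime then 1 else 0

/-- one class of zeros: height `T^(1/2+2d)`, real parts near `1 - x`, detected by `DP g N 2`, and with
`V ≤ |P(ρ)| ≤ 2 V` -/
def ClassBoundE2a (θ : ℝ) : Prop := ∀ ε0 δ d : ℝ, 0 < ε0 → ε0 ≤ 1/100 → δ = ε0 / 10 ^ 7 → 0 < d → d ≤ δ → ∃ X0 : ℝ,
  ∀ (X x V : ℝ) (M : ℕ) (Z : Finset ℂ) (c : ℂ → ℂ) (g : ℕ → ℂ) (N : ℕ) (U : Finset ℝ), X0 ≤ X → ε0 ≤ x →
  x ≤ 0.4 + δ → InStrip Z (1 - x) (1 - x + δ) (X ^ (1/2 + 2 * d) + 1) → Spaced1 Z →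
  (∀ n, ‖g n‖ ≤ (n.divisors.card : ℝ)) →
  X ^ δ / 2 ≤ N → (N : ℝ) ≤ X ^ (yy x / 2 + 45 * δ) → (∀ ρ ∈ Z, 1 / (16 * Real.log X) ≤ ‖DP g N 2 ρ‖) →
  X ^ θ / 4 ≤ M → (M : ℝ) ≤ X ^ θ → X ^ (-2 : ℝ) ≤ V →
  (∀ ρ ∈ Z, V ≤ ‖DP prc M 2 ρ‖ ∧ ‖DP prc M 2 ρ‖ ≤ 2 * V) →
  (∀ ρ ∈ Z, ‖c ρ‖ ≤ Real.log X ^ 2) → (∀ u ∈ U, Real.log X ≤ u ∧ u ≤ Real.log X + 1) →
  SpacedR U (1 / X ^ (1/2 + 2 * d)) →
  (∀ u ∈ U, 1 / Real.log X ^ 6 ≤ ‖∑ ρ ∈ Z, c ρ * DP prc M 2 ρ * Complex.exp ((ρ - 1) * (u : ℂ))‖) →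
  (U.card : ℝ) ≤ X ^ (0.17 : ℝ)

/-- hypotheses of `ClassBoundE2a` -/
structure Cls2 (θ ε0 δ d X x V : ℝ) (M : ℕ) (Z : Finset ℂ) (c : ℂ → ℂ) (g : ℕ → ℂ) (N : ℕ) (U : Finset ℝ) :
    Prop where
  ht0 : 0.48 ≤ θ
  ht1 : θ ≤ 1/2
  hx0 : ε0 ≤ x
  hx1 : x ≤ 0.4 + δ
  hs : InStrip Z (1 - x) (1 - x + δ) (X ^ (1/2 + 2 * d) + 1)
  hsp : Spaced1 Z
  hg : ∀ n, ‖g n‖ ≤ (n.divisors.card : ℝ)
  hN0 : X ^ δ / 2 ≤ N
  hN1 : (N : ℝ) ≤ X ^ (yy x / 2 + 45 * δ)
  hD : ∀ ρ ∈ Z, 1 / (16 * Real.log X) ≤ ‖DP g N 2 ρ‖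
  hM0 : X ^ θ / 4 ≤ M
  hM1 : (M : ℝ) ≤ X ^ θ
  hV : X ^ (-2 : ℝ) ≤ V
  hP : ∀ ρ ∈ Z, V ≤ ‖DP prc M 2 ρ‖ ∧ ‖DP prc M 2 ρ‖ ≤ 2 * V
  hc : ∀ ρ ∈ Z, ‖c ρ‖ ≤ Real.log X ^ 2
  hU : ∀ u ∈ U, Real.log X ≤ u ∧ u ≤ Real.log X + 1
  hUs : SpacedR U (1 / X ^ (1/2 + 2 * d))
  hS : ∀ u ∈ U, 1 / Real.log X ^ 6 ≤ ‖∑ ρ ∈ Z, c ρ * DP prc M 2 ρ * Complex.exp ((ρ - 1) * (u : ℂ))‖

lemma Cls2.toCls {θ ε0 δ d X x V : ℝ} {M : ℕ} {Z : Finset ℂ} {c : ℂ → ℂ} {g : ℕ → ℂ} {N : ℕ} {U : Finset ℝ}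
    (h : Cls2 θ ε0 δ d X x V M Z c g N U) : Cls ε0 δ d X x Z (fun _ => 0) g N ∅ where
  hx0 := h.hx0
  hx1 := h.hx1
  hs := h.hs
  hsp := h.hsp
  hg := h.hg
  hN0 := h.hN0
  hN1 := h.hN1
  hD := h.hD
  hc := fun ρ _ => by simp; positivity
  hU := by simp
  hUs := by intro u hu; simp at hu
  hS := by simp

lemma prc_le (n : ℕ) : ‖prc n‖ ≤ 1 := by
  unfold prc; split_ifs <;> simp

/-- size of `M` -/
lemma logM {θ ε0 δ d X x V : ℝ} {M : ℕ} {Z : Finset ℂ} {c : ℂ → ℂ} {g : ℕ → ℂ} {N : ℕ} {U : Finset ℝ}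
    (h : Cls2 θ ε0 δ d X x V M Z c g N U) (hX : 8 ≤ X) : 1 ≤ M ∧ Real.log M ≤ θ * Real.log X ∧
      θ * Real.log X - 2 ≤ Real.log M ∧ (M : ℝ) ≤ X ^ (1/2 + 2 * d) ∨ d ≤ 0 := by
  rcases le_or_gt d 0 with hd | hd
  · right; exact hd
  left
  have hX0 : (0:ℝ) < X := by (clear * - hX; linarith)
  have hp : (0:ℝ) < X ^ θ := Real.rpow_pos_of_pos hX0 _
  have hMp : (0:ℝ) < M := by (clear * - hp h; linarith [h.hM0])
  have hM1 : 1 ≤ M := by
    have : 0 < M := by exact_mod_cast hMp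
    omega
  refine ⟨hM1, ?_, ?_, ?_⟩
  · rw [← Real.log_rpow hX0]; exact Real.log_le_log hMp h.hM1
  · have h3 : Real.log (X ^ θ / 4) ≤ Real.log M := Real.log_le_log (by positivity) h.hM0
    rw [Real.log_div (by positivity) (by norm_num), Real.log_rpow hX0] at h3
    have h4 : Real.log 4 ≤ 2 := by
      rw [show (4:ℝ) = 2 ^ 2 by norm_num, Real.log_pow]; have := Real.log_two_lt_d9; push_cast; (clear * - this; linarith)
    (clear * - h3 h4; linarith)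
  · refine le_trans h.hM1 ?_
    exact Real.rpow_le_rpow_of_exponent_le (by (clear * - hX; linarith)) (by linarith [h.ht1])

/-- mean value bound for `P` -/
lemma Q1 (hMV : MVCount) {θ ε0 δ d : ℝ} (hp : Par ε0 δ d) :
    ∀ᶠ X : ℝ in atTop, ∀ (x V : ℝ) (M : ℕ) (Z : Finset ℂ) (c : ℂ → ℂ) (g : ℕ → ℂ) (N : ℕ) (U : Finset ℝ),
    Cls2 θ ε0 δ d X x V M Z c g N U → Z.Nonempty →
    Real.log Z.card + 2 * Real.log V ≤ (1/2 - θ + 2 * θ * x) * Real.log X + 40 * δ * Real.log X := by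
  have hδ := hp.dpos
  have hδ' := hp.dsmall
  have hd4 := hp.h4
  have hd5 := hp.h5
  obtain ⟨C, hC, hmv⟩ := hMV 2 (by norm_num)
  filter_upwards [base hp, small (Real.log C + 10 + Real.log 2) 2 δ hδ] with X hb hsm x V M Z c g N U h hZ
  obtain ⟨h8, hl, hN, hq0, hq1, hq2⟩ := hb x Z _ g N _ h.toCls
  have hx0 := h.hx0
  have hx1 := h.hx1
  have h1 := hp.h1
  obtain ⟨hT1, hT2, hT3⟩ := logT h8 hd4
  have hX0 : (0:ℝ) < X := by (clear * - hδ hδ' h8; linarith)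
  rcases logM h h8 with ⟨hM, hM1, hM2, hM3⟩ | hd0
  swap
  · (clear * - hd4 hd0; linarith)
  have hl0 : 0 < Real.log X := by (clear * - hδ hδ' hl; linarith)
  have hZc : (0:ℝ) < Z.card := by exact_mod_cast hZ.card_pos
  have hVp : 0 < V := lt_of_lt_of_le (Real.rpow_pos_of_pos hX0 _) h.hV
  set l := Real.log X with hldef
  set T := X ^ (1/2 + 2 * d) + 1 with hTdef
  have hmain := hmv Z prc M 1 V (1 - x) (1 - x + δ) T (1 / l) hM
    (by (clear * - hδ hδ' hT1; linarith)) (by (clear * - hl; positivity)) (by rw [div_le_div_iff₀ hl0 (by norm_num)]; (clear * - hδ hδ' hl; linarith)) (by (clear * - hδ hδ' hx1; linarith))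
    (by (clear * - hδ; linarith)) (by (clear * - hδ hδ'; linarith)) (by have := hp.h3; (clear * - hx0 h1 this; linarith)) hVp zero_le_one prc_le h.hs h.hsp
    (fun ρ hρ => (h.hP ρ hρ).1)
  have hMp : (0:ℝ) < (M:ℝ) := by exact_mod_cast hM
  have hlg := Real.log_le_log (by (clear * - hZ hVp; positivity)) hmain
  have hTM : T + (M:ℝ) ≤ 2 * T := by (clear * - hδ hδ' hM3; linarith)
  have hTp : 0 < T := by (clear * - hδ hδ' hT1; linarith)
  have hlTM : Real.log (T + M) ≤ Real.log 2 + Real.log T := by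
    rw [← Real.log_mul (by norm_num) hTp.ne']
    exact Real.log_le_log (by (clear * - hδ hδ' hT1 hMp; linarith)) hTM
  rw [Real.log_mul hZc.ne' (by positivity), Real.log_pow, Real.log_mul (by (clear * - hC hl h8 hM; positivity)) (by positivity),
    Real.log_mul (by positivity) (by positivity), Real.log_div (by positivity) (by positivity),
    Real.log_mul hC.ne' (by positivity), Real.log_pow, Real.log_pow, Real.log_div (by norm_num) hl0.ne',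
    Real.log_one, Real.log_rpow hMp] at hlg
  simp only [Nat.cast_ofNat] at hlg
  have htl : θ * l ≤ 1/2 * l := mul_le_mul_of_nonneg_right h.ht1 hl0.le
  have hqq : (2 * (1 / l)) * Real.log M ≤ 4 := by
    have : (2 * (1 / l)) * Real.log M = 2 * Real.log M / l := by ring
    rw [this, div_le_iff₀ hl0]; (clear * - hδ hδ' hl hM1 htl; linarith)
  have hexp : (1 - 2 * (1 - x) + 2 * (1 / l)) * Real.log M = -((1 - 2 * x) * Real.log M) +
      (2 * (1 / l)) * Real.log M := by ring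
  rw [hexp] at hlg
  have hm : (1 - 2 * x) * (θ * l - 2) ≤ (1 - 2 * x) * Real.log M :=
    mul_le_mul_of_nonneg_left hM2 (by (clear * - hδ hδ' hx1; linarith))
  have hdl : d * l ≤ δ * l := mul_le_mul_of_nonneg_right hd5 hl0.le
  have hdl0 : 0 ≤ δ * l := by (clear * - hδ hl; positivity)
  have hm2 : (1 - 2 * x) * (θ * l - 2) = θ * l - 2 * (θ * x * l) - 2 * (1 - 2 * x) := by ring
  rw [hm2] at hm
  have : (1/2 - θ + 2 * θ * x) * l = l / 2 - θ * l + 2 * (θ * x * l) := by ring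
  rw [this]
  (clear * - hδ hδ' hx0 h1 hsm hT3 hlg hlTM hqq hm hdl hdl0; linarith)

/-- general form of the S-lemma in a class -/
lemma SG (hS : SLemma) {θ ε0 δ d : ℝ} (hp : Par ε0 δ d) (hh : ℕ) (hh1 : 1 ≤ hh) :
    ∀ᶠ X : ℝ in atTop, ∀ (x V : ℝ) (M : ℕ) (Z : Finset ℂ) (c : ℂ → ℂ) (g : ℕ → ℂ) (N : ℕ) (U : Finset ℝ),
    Cls2 θ ε0 δ d X x V M Z c g N U → Z.Nonempty → U.Nonempty →
    ∀ (b : ℕ → ℂ) (Q : ℕ) (B VG ω : ℝ), 1 ≤ Q → Real.log Q ≤ 2 * Real.log X → 0 < B → 0 < VG →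
    (∀ n, ‖b n‖ ≤ B) → (∀ ρ ∈ Z, VG ≤ ‖DP b Q hh ρ‖) →
    2 * Real.log V + 2 * Real.log B - 2 * Real.log VG ≤ ω →
    Real.log Z.card + ω + 2 * x * Real.log Q ≤ (2 * x - 10 * δ) * Real.log X →
    Real.log U.card ≤ max (Real.log X / 2 + Real.log Z.card + ω - 2 * x * Real.log X - Real.log Q * (1 - 2 * x))
      (4 * (Real.log X / 2 + Real.log Z.card + ω - 2 * x * Real.log X - Real.log Q * (1 - 2 * x)) -
        Real.log X / 2) + 40 * δ * Real.log X := by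
  have hδ := hp.dpos
  have hδ' := hp.dsmall
  have hd4 := hp.h4
  have hd5 := hp.h5
  obtain ⟨C, hC, hmv⟩ := hS hh (δ / 10) hh1 (by (clear * - hδ; positivity))
  filter_upwards [base hp, small (Real.log C + 6 * Real.log 2 + 1) 16 δ hδ] with
    X hb hsm x V M Z c g N U h hZ hU b Q B VG ω hQ hkq hB hVG hb1 hb2 hω hcond
  obtain ⟨h8, hl, hN, hq0, hq1, hq2⟩ := hb x Z _ g N _ h.toCls
  have hx0 := h.hx0
  have hx1 := h.hx1
  have h1 := hp.h1
  have h3 := hp.h3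
  obtain ⟨hT1, hT2, hT3⟩ := logT h8 hd4
  have hl0 : 0 < Real.log X := by (clear * - hδ hδ' hl; linarith)
  have hZc : (0:ℝ) < Z.card := by exact_mod_cast hZ.card_pos
  have hUc : (0:ℝ) < U.card := by exact_mod_cast hU.card_pos
  have hTX := T_le h8 hl hd4 (by (clear * - hδ' hd5; linarith))
  have hX0 : (0:ℝ) < X := by (clear * - hδ hδ' h8; linarith)
  have hVp : 0 < V := lt_of_lt_of_le (Real.rpow_pos_of_pos hX0 _) h.hV
  have hQpos : (0:ℝ) < (Q : ℝ) := by exact_mod_cast hQ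
  have hQX : (Q : ℝ) ≤ X ^ 2 := by
    rw [← Real.log_le_log_iff hQpos (by positivity), Real.log_pow]
    simpa using hkq
  have hspT : SpacedR U (1 / (X ^ (1/2 + 2 * d) + 1)) := by
    intro u hu u' hu' hne
    refine le_trans ?_ (h.hUs u hu u' hu' hne)
    apply one_div_le_one_div_of_le (by (clear * - hδ hδ' hT1; linarith)) (by (clear * - hδ hδ'; linarith))
  set l := Real.log X with hldef
  set T := X ^ (1/2 + 2 * d) + 1 with hTdef
  have hTp : 0 < T := by (clear * - hδ hδ' hT1; linarith)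
  have hlQ0 : 0 ≤ Real.log Q := Real.log_nonneg (by exact_mod_cast hQ)
  have hcP : ∀ ρ ∈ Z, ‖c ρ * DP prc M 2 ρ‖ ≤ l ^ 2 * (2 * V) := by
    intro ρ hρ
    rw [norm_mul]
    exact mul_le_mul (h.hc ρ hρ) (h.hP ρ hρ).2 (norm_nonneg _) (pow_nonneg hl0.le 2)
  have hmain := hmv X T (1 - x) (1 - x + δ) B VG (l ^ 2 * (2 * V)) (1 / l ^ 6) Z (fun ρ => c ρ * DP prc M 2 ρ)
    b Q U h8 (by (clear * - hδ hδ' hT1; linarith)) hTX hQ hQX (by (clear * - hδ hδ' hx1; linarith)) (by (clear * - hδ; linarith)) (by (clear * - hδ hδ'; linarith)) (by (clear * - hx0 h1 h3; linarith)) hVG hB.le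
    (by (clear * - hl hVp; positivity)) (by (clear * - hl; positivity)) hb1 h.hs h.hsp hb2 hcP h.hU hspT h.hS
  have q1 : 0 < X ^ (δ / 10) := Real.rpow_pos_of_pos hX0 _
  have q2 : 0 < l ^ 2 * (2 * V) := mul_pos (pow_pos hl0 2) (mul_pos two_pos hVp)
  have q3 : 0 < X ^ (2 * (1 - x + δ - 1)) := Real.rpow_pos_of_pos hX0 _
  have q4 : 0 < (Q : ℝ) ^ (-2 * (1 - x)) := Real.rpow_pos_of_pos hQpos _
  set P : ℝ := C * X ^ (δ / 10) * Z.card * (l ^ 2 * (2 * V)) ^ 2 * B ^ 2 * T * X ^ (2 * (1 - x + δ - 1)) *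
    (Q : ℝ) ^ (-2 * (1 - x)) with hPdef
  set D : ℝ := (1 / l ^ 6) ^ 2 * VG ^ 2 with hDdef
  have p1 : 0 < C * X ^ (δ / 10) := mul_pos hC q1
  have p2 := mul_pos p1 hZc
  have p3 := pow_pos q2 2
  have p4 := mul_pos p2 p3
  have p5 := pow_pos hB 2
  have p6 := mul_pos p4 p5
  have p7 := mul_pos p6 hTp
  have p8 := mul_pos p7 q3
  have hPp : 0 < P := mul_pos p8 q4
  have l6 := pow_pos hl0 6
  have l7 := pow_pos (div_pos one_pos l6) 2
  have v2 := pow_pos hVG 2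
  have hDp : 0 < D := mul_pos l7 v2
  have hlogP : Real.log P = Real.log C + δ / 10 * l + Real.log Z.card + 4 * Real.log l + 2 * Real.log 2 +
      2 * Real.log V + 2 * Real.log B + Real.log T + 2 * (-x + δ) * l - 2 * (1 - x) * Real.log Q := by
    rw [hPdef, Real.log_mul p8.ne' q4.ne', Real.log_mul p7.ne' q3.ne', Real.log_mul p6.ne' hTp.ne',
      Real.log_mul p4.ne' p5.ne', Real.log_mul p2.ne' p3.ne', Real.log_mul p1.ne' hZc.ne',
      Real.log_mul hC.ne' q1.ne', Real.log_pow, Real.log_mul (pow_pos hl0 2).ne' (mul_pos two_pos hVp).ne',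
      Real.log_mul two_ne_zero hVp.ne', Real.log_pow, Real.log_pow,
      Real.log_rpow hX0, Real.log_rpow hX0, Real.log_rpow hQpos]
    simp only [Nat.cast_ofNat]
    (clear * -; ring)
  have hlogD : Real.log D = -(12 * Real.log l) + 2 * Real.log VG := by
    rw [hDdef, Real.log_mul l7.ne' v2.ne', Real.log_pow, Real.log_pow,
      Real.log_div one_ne_zero l6.ne', Real.log_pow, Real.log_one]
    simp only [Nat.cast_ofNat]
    (clear * -; ring)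
  have hdl0 : 0 ≤ δ * l := (mul_pos hδ hl0).le
  have hdl : d * l ≤ δ * l := mul_le_mul_of_nonneg_right hd5 hl0.le
  have hlog2 : 0 ≤ Real.log 2 := Real.log_nonneg (by norm_num)
  have hQ2 := pow_pos hQpos 2
  have hPQ := mul_pos hPp hQ2
  have hc1 : P * (Q:ℝ) ^ 2 / T ≤ D / 2 := by
    rw [← Real.log_le_log_iff (div_pos hPQ hTp) (half_pos hDp), Real.log_div hPQ.ne' hTp.ne',
      Real.log_mul hPp.ne' hQ2.ne', Real.log_pow, Real.log_div hDp.ne' two_ne_zero, hlogP, hlogD]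
    simp only [Nat.cast_ofNat]
    (clear * - hδ hδ' hω hsm hcond hdl0 hlog2; linarith)
  have hU3 := pow_pos hUc 3
  have hUT := div_pos hU3 hTp
  have hUr : 0 < ((U.card : ℝ) ^ 3 / T) ^ (1/4 : ℝ) := Real.rpow_pos_of_pos hUT _
  set M' : ℝ := 1 + ((U.card : ℝ) ^ 3 / T) ^ (1/4 : ℝ) with hM'def
  have hM'p : 0 < M' := add_pos one_pos hUr
  have hc2 : D * U.card ≤ 2 * P * Q * M' := by
    have e1 : D * (U.card : ℝ) ^ 2 ≤ P * (U.card * Q * M' + (U.card : ℝ) ^ 2 * (Q:ℝ) ^ 2 / T) := by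
      calc D * (U.card : ℝ) ^ 2 = (U.card : ℝ) ^ 2 * (1 / l ^ 6) ^ 2 * VG ^ 2 := by
            rw [hDdef]; ring
        _ ≤ _ := hmain
    have e2 : P * (U.card * Q * M' + (U.card : ℝ) ^ 2 * (Q:ℝ) ^ 2 / T) =
        U.card * (P * Q * M') + (U.card : ℝ) ^ 2 * (P * (Q:ℝ) ^ 2 / T) := by (clear * -; ring)
    have e3 : (U.card : ℝ) ^ 2 * (P * (Q:ℝ) ^ 2 / T) ≤ (U.card : ℝ) ^ 2 * (D / 2) :=
      mul_le_mul_of_nonneg_left hc1 (sq_nonneg _)
    have e4 : U.card * (D * U.card) ≤ U.card * (2 * P * Q * M') := by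
      rw [e2] at e1
      rw [show 2 * P * (Q : ℝ) * M' = 2 * (P * Q * M') by ring]
      generalize P * (Q : ℝ) * M' = W at e1 ⊢
      generalize P * (Q:ℝ) ^ 2 / T = W2 at e1 e3
      (clear * - e1 e3; linarith)
    exact le_of_mul_le_mul_left e4 hUc
  have hlg := Real.log_le_log (mul_pos hDp hUc) hc2
  have h2P := mul_pos (two_pos : (0 : ℝ) < 2) hPp
  rw [Real.log_mul hDp.ne' hUc.ne', Real.log_mul (mul_pos h2P hQpos).ne' hM'p.ne',
    Real.log_mul h2P.ne' hQpos.ne', Real.log_mul two_ne_zero hPp.ne', hlogP, hlogD] at hlg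
  rcases log_add_le one_pos hUr with hc | hc
  · refine le_trans ?_ (add_le_add_left (le_max_left _ _) _)
    rw [Real.log_one] at hc
    (clear * - hω hsm hT3 hdl0 hdl hlog2 hlg hc; linarith)
  · refine le_trans ?_ (add_le_add_left (le_max_right _ _) _)
    rw [Real.log_rpow hUT, Real.log_div hU3.ne' hTp.ne', Real.log_pow] at hc
    simp only [Nat.cast_ofNat] at hc
    (clear * - hδ hδ' hω hsm hT3 hdl0 hdl hlog2 hlg hc; linarith)

/-- S-lemma with the powers of the detecting polynomial -/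
lemma P4' (hS : SLemma) (hP : PowDP) {θ ε0 δ d : ℝ} (hp : Par ε0 δ d) (k : ℕ) (hk : 1 ≤ k) :
    ∀ᶠ X : ℝ in atTop, ∀ (x V : ℝ) (M : ℕ) (Z : Finset ℂ) (c : ℂ → ℂ) (g : ℕ → ℂ) (N : ℕ) (U : Finset ℝ),
    Cls2 θ ε0 δ d X x V M Z c g N U → Z.Nonempty → U.Nonempty → (k : ℝ) * Real.log N ≤ 2 * Real.log X →
    Real.log Z.card + 2 * Real.log V + 2 * x * (k * Real.log N) ≤ (2 * x - 50 * δ) * Real.log X →
    Real.log U.card ≤ max (Real.log X / 2 + Real.log Z.card + 2 * Real.log V - 2 * x * Real.log X -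
        k * Real.log N * (1 - 2 * x))
      (4 * (Real.log X / 2 + Real.log Z.card + 2 * Real.log V - 2 * x * Real.log X - k * Real.log N * (1 - 2 * x)) -
        Real.log X / 2) + 44 * δ * Real.log X := by
  have hδ := hp.dpos
  have hδ' := hp.dsmall
  obtain ⟨C1, hC1, hpc⟩ := pow_class hP hp k hk (δ / 10) (by positivity)
  filter_upwards [base hp, hpc, SG hS hp (2 ^ k) (Nat.one_le_two_pow),
    small (2 * Real.log C1 + 2 * k * Real.log 16) (2 * k) (δ / 2) (by positivity)] with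
    X hb hpc hsg hsm x V M Z c g N U h hZ hU hkq hcond
  obtain ⟨h8, hl, hN, hq0, hq1, hq2⟩ := hb x Z _ g N _ h.toCls
  obtain ⟨b, hb1, hb2⟩ := hpc x Z _ g N _ h.toCls
  have hN' : (1:ℝ) ≤ N := by exact_mod_cast hN
  have hQ : 1 ≤ N ^ k := Nat.one_le_pow _ _ (by omega)
  have hl0 : 0 < Real.log X := by (clear * - hδ hδ' hl; linarith)
  have hkk : (1:ℝ) ≤ k := by exact_mod_cast hk
  have hlogQ : Real.log ((N ^ k : ℕ) : ℝ) = k * Real.log N := by push_cast; rw [Real.log_pow]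
  have hdl0 : 0 ≤ δ * Real.log X := by positivity
  have hdq : δ / 10 * Real.log N ≤ δ / 10 * Real.log X := mul_le_mul_of_nonneg_left hq2 (by positivity)
  have h1 := hsg x V M Z c g N U h hZ hU b (N ^ k) (C1 * (N:ℝ) ^ (δ / 10)) ((1 / (16 * Real.log X)) ^ k)
    (2 * Real.log V + δ * Real.log X) hQ (by rw [hlogQ]; exact hkq) (by (clear * - hC1 hN; positivity)) (by positivity) hb1 hb2
    (by
      rw [Real.log_mul hC1.ne' (by positivity), Real.log_rpow (by (clear * - hδ hδ' hN'; linarith)), Real.log_pow,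
        Real.log_div (by norm_num) (by positivity), Real.log_one, Real.log_mul (by norm_num) hl0.ne']
      (clear * - hsm hdl0 hdq; linarith))
    (by rw [hlogQ]; (clear * - hcond hdl0; linarith))
  rw [hlogQ] at h1
  refine le_trans h1 ?_
  set A := Real.log X / 2 + Real.log Z.card + 2 * Real.log V - 2 * x * Real.log X - k * Real.log N * (1 - 2 * x)
    with hA
  have hm1 := le_max_left A (4 * A - Real.log X / 2)
  have hm2 := le_max_right A (4 * A - Real.log X / 2)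
  have : max (Real.log X / 2 + Real.log Z.card + (2 * Real.log V + δ * Real.log X) - 2 * x * Real.log X -
      k * Real.log N * (1 - 2 * x)) (4 * (Real.log X / 2 + Real.log Z.card + (2 * Real.log V + δ * Real.log X) -
      2 * x * Real.log X - k * Real.log N * (1 - 2 * x)) - Real.log X / 2) ≤
      max A (4 * A - Real.log X / 2) + 4 * (δ * Real.log X) := by
    apply max_le
    · (clear * - hdl0 hA hm1; linarith)
    · (clear * - hA hm2; linarith)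
  (clear * - this; linarith)

/-- S-lemma with `P` itself -/
lemma P5' (hS : SLemma) {θ ε0 δ d : ℝ} (hp : Par ε0 δ d) :
    ∀ᶠ X : ℝ in atTop, ∀ (x V : ℝ) (M : ℕ) (Z : Finset ℂ) (c : ℂ → ℂ) (g : ℕ → ℂ) (N : ℕ) (U : Finset ℝ),
    Cls2 θ ε0 δ d X x V M Z c g N U → Z.Nonempty → U.Nonempty →
    Real.log Z.card ≤ ((2 - 2 * θ) * x - 50 * δ) * Real.log X →
    Real.log U.card ≤ max ((1/2 - θ) * Real.log X + Real.log Z.card - (2 - 2 * θ) * x * Real.log X)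
      (4 * ((1/2 - θ) * Real.log X + Real.log Z.card - (2 - 2 * θ) * x * Real.log X) - Real.log X / 2) +
        44 * δ * Real.log X := by
  have hδ := hp.dpos
  have hδ' := hp.dsmall
  have hd4 := hp.h4
  filter_upwards [base hp, SG hS hp 2 (by norm_num), small 2 0 δ hδ] with
    X hb hsg hsm x V M Z c g N U h hZ hU hcond
  obtain ⟨h8, hl, hN, hq0, hq1, hq2⟩ := hb x Z _ g N _ h.toCls
  have hX0 : (0:ℝ) < X := by (clear * - hδ hδ' h8; linarith)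
  rcases logM h h8 with ⟨hM, hM1, hM2, hM3⟩ | hd0
  swap
  · (clear * - hd4 hd0; linarith)
  have hVp : 0 < V := lt_of_lt_of_le (Real.rpow_pos_of_pos hX0 _) h.hV
  have hl0 : 0 < Real.log X := by (clear * - hδ hδ' hl; linarith)
  have hdl0 : 0 ≤ δ * Real.log X := by positivity
  have hx0 := h.hx0
  have hx1 := h.hx1
  have h1' := hp.h1
  have hxM : 2 * x * Real.log M ≤ 2 * x * (θ * Real.log X) := mul_le_mul_of_nonneg_left hM1 (by (clear * - hx0 h1'; linarith))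
  have ht1 := h.ht1
  have htl : θ * Real.log X ≤ 1/2 * Real.log X := mul_le_mul_of_nonneg_right ht1 hl0.le
  have h1 := hsg x V M Z c g N U h hZ hU prc M 1 V 0 hM (by (clear * - hδ hδ' hl hM1 htl; linarith)) one_pos hVp prc_le
    (fun ρ hρ => (h.hP ρ hρ).1) (by rw [Real.log_one]; (clear * -; linarith)) (by (clear * - hδ hδ' hsm hcond hxM; linarith))
  refine le_trans h1 ?_
  have hm : (1 - 2 * x) * (θ * Real.log X - 2) ≤ (1 - 2 * x) * Real.log M :=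
    mul_le_mul_of_nonneg_left hM2 (by (clear * - hδ hδ' hx1; linarith))
  set A := (1/2 - θ) * Real.log X + Real.log Z.card - (2 - 2 * θ) * x * Real.log X with hA
  have hm1 := le_max_left A (4 * A - Real.log X / 2)
  have hm2 := le_max_right A (4 * A - Real.log X / 2)
  have hA2 : Real.log X / 2 + Real.log Z.card + 0 - 2 * x * Real.log X - Real.log M * (1 - 2 * x) ≤
      A + δ * Real.log X := by
    rw [hA]; (clear * - hsm hM2 hxM; linarith)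
  have : max (Real.log X / 2 + Real.log Z.card + 0 - 2 * x * Real.log X - Real.log M * (1 - 2 * x))
      (4 * (Real.log X / 2 + Real.log Z.card + 0 - 2 * x * Real.log X - Real.log M * (1 - 2 * x)) -
      Real.log X / 2) ≤ max A (4 * A - Real.log X / 2) + 4 * (δ * Real.log X) := by
    apply max_le
    · (clear * - hδ hδ' hsm hM2 hxM hA hm1; linarith)
    · (clear * - hsm hM2 hxM hA hm2; linarith)
  (clear * - this; linarith)

theorem classBoundE2a_of (h1 : MVCount) (h2 : HuxleyCount) (h3 : SLemma) (h6 : PowDP) (θ : ℝ) (ht0 : 0.48 ≤ θ)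
    (ht1 : θ ≤ 1/2) : ClassBoundE2a θ := by
  intro ε0 δ d e1 e2 e3 e4 e5
  have hp : Par ε0 δ d := ⟨e1, e2, e3, e4, e5⟩
  have hδ := hp.dpos
  have hδ' := hp.dsmall
  have hall : ∀ᶠ X : ℝ in atTop, ∀ k ∈ Finset.Icc 1 ⌈(8:ℝ) / δ⌉₊,
      ∀ (x V : ℝ) (M : ℕ) (Z : Finset ℂ) (c : ℂ → ℂ) (g : ℕ → ℂ) (N : ℕ) (U : Finset ℝ),
      Cls2 θ ε0 δ d X x V M Z c g N U → Z.Nonempty → U.Nonempty → (k : ℝ) * Real.log N ≤ 2 * Real.log X →
      (Real.log Z.card ≤ max (2 * x * (k * Real.log N))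
        (Real.log X / 2 - k * Real.log N * (2 - 6 * x)) + 40 * δ * Real.log X) ∧
      (Real.log Z.card + 2 * Real.log V + 2 * x * (k * Real.log N) ≤ (2 * x - 50 * δ) * Real.log X →
        Real.log U.card ≤ max (Real.log X / 2 + Real.log Z.card + 2 * Real.log V - 2 * x * Real.log X -
          k * Real.log N * (1 - 2 * x))
        (4 * (Real.log X / 2 + Real.log Z.card + 2 * Real.log V - 2 * x * Real.log X -
          k * Real.log N * (1 - 2 * x)) - Real.log X / 2) + 44 * δ * Real.log X) := by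
    rw [Filter.eventually_all_finset]
    intro k hk
    have hk1 : 1 ≤ k := (Finset.mem_Icc.mp hk).1
    filter_upwards [P2 h2 h6 hp k hk1, P4' (θ := θ) h3 h6 hp k hk1]
      with X b c' x V M Z c g N U hcl hZ hU hkq
    exact ⟨b x Z _ g N _ hcl.toCls hZ hkq, c' x V M Z c g N U hcl hZ hU hkq⟩
  obtain ⟨X0, hX0⟩ := (eventually_atTop.mp ((base hp).and ((Q1 (θ := θ) h1 hp).and ((P5' (θ := θ) h3 hp).and hall))))
  refine ⟨X0, fun X x V M Z c g N U hX f1 f2 f3 f4 f5 f6 f7 f8 g1 g2 g3 g4 f9 f10 f11 f12 => ?_⟩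
  obtain ⟨hb, hQ1, hP5, hA⟩ := hX0 X hX
  have hcl : Cls2 θ ε0 δ d X x V M Z c g N U :=
    ⟨ht0, ht1, f1, f2, f3, f4, f5, f6, f7, f8, g1, g2, g3, g4, f9, f10, f11, f12⟩
  obtain ⟨h8, hl, hN, hq0, hq1, hq2⟩ := hb x Z _ g N _ hcl.toCls
  have hXp : (0:ℝ) < X := by (clear * - h8; linarith)
  rcases Finset.eq_empty_or_nonempty U with hU | hU
  · rw [hU]; simp; positivity
  rcases Finset.eq_empty_or_nonempty Z with hZ | hZ
  · exfalso
    obtain ⟨u, hu⟩ := hU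
    have := f12 u hu
    rw [hZ] at this
    simp only [Finset.sum_empty, norm_zero] at this
    have hl6 : 0 < 1 / Real.log X ^ 6 := by positivity
    (clear * - this hl6; linarith)
  have hz1 := hQ1 x V M Z c g N U hcl hZ
  have hz2 := hP5 x V M Z c g N U hcl hZ hU
  have hA' := fun k hk => hA k hk x V M Z c g N U hcl hZ hU
  have hUc : (0:ℝ) < U.card := by exact_mod_cast hU.card_pos
  set l := Real.log X with hldef
  set q := Real.log N with hqdef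
  have hl0 : 0 < l := by (clear * - hl; linarith)
  have hq : 0 < q := lt_of_lt_of_le (by (clear * - hδ hl; positivity)) hq0
  have hn : δ ≤ 2 * q / l := by
    rw [le_div_iff₀ hl0]; (clear * - hq0; linarith)
  have hnp : 0 < 2 * q / l := by (clear * - hq hl; positivity)
  have key : ∀ k : ℕ, 1 ≤ k → (k : ℝ) ≤ 4 / (2 * q / l) → k ∈ Finset.Icc 1 ⌈(8:ℝ) / δ⌉₊ ∧ (k : ℝ) * q ≤ 2 * l := by
    intro k hk hk4
    have hk5 : (k:ℝ) * (2 * q / l) ≤ 4 := by rwa [le_div_iff₀ hnp] at hk4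
    constructor
    · rw [Finset.mem_Icc]
      refine ⟨hk, ?_⟩
      have : (k:ℝ) ≤ 8 / δ := by
        rw [le_div_iff₀ hδ]
        have : (k:ℝ) * δ ≤ k * (2 * q / l) := mul_le_mul_of_nonneg_left hn (by (clear * - hk; positivity))
        (clear * - hk5 this; linarith)
      exact_mod_cast le_trans this (Nat.le_ceil _)
    · have : (k:ℝ) * (2 * q / l) = 2 * (k * q) / l := by ring
      rw [this, div_le_iff₀ hl0] at hk5
      (clear * - hk5; linarith)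
  have he : 2 * (40 * δ * l) / l ≤ 100 * δ := by
    rw [div_le_iff₀ hl0]; (clear * - hδ hl0; linarith [mul_pos hδ hl0])
  have he' : 2 * (44 * δ * l) / l ≤ 100 * δ := by
    rw [div_le_iff₀ hl0]; (clear * - hδ hl0; linarith [mul_pos hδ hl0])
  have htp : 0 < θ := by (clear * - ht0; linarith)
  set y : ℝ := x - Real.log V / (θ * l) with hydef
  have hyv : 2 * θ * y = 2 * θ * x - 2 * Real.log V / l := by
    rw [hydef]; (clear * - hl ht0; field_simp)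
  have hdl0 : 0 ≤ δ * l := by (clear * - hδ hl; positivity)
  set e : ℝ := 1 - 2 * θ with hedef
  have hyv' : 2 * ((1 + e) * x + (1 - e) * y) = 4 * x - 4 * Real.log V / l := by
    have : 2 * ((1 + e) * x + (1 - e) * y) = 4 * x - 4 * θ * x + 2 * (2 * θ * y) := by rw [hedef]; ring
    rw [this, hyv]; ring
  have hfin := numericE2 e (by rw [hedef]; (clear * - ht1; linarith)) (by rw [hedef]; (clear * - ht0; linarith)) ε0 e1 e2 (100 * δ) x (2 * q / l) y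
    (2 * Real.log Z.card / l) (2 * Real.log U.card / l)
    (by positivity) (by rw [e3]; (clear * -; linarith)) f1 (by (clear * - e4 e5 f2; linarith)) hnp
    (by
      rw [div_le_iff₀ hl0]
      have : (yy x + 100 * δ) * l = 2 * ((yy x / 2 + 45 * δ) * l) + 10 * δ * l := by ring
      rw [this]
      (clear * - hq1 hdl0; linarith))
    (by
      intro k hk hk4
      obtain ⟨g1, g2⟩ := key k hk hk4
      obtain ⟨a2, a3⟩ := hA' k g1 g2
      exact conv hl0 a2 (by (clear * - hl hq hk; field_simp)) (by (clear * - hl; field_simp)) he)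
    (by
      have h9 : 2 * (1 - e) * y = 4 * (θ * x) - 4 * Real.log V / l := by
        have : 2 * (1 - e) * y = 2 * (2 * θ * y) := by rw [hedef]; ring
        rw [this, hyv]; ring
      rw [h9]
      have h10 : 2 * Real.log Z.card / l + 4 * Real.log V / l ≤ 4 * (θ * x) + e + 100 * δ := by
        rw [← add_div, div_le_iff₀ hl0]
        have h11 : (4 * (θ * x) + e + 100 * δ) * l = 2 * ((1/2 - θ + 2 * θ * x) * l) + 100 * (δ * l) := by
          rw [hedef]; ring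
        rw [h11]
        (clear * - hz1 hdl0; linarith)
      (clear * - h10; linarith))
    (by
      intro hr
      have h11 : Real.log Z.card ≤ ((2 - 2 * θ) * x - 50 * δ) * l := by
        rw [div_le_iff₀ hl0] at hr
        have h12 : (2 * (1 + e) * x - 100 * δ) * l = 2 * (((2 - 2 * θ) * x - 50 * δ) * l) := by
          rw [hedef]; ring
        rw [h12] at hr
        (clear * - hr; linarith)
      exact conv hl0 (hz2 h11) (by rw [hedef]; field_simp; ring) (by rw [hedef]; field_simp; ring) he')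
    (by
      intro k hk hk4 hcond
      obtain ⟨g1, g2⟩ := key k hk hk4
      obtain ⟨a2, a3⟩ := hA' k g1 g2
      have h9 : Real.log Z.card + 2 * Real.log V + 2 * x * (k * q) ≤ (2 * x - 50 * δ) * l := by
        have e6 : 2 * ((1 + e) * x + (1 - e) * y) - 100 * δ = 2 * ((2 * x - 50 * δ) * l - 2 * Real.log V) / l := by
          rw [hyv']; field_simp; ring
        have e7 : 2 * Real.log Z.card / l + 2 * x * (k * (2 * q / l)) = 2 * (Real.log Z.card + 2 * x * (k * q)) / l := by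
          ring
        rw [e6, e7, div_le_div_iff_of_pos_right hl0] at hcond
        (clear * - hcond; linarith)
      refine conv hl0 (a3 h9) ?_ ?_ he'
      · rw [hyv']
        field_simp; ring
      · rw [hyv']
        field_simp; ring)
  rw [div_le_iff₀ hl0] at hfin
  rw [← Real.log_le_log_iff hUc (by positivity), Real.log_rpow hXp]
  (clear * - hfin; linarith)

/-- the form used by helper60 -/
theorem classBoundE2 (h1 : MVCount) (h2 : HuxleyCount) (h3 : SLemma) (h6 : PowDP) :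
    Pool.Agent.M20.Helper60.KS.ClassBoundE2 := by
  intro ε0 δ d e1 e2 e3 e4 e5
  obtain ⟨X0, h⟩ := classBoundE2a_of h1 h2 h3 h6 0.495 (by norm_num) (by norm_num) (ε0 / 10) δ d (by positivity)
    (by (clear * - e2; linarith)) (by rw [e3]; ring) e4 e5
  refine ⟨max X0 1, fun X x V Z c g N M U hX f1 f2 hM0 hM1 hV f3 f4 f5 f6 f7 f8 f9 f10 f11 f12 f13 => ?_⟩
  have hX1 : 1 ≤ X := le_trans (le_max_right _ _) hX
  have h3 := h X x V M Z c g N U (le_trans (le_max_left _ _) hX) (by (clear * - e1 f1; linarith)) f2 f3 f4 f5 f6 f7 f8 hM0 hM1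
    (le_trans (Real.rpow_le_rpow_of_exponent_le hX1 (by norm_num)) hV) f9 f10 f11 f12 f13
  exact le_trans h3 (Real.rpow_le_rpow_of_exponent_le hX1 (by norm_num))

end Pool.Agent.M20.Helper35.KE
end
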