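import Mathlib
import Pool.Agent.Helper53.KO.G04
import Pool.Agent.Helper53.KO.G05
import Pool.Agent.Helper53.KO.G09
import Pool.Agent.Helper53.KO.G13
import Pool.Agent.Helper53.KO.G18

set_option linter.all false

/- Helper53.KN.Helper1.KC.SLemma -/
section
/-! KC-6: SLemma (6.7) (project KSZ, MP_768c9c_nt). -/

set_option autoImplicit false
open Filter Topology
open scoped Classical ComplexConjugate

namespace Pool.Agent.M20.Helper1.KC

open Pool.Agent.M20.Helper60.KS

/-- unimodular factor -/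
noncomputable def eta (z : ℂ) : ℂ := if z = 0 then 0 else conj z / ‖z‖

theorem norm_eta_le (z : ℂ) : ‖eta z‖ ≤ 1 := by
  unfold eta
  split_ifs with h
  · simp
  · rw [norm_div, Complex.norm_conj, Complex.norm_real, norm_norm, div_self (norm_ne_zero_iff.2 h)]

theorem eta_mul (z : ℂ) : eta z * z = ‖z‖ := by
  unfold eta
  split_ifs with h
  · simp [h]
  · have h1 : (‖z‖ : ℂ) ≠ 0 := by exact_mod_cast norm_ne_zero_iff.2 h
    rw [div_mul_eq_mul_div, div_eq_iff h1, mul_comm (conj z), Complex.mul_conj']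
    ring

/-- first step: `(v |U|)^2 ≤ c0^2 |Z| ∑ |B(ρ)|^2` -/
theorem step1 (Z : Finset ℂ) (c : ℂ → ℂ) (U : Finset ℝ) (c0 v : ℝ) (hv : 0 ≤ v)
    (hc : ∀ ρ ∈ Z, ‖c ρ‖ ≤ c0)
    (hU : ∀ u ∈ U, v ≤ ‖∑ ρ ∈ Z, c ρ * Complex.exp ((ρ - 1) * (u : ℂ))‖) :
    ((U.card : ℝ) * v) ^ 2 ≤ c0 ^ 2 * (Z.card * ∑ ρ ∈ Z, ‖∑ u ∈ U,
      eta (∑ ρ ∈ Z, c ρ * Complex.exp ((ρ - 1) * (u : ℂ))) * Complex.exp ((ρ - 1) * (u : ℂ))‖ ^ 2) := by
  set S : ℝ → ℂ := fun u => ∑ ρ ∈ Z, c ρ * Complex.exp ((ρ - 1) * (u : ℂ)) with hS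
  set Bf : ℂ → ℂ := fun ρ => ∑ u ∈ U, eta (S u) * Complex.exp ((ρ - 1) * (u : ℂ)) with hB
  have h1 : (U.card : ℝ) * v ≤ ∑ u ∈ U, ‖S u‖ := by
    calc (U.card : ℝ) * v = ∑ u ∈ U, v := by rw [Finset.sum_const, nsmul_eq_mul]
      _ ≤ _ := Finset.sum_le_sum hU
  have h2 : ((∑ u ∈ U, ‖S u‖ : ℝ) : ℂ) = ∑ ρ ∈ Z, c ρ * Bf ρ := by
    push_cast
    calc ∑ u ∈ U, (‖S u‖ : ℂ) = ∑ u ∈ U, ∑ ρ ∈ Z, eta (S u) * (c ρ * Complex.exp ((ρ - 1) * (u : ℂ))) := by
          refine Finset.sum_congr rfl (fun u _ => ?_)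
          rw [← Finset.mul_sum, ← eta_mul]
      _ = ∑ ρ ∈ Z, ∑ u ∈ U, eta (S u) * (c ρ * Complex.exp ((ρ - 1) * (u : ℂ))) := Finset.sum_comm
      _ = _ := by
          refine Finset.sum_congr rfl (fun ρ _ => ?_)
          rw [hB, Finset.mul_sum]
          exact Finset.sum_congr rfl (fun u _ => by ring)
  have h3 : ∑ u ∈ U, ‖S u‖ ≤ c0 * ∑ ρ ∈ Z, ‖Bf ρ‖ := by
    have hnn : 0 ≤ ∑ u ∈ U, ‖S u‖ := Finset.sum_nonneg (fun _ _ => norm_nonneg _)
    calc ∑ u ∈ U, ‖S u‖ = ‖((∑ u ∈ U, ‖S u‖ : ℝ) : ℂ)‖ := by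
          rw [Complex.norm_real, Real.norm_of_nonneg hnn]
      _ = ‖∑ ρ ∈ Z, c ρ * Bf ρ‖ := by rw [h2]
      _ ≤ ∑ ρ ∈ Z, ‖c ρ * Bf ρ‖ := norm_sum_le _ _
      _ ≤ ∑ ρ ∈ Z, c0 * ‖Bf ρ‖ := by
          refine Finset.sum_le_sum (fun ρ hρ => ?_)
          rw [norm_mul]
          exact mul_le_mul_of_nonneg_right (hc ρ hρ) (norm_nonneg _)
      _ = _ := by rw [Finset.mul_sum]
  have h4 : (∑ ρ ∈ Z, ‖Bf ρ‖) ^ 2 ≤ Z.card * ∑ ρ ∈ Z, ‖Bf ρ‖ ^ 2 := sq_sum_le_card_mul_sum_sq
  calc ((U.card : ℝ) * v) ^ 2 ≤ (c0 * ∑ ρ ∈ Z, ‖Bf ρ‖) ^ 2 :=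
        pow_le_pow_left₀ (by (clear * - hv; positivity)) (h1.trans h3) 2
    _ = c0 ^ 2 * (∑ ρ ∈ Z, ‖Bf ρ‖) ^ 2 := by ring
    _ ≤ _ := by (clear * - h4; gcongr)

theorem cpow_eq_exp_log {n : ℕ} (hn : 0 < n) (s : ℂ) :
    (n : ℂ) ^ (-s) = Complex.exp (-(Real.log n : ℂ) * s) := by
  have hn' : (n : ℂ) ≠ 0 := by exact_mod_cast hn.ne'
  rw [Complex.cpow_def_of_ne_zero hn', ← Complex.ofReal_natCast, ← Complex.ofReal_log (by positivity)]
  congr 1
  ring

/-- the product `B(ρ) G(ρ)` as one exponential sum -/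
theorem prod_eq (U : Finset ℝ) (e : ℝ → ℂ) (g : ℕ → ℂ) (Q h : ℕ) (s : ℂ) :
    (∑ u ∈ U, e u * Complex.exp ((s - 1) * (u : ℂ))) * DP g Q h s =
      ∑ j ∈ U ×ˢ Finset.Ioc Q (h * Q), (e j.1 * g j.2 * Complex.exp (-(j.1 : ℂ))) *
        Complex.exp (((j.1 - Real.log j.2 : ℝ) : ℂ) * s) := by
  unfold DP
  rw [Finset.sum_mul_sum, Finset.sum_product]
  refine Finset.sum_congr rfl (fun u _ => Finset.sum_congr rfl (fun n hn => ?_))
  rw [Finset.mem_Ioc] at hn
  rw [cpow_eq_exp_log (by omega)]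
  have : Complex.exp (((u - Real.log n : ℝ) : ℂ) * s) =
      Complex.exp ((u : ℂ) * s) * Complex.exp (-(Real.log n : ℂ) * s) := by
    rw [← Complex.exp_add]; congr 1; push_cast; ring
  rw [this]
  have h2 : Complex.exp ((s - 1) * (u : ℂ)) = Complex.exp (-(u : ℂ)) * Complex.exp ((u : ℂ) * s) := by
    rw [← Complex.exp_add]; congr 1; ring
  rw [h2]
  ring

/-- size of one term on the line `σ` -/
theorem term_le {X b b' r σ u : ℝ} {Q h n : ℕ} (hX : 8 ≤ X) (hr : r = 1 / Real.log X)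
    (hr2 : r ≤ 1 / 2) (hr0 : 0 < r)
    (hQ1 : 1 ≤ Q) (hh : 1 ≤ h) (hQX : (Q : ℝ) ≤ X ^ 2) (hb : 0 ≤ b) (hb1 : b' ≤ 1)
    (hσ1 : b - r ≤ σ) (hσ2 : σ ≤ b' + r) (hu1 : Real.log X ≤ u) (hu2 : u ≤ Real.log X + 1)
    (hn1 : Q < n) (hn2 : n ≤ h * Q) :
    Real.exp (-u) * Real.exp (σ * (u - Real.log n)) ≤
      (Real.exp 2 * X ^ (b' - 1)) * (Real.exp 2 * h * (Q : ℝ) ^ (-b)) := by
  have hX0 : 0 < X := by (clear * - hX hr2 hr0; linarith)
  have hlX : 0 < Real.log X := Real.log_pos (by (clear * - hX hr2 hr0; linarith))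
  have hQr : (1 : ℝ) ≤ Q := by exact_mod_cast hQ1
  have hhr : (1 : ℝ) ≤ h := by exact_mod_cast hh
  have hn0 : (0 : ℝ) < n := by exact_mod_cast (by omega : 0 < n)
  have hn1r : (Q : ℝ) ≤ n := by exact_mod_cast hn1.le
  exact by
    have hn2r : (n : ℝ) ≤ h * Q := by exact_mod_cast hn2
    have hrl : r * Real.log X = 1 := by rw [hr]; field_simp
    have hlogn : 0 ≤ Real.log n := Real.log_nonneg (by (clear * - hQr hn1r; linarith))
    have e1 : Real.exp (-u) * Real.exp (σ * (u - Real.log n)) =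
        Real.exp ((σ - 1) * u) * Real.exp (-σ * Real.log n) := by
      rw [← Real.exp_add, ← Real.exp_add]; congr 1; ring
    rw [e1]
    have hX2 : Real.exp 2 * X ^ (b' - 1) = Real.exp (2 + (b' - 1) * Real.log X) := by
      rw [Real.exp_add, Real.rpow_def_of_pos hX0, mul_comm (Real.log X)]
    have hQ2 : Real.exp 2 * h * (Q : ℝ) ^ (-b) = Real.exp (2 + Real.log h + (-b) * Real.log Q) := by
      rw [Real.exp_add, Real.exp_add, Real.exp_log (by (clear * - hr2 hr0 hhr; linarith)), Real.rpow_def_of_pos (by linarith),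
        mul_comm (Real.log Q)]
    exact by
      rw [hX2, hQ2]
      have hQlog : 0 ≤ Real.log Q := Real.log_nonneg hQr
      have hhlog : 0 ≤ Real.log h := Real.log_nonneg hhr
      have hlogn2 : Real.log n ≤ Real.log h + Real.log Q := by
        rw [← Real.log_mul (by (clear * - hr2 hr0 hhr; linarith)) (by (clear * - hr2 hr0 hQr; linarith))]
        exact Real.log_le_log hn0 hn2r
      have hlogn3 : Real.log Q ≤ Real.log n := Real.log_le_log (by (clear * - hr2 hr0 hQr; linarith)) hn1r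
      have hlogQX : Real.log Q ≤ 2 * Real.log X := by
        have := Real.log_le_log (by (clear * - hr2 hr0 hQr; linarith)) hQX
        rwa [Real.log_pow] at this
      apply mul_le_mul
      · apply Real.exp_le_exp.2
        have h1 : (σ - 1) * u ≤ (b' + r - 1) * u := by
          apply mul_le_mul_of_nonneg_right _ (by (clear * - hu1 hlX; linarith)); (clear * - hσ2; linarith)
        have h2 : (b' - 1) * u ≤ (b' - 1) * Real.log X := by
          apply mul_le_mul_of_nonpos_left hu1; (clear * - hb1; linarith)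
        have h3 : r * u ≤ r * (Real.log X + 1) := mul_le_mul_of_nonneg_left hu2 hr0.le
        (clear * - hr2 hr0 hrl h1 h2 h3; nlinarith)
      · apply Real.exp_le_exp.2
        have h1 : -σ * Real.log n ≤ (r - b) * Real.log n := by
          apply mul_le_mul_of_nonneg_right _ hlogn; (clear * - hσ1; linarith)
        have h2 : r * Real.log n ≤ r * (Real.log h + Real.log Q) := mul_le_mul_of_nonneg_left hlogn2 hr0.le
        have h3 : b * Real.log Q ≤ b * Real.log n := mul_le_mul_of_nonneg_left hlogn3 hb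
        have h4 : r * Real.log Q ≤ r * (2 * Real.log X) := mul_le_mul_of_nonneg_left hlogQX hr0.le
        have h5 : r * Real.log h ≤ 1 * Real.log h := mul_le_mul_of_nonneg_right (by (clear * - hr2 hr0; linarith)) hhlog
        (clear * - hrl h1 h2 h3 h4 h5; nlinarith)
      · positivity
      · positivity

theorem log_sq_le {ε : ℝ} (hε : 0 < ε) {X : ℝ} (hX : 1 ≤ X) :
    Real.log X ^ 2 ≤ (4 / ε) ^ 2 * X ^ (ε / 2) := by
  have hX0 : 0 < X := by (clear * - hX; linarith)
  have h1 : Real.log X ≤ X ^ (ε / 4) / (ε / 4) := Real.log_le_rpow_div hX0.le (by positivity)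
  have h0 : 0 ≤ Real.log X := Real.log_nonneg hX
  calc Real.log X ^ 2 ≤ (X ^ (ε / 4) / (ε / 4)) ^ 2 := pow_le_pow_left₀ h0 h1 2
    _ = (4 / ε) ^ 2 * (X ^ (ε / 4)) ^ 2 := by field_simp
    _ = _ := by
        rw [← Real.rpow_natCast (X ^ (ε / 4)), ← Real.rpow_mul hX0.le]
        congr 2; push_cast; ring

theorem log8 : 2 ≤ Real.log 8 := by
  have : Real.log 8 = 3 * Real.log 2 := by
    rw [show (8 : ℝ) = 2 ^ 3 by norm_num, Real.log_pow]; norm_num
  rw [this]; (clear * -; linarith [Real.log_two_gt_d9])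

theorem sLemma : DiscMV → TwoWalk → SLemma := by
  intro hD hT h ε hh hε
  obtain ⟨C1, hC1, h1⟩ := hD
  obtain ⟨C2, hC2, h2⟩ := hT h (ε / 2) hh (by positivity)
  refine ⟨C1 * (4 / ε) ^ 2 * (Real.exp 2 * (Real.exp 2 * h)) ^ 2 * C2, by (clear * - hC1 hε hh hC2; positivity), ?_⟩
  intro X T b b' B V c0 v Z c g Q U hX hT1 hTX hQ1 hQX hb hbb' hb'b hb'1 hV hB hc0 hv hg hZ1 hZ2 hZ3
    hc hU1 hU2 hU3
  have hX0 : 0 < X := by (clear * - hX; linarith)
  have hlX : 2 ≤ Real.log X := log8.trans (Real.log_le_log (by norm_num) hX)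
  set r : ℝ := 1 / Real.log X with hr
  have hr0 : 0 < r := by (clear * - hlX; positivity)
  have hr2 : r ≤ 1 / 2 := one_div_le_one_div_of_le (by norm_num) hlX
  set e : ℝ → ℂ := fun u => eta (∑ ρ ∈ Z, c ρ * Complex.exp ((ρ - 1) * (u : ℂ))) with he
  exact by
    set Bf : ℂ → ℂ := fun ρ => ∑ u ∈ U, e u * Complex.exp ((ρ - 1) * (u : ℂ)) with hBf
    have s1 := step1 Z c U c0 v hv hc hU3
    set D : ℝ := B * ((Real.exp 2 * X ^ (b' - 1)) * (Real.exp 2 * h * (Q : ℝ) ^ (-b))) with hDdef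
    have hD0 : 0 ≤ D := by (clear * - hB hX hh hQ1; positivity)
    have key := h1 (ℝ × ℕ) (U ×ˢ Finset.Ioc Q (h * Q))
      (fun j => e j.1 * g j.2 * Complex.exp (-(j.1 : ℂ))) (fun j => j.1 - Real.log j.2)
      T b b' r (D ^ 2 * ET U T Q (h * Q)) Z hT1 hr0 hr2 hbb' hb'b hZ1 hZ2 (by
        intro σ hσ1 hσ2
        have hterm : ∀ j ∈ U ×ˢ Finset.Ioc Q (h * Q),
            ‖e j.1 * g j.2 * Complex.exp (-(j.1 : ℂ))‖ * Real.exp (σ * (j.1 - Real.log j.2)) ≤ D := by
          intro j hj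
          rw [Finset.mem_product, Finset.mem_Ioc] at hj
          have hu := hU1 j.1 hj.1
          have ht := term_le hX hr hr2 hr0 hQ1 hh hQX hb hb'1 hσ1 hσ2 hu.1 hu.2 hj.2.1 hj.2.2
          rw [norm_mul, norm_mul]
          have e1 : ‖Complex.exp (-(j.1 : ℂ))‖ = Real.exp (-j.1) := by
            rw [Complex.norm_exp]; simp
          rw [e1]
          have e2 : ‖e j.1‖ ≤ 1 := norm_eta_le _
          calc ‖e j.1‖ * ‖g j.2‖ * Real.exp (-j.1) * Real.exp (σ * (j.1 - Real.log j.2)) =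
                (‖e j.1‖ * ‖g j.2‖) * (Real.exp (-j.1) * Real.exp (σ * (j.1 - Real.log j.2))) := by ring
            _ ≤ (1 * B) * ((Real.exp 2 * X ^ (b' - 1)) * (Real.exp 2 * h * (Q : ℝ) ^ (-b))) := by
                have := hg j.2
                (clear * - e2 this ht hB; gcongr)
            _ = D := by rw [one_mul]
        calc ∑ j ∈ U ×ˢ Finset.Ioc Q (h * Q), ∑ k ∈ U ×ˢ Finset.Ioc Q (h * Q),
              (if |(j.1 - Real.log j.2) - (k.1 - Real.log k.2)| ≤ 1 / T then
                ‖e j.1 * g j.2 * Complex.exp (-(j.1 : ℂ))‖ * ‖e k.1 * g k.2 * Complex.exp (-(k.1 : ℂ))‖ *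
                Real.exp (σ * ((j.1 - Real.log j.2) + (k.1 - Real.log k.2))) else 0) ≤
              ∑ j ∈ U ×ˢ Finset.Ioc Q (h * Q), ∑ k ∈ U ×ˢ Finset.Ioc Q (h * Q),
              (if |(j.1 - Real.log j.2) - (k.1 - Real.log k.2)| ≤ 1 / T then D ^ 2 else 0) := by
              refine Finset.sum_le_sum (fun j hj => Finset.sum_le_sum (fun k hk => ?_))
              split_ifs
              · have hj' := hterm j hj
                have hk' := hterm k hk
                have e3 : Real.exp (σ * ((j.1 - Real.log j.2) + (k.1 - Real.log k.2))) =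
                    Real.exp (σ * (j.1 - Real.log j.2)) * Real.exp (σ * (k.1 - Real.log k.2)) := by
                  rw [← Real.exp_add]; congr 1; ring
                rw [e3]
                calc _ = (‖e j.1 * g j.2 * Complex.exp (-(j.1 : ℂ))‖ * Real.exp (σ * (j.1 - Real.log j.2))) *
                      (‖e k.1 * g k.2 * Complex.exp (-(k.1 : ℂ))‖ * Real.exp (σ * (k.1 - Real.log k.2))) := by
                      ring
                  _ ≤ D * D := mul_le_mul hj' hk' (by positivity) hD0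
                  _ = D ^ 2 := by ring
              · exact le_rfl
          _ = D ^ 2 * ((((U ×ˢ Finset.Ioc Q (h * Q)) ×ˢ (U ×ˢ Finset.Ioc Q (h * Q))).filter
                (fun p => |(p.1.1 - Real.log p.1.2) - (p.2.1 - Real.log p.2.2)| ≤ 1 / T)).card : ℝ) := by
              rw [← Finset.sum_product', ← Finset.sum_filter, Finset.sum_const, nsmul_eq_mul, mul_comm]
          _ ≤ _ := by
              apply mul_le_mul_of_nonneg_left _ (by (clear * -; positivity))
              unfold ET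
              have : (((U ×ˢ Finset.Ioc Q (h * Q)) ×ˢ (U ×ˢ Finset.Ioc Q (h * Q))).filter
                (fun p => |(p.1.1 - Real.log p.1.2) - (p.2.1 - Real.log p.2.2)| ≤ 1 / T)).card ≤
                (((U ×ˢ Finset.Icc Q (h * Q)) ×ˢ (U ×ˢ Finset.Icc Q (h * Q))).filter
                (fun p => |(p.1.1 - Real.log p.1.2) - (p.2.1 - Real.log p.2.2)| ≤ 1 / T)).card := by
                apply Finset.card_le_card
                apply Finset.filter_subset_filter
                have : Finset.Ioc Q (h * Q) ⊆ Finset.Icc Q (h * Q) := Finset.Ioc_subset_Icc_self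
                exact Finset.product_subset_product (Finset.product_subset_product_right this)
                  (Finset.product_subset_product_right this)
              exact_mod_cast this)
    have hBG : V ^ 2 * ∑ ρ ∈ Z, ‖Bf ρ‖ ^ 2 ≤ C1 / r ^ 2 * T * (D ^ 2 * ET U T Q (h * Q)) := by
      refine le_trans ?_ key
      rw [Finset.mul_sum]
      refine Finset.sum_le_sum (fun ρ hρ => ?_)
      rw [← prod_eq U e g Q h ρ, norm_mul, mul_pow, mul_comm (V ^ 2)]
      have := hZ3 ρ hρ
      (clear * - hV this; gcongr)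
    exact by
      have hET := h2 X T (Real.log X) U Q (by (clear * - hX hr0 hr2; linarith)) hT1 hTX hQ1 hQX hU1 hU2
      set R : ℝ := U.card * Q * (1 + ((U.card : ℝ) ^ 3 / T) ^ (1/4 : ℝ)) +
        (U.card : ℝ) ^ 2 * (Q : ℝ) ^ 2 / T with hR
      have hR0 : 0 ≤ R := by (clear * - hQ1 hT1; positivity)
      have hlog := log_sq_le hε (X := X) (by (clear * - hX hr0 hr2; linarith))
      have hr2' : 1 / r ^ 2 = Real.log X ^ 2 := by rw [hr]; field_simp
      have hDsq : D ^ 2 = B ^ 2 * (Real.exp 2 * (Real.exp 2 * h)) ^ 2 * X ^ (2 * (b' - 1)) * (Q : ℝ) ^ (-2 * b) := by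
        have hQ0 : (0 : ℝ) < Q := by exact_mod_cast hQ1
        have e1 : X ^ (2 * (b' - 1)) = (X ^ (b' - 1)) ^ 2 := by
          rw [← Real.rpow_natCast (X ^ (b' - 1)), ← Real.rpow_mul hX0.le]; congr 1; push_cast; ring
        have e2 : (Q : ℝ) ^ (-2 * b) = ((Q : ℝ) ^ (-b)) ^ 2 := by
          rw [← Real.rpow_natCast ((Q : ℝ) ^ (-b)), ← Real.rpow_mul hQ0.le]; congr 1; push_cast; ring
        rw [e1, e2, hDdef]; ring
      have hXε : X ^ ε = X ^ (ε / 2) * X ^ (ε / 2) := by
        rw [← Real.rpow_add hX0]; congr 1; ring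
      exact by
        calc (U.card : ℝ) ^ 2 * v ^ 2 * V ^ 2 = ((U.card : ℝ) * v) ^ 2 * V ^ 2 := by ring
          _ ≤ (c0 ^ 2 * (Z.card * ∑ ρ ∈ Z, ‖Bf ρ‖ ^ 2)) * V ^ 2 := by (clear * - s1 hV; gcongr)
          _ = c0 ^ 2 * Z.card * (V ^ 2 * ∑ ρ ∈ Z, ‖Bf ρ‖ ^ 2) := by ring
          _ ≤ c0 ^ 2 * Z.card * (C1 / r ^ 2 * T * (D ^ 2 * ET U T Q (h * Q))) := by (clear * - hBG; gcongr)
          _ = c0 ^ 2 * Z.card * (C1 * (1 / r ^ 2) * T * (D ^ 2 * ET U T Q (h * Q))) := by ring
          _ = c0 ^ 2 * Z.card * (C1 * Real.log X ^ 2 * T * (D ^ 2 * ET U T Q (h * Q))) := by rw [hr2']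
          _ ≤ c0 ^ 2 * Z.card * (C1 * ((4 / ε) ^ 2 * X ^ (ε / 2)) * T * (D ^ 2 * (C2 * X ^ (ε / 2) * R))) := by
              (clear * - hlog hC1 hT1 hET hε hX; gcongr)
          _ = _ := by rw [hDsq, hXε]; ring

end Pool.Agent.M20.Helper1.KC
end

/- Helper53.KN.Helper9.KC.Subharm -/
section
/-! KC-2, first part: the area mean value inequality. -/

set_option autoImplicit false
open MeasureTheory Set

namespace Pool.Agent.M20.Helper9.KC

theorem circle_mean {g : ℂ → ℂ} (hg : Differentiable ℂ g) (z : ℂ) (R : ℝ) :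
    2 * Real.pi * ‖g z‖ ≤ ∫ θ in Ioo (-Real.pi) Real.pi,
      ‖g (z + (R * Real.cos θ : ℝ) + (R * Real.sin θ : ℝ) * Complex.I)‖ := by
  have hpi := Real.pi_pos
  have h1 : Real.circleAverage g z R = g z := hg.diffContOnCl.circleAverage
  have h2 : g z = (2 * Real.pi)⁻¹ • ∫ θ in (0 : ℝ)..2 * Real.pi, g (circleMap z R θ) := by
    rw [← h1]; rfl
  have hper : Function.Periodic (fun θ : ℝ => g (circleMap z R θ)) (2 * Real.pi) := by
    intro θ
    simp only [periodic_circleMap z R θ]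
  have h3 : ∫ θ in (0 : ℝ)..2 * Real.pi, g (circleMap z R θ) =
      ∫ θ in (-Real.pi)..Real.pi, g (circleMap z R θ) := by
    have := hper.intervalIntegral_add_eq 0 (-Real.pi)
    rw [zero_add] at this
    rw [this]
    congr 1
    ring
  have h4 : ‖g z‖ ≤ (2 * Real.pi)⁻¹ * ∫ θ in (-Real.pi)..Real.pi, ‖g (circleMap z R θ)‖ := by
    rw [h2, norm_smul, Real.norm_of_nonneg (by positivity), h3]
    refine mul_le_mul_of_nonneg_left ?_ (by positivity)
    exact intervalIntegral.norm_integral_le_integral_norm (by linarith)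
  have h5 : 2 * Real.pi * ‖g z‖ ≤ ∫ θ in (-Real.pi)..Real.pi, ‖g (circleMap z R θ)‖ := by
    have h6 := mul_le_mul_of_nonneg_left h4 (show 0 ≤ 2 * Real.pi by positivity)
    rwa [← mul_assoc, mul_inv_cancel₀ (by positivity), one_mul] at h6
  refine h5.trans (le_of_eq ?_)
  rw [intervalIntegral.integral_of_le (by linarith), integral_Ioc_eq_integral_Ioo]
  refine setIntegral_congr_fun measurableSet_Ioo ?_
  intro θ _
  show ‖g (circleMap z R θ)‖ = _
  congr 2
  rw [circleMap, Complex.exp_mul_I]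
  push_cast
  ring

/-- the open disc of radius `r` about `z`, in coordinates -/
def disc (z : ℂ) (r : ℝ) : Set (ℝ × ℝ) := {p | (p.1 - z.re) ^ 2 + (p.2 - z.im) ^ 2 < r ^ 2}

theorem measurableSet_disc (z : ℂ) (r : ℝ) : MeasurableSet (disc z r) :=
  measurableSet_lt (by fun_prop) (by fun_prop)

/-- the area mean value inequality, in coordinates -/
theorem area_mean {g : ℂ → ℂ} (hg : Differentiable ℂ g) (z : ℂ) {r : ℝ} (hr : 0 < r) :
    Real.pi * r ^ 2 * ‖g z‖ ≤
      ∫ p in disc z r, ‖g ((p.1 : ℂ) + (p.2 : ℂ) * Complex.I)‖ := by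
  have hpi := Real.pi_pos
  have hgc : Continuous g := hg.continuous
  let φ : ℝ × ℝ → ℝ := (disc z r).indicator fun p => ‖g ((p.1 : ℂ) + (p.2 : ℂ) * Complex.I)‖
  have h0 : ∫ p in disc z r, ‖g ((p.1 : ℂ) + (p.2 : ℂ) * Complex.I)‖ = ∫ p, φ p :=
    (integral_indicator (measurableSet_disc z r)).symm
  have h1 : ∫ p, φ p = ∫ p : ℝ × ℝ, φ (p + (z.re, z.im)) :=
    (integral_add_right_eq_self φ (z.re, z.im)).symm
  have h2 : ∫ p : ℝ × ℝ, φ (p + (z.re, z.im)) =
      ∫ p in polarCoord.target, p.1 • φ (polarCoord.symm p + (z.re, z.im)) :=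
    (integral_comp_polarCoord_symm (fun p => φ (p + (z.re, z.im)))).symm
  let ψ : ℝ × ℝ → ℝ := fun p => p.1 * ‖g (z + (p.1 * Real.cos p.2 : ℝ) +
    (p.1 * Real.sin p.2 : ℝ) * Complex.I)‖
  have h3 : ∫ p in polarCoord.target, p.1 • φ (polarCoord.symm p + (z.re, z.im)) =
      ∫ p in polarCoord.target, (Ioo (0 : ℝ) r ×ˢ Ioo (-Real.pi) Real.pi).indicator ψ p := by
    refine setIntegral_congr_fun (by
      rw [polarCoord_target]
      exact measurableSet_Ioi.prod measurableSet_Ioo) ?_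
    intro p hp
    rw [polarCoord_target] at hp
    obtain ⟨hp1, hp2⟩ := hp
    have hp1' : 0 < p.1 := hp1
    show p.1 • φ (polarCoord.symm p + (z.re, z.im)) = _
    have hsymm : polarCoord.symm p = (p.1 * Real.cos p.2, p.1 * Real.sin p.2) := rfl
    rw [hsymm]
    by_cases hlt : p.1 < r
    · rw [indicator_of_mem (show p ∈ Ioo (0 : ℝ) r ×ˢ Ioo (-Real.pi) Real.pi from
        ⟨⟨hp1', hlt⟩, hp2⟩)]
      show p.1 • (disc z r).indicator _ _ = _
      rw [indicator_of_mem]
      · show p.1 * ‖g _‖ = p.1 * ‖g _‖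
        congr 3
        apply Complex.ext <;> simp <;> ring
      · show (p.1 * Real.cos p.2 + z.re - z.re) ^ 2 + (p.1 * Real.sin p.2 + z.im - z.im) ^ 2 < r ^ 2
        have : (p.1 * Real.cos p.2 + z.re - z.re) ^ 2 + (p.1 * Real.sin p.2 + z.im - z.im) ^ 2 =
            p.1 ^ 2 * (Real.cos p.2 ^ 2 + Real.sin p.2 ^ 2) := by ring
        rw [this, Real.cos_sq_add_sin_sq, mul_one]
        exact pow_lt_pow_left₀ hlt hp1'.le (by norm_num)
    · rw [indicator_of_notMem (show p ∉ Ioo (0 : ℝ) r ×ˢ Ioo (-Real.pi) Real.pi from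
        fun h => hlt h.1.2)]
      show p.1 • (disc z r).indicator _ _ = _
      rw [indicator_of_notMem]
      · simp
      · show ¬ (p.1 * Real.cos p.2 + z.re - z.re) ^ 2 + (p.1 * Real.sin p.2 + z.im - z.im) ^ 2 < r ^ 2
        have : (p.1 * Real.cos p.2 + z.re - z.re) ^ 2 + (p.1 * Real.sin p.2 + z.im - z.im) ^ 2 =
            p.1 ^ 2 * (Real.cos p.2 ^ 2 + Real.sin p.2 ^ 2) := by ring
        rw [this, Real.cos_sq_add_sin_sq, mul_one, not_lt]
        exact pow_le_pow_left₀ hr.le (not_lt.1 hlt) 2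
  have h4 : ∫ p in polarCoord.target, (Ioo (0 : ℝ) r ×ˢ Ioo (-Real.pi) Real.pi).indicator ψ p =
      ∫ p in Ioo (0 : ℝ) r ×ˢ Ioo (-Real.pi) Real.pi, ψ p := by
    rw [setIntegral_indicator (measurableSet_Ioo.prod measurableSet_Ioo)]
    congr 2
    rw [polarCoord_target]
    ext p
    constructor
    · rintro ⟨-, h⟩
      exact h
    · intro h
      exact ⟨⟨h.1.1, h.2⟩, h⟩
  have hψc : Continuous ψ := by
    show Continuous fun p : ℝ × ℝ => p.1 * ‖g (z + (p.1 * Real.cos p.2 : ℝ) +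
      (p.1 * Real.sin p.2 : ℝ) * Complex.I)‖
    fun_prop
  have hψi : IntegrableOn ψ (Ioo (0 : ℝ) r ×ˢ Ioo (-Real.pi) Real.pi) (volume.prod volume) := by
    have hK : IsCompact (Icc (0 : ℝ) r ×ˢ Icc (-Real.pi) Real.pi) := isCompact_Icc.prod isCompact_Icc
    exact (hψc.continuousOn.integrableOn_compact hK).mono_set
      (prod_mono Ioo_subset_Icc_self Ioo_subset_Icc_self)
  have h5 : ∫ p in Ioo (0 : ℝ) r ×ˢ Ioo (-Real.pi) Real.pi, ψ p =
      ∫ x in Ioo (0 : ℝ) r, ∫ y in Ioo (-Real.pi) Real.pi, ψ (x, y) :=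
    setIntegral_prod ψ hψi
  rw [h0, h1, h2, h3, h4, h5]
  have h6 : ∫ x in Ioo (0 : ℝ) r, x * (2 * Real.pi * ‖g z‖) = Real.pi * r ^ 2 * ‖g z‖ := by
    rw [integral_mul_const, ← integral_Ioc_eq_integral_Ioo,
      ← intervalIntegral.integral_of_le hr.le, integral_id]
    ring
  rw [← h6]
  have hprod : IntegrableOn (fun x : ℝ => ∫ y in Ioo (-Real.pi) Real.pi, ψ (x, y))
      (Ioo (0 : ℝ) r) := by
    have := hψi
    rw [IntegrableOn, ← Measure.prod_restrict] at this
    exact this.integral_prod_left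
  refine setIntegral_mono_on ?_ hprod measurableSet_Ioo ?_
  · have : Continuous fun x : ℝ => x * (2 * Real.pi * ‖g z‖) := by fun_prop
    exact (this.continuousOn.integrableOn_Icc).mono_set Ioo_subset_Icc_self
  · intro x hx
    show x * (2 * Real.pi * ‖g z‖) ≤ ∫ y in Ioo (-Real.pi) Real.pi, x * ‖g (z +
      (x * Real.cos y : ℝ) + (x * Real.sin y : ℝ) * Complex.I)‖
    rw [integral_const_mul]
    exact mul_le_mul_of_nonneg_left (circle_mean hg z x) hx.1.le

end Pool.Agent.M20.Helper9.KC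
end

/- Helper53.KN.Helper9.KC.DiscMV -/
section
/-! KC-2: mean value at well spaced complex points. -/

set_option autoImplicit false
open MeasureTheory Set

namespace Pool.Agent.M20.Helper9.KC

open Pool.Agent.M20.Helper60.KS

/-- sums over well spaced points are bounded by area integrals over rectangles -/
theorem sum_area {g : ℂ → ℂ} (hg : Differentiable ℂ g) {Z : Finset ℂ} {b b' T r : ℝ} (hr : 0 < r)
    (hr2 : r ≤ 1 / 2) (hZ : InStrip Z b b' T) (hs : Spaced1 Z) :
    Real.pi * r ^ 2 * ∑ ρ ∈ Z, ‖g ρ‖ ≤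
      ∫ x in Icc (b - r) (b' + r), ∫ t in Icc (-(T + 1 / 2)) (T + 1 / 2),
        ‖g ((x : ℂ) + (t : ℂ) * Complex.I)‖ := by
  let G : ℝ × ℝ → ℝ := fun p => ‖g ((p.1 : ℂ) + (p.2 : ℂ) * Complex.I)‖
  have hG : Continuous G := by
    have := hg.continuous
    show Continuous fun p : ℝ × ℝ => ‖g ((p.1 : ℂ) + (p.2 : ℂ) * Complex.I)‖
    fun_prop
  let K : Set (ℝ × ℝ) := Icc (b - r) (b' + r) ×ˢ Icc (-(T + 1 / 2)) (T + 1 / 2)
  have hK : IsCompact K := isCompact_Icc.prod isCompact_Icc
  have hGi : IntegrableOn G K := hG.continuousOn.integrableOn_compact hK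
  have habs : ∀ {x y : ℝ}, x ^ 2 + y ^ 2 < r ^ 2 → |x| < r ∧ |y| < r := by
    intro x y h
    constructor
    · exact abs_lt_of_sq_lt_sq (by (clear * - h; nlinarith [sq_nonneg y])) hr.le
    · exact abs_lt_of_sq_lt_sq (by (clear * - h; nlinarith [sq_nonneg x])) hr.le
  exact by
    have hsub : ∀ ρ ∈ Z, disc ρ r ⊆ K := by
      intro ρ hρ p hp
      obtain ⟨h1, h2, h3⟩ := hZ ρ hρ
      obtain ⟨h4, h5⟩ := habs (show (p.1 - ρ.re) ^ 2 + (p.2 - ρ.im) ^ 2 < r ^ 2 from hp)
      rw [abs_lt] at h4 h5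
      rw [abs_le] at h3
      exact ⟨⟨by (clear * - h1 h4; linarith), by linarith⟩, ⟨by linarith, by linarith⟩⟩
    have hdis : Set.Pairwise (↑Z : Set ℂ) (Function.onFun Disjoint fun ρ => disc ρ r) := by
      intro ρ hρ ρ' hρ' hne
      rw [Function.onFun, Set.disjoint_left]
      intro p hp hp'
      have h1 := hs ρ hρ ρ' hρ' hne
      have h2 := (habs (show (p.1 - ρ.re) ^ 2 + (p.2 - ρ.im) ^ 2 < r ^ 2 from hp)).2
      have h3 := (habs (show (p.1 - ρ'.re) ^ 2 + (p.2 - ρ'.im) ^ 2 < r ^ 2 from hp')).2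
      rw [abs_lt] at h2 h3
      rcases le_abs.1 h1 with h | h <;> linarith
    have h1 : Real.pi * r ^ 2 * ∑ ρ ∈ Z, ‖g ρ‖ ≤ ∑ ρ ∈ Z, ∫ p in disc ρ r, G p := by
      rw [Finset.mul_sum]
      exact Finset.sum_le_sum fun ρ _ => area_mean hg ρ hr
    have h2 : ∑ ρ ∈ Z, ∫ p in disc ρ r, G p = ∫ p in ⋃ ρ ∈ Z, disc ρ r, G p :=
      (integral_biUnion_finset Z (fun ρ _ => measurableSet_disc ρ r) hdis
        (fun ρ hρ => hGi.mono_set (hsub ρ hρ))).symm
    have h3 : ∫ p in ⋃ ρ ∈ Z, disc ρ r, G p ≤ ∫ p in K, G p := by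
      refine setIntegral_mono_set hGi (Filter.Eventually.of_forall fun p => norm_nonneg _) ?_
      refine HasSubset.Subset.eventuallyLE ?_
      exact Set.iUnion₂_subset hsub
    have h4 : ∫ p in K, G p = ∫ x in Icc (b - r) (b' + r),
        ∫ t in Icc (-(T + 1 / 2)) (T + 1 / 2), G (x, t) := setIntegral_prod G hGi
    rw [h2] at h1
    exact h1.trans (h3.trans h4.le)

theorem discMV : MeanValue → DiscMV := by
  rintro ⟨C₀, hC₀, hMV⟩
  refine ⟨2 * Real.exp (9 / 4) * C₀ / Real.pi, by (clear * - hC₀; positivity), ?_⟩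
  intro ι S a y T b b' r M Z hT hr hr2 hbb hbb' hZ hs hM
  have hpi := Real.pi_pos
  let F : ℂ → ℂ := fun s => ∑ j ∈ S, a j * Complex.exp ((y j : ℂ) * s)
  have hF : Differentiable ℂ F := by
    show Differentiable ℂ fun s => ∑ j ∈ S, a j * Complex.exp ((y j : ℂ) * s)
    fun_prop
  have hF2 : Differentiable ℂ fun s => F s ^ 2 := hF.pow 2
  have hM0 : 0 ≤ M := by
    refine le_trans ?_ (hM b (by (clear * - hr; linarith)) (by (clear * - hr hbb; linarith)))
    refine Finset.sum_nonneg fun j _ => Finset.sum_nonneg fun k _ => ?_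
    split_ifs
    · (clear * -; positivity)
    · exact le_rfl
  have key : Real.pi * r ^ 2 * ∑ ρ ∈ Z, ‖F ρ ^ 2‖ ≤ 2 * (Real.exp (9 / 4) * (C₀ * T * M)) := by
    refine (sum_area hF2 hr hr2 hZ hs).trans ?_
    -- each vertical line
    have hline : ∀ x ∈ Icc (b - r) (b' + r), ∫ t in Icc (-(T + 1 / 2)) (T + 1 / 2),
        ‖F ((x : ℂ) + (t : ℂ) * Complex.I) ^ 2‖ ≤ Real.exp (9 / 4) * (C₀ * T * M) := by
      intro x hx
      let c : ι → ℂ := fun j => a j * (Real.exp (x * y j) : ℂ)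
      have hFc : ∀ t : ℝ, F ((x : ℂ) + (t : ℂ) * Complex.I) =
          ∑ j ∈ S, c j * Complex.exp (Complex.I * ((y j * t : ℝ) : ℂ)) := by
        intro t
        refine Finset.sum_congr rfl fun j _ => ?_
        show a j * Complex.exp ((y j : ℂ) * ((x : ℂ) + (t : ℂ) * Complex.I)) = _
        show _ = a j * (Real.exp (x * y j) : ℂ) * Complex.exp (Complex.I * ((y j * t : ℝ) : ℂ))
        rw [mul_assoc, Complex.ofReal_exp, ← Complex.exp_add]
        congr 2
        push_cast
        ring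
      let W : ℝ → ℝ := fun t => Real.exp (-(t / T) ^ 2) *
        ‖∑ j ∈ S, c j * Complex.exp (Complex.I * ((y j * t : ℝ) : ℂ))‖ ^ 2
      have hWc : Continuous W := by
        show Continuous fun t : ℝ => Real.exp (-(t / T) ^ 2) *
          ‖∑ j ∈ S, c j * Complex.exp (Complex.I * ((y j * t : ℝ) : ℂ))‖ ^ 2
        fun_prop
      have hWi : Integrable W := by
        have hg : Integrable fun t : ℝ => (∑ j ∈ S, ‖c j‖) ^ 2 * Real.exp (-(1 / T ^ 2) * t ^ 2) :=
          (integrable_exp_neg_mul_sq (by positivity)).const_mul _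
        refine hg.mono' hWc.aestronglyMeasurable (Filter.Eventually.of_forall fun t => ?_)
        show ‖Real.exp (-(t / T) ^ 2) *
          ‖∑ j ∈ S, c j * Complex.exp (Complex.I * ((y j * t : ℝ) : ℂ))‖ ^ 2‖ ≤ _
        rw [Real.norm_of_nonneg (by positivity), mul_comm]
        have e1 : -(t / T) ^ 2 = -(1 / T ^ 2) * t ^ 2 := by ring
        rw [e1]
        refine mul_le_mul_of_nonneg_right ?_ (Real.exp_nonneg _)
        refine pow_le_pow_left₀ (norm_nonneg _) ?_ 2
        refine (norm_sum_le _ _).trans (Finset.sum_le_sum fun j _ => ?_)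
        rw [norm_mul, mul_comm Complex.I, Complex.norm_exp_ofReal_mul_I, mul_one]
      have hle1 : ∫ t in Icc (-(T + 1 / 2)) (T + 1 / 2),
          ‖F ((x : ℂ) + (t : ℂ) * Complex.I) ^ 2‖ ≤
          ∫ t in Icc (-(T + 1 / 2)) (T + 1 / 2), Real.exp (9 / 4) * W t := by
        refine setIntegral_mono_on ?_ (hWi.const_mul _).integrableOn measurableSet_Icc ?_
        · have : Continuous fun t : ℝ => ‖F ((x : ℂ) + (t : ℂ) * Complex.I) ^ 2‖ := by
            have := hF.continuous
            fun_prop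
          exact this.continuousOn.integrableOn_Icc
        · intro t ht
          exact by
            show _ ≤ Real.exp (9 / 4) * (Real.exp (-(t / T) ^ 2) *
              ‖∑ j ∈ S, c j * Complex.exp (Complex.I * ((y j * t : ℝ) : ℂ))‖ ^ 2)
            rw [← hFc, norm_pow, ← mul_assoc, ← Real.exp_add]
            have e1 : (t / T) ^ 2 ≤ 9 / 4 := by
              have h1 : |t / T| ≤ 3 / 2 := by
                rw [abs_div, abs_of_pos (by linarith : 0 < T), div_le_iff₀ (by linarith)]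
                have := abs_le.2 ⟨ht.1, ht.2⟩
                linarith
              have h2 : (t / T) ^ 2 = |t / T| ^ 2 := (sq_abs _).symm
              rw [h2]
              nlinarith [abs_nonneg (t / T)]
            have e2 : 1 ≤ Real.exp (9 / 4 + -(t / T) ^ 2) := Real.one_le_exp (by linarith)
            have e3 : 0 ≤ ‖F ((x : ℂ) + (t : ℂ) * Complex.I)‖ ^ 2 := by positivity
            (clear * - e2; nlinarith)
      have hle2 : ∫ t in Icc (-(T + 1 / 2)) (T + 1 / 2), Real.exp (9 / 4) * W t ≤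
          Real.exp (9 / 4) * ∫ t, W t := by
        rw [integral_const_mul]
        refine mul_le_mul_of_nonneg_left ?_ (Real.exp_nonneg _)
        refine setIntegral_le_integral hWi (Filter.Eventually.of_forall fun t => ?_)
        show 0 ≤ Real.exp (-(t / T) ^ 2) * _
        positivity
      refine hle1.trans (hle2.trans ?_)
      refine mul_le_mul_of_nonneg_left ?_ (Real.exp_nonneg _)
      refine (hMV ι S c y T hT).trans ?_
      refine mul_le_mul_of_nonneg_left ?_ (by positivity)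
      refine le_trans (le_of_eq ?_) (hM x hx.1 hx.2)
      refine Finset.sum_congr rfl fun j _ => Finset.sum_congr rfl fun k _ => ?_
      have hc : ∀ i, ‖c i‖ = ‖a i‖ * Real.exp (x * y i) := by
        intro i
        show ‖a i * (Real.exp (x * y i) : ℂ)‖ = _
        rw [norm_mul, Complex.norm_real, Real.norm_of_nonneg (Real.exp_nonneg _)]
      split_ifs
      · rw [hc, hc, mul_add, Real.exp_add]
        ring
      · rfl
    have hprod : IntegrableOn (fun x : ℝ => ∫ t in Icc (-(T + 1 / 2)) (T + 1 / 2),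
        ‖F ((x : ℂ) + (t : ℂ) * Complex.I) ^ 2‖) (Icc (b - r) (b' + r)) := by
      have hc : Continuous fun p : ℝ × ℝ => ‖F ((p.1 : ℂ) + (p.2 : ℂ) * Complex.I) ^ 2‖ := by
        have := hF.continuous
        fun_prop
      have h := hc.continuousOn.integrableOn_compact (μ := volume.prod volume)
        ((isCompact_Icc (a := b - r) (b := b' + r)).prod
          (isCompact_Icc (a := -(T + 1 / 2)) (b := T + 1 / 2)))
      rw [IntegrableOn, ← Measure.prod_restrict] at h
      exact h.integral_prod_left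
    have hD : 0 ≤ Real.exp (9 / 4) * (C₀ * T * M) := by positivity
    calc ∫ x in Icc (b - r) (b' + r), ∫ t in Icc (-(T + 1 / 2)) (T + 1 / 2),
          ‖F ((x : ℂ) + (t : ℂ) * Complex.I) ^ 2‖ ≤
          ∫ x in Icc (b - r) (b' + r), Real.exp (9 / 4) * (C₀ * T * M) :=
          setIntegral_mono_on hprod (integrableOn_const (by simp)) measurableSet_Icc hline
      _ = (b' + r - (b - r)) * (Real.exp (9 / 4) * (C₀ * T * M)) := by
          rw [setIntegral_const]
          simp only [smul_eq_mul, Measure.real, Real.volume_Icc]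
          rw [ENNReal.toReal_ofReal (by (clear * - hr hbb; linarith))]
      _ ≤ 2 * (Real.exp (9 / 4) * (C₀ * T * M)) :=
          mul_le_mul_of_nonneg_right (by linarith) hD
  have hgoal : ∑ ρ ∈ Z, ‖F ρ‖ ^ 2 ≤ 2 * Real.exp (9 / 4) * C₀ / Real.pi / r ^ 2 * T * M := by
    have e : ∑ ρ ∈ Z, ‖F ρ ^ 2‖ = ∑ ρ ∈ Z, ‖F ρ‖ ^ 2 :=
      Finset.sum_congr rfl fun ρ _ => norm_pow _ _
    rw [e] at key
    have hp : 0 < Real.pi * r ^ 2 := by positivity
    have : 2 * Real.exp (9 / 4) * C₀ / Real.pi / r ^ 2 * T * M =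
        2 * (Real.exp (9 / 4) * (C₀ * T * M)) / (Real.pi * r ^ 2) := by
      (clear * - hT hr hC₀; field_simp)
    rw [this, le_div_iff₀ hp, mul_comm]
    exact key
  exact hgoal

end Pool.Agent.M20.Helper9.KC
end

/- Helper53.KN.Helper1.KF.MS -/
section
/-!
# F2: mean square over the cells for one class of zeros
-/

set_option autoImplicit false
open Filter Topology
open scoped Classical ComplexConjugate

namespace Pool.Agent.M20.Helper1.KF

open Pool.Agent.M20.Helper60.KS
open Pool.Agent.M20.Helper1.KC (eta norm_eta_le eta_mul step1)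

/-- mean square: `|U| v^2 ≤ C c0^2 |Z| (log X)^2 T X^(2(b'-1))` -/
theorem msClass : ∃ C : ℝ, 0 < C ∧ ∀ (X T b b' c0 v : ℝ) (Z : Finset ℂ) (c : ℂ → ℂ) (U : Finset ℝ),
    8 ≤ X → 1 ≤ T → b ≤ b' → b' ≤ b + 1 → b' ≤ 1 → 0 ≤ c0 → 0 ≤ v → InStrip Z b b' T → Spaced1 Z →
    (∀ ρ ∈ Z, ‖c ρ‖ ≤ c0) → (∀ u ∈ U, Real.log X ≤ u ∧ u ≤ Real.log X + 1) →
    (∀ u ∈ U, ∀ u' ∈ U, u ≠ u' → 1 / T < |u - u'|) →
    (∀ u ∈ U, v ≤ ‖∑ ρ ∈ Z, c ρ * Complex.exp ((ρ - 1) * (u : ℂ))‖) →
    (U.card : ℝ) * v ^ 2 ≤ C * c0 ^ 2 * Z.card * Real.log X ^ 2 * T * X ^ (2 * (b' - 1)) := by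
  obtain ⟨C1, hC1, h1⟩ := Pool.Agent.M20.Helper9.KC.discMV Pool.Agent.M20.Helper65.KC.meanValue
  refine ⟨C1 * Real.exp 4, by positivity, ?_⟩
  intro X T b b' c0 v Z c U hX hT hb hb' hb1 hc0 hv hZ1 hZ2 hc hU1 hU2 hU3
  have hX0 : 0 < X := by linarith
  have hlX : 2 ≤ Real.log X := Pool.Agent.M20.Helper1.KC.log8.trans (Real.log_le_log (by norm_num) hX)
  set l := Real.log X with hl
  set r : ℝ := 1 / l with hr
  have hr0 : 0 < r := by positivity
  have hr2 : r ≤ 1 / 2 := one_div_le_one_div_of_le (by norm_num) hlX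
  have hrl : r * l = 1 := by rw [hr]; field_simp
  set e : ℝ → ℂ := fun u => eta (∑ ρ ∈ Z, c ρ * Complex.exp ((ρ - 1) * (u : ℂ))) with he
  have s1 := step1 Z c U c0 v hv hc hU3
  have key := h1 ℝ U (fun u => e u * Complex.exp (-(u : ℂ))) (fun u => u)
    T b b' r ((U.card : ℝ) * (Real.exp 4 * X ^ (2 * (b' - 1)))) Z hT hr0 hr2 hb hb' hZ1 hZ2 (by
      intro σ hσ1 hσ2
      have hterm : ∀ u ∈ U, (∑ u' ∈ U, if |u - u'| ≤ 1 / T then ‖e u * Complex.exp (-(u : ℂ))‖ *
          ‖e u' * Complex.exp (-(u' : ℂ))‖ * Real.exp (σ * (u + u')) else 0) ≤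
          Real.exp 4 * X ^ (2 * (b' - 1)) := by
        intro u hu
        rw [Finset.sum_eq_single u]
        · rw [if_pos (by simp; (clear * - hT hr0 hr2; linarith))]
          have e1 : ‖e u * Complex.exp (-(u : ℂ))‖ ≤ Real.exp (-u) := by
            rw [norm_mul, Complex.norm_exp]
            have : ‖e u‖ ≤ 1 := norm_eta_le _
            calc ‖e u‖ * Real.exp (-(u : ℂ)).re ≤ 1 * Real.exp (-(u : ℂ)).re :=
                  mul_le_mul_of_nonneg_right this (Real.exp_pos _).le
              _ = Real.exp (-u) := by simp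
          calc ‖e u * Complex.exp (-(u : ℂ))‖ * ‖e u * Complex.exp (-(u : ℂ))‖ * Real.exp (σ * (u + u)) ≤
                Real.exp (-u) * Real.exp (-u) * Real.exp (σ * (u + u)) := by (clear * - e1; gcongr)
            _ = Real.exp (2 * (σ - 1) * u) := by
                rw [← Real.exp_add, ← Real.exp_add]; congr 1; ring
            _ ≤ Real.exp (4 + 2 * (b' - 1) * l) := by
                apply Real.exp_le_exp.2
                obtain ⟨hu1, hu2⟩ := hU1 u hu
                have f1 : (σ - 1) * u ≤ (b' + r - 1) * u := by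
                  apply mul_le_mul_of_nonneg_right _ (by (clear * - hlX hr0 hr2 hu1; linarith)); linarith
                have f2 : (b' - 1) * u ≤ (b' - 1) * l := by
                  apply mul_le_mul_of_nonpos_left hu1; linarith
                have f3 : r * u ≤ r * (l + 1) := mul_le_mul_of_nonneg_left hu2 hr0.le
                (clear * - hr0 hr2 hrl f1 f2 f3; nlinarith)
            _ = Real.exp 4 * X ^ (2 * (b' - 1)) := by
                rw [Real.exp_add, Real.rpow_def_of_pos hX0]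
                congr 2
                ring
        · intro u' hu' hne
          rw [if_neg]
          exact not_le.2 (hU2 u hu u' hu' (Ne.symm hne))
        · intro h; exact absurd hu h
      refine (Finset.sum_le_sum hterm).trans ?_
      rw [Finset.sum_const, nsmul_eq_mul])
  have hBeq : ∀ ρ : ℂ, ∑ u ∈ U, e u * Complex.exp ((ρ - 1) * (u : ℂ)) =
      ∑ u ∈ U, (e u * Complex.exp (-(u : ℂ))) * Complex.exp ((u : ℂ) * ρ) := by
    intro ρ
    refine Finset.sum_congr rfl (fun u _ => ?_)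
    have : Complex.exp ((ρ - 1) * (u : ℂ)) = Complex.exp (-(u : ℂ)) * Complex.exp ((u : ℂ) * ρ) := by
      rw [← Complex.exp_add]; congr 1; ring
    rw [this]; ring
  have hr2' : 1 / r ^ 2 = l ^ 2 := by rw [hr]; field_simp
  rcases Nat.eq_zero_or_pos U.card with hU0 | hU0
  · rw [hU0]
    simp only [Nat.cast_zero, zero_mul]
    (clear * - hC1 hlX hT hX; positivity)
  have hUp : (0 : ℝ) < U.card := by exact_mod_cast hU0
  have s2 : ((U.card : ℝ) * v) ^ 2 ≤ c0 ^ 2 * (Z.card * (C1 * l ^ 2 * T *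
      ((U.card : ℝ) * (Real.exp 4 * X ^ (2 * (b' - 1)))))) := by
    refine s1.trans ?_
    have : ∑ ρ ∈ Z, ‖∑ u ∈ U, e u * Complex.exp ((ρ - 1) * (u : ℂ))‖ ^ 2 ≤
        C1 * l ^ 2 * T * ((U.card : ℝ) * (Real.exp 4 * X ^ (2 * (b' - 1)))) := by
      calc ∑ ρ ∈ Z, ‖∑ u ∈ U, e u * Complex.exp ((ρ - 1) * (u : ℂ))‖ ^ 2 =
            ∑ ρ ∈ Z, ‖∑ u ∈ U, (e u * Complex.exp (-(u : ℂ))) * Complex.exp ((u : ℂ) * ρ)‖ ^ 2 := by
            refine Finset.sum_congr rfl (fun ρ _ => ?_)
            rw [hBeq]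
        _ ≤ C1 / r ^ 2 * T * ((U.card : ℝ) * (Real.exp 4 * X ^ (2 * (b' - 1)))) := key
        _ = _ := by rw [div_eq_mul_one_div, hr2']
    (clear * - this; gcongr)
  have s3 : (U.card : ℝ) * ((U.card : ℝ) * v ^ 2) ≤ (U.card : ℝ) * (C1 * Real.exp 4 * c0 ^ 2 * Z.card * l ^ 2 * T *
      X ^ (2 * (b' - 1))) := by
    calc (U.card : ℝ) * ((U.card : ℝ) * v ^ 2) = ((U.card : ℝ) * v) ^ 2 := by ring
      _ ≤ _ := s2
      _ = _ := by ring
  exact le_of_mul_le_mul_left s3 hUp

end Pool.Agent.M20.Helper1.KF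
end

/- Helper53.KN.Helper1.KL.ShiftIter -/
section
/-! Helper8/KSZ/ShiftIter.lean adapted to the line 0.575 (box 57/100) by helper1 -/

set_option autoImplicit false
open Filter Topology MeasureTheory

namespace Pool.Agent.M20.Helper1.KL

open Pool.Agent.M20.Helper8.KSZ.Iter hiding step
open Pool.Agent.M20.Helper10.QRH Pool.Agent.M20.Helper69.QRH
open Pool.Agent.M20.Helper79.QRH (tri_cont tri_zero tri_nonneg tri_le KK_eq KK_cont
  integral_eq_interval)

theorem step (hK : KFacts) (h8 : KerFacts) {C T : ℝ} (hT : 1 ≤ T) (hC : 0 < C) {M : Multiset ℂ}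
    {Z : ℂ → ℂ} (hB : Box T M Z) {lam : ℝ} (hl : 0 < lam) {j : ℕ}
    (ih : ∀ u : ℝ, 1 + j * lam ≤ u → ‖lhs (ker lam j) (j + 1) lam M u - line (j + 1) lam T Z u‖ ≤
      C * Real.exp (2 * (u + j * lam)) * (Real.log (T + 2)) ^ 2 / (lam ^ 2 * T))
    {u : ℝ} (hu : 1 + ((j + 1 : ℕ) : ℝ) * lam ≤ u) :
    ‖lhs (ker lam (j + 1)) (j + 1 + 1) lam M u - line (j + 1 + 1) lam T Z u‖ ≤
      C * Real.exp (2 * (u + ((j + 1 : ℕ) : ℝ) * lam)) * (Real.log (T + 2)) ^ 2 /
        (lam ^ 2 * T) := by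
  obtain ⟨hkc, -, -, hkz⟩ := h8 lam hl j
  obtain ⟨-, -, -, hkz'⟩ := h8 lam hl (j + 1)
  have hT0 : 0 < T := by (clear * - hT; linarith)
  -- finite sums
  set N : ℕ := ⌈Real.exp (u + ((j : ℝ) + 2) * lam)⌉₊ with hN
  have hN1 : 1 ≤ N := Nat.one_le_iff_ne_zero.2 (Nat.ceil_pos.2 (Real.exp_pos _)).ne'
  have hNl : u + ((j : ℝ) + 2) * lam ≤ Real.log N := by
    rw [Real.le_log_iff_exp_le (by exact_mod_cast hN1)]
    exact Nat.le_ceil _
  have hs1 : ∀ w : ℝ, |w| ≤ lam → (∑' n : ℕ, ArithmeticFunction.vonMangoldt n *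
      ker lam j ((u - w) - Real.log n)) = ∑ n ∈ Finset.range N,
      ArithmeticFunction.vonMangoldt n * ker lam j ((u - w) - Real.log n) := by
    intro w hw
    apply tsum_eq (R := ((j : ℝ) + 1) * lam) hkz hN1
    have := (abs_le.1 hw).1
    (clear * - hNl this; linarith)
  have hs2 : (∑' n : ℕ, ArithmeticFunction.vonMangoldt n *
      ker lam (j + 1) (u - Real.log n)) = ∑ n ∈ Finset.range N,
      ArithmeticFunction.vonMangoldt n * ker lam (j + 1) (u - Real.log n) := by
    apply tsum_eq (R := (((j + 1 : ℕ) : ℝ) + 1) * lam) hkz' hN1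
    push_cast
    (clear * - hNl; linarith)
  -- the line
  exact by
    have hGc : ContinuousOn (fun t : ℝ => KK lam ((0.575 : ℝ) + t * Complex.I) ^ (j + 1) *
        (-logDeriv Z ((0.575 : ℝ) + t * Complex.I))) (Set.Icc (-T) T) := by
      have h1 : Continuous (fun t : ℝ => KK lam ((0.575 : ℝ) + t * Complex.I)) :=
        (KK_cont hl).comp (by fun_prop)
      refine (h1.pow _).continuousOn.mul (ContinuousOn.neg ?_)
      intro t ht
      apply ContinuousAt.continuousWithinAt
      have hne : Z ((0.575 : ℝ) + t * Complex.I) ≠ 0 := by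
        apply hB.ne
        · simp only [Complex.add_re, Complex.ofReal_re, Complex.mul_re, Complex.I_re, mul_zero,
            Complex.ofReal_im, Complex.I_im, mul_one, sub_self, add_zero]
          norm_num
        · simp only [Complex.add_im, Complex.ofReal_im, Complex.mul_im, Complex.ofReal_re,
            Complex.I_im, mul_one, Complex.I_re, mul_zero, add_zero, zero_add]
          rw [abs_lt]
          constructor <;> (clear * - ht; linarith [ht.1, ht.2])
      have h2 : ContinuousAt (logDeriv Z) ((0.575 : ℝ) + t * Complex.I) := by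
        have h3 : DifferentiableAt ℂ (deriv Z) ((0.575 : ℝ) + t * Complex.I) := hB.diff.deriv _
        exact (h3.div (hB.diff _) hne).continuousAt
      exact ContinuousAt.comp (f := fun t : ℝ => ((0.575 : ℝ) : ℂ) + t * Complex.I) h2
        (by fun_prop)
    obtain ⟨G, hG, hGe⟩ := exists_ext hT0.le hGc
    have hline : ∀ v : ℝ, line (j + 1) lam T Z v = (1 / (2 * Real.pi)) * ∫ t in (-T)..T, G t *
        Complex.exp ((((0.575 : ℝ) : ℂ) + t * Complex.I) * v) := by
      intro v
      unfold line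
      congr 1
      apply intervalIntegral.integral_congr
      intro t ht
      rw [Set.uIcc_of_le (by (clear * - hT; linarith))] at ht
      beta_reduce
      rw [hGe t ht]
    have hline' : ∀ v : ℝ, line (j + 1 + 1) lam T Z v = (1 / (2 * Real.pi)) * ∫ t in (-T)..T,
        (G t * KK lam ((0.575 : ℝ) + t * Complex.I)) *
        Complex.exp ((((0.575 : ℝ) : ℂ) + t * Complex.I) * v) := by
      intro v
      unfold line
      congr 1
      apply intervalIntegral.integral_congr
      intro t ht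
      rw [Set.uIcc_of_le (by (clear * - hT; linarith))] at ht
      beta_reduce
      rw [hGe t ht]
      ring
    -- the four pieces
    have htc := triC_cont lam
    have i1 := avg_fsum (K' := ker lam (j + 1)) hl hkc (fun v => rfl) N u
    have i2 := avg_exp hl 1 u
    exact by
      have i3 := avg_msum hl M (fun ρ => KK lam ρ ^ (j + 1)) u
      have i4 := avg_lint hl hG (0.575 : ℝ) T u
      have c1 : Continuous (fun w : ℝ => (tri lam w : ℂ) * ((∑ n ∈ Finset.range N,
          ArithmeticFunction.vonMangoldt n * ker lam j ((u - w) - Real.log n) : ℝ) : ℂ)) := by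
        have h1 := (fsum_cont hkc N).comp (by fun_prop : Continuous (fun w : ℝ => u - w))
        exact htc.mul (Complex.continuous_ofReal.comp h1)
      have c2 : Continuous (fun w : ℝ => (tri lam w : ℂ) * Complex.exp (1 * ((u - w : ℝ) : ℂ))) := by
        fun_prop
      have c3 : Continuous (fun w : ℝ => (tri lam w : ℂ) * (M.map (fun ρ =>
          Complex.exp (ρ * ((u - w : ℝ) : ℂ)) * KK lam ρ ^ (j + 1))).sum) := by
        have h1 := (msum_cont M (fun ρ => KK lam ρ ^ (j + 1))).comp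
          (by fun_prop : Continuous (fun w : ℝ => u - w))
        exact htc.mul h1
      have c4 : Continuous (fun w : ℝ => (tri lam w : ℂ) * (∫ t in (-T)..T, G t *
          Complex.exp ((((0.575 : ℝ) : ℂ) + t * Complex.I) * ((u - w : ℝ) : ℂ)))) := by
        have h1 := (lint_cont hG (0.575 : ℝ) T).comp (by fun_prop : Continuous (fun w : ℝ => u - w))
        exact htc.mul h1
      exact by
        have key : lhs (ker lam (j + 1)) (j + 1 + 1) lam M u - line (j + 1 + 1) lam T Z u =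
            ∫ w in (-lam)..lam, (tri lam w : ℂ) *
              (lhs (ker lam j) (j + 1) lam M (u - w) - line (j + 1) lam T Z (u - w)) := by
          have e1 : ∫ w in (-lam)..lam, (tri lam w : ℂ) *
              (lhs (ker lam j) (j + 1) lam M (u - w) - line (j + 1) lam T Z (u - w)) =
              ∫ w in (-lam)..lam, ((((tri lam w : ℂ) * ((∑ n ∈ Finset.range N,
            ArithmeticFunction.vonMangoldt n * ker lam j ((u - w) - Real.log n) : ℝ) : ℂ)) -
              ((tri lam w : ℂ) * Complex.exp (1 * ((u - w : ℝ) : ℂ))) * KK lam 1 ^ (j + 1)) +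
              (tri lam w : ℂ) * (M.map (fun ρ =>
            Complex.exp (ρ * ((u - w : ℝ) : ℂ)) * KK lam ρ ^ (j + 1))).sum) -
              (1 / (2 * Real.pi)) * ((tri lam w : ℂ) * (∫ t in (-T)..T, G t *
            Complex.exp ((((0.575 : ℝ) : ℂ) + t * Complex.I) * ((u - w : ℝ) : ℂ)))) := by
            apply intervalIntegral.integral_congr
            intro w hw
            rw [Set.uIcc_of_le (by (clear * - hl; linarith))] at hw
            beta_reduce
            rw [hline]
            unfold lhs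
            rw [hs1 w (abs_le.2 hw), one_mul]
            ring
          rw [e1, intervalIntegral.integral_sub, intervalIntegral.integral_add,
            intervalIntegral.integral_sub, intervalIntegral.integral_mul_const,
            intervalIntegral.integral_const_mul, i1, i2, i3, i4, hline']
          · unfold lhs
            rw [hs2]
            simp only [one_mul, ← pow_succ]
            ring
          · exact c1.intervalIntegrable _ _
          · exact (c2.mul continuous_const).intervalIntegrable _ _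
          · exact (c1.sub (c2.mul continuous_const)).intervalIntegrable _ _
          · exact c3.intervalIntegrable _ _
          · exact ((c1.sub (c2.mul continuous_const)).add c3).intervalIntegrable _ _
          · exact (continuous_const.mul c4).intervalIntegrable _ _
        rw [key]
        set B : ℝ := C * Real.exp (2 * (u + ((j + 1 : ℕ) : ℝ) * lam)) * (Real.log (T + 2)) ^ 2 /
              (lam ^ 2 * T) with hBd
        have hb : ‖∫ w in (-lam)..lam, (tri lam w : ℂ) *
              (lhs (ker lam j) (j + 1) lam M (u - w) - line (j + 1) lam T Z (u - w))‖ ≤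
            ∫ w in (-lam)..lam, tri lam w * B := by
          apply intervalIntegral.norm_integral_le_of_norm_le (by (clear * - hl; linarith))
          · refine Filter.Eventually.of_forall ?_
            intro w hw
            have hw' : |w| ≤ lam := abs_le.2 ⟨hw.1.le, hw.2⟩
            rw [norm_mul, Complex.norm_real, Real.norm_of_nonneg (tri_nonneg hl)]
            apply mul_le_mul_of_nonneg_left _ (tri_nonneg hl)
            push_cast at hu
            refine (ih (u - w) ?_).trans ?_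
            · (clear * - hu hw; linarith [hw.2])
            · have hexp : Real.exp (2 * (u - w + j * lam)) ≤
                  Real.exp (2 * (u + ((j + 1 : ℕ) : ℝ) * lam)) := by
                apply Real.exp_le_exp.2
                push_cast
                (clear * - hw; linarith [hw.1])
              rw [hBd]
              (clear * - hexp hC hl hT; gcongr)
          · have := tri_cont lam
            apply Continuous.intervalIntegrable
            fun_prop
        rw [intervalIntegral.integral_mul_const, tri_int hl, one_mul] at hb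
        exact hb

theorem shiftIter (hK : KFacts) (h7 : Shift) (h8 : KerFacts) : ShiftIter := by
  obtain ⟨C, hC, hCs⟩ := h7
  refine ⟨C, hC, ?_⟩
  intro T M Z hT hB lam u j hl hl1
  induction j generalizing u with
  | zero =>
    intro hu
    have := hCs T M Z hT hB lam u hl hl1 (by simpa using hu)
    simpa [Helper46.KSZ.ker] using this
  | succ j ih =>
    intro hu
    exact step hK h8 hT hC hB hl (fun v hv => ih v hv) hu

end Pool.Agent.M20.Helper1.KL
end

/- Helper53.KN.Helper48.KSZ.E6 -/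
section
/-!
# KSZ-E6: the explicit identity on the line of real part two
-/

set_option autoImplicit false
open Filter Topology MeasureTheory Complex
open scoped Classical

namespace Pool.Agent.M20.Helper48.KSZ

open Pool.Agent.M20.Helper10.QRH Pool.Agent.M20.Helper69.QRH Pool.Agent.M20.Helper46.KSZ
open Pool.Agent.M20.Helper52.QRH Pool.Agent.M20.Helper52.QRH.Expl

theorem e6_ne {T : ℝ} {M : Multiset ℂ} {Z : ℂ → ℂ} (hB : Box T M Z) {s : ℂ} (hs : 1 < s.re) :
    Z s ≠ 0 := by
  intro h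
  have h1 := hB.eq s
  rw [h, mul_zero] at h1
  have hs1 : s ≠ 1 := by
    rintro rfl
    simp at hs
  rw [EZ_eq hs1] at h1
  rcases mul_eq_zero.1 h1 with h2 | h2
  · exact hs1 (sub_eq_zero.1 h2)
  · exact riemannZeta_ne_zero_of_one_lt_re hs h2

theorem e6_logDeriv {T : ℝ} {M : Multiset ℂ} {Z : ℂ → ℂ} (hB : Box T M Z) {s : ℂ}
    (hs : 1 < s.re) :
    -logDeriv Z s = LSeries (fun n => (ArithmeticFunction.vonMangoldt n : ℂ)) s
        - 1 / (s - 1) + (M.map (fun ρ => 1 / (s - ρ))).sum := by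
  have hsM : ∀ ρ ∈ M, s ≠ ρ := by
    rintro ρ hρ rfl
    have := (hB.mem s hρ).2.2.1
    linarith
  have h1 : logDeriv EZ s = logDeriv (Qp M) s + logDeriv Z s := by
    have h2 : EZ = fun z => Qp M z * Z z := funext hB.eq
    rw [h2, logDeriv_mul s (Qp_ne_zero M s hsM) (e6_ne hB hs)
      (Qp_differentiable M s) (hB.diff s)]
  rw [logDeriv_EZ hs, logDeriv_Qp M s hsM] at h1
  linear_combination h1

theorem lineTwo (hK : KFacts) (hG : GBound) : LineTwo := by
  intro T M Z hT hB lam u hl hl1 hu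
  obtain ⟨C, hC, hGb⟩ := hG
  obtain ⟨-, hG2⟩ := hGb T M Z hT hB
  have hs1 : ∀ t : ℝ, 1 < (((2 : ℝ) : ℂ) + t * Complex.I).re := by
    intro t; rw [line_re]; norm_num
  -- continuity of the logarithmic derivative on the line
  have hdZ : Differentiable ℂ (deriv Z) := by
    have h1 := hB.diff.differentiableOn.deriv isOpen_univ
    rwa [differentiableOn_univ] at h1
  have hcont : Continuous (fun t : ℝ => -logDeriv Z (((2 : ℝ) : ℂ) + t * Complex.I)) := by
    have h1 : Continuous (fun t : ℝ => deriv Z (((2 : ℝ) : ℂ) + t * Complex.I)) :=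
      hdZ.continuous.comp (by fun_prop)
    have h2 : Continuous (fun t : ℝ => Z (((2 : ℝ) : ℂ) + t * Complex.I)) :=
      hB.diff.continuous.comp (by fun_prop)
    have h3 := (h1.div h2 (fun t => e6_ne hB (hs1 t))).neg
    exact h3
  set J : ℝ → ℂ := fun t => KK lam (((2 : ℝ) : ℂ) + t * Complex.I) *
      (-logDeriv Z (((2 : ℝ) : ℂ) + t * Complex.I)) * Complex.exp ((((2 : ℝ) : ℂ) + t * Complex.I) * u)
    with hJ
  have iJ : Integrable J := by
    have hA := A_integrable hK hl hl1 2 (by norm_num) le_rfl u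
    have h1 := hA.mul_bdd (c := C * (Real.log (T + 2)) ^ 2)
      (g := fun t : ℝ => -logDeriv Z (((2 : ℝ) : ℂ) + t * Complex.I)) hcont.aestronglyMeasurable
      (Filter.Eventually.of_forall fun t => by
        rw [norm_neg]
        have := hG2 t
        simpa using this)
    refine h1.congr (Filter.Eventually.of_forall fun t => ?_)
    simp only [hJ]
    ring
  refine ⟨iJ, ?_⟩
  have hmem : ∀ ρ ∈ M, ρ.re < 2 := fun ρ hρ => by linarith [(hB.mem ρ hρ).2.2.1]
  obtain ⟨ip, ep⟩ := polar_sum hK hl hl1 u hu M hmem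
  obtain ⟨i1, e1⟩ := polar hK hl hl1 u hu 1 (by simp)
  have es := series hK hl hl1 u
  have hdecomp : ∀ t : ℝ, KK lam ((2 : ℝ) + t * Complex.I) *
      LSeries (fun n => (ArithmeticFunction.vonMangoldt n : ℂ)) ((2 : ℝ) + t * Complex.I) *
      Complex.exp (((2 : ℝ) + t * Complex.I) * u) = J t +
      KK lam ((2 : ℝ) + t * Complex.I) * (1 / (((2 : ℝ) + t * Complex.I) - 1)) *
      Complex.exp (((2 : ℝ) + t * Complex.I) * u) -
      KK lam ((2 : ℝ) + t * Complex.I) * (M.map (fun ρ => 1 / (((2 : ℝ) + t * Complex.I) - ρ))).sum *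
      Complex.exp (((2 : ℝ) + t * Complex.I) * u) := by
    intro t
    have := e6_logDeriv hB (hs1 t)
    simp only [hJ]
    rw [this]
    ring
  simp only [hdecomp] at es
  rw [integral3 iJ i1 ip, ep, e1] at es
  have hfin : ∫ t : ℝ, J t = 2 * Real.pi * lhs (tri lam) 1 lam M u := by
    unfold lhs
    simp only [pow_one]
    rw [one_mul] at es
    linear_combination es
  have hpc : (Real.pi : ℂ) ≠ 0 := by exact_mod_cast Real.pi_pos.ne'
  rw [show (∫ t : ℝ, KK lam ((2 : ℝ) + t * Complex.I) *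
      (-logDeriv Z ((2 : ℝ) + t * Complex.I)) * Complex.exp (((2 : ℝ) + t * Complex.I) * u)) =
      ∫ t : ℝ, J t from rfl, hfin,
    ← mul_assoc, one_div, inv_mul_cancel₀ (by simp), one_mul]

end Pool.Agent.M20.Helper48.KSZ
end
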