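import Mathlib
import Pool.Agent.Helper53.KO.G01
import Pool.Agent.Helper53.KO.G05
import Pool.Agent.Helper53.KO.G07
import Pool.Agent.Helper53.KO.G09
import Pool.Agent.Helper53.KO.G13
import Pool.Agent.Helper53.KO.G14
import Pool.Agent.Helper53.KO.G17
import Pool.Agent.Helper53.KO.G20

set_option linter.all false

/- Helper53.KN.Helper29.KS.Mass -/
section
/-! Project KS: masses.  `SumW`, `Rank`, `MassC1`, `MassR1` of Helper16/KS/St.lean. -/

set_option autoImplicit false
open scoped Classical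
open Filter Topology Finset

namespace Pool.Agent.M20.Helper29.KS

open Pool.Agent.M20.Helper16.KS
open Pool.Agent.M20.Helper33.KS (cm cm_prime cm_nonneg cm_mono cm_rpow cm_mul_fun sum_cm_le')

/-! ### completely multiplicative majorants -/

theorem CM_eq (g : ℕ → ℝ) {n : ℕ} (hn : n ≠ 0) : CM g n = cm g n := by
  induction n using Nat.recOnMul with
  | zero => exact absurd rfl hn
  | one => simp [CM]
  | prime p hp => rw [cm_prime _ hp, CM, Nat.primeFactorsList_prime hp]; simp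
  | mul m n hm hn' =>
    have hm0 : m ≠ 0 := fun h => hn (by simp [h])
    have hn0 : n ≠ 0 := fun h => hn (by simp [h])
    rw [map_mul, ← hm hm0, ← hn' hn0]
    simp only [CM]
    rw [(List.Perm.map g (Nat.perm_primeFactorsList_mul hm0 hn0)).prod_eq, List.map_append, List.prod_append]

/-- `1 + log n ≤ ∏ (1 + log p)` -/
theorem one_add_log_le {n : ℕ} (hn : n ≠ 0) : 1 + Real.log n ≤ cm (fun p => 1 + Real.log p) n := by
  induction n using Nat.recOnMul with
  | zero => exact absurd rfl hn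
  | one => simp
  | prime p hp => rw [cm_prime _ hp]
  | mul m n hm hn' =>
    have hm0 : m ≠ 0 := fun h => hn (by simp [h])
    have hn0 : n ≠ 0 := fun h => hn (by simp [h])
    rw [map_mul]
    have h1 := hm hm0
    have h2 := hn' hn0
    have l1 : 0 ≤ Real.log m := Real.log_natCast_nonneg m
    have l2 : 0 ≤ Real.log n := Real.log_natCast_nonneg n
    push_cast
    rw [Real.log_mul (by exact_mod_cast hm0) (by exact_mod_cast hn0)]
    calc 1 + (Real.log m + Real.log n) ≤ (1 + Real.log m) * (1 + Real.log n) := by (clear * - l1 l2; nlinarith [mul_nonneg l1 l2])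
      _ ≤ _ := mul_le_mul h1 h2 (by linarith) (le_trans (by linarith) h1)

/-- sums of completely multiplicative functions with a small sum over the primes -/
theorem sum_cm_small {F : ℕ → ℝ} (hF : ∀ p, p.Prime → 0 ≤ F p) {B : ℝ} (hB2 : B ≤ 1/2)
    (hB : ∀ N : ℕ, ∑ p ∈ (Icc 1 N).filter Nat.Prime, F p ≤ B) (T : Finset ℕ) (hT : ∀ n ∈ T, 2 ≤ n) :
    ∑ n ∈ T, cm F n ≤ 4 * B := by
  have hF2 : ∀ p, p.Prime → F p ≤ 1/2 := by
    intro p hp
    refine le_trans ?_ ((hB p).trans hB2)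
    exact Finset.single_le_sum (f := F) (fun q hq => hF q (mem_filter.1 hq).2)
      (mem_filter.2 ⟨mem_Icc.2 ⟨hp.pos, le_rfl⟩, hp⟩)
  have hB0 : 0 ≤ B := le_trans (Finset.sum_nonneg fun q hq => hF q (mem_filter.1 hq).2) (hB 1)
  obtain ⟨N, hN⟩ : ∃ N, T ⊆ Icc 2 N := ⟨T.sup id, fun n hn => mem_Icc.2 ⟨hT n hn, Finset.le_sup (f := id) hn⟩⟩
  calc ∑ n ∈ T, cm F n ≤ ∑ n ∈ Icc 2 N, cm F n :=
        Finset.sum_le_sum_of_subset_of_nonneg hN fun n _ _ => cm_nonneg hF n
    _ ≤ Real.exp (2 * ∑ p ∈ (Icc 1 N).filter Nat.Prime, F p) - 1 := sum_cm_le' hF hF2 N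
    _ ≤ Real.exp (2 * B) - 1 := by
        have := Real.exp_le_exp.2 (mul_le_mul_of_nonneg_left (hB N) (show (0:ℝ) ≤ 2 by norm_num))
        (clear * - this; linarith)
    _ ≤ 4 * B := by
        have h := Real.abs_exp_sub_one_sub_id_le (x := 2 * B) (by rw [abs_of_nonneg (by (clear * - hB0; linarith))]; linarith)
        rw [abs_le] at h
        (clear * - h hB2 hB0; nlinarith [h.2])

/-! ### the parameters of a system -/

variable (S : Sys)

theorem eta_pos : 0 < S.eta := by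
  have h1 := S.d_pos; have h2 := S.d_le; have h3 := S.c_le
  have : 0 < S.c := by
    have : 0 < S.c / 10 ^ 5 := lt_of_lt_of_le h1 h2
    linarith [mul_pos this (show (0:ℝ) < 10 ^ 5 by norm_num)]
  (clear * - h1 h2 h3; linarith)

theorem c_pos : 0 < S.c := by
  have h1 := S.d_pos; have h2 := S.d_le
  have : 0 < S.c / 10 ^ 5 := lt_of_lt_of_le h1 h2
  linarith [mul_pos this (show (0:ℝ) < 10 ^ 5 by norm_num)]

theorem s_pos : 0 < S.s := by have := S.d_pos; unfold Sys.s; linarith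

theorem tau_pos : 0 < S.tau := by
  have h1 := S.d_pos; have h2 := c_pos S; have h3 := eta_pos S
  unfold Sys.tau Sys.ep; positivity

theorem ec_le (k : ℕ) : ec S.d k ≤ k := by
  rw [ec]
  apply Nat.floor_le_of_le
  have := S.d_pos
  have h : (0 : ℝ) ≤ k := Nat.cast_nonneg k
  have h9 := mul_nonneg h this.le
  linarith

theorem cell_sub {k j n : ℕ} (hj : j < nc S.d k) (hn : n ∈ cell S.d k j) : 2 ^ k ≤ n ∧ n < 2 ^ (k + 1) := by
  rw [cell, mem_Ico] at hn
  rw [nc] at hj
  have he := ec_le S k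
  have h1 : (j + 1) * 2 ^ ec S.d k ≤ 2 ^ (k - ec S.d k) * 2 ^ ec S.d k := Nat.mul_le_mul_right _ hj
  have h2 : 2 ^ (k - ec S.d k) * 2 ^ ec S.d k = 2 ^ k := by rw [← pow_add]; congr 1; omega
  rw [pow_succ]
  omega

theorem mem_badc {k j : ℕ} : j ∈ S.badc k ↔ j < nc S.d k ∧ S.bad k j := by
  rw [Sys.badc, mem_filter, mem_range]

theorem pr_mul_base {m : ℕ} (hm : 1 ≤ m) : S.pr m * S.base m = (m : ℝ) ^ (-(1 - S.s + S.tau)) := by
  have h : (0 : ℝ) < m := by exact_mod_cast hm
  rw [Sys.pr, Sys.base, ← Real.rpow_add h]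
  congr 1
  unfold Sys.hh
  ring

/-- facts about a candidate -/
theorem cand_facts {k j : ℕ} (hk : S.K ≤ k) (hj : j ∈ S.badc k) {x : ℕ × ℕ} (hx : x ∈ S.Cand k j) :
    x.1.Prime ∧ (2 : ℝ) ^ ((k : ℝ) / 3) ≤ x.1 ∧ 1 < x.2 ∧ x.1 < 2 ^ (k + 1) ∧ x.2 < 2 ^ (k + 1) := by
  obtain ⟨h1, h2⟩ := (mem_badc S).1 hj
  obtain ⟨c1, c2, c3, c4, c5, c6, c7⟩ := S.cand k hk j h1 h2 x hx
  have h3 := (cell_sub S h1 c5).2
  refine ⟨c1, c2, c4, lt_of_le_of_lt ?_ h3, lt_of_le_of_lt ?_ h3⟩
  · exact Nat.le_mul_of_pos_right _ (by omega)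
  · exact Nat.le_mul_of_pos_left _ c1.pos

/-- WOLE for one `k` -/
theorem wo_le {k0 : ℕ} {R : Set ℕ} (hR : S.Good k0 R) {k j : ℕ} (hk : k0 ≤ k) (hK : S.K ≤ k) (hj : j ∈ S.badc k)
    {m : ℕ} (hm : 1 ≤ m) : 0 ≤ S.wo R k j m ∧ S.wo R k j m ≤ (2 / S.c1) / (k : ℝ) ^ 2 * S.wd k m := by
  obtain ⟨h1, h2⟩ := (mem_badc S).1 hj
  have hlow := hR.lower k hk j hj
  have hmany := S.many k hK j h1 h2
  have hkpos : (0 : ℝ) < k := by
    have : 0 < k := lt_of_lt_of_le S.K_pos hK
    exact_mod_cast this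
  have hc1 := S.c1_pos
  have hNN : S.c1 * 2 ^ ec S.d k / k ^ 2 / 2 ≤ S.NN R k j := by (clear * - hlow hmany; linarith)
  have hNpos : 0 < S.c1 * 2 ^ ec S.d k / (k : ℝ) ^ 2 / 2 := by (clear * - hc1 hkpos; positivity)
  have hm0 : (0 : ℝ) < m := by exact_mod_cast hm
  have hval : S.wo R k j m = S.G k / S.NN R k j * (m : ℝ) ^ (1 - S.s + S.tau) := by
    rw [Sys.wo, mul_assoc, pr_mul_base S hm, Real.rpow_neg hm0.le]
    have : 0 < (m : ℝ) ^ (1 - S.s + S.tau) := Real.rpow_pos_of_pos hm0 _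
    (clear * - hm; field_simp)
  have hG : 0 < S.G k := by rw [Sys.G]; (clear * - hkpos; positivity)
  have hmp : 0 < (m : ℝ) ^ (1 - S.s + S.tau) := Real.rpow_pos_of_pos hm0 _
  constructor
  · rw [hval]
    have : 0 < S.NN R k j := lt_of_lt_of_le hNpos hNN
    (clear * - hG this hm; positivity)
  · rw [hval, Sys.wd, ← mul_assoc]
    apply mul_le_mul_of_nonneg_right _ hmp.le
    calc S.G k / S.NN R k j ≤ S.G k / (S.c1 * 2 ^ ec S.d k / k ^ 2 / 2) :=
          div_le_div_of_nonneg_left hG.le hNpos hNN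
      _ = (2 / S.c1) / (k : ℝ) ^ 2 * (2 : ℝ) ^ ((S.s - 1) * k) := by
          rw [Sys.G]
          have h3 : (0 : ℝ) < (2 : ℝ) ^ ec S.d k := by positivity
          (clear * - hc1 hkpos; field_simp)

theorem woLe : WoLe := fun S => ⟨S.K, fun _ hk0 _ hR _ hk _ hj _ hm => wo_le S hR hk (hk0.trans hk) hj hm⟩

/-- mass of the control primes with respect to a weight `h` -/
theorem ctl_mass {k0 : ℕ} {R : Set ℕ} (hR : S.Good k0 R) (hK : S.K ≤ k0) (h : ℕ → ℝ) (H : ℕ → ℝ)
    (hh0 : ∀ q, 0 ≤ h q) (hH : ∀ k, k0 ≤ k → ∀ q : ℕ, q.Prime → q < 2 ^ (k + 1) → h q ≤ H k * (q : ℝ) ^ (-S.s))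
    (hH0 : ∀ k, 0 ≤ H k) (κ : ℕ → ℕ) (hκ : ∀ p, κ p ≤ top p) (N : ℕ) :
    ∑ p ∈ (Icc 1 N).filter Nat.Prime, S.ctl k0 (κ p) R p * h p ≤
      ∑ k ∈ Ico k0 (top N), (2 / S.c1) / (k : ℝ) ^ 2 * H k * (2 : ℝ) ^ (-(S.c / 4) * (k : ℝ)) := by
  have hcw : ∀ k, k0 ≤ k → ∀ j ∈ S.badc k, ∀ q, 0 ≤ S.cw R k j q := by
    intro k hk j hj q
    rw [Sys.cw]
    refine Finset.sum_nonneg fun x hx => ?_
    have hx' := (mem_filter.1 (mem_filter.1 hx).1).1
    exact (wo_le S hR hk (hK.trans hk) hj (cand_facts S (hK.trans hk) hj hx').2.2.1.le).1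
  have h1 : ∀ p ∈ (Icc 1 N).filter Nat.Prime, S.ctl k0 (κ p) R p * h p ≤
      ∑ k ∈ Ico k0 (top N), ∑ j ∈ S.badc k, S.cw R k j p * h p := by
    intro p hp
    have hpN : p ≤ N := (mem_Icc.1 (mem_filter.1 hp).1).2
    have htop : κ p ≤ top N := by
      refine (hκ p).trans ?_
      unfold top
      have := Nat.log_mono_right (b := 2) hpN
      omega
    simp_rw [← Finset.sum_mul]
    apply mul_le_mul_of_nonneg_right _ (hh0 p)
    rw [Sys.ctl]
    apply Finset.sum_le_sum_of_subset_of_nonneg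
    · exact Ico_subset_Ico_right htop
    · intro k hk _
      exact Finset.sum_nonneg fun j hj => hcw k (mem_Ico.1 hk).1 j hj p
  refine (Finset.sum_le_sum h1).trans ?_
  rw [Finset.sum_comm]
  refine Finset.sum_le_sum fun k hk => ?_
  obtain ⟨hk1, hk2⟩ := mem_Ico.1 hk
  rw [Finset.sum_comm]
  have hkpos : (0 : ℝ) < k := by
    have : 0 < k := lt_of_lt_of_le S.K_pos (hK.trans hk1)
    exact_mod_cast this
  have hc1 := S.c1_pos
  have hmass := hR.massC k hk1
  have h2 : ∀ j ∈ S.badc k, ∑ p ∈ (Icc 1 N).filter Nat.Prime, S.cw R k j p * h p ≤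
      ∑ x ∈ S.act R k j, (2 / S.c1) / (k : ℝ) ^ 2 * H k * (S.wd k x.2 * (x.1 : ℝ) ^ (-S.s)) := by
    intro j hj
    have h3 : ∑ p ∈ (Icc 1 N).filter Nat.Prime, S.cw R k j p * h p ≤ ∑ x ∈ S.act R k j, S.wo R k j x.2 * h x.1 := by
      have h4 : ∑ p ∈ (Icc 1 N).filter Nat.Prime, S.cw R k j p * h p
          = ∑ p ∈ (Icc 1 N).filter Nat.Prime, ∑ x ∈ (S.act R k j).filter (fun x => x.1 = p), S.wo R k j x.2 * h x.1 := by
        refine Finset.sum_congr rfl fun p _ => ?_
        rw [Sys.cw, Finset.sum_mul]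
        refine Finset.sum_congr rfl fun x hx => ?_
        rw [(mem_filter.1 hx).2]
      rw [h4, ← Finset.sum_biUnion]
      · apply Finset.sum_le_sum_of_subset_of_nonneg
        · intro x hx
          rw [mem_biUnion] at hx
          obtain ⟨p, -, hx⟩ := hx
          exact (mem_filter.1 hx).1
        · intro x hx _
          have hx' := (mem_filter.1 hx).1
          exact mul_nonneg (wo_le S hR hk1 (hK.trans hk1) hj (cand_facts S (hK.trans hk1) hj hx').2.2.1.le).1 (hh0 _)
      · intro a _ b _ hab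
        apply Finset.disjoint_filter.2
        intro x _ h5 h6
        exact hab (h5.symm.trans h6)
    refine h3.trans (Finset.sum_le_sum fun x hx => ?_)
    have hx' := (mem_filter.1 hx).1
    obtain ⟨f1, f2, f3, f4, f5⟩ := cand_facts S (hK.trans hk1) hj hx'
    obtain ⟨w1, w2⟩ := wo_le S hR hk1 (hK.trans hk1) hj (R := R) (m := x.2) f3.le
    calc S.wo R k j x.2 * h x.1 ≤ ((2 / S.c1) / (k : ℝ) ^ 2 * S.wd k x.2) * (H k * (x.1 : ℝ) ^ (-S.s)) :=
          mul_le_mul w2 (hH k hk1 x.1 f1 f4) (hh0 _) (w1.trans w2)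
      _ = _ := by ring
  refine (Finset.sum_le_sum h2).trans ?_
  simp_rw [← Finset.mul_sum]
  exact mul_le_mul_of_nonneg_left hmass (mul_nonneg (by (clear * - hc1 hkpos; positivity)) (hH0 k))

/-! ### ordinary mass -/

theorem idx_lt {k n : ℕ} (h1 : 2 ^ k ≤ n) (h2 : n < 2 ^ (k + 1)) : Nat.log 2 n = k ∧ S.idx n < nc S.d k ∧
    n ∈ cell S.d k (S.idx n) := by
  have hlog : Nat.log 2 n = k := Nat.log_eq_of_pow_le_of_lt_pow h1 h2
  have he := ec_le S k
  have hpos : 0 < 2 ^ ec S.d k := by positivity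
  have h3 : 2 ^ (k - ec S.d k) * 2 ^ ec S.d k = 2 ^ k := by rw [← pow_add]; congr 1; omega
  refine ⟨hlog, ?_, ?_⟩
  · rw [Sys.idx, hlog, nc, Nat.div_lt_iff_lt_mul hpos, h3]
    rw [pow_succ] at h2
    omega
  · rw [Sys.idx, hlog, cell, mem_Ico]
    have h4 := Nat.div_mul_le_self (n - 2 ^ k) (2 ^ ec S.d k)
    have h5 := Nat.lt_div_mul_add (a := n - 2 ^ k) hpos
    have h6 : ((n - 2 ^ k) / 2 ^ ec S.d k + 1) * 2 ^ ec S.d k = (n - 2 ^ k) / 2 ^ ec S.d k * 2 ^ ec S.d k + 2 ^ ec S.d k := by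
      ring
    constructor <;> omega

theorem ordw_nonneg (k0 p : ℕ) : 0 ≤ S.ordw k0 p := by
  unfold Sys.ordw
  split_ifs
  · exact le_rfl
  · unfold Sys.phi0; (clear * -; positivity)
  · exact le_rfl
  · unfold Sys.G; (clear * -; positivity)

/-- ordinary mass of a cell -/
theorem ordw_cell {k0 k j : ℕ} (hk : k0 ≤ k) (P : Finset ℕ)
    (hP : ∀ p ∈ P, p.Prime ∧ 2 ^ k ≤ p ∧ p < 2 ^ (k + 1) ∧ S.idx p = j) : ∑ p ∈ P, S.ordw k0 p ≤ S.G k := by
  have hG : 0 ≤ S.G k := by unfold Sys.G; positivity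
  have h1 : ∀ p ∈ P, S.ordw k0 p ≤ S.G k / npr S.d k j := by
    intro p hp
    obtain ⟨a1, a2, a3, a4⟩ := hP p hp
    obtain ⟨b1, b2, b3⟩ := idx_lt S a2 a3
    have hk0 : 2 ^ k0 ≤ p := (Nat.pow_le_pow_right (by norm_num) hk).trans a2
    have hk0' : 2 ^ (k0 - 1) ≤ 2 ^ k0 := Nat.pow_le_pow_right (by norm_num) (by omega)
    unfold Sys.ordw
    rw [if_neg (by omega), if_neg (by omega), b1, a4]
    split_ifs
    · (clear * - hG; positivity)
    · exact le_rfl
  have hsub : P ⊆ (cell S.d k j).filter Nat.Prime := by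
    intro p hp
    obtain ⟨a1, a2, a3, a4⟩ := hP p hp
    obtain ⟨b1, b2, b3⟩ := idx_lt S a2 a3
    rw [a4] at b3
    exact mem_filter.2 ⟨b3, a1⟩
  have hcard : P.card ≤ npr S.d k j := Finset.card_le_card hsub
  calc ∑ p ∈ P, S.ordw k0 p ≤ ∑ p ∈ P, S.G k / npr S.d k j := Finset.sum_le_sum h1
    _ = P.card * (S.G k / npr S.d k j) := by rw [Finset.sum_const, nsmul_eq_mul]
    _ ≤ npr S.d k j * (S.G k / npr S.d k j) := by
        apply mul_le_mul_of_nonneg_right _ (by positivity)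
        exact_mod_cast hcard
    _ ≤ S.G k := by
        rcases Nat.eq_zero_or_pos (npr S.d k j) with h | h
        · rw [h]; simp [hG]
        · have : (0 : ℝ) < npr S.d k j := by exact_mod_cast h
          rw [mul_div_cancel₀ _ this.ne']

/-- ordinary mass of a block -/
theorem ordw_block {k0 k : ℕ} (hk : k0 ≤ k) (P : Finset ℕ)
    (hP : ∀ p ∈ P, p.Prime ∧ 2 ^ k ≤ p ∧ p < 2 ^ (k + 1)) :
    ∑ p ∈ P, S.ordw k0 p ≤ (2 : ℝ) ^ (S.s * k) / k ^ 4 := by
  have hmaps : ∀ p ∈ P, S.idx p ∈ Finset.range (nc S.d k) := by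
    intro p hp
    obtain ⟨a1, a2, a3⟩ := hP p hp
    exact mem_range.2 (idx_lt S a2 a3).2.1
  rw [← Finset.sum_fiberwise_of_maps_to hmaps]
  have h1 : ∀ j ∈ Finset.range (nc S.d k), ∑ p ∈ P.filter (fun p => S.idx p = j), S.ordw k0 p ≤ S.G k := by
    intro j _
    apply ordw_cell S hk (j := j)
    intro p hp
    obtain ⟨b1, b2⟩ := mem_filter.1 hp
    obtain ⟨a1, a2, a3⟩ := hP p b1
    exact ⟨a1, a2, a3, b2⟩
  refine (Finset.sum_le_sum h1).trans (le_of_eq ?_)
  rw [Finset.sum_const, Finset.card_range, nsmul_eq_mul, nc, Sys.G]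
  push_cast
  have h2 : (2 : ℝ) ^ (k - ec S.d k) * 2 ^ ec S.d k = 2 ^ k := by
    rw [← pow_add]; congr 1; have := ec_le S k; omega
  have h3 : (2 : ℝ) ^ (S.s * k) = 2 ^ k * (2 : ℝ) ^ ((S.s - 1) * k) := by
    rw [← Real.rpow_natCast, ← Real.rpow_add (by norm_num)]; congr 1; ring
  rw [h3, ← h2]
  ring

/-- `∑_{k ≥ k0} 1/k^2` -/
theorem sum_inv_sq {k0 M : ℕ} (hk0 : 2 ≤ k0) : ∑ k ∈ Ico k0 M, 1 / (k : ℝ) ^ 2 ≤ 2 / (k0 : ℝ) := by
  have h : ∀ M, k0 ≤ M → ∑ k ∈ Ico k0 M, 1 / (k : ℝ) ^ 2 ≤ 1 / ((k0 : ℝ) - 1) - 1 / ((M : ℝ) - 1) := by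
    intro M hM
    induction M, hM using Nat.le_induction with
    | base => simp
    | succ M hM ih =>
      rw [Finset.sum_Ico_succ_top hM]
      have hM2 : (2 : ℝ) ≤ M := by exact_mod_cast hk0.trans hM
      have h1 : 1 / (M : ℝ) ^ 2 ≤ 1 / ((M : ℝ) - 1) - 1 / M := by
        rw [div_sub_div _ _ (by (clear * - hM2; linarith)) (by (clear * - hM2; linarith)), div_le_div_iff₀ (by positivity) (by (clear * - hM2; nlinarith))]
        (clear * - hM2; nlinarith)
      push_cast
      have h2 : (M : ℝ) + 1 - 1 = M := by ring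
      rw [h2]
      linarith
  have hk : (2 : ℝ) ≤ k0 := by exact_mod_cast hk0
  rcases le_or_gt k0 M with hM | hM
  · refine (h M hM).trans ?_
    have hM2 : (2 : ℝ) ≤ M := by exact_mod_cast hk0.trans hM
    have h3 : 0 ≤ 1 / ((M : ℝ) - 1) := by
      apply div_nonneg (by norm_num); linarith
    have h4 : 1 / ((k0 : ℝ) - 1) ≤ 2 / (k0 : ℝ) := by
      rw [div_le_div_iff₀ (by (clear * - hk; linarith)) (by (clear * - hk; linarith))]; (clear * - hk; linarith)
    linarith
  · rw [Finset.Ico_eq_empty (by omega), Finset.sum_empty]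
    positivity

/-- ordinary mass with the weight `p^(-s) (1 + log p)^2` -/
theorem ordw_mass {k0 : ℕ} (hk0 : 2 ≤ k0) (N : ℕ) :
    ∑ p ∈ (Icc 1 N).filter Nat.Prime, S.ordw k0 p * ((p : ℝ) ^ (-S.s) * (1 + Real.log p) ^ 2) ≤ 30 / (k0 : ℝ) := by
  have hs := s_pos S
  have hlogle : ∀ (p k : ℕ), 0 < p → p < 2 ^ (k + 1) → 1 + Real.log p ≤ (k : ℝ) + 2 := by
    intro p k hp0 hp
    have h1 : Real.log p ≤ Real.log (2 ^ (k + 1)) := by
      apply Real.log_le_log (by exact_mod_cast hp0)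
      exact_mod_cast hp.le
    rw [Real.log_pow] at h1
    have h2 := Real.log_two_lt_d9
    have h3 : (0 : ℝ) ≤ ((k + 1 : ℕ) : ℝ) := Nat.cast_nonneg _
    push_cast at h1 h3
    have h4 := mul_le_mul_of_nonneg_left (show Real.log 2 ≤ 1 by (clear * - h2; linarith)) h3
    (clear * - h4 h1; linarith)
  have hkpos : (0 : ℝ) < k0 := by
    have : 0 < k0 := by omega
    exact_mod_cast this
  set P := (Icc 1 N).filter Nat.Prime with hP
  -- split
  have hsplit : ∑ p ∈ P, S.ordw k0 p * ((p : ℝ) ^ (-S.s) * (1 + Real.log p) ^ 2) =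
      ∑ p ∈ P.filter (fun p => p < 2 ^ k0), S.ordw k0 p * ((p : ℝ) ^ (-S.s) * (1 + Real.log p) ^ 2) +
      ∑ p ∈ P.filter (fun p => ¬ p < 2 ^ k0), S.ordw k0 p * ((p : ℝ) ^ (-S.s) * (1 + Real.log p) ^ 2) :=
    (Finset.sum_filter_add_sum_filter_not _ _ _).symm
  rw [hsplit]
  have hA : ∑ p ∈ P.filter (fun p => p < 2 ^ k0), S.ordw k0 p * ((p : ℝ) ^ (-S.s) * (1 + Real.log p) ^ 2) ≤ 8 / (k0 : ℝ) := by
    have h1 : ∑ p ∈ P.filter (fun p => p < 2 ^ k0), S.ordw k0 p * ((p : ℝ) ^ (-S.s) * (1 + Real.log p) ^ 2) ≤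
        ∑ p ∈ Ico (2 ^ (k0 - 1)) (2 ^ k0), S.phi0 k0 * (((2 : ℝ) ^ (S.s * (1 - k0))) * (k0 + 1) ^ 2) := by
      have hnn : 0 ≤ S.phi0 k0 := by unfold Sys.phi0; (clear * - hk0; positivity)
      calc ∑ p ∈ P.filter (fun p => p < 2 ^ k0), S.ordw k0 p * ((p : ℝ) ^ (-S.s) * (1 + Real.log p) ^ 2)
          = ∑ p ∈ (P.filter (fun p => p < 2 ^ k0)).filter (fun p => 2 ^ (k0 - 1) ≤ p),
              S.ordw k0 p * ((p : ℝ) ^ (-S.s) * (1 + Real.log p) ^ 2) := by
            symm
            apply Finset.sum_filter_of_ne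
            intro p hp hne
            by_contra hcon
            apply hne
            rw [Sys.ordw, if_pos (by omega), zero_mul]
        _ ≤ ∑ p ∈ (P.filter (fun p => p < 2 ^ k0)).filter (fun p => 2 ^ (k0 - 1) ≤ p),
              S.phi0 k0 * (((2 : ℝ) ^ (S.s * (1 - k0))) * (k0 + 1) ^ 2) := by
            refine Finset.sum_le_sum fun p hp => ?_
            rw [mem_filter, mem_filter, hP, mem_filter, mem_Icc] at hp
            obtain ⟨⟨⟨⟨p1, p2⟩, p3⟩, p4⟩, p5⟩ := hp
            have e1 : S.ordw k0 p = S.phi0 k0 := by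
              rw [Sys.ordw, if_neg (by omega), if_pos p4]
            rw [e1]
            apply mul_le_mul_of_nonneg_left _ hnn
            apply mul_le_mul
            · have h6 : (2 : ℝ) ^ (S.s * (1 - k0)) = ((2 : ℝ) ^ ((k0 : ℝ) - 1)) ^ (-S.s) := by
                rw [← Real.rpow_mul (by norm_num)]; congr 1; ring
              rw [h6]
              apply Real.rpow_le_rpow_of_nonpos (by positivity) _ (by (clear * - hs; linarith))
              have h7 : (2 : ℝ) ^ ((k0 : ℝ) - 1) = ((2 ^ (k0 - 1) : ℕ) : ℝ) := by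
                have : ((k0 : ℝ) - 1) = ((k0 - 1 : ℕ) : ℝ) := by
                  rw [Nat.cast_sub (by omega)]; simp
                rw [this, Real.rpow_natCast]; push_cast; rfl
              rw [h7]; exact_mod_cast p5
            · apply pow_le_pow_left₀ (by have := Real.log_natCast_nonneg p; (clear * - this; linarith))
              have h8 := hlogle p (k0 - 1) p1 (by
                have : k0 - 1 + 1 = k0 := by omega
                rw [this]; exact p4)
              rw [Nat.cast_sub (by omega)] at h8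
              push_cast at h8
              (clear * - h8; linarith)
            · (clear * -; positivity)
            · positivity
        _ ≤ _ := by
            apply Finset.sum_le_sum_of_subset_of_nonneg
            · intro p hp
              rw [mem_filter, mem_filter] at hp
              exact mem_Ico.2 ⟨hp.2, hp.1.2⟩
            · intro _ _ _
              (clear * - hnn hk0; positivity)
    refine h1.trans ?_
    rw [Finset.sum_const, Nat.card_Ico, nsmul_eq_mul, Sys.phi0]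
    have h9 : ((2 ^ k0 - 2 ^ (k0 - 1) : ℕ) : ℝ) = (2 : ℝ) ^ (k0 : ℝ) / 2 := by
      have : 2 ^ k0 = 2 * 2 ^ (k0 - 1) := by rw [← pow_succ']; congr 1; omega
      have h10 : (2 ^ k0 - 2 ^ (k0 - 1) : ℕ) = 2 ^ (k0 - 1) := by (clear * - this; omega)
      rw [h10, Real.rpow_natCast]
      have h11 : ((2 : ℝ) ^ k0) = 2 * 2 ^ (k0 - 1) := by exact_mod_cast this
      rw [h11]; push_cast; ring
    rw [h9]
    have h12 : (2 : ℝ) ^ (k0 : ℝ) / 2 * ((2 : ℝ) ^ ((S.s - 1) * k0) / (k0 : ℝ) ^ 3 * ((2 : ℝ) ^ (S.s * (1 - k0)) * ((k0 : ℝ) + 1) ^ 2))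
        = ((2 : ℝ) ^ (k0 : ℝ) * (2 : ℝ) ^ ((S.s - 1) * k0) * (2 : ℝ) ^ (S.s * (1 - k0))) * (((k0 : ℝ) + 1) ^ 2 / (2 * (k0 : ℝ) ^ 3)) := by
      (clear * - hk0; field_simp)
    rw [h12, ← Real.rpow_add (by norm_num), ← Real.rpow_add (by norm_num)]
    have h13 : (k0 : ℝ) + (S.s - 1) * k0 + S.s * (1 - k0) = S.s := by ring
    rw [h13]
    have h14 : (2 : ℝ) ^ S.s ≤ 2 := by
      have : S.s ≤ 1 := by
        have h1 := S.d_le; have h2 := S.c_le; have h3 := S.eta_le; have h4 := S.del_le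
        unfold Sys.s; (clear * - h1 h2 h3 h4; linarith)
      calc (2 : ℝ) ^ S.s ≤ (2 : ℝ) ^ (1 : ℝ) := Real.rpow_le_rpow_of_exponent_le (by norm_num) this
        _ = 2 := Real.rpow_one 2
    have h15 : ((k0 : ℝ) + 1) ^ 2 / (2 * (k0 : ℝ) ^ 3) ≤ 4 / (k0 : ℝ) := by
      rw [div_le_div_iff₀ (by positivity) hkpos]
      have hk2 : (1 : ℝ) ≤ k0 := by
        have : 1 ≤ k0 := by omega
        exact_mod_cast this
      have : ((k0 : ℝ) + 1) ^ 2 ≤ 8 * (k0 : ℝ) ^ 2 := by
        have h9 := pow_le_pow_left₀ (show (0 : ℝ) ≤ (k0 : ℝ) + 1 by (clear * - hk2; linarith)) (show (k0 : ℝ) + 1 ≤ 2 * k0 by (clear * - hk2; linarith)) 2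
        (clear * - h9; linarith [sq_nonneg (k0 : ℝ)])
      have h9 := mul_le_mul_of_nonneg_right this hkpos.le
      (clear * - h9; linarith)
    calc (2 : ℝ) ^ S.s * (((k0 : ℝ) + 1) ^ 2 / (2 * (k0 : ℝ) ^ 3)) ≤ 2 * (4 / (k0 : ℝ)) :=
          mul_le_mul h14 h15 (by positivity) (by norm_num)
      _ = 8 / (k0 : ℝ) := by ring
  have hB : ∑ p ∈ P.filter (fun p => ¬ p < 2 ^ k0), S.ordw k0 p * ((p : ℝ) ^ (-S.s) * (1 + Real.log p) ^ 2) ≤ 8 / (k0 : ℝ) := by
    set Q := P.filter (fun p => ¬ p < 2 ^ k0) with hQ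
    have hQm : ∀ p ∈ Q, p.Prime ∧ 2 ^ k0 ≤ p ∧ p ≤ N ∧ 0 < p := by
      intro p hp
      rw [hQ, mem_filter, hP, mem_filter, mem_Icc] at hp
      exact ⟨hp.1.2, by omega, hp.1.1.2, hp.1.1.1⟩
    have hmaps : ∀ p ∈ Q, Nat.log 2 p ∈ Ico k0 (Nat.log 2 N + 1) := by
      intro p hp
      obtain ⟨a1, a2, a3, a4⟩ := hQm p hp
      rw [mem_Ico]
      refine ⟨?_, ?_⟩
      · exact Nat.le_log_of_pow_le (by norm_num) a2
      · exact Nat.lt_succ_of_le (Nat.log_mono_right a3)
    rw [← Finset.sum_fiberwise_of_maps_to hmaps]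
    have h1 : ∀ k ∈ Ico k0 (Nat.log 2 N + 1), ∑ p ∈ Q.filter (fun p => Nat.log 2 p = k),
        S.ordw k0 p * ((p : ℝ) ^ (-S.s) * (1 + Real.log p) ^ 2) ≤ 4 * (1 / (k : ℝ) ^ 2) := by
      intro k hk
      obtain ⟨hk1, -⟩ := mem_Ico.1 hk
      have hkp : (2 : ℝ) ≤ k := by exact_mod_cast hk0.trans hk1
      have hfib : ∀ p ∈ Q.filter (fun p => Nat.log 2 p = k), p.Prime ∧ 2 ^ k ≤ p ∧ p < 2 ^ (k + 1) := by
        intro p hp
        obtain ⟨b1, b2⟩ := mem_filter.1 hp
        obtain ⟨a1, a2, a3, a4⟩ := hQm p b1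
        refine ⟨a1, ?_, ?_⟩
        · rw [← b2]; exact Nat.pow_log_le_self 2 (by omega)
        · clear * - b2; rw [← b2]; exact Nat.lt_pow_succ_log_self (by norm_num) p
      calc ∑ p ∈ Q.filter (fun p => Nat.log 2 p = k), S.ordw k0 p * ((p : ℝ) ^ (-S.s) * (1 + Real.log p) ^ 2)
          ≤ ∑ p ∈ Q.filter (fun p => Nat.log 2 p = k), S.ordw k0 p * ((2 : ℝ) ^ (-S.s * k) * ((k : ℝ) + 2) ^ 2) := by
            refine Finset.sum_le_sum fun p hp => ?_
            obtain ⟨b1, b2, b3⟩ := hfib p hp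
            apply mul_le_mul_of_nonneg_left _ (ordw_nonneg S k0 p)
            apply mul_le_mul
            · clear * - b2 hs; have h6 : (2 : ℝ) ^ (-S.s * k) = ((2 : ℝ) ^ (k : ℝ)) ^ (-S.s) := by
                rw [← Real.rpow_mul (by norm_num)]; congr 1; ring
              rw [h6]
              apply Real.rpow_le_rpow_of_nonpos (by positivity) _ (by (clear * - hs; linarith))
              rw [Real.rpow_natCast]
              exact_mod_cast b2
            · apply pow_le_pow_left₀ (by have := Real.log_natCast_nonneg p; (clear * - this; linarith))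
              exact hlogle p k b1.pos b3
            · (clear * -; positivity)
            · positivity
        _ = (∑ p ∈ Q.filter (fun p => Nat.log 2 p = k), S.ordw k0 p) * ((2 : ℝ) ^ (-S.s * k) * ((k : ℝ) + 2) ^ 2) := by
            rw [Finset.sum_mul]
        _ ≤ ((2 : ℝ) ^ (S.s * k) / (k : ℝ) ^ 4) * ((2 : ℝ) ^ (-S.s * k) * ((k : ℝ) + 2) ^ 2) := by
            apply mul_le_mul_of_nonneg_right (ordw_block S hk1 _ hfib)
            (clear * - hkp; positivity)
        _ = ((k : ℝ) + 2) ^ 2 / (k : ℝ) ^ 4 := by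
            have : (2 : ℝ) ^ (S.s * (k : ℝ)) * (2 : ℝ) ^ (-S.s * (k : ℝ)) = 1 := by
              rw [← Real.rpow_add (by norm_num)]; simp
            calc (2 : ℝ) ^ (S.s * (k : ℝ)) / (k : ℝ) ^ 4 * ((2 : ℝ) ^ (-S.s * (k : ℝ)) * ((k : ℝ) + 2) ^ 2)
                = ((2 : ℝ) ^ (S.s * (k : ℝ)) * (2 : ℝ) ^ (-S.s * (k : ℝ))) * (((k : ℝ) + 2) ^ 2 / (k : ℝ) ^ 4) := by ring
              _ = _ := by rw [this, one_mul]
        _ ≤ 4 * (1 / (k : ℝ) ^ 2) := by
            rw [mul_one_div, div_le_div_iff₀ (by (clear * - hkp; positivity)) (by (clear * - hkp; positivity))]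
            have : ((k : ℝ) + 2) ^ 2 ≤ 4 * (k : ℝ) ^ 2 := by
              have h9 := pow_le_pow_left₀ (show (0 : ℝ) ≤ (k : ℝ) + 2 by (clear * - hkp; linarith)) (show (k : ℝ) + 2 ≤ 2 * k by (clear * - hkp; linarith)) 2
              (clear * - h9; linarith)
            have h9 := mul_le_mul_of_nonneg_right this (sq_nonneg (k : ℝ))
            (clear * - h9; linarith)
    refine (Finset.sum_le_sum h1).trans ?_
    rw [← Finset.mul_sum]
    have := sum_inv_sq (k0 := k0) (M := Nat.log 2 N + 1) hk0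
    calc 4 * ∑ k ∈ Ico k0 (Nat.log 2 N + 1), 1 / (k : ℝ) ^ 2 ≤ 4 * (2 / (k0 : ℝ)) :=
          mul_le_mul_of_nonneg_left this (by norm_num)
      _ = 8 / (k0 : ℝ) := by ring
  calc _ ≤ 8 / (k0 : ℝ) + 8 / (k0 : ℝ) := add_le_add hA hB
    _ ≤ 30 / (k0 : ℝ) := by rw [← add_div]; exact div_le_div_of_nonneg_right (by norm_num) hkpos.le

/-! ### SumW -/

theorem ctl_nonneg {k0 : ℕ} {R : Set ℕ} (hR : S.Good k0 R) (hK : S.K ≤ k0) (k1 q : ℕ) : 0 ≤ S.ctl k0 k1 R q := by
  rw [Sys.ctl]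
  refine Finset.sum_nonneg fun k hk => Finset.sum_nonneg fun j hj => ?_
  have hk1 := (mem_Ico.1 hk).1
  rw [Sys.cw]
  refine Finset.sum_nonneg fun x hx => ?_
  have hx' := (mem_filter.1 (mem_filter.1 hx).1).1
  exact (wo_le S hR hk1 (hK.trans hk1) hj (cand_facts S (hK.trans hk1) hj hx').2.2.1.le).1

theorem bR_nonneg (R : Set ℕ) (p : ℕ) : 0 ≤ S.bR R p := by
  unfold Sys.bR Sys.base
  split_ifs
  · positivity
  · exact le_rfl

theorem geom_tail {r : ℝ} (h0 : 0 ≤ r) (h1 : r < 1) (a M : ℕ) : ∑ k ∈ Ico a M, r ^ k ≤ r ^ a / (1 - r) := by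
  rcases le_or_gt a M with h | h
  · rw [geom_sum_Ico h1.ne h, ← neg_div_neg_eq, neg_sub, neg_sub]
    apply div_le_div_of_nonneg_right _ (by (clear * - h1; linarith))
    have : 0 ≤ r ^ M := pow_nonneg h0 M
    (clear * - this; linarith)
  · rw [Finset.Ico_eq_empty (by omega), Finset.sum_empty]
    have : 0 ≤ r ^ a := pow_nonneg h0 a
    apply div_nonneg this; (clear * - h1; linarith)

theorem ev_small (C a : ℝ) (ha : 0 < a) : ∀ᶠ k : ℕ in atTop, C * (2 : ℝ) ^ (-a * (k : ℝ)) ≤ 1 / (k : ℝ) := by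
  have hr : |(2 : ℝ) ^ (-a)| < 1 := by
    rw [abs_of_pos (by positivity)]
    exact Real.rpow_lt_one_of_one_lt_of_neg (by norm_num) (by linarith)
  have h := (tendsto_pow_const_mul_const_pow_of_abs_lt_one 1 hr).const_mul C
  rw [mul_zero] at h
  filter_upwards [h.eventually (eventually_le_nhds (show (0 : ℝ) < 1 by norm_num)), eventually_ge_atTop 1] with k hk hk1
  have hk0 : (0 : ℝ) < k := by exact_mod_cast hk1
  have h2 : ((2 : ℝ) ^ (-a)) ^ k = (2 : ℝ) ^ (-a * (k : ℝ)) := by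
    rw [← Real.rpow_natCast, ← Real.rpow_mul (by norm_num)]
  rw [h2, pow_one] at hk
  rw [le_div_iff₀ hk0]
  (clear * - hk; linarith)

theorem one_add_log_le' {p k : ℕ} (hp : p < 2 ^ (k + 1)) : 1 + Real.log p ≤ (k : ℝ) + 2 := by
  rcases Nat.eq_zero_or_pos p with h0 | h0
  · subst h0
    have : (0 : ℝ) ≤ k := Nat.cast_nonneg k
    simp; (clear * -; linarith)
  have h1 : Real.log p ≤ Real.log (2 ^ (k + 1)) := by
    apply Real.log_le_log (by exact_mod_cast h0)
    exact_mod_cast hp.le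
  rw [Real.log_pow] at h1
  have h2 := Real.log_two_lt_d9
  have h3 : (0 : ℝ) ≤ ((k + 1 : ℕ) : ℝ) := Nat.cast_nonneg _
  push_cast at h1 h3
  have h4 := mul_le_mul_of_nonneg_left (show Real.log 2 ≤ 1 by (clear * - h2; linarith)) h3
  (clear * - h4 h1; linarith)

theorem rpow_to_pow (a : ℝ) (k : ℕ) : (2 : ℝ) ^ (-a * (k : ℝ)) = ((2 : ℝ) ^ (-a)) ^ k := by
  rw [← Real.rpow_natCast, ← Real.rpow_mul (by norm_num)]

theorem r_lt_one {a : ℝ} (ha : 0 < a) : (2 : ℝ) ^ (-a) < 1 :=
  Real.rpow_lt_one_of_one_lt_of_neg (by norm_num) (by linarith)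

/-- the sum over the primes in SUMW -/
theorem sumW_primes : ∃ K0 : ℕ, ∀ k0 : ℕ, K0 ≤ k0 → ∀ R : Set ℕ, S.Good k0 R → ∀ N : ℕ,
    ∑ p ∈ (Icc 1 N).filter Nat.Prime, S.Wp k0 R p * ((p : ℝ) ^ (-S.s) * (1 + Real.log p) ^ 2) ≤ 63 / (k0 : ℝ) := by
  have hτ := tau_pos S
  have hc := c_pos S
  set r := (2 : ℝ) ^ (-(S.c / 4)) with hr
  have hr0 : 0 ≤ r := by positivity
  have hr1 : r < 1 := r_lt_one (by linarith)
  obtain ⟨K1, hK1⟩ := eventually_atTop.1 (ev_small 1 (S.tau / 10) (by (clear * - hτ; linarith)))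
  obtain ⟨K2, hK2⟩ := eventually_atTop.1 (ev_small (2 / S.c1 * 4 / (1 - r)) (S.c / 4) (by (clear * - hc; linarith)))
  refine ⟨max (max K1 K2) (max S.K 2), fun k0 hk0 R hR N => ?_⟩
  exact by
    have hkK1 : K1 ≤ k0 := le_trans (le_trans (le_max_left _ _) (le_max_left _ _)) hk0
    have hkK2 : K2 ≤ k0 := le_trans (le_trans (le_max_right _ _) (le_max_left _ _)) hk0
    have hkK : S.K ≤ k0 := le_trans (le_trans (le_max_left _ _) (le_max_right _ _)) hk0
    have hk2 : 2 ≤ k0 := le_trans (le_trans (le_max_right _ _) (le_max_right _ _)) hk0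
    have b1 := hK1 k0 hkK1
    have b2 := hK2 k0 hkK2
    set h : ℕ → ℝ := fun p => (p : ℝ) ^ (-S.s) * (1 + Real.log p) ^ 2 with hh
    have hh0 : ∀ p, 0 ≤ h p := fun p => by simp only [hh]; (clear * -; positivity)
    exact by
      have e0 : ∑ p ∈ (Icc 1 N).filter Nat.Prime, S.Wp k0 R p * ((p : ℝ) ^ (-S.s) * (1 + Real.log p) ^ 2) =
          ∑ p ∈ (Icc 1 N).filter Nat.Prime, S.bR R p * h p + 2 * ∑ p ∈ (Icc 1 N).filter Nat.Prime, S.ordw k0 p * h p +
          2 * ∑ p ∈ (Icc 1 N).filter Nat.Prime, S.ctl k0 (top p) R p * h p := by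
        rw [Finset.mul_sum, Finset.mul_sum, ← Finset.sum_add_distrib, ← Finset.sum_add_distrib]
        refine Finset.sum_congr rfl fun p _ => ?_
        simp only [hh, Sys.Wp]
        ring
      rw [e0]
      have c1 : ∑ p ∈ (Icc 1 N).filter Nat.Prime, S.bR R p * h p ≤ (2 : ℝ) ^ (-(S.tau / 10) * (k0 : ℝ)) := by
        refine le_trans (le_of_eq ?_) (hR.massR (((Icc 1 N).filter Nat.Prime).filter (fun p => p ∈ R))
          (fun r hr => (mem_filter.1 hr).2))
        rw [Finset.sum_filter (p := fun p => p ∈ R)]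
        refine Finset.sum_congr rfl fun p _ => ?_
        simp only [hh, Sys.bR]
        split_ifs
        · ring
        · ring
      have c2 := ordw_mass S hk2 N
      have c3 := ctl_mass S hR hkK h (fun k => ((k : ℝ) + 2) ^ 2) hh0
        (by
          intro k _ q _ hq
          simp only [hh]
          rw [mul_comm]
          apply mul_le_mul_of_nonneg_right _ (by (clear * -; positivity))
          apply pow_le_pow_left₀ (by have := Real.log_natCast_nonneg q; (clear * - this; linarith))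
          exact one_add_log_le' hq)
        (fun k => by clear * -; positivity) top (fun _ => le_rfl) N
      have c4 : ∑ k ∈ Ico k0 (top N), (2 / S.c1) / (k : ℝ) ^ 2 * ((k : ℝ) + 2) ^ 2 * (2 : ℝ) ^ (-(S.c / 4) * (k : ℝ)) ≤
          2 / S.c1 * 4 / (1 - r) * (2 : ℝ) ^ (-(S.c / 4) * (k0 : ℝ)) := by
        have d1 : ∀ k ∈ Ico k0 (top N), (2 / S.c1) / (k : ℝ) ^ 2 * ((k : ℝ) + 2) ^ 2 * (2 : ℝ) ^ (-(S.c / 4) * (k : ℝ)) ≤
            2 / S.c1 * 4 * r ^ k := by
          intro k hk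
          have hk1 : (2 : ℝ) ≤ k := by exact_mod_cast hk2.trans (mem_Ico.1 hk).1
          have hc1 := S.c1_pos
          rw [rpow_to_pow, ← hr]
          apply mul_le_mul_of_nonneg_right _ (pow_nonneg hr0 k)
          rw [div_mul_eq_mul_div, div_le_iff₀ (by (clear * - hk1; positivity))]
          have : ((k : ℝ) + 2) ^ 2 ≤ 4 * (k : ℝ) ^ 2 := by
            have h9 := pow_le_pow_left₀ (show (0 : ℝ) ≤ (k : ℝ) + 2 by (clear * - hk1; linarith)) (show (k : ℝ) + 2 ≤ 2 * k by (clear * - hk1; linarith)) 2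
            (clear * - h9; linarith)
          have h3 : 0 < 2 / S.c1 := by (clear * - hc1; positivity)
          calc 2 / S.c1 * ((k : ℝ) + 2) ^ 2 ≤ 2 / S.c1 * (4 * (k : ℝ) ^ 2) := mul_le_mul_of_nonneg_left this h3.le
            _ = _ := by ring
        refine (Finset.sum_le_sum d1).trans ?_
        rw [← Finset.mul_sum]
        have hc1 := S.c1_pos
        calc 2 / S.c1 * 4 * ∑ k ∈ Ico k0 (top N), r ^ k ≤ 2 / S.c1 * 4 * (r ^ k0 / (1 - r)) :=
              mul_le_mul_of_nonneg_left (geom_tail hr0 hr1 _ _) (by (clear * - hc1; positivity))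
          _ = _ := by rw [rpow_to_pow]; ring
      have hkpos : (0 : ℝ) < k0 := by
        have : 0 < k0 := by omega
        exact_mod_cast this
      have e1 : (63 : ℝ) / k0 = 1 / k0 + 2 * (30 / k0) + 2 * (1 / k0) := by ring
      rw [e1]
      have c2' : ∑ p ∈ (Icc 1 N).filter Nat.Prime, S.ordw k0 p * h p ≤ 30 / (k0 : ℝ) := c2
      exact by
        have c3' := c3.trans (c4.trans b2)
        rw [one_mul] at b1
        (clear * - b1 c2' c3' c1; linarith [c1.trans b1])

theorem W_le (k0 : ℕ) (R : Set ℕ) {n : ℕ} (hn : n ≠ 0) (hW : ∀ p, p.Prime → 0 ≤ S.Wp k0 R p) :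
    S.W k0 R n * (n : ℝ) ^ (-S.s) * (1 + Real.log n) ^ 2 ≤
      cm (fun p => S.Wp k0 R p * ((p : ℝ) ^ (-S.s) * (1 + Real.log p) ^ 2)) n := by
  have h1 : cm (fun p => S.Wp k0 R p * ((p : ℝ) ^ (-S.s) * (1 + Real.log p) ^ 2)) n =
      cm (fun p => S.Wp k0 R p) n * ((n : ℝ) ^ (-S.s) * (cm (fun p => 1 + Real.log p) n) ^ 2) := by
    rw [cm_mul_fun (fun p => S.Wp k0 R p) (fun p => (p : ℝ) ^ (-S.s) * (1 + Real.log p) ^ 2),
      cm_mul_fun (fun p => (p : ℝ) ^ (-S.s)) (fun p => (1 + Real.log p) ^ 2), cm_rpow _ hn]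
    have : (fun p : ℕ => (1 + Real.log p) ^ 2) = fun p : ℕ => (1 + Real.log p) * (1 + Real.log p) := by
      funext p; ring
    rw [this, cm_mul_fun (fun p : ℕ => 1 + Real.log p) (fun p : ℕ => 1 + Real.log p)]
    ring
  rw [h1, Sys.W, CM_eq _ hn, mul_assoc]
  apply mul_le_mul_of_nonneg_left _ (cm_nonneg hW n)
  apply mul_le_mul_of_nonneg_left _ (by positivity)
  apply pow_le_pow_left₀ (by have := Real.log_natCast_nonneg n; (clear * - this; linarith))
  exact one_add_log_le hn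

theorem Wp_nonneg {k0 : ℕ} {R : Set ℕ} (hR : S.Good k0 R) (hK : S.K ≤ k0) (p : ℕ) : 0 ≤ S.Wp k0 R p := by
  have h1 := bR_nonneg S R p
  have h2 := ordw_nonneg S k0 p
  have h3 := ctl_nonneg S hR hK (top p) p
  unfold Sys.Wp
  (clear * - h1 h2 h3; linarith)

theorem sumW : SumW := by
  intro S
  obtain ⟨K0, hK0⟩ := sumW_primes S
  refine ⟨252, max K0 (max 126 S.K), fun k0 hk0 R hR T hT => ?_⟩
  have h1 := hK0 k0 ((le_max_left _ _).trans hk0) R hR
  have h126 : 126 ≤ k0 := le_trans (le_trans (le_max_left _ _) (le_max_right _ _)) hk0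
  have hKK : S.K ≤ k0 := le_trans (le_trans (le_max_right _ _) (le_max_right _ _)) hk0
  have hk : (126 : ℝ) ≤ k0 := by exact_mod_cast h126
  have hW : ∀ p, p.Prime → 0 ≤ S.Wp k0 R p := fun p _ => Wp_nonneg S hR hKK p
  calc ∑ n ∈ T, S.W k0 R n * (n : ℝ) ^ (-S.s) * (1 + Real.log n) ^ 2
      ≤ ∑ n ∈ T, cm (fun p => S.Wp k0 R p * ((p : ℝ) ^ (-S.s) * (1 + Real.log p) ^ 2)) n :=
        Finset.sum_le_sum fun n hn => W_le S k0 R (by have := hT n hn; omega) hW
    _ ≤ 4 * (63 / (k0 : ℝ)) := by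
        apply sum_cm_small (fun p hp => mul_nonneg (hW p hp) (by (clear * -; positivity))) _ h1 T hT
        rw [div_le_iff₀ (by (clear * - hk; linarith))]; (clear * - hk; linarith)
    _ = 252 / k0 := by ring

/-! ### Rank -/

theorem rank : Rank := by
  intro S
  have hc := c_pos S
  set r := (2 : ℝ) ^ (-(3 * S.c / 20)) with hr
  have hr0 : 0 ≤ r := by positivity
  have hr1 : r < 1 := r_lt_one (by linarith)
  obtain ⟨K2, hK2⟩ := eventually_atTop.1 (ev_small (4 * (12 / S.c1 * (2 : ℝ) ^ (S.c / 10) / (1 - r))) (S.c / 10) (by linarith))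
  refine ⟨max K2 (max S.K 2), fun k0 hk0 R hR T hT κ => ?_⟩
  exact by
    have hkK2 : K2 ≤ k0 := le_trans (le_max_left _ _) hk0
    have hkK : S.K ≤ k0 := le_trans (le_trans (le_max_left _ _) (le_max_right _ _)) hk0
    have hk2 : 2 ≤ k0 := le_trans (le_trans (le_max_right _ _) (le_max_right _ _)) hk0
    have b2 := hK2 k0 hkK2
    have hkr : (2 : ℝ) ≤ k0 := by exact_mod_cast hk2
    have hc1 := S.c1_pos
    set h : ℕ → ℝ := fun p => 6 * (p : ℝ) ^ (-S.s + S.c / 10) with hh
    have hh0 : ∀ p, 0 ≤ h p := fun p => by simp only [hh]; (clear * -; positivity)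
    exact by
      have hF0 : ∀ p : ℕ, 0 ≤ S.ctl k0 (min (top p) κ) R p := fun p => ctl_nonneg S hR hkK _ p
      have c3 : ∀ N, ∑ p ∈ (Icc 1 N).filter Nat.Prime, S.ctl k0 (min (top p) κ) R p * h p ≤
          12 / S.c1 * (2 : ℝ) ^ (S.c / 10) / (1 - r) * (2 : ℝ) ^ (-(3 * S.c / 20) * (k0 : ℝ)) := by
        intro N
        have a1 := ctl_mass S hR hkK h (fun k => 6 * (2 : ℝ) ^ (S.c / 10 * ((k : ℝ) + 1))) hh0
          (by
            clear * - hh hc; intro k _ q hq1 hq
            simp only [hh]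
            have hq0 : (0 : ℝ) < q := by exact_mod_cast hq1.pos
            rw [Real.rpow_add hq0, mul_comm ((q : ℝ) ^ (-S.s)), ← mul_assoc]
            apply mul_le_mul_of_nonneg_right _ (by (clear * - hq0; positivity))
            apply mul_le_mul_of_nonneg_left _ (by norm_num)
            have h2 : (2 : ℝ) ^ (S.c / 10 * ((k : ℝ) + 1)) = ((2 : ℝ) ^ (k + 1)) ^ (S.c / 10) := by
              rw [← Real.rpow_natCast, ← Real.rpow_mul (by norm_num)]; congr 1; push_cast; ring
            rw [h2]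
            apply Real.rpow_le_rpow hq0.le _ (by (clear * - hc; linarith))
            exact_mod_cast hq.le)
          (fun k => by positivity) (fun p => min (top p) κ) (fun _ => min_le_left _ _) N
        refine a1.trans ?_
        have d1 : ∀ k ∈ Ico k0 (top N), (2 / S.c1) / (k : ℝ) ^ 2 * (6 * (2 : ℝ) ^ (S.c / 10 * ((k : ℝ) + 1))) *
            (2 : ℝ) ^ (-(S.c / 4) * (k : ℝ)) ≤ 12 / S.c1 * (2 : ℝ) ^ (S.c / 10) * r ^ k := by
          intro k hk
          have hk1 : (2 : ℝ) ≤ k := by exact_mod_cast hk2.trans (mem_Ico.1 hk).1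
          have e1 : r ^ k = (2 : ℝ) ^ (-(3 * S.c / 20) * (k : ℝ)) := by rw [hr, rpow_to_pow]
          rw [e1]
          have e2 : (2 : ℝ) ^ (S.c / 10 * ((k : ℝ) + 1)) * (2 : ℝ) ^ (-(S.c / 4) * (k : ℝ)) =
              (2 : ℝ) ^ (S.c / 10) * (2 : ℝ) ^ (-(3 * S.c / 20) * (k : ℝ)) := by
            rw [← Real.rpow_add (by norm_num), ← Real.rpow_add (by norm_num)]; congr 1; ring
          calc (2 / S.c1) / (k : ℝ) ^ 2 * (6 * (2 : ℝ) ^ (S.c / 10 * ((k : ℝ) + 1))) * (2 : ℝ) ^ (-(S.c / 4) * (k : ℝ))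
              = (1 / (k : ℝ) ^ 2) * (12 / S.c1 * ((2 : ℝ) ^ (S.c / 10 * ((k : ℝ) + 1)) * (2 : ℝ) ^ (-(S.c / 4) * (k : ℝ)))) := by
                ring
            _ ≤ 1 * (12 / S.c1 * ((2 : ℝ) ^ (S.c / 10 * ((k : ℝ) + 1)) * (2 : ℝ) ^ (-(S.c / 4) * (k : ℝ)))) := by
                clear * - hk1 hc1; apply mul_le_mul_of_nonneg_right _ (by positivity)
                rw [div_le_one (by positivity)]
                exact one_le_pow₀ (by (clear * - hk1; linarith))
            _ = _ := by rw [e2]; ring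
        refine (Finset.sum_le_sum d1).trans ?_
        rw [← Finset.mul_sum]
        calc 12 / S.c1 * (2 : ℝ) ^ (S.c / 10) * ∑ k ∈ Ico k0 (top N), r ^ k
            ≤ 12 / S.c1 * (2 : ℝ) ^ (S.c / 10) * (r ^ k0 / (1 - r)) :=
              mul_le_mul_of_nonneg_left (geom_tail hr0 hr1 _ _) (by positivity)
          _ = _ := by rw [rpow_to_pow]; ring
      set B := 12 / S.c1 * (2 : ℝ) ^ (S.c / 10) / (1 - r) * (2 : ℝ) ^ (-(3 * S.c / 20) * (k0 : ℝ)) with hB
      have hBle : 4 * B ≤ (2 : ℝ) ^ (-(S.c / 20) * (k0 : ℝ)) * (1 / k0) := by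
        have e3 : 4 * B = (4 * (12 / S.c1 * (2 : ℝ) ^ (S.c / 10) / (1 - r)) * (2 : ℝ) ^ (-(S.c / 10) * (k0 : ℝ))) *
            (2 : ℝ) ^ (-(S.c / 20) * (k0 : ℝ)) := by
          have e4 : (2 : ℝ) ^ (-(3 * S.c / 20) * (k0 : ℝ)) = (2 : ℝ) ^ (-(S.c / 10) * (k0 : ℝ)) * (2 : ℝ) ^ (-(S.c / 20) * (k0 : ℝ)) := by
            rw [← Real.rpow_add (by norm_num)]; congr 1; ring
          rw [hB, e4]; ring
        rw [e3, mul_comm]
        exact mul_le_mul_of_nonneg_left b2 (by positivity)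
      have hsmall : (2 : ℝ) ^ (-(S.c / 20) * (k0 : ℝ)) ≤ 1 := by
        apply Real.rpow_le_one_of_one_le_of_nonpos (by norm_num)
        have : 0 ≤ S.c / 20 * (k0 : ℝ) := by positivity
        (clear * - this; linarith)
      have hk0inv : (1 : ℝ) / k0 ≤ 1 := by rw [div_le_one (by (clear * - hkr; linarith))]; (clear * - hkr; linarith)
      have h4B1 : 4 * B ≤ 1 := hBle.trans (by
        calc (2 : ℝ) ^ (-(S.c / 20) * (k0 : ℝ)) * (1 / k0) ≤ 1 * 1 :=
              mul_le_mul hsmall hk0inv (by positivity) (by norm_num)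
          _ = 1 := by norm_num)
      calc ∑ n ∈ T, CM (fun p => 6 * S.ctl k0 (min (top p) κ) R p) n * (n : ℝ) ^ (-S.s + S.c / 10)
          = ∑ n ∈ T, cm (fun p => S.ctl k0 (min (top p) κ) R p * h p) n := by
            refine Finset.sum_congr rfl fun n hn => ?_
            have hn0 : n ≠ 0 := by have := hT n hn; (clear * - S K2 k0 this; omega)
            rw [CM_eq _ hn0, ← cm_rpow _ hn0, ← cm_mul_fun]
            congr 1
            congr 1
            funext p
            simp only [hh]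
            ring
        _ ≤ 4 * B := sum_cm_small (fun p _ => mul_nonneg (hF0 p) (hh0 p)) (by (clear * - h4B1; linarith)) c3 T hT
        _ ≤ (2 : ℝ) ^ (-(S.c / 20) * (k0 : ℝ)) * (1 / k0) := hBle
        _ ≤ (2 : ℝ) ^ (-(S.c / 20) * (k0 : ℝ)) := by
            clear * - hk0inv; have : (0 : ℝ) ≤ (2 : ℝ) ^ (-(S.c / 20) * (k0 : ℝ)) := by positivity
            exact mul_le_of_le_one_right this hk0inv

/-! ### MassR1 -/

theorem massR1 : MassR1 := by
  intro S
  have hτ := tau_pos S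
  set τ := S.tau with hτd
  have hsum : Summable (fun n : ℕ => (n : ℝ) ^ (-(1 + 0.03 * τ))) := by
    rw [Real.summable_nat_rpow]; linarith
  set Z := ∑' n : ℕ, (n : ℝ) ^ (-(1 + 0.03 * τ)) with hZ
  have hZ0 : 0 ≤ Z := tsum_nonneg fun n => by (clear * -; positivity)
  set C1 := (1 + 1 / (0.05 * τ)) ^ 2 with hC1
  obtain ⟨K0, hK0⟩ := eventually_atTop.1 (ev_small (C1 * Z) (0.007 * τ) (by positivity))
  refine ⟨max K0 1, fun k0 hk0 T hT => ?_⟩
  exact by
    have h1 := hK0 k0 ((le_max_left _ _).trans hk0)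
    have hk1 : (1 : ℝ) ≤ k0 := by exact_mod_cast (le_max_right _ _).trans hk0
    have hterm : ∀ r ∈ T, S.pr r * (S.base r * (r : ℝ) ^ (-S.s) * (1 + Real.log r) ^ 2) ≤
        (C1 * (2 : ℝ) ^ (-(0.174 * τ) * (k0 : ℝ))) * (r : ℝ) ^ (-(1 + 0.03 * τ)) := by
      intro r hr
      have hr1 : (1 : ℝ) ≤ r := le_trans (Real.one_le_rpow (by norm_num) (by (clear * - hk1; positivity))) (hT r hr)
      have hr0 : (0 : ℝ) < r := by (clear * - hr1; linarith)
      have hrn : 1 ≤ r := by exact_mod_cast hr1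
      have e1 : S.pr r * (S.base r * (r : ℝ) ^ (-S.s) * (1 + Real.log r) ^ 2) =
          (r : ℝ) ^ (-(1 + τ)) * (1 + Real.log r) ^ 2 := by
        rw [← mul_assoc, ← mul_assoc, pr_mul_base S hrn, ← Real.rpow_add hr0]
        congr 2
        rw [hτd]; ring
      have e2 : 1 + Real.log r ≤ (1 + 1 / (0.05 * τ)) * (r : ℝ) ^ (0.05 * τ) := by
        have a1 := Real.log_le_rpow_div hr0.le (show 0 < 0.05 * τ by positivity)
        have a2 : (1 : ℝ) ≤ (r : ℝ) ^ (0.05 * τ) := Real.one_le_rpow hr1 (by positivity)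
        calc 1 + Real.log r ≤ (r : ℝ) ^ (0.05 * τ) + (r : ℝ) ^ (0.05 * τ) / (0.05 * τ) := add_le_add a2 a1
          _ = _ := by ring
      have e3 : (1 + Real.log r) ^ 2 ≤ C1 * (r : ℝ) ^ (0.1 * τ) := by
        have a0 : 0 ≤ 1 + Real.log r := by have := Real.log_nonneg hr1; (clear * - this; linarith)
        calc (1 + Real.log r) ^ 2 ≤ ((1 + 1 / (0.05 * τ)) * (r : ℝ) ^ (0.05 * τ)) ^ 2 := pow_le_pow_left₀ a0 e2 2
          _ = C1 * ((r : ℝ) ^ (0.05 * τ) * (r : ℝ) ^ (0.05 * τ)) := by rw [hC1]; ring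
          _ = _ := by rw [← Real.rpow_add hr0]; congr 2; ring
      have e4 : (r : ℝ) ^ (-(0.87 * τ)) ≤ (2 : ℝ) ^ (-(0.174 * τ) * (k0 : ℝ)) := by
        have : (2 : ℝ) ^ (-(0.174 * τ) * (k0 : ℝ)) = ((2 : ℝ) ^ ((k0 : ℝ) / 5)) ^ (-(0.87 * τ)) := by
          rw [← Real.rpow_mul (by norm_num)]; congr 1; ring
        rw [this]
        exact Real.rpow_le_rpow_of_nonpos (by positivity) (hT r hr) (by (clear * - hτ; linarith [mul_pos (show (0:ℝ) < 0.87 by norm_num) hτ]))
      rw [e1]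
      calc (r : ℝ) ^ (-(1 + τ)) * (1 + Real.log r) ^ 2 ≤ (r : ℝ) ^ (-(1 + τ)) * (C1 * (r : ℝ) ^ (0.1 * τ)) :=
            mul_le_mul_of_nonneg_left e3 (by positivity)
        _ = C1 * ((r : ℝ) ^ (-(0.87 * τ)) * (r : ℝ) ^ (-(1 + 0.03 * τ))) := by
            rw [← Real.rpow_add hr0, mul_left_comm, ← Real.rpow_add hr0]; congr 2; ring
        _ ≤ C1 * ((2 : ℝ) ^ (-(0.174 * τ) * (k0 : ℝ)) * (r : ℝ) ^ (-(1 + 0.03 * τ))) := by
            apply mul_le_mul_of_nonneg_left _ (by positivity)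
            exact mul_le_mul_of_nonneg_right e4 (by positivity)
        _ = _ := by ring
    refine (Finset.sum_le_sum hterm).trans ?_
    rw [← Finset.mul_sum]
    have h2 : ∑ r ∈ T, (r : ℝ) ^ (-(1 + 0.03 * τ)) ≤ Z := hsum.sum_le_tsum T fun n _ => by (clear * -; positivity)
    have h3 : (2 : ℝ) ^ (-(0.174 * τ) * (k0 : ℝ)) ≤ (2 : ℝ) ^ (-(0.007 * τ) * (k0 : ℝ)) * (2 : ℝ) ^ (-(τ / 6) * (k0 : ℝ)) := by
      rw [← Real.rpow_add (by norm_num)]
      apply Real.rpow_le_rpow_of_exponent_le (by norm_num)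
      have : 0 < τ * (k0 : ℝ) := by positivity
      (clear * - this; linarith)
    calc C1 * (2 : ℝ) ^ (-(0.174 * τ) * (k0 : ℝ)) * ∑ r ∈ T, (r : ℝ) ^ (-(1 + 0.03 * τ))
        ≤ C1 * ((2 : ℝ) ^ (-(0.007 * τ) * (k0 : ℝ)) * (2 : ℝ) ^ (-(τ / 6) * (k0 : ℝ))) * Z := by
          apply mul_le_mul _ h2 (Finset.sum_nonneg fun _ _ => by (clear * -; positivity)) (by positivity)
          exact mul_le_mul_of_nonneg_left h3 (by positivity)
      _ = (C1 * Z * (2 : ℝ) ^ (-(0.007 * τ) * (k0 : ℝ))) * (2 : ℝ) ^ (-(τ / 6) * (k0 : ℝ)) := by ring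
      _ ≤ 1 * (2 : ℝ) ^ (-(τ / 6) * (k0 : ℝ)) := by
          apply mul_le_mul_of_nonneg_right _ (by positivity)
          refine h1.trans ?_
          rw [div_le_one (by (clear * - hk1; linarith))]; exact hk1
      _ = _ := one_mul _

/-! ### MassC1 -/

theorem hh_bounds : 0 ≤ S.hh ∧ S.hh ≤ 1/2 := by
  have h1 := S.d_pos; have h2 := S.d_le; have h3 := S.c_le; have h4 := S.eta_le; have h5 := S.del_le
  have hc := c_pos S; have he := eta_pos S
  have hτ := tau_pos S
  have hτ2 : S.tau ≤ S.d / 2 := by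
    unfold Sys.tau Sys.ep
    have : S.c * S.eta ≤ 1 := mul_le_one₀ (by (clear * - h3 h4 h5 he; linarith)) he.le (by (clear * - h4 h5 he; linarith))
    have : S.c * S.eta * S.d ≤ 1 * S.d := mul_le_mul_of_nonneg_right this h1.le
    (clear * - h1 this; linarith)
  unfold Sys.hh Sys.s
  constructor
  · linarith
  · linarith

theorem pc_eq {A : Finset ℕ} {m : ℕ} (hm : Squarefree m) (hA : A ⊆ m.primeFactors) :
    S.pc A m.primeFactors * (m : ℝ) ^ S.hh = ((∏ p ∈ A, p : ℕ) : ℝ) ^ S.hh := by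
  have hm0 : m ≠ 0 := hm.ne_zero
  have h1 : (m : ℝ) = ((∏ p ∈ m.primeFactors \ A, p : ℕ) : ℝ) * ((∏ p ∈ A, p : ℕ) : ℝ) := by
    rw [← Nat.cast_mul, Finset.prod_sdiff hA, Nat.prod_primeFactors_of_squarefree hm]
  have h2 : S.pc A m.primeFactors = ((∏ p ∈ m.primeFactors \ A, p : ℕ) : ℝ) ^ (-S.hh) := by
    rw [Sys.pc]
    push_cast
    rw [← Real.finsetProd_rpow _ _ (fun i _ => Nat.cast_nonneg _)]
    rfl
  have hpos : (0 : ℝ) < ((∏ p ∈ m.primeFactors \ A, p : ℕ) : ℝ) := by
    have : 0 < ∏ p ∈ m.primeFactors \ A, p :=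
      Finset.prod_pos fun p hp => (Nat.prime_of_mem_primeFactors (mem_sdiff.1 hp).1).pos
    exact_mod_cast this
  rw [h2, h1, Real.mul_rpow hpos.le (Nat.cast_nonneg _), ← mul_assoc, ← Real.rpow_add hpos]
  simp

/-- a bound for a sum over the bad cells by classes -/
theorem sum_badc_le {k : ℕ} (hk : S.K ≤ k) (f : ℕ → ℝ) (b : ℝ)
    (hf : ∀ j ∈ S.badc k, f j ≤ (2 : ℝ) ^ (-(S.u (S.cls k j)) * k) * b) (hb : 0 ≤ b) :
    ∑ j ∈ S.badc k, f j ≤ 3 * b := by
  have h1 : ∑ j ∈ S.badc k, f j ≤ ∑ j ∈ S.badc k, (2 : ℝ) ^ (-(S.u (S.cls k j)) * k) * b := Finset.sum_le_sum hf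
  refine h1.trans ?_
  rw [← Finset.sum_fiberwise_of_maps_to (t := (Finset.univ : Finset (Fin 3))) (g := fun j => S.cls k j)
    (fun _ _ => mem_univ _)]
  have h2 : ∀ i ∈ (Finset.univ : Finset (Fin 3)),
      ∑ j ∈ (S.badc k).filter (fun j => S.cls k j = i), (2 : ℝ) ^ (-(S.u (S.cls k j)) * k) * b ≤ b := by
    intro i _
    have h3 : ∑ j ∈ (S.badc k).filter (fun j => S.cls k j = i), (2 : ℝ) ^ (-(S.u (S.cls k j)) * k) * b =
        (((S.badc k).filter (fun j => S.cls k j = i)).card : ℝ) * ((2 : ℝ) ^ (-(S.u i) * k) * b) := by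
      rw [← nsmul_eq_mul, ← Finset.sum_const]
      refine Finset.sum_congr rfl fun j hj => ?_
      rw [(mem_filter.1 hj).2]
    rw [h3]
    have h4 := S.few k hk i
    have h5 : (S.badc k).filter (fun j => S.cls k j = i) =
        (Finset.range (nc S.d k)).filter (fun j => S.bad k j ∧ S.cls k j = i) := by
      rw [Sys.badc, Finset.filter_filter]
    rw [h5]
    calc _ ≤ (2 : ℝ) ^ (S.u i * k) * ((2 : ℝ) ^ (-(S.u i) * k) * b) :=
          mul_le_mul_of_nonneg_right h4 (by (clear * - hb; positivity))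
      _ = b := by
          rw [← mul_assoc, ← Real.rpow_add (by norm_num)]
          have : S.u i * (k : ℝ) + -(S.u i) * k = 0 := by ring
          rw [this, Real.rpow_zero, one_mul]
  refine (Finset.sum_le_sum h2).trans ?_
  rw [Finset.sum_const, Finset.card_univ, Fintype.card_fin, nsmul_eq_mul]
  norm_num

theorem massC1 : MassC1 := by
  intro S
  have hc := c_pos S
  have hd := S.d_pos
  have hs : S.s = S.d / 2 := rfl
  obtain ⟨K0, hK0⟩ := eventually_atTop.1 (ev_small 6 (S.c / 2) (by linarith))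
  refine ⟨max K0 S.K, fun k hk A => ?_⟩
  have hkK : S.K ≤ k := (le_max_right _ _).trans hk
  have h6 := hK0 k ((le_max_left _ _).trans hk)
  exact by
    have hk1 : 1 ≤ k := S.K_pos.trans hkK
    have hkr : (1 : ℝ) ≤ k := by exact_mod_cast hk1
    have hkpos : (0 : ℝ) < k := by (clear * - hkr; linarith)
    obtain ⟨hh0, hh1⟩ := hh_bounds S
    have hcell : ∀ j ∈ S.badc k, ∑ x ∈ (S.Cand k j).filter (fun x => A ⊆ x.2.primeFactors),
        S.wd k x.2 * (x.1 : ℝ) ^ (-S.s) * S.pc A x.2.primeFactors ≤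
        (2 : ℝ) ^ (-(S.u (S.cls k j)) * k) * (2 * (2 : ℝ) ^ (-S.c * k)) := by
      intro j hj
      obtain ⟨hj1, hj2⟩ := (mem_badc S).1 hj
      set u := S.u (S.cls k j) with hu
      have hu1 : 1/10 ≤ u := S.u_ge _
      set F := (S.Cand k j).filter (fun x => A ⊆ x.2.primeFactors) with hF
      rcases F.eq_empty_or_nonempty with hE | hNE
      · rw [hE, Finset.sum_empty]; positivity
      set g := ∏ p ∈ A, p with hg
      have hfacts : ∀ x ∈ F, x ∈ S.Cand k j ∧ A ⊆ x.2.primeFactors := fun x hx => mem_filter.1 hx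
      have hsqf : ∀ x ∈ F, Squarefree x.2 := fun x hx =>
        (S.cand k hkK j hj1 hj2 x (hfacts x hx).1).2.2.1.squarefree_of_dvd (Dvd.intro_left _ rfl)
      have hgdvd : ∀ x ∈ F, g ∣ x.2 := by
        intro x hx
        have := Finset.prod_dvd_prod_of_subset A x.2.primeFactors (fun p => p) (hfacts x hx).2
        rwa [Nat.prod_primeFactors_of_squarefree (hsqf x hx)] at this
      have hg1 : 1 ≤ g := by
        obtain ⟨x, hx⟩ := hNE
        exact Nat.pos_of_dvd_of_pos (hgdvd x hx) (Nat.pos_of_ne_zero (hsqf x hx).ne_zero)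
      have hgr : (1 : ℝ) ≤ (g : ℝ) := by exact_mod_cast hg1
      -- bound for one candidate
      have hone : ∀ x ∈ F, S.wd k x.2 * (x.1 : ℝ) ^ (-S.s) * S.pc A x.2.primeFactors ≤
          (2 : ℝ) ^ ((S.s - 1) * k) * (2 : ℝ) ^ ((1/2 - u - S.c) * k) * (g : ℝ) ^ S.hh := by
        intro x hx
        obtain ⟨c1, c2, c3, c4, c5, c6, c7⟩ := S.cand k hkK j hj1 hj2 x (hfacts x hx).1
        have hm0 : (0 : ℝ) < x.2 := by
          have : 0 < x.2 := by omega
          exact_mod_cast this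
        have hq1 : (1 : ℝ) ≤ x.1 := by exact_mod_cast c1.pos
        have e1 : (x.1 : ℝ) ^ (-S.s) ≤ 1 := Real.rpow_le_one_of_one_le_of_nonpos hq1 (by (clear * - hd hs; linarith))
        have e2 : S.wd k x.2 * S.pc A x.2.primeFactors =
            (2 : ℝ) ^ ((S.s - 1) * k) * ((x.2 : ℝ) ^ (1/2 + S.del) * (g : ℝ) ^ S.hh) := by
          have e3 : (x.2 : ℝ) ^ (1 - S.s + S.tau) = (x.2 : ℝ) ^ (1/2 + S.del) * (x.2 : ℝ) ^ S.hh := by
            rw [← Real.rpow_add hm0]; congr 1; unfold Sys.hh; ring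
          rw [Sys.wd, e3]
          have e4 := pc_eq S (hsqf x hx) (hfacts x hx).2
          rw [← hg] at e4
          calc (2 : ℝ) ^ ((S.s - 1) * k) * ((x.2 : ℝ) ^ (1/2 + S.del) * (x.2 : ℝ) ^ S.hh) * S.pc A x.2.primeFactors
              = (2 : ℝ) ^ ((S.s - 1) * k) * ((x.2 : ℝ) ^ (1/2 + S.del) * (S.pc A x.2.primeFactors * (x.2 : ℝ) ^ S.hh)) := by ring
            _ = _ := by rw [e4]
        have hwd : 0 ≤ S.wd k x.2 * S.pc A x.2.primeFactors := by rw [e2]; (clear * - c4 hg1; positivity)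
        calc S.wd k x.2 * (x.1 : ℝ) ^ (-S.s) * S.pc A x.2.primeFactors
            = (S.wd k x.2 * S.pc A x.2.primeFactors) * (x.1 : ℝ) ^ (-S.s) := by ring
          _ ≤ (S.wd k x.2 * S.pc A x.2.primeFactors) * 1 := mul_le_mul_of_nonneg_left e1 hwd
          _ = (2 : ℝ) ^ ((S.s - 1) * k) * ((x.2 : ℝ) ^ (1/2 + S.del) * (g : ℝ) ^ S.hh) := by rw [mul_one, e2]
          _ ≤ (2 : ℝ) ^ ((S.s - 1) * k) * ((2 : ℝ) ^ ((1/2 - u - S.c) * k) * (g : ℝ) ^ S.hh) := by
              apply mul_le_mul_of_nonneg_left _ (by positivity)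
              exact mul_le_mul_of_nonneg_right c7 (by positivity)
          _ = _ := by ring
      -- number of candidates
      have hcard : (F.card : ℝ) ≤ 2 ^ ec S.d k / g + 1 := by
        have h1 : F.card ≤ ((Finset.Ico (2 ^ k + j * 2 ^ ec S.d k) (2 ^ k + j * 2 ^ ec S.d k + 2 ^ ec S.d k)).filter
            (fun n => g ∣ n)).card := by
          apply Finset.card_le_card_of_injOn (fun x => x.1 * x.2)
          · intro x hx
            have hx' : x ∈ F := hx
            have hcx := (S.cand k hkK j hj1 hj2 x (hfacts x hx').1).2.2.2.2.1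
            rw [cell] at hcx
            have e5 : (j + 1) * 2 ^ ec S.d k = j * 2 ^ ec S.d k + 2 ^ ec S.d k := by ring
            rw [e5, ← add_assoc] at hcx
            exact mem_coe.2 (mem_filter.2 ⟨hcx, Dvd.dvd.mul_left (hgdvd x hx') _⟩)
          · intro x hx y hy hxy
            have hx' : x ∈ F := hx
            have hy' : y ∈ F := hy
            exact S.inj k hkK j hj1 hj2 x (hfacts x hx').1 y (hfacts y hy').1 hxy
        have h2 := Pool.Agent.M20.Helper62.KS.card_mult_le g (2 ^ k + j * 2 ^ ec S.d k) (2 ^ ec S.d k) hg1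
        push_cast at h2
        exact le_trans (by exact_mod_cast h1) h2
      have hG : (g : ℝ) ^ S.hh ≤ (2 : ℝ) ^ ((1/2 - u - S.c) * k) := by
        obtain ⟨x, hx⟩ := hNE
        obtain ⟨c1, c2, c3, c4, c5, c6, c7⟩ := S.cand k hkK j hj1 hj2 x (hfacts x hx).1
        have hle : (g : ℝ) ≤ x.2 := by
          exact_mod_cast Nat.le_of_dvd (by omega) (hgdvd x hx)
        have hx1 : (1 : ℝ) ≤ x.2 := hgr.trans hle
        have hdel : 0 ≤ S.del := le_trans (eta_pos S).le S.eta_le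
        calc (g : ℝ) ^ S.hh ≤ (x.2 : ℝ) ^ S.hh := Real.rpow_le_rpow (by (clear * - hgr; linarith)) hle hh0
          _ ≤ (x.2 : ℝ) ^ (1/2 + S.del) := Real.rpow_le_rpow_of_exponent_le hx1 (by (clear * - hh1 hdel; linarith))
          _ ≤ _ := c7
      have hec : (2 : ℝ) ^ ec S.d k ≤ (2 : ℝ) ^ ((1/2 - S.d) * k) := by
        rw [← Real.rpow_natCast]
        apply Real.rpow_le_rpow_of_exponent_le (by norm_num)
        rw [ec]
        have h1 := S.d_le; have h2 := S.c_le; have h3 := S.eta_le; have h4 := S.del_le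
        refine (Nat.floor_le (mul_nonneg hkpos.le (by (clear * - hd h1 h2 h3 h4; linarith)))).trans (le_of_eq (by ring))
      set Q := (2 : ℝ) ^ ((S.s - 1) * k) * (2 : ℝ) ^ ((1/2 - u - S.c) * k) with hQ
      have hQ0 : 0 < Q := by positivity
      calc ∑ x ∈ F, S.wd k x.2 * (x.1 : ℝ) ^ (-S.s) * S.pc A x.2.primeFactors
          ≤ ∑ x ∈ F, Q * (g : ℝ) ^ S.hh := Finset.sum_le_sum hone
        _ = F.card * (Q * (g : ℝ) ^ S.hh) := by rw [Finset.sum_const, nsmul_eq_mul]
        _ ≤ (2 ^ ec S.d k / g + 1) * (Q * (g : ℝ) ^ S.hh) := mul_le_mul_of_nonneg_right hcard (by positivity)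
        _ = 2 ^ ec S.d k * Q * ((g : ℝ) ^ S.hh / g) + Q * (g : ℝ) ^ S.hh := by ring
        _ ≤ (2 : ℝ) ^ ((1/2 - S.d) * k) * Q * 1 + Q * (2 : ℝ) ^ ((1/2 - u - S.c) * k) := by
            clear * - hec hQ0 hgr hh1 hg1 hG; apply add_le_add
            · apply mul_le_mul
              · exact mul_le_mul_of_nonneg_right hec hQ0.le
              · rw [div_le_one (by (clear * - hgr; linarith))]
                calc (g : ℝ) ^ S.hh ≤ (g : ℝ) ^ (1 : ℝ) := Real.rpow_le_rpow_of_exponent_le hgr (by (clear * - hh1; linarith))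
                  _ = g := Real.rpow_one _
              · (clear * - hg1; positivity)
              · positivity
            · exact mul_le_mul_of_nonneg_left hG hQ0.le
        _ = (2 : ℝ) ^ ((S.s - S.d - u - S.c) * k) + (2 : ℝ) ^ ((S.s - 2 * u - 2 * S.c) * k) := by
            clear * - hQ; rw [hQ, mul_one, ← Real.rpow_add (by norm_num), ← Real.rpow_add (by norm_num), ← Real.rpow_add (by norm_num)]
            congr 2 <;> ring
        _ ≤ (2 : ℝ) ^ ((-u - S.c) * k) + (2 : ℝ) ^ ((-u - S.c) * k) := by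
            have h1 := S.d_le; have h2 := S.c_le; have h3 := S.eta_le; have h4 := S.del_le
            apply add_le_add
            · apply Real.rpow_le_rpow_of_exponent_le (by norm_num)
              apply mul_le_mul_of_nonneg_right _ hkpos.le
              rw [hs]; (clear * - hd; linarith)
            · apply Real.rpow_le_rpow_of_exponent_le (by norm_num)
              apply mul_le_mul_of_nonneg_right _ hkpos.le
              rw [hs]; (clear * - hd hu1 h1 h2 h3 h4; linarith)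
        _ = (2 : ℝ) ^ (-u * k) * (2 * (2 : ℝ) ^ (-S.c * k)) := by
            have : (2 : ℝ) ^ ((-u - S.c) * k) = (2 : ℝ) ^ (-u * k) * (2 : ℝ) ^ (-S.c * k) := by
              rw [← Real.rpow_add (by norm_num)]; congr 1; ring
            rw [this]; ring
    have hfin := sum_badc_le S hkK _ (2 * (2 : ℝ) ^ (-S.c * k)) hcell (by positivity)
    refine hfin.trans ?_
    have e1 : (2 : ℝ) ^ (-S.c * k) = (2 : ℝ) ^ (-(S.c / 2) * k) * (2 : ℝ) ^ (-(S.c / 2) * k) := by
      rw [← Real.rpow_add (by norm_num)]; congr 1; ring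
    rw [e1]
    have h7 : 6 * (2 : ℝ) ^ (-(S.c / 2) * (k : ℝ)) ≤ 1 := h6.trans (by rw [div_le_one hkpos]; exact hkr)
    have h8 : (0 : ℝ) < (2 : ℝ) ^ (-(S.c / 2) * (k : ℝ)) := by positivity
    have h9 := mul_le_mul_of_nonneg_right h7 h8.le
    (clear * - h9 h8; linarith)

end Pool.Agent.M20.Helper29.KS
end

/- Helper53.KN.Helper60.KE.Line -/
section
/-! CountE2: the line integral with the factor `P(s)`. -/

set_option autoImplicit false
set_option linter.all false
open Filter Topology MeasureTheory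

namespace Pool.Agent.M20.Helper60.KE

open Pool.Agent.M20.Helper10.QRH Pool.Agent.M20.Helper69.QRH Pool.Agent.M20.Helper46.KSZ Pool.Agent.M20.Helper8.KSZ
open Pool.Agent.M20.Helper60.KS (PM S1 S1Lower)
open Pool.Agent.M20.Helper52.QRH (C0 C0_pos)

/-- the line integral is small outside of few cells -/
def LineFewE2 : Prop := ∀ (p : ℕ) (d : ℝ), 1 ≤ p → 0 < d → d ≤ 1/100 → ∃ K : ℕ, ∀ k : ℕ, K ≤ k →
  ∀ (M : Multiset ℂ) (Z : ℂ → ℂ), Box (2 ^ (5 * k)) M Z →
    (((Finset.range (2 ^ (k - Pool.Agent.M20.Helper46.KSZ.ee d k))).filter (fun j =>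
      1/100 * (2 : ℝ) ^ k * S1 k ≤
        ‖∑ m ∈ PM k, line p (lamk p d k) (2 ^ (5 * k)) Z (uu d k j - Real.log m)‖)).card : ℝ) ≤
      (2 : ℝ) ^ ((0.12 + 5 * d) * k)

lemma mem_PM {k m : ℕ} (h : m ∈ PM k) : 2 ^ KS.em k < m ∧ m ≤ 2 * 2 ^ KS.em k ∧ m.Prime := by
  unfold PM at h
  rw [Finset.mem_filter, Finset.mem_Ioc] at h
  exact ⟨h.1.1, h.1.2, h.2⟩

lemma card_PM (k : ℕ) : (PM k).card ≤ 2 ^ KS.em k := by
  unfold PM
  refine (Finset.card_filter_le _ _).trans ?_
  rw [Nat.card_Ioc]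
  omega

lemma em_bounds (k : ℕ) : (0.495 : ℝ) * k - 1 ≤ KS.em k ∧ (KS.em k : ℝ) ≤ 0.495 * k := by
  unfold KS.em
  have h1 : 200 * (99 * k / 200) ≤ 99 * k := Nat.mul_div_le _ _
  have h2 : 99 * k < 200 * (99 * k / 200) + 200 := by omega
  have h1' : 200 * ((99 * k / 200 : ℕ) : ℝ) ≤ 99 * k := by exact_mod_cast h1
  have h2' : (99 : ℝ) * k < 200 * ((99 * k / 200 : ℕ) : ℝ) + 200 := by exact_mod_cast h2
  constructor <;> (clear * - h2' h1'; linarith)

lemma exists_K6 (C : ℝ) : ∃ K : ℕ, ∀ k : ℕ, K ≤ k → C * (k : ℝ) ^ 6 ≤ (2 : ℝ) ^ ((0.01 : ℝ) * k) := by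
  have hr : 1 < (2 : ℝ) ^ (0.01 : ℝ) := Real.one_lt_rpow (by norm_num) (by norm_num)
  have h1 := (tendsto_pow_const_div_const_pow_of_one_lt 6 hr).const_mul C
  rw [mul_zero] at h1
  have h2 := h1.eventually (gt_mem_nhds (one_pos : (0 : ℝ) < 1))
  obtain ⟨K, hK⟩ := Filter.eventually_atTop.1 h2
  refine ⟨K, fun k hk => ?_⟩
  have h3 := hK k hk
  have h4 : (0 : ℝ) < ((2 : ℝ) ^ (0.01 : ℝ)) ^ k := by positivity
  rw [← mul_div_assoc, div_lt_one h4] at h3
  rw [Real.rpow_mul (by norm_num), Real.rpow_natCast]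
  exact h3.le

lemma gg_bound' {p : ℕ} (hp : 1 ≤ p) {lam T CK L : ℝ} {Z : ℂ → ℂ} (hCK : 0 ≤ CK) (hL : 0 ≤ L)
    (hKK : ∀ s : ℂ, 0 ≤ s.re → s.re ≤ 2 → ‖KK lam s‖ ≤ CK / (1 + (lam * s.im) ^ 2))
    (hG : ∀ s : ℂ, 0.605 ≤ s.re → s.re ≤ 2 → |s.im| ≤ T → ‖logDeriv Z s‖ ≤ L) (t : ℝ) :
    ‖LF.gg p lam T Z t‖ ≤ (CK ^ p * L) / (1 + (lam * t) ^ 2) := by
  unfold LF.gg
  by_cases ht : t ∈ Set.Ioc (-T) T
  · rw [Set.indicator_of_mem ht, norm_mul, norm_pow, norm_neg]
    have h1 := hKK ((0.605 : ℝ) + t * Complex.I) (by rw [LF.line_re]; norm_num)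
      (by rw [LF.line_re]; norm_num)
    rw [LF.line_im] at h1
    have h2 := hG ((0.605 : ℝ) + t * Complex.I) (by rw [LF.line_re])
      (by rw [LF.line_re]; norm_num) (by rw [LF.line_im]; exact abs_le.2 ⟨ht.1.le, ht.2⟩)
    have h3 : (1 : ℝ) ≤ 1 + (lam * t) ^ 2 := by (clear * -; nlinarith [sq_nonneg (lam * t)])
    have h4 : ‖KK lam ((0.605 : ℝ) + t * Complex.I)‖ ^ p ≤ CK ^ p / (1 + (lam * t) ^ 2) := by
      calc ‖KK lam ((0.605 : ℝ) + t * Complex.I)‖ ^ p ≤ (CK / (1 + (lam * t) ^ 2)) ^ p := by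
            (clear * - h1; gcongr)
        _ = CK ^ p / (1 + (lam * t) ^ 2) ^ p := by rw [div_pow]
        _ ≤ CK ^ p / (1 + (lam * t) ^ 2) := by
            apply div_le_div_of_nonneg_left (by positivity) (by (clear * -; positivity))
            exact le_self_pow₀ h3 (by omega)
    calc ‖KK lam ((0.605 : ℝ) + t * Complex.I)‖ ^ p * ‖logDeriv Z ((0.605 : ℝ) + t * Complex.I)‖
        ≤ (CK ^ p / (1 + (lam * t) ^ 2)) * L := by (clear * - h4 h2 hCK; gcongr)
      _ = (CK ^ p * L) / (1 + (lam * t) ^ 2) := by ring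
  · rw [Set.indicator_of_notMem ht, norm_zero]
    (clear * - hCK hL; positivity)

/-- the points `-log m` are spaced -/
lemma PM_sep {p : ℕ} (hp : 1 ≤ p) {d : ℝ} (hd : 0 < d) {k m m' : ℕ} (hm : m ∈ PM k) (hm' : m' ∈ PM k)
    (h : m < m') : lamk p d k ≤ Real.log m' - Real.log m := by
  obtain ⟨a1, a2, a3⟩ := mem_PM hm
  obtain ⟨b1, b2, b3⟩ := mem_PM hm'
  have hm0 : (0 : ℝ) < m := by exact_mod_cast a3.pos
  have hm1 : (m : ℝ) + 1 ≤ m' := by exact_mod_cast h
  have hm'0 : (0 : ℝ) < m' := by (clear * - hm0 hm1; linarith)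
  have h1 := Helper30.QRH.log_gap hm0 (by (clear * - hm1; linarith) : (m : ℝ) ≤ m')
  refine le_trans ?_ h1
  have h2 : (m' : ℝ) ≤ 2 * 2 ^ KS.em k := by exact_mod_cast b2
  have h3 : 1 / (2 * (2 : ℝ) ^ KS.em k) ≤ ((m' : ℝ) - m) / m' :=
    div_le_div₀ (by (clear * - hm1; linarith)) (by (clear * - hm1; linarith)) hm'0 h2
  refine le_trans ?_ h3
  unfold lamk
  have hp' : (1 : ℝ) ≤ p := by exact_mod_cast hp
  rw [div_le_div_iff₀ (by positivity) (by positivity), one_mul]
  have h4 : Pool.Agent.M20.Helper46.KSZ.ee d k + KS.em k ≤ k := by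
    have h5 : Pool.Agent.M20.Helper46.KSZ.ee d k ≤ k / 2 := by
      rw [Nat.le_div_iff_mul_le (by norm_num)]
      unfold Pool.Agent.M20.Helper46.KSZ.ee
      have hk0 : (0 : ℝ) ≤ k := k.cast_nonneg
      rcases le_or_gt 0 ((k : ℝ) * (1/2 - d)) with h0 | h0
      · have h6 := Nat.floor_le h0
        have h8 : ((⌊(k : ℝ) * (1/2 - d)⌋₊ * 2 : ℕ) : ℝ) ≤ (k : ℕ) := by
          push_cast
          (clear * - h6 hd; nlinarith)
        exact_mod_cast h8
      · rw [Nat.floor_of_nonpos h0.le]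
        simp
    have h7 : KS.em k ≤ k / 2 := by
      unfold KS.em
      omega
    omega
  calc (2 : ℝ) ^ Pool.Agent.M20.Helper46.KSZ.ee d k * (2 * 2 ^ KS.em k) = 2 * 2 ^ (Pool.Agent.M20.Helper46.KSZ.ee d k + KS.em k) := by rw [pow_add]; ring
    _ ≤ 2 * 2 ^ k := by gcongr; norm_num
    _ ≤ 8 * p * 2 ^ k := by
        have : (0 : ℝ) < 2 ^ k := by positivity
        (clear * - this hp'; nlinarith)

lemma sum_sq_PM (k : ℕ) : ∑ m ∈ PM k, ((m : ℝ) ^ (-(0.605 : ℝ))) ^ 2 ≤ 2 * (2 : ℝ) ^ (-(0.1039 : ℝ) * k) := by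
  have h0 : (0 : ℝ) < 2 ^ KS.em k := by positivity
  have h1 : ∀ m ∈ PM k, ((m : ℝ) ^ (-(0.605 : ℝ))) ^ 2 ≤ ((2 : ℝ) ^ KS.em k) ^ (-(1.21 : ℝ)) := by
    intro m hm
    obtain ⟨a1, a2, a3⟩ := mem_PM hm
    have hm0 : (0 : ℝ) < m := by exact_mod_cast a3.pos
    have hm1 : (2 : ℝ) ^ KS.em k ≤ m := by exact_mod_cast a1.le
    have e : ((m : ℝ) ^ (-(0.605 : ℝ))) ^ 2 = (m : ℝ) ^ (-(1.21 : ℝ)) := by
      rw [← Real.rpow_natCast, ← Real.rpow_mul hm0.le]
      norm_num
    rw [e]
    exact Real.rpow_le_rpow_of_nonpos h0 hm1 (by norm_num)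
  refine (Finset.sum_le_card_nsmul _ _ _ h1).trans ?_
  rw [nsmul_eq_mul]
  have h2 : ((PM k).card : ℝ) ≤ 2 ^ KS.em k := by exact_mod_cast card_PM k
  calc ((PM k).card : ℝ) * ((2 : ℝ) ^ KS.em k) ^ (-(1.21 : ℝ)) ≤ 2 ^ KS.em k * ((2 : ℝ) ^ KS.em k) ^ (-(1.21 : ℝ)) := by
        gcongr
    _ = (2 : ℝ) ^ (-(0.21 : ℝ) * KS.em k) := by
        rw [← Real.rpow_natCast 2 (KS.em k), ← Real.rpow_mul (by norm_num), ← Real.rpow_add (by norm_num)]
        congr 1
        ring
    _ ≤ (2 : ℝ) ^ (-(0.1039 : ℝ) * k + 1) := by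
        apply Real.rpow_le_rpow_of_exponent_le (by norm_num)
        have := (em_bounds k).1
        (clear * - this; linarith)
    _ = 2 * (2 : ℝ) ^ (-(0.1039 : ℝ) * k) := by
        rw [Real.rpow_add_one (by norm_num)]; ring

/-- the sum of the line integrals -/
lemma sum_line (k p : ℕ) {lam T : ℝ} (hT : 0 ≤ T) (Z : ℂ → ℂ) (u : ℝ)
    (hint : ∀ v : ℝ, Integrable (fun t : ℝ => LF.gg p lam T Z t * Complex.exp (t * v * Complex.I))) :
    ∑ m ∈ PM k, line p lam T Z (u - Real.log m) =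
      (1 / (2 * Real.pi)) * (Complex.exp ((0.605 : ℝ) * u) *
        ∫ t : ℝ, LF.gg p lam T Z t * (∑ v ∈ (PM k).image (fun m : ℕ => -Real.log m),
          ((Real.exp (0.605 * v) : ℝ) : ℂ) * Complex.exp (t * v * Complex.I)) * Complex.exp (t * u * Complex.I)) := by
  have hinj : Set.InjOn (fun m : ℕ => -Real.log (m : ℝ)) (PM k : Set ℕ) := by
    intro a ha b hb hab
    have ha' := (mem_PM ha).2.2.pos
    have hb' := (mem_PM hb).2.2.pos
    have h1 : Real.log (a : ℝ) = Real.log b := by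
      have : -Real.log (a : ℝ) = -Real.log b := hab
      (clear * - hab; linarith)
    have h2 := Real.log_injOn_pos (Set.mem_Ioi.2 (by exact_mod_cast ha' : (0 : ℝ) < a))
      (Set.mem_Ioi.2 (by exact_mod_cast hb' : (0 : ℝ) < b)) h1
    exact_mod_cast h2
  have e1 : ∀ m ∈ PM k, line p lam T Z (u - Real.log m) =
      (1 / (2 * Real.pi)) * (Complex.exp ((0.605 : ℝ) * u) *
        (((Real.exp (0.605 * (-Real.log m)) : ℝ) : ℂ) *
          ∫ t : ℝ, LF.gg p lam T Z t * Complex.exp (t * (u - Real.log m : ℝ) * Complex.I))) := by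
    intro m _
    rw [LF.line_eq hT]
    congr 1
    rw [← mul_assoc]
    congr 1
    · rw [Complex.ofReal_exp, ← Complex.exp_add]
      congr 1
      push_cast
      ring
  rw [Finset.sum_congr rfl e1, ← Finset.mul_sum, ← Finset.mul_sum]
  congr 2
  have e2 : ∀ t : ℝ, LF.gg p lam T Z t * (∑ v ∈ (PM k).image (fun m : ℕ => -Real.log m),
      ((Real.exp (0.605 * v) : ℝ) : ℂ) * Complex.exp (t * v * Complex.I)) * Complex.exp (t * u * Complex.I) =
      ∑ m ∈ PM k, ((Real.exp (0.605 * (-Real.log m)) : ℝ) : ℂ) *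
        (LF.gg p lam T Z t * Complex.exp (t * (u - Real.log m : ℝ) * Complex.I)) := by
    intro t
    rw [Finset.sum_image hinj, Finset.mul_sum, Finset.sum_mul]
    refine Finset.sum_congr rfl fun m _ => ?_
    have : Complex.exp (t * (u - Real.log m : ℝ) * Complex.I) =
        Complex.exp (t * ((-Real.log m : ℝ) : ℂ) * Complex.I) * Complex.exp (t * u * Complex.I) := by
      rw [← Complex.exp_add]
      congr 1
      push_cast
      ring
    rw [this]
    ring
  simp only [e2]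
  rw [integral_finsetSum _ (fun m _ => (hint _).const_mul _)]
  exact Finset.sum_congr rfl fun m _ => (integral_const_mul _ _).symm

/-- LineFewE2 -/
theorem lineFewE2 (hS1 : S1Lower) (hK : KFacts) (hG : GBound) : LineFewE2 := by
  obtain ⟨cS, hcS, KS1, hKS1⟩ := hS1
  obtain ⟨CK0, hCK0⟩ := hK.bound
  obtain ⟨CG, hCG0, hCG⟩ := hG
  set CK : ℝ := |CK0| + 1 with hCKd
  have hCK1 : 1 ≤ CK := by linarith [abs_nonneg CK0]
  have hC0 := C0_pos
  intro p d hp hd hd1
  have hp' : (1 : ℝ) ≤ p := by exact_mod_cast hp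
  set C' : ℝ := (200 / cS) ^ 2 * (CK ^ p * (CG * 36)) ^ 2 * (Real.pi * C0) ^ 2 * (16 * p) ^ 2 * 2 with hC'
  obtain ⟨K, hKk⟩ := exists_K6 C'
  refine ⟨max K (max KS1 1), ?_⟩
  intro k hk M Z hB
  have hkK : K ≤ k := (le_max_left _ _).trans hk
  have hkS : KS1 ≤ k := ((le_max_left _ _).trans (le_max_right _ _)).trans hk
  have hk1 : 1 ≤ k := ((le_max_right _ _).trans (le_max_right _ _)).trans hk
  have hk1' : (1 : ℝ) ≤ k := by exact_mod_cast hk1
  have hS := hKS1 k hkS
  have hSpos : 0 < S1 k := lt_of_lt_of_le (by (clear * - hcS hk1; positivity)) hS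
  set lam := lamk p d k with hlam
  have hl : 0 < lam := LF.lamk_pos hp d k
  have hl2 : lam ≤ 1/2 := LF.lamk_le hp d hd k
  set T : ℝ := 2 ^ (5 * k) with hTd
  have hT : 1 ≤ T := one_le_pow₀ (by norm_num)
  obtain ⟨hG1, -⟩ := hCG T M Z hT hB
  set L : ℝ := CG * (36 * (k : ℝ) ^ 2) with hLd
  have hL0 : 0 ≤ L := by positivity
  have hlogT : (Real.log (T + 2)) ^ 2 ≤ 36 * (k : ℝ) ^ 2 := by
    have h1 := LF.logT k hk1
    have h2 : 0 ≤ Real.log (T + 2) := Real.log_nonneg (by (clear * - hd hd1 hT; linarith))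
    calc (Real.log (T + 2)) ^ 2 ≤ (6 * (k : ℝ)) ^ 2 := by (clear * - h2 h1; gcongr)
      _ = _ := by ring
  set B : ℝ := CK ^ p * L with hBd
  have hB0 : 0 ≤ B := by (clear * - hCG0 hk1; positivity)
  have hgb := gg_bound' hp (lam := lam) (T := T) (CK := CK) (L := L) (Z := Z) (by (clear * - hCK1 hd hd1; linarith)) hL0
    (by
      intro s h0 h2
      refine (hCK0 lam hl (by (clear * - hd hd1 hl2; linarith)) s h0 h2).trans ?_
      apply div_le_div_of_nonneg_right _ (by (clear * -; positivity))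
      (clear * - hd hd1; linarith [le_abs_self CK0]))
    (by
      intro s h0 h2 h3
      refine (hG1 s h0 h2 h3).trans ?_
      rw [hLd]
      (clear * - hlogT hCG0; gcongr))
  have hgm : Measurable (LF.gg p lam T Z) := LF.gg_meas hl hB.diff
  have hint : ∀ v : ℝ, Integrable (fun t : ℝ => LF.gg p lam T Z t * Complex.exp (t * v * Complex.I)) := by
    intro v
    have hgi : Integrable (LF.gg p lam T Z) := by
      refine ((Helper52.QRH.lorentz_integrable hl).const_mul B).mono' hgm.aestronglyMeasurable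
        (Filter.Eventually.of_forall fun t => ?_)
      refine (hgb t).trans (le_of_eq ?_)
      ring
    refine hgi.mul_bdd (c := 1) (Continuous.aestronglyMeasurable (by fun_prop)) ?_
    refine Filter.Eventually.of_forall fun t => ?_
    have : (t * v * Complex.I : ℂ) = ((t * v : ℝ) : ℂ) * Complex.I := by push_cast; ring
    rw [this, Complex.norm_exp_ofReal_mul_I]
  set F := (Finset.range (2 ^ (k - Pool.Agent.M20.Helper46.KSZ.ee d k))).filter (fun j =>
      1/100 * (2 : ℝ) ^ k * S1 k ≤ ‖∑ m ∈ PM k, line p lam T Z (uu d k j - Real.log m)‖) with hF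
  have hFj : ∀ j ∈ F, j < 2 ^ (k - Pool.Agent.M20.Helper46.KSZ.ee d k) := by
    intro j hj
    exact Finset.mem_range.1 (Finset.mem_filter.1 hj).1
  have hinj : Set.InjOn (uu d k) F := by
    intro a ha b hb hab
    by_contra hne
    have := LF.uu_abs hp d hd k a b hne (hFj a ha) (hFj b hb)
    rw [hab, sub_self, abs_zero] at this
    (clear * - hl this; linarith)
  set V : Finset ℝ := (PM k).image (fun m : ℕ => -Real.log m) with hV
  have hVsep : ∀ u ∈ V, ∀ u' ∈ V, u ≠ u' → lam ≤ |u - u'| := by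
    intro u hu u' hu' hne
    obtain ⟨a, ha, rfl⟩ := Finset.mem_image.1 hu
    obtain ⟨b, hb, rfl⟩ := Finset.mem_image.1 hu'
    have hab : a ≠ b := fun h => hne (by rw [h])
    rcases lt_or_gt_of_ne hab with h | h
    · refine (PM_sep hp hd ha hb h).trans ?_
      refine le_trans (le_of_eq ?_) (le_abs_self _)
      ring
    · refine (PM_sep hp hd hb ha h).trans ?_
      rw [abs_sub_comm]
      refine le_trans (le_of_eq ?_) (le_abs_self _)
      ring
  have hRsep : ∀ u ∈ F.image (uu d k), ∀ u' ∈ F.image (uu d k), u ≠ u' → lam ≤ |u - u'| := by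
    intro u hu u' hu' hne
    obtain ⟨a, ha, rfl⟩ := Finset.mem_image.1 hu
    obtain ⟨b, hb, rfl⟩ := Finset.mem_image.1 hu'
    exact LF.uu_abs hp d hd k a b (fun h => hne (by rw [h])) (hFj a ha) (hFj b hb)
  have hdual := duality2 hl (LF.gg p lam T Z) hgm hB0 hgb V hVsep
    (fun v => ((Real.exp (0.605 * v) : ℝ) : ℂ)) (F.image (uu d k)) hRsep
  rw [Finset.sum_image hinj, Finset.card_image_of_injOn hinj] at hdual
  -- the sum of squares
  have hinjV : Set.InjOn (fun m : ℕ => -Real.log (m : ℝ)) (PM k : Set ℕ) := by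
    intro a ha b hb hab
    have ha' := (mem_PM ha).2.2.pos
    have hb' := (mem_PM hb).2.2.pos
    have h1 : Real.log (a : ℝ) = Real.log b := by
      have : -Real.log (a : ℝ) = -Real.log b := hab
      (clear * - hab; linarith)
    have h2 := Real.log_injOn_pos (Set.mem_Ioi.2 (by exact_mod_cast ha' : (0 : ℝ) < a))
      (Set.mem_Ioi.2 (by exact_mod_cast hb' : (0 : ℝ) < b)) h1
    exact_mod_cast h2
  have hA : ∑ v ∈ V, ‖((Real.exp (0.605 * v) : ℝ) : ℂ)‖ ^ 2 ≤ 2 * (2 : ℝ) ^ (-(0.1039 : ℝ) * k) := by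
    rw [hV, Finset.sum_image hinjV]
    refine le_trans (le_of_eq ?_) (sum_sq_PM k)
    refine Finset.sum_congr rfl fun m hm => ?_
    have hm0 : (0 : ℝ) < m := by exact_mod_cast (mem_PM hm).2.2.pos
    rw [Complex.norm_real, Real.norm_of_nonneg (Real.exp_pos _).le, Real.rpow_def_of_pos hm0]
    congr 2
    ring
  -- lower bound for each term
  set E : ℝ := (2 : ℝ) ^ ((0.605 : ℝ) * k) with hE
  have hE0 : 0 < E := by positivity
  set v0 : ℝ := (2 : ℝ) ^ k * S1 k / (200 * E) with hv0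
  have hv0p : 0 < v0 := by (clear * - hSpos; positivity)
  have hlow : ∀ j ∈ F, v0 ≤
      ‖∫ t : ℝ, LF.gg p lam T Z t * (∑ v ∈ V, ((Real.exp (0.605 * v) : ℝ) : ℂ) *
        Complex.exp (t * v * Complex.I)) * Complex.exp (t * (uu d k j) * Complex.I)‖ := by
    intro j hj
    have h1 := (Finset.mem_filter.1 hj).2
    rw [sum_line k p (by (clear * - hd hd1 hT; linarith)) Z (uu d k j) hint, norm_mul, norm_mul, Complex.norm_exp] at h1
    have h1a : ‖(1 / (2 * (Real.pi : ℂ)))‖ ≤ 1 := by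
      rw [norm_div, norm_one, norm_mul, Complex.norm_real, Real.norm_of_nonneg Real.pi_pos.le,
        Complex.norm_ofNat, div_le_one (by positivity)]
      (clear * - hd hd1; linarith [Real.pi_gt_three])
    have h2 : (((0.605 : ℝ) : ℂ) * (uu d k j : ℂ)).re = 0.605 * uu d k j := by
      rw [← Complex.ofReal_mul, Complex.ofReal_re]
    rw [h2] at h1
    have h3 := LF.exp_uu d hd k j (hFj j hj)
    set I0 : ℝ := ‖∫ t : ℝ, LF.gg p lam T Z t * (∑ v ∈ V, ((Real.exp (0.605 * v) : ℝ) : ℂ) *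
        Complex.exp (t * v * Complex.I)) * Complex.exp (t * (uu d k j) * Complex.I)‖ with hI0
    rw [hv0, div_le_iff₀ (by positivity)]
    have h4 : ‖(1 / (2 * (Real.pi : ℂ)))‖ * (Real.exp (0.605 * uu d k j) * I0) ≤ 1 * ((2 * E) * I0) := by
      apply mul_le_mul h1a _ (by (clear * -; positivity)) (by norm_num)
      exact mul_le_mul_of_nonneg_right h3 (norm_nonneg _)
    (clear * - h1 h4; nlinarith)
  have hsum : (F.card : ℝ) * v0 ≤ ∑ j ∈ F,
      ‖∫ t : ℝ, LF.gg p lam T Z t * (∑ v ∈ V, ((Real.exp (0.605 * v) : ℝ) : ℂ) *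
        Complex.exp (t * v * Complex.I)) * Complex.exp (t * (uu d k j) * Complex.I)‖ := by
    rw [← nsmul_eq_mul]
    exact Finset.card_nsmul_le_sum _ _ _ hlow
  have hsq : ((F.card : ℝ) * v0) ^ 2 ≤ B ^ 2 * ((Real.pi / lam * C0) ^ 2 *
      (2 * (2 : ℝ) ^ (-(0.1039 : ℝ) * k)) * F.card) := by
    refine (pow_le_pow_left₀ (by (clear * - hSpos; positivity)) hsum 2).trans (hdual.trans ?_)
    (clear * - hA hl hC0 hCG0 hk1; gcongr)
  rcases Nat.eq_zero_or_pos F.card with h0 | hpos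
  · rw [h0]
    simp only [Nat.cast_zero]
    positivity
  have hFc : (0 : ℝ) < F.card := by exact_mod_cast hpos
  have h5 : (F.card : ℝ) * v0 ^ 2 ≤ B ^ 2 * ((Real.pi / lam * C0) ^ 2 *
      (2 * (2 : ℝ) ^ (-(0.1039 : ℝ) * k))) := by
    have : F.card * ((F.card : ℝ) * v0 ^ 2) ≤ F.card * (B ^ 2 * ((Real.pi / lam * C0) ^ 2 *
      (2 * (2 : ℝ) ^ (-(0.1039 : ℝ) * k)))) := by
      calc F.card * ((F.card : ℝ) * v0 ^ 2) = ((F.card : ℝ) * v0) ^ 2 := by ring
        _ ≤ _ := hsq
        _ = _ := by ring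
    exact le_of_mul_le_mul_left this hFc
  have h6 := LF.inv_lamk hp d k
  have hXk : (2 : ℝ) ^ k = (2 : ℝ) ^ (k : ℝ) := (Real.rpow_natCast _ _).symm
  have h7 : (Real.pi / lam * C0) ^ 2 ≤ (Real.pi * C0) ^ 2 * ((16 * p) ^ 2 * (2 : ℝ) ^ ((1 + 2 * d) * k)) := by
    have e : Real.pi / lam * C0 = (Real.pi * C0) * (1 / lam) := by ring
    rw [e, mul_pow]
    have h8 : (1 / lam) ^ 2 ≤ (16 * p) ^ 2 * (2 : ℝ) ^ ((1 + 2 * d) * k) := by
      calc (1 / lam) ^ 2 ≤ (16 * p * (2 : ℝ) ^ ((1/2 + d) * k)) ^ 2 :=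
            pow_le_pow_left₀ (by (clear * - hl; positivity)) h6 2
        _ = (16 * p) ^ 2 * (2 : ℝ) ^ ((1 + 2 * d) * k) := by
            rw [mul_pow, ← Real.rpow_natCast ((2 : ℝ) ^ ((1/2 + d) * k)), ← Real.rpow_mul (by norm_num)]
            congr 2
            push_cast
            ring
    exact mul_le_mul_of_nonneg_left h8 (by positivity)
  have h9 : (cS / 200) ^ 2 * ((2 : ℝ) ^ ((0.79 : ℝ) * k) / (k : ℝ) ^ 2) ≤ v0 ^ 2 := by
    have h10 : cS / 200 * ((2 : ℝ) ^ ((0.395 : ℝ) * k) / k) ≤ v0 := by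
      rw [hv0, hE, hXk]
      have e : (2 : ℝ) ^ (k : ℝ) = (2 : ℝ) ^ ((0.395 : ℝ) * k) * (2 : ℝ) ^ ((0.605 : ℝ) * k) := by
        rw [← Real.rpow_add (by norm_num)]
        congr 1
        ring
      rw [e]
      have e2 : (2 : ℝ) ^ ((0.395 : ℝ) * k) * (2 : ℝ) ^ ((0.605 : ℝ) * k) * S1 k /
          (200 * (2 : ℝ) ^ ((0.605 : ℝ) * k)) = (2 : ℝ) ^ ((0.395 : ℝ) * k) / 200 * S1 k := by
        field_simp
      rw [e2]
      calc cS / 200 * ((2 : ℝ) ^ ((0.395 : ℝ) * k) / k) = (2 : ℝ) ^ ((0.395 : ℝ) * k) / 200 * (cS / k) := by ring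
        _ ≤ _ := by (clear * - hS; gcongr)
    have e79 : (2 : ℝ) ^ ((0.79 : ℝ) * k) = ((2 : ℝ) ^ ((0.395 : ℝ) * k)) ^ 2 := by
      rw [← Real.rpow_natCast ((2 : ℝ) ^ ((0.395 : ℝ) * k)), ← Real.rpow_mul (by norm_num)]
      congr 1
      push_cast
      ring
    calc (cS / 200) ^ 2 * ((2 : ℝ) ^ ((0.79 : ℝ) * k) / (k : ℝ) ^ 2) =
        (cS / 200 * ((2 : ℝ) ^ ((0.395 : ℝ) * k) / k)) ^ 2 := by
          rw [e79]; ring
      _ ≤ v0 ^ 2 := pow_le_pow_left₀ (by positivity) h10 2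
  have h11 : (F.card : ℝ) * ((cS / 200) ^ 2 * ((2 : ℝ) ^ ((0.79 : ℝ) * k) / (k : ℝ) ^ 2)) ≤
      B ^ 2 * ((Real.pi * C0) ^ 2 * ((16 * p) ^ 2 * (2 : ℝ) ^ ((1 + 2 * d) * k)) *
      (2 * (2 : ℝ) ^ (-(0.1039 : ℝ) * k))) := by
    refine (mul_le_mul_of_nonneg_left h9 hFc.le).trans (h5.trans ?_)
    (clear * - h7 hCG0 hk1; gcongr)
  have h12 : (F.card : ℝ) ≤ C' * (k : ℝ) ^ 6 * (2 : ℝ) ^ ((0.1061 + 2 * d) * k) := by
    have hpos2 : 0 < (cS / 200) ^ 2 * ((2 : ℝ) ^ ((0.79 : ℝ) * k) / (k : ℝ) ^ 2) := by (clear * - hcS hk1; positivity)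
    rw [← le_div_iff₀ hpos2] at h11
    refine h11.trans (le_of_eq ?_)
    have e3 : (2 : ℝ) ^ ((1 + 2 * d) * k) * (2 : ℝ) ^ (-(0.1039 : ℝ) * k) =
        (2 : ℝ) ^ ((0.1061 + 2 * d) * k) * (2 : ℝ) ^ ((0.79 : ℝ) * k) := by
      rw [← Real.rpow_add (by norm_num), ← Real.rpow_add (by norm_num)]
      congr 1
      ring
    rw [div_eq_iff hpos2.ne']
    have hk0 : (k : ℝ) ≠ 0 := by positivity
    calc B ^ 2 * ((Real.pi * C0) ^ 2 * ((16 * p) ^ 2 * (2 : ℝ) ^ ((1 + 2 * d) * k)) *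
      (2 * (2 : ℝ) ^ (-(0.1039 : ℝ) * k))) = B ^ 2 * ((Real.pi * C0) ^ 2 * (16 * p) ^ 2 * 2) *
        ((2 : ℝ) ^ ((1 + 2 * d) * k) * (2 : ℝ) ^ (-(0.1039 : ℝ) * k)) := by ring
      _ = B ^ 2 * ((Real.pi * C0) ^ 2 * (16 * p) ^ 2 * 2) * ((2 : ℝ) ^ ((0.1061 + 2 * d) * k) *
        (2 : ℝ) ^ ((0.79 : ℝ) * k)) := by rw [e3]
      _ = _ := by
        rw [hC', hBd, hLd]
        (clear * - hcS hp hC0 hk0 hCG0 hCK1; field_simp)
  refine h12.trans ?_
  calc C' * (k : ℝ) ^ 6 * (2 : ℝ) ^ ((0.1061 + 2 * d) * k) ≤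
      (2 : ℝ) ^ ((0.01 : ℝ) * k) * (2 : ℝ) ^ ((0.1061 + 2 * d) * k) := by
        gcongr
        exact hKk k hkK
    _ = (2 : ℝ) ^ ((0.1161 + 2 * d) * k) := by
        rw [← Real.rpow_add (by norm_num)]
        congr 1
        ring
    _ ≤ (2 : ℝ) ^ ((0.12 + 5 * d) * k) := by
        apply Real.rpow_le_rpow_of_exponent_le (by norm_num)
        apply mul_le_mul_of_nonneg_right _ (by (clear * - hk1; positivity))
        (clear * - hd hd1; linarith)

end Pool.Agent.M20.Helper60.KE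
end

/- Helper53.KN.Helper60.KE.St -/
section
/-! CountE2: the prime side of the explicit formula with the factor `P(s)`. -/

set_option autoImplicit false

namespace Pool.Agent.M20.Helper60.KE

open Pool.Agent.M20.Helper10.QRH Pool.Agent.M20.Helper69.QRH Pool.Agent.M20.Helper46.KSZ
open Pool.Agent.M20.Helper60.KS (PM S1 nE2)

/-- a cell with few numbers `q m` makes the prime side small -/
def PrimeSideE2 : Prop := ∀ (p : ℕ) (d : ℝ), 1 ≤ p → 0 < d → d ≤ 1/100 → ∃ c0 : ℝ, 0 < c0 ∧ ∃ K : ℕ,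
  ∀ k : ℕ, K ≤ k → ∀ j < 2 ^ (k - Pool.Agent.M20.Helper46.KSZ.ee d k), (nE2 k (Pool.Agent.M20.Helper46.KSZ.ee d k) j : ℝ) < c0 * 2 ^ Pool.Agent.M20.Helper46.KSZ.ee d k / (k : ℝ) ^ 2 →
    ∑ m ∈ PM k, (∑' n : ℕ, ArithmeticFunction.vonMangoldt n *
      ker (lamk p d k) (p - 1) (uu d k j - Real.log m - Real.log n)) ≤ 1/8 * (2 : ℝ) ^ k * S1 k

end Pool.Agent.M20.Helper60.KE
end

/- Helper53.KN.Helper60.KE.Assembly -/
section
/-! CountE2: assembly of the explicit formula with the factor `P(s)`: `BadZeroE2`. -/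

set_option autoImplicit false
open Filter Topology MeasureTheory Complex
open scoped Classical

namespace Pool.Agent.M20.Helper60.KE

open Pool.Agent.M20.Helper10.QRH Pool.Agent.M20.Helper69.QRH Pool.Agent.M20.Helper46.KSZ
open Pool.Agent.M20.Helper60.KS (PM S1 nE2 DP gP S1Lower)

lemma ev_cube (A : ℝ) : ∃ K : ℕ, ∀ k : ℕ, K ≤ k → A * (k : ℝ) ^ 3 ≤ (2 : ℝ) ^ ((0.5 : ℝ) * k) := by
  have hr : 1 < (2 : ℝ) ^ (0.5 : ℝ) := Real.one_lt_rpow (by norm_num) (by norm_num)
  have h1 := (tendsto_pow_const_div_const_pow_of_one_lt 3 hr).const_mul A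
  rw [mul_zero] at h1
  have h2 := h1.eventually (gt_mem_nhds (one_pos : (0 : ℝ) < 1))
  obtain ⟨K, hK⟩ := Filter.eventually_atTop.1 h2
  refine ⟨K, fun k hk => ?_⟩
  have h3 := hK k hk
  have h4 : (0 : ℝ) < ((2 : ℝ) ^ (0.5 : ℝ)) ^ k := by positivity
  rw [← mul_div_assoc, div_lt_one h4] at h3
  rw [Real.rpow_mul (by norm_num), Real.rpow_natCast]
  exact h3.le

/-- `2^(em k) ≤ 2^(k/2)` -/
lemma pow_em_le (k : ℕ) : (2 : ℝ) ^ KS.em k ≤ (2 : ℝ) ^ ((0.5 : ℝ) * k) := by
  rw [← Real.rpow_natCast]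
  apply Real.rpow_le_rpow_of_exponent_le (by norm_num)
  have := (em_bounds k).2
  have hk : (0 : ℝ) ≤ k := k.cast_nonneg
  linarith

/-- numerical error of the shifted formula -/
lemma err_small2 (C cS : ℝ) (hC : 0 < C) (hcS : 0 < cS) (p : ℕ) (hp : 1 ≤ p) (d : ℝ) (hd : 0 < d) :
    ∃ K : ℕ, ∀ k : ℕ, K ≤ k → cS / k ≤ S1 k → ∀ u : ℝ, Real.exp u ≤ 2 * 2 ^ k →
      2 ^ KS.em k * (C * Real.exp (2 * (u + ((p - 1 : ℕ) : ℝ) * lamk p d k)) *
        (Real.log ((2 : ℝ) ^ (5 * k) + 2)) ^ 2 / (lamk p d k ^ 2 * 2 ^ (5 * k))) ≤ 1/100 * 2 ^ k * S1 k := by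
  obtain ⟨K, hK⟩ := ev_cube (C * 8 * 25 * 64 * p ^ 2 * 100 / cS)
  refine ⟨max K 1, fun k hk hS u hu => ?_⟩
  have hkK : K ≤ k := le_trans (le_max_left _ _) hk
  have hk1 : 1 ≤ k := le_trans (le_max_right _ _) hk
  exact by
    have hk1r : (1 : ℝ) ≤ k := by exact_mod_cast hk1
    have hpr : (1 : ℝ) ≤ p := by exact_mod_cast hp
    have hSp : 0 < S1 k := lt_of_lt_of_le (by (clear * - hcS hk1; positivity)) hS
    set X : ℝ := (2 : ℝ) ^ k with hX
    have hX1 : 1 ≤ X := one_le_pow₀ (by norm_num)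
    have hX0 : 0 < X := by (clear * - hX1; linarith)
    set H : ℝ := (2 : ℝ) ^ Pool.Agent.M20.Helper46.KSZ.ee d k with hH
    have hH1 : 1 ≤ H := one_le_pow₀ (by norm_num)
    have hHX : H ≤ X := pow_le_pow_right₀ (by norm_num) (ee_le hd k)
    exact by
      have hlam : lamk p d k = H / (8 * p * X) := rfl
      have hlam0 : 0 < lamk p d k := by rw [hlam]; positivity
      have hpl : ((p - 1 : ℕ) : ℝ) * lamk p d k ≤ 1 / 8 := by
        have h1 : ((p - 1 : ℕ) : ℝ) ≤ p := by exact_mod_cast Nat.sub_le p 1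
        calc ((p - 1 : ℕ) : ℝ) * lamk p d k ≤ p * (H / (8 * p * X)) := by
              clear * - hlam h1 hp; rw [hlam]; gcongr
          _ = H / X / 8 := by field_simp
          _ ≤ 1 / 8 := by
              have : H / X ≤ 1 := by rw [div_le_one hX0]; exact hHX
              (clear * - this; linarith)
      have hexp : Real.exp (2 * (u + ((p - 1 : ℕ) : ℝ) * lamk p d k)) ≤ 8 * X ^ 2 := by
        have h1 : Real.exp (2 * (u + ((p - 1 : ℕ) : ℝ) * lamk p d k)) =
            Real.exp u ^ 2 * Real.exp (2 * (((p - 1 : ℕ) : ℝ) * lamk p d k)) := by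
          rw [← Real.exp_nat_mul, ← Real.exp_add]; congr 1; push_cast; ring
        have h2 : Real.exp (2 * (((p - 1 : ℕ) : ℝ) * lamk p d k)) ≤ 2 := by
          have h3 : Real.exp (2 * (((p - 1 : ℕ) : ℝ) * lamk p d k)) ≤ Real.exp (1 / 2) :=
            Real.exp_le_exp.2 (by (clear * - hpl; linarith))
          have h4 : Real.exp (1 / 2 : ℝ) ^ 2 ≤ 2 ^ 2 := by
            rw [← Real.exp_nat_mul]
            have := Real.exp_one_lt_d9
            norm_num
            (clear * - this; linarith)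
          have h5 := Real.exp_pos (1/2 : ℝ)
          (clear * - h3 h4 h5; nlinarith)
        have h6 : Real.exp u ^ 2 ≤ (2 * X) ^ 2 := pow_le_pow_left₀ (Real.exp_pos _).le hu 2
        rw [h1]
        have h7 := Real.exp_pos (2 * (((p - 1 : ℕ) : ℝ) * lamk p d k))
        (clear * - h6 h2; nlinarith [sq_nonneg (Real.exp u)])
      have hlog : (Real.log ((2 : ℝ) ^ (5 * k) + 2)) ^ 2 ≤ 25 * (k : ℝ) ^ 2 := by
        have h1 : (2 : ℝ) ^ (5 * k) + 2 ≤ 2 ^ (5 * k + 1) := by
          have : (2 : ℝ) ^ 1 ≤ 2 ^ (5 * k) := pow_le_pow_right₀ (by norm_num) (by omega)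
          rw [pow_succ]
          (clear * - this; linarith)
        have h2 : Real.log ((2 : ℝ) ^ (5 * k) + 2) ≤ 5 * k := by
          have h3 := Real.log_le_log (by positivity) h1
          rw [Real.log_pow] at h3
          push_cast at h3
          have h4 := Real.log_two_lt_d9
          have h5 : (5 * (k : ℝ) + 1) * Real.log 2 ≤ (5 * k + 1) * 0.7 := by
            gcongr
            (clear * - h4; linarith)
          linarith
        have h6 : 0 ≤ Real.log ((2 : ℝ) ^ (5 * k) + 2) := Real.log_nonneg (by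
          have : (0 : ℝ) < 2 ^ (5 * k) := by positivity
          (clear * - this; linarith))
        (clear * - h2 h6; nlinarith)
      have hT : (2 : ℝ) ^ (5 * k) = X ^ 5 := by rw [hX, ← pow_mul, mul_comm]
      have hden : 1 / (64 * p ^ 2) * X ^ 3 ≤ lamk p d k ^ 2 * 2 ^ (5 * k) := by
        rw [hT, hlam]
        have : (H / (8 * p * X)) ^ 2 * X ^ 5 = H ^ 2 * (1 / (64 * p ^ 2) * X ^ 3) := by
          field_simp
          ring
        rw [this]
        have h1 : 1 ≤ H ^ 2 := one_le_pow₀ hH1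
        have h2 : 0 ≤ 1 / (64 * (p : ℝ) ^ 2) * X ^ 3 := by positivity
        (clear * - h1 h2; nlinarith)
      have hden0 : 0 < lamk p d k ^ 2 * 2 ^ (5 * k) := by positivity
      exact by
        have hq : C * Real.exp (2 * (u + ((p - 1 : ℕ) : ℝ) * lamk p d k)) *
              (Real.log ((2 : ℝ) ^ (5 * k) + 2)) ^ 2 / (lamk p d k ^ 2 * 2 ^ (5 * k)) ≤
              C * 8 * 25 * 64 * p ^ 2 * k ^ 2 / X := by
          rw [div_le_iff₀ hden0]
          calc C * Real.exp (2 * (u + ((p - 1 : ℕ) : ℝ) * lamk p d k)) *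
                (Real.log ((2 : ℝ) ^ (5 * k) + 2)) ^ 2 ≤ C * (8 * X ^ 2) * (25 * (k : ℝ) ^ 2) := by
                (clear * - hexp hC hlog; gcongr)
            _ = C * 8 * 25 * 64 * p ^ 2 * k ^ 2 / X * (1 / (64 * p ^ 2) * X ^ 3) := by
                (clear * - hp hk1 hX1 hC; field_simp)
            _ ≤ C * 8 * 25 * 64 * p ^ 2 * k ^ 2 / X * (lamk p d k ^ 2 * 2 ^ (5 * k)) := by clear * - hden hC hp hk1; gcongr
        have hmain := hK k hkK
        have hMX : (2 : ℝ) ^ KS.em k ≤ (2 : ℝ) ^ ((0.5 : ℝ) * k) := pow_em_le k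
        have hXX : (2 : ℝ) ^ ((0.5 : ℝ) * k) * (2 : ℝ) ^ ((0.5 : ℝ) * k) = X := by
          rw [← Real.rpow_add (by norm_num), hX, ← Real.rpow_natCast]
          congr 1
          ring
        set Y : ℝ := (2 : ℝ) ^ ((0.5 : ℝ) * k) with hY
        have hY1 : 1 ≤ Y := Real.one_le_rpow (by norm_num) (by positivity)
        have hY0 : 0 < Y := by (clear * - hY1; linarith)
        calc 2 ^ KS.em k * (C * Real.exp (2 * (u + ((p - 1 : ℕ) : ℝ) * lamk p d k)) *
              (Real.log ((2 : ℝ) ^ (5 * k) + 2)) ^ 2 / (lamk p d k ^ 2 * 2 ^ (5 * k))) ≤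
              Y * (C * 8 * 25 * 64 * p ^ 2 * k ^ 2 / X) := by
              apply mul_le_mul hMX hq (by (clear * - hC hlam0; positivity)) hY0.le
          _ = (C * 8 * 25 * 64 * p ^ 2 * 100 / cS * (k : ℝ) ^ 3) * (1 / 100 * (cS / k)) / Y := by
              rw [← hXX]
              (clear * - hcS hk1 hp hC hY1; field_simp)
          _ ≤ Y * (1 / 100 * (cS / k)) / Y := by (clear * - hmain hcS hk1; gcongr)
          _ = 1 / 100 * (cS / k) := by (clear * - hY1 hk1 hcS; field_simp)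
          _ ≤ 1 / 100 * S1 k := by (clear * - hS; gcongr)
          _ ≤ 1 / 100 * X * S1 k := by (clear * - hSp hX1; nlinarith)

/-- explicit formula for the cells, with the factor `P(ρ)` -/
def ExplicitE2 : Prop := ∀ d : ℝ, 0 < d → d ≤ 1/100 → ∃ c₀ : ℝ, 0 < c₀ ∧ ∃ K : ℕ, ∀ k : ℕ, K ≤ k →
  ∃ (c : ℂ → ℂ) (Ex : Finset ℕ), (∀ ρ : ℂ, 0 ≤ ρ.re → ρ.re ≤ 1 → ‖c ρ‖ ≤ 2) ∧
    (Ex.card : ℝ) ≤ (2 : ℝ) ^ ((0.12 + 5 * d) * k) ∧
    ∀ j < 2 ^ (k - Pool.Agent.M20.Helper46.KSZ.ee d k), j ∉ Ex → (nE2 k (Pool.Agent.M20.Helper46.KSZ.ee d k) j : ℝ) < c₀ * 2 ^ Pool.Agent.M20.Helper46.KSZ.ee d k / (k : ℝ) ^ 2 →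
      ∀ S : Finset ℂ, (∀ ρ, ρ ∈ S ↔ ρ ∈ zeroSet d k) →
      1/2 * S1 k ≤ ‖∑ ρ ∈ S, (analyticOrderNatAt riemannZeta ρ : ℂ) * c ρ * DP gP (2 ^ KS.em k) 2 ρ *
        Complex.exp ((ρ - 1) * uu d k j)‖

lemma DP_eq (k : ℕ) (s : ℂ) : DP gP (2 ^ KS.em k) 2 s = ∑ m ∈ PM k, (m : ℂ) ^ (-s) := by
  unfold DP PM gP
  rw [Finset.sum_filter]
  refine Finset.sum_congr rfl fun m _ => ?_
  split_ifs <;> simp

lemma exp_sub_log {m : ℕ} (hm : 0 < m) (s : ℂ) (u : ℝ) :
    Complex.exp (s * ((u - Real.log m : ℝ) : ℂ)) = Complex.exp (s * u) * (m : ℂ) ^ (-s) := by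
  have hm' : (m : ℂ) ≠ 0 := by exact_mod_cast hm.ne'
  rw [Complex.cpow_def_of_ne_zero hm', ← Complex.exp_add]
  congr 1
  rw [← Complex.natCast_log]
  push_cast
  ring

lemma norm_DP_le (k : ℕ) {s : ℂ} (hs : 0 ≤ s.re) : ‖DP gP (2 ^ KS.em k) 2 s‖ ≤ 2 ^ KS.em k := by
  rw [DP_eq]
  refine (norm_sum_le _ _).trans ?_
  have h1 : ∀ m ∈ PM k, ‖(m : ℂ) ^ (-s)‖ ≤ 1 := by
    intro m hm
    have hm0 := (mem_PM hm).2.2.one_lt
    rw [Complex.norm_natCast_cpow_of_pos (by omega)]
    apply Real.rpow_le_one_of_one_le_of_nonpos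
    · exact_mod_cast hm0.le
    · simpa using hs
  refine (Finset.sum_le_card_nsmul _ _ _ h1).trans ?_
  rw [nsmul_eq_mul, mul_one]
  exact_mod_cast card_PM k

theorem explicitE2 (hS1 : S1Lower) (h1 : BoxExists) (h9 : ShiftIter) (h10 : PrimeSideE2) (h11 : LineFewE2)
    (h12 : HighZeros) : ExplicitE2 := by
  intro d hd hd1
  obtain ⟨cS, hcS, KS1, hKS1⟩ := hS1
  obtain ⟨p, hp, K12, hK12⟩ := h12 d hd hd1
  obtain ⟨c10, hc10, K10, hK10⟩ := h10 p d hp hd hd1
  obtain ⟨K11, hK11⟩ := h11 p d hp hd hd1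
  obtain ⟨C, hC, hC9⟩ := h9
  obtain ⟨Ke, hKe⟩ := err_small2 C cS hC hcS p hp d hd
  obtain ⟨Kc, hKc⟩ := ev_cube (100 / cS)
  have hpr : (1 : ℝ) ≤ p := by exact_mod_cast hp
  refine ⟨c10, hc10, max (max K12 K10) (max (max K11 Ke) (max (max KS1 Kc) 10)), fun k hk => ?_⟩
  have hkA : K12 ≤ k := le_trans (le_trans (le_max_left _ _) (le_max_left _ _)) hk
  have hkB : K10 ≤ k := le_trans (le_trans (le_max_right _ _) (le_max_left _ _)) hk
  have hkC : K11 ≤ k := le_trans (le_trans (le_trans (le_max_left _ _) (le_max_left _ _)) (le_max_right _ _)) hk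
  have hkD : Ke ≤ k := le_trans (le_trans (le_trans (le_max_right _ _) (le_max_left _ _)) (le_max_right _ _)) hk
  have hkX : max (max KS1 Kc) 10 ≤ k := le_trans (le_trans (le_max_right _ _) (le_max_right _ _)) hk
  exact by
    have hkF : KS1 ≤ k := le_trans (le_trans (le_max_left _ _) (le_max_left _ _)) hkX
    have hkG : Kc ≤ k := le_trans (le_trans (le_max_right _ _) (le_max_left _ _)) hkX
    have hkE : 10 ≤ k := le_trans (le_max_right _ _) hkX
    have hSk := hKS1 k hkF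
    have hkr : (10 : ℝ) ≤ k := by exact_mod_cast hkE
    have hSp : 0 < S1 k := lt_of_lt_of_le (by positivity) hSk
    set X : ℝ := (2 : ℝ) ^ k with hX
    have hX10 : (1000 : ℝ) ≤ X := by
      have : (2 : ℝ) ^ 10 ≤ 2 ^ k := pow_le_pow_right₀ (by norm_num) hkE
      rw [hX]; norm_num at this ⊢; (clear * - hd hd1 this; linarith)
    exact by
      have hX0 : 0 < X := by (clear * - hd hd1 hX10; linarith)
      have hX1 : 1 ≤ X := by (clear * - hd hd1 hX10; linarith)
      have hXk : ((2 ^ k : ℕ) : ℝ) = X := by push_cast; rfl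
      obtain ⟨M, Z, hBox⟩ := h1 (2 ^ (5 * k)) (by positivity)
      set T : ℝ := (2 : ℝ) ^ (5 * k) with hT
      have hT1 : 1 ≤ T := one_le_pow₀ (by norm_num)
      set lam : ℝ := lamk p d k with hlam
      set H : ℝ := (2 : ℝ) ^ Pool.Agent.M20.Helper46.KSZ.ee d k with hH
      have hH1 : 1 ≤ H := one_le_pow₀ (by norm_num)
      exact by
        have hHX : H ≤ X := pow_le_pow_right₀ (by norm_num) (ee_le hd k)
        have hlamE : lam = H / (8 * p * X) := rfl
        have hlam0 : 0 < lam := by rw [hlamE]; positivity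
        have hplam : p * lam ≤ 1 / 8 := by
          rw [hlamE]
          have : (p : ℝ) * (H / (8 * p * X)) = H / X / 8 := by field_simp
          rw [this]
          have : H / X ≤ 1 := by rw [div_le_one hX0]; exact hHX
          (clear * - this; linarith)
        have hlam1 : lam ≤ 1 := by (clear * - hd hd1 hpr hplam; nlinarith)
        refine ⟨fun ρ => KK lam ρ ^ p, (Finset.range (2 ^ (k - Pool.Agent.M20.Helper46.KSZ.ee d k))).filter (fun j =>
            1/100 * (2 : ℝ) ^ k * S1 k ≤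
              ‖∑ m ∈ PM k, line p (lamk p d k) (2 ^ (5 * k)) Z (uu d k j - Real.log m)‖), ?_,
            hK11 k hkC M Z hBox, ?_⟩
        · intro ρ hρ0 hρ1
          exact by
            rw [norm_pow]
            have h2 := KK_norm_le hlam0 ρ
            have h3 : |ρ.re| ≤ 1 := abs_le.2 ⟨by (clear * - hd hd1 hρ0; linarith), hρ1⟩
            calc ‖KK lam ρ‖ ^ p ≤ (Real.exp (lam * |ρ.re|)) ^ p := pow_le_pow_left₀ (norm_nonneg _) h2 p
              _ = Real.exp (p * (lam * |ρ.re|)) := by rw [Real.exp_nat_mul]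
              _ ≤ Real.exp (1 / 2) := by
                  clear * - hd1 h3 hd hplam; apply Real.exp_le_exp.2
                  have : (p : ℝ) * (lam * |ρ.re|) = (p * lam) * |ρ.re| := by ring
                  rw [this]
                  have := abs_nonneg ρ.re
                  (clear * - hd1 h3 hd hplam this; nlinarith)
              _ ≤ 2 := by
                  have h4 : Real.exp (1 / 2 : ℝ) ^ 2 ≤ 2 ^ 2 := by
                    rw [← Real.exp_nat_mul]
                    have := Real.exp_one_lt_d9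
                    norm_num
                    (clear * - hd hd1 this; linarith)
                  have h5 := Real.exp_pos (1/2 : ℝ)
                  (clear * - h4 hd hd1 h5; nlinarith)
        intro j hj hjE hfew S hS
        set u : ℝ := uu d k j with hu
        -- the centre
        set y : ℕ := 2 ^ k + j * 2 ^ Pool.Agent.M20.Helper46.KSZ.ee d k with hy
        have hyX : X ≤ y := by
          rw [← hXk]
          exact_mod_cast (by rw [hy]; exact Nat.le_add_right _ _ : 2 ^ k ≤ y)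
        exact by
          have hek := ee_le hd k
          have hy2 : (y : ℝ) + H ≤ 2 * X := by
            have h2 : y + 2 ^ Pool.Agent.M20.Helper46.KSZ.ee d k ≤ 2 ^ (k + 1) := by
              have h3 : (j + 1) * 2 ^ Pool.Agent.M20.Helper46.KSZ.ee d k ≤ 2 ^ (k - Pool.Agent.M20.Helper46.KSZ.ee d k) * 2 ^ Pool.Agent.M20.Helper46.KSZ.ee d k := Nat.mul_le_mul_right _ hj
              rw [← pow_add, Nat.sub_add_cancel hek] at h3
              rw [pow_succ, hy]
              have h4 : (j + 1) * 2 ^ Pool.Agent.M20.Helper46.KSZ.ee d k = j * 2 ^ Pool.Agent.M20.Helper46.KSZ.ee d k + 2 ^ Pool.Agent.M20.Helper46.KSZ.ee d k := by ring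
              omega
            have h3 : ((y + 2 ^ Pool.Agent.M20.Helper46.KSZ.ee d k : ℕ) : ℝ) ≤ ((2 ^ (k + 1) : ℕ) : ℝ) := by exact_mod_cast h2
            push_cast at h3
            rw [pow_succ] at h3
            rw [hH, hX]
            (clear * - h3; linarith)
          have heu : Real.exp u = (y : ℝ) + H / 2 := by
            rw [hu]
            unfold uu
            rw [Real.exp_log (by (clear * -; positivity))]
          have heuX : X ≤ Real.exp u := by rw [heu]; (clear * - hd hd1 hH1 hyX; linarith)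
          have heuX2 : Real.exp u ≤ 2 * X := by rw [heu]; (clear * - hd hd1 hH1 hy2; linarith)
          have hu1 : 1 + ((p - 1 : ℕ) : ℝ) * lam ≤ u := by
            have h2 : ((p - 1 : ℕ) : ℝ) ≤ p := by exact_mod_cast Nat.sub_le p 1
            have h3 : ((p - 1 : ℕ) : ℝ) * lam ≤ 1 / 8 := (mul_le_mul_of_nonneg_right h2 hlam0.le).trans hplam
            have h4 : (2 : ℝ) ≤ u := by
              by_contra hc
              have h5 : Real.exp u < Real.exp 2 := Real.exp_lt_exp.2 (not_le.1 hc)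
              have h6 : Real.exp 2 ≤ 9 := by
                have h7 : Real.exp 2 = Real.exp 1 ^ 2 := by rw [← Real.exp_nat_mul]; norm_num
                rw [h7]
                have h8 := Real.exp_one_lt_d9
                have h9 := Real.exp_pos 1
                (clear * - hd1 hX10 hH1 hyX heu h7 hd h5 h8 h9; nlinarith)
              (clear * - hd hd1 hX10 hH1 hyX heu h5 h6; linarith)
            (clear * - hd hd1 h3 h4; linarith)
          have hp1 : p - 1 + 1 = p := Nat.sub_add_cancel hp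
          have hexp8 : (8 : ℝ) ≤ X ^ (1 : ℕ) := by rw [pow_one]; (clear * - hd hd1 hX10; linarith)
          -- the shifted points
          exact by
            have hum : ∀ m ∈ PM k, 1 + ((p - 1 : ℕ) : ℝ) * lam ≤ u - Real.log m := by
              intro m hm
              obtain ⟨a1, a2, a3⟩ := mem_PM hm
              have hm0 : (0 : ℝ) < m := by exact_mod_cast a3.pos
              have h2 : ((p - 1 : ℕ) : ℝ) ≤ p := by exact_mod_cast Nat.sub_le p 1
              have h3 : ((p - 1 : ℕ) : ℝ) * lam ≤ 1 / 8 := (mul_le_mul_of_nonneg_right h2 hlam0.le).trans hplam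
              have h4 : (m : ℝ) ≤ 2 ^ (KS.em k + 1) := by
                rw [pow_succ, mul_comm]; exact_mod_cast a2
              have h5 : Real.log m ≤ (KS.em k + 1 : ℕ) * Real.log 2 := by
                have := Real.log_le_log hm0 h4
                rwa [Real.log_pow] at this
              have h6 : (k : ℝ) * Real.log 2 ≤ u := by
                have h7 : Real.log X ≤ u := by
                  rw [Real.log_le_iff_le_exp hX0]; exact heuX
                rwa [hX, Real.log_pow] at h7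
              have h8 := (em_bounds k).2
              have h9 := Real.log_two_gt_d9
              push_cast at h5
              have h10 : ((k : ℝ) - (KS.em k + 1)) * Real.log 2 ≥ 4 * Real.log 2 := by
                apply mul_le_mul_of_nonneg_right _ (by (clear * - hd hd1 h9; linarith))
                (clear * - hd hd1 hkr h8; linarith)
              (clear * - hd hd1 h3 h6 h9 h5 h10; linarith)
            have hformm : ∀ m ∈ PM k, ‖lhs (ker lam (p - 1)) p lam M (u - Real.log m) -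
                line p lam T Z (u - Real.log m)‖ ≤
                C * Real.exp (2 * (u + ((p - 1 : ℕ) : ℝ) * lam)) * (Real.log (T + 2)) ^ 2 / (lam ^ 2 * T) := by
              intro m hm
              have hform := hC9 T M Z hT1 hBox lam (u - Real.log m) (p - 1) hlam0 hlam1 (hum m hm)
              rw [hp1] at hform
              refine hform.trans ?_
              have hm0 : (1 : ℝ) ≤ m := by exact_mod_cast (mem_PM hm).2.2.pos
              have hlogm : 0 ≤ Real.log m := Real.log_nonneg hm0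
              have hexp : Real.exp (2 * (u - Real.log m + ((p - 1 : ℕ) : ℝ) * lam)) ≤
                  Real.exp (2 * (u + ((p - 1 : ℕ) : ℝ) * lam)) := Real.exp_le_exp.2 (by (clear * - hlogm; linarith))
              (clear * - hexp hC hlam0; gcongr)
            have herr := hKe k hkD hSk u heuX2
            have hform2 : ‖∑ m ∈ PM k, lhs (ker lam (p - 1)) p lam M (u - Real.log m) -
                ∑ m ∈ PM k, line p lam T Z (u - Real.log m)‖ ≤ 1/100 * X * S1 k := by
              rw [← Finset.sum_sub_distrib]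
              refine (norm_sum_le _ _).trans ((Finset.sum_le_card_nsmul _ _ _ hformm).trans ?_)
              rw [nsmul_eq_mul]
              refine le_trans (mul_le_mul_of_nonneg_right ?_ ?_) herr
              · exact_mod_cast card_PM k
              · (clear * - hC hlam0; positivity)
            have hline : ‖∑ m ∈ PM k, line p lam T Z (u - Real.log m)‖ < 1/100 * X * S1 k := by
              by_contra hc
              apply hjE
              rw [Finset.mem_filter, Finset.mem_range]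
              exact ⟨hj, not_lt.1 hc⟩
            have hlhs : ‖∑ m ∈ PM k, lhs (ker lam (p - 1)) p lam M (u - Real.log m)‖ ≤ 1/50 * X * S1 k := by
              have := norm_add_le (∑ m ∈ PM k, lhs (ker lam (p - 1)) p lam M (u - Real.log m) -
                ∑ m ∈ PM k, line p lam T Z (u - Real.log m)) (∑ m ∈ PM k, line p lam T Z (u - Real.log m))
              rw [sub_add_cancel] at this
              (clear * - hform2 hline this; linarith)
            have hprime := hK10 k hkB j hj hfew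
            set P : ℝ := ∑ m ∈ PM k, ∑' n : ℕ, ArithmeticFunction.vonMangoldt n *
              ker lam (p - 1) (u - Real.log m - Real.log n) with hP
            have hP8 : P ≤ 1/8 * X * S1 k := hprime
            exact by
              obtain ⟨κ, hκ, hκe⟩ := KK_one_ge hlam0
              have hκp : 1 ≤ κ ^ p := one_le_pow₀ hκ
              set PP : ℂ → ℂ := fun ρ => DP gP (2 ^ KS.em k) 2 ρ with hPP
              have hS1e : ∑ m ∈ PM k, Real.exp (u - Real.log m) = Real.exp u * S1 k := by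
                unfold S1
                rw [Finset.mul_sum]
                refine Finset.sum_congr rfl fun m hm => ?_
                have hm0 : (0 : ℝ) < m := by exact_mod_cast (mem_PM hm).2.2.pos
                rw [Real.exp_sub, Real.exp_log hm0]
                ring
              have hms : ∀ N : Multiset ℂ, ∑ m ∈ PM k, (N.map (fun ρ => Complex.exp (ρ * ((u - Real.log m : ℝ) : ℂ)) *
                  KK lam ρ ^ p)).sum = (N.map (fun ρ => Complex.exp (ρ * u) * PP ρ * KK lam ρ ^ p)).sum := by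
                intro N
                have hone : ∀ ρ : ℂ, ∑ m ∈ PM k, Complex.exp (ρ * ((u - Real.log m : ℝ) : ℂ)) * KK lam ρ ^ p =
                    Complex.exp (ρ * u) * PP ρ * KK lam ρ ^ p := by
                  intro ρ
                  rw [← Finset.sum_mul]
                  congr 1
                  rw [hPP]
                  simp only
                  rw [DP_eq, Finset.mul_sum]
                  exact Finset.sum_congr rfl fun m hm => exp_sub_log (mem_PM hm).2.2.pos ρ u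
                induction N using Multiset.induction_on with
                | empty => simp
                | cons a N ih =>
                  simp only [Multiset.map_cons, Multiset.sum_cons]
                  rw [Finset.sum_add_distrib, ih, hone]
              have hlhsE : ∑ m ∈ PM k, lhs (ker lam (p - 1)) p lam M (u - Real.log m) =
                  ((P - Real.exp u * S1 k * κ ^ p : ℝ) : ℂ) +
                  (M.map (fun ρ => Complex.exp (ρ * u) * PP ρ * KK lam ρ ^ p)).sum := by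
                rw [← hms M]
                have e1 : ∀ m ∈ PM k, lhs (ker lam (p - 1)) p lam M (u - Real.log m) =
                    ((∑' n : ℕ, ArithmeticFunction.vonMangoldt n * ker lam (p - 1) (u - Real.log m - Real.log n) : ℝ) : ℂ)
                    - ((Real.exp (u - Real.log m) : ℝ) : ℂ) * ((κ ^ p : ℝ) : ℂ) +
                    (M.map (fun ρ => Complex.exp (ρ * ((u - Real.log m : ℝ) : ℂ)) * KK lam ρ ^ p)).sum := by
                  intro m _
                  unfold lhs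
                  rw [hκe]
                  push_cast
                  ring
                rw [Finset.sum_congr rfl e1, Finset.sum_add_distrib, Finset.sum_sub_distrib, ← Finset.sum_mul,
                  ← Complex.ofReal_sum, ← Complex.ofReal_sum, hS1e, ← hP]
                push_cast
                ring
              have hmainlow : Real.exp u * S1 k - 1/8 * X * S1 k - 1/50 * X * S1 k ≤
                  ‖(M.map (fun ρ => Complex.exp (ρ * u) * PP ρ * KK lam ρ ^ p)).sum‖ := by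
                have h2 : ‖((P - Real.exp u * S1 k * κ ^ p : ℝ) : ℂ)‖ ≥ Real.exp u * S1 k - 1/8 * X * S1 k := by
                  rw [Complex.norm_real, Real.norm_eq_abs, abs_sub_comm]
                  refine le_trans ?_ (le_abs_self _)
                  have h3 : 0 < Real.exp u * S1 k := mul_pos (Real.exp_pos u) hSp
                  (clear * - hprime hd hd1 hκp h3; nlinarith)
                have h3 := norm_sub_le_norm_add ((P - Real.exp u * S1 k * κ ^ p : ℝ) : ℂ)
                  (M.map (fun ρ => Complex.exp (ρ * u) * PP ρ * KK lam ρ ^ p)).sum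
                rw [← hlhsE] at h3
                (clear * - hlhs h2 h3; linarith)
              -- low and high zeros
              set B : ℝ := (2 : ℝ) ^ ((1/2 + 2 * d) * k) with hB
              set Mh := M.filter (fun ρ => B < |ρ.im|) with hMh
              exact by
                clear * - hK12 hkA hBox hj hKc hkG hX hd hd1 hkr hcS hkE hSk hMh hmainlow hB hT hS hPP heuX hSp hX0 h10; set Ml := M.filter (fun ρ => ¬ B < |ρ.im|) with hMl
                have hsplit : Mh + Ml = M := Multiset.filter_add_not _ _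
                have hhigh := hK12 k hkA M Z hBox j hj
                have hMsmall : (2 : ℝ) ^ KS.em k ≤ 1/100 * X * S1 k := by
                  have h2 := hKc k hkG
                  have h3 := pow_em_le k
                  set Y : ℝ := (2 : ℝ) ^ ((0.5 : ℝ) * k) with hY
                  have hYY : Y * Y = X := by
                    rw [hY, ← Real.rpow_add (by norm_num), hX, ← Real.rpow_natCast]
                    congr 1
                    ring
                  have hY0 : 0 < Y := by positivity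
                  have hk0 : (0 : ℝ) < k := by (clear * - hd hd1 hkr; linarith)
                  have h4 : 1 ≤ 1 / 100 * Y * S1 k := by
                    have h5 : 100 / cS * (k : ℝ) ≤ Y := by
                      refine le_trans ?_ h2
                      apply mul_le_mul_of_nonneg_left _ (by positivity)
                      exact le_self_pow₀ (by (clear * - hd hd1 hkr; linarith)) (by norm_num)
                    calc (1 : ℝ) = 1 / 100 * (100 / cS * (k : ℝ)) * (cS / k) := by field_simp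
                      _ ≤ 1 / 100 * Y * S1 k := by (clear * - h5 hSk hcS hkE; gcongr)
                  calc (2 : ℝ) ^ KS.em k ≤ Y * 1 := by (clear * - h3; linarith)
                    _ ≤ Y * (1 / 100 * Y * S1 k) := by (clear * - h4; gcongr)
                    _ = 1/100 * X * S1 k := by rw [← hYY]; ring
                have hhigh2 : ‖(Mh.map (fun ρ => Complex.exp (ρ * u) * PP ρ * KK lam ρ ^ p)).sum‖ ≤ 1/100 * X * S1 k := by
                  refine le_trans ?_ hMsmall
                  have h2 := Multiset.le_sum_of_subadditive (fun z : ℂ => ‖z‖) (by simp) (fun a b => norm_add_le a b)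
                    (Mh.map (fun ρ => Complex.exp (ρ * u) * PP ρ * KK lam ρ ^ p))
                  rw [Multiset.map_map] at h2
                  refine h2.trans ?_
                  have h3 : (Mh.map (fun ρ => ‖Complex.exp (ρ * u) * PP ρ * KK lam ρ ^ p‖)).sum ≤
                      (Mh.map (fun ρ => 2 ^ KS.em k * ‖Complex.exp (ρ * u) * KK lam ρ ^ p‖)).sum := by
                    apply Multiset.sum_map_le_sum_map
                    intro ρ hρ
                    rw [hMh, Multiset.mem_filter] at hρ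
                    obtain ⟨-, h4, h5, -⟩ := hBox.mem ρ hρ.1
                    rw [norm_mul, norm_mul, norm_mul]
                    have h6 := norm_DP_le k (s := ρ) (by (clear * - hd hd1 h4; linarith))
                    calc ‖Complex.exp (ρ * u)‖ * ‖PP ρ‖ * ‖KK lam ρ ^ p‖ =
                        ‖PP ρ‖ * (‖Complex.exp (ρ * u)‖ * ‖KK lam ρ ^ p‖) := by ring
                      _ ≤ _ := mul_le_mul_of_nonneg_right h6 (by (clear * -; positivity))
                  refine h3.trans ?_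
                  rw [Multiset.sum_map_mul_left]
                  calc (2 : ℝ) ^ KS.em k * _ ≤ 2 ^ KS.em k * 1 := by
                        apply mul_le_mul_of_nonneg_left hhigh (by positivity)
                    _ = 2 ^ KS.em k := mul_one _
                have hlow : Real.exp u * S1 k - 1/8 * X * S1 k - 1/50 * X * S1 k - 1/100 * X * S1 k ≤
                    ‖(Ml.map (fun ρ => Complex.exp (ρ * u) * PP ρ * KK lam ρ ^ p)).sum‖ := by
                  have h2 : (M.map (fun ρ => Complex.exp (ρ * u) * PP ρ * KK lam ρ ^ p)).sum =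
                      (Mh.map (fun ρ => Complex.exp (ρ * u) * PP ρ * KK lam ρ ^ p)).sum +
                      (Ml.map (fun ρ => Complex.exp (ρ * u) * PP ρ * KK lam ρ ^ p)).sum := by
                    rw [← hsplit, Multiset.map_add, Multiset.sum_add]
                  have h3 := norm_add_le (Mh.map (fun ρ => Complex.exp (ρ * u) * PP ρ * KK lam ρ ^ p)).sum
                    (Ml.map (fun ρ => Complex.exp (ρ * u) * PP ρ * KK lam ρ ^ p)).sum
                  rw [← h2] at h3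
                  (clear * - hmainlow hhigh2 h3; linarith)
                -- the finset
                have hBT : B < T + 2 := by
                  have h2 : B ≤ T := by
                    rw [hB, hT, ← Real.rpow_natCast]
                    apply Real.rpow_le_rpow_of_exponent_le (by norm_num)
                    push_cast
                    exact mul_le_mul_of_nonneg_right (by (clear * - hd hd1; linarith)) k.cast_nonneg
                  (clear * - hd hd1 h2; linarith)
                have hmemS : ∀ ρ, ρ ∈ S ↔ ρ ∈ Ml := by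
                  intro ρ
                  rw [hS, hMl, Multiset.mem_filter]
                  constructor
                  · rintro ⟨h2, h3, h4⟩
                    refine ⟨?_, not_lt.2 h4⟩
                    have hρT : |ρ.im| < T + 2 := lt_of_le_of_lt h4 hBT
                    have hne := hBox.ne ρ h3 hρT
                    have hρ1 : ρ ≠ 1 := by
                      rintro rfl
                      exact riemannZeta_one_ne_zero h2
                    have hE0 : EZ ρ = 0 := by rw [EZ_eq hρ1, h2, mul_zero]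
                    have hQ := hBox.eq ρ
                    rw [hE0] at hQ
                    have hQ0 : Qp M ρ = 0 := by
                      rcases mul_eq_zero.1 hQ.symm with h | h
                      · exact h
                      · exact absurd h hne
                    by_contra hc
                    exact Qp_ne_zero M ρ (fun a ha hρa => hc (hρa ▸ ha)) hQ0
                  · rintro ⟨h2, h3⟩
                    obtain ⟨h4, h5, h6, h7⟩ := hBox.mem ρ h2
                    exact ⟨h4, h5, not_lt.1 h3⟩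
                exact by
                  have hSfin : Ml.toFinset = S := by
                    ext ρ
                    rw [Multiset.mem_toFinset, hmemS]
                  have hsum : (Ml.map (fun ρ => Complex.exp (ρ * u) * PP ρ * KK lam ρ ^ p)).sum =
                      Complex.exp u * ∑ ρ ∈ S, (analyticOrderNatAt riemannZeta ρ : ℂ) * (KK lam ρ ^ p) *
                        DP gP (2 ^ KS.em k) 2 ρ * Complex.exp ((ρ - 1) * u) := by
                    rw [Finset.sum_multiset_map_count, hSfin, Finset.mul_sum]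
                    refine Finset.sum_congr rfl fun ρ hρ => ?_
                    have h2 := (hmemS ρ).1 hρ
                    rw [hMl, Multiset.mem_filter] at h2
                    obtain ⟨h4, h5, h6, h7⟩ := hBox.mem ρ h2.1
                    have hcount : Ml.count ρ = analyticOrderNatAt riemannZeta ρ := by
                      rw [hMl, Multiset.count_filter_of_pos (p := fun ρ : ℂ => ¬ B < |ρ.im|) h2.2]
                      exact hBox.count ρ h4 h5 h7
                    rw [hcount, nsmul_eq_mul]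
                    have h8 : Complex.exp (ρ * u) = Complex.exp u * Complex.exp ((ρ - 1) * u) := by
                      rw [← Complex.exp_add]; congr 1; ring
                    rw [h8, hPP]
                    ring
                  rw [hsum, norm_mul, Complex.norm_exp, Complex.ofReal_re] at hlow
                  have hupos := Real.exp_pos u
                  have hfin : Real.exp u * (1/2 * S1 k) ≤ Real.exp u * ‖∑ ρ ∈ S, (analyticOrderNatAt riemannZeta ρ : ℂ) *
                      (KK lam ρ ^ p) * DP gP (2 ^ KS.em k) 2 ρ * Complex.exp ((ρ - 1) * u)‖ := by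
                    refine le_trans ?_ hlow
                    have h9 : X * S1 k ≤ Real.exp u * S1 k := mul_le_mul_of_nonneg_right heuX hSp.le
                    have h10 : 0 < X * S1 k := mul_pos hX0 hSp
                    (clear * - h9 h10; nlinarith)
                  exact le_of_mul_le_mul_left hfin hupos

end Pool.Agent.M20.Helper60.KE
end

/- Helper53.KN.Helper60.KE.CountE2 -/
section
/-! CountE2: the counting theorem for the cells without numbers `q m`. -/

set_option autoImplicit false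
set_option maxHeartbeats 4000000
open Filter Topology
open scoped Classical

namespace Pool.Agent.M20.Helper60.KE
open Pool.Agent.M20.Helper60.KS Pool.Agent.M20.Helper60.KC

/-- the elementary conditions for large `X` -/
lemma large_XE {C ε0 δ d : ℝ} (hp : ParE ε0 δ d) (hC : 0 < C) : ∀ᶠ X : ℝ in atTop,
    8 ≤ X ∧ 10 ≤ Real.log X ∧ X ^ (1/2 + 2 * d) + 4 ≤ X ∧ X ^ (1/2 + 2 * d) + 1 ≤ X ^ (0.6 : ℝ) ∧
    240 * C * Real.log X ^ 4 ≤ X ^ (0.503 * ε0) ∧ 20 * (1 / δ + 2) * (C + 1) ≤ Real.log X ∧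
    2 * (C * Real.log X) ≤ Real.log X ^ 2 ∧ 10 * C * Real.log X ^ 3 ≤ X ^ (0.4 : ℝ) ∧
    X ^ (0.12 + 5 * d) + Real.log X ^ 4 * X ^ (0.171 : ℝ) ≤ X ^ (0.172 : ℝ) := by
  have hδ := hp.dpos
  have hδ' := hp.dsmall
  have hd4 := hp.h4
  have hd5 := hp.h5
  have hε := hp.h1
  have ev : ∀ B : ℝ, ∀ᶠ X : ℝ in atTop, B ≤ Real.log X := fun B =>
    Real.tendsto_log_atTop.eventually (eventually_ge_atTop B)
  filter_upwards [eventually_ge_atTop 8, ev 10, small (Real.log (240 * C)) 4 (0.503 * ε0) (by positivity),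
    ev (20 * (1 / δ + 2) * (C + 1)), ev (2 * C), small 0 4 0.0005 (by norm_num), ev 10000,
    small (Real.log (10 * C)) 3 0.4 (by norm_num)] with X h8 hl h3 h4 h5 h6 h7 h9
  have hX : 0 < X := by (clear * - hδ hδ' h8; linarith)
  have hl0 : 0 < Real.log X := by (clear * - hδ hδ' h7; linarith)
  set l := Real.log X with hldef
  have e1 : X ^ (1/2 + 2 * d) ≤ X ^ (0.51 : ℝ) := Real.rpow_le_rpow_of_exponent_le (by (clear * - hδ hδ' h8; linarith)) (by (clear * - hδ hδ' hd5; linarith))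
  have e2 : (2:ℝ) ≤ X ^ (0.09 : ℝ) := by
    rw [← Real.log_le_log_iff (by norm_num) (by positivity), Real.log_rpow hX]
    have := Real.log_two_lt_d9; (clear * - hδ hδ' h7 this; linarith)
  have e3 : (4:ℝ) ≤ X ^ (0.51 : ℝ) := by
    rw [← Real.log_le_log_iff (by norm_num) (by positivity), Real.log_rpow hX]
    have := Real.log_two_lt_d9
    have h44 : Real.log 4 = 2 * Real.log 2 := by
      rw [show (4:ℝ) = 2 ^ 2 by norm_num, Real.log_pow]; norm_num
    rw [h44]; (clear * - hδ hδ' h7 this; linarith)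
  have e4 : X ^ (0.6 : ℝ) = X ^ (0.51 : ℝ) * X ^ (0.09 : ℝ) := by
    rw [← Real.rpow_add hX]; norm_num
  have e5 : X ^ (1/2 + 2 * d) + 4 ≤ X ^ (0.6 : ℝ) := by
    rw [e4]; (clear * - e1 e2 e3 hδ hδ'; nlinarith)
  have e6 : X ^ (0.6 : ℝ) ≤ X := by
    calc X ^ (0.6 : ℝ) ≤ X ^ (1 : ℝ) := Real.rpow_le_rpow_of_exponent_le (by (clear * - hδ hδ' h8; linarith)) (by norm_num)
      _ = X := Real.rpow_one _
  refine ⟨h8, hl, by (clear * - e5 e6; linarith), by (clear * - hδ hδ' e5; linarith), ?_, h4, ?_, ?_, ?_⟩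
  · rw [← Real.log_le_log_iff (by positivity) (by positivity), Real.log_mul (by positivity) (by positivity),
      Real.log_pow, Real.log_rpow hX]
    simpa using h3
  · (clear * - h5 hδ hδ' hl; nlinarith)
  · rw [← Real.log_le_log_iff (by positivity) (by positivity), Real.log_mul (by positivity) (by positivity),
      Real.log_pow, Real.log_rpow hX]
    simpa using h9
  · have f1 : l ^ 4 ≤ X ^ (0.0005 : ℝ) := by
      rw [← Real.log_le_log_iff (by positivity) (by positivity), Real.log_pow, Real.log_rpow hX]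
      simpa using h6
    have f2 : l ^ 4 * X ^ (0.171 : ℝ) ≤ X ^ (0.1715 : ℝ) := by
      calc l ^ 4 * X ^ (0.171 : ℝ) ≤ X ^ (0.0005 : ℝ) * X ^ (0.171 : ℝ) :=
            mul_le_mul_of_nonneg_right f1 (by positivity)
        _ = X ^ (0.1715 : ℝ) := by rw [← Real.rpow_add hX]; norm_num
    have f3 : X ^ (0.12 + 5 * d) ≤ X ^ (0.1715 : ℝ) := Real.rpow_le_rpow_of_exponent_le (by (clear * - hδ hδ' h8; linarith)) (by (clear * - hδ hδ' hd5; linarith))
    have f4 : (2:ℝ) ≤ X ^ (0.0005 : ℝ) := by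
      rw [← Real.log_le_log_iff (by norm_num) (by positivity), Real.log_rpow hX]
      have := Real.log_two_lt_d9; (clear * - hδ hδ' h7 this; linarith)
    have f5 : X ^ (0.172 : ℝ) = X ^ (0.1715 : ℝ) * X ^ (0.0005 : ℝ) := by
      rw [← Real.rpow_add hX]; norm_num
    have f6 : 0 < X ^ (0.1715 : ℝ) := by positivity
    rw [f5]; (clear * - f2 f3 hδ hδ' f4 f6; nlinarith)

/-- the size of `P(ρ)` -/
lemma P_bound {k : ℕ} (hk : 500 ≤ k) (ρ : ℂ) (_h0 : 0 ≤ ρ.re) (h1 : ρ.re ≤ 1) :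
    ‖DP gP (2 ^ em k) 2 ρ‖ ≤ S1 k * ((2:ℝ) ^ k) ^ (0.497 * (1 - ρ.re)) := by
  have hkr : (500 : ℝ) ≤ k := by exact_mod_cast hk
  rw [DP_eq]
  refine (norm_sum_le _ _).trans ?_
  unfold S1
  rw [Finset.sum_mul]
  apply Finset.sum_le_sum
  intro m hm
  obtain ⟨a1, a2, a3⟩ := mem_PM hm
  have hm0 : (0:ℝ) < m := by exact_mod_cast a3.pos
  rw [Complex.norm_natCast_cpow_of_pos a3.pos, Complex.neg_re]
  have e1 : (m:ℝ) ^ (-ρ.re) = 1 / m * (m:ℝ) ^ (1 - ρ.re) := by
    rw [one_div, ← Real.rpow_neg_one, ← Real.rpow_add hm0]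
    congr 1; ring
  rw [e1]
  apply mul_le_mul_of_nonneg_left _ (by (clear * - hm0; positivity))
  have e2 : (m:ℝ) ≤ ((2:ℝ) ^ k) ^ (0.497 : ℝ) := by
    have e3 : (m:ℝ) ≤ 2 ^ (em k + 1) := by
      rw [pow_succ, mul_comm]; exact_mod_cast a2
    refine e3.trans ?_
    rw [← Real.rpow_natCast 2 k, ← Real.rpow_mul (by norm_num), ← Real.rpow_natCast]
    apply Real.rpow_le_rpow_of_exponent_le (by norm_num)
    have := (em_bounds k).2
    push_cast
    (clear * - hkr this; linarith)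
  calc (m:ℝ) ^ (1 - ρ.re) ≤ (((2:ℝ) ^ k) ^ (0.497 : ℝ)) ^ (1 - ρ.re) :=
        Real.rpow_le_rpow hm0.le e2 (by (clear * - h1; linarith))
    _ = ((2:ℝ) ^ k) ^ (0.497 * (1 - ρ.re)) := by rw [← Real.rpow_mul (by positivity)]

lemma S1_le_one (k : ℕ) : S1 k ≤ 1 := by
  unfold S1
  have h1 : ∀ m ∈ PM k, 1 / (m:ℝ) ≤ 1 / (2:ℝ) ^ em k := by
    intro m hm
    obtain ⟨a1, a2, a3⟩ := mem_PM hm
    apply one_div_le_one_div_of_le (by positivity)
    exact_mod_cast a1.le
  refine (Finset.sum_le_card_nsmul _ _ _ h1).trans ?_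
  rw [nsmul_eq_mul, mul_one_div, div_le_one (by positivity)]
  exact_mod_cast card_PM k

/-- counting theorem with the factor `P` -/
theorem countE2_of (hB : BadZeroE2) (hN : ThmNk 0.503) (hS1 : S1Lower) (hA : A9i) (hD : Detect)
    (hCB : ClassBoundE2) (hS : SplitSpaced) : CountE2 0.172 := by
  obtain ⟨ε0, X1, e1, e2, hN⟩ := hN
  obtain ⟨C, hC, hA⟩ := hA
  obtain ⟨cS, hcS, KS1, hKS1⟩ := hS1
  refine ⟨ε0 / 10 ^ 8, by (clear * - e1; positivity), fun d hd hd1 => ?_⟩
  set δ := ε0 / 10 ^ 8 with hδdef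
  have hp : ParE ε0 δ d := ⟨e1, e2, hδdef, hd, hd1⟩
  have hδ := hp.dpos
  have hδ' := hp.dsmall
  obtain ⟨c0, hc0, K1, hB⟩ := hB d hd (by (clear * - e2 hd hd1 hδdef; linarith))
  obtain ⟨X2, hD⟩ := hD δ d hδ (by (clear * - e2 hd hd1 hδdef; linarith)) hd hd1
  obtain ⟨X3, hCB⟩ := hCB ε0 δ d e1 e2 hδdef hd hd1
  refine ⟨c0, hc0, ?_⟩
  have hev : ∀ᶠ X : ℝ in atTop, (X1 ≤ X ∧ X2 ≤ X ∧ X3 ≤ X) ∧
      (8 ≤ X ∧ 10 ≤ Real.log X ∧ X ^ (1/2 + 2 * d) + 4 ≤ X ∧ X ^ (1/2 + 2 * d) + 1 ≤ X ^ (0.6 : ℝ) ∧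
      240 * C * Real.log X ^ 4 ≤ X ^ (0.503 * ε0) ∧ 20 * (1 / δ + 2) * (C + 1) ≤ Real.log X ∧
      2 * (C * Real.log X) ≤ Real.log X ^ 2 ∧ 10 * C * Real.log X ^ 3 ≤ X ^ (0.4 : ℝ) ∧
      X ^ (0.12 + 5 * d) + Real.log X ^ 4 * X ^ (0.171 : ℝ) ≤ X ^ (0.172 : ℝ)) := by
    filter_upwards [eventually_ge_atTop X1, eventually_ge_atTop X2, eventually_ge_atTop X3, large_XE hp hC]
      with X a b c h using ⟨⟨a, b, c⟩, h⟩
  have hev2 := (tendsto_pow_atTop_atTop_of_one_lt (by norm_num : (1:ℝ) < 2)).eventually hev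
  obtain ⟨K, hK⟩ := eventually_atTop.mp hev2
  refine ⟨max (max K K1) (max (max KS1 500) ⌈320 / cS⌉₊), fun k hk => ?_⟩
  have hkK : K ≤ k := le_trans (le_trans (le_max_left _ _) (le_max_left _ _)) hk
  have hk1 : K1 ≤ k := le_trans (le_trans (le_max_right _ _) (le_max_left _ _)) hk
  have hkS : KS1 ≤ k := le_trans (le_trans (le_trans (le_max_left _ _) (le_max_left _ _)) (le_max_right _ _)) hk
  have hk5 : 500 ≤ k := le_trans (le_trans (le_trans (le_max_right _ _) (le_max_left _ _)) (le_max_right _ _)) hk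
  have hkc : ⌈320 / cS⌉₊ ≤ k := le_trans (le_trans (le_max_right _ _) (le_max_right _ _)) hk
  have hkr : (500 : ℝ) ≤ k := by exact_mod_cast hk5
  obtain ⟨⟨hX1, hX2, hX3⟩, h8, hl, g1, g2, g3, g4, g5, g7, g6⟩ := hK k hkK
  obtain ⟨F, c, u, Exc, b1, b2, b3, b4, b5, b6⟩ := hB k hk1
  have hSk := hKS1 k hkS
  have hSl : 80 / Real.log ((2:ℝ) ^ k) ^ 2 ≤ S1 k := by
    refine le_trans ?_ hSk
    have h1 : (k:ℝ) / 2 ≤ Real.log ((2:ℝ) ^ k) := by
      rw [Real.log_pow]
      have := Real.log_two_gt_d9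
      (clear * - e2 hd hd1 hδdef hkr this; nlinarith)
    have h2 : (320 : ℝ) / cS ≤ k := le_trans (Nat.le_ceil _) (by exact_mod_cast hkc)
    rw [div_le_iff₀ hcS] at h2
    rw [div_le_div_iff₀ (by (clear * - hl; positivity)) (by positivity)]
    have h3 : ((k:ℝ) / 2) ^ 2 ≤ Real.log ((2:ℝ) ^ k) ^ 2 := pow_le_pow_left₀ (by positivity) h1 2
    calc 80 * (k:ℝ) = 320 * k / 4 := by ring
      _ ≤ (k * cS) * k / 4 := by (clear * - h2 hk5; gcongr)
      _ = cS * ((k:ℝ) / 2) ^ 2 := by ring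
      _ ≤ _ := by (clear * - h3 hcS; gcongr)
  have hM0 : ((2:ℝ) ^ k) ^ (0.495 : ℝ) / 4 ≤ ((2 ^ em k : ℕ) : ℝ) := by
    push_cast
    have h1 : ((2:ℝ) ^ k) ^ (0.495 : ℝ) ≤ 2 ^ (em k + 1) := by
      rw [← Real.rpow_natCast 2 k, ← Real.rpow_mul (by norm_num), ← Real.rpow_natCast]
      apply Real.rpow_le_rpow_of_exponent_le (by norm_num)
      have := (em_bounds k).1
      push_cast
      (clear * - this; linarith)
    rw [pow_succ] at h1
    have : (0:ℝ) < 2 ^ em k := by positivity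
    (clear * - h1 this; linarith)
  have hM1 : ((2 ^ em k : ℕ) : ℝ) ≤ ((2:ℝ) ^ k) ^ (0.495 : ℝ) := by
    push_cast
    rw [← Real.rpow_natCast 2 k, ← Real.rpow_mul (by norm_num), ← Real.rpow_natCast]
    apply Real.rpow_le_rpow_of_exponent_le (by norm_num)
    have := (em_bounds k).2
    (clear * - this; linarith)
  have hmain := main_countE (DP gP (2 ^ em k) 2) hp hC h8 hl hSl (S1_le_one k)
    (fun ρ h0 h1 => P_bound hk5 ρ h0 h1) hA
    (fun F hF => hN _ hX1 F hF) (fun x hx0 hx1 => hD _ x hX2 hx0 hx1)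
    (fun x V Z c g N U h => hCB _ x V Z c g N (2 ^ em k) U hX3 h.hx0 h.hx1 hM0 hM1 h.hV h.hs h.hsp h.hg h.hN0 h.hN1
      h.hD h.hP h.hc h.hU h.hUs h.hS)
    hS g1 g2 g3 g4 g5 g7 F c u (2 ^ (k - ec d k)) b1 b2 b3 b4
  set Bd := (Finset.range (2 ^ (k - ec d k))).filter (fun j =>
    (nE2 k (ec d k) j : ℝ) < c0 * 2 ^ ec d k / (k:ℝ) ^ 2) with hBd
  set Lg := (Finset.range (2 ^ (k - ec d k))).filter (fun j => 1/2 * S1 k ≤ ‖∑ ρ ∈ F, (mz ρ : ℂ) * c ρ *
      DP gP (2 ^ em k) 2 ρ * Complex.exp ((ρ - 1) * (u j : ℂ))‖) with hLg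
  have hsub : Bd ⊆ Exc ∪ Lg := by
    intro j hj
    rw [hBd, Finset.mem_filter, Finset.mem_range] at hj
    rw [Finset.mem_union]
    by_cases hE : j ∈ Exc
    · exact Or.inl hE
    · right
      rw [hLg, Finset.mem_filter, Finset.mem_range]
      exact ⟨hj.1, b6 j hj.1 hE hj.2⟩
  have hcard : (Bd.card : ℝ) ≤ Exc.card + Lg.card := by
    exact_mod_cast le_trans (Finset.card_le_card hsub) (Finset.card_union_le _ _)
  have hpow : (2:ℝ) ^ (0.172 * (k:ℝ)) = ((2:ℝ) ^ k) ^ (0.172 : ℝ) := by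
    rw [← Real.rpow_natCast, ← Real.rpow_mul (by norm_num)]
    ring_nf
  rw [hpow]
  (clear * - g6 b5 hmain hcard; linarith)

end Pool.Agent.M20.Helper60.KE
end

/- Helper53.KN.Helper60.KE.PrimeSide -/
section
/-! CountE2: the prime side. -/

set_option autoImplicit false
open Filter Topology Finset
open scoped ArithmeticFunction.vonMangoldt

namespace Pool.Agent.M20.Helper60.KE

open Pool.Agent.M20.Helper10.QRH Pool.Agent.M20.Helper46.KSZ Pool.Agent.M20.Helper30.QRH
open Pool.Agent.M20.Helper60.KS (PM S1 nE2 S1Lower)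

/-- the cofactors -/
noncomputable def cof (k y H m : ℕ) : Finset ℕ :=
  (range (2 ^ (k + 1))).filter (fun n => y ≤ m * n ∧ m * n < y + H)

lemma ker_sum_le2 {p : ℕ} {lam X : ℝ} (hK : KerFacts) (hp : 1 ≤ p) (k y H m : ℕ) (hm : 0 < m) (hlam : 0 < lam)
    (hX : 0 < X) (hHX : p * lam * (4 * X) ≤ H) (hy : X ≤ y) (hy2 : (y : ℝ) + H ≤ 2 * X)
    (hyk : y + H ≤ 2 ^ (k + 1)) :
    ∑' n : ℕ, Λ n * ker lam (p - 1) (Real.log (y + H / 2) - Real.log m - Real.log n) ≤
      1 / lam * ∑ n ∈ cof k y H m, Λ n := by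
  obtain ⟨_, hk0, hk1, hk2⟩ := hK lam hlam (p - 1)
  have hp1 : (((p - 1 : ℕ) : ℝ) + 1) = p := by
    rw [Nat.cast_sub hp]; push_cast; ring
  rw [hp1] at hk2
  set l' : ℝ := p * lam with hl'
  have hl'0 : 0 < l' := by
    have : (0 : ℝ) < p := by exact_mod_cast hp
    (clear * - hp hlam; positivity)
  have hH : (0 : ℝ) < H := by
    refine lt_of_lt_of_le (by (clear * - hp hlam hX; positivity)) hHX
  have hy0 : (0 : ℝ) < y := by (clear * - hX hy; linarith)
  have hm0 : (0 : ℝ) < m := by exact_mod_cast hm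
  exact by
    have hz : ∀ n ∉ cof k y H m, Λ n * ker lam (p - 1) (Real.log (y + H / 2) - Real.log m - Real.log n) = 0 := by
      intro n hn
      rcases Nat.eq_zero_or_pos n with h0 | h0
      · subst h0
        simp
      have hn0 : (0 : ℝ) < n := by exact_mod_cast h0
      have hlog : Real.log (y + H / 2) - Real.log m - Real.log n = Real.log (y + H / 2) - Real.log ((m * n : ℕ) : ℝ) := by
        push_cast
        rw [Real.log_mul hm0.ne' hn0.ne']
        ring
      have hmn0 : (0 : ℝ) < ((m * n : ℕ) : ℝ) := by exact_mod_cast Nat.mul_pos hm h0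
      rw [hlog]
      rw [hk2, mul_zero]
      have hn' : m * n < y ∨ y + H ≤ m * n := by
        by_contra hcon
        push Not at hcon
        apply hn
        rw [cof, mem_filter, mem_range]
        refine ⟨?_, hcon⟩
        have h1 : n ≤ m * n := Nat.le_mul_of_pos_left n hm
        omega
      rcases hn' with hn' | hn'
      · have h1 : ((m * n : ℕ) : ℝ) ≤ y := by exact_mod_cast hn'.le
        have h2 := Real.log_le_log hmn0 h1
        have h3 := log_gap (a := (y : ℝ)) (b := y + H / 2) hy0 (by (clear * - hH; linarith))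
        have h4 : l' ≤ ((y : ℝ) + H / 2 - y) / (y + H / 2) := by
          rw [le_div_iff₀ (by (clear * - hy0 hH; positivity))]
          (clear * - hHX hy2 hX; nlinarith)
        rw [le_abs]
        left
        (clear * - h2 h3 h4; linarith)
      · have h1 : (y : ℝ) + H ≤ ((m * n : ℕ) : ℝ) := by exact_mod_cast hn'
        have h2 := Real.log_le_log (by (clear * - hy0 hH; positivity)) h1
        have h3 := log_gap (a := (y : ℝ) + H / 2) (b := y + H) (by (clear * - hy0 hH; positivity)) (by (clear * - hH; linarith))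
        have h4 : l' ≤ ((y : ℝ) + H - (y + H / 2)) / (y + H) := by
          rw [le_div_iff₀ (by (clear * - hy0 hH; positivity))]
          (clear * - hHX hy2 hX; nlinarith)
        rw [le_abs]
        right
        (clear * - h2 h3 h4; linarith)
    rw [tsum_eq_sum hz, mul_sum]
    apply sum_le_sum
    intro n _
    rw [mul_comm]
    exact mul_le_mul_of_nonneg_right (hk1 _) ArithmeticFunction.vonMangoldt_nonneg

/-- pairs with a prime power cofactor -/
lemma pow_pairs (k y H M r : ℕ) (hM : 1 ≤ M) (P : Finset ℕ) (hP : ∀ m ∈ P, M < m)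
    (hH : ∀ n m : ℕ, m ∈ P → y ≤ m * n → H ≤ n) (hy2 : y + H ≤ 2 ^ (k + 1)) (hr : 2 ^ (k + 1) ≤ M * 2 ^ (2 * r)) :
    ((P ×ˢ range (2 ^ (k + 1))).filter (fun p => (IsPrimePow p.2 ∧ ¬ p.2.Prime) ∧ y ≤ p.1 * p.2 ∧
      p.1 * p.2 < y + H)).card ≤ (2 ^ r + 1) * (k + 1) := by
  classical
  have hcard : ((range (2 ^ r + 1)) ×ˢ (range (k + 1))).card = (2 ^ r + 1) * (k + 1) := by simp
  rw [← hcard]
  -- facts on an element
  have key : ∀ q : ℕ × ℕ, q ∈ (P ×ˢ range (2 ^ (k + 1))).filter (fun p => (IsPrimePow p.2 ∧ ¬ p.2.Prime) ∧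
      y ≤ p.1 * p.2 ∧ p.1 * p.2 < y + H) → ∃ s a : ℕ, s.Prime ∧ 2 ≤ a ∧ s ^ a = q.2 ∧ s ≤ 2 ^ r ∧ a < k + 1 := by
    intro q hq
    rw [mem_filter, mem_product, mem_range] at hq
    obtain ⟨⟨h1, h2⟩, ⟨h3, h4⟩, h5, h6⟩ := hq
    rw [isPrimePow_nat_iff] at h3
    obtain ⟨s, a, hs, ha, hsa⟩ := h3
    have ha2 : 2 ≤ a := by
      rcases Nat.lt_or_ge a 2 with h | h
      · have : a = 1 := by omega
        subst this
        rw [pow_one] at hsa
        rw [← hsa] at h4
        exact absurd hs h4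
      · exact h
    have hMq := hP _ h1
    have h7 : M * q.2 < M * 2 ^ (2 * r) := by
      have h8 : M * q.2 ≤ q.1 * q.2 := Nat.mul_le_mul_right _ hMq.le
      omega
    have h8 : q.2 < 2 ^ (2 * r) := Nat.lt_of_mul_lt_mul_left h7
    refine ⟨s, a, hs, ha2, hsa, ?_, ?_⟩
    · by_contra hcon
      push Not at hcon
      have h9 : (2 ^ r) ^ 2 ≤ s ^ 2 := Nat.pow_le_pow_left hcon.le 2
      have h10 : s ^ 2 ≤ s ^ a := Nat.pow_le_pow_right hs.pos ha2
      have h11 : (2 ^ r) ^ 2 = 2 ^ (2 * r) := by rw [← pow_mul, mul_comm]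
      omega
    · by_contra hcon
      push Not at hcon
      have h9 : 2 ^ (k + 1) ≤ s ^ a := (Nat.pow_le_pow_right (by norm_num) hcon).trans
        (Nat.pow_le_pow_left hs.two_le a)
      omega
  choose! fs fa hfs using key
  apply card_le_card_of_injOn (fun q => (fs q, fa q))
  · intro q hq
    obtain ⟨h1, h2, h3, h4, h5⟩ := hfs q hq
    rw [mem_coe, mem_product, mem_range, mem_range]
    exact ⟨Nat.lt_succ_of_le h4, h5⟩
  · intro q hq q' hq' he
    simp only [Prod.mk.injEq] at he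
    obtain ⟨h1, h2, h3, h4, h5⟩ := hfs q hq
    obtain ⟨h1', h2', h3', h4', h5'⟩ := hfs q' hq'
    have e2 : q.2 = q'.2 := by rw [← h3, ← h3', he.1, he.2]
    rw [mem_coe, mem_filter, mem_product, mem_range] at hq hq'
    obtain ⟨⟨a1, a2⟩, ⟨a3, a4⟩, a5, a6⟩ := hq
    obtain ⟨⟨b1, b2⟩, ⟨b3, b4⟩, b5, b6⟩ := hq'
    have hHn := hH q.2 q.1 a1 a5
    have e1 : q.1 = q'.1 := by
      rw [← e2] at b5 b6
      rcases lt_trichotomy q.1 q'.1 with h | h | h
      · have h7 : (q.1 + 1) * q.2 ≤ q'.1 * q.2 := Nat.mul_le_mul_right _ h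
        rw [add_mul, one_mul] at h7
        omega
      · exact h
      · have h7 : (q'.1 + 1) * q.2 ≤ q.1 * q.2 := Nat.mul_le_mul_right _ h
        rw [add_mul, one_mul] at h7
        omega
    exact Prod.ext e1 e2

/-- the sum of `Λ` over all cofactors -/
lemma cof_sum (k y H M r : ℕ) (hM : 1 ≤ M) (P : Finset ℕ) (hP : ∀ m ∈ P, M < m)
    (hH : ∀ n m : ℕ, m ∈ P → y ≤ m * n → H ≤ n) (hy2 : y + H ≤ 2 ^ (k + 1)) (hr : 2 ^ (k + 1) ≤ M * 2 ^ (2 * r)) :
    ∑ m ∈ P, ∑ n ∈ cof k y H m, Λ n ≤ ((k + 1) * Real.log 2) *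
      ((((P ×ˢ range (2 ^ (k + 1))).filter (fun p => p.2.Prime ∧ y ≤ p.1 * p.2 ∧ p.1 * p.2 < y + H)).card : ℝ) +
        ((2:ℝ) ^ r + 1) * (k + 1)) := by
  classical
  have e1 : ∑ m ∈ P, ∑ n ∈ cof k y H m, Λ n = ∑ q ∈ (P ×ˢ range (2 ^ (k + 1))).filter
      (fun p => y ≤ p.1 * p.2 ∧ p.1 * p.2 < y + H), Λ q.2 := by
    rw [sum_filter, sum_product]
    refine sum_congr rfl fun m _ => ?_
    rw [cof, sum_filter]
  rw [e1]
  have h1 : ∀ q ∈ (P ×ˢ range (2 ^ (k + 1))).filter (fun p => y ≤ p.1 * p.2 ∧ p.1 * p.2 < y + H),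
      Λ q.2 ≤ if IsPrimePow q.2 then ((k : ℝ) + 1) * Real.log 2 else 0 := by
    intro q hq
    rw [mem_filter, mem_product, mem_range] at hq
    split_ifs with h
    · refine ArithmeticFunction.vonMangoldt_le_log.trans ?_
      have h2 : (q.2 : ℝ) ≤ 2 ^ (k + 1) := by exact_mod_cast hq.1.2.le
      have hn0 : (0 : ℝ) < q.2 := by exact_mod_cast h.pos
      refine (Real.log_le_log hn0 h2).trans (le_of_eq ?_)
      rw [Real.log_pow]
      push_cast
      ring
    · exact (ArithmeticFunction.vonMangoldt_eq_zero_iff.2 h).le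
  refine (sum_le_sum h1).trans ?_
  rw [← sum_filter, sum_const, nsmul_eq_mul, mul_comm]
  have hlog : 0 ≤ ((k : ℝ) + 1) * Real.log 2 := by (clear * -; positivity)
  apply mul_le_mul_of_nonneg_left _ hlog
  have h3 : (((P ×ˢ range (2 ^ (k + 1))).filter (fun p => y ≤ p.1 * p.2 ∧ p.1 * p.2 < y + H)).filter
      (fun q => IsPrimePow q.2)).card ≤
      ((P ×ˢ range (2 ^ (k + 1))).filter (fun p => p.2.Prime ∧ y ≤ p.1 * p.2 ∧ p.1 * p.2 < y + H)).card +
      ((P ×ˢ range (2 ^ (k + 1))).filter (fun p => (IsPrimePow p.2 ∧ ¬ p.2.Prime) ∧ y ≤ p.1 * p.2 ∧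
      p.1 * p.2 < y + H)).card := by
    refine (card_le_card ?_).trans (card_union_le _ _)
    intro q hq
    rw [mem_filter, mem_filter] at hq
    rw [mem_union, mem_filter, mem_filter]
    by_cases hp : q.2.Prime
    · exact Or.inl ⟨hq.1.1, hp, hq.1.2⟩
    · exact Or.inr ⟨hq.1.1, ⟨hq.2, hp⟩, hq.1.2⟩
  have h4 := pow_pairs k y H M r hM P hP hH hy2 hr
  exact_mod_cast h3.trans (Nat.add_le_add_left h4 _)

lemma ev_pow {a b : ℝ} (hab : a < b) (A : ℝ) : ∃ K : ℕ, ∀ k : ℕ, K ≤ k →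
    A * (k : ℝ) ^ 4 * (2:ℝ) ^ (a * k) ≤ (2 : ℝ) ^ (b * k) := by
  have h1 : 1 < (2 : ℝ) ^ (b - a) := Real.one_lt_rpow (by norm_num) (by linarith)
  have h2 := (tendsto_pow_const_div_const_pow_of_one_lt 4 h1).const_mul A
  rw [mul_zero] at h2
  have h4 := h2.eventually (gt_mem_nhds (show (0 : ℝ) < 1 by norm_num))
  obtain ⟨K, hK⟩ := eventually_atTop.mp h4
  refine ⟨K, fun k hk => ?_⟩
  have h5 := (hK k hk).le
  have h6 : (0 : ℝ) < ((2 : ℝ) ^ (b - a)) ^ k := by positivity
  rw [← mul_div_assoc, div_le_one h6] at h5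
  have h7 : (2:ℝ) ^ (b * k) = ((2 : ℝ) ^ (b - a)) ^ k * (2:ℝ) ^ (a * k) := by
    rw [← Real.rpow_natCast, ← Real.rpow_mul (by norm_num), ← Real.rpow_add (by norm_num)]
    congr 1; ring
  rw [h7]
  exact mul_le_mul_of_nonneg_right h5 (by positivity)

/-- the prime side -/
theorem primeSideE2 (hS1 : S1Lower) (h8 : KerFacts) : PrimeSideE2 := by
  intro p d hp hd0 hd
  obtain ⟨cS, hcS, KS1, hKS1⟩ := hS1
  have hp' : (1 : ℝ) ≤ p := by exact_mod_cast hp
  have hp0 : (0 : ℝ) < p := by (clear * - hd0 hd hp'; linarith)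
  obtain ⟨K, hK⟩ := ev_pow (show (0.26:ℝ) < 0.48 by norm_num) (10000 * p / cS)
  refine ⟨cS / (200 * p), by (clear * - hcS hp; positivity), max (max K KS1) 1000, fun k hk j hj hfew => ?_⟩
  exact by
    have hkK : K ≤ k := (le_max_left _ _).trans ((le_max_left _ _).trans hk)
    have hkS : KS1 ≤ k := (le_max_right _ _).trans ((le_max_left _ _).trans hk)
    have hk1000 : 1000 ≤ k := (le_max_right _ _).trans hk
    have hkr : (1000 : ℝ) ≤ k := by exact_mod_cast hk1000
    have hkr0 : (0 : ℝ) < k := by (clear * - hd0 hd hkr; linarith)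
    have hbig := hK k hkK
    exact by
      have hSk := hKS1 k hkS
      have hem := em_bounds k
      obtain ⟨-, -, he3⟩ := Pool.Agent.M20.Helper18.KSZ.ee_large hd0 hd (by omega : 20 ≤ k)
      set e := Pool.Agent.M20.Helper46.KSZ.ee d k with he
      have heR : (0.49 : ℝ) * k - 1 ≤ e ∧ (e : ℝ) ≤ 0.5 * k := by
        constructor
        · have h1 := Nat.lt_floor_add_one ((k : ℝ) * (1 / 2 - d))
          exact by
            rw [he]; unfold Pool.Agent.M20.Helper46.KSZ.ee
            (clear * - h1 hd; nlinarith)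
        · have h1 := Nat.floor_le (show 0 ≤ (k : ℝ) * (1 / 2 - d) by (clear * - hd0 hd hkr; nlinarith))
          rw [he]; unfold Pool.Agent.M20.Helper46.KSZ.ee
          (clear * - h1 hd0; nlinarith)
      set X : ℝ := (2 : ℝ) ^ k with hX
      have hX0 : 0 < X := by positivity
      set y : ℕ := 2 ^ k + j * 2 ^ e with hy
      have hyH : y + 2 ^ e ≤ 2 ^ (k + 1) := by
        have h1 : (j + 1) * 2 ^ e ≤ 2 ^ (k - e) * 2 ^ e := Nat.mul_le_mul_right _ hj
        rw [← pow_add, Nat.sub_add_cancel he3] at h1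
        rw [hy, pow_succ]
        (clear * - h1; nlinarith)
      exact by
        have hlamdef : lamk p d k = (2 : ℝ) ^ e / (8 * p * X) := rfl
        have hlam0 : 0 < lamk p d k := by rw [hlamdef]; (clear * - hp; positivity)
        have hu : uu d k j = Real.log ((y : ℝ) + ((2 ^ e : ℕ) : ℝ) / 2) := by
          unfold uu
          rw [hy, he]
          push_cast
          ring_nf
        have hHX1 : (p : ℝ) * lamk p d k * (4 * X) ≤ ((2 ^ e : ℕ) : ℝ) := by
          rw [hlamdef]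
          push_cast
          have : (p : ℝ) * (2 ^ e / (8 * p * X)) * (4 * X) = 2 ^ e / 2 := by
            field_simp; ring
          rw [this]
          have : (0 : ℝ) < 2 ^ e := by positivity
          (clear * - this; linarith)
        have hyX : X ≤ y := by
          rw [hy, hX]; push_cast; have : (0 : ℝ) ≤ (j : ℝ) * 2 ^ e := by (clear * -; positivity)
          (clear * - this; linarith)
        have hyX2 : (y : ℝ) + ((2 ^ e : ℕ) : ℝ) ≤ 2 * X := by
          rw [hX]; have : ((y + 2 ^ e : ℕ) : ℝ) ≤ ((2 ^ (k + 1) : ℕ) : ℝ) := by exact_mod_cast hyH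
          push_cast at this ⊢
          rw [pow_succ] at this
          (clear * - this; linarith)
        exact by
          have h1 : ∑ m ∈ PM k, (∑' n : ℕ, ArithmeticFunction.vonMangoldt n *
              ker (lamk p d k) (p - 1) (uu d k j - Real.log m - Real.log n)) ≤
              ∑ m ∈ PM k, 1 / lamk p d k * ∑ n ∈ cof k y (2 ^ e) m, Λ n := by
            apply sum_le_sum
            intro m hm
            rw [hu]
            exact ker_sum_le2 h8 hp k y (2 ^ e) m (mem_PM hm).2.2.pos hlam0 hX0 hHX1 hyX hyX2 hyH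
          refine h1.trans ?_
          rw [← mul_sum]
          set r : ℕ := (k + 2 - KS.em k) / 2 with hr
          have hemk : KS.em k ≤ k := by
            have : (KS.em k : ℝ) ≤ k := by (clear * - hd0 hd hkr hem; linarith [hem.2])
            exact_mod_cast this
          have hr1 : k + 1 ≤ KS.em k + 2 * r := by omega
          have hr2 : (r : ℝ) ≤ 0.2525 * k + 2 := by
            have h2 : 2 * r ≤ k + 2 - KS.em k := by omega
            have h3 : 2 * r + KS.em k ≤ k + 2 := by omega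
            have h4 : 2 * (r : ℝ) + KS.em k ≤ k + 2 := by exact_mod_cast h3
            (clear * - hd0 hd hem h4; linarith [hem.1])
          have hHn : ∀ n m : ℕ, m ∈ PM k → y ≤ m * n → 2 ^ e ≤ n := by
            intro n m hm hmn
            obtain ⟨a1, a2, a3⟩ := mem_PM hm
            by_contra hcon
            push Not at hcon
            have h2 : m * n ≤ 2 * 2 ^ KS.em k * 2 ^ e := Nat.mul_le_mul a2 hcon.le
            have h3 : 2 * 2 ^ KS.em k * 2 ^ e < 2 ^ k := by
              rw [mul_comm 2, ← pow_succ, ← pow_add]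
              apply Nat.pow_lt_pow_right (by norm_num)
              have : ((KS.em k + 1 + e : ℕ) : ℝ) < k := by
                push_cast
                (clear * - hd0 hd hkr hem heR; linarith [hem.2, heR.2])
              exact_mod_cast this
            omega
          exact by
            have h2 := cof_sum k y (2 ^ e) (2 ^ KS.em k) r Nat.one_le_two_pow (PM k) (fun m hm => (mem_PM hm).1) hHn hyH (by
              rw [← pow_add]; exact Nat.pow_le_pow_right (by norm_num) hr1)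
            have hfew' : (((PM k ×ˢ range (2 ^ (k + 1))).filter (fun p => p.2.Prime ∧ y ≤ p.1 * p.2 ∧
                p.1 * p.2 < y + 2 ^ e)).card : ℝ) ≤ cS / (200 * p) * 2 ^ e / (k : ℝ) ^ 2 := by
              have e1 : ((PM k ×ˢ range (2 ^ (k + 1))).filter (fun p => p.2.Prime ∧ y ≤ p.1 * p.2 ∧
                p.1 * p.2 < y + 2 ^ e)).card = nE2 k e j := by
                unfold nE2
                congr 1
                apply filter_congr
                intro q _
                have : y + 2 ^ e = 2 ^ k + (j + 1) * 2 ^ e := by rw [hy]; ring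
                rw [this, hy]
              rw [e1]
              exact hfew.le
            have h3 : 1 / lamk p d k * ∑ m ∈ PM k, ∑ n ∈ cof k y (2 ^ e) m, Λ n ≤
                1 / lamk p d k * (((k + 1) * Real.log 2) * (cS / (200 * p) * 2 ^ e / (k : ℝ) ^ 2 +
                  ((2:ℝ) ^ r + 1) * (k + 1))) := by
              apply mul_le_mul_of_nonneg_left _ (by positivity)
              refine h2.trans ?_
              apply mul_le_mul_of_nonneg_left _ (by positivity)
              (clear * - hfew'; linarith)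
            refine h3.trans ?_
            -- numerical part
            have hr3 : ((2:ℝ) ^ r + 1) ≤ 8 * (2:ℝ) ^ ((0.26:ℝ) * k) := by
              have h4 : (2:ℝ) ^ r ≤ 4 * (2:ℝ) ^ ((0.26:ℝ) * k) := by
                rw [← Real.rpow_natCast, show (4:ℝ) = 2 ^ (2:ℝ) by norm_num, ← Real.rpow_add (by norm_num)]
                apply Real.rpow_le_rpow_of_exponent_le (by norm_num)
                (clear * - hd0 hd hkr hr2; linarith)
              have h5 : 1 ≤ (2:ℝ) ^ ((0.26:ℝ) * k) := Real.one_le_rpow (by norm_num) (by positivity)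
              (clear * - hd0 hd h4 h5; linarith)
            have he5 : (2:ℝ) ^ ((0.48:ℝ) * k) ≤ 2 ^ e := by
              rw [← Real.rpow_natCast 2 e]
              apply Real.rpow_le_rpow_of_exponent_le (by norm_num)
              (clear * - hd0 hd hkr heR; linarith [heR.1])
            set H : ℝ := (2:ℝ) ^ e with hH
            have hH0 : 0 < H := by positivity
            have hk1 : (k:ℝ) + 1 ≤ 1.001 * k := by (clear * - hkr; linarith)
            have hlog2 := Real.log_two_lt_d9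
            have hlog0 : 0 < Real.log 2 := Real.log_pos (by norm_num)
            exact by
              have hkl : ((k:ℝ) + 1) * Real.log 2 ≤ 0.7 * k := by
                calc ((k:ℝ) + 1) * Real.log 2 ≤ (1.001 * k) * 0.6932 := by
                      apply mul_le_mul hk1 (by (clear * - hd0 hd hlog2; linarith)) hlog0.le (by positivity)
                  _ ≤ 0.7 * k := by (clear * - hd0 hd hkr; linarith)
              have hsec : ((2:ℝ) ^ r + 1) * (k + 1) ≤ cS / (1000 * p) * H / (k:ℝ) ^ 2 := by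
                rw [le_div_iff₀ (by positivity)]
                calc ((2:ℝ) ^ r + 1) * (k + 1) * (k:ℝ) ^ 2 ≤ (8 * (2:ℝ) ^ ((0.26:ℝ) * k)) * (1.001 * k) * (k:ℝ) ^ 2 := by
                      (clear * - hr3 hk1 hk1000; gcongr)
                  _ ≤ cS / (1000 * p) * ((10000 * p / cS) * (k : ℝ) ^ 4 * (2:ℝ) ^ ((0.26:ℝ) * k)) := by
                      have e5 : cS / (1000 * p) * ((10000 * p / cS) * (k : ℝ) ^ 4 * (2:ℝ) ^ ((0.26:ℝ) * k)) =
                        10 * (k : ℝ) ^ 4 * (2:ℝ) ^ ((0.26:ℝ) * k) := by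
                        field_simp; norm_num
                      rw [e5]
                      have h6 : (0:ℝ) < (2:ℝ) ^ ((0.26:ℝ) * k) := by positivity
                      have h7 : 8 * (1.001 * (k:ℝ)) * (k:ℝ) ^ 2 ≤ 10 * (k : ℝ) ^ 4 := by
                        have : (k:ℝ) ^ 3 ≤ (k:ℝ) ^ 4 := pow_le_pow_right₀ (by (clear * - hd0 hd hkr; linarith)) (by norm_num)
                        (clear * - this; nlinarith)
                      calc _ = (8 * (1.001 * (k:ℝ)) * (k:ℝ) ^ 2) * (2:ℝ) ^ ((0.26:ℝ) * k) := by ring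
                        _ ≤ _ := by (clear * - h7; gcongr)
                  _ ≤ cS / (1000 * p) * H := by
                      gcongr
                      exact hbig.trans he5
              rw [hlamdef]
              calc 1 / (H / (8 * p * X)) * (((k + 1) * Real.log 2) * (cS / (200 * p) * H / (k : ℝ) ^ 2 +
                    ((2:ℝ) ^ r + 1) * (k + 1))) ≤
                  1 / (H / (8 * p * X)) * ((0.7 * k) * (cS / (200 * p) * H / (k : ℝ) ^ 2 +
                    cS / (1000 * p) * H / (k:ℝ) ^ 2)) := by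
                    (clear * - hkl hsec hcS hp hk1000; gcongr)
                _ = (8 * 0.7 * 0.006) * X * (cS / k) := by
                    field_simp
                    norm_num
                _ ≤ 1 / 8 * X * (cS / k) := by
                    gcongr
                    norm_num
                _ ≤ 1 / 8 * X * S1 k := by
                    (clear * - hSk; gcongr)

end Pool.Agent.M20.Helper60.KE
end
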