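import Mathlib
import Pool.Agent.Helper53.KO.G02
import Pool.Agent.Helper53.KO.G07
import Pool.Agent.Helper53.KO.G10
import Pool.Agent.Helper53.KO.G13
import Pool.Agent.Helper53.KO.G15
import Pool.Agent.Helper53.KO.G16
import Pool.Agent.Helper53.KO.G17
import Pool.Agent.Helper53.KO.G19
import Pool.Agent.Helper53.KO.G20

set_option linter.all false

/- Helper53.KN.Helper61.KS.Collision -/
section
/-! Collision lemma (design D4 of the KS project, elementary core).

* `card_le_of_separated`: separated reals in an interval.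
* `fracCount`: pairs of distinct primes with quotient in a short interval.
* `collision`: few cells have many primes `r` with a poor window inside `J/r`.
* `regular`: in every block almost all primes are regular. -/

set_option autoImplicit false
open scoped Classical

namespace Pool.Agent.M20.Helper61.KS

/-- points of an interval of length `L` with mutual distances at least `δ` -/
theorem card_le_of_separated {ι : Type*} (S : Finset ι) (g : ι → ℝ) {a L δ : ℝ} (hδ : 0 < δ) (hL : 0 ≤ L)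
    (hmem : ∀ i ∈ S, a ≤ g i ∧ g i ≤ a + L)
    (hsep : ∀ i ∈ S, ∀ j ∈ S, i ≠ j → δ ≤ |g i - g j|) :
    (S.card : ℝ) ≤ 1 + L / δ := by
  have hinj : Set.InjOn (fun i => ⌊(g i - a) / δ⌋₊) (S : Set ι) := by
    intro i hi j hj hij
    by_contra hne
    have h1 := hsep i hi j hj hne
    have hi0 : 0 ≤ (g i - a) / δ := div_nonneg (by (clear * - hmem hi; linarith [(hmem i hi).1])) hδ.le
    have hj0 : 0 ≤ (g j - a) / δ := div_nonneg (by (clear * - hmem hj; linarith [(hmem j hj).1])) hδ.le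
    have h2 := Nat.floor_le hi0
    have h3 := Nat.lt_floor_add_one ((g i - a) / δ)
    have h4 := Nat.floor_le hj0
    have h5 := Nat.lt_floor_add_one ((g j - a) / δ)
    simp only at hij
    rw [hij] at h2 h3
    have h6 : |(g i - a) / δ - (g j - a) / δ| < 1 := by
      rw [abs_lt]; constructor <;> (clear * - h2 h5 h3 h4; linarith)
    have h7 : (g i - a) / δ - (g j - a) / δ = (g i - g j) / δ := by ring
    rw [h7, abs_div, abs_of_pos hδ, div_lt_one hδ] at h6
    (clear * - h1 h6; linarith)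
  have hmaps : ∀ i ∈ S, ⌊(g i - a) / δ⌋₊ ∈ Finset.range (⌊L / δ⌋₊ + 1) := by
    intro i hi
    rw [Finset.mem_range, Nat.lt_succ_iff]
    apply Nat.floor_le_floor
    apply div_le_div_of_nonneg_right _ hδ.le
    linarith [(hmem i hi).2]
  have hc := Finset.card_le_card_of_injOn _ hmaps hinj
  rw [Finset.card_range] at hc
  have h8 := Nat.floor_le (div_nonneg hL hδ.le)
  calc (S.card : ℝ) ≤ ((⌊L / δ⌋₊ + 1 : ℕ) : ℝ) := by exact_mod_cast hc
    _ = ⌊L / δ⌋₊ + 1 := by push_cast; ring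
    _ ≤ 1 + L / δ := by linarith

/-- pairs of distinct primes `r, r'` of `[Q, 2Q]` with `|r/r' - z| ≤ η` -/
theorem fracCount {Q : ℝ} (hQ : 1 ≤ Q) (R : Finset ℕ) (hR : ∀ r ∈ R, r.Prime ∧ Q ≤ r ∧ (r : ℝ) ≤ 2 * Q)
    (z η : ℝ) (hη : 0 ≤ η) :
    (((R ×ˢ R).filter (fun p => p.1 ≠ p.2 ∧ |(p.1 : ℝ) / p.2 - z| ≤ η)).card : ℝ) ≤ 1 + 8 * η * Q ^ 2 := by
  have key := card_le_of_separated ((R ×ˢ R).filter (fun p => p.1 ≠ p.2 ∧ |(p.1 : ℝ) / p.2 - z| ≤ η))
    (fun p => (p.1 : ℝ) / p.2) (a := z - η) (L := 2 * η) (δ := 1 / (4 * Q ^ 2)) (by (clear * - hQ; positivity)) (by linarith)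
    (by
      intro p hp
      rw [Finset.mem_filter] at hp
      have := hp.2.2
      rw [abs_le] at this
      constructor <;> linarith)
    (by
      intro p hp q hq hne
      rw [Finset.mem_filter, Finset.mem_product] at hp hq
      obtain ⟨⟨hp1, hp2⟩, hp3, -⟩ := hp
      obtain ⟨⟨hq1, hq2⟩, hq3, -⟩ := hq
      obtain ⟨pp1, pa1, pb1⟩ := hR _ hp1
      obtain ⟨pp2, pa2, pb2⟩ := hR _ hp2
      obtain ⟨qp1, qa1, qb1⟩ := hR _ hq1
      obtain ⟨qp2, qa2, qb2⟩ := hR _ hq2
      have h2pos : (0 : ℝ) < p.2 := by linarith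
      have hq2pos : (0 : ℝ) < q.2 := by (clear * - hQ qa2; linarith)
      have hcross : (p.1 : ℤ) * q.2 - q.1 * p.2 ≠ 0 := by
        intro h0
        have h1 : p.1 * q.2 = q.1 * p.2 := by
          have : (p.1 : ℤ) * q.2 = q.1 * p.2 := by (clear * - h0; linarith)
          exact_mod_cast this
        have h2 : p.1 ∣ q.1 * p.2 := Dvd.intro _ h1
        rcases (Nat.Prime.dvd_mul pp1).1 h2 with h3 | h3
        · have h4 : p.1 = q.1 := (Nat.prime_dvd_prime_iff_eq pp1 qp1).1 h3
          have h5 : q.2 = p.2 := by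
            rw [h4] at h1
            exact Nat.eq_of_mul_eq_mul_left qp1.pos h1
          exact hne (Prod.ext h4 h5.symm)
        · exact hp3 ((Nat.prime_dvd_prime_iff_eq pp1 pp2).1 h3)
      have hcross' : (1 : ℝ) ≤ |(p.1 : ℝ) * q.2 - q.1 * p.2| := by
        have : (1 : ℤ) ≤ |(p.1 : ℤ) * q.2 - q.1 * p.2| := Int.one_le_abs hcross
        have h' : ((1 : ℤ) : ℝ) ≤ ((|(p.1 : ℤ) * q.2 - q.1 * p.2| : ℤ) : ℝ) := by exact_mod_cast this
        push_cast at h'
        exact h'
      have heq : (p.1 : ℝ) / p.2 - (q.1 : ℝ) / q.2 = ((p.1 : ℝ) * q.2 - q.1 * p.2) / (p.2 * q.2) := by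
        (clear * - hq2pos h2pos; field_simp)
      rw [heq, abs_div, abs_of_pos (mul_pos h2pos hq2pos), div_le_div_iff₀ (by positivity) (mul_pos h2pos hq2pos)]
      have h9 : (p.2 : ℝ) * q.2 ≤ (2 * Q) * (2 * Q) := by
        apply mul_le_mul pb2 qb2 hq2pos.le (by linarith)
      (clear * - h9 hcross'; nlinarith [sq_nonneg Q]))
  refine key.trans (le_of_eq ?_)
  field_simp
  ring

/-- Cauchy-Schwarz for the fibres of a map -/
theorem sq_card_le {α β : Type*} [DecidableEq β] (A : Finset α) (P : Finset β) (φ : α → β) (h : ∀ a ∈ A, φ a ∈ P) :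
    (A.card : ℝ) ^ 2 ≤ P.card * (((A ×ˢ A).filter (fun p => φ p.1 = φ p.2)).card : ℝ) := by
  have h1 : A.card = ∑ b ∈ P, (A.filter (fun a => φ a = b)).card := Finset.card_eq_sum_card_fiberwise h
  have h2 : ((A ×ˢ A).filter (fun p => φ p.1 = φ p.2)).card = ∑ b ∈ P, (A.filter (fun a => φ a = b)).card ^ 2 := by
    have h3 : ∀ p ∈ (A ×ˢ A).filter (fun p => φ p.1 = φ p.2), φ p.1 ∈ P := by
      intro p hp
      rw [Finset.mem_filter, Finset.mem_product] at hp
      exact h _ hp.1.1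
    rw [Finset.card_eq_sum_card_fiberwise h3]
    refine Finset.sum_congr rfl (fun b _ => ?_)
    rw [sq, ← Finset.card_product]
    congr 1
    ext p
    simp only [Finset.mem_filter, Finset.mem_product]
    constructor
    · rintro ⟨⟨⟨h4, h5⟩, h6⟩, h7⟩
      exact ⟨⟨h4, h7⟩, ⟨h5, by rw [← h6, h7]⟩⟩
    · rintro ⟨⟨h4, h7⟩, ⟨h5, h8⟩⟩
      exact ⟨⟨⟨h4, h5⟩, by rw [h7, h8]⟩, h7⟩
  rw [h1, h2]
  push_cast
  have := sq_sum_le_card_mul_sum_sq (s := P) (f := fun b => ((A.filter (fun a => φ a = b)).card : ℝ))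
  exact this

/-- THE COLLISION LEMMA. `Js` cells with left end points `x i`, `B i` the set of primes `r` such that a poor window
meets `J/r`, `φ i r` such a window. -/
theorem collision {ι β : Type*} [DecidableEq ι] [DecidableEq β] (Js : Finset ι) (x : ι → ℝ) (R : Finset ℕ) (B : ι → Finset ℕ)
    (P : Finset β) (φ : ι → ℕ → β) {X lam Q ρ π0 : ℝ} (hX : 0 < X) (hlam : 0 < lam) (hQ : 1 ≤ Q) (hρ : 0 ≤ ρ) (hπ : 0 < π0)
    (hR : ∀ r ∈ R, r.Prime ∧ Q ≤ r ∧ (r : ℝ) ≤ 2 * Q) (hB : ∀ i ∈ Js, B i ⊆ R)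
    (hx : ∀ i ∈ Js, X ≤ x i) (hsep : ∀ i ∈ Js, ∀ j ∈ Js, i ≠ j → lam ≤ |x i - x j|)
    (hP : ∀ i ∈ Js, ∀ r ∈ B i, φ i r ∈ P)
    (hclose : ∀ i ∈ Js, ∀ j ∈ Js, ∀ r ∈ B i, ∀ r' ∈ B j, φ i r = φ j r' → |x i / r - x j / r'| ≤ ρ)
    (hcard : ∀ i ∈ Js, π0 ≤ ((B i).card : ℝ))
    (hcond : (P.card : ℝ) * (1 + 16 * ρ * Q ^ 3 / X) ≤ π0 ^ 2 / 2) :
    (Js.card : ℝ) * π0 ≤ 2 * P.card * (1 + 4 * ρ * Q / lam) := by
  set A : Finset (ι × ℕ) := (Js ×ˢ R).filter (fun p => p.2 ∈ B p.1) with hA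
  have memA : ∀ a ∈ A, a.1 ∈ Js ∧ a.2 ∈ B a.1 := by
    intro a ha
    rw [hA, Finset.mem_filter, Finset.mem_product] at ha
    exact ⟨ha.1.1, ha.2⟩
  set ψ : ι × ℕ → β := fun a => φ a.1 a.2 with hψ
  have hCS := sq_card_le A P ψ (fun a ha => hP _ (memA a ha).1 _ (memA a ha).2)
  -- number of pairs
  have hAcard : (Js.card : ℝ) * π0 ≤ A.card := by
    have h1 : A.card = ∑ i ∈ Js, (A.filter (fun a => a.1 = i)).card :=
      Finset.card_eq_sum_card_fiberwise (fun a ha => (memA a ha).1)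
    have h2 : ∀ i ∈ Js, π0 ≤ ((A.filter (fun a => a.1 = i)).card : ℝ) := by
      intro i hi
      refine (hcard i hi).trans ?_
      have : (B i).card ≤ (A.filter (fun a => a.1 = i)).card := by
        apply Finset.card_le_card_of_injOn (fun r => (i, r))
        · intro r hr
          have hr' : r ∈ B i := hr
          simp only [Finset.coe_filter, Set.mem_ofPred_eq, hA, Finset.mem_filter, Finset.mem_product]
          exact ⟨⟨⟨hi, hB i hi hr'⟩, hr'⟩, trivial⟩
        · intro r _ r' _ h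
          exact (Prod.ext_iff.1 h).2
      exact_mod_cast this
    rw [h1]
    push_cast
    calc (Js.card : ℝ) * π0 = ∑ i ∈ Js, π0 := by rw [Finset.sum_const, nsmul_eq_mul]
      _ ≤ _ := Finset.sum_le_sum h2
  -- split the collisions
  set C := (A ×ˢ A).filter (fun p => ψ p.1 = ψ p.2) with hC
  have hsplit : C.card = (C.filter (fun p => p.1.2 = p.2.2)).card + (C.filter (fun p => ¬ p.1.2 = p.2.2)).card :=
    (Finset.card_filter_add_card_filter_not _).symm
  have memC : ∀ p ∈ C, p.1 ∈ A ∧ p.2 ∈ A ∧ ψ p.1 = ψ p.2 := by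
    intro p hp
    rw [hC, Finset.mem_filter, Finset.mem_product] at hp
    exact ⟨hp.1.1, hp.1.2, hp.2⟩
  have hrpos : ∀ i ∈ Js, ∀ r ∈ B i, (0 : ℝ) < r ∧ (r : ℝ) ≤ 2 * Q := by
    intro i hi r hr
    obtain ⟨_, h2, h3⟩ := hR r (hB i hi hr)
    exact ⟨by (clear * - hQ h2; linarith), h3⟩
  have hC1 : ((C.filter (fun p => p.1.2 = p.2.2)).card : ℝ) ≤ A.card * (1 + 4 * ρ * Q / lam) := by
    have h1 : (C.filter (fun p => p.1.2 = p.2.2)).card
        = ∑ a ∈ A, ((C.filter (fun p => p.1.2 = p.2.2)).filter (fun p => p.1 = a)).card :=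
      Finset.card_eq_sum_card_fiberwise (fun p hp => (memC p (Finset.mem_filter.1 hp).1).1)
    rw [h1]
    push_cast
    have h2 : ∀ a ∈ A, (((C.filter (fun p => p.1.2 = p.2.2)).filter (fun p => p.1 = a)).card : ℝ) ≤ 1 + 4 * ρ * Q / lam := by
      intro a ha
      obtain ⟨ha1, ha2⟩ := memA a ha
      have h3 := card_le_of_separated (((C.filter (fun p => p.1.2 = p.2.2)).filter (fun p => p.1 = a)))
        (fun p => x p.2.1) (a := x a.1 - 2 * ρ * Q) (L := 4 * ρ * Q) (δ := lam) hlam (by (clear * - hρ hQ; positivity))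
        (by
          intro p hp
          rw [Finset.mem_filter, Finset.mem_filter] at hp
          obtain ⟨⟨hpC, hp2⟩, rfl⟩ := hp
          obtain ⟨m1, m2, m3⟩ := memC p hpC
          obtain ⟨n1, n2⟩ := memA _ m1
          obtain ⟨o1, o2⟩ := memA _ m2
          have h4 := hclose _ n1 _ o1 _ n2 _ o2 m3
          obtain ⟨q1, q2⟩ := hrpos _ n1 _ n2
          rw [← hp2, ← sub_div, abs_div, abs_of_pos q1, div_le_iff₀ q1] at h4
          have h5 : |x p.1.1 - x p.2.1| ≤ 2 * ρ * Q := by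
            refine h4.trans ?_
            (clear * - hρ q2; nlinarith)
          rw [abs_le] at h5
          constructor <;> (clear * - h5; linarith))
        (by
          intro p hp q hq hne
          rw [Finset.mem_filter, Finset.mem_filter] at hp hq
          obtain ⟨⟨hpC, hp2⟩, hpa⟩ := hp
          obtain ⟨⟨hqC, hq2⟩, hqa⟩ := hq
          obtain ⟨m1, m2, m3⟩ := memC p hpC
          obtain ⟨n1, n2, n3⟩ := memC q hqC
          have : p.2.1 ≠ q.2.1 := by
            intro h6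
            apply hne
            refine Prod.ext (hpa.trans hqa.symm) (Prod.ext h6 ?_)
            rw [← hp2, ← hq2, hpa, hqa]
          exact hsep _ (memA _ m2).1 _ (memA _ n2).1 this)
      exact h3
    calc (∑ a ∈ A, (((C.filter (fun p => p.1.2 = p.2.2)).filter (fun p => p.1 = a)).card : ℝ))
        ≤ ∑ a ∈ A, (1 + 4 * ρ * Q / lam) := Finset.sum_le_sum h2
      _ = _ := by rw [Finset.sum_const, nsmul_eq_mul]
  have hC2 : ((C.filter (fun p => ¬ p.1.2 = p.2.2)).card : ℝ) ≤ (Js.card : ℝ) ^ 2 * (1 + 16 * ρ * Q ^ 3 / X) := by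
    set C2 := C.filter (fun p => ¬ p.1.2 = p.2.2) with hC2def
    have h1 : C2.card = ∑ ij ∈ Js ×ˢ Js, (C2.filter (fun p => (p.1.1, p.2.1) = ij)).card := by
      apply Finset.card_eq_sum_card_fiberwise
      intro p hp
      obtain ⟨m1, m2, m3⟩ := memC p (Finset.mem_filter.1 hp).1
      exact Finset.mem_coe.2 (Finset.mem_product.2 ⟨(memA _ m1).1, (memA _ m2).1⟩)
    rw [h1]
    push_cast
    have h2 : ∀ ij ∈ Js ×ˢ Js, ((C2.filter (fun p => (p.1.1, p.2.1) = ij)).card : ℝ) ≤ 1 + 16 * ρ * Q ^ 3 / X := by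
      intro ij hij
      rw [Finset.mem_product] at hij
      have hxj : X ≤ x ij.2 := hx _ hij.2
      have hxj0 : 0 < x ij.2 := by (clear * - hX hxj; linarith)
      have h3 := fracCount hQ R hR (x ij.1 / x ij.2) (2 * ρ * Q / X) (by positivity)
      have h4 : (C2.filter (fun p => (p.1.1, p.2.1) = ij)).card
          ≤ ((R ×ˢ R).filter (fun p => p.1 ≠ p.2 ∧ |(p.1 : ℝ) / p.2 - x ij.1 / x ij.2| ≤ 2 * ρ * Q / X)).card := by
        apply Finset.card_le_card_of_injOn (fun p => (p.1.2, p.2.2))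
        · intro p hp
          have hp' : p ∈ C2.filter (fun p => (p.1.1, p.2.1) = ij) := hp
          rw [Finset.mem_filter] at hp'
          obtain ⟨hpC2, hpij⟩ := hp'
          rw [hC2def, Finset.mem_filter] at hpC2
          obtain ⟨hpC, hpne⟩ := hpC2
          obtain ⟨m1, m2, m3⟩ := memC p hpC
          obtain ⟨n1, n2⟩ := memA _ m1
          obtain ⟨o1, o2⟩ := memA _ m2
          have h5 := hclose _ n1 _ o1 _ n2 _ o2 m3
          have e1 : p.1.1 = ij.1 := by rw [← hpij]
          have e2 : p.2.1 = ij.2 := by rw [← hpij]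
          obtain ⟨q1, q2⟩ := hrpos _ n1 _ n2
          obtain ⟨r1, r2⟩ := hrpos _ o1 _ o2
          rw [e1, e2] at h5
          refine Finset.mem_coe.2 (Finset.mem_filter.2 ⟨Finset.mem_product.2 ⟨hB _ n1 n2, hB _ o1 o2⟩, hpne, ?_⟩)
          have h6 : (p.1.2 : ℝ) / p.2.2 - x ij.1 / x ij.2
              = -((x ij.1 / p.1.2 - x ij.2 / p.2.2) * (p.1.2 / x ij.2)) := by
            field_simp
            ring
          rw [h6, abs_neg, abs_mul, abs_of_pos (div_pos q1 hxj0)]
          calc |x ij.1 / p.1.2 - x ij.2 / p.2.2| * (p.1.2 / x ij.2) ≤ ρ * (2 * Q / X) := by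
                apply mul_le_mul h5 _ (div_pos q1 hxj0).le hρ
                exact div_le_div₀ (by (clear * - hQ; linarith)) q2 hX hxj
            _ = 2 * ρ * Q / X := by ring
        · intro p hp q hq hpq
          have hp' : p ∈ C2.filter (fun p => (p.1.1, p.2.1) = ij) := hp
          have hq' : q ∈ C2.filter (fun p => (p.1.1, p.2.1) = ij) := hq
          rw [Finset.mem_filter] at hp' hq'
          have h7 := hp'.2.trans hq'.2.symm
          simp only [Prod.mk.injEq] at h7 hpq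
          exact Prod.ext (Prod.ext h7.1 hpq.1) (Prod.ext h7.2 hpq.2)
      have h5 : ((C2.filter (fun p => (p.1.1, p.2.1) = ij)).card : ℝ) ≤ 1 + 8 * (2 * ρ * Q / X) * Q ^ 2 :=
        le_trans (by exact_mod_cast h4) h3
      refine h5.trans (le_of_eq ?_)
      ring
    calc (∑ ij ∈ Js ×ˢ Js, ((C2.filter (fun p => (p.1.1, p.2.1) = ij)).card : ℝ))
        ≤ ∑ ij ∈ Js ×ˢ Js, (1 + 16 * ρ * Q ^ 3 / X) := Finset.sum_le_sum h2
      _ = _ := by
        rw [Finset.sum_const, nsmul_eq_mul, Finset.card_product]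
        push_cast
        ring
  -- conclusion
  have hN : (A.card : ℝ) ^ 2 ≤ P.card * (A.card * (1 + 4 * ρ * Q / lam) + (Js.card : ℝ) ^ 2 * (1 + 16 * ρ * Q ^ 3 / X)) := by
    refine hCS.trans ?_
    apply mul_le_mul_of_nonneg_left _ (Nat.cast_nonneg _)
    have : ((C.card : ℕ) : ℝ) = ((C.filter (fun p => p.1.2 = p.2.2)).card : ℝ) + ((C.filter (fun p => ¬ p.1.2 = p.2.2)).card : ℝ) := by
      rw [hsplit]; push_cast; ring
    rw [this]
    (clear * - hC1 hC2; linarith)
  have hM2 : (P.card : ℝ) * ((Js.card : ℝ) ^ 2 * (1 + 16 * ρ * Q ^ 3 / X)) ≤ (A.card : ℝ) ^ 2 / 2 := by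
    calc (P.card : ℝ) * ((Js.card : ℝ) ^ 2 * (1 + 16 * ρ * Q ^ 3 / X))
        = (Js.card : ℝ) ^ 2 * (P.card * (1 + 16 * ρ * Q ^ 3 / X)) := by ring
      _ ≤ (Js.card : ℝ) ^ 2 * (π0 ^ 2 / 2) := mul_le_mul_of_nonneg_left hcond (sq_nonneg _)
      _ = ((Js.card : ℝ) * π0) ^ 2 / 2 := by ring
      _ ≤ (A.card : ℝ) ^ 2 / 2 := by
        apply div_le_div_of_nonneg_right _ (by norm_num)
        exact pow_le_pow_left₀ (by (clear * - hπ; positivity)) hAcard 2
  rcases eq_or_lt_of_le (Nat.cast_nonneg (α := ℝ) A.card) with h0 | h0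
  · rw [← h0] at hAcard
    have : (0 : ℝ) ≤ 2 * P.card * (1 + 4 * ρ * Q / lam) := by (clear * - hρ hQ hlam; positivity)
    (clear * - hAcard this; linarith)
  · refine hAcard.trans ?_
    have h1 : (A.card : ℝ) * A.card ≤ A.card * (2 * P.card * (1 + 4 * ρ * Q / lam)) := by (clear * - hN hM2; nlinarith)
    exact le_of_mul_le_mul_left h1 h0

end Pool.Agent.M20.Helper61.KS
end

/- Helper53.KN.Helper29.KD.Coll -/
section
/-! Project KS, design D5: class 3.  Cells without numbers `q m`, `m` prime of size `X^b`, from the poor windows at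
level `X^(1-b)` (collision lemma). -/

set_option autoImplicit false
open Filter Topology
open scoped Classical

namespace Pool.Agent.M20.Helper29.KD

open Pool.Agent.M20.Helper60.KS (ec ecw npr CountW)

/-- primes in `(2^m, 2·2^m]` -/
noncomputable def PMx (m : ℕ) : Finset ℕ := (Finset.Ioc (2 ^ m) (2 * 2 ^ m)).filter Nat.Prime

/-- number of pairs `(m, q)`, `q` prime, `m ∈ PMx μ`, `m q` in the `j`-th cell of length `2^e` of `[2^k, 2^(k+1))` -/
noncomputable def nEx (μ k e j : ℕ) : ℕ :=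
  ((PMx μ ×ˢ Finset.range (2 ^ (k + 1))).filter (fun p => p.2.Prime ∧ 2 ^ k + j * 2 ^ e ≤ p.1 * p.2 ∧
    p.1 * p.2 < 2 ^ k + (j + 1) * 2 ^ e)).card

/-- at most `2^(U k)` cells of length `2^⌊k(1/2-d)⌋` contain fewer than `c0 2^e / k^2` numbers `q m`, `m` prime in
`(2^(em k), 2·2^(em k)]` -/
def CountEx (em : ℕ → ℕ) (U : ℝ) : Prop := ∃ d0 : ℝ, 0 < d0 ∧ ∀ d : ℝ, 0 < d → d ≤ d0 → ∃ c0 : ℝ, 0 < c0 ∧
  ∃ K : ℕ, ∀ k : ℕ, K ≤ k → (((Finset.range (2 ^ (k - ec d k))).filter (fun j =>
    (nEx (em k) k (ec d k) j : ℝ) < c0 * 2 ^ ec d k / (k : ℝ) ^ 2)).card : ℝ) ≤ (2 : ℝ) ^ (U * (k : ℝ))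

/-! ### Chebyshev for dyadic intervals -/

theorem card_PMx : ∃ K : ℕ, ∀ μ : ℕ, K ≤ μ → (2 : ℝ) ^ μ / (2 * (μ + 1)) ≤ (PMx μ).card := by
  have h := Pool.Agent.M20.Helper79.PNT.theta_tendsto
  rw [Metric.tendsto_atTop] at h
  obtain ⟨N, hN⟩ := h (1/10) (by norm_num)
  obtain ⟨K, hK⟩ := exists_nat_ge N
  refine ⟨K + 1, fun μ hμ => ?_⟩
  have hpow : ∀ n : ℕ, (n : ℝ) ≤ (2 : ℝ) ^ n := fun n => by
    exact_mod_cast (Nat.lt_two_pow_self (n := n)).le
  have h1 : N ≤ (2 : ℝ) ^ μ := by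
    refine hK.trans (le_trans ?_ (hpow μ))
    have : K ≤ μ := by omega
    exact_mod_cast this
  have hM : (0 : ℝ) < (2 : ℝ) ^ μ := by positivity
  have a1 := hN _ h1
  have a2 := hN (2 * 2 ^ μ) (by (clear * - h1 hM; linarith))
  rw [Real.dist_eq, abs_lt] at a1 a2
  have b1 : Chebyshev.theta ((2 : ℝ) ^ μ) ≤ 1.1 * 2 ^ μ := by
    have := a1.2
    rw [sub_lt_iff_lt_add, div_lt_iff₀ hM] at this
    (clear * - this; linarith)
  have b2 : 0.9 * (2 * 2 ^ μ) ≤ Chebyshev.theta (2 * (2 : ℝ) ^ μ) := by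
    have := a2.1
    rw [lt_sub_iff_add_lt, lt_div_iff₀ (by positivity)] at this
    (clear * - this; linarith)
  -- difference of theta
  have hth : Chebyshev.theta (2 * (2 : ℝ) ^ μ) - Chebyshev.theta ((2 : ℝ) ^ μ) = ∑ p ∈ PMx μ, Real.log p := by
    have e1 : (2 * (2 : ℝ) ^ μ) = ((2 * 2 ^ μ : ℕ) : ℝ) := by push_cast; ring
    have e2 : ((2 : ℝ) ^ μ) = ((2 ^ μ : ℕ) : ℝ) := by push_cast; ring
    rw [e1, e2, Chebyshev.theta_eq_sum_Icc, Chebyshev.theta_eq_sum_Icc, Nat.floor_natCast, Nat.floor_natCast, PMx]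
    have hd : (Finset.Icc 0 (2 * 2 ^ μ)).filter Nat.Prime
        = ((Finset.Icc 0 (2 ^ μ)).filter Nat.Prime) ∪ ((Finset.Ioc (2 ^ μ) (2 * 2 ^ μ)).filter Nat.Prime) := by
      ext x
      simp only [Finset.mem_filter, Finset.mem_Icc, Finset.mem_union, Finset.mem_Ioc]
      constructor
      · rintro ⟨⟨h1, h2⟩, h3⟩
        rcases le_or_gt x (2 ^ μ) with h | h
        · exact Or.inl ⟨⟨h1, h⟩, h3⟩
        · exact Or.inr ⟨⟨h, h2⟩, h3⟩
      · rintro (⟨⟨h1, h2⟩, h3⟩ | ⟨⟨h1, h2⟩, h3⟩)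
        · exact ⟨⟨h1, by omega⟩, h3⟩
        · exact ⟨⟨by omega, h2⟩, h3⟩
    rw [hd, Finset.sum_union]
    · ring
    · rw [Finset.disjoint_left]
      intro x hx hx'
      simp only [Finset.mem_filter, Finset.mem_Icc, Finset.mem_Ioc] at hx hx'
      omega
  exact by
    have hle : ∑ p ∈ PMx μ, Real.log p ≤ ((PMx μ).card : ℝ) * (μ + 1) := by
      rw [← nsmul_eq_mul, ← Finset.sum_const]
      refine Finset.sum_le_sum (fun p hp => ?_)
      rw [PMx, Finset.mem_filter, Finset.mem_Ioc] at hp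
      have hp0 : (0 : ℝ) < p := by exact_mod_cast hp.2.pos
      have h2 : (p : ℝ) ≤ 2 ^ (μ + 1) := by
        rw [pow_succ]
        have := hp.1.2
        have : (p : ℝ) ≤ ((2 * 2 ^ μ : ℕ) : ℝ) := by exact_mod_cast this
        push_cast at this
        (clear * - this; linarith)
      calc Real.log p ≤ Real.log (2 ^ (μ + 1)) := Real.log_le_log hp0 h2
        _ = (μ + 1 : ℕ) * Real.log 2 := by rw [Real.log_pow]
        _ ≤ (μ + 1 : ℕ) * 1 := by
          apply mul_le_mul_of_nonneg_left _ (Nat.cast_nonneg _)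
          have := Real.log_two_lt_d9
          (clear * - this; linarith)
        _ = (μ : ℝ) + 1 := by push_cast; ring
    have : (0 : ℝ) < (μ : ℝ) + 1 := by (clear * -; positivity)
    rw [div_le_iff₀ (by (clear * -; positivity))]
    (clear * - hM b1 b2 hth hle; nlinarith)

/-! ### windows -/

/-- consecutive cells -/
theorem sum_npr (L e i0 n : ℕ) : ∑ i ∈ Finset.range n, npr L e (i0 + i)
    = ((Finset.Ico (2 ^ L + i0 * 2 ^ e) (2 ^ L + (i0 + n) * 2 ^ e)).filter Nat.Prime).card := by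
  induction n with
  | zero => simp
  | succ n ih =>
    rw [Finset.sum_range_succ, ih, npr]
    have hd : (Finset.Ico (2 ^ L + i0 * 2 ^ e) (2 ^ L + (i0 + (n + 1)) * 2 ^ e)).filter Nat.Prime
        = ((Finset.Ico (2 ^ L + i0 * 2 ^ e) (2 ^ L + (i0 + n) * 2 ^ e)).filter Nat.Prime) ∪
          ((Finset.Ico (2 ^ L + (i0 + n) * 2 ^ e) (2 ^ L + (i0 + n + 1) * 2 ^ e)).filter Nat.Prime) := by
      have e1 : 2 ^ L + i0 * 2 ^ e ≤ 2 ^ L + (i0 + n) * 2 ^ e :=
        Nat.add_le_add_left (Nat.mul_le_mul_right _ (Nat.le_add_right _ _)) _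
      have e2 : 2 ^ L + (i0 + n) * 2 ^ e ≤ 2 ^ L + (i0 + n + 1) * 2 ^ e :=
        Nat.add_le_add_left (Nat.mul_le_mul_right _ (Nat.le_add_right _ _)) _
      rw [← Finset.filter_union, Finset.Ico_union_Ico_eq_Ico e1 e2, add_assoc i0 n 1]
    rw [hd, Finset.card_union_of_disjoint]
    apply Finset.disjoint_filter_filter
    exact Finset.Ico_disjoint_Ico_consecutive _ _ _

/-- a window whose cells are all rich is rich -/
theorem window (L e' : ℕ) (v0 v1 c1 : ℝ) (hc1 : 0 ≤ c1) (hL : 0 < L) (h0 : (2 : ℝ) ^ L ≤ v0) (h1 : v1 ≤ 2 ^ (L + 1))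
    (hlen : 4 * (2 : ℝ) ^ e' ≤ v1 - v0) (he : e' ≤ L)
    (hrich : ∀ i : ℕ, i < 2 ^ (L - e') → v0 ≤ 2 ^ L + (i : ℝ) * 2 ^ e' → 2 ^ L + ((i : ℝ) + 1) * 2 ^ e' ≤ v1 →
      c1 * 2 ^ e' / L ≤ npr L e' i) :
    (v1 - v0) * c1 / (2 * L) ≤
      (((Finset.range (2 ^ (L + 1))).filter (fun q : ℕ => q.Prime ∧ v0 ≤ (q : ℝ) ∧ (q : ℝ) < v1)).card : ℝ) := by
  have ht : (0 : ℝ) < (2 : ℝ) ^ e' := by positivity
  have hL' : (0 : ℝ) < L := by exact_mod_cast hL
  set i0 := ⌈(v0 - 2 ^ L) / 2 ^ e'⌉₊ with hi0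
  set i1 := ⌊(v1 - 2 ^ L) / 2 ^ e'⌋₊ with hi1
  have hA0 : 0 ≤ (v0 - 2 ^ L) / (2 : ℝ) ^ e' := div_nonneg (by (clear * - h0; linarith)) ht.le
  have hA1 : 0 ≤ (v1 - 2 ^ L) / (2 : ℝ) ^ e' := div_nonneg (by (clear * - h0 hlen ht; linarith)) ht.le
  have e0 : (v0 - 2 ^ L) / (2 : ℝ) ^ e' ≤ i0 := Nat.le_ceil _
  have e0' : (i0 : ℝ) < (v0 - 2 ^ L) / (2 : ℝ) ^ e' + 1 := Nat.ceil_lt_add_one hA0
  exact by
    have e1 : (i1 : ℝ) ≤ (v1 - 2 ^ L) / (2 : ℝ) ^ e' := Nat.floor_le hA1
    have e1' : (v1 - 2 ^ L) / (2 : ℝ) ^ e' < i1 + 1 := Nat.lt_floor_add_one _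
    have hlen' : 4 ≤ (v1 - v0) / (2 : ℝ) ^ e' := by rw [le_div_iff₀ ht]; (clear * - hlen; linarith)
    have hsub : (v1 - v0) / (2 : ℝ) ^ e' = (v1 - 2 ^ L) / (2 : ℝ) ^ e' - (v0 - 2 ^ L) / (2 : ℝ) ^ e' := by ring
    have hdiff : (v1 - v0) / (2 : ℝ) ^ e' / 2 ≤ (i1 : ℝ) - i0 := by (clear * - e0' e1' hlen' hsub; linarith)
    have hlt : i0 ≤ i1 := by
      have : (0 : ℝ) ≤ (i1 : ℝ) - i0 := by (clear * - e0' e1' hlen' hsub; linarith)
      have : (i0 : ℝ) ≤ i1 := by (clear * - e0' e1' hlen' hsub; linarith)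
      exact_mod_cast this
    obtain ⟨n, hn⟩ := Nat.exists_eq_add_of_le hlt
    have hn' : (n : ℝ) = i1 - i0 := by rw [hn]; push_cast; ring
    have b0 : v0 ≤ 2 ^ L + (i0 : ℝ) * 2 ^ e' := by
      rw [div_le_iff₀ ht] at e0; (clear * - e0; linarith)
    exact by
      have b1 : 2 ^ L + (i1 : ℝ) * 2 ^ e' ≤ v1 := by
        rw [le_div_iff₀ ht] at e1; (clear * - e1; linarith)
      have hcell : ∀ i ∈ Finset.range n, c1 * 2 ^ e' / L ≤ (npr L e' (i0 + i) : ℝ) := by
        intro i hi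
        rw [Finset.mem_range] at hi
        have hi' : ((i0 + i : ℕ) : ℝ) + 1 ≤ i1 := by
          have : i0 + i + 1 ≤ i1 := by omega
          exact_mod_cast this
        have hup : 2 ^ L + (((i0 + i : ℕ) : ℝ) + 1) * 2 ^ e' ≤ v1 := by
          have := mul_le_mul_of_nonneg_right hi' ht.le
          (clear * - b1 this; linarith)
        apply hrich
        · have h2 : (((i0 + i : ℕ) : ℝ) + 1) * 2 ^ e' ≤ (2 : ℝ) ^ L := by
            have h3 : (2 : ℝ) ^ (L + 1) = 2 ^ L + 2 ^ L := by rw [pow_succ]; ring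
            (clear * - h1 hup h3; linarith)
          have h4 : (2 : ℝ) ^ L = 2 ^ (L - e') * 2 ^ e' := by rw [← pow_add]; congr 1; omega
          rw [h4] at h2
          have h5 := le_of_mul_le_mul_right h2 ht
          have h6 : i0 + i + 1 ≤ 2 ^ (L - e') := by exact_mod_cast h5
          omega
        · clear * - ht b0; have : (i0 : ℝ) ≤ ((i0 + i : ℕ) : ℝ) := by push_cast; (clear * -; linarith [(Nat.cast_nonneg i : (0 : ℝ) ≤ i)])
          have := mul_le_mul_of_nonneg_right this ht.le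
          (clear * - b0 this; linarith)
        · exact hup
      have hsum : (n : ℝ) * (c1 * 2 ^ e' / L) ≤ ∑ i ∈ Finset.range n, (npr L e' (i0 + i) : ℝ) := by
        have := Finset.sum_le_sum hcell
        rw [Finset.sum_const, Finset.card_range, nsmul_eq_mul] at this
        exact this
      have hcard : (∑ i ∈ Finset.range n, (npr L e' (i0 + i) : ℝ)) ≤
          (((Finset.range (2 ^ (L + 1))).filter (fun q : ℕ => q.Prime ∧ v0 ≤ (q : ℝ) ∧ (q : ℝ) < v1)).card : ℝ) := by
        have h := sum_npr L e' i0 n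
        have h' : (∑ i ∈ Finset.range n, (npr L e' (i0 + i) : ℝ))
            = (((Finset.Ico (2 ^ L + i0 * 2 ^ e') (2 ^ L + (i0 + n) * 2 ^ e')).filter Nat.Prime).card : ℝ) := by
          rw [← h]; push_cast; rfl
        rw [h']
        have hsubset : ((Finset.Ico (2 ^ L + i0 * 2 ^ e') (2 ^ L + (i0 + n) * 2 ^ e')).filter Nat.Prime) ⊆
            ((Finset.range (2 ^ (L + 1))).filter (fun q : ℕ => q.Prime ∧ v0 ≤ (q : ℝ) ∧ (q : ℝ) < v1)) := by
          intro q hq
          rw [Finset.mem_filter, Finset.mem_Ico] at hq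
          obtain ⟨⟨q1, q2⟩, q3⟩ := hq
          have q1' : (2 : ℝ) ^ L + i0 * 2 ^ e' ≤ q := by exact_mod_cast q1
          have q2' : (q : ℝ) < 2 ^ L + (i1 : ℝ) * 2 ^ e' := by
            rw [hn]; exact_mod_cast q2
          rw [Finset.mem_filter, Finset.mem_range]
          refine ⟨?_, q3, by (clear * - b0 q1'; linarith), by (clear * - b1 q2'; linarith)⟩
          have : (q : ℝ) < 2 ^ (L + 1) := by (clear * - h1 b1 q2'; linarith)
          exact_mod_cast this
        exact_mod_cast Finset.card_le_card hsubset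
      refine le_trans ?_ (hsum.trans hcard)
      have hn2 : (v1 - v0) / (2 : ℝ) ^ e' / 2 ≤ (n : ℝ) := by rw [hn']; exact hdiff
      have hq : (v1 - v0) * c1 / (2 * L) = ((v1 - v0) / (2 : ℝ) ^ e' / 2) * (c1 * 2 ^ e' / L) := by
        (clear * - hL; field_simp)
      rw [hq]
      exact mul_le_mul_of_nonneg_right hn2 (by (clear * - hc1 hL; positivity))

/-- number of primes `q` with `m q` in `[x, x+s)` -/
noncomputable def Nm (k x s m : ℕ) : ℕ :=
  ((Finset.range (2 ^ (k + 1))).filter (fun q : ℕ => q.Prime ∧ x ≤ m * q ∧ m * q < x + s)).card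

theorem nEx_eq (μ k e j : ℕ) : nEx μ k e j = ∑ m ∈ PMx μ, Nm k (2 ^ k + j * 2 ^ e) (2 ^ e) m := by
  have h : (j + 1) * 2 ^ e = j * 2 ^ e + 2 ^ e := by ring
  simp only [nEx, Nm, Finset.card_filter, Finset.sum_product, h, add_assoc]

/-- poor cells at level `L` -/
noncomputable def Poor (w d' c1 : ℝ) (L : ℕ) : Finset ℕ :=
  (Finset.range (2 ^ (L - ecw w d' L))).filter (fun i =>
    (npr L (ecw w d' L) i : ℝ) < c1 * 2 ^ ecw w d' L / L)

/-- dichotomy for one window -/
theorem dich {w d' c1 : ℝ} {k μ e x m : ℕ} (hc1 : 0 ≤ c1) (hμ : μ + 2 ≤ k)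
    (hx : 2 ^ k ≤ x) (hx1 : x + 2 ^ e ≤ 2 ^ (k + 1)) (hm : 2 ^ μ < m) (hm1 : m ≤ 2 * 2 ^ μ)
    (he : ∀ L : ℕ, (L = k - μ - 1 ∨ L = k - μ) → ecw w d' L ≤ L ∧ 16 * (2 : ℝ) ^ ecw w d' L * 2 ^ μ ≤ 2 ^ e)
    (hno : ∀ L i : ℕ, (L = k - μ - 1 ∨ L = k - μ) → i ∈ Poor w d' c1 L →
      ¬ ((x : ℝ) ≤ m * (2 ^ L + i * 2 ^ ecw w d' L) ∧ m * (2 ^ L + ((i : ℝ) + 1) * 2 ^ ecw w d' L) ≤ x + 2 ^ e)) :
    2 ^ e * c1 / (8 * 2 ^ μ * k) ≤ (Nm k x (2 ^ e) m : ℝ) := by
  have hm0 : (0 : ℝ) < m := by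
    have : 0 < m := lt_of_le_of_lt (Nat.zero_le _) hm
    exact_mod_cast this
  have hmM : ((2 : ℝ) ^ μ) < m := by exact_mod_cast hm
  have hmM1 : (m : ℝ) ≤ 2 * 2 ^ μ := by exact_mod_cast hm1
  have hM0 : (0 : ℝ) < (2 : ℝ) ^ μ := by positivity
  have hxr : (2 : ℝ) ^ k ≤ x := by exact_mod_cast hx
  have hxr1 : (x : ℝ) + 2 ^ e ≤ 2 ^ (k + 1) := by exact_mod_cast hx1
  have hs : (0 : ℝ) < (2 : ℝ) ^ e := by positivity
  have hk0 : (0 : ℝ) < k := by
    have : 0 < k := by omega
    exact_mod_cast this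
  -- choose the half window
  exact by
    obtain ⟨L, v0, v1, hL, hv0, hv1, hL0, hL1, hlen⟩ : ∃ (L : ℕ) (v0 v1 : ℝ), (L = k - μ - 1 ∨ L = k - μ) ∧
        (x : ℝ) ≤ m * v0 ∧ m * v1 ≤ x + 2 ^ e ∧ (2 : ℝ) ^ L ≤ v0 ∧ v1 ≤ 2 ^ (L + 1) ∧ v1 - v0 = 2 ^ e / (2 * m) := by
      rcases le_or_gt ((2 : ℝ) ^ (k - μ)) (x / m + 2 ^ e / (2 * m)) with h | h
      · refine ⟨k - μ, x / m + 2 ^ e / (2 * m), x / m + 2 ^ e / m, Or.inr rfl, ?_, ?_, h, ?_, ?_⟩
        · clear * - hm0 hs; have : (m : ℝ) * (x / m + 2 ^ e / (2 * m)) = x + 2 ^ e / 2 := by field_simp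
          rw [this]; (clear * - hs; linarith)
        · have : (m : ℝ) * (x / m + 2 ^ e / m) = x + 2 ^ e := by (clear * - hm0; field_simp)
          rw [this]
        · have h2 : (x : ℝ) / m + 2 ^ e / m = (x + 2 ^ e) / m := by ring
          rw [h2, div_le_iff₀ hm0]
          have h3 : (2 : ℝ) ^ (k + 1) = 2 ^ (k - μ + 1) * 2 ^ μ := by rw [← pow_add]; congr 1; omega
          have h4 : (2 : ℝ) ^ (k - μ + 1) * 2 ^ μ ≤ 2 ^ (k - μ + 1) * m :=
            mul_le_mul_of_nonneg_left hmM.le (by positivity)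
          (clear * - hxr1 h3 h4; linarith)
        · field_simp; ring
      · refine ⟨k - μ - 1, x / m, x / m + 2 ^ e / (2 * m), Or.inl rfl, ?_, ?_, ?_, ?_, ?_⟩
        · rw [mul_div_cancel₀ _ hm0.ne']
        · have : (m : ℝ) * (x / m + 2 ^ e / (2 * m)) = x + 2 ^ e / 2 := by (clear * - hm0; field_simp)
          rw [this]; (clear * - hs; linarith)
        · clear * - hm0 e hμ hmM1 hxr; rw [le_div_iff₀ hm0]
          have h3 : (2 : ℝ) ^ k = 2 ^ (k - μ - 1) * (2 * 2 ^ μ) := by
            rw [← mul_assoc, ← pow_succ, ← pow_add]; congr 1; omega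
          have h4 : (2 : ℝ) ^ (k - μ - 1) * m ≤ 2 ^ (k - μ - 1) * (2 * 2 ^ μ) :=
            mul_le_mul_of_nonneg_left hmM1 (by positivity)
          (clear * - hxr h3 h4; linarith)
        · have h5 : k - μ - 1 + 1 = k - μ := by omega
          rw [h5]; exact h.le
        · ring
    obtain ⟨heL, hbig⟩ := he L hL
    have hLpos : 0 < L := by rcases hL with h | h <;> omega
    have hLk : (L : ℝ) ≤ k := by
      have : L ≤ k := by rcases hL with h | h <;> omega
      exact_mod_cast this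
    have hLr : (0 : ℝ) < L := by exact_mod_cast hLpos
    have hlen2 : 2 ^ e / (4 * 2 ^ μ) ≤ v1 - v0 := by
      rw [hlen]
      apply div_le_div_of_nonneg_left hs.le (by (clear * - hm0; positivity))
      (clear * - hmM1; linarith)
    have hlen4 : 4 * (2 : ℝ) ^ ecw w d' L ≤ v1 - v0 := by
      refine le_trans ?_ hlen2
      rw [le_div_iff₀ (by positivity)]
      (clear * - hbig; nlinarith)
    have hw := window L (ecw w d' L) v0 v1 c1 hc1 hLpos hL0 hL1 hlen4 heL (by
      intro i hi hi0 hi1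
      by_contra hcon
      push Not at hcon
      apply hno L i hL
      · rw [Poor, Finset.mem_filter, Finset.mem_range]
        exact ⟨hi, hcon⟩
      · constructor
        · exact hv0.trans (mul_le_mul_of_nonneg_left hi0 hm0.le)
        · exact (mul_le_mul_of_nonneg_left hi1 hm0.le).trans hv1)
    have hsub : ((Finset.range (2 ^ (L + 1))).filter (fun q : ℕ => q.Prime ∧ v0 ≤ (q : ℝ) ∧ (q : ℝ) < v1)) ⊆
        ((Finset.range (2 ^ (k + 1))).filter (fun q : ℕ => q.Prime ∧ x ≤ m * q ∧ m * q < x + 2 ^ e)) := by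
      intro q hq
      rw [Finset.mem_filter, Finset.mem_range] at hq ⊢
      obtain ⟨q1, q2, q3, q4⟩ := hq
      refine ⟨lt_of_lt_of_le q1 (Nat.pow_le_pow_right (by norm_num) (by rcases hL with h | h <;> (clear * - w d' e x m hμ q h; omega))), q2, ?_, ?_⟩
      · have : (x : ℝ) ≤ m * q := hv0.trans (mul_le_mul_of_nonneg_left q3 hm0.le)
        exact_mod_cast this
      · have : (m : ℝ) * q < x + 2 ^ e := lt_of_lt_of_le (mul_lt_mul_of_pos_left q4 hm0) hv1
        exact_mod_cast this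
    have hc : (((Finset.range (2 ^ (L + 1))).filter (fun q : ℕ => q.Prime ∧ v0 ≤ (q : ℝ) ∧ (q : ℝ) < v1)).card : ℝ) ≤
        (Nm k x (2 ^ e) m : ℝ) := by
      rw [Nm]
      exact_mod_cast Finset.card_le_card hsub
    refine le_trans ?_ (hw.trans hc)
    calc 2 ^ e * c1 / (8 * 2 ^ μ * k) = 2 ^ e / (4 * 2 ^ μ) * c1 / (2 * k) := by
          field_simp; ring
      _ ≤ (v1 - v0) * c1 / (2 * k) := by
          apply div_le_div_of_nonneg_right _ (by (clear * - hk0; positivity))
          exact mul_le_mul_of_nonneg_right hlen2 hc1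
      _ ≤ (v1 - v0) * c1 / (2 * L) := by
          clear * - hlen2 hc1 hLpos hLk; apply div_le_div_of_nonneg_left _ (by positivity) (by (clear * - hLk; linarith))
          have : 0 ≤ v1 - v0 := le_trans (by positivity) hlen2
          (clear * - this hc1; positivity)

/-- the collision lemma for one `k` -/
theorem step {w d' c1 Pc : ℝ} {k μ e : ℕ} (hc1 : 0 < c1) (hμ : μ + 2 ≤ k) (hek : e ≤ k)
    (hcheb : (2 : ℝ) ^ μ / (2 * (μ + 1)) ≤ (PMx μ).card)
    (he : ∀ L : ℕ, (L = k - μ - 1 ∨ L = k - μ) → ecw w d' L ≤ L ∧ 16 * (2 : ℝ) ^ ecw w d' L * 2 ^ μ ≤ 2 ^ e)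
    (hP : ((Poor w d' c1 (k - μ - 1)).card : ℝ) + (Poor w d' c1 (k - μ)).card ≤ Pc)
    (hcond : Pc * (1 + 16 * 2 ^ e * 2 ^ (2 * μ) / 2 ^ k) ≤ ((2 : ℝ) ^ μ / (4 * k)) ^ 2 / 2) :
    (((Finset.range (2 ^ (k - e))).filter (fun j =>
      (nEx μ k e j : ℝ) < c1 / 32 * 2 ^ e / (k : ℝ) ^ 2)).card : ℝ) ≤ 40 * k * Pc / 2 ^ μ := by
  set Bad := (Finset.range (2 ^ (k - e))).filter (fun j => (nEx μ k e j : ℝ) < c1 / 32 * 2 ^ e / (k : ℝ) ^ 2)
    with hBad
  have hk0 : (0 : ℝ) < k := by
    have : 0 < k := by omega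
    exact_mod_cast this
  have hM : (0 : ℝ) < (2 : ℝ) ^ μ := by positivity
  have hs : (0 : ℝ) < (2 : ℝ) ^ e := by positivity
  let Hit : ℕ → ℕ → ℕ × ℕ → Prop := fun j m p => (p.1 = k - μ - 1 ∨ p.1 = k - μ) ∧ p.2 ∈ Poor w d' c1 p.1 ∧
    (((2 ^ k + j * 2 ^ e : ℕ) : ℝ) ≤ m * (2 ^ p.1 + p.2 * 2 ^ ecw w d' p.1) ∧
      m * (2 ^ p.1 + ((p.2 : ℝ) + 1) * 2 ^ ecw w d' p.1) ≤ ((2 ^ k + j * 2 ^ e : ℕ) : ℝ) + 2 ^ e)
  let B : ℕ → Finset ℕ := fun j => (PMx μ).filter (fun m => ∃ p, Hit j m p)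
  let φ : ℕ → ℕ → ℕ × ℕ := fun j m => if h : ∃ p, Hit j m p then h.choose else (0, 0)
  have hφ : ∀ j m, m ∈ B j → Hit j m (φ j m) := by
    intro j m hm
    have h : ∃ p, Hit j m p := (Finset.mem_filter.1 hm).2
    have : φ j m = h.choose := dif_pos h
    rw [this]
    exact h.choose_spec
  exact by
    let P : Finset (ℕ × ℕ) := ((Poor w d' c1 (k - μ - 1)).image (fun i => (k - μ - 1, i))) ∪
      ((Poor w d' c1 (k - μ)).image (fun i => (k - μ, i)))
    have hPc : (P.card : ℝ) ≤ Pc := by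
      refine le_trans ?_ hP
      have h1 := Finset.card_union_le ((Poor w d' c1 (k - μ - 1)).image (fun i => (k - μ - 1, i)))
        ((Poor w d' c1 (k - μ)).image (fun i => (k - μ, i)))
      have h2 : ((Poor w d' c1 (k - μ - 1)).image (fun i => (k - μ - 1, i))).card ≤ (Poor w d' c1 (k - μ - 1)).card :=
        Finset.card_image_le
      have h3 : ((Poor w d' c1 (k - μ)).image (fun i => (k - μ, i))).card ≤ (Poor w d' c1 (k - μ)).card :=
        Finset.card_image_le
      have : P.card ≤ (Poor w d' c1 (k - μ - 1)).card + (Poor w d' c1 (k - μ)).card := by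
        show (_ ∪ _ : Finset (ℕ × ℕ)).card ≤ _
        omega
      exact_mod_cast this
    have hPMx : ∀ m ∈ PMx μ, m.Prime ∧ 2 ^ μ < m ∧ m ≤ 2 * 2 ^ μ := by
      intro m hm
      rw [PMx, Finset.mem_filter, Finset.mem_Ioc] at hm
      exact ⟨hm.2, hm.1.1, hm.1.2⟩
    -- many poor windows
    have hBcard : ∀ j ∈ Bad, (2 : ℝ) ^ μ / (4 * k) ≤ ((B j).card : ℝ) := by
      intro j hj
      rw [hBad, Finset.mem_filter, Finset.mem_range] at hj
      obtain ⟨hj1, hj2⟩ := hj
      set x := 2 ^ k + j * 2 ^ e with hxdef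
      have hx1 : x + 2 ^ e ≤ 2 ^ (k + 1) := by
        have h1 : (j + 1) * 2 ^ e ≤ 2 ^ (k - e) * 2 ^ e := Nat.mul_le_mul_right _ hj1
        have h2 : 2 ^ (k - e) * 2 ^ e = 2 ^ k := by rw [← pow_add]; congr 1; omega
        have h3 : (j + 1) * 2 ^ e = j * 2 ^ e + 2 ^ e := by ring
        rw [hxdef, pow_succ]
        omega
      have hsplit := Finset.card_filter_add_card_filter_not (s := PMx μ) (fun m => ∃ p, Hit j m p)
      set G := (PMx μ).filter (fun m => ¬ ∃ p, Hit j m p) with hG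
      have hGn : ∀ m ∈ G, 2 ^ e * c1 / (8 * 2 ^ μ * k) ≤ (Nm k x (2 ^ e) m : ℝ) := by
        intro m hm
        rw [hG, Finset.mem_filter] at hm
        obtain ⟨hm1, hm2⟩ := hm
        obtain ⟨-, hm3, hm4⟩ := hPMx m hm1
        apply dich (w := w) (d' := d') hc1.le hμ (by rw [hxdef]; omega) hx1 hm3 hm4 he
        intro L i hL hi hcon
        exact hm2 ⟨(L, i), hL, hi, hcon⟩
      have hsum : (G.card : ℝ) * (2 ^ e * c1 / (8 * 2 ^ μ * k)) ≤ (nEx μ k e j : ℝ) := by
        rw [nEx_eq]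
        push_cast
        calc (G.card : ℝ) * (2 ^ e * c1 / (8 * 2 ^ μ * k)) = ∑ m ∈ G, 2 ^ e * c1 / (8 * 2 ^ μ * k) := by
              rw [Finset.sum_const, nsmul_eq_mul]
          _ ≤ ∑ m ∈ G, (Nm k x (2 ^ e) m : ℝ) := Finset.sum_le_sum hGn
          _ ≤ ∑ m ∈ PMx μ, (Nm k x (2 ^ e) m : ℝ) := by
              apply Finset.sum_le_sum_of_subset_of_nonneg (Finset.filter_subset _ _)
              intro i _ _
              exact Nat.cast_nonneg _
      have hGcard : (G.card : ℝ) ≤ 2 ^ μ / (4 * k) := by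
        have h1 : (G.card : ℝ) * (2 ^ e * c1 / (8 * 2 ^ μ * k)) ≤ c1 / 32 * 2 ^ e / (k : ℝ) ^ 2 := hsum.trans hj2.le
        have h2 : c1 / 32 * 2 ^ e / (k : ℝ) ^ 2 = (2 ^ μ / (4 * k)) * (2 ^ e * c1 / (8 * 2 ^ μ * k)) := by
          field_simp; ring
        rw [h2] at h1
        exact le_of_mul_le_mul_right h1 (by (clear * - hc1 hk0; positivity))
      have hle : (2 : ℝ) ^ μ / (2 * k) ≤ (PMx μ).card := by
        refine le_trans ?_ hcheb
        apply div_le_div_of_nonneg_left hM.le (by (clear * -; positivity))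
        have : μ + 1 ≤ k := by omega
        have : (μ : ℝ) + 1 ≤ k := by exact_mod_cast this
        (clear * - this; linarith)
      have hadd : ((B j).card : ℝ) + G.card = (PMx μ).card := by exact_mod_cast hsplit
      have : (2 : ℝ) ^ μ / (2 * k) = 2 ^ μ / (4 * k) + 2 ^ μ / (4 * k) := by field_simp; ring
      (clear * - hGcard hle hadd this; linarith)
    have hXe : (2 : ℝ) ^ (2 * μ) = 2 ^ μ * 2 ^ μ := by rw [two_mul, pow_add]
    have key := Pool.Agent.M20.Helper61.KS.collision Bad (fun j => ((2 ^ k + j * 2 ^ e : ℕ) : ℝ)) (PMx μ) B P φ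
      (X := 2 ^ k) (lam := 2 ^ e) (Q := 2 ^ μ) (ρ := 2 ^ e / 2 ^ μ) (π0 := 2 ^ μ / (4 * k))
      (by positivity) hs (one_le_pow₀ (by norm_num)) (by positivity) (by (clear * - hk0; positivity))
      (by
        intro r hr
        obtain ⟨h1, h2, h3⟩ := hPMx r hr
        refine ⟨h1, ?_, ?_⟩
        · exact_mod_cast h2.le
        · exact_mod_cast h3)
      (fun j _ => Finset.filter_subset _ _)
      (by
        intro j _
        push_cast
        have : (0 : ℝ) ≤ (j : ℝ) * 2 ^ e := by (clear * -; positivity)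
        (clear * - this; linarith))
      (by
        intro i _ j _ hij
        push_cast
        have h1 : (1 : ℝ) ≤ |(i : ℝ) - j| := by
          have h2 : (i : ℤ) - j ≠ 0 := by (clear * - k μ e hij; omega)
          have h3 := Int.one_le_abs h2
          have : ((1 : ℤ) : ℝ) ≤ ((|(i : ℤ) - j| : ℤ) : ℝ) := by exact_mod_cast h3
          push_cast at this
          exact this
        have h4 : (2 : ℝ) ^ k + (i : ℝ) * 2 ^ e - (2 ^ k + (j : ℝ) * 2 ^ e) = ((i : ℝ) - j) * 2 ^ e := by ring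
        rw [h4, abs_mul, abs_of_pos hs]
        (clear * - hs h1; nlinarith))
      (by
        intro j _ m hm
        obtain ⟨h1, h2, -⟩ := hφ j m hm
        show _ ∈ (_ ∪ _ : Finset (ℕ × ℕ))
        rw [Finset.mem_union, Finset.mem_image, Finset.mem_image]
        rcases h1 with h | h
        · left
          exact ⟨(φ j m).2, by rw [← h]; exact h2, by rw [← h]⟩
        · right
          exact ⟨(φ j m).2, by rw [← h]; exact h2, by rw [← h]⟩)
      (by
        intro i _ j _ r hr r' hr' heq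
        have h1 := hφ i r hr
        have h2 := hφ j r' hr'
        rw [← heq] at h2
        set p := φ i r with hp
        have hr0 : (2 : ℝ) ^ μ < r := by
          have := (hPMx r ((Finset.filter_subset _ _) hr)).2.1
          exact_mod_cast this
        have hr0' : (2 : ℝ) ^ μ < r' := by
          have := (hPMx r' ((Finset.filter_subset _ _) hr')).2.1
          exact_mod_cast this
        have hrp : (0 : ℝ) < r := hM.trans hr0
        have hrp' : (0 : ℝ) < r' := hM.trans hr0'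
        have aux : ∀ (j r : ℕ), (0 : ℝ) < r → (2 : ℝ) ^ μ < r → Hit j r p →
            0 ≤ (2 ^ p.1 + (p.2 : ℝ) * 2 ^ ecw w d' p.1) - ((2 ^ k + j * 2 ^ e : ℕ) : ℝ) / r ∧
            (2 ^ p.1 + (p.2 : ℝ) * 2 ^ ecw w d' p.1) - ((2 ^ k + j * 2 ^ e : ℕ) : ℝ) / r ≤ 2 ^ e / 2 ^ μ := by
          intro j r h0 h1 h2
          obtain ⟨-, -, h3, h4⟩ := h2
          constructor
          · rw [sub_nonneg, div_le_iff₀ h0]
            (clear * - h3; linarith)
          · have h5 : (2 ^ p.1 + (p.2 : ℝ) * 2 ^ ecw w d' p.1) ≤ (((2 ^ k + j * 2 ^ e : ℕ) : ℝ) + 2 ^ e) / r := by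
              rw [le_div_iff₀ h0]
              have h6 : (0 : ℝ) ≤ r * 2 ^ ecw w d' p.1 := by (clear * - h0; positivity)
              (clear * - h4 h6; nlinarith)
            have h7 : (((2 ^ k + j * 2 ^ e : ℕ) : ℝ) + 2 ^ e) / r - ((2 ^ k + j * 2 ^ e : ℕ) : ℝ) / r = 2 ^ e / r := by
              ring
            have h8 : (2 : ℝ) ^ e / r ≤ 2 ^ e / 2 ^ μ := div_le_div_of_nonneg_left hs.le hM h1.le
            (clear * - h5 h7 h8; linarith)
        obtain ⟨a1, a2⟩ := aux i r hrp hr0 h1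
        obtain ⟨b1, b2⟩ := aux j r' hrp' hr0' h2
        rw [abs_le]
        constructor <;> (clear * - a2 b1 a1 b2; linarith))
      hBcard
      (by
        clear * - hXe hPc hcond; refine le_trans ?_ hcond
        have h1 : 16 * ((2 : ℝ) ^ e / 2 ^ μ) * (2 ^ μ) ^ 3 / 2 ^ k = 16 * 2 ^ e * 2 ^ (2 * μ) / 2 ^ k := by
          rw [hXe]; field_simp
        rw [h1]
        exact mul_le_mul_of_nonneg_right hPc (by positivity))
    have h5 : 1 + 4 * ((2 : ℝ) ^ e / 2 ^ μ) * 2 ^ μ / 2 ^ e = 5 := by field_simp; norm_num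
    rw [h5] at key
    rw [le_div_iff₀ hM]
    have h6 : (Bad.card : ℝ) * 2 ^ μ = (Bad.card : ℝ) * (2 ^ μ / (4 * k)) * (4 * k) := by (clear * - hk0; field_simp)
    rw [h6]
    calc (Bad.card : ℝ) * (2 ^ μ / (4 * k)) * (4 * k) ≤ (2 * P.card * 5) * (4 * k) :=
          mul_le_mul_of_nonneg_right key (by (clear * - hk0; positivity))
      _ ≤ (2 * Pc * 5) * (4 * k) := by
          clear * - hPc hk0; apply mul_le_mul_of_nonneg_right _ (by positivity)
          (clear * - hPc; linarith)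
      _ = 40 * k * Pc := by ring

/-! ### asymptotics -/

theorem ev_sq (C η : ℝ) (hη : 0 < η) : ∀ᶠ k : ℕ in atTop, C * (k : ℝ) ^ 2 ≤ (2 : ℝ) ^ (η * (k : ℝ)) := by
  have hr : |(2 : ℝ) ^ (-η)| < 1 := by
    rw [abs_of_pos (by positivity)]
    exact Real.rpow_lt_one_of_one_lt_of_neg (by norm_num) (by linarith)
  have h := (tendsto_pow_const_mul_const_pow_of_abs_lt_one 2 hr).const_mul C
  rw [mul_zero] at h
  filter_upwards [h.eventually (eventually_le_nhds (show (0 : ℝ) < 1 by norm_num))] with k hk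
  have h2 : ((2 : ℝ) ^ (-η)) ^ k = ((2 : ℝ) ^ (η * (k : ℝ)))⁻¹ := by
    rw [← Real.rpow_natCast, ← Real.rpow_mul (by norm_num), ← Real.rpow_neg (by norm_num)]
    congr 1
    ring
  rw [h2, ← mul_assoc, ← div_eq_mul_inv, div_le_one (by positivity)] at hk
  exact hk

theorem ev_lin (C η : ℝ) (hη : 0 < η) : ∀ᶠ k : ℕ in atTop, C ≤ η * (k : ℝ) := by
  have h : Tendsto (fun k : ℕ => η * (k : ℝ)) atTop atTop :=
    Tendsto.const_mul_atTop hη tendsto_natCast_atTop_atTop
  exact h.eventually_ge_atTop C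

/-- **class 3**: few cells are without numbers `q m`, `m` prime of size `X^b` -/
theorem countEx_of_countW {w U b U3 : ℝ} (hb1 : 1/4 < b) (hb2 : b < 1/2) (hw : 0 < 1/2 + w) (hU : 0 ≤ U)
    (h1 : (1 - b) * (1/2 + w) < 1/2 - b) (h2 : (1 - b) * U < 1/2) (h3 : (1 - b) * U - b < U3)
    (hW : CountW w U) : CountEx (fun k => ⌊b * (k : ℝ)⌋₊) U3 := by
  obtain ⟨d0', hd0', H⟩ := hW
  set d' := min d0' ((1/2 + w) / 2) with hd'
  have hd'pos : 0 < d' := lt_min hd0' (by (clear * - hw; linarith))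
  obtain ⟨c1, hc1, K1, H1⟩ := H d' hd'pos (min_le_left _ _)
  set g := (1/2 - b) - (1 - b) * (1/2 + w) with hg
  have hg0 : 0 < g := by (clear * - h1 hg; linarith)
  obtain ⟨K2, hK2⟩ := card_PMx
  refine ⟨g / 2, by (clear * - hg0; linarith), fun d hd hdle => ⟨c1 / 32, by positivity, ?_⟩⟩
  have hev : ∀ᶠ k : ℕ in atTop, (((Finset.range (2 ^ (k - ec d k))).filter (fun j =>
    (nEx (⌊b * (k : ℝ)⌋₊) k (ec d k) j : ℝ) < c1 / 32 * 2 ^ ec d k / (k : ℝ) ^ 2)).card : ℝ) ≤
      (2 : ℝ) ^ (U3 * (k : ℝ)) := by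
    filter_upwards [ev_lin (K2 + 1) b (by (clear * - hb1 hb2; linarith)), ev_lin 3 (1 - b) (by (clear * - hb1 hb2; linarith)),
      ev_lin (K1 + 1) (1 - b) (by (clear * - hb1 hb2; linarith)), ev_lin (5 + (1/2 + w)) (g / 2) (by (clear * - hd hdle; linarith)),
      ev_sq (512 * 2 ^ U) (2 * b - (1 - b) * U) (by (clear * - hb1 h2; linarith)), ev_sq (2048 * 2 ^ U) (1/2 - (1 - b) * U) (by (clear * - h2; linarith)),
      ev_sq (160 * 2 ^ U) (U3 + b - (1 - b) * U) (by (clear * - h3; linarith)), eventually_ge_atTop 1]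
      with k e1 e2 e3 e4 e5 e6 e7 e8
    set μ := ⌊b * (k : ℝ)⌋₊ with hμ
    have hk1 : (1 : ℝ) ≤ k := by exact_mod_cast e8
    have hbk : 0 ≤ b * (k : ℝ) := by (clear * - hb1 e8; positivity)
    have m1 : (μ : ℝ) ≤ b * k := Nat.floor_le hbk
    have m2 : b * k < μ + 1 := Nat.lt_floor_add_one _
    have hμ2 : μ + 3 ≤ k := by
      have : (μ : ℝ) + 3 ≤ k := by (clear * - e2 m1; linarith)
      exact_mod_cast this
    have hek : ec d k ≤ k := by
      rw [ec]
      apply Nat.floor_le_of_le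
      have h9 := mul_nonneg (Nat.cast_nonneg (α := ℝ) k) hd.le
      (clear * - h9 hk1; linarith)
    have hekr : (ec d k : ℝ) ≤ k / 2 := by
      rw [ec]
      rcases le_or_gt 0 ((k : ℝ) * (1/2 - d)) with h | h
      · clear * - h hd; refine (Nat.floor_le h).trans ?_
        have h9 := mul_nonneg (Nat.cast_nonneg (α := ℝ) k) hd.le
        (clear * - h9; linarith)
      · rw [Nat.floor_of_nonpos h.le]
        push_cast; (clear * - e8; positivity)
    have hekl : (k : ℝ) * (1/2 - d) < ec d k + 1 := Nat.lt_floor_add_one _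
    have hg1 : (1/2 + w) < 1 := by
      by_contra h9
      push Not at h9
      have h8 := mul_le_mul_of_nonneg_left h9 (show 0 ≤ 1 - b by (clear * - hb2; linarith))
      (clear * - h8 h1; linarith)
    have hL : ∀ L : ℕ, (L = k - μ - 1 ∨ L = k - μ) → (L : ℝ) ≤ (1 - b) * k + 1 ∧ (1 - b) * k - 1 ≤ (L : ℝ) := by
      intro L hL
      have c1 : ((k - μ - 1 : ℕ) : ℝ) = k - μ - 1 := by
        rw [Nat.cast_sub (by clear * - d hμ2; omega), Nat.cast_sub (by omega)]; push_cast; ring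
      have c2 : ((k - μ : ℕ) : ℝ) = k - μ := by rw [Nat.cast_sub (by omega)]
      rcases hL with h | h
      · clear * - h c1 hb1 hb2 m2 m1; rw [h, c1]; constructor <;> (clear * - hb1 hb2 m2 m1; linarith)
      · rw [h, c2]; constructor <;> (clear * - m2 hb1 hb2 m1; linarith)
    have hecw : ∀ L : ℕ, (ecw w d' L : ℝ) ≤ L * (1/2 + w) := by
      intro L
      rw [ecw]
      rcases le_or_gt 0 ((L : ℝ) * (1/2 + w - d')) with h | h
      · clear * - h hd'pos; refine (Nat.floor_le h).trans ?_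
        have h9 := mul_nonneg (Nat.cast_nonneg (α := ℝ) L) hd'pos.le
        (clear * - h9; linarith)
      · rw [Nat.floor_of_nonpos h.le]
        push_cast; (clear * - hw; positivity)
    have he : ∀ L : ℕ, (L = k - μ - 1 ∨ L = k - μ) → ecw w d' L ≤ L ∧
        16 * (2 : ℝ) ^ ecw w d' L * 2 ^ μ ≤ 2 ^ (ec d k) := by
      intro L hLL
      obtain ⟨l1, l2⟩ := hL L hLL
      have hl := hecw L
      have hL0 : (0 : ℝ) ≤ L := Nat.cast_nonneg _
      constructor
      · have : (ecw w d' L : ℝ) ≤ L := hl.trans (mul_le_of_le_one_right hL0 hg1.le)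
        exact_mod_cast this
      · clear * - hl hb1 hb2 hw l1 hdle hg e4 m1 hekl; have hsum : ecw w d' L + μ + 4 ≤ ec d k := by
          have : (ecw w d' L : ℝ) + μ + 4 ≤ ec d k := by
            have h5 : (ecw w d' L : ℝ) ≤ ((1 - b) * k + 1) * (1/2 + w) := hl.trans (mul_le_mul_of_nonneg_right l1 hw.le)
            have h6 : g / 2 * (k : ℝ) ≤ (g - d) * k := mul_le_mul_of_nonneg_right (by (clear * - hdle; linarith)) (Nat.cast_nonneg k)
            have h7 : (g - d) * (k : ℝ) = (1/2 - d) * k - b * k - (1 - b) * k * (1/2 + w) := by rw [hg]; ring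
            (clear * - e4 m1 hekl h5 h6 h7; linarith)
          exact_mod_cast this
        calc 16 * (2 : ℝ) ^ ecw w d' L * 2 ^ μ = 2 ^ (ecw w d' L + μ + 4) := by
              rw [pow_add, pow_add]; norm_num; ring
          _ ≤ 2 ^ (ec d k) := pow_le_pow_right₀ (by norm_num) hsum
    have hPoor : ∀ L : ℕ, (L = k - μ - 1 ∨ L = k - μ) →
        ((Poor w d' c1 L).card : ℝ) ≤ 2 ^ U * 2 ^ ((1 - b) * U * (k : ℝ)) := by
      intro L hLL
      obtain ⟨l1, l2⟩ := hL L hLL
      have hK : K1 ≤ L := by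
        have : (K1 : ℝ) ≤ L := by (clear * - e3 l2; linarith)
        exact_mod_cast this
      refine (H1 L hK).trans ?_
      rw [← Real.rpow_add (by norm_num)]
      apply Real.rpow_le_rpow_of_exponent_le (by norm_num)
      have h9 := mul_le_mul_of_nonneg_left l1 hU
      (clear * - h9; linarith)
    have hμpow : (2 : ℝ) ^ (b * (k : ℝ)) ≤ 2 * 2 ^ μ := by
      have h5 : (2 : ℝ) * 2 ^ μ = (2 : ℝ) ^ ((μ : ℝ) + 1) := by
        rw [Real.rpow_add (by norm_num), Real.rpow_natCast, Real.rpow_one]; ring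
      rw [h5]
      exact Real.rpow_le_rpow_of_exponent_le (by norm_num) m2.le
    have hs2 := step (w := w) (d' := d') (c1 := c1) (Pc := 2 * (2 ^ U * 2 ^ ((1 - b) * U * (k : ℝ)))) (k := k) (μ := μ)
      (e := ec d k) hc1 (by (clear * - d hμ2; omega)) hek
      (hK2 μ (by
        have : ((K2 : ℕ) : ℝ) ≤ μ := by (clear * - e1 m2; linarith)
        exact_mod_cast this)) he
      (by
        clear * - hPoor; have a1 := hPoor (k - μ - 1) (Or.inl rfl)
        have a2 := hPoor (k - μ) (Or.inr rfl)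
        (clear * - a1 a2; linarith))
      (by
        clear * - hekr e5 hμpow e6 e8; have hM0 : (0 : ℝ) < (2 : ℝ) ^ μ := by positivity
        have q1 : (2 : ℝ) ^ (2 * μ) = 2 ^ μ * 2 ^ μ := by rw [two_mul, pow_add]
        have q2 : (2 : ℝ) ^ (ec d k) ≤ (2 : ℝ) ^ ((k : ℝ) / 2) := by
          rw [← Real.rpow_natCast]
          exact Real.rpow_le_rpow_of_exponent_le (by norm_num) hekr
        have q3 : (2 : ℝ) ^ k = (2 : ℝ) ^ ((k : ℝ) / 2) * (2 : ℝ) ^ ((k : ℝ) / 2) := by
          rw [← Real.rpow_add (by norm_num), ← Real.rpow_natCast]; congr 1; ring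
        set W := (2 : ℝ) ^ ((1 - b) * U * (k : ℝ)) with hW
        have hW0 : 0 < W := by positivity
        have q4 : (512 * 2 ^ U * (k : ℝ) ^ 2) * W ≤ 4 * (2 ^ μ * 2 ^ μ) := by
          calc (512 * 2 ^ U * (k : ℝ) ^ 2) * W ≤ (2 : ℝ) ^ ((2 * b - (1 - b) * U) * (k : ℝ)) * W :=
                mul_le_mul_of_nonneg_right e5 hW0.le
            _ = (2 : ℝ) ^ (b * (k : ℝ)) * (2 : ℝ) ^ (b * (k : ℝ)) := by
                rw [hW, ← Real.rpow_add (by norm_num), ← Real.rpow_add (by norm_num)]; congr 1; ring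
            _ ≤ (2 * 2 ^ μ) * (2 * 2 ^ μ) := mul_le_mul hμpow hμpow (by positivity) (by positivity)
            _ = _ := by ring
        have q5 : (2048 * 2 ^ U * (k : ℝ) ^ 2) * W ≤ (2 : ℝ) ^ ((k : ℝ) / 2) := by
          calc (2048 * 2 ^ U * (k : ℝ) ^ 2) * W ≤ (2 : ℝ) ^ ((1/2 - (1 - b) * U) * (k : ℝ)) * W :=
                mul_le_mul_of_nonneg_right e6 hW0.le
            _ = (2 : ℝ) ^ ((k : ℝ) / 2) := by
                rw [hW, ← Real.rpow_add (by norm_num)]; congr 1; ring
        exact by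
          set A := (2 : ℝ) ^ ((k : ℝ) / 2) with hA
          have hA0 : 0 < A := by positivity
          have q6 : 16 * (2 : ℝ) ^ (ec d k) * 2 ^ (2 * μ) / 2 ^ k ≤ 16 * (2 ^ μ * 2 ^ μ) / A := by
            rw [q1, q3, div_le_div_iff₀ (by positivity) hA0]
            have : 16 * (2 : ℝ) ^ (ec d k) * (2 ^ μ * 2 ^ μ) * A ≤ 16 * A * (2 ^ μ * 2 ^ μ) * A := by
              (clear * - q2; gcongr)
            (clear * - this; linarith)
          have hPc0 : (0 : ℝ) ≤ 2 * (2 ^ U * W) := by positivity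
          refine (mul_le_mul_of_nonneg_left (add_le_add_right q6 1) hPc0).trans ?_
          have q7 : ((2 : ℝ) ^ μ / (4 * k)) ^ 2 / 2 = (2 ^ μ * 2 ^ μ) / (32 * (k : ℝ) ^ 2) := by field_simp; ring
          rw [q7, le_div_iff₀ (by positivity)]
          set N := (2 : ℝ) ^ μ * 2 ^ μ with hN
          have hN0 : 0 < N := by positivity
          have q8 : 2 * (2 ^ U * W) * (1 + 16 * N / A) * (32 * (k : ℝ) ^ 2)
              = (512 * 2 ^ U * (k : ℝ) ^ 2 * W) / 8 + (2048 * 2 ^ U * (k : ℝ) ^ 2 * W) / 2 * (N / A) := by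
            ring
          rw [q8]
          have q9 : (2048 * 2 ^ U * (k : ℝ) ^ 2 * W) / 2 * (N / A) ≤ A / 2 * (N / A) := by
            apply mul_le_mul_of_nonneg_right _ (by positivity)
            (clear * - q5; linarith)
          have q10 : A / 2 * (N / A) = N / 2 := by field_simp
          (clear * - q4 q9 q10; linarith))
    refine hs2.trans ?_
    rw [div_le_iff₀ (by positivity)]
    have hk2 : (k : ℝ) ≤ (k : ℝ) ^ 2 := le_self_pow₀ hk1 two_ne_zero
    calc 40 * (k : ℝ) * (2 * (2 ^ U * 2 ^ ((1 - b) * U * (k : ℝ))))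
        ≤ (160 * 2 ^ U * (k : ℝ) ^ 2) / 2 * 2 ^ ((1 - b) * U * (k : ℝ)) := by
          have : (0 : ℝ) < 2 ^ U * 2 ^ ((1 - b) * U * (k : ℝ)) := by positivity
          have h9 := mul_le_mul_of_nonneg_right hk2 this.le
          (clear * - h9; linarith)
      _ ≤ (2 : ℝ) ^ ((U3 + b - (1 - b) * U) * (k : ℝ)) / 2 * 2 ^ ((1 - b) * U * (k : ℝ)) := by
          apply mul_le_mul_of_nonneg_right _ (by positivity)
          (clear * - e7; linarith)
      _ = (2 : ℝ) ^ (U3 * (k : ℝ)) * ((2 : ℝ) ^ (b * (k : ℝ)) / 2) := by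
          have : (2 : ℝ) ^ ((U3 + b - (1 - b) * U) * (k : ℝ)) * 2 ^ ((1 - b) * U * (k : ℝ)) =
              (2 : ℝ) ^ (U3 * (k : ℝ)) * (2 : ℝ) ^ (b * (k : ℝ)) := by
            rw [← Real.rpow_add (by norm_num), ← Real.rpow_add (by norm_num)]; congr 1; ring
          (clear * - this; linarith)
      _ ≤ (2 : ℝ) ^ (U3 * (k : ℝ)) * 2 ^ μ := by
          apply mul_le_mul_of_nonneg_left _ (by positivity)
          (clear * - hμpow; linarith)
  exact eventually_atTop.1 hev

end Pool.Agent.M20.Helper29.KD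
end

/- Helper53.KN.Helper40.AV.EulerNum -/
section
/-! A sharper numerical bound for `e ^ γ`. -/

set_option autoImplicit false

namespace Pool.Agent.M20.Helper40.AV

open Real

theorem harmonic_1024 : (harmonic 1024 : ℚ) < 7.5091757 := by
  decide +kernel

theorem log1024 : Real.log 1024 = 10 * Real.log 2 := by
  rw [show (1024 : ℝ) = 2 ^ 10 by norm_num, Real.log_pow]
  norm_num

theorem gamma_lt' : eulerMascheroniConstant < 0.57771 := by
  have h1 := eulerMascheroniConstant_lt_eulerMascheroniSeq' 1024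
  rw [eulerMascheroniSeq', if_neg (by norm_num)] at h1
  have h2 : ((harmonic 1024 : ℚ) : ℝ) < 7.5091757 := by
    have := (Rat.cast_lt (K := ℝ)).2 harmonic_1024
    refine this.trans_eq ?_
    norm_num
  have h3 := Real.log_two_gt_d9
  push_cast at h1
  rw [log1024] at h1
  linarith

theorem exp_gamma_le : Real.exp eulerMascheroniConstant ≤ 1.782 := by
  have h1 : Real.exp eulerMascheroniConstant ≤ Real.exp 0.57771 :=
    Real.exp_le_exp.2 gamma_lt'.le
  refine h1.trans ?_
  have h3 := Real.exp_bound' (x := (0.57771 : ℝ)) (by norm_num) (by norm_num)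
    (n := 9) (by norm_num)
  refine h3.trans ?_
  norm_num [Finset.sum_range_succ, Nat.factorial]

end Pool.Agent.M20.Helper40.AV
end

/- Helper53.KN.Helper40.AV.Tab64 -/
section
/-! Project AV: kernel computation of the sieve functions on the grid `i / 64`, up to `16`. -/

set_option autoImplicit false
set_option linter.all false

open Filter Topology

namespace Pool.Agent.M20.Helper40.AV.T16

open Pool.Agent.M20.Helper40.AV
open Pool.Agent.M20.Helper59.AV.Tab (tot tot_eq ceil_div upb_mono lob_mono lob_zero)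
open Pool.Agent.M20.Helper59.AV (cu_low cu_high)

theorem tailLo16 : LoB 16 0.99999 :=
  tailLo Pool.Agent.M20.Helper82.AV.roughQ Pool.Agent.M20.Helper9.AV.mertens3
    Pool.Agent.M20.Helper51.AV.gammaNum Pool.Agent.M20.Helper53AV.selbergP
    Pool.Agent.M20.Helper30.AV.gGrankin Pool.Agent.M20.Helper14.AV.buchstab
    Pool.Agent.M20.Helper14.AV.telescope Pool.Agent.M20.Helper33.AV.primeInt

/-! ### the computation -/

/-- suffix sums -/
def suff : List ℕ → List ℕ
  | [] => [0]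
  | a :: l => (a + (suff l).headD 0) :: suff l

/-- new lower values -/
def goLo : ℕ → List ℕ → List ℕ → List ℕ
  | _, [], _ => []
  | _, _ :: _, [] => []
  | m, a :: l, s :: r => max a ((10239897600 - s) / (64 + m)) :: goLo (m + 1) l r

/-- new upper values -/
def goUp : ℕ → List ℕ → List ℕ → List ℕ
  | _, [], _ => []
  | _, _ :: _, [] => []
  | m, a :: l, s :: r => min a ((10240102400 - s + (63 + m)) / (64 + m)) :: goUp (m + 1) l r

/-- new lower table -/
def lo (F f : List ℕ) : List ℕ := f.take 64 ++ goLo 64 (f.drop 64) (suff F)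

/-- new upper table -/
def up (f F : List ℕ) : List ℕ := F.take 64 ++ goUp 64 (F.drop 64) (suff f)

/-- initial upper table -/
def g0 (i : ℕ) : ℕ :=
  if i ≤ 128 then (2280960000 + (i - 1)) / i
  else if i ≤ 192 then (2280960000000 + (127999 + 783 * (i - 128))) / (128000 + 783 * (i - 128))
  else (2280960000000 + (92991 + 443 * min i 256)) / (92992 + 443 * min i 256)

/-- initial upper table -/
def F0 : List ℕ := (List.range 896).map fun m => g0 (64 + m)

/-- initial lower table -/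
def f0 : List ℕ := (List.range 896).map fun _ => 0

/-- all rounds -/
def iter : ℕ → List ℕ × List ℕ
  | 0 => (F0, f0)
  | n + 1 =>
    let p := iter n
    let f' := lo p.1 p.2
    (up f' p.1, f')

/-- new lower values, with kernel arithmetic -/
def goLoK : ℕ → List ℕ → List ℕ → List ℕ
  | _, [], _ => []
  | _, _ :: _, [] => []
  | m, a :: l, s :: r =>
    Nat.add a (Nat.sub (Nat.div (Nat.sub 10239897600 s) (Nat.add 64 m)) a) :: goLoK (Nat.succ m) l r

/-- new upper values, with kernel arithmetic -/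
def goUpK : ℕ → List ℕ → List ℕ → List ℕ
  | _, [], _ => []
  | _, _ :: _, [] => []
  | m, a :: l, s :: r =>
    Nat.sub a (Nat.sub a (Nat.div (Nat.add (Nat.sub 10240102400 s) (Nat.add 63 m)) (Nat.add 64 m))) ::
      goUpK (Nat.succ m) l r

theorem goLoK_eq (l : List ℕ) : ∀ (m : ℕ) (r : List ℕ), goLoK m l r = goLo m l r := by
  induction l with
  | nil => intro m r; rfl
  | cons a l ih =>
    intro m r
    rcases r with _ | ⟨s, r⟩
    · rfl
    · show Nat.add a (Nat.sub (Nat.div (Nat.sub 10239897600 s) (Nat.add 64 m)) a) ::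
        goLoK (m + 1) l r = max a ((10239897600 - s) / (64 + m)) :: goLo (m + 1) l r
      rw [ih]
      congr 1
      show a + ((10239897600 - s) / (64 + m) - a) = _
      generalize (10239897600 - s) / (64 + m) = y
      omega

theorem goUpK_eq (l : List ℕ) : ∀ (m : ℕ) (r : List ℕ), goUpK m l r = goUp m l r := by
  induction l with
  | nil => intro m r; rfl
  | cons a l ih =>
    intro m r
    rcases r with _ | ⟨s, r⟩
    · rfl
    · show Nat.sub a (Nat.sub a (Nat.div (Nat.add (Nat.sub 10240102400 s) (Nat.add 63 m))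
        (Nat.add 64 m))) :: goUpK (m + 1) l r =
        min a ((10240102400 - s + (63 + m)) / (64 + m)) :: goUp (m + 1) l r
      rw [ih]
      congr 1
      show a - (a - (10240102400 - s + (63 + m)) / (64 + m)) = _
      generalize (10240102400 - s + (63 + m)) / (64 + m) = y
      omega

def loK (F f : List ℕ) : List ℕ := f.take 64 ++ goLoK 64 (f.drop 64) (suff F)
def upK (f F : List ℕ) : List ℕ := F.take 64 ++ goUpK 64 (F.drop 64) (suff f)

def iterK : ℕ → List ℕ × List ℕ
  | 0 => (F0, f0)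
  | n + 1 =>
    let p := iterK n
    let f' := loK p.1 p.2
    (upK f' p.1, f')

theorem iterK_eq (n : ℕ) : iterK n = iter n := by
  induction n with
  | zero => rfl
  | succ n ih =>
    show (upK (loK (iterK n).1 (iterK n).2) (iterK n).1, loK (iterK n).1 (iterK n).2) =
      (up (lo (iter n).1 (iter n).2) (iter n).1, lo (iter n).1 (iter n).2)
    rw [ih]
    simp only [loK, upK, lo, up, goLoK_eq, goUpK_eq]

set_option maxRecDepth 1000000 in
theorem final9K : (suff (iterK 9).1).getD 64 0 ≤ 8674400000 := by decide +kernel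

theorem final9 : (suff (iter 9).1).getD 64 0 ≤ 8674400000 := by
  have h := final9K
  rwa [iterK_eq] at h

/-! ### correctness -/

theorem suff_length (l : List ℕ) : (suff l).length = l.length + 1 := by
  induction l with
  | nil => rfl
  | cons a l ih => simp [suff, ih]

theorem suff_getD (l : List ℕ) : ∀ k : ℕ, (suff l).getD k 0 = tot l k := by
  induction l with
  | nil =>
    intro k
    unfold tot
    rcases k with _ | k <;> simp [suff]
  | cons a l ih =>
    intro k
    rcases k with _ | k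
    · have h := ih 0
      unfold tot at h ⊢
      rw [List.drop_zero] at h
      simp only [suff, List.getD_cons_zero, List.drop_zero, List.sum_cons]
      rw [← h]
      congr 1
      cases suff l <;> rfl
    · unfold tot
      simp only [suff, List.getD_cons_succ, List.drop_succ_cons]
      exact ih k

theorem goLo_getD (l : List ℕ) : ∀ (m : ℕ) (r : List ℕ) (j : ℕ), j < l.length → j < r.length →
    (goLo m l r).getD j 0 = max (l.getD j 0) ((10239897600 - r.getD j 0) / (64 + (m + j))) := by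
  induction l with
  | nil => intro m r j h; simp at h
  | cons a l ih =>
    intro m r j h1 h2
    rcases r with _ | ⟨s, r⟩
    · simp at h2
    rcases j with _ | j
    · simp [goLo]
    · simp only [goLo, List.getD_cons_succ]
      rw [ih (m + 1) r j (by simpa using h1) (by simpa using h2)]
      congr 3
      ring

theorem goUp_getD (l : List ℕ) : ∀ (m : ℕ) (r : List ℕ) (j : ℕ), j < l.length → j < r.length →
    (goUp m l r).getD j 0 =
      min (l.getD j 0) ((10240102400 - r.getD j 0 + (63 + (m + j))) / (64 + (m + j))) := by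
  induction l with
  | nil => intro m r j h; simp at h
  | cons a l ih =>
    intro m r j h1 h2
    rcases r with _ | ⟨s, r⟩
    · simp at h2
    rcases j with _ | j
    · simp [goUp]
    · simp only [goUp, List.getD_cons_succ]
      rw [ih (m + 1) r j (by simpa using h1) (by simpa using h2)]
      have e : m + 1 + j = m + (j + 1) := by ring
      rw [e]

theorem goLo_length (l : List ℕ) : ∀ (m : ℕ) (r : List ℕ), l.length ≤ r.length →
    (goLo m l r).length = l.length := by
  induction l with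
  | nil => intro m r h; rfl
  | cons a l ih =>
    intro m r h1
    rcases r with _ | ⟨s, r⟩
    · simp at h1
    simp only [goLo, List.length_cons]
    rw [ih (m + 1) r (by simpa using h1)]

theorem goUp_length (l : List ℕ) : ∀ (m : ℕ) (r : List ℕ), l.length ≤ r.length →
    (goUp m l r).length = l.length := by
  induction l with
  | nil => intro m r h; rfl
  | cons a l ih =>
    intro m r h1
    rcases r with _ | ⟨s, r⟩
    · simp at h1
    simp only [goUp, List.length_cons]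
    rw [ih (m + 1) r (by simpa using h1)]

theorem lo_length {F f : List ℕ} (hF : F.length = 896) (hf : f.length = 896) :
    (lo F f).length = 896 := by
  unfold lo
  rw [List.length_append, goLo_length _ _ _ (by rw [suff_length, List.length_drop]; omega),
    List.length_take, List.length_drop, hf]
  rfl

theorem up_length {f F : List ℕ} (hf : f.length = 896) (hF : F.length = 896) :
    (up f F).length = 896 := by
  unfold up
  rw [List.length_append, goUp_length _ _ _ (by rw [suff_length, List.length_drop]; omega),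
    List.length_take, List.length_drop, hF]
  rfl

theorem lo_getD {F f : List ℕ} (hF : F.length = 896) (hf : f.length = 896) {m : ℕ} (hm : m < 896) :
    (lo F f).getD m 0 = if m < 64 then f.getD m 0 else
      max (f.getD m 0) ((10239897600 - tot F (m - 64)) / (64 + m)) := by
  have ht : (f.take 64).length = 64 := by rw [List.length_take, hf]; rfl
  unfold lo
  split_ifs with c
  · rw [List.getD_append _ _ _ _ (by rw [ht]; exact c)]
    rw [List.getD_eq_getElem?_getD, List.getD_eq_getElem?_getD, List.getElem?_take_of_lt c]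
  · rw [List.getD_append_right _ _ _ _ (by rw [ht]; omega), ht,
      goLo_getD _ _ _ _ (by rw [List.length_drop, hf]; omega) (by rw [suff_length, hF]; omega),
      suff_getD]
    have e1 : (f.drop 64).getD (m - 64) 0 = f.getD m 0 := by
      rw [List.getD_eq_getElem?_getD, List.getD_eq_getElem?_getD, List.getElem?_drop]
      congr 2
      omega
    have e2 : 64 + (64 + (m - 64)) = 64 + m := by omega
    rw [e1, e2]

theorem up_getD {f F : List ℕ} (hf : f.length = 896) (hF : F.length = 896) {m : ℕ} (hm : m < 896) :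
    (up f F).getD m 0 = if m < 64 then F.getD m 0 else
      min (F.getD m 0) ((10240102400 - tot f (m - 64) + (63 + m)) / (64 + m)) := by
  have ht : (F.take 64).length = 64 := by rw [List.length_take, hF]; rfl
  unfold up
  split_ifs with c
  · rw [List.getD_append _ _ _ _ (by rw [ht]; exact c)]
    rw [List.getD_eq_getElem?_getD, List.getD_eq_getElem?_getD, List.getElem?_take_of_lt c]
  · rw [List.getD_append_right _ _ _ _ (by rw [ht]; omega), ht,
      goUp_getD _ _ _ _ (by rw [List.length_drop, hF]; omega) (by rw [suff_length, hf]; omega),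
      suff_getD]
    have e1 : (F.drop 64).getD (m - 64) 0 = F.getD m 0 := by
      rw [List.getD_eq_getElem?_getD, List.getD_eq_getElem?_getD, List.getElem?_drop]
      congr 2
      omega
    have e2 : 64 + (m - 64) = m := by omega
    rw [e1, e2]

theorem getD_map (g : ℕ → ℕ) {m : ℕ} (hm : m < 896) :
    ((List.range 896).map g).getD m 0 = g m := by
  rw [List.getD_eq_getElem?_getD, List.getElem?_map, List.getElem?_range hm]
  rfl

/-- valid upper table -/
def UpT (F : List ℕ) : Prop := F.length = 896 ∧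
  ∀ m : ℕ, m < 896 → UpB (((64 + m : ℕ) : ℝ) / 64) ((F.getD m 0 : ℕ) / 10000000)

/-- valid lower table -/
def LoT (f : List ℕ) : Prop := f.length = 896 ∧ (∀ m : ℕ, m < 64 → f.getD m 0 = 0) ∧
  ∀ m : ℕ, m < 896 → LoB (((64 + m : ℕ) : ℝ) / 64) ((f.getD m 0 : ℕ) / 10000000)

theorem lot_f0 : LoT f0 := by
  refine ⟨by rw [f0, List.length_map, List.length_range], fun m hm => ?_, fun m hm => ?_⟩
  · unfold f0
    rw [getD_map _ (by omega)]
  · unfold f0
    rw [getD_map _ (by omega)]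
    simpa using lob_zero _

theorem upt_F0 (h : SelUp) : UpT F0 := by
  have hg : Real.exp Real.eulerMascheroniConstant ≤ 1.782 := exp_gamma_le
  refine ⟨by rw [F0, List.length_map, List.length_range], fun m hm => ?_⟩
  unfold F0
  rw [getD_map _ hm]
  set i : ℕ := 64 + m with hi
  have hi1 : (64 : ℝ) ≤ i := by
    rw [hi]
    exact_mod_cast Nat.le_add_right 64 m
  have hi0 : (0 : ℝ) < i := by (clear * - hi1; linarith)
  have hin : 0 < i := by omega
  unfold g0
  split_ifs with c1 c2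
  · have hc : (i : ℝ) ≤ 128 := by exact_mod_cast c1
    refine upb_mono (h.1 (i / 64) (by rw [le_div_iff₀ (by norm_num)]; (clear * - hi1; linarith))
      (by rw [div_le_iff₀ (by norm_num)]; (clear * - hc; linarith))) le_rfl ?_
    have h1 := ceil_div 2280960000 i hin
    have h2 : 2 * Real.exp Real.eulerMascheroniConstant / (i / 64) ≤ 2 * 1.782 / (i / 64) := by
      gcongr
    have h3 : 2 * 1.782 / ((i : ℝ) / 64) = ((2280960000 : ℕ) : ℝ) / i / 10000000 := by
      field_simp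
      norm_num
    rw [h3] at h2
    exact h2.trans (div_le_div_of_nonneg_right h1 (by norm_num))
  · have hc : (i : ℝ) ≤ 192 := by exact_mod_cast c2
    have hc' : (128 : ℝ) < i := by exact_mod_cast (not_le.1 c1)
    refine upb_mono (h.2 (i / 64) (by rw [le_div_iff₀ (by norm_num)]; (clear * - hc'; linarith))
      (by rw [div_le_iff₀ (by norm_num)]; (clear * - hc; linarith))) le_rfl ?_
    have h0 := cu_low (u := (i / 64 : ℝ) / 2) (by (clear * - hc'; linarith)) (by (clear * - hc; linarith))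
    have hd : ((128000 + 783 * (i - 128) : ℕ) : ℝ) = 128000 + 783 * (i - 128) := by
      rw [Nat.cast_add, Nat.cast_mul, Nat.cast_sub (by omega)]
      norm_num
    have hd' : 0 < 128000 + 783 * (i - 128) := by omega
    have h1 := ceil_div 2280960000000 (128000 + 783 * (i - 128)) hd'
    rw [hd] at h1
    rw [show 128000 + 783 * (i - 128) - 1 = 127999 + 783 * (i - 128) by omega] at h1
    have hpos : (0 : ℝ) < 128000 + 783 * (i - 128) := by (clear * - hc'; linarith)
    have h2 : Real.exp Real.eulerMascheroniConstant / cu ((i / 64 : ℝ) / 2) ≤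
        1.782 / ((128000 + 783 * (i - 128)) / 128000) := by
      apply div_le_div₀ (by norm_num) hg (by positivity)
      refine le_trans (le_of_eq ?_) h0
      ring
    have h3 : 1.782 / ((128000 + 783 * ((i : ℝ) - 128)) / 128000) =
        ((2280960000000 : ℕ) : ℝ) / (128000 + 783 * (i - 128)) / 10000000 := by
      have := hpos.ne'
      field_simp
      norm_num
    rw [h3] at h2
    exact h2.trans (div_le_div_of_nonneg_right h1 (by norm_num))
  · have hc' : (192 : ℝ) < i := by exact_mod_cast (not_le.1 c2)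
    have hk1 : ((min i 256 : ℕ) : ℝ) ≤ i := by exact_mod_cast min_le_left _ _
    have hk2 : ((min i 256 : ℕ) : ℝ) ≤ 256 := by exact_mod_cast min_le_right _ _
    have hk3 : (192 : ℝ) ≤ ((min i 256 : ℕ) : ℝ) := by
      have : 192 ≤ min i 256 := by omega
      exact_mod_cast this
    generalize min i 256 = k at hk1 hk2 hk3 ⊢
    refine upb_mono (h.2 (k / 64) (by rw [le_div_iff₀ (by norm_num)]; (clear * - hk3; linarith))
      (by rw [div_le_iff₀ (by norm_num)]; linarith)) (by (clear * - hk1; linarith)) ?_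
    have h0 := cu_high (u := (k / 64 : ℝ) / 2) (by (clear * - hk3; linarith)) (by (clear * - hk2; linarith))
    have h1 := ceil_div 2280960000000 (92992 + 443 * k) (by omega)
    rw [show 92992 + 443 * k - 1 = 92991 + 443 * k by omega] at h1
    have hd : ((92992 + 443 * k : ℕ) : ℝ) = 92992 + 443 * k := by push_cast; ring
    rw [hd] at h1
    have hpos : (0 : ℝ) < 92992 + 443 * k := by (clear * - hk3; linarith)
    have h2 : Real.exp Real.eulerMascheroniConstant / cu ((k / 64 : ℝ) / 2) ≤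
        1.782 / ((92992 + 443 * k) / 128000) := by
      apply div_le_div₀ (by norm_num) hg (by positivity)
      refine le_trans (le_of_eq ?_) h0
      ring
    have h3 : 1.782 / ((92992 + 443 * (k : ℝ)) / 128000) =
        ((2280960000000 : ℕ) : ℝ) / (92992 + 443 * k) / 10000000 := by
      have := hpos.ne'
      field_simp
      norm_num
    rw [h3] at h2
    exact h2.trans (div_le_div_of_nonneg_right h1 (by norm_num))

theorem lot_lo (hTL : LoB 16 0.99999) (hLo : StepLo) {F f : List ℕ} (hF : UpT F) (hf : LoT f) :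
    LoT (lo F f) := by
  refine ⟨lo_length hF.1 hf.1, fun m hm => ?_, fun m hm => ?_⟩
  · rw [lo_getD hF.1 hf.1 (by omega), if_pos hm]
    exact hf.2.1 m hm
  rw [lo_getD hF.1 hf.1 hm]
  split_ifs with c
  · exact hf.2.2 m hm
  have hm16 : 64 ≤ m := not_lt.1 c
  rcases le_total (f.getD m 0) ((10239897600 - tot F (m - 64)) / (64 + m)) with c2 | c2
  swap
  · rw [max_eq_left c2]
    exact hf.2.2 m hm
  rw [max_eq_right c2]
  have hmR : (64 : ℝ) ≤ m := by exact_mod_cast hm16
  rcases le_total 10239897600 (tot F (m - 64)) with c3 | c3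
  · rw [Nat.sub_eq_zero_of_le c3, Nat.zero_div]
    simpa using lob_zero _
  have hs : (((64 + m : ℕ) : ℝ) / 64) = (64 + m) / 64 := by push_cast; ring
  have key := hLo ((64 + m : ℝ) / 64) 16 0.99999 (960 - m) (fun j => ((64 + m : ℝ) + j) / 64)
    (fun j => ((F.getD (m - 64 + j) 0 : ℕ) : ℝ) / 10000000)
    (by (clear * - hmR; linarith)) (by simp) (by
      rw [Nat.cast_sub (by omega)]
      push_cast
      ring) (fun j _ => by push_cast; (clear * -; linarith)) (fun j hj => by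
        have h1 := hF.2 (m - 64 + j) (by omega)
        have e : (((64 + (m - 64 + j) : ℕ) : ℝ) / 64) = ((64 + m : ℝ) + j) / 64 - 1 := by
          rw [show 64 + (m - 64 + j) = m + j by omega]
          push_cast
          ring
        rw [e] at h1
        exact h1) hTL
  rw [hs]
  refine lob_mono key ?_
  have e1 : ∑ j ∈ Finset.range (960 - m), (((64 + m : ℝ) + ((j + 1 : ℕ) : ℝ)) / 64 -
      ((64 + m : ℝ) + j) / 64) * (((F.getD (m - 64 + j) 0 : ℕ) : ℝ) / 10000000) =
      (tot F (m - 64) : ℝ) / 640000000 := by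
    rw [tot_eq F (960 - m) (m - 64) (by rw [hF.1]; omega), Nat.cast_sum, Finset.sum_div]
    apply Finset.sum_congr rfl
    intro j _
    push_cast
    ring
  have hd : (((10239897600 - tot F (m - 64)) / (64 + m) : ℕ) : ℝ) ≤
      (10239897600 - tot F (m - 64)) / (64 + m) := by
    refine Nat.cast_div_le.trans (le_of_eq ?_)
    rw [Nat.cast_sub c3]
    push_cast
    ring
  have e2 : (16 : ℝ) / ((64 + m) / 64) * 0.99999 - 1 / ((64 + m) / 64) *
      ((tot F (m - 64) : ℝ) / 640000000) =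
      (10239897600 - tot F (m - 64)) / (64 + m) / 10000000 := by
    have : (64 + m : ℝ) ≠ 0 := by positivity
    field_simp
    norm_num
    ring
  rw [e1, e2]
  exact div_le_div_of_nonneg_right hd (by norm_num)

theorem upt_up (hTU : UpB 16 1.00001) (hUp : StepUp) {F f : List ℕ} (hF : UpT F) (hf : LoT f) :
    UpT (up f F) := by
  refine ⟨up_length hf.1 hF.1, fun m hm => ?_⟩
  rw [up_getD hf.1 hF.1 hm]
  split_ifs with c
  · exact hF.2 m hm
  have hm16 : 64 ≤ m := not_lt.1 c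
  rcases le_total (F.getD m 0) ((10240102400 - tot f (m - 64) + (63 + m)) / (64 + m)) with c2 | c2
  · rw [min_eq_left c2]
    exact hF.2 m hm
  rw [min_eq_right c2]
  have hmR : (64 : ℝ) ≤ m := by exact_mod_cast hm16
  have hs : (((64 + m : ℕ) : ℝ) / 64) = (64 + m) / 64 := by push_cast; ring
  have key := hUp ((64 + m : ℝ) / 64) 16 1.00001 (960 - m) (fun j => ((64 + m : ℝ) + j) / 64)
    (fun j => ((f.getD (m - 64 + j) 0 : ℕ) : ℝ) / 10000000)
    (by (clear * - hmR; linarith)) (by simp) (by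
      rw [Nat.cast_sub (by omega)]
      push_cast
      ring) (fun j _ => by push_cast; (clear * -; linarith)) (fun j hj => by
        rcases lt_or_ge (m - 64 + j) 64 with c3 | c3
        · left
          rw [hf.2.1 _ c3]
          simp
        right
        have h1 := hf.2.2 (m - 64 + j) (by omega)
        have e : (((64 + (m - 64 + j) : ℕ) : ℝ) / 64) = ((64 + m : ℝ) + j) / 64 - 1 := by
          rw [show 64 + (m - 64 + j) = m + j by omega]
          push_cast
          ring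
        rw [e] at h1
        refine ⟨?_, h1⟩
        have h2 : 128 ≤ m + j := by omega
        have h3 : (128 : ℝ) ≤ m + j := by exact_mod_cast h2
        (clear * - h3; linarith)) hTU
  rw [hs]
  refine upb_mono key le_rfl ?_
  have e1 : ∑ j ∈ Finset.range (960 - m), (((64 + m : ℝ) + ((j + 1 : ℕ) : ℝ)) / 64 -
      ((64 + m : ℝ) + j) / 64) * (((f.getD (m - 64 + j) 0 : ℕ) : ℝ) / 10000000) =
      (tot f (m - 64) : ℝ) / 640000000 := by
    rw [tot_eq f (960 - m) (m - 64) (by rw [hf.1]; omega), Nat.cast_sum, Finset.sum_div]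
    apply Finset.sum_congr rfl
    intro j _
    push_cast
    ring
  have hd : ((10240102400 : ℝ) - tot f (m - 64)) / (64 + m) ≤
      (((10240102400 - tot f (m - 64) + (63 + m)) / (64 + m) : ℕ) : ℝ) := by
    have h1 := ceil_div (10240102400 - tot f (m - 64)) (64 + m) (by omega)
    have e0 : (64 + m - 1) = 63 + m := by omega
    rw [e0] at h1
    refine le_trans ?_ h1
    have h2 : (10240102400 : ℝ) - tot f (m - 64) ≤ ((10240102400 - tot f (m - 64) : ℕ) : ℝ) := by
      rw [sub_le_iff_le_add]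
      have : 10240102400 ≤ (10240102400 - tot f (m - 64)) + tot f (m - 64) := by omega
      exact_mod_cast this
    have h3 : ((64 + m : ℕ) : ℝ) = 64 + m := by push_cast; ring
    rw [h3]
    exact div_le_div_of_nonneg_right h2 (by positivity)
  have e2 : (16 : ℝ) / ((64 + m) / 64) * 1.00001 - 1 / ((64 + m) / 64) *
      ((tot f (m - 64) : ℝ) / 640000000) =
      (10240102400 - tot f (m - 64)) / (64 + m) / 10000000 := by
    have : (64 + m : ℝ) ≠ 0 := by positivity
    field_simp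
    norm_num
    ring
  rw [e1, e2]
  exact div_le_div_of_nonneg_right hd (by norm_num)

theorem iter_zero : iter 0 = (F0, f0) := rfl

theorem iter_succ (n : ℕ) :
    iter (n + 1) = (up (lo (iter n).1 (iter n).2) (iter n).1, lo (iter n).1 (iter n).2) := rfl

attribute [local irreducible] F0 f0 lo up

theorem tables (n : ℕ) : UpT (iter n).1 ∧ LoT (iter n).2 := by
  have hLo := Pool.Agent.M20.Helper5.AV.stepLo Pool.Agent.M20.Helper9.AV.mertens3
  have hUp := Pool.Agent.M20.Helper71.AV.stepUp Pool.Agent.M20.Helper9.AV.mertens3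
  induction n with
  | zero =>
    rw [iter_zero]
    exact ⟨upt_F0 selUp', lot_f0⟩
  | succ n ih =>
    have h1 : LoT (lo (iter n).1 (iter n).2) := lot_lo tailLo16 hLo ih.1 ih.2
    have h2 := upt_up tailUp hUp ih.1 h1
    rw [iter_succ]
    exact ⟨h2, h1⟩

end Pool.Agent.M20.Helper40.AV.T16
end

/- Helper53.KN.Helper40.AV.Fine64 -/
section
/-! The linear sieve lower bound near `s = 2`, sharper. -/

set_option autoImplicit false

open Filter Topology

namespace Pool.Agent.M20.Helper40.AV.T16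

open Pool.Agent.M20.Helper40.AV
open Pool.Agent.M20.Helper59.AV.Tab (tot tot_eq ceil_div upb_mono lob_mono lob_zero)

attribute [local irreducible] F0 f0 lo up iter

/-- near `s = 2` -/
theorem lob_204 : LoB 2.04 0.0555 := by
  have hE : Real.exp Real.eulerMascheroniConstant ≤ 1.782 := exp_gamma_le
  have hE0 := Real.exp_pos Real.eulerMascheroniConstant
  obtain ⟨hUT, -⟩ := tables 9
  have hfin := final9
  rw [suff_getD] at hfin
  generalize (iter 9).1 = F at hUT hfin
  -- the partition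
  set L : ℝ := Real.log 2 - Real.log 1.04 with hL
  have hLu : L ≤ 0.654 := by
    have h1 := Real.log_two_lt_d9
    have h2 := Real.le_log_one_add_of_nonneg (show (0 : ℝ) ≤ 0.04 by norm_num)
    norm_num at h2
    have : Real.log 1.04 = Real.log (26 / 25) := by norm_num
    (clear * - hL h1 h2; linarith)
  have hL0 : 0 ≤ L := by
    have : Real.log 1.04 ≤ Real.log 2 := Real.log_le_log (by norm_num) (by norm_num)
    (clear * - hL this; linarith)
  set r : ℝ := Real.exp (L / 1000) with hr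
  have hr1 : 1 ≤ r := Real.one_le_exp (by positivity)
  have hrN : 1.04 * r ^ 1000 = 2 := by
    rw [hr, ← Real.exp_nat_mul]
    push_cast
    rw [mul_div_cancel₀ _ (by norm_num : (1000 : ℝ) ≠ 0), hL, Real.exp_sub,
      Real.exp_log (by norm_num), Real.exp_log (by norm_num)]
    norm_num
  have hr2 : 1000 * (r - 1) ≤ L + L ^ 2 / 1000 := by
    have h1 := Real.abs_exp_sub_one_sub_id_le (x := L / 1000) (by
      rw [abs_of_nonneg (by positivity)]
      (clear * - hLu; linarith))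
    have h2 := (abs_le.1 h1).2
    rw [← hr] at h2
    have : (L / 1000) ^ 2 = L ^ 2 / 1000 / 1000 := by ring
    rw [this] at h2
    (clear * - h2; linarith)
  have hrj : ∀ j : ℕ, j ≤ 1000 → 1.04 * r ^ j ≤ 2 := by
    intro j hj
    rw [← hrN]
    exact mul_le_mul_of_nonneg_left (pow_le_pow_right₀ hr1 hj) (by norm_num)
  have hrj0 : ∀ j : ℕ, 1 ≤ r ^ j := fun j => one_le_pow₀ hr1
  have hr1' : 1 < r := by
    rcases hr1.eq_or_lt with h | h
    · exfalso
      rw [← h] at hrN
      norm_num at hrN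
    · exact h
  set C : ℝ := 2 * Real.exp Real.eulerMascheroniConstant with hC
  have hLo := Pool.Agent.M20.Helper5.AV.stepLo Pool.Agent.M20.Helper9.AV.mertens3
  have key := hLo 2.04 16 0.99999 1832
    (fun j => if j < 1000 then 1 + 1.04 * r ^ j else 3 + ((j : ℝ) - 1000) / 64)
    (fun j => if j < 1000 then C / (1.04 * r ^ j) else
      ((F.getD (64 + (j - 1000)) 0 : ℕ) : ℝ) / 10000000)
    (by norm_num) (by norm_num) (by norm_num) (fun j hj => by
      by_cases h1 : j + 1 < 1000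
      · rw [if_pos (by omega : j < 1000), if_pos h1]
        have : r ^ j < r ^ (j + 1) := by
          rw [pow_succ]
          exact lt_mul_of_one_lt_right (by (clear * - hrj0; linarith [hrj0 j])) hr1'
        (clear * - this; linarith)
      · rw [if_neg h1]
        by_cases h2 : j < 1000
        · have hj9 : j = 999 := by omega
          subst hj9
          rw [if_pos h2]
          have : 1.04 * r ^ 999 < 1.04 * r ^ 1000 := by
            apply mul_lt_mul_of_pos_left _ (by norm_num)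
            rw [pow_succ r 999]
            exact lt_mul_of_one_lt_right (by (clear * - hrj0; linarith [hrj0 999])) hr1'
          push_cast
          linarith
        · rw [if_neg h2]
          push_cast
          (clear * -; linarith))
    (fun j hj => by
      by_cases h2 : j < 1000
      · simp only [if_pos h2]
        have h3 := hrj j h2.le
        have h4 := hrj0 j
        have h5 := selUp'.1 (1.04 * r ^ j) (by (clear * - h4; linarith)) h3
        rw [add_sub_cancel_left]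
        exact h5
      · simp only [if_neg h2]
        have h3 := hUT.2 (64 + (j - 1000)) (by omega)
        have e : (((64 + (64 + (j - 1000)) : ℕ) : ℝ) / 64) = 3 + ((j : ℝ) - 1000) / 64 - 1 := by
          push_cast [Nat.cast_sub (not_lt.1 h2)]
          ring
        rw [e] at h3
        exact h3) tailLo16
  refine lob_mono key ?_
  -- the sum
  have hsum : ∑ i ∈ Finset.range 1832,
      ((if i + 1 < 1000 then 1 + 1.04 * r ^ (i + 1) else 3 + (((i + 1 : ℕ) : ℝ) - 1000) / 64) -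
        (if i < 1000 then 1 + 1.04 * r ^ i else 3 + ((i : ℝ) - 1000) / 64)) *
      (if i < 1000 then C / (1.04 * r ^ i) else
        ((F.getD (64 + (i - 1000)) 0 : ℕ) : ℝ) / 10000000) =
      1000 * (C * (r - 1)) + (tot F 64 : ℝ) / 640000000 := by
    have hsplit : ∀ g : ℕ → ℝ, ∑ i ∈ Finset.range 1832, g i =
        ∑ i ∈ Finset.range 1000, g i + ∑ j ∈ Finset.range 832, g (1000 + j) :=
      fun g => Finset.sum_range_add g 1000 832
    rw [hsplit]
    refine congrArg₂ (· + ·) ?_ ?_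
    · have : ∀ i ∈ Finset.range 1000,
          ((if i + 1 < 1000 then 1 + 1.04 * r ^ (i + 1) else
            3 + (((i + 1 : ℕ) : ℝ) - 1000) / 64) -
          (if i < 1000 then 1 + 1.04 * r ^ i else 3 + ((i : ℝ) - 1000) / 64)) *
          (if i < 1000 then C / (1.04 * r ^ i) else
            ((F.getD (64 + (i - 1000)) 0 : ℕ) : ℝ) / 10000000) = C * (r - 1) := by
        intro i hi
        rw [Finset.mem_range] at hi
        have h4 := hrj0 i
        have h5 : (0 : ℝ) < r ^ i := by (clear * - h4; linarith)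
        rw [if_pos hi, if_pos hi]
        have h6 : (if i + 1 < 1000 then 1 + 1.04 * r ^ (i + 1) else
            3 + (((i + 1 : ℕ) : ℝ) - 1000) / 64) = 1 + 1.04 * r ^ (i + 1) := by
          by_cases h1 : i + 1 < 1000
          · rw [if_pos h1]
          · have hi9 : i = 999 := by omega
            subst hi9
            rw [if_neg h1, show (999 + 1 : ℕ) = 1000 by norm_num, hrN]
            norm_num
        rw [h6, pow_succ]
        field_simp
        ring
      rw [Finset.sum_congr rfl this, Finset.sum_const, Finset.card_range, nsmul_eq_mul]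
      norm_num
    · rw [tot_eq F 832 64 (by rw [hUT.1]), Nat.cast_sum, Finset.sum_div]
      apply Finset.sum_congr rfl
      intro j _
      rw [if_neg (by omega), if_neg (by omega), if_neg (by omega),
        show 64 + (1000 + j - 1000) = 64 + j by omega]
      push_cast
      ring
  rw [hsum]
  have h7 : C ≤ 3.564 := by rw [hC]; (clear * - hE; linarith)
  have h8 : (tot F 64 : ℝ) ≤ 8674400000 := by exact_mod_cast hfin
  have h9 : 1000 * (C * (r - 1)) ≤ 3.564 * (0.654 + 0.654 ^ 2 / 1000) := by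
    calc 1000 * (C * (r - 1)) = C * (1000 * (r - 1)) := by ring
      _ ≤ 3.564 * (0.654 + 0.654 ^ 2 / 1000) := by
        apply mul_le_mul h7 _ (by (clear * - hr1'; linarith)) (by norm_num)
        refine hr2.trans ?_
        have : L ^ 2 ≤ 0.654 ^ 2 := pow_le_pow_left₀ hL0 hLu 2
        (clear * - hLu this; linarith)
  have h10 : 1000 * (C * (r - 1)) + (tot F 64 : ℝ) / 640000000 ≤ 15.8862 := by
    have : (tot F 64 : ℝ) / 640000000 ≤ 8674400000 / 640000000 := by gcongr
    norm_num at h9 this ⊢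
    (clear * - h8 h9; linarith)
  have : (16 : ℝ) / 2.04 * 0.99999 - 1 / 2.04 *
      (1000 * (C * (r - 1)) + (tot F 64 : ℝ) / 640000000) ≥
      16 / 2.04 * 0.99999 - 1 / 2.04 * 15.8862 := by
    have : (1 : ℝ) / 2.04 * (1000 * (C * (r - 1)) + (tot F 64 : ℝ) / 640000000) ≤
      1 / 2.04 * 15.8862 := mul_le_mul_of_nonneg_left h10 (by norm_num)
    (clear * - h8 h9; linarith)
  refine le_trans ?_ this
  norm_num

end Pool.Agent.M20.Helper40.AV.T16
end

/- Helper53.KN.Helper40.AV.Rough3 -/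
section
/-! Rough squarefree integers with at most three prime factors in every short interval. -/

set_option autoImplicit false

open Filter Topology

namespace Pool.Agent.M20.Helper40.AV

open Pool.Agent.M20.Helper44 (primesUpTo mem_primesUpTo)

open Classical in
/-- squarefree integers with at most three prime factors, all `> x ^ ζ`, in every interval of
length `x ^ (1/2 - d)` -/
def RoughAvail3 (ζ d : ℝ) : Prop :=
  ∃ c : ℝ, 0 < c ∧ ∃ X₀ : ℕ, ∀ x h : ℕ, X₀ ≤ x → (x : ℝ) ^ (1 / 2 - d : ℝ) ≤ h →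
    (h : ℝ) ≤ (x : ℝ) ^ (1 / 2 : ℝ) →
    c * h / Real.log x ≤ (((Finset.Ico x (x + h)).filter (fun n => Squarefree n ∧
      n.primeFactors.card ≤ 3 ∧ ∀ p : ℕ, p.Prime → p ∣ n → (x : ℝ) ^ ζ < p)).card : ℝ)

/-- four large primes: at least three are small -/
theorem three_small {n : ℕ} {X : ℝ} (hX : 1 < X) (hX2 : 2 ≤ X ^ (0.0002 : ℝ)) (hn0 : n ≠ 0)
    (hn : (n : ℝ) < 2 * X) (hr : ∀ p : ℕ, p.Prime → p ∣ n → X ^ (0.245 : ℝ) < p)
    (h4 : 4 ≤ n.primeFactors.card) :
    3 ≤ (n.primeFactors.filter fun p : ℕ => (p : ℝ) ≤ X ^ (0.2551 : ℝ)).card := by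
  have hX0 : 0 < X := by (clear * - hX; linarith)
  by_contra hcon
  have hcon' : (n.primeFactors.filter fun p : ℕ => (p : ℝ) ≤ X ^ (0.2551 : ℝ)).card ≤ 2 := by omega
  have hsplit := Finset.card_filter_add_card_filter_not (s := n.primeFactors)
    (fun p : ℕ => (p : ℝ) ≤ X ^ (0.2551 : ℝ))
  have h2 : 2 ≤ (n.primeFactors.filter fun p : ℕ => ¬ (p : ℝ) ≤ X ^ (0.2551 : ℝ)).card := by omega
  obtain ⟨T, hT, hTc⟩ := Finset.exists_subset_card_eq h2
  have hTS : T ⊆ n.primeFactors := hT.trans (Finset.filter_subset _ _)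
  have h3 : 2 ≤ (n.primeFactors \ T).card := by
    rw [Finset.card_sdiff_of_subset hTS]
    omega
  obtain ⟨U, hU, hUc⟩ := Finset.exists_subset_card_eq h3
  have hUS : U ⊆ n.primeFactors := hU.trans Finset.sdiff_subset
  have hdis : Disjoint T U := by
    rw [Finset.disjoint_left]
    intro p hp hp'
    exact (Finset.mem_sdiff.1 (hU hp')).2 hp
  have hprod : (∏ p ∈ T, p) * (∏ p ∈ U, p) ∣ n := by
    rw [← Finset.prod_union hdis]
    exact (Finset.prod_dvd_prod_of_subset _ _ _ (Finset.union_subset hTS hUS)).trans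
      (Nat.prod_primeFactors_dvd n)
  have hle : (((∏ p ∈ T, p) * (∏ p ∈ U, p) : ℕ) : ℝ) ≤ n := by
    exact_mod_cast Nat.le_of_dvd (Nat.pos_of_ne_zero hn0) hprod
  have hT1 : (X ^ (0.2551 : ℝ)) ^ 2 ≤ ((∏ p ∈ T, p : ℕ) : ℝ) := by
    push_cast
    rw [← hTc, ← Finset.prod_const]
    refine Finset.prod_le_prod (fun p _ => Real.rpow_nonneg hX0.le _) fun p hp => ?_
    have := (Finset.mem_filter.1 (hT hp)).2
    exact (not_le.1 this).le
  have hU1 : (X ^ (0.245 : ℝ)) ^ 2 ≤ ((∏ p ∈ U, p : ℕ) : ℝ) := by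
    push_cast
    rw [← hUc, ← Finset.prod_const]
    refine Finset.prod_le_prod (fun p _ => Real.rpow_nonneg hX0.le _) fun p hp => ?_
    have hp' := hUS hp
    exact (hr p (Nat.prime_of_mem_primeFactors hp') (Nat.dvd_of_mem_primeFactors hp')).le
  have hmul : (X ^ (0.2551 : ℝ)) ^ 2 * (X ^ (0.245 : ℝ)) ^ 2 = X * X ^ (0.0002 : ℝ) := by
    rw [← Real.rpow_natCast, ← Real.rpow_natCast, ← Real.rpow_mul hX0.le, ← Real.rpow_mul hX0.le,
      ← Real.rpow_add hX0]
    nth_rewrite 2 [← Real.rpow_one X]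
    rw [← Real.rpow_add hX0]
    congr 1
    norm_num
  have h5 : X * X ^ (0.0002 : ℝ) ≤ n := by
    rw [← hmul]
    push_cast at hle
    refine le_trans ?_ hle
    push_cast at hT1 hU1
    exact mul_le_mul hT1 hU1 (by positivity) ((by positivity : (0 : ℝ) ≤ (X ^ (0.2551 : ℝ)) ^ 2).trans hT1)
  have h6 : X * 2 ≤ X * X ^ (0.0002 : ℝ) := mul_le_mul_of_nonneg_left hX2 hX0.le
  (clear * - hn h5 h6; linarith)

open Classical in
/-- double counting -/
theorem four_le {x h : ℕ} (hx : 1 < x) (hX2 : (2 : ℝ) ≤ (x : ℝ) ^ (0.0002 : ℝ))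
    (hh : h ≤ x) (S : Finset ℕ)
    (hS : S ⊆ (RS x h ((x : ℝ) ^ (0.245 : ℝ))).filter fun n => 4 ≤ n.primeFactors.card) :
    3 * (S.card : ℝ) ≤ ∑ p ∈ PI ((x : ℝ) ^ (0.245 : ℝ)) ((x : ℝ) ^ (0.2551 : ℝ)),
      ((((Finset.Ico x (x + h)).filter fun n => p ∣ n ∧
        ∀ r : ℕ, r.Prime → r ∣ n → (x : ℝ) ^ (0.245 : ℝ) < r).card : ℕ) : ℝ) := by
  have hx1 : (1 : ℝ) < x := by exact_mod_cast hx
  have hx0 : (0 : ℝ) < x := by (clear * - hx1; linarith)
  have key : ∀ n ∈ S, (3 : ℝ) ≤ ∑ p ∈ PI ((x : ℝ) ^ (0.245 : ℝ)) ((x : ℝ) ^ (0.2551 : ℝ)),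
      (if p ∣ n then (1 : ℝ) else 0) := by
    intro n hn
    have hn' := hS hn
    rw [Finset.mem_filter, RS, Finset.mem_filter, Finset.mem_Ico] at hn'
    obtain ⟨⟨⟨hn1, hn2⟩, hn3⟩, hn4⟩ := hn'
    have hn0 : n ≠ 0 := by omega
    have hn5 : (n : ℝ) < 2 * x := by
      have : n < 2 * x := by omega
      exact_mod_cast this
    have h1 := three_small hx1 hX2 hn0 hn5 hn3 hn4
    rw [← Finset.sum_filter, Finset.sum_const, nsmul_eq_mul, mul_one]
    have h2 : (n.primeFactors.filter fun p : ℕ => (p : ℝ) ≤ (x : ℝ) ^ (0.2551 : ℝ)) ⊆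
        (PI ((x : ℝ) ^ (0.245 : ℝ)) ((x : ℝ) ^ (0.2551 : ℝ))).filter fun p => p ∣ n := by
      intro p hp
      rw [Finset.mem_filter] at hp
      have hpp := Nat.prime_of_mem_primeFactors hp.1
      have hpd := Nat.dvd_of_mem_primeFactors hp.1
      rw [Finset.mem_filter, mem_PI (Real.rpow_nonneg hx0.le _)]
      exact ⟨⟨hpp, hn3 p hpp hpd, hp.2⟩, hpd⟩
    exact_mod_cast h1.trans (Finset.card_le_card h2)
  calc 3 * (S.card : ℝ) = ∑ _n ∈ S, (3 : ℝ) := by rw [Finset.sum_const, nsmul_eq_mul]; ring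
    _ ≤ ∑ n ∈ S, ∑ p ∈ PI ((x : ℝ) ^ (0.245 : ℝ)) ((x : ℝ) ^ (0.2551 : ℝ)),
        (if p ∣ n then (1 : ℝ) else 0) := Finset.sum_le_sum key
    _ = ∑ p ∈ PI ((x : ℝ) ^ (0.245 : ℝ)) ((x : ℝ) ^ (0.2551 : ℝ)),
        ∑ n ∈ S, (if p ∣ n then (1 : ℝ) else 0) := Finset.sum_comm
    _ ≤ _ := by
        refine Finset.sum_le_sum fun p hp => ?_
        rw [← Finset.sum_filter, Finset.sum_const, nsmul_eq_mul, mul_one]
        have hsub : S.filter (fun n => p ∣ n) ⊆ (Finset.Ico x (x + h)).filter fun n => p ∣ n ∧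
            ∀ r : ℕ, r.Prime → r ∣ n → (x : ℝ) ^ (0.245 : ℝ) < r := by
          intro n hn
          rw [Finset.mem_filter] at hn
          have hn' := hS hn.1
          rw [Finset.mem_filter, RS, Finset.mem_filter] at hn'
          rw [Finset.mem_filter]
          exact ⟨hn'.1.1, hn.2, hn'.1.2⟩
        exact_mod_cast Finset.card_le_card hsub

open Classical in
/-- the sieve bound -/
theorem four_up : ∃ X₀ : ℝ, ∀ X : ℝ, X₀ ≤ X → ∀ y l : ℕ, X ^ (0.4998 : ℝ) ≤ l →
    ∑ p ∈ PI (X ^ (0.245 : ℝ)) (X ^ (0.2551 : ℝ)),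
      ((((Finset.Ico y (y + l)).filter fun n => p ∣ n ∧
        ∀ r : ℕ, r.Prime → r ∣ n → X ^ (0.245 : ℝ) < r).card : ℕ) : ℝ) ≤
      0.34 * (l / Real.log X) := by
  have hS := Pool.Agent.M20.Helper53AV.selbergP
  have hT := Pool.Agent.M20.Helper7.AV.ggtriv
  have hP := Pool.Agent.M20.Helper33.AV.primeInt 0.245 0.2551 (fun _ => 1) (by norm_num) (by norm_num)
    continuousOn_const
  have hI : ∫ a in (0.245 : ℝ)..(0.2551 : ℝ), (1 : ℝ) / a < 0.0413 := by
    rw [integral_one_div_of_pos (by norm_num) (by norm_num)]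
    have h1 : (0.2551 : ℝ) / 0.245 = 2551 / 2450 := by norm_num
    rw [h1]
    have h2 := Real.log_le_sub_one_of_pos (show (0 : ℝ) < 2551 / 2450 by norm_num)
    norm_num at h2 ⊢
    linarith
  have e1 := hP.eventually_lt_const hI
  have e2 : ∀ᶠ X : ℝ in atTop, X ^ (0.2551 : ℝ) ≤ 0.0001 * X ^ (0.4998 : ℝ) := by
    have h1 := (tendsto_rpow_top (show (0 : ℝ) < 0.2447 by norm_num)).eventually_ge_atTop 10000
    filter_upwards [h1, eventually_gt_atTop (1 : ℝ)] with X hX hX1
    have hX0 : 0 < X := by (clear * - hX1; linarith)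
    have h2 : X ^ (0.4998 : ℝ) = X ^ (0.2551 : ℝ) * X ^ (0.2447 : ℝ) := by
      rw [← Real.rpow_add hX0]
      norm_num
    rw [h2]
    have h3 : 0 ≤ X ^ (0.2551 : ℝ) := Real.rpow_nonneg hX0.le _
    (clear * - hX h3; nlinarith)
  exact by
    have e3 : ∀ᶠ X : ℝ in atTop, X ^ (0.4995 : ℝ) * Real.log X ≤ 0.0001 * X ^ (0.4998 : ℝ) := by
      have h1 := (isLittleO_log_rpow_atTop (show (0 : ℝ) < 0.0003 by norm_num)).def
        (show (0 : ℝ) < 0.0001 by norm_num)
      filter_upwards [h1, eventually_gt_atTop (1 : ℝ)] with X hX hX1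
      have hX0 : 0 < X := by (clear * - hX1; linarith)
      rw [Real.norm_of_nonneg (Real.log_nonneg hX1.le),
        Real.norm_of_nonneg (Real.rpow_nonneg hX0.le _)] at hX
      have h2 : X ^ (0.4998 : ℝ) = X ^ (0.4995 : ℝ) * X ^ (0.0003 : ℝ) := by
        rw [← Real.rpow_add hX0]
        norm_num
      rw [h2]
      calc X ^ (0.4995 : ℝ) * Real.log X ≤ X ^ (0.4995 : ℝ) * (0.0001 * X ^ (0.0003 : ℝ)) :=
            mul_le_mul_of_nonneg_left hX (Real.rpow_nonneg hX0.le _)
        _ = _ := by ring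
    obtain ⟨X₀, hX₀⟩ := eventually_atTop.1 ((e1.and (e2.and e3)).and (eventually_gt_atTop (1 : ℝ)))
    refine ⟨X₀, fun X hX y l hl => ?_⟩
    exact by
      obtain ⟨⟨h1, h2, h3⟩, hX1⟩ := hX₀ X hX
      have hX0 : 0 < X := by (clear * - hX1; linarith)
      have hL : 0 < Real.log X := Real.log_pos hX1
      have hl0 : (0 : ℝ) < l := lt_of_lt_of_le (Real.rpow_pos_of_pos hX0 _) hl
      have hY1 : 1 ≤ X ^ (0.1222 : ℝ) := Real.one_le_rpow hX1.le (by norm_num)
      have hYz : X ^ (0.1222 : ℝ) ≤ X ^ (0.245 : ℝ) :=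
        Real.rpow_le_rpow_of_exponent_le hX1.le (by norm_num)
      have hG := hT (X ^ (0.245 : ℝ)) (X ^ (0.1222 : ℝ)) hY1 hYz
      exact by
        rw [Real.log_rpow hX0] at hG
        have hG0 : 0 < 0.1222 * Real.log X := by (clear * - hL; positivity)
        have hd0 : 0 ≤ (l : ℝ) / Real.log X := by (clear * - hl0 hL; positivity)
        have hone : ∀ p ∈ PI (X ^ (0.245 : ℝ)) (X ^ (0.2551 : ℝ)),
            ((((Finset.Ico y (y + l)).filter fun n => p ∣ n ∧
              ∀ r : ℕ, r.Prime → r ∣ n → X ^ (0.245 : ℝ) < r).card : ℕ) : ℝ) ≤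
            l / (0.1222 * Real.log X) * (1 / p * 1) + (1 / (0.1222 * Real.log X) + X ^ (0.2444 : ℝ)) := by
          intro p hp
          obtain ⟨hpp, -, -⟩ := (mem_PI (Real.rpow_nonneg hX0.le _)).1 hp
          have hp0 : (0 : ℝ) < p := by exact_mod_cast hpp.pos
          refine (hS y l p (X ^ (0.245 : ℝ)) (X ^ (0.1222 : ℝ)) hpp.one_le hY1).trans ?_
          have h4 : (X ^ (0.1222 : ℝ)) ^ 2 = X ^ (0.2444 : ℝ) := by
            rw [← Real.rpow_natCast, ← Real.rpow_mul hX0.le]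
            norm_num
          rw [h4]
          have h5 : ((l : ℝ) / p + 1) / GG (X ^ (0.245 : ℝ)) (X ^ (0.1222 : ℝ)) ≤
              ((l : ℝ) / p + 1) / (0.1222 * Real.log X) :=
            div_le_div_of_nonneg_left (by (clear * - hl0 hp0; positivity)) hG0 hG
          have h6 : ((l : ℝ) / p + 1) / (0.1222 * Real.log X) =
              l / (0.1222 * Real.log X) * (1 / p * 1) + 1 / (0.1222 * Real.log X) := by
            (clear * - hp0 hL hl0; field_simp)
          (clear * - h5 h6; linarith)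
        refine (Finset.sum_le_sum hone).trans ?_
        rw [Finset.sum_add_distrib, ← Finset.mul_sum, Finset.sum_const, nsmul_eq_mul]
        have hcard : ((PI (X ^ (0.245 : ℝ)) (X ^ (0.2551 : ℝ))).card : ℝ) ≤ X ^ (0.2551 : ℝ) := by
          have h4 : PI (X ^ (0.245 : ℝ)) (X ^ (0.2551 : ℝ)) ⊆ Finset.Ioc 0 ⌊X ^ (0.2551 : ℝ)⌋₊ := by
            intro p hp
            obtain ⟨hpp, -, h5⟩ := (mem_PI (Real.rpow_nonneg hX0.le _)).1 hp
            rw [Finset.mem_Ioc]
            exact ⟨hpp.pos, Nat.le_floor h5⟩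
          have h5 := Finset.card_le_card h4
          rw [Nat.card_Ioc] at h5
          have h6 : (((PI (X ^ (0.245 : ℝ)) (X ^ (0.2551 : ℝ))).card : ℕ) : ℝ) ≤
              (⌊X ^ (0.2551 : ℝ)⌋₊ : ℕ) := by exact_mod_cast h5
          exact h6.trans (Nat.floor_le (Real.rpow_nonneg hX0.le _))
        have h7 : (l : ℝ) / (0.1222 * Real.log X) *
            (∑ p ∈ PI (X ^ (0.245 : ℝ)) (X ^ (0.2551 : ℝ)), (1 : ℝ) / p * 1) ≤
            0.33798 * (l / Real.log X) := by
          calc (l : ℝ) / (0.1222 * Real.log X) *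
              (∑ p ∈ PI (X ^ (0.245 : ℝ)) (X ^ (0.2551 : ℝ)), (1 : ℝ) / p * 1) ≤
              (l : ℝ) / (0.1222 * Real.log X) * 0.0413 :=
                mul_le_mul_of_nonneg_left h1.le (by (clear * - hl0 hL; positivity))
            _ = (0.0413 / 0.1222) * (l / Real.log X) := by
                (clear * - hL hl0; field_simp)
            _ ≤ _ := by
                apply mul_le_mul_of_nonneg_right _ (by (clear * - hl0 hL; positivity))
                norm_num
        have h8 : ((PI (X ^ (0.245 : ℝ)) (X ^ (0.2551 : ℝ))).card : ℝ) *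
            (1 / (0.1222 * Real.log X) + X ^ (0.2444 : ℝ)) ≤ 0.001 * (l / Real.log X) := by
          have h9 : (0 : ℝ) ≤ 1 / (0.1222 * Real.log X) + X ^ (0.2444 : ℝ) := by (clear * - hL hX1; positivity)
          refine (mul_le_mul_of_nonneg_right hcard h9).trans ?_
          rw [mul_add]
          have h10 : X ^ (0.2551 : ℝ) * (1 / (0.1222 * Real.log X)) ≤ 0.00082 * (l / Real.log X) +
              0.00001 * (l / Real.log X) := by
            calc X ^ (0.2551 : ℝ) * (1 / (0.1222 * Real.log X)) ≤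
                (0.0001 * l) * (1 / (0.1222 * Real.log X)) := by
                  apply mul_le_mul_of_nonneg_right _ (by positivity)
                  (clear * - hl h2; linarith)
              _ = (0.0001 / 0.1222) * (l / Real.log X) := by (clear * - hL hl0; field_simp)
              _ ≤ 0.00083 * (l / Real.log X) := by
                  apply mul_le_mul_of_nonneg_right _ (by (clear * - hl0 hL; positivity))
                  norm_num
              _ = _ := by ring
          have h11 : X ^ (0.2551 : ℝ) * X ^ (0.2444 : ℝ) ≤ 0.0001 * (l / Real.log X) := by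
            rw [← Real.rpow_add hX0, mul_div_assoc', le_div_iff₀ hL,
              show (0.2551 : ℝ) + 0.2444 = 0.4995 by norm_num]
            (clear * - hl h3; linarith)
          (clear * - hd0 h10 h11; linarith)
        (clear * - hd0 h7 h8; linarith)

open Classical in
/-- every interval of length `x ^ (1/2 - 1/5000)` contains many squarefree integers with at most
three prime factors, all of which exceed `x ^ 0.245` -/
theorem roughAvail3_245 : RoughAvail3 0.245 0.0002 := by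
  obtain ⟨z₁, hz₁⟩ := T16.lob_204 0.0001 (by norm_num)
  obtain ⟨X4, hX4⟩ := Pool.Agent.M20.Helper4.QRH.squares
  obtain ⟨X6, hX6⟩ := four_up
  have hM := Pool.Agent.M20.Helper9.AV.mertens3
  have hγ : (0.561 : ℝ) < Real.exp (-Real.eulerMascheroniConstant) := by
    rw [Real.exp_neg]
    calc (0.561 : ℝ) < (1.782 : ℝ)⁻¹ := by norm_num
      _ ≤ _ := inv_anti₀ (Real.exp_pos _) exp_gamma_le
  have tz := tendsto_rpow_top (show (0 : ℝ) < 0.245 by norm_num)
  have e0 : ∀ᶠ x : ℝ in atTop, z₁ ≤ x ^ (0.245 : ℝ) := tz.eventually_ge_atTop z₁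
  have e3 : ∀ᶠ x : ℝ in atTop, 0.561 ≤ VV (x ^ (0.245 : ℝ)) * Real.log (x ^ (0.245 : ℝ)) := by
    have h1 := (hM.comp tz).eventually_const_lt hγ
    filter_upwards [h1] with x hx
    exact hx.le
  have e1 : ∀ᶠ x : ℝ in atTop, 2 / x ^ (0.245 : ℝ) ≤ 0.001 / Real.log x := by
    have h1 := (isLittleO_log_rpow_atTop (show (0 : ℝ) < 0.245 by norm_num)).def
      (show (0 : ℝ) < 0.0005 by norm_num)
    filter_upwards [h1, eventually_gt_atTop (1 : ℝ)] with x hx hx1
    have hx0 : 0 < x := by (clear * - hx1; linarith)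
    rw [Real.norm_of_nonneg (Real.log_nonneg hx1.le),
      Real.norm_of_nonneg (Real.rpow_nonneg hx0.le _)] at hx
    rw [div_le_div_iff₀ (Real.rpow_pos_of_pos hx0 _) (Real.log_pos hx1)]
    (clear * - hx; linarith)
  exact by
    have e2 : ∀ᶠ x : ℝ in atTop, 4 * x ^ (1 / 3 : ℝ) ≤ 0.001 / Real.log x *
        x ^ (1 / 2 - 0.0002 : ℝ) := by
      have h1 := (isLittleO_log_rpow_atTop (show (0 : ℝ) < 1 / 10 by norm_num)).def
        (show (0 : ℝ) < 0.00025 by norm_num)
      filter_upwards [h1, eventually_gt_atTop (1 : ℝ)] with x hx hx1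
      have hx0 : 0 < x := by (clear * - hx1; linarith)
      have hL := Real.log_pos hx1
      rw [Real.norm_of_nonneg hL.le, Real.norm_of_nonneg (Real.rpow_nonneg hx0.le _)] at hx
      rw [div_mul_eq_mul_div, le_div_iff₀ hL]
      have h2 : x ^ (1 / 3 : ℝ) * x ^ (1 / 10 : ℝ) ≤ x ^ (1 / 2 - 0.0002 : ℝ) := by
        rw [← Real.rpow_add hx0]
        exact Real.rpow_le_rpow_of_exponent_le hx1.le (by norm_num)
      have h3 : 0 < x ^ (1 / 3 : ℝ) := Real.rpow_pos_of_pos hx0 _
      calc 4 * x ^ (1 / 3 : ℝ) * Real.log x ≤ 4 * x ^ (1 / 3 : ℝ) * (0.00025 * x ^ (1 / 10 : ℝ)) :=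
            mul_le_mul_of_nonneg_left hx (by positivity)
        _ = 0.001 * (x ^ (1 / 3 : ℝ) * x ^ (1 / 10 : ℝ)) := by ring
        _ ≤ _ := mul_le_mul_of_nonneg_left h2 (by norm_num)
    have e4 : ∀ᶠ x : ℝ in atTop, 2 ≤ x ^ (0.0002 : ℝ) :=
      (tendsto_rpow_top (show (0 : ℝ) < 0.0002 by norm_num)).eventually_ge_atTop 2
    obtain ⟨X5, hX5⟩ := eventually_atTop.1 (e0.and (e3.and (e1.and (e2.and e4))))
    refine ⟨0.001, by norm_num, max (max ⌈X6⌉₊ X4) (max ⌈X5⌉₊ 2), ?_⟩
    intro x h hx hh1 hh2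
    have hxX6 : X6 ≤ x := (Nat.le_ceil X6).trans (by exact_mod_cast (by omega : ⌈X6⌉₊ ≤ x))
    have hxX5 : X5 ≤ x := (Nat.le_ceil X5).trans (by exact_mod_cast (by omega : ⌈X5⌉₊ ≤ x))
    have hx2 : 2 ≤ x := by omega
    have hx1 : (1 : ℝ) < x := by exact_mod_cast (by omega : 1 < x)
    exact by
      have hx0 : (0 : ℝ) < x := by (clear * - hx1; linarith)
      have hL : 0 < Real.log x := Real.log_pos hx1
      have hh1' : (x : ℝ) ^ (0.4998 : ℝ) ≤ h :=
        (Real.rpow_le_rpow_of_exponent_le hx1.le (by norm_num)).trans hh1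
      have hhx : h ≤ x := by
        have h1 : (h : ℝ) ≤ x := hh2.trans (by
          calc (x : ℝ) ^ (1 / 2 : ℝ) ≤ (x : ℝ) ^ (1 : ℝ) :=
                Real.rpow_le_rpow_of_exponent_le hx1.le (by norm_num)
            _ = x := Real.rpow_one _)
        exact_mod_cast h1
      obtain ⟨b0, b3, b1, b2, b4⟩ := hX5 x hxX5
      have a1 := hz₁ ((x : ℝ) ^ (0.245 : ℝ)) b0 x h (by
        rw [← Real.rpow_mul hx0.le]
        exact (Real.rpow_le_rpow_of_exponent_le hx1.le (by norm_num)).trans hh1')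
      have a3 := hX6 x hxX6 x h hh1'
      exact by
        have z8 : (1 : ℝ) ≤ (x : ℝ) ^ (0.245 : ℝ) := Real.one_le_rpow hx1.le (by norm_num)
        have a5 := hX4 x h (by omega) hh2 ((x : ℝ) ^ (0.245 : ℝ)) z8
        -- the sets
        set A := RS x h ((x : ℝ) ^ (0.245 : ℝ)) with hA
        set T := (Finset.Ico x (x + h)).filter (fun n => Squarefree n ∧
            n.primeFactors.card ≤ 3 ∧ ∀ p : ℕ, p.Prime → p ∣ n → (x : ℝ) ^ (0.245 : ℝ) < p) with hT
        set Q := (Finset.Ico x (x + h)).filter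
          (fun n => ∃ p : ℕ, p.Prime ∧ (x : ℝ) ^ (0.245 : ℝ) < p ∧ p ^ 2 ∣ n) with hQ
        set S := A.filter fun n => 4 ≤ n.primeFactors.card with hS
        have hcover : A ⊆ T ∪ (Q ∪ S) := by
          intro n hn
          have hn' := hn
          rw [hA, RS, Finset.mem_filter] at hn'
          obtain ⟨hn1, hn3⟩ := hn'
          rw [Finset.mem_union, Finset.mem_union]
          by_cases hsq : Squarefree n
          · by_cases hq : n.primeFactors.card ≤ 3
            · left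
              rw [hT, Finset.mem_filter]
              exact ⟨hn1, hsq, hq, hn3⟩
            · right; right
              rw [hS, Finset.mem_filter]
              exact ⟨hn, by omega⟩
          · right; left
            rw [hQ, Finset.mem_filter]
            refine ⟨hn1, ?_⟩
            rw [Nat.squarefree_iff_prime_squarefree] at hsq
            push Not at hsq
            obtain ⟨p, hp, hpn⟩ := hsq
            exact ⟨p, hp, hn3 p hp ((dvd_mul_right p p).trans hpn), by rwa [sq]⟩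
        have c1 : (A.card : ℝ) ≤ T.card + (Q.card + S.card) := by
          have h1 := Finset.card_le_card hcover
          have h2 := Finset.card_union_le T (Q ∪ S)
          have h3 := Finset.card_union_le Q S
          exact_mod_cast (by omega : A.card ≤ T.card + (Q.card + S.card))
        exact by
          have c2 := four_le (by omega : 1 < x) b4 hhx S (by rw [hS])
          have d : (0 : ℝ) ≤ h / Real.log x := by (clear * - hL; positivity)
          have c3 : (Q.card : ℝ) ≤ 0.002 * (h / Real.log x) := by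
            have h1 : (2 : ℝ) * h / (x : ℝ) ^ (0.245 : ℝ) ≤ 0.001 * (h / Real.log x) := by
              calc (2 : ℝ) * h / (x : ℝ) ^ (0.245 : ℝ) = h * (2 / (x : ℝ) ^ (0.245 : ℝ)) := by ring
                _ ≤ h * (0.001 / Real.log x) := mul_le_mul_of_nonneg_left b1 (Nat.cast_nonneg h)
                _ = _ := by ring
            have h2 : 4 * (x : ℝ) ^ (1 / 3 : ℝ) ≤ 0.001 * (h / Real.log x) := by
              calc 4 * (x : ℝ) ^ (1 / 3 : ℝ) ≤ 0.001 / Real.log x * (x : ℝ) ^ (1 / 2 - 0.0002 : ℝ) := b2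
                _ ≤ 0.001 / Real.log x * h := mul_le_mul_of_nonneg_left hh1 (by positivity)
                _ = _ := by ring
            have h3 : (Q.card : ℝ) ≤ 2 * h / (x : ℝ) ^ (0.245 : ℝ) + 4 * (x : ℝ) ^ (1 / 3 : ℝ) := by
              convert a5 using 2
            (clear * - a5 h1 h2; linarith)
          have hh0 : (0 : ℝ) ≤ h := Nat.cast_nonneg h
          have a1' : 0.1265 * (h / Real.log x) ≤ A.card := by
            refine le_trans ?_ a1
            rw [Real.log_rpow hx0] at b3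
            have h1 : 2.289 / Real.log x ≤ VV ((x : ℝ) ^ (0.245 : ℝ)) := by
              rw [div_le_iff₀ hL]
              (clear * - b3; nlinarith)
            calc 0.1265 * (h / Real.log x) ≤ (0.0555 - 0.0001) * h * (2.289 / Real.log x) := by
                  have : (0.0555 - 0.0001) * h * (2.289 / Real.log x) =
                      ((0.0555 - 0.0001) * 2.289) * (h / Real.log x) := by ring
                  rw [this]
                  apply mul_le_mul_of_nonneg_right _ d
                  norm_num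
              _ ≤ _ := mul_le_mul_of_nonneg_left h1 (by (clear * -; positivity))
          have a3' : (S.card : ℝ) ≤ 0.1134 * (h / Real.log x) := by
            have := c2.trans a3
            (clear * - a3 c2; linarith)
          rw [mul_div_assoc]
          (clear * - a3 c1 c2 c3 a1'; linarith)

end Pool.Agent.M20.Helper40.AV
end

/- Helper53.KN.Helper60.KX.SysA -/
section
/-! Project KS, task 1712: the system, candidates of the three classes. -/

set_option autoImplicit false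
open scoped Classical
open Finset Filter Topology

namespace Pool.Agent.M20.Helper60.KX

open Pool.Agent.M20.Helper16.KS
open Pool.Agent.M20.Helper29.KD (PMx nEx)

/-! ### candidates with a prime `m` in a dyadic interval -/

noncomputable def candP (d : ℝ) (μ k j : ℕ) : Finset (ℕ × ℕ) :=
  (range (2 ^ (k + 1)) ×ˢ PMx μ).filter (fun x => x.1.Prime ∧ x.1 * x.2 ∈ cell d k j)

lemma card_candP (d : ℝ) (μ k j : ℕ) : (candP d μ k j).card = nEx μ k (ec d k) j := by
  unfold candP nEx cell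
  apply card_nbij' Prod.swap Prod.swap
  · intro x hx
    simp only [coe_filter, mem_product, mem_range, Set.mem_setOf_eq, mem_Ico, Prod.fst_swap, Prod.snd_swap] at hx ⊢
    obtain ⟨⟨a, b⟩, c, e, f⟩ := hx
    exact ⟨⟨b, a⟩, c, by rw [mul_comm x.2 x.1]; exact e, by rw [mul_comm x.2 x.1]; exact f⟩
  · intro x hx
    simp only [coe_filter, mem_product, mem_range, Set.mem_setOf_eq, mem_Ico, Prod.fst_swap, Prod.snd_swap] at hx ⊢
    obtain ⟨⟨a, b⟩, c, e, f⟩ := hx
    exact ⟨⟨b, a⟩, c, by rw [mul_comm x.2 x.1]; exact e, by rw [mul_comm x.2 x.1]; exact f⟩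
  · intro x _; exact Prod.swap_swap x
  · intro x _; exact Prod.swap_swap x

lemma mem_PMx {μ m : ℕ} : m ∈ PMx μ ↔ (2 ^ μ < m ∧ m ≤ 2 * 2 ^ μ) ∧ m.Prime := by
  unfold PMx
  rw [mem_filter, mem_Ioc]

lemma mem_candP {d : ℝ} {μ k j : ℕ} {x : ℕ × ℕ} : x ∈ candP d μ k j ↔
    (x.1 < 2 ^ (k + 1) ∧ (2 ^ μ < x.2 ∧ x.2 ≤ 2 * 2 ^ μ) ∧ x.2.Prime) ∧ x.1.Prime ∧ x.1 * x.2 ∈ cell d k j := by
  unfold candP
  rw [mem_filter, mem_product, mem_range, mem_PMx]

lemma q_large {d : ℝ} (hd : 0 < d) {μ k j : ℕ} (hj : j < nc d k) (hμ : 2 * μ + 2 < k) {x : ℕ × ℕ}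
    (hx : x ∈ candP d μ k j) : 2 ^ (k - μ - 1) ≤ x.1 ∧ 2 * 2 ^ μ < x.1 := by
  obtain ⟨⟨h1, ⟨h2, h3⟩, h4⟩, h5, h6⟩ := mem_candP.mp hx
  have h7 := (cell_bounds hd hj h6).1
  have h8 : 2 ^ (k - μ - 1) ≤ x.1 := by
    have h9 : 2 ^ k ≤ x.1 * (2 * 2 ^ μ) := h7.trans (Nat.mul_le_mul_left _ h3)
    have h10 : 2 ^ k = 2 ^ (k - μ - 1) * (2 * 2 ^ μ) := by
      rw [mul_comm 2, ← pow_succ, ← pow_add]
      congr 1
      omega
    rw [h10] at h9
    exact Nat.le_of_mul_le_mul_right h9 (by positivity)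
  refine ⟨h8, lt_of_lt_of_le ?_ h8⟩
  rw [mul_comm, ← pow_succ]
  exact Nat.pow_lt_pow_right (by norm_num) (by omega)

/-- candidate conditions -/
lemma candP_facts {d : ℝ} (hd : 0 < d) {μ k j : ℕ} (hj : j < nc d k) (hμ : 2 * μ + 2 < k) (hk6 : 10 ≤ k)
    {U c : ℝ} (hμ1 : (U + c) * k ≤ 0.49 * μ) (hμ2 : 0.51 * (μ + 1) ≤ (1/2 - U - c) * k) {x : ℕ × ℕ}
    (hx : x ∈ candP d μ k j) :
    x.1.Prime ∧ (2 : ℝ) ^ ((k : ℝ) / 3) ≤ x.1 ∧
    Squarefree (x.1 * x.2) ∧ 1 < x.2 ∧ x.1 * x.2 ∈ cell d k j ∧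
    (∀ p : ℕ, p.Prime → p ∣ x.1 * x.2 → (2 : ℝ) ^ ((U + c) * k) ≤ (p : ℝ) ^ (1/2 - (1/100 : ℝ))) ∧
    (x.2 : ℝ) ^ (1/2 + (1/100 : ℝ)) ≤ (2 : ℝ) ^ ((1/2 - U - c) * k) := by
  obtain ⟨hq1, hq2⟩ := q_large hd hj hμ hx
  obtain ⟨⟨h1, ⟨h2, h3⟩, h4⟩, h5, h6⟩ := mem_candP.mp hx
  have hkr : (10 : ℝ) ≤ k := by exact_mod_cast hk6
  have hμr : 2 * (μ : ℝ) + 3 ≤ k := by exact_mod_cast (by omega : 2 * μ + 3 ≤ k)
  have hbig : ∀ p : ℕ, 2 ^ μ < p → (2 : ℝ) ^ ((U + c) * k) ≤ (p : ℝ) ^ (1/2 - (1/100 : ℝ)) := by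
    intro p hp
    have e1 : ((2:ℝ) ^ μ) ^ (0.49 : ℝ) ≤ (p : ℝ) ^ (0.49 : ℝ) := by
      apply Real.rpow_le_rpow (by positivity) _ (by norm_num)
      exact_mod_cast hp.le
    have e2 : ((2:ℝ) ^ μ) ^ (0.49 : ℝ) = (2:ℝ) ^ (0.49 * (μ:ℝ)) := by
      rw [← Real.rpow_natCast, ← Real.rpow_mul (by norm_num)]; congr 1; ring
    have e3 : (1/2 - (1/100 : ℝ)) = 0.49 := by norm_num
    rw [e3]
    refine le_trans ?_ e1
    rw [e2]
    exact Real.rpow_le_rpow_of_exponent_le (by norm_num) hμ1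
  refine ⟨h5, ?_, ?_, h4.one_lt, h6, ?_, ?_⟩
  · have e1 : (2:ℝ) ^ (k - μ - 1) ≤ x.1 := by exact_mod_cast hq1
    refine le_trans ?_ e1
    rw [← Real.rpow_natCast]
    apply Real.rpow_le_rpow_of_exponent_le (by norm_num)
    have e2 : ((k - μ - 1 : ℕ) : ℝ) = k - μ - 1 := by
      rw [Nat.cast_sub (by omega), Nat.cast_sub (by omega)]; push_cast; ring
    rw [e2]
    (clear * - hkr hμr; linarith)
  · rw [Nat.squarefree_mul ((Nat.coprime_primes h5 h4).mpr (by omega))]
    exact ⟨h5.squarefree, h4.squarefree⟩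
  · intro p hp hpd
    apply hbig
    rcases (Nat.Prime.dvd_mul hp).mp hpd with h | h
    · rw [(Nat.prime_dvd_prime_iff_eq hp h5).mp h]; omega
    · rw [(Nat.prime_dvd_prime_iff_eq hp h4).mp h]; exact h2
  · have e1 : (x.2 : ℝ) ≤ (2:ℝ) ^ (μ + 1) := by
      rw [pow_succ, mul_comm]; exact_mod_cast h3
    have e3 : (1/2 + (1/100 : ℝ)) = 0.51 := by norm_num
    rw [e3]
    calc (x.2 : ℝ) ^ (0.51:ℝ) ≤ ((2:ℝ) ^ (μ + 1)) ^ (0.51:ℝ) := Real.rpow_le_rpow (by (clear * -; positivity)) e1 (by norm_num)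
      _ = (2:ℝ) ^ (0.51 * ((μ:ℝ) + 1)) := by
          rw [← Real.rpow_natCast, ← Real.rpow_mul (by norm_num)]; congr 1; push_cast; ring
      _ ≤ _ := Real.rpow_le_rpow_of_exponent_le (by norm_num) hμ2

lemma candP_inj {d : ℝ} (hd : 0 < d) {μ k j : ℕ} (hj : j < nc d k) (hμ : 2 * μ + 2 < k) {x y : ℕ × ℕ}
    (hx : x ∈ candP d μ k j) (hy : y ∈ candP d μ k j) (h : x.1 * x.2 = y.1 * y.2) : x = y := by
  obtain ⟨hq1, hq2⟩ := q_large hd hj hμ hx
  obtain ⟨hq1', hq2'⟩ := q_large hd hj hμ hy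
  obtain ⟨⟨h1, ⟨h2, h3⟩, h4⟩, h5, h6⟩ := mem_candP.mp hx
  obtain ⟨⟨h1', ⟨h2', h3'⟩, h4'⟩, h5', h6'⟩ := mem_candP.mp hy
  have hd1 : x.1 ∣ y.1 * y.2 := ⟨x.2, h.symm⟩
  have e1 : x.1 = y.1 := by
    rcases (Nat.Prime.dvd_mul h5).mp hd1 with h7 | h7
    · exact (Nat.prime_dvd_prime_iff_eq h5 h5').mp h7
    · have := (Nat.prime_dvd_prime_iff_eq h5 h4').mp h7
      omega
  have e2 : x.2 = y.2 := by
    rw [e1] at h
    exact Nat.eq_of_mul_eq_mul_left h5'.pos h
  exact Prod.ext e1 e2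

/-! ### rough candidates -/

/-- largest prime factor -/
def bigP (n : ℕ) : ℕ := n.primeFactors.sup id

lemma bigP_mem {n : ℕ} (hn : 2 ≤ n) : bigP n ∈ n.primeFactors := by
  have hne : n.primeFactors.Nonempty := by
    rw [Nat.nonempty_primeFactors]; omega
  obtain ⟨i, hi, h⟩ := exists_mem_eq_sup n.primeFactors hne id
  unfold bigP
  rw [h]; exact hi

lemma le_bigP {n p : ℕ} (hp : p ∈ n.primeFactors) : p ≤ bigP n := le_sup (f := id) hp

noncomputable def rset (d : ℝ) (k j : ℕ) : Finset ℕ :=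
  (cell d k j).filter (fun n => Squarefree n ∧ n.primeFactors.card ≤ 3 ∧
    (∀ p : ℕ, p.Prime → p ∣ n → (2 : ℝ) ^ ((0.245 : ℝ) * k) < p) ∧ ¬ n.Prime)

noncomputable def candR (d : ℝ) (k j : ℕ) : Finset (ℕ × ℕ) :=
  (rset d k j).image (fun n => (bigP n, n / bigP n))

lemma bigP_mul {n : ℕ} (hn : 2 ≤ n) : bigP n * (n / bigP n) = n :=
  Nat.mul_div_cancel' (Nat.dvd_of_mem_primeFactors (bigP_mem hn))

lemma two_le_cell {d : ℝ} (hd : 0 < d) {k j n : ℕ} (hk : 1 ≤ k) (hj : j < nc d k) (hn : n ∈ cell d k j) :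
    2 ≤ n := by
  have h1 := (cell_bounds hd hj hn).1
  have h2 : 2 ^ 1 ≤ 2 ^ k := Nat.pow_le_pow_right (by norm_num) hk
  omega

lemma card_candR {d : ℝ} (hd : 0 < d) {k j : ℕ} (hk : 1 ≤ k) (hj : j < nc d k) :
    (candR d k j).card = (rset d k j).card := by
  unfold candR
  apply card_image_of_injOn
  intro n hn n' hn' h
  rw [mem_coe] at hn hn'
  have a := two_le_cell hd hk hj (mem_filter.mp hn).1
  have b := two_le_cell hd hk hj (mem_filter.mp hn').1
  simp only [Prod.mk.injEq] at h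
  calc n = bigP n * (n / bigP n) := (bigP_mul a).symm
    _ = bigP n' * (n' / bigP n') := by rw [h.2, h.1]
    _ = n' := bigP_mul b

lemma mem_candR {d : ℝ} (hd : 0 < d) {k j : ℕ} (hk : 1 ≤ k) (hj : j < nc d k) {x : ℕ × ℕ}
    (hx : x ∈ candR d k j) : ∃ n ∈ rset d k j, x.1 * x.2 = n ∧ x.1 = bigP n ∧ x.2 = n / bigP n := by
  obtain ⟨n, hn, rfl⟩ := mem_image.mp hx
  exact ⟨n, hn, bigP_mul (two_le_cell hd hk hj (mem_filter.mp hn).1), rfl, rfl⟩

lemma candR_inj {d : ℝ} (hd : 0 < d) {k j : ℕ} (hk : 1 ≤ k) (hj : j < nc d k) {x y : ℕ × ℕ}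
    (hx : x ∈ candR d k j) (hy : y ∈ candR d k j) (h : x.1 * x.2 = y.1 * y.2) : x = y := by
  obtain ⟨n, hn, h1, h2, h3⟩ := mem_candR hd hk hj hx
  obtain ⟨n', hn', h1', h2', h3'⟩ := mem_candR hd hk hj hy
  have e : n = n' := by rw [← h1, ← h1', h]
  subst e
  exact Prod.ext (by rw [h2, h2']) (by rw [h3, h3'])

lemma candR_facts {d : ℝ} (hd : 0 < d) {k j : ℕ} (hj : j < nc d k) (hk6 : 100 ≤ k)
    {U c : ℝ} (hU : U + c ≤ 0.12) (hU0 : 0 ≤ U + c) {x : ℕ × ℕ} (hx : x ∈ candR d k j) :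
    x.1.Prime ∧ (2 : ℝ) ^ ((k : ℝ) / 3) ≤ x.1 ∧
    Squarefree (x.1 * x.2) ∧ 1 < x.2 ∧ x.1 * x.2 ∈ cell d k j ∧
    (∀ p : ℕ, p.Prime → p ∣ x.1 * x.2 → (2 : ℝ) ^ ((U + c) * k) ≤ (p : ℝ) ^ (1/2 - (1/100 : ℝ))) ∧
    (x.2 : ℝ) ^ (1/2 + (1/100 : ℝ)) ≤ (2 : ℝ) ^ ((1/2 - U - c) * k) := by
  obtain ⟨n, hn, h1, h2, h3⟩ := mem_candR hd (by omega) hj hx
  obtain ⟨hnc, hsq, hcard, hr, hnp⟩ := mem_filter.mp hn
  have hn2 := two_le_cell hd (by omega) hj hnc
  have hb := bigP_mem hn2
  have hbp := Nat.prime_of_mem_primeFactors hb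
  obtain ⟨hc1, hc2⟩ := cell_bounds hd hj hnc
  have hkr : (100 : ℝ) ≤ k := by exact_mod_cast hk6
  have hn0 : n ≠ 0 := by omega
  have hcube : n ≤ bigP n ^ 3 := by
    calc n = ∏ p ∈ n.primeFactors, p := (Nat.prod_primeFactors_of_squarefree hsq).symm
      _ ≤ ∏ _p ∈ n.primeFactors, bigP n := prod_le_prod' fun p hp => le_bigP hp
      _ = bigP n ^ n.primeFactors.card := by rw [prod_const]
      _ ≤ bigP n ^ 3 := Nat.pow_le_pow_right hbp.pos hcard
  exact by
    have hx1 : x.1 = bigP n := h2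
    have hthird : (2 : ℝ) ^ ((k : ℝ) / 3) ≤ bigP n := by
      have e1 : (2:ℝ) ^ k ≤ (bigP n : ℝ) ^ 3 := by exact_mod_cast hc1.trans hcube
      have e2 : ((2:ℝ) ^ k) ^ (1/3 : ℝ) ≤ ((bigP n : ℝ) ^ 3) ^ (1/3 : ℝ) :=
        Real.rpow_le_rpow (by positivity) e1 (by norm_num)
      rw [← Real.rpow_natCast, ← Real.rpow_mul (by norm_num), ← Real.rpow_natCast, ← Real.rpow_mul (by (clear * -; positivity))] at e2
      norm_num at e2
      have e3 : (k:ℝ) * (1/3) = k / 3 := by ring
      rw [e3] at e2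
      exact e2
    have hx2pos : 0 < x.2 := by
      rcases Nat.eq_zero_or_pos x.2 with h | h
      · rw [h, mul_zero] at h1; omega
      · exact h
    refine ⟨by rw [hx1]; exact hbp, by rw [hx1]; exact hthird, by rw [h1]; exact hsq, ?_, by rw [h1]; exact hnc, ?_, ?_⟩
    · by_contra hcon
      have : x.2 = 1 := by omega
      rw [this, mul_one, hx1] at h1
      exact hnp (by rw [← h1]; exact hbp)
    · intro p hp hpd
      rw [h1] at hpd
      have e1 := hr p hp hpd
      have e3 : (1/2 - (1/100 : ℝ)) = 0.49 := by norm_num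
      rw [e3]
      calc (2 : ℝ) ^ ((U + c) * k) ≤ (2:ℝ) ^ ((0.245 : ℝ) * k * 0.49) := by
            apply Real.rpow_le_rpow_of_exponent_le (by norm_num)
            (clear * - hkr hU; nlinarith)
        _ = ((2:ℝ) ^ ((0.245 : ℝ) * k)) ^ (0.49:ℝ) := by rw [Real.rpow_mul (by norm_num)]
        _ ≤ (p:ℝ) ^ (0.49:ℝ) := Real.rpow_le_rpow (by positivity) e1.le (by norm_num)
    · have e1 : (x.2 : ℝ) ≤ (2:ℝ) ^ ((2 * (k:ℝ)) / 3 + 1) := by
        have e2 : (x.1 : ℝ) * x.2 ≤ (2:ℝ) ^ ((k:ℝ) + 1) := by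
          rw [Real.rpow_add (by norm_num), Real.rpow_one, Real.rpow_natCast, ← pow_succ]
          exact_mod_cast (by rw [h1]; exact hc2.le : x.1 * x.2 ≤ 2 ^ (k + 1))
        have e3 : (2 : ℝ) ^ ((k : ℝ) / 3) * x.2 ≤ (2:ℝ) ^ ((k : ℝ) / 3) * (2:ℝ) ^ ((2 * (k:ℝ)) / 3 + 1) := by
          rw [← Real.rpow_add (by norm_num)]
          have e4 : (k : ℝ) / 3 + (2 * (k:ℝ) / 3 + 1) = k + 1 := by ring
          rw [e4]
          refine le_trans ?_ e2
          apply mul_le_mul_of_nonneg_right _ (by positivity)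
          rw [hx1]; exact hthird
        exact le_of_mul_le_mul_left e3 (by positivity)
      exact by
        have e3 : (1/2 + (1/100 : ℝ)) = 0.51 := by norm_num
        rw [e3]
        calc (x.2 : ℝ) ^ (0.51:ℝ) ≤ ((2:ℝ) ^ ((2 * (k:ℝ)) / 3 + 1)) ^ (0.51:ℝ) :=
              Real.rpow_le_rpow (by positivity) e1 (by norm_num)
          _ = (2:ℝ) ^ (((2 * (k:ℝ)) / 3 + 1) * 0.51) := by rw [← Real.rpow_mul (by norm_num)]
          _ ≤ _ := by
              apply Real.rpow_le_rpow_of_exponent_le (by norm_num)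
              (clear * - hkr hU; nlinarith)

/-- lower bound for the number of rough candidates in a prime-poor cell -/
lemma rset_lower {d : ℝ} (hd : 0 < d) (hd1 : d ≤ 1/10000) : ∃ cr : ℝ, 0 < cr ∧ ∃ K : ℕ, ∀ k : ℕ, K ≤ k →
    ∀ j < nc d k, cr * 2 ^ ec d k / k ≤ ((rset d k j).card : ℝ) + npr d k j := by
  obtain ⟨c, hc, X0, hX⟩ := Pool.Agent.M20.Helper40.AV.roughAvail3_245
  refine ⟨c, hc, max X0 20000, fun k hk j hj => ?_⟩
  have hkX : X0 ≤ k := (le_max_left _ _).trans hk
  have hk2 : 20000 ≤ k := (le_max_right _ _).trans hk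
  exact by
    have hkr : (20000 : ℝ) ≤ k := by exact_mod_cast hk2
    set x : ℕ := 2 ^ k + j * 2 ^ ec d k with hx
    have hec1 : (k : ℝ) * (1/2 - d) - 1 < ec d k := by
      have := Nat.lt_floor_add_one ((k : ℝ) * (1/2 - d))
      unfold ec; linarith
    have hec2 : (ec d k : ℝ) ≤ k * (1/2 - d) := by
      unfold ec
      exact Nat.floor_le (by (clear * - hd hd1 hkr; nlinarith))
    have hxk : 2 ^ k ≤ x := Nat.le_add_right _ _
    have hpos : 0 < 2 ^ ec d k := by positivity
    exact by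
      have hxlt : x < 2 ^ (k + 1) := by
        have hm : x ∈ cell d k j := by
          unfold cell
          rw [mem_Ico, add_mul, one_mul]
          omega
        exact (cell_bounds hd hj hm).2
      have hxkr : (2:ℝ) ^ (k:ℝ) ≤ x := by rw [Real.rpow_natCast]; exact_mod_cast hxk
      have hxltr : (x:ℝ) ≤ (2:ℝ) ^ ((k:ℝ) + 1) := by
        rw [Real.rpow_add (by norm_num), Real.rpow_one, Real.rpow_natCast, ← pow_succ]; exact_mod_cast hxlt.le
      have hx0 : (0:ℝ) < x := lt_of_lt_of_le (by positivity) hxkr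
      have hbig : X0 ≤ x := by
        have : k < 2 ^ k := Nat.lt_two_pow_self
        omega
      have hH : ((2 ^ ec d k : ℕ) : ℝ) = (2:ℝ) ^ (ec d k : ℝ) := by
        rw [Real.rpow_natCast]; push_cast; rfl
      exact by
        have h1 : (x : ℝ) ^ (1 / 2 - 0.0002 : ℝ) ≤ ((2 ^ ec d k : ℕ) : ℝ) := by
          rw [hH]
          calc (x : ℝ) ^ (1 / 2 - 0.0002 : ℝ) ≤ ((2:ℝ) ^ ((k:ℝ) + 1)) ^ (1 / 2 - 0.0002 : ℝ) :=
                Real.rpow_le_rpow hx0.le hxltr (by norm_num)
            _ = (2:ℝ) ^ (((k:ℝ) + 1) * (1 / 2 - 0.0002)) := by rw [← Real.rpow_mul (by norm_num)]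
            _ ≤ _ := by
                apply Real.rpow_le_rpow_of_exponent_le (by norm_num)
                (clear * - hd hd1 hkr hec1; nlinarith)
        have h2 : ((2 ^ ec d k : ℕ) : ℝ) ≤ (x : ℝ) ^ (1 / 2 : ℝ) := by
          rw [hH]
          calc (2:ℝ) ^ (ec d k : ℝ) ≤ (2:ℝ) ^ ((k:ℝ) * (1/2)) := by
                apply Real.rpow_le_rpow_of_exponent_le (by norm_num)
                (clear * - hec2 hd; nlinarith)
            _ = ((2:ℝ) ^ (k:ℝ)) ^ (1/2 : ℝ) := by rw [← Real.rpow_mul (by norm_num)]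
            _ ≤ _ := Real.rpow_le_rpow (by positivity) hxkr (by norm_num)
        have h3 := hX x (2 ^ ec d k) hbig h1 h2
        have hlog : Real.log x ≤ k := by
          have e1 := Real.log_le_log hx0 hxltr
          rw [Real.log_rpow (by norm_num)] at e1
          have e2 := Real.log_two_lt_d9
          have e3 : ((k:ℝ) + 1) * Real.log 2 ≤ ((k:ℝ) + 1) * 0.6932 := by
            apply mul_le_mul_of_nonneg_left _ (by positivity)
            (clear * - hd hd1 e2; linarith)
          (clear * - hd hd1 hkr e1 e3; linarith)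
        have hlog0 : 0 < Real.log x := by
          apply Real.log_pos
          refine lt_of_lt_of_le ?_ hxkr
          exact Real.one_lt_rpow (by norm_num) (by (clear * - hd hd1 hkr; linarith))
        have h4 : c * 2 ^ ec d k / k ≤ c * ((2 ^ ec d k : ℕ) : ℝ) / Real.log x := by
          push_cast
          apply div_le_div_of_nonneg_left (by positivity) hlog0 hlog
        exact by
          refine (h4.trans h3).trans ?_
          have hcell : Ico x (x + 2 ^ ec d k) = cell d k j := by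
            unfold cell
            rw [hx]
            congr 1
            ring
          have hsub : (Ico x (x + 2 ^ ec d k)).filter (fun n => Squarefree n ∧
              n.primeFactors.card ≤ 3 ∧ ∀ p : ℕ, p.Prime → p ∣ n → (x : ℝ) ^ (0.245:ℝ) < p) ⊆
              rset d k j ∪ (cell d k j).filter Nat.Prime := by
            intro n hn
            rw [mem_filter, hcell] at hn
            obtain ⟨a, b, c', e⟩ := hn
            rw [mem_union]
            by_cases hnp : n.Prime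
            · right; exact mem_filter.mpr ⟨a, hnp⟩
            · left
              refine mem_filter.mpr ⟨a, b, c', ?_, hnp⟩
              intro p hp hpn
              refine lt_of_le_of_lt ?_ (e p hp hpn)
              calc (2 : ℝ) ^ ((0.245 : ℝ) * k) = ((2:ℝ) ^ (k:ℝ)) ^ (0.245:ℝ) := by
                    rw [← Real.rpow_mul (by norm_num)]; congr 1; ring
                _ ≤ _ := Real.rpow_le_rpow (by positivity) hxkr (by norm_num)
          have h5 := (card_le_card hsub).trans (card_union_le _ _)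
          unfold npr
          exact_mod_cast h5

end Pool.Agent.M20.Helper60.KX
end
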