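import Mathlib
import Pool.Agent.Helper53.KO.G01
import Pool.Agent.Helper53.KO.G13
import Pool.Agent.Helper53.KO.G19
import Pool.Agent.Helper53.KO.G24

set_option linter.all false

/- Helper53.KN.Helper33.KS.LWin -/
section
/-!
# Sub-windows of cells (project KS, MP_768c9c_nt, Prop `Light`)
-/

set_option autoImplicit false

namespace Pool.Agent.M20.Helper33.KS

open Finset
open Pool.Agent.M20.Helper16.KS

theorem CM_eq_cm (g : ℕ → ℝ) {n : ℕ} (hn : n ≠ 0) : CM g n = cm g n := by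
  rw [CM_eq_prod, cm_apply' g hn]

theorem two_le {a b : ℝ} (h : a ≤ b) : (2 : ℝ) ^ a ≤ (2 : ℝ) ^ b :=
  Real.rpow_le_rpow_of_exponent_le (by norm_num) h

theorem two_pos (a : ℝ) : (0 : ℝ) < (2 : ℝ) ^ a := Real.rpow_pos_of_pos (by norm_num) a

theorem ec_ge (d : ℝ) (k : ℕ) : (k : ℝ) * (1 / 2 - d) - 1 ≤ (ec d k : ℝ) := by
  unfold ec
  have := Nat.lt_floor_add_one ((k : ℝ) * (1 / 2 - d))
  linarith

theorem ec_le' {d : ℝ} (hd : d ≤ 1 / 2) (k : ℕ) : (ec d k : ℝ) ≤ (k : ℝ) * (1 / 2 - d) := by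
  unfold ec
  refine Nat.floor_le ?_
  have : (0 : ℝ) ≤ k := Nat.cast_nonneg k
  (clear * - hd; nlinarith)

theorem two_ec_ge (d : ℝ) (k : ℕ) :
    (2 : ℝ) ^ ((k : ℝ) * (1 / 2 - d) - 1) ≤ (2 : ℝ) ^ ec d k := by
  rw [← Real.rpow_natCast]
  exact two_le (ec_ge d k)

theorem two_ec_le {d : ℝ} (hd : d ≤ 1 / 2) (k : ℕ) :
    (2 : ℝ) ^ ec d k ≤ (2 : ℝ) ^ ((k : ℝ) * (1 / 2 - d)) := by
  rw [← Real.rpow_natCast]
  exact two_le (ec_le' hd k)

theorem ceilDiv_le_self {A v : ℕ} (hv : 0 < v) : A ⌈/⌉ v ≤ A := by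
  rw [ceilDiv_le_iff_le_mul hv]
  exact Nat.le_mul_of_pos_left A hv

/-- all the data of the sub-window `K / v` of a cell -/
structure WData (S : Sys) (k j v x h k' : ℕ) : Prop where
  eq : wdiv v (2 ^ k + j * 2 ^ ec S.d k) (2 ^ k + (j + 1) * 2 ^ ec S.d k) = Finset.Ico x (x + h)
  low : 2 ^ k' ≤ x
  up : x < 2 ^ (k' + 1)
  kk : k' ≤ k
  half : (k : ℝ) / 2 ≤ k'
  hx : h ≤ x
  third : (x : ℝ) ^ (1 / 3 : ℝ) ≤ h
  len : (h : ℝ) ≤ 2 * 2 ^ ec S.d k / v
  len' : (2 : ℝ) ^ ec S.d k / v / 2 ≤ h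
  xge : (2 : ℝ) ^ k / v ≤ x
  kge : (2 : ℝ) ^ (k : ℝ) / v / 2 ≤ (2 : ℝ) ^ (k' : ℝ)

theorem exists_wdata (S : Sys) {k j v : ℕ} (hk : 100 ≤ k) (hj : j < nc S.d k) (hv : 1 ≤ v)
    (hv2 : (v : ℝ) ≤ (2 : ℝ) ^ ((k : ℝ) / 7)) : ∃ x h k' : ℕ, WData S k j v x h k' := by
  set E := ec S.d k with hE
  set A := 2 ^ k + j * 2 ^ E with hA
  set B := 2 ^ k + (j + 1) * 2 ^ E with hB
  have hv0 : (0 : ℝ) < v := by exact_mod_cast hv
  have hk' : (100 : ℝ) ≤ k := by exact_mod_cast hk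
  have hd := S.d_le'
  exact by
    have hd0 := S.d_pos
    have hBA : B = A + 2 ^ E := by rw [hA, hB]; ring
    have hBA' : (B : ℝ) - A = 2 ^ E := by rw [hBA]; push_cast; ring
    have hAB : A ⌈/⌉ v ≤ B ⌈/⌉ v := by
      rw [ceilDiv_le_iff_le_mul (by omega)]
      have h1 := (ceilDiv_le_iff_le_mul (b := B) (c := B ⌈/⌉ v) (show 0 < v by omega)).mp le_rfl
      exact le_trans (by rw [hBA]; exact Nat.le_add_right _ _) h1
    set x := A ⌈/⌉ v with hx
    set h := B ⌈/⌉ v - x with hh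
    set k' := Nat.log 2 x with hkk
    exact by
      have hcast : (h : ℝ) = ((B ⌈/⌉ v : ℕ) : ℝ) - ((A ⌈/⌉ v : ℕ) : ℝ) := by
        rw [hh, Nat.cast_sub hAB]
      have hlen1 : (h : ℝ) ≤ (2 : ℝ) ^ E / v + 1 := by
        rw [hcast, ← hBA']
        exact wdiv_len_le (by omega)
      have hlen2 : (2 : ℝ) ^ E / v - 1 ≤ h := by
        rw [hcast, ← hBA']
        exact le_wdiv_len (by omega)
      have hEv : (2 : ℝ) ^ ((k : ℝ) * (1 / 2 - S.d) - 1 - (k : ℝ) / 7) ≤ (2 : ℝ) ^ E / v := by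
        rw [Real.rpow_sub (by norm_num)]
        exact div_le_div₀ (by positivity) (two_ec_ge S.d k) hv0 hv2
      have hsmall : (k : ℝ) * S.d ≤ k / 1000 := by
        have : S.d ≤ 1 / 1000 := by (clear * - hd hd0; linarith)
        (clear * - hk' hd hd0; nlinarith)
      have hEv2 : (2 : ℝ) ≤ (2 : ℝ) ^ E / v := by
        refine le_trans ?_ hEv
        have h1 : (2 : ℝ) ^ (1 : ℝ) ≤ (2 : ℝ) ^ ((k : ℝ) * (1 / 2 - S.d) - 1 - (k : ℝ) / 7) := by
          apply two_le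
          (clear * - hk' hd hd0 hsmall; nlinarith)
        simpa using h1
      exact by
        have hl1 : (h : ℝ) ≤ 2 * 2 ^ E / v := by
          have : (2 : ℝ) * 2 ^ E / v = 2 ^ E / v + 2 ^ E / v := by ring
          (clear * - hd hd0 hlen1 hEv2 this; linarith)
        have hl2 : (2 : ℝ) ^ E / v / 2 ≤ h := by (clear * - hlen2 hEv2; linarith)
        have hxge : (2 : ℝ) ^ k / v ≤ x := by
          have h1 : (A : ℝ) / v ≤ x := ceilDiv_ge (by omega)
          refine le_trans ?_ h1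
          apply div_le_div_of_nonneg_right _ hv0.le
          rw [hA]; push_cast
          have : (0 : ℝ) ≤ j * 2 ^ E := by (clear * -; positivity)
          (clear * - this; linarith)
        have hxA : x ≤ A := ceilDiv_le_self (by omega)
        have hA2 : A < 2 ^ (k + 1) := by
          have h1 : A ∈ cell S.d k j := by
            rw [mem_cell]
            refine ⟨le_rfl, ?_⟩
            rw [← hE, ← hB, hBA]
            have : 0 < 2 ^ E := by positivity
            omega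
          exact cell_lt S.d_pos hj h1
        have hxpos : 0 < x := by
          have : (0 : ℝ) < x := lt_of_lt_of_le (by positivity) hxge
          exact_mod_cast this
        exact by
          have hlow : 2 ^ k' ≤ x := Nat.pow_log_le_self 2 hxpos.ne'
          have hup : x < 2 ^ (k' + 1) := Nat.lt_pow_succ_log_self (by norm_num) x
          have hkk' : k' ≤ k := by
            have h1 : 2 ^ k' < 2 ^ (k + 1) := lt_of_le_of_lt hlow (lt_of_le_of_lt hxA hA2)
            have := (Nat.pow_lt_pow_iff_right (by norm_num)).mp h1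
            omega
          have hxge2 : (2 : ℝ) ^ ((k : ℝ) * (6 / 7)) ≤ x := by
            refine le_trans ?_ hxge
            rw [show (k : ℝ) * (6 / 7) = k - k / 7 by ring, Real.rpow_sub (by norm_num), Real.rpow_natCast]
            exact div_le_div_of_nonneg_left (by positivity) hv0 hv2
          have hup' : (x : ℝ) < (2 : ℝ) ^ ((k' : ℝ) + 1) := by
            rw [show (k' : ℝ) + 1 = ((k' + 1 : ℕ) : ℝ) by push_cast; ring, Real.rpow_natCast]
            exact_mod_cast hup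
          have hhalf : (k : ℝ) / 2 ≤ k' := by
            have h1 := (Real.rpow_lt_rpow_left_iff (by norm_num : (1 : ℝ) < 2)).mp
              (lt_of_le_of_lt hxge2 hup')
            (clear * - hk' hd hd0 h1; linarith)
          exact by
            have hkge : (2 : ℝ) ^ (k : ℝ) / v / 2 ≤ (2 : ℝ) ^ (k' : ℝ) := by
              rw [Real.rpow_add_one (by norm_num)] at hup'
              have h1 : (2 : ℝ) ^ (k : ℝ) / v ≤ x := by rw [Real.rpow_natCast]; exact hxge
              (clear * - hup' h1; linarith)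
            have hhx : (h : ℝ) ≤ x := by
              refine hl1.trans (le_trans ?_ hxge)
              apply div_le_div_of_nonneg_right _ hv0.le
              have h1 : (2 : ℝ) ^ E ≤ (2 : ℝ) ^ ((k : ℝ) * (1 / 2 - S.d)) := two_ec_le (by (clear * - hd hd0; linarith)) k
              calc (2 : ℝ) * 2 ^ E ≤ 2 ^ (1 : ℝ) * (2 : ℝ) ^ ((k : ℝ) * (1 / 2 - S.d)) := by
                    rw [Real.rpow_one]; (clear * - h1; linarith)
                _ = (2 : ℝ) ^ (1 + (k : ℝ) * (1 / 2 - S.d)) := by rw [Real.rpow_add (by norm_num)]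
                _ ≤ (2 : ℝ) ^ (k : ℝ) := by
                    apply two_le
                    (clear * - hk' hd hd0; nlinarith)
                _ = (2 : ℝ) ^ k := Real.rpow_natCast _ _
            have hthird : (x : ℝ) ^ (1 / 3 : ℝ) ≤ h := by
              have h1 : (x : ℝ) ≤ (2 : ℝ) ^ ((k : ℝ) + 1) := by
                rw [show (k : ℝ) + 1 = ((k + 1 : ℕ) : ℝ) by push_cast; ring, Real.rpow_natCast]
                exact_mod_cast (lt_of_le_of_lt hxA hA2).le
              calc (x : ℝ) ^ (1 / 3 : ℝ) ≤ ((2 : ℝ) ^ ((k : ℝ) + 1)) ^ (1 / 3 : ℝ) :=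
                    Real.rpow_le_rpow (Nat.cast_nonneg _) h1 (by norm_num)
                _ = (2 : ℝ) ^ (((k : ℝ) + 1) * (1 / 3)) := by rw [← Real.rpow_mul (by norm_num)]
                _ ≤ (2 : ℝ) ^ ((k : ℝ) * (1 / 2 - S.d) - 1 - (k : ℝ) / 7 - 1) := by
                    apply two_le
                    (clear * - hk' hd hd0; nlinarith)
                _ = (2 : ℝ) ^ ((k : ℝ) * (1 / 2 - S.d) - 1 - (k : ℝ) / 7) / 2 := by
                    rw [Real.rpow_sub_one (by norm_num)]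
                _ ≤ (2 : ℝ) ^ E / v / 2 := by (clear * - hEv; linarith)
                _ ≤ h := hl2
            refine ⟨x, h, k', ⟨?_, hlow, hup, hkk', hhalf, by exact_mod_cast hhx, hthird, hl1, hl2, hxge,
              hkge⟩⟩
            show Finset.Ico x (B ⌈/⌉ v) = _
            rw [hh, Nat.add_sub_cancel' hAB]

/-- negative powers of the level of a sub-window -/
theorem WData.pow_le {S : Sys} {k j v x h k' : ℕ} (hw : WData S k j v x h k') (hv : 1 ≤ v)
    {a : ℝ} (ha : a ≤ 0) (ha1 : -2 ≤ a) :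
    (2 : ℝ) ^ (a * (k' : ℝ)) ≤ 4 * ((2 : ℝ) ^ (a * (k : ℝ)) * (v : ℝ) ^ (-a)) := by
  have hv0 : (0 : ℝ) < v := by exact_mod_cast hv
  have h1 : (2 : ℝ) ^ (a * (k' : ℝ)) = ((2 : ℝ) ^ (k' : ℝ)) ^ a := by
    rw [← Real.rpow_mul (by norm_num), mul_comm]
  rw [h1]
  have h2 : (0 : ℝ) < (2 : ℝ) ^ (k : ℝ) / v / 2 := by have := two_pos (k : ℝ); positivity
  refine (Real.rpow_le_rpow_of_nonpos h2 hw.kge ha).trans ?_
  rw [Real.div_rpow (by positivity) (by norm_num), Real.div_rpow (by positivity) hv0.le,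
    ← Real.rpow_mul (by norm_num), mul_comm (k : ℝ) a, Real.rpow_neg hv0.le]
  have h3 : (1 : ℝ) / 4 ≤ (2 : ℝ) ^ a := by
    have : (2 : ℝ) ^ (-2 : ℝ) ≤ (2 : ℝ) ^ a := two_le ha1
    rw [show (-2 : ℝ) = ((-2 : ℤ) : ℝ) by norm_num, Real.rpow_intCast] at this
    norm_num at this ⊢
    (clear * - this; linarith)
  have h4 := two_pos a
  have h5 : 0 ≤ (2 : ℝ) ^ (a * (k : ℝ)) * ((v : ℝ) ^ a)⁻¹ := by positivity
  rw [div_eq_mul_inv, div_eq_mul_inv]
  have h6 : ((2 : ℝ) ^ a)⁻¹ ≤ 4 := by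
    rw [inv_le_comm₀ h4 (by norm_num)]; (clear * - h3; linarith)
  calc _ ≤ (2 : ℝ) ^ (a * (k : ℝ)) * ((v : ℝ) ^ a)⁻¹ * 4 := mul_le_mul_of_nonneg_left h6 h5
    _ = _ := by ring

end Pool.Agent.M20.Helper33.KS
end

/- Helper53.KN.Helper33.KS.LBounds -/
section
/-!
# Window bounds for Prop `Light` (project KS, MP_768c9c_nt)
-/

set_option autoImplicit false
set_option linter.all false

namespace Pool.Agent.M20.Helper33.KS

open Finset
open Pool.Agent.M20.Helper16.KS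

theorem three_pow_le {k0 k n : ℕ} (hk0 : 1 ≤ k0) (hk : 1 ≤ k) (hn0 : n ≠ 0) (hn : Sys.rough k0 n)
    (hnk : n < 2 ^ (k + 1)) :
    (3 : ℝ) ^ n.primeFactorsList.length ≤ (2 : ℝ) ^ (20 * (k : ℝ) / k0) := by
  have h1 := Sys.rough_omega_le hk0 hn0 hn hnk
  have hk0' : (0 : ℝ) < k0 := by exact_mod_cast hk0
  have hk' : (1 : ℝ) ≤ k := by exact_mod_cast hk
  calc (3 : ℝ) ^ n.primeFactorsList.length ≤ (4 : ℝ) ^ n.primeFactorsList.length :=
        pow_le_pow_left₀ (by norm_num) (by norm_num) _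
    _ = (2 : ℝ) ^ (2 * (n.primeFactorsList.length : ℝ)) := by
        rw [Real.rpow_mul (by norm_num), Real.rpow_natCast]
        norm_num
    _ ≤ (2 : ℝ) ^ (20 * (k : ℝ) / k0) := by
        apply two_le
        have h2 : 2 * (5 * ((k : ℝ) + 1) / k0) ≤ 20 * (k : ℝ) / k0 := by
          rw [← mul_div_assoc]
          apply div_le_div_of_nonneg_right _ hk0'.le
          (clear * - hk'; linarith)
        (clear * - h1 h2; linarith)

theorem G_mul (S : Sys) {k : ℕ} (hk : 1 ≤ k) :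
    (2 : ℝ) ^ ec S.d k * (2 : ℝ) ^ ((S.s - 1) * k) = S.G k * (k : ℝ) ^ 4 := by
  unfold Sys.G
  have : (k : ℝ) ^ 4 ≠ 0 := by
    have : (k : ℝ) ≠ 0 := by exact_mod_cast (show k ≠ 0 by omega)
    (clear * - hk; positivity)
  field_simp

/-- elements of a sub-window -/
theorem mem_win_facts {S : Sys} {k j v x h k' m : ℕ} (hw : WData S k j v x h k') (hv : 1 ≤ v)
    (hj : j < nc S.d k) (hm : m ∈ Finset.Ico x (x + h)) : m ≠ 0 ∧ m < 2 ^ (k + 1) := by
  have hx : 0 < x := lt_of_lt_of_le (by positivity) hw.low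
  have hm1 := (Finset.mem_Ico.mp hm).1
  refine ⟨by omega, ?_⟩
  rw [← hw.eq, mem_wdiv (by omega)] at hm
  have h1 : v * m ∈ cell S.d k j := by
    rw [mem_cell]; exact hm
  have h2 := cell_lt S.d_pos hj h1
  exact lt_of_le_of_lt (Nat.le_mul_of_pos_left m (by omega)) h2

private theorem dk_le {S : Sys} {k : ℕ} (hk' : (100 : ℝ) ≤ k) : 1.2 * S.d * (k : ℝ) ≤ (k : ℝ) / 7 := by
  have hd := S.d_le'
  have h1 : 1.2 * S.d ≤ 1 / 7 := by (clear * - hd; linarith)
  have h2 := mul_le_mul_of_nonneg_right h1 ((by norm_num : (0 : ℝ) ≤ 100).trans hk')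
  (clear * - h2; linarith)

private theorem hwin_aux {S : Sys} {k k' v h : ℕ} (hkd : 4 ≤ S.d * k) (hkk' : (k' : ℝ) ≤ k)
    (hv0 : (0 : ℝ) < v) (hv2 : (v : ℝ) ≤ (2 : ℝ) ^ (1.2 * S.d * (k : ℝ)))
    (hlen : (2 : ℝ) ^ ec S.d k / v / 2 ≤ h) : (2 : ℝ) ^ ((1 / 2 - 3 * S.d) * (k' : ℝ)) ≤ h := by
  have hd := S.d_le'
  calc (2 : ℝ) ^ ((1 / 2 - 3 * S.d) * (k' : ℝ)) ≤ (2 : ℝ) ^ ((1 / 2 - 3 * S.d) * (k : ℝ)) := by
        apply two_le
        apply mul_le_mul_of_nonneg_left hkk'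
        (clear * - hd; linarith)
    _ ≤ (2 : ℝ) ^ ((k : ℝ) * (1 / 2 - S.d) - 1 - 1.2 * S.d * (k : ℝ) - 1) := by
        apply two_le
        (clear * - hkd; linarith)
    _ = (2 : ℝ) ^ ((k : ℝ) * (1 / 2 - S.d) - 1) / (2 : ℝ) ^ (1.2 * S.d * (k : ℝ)) / 2 := by
        rw [Real.rpow_sub_one (by norm_num), Real.rpow_sub (by norm_num)]
    _ ≤ (2 : ℝ) ^ ec S.d k / v / 2 := by
        apply div_le_div_of_nonneg_right _ (by norm_num)
        exact div_le_div₀ (pow_nonneg (by norm_num) _) (two_ec_ge S.d k) hv0 hv2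
    _ ≤ h := hlen

/-- crude bound in a sub-window -/
theorem win_crude (S : Sys) {k0 : ℕ} {R : Set ℕ} (hG : S.Good k0 R) {k j v : ℕ} (hk0 : 1 ≤ k0)
    (hk : 100 ≤ k) (hkd : 4 ≤ S.d * k) (hkk : k0 ≤ k) (hj : j < nc S.d k) (hv : 1 ≤ v)
    (hv2 : (v : ℝ) ≤ (2 : ℝ) ^ (1.2 * S.d * (k : ℝ))) :
    ∑ m ∈ wdiv v (2 ^ k + j * 2 ^ ec S.d k) (2 ^ k + (j + 1) * 2 ^ ec S.d k),
      cm (fun p => 3 * S.Fh k0 R p) m ≤
    S.G k * (8 * (k : ℝ) ^ 4 * (2 : ℝ) ^ (7 * S.tau * k) * (2 : ℝ) ^ (20 * (k : ℝ) / k0)) *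
      (v : ℝ) ^ (-S.s) := by
  have hk' : (100 : ℝ) ≤ k := by exact_mod_cast hk
  have hd := S.d_le'
  have hd0 := S.d_pos
  have hs := S.s_pos
  have hs2 := S.s_lt
  have ht := S.tau_pos
  have ht2 := S.tau_le_s
  have hv0 : (0 : ℝ) < v := by exact_mod_cast hv
  have hv1 : (1 : ℝ) ≤ v := by exact_mod_cast hv
  obtain ⟨x, h, k', hw⟩ := exists_wdata S (v := v) hk hj hv (hv2.trans (two_le (dk_le hk')))
  rw [hw.eq]
  have hkk' : (k' : ℝ) ≤ k := by exact_mod_cast hw.kk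
  have hk0k : (k0 : ℝ) ≤ k := by exact_mod_cast hkk
  have h1 : ∑ m ∈ Finset.Ico x (x + h), cm (fun p => 3 * S.Fh k0 R p) m ≤
      (2 : ℝ) ^ (20 * (k : ℝ) / k0) * ∑ m ∈ Finset.Ico x (x + h), CM (S.Fh k0 R) m := by
    rw [Finset.mul_sum]
    refine Finset.sum_le_sum fun m hm => ?_
    obtain ⟨hm0, hmk⟩ := mem_win_facts hw hv hj hm
    rw [cm_mul_fun (fun _ => (3 : ℝ)) (S.Fh k0 R), cm_const _ hm0, ← CM_eq_cm _ hm0]
    by_cases hr : Sys.rough k0 m
    · exact mul_le_mul_of_nonneg_right (three_pow_le hk0 (by omega) hm0 hr hmk)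
        (CM_nonneg fun p _ _ => S.Fh_nonneg k0 R p)
    · rw [S.CM_Fh_eq_zero k0 R hm0 hr]; simp
  have hwin := hwin_aux hkd hkk' hv0 hv2 hw.len'
  have h2 := hG.crude k' x h (by (clear * - hk0k hw; linarith [hw.half])) hw.low hw.up hwin hw.hx
  have h3 := hw.pow_le hv (a := S.s - 1 + 7 * S.tau) (by
    have : S.s / 10 ^ 6 ≤ S.s := by
      rw [div_le_iff₀ (by positivity)]; (clear * - ht ht2; linarith)
    norm_num at hs2
    (clear * - ht ht2 hs2; linarith)) (by (clear * - hs2 ht ht2; linarith))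
  have h4 : (v : ℝ) ^ (-(S.s - 1 + 7 * S.tau)) / v ≤ (v : ℝ) ^ (-S.s) := by
    rw [← Real.rpow_sub_one hv0.ne']
    apply Real.rpow_le_rpow_of_exponent_le hv1
    (clear * - ht; linarith)
  have h5 : (2 : ℝ) ^ ((S.s - 1 + 7 * S.tau) * (k : ℝ)) =
      (2 : ℝ) ^ ((S.s - 1) * (k : ℝ)) * (2 : ℝ) ^ (7 * S.tau * (k : ℝ)) := by
    rw [← Real.rpow_add (by norm_num)]
    congr 1; ring
  have h6 : ∑ m ∈ Finset.Ico x (x + h), CM (S.Fh k0 R) m ≤
      S.G k * (8 * (k : ℝ) ^ 4 * (2 : ℝ) ^ (7 * S.tau * k)) * (v : ℝ) ^ (-S.s) := by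
    calc ∑ m ∈ Finset.Ico x (x + h), CM (S.Fh k0 R) m
        ≤ h * (2 : ℝ) ^ ((S.s - 1 + 7 * S.tau) * (k' : ℝ)) := h2
      _ ≤ (2 * 2 ^ ec S.d k / v) * (4 * ((2 : ℝ) ^ ((S.s - 1 + 7 * S.tau) * (k : ℝ)) *
            (v : ℝ) ^ (-(S.s - 1 + 7 * S.tau)))) :=
          mul_le_mul hw.len h3 (two_pos _).le (by (clear * - hv; positivity))
      _ = 8 * (2 ^ ec S.d k * (2 : ℝ) ^ ((S.s - 1) * (k : ℝ))) * (2 : ℝ) ^ (7 * S.tau * (k : ℝ)) *
            ((v : ℝ) ^ (-(S.s - 1 + 7 * S.tau)) / v) := by rw [h5]; ring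
      _ ≤ 8 * (2 ^ ec S.d k * (2 : ℝ) ^ ((S.s - 1) * (k : ℝ))) * (2 : ℝ) ^ (7 * S.tau * (k : ℝ)) *
            (v : ℝ) ^ (-S.s) := mul_le_mul_of_nonneg_left h4 (by positivity)
      _ = _ := by rw [G_mul S (by (clear * - S k0 j v hk; omega))]; ring
  refine h1.trans ((mul_le_mul_of_nonneg_left h6 (two_pos _).le).trans (le_of_eq ?_))
  ring

/-- the R-part function -/
theorem cm_bR (S : Sys) (R : Set ℕ) {e : ℕ} (he : e ≠ 0) :
    cm (fun p => 3 * S.bR R p) e = (3 : ℝ) ^ e.primeFactorsList.length *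
      (cm (S.bR R) e) := by
  rw [cm_mul_fun (fun _ => (3 : ℝ)) (S.bR R), cm_const _ he]

theorem cm_bR_eq (S : Sys) (R : Set ℕ) {e : ℕ} (he : e ≠ 0) (h : inR R e) :
    cm (S.bR R) e = S.base e := by
  have h1 : cm (S.bR R) e = cm S.base e := by
    refine cm_congr fun p hp hpe => ?_
    unfold Sys.bR
    rw [if_pos (h p hp hpe)]
  rw [h1]
  exact cm_rpow _ he

theorem cm_eq_zero {F : ℕ → ℝ} {n p : ℕ} (hp : p.Prime) (hpn : p ∣ n) (h : F p = 0) :
    cm F n = 0 := by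
  obtain ⟨c, rfl⟩ := hpn
  rw [map_mul, cm_prime _ hp, h, zero_mul]

theorem cm_bR_zero (S : Sys) (R : Set ℕ) {e : ℕ} (h : ¬ inR R e) : cm (S.bR R) e = 0 := by
  unfold inR at h
  push Not at h
  obtain ⟨p, hp, hpe, hpR⟩ := h
  refine cm_eq_zero hp hpe ?_
  unfold Sys.bR
  rw [if_neg hpR]

/-- bound for a large R-part in a sub-window -/
theorem win_rpart (S : Sys) {k0 : ℕ} {R : Set ℕ} (hG : S.Good k0 R)
    (hord : ∀ p : ℕ, p.Prime → 3 * (2 * S.ordw k0 p) ≤ (p : ℝ) ^ (S.s - 1))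
    {k j v : ℕ} (hk0 : 2 ≤ k0)
    (hk : 100 ≤ k) (hkd : 4 ≤ S.d * k) (hkk : k0 ≤ k) (hj : j < nc S.d k) (hv : 1 ≤ v)
    (hv2 : (v : ℝ) ≤ (2 : ℝ) ^ (1.2 * S.d * (k : ℝ))) :
    ∑ m ∈ wdiv v (2 ^ k + j * 2 ^ ec S.d k) (2 ^ k + (j + 1) * 2 ^ ec S.d k),
      (res {e | (2 : ℝ) ^ ((k : ℝ) / 8) ≤ (e : ℝ)} (cmA fun p => 3 * S.bR R p) *
        (cmA fun p => 3 * (2 * S.ordw k0 p))) m ≤
    S.G k * (8 * (k : ℝ) ^ 4 * (2 : ℝ) ^ (-(S.tau / 25) * k) * (2 : ℝ) ^ (20 * (k : ℝ) / k0)) *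
      (v : ℝ) ^ (-S.s) := by
  classical
  have hk' : (100 : ℝ) ≤ k := by exact_mod_cast hk
  have hd := S.d_le'
  have hd0 := S.d_pos
  have hs := S.s_pos
  have hs2 := S.s_lt
  have ht := S.tau_pos
  have ht2 := S.tau_le_s
  have hv0 : (0 : ℝ) < v := by exact_mod_cast hv
  have hv1 : (1 : ℝ) ≤ v := by exact_mod_cast hv
  obtain ⟨x, h, k', hw⟩ := exists_wdata S (v := v) hk hj hv (hv2.trans (two_le (dk_le hk')))
  rw [hw.eq]
  have hkk' : (k' : ℝ) ≤ k := by exact_mod_cast hw.kk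
  have hk0k : (k0 : ℝ) ≤ k := by exact_mod_cast hkk
  have h1 : ∑ m ∈ Finset.Ico x (x + h),
      (res {e | (2 : ℝ) ^ ((k : ℝ) / 8) ≤ (e : ℝ)} (cmA fun p => 3 * S.bR R p) *
        (cmA fun p => 3 * (2 * S.ordw k0 p))) m ≤
      (2 : ℝ) ^ (20 * (k : ℝ) / k0) * ∑ n ∈ (Finset.Ico x (x + h)).filter (Sys.rough k0),
      ∑ e ∈ n.divisors.filter (fun e : ℕ => (2 : ℝ) ^ ((k' : ℝ) / 8) ≤ (e : ℝ) ∧ inR R e),
        S.base e * ((n / e : ℕ) : ℝ) ^ (S.s - 1) := by
    rw [Finset.mul_sum, Finset.sum_filter]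
    refine Finset.sum_le_sum fun m hm => ?_
    obtain ⟨hm0, hmk⟩ := mem_win_facts hw hv hj hm
    rw [ArithmeticFunction.mul_apply, Nat.sum_divisorsAntidiagonal
      (f := fun a b => res {e : ℕ | (2 : ℝ) ^ ((k : ℝ) / 8) ≤ (e : ℝ)}
        (cmA fun p => 3 * S.bR R p) a * (cmA fun p => 3 * (2 * S.ordw k0 p)) b)]
    by_cases hr : Sys.rough k0 m
    · rw [if_pos hr, Finset.sum_filter, Finset.mul_sum]
      refine Finset.sum_le_sum fun e he => ?_
      have hem := Nat.dvd_of_mem_divisors he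
      have he0 : e ≠ 0 := fun h0 => by rw [h0] at hem; exact hm0 (Nat.eq_zero_of_zero_dvd hem)
      have hme0 : m / e ≠ 0 := (Nat.div_pos (Nat.le_of_dvd (by omega) hem)
        (Nat.pos_of_ne_zero he0)).ne'
      by_cases hE : (2 : ℝ) ^ ((k : ℝ) / 8) ≤ (e : ℝ)
      · rw [res_of_mem _ (show e ∈ {e : ℕ | (2 : ℝ) ^ ((k : ℝ) / 8) ≤ (e : ℝ)} from hE), cmA_apply,
          cmA_apply, cm_bR S R he0]
        by_cases hin : inR R e
        · have hE' : (2 : ℝ) ^ ((k' : ℝ) / 8) ≤ (e : ℝ) := (two_le (by (clear * - hkk'; linarith))).trans hE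
          rw [if_pos ⟨hE', hin⟩, cm_bR_eq S R he0 hin]
          have h3 : (3 : ℝ) ^ e.primeFactorsList.length ≤ (2 : ℝ) ^ (20 * (k : ℝ) / k0) :=
            three_pow_le (by omega) (by omega) he0 (fun p hp hpe => hr p hp (hpe.trans hem))
              (lt_of_le_of_lt (Nat.le_of_dvd (by omega) hem) hmk)
          have h4 : cm (fun p => 3 * (2 * S.ordw k0 p)) (m / e) ≤
              ((m / e : ℕ) : ℝ) ^ (S.s - 1) := by
            rw [← cm_rpow (S.s - 1) hme0]
            refine cm_mono (fun p _ _ => ?_) (fun p hp _ => hord p hp)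
            have := S.ordw_nonneg k0 p
            (clear * - this; positivity)
          have h5 : 0 ≤ cm (fun p => 3 * (2 * S.ordw k0 p)) (m / e) :=
            cm_nonneg (fun p _ => by have := S.ordw_nonneg k0 p; (clear * - this; positivity)) _
          have h6 := S.base_nonneg e
          calc (3 : ℝ) ^ e.primeFactorsList.length * S.base e *
                cm (fun p => 3 * (2 * S.ordw k0 p)) (m / e)
              ≤ (2 : ℝ) ^ (20 * (k : ℝ) / k0) * S.base e * ((m / e : ℕ) : ℝ) ^ (S.s - 1) :=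
                mul_le_mul (mul_le_mul_of_nonneg_right h3 h6) h4 h5
                  (mul_nonneg (two_pos _).le h6)
            _ = _ := by ring
        · rw [cm_bR_zero S R hin, mul_zero, zero_mul]
          split_ifs
          · have := S.base_nonneg e
            have := two_pos (20 * (k : ℝ) / k0)
            positivity
          · simp
      · rw [res_of_notMem _ (show e ∉ {e : ℕ | (2 : ℝ) ^ ((k : ℝ) / 8) ≤ (e : ℝ)} from hE),
          zero_mul]
        split_ifs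
        · have := S.base_nonneg e
          have := two_pos (20 * (k : ℝ) / k0)
          positivity
        · simp
    · rw [if_neg hr]
      unfold Sys.rough at hr
      push Not at hr
      obtain ⟨p, hp, hpm, hlt⟩ := hr
      refine le_of_eq (Finset.sum_eq_zero fun e he => ?_)
      have hem := Nat.dvd_of_mem_divisors he
      have hz1 : S.bR R p = 0 := by
        unfold Sys.bR
        rw [if_neg]
        intro hpR
        exact absurd (hG.prime p hpR).2 (not_le.mpr hlt)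
      have hz2 : S.ordw k0 p = 0 := by
        unfold Sys.ordw
        rw [if_pos]
        have h7 : (p : ℝ) < (2 : ℝ) ^ ((k0 - 1 : ℕ) : ℝ) := by
          refine lt_of_lt_of_le hlt (two_le ?_)
          rw [Nat.cast_sub (by omega)]
          have : (2 : ℝ) ≤ k0 := by exact_mod_cast hk0
          push_cast
          (clear * - hs2 ht ht2 this; linarith)
        rw [Real.rpow_natCast] at h7
        exact_mod_cast h7
      have hsplit : p ∣ e ∨ p ∣ m / e := by
        have : p ∣ e * (m / e) := by rw [Nat.mul_div_cancel' hem]; exact hpm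
        exact (Nat.Prime.dvd_mul hp).mp this
      rcases hsplit with h8 | h8
      · have h9 : res {e : ℕ | (2 : ℝ) ^ ((k : ℝ) / 8) ≤ (e : ℝ)}
            (cmA fun p => 3 * S.bR R p) e = 0 := by
          have h10 : (cmA fun p => 3 * S.bR R p) e = 0 :=
            cm_eq_zero hp h8 (by rw [hz1, mul_zero])
          by_cases hE : (2 : ℝ) ^ ((k : ℝ) / 8) ≤ (e : ℝ)
          · rw [res_of_mem _ (show e ∈ {e : ℕ | (2 : ℝ) ^ ((k : ℝ) / 8) ≤ (e : ℝ)} from hE), h10]
          · rw [res_of_notMem _ (show e ∉ {e : ℕ | (2 : ℝ) ^ ((k : ℝ) / 8) ≤ (e : ℝ)} from hE)]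
        rw [h9, zero_mul]
      · have h10 : (cmA fun p => 3 * (2 * S.ordw k0 p)) (m / e) = 0 :=
          cm_eq_zero hp h8 (by rw [hz2, mul_zero, mul_zero])
        rw [h10, mul_zero]
  have hwin := hwin_aux hkd hkk' hv0 hv2 hw.len'
  have h2 := hG.rpart k' x h (by (clear * - hk0k hw; linarith [hw.half])) hw.low hw.up hwin hw.hx
  have h3 := hw.pow_le hv (a := S.s - 1 - S.tau / 20) (by
    norm_num at hs2
    (clear * - ht ht2 hs2; linarith)) (by
    have : S.s / 10 ^ 6 ≤ S.s := by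
      rw [div_le_iff₀ (by positivity)]; (clear * - ht ht2; linarith)
    norm_num at hs2
    (clear * - ht ht2 hs2; linarith))
  have h4 : (v : ℝ) ^ (-(S.s - 1 - S.tau / 20)) / v ≤
      (2 : ℝ) ^ (S.tau / 140 * k) * (v : ℝ) ^ (-S.s) := by
    rw [← Real.rpow_sub_one hv0.ne']
    have e1 : -(S.s - 1 - S.tau / 20) - 1 = S.tau / 20 + -S.s := by ring
    rw [e1, Real.rpow_add hv0]
    apply mul_le_mul_of_nonneg_right _ (by positivity)
    calc (v : ℝ) ^ (S.tau / 20) ≤ ((2 : ℝ) ^ (1.2 * S.d * (k : ℝ))) ^ (S.tau / 20) :=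
          Real.rpow_le_rpow hv0.le hv2 (by positivity)
      _ = (2 : ℝ) ^ (1.2 * S.d * (k : ℝ) * (S.tau / 20)) := by rw [← Real.rpow_mul (by norm_num)]
      _ ≤ _ := by
          apply two_le
          have : 1.2 * S.d ≤ 1 / 7 := by (clear * - hd hs2 ht ht2; linarith)
          have h8 : 0 ≤ (k : ℝ) * (S.tau / 20) := by positivity
          calc 1.2 * S.d * (k : ℝ) * (S.tau / 20) = 1.2 * S.d * ((k : ℝ) * (S.tau / 20)) := by ring
            _ ≤ 1 / 7 * ((k : ℝ) * (S.tau / 20)) := mul_le_mul_of_nonneg_right this h8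
            _ = _ := by ring
  have h5 : (2 : ℝ) ^ ((S.s - 1 - S.tau / 20) * (k : ℝ)) =
      (2 : ℝ) ^ ((S.s - 1) * (k : ℝ)) * (2 : ℝ) ^ (-(S.tau / 20) * (k : ℝ)) := by
    rw [← Real.rpow_add (by norm_num)]
    congr 1; ring
  have h6 : ∑ n ∈ (Finset.Ico x (x + h)).filter (Sys.rough k0),
      ∑ e ∈ n.divisors.filter (fun e : ℕ => (2 : ℝ) ^ ((k' : ℝ) / 8) ≤ (e : ℝ) ∧ inR R e),
        S.base e * ((n / e : ℕ) : ℝ) ^ (S.s - 1) ≤
      S.G k * (8 * (k : ℝ) ^ 4 * (2 : ℝ) ^ (-(S.tau / 25) * k)) * (v : ℝ) ^ (-S.s) := by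
    calc _ ≤ h * (2 : ℝ) ^ ((S.s - 1 - S.tau / 20) * (k' : ℝ)) := h2
      _ ≤ (2 * 2 ^ ec S.d k / v) * (4 * ((2 : ℝ) ^ ((S.s - 1 - S.tau / 20) * (k : ℝ)) *
            (v : ℝ) ^ (-(S.s - 1 - S.tau / 20)))) :=
          mul_le_mul hw.len h3 (two_pos _).le (by positivity)
      _ = 8 * (2 ^ ec S.d k * (2 : ℝ) ^ ((S.s - 1) * (k : ℝ))) *
            (2 : ℝ) ^ (-(S.tau / 20) * (k : ℝ)) *
            ((v : ℝ) ^ (-(S.s - 1 - S.tau / 20)) / v) := by rw [h5]; ring
      _ ≤ 8 * (2 ^ ec S.d k * (2 : ℝ) ^ ((S.s - 1) * (k : ℝ))) *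
            (2 : ℝ) ^ (-(S.tau / 20) * (k : ℝ)) *
            ((2 : ℝ) ^ (S.tau / 140 * k) * (v : ℝ) ^ (-S.s)) :=
          mul_le_mul_of_nonneg_left h4 (by positivity)
      _ = 8 * (2 ^ ec S.d k * (2 : ℝ) ^ ((S.s - 1) * (k : ℝ))) *
            ((2 : ℝ) ^ (-(S.tau / 20) * (k : ℝ)) * (2 : ℝ) ^ (S.tau / 140 * k)) *
              (v : ℝ) ^ (-S.s) := by ring
      _ ≤ 8 * (2 ^ ec S.d k * (2 : ℝ) ^ ((S.s - 1) * (k : ℝ))) *
            (2 : ℝ) ^ (-(S.tau / 25) * (k : ℝ)) * (v : ℝ) ^ (-S.s) := by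
          apply mul_le_mul_of_nonneg_right _ (by positivity)
          apply mul_le_mul_of_nonneg_left _ (by positivity)
          rw [← Real.rpow_add (by norm_num)]
          apply two_le
          have hk0 := mul_nonneg ht.le (Nat.cast_nonneg (α := ℝ) k)
          (clear * - hk0; linarith)
      _ = _ := by rw [G_mul S (by (clear * - S k0 j v hk; omega))]; ring
  refine h1.trans ((mul_le_mul_of_nonneg_left h6 (two_pos _).le).trans (le_of_eq ?_))
  ring

/-- the scale of a sub-window -/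
theorem WData.ord_le {S : Sys} {k j v x h k' : ℕ} (hw : WData S k j v x h k') (hk : 100 ≤ k)
    (hv : 1 ≤ v) : 2 ≤ x ∧ (h : ℝ) * (x : ℝ) ^ (S.s - 1) / Real.log x ^ 4 ≤
      162 * S.G k * (v : ℝ) ^ (-S.s) := by
  have hk' : (100 : ℝ) ≤ k := by exact_mod_cast hk
  have hs := S.s_pos
  have hs2 := S.s_lt
  have hv0 : (0 : ℝ) < v := by exact_mod_cast hv
  have hv1 : (1 : ℝ) ≤ v := by exact_mod_cast hv
  have hx : (2 : ℝ) ^ ((k : ℝ) / 2) ≤ x := by
    calc (2 : ℝ) ^ ((k : ℝ) / 2) ≤ (2 : ℝ) ^ (k' : ℝ) := two_le hw.half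
      _ = (2 : ℝ) ^ k' := Real.rpow_natCast _ _
      _ ≤ x := by exact_mod_cast hw.low
  have hx0 : (0 : ℝ) < x := lt_of_lt_of_le (two_pos _) hx
  have hx2 : 2 ≤ x := by
    have : (2 : ℝ) ^ (1 : ℝ) ≤ x := (two_le (by (clear * - hk'; linarith))).trans hx
    rw [Real.rpow_one] at this
    exact_mod_cast this
  refine ⟨hx2, ?_⟩
  have hlog : (k : ℝ) / 3 ≤ Real.log x := by
    have h2 : Real.log ((2 : ℝ) ^ ((k : ℝ) / 2)) ≤ Real.log x := Real.log_le_log (two_pos _) hx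
    rw [Real.log_rpow (by norm_num)] at h2
    have := Real.log_two_gt_d9
    have h3 : (k : ℝ) / 2 * (2 / 3) ≤ (k : ℝ) / 2 * Real.log 2 :=
      mul_le_mul_of_nonneg_left (by (clear * - this; linarith))
        (div_nonneg (Nat.cast_nonneg _) zero_le_two)
    (clear * - h2 h3; linarith)
  have hxs : (x : ℝ) ^ (S.s - 1) ≤ (2 : ℝ) ^ ((S.s - 1) * (k : ℝ)) * (v : ℝ) ^ (1 - S.s) := by
    have h2 : (0 : ℝ) < (2 : ℝ) ^ k / v := by positivity
    have h3 : S.s - 1 ≤ 0 := by norm_num at hs2; (clear * - hs hs2; linarith)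
    refine (Real.rpow_le_rpow_of_nonpos h2 hw.xge h3).trans (le_of_eq ?_)
    rw [Real.div_rpow (by positivity) hv0.le, ← Real.rpow_natCast, ← Real.rpow_mul (by norm_num),
      mul_comm (k : ℝ), div_eq_mul_inv, ← Real.rpow_neg hv0.le]
    congr 2; ring
  have hlog4 : 1 / Real.log x ^ 4 ≤ 81 / (k : ℝ) ^ 4 := by
    have h2 : ((k : ℝ) / 3) ^ 4 ≤ Real.log x ^ 4 := pow_le_pow_left₀ (by positivity) hlog 4
    have h3 : (0 : ℝ) < ((k : ℝ) / 3) ^ 4 := by positivity
    calc 1 / Real.log x ^ 4 ≤ 1 / ((k : ℝ) / 3) ^ 4 := one_div_le_one_div_of_le h3 h2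
      _ = 81 / (k : ℝ) ^ 4 := by
          rw [div_pow]
          norm_num
  have h7 : (v : ℝ) ^ (1 - S.s) / v = (v : ℝ) ^ (-S.s) := by
    rw [← Real.rpow_sub_one hv0.ne']
    congr 1; ring
  calc h * (x : ℝ) ^ (S.s - 1) / Real.log x ^ 4
      = h * (x : ℝ) ^ (S.s - 1) * (1 / Real.log x ^ 4) := by ring
    _ ≤ (2 * 2 ^ ec S.d k / v) * ((2 : ℝ) ^ ((S.s - 1) * (k : ℝ)) * (v : ℝ) ^ (1 - S.s)) *
          (81 / (k : ℝ) ^ 4) := by
        apply mul_le_mul (mul_le_mul hw.len hxs (by positivity) (by positivity)) hlog4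
          (by (clear * -; positivity)) (by positivity)
    _ = 162 * (2 ^ ec S.d k * (2 : ℝ) ^ ((S.s - 1) * (k : ℝ)) / (k : ℝ) ^ 4) *
          ((v : ℝ) ^ (1 - S.s) / v) := by ring
    _ = 162 * S.G k * (v : ℝ) ^ (-S.s) := by rw [h7]; rfl

/-- ordinary numbers in a sub-window -/
theorem win_ord (S : Sys) {C : ℝ} {k0 : ℕ}
    (hO : ∀ x h : ℕ, (x : ℝ) ^ (1 / 3 : ℝ) ≤ h → h ≤ x → 2 ≤ x →
      ∑ n ∈ Finset.Ico x (x + h), CM (fun p => 6 * S.ordw k0 p) n ≤
        C * (h * (x : ℝ) ^ (S.s - 1) / Real.log x ^ 4)) (hC : 0 ≤ C)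
    {k j v : ℕ} (hk : 100 ≤ k) (hj : j < nc S.d k) (hv : 1 ≤ v)
    (hv2 : (v : ℝ) ≤ (2 : ℝ) ^ ((k : ℝ) / 7)) :
    ∑ m ∈ wdiv v (2 ^ k + j * 2 ^ ec S.d k) (2 ^ k + (j + 1) * 2 ^ ec S.d k),
      cm (fun p => 3 * (2 * S.ordw k0 p)) m ≤ S.G k * (200 * C) * (v : ℝ) ^ (-S.s) := by
  obtain ⟨x, h, k', hw⟩ := exists_wdata S (v := v) hk hj hv hv2
  rw [hw.eq]
  have h1 : ∑ m ∈ Finset.Ico x (x + h), cm (fun p => 3 * (2 * S.ordw k0 p)) m =
      ∑ m ∈ Finset.Ico x (x + h), CM (fun p => 6 * S.ordw k0 p) m := by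
    refine Finset.sum_congr rfl fun m hm => ?_
    obtain ⟨hm0, _⟩ := mem_win_facts hw hv hj hm
    rw [CM_eq_cm _ hm0]
    exact cm_congr fun p _ _ => by ring
  rw [h1]
  obtain ⟨hx2, hle⟩ := hw.ord_le hk hv
  refine (hO x h hw.third hw.hx hx2).trans ?_
  have h8 : 0 ≤ C * (S.G k * (v : ℝ) ^ (-S.s)) :=
    mul_nonneg hC (mul_nonneg (S.G_nonneg k) (by (clear * - hv; positivity)))
  have h9 := mul_le_mul_of_nonneg_left hle hC
  (clear * - h8 h9; linarith)

/-- composite ordinary numbers in a cell -/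
theorem cell_comp (S : Sys) {C : ℝ} {k0 : ℕ}
    (hO : ∀ x h : ℕ, (x : ℝ) ^ (1 / 3 : ℝ) ≤ h → h ≤ x → 2 ≤ x →
      ∑ n ∈ (Finset.Ico x (x + h)).filter (fun n => ¬ n.Prime), CM (fun p => 6 * S.ordw k0 p) n ≤
        C / k0 * (h * (x : ℝ) ^ (S.s - 1) / Real.log x ^ 4)) (hC : 0 ≤ C)
    {k j : ℕ} (hk : 100 ≤ k) (hj : j < nc S.d k) :
    ∑ n ∈ (Finset.Ico (2 ^ k + j * 2 ^ ec S.d k) (2 ^ k + (j + 1) * 2 ^ ec S.d k)).filter
      (fun n => ¬ n.Prime), cm (fun p => 3 * (2 * S.ordw k0 p)) n ≤ S.G k * (200 * C / k0) := by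
  obtain ⟨x, h, k', hw⟩ := exists_wdata S (v := 1) hk hj le_rfl (by
    rw [Nat.cast_one]; exact Real.one_le_rpow (by norm_num) (by (clear * - hk; positivity)))
  have heq := hw.eq
  rw [wdiv_one] at heq
  rw [heq]
  have h1 : ∑ m ∈ (Finset.Ico x (x + h)).filter (fun n => ¬ n.Prime),
      cm (fun p => 3 * (2 * S.ordw k0 p)) m =
      ∑ m ∈ (Finset.Ico x (x + h)).filter (fun n => ¬ n.Prime),
        CM (fun p => 6 * S.ordw k0 p) m := by
    refine Finset.sum_congr rfl fun m hm => ?_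
    obtain ⟨hm0, _⟩ := mem_win_facts hw le_rfl hj (Finset.mem_filter.mp hm).1
    rw [CM_eq_cm _ hm0]
    exact cm_congr fun p _ _ => by ring
  rw [h1]
  obtain ⟨hx2, hle⟩ := hw.ord_le hk le_rfl
  rw [Nat.cast_one, Real.one_rpow, mul_one] at hle
  refine (hO x h hw.third hw.hx hx2).trans ?_
  have hC' : 0 ≤ C / k0 := div_nonneg hC (Nat.cast_nonneg _)
  have h8 : 0 ≤ C / k0 * S.G k := mul_nonneg hC' (S.G_nonneg k)
  have h9 := mul_le_mul_of_nonneg_left hle hC'
  have h10 : S.G k * (200 * C / k0) = 200 * (C / k0 * S.G k) := by ring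
  rw [h10]
  (clear * - h8 h9; linarith)

end Pool.Agent.M20.Helper33.KS
end

/- Helper53.KN.Helper33.KS.Light -/
section
/-!
# The light part of STAR, combinatorial assembly (project KS, MP_768c9c_nt)

`light_sum`: the sum of `cm (al + rb + ga)` over a window in terms of

* primes of the window with weight `al`,
* a medium divisor `v'` of the `ga`-part (crude bound for the rest),
* a large `rb`-part,
* ordinary numbers (`al`) in sub-windows.
-/

set_option autoImplicit false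

namespace Pool.Agent.M20.Helper33.KS

open Finset

/-- a divisor in `[V0, V1]` of a number `≥ V1` whose prime factors are `≤ V1 / V0` -/
theorem exists_mid_divisor {V0 V1 : ℝ} (h0 : 1 ≤ V0) (h01 : V0 ≤ V1) {v : ℕ} (hv0 : v ≠ 0)
    (hv : V1 ≤ v) (hp : ∀ p, p.Prime → p ∣ v → (p : ℝ) * V0 ≤ V1) :
    ∃ d, d ∣ v ∧ V0 ≤ (d : ℝ) ∧ (d : ℝ) ≤ V1 := by
  classical
  set s := v.divisors.filter (fun d : ℕ => V0 ≤ (d : ℝ)) with hs
  have hne : s.Nonempty := ⟨v, by
    rw [hs, Finset.mem_filter, Nat.mem_divisors]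
    exact ⟨⟨dvd_rfl, hv0⟩, h01.trans hv⟩⟩
  have hmem := s.min'_mem hne
  set d := s.min' hne with hd
  rw [hs, Finset.mem_filter, Nat.mem_divisors] at hmem
  refine ⟨d, hmem.1.1, hmem.2, ?_⟩
  by_cases h1 : d = 1
  · rw [h1]; push_cast; (clear * - h0 h01; linarith)
  obtain ⟨p, hpp, hpd⟩ := Nat.exists_prime_and_dvd h1
  obtain ⟨c, hc⟩ := hpd
  have hd0 : d ≠ 0 := fun h => by rw [h] at hmem; exact hv0 (Nat.eq_zero_of_zero_dvd hmem.1.1)
  have hc0 : 0 < c := by
    rcases Nat.eq_zero_or_pos c with h | h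
    · rw [h, mul_zero] at hc; exact absurd hc hd0
    · exact h
  have hcd : c < d := by
    rw [hc]
    (clear * - hc hpp hc0; nlinarith [hpp.two_le])
  have hcv : c ∣ v := (Dvd.intro_left p hc.symm).trans hmem.1.1
  have hclt : (c : ℝ) < V0 := by
    by_contra hcon
    push Not at hcon
    have hcs : c ∈ s := by
      rw [hs, Finset.mem_filter, Nat.mem_divisors]
      exact ⟨⟨hcv, hv0⟩, hcon⟩
    have := s.min'_le c hcs
    omega
  have h2 := hp p hpp ((Dvd.intro c hc.symm).trans hmem.1.1)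
  have h3 : (d : ℝ) = p * c := by rw [hc]; push_cast; ring
  rw [h3]
  have hp0 : (0 : ℝ) < p := by exact_mod_cast hpp.pos
  (clear * - h2 hclt; nlinarith)

/-- part (a): pull out a medium divisor -/
theorem conv_mid {ga : ℕ → ℝ} (hga : ∀ p, p.Prime → 0 ≤ ga p) {V0 V1 : ℝ} (h0 : 1 ≤ V0)
    (h01 : V0 ≤ V1) (hp : ∀ p, p.Prime → ga p ≠ 0 → (p : ℝ) * V0 ≤ V1)
    (q F : ArithmeticFunction ℝ) (hq : ∀ n, 0 ≤ q n)
    (hF : ∀ n, n ≠ 0 → (cmA ga * q) n ≤ F n) {n : ℕ} (hn : n ≠ 0) :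
    (res {v | V1 ≤ (v : ℝ)} (cmA ga) * q) n ≤
      (res {v | V0 ≤ (v : ℝ) ∧ (v : ℝ) ≤ V1} (cmA ga) * F) n := by
  classical
  set g := cmA ga with hg
  have hg0 : ∀ n, 0 ≤ g n := fun n => cm_nonneg hga n
  rw [ArithmeticFunction.mul_apply, ArithmeticFunction.mul_apply,
    Nat.sum_divisorsAntidiagonal (f := fun a b => res {v | V1 ≤ (v : ℝ)} g a * q b),
    Nat.sum_divisorsAntidiagonal
      (f := fun a b => res {v | V0 ≤ (v : ℝ) ∧ (v : ℝ) ≤ V1} g a * F b)]
  -- the chosen divisor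
  have hex : ∀ v : ℕ, ∃ d, v ∈ n.divisors → V1 ≤ (v : ℝ) → g v ≠ 0 →
      d ∣ v ∧ V0 ≤ (d : ℝ) ∧ (d : ℝ) ≤ V1 := by
    intro v
    by_cases h : v ∈ n.divisors ∧ V1 ≤ (v : ℝ) ∧ g v ≠ 0
    · obtain ⟨h1, h2, h3⟩ := h
      have hv0 : v ≠ 0 := fun h => by
        rw [h] at h1; simp at h1; 
      obtain ⟨d, hd⟩ := exists_mid_divisor h0 h01 hv0 h2 (fun p hpp hpv => by
        apply hp p hpp
        intro hzero
        apply h3
        obtain ⟨c, hc⟩ := hpv
        rw [hg, hc, cmA_mul, cmA_apply, cm_prime _ hpp, hzero, zero_mul])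
      exact ⟨d, fun _ _ _ => hd⟩
    · refine ⟨0, fun h1 h2 h3 => absurd ⟨h1, h2, h3⟩ h⟩
  choose t ht using hex
  set s := n.divisors.filter (fun v : ℕ => V1 ≤ (v : ℝ) ∧ g v ≠ 0) with hs
  have hL : ∑ v ∈ n.divisors, res {v | V1 ≤ (v : ℝ)} g v * q (n / v) =
      ∑ v ∈ s, g (t v) * (g (v / t v) * q (n / t v / (v / t v))) := by
    rw [hs, Finset.sum_filter]
    refine Finset.sum_congr rfl fun v hv => ?_
    by_cases h1 : V1 ≤ (v : ℝ)
    · rw [res_of_mem g (show v ∈ {v : ℕ | V1 ≤ (v : ℝ)} from h1)]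
      by_cases h2 : g v = 0
      · rw [if_neg (fun h => h.2 h2), h2, zero_mul]
      · rw [if_pos ⟨h1, h2⟩]
        obtain ⟨hd, _, _⟩ := ht v hv h1 h2
        have hvn := Nat.dvd_of_mem_divisors hv
        have e1 : t v * (v / t v) = v := Nat.mul_div_cancel' hd
        have e2 : n / t v / (v / t v) = n / v := by
          rw [Nat.div_div_eq_div_mul, e1]
        rw [e2, ← mul_assoc]
        congr 1
        rw [hg, ← cmA_mul, e1]
    · rw [res_of_notMem g (show v ∉ {v : ℕ | V1 ≤ (v : ℝ)} from h1), zero_mul,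
        if_neg (fun h => h1 h.1)]
  rw [hL]
  have hinj : Set.InjOn (fun v => (⟨t v, v / t v⟩ : Σ _ : ℕ, ℕ)) (s : Set ℕ) := by
    intro v hv w hw h
    rw [hs, Finset.coe_filter, Set.mem_ofPred_eq] at hv hw
    obtain ⟨hd, _, _⟩ := ht v hv.1 hv.2.1 hv.2.2
    obtain ⟨hd', _, _⟩ := ht w hw.1 hw.2.1 hw.2.2
    have h1 := (Sigma.mk.inj h).1
    have h2 := eq_of_heq (Sigma.mk.inj h).2
    rw [← Nat.mul_div_cancel' hd, ← Nat.mul_div_cancel' hd', h2, h1]
  calc ∑ v ∈ s, g (t v) * (g (v / t v) * q (n / t v / (v / t v)))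
      = ∑ x ∈ s.image (fun v => (⟨t v, v / t v⟩ : Σ _ : ℕ, ℕ)),
          g x.1 * (g x.2 * q (n / x.1 / x.2)) := by
        rw [Finset.sum_image hinj]
    _ ≤ ∑ x ∈ (n.divisors.filter (fun v : ℕ => V0 ≤ (v : ℝ) ∧ (v : ℝ) ≤ V1)).sigma
          (fun d => (n / d).divisors), g x.1 * (g x.2 * q (n / x.1 / x.2)) := by
        refine Finset.sum_le_sum_of_subset_of_nonneg ?_ fun x _ _ =>
          mul_nonneg (hg0 _) (mul_nonneg (hg0 _) (hq _))
        intro x hx
        obtain ⟨v, hv, rfl⟩ := Finset.mem_image.mp hx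
        rw [hs, Finset.mem_filter] at hv
        obtain ⟨hd, h1, h2⟩ := ht v hv.1 hv.2.1 hv.2.2
        have hvn := Nat.dvd_of_mem_divisors hv.1
        rw [Finset.mem_sigma, Finset.mem_filter]
        refine ⟨⟨Nat.mem_divisors.mpr ⟨hd.trans hvn, hn⟩, h1, h2⟩, ?_⟩
        rw [Nat.mem_divisors]
        refine ⟨Nat.div_dvd_div hd hvn, ?_⟩
        exact (Nat.div_pos (Nat.le_of_dvd (by omega) (hd.trans hvn))
          (Nat.pos_of_dvd_of_pos (hd.trans hvn) (by omega))).ne'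
    _ = ∑ d ∈ n.divisors.filter (fun v : ℕ => V0 ≤ (v : ℝ) ∧ (v : ℝ) ≤ V1),
          g d * (g * q) (n / d) := by
        rw [Finset.sum_sigma]
        refine Finset.sum_congr rfl fun d _ => ?_
        rw [ArithmeticFunction.mul_apply, Nat.sum_divisorsAntidiagonal
          (f := fun a b => g a * q b), Finset.mul_sum]
    _ ≤ ∑ d ∈ n.divisors.filter (fun v : ℕ => V0 ≤ (v : ℝ) ∧ (v : ℝ) ≤ V1), g d * F (n / d) := by
        refine Finset.sum_le_sum fun d hd => ?_
        rw [Finset.mem_filter] at hd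
        have hdn := Nat.dvd_of_mem_divisors hd.1
        exact mul_le_mul_of_nonneg_left (hF _ (Nat.div_pos (Nat.le_of_dvd (by omega) hdn)
          (Nat.pos_of_dvd_of_pos hdn (by omega))).ne') (hg0 _)
    _ = ∑ v ∈ n.divisors, res {v | V0 ≤ (v : ℝ) ∧ (v : ℝ) ≤ V1} g v * F (n / v) := by
        rw [Finset.sum_filter]
        refine Finset.sum_congr rfl fun v _ => ?_
        by_cases h1 : V0 ≤ (v : ℝ) ∧ (v : ℝ) ≤ V1
        · rw [if_pos h1, res_of_mem g (show v ∈ {v : ℕ | V0 ≤ (v : ℝ) ∧ (v : ℝ) ≤ V1} from h1)]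
        · rw [if_neg h1, res_of_notMem g
            (show v ∉ {v : ℕ | V0 ≤ (v : ℝ) ∧ (v : ℝ) ≤ V1} from h1), zero_mul]

/-- pointwise splitting of `cm (al + rb + ga) n` -/
theorem light_point {al rb ga ft : ℕ → ℝ} (hal : ∀ p, p.Prime → 0 ≤ al p)
    (hrb : ∀ p, p.Prime → 0 ≤ rb p) (hga : ∀ p, p.Prime → 0 ≤ ga p)
    (hft : ∀ p, p.Prime → 3 * ga p + 3 * rb p + 3 * al p ≤ ft p)
    {V0 V1 E0 : ℝ} (h0 : 1 ≤ V0) (h01 : V0 ≤ V1) (hV1 : 1 < V1) (hE0 : 1 < E0)
    (hp : ∀ p, p.Prime → ga p ≠ 0 → (p : ℝ) * V0 ≤ V1) {n : ℕ} (hn : n ≠ 0) :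
    cm (fun p => al p + rb p + ga p) n ≤ (if n.Prime then al n else 0) +
      (if n.Prime then 0 else cm (fun p => 3 * al p) n) +
      (res {v | V0 ≤ (v : ℝ) ∧ (v : ℝ) ≤ V1} (cmA fun p => 3 * ga p) * cmA ft) n +
      (res {v | (v : ℝ) < V1} (cmA fun p => 3 * ga p) *
        (res {v | E0 ≤ (v : ℝ)} (cmA fun p => 3 * rb p) * (cmA fun p => 3 * al p))) n +
      (res {v | v ≠ 1} (res {v | (v : ℝ) < V1} (cmA fun p => 3 * ga p) *
        res {v | (v : ℝ) < E0} (cmA fun p => 3 * rb p)) * (cmA fun p => 3 * al p)) n := by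
  classical
  set g := cmA fun p => 3 * ga p with hg
  set r := cmA fun p => 3 * rb p with hr
  set a := cmA fun p => 3 * al p with ha
  have hg0 : ∀ n, 0 ≤ g n := fun n => cm_nonneg (fun p hp => mul_nonneg (by norm_num) (hga p hp)) n
  have hr0 : ∀ n, 0 ≤ r n := fun n => cm_nonneg (fun p hp => mul_nonneg (by norm_num) (hrb p hp)) n
  have ha0 : ∀ n, 0 ≤ a n := fun n => cm_nonneg (fun p hp => mul_nonneg (by norm_num) (hal p hp)) n
  have hT : cm (fun p => al p + rb p + ga p) n ≤ (g * (r * a)) n := by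
    have h := cm_split_three hal hrb hga hn
    have e : (a * r * g) n = ∑ x ∈ n.divisorsAntidiagonal, (∑ y ∈ x.1.divisorsAntidiagonal,
        cm (fun p => 3 * al p) y.1 * cm (fun p => 3 * rb p) y.2) *
          cm (fun p => 3 * ga p) x.2 := by
      rw [ArithmeticFunction.mul_apply]
      refine Finset.sum_congr rfl fun x _ => ?_
      rw [ArithmeticFunction.mul_apply]; rfl
    rw [← e] at h
    refine h.trans (le_of_eq ?_)
    congr 1; ring
  -- the decomposition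
  set ghi := res {v | V1 ≤ (v : ℝ)} g with hghi
  set glo := res {v | (v : ℝ) < V1} g with hglo
  set rhi := res {v | E0 ≤ (v : ℝ)} r with hrhi
  set rlo := res {v | (v : ℝ) < E0} r with hrlo
  have hgs : g = ghi + glo := by
    rw [hghi, hglo]
    have : ({v : ℕ | (v : ℝ) < V1} : Set ℕ) = ({v : ℕ | V1 ≤ (v : ℝ)} : Set ℕ)ᶜ := by
      ext v; simp
    rw [this, res_add_compl]
  have hrs : r = rhi + rlo := by
    rw [hrhi, hrlo]
    have : ({v : ℕ | (v : ℝ) < E0} : Set ℕ) = ({v : ℕ | E0 ≤ (v : ℝ)} : Set ℕ)ᶜ := by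
      ext v; simp
    rw [this, res_add_compl]
  set c := glo * rlo with hc
  have hcs : c = res {v | v ≠ 1} c + res {v | v = 1} c := by
    have : ({v : ℕ | v = 1} : Set ℕ) = ({v : ℕ | v ≠ 1} : Set ℕ)ᶜ := by
      ext v; simp
    rw [this, res_add_compl]
  have hdec : g * (r * a) = ghi * (r * a) + glo * (rhi * a) + res {v | v ≠ 1} c * a +
      res {v | v = 1} c * a := by
    calc g * (r * a) = ghi * (r * a) + glo * ((rhi + rlo) * a) := by
          rw [← hrs]; nth_rewrite 1 [hgs]; ring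
      _ = ghi * (r * a) + glo * (rhi * a) + c * a := by rw [hc]; ring
      _ = _ := by nth_rewrite 1 [hcs]; ring
  have hone : (res {v | v = 1} c * a) n = a n := by
    rw [ArithmeticFunction.mul_apply]
    rw [Finset.sum_eq_single (1, n)]
    · rw [res_of_mem c (show (1, n).1 ∈ {v : ℕ | v = 1} from rfl), hc,
        ArithmeticFunction.mul_apply]
      simp only [Nat.divisorsAntidiagonal_one, Finset.sum_singleton]
      rw [hglo, hrlo, res_of_mem g (show (1 : ℕ) ∈ {v : ℕ | (v : ℝ) < V1} by simpa using hV1),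
        res_of_mem r (show (1 : ℕ) ∈ {v : ℕ | (v : ℝ) < E0} by simpa using hE0), hg, hr,
        cmA_one, cmA_one]
      ring
    · rintro ⟨u, w⟩ hx hne
      have hx' := Nat.mem_divisorsAntidiagonal.mp hx
      rw [res_of_notMem c (show (u, w).1 ∉ {v : ℕ | v = 1} from fun h => hne (by
        have h' : u = 1 := h
        have h2 : u * w = n := hx'.1
        rw [h', one_mul] at h2
        rw [h', h2])), zero_mul]
    · intro h
      exact absurd (Nat.mem_divisorsAntidiagonal.mpr ⟨one_mul n, hn⟩) h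
  have hhi : (ghi * (r * a)) n ≤ (res {v | V0 ≤ (v : ℝ) ∧ (v : ℝ) ≤ V1} g * cmA ft) n := by
    rw [hghi, hg]
    refine conv_mid (fun p hp => mul_nonneg (by norm_num) (hga p hp)) h0 h01
      (fun p hpp hne => hp p hpp (fun h => hne (by rw [h, mul_zero]))) (r * a) (cmA ft)
      (conv_nonneg hr0 ha0) ?_ hn
    intro m hm
    have h1 : (r * a) m ≤ cm (fun p => 3 * rb p + 3 * al p) m :=
      cm_conv_le (fun p hp => mul_nonneg (by norm_num) (hrb p hp))
        (fun p hp => mul_nonneg (by norm_num) (hal p hp)) hm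
    have h2 : (cmA (fun p => 3 * ga p) * (r * a)) m ≤
        (cmA (fun p => 3 * ga p) * cmA (fun p => 3 * rb p + 3 * al p)) m := by
      rw [ArithmeticFunction.mul_apply, ArithmeticFunction.mul_apply]
      refine Finset.sum_le_sum fun x hx => ?_
      refine mul_le_mul_of_nonneg_left ?_ (hg0 _)
      have hx2 : x.2 ≠ 0 := by
        have hx' := Nat.mem_divisorsAntidiagonal.mp hx
        intro h
        rw [h, mul_zero] at hx'
        exact hx'.2 hx'.1.symm
      exact cm_conv_le (fun p hp => mul_nonneg (by norm_num) (hrb p hp))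
        (fun p hp => mul_nonneg (by norm_num) (hal p hp)) hx2
    refine h2.trans ((cm_conv_le (fun p hp => mul_nonneg (by norm_num) (hga p hp))
      (fun p hp => add_nonneg (mul_nonneg (by norm_num) (hrb p hp))
        (mul_nonneg (by norm_num) (hal p hp))) hm).trans ?_)
    refine cm_mono (fun p hp _ => ?_) (fun p hp _ => ?_)
    · have := hga p hp; have := hrb p hp; have := hal p hp; linarith
    · have := hft p hp; (clear * - this; linarith)
  have hdec' := congrArg (fun f : ArithmeticFunction ℝ => f n) hdec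
  simp only [ArithmeticFunction.add_apply] at hdec'
  rw [hone] at hdec'
  by_cases hpr : n.Prime
  · rw [if_pos hpr, if_pos hpr, cm_prime _ hpr]
    have h1 : (g * (r * a)) n = g n + r n + a n := by
      rw [ArithmeticFunction.mul_apply, Nat.sum_divisorsAntidiagonal
        (f := fun x y : ℕ => g x * (r * a) y), hpr.sum_divisors, Nat.div_self hpr.pos, Nat.div_one,
        ArithmeticFunction.mul_apply, ArithmeticFunction.mul_apply,
        Nat.sum_divisorsAntidiagonal (n := n) (f := fun x y : ℕ => r x * a y), hpr.sum_divisors,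
        Nat.div_self hpr.pos, Nat.div_one]
      simp only [Nat.divisorsAntidiagonal_one, Finset.sum_singleton]
      rw [hg, hr, ha, cmA_one, cmA_one, cmA_one]
      ring
    have hgn : g n = 3 * ga n := cm_prime _ hpr
    have hrn : r n = 3 * rb n := cm_prime _ hpr
    have := hga n hpr
    have := hrb n hpr
    linarith
  · rw [if_neg hpr, if_neg hpr]
    have : cm (fun p => 3 * al p) n = a n := rfl
    linarith

/-- the sum of a convolution over a window, with a bound for the inner sums -/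
theorem sum_conv_le (f h : ArithmeticFunction ℝ) (hf : ∀ n, 0 ≤ f n) {A B : ℕ} (hA : 1 ≤ A)
    (c : ℕ → ℝ) (hc : ∀ v, 1 ≤ v → v < B → f v ≠ 0 → ∑ m ∈ wdiv v A B, h m ≤ c v) :
    ∑ n ∈ Finset.Ico A B, (f * h) n ≤ ∑ v ∈ Finset.Ico 1 B, f v * c v := by
  rw [sum_conv f h hA]
  refine Finset.sum_le_sum fun v hv => ?_
  by_cases h0 : f v = 0
  · rw [h0, zero_mul, zero_mul]
  · obtain ⟨h1, h2⟩ := Finset.mem_Ico.mp hv
    exact mul_le_mul_of_nonneg_left (hc v h1 h2 h0) (hf v)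

/-- **Light part of STAR**, combinatorial form. -/
theorem light_sum {al rb ga ft : ℕ → ℝ} (hal : ∀ p, p.Prime → 0 ≤ al p)
    (hrb : ∀ p, p.Prime → 0 ≤ rb p) (hga : ∀ p, p.Prime → 0 ≤ ga p)
    (hft : ∀ p, p.Prime → 3 * ga p + 3 * rb p + 3 * al p ≤ ft p)
    {V0 V1 E0 : ℝ} (h0 : 1 ≤ V0) (h01 : V0 ≤ V1) (hV1 : 1 < V1) (hE0 : 1 < E0)
    (hp : ∀ p, p.Prime → ga p ≠ 0 → (p : ℝ) * V0 ≤ V1) {A B : ℕ} (hA : 1 ≤ A)
    (D s Z4 Z5 Z6 : ℝ) (hZ6 : 0 ≤ D * Z6)
    (H4 : ∀ v : ℕ, 1 ≤ v → V0 ≤ (v : ℝ) → (v : ℝ) ≤ V1 →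
      ∑ m ∈ wdiv v A B, cm ft m ≤ D * Z4 * (v : ℝ) ^ (-s))
    (H5 : ∀ v : ℕ, 1 ≤ v → (v : ℝ) < V1 →
      ∑ m ∈ wdiv v A B, (res {v | E0 ≤ (v : ℝ)} (cmA fun p => 3 * rb p) *
        (cmA fun p => 3 * al p)) m ≤ D * Z5 * (v : ℝ) ^ (-s))
    (H6 : ∀ t : ℕ, 1 ≤ t → (t : ℝ) < V1 * E0 →
      ∑ u ∈ wdiv t A B, cm (fun p => 3 * al p) u ≤ D * Z6 * (t : ℝ) ^ (-s)) :
    ∑ n ∈ Finset.Ico A B, cm (fun p => al p + rb p + ga p) n ≤
      ∑ p ∈ (Finset.Ico A B).filter Nat.Prime, al p +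
      ∑ n ∈ (Finset.Ico A B).filter (fun n => ¬ n.Prime), cm (fun p => 3 * al p) n +
      D * Z4 * ∑ v ∈ (Finset.Ico 1 B).filter (fun v : ℕ => V0 ≤ (v : ℝ) ∧ (v : ℝ) ≤ V1),
        cm (fun p => 3 * ga p) v * (v : ℝ) ^ (-s) +
      D * Z5 * ∑ v ∈ (Finset.Ico 1 B).filter (fun v : ℕ => (v : ℝ) < V1),
        cm (fun p => 3 * ga p) v * (v : ℝ) ^ (-s) +
      D * Z6 * ∑ t ∈ Finset.Ico 2 B, cm (fun p => 3 * ga p + 3 * rb p) t * (t : ℝ) ^ (-s) := by
  classical
  set g := cmA fun p => 3 * ga p with hg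
  set r := cmA fun p => 3 * rb p with hr
  set a := cmA fun p => 3 * al p with ha
  have hg0 : ∀ n, 0 ≤ g n := fun n => cm_nonneg (fun p hp => mul_nonneg (by norm_num) (hga p hp)) n
  have hr0 : ∀ n, 0 ≤ r n := fun n => cm_nonneg (fun p hp => mul_nonneg (by norm_num) (hrb p hp)) n
  have ha0 : ∀ n, 0 ≤ a n := fun n => cm_nonneg (fun p hp => mul_nonneg (by norm_num) (hal p hp)) n
  have hpt : ∀ n ∈ Finset.Ico A B, _ := fun n hn => light_point hal hrb hga hft h0 h01 hV1 hE0 hp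
    (n := n) (by have := (Finset.mem_Ico.mp hn).1; omega)
  refine (Finset.sum_le_sum hpt).trans ?_
  rw [Finset.sum_add_distrib, Finset.sum_add_distrib, Finset.sum_add_distrib,
    Finset.sum_add_distrib]
  have e1 : ∑ n ∈ Finset.Ico A B, (if n.Prime then al n else 0) =
      ∑ p ∈ (Finset.Ico A B).filter Nat.Prime, al p := by
    rw [Finset.sum_filter]
  have e2 : ∑ n ∈ Finset.Ico A B, (if n.Prime then 0 else cm (fun p => 3 * al p) n) =
      ∑ n ∈ (Finset.Ico A B).filter (fun n => ¬ n.Prime), cm (fun p => 3 * al p) n := by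
    rw [Finset.sum_filter]
    refine Finset.sum_congr rfl fun n _ => ?_
    by_cases h : n.Prime <;> simp [h]
  rw [e1, e2]
  refine add_le_add (add_le_add (add_le_add le_rfl ?_) ?_) ?_
  · -- medium divisor
    refine (sum_conv_le _ _ (res_nonneg hg0) hA (fun v => D * Z4 * (v : ℝ) ^ (-s)) ?_).trans ?_
    · intro v hv1 _ hne
      have hv : V0 ≤ (v : ℝ) ∧ (v : ℝ) ≤ V1 := by
        by_contra hcon
        exact hne (res_of_notMem _ (show v ∉ {v : ℕ | V0 ≤ (v : ℝ) ∧ (v : ℝ) ≤ V1} from hcon))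
      exact H4 v hv1 hv.1 hv.2
    · rw [Finset.mul_sum, Finset.sum_filter]
      refine Finset.sum_le_sum fun v _ => ?_
      by_cases h : V0 ≤ (v : ℝ) ∧ (v : ℝ) ≤ V1
      · rw [if_pos h, res_of_mem _ (show v ∈ {v : ℕ | V0 ≤ (v : ℝ) ∧ (v : ℝ) ≤ V1} from h)]
        have : g v = cm (fun p => 3 * ga p) v := rfl
        rw [this]
        exact le_of_eq (by ring)
      · rw [if_neg h, res_of_notMem _
          (show v ∉ {v : ℕ | V0 ≤ (v : ℝ) ∧ (v : ℝ) ≤ V1} from h), zero_mul]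
  · -- large R-part
    refine (sum_conv_le _ _ (res_nonneg hg0) hA (fun v => D * Z5 * (v : ℝ) ^ (-s)) ?_).trans ?_
    · intro v hv1 _ hne
      have hv : (v : ℝ) < V1 := by
        by_contra hcon
        exact hne (res_of_notMem _ (show v ∉ {v : ℕ | (v : ℝ) < V1} from hcon))
      exact H5 v hv1 hv
    · rw [Finset.mul_sum, Finset.sum_filter]
      refine Finset.sum_le_sum fun v _ => ?_
      by_cases h : (v : ℝ) < V1
      · rw [if_pos h, res_of_mem _ (show v ∈ {v : ℕ | (v : ℝ) < V1} from h)]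
        have : g v = cm (fun p => 3 * ga p) v := rfl
        rw [this]
        exact le_of_eq (by ring)
      · rw [if_neg h, res_of_notMem _ (show v ∉ {v : ℕ | (v : ℝ) < V1} from h), zero_mul]
  · -- ordinary numbers
    have hlo : ∀ n, 0 ≤ (res {v : ℕ | (v : ℝ) < V1} g * res {v : ℕ | (v : ℝ) < E0} r) n :=
      conv_nonneg (res_nonneg hg0) (res_nonneg hr0)
    refine (sum_conv_le _ _ (res_nonneg hlo) hA (fun t => D * Z6 * (t : ℝ) ^ (-s)) ?_).trans ?_
    · intro t ht1 _ hne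
      have ht : (t : ℝ) < V1 * E0 := by
        by_contra hcon
        push Not at hcon
        apply hne
        have h1 : (res {v : ℕ | (v : ℝ) < V1} g * res {v : ℕ | (v : ℝ) < E0} r) t = 0 := by
          rw [ArithmeticFunction.mul_apply]
          refine Finset.sum_eq_zero fun x hx => ?_
          have hx' := (Nat.mem_divisorsAntidiagonal.mp hx).1
          by_cases hx1 : (x.1 : ℝ) < V1
          · by_cases hx2 : (x.2 : ℝ) < E0
            · exfalso
              have h3 : (t : ℝ) = x.1 * x.2 := by rw [← hx']; push_cast; ring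
              have h4 : (x.1 : ℝ) * x.2 < V1 * E0 :=
                mul_lt_mul'' hx1 hx2 (Nat.cast_nonneg _) (Nat.cast_nonneg _)
              (clear * - hcon h3 h4; linarith)
            · rw [res_of_notMem r (show x.2 ∉ {v : ℕ | (v : ℝ) < E0} from hx2), mul_zero]
          · rw [res_of_notMem g (show x.1 ∉ {v : ℕ | (v : ℝ) < V1} from hx1), zero_mul]
        by_cases h2 : t ≠ 1
        · rw [res_of_mem _ (show t ∈ {v : ℕ | v ≠ 1} from h2), h1]
        · rw [res_of_notMem _ (show t ∉ {v : ℕ | v ≠ 1} from h2)]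
      exact H6 t ht1 ht
    · rw [Finset.mul_sum]
      have hsub : Finset.Ico 2 B ⊆ Finset.Ico 1 B := Finset.Ico_subset_Ico_left (by norm_num)
      rw [← Finset.sum_subset hsub]
      · refine Finset.sum_le_sum fun t ht => ?_
        have ht2 := (Finset.mem_Ico.mp ht).1
        rw [res_of_mem _ (show t ∈ {v : ℕ | v ≠ 1} from by simp; omega)]
        have h1 : (res {v : ℕ | (v : ℝ) < V1} g * res {v : ℕ | (v : ℝ) < E0} r) t ≤
            cm (fun p => 3 * ga p + 3 * rb p) t := by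
          refine (conv_mono (res_nonneg hg0) (res_nonneg hr0) (res_le hg0) (res_le hr0) t).trans ?_
          exact cm_conv_le (fun p hp => mul_nonneg (by norm_num) (hga p hp))
            (fun p hp => mul_nonneg (by norm_num) (hrb p hp)) (by omega)
        have h2 : (0 : ℝ) ≤ D * Z6 * (t : ℝ) ^ (-s) := mul_nonneg hZ6 (by positivity)
        calc _ ≤ cm (fun p => 3 * ga p + 3 * rb p) t * (D * Z6 * (t : ℝ) ^ (-s)) :=
              mul_le_mul_of_nonneg_right h1 h2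
          _ = _ := by ring
      · intro t ht htn
        have h1 : t = 1 := by
          rw [Finset.mem_Ico] at ht htn
          omega
        rw [res_of_notMem _ (show t ∉ {v : ℕ | v ≠ 1} from by simp [h1]), zero_mul]

end Pool.Agent.M20.Helper33.KS
end

/- Helper53.KN.Helper33.KS.LFinal -/
section
/-!
# Prop `Light` (project KS, MP_768c9c_nt)
-/

set_option autoImplicit false
set_option linter.all false

namespace Pool.Agent.M20.Helper33.KS

open Finset Filter Topology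
open Pool.Agent.M20.Helper16.KS

/-! ### asymptotics -/

theorem eventually_pow4 (a ε : ℝ) (ha : 0 < a) (hε : 0 < ε) :
    ∃ K : ℕ, ∀ k : ℕ, K ≤ k → (k : ℝ) ^ 4 * (2 : ℝ) ^ (-(a * k)) ≤ ε := by
  have h1 : |(2 : ℝ) ^ (-a)| < 1 := by
    rw [abs_of_pos (two_pos _)]
    exact Real.rpow_lt_one_of_one_lt_of_neg (by norm_num) (by linarith)
  have h2 := tendsto_pow_const_mul_const_pow_of_abs_lt_one 4 h1
  have h3 := (h2.eventually (gt_mem_nhds hε)).exists_forall_of_atTop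
  obtain ⟨K, hK⟩ := h3
  refine ⟨K, fun k hk => ?_⟩
  have h4 := hK k hk
  have h5 : (2 : ℝ) ^ (-(a * k)) = ((2 : ℝ) ^ (-a)) ^ k := by
    rw [← Real.rpow_natCast, ← Real.rpow_mul (by norm_num)]
    congr 1; ring
  rw [h5]
  exact le_of_lt h4

theorem eventually_two (a ε : ℝ) (ha : 0 < a) (hε : 0 < ε) :
    ∃ K : ℕ, ∀ k : ℕ, K ≤ k → (2 : ℝ) ^ (-(a * k)) ≤ ε := by
  obtain ⟨K, hK⟩ := eventually_pow4 a ε ha hε
  refine ⟨max K 1, fun k hk => ?_⟩
  have h1 := hK k (le_trans (le_max_left _ _) hk)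
  have h2 : (1 : ℝ) ≤ (k : ℝ) ^ 4 := by
    have : (1 : ℝ) ≤ k := by exact_mod_cast (le_trans (le_max_right _ _) hk)
    exact one_le_pow₀ this
  have h3 := two_pos (-(a * k))
  (clear * - h1 h2 h3; nlinarith)

theorem eventually_div (C ε : ℝ) (hε : 0 < ε) : ∃ K : ℕ, ∀ k : ℕ, K ≤ k → C / k ≤ ε := by
  obtain ⟨K, hK⟩ := exists_nat_gt (|C| / ε)
  refine ⟨max K 1, fun k hk => ?_⟩
  have h1 : (K : ℝ) ≤ k := by exact_mod_cast (le_trans (le_max_left _ _) hk)
  have h2 : (0 : ℝ) < k := by exact_mod_cast (le_trans (le_max_right _ _) hk)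
  rw [div_le_iff₀ h2]
  have h3 : |C| < K * ε := by rwa [div_lt_iff₀ hε] at hK
  (clear * - h3 hε h1; nlinarith [le_abs_self C])

/-! ### the primes of a cell -/

open scoped Classical in
theorem ordw_cell (S : Sys) {k0 k j p : ℕ} (hk : k0 ≤ k) (hj : j < nc S.d k)
    (hp : p ∈ cell S.d k j) :
    S.ordw k0 p = if S.bad k j then 0 else S.G k / npr S.d k j := by
  have h1 := cell_ge hp
  have h2 : 2 ^ k0 ≤ p := le_trans (Nat.pow_le_pow_right (by norm_num) hk) h1
  have h3 : 2 ^ (k0 - 1) ≤ 2 ^ k0 := Nat.pow_le_pow_right (by norm_num) (by omega)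
  unfold Sys.ordw
  rw [if_neg (by omega), if_neg (by omega), cell_log S.d_pos hj hp, S.cell_idx hj hp]

open scoped Classical in
theorem sum_primes_cell (S : Sys) {k0 k j : ℕ} (hk : k0 ≤ k) (hj : j < nc S.d k) :
    ∑ p ∈ (cell S.d k j).filter Nat.Prime, 2 * S.ordw k0 p ≤
      (if S.bad k j then 0 else 2) * S.G k := by
  have h1 : ∀ p ∈ (cell S.d k j).filter Nat.Prime, 2 * S.ordw k0 p =
      2 * (if S.bad k j then 0 else S.G k / npr S.d k j) := by
    intro p hp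
    rw [ordw_cell S hk hj (Finset.mem_filter.mp hp).1]
  rw [Finset.sum_congr rfl h1, Finset.sum_const, nsmul_eq_mul]
  by_cases hb : S.bad k j
  · rw [if_pos hb, if_pos hb]; simp
  · rw [if_neg hb, if_neg hb]
    have h2 : (((cell S.d k j).filter Nat.Prime).card : ℝ) = (npr S.d k j : ℝ) := rfl
    rw [h2]
    have h3 := S.G_nonneg k
    rcases Nat.eq_zero_or_pos (npr S.d k j) with h | h
    · rw [h]; simp; exact h3
    · have h4 : (npr S.d k j : ℝ) ≠ 0 := by exact_mod_cast h.ne'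
      apply le_of_eq
      field_simp

/-! ### control primes of small blocks -/

theorem ctl_small (S : Sys) {k0 k1 q : ℕ} (hK : S.K ≤ k0) {R : Set ℕ}
    (h : S.ctl k0 k1 R q ≠ 0) : q < 2 ^ k1 := by
  unfold Sys.ctl at h
  obtain ⟨k, hk, h1⟩ := Finset.exists_ne_zero_of_sum_ne_zero h
  obtain ⟨j, hj, h2⟩ := Finset.exists_ne_zero_of_sum_ne_zero h1
  unfold Sys.cw at h2
  obtain ⟨x, hx, _⟩ := Finset.exists_ne_zero_of_sum_ne_zero h2
  rw [Finset.mem_filter, S.mem_act] at hx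
  rw [Finset.mem_Ico] at hk
  obtain ⟨-, -, -, h3, -, -, h4, -, -⟩ := S.cand_facts (by omega) hj hx.1.1
  have h5 : q ≤ x.1 * x.2 := by
    rw [hx.2]; exact Nat.le_mul_of_pos_right q (by omega)
  calc q ≤ x.1 * x.2 := h5
    _ < 2 ^ (k + 1) := h4
    _ ≤ 2 ^ k1 := Nat.pow_le_pow_right (by norm_num) (by omega)

theorem ordw6 {S : Sys} {C : ℝ} {k0 : ℕ} (hk0 : 2 ≤ k0)
    (hO : ∀ p : ℕ, p.Prime → 0 ≤ S.ordw k0 p ∧
      S.ordw k0 p ≤ C * ((p : ℝ) ^ (S.s - 1) / Real.log p ^ 3))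
    (hC : 6 * |C| / k0 ≤ 1 / 27) :
    ∀ p : ℕ, p.Prime → 3 * (2 * S.ordw k0 p) ≤ (p : ℝ) ^ (S.s - 1) := by
  intro p hp
  have hp0 : (0 : ℝ) < p := by exact_mod_cast hp.pos
  by_cases hlt : p < 2 ^ (k0 - 1)
  · have : S.ordw k0 p = 0 := by unfold Sys.ordw; rw [if_pos hlt]
    rw [this]
    have : (0 : ℝ) ≤ (p : ℝ) ^ (S.s - 1) := by positivity
    (clear * - this; linarith)
  · push Not at hlt
    have hk0' : (2 : ℝ) ≤ k0 := by exact_mod_cast hk0
    have h1 : (k0 : ℝ) / 3 ≤ Real.log p := by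
      have h2 : (2 : ℝ) ^ ((k0 : ℝ) / 2) ≤ p := by
        calc (2 : ℝ) ^ ((k0 : ℝ) / 2) ≤ (2 : ℝ) ^ ((k0 - 1 : ℕ) : ℝ) := by
              apply two_le
              rw [Nat.cast_sub (by omega)]
              push_cast; (clear * - hk0'; linarith)
          _ = (2 : ℝ) ^ (k0 - 1) := Real.rpow_natCast _ _
          _ ≤ p := by exact_mod_cast hlt
      have h3 : Real.log ((2 : ℝ) ^ ((k0 : ℝ) / 2)) ≤ Real.log p :=
        Real.log_le_log (two_pos _) h2
      rw [Real.log_rpow (by norm_num)] at h3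
      have := Real.log_two_gt_d9
      (clear * - hk0' h3 this; nlinarith)
    have h4 : (k0 : ℝ) / 27 ≤ Real.log p ^ 3 := by
      have h5 : ((k0 : ℝ) / 3) ^ 3 ≤ Real.log p ^ 3 := pow_le_pow_left₀ (by positivity) h1 3
      have h6 : (k0 : ℝ) / 27 ≤ ((k0 : ℝ) / 3) ^ 3 := by
        have : (1 : ℝ) ≤ (k0 : ℝ) ^ 2 := one_le_pow₀ (by (clear * - hk0'; linarith))
        have : (k0 : ℝ) ≤ (k0 : ℝ) ^ 3 := by (clear * - this hk0'; nlinarith)
        rw [div_pow]; norm_num; (clear * - this; linarith)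
      (clear * - h5 h6; linarith)
    have hlogpos : 0 < Real.log p ^ 3 := lt_of_lt_of_le (by positivity) h4
    have h7 : 6 * |C| ≤ Real.log p ^ 3 := by
      rw [div_le_iff₀ (by (clear * - hk0'; linarith))] at hC
      (clear * - hC h4; linarith)
    have h8 := (hO p hp).2
    have h9 : (0 : ℝ) ≤ (p : ℝ) ^ (S.s - 1) := by positivity
    calc 3 * (2 * S.ordw k0 p) ≤ 6 * (C * ((p : ℝ) ^ (S.s - 1) / Real.log p ^ 3)) := by (clear * - h8; linarith)
      _ = 6 * C / Real.log p ^ 3 * (p : ℝ) ^ (S.s - 1) := by ring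
      _ ≤ 1 * (p : ℝ) ^ (S.s - 1) := by
          apply mul_le_mul_of_nonneg_right _ h9
          rw [div_le_one hlogpos]
          (clear * - h7; nlinarith [le_abs_self C])
      _ = _ := one_mul _

/-- exp bound -/
theorem exp_sub_one_le {x : ℝ} (h0 : 0 ≤ x) (h1 : x ≤ 1 / 2) : Real.exp x - 1 ≤ 2 * x := by
  have h2 := Real.one_sub_le_exp_neg x
  have h3 : Real.exp x * Real.exp (-x) = 1 := by rw [← Real.exp_add]; simp
  have h4 := Real.exp_pos x
  have h5 : Real.exp x * (1 - x) ≤ 1 := by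
    calc Real.exp x * (1 - x) ≤ Real.exp x * Real.exp (-x) :=
          mul_le_mul_of_nonneg_left h2 h4.le
      _ = 1 := h3
  (clear * - h5 h0 h1; nlinarith)

/-- mass of the small cofactors -/
theorem mass_small (S : Sys) {k0 : ℕ} {R : Set ℕ} (hG : S.Good k0 R) (κ : ℕ)
    (hR : ∀ T : Finset ℕ, (∀ n ∈ T, 2 ≤ n) →
      ∑ n ∈ T, CM (fun p => 6 * S.ctl k0 (min (top p) κ) R p) n * (n : ℝ) ^ (-S.s + S.c / 10) ≤
        (2 : ℝ) ^ (-(S.c / 20) * (k0 : ℝ)))
    (hμ : (2 : ℝ) ^ (-(S.c / 20) * (k0 : ℝ)) + 3 * (2 : ℝ) ^ (-(S.tau / 10) * (k0 : ℝ)) ≤ 1 / 4)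
    (B : ℕ) :
    ∑ t ∈ Finset.Ico 2 B, cm (fun p => 3 * (2 * S.ctl k0 (min (top p) κ) R p) + 3 * S.bR R p) t *
      (t : ℝ) ^ (-S.s) ≤
    4 * ((2 : ℝ) ^ (-(S.c / 20) * (k0 : ℝ)) + 3 * (2 : ℝ) ^ (-(S.tau / 10) * (k0 : ℝ))) := by
  classical
  set μ := (2 : ℝ) ^ (-(S.c / 20) * (k0 : ℝ)) + 3 * (2 : ℝ) ^ (-(S.tau / 10) * (k0 : ℝ)) with hμd
  have hμ0 : 0 ≤ μ := by
    have h1 := two_pos (-(S.c / 20) * (k0 : ℝ))
    have h2 := two_pos (-(S.tau / 10) * (k0 : ℝ))
    rw [hμd]; linarith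
  set F : ℕ → ℝ := fun p => (3 * (2 * S.ctl k0 (min (top p) κ) R p) + 3 * S.bR R p) *
    (p : ℝ) ^ (-S.s) with hF
  have hF0 : ∀ p, p.Prime → 0 ≤ F p := by
    intro p _
    have h1 := S.ctl_nonneg k0 (min (top p) κ) R p
    have h2 := S.bR_nonneg R p
    simp only [hF]
    (clear * - h1 h2; positivity)
  have hsum : ∀ N : ℕ, ∑ p ∈ (Finset.Icc 1 N).filter Nat.Prime, F p ≤ μ := by
    intro N
    have h1 : ∑ p ∈ (Finset.Icc 1 N).filter Nat.Prime,
        6 * S.ctl k0 (min (top p) κ) R p * (p : ℝ) ^ (-S.s) ≤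
        (2 : ℝ) ^ (-(S.c / 20) * (k0 : ℝ)) := by
      refine le_trans (Finset.sum_le_sum fun p hp => ?_) (hR ((Finset.Icc 1 N).filter Nat.Prime)
        (fun n hn => (Finset.mem_filter.mp hn).2.two_le))
      have hpp := (Finset.mem_filter.mp hp).2
      rw [CM_prime _ hpp]
      have h2 : (1 : ℝ) ≤ p := by exact_mod_cast hpp.pos
      apply mul_le_mul_of_nonneg_left
      · apply Real.rpow_le_rpow_of_exponent_le h2
        have := S.c_pos
        (clear * - this; linarith)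
      · have := S.ctl_nonneg k0 (min (top p) κ) R p
        positivity
    have h3 : ∑ p ∈ (Finset.Icc 1 N).filter Nat.Prime, S.bR R p * (p : ℝ) ^ (-S.s) ≤
        (2 : ℝ) ^ (-(S.tau / 10) * (k0 : ℝ)) := by
      have h4 := hG.massR (((Finset.Icc 1 N).filter Nat.Prime).filter (fun p => p ∈ R))
        (fun r hr => (Finset.mem_filter.mp hr).2)
      refine le_trans ?_ h4
      rw [Finset.sum_filter (fun p => p ∈ R)]
      refine Finset.sum_le_sum fun p hp => ?_
      have hpp := (Finset.mem_filter.mp hp).2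
      unfold Sys.bR
      by_cases hpR : p ∈ R
      · rw [if_pos hpR, if_pos hpR]
        have h5 : 0 ≤ S.base p * (p : ℝ) ^ (-S.s) := mul_nonneg (S.base_nonneg p) (by positivity)
        have h6 : (1 : ℝ) ≤ (1 + Real.log p) ^ 2 := by
          have : 0 ≤ Real.log p := Real.log_nonneg (by exact_mod_cast hpp.one_lt.le)
          (clear * - this; nlinarith)
        exact le_mul_of_one_le_right h5 h6
      · rw [if_neg hpR, if_neg hpR, zero_mul]
    have h7 : ∑ p ∈ (Finset.Icc 1 N).filter Nat.Prime, F p =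
        ∑ p ∈ (Finset.Icc 1 N).filter Nat.Prime,
          6 * S.ctl k0 (min (top p) κ) R p * (p : ℝ) ^ (-S.s) +
        3 * ∑ p ∈ (Finset.Icc 1 N).filter Nat.Prime, S.bR R p * (p : ℝ) ^ (-S.s) := by
      rw [Finset.mul_sum, ← Finset.sum_add_distrib]
      refine Finset.sum_congr rfl fun p _ => ?_
      simp only [hF]; ring
    rw [h7, hμd]
    (clear * - h1 h3; linarith)
  have hF2 : ∀ p, p.Prime → F p ≤ 1 / 2 := by
    intro p hp
    have h1 := hsum p
    have h2 : F p ≤ ∑ q ∈ (Finset.Icc 1 p).filter Nat.Prime, F q :=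
      Finset.single_le_sum (f := F) (fun q hq => hF0 q (Finset.mem_filter.mp hq).2)
        (Finset.mem_filter.mpr ⟨Finset.mem_Icc.mpr ⟨hp.pos, le_rfl⟩, hp⟩)
    linarith
  have h1 : ∑ t ∈ Finset.Ico 2 B,
      cm (fun p => 3 * (2 * S.ctl k0 (min (top p) κ) R p) + 3 * S.bR R p) t * (t : ℝ) ^ (-S.s) =
      ∑ t ∈ Finset.Ico 2 B, cm F t := by
    refine Finset.sum_congr rfl fun t ht => ?_
    have ht0 : t ≠ 0 := by have := (Finset.mem_Ico.mp ht).1; omega
    rw [hF, cm_mul_fun (fun p => 3 * (2 * S.ctl k0 (min (top p) κ) R p) + 3 * S.bR R p)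
      (fun p => (p : ℝ) ^ (-S.s)), cm_rpow _ ht0]
  rw [h1]
  have h2 : ∑ t ∈ Finset.Ico 2 B, cm F t ≤ ∑ t ∈ Finset.Icc 2 B, cm F t :=
    Finset.sum_le_sum_of_subset_of_nonneg
      (fun x hx => by rw [Finset.mem_Ico] at hx; rw [Finset.mem_Icc]; omega)
      (fun x _ _ => cm_nonneg hF0 x)
  have h3 := sum_cm_le' hF0 hF2 B
  have h4 := hsum B
  have h5 : Real.exp (2 * ∑ p ∈ (Finset.Icc 1 B).filter Nat.Prime, F p) ≤ Real.exp (2 * μ) :=
    Real.exp_le_exp.mpr (by (clear * - h4; linarith))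
  have h6 := exp_sub_one_le (x := 2 * μ) (by (clear * - hμ0; linarith)) (by (clear * - hμ; linarith))
  (clear * - h2 h3 h5 h6; linarith)

/-- **Prop `Light`** -/
theorem light (hOW : OrdWin) (hRk : Rank) (hWp : WpLe) (hOr : OrdLe) : Light := by
  classical
  intro S
  obtain ⟨C0, K1, hO⟩ := hOW S
  obtain ⟨K2, hR⟩ := hRk S
  obtain ⟨K3, hW⟩ := hWp S
  obtain ⟨C4, K4, hOrd⟩ := hOr S
  set C := |C0| with hC
  have hc := S.c_pos
  have hd := S.d_pos
  have hd' := S.d_le'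
  have ht := S.tau_pos
  have ht' := S.tau_le
  have hcd : 0 < S.c * S.d := mul_pos hc hd
  -- thresholds
  obtain ⟨K5, hK5⟩ := eventually_div (20 : ℝ) (S.tau / 100) (by positivity)
  obtain ⟨K6, hK6⟩ := eventually_div (12 : ℝ) S.d hd
  obtain ⟨K7, hK7⟩ := eventually_pow4 (S.c * S.d / 20) (1 / 800) (by positivity) (by norm_num)
  obtain ⟨K8, hK8⟩ := eventually_pow4 (S.tau / 50) (1 / 1600) (by positivity) (by norm_num)
  obtain ⟨K9, hK9⟩ := eventually_two (S.c / 20) (min (1 / 8) (1 / (160000 * (C + 1))))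
    (by positivity) (by (clear * -; positivity))
  obtain ⟨K10, hK10⟩ := eventually_two (S.tau / 10) (min (1 / 24) (1 / (480000 * (C + 1))))
    (by positivity) (by (clear * -; positivity))
  obtain ⟨K11, hK11⟩ := eventually_div (200 * C) (1 / 100) (by norm_num)
  obtain ⟨K12, hK12⟩ := eventually_div (6 * |C4|) (1 / 27) (by norm_num)
  refine ⟨K1 + K2 + K3 + K4 + K5 + K6 + K7 + K8 + K9 + K10 + K11 + K12 + S.K + 100, ?_⟩
  intro k0 hk0 R hG k hk j hj
  have hk0' : 100 ≤ k0 := by omega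
  have hk100 : 100 ≤ k := by omega
  have hkR : (100 : ℝ) ≤ k := by exact_mod_cast hk100
  have hk0R : (100 : ℝ) ≤ k0 := by exact_mod_cast hk0'
  have hkk0 : (k0 : ℝ) ≤ k := by exact_mod_cast hk
  have hdk : 12 ≤ S.d * k := by
    have h1 := hK6 k (by omega)
    rw [div_le_iff₀ (by (clear * - hd hd' hkR; linarith))] at h1
    (clear * - h1; linarith)
  set κ := ⌈S.kap * k⌉₊ with hκ
  set V0 := (2 : ℝ) ^ (S.d * (k : ℝ)) with hV0
  set V1 := (2 : ℝ) ^ (1.2 * S.d * (k : ℝ)) with hV1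
  set E0 := (2 : ℝ) ^ ((k : ℝ) / 8) with hE0
  set A := 2 ^ k + j * 2 ^ ec S.d k with hA
  set B := 2 ^ k + (j + 1) * 2 ^ ec S.d k with hB
  have hV01 : V0 ≤ V1 := two_le (by (clear * - hdk; linarith))
  have hV0g : (2 : ℝ) ≤ V0 := by
    have : (2 : ℝ) ^ (1 : ℝ) ≤ V0 := two_le (by (clear * - hd hd' hdk; linarith))
    simpa using this
  have hE0g : (1 : ℝ) < E0 := Real.one_lt_rpow (by norm_num) (by positivity)
  have hRank := hR k0 (by omega) R hG
  have hWpF := hW k0 (by omega) R hG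
  have hOd := hOrd k0 (by omega)
  have hctl0 : ∀ p, 0 ≤ S.ctl k0 (min (top p) κ) R p := fun p => S.ctl_nonneg _ _ _ _
  -- the main splitting
  have hmain := light_sum (al := fun p => 2 * S.ordw k0 p) (rb := S.bR R)
    (ga := fun p => 2 * S.ctl k0 (min (top p) κ) R p) (ft := fun p => 3 * S.Fh k0 R p)
    (fun p _ => by have := S.ordw_nonneg k0 p; (clear * - this; positivity)) (fun p _ => S.bR_nonneg R p)
    (fun p _ => by have := hctl0 p; (clear * - this; positivity))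
    (by
      intro p hp
      have h1 := (hWpF p hp).2
      have h2 := S.Wl_le_Wp k0 R k p
      have h3 : S.Wl k0 R k p = S.bR R p + 2 * S.ordw k0 p +
        2 * S.ctl k0 (min (top p) κ) R p := rfl
      (clear * - h1 h2 h3; linarith))
    (V0 := V0) (V1 := V1) (E0 := E0) (by (clear * - hd hd' hV0g; linarith)) hV01 (by (clear * - hd hd' hV01 hV0g; linarith)) hE0g
    (by
      intro p hp hne
      have hne' : S.ctl k0 (min (top p) κ) R p ≠ 0 := fun h => hne (by rw [h, mul_zero])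
      have h1 : p < 2 ^ κ := lt_of_lt_of_le (ctl_small S (by omega) hne')
        (Nat.pow_le_pow_right (by norm_num) (min_le_right _ _))
      have h2 : (p : ℝ) ≤ (2 : ℝ) ^ (κ : ℝ) := by
        rw [Real.rpow_natCast]; exact_mod_cast h1.le
      have h3 : (κ : ℝ) ≤ S.d / 10 * k + 1 := by
        have : (κ : ℝ) < S.kap * k + 1 := Nat.ceil_lt_add_one (by
          unfold Sys.kap; positivity)
        unfold Sys.kap at this
        (clear * - this; linarith)
      calc (p : ℝ) * V0 ≤ (2 : ℝ) ^ (κ : ℝ) * V0 :=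
            mul_le_mul_of_nonneg_right h2 (by (clear * - hd hd' hV0g; linarith))
        _ = (2 : ℝ) ^ ((κ : ℝ) + S.d * (k : ℝ)) := by rw [hV0, ← Real.rpow_add (by norm_num)]
        _ ≤ V1 := two_le (by (clear * - hdk h3; linarith)))
    (A := A) (B := B) (by
      have : 0 < 2 ^ k := by positivity
      omega)
    (S.G k) S.s
    (8 * (k : ℝ) ^ 4 * (2 : ℝ) ^ (7 * S.tau * k) * (2 : ℝ) ^ (20 * (k : ℝ) / k0))
    (8 * (k : ℝ) ^ 4 * (2 : ℝ) ^ (-(S.tau / 25) * k) * (2 : ℝ) ^ (20 * (k : ℝ) / k0))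
    (200 * C) (mul_nonneg (S.G_nonneg k) (by (clear * -; positivity)))
    (fun v hv _ hv1 => win_crude S hG (by omega) hk100 (by (clear * - hd hd' hdk; linarith)) hk hj hv hv1)
    (fun v hv hv1 => win_rpart S hG (ordw6 (by omega) hOd (hK12 k0 (by omega))) (by omega) hk100
      (by (clear * - hd hd' hdk; linarith)) hk hj hv hv1.le)
    (fun t ht1 ht2 => win_ord S (C := C) (fun x h h1 h2 h3 => by
        have h4 := (hO k0 (by omega) x h h1 h2 h3).1
        refine h4.trans ?_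
        apply mul_le_mul_of_nonneg_right (le_abs_self C0)
        have : (0 : ℝ) < x := by
          have : 0 < x := by omega
          exact_mod_cast this
        have : 0 ≤ Real.log x := Real.log_nonneg (by exact_mod_cast (show 1 ≤ x by omega))
        (clear * - h3; positivity)) (abs_nonneg _) hk100 hj ht1 (by
        refine ht2.le.trans ?_
        rw [hV1, hE0, ← Real.rpow_add (by norm_num)]
        apply two_le
        (clear * - hd hd' hdk; nlinarith)))
  -- the masses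
  set M4 := ∑ v ∈ (Finset.Ico 1 B).filter (fun v : ℕ => V0 ≤ (v : ℝ) ∧ (v : ℝ) ≤ V1),
        cm (fun p => 3 * (2 * S.ctl k0 (min (top p) κ) R p)) v * (v : ℝ) ^ (-S.s) with hM4
  set M5 := ∑ v ∈ (Finset.Ico 1 B).filter (fun v : ℕ => (v : ℝ) < V1),
        cm (fun p => 3 * (2 * S.ctl k0 (min (top p) κ) R p)) v * (v : ℝ) ^ (-S.s) with hM5
  set M6 := ∑ t ∈ Finset.Ico 2 B,
    cm (fun p => 3 * (2 * S.ctl k0 (min (top p) κ) R p) + 3 * S.bR R p) t * (t : ℝ) ^ (-S.s)
    with hM6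
  have hfun : (fun p => 3 * (2 * S.ctl k0 (min (top p) κ) R p)) =
      fun p => 6 * S.ctl k0 (min (top p) κ) R p := by funext p; ring
  have hcm6 : ∀ n : ℕ, 0 ≤ cm (fun p => 6 * S.ctl k0 (min (top p) κ) R p) n := fun n =>
    cm_nonneg (fun p _ => by have := hctl0 p; (clear * - this; positivity)) n
  have hrank1 : (2 : ℝ) ^ (-(S.c / 20) * (k0 : ℝ)) ≤ 1 :=
    Real.rpow_le_one_of_one_le_of_nonpos (by norm_num) (by
      have : 0 ≤ S.c / 20 * (k0 : ℝ) := by positivity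
      (clear * - this; linarith))
  have bM4 : M4 ≤ (2 : ℝ) ^ (-(S.c * S.d / 10) * (k : ℝ)) := by
    have h1 := hRank ((Finset.Ico 1 B).filter (fun v : ℕ => V0 ≤ (v : ℝ) ∧ (v : ℝ) ≤ V1))
      (fun n hn => by
        have h2 := (Finset.mem_filter.mp hn).2.1
        have h3 : (2 : ℝ) ≤ n := hV0g.trans h2
        exact_mod_cast h3) κ
    have h4 : M4 ≤ V0 ^ (-(S.c / 10)) *
        ∑ n ∈ (Finset.Ico 1 B).filter (fun v : ℕ => V0 ≤ (v : ℝ) ∧ (v : ℝ) ≤ V1),
          CM (fun p => 6 * S.ctl k0 (min (top p) κ) R p) n * (n : ℝ) ^ (-S.s + S.c / 10) := by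
      rw [hM4, Finset.mul_sum, hfun]
      refine Finset.sum_le_sum fun v hv => ?_
      have hv0 : v ≠ 0 := by
        have := (Finset.mem_Ico.mp (Finset.mem_filter.mp hv).1).1; omega
      have hvV := (Finset.mem_filter.mp hv).2.1
      have hvp : (0 : ℝ) < v := by exact_mod_cast Nat.pos_of_ne_zero hv0
      rw [CM_eq_cm _ hv0]
      have h5 : (v : ℝ) ^ (-S.s) = (v : ℝ) ^ (-S.s + S.c / 10) * (v : ℝ) ^ (-(S.c / 10)) := by
        rw [← Real.rpow_add hvp]; congr 1; ring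
      have h6 : (v : ℝ) ^ (-(S.c / 10)) ≤ V0 ^ (-(S.c / 10)) :=
        Real.rpow_le_rpow_of_nonpos (by (clear * - hd hd' hV0g; linarith)) hvV (by (clear * - hc; linarith))
      rw [h5]
      have h7 : 0 ≤ cm (fun p => 6 * S.ctl k0 (min (top p) κ) R p) v *
          (v : ℝ) ^ (-S.s + S.c / 10) := mul_nonneg (hcm6 v) (by positivity)
      calc _ = cm (fun p => 6 * S.ctl k0 (min (top p) κ) R p) v *
          (v : ℝ) ^ (-S.s + S.c / 10) * (v : ℝ) ^ (-(S.c / 10)) := by ring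
        _ ≤ cm (fun p => 6 * S.ctl k0 (min (top p) κ) R p) v *
          (v : ℝ) ^ (-S.s + S.c / 10) * V0 ^ (-(S.c / 10)) := mul_le_mul_of_nonneg_left h6 h7
        _ = _ := by ring
    have h8 : V0 ^ (-(S.c / 10)) = (2 : ℝ) ^ (-(S.c * S.d / 10) * (k : ℝ)) := by
      rw [hV0, ← Real.rpow_mul (by norm_num)]; congr 1; ring
    rw [h8] at h4
    have h9 := two_pos (-(S.c * S.d / 10) * (k : ℝ))
    exact h4.trans ((mul_le_mul_of_nonneg_left (h1.trans hrank1) h9.le).trans_eq (mul_one _))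
  have bM5 : M5 ≤ 2 := by
    have h1 := hRank (((Finset.Ico 1 B).filter (fun v : ℕ => (v : ℝ) < V1)).filter
      (fun n => 2 ≤ n)) (fun n hn => (Finset.mem_filter.mp hn).2) κ
    have h2 : ∀ v ∈ (Finset.Ico 1 B).filter (fun v : ℕ => (v : ℝ) < V1),
        cm (fun p => 6 * S.ctl k0 (min (top p) κ) R p) v * (v : ℝ) ^ (-S.s) ≤
        (if v = 1 then 1 else 0) + (if 2 ≤ v then
          CM (fun p => 6 * S.ctl k0 (min (top p) κ) R p) v * (v : ℝ) ^ (-S.s + S.c / 10)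
          else 0) := by
      intro v hv
      have hv1 := (Finset.mem_Ico.mp (Finset.mem_filter.mp hv).1).1
      by_cases h3 : v = 1
      · rw [h3, map_one]; simp
      · rw [if_neg h3, if_pos (by omega), zero_add, CM_eq_cm _ (by omega)]
        apply mul_le_mul_of_nonneg_left _ (hcm6 v)
        apply Real.rpow_le_rpow_of_exponent_le (by exact_mod_cast hv1)
        (clear * - hc; linarith)
    rw [hM5, hfun]
    refine (Finset.sum_le_sum h2).trans ?_
    rw [Finset.sum_add_distrib, ← Finset.sum_filter (fun n : ℕ => 2 ≤ n)]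
    have h4 : ∑ v ∈ (Finset.Ico 1 B).filter (fun v : ℕ => (v : ℝ) < V1),
        (if v = 1 then (1 : ℝ) else 0) ≤ 1 := by
      rw [Finset.sum_ite_eq']
      split_ifs <;> norm_num
    (clear * - hrank1 h1 h4; linarith)
  set μ := (2 : ℝ) ^ (-(S.c / 20) * (k0 : ℝ)) + 3 * (2 : ℝ) ^ (-(S.tau / 10) * (k0 : ℝ)) with hμ
  have hC0 : 0 ≤ C := abs_nonneg _
  have hμ1 : μ ≤ 1 / 4 ∧ μ ≤ 1 / (80000 * (C + 1)) := by
    have h1 := hK9 k0 (by omega)
    have h2 := hK10 k0 (by omega)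
    have e1 : -(S.c / 20 * (k0 : ℝ)) = -(S.c / 20) * (k0 : ℝ) := by ring
    have e2 : -(S.tau / 10 * (k0 : ℝ)) = -(S.tau / 10) * (k0 : ℝ) := by ring
    rw [e1] at h1
    rw [e2] at h2
    constructor
    · have h3 := h1.trans (min_le_left _ _)
      have h4 := h2.trans (min_le_left _ _)
      rw [hμ]; (clear * - h3 h4; linarith)
    · have h3 := h1.trans (min_le_right _ _)
      have h4 := h2.trans (min_le_right _ _)
      have h5 : 1 / (160000 * (C + 1)) + 3 * (1 / (480000 * (C + 1))) = 1 / (80000 * (C + 1)) := by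
        field_simp; ring
      rw [hμ]; (clear * - h3 h4 h5; linarith)
  have bM6 : M6 ≤ 4 * μ := mass_small S hG κ (fun T hT => hRank T hT κ) hμ1.1 B
  have hμ0 : 0 ≤ μ := by
    have h1 := two_pos (-(S.c / 20) * (k0 : ℝ))
    have h2 := two_pos (-(S.tau / 10) * (k0 : ℝ))
    rw [hμ]; (clear * - h1 h2; linarith)
  -- numerical estimates
  have hk20 : 20 * (k : ℝ) / k0 ≤ S.tau / 100 * k := by
    have h1 := hK5 k0 (by omega)
    calc 20 * (k : ℝ) / k0 = 20 / k0 * k := by ring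
      _ ≤ _ := mul_le_mul_of_nonneg_right h1 (by (clear * - hd hd' hkR; linarith))
  have hM40 : 0 ≤ M4 := Finset.sum_nonneg fun v _ => mul_nonneg (by rw [hfun]; exact hcm6 v)
    (by (clear * -; positivity))
  have hM50 : 0 ≤ M5 := Finset.sum_nonneg fun v _ => mul_nonneg (by rw [hfun]; exact hcm6 v)
    (by (clear * -; positivity))
  have b4 : (8 * (k : ℝ) ^ 4 * (2 : ℝ) ^ (7 * S.tau * k) * (2 : ℝ) ^ (20 * (k : ℝ) / k0)) * M4 ≤
      1 / 100 := by
    have h1 := hK7 k (by omega)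
    calc _ ≤ (8 * (k : ℝ) ^ 4 * (2 : ℝ) ^ (7 * S.tau * k) * (2 : ℝ) ^ (S.tau / 100 * k)) *
          (2 : ℝ) ^ (-(S.c * S.d / 10) * (k : ℝ)) := by
          refine mul_le_mul (mul_le_mul_of_nonneg_left (two_le hk20) ?_) bM4 hM40 ?_ <;>
            (clear * -; positivity)
      _ = 8 * ((k : ℝ) ^ 4 * (2 : ℝ) ^ (7 * S.tau * k + S.tau / 100 * k +
          -(S.c * S.d / 10) * (k : ℝ))) := by
          rw [Real.rpow_add (by norm_num), Real.rpow_add (by norm_num)]; ring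
      _ ≤ 8 * ((k : ℝ) ^ 4 * (2 : ℝ) ^ (-(S.c * S.d / 20 * k))) := by
          apply mul_le_mul_of_nonneg_left _ (by norm_num)
          apply mul_le_mul_of_nonneg_left _ (by positivity)
          apply two_le
          have h2 : 7 * S.tau + S.tau / 100 - S.c * S.d / 10 ≤ -(S.c * S.d / 20) := by
            have : S.c * S.d / 10 ^ 5 ≤ S.c * S.d / 200 :=
              div_le_div_of_nonneg_left hcd.le (by norm_num) (by norm_num)
            (clear * - ht ht'; linarith)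
          have h3 := mul_le_mul_of_nonneg_right h2 (show (0 : ℝ) ≤ k by (clear * - hd hd' hkR; linarith))
          (clear * - h3; linarith)
      _ ≤ _ := by (clear * - h1; linarith)
  have b5 : (8 * (k : ℝ) ^ 4 * (2 : ℝ) ^ (-(S.tau / 25) * k) * (2 : ℝ) ^ (20 * (k : ℝ) / k0)) * M5 ≤
      1 / 100 := by
    have h1 := hK8 k (by (clear * - hk0 hk j; omega))
    calc _ ≤ (8 * (k : ℝ) ^ 4 * (2 : ℝ) ^ (-(S.tau / 25) * k) * (2 : ℝ) ^ (S.tau / 100 * k)) *
          2 := by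
          refine mul_le_mul (mul_le_mul_of_nonneg_left (two_le hk20) ?_) bM5 hM50 ?_ <;>
            (clear * -; positivity)
      _ = 16 * ((k : ℝ) ^ 4 * (2 : ℝ) ^ (-(S.tau / 25) * k + S.tau / 100 * k)) := by
          rw [Real.rpow_add (by norm_num)]; ring
      _ ≤ 16 * ((k : ℝ) ^ 4 * (2 : ℝ) ^ (-(S.tau / 50 * k))) := by
          apply mul_le_mul_of_nonneg_left _ (by norm_num)
          apply mul_le_mul_of_nonneg_left _ (by positivity)
          apply two_le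
          have h2 : 0 ≤ S.tau * (k : ℝ) := mul_nonneg ht.le (Nat.cast_nonneg k)
          (clear * - h2; linarith)
      _ ≤ _ := by (clear * - h1; linarith)
  have b6 : 200 * C * M6 ≤ 1 / 100 := by
    have h1 : 200 * C * M6 ≤ 200 * C * (4 * (1 / (80000 * (C + 1)))) := by
      apply mul_le_mul_of_nonneg_left _ (by (clear * -; positivity))
      (clear * - hμ1 bM6; linarith [hμ1.2])
    have h2 : 200 * C * (4 * (1 / (80000 * (C + 1)))) = 1 / 100 * (C / (C + 1)) := by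
      field_simp; ring
    have h3 : C / (C + 1) ≤ 1 := by
      rw [div_le_one (by (clear * - hC0; linarith))]; (clear * -; linarith)
    rw [h2] at h1
    (clear * - h1 h3; linarith)
  have b7 := hK11 k0 (by omega)
  have hcomp := cell_comp S (C := C) (fun x h h1 h2 h3 => by
        have h4 := (hO k0 (by omega) x h h1 h2 h3).2
        refine h4.trans ?_
        apply mul_le_mul_of_nonneg_right
        · exact div_le_div_of_nonneg_right (le_abs_self C0) (Nat.cast_nonneg _)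
        · have : (0 : ℝ) < x := by
            have : 0 < x := by omega
            exact_mod_cast this
          have : 0 ≤ Real.log x := Real.log_nonneg (by exact_mod_cast (show 1 ≤ x by omega))
          (clear * - h3; positivity)) hC0 hk100 hj
  have hprimes := sum_primes_cell S (k0 := k0) hk hj
  have hlhs : ∑ n ∈ cell S.d k j, CM (S.Wl k0 R k) n = ∑ n ∈ Finset.Ico A B,
      cm (fun p => 2 * S.ordw k0 p + S.bR R p + 2 * S.ctl k0 (min (top p) κ) R p) n := by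
    refine Finset.sum_congr rfl fun n hn => ?_
    have hn0 : n ≠ 0 := by
      have h1 := cell_ge hn
      have h2 : 0 < 2 ^ k := by positivity
      omega
    rw [CM_eq_cm _ hn0]
    refine cm_congr fun p _ _ => ?_
    show S.bR R p + 2 * S.ordw k0 p + 2 * S.ctl k0 (min (top p) κ) R p = _
    ring
  rw [hlhs]
  have hGn := S.G_nonneg k
  have f4 := mul_le_mul_of_nonneg_left b4 hGn
  have f5 := mul_le_mul_of_nonneg_left b5 hGn
  have f6 := mul_le_mul_of_nonneg_left b6 hGn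
  have f7 := mul_le_mul_of_nonneg_left b7 hGn
  have hprimes' : ∑ p ∈ (Finset.Ico A B).filter Nat.Prime, 2 * S.ordw k0 p ≤
      (if S.bad k j then 0 else 2) * S.G k := hprimes
  refine hmain.trans ?_
  have e4 : S.G k * (8 * (k : ℝ) ^ 4 * (2 : ℝ) ^ (7 * S.tau * k) *
      (2 : ℝ) ^ (20 * (k : ℝ) / k0)) * M4 = S.G k * ((8 * (k : ℝ) ^ 4 *
      (2 : ℝ) ^ (7 * S.tau * k) * (2 : ℝ) ^ (20 * (k : ℝ) / k0)) * M4) := by ring
  have e5 : S.G k * (8 * (k : ℝ) ^ 4 * (2 : ℝ) ^ (-(S.tau / 25) * k) *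
      (2 : ℝ) ^ (20 * (k : ℝ) / k0)) * M5 = S.G k * ((8 * (k : ℝ) ^ 4 *
      (2 : ℝ) ^ (-(S.tau / 25) * k) * (2 : ℝ) ^ (20 * (k : ℝ) / k0)) * M5) := by ring
  have e6 : S.G k * (200 * C) * M6 = S.G k * (200 * C * M6) := by ring
  rw [e4, e5, e6]
  (clear * - hcomp hGn f4 f5 f6 f7 hprimes'; linarith)

end Pool.Agent.M20.Helper33.KS
end

/- Helper53.KN.Helper79.KS.Fix -/
section
/-! The fixed point theorem of the construction for MP_768c9c_nt (S17468): the STAR inequality gives the function.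
`b p` is the base weight of the prime `p` (a fixed value), `w i p` is the weight of the cell `i` at the prime `p`;
the function is `b p + ∑ i, t i * w i p` at the primes, `|t i| ≤ 1`. -/

set_option autoImplicit false
open Filter Topology

namespace Pool.Agent.M20.Helper79.KS

/-- completely multiplicative function with values `v p` at the primes -/
noncomputable def cm (v : ℕ → ℝ) (n : ℕ) : ℝ := (n.primeFactorsList.map v).prod

/-- linear coefficient of a product over a list: one position has the weight `a`, all the others `b` -/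
noncomputable def linL (b a : ℕ → ℝ) : List ℕ → ℝ
  | [] => 0
  | p :: l => b p * linL b a l + a p * (l.map b).prod

/-- linear coefficient at `n` -/
noncomputable def lin (b a : ℕ → ℝ) (n : ℕ) : ℝ := linL b a n.primeFactorsList

theorem linL_perm (b a : ℕ → ℝ) {l l' : List ℕ} (h : l.Perm l') : linL b a l = linL b a l' := by
  induction h with
  | nil => rfl
  | cons x h ih =>
    simp only [linL]
    rw [ih, (h.map b).prod_eq]
  | swap x y l =>
    simp only [linL, List.map_cons, List.prod_cons]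
    ring
  | trans _ _ ih1 ih2 => exact ih1.trans ih2

theorem cm_one (v : ℕ → ℝ) : cm v 1 = 1 := by simp [cm]

theorem cm_nonneg {v : ℕ → ℝ} (hv : ∀ p, 0 ≤ v p) (n : ℕ) : 0 ≤ cm v n := by
  unfold cm
  apply List.prod_nonneg
  intro x hx
  rw [List.mem_map] at hx
  obtain ⟨p, _, rfl⟩ := hx
  exact hv p

theorem lin_mul (b a : ℕ → ℝ) {q m : ℕ} (hq : q.Prime) (hm : m ≠ 0) :
    lin b a (q * m) = b q * lin b a m + a q * cm b m := by
  unfold lin cm
  rw [linL_perm b a (Nat.perm_primeFactorsList_mul hq.ne_zero hm), Nat.primeFactorsList_prime hq]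
  simp [linL]

theorem lin_prime (b a : ℕ → ℝ) {q : ℕ} (hq : q.Prime) : lin b a q = a q := by
  have h := lin_mul b a hq one_ne_zero
  have h1 : lin b a 1 = 0 := by simp [lin, linL]
  rw [mul_one, h1, cm_one] at h
  (clear * - h; linarith)

/-! ### the list estimates -/

section ListEst

variable {b a ω x x' : ℕ → ℝ} {t t' D : ℝ}

theorem linL_nonneg (hb : ∀ p, 0 ≤ b p) (ha : ∀ p, 0 ≤ a p) (l : List ℕ) : 0 ≤ linL b a l := by
  induction l with
  | nil => simp [linL]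
  | cons p l ih =>
    simp only [linL]
    have h1 : 0 ≤ (l.map b).prod := List.prod_nonneg (by
      intro y hy; rw [List.mem_map] at hy; obtain ⟨q, _, rfl⟩ := hy; exact hb q)
    have := hb p
    have := ha p
    positivity

theorem lin_nonneg (hb : ∀ p, 0 ≤ b p) (ha : ∀ p, 0 ≤ a p) (n : ℕ) : 0 ≤ lin b a n :=
  linL_nonneg hb ha _

theorem lin_ge (hb : ∀ p, 0 ≤ b p) (ha : ∀ p, 0 ≤ a p) {q m : ℕ} (hq : q.Prime) (hm : m ≠ 0) :
    a q * cm b m ≤ lin b a (q * m) := by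
  rw [lin_mul b a hq hm]
  have := mul_nonneg (hb q) (lin_nonneg hb ha m)
  linarith

/-- `P ≥ 0` -/
theorem prodb_nonneg (hb : ∀ p, 0 ≤ b p) (l : List ℕ) : 0 ≤ (l.map b).prod :=
  List.prod_nonneg (by intro y hy; rw [List.mem_map] at hy; obtain ⟨q, _, rfl⟩ := hy; exact hb q)

theorem list_low (hb : ∀ p, 0 ≤ b p) (ha : ∀ p, 0 ≤ a p) (haω : ∀ p, a p ≤ ω p) (l : List ℕ) :
    (l.map b).prod + 2 * linL b a l ≤ (l.map (fun p => b p + 2 * ω p)).prod := by
  induction l with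
  | nil => simp [linL]
  | cons p l ih =>
    simp only [linL, List.map_cons, List.prod_cons]
    have hP := prodb_nonneg hb l
    have hL := linL_nonneg hb ha l
    set P := (l.map b).prod
    set L := linL b a l
    set W := (l.map (fun p => b p + 2 * ω p)).prod
    have h1 := hb p
    have h2 := ha p
    have h3 := haω p
    have h4 : b p * (P + 2 * L) ≤ b p * W := mul_le_mul_of_nonneg_left ih h1
    have h5 : a p * P ≤ ω p * W := mul_le_mul h3 (by (clear * - hL ih; linarith)) hP (by linarith)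
    (clear * - h4 h5; nlinarith)

theorem list_main (hb : ∀ p, 0 ≤ b p) (ha : ∀ p, 0 ≤ a p) (haω : ∀ p, a p ≤ ω p) (hD : 0 ≤ D)
    (hx : ∀ p, |x p| ≤ ω p) (hx' : ∀ p, |x' p| ≤ ω p) (hxx : ∀ p, |x p - x' p| ≤ D * ω p)
    (hyy : ∀ p, |(x p - t * a p) - (x' p - t' * a p)| ≤ D * (ω p - a p)) (l : List ℕ) :
    |(l.map (fun p => b p + x p)).prod - (l.map b).prod| ≤
        ((l.map (fun p => b p + 2 * ω p)).prod - (l.map b).prod) / 2 ∧
      |(l.map (fun p => b p + x' p)).prod - (l.map b).prod| ≤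
        ((l.map (fun p => b p + 2 * ω p)).prod - (l.map b).prod) / 2 ∧
      |(l.map (fun p => b p + x p)).prod - (l.map (fun p => b p + x' p)).prod| ≤
        D / 2 * ((l.map (fun p => b p + 2 * ω p)).prod - (l.map b).prod) ∧
      |((l.map (fun p => b p + x p)).prod - t * linL b a l) -
          ((l.map (fun p => b p + x' p)).prod - t' * linL b a l)| ≤
        D / 2 * ((l.map (fun p => b p + 2 * ω p)).prod - (l.map b).prod - 2 * linL b a l) := by
  induction l with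
  | nil => simp [linL]
  | cons p l ih =>
    simp only [linL, List.map_cons, List.prod_cons]
    have hP := prodb_nonneg hb l
    have hL := linL_nonneg hb ha l
    have hlow := list_low (ω := ω) hb ha haω l
    obtain ⟨i1, i2, i3, i4⟩ := ih
    set P := (l.map b).prod
    set L := linL b a l
    set W := (l.map (fun p => b p + 2 * ω p)).prod
    set F := (l.map (fun p => b p + x p)).prod
    set F' := (l.map (fun p => b p + x' p)).prod
    have hb1 := hb p
    have ha1 := ha p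
    have hω1 : 0 ≤ ω p := ha1.trans (haω p)
    have hx1 := hx p
    have hx1' := hx' p
    have hxx1 := hxx p
    have hyy1 := hyy p
    have hWP : 0 ≤ W - P := by (clear * - hL hlow; linarith)
    have hF : |F| ≤ (W + P) / 2 := by
      have := abs_sub_abs_le_abs_sub F P
      rw [abs_of_nonneg hP] at this
      (clear * - i1 this; linarith)
    have hF' : |F'| ≤ (W + P) / 2 := by
      have := abs_sub_abs_le_abs_sub F' P
      rw [abs_of_nonneg hP] at this
      (clear * - i2 this; linarith)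
    have aux : ∀ (y G : ℝ), |y| ≤ ω p → |G - P| ≤ (W - P) / 2 → |G| ≤ (W + P) / 2 →
        |(b p + y) * G - b p * P| ≤ ((b p + 2 * ω p) * W - b p * P) / 2 := by
      intro y G hy hG hG2
      have e1 : (b p + y) * G - b p * P = b p * (G - P) + y * G := by ring
      rw [e1]
      refine (abs_add_le _ _).trans ?_
      rw [abs_mul, abs_mul, abs_of_nonneg hb1]
      have h1 : b p * |G - P| ≤ b p * ((W - P) / 2) := mul_le_mul_of_nonneg_left hG hb1
      have h2 : |y| * |G| ≤ ω p * ((W + P) / 2) := mul_le_mul hy hG2 (abs_nonneg _) hω1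
      have h3 : ω p * ((W + P) / 2) ≤ ω p * W := mul_le_mul_of_nonneg_left (by (clear * - hL hlow; linarith)) hω1
      (clear * - h1 h2 h3; nlinarith)
    refine ⟨aux _ _ hx1 i1 hF, aux _ _ hx1' i2 hF', ?_, ?_⟩
    · have e1 : (b p + x p) * F - (b p + x' p) * F' =
          b p * (F - F') + x p * (F - F') + (x p - x' p) * F' := by ring
      rw [e1]
      refine (abs_add_le _ _).trans ?_
      refine (add_le_add_left (abs_add_le _ _) _).trans ?_
      rw [abs_mul, abs_mul, abs_mul, abs_of_nonneg hb1]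
      have h1 : b p * |F - F'| ≤ b p * (D / 2 * (W - P)) := mul_le_mul_of_nonneg_left i3 hb1
      have h2 : |x p| * |F - F'| ≤ ω p * (D / 2 * (W - P)) := mul_le_mul hx1 i3 (abs_nonneg _) hω1
      have h3 : |x p - x' p| * |F'| ≤ D * ω p * ((W + P) / 2) :=
        mul_le_mul hxx1 hF' (abs_nonneg _) (by positivity)
      (clear * - h1 h2 h3; nlinarith)
    · have e1 : ((b p + x p) * F - t * (b p * L + a p * P)) -
            ((b p + x' p) * F' - t' * (b p * L + a p * P)) =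
          b p * ((F - t * L) - (F' - t' * L)) + (x p - x' p) * (F - P) + x' p * (F - F') +
            ((x p - t * a p) - (x' p - t' * a p)) * P := by ring
      rw [e1]
      refine (abs_add_le _ _).trans ?_
      refine (add_le_add_left (abs_add_le _ _) _).trans ?_
      refine (add_le_add_left (add_le_add_left (abs_add_le _ _) _) _).trans ?_
      rw [abs_mul, abs_mul, abs_mul, abs_mul, abs_of_nonneg hb1, abs_of_nonneg hP]
      have h1 : b p * |F - t * L - (F' - t' * L)| ≤ b p * (D / 2 * (W - P - 2 * L)) :=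
        mul_le_mul_of_nonneg_left i4 hb1
      have h2 : |x p - x' p| * |F - P| ≤ D * ω p * ((W - P) / 2) :=
        mul_le_mul hxx1 i1 (abs_nonneg _) (by positivity)
      have h3 : |x' p| * |F - F'| ≤ ω p * (D / 2 * (W - P)) :=
        mul_le_mul hx1' i3 (abs_nonneg _) hω1
      have h4 : |x p - t * a p - (x' p - t' * a p)| * P ≤ D * (ω p - a p) * P :=
        mul_le_mul_of_nonneg_right hyy1 hP
      (clear * - h1 h2 h3 h4; nlinarith)

end ListEst

end Pool.Agent.M20.Helper79.KS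
end

/- Helper53.KN.Helper79.KS.Fix2 -/
section
/-! The fixed point theorem: STAR implies the negation of the Kahane–Saïas statement. -/

set_option autoImplicit false
open Filter Topology
open scoped BoundedContinuousFunction

namespace Pool.Agent.M20.Helper79.KS

/-- cut to `[-1,1]` -/
noncomputable def clip (x : ℝ) : ℝ := max (-1) (min 1 x)

theorem clip_abs (x : ℝ) : |clip x| ≤ 1 := by
  unfold clip
  rw [abs_le]
  exact ⟨le_max_left _ _, max_le (by norm_num) (min_le_left _ _)⟩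

theorem clip_of {x : ℝ} (h : |x| ≤ 1) : clip x = x := by
  rw [abs_le] at h
  unfold clip
  rw [min_eq_right h.2, max_eq_right h.1]

theorem clip_lip (x y : ℝ) : |clip x - clip y| ≤ |x - y| := by
  unfold clip
  refine (abs_max_sub_max_le_max _ _ _ _).trans ?_
  rw [sub_self, abs_zero]
  refine max_le (abs_nonneg _) ?_
  refine (abs_min_sub_min_le_max _ _ _ _).trans ?_
  rw [sub_self, abs_zero]
  exact max_le (abs_nonneg _) le_rfl

section

variable {b : ℕ → ℝ} {w : ℕ → ℕ → ℝ} {a : ℕ → ℕ} {G : ℕ → ℝ}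

end

end Pool.Agent.M20.Helper79.KS
end

/- Helper53.KN.Helper79.KS.FixGen -/
section
/-! The fixed point theorem for an arbitrary (discrete) set of indices; conditions for the relevant indices only. -/

set_option autoImplicit false
open Filter Topology
open scoped BoundedContinuousFunction

namespace Pool.Agent.M20.Helper79.KS.Gen

variable {ι : Type*}

/-- value at the prime `p` -/
noncomputable def val (b : ℕ → ℝ) (w : ι → ℕ → ℝ) (t : ι → ℝ) (p : ℕ) : ℝ := b p + ∑' i, t i * w i p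

/-- sum over the cell `i` -/
noncomputable def cellSum (b : ℕ → ℝ) (w : ι → ℕ → ℝ) (cl : ι → Finset ℕ) (t : ι → ℝ) (i : ι) : ℝ :=
  ∑ n ∈ cl i, cm (val b w t) n

section

variable {b : ℕ → ℝ} {w : ι → ℕ → ℝ} {cl : ι → Finset ℕ} {G : ι → ℝ}

theorem summ (hw : ∀ i p, 0 ≤ w i p) (hsum : ∀ p, Summable (fun i => w i p)) {t : ι → ℝ} {C : ℝ}
    (ht : ∀ i, |t i| ≤ C) (p : ℕ) : Summable (fun i => t i * w i p) := by
  refine Summable.of_norm_bounded ((hsum p).mul_left C) fun i => ?_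
  rw [Real.norm_eq_abs, abs_mul, abs_of_nonneg (hw i p)]
  exact mul_le_mul_of_nonneg_right (ht i) (hw i p)

theorem tsum_bound (hw : ∀ i p, 0 ≤ w i p) (hsum : ∀ p, Summable (fun i => w i p)) {t : ι → ℝ} {C : ℝ}
    (ht : ∀ i, |t i| ≤ C) (p : ℕ) : |∑' i, t i * w i p| ≤ C * ∑' i, w i p := by
  have h1 := summ hw hsum ht p
  have h2 : ‖∑' i, t i * w i p‖ ≤ ∑' i, ‖t i * w i p‖ := norm_tsum_le_tsum_norm h1.norm
  rw [Real.norm_eq_abs] at h2
  refine h2.trans ?_
  rw [← tsum_mul_left]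
  refine h1.norm.tsum_le_tsum (fun i => ?_) ((hsum p).mul_left C)
  rw [Real.norm_eq_abs, abs_mul, abs_of_nonneg (hw i p)]
  exact mul_le_mul_of_nonneg_right (ht i) (hw i p)

/-- the estimates for one cell -/
theorem cell_est [DecidableEq ι] (hb : ∀ p, 0 ≤ b p) (hw : ∀ i p, 0 ≤ w i p)
    (hsum : ∀ p, Summable (fun i => w i p)) (i : ι)
    (hown : G i ≤ ∑ n ∈ cl i, lin b (w i) n)
    (hstar : ∑ n ∈ cl i, cm (fun p => b p + 2 * ∑' i, w i p) n ≤ 9 / 4 * G i)
    {t t' : ι → ℝ} {D : ℝ} (hD : 0 ≤ D) (ht : ∀ i, |t i| ≤ 1) (ht' : ∀ i, |t' i| ≤ 1)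
    (htt : ∀ i, |t i - t' i| ≤ D) :
    |(cellSum b w cl t i - t i * ∑ n ∈ cl i, lin b (w i) n) -
        (cellSum b w cl t' i - t' i * ∑ n ∈ cl i, lin b (w i) n)| ≤ D / 8 * G i := by
  set ω : ℕ → ℝ := fun p => ∑' i, w i p with hω
  set x : ℕ → ℝ := fun p => ∑' i, t i * w i p with hx
  set x' : ℕ → ℝ := fun p => ∑' i, t' i * w i p with hx'
  have haω : ∀ p, w i p ≤ ω p := fun p => (hsum p).le_tsum i fun j _ => hw j p
  have h1 : ∀ p, |x p| ≤ ω p := fun p => by
    have := tsum_bound hw hsum ht p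
    rwa [one_mul] at this
  have h1' : ∀ p, |x' p| ≤ ω p := fun p => by
    have := tsum_bound hw hsum ht' p
    rwa [one_mul] at this
  have hsub : ∀ p, x p - x' p = ∑' i, (t i - t' i) * w i p := fun p => by
    rw [hx, hx']
    simp only
    rw [← (summ hw hsum ht p).tsum_sub (summ hw hsum ht' p)]
    exact tsum_congr fun i => by ring
  have h2 : ∀ p, |x p - x' p| ≤ D * ω p := fun p => by
    rw [hsub p]
    exact tsum_bound hw hsum htt p
  have h3 : ∀ p, |(x p - t i * w i p) - (x' p - t' i * w i p)| ≤ D * (ω p - w i p) := fun p => by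
    have e1 : (x p - t i * w i p) - (x' p - t' i * w i p) =
        ∑' j, (if j = i then 0 else (t j - t' j)) * w j p := by
      have e2 : (x p - t i * w i p) - (x' p - t' i * w i p) = (x p - x' p) - (t i - t' i) * w i p := by ring
      rw [e2, hsub p, (summ hw hsum htt p).tsum_eq_add_tsum_ite i, add_sub_cancel_left]
      exact tsum_congr fun j => by split_ifs <;> ring
    have e3 : ω p - w i p = ∑' j, (if j = i then 0 else w j p) := by
      rw [hω]
      simp only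
      rw [(hsum p).tsum_eq_add_tsum_ite i, add_sub_cancel_left]
    have hs : Summable (fun j => if j = i then 0 else w j p) := by
      refine Summable.of_nonneg_of_le (fun j => ?_) (fun j => ?_) (hsum p)
      · split_ifs
        · exact le_rfl
        · exact hw j p
      · split_ifs
        · exact hw j p
        · exact le_rfl
    have hs2 : Summable (fun j => (if j = i then 0 else (t j - t' j)) * w j p) := by
      refine Summable.of_norm_bounded ((hsum p).mul_left D) fun j => ?_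
      rw [Real.norm_eq_abs, abs_mul, abs_of_nonneg (hw j p)]
      refine mul_le_mul_of_nonneg_right ?_ (hw j p)
      split_ifs
      · simpa using hD
      · exact htt j
    rw [e1, e3, ← tsum_mul_left]
    refine (norm_tsum_le_tsum_norm hs2.norm).trans ?_
    refine hs2.norm.tsum_le_tsum (fun j => ?_) (hs.mul_left D)
    rw [Real.norm_eq_abs, abs_mul, abs_of_nonneg (hw j p)]
    split_ifs
    · simp
    · exact mul_le_mul_of_nonneg_right (htt j) (hw j p)
  have key : ∀ n, |(cm (val b w t) n - t i * lin b (w i) n) - (cm (val b w t') n - t' i * lin b (w i) n)| ≤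
      D / 2 * (cm (fun p => b p + 2 * ∑' i, w i p) n - cm b n - 2 * lin b (w i) n) := fun n =>
    (list_main (b := b) (a := w i) (ω := ω) (x := x) (x' := x') (t := t i) (t' := t' i) hb (hw i) haω hD h1 h1'
      h2 h3 n.primeFactorsList).2.2.2
  unfold cellSum
  rw [Finset.mul_sum, Finset.mul_sum, ← Finset.sum_sub_distrib, ← Finset.sum_sub_distrib,
    ← Finset.sum_sub_distrib]
  refine (Finset.abs_sum_le_sum_abs _ _).trans ?_
  refine (Finset.sum_le_sum fun n _ => key n).trans ?_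
  rw [← Finset.mul_sum, Finset.sum_sub_distrib, Finset.sum_sub_distrib, ← Finset.mul_sum]
  have c3 : 0 ≤ ∑ n ∈ cl i, cm b n := Finset.sum_nonneg fun n _ => cm_nonneg hb n
  calc D / 2 * (∑ n ∈ cl i, cm (fun p => b p + 2 * ∑' i, w i p) n -
        ∑ n ∈ cl i, cm b n - 2 * ∑ n ∈ cl i, lin b (w i) n) ≤ D / 2 * (G i / 4) :=
        mul_le_mul_of_nonneg_left (by linarith) (by linarith)
    _ = D / 8 * G i := by ring

theorem cell_zero (hb : ∀ p, 0 ≤ b p) (hw : ∀ i p, 0 ≤ w i p) (hsum : ∀ p, Summable (fun i => w i p)) (i : ι)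
    (hown : G i ≤ ∑ n ∈ cl i, lin b (w i) n)
    (hstar : ∑ n ∈ cl i, cm (fun p => b p + 2 * ∑' i, w i p) n ≤ 9 / 4 * G i) :
    |cellSum b w cl (fun _ => 0) i| ≤ G i / 4 := by
  have e0 : ∀ n, cm (val b w (fun _ => 0)) n = cm b n := fun n => by
    unfold cm val
    simp
  have hP : ∀ n, 0 ≤ cm b n := fun n => cm_nonneg hb n
  unfold cellSum
  simp only [e0]
  rw [abs_of_nonneg (Finset.sum_nonneg fun n _ => hP n)]
  have h1 : ∀ n, cm b n + 2 * lin b (w i) n ≤ cm (fun p => b p + 2 * ∑' i, w i p) n := fun n =>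
    list_low (b := b) (a := w i) (ω := fun p => ∑' i, w i p) hb (hw i)
      (fun p => (hsum p).le_tsum i fun j _ => hw j p) n.primeFactorsList
  have h2 := Finset.sum_le_sum (fun n (_ : n ∈ cl i) => h1 n)
  rw [Finset.sum_add_distrib, ← Finset.mul_sum] at h2
  linarith

end

/-- **Existence of the coefficients** (arbitrary discrete index set; conditions for the relevant indices). -/
theorem exists_coeff [TopologicalSpace ι] [DiscreteTopology ι] (P : ι → Prop) (b : ℕ → ℝ) (w : ι → ℕ → ℝ)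
    (cl : ι → Finset ℕ) (G τ : ι → ℝ)
    (hb : ∀ p, 0 ≤ b p) (hw : ∀ i p, 0 ≤ w i p) (hsum : ∀ p, Summable (fun i => w i p))
    (hG : ∀ i, P i → 0 < G i)
    (hown : ∀ i, P i → G i ≤ ∑ n ∈ cl i, lin b (w i) n)
    (hstar : ∀ i, P i → ∑ n ∈ cl i, cm (fun p => b p + 2 * ∑' i, w i p) n ≤ 9 / 4 * G i)
    (hτ : ∀ i, P i → |τ i| ≤ G i / 2) :
    ∃ t : ι → ℝ, (∀ i, |t i| ≤ 1) ∧ ∀ i, P i → cellSum b w cl t i = τ i := by
  classical
  set L : ι → ℝ := fun i => ∑ n ∈ cl i, lin b (w i) n with hL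
  have hL0 : ∀ i, P i → 0 < L i := fun i hi => (hG i hi).trans_le (hown i hi)
  -- the map
  set Φ : (ι → ℝ) → ι → ℝ := fun t i => if P i then (τ i - (cellSum b w cl t i - t i * L i)) / L i else 0
    with hΦ
  have hest : ∀ t : ι → ℝ, (∀ i, |t i| ≤ 1) → ∀ i, |Φ t i| ≤ 7 / 8 := by
    intro t ht i
    rw [hΦ]
    simp only
    split_ifs with hi
    · have h1 := cell_est (G := G) hb hw hsum i (hown i hi) (hstar i hi) (t := t) (t' := fun _ => 0)
        zero_le_one ht (fun _ => by simp) (fun i => by simpa using ht i)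
      have h2 := cell_zero (G := G) hb hw hsum i (hown i hi) (hstar i hi)
      simp only [zero_mul, sub_zero] at h1
      have h3 : |cellSum b w cl t i - t i * L i| ≤ G i / 8 + G i / 4 := by
        have := abs_sub_abs_le_abs_sub (cellSum b w cl t i - t i * L i) (cellSum b w cl (fun _ => 0) i)
        have e : (1 : ℝ) / 8 * G i = G i / 8 := by ring
        rw [e] at h1
        linarith
      rw [abs_div, abs_of_pos (hL0 i hi), div_le_iff₀ (hL0 i hi)]
      have h4 : |τ i - (cellSum b w cl t i - t i * L i)| ≤ |τ i| + |cellSum b w cl t i - t i * L i| :=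
        abs_sub _ _
      have h5 := hτ i hi
      have h6 : G i ≤ L i := hown i hi
      linarith
    · norm_num
  have hlip : ∀ t t' : ι → ℝ, (∀ i, |t i| ≤ 1) → (∀ i, |t' i| ≤ 1) → ∀ D : ℝ, 0 ≤ D →
      (∀ i, |t i - t' i| ≤ D) → ∀ i, |Φ t i - Φ t' i| ≤ D / 8 := by
    intro t t' ht ht' D hD htt i
    rw [hΦ]
    simp only
    split_ifs with hi
    · have h1 := cell_est (G := G) hb hw hsum i (hown i hi) (hstar i hi) hD ht ht' htt
      rw [div_sub_div_same, abs_div, abs_of_pos (hL0 i hi), div_le_iff₀ (hL0 i hi)]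
      have e : τ i - (cellSum b w cl t i - t i * L i) - (τ i - (cellSum b w cl t' i - t' i * L i)) =
          -((cellSum b w cl t i - t i * L i) - (cellSum b w cl t' i - t' i * L i)) := by ring
      rw [e, abs_neg]
      refine h1.trans ?_
      exact mul_le_mul_of_nonneg_left (hown i hi) (by linarith)
    · simp
      linarith
  -- the contraction of the space of bounded functions
  have hbd : ∀ t : ι →ᵇ ℝ, ∀ i, ‖Φ (fun j => clip (t j)) i‖ ≤ 7 / 8 := fun t i => by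
    rw [Real.norm_eq_abs]
    exact hest _ (fun j => clip_abs _) i
  set Ψ : (ι →ᵇ ℝ) → (ι →ᵇ ℝ) := fun t =>
    BoundedContinuousFunction.ofNormedAddCommGroupDiscrete (Φ (fun j => clip (t j))) (7 / 8) (hbd t) with hΨ
  have hcon : ContractingWith (1 / 8) Ψ := by
    refine ⟨by norm_num, LipschitzWith.of_dist_le_mul fun t t' => ?_⟩
    rw [BoundedContinuousFunction.dist_le (by positivity)]
    intro i
    have h1 := hlip (fun j => clip (t j)) (fun j => clip (t' j)) (fun j => clip_abs _) (fun j => clip_abs _)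
      (dist t t') dist_nonneg (fun j => (clip_lip _ _).trans (by
        have := BoundedContinuousFunction.dist_coe_le_dist (f := t) (g := t') j
        rwa [Real.dist_eq] at this)) i
    rw [Real.dist_eq]
    have e : ((1 / 8 : NNReal) : ℝ) * dist t t' = dist t t' / 8 := by
      push_cast; ring
    rw [e]
    exact h1
  set T := ContractingWith.fixedPoint Ψ hcon with hT
  have hfix : Ψ T = T := hcon.fixedPoint_isFixedPt
  have hTi : ∀ i, Φ (fun j => clip (T j)) i = T i := fun i => by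
    have := congrArg (fun g : ι →ᵇ ℝ => g i) hfix
    exact this
  have hT1 : ∀ i, |T i| ≤ 1 := fun i => by
    rw [← hTi i]
    exact (hest _ (fun j => clip_abs _) i).trans (by norm_num)
  have hclip : (fun j => clip (T j)) = fun j => T j := funext fun j => clip_of (hT1 j)
  refine ⟨fun j => T j, hT1, fun i hi => ?_⟩
  have h1 := hTi i
  rw [hclip] at h1
  rw [hΦ] at h1
  simp only [if_pos hi] at h1
  rw [div_eq_iff (hL0 i hi).ne'] at h1
  linarith

end Pool.Agent.M20.Helper79.KS.Gen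
end

/- Helper53.KN.Helper79.KS.FP -/
section
/-! Module FP of project KS: the fixed point. -/

set_option autoImplicit false
open scoped Classical
open Filter Topology

namespace Pool.Agent.M20.Helper79.KS.FPM

open Pool.Agent.M20.Helper16.KS
open Pool.Agent.M20.Helper16.KS.Sys

variable (S : Sys)

theorem CM_eq (g : ℕ → ℝ) (n : ℕ) : CM g n = cm g n := rfl

/-! ### geometry of the cells -/

theorem ec_le (k : ℕ) : ec S.d k ≤ k := by
  unfold ec
  have h0 : (k : ℝ) * (1/2 - S.d) ≤ k := by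
    have := S.d_pos
    have hk : (0 : ℝ) ≤ k := Nat.cast_nonneg k
    nlinarith
  calc ⌊(k : ℝ) * (1/2 - S.d)⌋₊ ≤ ⌊(k : ℝ)⌋₊ := Nat.floor_le_floor h0
    _ = k := Nat.floor_natCast k

theorem nc_mul (k : ℕ) : nc S.d k * 2 ^ ec S.d k = 2 ^ k := by
  unfold nc
  rw [← pow_add, Nat.sub_add_cancel (ec_le S k)]

theorem cell_ge {k j n : ℕ} (hn : n ∈ cell S.d k j) : 2 ^ k ≤ n := by
  unfold cell at hn
  rw [Finset.mem_Ico] at hn
  exact le_trans (Nat.le_add_right _ _) hn.1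

theorem cell_lt {k j n : ℕ} (hj : j < nc S.d k) (hn : n ∈ cell S.d k j) : n < 2 ^ (k + 1) := by
  unfold cell at hn
  rw [Finset.mem_Ico] at hn
  have h1 : (j + 1) * 2 ^ ec S.d k ≤ 2 ^ k := by
    rw [← nc_mul S k]
    exact Nat.mul_le_mul_right _ hj
  have h2 : 2 ^ (k + 1) = 2 ^ k + 2 ^ k := by ring
  omega

theorem cell_log {k j n : ℕ} (hj : j < nc S.d k) (hn : n ∈ cell S.d k j) : Nat.log 2 n = k :=
  Nat.log_eq_of_pow_le_of_lt_pow (cell_ge S hn) (cell_lt S hj hn)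

theorem cell_idx {k j n : ℕ} (hj : j < nc S.d k) (hn : n ∈ cell S.d k j) : S.idx n = j := by
  unfold idx
  rw [cell_log S hj hn]
  unfold cell at hn
  rw [Finset.mem_Ico] at hn
  have hp : 0 < 2 ^ ec S.d k := by positivity
  apply Nat.div_eq_of_lt_le
  · omega
  · have : (j + 1) * 2 ^ ec S.d k = j * 2 ^ ec S.d k + 2 ^ ec S.d k := by ring
    omega

theorem cell_cix {k0 k j n : ℕ} (hk : k0 ≤ k) (hj : j < nc S.d k) (hn : n ∈ cell S.d k j) :
    S.cix k0 n = (k, j) := by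
  unfold cix
  have h1 : 2 ^ k0 ≤ 2 ^ k := Nat.pow_le_pow_right (by norm_num) hk
  have h2 := cell_ge S hn
  rw [if_neg (by omega), cell_log S hj hn, cell_idx S hj hn]

/-! ### the weights -/

/-- control part of the weight of the cell `i` -/
noncomputable def wc (k0 : ℕ) (R : Set ℕ) (i : ℕ × ℕ) (p : ℕ) : ℝ :=
  if k0 ≤ i.1 ∧ i.1 < top p ∧ i.2 ∈ S.badc i.1 then S.cw R i.1 i.2 p else 0

/-- ordinary part of the weight of the cell `i` -/
noncomputable def wd' (k0 : ℕ) (i : ℕ × ℕ) (p : ℕ) : ℝ := if i = S.cix k0 p then S.ordw k0 p else 0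

/-- weight of the cell `i` at the prime `p` -/
noncomputable def wt (k0 : ℕ) (R : Set ℕ) (i : ℕ × ℕ) (p : ℕ) : ℝ := wd' S k0 i p + wc S k0 R i p

/-- finite set containing the support -/
noncomputable def sup (k0 : ℕ) (p : ℕ) : Finset (ℕ × ℕ) :=
  insert (S.cix k0 p) ((Finset.Ico k0 (top p)) ×ˢ (Finset.range (2 ^ top p)))

theorem badc_lt {k j : ℕ} (h : j ∈ S.badc k) : j < nc S.d k := by
  unfold badc at h
  rw [Finset.mem_filter, Finset.mem_range] at h
  exact h.1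

theorem badc_bad {k j : ℕ} (h : j ∈ S.badc k) : S.bad k j := by
  unfold badc at h
  rw [Finset.mem_filter] at h
  exact h.2

theorem badc_sub {k T : ℕ} (hk : k < T) : S.badc k ⊆ Finset.range (2 ^ T) := by
  intro j hj
  have h1 := badc_lt S hj
  rw [Finset.mem_range]
  have h2 : nc S.d k ≤ 2 ^ T := by
    unfold nc
    exact Nat.pow_le_pow_right (by norm_num) (by omega)
  omega

theorem wt_support (k0 : ℕ) (R : Set ℕ) (p : ℕ) (i : ℕ × ℕ) (hi : i ∉ sup S k0 p) : wt S k0 R i p = 0 := by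
  unfold sup at hi
  rw [Finset.mem_insert, not_or, Finset.mem_product] at hi
  unfold wt wd' wc
  rw [if_neg hi.1, zero_add, if_neg]
  rintro ⟨h1, h2, h3⟩
  exact hi.2 ⟨Finset.mem_Ico.2 ⟨h1, h2⟩, badc_sub S h2 h3⟩

theorem tsum_wt (k0 : ℕ) (R : Set ℕ) (t : ℕ × ℕ → ℝ) (p : ℕ) :
    ∑' i, t i * wt S k0 R i p = t (S.cix k0 p) * S.ordw k0 p +
      ∑ k ∈ Finset.Ico k0 (top p), ∑ j ∈ S.badc k, t (k, j) * S.cw R k j p := by
  have hA : ∑' i, t i * wd' S k0 i p = t (S.cix k0 p) * S.ordw k0 p := by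
    rw [tsum_eq_single (S.cix k0 p)]
    · unfold wd'
      rw [if_pos rfl]
    · intro i hi
      unfold wd'
      rw [if_neg hi, mul_zero]
  have hs1 : Summable (fun i => t i * wd' S k0 i p) :=
    summable_of_ne_finset_zero (s := {S.cix k0 p}) (fun i hi => by
      unfold wd'
      rw [if_neg (by simpa using hi), mul_zero])
  have hz : ∀ i ∉ (Finset.Ico k0 (top p)) ×ˢ (Finset.range (2 ^ top p)), t i * wc S k0 R i p = 0 := by
    intro i hi
    rw [Finset.mem_product] at hi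
    unfold wc
    rw [if_neg, mul_zero]
    rintro ⟨h1, h2, h3⟩
    exact hi ⟨Finset.mem_Ico.2 ⟨h1, h2⟩, badc_sub S h2 h3⟩
  have hs2 : Summable (fun i => t i * wc S k0 R i p) := summable_of_ne_finset_zero hz
  have hB : ∑' i, t i * wc S k0 R i p =
      ∑ k ∈ Finset.Ico k0 (top p), ∑ j ∈ S.badc k, t (k, j) * S.cw R k j p := by
    rw [tsum_eq_sum hz, Finset.sum_product]
    refine Finset.sum_congr rfl fun k hk => ?_
    rw [Finset.mem_Ico] at hk
    rw [← Finset.sum_subset (badc_sub S hk.2)]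
    · refine Finset.sum_congr rfl fun j hj => ?_
      unfold wc
      rw [if_pos ⟨hk.1, hk.2, hj⟩]
    · intro j _ hj
      unfold wc
      rw [if_neg (fun h => hj h.2.2), mul_zero]
  rw [← hA, ← hB, ← hs1.tsum_add hs2]
  refine tsum_congr fun i => ?_
  unfold wt
  ring

theorem summ_wt (k0 : ℕ) (R : Set ℕ) (p : ℕ) : Summable (fun i => wt S k0 R i p) :=
  summable_of_ne_finset_zero (wt_support S k0 R p)

theorem val_eq (k0 : ℕ) (R : Set ℕ) (t : ℕ × ℕ → ℝ) : Gen.val (S.bR R) (wt S k0 R) t = S.fp k0 R t := by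
  funext p
  unfold Gen.val fp
  rw [tsum_wt]
  ring

theorem W_eq (k0 : ℕ) (R : Set ℕ) (n : ℕ) :
    cm (fun p => S.bR R p + 2 * ∑' i, wt S k0 R i p) n = S.W k0 R n := by
  unfold W
  rw [CM_eq]
  congr 1
  funext p
  have h := tsum_wt S k0 R (fun _ => 1) p
  simp only [one_mul] at h
  rw [h]
  unfold Wp ctl
  ring

/-! ### positivity -/

theorem base_nonneg (m : ℕ) : 0 ≤ S.base m := Real.rpow_nonneg (Nat.cast_nonneg m) _

theorem base_pos {m : ℕ} (hm : m ≠ 0) : 0 < S.base m :=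
  Real.rpow_pos_of_pos (Nat.cast_pos.2 (Nat.pos_of_ne_zero hm)) _

theorem pr_pos {m : ℕ} (hm : m ≠ 0) : 0 < S.pr m :=
  Real.rpow_pos_of_pos (Nat.cast_pos.2 (Nat.pos_of_ne_zero hm)) _

theorem pr_nonneg (m : ℕ) : 0 ≤ S.pr m := Real.rpow_nonneg (Nat.cast_nonneg m) _

theorem bR_nonneg (R : Set ℕ) (p : ℕ) : 0 ≤ S.bR R p := by
  unfold bR
  split_ifs
  · exact base_nonneg S p
  · exact le_rfl

theorem G_pos {k : ℕ} (hk : 1 ≤ k) : 0 < S.G k := by
  unfold G
  have : (0 : ℝ) < k := by exact_mod_cast hk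
  have h2 : (0 : ℝ) < (2 : ℝ) ^ ((S.s - 1) * (k : ℝ)) := Real.rpow_pos_of_pos (by norm_num) _
  (clear * - hk; positivity)

theorem G_nonneg (k : ℕ) : 0 ≤ S.G k := by
  unfold G
  have h2 : (0 : ℝ) ≤ (2 : ℝ) ^ ((S.s - 1) * (k : ℝ)) := Real.rpow_nonneg (by norm_num) _
  (clear * -; positivity)

theorem phi0_nonneg (k0 : ℕ) : 0 ≤ S.phi0 k0 := by
  unfold phi0
  have h2 : (0 : ℝ) ≤ (2 : ℝ) ^ ((S.s - 1) * (k0 : ℝ)) := Real.rpow_nonneg (by norm_num) _
  (clear * -; positivity)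

theorem ordw_nonneg (k0 p : ℕ) : 0 ≤ S.ordw k0 p := by
  unfold ordw
  split_ifs
  · exact le_rfl
  · exact phi0_nonneg S k0
  · exact le_rfl
  · exact div_nonneg (G_nonneg S _) (Nat.cast_nonneg _)

theorem NN_nonneg (R : Set ℕ) (k j : ℕ) : 0 ≤ S.NN R k j := by
  unfold NN
  exact Finset.sum_nonneg fun x _ => div_nonneg zero_le_one (pr_nonneg S _)

theorem wo_nonneg (R : Set ℕ) (k j m : ℕ) : 0 ≤ S.wo R k j m := by
  unfold wo
  exact div_nonneg (G_nonneg S k) (mul_nonneg (mul_nonneg (NN_nonneg S R k j) (pr_nonneg S m)) (base_nonneg S m))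

theorem cw_nonneg (R : Set ℕ) (k j q : ℕ) : 0 ≤ S.cw R k j q := by
  unfold cw
  exact Finset.sum_nonneg fun x _ => wo_nonneg S R k j _

theorem wd'_nonneg (k0 : ℕ) (i : ℕ × ℕ) (p : ℕ) : 0 ≤ wd' S k0 i p := by
  unfold wd'
  split_ifs
  · exact ordw_nonneg S k0 p
  · exact le_rfl

theorem wc_nonneg (k0 : ℕ) (R : Set ℕ) (i : ℕ × ℕ) (p : ℕ) : 0 ≤ wc S k0 R i p := by
  unfold wc
  split_ifs
  · exact cw_nonneg S R _ _ p
  · exact le_rfl

theorem wt_nonneg (k0 : ℕ) (R : Set ℕ) (i : ℕ × ℕ) (p : ℕ) : 0 ≤ wt S k0 R i p :=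
  add_nonneg (wd'_nonneg S k0 i p) (wc_nonneg S k0 R i p)

/-! ### the base weight of a product of elements of `R` -/

theorem cm_bR {R : Set ℕ} {m : ℕ} (hm : m ≠ 0) (hR : inR R m) : cm (S.bR R) m = S.base m := by
  have h1 : m.primeFactorsList.map (S.bR R) =
      m.primeFactorsList.map (fun p : ℕ => ((p : ℕ) : ℝ) ^ (-(1/2 + S.del))) := by
    apply List.map_congr_left
    intro p hp
    have h2 := Nat.prime_of_mem_primeFactorsList hp
    have h3 := Nat.dvd_of_mem_primeFactorsList hp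
    unfold bR
    rw [if_pos (hR p h2 h3)]
    rfl
  unfold cm
  rw [h1]
  have h2 := Real.list_prod_map_rpow' (m.primeFactorsList) (fun p : ℕ => (p : ℝ))
    (fun i _ => Nat.cast_nonneg i) (-(1/2 + S.del))
  rw [h2]
  unfold base
  congr 1
  have h3 := Nat.prod_primeFactorsList hm
  have h4 : ((m.primeFactorsList.prod : ℕ) : ℝ) = (m.primeFactorsList.map (fun p : ℕ => (p : ℝ))).prod := by
    rw [Nat.cast_list_prod]
  rw [← h4, h3]

/-! ### the own parts -/

theorem own_init (k0 : ℕ) (hk0 : 3 ≤ k0) (R : Set ℕ) :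
    S.G0 k0 ≤ ∑ n ∈ Finset.Ico 1 (2 ^ k0), lin (S.bR R) (wt S k0 R (0, 0)) n := by
  have h1 : (Finset.Ico (2 ^ (k0 - 1)) (2 ^ k0)).filter Nat.Prime ⊆ Finset.Ico 1 (2 ^ k0) := by
    intro n hn
    rw [Finset.mem_filter, Finset.mem_Ico] at hn
    rw [Finset.mem_Ico]
    exact ⟨hn.2.one_lt.le, hn.1.2⟩
  refine le_trans ?_ (Finset.sum_le_sum_of_subset_of_nonneg h1 fun n _ _ =>
    lin_nonneg (bR_nonneg S R) (wt_nonneg S k0 R _) n)
  have h2 : ∀ n ∈ (Finset.Ico (2 ^ (k0 - 1)) (2 ^ k0)).filter Nat.Prime,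
      S.phi0 k0 ≤ lin (S.bR R) (wt S k0 R (0, 0)) n := by
    intro n hn
    rw [Finset.mem_filter, Finset.mem_Ico] at hn
    rw [lin_prime _ _ hn.2]
    unfold wt
    have h3 : wd' S k0 (0, 0) n = S.phi0 k0 := by
      unfold wd' cix ordw
      rw [if_pos hn.1.2, if_pos rfl, if_neg (by omega), if_pos hn.1.2]
    rw [h3]
    have := wc_nonneg S k0 R (0, 0) n
    (clear * - this; linarith)
  refine le_trans (le_of_eq ?_) (Finset.card_nsmul_le_sum _ _ _ h2)
  unfold G0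
  rw [nsmul_eq_mul]
  ring

theorem G0_pos (k0 : ℕ) (hk0 : 3 ≤ k0) : 0 < S.G0 k0 := by
  unfold G0
  apply mul_pos
  · unfold phi0
    have h2 : (0 : ℝ) < (2 : ℝ) ^ ((S.s - 1) * (k0 : ℝ)) := Real.rpow_pos_of_pos (by norm_num) _
    have : (0 : ℝ) < k0 := by
      have : 0 < k0 := by omega
      exact_mod_cast this
    (clear * - hk0; positivity)
  · rw [Nat.cast_pos, Finset.card_pos]
    obtain ⟨p, hp, h1, h2⟩ := Nat.exists_prime_lt_and_le_two_mul (2 ^ (k0 - 1)) (by positivity)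
    have h3 : 2 * 2 ^ (k0 - 1) = 2 ^ k0 := by
      rw [← pow_succ', Nat.sub_add_cancel (by omega)]
    refine ⟨p, Finset.mem_filter.2 ⟨Finset.mem_Ico.2 ⟨h1.le, ?_⟩, hp⟩⟩
    rw [h3] at h2
    refine lt_of_le_of_ne h2 fun h => ?_
    rw [h] at hp
    exact Nat.Prime.not_prime_pow (by omega) hp

theorem own_good (k0 : ℕ) (hk0 : 3 ≤ k0) (hK : S.K ≤ k0) (R : Set ℕ) {k j : ℕ} (hk : k0 ≤ k)
    (hj : j < nc S.d k) (hb : ¬ S.bad k j) :
    S.G k ≤ ∑ n ∈ cell S.d k j, lin (S.bR R) (wt S k0 R (k, j)) n := by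
  have hk1 : 0 < k := by omega
  have hn0 : (0 : ℝ) < npr S.d k j := by
    have h1 := S.good k (hK.trans hk) j hj hb
    refine lt_of_lt_of_le ?_ h1
    have := S.c1_pos
    have : (0 : ℝ) < k := by exact_mod_cast hk1
    positivity
  have h1 : (cell S.d k j).filter Nat.Prime ⊆ cell S.d k j := Finset.filter_subset _ _
  refine le_trans ?_ (Finset.sum_le_sum_of_subset_of_nonneg h1 fun n _ _ =>
    lin_nonneg (bR_nonneg S R) (wt_nonneg S k0 R _) n)
  have h2 : ∀ n ∈ (cell S.d k j).filter Nat.Prime,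
      S.G k / npr S.d k j ≤ lin (S.bR R) (wt S k0 R (k, j)) n := by
    intro n hn
    rw [Finset.mem_filter] at hn
    rw [lin_prime _ _ hn.2]
    unfold wt
    have h3 : wd' S k0 (k, j) n = S.G k / npr S.d k j := by
      unfold wd'
      rw [cell_cix S hk hj hn.1, if_pos rfl]
      unfold ordw
      have h4 := cell_ge S hn.1
      have h5 : 2 ^ k0 ≤ 2 ^ k := Nat.pow_le_pow_right (by norm_num) hk
      have h6 : 2 ^ (k0 - 1) ≤ 2 ^ k0 := Nat.pow_le_pow_right (by norm_num) (by omega)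
      rw [if_neg (by omega), if_neg (by omega), cell_log S hj hn.1, cell_idx S hj hn.1, if_neg hb]
    rw [h3]
    have := wc_nonneg S k0 R (k, j) n
    (clear * - this; linarith)
  refine le_trans (le_of_eq ?_) (Finset.card_nsmul_le_sum _ _ _ h2)
  rw [nsmul_eq_mul]
  have : (((cell S.d k j).filter Nat.Prime).card : ℝ) = npr S.d k j := rfl
  rw [this, mul_div_cancel₀ _ hn0.ne']

theorem lt_top {k q : ℕ} (h : (2 : ℝ) ^ ((k : ℝ) / 3) ≤ q) : k < top q := by
  unfold top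
  have h1 : q < 2 ^ (Nat.log 2 q + 1) := Nat.lt_pow_succ_log_self (by norm_num) q
  have h2 : (q : ℝ) < (2 : ℝ) ^ ((Nat.log 2 q + 1 : ℕ) : ℝ) := by
    rw [Real.rpow_natCast]
    exact_mod_cast h1
  have h3 := (Real.rpow_lt_rpow_left_iff (by norm_num : (1 : ℝ) < 2)).1 (h.trans_lt h2)
  have h4 : (k : ℝ) < 3 * ((Nat.log 2 q + 1 : ℕ) : ℝ) := by linarith
  exact_mod_cast h4

theorem own_bad (k0 : ℕ) (hk0 : 3 ≤ k0) (hK : S.K ≤ k0) (R : Set ℕ) {k j : ℕ} (hk : k0 ≤ k)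
    (hj : j ∈ S.badc k) (hNN : 0 < S.NN R k j) :
    S.G k ≤ ∑ n ∈ cell S.d k j, lin (S.bR R) (wt S k0 R (k, j)) n := by
  have hjn := badc_lt S hj
  have hbad := badc_bad S hj
  have hcand : ∀ x ∈ S.act R k j, x.1.Prime ∧ (2 : ℝ) ^ ((k : ℝ) / 3) ≤ x.1 ∧ 1 < x.2 ∧
      x.1 * x.2 ∈ cell S.d k j ∧ inR R x.2 := by
    intro x hx
    unfold act at hx
    rw [Finset.mem_filter] at hx
    have h := S.cand k (hK.trans hk) j hjn hbad x hx.1
    exact ⟨h.1, h.2.1, h.2.2.2.1, h.2.2.2.2.1, hx.2⟩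
  have hinj : Set.InjOn (fun x : ℕ × ℕ => x.1 * x.2) (S.act R k j : Set (ℕ × ℕ)) := by
    intro x hx y hy hxy
    have hx' := Finset.mem_coe.1 hx
    have hy' := Finset.mem_coe.1 hy
    unfold act at hx' hy'
    rw [Finset.mem_filter] at hx' hy'
    exact S.inj k (hK.trans hk) j hjn hbad x hx'.1 y hy'.1 hxy
  have h1 : (S.act R k j).image (fun x : ℕ × ℕ => x.1 * x.2) ⊆ cell S.d k j := by
    intro n hn
    rw [Finset.mem_image] at hn
    obtain ⟨x, hx, rfl⟩ := hn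
    exact (hcand x hx).2.2.2.1
  refine le_trans ?_ (Finset.sum_le_sum_of_subset_of_nonneg h1 fun n _ _ =>
    lin_nonneg (bR_nonneg S R) (wt_nonneg S k0 R _) n)
  rw [Finset.sum_image hinj]
  have h2 : ∀ x ∈ S.act R k j, S.G k / S.NN R k j * (1 / S.pr x.2) ≤
      lin (S.bR R) (wt S k0 R (k, j)) (x.1 * x.2) := by
    intro x hx
    obtain ⟨g1, g2, g3, g4, g5⟩ := hcand x hx
    have hm : x.2 ≠ 0 := by omega
    refine le_trans ?_ (lin_ge (bR_nonneg S R) (wt_nonneg S k0 R (k, j)) g1 hm)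
    rw [cm_bR S hm g5]
    have h3 : S.wo R k j x.2 ≤ wt S k0 R (k, j) x.1 := by
      unfold wt
      have h4 := wd'_nonneg S k0 (k, j) x.1
      have h5 : wc S k0 R (k, j) x.1 = S.cw R k j x.1 := by
        unfold wc
        rw [if_pos ⟨hk, lt_top g2, hj⟩]
      have h6 : S.wo R k j x.2 ≤ S.cw R k j x.1 := by
        unfold cw
        exact Finset.single_le_sum (f := fun x : ℕ × ℕ => S.wo R k j x.2) (fun y _ => wo_nonneg S R k j _)
          (Finset.mem_filter.2 ⟨hx, rfl⟩)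
      rw [h5]
      (clear * - h4 h6; linarith)
    refine le_trans (le_of_eq ?_) (mul_le_mul_of_nonneg_right h3 (base_nonneg S _))
    unfold wo
    have e1 := (base_pos S hm).ne'
    have e2 := (pr_pos S hm).ne'
    have e3 := hNN.ne'
    field_simp
  refine le_trans (le_of_eq ?_) (Finset.sum_le_sum h2)
  rw [← Finset.mul_sum]
  have : ∑ x ∈ S.act R k j, 1 / S.pr x.2 = S.NN R k j := rfl
  rw [this, div_mul_cancel₀ _ hNN.ne']

/-- **Module FP.** -/
theorem fp : FP := by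
  intro S k0 hk0 hK R hR hNN hstar
  set P : ℕ × ℕ → Prop := fun i => i = (0, 0) ∨ (k0 ≤ i.1 ∧ i.2 < nc S.d i.1) with hP
  set cl : ℕ × ℕ → Finset ℕ := fun i => if i = (0, 0) then Finset.Ico 1 (2 ^ k0) else cell S.d i.1 i.2
    with hcl
  set G : ℕ × ℕ → ℝ := fun i => if i = (0, 0) then S.G0 k0 else S.G i.1 with hGdef
  have hne : ∀ k j : ℕ, k0 ≤ k → ((k, j) : ℕ × ℕ) ≠ (0, 0) := by
    intro k j hk h
    rw [Prod.mk.injEq] at h
    omega
  have hG : ∀ i, P i → 0 < G i := by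
    intro i hi
    rw [hGdef]
    simp only
    split_ifs with h
    · exact G0_pos S k0 hk0
    · rcases hi with hi | hi
      · exact absurd hi h
      · exact G_pos S (by omega)
  have hown : ∀ i, P i → G i ≤ ∑ n ∈ cl i, lin (S.bR R) (wt S k0 R i) n := by
    intro i hi
    rw [hGdef, hcl]
    simp only
    split_ifs with h
    · rw [h]
      exact own_init S k0 hk0 R
    · rcases hi with hi | hi
      · exact absurd hi h
      · obtain ⟨k, j⟩ := i
        by_cases hb : S.bad k j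
        · have hj : j ∈ S.badc k := by
            unfold badc
            exact Finset.mem_filter.2 ⟨Finset.mem_range.2 hi.2, hb⟩
          exact own_bad S k0 hk0 hK R hi.1 hj (hNN k hi.1 j hj)
        · exact own_good S k0 hk0 hK R hi.1 hi.2 hb
  have hst : ∀ i, P i → ∑ n ∈ cl i, cm (fun p => S.bR R p + 2 * ∑' i, wt S k0 R i p) n ≤ 9 / 4 * G i := by
    intro i hi
    have e : (9 : ℝ) / 4 = 2 + 1 / 4 := by norm_num
    rw [hGdef, hcl, e]
    simp only [W_eq]
    split_ifs with h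
    · exact hstar.1
    · rcases hi with hi | hi
      · exact absurd hi h
      · exact hstar.2 i.1 hi.1 i.2 hi.2
  obtain ⟨t, ht, h0⟩ := Gen.exists_coeff P (S.bR R) (wt S k0 R) cl G (fun _ => 0) (bR_nonneg S R)
    (wt_nonneg S k0 R) (summ_wt S k0 R) hG hown hst (fun i hi => by
      have := hG i hi
      simp only [abs_zero]
      (clear * - this; linarith))
  refine ⟨t, ht, ?_, ?_⟩
  · have h := h0 (0, 0) (Or.inl rfl)
    unfold Gen.cellSum at h
    rw [val_eq, hcl] at h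
    simp only [if_true] at h
    exact h
  · intro k hk j hj
    have h := h0 (k, j) (Or.inr ⟨hk, hj⟩)
    unfold Gen.cellSum at h
    rw [val_eq, hcl] at h
    simp only [if_neg (hne k j hk)] at h
    exact h

end Pool.Agent.M20.Helper79.KS.FPM
end

/- Helper53.KN.Helper72.KS.Init -/
section
/-!
# Project KS: the initial cell
-/

set_option autoImplicit false
open scoped Classical
open Filter Topology

namespace Pool.Agent.M20.Helper72.KS

open Pool.Agent.M20.Helper16.KS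

/-! ### growth -/

theorem exists_growth (b : ℝ) (hb : 0 < b) (C : ℝ) (n : ℕ) :
    ∃ K : ℕ, ∀ k : ℕ, K ≤ k → C * (k : ℝ) ^ n ≤ (2 : ℝ) ^ (b * (k : ℝ)) := by
  have hr : 1 < (2 : ℝ) ^ b := Real.one_lt_rpow (by norm_num) hb
  have h1 := tendsto_pow_const_div_const_pow_of_one_lt n hr
  have h2 := h1.const_mul C
  rw [mul_zero] at h2
  obtain ⟨K, hK⟩ := eventually_atTop.mp (h2.eventually (gt_mem_nhds (show (0 : ℝ) < 1 by norm_num)))
  refine ⟨K, fun k hk => ?_⟩
  have h3 := hK k hk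
  have h4 : (0 : ℝ) < ((2 : ℝ) ^ b) ^ k := by positivity
  rw [← mul_div_assoc, div_lt_one h4] at h3
  rw [Real.rpow_mul (by norm_num), Real.rpow_natCast]
  exact h3.le

/-! ### primes in a block -/

theorem card_badc_le (S : Sys) {k : ℕ} (hk : S.K ≤ k) :
    ((S.badc k).card : ℝ) ≤ 3 * (2 : ℝ) ^ (0.22 * (k : ℝ)) := by
  have h1 : (S.badc k).card ≤ ∑ i : Fin 3, ((Finset.range (nc S.d k)).filter
      (fun j => S.bad k j ∧ S.cls k j = i)).card := by
    have h2 : S.badc k ⊆ (Finset.univ : Finset (Fin 3)).biUnion (fun i =>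
        (Finset.range (nc S.d k)).filter (fun j => S.bad k j ∧ S.cls k j = i)) := by
      intro j hj
      rw [S.mem_badc] at hj
      simp only [Finset.mem_biUnion, Finset.mem_univ, true_and, Finset.mem_filter, Finset.mem_range]
      exact ⟨S.cls k j, hj.1, hj.2, rfl⟩
    exact (Finset.card_le_card h2).trans Finset.card_biUnion_le
  have h3 : ((S.badc k).card : ℝ) ≤ ∑ i : Fin 3, (((Finset.range (nc S.d k)).filter
      (fun j => S.bad k j ∧ S.cls k j = i)).card : ℝ) := by exact_mod_cast h1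
  refine h3.trans ?_
  have h4 : ∀ i ∈ (Finset.univ : Finset (Fin 3)), (((Finset.range (nc S.d k)).filter
      (fun j => S.bad k j ∧ S.cls k j = i)).card : ℝ) ≤ (2 : ℝ) ^ (0.22 * (k : ℝ)) := by
    intro i _
    refine (S.few k hk i).trans ?_
    refine Real.rpow_le_rpow_of_exponent_le (by norm_num) ?_
    exact mul_le_mul_of_nonneg_right (S.u_le i) (Nat.cast_nonneg _)
  refine (Finset.sum_le_sum h4).trans ?_
  simp

theorem primes_block (S : Sys) : ∃ K0 : ℕ, ∀ k : ℕ, K0 ≤ k →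
    S.c1 / 2 * 2 ^ k / k ≤ (((Finset.Ico (2 ^ k) (2 ^ (k + 1))).filter Nat.Prime).card : ℝ) := by
  obtain ⟨K1, hK1⟩ := exists_growth 0.28 (by norm_num) 6 0
  refine ⟨max K1 (max S.K 1), fun k hk => ?_⟩
  simp only [max_le_iff] at hk
  obtain ⟨a1, a2, a3⟩ := hk
  have hkpos : (0 : ℝ) < k := by exact_mod_cast a3
  have hg := hK1 k a1
  simp only [pow_zero, mul_one] at hg
  -- number of good cells
  set Gd : Finset ℕ := (Finset.range (nc S.d k)).filter (fun j => ¬ S.bad k j) with hGd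
  have hc0 : (S.badc k).card + Gd.card = nc S.d k := by
    have := Finset.card_filter_add_card_filter_not (s := Finset.range (nc S.d k)) (fun j => S.bad k j)
    rw [Finset.card_range] at this
    exact this
  have hec : (ec S.d k : ℝ) ≤ (k : ℝ) / 2 := by
    unfold ec
    have h1 : (0 : ℝ) ≤ (k : ℝ) * (1 / 2 - S.d) := by
      have := S.d_le'
      have : (0:ℝ) ≤ 1/2 - S.d := by
        norm_num at this ⊢
        (clear * - this; linarith)
      (clear * - a3 this; positivity)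
    refine (Nat.floor_le h1).trans ?_
    have h9 := mul_nonneg (Nat.cast_nonneg (α := ℝ) k) S.d_pos.le
    (clear * - h9; linarith)
  have hnc : (2 : ℝ) ^ ((k : ℝ) / 2) ≤ (nc S.d k : ℝ) := by
    unfold nc
    have h1 : ((k - ec S.d k : ℕ) : ℝ) = (k : ℝ) - (ec S.d k : ℝ) := by
      rw [Nat.cast_sub (ec_le S.d S.d_pos k)]
    push_cast
    rw [← Real.rpow_natCast, h1]
    refine Real.rpow_le_rpow_of_exponent_le (by norm_num) ?_
    (clear * - hec; linarith)
  have hbad := card_badc_le S a2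
  have hbad2 : 3 * (2 : ℝ) ^ (0.22 * (k : ℝ)) ≤ (2 : ℝ) ^ ((k : ℝ) / 2) / 2 := by
    have h1 : (2 : ℝ) ^ ((k : ℝ) / 2) = (2 : ℝ) ^ (0.28 * (k : ℝ)) * (2 : ℝ) ^ (0.22 * (k : ℝ)) := by
      rw [← Real.rpow_add (by norm_num)]
      congr 1
      ring
    rw [h1]
    have h2 : 0 ≤ (2 : ℝ) ^ (0.22 * (k : ℝ)) := by positivity
    have h9 := mul_le_mul_of_nonneg_right hg h2
    (clear * - h9 h2; linarith)
  have hgood : (nc S.d k : ℝ) / 2 ≤ Gd.card := by
    have h1 : ((S.badc k).card : ℝ) + (Gd.card : ℝ) = (nc S.d k : ℝ) := by exact_mod_cast hc0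
    (clear * - hnc hbad hbad2 h1; linarith)
  -- the primes of the good cells
  have hdisj : ∀ j ∈ Gd, ∀ j' ∈ Gd, j ≠ j' →
      Disjoint ((cell S.d k j).filter Nat.Prime) ((cell S.d k j').filter Nat.Prime) := by
    intro j hj j' hj' hne
    rw [Finset.disjoint_left]
    intro n hn hn'
    rw [Finset.mem_filter] at hn hn'
    rw [hGd, Finset.mem_filter, Finset.mem_range] at hj hj'
    exact hne ((S.cell_disj hj.1 hj'.1 hn.1 hn'.1).2).symm
  have hsub : Gd.biUnion (fun j => (cell S.d k j).filter Nat.Prime) ⊆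
      (Finset.Ico (2 ^ k) (2 ^ (k + 1))).filter Nat.Prime := by
    intro n hn
    rw [Finset.mem_biUnion] at hn
    obtain ⟨j, hj, hn⟩ := hn
    rw [Finset.mem_filter] at hn ⊢
    rw [hGd, Finset.mem_filter, Finset.mem_range] at hj
    rw [Finset.mem_Ico]
    exact ⟨⟨cell_ge hn.1, cell_lt S.d_pos hj.1 hn.1⟩, hn.2⟩
  have hcard := Finset.card_le_card hsub
  rw [Finset.card_biUnion hdisj] at hcard
  have hcard' : ∑ j ∈ Gd, (npr S.d k j : ℝ) ≤
      (((Finset.Ico (2 ^ k) (2 ^ (k + 1))).filter Nat.Prime).card : ℝ) := by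
    have h1 : ∑ j ∈ Gd, (npr S.d k j : ℝ) =
        ((∑ j ∈ Gd, ((cell S.d k j).filter Nat.Prime).card : ℕ) : ℝ) := by
      push_cast
      rfl
    rw [h1]
    exact_mod_cast hcard
  refine le_trans ?_ hcard'
  have hlow : ∀ j ∈ Gd, S.c1 * 2 ^ ec S.d k / k ≤ (npr S.d k j : ℝ) := by
    intro j hj
    rw [hGd, Finset.mem_filter, Finset.mem_range] at hj
    exact S.good k a2 j hj.1 hj.2
  have hsum := Finset.card_nsmul_le_sum Gd _ _ hlow
  rw [nsmul_eq_mul] at hsum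
  refine le_trans ?_ hsum
  have h2 : (2 : ℝ) ^ k = (nc S.d k : ℝ) * 2 ^ ec S.d k := by
    unfold nc
    push_cast
    rw [← pow_add, Nat.sub_add_cancel (ec_le S.d S.d_pos k)]
  have hc1 := S.c1_pos
  have h3 : 0 ≤ S.c1 * 2 ^ ec S.d k / (k : ℝ) := by positivity
  calc S.c1 / 2 * 2 ^ k / k = (nc S.d k : ℝ) / 2 * (S.c1 * 2 ^ ec S.d k / k) := by
        rw [h2]
        ring
    _ ≤ _ := mul_le_mul_of_nonneg_right hgood h3

theorem G0_ge (S : Sys) : ∃ K0 : ℕ, 2 ≤ K0 ∧ ∀ k0 : ℕ, K0 ≤ k0 →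
    S.c1 / 4 * ((2 : ℝ) ^ (S.s * (k0 : ℝ)) / (k0 : ℝ) ^ 4) ≤ S.G0 k0 := by
  obtain ⟨K1, hK1⟩ := primes_block S
  refine ⟨max (K1 + 1) 2, le_max_right _ _, fun k0 hk => ?_⟩
  simp only [max_le_iff] at hk
  obtain ⟨a1, a2⟩ := hk
  obtain ⟨k, rfl⟩ : ∃ k, k0 = k + 1 := ⟨k0 - 1, by omega⟩
  have h1 := hK1 k (by omega)
  have hk1 : (1 : ℝ) ≤ k := by exact_mod_cast (by omega : 1 ≤ k)
  unfold Sys.G0 Sys.phi0
  rw [Nat.add_sub_cancel]
  have hc1 := S.c1_pos
  have h3 : S.c1 / 4 * ((2 : ℝ) ^ (k + 1) / ((k + 1 : ℕ) : ℝ)) ≤ S.c1 / 2 * 2 ^ k / k := by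
    rw [pow_succ]
    push_cast
    have h4 : (2 : ℝ) ^ k * 2 / (k + 1) ≤ 2 ^ k * 2 / k := by
      gcongr
      (clear * -; linarith)
    calc S.c1 / 4 * (2 ^ k * 2 / (k + 1)) ≤ S.c1 / 4 * (2 ^ k * 2 / k) := by (clear * - h4 hc1; gcongr)
      _ = S.c1 / 2 * 2 ^ k / k := by ring
  have h5 : (2 : ℝ) ^ (S.s * ((k + 1 : ℕ) : ℝ)) =
      (2 : ℝ) ^ ((S.s - 1) * ((k + 1 : ℕ) : ℝ)) * (2 : ℝ) ^ (k + 1) := by
    rw [← Real.rpow_natCast 2 (k + 1), ← Real.rpow_add (by norm_num)]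
    congr 1
    ring
  have hpos : (0 : ℝ) < ((k + 1 : ℕ) : ℝ) := by (clear * -; positivity)
  calc S.c1 / 4 * ((2 : ℝ) ^ (S.s * ((k + 1 : ℕ) : ℝ)) / ((k + 1 : ℕ) : ℝ) ^ 4)
      = (2 : ℝ) ^ ((S.s - 1) * ((k + 1 : ℕ) : ℝ)) / ((k + 1 : ℕ) : ℝ) ^ 3 *
        (S.c1 / 4 * ((2 : ℝ) ^ (k + 1) / ((k + 1 : ℕ) : ℝ))) := by
        rw [h5]
        field_simp
    _ ≤ _ := by
        refine mul_le_mul_of_nonneg_left (h3.trans h1) ?_
        (clear * -; positivity)

/-! ### the part of the weight coming from `R` and from the control primes -/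

/-- `R`- and control part of the majorant at primes -/
noncomputable def gg (S : Sys) (k0 : ℕ) (R : Set ℕ) (p : ℕ) : ℝ :=
  S.bR R p + 2 * S.ctl k0 (top p) R p

theorem gg_nonneg (S : Sys) (k0 : ℕ) (R : Set ℕ) (p : ℕ) : 0 ≤ gg S k0 R p := by
  have h1 := S.bR_nonneg R p
  have h3 := S.ctl_nonneg k0 (top p) R p
  unfold gg
  positivity

theorem W_le_init (S : Sys) (k0 : ℕ) (hk0 : 1 ≤ k0) (R : Set ℕ) {n : ℕ} (h2 : 2 ≤ n)
    (hn : n < 2 ^ k0) :
    S.W k0 R n = CM (gg S k0 R) n +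
      (if n.Prime ∧ 2 ^ (k0 - 1) ≤ n then 2 * S.phi0 k0 else 0) := by
  have hpow : 2 ^ k0 = 2 * 2 ^ (k0 - 1) := by
    obtain ⟨k, rfl⟩ : ∃ k, k0 = k + 1 := ⟨k0 - 1, by omega⟩
    rw [Nat.add_sub_cancel, pow_succ]
    ring
  unfold Sys.W
  by_cases hp : n.Prime
  · rw [CM_prime _ hp, CM_prime _ hp]
    unfold Sys.Wp gg Sys.ordw
    by_cases h3 : n < 2 ^ (k0 - 1)
    · rw [if_pos h3, if_neg (by rintro ⟨_, h4⟩; omega)]
      ring
    · rw [if_neg h3, if_pos hn, if_pos ⟨hp, not_lt.mp h3⟩]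
      ring
  · rw [if_neg (by rintro ⟨h4, _⟩; exact hp h4), add_zero]
    refine CM_congr fun p hpp hpn => ?_
    have h5 : p < 2 ^ (k0 - 1) := by
      obtain ⟨m, rfl⟩ := hpn
      have hm : m ≠ 1 := by
        rintro rfl
        rw [mul_one] at hp
        exact hp hpp
      have hm0 : m ≠ 0 := by
        rintro rfl
        omega
      have hm2 : 2 ≤ m := by omega
      have : p * 2 ≤ p * m := Nat.mul_le_mul_left p hm2
      omega
    unfold Sys.Wp gg Sys.ordw
    rw [if_pos h5]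
    ring

theorem CM_eq_cm (F : ℕ → ℝ) {n : ℕ} (hn : n ≠ 0) : CM F n = Pool.Agent.M20.Helper33.KS.cm F n := by
  rw [CM_eq_prod, Pool.Agent.M20.Helper33.KS.cm_apply F hn]
  rfl

/-- mass of the `R`-part and the control part -/
theorem mass_gg (hWo : WoLe) (S : Sys) : ∃ K0 : ℕ, ∀ k0 : ℕ, K0 ≤ k0 → ∀ R : Set ℕ, S.Good k0 R →
    ∑ p ∈ (Finset.range (2 ^ k0)).filter Nat.Prime, gg S k0 R p * (p : ℝ) ^ (-S.s) ≤
      2 * (2 : ℝ) ^ (-(S.tau / 10) * (k0 : ℝ)) := by
  obtain ⟨K1, hK1⟩ := hWo S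
  have hbpos : 0 < S.c / 4 - S.tau / 10 := by
    have h1 := S.tau_le
    have h2 := S.c_pos
    have h3 := S.d_le'
    have h4 : S.c * S.d ≤ S.c * 1 := by
      refine mul_le_mul_of_nonneg_left ?_ h2.le
      norm_num at h3
      (clear * - h3; linarith)
    have h5 : S.c * S.d / 10 ^ 5 ≤ S.c * 1 / 10 ^ 5 := div_le_div_of_nonneg_right h4 (by positivity)
    norm_num at h5 h1
    (clear * - h2 h4 h1; linarith)
  obtain ⟨K2, hK2⟩ := exists_growth (S.c / 4 - S.tau / 10) hbpos (4 / S.c1 * 5) 1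
  refine ⟨max (max K1 K2) (max 1 S.K), fun k0 hk R hR => ?_⟩
  simp only [max_le_iff] at hk
  obtain ⟨⟨a1, a2⟩, a3, a4⟩ := hk
  have hc1 := S.c1_pos
  set P : Finset ℕ := (Finset.range (2 ^ k0)).filter Nat.Prime with hP
  -- the R-part
  have hRpart : ∑ p ∈ P, S.bR R p * (p : ℝ) ^ (-S.s) ≤ (2 : ℝ) ^ (-(S.tau / 10) * (k0 : ℝ)) := by
    have h1 := hR.massR (P.filter (fun p => p ∈ R)) (fun r hr => (Finset.mem_filter.mp hr).2)
    refine le_trans ?_ h1
    rw [Finset.sum_filter (s := P) (p := fun p => p ∈ R)]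
    apply Finset.sum_le_sum
    intro p hp
    unfold Sys.bR
    by_cases hpR : p ∈ R
    · rw [if_pos hpR, if_pos hpR]
      have hp1 : 1 ≤ p := (Finset.mem_filter.mp hp).2.one_lt.le
      have h2 : 0 ≤ Real.log p := Real.log_natCast_nonneg p
      have h3 : 0 ≤ S.base p * (p : ℝ) ^ (-S.s) :=
        mul_nonneg (S.base_nonneg p) (Real.rpow_nonneg (Nat.cast_nonneg _) _)
      have h4 : (1 : ℝ) ≤ (1 + Real.log p) ^ 2 := one_le_pow₀ (by (clear * - h2; linarith))
      exact le_mul_of_one_le_right h3 h4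
    · rw [if_neg hpR, if_neg hpR, zero_mul]
  -- the control part
  have hCpart : ∑ p ∈ P, 2 * S.ctl k0 (top p) R p * (p : ℝ) ^ (-S.s) ≤
      (2 : ℝ) ^ (-(S.tau / 10) * (k0 : ℝ)) := by
    have htop : ∀ p ∈ P, top p ≤ 3 * (k0 + 1) := by
      intro p hp
      rw [hP, Finset.mem_filter, Finset.mem_range] at hp
      unfold top
      have : Nat.log 2 p < k0 := Nat.log_lt_of_lt_pow hp.2.ne_zero hp.1
      omega
    have h1 : ∀ p ∈ P, 2 * S.ctl k0 (top p) R p * (p : ℝ) ^ (-S.s) ≤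
        ∑ k ∈ Finset.Ico k0 (3 * (k0 + 1)), ∑ j ∈ S.badc k,
          ∑ x ∈ (S.act R k j).filter (fun x => x.1 = p),
            2 * (S.wo R k j x.2 * (x.1 : ℝ) ^ (-S.s)) := by
      intro p hp
      have h2 := S.ctl_mono (k0 := k0) (htop p hp) R p
      have h3 : 0 ≤ (p : ℝ) ^ (-S.s) := Real.rpow_nonneg (Nat.cast_nonneg _) _
      have h4 : 2 * S.ctl k0 (top p) R p * (p : ℝ) ^ (-S.s) ≤
          2 * S.ctl k0 (3 * (k0 + 1)) R p * (p : ℝ) ^ (-S.s) := by
        refine mul_le_mul_of_nonneg_right ?_ h3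
        (clear * - h2; linarith)
      refine h4.trans (le_of_eq ?_)
      unfold Sys.ctl Sys.cw
      rw [mul_assoc, Finset.sum_mul, Finset.mul_sum]
      refine Finset.sum_congr rfl fun k _ => ?_
      rw [Finset.sum_mul, Finset.mul_sum]
      refine Finset.sum_congr rfl fun j _ => ?_
      rw [Finset.sum_mul, Finset.mul_sum]
      refine Finset.sum_congr rfl fun x hx => ?_
      rw [(Finset.mem_filter.mp hx).2]
    refine (Finset.sum_le_sum h1).trans ?_
    rw [Finset.sum_comm]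
    have h5 : ∀ k ∈ Finset.Ico k0 (3 * (k0 + 1)),
        ∑ p ∈ P, ∑ j ∈ S.badc k, ∑ x ∈ (S.act R k j).filter (fun x => x.1 = p),
          2 * (S.wo R k j x.2 * (x.1 : ℝ) ^ (-S.s)) ≤
        4 / S.c1 * (2 : ℝ) ^ (-(S.c / 4) * (k0 : ℝ)) := by
      intro k hk
      rw [Finset.mem_Ico] at hk
      rw [Finset.sum_comm]
      have h6 : ∀ j ∈ S.badc k, ∑ p ∈ P, ∑ x ∈ (S.act R k j).filter (fun x => x.1 = p),
          2 * (S.wo R k j x.2 * (x.1 : ℝ) ^ (-S.s)) ≤
          ∑ x ∈ S.act R k j, 2 * (S.wo R k j x.2 * (x.1 : ℝ) ^ (-S.s)) := by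
        intro j _
        refine (Finset.sum_le_sum_of_subset_of_nonneg (s := P)
          (t := P ∪ (S.act R k j).image (fun x => x.1)) Finset.subset_union_left
          (fun p _ _ => Finset.sum_nonneg fun x _ => ?_)).trans (le_of_eq ?_)
        · have := S.wo_nonneg R k j x.2
          (clear * - this; positivity)
        · exact Finset.sum_fiberwise_of_maps_to (fun x hx => Finset.mem_union_right _
            (Finset.mem_image_of_mem _ hx)) _
      refine (Finset.sum_le_sum h6).trans ?_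
      have h7 : ∀ j ∈ S.badc k, ∑ x ∈ S.act R k j, 2 * (S.wo R k j x.2 * (x.1 : ℝ) ^ (-S.s)) ≤
          ∑ x ∈ S.act R k j, 4 / S.c1 * (S.wd k x.2 * (x.1 : ℝ) ^ (-S.s)) := by
        intro j hj
        refine Finset.sum_le_sum fun x hx => ?_
        have hx2 : 1 ≤ x.2 := by
          rw [S.mem_act] at hx
          exact (S.cand_facts (a4.trans hk.1) hj hx.1).2.2.2.1.le
        obtain ⟨h8, h9⟩ := hK1 k0 a1 R hR k hk.1 j hj x.2 hx2
        have h10 : 0 ≤ (x.1 : ℝ) ^ (-S.s) := Real.rpow_nonneg (Nat.cast_nonneg _) _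
        have h11 := S.wd_nonneg k x.2
        have hk1 : (1 : ℝ) ≤ (k : ℝ) ^ 2 := by
          have : (1 : ℝ) ≤ k := by exact_mod_cast a3.trans hk.1
          exact one_le_pow₀ this
        have h12 : 2 / S.c1 / (k : ℝ) ^ 2 ≤ 2 / S.c1 := div_le_self (by positivity) hk1
        have h13 : S.wo R k j x.2 ≤ 2 / S.c1 * S.wd k x.2 :=
          h9.trans (mul_le_mul_of_nonneg_right h12 h11)
        calc 2 * (S.wo R k j x.2 * (x.1 : ℝ) ^ (-S.s)) ≤
              2 * ((2 / S.c1 * S.wd k x.2) * (x.1 : ℝ) ^ (-S.s)) := by (clear * - h13; gcongr)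
          _ = 4 / S.c1 * (S.wd k x.2 * (x.1 : ℝ) ^ (-S.s)) := by ring
      refine (Finset.sum_le_sum h7).trans ?_
      simp only [← Finset.mul_sum]
      refine mul_le_mul_of_nonneg_left ?_ (by positivity)
      refine (hR.massC k hk.1).trans ?_
      refine Real.rpow_le_rpow_of_exponent_le (by norm_num) ?_
      have h14 : (k0 : ℝ) ≤ k := by exact_mod_cast hk.1
      have := S.c_pos
      have h9 := mul_le_mul_of_nonneg_left h14 this.le
      (clear * - h9; linarith)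
    refine (Finset.sum_le_sum h5).trans ?_
    rw [Finset.sum_const, Nat.card_Ico, nsmul_eq_mul]
    have h15 := hK2 k0 a2
    rw [pow_one] at h15
    have h16 : ((3 * (k0 + 1) - k0 : ℕ) : ℝ) ≤ 5 * (k0 : ℝ) := by
      have : 3 * (k0 + 1) - k0 ≤ 5 * k0 := by omega
      exact_mod_cast this
    have h17 : (2 : ℝ) ^ (-(S.tau / 10) * (k0 : ℝ)) =
        (2 : ℝ) ^ ((S.c / 4 - S.tau / 10) * (k0 : ℝ)) * (2 : ℝ) ^ (-(S.c / 4) * (k0 : ℝ)) := by
      rw [← Real.rpow_add (by norm_num)]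
      congr 1
      ring
    rw [h17]
    have h18 : 0 ≤ (2 : ℝ) ^ (-(S.c / 4) * (k0 : ℝ)) := by positivity
    calc ((3 * (k0 + 1) - k0 : ℕ) : ℝ) * (4 / S.c1 * (2 : ℝ) ^ (-(S.c / 4) * (k0 : ℝ))) ≤
          (5 * (k0 : ℝ)) * (4 / S.c1 * (2 : ℝ) ^ (-(S.c / 4) * (k0 : ℝ))) := by
          refine mul_le_mul_of_nonneg_right h16 ?_
          positivity
      _ = (4 / S.c1 * 5 * (k0 : ℝ)) * (2 : ℝ) ^ (-(S.c / 4) * (k0 : ℝ)) := by ring
      _ ≤ _ := mul_le_mul_of_nonneg_right h15 h18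
  have hsplit : ∑ p ∈ P, gg S k0 R p * (p : ℝ) ^ (-S.s) =
      ∑ p ∈ P, S.bR R p * (p : ℝ) ^ (-S.s) +
        ∑ p ∈ P, 2 * S.ctl k0 (top p) R p * (p : ℝ) ^ (-S.s) := by
    rw [← Finset.sum_add_distrib]
    refine Finset.sum_congr rfl fun p _ => ?_
    unfold gg
    ring
  rw [hsplit]
  (clear * - hRpart hCpart; linarith)

/-- the rest of the initial cell -/
theorem rest_le (hWo : WoLe) (S : Sys) : ∃ K0 : ℕ, ∀ k0 : ℕ, K0 ≤ k0 → ∀ R : Set ℕ, S.Good k0 R →
    ∑ n ∈ Finset.Ico 2 (2 ^ k0), CM (gg S k0 R) n ≤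
      8 * (2 : ℝ) ^ (-(S.tau / 10) * (k0 : ℝ)) * (2 : ℝ) ^ (S.s * (k0 : ℝ)) := by
  obtain ⟨K1, hK1⟩ := mass_gg hWo S
  obtain ⟨K2, hK2⟩ := exists_growth (S.tau / 10) (by have := S.tau_pos; (clear * - this; positivity)) 4 0
  refine ⟨max K1 K2, fun k0 hk R hR => ?_⟩
  simp only [max_le_iff] at hk
  have hm := hK1 k0 hk.1 R hR
  have hg := hK2 k0 hk.2
  rw [pow_zero, mul_one] at hg
  set D : ℝ := (2 : ℝ) ^ (-(S.tau / 10) * (k0 : ℝ)) with hD
  have hD0 : 0 < D := by positivity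
  have hD1 : D ≤ 1 / 4 := by
    have h1 : D * (2 : ℝ) ^ (S.tau / 10 * (k0 : ℝ)) = 1 := by
      rw [hD, ← Real.rpow_add (by norm_num)]
      rw [show -(S.tau / 10) * (k0 : ℝ) + S.tau / 10 * (k0 : ℝ) = 0 by ring, Real.rpow_zero]
    have h9 := mul_le_mul_of_nonneg_left hg hD0.le
    (clear * - h1 h9; linarith)
  set F : ℕ → ℝ := fun p => if p < 2 ^ k0 then gg S k0 R p * (p : ℝ) ^ (-S.s) else 0 with hF
  have hF0 : ∀ p : ℕ, 0 ≤ F p := by
    intro p
    rw [hF]
    dsimp only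
    split_ifs
    · exact mul_nonneg (gg_nonneg S k0 R p) (Real.rpow_nonneg (Nat.cast_nonneg _) _)
    · exact le_rfl
  have hsum : ∑ p ∈ (Finset.range (2 ^ k0)).filter Nat.Prime, F p ≤ 2 * D := by
    refine le_trans (le_of_eq ?_) hm
    refine Finset.sum_congr rfl fun p hp => ?_
    rw [hF]
    dsimp only
    rw [if_pos (Finset.mem_range.mp (Finset.mem_filter.mp hp).1)]
  have hFle : ∀ p : ℕ, p.Prime → F p ≤ 1 / 2 := by
    intro p hp
    by_cases h1 : p < 2 ^ k0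
    · have h2 : F p ≤ ∑ p ∈ (Finset.range (2 ^ k0)).filter Nat.Prime, F p :=
        Finset.single_le_sum (f := F) (fun q _ => hF0 q)
          (Finset.mem_filter.mpr ⟨Finset.mem_range.mpr h1, hp⟩)
      (clear * - hD1 hsum h2; linarith)
    · rw [hF]
      dsimp only
      rw [if_neg h1]
      norm_num
  have h2k : 1 ≤ 2 ^ k0 := Nat.one_le_two_pow
  have hset : (Finset.Icc 1 (2 ^ k0 - 1)).filter Nat.Prime =
      (Finset.range (2 ^ k0)).filter Nat.Prime := by
    ext p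
    simp only [Finset.mem_filter, Finset.mem_Icc, Finset.mem_range]
    constructor
    · rintro ⟨⟨_, h1⟩, h2⟩
      exact ⟨by omega, h2⟩
    · rintro ⟨h1, h2⟩
      exact ⟨⟨h2.one_lt.le, by omega⟩, h2⟩
  have hbig := Pool.Agent.M20.Helper33.KS.sum_cm_le' (F := F) (fun p _ => hF0 p) hFle (2 ^ k0 - 1)
  rw [hset] at hbig
  have hexp : Real.exp (2 * ∑ p ∈ (Finset.range (2 ^ k0)).filter Nat.Prime, F p) - 1 ≤ 8 * D := by
    have h1 : Real.exp (2 * ∑ p ∈ (Finset.range (2 ^ k0)).filter Nat.Prime, F p) ≤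
        Real.exp (4 * D) := Real.exp_le_exp.mpr (by (clear * - hsum; linarith))
    have h2 : Real.exp (4 * D) ≤ 1 + 2 * (4 * D) := by
      have h3 : |4 * D| ≤ 1 := by
        rw [abs_of_nonneg (by positivity)]
        (clear * - hD1; linarith)
      have h4 := Real.abs_exp_sub_one_le h3
      rw [abs_of_nonneg (a := 4 * D) (by positivity)] at h4
      have h5 := le_abs_self (Real.exp (4 * D) - 1)
      (clear * - h4 h5; linarith)
    (clear * - h1 h2; linarith)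
  have hIco : Finset.Ico 2 (2 ^ k0) = Finset.Icc 2 (2 ^ k0 - 1) := by
    ext n
    simp only [Finset.mem_Icc, Finset.mem_Ico]
    omega
  rw [hIco]
  have hterm : ∀ n ∈ Finset.Icc 2 (2 ^ k0 - 1), CM (gg S k0 R) n ≤
      Pool.Agent.M20.Helper33.KS.cm F n * (2 : ℝ) ^ (S.s * (k0 : ℝ)) := by
    intro n hn
    rw [Finset.mem_Icc] at hn
    have hn0 : n ≠ 0 := by omega
    have hnlt : n < 2 ^ k0 := by omega
    have h1 : CM (gg S k0 R) n = CM (fun p => F p * (p : ℝ) ^ S.s) n := by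
      refine CM_congr fun p hp hpn => ?_
      have h2 : p < 2 ^ k0 := lt_of_le_of_lt (Nat.le_of_dvd (by omega) hpn) hnlt
      rw [hF]
      dsimp only
      rw [if_pos h2, mul_assoc, ← Real.rpow_add (by exact_mod_cast hp.pos), neg_add_cancel,
        Real.rpow_zero, mul_one]
    rw [h1, CM_mul_fun, CM_rpow _ hn0, CM_eq_cm F hn0]
    refine mul_le_mul_of_nonneg_left ?_
      (Pool.Agent.M20.Helper33.KS.cm_nonneg (fun p _ => hF0 p) n)
    have h3 : (n : ℝ) ≤ (2 : ℝ) ^ (k0 : ℝ) := by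
      rw [Real.rpow_natCast]
      exact_mod_cast hnlt.le
    calc (n : ℝ) ^ S.s ≤ ((2 : ℝ) ^ (k0 : ℝ)) ^ S.s :=
          Real.rpow_le_rpow (Nat.cast_nonneg _) h3 S.s_pos.le
      _ = (2 : ℝ) ^ (S.s * (k0 : ℝ)) := by
          rw [← Real.rpow_mul (by norm_num), mul_comm]
  refine (Finset.sum_le_sum hterm).trans ?_
  rw [← Finset.sum_mul]
  refine mul_le_mul_of_nonneg_right ?_ (by positivity)
  exact hbig.trans hexp

/-- **The initial cell.** -/
theorem init (hWo : WoLe) : Init := by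
  intro S
  obtain ⟨K1, hK1⟩ := rest_le hWo S
  obtain ⟨K2, hK2, hG0⟩ := G0_ge S
  have hc1 := S.c1_pos
  obtain ⟨K3, hK3⟩ := exists_growth S.s S.s_pos (32 / S.c1) 4
  obtain ⟨K4, hK4⟩ := exists_growth (S.tau / 10) (by have := S.tau_pos; (clear * - this; positivity))
    (8 * 32 / S.c1) 4
  refine ⟨max (max K1 K2) (max K3 K4), fun k0 hk R hR => ?_⟩
  simp only [max_le_iff] at hk
  obtain ⟨⟨a1, a2⟩, a3, a4⟩ := hk
  have hk2 : 2 ≤ k0 := hK2.trans a2
  have h1 := hK1 k0 a1 R hR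
  have h2 := hG0 k0 a2
  have h3 := hK3 k0 a3
  have h4 := hK4 k0 a4
  have hkpos : (0 : ℝ) < (k0 : ℝ) ^ 4 := by positivity
  -- the sum
  have hlt : 1 < 2 ^ k0 := Nat.one_lt_two_pow (by omega)
  have hS : ∑ n ∈ Finset.Ico 1 (2 ^ k0), S.W k0 R n =
      1 + (∑ n ∈ Finset.Ico 2 (2 ^ k0), CM (gg S k0 R) n + 2 * S.G0 k0) := by
    rw [Finset.sum_eq_sum_Ico_succ_bot hlt, S.W_one]
    congr 1
    have h5 : ∀ n ∈ Finset.Ico (1 + 1) (2 ^ k0), S.W k0 R n = CM (gg S k0 R) n +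
        (if n.Prime ∧ 2 ^ (k0 - 1) ≤ n then 2 * S.phi0 k0 else 0) := by
      intro n hn
      rw [Finset.mem_Ico] at hn
      exact W_le_init S k0 (by omega) R hn.1 hn.2
    rw [Finset.sum_congr rfl h5, Finset.sum_add_distrib]
    congr 1
    rw [← Finset.sum_filter, Finset.sum_const, nsmul_eq_mul]
    unfold Sys.G0
    have h6 : (Finset.Ico (1 + 1) (2 ^ k0)).filter (fun n => n.Prime ∧ 2 ^ (k0 - 1) ≤ n) =
        (Finset.Ico (2 ^ (k0 - 1)) (2 ^ k0)).filter Nat.Prime := by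
      ext n
      simp only [Finset.mem_filter, Finset.mem_Ico]
      constructor
      · rintro ⟨⟨_, h7⟩, h8, h9⟩
        exact ⟨⟨h9, h7⟩, h8⟩
      · rintro ⟨⟨h9, h7⟩, h8⟩
        exact ⟨⟨h8.two_le, h7⟩, h8, h9⟩
    rw [h6]
    ring
  rw [hS]
  set A : ℝ := (2 : ℝ) ^ (S.s * (k0 : ℝ)) with hA
  have hA0 : 0 < A := by positivity
  set D : ℝ := (2 : ℝ) ^ (-(S.tau / 10) * (k0 : ℝ)) with hD
  have hD0 : 0 < D := by positivity
  have hDB : D * (2 : ℝ) ^ (S.tau / 10 * (k0 : ℝ)) = 1 := by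
    rw [hD, ← Real.rpow_add (by norm_num)]
    rw [show -(S.tau / 10) * (k0 : ℝ) + S.tau / 10 * (k0 : ℝ) = 0 by ring, Real.rpow_zero]
  -- `1 ≤ (c1/32) A / k0^4`
  have e1 : 1 ≤ S.c1 / 32 * (A / (k0 : ℝ) ^ 4) := by
    rw [← mul_div_assoc, le_div_iff₀ hkpos, one_mul]
    have : 32 / S.c1 * (k0 : ℝ) ^ 4 ≤ A := h3
    calc (k0 : ℝ) ^ 4 = S.c1 / 32 * (32 / S.c1 * (k0 : ℝ) ^ 4) := by
          clear * - hc1 hk2; field_simp
      _ ≤ S.c1 / 32 * A := mul_le_mul_of_nonneg_left this (by positivity)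
  have e2 : 8 * D * A ≤ S.c1 / 32 * (A / (k0 : ℝ) ^ 4) := by
    have h5 : 8 * D ≤ S.c1 / 32 / (k0 : ℝ) ^ 4 := by
      rw [le_div_iff₀ hkpos]
      have h6 : 8 * 32 / S.c1 * (k0 : ℝ) ^ 4 * D ≤ 1 := by
        calc 8 * 32 / S.c1 * (k0 : ℝ) ^ 4 * D ≤ (2 : ℝ) ^ (S.tau / 10 * (k0 : ℝ)) * D :=
              mul_le_mul_of_nonneg_right h4 hD0.le
          _ = 1 := by rw [mul_comm]; exact hDB
      calc 8 * D * (k0 : ℝ) ^ 4 = S.c1 / 32 * (8 * 32 / S.c1 * (k0 : ℝ) ^ 4 * D) := by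
            (clear * - hc1 hk2 hD0; field_simp)
        _ ≤ S.c1 / 32 * 1 := mul_le_mul_of_nonneg_left h6 (by positivity)
        _ = S.c1 / 32 := mul_one _
    calc 8 * D * A ≤ S.c1 / 32 / (k0 : ℝ) ^ 4 * A := mul_le_mul_of_nonneg_right h5 hA0.le
      _ = _ := by ring
  have e3 : S.c1 / 32 * (A / (k0 : ℝ) ^ 4) ≤ S.G0 k0 / 8 := by
    have : S.c1 / 32 * (A / (k0 : ℝ) ^ 4) = (S.c1 / 4 * (A / (k0 : ℝ) ^ 4)) / 8 := by ring
    rw [this]
    (clear * - h2; linarith)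
  (clear * - h2 h1 e1 e2; linarith)

end Pool.Agent.M20.Helper72.KS
end

/- Helper53.KN.Helper88.KS.Load1 -/
section
/-!
# Project KS: `Load1` from `Red`, `KF`, `JF`; `Load2` from `Red`, `JF`, `LL`
-/

set_option autoImplicit false
open scoped Classical
open Finset

namespace Pool.Agent.M20.Helper88.KS

open Pool.Agent.M20.Helper16.KS Pool.Agent.M20.Helper18.KL

theorem tw_nonneg (S : Sys) (A : Finset ℕ) (m l : ℕ) : 0 ≤ tw S A m l := by
  unfold tw
  positivity

/-- `LS` is subadditive in the condition -/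
theorem LS_le_add (S : Sys) (k0 k j : ℕ) (Q Q1 Q2 : ℕ × ℕ → ℕ → ℕ × ℕ → Prop) (A : Finset ℕ)
    (h : ∀ n ∈ cell S.d k j, ∀ k' ∈ S.hvy k0 k, ∀ j' ∈ S.badc k', ∀ x ∈ S.Cand k' j', x.1 ∣ n →
      Q (k', j') n x → Q1 (k', j') n x ∨ Q2 (k', j') n x) :
    LS S k0 k j Q A ≤ LS S k0 k j Q1 A + LS S k0 k j Q2 A := by
  unfold LS
  rw [← Finset.sum_add_distrib]
  apply Finset.sum_le_sum
  intro n hn
  rw [← Finset.sum_add_distrib]
  apply Finset.sum_le_sum
  intro k' hk'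
  rw [← Finset.sum_add_distrib]
  apply Finset.sum_le_sum
  intro j' hj'
  rw [Finset.sum_filter, Finset.sum_filter, Finset.sum_filter, ← Finset.sum_add_distrib]
  apply Finset.sum_le_sum
  intro x hx
  have ht := tw_nonneg S A x.2 (n / x.1)
  by_cases h1 : x.1 ∣ n ∧ Q (k', j') n x ∧ A ⊆ x.2.primeFactors ∪ (n / x.1).primeFactors
  · rw [if_pos h1]
    rcases h n (Finset.mem_filter.mp hn).1 k' hk' j' hj' x hx h1.1 h1.2.1 with h2 | h2
    · rw [if_pos ⟨h1.1, h2, h1.2.2⟩]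
      split_ifs <;> linarith
    · rw [if_pos (c := x.1 ∣ n ∧ Q2 (k', j') n x ∧ _) ⟨h1.1, h2, h1.2.2⟩]
      split_ifs <;> linarith
  · rw [if_neg h1]
    split_ifs <;> linarith

/-- the two kinds of non-direct terms -/
theorem Q1_split {A : Finset ℕ} {i : ℕ × ℕ} {n : ℕ} {x : ℕ × ℕ} (hx : Squarefree x.2)
    (h : Sys.Q1 i n x) : QK A i n x ∨ QJ A i n x := by
  by_cases hK : QK A i n x
  · exact Or.inl hK
  · right
    unfold QK at hK
    push Not at hK
    unfold Sys.Q1 at h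
    have h1 : ∃ p : ℕ, p.Prime ∧ p ∣ x.2 ∧ ¬ p ∣ n / x.1 := by
      by_contra hc
      push Not at hc
      apply h
      rw [← Nat.prod_primeFactors_of_squarefree hx]
      apply Finset.prod_primes_dvd
      · intro p hp
        exact (Nat.prime_of_mem_primeFactors hp).prime
      · intro p hp
        exact hc p (Nat.prime_of_mem_primeFactors hp) (Nat.dvd_of_mem_primeFactors hp)
    obtain ⟨p, hp, hpx, hpn⟩ := h1
    refine ⟨⟨p, hp, hpx, ?_⟩, hK⟩
    by_contra hA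
    exact hpn (hK p hp hpx hA)

/-- common part of `load1_of` and `load2_of` -/
theorem load_of (h1 : Red) (Qa : Sys → ℕ × ℕ → ℕ → ℕ × ℕ → Prop)
    (Q2 Q3 : Sys → Finset ℕ → ℕ × ℕ → ℕ → ℕ × ℕ → Prop) (h2 : SmallLS Q2) (h3 : SmallLS Q3)
    (hsplit : ∀ (S : Sys) (A : Finset ℕ) (i : ℕ × ℕ) (n : ℕ) (x : ℕ × ℕ), Squarefree x.2 →
      Qa S i n x → Q2 S A i n x ∨ Q3 S A i n x) (S : Sys) :
    ∃ K0 : ℕ, ∀ k0 : ℕ, K0 ≤ k0 → ∀ k, k0 ≤ k → ∀ j < nc S.d k,
      ∀ A : Finset ℕ, S.LP k0 k j (Qa S) A ≤ (2 : ℝ) ^ (-(S.ep / 50) * k) * S.G k := by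
  obtain ⟨K1, h1'⟩ := h1 S
  obtain ⟨K2, h2'⟩ := h2 S
  obtain ⟨K3, h3'⟩ := h3 S
  have hep : 0 < S.ep := by
    have hc := S.d_pos
    have h4 := S.d_le
    have h5 := S.c_le
    have hc0 : 0 < S.c := by linarith
    have he0 : 0 < S.eta := by linarith
    unfold Sys.ep
    positivity
  obtain ⟨K4, h4⟩ := Pool.Agent.M20.Helper72.KS.exists_growth (3 * S.ep / 1000) (by positivity) 2 4
  refine ⟨max (max K1 K2) (max (max K3 K4) (max S.K 1)), ?_⟩
  intro k0 hk0 k hk j hj A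
  simp only [max_le_iff] at hk0
  obtain ⟨⟨a1, a2⟩, ⟨a3, a4⟩, a5, a6⟩ := hk0
  have hkpos : (0 : ℝ) < k := by
    have : 1 ≤ k := a6.trans hk
    exact_mod_cast this
  have e1 := h1' k0 a1 k hk j hj (Qa S) A
  have e2 := h2' k0 a2 k hk j hj A
  have e3 := h3' k0 a3 k hk j hj A
  have e4 := h4 k (a4.trans hk)
  have e5 : LS S k0 k j (Qa S) A ≤ LS S k0 k j (Q2 S A) A + LS S k0 k j (Q3 S A) A := by
    apply LS_le_add
    intro n hn k' hk' j' hj' x hx hxn hQ
    apply hsplit S A _ _ _ _ hQ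
    have hk'0 : k0 ≤ k' := by
      unfold Sys.hvy at hk'
      rw [Finset.mem_Ico] at hk'
      exact (le_max_left _ _).trans hk'.1
    have hb := mem_badc.mp hj'
    have := (S.cand k' (a5.trans hk'0) j' hb.1 hb.2 x hx).2.2.1
    exact this.squarefree_of_dvd (Dvd.intro_left _ rfl)
  have hLS : LS S k0 k j (Qa S) A ≤ 2 * ((2 : ℝ) ^ (-(S.ep / 40) * k) * 2 ^ ec S.d k) := by
    linarith
  have hG : S.G k = 2 ^ ec S.d k * (2 : ℝ) ^ ((S.s - 1) * k) / k ^ 4 := rfl
  have hk4 : (0 : ℝ) < (k : ℝ) ^ 4 := by positivity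
  calc S.LP k0 k j (Qa S) A
      ≤ (2 : ℝ) ^ (20 * S.tau * k) * (2 : ℝ) ^ ((S.s - 1) * k) * LS S k0 k j (Qa S) A := e1
    _ ≤ (2 : ℝ) ^ (20 * S.tau * k) * (2 : ℝ) ^ ((S.s - 1) * k) *
        (2 * ((2 : ℝ) ^ (-(S.ep / 40) * k) * 2 ^ ec S.d k)) := by gcongr
    _ = (2 * (k : ℝ) ^ 4) * ((2 : ℝ) ^ (20 * S.tau * k) * (2 : ℝ) ^ (-(S.ep / 40) * k)) *
        (2 ^ ec S.d k * (2 : ℝ) ^ ((S.s - 1) * k) / k ^ 4) := by
        field_simp
    _ ≤ (2 : ℝ) ^ (3 * S.ep / 1000 * (k : ℝ)) *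
        ((2 : ℝ) ^ (20 * S.tau * k) * (2 : ℝ) ^ (-(S.ep / 40) * k)) *
        (2 ^ ec S.d k * (2 : ℝ) ^ ((S.s - 1) * k) / k ^ 4) := by gcongr
    _ = (2 : ℝ) ^ (-(S.ep / 50) * k) * S.G k := by
        rw [hG, ← Real.rpow_add (by norm_num), ← Real.rpow_add (by norm_num)]
        congr 2
        unfold Sys.tau
        ring

/-- (LOAD1) -/
theorem load1_of (h1 : Red) (h2 : KF) (h3 : JF) : Load1 := fun S =>
  load_of h1 (fun _ => Sys.Q1) _ _ h2 h3 (fun _ _ _ _ _ hx h => Q1_split hx h) S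

/-- the two kinds of direct terms with large cofactor -/
theorem Q2_split {S : Sys} {A : Finset ℕ} {i : ℕ × ℕ} {n : ℕ} {x : ℕ × ℕ}
    (h : S.Q2 i n x) : QJ A i n x ∨ QL S A i n x := by
  by_cases hA : ∃ p : ℕ, p.Prime ∧ p ∣ x.2 ∧ p ∈ A
  · left
    exact ⟨hA, fun p _ hpx _ => hpx.trans h.1⟩
  · right
    push Not at hA
    exact ⟨h, hA⟩

/-- (LOAD2) -/
theorem load2_of (h1 : Red) (h2 : JF) (h3 : LL) : Load2 := fun S =>
  load_of h1 (fun S => S.Q2) _ _ h2 h3 (fun _ _ _ _ _ _ h => Q2_split h) S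

end Pool.Agent.M20.Helper88.KS
end
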