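import Mathlib
import Pool.Agent.Helper53.KO.G01
import Pool.Agent.Helper53.KO.G02
import Pool.Agent.Helper53.KO.G06
import Pool.Agent.Helper53.KO.G21

set_option linter.all false

/- Helper53.KN.Helper14.KSP.Count -/
section
/-! Integers composed of few given primes are rare (Rankin), and the sum of `1/rad`. -/

set_option autoImplicit false

open Finset

namespace Pool.Agent.M20.Helper14.KSP

/-- product of the prime factors of `k` outside `G` -/
def radG (G : Finset ℕ) (k : ℕ) : ℕ := ∏ p ∈ k.primeFactors \ G, p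

/-- `n ↦ n ^ (-η)` -/
noncomputable def fη (η : ℝ) : ℕ →* ℝ where
  toFun n := (n : ℝ) ^ (-η)
  map_one' := by rw [Nat.cast_one]; exact Real.one_rpow _
  map_mul' m n := by push_cast; exact Real.mul_rpow (Nat.cast_nonneg _) (Nat.cast_nonneg _)

theorem fη_apply (η : ℝ) (n : ℕ) : fη η n = (n : ℝ) ^ (-η) := rfl

/-- Rankin's bound. -/
theorem card_factored_le (η : ℝ) (hη : 0 < η) (s : Finset ℕ) (N : ℕ) :
    (((Icc 1 N).filter (fun n => n.primeFactors ⊆ s)).card : ℝ) ≤
      (N : ℝ) ^ η * ∏ p ∈ s with p.Prime, (1 - (p : ℝ) ^ (-η))⁻¹ := by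
  have hf : ∀ {p : ℕ}, p.Prime → ‖fη η p‖ < 1 := by
    intro p hp
    rw [fη_apply, Real.norm_of_nonneg (by positivity)]
    exact Real.rpow_lt_one_of_one_lt_of_neg (by exact_mod_cast hp.one_lt) (by (clear * - hη; linarith))
  obtain ⟨hsum, hhas⟩ :=
    EulerProduct.summable_and_hasSum_factoredNumbers_prod_filter_prime_geometric
      (f := fη η) hf s
  have hle : (((Icc 1 N).filter (fun n => n.primeFactors ⊆ s)).card : ℝ) ≤
      (N : ℝ) ^ η * ∑ n ∈ (Icc 1 N).filter (fun n => n.primeFactors ⊆ s), (n : ℝ) ^ (-η) := by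
    rw [mul_sum, card_eq_sum_ones]
    push_cast
    refine sum_le_sum fun n hn => ?_
    have hn1 := mem_Icc.mp (mem_filter.mp hn).1
    have hn0 : (0 : ℝ) < n := by exact_mod_cast hn1.1
    have hnN : (n : ℝ) ≤ N := by exact_mod_cast hn1.2
    have h1 : (n : ℝ) ^ η ≤ (N : ℝ) ^ η := Real.rpow_le_rpow hn0.le hnN hη.le
    calc (1 : ℝ) = (n : ℝ) ^ η * (n : ℝ) ^ (-η) := by
          rw [← Real.rpow_add hn0]; simp
      _ ≤ (N : ℝ) ^ η * (n : ℝ) ^ (-η) := mul_le_mul_of_nonneg_right h1 (by positivity)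
  refine hle.trans (mul_le_mul_of_nonneg_left ?_ (by positivity))
  -- the finite sum is at most the full sum
  have hmem : ∀ n ∈ (Icc 1 N).filter (fun n => n.primeFactors ⊆ s), n ∈ Nat.factoredNumbers s := by
    intro n hn
    have hn1 := mem_filter.mp hn
    exact Nat.mem_factoredNumbers_of_primeFactors_subset
      (by have := (mem_Icc.mp hn1.1).1; omega) hn1.2
  set A := (Icc 1 N).filter (fun n => n.primeFactors ⊆ s) with hA
  have h2 : ∑ n ∈ A, (n : ℝ) ^ (-η) = ∑ m ∈ A.attach, fη η (m : ℕ) := by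
    rw [← sum_attach A]; rfl
  set ι : {x // x ∈ A} → Nat.factoredNumbers s := fun x => ⟨x.1, hmem x.1 x.2⟩ with hι
  have hinj : Function.Injective ι := by
    intro x y hxy
    apply Subtype.ext
    have := congrArg Subtype.val hxy
    simpa [hι] using this
  have h3 : ∑ m ∈ A.attach, fη η (m : ℕ) =
      ∑ m ∈ A.attach.map ⟨ι, hinj⟩, fη η (m : ℕ) := by
    rw [sum_map]; rfl
  rw [h2, h3]
  have h4 := sum_le_hasSum (A.attach.map ⟨ι, hinj⟩)
    (fun m _ => by rw [fη_apply]; (clear * -; positivity)) hhas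
  simpa [fη_apply] using h4

/-- The Euler factor over few primes is small. -/
theorem prod_le (ε B : ℝ) (hε : 0 < ε) (hB : 0 < B) (η : ℝ) (hη : 0 < η) :
    ∃ C : ℝ, 0 < C ∧ ∀ (N : ℕ) (s : Finset ℕ), 1 ≤ N → (s.card : ℝ) ≤ B * Real.log N →
      ∏ p ∈ s with p.Prime, (1 - (p : ℝ) ^ (-η))⁻¹ ≤ C * (N : ℝ) ^ ε := by
  -- threshold P0
  obtain ⟨P0, hP0, hP1, hP2⟩ : ∃ P0 : ℕ, 2 ≤ P0 ∧ (P0 : ℝ) ^ (-η) ≤ 1 / 2 ∧
      2 * B * (P0 : ℝ) ^ (-η) ≤ ε := by
    have ht : Filter.Tendsto (fun n : ℕ => (n : ℝ) ^ (-η)) Filter.atTop (nhds 0) :=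
      (tendsto_rpow_neg_atTop hη).comp tendsto_natCast_atTop_atTop
    have hpos : 0 < min (1 / 2) (ε / (2 * B)) := lt_min (by norm_num) (by positivity)
    obtain ⟨P0, h1, h2⟩ := ((ht.eventually (gt_mem_nhds hpos)).and
      (Filter.eventually_ge_atTop 2)).exists
    refine ⟨P0, h2, (h1.le.trans (min_le_left _ _)), ?_⟩
    have := h1.le.trans (min_le_right _ _)
    rw [le_div_iff₀ (by positivity)] at this
    (clear * - this; linarith)
  set C1 : ℝ := (1 - (2 : ℝ) ^ (-η))⁻¹ with hC1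
  have h2η : (2 : ℝ) ^ (-η) < 1 := Real.rpow_lt_one_of_one_lt_of_neg (by norm_num) (by (clear * - hη; linarith))
  have hC1a : 1 ≤ C1 := by
    rw [hC1]
    exact (one_le_inv₀ (by (clear * - h2η; linarith))).mpr (by
      have : 0 < (2 : ℝ) ^ (-η) := by positivity
      (clear * - this; linarith))
  refine ⟨C1 ^ P0, by (clear * - h2η; positivity), ?_⟩
  intro N s hN hs
  have hfac : ∀ p ∈ s.filter (fun p => p.Prime), (1 - (p : ℝ) ^ (-η))⁻¹ ≤
      (if p < P0 then C1 else 1) * Real.exp (2 * (P0 : ℝ) ^ (-η)) := by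
    intro p hp
    have hpp : p.Prime := (mem_filter.mp hp).2
    by_cases h : p < P0
    · rw [if_pos h]
      have h1 : (p : ℝ) ^ (-η) ≤ (2 : ℝ) ^ (-η) :=
        Real.rpow_le_rpow_of_nonpos (by norm_num) (by exact_mod_cast hpp.two_le) (by (clear * - hη; linarith))
      have h2 : (1 - (p : ℝ) ^ (-η))⁻¹ ≤ C1 := by
        rw [hC1]
        exact inv_anti₀ (by (clear * - h2η; linarith)) (by (clear * - h1; linarith))
      have h3 : (1 : ℝ) ≤ Real.exp (2 * (P0 : ℝ) ^ (-η)) := Real.one_le_exp (by positivity)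
      (clear * - h2 h3 hC1a; nlinarith)
    · rw [if_neg h, one_mul]
      have hp0 : (P0 : ℝ) ≤ p := by exact_mod_cast not_lt.mp h
      have h1 : (p : ℝ) ^ (-η) ≤ (P0 : ℝ) ^ (-η) :=
        Real.rpow_le_rpow_of_nonpos (by positivity) hp0 (by (clear * - hη; linarith))
      have h0 : 0 ≤ (p : ℝ) ^ (-η) := by positivity
      set x := (p : ℝ) ^ (-η) with hx
      have hx2 : x ≤ 1 / 2 := h1.trans hP1
      have h4 : (1 - x)⁻¹ ≤ 1 + 2 * x := by
        rw [inv_le_iff_one_le_mul₀ (by (clear * - hP1 h1; linarith))]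
        (clear * - hP1 h0 h1; nlinarith)
      have h5 : 1 + 2 * x ≤ Real.exp (2 * x) := by
        have := Real.add_one_le_exp (2 * x); (clear * - this; linarith)
      have h6 : Real.exp (2 * x) ≤ Real.exp (2 * (P0 : ℝ) ^ (-η)) :=
        Real.exp_le_exp.mpr (by (clear * - h1; linarith))
      (clear * - h4 h5 h6; linarith)
  have hnn : ∀ p ∈ s.filter (fun p => p.Prime), 0 ≤ (1 - (p : ℝ) ^ (-η))⁻¹ := by
    intro p hp
    have hpp : p.Prime := (mem_filter.mp hp).2
    have : (p : ℝ) ^ (-η) < 1 :=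
      Real.rpow_lt_one_of_one_lt_of_neg (by exact_mod_cast hpp.one_lt) (by linarith)
    exact inv_nonneg.mpr (by linarith)
  calc ∏ p ∈ s with p.Prime, (1 - (p : ℝ) ^ (-η))⁻¹
      ≤ ∏ p ∈ s with p.Prime, ((if p < P0 then C1 else 1) * Real.exp (2 * (P0 : ℝ) ^ (-η))) :=
        prod_le_prod hnn hfac
    _ = (∏ p ∈ s with p.Prime, (if p < P0 then C1 else 1)) *
          Real.exp (2 * (P0 : ℝ) ^ (-η)) ^ (s.filter (fun p => p.Prime)).card := by
        rw [prod_mul_distrib, prod_const]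
    _ ≤ C1 ^ P0 * (N : ℝ) ^ ε := by
        refine mul_le_mul ?_ ?_ (by positivity) (by positivity)
        · rw [prod_ite, prod_const, prod_const_one, mul_one]
          refine pow_le_pow_right₀ hC1a ?_
          calc ((s.filter (fun p => p.Prime)).filter (fun p => p < P0)).card
              ≤ (range P0).card := card_le_card (fun p hp => mem_range.mpr (mem_filter.mp hp).2)
            _ = P0 := card_range P0
        · rw [← Real.exp_nat_mul]
          have hN0 : (0 : ℝ) < N := by exact_mod_cast hN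
          rw [Real.rpow_def_of_pos hN0]
          refine Real.exp_le_exp.mpr ?_
          have hc : ((s.filter (fun p => p.Prime)).card : ℝ) ≤ B * Real.log N :=
            le_trans (by exact_mod_cast card_filter_le _ _) hs
          have hlog : 0 ≤ Real.log N := Real.log_nonneg (by exact_mod_cast hN)
          calc ((s.filter (fun p => p.Prime)).card : ℝ) * (2 * (P0 : ℝ) ^ (-η))
              ≤ (B * Real.log N) * (2 * (P0 : ℝ) ^ (-η)) :=
                mul_le_mul_of_nonneg_right hc (by positivity)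
            _ = Real.log N * (2 * B * (P0 : ℝ) ^ (-η)) := by ring
            _ ≤ Real.log N * ε := mul_le_mul_of_nonneg_left hP2 hlog

/-- Few primes: few integers. -/
theorem card_le (ε B : ℝ) (hε : 0 < ε) (hB : 0 < B) :
    ∃ C : ℝ, 0 < C ∧ ∀ (N : ℕ) (s : Finset ℕ), 1 ≤ N → (s.card : ℝ) ≤ B * Real.log N →
      (((Icc 1 N).filter (fun n => n.primeFactors ⊆ s)).card : ℝ) ≤ C * (N : ℝ) ^ ε := by
  obtain ⟨C, hC, h⟩ := prod_le (ε / 2) B (by (clear * - hε; linarith)) hB (ε / 2) (by (clear * - hε; linarith))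
  refine ⟨C, hC, fun N s hN hs => ?_⟩
  have hN0 : (0 : ℝ) < N := by exact_mod_cast hN
  calc (((Icc 1 N).filter (fun n => n.primeFactors ⊆ s)).card : ℝ)
      ≤ (N : ℝ) ^ (ε / 2) * ∏ p ∈ s with p.Prime, (1 - (p : ℝ) ^ (-(ε / 2)))⁻¹ :=
        card_factored_le (ε / 2) (by (clear * - hε; linarith)) s N
    _ ≤ (N : ℝ) ^ (ε / 2) * (C * (N : ℝ) ^ (ε / 2)) :=
        mul_le_mul_of_nonneg_left (h N s hN hs) (by positivity)
    _ = C * (N : ℝ) ^ ε := by
        have : (N : ℝ) ^ ε = (N : ℝ) ^ (ε / 2) * (N : ℝ) ^ (ε / 2) := by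
          rw [← Real.rpow_add hN0]; congr 1; ring
        rw [this]; ring

theorem card_primeFactors_le (n N : ℕ) (hn : n ≠ 0) (h : n ≤ N) :
    (n.primeFactors.card : ℝ) ≤ 2 * Real.log N := by
  have h1 : 2 ^ n.primeFactors.card ≤ n := by
    calc 2 ^ n.primeFactors.card = ∏ _p ∈ n.primeFactors, 2 := by rw [prod_const]
      _ ≤ ∏ p ∈ n.primeFactors, p :=
        prod_le_prod' fun p hp => (Nat.prime_of_mem_primeFactors hp).two_le
      _ ≤ n := Nat.le_of_dvd (Nat.pos_of_ne_zero hn) (Nat.prod_primeFactors_dvd n)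
  have h2 : (2 : ℝ) ^ n.primeFactors.card ≤ N := by exact_mod_cast h1.trans h
  have h3 := Real.log_le_log (by positivity) h2
  rw [Real.log_pow] at h3
  have h4 : (1 / 2 : ℝ) < Real.log 2 := by have := Real.log_two_gt_d9; (clear * - this; linarith)
  have h5 : (0 : ℝ) ≤ n.primeFactors.card := Nat.cast_nonneg _
  (clear * - h3 h4; nlinarith)

/-- `∑ 1/rad*` is `N^o(1)`. -/
theorem sum_inv_radG_le (ε B : ℝ) (hε : 0 < ε) (hB : 0 < B) :
    ∃ C : ℝ, 0 < C ∧ ∀ (N : ℕ) (G : Finset ℕ), 1 ≤ N → (G.card : ℝ) ≤ B * Real.log N →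
      ∑ h ∈ Icc 1 N, (1 : ℝ) / radG G h ≤ C * (N : ℝ) ^ ε := by
  obtain ⟨C, hC, hcard⟩ := card_le (ε / 2) (B + 2) (by linarith) (by (clear * - hB; linarith))
  -- log N <= C2 N^(ε/2)
  refine ⟨C * (1 + 2 / ε), by positivity, fun N G hN hG => ?_⟩
  have hN0 : (0 : ℝ) < N := by exact_mod_cast hN
  have hmap : ∀ h ∈ Icc 1 N, radG G h ∈ Icc 1 N := by
    intro h hh
    have h1 := mem_Icc.mp hh
    have hd : radG G h ∣ h := by
      refine dvd_trans (prod_dvd_prod_of_subset _ _ _ sdiff_subset) (Nat.prod_primeFactors_dvd h)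
    have h0 : 0 < h := by omega
    exact mem_Icc.mpr ⟨Nat.pos_of_dvd_of_pos hd h0, (Nat.le_of_dvd h0 hd).trans h1.2⟩
  exact by
    rw [← sum_fiberwise_of_maps_to hmap]
    have hfib : ∀ r ∈ Icc 1 N, ∑ h ∈ (Icc 1 N).filter (fun h => radG G h = r),
        (1 : ℝ) / radG G h ≤ C * (N : ℝ) ^ (ε / 2) * (1 / r) := by
      intro r hr
      have hr1 := mem_Icc.mp hr
      have hr0 : (0 : ℝ) < r := by exact_mod_cast hr1.1
      have h1 : ∑ h ∈ (Icc 1 N).filter (fun h => radG G h = r), (1 : ℝ) / radG G h =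
          (((Icc 1 N).filter (fun h => radG G h = r)).card : ℝ) * (1 / r) := by
        rw [sum_congr rfl (fun h hh => by rw [(mem_filter.mp hh).2]), sum_const, nsmul_eq_mul]
      rw [h1]
      refine mul_le_mul_of_nonneg_right ?_ (by (clear * - hr0; positivity))
      have hsub : (Icc 1 N).filter (fun h => radG G h = r) ⊆
          (Icc 1 N).filter (fun n => n.primeFactors ⊆ G ∪ r.primeFactors) := by
        intro h hh
        obtain ⟨hh1, hh2⟩ := mem_filter.mp hh
        refine mem_filter.mpr ⟨hh1, fun p hp => ?_⟩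
        by_cases hpG : p ∈ G
        · exact mem_union_left _ hpG
        · refine mem_union_right _ ?_
          rw [Nat.mem_primeFactors]
          refine ⟨Nat.prime_of_mem_primeFactors hp, ?_, by omega⟩
          rw [← hh2]
          exact dvd_prod_of_mem _ (mem_sdiff.mpr ⟨hp, hpG⟩)
      refine le_trans (by exact_mod_cast card_le_card hsub) (hcard N _ hN ?_)
      have h2 : ((G ∪ r.primeFactors).card : ℝ) ≤ G.card + r.primeFactors.card := by
        exact_mod_cast card_union_le _ _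
      have h3 := card_primeFactors_le r N (by omega) hr1.2
      calc ((G ∪ r.primeFactors).card : ℝ) ≤ G.card + r.primeFactors.card := h2
        _ ≤ B * Real.log N + 2 * Real.log N := add_le_add hG h3
        _ = (B + 2) * Real.log N := by ring
    refine (sum_le_sum hfib).trans ?_
    rw [← mul_sum]
    have hharm : ∑ r ∈ Icc 1 N, (1 : ℝ) / r ≤ 1 + Real.log N := by
      have h := harmonic_le_one_add_log N
      rw [harmonic_eq_sum_Icc] at h
      push_cast at h
      simpa [one_div] using h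
    have hlog : Real.log N ≤ (N : ℝ) ^ (ε / 2) / (ε / 2) :=
      Real.log_le_rpow_div hN0.le (by (clear * - hε; linarith))
    have h1N : (1 : ℝ) ≤ (N : ℝ) ^ (ε / 2) := Real.one_le_rpow (by exact_mod_cast hN) (by (clear * - hε; linarith))
    have hsum : ∑ r ∈ Icc 1 N, (1 : ℝ) / r ≤ (1 + 2 / ε) * (N : ℝ) ^ (ε / 2) := by
      calc ∑ r ∈ Icc 1 N, (1 : ℝ) / r ≤ 1 + Real.log N := hharm
        _ ≤ (N : ℝ) ^ (ε / 2) + (N : ℝ) ^ (ε / 2) / (ε / 2) := add_le_add h1N hlog
        _ = (1 + 2 / ε) * (N : ℝ) ^ (ε / 2) := by field_simp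
    calc C * (N : ℝ) ^ (ε / 2) * ∑ r ∈ Icc 1 N, (1 : ℝ) / r
        ≤ C * (N : ℝ) ^ (ε / 2) * ((1 + 2 / ε) * (N : ℝ) ^ (ε / 2)) :=
          mul_le_mul_of_nonneg_left hsum (by positivity)
      _ = C * (1 + 2 / ε) * (N : ℝ) ^ ε := by
          have : (N : ℝ) ^ ε = (N : ℝ) ^ (ε / 2) * (N : ℝ) ^ (ε / 2) := by
            rw [← Real.rpow_add hN0]; congr 1; ring
          rw [this]; ring

end Pool.Agent.M20.Helper14.KSP
end

/- Helper53.KN.Helper18.KP.Hold -/
section
/-! Project KS, lemma POW: Hölder and detection. -/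

set_option autoImplicit false
open MeasureTheory Filter Topology Finset
open scoped Classical ENNReal

namespace Pool.Agent.M20.Helper18.KP

open Pool.Agent.M20.Helper60.KS Pool.Agent.M20.Helper65.KC

theorem GP_continuous {ι : Type} (S : Finset ι) (n : ι → ℕ) (v : ℝ) : Continuous (fun t : ℝ => GP S n v t) := by
  unfold GP
  fun_prop

theorem GP_norm_le {ι : Type} (S : Finset ι) (n : ι → ℕ) (v t : ℝ) : ‖GP S n v t‖ ≤ S.card := by
  unfold GP
  refine (norm_sum_le _ _).trans ?_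
  have : ∀ j ∈ S, ‖Complex.exp (Complex.I * (((v * Real.log (n j)) * t : ℝ) : ℂ))‖ ≤ 1 := by
    intro j _
    rw [mul_comm, Complex.norm_exp_ofReal_mul_I]
  refine (Finset.sum_le_sum this).trans ?_
  simp

theorem gauss_int (T : ℝ) (hT : 0 < T) : Integrable (fun t : ℝ => Real.exp (-(t / T) ^ 2)) ∧
    ∫ t : ℝ, Real.exp (-(t / T) ^ 2) = Real.sqrt Real.pi * T := by
  have e : (fun t : ℝ => Real.exp (-(t / T) ^ 2)) = fun t : ℝ => Real.exp (-(1 / T ^ 2) * t ^ 2) := by
    funext t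
    congr 1
    ring
  rw [e]
  refine ⟨integrable_exp_neg_mul_sq (by positivity), ?_⟩
  rw [integral_gaussian, div_div_eq_mul_div, div_one, Real.sqrt_mul Real.pi_pos.le, Real.sqrt_sq hT.le]

/-- weighted integrability of continuous bounded functions -/
theorem weight_integrable (T : ℝ) (hT : 0 < T) (f : ℝ → ℝ) (hf : Continuous f) (B : ℝ) (hB : ∀ t, |f t| ≤ B) :
    Integrable (fun t : ℝ => Real.exp (-(t / T) ^ 2) * f t) := by
  have h := (gauss_int T hT).1
  exact h.mul_bdd (c := B) hf.aestronglyMeasurable (Filter.Eventually.of_forall fun t => by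
    rw [Real.norm_eq_abs]; exact hB t)

/-- Hölder's inequality with even integer exponents and Gaussian weight -/
theorem holder {α : Type} (s : Finset α) (κ : α → ℕ) (hκ : ∀ i ∈ s, 1 ≤ κ i)
    (hs : ∑ i ∈ s, (1 : ℝ) / (2 * κ i) ≤ 1) (G : α → ℝ → ℂ) (hG : ∀ i ∈ s, Continuous (G i))
    (N : α → ℝ) (hN : ∀ i ∈ s, ∀ t, ‖G i t‖ ≤ N i) (B : α → ℝ) (hB0 : ∀ i ∈ s, 0 ≤ B i)
    (T : ℝ) (hT : 1 ≤ T)
    (hB : ∀ i ∈ s, ∫ t : ℝ, Real.exp (-(t / T) ^ 2) * ‖G i t‖ ^ (2 * κ i) ≤ T * B i ^ (κ i)) :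
    ∫ t : ℝ, Real.exp (-(t / T) ^ 2) * ∏ i ∈ s, ‖G i t‖ ≤ 2 * T * ∏ i ∈ s, Real.sqrt (B i) := by
  have hT0 : 0 < T := by (clear * - hT; linarith)
  set q : ℝ := 1 - ∑ i ∈ s, (1 : ℝ) / (2 * κ i) with hq
  have hq0 : 0 ≤ q := by rw [hq]; (clear * - hs; linarith)
  set p : α → ℝ := fun i => (1 : ℝ) / (2 * κ i) with hp
  have hp0 : ∀ i ∈ s, 0 ≤ p i := fun i _ => by rw [hp]; (clear * -; positivity)
  have hpq : q + ∑ i ∈ s, p i = 1 := by rw [hq]; ring
  have hppos : ∀ i ∈ s, 0 < p i := fun i hi => by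
    have : 0 < κ i := hκ i hi
    rw [hp]; positivity
  -- the inequality in ENNReal
  have hmeasg : AEMeasurable (fun t : ℝ => ENNReal.ofReal (Real.exp (-(t / T) ^ 2))) volume := by
    refine Measurable.aemeasurable ?_
    exact ENNReal.measurable_ofReal.comp (Continuous.measurable (by fun_prop))
  have hmeasf : ∀ i ∈ s, AEMeasurable (fun t : ℝ => ENNReal.ofReal (Real.exp (-(t / T) ^ 2) * ‖G i t‖ ^ (2 * κ i)))
      volume := by
    intro i hi
    refine Measurable.aemeasurable ?_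
    refine ENNReal.measurable_ofReal.comp (Continuous.measurable ?_)
    have := hG i hi
    fun_prop
  have key := ENNReal.lintegral_mul_prod_norm_pow_le (μ := (volume : Measure ℝ)) s hmeasg hmeasf q hpq hq0 hp0
  -- the integrand
  have hpt : ∀ t : ℝ, (ENNReal.ofReal (Real.exp (-(t / T) ^ 2))) ^ q * ∏ i ∈ s,
      (ENNReal.ofReal (Real.exp (-(t / T) ^ 2) * ‖G i t‖ ^ (2 * κ i))) ^ (p i) =
      ENNReal.ofReal (Real.exp (-(t / T) ^ 2) * ∏ i ∈ s, ‖G i t‖) := by
    intro t
    set g := Real.exp (-(t / T) ^ 2) with hg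
    have hg0 : 0 < g := Real.exp_pos _
    have h1 : ∀ i ∈ s, (ENNReal.ofReal (g * ‖G i t‖ ^ (2 * κ i))) ^ (p i) =
        ENNReal.ofReal (g ^ (p i) * ‖G i t‖) := by
      intro i hi
      rw [ENNReal.ofReal_rpow_of_nonneg (by (clear * -; positivity)) (hp0 i hi)]
      congr 1
      rw [Real.mul_rpow hg0.le (by (clear * -; positivity))]
      congr 1
      have hk : (0 : ℝ) < κ i := by exact_mod_cast hκ i hi
      rw [← Real.rpow_natCast, ← Real.rpow_mul (norm_nonneg _)]
      have : ((2 * κ i : ℕ) : ℝ) * p i = 1 := by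
        rw [hp]; push_cast; (clear * - hk; field_simp)
      rw [this, Real.rpow_one]
    rw [Finset.prod_congr rfl h1, ← ENNReal.ofReal_prod_of_nonneg (fun i _ => by positivity),
      ENNReal.ofReal_rpow_of_nonneg hg0.le hq0, ← ENNReal.ofReal_mul (by positivity)]
    congr 1
    rw [Finset.prod_mul_distrib, ← mul_assoc]
    congr 1
    rw [← Real.rpow_sum_of_pos hg0, ← Real.rpow_add hg0, hpq, Real.rpow_one]
  simp_rw [hpt] at key
  -- left side
  have hcontP : Continuous (fun t : ℝ => ∏ i ∈ s, ‖G i t‖) :=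
    continuous_finsetProd s fun i hi => (hG i hi).norm
  have hboundP : ∀ t, |∏ i ∈ s, ‖G i t‖| ≤ ∏ i ∈ s, N i := by
    intro t
    rw [abs_of_nonneg (Finset.prod_nonneg fun i _ => norm_nonneg _)]
    exact Finset.prod_le_prod (fun i _ => norm_nonneg _) fun i hi => hN i hi t
  have hintL := weight_integrable T hT0 _ hcontP _ hboundP
  have hL : ENNReal.ofReal (∫ t : ℝ, Real.exp (-(t / T) ^ 2) * ∏ i ∈ s, ‖G i t‖) =
      ∫⁻ t : ℝ, ENNReal.ofReal (Real.exp (-(t / T) ^ 2) * ∏ i ∈ s, ‖G i t‖) :=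
    ofReal_integral_eq_lintegral_ofReal hintL (Filter.Eventually.of_forall fun t => by
      have : 0 ≤ ∏ i ∈ s, ‖G i t‖ := Finset.prod_nonneg fun i _ => norm_nonneg _
      (clear * -; positivity))
  rw [← hL] at key
  -- right side
  have hR1 : (∫⁻ t : ℝ, ENNReal.ofReal (Real.exp (-(t / T) ^ 2))) ≤ ENNReal.ofReal (2 * T) := by
    rw [← ofReal_integral_eq_lintegral_ofReal (gauss_int T hT0).1
      (Filter.Eventually.of_forall fun t => (Real.exp_pos _).le), (gauss_int T hT0).2]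
    refine ENNReal.ofReal_le_ofReal (mul_le_mul_of_nonneg_right ?_ hT0.le)
    rw [Real.sqrt_le_left (by norm_num)]
    have := Real.pi_le_four
    (clear * - this; linarith)
  have hR2 : ∀ i ∈ s, (∫⁻ t : ℝ, ENNReal.ofReal (Real.exp (-(t / T) ^ 2) * ‖G i t‖ ^ (2 * κ i))) ≤
      ENNReal.ofReal (T * B i ^ (κ i)) := by
    intro i hi
    have hb : ∀ t, |‖G i t‖ ^ (2 * κ i)| ≤ N i ^ (2 * κ i) := by
      intro t
      rw [abs_of_nonneg (by positivity)]
      exact pow_le_pow_left₀ (norm_nonneg _) (hN i hi t) _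
    have hc : Continuous (fun t : ℝ => ‖G i t‖ ^ (2 * κ i)) := ((hG i hi).norm).pow _
    rw [← ofReal_integral_eq_lintegral_ofReal (weight_integrable T hT0 _ hc _ hb)
      (Filter.Eventually.of_forall fun t => by positivity)]
    exact ENNReal.ofReal_le_ofReal (hB i hi)
  have key2 := key.trans (mul_le_mul' (ENNReal.rpow_le_rpow hR1 hq0)
    (Finset.prod_le_prod' fun i hi => ENNReal.rpow_le_rpow (hR2 i hi) (hp0 i hi)))
  -- convert back
  have h3 : ∀ i ∈ s, (ENNReal.ofReal (T * B i ^ (κ i))) ^ (p i) =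
      ENNReal.ofReal (T ^ (p i) * Real.sqrt (B i)) := by
    intro i hi
    have hB00 := hB0 i hi
    rw [ENNReal.ofReal_rpow_of_nonneg (by (clear * - hT hB00; positivity)) (hp0 i hi), Real.mul_rpow hT0.le (by positivity)]
    congr 2
    have hk : (0 : ℝ) < κ i := by exact_mod_cast hκ i hi
    rw [← Real.rpow_natCast, ← Real.rpow_mul hB00, Real.sqrt_eq_rpow]
    congr 1
    rw [hp]; (clear * - hk; field_simp)
  rw [Finset.prod_congr rfl h3, ← ENNReal.ofReal_prod_of_nonneg (fun i _ => by positivity),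
      ENNReal.ofReal_rpow_of_nonneg (by positivity) hq0, ← ENNReal.ofReal_mul (by positivity)] at key2
  have key3 := (ENNReal.ofReal_le_ofReal_iff (by (clear * - hT; positivity))).1 key2
  refine key3.trans ?_
  rw [Finset.prod_mul_distrib, ← Real.rpow_sum_of_pos hT0, Real.mul_rpow (by norm_num) hT0.le, ← mul_assoc]
  refine mul_le_mul_of_nonneg_right ?_ (Finset.prod_nonneg fun i _ => Real.sqrt_nonneg _)
  rw [mul_assoc, ← Real.rpow_add hT0, hpq, Real.rpow_one]
  refine mul_le_mul_of_nonneg_right ?_ hT0.le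
  calc (2 : ℝ) ^ q ≤ 2 ^ (1 : ℝ) := Real.rpow_le_rpow_of_exponent_le (by norm_num) (by
        have : 0 ≤ ∑ i ∈ s, p i := Finset.sum_nonneg hp0
        (clear * - this; linarith))
    _ = 2 := Real.rpow_one 2

/-- detection of the points near `y0` -/
theorem detect {ι : Type} (S : Finset ι) (n : ι → ℕ) (v y0 T : ℝ) (hT : 1 ≤ T) :
    ((S.filter (fun j => |v * Real.log (n j) - y0| ≤ 1 / T)).card : ℝ) ≤
      1 / T * ∫ t : ℝ, Real.exp (-(t / T) ^ 2) * ‖GP S n v t‖ := by
  have hT0 : 0 < T := by linarith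
  have hint : Integrable (fun t : ℝ => Real.exp (-(t / T) ^ 2) * ‖GP S n v t‖) :=
    weight_integrable T hT0 _ (GP_continuous S n v).norm S.card (fun t => by
      rw [abs_of_nonneg (norm_nonneg _)]; exact GP_norm_le S n v t)
  -- the twisted integral
  have h1 : ∫ t : ℝ, ∑ j ∈ S, (Complex.exp (Complex.I * ((v * Real.log (n j) - y0 : ℝ) : ℂ) * t) *
      Complex.exp (-(1 / T ^ 2 : ℂ) * (t : ℂ) ^ 2)) =
      ∑ j ∈ S, ((Real.sqrt Real.pi * T * Real.exp (-(T * (v * Real.log (n j) - y0)) ^ 2 / 4) : ℝ) : ℂ) := by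
    rw [integral_finsetSum]
    · exact Finset.sum_congr rfl fun j _ => gauss_integral T _ hT0
    · intro j _
      exact gauss_integrable T _ hT0
  have h2 : ∀ t : ℝ, ‖∑ j ∈ S, (Complex.exp (Complex.I * ((v * Real.log (n j) - y0 : ℝ) : ℂ) * t) *
      Complex.exp (-(1 / T ^ 2 : ℂ) * (t : ℂ) ^ 2))‖ = Real.exp (-(t / T) ^ 2) * ‖GP S n v t‖ := by
    intro t
    have e1 : ∑ j ∈ S, (Complex.exp (Complex.I * ((v * Real.log (n j) - y0 : ℝ) : ℂ) * t) *
      Complex.exp (-(1 / T ^ 2 : ℂ) * (t : ℂ) ^ 2)) =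
      (Complex.exp (((-y0 * t : ℝ) : ℂ) * Complex.I) * ((Real.exp (-(t / T) ^ 2) : ℝ) : ℂ)) * GP S n v t := by
      unfold GP
      rw [Finset.mul_sum]
      refine Finset.sum_congr rfl fun j _ => ?_
      rw [Complex.ofReal_exp, ← Complex.exp_add, ← Complex.exp_add, ← Complex.exp_add]
      congr 1
      push_cast
      ring
    rw [e1, norm_mul, norm_mul, Complex.norm_exp_ofReal_mul_I, one_mul, Complex.norm_real,
      Real.norm_of_nonneg (Real.exp_pos _).le]
  have h3 : ‖∑ j ∈ S, ((Real.sqrt Real.pi * T * Real.exp (-(T * (v * Real.log (n j) - y0)) ^ 2 / 4) : ℝ) : ℂ)‖ ≤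
      ∫ t : ℝ, Real.exp (-(t / T) ^ 2) * ‖GP S n v t‖ := by
    rw [← h1]
    refine (norm_integral_le_integral_norm _).trans (le_of_eq ?_)
    exact integral_congr_ae (Filter.Eventually.of_forall h2)
  rw [← Complex.ofReal_sum, Complex.norm_real, Real.norm_of_nonneg (Finset.sum_nonneg fun j _ => by positivity)]
    at h3
  have h4 : ∀ j ∈ S.filter (fun j => |v * Real.log (n j) - y0| ≤ 1 / T), T ≤
      Real.sqrt Real.pi * T * Real.exp (-(T * (v * Real.log (n j) - y0)) ^ 2 / 4) := by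
    intro j hj
    rw [Finset.mem_filter] at hj
    have h5 : (T * (v * Real.log (n j) - y0)) ^ 2 ≤ 1 := by
      rw [sq_le_one_iff_abs_le_one, abs_mul, abs_of_pos hT0]
      calc T * |v * Real.log (n j) - y0| ≤ T * (1 / T) := mul_le_mul_of_nonneg_left hj.2 hT0.le
        _ = 1 := by field_simp
    have h6 : Real.exp (-(1 / 4)) ≤ Real.exp (-(T * (v * Real.log (n j) - y0)) ^ 2 / 4) :=
      Real.exp_le_exp.2 (by (clear * - h5; linarith))
    have h7 : (3 / 4 : ℝ) ≤ Real.exp (-(1 / 4)) := by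
      have := Real.add_one_le_exp (-(1 / 4) : ℝ)
      (clear * - this; linarith)
    have h8 : (4 / 3 : ℝ) ≤ Real.sqrt Real.pi := by
      apply Real.le_sqrt_of_sq_le
      have := Real.pi_gt_three
      norm_num
      (clear * - this; linarith)
    calc T = (4 / 3) * T * (3 / 4) := by ring
      _ ≤ Real.sqrt Real.pi * T * Real.exp (-(T * (v * Real.log (n j) - y0)) ^ 2 / 4) :=
        mul_le_mul (mul_le_mul_of_nonneg_right h8 hT0.le) (h7.trans h6) (by norm_num) (by positivity)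
  have h9 : ((S.filter (fun j => |v * Real.log (n j) - y0| ≤ 1 / T)).card : ℝ) * T ≤
      ∑ j ∈ S, Real.sqrt Real.pi * T * Real.exp (-(T * (v * Real.log (n j) - y0)) ^ 2 / 4) := by
    refine le_trans ?_ (Finset.sum_le_sum_of_subset_of_nonneg
      (Finset.filter_subset (fun j => |v * Real.log (n j) - y0| ≤ 1 / T) S) fun j _ _ => by positivity)
    have := Finset.card_nsmul_le_sum (S.filter (fun j => |v * Real.log (n j) - y0| ≤ 1 / T))
      (fun j => Real.sqrt Real.pi * T * Real.exp (-(T * (v * Real.log (n j) - y0)) ^ 2 / 4)) T h4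
    rwa [nsmul_eq_mul] at this
  rw [div_mul_eq_mul_div, one_mul, le_div_iff₀ hT0]
  exact h9.trans h3

end Pool.Agent.M20.Helper18.KP
end

/- Helper53.KN.Helper18.KP.Box -/
section
/-! Project KS, lemma POW: points in a dyadic box. -/

set_option autoImplicit false
open MeasureTheory Filter Topology Finset
open scoped Classical

namespace Pool.Agent.M20.Helper18.KP

open Pool.Agent.M20.Helper60.KS Pool.Agent.M20.Helper65.KC

/-- value of a tuple -/
def val {r : ℕ} (c : Fin r → ℕ) : ℕ := ∏ i, c i ^ ((i : ℕ) + 1)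

theorem log_val {r : ℕ} (c : Fin r → ℕ) (hc : ∀ i, 1 ≤ c i) :
    Real.log (val c) = ∑ i : Fin r, (((i : ℕ) : ℝ) + 1) * Real.log (c i) := by
  unfold val
  push_cast
  rw [Real.log_prod]
  · refine Finset.sum_congr rfl fun i _ => ?_
    rw [Real.log_pow]
    push_cast
    ring
  · intro i _
    have := hc i
    have : (c i : ℝ) ≠ 0 := by exact_mod_cast (by omega : c i ≠ 0)
    positivity

theorem GP_prod {r : ℕ} (S : Fin r → Finset ℕ) (hS : ∀ i, ∀ a ∈ S i, 1 ≤ a) (t : ℝ) :
    GP (Fintype.piFinset S) val 1 t = ∏ i : Fin r, GP (S i) id (((i : ℕ) : ℝ) + 1) t := by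
  unfold GP
  rw [Finset.prod_univ_sum]
  refine Finset.sum_congr rfl fun c hc => ?_
  have hc1 : ∀ i, 1 ≤ c i := fun i => hS i _ ((Fintype.mem_piFinset.1 hc) i)
  rw [← Complex.exp_sum, log_val c hc1, one_mul]
  congr 1
  rw [← Finset.mul_sum]
  congr 1
  rw [Finset.sum_mul]
  push_cast
  rfl

/-- the box -/
def box {r : ℕ} (C : Fin r → ℕ) : Finset (Fin r → ℕ) := Fintype.piFinset (fun i => Ico (C i) (2 * C i))

theorem core (r K : ℕ) (ε : ℝ) (hε : 0 < ε) : ∃ A : ℝ, 0 < A ∧ ∀ (T : ℝ) (C κ : Fin r → ℕ), 1 ≤ T →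
    (∀ i, 1 ≤ C i) → (∀ i, 1 ≤ κ i ∧ κ i ≤ K) → (∀ i, (C i : ℝ) ^ (κ i) ≤ T) →
    ∑ i, (1 : ℝ) / (2 * κ i) ≤ 1 → ∀ y0 : ℝ,
    (((box C).filter (fun c => |Real.log (val c) - y0| ≤ 1 / T)).card : ℝ) ≤
      A * T ^ ε * ∏ i, Real.sqrt (C i) := by
  obtain ⟨Cm, hCm, hmom⟩ := moment
  set ε' : ℝ := ε / (r + 1) with hε'
  have hε'0 : 0 < ε' := by positivity
  obtain ⟨Cd, hCd, hdiv⟩ := Pool.Agent.M20.Helper89.SLE.divisor_bound ε' hε'0
  set C2 : ℝ := max 1 (Cm * (1 + 3 * 2 ^ K)) with hC2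
  have hC21 : 1 ≤ C2 := le_max_left _ _
  set Q : ℝ := Cd * (2 ^ K) ^ ε' * C2 with hQ
  have h2K : (1 : ℝ) ≤ (2 ^ K) ^ ε' := Real.one_le_rpow (one_le_pow₀ (by norm_num)) hε'0.le
  have hQ1 : 1 ≤ Q := by
    rw [hQ]
    have : 1 ≤ Cd * (2 ^ K) ^ ε' := by (clear * - hCd h2K; nlinarith)
    (clear * - hC21 this; nlinarith)
  refine ⟨2 * Q ^ r, by positivity, ?_⟩
  intro T C κ hT hC hκ hCκ hsum y0
  have hT0 : 0 < T := by linarith
  set D : ℕ := ⌊Cd * (2 ^ K * T) ^ ε'⌋₊ with hD
  have hDr : (D : ℝ) ≤ Cd * (2 ^ K * T) ^ ε' := Nat.floor_le (by positivity)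
  have hTε : 1 ≤ T ^ ε' := Real.one_le_rpow hT hε'0.le
  have hDQ : (D : ℝ) * C2 ≤ Q * T ^ ε' := by
    rw [hQ]
    calc (D : ℝ) * C2 ≤ Cd * (2 ^ K * T) ^ ε' * C2 := mul_le_mul_of_nonneg_right hDr (by (clear * - hC21; linarith))
      _ = Cd * (2 ^ K) ^ ε' * C2 * T ^ ε' := by
        rw [Real.mul_rpow (by positivity) hT0.le]; ring
  set B : Fin r → ℝ := fun i => C i * (D * C2) with hB
  set G : Fin r → ℝ → ℂ := fun i t => GP (Ico (C i) (2 * C i)) id (((i : ℕ) : ℝ) + 1) t with hG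
  have hcard : ∀ i, (Ico (C i) (2 * C i)).card = C i := by
    intro i; rw [Nat.card_Ico]; omega
  have hmomi : ∀ i ∈ (Finset.univ : Finset (Fin r)), ∫ t : ℝ, Real.exp (-(t / T) ^ 2) * ‖G i t‖ ^ (2 * κ i) ≤
      T * B i ^ (κ i) := by
    intro i _
    have h1 := hmom (κ i) ℕ (Ico (C i) (2 * C i)) id (((i : ℕ) : ℝ) + 1) T (2 * C i) 1 D hT
      (by have : (0 : ℝ) ≤ (i : ℕ) := Nat.cast_nonneg _
          linarith) ?_ ?_ ?_
    · refine h1.trans ?_
      rw [hcard i]
      have hCi : (0 : ℝ) < C i := by exact_mod_cast hC i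
      have hk := hκ i
      have e1 : (((2 * C i : ℕ) : ℝ)) ^ (κ i) ≤ 2 ^ K * T := by
        push_cast
        rw [mul_pow]
        exact mul_le_mul (pow_le_pow_right₀ (by norm_num) hk.2) (hCκ i) (by positivity) (by positivity)
      have e2 : 1 + 3 * (((2 * C i : ℕ) : ℝ)) ^ (κ i) / T ≤ 1 + 3 * 2 ^ K := by
        have : 3 * (((2 * C i : ℕ) : ℝ)) ^ (κ i) / T ≤ 3 * 2 ^ K := by
          rw [div_le_iff₀ hT0]; (clear * - e1; linarith)
        (clear * - this; linarith)
      have e3 : Cm * (1 + 3 * (((2 * C i : ℕ) : ℝ)) ^ (κ i) / T) ≤ C2 ^ (κ i) := by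
        calc Cm * (1 + 3 * (((2 * C i : ℕ) : ℝ)) ^ (κ i) / T) ≤ Cm * (1 + 3 * 2 ^ K) :=
              mul_le_mul_of_nonneg_left e2 hCm.le
          _ ≤ C2 := le_max_right _ _
          _ = C2 ^ 1 := (pow_one _).symm
          _ ≤ C2 ^ (κ i) := pow_le_pow_right₀ hC21 hk.1
      calc Cm * T * ((C i : ℝ) ^ κ i * ((1 : ℕ) * (D : ℝ)) ^ κ i * (1 + 3 * (((2 * C i : ℕ) : ℝ)) ^ κ i / T))
          = T * ((C i : ℝ) ^ κ i * (D : ℝ) ^ κ i) * (Cm * (1 + 3 * (((2 * C i : ℕ) : ℝ)) ^ (κ i) / T)) := by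
            push_cast; ring
        _ ≤ T * ((C i : ℝ) ^ κ i * (D : ℝ) ^ κ i) * C2 ^ (κ i) :=
            mul_le_mul_of_nonneg_left e3 (by (clear * - hT hCi; positivity))
        _ = T * B i ^ (κ i) := by rw [hB]; simp only; rw [mul_pow, mul_pow]; ring
    · intro j hj
      rw [Finset.mem_Ico] at hj
      have := hC i
      exact ⟨by simp only [id]; omega, by simp only [id]; omega⟩
    · intro m'
      refine Finset.card_le_one.2 ?_
      intro a ha b hb
      rw [Finset.mem_filter] at ha hb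
      simp only [id] at ha hb
      rw [ha.2, hb.2]
    · intro m' hm1 hm2
      refine Nat.le_floor ?_
      refine (hdiv m' hm1).trans ?_
      refine mul_le_mul_of_nonneg_left ?_ (by (clear * - hCd; linarith))
      refine Real.rpow_le_rpow (Nat.cast_nonneg _) ?_ hε'0.le
      have : (m' : ℝ) ≤ ((2 * C i : ℕ) : ℝ) ^ (κ i) := by exact_mod_cast hm2
      refine this.trans ?_
      push_cast
      rw [mul_pow]
      exact mul_le_mul (pow_le_pow_right₀ (by norm_num) (hκ i).2) (hCκ i) (by positivity) (by positivity)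
  have hH := holder (Finset.univ : Finset (Fin r)) κ (fun i _ => (hκ i).1) hsum G
    (fun i _ => GP_continuous _ _ _) (fun i => ((Ico (C i) (2 * C i)).card : ℝ))
    (fun i _ t => GP_norm_le _ _ _ _) B (fun i _ => by rw [hB]; (clear * -; positivity)) T hT hmomi
  have hdet := detect (box C) val 1 y0 T hT
  simp only [one_mul] at hdet
  refine hdet.trans ?_
  have e4 : ∀ t : ℝ, ‖GP (box C) val 1 t‖ = ∏ i, ‖G i t‖ := by
    intro t
    rw [box, GP_prod _ (fun i a ha => by rw [Finset.mem_Ico] at ha; have := hC i; omega), norm_prod]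
  simp_rw [e4]
  have e5 : ∏ i, Real.sqrt (B i) ≤ (Q ^ r * T ^ ε) * ∏ i, Real.sqrt (C i) := by
    have e6 : ∀ i, Real.sqrt (B i) ≤ Real.sqrt (C i) * (Q * T ^ ε') := by
      intro i
      rw [hB]
      simp only
      rw [Real.sqrt_mul (Nat.cast_nonneg _)]
      refine mul_le_mul_of_nonneg_left ?_ (Real.sqrt_nonneg _)
      refine (Real.sqrt_le_sqrt hDQ).trans ?_
      have h1 : 1 ≤ Q * T ^ ε' := by (clear * - hQ1 hTε; nlinarith)
      rw [Real.sqrt_le_left (by (clear * - h1; linarith))]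
      (clear * - h1; nlinarith)
    refine (Finset.prod_le_prod (fun i _ => Real.sqrt_nonneg _) fun i _ => e6 i).trans ?_
    rw [Finset.prod_mul_distrib, Finset.prod_const, Finset.card_univ, Fintype.card_fin, mul_comm]
    refine mul_le_mul_of_nonneg_right ?_ (Finset.prod_nonneg fun i _ => Real.sqrt_nonneg _)
    rw [mul_pow, ← Real.rpow_natCast (T ^ ε'), ← Real.rpow_mul hT0.le]
    refine mul_le_mul_of_nonneg_left ?_ (by positivity)
    refine Real.rpow_le_rpow_of_exponent_le hT ?_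
    rw [hε', div_mul_eq_mul_div, div_le_iff₀ (by positivity)]
    (clear * - hε; nlinarith)
  calc 1 / T * ∫ t : ℝ, Real.exp (-(t / T) ^ 2) * ∏ i, ‖G i t‖
      ≤ 1 / T * (2 * T * ∏ i, Real.sqrt (B i)) := mul_le_mul_of_nonneg_left hH (by positivity)
    _ = 2 * ∏ i, Real.sqrt (B i) := by (clear * - hT; field_simp)
    _ ≤ 2 * ((Q ^ r * T ^ ε) * ∏ i, Real.sqrt (C i)) := by (clear * - e5; linarith)
    _ = 2 * Q ^ r * T ^ ε * ∏ i, Real.sqrt (C i) := by ring

end Pool.Agent.M20.Helper18.KP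
end

/- Helper53.KN.Helper18.KP.Arith -/
section
/-! Project KS, lemma POW: decomposition of an integer by exponents. -/

set_option autoImplicit false
open Finset
open scoped Classical

namespace Pool.Agent.M20.Helper18.KP

/-- the product of the primes of exponent exactly `e` -/
noncomputable def cp (k e : ℕ) : ℕ := ∏ p ∈ k.primeFactors.filter (fun p => k.factorization p = e), p

noncomputable def ap (V k : ℕ) : ℕ :=
  ∏ p ∈ k.primeFactors.filter (fun p => V ≤ k.factorization p), p ^ (k.factorization p / V)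

noncomputable def bp (V k : ℕ) : ℕ :=
  ∏ p ∈ k.primeFactors.filter (fun p => V ≤ k.factorization p), p ^ (k.factorization p % V)

theorem cp_pos (k e : ℕ) : 1 ≤ cp k e := by
  refine Nat.one_le_iff_ne_zero.2 (Finset.prod_ne_zero_iff.2 fun p hp => ?_)
  rw [Finset.mem_filter] at hp
  exact (Nat.prime_of_mem_primeFactors hp.1).ne_zero

theorem ap_pos (V k : ℕ) : 1 ≤ ap V k := by
  refine Nat.one_le_iff_ne_zero.2 (Finset.prod_ne_zero_iff.2 fun p hp => ?_)
  rw [Finset.mem_filter] at hp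
  exact pow_ne_zero _ (Nat.prime_of_mem_primeFactors hp.1).ne_zero

theorem bp_pos (V k : ℕ) : 1 ≤ bp V k := by
  refine Nat.one_le_iff_ne_zero.2 (Finset.prod_ne_zero_iff.2 fun p hp => ?_)
  rw [Finset.mem_filter] at hp
  exact pow_ne_zero _ (Nat.prime_of_mem_primeFactors hp.1).ne_zero

theorem bp_dvd (V k : ℕ) (hV : 1 ≤ V) : bp V k ∣ ap V k ^ V := by
  unfold bp ap
  rw [← Finset.prod_pow]
  refine Finset.prod_dvd_prod_of_dvd _ _ fun p hp => ?_
  rw [Finset.mem_filter] at hp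
  rw [← pow_mul]
  refine pow_dvd_pow _ ?_
  have h1 : k.factorization p % V < V := Nat.mod_lt _ (by omega)
  have h2 : 1 ≤ k.factorization p / V := (Nat.one_le_div_iff (by omega)).2 hp.2
  calc k.factorization p % V ≤ V := h1.le
    _ = 1 * V := (one_mul V).symm
    _ ≤ k.factorization p / V * V := Nat.mul_le_mul_right V h2

theorem fiber_prod (r k : ℕ) (F : ℕ → ℕ) :
    ∏ i : Fin r, ∏ p ∈ k.primeFactors.filter (fun p => k.factorization p = (i : ℕ) + 1), F p =
      ∏ p ∈ k.primeFactors.filter (fun p => ¬ r + 1 ≤ k.factorization p), F p := by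
  rw [← Finset.prod_range (fun i => ∏ p ∈ k.primeFactors.filter (fun p => k.factorization p = i + 1), F p)]
  rw [← Finset.prod_fiberwise_of_maps_to (s := k.primeFactors.filter (fun p => ¬ r + 1 ≤ k.factorization p))
    (t := Finset.range r) (g := fun p => k.factorization p - 1)]
  · refine Finset.prod_congr rfl fun i hi => ?_
    rw [Finset.mem_range] at hi
    refine Finset.prod_congr ?_ fun _ _ => rfl
    ext p
    simp only [Finset.mem_filter]
    constructor
    · rintro ⟨h1, h2⟩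
      exact ⟨⟨h1, by omega⟩, by omega⟩
    · rintro ⟨⟨h1, h2⟩, h3⟩
      have h4 : 0 < k.factorization p :=
        (Nat.prime_of_mem_primeFactors h1).factorization_pos_of_dvd (by
          have := Nat.mem_primeFactors.1 h1; exact this.2.2) (Nat.dvd_of_mem_primeFactors h1)
      exact ⟨h1, by omega⟩
  · intro p hp
    rw [Finset.mem_filter] at hp
    have h4 : 0 < k.factorization p :=
        (Nat.prime_of_mem_primeFactors hp.1).factorization_pos_of_dvd (by
          have := Nat.mem_primeFactors.1 hp.1; exact this.2.2) (Nat.dvd_of_mem_primeFactors hp.1)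
    rw [Finset.mem_range]
    omega

theorem decomp (r k : ℕ) (hk : k ≠ 0) :
    k = ap (r + 1) k ^ (r + 1) * bp (r + 1) k * val (fun i : Fin r => cp k ((i : ℕ) + 1)) := by
  have h1 : ap (r + 1) k ^ (r + 1) * bp (r + 1) k =
      ∏ p ∈ k.primeFactors.filter (fun p => r + 1 ≤ k.factorization p), p ^ k.factorization p := by
    unfold ap bp
    rw [← Finset.prod_pow, ← Finset.prod_mul_distrib]
    refine Finset.prod_congr rfl fun p _ => ?_
    rw [← pow_mul, ← pow_add]
    congr 1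
    rw [mul_comm]
    exact Nat.div_add_mod _ _
  have h2 : val (fun i : Fin r => cp k ((i : ℕ) + 1)) =
      ∏ p ∈ k.primeFactors.filter (fun p => ¬ r + 1 ≤ k.factorization p), p ^ k.factorization p := by
    rw [← fiber_prod r k (fun p => p ^ k.factorization p)]
    unfold val cp
    refine Finset.prod_congr rfl fun i _ => ?_
    rw [← Finset.prod_pow]
    refine Finset.prod_congr rfl fun p hp => ?_
    rw [Finset.mem_filter] at hp
    rw [hp.2]
  rw [h1, h2, Finset.prod_filter_mul_prod_filter_not]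
  conv_lhs => rw [← Nat.prod_factorization_pow_eq_self hk]
  rfl

theorem prod_cp_le (r k : ℕ) : ∏ i : Fin r, cp k ((i : ℕ) + 1) ≤ ∏ p ∈ k.primeFactors, p := by
  have h1 : ∏ i : Fin r, cp k ((i : ℕ) + 1) =
      ∏ p ∈ k.primeFactors.filter (fun p => ¬ r + 1 ≤ k.factorization p), p := fiber_prod r k (fun p => p)
  rw [h1]
  refine Finset.prod_le_prod_of_subset_of_one_le' (Finset.filter_subset _ _) fun p hp _ => ?_
  exact (Nat.prime_of_mem_primeFactors hp).one_le

end Pool.Agent.M20.Helper18.KP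
end

/- Helper53.KN.Helper18.KP.Box2 -/
section
/-! Project KS, lemma POW: points in a dyadic box, the other cases. -/

set_option autoImplicit false
set_option linter.all false
open MeasureTheory Filter Topology Finset
open scoped Classical

namespace Pool.Agent.M20.Helper18.KP

open Pool.Agent.M20.Helper60.KS Pool.Agent.M20.Helper65.KC

theorem core2 (r : ℕ) (ε : ℝ) (hε : 0 < ε) : ∃ A : ℝ, 0 < A ∧ ∀ (T : ℝ) (C : Fin r → ℕ), 1 ≤ T →
    (∀ i, 1 ≤ C i) → ∀ i0 : Fin r, 1 ≤ (i0 : ℕ) → T ≤ (C i0 : ℝ) ^ 2 → ((val C : ℕ) : ℝ) ≤ 2 * T ^ 2 →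
    ∀ y0 : ℝ, (((box C).filter (fun c => |Real.log (val c) - y0| ≤ 1 / T)).card : ℝ) ≤
      A * T ^ ε * ∏ i, Real.sqrt (C i) := by
  obtain ⟨Cm, hCm, hmom⟩ := moment
  set ε' : ℝ := ε / (r + 2) with hε'
  have hε'0 : 0 < ε' := by (clear * - hε; positivity)
  obtain ⟨Cd, hCd, hdiv⟩ := Pool.Agent.M20.Helper89.SLE.divisor_bound ε' hε'0
  set s : ℕ := ∑ i : Fin r, ((i : ℕ) + 1) with hs
  set C2 : ℝ := max 1 (Cm * (1 + 3 * 2 ^ (s + 4))) with hC2
  have hC21 : 1 ≤ C2 := le_max_left _ _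
  set Q : ℝ := Cd * (2 ^ (s + 4)) ^ ε' with hQ
  have h2K : (1 : ℝ) ≤ (2 ^ (s + 4)) ^ ε' := Real.one_le_rpow (one_le_pow₀ (by norm_num)) hε'0.le
  have hQ1 : 1 ≤ Q := by
    rw [hQ]; exact one_le_mul_of_one_le_of_one_le hCd h2K
  refine ⟨2 * (Q ^ (r + 2) * C2 ^ 2), by positivity, ?_⟩
  intro T C hT hC i0 hi0 hTC hval y0
  have hT0 : 0 < T := by (clear * - hT; linarith)
  set D : ℕ := ⌊Cd * (2 ^ (s + 4) * T) ^ ε'⌋₊ with hD
  have hDr : (D : ℝ) ≤ Cd * (2 ^ (s + 4) * T) ^ ε' := Nat.floor_le (by positivity)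
  have hTε : 1 ≤ T ^ ε' := Real.one_le_rpow hT hε'0.le
  have hDQ : (D : ℝ) ≤ Q * T ^ ε' := by
    rw [hQ]
    calc (D : ℝ) ≤ Cd * (2 ^ (s + 4) * T) ^ ε' := hDr
      _ = Cd * (2 ^ (s + 4)) ^ ε' * T ^ ε' := by
        rw [Real.mul_rpow (by positivity) hT0.le]; ring
  have hDdiv : ∀ m : ℕ, 1 ≤ m → (m : ℝ) ≤ 2 ^ (s + 4) * T → m.divisors.card ≤ D := by
    intro m hm1 hm2
    refine Nat.le_floor ?_
    refine (hdiv m hm1).trans ?_
    refine mul_le_mul_of_nonneg_left ?_ (by (clear * - hCd; linarith))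
    exact Real.rpow_le_rpow (Nat.cast_nonneg _) hm2 hε'0.le
  -- the rest
  set S' : Fin r → Finset ℕ := fun i => if i = i0 then {1} else Ico (C i) (2 * C i) with hS'
  have hS'1 : ∀ i, ∀ a ∈ S' i, 1 ≤ a := by
    intro i a ha
    rw [hS'] at ha
    simp only at ha
    split_ifs at ha with h
    · rw [Finset.mem_singleton] at ha; omega
    · rw [Finset.mem_Ico] at ha
      have := hC i
      omega
  set R := Fintype.piFinset S' with hR
  -- size of the values on the rest
  have hCi0 : (1 : ℝ) ≤ C i0 := by exact_mod_cast hC i0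
  have hbig : T ≤ (C i0 : ℝ) ^ ((i0 : ℕ) + 1) :=
    hTC.trans (pow_le_pow_right₀ hCi0 (by omega))
  have hvalR : ∀ c ∈ R, 1 ≤ val c ∧ ((val c : ℕ) : ℝ) ≤ 2 ^ (s + 4) * T := by
    intro c hc
    have hc1 : ∀ i, c i ∈ S' i := fun i => (Fintype.mem_piFinset.1 hc) i
    refine ⟨Nat.one_le_iff_ne_zero.2 (Finset.prod_ne_zero_iff.2 fun i _ => ?_), ?_⟩
    · have := hS'1 i _ (hc1 i)
      exact pow_ne_zero _ (by omega)
    · have h1 : val c * C i0 ^ ((i0 : ℕ) + 1) ≤ 2 ^ s * val C := by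
        have e1 : val c * C i0 ^ ((i0 : ℕ) + 1) =
            ∏ i : Fin r, (c i ^ ((i : ℕ) + 1) * (if i = i0 then C i ^ ((i : ℕ) + 1) else 1)) := by
          rw [Finset.prod_mul_distrib, Finset.prod_ite_eq' Finset.univ i0]
          rw [if_pos (Finset.mem_univ i0)]
          rfl
        have e2 : 2 ^ s * val C = ∏ i : Fin r, (2 ^ ((i : ℕ) + 1) * C i ^ ((i : ℕ) + 1)) := by
          rw [Finset.prod_mul_distrib, Finset.prod_pow_eq_pow_sum]
          rfl
        rw [e1, e2]
        refine Finset.prod_le_prod' fun i _ => ?_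
        have h2 := hc1 i
        rw [hS'] at h2
        simp only at h2
        split_ifs with h
        · rw [if_pos h, Finset.mem_singleton] at h2
          rw [h2, one_pow, one_mul]
          exact Nat.le_mul_of_pos_left _ (by positivity)
        · rw [if_neg h, Finset.mem_Ico] at h2
          rw [mul_one, ← mul_pow]
          exact Nat.pow_le_pow_left (by omega) _
      have h3 : ((val c : ℕ) : ℝ) * (C i0 : ℝ) ^ ((i0 : ℕ) + 1) ≤ 2 ^ s * ((val C : ℕ) : ℝ) := by exact_mod_cast h1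
      have h4 : ((val c : ℕ) : ℝ) * T ≤ 2 ^ s * (2 * T ^ 2) := by
        calc ((val c : ℕ) : ℝ) * T ≤ ((val c : ℕ) : ℝ) * (C i0 : ℝ) ^ ((i0 : ℕ) + 1) :=
              mul_le_mul_of_nonneg_left hbig (Nat.cast_nonneg _)
          _ ≤ 2 ^ s * ((val C : ℕ) : ℝ) := h3
          _ ≤ 2 ^ s * (2 * T ^ 2) := mul_le_mul_of_nonneg_left hval (by positivity)
      have h5 : ((val c : ℕ) : ℝ) ≤ 2 ^ s * (2 * T) := by
        have : ((val c : ℕ) : ℝ) * T ≤ (2 ^ s * (2 * T)) * T := by
          calc ((val c : ℕ) : ℝ) * T ≤ 2 ^ s * (2 * T ^ 2) := h4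
            _ = (2 ^ s * (2 * T)) * T := by ring
        exact le_of_mul_le_mul_right this hT0
      calc ((val c : ℕ) : ℝ) ≤ 2 ^ s * (2 * T) := h5
        _ ≤ 2 ^ s * (16 * T) := mul_le_mul_of_nonneg_left (by (clear * - hT; linarith)) (by positivity)
        _ = 2 ^ (s + 4) * T := by rw [pow_add]; norm_num; ring
  set M : ℕ := ⌊2 ^ (s + 4) * T⌋₊ with hM
  have hMr : (M : ℝ) ≤ 2 ^ (s + 4) * T := Nat.floor_le (by positivity)
  have hvalM : ∀ c ∈ R, 1 ≤ val c ∧ val c ≤ M := fun c hc =>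
    ⟨(hvalR c hc).1, Nat.le_floor (hvalR c hc).2⟩
  have hfib : ∀ m : ℕ, (R.filter (fun c => val c = m)).card ≤ D ^ r := by
    intro m
    rcases Finset.eq_empty_or_nonempty (R.filter (fun c => val c = m)) with he | ⟨q, hq⟩
    · rw [he]; simp
    rw [Finset.mem_filter] at hq
    have hm := hvalR q hq.1
    rw [hq.2] at hm
    have hsub : R.filter (fun c => val c = m) ⊆ Fintype.piFinset (fun _ : Fin r => m.divisors) := by
      intro c hc
      rw [Finset.mem_filter] at hc
      rw [Fintype.mem_piFinset]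
      intro i
      rw [Nat.mem_divisors]
      refine ⟨?_, by omega⟩
      rw [← hc.2]
      exact (dvd_pow_self (c i) (by omega : (i : ℕ) + 1 ≠ 0)).trans
        (Finset.dvd_prod_of_mem (fun i : Fin r => c i ^ ((i : ℕ) + 1)) (Finset.mem_univ i))
    refine (Finset.card_le_card hsub).trans ?_
    rw [Fintype.card_piFinset]
    simp only [Finset.prod_const, Finset.card_univ, Fintype.card_fin]
    exact Nat.pow_le_pow_left (hDdiv m hm.1 hm.2) r
  -- moments
  have hM1 : 1 + 3 * (M : ℝ) / T ≤ 1 + 3 * 2 ^ (s + 4) := by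
    have : 3 * (M : ℝ) / T ≤ 3 * 2 ^ (s + 4) := by
      rw [div_le_iff₀ hT0]; (clear * - hMr; linarith)
    (clear * - this; linarith)
  have hmomF : ∫ t : ℝ, Real.exp (-(t / T) ^ 2) * ‖GP R val 1 t‖ ^ (2 * 1) ≤
      T * (R.card * ((D : ℝ) ^ (r + 1) * C2)) ^ 1 := by
    have h1 := hmom 1 (Fin r → ℕ) R val 1 T M (D ^ r) D hT le_rfl hvalM hfib
      (fun m hm1 hm2 => hDdiv m hm1 (by
        rw [pow_one] at hm2
        exact le_trans (by exact_mod_cast hm2) hMr))
    refine h1.trans ?_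
    rw [pow_one, pow_one, pow_one, pow_one]
    have e3 : Cm * (1 + 3 * (M : ℝ) / T) ≤ C2 :=
      (mul_le_mul_of_nonneg_left hM1 hCm.le).trans (le_max_right _ _)
    calc Cm * T * ((R.card : ℝ) * (((D ^ r : ℕ) : ℝ) * (D : ℝ)) * (1 + 3 * (M : ℝ) / T))
        = T * ((R.card : ℝ) * (D : ℝ) ^ (r + 1)) * (Cm * (1 + 3 * (M : ℝ) / T)) := by push_cast; ring
      _ ≤ T * ((R.card : ℝ) * (D : ℝ) ^ (r + 1)) * C2 := mul_le_mul_of_nonneg_left e3
          (mul_nonneg hT0.le (mul_nonneg (Nat.cast_nonneg _) (pow_nonneg (Nat.cast_nonneg _) _)))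
      _ = T * (R.card * ((D : ℝ) ^ (r + 1) * C2)) := by ring
  have hC0T : (C i0 : ℝ) ≤ 2 * T := by
    have h1 : C i0 ^ ((i0 : ℕ) + 1) ≤ val C := by
      refine Nat.le_of_dvd ?_ (Finset.dvd_prod_of_mem (fun i : Fin r => C i ^ ((i : ℕ) + 1)) (Finset.mem_univ i0))
      exact Nat.pos_of_ne_zero (Finset.prod_ne_zero_iff.2 fun i _ => pow_ne_zero _ (by have := hC i; omega))
    have h2 : (C i0 : ℝ) ^ 2 ≤ 2 * T ^ 2 := by
      calc (C i0 : ℝ) ^ 2 ≤ (C i0 : ℝ) ^ ((i0 : ℕ) + 1) := pow_le_pow_right₀ hCi0 (by omega)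
        _ ≤ ((val C : ℕ) : ℝ) := by exact_mod_cast h1
        _ ≤ 2 * T ^ 2 := hval
    have h3 : (C i0 : ℝ) ^ 2 ≤ (2 * T) ^ 2 := by
      rw [mul_pow]
      exact h2.trans (mul_le_mul_of_nonneg_right (by norm_num) (sq_nonneg T))
    exact le_of_sq_le_sq h3 (mul_nonneg zero_le_two hT0.le)
  have h17 : 16 * T ≤ 2 ^ (s + 4) * T := by
    refine mul_le_mul_of_nonneg_right ?_ hT0.le
    rw [pow_add]
    calc (16 : ℝ) = 1 * 2 ^ 4 := by norm_num
      _ ≤ 2 ^ s * 2 ^ 4 := mul_le_mul_of_nonneg_right (one_le_pow₀ (by norm_num)) (by norm_num)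
  have hmomT : ∫ t : ℝ, Real.exp (-(t / T) ^ 2) *
      ‖GP (Ico (C i0) (2 * C i0)) id (((i0 : ℕ) : ℝ) + 1) t‖ ^ (2 * 1) ≤ T * (C i0 * (D * C2)) ^ 1 := by
    have h1 := hmom 1 ℕ (Ico (C i0) (2 * C i0)) id (((i0 : ℕ) : ℝ) + 1) T (2 * C i0) 1 D hT
      (by have : (0 : ℝ) ≤ ((i0 : ℕ) : ℝ) := Nat.cast_nonneg _
          (clear * -; linarith)) ?_ ?_ ?_
    · refine h1.trans ?_
      have hc : (Ico (C i0) (2 * C i0)).card = C i0 := by rw [Nat.card_Ico]; omega
      rw [hc, pow_one, pow_one, pow_one, pow_one]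
      have e2 : 1 + 3 * (((2 * C i0 : ℕ) : ℝ)) / T ≤ 1 + 3 * 2 ^ (s + 4) := by
        have : 3 * (((2 * C i0 : ℕ) : ℝ)) / T ≤ 3 * 2 ^ (s + 4) := by
          rw [div_le_iff₀ hT0]
          push_cast
          (clear * - hT0 hC0T h17; linarith)
        (clear * - this; linarith)
      have e3 : Cm * (1 + 3 * (((2 * C i0 : ℕ) : ℝ)) / T) ≤ C2 :=
        (mul_le_mul_of_nonneg_left e2 hCm.le).trans (le_max_right _ _)
      calc Cm * T * ((C i0 : ℝ) * (((1 : ℕ) : ℝ) * (D : ℝ)) * (1 + 3 * (((2 * C i0 : ℕ) : ℝ)) / T))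
          = T * ((C i0 : ℝ) * (D : ℝ)) * (Cm * (1 + 3 * (((2 * C i0 : ℕ) : ℝ)) / T)) := by push_cast; ring
        _ ≤ T * ((C i0 : ℝ) * (D : ℝ)) * C2 := mul_le_mul_of_nonneg_left e3
            (mul_nonneg hT0.le (mul_nonneg (Nat.cast_nonneg _) (Nat.cast_nonneg _)))
        _ = T * (C i0 * (D * C2)) := by ring
    · intro j hj
      rw [Finset.mem_Ico] at hj
      have := hC i0
      exact ⟨by simp only [id]; omega, by simp only [id]; omega⟩
    · intro m'
      refine Finset.card_le_one.2 ?_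
      intro a ha b hb
      rw [Finset.mem_filter] at ha hb
      simp only [id] at ha hb
      rw [ha.2, hb.2]
    · intro m' hm1 hm2
      refine hDdiv m' hm1 ?_
      rw [pow_one] at hm2
      have h6 : (m' : ℝ) ≤ 2 * C i0 := by exact_mod_cast hm2
      (clear * - hT0 hC0T h6 h17; linarith)
  -- Hölder
  set G : Bool → ℝ → ℂ := fun b t => bif b then GP (Ico (C i0) (2 * C i0)) id (((i0 : ℕ) : ℝ) + 1) t
    else GP R val 1 t with hG
  set B : Bool → ℝ := fun b => bif b then C i0 * (D * C2) else R.card * ((D : ℝ) ^ (r + 1) * C2) with hB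
  have hH := holder (Finset.univ : Finset Bool) (fun _ => 1) (fun _ _ => le_rfl)
    (by rw [Fintype.sum_bool]; norm_num) G
    (fun b _ => by cases b <;> exact GP_continuous _ _ _)
    (fun b => bif b then ((Ico (C i0) (2 * C i0)).card : ℝ) else (R.card : ℝ))
    (fun b _ t => by cases b <;> exact GP_norm_le _ _ _ _) B
    (fun b _ => by cases b <;> (rw [hB]; simp only [cond_true, cond_false]; (clear * - hCi0; positivity))) T hT
    (fun b _ => by cases b; exacts [hmomF, hmomT])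
  rw [Fintype.prod_bool] at hH
  have hdet := detect (box C) val 1 y0 T hT
  simp only [one_mul] at hdet
  refine hdet.trans ?_
  have e4 : ∀ t : ℝ, ‖GP (box C) val 1 t‖ = ∏ b : Bool, ‖G b t‖ := by
    intro t
    rw [Fintype.prod_bool]
    simp only [hG, cond_true, cond_false]
    rw [hR, GP_prod S' hS'1, box, GP_prod _ (fun i a ha => by rw [Finset.mem_Ico] at ha; have := hC i; omega),
      norm_prod, norm_prod]
    have e5 : ∀ i : Fin r, ‖GP (Ico (C i) (2 * C i)) id (((i : ℕ) : ℝ) + 1) t‖ =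
        (if i = i0 then ‖GP (Ico (C i) (2 * C i)) id (((i : ℕ) : ℝ) + 1) t‖ else 1) *
          ‖GP (S' i) id (((i : ℕ) : ℝ) + 1) t‖ := by
      intro i
      split_ifs with h
      · have : ‖GP (S' i) id (((i : ℕ) : ℝ) + 1) t‖ = 1 := by
          rw [hS']
          simp only [if_pos h]
          unfold GP
          simp
        rw [this, mul_one]
      · rw [one_mul, hS']
        simp only [if_neg h]
    rw [Finset.prod_congr rfl (fun i _ => e5 i), Finset.prod_mul_distrib, Finset.prod_ite_eq' Finset.univ i0,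
      if_pos (Finset.mem_univ i0)]
  have hRcard : (C i0 : ℝ) * R.card = ∏ i, (C i : ℝ) := by
    have e6 : R.card = ∏ i : Fin r, (if i = i0 then 1 else C i) := by
      rw [hR, Fintype.card_piFinset]
      refine Finset.prod_congr rfl fun i _ => ?_
      rw [hS']
      simp only
      split_ifs with h
      · exact Finset.card_singleton 1
      · rw [Nat.card_Ico]; omega
    have e7 : C i0 * R.card = ∏ i : Fin r, C i := by
      rw [e6]
      have e8 : ∀ i : Fin r, C i = (if i = i0 then C i else 1) * (if i = i0 then 1 else C i) := by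
        intro i; split_ifs
        · rw [mul_one]
        · rw [one_mul]
      conv_rhs => rw [Finset.prod_congr rfl (fun i _ => e8 i)]
      rw [Finset.prod_mul_distrib, Finset.prod_ite_eq' Finset.univ i0,
        if_pos (Finset.mem_univ i0)]
    exact_mod_cast e7
  have e9 : Real.sqrt (B true) * Real.sqrt (B false) ≤ (Q ^ (r + 2) * C2 ^ 2 * T ^ ε) * ∏ i, Real.sqrt (C i) := by
    have e10 : B true * B false = (∏ i, (C i : ℝ)) * ((D : ℝ) ^ (r + 2) * C2 ^ 2) := by
      rw [← hRcard, hB]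
      simp only [cond_true, cond_false]
      ring
    rw [← Real.sqrt_mul (by rw [hB]; simp only [cond_true]; (clear * - hCi0; positivity)), e10,
      Real.sqrt_mul (Finset.prod_nonneg fun i _ => Nat.cast_nonneg _)]
    have e11 : Real.sqrt (∏ i, (C i : ℝ)) = ∏ i, Real.sqrt (C i) := by
      rw [Real.sqrt_eq_rpow, ← Real.finsetProd_rpow _ _ (fun i _ => Nat.cast_nonneg _)]
      exact Finset.prod_congr rfl fun i _ => (Real.sqrt_eq_rpow _).symm
    rw [e11, mul_comm]
    refine mul_le_mul_of_nonneg_right ?_ (Finset.prod_nonneg fun i _ => Real.sqrt_nonneg _)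
    have e12 : (D : ℝ) ^ (r + 2) * C2 ^ 2 ≤ Q ^ (r + 2) * C2 ^ 2 * T ^ ε := by
      have e13 : (D : ℝ) ^ (r + 2) ≤ (Q * T ^ ε') ^ (r + 2) := pow_le_pow_left₀ (Nat.cast_nonneg _) hDQ _
      have e14 : (Q * T ^ ε') ^ (r + 2) ≤ Q ^ (r + 2) * T ^ ε := by
        rw [mul_pow, ← Real.rpow_natCast (T ^ ε'), ← Real.rpow_mul hT0.le]
        refine mul_le_mul_of_nonneg_left ?_ (by positivity)
        refine Real.rpow_le_rpow_of_exponent_le hT ?_
        rw [hε']
        push_cast
        have : ((r : ℝ) + 2) ≠ 0 := by (clear * -; positivity)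
        rw [div_mul_cancel₀ _ this]
      calc (D : ℝ) ^ (r + 2) * C2 ^ 2 ≤ (Q ^ (r + 2) * T ^ ε) * C2 ^ 2 :=
            mul_le_mul_of_nonneg_right (e13.trans e14) (by positivity)
        _ = Q ^ (r + 2) * C2 ^ 2 * T ^ ε := by ring
    refine (Real.sqrt_le_sqrt e12).trans ?_
    have h1 : 1 ≤ Q ^ (r + 2) * C2 ^ 2 * T ^ ε := by
      have a1 : 1 ≤ Q ^ (r + 2) := one_le_pow₀ hQ1
      have a2 : 1 ≤ C2 ^ 2 := one_le_pow₀ hC21
      have a3 : 1 ≤ T ^ ε := Real.one_le_rpow hT hε.le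
      exact one_le_mul_of_one_le_of_one_le (one_le_mul_of_one_le_of_one_le a1 a2) a3
    exact Real.sqrt_le_self_iff.2 (Or.inr h1)
  simp_rw [e4]
  calc 1 / T * ∫ t : ℝ, Real.exp (-(t / T) ^ 2) * ∏ b : Bool, ‖G b t‖
      ≤ 1 / T * (2 * T * (Real.sqrt (B true) * Real.sqrt (B false))) :=
        mul_le_mul_of_nonneg_left hH (by positivity)
    _ = 2 * (Real.sqrt (B true) * Real.sqrt (B false)) * (T⁻¹ * T) := by ring
    _ = 2 * (Real.sqrt (B true) * Real.sqrt (B false)) := by
        rw [inv_mul_cancel₀ hT0.ne', mul_one]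
    _ ≤ 2 * ((Q ^ (r + 2) * C2 ^ 2 * T ^ ε) * ∏ i, Real.sqrt (C i)) :=
        mul_le_mul_of_nonneg_left e9 zero_le_two
    _ = 2 * (Q ^ (r + 2) * C2 ^ 2) * T ^ ε * ∏ i, Real.sqrt (C i) := by ring

end Pool.Agent.M20.Helper18.KP
end

/- Helper53.KN.Helper18.KP.Num -/
section
/-! Project KS, lemma POW: the exponents of Hölder's inequality. -/

set_option autoImplicit false
open Finset
open scoped Classical

namespace Pool.Agent.M20.Helper18.KP

/-- number of factors used for a variable of logarithmic size `c` -/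
noncomputable def kap (K : ℕ) (c : ℝ) : ℕ := if c ≤ 0 then K else min ⌊1 / c⌋₊ K

theorem kap_le (K : ℕ) (c : ℝ) : kap K c ≤ K := by
  unfold kap
  split_ifs
  · exact le_rfl
  · exact min_le_right _ _

theorem kap_pos {K : ℕ} (hK : 1 ≤ K) {c : ℝ} (hc : c ≤ 1) : 1 ≤ kap K c := by
  unfold kap
  split_ifs with h
  · exact hK
  · push Not at h
    refine le_min ?_ hK
    rw [Nat.one_le_floor_iff, le_div_iff₀ h]
    (clear * - hc; linarith)

theorem kap_mul (K : ℕ) {c : ℝ} : (kap K c : ℝ) * c ≤ 1 := by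
  unfold kap
  split_ifs with h
  · have : (0 : ℝ) ≤ K := Nat.cast_nonneg K
    nlinarith
  · push Not at h
    have h1 : ((min ⌊1 / c⌋₊ K : ℕ) : ℝ) ≤ 1 / c := by
      refine le_trans ?_ (Nat.floor_le (by (clear * - h; positivity)))
      exact_mod_cast min_le_left _ _
    rwa [le_div_iff₀ h] at h1

theorem one_div_kap {K : ℕ} (hK : 1 ≤ K) {c : ℝ} (h0 : 0 ≤ c) (hc : c ≤ 1 / 2) :
    (1 : ℝ) / kap K c ≤ 1 / K ∨ (0 < c ∧ ∃ k : ℕ, 2 ≤ k ∧ kap K c = k ∧ (1 : ℝ) < (k + 1) * c) := by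
  unfold kap
  split_ifs with h
  · left; exact le_rfl
  · push Not at h
    rcases le_or_gt K ⌊1 / c⌋₊ with h1 | h1
    · left; rw [min_eq_right h1]
    · right
      rw [min_eq_left h1.le]
      refine ⟨h, ⌊1 / c⌋₊, ?_, rfl, ?_⟩
      · refine Nat.le_floor ?_
        rw [le_div_iff₀ h]
        push_cast
        (clear * - hc; linarith)
      · have := Nat.lt_floor_add_one (1 / c)
        rwa [div_lt_iff₀ h] at this

theorem one_div_kap_a {K : ℕ} (hK : 1 ≤ K) {c : ℝ} (h0 : 0 ≤ c) (hc : c ≤ 1 / 2) :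
    (1 : ℝ) / kap K c ≤ 3 / 2 * c + 1 / K := by
  have hK0 : (0 : ℝ) < K := by exact_mod_cast hK
  rcases one_div_kap hK h0 hc with h | ⟨hc0, k, hk2, hk, hk1⟩
  · linarith
  · rw [hk]
    have hk0 : (0 : ℝ) < k := by exact_mod_cast (by omega : 0 < k)
    have hk3 : (2 : ℝ) ≤ k := by exact_mod_cast hk2
    have h1 : (1 : ℝ) / k ≤ 3 / 2 * c := by
      rw [div_le_iff₀ hk0]
      (clear * - hk3 hk1; nlinarith)
    have h2 : (0 : ℝ) < 1 / K := by positivity
    (clear * - h1 h2; linarith)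

theorem one_div_kap_b {K : ℕ} (hK : 1 ≤ K) {c : ℝ} (h0 : 0 ≤ c) (hc : c ≤ 1 / 2) :
    (1 : ℝ) / kap K c ≤ c + 1 / 6 + 1 / K := by
  have hK0 : (0 : ℝ) < K := by exact_mod_cast hK
  rcases one_div_kap hK h0 hc with h | ⟨hc0, k, hk2, hk, hk1⟩
  · (clear * - h0 h; linarith)
  · rw [hk]
    have hk0 : (0 : ℝ) < k := by exact_mod_cast (by omega : 0 < k)
    have hk3 : (2 : ℝ) ≤ k := by exact_mod_cast hk2
    have h1 : (1 : ℝ) / (k + 1) < c := by
      rw [div_lt_iff₀ (by positivity)]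
      (clear * - hk1; linarith)
    have h3 : (1 : ℝ) / k - 1 / (k + 1) ≤ 1 / 6 := by
      rw [div_sub_div _ _ hk0.ne' (by (clear * - hk2; positivity)), div_le_div_iff₀ (by positivity) (by norm_num)]
      (clear * - hk3; nlinarith)
    have h2 : (0 : ℝ) < 1 / K := by positivity
    (clear * - h1 h3 h2; linarith)

/-- the sum of the reciprocals is at most `2` -/
theorem sum_kap {m K : ℕ} (hK : 1 ≤ K) (c : Fin (m + 2) → ℝ) (η : ℝ) (hη : 0 ≤ η)
    (h0 : ∀ i, 0 ≤ c i) (h1 : c 0 ≤ 1) (h2 : ∀ i : Fin (m + 1), c i.succ ≤ 1 / 2)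
    (hs : ∑ i : Fin (m + 2), ((i : ℕ) + 1 : ℝ) * c i ≤ 2 + η)
    (hη2 : 3 / 4 * η + (m + 2) / K ≤ 1 / 12) :
    ∑ i : Fin (m + 2), (1 : ℝ) / kap K (c i) ≤ 2 := by
  have hK0 : (0 : ℝ) < K := by exact_mod_cast hK
  rcases le_or_gt (c 0) (1 / 2) with hc | hc
  · have h3 : ∀ i ∈ (Finset.univ : Finset (Fin (m + 2))), (1 : ℝ) / kap K (c i) ≤ 3 / 2 * c i + 1 / K := by
      intro i _
      refine one_div_kap_a hK (h0 i) ?_
      rcases Fin.eq_zero_or_eq_succ i with rfl | ⟨j, rfl⟩
      · exact hc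
      · exact h2 j
    refine (Finset.sum_le_sum h3).trans ?_
    rw [Finset.sum_add_distrib, ← Finset.mul_sum, Finset.sum_const, Finset.card_univ, Fintype.card_fin,
      nsmul_eq_mul]
    have h4 : ∑ i : Fin (m + 2), c i ≤ (c 0 + (2 + η)) / 2 := by
      rw [Fin.sum_univ_succ] at hs ⊢
      have h5 : ∑ i : Fin (m + 1), 2 * c i.succ ≤ ∑ i : Fin (m + 1), (((i.succ : Fin (m + 2)) : ℕ) + 1 : ℝ) * c i.succ := by
        refine Finset.sum_le_sum fun i _ => mul_le_mul_of_nonneg_right ?_ (h0 _)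
        rw [Fin.val_succ]
        push_cast
        have : (0 : ℝ) ≤ (i : ℕ) := Nat.cast_nonneg _
        (clear * -; linarith)
      rw [← Finset.mul_sum] at h5
      simp only [Fin.val_zero, Nat.cast_zero, zero_add, one_mul] at hs
      (clear * - h5 hs; linarith)
    have h6 : ((m + 2 : ℕ) : ℝ) * (1 / K) = (m + 2) / K := by push_cast; ring
    rw [h6]
    (clear * - hη2 hc h4; linarith)
  · rw [Fin.sum_univ_succ, Fin.sum_univ_succ] at hs ⊢
    simp only [Fin.val_zero, Nat.cast_zero, zero_add, one_mul, Fin.val_succ] at hs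
    have h3 : ∀ i ∈ (Finset.univ : Finset (Fin m)), (1 : ℝ) / kap K (c i.succ.succ) ≤
        3 / 2 * c i.succ.succ + 1 / K := by
      intro i _
      exact one_div_kap_a hK (h0 _) (h2 _)
    have h4 := Finset.sum_le_sum h3
    rw [Finset.sum_add_distrib, ← Finset.mul_sum, Finset.sum_const, Finset.card_univ, Fintype.card_fin,
      nsmul_eq_mul] at h4
    have h5 := one_div_kap_b hK (h0 (Fin.succ 0)) (h2 0)
    have h6 : (1 : ℝ) / kap K (c 0) ≤ 1 := by
      rw [div_le_one (by exact_mod_cast kap_pos hK h1)]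
      exact_mod_cast kap_pos hK h1
    have h7 : ∑ i : Fin m, 3 * c i.succ.succ ≤ ∑ i : Fin m, ((((i : ℕ) + 1 + 1 : ℕ) : ℝ) + 1) * c i.succ.succ := by
      refine Finset.sum_le_sum fun i _ => mul_le_mul_of_nonneg_right ?_ (h0 _)
      push_cast
      have : (0 : ℝ) ≤ (i : ℕ) := Nat.cast_nonneg _
      (clear * -; linarith)
    rw [← Finset.mul_sum] at h7
    have h8 : (m : ℝ) * (1 / K) + 1 / K ≤ (m + 2) / K := by
      rw [← sub_nonneg]
      have : ((m : ℝ) + 2) / K - ((m : ℝ) * (1 / K) + 1 / K) = 1 / K := by ring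
      rw [this]; positivity
    push_cast at hs h7
    (clear * - hη hη2 hc h4 h5 h6 h8 hs h7; linarith)

end Pool.Agent.M20.Helper18.KP
end

/- Helper53.KN.Helper18.KP.Box3 -/
section
/-! Project KS, lemma POW: points in a dyadic box, all cases. -/

set_option autoImplicit false
open MeasureTheory Filter Topology Finset
open scoped Classical

namespace Pool.Agent.M20.Helper18.KP

open Pool.Agent.M20.Helper60.KS Pool.Agent.M20.Helper65.KC

theorem core0 (m : ℕ) (T : ℝ) (C : Fin (m + 1) → ℕ) (hT : 2 ≤ T)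
    (hC : ∀ i, 1 ≤ C i) (hC0 : T < C 0) (hval : ((val C : ℕ) : ℝ) ≤ 2 * T ^ 2) (y0 : ℝ) :
    (((box C).filter (fun c => |Real.log (val c) - y0| ≤ 1 / T)).card : ℝ) ≤
      26 * ∏ i, Real.sqrt (C i) := by
  have hT0 : 0 < T := by (clear * - hT; linarith)
  set X : ℕ := ∏ i : Fin m, C i.succ with hX
  set E : ℕ := ⌊13 * (C 0 : ℝ) / T⌋₊ with hE
  have hEr : (E : ℝ) ≤ 13 * (C 0 : ℝ) / T := Nat.floor_le (by (clear * - hT; positivity))
  -- counting by fibres
  have hcount : ((box C).filter (fun c => |Real.log (val c) - y0| ≤ 1 / T)).card ≤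
      E * (Fintype.piFinset (fun i : Fin m => Ico (C i.succ) (2 * C i.succ))).card := by
    refine Finset.card_le_mul_card_image_of_maps_to (f := fun c : Fin (m + 1) → ℕ => fun i : Fin m => c i.succ) ?_ E ?_
    · intro c hc
      rw [Finset.mem_filter, box, Fintype.mem_piFinset] at hc
      rw [Fintype.mem_piFinset]
      intro i
      exact hc.1 i.succ
    · intro d _
      set F := ((box C).filter (fun c => |Real.log (val c) - y0| ≤ 1 / T)).filter
        (fun c : Fin (m + 1) → ℕ => (fun i : Fin m => c i.succ) = d) with hF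
      rcases Finset.eq_empty_or_nonempty F with he | ⟨q, hq⟩
      · rw [he]; simp
      have hq' := hq
      rw [hF, Finset.mem_filter, Finset.mem_filter, box, Fintype.mem_piFinset] at hq'
      have hq0 := hq'.1.1 0
      rw [Finset.mem_Ico] at hq0
      have hT2 : 1 ≤ T / 2 := by (clear * - hT; linarith)
      have h1 := card_log_near (2 * C 0) (q 0) (T / 2) hT2 (by have := hC 0; omega)
      have h2 : F.card ≤ ((Icc 1 (2 * C 0)).filter (fun k : ℕ => |Real.log (q 0) - Real.log k| ≤ 1 / (T / 2))).card := by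
        refine Finset.card_le_card_of_injOn (fun c => c 0) ?_ ?_
        · intro c hc
          have hc' := hc
          rw [Finset.mem_coe, hF, Finset.mem_filter, Finset.mem_filter, box, Fintype.mem_piFinset] at hc'
          have hc0 := hc'.1.1 0
          rw [Finset.mem_Ico] at hc0
          rw [Finset.mem_coe, Finset.mem_filter, Finset.mem_Icc]
          have := hC 0
          refine ⟨⟨by show 1 ≤ c 0; omega, by show c 0 ≤ 2 * C 0; omega⟩, ?_⟩
          have hc1 : ∀ i, 1 ≤ c i := fun i => by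
            have h3 := hc'.1.1 i
            rw [Finset.mem_Ico] at h3
            have := hC i
            omega
          have hq1 : ∀ i, 1 ≤ q i := fun i => by
            have h3 := hq'.1.1 i
            rw [Finset.mem_Ico] at h3
            have := hC i
            omega
          have h4 := hc'.1.2
          have h5 := hq'.1.2
          rw [log_val c hc1, Fin.sum_univ_succ] at h4
          rw [log_val q hq1, Fin.sum_univ_succ] at h5
          have h6 : ∀ i : Fin m, c i.succ = q i.succ := fun i => by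
            have e1 := congrFun hc'.2 i
            have e2 := congrFun hq'.2 i
            rw [e1, e2]
          have h7 : ∑ i : Fin m, ((((i.succ : Fin (m + 1)) : ℕ) : ℝ) + 1) * Real.log (c i.succ) =
              ∑ i : Fin m, ((((i.succ : Fin (m + 1)) : ℕ) : ℝ) + 1) * Real.log (q i.succ) :=
            Finset.sum_congr rfl fun i _ => by rw [h6 i]
          rw [h7] at h4
          simp only [Fin.val_zero, Nat.cast_zero, zero_add, one_mul] at h4 h5
          rw [abs_le] at h4 h5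
          have h8 : 1 / (T / 2) = 1 / T + 1 / T := by field_simp; norm_num
          show |Real.log (q 0) - Real.log (c 0)| ≤ 1 / (T / 2)
          rw [h8, abs_le]
          constructor <;> (clear * - h4 h5; linarith [h4.1, h4.2, h5.1, h5.2])
        · intro c hc c' hc' hcc
          have a1 := hc
          have a2 := hc'
          rw [Finset.mem_coe, hF, Finset.mem_filter] at a1 a2
          funext i
          rcases Fin.eq_zero_or_eq_succ i with rfl | ⟨j, rfl⟩
          · exact hcc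
          · have e1 := congrFun a1.2 j
            have e2 := congrFun a2.2 j
            rw [e1, e2]
      refine h2.trans (Nat.le_floor ?_)
      refine h1.trans ?_
      have h9 : (q 0 : ℝ) ≤ 2 * C 0 := by exact_mod_cast hq0.2.le
      rw [div_div_eq_mul_div, ← sub_nonneg]
      have h10 : 13 * (C 0 : ℝ) / T - (1 + 3 * (q 0 : ℝ) * 2 / T) = (13 * C 0 - T - 6 * q 0) / T := by
        field_simp; ring
      rw [h10]
      refine div_nonneg ?_ hT0.le
      (clear * - hC0 h9; linarith)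
  have hcardX : (Fintype.piFinset (fun i : Fin m => Ico (C i.succ) (2 * C i.succ))).card = X := by
    rw [Fintype.card_piFinset, hX]
    refine Finset.prod_congr rfl fun i _ => ?_
    rw [Nat.card_Ico]; omega
  rw [hcardX] at hcount
  have h1 : (((box C).filter (fun c => |Real.log (val c) - y0| ≤ 1 / T)).card : ℝ) ≤ 13 * (C 0 : ℝ) / T * X := by
    calc (((box C).filter (fun c => |Real.log (val c) - y0| ≤ 1 / T)).card : ℝ) ≤ (E : ℝ) * X := by
          exact_mod_cast hcount
      _ ≤ _ := mul_le_mul_of_nonneg_right hEr (Nat.cast_nonneg _)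
  -- X² C0 ≤ val C
  have h2 : X ^ 2 * C 0 ≤ val C := by
    unfold val
    rw [Fin.prod_univ_succ, hX, ← Finset.prod_pow, mul_comm]
    simp only [Fin.val_zero, zero_add, pow_one]
    refine Nat.mul_le_mul_left _ (Finset.prod_le_prod' fun i _ => ?_)
    refine Nat.pow_le_pow_right (hC _) ?_
    rw [Fin.val_succ]
    omega
  have h3 : (X : ℝ) ^ 2 * C 0 ≤ 2 * T ^ 2 := le_trans (by exact_mod_cast h2) hval
  have hC0' : (C 0 : ℝ) ≤ 2 * T ^ 2 := by
    have : C 0 ≤ X ^ 2 * C 0 := by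
      have hX1 : 1 ≤ X := by
        rw [hX]
        exact Nat.one_le_iff_ne_zero.2 (Finset.prod_ne_zero_iff.2 fun i _ => by have := hC i.succ; omega)
      exact Nat.le_mul_of_pos_left _ (by (clear * - hX1; positivity))
    have h4 : (C 0 : ℝ) ≤ (X : ℝ) ^ 2 * C 0 := by exact_mod_cast this
    (clear * - h3 h4; linarith)
  have h5 : ((X : ℝ) * C 0) ≤ 2 * T ^ 2 := by
    have : ((X : ℝ) * C 0) ^ 2 ≤ (2 * T ^ 2) ^ 2 := by
      have a0 : (0 : ℝ) ≤ C 0 := Nat.cast_nonneg _
      calc ((X : ℝ) * C 0) ^ 2 = ((X : ℝ) ^ 2 * C 0) * C 0 := by ring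
        _ ≤ (2 * T ^ 2) * (2 * T ^ 2) := mul_le_mul h3 hC0' a0 (by positivity)
        _ = (2 * T ^ 2) ^ 2 := by ring
    exact le_of_sq_le_sq this (by positivity)
  have h6 : ∏ i, Real.sqrt (C i) = Real.sqrt ((X : ℝ) * C 0) := by
    rw [Fin.prod_univ_succ, Real.sqrt_mul (Nat.cast_nonneg _), hX]
    push_cast
    rw [mul_comm]
    congr 1
    rw [Real.sqrt_eq_rpow, ← Real.finsetProd_rpow _ _ (fun i _ => Nat.cast_nonneg _)]
    exact Finset.prod_congr rfl fun i _ => (Real.sqrt_eq_rpow _)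
  rw [h6]
  refine h1.trans ?_
  set Z := (X : ℝ) * C 0 with hZ
  have hZ0 : 0 ≤ Z := by (clear * -; positivity)
  have h7 : Real.sqrt Z ≤ 2 * T := by
    rw [Real.sqrt_le_left (by positivity)]
    (clear * - hT hC0 hC0' h5; nlinarith)
  have h8 : 13 * (C 0 : ℝ) / T * X = 13 * (Real.sqrt Z * Real.sqrt Z) / T := by
    rw [Real.mul_self_sqrt hZ0, hZ]; ring
  rw [h8, div_le_iff₀ hT0]
  have := Real.sqrt_nonneg Z
  (clear * - h7 this; nlinarith)

theorem box_bound (m : ℕ) (ε : ℝ) (hε : 0 < ε) : ∃ A : ℝ, 0 < A ∧ ∀ (T : ℝ) (C : Fin (m + 2) → ℕ),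
    2 ^ 18 ≤ T → (∀ i, 1 ≤ C i) → ((val C : ℕ) : ℝ) ≤ 2 * T ^ 2 → ∀ y0 : ℝ,
    (((box C).filter (fun c => |Real.log (val c) - y0| ≤ 1 / T)).card : ℝ) ≤
      A * T ^ ε * ∏ i, Real.sqrt (C i) := by
  set K : ℕ := 24 * (m + 2) with hK
  have hK1 : 1 ≤ K := by omega
  obtain ⟨A1, hA1, h1⟩ := core (m + 2) K ε hε
  obtain ⟨A2, hA2, h2⟩ := core2 (m + 2) ε hε
  refine ⟨A1 + A2 + 26, by (clear * - hA1 hA2; positivity), ?_⟩
  intro T C hT hC hval y0
  have hT1 : 1 < T := by (clear * - hT; linarith)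
  have hT0 : 0 < T := by (clear * - hT; linarith)
  have hTε : 1 ≤ T ^ ε := Real.one_le_rpow hT1.le hε.le
  have hP : 0 ≤ ∏ i, Real.sqrt (C i) := Finset.prod_nonneg fun i _ => Real.sqrt_nonneg _
  have hTP : 0 ≤ T ^ ε * ∏ i, Real.sqrt (C i) := by (clear * - hT; positivity)
  rcases lt_or_ge T (C 0 : ℝ) with hc0 | hc0
  · refine (core0 (m + 1) T C (by linarith) hC hc0 hval y0).trans ?_
    (clear * - hA1 hTP hA2 hTε hP; nlinarith)
  by_cases hbig : ∃ i : Fin (m + 1), T < (C i.succ : ℝ) ^ 2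
  · obtain ⟨i, hi⟩ := hbig
    refine (h2 T C hT1.le hC i.succ (by rw [Fin.val_succ]; omega) hi.le hval y0).trans ?_
    (clear * - hTP hA1; nlinarith)
  push Not at hbig
  have hlogT : 0 < Real.log T := Real.log_pos hT1
  set γ : Fin (m + 2) → ℝ := fun i => Real.log (C i) / Real.log T with hγ
  have hγ0 : ∀ i, 0 ≤ γ i := fun i => div_nonneg (Real.log_nonneg (by exact_mod_cast hC i)) hlogT.le
  have hγ1 : γ 0 ≤ 1 := by
    rw [hγ]; simp only
    rw [div_le_one hlogT]
    exact Real.log_le_log (by exact_mod_cast hC 0) hc0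
  have hγ2 : ∀ i : Fin (m + 1), γ i.succ ≤ 1 / 2 := by
    intro i
    rw [hγ]; simp only
    rw [div_le_iff₀ hlogT]
    have hCi : (0 : ℝ) < C i.succ := by exact_mod_cast hC i.succ
    have := Real.log_le_log (by positivity) (hbig i)
    rw [Real.log_pow] at this
    push_cast at this
    (clear * - this; linarith)
  set η : ℝ := Real.log 2 / Real.log T with hη
  have hlog2 : 0 < Real.log 2 := Real.log_pos (by norm_num)
  have hη0 : 0 ≤ η := by positivity
  have hη1 : η ≤ 1 / 18 := by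
    rw [hη, div_le_iff₀ hlogT]
    have := Real.log_le_log (by positivity) hT
    rw [Real.log_pow] at this
    push_cast at this
    (clear * - this; linarith)
  have hsum : ∑ i : Fin (m + 2), ((i : ℕ) + 1 : ℝ) * γ i ≤ 2 + η := by
    have e1 : ∑ i : Fin (m + 2), ((i : ℕ) + 1 : ℝ) * γ i = Real.log (val C) / Real.log T := by
      rw [log_val C hC, Finset.sum_div]
      refine Finset.sum_congr rfl fun i _ => ?_
      rw [hγ]; simp only
      ring
    rw [e1, div_le_iff₀ hlogT, hη]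
    have hv : (0 : ℝ) < ((val C : ℕ) : ℝ) := by
      have : 0 < val C := Nat.pos_of_ne_zero (Finset.prod_ne_zero_iff.2 fun i _ =>
        pow_ne_zero _ (by have := hC i; omega))
      exact_mod_cast this
    have := Real.log_le_log hv hval
    rw [Real.log_mul (by norm_num) (by positivity), Real.log_pow] at this
    push_cast at this
    refine this.trans (le_of_eq ?_)
    field_simp
    ring
  have hnum := sum_kap hK1 γ η hη0 hγ0 hγ1 hγ2 hsum (by
    have : ((m : ℝ) + 2) / K = 1 / 24 := by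
      rw [hK]; push_cast
      have : ((m : ℝ) + 2) ≠ 0 := by (clear * -; positivity)
      field_simp
    rw [this]
    (clear * - hη1; linarith))
  have hκ : ∀ i, 1 ≤ kap K (γ i) ∧ kap K (γ i) ≤ K := by
    intro i
    refine ⟨kap_pos hK1 ?_, kap_le K _⟩
    rcases Fin.eq_zero_or_eq_succ i with rfl | ⟨j, rfl⟩
    · exact hγ1
    · (clear * - hγ2; linarith [hγ2 j])
  have hpow : ∀ i, (C i : ℝ) ^ (kap K (γ i)) ≤ T := by
    intro i
    have hCi : (0 : ℝ) < C i := by exact_mod_cast hC i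
    rw [← Real.log_le_log_iff (by positivity) hT0, Real.log_pow]
    have h3 := kap_mul K (c := γ i)
    have h4 : Real.log (C i) = γ i * Real.log T := by
      rw [hγ]; simp only
      field_simp
    rw [h4, ← mul_assoc]
    (clear * - hlogT h3; nlinarith)
  have hsum2 : ∑ i, (1 : ℝ) / (2 * kap K (γ i)) ≤ 1 := by
    have : ∑ i, (1 : ℝ) / (2 * kap K (γ i)) = (∑ i, (1 : ℝ) / kap K (γ i)) / 2 := by
      rw [Finset.sum_div]
      refine Finset.sum_congr rfl fun i _ => ?_
      rw [div_div, mul_comm]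
    rw [this]
    (clear * - hnum; linarith)
  refine (h1 T C (fun i => kap K (γ i)) hT1.le hC hκ hpow hsum2 y0).trans ?_
  (clear * - hTP hA2; nlinarith)

end Pool.Agent.M20.Helper18.KP
end

/- Helper53.KN.Helper18.KP.Pow -/
section
/-! Project KS, lemma POW. -/

set_option autoImplicit false
open MeasureTheory Filter Topology Finset
open scoped Classical

namespace Pool.Agent.M20.Helper18.KP

/-- the weight `(k/rad k)^(1/2)` -/
noncomputable def wt (k : ℕ) : ℝ := Real.sqrt ((k : ℝ) / ∏ p ∈ k.primeFactors, (p : ℝ))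

theorem rad_pos (k : ℕ) : (1 : ℝ) ≤ ∏ p ∈ k.primeFactors, (p : ℝ) := by
  have : (1 : ℝ) = ∏ p ∈ k.primeFactors, (1 : ℝ) := by simp
  rw [this]
  refine Finset.prod_le_prod (fun _ _ => by norm_num) fun p hp => ?_
  exact_mod_cast (Nat.prime_of_mem_primeFactors hp).one_le

theorem wt_le_sqrt (k : ℕ) : wt k ≤ Real.sqrt k := by
  unfold wt
  refine Real.sqrt_le_sqrt ?_
  exact div_le_self (Nat.cast_nonneg _) (rad_pos k)

theorem wt_nonneg (k : ℕ) : 0 ≤ wt k := Real.sqrt_nonneg _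

theorem wt_le (r k : ℕ) : wt k ≤ Real.sqrt k * ∏ i : Fin r, (Real.sqrt (cp k ((i : ℕ) + 1)))⁻¹ := by
  have h1 : (∏ i : Fin r, (cp k ((i : ℕ) + 1) : ℝ)) ≤ ∏ p ∈ k.primeFactors, (p : ℝ) := by
    have h := (Nat.cast_le (α := ℝ)).2 (prod_cp_le r k)
    push_cast at h
    exact h
  have h0 : 0 < ∏ i : Fin r, (cp k ((i : ℕ) + 1) : ℝ) :=
    Finset.prod_pos fun i _ => by exact_mod_cast cp_pos k _
  have h2 : Real.sqrt k * ∏ i : Fin r, (Real.sqrt (cp k ((i : ℕ) + 1)))⁻¹ =
      Real.sqrt ((k : ℝ) / ∏ i : Fin r, (cp k ((i : ℕ) + 1) : ℝ)) := by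
    rw [Real.sqrt_div (Nat.cast_nonneg _), div_eq_mul_inv, Finset.prod_inv_distrib]
    congr 2
    rw [Real.sqrt_eq_rpow, ← Real.finsetProd_rpow _ _ (fun i _ => Nat.cast_nonneg _)]
    exact Finset.prod_congr rfl fun i _ => (Real.sqrt_eq_rpow _)
  rw [h2]
  unfold wt
  refine Real.sqrt_le_sqrt ?_
  exact div_le_div_of_nonneg_left (Nat.cast_nonneg _) h0 h1

theorem log2_le (δ : ℝ) (hδ : 0 < δ) : ∃ A : ℝ, 0 < A ∧ ∀ n : ℕ, 1 ≤ n → ((Nat.log 2 n : ℕ) : ℝ) + 1 ≤ A * (n : ℝ) ^ δ := by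
  refine ⟨1 / (δ * Real.log 2) + 1, by have := Real.log_pos (show (1 : ℝ) < 2 by norm_num); positivity, ?_⟩
  intro n hn
  have hn1 : (1 : ℝ) ≤ n := by exact_mod_cast hn
  have hl2 : 0 < Real.log 2 := Real.log_pos (by norm_num)
  have h1 : ((2 ^ Nat.log 2 n : ℕ) : ℝ) ≤ n := by exact_mod_cast Nat.pow_log_le_self 2 (by omega)
  have h2 : ((Nat.log 2 n : ℕ) : ℝ) * Real.log 2 ≤ Real.log n := by
    have := Real.log_le_log (by positivity) h1
    push_cast at this
    rwa [Real.log_pow] at this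
  have h3 : Real.log n ≤ (n : ℝ) ^ δ / δ := Real.log_le_rpow_div (by (clear * - hn1; linarith)) hδ
  have h4 : (1 : ℝ) ≤ (n : ℝ) ^ δ := Real.one_le_rpow hn1 hδ.le
  have h5 : ((Nat.log 2 n : ℕ) : ℝ) ≤ 1 / (δ * Real.log 2) * (n : ℝ) ^ δ := by
    rw [div_mul_eq_mul_div, one_mul, le_div_iff₀ (by positivity)]
    rw [le_div_iff₀ hδ] at h3
    calc ((Nat.log 2 n : ℕ) : ℝ) * (δ * Real.log 2) = (((Nat.log 2 n : ℕ) : ℝ) * Real.log 2) * δ := by ring
      _ ≤ Real.log n * δ := mul_le_mul_of_nonneg_right h2 hδ.le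
      _ ≤ (n : ℝ) ^ δ := h3
  (clear * - h4 h5; linarith)

/-- short windows, large `x` -/
theorem pow_short_large (ε : ℝ) (hε : 0 < ε) : ∃ A : ℝ, 0 < A ∧ ∀ x y : ℝ, (2 : ℝ) ^ 36 ≤ x → 0 ≤ y →
    y ≤ Real.sqrt x → ∑ k ∈ Icc ⌈x⌉₊ ⌊x + y⌋₊, wt k ≤ A * Real.sqrt x * x ^ ε := by
  -- parameters
  obtain ⟨m, hm⟩ : ∃ m : ℕ, 4 / ε ≤ m := exists_nat_ge _
  set r : ℕ := m + 2 with hr
  set V : ℕ := r + 1 with hV
  set ε1 : ℝ := ε / 4 with hε1
  have hε10 : 0 < ε1 := by positivity
  set ε2 : ℝ := ε1 / r with hε2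
  have hr0 : (0 : ℝ) < r := by rw [hr]; (clear * -; positivity)
  exact by
    have hε20 : 0 < ε2 := by positivity
    obtain ⟨A0, hA0, hbox⟩ := box_bound m ε1 hε10
    obtain ⟨Cd, hCd, hdiv⟩ := Pool.Agent.M20.Helper89.SLE.divisor_bound ε1 hε10
    obtain ⟨Al, hAl, hlog⟩ := log2_le ε2 hε20
    refine ⟨2 * A0 * (2 * (Cd * 2 ^ ε1) * (Al * 2 ^ ε2) ^ r), by positivity, ?_⟩
    intro x y hx hy hyx
    have hx1 : (1 : ℝ) ≤ x := le_trans (by norm_num) hx
    have hx0 : 0 < x := by (clear * - hx; linarith)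
    set T : ℝ := Real.sqrt x with hT
    have hTsq : T ^ 2 = x := Real.sq_sqrt hx0.le
    have hT18 : (2 : ℝ) ^ 18 ≤ T := by
      rw [hT]
      apply Real.le_sqrt_of_sq_le
      rw [← pow_mul]
      exact hx
    exact by
      have hT1 : (1 : ℝ) ≤ T := le_trans (by norm_num) hT18
      have hT0 : 0 < T := by (clear * - hT18; linarith)
      have hTx : T ≤ x := by (clear * - hTsq hy hT18 hyx; nlinarith)
      have hyx' : y ≤ x := hyx.trans hTx
      set K := Icc ⌈x⌉₊ ⌊x + y⌋₊ with hK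
      have hKmem : ∀ k ∈ K, x ≤ k ∧ (k : ℝ) ≤ x + y ∧ 1 ≤ k := by
        intro k hk
        rw [hK, Finset.mem_Icc] at hk
        have h1 : x ≤ k := Nat.ceil_le.1 hk.1
        have h2 : (k : ℝ) ≤ x + y := (Nat.le_floor_iff (by (clear * - hx hy; linarith))).1 hk.2
        refine ⟨h1, h2, ?_⟩
        have : (1 : ℝ) ≤ k := by (clear * - hx h1; linarith)
        exact_mod_cast this
      exact by
        set X2 : ℕ := ⌊2 * x⌋₊ with hX2
        have hX2r : (X2 : ℝ) ≤ 2 * x := Nat.floor_le (by (clear * - hx; linarith))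
        have hkX2 : ∀ k ∈ K, k ≤ X2 := fun k hk => Nat.le_floor (by have := hKmem k hk; (clear * - hyx hTx this; linarith))
        have hX21 : 1 ≤ X2 := Nat.le_floor (by push_cast; (clear * - hx; linarith))
        set L : ℕ := Nat.log 2 X2 with hL
        set Amax : ℕ := ⌊(2 * x) ^ ((1 : ℝ) / V)⌋₊ with hAmax
        exact by
          set keys : Finset (Σ _ : ℕ, ℕ × (Fin r → ℕ)) :=
            (Icc 1 Amax).sigma (fun a => (a ^ V).divisors.filter (fun _ => a ^ V ≤ X2) ×ˢ
              Fintype.piFinset (fun _ : Fin r => Finset.range (L + 1))) with hkeys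
          set g : ℕ → (Σ _ : ℕ, ℕ × (Fin r → ℕ)) := fun k => ⟨ap V k, (bp V k, fun i => Nat.log 2 (cp k ((i : ℕ) + 1)))⟩
            with hg
          have hapk : ∀ k ∈ K, ap V k ^ V ≤ k ∧ ∀ i : Fin r, cp k ((i : ℕ) + 1) ≤ k := by
            intro k hk
            have hk1 := (hKmem k hk).2.2
            have hd := decomp r k (by omega)
            have hvpos : 1 ≤ val (fun i : Fin r => cp k ((i : ℕ) + 1)) :=
              Nat.one_le_iff_ne_zero.2 (Finset.prod_ne_zero_iff.2 fun i _ => pow_ne_zero _ (Nat.one_le_iff_ne_zero.1 (cp_pos k _)))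
            have ha := ap_pos V k
            have hb := bp_pos V k
            constructor
            · calc ap V k ^ V ≤ ap V k ^ V * (bp V k * val (fun i : Fin r => cp k ((i : ℕ) + 1))) :=
                    Nat.le_mul_of_pos_right _ (by (clear * - hb hvpos; positivity))
                _ = k := by rw [← mul_assoc]; exact hd.symm
            · intro i
              have h1 : cp k ((i : ℕ) + 1) ∣ k := by
                refine (dvd_pow_self _ (by omega : (i : ℕ) + 1 ≠ 0)).trans ?_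
                refine (Finset.dvd_prod_of_mem (fun i : Fin r => cp k ((i : ℕ) + 1) ^ ((i : ℕ) + 1)) (Finset.mem_univ i)).trans ?_
                exact (Dvd.intro_left _ hd.symm)
              exact Nat.le_of_dvd (by omega) h1
          have hmaps : ∀ k ∈ K, g k ∈ keys := by
            intro k hk
            have h1 := hapk k hk
            have h2 := hkX2 k hk
            rw [hkeys, Finset.mem_sigma, Finset.mem_product, Finset.mem_filter, Fintype.mem_piFinset]
            refine ⟨?_, ⟨?_, ?_⟩, ?_⟩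
            · rw [Finset.mem_Icc]
              refine ⟨ap_pos V k, Nat.le_floor ?_⟩
              have h3 : ((ap V k : ℝ)) ^ V ≤ 2 * x := by
                have : ((ap V k ^ V : ℕ) : ℝ) ≤ 2 * x := le_trans (by exact_mod_cast h1.1.trans h2) hX2r
                exact_mod_cast this
              have h4 := Real.rpow_le_rpow (by (clear * -; positivity)) h3 (by (clear * -; positivity) : (0 : ℝ) ≤ 1 / V)
              have h5 : (((ap V k : ℝ)) ^ V) ^ ((1 : ℝ) / V) = ap V k := by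
                rw [← Real.rpow_natCast, ← Real.rpow_mul (Nat.cast_nonneg _), mul_one_div_cancel, Real.rpow_one]
                rw [hV]; positivity
              rwa [h5] at h4
            · rw [Nat.mem_divisors]
              exact ⟨bp_dvd V k (by omega), pow_ne_zero _ (Nat.one_le_iff_ne_zero.1 (ap_pos V k))⟩
            · exact h1.1.trans h2
            · intro i
              rw [Finset.mem_range]
              have := Nat.log_mono_right (b := 2) ((h1.2 i).trans h2)
              show Nat.log 2 (cp k ((i : ℕ) + 1)) < L + 1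
              omega
          exact by
            rw [← Finset.sum_fiberwise_of_maps_to hmaps]
            -- bound for one key
            have hkey : ∀ κ ∈ keys, ∑ k ∈ K.filter (fun k => g k = κ), wt k ≤ 2 * T * (A0 * T ^ ε1) := by
              intro κ _
              rcases Finset.eq_empty_or_nonempty (K.filter (fun k => g k = κ)) with he | ⟨k0, hk0⟩
              · rw [he, Finset.sum_empty]
                positivity
              rw [Finset.mem_filter] at hk0
              set w : ℕ := κ.1 ^ V * κ.2.1 with hw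
              set C : Fin r → ℕ := fun i => 2 ^ (κ.2.2 i) with hC
              have hC1 : ∀ i, 1 ≤ C i := fun i => Nat.one_le_two_pow
              have hfacts : ∀ k ∈ K, g k = κ → k = w * val (fun i : Fin r => cp k ((i : ℕ) + 1)) ∧
                  ∀ i : Fin r, C i ≤ cp k ((i : ℕ) + 1) ∧ cp k ((i : ℕ) + 1) < 2 * C i := by
                intro k hk hgk
                have hk1 := (hKmem k hk).2.2
                have hd := decomp r k (by omega)
                have e1 : κ.1 = ap V k := by rw [← hgk]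
                have e2 : κ.2.1 = bp V k := by rw [← hgk]
                have e3 : κ.2.2 = fun i : Fin r => Nat.log 2 (cp k ((i : ℕ) + 1)) := by rw [← hgk]
                refine ⟨?_, fun i => ?_⟩
                · rw [hw, e1, e2]; exact hd
                · rw [hC, e3]
                  simp only
                  have hc := cp_pos k ((i : ℕ) + 1)
                  refine ⟨Nat.pow_log_le_self 2 (by omega), ?_⟩
                  rw [mul_comm, ← pow_succ]
                  exact Nat.lt_pow_succ_log_self (by norm_num) _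
              have hw1 : 1 ≤ w := by
                have := (hfacts k0 hk0.1 hk0.2).1
                rcases Nat.eq_zero_or_pos w with h | h
                · rw [h, zero_mul] at this
                  have := (hKmem k0 hk0.1).2.2
                  omega
                · exact h
              have hvalC : ((val C : ℕ) : ℝ) ≤ 2 * T ^ 2 := by
                rw [hTsq]
                have h1 := hfacts k0 hk0.1 hk0.2
                have h2 : val C ≤ val (fun i : Fin r => cp k0 ((i : ℕ) + 1)) := by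
                  unfold val
                  exact Finset.prod_le_prod' fun i _ => Nat.pow_le_pow_left (h1.2 i).1 _
                have h3 : val (fun i : Fin r => cp k0 ((i : ℕ) + 1)) ≤ k0 := by
                  calc val (fun i : Fin r => cp k0 ((i : ℕ) + 1)) ≤ w * val (fun i : Fin r => cp k0 ((i : ℕ) + 1)) :=
                        Nat.le_mul_of_pos_left _ (by omega)
                    _ = k0 := h1.1.symm
                exact le_trans (by exact_mod_cast (h2.trans h3).trans (hkX2 k0 hk0.1)) hX2r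
              set y0 : ℝ := Real.log x - Real.log w with hy0
              have hN := hbox T C hT18 hC1 hvalC y0
              have hcard : (K.filter (fun k => g k = κ)).card ≤
                  ((box C).filter (fun c => |Real.log (val c) - y0| ≤ 1 / T)).card := by
                refine Finset.card_le_card_of_injOn (fun k => fun i : Fin r => cp k ((i : ℕ) + 1)) ?_ ?_
                · intro k hk
                  rw [Finset.mem_coe, Finset.mem_filter] at hk
                  have h1 := hfacts k hk.1 hk.2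
                  have h2 := hKmem k hk.1
                  rw [Finset.mem_coe, Finset.mem_filter, box, Fintype.mem_piFinset]
                  refine ⟨fun i => Finset.mem_Ico.2 (h1.2 i), ?_⟩
                  have hk0' : (0 : ℝ) < k := by (clear * - hx h2; linarith)
                  have hw0 : (0 : ℝ) < w := by exact_mod_cast hw1
                  have hv0 : (0 : ℝ) < ((val (fun i : Fin r => cp k ((i : ℕ) + 1)) : ℕ) : ℝ) := by
                    have : 0 < val (fun i : Fin r => cp k ((i : ℕ) + 1)) :=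
                      Nat.pos_of_ne_zero (Finset.prod_ne_zero_iff.2 fun i _ => pow_ne_zero _ (Nat.one_le_iff_ne_zero.1 (cp_pos k _)))
                    exact_mod_cast this
                  have h3 : Real.log k = Real.log w + Real.log ((val (fun i : Fin r => cp k ((i : ℕ) + 1)) : ℕ) : ℝ) := by
                    rw [← Real.log_mul hw0.ne' hv0.ne']
                    congr 1
                    exact_mod_cast h1.1
                  have h4 : Real.log ((val (fun i : Fin r => cp k ((i : ℕ) + 1)) : ℕ) : ℝ) - y0 = Real.log k - Real.log x := by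
                    rw [h3, hy0]; ring
                  rw [h4, abs_of_nonneg (by have := Real.log_le_log hx0 h2.1; (clear * - this; linarith))]
                  rw [← Real.log_div hk0'.ne' hx0.ne']
                  have h5 := Real.log_le_sub_one_of_pos (show 0 < (k : ℝ) / x by (clear * - hk0' hx; positivity))
                  refine h5.trans ?_
                  have h6 : (k : ℝ) / x - 1 ≤ T / x := by
                    rw [div_sub_one hx0.ne']
                    refine div_le_div_of_nonneg_right ?_ hx0.le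
                    (clear * - hyx h2; linarith)
                  refine h6.trans (le_of_eq ?_)
                  rw [← hTsq]
                  field_simp
                · intro k hk k' hk' hkk
                  rw [Finset.mem_coe, Finset.mem_filter] at hk hk'
                  have h1 := (hfacts k hk.1 hk.2).1
                  have h2 := (hfacts k' hk'.1 hk'.2).1
                  rw [h1, h2]
                  simp only at hkk
                  rw [hkk]
              have hterm : ∀ k ∈ K.filter (fun k => g k = κ), wt k ≤ 2 * T * ∏ i, (Real.sqrt (C i))⁻¹ := by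
                intro k hk
                rw [Finset.mem_filter] at hk
                have h1 := hfacts k hk.1 hk.2
                have h2 := hKmem k hk.1
                refine (wt_le r k).trans ?_
                refine mul_le_mul ?_ ?_ (Finset.prod_nonneg fun i _ => by (clear * -; positivity)) (by positivity)
                · rw [Real.sqrt_le_left (by positivity)]
                  (clear * - hx hyx hTsq hTx h2; nlinarith)
                · refine Finset.prod_le_prod (fun i _ => by (clear * -; positivity)) fun i _ => ?_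
                  have hCi : (0 : ℝ) < C i := by exact_mod_cast hC1 i
                  refine inv_anti₀ (Real.sqrt_pos.2 hCi) (Real.sqrt_le_sqrt ?_)
                  exact_mod_cast (h1.2 i).1
              have hP : (∏ i, (Real.sqrt (C i))⁻¹) * ∏ i, Real.sqrt (C i) = 1 := by
                rw [← Finset.prod_mul_distrib]
                refine Finset.prod_eq_one fun i _ => ?_
                have hCi : (0 : ℝ) < C i := by exact_mod_cast hC1 i
                exact inv_mul_cancel₀ (Real.sqrt_pos.2 hCi).ne'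
              calc ∑ k ∈ K.filter (fun k => g k = κ), wt k
                  ≤ ∑ k ∈ K.filter (fun k => g k = κ), 2 * T * ∏ i, (Real.sqrt (C i))⁻¹ := Finset.sum_le_sum hterm
                _ = ((K.filter (fun k => g k = κ)).card : ℝ) * (2 * T * ∏ i, (Real.sqrt (C i))⁻¹) := by
                  rw [Finset.sum_const, nsmul_eq_mul]
                _ ≤ (A0 * T ^ ε1 * ∏ i, Real.sqrt (C i)) * (2 * T * ∏ i, (Real.sqrt (C i))⁻¹) := by
                  refine mul_le_mul_of_nonneg_right ?_ (by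
                    have : 0 ≤ ∏ i, (Real.sqrt (C i))⁻¹ := Finset.prod_nonneg fun i _ => by positivity
                    positivity)
                  exact le_trans (by exact_mod_cast hcard) hN
                _ = 2 * T * (A0 * T ^ ε1) * ((∏ i, (Real.sqrt (C i))⁻¹) * ∏ i, Real.sqrt (C i)) := by ring
                _ = 2 * T * (A0 * T ^ ε1) := by rw [hP, mul_one]
            refine (Finset.sum_le_sum hkey).trans ?_
            rw [Finset.sum_const, nsmul_eq_mul]
            -- number of keys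
            have h2x1 : (1 : ℝ) ≤ 2 * x := by (clear * - hx; linarith)
            have hkeyscard : (keys.card : ℝ) ≤ (2 * x) ^ ((1 : ℝ) / V) * ((Cd * 2 ^ ε1 * x ^ ε1) * (Al * 2 ^ ε2 * x ^ ε2) ^ r) := by
              rw [hkeys, Finset.card_sigma]
              push_cast
              have h1 : ∀ a ∈ Icc 1 Amax, (((((a ^ V).divisors.filter (fun _ => a ^ V ≤ X2)) ×ˢ
                  Fintype.piFinset (fun _ : Fin r => Finset.range (L + 1))).card : ℕ) : ℝ) ≤
                  (Cd * 2 ^ ε1 * x ^ ε1) * (Al * 2 ^ ε2 * x ^ ε2) ^ r := by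
                intro a ha
                rw [Finset.mem_Icc] at ha
                rw [Finset.card_product, Fintype.card_piFinset]
                push_cast
                simp only [Finset.card_range, Finset.prod_const, Finset.card_univ, Fintype.card_fin]
                push_cast
                refine mul_le_mul ?_ ?_ (by (clear * -; positivity)) (by positivity)
                · by_cases haX : a ^ V ≤ X2
                  · rw [Finset.filter_true_of_mem (fun _ _ => haX)]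
                    refine (hdiv (a ^ V) (Nat.pow_pos (by omega))).trans ?_
                    rw [mul_assoc, ← Real.mul_rpow (by norm_num) hx0.le]
                    refine mul_le_mul_of_nonneg_left ?_ (by (clear * - hCd; linarith))
                    refine Real.rpow_le_rpow (Nat.cast_nonneg _) ?_ hε10.le
                    exact le_trans (by exact_mod_cast haX) hX2r
                  · rw [Finset.filter_false_of_mem (fun _ _ => haX)]
                    rw [Finset.card_empty]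
                    push_cast
                    positivity
                · refine pow_le_pow_left₀ (by (clear * -; positivity)) ?_ r
                  refine (hlog X2 hX21).trans ?_
                  rw [mul_assoc, ← Real.mul_rpow (by norm_num) hx0.le]
                  exact mul_le_mul_of_nonneg_left (Real.rpow_le_rpow (Nat.cast_nonneg _) hX2r hε20.le) hAl.le
              refine (Finset.sum_le_sum h1).trans ?_
              rw [Finset.sum_const, nsmul_eq_mul, Nat.card_Icc, Nat.add_sub_cancel]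
              exact mul_le_mul_of_nonneg_right (Nat.floor_le (by positivity)) (by positivity)
            have h2V : (2 * x) ^ ((1 : ℝ) / V) ≤ 2 * x ^ ε1 := by
              have hV1 : (1 : ℝ) ≤ V := by rw [hV]; push_cast; (clear * - hr0; linarith)
              have h3 : (1 : ℝ) / V ≤ ε1 := by
                rw [div_le_iff₀ (by (clear * - hV1; linarith))]
                have h4 : 4 / ε ≤ V := by rw [hV, hr]; push_cast; (clear * - hm; linarith)
                rw [div_le_iff₀ hε] at h4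
                rw [hε1]
                (clear * - h4; linarith)
              rw [Real.mul_rpow (by norm_num) hx0.le]
              refine mul_le_mul ?_ (Real.rpow_le_rpow_of_exponent_le hx1 h3) (by positivity) (by norm_num)
              calc (2 : ℝ) ^ ((1 : ℝ) / V) ≤ 2 ^ (1 : ℝ) := Real.rpow_le_rpow_of_exponent_le (by norm_num) (by
                    rw [div_le_one (by (clear * - hV1; linarith))]; exact hV1)
                _ = 2 := Real.rpow_one 2
            have hTε : T ^ ε1 ≤ x ^ ε1 := Real.rpow_le_rpow hT0.le hTx hε10.le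
            have hfin : x ^ ε1 * x ^ ε1 * (x ^ ε2) ^ r * x ^ ε1 = x ^ ε := by
              rw [← Real.rpow_natCast (x ^ ε2), ← Real.rpow_mul hx0.le, ← Real.rpow_add hx0, ← Real.rpow_add hx0,
                ← Real.rpow_add hx0]
              congr 1
              rw [hε2, div_mul_cancel₀ _ hr0.ne', hε1]
              ring
            exact by
              calc (keys.card : ℝ) * (2 * T * (A0 * T ^ ε1))
                  ≤ (2 * x ^ ε1 * ((Cd * 2 ^ ε1 * x ^ ε1) * (Al * 2 ^ ε2 * x ^ ε2) ^ r)) * (2 * T * (A0 * x ^ ε1)) := by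
                    refine mul_le_mul ?_ ?_ (by (clear * - hx hA0; positivity)) (by (clear * - hx hCd hAl; positivity))
                    · refine hkeyscard.trans ?_
                      exact mul_le_mul_of_nonneg_right h2V (by positivity)
                    · exact mul_le_mul_of_nonneg_left (mul_le_mul_of_nonneg_left hTε hA0.le) (by positivity)
                _ = 2 * A0 * (2 * (Cd * 2 ^ ε1) * (Al * 2 ^ ε2) ^ r) * T * (x ^ ε1 * x ^ ε1 * (x ^ ε2) ^ r * x ^ ε1) := by
                    rw [mul_pow (Al * 2 ^ ε2)]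
                    ring
                _ = 2 * A0 * (2 * (Cd * 2 ^ ε1) * (Al * 2 ^ ε2) ^ r) * T * x ^ ε := by rw [hfin]

end Pool.Agent.M20.Helper18.KP
end

/- Helper53.KN.Helper18.KP.Final -/
section
/-! Project KS, lemma POW: final statements. -/

set_option autoImplicit false
open MeasureTheory Filter Topology Finset
open scoped Classical

namespace Pool.Agent.M20.Helper18.KP

theorem pow_short (ε : ℝ) (hε : 0 < ε) : ∃ A : ℝ, 0 < A ∧ ∀ x y : ℝ, 1 ≤ x → 0 ≤ y →
    y ≤ Real.sqrt x → ∑ k ∈ Icc ⌈x⌉₊ ⌊x + y⌋₊, wt k ≤ A * Real.sqrt x * x ^ ε := by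
  obtain ⟨A, hA, h⟩ := pow_short_large ε hε
  refine ⟨A + 2 ^ 60, by (clear * - hA; positivity), ?_⟩
  intro x y hx hy hyx
  have hx0 : 0 < x := by (clear * - hx; linarith)
  have hs : 0 ≤ Real.sqrt x := Real.sqrt_nonneg x
  have hs1 : 1 ≤ Real.sqrt x := Real.one_le_sqrt.2 hx
  have hxε : 1 ≤ x ^ ε := Real.one_le_rpow hx hε.le
  have hP : 0 ≤ Real.sqrt x * x ^ ε := by positivity
  rcases le_or_gt ((2 : ℝ) ^ 36) x with hl | hl
  · refine (h x y hl hy hyx).trans ?_
    (clear * - hP; nlinarith)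
  · have hsx : Real.sqrt x ≤ x := by
      (clear * - hx0 hy hs1 hyx; nlinarith [Real.mul_self_sqrt hx0.le])
    have h1 : ∀ k ∈ Icc ⌈x⌉₊ ⌊x + y⌋₊, wt k ≤ 2 * Real.sqrt x := by
      intro k hk
      rw [Finset.mem_Icc] at hk
      have h2 : (k : ℝ) ≤ x + y := (Nat.le_floor_iff (by (clear * - hx hy; linarith))).1 hk.2
      refine (wt_le_sqrt k).trans ?_
      have h3 : (k : ℝ) ≤ 4 * x := by (clear * - hx hyx hsx h2; linarith)
      calc Real.sqrt k ≤ Real.sqrt (4 * x) := Real.sqrt_le_sqrt h3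
        _ = 2 * Real.sqrt x := by
          rw [Real.sqrt_mul (by norm_num), show (4 : ℝ) = 2 ^ 2 by norm_num, Real.sqrt_sq (by norm_num)]
    refine (Finset.sum_le_sum h1).trans ?_
    rw [Finset.sum_const, nsmul_eq_mul]
    have hcard : ((Icc ⌈x⌉₊ ⌊x + y⌋₊).card : ℝ) ≤ 2 ^ 38 := by
      have h2 : (Icc ⌈x⌉₊ ⌊x + y⌋₊).card ≤ ⌊x + y⌋₊ + 1 := by
        rw [Nat.card_Icc]; omega
      have h3 : (⌊x + y⌋₊ : ℝ) ≤ x + y := Nat.floor_le (by (clear * - hx hy; linarith))
      have h4 : ((Icc ⌈x⌉₊ ⌊x + y⌋₊).card : ℝ) ≤ (⌊x + y⌋₊ : ℝ) + 1 := by exact_mod_cast h2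
      have : (2 : ℝ) ^ 38 = 4 * 2 ^ 36 := by norm_num
      (clear * - hyx hl hsx h3 h4; linarith)
    calc ((Icc ⌈x⌉₊ ⌊x + y⌋₊).card : ℝ) * (2 * Real.sqrt x) ≤ 2 ^ 38 * (2 * Real.sqrt x) :=
          mul_le_mul_of_nonneg_right hcard (by positivity)
      _ ≤ 2 ^ 60 * Real.sqrt x := by (clear * - hs1; nlinarith)
      _ ≤ 2 ^ 60 * (Real.sqrt x * x ^ ε) := by
        refine mul_le_mul_of_nonneg_left ?_ (by positivity)
        (clear * - hy hxε hyx; nlinarith)
      _ ≤ (A + 2 ^ 60) * Real.sqrt x * x ^ ε := by (clear * - hA hP; nlinarith)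

theorem sum_biUnion_le' (s : Finset ℕ) (t : ℕ → Finset ℕ) (f : ℕ → ℝ) (hf : ∀ k, 0 ≤ f k) :
    ∑ k ∈ s.biUnion t, f k ≤ ∑ j ∈ s, ∑ k ∈ t j, f k := by
  induction s using Finset.induction with
  | empty => simp
  | insert a s ha ih =>
    rw [Finset.biUnion_insert, Finset.sum_insert ha]
    have h1 : ∑ k ∈ t a ∪ s.biUnion t, f k ≤ ∑ k ∈ t a, f k + ∑ k ∈ s.biUnion t, f k := by
      rw [← Finset.sum_union_inter]
      have : 0 ≤ ∑ k ∈ t a ∩ s.biUnion t, f k := Finset.sum_nonneg fun k _ => hf k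
      linarith
    (clear * - ih h1; linarith)

/-- POW with `wt` -/
theorem pow_wt (ε : ℝ) (hε : 0 < ε) : ∃ A : ℝ, 0 < A ∧ ∀ x y : ℝ, 1 ≤ x → 0 ≤ y →
    y ≤ x → ∑ k ∈ Icc ⌈x⌉₊ ⌊x + y⌋₊, wt k ≤ A * (y + Real.sqrt x) * x ^ ε := by
  obtain ⟨A, hA, h⟩ := pow_short ε hε
  refine ⟨2 * (A * 2 ^ ε) * 2, by positivity, ?_⟩
  intro x y hx hy hyx
  have hx0 : 0 < x := by (clear * - hx; linarith)
  have hs1 : 1 ≤ Real.sqrt x := Real.one_le_sqrt.2 hx
  have hs0 : 0 < Real.sqrt x := by linarith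
  -- number of windows
  set J : ℕ := ⌊y / Real.sqrt x⌋₊ + 1 with hJ
  have hJr : (J : ℝ) ≤ y / Real.sqrt x + 1 := by
    rw [hJ]; push_cast
    have := Nat.floor_le (show 0 ≤ y / Real.sqrt x by positivity)
    (clear * - this; linarith)
  have hcover : Icc ⌈x⌉₊ ⌊x + y⌋₊ ⊆ (Finset.range J).biUnion
      (fun j => Icc ⌈x + j * Real.sqrt x⌉₊ ⌊x + j * Real.sqrt x + Real.sqrt x⌋₊) := by
    intro k hk
    rw [Finset.mem_Icc] at hk
    have h1 : x ≤ k := Nat.ceil_le.1 hk.1
    have h2 : (k : ℝ) ≤ x + y := (Nat.le_floor_iff (by (clear * - hx hy; linarith))).1 hk.2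
    rw [Finset.mem_biUnion]
    have h3 : 0 ≤ ((k : ℝ) - x) / Real.sqrt x := div_nonneg (by (clear * - h1; linarith)) hs0.le
    refine ⟨⌊((k : ℝ) - x) / Real.sqrt x⌋₊, ?_, ?_⟩
    · rw [Finset.mem_range, hJ]
      have : ⌊((k : ℝ) - x) / Real.sqrt x⌋₊ ≤ ⌊y / Real.sqrt x⌋₊ :=
        Nat.floor_le_floor (div_le_div_of_nonneg_right (by (clear * - h2; linarith)) hs0.le)
      omega
    · have h4 := Nat.floor_le h3
      have h5 := Nat.lt_floor_add_one (((k : ℝ) - x) / Real.sqrt x)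
      rw [le_div_iff₀ hs0] at h4
      rw [div_lt_iff₀ hs0] at h5
      rw [Finset.mem_Icc]
      constructor
      · refine Nat.ceil_le.2 ?_
        (clear * - h4; linarith)
      · refine Nat.le_floor ?_
        (clear * - h5; linarith)
  have h1 : ∑ k ∈ Icc ⌈x⌉₊ ⌊x + y⌋₊, wt k ≤ ∑ j ∈ Finset.range J,
      ∑ k ∈ Icc ⌈x + j * Real.sqrt x⌉₊ ⌊x + j * Real.sqrt x + Real.sqrt x⌋₊, wt k := by
    refine (Finset.sum_le_sum_of_subset_of_nonneg hcover fun k _ _ => wt_nonneg k).trans ?_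
    exact sum_biUnion_le' _ _ _ wt_nonneg
  have h2 : ∀ j ∈ Finset.range J, ∑ k ∈ Icc ⌈x + j * Real.sqrt x⌉₊ ⌊x + j * Real.sqrt x + Real.sqrt x⌋₊, wt k ≤
      2 * (A * 2 ^ ε) * Real.sqrt x * x ^ ε := by
    intro j hj
    have hj0 : (0 : ℝ) ≤ j := Nat.cast_nonneg j
    have hjx : (j : ℝ) * Real.sqrt x ≤ x := by
      rw [Finset.mem_range, hJ] at hj
      have h3 : (j : ℝ) ≤ ⌊y / Real.sqrt x⌋₊ := by exact_mod_cast (by omega : j ≤ ⌊y / Real.sqrt x⌋₊)
      have h4 := Nat.floor_le (show 0 ≤ y / Real.sqrt x by positivity)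
      have h5 : (j : ℝ) ≤ y / Real.sqrt x := h3.trans h4
      rw [le_div_iff₀ hs0] at h5
      (clear * - hyx h5; linarith)
    have hx' : x ≤ x + j * Real.sqrt x := by (clear * - hs1; nlinarith)
    have h3 := h (x + j * Real.sqrt x) (Real.sqrt x) (by linarith) hs0.le (Real.sqrt_le_sqrt hx')
    refine h3.trans ?_
    have h4 : Real.sqrt (x + j * Real.sqrt x) ≤ 2 * Real.sqrt x := by
      calc Real.sqrt (x + j * Real.sqrt x) ≤ Real.sqrt (4 * x) := Real.sqrt_le_sqrt (by (clear * - hx hjx; linarith))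
        _ = 2 * Real.sqrt x := by
          rw [Real.sqrt_mul (by norm_num), show (4 : ℝ) = 2 ^ 2 by norm_num, Real.sqrt_sq (by norm_num)]
    have h5 : (x + j * Real.sqrt x) ^ ε ≤ 2 ^ ε * x ^ ε := by
      rw [← Real.mul_rpow (by norm_num) hx0.le]
      exact Real.rpow_le_rpow (by positivity) (by (clear * - hjx; linarith)) hε.le
    calc A * Real.sqrt (x + j * Real.sqrt x) * (x + j * Real.sqrt x) ^ ε
        ≤ A * (2 * Real.sqrt x) * (2 ^ ε * x ^ ε) := by
          refine mul_le_mul (mul_le_mul_of_nonneg_left h4 hA.le) h5 (by positivity) (by positivity)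
      _ = 2 * (A * 2 ^ ε) * Real.sqrt x * x ^ ε := by ring
  refine h1.trans ((Finset.sum_le_sum h2).trans ?_)
  rw [Finset.sum_const, Finset.card_range, nsmul_eq_mul]
  have h6 : (J : ℝ) * Real.sqrt x ≤ y + Real.sqrt x := by
    calc (J : ℝ) * Real.sqrt x ≤ (y / Real.sqrt x + 1) * Real.sqrt x := mul_le_mul_of_nonneg_right hJr hs0.le
      _ = y + Real.sqrt x := by field_simp
  have hxε : 0 < x ^ ε := by positivity
  calc (J : ℝ) * (2 * (A * 2 ^ ε) * Real.sqrt x * x ^ ε) = 2 * (A * 2 ^ ε) * (J * Real.sqrt x) * x ^ ε := by ring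
    _ ≤ 2 * (A * 2 ^ ε) * (y + Real.sqrt x) * x ^ ε := by
      refine mul_le_mul_of_nonneg_right (mul_le_mul_of_nonneg_left h6 (by positivity)) hxε.le
    _ ≤ 2 * (A * 2 ^ ε) * 2 * (y + Real.sqrt x) * x ^ ε := by
      refine mul_le_mul_of_nonneg_right (mul_le_mul_of_nonneg_right ?_ (by positivity)) hxε.le
      have : 0 < 2 * (A * 2 ^ ε) := by positivity
      (clear * - this; linarith)

/-- **Lemma POW**: `∑_{x ≤ k ≤ x+y} (k / rad k)^(1/2) ≤ C (y + x^(1/2)) x^ε`. -/
theorem pow_half (ε : ℝ) (hε : 0 < ε) : ∃ C : ℝ, 0 < C ∧ ∀ x y : ℝ, 1 ≤ x → 0 ≤ y → y ≤ x →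
    ∑ k ∈ Icc ⌈x⌉₊ ⌊x + y⌋₊, ((k : ℝ) / ∏ p ∈ k.primeFactors, (p : ℝ)) ^ (1 / 2 : ℝ) ≤
      C * (y + x ^ (1 / 2 : ℝ)) * x ^ ε := by
  obtain ⟨A, hA, h⟩ := pow_wt ε hε
  refine ⟨A, hA, fun x y hx hy hyx => ?_⟩
  have h1 := h x y hx hy hyx
  simp only [wt, Real.sqrt_eq_rpow] at h1
  exact h1

end Pool.Agent.M20.Helper18.KP
end

/- Helper53.KN.Helper48.KS.PowC -/
section
/-!
# Project KS: `PowC (1/100) (1/1000)` from `pow_half`
-/

set_option autoImplicit false

namespace Pool.Agent.M20.Helper48.KS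

open Finset
open Pool.Agent.M20.Helper16.KS (PowC rad)

theorem rad_cast (k : ℕ) : ((rad k : ℕ) : ℝ) = ∏ p ∈ k.primeFactors, (p : ℝ) := by
  unfold rad; push_cast; rfl

theorem rad_pos' (k : ℕ) : 0 < rad k :=
  Finset.prod_pos fun _ hp => (Nat.prime_of_mem_primeFactors hp).pos

theorem rad_dvd' (k : ℕ) : rad k ∣ k := Nat.prod_primeFactors_dvd k

theorem rad_dvd_rad {a b : ℕ} (h : a ∣ b) (hb : b ≠ 0) : rad a ∣ rad b :=
  Finset.prod_dvd_prod_of_subset _ _ _ (Nat.primeFactors_mono h hb)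

theorem radG_empty (k : ℕ) : Pool.Agent.M20.Helper14.KSP.radG ∅ k = rad k := by
  unfold Pool.Agent.M20.Helper14.KSP.radG rad
  rw [Finset.sdiff_empty]

theorem sum_half_rad : ∃ C : ℝ, 0 < C ∧ ∀ N : ℕ,
    ∑ z ∈ Icc 1 N, (z : ℝ) ^ (-(1 / 2 : ℝ)) / (rad z : ℝ) ≤ C := by
  obtain ⟨C, hC, h⟩ := Pool.Agent.M20.Helper14.KSP.sum_inv_radG_le (1 / 4) 1 (by norm_num) (by norm_num)
  set r : ℝ := (2 : ℝ) ^ (-(1 / 4 : ℝ)) with hr
  have hr0 : 0 < r := by positivity
  have hr1 : r < 1 := Real.rpow_lt_one_of_one_lt_of_neg (by norm_num) (by norm_num)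
  refine ⟨C * 2 ^ (1 / 4 : ℝ) * (1 - r)⁻¹, by
    have : 0 < 1 - r := by (clear * - hr1; linarith)
    (clear * - hC hr1; positivity), ?_⟩
  intro N
  have hmaps : ∀ z ∈ Icc 1 N, Nat.log 2 z ∈ Finset.range (Nat.log 2 N + 1) := by
    intro z hz
    rw [Finset.mem_range, Nat.lt_succ_iff]
    exact Nat.log_mono_right (Finset.mem_Icc.mp hz).2
  rw [← Finset.sum_fiberwise_of_maps_to hmaps]
  have hin : ∀ i ∈ Finset.range (Nat.log 2 N + 1),
      ∑ z ∈ Icc 1 N with Nat.log 2 z = i, (z : ℝ) ^ (-(1 / 2 : ℝ)) / (rad z : ℝ) ≤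
        C * 2 ^ (1 / 4 : ℝ) * r ^ i := by
    intro i _
    have h1 : ∀ z ∈ (Icc 1 N).filter (fun z => Nat.log 2 z = i),
        (z : ℝ) ^ (-(1 / 2 : ℝ)) / (rad z : ℝ) ≤
          ((2 : ℝ) ^ i) ^ (-(1 / 2 : ℝ)) * (1 / (rad z : ℝ)) := by
      intro z hz
      rw [Finset.mem_filter, Finset.mem_Icc] at hz
      have hz1 : (2 : ℝ) ^ i ≤ z := by
        have := Nat.pow_log_le_self 2 (show z ≠ 0 by omega)
        rw [hz.2] at this
        exact_mod_cast this
      rw [div_eq_mul_one_div]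
      apply mul_le_mul_of_nonneg_right _ (by (clear * -; positivity))
      exact Real.rpow_le_rpow_of_nonpos (by positivity) hz1 (by norm_num)
    have h2 : ∑ z ∈ (Icc 1 N).filter (fun z => Nat.log 2 z = i), (1 / (rad z : ℝ)) ≤
        ∑ z ∈ Icc 1 (2 ^ (i + 1)), (1 / (rad z : ℝ)) := by
      apply Finset.sum_le_sum_of_subset_of_nonneg
      · intro z hz
        rw [Finset.mem_filter, Finset.mem_Icc] at hz
        rw [Finset.mem_Icc]
        refine ⟨hz.1.1, ?_⟩
        have := Nat.lt_pow_succ_log_self (b := 2) (by norm_num) z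
        rw [hz.2] at this
        exact this.le
      · intro z _ _
        (clear * -; positivity)
    have h3 := h (2 ^ (i + 1)) ∅ Nat.one_le_two_pow (by
      simp only [Finset.card_empty, Nat.cast_zero, one_mul]
      exact Real.log_nonneg (by exact_mod_cast Nat.one_le_two_pow))
    simp only [radG_empty] at h3
    calc ∑ z ∈ (Icc 1 N).filter (fun z => Nat.log 2 z = i),
          (z : ℝ) ^ (-(1 / 2 : ℝ)) / (rad z : ℝ)
        ≤ ∑ z ∈ (Icc 1 N).filter (fun z => Nat.log 2 z = i),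
            ((2 : ℝ) ^ i) ^ (-(1 / 2 : ℝ)) * (1 / (rad z : ℝ)) := Finset.sum_le_sum h1
      _ = ((2 : ℝ) ^ i) ^ (-(1 / 2 : ℝ)) *
            ∑ z ∈ (Icc 1 N).filter (fun z => Nat.log 2 z = i), (1 / (rad z : ℝ)) := by
          rw [Finset.mul_sum]
      _ ≤ ((2 : ℝ) ^ i) ^ (-(1 / 2 : ℝ)) * (C * ((2 ^ (i + 1) : ℕ) : ℝ) ^ (1 / 4 : ℝ)) :=
          mul_le_mul_of_nonneg_left (h2.trans h3) (by positivity)
      _ = C * 2 ^ (1 / 4 : ℝ) * r ^ i := by
          push_cast
          rw [← Real.rpow_natCast, ← Real.rpow_natCast, ← Real.rpow_mul (by norm_num),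
            ← Real.rpow_mul (by norm_num), hr, ← Real.rpow_natCast, ← Real.rpow_mul (by norm_num)]
          push_cast
          have e1 : (2 : ℝ) ^ (((i : ℝ) + 1) * (1 / 4)) = 2 ^ (1 / 4 : ℝ) * 2 ^ ((i : ℝ) / 4) := by
            rw [← Real.rpow_add (by norm_num)]; congr 1; ring
          have e2 : (2 : ℝ) ^ ((i : ℝ) * -(1 / 2)) * 2 ^ ((i : ℝ) / 4) =
              2 ^ (-(1 / 4 : ℝ) * i) := by
            rw [← Real.rpow_add (by norm_num)]; congr 1; ring
          rw [e1, ← e2]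
          ring
  refine (Finset.sum_le_sum hin).trans ?_
  rw [← Finset.mul_sum]
  apply mul_le_mul_of_nonneg_left _ (by positivity)
  have hsum := (summable_geometric_of_lt_one hr0.le hr1).sum_le_tsum
    (Finset.range (Nat.log 2 N + 1)) (fun i _ => by positivity)
  rwa [tsum_geometric_of_lt_one hr0.le hr1] at hsum

theorem div_rad_cast (k : ℕ) : (k : ℝ) / (rad k : ℝ) = ((k / rad k : ℕ) : ℝ) := by
  rw [Nat.cast_div (rad_dvd' k) (by exact_mod_cast (rad_pos' k).ne')]

theorem one_le_div_rad {k : ℕ} (hk : k ≠ 0) : 1 ≤ k / rad k :=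
  (Nat.one_le_div_iff (rad_pos' k)).mpr (Nat.le_of_dvd (Nat.pos_of_ne_zero hk) (rad_dvd' k))

/-- `z rad z ∣ k` if `k / rad k = z` -/
theorem mul_rad_dvd {k z : ℕ} (hk : k ≠ 0) (h : k / rad k = z) : z * rad z ∣ k := by
  have h1 : k = z * rad k := by
    rw [← h]; exact (Nat.div_mul_cancel (rad_dvd' k)).symm
  have h2 : rad z ∣ rad k := rad_dvd_rad ⟨rad k, h1⟩ hk
  conv_rhs => rw [h1]
  exact Nat.mul_dvd_mul_left z h2

theorem powC_explicit : PowC (1 / 100) (1 / 1000) := by
  classical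
  obtain ⟨C1, hC1, hpow⟩ := Pool.Agent.M20.Helper18.KP.pow_half (1 / 2000) (by norm_num)
  obtain ⟨C2, hC2, hrad⟩ := sum_half_rad
  refine ⟨2 * C1 + (C2 + 1), ?_⟩
  intro x y B hxN hyl hyx hB
  have hx : (1 : ℝ) ≤ x := by exact_mod_cast hxN
  have hx0 : (0 : ℝ) < x := by (clear * - hx; linarith)
  have hy0 : (0 : ℝ) < y := lt_of_lt_of_le (by positivity) hyl
  have hkpos : ∀ k ∈ Finset.Ico x (x + y), k ≠ 0 := by
    intro k hk
    have := (Finset.mem_Ico.mp hk).1
    omega
  set S := (Finset.Ico x (x + y)).filter (fun k : ℕ => B ≤ (k : ℝ) / (rad k : ℝ)) with hS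
  rw [← Finset.sum_filter_add_sum_filter_not S
    (fun k : ℕ => (x : ℝ) ^ (1 / 5 : ℝ) ≤ (k : ℝ) / (rad k : ℝ))]
  have hBη : (0 : ℝ) < B ^ (-(1 / 1000 : ℝ)) := by positivity
  -- large powerful part
  have hA : ∑ k ∈ S.filter (fun k : ℕ => (x : ℝ) ^ (1 / 5 : ℝ) ≤ (k : ℝ) / (rad k : ℝ)),
      ((k : ℝ) / (rad k : ℝ)) ^ (1 / 2 - 1 / 100 : ℝ) ≤ 2 * C1 * y * B ^ (-(1 / 1000 : ℝ)) := by
    have h1 : ∀ k ∈ S.filter (fun k : ℕ => (x : ℝ) ^ (1 / 5 : ℝ) ≤ (k : ℝ) / (rad k : ℝ)),
        ((k : ℝ) / (rad k : ℝ)) ^ (1 / 2 - 1 / 100 : ℝ) ≤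
          B ^ (-(1 / 1000 : ℝ)) * (x : ℝ) ^ (-(9 / 5000 : ℝ)) *
            ((k : ℝ) / ∏ p ∈ k.primeFactors, (p : ℝ)) ^ (1 / 2 : ℝ) := by
      intro k hk
      rw [Finset.mem_filter, hS, Finset.mem_filter] at hk
      obtain ⟨⟨_, hkB⟩, hkx⟩ := hk
      rw [← rad_cast]
      set z := (k : ℝ) / (rad k : ℝ) with hz
      have hz0 : 0 < z := by (clear * - hB hkB; linarith)
      have e1 : z ^ (1 / 2 - 1 / 100 : ℝ) =
          z ^ (-(1 / 1000 : ℝ)) * z ^ (-(9 / 1000 : ℝ)) * z ^ (1 / 2 : ℝ) := by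
        rw [← Real.rpow_add hz0, ← Real.rpow_add hz0]; norm_num
      have e2 : z ^ (-(1 / 1000 : ℝ)) ≤ B ^ (-(1 / 1000 : ℝ)) :=
        Real.rpow_le_rpow_of_nonpos (by (clear * - hB; linarith)) hkB (by norm_num)
      have e3 : z ^ (-(9 / 1000 : ℝ)) ≤ (x : ℝ) ^ (-(9 / 5000 : ℝ)) := by
        have := Real.rpow_le_rpow_of_nonpos (z := -(9 / 1000 : ℝ))
          (show (0 : ℝ) < (x : ℝ) ^ (1 / 5 : ℝ) by positivity) hkx (by norm_num)
        rw [← Real.rpow_mul hx0.le] at this
        refine this.trans (le_of_eq ?_)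
        norm_num
      rw [e1]
      (clear * - e2 e3 hz0 hB; gcongr)
    refine (Finset.sum_le_sum h1).trans ?_
    rw [← Finset.mul_sum]
    have h2 : ∑ k ∈ S.filter (fun k : ℕ => (x : ℝ) ^ (1 / 5 : ℝ) ≤ (k : ℝ) / (rad k : ℝ)),
        ((k : ℝ) / ∏ p ∈ k.primeFactors, (p : ℝ)) ^ (1 / 2 : ℝ) ≤
        ∑ k ∈ Finset.Icc ⌈(x : ℝ)⌉₊ ⌊(x : ℝ) + y⌋₊,
          ((k : ℝ) / ∏ p ∈ k.primeFactors, (p : ℝ)) ^ (1 / 2 : ℝ) := by
      apply Finset.sum_le_sum_of_subset_of_nonneg
      · intro k hk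
        rw [Finset.mem_filter, hS, Finset.mem_filter, Finset.mem_Ico] at hk
        rw [Finset.mem_Icc, Nat.ceil_natCast]
        refine ⟨hk.1.1.1, ?_⟩
        have : (x : ℝ) + y = ((x + y : ℕ) : ℝ) := by push_cast; ring
        rw [this, Nat.floor_natCast]
        omega
      · intro k _ _
        (clear * -; positivity)
    have h3 := hpow x y hx hy0.le (by exact_mod_cast hyx)
    have h4 : (x : ℝ) ^ (1 / 2 : ℝ) ≤ y * (x : ℝ) ^ (1 / 1000 : ℝ) := by
      calc (x : ℝ) ^ (1 / 2 : ℝ) = (x : ℝ) ^ (1 / 2 - 1 / 1000 : ℝ) * (x : ℝ) ^ (1 / 1000 : ℝ) := by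
            rw [← Real.rpow_add hx0]; norm_num
        _ ≤ y * (x : ℝ) ^ (1 / 1000 : ℝ) := mul_le_mul_of_nonneg_right hyl (by positivity)
    have h5 : (1 : ℝ) ≤ (x : ℝ) ^ (1 / 1000 : ℝ) := Real.one_le_rpow hx (by norm_num)
    have h6 : (y : ℝ) + (x : ℝ) ^ (1 / 2 : ℝ) ≤ 2 * y * (x : ℝ) ^ (1 / 1000 : ℝ) := by (clear * - h4 h5; nlinarith)
    have h7 : (x : ℝ) ^ (-(9 / 5000 : ℝ)) * ((x : ℝ) ^ (1 / 1000 : ℝ) * (x : ℝ) ^ (1 / 2000 : ℝ)) ≤
        1 := by
      rw [← Real.rpow_add hx0, ← Real.rpow_add hx0]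
      exact Real.rpow_le_one_of_one_le_of_nonpos hx (by norm_num)
    calc B ^ (-(1 / 1000 : ℝ)) * (x : ℝ) ^ (-(9 / 5000 : ℝ)) *
          ∑ k ∈ S.filter (fun k : ℕ => (x : ℝ) ^ (1 / 5 : ℝ) ≤ (k : ℝ) / (rad k : ℝ)),
            ((k : ℝ) / ∏ p ∈ k.primeFactors, (p : ℝ)) ^ (1 / 2 : ℝ)
        ≤ B ^ (-(1 / 1000 : ℝ)) * (x : ℝ) ^ (-(9 / 5000 : ℝ)) *
            (C1 * (2 * y * (x : ℝ) ^ (1 / 1000 : ℝ)) * (x : ℝ) ^ (1 / 2000 : ℝ)) := by
          apply mul_le_mul_of_nonneg_left _ (by positivity)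
          refine h2.trans (h3.trans ?_)
          gcongr
      _ = 2 * C1 * y * B ^ (-(1 / 1000 : ℝ)) * ((x : ℝ) ^ (-(9 / 5000 : ℝ)) *
            ((x : ℝ) ^ (1 / 1000 : ℝ) * (x : ℝ) ^ (1 / 2000 : ℝ))) := by ring
      _ ≤ 2 * C1 * y * B ^ (-(1 / 1000 : ℝ)) * 1 :=
          mul_le_mul_of_nonneg_left h7 (by positivity)
      _ = 2 * C1 * y * B ^ (-(1 / 1000 : ℝ)) := mul_one _
  -- small powerful part
  have hBp : ∑ k ∈ S.filter (fun k : ℕ => ¬ (x : ℝ) ^ (1 / 5 : ℝ) ≤ (k : ℝ) / (rad k : ℝ)),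
      ((k : ℝ) / (rad k : ℝ)) ^ (1 / 2 - 1 / 100 : ℝ) ≤ (C2 + 1) * y * B ^ (-(1 / 1000 : ℝ)) := by
    set T := S.filter (fun k : ℕ => ¬ (x : ℝ) ^ (1 / 5 : ℝ) ≤ (k : ℝ) / (rad k : ℝ)) with hT
    set M := ⌊(x : ℝ) ^ (1 / 5 : ℝ)⌋₊ with hM
    have hMle : (M : ℝ) ≤ (x : ℝ) ^ (1 / 5 : ℝ) := Nat.floor_le (by positivity)
    have hTmem : ∀ k ∈ T, k ∈ Finset.Ico x (x + y) ∧ B ≤ ((k / rad k : ℕ) : ℝ) ∧
        ((k / rad k : ℕ) : ℝ) < (x : ℝ) ^ (1 / 5 : ℝ) := by
      intro k hk
      rw [hT, Finset.mem_filter, hS, Finset.mem_filter, not_le, div_rad_cast] at hk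
      exact ⟨hk.1.1, hk.1.2, hk.2⟩
    have h1 : ∀ k ∈ T, ((k : ℝ) / (rad k : ℝ)) ^ (1 / 2 - 1 / 100 : ℝ) ≤
        B ^ (-(1 / 1000 : ℝ)) * ((k / rad k : ℕ) : ℝ) ^ (1 / 2 : ℝ) := by
      intro k hk
      obtain ⟨hk1, hk2, _⟩ := hTmem k hk
      rw [div_rad_cast]
      set z : ℝ := ((k / rad k : ℕ) : ℝ) with hz
      have hz1 : 1 ≤ z := by
        rw [hz]; exact_mod_cast one_le_div_rad (hkpos k hk1)
      have hz0 : 0 < z := by (clear * - hB hk2; linarith)
      have e1 : z ^ (1 / 2 - 1 / 100 : ℝ) =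
          z ^ (-(1 / 1000 : ℝ)) * z ^ (-(9 / 1000 : ℝ)) * z ^ (1 / 2 : ℝ) := by
        rw [← Real.rpow_add hz0, ← Real.rpow_add hz0]; norm_num
      have e2 : z ^ (-(1 / 1000 : ℝ)) ≤ B ^ (-(1 / 1000 : ℝ)) :=
        Real.rpow_le_rpow_of_nonpos (by (clear * - hB; linarith)) hk2 (by norm_num)
      have e3 : z ^ (-(9 / 1000 : ℝ)) ≤ 1 :=
        Real.rpow_le_one_of_one_le_of_nonpos hz1 (by norm_num)
      rw [e1]
      calc z ^ (-(1 / 1000 : ℝ)) * z ^ (-(9 / 1000 : ℝ)) * z ^ (1 / 2 : ℝ)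
          ≤ B ^ (-(1 / 1000 : ℝ)) * 1 * z ^ (1 / 2 : ℝ) := by (clear * - e2 e3 hz1 hB; gcongr)
        _ = B ^ (-(1 / 1000 : ℝ)) * z ^ (1 / 2 : ℝ) := by rw [mul_one]
    refine (Finset.sum_le_sum h1).trans ?_
    rw [← Finset.mul_sum]
    have hmaps : ∀ k ∈ T, k / rad k ∈ Icc 1 M := by
      intro k hk
      obtain ⟨hk1, _, hk3⟩ := hTmem k hk
      rw [Finset.mem_Icc]
      exact ⟨one_le_div_rad (hkpos k hk1), Nat.le_floor hk3.le⟩
    rw [← Finset.sum_fiberwise_of_maps_to hmaps]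
    have h2 : ∀ z ∈ Icc 1 M, ∑ k ∈ T with k / rad k = z, ((k / rad k : ℕ) : ℝ) ^ (1 / 2 : ℝ) ≤
        y * ((z : ℝ) ^ (-(1 / 2 : ℝ)) / (rad z : ℝ)) + (x : ℝ) ^ (1 / 10 : ℝ) := by
      intro z hz
      rw [Finset.mem_Icc] at hz
      have hz0 : (0 : ℝ) < z := by exact_mod_cast hz.1
      have hr0 : (0 : ℝ) < (rad z : ℝ) := by exact_mod_cast rad_pos' z
      have h3 : ∀ k ∈ T.filter (fun k => k / rad k = z), ((k / rad k : ℕ) : ℝ) ^ (1 / 2 : ℝ) =
          (z : ℝ) ^ (1 / 2 : ℝ) := by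
        intro k hk
        rw [(Finset.mem_filter.mp hk).2]
      rw [Finset.sum_congr rfl h3, Finset.sum_const, nsmul_eq_mul]
      have h4 : ((T.filter (fun k => k / rad k = z)).card : ℝ) ≤ (y : ℝ) / ((z * rad z : ℕ) : ℝ) + 1 := by
        refine le_trans ?_ (Pool.Agent.M20.Helper14.KSP.card_multiples_le x y (z * rad z)
          (Nat.mul_pos hz.1 (rad_pos' z)))
        have : T.filter (fun k => k / rad k = z) ⊆
            (Finset.Ico x (x + y)).filter (fun k => z * rad z ∣ k) := by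
          intro k hk
          rw [Finset.mem_filter] at hk
          obtain ⟨hk1, _, _⟩ := hTmem k hk.1
          rw [Finset.mem_filter]
          exact ⟨hk1, mul_rad_dvd (hkpos k hk1) hk.2⟩
        exact_mod_cast Finset.card_le_card this
      have h5 : (z : ℝ) ^ (1 / 2 : ℝ) ≤ (x : ℝ) ^ (1 / 10 : ℝ) := by
        have h6 : (z : ℝ) ≤ (x : ℝ) ^ (1 / 5 : ℝ) := le_trans (by exact_mod_cast hz.2) hMle
        calc (z : ℝ) ^ (1 / 2 : ℝ) ≤ ((x : ℝ) ^ (1 / 5 : ℝ)) ^ (1 / 2 : ℝ) :=
              Real.rpow_le_rpow hz0.le h6 (by norm_num)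
          _ = (x : ℝ) ^ (1 / 10 : ℝ) := by rw [← Real.rpow_mul hx0.le]; norm_num
      have h7 : (z : ℝ) ^ (1 / 2 : ℝ) = z * (z : ℝ) ^ (-(1 / 2 : ℝ)) := by
        nth_rewrite 2 [← Real.rpow_one (z : ℝ)]
        rw [← Real.rpow_add hz0]; norm_num
      calc ((T.filter (fun k => k / rad k = z)).card : ℝ) * (z : ℝ) ^ (1 / 2 : ℝ)
          ≤ ((y : ℝ) / ((z * rad z : ℕ) : ℝ) + 1) * (z : ℝ) ^ (1 / 2 : ℝ) :=
            mul_le_mul_of_nonneg_right h4 (by positivity)
        _ = (y : ℝ) / ((z * rad z : ℕ) : ℝ) * (z : ℝ) ^ (1 / 2 : ℝ) + (z : ℝ) ^ (1 / 2 : ℝ) := by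
            ring
        _ = y * ((z : ℝ) ^ (-(1 / 2 : ℝ)) / (rad z : ℝ)) + (z : ℝ) ^ (1 / 2 : ℝ) := by
            congr 1
            rw [h7]
            push_cast
            (clear * - hz0 hr0 hy0; field_simp)
        _ ≤ y * ((z : ℝ) ^ (-(1 / 2 : ℝ)) / (rad z : ℝ)) + (x : ℝ) ^ (1 / 10 : ℝ) := by
            (clear * - h5; linarith)
    have h3 : ∑ z ∈ Icc 1 M, (y * ((z : ℝ) ^ (-(1 / 2 : ℝ)) / (rad z : ℝ)) +
        (x : ℝ) ^ (1 / 10 : ℝ)) ≤ (C2 + 1) * y := by
      rw [Finset.sum_add_distrib, ← Finset.mul_sum, Finset.sum_const, Nat.card_Icc, nsmul_eq_mul,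
        Nat.add_sub_cancel]
      have h4 := mul_le_mul_of_nonneg_left (hrad M) hy0.le
      have h5 : (M : ℝ) * (x : ℝ) ^ (1 / 10 : ℝ) ≤ y := by
        calc (M : ℝ) * (x : ℝ) ^ (1 / 10 : ℝ) ≤ (x : ℝ) ^ (1 / 5 : ℝ) * (x : ℝ) ^ (1 / 10 : ℝ) :=
              mul_le_mul_of_nonneg_right hMle (by positivity)
          _ = (x : ℝ) ^ (3 / 10 : ℝ) := by rw [← Real.rpow_add hx0]; norm_num
          _ ≤ (x : ℝ) ^ (1 / 2 - 1 / 1000 : ℝ) :=
              Real.rpow_le_rpow_of_exponent_le hx (by norm_num)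
          _ ≤ y := hyl
      (clear * - h4 h5; linarith)
    calc B ^ (-(1 / 1000 : ℝ)) * ∑ z ∈ Icc 1 M, ∑ k ∈ T with k / rad k = z,
          ((k / rad k : ℕ) : ℝ) ^ (1 / 2 : ℝ)
        ≤ B ^ (-(1 / 1000 : ℝ)) * ((C2 + 1) * y) :=
          mul_le_mul_of_nonneg_left ((Finset.sum_le_sum h2).trans h3) hBη.le
      _ = (C2 + 1) * y * B ^ (-(1 / 1000 : ℝ)) := by ring
  calc _ ≤ 2 * C1 * y * B ^ (-(1 / 1000 : ℝ)) + (C2 + 1) * y * B ^ (-(1 / 1000 : ℝ)) :=
        add_le_add hA hBp
    _ = (2 * C1 + (C2 + 1)) * y * B ^ (-(1 / 1000 : ℝ)) := by ring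

/-- `PowC 0.01 η` for some `η > 0`. -/
theorem powC : ∃ η : ℝ, 0 < η ∧ η ≤ 1 / 100 ∧ PowC (1 / 100) η :=
  ⟨1 / 1000, by norm_num, by norm_num, powC_explicit⟩

end Pool.Agent.M20.Helper48.KS
end

/- Helper53.KN.Helper59.KS.Weights -/
section
/-!
# Project KS: pointwise bounds of the weights (WoLe, OrdLe, CtlLe, WpLe)
-/

set_option autoImplicit false
open scoped Classical

namespace Pool.Agent.M20.Helper59.KS

open Pool.Agent.M20.Helper16.KS Pool.Agent.M20.Helper16.KS.Sys

theorem woLe : WoLe := by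
  intro S
  refine ⟨max S.K 1, fun k0 hk0 R hR k hk j hj m hm => ⟨S.wo_nonneg R k j m, ?_⟩⟩
  exact by
    have hKk : S.K ≤ k := (le_max_left _ _).trans (hk0.trans hk)
    have hk1 : 1 ≤ k := (le_max_right _ _).trans (hk0.trans hk)
    have hkR : (0 : ℝ) < k := by exact_mod_cast hk1
    have hj' := (S.mem_badc).1 hj
    have h1 := hR.lower k hk j hj
    have h2 := S.many k hKk j hj'.1 hj'.2
    exact by
      have hc := S.c1_pos
      have hm0 : m ≠ 0 := by omega
      have hmR : (0 : ℝ) < m := by exact_mod_cast hm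
      have he : (0 : ℝ) < 2 ^ ec S.d k := by positivity
      have hNN : S.c1 * 2 ^ ec S.d k / (2 * (k : ℝ) ^ 2) ≤ S.NN R k j := by
        refine le_trans ?_ h1
        rw [div_le_div_iff₀ (by positivity) (by positivity)]
        rw [div_le_iff₀ (by positivity)] at h2
        (clear * - h2; nlinarith)
      have hB : 0 < S.c1 * 2 ^ ec S.d k / (2 * (k : ℝ) ^ 2) := by (clear * - hc hk1; positivity)
      have hpb : 0 < S.pr m * S.base m := mul_pos (S.pr_pos hm0) (S.base_pos hm0)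
      have hmi : (m : ℝ) ^ (1 - S.s + S.tau) * (S.pr m * S.base m) = 1 := by
        rw [S.pr_mul_base hm0, ← Real.rpow_add hmR]
        have : 1 - S.s + S.tau + (S.s - 1 - S.tau) = 0 := by ring
        rw [this, Real.rpow_zero]
      unfold Sys.wo Sys.wd Sys.G
      rw [div_le_iff₀ (by rw [mul_assoc]; exact mul_pos (hB.trans_le hNN) hpb)]
      have hx : 0 ≤ (2 : ℝ) ^ ((S.s - 1) * k) := by positivity
      calc 2 ^ ec S.d k * (2 : ℝ) ^ ((S.s - 1) * k) / (k : ℝ) ^ 4
          = 2 / S.c1 / (k : ℝ) ^ 2 * (2 : ℝ) ^ ((S.s - 1) * k) *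
              (S.c1 * 2 ^ ec S.d k / (2 * (k : ℝ) ^ 2)) := by
            (clear * - hc hk1; field_simp)
        _ ≤ 2 / S.c1 / (k : ℝ) ^ 2 * (2 : ℝ) ^ ((S.s - 1) * k) * S.NN R k j := by
            (clear * - hNN hc hk1; gcongr)
        _ = 2 / S.c1 / (k : ℝ) ^ 2 * (2 : ℝ) ^ ((S.s - 1) * k) * S.NN R k j *
              ((m : ℝ) ^ (1 - S.s + S.tau) * (S.pr m * S.base m)) := by
            rw [hmi, mul_one]
        _ = 2 / S.c1 / (k : ℝ) ^ 2 * ((2 : ℝ) ^ ((S.s - 1) * k) * (m : ℝ) ^ (1 - S.s + S.tau)) *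
              (S.NN R k j * S.pr m * S.base m) := by ring

theorem ordLe : OrdLe := by
  intro S
  have hc := S.c1_pos
  have hc1 := S.c1_le
  have hs1 : S.s - 1 < 0 := by
    have := S.s_lt
    norm_num at this
    linarith
  have hC1 : (1 : ℝ) ≤ 16 / S.c1 := by
    rw [le_div_iff₀ hc]
    (clear * - hc1; linarith)
  refine ⟨16 / S.c1, max S.K 1, fun k0 hk0 p hp => ⟨S.ordw_nonneg k0 p, ?_⟩⟩
  exact by
    have hK0 : S.K ≤ k0 := (le_max_left _ _).trans hk0
    have hk01 : 1 ≤ k0 := (le_max_right _ _).trans hk0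
    have hpR : (1 : ℝ) < p := by exact_mod_cast hp.one_lt
    have hp0 : (0 : ℝ) < p := by (clear * - hpR; linarith)
    have hlog : 0 < Real.log p := Real.log_pos hpR
    have hlog2 : Real.log 2 ≤ 1 := by
      have := Real.log_two_lt_d9
      (clear * - this; linarith)
    exact by
      have hlog2' : 0 < Real.log 2 := Real.log_pos (by norm_num)
      -- upper bound of the logarithm
      have hlogle : ∀ n : ℕ, p < 2 ^ n → Real.log p ≤ n := by
        intro n hn
        have h1 : (p : ℝ) ≤ 2 ^ n := by exact_mod_cast hn.le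
        have h2 := Real.log_le_log hp0 h1
        rw [Real.log_pow] at h2
        refine h2.trans ?_
        have h3 : (0 : ℝ) ≤ n := Nat.cast_nonneg n
        (clear * - hlog2; nlinarith)
      have hpow : ∀ n : ℕ, p < 2 ^ n → (2 : ℝ) ^ ((S.s - 1) * n) ≤ (p : ℝ) ^ (S.s - 1) := by
        intro n hn
        have h1 : (p : ℝ) ≤ (2 : ℝ) ^ (n : ℝ) := by
          rw [Real.rpow_natCast]
          exact_mod_cast hn.le
        rw [mul_comm, Real.rpow_mul (by norm_num)]
        exact Real.rpow_le_rpow_of_nonpos hp0 h1 hs1.le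
      unfold Sys.ordw
      split_ifs with h1 h2 h3
      · (clear * - hc hpR hlog; positivity)
      · unfold Sys.phi0
        have hk0R : (0 : ℝ) < k0 := by exact_mod_cast hk01
        calc (2 : ℝ) ^ ((S.s - 1) * k0) / (k0 : ℝ) ^ 3
            ≤ (p : ℝ) ^ (S.s - 1) / Real.log p ^ 3 := by
              refine div_le_div₀ (by positivity) (hpow k0 h2) (by positivity) ?_
              exact pow_le_pow_left₀ hlog.le (hlogle k0 h2) 3
          _ = 1 * ((p : ℝ) ^ (S.s - 1) / Real.log p ^ 3) := (one_mul _).symm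
          _ ≤ 16 / S.c1 * ((p : ℝ) ^ (S.s - 1) / Real.log p ^ 3) := by
              exact mul_le_mul_of_nonneg_right hC1 (by positivity)
      · positivity
      exact by
        · set k := Nat.log 2 p with hkdef
          exact by
            have hkk0 : k0 ≤ k := by
              rw [hkdef]
              exact Nat.le_log_of_pow_le (by norm_num) (by omega)
            have hk1 : 1 ≤ k := hk01.trans hkk0
            have hkR : (0 : ℝ) < k := by exact_mod_cast hk1
            have hlt : p < 2 ^ (k + 1) := Nat.lt_pow_succ_log_self (by norm_num) p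
            have hg := S.good k (hK0.trans hkk0) (S.idx p) (S.idx_lt p) h3
            have he : (0 : ℝ) < 2 ^ ec S.d k := by positivity
            exact by
              have hnp : 0 < S.c1 * 2 ^ ec S.d k / k := by positivity
              have hx : 0 < (2 : ℝ) ^ ((S.s - 1) * k) := by positivity
              have h4 : (2 : ℝ) ^ ((S.s - 1) * k) ≤ 2 * (p : ℝ) ^ (S.s - 1) := by
                have h5 := hpow (k + 1) hlt
                have h6 : (2 : ℝ) ^ ((S.s - 1) * k) =
                    (2 : ℝ) ^ ((S.s - 1) * ((k + 1 : ℕ) : ℝ)) * (2 : ℝ) ^ (1 - S.s) := by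
                  rw [← Real.rpow_add (by norm_num)]
                  congr 1
                  push_cast
                  ring
                have h7 : (2 : ℝ) ^ (1 - S.s) ≤ 2 := by
                  calc (2 : ℝ) ^ (1 - S.s) ≤ (2 : ℝ) ^ (1 : ℝ) :=
                        Real.rpow_le_rpow_of_exponent_le (by norm_num) (by have := S.s_pos; (clear * - this; linarith))
                    _ = 2 := Real.rpow_one 2
                rw [h6]
                calc (2 : ℝ) ^ ((S.s - 1) * ((k + 1 : ℕ) : ℝ)) * (2 : ℝ) ^ (1 - S.s)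
                    ≤ (p : ℝ) ^ (S.s - 1) * 2 := by (clear * - h5 h7 hpR; gcongr)
                  _ = 2 * (p : ℝ) ^ (S.s - 1) := mul_comm _ _
              have h8 : Real.log p ^ 3 ≤ 8 * (k : ℝ) ^ 3 := by
                have h9 : Real.log p ≤ 2 * k := by
                  have := hlogle (k + 1) hlt
                  push_cast at this
                  have : (1 : ℝ) ≤ k := by exact_mod_cast hk1
                  linarith
                calc Real.log p ^ 3 ≤ (2 * (k : ℝ)) ^ 3 := pow_le_pow_left₀ hlog.le h9 3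
                  _ = 8 * (k : ℝ) ^ 3 := by ring
              unfold Sys.G
              calc 2 ^ ec S.d k * (2 : ℝ) ^ ((S.s - 1) * k) / (k : ℝ) ^ 4 / (npr S.d k (S.idx p) : ℝ)
                  ≤ 2 ^ ec S.d k * (2 : ℝ) ^ ((S.s - 1) * k) / (k : ℝ) ^ 4 / (S.c1 * 2 ^ ec S.d k / k) := by
                    (clear * - hk1 hc hg; gcongr)
                _ = (2 : ℝ) ^ ((S.s - 1) * k) * (8 / (8 * (k : ℝ) ^ 3)) / S.c1 := by
                    field_simp
                _ ≤ (2 * (p : ℝ) ^ (S.s - 1)) * (8 / Real.log p ^ 3) / S.c1 := by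
                    (clear * - h4 hlog h8 hk1 hpR hc; gcongr)
                _ = 16 / S.c1 * ((p : ℝ) ^ (S.s - 1) / Real.log p ^ 3) := by ring

/-- one owner -/
theorem wd_le (S : Sys) {k j q : ℕ} (hk : S.K ≤ k) (hj : j ∈ S.badc k) {x : ℕ × ℕ}
    (hx : x ∈ S.Cand k j) (hq : x.1 = q) :
    S.wd k x.2 ≤ 2 * (q : ℝ) ^ (S.s - 1 + 2 * S.tau) := by
  obtain ⟨hp, -, -, hm1, -, -, hlt, hge, -⟩ := S.cand_facts hk hj hx
  rw [hq] at hp hlt hge
  have hs := S.s_pos
  have hs' : S.s < 1 / 2 := by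
    have := S.s_lt
    norm_num at this
    (clear * - hs this; linarith)
  have ht := S.tau_pos
  have hts : S.tau ≤ S.s := by
    have := S.tau_le_s
    have h1 : S.s / 10 ^ 6 ≤ S.s := by
      rw [div_le_iff₀ (by positivity)]
      (clear * - ht this; nlinarith)
    (clear * - ht this; linarith)
  have hq0 : (0 : ℝ) < q := by exact_mod_cast hp.pos
  have hm0 : (0 : ℝ) < x.2 := by
    have : 0 < x.2 := by omega
    exact_mod_cast this
  exact by
    have hprod : (x.2 : ℝ) ≤ (2 : ℝ) ^ ((k : ℝ) + 1) / q := by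
      rw [le_div_iff₀ hq0]
      have h1 : (q : ℝ) * x.2 ≤ 2 ^ (k + 1) := by exact_mod_cast hlt.le
      have h2 : (2 : ℝ) ^ ((k : ℝ) + 1) = 2 ^ (k + 1) := by
        rw [← Nat.cast_succ, Real.rpow_natCast]
      rw [h2]
      (clear * - h1; linarith)
    have hexp : 0 < 1 - S.s + S.tau := by (clear * - hs hs' ht; linarith)
    have h1 : (x.2 : ℝ) ^ (1 - S.s + S.tau) ≤
        (2 : ℝ) ^ (((k : ℝ) + 1) * (1 - S.s + S.tau)) * (q : ℝ) ^ (S.s - 1 - S.tau) := by
      calc (x.2 : ℝ) ^ (1 - S.s + S.tau) ≤ ((2 : ℝ) ^ ((k : ℝ) + 1) / q) ^ (1 - S.s + S.tau) :=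
            Real.rpow_le_rpow hm0.le hprod hexp.le
        _ = (2 : ℝ) ^ (((k : ℝ) + 1) * (1 - S.s + S.tau)) * (q : ℝ) ^ (S.s - 1 - S.tau) := by
            rw [Real.div_rpow (by positivity) hq0.le, ← Real.rpow_mul (by norm_num), div_eq_mul_inv,
              ← Real.rpow_neg hq0.le]
            congr 2
            ring
    have h2 : (2 : ℝ) ^ (S.tau * k) ≤ (q : ℝ) ^ (3 * S.tau) := by
      calc (2 : ℝ) ^ (S.tau * k) = ((2 : ℝ) ^ ((k : ℝ) / 3)) ^ (3 * S.tau) := by
            rw [← Real.rpow_mul (by norm_num)]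
            congr 1
            ring
        _ ≤ (q : ℝ) ^ (3 * S.tau) := Real.rpow_le_rpow (by positivity) hge (by positivity)
    unfold Sys.wd
    calc (2 : ℝ) ^ ((S.s - 1) * k) * (x.2 : ℝ) ^ (1 - S.s + S.tau)
        ≤ (2 : ℝ) ^ ((S.s - 1) * k) *
          ((2 : ℝ) ^ (((k : ℝ) + 1) * (1 - S.s + S.tau)) * (q : ℝ) ^ (S.s - 1 - S.tau)) := by
          (clear * - h1; gcongr)
      _ = ((2 : ℝ) ^ (1 - S.s + S.tau) * (2 : ℝ) ^ (S.tau * k)) * (q : ℝ) ^ (S.s - 1 - S.tau) := by
          rw [← mul_assoc, ← Real.rpow_add (by norm_num), ← Real.rpow_add (by norm_num)]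
          congr 2
          ring
      _ ≤ (2 * (q : ℝ) ^ (3 * S.tau)) * (q : ℝ) ^ (S.s - 1 - S.tau) := by
          have h3 : (2 : ℝ) ^ (1 - S.s + S.tau) ≤ 2 := by
            calc (2 : ℝ) ^ (1 - S.s + S.tau) ≤ (2 : ℝ) ^ (1 : ℝ) :=
                  Real.rpow_le_rpow_of_exponent_le (by norm_num) (by (clear * - hts; linarith))
              _ = 2 := Real.rpow_one 2
          (clear * - h3 h2 hq0; gcongr)
      _ = 2 * (q : ℝ) ^ (S.s - 1 + 2 * S.tau) := by
          rw [mul_assoc, ← Real.rpow_add hq0]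
          congr 2
          ring

theorem ctlLe : CtlLe := by
  intro S
  obtain ⟨K1, hK1⟩ := woLe S
  have hc := S.c1_pos
  obtain ⟨K2, hK2⟩ := exists_nat_gt (8 / S.c1)
  refine ⟨max (max S.K K1) (max K2 1), fun k0 hk0 R hR q k1 hk1 => ⟨S.ctl_nonneg _ _ _ _, ?_, ?_⟩⟩
  · simp only [max_le_iff] at hk0
    exact by
      obtain ⟨⟨a1, a2⟩, a3, a4⟩ := hk0
      have hk0R : (1 : ℝ) ≤ k0 := by exact_mod_cast a4
      have hmono := S.ctl_mono (k0 := k0) hk1 R q
      have hτ := S.tau_pos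
      -- bound of the sum over all owners
      have hsum : S.ctl k0 (top q) R q ≤
          (S.own k0 R q : ℝ) * (2 / S.c1 / (k0 : ℝ) ^ 2 * (2 * (q : ℝ) ^ (S.s - 1 + 2 * S.tau))) := by
        unfold Sys.ctl Sys.own Sys.cw
        push_cast
        rw [Finset.sum_mul]
        refine Finset.sum_le_sum fun k hk => ?_
        rw [Finset.sum_mul]
        refine Finset.sum_le_sum fun j hj => ?_
        rw [← nsmul_eq_mul]
        refine Finset.sum_le_card_nsmul _ _ _ fun x hx => ?_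
        rw [Finset.mem_filter, S.mem_act] at hx
        obtain ⟨⟨hx1, hx2⟩, hx3⟩ := hx
        have hkk := (Finset.mem_Ico.1 hk).1
        have hKk : S.K ≤ k := a1.trans hkk
        have hm1 := (S.cand_facts hKk hj hx1).2.2.2.1
        have h1 := (hK1 k0 a2 R hR k hkk j hj x.2 hm1.le).2
        have h2 := wd_le S hKk hj hx1 hx3
        have h3 : 2 / S.c1 / (k : ℝ) ^ 2 ≤ 2 / S.c1 / (k0 : ℝ) ^ 2 := by
          have : (k0 : ℝ) ≤ k := by exact_mod_cast hkk
          (clear * - hc a4 this; gcongr)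
        calc S.wo R k j x.2 ≤ 2 / S.c1 / (k : ℝ) ^ 2 * S.wd k x.2 := h1
          _ ≤ 2 / S.c1 / (k0 : ℝ) ^ 2 * (2 * (q : ℝ) ^ (S.s - 1 + 2 * S.tau)) := by
              refine mul_le_mul h3 h2 (S.wd_nonneg _ _) (by positivity)
      rcases Nat.eq_zero_or_pos q with hq | hq
      · -- no owners
        subst hq
        have h0 : S.ctl k0 (top 0) R 0 = 0 := by
          unfold Sys.ctl Sys.cw
          refine Finset.sum_eq_zero fun k hk => Finset.sum_eq_zero fun j hj => ?_
          refine Finset.sum_eq_zero fun x hx => ?_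
          rw [Finset.mem_filter, S.mem_act] at hx
          obtain ⟨⟨hx1, hx2⟩, hx3⟩ := hx
          have hkk := (Finset.mem_Ico.1 hk).1
          have := (S.cand_facts (a1.trans hkk) hj hx1).1
          rw [hx3] at this
          exact absurd this Nat.not_prime_zero
        have h1 : S.ctl k0 k1 R 0 = 0 := le_antisymm (hmono.trans h0.le) (S.ctl_nonneg _ _ _ _)
        rw [h1, mul_zero]
        exact Real.rpow_nonneg (Nat.cast_nonneg _) _
      · have hqR : (0 : ℝ) < q := by exact_mod_cast hq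
        exact by
          have hq1 : (1 : ℝ) ≤ q := by exact_mod_cast hq
          have hown := hR.mult q
          have hk2 : 8 / S.c1 ≤ (k0 : ℝ) ^ 2 := by
            have h1 : (K2 : ℝ) ≤ k0 := by exact_mod_cast a3
            (clear * - hK2 h1 hk0R; nlinarith)
          have h8 : 8 / S.c1 / (k0 : ℝ) ^ 2 ≤ 1 := by
            rw [div_le_one (by (clear * - a4; positivity))]
            exact hk2
          calc 2 * S.ctl k0 k1 R q ≤ 2 * ((S.own k0 R q : ℝ) *
                (2 / S.c1 / (k0 : ℝ) ^ 2 * (2 * (q : ℝ) ^ (S.s - 1 + 2 * S.tau)))) := by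
                have := hmono.trans hsum
                (clear * - hmono hsum; linarith)
            _ ≤ 2 * ((q : ℝ) ^ S.tau *
                (2 / S.c1 / (k0 : ℝ) ^ 2 * (2 * (q : ℝ) ^ (S.s - 1 + 2 * S.tau)))) := by
                (clear * - hown hc a4 hq; gcongr)
            _ = 8 / S.c1 / (k0 : ℝ) ^ 2 * ((q : ℝ) ^ S.tau * (q : ℝ) ^ (S.s - 1 + 2 * S.tau)) := by
                ring
            _ ≤ 1 * ((q : ℝ) ^ S.tau * (q : ℝ) ^ (S.s - 1 + 2 * S.tau)) := by
                (clear * - h8 hq; gcongr)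
            _ = (q : ℝ) ^ (S.s - 1 + 3 * S.tau) := by
                rw [one_mul, ← Real.rpow_add hqR]
                congr 1
                ring
            _ ≤ (q : ℝ) ^ (S.s - 1 + 5 * S.tau) :=
                Real.rpow_le_rpow_of_exponent_le hq1 (by (clear * - hτ; linarith))
  · intro hq
    simp only [max_le_iff] at hk0
    obtain ⟨⟨a1, a2⟩, a3, a4⟩ := hk0
    unfold Sys.ctl Sys.cw
    refine Finset.sum_eq_zero fun k hk => Finset.sum_eq_zero fun j hj => ?_
    refine Finset.sum_eq_zero fun x hx => ?_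
    rw [Finset.mem_filter, S.mem_act] at hx
    obtain ⟨⟨hx1, hx2⟩, hx3⟩ := hx
    have hkk := (Finset.mem_Ico.1 hk).1
    have h1 := (S.cand_facts (a1.trans hkk) hj hx1).2.2.2.2.2.2.2.1
    rw [hx3] at h1
    have h2 : (2 : ℝ) ^ ((k0 : ℝ) / 3) ≤ (2 : ℝ) ^ ((k : ℝ) / 3) := by
      refine Real.rpow_le_rpow_of_exponent_le (by norm_num) ?_
      have : (k0 : ℝ) ≤ k := by exact_mod_cast hkk
      (clear * - this; linarith)
    (clear * - hq h1 h2; linarith)

theorem wpLe : WpLe := by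
  intro S
  obtain ⟨C, K1, hK1⟩ := ordLe S
  obtain ⟨K2, hK2⟩ := ctlLe S
  have hτ := S.tau_pos
  obtain ⟨K3, hK3⟩ := exists_nat_gt (5 / S.tau)
  obtain ⟨K4, hK4⟩ := exists_nat_gt (10 * (2 * |C| + 1))
  refine ⟨max (max K1 K2) (max (max K3 K4) 2), fun k0 hk0 R hR p hp => ⟨S.Wp_nonneg _ _ _, ?_⟩⟩
  exact by
    simp only [max_le_iff] at hk0
    obtain ⟨⟨a1, a2⟩, ⟨a3, a4⟩, a5⟩ := hk0
    have hk0R : (2 : ℝ) ≤ k0 := by exact_mod_cast a5
    have hpR : (1 : ℝ) < p := by exact_mod_cast hp.one_lt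
    have hp0 : (0 : ℝ) < p := by (clear * - hpR; linarith)
    unfold Sys.Fh
    split_ifs with h1
    · -- everything vanishes
      have hb : S.bR R p = 0 := by
        unfold Sys.bR
        rw [if_neg]
        intro hpR'
        exact absurd (hR.prime p hpR').2 (not_le.2 h1)
      have ho : S.ordw k0 p = 0 := by
        unfold Sys.ordw
        rw [if_pos]
        have h2 : (p : ℝ) < (2 : ℝ) ^ ((k0 - 1 : ℕ) : ℝ) := by
          refine h1.trans_le (Real.rpow_le_rpow_of_exponent_le (by norm_num) ?_)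
          rw [Nat.cast_sub (by omega)]
          push_cast
          (clear * - hk0R; linarith)
        rw [Real.rpow_natCast] at h2
        exact_mod_cast h2
      have hct : S.ctl k0 (top p) R p = 0 := by
        refine (hK2 k0 a2 R hR p (top p) le_rfl).2.2 (h1.trans_le ?_)
        refine Real.rpow_le_rpow_of_exponent_le (by norm_num) ?_
        (clear * - hk0R; linarith)
      unfold Sys.Wp
      rw [hb, ho, hct]
      simp
    · rw [not_lt] at h1
      exact by
        have ho := (hK1 k0 a1 p hp).2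
        have hct := (hK2 k0 a2 R hR p (top p) le_rfl).2.1
        have hlog2 : (1 : ℝ) / 2 ≤ Real.log 2 := by
          have := Real.log_two_gt_d9
          (clear * - this; linarith)
        have hlog : (k0 : ℝ) / 10 ≤ Real.log p := by
          have h2 := Real.log_le_log (by positivity) h1
          rw [Real.log_rpow (by norm_num)] at h2
          nlinarith
        have hlogC : 2 * |C| + 1 ≤ Real.log p := by
          have h3 : (K4 : ℝ) ≤ k0 := by exact_mod_cast a4
          (clear * - hK4 hlog h3; linarith)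
        have hC0 : 0 ≤ |C| := abs_nonneg C
        exact by
          have hlog1 : 1 ≤ Real.log p := by (clear * - hlogC hC0; linarith)
          have hlog3 : 2 * |C| ≤ Real.log p ^ 3 := by
            have h4 : Real.log p ≤ Real.log p ^ 3 := le_self_pow₀ hlog1 (by norm_num)
            (clear * - hlogC h4; linarith)
          have hpτ : 2 ≤ (p : ℝ) ^ S.tau := by
            calc (2 : ℝ) = (2 : ℝ) ^ (1 : ℝ) := (Real.rpow_one 2).symm
              _ ≤ (2 : ℝ) ^ ((k0 : ℝ) / 5 * S.tau) := by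
                  refine Real.rpow_le_rpow_of_exponent_le (by norm_num) ?_
                  have h5 : 5 / S.tau ≤ k0 := hK3.le.trans (by exact_mod_cast a3)
                  rw [div_le_iff₀ hτ] at h5
                  (clear * - h5; linarith)
              _ = ((2 : ℝ) ^ ((k0 : ℝ) / 5)) ^ S.tau := by rw [Real.rpow_mul (by norm_num)]
              _ ≤ (p : ℝ) ^ S.tau := Real.rpow_le_rpow (by positivity) h1 hτ.le
          have hA : 0 < (p : ℝ) ^ (S.s - 1) := by positivity
          have hB : (p : ℝ) ^ (S.s - 1) ≤ (p : ℝ) ^ (S.s - 1 + 5 * S.tau) :=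
            Real.rpow_le_rpow_of_exponent_le hpR.le (by (clear * - hτ; linarith))
          have ho2 : 2 * S.ordw k0 p ≤ (p : ℝ) ^ (S.s - 1) := by
            have h6 : C * ((p : ℝ) ^ (S.s - 1) / Real.log p ^ 3) ≤
                |C| * ((p : ℝ) ^ (S.s - 1) / Real.log p ^ 3) :=
              mul_le_mul_of_nonneg_right (le_abs_self C) (by (clear * - hpR hlog1; positivity))
            have h7 : 2 * (|C| * ((p : ℝ) ^ (S.s - 1) / Real.log p ^ 3)) ≤ (p : ℝ) ^ (S.s - 1) := by
              have h8 : 2 * (|C| * ((p : ℝ) ^ (S.s - 1) / Real.log p ^ 3)) =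
                  (p : ℝ) ^ (S.s - 1) * (2 * |C|) / Real.log p ^ 3 := by ring
              rw [h8, div_le_iff₀ (by positivity)]
              exact mul_le_mul_of_nonneg_left hlog3 hA.le
            (clear * - ho h6 h7; linarith)
          have hG : 2 * (p : ℝ) ^ (S.s - 1 + 5 * S.tau) ≤ S.gam p := by
            unfold Sys.gam
            have h9 : S.s - 1 + 6 * S.tau = S.tau + (S.s - 1 + 5 * S.tau) := by ring
            rw [h9, Real.rpow_add hp0 S.tau]
            exact mul_le_mul_of_nonneg_right hpτ (by positivity)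
          unfold Sys.Wp
          (clear * - hct hB ho2 hG; linarith)

end Pool.Agent.M20.Helper59.KS
end
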