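import Mathlib
import Pool.Agent.Helper53.KO.G05
import Pool.Agent.Helper53.KO.G06
import Pool.Agent.Helper53.KO.G07
import Pool.Agent.Helper53.KO.G08
import Pool.Agent.Helper53.KO.G09
import Pool.Agent.Helper53.KO.G10
import Pool.Agent.Helper53.KO.G11
import Pool.Agent.Helper53.KO.G12
import Pool.Agent.Helper53.KO.G13
import Pool.Agent.Helper53.KO.G14
import Pool.Agent.Helper53.KO.G15
import Pool.Agent.Helper53.KO.G16
import Pool.Agent.Helper53.KO.G17
import Pool.Agent.Helper53.KO.G18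
import Pool.Agent.Helper53.KO.G20
import Pool.Agent.Helper53.KO.G22
import Pool.Agent.Helper53.KO.G24

set_option linter.all false

/- Helper53.KN.Helper1.KF.Cls -/
section
/-!
# F2: the number of cells with a large sum over one class of zeros
-/

set_option autoImplicit false
open Filter Topology
open scoped Classical

namespace Pool.Agent.M20.Helper1.KF

open Pool.Agent.M20.Helper60.KS

/-- density theorem with exponent `A` for real parts `≥ 1 - x1` -/
def Dens (A x1 : ℝ) : Prop := ∀ τ ε : ℝ, 1/2 ≤ τ → τ ≤ 19/20 → 0 < ε → ∃ X0 : ℝ, ∀ (X x : ℝ) (Z : Finset ℂ), X0 ≤ X →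
  0 < x → x ≤ x1 → Spaced1 Z →
  (∀ ρ ∈ Z, riemannZeta ρ = 0 ∧ 1 - x ≤ ρ.re ∧ Real.log X ^ 2 ≤ |ρ.im| ∧ |ρ.im| ≤ X ^ τ + 1) →
  (Z.card : ℝ) ≤ X ^ (A * x * τ + ε)

/-- spaced heights are few -/
theorem card_spaced {Z : Finset ℂ} {T : ℝ} (hT : 0 ≤ T) (hZ : Spaced1 Z) (h : ∀ ρ ∈ Z, |ρ.im| ≤ T) :
    (Z.card : ℝ) ≤ 2 * T + 2 := by
  have hinj : Set.InjOn (fun ρ : ℂ => ⌊ρ.im⌋) (Z : Set ℂ) := by
    intro ρ hρ ρ' hρ' he
    by_contra hne
    have h1 := hZ ρ hρ ρ' hρ' hne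
    have h2 : ⌊ρ.im⌋ = ⌊ρ'.im⌋ := he
    have h3 := Int.floor_le ρ.im
    have h4 := Int.lt_floor_add_one ρ.im
    have h5 := Int.floor_le ρ'.im
    have h6 := Int.lt_floor_add_one ρ'.im
    rw [h2] at h3 h4
    have : |ρ.im - ρ'.im| < 1 := by rw [abs_lt]; constructor <;> (clear * - h3 h6 h4 h5; linarith)
    linarith
  have hsub : Z.image (fun ρ : ℂ => ⌊ρ.im⌋) ⊆ Finset.Icc ⌊-T⌋ ⌊T⌋ := by
    intro i hi
    obtain ⟨ρ, hρ, rfl⟩ := Finset.mem_image.1 hi
    obtain ⟨h1, h2⟩ := abs_le.1 (h ρ hρ)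
    rw [Finset.mem_Icc]
    exact ⟨Int.floor_le_floor h1, Int.floor_le_floor h2⟩
  have h1 := Finset.card_le_card hsub
  rw [Finset.card_image_of_injOn hinj, Int.card_Icc] at h1
  have h2 : ⌊-T⌋ ≤ ⌊T⌋ := Int.floor_le_floor (by (clear * - hT; linarith))
  have h3 : ((⌊T⌋ + 1 - ⌊-T⌋).toNat : ℝ) = (⌊T⌋ : ℝ) + 1 - (⌊-T⌋ : ℝ) := by
    have : ((⌊T⌋ + 1 - ⌊-T⌋).toNat : ℤ) = ⌊T⌋ + 1 - ⌊-T⌋ := Int.toNat_of_nonneg (by omega)
    have h4 : (((⌊T⌋ + 1 - ⌊-T⌋).toNat : ℤ) : ℝ) = ((⌊T⌋ + 1 - ⌊-T⌋ : ℤ) : ℝ) := by rw [this]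
    push_cast at h4
    exact_mod_cast h4
  have h5 : (Z.card : ℝ) ≤ ((⌊T⌋ + 1 - ⌊-T⌋).toNat : ℝ) := by exact_mod_cast h1
  have h6 := Int.floor_le T
  have h7 := Int.lt_floor_add_one (-T)
  rw [h3] at h5
  (clear * - h5 h6 h7; linarith)

/-- one class -/
theorem clsBound {A x1 τ ε0 η d : ℝ} (hA : 0 ≤ A) (hAx : A * x1 ≤ 2) (hD : Dens A x1) (hτ1 : 1/2 ≤ τ)
    (hτ2 : τ ≤ 9/10) (hε : 0 < ε0) (hη : 0 < η) (hη1 : η ≤ 1/1000) (hηε : η ≤ ε0)
    (h1 : 50 * η ≤ (2 - A * τ) * ε0) (h2 : 50 * η ≤ 2 * x1 - τ) (hd : 0 < d) (hd1 : d ≤ η) :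
    ∃ X0 : ℝ, ∀ (X x : ℝ) (Z : Finset ℂ) (c : ℂ → ℂ) (U : Finset ℝ), X0 ≤ X → ε0 ≤ x → x ≤ 1/2 →
    InStrip Z (1 - x) (1 - x + η) (X ^ (τ + 2 * d) + 1) → Spaced1 Z →
    (∀ ρ ∈ Z, riemannZeta ρ = 0 ∧ Real.log X ^ 2 ≤ |ρ.im|) →
    (∀ ρ ∈ Z, ‖c ρ‖ ≤ Real.log X ^ 2) → (∀ u ∈ U, Real.log X ≤ u ∧ u ≤ Real.log X + 1) →
    SpacedR U (1 / X ^ (τ + 2 * d)) →
    (∀ u ∈ U, 1 / Real.log X ^ 4 ≤ ‖∑ ρ ∈ Z, c ρ * Complex.exp ((ρ - 1) * (u : ℂ))‖) →
    (U.card : ℝ) ≤ X ^ (τ - 30 * η) := by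
  obtain ⟨C, hC, hms⟩ := msClass
  obtain ⟨XD, hD⟩ := hD (τ + 2 * d) η (by (clear * - hτ1 hd; linarith)) (by (clear * - hτ2 hη hη1 hd1; linarith)) hη
  have hsm := Pool.Agent.M20.Helper60.KC.small (Real.log (12 * C)) 14 η hη
  obtain ⟨X1, hX1⟩ := eventually_atTop.1 hsm
  refine ⟨max (max XD X1) (Real.exp 10), ?_⟩
  intro X x Z c U hX hx0 hx1 hZ1 hZ2 hZ3 hc hU1 hU2 hU3
  have hXD : XD ≤ X := (le_max_left _ _).trans ((le_max_left _ _).trans hX)
  have hXX1 : X1 ≤ X := (le_max_right _ _).trans ((le_max_left _ _).trans hX)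
  have hXe : Real.exp 10 ≤ X := (le_max_right _ _).trans hX
  have hX0 : 0 < X := (Real.exp_pos _).trans_le hXe
  have hl10 : 10 ≤ Real.log X := by
    rw [Real.le_log_iff_exp_le hX0]; exact hXe
  exact by
    have hX8 : 8 ≤ X := by
      have := Real.add_one_le_exp (10 : ℝ)
      (clear * - hη hη1 hXe this; linarith)
    have hX1' : 1 < X := by (clear * - hη hη1 hX8; linarith)
    set l := Real.log X with hl
    have hl0 : 0 < l := by (clear * - hη hη1 hl10; linarith)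
    have hlog : 12 * C * l ^ 14 ≤ X ^ η := by
      have := hX1 X hXX1
      rw [← Real.log_le_log_iff (by positivity) (by positivity), Real.log_mul (by positivity) (by positivity),
        Real.log_pow, Real.log_rpow hX0]
      simpa using this
    set T0 := X ^ (τ + 2 * d) with hT0
    have hT0p : 1 ≤ T0 := Real.one_le_rpow hX1'.le (by (clear * - hτ1 hη hη1 hd; linarith))
    exact by
      set T := T0 + 1 with hT
      have hT2 : T ≤ 2 * T0 := by (clear * - hT0p; linarith)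
      have key := hms X T (1 - x) (1 - x + η) (l ^ 2) (1 / l ^ 4) Z c U hX8 (by (clear * - hη hη1 hT0p; linarith)) (by (clear * - hη; linarith)) (by (clear * - hη hη1; linarith))
        (by (clear * - hηε hx0; linarith)) (by positivity) (by positivity) hZ1 hZ2 hc hU1 (by
          intro u hu u' hu' hne
          refine lt_of_lt_of_le ?_ (hU2 u hu u' hu' hne)
          apply one_div_lt_one_div_of_lt (by (clear * - hη hη1 hT0p; linarith))
          linarith) hU3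
      -- the number of zeros
      have hr : ∃ rr : ℝ, (Z.card : ℝ) ≤ 6 * X ^ rr ∧ rr + τ + 2 * d - 2 * x ≤ τ - 33 * η := by
        rcases le_or_gt x x1 with hxx | hxx
        · refine ⟨A * x * (τ + 2 * d) + η, ?_, ?_⟩
          · have h3 := hD X x Z hXD (by (clear * - hε hx0; linarith)) hxx hZ2 (fun ρ hρ => ⟨(hZ3 ρ hρ).1, (hZ1 ρ hρ).1, (hZ3 ρ hρ).2,
              (hZ1 ρ hρ).2.2⟩)
            have h4 : 0 < X ^ (A * x * (τ + 2 * d) + η) := by positivity
            (clear * - h3 h4; linarith)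
          · have h5 : A * x ≤ 2 := (mul_le_mul_of_nonneg_left hxx hA).trans hAx
            have h6 : 0 ≤ 2 - A * τ := by
              by_contra hcon
              push Not at hcon
              have := mul_neg_of_neg_of_pos hcon hε
              (clear * - hη h1 this; linarith)
            have h7 : (2 - A * τ) * ε0 ≤ (2 - A * τ) * x := mul_le_mul_of_nonneg_left hx0 h6
            have h8 : A * x * (2 * d) ≤ 2 * (2 * d) := mul_le_mul_of_nonneg_right h5 (by (clear * - hd; linarith))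
            (clear * - hη h1 hd1 h7 h8; nlinarith)
        · refine ⟨τ + 2 * d, ?_, by (clear * - hη h2 hd1 hxx; linarith)⟩
          have h3 := card_spaced (by (clear * - hη hη1 hT0p; linarith)) hZ2 (fun ρ hρ => (hZ1 ρ hρ).2.2)
          (clear * - hT0p h3; linarith)
      obtain ⟨rr, hr1, hr2⟩ := hr
      have e1 : (U.card : ℝ) ≤ C * l ^ 14 * Z.card * T * X ^ (2 * (1 - x + η - 1)) := by
        have h3 : (U.card : ℝ) * (1 / l ^ 4) ^ 2 * l ^ 8 = U.card := by (clear * - hl10; field_simp)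
        calc (U.card : ℝ) = (U.card : ℝ) * (1 / l ^ 4) ^ 2 * l ^ 8 := h3.symm
          _ ≤ (C * (l ^ 2) ^ 2 * Z.card * l ^ 2 * T * X ^ (2 * (1 - x + η - 1))) * l ^ 8 :=
              mul_le_mul_of_nonneg_right key (by positivity)
          _ = _ := by ring
      exact by
        calc (U.card : ℝ) ≤ C * l ^ 14 * Z.card * T * X ^ (2 * (1 - x + η - 1)) := e1
          _ ≤ C * l ^ 14 * (6 * X ^ rr) * (2 * X ^ (τ + 2 * d)) * X ^ (2 * (1 - x + η - 1)) := by (clear * - hr1 hC hl10 hT2 hX0; gcongr)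
          _ = (12 * C * l ^ 14) * (X ^ rr * X ^ (τ + 2 * d) * X ^ (2 * (1 - x + η - 1))) := by ring
          _ ≤ X ^ η * (X ^ rr * X ^ (τ + 2 * d) * X ^ (2 * (1 - x + η - 1))) := by (clear * - hlog hX0; gcongr)
          _ = X ^ (η + (rr + (τ + 2 * d) + 2 * (1 - x + η - 1))) := by
              rw [← Real.rpow_add hX0, ← Real.rpow_add hX0, ← Real.rpow_add hX0]
          _ ≤ X ^ (τ - 30 * η) := Real.rpow_le_rpow_of_exponent_le hX1'.le (by (clear * - hr2; linarith))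

end Pool.Agent.M20.Helper1.KF
end

/- Helper53.KN.Helper46.KSZ.Final -/
section
/-!
KSZ, explicit formula part, final: `ExplicitCells` without hypotheses, and `BadZero` of helper60.
-/

set_option autoImplicit false
open Filter Topology MeasureTheory Complex
open scoped Classical

namespace Pool.Agent.M20.Helper46.KSZ

open Pool.Agent.M20.Helper10.QRH Pool.Agent.M20.Helper69.QRH

theorem gBound' : GBound :=
  Helper67.KSZ.E5.gBound (Helper55.KSZ.localLog Helper33.KSZ.jensenEZ)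
    (Helper67.KSZ.E4.farSum Helper33.KSZ.jensenEZ)

theorem cardBox' : CardBox := Helper67.KSZ.E4.cardBox Helper33.KSZ.jensenEZ

theorem explicitCells' : ExplicitCells :=
  explicitCells Helper33.KSZ.boxExists
    (Helper8.KSZ.shiftIter Helper79.QRH.kFacts
      (Helper8.KSZ.shift Helper79.QRH.kFacts gBound'
        (Helper48.KSZ.lineTwo Helper79.QRH.kFacts gBound')) Helper9.KSZ.kerFacts)
    (Helper18.KSZ.primeSide Helper9.KSZ.kerFacts)
    (Helper8.KSZ.lineFew Helper79.QRH.kFacts gBound' Helper52.QRH.duality)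
    (Helper18.KSZ.highZeros Helper79.QRH.kFacts cardBox')

lemma uu_range {d : ℝ} (hd : 0 < d) {k j : ℕ} (hj : j < 2 ^ (k - ee d k)) :
    Real.log (2 ^ k) ≤ uu d k j ∧ uu d k j ≤ Real.log (2 ^ k) + 1 ∧
      ((2 ^ k + j * 2 ^ ee d k : ℕ) : ℝ) + (2 : ℝ) ^ ee d k / 2 ≤ 2 * 2 ^ k := by
  have he := ee_le hd k
  have h1 : (j + 1) * 2 ^ ee d k ≤ 2 ^ k := by
    calc (j + 1) * 2 ^ ee d k ≤ 2 ^ (k - ee d k) * 2 ^ ee d k := Nat.mul_le_mul_right _ hj
      _ = 2 ^ k := by rw [← pow_add, Nat.sub_add_cancel he]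
  have h1r : ((j : ℝ) + 1) * 2 ^ ee d k ≤ 2 ^ k := by exact_mod_cast h1
  have hp : (0 : ℝ) < 2 ^ ee d k := by positivity
  have hpk : (0 : ℝ) < 2 ^ k := by positivity
  have hj0 : (0 : ℝ) ≤ j := j.cast_nonneg
  have hc : ((2 ^ k + j * 2 ^ ee d k : ℕ) : ℝ) + (2 : ℝ) ^ ee d k / 2 ≤ 2 * 2 ^ k := by
    push_cast
    (clear * - h1r hp; nlinarith)
  refine ⟨?_, ?_, hc⟩
  · unfold uu
    refine Real.log_le_log hpk ?_
    push_cast
    (clear * - hp hj0; nlinarith [mul_nonneg hj0 hp.le])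
  · unfold uu
    refine (Real.log_le_log (by (clear * -; positivity)) hc).trans ?_
    rw [Real.log_mul two_ne_zero hpk.ne']
    have := Real.log_two_lt_d9
    (clear * - this; linarith)

lemma uu_spacing {d : ℝ} (hd : 0 < d) {k : ℕ} (hk : 2 ≤ d * k) {j j' : ℕ}
    (hj : j < 2 ^ (k - ee d k)) (hj' : j' < 2 ^ (k - ee d k)) (hne : j < j') :
    1 / ((2 : ℝ) ^ k) ^ (1/2 + 2 * d) ≤ uu d k j' - uu d k j := by
  obtain ⟨-, -, h1⟩ := uu_range hd hj
  obtain ⟨-, -, h2⟩ := uu_range hd hj'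
  have hp : (0 : ℝ) < 2 ^ ee d k := by positivity
  have hpk : (0 : ℝ) < 2 ^ k := by positivity
  have hne' : (j : ℝ) + 1 ≤ j' := by exact_mod_cast hne
  set a : ℝ := ((2 ^ k + j * 2 ^ ee d k : ℕ) : ℝ) + (2 : ℝ) ^ ee d k / 2 with ha
  set b : ℝ := ((2 ^ k + j' * 2 ^ ee d k : ℕ) : ℝ) + (2 : ℝ) ^ ee d k / 2 with hb
  have ha0 : 0 < a := by (clear * -; positivity)
  have hb0 : 0 < b := by positivity
  have hab : a + 2 ^ ee d k ≤ b := by
    rw [ha, hb]; push_cast; (clear * - hp hne'; nlinarith)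
  have h3 : uu d k j' - uu d k j = - Real.log (a / b) := by
    unfold uu
    rw [← ha, ← hb, Real.log_div ha0.ne' hb0.ne']; ring
  have h4 : Real.log (a / b) ≤ a / b - 1 := Real.log_le_sub_one_of_pos (by (clear * -; positivity))
  have h5 : (2 : ℝ) ^ ee d k / (2 * 2 ^ k) ≤ 1 - a / b := by
    have : 1 - a / b = (b - a) / b := by (clear * - hb0; field_simp)
    rw [this]
    exact div_le_div₀ (by (clear * - hp hab; linarith)) (by (clear * - hab; linarith)) hb0 h2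
  rw [h3]
  refine le_trans ?_ (h5.trans (by (clear * - h4; linarith)))
  -- exponents
  have e1 : ((2 : ℝ) ^ k) ^ (1/2 + 2 * d) = (2 : ℝ) ^ ((k : ℝ) * (1/2 + 2 * d)) := by
    rw [← Real.rpow_natCast 2 k, ← Real.rpow_mul (by norm_num)]
  have e2 : (2 : ℝ) ^ ee d k = (2 : ℝ) ^ ((ee d k : ℕ) : ℝ) := (Real.rpow_natCast 2 _).symm
  have e3 : (2 : ℝ) * 2 ^ k = (2 : ℝ) ^ ((k : ℝ) + 1) := by
    rw [Real.rpow_add_one (by norm_num), Real.rpow_natCast]; ring
  have hfl : (k : ℝ) * (1/2 - d) - 1 < (ee d k : ℝ) := by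
    have := Nat.lt_floor_add_one ((k : ℝ) * (1/2 - d))
    unfold ee
    (clear * - this; linarith)
  rw [e1, e2, e3, ← Real.rpow_sub (by norm_num), one_div, ← Real.rpow_neg (by norm_num)]
  refine Real.rpow_le_rpow_of_exponent_le (by norm_num) ?_
  (clear * - hk hfl; nlinarith)

end Pool.Agent.M20.Helper46.KSZ
end

/- Helper53.KN.Helper60.KG.Final -/
section
/-! KG-1: `BadZeroG w`, unconditional -/

set_option autoImplicit false
open Filter Topology MeasureTheory Complex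
open scoped Classical

namespace Pool.Agent.M20.Helper60.KG

open Pool.Agent.M20.Helper10.QRH Pool.Agent.M20.Helper69.QRH Pool.Agent.M20.Helper46.KSZ

lemma uu_rangeG {d : ℝ} (hd : -(1 / 2) ≤ d) {k j : ℕ} (hj : j < 2 ^ (k - Pool.Agent.M20.Helper46.KSZ.ee d k)) :
    Real.log (2 ^ k) ≤ uu d k j ∧ uu d k j ≤ Real.log (2 ^ k) + 1 ∧
      ((2 ^ k + j * 2 ^ Pool.Agent.M20.Helper46.KSZ.ee d k : ℕ) : ℝ) + (2 : ℝ) ^ Pool.Agent.M20.Helper46.KSZ.ee d k / 2 ≤ 2 * 2 ^ k := by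
  have he := ee_leG hd k
  have h1 : (j + 1) * 2 ^ Pool.Agent.M20.Helper46.KSZ.ee d k ≤ 2 ^ k := by
    calc (j + 1) * 2 ^ Pool.Agent.M20.Helper46.KSZ.ee d k ≤ 2 ^ (k - Pool.Agent.M20.Helper46.KSZ.ee d k) * 2 ^ Pool.Agent.M20.Helper46.KSZ.ee d k := Nat.mul_le_mul_right _ hj
      _ = 2 ^ k := by rw [← pow_add, Nat.sub_add_cancel he]
  have h1r : ((j : ℝ) + 1) * 2 ^ Pool.Agent.M20.Helper46.KSZ.ee d k ≤ 2 ^ k := by exact_mod_cast h1
  have hp : (0 : ℝ) < 2 ^ Pool.Agent.M20.Helper46.KSZ.ee d k := by positivity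
  have hpk : (0 : ℝ) < 2 ^ k := by positivity
  have hj0 : (0 : ℝ) ≤ j := j.cast_nonneg
  have hc : ((2 ^ k + j * 2 ^ Pool.Agent.M20.Helper46.KSZ.ee d k : ℕ) : ℝ) + (2 : ℝ) ^ Pool.Agent.M20.Helper46.KSZ.ee d k / 2 ≤ 2 * 2 ^ k := by
    push_cast
    (clear * - h1r hp; nlinarith)
  refine ⟨?_, ?_, hc⟩
  · unfold uu
    refine Real.log_le_log hpk ?_
    push_cast
    (clear * - hp hj0; nlinarith [mul_nonneg hj0 hp.le])
  · unfold uu
    refine (Real.log_le_log (by (clear * -; positivity)) hc).trans ?_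
    rw [Real.log_mul two_ne_zero hpk.ne']
    have := Real.log_two_lt_d9
    (clear * - this; linarith)

lemma uu_spacingG {d η : ℝ} (hd : -(1 / 2) ≤ d) {k : ℕ} (hk : 2 ≤ η * k) {j j' : ℕ}
    (hj : j < 2 ^ (k - Pool.Agent.M20.Helper46.KSZ.ee d k)) (hj' : j' < 2 ^ (k - Pool.Agent.M20.Helper46.KSZ.ee d k)) (hne : j < j') :
    1 / ((2 : ℝ) ^ k) ^ (1/2 + d + η) ≤ uu d k j' - uu d k j := by
  obtain ⟨-, -, h1⟩ := uu_rangeG hd hj
  obtain ⟨-, -, h2⟩ := uu_rangeG hd hj'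
  have hp : (0 : ℝ) < 2 ^ Pool.Agent.M20.Helper46.KSZ.ee d k := by positivity
  have hpk : (0 : ℝ) < 2 ^ k := by positivity
  have hne' : (j : ℝ) + 1 ≤ j' := by exact_mod_cast hne
  set a : ℝ := ((2 ^ k + j * 2 ^ Pool.Agent.M20.Helper46.KSZ.ee d k : ℕ) : ℝ) + (2 : ℝ) ^ Pool.Agent.M20.Helper46.KSZ.ee d k / 2 with ha
  set b : ℝ := ((2 ^ k + j' * 2 ^ Pool.Agent.M20.Helper46.KSZ.ee d k : ℕ) : ℝ) + (2 : ℝ) ^ Pool.Agent.M20.Helper46.KSZ.ee d k / 2 with hb
  have ha0 : 0 < a := by (clear * -; positivity)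
  have hb0 : 0 < b := by positivity
  have hab : a + 2 ^ Pool.Agent.M20.Helper46.KSZ.ee d k ≤ b := by
    rw [ha, hb]; push_cast; (clear * - hp hne'; nlinarith)
  have h3 : uu d k j' - uu d k j = - Real.log (a / b) := by
    unfold uu
    rw [← ha, ← hb, Real.log_div ha0.ne' hb0.ne']; ring
  have h4 : Real.log (a / b) ≤ a / b - 1 := Real.log_le_sub_one_of_pos (by (clear * -; positivity))
  have h5 : (2 : ℝ) ^ Pool.Agent.M20.Helper46.KSZ.ee d k / (2 * 2 ^ k) ≤ 1 - a / b := by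
    have : 1 - a / b = (b - a) / b := by (clear * - hb0; field_simp)
    rw [this]
    exact div_le_div₀ (by (clear * - hp hab; linarith)) (by (clear * - hab; linarith)) hb0 h2
  rw [h3]
  refine le_trans ?_ (h5.trans (by (clear * - h4; linarith)))
  -- exponents
  have e1 : ((2 : ℝ) ^ k) ^ (1/2 + d + η) = (2 : ℝ) ^ ((k : ℝ) * (1/2 + d + η)) := by
    rw [← Real.rpow_natCast 2 k, ← Real.rpow_mul (by norm_num)]
  have e2 : (2 : ℝ) ^ Pool.Agent.M20.Helper46.KSZ.ee d k = (2 : ℝ) ^ ((Pool.Agent.M20.Helper46.KSZ.ee d k : ℕ) : ℝ) := (Real.rpow_natCast 2 _).symm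
  have e3 : (2 : ℝ) * 2 ^ k = (2 : ℝ) ^ ((k : ℝ) + 1) := by
    rw [Real.rpow_add_one (by norm_num), Real.rpow_natCast]; ring
  have hfl : (k : ℝ) * (1/2 - d) - 1 < (Pool.Agent.M20.Helper46.KSZ.ee d k : ℝ) := by
    have := Nat.lt_floor_add_one ((k : ℝ) * (1/2 - d))
    unfold Pool.Agent.M20.Helper46.KSZ.ee
    (clear * - this; linarith)
  rw [e1, e2, e3, ← Real.rpow_sub (by norm_num), one_div, ← Real.rpow_neg (by norm_num)]
  refine Real.rpow_le_rpow_of_exponent_le (by norm_num) ?_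
  (clear * - hk hfl; nlinarith)

theorem explicitCellsG' : ExplicitCellsG :=
  explicitCellsG Helper33.KSZ.boxExists
    (Helper8.KSZ.shiftIter Helper79.QRH.kFacts
      (Helper8.KSZ.shift Helper79.QRH.kFacts gBound'
        (Helper48.KSZ.lineTwo Helper79.QRH.kFacts gBound')) Helper9.KSZ.kerFacts)
    (primeSideG Helper9.KSZ.kerFacts)
    (lineFewG Helper79.QRH.kFacts gBound' Helper52.QRH.duality)
    (highZerosG Helper79.QRH.kFacts cardBox')

lemma ee_eq_ecw (w d : ℝ) (k : ℕ) : Pool.Agent.M20.Helper46.KSZ.ee (d - w) k = Helper60.KS.ecw w d k := by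
  unfold Pool.Agent.M20.Helper46.KSZ.ee Helper60.KS.ecw
  congr 1
  ring

/-- explicit formula for cells of length `2^(ecw w d k)` -/
theorem badZeroG {w : ℝ} (hw0 : 0 ≤ w) (hw : w ≤ 1 / 2) : Helper60.KS.BadZeroG w := by
  intro d hd0 hd
  obtain ⟨c₀, hc₀, K, hK⟩ := explicitCellsG' (d - w) d (by (clear * - hw hd0; linarith)) (by (clear * - hw0 hd; linarith)) hd0 (by (clear * - hd0 hd; linarith))
  refine ⟨c₀, hc₀, max K ⌈2 / d⌉₊, fun k hk => ?_⟩
  obtain ⟨c, Ex, hc, hEx, hall⟩ := hK k ((le_max_left _ _).trans hk)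
  have hdw : -(1 / 2) ≤ d - w := by (clear * - hw hd0; linarith)
  have hexp : 1 / 2 + (d - w) + d = 1 / 2 - w + 2 * d := by ring
  have hdk : 2 ≤ d * k := by
    have h1 : (⌈2 / d⌉₊ : ℝ) ≤ k := by exact_mod_cast (le_max_right _ _).trans hk
    have h2 := (Nat.le_ceil (2 / d)).trans h1
    rw [div_le_iff₀ hd0] at h2
    (clear * - h2; linarith)
  have hpow : ∀ x : ℝ, ((2 : ℝ) ^ k) ^ x = (2 : ℝ) ^ (x * k) := by
    intro x
    rw [← Real.rpow_natCast 2 k, ← Real.rpow_mul (by norm_num), mul_comm]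
  rw [hexp] at hall
  rw [← ee_eq_ecw w d k]
  have hmem : ∀ ρ, ρ ∈ (zeroSetG_finite (1 / 2 - w + 2 * d) k).toFinset ↔
      ρ ∈ zeroSetG (1 / 2 - w + 2 * d) k := fun ρ => by simp
  refine ⟨(zeroSetG_finite (1 / 2 - w + 2 * d) k).toFinset, c, uu (d - w) k, Ex, ?_, ?_, ?_, ?_, ?_, ?_⟩
  · intro ρ hρ
    obtain ⟨h0, h1, h2⟩ := (hmem ρ).1 hρ
    refine ⟨h0, by norm_num at h1 ⊢; exact h1, ?_⟩
    rw [hpow]
    (clear * - hd0 hd h2; linarith)
  · intro ρ hρ
    obtain ⟨h0, h1, h2⟩ := (hmem ρ).1 hρ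
    refine hc ρ (by (clear * - hd0 hd h1; linarith)) ?_
    by_contra hcon
    exact riemannZeta_ne_zero_of_one_le_re (not_le.1 hcon).le h0
  · intro j hj
    obtain ⟨h1, h2, -⟩ := uu_rangeG hdw (j := j) (k := k) hj
    exact ⟨h1, h2⟩
  · intro j hj j' hj' hne
    rw [← hexp]
    rcases lt_or_gt_of_ne hne with h | h
    · refine (uu_spacingG hdw hdk hj hj' h).trans ?_
      rw [abs_sub_comm]
      exact le_abs_self _
    · exact (uu_spacingG hdw hdk hj' hj h).trans (le_abs_self _)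
  · rw [hpow]
    refine hEx.trans (le_of_eq ?_)
    congr 1
    ring
  · intro j hj hjE hfew
    have h := hall j hj hjE hfew _ hmem
    refine le_trans (by norm_num) h

end Pool.Agent.M20.Helper60.KG
end

/- Helper53.KN.Helper1.KL.Final -/
section
/-!
# The explicit formula for cells of length `2^⌊k (1/2 + w - d)⌋`, `-0.33 ≤ w ≤ 1/2`

Adapted from `Helper60/KG/Final.lean` (helper60).
-/

set_option autoImplicit false
open Filter Topology MeasureTheory Complex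
open scoped Classical

namespace Pool.Agent.M20.Helper1.KL

open Pool.Agent.M20.Helper10.QRH Pool.Agent.M20.Helper69.QRH
open Pool.Agent.M20.Helper60.KG (uu_rangeG uu_spacingG ee_eq_ecw)

lemma zeroSetN_finite (s : ℝ) (k : ℕ) : (zeroSetG s k).Finite := by
  have hcomp : IsCompact (Set.Icc (57 / 100 : ℝ) 1 ×ℂ Set.Icc (-(2 : ℝ) ^ (s * k)) ((2 : ℝ) ^ (s * k))) :=
    isCompact_Icc.reProdIm isCompact_Icc
  refine hcomp.inter_riemannZetaZeros_finite.subset ?_
  rintro ρ ⟨h1, h2, h3⟩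
  refine ⟨?_, mem_riemannZetaZeros.2 h1⟩
  rw [Complex.mem_reProdIm]
  refine ⟨⟨h2.le, ?_⟩, abs_le.1 h3⟩
  by_contra h
  exact riemannZeta_ne_zero_of_one_le_re (not_le.1 h).le h1

theorem explicitCellsN : ExplicitCellsG := by
  have hJ := Helper33.KSZ.jensenEZ
  have hG : GBound := gBound (localLog hJ) (farSum hJ)
  exact explicitCellsG boxExists
    (shiftIter Helper79.QRH.kFacts
      (shift Helper79.QRH.kFacts hG (lineTwo Helper79.QRH.kFacts hG)) Helper9.KSZ.kerFacts)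
    (primeSideG Helper9.KSZ.kerFacts)
    (lineFewG Helper79.QRH.kFacts hG Helper52.QRH.duality)
    (highZerosG Helper79.QRH.kFacts (cardBox hJ))

/-- explicit formula for cells of length `2^(ecw w d k)`, line `0.575`; `w` may be negative -/
def BadZeroN (w : ℝ) : Prop := ∀ d : ℝ, 0 < d → d ≤ 1/100 → ∃ c0 : ℝ, 0 < c0 ∧ ∃ K : ℕ, ∀ k : ℕ, K ≤ k →
  ∃ (F : Finset ℂ) (c : ℂ → ℂ) (u : ℕ → ℝ) (Exc : Finset ℕ),
  (∀ ρ ∈ F, riemannZeta ρ = 0 ∧ 0.57 < ρ.re ∧ |ρ.im| ≤ ((2 : ℝ) ^ k) ^ (1/2 - w + 2 * d) + 1) ∧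
  (∀ ρ ∈ F, ‖c ρ‖ ≤ 2) ∧
  (∀ j < 2 ^ (k - Helper60.KS.ecw w d k), Real.log (2 ^ k) ≤ u j ∧ u j ≤ Real.log (2 ^ k) + 1) ∧
  (∀ j < 2 ^ (k - Helper60.KS.ecw w d k), ∀ j' < 2 ^ (k - Helper60.KS.ecw w d k), j ≠ j' →
    1 / ((2 : ℝ) ^ k) ^ (1/2 - w + 2 * d) ≤ |u j - u j'|) ∧
  (Exc.card : ℝ) ≤ ((2 : ℝ) ^ k) ^ (0.15 - 2 * w + 5 * d) ∧
  ∀ j < 2 ^ (k - Helper60.KS.ecw w d k), j ∉ Exc →
    (Helper60.KS.npr k (Helper60.KS.ecw w d k) j : ℝ) < c0 * 2 ^ Helper60.KS.ecw w d k / k →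
    1/2 ≤ ‖∑ ρ ∈ F, (Helper60.KS.mz ρ : ℂ) * c ρ * Complex.exp ((ρ - 1) * (u j : ℂ))‖

/-- explicit formula for cells of length `2^(ecw w d k)` -/
theorem badZeroN {w : ℝ} (hw0 : -(33 / 100) ≤ w) (hw : w ≤ 1 / 2) : BadZeroN w := by
  intro d hd0 hd
  obtain ⟨c₀, hc₀, K, hK⟩ := explicitCellsN (d - w) d (by linarith) (by linarith) hd0 (by linarith)
  refine ⟨c₀, hc₀, max K ⌈2 / d⌉₊, fun k hk => ?_⟩
  obtain ⟨c, Ex, hc, hEx, hall⟩ := hK k ((le_max_left _ _).trans hk)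
  have hdw : -(1 / 2) ≤ d - w := by linarith
  have hexp : 1 / 2 + (d - w) + d = 1 / 2 - w + 2 * d := by ring
  have hdk : 2 ≤ d * k := by
    have h1 : (⌈2 / d⌉₊ : ℝ) ≤ k := by exact_mod_cast (le_max_right _ _).trans hk
    have h2 := (Nat.le_ceil (2 / d)).trans h1
    rw [div_le_iff₀ hd0] at h2
    linarith
  have hpow : ∀ x : ℝ, ((2 : ℝ) ^ k) ^ x = (2 : ℝ) ^ (x * k) := by
    intro x
    rw [← Real.rpow_natCast 2 k, ← Real.rpow_mul (by norm_num), mul_comm]
  rw [hexp] at hall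
  rw [← ee_eq_ecw w d k]
  have hmem : ∀ ρ, ρ ∈ (zeroSetN_finite (1 / 2 - w + 2 * d) k).toFinset ↔
      ρ ∈ zeroSetG (1 / 2 - w + 2 * d) k := fun ρ => by simp
  refine ⟨(zeroSetN_finite (1 / 2 - w + 2 * d) k).toFinset, c, uu (d - w) k, Ex, ?_, ?_, ?_, ?_, ?_, ?_⟩
  · intro ρ hρ
    obtain ⟨h0, h1, h2⟩ := (hmem ρ).1 hρ
    refine ⟨h0, by norm_num at h1 ⊢; exact h1, ?_⟩
    rw [hpow]
    linarith
  · intro ρ hρ
    obtain ⟨h0, h1, h2⟩ := (hmem ρ).1 hρ
    refine hc ρ (by linarith) ?_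
    by_contra hcon
    exact riemannZeta_ne_zero_of_one_le_re (not_le.1 hcon).le h0
  · intro j hj
    obtain ⟨h1, h2, -⟩ := uu_rangeG hdw (j := j) (k := k) hj
    exact ⟨h1, h2⟩
  · intro j hj j' hj' hne
    rw [← hexp]
    rcases lt_or_gt_of_ne hne with h | h
    · refine (uu_spacingG hdw hdk hj hj' h).trans ?_
      rw [abs_sub_comm]
      exact le_abs_self _
    · exact (uu_spacingG hdw hdk hj' hj h).trans (le_abs_self _)
  · rw [hpow]
    refine hEx.trans (le_of_eq ?_)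
    congr 1
    ring
  · intro j hj hjE hfew
    have h := hall j hj hjE hfew _ hmem
    refine le_trans (by norm_num) h

end Pool.Agent.M20.Helper1.KL
end

/- Helper53.KN.Helper18.KSZ.N1 -/
section
/-!
# N1: existence of the sieve weights
-/

set_option autoImplicit false

open Finset

namespace Pool.Agent.M20.Helper18.KSZ

/-- N1 -/
theorem sieveWeights (h1 : LamBasic) (h2 : LamSmall) (h3 : LamMean) : SieveWeights := by
  obtain ⟨b, hb⟩ := h2
  obtain ⟨C, hC, hm⟩ := h3 b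
  refine ⟨((4 * b + 4 : ℕ) : ℝ), C, ?_, hC, fun w hw => ⟨lamE b w, ?_⟩⟩
  · have : (1 : ℕ) ≤ 4 * b + 4 := by omega
    exact_mod_cast this
  obtain ⟨e1, e2, e3, e4, _⟩ := h1 b w hw
  exact ⟨e1, e2, e3, e4, fun x hx hwx S hS => hb b le_rfl w hw x hx hwx S hS, hm w hw⟩

end Pool.Agent.M20.Helper18.KSZ
end

/- Helper53.KN.Helper18.KSZ.N11 -/
section
/-!
# N11: well spaced points
-/

set_option autoImplicit false

open Finset

namespace Pool.Agent.M20.Helper18.KSZ

/-- sum of inverse squares of positive integers in a finite set -/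
lemma sum_inv_sq_le_two (s : Finset ℕ) (h : ∀ n ∈ s, 0 < n) : ∑ n ∈ s, ((n : ℝ) ^ 2)⁻¹ ≤ 2 := by
  have h1 : s ⊆ Finset.Ioo 0 (s.sup id + 1) := by
    intro n hn
    rw [Finset.mem_Ioo]
    exact ⟨h n hn, Nat.lt_succ_of_le (Finset.le_sup (f := id) hn)⟩
  refine (Finset.sum_le_sum_of_subset_of_nonneg h1 fun n _ _ => by positivity).trans ?_
  have h2 := sum_Ioo_inv_sq_le (α := ℝ) 0 (s.sup id + 1)
  simpa using h2

/-- one side -/
lemma spaced_side {δ : ℝ} (hδ : 0 < δ) (G : Finset ℂ) (v : ℂ → ℝ) (h1 : ∀ z ∈ G, δ ≤ v z)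
    (h2 : ∀ z ∈ G, ∀ z' ∈ G, z ≠ z' → δ ≤ |v z - v z'|) :
    ∑ z ∈ G, 1 / (v z) ^ 2 ≤ 2 / δ ^ 2 := by
  classical
  set k : ℂ → ℕ := fun z => ⌊v z / δ⌋₊ with hk
  have hkpos : ∀ z ∈ G, 0 < k z := by
    intro z hz
    rw [hk]
    apply Nat.floor_pos.mpr
    rw [le_div_iff₀ hδ, one_mul]
    exact h1 z hz
  have hinj : Set.InjOn k (G : Set ℂ) := by
    intro z hz z' hz' heq
    by_contra hne
    have h3 := h2 z hz z' hz' hne
    have hv : 0 ≤ v z / δ := div_nonneg (hδ.le.trans (h1 z hz)) hδ.le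
    have hv' : 0 ≤ v z' / δ := div_nonneg (hδ.le.trans (h1 z' hz')) hδ.le
    have a1 := Nat.floor_le hv
    have a2 := Nat.lt_floor_add_one (v z / δ)
    have a3 := Nat.floor_le hv'
    have a4 := Nat.lt_floor_add_one (v z' / δ)
    have heq' : (⌊v z / δ⌋₊ : ℝ) = (⌊v z' / δ⌋₊ : ℝ) := by
      have : ⌊v z / δ⌋₊ = ⌊v z' / δ⌋₊ := heq
      rw [this]
    have a5 : |v z / δ - v z' / δ| < 1 := by
      rw [abs_lt]
      constructor <;> linarith
    rw [← sub_div, abs_div, abs_of_pos hδ, div_lt_one hδ] at a5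
    linarith
  calc ∑ z ∈ G, 1 / (v z) ^ 2 ≤ ∑ z ∈ G, ((k z : ℝ) ^ 2)⁻¹ * (1 / δ ^ 2) := by
        apply Finset.sum_le_sum
        intro z hz
        have h3 : (0 : ℝ) < k z := by exact_mod_cast hkpos z hz
        have h4 : (k z : ℝ) ≤ v z / δ :=
          Nat.floor_le (div_nonneg (hδ.le.trans (h1 z hz)) hδ.le)
        have h5 : (k z : ℝ) * δ ≤ v z := (le_div_iff₀ hδ).mp h4
        have h6 : 0 < (k z : ℝ) * δ := by positivity
        calc 1 / (v z) ^ 2 ≤ 1 / ((k z : ℝ) * δ) ^ 2 := by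
              apply one_div_le_one_div_of_le (by positivity)
              exact pow_le_pow_left₀ h6.le h5 2
          _ = _ := by
              field_simp
    _ = (∑ z ∈ G, ((k z : ℝ) ^ 2)⁻¹) * (1 / δ ^ 2) := by rw [Finset.sum_mul]
    _ = (∑ n ∈ G.image k, ((n : ℝ) ^ 2)⁻¹) * (1 / δ ^ 2) := by
        rw [Finset.sum_image hinj]
    _ ≤ 2 * (1 / δ ^ 2) := by
        apply mul_le_mul_of_nonneg_right _ (by positivity)
        apply sum_inv_sq_le_two
        intro n hn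
        rw [Finset.mem_image] at hn
        obtain ⟨z, hz, rfl⟩ := hn
        exact hkpos z hz
    _ = 2 / δ ^ 2 := by ring

/-- N11 -/
theorem spaced : Spaced := by
  classical
  intro δ hδ Γ hΓ ρ hρ
  have hne : ∀ ρ' ∈ Γ.erase ρ, δ ≤ |ρ.im - ρ'.im| := by
    intro ρ' hρ'
    exact hΓ ρ hρ ρ' (Finset.mem_of_mem_erase hρ') (Finset.ne_of_mem_erase hρ').symm
  rw [← Finset.sum_filter_add_sum_filter_not (Γ.erase ρ) (fun ρ' => ρ'.im ≤ ρ.im)]
  have e1 : ∑ ρ' ∈ (Γ.erase ρ).filter (fun ρ' => ρ'.im ≤ ρ.im), 1 / (ρ.im - ρ'.im) ^ 2 ≤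
      2 / δ ^ 2 := by
    apply spaced_side hδ _ (fun z => ρ.im - z.im)
    · intro z hz
      rw [Finset.mem_filter] at hz
      have h1 := hne z hz.1
      rwa [abs_of_nonneg (by linarith [hz.2])] at h1
    · intro z hz z' hz' hzz
      rw [Finset.mem_filter] at hz hz'
      have h1 := hΓ z (Finset.mem_of_mem_erase hz.1) z' (Finset.mem_of_mem_erase hz'.1) hzz
      have : ρ.im - z.im - (ρ.im - z'.im) = -(z.im - z'.im) := by ring
      rw [this, abs_neg]
      exact h1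
  have e2 : ∑ ρ' ∈ (Γ.erase ρ).filter (fun ρ' => ¬ ρ'.im ≤ ρ.im), 1 / (ρ.im - ρ'.im) ^ 2 ≤
      2 / δ ^ 2 := by
    have e3 : ∑ ρ' ∈ (Γ.erase ρ).filter (fun ρ' => ¬ ρ'.im ≤ ρ.im), 1 / (ρ.im - ρ'.im) ^ 2 =
        ∑ ρ' ∈ (Γ.erase ρ).filter (fun ρ' => ¬ ρ'.im ≤ ρ.im), 1 / (ρ'.im - ρ.im) ^ 2 := by
      refine Finset.sum_congr rfl fun z _ => ?_
      congr 1
      ring
    rw [e3]
    apply spaced_side hδ _ (fun z => z.im - ρ.im)
    · intro z hz
      rw [Finset.mem_filter] at hz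
      have h1 := hne z hz.1
      rw [abs_sub_comm, abs_of_nonneg (by linarith [not_le.mp hz.2])] at h1
      exact h1
    · intro z hz z' hz' hzz
      rw [Finset.mem_filter] at hz hz'
      have h1 := hΓ z (Finset.mem_of_mem_erase hz.1) z' (Finset.mem_of_mem_erase hz'.1) hzz
      have : z.im - ρ.im - (z'.im - ρ.im) = z.im - z'.im := by ring
      rw [this]
      exact h1
  calc _ ≤ 2 / δ ^ 2 + 2 / δ ^ 2 := add_le_add e1 e2
    _ = 4 / δ ^ 2 := by ring

end Pool.Agent.M20.Helper18.KSZ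
end

/- Helper53.KN.Helper36.KSZ.N2 -/
section
/-!
# Project KSZ, N2: coefficients of the mollified zeta function
-/

set_option autoImplicit false

open Finset

namespace Pool.Agent.M20.Helper36.KSZ

open Pool.Agent.M20.Helper18.KSZ Pool.Agent.M20.Helper44

section basic

variable {w : ℝ}

lemma smooth_iff (hw : 0 ≤ w) {n : ℕ} : smooth w n ↔ ∀ p : ℕ, p.Prime → p ∣ n → p ≤ ⌊w⌋₊ := by
  unfold smooth
  constructor
  · intro h p hp hpn; exact (Nat.le_floor_iff hw).mpr (h p hp hpn)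
  · intro h p hp hpn; exact (Nat.le_floor_iff hw).mp (h p hp hpn)

lemma rough_iff (hw : 0 ≤ w) {n : ℕ} : rough w n ↔ ∀ p : ℕ, p.Prime → p ∣ n → ⌊w⌋₊ < p := by
  unfold rough
  constructor
  · intro h p hp hpn; exact (Nat.floor_lt hw).mpr (h p hp hpn)
  · intro h p hp hpn; exact (Nat.floor_lt hw).mp (h p hp hpn)

lemma smooth_sm (hw : 0 ≤ w) (n : ℕ) : smooth w (sm ⌊w⌋₊ n) := by
  rw [smooth_iff hw]
  intro p hp h
  exact (prime_dvd_sm hp h).1

lemma rough_ro (hw : 0 ≤ w) (n : ℕ) : rough w (ro ⌊w⌋₊ n) := by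
  rw [rough_iff hw]
  intro p hp h
  exact (prime_dvd_ro hp h).1

lemma coprime_sr {a m : ℕ} (ha : smooth w a) (hm : rough w m) : Nat.Coprime a m := by
  refine Nat.coprime_of_dvd (fun p hp h1 h2 => ?_)
  exact absurd (ha p hp h1) (not_le.mpr (hm p hp h2))

lemma sm_eq (hw : 0 ≤ w) {a m : ℕ} (ha0 : a ≠ 0) (hm0 : m ≠ 0) (ha : smooth w a) (hm : rough w m) :
    sm ⌊w⌋₊ (a * m) = a ∧ ro ⌊w⌋₊ (a * m) = m := by
  have h1 := sm_unique ha0 hm0 ((smooth_iff hw).mp ha) ((rough_iff hw).mp hm)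
  have h2 : sm ⌊w⌋₊ (a * m) * ro ⌊w⌋₊ (a * m) = a * m := sm_mul_ro (mul_ne_zero ha0 hm0)
  refine ⟨h1.symm, ?_⟩
  rw [← h1] at h2
  exact Nat.eq_of_mul_eq_mul_left (Nat.pos_of_ne_zero ha0) h2

lemma rough_of_dvd {a b : ℕ} (hb : rough w b) (h : a ∣ b) : rough w a :=
  fun p hp hpa => hb p hp (hpa.trans h)

end basic

section coef

variable {K C w : ℝ} {lam : ℕ → ℝ}

lemma mur_ne {D : ℝ} {d : ℕ} (h : mur w D d ≠ 0) : rough w d ∧ (d : ℝ) ≤ D := by
  unfold mur at h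
  split_ifs at h with h1
  · exact h1
  · exact absurd rfl h

lemma abs_mur_le (D : ℝ) (d : ℕ) : |mur w D d| ≤ 1 := by
  unfold mur
  split_ifs with h1
  · have := @ArithmeticFunction.abs_moebius_le_one d
    exact_mod_cast this
  · simp

/-- the convolution has one term only -/
lemma cc_eq (hw : 0 ≤ w) (hS : SW K C w lam) (D : ℝ) {d : ℕ} (hd : d ≠ 0) :
    cc lam w D d = lam (sm ⌊w⌋₊ d) * mur w D (ro ⌊w⌋₊ d) := by
  unfold cc
  rw [Finset.sum_eq_single (sm ⌊w⌋₊ d, ro ⌊w⌋₊ d)]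
  · rintro ⟨a, m⟩ hx hne
    rw [Nat.mem_divisorsAntidiagonal] at hx
    by_contra hcon
    have h1 : lam a ≠ 0 := left_ne_zero_of_mul hcon
    have h2 : mur w D m ≠ 0 := right_ne_zero_of_mul hcon
    have ha := (hS.supp a h1).2.1
    have hm := (mur_ne h2).1
    have ha0 : a ≠ 0 := by rintro rfl; exact hx.2 (by rw [← hx.1]; simp)
    have hm0 : m ≠ 0 := by rintro rfl; exact hx.2 (by rw [← hx.1]; simp)
    obtain ⟨e1, e2⟩ := sm_eq hw ha0 hm0 ha hm
    have hx1 : a * m = d := hx.1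
    rw [hx1] at e1 e2
    exact hne (by rw [e1, e2])
  · intro h
    exact absurd (Nat.mem_divisorsAntidiagonal.mpr ⟨sm_mul_ro hd, hd⟩) h

lemma bet_mul (hS : SW K C w lam) {a m : ℕ} (ha : 0 < a) (hm : 0 < m) (hr : rough w m) :
    bet lam (a * m) = bet lam a := by
  unfold bet
  symm
  refine Finset.sum_subset (Nat.divisors_subset_of_dvd (by positivity) (Dvd.intro _ rfl)) ?_
  intro d hd hda
  by_contra hne
  have hs := (hS.supp d hne).2.1
  have hcop := coprime_sr hs hr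
  rw [Nat.mem_divisors] at hd
  exact hda (Nat.mem_divisors.mpr ⟨hcop.dvd_of_dvd_mul_right hd.1, ha.ne'⟩)

lemma alp_mul {D : ℝ} {a m : ℕ} (ha : 0 < a) (hm : 0 < m) (hs : smooth w a) :
    alp w D (a * m) = alp w D m := by
  unfold alp
  symm
  refine Finset.sum_subset (Nat.divisors_subset_of_dvd (by positivity) (Dvd.intro_left _ rfl)) ?_
  intro d hd hda
  by_contra hne
  have hr := (mur_ne hne).1
  have hcop := (coprime_sr hs hr).symm
  rw [Nat.mem_divisors] at hd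
  exact hda (Nat.mem_divisors.mpr ⟨hcop.dvd_of_dvd_mul_left hd.1, hm.ne'⟩)

lemma sum_moebius_divisors {m : ℕ} (hm : m ≠ 0) :
    ∑ d ∈ m.divisors, (ArithmeticFunction.moebius d : ℝ) = if m = 1 then 1 else 0 := by
  have h : ((ArithmeticFunction.moebius : ArithmeticFunction ℤ) *
      (ArithmeticFunction.zeta : ArithmeticFunction ℤ)) m = (1 : ArithmeticFunction ℤ) m := by
    rw [ArithmeticFunction.moebius_mul_coe_zeta]
  rw [ArithmeticFunction.coe_mul_zeta_apply, ArithmeticFunction.one_apply] at h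
  have h2 : ((∑ d ∈ m.divisors, ArithmeticFunction.moebius d : ℤ) : ℝ) =
      (((if m = 1 then 1 else 0 : ℤ)) : ℝ) := by rw [h]
  push_cast at h2
  exact h2

lemma alp_small {D : ℝ} (hw : 0 ≤ w) {n : ℕ} (hn : 0 < n) (hD : (n : ℝ) ≤ D) :
    alp w D n = if ro ⌊w⌋₊ n = 1 then 1 else 0 := by
  have hdec : sm ⌊w⌋₊ n * ro ⌊w⌋₊ n = n := sm_mul_ro hn.ne'
  have h1 : alp w D n = alp w D (ro ⌊w⌋₊ n) := by
    conv_lhs => rw [← hdec]
    exact alp_mul (sm_pos _ _) (ro_pos _ _) (smooth_sm hw n)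
  rw [h1, ← sum_moebius_divisors (ro_pos _ _).ne']
  unfold alp
  refine Finset.sum_congr rfl (fun d hd => ?_)
  rw [Nat.mem_divisors] at hd
  unfold mur
  rw [if_pos]
  refine ⟨rough_of_dvd (rough_ro hw n) hd.1, le_trans ?_ hD⟩
  have : d ∣ n := hd.1.trans ⟨_, by rw [mul_comm]; exact hdec.symm⟩
  exact_mod_cast Nat.le_of_dvd hn this

lemma abs_alp_le {D : ℝ} {m : ℕ} (hm : 0 < m) : |alp w D m| ≤ 2 ^ m.primeFactors.card := by
  classical
  have h1 : |alp w D m| ≤ ∑ d ∈ m.divisors, (if Squarefree d then (1 : ℝ) else 0) := by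
    unfold alp
    refine (Finset.abs_sum_le_sum_abs _ _).trans (Finset.sum_le_sum (fun d _ => ?_))
    split_ifs with h
    · exact abs_mur_le D d
    · unfold mur
      rw [ArithmeticFunction.moebius_eq_zero_of_not_squarefree h]
      simp
  refine h1.trans ?_
  rw [← Finset.sum_filter, Finset.sum_const, nsmul_eq_mul, mul_one]
  have h2 : (m.divisors.filter Squarefree).card ≤ m.primeFactors.powerset.card := by
    refine Finset.card_le_card_of_injOn (fun d => d.primeFactors) ?_ ?_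
    · intro d hd
      rw [Finset.mem_coe, Finset.mem_filter, Nat.mem_divisors] at hd
      exact Finset.mem_coe.mpr (Finset.mem_powerset.mpr (Nat.primeFactors_mono hd.1.1 hm.ne'))
    · intro d hd d' hd' h
      rw [Finset.mem_coe, Finset.mem_filter] at hd hd'
      have e1 := Nat.prod_primeFactors_of_squarefree hd.2
      have e2 := Nat.prod_primeFactors_of_squarefree hd'.2
      have h' : d.primeFactors = d'.primeFactors := h
      rw [← e1, ← e2, h']
  rw [Finset.card_powerset] at h2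
  exact_mod_cast h2

theorem coeffs : Coeffs := by
  classical
  intro K C w lam hw hS D hD
  have hw0 : 0 ≤ w := by linarith
  refine ⟨?_, ?_, ?_, ?_, ?_, ?_⟩
  · rw [cc_eq hw0 hS D one_ne_zero]
    have h1 : smooth w 1 := fun p hp h => absurd (Nat.dvd_one.mp h) hp.one_lt.ne'
    have h2 : rough w 1 := fun p hp h => absurd (Nat.dvd_one.mp h) hp.one_lt.ne'
    obtain ⟨e1, e2⟩ := sm_eq hw0 one_ne_zero one_ne_zero h1 h2
    rw [mul_one] at e1 e2
    rw [e1, e2, hS.one, one_mul]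
    unfold mur
    rw [if_pos ⟨h2, by simpa using hD⟩]
    simp
  · intro d
    rcases eq_or_ne d 0 with rfl | hd
    · simp [cc]
    · rw [cc_eq hw0 hS D hd, abs_mul]
      exact mul_le_one₀ (hS.abs_le _) (abs_nonneg _) (abs_mur_le D _)
  · intro d hne
    have hd : d ≠ 0 := by rintro rfl; exact hne (by simp [cc])
    rw [cc_eq hw0 hS D hd] at hne
    have h1 := hS.supp _ (left_ne_zero_of_mul hne)
    have h2 := mur_ne (right_ne_zero_of_mul hne)
    refine ⟨Nat.pos_of_ne_zero hd, ?_⟩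
    have hdec : sm ⌊w⌋₊ d * ro ⌊w⌋₊ d = d := sm_mul_ro hd
    calc (d : ℝ) = (sm ⌊w⌋₊ d : ℝ) * (ro ⌊w⌋₊ d : ℝ) := by
          rw [← Nat.cast_mul, hdec]
      _ ≤ w ^ K * D := mul_le_mul h1.2.2 h2.2 (Nat.cast_nonneg _) (le_trans (Nat.cast_nonneg _) h1.2.2)
  · intro n hn
    have hL : ∑ d ∈ n.divisors, cc lam w D d =
        ∑ d ∈ n.divisors, lam (sm ⌊w⌋₊ d) * mur w D (ro ⌊w⌋₊ d) := by
      refine Finset.sum_congr rfl (fun d hd => ?_)
      exact cc_eq hw0 hS D (Nat.pos_of_mem_divisors hd).ne'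
    rw [hL]
    have hR : bet lam n * alp w D n =
        ∑ x ∈ (n.divisors ×ˢ n.divisors).filter (fun x => smooth w x.1 ∧ rough w x.2),
          lam x.1 * mur w D x.2 := by
      unfold bet alp
      rw [Finset.sum_mul_sum, ← Finset.sum_product', Finset.sum_filter_of_ne]
      rintro x - hx
      exact ⟨(hS.supp _ (left_ne_zero_of_mul hx)).2.1, (mur_ne (right_ne_zero_of_mul hx)).1⟩
    rw [hR]
    refine Finset.sum_nbij' (fun d => (sm ⌊w⌋₊ d, ro ⌊w⌋₊ d)) (fun x => x.1 * x.2) ?_ ?_ ?_ ?_ ?_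
    · intro d hd
      have hd0 : d ≠ 0 := (Nat.pos_of_mem_divisors hd).ne'
      rw [Nat.mem_divisors] at hd
      have hdec : sm ⌊w⌋₊ d * ro ⌊w⌋₊ d = d := sm_mul_ro hd0
      rw [Finset.mem_filter, Finset.mem_product, Nat.mem_divisors, Nat.mem_divisors]
      refine ⟨⟨⟨(Dvd.intro _ hdec).trans hd.1, hn.ne'⟩, ⟨(Dvd.intro_left _ hdec).trans hd.1, hn.ne'⟩⟩,
        smooth_sm hw0 d, rough_ro hw0 d⟩
    · intro x hx
      rw [Finset.mem_filter, Finset.mem_product, Nat.mem_divisors, Nat.mem_divisors] at hx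
      exact Nat.mem_divisors.mpr
        ⟨(coprime_sr hx.2.1 hx.2.2).mul_dvd_of_dvd_of_dvd hx.1.1.1 hx.1.2.1, hn.ne'⟩
    · intro d hd
      exact sm_mul_ro (Nat.pos_of_mem_divisors hd).ne'
    · intro x hx
      rw [Finset.mem_filter, Finset.mem_product] at hx
      obtain ⟨e1, e2⟩ := sm_eq hw0 (Nat.pos_of_mem_divisors hx.1.1).ne'
        (Nat.pos_of_mem_divisors hx.1.2).ne' hx.2.1 hx.2.2
      exact Prod.ext e1 e2
    · intro d _; rfl
  · intro n hn hnD
    rw [alp_small hw0 hn hnD]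
    have hdec : sm ⌊w⌋₊ n * ro ⌊w⌋₊ n = n := sm_mul_ro hn.ne'
    by_cases h : ro ⌊w⌋₊ n = 1
    · rw [if_pos h, if_pos]
      rw [h, mul_one] at hdec
      rw [← hdec]
      exact smooth_sm hw0 n
    · rw [if_neg h, if_neg]
      intro hs
      obtain ⟨p, hp, hpd⟩ := Nat.exists_prime_and_dvd h
      have h1 := rough_ro hw0 n p hp hpd
      have h2 := hs p hp (hpd.trans (Dvd.intro_left _ hdec))
      linarith
  · intro a m ha hm hs hr
    exact ⟨bet_mul hS ha hm hr, alp_mul ha hm hs, abs_alp_le hm⟩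

end coef

end Pool.Agent.M20.Helper36.KSZ
end

/- Helper53.KN.Helper36.KSZ.N4 -/
section
/-!
# Project KSZ, N4: first factor of the duality argument
-/

set_option autoImplicit false

open Finset

namespace Pool.Agent.M20.Helper36.KSZ

open Pool.Agent.M20.Helper18.KSZ Pool.Agent.M20.Helper44

lemma sum_bet_smooth {K C w : ℝ} {lam : ℕ → ℝ} (hS : SW K C w lam) (A : Finset ℕ)
    (hA : ∀ a ∈ A, 0 < a ∧ smooth w a) : ∑ a ∈ A, bet lam a / (a : ℝ) ≤ 9 / 8 := by
  classical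
  have h1 := hS.small 0 le_rfl (by rw [Real.rpow_zero]; norm_num) (A.erase 1) (by
    intro n hn
    rw [Finset.mem_erase] at hn
    have := hA n hn.2
    exact ⟨by omega, this.2⟩)
  have h2 : ∑ a ∈ A.erase 1, bet lam a / (a : ℝ) ≤ 1 / 8 := by
    refine le_trans (le_of_eq (Finset.sum_congr rfl (fun n _ => ?_))) h1
    rw [zero_sub, Real.rpow_neg_one, div_eq_mul_inv]
  by_cases h : 1 ∈ A
  · rw [← Finset.add_sum_erase A _ h]
    have h3 : bet lam 1 = 1 := by simp [bet, hS.one]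
    rw [h3, Nat.cast_one, div_one]
    linarith
  · rw [← Finset.erase_eq_of_notMem h]
    linarith

theorem firstFactor (h3 : RoughSums) : FirstFactor := by
  classical
  obtain ⟨C3, hC3, hR⟩ := h3
  intro K C _ _
  refine ⟨9 / 8 * C3, by positivity, ?_⟩
  intro w lam hw hS D Y hD hY
  have hw0 : 0 ≤ w := by linarith
  obtain ⟨hR1, hR2⟩ := hR w Y hw hY
  have hlw : 0 < Real.log w := Real.log_pos (by linarith)
  have hlY : 0 < Real.log Y := Real.log_pos (by linarith)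
  -- general inequality
  have key : ∀ (g : ℕ → ℝ) (B : ℝ), (∀ m, 0 ≤ g m) →
      (∀ n, 0 < n → g n = g (ro ⌊w⌋₊ n)) →
      ∑ m ∈ (Icc 1 ⌊Y⌋₊).filter (rough w), g m / (m : ℝ) ≤ B →
      ∑ n ∈ Icc 1 ⌊Y⌋₊, bet lam n * g n / (n : ℝ) ≤ 9 / 8 * B := by
    intro g B hg hgr hB
    set A := (Icc 1 ⌊Y⌋₊).filter (smooth w) with hA
    set M := (Icc 1 ⌊Y⌋₊).filter (rough w) with hM
    let φ : ℕ → ℕ × ℕ := fun n => (sm ⌊w⌋₊ n, ro ⌊w⌋₊ n)
    let F : ℕ × ℕ → ℝ := fun x => bet lam x.1 / (x.1 : ℝ) * (g x.2 / (x.2 : ℝ))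
    have hinj : Set.InjOn φ (Icc 1 ⌊Y⌋₊ : Finset ℕ) := by
      intro n hn n' hn' h
      rw [Finset.mem_coe, Finset.mem_Icc] at hn hn'
      have e1 : sm ⌊w⌋₊ n = sm ⌊w⌋₊ n' := congrArg Prod.fst h
      have e2 : ro ⌊w⌋₊ n = ro ⌊w⌋₊ n' := congrArg Prod.snd h
      rw [← sm_mul_ro (y := ⌊w⌋₊) (show n ≠ 0 by omega),
        ← sm_mul_ro (y := ⌊w⌋₊) (show n' ≠ 0 by omega), e1, e2]
    have hstep : ∑ n ∈ Icc 1 ⌊Y⌋₊, bet lam n * g n / (n : ℝ) =
        ∑ n ∈ Icc 1 ⌊Y⌋₊, F (φ n) := by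
      refine Finset.sum_congr rfl (fun n hn => ?_)
      rw [Finset.mem_Icc] at hn
      have hn0 : n ≠ 0 := by omega
      have hdec : sm ⌊w⌋₊ n * ro ⌊w⌋₊ n = n := sm_mul_ro hn0
      have e1 : bet lam n = bet lam (sm ⌊w⌋₊ n) := by
        conv_lhs => rw [← hdec]
        exact bet_mul hS (sm_pos _ _) (ro_pos _ _) (rough_ro hw0 n)
      have e3 : (n : ℝ) = (sm ⌊w⌋₊ n : ℝ) * (ro ⌊w⌋₊ n : ℝ) := by
        rw [← Nat.cast_mul, hdec]
      change _ = bet lam (sm ⌊w⌋₊ n) / (sm ⌊w⌋₊ n : ℝ) * (g (ro ⌊w⌋₊ n) / (ro ⌊w⌋₊ n : ℝ))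
      rw [e1, hgr n (by omega)]
      conv_lhs => rw [e3]
      rw [mul_div_mul_comm]
    rw [hstep, ← Finset.sum_image (f := F) hinj]
    have hsub : (Icc 1 ⌊Y⌋₊).image φ ⊆ A ×ˢ M := by
      intro x hx
      rw [Finset.mem_image] at hx
      obtain ⟨n, hn, rfl⟩ := hx
      rw [Finset.mem_Icc] at hn
      have hn0 : n ≠ 0 := by omega
      have hdec : sm ⌊w⌋₊ n * ro ⌊w⌋₊ n = n := sm_mul_ro hn0
      have l1 : sm ⌊w⌋₊ n ≤ n := Nat.le_of_dvd (by omega) (Dvd.intro _ hdec)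
      have l2 : ro ⌊w⌋₊ n ≤ n := Nat.le_of_dvd (by omega) (Dvd.intro_left _ hdec)
      rw [Finset.mem_product, hA, hM, Finset.mem_filter, Finset.mem_filter, Finset.mem_Icc,
        Finset.mem_Icc]
      exact ⟨⟨⟨sm_pos _ _, l1.trans hn.2⟩, smooth_sm hw0 n⟩,
        ⟨⟨ro_pos _ _, l2.trans hn.2⟩, rough_ro hw0 n⟩⟩
    have hbn : ∀ x ∈ A ×ˢ M, 0 ≤ F x := by
      intro x hx
      rw [Finset.mem_product, hA, Finset.mem_filter, Finset.mem_Icc] at hx
      exact mul_nonneg (div_nonneg (hS.nonneg _ hx.1.1.1) (Nat.cast_nonneg _))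
        (div_nonneg (hg _) (Nat.cast_nonneg _))
    refine (Finset.sum_le_sum_of_subset_of_nonneg hsub (fun x hx _ => hbn x hx)).trans ?_
    have hprod : ∑ x ∈ A ×ˢ M, F x =
        (∑ a ∈ A, bet lam a / (a : ℝ)) * ∑ m ∈ M, g m / (m : ℝ) := by
      rw [Finset.sum_product, Finset.sum_mul_sum]
    rw [hprod]
    refine mul_le_mul (sum_bet_smooth hS A ?_) hB ?_ (by norm_num)
    · intro a ha
      rw [hA, Finset.mem_filter, Finset.mem_Icc] at ha
      exact ⟨ha.1.1, ha.2⟩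
    · exact Finset.sum_nonneg (fun m _ => div_nonneg (hg m) (Nat.cast_nonneg _))
  constructor
  · have h := key (fun _ => 1) (C3 * (Real.log Y / Real.log w)) (fun _ => zero_le_one)
      (fun _ _ => rfl) hR1
    simp only [mul_one] at h
    linarith
  · have h := key (fun n => alp w D n ^ 2) (C3 * (Real.log Y / Real.log w) ^ 4)
      (fun _ => sq_nonneg _) (by
        intro n hn
        have hdec : sm ⌊w⌋₊ n * ro ⌊w⌋₊ n = n := sm_mul_ro hn.ne'
        have : alp w D n = alp w D (ro ⌊w⌋₊ n) := by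
          conv_lhs => rw [← hdec]
          exact alp_mul (sm_pos _ _) (ro_pos _ _) (smooth_sm hw0 n)
        rw [this]) (by
        refine le_trans (Finset.sum_le_sum (fun m hm => ?_)) hR2
        rw [Finset.mem_filter, Finset.mem_Icc] at hm
        refine div_le_div_of_nonneg_right ?_ (Nat.cast_nonneg _)
        have h1 := abs_alp_le (w := w) (D := D) (show 0 < m by omega)
        have h2 : alp w D m ^ 2 ≤ (2 ^ m.primeFactors.card) ^ 2 := by
          rw [← sq_abs]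
          exact pow_le_pow_left₀ (abs_nonneg _) h1 2
        refine h2.trans (le_of_eq ?_)
        rw [← pow_mul, mul_comm, pow_mul]
        norm_num)
    linarith

end Pool.Agent.M20.Helper36.KSZ
end

/- Helper53.KN.Helper91.KSZ.N1c -/
section
/-!
# Project KSZ, module N1c: the mean value of the Brun-Hooley weights
-/

set_option autoImplicit false
set_option maxHeartbeats 4000000

open Finset

namespace Pool.Agent.M20.Helper91.KSZ

open Pool.Agent.M20.Helper44 Pool.Agent.M20.Helper96.CPAP Pool.Agent.M20.Helper18.KSZ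

theorem sum_powerset_union {U V : Finset ℕ} (hd : Disjoint U V) (f : Finset ℕ → ℝ) :
    ∑ K ∈ (U ∪ V).powerset, f K = ∑ I ∈ U.powerset, ∑ J ∈ V.powerset, f (I ∪ J) := by
  rw [← Finset.sum_product']
  refine Finset.sum_bij' (fun K _ => (K ∩ U, K ∩ V)) (fun p _ => p.1 ∪ p.2) ?_ ?_ ?_ ?_ ?_
  · intro K _
    rw [Finset.mem_product, Finset.mem_powerset, Finset.mem_powerset]
    exact ⟨Finset.inter_subset_right, Finset.inter_subset_right⟩
  · intro p hp
    rw [Finset.mem_product, Finset.mem_powerset, Finset.mem_powerset] at hp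
    rw [Finset.mem_powerset]
    exact Finset.union_subset_union hp.1 hp.2
  · intro K hK
    rw [Finset.mem_powerset] at hK
    rw [← Finset.inter_union_distrib_left]
    exact Finset.inter_eq_left.2 hK
  · rintro ⟨I, J⟩ hp
    rw [Finset.mem_product, Finset.mem_powerset, Finset.mem_powerset] at hp
    have h1 : J ∩ U = ∅ := by
      rw [← Finset.disjoint_iff_inter_eq_empty]
      exact (Finset.disjoint_of_subset_right hp.2 hd).symm
    have h2 : I ∩ V = ∅ := by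
      rw [← Finset.disjoint_iff_inter_eq_empty]
      exact Finset.disjoint_of_subset_left hp.1 hd
    simp only [Finset.union_inter_distrib_right, h1, h2, Finset.union_empty, Finset.empty_union,
      Finset.inter_eq_left.2 hp.1, Finset.inter_eq_left.2 hp.2]
  · intro K hK
    rw [Finset.mem_powerset] at hK
    rw [← Finset.inter_union_distrib_left, Finset.inter_eq_left.2 hK]

theorem prod_tr {B : ℕ → Finset ℕ} (hB : ∀ i j, i ≠ j → Disjoint (B i) (B j)) (m : ℕ → ℕ)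
    (x : ℕ → ℝ) (t : ℕ) : ∏ j ∈ range t, tr (B j) (m j) x =
      ∑ I ∈ ((range t).biUnion B).powerset,
        if ∀ j < t, (I ∩ B j).card ≤ m j then (-1 : ℝ) ^ I.card * ∏ i ∈ I, x i else 0 := by
  induction t with
  | zero => simp
  | succ t ih =>
    have hd : Disjoint ((range t).biUnion B) (B t) := by
      rw [Finset.disjoint_biUnion_left]
      intro i hi
      exact hB i t (Finset.mem_range.1 hi).ne
    have hU : (range (t + 1)).biUnion B = (range t).biUnion B ∪ B t := by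
      rw [Finset.range_add_one, Finset.biUnion_insert, Finset.union_comm]
    rw [hU, sum_powerset_union hd, Finset.prod_range_succ, ih, Finset.sum_mul]
    refine Finset.sum_congr rfl fun I hI => ?_
    rw [Finset.mem_powerset] at hI
    unfold tr
    rw [Finset.mul_sum]
    refine Finset.sum_congr rfl fun J hJ => ?_
    rw [Finset.mem_powerset] at hJ
    have h1 : Disjoint I J := Finset.disjoint_of_subset_left hI (Finset.disjoint_of_subset_right hJ hd)
    have h2 : ∀ j < t, (I ∪ J) ∩ B j = I ∩ B j := by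
      intro j hj
      rw [Finset.union_inter_distrib_right]
      have : J ∩ B j = ∅ := by
        rw [← Finset.disjoint_iff_inter_eq_empty]
        exact Finset.disjoint_of_subset_left hJ (hB t j hj.ne')
      rw [this, Finset.union_empty]
    have h3 : (I ∪ J) ∩ B t = J := by
      rw [Finset.union_inter_distrib_right]
      have : I ∩ B t = ∅ := by
        rw [← Finset.disjoint_iff_inter_eq_empty]
        exact Finset.disjoint_of_subset_left hI hd
      rw [this, Finset.empty_union, Finset.inter_eq_left.2 hJ]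
    have h4 : (∀ j < t + 1, ((I ∪ J) ∩ B j).card ≤ m j) ↔
        (∀ j < t, (I ∩ B j).card ≤ m j) ∧ J.card ≤ m t := by
      constructor
      · intro h
        refine ⟨fun j hj => ?_, ?_⟩
        · rw [← h2 j hj]
          exact h j (by omega)
        · have := h t (by omega)
          rwa [h3] at this
      · rintro ⟨h5, h6⟩ j hj
        rcases Nat.lt_succ_iff_lt_or_eq.1 hj with h7 | rfl
        · rw [h2 j h7]
          exact h5 j h7
        · rw [h3]
          exact h6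
    by_cases hc1 : ∀ j < t, (I ∩ B j).card ≤ m j
    · by_cases hc2 : J.card ≤ m t
      · rw [if_pos hc1, if_pos hc2, if_pos (h4.2 ⟨hc1, hc2⟩), Finset.card_union_of_disjoint h1,
          Finset.prod_union h1, pow_add]
        ring
      · rw [if_pos hc1, if_neg hc2, if_neg (fun h => hc2 (h4.1 h).2), mul_zero]
    · rw [if_neg hc1, if_neg (fun h => hc1 (h4.1 h).1), zero_mul]

/-- the blocks cover the primes up to `w` -/
theorem biUnion_range {w : ℝ} (hw : 2 ≤ w) :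
    (range (nb w)).biUnion (pb Nat.Prime w) = pU Nat.Prime w := by
  rw [← biUnion_pb (fun _ h => h) hw]
  ext q
  simp only [Finset.mem_biUnion, Finset.mem_range, Finset.mem_univ, true_and]
  constructor
  · rintro ⟨j, hj, h⟩
    exact ⟨⟨j, hj⟩, h⟩
  · rintro ⟨j, h⟩
    exact ⟨j, j.2, h⟩

theorem primeFactors_prod {I : Finset ℕ} (hI : ∀ q ∈ I, q.Prime) :
    (∏ q ∈ I, q).primeFactors = I := Nat.primeFactors_prod hI

theorem lam_sum (h : LamBasic) (b : ℕ) {w : ℝ} (hw : 2 ≤ w) :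
    ∑ d ∈ Icc 1 ⌊w ^ ((4 * b + 4 : ℕ) : ℝ)⌋₊, lamE b w d / d =
      ∏ j ∈ range (nb w), tr (pb Nat.Prime w j) (2 * (b + j)) (fun q => 1 / (q : ℝ)) := by
  classical
  have hw0 : (0 : ℝ) ≤ w := by linarith
  rw [prod_tr (fun i j hij => pb_disjoint (by linarith) hij), biUnion_range hw]
  have hP : ∀ I ∈ (pU Nat.Prime w).powerset, ∀ q ∈ I, q.Prime := by
    intro I hI q hq
    exact ((mem_pU (fun _ h => h) hw0).1 (Finset.mem_powerset.1 hI hq)).1
  -- the sum over subsets as a sum over integers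
  have e1 : ∑ I ∈ (pU Nat.Prime w).powerset,
      (if ∀ j < nb w, (I ∩ pb Nat.Prime w j).card ≤ 2 * (b + j) then
        (-1 : ℝ) ^ I.card * ∏ q ∈ I, 1 / (q : ℝ) else 0) =
      ∑ I ∈ (pU Nat.Prime w).powerset, lamE b w (∏ q ∈ I, q) / ((∏ q ∈ I, q : ℕ) : ℝ) := by
    refine Finset.sum_congr rfl fun I hI => ?_
    have hp := hP I hI
    have hpf := primeFactors_prod hp
    have hpos : 0 < ∏ q ∈ I, q := Finset.prod_pos fun q hq => (hp q hq).pos
    have hsm : smooth w (∏ q ∈ I, q) := by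
      intro p hp1 hp2
      have : p ∈ I := by
        rw [← hpf]
        exact Nat.mem_primeFactors.2 ⟨hp1, hp2, hpos.ne'⟩
      exact ((mem_pU (fun _ h => h) hw0).1 (Finset.mem_powerset.1 hI this)).2
    have hmu : (ArithmeticFunction.moebius (∏ q ∈ I, q) : ℝ) = (-1) ^ I.card := by
      rw [ArithmeticFunction.isMultiplicative_moebius.map_prod_of_prime I hp]
      rw [Finset.prod_congr rfl fun q hq => ArithmeticFunction.moebius_apply_prime (hp q hq)]
      simp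
    unfold lamE
    by_cases hc : ∀ j < nb w, (I ∩ pb Nat.Prime w j).card ≤ 2 * (b + j)
    · rw [if_pos hc, if_pos ⟨hpos, hsm, by rw [hpf]; exact hc⟩, hmu]
      push_cast
      rw [Finset.prod_div_distrib]
      simp
      ring
    · rw [if_neg hc, if_neg, zero_div]
      rintro ⟨_, _, h3⟩
      rw [hpf] at h3
      exact hc h3
  rw [e1]
  set g : ℕ → ℝ := fun d => lamE b w d / d with hg
  have hinj : Set.InjOn (fun I : Finset ℕ => ∏ q ∈ I, q) ((pU Nat.Prime w).powerset : Set (Finset ℕ)) := by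
    intro I hI J hJ hIJ
    have h1 := primeFactors_prod (hP I (Finset.mem_coe.1 hI))
    have h2 := primeFactors_prod (hP J (Finset.mem_coe.1 hJ))
    simp only at hIJ
    rw [← h1, ← h2, hIJ]
  have e2 : ∑ I ∈ (pU Nat.Prime w).powerset, lamE b w (∏ q ∈ I, q) / ((∏ q ∈ I, q : ℕ) : ℝ) =
      ∑ d ∈ (pU Nat.Prime w).powerset.image (fun I : Finset ℕ => ∏ q ∈ I, q), g d := by
    rw [Finset.sum_image hinj]
  rw [e2, ← Finset.sum_filter_ne_zero, ← Finset.sum_filter_ne_zero (s := Finset.image _ _)]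
  refine Finset.sum_congr ?_ fun _ _ => rfl
  obtain ⟨_, _, hsupp, _, _⟩ := h b w hw
  ext d
  rw [Finset.mem_filter, Finset.mem_filter, Finset.mem_Icc, Finset.mem_image]
  constructor
  · rintro ⟨⟨hd1, _⟩, hne⟩
    refine ⟨?_, hne⟩
    have hl : lamE b w d ≠ 0 := by
      intro h0
      apply hne
      rw [h0, zero_div]
    obtain ⟨hd0, hsm, _⟩ := hsupp d hl
    have hsq : Squarefree d := by
      rw [← ArithmeticFunction.moebius_ne_zero_iff_squarefree]
      intro h0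
      apply hl
      unfold lamE
      split_ifs
      · rw [h0]
        simp
      · rfl
    refine ⟨d.primeFactors, ?_, Nat.prod_primeFactors_of_squarefree hsq⟩
    rw [Finset.mem_powerset]
    intro q hq
    rw [Nat.mem_primeFactors] at hq
    exact (mem_pU (fun _ h => h) hw0).2 ⟨hq.1, hsm q hq.1 hq.2.1⟩
  · rintro ⟨⟨I, hI, rfl⟩, hne⟩
    refine ⟨?_, hne⟩
    have hl : lamE b w (∏ q ∈ I, q) ≠ 0 := by
      intro h0
      apply hne
      simp only [hg, h0, zero_div]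
    obtain ⟨hd0, hsm, hle⟩ := hsupp _ hl
    exact ⟨hd0, Nat.le_floor hle⟩

theorem lamMean (h : LamBasic) : LamMean := by
  classical
  intro b
  obtain ⟨S0, hS0, hS⟩ := sum_inv_pb_le
  obtain ⟨_, C, _, hC, hM⟩ := mertens_prod
  refine ⟨C * Real.exp (Real.exp S0 * Real.exp (2 * S0)), by positivity, ?_⟩
  intro w hw
  have hw0 : (0 : ℝ) ≤ w := by linarith
  have hw1 : (1 : ℝ) ≤ w := by linarith
  have hlog : 0 < Real.log w := Real.log_pos (by linarith)
  rw [lam_sum h b hw]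
  set x : ℕ → ℝ := fun q => 1 / (q : ℝ) with hx
  have hx01 : ∀ j, ∀ i ∈ pb Nat.Prime w j, 0 ≤ x i ∧ x i ≤ 1 / 2 := by
    intro j i hi
    rw [mem_pb] at hi
    have h2 : (2 : ℝ) ≤ i := by exact_mod_cast hi.2.two_le
    refine ⟨by positivity, ?_⟩
    simp only [hx]
    exact one_div_le_one_div_of_le (by norm_num) h2
  have hx1 : ∀ j, ∀ i ∈ pb Nat.Prime w j, 0 ≤ x i ∧ x i ≤ 1 := fun j i hi =>
    ⟨(hx01 j i hi).1, (hx01 j i hi).2.trans (by norm_num)⟩
  have hsumx : ∀ j, ∑ i ∈ pb Nat.Prime w j, x i ≤ S0 := fun j => hS Nat.Prime (fun _ h => h) w hw j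
  set V : ℕ → ℝ := fun j => ∏ i ∈ pb Nat.Prime w j, (1 - x i) with hV
  have hVlow : ∀ j, Real.exp (-(2 * S0)) ≤ V j := by
    intro j
    calc Real.exp (-(2 * S0)) ≤ Real.exp (-∑ i ∈ pb Nat.Prime w j, 2 * x i) := by
          apply Real.exp_le_exp.mpr
          rw [← Finset.mul_sum]
          have := hsumx j
          linarith
      _ = ∏ i ∈ pb Nat.Prime w j, Real.exp (-(2 * x i)) := by
          rw [← Finset.sum_neg_distrib, Real.exp_sum]
      _ ≤ _ := by
          apply Finset.prod_le_prod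
          · intro i _
            exact (Real.exp_pos _).le
          · intro i hi
            have := hx01 j i hi
            exact one_sub_ge_exp this.1 this.2
  have hVpos : ∀ j, 0 < V j := fun j => (Real.exp_pos _).trans_le (hVlow j)
  set k : ℕ → ℕ := fun j => 2 * (b + j) + 1 with hk
  have htr : ∀ j, 0 ≤ tr (pb Nat.Prime w j) (2 * (b + j)) x ∧
      tr (pb Nat.Prime w j) (2 * (b + j)) x ≤
        V j * Real.exp (S0 ^ k j / (k j).factorial * Real.exp (2 * S0)) := by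
    intro j
    constructor
    · exact (hVpos j).le.trans (prod_le_tr_even _ _ (hx1 j) _ (even_two_mul _))
    · have h1 : es (pb Nat.Prime w j) (k j) x ≤ S0 ^ k j / ((k j).factorial : ℝ) := by
        refine (es_le_pow_div_factorial _ _ (fun i hi => (hx01 j i hi).1) _).trans ?_
        apply div_le_div_of_nonneg_right _ (by positivity)
        apply pow_le_pow_left₀ (Finset.sum_nonneg fun i hi => (hx01 j i hi).1) (hsumx j)
      have h2 := tr_even_le (pb Nat.Prime w j) x (hx1 j) (2 * (b + j)) (even_two_mul _)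
      have h3 : (1 : ℝ) ≤ V j * Real.exp (2 * S0) := by
        calc (1 : ℝ) = Real.exp (-(2 * S0)) * Real.exp (2 * S0) := by
              rw [← Real.exp_add]
              simp
          _ ≤ _ := mul_le_mul_of_nonneg_right (hVlow j) (Real.exp_pos _).le
      have h4 : (0 : ℝ) ≤ S0 ^ k j / ((k j).factorial : ℝ) := by positivity
      calc tr (pb Nat.Prime w j) (2 * (b + j)) x ≤ V j + es (pb Nat.Prime w j) (k j) x := h2
        _ ≤ V j + S0 ^ k j / ((k j).factorial : ℝ) * (V j * Real.exp (2 * S0)) := by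
            have := mul_le_mul_of_nonneg_left h3 h4
            linarith
        _ = V j * (S0 ^ k j / ((k j).factorial : ℝ) * Real.exp (2 * S0) + 1) := by ring
        _ ≤ _ := mul_le_mul_of_nonneg_left (Real.add_one_le_exp _) (hVpos j).le
  have hsum : ∑ j ∈ range (nb w), S0 ^ k j / ((k j).factorial : ℝ) * Real.exp (2 * S0) ≤
      Real.exp S0 * Real.exp (2 * S0) := by
    rw [← Finset.sum_mul]
    apply mul_le_mul_of_nonneg_right _ (Real.exp_pos _).le
    have e1 : ∑ j ∈ range (nb w), S0 ^ k j / ((k j).factorial : ℝ) =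
        ∑ n ∈ (range (nb w)).image k, S0 ^ n / (n.factorial : ℝ) := by
      rw [Finset.sum_image]
      intro i _ j _ hij
      simp only [hk] at hij
      omega
    rw [e1]
    have e2 : (range (nb w)).image k ⊆ range (2 * (b + nb w) + 2) := by
      intro n hn
      rw [Finset.mem_image] at hn
      obtain ⟨j, hj, rfl⟩ := hn
      rw [Finset.mem_range] at hj ⊢
      simp only [hk]
      omega
    refine (Finset.sum_le_sum_of_subset_of_nonneg e2 fun _ _ _ => by positivity).trans ?_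
    exact Real.sum_le_exp_of_nonneg hS0.le _
  have hprodV : ∏ j ∈ range (nb w), V j = ∏ q ∈ primesUpTo w, (1 - (1 : ℝ) / q) := by
    have e1 : (range (nb w)).biUnion (pb Nat.Prime w) = primesUpTo w := by
      rw [biUnion_range hw]
      ext q
      rw [mem_pU (fun _ h => h) hw0, mem_primesUpTo hw0]
    rw [← e1, Finset.prod_biUnion]
    intro i _ j _ hij
    exact pb_disjoint hw1 hij
  rw [abs_of_nonneg (Finset.prod_nonneg fun j _ => (htr j).1)]
  calc ∏ j ∈ range (nb w), tr (pb Nat.Prime w j) (2 * (b + j)) x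
      ≤ ∏ j ∈ range (nb w), V j * Real.exp (S0 ^ k j / (k j).factorial * Real.exp (2 * S0)) :=
        Finset.prod_le_prod (fun j _ => (htr j).1) fun j _ => (htr j).2
    _ = (∏ j ∈ range (nb w), V j) *
        Real.exp (∑ j ∈ range (nb w), S0 ^ k j / (k j).factorial * Real.exp (2 * S0)) := by
        rw [Finset.prod_mul_distrib, Real.exp_sum]
    _ ≤ (C / Real.log w) * Real.exp (Real.exp S0 * Real.exp (2 * S0)) := by
        apply mul_le_mul _ (Real.exp_le_exp.2 hsum) (Real.exp_pos _).le (by positivity)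
        rw [hprodV]
        exact (hM w hw).2
    _ = _ := by ring

end Pool.Agent.M20.Helper91.KSZ
end

/- Helper53.KN.Helper18.KSZ.TheoremN0 -/
section
/-!
# Theorem N (zeros of zeta near the line 1), assembly; the zero-free region (A10) is a hypothesis
-/

set_option autoImplicit false

namespace Pool.Agent.M20.Helper18.KSZ

theorem inA3 : InA3 := fun A hA => Helper67.KSZ.A3 A hA

theorem expSum : ExpSum := Helper94.KSZ.expSum inA3

theorem sieveW : SieveWeights :=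
  sieveWeights Helper85.KSZ.lamBasic (Helper26.KSZ.lamSmall Helper85.KSZ.lamBasic)
    (Helper91.KSZ.lamMean Helper85.KSZ.lamBasic)

theorem firstF : FirstFactor := Helper36.KSZ.firstFactor Helper36.KSZ.roughSums

theorem zeroSum : ZeroSum := Helper73.KSZ.zeroSum expSum

theorem detect : Detect := Helper48.KSZ.detect Helper36.KSZ.coeffs zeroSum

theorem kerBound : KerBound := Helper7.KSZ.kerBound Helper7.KSZ.innerSmall
  (Helper7.KSZ.innerLarge expSum)

theorem density' : Density := density sieveW firstF detect kerBound spaced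

theorem densityM' : DensityM := Helper94.KSZ.densityM Helper33.KSZ.inA9 density'

/-- Theorem N from the zero-free region -/
theorem theoremN_of (h10 : InA10) : TheoremN :=
  Helper71.KSZ.theoremN h10 (oneLevel h10 densityM')

end Pool.Agent.M20.Helper18.KSZ
end

/- Helper53.KN.Helper1.KL.NTheta -/
section
/-!
# Theorem N with weights `X ^ (θ (β - 1))`, `1/2 < θ ≤ 1`

Adapted from `Helper18/KSZ/N14.lean` (helper18) and `Helper71/KSZ/N15.lean` (helper71).
Consequence: Theorem N for the larger range `|γ| ≤ X ^ 0.84`.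
-/

set_option autoImplicit false

open Finset Filter Topology

namespace Pool.Agent.M20.Helper1.KL

open Pool.Agent.M20.Helper18.KSZ
open Pool.Agent.M20.Helper71.KSZ (exists_level)

/-- one level -/
def OneLevelT (θ : ℝ) : Prop := ∃ ε : ℝ, 0 < ε ∧ ∀ η : ℝ, 0 < η → ∃ X0 : ℝ, ∀ X : ℝ, X0 ≤ X →
  ∀ Z : Finset ℂ, (∀ ρ ∈ Z, riemannZeta ρ = 0 ∧ 1 - ε ≤ ρ.re ∧ X ^ (3 / 10 : ℝ) ≤ |ρ.im| ∧
    |ρ.im| ≤ X ^ (6 / 10 : ℝ)) →
  ∑ ρ ∈ Z, mz ρ * X ^ (θ * (ρ.re - 1)) ≤ η

/-- Theorem N with weight exponent `θ` -/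
def TheoremNT (θ : ℝ) : Prop := ∃ ε : ℝ, 0 < ε ∧ ∀ η : ℝ, 0 < η → ∃ X0 : ℝ, ∀ X : ℝ, X0 ≤ X →
  ∀ Z : Finset ℂ, (∀ ρ ∈ Z, riemannZeta ρ = 0 ∧ 1 - ε ≤ ρ.re ∧ |ρ.im| ≤ X ^ (6 / 10 : ℝ)) →
  ∑ ρ ∈ Z, mz ρ * X ^ (θ * (ρ.re - 1)) ≤ η

/-- tails of `∑ k ^ 6 * exp (-k / 2)` -/
lemma tail_smallT (a B η : ℝ) (ha : 0 < a) (hη : 0 < η) : ∃ k0 : ℕ, ∀ t : Finset ℕ,
    (∀ k ∈ t, k0 ≤ k) → ∑ k ∈ t, B * ((k : ℝ) ^ 6 * Real.exp (-a * k)) ≤ η := by
  have hs : Summable (fun k : ℕ => B * ((k : ℝ) ^ 6 * Real.exp (-a * k))) := by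
    apply Summable.mul_left
    exact Real.summable_pow_mul_exp_neg_nat_mul 6 ha
  obtain ⟨s, hs'⟩ := summable_iff_vanishing_norm.mp hs η hη
  refine ⟨s.sup id + 1, fun t ht => ?_⟩
  have h1 := hs' t (by
    rw [Finset.disjoint_left]
    intro k hk hk'
    have h2 := ht k hk
    have h3 : k ≤ s.sup id := Finset.le_sup (f := id) hk'
    omega)
  exact (Real.le_norm_self _).trans h1.le

theorem oneLevelT {θ : ℝ} (hθ : 1 / 2 < θ) (h10 : InA10) (h : DensityM) : OneLevelT θ := by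
  classical
  obtain ⟨ε1, C, X1, hε1, hC, hD⟩ := h
  refine ⟨ε1 / 2, by (clear * - hε1; linarith), fun η hη => ?_⟩
  obtain ⟨k0, hk0⟩ := tail_smallT (θ - 1 / 2) (Real.exp θ * C) η (by (clear * - hθ; linarith)) hη
  obtain ⟨T0, hT0, hT⟩ := h10 (k0 + 1)
  -- thresholds
  have hev : ∀ᶠ X : ℝ in Filter.atTop, X1 ≤ X ∧ 1 < X ∧ T0 ≤ X ^ (3 / 10 : ℝ) ∧
      2 / ε1 ≤ Real.log X := by
    refine (Filter.eventually_ge_atTop X1).and ((Filter.eventually_gt_atTop 1).and
      (((tendsto_rpow_atTop (by norm_num : (0 : ℝ) < 3 / 10)).eventually_ge_atTop T0).and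
      (Real.tendsto_log_atTop.eventually_ge_atTop _)))
  obtain ⟨X0, hX0⟩ := hev.exists_forall_of_atTop
  refine ⟨X0, fun X hX Z hZ => ?_⟩
  obtain ⟨hXX1, hX1, hXT, hXL⟩ := hX0 X hX
  have hXpos : 0 < X := by (clear * - hX1; linarith)
  set L : ℝ := Real.log X with hL
  have hL0 : 0 < L := Real.log_pos hX1
  set N : ℕ := ⌊ε1 * L⌋₊ with hN
  have hre : ∀ ρ ∈ Z, ρ.re < 1 := by
    intro ρ hρ
    by_contra h
    push Not at h
    exact riemannZeta_ne_zero_of_one_le_re h (hZ ρ hρ).1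
  set kk : ℂ → ℕ := fun ρ => ⌈(1 - ρ.re) * L⌉₊ with hkk
  have hkk0 : ∀ ρ ∈ Z, k0 ≤ kk ρ := by
    intro ρ hρ
    obtain ⟨h1, h2, h3, h4⟩ := hZ ρ hρ
    have h5 := hT ρ h1 (hXT.trans h3)
    have h6 : 0 < Real.log |ρ.im| := Real.log_pos (by (clear * - hT0 hXT h3; linarith [hXT.trans h3]))
    have h7 : Real.log |ρ.im| ≤ L := by
      have h8 : |ρ.im| ≤ X := by
        refine h4.trans ?_
        calc X ^ (6 / 10 : ℝ) ≤ X ^ (1 : ℝ) :=
              Real.rpow_le_rpow_of_exponent_le hX1.le (by norm_num)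
          _ = X := Real.rpow_one X
      exact Real.log_le_log (by (clear * - hT0 hXT h3; linarith [hXT.trans h3])) h8
    have h9 : ((k0 : ℝ) + 1) / Real.log |ρ.im| ≤ 1 - ρ.re := by (clear * - h5; linarith)
    have h10' : ((k0 : ℝ) + 1) ≤ (1 - ρ.re) * L := by
      calc ((k0 : ℝ) + 1) ≤ (1 - ρ.re) * Real.log |ρ.im| := by
            rwa [div_le_iff₀ h6] at h9
        _ ≤ (1 - ρ.re) * L := mul_le_mul_of_nonneg_left h7 (by (clear * - hre hρ; linarith [hre ρ hρ]))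
    have h11 : (k0 : ℝ) ≤ kk ρ := by
      have := Nat.le_ceil ((1 - ρ.re) * L)
      simp only [hkk]
      (clear * - h10' this; linarith)
    exact_mod_cast h11
  have hkk1 : ∀ ρ ∈ Z, 1 ≤ kk ρ := by
    intro ρ hρ
    have : 0 < (1 - ρ.re) * L := mul_pos (by (clear * - hre hρ; linarith [hre ρ hρ])) hL0
    exact Nat.ceil_pos.mpr this
  have hkkN : ∀ ρ ∈ Z, kk ρ ≤ N := by
    intro ρ hρ
    rw [hN]
    apply Nat.le_floor
    have h1 : (1 - ρ.re) * L ≤ ε1 / 2 * L :=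
      mul_le_mul_of_nonneg_right (by (clear * - hZ hρ; linarith [(hZ ρ hρ).2.1])) hL0.le
    have h2 : (kk ρ : ℝ) < (1 - ρ.re) * L + 1 :=
      Nat.ceil_lt_add_one (mul_nonneg (by (clear * - hre hρ; linarith [hre ρ hρ])) hL0.le)
    have h3 : 2 ≤ ε1 * L := by
      have := (div_le_iff₀ hε1).mp hXL
      (clear * - this; linarith)
    (clear * - h1 h2 h3; linarith)
  -- fiberwise
  set t : Finset ℕ := (Finset.range (N + 1)).filter (fun k => k0 ≤ k ∧ 1 ≤ k) with ht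
  have hmaps : ∀ ρ ∈ Z, kk ρ ∈ t := by
    intro ρ hρ
    rw [ht, Finset.mem_filter, Finset.mem_range]
    exact ⟨Nat.lt_succ_of_le (hkkN ρ hρ), hkk0 ρ hρ, hkk1 ρ hρ⟩
  rw [← Finset.sum_fiberwise_of_maps_to hmaps]
  refine le_trans ?_ (hk0 t (fun k hk => by
    rw [ht, Finset.mem_filter] at hk
    exact hk.2.1))
  apply Finset.sum_le_sum
  intro k hk
  rw [ht, Finset.mem_filter, Finset.mem_range] at hk
  have hkN : (k : ℝ) ≤ ε1 * L := by
    have h1 : k ≤ N := by omega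
    exact (Nat.le_floor_iff (by positivity)).mp h1
  have hk1 : (1 : ℝ) ≤ k := by exact_mod_cast hk.2.2
  have h1 : ∀ ρ ∈ Z.filter (fun ρ => kk ρ = k), mz ρ * X ^ (θ * (ρ.re - 1)) ≤
      mz ρ * Real.exp (θ * (1 - k)) := by
    intro ρ hρ
    rw [Finset.mem_filter] at hρ
    apply mul_le_mul_of_nonneg_left _ (mz_nonneg ρ)
    rw [Real.rpow_def_of_pos hXpos]
    apply Real.exp_le_exp.mpr
    have h2 : (kk ρ : ℝ) < (1 - ρ.re) * L + 1 :=
      Nat.ceil_lt_add_one (mul_nonneg (by (clear * - hre hρ; linarith [hre ρ hρ.1])) hL0.le)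
    rw [hρ.2] at h2
    rw [← hL]
    have h3 : θ * ((k : ℝ) - 1) ≤ θ * ((1 - ρ.re) * L) :=
      mul_le_mul_of_nonneg_left (by (clear * - h2; linarith)) (by (clear * - hθ; linarith))
    (clear * - h3; linarith)
  refine (Finset.sum_le_sum h1).trans ?_
  rw [← Finset.sum_mul]
  have h3 := hD X hXX1 k hk1 hkN (Z.filter (fun ρ => kk ρ = k)) (by
    intro ρ hρ
    rw [Finset.mem_filter] at hρ
    refine ⟨(hZ ρ hρ.1).1, ?_, (hZ ρ hρ.1).2.2.1, (hZ ρ hρ.1).2.2.2⟩
    have h2 : (1 - ρ.re) * L ≤ kk ρ := Nat.le_ceil _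
    rw [hρ.2] at h2
    have h4 : 1 - ρ.re ≤ k / L := by
      rw [le_div_iff₀ hL0]; exact h2
    rw [← hL]
    (clear * - h4; linarith))
  refine (mul_le_mul_of_nonneg_right h3 (Real.exp_pos _).le).trans (le_of_eq ?_)
  have h5 : Real.exp (k / 2 : ℝ) * Real.exp (θ * (1 - k)) =
      Real.exp θ * Real.exp (-(θ - 1 / 2) * k) := by
    rw [← Real.exp_add, ← Real.exp_add]
    congr 1
    ring
  calc C * (k : ℝ) ^ 6 * Real.exp (k / 2) * Real.exp (θ * (1 - k)) =
      C * (k : ℝ) ^ 6 * (Real.exp (k / 2 : ℝ) * Real.exp (θ * (1 - k))) := by ring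
    _ = _ := by rw [h5]; ring

/-- the low zeros contribute `o(1)` -/
theorem low_zerosT {θ : ℝ} (hθ : 0 < θ) (ε B η : ℝ) (hη : 0 < η) : ∃ X0 : ℝ, ∀ X : ℝ, X0 ≤ X → ∀ Z : Finset ℂ,
    (∀ ρ ∈ Z, riemannZeta ρ = 0 ∧ 1 - ε ≤ ρ.re ∧ |ρ.im| ≤ B) →
    ∑ ρ ∈ Z, mz ρ * X ^ (θ * (ρ.re - 1)) ≤ η := by
  classical
  have hcomp : IsCompact (Set.Icc (1 - ε) 1 ×ℂ Set.Icc (-B) B) :=
    isCompact_Icc.reProdIm isCompact_Icc
  set F : Finset ℂ := hcomp.inter_riemannZetaZeros_finite.toFinset with hF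
  have hmem : ∀ ρ : ℂ, riemannZeta ρ = 0 → 1 - ε ≤ ρ.re → |ρ.im| ≤ B → ρ ∈ F := by
    intro ρ h1 h2 h3
    rw [hF, Set.Finite.mem_toFinset]
    refine ⟨?_, mem_riemannZetaZeros.2 h1⟩
    rw [Complex.mem_reProdIm]
    refine ⟨⟨h2, ?_⟩, abs_le.1 h3⟩
    by_contra h
    exact riemannZeta_ne_zero_of_one_le_re (not_le.1 h).le h1
  have hlim : Tendsto (fun X : ℝ => ∑ ρ ∈ F, mz ρ * X ^ (θ * (ρ.re - 1))) atTop
      (𝓝 (∑ ρ ∈ F, mz ρ * 0)) := by
    refine tendsto_finsetSum _ fun ρ hρ => Tendsto.const_mul _ ?_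
    have h1 : riemannZeta ρ = 0 := by
      rw [hF, Set.Finite.mem_toFinset] at hρ
      exact mem_riemannZetaZeros.1 hρ.2
    have h2 : ρ.re < 1 := by
      by_contra h
      exact riemannZeta_ne_zero_of_one_le_re (not_lt.1 h) h1
    have h3 := tendsto_rpow_neg_atTop (y := θ * (1 - ρ.re)) (mul_pos hθ (by linarith))
    refine h3.congr fun X => ?_
    congr 1
    ring
  simp only [mul_zero, Finset.sum_const_zero] at hlim
  obtain ⟨X0, hX0⟩ := eventually_atTop.1 (hlim.eventually (ge_mem_nhds hη))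
  refine ⟨max X0 0, fun X hX Z hZ => ?_⟩
  refine le_trans ?_ (hX0 X ((le_max_left _ _).trans hX))
  refine Finset.sum_le_sum_of_subset_of_nonneg ?_ ?_
  · intro ρ hρ
    obtain ⟨h1, h2, h3⟩ := hZ ρ hρ
    exact hmem ρ h1 h2 h3
  · intro ρ _ _
    exact mul_nonneg (mz_nonneg ρ) (Real.rpow_nonneg ((le_max_right _ _).trans hX) _)

theorem theoremNT {θ : ℝ} (hθ : 0 < θ) (h10 : InA10) (h : OneLevelT θ) : TheoremNT θ := by
  classical
  obtain ⟨ε, hε, H⟩ := h
  refine ⟨ε, hε, fun η hη => ?_⟩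
  obtain ⟨X1, hX1⟩ := H (η / 4) (by linarith)
  obtain ⟨T0, hT0, hzf⟩ := h10 (1 / θ)
  -- the threshold between low and high zeros
  set B : ℝ := max (max (T0 ^ (10 / 3 : ℝ)) X1) 3 with hB
  have hB3 : 3 ≤ B := le_max_right _ _
  have hBX1 : X1 ≤ B := (le_max_right _ _).trans (le_max_left _ _)
  have hBT0 : T0 ^ (10 / 3 : ℝ) ≤ B := (le_max_left _ _).trans (le_max_left _ _)
  obtain ⟨X2, hX2⟩ := low_zerosT hθ ε (B ^ (6 / 10 : ℝ)) (η / 2) (by (clear * - hη; linarith))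
  refine ⟨max X2 3, fun X hX Z hZ => ?_⟩
  have hXX2 : X2 ≤ X := (le_max_left _ _).trans hX
  have hX3 : 3 ≤ X := (le_max_right _ _).trans hX
  have hX0 : 0 < X := by (clear * - hX3; linarith)
  have hXone : 1 < X := by (clear * - hX3; linarith)
  rw [← Finset.sum_filter_add_sum_filter_not Z (fun ρ => |ρ.im| ≤ B ^ (6 / 10 : ℝ))]
  have hlow : ∑ ρ ∈ Z.filter (fun ρ => |ρ.im| ≤ B ^ (6 / 10 : ℝ)), mz ρ * X ^ (θ * (ρ.re - 1)) ≤
      η / 2 := by
    refine hX2 X hXX2 _ fun ρ hρ => ?_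
    rw [Finset.mem_filter] at hρ
    obtain ⟨h1, h2, -⟩ := hZ ρ hρ.1
    exact ⟨h1, h2, hρ.2⟩
  set Zh := Z.filter (fun ρ => ¬ |ρ.im| ≤ B ^ (6 / 10 : ℝ)) with hZh
  -- levels
  have hlev : ∀ ρ : ℂ, ρ ∈ Zh → ∃ j : ℕ, (X ^ ((1 / 2 : ℝ) ^ j)) ^ (3 / 10 : ℝ) ≤ |ρ.im| ∧
      |ρ.im| ≤ (X ^ ((1 / 2 : ℝ) ^ j)) ^ (6 / 10 : ℝ) := by
    intro ρ hρ
    rw [hZh, Finset.mem_filter, not_le] at hρ
    obtain ⟨h1, h2, h3⟩ := hZ ρ hρ.1
    refine exists_level hXone ?_ h3
    exact lt_of_le_of_lt (Real.one_le_rpow (by (clear * - hB3; linarith)) (by norm_num)) hρ.2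
  choose! lev hlev1 hlev2 using hlev
  have hhigh : ∑ ρ ∈ Zh, mz ρ * X ^ (θ * (ρ.re - 1)) ≤ η / 2 := by
    rw [← Finset.sum_fiberwise_of_maps_to (g := lev) (t := Zh.image lev)
      (fun ρ hρ => Finset.mem_image_of_mem _ hρ)]
    have hfib : ∀ j ∈ Zh.image lev, ∑ ρ ∈ Zh.filter (fun ρ => lev ρ = j), mz ρ * X ^ (θ * (ρ.re - 1)) ≤
        η / 4 * (1 / 2 : ℝ) ^ j := by
      intro j hj
      set Xj : ℝ := X ^ ((1 / 2 : ℝ) ^ j) with hXj
      have hXj0 : 0 < Xj := Real.rpow_pos_of_pos hX0 _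
      -- facts about zeros of the fiber
      have hfacts : ∀ ρ ∈ Zh.filter (fun ρ => lev ρ = j), riemannZeta ρ = 0 ∧ 1 - ε ≤ ρ.re ∧
          Xj ^ (3 / 10 : ℝ) ≤ |ρ.im| ∧ |ρ.im| ≤ Xj ^ (6 / 10 : ℝ) ∧ B ^ (6 / 10 : ℝ) < |ρ.im| := by
        intro ρ hρ
        rw [Finset.mem_filter] at hρ
        have hρZ := hρ.1
        rw [hZh, Finset.mem_filter, not_le] at hρZ
        obtain ⟨h1, h2, h3⟩ := hZ ρ hρZ.1
        have h4 := hlev1 ρ hρ.1
        have h5 := hlev2 ρ hρ.1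
        rw [hρ.2] at h4 h5
        exact ⟨h1, h2, h4, h5, hρZ.2⟩
      -- the fiber is nonempty
      obtain ⟨ρ0, hρ0, hρ0j⟩ := Finset.mem_image.1 hj
      have hXjB : B < Xj := by
        obtain ⟨-, -, -, h5, h6⟩ := hfacts ρ0 (Finset.mem_filter.2 ⟨hρ0, hρ0j⟩)
        have h7 : B ^ (6 / 10 : ℝ) < Xj ^ (6 / 10 : ℝ) := lt_of_lt_of_le h6 h5
        exact (Real.rpow_lt_rpow_iff (by (clear * - hB3; linarith)) hXj0.le (by norm_num)).1 h7
      have hXj1 : 1 < Xj := by (clear * - hB3 hXjB; linarith)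
      have hlogXj : 0 < Real.log Xj := Real.log_pos hXj1
      have hone := hX1 Xj (hBX1.trans hXjB.le) (Zh.filter (fun ρ => lev ρ = j)) (by
        intro ρ hρ
        obtain ⟨h1, h2, h3, h4, -⟩ := hfacts ρ hρ
        exact ⟨h1, h2, h3, h4⟩)
      have hterm : ∀ ρ ∈ Zh.filter (fun ρ => lev ρ = j), mz ρ * X ^ (θ * (ρ.re - 1)) ≤
          (mz ρ * Xj ^ (θ * (ρ.re - 1))) * (1 / 2 : ℝ) ^ j := by
        intro ρ hρ
        obtain ⟨h1, h2, h3, h4, h5⟩ := hfacts ρ hρ
        have hT : T0 ≤ |ρ.im| := by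
          have h6 : T0 ≤ Xj ^ (3 / 10 : ℝ) := by
            have h7 : (T0 ^ (10 / 3 : ℝ)) ^ (3 / 10 : ℝ) ≤ Xj ^ (3 / 10 : ℝ) :=
              Real.rpow_le_rpow (by positivity) (hBT0.trans hXjB.le) (by norm_num)
            rw [← Real.rpow_mul (by (clear * - hT0; linarith))] at h7
            norm_num at h7
            exact h7
          exact h6.trans h3
        have hz := hzf ρ h1 hT
        have him1 : 1 < |ρ.im| := by (clear * - hT0 hT; linarith)
        have hlogim : 0 < Real.log |ρ.im| := Real.log_pos him1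
        have hlogle : Real.log |ρ.im| ≤ Real.log Xj := by
          refine Real.log_le_log (by (clear * - hT0 hT; linarith)) (h4.trans ?_)
          have h8 := Real.rpow_le_rpow_of_exponent_le hXj1.le (by norm_num : (6 / 10 : ℝ) ≤ 1)
          rwa [Real.rpow_one] at h8
        have hx : (1 / θ) / Real.log Xj ≤ 1 - ρ.re := by
          have h9 : (1 / θ) / Real.log Xj ≤ (1 / θ) / Real.log |ρ.im| :=
            div_le_div_of_nonneg_left (by positivity) hlogim hlogle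
          (clear * - hz h9; linarith)
        have hx' : 1 ≤ (1 - ρ.re) * (θ * Real.log Xj) := by
          rw [div_le_iff₀ hlogXj, div_le_iff₀ hθ] at hx
          (clear * - hx; linarith)
        -- X = Xj ^ (2 ^ j)
        have hXXj : X ^ (θ * (ρ.re - 1)) = Xj ^ ((2 : ℝ) ^ j * (θ * (ρ.re - 1))) := by
          rw [hXj, ← Real.rpow_mul hX0.le, ← mul_assoc, ← mul_pow]
          norm_num
        rw [hXXj, mul_assoc]
        refine mul_le_mul_of_nonneg_left ?_ (mz_nonneg ρ)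
        rw [show (2 : ℝ) ^ j * (θ * (ρ.re - 1)) =
            θ * (ρ.re - 1) + ((2 : ℝ) ^ j - 1) * (θ * (ρ.re - 1)) by ring,
          Real.rpow_add hXj0]
        refine mul_le_mul_of_nonneg_left ?_ (Real.rpow_nonneg hXj0.le _)
        rw [Real.rpow_def_of_pos hXj0]
        have h2j : (j : ℝ) ≤ (2 : ℝ) ^ j - 1 := by
          have h10 : (1 : ℝ) + j * 1 ≤ (1 + 1) ^ j := one_add_mul_le_pow (by norm_num) j
          norm_num at h10
          (clear * - h10; linarith)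
        have h11 : Real.log Xj * (((2 : ℝ) ^ j - 1) * (θ * (ρ.re - 1))) ≤ -(j : ℝ) := by
          have h12 : (j : ℝ) * 1 ≤ ((2 : ℝ) ^ j - 1) * ((1 - ρ.re) * (θ * Real.log Xj)) :=
            mul_le_mul h2j hx' (by norm_num) (by (clear * - h2j; linarith [Nat.cast_nonneg (α := ℝ) j]))
          (clear * - h12; linarith)
        refine (Real.exp_le_exp.2 h11).trans ?_
        have h13 : Real.exp (-(j : ℝ)) = (Real.exp (-1)) ^ j := by
          rw [← Real.exp_nat_mul]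
          congr 1
          ring
        rw [h13]
        refine pow_le_pow_left₀ (Real.exp_pos _).le ?_ j
        rw [Real.exp_neg, one_div]
        refine inv_anti₀ (by norm_num) ?_
        have := Real.add_one_le_exp (1 : ℝ)
        (clear * - this; linarith)
      calc ∑ ρ ∈ Zh.filter (fun ρ => lev ρ = j), mz ρ * X ^ (θ * (ρ.re - 1))
          ≤ ∑ ρ ∈ Zh.filter (fun ρ => lev ρ = j), (mz ρ * Xj ^ (θ * (ρ.re - 1))) * (1 / 2 : ℝ) ^ j :=
            Finset.sum_le_sum hterm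
        _ = (∑ ρ ∈ Zh.filter (fun ρ => lev ρ = j), mz ρ * Xj ^ (θ * (ρ.re - 1))) * (1 / 2 : ℝ) ^ j := by
            rw [Finset.sum_mul]
        _ ≤ η / 4 * (1 / 2 : ℝ) ^ j := mul_le_mul_of_nonneg_right hone (by positivity)
    calc ∑ j ∈ Zh.image lev, ∑ ρ ∈ Zh.filter (fun ρ => lev ρ = j), mz ρ * X ^ (θ * (ρ.re - 1))
        ≤ ∑ j ∈ Zh.image lev, η / 4 * (1 / 2 : ℝ) ^ j := Finset.sum_le_sum hfib
      _ = η / 4 * ∑ j ∈ Zh.image lev, (1 / 2 : ℝ) ^ j := by rw [Finset.mul_sum]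
      _ ≤ η / 4 * 2 := by
          refine mul_le_mul_of_nonneg_left ?_ (by (clear * - hη; linarith))
          exact (summable_geometric_two.sum_le_tsum _ (fun j _ => by positivity)).trans
            tsum_geometric_two.le
      _ = η / 2 := by ring
  (clear * - hlow hhigh; linarith)

/-- Theorem N with the weights `X ^ (θ (β - 1))`, for every `θ > 1/2`, heights up to `X ^ 0.6` -/
theorem theoremNTheta {θ : ℝ} (hθ : 1 / 2 < θ) : TheoremNT θ :=
  theoremNT (by (clear * - hθ; linarith)) Helper33.KSZ.inA10 (oneLevelT hθ Helper33.KSZ.inA10 densityM')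

/-- Theorem N for heights up to `X ^ τ`, `τ < 6/5` -/
theorem theoremNHeight {τ : ℝ} (hτ0 : 0 < τ) (hτ : τ < 6 / 5) :
    ∃ ε : ℝ, 0 < ε ∧ ∀ η : ℝ, 0 < η → ∃ X0 : ℝ, ∀ X : ℝ, X0 ≤ X →
    ∀ Z : Finset ℂ, (∀ ρ ∈ Z, riemannZeta ρ = 0 ∧ 1 - ε ≤ ρ.re ∧ |ρ.im| ≤ X ^ τ) →
    ∑ ρ ∈ Z, mz ρ * X ^ (ρ.re - 1) ≤ η := by
  -- `θ = min 1 (0.6 / τ)`
  set θ : ℝ := min 1 (6 / 10 / τ) with hθd
  have hθ1 : θ ≤ 1 := min_le_left _ _
  have hθ : 1 / 2 < θ := by
    rw [hθd, lt_min_iff]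
    refine ⟨by norm_num, ?_⟩
    rw [lt_div_iff₀ hτ0]
    linarith
  have hθ0 : 0 < θ := by (clear * - hθ; linarith)
  have hθτ : τ ≤ 1 / θ * (6 / 10) := by
    have h1 : θ ≤ 6 / 10 / τ := min_le_right _ _
    rw [le_div_iff₀ hτ0] at h1
    rw [div_mul_eq_mul_div, le_div_iff₀ hθ0]
    linarith
  obtain ⟨ε, hε, H⟩ := theoremNTheta hθ
  refine ⟨ε, hε, fun η hη => ?_⟩
  obtain ⟨X0, hX0⟩ := H η hη
  refine ⟨max X0 1, fun X hX Z hZ => ?_⟩
  have hX1 : 1 ≤ X := (le_max_right _ _).trans hX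
  have h1θ : 1 ≤ 1 / θ := by rw [le_div_iff₀ hθ0]; (clear * - hθ1; linarith)
  have hXX : X ≤ X ^ (1 / θ) := by
    calc X = X ^ (1 : ℝ) := (Real.rpow_one X).symm
      _ ≤ X ^ (1 / θ) := Real.rpow_le_rpow_of_exponent_le hX1 h1θ
  have h := hX0 (X ^ (1 / θ)) (((le_max_left _ _).trans hX).trans hXX) Z (by
    intro ρ hρ
    obtain ⟨h1, h2, h3⟩ := hZ ρ hρ
    refine ⟨h1, h2, h3.trans ?_⟩
    rw [← Real.rpow_mul (by (clear * - hX1; linarith))]
    exact Real.rpow_le_rpow_of_exponent_le hX1 hθτ)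
  refine le_trans (le_of_eq ?_) h
  refine Finset.sum_congr rfl fun ρ _ => ?_
  rw [← Real.rpow_mul (by (clear * - hX1; linarith))]
  congr 2
  (clear * - hθ; field_simp)

end Pool.Agent.M20.Helper1.KL
end

/- Helper53.KN.Helper18.KSZ.TheoremN -/
section
/-!
# Theorem N (zeros of zeta near the line 1), unconditional
-/

set_option autoImplicit false

namespace Pool.Agent.M20.Helper18.KSZ

/-- Theorem N -/
theorem theoremN : TheoremN := theoremN_of Helper33.KSZ.inA10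

end Pool.Agent.M20.Helper18.KSZ
end

/- Helper53.KN.Helper60.KC.Final -/
section
/-! The counting theorem, unconditional. -/

set_option autoImplicit false
open Filter Topology
open scoped Classical

namespace Pool.Agent.M20.Helper60.KC
open Pool.Agent.M20.Helper60.KS

theorem inA2 : A2 := by
  obtain ⟨C, hC, h⟩ := Pool.Agent.M20.Helper67.KSZ.A2
  refine ⟨C, hC, fun N N1 t κ h1 h2 h3 h4 h5 h6 => ?_⟩
  have := h N N1 κ t h1 h2 h3 (by linarith) h5
  rwa [← Real.sqrt_eq_rpow] at this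

theorem inA5 : A5 := by
  obtain ⟨C1, hC1, h1⟩ := Pool.Agent.M20.Helper67.KSZ.A5a
  obtain ⟨C2, hC2, h2⟩ := Pool.Agent.M20.Helper67.KSZ.A5b
  refine ⟨max C1 C2, lt_max_of_lt_left hC1, fun t ht => ?_, fun σ t a b ht => ?_⟩
  · refine le_trans (h1 t ht) ?_
    have : 0 < Real.log t := Real.log_pos (by linarith)
    have h3 := le_max_left C1 C2
    gcongr
  · refine le_trans (h2 σ t ht a b) ?_
    have : 0 < Real.log t := Real.log_pos (by linarith)
    have h3 := le_max_right C1 C2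
    have h4 : 0 < t := by linarith
    gcongr

theorem inThmN : ThmN := by
  obtain ⟨ε, hε, h⟩ := Pool.Agent.M20.Helper18.KSZ.theoremN
  obtain ⟨X0, h⟩ := h (1/16) (by norm_num)
  refine ⟨min ε (1/100), X0, lt_min hε (by norm_num), min_le_right _ _, fun X hX F hF => ?_⟩
  refine h X hX F (fun ρ hρ => ?_)
  obtain ⟨a, b, c⟩ := hF ρ hρ
  refine ⟨a, by linarith [min_le_left ε (1/100 : ℝ)], ?_⟩
  have : (6/10 : ℝ) = 0.6 := by norm_num
  rwa [this]

theorem inA9i : A9i := Pool.Agent.M20.Helper33.KSZ.zeta_count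

theorem meanValue : MeanValue := Pool.Agent.M20.Helper65.KC.meanValue
theorem discMV : DiscMV := Pool.Agent.M20.Helper9.KC.discMV meanValue
theorem mvCount : MVCount := Pool.Agent.M20.Helper67.KC.mvCount discMV
theorem huxleyCount : HuxleyCount := Pool.Agent.M20.Helper72.KC.huxleyCount inA2
theorem twoWalk : TwoWalk := Pool.Agent.M20.Helper71.KC.twoWalk Pool.Agent.M20.Helper65.KC.pairCount
theorem sLemma : SLemma := Pool.Agent.M20.Helper1.KC.sLemma discMV twoWalk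
theorem inDetect : Detect := Pool.Agent.M20.Helper26.KC.detect inA5 (Pool.Agent.M20.Helper1.KSZ.a7_helper60 inA5)

end Pool.Agent.M20.Helper60.KC
end

/- Helper53.KN.Helper1.KF.Main -/
section
/-!
# F2: almost all cells of length `X^(1/2 + w - d)`, `w ≤ 0`, contain the right order of primes
-/

set_option autoImplicit false
set_option maxHeartbeats 4000000
open Filter Topology
open scoped Classical

namespace Pool.Agent.M20.Helper1.KF

open Pool.Agent.M20.Helper60.KS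
open Pool.Agent.M20.Helper60.KC (term_le low_zeros small)

/-- everything that holds at one large `X` -/
lemma main_count {C τ ρ1 ε0 η d X : ℝ} (hε : 0 < ε0) (hη : 0 < η) (hη1 : η ≤ 1/1000)
    (hC : 0 < C) (hX8 : 8 ≤ X) (hl : 10 ≤ Real.log X)
    (hA : ∀ (t : ℝ) (F : Finset ℂ), (∀ ρ ∈ F, riemannZeta ρ = 0 ∧ 1/2 ≤ ρ.re ∧ |ρ.im - t| ≤ 1) →
      ∑ ρ ∈ F, (mz ρ : ℝ) ≤ C * Real.log (|t| + 2))
    (hN : ∀ F : Finset ℂ, (∀ ρ ∈ F, riemannZeta ρ = 0 ∧ 1 - ε0 ≤ ρ.re ∧ |ρ.im| ≤ X ^ (τ + 2 * d) + 1) →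
      ∑ ρ ∈ F, (mz ρ : ℝ) * X ^ (ρ.re - 1) ≤ 1/16)
    (hK : ∀ (x : ℝ) (Z : Finset ℂ) (c : ℂ → ℂ) (U : Finset ℝ), ε0 ≤ x → x ≤ 1/2 →
      InStrip Z (1 - x) (1 - x + η) (X ^ (τ + 2 * d) + 1) → Spaced1 Z →
      (∀ ρ ∈ Z, riemannZeta ρ = 0 ∧ Real.log X ^ 2 ≤ |ρ.im|) →
      (∀ ρ ∈ Z, ‖c ρ‖ ≤ Real.log X ^ 2) → (∀ u ∈ U, Real.log X ≤ u ∧ u ≤ Real.log X + 1) →
      SpacedR U (1 / X ^ (τ + 2 * d)) →
      (∀ u ∈ U, 1 / Real.log X ^ 4 ≤ ‖∑ ρ ∈ Z, c ρ * Complex.exp ((ρ - 1) * (u : ℂ))‖) →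
      (U.card : ℝ) ≤ X ^ ρ1)
    (hS : SplitSpaced)
    (hx1 : X ^ (τ + 2 * d) + 4 ≤ X)
    (hx3 : 240 * C * Real.log X ^ 4 ≤ X ^ ε0)
    (hx4 : 8 * (1 / η + 2) * (C + 1) ≤ Real.log X)
    (hx5 : 2 * (C * Real.log X) ≤ Real.log X ^ 2)
    (F : Finset ℂ) (c : ℂ → ℂ) (u : ℕ → ℝ) (J : ℕ)
    (hF : ∀ ρ ∈ F, riemannZeta ρ = 0 ∧ 0.57 < ρ.re ∧ |ρ.im| ≤ X ^ (τ + 2 * d) + 1)
    (hc : ∀ ρ ∈ F, ‖c ρ‖ ≤ 2)
    (hu : ∀ j < J, Real.log X ≤ u j ∧ u j ≤ Real.log X + 1)
    (hus : ∀ j < J, ∀ j' < J, j ≠ j' → 1 / X ^ (τ + 2 * d) ≤ |u j - u j'|) :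
    (((Finset.range J).filter (fun j => 1/2 ≤ ‖∑ ρ ∈ F, (mz ρ : ℂ) * c ρ *
      Complex.exp ((ρ - 1) * (u j : ℂ))‖)).card : ℝ) ≤ Real.log X ^ 3 * X ^ ρ1 := by
  have hX0 : 1 < X := by (clear * - hη hη1 hX8; linarith)
  set l := Real.log X with hldef
  have hl0 : 0 < l := by linarith
  have hXp : 0 < X := by (clear * - hη hη1 hX8; linarith)
  -- the three parts
  set P1 : ℂ → Prop := fun ρ => 1 - ε0 ≤ ρ.re with hP1
  set P2 : ℂ → Prop := fun ρ => |ρ.im| < l ^ 2 with hP2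
  set F1 := F.filter P1 with hF1
  set F2 := (F.filter (fun ρ => ¬ P1 ρ)).filter P2 with hF2
  exact by
    set F3a := (F.filter (fun ρ => ¬ P1 ρ)).filter (fun ρ => ¬ P2 ρ) with hF3a
    set F3 := F3a.filter (fun ρ => mz ρ ≠ 0) with hF3
    set f : ℝ → ℂ → ℂ := fun v ρ => (mz ρ : ℂ) * c ρ * Complex.exp ((ρ - 1) * (v : ℂ)) with hf
    have hsplit : ∀ v : ℝ, ∑ ρ ∈ F, f v ρ = ∑ ρ ∈ F1, f v ρ + (∑ ρ ∈ F2, f v ρ + ∑ ρ ∈ F3, f v ρ) := by
      intro v
      have e3 : ∑ ρ ∈ F3a, f v ρ = ∑ ρ ∈ F3, f v ρ := by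
        symm
        rw [hF3]
        apply Finset.sum_filter_of_ne
        intro ρ hρ h hm
        apply h
        simp [hf, hm]
      rw [← e3, hF2, hF3a, Finset.sum_filter_add_sum_filter_not, hF1, Finset.sum_filter_add_sum_filter_not]
    have hpart1 : ∀ v : ℝ, l ≤ v → ‖∑ ρ ∈ F1, f v ρ‖ ≤ 1/8 := by
      intro v hv
      refine le_trans (norm_sum_le _ _) ?_
      have h1 : ∀ ρ ∈ F1, ‖f v ρ‖ ≤ 2 * ((mz ρ : ℝ) * X ^ (ρ.re - 1)) := by
        intro ρ hρ
        rw [hF1, Finset.mem_filter] at hρ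
        exact term_le hX0 (hF ρ hρ.1).1 (hc ρ hρ.1) hv
      refine le_trans (Finset.sum_le_sum h1) ?_
      rw [← Finset.mul_sum]
      have h2 := hN F1 (by
        intro ρ hρ
        rw [hF1, Finset.mem_filter] at hρ
        exact ⟨(hF ρ hρ.1).1, hρ.2, (hF ρ hρ.1).2.2⟩)
      (clear * - h2; linarith)
    have hpart2 : ∀ v : ℝ, l ≤ v → ‖∑ ρ ∈ F2, f v ρ‖ ≤ 1/8 := by
      intro v hv
      refine le_trans (norm_sum_le _ _) ?_
      have h1 : ∀ ρ ∈ F2, ‖f v ρ‖ ≤ 2 * X ^ (-ε0) * (mz ρ : ℝ) := by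
        intro ρ hρ
        rw [hF2, Finset.mem_filter, Finset.mem_filter] at hρ
        refine le_trans (term_le hX0 (hF ρ hρ.1.1).1 (hc ρ hρ.1.1) hv) ?_
        have h3 : ρ.re < 1 - ε0 := not_le.mp hρ.1.2
        have h4 : X ^ (ρ.re - 1) ≤ X ^ (-ε0) := Real.rpow_le_rpow_of_exponent_le hX0.le (by (clear * - hρ; linarith))
        have h5 : (0:ℝ) ≤ mz ρ := Nat.cast_nonneg _
        (clear * - h4; nlinarith)
      refine le_trans (Finset.sum_le_sum h1) ?_
      rw [← Finset.mul_sum]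
      have h2 := low_zeros hC hA ⌈l ^ 2⌉₊ F2 (by
        clear * - hF2 hF hη hη1; intro ρ hρ
        rw [hF2, Finset.mem_filter, Finset.mem_filter] at hρ
        have h3 : |ρ.im| < l ^ 2 := hρ.2
        refine ⟨(hF ρ hρ.1.1).1, by (clear * - hη hη1 hF hρ; linarith [(hF ρ hρ.1.1).2.1]), ?_⟩
        exact le_trans h3.le (Nat.le_ceil _))
      have hM : (⌈l ^ 2⌉₊ : ℝ) < l ^ 2 + 1 := Nat.ceil_lt_add_one (by positivity)
      set M := (⌈l ^ 2⌉₊ : ℝ) with hMdef
      have hM0 : 0 ≤ M := Nat.cast_nonneg _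
      have hlog : Real.log (M + 2) ≤ M + 1 := by
        have := Real.log_le_sub_one_of_pos (show 0 < M + 2 by linarith); (clear * - this; linarith)
      have hl2 : 100 ≤ l ^ 2 := by (clear * - hl; nlinarith)
      have h6 : (2 * M + 1) * (C * Real.log (M + 2)) ≤ (5 * l ^ 2) * (C * (3 * l ^ 2)) := by
        apply mul_le_mul (by (clear * - hη hη1 hM hl2; linarith)) _ _ (by positivity)
        · apply mul_le_mul_of_nonneg_left (by (clear * - hη hη1 hM hlog hl2; linarith)) hC.le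
        · have : 0 ≤ Real.log (M + 2) := Real.log_nonneg (by linarith)
          (clear * - hC this; positivity)
      have h7 : X ^ (-ε0) * X ^ ε0 = 1 := by
        rw [← Real.rpow_add hXp]; simp
      have h8 : 0 < X ^ (-ε0) := Real.rpow_pos_of_pos hXp _
      calc 2 * X ^ (-ε0) * ∑ ρ ∈ F2, (mz ρ : ℝ) ≤ 2 * X ^ (-ε0) * ((5 * l ^ 2) * (C * (3 * l ^ 2))) := by
            apply mul_le_mul_of_nonneg_left (le_trans h2 h6) (by positivity)
        _ = 1/8 * (X ^ (-ε0) * (240 * C * l ^ 4)) := by ring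
        _ ≤ 1/8 * (X ^ (-ε0) * X ^ ε0) := by
            apply mul_le_mul_of_nonneg_left _ (by norm_num)
            exact mul_le_mul_of_nonneg_left hx3 h8.le
        _ = 1/8 := by rw [h7]; norm_num
    -- classes of F3
    have hF3' : ∀ ρ ∈ F3, riemannZeta ρ = 0 ∧ 0.57 < ρ.re ∧ ρ.re < 1 - ε0 ∧ l ^ 2 ≤ |ρ.im| ∧
        |ρ.im| ≤ X ^ (τ + 2 * d) + 1 ∧ 1 ≤ mz ρ ∧ ‖c ρ‖ ≤ 2 := by
      intro ρ hρ
      rw [hF3, Finset.mem_filter, hF3a, Finset.mem_filter, Finset.mem_filter] at hρ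
      obtain ⟨⟨⟨h1, h2⟩, h3⟩, h4⟩ := hρ
      exact ⟨(hF ρ h1).1, (hF ρ h1).2.1, not_le.mp h2, not_lt.mp h3, (hF ρ h1).2.2, Nat.one_le_iff_ne_zero.mpr h4, hc ρ h1⟩
    set a : ℂ → ℕ := fun ρ => ⌈(1 - ρ.re) / η⌉₊ with ha
    exact by
      have hax : ∀ ρ ∈ F3, 1 - ρ.re ≤ η * a ρ ∧ η * a ρ < 1 - ρ.re + η := by
        intro ρ hρ
        obtain ⟨-, h2, h3, -⟩ := hF3' ρ hρ
        constructor
        · have := Nat.le_ceil ((1 - ρ.re) / η)
          rw [div_le_iff₀ hη] at this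
          rw [mul_comm]; exact this
        · have := Nat.ceil_lt_add_one (show 0 ≤ (1 - ρ.re) / η by apply div_nonneg (by (clear * - hε h3; linarith)) hη.le)
          have h5 : η * (a ρ : ℝ) < η * ((1 - ρ.re) / η + 1) := mul_lt_mul_of_pos_left this hη
          have h6 : η * ((1 - ρ.re) / η + 1) = 1 - ρ.re + η := by (clear * - hη; field_simp)
          (clear * - h5 h6; linarith)
      have hMM : ∀ t : ℝ, (F3.filter (fun ρ => |ρ.im - t| ≤ 1)).card ≤ ⌈C * l⌉₊ := by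
        intro t
        rcases Finset.eq_empty_or_nonempty (F3.filter (fun ρ => |ρ.im - t| ≤ 1)) with he | ⟨ρ0, hρ0⟩
        · rw [he]; simp
        have h1 := hA t (F3.filter (fun ρ => |ρ.im - t| ≤ 1)) (by
          clear * - hF3' hη hη1; intro ρ hρ
          rw [Finset.mem_filter] at hρ
          obtain ⟨h1, h2, -⟩ := hF3' ρ hρ.1
          exact ⟨h1, by (clear * - hη hη1 h2; linarith), hρ.2⟩)
        rw [Finset.mem_filter] at hρ0
        obtain ⟨-, -, -, -, h5, -⟩ := hF3' ρ0 hρ0.1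
        have h6 : |t| ≤ |ρ0.im| + 1 := by
          have h7 : |t| ≤ |ρ0.im| + |ρ0.im - t| := by
            have := abs_sub_abs_le_abs_sub t ρ0.im
            rw [abs_sub_comm] at this; (clear * - this; linarith)
          linarith [hρ0.2]
        have h8 : Real.log (|t| + 2) ≤ l := Real.log_le_log (by (clear * -; positivity)) (by (clear * - hx1 h5 h6; linarith))
        have h9 : ((F3.filter (fun ρ => |ρ.im - t| ≤ 1)).card : ℝ) ≤ ∑ ρ ∈ F3.filter (fun ρ => |ρ.im - t| ≤ 1), (mz ρ : ℝ) := by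
          rw [← nsmul_one]
          apply Finset.card_nsmul_le_sum
          intro ρ hρ
          rw [Finset.mem_filter] at hρ
          exact_mod_cast (hF3' ρ hρ.1).2.2.2.2.2.1
        have h10 : ((F3.filter (fun ρ => |ρ.im - t| ≤ 1)).card : ℝ) ≤ ⌈C * l⌉₊ :=
          le_trans h9 (le_trans h1 (le_trans (mul_le_mul_of_nonneg_left h8 hC.le) (Nat.le_ceil _)))
        exact_mod_cast h10
      obtain ⟨col, hcol1, hcol2⟩ := hS F3 ⌈C * l⌉₊ hMM
      set A0 := ⌈1 / η⌉₊ + 1 with hA0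
      set M0 := ⌈C * l⌉₊ with hM0
      set KK := Finset.range A0 ×ˢ Finset.range M0 with hKK
      set φ : ℂ → ℕ × ℕ := fun ρ => (a ρ, col ρ) with hφ
      have hmaps : ∀ ρ ∈ F3, φ ρ ∈ KK := by
        intro ρ hρ
        obtain ⟨h1, h2, h3, h4, h5, -⟩ := hF3' ρ hρ
        simp only [hφ, hKK, Finset.mem_product, Finset.mem_range]
        refine ⟨?_, hcol1 ρ hρ⟩
        have : a ρ ≤ ⌈1 / η⌉₊ := by
          apply Nat.ceil_mono
          apply div_le_div_of_nonneg_right (by (clear * - hη hη1 h2; linarith)) hη.le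
        omega
      have hKcard : (KK.card : ℝ) ≤ l ^ 3 := by
        rw [hKK, Finset.card_product, Finset.card_range, Finset.card_range]
        push_cast
        have e1 : (A0 : ℝ) ≤ 1 / η + 2 := by
          rw [hA0]; push_cast
          have := Nat.ceil_lt_add_one (show 0 ≤ 1 / η by positivity); (clear * - this; linarith)
        have e3 : (M0 : ℝ) ≤ (C + 1) * l := by
          rw [hM0]
          have := Nat.ceil_lt_add_one (show 0 ≤ C * l by positivity); (clear * - hη hη1 hl this; linarith)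
        have hl1 : 1 ≤ l := by (clear * - hη hη1 hl; linarith)
        calc (A0 : ℝ) * M0 ≤ (1 / η + 2) * ((C + 1) * l) := by
              apply mul_le_mul e1 e3 (by positivity) (by positivity)
          _ = ((1 / η + 2) * (C + 1)) * l := by ring
          _ ≤ l * l := by
              apply mul_le_mul_of_nonneg_right _ (by positivity)
              have : 0 ≤ (1 / η + 2) * (C + 1) := by positivity
              (clear * - hη hη1 hl hx4; linarith)
          _ = l ^ 2 := by ring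
          _ ≤ l ^ 3 := pow_le_pow_right₀ hl1 (by norm_num)
      exact by
        set S : ℕ × ℕ → ℝ → ℂ := fun κ v => ∑ ρ ∈ F3 with φ ρ = κ, f v ρ with hSdef
        set BK : ℕ × ℕ → Finset ℕ := fun κ => (Finset.range J).filter (fun j => 1 / l ^ 4 ≤ ‖S κ (u j)‖) with hBK
        have hcover : (Finset.range J).filter (fun j => 1/2 ≤ ‖∑ ρ ∈ F, f (u j) ρ‖) ⊆ KK.biUnion BK := by
          intro j hj
          rw [Finset.mem_filter, Finset.mem_range] at hj
          obtain ⟨hj1, hj2⟩ := hj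
          obtain ⟨hu1, hu2⟩ := hu j hj1
          rw [Finset.mem_biUnion]
          by_contra hcon
          push Not at hcon
          have h1 : ∀ κ ∈ KK, ‖S κ (u j)‖ ≤ 1 / l ^ 4 := by
            intro κ hκ
            have := hcon κ hκ
            rw [hBK, Finset.mem_filter, Finset.mem_range] at this
            push Not at this
            exact (this hj1).le
          have h2 : ‖∑ ρ ∈ F3, f (u j) ρ‖ ≤ l ^ 3 * (1 / l ^ 4) := by
            rw [← Finset.sum_fiberwise_of_maps_to hmaps]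
            refine le_trans (norm_sum_le _ _) ?_
            refine le_trans (Finset.sum_le_sum h1) ?_
            rw [Finset.sum_const, nsmul_eq_mul]
            exact mul_le_mul_of_nonneg_right hKcard (by positivity)
          have h3 : l ^ 3 * (1 / l ^ 4) = 1 / l := by field_simp
          have h4 : 1 / l ≤ 1/10 := by
            apply one_div_le_one_div_of_le (by norm_num) hl
          rw [hsplit] at hj2
          have h5 := norm_add_le (∑ ρ ∈ F1, f (u j) ρ) (∑ ρ ∈ F2, f (u j) ρ + ∑ ρ ∈ F3, f (u j) ρ)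
          have h6 := norm_add_le (∑ ρ ∈ F2, f (u j) ρ) (∑ ρ ∈ F3, f (u j) ρ)
          have h7 := hpart1 (u j) hu1
          have h8 := hpart2 (u j) hu1
          rw [h3] at h2
          (clear * - hη hη1 hj2 h2 h4 h5 h6 h7 h8; linarith)
        have hBcard : ∀ κ ∈ KK, ((BK κ).card : ℝ) ≤ X ^ ρ1 := by
          intro κ hκ
          have hinj : Set.InjOn u (BK κ : Set ℕ) := by
            intro j hj j' hj' he
            by_contra hne
            rw [Finset.mem_coe, hBK, Finset.mem_filter, Finset.mem_range] at hj hj'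
            have := hus j hj.1 j' hj'.1 hne
            rw [he, sub_self, abs_zero] at this
            have h2 : 0 < 1 / X ^ (τ + 2 * d) := by positivity
            (clear * - this h2; linarith)
          have hcardU : ((BK κ).image u).card = (BK κ).card := Finset.card_image_of_injOn hinj
          rw [← hcardU]
          rcases Finset.eq_empty_or_nonempty (F3.filter (fun ρ => φ ρ = κ)) with he | ⟨ρ0, hρ0⟩
          · have : BK κ = ∅ := by
              rw [hBK]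
              apply Finset.filter_eq_empty_iff.mpr
              intro j hj
              rw [hSdef]
              simp only [he, Finset.sum_empty, norm_zero, not_le]
              positivity
            rw [this]; simp; positivity
          obtain ⟨ka, kc⟩ := κ
          have hρ0' := Finset.mem_filter.mp hρ0
          have hκeq : ∀ ρ ∈ F3.filter (fun ρ => φ ρ = (ka, kc)), ρ ∈ F3 ∧ a ρ = ka ∧ col ρ = kc := by
            intro ρ hρ
            have h1 := Finset.mem_filter.mp hρ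
            have h2 := h1.2
            simp only [hφ, Prod.mk.injEq] at h2
            exact ⟨h1.1, h2.1, h2.2⟩
          obtain ⟨g1, g2, g4⟩ := hκeq ρ0 hρ0
          obtain ⟨b1, b2, b3, b4, b5, b6, b7⟩ := hF3' ρ0 g1
          obtain ⟨b8, b9⟩ := hax ρ0 g1
          rw [g2] at b8 b9
          refine hK (η * ka) (F3.filter (fun ρ => φ ρ = (ka, kc))) (fun ρ => (mz ρ : ℂ) * c ρ) _
            (by (clear * - b3 b8; linarith)) (by (clear * - hη hη1 b2 b9; linarith)) ?_ ?_ ?_ ?_ ?_ ?_ ?_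
          · clear * - hκeq hax hF3'; intro ρ hρ
            obtain ⟨e1, e2, e4⟩ := hκeq ρ hρ
            obtain ⟨c1, c2⟩ := hax ρ e1
            rw [e2] at c1 c2
            exact ⟨by (clear * - c1; linarith), by (clear * - c2; linarith), (hF3' ρ e1).2.2.2.2.1⟩
          · intro ρ hρ ρ' hρ' hne
            obtain ⟨e1, e2, e4⟩ := hκeq ρ hρ
            obtain ⟨e1', e2', e4'⟩ := hκeq ρ' hρ'
            exact hcol2 kc ρ (Finset.mem_filter.mpr ⟨e1, e4⟩) ρ' (Finset.mem_filter.mpr ⟨e1', e4'⟩) hne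
          · intro ρ hρ
            obtain ⟨e1, e2, e4⟩ := hκeq ρ hρ
            exact ⟨(hF3' ρ e1).1, (hF3' ρ e1).2.2.2.1⟩
          · clear * - hκeq hF3' hA hη hη1 hx1 hC hl hx5; intro ρ hρ
            exact by
              obtain ⟨e1, e2, e4⟩ := hκeq ρ hρ
              obtain ⟨d1, d2, d3, d4, d5, d6, d7⟩ := hF3' ρ e1
              rw [norm_mul, Complex.norm_natCast]
              have h1 := hA ρ.im {ρ} (by
                intro ρ' hρ'
                rw [Finset.mem_singleton] at hρ'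
                subst hρ'
                exact ⟨d1, by (clear * - hη hη1 d2; linarith), by simp⟩)
              rw [Finset.sum_singleton] at h1
              have h2 : Real.log (|ρ.im| + 2) ≤ l := Real.log_le_log (by (clear * -; positivity)) (by (clear * - hη hη1 hx1 d5; linarith))
              have h3 : (mz ρ : ℝ) ≤ C * l := le_trans h1 (mul_le_mul_of_nonneg_left h2 hC.le)
              calc (mz ρ : ℝ) * ‖c ρ‖ ≤ (C * l) * 2 := mul_le_mul h3 d7 (norm_nonneg _) (by positivity)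
                _ ≤ l ^ 2 := by (clear * - hx5; linarith)
          · intro v hv
            obtain ⟨j, hj, rfl⟩ := Finset.mem_image.mp hv
            rw [hBK, Finset.mem_filter, Finset.mem_range] at hj
            exact hu j hj.1
          · intro v hv v' hv' hne
            obtain ⟨j, hj, rfl⟩ := Finset.mem_image.mp hv
            obtain ⟨j', hj', rfl⟩ := Finset.mem_image.mp hv'
            rw [hBK, Finset.mem_filter, Finset.mem_range] at hj hj'
            exact hus j hj.1 j' hj'.1 (fun h => hne (by rw [h]))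
          · intro v hv
            obtain ⟨j, hj, rfl⟩ := Finset.mem_image.mp hv
            rw [hBK, Finset.mem_filter, Finset.mem_range] at hj
            exact hj.2
        have hfinal : (((Finset.range J).filter (fun j => 1/2 ≤ ‖∑ ρ ∈ F, f (u j) ρ‖)).card : ℝ) ≤
            ∑ κ ∈ KK, ((BK κ).card : ℝ) := by
          have h1 := le_trans (Finset.card_le_card hcover) Finset.card_biUnion_le
          exact_mod_cast h1
        calc (((Finset.range J).filter (fun j => 1/2 ≤ ‖∑ ρ ∈ F, f (u j) ρ‖)).card : ℝ) ≤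
            ∑ κ ∈ KK, ((BK κ).card : ℝ) := hfinal
          _ ≤ ∑ κ ∈ KK, X ^ ρ1 := Finset.sum_le_sum hBcard
          _ = KK.card * X ^ ρ1 := by rw [Finset.sum_const, nsmul_eq_mul]
          _ ≤ l ^ 3 * X ^ ρ1 := mul_le_mul_of_nonneg_right hKcard (by positivity)

/-- the elementary conditions of `main_count` for large `X` -/
lemma large_X {C τ' τ1 ρ1 ε0 η A U : ℝ} (hε : 0 < ε0) (hτ : τ' < τ1) (hτ0 : 0 ≤ τ') (hτ1 : τ' < 1) (hC : 0 < C)
    (hA : A < U) (hρ : ρ1 < U) :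
    ∀ᶠ X : ℝ in atTop,
    8 ≤ X ∧ 10 ≤ Real.log X ∧ X ^ τ' + 4 ≤ X ∧ X ^ τ' + 1 ≤ X ^ τ1 ∧
    240 * C * Real.log X ^ 4 ≤ X ^ ε0 ∧ 8 * (1 / η + 2) * (C + 1) ≤ Real.log X ∧
    2 * (C * Real.log X) ≤ Real.log X ^ 2 ∧
    X ^ A + Real.log X ^ 3 * X ^ ρ1 ≤ X ^ U := by
  have ev : ∀ B : ℝ, ∀ᶠ X : ℝ in atTop, B ≤ Real.log X := fun B =>
    Real.tendsto_log_atTop.eventually (eventually_ge_atTop B)
  set ζ := min (U - A) (U - ρ1) with hζdef
  have hζ : 0 < ζ := lt_min (by (clear * - hA; linarith)) (by (clear * - hρ; linarith))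
  have hζ1 : ζ ≤ U - A := min_le_left _ _
  have hζ2 : ζ ≤ U - ρ1 := min_le_right _ _
  filter_upwards [eventually_ge_atTop 8, ev 10, small (Real.log (240 * C)) 4 ε0 hε,
    ev (8 * (1 / η + 2) * (C + 1)), ev (2 * C), small 0 3 (ζ/2) (by (clear * - hA hρ; positivity)), ev (2 / ζ),
    ev (2 / (1 - τ')), ev (2 / (τ1 - τ'))] with X h8 hl h3 h4 h5 h6 h7 h9 h10
  have hX : 0 < X := by (clear * - h8; linarith)
  have hX1 : 1 ≤ X := by (clear * - h8; linarith)
  have hl0 : 0 < Real.log X := by (clear * - hl; linarith)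
  exact by
    set l := Real.log X with hldef
    have e1 : 1 ≤ X ^ τ' := Real.one_le_rpow hX1 hτ0
    have g1 : 5 ≤ X ^ (1 - τ') := by
      rw [div_le_iff₀ (by (clear * - hτ1; linarith))] at h9
      have h11 : (5:ℝ) ≤ Real.exp 2 := by
        have h12 := Real.add_one_le_exp (2:ℝ)
        have h13 : Real.exp 2 = Real.exp 1 * Real.exp 1 := by rw [← Real.exp_add]; norm_num
        have h14 := Real.exp_one_gt_d9
        rw [h13]; (clear * - h14; nlinarith)
      refine h11.trans ?_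
      rw [Real.rpow_def_of_pos hX]
      exact Real.exp_le_exp.2 (by (clear * - h9; linarith))
    have g2 : 2 ≤ X ^ (τ1 - τ') := by
      rw [div_le_iff₀ (by (clear * - hτ; linarith))] at h10
      have h11 : (2:ℝ) ≤ Real.exp 2 := by
        have h12 := Real.add_one_le_exp (2:ℝ); (clear * - h12; linarith)
      refine h11.trans ?_
      rw [Real.rpow_def_of_pos hX]
      exact Real.exp_le_exp.2 (by (clear * - h10; linarith))
    have g3 : X = X ^ τ' * X ^ (1 - τ') := by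
      rw [← Real.rpow_add hX]; norm_num
    have g4 : X ^ τ1 = X ^ τ' * X ^ (τ1 - τ') := by
      rw [← Real.rpow_add hX]; norm_num
    refine ⟨h8, hl, ?_, ?_, ?_, h4, ?_, ?_⟩
    · clear * - g1 h8 g3; have : X ^ τ' * 5 ≤ X ^ τ' * X ^ (1 - τ') := mul_le_mul_of_nonneg_left g1 (by positivity)
      (clear * - h8 g3 this; linarith)
    · rw [g4]
      have : X ^ τ' * 2 ≤ X ^ τ' * X ^ (τ1 - τ') := mul_le_mul_of_nonneg_left g2 (by positivity)
      (clear * - e1 this; linarith)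
    · clear * - hC hl h8 hX h3; rw [← Real.log_le_log_iff (by positivity) (by positivity), Real.log_mul (by positivity) (by positivity),
        Real.log_pow, Real.log_rpow hX]
      simpa using h3
    · (clear * - h5 hl; nlinarith)
    · have f1 : l ^ 3 ≤ X ^ (ζ / 2) := by
        rw [← Real.log_le_log_iff (by positivity) (by positivity), Real.log_pow, Real.log_rpow hX]
        simpa using h6
      exact by
        clear * - f1 h8 hX hζ2 hA hζ1 hζ h7; have f2 : l ^ 3 * X ^ ρ1 ≤ X ^ (U - ζ / 2) := by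
          calc l ^ 3 * X ^ ρ1 ≤ X ^ (ζ / 2) * X ^ ρ1 :=
                mul_le_mul_of_nonneg_right f1 (by positivity)
            _ = X ^ (ζ / 2 + ρ1) := by rw [← Real.rpow_add hX]
            _ ≤ X ^ (U - ζ / 2) := Real.rpow_le_rpow_of_exponent_le (by (clear * - h8; linarith)) (by (clear * - hζ2; linarith))
        have f3 : X ^ A ≤ X ^ (U - ζ / 2) := Real.rpow_le_rpow_of_exponent_le (by (clear * - h8; linarith)) (by (clear * - hA hζ1; linarith))
        have f4 : (2:ℝ) ≤ X ^ (ζ / 2) := by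
          rw [← Real.log_le_log_iff (by norm_num) (by positivity), Real.log_rpow hX]
          have h22 := Real.log_two_lt_d9
          have h23 : 1 ≤ ζ / 2 * l := by
            rw [div_le_iff₀ hζ] at h7; (clear * - h7; linarith)
          (clear * - h22 h23; linarith)
        have f5 : X ^ U = X ^ (U - ζ / 2) * X ^ (ζ / 2) := by
          rw [← Real.rpow_add hX]; congr 1; ring
        have f6 : 0 < X ^ (U - ζ / 2) := by positivity
        rw [f5]; (clear * - f2 f3 f4 f6; nlinarith)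

/-- **almost all cells**: for `w1 ≤ w ≤ 0` all but `X^(1/2 - w - 20 η)` of the `X^(1/2 - w + d)` cells of length
`X^(1/2 + w - d)` contain the right order of primes; `η > 0` is independent of `w` and `d`. -/
theorem countW_uniform {A x1 w1 η1 : ℝ} (hA : 0 ≤ A) (hAx : A * x1 ≤ 2) (hD : Dens A x1)
    (hw1 : -(33/100) ≤ w1) (h1 : A * (1/2 - w1) < 2) (h2 : 1/2 - w1 < 2 * x1) (hη1p : 0 < η1) :
    ∃ η : ℝ, 0 < η ∧ η ≤ η1 ∧ ∀ w : ℝ, w1 ≤ w → w ≤ 0 → CountW w (1/2 - w - 20 * η) := by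
  obtain ⟨C, hC, hA9⟩ := Pool.Agent.M20.Helper60.KC.inA9i
  obtain ⟨ε1, hε1, hN⟩ := Pool.Agent.M20.Helper1.KL.theoremNHeight (τ := 9/10) (by norm_num) (by norm_num)
  obtain ⟨XN, hN⟩ := hN (1/16) (by norm_num)
  set ε0 := min ε1 (1/100) with hε0
  have hε0p : 0 < ε0 := lt_min hε1 (by norm_num)
  have hε0a : ε0 ≤ ε1 := min_le_left _ _
  have hε0b : ε0 ≤ 1/100 := min_le_right _ _
  set τ1 := 1/2 - w1 with hτ1def
  set η := min (min (((2 - A * τ1) * ε0) / 50) ((2 * x1 - τ1) / 50)) (min (min (1/2500) η1) ε0) with hηdef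
  have hη : 0 < η := by
    refine lt_min (lt_min ?_ ?_) (lt_min (lt_min (by norm_num) hη1p) hε0p)
    · clear * - h1 hε1; have : 0 < 2 - A * τ1 := by (clear * - h1; linarith)
      (clear * - h1 hε1; positivity)
    · have : 0 < 2 * x1 - τ1 := by (clear * - h2; linarith)
      positivity
  have hη1' : η ≤ 1/2500 := (min_le_right _ _).trans ((min_le_left _ _).trans (min_le_left _ _))
  exact by
    clear * - hη hη1' hτ1def hw1 hA hε0p hAx hD hC hA9 hN hε0a; have hη1 : η ≤ 1/1000 := by (clear * - hη hη1'; linarith)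
    have hηη1 : η ≤ η1 := (min_le_right _ _).trans ((min_le_left _ _).trans (min_le_right _ _))
    have hη2 : η ≤ ε0 := (min_le_right _ _).trans (min_le_right _ _)
    have hη3' : 50 * η ≤ (2 - A * τ1) * ε0 := by
      have : η ≤ ((2 - A * τ1) * ε0) / 50 := (min_le_left _ _).trans (min_le_left _ _)
      (clear * - this; linarith)
    have hη4' : 50 * η ≤ 2 * x1 - τ1 := by
      have : η ≤ (2 * x1 - τ1) / 50 := (min_le_left _ _).trans (min_le_right _ _)
      (clear * - this; linarith)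
    refine ⟨η, hη, hηη1, fun w hww hw0 => ?_⟩
    exact by
      set τ := 1/2 - w with hτdef
      have hτ1 : 1/2 ≤ τ := by (clear * - hτ1def hw0; linarith)
      have hτ2 : τ ≤ 83/100 := by (clear * - hw1 hτ1def hww; linarith)
      have hττ : τ ≤ τ1 := by (clear * - hww; linarith)
      have hη3 : 50 * η ≤ (2 - A * τ) * ε0 := by
        have h3 : A * τ ≤ A * τ1 := mul_le_mul_of_nonneg_left hττ hA
        have h4 : (2 - A * τ1) * ε0 ≤ (2 - A * τ) * ε0 := mul_le_mul_of_nonneg_right (by (clear * - h3; linarith)) hε0p.le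
        (clear * - hη3' h4; linarith)
      have hη4 : 50 * η ≤ 2 * x1 - τ := by (clear * - hη4' hww; linarith)
      refine ⟨η, hη, fun d hd hd0 => ?_⟩
      exact by
        obtain ⟨c0, hc0, K1, hB⟩ := Pool.Agent.M20.Helper1.KL.badZeroN (w := w) (by (clear * - hw1 hww; linarith)) (by (clear * - hη hη1' hw0; linarith)) d hd (by (clear * - hη hη1' hd0; linarith))
        obtain ⟨X3, hCB⟩ := clsBound hA hAx hD hτ1 (by (clear * - hw1 hτ1def hη hη1' hww; linarith)) hε0p hη hη1 hη2 hη3 hη4 hd hd0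
        refine ⟨c0, hc0, ?_⟩
        have hev : ∀ᶠ X : ℝ in atTop, (XN ≤ X ∧ X3 ≤ X) ∧
            (8 ≤ X ∧ 10 ≤ Real.log X ∧ X ^ (τ + 2 * d) + 4 ≤ X ∧ X ^ (τ + 2 * d) + 1 ≤ X ^ (9/10 : ℝ) ∧
            240 * C * Real.log X ^ 4 ≤ X ^ ε0 ∧ 8 * (1 / η + 2) * (C + 1) ≤ Real.log X ∧
            2 * (C * Real.log X) ≤ Real.log X ^ 2 ∧
            X ^ (0.15 - 2 * w + 5 * d) + Real.log X ^ 3 * X ^ (τ - 30 * η) ≤ X ^ (τ - 20 * η)) := by
          have hlarge := large_X (C := C) (τ' := τ + 2 * d) (τ1 := 9/10) (ρ1 := τ - 30 * η) (ε0 := ε0) (η := η)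
            (A := 0.15 - 2 * w + 5 * d) (U := τ - 20 * η) hε0p (by linarith) (by (clear * - hτ1def hη hη1' hw0 hd; linarith)) (by linarith) hC
            (by
              rw [hτdef]
              norm_num
              (clear * - hw1 hη hη1' hww hd0; linarith)) (by (clear * - hη; linarith))
          filter_upwards [eventually_ge_atTop XN, eventually_ge_atTop X3, hlarge]
            with X a c h using ⟨⟨a, c⟩, h⟩
        have hev2 : ∀ᶠ k : ℕ in atTop, K1 ≤ k ∧ ((XN ≤ (2:ℝ) ^ k ∧ X3 ≤ (2:ℝ) ^ k) ∧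
            (8 ≤ (2:ℝ) ^ k ∧ 10 ≤ Real.log ((2:ℝ) ^ k) ∧ ((2:ℝ) ^ k) ^ (τ + 2 * d) + 4 ≤ (2:ℝ) ^ k ∧
            ((2:ℝ) ^ k) ^ (τ + 2 * d) + 1 ≤ ((2:ℝ) ^ k) ^ (9/10 : ℝ) ∧
            240 * C * Real.log ((2:ℝ) ^ k) ^ 4 ≤ ((2:ℝ) ^ k) ^ ε0 ∧ 8 * (1 / η + 2) * (C + 1) ≤ Real.log ((2:ℝ) ^ k) ∧
            2 * (C * Real.log ((2:ℝ) ^ k)) ≤ Real.log ((2:ℝ) ^ k) ^ 2 ∧
            ((2:ℝ) ^ k) ^ (0.15 - 2 * w + 5 * d) + Real.log ((2:ℝ) ^ k) ^ 3 * ((2:ℝ) ^ k) ^ (τ - 30 * η) ≤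
              ((2:ℝ) ^ k) ^ (τ - 20 * η))) :=
          (eventually_ge_atTop K1).and ((tendsto_pow_atTop_atTop_of_one_lt (by norm_num : (1:ℝ) < 2)).eventually hev)
        obtain ⟨K, hK⟩ := eventually_atTop.mp hev2
        refine ⟨K, fun k hk => ?_⟩
        obtain ⟨hk1, ⟨hX1, hX3⟩, h8, hl, g1, g2, g3, g4, g5, g6⟩ := hK k hk
        obtain ⟨F, c, u, Exc, b1, b2, b3, b4, b5, b6⟩ := hB k hk1
        have hmain := main_count (τ := τ) (ρ1 := τ - 30 * η) (d := d) hε0p hη hη1 hC h8 hl hA9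
          (fun F hF => hN _ hX1 F (fun ρ hρ => ⟨(hF ρ hρ).1, by (clear * - hε0a hF hρ; linarith [(hF ρ hρ).2.1]), (hF ρ hρ).2.2.trans g2⟩))
          (fun x Z c U a1 a2 a3 a4 a5 a6 a7 a8 a9 => hCB _ x Z c U hX3 a1 a2 a3 a4 a5 a6 a7 a8 a9)
          Pool.Agent.M20.Helper46.KC.splitSpaced g1 g3 g4 g5 F c u (2 ^ (k - ecw w d k)) b1 b2 b3 b4
        set Bd := (Finset.range (2 ^ (k - ecw w d k))).filter (fun j => (npr k (ecw w d k) j : ℝ) < c0 * 2 ^ ecw w d k / k)
          with hBd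
        set Lg := (Finset.range (2 ^ (k - ecw w d k))).filter (fun j => 1/2 ≤ ‖∑ ρ ∈ F, (mz ρ : ℂ) * c ρ *
            Complex.exp ((ρ - 1) * (u j : ℂ))‖) with hLg
        have hsub : Bd ⊆ Exc ∪ Lg := by
          intro j hj
          rw [hBd, Finset.mem_filter, Finset.mem_range] at hj
          rw [Finset.mem_union]
          by_cases hE : j ∈ Exc
          · exact Or.inl hE
          · right
            rw [hLg, Finset.mem_filter, Finset.mem_range]
            exact ⟨hj.1, b6 j hj.1 hE hj.2⟩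
        have hcard : (Bd.card : ℝ) ≤ Exc.card + Lg.card := by
          exact_mod_cast le_trans (Finset.card_le_card hsub) (Finset.card_union_le _ _)
        exact by
          have hpow : (2:ℝ) ^ ((τ - 20 * η) * (k:ℝ)) = ((2:ℝ) ^ k) ^ (τ - 20 * η) := by
            rw [← Real.rpow_natCast, ← Real.rpow_mul (by norm_num)]
            ring_nf
          rw [hpow]
          (clear * - g6 b5 hmain hcard; linarith)

end Pool.Agent.M20.Helper1.KF
end

/- Helper53.KN.Helper1.KL.ThmNk -/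
section
/-! `ThmNk κ0` for all `κ0 > 1/2` (helper60's statement) -/

set_option autoImplicit false

namespace Pool.Agent.M20.Helper1.KL

theorem thmNk {κ0 : ℝ} (hκ : 1 / 2 < κ0) : Helper60.KS.ThmNk κ0 := by
  obtain ⟨ε, hε, H⟩ := theoremNTheta hκ
  obtain ⟨X0, hX0⟩ := H (1 / 16) (by norm_num)
  refine ⟨min ε (1 / 100), X0, lt_min hε (by norm_num), min_le_right _ _, fun X hX F hF => ?_⟩
  have h := hX0 X hX F (fun ρ hρ => by
    obtain ⟨h1, h2, h3⟩ := hF ρ hρ
    refine ⟨h1, ?_, ?_⟩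
    · have := min_le_left ε (1 / 100)
      linarith
    · have e : (6 / 10 : ℝ) = 0.6 := by norm_num
      rw [e]
      exact h3)
  refine le_trans (le_of_eq ?_) h
  refine Finset.sum_congr rfl fun ρ _ => ?_
  rfl

end Pool.Agent.M20.Helper1.KL
end

/- Helper53.KN.Helper65.KC.NumericG -/
section
/-! KG-2 : instances of `NumericG`. The case distinction was found by computer
(rectangles in the `(x,n)` plane); every leaf is linear in `x, n, x*n, r, ε`. -/

set_option autoImplicit false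
set_option maxHeartbeats 4000000

namespace Pool.Agent.M20.Helper65.KC

open Pool.Agent.M20.Helper60.KS

theorem numericZ : NumericG 2 0.431 := by
  intro ε0 hε0 hε01 ε x n r ϱ e0 eε xε x4 n0 hy hf hg r0 hs he
  have h4 : (2 : ℝ) * 2 * x = 4 * x := by ring
  have h8 : (4 : ℝ) * 2 * x = 8 * x := by ring
  simp only [h4, h8] at hs he
  exact numeric ε0 hε0 hε01 ε x n r ϱ e0 eε xε x4 n0 hy hf hg r0 hs he

end Pool.Agent.M20.Helper65.KC
end
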