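import Mathlib
import Pool.Agent.Helper53.KO.G01
import Pool.Agent.Helper53.KO.G19
import Pool.Agent.Helper53.KO.G23

set_option linter.all false

/- Helper53.KN.Helper16.KS.Final -/
section
/-!
# Project KS: assembly of the main chain
-/

set_option autoImplicit false
open scoped Classical
open Filter Topology

namespace Pool.Agent.M20.Helper16.KS

/-- the negation of the Kahane–Saïas question (the frozen statement S17468) -/
def Target : Prop :=
    ¬ (∀ f : ℕ → ℂ,
      f 1 = 1 →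
      (∀ m n : ℕ, 0 < m → 0 < n → f (m * n) = f m * f n) →
      Tendsto (fun N : ℕ => ∑ n ∈ Finset.range N, f (n + 1)) atTop (𝓝 0) →
      ∃ c : ℝ, 0 < c ∧ ∀ M : ℕ, ∃ N : ℕ, M ≤ N ∧ 0 < N ∧
        c / Real.sqrt (N : ℝ) ≤ ‖∑ n ∈ Finset.Icc 1 N, f n‖)

theorem star_assembly (hL : Light) (hE : Expand) (h12 : H12) (h3 : H3) (h4 : H4) (hI : Init) :
    GoodStar := by
  intro S
  obtain ⟨K1, h1⟩ := hL S
  obtain ⟨K2, h2⟩ := hE S
  obtain ⟨K3, h3'⟩ := h12 S
  obtain ⟨K4, h4'⟩ := h3 S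
  obtain ⟨K5, h5⟩ := h4 S
  obtain ⟨K6, h6⟩ := hI S
  refine ⟨max (max (max K1 K2) (max K3 K4)) (max (max K5 K6) 1), fun k0 hk0 R hR => ?_⟩
  simp only [max_le_iff] at hk0
  obtain ⟨⟨⟨a1, a2⟩, a3, a4⟩, ⟨a5, a6⟩, a7⟩ := hk0
  refine ⟨h6 k0 a6 R hR, fun k hk j hj => ?_⟩
  have b1 := h1 k0 a1 R hR k hk j hj
  have b2 := h2 k0 a2 R hR k hk j hj
  have b3 := h3' k0 a3 R hR k hk j hj
  have b4 := h4' k0 a4 R hR k hk j hj
  have b5 := h5 k0 a5 R hR k hk j hj
  have hG := S.G_nonneg k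
  by_cases hb : S.bad k j
  · rw [if_pos hb] at b1 b5
    linarith
  · rw [if_neg hb] at b1 b5
    linarith

theorem good_NN_pos (S : Sys) {k0 : ℕ} (hk0 : S.K ≤ k0) {R : Set ℕ} (hR : S.Good k0 R) :
    ∀ k, k0 ≤ k → ∀ j ∈ S.badc k, 0 < S.NN R k j := by
  intro k hk j hj
  have h1 := hR.lower k hk j hj
  rw [S.mem_badc] at hj
  have h2 := S.many k (hk0.trans hk) j hj.1 hj.2
  have hk1 : 0 < k := lt_of_lt_of_le S.K_pos (hk0.trans hk)
  have h3 : 0 < S.c1 * 2 ^ ec S.d k / (k : ℝ) ^ 2 := by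
    have h4 : (0 : ℝ) < k := by exact_mod_cast hk1
    have := S.c1_pos
    positivity
  linarith

theorem exists_f (hS : ExistsSys) (hG : ExistsGood) (hstar : GoodStar) (hF : FP) (hL : Last) :
    ∃ (a : ℕ → ℝ) (g : ℕ → ℝ) (C e : ℝ), 0 < e ∧ (∀ n, a n = CM g n) ∧
      ∀ N : ℕ, 1 ≤ N → |∑ n ∈ Finset.Icc 1 N, a n| ≤ C * (N : ℝ) ^ (-(1/2 + e)) := by
  obtain ⟨S⟩ := hS
  obtain ⟨K1, h1⟩ := hG S
  obtain ⟨K2, h2⟩ := hstar S
  set k0 := max (max K1 K2) (max S.K 3) with hk0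
  have a1 : K1 ≤ k0 := (le_max_left _ _).trans (le_max_left _ _)
  have a2 : K2 ≤ k0 := (le_max_right _ _).trans (le_max_left _ _)
  have a3 : S.K ≤ k0 := (le_max_left _ _).trans (le_max_right _ _)
  have a4 : 3 ≤ k0 := (le_max_right _ _).trans (le_max_right _ _)
  obtain ⟨R, hR⟩ := h1 k0 a1
  have hst := h2 k0 a2 R hR
  have hNN := good_NN_pos S a3 hR
  have hp : ∀ r ∈ R, r.Prime := fun r hr => (hR.prime r hr).1
  obtain ⟨t, ht1, ht2, ht3⟩ := hF S k0 a4 a3 R hp hNN hst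
  obtain ⟨C, hC⟩ := hL S k0 a4 R hp hNN hst t ht1 ht2 ht3
  exact ⟨S.ft k0 R t, S.fp k0 R t, C, S.d / 2, half_pos S.d_pos, fun n => rfl, hC⟩

theorem target (hS : ExistsSys) (hG : ExistsGood) (hstar : GoodStar) (hF : FP) (hL : Last) :
    Target := by
  obtain ⟨a, g, C, e, he, ha, hC⟩ := exists_f hS hG hstar hF hL
  intro hall
  have hC0 : 0 ≤ C := by
    have := (abs_nonneg _).trans (hC 1 le_rfl)
    simpa using this
  have hcast : ∀ N : ℕ, ‖∑ n ∈ Finset.Icc 1 N, ((a n : ℝ) : ℂ)‖ = |∑ n ∈ Finset.Icc 1 N, a n| := by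
    intro N
    rw [← Complex.ofReal_sum, Complex.norm_real, Real.norm_eq_abs]
  have hlim : Tendsto (fun N : ℕ => C * (N : ℝ) ^ (-(1/2 + e))) atTop (𝓝 0) := by
    have h1 := (tendsto_rpow_neg_atTop (by linarith : (0 : ℝ) < 1/2 + e)).comp
      (tendsto_natCast_atTop_atTop (R := ℝ))
    simpa using h1.const_mul C
  obtain ⟨c, hc, hc2⟩ := hall (fun n => ((a n : ℝ) : ℂ)) (by simp [ha, CM_one])
    (fun m n hm hn => by rw [ha, ha, ha, CM_mul g hm.ne' hn.ne']; push_cast; ring)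
    (by
      rw [tendsto_zero_iff_norm_tendsto_zero]
      refine squeeze_zero' (Eventually.of_forall fun N => norm_nonneg _)
        (eventually_atTop.mpr ⟨1, fun N hN => ?_⟩) hlim
      have h1 : ∑ n ∈ Finset.range N, ((a (n + 1) : ℝ) : ℂ) = ∑ n ∈ Finset.Icc 1 N, ((a n : ℝ) : ℂ) := by
        rw [Finset.range_eq_Ico, Finset.sum_Ico_add' (fun n => ((a n : ℝ) : ℂ)) 0 N 1]
        refine Finset.sum_congr ?_ fun _ _ => rfl
        ext x
        simp only [Finset.mem_Ico, Finset.mem_Icc]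
        omega
      rw [h1, hcast]
      exact hC N hN)
  -- contradiction: `c ≤ C N^(-e)` for arbitrarily large `N`
  have hlim2 : Tendsto (fun N : ℕ => C * (N : ℝ) ^ (-e)) atTop (𝓝 0) := by
    have h1 := (tendsto_rpow_neg_atTop he).comp (tendsto_natCast_atTop_atTop (R := ℝ))
    simpa using h1.const_mul C
  obtain ⟨M, hM⟩ := eventually_atTop.mp (hlim2.eventually (gt_mem_nhds hc))
  obtain ⟨N, hMN, hN0, hN⟩ := hc2 (max M 1)
  have hMN' : M ≤ N := (le_max_left _ _).trans hMN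
  have h1 := hM N hMN'
  have hNr : (0 : ℝ) < N := by exact_mod_cast hN0
  rw [hcast] at hN
  have h2 := hN.trans (hC N hN0)
  rw [div_le_iff₀ (Real.sqrt_pos.mpr hNr), Real.sqrt_eq_rpow, mul_assoc, ← Real.rpow_add hNr] at h2
  have h3 : -(1/2 + e) + 1/2 = -e := by ring
  rw [h3] at h2
  linarith

end Pool.Agent.M20.Helper16.KS
end

/- Helper53.KN.Helper35.KL.Base -/
section
/-! Load theorem of project KS: the part of an integer composed of given primes, and elementary counting. -/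

set_option autoImplicit false

open Finset

namespace Pool.Agent.M20.Helper35.KL

/-- sum over the fibres of a map -/
theorem sum_fib {τ γ : Type*} [DecidableEq γ] (T : Finset τ) (C : Finset γ) (F : τ → γ) (hF : ∀ t ∈ T, F t ∈ C)
    (f : τ → ℝ) (M g : γ → ℝ) (hg : ∀ c ∈ C, 0 ≤ g c) (hf : ∀ t ∈ T, f t ≤ g (F t))
    (hM : ∀ c ∈ C, ((T.filter (fun t => F t = c)).card : ℝ) ≤ M c) :
    ∑ t ∈ T, f t ≤ ∑ c ∈ C, M c * g c := by
  rw [← sum_fiberwise_of_maps_to hF]
  refine sum_le_sum fun c hc => ?_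
  calc ∑ t ∈ T.filter (fun t => F t = c), f t ≤ ∑ t ∈ T.filter (fun t => F t = c), g c := by
        refine sum_le_sum fun t ht => ?_
        have h := mem_filter.mp ht
        rw [← h.2]; exact hf t h.1
    _ = ((T.filter (fun t => F t = c)).card : ℝ) * g c := by rw [sum_const, nsmul_eq_mul]
    _ ≤ M c * g c := mul_le_mul_of_nonneg_right (hM c hc) (hg c hc)

/-- multiples of `g` in an interval -/
theorem card_mult (b H g : ℕ) (hg : 0 < g) : (((Ico b (b + H)).filter (fun n => g ∣ n)).card : ℝ) ≤ H / g + 1 := by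
  have hg' : (0:ℝ) < g := by exact_mod_cast hg
  have h1 : ((Ico b (b + H)).filter (fun n => g ∣ n)).card ≤ ((Ico (b : ℤ) ((b + H : ℕ) : ℤ)).filter (fun n => (g : ℤ) ∣ n)).card := by
    refine card_le_card_of_injOn (fun n : ℕ => (n : ℤ)) ?_ (fun x _ y _ h => by simpa using h)
    intro n hn
    rw [mem_coe, mem_filter, mem_Ico] at hn
    rw [mem_coe, mem_filter, mem_Ico]
    dsimp only
    exact ⟨⟨by exact_mod_cast hn.1.1, by exact_mod_cast hn.1.2⟩, by exact_mod_cast hn.2⟩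
  have h2 := Int.Ico_filter_dvd_card (r := (g : ℤ)) (b : ℤ) ((b + H : ℕ) : ℤ) (by exact_mod_cast hg)
  have h3 : ((((Ico (b : ℤ) ((b + H : ℕ) : ℤ)).filter (fun n => (g : ℤ) ∣ n)).card : ℤ) : ℝ) ≤ H / g + 1 := by
    rw [h2]
    push_cast
    refine max_le ?_ (by positivity)
    have h4 := Int.ceil_lt_add_one (((b : ℚ) + H) / (g : ℚ))
    have h5 := Int.le_ceil ((b : ℚ) / (g : ℚ))
    have h6 : ((⌈((b : ℚ) + H) / (g : ℚ)⌉ - ⌈(b : ℚ) / (g : ℚ)⌉ : ℤ) : ℚ) ≤ (H : ℚ) / g + 1 := by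
      push_cast
      have : ((b : ℚ) + H) / g = (b : ℚ) / g + H / g := by ring
      linarith
    have h7 : (((⌈((b : ℚ) + H) / (g : ℚ)⌉ - ⌈(b : ℚ) / (g : ℚ)⌉ : ℤ) : ℚ) : ℝ) ≤ (((H : ℚ) / g + 1 : ℚ) : ℝ) := by
      exact_mod_cast h6
    push_cast at h7
    exact h7
  calc (((Ico b (b + H)).filter (fun n => g ∣ n)).card : ℝ)
      ≤ (((Ico (b : ℤ) ((b + H : ℕ) : ℤ)).filter (fun n => (g : ℤ) ∣ n)).card : ℝ) := by exact_mod_cast h1
    _ ≤ _ := by exact_mod_cast h3

end Pool.Agent.M20.Helper35.KL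
end

/- Helper53.KN.Helper35.KL.Facts -/
section
/-! Load theorem of project KS: auxiliary facts about candidates, rough numbers and the conditioning set. -/

set_option autoImplicit false
open scoped Classical
open Finset Filter

namespace Pool.Agent.M20.Helper35.KL

open Pool.Agent.M20.Helper16.KS Pool.Agent.M20.Helper18.KL

/-- number of divisors of a rough number -/
theorem divisors_le {k0 k n : ℕ} (hk0 : 1 ≤ k0) (hn0 : n ≠ 0) (hn : Sys.rough k0 n) (hnk : n < 2 ^ (k + 1)) :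
    (n.divisors.card : ℝ) ≤ (2 : ℝ) ^ (5 * ((k + 1 : ℝ) / k0)) := by
  have h1 : n.divisors.card ≤ 2 ^ n.primeFactorsList.length := by
    rw [Nat.card_divisors hn0]
    calc ∏ p ∈ n.primeFactors, (n.factorization p + 1) ≤ ∏ p ∈ n.primeFactors, 2 ^ n.factorization p :=
          Finset.prod_le_prod (fun _ _ => Nat.zero_le _) fun p _ => Nat.lt_two_pow_self
      _ = 2 ^ ∑ p ∈ n.primeFactors, n.factorization p := Finset.prod_pow_eq_pow_sum _ _ _
      _ = 2 ^ n.primeFactorsList.length := by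
          congr 1
          rw [← ArithmeticFunction.cardFactors_apply, ArithmeticFunction.cardFactors_eq_sum_factorization]
          rfl
  have h2 := Sys.rough_omega_le hk0 hn0 hn hnk
  calc (n.divisors.card : ℝ) ≤ ((2 ^ n.primeFactorsList.length : ℕ) : ℝ) := by exact_mod_cast h1
    _ = (2 : ℝ) ^ (n.primeFactorsList.length : ℝ) := by rw [Real.rpow_natCast]; push_cast; rfl
    _ ≤ _ := by
        refine Real.rpow_le_rpow_of_exponent_le (by norm_num) (h2.trans (le_of_eq ?_))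
        ring

/-- number of prime factors -/
theorem card_primeFactors_le {k0 k n : ℕ} (hk0 : 1 ≤ k0) (hn0 : n ≠ 0) (hn : Sys.rough k0 n)
    (hnk : n < 2 ^ (k + 1)) : (n.primeFactors.card : ℝ) ≤ 5 * ((k + 1 : ℝ) / k0) := by
  have h1 : n.primeFactors.card ≤ n.primeFactorsList.length := by
    rw [Nat.primeFactors]
    exact List.toFinset_card_le _
  have h2 := Sys.rough_omega_le hk0 hn0 hn hnk
  calc (n.primeFactors.card : ℝ) ≤ (n.primeFactorsList.length : ℝ) := by exact_mod_cast h1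
    _ ≤ 5 * (k + 1) / k0 := h2
    _ = _ := by ring

/-- the prime factors of a candidate are at least `2^(k/5)` -/
theorem cand_rough (S : Sys) {k j : ℕ} (hk : S.K ≤ k) (hj : j ∈ S.badc k) {x : ℕ × ℕ} (hx : x ∈ S.Cand k j) :
    Sys.rough k (x.1 * x.2) := by
  intro p hp hpd
  rw [S.mem_badc] at hj
  obtain ⟨-, -, -, -, -, h6, -⟩ := S.cand k hk j hj.1 hj.2 x hx
  have h7 := h6 p hp hpd
  have hu := S.u_ge (S.cls k j)
  have hc := S.c_pos
  have hdel := S.del_pos
  have hdel2 := S.del_le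
  have hp1 : (1 : ℝ) ≤ p := by exact_mod_cast hp.one_lt.le
  have hp0 : (0 : ℝ) < p := by (clear * - hdel hdel2 hp1; linarith)
  have hk0 : (0 : ℝ) ≤ k := Nat.cast_nonneg k
  have h8 : (2 : ℝ) ^ ((k : ℝ) / 10) ≤ (p : ℝ) ^ (1 / 2 : ℝ) := by
    calc (2 : ℝ) ^ ((k : ℝ) / 10) ≤ (2 : ℝ) ^ ((S.u (S.cls k j) + S.c) * k) := by
          refine Real.rpow_le_rpow_of_exponent_le (by norm_num) ?_
          (clear * - hu hc; nlinarith)
      _ ≤ (p : ℝ) ^ (1 / 2 - S.del) := h7
      _ ≤ _ := Real.rpow_le_rpow_of_exponent_le hp1 (by (clear * - hdel; linarith))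
  calc (2 : ℝ) ^ ((k : ℝ) / 5) = ((2 : ℝ) ^ ((k : ℝ) / 10)) ^ (2 : ℝ) := by
        rw [← Real.rpow_mul (by norm_num)]; congr 1; ring
    _ ≤ ((p : ℝ) ^ (1 / 2 : ℝ)) ^ (2 : ℝ) := Real.rpow_le_rpow (by positivity) h8 (by norm_num)
    _ = p := by rw [← Real.rpow_mul hp0.le]; norm_num

/-- the conditioning set consists of few large primes -/
def Aok (k0 k : ℕ) (A : Finset ℕ) : Prop :=
  (∀ p ∈ A, p.Prime ∧ 2 ^ (k0 / 5) ≤ p) ∧ (A.card : ℝ) ≤ 15 * ((k + 1 : ℝ) / k0)

theorem nat_pow_le {k0 p : ℕ} (h : (2 : ℝ) ^ ((k0 : ℝ) / 5) ≤ p) : 2 ^ (k0 / 5) ≤ p := by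
  have h1 : ((2 ^ (k0 / 5) : ℕ) : ℝ) ≤ (2 : ℝ) ^ ((k0 : ℝ) / 5) := by
    push_cast
    rw [← Real.rpow_natCast]
    refine Real.rpow_le_rpow_of_exponent_le (by norm_num) ?_
    exact Nat.cast_div_le
  exact_mod_cast h1.trans h

theorem omega_cand (S : Sys) {k j : ℕ} (hk : S.K ≤ k) (hj : j ∈ S.badc k) {x : ℕ × ℕ} (hx : x ∈ S.Cand k j) :
    (x.2.primeFactors.card : ℝ) ≤ 10 := by
  have hk1 : 1 ≤ k := S.K_pos.trans hk
  obtain ⟨h1, h2, h3, h4, h5, h6, h7, -, -⟩ := S.cand_facts hk hj hx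
  have hm0 : x.2 ≠ 0 := by omega
  have hr : Sys.rough k x.2 := fun p hp hpd => cand_rough S hk hj hx p hp (hpd.mul_left _)
  have hlt : x.2 < 2 ^ (k + 1) := lt_of_le_of_lt (Nat.le_mul_of_pos_left _ h1.pos) h7
  have h8 := card_primeFactors_le hk1 hm0 hr hlt
  have hk' : (1 : ℝ) ≤ k := by exact_mod_cast hk1
  have h9 : ((k : ℝ) + 1) / k ≤ 2 := by rw [div_le_iff₀ (by (clear * - hk'; linarith))]; (clear * - hk'; linarith)
  (clear * - h8 h9; linarith)

/-- terms exist only for sets `A` of few large primes -/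
theorem aok_of (S : Sys) {k0 k k' j' n : ℕ} (hk0 : S.K ≤ k0) (hkk : k0 ≤ k) (hk' : k0 ≤ k') (hj' : j' ∈ S.badc k')
    (hn0 : n ≠ 0) (hn : Sys.rough k0 n) (hnk : n < 2 ^ (k + 1)) {x : ℕ × ℕ} (hx : x ∈ S.Cand k' j') (hxn : x.1 ∣ n)
    {A : Finset ℕ} (hA : A ⊆ x.2.primeFactors ∪ (n / x.1).primeFactors) : Aok k0 k A := by
  have hk1 : 1 ≤ k0 := S.K_pos.trans hk0
  have hr := cand_rough S (hk0.trans hk') hj' hx
  have hl : n / x.1 ∣ n := Nat.div_dvd_of_dvd hxn
  constructor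
  · intro p hp
    rcases Finset.mem_union.mp (hA hp) with h | h
    · have h1 := Nat.mem_primeFactors.mp h
      refine ⟨h1.1, nat_pow_le ?_⟩
      refine le_trans ?_ (hr p h1.1 (h1.2.1.mul_left _))
      refine Real.rpow_le_rpow_of_exponent_le (by norm_num) ?_
      have : (k0 : ℝ) ≤ k' := by exact_mod_cast hk'
      (clear * - this; linarith)
    · have h1 := Nat.mem_primeFactors.mp h
      exact ⟨h1.1, nat_pow_le (hn p h1.1 (h1.2.1.trans hl))⟩
  · have h1 := omega_cand S (hk0.trans hk') hj' hx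
    have h2 := card_primeFactors_le hk1 hn0 hn hnk
    have h3 : ((n / x.1).primeFactors.card : ℝ) ≤ n.primeFactors.card := by
      exact_mod_cast Finset.card_le_card (Nat.primeFactors_mono hl hn0)
    have h4 : (A.card : ℝ) ≤ x.2.primeFactors.card + (n / x.1).primeFactors.card := by
      exact_mod_cast (Finset.card_le_card hA).trans (Finset.card_union_le _ _)
    have h5 : (1 : ℝ) ≤ (k + 1 : ℝ) / k0 := by
      have h6 : (1 : ℝ) ≤ k0 := by exact_mod_cast hk1
      have h7 : (k0 : ℝ) ≤ k := by exact_mod_cast hkk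
      rw [le_div_iff₀ (by (clear * - h6; linarith))]
      (clear * - h7; linarith)
    linarith

theorem LS_eq_zero (S : Sys) {k0 k j : ℕ} (hk0 : S.K ≤ k0) (hkk : k0 ≤ k) (hj : j < nc S.d k)
    (Q : ℕ × ℕ → ℕ → ℕ × ℕ → Prop) {A : Finset ℕ} (hA : ¬ Aok k0 k A) : LS S k0 k j Q A = 0 := by
  unfold LS
  refine Finset.sum_eq_zero fun n hn => ?_
  refine Finset.sum_eq_zero fun k' hk' => ?_
  refine Finset.sum_eq_zero fun j' hj' => ?_
  have hn' := Finset.mem_filter.mp hn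
  have h1 := cell_ge hn'.1
  have hn0 : n ≠ 0 := by
    have := Nat.one_le_two_pow (n := k)
    omega
  have hlt := cell_lt S.d_pos hj hn'.1
  have hk'' : k0 ≤ k' := by
    unfold Sys.hvy at hk'
    rw [Finset.mem_Ico] at hk'
    exact (le_max_left _ _).trans hk'.1
  rw [show ((S.Cand k' j').filter (fun x => x.1 ∣ n ∧ Q (k', j') n x ∧
      A ⊆ x.2.primeFactors ∪ (n / x.1).primeFactors)) = ∅ by
    rw [Finset.filter_eq_empty_iff]
    rintro x hx ⟨h2, h3, h4⟩
    exact hA (aok_of S hk0 hkk hk'' hj' hn0 hn'.2 hlt hx h2 h4)]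
  exact Finset.sum_empty

/-- `q^(hh-1)` for a candidate `(q, m)` -/
theorem cand_q (S : Sys) {k j : ℕ} (hk : S.K ≤ k) (hj : j ∈ S.badc k) {x : ℕ × ℕ} (hx : x ∈ S.Cand k j) :
    (x.1 : ℝ) ^ (S.hh - 1) ≤ (2 : ℝ) ^ (-(S.u (S.cls k j) + S.c + S.del) * k) := by
  obtain ⟨h1, h2, h3, h4, h5, h6, h7, -, -⟩ := S.cand_facts hk hj hx
  rw [S.mem_badc] at hj
  obtain ⟨-, -, -, -, -, -, h8⟩ := S.cand k hk j hj.1 hj.2 x hx
  have hq0 : (0 : ℝ) < x.1 := by exact_mod_cast h1.pos
  have hq1 : (1 : ℝ) ≤ x.1 := by exact_mod_cast h1.pos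
  have hm0 : (0 : ℝ) < x.2 := by
    have : 0 < x.2 := by omega
    exact_mod_cast this
  have hdel := S.del_pos
  have hhh := S.hh_le
  have h9 : (2 : ℝ) ^ (k : ℝ) ≤ x.1 * x.2 := by
    rw [Real.rpow_natCast]
    exact_mod_cast h6
  have h10 : ((2 : ℝ) ^ (k : ℝ)) ^ (1 / 2 + S.del) ≤ (x.1 : ℝ) ^ (1 / 2 + S.del) * (x.2 : ℝ) ^ (1 / 2 + S.del) := by
    rw [← Real.mul_rpow hq0.le hm0.le]
    exact Real.rpow_le_rpow (by positivity) h9 (by (clear * - hdel; linarith))
  have h11 : ((2 : ℝ) ^ (k : ℝ)) ^ (1 / 2 + S.del) ≤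
      (x.1 : ℝ) ^ (1 / 2 + S.del) * (2 : ℝ) ^ ((1 / 2 - S.u (S.cls k j) - S.c) * k) :=
    h10.trans (mul_le_mul_of_nonneg_left h8 (by (clear * - hq0; positivity)))
  have h12 : (2 : ℝ) ^ ((S.u (S.cls k j) + S.c + S.del) * k) ≤ (x.1 : ℝ) ^ (1 / 2 + S.del) := by
    have e1 : ((2 : ℝ) ^ (k : ℝ)) ^ (1 / 2 + S.del) = (2 : ℝ) ^ ((S.u (S.cls k j) + S.c + S.del) * k) *
        (2 : ℝ) ^ ((1 / 2 - S.u (S.cls k j) - S.c) * k) := by
      rw [← Real.rpow_mul (by norm_num), ← Real.rpow_add (by norm_num)]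
      congr 1
      ring
    rw [e1] at h11
    exact le_of_mul_le_mul_right h11 (by positivity)
  calc (x.1 : ℝ) ^ (S.hh - 1) ≤ (x.1 : ℝ) ^ (-(1 / 2 + S.del)) :=
        Real.rpow_le_rpow_of_exponent_le hq1 (by (clear * - hhh; linarith))
    _ = ((x.1 : ℝ) ^ (1 / 2 + S.del))⁻¹ := Real.rpow_neg hq0.le _
    _ ≤ ((2 : ℝ) ^ ((S.u (S.cls k j) + S.c + S.del) * k))⁻¹ := inv_anti₀ (by positivity) h12
    _ = _ := by rw [← Real.rpow_neg (by norm_num)]; congr 1; ring

/-- `p^(-hh)` for a prime factor of a candidate -/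
theorem cand_p (S : Sys) {k j : ℕ} (hk : S.K ≤ k) (hj : j ∈ S.badc k) {x : ℕ × ℕ} (hx : x ∈ S.Cand k j)
    {p : ℕ} (hp : p.Prime) (hpx : p ∣ x.2) :
    (p : ℝ) ^ (-S.hh) ≤ (2 : ℝ) ^ (-(S.u (S.cls k j) + S.c) * k + S.s * (k + 1)) := by
  obtain ⟨h1, h2, h3, h4, h5, h6, h7, -, -⟩ := S.cand_facts hk hj hx
  rw [S.mem_badc] at hj
  obtain ⟨-, -, -, -, -, h8, -⟩ := S.cand k hk j hj.1 hj.2 x hx
  have h9 := h8 p hp (hpx.mul_left _)
  have hp0 : (0 : ℝ) < p := by exact_mod_cast hp.pos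
  have hp1 : (1 : ℝ) ≤ p := by exact_mod_cast hp.pos
  have hplt : (p : ℝ) ≤ (2 : ℝ) ^ ((k : ℝ) + 1) := by
    have h10 : p ≤ x.1 * x.2 := Nat.le_of_dvd (Nat.mul_pos h1.pos (by omega)) (hpx.mul_left _)
    have h11 : p ≤ 2 ^ (k + 1) := by omega
    have h12 : (p : ℝ) ≤ (2 : ℝ) ^ ((k + 1 : ℕ) : ℝ) := by rw [Real.rpow_natCast]; exact_mod_cast h11
    push_cast at h12
    exact h12
  have hs := S.s_pos
  have htau := S.tau_pos
  have e1 : (p : ℝ) ^ (-S.hh) = ((p : ℝ) ^ (1 / 2 - S.del))⁻¹ * (p : ℝ) ^ (S.s - S.tau) := by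
    rw [← Real.rpow_neg hp0.le, ← Real.rpow_add hp0, S.hh_eq]
    congr 1
    ring
  rw [e1, Real.rpow_add (by norm_num)]
  refine mul_le_mul ?_ ?_ (by (clear * - hp0; positivity)) (by positivity)
  · calc ((p : ℝ) ^ (1 / 2 - S.del))⁻¹ ≤ ((2 : ℝ) ^ ((S.u (S.cls k j) + S.c) * k))⁻¹ := inv_anti₀ (by positivity) h9
      _ = _ := by rw [← Real.rpow_neg (by norm_num)]; congr 1; ring
  · calc (p : ℝ) ^ (S.s - S.tau) ≤ (p : ℝ) ^ S.s := Real.rpow_le_rpow_of_exponent_le hp1 (by (clear * - htau; linarith))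
      _ ≤ ((2 : ℝ) ^ ((k : ℝ) + 1)) ^ S.s := Real.rpow_le_rpow hp0.le hplt hs.le
      _ = _ := by rw [← Real.rpow_mul (by norm_num)]; congr 1; ring

/-- `log` in base `P0 = 2^(k0/5)` -/
theorem log_le {k0 k x : ℕ} (hk0 : 10 ≤ k0) (hkk : k0 ≤ k) (hx : x < 2 ^ (k + 2)) :
    (Nat.log (2 ^ (k0 / 5)) x : ℝ) ≤ 20 * ((k + 1 : ℝ) / k0) := by
  rcases Nat.eq_zero_or_pos x with h0 | hpos
  · rw [h0]; simp; (clear * - hk0; positivity)
  have h1 : (2 ^ (k0 / 5)) ^ Nat.log (2 ^ (k0 / 5)) x ≤ x := Nat.pow_log_le_self _ hpos.ne'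
  have h2 : 2 ^ (k0 / 5 * Nat.log (2 ^ (k0 / 5)) x) < 2 ^ (k + 2) := by
    rw [pow_mul]; exact lt_of_le_of_lt h1 hx
  have h3 : k0 / 5 * Nat.log (2 ^ (k0 / 5)) x < k + 2 := (Nat.pow_lt_pow_iff_right (by norm_num)).mp h2
  have h4 : k0 ≤ 10 * (k0 / 5) := by omega
  have h5 : k0 * Nat.log (2 ^ (k0 / 5)) x ≤ 10 * (k + 2) := by
    calc k0 * Nat.log (2 ^ (k0 / 5)) x ≤ (10 * (k0 / 5)) * Nat.log (2 ^ (k0 / 5)) x := Nat.mul_le_mul_right _ h4
      _ = 10 * (k0 / 5 * Nat.log (2 ^ (k0 / 5)) x) := by ring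
      _ ≤ 10 * (k + 2) := Nat.mul_le_mul_left _ h3.le
  have h6 : (k0 : ℝ) * Nat.log (2 ^ (k0 / 5)) x ≤ 10 * (k + 2) := by exact_mod_cast h5
  have h7 : (10 : ℝ) ≤ k0 := by exact_mod_cast hk0
  have h8 : (0 : ℝ) ≤ k := Nat.cast_nonneg k
  rw [mul_div_assoc', le_div_iff₀ (by (clear * - h7; linarith))]
  (clear * - h6; linarith)

/-- products of subsets of `A` -/
def PA (A : Finset ℕ) : Finset ℕ := A.powerset.image (fun B => ∏ p ∈ B, p)

theorem card_PA (A : Finset ℕ) : (PA A).card ≤ 2 ^ A.card := by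
  refine (Finset.card_image_le).trans ?_
  rw [Finset.card_powerset]

theorem mA_mem (A : Finset ℕ) (m : ℕ) : mA A m ∈ PA A := by
  unfold mA PA
  rw [Finset.mem_image]
  exact ⟨m.primeFactors ∩ A, Finset.mem_powerset.mpr Finset.inter_subset_right, rfl⟩

theorem mA_pos (A : Finset ℕ) (m : ℕ) : 0 < mA A m :=
  Finset.prod_pos fun p hp => (Nat.prime_of_mem_primeFactors (Finset.mem_inter.mp hp).1).pos

/-- subproducts of a squarefree number -/
theorem sub_prod {m : ℕ} (hm : Squarefree m) {B : Finset ℕ} (hB : B ⊆ m.primeFactors) :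
    (∏ p ∈ B, p) * ∏ p ∈ m.primeFactors \ B, p = m := by
  rw [mul_comm, Finset.prod_sdiff hB, Nat.prod_primeFactors_of_squarefree hm]

/-- the effect of additional primes on `sig` -/
theorem sig_union (A B : Finset ℕ) {l : ℕ} (hl : l ≠ 0) :
    sig (A ∪ B) l = sig A l * ∏ p ∈ B.filter (fun p => p ∉ A ∧ p.Prime ∧ p ∣ l), p := by
  have h1 : ∏ p ∈ B.filter (fun p => p ∉ A ∧ p.Prime ∧ p ∣ l), p =
      ∏ p ∈ l.primeFactors, if p ∈ B ∧ p ∉ A then p else 1 := by
    rw [← Finset.prod_filter]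
    refine Finset.prod_congr ?_ fun _ _ => rfl
    ext p
    simp only [Finset.mem_filter, Nat.mem_primeFactors]
    tauto
  rw [h1]
  unfold sig
  rw [← Finset.prod_mul_distrib]
  refine Finset.prod_congr rfl fun p hp => ?_
  have hv : 1 ≤ l.factorization p :=
    (Nat.prime_of_mem_primeFactors hp).factorization_pos_of_dvd hl (Nat.dvd_of_mem_primeFactors hp)
  by_cases hA : p ∈ A
  · simp [hA]
  · by_cases hB : p ∈ B
    · simp only [Finset.mem_union, hA, hB, or_true, if_true, not_false_eq_true, and_self, if_false]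
      rw [← pow_succ]
      congr 1
      omega
    · simp [hA, hB]

theorem sig_mono (A : Finset ℕ) {l n : ℕ} (hn : n ≠ 0) (h : l ∣ n) : sig A l ≤ sig A n := by
  have hl : l ≠ 0 := by rintro rfl; exact hn (Nat.eq_zero_of_zero_dvd h)
  unfold sig
  have hsub := Nat.primeFactors_mono h hn
  rw [← Finset.prod_sdiff hsub]
  have h2 : ∏ p ∈ l.primeFactors, (if p ∈ A then p ^ l.factorization p else p ^ (l.factorization p - 1)) ≤
      ∏ p ∈ l.primeFactors, (if p ∈ A then p ^ n.factorization p else p ^ (n.factorization p - 1)) := by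
    refine Finset.prod_le_prod (fun _ _ => Nat.zero_le _) fun p hp => ?_
    have hpp := (Nat.prime_of_mem_primeFactors hp).pos
    have hf : l.factorization p ≤ n.factorization p := (Nat.factorization_le_iff_dvd hl hn).mpr h p
    split_ifs
    · exact Nat.pow_le_pow_right hpp hf
    · exact Nat.pow_le_pow_right hpp (by omega)
  refine h2.trans ?_
  refine Nat.le_mul_of_pos_left _ ?_
  refine Finset.prod_pos fun p hp => ?_
  have hpp := (Nat.prime_of_mem_primeFactors (Finset.mem_sdiff.mp hp).1).pos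
  split_ifs
  · exact pow_pos hpp _
  · exact pow_pos hpp _

/-- polynomials are smaller than exponentials -/
theorem poly_exp (C a : ℝ) (ha : 0 < a) (r : ℕ) :
    ∀ᶠ k : ℕ in atTop, C * ((k : ℝ) + 1) ^ r ≤ (2 : ℝ) ^ (a * (k : ℝ)) := by
  have hl : 0 < a * Real.log 2 := mul_pos ha (Real.log_pos (by norm_num))
  have h1 := isLittleO_pow_exp_pos_mul_atTop r hl
  have h2 := h1.bound (c := 1 / ((|C| + 1) * Real.exp (a * Real.log 2))) (by (clear * -; positivity))
  have h3 : Tendsto (fun k : ℕ => (k : ℝ) + 1) atTop atTop :=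
    tendsto_atTop_add_const_right _ _ tendsto_natCast_atTop_atTop
  filter_upwards [h3.eventually h2] with k hk
  rw [Real.norm_of_nonneg (by positivity), Real.norm_of_nonneg (by positivity)] at hk
  have e1 : Real.exp (a * Real.log 2 * ((k : ℝ) + 1)) = (2 : ℝ) ^ (a * (k : ℝ)) * Real.exp (a * Real.log 2) := by
    rw [Real.rpow_def_of_pos (by norm_num), ← Real.exp_add]
    congr 1
    ring
  rw [e1] at hk
  have h4 : (0 : ℝ) < (|C| + 1) := by (clear * -; positivity)
  have h5 : 1 / ((|C| + 1) * Real.exp (a * Real.log 2)) * ((2 : ℝ) ^ (a * (k : ℝ)) * Real.exp (a * Real.log 2)) =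
      (2 : ℝ) ^ (a * (k : ℝ)) / (|C| + 1) := by
    field_simp
  rw [h5, le_div_iff₀ h4] at hk
  calc C * ((k : ℝ) + 1) ^ r ≤ (|C| + 1) * ((k : ℝ) + 1) ^ r := by
        refine mul_le_mul_of_nonneg_right ?_ (by (clear * -; positivity))
        (clear * -; linarith [le_abs_self C])
    _ = ((k : ℝ) + 1) ^ r * (|C| + 1) := by ring
    _ ≤ _ := hk

end Pool.Agent.M20.Helper35.KL
end

/- Helper53.KN.Helper35.KL.KF -/
section
/-! Load theorem of project KS: terms with a free prime of `m` (`n` first). -/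

set_option autoImplicit false
open scoped Classical
open Finset Filter

namespace Pool.Agent.M20.Helper35.KL

open Pool.Agent.M20.Helper16.KS Pool.Agent.M20.Helper18.KL

/-- the primes of `m` outside `A` which divide `l` -/
def gg (A : Finset ℕ) (m l : ℕ) : ℕ := ∏ p ∈ m.primeFactors.filter (fun p => p ∉ A ∧ p.Prime ∧ p ∣ l), p

theorem gg_pos (A : Finset ℕ) (m l : ℕ) : 0 < gg A m l :=
  Finset.prod_pos fun _ hp => (Finset.mem_filter.mp hp).2.2.1.pos

theorem gg_dvd (A : Finset ℕ) (m : ℕ) {l : ℕ} : gg A m l ∣ l := by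
  unfold gg
  refine Finset.prod_primes_dvd l (fun p hp => ?_) fun p hp => (Finset.mem_filter.mp hp).2.2.2
  exact (Finset.mem_filter.mp hp).2.2.1.prime

/-- `m_A g` times the product of the remaining primes -/
theorem mA_gg (A : Finset ℕ) {m : ℕ} (hm : Squarefree m) (l : ℕ) :
    ∃ r : ℕ, mA A m * gg A m l * r = m ∧ ∀ p : ℕ, p.Prime → p ∣ m → p ∉ A → ¬ p ∣ l → p ∣ r := by
  set B1 := m.primeFactors ∩ A with hB1
  set B2 := m.primeFactors.filter (fun p => p ∉ A ∧ p.Prime ∧ p ∣ l) with hB2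
  have hdisj : Disjoint B1 B2 := by
    rw [Finset.disjoint_left]
    intro p h1 h2
    exact (Finset.mem_filter.mp h2).2.1 (Finset.mem_inter.mp h1).2
  have hsub : B1 ∪ B2 ⊆ m.primeFactors := Finset.union_subset Finset.inter_subset_left (Finset.filter_subset _ _)
  refine ⟨∏ p ∈ m.primeFactors \ (B1 ∪ B2), p, ?_, ?_⟩
  · have h := sub_prod hm hsub
    rw [Finset.prod_union hdisj] at h
    exact h
  · intro p hp hpm hpA hpl
    refine Finset.dvd_prod_of_mem _ ?_
    rw [Finset.mem_sdiff, Finset.mem_union, hB1, hB2, Finset.mem_inter, Finset.mem_filter]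
    refine ⟨Nat.mem_primeFactors.mpr ⟨hp, hpm, hm.ne_zero⟩, ?_⟩
    rintro (h | h)
    · exact hpA h.2
    · exact hpl h.2.2.2

/-- the contribution of one cell and one number `n` -/
theorem kf_cell (S : Sys) {k' j' n : ℕ} (hk : S.K ≤ k') (hj : j' ∈ S.badc k') (hn0 : n ≠ 0) (A : Finset ℕ) :
    ∑ x ∈ (S.Cand k' j').filter (fun x => x.1 ∣ n ∧ QK A (k', j') n x ∧
      A ⊆ x.2.primeFactors ∪ (n / x.1).primeFactors), tw S A x.2 (n / x.1) ≤
      ((n.divisors.card : ℝ) ^ 2 * 2 ^ A.card * (2 * (2 : ℝ) ^ (S.s * ((k' : ℝ) + 1))) * (sig A n : ℝ) ^ S.hh) *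
        (2 : ℝ) ^ (-(S.u (S.cls k' j') + S.c) * k') := by
  have hhh1 := S.hh_ge
  have hhh2 := S.hh_le
  have hdel := S.del_pos
  have hs := S.s_pos
  have htau := S.tau_pos
  have hd := S.d_pos
  exact by
    have hj1 := S.mem_badc.mp hj
    set u := S.u (S.cls k' j') with hu
    set Xr : ℝ := (2 : ℝ) ^ (k' : ℝ) with hXr
    have hXr0 : 0 < Xr := by positivity
    set E1 : ℝ := (2 : ℝ) ^ (-(u + S.c) * k' + S.s * (k' + 1)) with hE1
    have hE10 : 0 < E1 := by positivity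
    exact by
      set E2 : ℝ := (2 : ℝ) ^ (-(u + S.c + S.del) * k') with hE2
      set H : ℝ := (2 : ℝ) ^ ec S.d k' with hH
      have hH0 : 0 < H := by positivity
      set T := (S.Cand k' j').filter (fun x => x.1 ∣ n ∧ QK A (k', j') n x ∧
          A ⊆ x.2.primeFactors ∪ (n / x.1).primeFactors) with hT
      -- step 1: the weight
      have hw : ∀ x ∈ T, tw S A x.2 (n / x.1) ≤
          ((mA A x.2 * gg A x.2 (n / x.1) : ℕ) / (x.2 : ℝ)) ^ S.hh * (sig A n : ℝ) ^ S.hh := by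
        intro x hx
        rw [hT, Finset.mem_filter] at hx
        obtain ⟨hx, hxn, hQ, hAx⟩ := hx
        obtain ⟨h1, h2, h3, h4, h5, h6, h7, -, -⟩ := S.cand_facts hk hj hx
        have hm0 : (0 : ℝ) < x.2 := by
          have : 0 < x.2 := by omega
          exact_mod_cast this
        have hl : n / x.1 ∣ n := Nat.div_dvd_of_dvd hxn
        have hl0 : n / x.1 ≠ 0 := (Nat.div_pos (Nat.le_of_dvd (Nat.pos_of_ne_zero hn0) hxn) h1.pos).ne'
        unfold tw
        rw [← Real.mul_rpow (by (clear * - h4; positivity)) (by positivity)]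
        refine Real.rpow_le_rpow (by (clear * - h4; positivity)) ?_ (by (clear * - hhh1 hhh2 hdel; linarith))
        rw [sig_union A x.2.primeFactors hl0]
        have hmono : (sig A (n / x.1) : ℝ) ≤ sig A n := by exact_mod_cast sig_mono A hn0 hl
        have e : (∏ p ∈ x.2.primeFactors.filter (fun p => p ∉ A ∧ p.Prime ∧ p ∣ n / x.1), p) =
            gg A x.2 (n / x.1) := rfl
        rw [e]
        push_cast
        calc (mA A x.2 : ℝ) / x.2 * ((sig A (n / x.1) : ℝ) * gg A x.2 (n / x.1)) =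
            (mA A x.2 : ℝ) * gg A x.2 (n / x.1) / x.2 * (sig A (n / x.1) : ℝ) := by ring
          _ ≤ _ := mul_le_mul_of_nonneg_left hmono (by (clear * - h4; positivity))
      have hsum1 : ∑ x ∈ T, tw S A x.2 (n / x.1) ≤
          (∑ x ∈ T, ((mA A x.2 * gg A x.2 (n / x.1) : ℕ) / (x.2 : ℝ)) ^ S.hh) * (sig A n : ℝ) ^ S.hh := by
        rw [Finset.sum_mul]
        exact Finset.sum_le_sum hw
      -- step 2: fibres
      exact by
        have hb := sum_fib T (n.divisors ×ˢ (PA A ×ˢ n.divisors)) (fun x => (x.1, mA A x.2, gg A x.2 (n / x.1)))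
          (by
            intro x hx
            rw [hT, Finset.mem_filter] at hx
            obtain ⟨hx, hxn, hQ, hAx⟩ := hx
            rw [Finset.mem_product, Finset.mem_product]
            refine ⟨Nat.mem_divisors.mpr ⟨hxn, hn0⟩, mA_mem A x.2, ?_⟩
            exact Nat.mem_divisors.mpr ⟨(gg_dvd A x.2).trans (Nat.div_dvd_of_dvd hxn), hn0⟩)
          (fun x => ((mA A x.2 * gg A x.2 (n / x.1) : ℕ) / (x.2 : ℝ)) ^ S.hh)
          (fun z => if (z.1 : ℝ) ^ (S.hh - 1) ≤ E2 ∧ 0 < z.1 ∧ 0 < z.2.1 ∧ 0 < z.2.2 then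
            H / (z.1 * (z.2.1 * z.2.2) : ℕ) + 1 else 0)
          (fun z => min E1 (((z.1 * (z.2.1 * z.2.2) : ℕ) / Xr) ^ S.hh))
          (fun z _ => le_min hE10.le (by (clear * -; positivity)))
          (by
            intro x hx
            rw [hT, Finset.mem_filter] at hx
            obtain ⟨hx, hxn, ⟨p, hp, hpm, hpA, hpl⟩, hAx⟩ := hx
            obtain ⟨h1, h2, h3, h4, h5, h6, h7, -, -⟩ := S.cand_facts hk hj hx
            obtain ⟨r, hr, hr2⟩ := mA_gg A h2 (n / x.1)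
            have hm0 : (0 : ℝ) < x.2 := by
              have : 0 < x.2 := by omega
              exact_mod_cast this
            have hw0 : (0 : ℝ) < (mA A x.2 * gg A x.2 (n / x.1) : ℕ) := by
              exact_mod_cast Nat.mul_pos (mA_pos _ _) (gg_pos _ _ _)
            have hq0 : (0 : ℝ) < x.1 := by exact_mod_cast h1.pos
            refine le_min ?_ ?_
            · have hpr := hr2 p hp hpm hpA hpl
              have hp0 : (0 : ℝ) < p := by exact_mod_cast hp.pos
              have hr0 : 0 < r := by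
                rcases Nat.eq_zero_or_pos r with h0 | h0
                · rw [h0, Nat.mul_zero] at hr; omega
                · exact h0
              have h8 : (p : ℝ) ≤ r := by exact_mod_cast Nat.le_of_dvd hr0 hpr
              have h9 : ((mA A x.2 * gg A x.2 (n / x.1) : ℕ) : ℝ) * r = x.2 := by exact_mod_cast hr
              have h10 : ((mA A x.2 * gg A x.2 (n / x.1) : ℕ) / (x.2 : ℝ)) ≤ (p : ℝ)⁻¹ := by
                rw [div_le_iff₀ hm0, ← h9]
                rw [inv_mul_eq_div, le_div_iff₀ hp0]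
                exact mul_le_mul_of_nonneg_left h8 hw0.le
              calc ((mA A x.2 * gg A x.2 (n / x.1) : ℕ) / (x.2 : ℝ)) ^ S.hh ≤ ((p : ℝ)⁻¹) ^ S.hh :=
                    Real.rpow_le_rpow (by (clear * - hw0 h4; positivity)) h10 (by (clear * - hhh1 hhh2 hdel; linarith))
                _ = (p : ℝ) ^ (-S.hh) := by rw [Real.inv_rpow hp0.le, Real.rpow_neg hp0.le]
                _ ≤ E1 := cand_p S hk hj hx hp hpm
            · refine Real.rpow_le_rpow (by (clear * - hw0 h4; positivity)) ?_ (by linarith)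
              have h8 : Xr ≤ x.1 * x.2 := by
                rw [hXr, Real.rpow_natCast]
                exact_mod_cast h6
              rw [div_le_div_iff₀ hm0 hXr0]
              push_cast
              have h9 : (0 : ℝ) ≤ (mA A x.2 : ℝ) * gg A x.2 (n / x.1) := by (clear * -; positivity)
              calc (mA A x.2 : ℝ) * gg A x.2 (n / x.1) * Xr ≤ (mA A x.2 : ℝ) * gg A x.2 (n / x.1) * (x.1 * x.2) :=
                    mul_le_mul_of_nonneg_left h8 h9
                _ = _ := by ring)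
          (by
            rintro ⟨q, μ, g⟩ hz
            dsimp only
            split_ifs with hc
            · obtain ⟨hc1, hc2, hc3, hc4⟩ := hc
              have h12 : ((T.filter (fun x => (x.1, mA A x.2, gg A x.2 (n / x.1)) = (q, μ, g))).card) ≤
                  ((Ico (2 ^ k' + j' * 2 ^ ec S.d k') (2 ^ k' + j' * 2 ^ ec S.d k' + 2 ^ ec S.d k')).filter
                    (fun t => q * (μ * g) ∣ t)).card := by
                refine card_le_card_of_injOn (fun x => x.1 * x.2) ?_ ?_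
                · intro x hx
                  rw [mem_coe, mem_filter, hT, mem_filter, Prod.mk.injEq, Prod.mk.injEq] at hx
                  obtain ⟨⟨hx, -, -, -⟩, e1, e2, e3⟩ := hx
                  obtain ⟨h1, h2, h3, h4, h5, -⟩ := S.cand_facts hk hj hx
                  obtain ⟨r, hr, -⟩ := mA_gg A h2 (n / x.1)
                  rw [mem_coe, mem_filter, ← Pool.Agent.M20.Helper88.KS.cell_eq]
                  dsimp only
                  refine ⟨h5, ?_⟩
                  rw [← e1, ← e2, ← e3]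
                  exact Nat.mul_dvd_mul_left _ (Dvd.intro _ hr)
                · intro x hx y hy hxy
                  rw [mem_coe, mem_filter, hT, mem_filter] at hx hy
                  exact S.inj k' hk j' hj1.1 hj1.2 x hx.1.1 y hy.1.1 hxy
              refine le_trans (by exact_mod_cast h12) ((card_mult _ _ _ (Nat.mul_pos hc2 (Nat.mul_pos hc3 hc4))).trans ?_)
              rw [hH]
              push_cast
              exact le_rfl
            · rw [show (T.filter (fun x => (x.1, mA A x.2, gg A x.2 (n / x.1)) = (q, μ, g))) = ∅ by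
                rw [filter_eq_empty_iff]
                intro x hx e
                rw [Prod.mk.injEq, Prod.mk.injEq] at e
                obtain ⟨e1, e2, e3⟩ := e
                rw [hT, mem_filter] at hx
                refine hc ⟨?_, ?_, ?_, ?_⟩
                · rw [← e1]; exact cand_q S hk hj hx.1
                · rw [← e1]; exact (S.cand_facts hk hj hx.1).1.pos
                · rw [← e2]; exact mA_pos _ _
                · rw [← e3]; exact gg_pos _ _ _]
              simp)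
        have hterm : ∀ z ∈ n.divisors ×ˢ (PA A ×ˢ n.divisors),
            (if (z.1 : ℝ) ^ (S.hh - 1) ≤ E2 ∧ 0 < z.1 ∧ 0 < z.2.1 ∧ 0 < z.2.2 then
            H / (z.1 * (z.2.1 * z.2.2) : ℕ) + 1 else 0) * min E1 (((z.1 * (z.2.1 * z.2.2) : ℕ) / Xr) ^ S.hh) ≤ 2 * E1 := by
          rintro ⟨q, μ, g⟩ hz
          dsimp only
          split_ifs with hc
          · obtain ⟨hc1, hc2, hc3, hc4⟩ := hc
            exact by
              set w : ℝ := ((q * (μ * g) : ℕ) : ℝ) with hwdef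
              have hw0 : 0 < w := by
                have := Nat.mul_pos hc2 (Nat.mul_pos hc3 hc4)
                rw [hwdef]; exact_mod_cast this
              have hqw : (q : ℝ) ≤ w := by
                rw [hwdef]
                exact_mod_cast Nat.le_mul_of_pos_right q (Nat.mul_pos hc3 hc4)
              have hq0 : (0 : ℝ) < q := by exact_mod_cast hc2
              have h6 : H / w * (w / Xr) ^ S.hh ≤ E1 := by
                have h7 : H / w * (w / Xr) ^ S.hh = H * Xr ^ (-S.hh) * w ^ (S.hh - 1) := by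
                  rw [Real.div_rpow hw0.le hXr0.le, Real.rpow_sub hw0, Real.rpow_one, Real.rpow_neg hXr0.le]
                  (clear * - hXr0 hw0 hH0; field_simp)
                rw [h7]
                have h8 : w ^ (S.hh - 1) ≤ E2 :=
                  (Real.rpow_le_rpow_of_nonpos hq0 hqw (by (clear * - hhh1 hhh2 hdel; linarith))).trans hc1
                have h9 : H ≤ (2 : ℝ) ^ ((1/2 - S.d) * (k' : ℝ)) := by
                  have := S.d_le'
                  refine Pool.Agent.M20.Helper88.KS.ec_real_le S.d ?_ k'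
                  norm_num at this
                  (clear * - hd this; linarith)
                calc H * Xr ^ (-S.hh) * w ^ (S.hh - 1) ≤ (2 : ℝ) ^ ((1/2 - S.d) * (k' : ℝ)) * Xr ^ (-S.hh) * E2 :=
                      mul_le_mul (mul_le_mul_of_nonneg_right h9 (by positivity)) h8 (by (clear * - hc2 hc3 hc4; positivity)) (by positivity)
                  _ = (2 : ℝ) ^ ((1/2 - S.d) * (k' : ℝ) + (k' : ℝ) * (-S.hh) + -(u + S.c + S.del) * k') := by
                      rw [hXr, hE2, ← Real.rpow_mul (by norm_num), ← Real.rpow_add (by norm_num),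
                        ← Real.rpow_add (by norm_num)]
                  _ ≤ E1 := by
                      rw [hE1]
                      refine Real.rpow_le_rpow_of_exponent_le (by norm_num) ?_
                      have hk0 : (0 : ℝ) ≤ k' := Nat.cast_nonneg _
                      have hds : S.s ≤ S.d := by rw [S.s_eq]; (clear * - hd; linarith)
                      rw [S.hh_eq]
                      have : (1/2 - S.d) * (k' : ℝ) + (k' : ℝ) * (-(1/2 - S.s - S.del + S.tau)) + -(u + S.c + S.del) * k' =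
                          -(u + S.c) * k' + (S.s - S.d - S.tau) * k' := by ring
                      rw [this]
                      have h10 : (S.s - S.d - S.tau) * (k' : ℝ) ≤ 0 := mul_nonpos_of_nonpos_of_nonneg (by (clear * - htau hds; linarith)) hk0
                      have h11 : 0 ≤ S.s * ((k' : ℝ) + 1) := by (clear * - hs; positivity)
                      (clear * - h10 h11; linarith)
              have h11 : H / w * min E1 ((w / Xr) ^ S.hh) ≤ H / w * (w / Xr) ^ S.hh :=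
                mul_le_mul_of_nonneg_left (min_le_right _ _) (by positivity)
              have h12 : min E1 ((w / Xr) ^ S.hh) ≤ E1 := min_le_left _ _
              rw [add_mul, one_mul]
              (clear * - h6 h11 h12; linarith)
          · rw [zero_mul]; positivity
        have hcount : (∑ z ∈ n.divisors ×ˢ (PA A ×ˢ n.divisors),
            (if (z.1 : ℝ) ^ (S.hh - 1) ≤ E2 ∧ 0 < z.1 ∧ 0 < z.2.1 ∧ 0 < z.2.2 then
            H / (z.1 * (z.2.1 * z.2.2) : ℕ) + 1 else 0) * min E1 (((z.1 * (z.2.1 * z.2.2) : ℕ) / Xr) ^ S.hh)) ≤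
            ((n.divisors.card : ℝ) ^ 2 * 2 ^ A.card) * (2 * E1) := by
          calc _ ≤ ∑ _z ∈ n.divisors ×ˢ (PA A ×ˢ n.divisors), 2 * E1 := Finset.sum_le_sum hterm
            _ = ((n.divisors.card : ℝ) * ((PA A).card * n.divisors.card)) * (2 * E1) := by
                rw [Finset.sum_const, nsmul_eq_mul, Finset.card_product, Finset.card_product]; push_cast; ring
            _ ≤ ((n.divisors.card : ℝ) * (2 ^ A.card * n.divisors.card)) * (2 * E1) := by
                refine mul_le_mul_of_nonneg_right ?_ (by positivity)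
                refine mul_le_mul_of_nonneg_left ?_ (by (clear * -; positivity))
                refine mul_le_mul_of_nonneg_right ?_ (by (clear * -; positivity))
                exact_mod_cast card_PA A
            _ = _ := by ring
        calc ∑ x ∈ T, tw S A x.2 (n / x.1) ≤
              (((n.divisors.card : ℝ) ^ 2 * 2 ^ A.card) * (2 * E1)) * (sig A n : ℝ) ^ S.hh :=
              hsum1.trans (mul_le_mul_of_nonneg_right (hb.trans hcount) (by (clear * -; positivity)))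
          _ = _ := by
              rw [hE1, Real.rpow_add (by norm_num)]
              ring

end Pool.Agent.M20.Helper35.KL
end

/- Helper53.KN.Helper88.KS.Mult1 -/
section
/-!
# Project KS: `Mult1` (number of owners of a prime, conditional first moments)
-/

set_option autoImplicit false
open scoped Classical

namespace Pool.Agent.M20.Helper88.KS

open Pool.Agent.M20.Helper16.KS

/-- summation over the bad cells of a block: if every bad cell contributes at most
`2^(-(u + t) k)`, then the total is at most `3 * 2^(-t k)`. -/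
theorem sum_badc_le (S : Sys) {k : ℕ} (hk : S.K ≤ k) (F : ℕ → ℝ) (t : ℝ)
    (hF : ∀ j ∈ S.badc k, F j ≤ (2 : ℝ) ^ (-(S.u (S.cls k j) + t) * k)) :
    ∑ j ∈ S.badc k, F j ≤ 3 * (2 : ℝ) ^ (-t * (k : ℝ)) := by
  calc ∑ j ∈ S.badc k, F j ≤ ∑ j ∈ S.badc k, (2 : ℝ) ^ (-(S.u (S.cls k j) + t) * k) :=
        Finset.sum_le_sum hF
    _ = ∑ i : Fin 3, ∑ j ∈ (S.badc k).filter (fun j => S.cls k j = i),
          (2 : ℝ) ^ (-(S.u (S.cls k j) + t) * k) := (Finset.sum_fiberwise _ _ _).symm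
    _ = ∑ i : Fin 3, (((S.badc k).filter (fun j => S.cls k j = i)).card : ℝ) *
          (2 : ℝ) ^ (-(S.u i + t) * k) := by
        refine Finset.sum_congr rfl fun i _ => ?_
        rw [← nsmul_eq_mul, ← Finset.sum_const]
        refine Finset.sum_congr rfl fun j hj => ?_
        rw [(Finset.mem_filter.1 hj).2]
    _ ≤ ∑ _i : Fin 3, (2 : ℝ) ^ (-t * (k : ℝ)) := by
        refine Finset.sum_le_sum fun i _ => ?_
        have h1 := S.few k hk i
        have h2 : (S.badc k).filter (fun j => S.cls k j = i) =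
            (Finset.range (nc S.d k)).filter (fun j => S.bad k j ∧ S.cls k j = i) := by
          unfold Sys.badc
          rw [Finset.filter_filter]
        rw [h2]
        calc _ ≤ (2 : ℝ) ^ (S.u i * k) * (2 : ℝ) ^ (-(S.u i + t) * k) :=
              mul_le_mul_of_nonneg_right h1 (by positivity)
          _ = (2 : ℝ) ^ (-t * (k : ℝ)) := by
              rw [← Real.rpow_add (by norm_num)]
              congr 1
              ring
    _ = 3 * (2 : ℝ) ^ (-t * (k : ℝ)) := by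
        rw [Finset.sum_const, Finset.card_univ, Fintype.card_fin, nsmul_eq_mul]
        norm_num

theorem mult1 : Mult1 := by
  intro S
  obtain ⟨hc, hc6, hdel, heta, htau0, htaus, hs0, hsc, hdc, hhh, hhh2, hhh0, hdel6⟩ := params S
  refine ⟨S.K + ⌈1000 / S.c⌉₊, ?_⟩
  intro k hk q A
  have hkK : S.K ≤ k := le_trans (Nat.le_add_right _ _) hk
  have hkc : 1000 ≤ S.c * k := by
    have h1 : (⌈1000 / S.c⌉₊ : ℝ) ≤ k := by exact_mod_cast le_trans (Nat.le_add_left _ _) hk
    have h2 := (Nat.le_ceil (1000 / S.c)).trans h1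
    rw [div_le_iff₀ hc] at h2
    (clear * - h2; linarith)
  have hk1 : (1000 : ℝ) ≤ k := by
    have hk0 : (0 : ℝ) ≤ k := Nat.cast_nonneg k
    norm_num at hc6
    (clear * - hs0 hsc hkc hc6; nlinarith)
  have hsk : ((k : ℝ) + 1) * S.s ≤ S.c * k / 1000 := by
    have h1 : ((k : ℝ) + 1) * S.s ≤ ((k : ℝ) + 1) * (S.c / 10 ^ 5) :=
      mul_le_mul_of_nonneg_left hsc (by (clear * - hc6 hs0 hsc hk1; linarith))
    (clear * - hc6 hs0 hsc hkc h1; nlinarith)
  -- the contribution of one cell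
  have main : ∀ j ∈ S.badc k,
      ∑ x ∈ (S.Cand k j).filter (fun x => x.1 = q ∧ A ⊂ x.2.primeFactors),
        S.pc A x.2.primeFactors ≤ (2 : ℝ) ^ (-(S.u (S.cls k j) + 3 * S.c / 4) * k) := by
    intro j hj
    have hjb := mem_badc.1 hj
    set u := S.u (S.cls k j) with hu_def
    set T := (S.Cand k j).filter (fun x => x.1 = q ∧ A ⊂ x.2.primeFactors) with hT
    have hTsub : T ⊆ S.Cand k j := Finset.filter_subset _ _
    rcases T.eq_empty_or_nonempty with h0 | ⟨y₀, hy₀⟩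
    · rw [h0, Finset.sum_empty]
      positivity
    -- facts about the members of `T`
    have hTq : ∀ y ∈ T, y.1 = q := fun y hy => (Finset.mem_filter.1 hy).2.1
    have hTA : ∀ y ∈ T, A ⊂ y.2.primeFactors := fun y hy => (Finset.mem_filter.1 hy).2.2
    have hq : q.Prime := by
      have := (S.cand k hkK j hjb.1 hjb.2 y₀ (hTsub hy₀)).1
      rwa [hTq y₀ hy₀] at this
    have hsqf : ∀ y ∈ T, Squarefree y.2 := fun y hy =>
      (S.cand k hkK j hjb.1 hjb.2 y (hTsub hy)).2.2.1.squarefree_of_dvd (Dvd.intro_left _ rfl)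
    set a := ∏ p ∈ A, p with ha
    have hapos : 0 < a := Finset.prod_pos fun p hp =>
      (Nat.prime_of_mem_primeFactors ((hTA y₀ hy₀).1 hp)).pos
    have hqa : 0 < q * a := Nat.mul_pos hq.pos hapos
    have hcard : (T.card : ℝ) ≤ (2 : ℝ) ^ ec S.d k / ((q * a : ℕ) : ℝ) + 1 := by
      have h1 : T.card ≤ ((Finset.Ico (2 ^ k + j * 2 ^ ec S.d k)
          (2 ^ k + j * 2 ^ ec S.d k + 2 ^ ec S.d k)).filter (fun n => q * a ∣ n)).card := by
        apply Finset.card_le_card_of_injOn (fun y => y.1 * y.2)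
        · intro y hy
          rw [Finset.mem_coe] at hy
          rw [Finset.mem_coe, Finset.mem_filter, ← cell_eq]
          refine ⟨(S.cand k hkK j hjb.1 hjb.2 y (hTsub hy)).2.2.2.2.1, ?_⟩
          show q * a ∣ y.1 * y.2
          rw [hTq y hy]
          exact Nat.mul_dvd_mul_left q ⟨_, (prod_mul_prod_sdiff (hsqf y hy) (hTA y hy).1).symm⟩
        · intro y hy z hz hyz
          rw [Finset.mem_coe] at hy hz
          exact S.inj k hkK j hjb.1 hjb.2 y (hTsub hy) z (hTsub hz) hyz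
      have h2 : (T.card : ℝ) ≤ (((Finset.Ico (2 ^ k + j * 2 ^ ec S.d k)
          (2 ^ k + j * 2 ^ ec S.d k + 2 ^ ec S.d k)).filter (fun n => q * a ∣ n)).card : ℝ) := by
        exact_mod_cast h1
      refine h2.trans ((card_mult_le _ _ _ hqa).trans ?_)
      push_cast
      exact le_rfl
    set N : ℝ := (2 : ℝ) ^ ec S.d k / ((q * a : ℕ) : ℝ) + 1 with hN
    have hqaR : (0 : ℝ) < ((q * a : ℕ) : ℝ) := by exact_mod_cast hqa
    have hN0 : 0 < N := by rw [hN]; (clear * - hqa; positivity)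
    -- each term is small
    have hterm : ∀ y ∈ T, S.pc A y.2.primeFactors ≤
        (2 : ℝ) ^ (-(u + 3 * S.c / 4) * k) / N := by
      intro y hy
      obtain ⟨hyp, hq3, hsq, h1y, hcell, hprim, hm⟩ := S.cand k hkK j hjb.1 hjb.2 y (hTsub hy)
      have hAy := (hTA y hy)
      have hab := prod_mul_prod_sdiff (hsqf y hy) hAy.1
      rw [← ha] at hab
      set b := ∏ p ∈ y.2.primeFactors \ A, p with hb
      have hbpos : 0 < b := Finset.prod_pos fun p hp =>
        (Nat.prime_of_mem_primeFactors (Finset.mem_sdiff.1 hp).1).pos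
      have hbR : (0 : ℝ) < (b : ℝ) := by exact_mod_cast hbpos
      have hb1 : (1 : ℝ) ≤ (b : ℝ) := by exact_mod_cast hbpos
      have hy2 : 0 < y.2 := lt_trans zero_lt_one h1y
      have hble : b ≤ y.2 := Nat.le_of_dvd hy2 ⟨a, by rw [mul_comm]; exact hab.symm⟩
      have hbleR : (b : ℝ) ≤ (y.2 : ℝ) := by exact_mod_cast hble
      have hy2R : (1 : ℝ) ≤ (y.2 : ℝ) := by exact_mod_cast hy2
      have hcb := cell_bound S.d_pos.le hjb.1 hcell
      have hyq : y.1 = q := hTq y hy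
      have hqR : (0 : ℝ) < q := by exact_mod_cast hq.pos
      have hn1 : (2 : ℝ) ^ (k : ℝ) ≤ (q : ℝ) * y.2 := by
        have h3 : ((2 ^ k : ℕ) : ℝ) ≤ ((y.1 * y.2 : ℕ) : ℝ) := by exact_mod_cast hcb.1
        rw [Nat.cast_mul, hyq] at h3
        push_cast at h3
        rwa [Real.rpow_natCast]
      have hn2 : (y.2 : ℝ) ≤ (2 : ℝ) ^ ((k : ℝ) + 1) := by
        have h3 : y.2 ≤ y.1 * y.2 := Nat.le_mul_of_pos_left _ hyp.pos
        have h4 : y.2 < 2 ^ (k + 1) := lt_of_le_of_lt h3 hcb.2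
        have h5 : (y.2 : ℝ) < ((2 ^ (k + 1) : ℕ) : ℝ) := by exact_mod_cast h4
        refine h5.le.trans (le_of_eq ?_)
        push_cast
        rw [← Real.rpow_natCast]
        push_cast
        rfl
      have hms : (y.2 : ℝ) ^ S.s ≤ (2 : ℝ) ^ (S.c * k / 1000) := by
        calc (y.2 : ℝ) ^ S.s ≤ ((2 : ℝ) ^ ((k : ℝ) + 1)) ^ S.s :=
              Real.rpow_le_rpow (by positivity) hn2 hs0.le
          _ = (2 : ℝ) ^ (((k : ℝ) + 1) * S.s) := by rw [← Real.rpow_mul (by norm_num)]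
          _ ≤ _ := Real.rpow_le_rpow_of_exponent_le (by norm_num) hsk
      -- (i)
      have hi : (b : ℝ) ^ (-S.hh) ≤ (2 : ℝ) ^ (-(u + S.c) * k + S.c * k / 1000) := by
        obtain ⟨p, hp, hpA⟩ := Finset.exists_of_ssubset hAy
        have hpp := Nat.prime_of_mem_primeFactors hp
        have hpd : p ∣ y.1 * y.2 := Dvd.dvd.mul_left (Nat.dvd_of_mem_primeFactors hp) _
        have h1 := hprim p hpp hpd
        have hpb : p ≤ b := Nat.le_of_dvd hbpos
          (Finset.dvd_prod_of_mem _ (Finset.mem_sdiff.2 ⟨hp, hpA⟩))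
        have hpbR : (p : ℝ) ≤ (b : ℝ) := by exact_mod_cast hpb
        have h2 : (2 : ℝ) ^ ((u + S.c) * k) ≤ (b : ℝ) ^ (1/2 - S.del) :=
          h1.trans (Real.rpow_le_rpow (Nat.cast_nonneg _) hpbR (by norm_num at hdel6; (clear * - hhh hhh0; linarith)))
        calc (b : ℝ) ^ (-S.hh) ≤ (b : ℝ) ^ (-(1/2 - S.del) + S.s) :=
              Real.rpow_le_rpow_of_exponent_le hb1 (by (clear * - hhh2; linarith))
          _ = ((b : ℝ) ^ (1/2 - S.del))⁻¹ * (b : ℝ) ^ S.s := by
              rw [Real.rpow_add hbR, Real.rpow_neg hbR.le]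
          _ ≤ ((2 : ℝ) ^ ((u + S.c) * k))⁻¹ * (2 : ℝ) ^ (S.c * k / 1000) := by
              apply mul_le_mul (inv_anti₀ (by positivity) h2) _ (by (clear * - hbpos; positivity)) (by positivity)
              exact (Real.rpow_le_rpow hbR.le hbleR hs0.le).trans hms
          _ = _ := by
              rw [← Real.rpow_neg (by norm_num), ← Real.rpow_add (by norm_num)]
              congr 1
              ring
      -- (ii)
      have hii : (b : ℝ) ^ (-S.hh) * ((2 : ℝ) ^ ec S.d k / ((q * a : ℕ) : ℝ)) ≤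
          (2 : ℝ) ^ (-(u + S.c) * k + S.c * k / 1000) := by
        have h1 : (2 : ℝ) ^ ec S.d k / ((q * a : ℕ) : ℝ) ≤ (2 : ℝ) ^ (-((k : ℝ) / 2)) * b := by
          rw [div_le_iff₀ hqaR]
          have h2 : (2 : ℝ) ^ ec S.d k ≤ (2 : ℝ) ^ ((k : ℝ) / 2) := by
            refine (ec_real_le S.d ?_ k).trans ?_
            · have : S.c / 10 ^ 5 ≤ 1 := by
                rw [div_le_iff₀ (by norm_num)]
                norm_num at hc6
                (clear * - hs0 hsc hc6; linarith)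
              (clear * - hc6 hs0 hsc hdc hdel6; linarith [S.d_le, S.u_le 0, S.u_ge 0, hdel6, S.c_le, S.eta_le, S.del_le])
            · apply Real.rpow_le_rpow_of_exponent_le (by norm_num)
              have := mul_nonneg S.d_pos.le (Nat.cast_nonneg k : (0:ℝ) ≤ k)
              (clear * - this; nlinarith)
          have h3 : (2 : ℝ) ^ ((k : ℝ) / 2) = (2 : ℝ) ^ (-((k : ℝ) / 2)) * (2 : ℝ) ^ (k : ℝ) := by
            rw [← Real.rpow_add (by norm_num)]
            congr 1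
            ring
          have h4 : (q : ℝ) * y.2 = (b : ℝ) * ((q * a : ℕ) : ℝ) := by
            rw [← hab]
            push_cast
            ring
          calc (2 : ℝ) ^ ec S.d k ≤ (2 : ℝ) ^ (-((k : ℝ) / 2)) * (2 : ℝ) ^ (k : ℝ) := h3 ▸ h2
            _ ≤ (2 : ℝ) ^ (-((k : ℝ) / 2)) * ((q : ℝ) * y.2) :=
                mul_le_mul_of_nonneg_left hn1 (by positivity)
            _ = (2 : ℝ) ^ (-((k : ℝ) / 2)) * b * ((q * a : ℕ) : ℝ) := by rw [h4]; ring
        calc (b : ℝ) ^ (-S.hh) * ((2 : ℝ) ^ ec S.d k / ((q * a : ℕ) : ℝ))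
            ≤ (b : ℝ) ^ (-S.hh) * ((2 : ℝ) ^ (-((k : ℝ) / 2)) * b) :=
              mul_le_mul_of_nonneg_left h1 (by positivity)
          _ = (2 : ℝ) ^ (-((k : ℝ) / 2)) * (b : ℝ) ^ (1 - S.hh) := by
              rw [show (1 : ℝ) - S.hh = -S.hh + 1 by ring, Real.rpow_add hbR, Real.rpow_one]
              ring
          _ ≤ (2 : ℝ) ^ (-((k : ℝ) / 2)) * ((2 : ℝ) ^ ((1/2 - u - S.c) * k) *
                (2 : ℝ) ^ (S.c * k / 1000)) := by
              apply mul_le_mul_of_nonneg_left _ (by positivity)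
              calc (b : ℝ) ^ (1 - S.hh) ≤ (y.2 : ℝ) ^ (1 - S.hh) :=
                    Real.rpow_le_rpow hbR.le hbleR (by (clear * - hc6 hdel hs0 hsc hhh; linarith))
                _ ≤ (y.2 : ℝ) ^ (1/2 + S.del + S.s) :=
                    Real.rpow_le_rpow_of_exponent_le hy2R (by (clear * - hhh2; linarith))
                _ = (y.2 : ℝ) ^ (1/2 + S.del) * (y.2 : ℝ) ^ S.s := by
                    rw [← Real.rpow_add (by (clear * - hc6 hs0 hsc hb1 hbleR; linarith))]
                _ ≤ _ := mul_le_mul hm hms (by positivity) (by positivity)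
          _ = _ := by
              rw [← Real.rpow_add (by norm_num), ← Real.rpow_add (by norm_num)]
              congr 1
              ring
      rw [pc_eq, ← hb, le_div_iff₀ hN0, hN, mul_add, mul_one]
      have h9 : (2 : ℝ) ^ (-(u + S.c) * k + S.c * k / 1000) ≤
          (2 : ℝ) ^ (-(u + 3 * S.c / 4) * k - 1) := by
        apply Real.rpow_le_rpow_of_exponent_le (by norm_num)
        (clear * - hc6 hs0 hsc hkc; nlinarith)
      have h10 : (2 : ℝ) ^ (-(u + 3 * S.c / 4) * (k : ℝ) - 1) =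
          (2 : ℝ) ^ (-(u + 3 * S.c / 4) * (k : ℝ)) / 2 := by
        rw [Real.rpow_sub (by norm_num), Real.rpow_one]
      (clear * - hi hii h9 h10; linarith [hi, hii])
    calc ∑ x ∈ T, S.pc A x.2.primeFactors
        ≤ ∑ _x ∈ T, (2 : ℝ) ^ (-(u + 3 * S.c / 4) * k) / N := Finset.sum_le_sum hterm
      _ = T.card * ((2 : ℝ) ^ (-(u + 3 * S.c / 4) * k) / N) := by
          rw [Finset.sum_const, nsmul_eq_mul]
      _ ≤ N * ((2 : ℝ) ^ (-(u + 3 * S.c / 4) * k) / N) :=
          mul_le_mul_of_nonneg_right hcard (by (clear * - hqa; positivity))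
      _ = _ := mul_div_cancel₀ _ hN0.ne'
  have h1 := sum_badc_le S hkK _ (3 * S.c / 4) main
  exact by
    refine h1.trans ?_
    calc 3 * (2 : ℝ) ^ (-(3 * S.c / 4) * (k : ℝ)) ≤ (2 : ℝ) ^ (2 : ℝ) * (2 : ℝ) ^ (-(3 * S.c / 4) * (k : ℝ)) := by
          apply mul_le_mul_of_nonneg_right _ (by positivity)
          norm_num
      _ = (2 : ℝ) ^ (2 + -(3 * S.c / 4) * (k : ℝ)) := by rw [← Real.rpow_add (by norm_num)]
      _ ≤ (2 : ℝ) ^ (-(S.c / 2) * (k : ℝ)) := by
          apply Real.rpow_le_rpow_of_exponent_le (by norm_num)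
          (clear * - hc6 hs0 hsc hkc; nlinarith)

end Pool.Agent.M20.Helper88.KS
end

/- Helper53.KN.Helper35.KL.KFinal -/
section
/-! Load theorem of project KS: the bound `KF`. -/

set_option autoImplicit false
open scoped Classical
open Finset Filter

namespace Pool.Agent.M20.Helper35.KL

open Pool.Agent.M20.Helper16.KS Pool.Agent.M20.Helper18.KL

theorem three_d_le (S : Sys) : 3 * S.d ≤ S.eta := by
  have h1 := S.d_le
  have h2 := S.c_le
  have h3 := S.eta_pos
  have h4 : S.c / 10 ^ 5 ≤ S.eta / 10 ^ 6 := by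
    rw [div_le_div_iff₀ (by positivity) (by positivity)]
    (clear * - h2; nlinarith)
  have h5 : 3 * (S.eta / 10 ^ 6) ≤ S.eta := by
    rw [mul_div_assoc', div_le_iff₀ (by positivity)]
    (clear * - h3; nlinarith)
  (clear * - h1 h2 h3; linarith)

/-- weighted size of a cell -/
theorem mass_cell (S : Sys) : ∃ C : ℝ, 0 < C ∧ ∀ k0 : ℕ, 10 ≤ k0 → ∀ k, k0 ≤ k → ∀ j < nc S.d k, ∀ A : Finset ℕ,
    Aok k0 k A → ∑ n ∈ (cell S.d k j).filter (Sys.rough k0), (sig A n : ℝ) ^ S.hh ≤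
      C * (2 : ℝ) ^ (35 * ((k + 1 : ℝ) / k0)) * 2 ^ ec S.d k := by
  obtain ⟨C, hC, h⟩ := powA S (3 * S.d) (by have := S.d_pos; (clear * - this; linarith)) (three_d_le S)
  refine ⟨4 * C, by (clear * - hC; positivity), ?_⟩
  intro k0 hk0 k hkk j hj A hA
  have hd := S.d_pos
  have hd' : S.d ≤ 1/100 := by have := S.d_le'; norm_num at this ⊢; (clear * - hd this; linarith)
  have hec := Pool.Agent.M20.Helper88.KS.ec_le S.d hd.le k
  set x := 2 ^ k + j * 2 ^ ec S.d k with hx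
  set y := 2 ^ ec S.d k with hy
  have hcell : cell S.d k j = Ico x (x + y) := Pool.Agent.M20.Helper88.KS.cell_eq S.d k j
  have hx1 : 1 ≤ x := by have := Nat.one_le_two_pow (n := k); omega
  have hyx : y ≤ x := by
    have : y ≤ 2 ^ k := Nat.pow_le_pow_right (by norm_num) hec
    omega
  have hx2 : x < 2 ^ (k + 1) := by
    have hxm : x ∈ cell S.d k j := by
      rw [hcell, mem_Ico]
      have : 0 < y := by positivity
      omega
    exact cell_lt hd hj hxm
  have hP0 : 2 ≤ 2 ^ (k0 / 5) := by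
    calc 2 = 2 ^ 1 := by norm_num
      _ ≤ 2 ^ (k0 / 5) := Nat.pow_le_pow_right (by norm_num) (by omega)
  have h1 := h x y (2 ^ (k0 / 5)) A 1 hx1 hyx hP0 hA.1 le_rfl (by simp)
  have h2 : ∑ n ∈ (cell S.d k j).filter (Sys.rough k0), (sig A n : ℝ) ^ S.hh ≤
      ∑ n ∈ (Ico x (x + y)).filter (fun n => 1 ∣ n), (sig A n : ℝ) ^ S.hh := by
    refine Finset.sum_le_sum_of_subset_of_nonneg ?_ fun _ _ _ => by (clear * -; positivity)
    intro n hn
    rw [mem_filter, hcell] at hn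
    exact mem_filter.mpr ⟨hn.1, one_dvd _⟩
  refine h2.trans (h1.trans ?_)
  rw [Nat.cast_one, Real.one_rpow, Real.one_rpow, mul_one, mul_one]
  have h3 : (2 : ℝ) ^ (A.card + Nat.log (2 ^ (k0 / 5)) (2 * x)) ≤ (2 : ℝ) ^ (35 * ((k + 1 : ℝ) / k0)) := by
    rw [← Real.rpow_natCast]
    refine Real.rpow_le_rpow_of_exponent_le (by norm_num) ?_
    push_cast
    have h4 := hA.2
    have h5 := log_le (x := 2 * x) hk0 hkk (by rw [pow_succ]; omega)
    (clear * - h4 h5; linarith)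
  have h4 : (x : ℝ) ^ (1 / 2 - 3 * S.d) ≤ 3 * (y : ℝ) := by
    have hxr : (x : ℝ) ≤ (2 : ℝ) ^ ((k : ℝ) + 1) := by
      have : (x : ℝ) ≤ ((2 ^ (k + 1) : ℕ) : ℝ) := by exact_mod_cast hx2.le
      refine this.trans (le_of_eq ?_)
      push_cast
      rw [← Real.rpow_natCast]
      push_cast
      rfl
    calc (x : ℝ) ^ (1 / 2 - 3 * S.d) ≤ ((2 : ℝ) ^ ((k : ℝ) + 1)) ^ (1 / 2 - 3 * S.d) :=
          Real.rpow_le_rpow (Nat.cast_nonneg _) hxr (by (clear * - hd hd'; linarith))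
      _ = (2 : ℝ) ^ (((k : ℝ) + 1) * (1 / 2 - 3 * S.d)) := by rw [← Real.rpow_mul (by norm_num)]
      _ ≤ (2 : ℝ) ^ ((3 / 2 : ℝ) + ((1/2 - S.d) * (k : ℝ) - 1)) := by
          refine Real.rpow_le_rpow_of_exponent_le (by norm_num) ?_
          have hk : (0 : ℝ) ≤ k := Nat.cast_nonneg k
          (clear * - hd hk; nlinarith [mul_nonneg hd.le hk])
      _ = (2 : ℝ) ^ (3 / 2 : ℝ) * (2 : ℝ) ^ ((1/2 - S.d) * (k : ℝ) - 1) := Real.rpow_add (by norm_num) _ _
      _ ≤ 3 * (y : ℝ) := by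
          have h5 := Pool.Agent.M20.Helper88.KS.ec_real_ge S.d k
          have h6 : (2 : ℝ) ^ (3 / 2 : ℝ) ≤ 3 := by
            have h7 : ((2 : ℝ) ^ (3 / 2 : ℝ)) ^ 2 ≤ 3 ^ 2 := by
              rw [← Real.rpow_natCast, ← Real.rpow_mul (by norm_num)]
              norm_num
            exact le_of_sq_le_sq h7 (by norm_num)
          rw [hy]
          push_cast
          exact mul_le_mul h6 h5 (by positivity) (by norm_num)
  have hy0 : (0 : ℝ) ≤ y := Nat.cast_nonneg _
  calc C * 2 ^ (A.card + Nat.log (2 ^ (k0 / 5)) (2 * x)) * ((y : ℝ) + (x : ℝ) ^ (1 / 2 - 3 * S.d))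
      ≤ C * (2 : ℝ) ^ (35 * ((k + 1 : ℝ) / k0)) * (4 * (y : ℝ)) :=
        mul_le_mul (mul_le_mul_of_nonneg_left h3 hC.le) (by (clear * - h4; linarith)) (by (clear * -; positivity)) (by positivity)
    _ = _ := by rw [hy]; push_cast; ring

/-- final estimate -/
theorem closing (S : Sys) (C a : ℝ) (ha : 0 ≤ a) : ∃ K0 : ℕ, 1 ≤ K0 ∧ ∀ k0 : ℕ, K0 ≤ k0 → ∀ k : ℕ, k0 ≤ k →
    C * ((k : ℝ) + 1) * (2 : ℝ) ^ (a * ((k + 1 : ℝ) / k0)) * (2 : ℝ) ^ (-(S.c * S.d / 20) * k) ≤
      (2 : ℝ) ^ (-(S.ep / 40) * k) := by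
  have hc := S.c_pos
  have hd := S.d_pos
  have hcd : 0 < S.c * S.d := mul_pos hc hd
  obtain ⟨K1, hK1⟩ := eventually_atTop.mp (poly_exp C (S.c * S.d / 100) (by (clear * - hc hd; positivity)) 1)
  refine ⟨max (max 1 K1) ⌈200 * a / (S.c * S.d)⌉₊, (le_max_left 1 K1).trans (le_max_left _ _), ?_⟩
  intro k0 hk0 k hkk
  have hk1 : 1 ≤ k0 := ((le_max_left 1 K1).trans (le_max_left _ _)).trans hk0
  have hkK : K1 ≤ k := (((le_max_right 1 K1).trans (le_max_left _ _)).trans hk0).trans hkk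
  have hk0r : (1 : ℝ) ≤ k0 := by exact_mod_cast hk1
  have hkr : (k0 : ℝ) ≤ k := by exact_mod_cast hkk
  have h1 := hK1 k hkK
  rw [pow_one] at h1
  have h2 : 200 * a ≤ S.c * S.d * k0 := by
    have h3 : (⌈200 * a / (S.c * S.d)⌉₊ : ℝ) ≤ k0 := by exact_mod_cast (le_max_right _ _).trans hk0
    have h4 := (Nat.le_ceil _).trans h3
    rw [div_le_iff₀ hcd] at h4
    (clear * - h4; linarith)
  have h3 : a * ((k + 1 : ℝ) / k0) ≤ S.c * S.d / 100 * k := by
    rw [mul_div_assoc', div_le_iff₀ (by (clear * - hk0r; linarith))]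
    have h4 : a * ((k : ℝ) + 1) ≤ a * (2 * k) := mul_le_mul_of_nonneg_left (by (clear * - hk0r hkr; linarith)) ha
    have h5 : 200 * a * k ≤ S.c * S.d * k0 * k := mul_le_mul_of_nonneg_right h2 (by (clear * - hk0r hkr; linarith))
    (clear * - h4 h5; linarith)
  have hep : S.ep / 40 ≤ S.c * S.d * 0.0015 := by
    have h4 := S.eta_le'
    rw [S.ep_eq]
    have h5 : S.c * S.eta * S.d = S.c * S.d * S.eta := by ring
    rw [h5]
    have h6 : S.c * S.d * S.eta ≤ S.c * S.d * (3/50) := mul_le_mul_of_nonneg_left h4 hcd.le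
    (clear * - h6; linarith)
  have hk0' : (0 : ℝ) ≤ k := Nat.cast_nonneg k
  calc C * ((k : ℝ) + 1) * (2 : ℝ) ^ (a * ((k + 1 : ℝ) / k0)) * (2 : ℝ) ^ (-(S.c * S.d / 20) * k)
      ≤ (2 : ℝ) ^ (S.c * S.d / 100 * (k : ℝ)) * (2 : ℝ) ^ (S.c * S.d / 100 * (k : ℝ)) *
        (2 : ℝ) ^ (-(S.c * S.d / 20) * k) := by
        refine mul_le_mul_of_nonneg_right ?_ (by positivity)
        calc C * ((k : ℝ) + 1) * (2 : ℝ) ^ (a * ((k + 1 : ℝ) / k0)) ≤
              (2 : ℝ) ^ (S.c * S.d / 100 * (k : ℝ)) * (2 : ℝ) ^ (a * ((k + 1 : ℝ) / k0)) :=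
              mul_le_mul_of_nonneg_right h1 (by positivity)
          _ ≤ _ := by
              refine mul_le_mul_of_nonneg_left ?_ (by positivity)
              exact Real.rpow_le_rpow_of_exponent_le (by norm_num) h3
    _ = (2 : ℝ) ^ (S.c * S.d / 100 * (k : ℝ) + S.c * S.d / 100 * (k : ℝ) + -(S.c * S.d / 20) * k) := by
        rw [Real.rpow_add (by norm_num), Real.rpow_add (by norm_num)]
    _ ≤ _ := by
        refine Real.rpow_le_rpow_of_exponent_le (by norm_num) ?_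
        have : S.ep / 40 * k ≤ S.c * S.d * 0.0015 * k := mul_le_mul_of_nonneg_right hep hk0'
        have h7 : 0 ≤ S.c * S.d * k := by (clear * - hc hd; positivity)
        (clear * - this h7; linarith)

/-- membership in the heavy blocks -/
theorem hvy_facts (S : Sys) {k0 k k' : ℕ} (h : k' ∈ S.hvy k0 k) : k0 ≤ k' ∧ S.d / 10 * k ≤ k' := by
  unfold Sys.hvy at h
  rw [mem_Ico] at h
  refine ⟨(le_max_left _ _).trans h.1, ?_⟩
  have h1 : ⌈S.kap * k⌉₊ ≤ k' := (le_max_right _ _).trans h.1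
  have h2 : (⌈S.kap * k⌉₊ : ℝ) ≤ k' := by exact_mod_cast h1
  exact (Nat.le_ceil _).trans h2

theorem card_hvy (S : Sys) (k0 k : ℕ) : ((S.hvy k0 k).card : ℝ) ≤ 3 * ((k : ℝ) + 1) := by
  unfold Sys.hvy
  rw [Nat.card_Ico]
  have : 3 * (k + 1) - max k0 ⌈S.kap * k⌉₊ ≤ 3 * (k + 1) := Nat.sub_le _ _
  exact_mod_cast this

/-- the decay in the heavy blocks -/
theorem hvy_decay (S : Sys) {k0 k k' : ℕ} (h : k' ∈ S.hvy k0 k) :
    (2 : ℝ) ^ (-(S.c / 2) * (k' : ℝ)) ≤ (2 : ℝ) ^ (-(S.c * S.d / 20) * k) := by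
  refine Real.rpow_le_rpow_of_exponent_le (by norm_num) ?_
  have h1 := (hvy_facts S h).2
  have hc := S.c_pos
  have h2 : S.c / 2 * (S.d / 10 * k) ≤ S.c / 2 * k' := mul_le_mul_of_nonneg_left h1 (by positivity)
  have h3 : S.c / 2 * (S.d / 10 * k) = S.c * S.d / 20 * k := by ring
  (clear * - h2; linarith)

theorem kF : KF := by
  intro S
  obtain ⟨C, hC, hmass⟩ := mass_cell S
  obtain ⟨K1, hK1, hclose⟩ := closing S (36 * C) 60 (by norm_num)
  refine ⟨max (max S.K 10) K1, ?_⟩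
  intro k0 hk0 k hkk j hj A
  have hk0K : S.K ≤ k0 := ((le_max_left S.K 10).trans (le_max_left _ _)).trans hk0
  have hk010 : 10 ≤ k0 := ((le_max_right S.K 10).trans (le_max_left _ _)).trans hk0
  have hk0K1 : K1 ≤ k0 := (le_max_right _ _).trans hk0
  by_cases hA : Aok k0 k A
  swap
  · rw [LS_eq_zero S hk0K hkk hj _ hA]; positivity
  have hc := S.c_pos
  have hd := S.d_pos
  have hs := S.s_pos
  have hsc : S.s ≤ S.c / 2 := by
    have h1 := S.d_le
    rw [S.s_eq]
    have : S.c / 10 ^ 5 ≤ S.c := div_le_self hc.le (by norm_num)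
    (clear * - hd h1; linarith)
  have hs1 : S.s ≤ 1 := by have := S.s_lt; norm_num at this; (clear * - hs this; linarith)
  set ω : ℝ := (k + 1 : ℝ) / k0 with hω
  have hω0 : 0 ≤ ω := by rw [hω]; (clear * - hk010; positivity)
  have hmain : ∀ n ∈ (cell S.d k j).filter (Sys.rough k0), ∑ k' ∈ S.hvy k0 k, ∑ j' ∈ S.badc k',
      ∑ x ∈ (S.Cand k' j').filter (fun x => x.1 ∣ n ∧ QK A (k', j') n x ∧
      A ⊆ x.2.primeFactors ∪ (n / x.1).primeFactors), tw S A x.2 (n / x.1) ≤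
      (36 * ((k : ℝ) + 1) * (2 : ℝ) ^ (25 * ω) * (2 : ℝ) ^ (-(S.c * S.d / 20) * k)) * (sig A n : ℝ) ^ S.hh := by
    intro n hn
    rw [mem_filter] at hn
    have hnk := cell_lt hd hj hn.1
    have hn1 := cell_ge hn.1
    have hn0 : n ≠ 0 := by have := Nat.one_le_two_pow (n := k); omega
    set W : ℝ := (sig A n : ℝ) ^ S.hh with hW
    have hW0 : 0 ≤ W := by rw [hW]; (clear * -; positivity)
    have hdiv := divisors_le (by omega) hn0 hn.2 hnk
    have hAc : (2 : ℝ) ^ A.card ≤ (2 : ℝ) ^ (15 * ω) := by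
      rw [← Real.rpow_natCast]
      exact Real.rpow_le_rpow_of_exponent_le (by norm_num) hA.2
    have hblock : ∀ k' ∈ S.hvy k0 k, ∑ j' ∈ S.badc k',
        ∑ x ∈ (S.Cand k' j').filter (fun x => x.1 ∣ n ∧ QK A (k', j') n x ∧
        A ⊆ x.2.primeFactors ∪ (n / x.1).primeFactors), tw S A x.2 (n / x.1) ≤
        12 * (2 : ℝ) ^ (25 * ω) * (2 : ℝ) ^ (-(S.c * S.d / 20) * k) * W := by
      intro k' hk'
      have hf := hvy_facts S hk'
      have hKk' : S.K ≤ k' := hk0K.trans hf.1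
      calc ∑ j' ∈ S.badc k',
            ∑ x ∈ (S.Cand k' j').filter (fun x => x.1 ∣ n ∧ QK A (k', j') n x ∧
            A ⊆ x.2.primeFactors ∪ (n / x.1).primeFactors), tw S A x.2 (n / x.1)
          ≤ ∑ j' ∈ S.badc k', ((n.divisors.card : ℝ) ^ 2 * 2 ^ A.card * (2 * (2 : ℝ) ^ (S.s * ((k' : ℝ) + 1))) * W) *
            (2 : ℝ) ^ (-(S.u (S.cls k' j') + S.c) * k') :=
            Finset.sum_le_sum fun j' hj' => kf_cell S hKk' hj' hn0 A
        _ = ((n.divisors.card : ℝ) ^ 2 * 2 ^ A.card * (2 * (2 : ℝ) ^ (S.s * ((k' : ℝ) + 1))) * W) *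
            ∑ j' ∈ S.badc k', (2 : ℝ) ^ (-(S.u (S.cls k' j') + S.c) * k') := by rw [Finset.mul_sum]
        _ ≤ ((n.divisors.card : ℝ) ^ 2 * 2 ^ A.card * (2 * (2 : ℝ) ^ (S.s * ((k' : ℝ) + 1))) * W) *
            (3 * (2 : ℝ) ^ (-S.c * (k' : ℝ))) := by
            refine mul_le_mul_of_nonneg_left ?_ (by (clear * -; positivity))
            exact Pool.Agent.M20.Helper88.KS.sum_badc_le S hKk' _ S.c fun j' _ => le_rfl
        _ ≤ (((2 : ℝ) ^ (5 * ω)) ^ 2 * (2 : ℝ) ^ (15 * ω) * (2 * (2 : ℝ) ^ (S.s * ((k' : ℝ) + 1))) * W) *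
            (3 * (2 : ℝ) ^ (-S.c * (k' : ℝ))) := by
            refine mul_le_mul_of_nonneg_right ?_ (by positivity)
            refine mul_le_mul_of_nonneg_right ?_ hW0
            refine mul_le_mul_of_nonneg_right ?_ (by positivity)
            exact mul_le_mul (pow_le_pow_left₀ (by (clear * -; positivity)) hdiv 2) hAc (by positivity) (by positivity)
        _ = 6 * (2 : ℝ) ^ (25 * ω) * W * ((2 : ℝ) ^ (S.s * ((k' : ℝ) + 1)) * (2 : ℝ) ^ (-S.c * (k' : ℝ))) := by
            have e1 : ((2 : ℝ) ^ (5 * ω)) ^ 2 * (2 : ℝ) ^ (15 * ω) = (2 : ℝ) ^ (25 * ω) := by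
              rw [← Real.rpow_natCast, ← Real.rpow_mul (by norm_num), ← Real.rpow_add (by norm_num)]
              congr 1
              push_cast
              ring
            rw [e1]
            ring
        _ ≤ 6 * (2 : ℝ) ^ (25 * ω) * W * (2 * (2 : ℝ) ^ (-(S.c * S.d / 20) * k)) := by
            refine mul_le_mul_of_nonneg_left ?_ (by (clear * -; positivity))
            rw [← Real.rpow_add (by norm_num)]
            calc (2 : ℝ) ^ (S.s * ((k' : ℝ) + 1) + -S.c * (k' : ℝ)) ≤ (2 : ℝ) ^ (1 + -(S.c / 2) * (k' : ℝ)) := by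
                  refine Real.rpow_le_rpow_of_exponent_le (by norm_num) ?_
                  have hk'0 : (0 : ℝ) ≤ k' := Nat.cast_nonneg _
                  (clear * - hs1 hsc; nlinarith)
              _ = 2 * (2 : ℝ) ^ (-(S.c / 2) * (k' : ℝ)) := by rw [Real.rpow_add (by norm_num), Real.rpow_one]
              _ ≤ _ := mul_le_mul_of_nonneg_left (hvy_decay S hk') (by norm_num)
        _ = _ := by ring
    calc _ ≤ ∑ _k' ∈ S.hvy k0 k, 12 * (2 : ℝ) ^ (25 * ω) * (2 : ℝ) ^ (-(S.c * S.d / 20) * k) * W :=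
          Finset.sum_le_sum hblock
      _ = (S.hvy k0 k).card * (12 * (2 : ℝ) ^ (25 * ω) * (2 : ℝ) ^ (-(S.c * S.d / 20) * k) * W) := by
          rw [Finset.sum_const, nsmul_eq_mul]
      _ ≤ (3 * ((k : ℝ) + 1)) * (12 * (2 : ℝ) ^ (25 * ω) * (2 : ℝ) ^ (-(S.c * S.d / 20) * k) * W) :=
          mul_le_mul_of_nonneg_right (card_hvy S k0 k) (by (clear * -; positivity))
      _ = _ := by ring
  calc LS S k0 k j (QK A) A ≤ ∑ n ∈ (cell S.d k j).filter (Sys.rough k0),
        (36 * ((k : ℝ) + 1) * (2 : ℝ) ^ (25 * ω) * (2 : ℝ) ^ (-(S.c * S.d / 20) * k)) * (sig A n : ℝ) ^ S.hh :=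
        Finset.sum_le_sum hmain
    _ = (36 * ((k : ℝ) + 1) * (2 : ℝ) ^ (25 * ω) * (2 : ℝ) ^ (-(S.c * S.d / 20) * k)) *
        ∑ n ∈ (cell S.d k j).filter (Sys.rough k0), (sig A n : ℝ) ^ S.hh := by rw [Finset.mul_sum]
    _ ≤ (36 * ((k : ℝ) + 1) * (2 : ℝ) ^ (25 * ω) * (2 : ℝ) ^ (-(S.c * S.d / 20) * k)) *
        (C * (2 : ℝ) ^ (35 * ω) * 2 ^ ec S.d k) :=
        mul_le_mul_of_nonneg_left (hmass k0 hk010 k hkk j hj A hA) (by positivity)
    _ = (36 * C * ((k : ℝ) + 1) * (2 : ℝ) ^ (60 * ω) * (2 : ℝ) ^ (-(S.c * S.d / 20) * k)) * 2 ^ ec S.d k := by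
        have e1 : (2 : ℝ) ^ (60 * ω) = (2 : ℝ) ^ (25 * ω) * (2 : ℝ) ^ (35 * ω) := by
          rw [← Real.rpow_add (by norm_num)]
          congr 1
          ring
        rw [e1]
        ring
    _ ≤ (2 : ℝ) ^ (-(S.ep / 40) * k) * 2 ^ ec S.d k :=
        mul_le_mul_of_nonneg_right (hclose k0 hk0K1 k hkk) (by positivity)

end Pool.Agent.M20.Helper35.KL
end

/- Helper53.KN.Helper35.KL.JF -/
section
/-! Load theorem of project KS: terms where `A` contains a prime of `m` and the other primes of `m` divide `l`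
(candidates first). -/

set_option autoImplicit false
set_option linter.all false
open scoped Classical
open Finset Filter

namespace Pool.Agent.M20.Helper35.KL

open Pool.Agent.M20.Helper16.KS Pool.Agent.M20.Helper18.KL

/-- the beginning of a cell is comparable with the square of its length -/
theorem start_pow (S : Sys) (k j : ℕ) (hj : j < nc S.d k) :
    ((2 ^ k + j * 2 ^ ec S.d k : ℕ) : ℝ) ^ (1 / 2 - 3 * S.d) ≤ 3 * (2 : ℝ) ^ ec S.d k := by
  have hd := S.d_pos
  have hd' : S.d ≤ 1/100 := by have := S.d_le'; norm_num at this ⊢; (clear * - hd this; linarith)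
  set x := 2 ^ k + j * 2 ^ ec S.d k with hx
  have hx2 : x < 2 ^ (k + 1) := by
    have hxm : x ∈ cell S.d k j := by
      rw [Pool.Agent.M20.Helper88.KS.cell_eq, mem_Ico]
      have : 0 < 2 ^ ec S.d k := by positivity
      omega
    exact cell_lt hd hj hxm
  have hxr : (x : ℝ) ≤ (2 : ℝ) ^ ((k : ℝ) + 1) := by
    have : (x : ℝ) ≤ ((2 ^ (k + 1) : ℕ) : ℝ) := by exact_mod_cast hx2.le
    refine this.trans (le_of_eq ?_)
    push_cast
    rw [← Real.rpow_natCast]
    push_cast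
    rfl
  calc (x : ℝ) ^ (1 / 2 - 3 * S.d) ≤ ((2 : ℝ) ^ ((k : ℝ) + 1)) ^ (1 / 2 - 3 * S.d) :=
        Real.rpow_le_rpow (Nat.cast_nonneg _) hxr (by (clear * - hd hd'; linarith))
    _ = (2 : ℝ) ^ (((k : ℝ) + 1) * (1 / 2 - 3 * S.d)) := by rw [← Real.rpow_mul (by norm_num)]
    _ ≤ (2 : ℝ) ^ ((3 / 2 : ℝ) + ((1/2 - S.d) * (k : ℝ) - 1)) := by
        refine Real.rpow_le_rpow_of_exponent_le (by norm_num) ?_
        have hk : (0 : ℝ) ≤ k := Nat.cast_nonneg k
        (clear * - hd hk; nlinarith [mul_nonneg hd.le hk])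
    _ = (2 : ℝ) ^ (3 / 2 : ℝ) * (2 : ℝ) ^ ((1/2 - S.d) * (k : ℝ) - 1) := Real.rpow_add (by norm_num) _ _
    _ ≤ 3 * (2 : ℝ) ^ ec S.d k := by
        have h5 := Pool.Agent.M20.Helper88.KS.ec_real_ge S.d k
        have h6 : (2 : ℝ) ^ (3 / 2 : ℝ) ≤ 3 := by
          have h7 : ((2 : ℝ) ^ (3 / 2 : ℝ)) ^ 2 ≤ 3 ^ 2 := by
            rw [← Real.rpow_natCast, ← Real.rpow_mul (by norm_num)]
            norm_num
          exact le_of_sq_le_sq h7 (by norm_num)
        exact mul_le_mul h6 h5 (by positivity) (by norm_num)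

/-- the sum over the numbers `n`, for a given candidate -/
theorem jf_inner (S : Sys) : ∃ C : ℝ, 0 < C ∧ ∀ k0 : ℕ, 10 ≤ k0 → S.K ≤ k0 → ∀ k, k0 ≤ k → ∀ j < nc S.d k,
    ∀ A : Finset ℕ, Aok k0 k A → ∀ k', k0 ≤ k' → ∀ j' ∈ S.badc k', ∀ x ∈ S.Cand k' j',
    ∑ n ∈ ((cell S.d k j).filter (Sys.rough k0)).filter (fun n => x.1 ∣ n ∧ QJ A (k', j') n x ∧
      A ⊆ x.2.primeFactors ∪ (n / x.1).primeFactors), tw S A x.2 (n / x.1) ≤
      C * (2 : ℝ) ^ (45 * ((k + 1 : ℝ) / k0)) * 2 ^ ec S.d k *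
        ((mA A x.2 : ℝ) / (2 : ℝ) ^ (k' : ℝ)) ^ (1 / 2 - 3 * S.d) := by
  obtain ⟨C, hC, h⟩ := powA S (3 * S.d) (by have := S.d_pos; (clear * - this; linarith)) (three_d_le S)
  refine ⟨13 * C, by positivity, ?_⟩
  intro k0 hk0 hk0K k hkk j hj A hA k' hk' j' hj' x hx
  have hd := S.d_pos
  have hd' : S.d ≤ 1/100 := by have := S.d_le'; norm_num at this ⊢; (clear * - hd this; linarith)
  have hhh1 := S.hh_ge
  have hhh2 := S.hh_le
  have hdel := S.del_pos
  obtain ⟨g1, g2, g3, g4, g5, g6, g7, -, -⟩ := S.cand_facts (hk0K.trans hk') hj' hx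
  set q := x.1 with hqdef
  set m := x.2 with hmdef
  set μ := mA A m with hμ
  have hμ0 : 0 < μ := mA_pos A m
  have hm0 : 0 < m := by omega
  -- the complementary part
  set g := ∏ p ∈ m.primeFactors \ (m.primeFactors ∩ A), p with hg
  have hμg : μ * g = m := sub_prod g2 Finset.inter_subset_left
  have hg0 : 0 < g := by
    rcases Nat.eq_zero_or_pos g with h0 | h0
    · rw [h0, Nat.mul_zero] at hμg; omega
    · exact h0
  set X0 := 2 ^ k + j * 2 ^ ec S.d k with hX0
  set Y := 2 ^ ec S.d k with hY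
  have hYX : Y ≤ X0 := by
    have : Y ≤ 2 ^ k := Nat.pow_le_pow_right (by norm_num) (Pool.Agent.M20.Helper88.KS.ec_le S.d hd.le k)
    omega
  have hX01 : 1 ≤ X0 := by have := Nat.one_le_two_pow (n := k); omega
  have hcell : cell S.d k j = Ico X0 (X0 + Y) := Pool.Agent.M20.Helper88.KS.cell_eq S.d k j
  set N := ((cell S.d k j).filter (Sys.rough k0)).filter (fun n => q ∣ n ∧ QJ A (k', j') n x ∧
      A ⊆ m.primeFactors ∪ (n / q).primeFactors) with hN
  set θ : ℝ := 1 / 2 - 3 * S.d with hθ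
  have hθ0 : 0 < θ := by rw [hθ]; (clear * - hd hd'; linarith)
  have hθ1 : θ ≤ 1 / 2 := by rw [hθ]; (clear * - hd; linarith)
  set ω : ℝ := (k + 1 : ℝ) / k0 with hω
  have hω1 : 1 ≤ ω := by
    have h6 : (10 : ℝ) ≤ k0 := by exact_mod_cast hk0
    have h7 : (k0 : ℝ) ≤ k := by exact_mod_cast hkk
    rw [hω, le_div_iff₀ (by (clear * - hd hd' h6; linarith))]
    (clear * - hd hd' h7; linarith)
  set ρ : ℝ := (μ : ℝ) / (2 : ℝ) ^ (k' : ℝ) with hρ
  have hρ0 : 0 < ρ := by
    have : (0 : ℝ) < μ := by exact_mod_cast hμ0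
    rw [hρ]; (clear * - hμ0; positivity)
  rcases N.eq_empty_or_nonempty with hNe | ⟨n0, hn0⟩
  · rw [hNe, Finset.sum_empty]; (clear * - hC hμ0; positivity)
  -- size of q
  have hq2X : q ≤ 2 * X0 := by
    rw [hN, mem_filter, mem_filter, hcell, mem_Ico] at hn0
    have hn1 : 0 < n0 := by omega
    have := Nat.le_of_dvd hn1 hn0.2.1
    omega
  obtain ⟨f1, f2, f3, f4, f5⟩ := ceil_div_facts X0 Y q g1.one_lt.le hX01 hYX
  set x' := (X0 + q - 1) / q with hx'
  set y' := (X0 + Y + q - 1) / q - x' with hy'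
  have hmemN : ∀ n ∈ N, n ≠ 0 ∧ q ∣ n ∧ n / q ∈ (Ico x' (x' + y')).filter (fun l => g ∣ l) := by
    intro n hn
    rw [hN, mem_filter, mem_filter, hcell, mem_Ico] at hn
    obtain ⟨⟨hn1, hn2⟩, hn3, hn4, hn5⟩ := hn
    have hne : n ≠ 0 := by omega
    refine ⟨hne, hn3, ?_⟩
    rw [mem_filter]
    constructor
    · refine (f5 (n / q)).mp ?_
      rw [Nat.mul_div_cancel' hn3]
      exact hn1
    · rw [hg]
      refine Finset.prod_primes_dvd _ (fun p hp => ?_) fun p hp => ?_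
      · exact (Nat.prime_of_mem_primeFactors (Finset.mem_sdiff.mp hp).1).prime
      · rw [Finset.mem_sdiff, Finset.mem_inter, not_and] at hp
        have hp1 := Nat.mem_primeFactors.mp hp.1
        exact hn4.2 p hp1.1 hp1.2.1 (hp.2 hp.1)
  set O := A ∪ m.primeFactors with hO
  have hsum : ∑ n ∈ N, tw S A m (n / q) ≤
      ∑ l ∈ (Ico x' (x' + y')).filter (fun l => g ∣ l), (sig O l : ℝ) ^ S.hh * (g : ℝ) ^ (-S.hh) := by
    have e1 : ∀ n ∈ N, tw S A m (n / q) = (sig O (n / q) : ℝ) ^ S.hh * (g : ℝ) ^ (-S.hh) := by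
      intro n hn
      unfold tw
      have hgr : (0 : ℝ) < g := by exact_mod_cast hg0
      have hμr : (0 : ℝ) < μ := by exact_mod_cast hμ0
      have e2 : (mA A m : ℝ) / m = (g : ℝ)⁻¹ := by
        have : (m : ℝ) = μ * g := by exact_mod_cast hμg.symm
        rw [← hμ, this]
        (clear * - hμ0 hg0; field_simp)
      rw [e2, Real.mul_rpow (by (clear * - hg0; positivity)) (by (clear * -; positivity)), Real.inv_rpow hgr.le, Real.rpow_neg hgr.le]
      ring
    rw [Finset.sum_congr rfl e1]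
    rw [← Finset.sum_image (f := fun l => (sig O l : ℝ) ^ S.hh * (g : ℝ) ^ (-S.hh)) (g := fun n => n / q)]
    · refine Finset.sum_le_sum_of_subset_of_nonneg ?_ fun _ _ _ => by (clear * - hg0; positivity)
      intro l hl
      rw [Finset.mem_image] at hl
      obtain ⟨n, hn, rfl⟩ := hl
      exact (hmemN n hn).2.2
    · intro n hn n' hn' hnn
      have h1 := hmemN n hn
      have h2 := hmemN n' hn'
      have h3 : n / q = n' / q := hnn
      rw [← Nat.mul_div_cancel' h1.2.1, ← Nat.mul_div_cancel' h2.2.1, h3]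
  -- the power lemma
  have hP0 : 2 ≤ 2 ^ (k0 / 5) := by
    calc 2 = 2 ^ 1 := by norm_num
      _ ≤ 2 ^ (k0 / 5) := Nat.pow_le_pow_right (by norm_num) (by omega)
  have hOP : ∀ p ∈ O, p.Prime ∧ 2 ^ (k0 / 5) ≤ p := by
    intro p hp
    rcases Finset.mem_union.mp hp with hp | hp
    · exact hA.1 p hp
    · have hp1 := Nat.mem_primeFactors.mp hp
      refine ⟨hp1.1, nat_pow_le ?_⟩
      refine le_trans ?_ (cand_rough S (hk0K.trans hk') hj' hx p hp1.1 (hp1.2.1.mul_left _))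
      refine Real.rpow_le_rpow_of_exponent_le (by norm_num) ?_
      have : (k0 : ℝ) ≤ k' := by exact_mod_cast hk'
      (clear * - this; linarith)
  have hgO : g.primeFactors ⊆ O := by
    intro p hp
    rw [hO, Finset.mem_union]
    right
    have hgm : g ∣ m := Dvd.intro_left _ hμg
    exact Nat.primeFactors_mono hgm hm0.ne' hp
  have hpow := h x' y' (2 ^ (k0 / 5)) O g f1 f2 hP0 hOP hg0 hgO
  have hx'X : x' ≤ X0 := by
    rw [hx']
    have hq2 := g1.two_le
    have : X0 + q - 1 ≤ X0 * q := by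
      obtain ⟨a, ha⟩ : ∃ a, X0 = a + 1 := ⟨X0 - 1, by (clear * - k0 A k' x hX0 hX01; omega)⟩
      obtain ⟨b, hb⟩ : ∃ b, q = b + 1 := ⟨q - 1, by omega⟩
      rw [ha, hb]
      have : (a + 1) * (b + 1) = a * b + a + b + 1 := by ring
      rw [this]
      have : 0 ≤ a * b := Nat.zero_le _
      omega
    exact Nat.div_le_of_le_mul (by rw [Nat.mul_comm]; exact this)
  have hX0lt : X0 < 2 ^ (k + 1) := by
    have hxm : X0 ∈ cell S.d k j := by
      rw [hcell, mem_Ico]
      have : 0 < Y := by rw [hY]; positivity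
      omega
    exact cell_lt hd hj hxm
  have hfac : (2 : ℝ) ^ (O.card + Nat.log (2 ^ (k0 / 5)) (2 * x')) ≤ (2 : ℝ) ^ (45 * ω) := by
    rw [← Real.rpow_natCast]
    refine Real.rpow_le_rpow_of_exponent_le (by norm_num) ?_
    push_cast
    have h4 := hA.2
    have h5 := log_le (x := 2 * x') hk0 hkk (by rw [pow_succ]; omega)
    have h6 := omega_cand S (hk0K.trans hk') hj' hx
    have h7 : (O.card : ℝ) ≤ A.card + m.primeFactors.card := by exact_mod_cast Finset.card_union_le _ _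
    (clear * - hω1 h4 h5 h6 h7; linarith)
  -- real inequalities
  have hgr : (0 : ℝ) < g := by exact_mod_cast hg0
  have hgr1 : (1 : ℝ) ≤ g := by exact_mod_cast hg0
  have hμr : (0 : ℝ) < μ := by exact_mod_cast hμ0
  have hqr : (0 : ℝ) < q := by exact_mod_cast g1.pos
  have hX0r : (1 : ℝ) ≤ X0 := by exact_mod_cast hX01
  have hYr : (0 : ℝ) < Y := by rw [hY]; positivity
  have hx'r : (1 : ℝ) ≤ x' := by exact_mod_cast f1
  have hqg : 1 / ((q : ℝ) * g) ≤ ρ := by
    rw [hρ, div_le_div_iff₀ (by (clear * - hqr hg0; positivity)) (by positivity), one_mul]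
    have h8 : (2 : ℝ) ^ (k' : ℝ) ≤ q * m := by
      rw [Real.rpow_natCast]
      exact_mod_cast g6
    have h9 : (m : ℝ) = μ * g := by exact_mod_cast hμg.symm
    rw [h9] at h8
    (clear * - h8; linarith)
  have hρ1 : ρ ≤ 1 := by
    rw [hρ, div_le_one (by positivity), Real.rpow_natCast]
    have h8 : μ ≤ m := Nat.le_of_dvd hm0 (Dvd.intro _ hμg)
    have h9 : m ≤ 2 ^ k' := by
      have h10 : 2 * m ≤ q * m := Nat.mul_le_mul_right _ g1.two_le
      have h11 : 2 ^ (k' + 1) = 2 * 2 ^ k' := by ring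
      omega
    exact_mod_cast h8.trans h9
  have hx'g : ((x' : ℝ) / g) ^ θ ≤ 6 * Y * ρ ^ θ := by
    have h8 : (x' : ℝ) ≤ 3 * X0 / q := by
      refine f4.trans ?_
      rw [div_add_one hqr.ne', div_le_div_iff_of_pos_right hqr]
      have : (q : ℝ) ≤ 2 * X0 := by exact_mod_cast hq2X
      (clear * - this; linarith)
    have h9 : (x' : ℝ) / g ≤ 3 * X0 * ρ := by
      calc (x' : ℝ) / g ≤ (3 * X0 / q) / g := div_le_div_of_nonneg_right h8 hgr.le
        _ = 3 * X0 * (1 / (q * g)) := by (clear * - hg0 hqr hX01; field_simp)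
        _ ≤ _ := mul_le_mul_of_nonneg_left hqg (by (clear * -; positivity))
    calc ((x' : ℝ) / g) ^ θ ≤ (3 * X0 * ρ) ^ θ := Real.rpow_le_rpow (by (clear * - f1 hg0; positivity)) h9 hθ0.le
      _ = (3 : ℝ) ^ θ * (X0 : ℝ) ^ θ * ρ ^ θ := by
          rw [Real.mul_rpow (by (clear * -; positivity)) hρ0.le, Real.mul_rpow (by norm_num) (by (clear * -; positivity))]
      _ ≤ 2 * (3 * Y) * ρ ^ θ := by
          refine mul_le_mul_of_nonneg_right ?_ (by positivity)
          refine mul_le_mul ?_ ?_ (by (clear * -; positivity)) (by norm_num)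
          · calc (3 : ℝ) ^ θ ≤ (3 : ℝ) ^ (1 / 2 : ℝ) := Real.rpow_le_rpow_of_exponent_le (by norm_num) hθ1
              _ ≤ 2 := by
                have h7 : ((3 : ℝ) ^ (1 / 2 : ℝ)) ^ 2 ≤ 2 ^ 2 := by
                  rw [← Real.rpow_natCast, ← Real.rpow_mul (by norm_num)]
                  norm_num
                exact le_of_sq_le_sq h7 (by norm_num)
          · have := start_pow S k j hj
            rw [← hX0, ← hθ] at this
            rw [hY]
            push_cast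
            exact this
      _ = _ := by ring
  have hg1 : (1 : ℝ) / g ≤ ((x' : ℝ) / g) ^ θ := by
    calc (1 : ℝ) / g = ((1 : ℝ) / g) ^ (1 : ℝ) := (Real.rpow_one _).symm
      _ ≤ ((1 : ℝ) / g) ^ θ := by
          refine Real.rpow_le_rpow_of_exponent_ge (by (clear * - hg0; positivity)) ?_ (by (clear * - hd hd' hθ; linarith))
          rw [div_le_one hgr]; exact hgr1
      _ ≤ ((x' : ℝ) / g) ^ θ := by
          refine Real.rpow_le_rpow (by (clear * - hg0; positivity)) ?_ hθ0.le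
          exact div_le_div_of_nonneg_right hx'r hgr.le
  have hyg : (y' : ℝ) / g ≤ 7 * Y * ρ ^ θ := by
    have h8 : (y' : ℝ) / g ≤ (Y / q + 1) / g := div_le_div_of_nonneg_right f3 hgr.le
    have h9 : ((Y : ℝ) / q + 1) / g = Y * (1 / (q * g)) + 1 / g := by (clear * - hqr hg0 hYr; field_simp)
    have h10 : (Y : ℝ) * (1 / (q * g)) ≤ Y * ρ ^ θ := by
      refine mul_le_mul_of_nonneg_left (hqg.trans ?_) hYr.le
      calc ρ = ρ ^ (1 : ℝ) := (Real.rpow_one _).symm
        _ ≤ ρ ^ θ := Real.rpow_le_rpow_of_exponent_ge hρ0 hρ1 (by (clear * - hd hd' hθ; linarith))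
    (clear * - hx'g hg1 h8 h9 h10; linarith)
  have htot : (y' * (g : ℝ) ^ (S.hh - 1) + (x' : ℝ) ^ (1 / 2 - 3 * S.d) * (g : ℝ) ^ (S.hh - 1 / 2 + 3 * S.d)) *
      (g : ℝ) ^ (-S.hh) ≤ 13 * (Y : ℝ) * ρ ^ θ := by
    have e1 : (y' * (g : ℝ) ^ (S.hh - 1) + (x' : ℝ) ^ (1 / 2 - 3 * S.d) * (g : ℝ) ^ (S.hh - 1 / 2 + 3 * S.d)) *
      (g : ℝ) ^ (-S.hh) = y' / g + ((x' : ℝ) / g) ^ θ := by
      rw [add_mul, mul_assoc, mul_assoc, ← Real.rpow_add hgr, ← Real.rpow_add hgr,
        Real.div_rpow (by positivity) hgr.le, ← hθ]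
      have e2 : S.hh - 1 + -S.hh = -1 := by ring
      have e3 : S.hh - 1 / 2 + 3 * S.d + -S.hh = -θ := by rw [hθ]; ring
      rw [e2, e3, Real.rpow_neg hgr.le, Real.rpow_neg hgr.le, Real.rpow_one]
      ring
    rw [e1]
    (clear * - hx'g hyg; linarith)
  calc ∑ n ∈ N, tw S A m (n / q) ≤ ∑ l ∈ (Ico x' (x' + y')).filter (fun l => g ∣ l),
        (sig O l : ℝ) ^ S.hh * (g : ℝ) ^ (-S.hh) := hsum
    _ = (∑ l ∈ (Ico x' (x' + y')).filter (fun l => g ∣ l), (sig O l : ℝ) ^ S.hh) * (g : ℝ) ^ (-S.hh) := by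
        rw [Finset.sum_mul]
    _ ≤ (C * 2 ^ (O.card + Nat.log (2 ^ (k0 / 5)) (2 * x')) *
        (y' * (g : ℝ) ^ (S.hh - 1) + (x' : ℝ) ^ (1 / 2 - 3 * S.d) * (g : ℝ) ^ (S.hh - 1 / 2 + 3 * S.d))) *
        (g : ℝ) ^ (-S.hh) := mul_le_mul_of_nonneg_right hpow (by (clear * - hg0; positivity))
    _ = C * 2 ^ (O.card + Nat.log (2 ^ (k0 / 5)) (2 * x')) *
        ((y' * (g : ℝ) ^ (S.hh - 1) + (x' : ℝ) ^ (1 / 2 - 3 * S.d) * (g : ℝ) ^ (S.hh - 1 / 2 + 3 * S.d)) *
        (g : ℝ) ^ (-S.hh)) := by ring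
    _ ≤ C * (2 : ℝ) ^ (45 * ω) * (13 * (Y : ℝ) * ρ ^ θ) :=
        mul_le_mul (mul_le_mul_of_nonneg_left hfac hC.le) htot (by (clear * - hg0 f1; positivity)) (by positivity)
    _ = _ := by rw [hY]; push_cast; ring

/-- the sum over the candidates of a cell -/
theorem jf_cand (S : Sys) {k' j' : ℕ} (hk : S.K ≤ k') (hj : j' ∈ S.badc k') (A : Finset ℕ) :
    ∑ x ∈ (S.Cand k' j').filter (fun x => ∃ p : ℕ, p.Prime ∧ p ∣ x.2 ∧ p ∈ A),
      ((mA A x.2 : ℝ) / (2 : ℝ) ^ (k' : ℝ)) ^ (1 / 2 - 3 * S.d) ≤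
      2 * 2 ^ A.card * (2 : ℝ) ^ (-(S.u (S.cls k' j') + (S.c - 3 * S.d)) * k') := by
  have hd := S.d_pos
  have hd' : S.d ≤ 1/100 := by have := S.d_le'; norm_num at this ⊢; linarith
  have hdel := S.del_pos
  have hj1 := S.mem_badc.mp hj
  set u := S.u (S.cls k' j') with hu
  set θ : ℝ := 1 / 2 - 3 * S.d with hθ
  have hθ0 : 0 < θ := by rw [hθ]; (clear * - hd hd'; linarith)
  set Xr : ℝ := (2 : ℝ) ^ (k' : ℝ) with hXr
  have hXr0 : 0 < Xr := by positivity
  set H : ℝ := (2 : ℝ) ^ ec S.d k' with hH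
  have hH0 : 0 < H := by positivity
  have hk'0 : (0 : ℝ) ≤ k' := Nat.cast_nonneg _
  set E : ℝ := (2 : ℝ) ^ (-(u + (S.c - 3 * S.d)) * k') with hE
  set T := (S.Cand k' j').filter (fun x => ∃ p : ℕ, p.Prime ∧ p ∣ x.2 ∧ p ∈ A) with hT
  have hb := sum_fib T (PA A) (fun x => mA A x.2) (fun x _ => mA_mem A x.2)
    (fun x => ((mA A x.2 : ℝ) / Xr) ^ θ)
    (fun a => if 0 < a ∧ (a : ℝ) ^ (-(1 / 2) : ℝ) ≤ (2 : ℝ) ^ (-(u + S.c) * k') ∧
      (a : ℝ) ^ (1 / 2 + S.del) ≤ (2 : ℝ) ^ ((1 / 2 - u - S.c) * k') then H / a + 1 else 0)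
    (fun a => ((a : ℝ) / Xr) ^ θ) (fun _ _ => by (clear * -; positivity)) (fun _ _ => le_rfl)
    (by
      intro a ha
      split_ifs with hc
      · have h12 : (T.filter (fun x => mA A x.2 = a)).card ≤
            ((Ico (2 ^ k' + j' * 2 ^ ec S.d k') (2 ^ k' + j' * 2 ^ ec S.d k' + 2 ^ ec S.d k')).filter
              (fun t => a ∣ t)).card := by
          refine card_le_card_of_injOn (fun x => x.1 * x.2) ?_ ?_
          · intro x hx
            rw [mem_coe, mem_filter, hT, mem_filter] at hx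
            obtain ⟨⟨hx, -⟩, e1⟩ := hx
            obtain ⟨h1, h2, h3, h4, h5, -⟩ := S.cand_facts hk hj hx
            rw [mem_coe, mem_filter, ← Pool.Agent.M20.Helper88.KS.cell_eq]
            dsimp only
            refine ⟨h5, ?_⟩
            rw [← e1]
            refine Dvd.dvd.mul_left ?_ _
            exact Dvd.intro _ (sub_prod h2 Finset.inter_subset_left)
          · intro x hx y hy hxy
            rw [mem_coe, mem_filter, hT, mem_filter] at hx hy
            exact S.inj k' hk j' hj1.1 hj1.2 x hx.1.1 y hy.1.1 hxy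
        refine le_trans (by exact_mod_cast h12) ((card_mult _ _ _ hc.1).trans ?_)
        rw [hH]
        push_cast
        exact le_rfl
      · rw [show (T.filter (fun x => mA A x.2 = a)) = ∅ by
          rw [filter_eq_empty_iff]
          intro x hx e
          rw [hT, mem_filter] at hx
          obtain ⟨hx, p, hp, hpm, hpA⟩ := hx
          obtain ⟨h1, h2, h3, h4, h5, h6, h7, -, -⟩ := S.cand_facts hk hj hx
          obtain ⟨-, -, -, -, -, hpr, hmb⟩ := S.cand k' hk j' hj1.1 hj1.2 x hx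
          rw [← hu] at hpr hmb
          have hm0 : 0 < x.2 := by omega
          have ha0 : 0 < a := by rw [← e]; exact mA_pos _ _
          have har : (0 : ℝ) < a := by exact_mod_cast ha0
          have har1 : (1 : ℝ) ≤ a := by exact_mod_cast ha0
          have hpa : p ∣ a := by
            rw [← e]
            refine Finset.dvd_prod_of_mem _ ?_
            rw [Finset.mem_inter]
            exact ⟨Nat.mem_primeFactors.mpr ⟨hp, hpm, hm0.ne'⟩, hpA⟩
          have ham : a ≤ x.2 := by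
            rw [← e]
            exact Nat.le_of_dvd hm0 (Dvd.intro _ (sub_prod h2 Finset.inter_subset_left))
          have hpr' := hpr p hp (hpm.mul_left _)
          have hp1 : (1 : ℝ) ≤ p := by exact_mod_cast hp.pos
          have hple : (p : ℝ) ≤ a := by exact_mod_cast Nat.le_of_dvd ha0 hpa
          refine hc ⟨ha0, ?_, ?_⟩
          · rw [Real.rpow_neg har.le]
            have h8 : (2 : ℝ) ^ ((u + S.c) * k') ≤ (a : ℝ) ^ (1 / 2 : ℝ) := by
              calc (2 : ℝ) ^ ((u + S.c) * k') ≤ (p : ℝ) ^ (1 / 2 - S.del) := hpr'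
                _ ≤ (p : ℝ) ^ (1 / 2 : ℝ) := Real.rpow_le_rpow_of_exponent_le hp1 (by (clear * - hdel; linarith))
                _ ≤ (a : ℝ) ^ (1 / 2 : ℝ) := Real.rpow_le_rpow (by (clear * - hd hd' hp1; linarith)) hple (by norm_num)
            calc ((a : ℝ) ^ (1 / 2 : ℝ))⁻¹ ≤ ((2 : ℝ) ^ ((u + S.c) * k'))⁻¹ := inv_anti₀ (by positivity) h8
              _ = _ := by rw [← Real.rpow_neg (by norm_num)]; congr 1; ring
          · refine le_trans (Real.rpow_le_rpow har.le ?_ (by (clear * - hd hd' hdel; linarith))) hmb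
            exact_mod_cast ham]
        simp)
  have hterm : ∀ a ∈ PA A, (if 0 < a ∧ (a : ℝ) ^ (-(1 / 2) : ℝ) ≤ (2 : ℝ) ^ (-(u + S.c) * k') ∧
      (a : ℝ) ^ (1 / 2 + S.del) ≤ (2 : ℝ) ^ ((1 / 2 - u - S.c) * k') then H / a + 1 else 0) *
      ((a : ℝ) / Xr) ^ θ ≤ 2 * E := by
    intro a ha
    split_ifs with hc
    · obtain ⟨hc1, hc2, hc3⟩ := hc
      have har : (0 : ℝ) < a := by exact_mod_cast hc1
      have har1 : (1 : ℝ) ≤ a := by exact_mod_cast hc1
      have h6 : H / a * ((a : ℝ) / Xr) ^ θ ≤ E := by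
        have h7 : H / a * ((a : ℝ) / Xr) ^ θ = H * Xr ^ (-θ) * (a : ℝ) ^ (θ - 1) := by
          rw [Real.div_rpow har.le hXr0.le, Real.rpow_sub har θ 1, Real.rpow_one, Real.rpow_neg hXr0.le]
          (clear * - hXr0 hc1 hH0; field_simp)
        rw [h7]
        have h8 : (a : ℝ) ^ (θ - 1) ≤ (2 : ℝ) ^ (-(u + S.c) * k') := by
          refine le_trans ?_ hc2
          refine Real.rpow_le_rpow_of_exponent_le har1 ?_
          rw [hθ]; (clear * - hd; linarith)
        have h9 : H ≤ (2 : ℝ) ^ ((1/2 - S.d) * (k' : ℝ)) :=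
          Pool.Agent.M20.Helper88.KS.ec_real_le S.d (by (clear * - hd hd'; linarith)) k'
        calc H * Xr ^ (-θ) * (a : ℝ) ^ (θ - 1) ≤
              (2 : ℝ) ^ ((1/2 - S.d) * (k' : ℝ)) * Xr ^ (-θ) * (2 : ℝ) ^ (-(u + S.c) * k') :=
              mul_le_mul (mul_le_mul_of_nonneg_right h9 (by positivity)) h8 (by (clear * - hc1; positivity)) (by positivity)
          _ = (2 : ℝ) ^ ((1/2 - S.d) * (k' : ℝ) + (k' : ℝ) * (-θ) + -(u + S.c) * k') := by
              rw [hXr, ← Real.rpow_mul (by norm_num), ← Real.rpow_add (by norm_num),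
                ← Real.rpow_add (by norm_num)]
          _ ≤ E := by
              rw [hE]
              refine Real.rpow_le_rpow_of_exponent_le (by norm_num) ?_
              have : (1/2 - S.d) * (k' : ℝ) + (k' : ℝ) * (-θ) + -(u + S.c) * k' =
                  -(u + (S.c - 3 * S.d)) * k' - S.d * k' := by rw [hθ]; ring
              rw [this]
              have : 0 ≤ S.d * (k' : ℝ) := by (clear * - hd; positivity)
              (clear * - this; linarith)
      have h10 : ((a : ℝ) / Xr) ^ θ ≤ E := by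
        rw [Real.div_rpow har.le hXr0.le]
        calc (a : ℝ) ^ θ / Xr ^ θ ≤ (2 : ℝ) ^ ((1 / 2 - u - S.c) * k') / Xr ^ θ := by
              refine div_le_div_of_nonneg_right ?_ (by positivity)
              refine le_trans ?_ hc3
              refine Real.rpow_le_rpow_of_exponent_le har1 ?_
              rw [hθ]; (clear * - hd hdel; linarith)
          _ = E := by
              rw [hXr, hE, ← Real.rpow_mul (by norm_num), ← Real.rpow_sub (by norm_num)]
              congr 1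
              rw [hθ]; ring
      rw [add_mul, one_mul]
      (clear * - h6 h10; linarith)
    · rw [zero_mul]; positivity
  calc _ ≤ ∑ _a ∈ PA A, 2 * E := hb.trans (Finset.sum_le_sum hterm)
    _ = ((PA A).card : ℝ) * (2 * E) := by rw [Finset.sum_const, nsmul_eq_mul]
    _ ≤ (2 ^ A.card) * (2 * E) := by
        refine mul_le_mul_of_nonneg_right ?_ (by positivity)
        exact_mod_cast card_PA A
    _ = _ := by ring

theorem jF : JF := by
  intro S
  obtain ⟨C, hC, hin⟩ := jf_inner S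
  obtain ⟨K1, hK1, hclose⟩ := closing S (18 * C) 60 (by norm_num)
  refine ⟨max (max S.K 10) K1, ?_⟩
  intro k0 hk0 k hkk j hj A
  have hk0K : S.K ≤ k0 := ((le_max_left S.K 10).trans (le_max_left _ _)).trans hk0
  have hk010 : 10 ≤ k0 := ((le_max_right S.K 10).trans (le_max_left _ _)).trans hk0
  have hk0K1 : K1 ≤ k0 := (le_max_right _ _).trans hk0
  by_cases hA : Aok k0 k A
  swap
  · rw [LS_eq_zero S hk0K hkk hj _ hA]; positivity
  have hc := S.c_pos
  have hd := S.d_pos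
  have hcd : 3 * S.d ≤ S.c / 2 := by
    have h1 := S.d_le
    have : S.c / 10 ^ 5 = S.c / 10 ^ 5 := rfl
    rw [le_div_iff₀ (by positivity)] at h1
    (clear * - hd h1; linarith)
  set ω : ℝ := (k + 1 : ℝ) / k0 with hω
  set Y : ℝ := (2 : ℝ) ^ ec S.d k with hY
  have hAc : (2 : ℝ) ^ A.card ≤ (2 : ℝ) ^ (15 * ω) := by
    rw [← Real.rpow_natCast]
    exact Real.rpow_le_rpow_of_exponent_le (by norm_num) hA.2
  -- exchange of the sums
  have hex : LS S k0 k j (QJ A) A = ∑ k' ∈ S.hvy k0 k, ∑ j' ∈ S.badc k', ∑ x ∈ S.Cand k' j',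
      ∑ n ∈ ((cell S.d k j).filter (Sys.rough k0)).filter (fun n => x.1 ∣ n ∧ QJ A (k', j') n x ∧
      A ⊆ x.2.primeFactors ∪ (n / x.1).primeFactors), tw S A x.2 (n / x.1) := by
    unfold LS
    rw [Finset.sum_comm]
    refine Finset.sum_congr rfl fun k' _ => ?_
    rw [Finset.sum_comm]
    refine Finset.sum_congr rfl fun j' _ => ?_
    refine Finset.sum_comm' fun n x => ?_
    rw [Finset.mem_filter (s := S.Cand k' j'), Finset.mem_filter (s := (cell S.d k j).filter (Sys.rough k0))]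
    tauto
  rw [hex]
  have hblock : ∀ k' ∈ S.hvy k0 k, ∑ j' ∈ S.badc k', ∑ x ∈ S.Cand k' j',
      ∑ n ∈ ((cell S.d k j).filter (Sys.rough k0)).filter (fun n => x.1 ∣ n ∧ QJ A (k', j') n x ∧
      A ⊆ x.2.primeFactors ∪ (n / x.1).primeFactors), tw S A x.2 (n / x.1) ≤
      6 * C * (2 : ℝ) ^ (60 * ω) * (2 : ℝ) ^ (-(S.c * S.d / 20) * k) * Y := by
    intro k' hk'
    have hf := hvy_facts S hk'
    have hKk' : S.K ≤ k' := hk0K.trans hf.1
    have hcellb : ∀ j' ∈ S.badc k', ∑ x ∈ S.Cand k' j',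
      ∑ n ∈ ((cell S.d k j).filter (Sys.rough k0)).filter (fun n => x.1 ∣ n ∧ QJ A (k', j') n x ∧
      A ⊆ x.2.primeFactors ∪ (n / x.1).primeFactors), tw S A x.2 (n / x.1) ≤
        (C * (2 : ℝ) ^ (45 * ω) * Y * (2 * 2 ^ A.card)) *
          (2 : ℝ) ^ (-(S.u (S.cls k' j') + (S.c - 3 * S.d)) * k') := by
      intro j' hj'
      calc ∑ x ∈ S.Cand k' j',
          ∑ n ∈ ((cell S.d k j).filter (Sys.rough k0)).filter (fun n => x.1 ∣ n ∧ QJ A (k', j') n x ∧
          A ⊆ x.2.primeFactors ∪ (n / x.1).primeFactors), tw S A x.2 (n / x.1)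
          = ∑ x ∈ (S.Cand k' j').filter (fun x => ∃ p : ℕ, p.Prime ∧ p ∣ x.2 ∧ p ∈ A),
            ∑ n ∈ ((cell S.d k j).filter (Sys.rough k0)).filter (fun n => x.1 ∣ n ∧ QJ A (k', j') n x ∧
            A ⊆ x.2.primeFactors ∪ (n / x.1).primeFactors), tw S A x.2 (n / x.1) := by
            rw [Finset.sum_filter]
            refine Finset.sum_congr rfl fun x _ => ?_
            split_ifs with hex
            · rfl
            · rw [show (((cell S.d k j).filter (Sys.rough k0)).filter (fun n => x.1 ∣ n ∧ QJ A (k', j') n x ∧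
                A ⊆ x.2.primeFactors ∪ (n / x.1).primeFactors)) = ∅ by
                rw [filter_eq_empty_iff]
                rintro n - ⟨-, h2, -⟩
                exact hex h2.1]
              exact Finset.sum_empty
        _ ≤ ∑ x ∈ (S.Cand k' j').filter (fun x => ∃ p : ℕ, p.Prime ∧ p ∣ x.2 ∧ p ∈ A),
            C * (2 : ℝ) ^ (45 * ω) * Y * ((mA A x.2 : ℝ) / (2 : ℝ) ^ (k' : ℝ)) ^ (1 / 2 - 3 * S.d) := by
            refine Finset.sum_le_sum fun x hx => ?_
            exact hin k0 hk010 hk0K k hkk j hj A hA k' hf.1 j' hj' x (mem_filter.mp hx).1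
        _ = C * (2 : ℝ) ^ (45 * ω) * Y * ∑ x ∈ (S.Cand k' j').filter (fun x => ∃ p : ℕ, p.Prime ∧ p ∣ x.2 ∧ p ∈ A),
            ((mA A x.2 : ℝ) / (2 : ℝ) ^ (k' : ℝ)) ^ (1 / 2 - 3 * S.d) := by rw [Finset.mul_sum]
        _ ≤ C * (2 : ℝ) ^ (45 * ω) * Y *
            (2 * 2 ^ A.card * (2 : ℝ) ^ (-(S.u (S.cls k' j') + (S.c - 3 * S.d)) * k')) :=
            mul_le_mul_of_nonneg_left (jf_cand S hKk' hj' A) (by (clear * - hC; positivity))
        _ = _ := by ring
    calc _ ≤ ∑ j' ∈ S.badc k', (C * (2 : ℝ) ^ (45 * ω) * Y * (2 * 2 ^ A.card)) *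
          (2 : ℝ) ^ (-(S.u (S.cls k' j') + (S.c - 3 * S.d)) * k') := Finset.sum_le_sum hcellb
      _ = (C * (2 : ℝ) ^ (45 * ω) * Y * (2 * 2 ^ A.card)) *
          ∑ j' ∈ S.badc k', (2 : ℝ) ^ (-(S.u (S.cls k' j') + (S.c - 3 * S.d)) * k') := by rw [Finset.mul_sum]
      _ ≤ (C * (2 : ℝ) ^ (45 * ω) * Y * (2 * 2 ^ A.card)) * (3 * (2 : ℝ) ^ (-(S.c - 3 * S.d) * (k' : ℝ))) := by
          refine mul_le_mul_of_nonneg_left ?_ (by positivity)
          exact Pool.Agent.M20.Helper88.KS.sum_badc_le S hKk' _ (S.c - 3 * S.d) fun j' _ => le_rfl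
      _ ≤ (C * (2 : ℝ) ^ (45 * ω) * Y * (2 * (2 : ℝ) ^ (15 * ω))) * (3 * (2 : ℝ) ^ (-(S.c * S.d / 20) * k)) := by
          refine mul_le_mul ?_ ?_ (by positivity) (by positivity)
          · exact mul_le_mul_of_nonneg_left (by (clear * - hAc; linarith)) (by positivity)
          · refine mul_le_mul_of_nonneg_left ?_ (by norm_num)
            refine le_trans ?_ (hvy_decay S hk')
            refine Real.rpow_le_rpow_of_exponent_le (by norm_num) ?_
            have hk'0 : (0 : ℝ) ≤ k' := Nat.cast_nonneg _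
            (clear * - hcd; nlinarith)
      _ = _ := by
          have e1 : (2 : ℝ) ^ (60 * ω) = (2 : ℝ) ^ (45 * ω) * (2 : ℝ) ^ (15 * ω) := by
            rw [← Real.rpow_add (by norm_num)]
            congr 1
            ring
          rw [e1]
          ring
  calc _ ≤ ∑ _k' ∈ S.hvy k0 k, 6 * C * (2 : ℝ) ^ (60 * ω) * (2 : ℝ) ^ (-(S.c * S.d / 20) * k) * Y :=
        Finset.sum_le_sum hblock
    _ = (S.hvy k0 k).card * (6 * C * (2 : ℝ) ^ (60 * ω) * (2 : ℝ) ^ (-(S.c * S.d / 20) * k) * Y) := by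
        rw [Finset.sum_const, nsmul_eq_mul]
    _ ≤ (3 * ((k : ℝ) + 1)) * (6 * C * (2 : ℝ) ^ (60 * ω) * (2 : ℝ) ^ (-(S.c * S.d / 20) * k) * Y) :=
        mul_le_mul_of_nonneg_right (card_hvy S k0 k) (by positivity)
    _ = (18 * C * ((k : ℝ) + 1) * (2 : ℝ) ^ (60 * ω) * (2 : ℝ) ^ (-(S.c * S.d / 20) * k)) * Y := by ring
    _ ≤ (2 : ℝ) ^ (-(S.ep / 40) * k) * Y :=
        mul_le_mul_of_nonneg_right (hclose k0 hk0K1 k hkk) (by positivity)

end Pool.Agent.M20.Helper35.KL
end
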