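import Mathlib
import Pool.Agent.Helper53.KO.G04
import Pool.Agent.Helper53.KO.G07
import Pool.Agent.Helper53.KO.G12
import Pool.Agent.Helper53.KO.G17
import Pool.Agent.Helper53.KO.G18
import Pool.Agent.Helper53.KO.G19
import Pool.Agent.Helper53.KO.G20
import Pool.Agent.Helper53.KO.G21
import Pool.Agent.Helper53.KO.G23
import Pool.Agent.Helper53.KO.G29

set_option linter.all false

/- Helper53.KN.Helper52.KC.FMall -/
section
/-!
# Project KS: the fourth moment of zeta on the critical line, unconditional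
-/

namespace Pool.Agent.M20.Helper52.KC

theorem fourth_moment : Pool.Agent.M20.Helper26.KC.FourthMoment :=
  fourthMoment (Pool.Agent.M20.Helper5.KC.mv4a Pool.Agent.M20.Helper65.KC.mv2)
    (Pool.Agent.M20.Helper5.KC.mv4b Pool.Agent.M20.Helper65.KC.mv2)
    (Pool.Agent.M20.Helper26.KC.afe Pool.Agent.M20.Helper73.KC.ffBound)

end Pool.Agent.M20.Helper52.KC
end

/- Helper53.KN.Helper26.KC.F11 -/
section
/-! Huxley's density theorem, unconditional. -/

set_option autoImplicit false

namespace Pool.Agent.M20.Helper26.KC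

theorem detect_fm45 : DetectFM45 := detectFM45 Pool.Agent.M20.Helper52.KC.fourth_moment

/-- Huxley's density theorem for spaced zeros -/
theorem huxleyS : DensS := densS Pool.Agent.M20.Helper60.KC.mvCount Pool.Agent.M20.Helper60.KC.huxleyCount
  Pool.Agent.M20.Helper91.KC.powDP detect_fm45

end Pool.Agent.M20.Helper26.KC
end

/- Helper53.KN.Helper4.KC.Gallagher -/
section
/-! Sobolev-Gallagher inequality at spaced points with a Gaussian weight. -/

set_option autoImplicit false
open scoped BigOperators Classical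
open MeasureTheory

namespace Pool.Agent.M20.Helper4.KC

/-- one interval -/
theorem sobolev_one (h h' k : ℝ → ℝ) (hd : ∀ x, HasDerivAt h (h' x) x)
    (hk : Continuous k) (hh' : Continuous h') (hle : ∀ x, |h' x| ≤ k x) (u δ : ℝ) (hδ : 0 < δ) :
    h u ≤ δ⁻¹ * (∫ x in u..(u + δ), h x) + ∫ x in u..(u + δ), k x := by
  have hc : Continuous h := continuous_iff_continuousAt.mpr (fun x => (hd x).continuousAt)
  have hk0 : ∀ x, 0 ≤ k x := fun x => (abs_nonneg _).trans (hle x)
  have key : ∀ t ∈ Set.Icc u (u + δ), h u - (∫ x in u..(u + δ), k x) ≤ h t := by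
    intro t ht
    have h1 : ∫ x in u..t, h' x = h t - h u :=
      intervalIntegral.integral_eq_sub_of_hasDerivAt (fun x _ => hd x) (hh'.intervalIntegrable _ _)
    have h2 : -(∫ x in u..t, h' x) ≤ ∫ x in u..t, k x := by
      rw [← intervalIntegral.integral_neg]
      apply intervalIntegral.integral_mono_on ht.1 (hh'.neg.intervalIntegrable _ _)
        (hk.intervalIntegrable _ _)
      intro x _
      exact (neg_le_abs _).trans (hle x)
    have h3 : ∫ x in u..t, k x ≤ ∫ x in u..(u + δ), k x := by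
      apply intervalIntegral.integral_mono_interval le_rfl ht.1 ht.2 _ (hk.intervalIntegrable _ _)
      exact Filter.Eventually.of_forall hk0
    linarith
  have h4 : ∫ x in u..(u + δ), (h u - (∫ x in u..(u + δ), k x)) ≤ ∫ x in u..(u + δ), h x := by
    apply intervalIntegral.integral_mono_on (by linarith) (by simp) (hc.intervalIntegrable _ _)
    exact key
  rw [intervalIntegral.integral_const, smul_eq_mul] at h4
  have h5 : (u + δ - u) = δ := by ring
  rw [h5] at h4
  have h6 : h u - (∫ x in u..(u + δ), k x) ≤ δ⁻¹ * ∫ x in u..(u + δ), h x := by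
    rw [inv_mul_eq_div, le_div_iff₀ hδ]
    linarith
  linarith

/-- sum over spaced points in `[u0, u0+1]` -/
theorem sum_spaced_le (Φ : ℝ → ℝ) (hΦ : Continuous Φ) (hΦ0 : ∀ x, 0 ≤ Φ x) (U : Finset ℝ) (u0 δ : ℝ)
    (hδ : 0 < δ) (hδ1 : δ ≤ 1) (hU : ∀ u ∈ U, u0 ≤ u ∧ u ≤ u0 + 1)
    (hs : ∀ u ∈ U, ∀ u' ∈ U, u ≠ u' → δ ≤ |u - u'|)
    (hint : Integrable (fun x => Real.exp (-(x - u0) ^ 2) * Φ x)) :
    ∑ u ∈ U, ∫ x in u..(u + δ), Φ x ≤
      Real.exp 4 * ∫ x, Real.exp (-(x - u0) ^ 2) * Φ x := by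
  have e1 : ∀ u ∈ U, ∫ x in u..(u + δ), Φ x = ∫ x, (Set.Ioc u (u + δ)).indicator Φ x := by
    intro u _
    rw [intervalIntegral.integral_of_le (by (clear * - hδ; linarith)), integral_indicator measurableSet_Ioc]
  have i1 : ∀ u ∈ U, Integrable ((Set.Ioc u (u + δ)).indicator Φ) := by
    intro u _
    rw [integrable_indicator_iff measurableSet_Ioc]
    exact (hΦ.intervalIntegrable u (u + δ)).1
  rw [Finset.sum_congr rfl e1, ← integral_finsetSum U i1, ← integral_const_mul]
  apply integral_mono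
  · exact integrable_finsetSum U i1
  · exact hint.const_mul _
  intro x
  simp only
  by_cases hx : ∃ u ∈ U, x ∈ Set.Ioc u (u + δ)
  · obtain ⟨u, hu, hxu⟩ := hx
    rw [Finset.sum_eq_single u]
    · rw [Set.indicator_of_mem hxu]
      have h1 : 1 ≤ Real.exp 4 * Real.exp (-(x - u0) ^ 2) := by
        rw [← Real.exp_add]
        apply Real.one_le_exp
        have a1 := (hU u hu).1
        have a2 := (hU u hu).2
        have b1 := hxu.1
        have b2 := hxu.2
        nlinarith
      calc Φ x = 1 * Φ x := (one_mul _).symm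
        _ ≤ (Real.exp 4 * Real.exp (-(x - u0) ^ 2)) * Φ x := by gcongr; exact hΦ0 x
        _ = _ := by ring
    · intro v hv hvu
      apply Set.indicator_of_notMem
      intro hxv
      have := hs v hv u hu hvu
      have b1 := hxu.1
      have b2 := hxu.2
      have c1 := hxv.1
      have c2 := hxv.2
      rcases abs_cases (v - u) with h | h <;> linarith
    · intro h
      exact absurd hu h
  · push Not at hx
    rw [Finset.sum_eq_zero]
    · have := hΦ0 x
      positivity
    · intro u hu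
      exact Set.indicator_of_notMem (hx u hu) _

/-- Gallagher with Gaussian weight for a complex valued function. -/
theorem gallagher (g g' : ℝ → ℂ) (hd : ∀ x, HasDerivAt g (g' x) x) (hg' : Continuous g')
    (U : Finset ℝ) (u0 T : ℝ) (hT : 1 ≤ T) (hU : ∀ u ∈ U, u0 ≤ u ∧ u ≤ u0 + 1)
    (hs : ∀ u ∈ U, ∀ u' ∈ U, u ≠ u' → 1 / T ≤ |u - u'|)
    (hint : Integrable (fun x => Real.exp (-(x - u0) ^ 2) * ‖g x‖ ^ 2))
    (hint' : Integrable (fun x => Real.exp (-(x - u0) ^ 2) * ‖g' x‖ ^ 2)) :
    ∑ u ∈ U, ‖g u‖ ^ 2 ≤ Real.exp 4 * (2 * T * (∫ x, Real.exp (-(x - u0) ^ 2) * ‖g x‖ ^ 2) +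
      T⁻¹ * ∫ x, Real.exp (-(x - u0) ^ 2) * ‖g' x‖ ^ 2) := by
  have hT0 : 0 < T := by linarith
  have hgc : Continuous g := continuous_iff_continuousAt.mpr (fun x => (hd x).continuousAt)
  set Φ : ℝ → ℝ := fun x => 2 * T * ‖g x‖ ^ 2 + T⁻¹ * ‖g' x‖ ^ 2 with hΦ
  have hΦc : Continuous Φ := by
    rw [hΦ]; fun_prop
  have hΦ0 : ∀ x, 0 ≤ Φ x := fun x => by rw [hΦ]; (clear * - hT; positivity)
  have hδ : (0 : ℝ) < 1 / T := by positivity
  have hδ1 : 1 / T ≤ 1 := by rw [div_le_one hT0]; exact hT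
  have hintΦ : Integrable (fun x => Real.exp (-(x - u0) ^ 2) * Φ x) := by
    have := (hint.const_mul (2 * T)).add (hint'.const_mul T⁻¹)
    refine this.congr (Filter.Eventually.of_forall (fun x => ?_))
    simp only [Pi.add_apply, hΦ]
    ring
  have h1 := sum_spaced_le Φ hΦc hΦ0 U u0 (1 / T) hδ hδ1 hU hs hintΦ
  have h2 : ∀ u ∈ U, ‖g u‖ ^ 2 ≤ ∫ x in u..(u + 1 / T), Φ x := by
    intro u _
    have hds : ∀ x, HasDerivAt (fun y => ‖g y‖ ^ 2) (2 * inner ℝ (g x) (g' x)) x := fun x =>
      (hd x).norm_sq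
    have hc1 : Continuous (fun x => 2 * inner ℝ (g x) (g' x)) := by fun_prop
    have h3 := sobolev_one (fun y => ‖g y‖ ^ 2) (fun x => 2 * inner ℝ (g x) (g' x))
      (fun x => T * ‖g x‖ ^ 2 + T⁻¹ * ‖g' x‖ ^ 2) hds (by fun_prop) hc1 (by
        intro x
        rw [abs_mul, abs_two]
        have h4 := abs_real_inner_le_norm (g x) (g' x)
        have h5 : 2 * (‖g x‖ * ‖g' x‖) ≤ T * ‖g x‖ ^ 2 + T⁻¹ * ‖g' x‖ ^ 2 := by
          have h6 : 0 ≤ T⁻¹ * (T * ‖g x‖ - ‖g' x‖) ^ 2 := by (clear * - hT; positivity)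
          have h7 : T⁻¹ * (T * ‖g x‖ - ‖g' x‖) ^ 2 =
              T * ‖g x‖ ^ 2 + T⁻¹ * ‖g' x‖ ^ 2 - 2 * (‖g x‖ * ‖g' x‖) := by
            field_simp
            ring
          (clear * - h6 h7; linarith)
        (clear * - h4 h5; linarith)) u (1 / T) hδ
    refine h3.trans (le_of_eq ?_)
    rw [one_div, inv_inv, ← intervalIntegral.integral_const_mul, ← intervalIntegral.integral_add]
    · apply intervalIntegral.integral_congr
      intro x _
      simp only [hΦ]
      ring
    · exact Continuous.intervalIntegrable (by fun_prop) _ _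
    · exact Continuous.intervalIntegrable (by fun_prop) _ _
  refine (Finset.sum_le_sum h2).trans (h1.trans (le_of_eq ?_))
  congr 1
  rw [← integral_const_mul, ← integral_const_mul, ← integral_add (hint.const_mul _) (hint'.const_mul _)]
  apply integral_congr_ae
  refine Filter.Eventually.of_forall (fun x => ?_)
  simp only [hΦ]
  ring

end Pool.Agent.M20.Helper4.KC
end

/- Helper53.KN.Helper4.KC.FourthU -/
section
/-! KC-7: fourth moment over spaced points by additive energy. -/

set_option autoImplicit false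
open scoped BigOperators Classical ComplexConjugate
open MeasureTheory

namespace Pool.Agent.M20.Helper4.KC

theorem gauss_mean {ι : Type} (S : Finset ι) (a w : ι → ℂ) (u0 K A : ℝ) (hu0 : 0 ≤ u0) (hK0 : K ≤ 0)
    (hA : ∀ p ∈ S, ‖a p‖ ≤ A) (hw : ∀ p ∈ S, -2 ≤ (w p).re ∧ (w p).re ≤ K) :
    Integrable (fun x : ℝ => Real.exp (-(x - u0) ^ 2) * ‖∑ p ∈ S, a p * Complex.exp (w p * x)‖ ^ 2) ∧
    ∫ x : ℝ, Real.exp (-(x - u0) ^ 2) * ‖∑ p ∈ S, a p * Complex.exp (w p * x)‖ ^ 2 ≤
      Real.sqrt Real.pi * Real.exp 4 * A ^ 2 * Real.exp (2 * K * u0) *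
        ∑ p ∈ S, ∑ q ∈ S, Real.exp (-((w p).im - (w q).im) ^ 2 / 4) := by
  set P : ι → ι → ℝ → ℂ := fun p q x => Complex.exp ((-1 : ℂ) * (x : ℂ) ^ 2 +
    ((2 * u0 : ℝ) + w p + conj (w q)) * (x : ℂ) + ((-(u0 ^ 2) : ℝ) : ℂ)) with hP
  have key : ∀ x : ℝ, ((Real.exp (-(x - u0) ^ 2) *
      ‖∑ p ∈ S, a p * Complex.exp (w p * x)‖ ^ 2 : ℝ) : ℂ) =
      ∑ p ∈ S, ∑ q ∈ S, (a p * conj (a q)) * P p q x := by
    intro x
    push_cast
    rw [← Complex.mul_conj', map_sum, Finset.sum_mul_sum, Finset.mul_sum]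
    refine Finset.sum_congr rfl (fun p _ => ?_)
    rw [Finset.mul_sum]
    refine Finset.sum_congr rfl (fun q _ => ?_)
    rw [map_mul, ← Complex.exp_conj, map_mul, Complex.conj_ofReal, hP]
    simp only
    have : Complex.exp (-((x : ℂ) - u0) ^ 2) * (a p * Complex.exp (w p * x) *
        (conj (a q) * Complex.exp (conj (w q) * x))) =
        (a p * conj (a q)) * (Complex.exp (-((x : ℂ) - u0) ^ 2) * Complex.exp (w p * x) *
          Complex.exp (conj (w q) * x)) := by ring
    rw [this, ← Complex.exp_add, ← Complex.exp_add]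
    congr 2
    push_cast
    ring
  have hPi : ∀ p q : ι, Integrable (P p q) := fun p q =>
    integrable_cexp_quadratic' (by simp) _ _
  have hint : Integrable (fun x : ℝ => ∑ p ∈ S, ∑ q ∈ S, (a p * conj (a q)) * P p q x) :=
    integrable_finsetSum _ (fun p _ => integrable_finsetSum _ (fun q _ => (hPi p q).const_mul _))
  have hintC : Integrable (fun x : ℝ => ((Real.exp (-(x - u0) ^ 2) *
      ‖∑ p ∈ S, a p * Complex.exp (w p * x)‖ ^ 2 : ℝ) : ℂ)) :=
    hint.congr (Filter.Eventually.of_forall (fun x => (key x).symm))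
  have hintR : Integrable (fun x : ℝ => Real.exp (-(x - u0) ^ 2) *
      ‖∑ p ∈ S, a p * Complex.exp (w p * x)‖ ^ 2) := by
    have := hintC.re
    simpa only [RCLike.re_to_complex, Complex.ofReal_re] using this
  refine ⟨hintR, ?_⟩
  have hnn : 0 ≤ ∫ x : ℝ, Real.exp (-(x - u0) ^ 2) *
      ‖∑ p ∈ S, a p * Complex.exp (w p * x)‖ ^ 2 := by
    apply integral_nonneg
    intro x
    simp only [Pi.zero_apply]
    positivity
  have e1 : ((∫ x : ℝ, Real.exp (-(x - u0) ^ 2) *
      ‖∑ p ∈ S, a p * Complex.exp (w p * x)‖ ^ 2 : ℝ) : ℂ) =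
      ∑ p ∈ S, ∑ q ∈ S, (a p * conj (a q)) * ∫ x : ℝ, P p q x := by
    rw [← integral_complex_ofReal]
    rw [integral_congr_ae (Filter.Eventually.of_forall key)]
    rw [integral_finsetSum _ (fun p _ => integrable_finsetSum _ (fun q _ => (hPi p q).const_mul _))]
    refine Finset.sum_congr rfl (fun p _ => ?_)
    rw [integral_finsetSum _ (fun q _ => (hPi p q).const_mul _)]
    refine Finset.sum_congr rfl (fun q _ => ?_)
    rw [integral_const_mul]
  have e2 : ∀ p ∈ S, ∀ q ∈ S, ‖∫ x : ℝ, P p q x‖ ≤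
      Real.sqrt Real.pi * Real.exp 4 * Real.exp (2 * K * u0) *
        Real.exp (-((w p).im - (w q).im) ^ 2 / 4) := by
    intro p hp q hq
    rw [hP]
    simp only
    rw [integral_cexp_quadratic (by simp)]
    rw [norm_mul]
    have f1 : ‖((Real.pi : ℂ) / -(-1 : ℂ)) ^ (1 / 2 : ℂ)‖ = Real.sqrt Real.pi := by
      rw [neg_neg, div_one]
      rw [Complex.norm_cpow_eq_rpow_re_of_pos Real.pi_pos]
      rw [Real.sqrt_eq_rpow]
      norm_num
    rw [f1, mul_assoc, mul_assoc]
    apply mul_le_mul_of_nonneg_left _ (Real.sqrt_nonneg _)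
    rw [Complex.norm_exp, ← Real.exp_add, ← Real.exp_add]
    apply Real.exp_le_exp.mpr
    have f2 : (((-(u0 ^ 2) : ℝ) : ℂ) - ((2 * u0 : ℝ) + w p + conj (w q)) ^ 2 / (4 * (-1 : ℂ))) =
        ((u0 : ℝ) : ℂ) * (w p + conj (w q)) + (w p + conj (w q)) ^ 2 * ((1 / 4 : ℝ) : ℂ) := by
      push_cast
      ring
    rw [f2]
    obtain ⟨h1, h2⟩ := hw p hp
    obtain ⟨h3, h4⟩ := hw q hq
    rw [Complex.add_re, Complex.re_ofReal_mul, Complex.re_mul_ofReal, sq]
    simp only [Complex.add_re, Complex.conj_re, Complex.mul_re, Complex.add_im, Complex.conj_im]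
    have g1 : u0 * ((w p).re + (w q).re) ≤ 2 * K * u0 := by (clear * - hu0 h2 h4; nlinarith)
    have g2 : ((w p).re + (w q).re) * ((w p).re + (w q).re) ≤ 16 := by (clear * - h1 h3 hK0 h2 h4; nlinarith)
    (clear * - g1 g2; nlinarith)
  have e3 : ∫ x : ℝ, Real.exp (-(x - u0) ^ 2) *
      ‖∑ p ∈ S, a p * Complex.exp (w p * x)‖ ^ 2 =
      ‖∑ p ∈ S, ∑ q ∈ S, (a p * conj (a q)) * ∫ x : ℝ, P p q x‖ := by
    rw [← e1, Complex.norm_real, Real.norm_of_nonneg hnn]
  rw [e3]
  refine (norm_sum_le _ _).trans ?_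
  rw [Finset.mul_sum]
  refine Finset.sum_le_sum (fun p hp => ?_)
  refine (norm_sum_le _ _).trans ?_
  rw [Finset.mul_sum]
  refine Finset.sum_le_sum (fun q hq => ?_)
  rw [norm_mul, norm_mul, RCLike.norm_conj]
  have hA0 : 0 ≤ A := (norm_nonneg _).trans (hA p hp)
  calc ‖a p‖ * ‖a q‖ * ‖∫ x : ℝ, P p q x‖ ≤ A * A * (Real.sqrt Real.pi * Real.exp 4 *
        Real.exp (2 * K * u0) * Real.exp (-((w p).im - (w q).im) ^ 2 / 4)) := by
        have := hA p hp
        have := hA q hq
        have := e2 p hp q hq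
        gcongr
    _ = _ := by ring

end Pool.Agent.M20.Helper4.KC

open Pool.Agent.M20.Helper4.KC in
/-- KC-7 -/
theorem Pool.Agent.M20.Helper4.KC.fourthU : Pool.Agent.M20.Helper60.KS.FourthU := by
  have hC1 : 0 < C1 := by
    have h1 := sum_kd_le {0} 0
    simp only [Finset.sum_singleton, sub_zero] at h1
    have h2 : kd 0 = 1 := by simp [kd]
    linarith
  refine ⟨18 * Real.exp 4 * (Real.sqrt Real.pi * Real.exp 4) * (Real.exp 2 * C1), by positivity, ?_⟩
  intro Z c B b T u0 U hT hu0 hb hB hZ hU hs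
  have hT0 : 0 < T := by linarith
  set S := Z ×ˢ Z with hS
  set a : ℂ × ℂ → ℂ := fun p => c p.1 * c p.2 with ha
  set w : ℂ × ℂ → ℂ := fun p => p.1 + p.2 - 2 with hw
  set g : ℝ → ℂ := fun x => ∑ p ∈ S, a p * Complex.exp (w p * x) with hg
  set g' : ℝ → ℂ := fun x => ∑ p ∈ S, (a p * w p) * Complex.exp (w p * x) with hg'
  have hsq : ∀ x : ℝ, (∑ ρ ∈ Z, c ρ * Complex.exp ((ρ - 1) * (x : ℂ))) ^ 2 = g x := by
    intro x
    rw [sq, Finset.sum_mul_sum, hg, hS]
    simp only
    rw [Finset.sum_product]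
    refine Finset.sum_congr rfl (fun p _ => Finset.sum_congr rfl (fun q _ => ?_))
    rw [ha, hw]
    simp only
    have : (p + q - 2) * (x : ℂ) = (p - 1) * x + (q - 1) * x := by ring
    rw [this, Complex.exp_add]
    ring
  have hfour : ∀ u : ℝ, ‖∑ ρ ∈ Z, c ρ * Complex.exp ((ρ - 1) * (u : ℂ))‖ ^ 4 = ‖g u‖ ^ 2 := by
    intro u
    rw [← hsq u, norm_pow]
    ring
  have hwre : ∀ p ∈ S, -2 ≤ (w p).re ∧ (w p).re ≤ 2 * (b - 1) := by
    intro p hp
    rw [hS, Finset.mem_product] at hp
    obtain ⟨h1, h2, _, _⟩ := hZ p.1 hp.1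
    obtain ⟨h3, h4, _, _⟩ := hZ p.2 hp.2
    rw [hw]
    simp only [Complex.sub_re, Complex.add_re]
    have : (2 : ℂ).re = 2 := rfl
    rw [this]
    constructor <;> (clear * - h1 h3 h2 h4; linarith)
  have haB : ∀ p ∈ S, ‖a p‖ ≤ B ^ 2 := by
    intro p hp
    rw [hS, Finset.mem_product] at hp
    obtain ⟨_, _, _, h1⟩ := hZ p.1 hp.1
    obtain ⟨_, _, _, h2⟩ := hZ p.2 hp.2
    rw [ha]
    simp only [norm_mul]
    rw [sq]
    (clear * - h1 h2 hB; gcongr)
  have hwB : ∀ p ∈ S, ‖w p‖ ≤ 4 * T := by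
    intro p hp
    have h5 := hwre p hp
    rw [hS, Finset.mem_product] at hp
    obtain ⟨h1, _, h1', _⟩ := hZ p.1 hp.1
    obtain ⟨h2, _, h2', _⟩ := hZ p.2 hp.2
    refine (Complex.norm_le_abs_re_add_abs_im _).trans ?_
    have h6 : |(w p).re| ≤ 2 := by rw [abs_le]; constructor <;> (clear * - h5 hb; linarith)
    have h7 : |(w p).im| ≤ 2 * T := by
      rw [hw]
      simp only [Complex.sub_im, Complex.add_im]
      have : (2 : ℂ).im = 0 := rfl
      rw [this, sub_zero]
      exact (abs_add_le _ _).trans (by (clear * - h1' h2'; linarith))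
    linarith
  have hawB : ∀ p ∈ S, ‖a p * w p‖ ≤ B ^ 2 * (4 * T) := by
    intro p hp
    rw [norm_mul]
    have := haB p hp
    have := hwB p hp
    gcongr
  have hd : ∀ x : ℝ, HasDerivAt g (g' x) x := by
    intro x
    rw [hg, hg']
    apply HasDerivAt.fun_sum
    intro p _
    have h1 : HasDerivAt (fun y : ℝ => w p * (y : ℂ)) (w p) x := by
      have := (hasDerivAt_id x).ofReal_comp.const_mul (w p)
      simpa using this
    have h2 := h1.cexp.const_mul (a p)
    refine h2.congr_deriv ?_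
    ring
  have hg'c : Continuous g' := by
    rw [hg']
    fun_prop
  obtain ⟨i1, b1⟩ := gauss_mean S a w u0 (2 * (b - 1)) (B ^ 2) hu0 (by (clear * - hb; linarith)) haB hwre
  obtain ⟨i2, b2⟩ := gauss_mean S (fun p => a p * w p) w u0 (2 * (b - 1)) (B ^ 2 * (4 * T)) hu0
    (by (clear * - hb; linarith)) hawB hwre
  have hG := gallagher g g' hd hg'c U u0 T hT hU hs i1 i2
  have hE : ∑ p ∈ S, ∑ q ∈ S, Real.exp (-((w p).im - (w q).im) ^ 2 / 4) ≤
      Real.exp 2 * C1 * (Pool.Agent.M20.Helper60.KS.EZ Z) := by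
    have h1 := pair_sum_gauss S (fun p => (w p).im)
    refine h1.trans (le_of_eq ?_)
    congr 2
    rw [Pool.Agent.M20.Helper60.KS.EZ, hS]
    congr 1
    apply Finset.filter_congr
    intro p _
    have : (w p.1).im - (w p.2).im = p.1.1.im + p.1.2.im - p.2.1.im - p.2.2.im := by
      rw [hw]
      simp only [Complex.sub_im, Complex.add_im]
      ring
    rw [this]
  set E : ℝ := Real.exp 2 * C1 * (Pool.Agent.M20.Helper60.KS.EZ Z) with hEdef
  have hexp : Real.exp (2 * (2 * (b - 1)) * u0) = Real.exp (4 * (b - 1) * u0) := by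
    congr 1; ring
  rw [hexp] at b1 b2
  calc ∑ u ∈ U, ‖∑ ρ ∈ Z, c ρ * Complex.exp ((ρ - 1) * (u : ℂ))‖ ^ 4
      = ∑ u ∈ U, ‖g u‖ ^ 2 := Finset.sum_congr rfl (fun u _ => hfour u)
    _ ≤ _ := hG
    _ ≤ Real.exp 4 * (2 * T * (Real.sqrt Real.pi * Real.exp 4 * (B ^ 2) ^ 2 *
          Real.exp (4 * (b - 1) * u0) * E) +
        T⁻¹ * (Real.sqrt Real.pi * Real.exp 4 * (B ^ 2 * (4 * T)) ^ 2 *
          Real.exp (4 * (b - 1) * u0) * E)) := by
        gcongr
        · exact b1.trans (by (clear * - hE; gcongr))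
        · exact b2.trans (by (clear * - hE; gcongr))
    _ = _ := by
        rw [hEdef]
        field_simp
        ring
end

/- Helper53.KN.Helper73.KC.EnergyFinal -/
section
/-! KC-8, final form. -/

set_option autoImplicit false

namespace Pool.Agent.M20.Helper73.KC

theorem energyG : Pool.Agent.M20.Helper60.KS.EnergyG :=
  energyG_of Pool.Agent.M20.Helper6.KSZ.a12' Pool.Agent.M20.Helper6.KSZ.a13

end Pool.Agent.M20.Helper73.KC
end

/- Helper53.KN.Helper60.KC.FinalG -/
section
/-! The counting theorem for cells of general length, unconditional. -/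

set_option autoImplicit false
open Filter Topology
open scoped Classical

namespace Pool.Agent.M20.Helper60.KC
open Pool.Agent.M20.Helper60.KS

theorem inDetectG : DetectG := detectG inA5 (Pool.Agent.M20.Helper1.KSZ.a7_helper60 inA5)

/-- the counting theorem, from the numerical input only -/
theorem countW_of_numeric {w U κ ρ0 : ℝ} (hw0 : 0 ≤ w) (hw1 : w ≤ 1/4) (hκ : κ * (1/2 - w) = 1)
    (hU1 : 0.21 - 2 * w < U) (hU2 : (1/2 - w) * ρ0 < U) (hN : NumericG κ ρ0) : CountW w U :=
  countW hw0 hw1 hκ hU1 hU2 (Pool.Agent.M20.Helper60.KG.badZeroG hw0 (by linarith)) inThmN inA9i inDetectG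
    (classBoundG mvCount huxleyCount sLemma Pool.Agent.M20.Helper4.KC.fourthU Pool.Agent.M20.Helper73.KC.energyG
      Pool.Agent.M20.Helper91.KC.powDP (by linarith) (by linarith) hκ hN)
    Pool.Agent.M20.Helper46.KC.splitSpaced

/-- cells of length `X^(1/2-d)`: at most `X^0.2156` bad ones -/
theorem count_000 : CountW 0 0.2156 :=
  countW_of_numeric (κ := 2) (ρ0 := 0.431) (by norm_num) (by norm_num) (by norm_num) (by norm_num) (by norm_num)
    Pool.Agent.M20.Helper65.KC.numericZ

end Pool.Agent.M20.Helper60.KC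
end

/- Helper53.KN.Helper1.KL.S1Lower -/
section
/-! Project KS: a lower bound for the sum of `1/m` over the primes `m ∈ (M, 2M]`, `M = 2^(em k)`, from `count_000`. -/

set_option autoImplicit false
open Filter Topology Finset
open scoped Classical

namespace Pool.Agent.M20.Helper1.KL

open Pool.Agent.M20.Helper60.KS

/-- at least `c 2^n / n` primes in `[2^n, 2^(n+1))` -/
theorem primes_block : ∃ c : ℝ, 0 < c ∧ ∃ K : ℕ, ∀ n : ℕ, K ≤ n →
    c * 2 ^ n / n ≤ (((Finset.Ico (2 ^ n) (2 ^ (n + 1))).filter Nat.Prime).card : ℝ) := by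
  obtain ⟨d0, hd0, H⟩ := Helper60.KC.count_000
  set d : ℝ := min d0 (1 / 4) with hd
  have hdpos : 0 < d := lt_min hd0 (by norm_num)
  obtain ⟨c0, hc0, K, hK⟩ := H d hdpos (min_le_left _ _)
  refine ⟨c0 / 2, by positivity, max K 10, fun n hn => ?_⟩
  have hnK : K ≤ n := (le_max_left _ _).trans hn
  have hn10 : 10 ≤ n := (le_max_right _ _).trans hn
  have hn10' : (10 : ℝ) ≤ n := by exact_mod_cast hn10
  have hbad := hK n hnK
  set e : ℕ := ecw 0 d n with he
  have hed : (e : ℝ) ≤ n / 2 := by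
    have h1 : (e : ℝ) ≤ (n : ℝ) * (1/2 + 0 - d) := by
      rw [he]
      unfold ecw
      apply Nat.floor_le
      have : d ≤ 1 / 4 := min_le_right _ _
      apply mul_nonneg (by (clear * - hdpos hn10' this; linarith)) (by (clear * - hdpos this; linarith))
    (clear * - h1 hdpos; nlinarith)
  have hen : e ≤ n := by
    have : (e : ℝ) ≤ n := by (clear * - hn10' hed; linarith)
    exact_mod_cast this
  set B := (Finset.range (2 ^ (n - e))).filter (fun j => (npr n e j : ℝ) < c0 * 2 ^ e / n) with hB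
  set G := (Finset.range (2 ^ (n - e))).filter (fun j => ¬ (npr n e j : ℝ) < c0 * 2 ^ e / n) with hG
  have hcard : B.card + G.card = 2 ^ (n - e) := by
    rw [hB, hG, Finset.card_filter_add_card_filter_not, Finset.card_range]
  have hB2 : (B.card : ℝ) ≤ 2 ^ (n - e) / 2 := by
    refine hbad.trans ?_
    have h1 : (2 : ℝ) ^ (n - e) = (2 : ℝ) ^ ((n : ℝ) - e) := by
      rw [← Nat.cast_sub hen, Real.rpow_natCast]
    rw [h1, ← Real.rpow_sub_one (by norm_num)]
    apply Real.rpow_le_rpow_of_exponent_le (by norm_num)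
    (clear * - hn10' hed; linarith)
  have hG2 : (2 : ℝ) ^ (n - e) / 2 ≤ G.card := by
    have h1 : (B.card : ℝ) + G.card = 2 ^ (n - e) := by exact_mod_cast hcard
    (clear * - hB2 h1; linarith)
  -- the primes
  have hsum : ∑ j ∈ G, npr n e j ≤ ((Finset.Ico (2 ^ n) (2 ^ (n + 1))).filter Nat.Prime).card := by
    have h1 : ∀ j, npr n e j = ((Finset.Ico (2 ^ n + j * 2 ^ e) (2 ^ n + (j + 1) * 2 ^ e)).filter
        Nat.Prime).card := fun j => rfl
    rw [Finset.sum_congr rfl (fun j _ => h1 j), ← Finset.card_biUnion]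
    · apply Finset.card_le_card
      intro p hp
      rw [Finset.mem_biUnion] at hp
      obtain ⟨j, hj, hp⟩ := hp
      rw [Finset.mem_filter, Finset.mem_Ico] at hp ⊢
      rw [hG, Finset.mem_filter, Finset.mem_range] at hj
      refine ⟨⟨by omega, lt_of_lt_of_le hp.1.2 ?_⟩, hp.2⟩
      have h2 : (j + 1) * 2 ^ e ≤ 2 ^ (n - e) * 2 ^ e := Nat.mul_le_mul_right _ hj.1
      rw [← pow_add, Nat.sub_add_cancel hen] at h2
      rw [pow_succ]
      omega
    · intro i _ j _ hij
      rw [Function.onFun, Finset.disjoint_left]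
      intro p hp hp'
      rw [Finset.mem_filter, Finset.mem_Ico] at hp hp'
      rcases lt_or_gt_of_ne hij with h | h
      · have h2 : (i + 1) * 2 ^ e ≤ j * 2 ^ e := Nat.mul_le_mul_right _ h
        omega
      · have h2 : (j + 1) * 2 ^ e ≤ i * 2 ^ e := Nat.mul_le_mul_right _ h
        omega
  have hsum' : (G.card : ℝ) * (c0 * 2 ^ e / n) ≤
      (((Finset.Ico (2 ^ n) (2 ^ (n + 1))).filter Nat.Prime).card : ℝ) := by
    refine le_trans ?_ (by exact_mod_cast hsum : ((∑ j ∈ G, npr n e j : ℕ) : ℝ) ≤ _)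
    rw [Nat.cast_sum, ← nsmul_eq_mul]
    apply Finset.card_nsmul_le_sum
    intro j hj
    rw [hG, Finset.mem_filter] at hj
    exact not_lt.1 hj.2
  refine le_trans (le_of_eq ?_) ((mul_le_mul_of_nonneg_right hG2 (by positivity)).trans hsum')
  have h3 : (2 : ℝ) ^ n = 2 ^ (n - e) * 2 ^ e := by rw [← pow_add, Nat.sub_add_cancel hen]
  rw [h3]
  ring

theorem s1Lower : S1Lower := by
  obtain ⟨c, hc, K, hK⟩ := primes_block
  refine ⟨c / 2, by positivity, 3 * K + 10, fun k hk => ?_⟩
  have hkpos : (0 : ℝ) < k := by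
    have : 0 < k := by omega
    exact_mod_cast this
  set n : ℕ := Helper60.KS.em k with hn
  have hnK : K ≤ n := by rw [hn]; unfold Helper60.KS.em; omega
  have hn2 : 2 ≤ n := by rw [hn]; unfold Helper60.KS.em; omega
  have hnk : n ≤ k := by rw [hn]; unfold Helper60.KS.em; (clear * - hk; omega)
  have hnpos : (0 : ℝ) < n := by
    have : 0 < n := by omega
    exact_mod_cast this
  have h1 := hK n hnK
  have hsub : (Finset.Ico (2 ^ n) (2 ^ (n + 1))).filter Nat.Prime ⊆ PM k := by
    intro p hp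
    rw [Finset.mem_filter, Finset.mem_Ico] at hp
    unfold PM
    rw [Finset.mem_filter, Finset.mem_Ioc, ← hn]
    refine ⟨⟨lt_of_le_of_ne hp.1.1 ?_, ?_⟩, hp.2⟩
    · intro h
      rw [← h] at hp
      exact Nat.Prime.not_prime_pow hn2 hp.2
    · have := hp.1.2
      rw [pow_succ] at this
      omega
  have h2 : ((((Finset.Ico (2 ^ n) (2 ^ (n + 1))).filter Nat.Prime).card : ℕ) : ℝ) *
      (1 / 2 ^ (n + 1)) ≤ S1 k := by
    unfold S1
    refine le_trans ?_ (Finset.sum_le_sum_of_subset_of_nonneg hsub (fun i _ _ => by positivity))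
    rw [← nsmul_eq_mul]
    apply Finset.card_nsmul_le_sum
    intro p hp
    rw [Finset.mem_filter, Finset.mem_Ico] at hp
    have h3 : (p : ℝ) ≤ 2 ^ (n + 1) := by
      have : p ≤ 2 ^ (n + 1) := hp.1.2.le
      exact_mod_cast this
    have h4 : (0 : ℝ) < p := by exact_mod_cast hp.2.pos
    exact one_div_le_one_div_of_le h4 h3
  refine le_trans ?_ h2
  refine le_trans ?_ (mul_le_mul_of_nonneg_right h1 (by positivity))
  have h5 : c * 2 ^ n / n * (1 / 2 ^ (n + 1)) = c / 2 / n := by
    rw [pow_succ]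
    (clear * - hn2 hc; field_simp)
  rw [h5]
  have h6 : (n : ℝ) ≤ k := by exact_mod_cast hnk
  exact div_le_div_of_nonneg_left (by positivity) hnpos h6

end Pool.Agent.M20.Helper1.KL
end

/- Helper53.KN.Helper62.KS.EG5 -/
section
/-!
# ExistsGood, part 5: multiplicities (project KS, MP_768c9c_nt)
-/

set_option autoImplicit false

open MeasureTheory
open scoped Classical
open Pool.Agent.M20.Helper33.KS Pool.Agent.M20.Helper16.KS

namespace Pool.Agent.M20.Helper62.KS

variable (S : Sys)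

/-- the owners of `q`: level, cell, candidate -/
noncomputable def TT (k0 q : ℕ) : Finset ((_ : ℕ) × (_ : ℕ) × (ℕ × ℕ)) :=
  (Finset.Ico k0 (top q)).sigma fun k => (S.badc k).sigma fun j =>
    (S.Cand k j).filter (fun x => x.1 = q)

theorem mem_TT {k0 q : ℕ} {t : (_ : ℕ) × (_ : ℕ) × (ℕ × ℕ)} (ht : t ∈ TT S k0 q) :
    k0 ≤ t.1 ∧ t.2.1 ∈ S.badc t.1 ∧ t.2.2 ∈ S.Cand t.1 t.2.1 ∧ t.2.2.1 = q := by
  unfold TT at ht
  rw [Finset.mem_sigma, Finset.mem_sigma, Finset.mem_Ico, Finset.mem_filter] at ht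
  exact ⟨ht.1.1, ht.2.1, ht.2.2.1, ht.2.2.2⟩

theorem own_eq {k0 : ℕ} (hk0 : S.K ≤ k0) (q : ℕ) (R : Set ℕ) :
    (S.own k0 R q : ℝ) = ∑ t ∈ TT S k0 q, ind R t.2.2.2.primeFactors := by
  unfold Sys.own TT
  rw [Finset.sum_sigma]
  push_cast
  refine Finset.sum_congr rfl fun k hk => ?_
  rw [Finset.sum_sigma]
  refine Finset.sum_congr rfl fun j hj => ?_
  have hkK : S.K ≤ k := hk0.trans (Finset.mem_Ico.mp hk).1
  have h1 : (S.act R k j).filter (fun x => x.1 = q) =
      ((S.Cand k j).filter (fun x => x.1 = q)).filter (fun x => inR R x.2) := by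
    unfold Sys.act
    exact Finset.filter_comm _ _ _
  rw [h1, Finset.card_filter]
  push_cast
  refine Finset.sum_congr rfl fun x hx => ?_
  show (if inR R x.2 then (1 : ℝ) else 0) = ind R x.2.primeFactors
  rw [ind_inR (cand_facts S hkK hj (Finset.mem_filter.mp hx).1).2.2.2.1]

/-- an integer belongs to one cell only -/
theorem cell_unique {k j k' j' n : ℕ} (hj : j < nc S.d k) (hj' : j' < nc S.d k')
    (h : n ∈ cell S.d k j) (h' : n ∈ cell S.d k' j') : k = k' ∧ j = j' := by
  have h1 := cell_mem S hj h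
  have h2 := cell_mem S hj' h'
  have hn : n ≠ 0 := by
    have : 0 < 2 ^ k := by positivity
    omega
  have h3 : Nat.log 2 n = k := Nat.log_eq_of_pow_le_of_lt_pow h1.1 h1.2
  have h4 : Nat.log 2 n = k' := Nat.log_eq_of_pow_le_of_lt_pow h2.1 h2.2
  have hkk : k = k' := h3.symm.trans h4
  subst hkk
  refine ⟨rfl, ?_⟩
  unfold cell at h h'
  rw [Finset.mem_Ico] at h h'
  have hE : 0 < 2 ^ ec S.d k := by positivity
  rcases Nat.lt_trichotomy j j' with hlt | heq | hgt
  · exfalso
    have h5 : (j + 1) * 2 ^ ec S.d k ≤ j' * 2 ^ ec S.d k := Nat.mul_le_mul_right _ hlt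
    omega
  · exact heq
  · exfalso
    have h5 : (j' + 1) * 2 ^ ec S.d k ≤ j * 2 ^ ec S.d k := Nat.mul_le_mul_right _ hgt
    omega

theorem TT_inj {k0 : ℕ} (hk0 : S.K ≤ k0) (q : ℕ) :
    Set.InjOn (fun t : (_ : ℕ) × (_ : ℕ) × (ℕ × ℕ) => t.2.2.2.primeFactors)
      (TT S k0 q : Set ((_ : ℕ) × (_ : ℕ) × (ℕ × ℕ))) := by
  rintro ⟨k, j, x⟩ ht ⟨k', j', x'⟩ ht' heq
  have h1 := mem_TT S (Finset.mem_coe.mp ht)
  have h2 := mem_TT S (Finset.mem_coe.mp ht')
  simp only at h1 h2 heq
  have c1 := cand_facts S (hk0.trans h1.1) h1.2.1 h1.2.2.1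
  have c2 := cand_facts S (hk0.trans h2.1) h2.2.1 h2.2.2.1
  have h3 : x.2 = x'.2 := by
    rw [← Nat.prod_primeFactors_of_squarefree c1.2.2.1,
      ← Nat.prod_primeFactors_of_squarefree c2.2.2.1, heq]
  have h4 : x = x' := Prod.ext (h1.2.2.2.trans h2.2.2.2.symm) h3
  subst h4
  have b1 := badc_mem S h1.2.1
  have b2 := badc_mem S h2.2.1
  have m1 := (S.cand k (hk0.trans h1.1) j b1.1 b1.2 x h1.2.2.1).2.2.2.2.1
  have m2 := (S.cand k' (hk0.trans h2.1) j' b2.1 b2.2 x h2.2.2.1).2.2.2.2.1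
  obtain ⟨rfl, rfl⟩ := cell_unique S b1.1 b2.1 m1 m2
  rfl

theorem evMult (hM : Mult1) : EvMult := by
  intro S
  obtain ⟨K1, hK1⟩ := hM S
  have hc := c_pos S
  have ht := tau_pos S
  obtain ⟨K2, hK2⟩ := poly_exp 6 1 (S.c / 4) (S.c / 2) (by linarith)
  obtain ⟨i, hi⟩ := exists_nat_ge (2 / (S.c / 8))
  obtain ⟨K3, hK3⟩ := exists_nat_ge (5 * i / (S.c / 8) + 5 * i / S.tau)
  refine ⟨1, by norm_num, max (max K1 S.K) (max 8 (4 * (max K2 K3))), fun k0 hk0 l hl => ?_⟩
  exact by
    have hk0K1 : K1 ≤ k0 := ((le_max_left _ _).trans (le_max_left _ _)).trans hk0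
    have hk0K : S.K ≤ k0 := ((le_max_right _ _).trans (le_max_left _ _)).trans hk0
    have hk08 : 8 ≤ k0 := ((le_max_left _ _).trans (le_max_right _ _)).trans hk0
    have hk0m : 4 * max K2 K3 ≤ k0 := ((le_max_right _ _).trans (le_max_right _ _)).trans hk0
    have hl4 : k0 ≤ 4 * l := by
      have : (k0 : ℝ) ≤ 4 * l := by (clear * - hl; linarith)
      exact_mod_cast this
    have hlK2 : K2 ≤ l := by have := le_max_left K2 K3; omega
    exact by
      have hlK3 : K3 ≤ l := by have := le_max_right K2 K3; omega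
      have hl2 : 2 ≤ l := by omega
      have hlK3' : (K3 : ℝ) ≤ l := by exact_mod_cast hlK3
      have hi0 : (0 : ℝ) ≤ i := Nat.cast_nonneg _
      have e1 : 5 * (i : ℝ) ≤ S.c / 8 * l := by
        have h1 : 5 * (i : ℝ) / (S.c / 8) ≤ l := by
          have : 0 ≤ 5 * (i : ℝ) / S.tau := by (clear * - ht; positivity)
          (clear * - hK3 hlK3' this; linarith)
        rw [div_le_iff₀ (by (clear * - hc; linarith))] at h1
        (clear * - h1; linarith [mul_comm (S.c / 8) (l : ℝ)])
      have e2 : 5 * (i : ℝ) ≤ S.tau * l := by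
        have h1 : 5 * (i : ℝ) / S.tau ≤ l := by
          have : 0 ≤ 5 * (i : ℝ) / (S.c / 8) := by positivity
          (clear * - hK3 hlK3' this; linarith)
        rw [div_le_iff₀ ht] at h1
        (clear * - h1; linarith [mul_comm S.tau (l : ℝ)])
      exact by
        rw [PP_eq_PP]
        -- one prime
        have hone : ∀ q ∈ (Finset.Ico (2 ^ l) (2 ^ (l + 1)) : Finset ℕ),
            pr (PP S k0) {R | (q : ℝ) ^ S.tau < (S.own k0 R q : ℝ)} ≤ (2 : ℝ) ^ (-(2 * l : ℝ)) := by
          intro q hq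
          rw [Finset.mem_Ico] at hq
          have hlog : Nat.log 2 q = l := Nat.log_eq_of_pow_le_of_lt_pow hq.1 hq.2
          have hql : (2 : ℝ) ^ (l : ℝ) ≤ q := by
            rw [Real.rpow_natCast]; exact_mod_cast hq.1
          have hset : {R : Set ℕ | (q : ℝ) ^ S.tau < (S.own k0 R q : ℝ)} ⊆
              {R | (2 : ℝ) ^ (i * 5) < ∑ t ∈ TT S k0 q, ind R t.2.2.2.primeFactors} := by
            intro R hR
            have hR' : (q : ℝ) ^ S.tau < (S.own k0 R q : ℝ) := hR
            rw [own_eq S hk0K] at hR'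
            refine lt_of_le_of_lt ?_ hR'
            calc (2 : ℝ) ^ (i * 5) = (2 : ℝ) ^ (5 * (i : ℝ)) := by
                  rw [← Real.rpow_natCast]; congr 1; push_cast; ring
              _ ≤ (2 : ℝ) ^ (l * S.tau) := by
                  apply Real.rpow_le_rpow_of_exponent_le (by norm_num)
                  (clear * - e2; linarith [mul_comm S.tau (l : ℝ)])
              _ = ((2 : ℝ) ^ (l : ℝ)) ^ S.tau := by rw [Real.rpow_mul (by norm_num)]
              _ ≤ (q : ℝ) ^ S.tau := Real.rpow_le_rpow (by positivity) hql ht.le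
          refine (pr_mono _ hset).trans ?_
          have hmain := pr_mult (PP S k0) (PP_mem S k0) (TT S k0 q)
            (fun t => t.2.2.2.primeFactors) (TT_inj S hk0K q) 5
            (fun t htt => by
              have h1 := mem_TT S htt
              exact cand_card S (hk0K.trans h1.1) ((by omega : 2 ≤ k0).trans h1.1) h1.2.1 h1.2.2.1)
            ((2 : ℝ) ^ (-(S.c / 4 * l))) ?_ i
          · refine hmain.trans ?_
            exact by
              have h2 : (2 : ℝ) ^ (i * 5) * (2 : ℝ) ^ (-(S.c / 4 * l)) ≤ (2 : ℝ) ^ (-(S.c / 8 * l)) := by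
                rw [← Real.rpow_natCast, ← Real.rpow_add (by norm_num)]
                apply Real.rpow_le_rpow_of_exponent_le (by norm_num)
                push_cast
                (clear * - e1; linarith)
              refine (pow_le_pow_left₀ (by positivity) h2 (i + 1)).trans ?_
              rw [← Real.rpow_natCast, ← Real.rpow_mul (by norm_num)]
              apply Real.rpow_le_rpow_of_exponent_le (by norm_num)
              have h3 : 2 ≤ S.c / 8 * i := by
                rw [div_le_iff₀ (by (clear * - hc; linarith))] at hi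
                (clear * - hi; linarith [mul_comm (S.c / 8) (i : ℝ)])
              have h4 : (0 : ℝ) ≤ l := Nat.cast_nonneg _
              have h5 : 2 * (l : ℝ) ≤ S.c / 8 * i * l := mul_le_mul_of_nonneg_right h3 h4
              have h6 : 0 ≤ S.c / 8 * l := by positivity
              push_cast
              (clear * - e1 h5; nlinarith)
          · intro A
            exact by
              unfold TT
              rw [Finset.sum_filter, Finset.sum_sigma]
              have hlev : ∀ k ∈ Finset.Ico k0 (top q),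
                  ∑ s ∈ (S.badc k).sigma fun j => (S.Cand k j).filter (fun x => x.1 = q),
                    (if A ⊂ s.2.2.primeFactors then ∏ p ∈ s.2.2.primeFactors \ A, PP S k0 p else 0) ≤
                  (2 : ℝ) ^ (-(S.c / 2 * l)) := by
                intro k hk
                have hkk0 := (Finset.mem_Ico.mp hk).1
                rcases Nat.lt_or_ge k l with hkl | hkl
                · -- no candidates
                  refine le_trans (le_of_eq ?_) (by positivity : (0 : ℝ) ≤ (2 : ℝ) ^ (-(S.c / 2 * l)))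
                  refine Finset.sum_eq_zero fun s hs => ?_
                  exfalso
                  rw [Finset.mem_sigma, Finset.mem_filter] at hs
                  obtain ⟨c1, c2, c3, c4, c5, c6, c7⟩ := cand_facts S (hk0K.trans hkk0) hs.1 hs.2.1
                  have h1 : s.2.1 ≤ s.2.1 * s.2.2 := Nat.le_mul_of_pos_right _ (Nat.pos_of_ne_zero c4)
                  have h2 : 2 ^ (k + 1) ≤ 2 ^ l := Nat.pow_le_pow_right (by norm_num) hkl
                  have h3 := hs.2.2
                  omega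
                · rw [Finset.sum_sigma]
                  have h1 := hK1 k (hk0K1.trans hkk0) q A
                  refine le_trans (Finset.sum_le_sum fun j hj => ?_) (h1.trans ?_)
                  · rw [← Finset.filter_filter, Finset.sum_filter (s := (S.Cand k j).filter _)]
                    refine Finset.sum_le_sum fun x _ => ?_
                    split_ifs
                    · exact prod_PP_le S k0 A _
                    · exact le_rfl
                  · apply Real.rpow_le_rpow_of_exponent_le (by norm_num)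
                    have h2 : (l : ℝ) ≤ k := by exact_mod_cast hkl
                    (clear * - hc h2; nlinarith)
              refine (Finset.sum_le_sum hlev).trans ?_
              rw [Finset.sum_const, nsmul_eq_mul, Nat.card_Ico]
              have htop : ((top q - k0 : ℕ) : ℝ) ≤ 6 * (l : ℝ) ^ 1 := by
                unfold top
                rw [hlog, pow_one]
                have h1 : 3 * (l + 1) - k0 ≤ 6 * l := by omega
                exact_mod_cast h1
              exact (mul_le_mul_of_nonneg_right htop (by positivity)).trans (hK2 l hlK2)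
        have hall : {R : Set ℕ | ∃ q : ℕ, Nat.log 2 q = l ∧ (q : ℝ) ^ S.tau < (S.own k0 R q : ℝ)} ⊆
            ⋃ q ∈ (Finset.Ico (2 ^ l) (2 ^ (l + 1)) : Finset ℕ), {R | (q : ℝ) ^ S.tau < (S.own k0 R q : ℝ)} := by
          intro R hR
          obtain ⟨q, hq, hR⟩ := hR
          refine Set.mem_iUnion₂.mpr ⟨q, ?_, hR⟩
          have hq0 : q ≠ 0 := by
            rintro rfl
            rw [Nat.log_zero_right] at hq
            omega
          rw [Finset.mem_Ico, ← hq]
          exact ⟨Nat.pow_log_le_self 2 hq0, Nat.lt_pow_succ_log_self (by norm_num) q⟩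
        refine ((pr_mono _ hall).trans (pr_biUnion_le_card _ _ _ _ hone)).trans ?_
        have hcard : (((Finset.Ico (2 ^ l) (2 ^ (l + 1)) : Finset ℕ)).card : ℝ) = (2 : ℝ) ^ (l : ℝ) := by
          rw [Nat.card_Ico, pow_succ, Real.rpow_natCast]
          have : 2 ^ l * 2 - 2 ^ l = 2 ^ l := by omega
          rw [this]
          push_cast
          rfl
        rw [hcard, ← Real.rpow_add (by norm_num)]
        apply Real.rpow_le_rpow_of_exponent_le (by norm_num)
        (clear * -; linarith)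

end Pool.Agent.M20.Helper62.KS
end

/- Helper53.KN.Helper62.KS.EGFinal -/
section
/-!
# ExistsGood from the first moment inequalities (project KS, MP_768c9c_nt)
-/

set_option autoImplicit false

open Pool.Agent.M20.Helper16.KS

namespace Pool.Agent.M20.Helper62.KS

theorem existsGood_of (hC : Cand1) (hM : Mult1) (hMC : MassC1) (hMR : MassR1) (hCr : Crude1)
    (hR : RPart1) (h1 : Load1) (h2 : Load2) : ExistsGood :=
  existsGood (evLow hC) (evWin1 hC) (evWin2 hC) (evMult hM) (evMassR hMR) (evMassC hMC)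
    (Pool.Agent.M20.Helper26.KS.evCrude hCr) (Pool.Agent.M20.Helper26.KS.evRPart hR)
    (Pool.Agent.M20.Helper61.KS.evHeavy1 h1) (Pool.Agent.M20.Helper61.KS.evHeavy2 h2)

end Pool.Agent.M20.Helper62.KS
end
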