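import Mathlib
import Pool.Agent.Helper53.KO.G01
import Pool.Agent.Helper53.KO.G13
import Pool.Agent.Helper53.KO.G16
import Pool.Agent.Helper53.KO.G19
import Pool.Agent.Helper53.KO.G20
import Pool.Agent.Helper53.KO.G21
import Pool.Agent.Helper53.KO.G23
import Pool.Agent.Helper53.KO.G25
import Pool.Agent.Helper53.KO.G26
import Pool.Agent.Helper53.KO.G27
import Pool.Agent.Helper53.KO.G28
import Pool.Agent.Helper53.KO.G29
import Pool.Agent.Helper53.KO.G30
import Pool.Agent.Helper53.KO.G31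

set_option linter.all false

/- Helper53.KN.Helper1.KF.Final -/
section
/-!
# F2 and class 3, from a density theorem
-/

set_option autoImplicit false
open Filter Topology
open scoped Classical

namespace Pool.Agent.M20.Helper1.KF

open Pool.Agent.M20.Helper60.KS
open Pool.Agent.M20.Helper29.KD (CountEx countEx_of_countW)

/-- class 3: for every `b` with `1/4 < b`, `1/(2(1-b)) < 1/2 - w1`: at most `X^(1/2-b)` cells are without numbers
`q m`, `m` prime of size `X^b` -/
theorem countEx_of_dens {A x1 w1 b : ℝ} (hA : 0 ≤ A) (hAx : A * x1 ≤ 2) (hD : Dens A x1)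
    (hw1 : -(33/100) ≤ w1) (h1 : A * (1/2 - w1) < 2) (h2 : 1/2 - w1 < 2 * x1)
    (hb1 : 1/4 < b) (hb2 : b < 1/2) (hb : 1 < (1 - b) * (1 - 2 * w1)) :
    CountEx (fun k => ⌊b * (k : ℝ)⌋₊) (1/2 - b) := by
  have hb0 : 0 < 1 - b := by (clear * - hb1 hb2; linarith)
  set τb := 1 / (2 * (1 - b)) with hτb
  have hτb1 : (1 - b) * τb = 1/2 := by rw [hτb]; field_simp
  have hτb2 : τb < 1/2 - w1 := by
    by_contra hcon
    push Not at hcon
    have h3 : (1 - b) * (1/2 - w1) ≤ (1 - b) * τb := mul_le_mul_of_nonneg_left hcon hb0.le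
    (clear * - hb hτb1 h3; linarith)
  have hτb3 : 1/2 < τb := by
    by_contra hcon
    push Not at hcon
    have h3 : (1 - b) * τb ≤ (1 - b) * (1/2) := mul_le_mul_of_nonneg_left hcon hb0.le
    (clear * - hb1 hb2 hτb1 h3; linarith)
  obtain ⟨η, hη, hη1, H⟩ := countW_uniform (η1 := min ((1/2 - w1 - τb) / 10) (τb / 20)) hA hAx hD hw1 h1 h2
    (lt_min (by (clear * - hτb2; linarith)) (by (clear * - hw1 hτb2 hτb3; linarith)))
  have hηa : η ≤ (1/2 - w1 - τb) / 10 := hη1.trans (min_le_left _ _)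
  have hηb : η ≤ τb / 20 := hη1.trans (min_le_right _ _)
  have hH := H (1/2 - τb - 10 * η) (by (clear * - hηa; linarith)) (by (clear * - hτb3 hη; linarith))
  have e1 : 1/2 - (1/2 - τb - 10 * η) - 20 * η = τb - 10 * η := by ring
  rw [e1] at hH
  have hpos : 0 < (1 - b) * (10 * η) := by positivity
  have hτb4 : τb < 83/100 := by (clear * - hw1 hη hηa; linarith)
  have hηc : 10 * η ≤ 83/100 - τb := by (clear * - hw1 hηa; linarith)
  refine countEx_of_countW hb1 hb2 ?_ ?_ ?_ ?_ ?_ hH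
  · (clear * - hw1 hη hηa hηb; linarith)
  · (clear * - hη hηb; linarith)
  · have : (1 - b) * (1/2 + (1/2 - τb - 10 * η)) = (1 - b) - (1 - b) * τb - (1 - b) * (10 * η) := by ring
    rw [this, hτb1]; (clear * - hpos; linarith)
  · have : (1 - b) * (τb - 10 * η) = (1 - b) * τb - (1 - b) * (10 * η) := by ring
    rw [this, hτb1]; (clear * - hpos; linarith)
  · have : (1 - b) * (τb - 10 * η) = (1 - b) * τb - (1 - b) * (10 * η) := by ring
    rw [this, hτb1]; (clear * - hpos; linarith)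

/-- Huxley's density theorem (helper26) in the form used here -/
theorem dens : Dens 2.4 0.45 := by
  intro τ ε hτ1 hτ2 hε
  set ε' := min ε 1 with hε'
  have hε'0 : 0 < ε' := lt_min hε (by norm_num)
  have hε'1 : ε' ≤ 1 := min_le_right _ _
  have hε'2 : ε' ≤ ε := min_le_left _ _
  obtain ⟨T0, hT0⟩ := Pool.Agent.M20.Helper26.KC.huxleyS (ε' / 4) (by (clear * - hε; positivity))
  have hev : ∀ᶠ X : ℝ in atTop, T0 ≤ X ^ τ + 1 ∧ X ^ τ + 1 ≤ X ∧ 8 ≤ X ^ (ε' / 2) ∧ 1 ≤ X := by
    have e1 : ∀ᶠ X : ℝ in atTop, T0 ≤ X ^ τ :=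
      (tendsto_rpow_atTop (by (clear * - hτ1; linarith) : (0:ℝ) < τ)).eventually (eventually_ge_atTop T0)
    have e2 : ∀ᶠ X : ℝ in atTop, 2 ≤ X ^ (1 - τ) :=
      (tendsto_rpow_atTop (by (clear * - hτ2; linarith) : (0:ℝ) < 1 - τ)).eventually (eventually_ge_atTop 2)
    have e3 : ∀ᶠ X : ℝ in atTop, 8 ≤ X ^ (ε' / 2) :=
      (tendsto_rpow_atTop (by positivity : (0:ℝ) < ε' / 2)).eventually (eventually_ge_atTop 8)
    filter_upwards [e1, e2, e3, eventually_ge_atTop 1] with X h1 h2 h3 h4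
    refine ⟨by (clear * - h1; linarith), ?_, h3, h4⟩
    have hX : 0 < X := by (clear * - h4; linarith)
    have h5 : X = X ^ τ * X ^ (1 - τ) := by rw [← Real.rpow_add hX]; norm_num
    have h6 : 1 ≤ X ^ τ := Real.one_le_rpow h4 (by (clear * - hτ1; linarith))
    have h7 : X ^ τ * 2 ≤ X ^ τ * X ^ (1 - τ) := mul_le_mul_of_nonneg_left h2 (by positivity)
    linarith
  obtain ⟨X0, hX0⟩ := eventually_atTop.1 hev
  refine ⟨X0, fun X x Z hX hx0 hx1 hS hZ => ?_⟩
  obtain ⟨h1, h2, h3, h4⟩ := hX0 X hX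
  have hXp : 0 < X := by (clear * - hx0 hx1 h4; linarith)
  have h6 : 1 ≤ X ^ τ := Real.one_le_rpow h4 (by linarith)
  set T := X ^ τ + 1 with hT
  have hT1 : 1 ≤ T := by (clear * - hx0 hx1 h6; linarith)
  have hlog : Real.log T ≤ Real.log X := Real.log_le_log (by (clear * - hx0 hx1 h6; linarith)) h2
  have hlog0 : 0 ≤ Real.log T := Real.log_nonneg hT1
  have hH := hT0 T x h1 hx0 hx1 Z hS (fun ρ hρ => by
    obtain ⟨a, b, c, e⟩ := hZ ρ hρ
    refine ⟨a, b, le_trans ?_ c, e⟩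
    exact pow_le_pow_left₀ hlog0 hlog 2)
  refine hH.trans ?_
  have h7 : T ≤ 2 * X ^ τ := by (clear * - h6; linarith)
  have h8 : 0 ≤ 2.4 * x + ε' / 4 := by positivity
  have h9 : 2.4 * x + ε' / 4 ≤ 3 := by norm_num at hx1 ⊢; (clear * - hε'1 hx0 hx1; linarith)
  calc T ^ (2.4 * x + ε' / 4) ≤ (2 * X ^ τ) ^ (2.4 * x + ε' / 4) := Real.rpow_le_rpow (by (clear * - hx0 hx1 h6; linarith)) h7 h8
    _ = 2 ^ (2.4 * x + ε' / 4) * X ^ (τ * (2.4 * x + ε' / 4)) := by
        rw [Real.mul_rpow (by norm_num) (by positivity), ← Real.rpow_mul hXp.le]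
    _ ≤ 8 * X ^ (τ * (2.4 * x + ε' / 4)) := by
        apply mul_le_mul_of_nonneg_right _ (by (clear * - h4; positivity))
        calc (2:ℝ) ^ (2.4 * x + ε' / 4) ≤ 2 ^ (3:ℝ) := Real.rpow_le_rpow_of_exponent_le (by norm_num) h9
          _ = 8 := by norm_num
    _ ≤ X ^ (ε' / 2) * X ^ (τ * (2.4 * x + ε' / 4)) := by gcongr
    _ = X ^ (ε' / 2 + τ * (2.4 * x + ε' / 4)) := by rw [← Real.rpow_add hXp]
    _ ≤ X ^ (2.4 * x * τ + ε) := by
        apply Real.rpow_le_rpow_of_exponent_le h4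
        have : τ * (ε' / 4) ≤ 1 * (ε' / 4) := mul_le_mul_of_nonneg_right (by (clear * - hτ2 hx0 hx1; linarith)) (by positivity)
        (clear * - hε hε'2 this; nlinarith)

/-- class 3, unconditionally: for `1/4 < b < 0.3975` at most `X^(1/2-b)` cells of length `X^(1/2-d)` are without
numbers `q m`, `m` prime of size `X^b` -/
theorem class3_gen {b : ℝ} (hb1 : 1/4 < b) (hb2 : b < 0.3975) : CountEx (fun k => ⌊b * (k : ℝ)⌋₊) (1/2 - b) := by
  norm_num at hb2
  refine countEx_of_dens (A := 2.4) (x1 := 0.45) (w1 := -0.33) (by norm_num) (by norm_num) dens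
    (by norm_num) (by norm_num) (by norm_num) hb1 (by linarith) (by norm_num; linarith)

/-- class 3 with `b = 0.3958` -/
theorem class3 : CountEx (fun k => ⌊(0.3958 : ℝ) * (k : ℝ)⌋₊) 0.1042 := by
  have h := class3_gen (b := 0.3958) (by norm_num) (by norm_num)
  norm_num at h ⊢
  exact h

end Pool.Agent.M20.Helper1.KF
end

/- Helper53.KN.Helper60.KE.Final -/
section
/-! CountE2: `BadZeroE2` from the prime side. -/

set_option autoImplicit false
open Filter Topology MeasureTheory Complex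
open scoped Classical

namespace Pool.Agent.M20.Helper60.KE

open Pool.Agent.M20.Helper10.QRH Pool.Agent.M20.Helper69.QRH Pool.Agent.M20.Helper46.KSZ

theorem explicitE2' (h10 : PrimeSideE2) : ExplicitE2 :=
  explicitE2 Helper1.KL.s1Lower Helper33.KSZ.boxExists
    (Helper8.KSZ.shiftIter Helper79.QRH.kFacts
      (Helper8.KSZ.shift Helper79.QRH.kFacts gBound'
        (Helper48.KSZ.lineTwo Helper79.QRH.kFacts gBound')) Helper9.KSZ.kerFacts)
    h10
    (lineFewE2 Helper1.KL.s1Lower Helper79.QRH.kFacts gBound')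
    (Helper18.KSZ.highZeros Helper79.QRH.kFacts cardBox')

/-- explicit formula for the cells with the factor `P(s)` -/
theorem badZeroE2 (h10 : PrimeSideE2) : Helper60.KS.BadZeroE2 := by
  intro d hd0 hd
  obtain ⟨c₀, hc₀, K, hK⟩ := explicitE2' h10 d hd0 hd
  refine ⟨c₀, hc₀, max K ⌈2 / d⌉₊, fun k hk => ?_⟩
  obtain ⟨c, Ex, hc, hEx, hall⟩ := hK k ((le_max_left _ _).trans hk)
  have hfin := explicitCells'.1 d k
  have hdk : 2 ≤ d * k := by
    have h1 : (⌈2 / d⌉₊ : ℝ) ≤ k := by exact_mod_cast (le_max_right _ _).trans hk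
    have h2 := (Nat.le_ceil (2 / d)).trans h1
    rw [div_le_iff₀ hd0] at h2
    linarith
  have hpow : ∀ x : ℝ, ((2 : ℝ) ^ k) ^ x = (2 : ℝ) ^ (x * k) := by
    intro x
    rw [← Real.rpow_natCast 2 k, ← Real.rpow_mul (by norm_num), mul_comm]
  have hmem : ∀ ρ, ρ ∈ hfin.toFinset ↔ ρ ∈ zeroSet d k := fun ρ => by simp
  refine ⟨hfin.toFinset, c, uu d k, Ex, ?_, ?_, ?_, ?_, ?_, ?_⟩
  · intro ρ hρ
    obtain ⟨h0, h1, h2⟩ := (hmem ρ).1 hρ
    refine ⟨h0, by norm_num at h1 ⊢; exact h1, ?_⟩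
    rw [hpow]
    linarith
  · intro ρ hρ
    obtain ⟨h0, h1, h2⟩ := (hmem ρ).1 hρ
    refine hc ρ (by linarith) ?_
    by_contra hcon
    exact riemannZeta_ne_zero_of_one_le_re (not_le.1 hcon).le h0
  · intro j hj
    obtain ⟨h1, h2, -⟩ := uu_range hd0 (j := j) (k := k) hj
    exact ⟨h1, h2⟩
  · intro j hj j' hj' hne
    rcases lt_or_gt_of_ne hne with h | h
    · refine (uu_spacing hd0 hdk hj hj' h).trans ?_
      rw [abs_sub_comm]
      exact le_abs_self _
    · exact (uu_spacing hd0 hdk hj' hj h).trans (le_abs_self _)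
  · rw [hpow]
    exact hEx
  · intro j hj hjE hfew
    exact hall j hj hjE hfew _ hmem

end Pool.Agent.M20.Helper60.KE
end

/- Helper53.KN.Helper60.KE.All -/
section
/-! CountE2, unconditional. -/

set_option autoImplicit false

namespace Pool.Agent.M20.Helper60.KE
open Pool.Agent.M20.Helper60.KS

theorem primeSideE2' : PrimeSideE2 := primeSideE2 Helper1.KL.s1Lower Helper9.KSZ.kerFacts

theorem inBadZeroE2 : BadZeroE2 := badZeroE2 primeSideE2'

theorem inClassBoundE2 : ClassBoundE2 :=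
  Helper35.KE.classBoundE2 KC.mvCount KC.huxleyCount KC.sLemma Helper91.KC.powDP

/-- **CountE2**, unconditional: at most `2^(0.172 k)` cells of length about `X^(1/2-d)` in `[X, 2X)`, `X = 2^k`,
contain fewer than `c0 2^e / k^2` numbers `q m`, `q` prime, `m` prime in `(M, 2M]`, `M` about `X^0.495`. -/
theorem countE2 : CountE2 0.172 :=
  countE2_of inBadZeroE2 (Helper1.KL.thmNk (by norm_num)) Helper1.KL.s1Lower KC.inA9i KC.inDetect inClassBoundE2
    Helper46.KC.splitSpaced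

end Pool.Agent.M20.Helper60.KE
end

/- Helper53.KN.Helper60.KX.Sys -/
section
/-! Project KS, task 1712: the system exists. -/

set_option autoImplicit false
set_option linter.all false
open scoped Classical
open Finset Filter Topology

namespace Pool.Agent.M20.Helper60.KX

open Pool.Agent.M20.Helper16.KS
open Pool.Agent.M20.Helper29.KD (PMx nEx)
open Pool.Agent.M20.Helper60.KS (em nE2)

/-- exponent of the second class -/
noncomputable def mu2 (k : ℕ) : ℕ := ⌊(0.3958 : ℝ) * (k : ℝ)⌋₊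

noncomputable def sbad (d c1 : ℝ) (k j : ℕ) : Prop := (npr d k j : ℝ) < c1 * 2 ^ ec d k / k

noncomputable def scls (d c1 : ℝ) (k j : ℕ) : Fin 3 :=
  if c1 * 2 ^ ec d k / (k:ℝ) ^ 2 ≤ ((candP d (em k) k j).card : ℝ) then 0
  else if c1 * 2 ^ ec d k / (k:ℝ) ^ 2 ≤ ((candP d (mu2 k) k j).card : ℝ) then 1
  else 2

noncomputable def scand (d c1 : ℝ) (k j : ℕ) : Finset (ℕ × ℕ) :=
  if scls d c1 k j = 0 then candP d (em k) k j
  else if scls d c1 k j = 1 then candP d (mu2 k) k j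
  else candR d k j

noncomputable def su : Fin 3 → ℝ := ![0.2156, 0.172, 0.1042]

lemma cls_cases (d c1 : ℝ) (k j : ℕ) :
    (scls d c1 k j = 0 ∧ scand d c1 k j = candP d (em k) k j ∧
      c1 * 2 ^ ec d k / (k:ℝ) ^ 2 ≤ ((candP d (em k) k j).card : ℝ)) ∨
    (scls d c1 k j = 1 ∧ scand d c1 k j = candP d (mu2 k) k j ∧
      ((candP d (em k) k j).card : ℝ) < c1 * 2 ^ ec d k / (k:ℝ) ^ 2 ∧
      c1 * 2 ^ ec d k / (k:ℝ) ^ 2 ≤ ((candP d (mu2 k) k j).card : ℝ)) ∨
    (scls d c1 k j = 2 ∧ scand d c1 k j = candR d k j ∧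
      ((candP d (mu2 k) k j).card : ℝ) < c1 * 2 ^ ec d k / (k:ℝ) ^ 2) := by
  unfold scand
  by_cases h1 : c1 * 2 ^ ec d k / (k:ℝ) ^ 2 ≤ ((candP d (em k) k j).card : ℝ)
  · left
    have : scls d c1 k j = 0 := by unfold scls; rw [if_pos h1]
    exact ⟨this, by rw [if_pos this], h1⟩
  · by_cases h2 : c1 * 2 ^ ec d k / (k:ℝ) ^ 2 ≤ ((candP d (mu2 k) k j).card : ℝ)
    · right; left
      have : scls d c1 k j = 1 := by unfold scls; rw [if_neg h1, if_pos h2]
      exact ⟨this, by rw [this]; simp, not_le.mp h1, h2⟩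
    · right; right
      have : scls d c1 k j = 2 := by unfold scls; rw [if_neg h1, if_neg h2]
      exact ⟨this, by rw [this]; simp, not_le.mp h2⟩

lemma ecw_zero (d : ℝ) (k : ℕ) : Pool.Agent.M20.Helper60.KS.ecw 0 d k = ec d k := by
  unfold Pool.Agent.M20.Helper60.KS.ecw ec
  rw [add_zero]

lemma su0 : su 0 = 0.2156 := rfl
lemma su1 : su 1 = 0.172 := rfl
lemma su2 : su 2 = 0.1042 := rfl

/-- bounds of the exponents -/
lemma mu_bounds {k : ℕ} (hk : 1000 ≤ k) :
    ((0.4 : ℝ) * k ≤ em k ∧ (em k : ℝ) ≤ 0.495 * k ∧ (0.494 : ℝ) * k ≤ em k ∧ 2 * em k + 2 < k) ∧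
    ((0.39 : ℝ) * k ≤ mu2 k ∧ (mu2 k : ℝ) ≤ 0.3958 * k ∧ 2 * mu2 k + 2 < k) := by
  have hkr : (1000 : ℝ) ≤ k := by exact_mod_cast hk
  obtain ⟨h1, h2⟩ := Pool.Agent.M20.Helper60.KE.em_bounds k
  have h3 : (0.3958 : ℝ) * k - 1 < mu2 k := by
    have := Nat.lt_floor_add_one ((0.3958 : ℝ) * (k : ℝ))
    unfold mu2; (clear * - this; linarith)
  have h4 : (mu2 k : ℝ) ≤ 0.3958 * k := by
    unfold mu2
    exact Nat.floor_le (by positivity)
  refine ⟨⟨by (clear * - hkr h1; linarith), h2, by (clear * - hkr h1; linarith), ?_⟩, by (clear * - hkr h3; linarith), h4, ?_⟩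
  · have : ((2 * em k + 2 : ℕ) : ℝ) < k := by push_cast; (clear * - hkr h2; linarith)
    exact_mod_cast this
  · have : ((2 * mu2 k + 2 : ℕ) : ℝ) < k := by push_cast; (clear * - hkr h4; linarith)
    exact_mod_cast this

/-- **the control system exists** -/
theorem existsSys (hpow : ∃ η : ℝ, 0 < η ∧ η ≤ 1/100 ∧ PowC (1/100) η) : ExistsSys := by
  obtain ⟨η, hη0, hη1, hpow⟩ := hpow
  set c : ℝ := min (η / 10) (1/1000) with hc
  have hc0 : 0 < c := lt_min (by positivity) (by norm_num)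
  have hc1 : c ≤ η / 10 := min_le_left _ _
  have hc2 : c ≤ 1/1000 := min_le_right _ _
  obtain ⟨dA, hdA, hA⟩ := Pool.Agent.M20.Helper60.KC.count_000
  obtain ⟨dB, hdB, hB⟩ := Pool.Agent.M20.Helper60.KE.countE2
  obtain ⟨dC, hdC, hC⟩ := Pool.Agent.M20.Helper1.KF.class3
  set d : ℝ := min (min dA dB) (min dC (c / 10 ^ 5)) with hd
  have hd0 : 0 < d := lt_min (lt_min hdA hdB) (lt_min hdC (by positivity))
  have hd1 : d ≤ dA := (min_le_left _ _).trans (min_le_left _ _)
  have hd2 : d ≤ dB := (min_le_left _ _).trans (min_le_right _ _)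
  have hd3 : d ≤ dC := (min_le_right _ _).trans (min_le_left _ _)
  have hd4 : d ≤ c / 10 ^ 5 := (min_le_right _ _).trans (min_le_right _ _)
  have hd5 : d ≤ 1/10000 := by
    refine hd4.trans ?_
    rw [div_le_div_iff₀ (by positivity) (by positivity)]
    (clear * - hη1 hc1 hd0 hd4; linarith)
  obtain ⟨cA, hcA, KA, hA⟩ := hA d hd0 hd1
  obtain ⟨cB, hcB, KB, hB⟩ := hB d hd0 hd2
  obtain ⟨cC, hcC, KC, hC⟩ := hC d hd0 hd3
  obtain ⟨cr, hcr, KR, hR⟩ := rset_lower hd0 hd5
  obtain ⟨C1, hC1, K1, hW1⟩ := Pool.Agent.M20.Helper40.KS.pairs_bt (θ₁ := 0.39) (θ₂ := 0.4955) (by norm_num) (by norm_num)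
  obtain ⟨C2, hC2, K2, hW2⟩ := Pool.Agent.M20.Helper40.KS.pairs_rough
  obtain ⟨C3, hC3, K3, hW3⟩ := Pool.Agent.M20.Helper40.KS.rough_up
  set c1 : ℝ := min (min cA cB) (min cC (min (cr / 2) 1)) with hc1d
  have hc10 : 0 < c1 := lt_min (lt_min hcA hcB) (lt_min hcC (lt_min (by positivity) one_pos))
  have hcA1 : c1 ≤ cA := (min_le_left _ _).trans (min_le_left _ _)
  have hcB1 : c1 ≤ cB := (min_le_left _ _).trans (min_le_right _ _)
  have hcC1 : c1 ≤ cC := (min_le_right _ _).trans (min_le_left _ _)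
  have hcr1 : c1 ≤ cr / 2 := (min_le_right _ _).trans ((min_le_right _ _).trans (min_le_left _ _))
  have hc11 : c1 ≤ 1 := (min_le_right _ _).trans ((min_le_right _ _).trans (min_le_right _ _))
  set CC : ℝ := max 1 ((C1 + C2 + C3) / c1) with hCC
  have hCC1 : 1 ≤ CC := le_max_left _ _
  have hCCa : C1 / c1 ≤ CC := le_trans (div_le_div_of_nonneg_right (by (clear * - hC2 hC3; linarith)) hc10.le) (le_max_right _ _)
  have hCCb : C2 / c1 ≤ CC := le_trans (div_le_div_of_nonneg_right (by (clear * - hC1 hC3; linarith)) hc10.le) (le_max_right _ _)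
  have hCCc : C3 / c1 ≤ CC := le_trans (div_le_div_of_nonneg_right (by (clear * - hC1 hC2; linarith)) hc10.le) (le_max_right _ _)
  set K : ℕ := max (max (max KA KB) (max KC KR)) (max (max K1 K2) (max K3 1000)) with hKdef
  have hK : ∀ k : ℕ, K ≤ k → (KA ≤ k ∧ KB ≤ k ∧ KC ≤ k ∧ KR ≤ k) ∧ (K1 ≤ k ∧ K2 ≤ k ∧ K3 ≤ k ∧ 1000 ≤ k) := by
    intro k hk
    rw [hKdef] at hk
    simp only [max_le_iff] at hk
    omega
  -- the lower bound for the class 2 candidates
  have hrset : ∀ k : ℕ, K ≤ k → ∀ j < nc d k, sbad d c1 k j → c1 * 2 ^ ec d k / k ≤ ((candR d k j).card : ℝ) := by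
    intro k hk j hj hb
    obtain ⟨⟨-, -, -, h1⟩, -, -, -, h2⟩ := hK k hk
    have h3 := hR k h1 j hj
    rw [card_candR hd0 (by omega) hj]
    have h4 : 2 * (c1 * 2 ^ ec d k / k) ≤ cr * 2 ^ ec d k / k := by
      rw [← mul_div_assoc, ← mul_assoc]
      exact div_le_div_of_nonneg_right (mul_le_mul_of_nonneg_right
        (by (clear * - hcr1; linarith)) (pow_nonneg zero_le_two _)) (Nat.cast_nonneg k)
    have h5 : (npr d k j : ℝ) < c1 * 2 ^ ec d k / k := hb
    (clear * - h3 h4 h5; linarith)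
  have hk2k : ∀ k : ℕ, 1000 ≤ k → c1 * 2 ^ ec d k / (k:ℝ) ^ 2 ≤ c1 * 2 ^ ec d k / k := by
    intro k hk
    have hkr : (1000 : ℝ) ≤ k := by exact_mod_cast hk
    exact div_le_div_of_nonneg_left (mul_nonneg hc10.le (pow_nonneg zero_le_two _))
      (by (clear * - hkr; linarith)) (le_self_pow₀ (by (clear * - hkr; linarith)) two_ne_zero)
  have hrough : ∀ k : ℕ, K ≤ k → ∀ j < nc d k, sbad d c1 k j → ∀ x h : ℕ,
      (2 : ℝ) ^ (0.38 * (k : ℝ)) ≤ h →
      (((candR d k j).filter (fun y => x ≤ y.1 * y.2 ∧ y.1 * y.2 < x + h)).card : ℝ) ≤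
        CC * (h / 2 ^ ec d k) * (candR d k j).card := by
    intro k hk j hj hb x h hh2
    obtain ⟨-, b1, b2, b3, b4⟩ := hK k hk
    have hkr : (1000 : ℝ) ≤ k := by exact_mod_cast b4
    have hH : (0:ℝ) < 2 ^ ec d k := pow_pos two_pos _
    have hh0 : (0:ℝ) ≤ h := Nat.cast_nonneg h
    have h2 := hrset k hk j hj hb
    have hT : ((candR d k j).filter (fun y => x ≤ y.1 * y.2 ∧ y.1 * y.2 < x + h)).card =
        (((candR d k j).filter (fun y => x ≤ y.1 * y.2 ∧ y.1 * y.2 < x + h)).image (fun y => y.1 * y.2)).card := by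
      rw [card_image_of_injOn]
      intro y hy y' hy' he
      rw [mem_coe, mem_filter] at hy hy'
      exact candR_inj hd0 (by (clear * - b4; omega)) hj hy.1 hy'.1 he
    have h3 := hW3 k b3 x h hh2 (((candR d k j).filter (fun y => x ≤ y.1 * y.2 ∧ y.1 * y.2 < x + h)).image
      (fun y => y.1 * y.2)) (by
      intro n hn
      obtain ⟨y, hy, rfl⟩ := mem_image.mp hn
      rw [mem_filter] at hy
      obtain ⟨n', hn', f1, f2, f3⟩ := mem_candR hd0 (by (clear * - b4; omega)) hj hy.1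
      refine ⟨hy.2.1, hy.2.2, fun p hp hpd => ?_⟩
      rw [f1] at hpd
      refine lt_of_le_of_lt ?_ ((mem_filter.mp hn').2.2.2.1 p hp hpd)
      apply Real.rpow_le_rpow_of_exponent_le (by norm_num)
      (clear * - hkr; linarith))
    rw [hT]
    refine h3.trans ?_
    calc C3 * (h / (k:ℝ)) = C3 / c1 * (h / 2 ^ ec d k) * (c1 * 2 ^ ec d k / (k:ℝ)) := by
          (clear * - hc10 b4 hC3; field_simp)
      _ ≤ CC * (h / 2 ^ ec d k) * (candR d k j).card :=
          mul_le_mul (mul_le_mul_of_nonneg_right hCCc (div_nonneg hh0 hH.le)) h2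
            (div_nonneg (mul_nonneg hc10.le hH.le) (Nat.cast_nonneg k))
            (mul_nonneg (zero_le_one.trans hCC1) (div_nonneg hh0 hH.le))
  refine ⟨{ d := d, c := c, eta := η, del := 1/100, c1 := c1, C1 := CC, K := K, u := su,
            bad := sbad d c1, cls := scls d c1, Cand := scand d c1,
            d_pos := hd0, d_le := hd4, c_le := hc1, eta_le := hη1, del_le := by norm_num,
            c1_pos := hc10, c1_le := hc11, C1_ge := hCC1, K_pos := ?_,
            u_ge := ?_, u_le := ?_, pow := hpow, few := ?_, good := ?_, cand := ?_, inj := ?_,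
            many := ?_, win1 := ?_, win2 := ?_ }⟩
  · -- K_pos
    have h1 : 1000 ≤ max K3 1000 := le_max_right _ _
    have h2 : max K3 1000 ≤ max (max K1 K2) (max K3 1000) := le_max_right _ _
    have h3 : max (max K1 K2) (max K3 1000) ≤ K := le_max_right _ _
    omega
  · -- u_ge
    intro i
    fin_cases i
    · show 1/10 ≤ su 0; rw [su0]; norm_num
    · show 1/10 ≤ su 1; rw [su1]; norm_num
    · show 1/10 ≤ su 2; rw [su2]; norm_num
  · intro i
    fin_cases i
    · show su 0 ≤ 0.22; rw [su0]; norm_num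
    · show su 1 ≤ 0.22; rw [su1]; norm_num
    · show su 2 ≤ 0.22; rw [su2]; norm_num
  · -- few
    intro k hk i
    obtain ⟨⟨a1, a2, a3, a4⟩, b1, b2, b3, b4⟩ := hK k hk
    have hkr : (1000 : ℝ) ≤ k := by exact_mod_cast b4
    have hH : (0:ℝ) ≤ 2 ^ ec d k := by positivity
    fin_cases i
    · show _ ≤ (2:ℝ) ^ (su 0 * (k:ℝ))
      rw [su0]
      refine le_trans ?_ (hA k a1)
      rw [ecw_zero]
      have hsub : ((range (nc d k)).filter (fun j => sbad d c1 k j ∧ scls d c1 k j = 0)) ⊆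
          (range (2 ^ (k - ec d k))).filter (fun j =>
            (Pool.Agent.M20.Helper60.KS.npr k (ec d k) j : ℝ) < cA * 2 ^ ec d k / k) := by
        intro j hj
        rw [mem_filter] at hj ⊢
        refine ⟨hj.1, lt_of_lt_of_le hj.2.1 ?_⟩
        exact div_le_div_of_nonneg_right (mul_le_mul_of_nonneg_right hcA1 hH) (Nat.cast_nonneg k)
      exact_mod_cast card_le_card hsub
    · show _ ≤ (2:ℝ) ^ (su 1 * (k:ℝ))
      rw [su1]
      refine le_trans ?_ (hB k a2)
      have hsub : ((range (nc d k)).filter (fun j => sbad d c1 k j ∧ scls d c1 k j = 1)) ⊆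
          (range (2 ^ (k - ec d k))).filter (fun j => (nE2 k (ec d k) j : ℝ) < cB * 2 ^ ec d k / (k:ℝ) ^ 2) := by
        intro j hj
        rw [mem_filter] at hj ⊢
        refine ⟨hj.1, ?_⟩
        obtain ⟨-, hcls⟩ := hj.2
        have e : nE2 k (ec d k) j = nEx (em k) k (ec d k) j := rfl
        rcases cls_cases d c1 k j with h | h | h
        · rw [h.1] at hcls; exact absurd hcls (by decide)
        · rw [e, ← card_candP]
          refine lt_of_lt_of_le h.2.2.1 ?_
          exact div_le_div_of_nonneg_right (mul_le_mul_of_nonneg_right hcB1 hH) (sq_nonneg _)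
        · rw [h.1] at hcls; exact absurd hcls (by decide)
      exact_mod_cast card_le_card hsub
    · show _ ≤ (2:ℝ) ^ (su 2 * (k:ℝ))
      rw [su2]
      refine le_trans ?_ (hC k a3)
      have hsub : ((range (nc d k)).filter (fun j => sbad d c1 k j ∧ scls d c1 k j = 2)) ⊆
          (range (2 ^ (k - ec d k))).filter (fun j =>
            (nEx ⌊(0.3958 : ℝ) * (k : ℝ)⌋₊ k (ec d k) j : ℝ) < cC * 2 ^ ec d k / (k:ℝ) ^ 2) := by
        intro j hj
        rw [mem_filter] at hj ⊢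
        refine ⟨hj.1, ?_⟩
        obtain ⟨-, hcls⟩ := hj.2
        rcases cls_cases d c1 k j with h | h | h
        · rw [h.1] at hcls; exact absurd hcls (by decide)
        · rw [h.1] at hcls; exact absurd hcls (by decide)
        · have h5 := h.2.2
          rw [card_candP] at h5
          refine lt_of_lt_of_le h5 ?_
          exact div_le_div_of_nonneg_right (mul_le_mul_of_nonneg_right hcC1 hH) (sq_nonneg _)
      exact_mod_cast card_le_card hsub
  · -- good
    intro k _ j _ hb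
    exact not_lt.mp hb
  · -- cand
    intro k hk j hj hb x hx
    obtain ⟨-, b1, b2, b3, b4⟩ := hK k hk
    have hkr : (1000 : ℝ) ≤ k := by exact_mod_cast b4
    obtain ⟨⟨m1, m2, m3, m4⟩, n1, n2, n3⟩ := mu_bounds b4
    have hck : c * (k : ℝ) ≤ 1/1000 * k := mul_le_mul_of_nonneg_right hc2 (Nat.cast_nonneg k)
    rcases cls_cases d c1 k j with h | h | h
    · rw [h.2.1] at hx
      rw [h.1, su0]
      exact candP_facts hd0 hj m4 (by omega) (by (clear * - hck hkr m3; linarith)) (by (clear * - hck hkr m2; linarith)) hx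
    · rw [h.2.1] at hx
      rw [h.1, su1]
      exact candP_facts hd0 hj n3 (by omega) (by (clear * - hck hkr n1; linarith)) (by (clear * - hck hkr n2; linarith)) hx
    · rw [h.2.1] at hx
      rw [h.1, su2]
      exact candR_facts hd0 hj (by omega) (by (clear * - hη1 hc1 hd0 hd4; linarith)) (by (clear * - hη1 hc1 hd0 hd4; linarith)) hx
  · -- inj
    intro k hk j hj hb x hx y hy hxy
    obtain ⟨-, b1, b2, b3, b4⟩ := hK k hk
    obtain ⟨⟨m1, m2, m3, m4⟩, n1, n2, n3⟩ := mu_bounds b4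
    rcases cls_cases d c1 k j with h | h | h
    · rw [h.2.1] at hx hy
      exact candP_inj hd0 hj m4 hx hy hxy
    · rw [h.2.1] at hx hy
      exact candP_inj hd0 hj n3 hx hy hxy
    · rw [h.2.1] at hx hy
      exact candR_inj hd0 (by omega) hj hx hy hxy
  · -- many
    intro k hk j hj hb
    obtain ⟨-, b1, b2, b3, b4⟩ := hK k hk
    rcases cls_cases d c1 k j with h | h | h
    · rw [h.2.1]; exact h.2.2
    · rw [h.2.1]; exact h.2.2.2
    · rw [h.2.1]; exact (hk2k k b4).trans (hrset k hk j hj hb)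
  · -- win1
    intro k hk j hj hb x h hh
    obtain ⟨-, b1, b2, b3, b4⟩ := hK k hk
    have hkr : (1000 : ℝ) ≤ k := by exact_mod_cast b4
    obtain ⟨⟨m1, m2, m3, m4⟩, n1, n2, n3⟩ := mu_bounds b4
    have hH : (0:ℝ) < 2 ^ ec d k := by positivity
    have hh0 : (0:ℝ) ≤ h := Nat.cast_nonneg h
    have hP : ∀ μ : ℕ, (0.39:ℝ) * k ≤ μ → (μ:ℝ) ≤ 0.4955 * k →
        c1 * 2 ^ ec d k / (k:ℝ) ^ 2 ≤ ((candP d μ k j).card : ℝ) →
        (((candP d μ k j).filter (fun y => x ≤ y.1 * y.2 ∧ y.1 * y.2 < x + h)).card : ℝ) ≤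
        CC * (h / 2 ^ ec d k) * (candP d μ k j).card := by
      intro μ hμ1 hμ2 hcard
      have h1 := hW1 k b1 μ hμ1 hμ2 x h hh ((candP d μ k j).filter (fun y => x ≤ y.1 * y.2 ∧ y.1 * y.2 < x + h)) (by
        intro y hy
        rw [mem_filter] at hy
        obtain ⟨⟨f1, ⟨f2, f3⟩, f4⟩, f5, f6⟩ := mem_candP.mp hy.1
        exact ⟨f5, f4, f2, f3, hy.2.1, hy.2.2⟩)
      refine h1.trans ?_
      calc C1 * (h / (k:ℝ) ^ 2) = C1 / c1 * (h / 2 ^ ec d k) * (c1 * 2 ^ ec d k / (k:ℝ) ^ 2) := by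
            (clear * - hc10 b4 hC1; field_simp)
        _ ≤ CC * (h / 2 ^ ec d k) * (candP d μ k j).card :=
            mul_le_mul (mul_le_mul_of_nonneg_right hCCa (div_nonneg hh0 hH.le)) hcard
              (div_nonneg (mul_nonneg hc10.le hH.le) (sq_nonneg _))
              (mul_nonneg (zero_le_one.trans hCC1) (div_nonneg hh0 hH.le))
    rcases cls_cases d c1 k j with hc' | hc' | hc'
    · rw [hc'.2.1]
      exact hP (em k) (by (clear * - hkr m3; linarith)) (by (clear * - hkr m2; linarith)) hc'.2.2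
    · rw [hc'.2.1]
      exact hP (mu2 k) n1 (by (clear * - hkr n2; linarith)) hc'.2.2.2
    · rw [hc'.2.1]
      have hh2 : (2 : ℝ) ^ (0.38 * (k : ℝ)) ≤ h := by
        refine le_trans ?_ hh
        apply Real.rpow_le_rpow_of_exponent_le (by norm_num)
        (clear * - hkr; linarith)
      exact hrough k hk j hj hb x h hh2
  · -- win2
    intro k hk j hj hb x h hh
    obtain ⟨-, b1, b2, b3, b4⟩ := hK k hk
    have hkr : (1000 : ℝ) ≤ k := by exact_mod_cast b4
    obtain ⟨⟨m1, m2, m3, m4⟩, n1, n2, n3⟩ := mu_bounds b4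
    have hH : (0:ℝ) < 2 ^ ec d k := by positivity
    have hh0 : (0:ℝ) ≤ h := Nat.cast_nonneg h
    have hP : ∀ μ : ℕ, (0.39:ℝ) * k ≤ μ → (μ:ℝ) ≤ 0.4955 * k → 2 * μ + 2 < k →
        c1 * 2 ^ ec d k / (k:ℝ) ^ 2 ≤ ((candP d μ k j).card : ℝ) →
        (((candP d μ k j).filter (fun y => x ≤ y.1 * y.2 ∧ y.1 * y.2 < x + h)).card : ℝ) ≤
        CC * k * (h / 2 ^ ec d k) * (candP d μ k j).card := by
      intro μ hμ1 hμ2 hμ3 hcard
      have h1 := hW2 k b2 x h hh ((candP d μ k j).filter (fun y => x ≤ y.1 * y.2 ∧ y.1 * y.2 < x + h)) (by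
        intro y hy
        rw [mem_filter] at hy
        obtain ⟨⟨f1, ⟨f2, f3⟩, f4⟩, f5, f6⟩ := mem_candP.mp hy.1
        have f7 := (q_large hd0 hj hμ3 hy.1).2
        have f8 : (2 : ℝ) ^ (0.19 * (k : ℝ)) ≤ (2:ℝ) ^ μ := by
          rw [← Real.rpow_natCast 2 μ]
          apply Real.rpow_le_rpow_of_exponent_le (by norm_num)
          (clear * - hkr hμ1; linarith)
        have f9 : (2:ℝ) ^ μ < y.2 := by exact_mod_cast f2
        have f10 : (2:ℝ) ^ μ < y.1 := by
          have : 2 ^ μ < y.1 := by omega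
          exact_mod_cast this
        exact ⟨f5, f4, lt_of_le_of_lt f8 f10, lt_of_le_of_lt f8 f9, hy.2.1, hy.2.2⟩)
      refine h1.trans ?_
      calc C2 * (h / (k:ℝ)) = C2 / c1 * k * (h / 2 ^ ec d k) * (c1 * 2 ^ ec d k / (k:ℝ) ^ 2) := by
            (clear * - hc10 b4 hC2; field_simp)
        _ ≤ CC * k * (h / 2 ^ ec d k) * (candP d μ k j).card :=
            mul_le_mul (mul_le_mul_of_nonneg_right (mul_le_mul_of_nonneg_right hCCb
              (Nat.cast_nonneg k)) (div_nonneg hh0 hH.le)) hcard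
              (div_nonneg (mul_nonneg hc10.le hH.le) (sq_nonneg _))
              (mul_nonneg (mul_nonneg (zero_le_one.trans hCC1) (Nat.cast_nonneg k))
                (div_nonneg hh0 hH.le))
    rcases cls_cases d c1 k j with hc' | hc' | hc'
    · rw [hc'.2.1]
      exact hP (em k) (by (clear * - hkr m3; linarith)) (by (clear * - hkr m2; linarith)) m4 hc'.2.2
    · rw [hc'.2.1]
      exact hP (mu2 k) n1 (by (clear * - hkr n2; linarith)) n3 hc'.2.2.2
    · rw [hc'.2.1]
      refine (hrough k hk j hj hb x h hh).trans ?_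
      have hk1 : (1:ℝ) ≤ k := by (clear * - hkr; linarith)
      exact mul_le_mul_of_nonneg_right (mul_le_mul_of_nonneg_right
        (le_mul_of_one_le_right (zero_le_one.trans hCC1) hk1) (div_nonneg hh0 hH.le))
        (Nat.cast_nonneg _)

end Pool.Agent.M20.Helper60.KX
end

/- Helper53.KN.Helper16.KS.Main -/
section
/-!
# Project KS: the main theorem from the load estimates KF and JF
-/

set_option autoImplicit false

namespace Pool.Agent.M20.Helper16.KS

theorem goodStar : GoodStar :=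
  star_assembly
    (Pool.Agent.M20.Helper33.KS.light (Pool.Agent.M20.Helper15.KS.ordWin Pool.Agent.M20.Helper61.KS.ordLe)
      Pool.Agent.M20.Helper29.KS.rank Pool.Agent.M20.Helper61.KS.wpLe Pool.Agent.M20.Helper61.KS.ordLe)
    Pool.Agent.M20.Helper60.KX.expand
    (Pool.Agent.M20.Helper60.KX.h12 Pool.Agent.M20.Helper61.KS.woLe Pool.Agent.M20.Helper61.KS.wpLe)
    (Pool.Agent.M20.Helper15.KS.h3 Pool.Agent.M20.Helper61.KS.wpLe Pool.Agent.M20.Helper29.KS.sumW)
    (Pool.Agent.M20.Helper60.KX.h4 Pool.Agent.M20.Helper61.KS.ordLe Pool.Agent.M20.Helper61.KS.ctlLe)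
    (Pool.Agent.M20.Helper72.KS.init Pool.Agent.M20.Helper61.KS.woLe)

theorem existsSys : ExistsSys := Pool.Agent.M20.Helper60.KX.existsSys Pool.Agent.M20.Helper48.KS.powC

theorem existsGood (hKF : Pool.Agent.M20.Helper18.KL.KF) (hJF : Pool.Agent.M20.Helper18.KL.JF) :
    ExistsGood :=
  Pool.Agent.M20.Helper62.KS.existsGood_of Pool.Agent.M20.Helper88.KS.cand1 Pool.Agent.M20.Helper88.KS.mult1
    Pool.Agent.M20.Helper29.KS.massC1 Pool.Agent.M20.Helper29.KS.massR1 Pool.Agent.M20.Helper14.KS.crude1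
    Pool.Agent.M20.Helper14.KS.rpart1
    (Pool.Agent.M20.Helper88.KS.load1_of Pool.Agent.M20.Helper18.KL.red hKF hJF)
    (Pool.Agent.M20.Helper88.KS.load2_of Pool.Agent.M20.Helper18.KL.red hJF Pool.Agent.M20.Helper18.KL.ll)

theorem target_of_KF_JF (hKF : Pool.Agent.M20.Helper18.KL.KF) (hJF : Pool.Agent.M20.Helper18.KL.JF) :
    Target :=
  target existsSys (existsGood hKF hJF) goodStar Pool.Agent.M20.Helper79.KS.FPM.fp last

/-- the negation of the question of Kahane and Saias -/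
theorem target_final : Target :=
  target_of_KF_JF Pool.Agent.M20.Helper35.KL.kF Pool.Agent.M20.Helper35.KL.jF

end Pool.Agent.M20.Helper16.KS
end

/- Helper53.KN.Helper35.KL.Load -/
section
/-! Project KS: the load theorems `Load1`, `Load2`. -/

set_option autoImplicit false

namespace Pool.Agent.M20.Helper35.KL

theorem load1 : Pool.Agent.M20.Helper16.KS.Load1 :=
  Pool.Agent.M20.Helper88.KS.load1_of Pool.Agent.M20.Helper18.KL.red kF jF

theorem load2 : Pool.Agent.M20.Helper16.KS.Load2 :=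
  Pool.Agent.M20.Helper18.KL.load2_of Pool.Agent.M20.Helper18.KL.red jF Pool.Agent.M20.Helper18.KL.ll

end Pool.Agent.M20.Helper35.KL
end

/- Helper53.KN.Helper10.KS.Assembly -/
section
/-! Assembly of project KS (MP_768c9c_nt, S17468). -/

set_option autoImplicit false

namespace Pool.Agent.M20.Helper10.KS

open Pool.Agent.M20.Helper16.KS

theorem existsSys_all : ExistsSys := Helper60.KX.existsSys Helper48.KS.powC

theorem light_all : Light :=
  Helper33.KS.light (Helper15.KS.ordWin Helper59.KS.ordLe) Helper29.KS.rank Helper59.KS.wpLe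
    Helper59.KS.ordLe

theorem goodStar_all : GoodStar :=
  star_assembly light_all Helper60.KX.expand
    (Helper60.KX.h12 Helper29.KS.woLe Helper59.KS.wpLe)
    (Helper15.KS.h3 Helper59.KS.wpLe Helper29.KS.sumW)
    (Helper60.KX.h4 Helper59.KS.ordLe Helper59.KS.ctlLe)
    (Helper72.KS.init Helper29.KS.woLe)

theorem existsGood_all : ExistsGood :=
  Helper62.KS.existsGood_of Helper88.KS.cand1 Helper88.KS.mult1 Helper29.KS.massC1
    Helper29.KS.massR1 Helper14.KS.crude1 Helper14.KS.rpart1 Helper35.KL.load1 Helper35.KL.load2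

theorem powerSaving_all :
    ∃ f : ℕ → ℝ, f 1 = 1 ∧ (∀ m n : ℕ, 0 < m → 0 < n → f (m * n) = f m * f n) ∧
      ∃ δ C : ℝ, 0 < δ ∧ ∀ N : ℕ, 0 < N →
        |∑ n ∈ Finset.Icc 1 N, f n| ≤ C * (N : ℝ) ^ (-(1/2 + δ)) := by
  obtain ⟨a, g, C, e, he, ha, hC⟩ :=
    exists_f existsSys_all existsGood_all goodStar_all Helper79.KS.FPM.fp last
  exact ⟨a, by rw [ha, CM_one], fun m n hm hn => by rw [ha, ha, ha, CM_mul g hm.ne' hn.ne'],
    e, C, he, fun N hN => hC N hN⟩

end Pool.Agent.M20.Helper10.KS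
end
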